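import Pool.Agent.Helper37_TET.CNBt

/-!
# MP_c7c9bf_co: cover of the charts, root 0 part 0
-/

set_option autoImplicit false
set_option maxRecDepth 100000

namespace Pool.Agent.TET.Cvr

theorem CN0_c0 : CoN CNTab ⟨⟨2, 3, 8⟩, ⟨1, 3, 8⟩, ⟨3, 7, 16⟩, ⟨1, 0, 0, 0,
  0⟩, ⟨8, 2, 0, 1, 0⟩, ⟨8, 2, 0, 0, 1⟩, ⟨4, 1, 1, 1, 0⟩⟩ :=
CoN.ofG CNTab_B CNBt_E CNBt_U (.C 0 3 16 1 (.C 0 1 20 1 (.C 0 2 20 1 (.B 0 1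
  1 (.C 2 3 3 4 (.C 1 2 1 1 (.C 1 2 5 3 (.L 38) (.C 2 3 3 1 (.B 1 1 1 (.L
  216) (.C 1 2 1 6 (.L 216) (.L 55))) (.L 38))) (.C 1 2 3 5 (.L 1022) (.C 2
  3 6 1 (.C 1 2 1 10 (.B 2 1 2 (.L 176) (.L 678)) (.B 2 1 2 (.B 1 1 1 (.B 1
  2 1 (.C 2 3 11 1 (.P (.ofNat 1) (.ofNat 2)) (.L 63)) (.L 73)) (.L 73)) (.C
  2 3 11 1 (.P (.ofNat 1) (.ofNat 2)) (.L 63)))) (.L 1022)))) (.C 2 3 1 7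
  (.L 16) (.C 1 3 3 4 (.L 65) (.C 2 3 1 14 (.L 16) (.C 2 3 1 28 (.C 1 3 7 1
  (.L 16) (.L 326)) (.C 2 3 1 56 (.C 1 2 7 1 (.C 1 3 14 1 (.L 16) (.L 326))
  (.L 326)) (.C 2 3 1 112 (.C 1 2 14 1 (.C 1 3 29 1 (.L 16) (.L 326)) (.L
  326)) (.C 2 3 1 224 (.C 1 2 29 1 (.C 1 3 58 1 (.P (.negSucc 2) (.ofNat 4))
  (.L 131)) (.L 131)) (.C 2 3 1 448 (.C 1 2 58 1 (.C 1 3 116 1 (.P (.negSucc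
  2) (.ofNat 4)) (.B 1 1 1 (.B 0 2 1 (.L 131) (.L 443)) (.L 131))) (.C 1 3 1
  1 (.L 131) (.L 895))) (.C 1 3 1 8 (.C 1 2 116 1 (.P (.negSucc 2) (.ofNat
  4)) (.B 1 1 1 (.B 0 2 1 (.L 131) (.L 443)) (.L 131))) (.B 0 2 1 (.L 131)
  (.B 1 1 1 (.L 443) (.L 131))))))))))))) (.C 0 1 40 1 (.C 0 2 40 1 (.C 0 3
  32 1 (.B 0 1 2 (.C 2 3 3 4 (.C 1 2 1 1 (.C 2 3 3 1 (.C 1 2 2 1 (.L 38) (.B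
  1 1 2 (.L 216) (.B 2 1 1 (.C 1 2 1 2 (.L 216) (.L 55)) (.L 216)))) (.L
  38)) (.C 2 3 6 1 (.C 1 3 6 1 (.C 2 3 23 1 (.C 0 2 80 1 (.B 2 1 1 (.B 1 1 2
  (.C 1 2 1 1 (.L 494) (.P (.ofNat 1) (.ofNat 3))) (.C 1 3 24 1 (.C 1 2 1 1
  (.L 494) (.P (.ofNat 1) (.ofNat 6))) (.P (.ofNat 1) (.ofNat 6)))) (.C 1 2
  1 1 (.L 494) (.P (.ofNat 1) (.ofNat 3)))) (.C 0 1 1 1 (.P (.ofNat 1)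
  (.ofNat 3)) (.B 2 1 1 (.L 202) (.C 1 2 1 2 (.L 494) (.P (.ofNat 1) (.ofNat
  3)))))) (.B 2 1 1 (.B 1 1 2 (.L 494) (.C 1 3 12 1 (.C 1 2 24 1 (.L 494)
  (.L 1354)) (.L 1354))) (.L 494))) (.C 1 2 1 23 (.L 176) (.B 2 1 1 (.L 73)
  (.C 1 2 1 46 (.L 1110) (.L 91))))) (.L 1022))) (.C 2 3 1 7 (.L 16) (.C 1 3
  3 4 (.L 65) (.C 2 3 1 14 (.L 16) (.C 2 3 1 28 (.C 1 3 7 1 (.L 16) (.L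
  326)) (.C 2 3 1 56 (.C 1 2 7 1 (.C 1 3 15 1 (.L 16) (.L 326)) (.L 326))
  (.C 2 3 1 112 (.C 1 2 15 1 (.C 1 3 29 1 (.L 16) (.B 1 1 2 (.L 606) (.L
  326))) (.C 1 3 1 1 (.L 326) (.L 443))) (.C 2 3 1 224 (.C 1 2 29 1 (.C 1 3
  58 1 (.P (.negSucc 2) (.ofNat 4)) (.B 1 1 2 (.L 606) (.L 131))) (.B 1 1 2
  (.L 606) (.L 131))) (.C 2 3 1 448 (.C 1 2 58 1 (.C 1 3 116 1 (.P (.negSucc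
  2) (.ofNat 4)) (.B 1 1 2 (.L 443) (.B 2 1 1 (.L 131) (.L 443)))) (.B 1 1 2
  (.L 443) (.B 2 1 1 (.L 131) (.L 443)))) (.B 1 1 2 (.C 1 3 1 8 (.C 1 2 116
  1 (.P (.negSucc 2) (.ofNat 4)) (.L 443)) (.L 443)) (.C 1 3 1 8 (.C 1 2 116
  1 (.P (.negSucc 2) (.ofNat 4)) (.B 2 1 1 (.L 131) (.L 443))) (.B 2 1 1 (.L
  131) (.L 443))))))))))))) (.B 1 2 1 (.C 0 1 80 1 (.C 0 2 80 1 (.B 0 1 4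
  (.C 0 3 64 1 (.B 2 1 1 (.L 141) (.C 0 1 160 1 (.B 0 2 1 (.C 0 3 128 1 (.C
  0 2 160 1 (.B 2 1 2 (.L 56) (.C 0 1 320 1 (.C 2 3 3 4 (.C 1 2 1 2 (.C 1 2
  2 1 (.L 38) (.L 97)) (.C 1 2 1 4 (.L 97) (.L 91))) (.L 217)) (.L 99))) (.L
  99)) (.L 99)) (.L 56)) (.L 8))) (.L 8)) (.L 141)) (.L 8)) (.L 8)) (.B 2 2
  1 (.C 0 1 80 1 (.B 1 1 2 (.C 0 2 80 1 (.C 0 3 64 1 (.C 0 1 160 1 (.C 0 2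
  160 1 (.C 2 3 2 5 (.B 1 2 1 (.B 0 1 2 (.B 2 1 2 (.L 202) (.C 1 2 1 1 (.C 2
  3 2 1 (.C 1 2 2 1 (.L 53) (.C 2 3 4 1 (.C 1 2 1 2 (.L 216) (.L 55)) (.L
  53))) (.L 53)) (.C 1 3 2 1 (.C 2 3 8 1 (.C 1 2 1 2 (.L 494) (.L 73)) (.L
  806)) (.C 2 3 4 1 (.C 1 2 1 8 (.L 806) (.L 73)) (.C 2 3 1 2 (.L 38) (.L
  53)))))) (.L 202)) (.B 2 1 1 (.G 202 109 4 1 1 1 1 [.g 43 64 0 0, .n, .n])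
  (.B 0 2 1 (.C 0 2 320 1 (.C 2 3 2 1 (.C 1 2 2 1 (.L 38) (.C 1 2 1 2 (.L
  806) (.C 2 3 4 1 (.C 2 3 8 1 (.C 1 2 1 4 (.L 97) (.L 73)) (.L 97)) (.L
  806)))) (.L 53)) (.C 0 3 2 1 (.C 0 1 1 2 (.C 0 1 2 1 (.C 1 3 1 1 (.C 2 3
  16 1 (.G 97 91 0 45093 178962 22546 717258 [.n, .n, .g 1 845 0 0, .g 1
  1009 0 0, .n, .n]) (.C 0 3 8 1 (.C 0 1 4 1 (.L 73) (.L 218)) (.L 494)))
  (.G 176 91 0 411 3251 206 1619 [.n, .g 13 63 0 0, .n, .n, .n, .n, .n, .n,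
  .n, .n])) (.C 1 2 1 4 (.L 494) (.C 2 3 8 1 (.C 2 3 16 1 (.P (.ofNat 1)
  (.ofNat 5)) (.L 494)) (.L 494)))) (.L 56)) (.L 56))) (.L 202)))) (.C 1 3 2
  5 (.L 16) (.C 0 1 1280 1 (.B 1 2 1 (.B 0 1 2 (.C 0 3 128 1 (.C 2 3 1 5 (.L
  16) (.C 1 3 1 10 (.L 326) (.C 1 3 1 20 (.L 326) (.C 1 2 1 4 (.L 443) (.L
  552))))) (.L 115)) (.L 202)) (.C 0 3 128 1 (.C 0 2 1264 1 (.B 2 1 1 (.L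
  1177) (.B 0 2 1 (.C 1 3 1 10 (.L 242) (.C 1 2 1 2 (.L 131) (.C 1 3 1 40
  (.L 242) (.L 1624)))) (.L 202))) (.L 202)) (.L 115))) (.L 115)))) (.L 56))
  (.L 202)) (.L 202)) (.L 202)) (.C 0 2 80 1 (.C 2 3 2 5 (.B 2 4 1 (.C 0 2
  160 1 (.C 2 3 2 1 (.C 1 2 2 1 (.L 38) (.C 1 2 1 2 (.C 1 2 2 1 (.L 216) (.L
  55)) (.C 2 3 4 1 (.C 1 3 2 1 (.C 2 3 16 1 (.P (.ofNat 1) (.ofNat 5)) (.L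
  218)) (.L 73)) (.L 494)))) (.L 53)) (.B 1 1 4 (.L 1177) (.B 2 8 1 (.C 1 2
  1 1 (.C 0 3 2 1 (.C 0 1 1 2 (.C 0 1 2 1 (.C 0 3 4 1 (.G 557 73 2 44010
  178793 44010 354834 [.n, .g 256 1 0 0, .n, .n, .n, .n, .g 9 16 0 0, .g 33
  64 0 0]) (.L 494)) (.G 1019 38 2 1168640 575330 287665 1150661 [.n, .n,
  .n, .n, .g 13 64 0 0, .g 11 61 0 0, .n, .n])) (.G 74 38 2 167386 42511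
  82365 332116 [.n, .g 128 3 0 0, .n, .n, .n, .n, .n, .n])) (.C 2 3 2 1 (.G
  3005 38 2 2037183 260759 505221 2037183 [.g 64 1 0 0, .n, .n, .n, .g 5 64
  0 0, .g 5 68 0 0, .n, .n]) (.L 53))) (.C 0 3 2 1 (.G 557 73 2 168006
  162755 84003 656272 [.n, .g 64 1 0 0, .n, .n, .n, .n, .g 35 64 0 0, .g 1 2
  0 0]) (.C 2 3 4 1 (.G 557 73 2 656272 162755 84003 651021 [.n, .g 64 1 0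
  0, .n, .n, .n, .n, .g 35 64 0 0, .g 1 2 0 0]) (.G 800 53 1 688837 172209
  688837 344419 [.n, .n, .n, .n, .g 49 64 0 0, .g 5 8 0 0, .n, .n])))) (.C 0
  3 2 1 (.C 0 1 1 2 (.C 1 2 1 4 (.C 0 1 2 1 (.G 557 73 2 157327 619475
  619475 609643 [.n, .g 64 1 0 0, .n, .n, .n, .n, .g 31 65 0 0, .g 7 16 0
  0]) (.G 216 494 0 395021 197510 395021 395021 [.n, .n, .g 1 65 0 0, .g 2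
  313 0 0])) (.G 91 176 1 451 1777 226 1763 [.g 16 1 0 0, .n, .n, .n, .n,
  .n])) (.G 122 109 0 63 16 16 125 [.g 64 5 0 0, .g 64 3 0 0, .n, .n, .n,
  .n])) (.L 109))))) (.C 0 3 624 1 (.C 0 1 160 1 (.C 0 2 160 1 (.C 0 2 320 1
  (.C 2 3 2 1 (.C 1 2 2 1 (.L 38) (.C 1 2 1 2 (.C 1 2 2 1 (.L 216) (.L 55))
  (.C 2 3 4 1 (.C 2 3 8 1 (.C 1 2 1 4 (.L 494) (.L 73)) (.L 494)) (.L
  494)))) (.L 53)) (.B 2 1 2 (.B 1 2 1 (.L 1827) (.B 2 2 1 (.C 0 3 2 1 (.C 0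
  1 1 2 (.C 1 2 1 4 (.C 0 1 2 1 (.G 557 73 2 195254 781015 781015 768812
  [.n, .g 64 1 0 0, .n, .n, .n, .n, .g 4 9 0 0, .g 13 32 0 0]) (.G 216 138 0
  422415 211208 422415 422415 [.n, .n, .g 1 54 0 0, .g 1 131 0 0])) (.G 176
  91 0 488 1937 244 1922 [.n, .g 4 21 0 0, .n, .n, .n, .n, .n, .n, .n, .n]))
  (.C 1 2 1 1 (.G 1022 38 2 175980 43995 87990 346460 [.g 128 1 0 0, .n, .n,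
  .n, .n, .n, .n, .n]) (.C 0 2 1 4 (.G 38 1022 0 210773 105387 421546 421546
  [.n, .n, .g 2 291 0 0, .n]) (.G 557 513 1 33435 8424 4212 33171 [.n, .g
  256 1 0 0, .n, .n, .n, .n, .g 64 43 0 0, .g 64 47 0 0])))) (.C 1 2 1 1 (.G
  38 1827 3 404809 51404 102809 199192 [.g 128 25 0 0, .n, .g 16 13 0 0,
  .n]) (.G 557 513 1 47790 12137 6069 23516 [.g 4096 5 0 0, .g 1024 1 0 0,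
  .n, .n, .n, .n, .g 64 33 0 0, .g 16 9 0 0]))) (.C 0 3 2 1 (.C 0 1 1 2 (.C
  0 1 2 1 (.G 557 73 2 196791 781015 98396 774866 [.n, .g 64 1 0 0, .n, .n,
  .n, .n, .g 7 16 0 0, .g 2 5 0 0]) (.L 202)) (.L 202)) (.L 202)))) (.B 0 1
  1 (.C 0 3 2 1 (.C 0 1 1 2 (.C 1 2 1 4 (.C 0 1 2 1 (.C 0 3 4 1 (.G 152 90 0
  81792 327168 327168 649225 [.n, .n, .g 1 1052 0 0, .g 1 1235 0 0, .n, .n])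
  (.L 494)) (.L 494)) (.G 176 73 2 8693 34500 4346 34228 [.n, .g 64 1 0 0,
  .n, .n, .n, .n, .n, .n, .n, .n])) (.G 3492 56 1 1 1 1 1 [.g 8 61 0 0, .n,
  .n, .n])) (.G 202 56 1 1 1 1 1 [.n, .g 1 2 0 0, .n])) (.G 115 1177 3 1 1 1
  1 [.g 27 32 0 0, .n, .n, .n])))) (.C 1 2 1 2 (.B 2 1 2 (.G 1177 115 0 1 1
  1 1 [.n, .n, .n, .g 57 64 0 0]) (.G 202 56 1 1 1 1 1 [.n, .g 7 16 0 0,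
  .n])) (.G 73 176 1 12725 25052 6362 49707 [.n, .n, .g 1 50 0 0, .n]))) (.G
  202 1177 3 1 1 1 1 [.g 64 9 0 0, .n, .n])) (.L 202))) (.C 1 3 2 5 (.L 16)
  (.C 2 3 1 10 (.L 16) (.L 131)))) (.B 2 4 1 (.C 1 2 1 2 (.B 1 1 4 (.L 30)
  (.C 0 3 2 5 (.B 2 8 1 (.C 1 2 2 1 (.B 1 1 8 (.L 30) (.C 0 1 1 1 (.C 0 3 4
  1 (.C 0 2 4 1 (.C 1 3 4 1 (.C 0 3 16 1 (.C 1 3 16 1 (.C 0 1 2 1 (.G 73 129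
  1 9126 35936 71871 572688 [.n, .n, .g 2 61 0 0, .n]) (.L 800)) (.G 109
  1059 1 16 1004 126 505 [.g 4 1 0 0, .n, .n, .n, .n])) (.L 800)) (.L 109))
  (.L 583)) (.G 583 109 0 13587 3397 6794 6794 [.n, .n, .n, .n, .g 53 64 0
  0, .g 47 64 0 0, .n, .n])) (.C 0 3 2 1 (.G 38 74 1 122634 63295 245268
  494492 [.n, .n, .g 2 59 0 0, .n]) (.G 95 53 1 2145 275 1064 1064 [.n, .n,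
  .n, .g 15 16 0 0])))) (.L 109)) (.L 30)) (.G 16 109 0 669 171 334 69 [.g 2
  5 0 0, .g 32 9 0 0, .g 64 43 0 0, .g 29 32 0 0, .n]))) (.L 109)) (.L
  202)))) (.B 1 1 2 (.L 513) (.B 2 4 1 (.G 16 109 0 201 100 100 80 [.g 15 32
  0 0, .g 32 11 0 0, .g 8 5 0 0, .g 32 31 0 0, .n]) (.L 513)))) (.C 0 1 80 1
  (.C 0 2 80 1 (.C 0 3 64 1 (.C 0 2 160 1 (.C 2 3 2 5 (.C 1 2 2 1 (.C 2 3 2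
  1 (.L 38) (.L 53)) (.C 2 3 4 1 (.C 1 2 1 2 (.L 806) (.C 2 3 8 1 (.C 1 2 1
  4 (.L 97) (.C 1 2 1 8 (.L 494) (.L 73))) (.L 97))) (.C 1 3 2 1 (.L 38) (.C
  2 3 1 2 (.L 38) (.L 53))))) (.C 1 3 3 4 (.L 65) (.C 2 3 1 10 (.L 16) (.C 0
  3 128 1 (.C 0 1 992 1 (.C 2 3 1 10 (.C 1 3 5 2 (.L 16) (.L 326)) (.C 2 3 1
  20 (.C 1 2 5 2 (.C 1 3 5 1 (.L 16) (.L 326)) (.L 326)) (.C 2 3 1 40 (.C 1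
  2 5 1 (.C 1 3 10 1 (.L 16) (.L 606)) (.L 606)) (.C 2 3 1 80 (.C 1 2 10 1
  (.C 1 3 21 1 (.L 16) (.L 606)) (.L 606)) (.C 2 3 1 160 (.C 1 2 21 1 (.C 1
  3 41 1 (.P (.negSucc 2) (.ofNat 4)) (.L 606)) (.L 606)) (.C 1 3 1 8 (.C 1
  2 41 1 (.P (.negSucc 2) (.ofNat 4)) (.L 606)) (.L 443))))))) (.L 56)) (.L
  56))))) (.L 56)) (.L 56)) (.L 141)) (.L 141))))) (.B 0 1 2 (.C 0 3 1 2 (.B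
  2 1 1 (.L 56) (.C 2 3 3 2 (.B 0 2 1 (.C 0 2 4 3 (.C 0 2 7 1 (.C 0 1 4 3
  (.C 0 3 7 1 (.G 242 443 1 10946 84834 157354 157354 [.n, .g 2 65 0 0, .g 2
  303 0 0, .n, .n]) (.L 65)) (.L 65)) (.L 16)) (.C 1 2 1 1 (.G 56 53 1 894
  152 285 894 [.n, .g 32 23 0 0, .n, .n]) (.G 1022 338 1 80550 25708 13711
  80550 [.n, .g 512 1 0 0, .g 32 31 0 0, .g 57 64 0 0, .n, .n, .n, .n])))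
  (.L 56)) (.G 443 56 1 8 10 59 16 [.n, .g 16 1 0 0, .n, .n, .n, .n]))) (.L
  338)) (.L 56))) (.L 338)) (.L 411))) (.C 2 3 3 2 (.C 0 2 1 2 (.B 0 1 1 (.B
  2 1 2 (.L 8) (.C 1 2 2 1 (.C 0 3 5 2 (.C 0 1 1 1 (.C 0 2 7 2 (.C 0 1 5 3
  (.B 2 1 4 (.L 66) (.C 0 1 10 1 (.C 0 2 14 1 (.C 0 3 10 1 (.P (.ofNat 1)
  (.ofNat 2)) (.L 63)) (.L 678)) (.L 678))) (.L 138)) (.L 99)) (.G 138 202 1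
  29 16 58 166 [.g 64 5 0 0, .n, .n, .n, .n, .n, .n, .n])) (.L 141)) (.C 0 3
  5 2 (.C 0 1 7 2 (.B 0 2 1 (.B 2 1 4 (.L 66) (.C 1 2 1 7 (.C 0 1 14 1 (.C 0
  3 10 1 (.P (.ofNat 1) (.ofNat 2)) (.L 338)) (.L 338)) (.C 0 2 2 1 (.C 0 3
  10 1 (.P (.ofNat 1) (.ofNat 2)) (.G 1014 338 2 1870 2577 365 958 [.n, .n,
  .n, .n, .n, .n, .g 10 21 0 0, .g 29 63 0 0])) (.C 2 3 5 1 (.P (.ofNat 1)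
  (.ofNat 2)) (.G 1014 56 0 496 3502 2541 1302 [.n, .n, .n, .n, .n, .n, .g
  29 65 0 0, .g 29 65 0 0]))))) (.L 66)) (.L 99)) (.L 99)))) (.L 8)) (.L
  66)) (.B 0 1 1 (.B 2 1 2 (.L 8) (.C 2 3 2 7 (.C 0 2 5 2 (.C 0 3 11 1 (.C 0
  1 1 1 (.C 0 1 5 3 (.C 0 3 21 1 (.B 0 2 1 (.C 0 1 10 1 (.C 0 2 10 1 (.B 2 1
  4 (.L 66) (.G 63 9 1 25075 510908 510908 1043757 [.g 9 65 0 0, .g 4 59 0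
  0, .n, .n])) (.L 63)) (.L 678)) (.L 3002)) (.L 678)) (.L 138)) (.C 1 2 10
  1 (.G 56 99 0 1 1 1 1 [.n, .g 18 65 0 0, .n, .n]) (.L 99))) (.L 66)) (.L
  141)) (.C 0 3 3 4 (.C 0 1 1 1 (.C 0 2 11 1 (.C 0 3 6 1 (.C 0 1 5 3 (.C 0 2
  21 1 (.C 0 1 10 1 (.C 0 3 11 1 (.B 0 2 1 (.B 2 1 4 (.L 66) (.C 0 2 42 1
  (.P (.ofNat 1) (.ofNat 2)) (.L 97))) (.L 3002)) (.L 63)) (.L 678)) (.L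
  678)) (.L 494)) (.L 494)) (.L 806)) (.G 138 202 1 29 16 170 90 [.g 16 1 0
  0, .n, .n, .n, .n, .n, .n, .n])) (.C 2 3 1 13 (.L 16) (.C 0 3 1 7 (.L 16)
  (.B 0 2 1 (.C 1 3 3 4 (.L 65) (.G 205 131 1 15607 8639 29263 1115 [.g 7 8
  0 0, .n, .n, .n, .n, .n])) (.L 8))))))) (.L 8)))) (.C 2 3 3 2 (.L 66) (.C
  1 3 3 2 (.L 347) (.B 0 1 1 (.C 1 3 1 4 (.L 141) (.C 2 3 2 7 (.L 141) (.B 2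
  1 2 (.L 8) (.C 2 3 1 13 (.L 30) (.B 0 2 1 (.C 1 3 1 8 (.L 30) (.G 242 131
  1 19125 242893 401634 15300 [.n, .g 35 64 0 0, .g 8 67 0 0, .n, .n])) (.L
  8)))))) (.L 8))))) (.C 0 3 1 2 (.C 0 2 2 3 (.C 0 1 2 3 (.B 0 1 1 (.C 0 1 4
  1 (.C 0 3 2 1 (.C 0 2 7 2 (.B 2 1 2 (.L 8) (.B 0 2 1 (.G 131 30 3 8 63 106
  32 [.n, .g 64 17 0 0, .n, .n, .n, .n, .n, .n]) (.L 8))) (.L 8)) (.L 8))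
  (.L 8)) (.L 8)) (.L 8)) (.L 8)) (.G 1302 688 1 1 1 1 1 [.n, .g 32 29 0 0,
  .n, .n, .n]))) (by decide +kernel)

theorem CN0_c1 : CoN CNTab ⟨⟨2, 3, 8⟩, ⟨3, 7, 16⟩, ⟨1, 2, 4⟩, ⟨1, 0, 0, 0,
  0⟩, ⟨8, 2, 0, 1, 0⟩, ⟨8, 2, 0, 0, 1⟩, ⟨4, 1, 1, 1, 0⟩⟩ :=
CoN.ofG CNTab_B CNBt_E CNBt_U (.C 0 3 16 1 (.C 0 1 20 1 (.C 0 2 20 1 (.C 2 3
  3 4 (.C 1 2 1 1 (.C 1 2 5 3 (.L 38) (.C 2 3 3 1 (.C 1 2 1 6 (.B 2 2 1 (.L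
  74) (.L 216)) (.B 2 2 1 (.B 1 1 4 (.L 55) (.B 2 4 1 (.B 1 1 8 (.L 7) (.B 2
  8 1 (.B 1 1 16 (.L 7) (.B 2 16 1 (.C 1 2 1 12 (.C 1 2 2 1 (.L 343) (.C 2 3
  1 4 (.C 2 3 2 1 (.C 1 3 2 1 (.C 1 2 1 2 (.L 947) (.L 2250)) (.L 371)) (.L
  310)) (.L 310))) (.L 57)) (.L 7))) (.L 7))) (.L 55))) (.L 55))) (.L 38)))
  (.C 1 2 3 5 (.B 2 2 1 (.C 1 2 6 1 (.C 2 3 1 4 (.C 1 3 24 1 (.B 2 4 1 (.C 2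
  3 4 1 (.C 1 2 12 1 (.B 1 1 4 (.L 778) (.C 1 3 95 1 (.B 2 8 1 (.B 1 1 8 (.C
  1 2 24 1 (.L 27) (.L 107)) (.B 2 16 1 (.B 1 1 16 (.L 233) (.C 1 2 24 1 (.L
  369) (.C 1 2 1 2 (.L 635) (.L 195)))) (.L 233))) (.C 1 2 24 1 (.L 27) (.L
  107))) (.C 2 3 4 1 (.C 1 3 1 1 (.L 812) (.B 2 8 1 (.B 1 1 8 (.L 182) (.L
  2031)) (.L 182))) (.B 2 8 1 (.B 1 1 8 (.C 2 3 1 2 (.C 1 2 1 1 (.L 10) (.C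
  1 2 1 2 (.L 10) (.C 1 3 1 2 (.L 184) (.B 1 2 1 (.B 0 1 2 (.B 0 2 1 (.B 2 1
  2 (.L 186) (.C 2 3 2 1 (.L 132) (.C 0 1 109400 1 (.L 2044) (.L 10)))) (.L
  1359)) (.L 447)) (.C 2 3 2 1 (.L 1359) (.C 1 2 1 2 (.L 1898) (.L 14)))))))
  (.L 10)) (.C 1 3 1 2 (.L 212) (.B 2 16 1 (.C 2 3 1 2 (.C 1 3 1 1 (.L 71)
  (.C 2 3 2 1 (.L 682) (.L 941))) (.C 1 3 1 4 (.C 1 2 1 1 (.C 1 3 2 1 (.L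
  71) (.B 1 1 16 (.L 352) (.L 522))) (.L 941)) (.L 88))) (.C 1 3 1 4 (.L
  352) (.C 2 3 1 2 (.L 433) (.L 3)))))) (.C 2 3 1 2 (.C 1 2 1 1 (.L 10) (.B
  2 1 2 (.B 1 2 1 (.L 27) (.C 1 2 1 2 (.L 10) (.B 2 2 1 (.B 1 1 2 (.L 27)
  (.C 2 3 2 1 (.L 132) (.C 0 3 27344 1 (.L 3517) (.L 10)))) (.L 27)))) (.L
  27))) (.L 10)))))) (.C 1 2 1 2 (.B 1 1 4 (.C 1 2 2 1 (.C 2 3 1 1 (.C 1 2 4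
  1 (.L 1571) (.C 2 3 2 1 (.C 1 3 2 1 (.L 3386) (.L 1828)) (.L 1571))) (.L
  663)) (.L 977)) (.C 1 3 4 1 (.C 1 2 2 1 (.B 2 8 1 (.B 1 1 8 (.L 182) (.L
  2031)) (.L 182)) (.B 2 8 1 (.B 1 1 8 (.C 1 2 1 2 (.L 405) (.C 2 3 4 1 (.L
  51) (.C 2 3 1 2 (.L 51) (.L 405)))) (.C 1 2 1 2 (.L 71) (.B 2 16 1 (.C 2 3
  4 1 (.L 225) (.B 1 1 16 (.L 352) (.L 682))) (.L 433)))) (.B 2 1 2 (.B 1 2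
  1 (.L 861) (.C 1 2 1 2 (.L 254) (.C 2 3 4 1 (.L 14) (.C 2 3 1 2 (.L 14)
  (.L 254))))) (.L 861)))) (.C 1 3 1 2 (.B 2 8 1 (.B 1 1 8 (.C 1 2 1 4 (.C 1
  2 2 1 (.C 1 3 2 1 (.L 184) (.L 51)) (.L 51)) (.L 3)) (.C 1 2 1 4 (.B 2 16
  1 (.B 1 1 16 (.L 1346) (.L 273)) (.L 433)) (.L 88))) (.B 2 1 2 (.B 1 2 1
  (.L 70) (.C 1 2 1 4 (.C 1 2 2 1 (.C 1 3 2 1 (.L 254) (.L 14)) (.L 14)) (.L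
  3))) (.L 70))) (.L 3)))) (.B 1 1 4 (.L 977) (.L 3)))) (.B 1 1 4 (.L 7) (.B
  2 8 1 (.B 1 1 8 (.L 27) (.B 2 16 1 (.C 1 2 95 1 (.C 1 3 48 1 (.C 1 2 190 1
  (.L 457) (.C 1 2 1 2 (.C 2 3 1 8 (.B 1 1 16 (.L 329) (.L 1809)) (.L 457))
  (.L 1188))) (.B 1 1 16 (.L 196) (.C 1 2 2 1 (.C 1 3 1 2 (.L 635) (.L 195))
  (.L 195)))) (.C 1 2 1 2 (.L 196) (.C 2 3 1 2 (.C 1 2 1 4 (.C 1 3 1 2 (.C 1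
  2 2 1 (.L 71) (.B 1 1 16 (.L 352) (.L 522))) (.L 941)) (.L 88)) (.C 1 2 1
  2 (.L 71) (.C 1 3 1 16 (.L 457) (.C 0 3 3440 1 (.C 0 3 6880 1 (.C 2 3 1 1
  (.L 2493) (.L 212)) (.G 12 441 0 1052688 8388607 1052688 526344 [.n, .n,
  .g 5 63 0 0, .n, .n, .n])) (.L 12))))))) (.C 2 3 1 2 (.C 1 2 95 1 (.L 27)
  (.C 2 3 2 1 (.C 2 3 4 1 (.C 1 2 1 2 (.L 1768) (.B 2 1 2 (.B 1 2 1 (.L 340)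
  (.B 2 2 1 (.L 2490) (.L 724))) (.L 10))) (.L 10)) (.L 27))) (.L 7)))) (.L
  27)))) (.B 2 1 2 (.C 1 2 12 1 (.L 55) (.C 1 3 2 1 (.B 1 2 1 (.L 800) (.B 2
  2 1 (.C 1 2 1 2 (.C 1 2 2 1 (.C 1 2 4 1 (.L 877) (.L 1828)) (.L 392)) (.L
  392)) (.L 977))) (.L 977))) (.L 800))) (.C 1 3 1 2 (.C 1 3 2 1 (.C 1 2 1 4
  (.B 2 4 1 (.B 1 1 4 (.L 7) (.C 1 2 2 1 (.B 1 1 8 (.L 7) (.B 2 8 1 (.B 1 1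
  16 (.L 7) (.C 1 2 4 1 (.B 2 16 1 (.C 0 3 13744 1 (.C 1 3 8 1 (.L 28) (.L
  410)) (.L 101)) (.L 7)) (.L 231))) (.L 7))) (.L 3))) (.L 7)) (.L 3)) (.L
  3)) (.L 3))) (.B 1 1 4 (.L 753) (.B 2 4 1 (.C 1 2 24 1 (.B 1 1 8 (.L 438)
  (.B 2 8 1 (.C 1 3 3 1 (.B 1 1 16 (.L 7) (.C 1 3 6 1 (.C 0 1 72 1 (.B 2 16
  1 (.C 1 2 24 1 (.L 369) (.L 195)) (.L 7)) (.L 12)) (.C 2 3 1 8 (.C 1 2 4 1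
  (.C 0 3 6952 1 (.C 0 3 13904 1 (.C 1 2 8 1 (.L 1713) (.L 212)) (.L 866))
  (.L 7)) (.L 1101)) (.L 310)))) (.C 2 3 1 15 (.C 2 3 2 1 (.C 1 2 8 1 (.L
  310) (.C 2 3 4 1 (.C 1 2 1 2 (.L 310) (.B 1 1 16 (.L 433) (.B 2 16 1 (.C 2
  3 8 1 (.L 71) (.L 410)) (.L 433)))) (.L 310))) (.L 3)) (.L 779))) (.L
  438))) (.C 1 3 1 15 (.C 1 3 2 1 (.C 1 2 1 2 (.B 1 1 8 (.L 7) (.B 2 8 1 (.C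
  1 3 4 1 (.B 1 1 16 (.L 7) (.B 2 16 1 (.C 0 2 6864 1 (.C 1 3 8 1 (.L 32)
  (.L 129)) (.L 505)) (.L 7))) (.L 3)) (.L 7))) (.L 3)) (.L 3)) (.L 176)))
  (.L 753)))) (.L 176)) (.L 1022)) (.B 2 2 1 (.C 2 3 6 1 (.L 73) (.C 2 3 1 2
  (.L 73) (.L 176))) (.C 2 3 6 1 (.C 1 2 1 10 (.B 0 2 1 (.L 678) (.L 176))
  (.B 0 2 1 (.B 2 1 2 (.L 91) (.C 2 3 11 1 (.P (.ofNat 1) (.ofNat 2)) (.L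
  63))) (.L 73))) (.L 1022))))) (.C 1 3 3 4 (.B 2 2 1 (.B 1 1 4 (.L 16) (.B
  2 4 1 (.B 1 1 8 (.L 16) (.C 2 3 7 6 (.C 2 3 14 1 (.L 81) (.L 16)) (.C 2 3
  1 12 (.L 16) (.L 287)))) (.L 16))) (.L 16)) (.C 2 3 1 7 (.B 2 2 1 (.B 1 1
  4 (.L 16) (.L 34)) (.L 16)) (.C 1 3 1 8 (.B 2 2 1 (.B 1 1 4 (.C 1 2 5 3
  (.L 34) (.B 1 2 1 (.B 0 1 1 (.L 959) (.L 205)) (.L 959))) (.L 610)) (.C 2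
  3 6 5 (.L 16) (.L 205))) (.C 2 3 1 14 (.B 2 2 1 (.B 1 1 4 (.C 1 2 5 6 (.L
  205) (.C 2 3 2 1 (.L 16) (.L 205))) (.L 60)) (.C 1 2 5 6 (.L 205) (.C 2 3
  2 1 (.L 16) (.L 205)))) (.B 2 2 1 (.B 1 1 4 (.B 0 1 1 (.L 60) (.B 1 2 1
  (.L 131) (.L 60))) (.L 60)) (.C 2 3 1 28 (.L 300) (.B 2 1 2 (.B 1 1 1 (.L
  131) (.L 60)) (.L 131))))))))) (.C 2 3 3 2 (.B 2 2 1 (.L 56) (.C 0 2 1 2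
  (.B 0 2 1 (.C 0 3 5 2 (.C 1 2 2 1 (.C 0 2 7 2 (.C 0 3 10 1 (.C 0 2 14 1
  (.C 0 1 1 1 (.B 2 1 2 (.B 0 1 1 (.C 0 1 5 3 (.P (.ofNat 1) (.ofNat 3)) (.L
  56)) (.L 56)) (.C 0 1 5 3 (.P (.ofNat 1) (.ofNat 3)) (.G 97 1022 1 3914
  681 10677 7699 [.g 32 1 0 0, .n, .n, .n, .n, .n]))) (.G 152 56 1 29 16 451
  326 [.g 128 1 0 0, .n, .g 64 37 0 0, .g 16 11 0 0, .n, .n])) (.L 411)) (.L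
  411)) (.L 66)) (.C 0 1 7 2 (.C 0 2 2 1 (.B 2 1 2 (.G 90 141 1 23 328 92
  240 [.g 1024 3 0 0, .n, .g 64 11 0 0, .n, .n, .n]) (.B 0 4 1 (.B 2 1 4 (.C
  0 3 10 1 (.P (.ofNat 1) (.ofNat 2)) (.L 99)) (.C 1 2 2 7 (.C 0 1 14 1 (.C
  0 3 10 1 (.P (.ofNat 1) (.ofNat 2)) (.L 338)) (.L 338)) (.C 0 3 10 1 (.P
  (.ofNat 1) (.ofNat 2)) (.G 1014 66 1 3699 10195 722 1895 [.n, .n, .n, .n,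
  .n, .n, .g 64 59 0 0, .g 64 55 0 0])))) (.C 0 3 10 1 (.P (.ofNat 1)
  (.ofNat 2)) (.L 99)))) (.B 2 1 2 (.L 8) (.B 0 4 1 (.G 1014 99 1 1456 5186
  728 3776 [.g 1024 5 0 0, .n, .n, .n, .n, .n, .g 32 31 0 0, .g 63 64 0 0])
  (.L 99)))) (.L 99))) (.L 66)) (.L 56)) (.L 66))) (.C 2 3 2 7 (.B 2 2 1 (.L
  56) (.B 0 2 1 (.C 0 2 5 2 (.C 0 3 11 1 (.C 0 2 10 1 (.C 0 1 1 1 (.C 0 1 5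
  3 (.B 2 1 2 (.C 0 1 10 1 (.L 91) (.L 494)) (.C 0 3 21 1 (.C 0 1 10 1 (.G
  63 9 1 19764 402683 402683 822660 [.g 9 65 0 0, .g 2 35 0 0, .n, .n]) (.L
  63)) (.L 63))) (.G 338 494 1 92 16 181 183 [.n, .g 43 64 0 0, .n, .n,
  .n])) (.B 0 4 1 (.G 97 56 1 488 269 5484 5552 [.g 2048 1 0 0, .n, .g 8 1 0
  0, .g 64 9 0 0, .n, .n]) (.L 8))) (.L 411)) (.L 66)) (.L 66)) (.L 56)))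
  (.C 0 3 3 4 (.B 2 2 1 (.C 2 3 1 2 (.L 56) (.C 0 3 6 1 (.L 56) (.B 1 1 4
  (.L 109) (.B 1 1 8 (.L 109) (.C 0 1 1 11 (.C 2 3 1 4 (.L 17) (.C 1 3 1 4
  (.L 17) (.C 0 1 4 1 (.L 91) (.G 17 38 2 4332 2166 2183 277 [.n, .n, .g 64
  15 0 0, .n])))) (.L 38)))))) (.B 0 2 1 (.C 0 1 1 1 (.C 0 1 5 3 (.C 0 2 11
  1 (.C 0 3 6 1 (.C 0 1 10 1 (.C 0 2 21 1 (.B 2 1 2 (.L 91) (.C 0 3 11 1 (.C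
  0 1 20 1 (.G 97 50 1 32459 1310539 1351113 726274 [.n, .n, .g 3 70 0 0, .g
  1 28 0 0, .n, .n]) (.C 0 2 1 1 (.P (.ofNat 1) (.ofNat 2)) (.L 63))) (.L
  63))) (.L 678)) (.L 678)) (.L 494)) (.L 494)) (.L 494)) (.C 0 2 6 1 (.G 55
  38 2 92717 51154 1093416 287741 [.g 256 1 0 0, .n, .n, .n, .g 19 63 0 0,
  .g 16 63 0 0]) (.L 53))) (.G 109 202 0 1 1 1 1 [.n, .n, .n, .n, .g 4 1 0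
  0]))) (.C 0 3 1 7 (.L 16) (.C 2 3 1 13 (.G 3514 16 1 118169 10563 112228
  221815 [.g 11 61 0 0, .g 11 16 0 0, .n, .n, .n, .n]) (.C 1 3 3 4 (.G 413
  242 1 42632 3811 80025 23579 [.n, .g 64 63 0 0, .g 2 9 0 0, .n]) (.C 2 3 1
  26 (.G 242 34 2 19188 10586 35729 71458 [.n, .g 16 9 0 0, .n, .n, .n]) (.B
  2 2 1 (.G 34 347 0 56 31 209 4 [.n, .n, .g 64 35 0 0, .n]) (.C 0 3 1 14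
  (.G 242 205 1 24682 13618 91918 49364 [.n, .g 64 43 0 0, .n, .n, .n]) (.C
  1 3 1 8 (.L 205) (.C 0 3 1 28 (.L 1425) (.C 2 3 1 52 (.L 1425) (.G 131 845
  2 4506110 1267344 8388607 80466 [.n, .n, .g 3 73 0 0, .g 1 27 0 0, .n, .n,
  .n, .n])))))))))))))) (.C 2 3 3 2 (.G 66 2088 3 1 1 1 1 [.n, .n, .n, .g 8
  3 0 0]) (.C 1 3 3 2 (.G 411 115 3 1 1 1 1 [.n, .g 28 65 0 0, .n, .n]) (.C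
  2 3 2 7 (.L 56) (.C 1 3 1 4 (.L 30) (.B 1 1 4 (.B 0 2 1 (.C 2 3 1 13 (.L
  30) (.C 1 3 1 8 (.L 30) (.C 0 3 3 4 (.L 30) (.B 2 1 4 (.G 34 30 3 62 127
  210 8 [.n, .n, .g 32 13 0 0, .n]) (.G 205 131 1 10049 20584 34037 1297 [.g
  1 1 0 0, .n, .n, .n, .n, .n]))))) (.L 8)) (.C 0 3 3 4 (.B 2 2 1 (.C 2 3 3
  5 (.L 8) (.C 1 3 1 1 (.L 8) (.G 1361 16 1 4793 59912 301060 29657 [.n, .n,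
  .g 37 64 0 0, .g 4 9 0 0]))) (.L 16)) (.B 2 2 1 (.L 34) (.C 2 3 1 13 (.L
  16) (.C 0 3 1 8 (.G 1315 205 1 7617 7617 25708 15710 [.g 32 29 0 0, .n,
  .n, .n, .n, .n, .n, .n]) (.C 2 3 1 26 (.L 205) (.G 131 285 2 437471 218735
  1451292 27776 [.n, .g 64 11 0 0, .g 1 17 0 0, .g 3 56 0 0, .n, .n, .n,
  .n])))))))))))) (.C 0 2 2 3 (.C 0 1 2 3 (.C 0 2 7 2 (.C 0 3 1 2 (.C 0 1 4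
  1 (.C 0 3 2 1 (.B 2 2 1 (.G 34 115 0 8 63 106 32 [.n, .n, .g 32 9 0 0,
  .n]) (.C 0 2 13 1 (.C 0 1 8 1 (.B 0 2 1 (.C 0 2 26 1 (.B 2 1 2 (.G 131
  1058 0 149094 2366868 7790162 596376 [.n, .n, .g 2 67 0 0, .g 1 37 0 0,
  .n, .n, .n, .n]) (.L 131)) (.G 300 17 2 18351 5619 9219 1405 [.g 256 1 0
  0, .g 1024 7 0 0, .g 51 64 0 0, .g 3 4 0 0, .n, .n])) (.B 1 1 1 (.L 8) (.G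
  399 891 3 8 127 210 32 [.n, .n, .g 26 63 0 0, .n]))) (.L 17)) (.L 30)))
  (.L 30)) (.L 30)) (.G 30 315 3 1 1 1 1 [.n, .n, .g 64 7 0 0, .n])) (.L
  411)) (.L 411)) (.G 926 550 0 1 1 1 1 [.n, .n, .n, .g 8 5 0 0])))
  (by decide +kernel)

theorem CN0_c2 : CoN CNTab ⟨⟨1, 1, 4⟩, ⟨1, 3, 8⟩, ⟨2, 3, 8⟩, ⟨1, 0, 0, 0,
  0⟩, ⟨8, 2, 0, 1, 0⟩, ⟨8, 2, 0, 0, 1⟩, ⟨4, 1, 1, 1, 0⟩⟩ :=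
CoN.ofG CNTab_B CNBt_E CNBt_U (.B 0 2 1 (.C 2 3 3 4 (.C 1 2 1 1 (.C 1 2 3 2
  (.L 53) (.C 2 3 3 1 (.L 216) (.L 53))) (.C 2 3 5 1 (.C 1 2 2 3 (.L 988)
  (.C 2 3 10 1 (.P (.ofNat 1) (.ofNat 3)) (.L 1681))) (.L 988))) (.C 2 3 1 6
  (.C 2 3 2 1 (.L 53) (.L 65)) (.C 1 3 3 4 (.L 65) (.C 1 3 1 8 (.L 242) (.C
  0 1 252 1 (.C 2 3 1 12 (.L 242) (.C 2 3 1 24 (.L 326) (.C 2 3 1 48 (.L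
  326) (.C 2 3 1 96 (.L 326) (.B 2 1 2 (.B 1 1 2 (.L 606) (.C 1 3 1 32 (.L
  326) (.L 895))) (.L 606)))))) (.C 0 3 1 32 (.G 326 688 2 41 21 16 83 [.n,
  .g 64 13 0 0, .n, .n, .n, .n, .n, .n]) (.L 8))))))) (.C 2 3 3 4 (.C 0 1 20
  1 (.C 0 2 20 1 (.C 2 3 5 2 (.C 1 2 1 1 (.C 1 2 5 3 (.L 38) (.L 216)) (.C 1
  2 3 5 (.L 97) (.C 2 3 10 1 (.C 1 2 1 10 (.L 63) (.C 2 3 20 1 (.P (.ofNat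
  1) (.ofNat 2)) (.L 63))) (.L 63)))) (.L 38)) (.C 0 3 5 2 (.C 0 2 1 2 (.C 0
  3 10 1 (.B 0 1 2 (.C 1 2 2 1 (.C 0 1 1 1 (.C 0 1 5 3 (.C 0 2 7 2 (.B 0 2 1
  (.L 972) (.L 1014)) (.L 988)) (.L 988)) (.G 74 141 1 29 16 58 314 [.g 64 9
  0 0, .g 32 7 0 0, .n, .n, .n, .n, .n, .n])) (.C 1 2 3 5 (.C 0 1 7 2 (.G
  1000 1014 1 123346 1749973 2567141 2420667 [.n, .n, .n, .n, .n, .n, .g 1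
  70 0 0, .g 1 80 0 0]) (.L 99)) (.C 2 3 10 1 (.P (.ofNat 1) (.ofNat 2)) (.G
  972 1014 1 103544 2155005 4102923 2032047 [.n, .n, .g 3 70 0 0, .g 1 26 0
  0, .n, .n, .n, .n])))) (.B 1 1 1 (.L 8) (.B 2 4 1 (.B 1 1 2 (.L 66) (.C 0
  3 20 1 (.C 1 2 2 1 (.C 0 2 7 2 (.C 0 1 1 1 (.C 0 1 5 3 (.P (.ofNat 1)
  (.ofNat 3)) (.L 97)) (.G 56 152 0 29 16 227 634 [.n, .g 1 151 0 0, .n,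
  .n])) (.L 66)) (.P (.ofNat 1) (.ofNat 5))) (.L 66))) (.L 66)))) (.L 141))
  (.L 572)) (.L 66))) (.L 66)) (.C 0 1 20 1 (.C 0 3 16 1 (.C 2 3 1 3 (.L 53)
  (.C 1 3 3 4 (.L 65) (.C 2 3 1 6 (.L 65) (.C 1 3 1 8 (.L 16) (.C 1 2 3 4
  (.C 2 3 1 96 (.L 326) (.C 2 3 1 192 (.L 326) (.C 2 3 1 384 (.L 326) (.B 2
  2 1 (.B 1 1 1 (.L 606) (.C 1 3 1 16 (.L 326) (.L 895))) (.L 606))))) (.C 2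
  3 1 12 (.L 16) (.C 1 3 1 96 (.L 326) (.C 2 3 1 24 (.L 326) (.C 1 3 1 192
  (.L 443) (.C 2 3 1 48 (.L 443) (.C 1 3 1 384 (.L 443) (.C 2 3 1 96 (.L
  443) (.C 1 3 1 768 (.L 443) (.C 2 3 1 192 (.L 895) (.B 2 2 1 (.B 1 1 1 (.L
  263) (.L 1624)) (.L 263)))))))))))))))) (.C 0 3 1 2 (.C 0 2 3 1 (.B 1 1 1
  (.L 8) (.C 0 2 6 1 (.C 0 3 2 1 (.B 1 1 2 (.L 8) (.B 2 2 1 (.G 242 895 1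
  16498 20622 200034 65991 [.n, .g 7 16 0 0, .g 7 65 0 0, .n, .n]) (.L
  347))) (.L 347)) (.L 141))) (.L 347)) (.L 411))) (.L 411))))
  (by decide +kernel)

theorem CN0_c3 : CoN CNTab ⟨⟨1, 3, 8⟩, ⟨0, 1, 2⟩, ⟨1, 4, 8⟩, ⟨1, 0, 0, 0,
  0⟩, ⟨8, 2, 0, 1, 0⟩, ⟨8, 2, 0, 0, 1⟩, ⟨4, 1, 1, 1, 0⟩⟩ :=
CoN.ofG CNTab_B CNBt_E CNBt_U (.B 0 1 4 (.G 8 30 0 1 1 1 1 [.g 64 25 0 0,
  .n, .n, .n]) (.L 30)) (by decide +kernel)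

theorem CN0_c4 : CoN CNTab ⟨⟨3, 7, 16⟩, ⟨5, 15, 32⟩, ⟨3, 8, 16⟩, ⟨1, 0, 0,
  0, 0⟩, ⟨68, 2, 0, 1, 0⟩, ⟨284, 6, 0, 2, 1⟩, ⟨1148, 17, 5, 5, 6⟩⟩ :=
  CoN.ofG CNTab_B CNBt_E CNBt_U (.L 38) (by decide +kernel)

theorem CN0_c5 : CoN CNTab ⟨⟨3, 7, 16⟩, ⟨5, 15, 32⟩, ⟨3, 8, 16⟩, ⟨1, 0, 0,
  0, 0⟩, ⟨284, 6, 0, 2, 1⟩, ⟨1148, 22, 0, 6, 5⟩, ⟨1148, 17, 5, 5, 6⟩⟩ :=
CoN.ofG CNTab_B CNBt_E CNBt_U (.B 2 1 1 (.C 2 3 1 1 (.C 1 2 4 1 (.L 7) (.L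
  12)) (.L 7)) (.L 7)) (by decide +kernel)

theorem CN0_c6 : CoN CNTab ⟨⟨3, 7, 16⟩, ⟨5, 15, 32⟩, ⟨11, 31, 64⟩, ⟨1, 0, 0,
  0, 0⟩, ⟨1148, 22, 0, 6, 5⟩, ⟨580, 10, 0, 2, 3⟩, ⟨4616, 79, 5, 19, 23⟩⟩ :=
CoN.ofG CNTab_B CNBt_E CNBt_U (.B 0 2 1 (.B 2 1 4 (.C 0 2 624 1 (.C 1 2 1 1
  (.L 7) (.C 2 3 4 1 (.C 1 2 1 2 (.B 1 1 1 (.L 10) (.B 2 2 1 (.B 1 1 2 (.L
  27) (.B 2 4 1 (.C 0 1 2480 1 (.C 0 3 9960 1 (.C 1 3 4 1 (.L 648) (.C 2 3 4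
  1 (.L 107) (.B 1 1 4 (.L 340) (.C 1 2 1 1 (.C 1 3 1 2 (.L 212) (.B 2 8 1
  (.C 2 3 1 4 (.L 275) (.L 88)) (.L 340))) (.C 1 3 1 4 (.L 682) (.C 0 2
  39824 1 (.C 2 3 1 4 (.C 2 3 2 1 (.L 132) (.L 433)) (.L 14)) (.L 46)))))))
  (.L 523)) (.L 325)) (.L 27))) (.L 27))) (.C 1 2 1 4 (.B 1 1 1 (.C 2 3 1 1
  (.C 1 2 2 1 (.L 10) (.C 1 3 1 1 (.B 1 2 1 (.L 2968) (.L 165)) (.L 392)))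
  (.L 10)) (.C 0 3 9960 1 (.C 1 3 4 1 (.B 2 2 1 (.L 261) (.B 2 1 2 (.L 1389)
  (.C 1 2 2 1 (.L 877) (.L 165)))) (.C 1 3 1 2 (.B 2 2 1 (.C 1 3 2 1 (.L
  165) (.B 1 1 2 (.L 437) (.B 2 4 1 (.B 1 1 4 (.L 405) (.L 480)) (.L 254))))
  (.L 996)) (.C 2 3 2 1 (.B 2 2 1 (.C 2 3 4 1 (.B 1 1 2 (.L 437) (.B 2 4 1
  (.B 1 1 4 (.L 405) (.L 480)) (.L 254))) (.B 1 1 2 (.L 4036) (.C 1 2 1 1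
  (.L 51) (.C 2 3 1 2 (.B 2 4 1 (.L 132) (.L 254)) (.L 51))))) (.C 2 3 4 1
  (.L 184) (.L 70))) (.L 3)))) (.C 0 1 1 4 (.C 1 3 1 4 (.C 0 1 2 1 (.C 0 2 1
  2 (.L 3) (.B 2 2 1 (.G 115 1224 0 1 1 1 1 [.g 32 17 0 0, .n, .n, .n]) (.C
  2 3 8 1 (.C 0 2 1 4 (.L 70) (.L 184)) (.L 3)))) (.B 2 2 1 (.G 1224 115 0 1
  1 1 1 [.g 11 21 0 0, .n, .n, .n]) (.C 2 3 8 1 (.L 996) (.L 10)))) (.G 586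
  115 0 33862 135447 16931 16931 [.n, .n, .n, .n, .g 8 3 0 0, .g 16 7 0 0,
  .n, .n])) (.B 2 2 1 (.L 115) (.G 889 95 3 61592 7699 15398 15398 [.n, .n,
  .n, .n, .n, .n, .g 64 37 0 0, .g 32 21 0 0]))))) (.C 1 3 1 1 (.C 1 2 1 8
  (.B 1 1 1 (.L 392) (.B 2 2 1 (.C 1 3 2 1 (.C 0 1 9968 1 (.C 1 2 1 1 (.B 1
  1 2 (.C 1 3 2 1 (.C 1 2 2 1 (.L 437) (.L 307)) (.L 121)) (.C 1 2 2 1 (.B 2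
  4 1 (.L 132) (.L 254)) (.B 2 4 1 (.C 2 3 1 1 (.L 934) (.L 916)) (.C 1 3 1
  2 (.B 2 1 2 (.C 1 3 2 1 (.P (.ofNat 1) (.ofNat 13)) (.L 14)) (.L 452)) (.L
  121))))) (.L 51)) (.C 0 3 2 1 (.C 0 2 1 1 (.C 1 2 4 1 (.B 1 1 2 (.L 437)
  (.L 82)) (.B 1 1 2 (.G 1692 776 1 598641 2394563 1197281 2394563 [.n, .n,
  .n, .n, .g 64 63 0 0, .g 1 1 0 0]) (.C 0 2 2 1 (.L 82) (.C 1 2 1 2 (.L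
  1987) (.C 2 3 2 1 (.P (.ofNat 1) (.ofNat 11)) (.G 1306 1667 1 818053
  1636106 1636106 818053 [.n, .n, .n, .g 64 35 0 0, .n])))))) (.B 2 4 1 (.L
  325) (.G 507 182 1 712268 178067 356134 1424535 [.n, .n, .n, .n, .g 31 64
  0 0, .g 6 13 0 0]))) (.L 106))) (.L 252)) (.C 1 3 2 1 (.C 1 2 2 1 (.L 405)
  (.L 70)) (.L 3)))) (.L 3)) (.L 3)))) (.C 1 2 4 1 (.L 7) (.B 1 1 1 (.L 7)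
  (.B 2 2 1 (.C 1 2 1 2 (.L 27) (.C 1 3 1 8 (.C 1 2 1 4 (.L 252) (.L 3)) (.L
  3))) (.L 27)))))) (.C 0 1 1 1 (.C 0 1 2 1 (.B 2 2 1 (.L 106) (.G 307 1224
  3 4970 19881 2485 19725 [.g 128 3 0 0, .n, .n, .n, .g 8 13 0 0, .g 37 65 0
  0])) (.L 115)) (.L 30))) (.C 1 2 1 2 (.L 55) (.C 1 2 1 4 (.L 55) (.C 1 3 1
  1 (.B 2 1 8 (.L 977) (.L 800)) (.L 3))))) (.C 0 1 1240 1 (.C 0 2 624 1 (.C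
  0 3 4968 1 (.B 1 2 1 (.B 0 1 2 (.C 0 2 1248 1 (.C 0 1 2480 1 (.C 1 2 1 2
  (.L 7) (.C 0 3 9936 1 (.C 1 2 1 4 (.C 1 2 2 1 (.L 10) (.C 2 3 1 1 (.B 2 1
  2 (.C 0 3 39800 1 (.C 0 1 39816 1 (.C 0 1 79632 1 (.C 0 1 159264 1 (.C 0 3
  79600 1 (.B 2 2 1 (.L 106) (.C 0 3 159200 1 (.B 0 1 2 (.C 0 2 19928 1 (.B
  2 1 2 (.L 106) (.C 2 3 8 1 (.C 1 2 1 8 (.L 10) (.L 165)) (.L 10))) (.L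
  106)) (.L 106)) (.L 106))) (.L 106)) (.L 106)) (.L 106)) (.L 115)) (.L
  115)) (.L 1571)) (.L 10))) (.C 1 3 1 1 (.C 1 2 1 8 (.B 2 1 2 (.C 0 1 19928
  1 (.C 1 3 1 1 (.C 1 2 1 1 (.L 1864) (.L 121)) (.L 70)) (.L 115)) (.L 392))
  (.L 3)) (.L 3))) (.L 115))) (.L 115)) (.L 115)) (.L 30)) (.C 0 2 1248 1
  (.C 1 2 1 1 (.L 7) (.B 2 1 1 (.C 2 3 4 1 (.B 1 1 2 (.B 0 1 1 (.C 0 1 4968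
  1 (.C 1 3 2 1 (.C 1 2 1 4 (.C 1 2 2 1 (.L 27) (.L 1582)) (.C 0 2 2496 1
  (.C 1 2 1 4 (.L 182) (.C 2 3 8 1 (.C 1 2 1 8 (.B 2 1 2 (.C 1 2 2 1 (.B 1 1
  1 (.L 307) (.C 1 3 2 1 (.B 2 2 1 (.L 35) (.L 3773)) (.L 166))) (.L 3)) (.L
  121)) (.L 3)) (.L 184))) (.C 0 1 4 1 (.C 0 3 8 1 (.C 1 2 1 16 (.C 0 1 8 1
  (.L 3) (.C 1 2 2 1 (.B 2 1 2 (.C 0 1 1 2 (.L 3) (.L 425)) (.L 121)) (.L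
  3))) (.L 3)) (.C 2 3 16 1 (.C 1 2 1 16 (.C 1 2 2 1 (.B 2 1 2 (.L 425) (.L
  121)) (.L 3)) (.L 3)) (.B 2 1 2 (.L 425) (.G 106 1448 5 271560 135780
  271560 135780 [.g 11 32 0 0, .n, .n, .n])))) (.B 2 1 2 (.L 425) (.B 0 2 1
  (.C 1 2 1 8 (.C 1 2 2 1 (.L 182) (.G 1661 914 3 601543 1203085 601543
  601543 [.n, .n, .n, .n, .g 64 21 0 0, .g 32 11 0 0, .n, .n])) (.G 919 106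
  0 14102 14102 881 14047 [.n, .n, .n, .n, .n, .n, .n, .n, .n, .g 64 17 0
  0])) (.L 106)))))) (.C 1 3 1 2 (.C 1 2 1 16 (.C 1 3 2 1 (.C 1 2 2 1 (.L
  184) (.L 186)) (.L 3)) (.L 3)) (.L 3))) (.B 2 1 2 (.L 106) (.C 1 2 1 2 (.L
  27) (.C 0 3 2 1 (.C 0 1 1 1 (.C 0 3 4 1 (.C 0 1 2 1 (.B 2 1 4 (.L 106) (.B
  0 2 1 (.B 0 4 1 (.C 0 2 1 4 (.C 0 2 2 1 (.L 1812) (.G 870 106 0 642024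
  642024 321012 1284048 [.n, .n, .n, .n, .n, .n, .g 16 1 0 0, .g 64 5 0 0,
  .n, .n])) (.G 261 106 0 340167 677676 42521 1355351 [.n, .g 8 33 0 0, .n,
  .g 3 4 0 0, .g 27 32 0 0])) (.L 106)) (.L 106))) (.L 106)) (.L 106)) (.L
  106)) (.L 106))))) (.C 0 1 4968 1 (.C 0 3 19920 1 (.C 0 2 2496 1 (.C 0 1
  9936 1 (.C 0 3 39840 1 (.C 1 2 1 4 (.C 1 2 2 1 (.L 10) (.C 1 3 1 1 (.L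
  107) (.B 0 1 2 (.B 2 1 1 (.C 2 3 2 1 (.L 132) (.C 1 3 1 2 (.C 1 3 2 1 (.L
  132) (.C 1 3 1 2 (.L 132) (.L 3))) (.L 3))) (.C 0 2 39840 1 (.C 1 2 1 2
  (.L 27) (.C 2 3 1 1 (.C 2 3 2 1 (.L 184) (.C 1 3 1 2 (.L 383) (.L 14)))
  (.L 10))) (.C 0 3 1 1 (.G 425 2578 2 25855 51710 12927 51710 [.n, .g 8 1 0
  0, .g 64 17 0 0, .n, .n]) (.L 425)))) (.B 1 2 1 (.L 333) (.C 0 2 39840 1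
  (.B 2 2 1 (.C 0 1 159264 1 (.C 2 3 1 1 (.C 2 3 2 1 (.L 132) (.C 1 3 1 2
  (.L 132) (.L 458))) (.C 1 2 1 2 (.L 46) (.L 458))) (.G 200 333 0 320207
  160103 80052 80052 [.n, .n, .g 45 64 0 0, .n])) (.C 0 1 159264 1 (.C 0 3
  79680 1 (.C 0 3 159360 1 (.C 2 3 4 1 (.L 132) (.C 1 2 2 1 (.L 46) (.C 1 3
  1 4 (.L 254) (.L 458)))) (.L 333)) (.L 333)) (.L 333))) (.L 1049)))))) (.C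
  1 3 2 1 (.C 1 2 1 8 (.C 1 2 2 1 (.L 184) (.B 0 1 2 (.B 2 1 1 (.C 0 1
  159456 1 (.C 1 2 1 4 (.C 1 2 2 1 (.L 132) (.C 1 3 1 8 (.B 1 1 2 (.L 1806)
  (.L 236)) (.L 14))) (.L 14)) (.L 1049)) (.C 1 2 1 2 (.L 437) (.L 121)))
  (.B 1 2 1 (.L 333) (.C 0 1 159456 1 (.C 0 2 79776 1 (.B 2 2 1 (.L 904) (.C
  0 1 318912 1 (.C 0 3 159360 1 (.C 1 2 1 4 (.C 1 2 2 1 (.L 132) (.C 1 3 1 8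
  (.B 0 1 1 (.L 1806) (.L 236)) (.L 14))) (.L 14)) (.L 333)) (.L 333))) (.L
  1049)) (.L 1049))))) (.L 3)) (.L 3))) (.L 425)) (.L 425)) (.L 425)) (.L
  17)) (.L 17))) (.C 1 2 1 2 (.B 2 2 1 (.C 0 1 4968 1 (.C 1 3 2 1 (.C 1 2 1
  1 (.L 27) (.C 1 3 2 1 (.L 107) (.L 1596))) (.C 0 3 19920 1 (.C 2 3 4 1 (.L
  1596) (.B 2 4 1 (.C 2 3 1 2 (.L 352) (.C 1 3 1 1 (.L 352) (.L 3))) (.L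
  340))) (.B 0 1 1 (.B 1 1 8 (.C 0 3 1 2 (.B 2 1 4 (.G 46 708 4 182477
  182477 45619 364954 [.n, .g 512 1 0 0, .n, .g 32 3 0 0, .n, .g 256 1 0 0])
  (.L 10)) (.L 333)) (.B 2 4 1 (.C 0 2 1 4 (.L 46) (.G 212 708 4 498321
  249160 62290 124580 [.n, .g 32 17 0 0, .n, .n])) (.C 1 2 1 4 (.L 340) (.G
  46 708 4 29564 59128 7391 14782 [.n, .g 4096 59 0 0, .n, .g 64 21 0 0, .n,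
  .g 256 3 0 0])))) (.B 1 1 4 (.L 708) (.C 0 3 1 2 (.C 0 2 1 4 (.L 46) (.G
  46 708 4 136532 68266 17067 136532 [.n, .g 256 1 0 0, .n, .g 4 1 0 0, .n,
  .g 64 1 0 0])) (.L 964)))))) (.G 10 708 4 6295 3148 6295 12590 [.n, .n,
  .n, .n, .n, .n, .g 25 63 0 0, .g 3 8 0 0])) (.B 0 2 1 (.L 27) (.B 1 1 1
  (.B 0 1 2 (.L 27) (.C 1 2 2 1 (.L 10) (.B 1 2 1 (.C 1 2 1 2 (.L 10) (.B 0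
  1 4 (.L 992) (.C 2 3 2 1 (.L 1582) (.L 340)))) (.L 992)))) (.L 27)))) (.C
  1 2 1 4 (.C 0 3 19920 1 (.C 1 3 4 1 (.L 261) (.C 1 3 1 2 (.C 1 3 2 1 (.L
  165) (.B 2 2 1 (.B 2 4 1 (.L 480) (.L 405)) (.L 405))) (.C 2 3 2 1 (.C 2 3
  4 1 (.B 2 2 1 (.C 1 2 1 8 (.C 1 2 2 1 (.C 1 3 1 1 (.L 416) (.L 132)) (.L
  132)) (.L 132)) (.L 405)) (.C 1 2 1 1 (.L 51) (.C 2 3 1 2 (.B 2 2 1 (.L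
  132) (.L 405)) (.L 51)))) (.L 3)))) (.C 0 1 1 4 (.C 1 3 1 4 (.C 0 1 2 1
  (.C 0 2 1 2 (.L 3) (.C 2 3 8 1 (.B 2 2 1 (.G 249 200 2 2097152 4194304
  524288 8388607 [.g 64 29 0 0, .g 32 25 0 0, .n, .n]) (.C 0 2 1 4 (.B 0 2 1
  (.L 4036) (.G 1482 523 3 187586 375172 375172 750343 [.n, .n, .n, .n, .g
  64 11 0 0, .g 64 11 0 0])) (.L 405))) (.L 252))) (.B 2 2 1 (.B 2 4 1 (.L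
  605) (.C 0 3 1 1 (.C 1 3 4 1 (.L 405) (.G 1876 480 0 2101256 8388607
  262657 4202512 [.g 64 33 0 0, .n, .g 32 17 0 0, .n])) (.L 333))) (.C 1 3 2
  1 (.L 405) (.C 2 3 8 1 (.L 405) (.L 14))))) (.C 2 3 1 1 (.C 0 2 1 2 (.L 3)
  (.C 2 3 2 1 (.C 1 2 1 8 (.L 252) (.G 246 916 2 2097152 8388607 524288
  2097152 [.n, .n, .n, .n, .g 64 47 0 0, .g 64 49 0 0])) (.L 252))) (.L 3)))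
  (.B 2 2 1 (.G 589 708 4 102858 12857 25715 25715 [.n, .n, .g 3 7 0 0, .g
  16 7 0 0, .n]) (.G 106 425 1 1 1 1 1 [.n, .n, .n, .g 59 64 0 0])))) (.C 1
  2 1 8 (.C 1 3 1 1 (.C 1 3 2 1 (.C 1 2 2 1 (.B 2 2 1 (.L 132) (.B 0 2 1 (.L
  437) (.L 82))) (.C 1 2 1 2 (.C 1 2 2 1 (.B 2 2 1 (.L 1519) (.B 0 2 1 (.L
  121) (.L 415))) (.L 252)) (.L 51))) (.L 252)) (.L 3)) (.L 3))))) (.C 1 2 4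
  1 (.L 7) (.C 1 2 1 2 (.L 27) (.C 1 3 1 8 (.C 1 2 1 4 (.L 252) (.L 3)) (.L
  3))))) (.C 2 3 4 1 (.C 1 2 1 2 (.L 10) (.C 1 3 2 1 (.C 1 2 1 4 (.B 0 2 1
  (.C 1 2 2 1 (.L 10) (.C 2 3 2 1 (.B 2 1 2 (.L 165) (.B 0 4 1 (.L 2968) (.C
  1 2 1 2 (.L 3610) (.L 165)))) (.L 10))) (.C 1 3 4 1 (.L 261) (.L 165)))
  (.C 1 2 1 8 (.B 0 2 1 (.L 392) (.C 1 2 2 1 (.L 184) (.L 14))) (.L 14)))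
  (.L 14))) (.L 10)))) (.B 2 1 1 (.B 1 1 2 (.L 106) (.C 0 1 1 1 (.C 0 2 1 2
  (.C 0 3 4 1 (.C 0 1 2 1 (.C 0 1 4 1 (.C 1 2 1 4 (.C 0 1 8 1 (.L 3) (.C 1 2
  2 1 (.C 0 1 1 2 (.L 218) (.B 2 2 1 (.C 1 2 4 1 (.G 1455 708 4 102704 25676
  205408 25676 [.n, .n, .n, .n, .g 1 19 0 0, .g 1 20 0 0]) (.L 934)) (.C 0 3
  1 4 (.C 0 3 2 1 (.B 2 1 2 (.L 425) (.L 106)) (.L 1818)) (.L 1818)))) (.L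
  218))) (.L 3)) (.G 708 106 3 1 1 1 1 [.n, .n, .n, .g 64 37 0 0, .n])) (.G
  115 325 2 1 1 1 1 [.g 256 65 0 0, .n, .n, .n])) (.L 17)) (.L 17)) (.L
  17))) (.L 106)))) (.L 30)) (.L 30)) (.L 30))) (by decide +kernel)

theorem CN0_c7 : CoN CNTab ⟨⟨3, 7, 16⟩, ⟨11, 31, 64⟩, ⟨3, 8, 16⟩, ⟨1, 0, 0,
  0, 0⟩, ⟨1148, 22, 0, 6, 5⟩, ⟨580, 10, 0, 2, 3⟩, ⟨4616, 79, 5, 19, 23⟩⟩ :=
CoN.ofG CNTab_B CNBt_E CNBt_U (.B 2 1 1 (.C 1 2 1 2 (.B 2 2 1 (.C 1 2 2 1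
  (.L 12) (.C 1 2 1 2 (.B 1 1 4 (.L 457) (.B 2 4 1 (.C 1 2 2 1 (.L 12) (.B 2
  8 1 (.B 1 1 8 (.L 10) (.L 1946)) (.L 10))) (.L 457))) (.C 2 3 2 1 (.C 1 3
  1 1 (.B 2 4 1 (.B 1 1 4 (.L 1844) (.L 700)) (.L 1844)) (.C 2 3 4 1 (.B 2 4
  1 (.B 1 1 4 (.L 329) (.L 635)) (.L 329)) (.C 1 3 1 2 (.L 1169) (.L 195))))
  (.B 2 4 1 (.B 1 1 4 (.L 10) (.C 1 3 1 2 (.C 1 2 1 1 (.L 722) (.L 195)) (.C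
  2 3 1 2 (.C 1 3 1 1 (.L 195) (.C 2 3 2 1 (.L 196) (.C 1 3 1 2 (.L 196) (.C
  2 3 1 2 (.L 71) (.L 410))))) (.B 1 1 8 (.L 10) (.B 2 8 1 (.B 2 16 1 (.B 1
  1 16 (.L 2020) (.L 397)) (.L 2020)) (.L 10)))))) (.L 10))))) (.L 27)) (.C
  1 3 2 1 (.C 1 2 1 4 (.C 1 2 2 1 (.B 2 2 1 (.C 1 3 4 1 (.B 2 4 1 (.B 1 1 4
  (.L 329) (.L 635)) (.L 329)) (.L 195)) (.C 1 3 4 1 (.L 2212) (.L 107)))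
  (.B 2 2 1 (.L 195) (.L 107))) (.C 2 3 16 1 (.C 1 2 1 8 (.C 1 2 2 1 (.B 2 2
  1 (.C 1 3 4 1 (.L 886) (.L 1492)) (.C 1 3 4 1 (.L 1070) (.B 0 2 1 (.B 2 1
  2 (.B 2 2 1 (.B 1 1 2 (.L 35) (.L 480)) (.B 2 1 2 (.L 35) (.C 2 3 1 1 (.L
  132) (.L 3626)))) (.L 307)) (.B 0 1 2 (.B 2 2 1 (.L 480) (.L 35)) (.L
  480))))) (.B 2 2 1 (.L 225) (.B 0 2 1 (.B 2 1 2 (.L 483) (.L 307)) (.L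
  483)))) (.L 3)) (.B 2 2 1 (.C 2 3 1 2 (.C 1 2 4 1 (.L 886) (.C 1 2 1 2 (.L
  82) (.B 2 4 1 (.B 1 1 4 (.L 1192) (.C 1 3 1 2 (.L 1966) (.C 2 3 2 1 (.L
  1966) (.L 82)))) (.L 410)))) (.L 196)) (.C 2 3 1 2 (.C 1 2 4 1 (.L 184)
  (.B 0 2 1 (.B 2 1 2 (.C 1 2 1 2 (.L 132) (.C 2 3 2 1 (.L 51) (.L 132)))
  (.L 861)) (.C 2 3 2 1 (.B 0 1 2 (.B 2 2 1 (.L 480) (.L 35)) (.L 480)) (.L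
  132)))) (.L 2418))))) (.C 1 3 1 2 (.C 1 2 1 16 (.B 2 2 1 (.B 2 4 1 (.B 1 1
  4 (.C 0 1 9928 1 (.C 1 2 1 1 (.C 1 3 1 1 (.L 71) (.L 453)) (.L 453)) (.L
  46)) (.C 1 2 2 1 (.C 1 3 2 1 (.L 196) (.C 2 3 1 2 (.L 71) (.C 1 3 1 2 (.L
  71) (.L 143)))) (.C 1 3 1 2 (.C 1 2 1 2 (.L 82) (.L 143)) (.L 143)))) (.C
  1 2 2 1 (.C 1 3 2 1 (.L 196) (.L 410)) (.L 410))) (.C 1 2 2 1 (.C 2 3 1 2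
  (.L 1070) (.L 27)) (.C 1 2 1 2 (.C 1 3 1 2 (.C 1 2 2 1 (.L 184) (.C 1 2 1
  2 (.B 0 2 1 (.L 2013) (.L 132)) (.L 51))) (.L 51)) (.L 51)))) (.L 3)) (.L
  3)))) (.C 1 2 1 2 (.B 0 4 1 (.L 7) (.L 27)) (.C 1 2 1 4 (.B 0 4 1 (.B 2 1
  2 (.C 1 2 2 1 (.L 10) (.B 2 2 1 (.C 2 3 1 1 (.C 1 2 1 2 (.L 10) (.C 2 3 2
  1 (.L 165) (.L 10))) (.L 27)) (.L 55))) (.L 55)) (.C 0 2 4976 1 (.C 2 3 1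
  2 (.C 1 2 4 1 (.B 0 1 2 (.L 27) (.B 1 1 2 (.C 2 3 1 1 (.L 107) (.L 10))
  (.L 27))) (.C 1 3 1 1 (.B 0 1 2 (.C 1 2 1 2 (.L 10) (.C 2 3 4 1 (.B 0 2 1
  (.C 1 2 1 4 (.L 877) (.L 165)) (.L 107)) (.L 10))) (.L 107)) (.C 2 3 2 1
  (.B 0 1 2 (.L 996) (.B 1 1 2 (.B 0 1 4 (.L 184) (.L 82)) (.L 182))) (.B 0
  1 2 (.L 27) (.B 1 1 2 (.B 0 1 4 (.L 27) (.C 2 3 1 2 (.B 1 2 1 (.B 0 1 8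
  (.C 2 3 2 1 (.L 352) (.L 10)) (.L 352)) (.L 1898)) (.L 10))) (.L 27))))))
  (.L 27)) (.B 1 1 2 (.C 0 1 1 4 (.C 0 3 1 2 (.C 0 2 1 2 (.B 0 1 2 (.C 0 1 2
  1 (.C 1 3 1 2 (.C 1 3 2 1 (.B 2 1 1 (.L 107) (.G 1571 1383 2 524288
  2097152 1048576 8388607 [.n, .n, .n, .n, .n, .n, .g 64 49 0 0, .g 64 51 0
  0, .n, .n])) (.L 165)) (.G 1224 337 3 5672 45378 11344 11344 [.g 64 63 0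
  0, .n, .n, .g 32 15 0 0])) (.G 165 106 3 69551 34775 34775 34775 [.g 32 11
  0 0, .n, .g 59 64 0 0, .n])) (.G 2012 523 3 29494 58987 58987 58987 [.g 32
  7 0 0, .g 64 11 0 0, .n, .g 16 1 0 0, .n])) (.L 30)) (.L 30)) (.L 30)) (.C
  0 3 1 2 (.C 0 1 1 4 (.C 1 3 1 1 (.G 889 107 2 2097152 4194304 1048576
  8388607 [.n, .n, .n, .n, .n, .n, .g 1 89 0 0, .g 1 98 0 0]) (.G 3618 337 3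
  2097152 8388607 1048576 4194304 [.n, .n, .n, .n, .n, .n, .g 9 31 0 0, .g 2
  7 0 0, .g 22 63 0 0, .g 1 3 0 0])) (.G 1571 95 3 78812 9851 19703 78812
  [.n, .n, .n, .n, .n, .n, .g 16 3 0 0, .g 64 13 0 0, .n, .n])) (.G 889 95 3
  94652 11831 23663 23663 [.n, .n, .n, .n, .n, .n, .g 64 15 0 0, .g 4 1 0
  0]))))) (.C 1 3 1 1 (.C 1 2 1 8 (.B 0 4 1 (.C 1 3 2 1 (.C 1 2 2 1 (.C 1 2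
  4 1 (.C 1 3 4 1 (.B 2 1 2 (.L 337) (.L 877)) (.L 1828)) (.L 1828)) (.L
  977)) (.L 977)) (.B 0 1 2 (.C 1 3 2 1 (.C 1 2 2 1 (.L 1864) (.L 70)) (.L
  70)) (.C 0 1 4976 1 (.C 1 3 1 1 (.C 1 2 1 1 (.B 1 1 2 (.B 0 1 4 (.L 383)
  (.L 132)) (.L 405)) (.B 1 1 2 (.B 0 1 4 (.L 14) (.C 1 2 1 2 (.B 1 2 1 (.L
  480) (.L 35)) (.L 51))) (.L 121))) (.L 51)) (.B 1 1 2 (.G 914 315 0 3677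
  1838 3677 3677 [.g 8 1 0 0, .n, .n, .g 64 47 0 0]) (.C 0 2 1 1 (.G 1411
  337 3 1539417 769708 3078833 1539417 [.n, .n, .n, .n, .g 21 64 0 0, .g 20
  63 0 0, .g 22 63 0 0, .g 22 65 0 0]) (.G 185 95 3 22068 5517 11034 11034
  [.n, .n, .n, .n, .g 64 49 0 0, .g 64 49 0 0])))))) (.L 586)) (.L 3)))))
  (by decide +kernel)

theorem CN0_c8 : CoN CNTab ⟨⟨3, 7, 16⟩, ⟨5, 15, 32⟩, ⟨3, 8, 16⟩, ⟨1, 0, 0,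
  0, 0⟩, ⟨1148, 22, 0, 6, 5⟩, ⟨4616, 79, 5, 19, 23⟩, ⟨2296, 39, 5, 11, 11⟩⟩
  :=
  CoN.ofG CNTab_B CNBt_E CNBt_U (.L 12) (by decide +kernel)

theorem CN0_c9 : CoN CNTab ⟨⟨3, 7, 16⟩, ⟨5, 15, 32⟩, ⟨3, 8, 16⟩, ⟨1, 0, 0,
  0, 0⟩, ⟨2296, 39, 5, 11, 11⟩, ⟨580, 10, 0, 2, 3⟩, ⟨1148, 17, 5, 5, 6⟩⟩ :=
CoN.ofG CNTab_B CNBt_E CNBt_U (.C 2 3 2 1 (.L 3) (.C 2 3 1 2 (.L 12) (.L
  7))) (by decide +kernel)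

theorem CN0_c10 : CoN CNTab ⟨⟨3, 7, 16⟩, ⟨5, 15, 32⟩, ⟨3, 8, 16⟩, ⟨1, 0, 0,
  0, 0⟩, ⟨580, 10, 0, 2, 3⟩, ⟨148, 2, 0, 0, 1⟩, ⟨1148, 17, 5, 5, 6⟩⟩ :=
  CoN.ofG CNTab_B CNBt_E CNBt_U (.C 1 2 1 4 (.L 218) (.L 73)) (by decide +kernel)

theorem CN0_c11 : CoN CNTab ⟨⟨3, 7, 16⟩, ⟨5, 15, 32⟩, ⟨3, 8, 16⟩, ⟨1, 0, 0,
  0, 0⟩, ⟨68, 2, 0, 1, 0⟩, ⟨1148, 17, 5, 5, 6⟩, ⟨556, 9, 5, 5, 2⟩⟩ :=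
CoN.ofG CNTab_B CNBt_E CNBt_U (.C 1 2 16 1 (.L 16) (.C 2 3 1 2 (.L 38) (.L
  16))) (by decide +kernel)

theorem CN0_c12 : CoN CNTab ⟨⟨3, 7, 16⟩, ⟨5, 15, 32⟩, ⟨3, 8, 16⟩, ⟨1, 0, 0,
  0, 0⟩, ⟨68, 2, 0, 1, 0⟩, ⟨556, 9, 5, 5, 2⟩, ⟨52, 1, 1, 1, 0⟩⟩ :=
CoN.ofG CNTab_B CNBt_E CNBt_U (.C 1 3 3 4 (.L 16) (.C 1 3 1 8 (.L 34) (.B 1
  1 2 (.B 0 2 1 (.C 0 3 64 1 (.C 1 3 1 8 (.B 2 1 4 (.L 123) (.C 1 3 2 1 (.L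
  123) (.C 1 3 1 2 (.L 123) (.B 2 1 8 (.L 123) (.B 2 1 16 (.L 123) (.C 2 3 3
  1 (.L 242) (.L 300))))))) (.C 1 2 1 3 (.C 2 3 1 31 (.C 1 2 2 1 (.L 1425)
  (.L 205)) (.L 131)) (.C 2 3 1 5 (.L 65) (.C 1 2 1 3 (.C 1 3 1 31 (.L 205)
  (.L 2468)) (.L 270))))) (.B 2 1 4 (.G 131 115 0 8 63 39 4 [.n, .g 111 257
  0 0, .n, .n, .n, .n, .n, .n]) (.G 242 131 1 11779 92760 57423 5890 [.n, .g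
  37 64 0 0, .g 5 32 0 0, .n, .n]))) (.C 0 1 1008 1 (.C 0 3 64 1 (.C 0 2 624
  1 (.B 1 2 1 (.B 0 1 2 (.C 0 3 128 1 (.C 0 1 2016 1 (.C 0 2 1248 1 (.C 2 3
  1 10 (.L 242) (.L 131)) (.L 95)) (.L 106)) (.L 106)) (.L 30)) (.C 2 3 1 10
  (.C 1 3 4 3 (.L 123) (.B 2 1 1 (.L 60) (.L 16))) (.L 131))) (.L 30)) (.L
  30)) (.L 30))) (.B 2 1 1 (.L 60) (.C 1 3 1 16 (.B 0 4 1 (.B 2 1 2 (.L 60)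
  (.B 0 8 1 (.B 2 1 4 (.L 123) (.C 1 2 2 3 (.L 300) (.C 2 3 3 1 (.L 65) (.L
  300)))) (.L 60))) (.L 60)) (.C 1 2 1 3 (.C 1 2 2 1 (.L 131) (.C 2 3 1 61
  (.L 300) (.L 131))) (.C 1 3 1 61 (.B 0 4 1 (.B 2 1 2 (.L 60) (.L 270)) (.L
  60)) (.L 270)))))))) (by decide +kernel)

theorem CN0_c13 : CoN CNTab ⟨⟨3, 7, 16⟩, ⟨5, 15, 32⟩, ⟨3, 8, 16⟩, ⟨148, 2,
  0, 0, 1⟩, ⟨68, 2, 0, 1, 0⟩, ⟨68, 2, 0, 0, 1⟩, ⟨52, 1, 1, 1, 0⟩⟩ :=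
CoN.ofG CNTab_B CNBt_E CNBt_U (.B 1 1 2 (.L 109) (.C 0 1 1 2 (.C 0 2 1 2 (.B
  2 1 1 (.B 0 2 1 (.C 0 3 2 5 (.C 0 1 2 1 (.C 2 3 2 1 (.G 218 73 2 178484
  691625 356968 1383251 [.n, .n, .g 3 13 0 0, .g 13 66 0 0, .n, .n]) (.C 0 3
  4 1 (.G 73 176 1 37086 143710 287420 287420 [.n, .n, .g 1 134 0 0, .n])
  (.G 91 1820 1 5409 2704 5409 2704 [.g 16 1 0 0, .n, .n, .n, .n, .n]))) (.C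
  1 2 1 1 (.B 2 2 1 (.C 1 3 2 1 (.B 1 1 8 (.L 964) (.C 0 1 1 2 (.B 1 1 16
  (.L 561) (.C 0 2 1 1 (.C 1 3 1 1 (.G 968 964 1 1 1 1 1 [.g 31 64 0 0, .n,
  .n, .n]) (.C 2 3 1 1 (.G 968 964 1 1 1 1 1 [.g 31 64 0 0, .n, .n, .n]) (.C
  0 3 2 1 (.G 508 968 0 1 1 1 1 [.n, .g 64 1 0 0, .g 64 17 0 0, .n]) (.L
  122)))) (.L 17))) (.L 17))) (.C 2 3 1 1 (.B 1 1 8 (.L 964) (.C 0 2 1 1 (.B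
  1 1 16 (.L 561) (.C 1 2 1 1 (.C 0 1 2 1 (.G 508 187 3 1 1 1 1 [.n, .g 32 1
  0 0, .g 64 21 0 0, .n]) (.L 122)) (.G 1903 964 1 1 1 1 1 [.n, .n, .g 64 53
  0 0, .n]))) (.L 17))) (.C 0 3 1 1 (.C 0 1 2 1 (.C 0 3 2 1 (.C 0 2 2 1 (.C
  0 1 4 1 (.C 1 2 1 2 (.C 0 1 8 1 (.L 3) (.G 1408 12 0 1808191 904096
  1808191 452048 [.n, .n, .n, .n, .n, .n, .n, .n, .g 1 34 0 0, .g 1 53 0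
  0])) (.L 3)) (.L 12)) (.L 7)) (.L 74)) (.L 38)) (.G 81 53 1 123546 123546
  123546 61773 [.n, .g 16 1 0 0, .n, .n, .n, .n, .n, .n])))) (.C 1 3 2 1 (.C
  0 1 1 2 (.C 0 2 1 1 (.C 2 3 1 1 (.B 2 1 2 (.L 708) (.L 106)) (.C 0 3 2 1
  (.G 106 708 3 1 1 1 1 [.n, .n, .n, .g 37 65 0 0]) (.G 17 74 1 173 87 173
  87 [.n, .n, .g 64 11 0 0, .n]))) (.L 17)) (.L 17)) (.C 1 2 1 2 (.C 0 3 1 1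
  (.C 0 1 2 1 (.C 0 3 2 1 (.C 0 1 4 1 (.G 1486 12 0 64360 510855 253416
  253416 [.n, .n, .n, .n, .g 1 56 0 0, .g 1 71 0 0]) (.L 7)) (.L 438)) (.G
  204 216 2 194891 97446 194891 97446 [.n, .g 256 1 0 0, .n, .n, .n, .n]))
  (.C 2 3 1 4 (.G 38 122 1 493747 493747 987495 1974990 [.n, .n, .g 1 430 0
  0, .n]) (.G 43 16 3 68460 68460 271702 34230 [.n, .n, .n, .g 64 27 0 0])))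
  (.G 1398 399 2 662 2606 662 662 [.n, .g 256 7 0 0, .n, .n, .g 39 64 0 0,
  .g 23 64 0 0])))) (.G 1820 73 2 79561 79561 41064 79561 [.n, .g 32 1 0 0,
  .n, .n, .n, .n, .n, .n, .n, .n]))) (.C 0 2 1 2 (.C 0 1 1 2 (.C 2 3 1 19
  (.C 2 3 2 1 (.C 1 2 1 1 (.G 43 53 1 56290 112579 221640 439762 [.n, .n,
  .n, .g 64 7 0 0]) (.C 0 2 2 1 (.G 3 43 3 56290 221640 221640 439762 [.n,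
  .g 64 1 0 0, .n, .n, .n, .n]) (.G 3162 1011 7 1209959 1209959 604979
  2382106 [.n, .g 256 1 0 0, .n, .n, .n, .n, .n, .n]))) (.L 16)) (.G 16 34 1
  96697 193393 376869 9918 [.g 38 65 0 0, .g 32 11 0 0, .n, .n, .n])) (.L
  17)) (.L 17))) (.B 1 1 4 (.L 30) (.C 0 3 2 5 (.C 0 1 2 1 (.C 2 3 2 1 (.G
  218 73 2 178129 690250 356258 1380499 [.n, .n, .g 15 62 0 0, .g 13 63 0 0,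
  .n, .n]) (.C 0 3 4 1 (.G 218 73 2 231297 896277 1792554 1792554 [.n, .n,
  .g 7 31 0 0, .g 6 31 0 0, .n, .n]) (.G 91 1127 1 6657 3328 6657 3328 [.g
  64 3 0 0, .n, .n, .n, .n, .n]))) (.B 2 8 1 (.B 1 1 8 (.L 17) (.B 2 16 1
  (.C 2 3 2 1 (.L 550) (.C 2 3 1 2 (.L 968) (.C 1 3 2 1 (.G 550 17 2 1 1 1 1
  [.g 32 29 0 0, .n, .n, .n]) (.C 0 3 1 1 (.B 2 32 1 (.B 1 1 16 (.L 968) (.B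
  1 1 32 (.L 968) (.C 0 1 2 1 (.G 1326 79 1 7177 28707 28258 14353 [.n, .n,
  .g 64 23 0 0, .g 64 17 0 0, .n, .n]) (.L 779)))) (.L 79)) (.G 242 43 3
  131395 131395 258684 65698 [.n, .n, .n, .n, .g 64 27 0 0]))))) (.L 79)))
  (.L 17))) (.B 2 8 1 (.C 0 2 1 2 (.C 0 1 1 2 (.B 1 1 8 (.L 17) (.C 2 3 1 19
  (.B 2 16 1 (.C 2 3 2 1 (.C 1 2 1 1 (.G 16 43 3 57385 114771 225955 448324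
  [.n, .n, .g 64 31 0 0, .g 64 45 0 0, .n]) (.G 90 1326 1 532 2097 1065 4160
  [.g 64 5 0 0, .n, .n, .n, .n, .n])) (.L 16)) (.L 411)) (.G 1434 34 1 373
  747 1455 38 [.g 1 1 0 0, .g 64 29 0 0, .n, .n]))) (.L 17)) (.L 17)) (.L
  17))))) (.B 1 1 2 (.L 109) (.C 0 2 2 1 (.C 0 3 2 5 (.C 0 1 2 1 (.G 90 915
  1 1533 5941 6133 5941 [.g 16 1 0 0, .n, .n, .n, .n, .n]) (.C 2 3 1 1 (.L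
  106) (.C 1 3 2 1 (.L 106) (.C 0 3 1 1 (.L 106) (.C 2 3 1 2 (.L 106) (.G 43
  16 3 105644 105644 207987 52822 [.n, .n, .n, .g 32 19 0 0])))))) (.C 0 1 1
  2 (.B 1 1 4 (.L 115) (.C 2 3 1 10 (.C 0 2 1 1 (.G 106 53 1 1568 3137 3137
  3137 [.g 32 1 0 0, .n, .n, .g 16 13 0 0]) (.L 106)) (.C 1 3 1 20 (.L 16)
  (.G 106 959 3 377 1529 750 39 [.g 32 27 0 0, .n, .n, .g 2 21 0 0])))) (.L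
  115))) (.L 115)))) (.L 17)) (.L 17))) (by decide +kernel)

theorem CN0_c14 : CoN CNTab ⟨⟨5, 15, 32⟩, ⟨1, 4, 8⟩, ⟨5, 16, 32⟩, ⟨1, 0, 0,
  0, 0⟩, ⟨68, 2, 0, 1, 0⟩, ⟨68, 2, 0, 0, 1⟩, ⟨52, 1, 1, 1, 0⟩⟩ :=
  CoN.ofG CNTab_B CNBt_E CNBt_U (.L 8) (by decide +kernel)

theorem CN0_c15 : CoN CNTab ⟨⟨11, 31, 64⟩, ⟨5, 16, 32⟩, ⟨3, 8, 16⟩, ⟨1, 0,
  0, 0, 0⟩, ⟨148, 2, 0, 1, 0⟩, ⟨148, 2, 0, 0, 1⟩, ⟨52, 1, 1, 1, 0⟩⟩ :=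
CoN.ofG CNTab_B CNBt_E CNBt_U (.B 1 1 2 (.C 0 3 64 1 (.C 0 1 160 1 (.C 0 2
  160 1 (.C 2 3 2 5 (.C 0 2 320 1 (.C 2 3 2 1 (.C 1 2 2 1 (.L 38) (.C 1 2 1
  2 (.C 2 3 1 1 (.C 2 3 2 1 (.C 1 2 2 1 (.L 12) (.B 0 1 2 (.C 1 2 1 2 (.C 1
  2 2 1 (.L 12) (.C 2 3 1 1 (.C 1 2 1 2 (.L 1020) (.C 2 3 2 1 (.B 2 1 1 (.C
  1 3 1 1 (.L 700) (.C 2 3 4 1 (.L 1809) (.C 1 3 1 2 (.L 635) (.L 195))))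
  (.L 648)) (.C 1 2 1 1 (.L 512) (.B 2 1 1 (.B 2 2 1 (.B 1 1 2 (.L 10) (.L
  1946)) (.L 404)) (.L 457))))) (.L 1097))) (.C 1 3 1 1 (.C 1 2 1 4 (.C 1 3
  2 1 (.C 1 2 2 1 (.B 2 1 1 (.C 1 3 4 1 (.L 635) (.L 195)) (.L 1304)) (.L
  195)) (.C 1 3 1 2 (.L 195) (.C 2 3 1 1 (.L 196) (.B 2 1 1 (.L 46) (.C 2 3
  1 2 (.L 682) (.L 12)))))) (.C 1 2 1 8 (.C 1 3 1 1 (.C 1 2 2 1 (.L 886) (.C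
  2 3 1 1 (.L 1689) (.L 82))) (.B 2 1 1 (.L 231) (.L 143))) (.L 3))) (.L
  3))) (.B 1 2 1 (.L 17) (.B 2 2 1 (.C 0 2 2544 1 (.C 1 2 1 1 (.L 12) (.C 1
  2 1 2 (.C 2 3 1 2 (.C 0 1 10160 1 (.C 1 2 1 1 (.C 2 3 1 1 (.C 2 3 2 1 (.C
  1 3 8 1 (.L 700) (.L 195)) (.C 1 2 8 1 (.L 3802) (.C 1 3 1 4 (.L 195) (.L
  196)))) (.L 1297)) (.L 585)) (.B 2 4 1 (.G 2778 397 0 1268670 634335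
  1268670 2537340 [.g 1 205 0 0, .g 1 196 0 0, .n, .n]) (.B 1 4 1 (.L 79)
  (.C 2 3 2 1 (.G 1376 1710 2 2097152 1048576 2097152 8388607 [.n, .g 32 5 0
  0, .n, .n, .n, .n, .g 23 32 0 0, .g 45 64 0 0]) (.C 1 2 8 1 (.L 1297) (.G
  1775 1946 3 471285 3770279 1885140 942570 [.n, .n, .n, .n, .n, .n, .g 6 31
  0 0, .g 2 11 0 0])))))) (.L 624)) (.C 1 3 1 2 (.C 1 2 1 4 (.L 1454) (.C 1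
  2 1 8 (.C 1 3 1 1 (.L 1966) (.L 3)) (.L 3))) (.L 3)))) (.B 1 1 2 (.L 79)
  (.C 0 1 1 1 (.C 1 3 1 1 (.C 0 1 2 1 (.G 397 187 0 1385 5540 693 5540 [.n,
  .n, .g 64 13 0 0, .g 64 15 0 0, .n, .n]) (.C 1 2 1 4 (.B 2 4 1 (.C 1 2 2 1
  (.G 722 397 0 1222642 611321 2445284 1222642 [.n, .n, .g 1 155 0 0, .g 3
  55 0 0, .n]) (.L 397)) (.G 3108 79 1 91231 45616 91231 91231 [.n, .n, .n,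
  .n, .n, .n, .g 64 25 0 0, .g 32 13 0 0])) (.G 1567 187 0 9621 9621 1203
  9621 [.n, .n, .g 64 15 0 0, .g 4 1 0 0, .n, .n]))) (.L 3)) (.B 2 4 1 (.B 1
  1 4 (.L 1076) (.C 0 1 1 2 (.C 1 2 1 8 (.G 397 457 1 1196845 2393690
  4787381 1196845 [.g 1024 3 0 0, .n, .g 64 1 0 0, .g 64 1 0 0, .n, .n]) (.C
  0 2 1 4 (.C 0 2 2 1 (.C 0 1 4 1 (.G 397 457 1 462937 3703498 1851749
  462937 [.g 512 1 0 0, .n, .n, .n, .n, .n]) (.L 397)) (.L 397)) (.L 397)))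
  (.B 2 8 1 (.G 994 397 0 2523650 630913 315456 1261825 [.g 1 348 0 0, .n,
  .n, .n, .g 1 362 0 0]) (.L 1076)))) (.L 79))))) (.C 0 2 2544 1 (.C 0 1
  5080 1 (.B 1 2 1 (.L 79) (.B 2 1 2 (.C 0 3 10152 1 (.C 2 3 4 1 (.C 1 2 1 2
  (.C 0 2 20328 1 (.C 1 3 4 1 (.C 1 2 4 1 (.L 12) (.C 1 2 1 2 (.L 2746) (.C
  1 3 1 2 (.C 1 2 1 4 (.L 2600) (.L 1357)) (.L 2749)))) (.C 2 3 1 1 (.C 2 3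
  2 1 (.C 2 3 4 1 (.L 635) (.L 195)) (.C 1 3 1 1 (.L 195) (.L 46))) (.C 1 3
  1 2 (.C 1 2 1 1 (.L 346) (.L 46)) (.L 46)))) (.C 0 1 1 4 (.B 2 2 1 (.C 0 2
  1 2 (.C 0 3 1 1 (.C 0 3 2 1 (.C 0 1 2 1 (.C 2 3 2 1 (.L 1674) (.C 0 3 4 1
  (.L 1674) (.C 1 3 1 1 (.L 1674) (.L 195)))) (.L 187)) (.L 187)) (.L 79))
  (.L 79)) (.L 79)) (.L 79))) (.C 1 2 1 4 (.C 1 3 2 1 (.C 1 2 2 1 (.C 1 3 4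
  1 (.L 990) (.L 196)) (.L 196)) (.L 1454)) (.L 1966))) (.C 1 2 4 1 (.L 12)
  (.C 1 2 1 2 (.C 1 2 2 1 (.L 624) (.L 46)) (.L 46)))) (.L 79)) (.L 79)))
  (.L 79)) (.L 79)))))) (.L 12)) (.L 38)) (.C 1 2 1 4 (.L 176) (.L 73))))
  (.L 16)) (.B 0 1 2 (.C 0 3 2 1 (.C 0 1 1 2 (.C 0 1 2 1 (.C 1 2 1 8 (.G 73
  176 1 52845 211379 422757 208076 [.n, .n, .g 1 130 0 0, .n]) (.L 3748))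
  (.C 1 2 1 4 (.C 1 3 2 1 (.C 2 3 2 1 (.C 1 2 2 1 (.C 0 1 1 2 (.B 1 1 2 (.B
  0 2 1 (.B 2 1 4 (.L 79) (.B 0 4 1 (.B 2 1 8 (.L 481) (.B 0 8 1 (.C 0 1 2 1
  (.C 1 3 1 1 (.C 0 1 4 1 (.C 0 2 2 1 (.C 0 1 8 1 (.C 0 2 4 1 (.L 3) (.L
  3261)) (.L 453)) (.G 212 508 1 15861 31721 7930 31721 [.n, .g 1 1 0 0, .n,
  .n])) (.C 1 3 2 1 (.L 107) (.G 508 415 3 73060 146119 18265 73060 [.n, .g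
  7 16 0 0, .n, .n]))) (.G 1841 508 1 6883 55061 13765 27531 [.n, .n, .n,
  .n, .g 64 27 0 0, .g 2 1 0 0, .g 64 57 0 0, .g 61 64 0 0])) (.B 2 1 16 (.L
  481) (.C 1 2 1 1 (.L 27) (.G 10 508 1 49758 49758 24879 49758 [.n, .n, .n,
  .n, .n, .n, .g 32 5 0 0, .g 64 11 0 0])))) (.L 481))) (.L 630))) (.L 17))
  (.C 0 1 2 1 (.C 1 3 1 1 (.B 2 1 1 (.C 0 1 4 1 (.C 0 2 2 1 (.C 0 3 8 1 (.L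
  1492) (.B 2 2 1 (.L 1454) (.C 0 3 1 2 (.L 950) (.G 3236 908 2 8388607
  2097152 1048576 2097152 [.g 17 65 0 0, .n, .n, .n, .n, .n])))) (.G 3770
  187 0 10959 21918 5479 21918 [.n, .g 43 64 0 0, .n, .g 57 64 0 0])) (.C 1
  3 2 1 (.G 830 2004 0 456801 228401 114200 913603 [.g 32 11 0 0, .n, .n,
  .n, .n]) (.G 830 187 0 7937 15875 1984 7937 [.g 59 64 0 0, .n, .g 31 64 0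
  0, .n, .n]))) (.C 0 1 4 1 (.B 0 4 1 (.C 0 2 2 1 (.C 0 1 8 1 (.C 0 2 4 1
  (.L 3) (.C 2 3 2 1 (.C 0 3 2 1 (.L 950) (.C 1 2 1 4 (.L 453) (.G 2490 3908
  1 2767093 2767093 345887 1383546 [.n, .g 29 63 0 0, .n, .n]))) (.L 453)))
  (.G 453 1967 2 1942838 971419 485709 971419 [.n, .n, .n, .g 29 64 0 0]))
  (.G 508 415 3 9323 18646 4661 18646 [.n, .g 64 37 0 0, .n, .n])) (.B 1 1 2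
  (.L 79) (.B 1 1 4 (.L 79) (.B 2 4 1 (.C 0 2 2 1 (.C 0 3 8 1 (.L 950) (.B 1
  1 8 (.L 187) (.B 2 8 1 (.C 0 1 1 2 (.C 0 2 1 4 (.L 46) (.C 2 3 2 1 (.G
  3642 187 0 2739885 2739885 342486 1369943 [.n, .n, .n, .n, .g 16 7 0 0, .g
  16 7 0 0]) (.L 46))) (.G 46 2522 1 596573 149143 74572 149143 [.n, .n, .g
  64 33 0 0, .g 32 17 0 0, .g 64 3 0 0, .g 16 1 0 0])) (.L 187)))) (.G 79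
  758 3 35810 71620 17905 71620 [.n, .g 57 64 0 0, .n, .n])) (.L 79))))) (.C
  1 3 2 1 (.G 632 195 0 683021 341511 170755 1366043 [.n, .n, .g 64 43 0 0,
  .n]) (.G 212 508 1 18864 37727 4716 18864 [.n, .g 19 32 0 0, .n, .g 64 19
  0 0])))) (.C 2 3 2 1 (.C 0 2 2 1 (.C 0 2 4 1 (.L 3) (.C 2 3 2 1 (.C 1 2 1
  2 (.L 410) (.C 0 1 2 1 (.C 0 3 2 1 (.L 1492) (.G 1487 1632 0 5257591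
  5257591 657199 2628795 [.n, .n, .n, .n, .g 12 65 0 0, .g 11 64 0 0, .n,
  .n])) (.G 231 1632 0 2691791 1345895 336474 1345895 [.n, .n, .n, .n, .n,
  .n, .g 13 62 0 0, .g 7 32 0 0]))) (.L 410))) (.G 508 79 0 1 1 1 1 [.n, .g
  32 1 0 0, .g 8 3 0 0, .n])) (.L 3))) (.B 2 1 1 (.C 0 3 1 1 (.C 1 3 4 1 (.C
  1 2 1 1 (.C 0 1 1 2 (.G 1154 2237 1 1013925 2027849 1013925 4055699 [.n,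
  .n, .g 64 11 0 0, .n]) (.L 12)) (.L 369)) (.C 0 3 2 1 (.G 632 990 0
  1355504 5422016 677752 5422016 [.n, .g 32 7 0 0, .n, .n]) (.L 187))) (.G
  12 187 0 34 8 8 17 [.g 4 57 0 0, .n, .n, .n, .n, .n])) (.C 1 2 1 1 (.C 0 1
  1 2 (.C 0 1 2 1 (.C 0 3 1 1 (.C 0 2 1 1 (.C 0 3 2 1 (.G 402 648 1 243642
  974568 487284 974568 [.n, .n, .n, .g 45 64 0 0]) (.G 1984 508 1 14752
  14752 7376 7376 [.g 64 47 0 0, .n, .n, .n, .n, .n, .n, .n, .n, .n])) (.L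
  512)) (.L 457)) (.L 2138)) (.L 12)) (.C 0 3 1 1 (.C 0 2 1 2 (.B 0 4 1 (.C
  2 3 1 1 (.L 648) (.C 0 1 1 1 (.C 0 3 2 1 (.L 648) (.L 992)) (.L 992))) (.G
  1844 187 0 7813 7813 15627 15627 [.g 19 65 0 0, .n, .g 32 27 0 0])) (.L
  508)) (.L 508)))))) (.C 1 2 4 1 (.L 12) (.C 1 2 1 2 (.L 12) (.C 0 2 1 1
  (.L 12) (.G 1903 508 2 1 1 1 1 [.n, .n, .g 15 16 0 0, .n]))))) (.C 1 2 1 2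
  (.C 1 2 2 1 (.C 0 1 2 1 (.L 1492) (.G 187 964 1 1 1 1 1 [.n, .n, .n, .g 2
  3 0 0])) (.L 3)) (.L 1689))) (.C 0 3 2 1 (.C 0 1 1 2 (.C 0 3 4 1 (.C 0 1 2
  1 (.C 1 2 1 1 (.C 0 1 4 1 (.C 0 1 8 1 (.L 3) (.C 1 2 1 1 (.G 231 589 2
  1360147 680073 1360147 680073 [.n, .n, .n, .n, .n, .n, .g 37 63 0 0, .g 17
  32 0 0]) (.L 410))) (.C 1 2 2 1 (.C 1 3 2 1 (.G 632 195 0 885051 442526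
  1770103 1770103 [.n, .g 20 63 0 0, .g 64 47 0 0, .n]) (.C 1 3 1 2 (.L 195)
  (.C 2 3 1 2 (.L 195) (.C 0 3 1 1 (.L 196) (.G 10 3418 4 1630532 3261064
  3261064 815266 [.n, .n, .n, .n, .n, .n, .g 1 3 0 0, .g 19 65 0 0]))))) (.C
  1 2 1 2 (.C 1 3 1 2 (.L 196) (.C 0 3 1 1 (.L 196) (.G 311 589 2 1029702
  2059405 2059405 514851 [.n, .n, .n, .n, .g 64 15 0 0, .g 8 5 0 0, .n,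
  .n]))) (.G 311 589 2 879896 3519586 879896 879896 [.n, .n, .n, .n, .g 21
  32 0 0, .g 5 8 0 0, .g 32 29 0 0, .g 32 29 0 0])))) (.L 3)) (.C 0 1 1 2
  (.C 0 2 1 1 (.C 0 1 2 1 (.C 0 3 2 1 (.C 0 2 2 1 (.G 369 402 3 1773569
  7094275 7094275 7094275 [.g 4 21 0 0, .n, .n, .g 16 13 0 0]) (.B 2 1 1 (.C
  1 2 1 2 (.G 1710 402 3 2102096 2102096 4204192 2102096 [.n, .n, .g 15 64 0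
  0, .n]) (.G 46 830 2 1420534 2841069 710267 1420534 [.n, .g 1024 1 0 0,
  .n, .n, .n, .n])) (.L 10))) (.B 2 1 1 (.B 2 2 1 (.G 1946 404 3 1069465
  1069465 534733 534733 [.g 64 55 0 0, .n, .n, .g 32 19 0 0]) (.L 404)) (.L
  457))) (.G 10 404 3 848576 424288 424288 424288 [.n, .n, .n, .n, .n, .n,
  .g 5 8 0 0, .g 59 64 0 0])) (.L 12)) (.L 12))) (.L 12)) (.L 12)) (.G 12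
  204 0 24744 3093 24550 12372 [.n, .g 4 65 0 0, .n, .n, .n, .n]))) (.C 1 3
  1 2 (.C 1 2 1 2 (.C 1 2 2 1 (.C 0 1 2 1 (.C 0 1 4 1 (.L 3) (.C 0 3 1 2 (.G
  12 1408 9 2010125 1005062 2010125 4020249 [.n, .g 256 1 0 0, .n, .n, .n,
  .n]) (.L 1816))) (.L 74)) (.L 3)) (.L 176)) (.L 176))) (.G 73 176 1 82863
  82863 10439 82211 [.n, .n, .g 1 57 0 0, .n]))) (.G 964 968 0 1 1 1 1 [.n,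
  .g 32 17 0 0, .n, .n])) (.G 630 411 0 1 1 1 1 [.n, .n, .g 15 32 0 0, .n]))
  (.B 1 2 1 (.L 8) (.B 2 2 1 (.B 1 1 2 (.L 17) (.C 0 1 1 2 (.C 0 3 2 1 (.B 2
  4 1 (.B 1 1 4 (.L 79) (.C 0 2 1 2 (.C 0 1 2 1 (.G 1011 73 2 27786 111142
  55571 109406 [.n, .g 32 1 0 0, .n, .n, .n, .n, .n, .n]) (.C 0 3 1 1 (.B 2
  8 1 (.B 1 1 8 (.L 79) (.C 1 2 1 1 (.C 1 3 4 1 (.C 1 2 2 1 (.C 0 1 1 2 (.C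
  1 3 2 1 (.C 0 1 2 1 (.C 0 3 8 1 (.G 397 187 0 89 354 177 1412 [.g 32 7 0
  0, .n, .n, .n, .n, .n]) (.B 2 16 1 (.B 1 1 16 (.L 1076) (.G 2596 12 0
  6510574 1627643 813822 3255287 [.n, .g 1 210 0 0, .n, .n])) (.L 1076)))
  (.B 2 16 1 (.B 1 1 16 (.L 1076) (.C 1 2 1 1 (.C 0 3 2 1 (.C 0 1 1 2 (.C 0
  3 4 1 (.C 0 2 1 1 (.G 1551 1674 0 724140 1448280 1448280 5793118 [.n, .g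
  16 3 0 0, .n, .n]) (.L 1472)) (.L 624)) (.L 736)) (.L 12)) (.C 0 2 1 2 (.C
  1 3 2 1 (.C 0 3 4 1 (.G 512 3901 3 444475 444475 888951 3555804 [.n, .n,
  .n, .g 45 64 0 0]) (.G 1654 3034 0 1321353 165169 330338 660677 [.n, .g 23
  32 0 0, .n, .g 64 31 0 0])) (.C 0 3 2 1 (.C 0 1 4 1 (.L 2877) (.G 3389 12
  0 4657754 2328877 1164439 2328877 [.g 1 84 0 0, .g 1 68 0 0, .n, .n])) (.G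
  12 187 0 3325 3325 1662 1662 [.g 19 32 0 0, .n, .n, .n, .n, .n]))) (.L
  259)))) (.L 1076))) (.G 1792 397 0 1048576 8388607 2097152 4194304 [.n,
  .n, .g 1 930 0 0, .g 1 977 0 0, .n, .n, .g 1 204 0 0, .g 1 214 0 0])) (.L
  12)) (.G 397 259 3 34 68 34 137 [.g 64 27 0 0, .n, .n, .n, .n, .n])) (.L
  397)) (.G 187 1011 1 330 330 165 649 [.g 16 15 0 0, .n, .n, .n]))) (.L
  79)) (.L 79))) (.L 79))) (.L 79)) (.L 259)) (.L 259))) (.L 17))))) (.C 1 3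
  2 5 (.C 1 3 4 1 (.L 53) (.C 1 2 1 2 (.L 3112) (.L 1553))) (.L 60))) (.L
  17)) (.L 17)) (.L 17)) (.C 2 3 2 5 (.C 2 3 4 1 (.C 1 2 1 1 (.C 1 2 2 1 (.L
  38) (.C 1 2 1 2 (.L 7) (.L 12))) (.C 1 2 1 2 (.C 1 2 2 1 (.C 1 3 4 1 (.C 1
  3 8 1 (.C 0 1 312 1 (.C 1 2 2 1 (.C 1 2 4 1 (.C 1 3 8 1 (.C 1 2 8 1 (.C 2
  3 1 1 (.B 2 4 1 (.L 369) (.B 0 1 1 (.L 1162) (.L 369))) (.L 1020)) (.C 1 2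
  1 2 (.L 1588) (.L 195))) (.L 196)) (.C 1 2 1 2 (.L 196) (.C 1 3 1 2 (.C 1
  2 1 4 (.C 1 2 2 1 (.L 71) (.C 1 2 1 2 (.L 82) (.L 522))) (.L 410)) (.L
  410)))) (.L 129)) (.B 2 4 1 (.C 0 2 2 1 (.C 1 2 8 1 (.G 404 722 2 326497
  163249 2611977 2611977 [.n, .n, .g 3 7 0 0, .g 51 64 0 0, .g 64 19 0 0])
  (.C 0 2 4 1 (.G 830 722 2 138370 1106963 1106963 1106963 [.g 64 23 0 0,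
  .n, .n, .n, .g 16 7 0 0]) (.C 1 2 1 2 (.G 613 1198 1 470199 470199 940398
  470199 [.n, .n, .n, .n, .g 64 15 0 0]) (.C 0 2 1 2 (.L 196) (.C 1 2 1 4
  (.L 196) (.G 231 82 1 205756 411512 51439 102878 [.n, .n, .n, .n, .n, .n,
  .g 13 32 0 0, .g 13 32 0 0])))))) (.B 1 1 4 (.C 0 3 2 1 (.C 0 1 1 8 (.C 0
  2 1 2 (.C 0 3 4 1 (.C 1 2 1 1 (.C 0 1 2 1 (.C 0 1 4 1 (.L 1966) (.C 1 2 1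
  1 (.G 2365 589 2 3139690 1569845 3139690 3139690 [.n, .n, .n, .n, .n, .n,
  .g 64 61 0 0, .g 64 63 0 0]) (.L 1966))) (.G 550 187 1 1 1 1 1 [.n, .n,
  .n, .g 22 63 0 0])) (.L 1966)) (.L 968)) (.L 79)) (.L 79)) (.L 79)) (.C 1
  2 4 1 (.C 0 1 1 8 (.C 0 1 2 1 (.C 0 1 4 1 (.G 3645 3770 1 62855 502841
  62855 125710 [.n, .n, .n, .n, .n, .n, .n, .n, .g 8 3 0 0, .g 64 25 0 0])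
  (.L 196)) (.G 2621 1198 1 940169 470084 235042 470084 [.g 16 5 0 0, .n,
  .n, .n])) (.C 1 2 8 1 (.C 1 3 16 1 (.L 369) (.G 830 2724 4 635420 1270840
  635420 635420 [.g 64 33 0 0, .n, .n, .n, .n])) (.G 2724 196 0 838114
  838114 419057 838114 [.n, .n, .n, .n, .g 64 33 0 0]))) (.C 1 2 1 2 (.C 1 2
  2 1 (.C 0 1 1 1 (.C 0 1 2 1 (.L 143) (.G 273 1632 0 1596010 798005 1596010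
  798005 [.n, .n, .n, .n, .g 1 3 0 0, .g 21 65 0 0, .n, .n, .n, .n])) (.G
  3133 1632 0 4194304 2097152 8388607 4194304 [.g 14 65 0 0, .n, .n, .n, .n,
  .n, .g 1 30 0 0, .g 1 31 0 0])) (.L 410)) (.L 129))))) (.B 2 1 2 (.C 0 2 2
  1 (.C 0 3 8 1 (.B 1 2 1 (.C 0 1 1 2 (.C 0 3 16 1 (.C 0 1 2 1 (.C 0 2 4 1
  (.B 0 1 4 (.G 233 402 3 15478 61911 123823 495291 [.n, .n, .n, .g 4 3 0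
  0]) (.G 968 2109 0 2614 10454 20908 83633 [.n, .n, .n, .g 63 64 0 0])) (.G
  79 630 2 1 1 1 1 [.g 64 47 0 0, .n, .n, .n])) (.L 79)) (.L 79)) (.L 17))
  (.C 1 2 8 1 (.G 1812 402 3 69991 34995 559924 1119849 [.g 8 3 0 0, .n, .n,
  .n]) (.C 0 2 4 1 (.G 402 233 3 69991 559924 559924 1119849 [.n, .n, .n, .g
  47 65 0 0]) (.C 1 2 1 2 (.L 195) (.C 2 3 4 1 (.C 0 2 1 2 (.L 196) (.C 1 2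
  1 4 (.L 196) (.C 2 3 8 1 (.L 225) (.L 82)))) (.L 196)))))) (.B 1 2 1 (.L
  17) (.B 2 2 1 (.B 1 1 2 (.L 79) (.C 2 3 2 1 (.C 1 2 8 1 (.G 648 968 3
  23062 721 11531 23062 [.n, .g 32 5 0 0, .g 16 21 0 0, .n]) (.C 1 2 1 2 (.G
  812 1198 1 1824863 912431 1824863 1824863 [.g 64 25 0 0, .n, .n, .n, .n])
  (.C 0 2 1 4 (.L 880) (.C 1 2 1 4 (.L 880) (.G 522 880 2 662241 662241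
  82780 331121 [.n, .n, .n, .n, .g 1 5 0 0, .g 2 11 0 0]))))) (.L 10))) (.L
  79)))) (.B 1 2 1 (.L 17) (.C 0 1 1 8 (.C 0 2 1 2 (.C 0 1 2 1 (.B 1 1 2 (.L
  79) (.C 0 2 2 1 (.C 0 3 2 1 (.B 2 2 1 (.C 0 3 4 1 (.C 1 2 1 1 (.C 0 1 4 1
  (.L 225) (.C 1 2 2 1 (.G 1455 1967 2 3802489 1901244 7604978 3802489 [.n,
  .n, .n, .n, .g 37 63 0 0, .g 36 65 0 0]) (.L 225))) (.L 225)) (.L 187))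
  (.L 79)) (.L 187)) (.L 187))) (.L 187)) (.L 79)) (.L 79)))) (.C 0 3 8 1
  (.G 233 481 2 1376 688 2752 22019 [.g 11 16 0 0, .n, .n, .g 32 13 0 0])
  (.L 17))))) (.L 1841)) (.L 1011)) (.L 218)) (.L 3748))) (.C 2 3 1 2 (.L
  38) (.L 16))) (.C 1 3 2 5 (.C 1 3 4 1 (.L 16) (.C 1 3 1 2 (.L 16) (.L
  610))) (.L 614)))) (by decide +kernel)

theorem CN0_c16 : CoN CNTab ⟨⟨5, 15, 32⟩, ⟨5, 16, 32⟩, ⟨11, 31, 64⟩, ⟨1, 0,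
  0, 0, 0⟩, ⟨148, 2, 0, 1, 0⟩, ⟨148, 2, 0, 0, 1⟩, ⟨52, 1, 1, 1, 0⟩⟩ :=
CoN.ofG CNTab_B CNBt_E CNBt_U (.C 0 3 64 1 (.B 1 2 1 (.L 17) (.C 0 1 160 1
  (.B 2 1 2 (.C 0 2 160 1 (.C 2 3 2 5 (.C 0 3 1264 1 (.C 0 2 320 1 (.C 2 3 4
  1 (.C 1 2 2 1 (.L 38) (.C 1 2 1 2 (.C 2 3 2 1 (.C 1 2 2 1 (.L 7) (.C 1 2 1
  2 (.C 1 2 2 1 (.L 7) (.C 2 3 1 1 (.C 1 2 1 2 (.L 12) (.C 2 3 2 1 (.B 0 1 1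
  (.L 27) (.C 1 3 1 1 (.L 1844) (.C 2 3 4 1 (.L 329) (.L 1142)))) (.L 10)))
  (.L 12))) (.C 1 3 1 1 (.B 2 2 1 (.C 1 3 2 1 (.C 1 2 1 4 (.C 1 2 2 1 (.C 1
  3 4 1 (.L 329) (.L 107)) (.L 107)) (.B 1 1 2 (.C 0 3 40632 1 (.C 0 2 2544
  1 (.C 0 1 20336 1 (.B 0 1 2 (.C 0 2 5088 1 (.C 2 3 8 1 (.C 1 2 1 4 (.L
  275) (.C 1 2 1 8 (.L 2007) (.L 88))) (.L 275)) (.G 311 964 0 11690 46761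
  5845 93522 [.n, .n, .n, .n, .g 27 65 0 0, .g 25 63 0 0, .g 33 65 0 0, .g
  10 21 0 0])) (.B 1 2 1 (.L 508) (.C 0 2 5088 1 (.C 2 3 8 1 (.C 1 2 1 4 (.L
  275) (.L 410)) (.L 682)) (.G 4061 508 1 126898 507593 63449 1015187 [.g 64
  5 0 0, .n, .n, .n, .g 1 2 0 0, .g 32 65 0 0])))) (.L 630)) (.L 630)) (.L
  630)) (.C 0 2 2544 1 (.C 2 3 8 1 (.C 1 2 1 4 (.L 275) (.C 1 2 1 8 (.L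
  2007) (.L 88))) (.L 275)) (.C 0 1 4 1 (.C 0 3 8 1 (.C 1 2 1 16 (.C 0 1 8 1
  (.L 88) (.G 1149 3560 0 8388607 4194304 8388607 8388607 [.n, .n, .g 64 55
  0 0, .n])) (.L 88)) (.B 2 4 1 (.C 2 3 16 1 (.L 88) (.G 200 275 2 8388607
  4194304 8388607 4194304 [.g 4 13 0 0, .n, .n, .n])) (.L 588))) (.B 2 4 1
  (.B 1 1 4 (.L 508) (.C 2 3 16 1 (.C 1 2 1 8 (.L 1469) (.L 225)) (.L 453)))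
  (.L 588)))))) (.C 1 3 1 2 (.C 1 2 1 16 (.B 0 1 2 (.L 453) (.C 1 2 2 1 (.L
  46) (.L 1192))) (.L 3)) (.L 3))) (.C 0 1 10160 1 (.C 0 1 20320 1 (.C 0 3
  20312 1 (.C 0 2 2544 1 (.C 0 3 40624 1 (.C 0 2 5088 1 (.C 1 3 2 1 (.C 1 2
  1 4 (.B 0 1 1 (.L 107) (.B 1 2 1 (.L 481) (.L 107))) (.B 1 2 1 (.G 17 964
  3 1 1 1 1 [.n, .n, .g 64 19 0 0, .n]) (.B 0 4 1 (.B 2 1 2 (.B 1 1 4 (.L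
  333) (.C 2 3 16 1 (.C 1 2 1 8 (.L 352) (.L 3)) (.L 352))) (.L 333)) (.C 2
  3 16 1 (.C 1 2 1 8 (.L 453) (.L 3)) (.L 453))))) (.C 1 3 1 2 (.B 0 1 1 (.B
  1 1 1 (.L 588) (.B 2 1 2 (.C 1 2 1 16 (.L 352) (.L 3)) (.L 325))) (.C 1 2
  1 16 (.B 1 2 1 (.L 481) (.L 453)) (.L 3))) (.L 3))) (.L 656)) (.L 656))
  (.L 656)) (.L 656)) (.L 656)) (.L 588))) (.L 3)))) (.L 7)) (.C 1 2 1 4 (.L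
  218) (.L 3748)))) (.C 2 3 1 2 (.L 38) (.L 53))) (.B 1 1 2 (.L 17) (.B 2 2
  1 (.B 2 4 1 (.B 1 1 4 (.L 1236) (.C 0 1 1 2 (.C 0 1 2 1 (.C 0 3 4 1 (.G
  3037 91 0 509503 2022091 254752 4028259 [.n, .n, .g 1 5490 0 0, .g 1 5953
  0 0, .n, .n]) (.C 2 3 8 1 (.G 2362 91 0 1019522 511776 64476 1019522 [.n,
  .n, .g 1 1105 0 0, .g 1 1231 0 0, .n, .n, .n, .n]) (.G 90 1059 1 9084 4542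
  9084 4542 [.g 16 1 0 0, .n, .n, .n, .n, .n]))) (.C 1 2 1 4 (.C 1 2 2 1 (.C
  0 1 1 2 (.C 0 3 1 1 (.B 2 8 1 (.B 1 1 8 (.L 508) (.C 0 3 2 1 (.C 0 1 2 1
  (.C 0 1 4 1 (.G 311 212 1 85589 684713 171178 342356 [.n, .n, .n, .n, .g 9
  13 0 0, .g 41 63 0 0, .g 64 47 0 0, .g 64 51 0 0]) (.C 1 3 1 1 (.L 107)
  (.C 2 3 2 1 (.L 107) (.G 3549 689 0 6609228 6609228 6609228 3304614 [.g 1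
  958 0 0, .n, .n, .n])))) (.G 1678 508 1 65313 32656 32656 65313 [.n, .n,
  .g 64 13 0 0, .g 64 15 0 0, .n, .n, .n, .n, .n, .n])) (.G 1678 508 1 68848
  34424 34424 34424 [.n, .n, .g 128 25 0 0, .g 64 15 0 0, .n, .n, .n, .n,
  .n, .n]))) (.L 508)) (.C 1 3 1 2 (.B 2 8 1 (.B 1 1 8 (.L 508) (.C 2 3 2 1
  (.G 1230 964 0 82792 82792 82792 331166 [.n, .n, .g 64 15 0 0, .g 64 17 0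
  0, .n, .n, .n, .n]) (.G 74 204 0 12995 12995 51978 25989 [.n, .g 5 71 0 0,
  .n, .n, .n, .n, .n, .n]))) (.L 508)) (.C 2 3 1 2 (.G 508 204 0 31 61 31 61
  [.n, .g 25 32 0 0, .n, .n]) (.L 43)))) (.C 1 3 2 1 (.B 1 1 8 (.L 630) (.B
  2 8 1 (.B 1 1 16 (.L 508) (.B 2 16 1 (.C 2 3 1 1 (.G 12 508 1 1008 252
  1008 2000 [.g 64 11 0 0, .n, .n, .n, .n, .n]) (.G 74 122 0 11476 2869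
  22772 11476 [.n, .g 5 61 0 0, .n, .n, .n, .n, .n, .n])) (.L 508))) (.L
  630))) (.C 0 3 1 2 (.B 2 8 1 (.B 1 1 8 (.L 508) (.C 0 3 2 1 (.B 1 1 16 (.L
  508) (.B 2 16 1 (.C 0 1 1 1 (.G 7 508 1 581 1163 581 2325 [.g 64 11 0 0,
  .n, .n, .n, .n, .n]) (.G 204 508 1 123 61 61 245 [.g 16 7 0 0, .n, .n, .n,
  .n, .n])) (.L 508))) (.G 122 508 1 134 34 34 67 [.g 64 49 0 0, .n, .n, .n,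
  .n, .n]))) (.L 508)) (.C 2 3 1 2 (.G 964 122 0 256 128 128 256 [.g 16 15 0
  0, .n, .n, .n]) (.L 43))))) (.C 1 2 1 2 (.C 1 2 2 1 (.C 1 3 1 2 (.B 2 8 1
  (.B 1 1 8 (.L 508) (.C 0 1 2 1 (.G 2525 508 1 13703 54811 109621 54811
  [.n, .n, .n, .n, .g 64 57 0 0, .g 64 59 0 0, .g 35 64 0 0, .g 34 65 0 0,
  .n, .n]) (.G 415 3805 2 7081 3541 14162 7081 [.n, .n, .n, .g 43 64 0 0])))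
  (.L 588)) (.G 2781 311 1 96213 384853 775720 96213 [.n, .n, .n, .n, .n,
  .n, .n, .g 2 59 0 0])) (.L 3)) (.L 3))) (.C 2 3 8 1 (.G 2372 964 0 59863
  59863 7542 119255 [.n, .n, .n, .n, .n, .n, .g 9 16 0 0, .g 31 64 0 0, .n,
  .n]) (.G 73 1841 1 212361 212361 424722 212361 [.n, .n, .g 1 38 0 0,
  .n])))) (.C 2 3 8 1 (.L 1236) (.C 1 3 8 1 (.L 1236) (.C 0 2 4 1 (.C 0 1 4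
  1 (.C 0 3 2 1 (.G 38 964 0 14187 113499 112612 56749 [.n, .n, .g 43 63 0
  0, .n]) (.C 1 2 1 1 (.G 81 53 1 204224 408448 816895 102112 [.n, .g 16 1 0
  0, .n, .n, .n, .n, .n, .n]) (.G 43 964 0 13041 52165 26083 6521 [.g 3 31 0
  0, .g 5 33 0 0, .n, .n]))) (.C 1 2 2 1 (.L 16) (.C 0 2 1 1 (.G 16 508 1
  3868 7736 7736 967 [.n, .n, .g 3 4 0 0, .g 21 64 0 0, .n]) (.G 43 964 0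
  121609 121609 60804 15201 [.g 5 22 0 0, .g 23 65 0 0, .n, .n])))) (.C 1 2
  1 1 (.C 0 1 1 2 (.G 43 508 1 14713 29426 14713 3678 [.g 3 13 0 0, .g 23 63
  0 0, .n, .n]) (.G 53 964 0 33349 8337 16675 4169 [.n, .g 17 63 0 0, .n,
  .n])) (.C 2 3 1 2 (.G 204 325 1 42 42 21 42 [.g 27 64 0 0, .n, .n, .n, .n,
  .n]) (.G 43 508 1 22518 22518 22518 5629 [.g 23 65 0 0, .g 4 7 0 0, .n,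
  .n])))))))) (.L 588)) (.L 17)))) (.B 1 1 2 (.L 17) (.C 0 2 1 8 (.B 2 2 1
  (.C 0 1 1 8 (.B 2 4 1 (.B 1 1 4 (.L 630) (.C 0 3 1 2 (.C 2 3 1 1 (.C 1 2 1
  1 (.G 53 964 0 5926 11853 23706 23706 [.n, .g 5 13 0 0, .n, .n]) (.C 0 2 2
  1 (.L 43) (.G 204 1236 2 112 112 56 112 [.g 9 16 0 0, .n, .n, .n, .n,
  .n]))) (.L 53)) (.L 630))) (.L 588)) (.L 1236)) (.L 17)) (.L 588)))) (.C 1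
  3 2 5 (.L 16) (.C 1 3 1 10 (.L 60) (.C 2 3 1 10 (.L 60) (.L 131))))) (.L
  17)) (.L 17)) (.L 17))) (.L 30)) (by decide +kernel)

theorem CN0_c17 : CoN CNTab ⟨⟨5, 15, 32⟩, ⟨5, 16, 32⟩, ⟨3, 8, 16⟩, ⟨148, 2,
  0, 1, 0⟩, ⟨68, 2, 0, 1, 0⟩, ⟨148, 2, 0, 0, 1⟩, ⟨52, 1, 1, 1, 0⟩⟩ :=
CoN.ofG CNTab_B CNBt_E CNBt_U (.B 2 2 1 (.B 1 1 2 (.L 8) (.B 2 4 1 (.B 1 1 4
  (.L 17) (.C 2 3 2 5 (.C 1 2 2 1 (.C 1 2 4 1 (.L 16) (.C 2 3 2 1 (.L 38)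
  (.L 16))) (.C 0 2 1 1 (.C 2 3 2 1 (.C 0 2 2 1 (.L 38) (.C 0 2 1 2 (.L 343)
  (.C 2 3 4 1 (.G 7 12 1 219248 54812 54812 438497 [.n, .n, .g 1 60 0 0, .g
  1 66 0 0, .n, .n]) (.L 343)))) (.G 38 242 4 8382 16240 65485 32481 [.g 27
  64 0 0, .n, .n, .n])) (.C 1 2 1 2 (.C 1 3 2 1 (.C 0 1 1 1 (.C 1 3 2 1 (.B
  2 8 1 (.C 2 3 4 1 (.C 1 2 1 1 (.L 12) (.C 0 2 2 1 (.C 1 2 1 1 (.L 990) (.C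
  0 2 4 1 (.L 990) (.C 2 3 4 1 (.L 195) (.L 990)))) (.G 397 968 3 205 205
  102 813 [.g 64 9 0 0, .n, .g 6 13 0 0, .g 13 32 0 0, .n, .n]))) (.G 7 12 1
  22718 45436 360651 181745 [.n, .n, .g 7 60 0 0, .g 1 10 0 0, .n, .n])) (.C
  0 3 8 1 (.C 0 1 2 1 (.B 2 1 2 (.C 0 1 4 1 (.C 0 3 16 1 (.B 2 2 1 (.B 1 2 1
  (.L 79) (.B 1 1 2 (.L 79) (.C 0 3 32 1 (.G 4024 187 0 4992 39936 9984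
  319486 [.g 64 19 0 0, .g 64 15 0 0, .g 32 17 0 0, .g 64 9 0 0]) (.L
  968)))) (.L 79)) (.L 79)) (.L 79)) (.L 79)) (.L 17)) (.L 17))) (.C 2 3 2 1
  (.C 1 2 1 4 (.G 7 12 1 29345 234757 465845 232923 [.n, .n, .g 7 66 0 0, .g
  6 65 0 0, .n, .n]) (.B 1 1 8 (.G 1674 550 3 3054 48476 6107 24238 [.n, .n,
  .g 8 7 0 0, .n]) (.C 0 3 8 1 (.C 0 2 2 1 (.C 2 3 4 1 (.C 0 2 4 1 (.L 369)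
  (.C 1 2 1 4 (.L 369) (.G 645 2724 2 742035 2944952 371018 2944952 [.n, .g
  33 64 0 0, .n, .n, .n]))) (.L 369)) (.G 397 968 3 801 3177 400 3202 [.n,
  .n, .g 16 9 0 0, .g 64 41 0 0, .n, .n])) (.G 3293 968 3 2886 2863 361 1443
  [.n, .n, .g 64 21 0 0, .g 8 3 0 0, .n, .n, .g 8 7 0 0, .g 1 1 0 0])))) (.C
  0 3 4 1 (.C 0 1 8 1 (.G 7 12 1 43851 701615 348067 350807 [.n, .n, .g 3 59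
  0 0, .g 3 67 0 0, .n, .n]) (.L 343)) (.L 779)))) (.L 259)) (.C 2 3 1 1 (.C
  1 2 1 2 (.C 0 1 4 1 (.G 1480 204 0 447575 3580598 3552625 1790299 [.g 3 70
  0 0, .n, .n, .n, .g 1 3977 0 0, .g 1 4115 0 0, .n, .n]) (.L 779)) (.C 2 3
  2 1 (.C 0 1 8 1 (.C 1 2 1 8 (.C 1 2 2 1 (.L 12) (.C 2 3 1 4 (.C 0 2 32 1
  (.L 1802) (.G 2269 717 0 6459042 6459042 3229521 6459042 [.g 1 57 0 0, .n,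
  .n, .g 1 193 0 0])) (.L 12))) (.C 0 2 2 1 (.C 2 3 2 1 (.B 2 8 1 (.B 2 16 1
  (.C 0 2 4 1 (.G 3933 397 0 71904 2291951 575235 1145976 [.n, .g 1 276 0 0,
  .n, .g 2 59 0 0, .n]) (.L 397)) (.B 2 1 2 (.C 0 2 4 1 (.C 0 1 32 1 (.G
  1986 369 0 74399 4752254 595194 1185739 [.n, .n, .n, .n, .n, .n, .g 16 1 0
  0, .g 16 1 0 0]) (.L 1986)) (.L 585)) (.C 0 1 32 1 (.G 722 79 1 28062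
  1792435 112246 447232 [.n, .n, .g 16 3 0 0, .g 32 1 0 0, .n]) (.L 79))))
  (.C 0 3 16 1 (.G 722 481 2 1668 53157 6671 53261 [.n, .n, .g 42 65 0 0,
  .n, .n]) (.L 79))) (.C 1 3 1 4 (.C 0 1 32 1 (.L 1802) (.G 613 1436 2
  8388607 4194304 2097152 8388607 [.g 64 1 0 0, .g 16 3 0 0, .n, .n, .g 8 3
  0 0])) (.L 12))) (.B 2 8 1 (.G 397 968 3 367 2922 183 722 [.n, .n, .g 53
  64 0 0, .g 23 32 0 0, .n, .n]) (.L 17)))) (.G 397 550 3 3084 1542 385 1518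
  [.n, .n, .g 16 9 0 0, .g 64 41 0 0, .n, .n])) (.C 2 3 1 2 (.G 7 12 1 64319
  510531 510531 1021061 [.n, .n, .g 1 51 0 0, .g 1 54 0 0, .n, .n]) (.L
  1480)))) (.C 0 3 2 1 (.C 0 1 4 1 (.C 0 3 4 1 (.G 1792 122 0 290551 2324405
  1162202 2324405 [.g 3 70 0 0, .n, .n, .n, .g 1 3502 0 0, .g 1 3809 0 0,
  .n, .n]) (.L 2970)) (.L 216)) (.G 242 43 3 97870 97870 97870 48935 [.n,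
  .n, .n, .n, .g 64 27 0 0])))) (.C 0 2 1 2 (.C 0 2 2 1 (.B 2 8 1 (.C 0 3 2
  1 (.C 0 2 4 1 (.B 2 16 1 (.G 397 990 0 64655 129311 517244 258622 [.g 256
  1 0 0, .n, .n, .n, .n, .n]) (.B 0 1 2 (.B 2 1 2 (.C 2 3 1 2 (.C 0 1 2 1
  (.G 613 722 2 64636 258543 517085 1034170 [.n, .g 32 15 0 0, .g 32 13 0 0,
  .n, .n]) (.G 2909 1101 1 276909 138454 553817 1107635 [.n, .n, .g 64 27 0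
  0, .g 16 7 0 0, .n, .n])) (.C 1 3 2 1 (.C 1 2 8 1 (.C 0 1 2 1 (.C 1 3 2 1
  (.B 0 1 2 (.C 1 2 8 1 (.C 0 1 4 1 (.G 722 165 0 106882 855056 6827086
  1703432 [.n, .n, .g 64 49 0 0, .n, .n]) (.L 165)) (.C 1 3 1 4 (.C 1 2 1 2
  (.G 1986 1984 0 65729 4198412 8388607 8384499 [.n, .n, .n, .n, .n, .n, .g
  64 21 0 0, .g 32 11 0 0]) (.L 624)) (.L 2746))) (.C 0 2 32 1 (.G 1567 722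
  2 47012 188050 3002922 749261 [.g 64 1 0 0, .n, .n, .n, .n, .n]) (.L
  1567))) (.L 12)) (.G 397 968 3 471 236 3755 943 [.n, .n, .g 64 61 0 0, .g
  59 64 0 0, .n, .n])) (.L 12)) (.G 722 1567 0 64636 513045 1034170 258543
  [.n, .n, .g 1 27 0 0, .n, .n]))) (.C 1 2 4 1 (.C 0 1 2 1 (.C 2 3 1 4 (.C 0
  2 16 1 (.G 187 722 2 1302 5209 41671 41508 [.g 16 15 0 0, .n, .n, .n]) (.G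
  1198 550 3 181917 22740 90959 180496 [.n, .n, .n, .g 64 25 0 0, .n])) (.G
  722 187 0 1031 4122 32850 4122 [.n, .n, .g 38 63 0 0, .n, .n])) (.L 968))
  (.C 0 1 16 1 (.C 0 2 8 1 (.L 990) (.C 2 3 1 2 (.L 613) (.L 990))) (.C 1 3
  1 4 (.C 0 1 1 2 (.L 196) (.C 1 2 1 2 (.C 1 3 2 1 (.B 1 2 1 (.L 79) (.C 1 2
  2 1 (.L 79) (.C 0 1 1 1 (.L 71) (.L 231)))) (.L 880)) (.L 880))) (.G 1710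
  830 0 766987 760995 191747 95873 [.n, .n, .g 28 65 0 0, .n]))))) (.G 1710
  397 0 57563 115126 460504 230252 [.n, .n, .g 1 237 0 0, .n]))) (.C 0 2 1 2
  (.C 0 1 1 4 (.B 0 1 2 (.B 2 16 1 (.L 397) (.C 2 3 1 4 (.G 4058 908 2
  669046 1338092 1338092 2676183 [.n, .n, .g 11 16 0 0, .g 42 65 0 0, .n,
  .n]) (.C 1 3 1 4 (.G 1632 3236 0 600533 1201066 2402132 2402132 [.g 64 23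
  0 0, .n, .n, .n, .n]) (.G 812 722 2 216062 857497 864249 108031 [.n, .n,
  .n, .g 32 11 0 0, .n])))) (.L 3258)) (.L 2234)) (.L 2874))) (.L 3258)) (.B
  1 2 1 (.L 968) (.B 2 1 2 (.B 2 2 1 (.B 1 1 2 (.L 968) (.C 0 2 4 1 (.C 0 1
  2 1 (.G 812 722 2 107300 429199 858397 214599 [.n, .n, .g 16 11 0 0, .g 16
  7 0 0, .n]) (.G 908 550 3 6240 3120 12480 3120 [.n, .n, .g 64 35 0 0,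
  .n])) (.C 0 3 1 4 (.C 0 2 1 2 (.C 0 3 2 1 (.C 0 1 1 4 (.C 0 2 2 1 (.G 3236
  908 2 520626 1041252 2082505 2082505 [.g 23 63 0 0, .n, .n, .n, .n, .n])
  (.L 410)) (.L 3421)) (.L 2234)) (.L 3898)) (.L 2874)))) (.L 968)) (.L
  968)))) (.G 2106 1869 7 441797 220898 220898 220898 [.n, .g 256 1 0 0, .n,
  .n, .n, .n, .n, .n])) (.G 73 1127 1 66784 65724 16961 65724 [.n, .n, .g 2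
  59 0 0, .n]))))) (.C 1 3 3 4 (.L 16) (.C 0 3 2 5 (.G 3112 242 1 17163
  53635 66508 68653 [.g 13 21 0 0, .g 13 62 0 0, .n, .n]) (.L 1553))))) (.L
  17))) (.L 8)) (by decide +kernel)

theorem CN0_c18 : CoN CNTab ⟨⟨5, 15, 32⟩, ⟨5, 16, 32⟩, ⟨3, 8, 16⟩, ⟨148, 2,
  0, 0, 1⟩, ⟨68, 2, 0, 1, 0⟩, ⟨68, 2, 0, 0, 1⟩, ⟨52, 1, 1, 1, 0⟩⟩ :=
CoN.ofG CNTab_B CNBt_E CNBt_U (.B 2 2 1 (.B 1 1 2 (.L 8) (.C 0 1 1 2 (.C 0 2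
  1 2 (.B 2 4 1 (.B 1 1 4 (.L 17) (.C 0 3 2 5 (.C 0 1 2 1 (.C 2 3 2 1 (.G
  1011 73 2 42718 165531 85435 331061 [.n, .g 64 1 0 0, .n, .n, .n, .n, .n,
  .n]) (.C 0 3 4 1 (.G 73 1011 1 41809 162009 324017 324017 [.n, .n, .g 3 70
  0 0, .n]) (.C 1 3 1 1 (.L 1011) (.G 1011 933 1 2311390 2311390 2311390
  1155695 [.n, .n, .n, .n, .n, .n, .n, .g 1 87 0 0])))) (.C 2 3 2 1 (.L 550)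
  (.B 2 8 1 (.C 1 3 2 1 (.L 259) (.B 2 16 1 (.C 2 3 1 2 (.L 259) (.B 1 1 8
  (.L 259) (.C 1 3 1 2 (.L 259) (.G 397 1326 3 91995 367981 362231 91995
  [.n, .g 64 1 0 0, .n, .n, .n, .n])))) (.L 259))) (.L 17)))) (.C 0 2 1 2
  (.G 34 1434 0 82 41 163 8 [.g 64 13 0 0, .g 7 33 0 0, .n, .n]) (.L 17))))
  (.L 30)) (.L 17)) (.L 8))) (.L 8)) (by decide +kernel)

theorem CN0_c19 : CoN CNTab ⟨⟨3, 7, 16⟩, ⟨1, 4, 8⟩, ⟨3, 8, 16⟩, ⟨52, 1, 1,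
  1, 0⟩, ⟨68, 2, 0, 1, 0⟩, ⟨68, 2, 0, 0, 1⟩, ⟨20, 1, 1, 1, 0⟩⟩ :=
  CoN.ofG CNTab_B CNBt_E CNBt_U (.L 17) (by decide +kernel)

theorem CN0_c20 : CoN CNTab ⟨⟨3, 7, 16⟩, ⟨1, 4, 8⟩, ⟨3, 8, 16⟩, ⟨68, 2, 0,
  1, 0⟩, ⟨28, 2, 0, 1, 0⟩, ⟨68, 2, 0, 0, 1⟩, ⟨20, 1, 1, 1, 0⟩⟩ :=
  CoN.ofG CNTab_B CNBt_E CNBt_U (.L 8) (by decide +kernel)

theorem CN0_c21 : CoN CNTab ⟨⟨3, 7, 16⟩, ⟨1, 4, 8⟩, ⟨3, 8, 16⟩, ⟨68, 2, 0,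
  0, 1⟩, ⟨28, 2, 0, 1, 0⟩, ⟨28, 2, 0, 0, 1⟩, ⟨20, 1, 1, 1, 0⟩⟩ :=
  CoN.ofG CNTab_B CNBt_E CNBt_U (.L 8) (by decide +kernel)

end Pool.Agent.TET.Cvr
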