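import Pool.Agent.Helper37_TET.CNBt

/-!
# MP_c7c9bf_co: cover of the charts, root 0 part 8
-/

set_option autoImplicit false
set_option maxRecDepth 100000

namespace Pool.Agent.TET.Cvr

theorem CN0_c175 : CoN CNTab ⟨⟨7, 7, 16⟩, ⟨3, 4, 8⟩, ⟨1, 1, 2⟩, ⟨1, 0, 0, 0,
  0⟩, ⟨8, 2, 0, 1, 0⟩, ⟨64, 16, 10, 10, 3⟩, ⟨4, 1, 1, 1, 0⟩⟩ :=
CoN.ofG CNTab_B CNBt_E CNBt_U (.C 2 3 1 12 (.C 2 3 2 1 (.C 2 3 4 1 (.C 1 2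
  10 1 (.C 1 2 20 1 (.L 664) (.C 2 3 4 1 (.C 2 3 8 1 (.C 1 3 8 1 (.L 595)
  (.B 2 8 1 (.C 1 2 1 32 (.L 3176) (.B 1 1 4 (.L 650) (.B 2 16 1 (.C 2 3 16
  1 (.C 1 3 1 2 (.L 1329) (.B 1 1 8 (.L 1585) (.C 0 3 12652 1 (.B 2 32 1 (.C
  0 1 50660 1 (.C 2 3 64 1 (.L 1329) (.G 967 313 1 1 1 1 1 [.g 64 25 0 0,
  .n, .g 1 89 0 0, .g 2 273 0 0, .n, .n])) (.L 2152)) (.L 1329)) (.L
  2152)))) (.L 3176)) (.L 1585)))) (.L 316))) (.L 3176)) (.L 664))) (.B 2 8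
  1 (.B 2 16 1 (.C 0 2 196 1 (.C 0 3 1564 1 (.C 1 3 8 1 (.B 1 1 4 (.C 1 2 1
  1 (.L 650) (.C 1 2 1 2 (.L 650) (.C 0 3 6296 1 (.B 0 1 8 (.C 2 3 32 1 (.C
  0 1 1572 1 (.B 0 2 1 (.C 0 2 392 1 (.B 2 4 1 (.L 813) (.G 23 1948 2 1 3144
  784 25136 [.n, .n, .g 1 31 0 0, .g 2 65 0 0, .n, .n])) (.L 1366)) (.L
  1366)) (.L 328)) (.B 0 2 1 (.C 2 3 1 2 (.C 0 1 1572 1 (.C 0 3 50320 1 (.B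
  2 4 1 (.L 813) (.G 23 813 0 1 3144 25136 100640 [.n, .n, .g 1 8031 0 0, .g
  1 8722 0 0, .n, .n])) (.L 328)) (.L 328)) (.L 650)) (.L 328))) (.C 2 3 32
  1 (.B 1 2 1 (.L 316) (.C 0 2 392 1 (.C 1 2 1 2 (.L 328) (.L 723)) (.L
  316))) (.L 328))) (.L 650)))) (.C 0 1 396 1 (.C 0 3 6296 1 (.B 1 1 8 (.C 1
  2 1 2 (.C 0 1 792 1 (.B 1 2 1 (.L 672) (.C 1 2 1 1 (.B 0 1 1 (.L 120) (.C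
  0 3 12592 1 (.C 0 2 3160 1 (.L 967) (.L 428)) (.L 428))) (.G 967 1636 0 1
  3160 1576 12592 [.n, .n, .g 1 2530 0 0, .g 1 3402 0 0, .n, .n]))) (.L
  672)) (.C 2 3 32 1 (.C 0 2 392 1 (.C 0 1 1576 1 (.B 0 1 4 (.G 120 1636 2 1
  3152 784 25136 [.n, .n, .g 13 64 0 0, .g 8 65 0 0, .n, .n]) (.L 662)) (.L
  662)) (.L 1366)) (.C 0 3 12592 1 (.C 0 1 1576 1 (.B 0 1 4 (.G 967 380 2 1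
  3152 25136 25184 [.n, .n, .g 2 23 0 0, .g 1 17 0 0, .n, .n]) (.B 1 2 1 (.C
  2 3 1 1 (.L 813) (.L 1576)) (.L 380))) (.G 1152 1948 0 434952 217476
  3466022 3479614 [.n, .g 64 21 0 0, .n, .n, .n, .g 1 20 0 0, .n, .n])) (.G
  650 380 5 8388607 524288 8355839 4194304 [.n, .n, .g 64 7 0 0, .g 16 1 0
  0, .n, .n, .g 26 63 0 0, .g 23 65 0 0])))) (.C 0 2 392 1 (.G 918 967 3 1 1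
  1 1 [.n, .g 256 1 0 0, .n, .n, .n, .n, .n, .n, .n, .n]) (.G 1948 918 1
  34011 34011 17005 546298 [.g 1024 1 0 0, .n, .n, .n, .n, .g 64 25 0 0])))
  (.G 672 1664 0 119376 7432 3716 59688 [.n, .n, .g 8 5 0 0, .g 16 9 0 0,
  .n, .n, .g 63 64 0 0, .g 7 8 0 0])) (.B 1 1 8 (.C 0 2 1 2 (.L 672) (.L
  188)) (.L 2152)))) (.B 1 1 4 (.B 0 1 8 (.C 0 1 6296 1 (.C 1 2 1 32 (.C 0 3
  3128 1 (.C 0 1 12592 1 (.C 0 2 25136 1 (.C 0 3 6256 1 (.B 0 2 1 (.B 2 4 1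
  (.L 1576) (.L 23)) (.C 1 2 2 1 (.B 0 1 2 (.L 2001) (.C 1 3 1 2 (.C 1 3 2 1
  (.L 328) (.L 3426)) (.L 2001))) (.L 1152))) (.L 23)) (.C 1 2 1 1 (.G 23
  1152 5 148 73 148 18 [.n, .n, .g 16 9 0 0, .g 64 39 0 0, .n, .n]) (.L
  723))) (.B 0 2 1 (.G 1948 2001 1 8388607 4194304 8388607 2097152 [.g 1 4 0
  0, .n, .n, .n, .n, .g 1 156 0 0]) (.C 0 2 1 1 (.G 328 1152 5 2791449
  1395724 5626514 697862 [.n, .n, .g 29 63 0 0, .g 1 2 0 0, .n, .n]) (.C 2 3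
  1 4 (.L 274) (.G 316 1152 5 8388607 2080895 8323579 1040447 [.n, .n, .g 64
  35 0 0, .g 16 7 0 0, .n, .n]))))) (.C 0 3 1 2 (.B 0 2 1 (.G 790 1576 5 34
  68 137 68 [.n, .n, .n, .n, .g 64 53 0 0, .g 32 29 0 0]) (.G 1226 723 5 101
  201 403 201 [.n, .n, .n, .n, .n, .n, .n, .n, .g 57 64 0 0, .g 25 32 0 0]))
  (.L 956))) (.C 0 2 392 1 (.B 0 2 1 (.C 0 3 3128 1 (.B 2 4 1 (.L 530) (.C 0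
  1 25136 1 (.L 23) (.L 380))) (.L 723)) (.C 2 3 4 1 (.L 723) (.C 1 3 1 8
  (.L 723) (.L 4008)))) (.G 1366 377 0 261633 8388607 130816 1046532 [.n,
  .n, .n, .n, .n, .g 1 694 0 0]))) (.G 650 979 0 39658 19829 1234 9876 [.n,
  .n, .g 64 19 0 0, .g 64 17 0 0, .n, .n, .n, .n])) (.C 1 3 1 2 (.B 1 2 1
  (.L 316) (.C 0 2 392 1 (.B 1 1 2 (.L 316) (.C 0 3 12552 1 (.C 0 1 6296 1
  (.C 1 3 2 1 (.C 1 2 1 16 (.L 328) (.C 2 3 64 1 (.L 813) (.L 328))) (.L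
  3426)) (.L 316)) (.L 316))) (.L 316))) (.C 0 2 392 1 (.B 1 2 1 (.C 1 3 1 4
  (.L 316) (.B 0 1 16 (.C 0 3 3128 1 (.L 316) (.L 1017)) (.L 1017))) (.C 0 1
  12552 1 (.B 1 1 2 (.L 316) (.C 0 3 3128 1 (.C 1 2 1 32 (.C 1 2 2 1 (.C 1 2
  4 1 (.L 664) (.L 1152)) (.L 1152)) (.L 723)) (.L 139))) (.L 316))) (.L
  377)))) (.C 0 1 6296 1 (.B 1 1 8 (.C 0 2 392 1 (.C 0 3 3128 1 (.C 0 1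
  12592 1 (.B 0 1 4 (.L 120) (.C 1 2 1 32 (.L 1576) (.L 380))) (.G 148 1576
  5 514 257 16 128 [.n, .n, .g 20 63 0 0, .g 2 7 0 0, .n, .n])) (.G 2001 662
  0 69435 139413 8679 34718 [.n, .g 64 5 0 0, .n, .n, .n, .n, .n, .n])) (.C
  0 3 4 1 (.G 1664 380 5 291 4680 146 2331 [.n, .n, .n, .n, .g 3 8 0 0, .g
  23 63 0 0]) (.L 1664))) (.G 752 428 1 1 1 1 1 [.n, .g 27 32 0 0, .n, .n,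
  .n, .n, .n, .n])) (.C 1 3 1 2 (.G 650 790 0 320019 160010 9962 318774 [.n,
  .n, .g 16 1 0 0, .g 16 1 0 0, .n, .n, .g 64 25 0 0, .g 64 29 0 0]) (.L
  1664))))) (.C 0 1 1 8 (.C 0 3 1 2 (.C 0 2 1 8 (.C 0 2 2 1 (.L 664) (.G
  3682 1073 0 8388607 4194304 4194304 4194304 [.n, .n, .g 1 435 0 0, .g 2
  1027 0 0, .n, .g 1 696 0 0])) (.L 377)) (.L 377)) (.G 188 2402 0 8388607
  522248 522248 2088992 [.g 7 62 0 0, .n, .n, .n, .g 1 3737 0 0, .n, .n,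
  .n]))) (.G 188 2402 0 2097152 2097152 1048576 8388607 [.g 1 7 0 0, .n, .n,
  .n, .g 1 893 0 0, .n, .n, .n])) (.B 1 8 1 (.C 1 2 1 2 (.C 1 3 4 1 (.L 316)
  (.C 2 3 2 1 (.L 328) (.C 2 3 1 2 (.C 2 3 2 1 (.L 328) (.L 664)) (.L
  664)))) (.C 1 3 2 1 (.L 328) (.C 0 2 196 1 (.C 0 3 1564 1 (.C 0 1 3140 1
  (.B 0 1 4 (.L 316) (.B 1 16 1 (.L 1017) (.C 0 3 3128 1 (.L 316) (.L
  1226)))) (.L 1017)) (.L 610)) (.L 610)))) (.C 1 3 4 1 (.C 1 2 1 2 (.C 1 3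
  8 1 (.L 650) (.C 0 3 3148 1 (.C 0 2 788 1 (.B 2 1 2 (.B 1 1 2 (.L 672) (.C
  0 2 1576 1 (.C 0 1 6316 1 (.G 120 650 2 1 12632 3152 6296 [.n, .n, .g 1
  105 0 0, .g 1 195 0 0, .n, .n]) (.L 672)) (.L 672))) (.L 672)) (.L 650))
  (.L 650))) (.C 0 2 196 1 (.C 0 1 788 1 (.C 0 3 3148 1 (.C 2 3 16 1 (.C 0 2
  392 1 (.B 1 1 2 (.B 1 2 1 (.L 316) (.L 1152)) (.G 120 1576 6 1 1576 784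
  12568 [.n, .n, .g 1 73 0 0, .g 1 127 0 0, .n, .n])) (.G 4008 377 0 2021
  4042 1011 32402 [.n, .g 3 8 0 0, .n, .n, .n, .n, .n, .n])) (.B 2 1 2 (.B 1
  1 2 (.L 328) (.C 0 1 1576 1 (.C 0 2 12568 1 (.C 0 3 6296 1 (.L 23) (.L
  2001)) (.G 1152 1948 0 2212403 276550 1106202 553101 [.n, .n, .n, .n, .n,
  .g 2 83 0 0, .n, .n])) (.L 650))) (.L 328))) (.L 328)) (.L 328)) (.L
  328))) (.C 0 2 196 1 (.C 0 3 1564 1 (.C 0 1 3148 1 (.C 0 1 6296 1 (.B 1 1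
  2 (.C 1 2 1 32 (.C 0 3 3128 1 (.C 0 1 12592 1 (.C 1 2 1 1 (.B 0 4 1 (.G
  354 2001 0 1 25184 50320 6256 [.n, .n, .g 1 1839 0 0, .g 1 1874 0 0, .n,
  .n]) (.L 1576)) (.B 0 4 1 (.G 23 1576 0 1 50320 25136 6256 [.n, .n, .g 1
  60571 0 0, .g 1 63974 0 0, .n, .n]) (.L 723))) (.B 1 2 1 (.L 316) (.G 316
  1152 0 8388607 4194304 8388607 2097152 [.n, .n, .g 2 297 0 0, .g 2 309 0
  0, .n, .n]))) (.G 316 2249 0 1674940 3349879 6752101 837470 [.n, .n, .g 5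
  33 0 0, .g 9 62 0 0, .n, .n])) (.C 0 2 392 1 (.C 2 3 4 1 (.L 530) (.C 0 3
  3128 1 (.C 0 1 25136 1 (.B 0 4 1 (.G 23 1152 0 1 50272 6264 6256 [.n, .n,
  .g 1 5042 0 0, .g 1 5336 0 0, .n, .n]) (.L 1152)) (.L 723)) (.G 4008 723 5
  2080895 8388607 2080895 1040447 [.n, .g 256 1 0 0, .n, .n, .n, .n, .n,
  .n]))) (.L 316))) (.C 0 2 392 1 (.C 0 3 3128 1 (.B 2 1 2 (.L 23) (.G 1559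
  1576 0 1 12592 784 6256 [.n, .n, .n, .n, .n, .n, .g 1 533314 0 0, .g 1
  556637 0 0])) (.L 380)) (.L 380))) (.C 0 3 1 4 (.C 0 2 1 32 (.C 0 1 1 2
  (.G 316 380 5 4194304 8388607 8388607 8388607 [.n, .n, .g 1 2 0 0, .g 6 13
  0 0, .n, .n]) (.L 956)) (.L 956)) (.L 274))) (.B 1 1 2 (.L 316) (.C 1 3 1
  1 (.L 328) (.G 1837 3913 1 1 1 1 1 [.g 32 19 0 0, .n, .n, .n, .n, .n, .n,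
  .n])))) (.C 0 3 1 2 (.C 0 1 1 1 (.G 3682 2889 1 188884 377768 23611 376292
  [.n, .n, .g 64 21 0 0, .g 32 11 0 0, .n, .n]) (.L 316)) (.L 377))) (.L
  188))))) (.C 1 3 4 1 (.C 1 2 1 2 (.C 1 3 8 1 (.L 316) (.L 328)) (.L 328))
  (.C 0 3 1564 1 (.C 0 2 196 1 (.C 0 1 3148 1 (.C 1 3 1 2 (.L 328) (.B 2 1 2
  (.B 1 4 1 (.L 1017) (.C 0 3 3128 1 (.L 316) (.L 1017))) (.L 328))) (.L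
  328)) (.L 328)) (.L 1017))))) (.L 664)) (.L 227)) (.C 1 3 3 4 (.L 413) (.C
  1 2 3 1 (.C 1 2 6 1 (.L 93) (.C 2 3 1 48 (.C 1 2 1 2 (.L 93) (.C 0 2 760 1
  (.L 93) (.G 1767 227 1 306612 613223 153306 306612 [.n, .g 64 33 1 0, .n,
  .n]))) (.L 93))) (.B 2 8 1 (.C 2 3 1 24 (.C 0 3 772 1 (.C 2 3 4 1 (.L
  1325) (.C 1 3 2 1 (.L 413) (.C 0 2 3096 1 (.B 1 1 4 (.C 1 3 1 2 (.B 1 2 1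
  (.B 0 1 4 (.C 2 3 1 1 (.L 227) (.L 4)) (.L 76)) (.C 2 3 1 1 (.C 2 3 2 1
  (.L 76) (.L 4)) (.L 4))) (.C 2 3 1 4 (.B 0 1 4 (.C 1 2 1 1 (.L 4) (.C 2 3
  2 1 (.C 1 2 1 2 (.L 4) (.C 2 3 4 1 (.L 76) (.B 0 2 1 (.L 194) (.L 4))))
  (.L 4))) (.L 4)) (.L 44))) (.B 0 1 2 (.L 714) (.L 194))) (.C 1 2 1 1 (.C 0
  1 1 2 (.B 0 1 4 (.B 1 1 32 (.C 0 2 1 1 (.C 0 1 2 1 (.L 379) (.L 1581)) (.L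
  504)) (.L 714)) (.C 0 2 1 1 (.G 2023 4 1 26037 52073 52073 6509 [.g 2 69 0
  0, .n, .n, .n, .n, .n]) (.L 2984))) (.B 1 1 4 (.G 194 227 1 260661 65165
  130330 32583 [.n, .n, .n, .g 1024 1 0 0]) (.L 194))) (.B 0 1 4 (.B 1 1 32
  (.C 0 2 1 2 (.C 0 1 1 1 (.L 379) (.C 1 3 1 4 (.G 881 76 1 65123 32561
  65123 65123 [.g 11 21 0 0, .n, .n, .n, .n, .n]) (.L 711))) (.C 1 3 1 4 (.G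
  881 227 1 66011 33006 16503 66011 [.g 37 63 0 0, .n, .n, .n, .n, .n]) (.C
  2 3 1 2 (.G 1581 881 0 1 1 1 1 [.n, .n, .g 1 14230 0 0, .g 1 13025 0 0,
  .n, .n]) (.L 711)))) (.G 393 714 1 33 33 17 8 [.n, .n, .g 53 64 0 0, .n,
  .n, .g 64 19 0 0])) (.B 2 32 1 (.C 0 1 1 1 (.G 2023 1047 1 1 1 1 1 [.g 13
  32 0 0, .n, .g 2 4365 0 0, .g 1 2383 0 0, .n, .n]) (.L 1255)) (.G 2984 227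
  1 15 15 7 4 [.n, .n, .n, .g 64 7 0 0, .n, .n]))))))) (.C 1 2 1 2 (.C 0 1 1
  2 (.C 0 2 1 1 (.B 1 1 4 (.C 0 1 2 1 (.G 504 4 1 278302 1113208 556604
  139151 [.n, .g 55 64 0 0, .n, .n]) (.C 1 3 1 4 (.G 194 1124 1 98744 49372
  49372 98744 [.n, .n, .n, .g 256 1 0 0]) (.G 504 4 1 1113208 1113208 556604
  139151 [.n, .g 55 64 0 0, .n, .n]))) (.G 2984 504 1 19 39 39 10 [.g 64 3 0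
  0, .n, .n, .n, .g 23 32 0 0, .n])) (.C 1 3 1 4 (.C 1 2 1 2 (.G 714 227 1
  729819 729819 1459639 1459639 [.n, .g 2 1 0 0, .g 1024 1 0 0, .n]) (.L
  2658)) (.L 2658))) (.B 1 1 4 (.G 1069 76 1 65 16 32 16 [.n, .n, .n, .n, .g
  7 32 0 0, .g 13 64 0 0]) (.B 1 1 8 (.C 0 3 1 4 (.L 881) (.G 474 393 5 1 1
  1 1 [.g 32 1 0 0, .g 6 1 4229 0, .n, .n, .n, .n])) (.G 1069 1511 5 1 1 1 1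
  [.n, .n, .n, .n, .g 27 65 0 0, .g 22 63 0 0])))) (.B 0 1 4 (.B 1 1 32 (.C
  0 1 1 1 (.C 0 2 1 4 (.C 0 2 2 1 (.L 504) (.B 2 1 4 (.L 3401) (.G 2377 393
  0 1 1 1 1 [.g 45 64 0 0, .n, .n, .n, .n, .n]))) (.G 881 393 0 1 1 1 1 [.n,
  .n, .n, .n, .g 7 61 0 0, .g 3 35 0 0])) (.G 1489 1069 3 1 1 1 1 [.n, .n,
  .n, .n, .n, .g 64 3 0 0, .n, .n, .n, .g 64 45 0 0])) (.G 3657 1511 5 64 63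
  16 32 [.g 4 1 0 0, .g 8 3 0 0, .n, .n])) (.G 41 3170 3 1 1 1 1 [.n, .n,
  .n, .n, .g 47 64 0 0, .g 21 32 0 0])))) (.C 1 3 1 48 (.C 1 3 2 1 (.B 1 1 4
  (.C 1 2 1 1 (.C 0 2 1532 1 (.C 0 1 760 1 (.L 93) (.G 76 1767 1 189410
  94705 384739 378820 [.n, .g 64 17 0 0, .n])) (.G 227 504 2 40401 9945
  19890 39780 [.n, .g 1 308 0 0, .n])) (.B 0 1 4 (.B 2 2 1 (.L 4) (.L 504))
  (.B 1 2 1 (.C 0 1 1532 1 (.C 0 2 772 1 (.L 93) (.L 41)) (.L 41)) (.L 4))))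
  (.C 0 2 772 1 (.L 1767) (.C 0 2 1 2 (.L 1767) (.C 0 1 1 4 (.G 313 4 1 1848
  3668 462 1820 [.n, .g 3 5 542 0, .n, .n, .n, .n]) (.G 393 851 0 1 1 1 1
  [.n, .n, .n, .n, .g 19 64 0 0, .g 10 61 0 0]))))) (.C 0 2 772 1 (.L 93)
  (.B 1 1 4 (.C 2 3 2 1 (.C 0 1 2 1 (.G 4 504 1 465272 1846549 232636 930544
  [.n, .g 32 9 0 0, .n, .n]) (.G 1255 93 1 200 99 25 101 [.n, .n, .n, .n, .g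
  7 16 0 0, .g 1 7 14348 0])) (.G 714 93 1 204553 409105 409105 204553 [.n,
  .n, .g 256 1 0 0, .n])) (.G 1069 714 1 32 63 16 32 [.n, .n, .n, .g 6 31 0
  0, .g 32 21 0 0, .g 64 61 0 0])))) (.C 2 3 1 48 (.C 0 2 772 1 (.L 93) (.G
  1069 4 1 38 38 19 38 [.n, .n, .n, .g 9 32 0 0, .n, .n])) (.L 93)))) (.C 2
  3 1 24 (.C 2 3 2 1 (.L 76) (.C 1 3 1 1 (.B 2 1 2 (.C 1 3 2 1 (.L 76) (.B 1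
  4 1 (.L 76) (.B 2 2 1 (.C 1 3 1 2 (.L 76) (.B 1 1 2 (.L 76) (.B 2 4 1 (.C
  0 2 1548 1 (.L 194) (.L 881)) (.L 76)))) (.L 76)))) (.L 76)) (.C 0 2 1548
  1 (.C 0 1 1532 1 (.B 1 4 1 (.B 2 1 4 (.L 4) (.L 41)) (.L 504)) (.B 2 1 2
  (.B 1 4 1 (.L 41) (.L 504)) (.L 41))) (.B 2 1 2 (.B 1 4 1 (.L 41) (.C 0 2
  1 2 (.B 2 2 1 (.C 1 2 4 1 (.L 504) (.B 1 1 2 (.G 534 471 1 1 1 1 1 [.g 63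
  64 0 0, .n, .n, .n, .n, .n]) (.G 393 534 1 1 1 1 1 [.g 32 5 0 0, .n, .n,
  .n, .n, .n]))) (.L 155)) (.L 41))) (.G 41 173 0 1 1 1 1 [.n, .n, .g 5 58 0
  0, .n, .n, .n]))))) (.B 1 4 1 (.C 1 3 1 48 (.B 0 1 2 (.C 0 1 760 1 (.C 1 2
  1 2 (.L 93) (.L 504)) (.L 41)) (.C 0 2 772 1 (.C 0 1 760 1 (.L 93) (.G 41
  229 1 1 1 1 1 [.g 16 1 0 0, .n, .n, .n, .n, .n])) (.G 265 229 1 1 1 1 1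
  [.g 13 16 0 0, .n, .n, .n, .n, .n, .n, .n, .n, .n]))) (.B 1 8 1 (.L 41)
  (.L 504))) (.C 1 3 1 48 (.C 0 1 760 1 (.C 1 2 1 2 (.L 93) (.L 504)) (.B 2
  1 2 (.G 1174 504 2 4698888 2349444 2349444 4698888 [.n, .g 1 195 0 0, .g 1
  17197 0 0, .g 1 18883 0 0, .n, .n, .n, .n]) (.L 41))) (.L 504))))))))
  (by decide +kernel)

theorem CN0_c176 : CoN CNTab ⟨⟨3, 3, 8⟩, ⟨3, 4, 8⟩, ⟨7, 7, 16⟩, ⟨1, 0, 0, 0,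
  0⟩, ⟨28, 2, 0, 1, 0⟩, ⟨28, 2, 0, 0, 1⟩, ⟨4, 1, 1, 1, 0⟩⟩ :=
CoN.ofG CNTab_B CNBt_E CNBt_U (.B 0 1 1 (.C 1 2 1 1 (.B 0 2 1 (.L 64) (.B 1
  1 1 (.B 0 1 2 (.L 64) (.C 2 3 2 9 (.C 0 2 72 1 (.L 240) (.C 1 2 5 3 (.L
  240) (.G 74 240 7 8 23 4 16 [.n, .g 16 3 0 0, .n, .n, .n, .n, .n, .n])))
  (.G 173 240 1 1 1 1 1 [.g 64 19 0 0, .n, .n, .n, .n, .n]))) (.L 64))) (.C
  2 3 2 5 (.C 0 2 40 1 (.B 0 2 1 (.L 64) (.B 1 1 1 (.C 0 1 72 1 (.L 54) (.B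
  0 1 2 (.L 54) (.C 1 2 6 5 (.C 2 3 1 6 (.L 55) (.G 1745 240 7 10 5 115 10
  [.n, .n, .n, .n, .g 15 16 0 0, .g 5 8 0 0, .n, .n])) (.L 240)))) (.L 64)))
  (.B 2 1 2 (.B 1 1 1 (.B 0 1 2 (.L 64) (.C 1 2 3 5 (.B 0 1 4 (.L 240) (.B 1
  2 1 (.C 0 3 5 3 (.G 152 1019 1 822 731 4203 8040 [.g 32 1 0 0, .n, .n, .n,
  .n, .n]) (.G 742 557 0 44 4 23 8 [.g 2 31 0 0, .g 8 7 0 0, .n, .n, .n,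
  .n])) (.L 240))) (.L 339))) (.L 64)) (.B 0 2 1 (.G 138 97 0 4190 3797 2095
  7594 [.n, .g 3 71 0 0, .n, .n, .n, .n, .n, .n]) (.B 1 2 1 (.C 1 2 3 5 (.B
  0 1 2 (.L 54) (.B 1 4 1 (.B 0 1 4 (.L 517) (.B 1 8 1 (.G 138 742 0 2616
  2326 13372 4651 [.g 8192 1 0 0, .n, .g 32 7 0 0, .g 4 1 0 0, .n, .n, .n,
  .n]) (.L 517))) (.L 517))) (.L 339)) (.L 64))))) (.B 0 2 1 (.L 64) (.C 1 3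
  2 9 (.B 1 1 1 (.C 0 1 72 1 (.L 54) (.G 583 240 7 31 15 31 62 [.g 512 1 0
  0, .n, .n, .n, .g 5 13 0 0, .g 23 65 0 0, .n, .n])) (.L 64)) (.L 64)))))
  (.C 2 3 2 5 (.B 1 2 1 (.C 0 2 40 1 (.B 1 4 1 (.C 1 3 7 2 (.G 204 119 0 1
  40 80 568 [.g 128 7 0 0, .g 512 3 0 0, .n, .n, .n, .n]) (.G 16 229 7 1 568
  80 144 [.n, .g 1024 1 0 0, .g 128 5 0 0, .g 32 3 0 0, .n])) (.L 497)) (.C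
  1 2 1 1 (.C 1 3 7 2 (.B 0 1 2 (.C 1 2 5 3 (.L 119) (.G 83 229 7 15 76 13
  103 [.g 256 3 0 0, .g 64 3 0 0, .g 64 27 0 0, .g 16 7 0 0, .n, .n])) (.B 1
  4 1 (.C 0 1 1 2 (.C 1 2 1 2 (.L 482) (.C 0 2 5 6 (.L 625) (.C 2 3 8 1 (.C
  1 2 1 4 (.L 625) (.C 0 2 1 12 (.L 625) (.C 2 3 16 1 (.C 1 2 1 8 (.L 842)
  (.C 2 3 32 1 (.C 0 2 1 24 (.B 0 1 4 (.L 842) (.G 532 773 1 1 1 1 1 [.n,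
  .n, .n, .n, .n, .n, .n, .g 1 12 0 0])) (.G 354 1959 0 761 258 16 1022 [.n,
  .n, .n, .n, .g 1 36355 0 0, .g 1 37398 0 0])) (.B 0 1 4 (.L 842) (.G 532
  773 1 1 1 1 1 [.n, .n, .n, .n, .n, .n, .n, .g 1 12 0 0])))) (.L 842))))
  (.L 625)))) (.C 1 2 5 3 (.G 482 81 0 61 16 166 227 [.n, .n, .n, .n, .g 1
  87 0 0, .n, .n, .n]) (.C 0 2 1 2 (.L 482) (.C 2 3 8 1 (.C 2 3 16 1 (.C 1 2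
  1 6 (.L 842) (.B 0 1 4 (.L 374) (.B 1 8 1 (.C 0 2 1 4 (.L 532) (.C 2 3 32
  1 (.C 1 2 1 12 (.L 773) (.B 0 1 8 (.L 220) (.B 1 16 1 (.C 1 2 1 24 (.L
  3496) (.G 994 3496 7 111 651 14 871 [.n, .g 64 41 0 0, .g 5 16 0 0, .n,
  .n])) (.L 220)))) (.L 773))) (.L 193)))) (.L 842)) (.L 482))))) (.C 1 2 5
  3 (.L 119) (.G 901 229 7 1 1 1 1 [.g 128 1 0 0, .g 64 1 0 0, .n, .n, .n,
  .n, .n, .n])))) (.B 0 1 2 (.B 2 1 2 (.B 1 1 1 (.B 0 1 2 (.L 497) (.G 792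
  1873 3 9 63 8 16 [.g 64 23 0 0, .g 64 5 0 0, .g 64 11 0 0, .n])) (.L 497))
  (.C 1 3 1 4 (.C 0 2 5 6 (.L 497) (.G 583 229 7 262 178 23 359 [.g 4096 7 0
  0, .g 1024 1 0 0, .n, .n, .g 31 64 0 0, .g 8 21 0 0, .n, .n])) (.C 0 3 5 3
  (.C 0 2 5 6 (.L 497) (.G 583 229 7 262 359 23 249 [.g 4096 7 0 0, .g 1024
  1 0 0, .n, .n, .g 31 64 0 0, .g 8 21 0 0, .n, .n])) (.C 1 2 1 16 (.G 595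
  16 2 66081 95367 191486 12015 [.n, .g 32 5 0 0, .n, .n, .n, .n, .n, .n])
  (.C 2 3 2 1 (.L 55) (.G 16 81 1 31346 90833 11399 5699 [.n, .n, .g 16 13 0
  0, .n, .n])))))) (.B 1 4 1 (.C 1 3 1 4 (.C 0 2 5 6 (.L 625) (.C 2 3 16 1
  (.B 0 1 4 (.G 7 839 7 185 126 16 510 [.g 2048 5 0 0, .g 256 1 0 0, .g 32 7
  0 0, .g 64 17 0 0, .n, .n]) (.C 1 2 1 8 (.L 532) (.C 0 2 1 12 (.L 532) (.C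
  1 2 1 16 (.L 532) (.C 2 3 32 1 (.C 0 1 4 3 (.G 842 1180 1 377 3003 16 1022
  [.n, .n, .n, .n, .n, .n, .n, .g 2 61 0 0]) (.G 1792 354 5 3003 510 16 1022
  [.g 128 1 0 0, .n, .n, .n, .n, .n, .n, .n])) (.G 482 773 1 1 1 1 1 [.n,
  .n, .n, .n, .n, .n, .n, .g 1 66 0 0])))))) (.L 839))) (.C 2 3 2 1 (.B 0 1
  4 (.C 0 2 5 6 (.L 2146) (.C 1 2 1 16 (.G 2146 839 7 1 1 1 1 [.g 64 1 0 0,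
  .n, .n, .n, .n, .n, .n, .n]) (.G 55 839 7 253 697 22 87 [.g 1024 1 0 0,
  .n, .g 32 15 0 0, .g 64 35 0 0, .n, .n]))) (.B 1 8 1 (.C 0 2 5 6 (.G 122
  842 7 16 229 166 58 [.g 256 1 0 0, .g 1024 1 0 0, .n, .n, .n, .n]) (.C 1 2
  1 16 (.G 122 839 7 23 32 64 8 [.g 64 1 0 0, .g 128 1 0 0, .n, .n, .n, .n])
  (.B 0 1 8 (.C 2 3 4 1 (.G 2633 532 7 361 996 31 250 [.n, .n, .g 64 21 0 0,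
  .g 64 25 0 0, .n, .n, .n, .n, .g 64 25 0 0, .g 16 11 0 0]) (.G 74 842 7
  934 2598 650 325 [.g 256 1 0 0, .n, .n, .n, .n, .n, .g 64 35 0 0, .g 32 19
  0 0])) (.C 2 3 4 1 (.B 1 16 1 (.C 0 2 1 12 (.G 354 773 7 1 1 1 1 [.n, .n,
  .n, .n, .g 5 62 0 0, .g 5 68 0 0]) (.G 1180 773 7 377 510 16 128 [.g 256 1
  0 0, .g 64 1 0 0, .n, .n])) (.G 354 773 7 1 1 1 1 [.n, .n, .g 64 3 0 0,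
  .n, .g 1 4 0 0, .g 16 65 0 0])) (.G 74 532 7 1681 4677 1169 585 [.g 512 3
  0 0, .n, .n, .n, .n, .n, .g 16 9 0 0, .g 8 5 0 0]))))) (.B 2 1 1 (.L 625)
  (.B 2 1 2 (.L 839) (.B 0 2 1 (.C 0 2 5 6 (.G 482 1997 0 1 1 1 1 [.n, .n,
  .n, .n, .n, .n, .n, .g 1 92 0 0]) (.B 2 1 4 (.L 842) (.C 1 2 1 16 (.G 1997
  2472 3 1 1 1 1 [.g 64 1 0 0, .n, .n, .n, .n, .n]) (.G 438 842 7 1986 5475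
  172 687 [.g 2048 1 0 0, .n, .g 32 5 0 0, .g 64 11 0 0, .n, .n])))) (.L
  839)))))) (.B 0 1 4 (.G 792 1873 3 16 229 58 29 [.g 128 1 0 0, .n, .g 16 1
  0 0, .n]) (.G 3145 839 7 16 229 58 29 [.g 256 1 0 0, .n, .g 8 1 0 0, .g
  256 13 0 0])))) (.B 2 1 1 (.L 497) (.B 0 2 1 (.G 792 1873 3 9 63 8 16 [.g
  64 23 0 0, .g 64 5 0 0, .g 64 11 0 0, .n]) (.L 625)))))) (.C 2 3 7 2 (.C 1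
  2 3 5 (.C 0 1 5 6 (.C 0 1 10 1 (.C 0 3 7 1 (.C 0 2 5 1 (.G 73 229 7 16 326
  163 216 [.g 32 1 0 0, .g 64 3 0 0, .n, .n]) (.L 176)) (.L 176)) (.L 3))
  (.C 1 3 7 1 (.C 1 2 6 1 (.C 0 1 1 12 (.C 1 3 3 5 (.C 0 1 2 1 (.G 218 915 0
  155746 632718 155746 1907889 [.n, .n, .n, .n, .g 1 418 0 0, .g 2 1283 0
  0]) (.B 0 1 2 (.L 800) (.C 1 2 1 2 (.C 1 3 6 1 (.C 0 1 1 2 (.L 3) (.B 1 4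
  1 (.L 1098) (.G 4002 901 7 154 38 77 461 [.n, .n, .n, .n, .n, .n, .g 32 7
  0 0, .g 32 7 0 0]))) (.L 3)) (.L 3)))) (.L 3)) (.B 0 1 2 (.G 557 583 1
  3537 150 1764 2139 [.g 49 64 0 0, .n, .n, .n, .n, .n, .n, .n]) (.C 0 3 3 5
  (.B 1 4 1 (.B 0 1 4 (.G 354 1308 7 1 1 1 1 [.g 64 1 0 0, .n, .n, .n, .g 17
  63 0 0, .g 17 66 0 0]) (.C 0 1 1 24 (.L 1610) (.C 1 2 12 1 (.C 0 1 1 48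
  (.L 1233) (.C 1 3 142 1 (.C 1 2 24 1 (.G 233 2121 0 2825150 29563 1411651
  8388607 [.n, .n, .n, .g 4 1 0 0]) (.G 233 1610 7 109 55 27 325 [.g 19 63 0
  0, .n, .n, .n])) (.G 27 1610 7 377 1125 94 560 [.n, .n, .n, .n, .n, .n, .g
  25 63 0 0, .g 22 63 0 0]))) (.L 1233)))) (.G 482 374 5 1 1 1 1 [.n, .n,
  .n, .n, .n, .n, .g 27 32 0 0, .g 43 64 0 0])) (.B 1 4 1 (.C 2 3 5 4 (.B 0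
  1 4 (.B 1 1 1 (.C 2 3 10 1 (.C 0 2 1 12 (.L 220) (.C 1 2 12 1 (.L 220) (.L
  3977))) (.L 220)) (.L 374)) (.B 0 1 8 (.C 2 3 10 1 (.C 1 2 12 1 (.G 1610
  354 5 1 1 1 1 [.n, .n, .n, .n, .n, .n, .g 16 15 0 0, .g 63 64 0 0]) (.L
  1233)) (.G 2978 354 5 1 1 1 1 [.n, .n, .n, .n, .n, .n, .g 63 64 0 0, .g 10
  13 0 0])) (.B 1 8 1 (.C 1 3 116 1 (.B 1 16 1 (.C 1 2 12 1 (.C 0 1 1 142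
  (.G 415 1610 7 1552 3121 261 2549 [.g 32 3 0 0, .n, .n, .g 63 64 0 0]) (.C
  1 3 232 1 (.G 1942 233 3 5132652 18089 429605 8388607 [.n, .n, .g 3 4 0 0,
  .n]) (.G 645 2953 3 5135333 8388607 430185 4194304 [.n, .g 8 63 0 0, .n,
  .n, .n]))) (.L 1622)) (.B 2 1 1 (.L 1233) (.B 0 2 1 (.B 2 1 2 (.L 3465)
  (.C 2 3 20 1 (.C 1 2 12 1 (.C 0 1 1 142 (.L 1895) (.C 1 3 467 1 (.L 1942)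
  (.L 2441))) (.L 1233)) (.G 1895 354 5 1 1 1 1 [.n, .n, .n, .n, .n, .n, .g
  9 64 0 0, .g 9 67 0 0]))) (.L 2978)))) (.L 341)) (.B 2 2 1 (.L 492) (.B 0
  1 1 (.C 1 2 12 1 (.G 1895 354 5 1 1 1 1 [.n, .n, .n, .n, .n, .n, .g 10 63
  0 0, .g 5 31 0 0]) (.L 1895)) (.L 1233)))))) (.G 374 12 2 609 4 497 61
  [.n, .n, .n, .n, .n, .g 11 63 0 0])) (.L 193))))) (.L 3)) (.L 3))) (.C 2 3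
  13 1 (.C 1 2 1 10 (.C 0 1 5 1 (.B 0 1 2 (.C 0 1 10 1 (.C 0 3 13 1 (.C 0 2
  10 1 (.B 0 2 1 (.G 73 3490 0 72 1447 1447 1863 [.g 64 11 0 0, .g 64 9 0 0,
  .n, .n]) (.L 91)) (.L 63)) (.L 63)) (.L 1110)) (.L 91)) (.L 176)) (.B 0 1
  2 (.B 0 2 1 (.C 2 3 26 1 (.P (.ofNat 1) (.ofNat 2)) (.C 0 3 13 1 (.C 0 1
  10 1 (.C 0 3 26 1 (.P (.ofNat 1) (.ofNat 2)) (.L 63)) (.L 63)) (.L 63)))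
  (.L 90)) (.L 90))) (.C 0 3 7 1 (.C 0 1 5 1 (.B 0 1 2 (.C 0 3 14 1 (.C 0 1
  10 1 (.C 0 2 13 1 (.C 0 2 26 1 (.L 240) (.L 73)) (.L 73)) (.L 1110)) (.L
  1110)) (.L 91)) (.L 176)) (.L 176)))) (.C 0 3 5 3 (.C 0 2 7 1 (.B 0 1 2
  (.G 7 229 7 23 20 303 222 [.g 512 1 0 0, .g 256 1 0 0, .n, .n, .g 16 11 0
  0, .g 32 25 0 0]) (.B 1 4 1 (.B 0 1 4 (.C 1 3 11 1 (.C 0 1 5 6 (.L 482)
  (.C 1 3 22 1 (.C 0 1 1 12 (.L 3752) (.G 3721 839 7 647 27 412 1207 [.n,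
  .n, .n, .n, .n, .n, .g 64 45 0 0, .g 32 21 0 0, .n, .n])) (.L 3752))) (.L
  482)) (.C 1 3 11 1 (.B 1 8 1 (.C 0 1 5 6 (.L 842) (.C 0 1 1 12 (.L 842)
  (.C 1 2 15 1 (.B 0 1 8 (.C 1 3 22 1 (.G 773 12 0 377 16 480 704 [.n, .n,
  .n, .n, .n, .n, .n, .g 1 223 0 0]) (.G 532 2472 7 1 1 1 1 [.n, .n, .n, .g
  64 43 0 0, .n, .n, .n, .n])) (.C 1 3 22 1 (.C 1 2 30 1 (.C 0 1 1 24 (.G
  773 1383 2 287 574 736 538 [.n, .n, .n, .n, .n, .n, .n, .g 64 63 0 0]) (.C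
  1 2 60 1 (.L 1447) (.G 645 830 0 3241053 8388607 4194304 3050403 [.n, .g 7
  13 0 0, .n, .n, .n]))) (.G 773 1098 7 1 1 1 1 [.n, .n, .n, .n, .n, .n, .n,
  .g 32 13 0 0])) (.G 2697 532 7 1 1 1 1 [.n, .g 32 7 0 0, .n, .n, .n, .n,
  .n, .n]))) (.G 842 1308 7 1 1 1 1 [.n, .n, .n, .n, .n, .n, .n, .g 64 25 0
  0])))) (.C 0 1 5 6 (.L 482) (.C 1 2 15 1 (.G 354 2472 7 1 1 1 1 [.g 32 1 0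
  0, .n, .n, .n, .g 5 64 0 0, .g 5 63 0 0]) (.L 3752)))) (.G 1873 839 7 1 1
  1 1 [.g 3 4 0 0, .n, .n, .n, .n, .n]))) (.G 1873 229 7 1 1 1 1 [.g 128 1 0
  0, .g 64 1 0 0, .n, .n, .n, .n]))) (.C 0 1 1 15 (.L 176) (.B 0 1 2 (.L
  909) (.C 1 2 7 1 (.C 1 3 11 1 (.B 1 4 1 (.B 0 1 4 (.L 7) (.B 0 1 8 (.L 7)
  (.C 0 3 3 4 (.B 1 8 1 (.C 0 1 1 30 (.C 1 2 1 4 (.G 3 1866 7 204 407 790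
  1197 [.n, .n, .n, .n, .g 27 32 0 0, .g 29 32 0 0]) (.L 3)) (.B 1 16 1 (.B
  0 1 16 (.L 12) (.B 0 1 32 (.B 0 2 1 (.L 12) (.B 1 1 2 (.C 1 3 176 1 (.G 12
  1436 0 1428861 23814 339355 8388607 [.g 256 1 0 0, .n, .n, .n, .n, .n])
  (.G 2728 341 9 1 1 1 1 [.n, .n, .n, .n, .n, .n, .g 29 63 0 0, .g 5 7 0
  0])) (.L 12))) (.C 1 3 176 1 (.C 1 2 14 1 (.L 1802) (.C 0 2 1 4 (.L 1802)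
  (.G 441 444 5 1452 352 176 4356 [.n, .n, .g 64 9 0 0, .g 64 9 0 0, .n,
  .n]))) (.G 2728 341 9 1 1 1 1 [.n, .n, .n, .n, .n, .n, .g 6 13 0 0, .g 37
  64 0 0])))) (.L 12))) (.L 7)) (.B 1 8 1 (.B 1 16 1 (.B 0 1 16 (.L 220) (.B
  1 32 1 (.C 0 2 1 12 (.C 1 3 22 1 (.G 32 1700 5 1410 8 2775 352 [.g 64 3 0
  0, .n, .n, .g 1024 1 0 0, .n]) (.G 1639 1444 5 1 1 1 1 [.g 64 55 0 0, .n,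
  .n, .n, .n, .n, .n, .n])) (.C 1 2 14 1 (.C 1 3 22 1 (.G 32 354 5 2775 8
  226 352 [.g 64 3 0 0, .n, .n, .g 1024 1 0 0, .n]) (.L 126)) (.L 126))) (.L
  220))) (.L 126)) (.L 126))))) (.L 7)) (.C 0 3 3 8 (.C 0 1 3 4 (.L 3) (.G
  586 3209 9 8388607 1059168 677867 8346240 [.n, .n, .n, .n, .g 64 17 0 0,
  .g 32 11 0 0, .n, .n])) (.L 74))) (.L 3))))) (.C 1 3 2 1 (.C 0 1 1 11 (.L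
  122) (.B 0 1 2 (.L 55) (.C 1 3 4 1 (.C 1 2 7 1 (.C 1 3 8 1 (.B 1 4 1 (.B 0
  1 4 (.L 401) (.G 467 354 5 88 4 57 64 [.n, .g 1024 1 0 0, .g 64 51 0 0, .g
  64 53 0 0, .n, .n, .n, .n, .n, .n])) (.L 364)) (.L 639)) (.L 83)) (.L
  122)))) (.G 16 204 1 154748 56272 101993 28136 [.n, .n, .g 1 105 0 0, .g 1
  232 0 0, .n])))))) (.C 0 2 40 1 (.G 173 240 1 1 1 1 1 [.g 64 19 0 0, .n,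
  .n, .n, .n, .n]) (.C 1 2 1 1 (.C 1 3 7 2 (.B 2 1 1 (.L 41) (.B 0 2 1 (.C 1
  2 5 3 (.L 240) (.G 583 240 7 27 136 24 186 [.g 512 1 0 0, .g 1024 1 0 0,
  .n, .n, .g 57 64 0 0, .g 25 32 0 0, .n, .n])) (.L 41))) (.B 2 1 1 (.G 240
  173 0 1 1 1 1 [.n, .g 1 1 0 0, .n, .n, .n, .n, .n, .n]) (.G 583 240 7 12
  84 11 21 [.g 256 1 0 0, .g 512 1 0 0, .n, .n, .g 26 63 0 0, .g 23 65 0 0,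
  .n, .n]))) (.C 2 3 7 2 (.C 1 2 3 5 (.C 0 1 5 6 (.C 0 3 7 1 (.G 138 173 0
  13875 143956 71978 187316 [.n, .n, .g 64 17 0 0, .g 64 21 0 0, .n, .n, .g
  128 1 0 0, .n]) (.L 3)) (.G 240 138 0 185 16 92 116 [.n, .n, .n, .n, .n,
  .n, .g 1 304 0 0, .g 1 370 0 0])) (.C 0 3 7 1 (.C 1 2 1 10 (.G 176 844 0
  3321 17227 33832 44833 [.n, .g 1024 1 0 0, .n, .n, .n, .n, .g 32 3 0 0, .g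
  64 7 0 0, .n, .n]) (.B 1 1 2 (.C 0 1 10 1 (.C 0 2 1 2 (.L 240) (.C 1 2 1
  40 (.B 2 1 4 (.L 240) (.B 0 2 1 (.G 972 63 0 10532 106637 211958 71092 [.g
  32 1 0 0, .n, .n, .n, .n, .n, .n, .n]) (.L 240))) (.C 2 3 27 1 (.P (.ofNat
  1) (.ofNat 2)) (.B 0 2 1 (.G 972 1127 1 1716 34533 23165 11582 [.g 64 59 0
  0, .n, .n, .n, .n, .n, .n, .n]) (.L 240))))) (.C 2 3 27 1 (.P (.ofNat 1)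
  (.ofNat 2)) (.L 63))) (.L 972))) (.C 2 3 13 1 (.C 0 2 1 27 (.L 63) (.C 1 2
  1 10 (.L 63) (.C 2 3 26 1 (.P (.ofNat 1) (.ofNat 2)) (.L 63)))) (.L 97))))
  (.C 0 3 5 3 (.C 0 1 5 6 (.G 844 557 1 37 379 237 361 [.g 39 64 0 0, .n,
  .n, .n, .n, .n, .n, .n]) (.G 55 557 0 593220 51306 371965 564361 [.n, .n,
  .g 1 84 0 0, .g 1 104 0 0, .n, .n])) (.C 1 3 2 1 (.L 55) (.G 55 64 0 69084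
  25121 45532 12561 [.n, .n, .n, .n, .g 16 3 0 0, .g 32 9 0 0]))))))) (.C 2
  3 1 9 (.B 1 2 1 (.B 1 4 1 (.C 1 2 7 2 (.C 1 3 7 1 (.B 0 1 2 (.L 119) (.G
  1361 482 4 1 40 568 568 [.n, .n, .g 64 1 0 0, .n])) (.L 119)) (.G 229 188
  0 1 568 144 288 [.n, .n, .n, .n, .n, .n, .n, .g 1 885 0 0, .n, .n])) (.L
  497)) (.G 155 240 1 1 1 1 1 [.g 64 27 0 0, .n, .n, .n, .n, .n])) (.C 1 3 2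
  5 (.L 767) (.G 173 119 1 1 1 1 1 [.g 16 15 0 0, .n, .n, .n, .n, .n])))))
  (by decide +kernel)

theorem CN0_c177 : CoN CNTab ⟨⟨3, 3, 8⟩, ⟨3, 4, 8⟩, ⟨7, 7, 16⟩, ⟨28, 2, 0,
  0, 1⟩, ⟨28, 2, 0, 1, 0⟩, ⟨8, 2, 0, 0, 1⟩, ⟨40, 10, 4, 4, 3⟩⟩ :=
CoN.ofG CNTab_B CNBt_E CNBt_U (.C 1 2 1 2 (.C 0 1 1 1 (.C 0 1 5 3 (.C 0 3 5
  2 (.C 0 2 5 3 (.C 0 1 10 1 (.C 0 3 10 1 (.B 0 1 1 (.L 972) (.B 0 1 2 (.C 0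
  2 10 1 (.C 0 3 20 1 (.P (.ofNat 1) (.ofNat 2)) (.L 63)) (.L 63)) (.B 1 2 1
  (.L 90) (.C 0 2 10 1 (.C 0 3 20 1 (.P (.ofNat 1) (.ofNat 2)) (.L 63)) (.L
  63))))) (.G 678 63 1 6380 6574 3287 3093 [.n, .g 64 1 0 0, .n, .g 1 2 0
  0])) (.G 63 678 3 6157 3078 3078 2897 [.n, .g 64 19 0 0, .g 32 1 0 0,
  .n])) (.G 475 97 0 1170 1170 203 1081 [.n, .g 3 4 0 0, .n, .n, .n, .n, .n,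
  .n, .n, .n])) (.G 176 152 0 458077 495801 86226 118561 [.g 25 63 0 0, .n,
  .n, .n, .n, .n, .g 2 1111 0 0, .g 1 689 0 0, .n, .n])) (.B 0 1 1 (.L 138)
  (.C 0 3 1 4 (.C 0 1 1 6 (.L 475) (.C 1 2 1 1 (.B 1 2 1 (.B 0 1 2 (.G 138
  583 1 9182 781 1563 8498 [.g 23 64 0 0, .n, .n, .n, .n, .n, .n, .n]) (.C 1
  3 11 1 (.C 0 3 2 1 (.B 1 4 1 (.C 0 1 1 12 (.C 0 1 2 1 (.L 3) (.C 1 2 1 12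
  (.C 1 3 2 1 (.B 0 1 4 (.C 0 2 1 1 (.C 1 3 4 1 (.G 1692 996 1 720447 360224
  1440895 2859275 [.n, .n, .n, .n, .g 64 63 0 0, .g 31 32 0 0]) (.L 307))
  (.L 220)) (.C 0 2 1 1 (.B 0 1 8 (.B 1 1 2 (.C 0 3 2 1 (.G 185 1831 7 329
  165 658 1296 [.n, .n, .n, .n, .g 21 64 0 0, .g 20 63 0 0]) (.B 1 2 1 (.G
  1319 354 5 1 1 1 1 [.g 31 64 0 0, .n, .g 16 63 0 0, .g 17 65 0 0, .n, .n])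
  (.L 220))) (.G 1700 1098 7 1 1 1 1 [.n, .g 256 1 0 0, .n, .n, .n, .g 49 64
  0 0, .n, .n])) (.G 1319 75 5 1 1 1 1 [.n, .g 1 4 0 0, .g 4 31 0 0, .g 7 68
  0 0, .n, .n])) (.B 1 8 1 (.C 1 2 2 1 (.B 0 1 8 (.G 1016 337 3 140 35 140
  138 [.n, .n, .n, .n, .g 64 25 0 0, .g 16 5 0 0]) (.G 1610 444 5 1 1 1 1
  [.n, .n, .n, .n, .n, .n, .g 64 41 0 0, .g 32 25 0 0])) (.L 760)) (.L
  220)))) (.L 3)) (.L 3))) (.B 0 1 4 (.G 23 374 1 1 1 1 1 [.n, .n, .n, .n,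
  .n, .g 2 71 0 0]) (.C 0 2 1 12 (.B 1 8 1 (.C 1 2 48 1 (.C 0 3 2 1 (.C 1 3
  93 1 (.C 0 1 1 24 (.G 1280 107 0 1073742 2147483 4294967 8388607 [.n, .g
  29 32 0 0, .n, .n, .n]) (.G 1536 233 3 1936356 40552 3882851 7542666 [.n,
  .n, .n, .g 64 9 0 0])) (.C 2 3 1 1 (.L 196) (.C 1 3 1 2 (.L 196) (.C 0 3 4
  1 (.L 82) (.G 354 75 5 1 1 1 1 [.n, .g 64 1 0 0, .n, .n, .g 5 8 0 0, .g 36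
  65 0 0]))))) (.B 0 1 8 (.L 126) (.C 1 3 45 1 (.B 1 16 1 (.B 0 1 16 (.L
  220) (.C 1 3 90 1 (.C 1 2 96 1 (.C 0 1 1 93 (.L 341) (.L 2185)) (.L 341))
  (.L 341))) (.L 928)) (.L 444)))) (.B 0 1 8 (.G 220 337 3 557 2227 1114
  1079 [.n, .n, .n, .n, .n, .g 64 53 0 0, .n, .n, .n, .g 33 65 0 0]) (.G 415
  75 5 524 2096 1048 1015 [.g 64 3 0 0, .n, .n, .g 32 15 0 0]))) (.L 220))
  (.B 1 8 1 (.C 1 2 2 1 (.B 0 1 8 (.L 126) (.B 1 16 1 (.C 0 1 1 48 (.L 444)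
  (.C 1 3 45 1 (.G 233 1942 2 4707273 49162 196648 4446099 [.g 2 1 0 0, .n,
  .n, .g 32 15 0 0]) (.L 444))) (.L 928))) (.L 428)) (.L 23))))) (.G 23 193
  1 1 1 1 1 [.n, .n, .n, .n, .n, .g 1 124 0 0])) (.B 1 4 1 (.C 1 3 22 1 (.B
  0 1 4 (.L 23) (.B 1 8 1 (.C 1 3 44 1 (.C 1 2 2 1 (.B 0 1 8 (.L 126) (.B 1
  16 1 (.C 0 1 1 45 (.L 220) (.G 220 1942 2 1447 16 64 1406 [.n, .n, .n, .n,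
  .n, .n, .n, .n, .n, .g 35 64 0 0])) (.L 928))) (.G 428 23 5 1 1 1 1 [.n,
  .n, .n, .n, .g 31 32 0 0, .g 38 63 0 0])) (.L 23)) (.L 23))) (.L 23)) (.L
  148))) (.L 3))) (.G 138 7 0 9182 781 1563 8498 [.g 8 21 0 0, .n, .n, .n,
  .n, .n, .n, .n])) (.L 218))) (.C 2 3 4 3 (.C 1 2 1 1 (.B 1 2 1 (.C 0 1 1
  11 (.G 1354 915 0 562115 1130691 103377 407049 [.n, .n, .n, .n, .n, .n, .g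
  1 41 0 0, .g 1 57 0 0]) (.C 2 3 4 1 (.B 0 1 2 (.G 12 583 1 36081 1649 3299
  26082 [.g 3 76 0 0, .n, .n, .n, .n, .n]) (.C 1 3 16 1 (.B 1 4 1 (.C 0 1 1
  22 (.L 148) (.C 1 3 32 1 (.B 0 1 4 (.L 23) (.B 1 8 1 (.C 1 2 2 1 (.G 1942
  220 9 702 16 64 1021 [.g 64 11 0 0, .n, .g 32 15 0 0, .g 16 1 0 0]) (.L
  428)) (.L 23))) (.L 148))) (.L 148)) (.G 915 12 0 1074372 1565513 98228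
  779687 [.n, .n, .n, .n, .n, .g 1 51 0 0, .n, .n]))) (.C 1 3 8 1 (.C 0 1 1
  22 (.L 12) (.G 441 12 2 4894421 111554 1763944 1763944 [.g 64 17 0 0, .g
  64 1 0 0, .n, .n, .n, .n])) (.L 3)))) (.G 138 7 0 14645 1347 2693 10521
  [.g 3 8 0 0, .n, .n, .n, .n, .n, .n, .n])) (.L 218)) (.B 0 1 2 (.L 55) (.B
  1 2 1 (.C 1 3 4 3 (.C 1 3 8 1 (.C 1 2 8 1 (.C 0 1 1 11 (.L 83) (.B 1 4 1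
  (.C 1 2 16 1 (.G 12 1930 5 350 16 509 259 [.n, .n, .g 64 7 0 0, .g 64 7 0
  0, .n, .n]) (.L 148)) (.L 55))) (.L 83)) (.L 208)) (.L 122)) (.L 55)))))))
  (.C 1 2 5 3 (.C 0 1 3 5 (.C 0 3 4 3 (.B 0 1 1 (.G 74 216 3 99608 572747
  541620 815542 [.n, .g 128 1 0 0, .n, .n, .n, .n, .n, .n]) (.C 0 3 8 1 (.B
  0 1 2 (.L 7) (.B 1 2 1 (.C 0 2 11 2 (.B 1 4 1 (.C 0 3 16 1 (.C 0 1 6 1 (.B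
  0 1 4 (.L 193) (.B 1 8 1 (.C 0 2 22 1 (.C 0 3 32 1 (.G 2466 220 9 16 188
  702 1027 [.n, .g 256 1 0 0, .g 64 9 0 0, .g 64 9 0 0, .n, .n, .n, .n]) (.L
  126)) (.L 23)) (.L 23))) (.L 148)) (.L 148)) (.G 83 148 2 16 92 350 259
  [.n, .g 64 1 0 0, .n, .n, .n, .n])) (.G 1736 148 2 123 33 31 92 [.n, .n,
  .n, .n, .g 8 3 0 0, .g 32 13 0 0, .n, .n])) (.G 74 83 1 1325 7617 7203
  21444 [.g 64 37 0 0, .n, .n, .n, .n, .n, .n, .n]))) (.G 973 1814 0 1667063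
  590418 555688 833531 [.n, .g 35 64 0 0, .n, .n, .n, .n, .n, .n, .g 1 100 0
  0, .g 1 117 0 0]))) (.C 2 3 1 4 (.B 0 1 1 (.L 216) (.G 74 1814 0 6291455
  4456447 4194304 8388607 [.g 1 4 0 0, .n, .n, .n, .n, .n, .g 1 1115 0 0, .g
  1 1319 0 0])) (.L 38))) (.C 2 3 1 4 (.C 1 2 10 1 (.G 81 38 0 322978 31130
  616772 616772 [.g 64 1 0 0, .g 32 7 0 0, .n, .n, .n, .n, .n, .n]) (.B 0 1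
  1 (.L 216) (.G 973 1814 0 1441828 2714029 1357014 2714029 [.n, .g 64 37 0
  0, .n, .n, .n, .n, .n, .n, .g 1 94 0 0, .g 1 113 0 0]))) (.G 81 38 0
  485808 46825 927718 117062 [.g 32 1 0 0, .g 32 7 0 0, .n, .n, .n, .n, .n,
  .n]))) (.B 0 1 1 (.G 138 55 1 876 4762 876 1204 [.g 64 33 0 0, .n, .n, .n,
  .n, .n, .n, .n]) (.C 2 3 4 3 (.C 1 2 2 11 (.B 0 1 2 (.L 55) (.B 1 2 1 (.C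
  2 3 3 8 (.C 1 3 23 1 (.C 1 2 4 1 (.C 1 3 46 1 (.B 1 4 1 (.B 0 1 4 (.L 23)
  (.B 1 8 1 (.C 0 3 499 1 (.C 0 2 42 1 (.C 0 1 11 2 (.L 994) (.L 148)) (.L
  376)) (.L 376)) (.L 23))) (.L 148)) (.L 57)) (.B 1 4 1 (.B 0 1 4 (.C 1 2 1
  2 (.L 1180) (.C 0 2 21 1 (.L 1180) (.G 906 230 0 1 1 1 1 [.n, .g 64 1 0 0,
  .n, .n, .n, .n, .n, .n, .n, .n]))) (.G 376 1180 1 16 679 343 3984 [.g 11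
  62 0 0, .n, .n, .n, .g 1 432 0 0, .g 1 407 0 0])) (.C 2 3 12 1 (.C 2 3 24
  1 (.C 2 3 48 1 (.B 1 1 2 (.B 0 2 1 (.L 438) (.G 23 230 0 1 1 1 1 [.n, .g
  64 3 0 0, .n, .n, .n, .n])) (.L 438)) (.L 10)) (.L 438)) (.L 55)))) (.C 0
  3 127 1 (.C 0 1 249 1 (.C 0 3 254 1 (.C 0 1 498 1 (.C 1 2 1 46 (.G 233
  2216 1 4235 4218525 8388607 2151617 [.n, .g 1 299 0 0, .n, .g 1 238 0 0])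
  (.C 2 3 24 1 (.B 1 4 1 (.C 0 2 21 1 (.C 0 3 1023 1 (.L 1180) (.L 148)) (.G
  23 230 0 1 1 1 1 [.n, .g 32 3 0 0, .n, .n, .n, .n])) (.C 2 3 48 1 (.C 1 2
  1 92 (.L 148) (.G 148 230 0 1 1 1 1 [.n, .g 64 3 0 0, .n, .n, .n, .n]))
  (.L 148))) (.C 0 3 508 1 (.C 0 2 1023 1 (.G 1959 1180 3 18 36243 37434
  18592 [.n, .g 4 3 0 0, .n, .n]) (.L 23)) (.L 23)))) (.C 2 3 24 1 (.G 23
  230 0 1 1 1 1 [.n, .g 32 7 0 0, .n, .n, .n, .n]) (.L 148))) (.G 12 376 0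
  3790 3720 160 1900 [.g 64 17 0 0, .n, .n, .n, .n, .n])) (.C 1 2 1 12 (.L
  689) (.G 376 12 0 186 188 8 95 [.g 64 7 0 0, .n, .g 3 13 0 0, .n, .n,
  .n]))) (.C 2 3 6 1 (.G 230 313 1 1 1 1 1 [.g 19 64 0 0, .g 15 62 0 0, .n,
  .n, .n, .n, .g 1 78 0 0, .g 1 66 0 0]) (.L 12)))) (.B 0 1 4 (.L 7) (.B 1 4
  1 (.C 1 3 3 2 (.C 1 2 23 1 (.C 1 3 6 1 (.C 1 2 46 1 (.C 0 3 64 1 (.C 0 2
  499 1 (.C 0 1 11 2 (.C 1 3 6 1 (.G 998 994 2 8402 183788 8388607 2182351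
  [.n, .n, .n, .n, .n, .n, .g 2 3 0 0, .g 41 65 0 0]) (.L 1959)) (.L 148))
  (.L 148)) (.L 230)) (.L 57)) (.L 467)) (.C 0 2 127 1 (.B 0 1 8 (.L 7) (.B
  1 8 1 (.C 2 3 1 8 (.C 0 3 505 1 (.G 1485 1617 0 8306 2068082 2109610
  8388607 [.n, .n, .n, .n, .n, .n, .g 64 33 0 0, .g 32 17 0 0]) (.L 376))
  (.L 3746)) (.L 7))) (.L 12))) (.C 0 3 8 1 (.C 0 2 127 1 (.B 1 8 1 (.B 0 1
  8 (.L 7) (.C 0 1 32 1 (.G 536 3849 0 16 1020 4064 253 [.n, .n, .g 64 9 0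
  0, .g 64 9 0 0, .n, .n, .n, .n]) (.L 763))) (.L 7)) (.L 12)) (.L 7))) (.L
  7)))) (.L 55))) (.B 1 2 1 (.C 0 3 8 1 (.C 0 3 16 1 (.B 0 1 2 (.G 1019 83 0
  29456 631470 29456 937079 [.n, .n, .n, .n, .n, .n, .g 7 61 0 0, .g 3 32 0
  0]) (.C 0 2 1 1 (.C 0 1 21 1 (.B 1 4 1 (.C 0 3 32 1 (.B 0 1 4 (.L 23) (.B
  1 8 1 (.C 0 1 42 1 (.C 0 2 2 1 (.G 1536 1930 5 16 1351 64 1021 [.n, .n, .g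
  32 5 0 0, .g 13 16 0 0]) (.G 23 428 5 1 1 1 1 [.n, .n, .n, .n, .n, .g 64
  17 0 0])) (.L 23)) (.L 23))) (.L 23)) (.L 148)) (.G 23 376 0 1 1 1 1 [.n,
  .g 64 13 0 0, .n, .n, .n, .n])) (.C 2 3 32 1 (.C 1 2 1 21 (.C 1 3 3 1 (.C
  1 2 2 1 (.G 14 174 1 903 9705 38537 57833 [.n, .n, .n, .n, .g 15 32 0 0,
  .g 7 16 0 0]) (.L 3)) (.L 3)) (.L 3)) (.G 148 230 0 1 1 1 1 [.n, .g 64 7 0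
  0, .n, .n, .n, .n])))) (.B 0 1 2 (.L 800) (.C 0 2 1 32 (.G 376 12 0 32 22
  65 16 [.g 64 19 0 0, .n, .g 1 16 0 0, .g 1 28 0 0, .n, .n]) (.C 1 2 1 21
  (.C 0 1 1 3 (.L 3) (.C 1 2 2 1 (.G 230 174 1 1 1 1 1 [.n, .g 19 65 0 0,
  .n, .n, .n, .n, .g 1 88 0 0, .g 1 75 0 0]) (.L 3))) (.L 3))))) (.C 1 2 1
  21 (.C 1 3 3 8 (.B 0 1 2 (.L 800) (.C 1 2 2 1 (.C 1 3 6 1 (.G 230 313 1 1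
  1 1 1 [.n, .g 23 64 0 0, .n, .n, .n, .n, .g 1 63 0 0, .g 1 49 0 0]) (.L
  3)) (.L 3))) (.L 3)) (.L 3))) (.G 800 7 0 28697 615189 28697 224194 [.n,
  .n, .n, .n, .n, .n, .g 1 73 0 0, .g 1 90 0 0]))) (.B 0 1 2 (.L 55) (.B 1 2
  1 (.C 1 3 1 4 (.B 0 1 4 (.L 7) (.B 1 4 1 (.C 1 2 3 2 (.C 1 3 2 1 (.C 1 2 6
  1 (.C 1 3 4 1 (.C 0 2 64 1 (.C 0 1 11 2 (.C 1 3 2 1 (.C 0 3 87 1 (.C 1 2 6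
  1 (.C 0 2 260 1 (.C 0 3 174 1 (.L 994) (.L 928)) (.L 928)) (.L 1959)) (.L
  928)) (.L 57)) (.L 148)) (.L 230)) (.L 57)) (.L 467)) (.L 467)) (.C 0 3 11
  1 (.C 0 2 8 1 (.C 2 3 3 2 (.B 1 8 1 (.B 0 1 8 (.L 7) (.C 0 3 91 1 (.C 0 1
  32 1 (.C 0 2 16 1 (.C 0 2 32 1 (.L 1105) (.L 928)) (.L 148)) (.G 230 763 0
  1 1 1 1 [.n, .n, .n, .n, .n, .n, .g 1 85 0 0, .n])) (.G 428 763 0 1 1 1 1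
  [.n, .g 53 63 0 0, .n, .n, .n, .n]))) (.L 7)) (.L 1956)) (.L 83)) (.L
  208))) (.L 7))) (.C 0 3 4 3 (.C 0 2 8 1 (.C 0 1 11 1 (.C 0 3 8 1 (.B 0 1 4
  (.L 55) (.B 1 4 1 (.C 0 1 22 1 (.C 0 2 16 1 (.G 467 1930 5 16 704 509 259
  [.n, .n, .g 64 9 0 0, .g 64 9 0 0, .n, .n, .n, .n, .n, .n]) (.L 148)) (.L
  148)) (.L 55))) (.L 208)) (.L 208)) (.L 7)) (.L 122))) (.L 55))))))) (.C 2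
  3 5 1 (.C 1 2 2 7 (.C 0 1 5 3 (.B 0 1 1 (.L 972) (.C 0 1 10 1 (.B 0 1 2
  (.C 0 3 5 1 (.C 0 3 10 1 (.P (.ofNat 1) (.ofNat 2)) (.L 63)) (.L 3240))
  (.B 1 2 1 (.L 90) (.C 0 3 5 1 (.C 0 3 10 1 (.P (.ofNat 1) (.ofNat 2)) (.L
  63)) (.L 3240)))) (.G 3240 63 1 589804 303576 208166 138777 [.g 64 1 0 0,
  .n, .n, .n]))) (.B 0 1 1 (.L 63) (.G 678 1820 1 92 16 63 43 [.g 32 31 0 0,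
  .n, .n, .g 15 32 0 0]))) (.B 0 1 1 (.C 2 3 10 1 (.P (.ofNat 1) (.ofNat 2))
  (.L 972)) (.C 0 3 5 1 (.C 1 2 1 14 (.B 1 2 1 (.B 0 1 2 (.C 0 1 7 1 (.G 97
  1937 1 17730 250437 250437 173976 [.n, .n, .g 3 74 0 0, .g 2 57 0 0, .n,
  .n]) (.C 2 3 2 3 (.P (.ofNat 1) (.ofNat 2)) (.L 97))) (.C 0 2 14 1 (.L 90)
  (.L 91))) (.C 0 3 10 1 (.P (.ofNat 1) (.ofNat 2)) (.C 2 3 2 3 (.P (.ofNat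
  1) (.ofNat 2)) (.L 63)))) (.C 2 3 20 1 (.P (.ofNat 1) (.ofNat 2)) (.B 1 2
  1 (.C 0 3 10 1 (.P (.ofNat 1) (.ofNat 2)) (.G 97 9 1 237525 170721 237525
  118763 [.n, .n, .g 2 63 0 0, .g 2 75 0 0, .n, .n])) (.C 0 3 10 1 (.P
  (.ofNat 1) (.ofNat 2)) (.B 1 1 2 (.C 1 3 2 3 (.P (.ofNat 1) (.ofNat 2))
  (.L 2722)) (.L 97)))))) (.G 97 572 3 1382 999 70 678 [.g 4096 1 0 0, .n,
  .g 8 3 0 0, .g 64 27 0 0, .n, .n])))) (.C 0 3 5 2 (.C 0 1 5 3 (.B 0 1 1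
  (.L 972) (.C 0 3 10 1 (.C 0 2 5 1 (.B 0 1 2 (.C 0 1 10 1 (.C 0 3 20 1 (.C
  0 2 10 1 (.P (.ofNat 1) (.ofNat 2)) (.L 63)) (.L 63)) (.L 63)) (.B 1 2 1
  (.L 90) (.C 0 1 10 1 (.C 0 3 20 1 (.C 0 2 10 1 (.P (.ofNat 1) (.ofNat 2))
  (.L 63)) (.L 63)) (.L 63)))) (.L 2856)) (.G 475 176 1 4814 2592 1185 2370
  [.n, .g 64 7 0 0, .n, .n, .n, .n, .n, .n, .n, .n]))) (.G 152 475 1 1074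
  187 502 992 [.g 16 3 0 0, .n, .n, .n, .n, .n])) (.G 176 152 0 814470
  153312 412026 210804 [.g 25 63 0 0, .g 5 16 0 0, .n, .n, .n, .n, .g 1 490
  0 0, .g 2 1183 0 0, .n, .n])))) (by decide +kernel)

theorem CN0_c178 : CoN CNTab ⟨⟨3, 3, 8⟩, ⟨3, 4, 8⟩, ⟨7, 7, 16⟩, ⟨28, 2, 0,
  0, 1⟩, ⟨28, 2, 0, 1, 0⟩, ⟨40, 10, 4, 4, 3⟩, ⟨4, 1, 1, 1, 0⟩⟩ :=
CoN.ofG CNTab_B CNBt_E CNBt_U (.C 2 3 1 6 (.C 0 3 5 1 (.C 0 1 1 1 (.C 0 2 5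
  2 (.C 0 1 5 3 (.C 0 3 9 1 (.C 0 2 10 1 (.C 0 1 10 1 (.C 0 3 18 1 (.B 0 1 1
  (.L 972) (.B 0 1 2 (.B 1 1 2 (.C 0 2 20 1 (.C 0 1 20 1 (.G 3234 474 0 1 1
  1 1 [.n, .g 16 65 0 0, .n, .n, .n, .n, .n, .n, .n, .n]) (.L 91)) (.L 63))
  (.L 972)) (.B 1 2 1 (.L 90) (.C 0 2 20 1 (.B 2 2 1 (.G 1741 2825 1 1 1 1 1
  [.g 64 15 0 0, .n, .n, .n, .n, .n, .g 8 67 0 0, .g 7 67 0 0]) (.G 474 3234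
  1 1 1 1 1 [.g 64 3 0 0, .n, .n, .n, .n, .n])) (.L 63))))) (.L 97)) (.G 678
  63 1 6574 3393 6362 5725 [.n, .g 64 1 0 0, .n, .g 17 62 0 0])) (.G 97 475
  1 1458 751 707 1281 [.g 32 9 0 0, .n, .n, .n, .n, .n])) (.G 176 152 0
  743563 455732 407761 383775 [.g 3 4 0 0, .n, .n, .n, .n, .n, .g 1 476 0 0,
  .g 1 572 0 0, .n, .n])) (.B 0 1 1 (.L 138) (.C 1 2 5 1 (.C 1 3 5 1 (.C 0 1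
  1 6 (.G 800 3 0 580124 1196506 1051475 1015217 [.n, .n, .n, .n, .n, .n, .g
  1 95 0 0, .g 1 110 0 0]) (.B 1 2 1 (.B 0 1 2 (.G 583 138 0 5945 506 5218
  5028 [.n, .g 8 1 0 0, .n, .n, .n, .n, .n, .n]) (.C 0 3 4 5 (.B 1 4 1 (.C 0
  2 5 6 (.C 0 1 1 12 (.C 0 1 2 1 (.L 3) (.C 1 2 5 1 (.C 1 3 4 1 (.B 0 1 4
  (.B 1 1 1 (.G 1064 354 5 443 222 2229 1772 [.n, .n, .n, .n, .g 37 65 0 0,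
  .g 17 32 0 0]) (.L 220)) (.C 1 3 8 1 (.B 2 1 1 (.G 75 1098 7 1 1 1 1 [.n,
  .n, .n, .n, .n, .g 64 27 0 0]) (.B 0 1 8 (.B 1 1 1 (.B 0 2 1 (.G 354 1831
  7 1 1 1 1 [.n, .n, .n, .n, .g 32 17 0 0, .g 64 57 0 0]) (.G 716 3337 7 1 1
  1 1 [.n, .n, .n, .n, .g 64 7 0 0, .g 32 7 0 0, .n, .n])) (.G 374 1831 7 1
  1 1 1 [.n, .n, .n, .n, .n, .g 32 23 0 0])) (.G 444 1610 7 1 1 1 1 [.n, .n,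
  .n, .n, .g 16 7 0 0, .g 64 57 0 0]))) (.B 2 1 1 (.L 75) (.B 0 1 8 (.C 1 2
  2 3 (.C 0 3 4 1 (.C 0 1 8 1 (.L 14) (.G 2313 1444 5 1 1 1 1 [.n, .n, .n,
  .n, .n, .n, .g 47 64 0 0, .g 19 32 0 0])) (.L 1444)) (.L 14)) (.L 444)))))
  (.G 888 14 5 1598191 6492652 8090844 3196383 [.n, .n, .n, .n, .n, .n, .n,
  .n, .g 64 25 0 0, .g 64 51 0 0])) (.L 3))) (.B 0 1 4 (.G 193 354 1 1 1 1 1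
  [.n, .n, .n, .n, .n, .g 3 65 0 0, .n, .n]) (.C 0 3 4 1 (.B 1 8 1 (.C 0 2 5
  1 (.B 0 1 8 (.C 0 3 8 1 (.C 0 2 10 1 (.G 1319 354 5 1 1 1 1 [.g 31 64 0 0,
  .n, .g 10 67 0 0, .g 10 67 0 0, .n, .n]) (.G 220 354 1 1 1 1 1 [.n, .n,
  .n, .n, .n, .n, .n, .n, .n, .g 3 56 0 0])) (.L 220)) (.C 0 2 10 1 (.C 1 3
  191 1 (.C 1 2 478 1 (.G 233 1575 4 208494 8779 8388607 3351822 [.n, .n,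
  .n, .g 64 45 0 0]) (.G 1229 2210 2 204 8211 4099 3282 [.n, .n, .n, .n, .n,
  .g 9 13 0 0, .n, .n, .n, .g 16 5 0 0])) (.G 1229 212 1 67 1074 1342 535
  [.n, .n, .n, .n, .n, .g 16 11 0 0, .n, .n, .n, .n])) (.C 1 2 240 1 (.B 1
  16 1 (.C 1 3 191 1 (.C 0 1 1 478 (.G 1703 945 0 1566 3131 1566 1252 [.n,
  .n, .n, .n, .n, .g 16 11 0 0]) (.G 1447 233 3 8388607 8779 4211587 3351822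
  [.g 16 9 0 0, .n, .n, .n])) (.L 1703)) (.L 354)) (.L 1229)))) (.B 0 1 8
  (.L 126) (.C 1 2 121 1 (.B 1 16 1 (.G 341 3874 0 3836 16 3870 3053 [.n,
  .n, .n, .n, .n, .n, .n, .n, .g 2 1221 0 0, .g 2 1265 0 0]) (.L 928)) (.L
  444)))) (.L 220)) (.B 1 8 1 (.G 404 220 9 6180 32 3915 3101 [.g 32 7 0 0,
  .n, .g 32 21 0 0, .g 16 5 0 0, .g 64 3 0 0]) (.L 126))))) (.C 1 2 10 1 (.C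
  1 3 96 1 (.C 1 2 20 1 (.C 0 1 1 121 (.L 220) (.G 10 220 9 4197 17 699 3327
  [.n, .g 256 1 0 0, .g 64 15 0 0, .n, .n, .n, .n, .g 32 3 0 0])) (.L 23))
  (.L 23)) (.L 23))) (.L 193)) (.B 1 4 1 (.C 1 3 10 1 (.C 1 2 10 1 (.G 12
  1930 5 1532 16 325 319 [.n, .n, .g 128 17 0 0, .g 64 9 0 0, .n, .n]) (.L
  148)) (.L 148)) (.L 7)))) (.G 557 7 0 5945 506 5218 5028 [.g 3 8 0 0, .n,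
  .n, .n, .n, .n, .n, .n]))) (.L 3)) (.L 176)))) (.B 0 1 1 (.L 138) (.B 0 1
  2 (.G 38 7 1 412923 77727 106874 383775 [.n, .n, .g 1 122 0 0, .n]) (.C 1
  2 4 3 (.C 1 3 5 1 (.B 1 2 1 (.C 1 2 8 1 (.C 0 1 1 5 (.L 83) (.B 1 4 1 (.C
  1 3 10 1 (.C 1 2 16 1 (.C 0 1 1 10 (.L 148) (.G 12 1930 5 325 16 515 319
  [.n, .n, .g 128 17 0 0, .g 64 9 0 0, .n, .n])) (.L 148)) (.L 148)) (.L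
  7))) (.L 208)) (.L 7)) (.L 74)) (.G 176 204 0 650404 1002262 170598 607755
  [.n, .n, .n, .n, .n, .n, .n, .n, .n, .g 1 440 0 0]))))) (.C 0 1 3 5 (.C 0
  2 4 3 (.C 0 3 5 1 (.C 1 2 3 2 (.B 0 1 1 (.G 74 216 3 75442 433794 2541466
  749709 [.n, .g 128 1 0 0, .n, .n, .n, .n, .n, .n]) (.C 0 2 34 1 (.C 0 3 10
  1 (.B 0 1 2 (.L 7) (.C 0 1 6 1 (.B 1 2 1 (.B 1 4 1 (.C 0 2 68 1 (.B 0 1 4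
  (.L 193) (.B 1 8 1 (.C 0 3 20 1 (.B 0 1 8 (.L 126) (.C 0 1 12 1 (.C 1 3 5
  3 (.C 0 2 136 1 (.G 994 1700 5 16 380 4347 3820 [.n, .n, .g 32 5 0 0, .n,
  .n]) (.L 928)) (.L 2216)) (.L 928))) (.L 126)) (.L 126))) (.L 148)) (.L
  148)) (.L 7)) (.L 973))) (.L 1686)) (.L 775))) (.B 0 1 1 (.L 55) (.C 0 2 8
  1 (.B 1 2 1 (.C 0 1 34 1 (.C 0 3 10 1 (.G 438 467 1 448 30331 7254 8934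
  [.g 16 5 0 0, .n, .n, .n, .n, .n]) (.L 1686)) (.L 775)) (.L 55)) (.L
  74)))) (.L 38)) (.L 38)) (.G 81 38 0 236682 22813 57032 202463 [.g 64 1 0
  0, .g 32 7 0 0, .n, .n, .n, .n, .n, .n]))) (.C 0 3 4 7 (.G 53 672 1 573613
  64632 161581 4516194 [.g 2 57 0 0, .g 2 63 0 0, .n, .n]) (.C 2 3 2 1 (.G
  328 81 1 86533 1238 3096 12229 [.g 61 64 0 0, .n, .n, .n, .n, .n]) (.G 328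
  16 1 702907 10059 99337 49040 [.g 64 37 0 0, .g 64 21 0 0, .n, .n, .n,
  .n])))) (.B 0 1 1 (.C 1 2 5 1 (.C 0 3 2 5 (.C 0 1 1 1 (.B 2 1 2 (.B 1 1 1
  (.B 0 1 2 (.L 54) (.C 0 2 10 1 (.C 0 1 5 3 (.L 517) (.G 742 138 0 92 16
  159 32 [.g 1 63 0 0, .g 1 136 0 0, .n, .n, .n, .n])) (.B 1 2 1 (.C 1 3 2 1
  (.B 0 1 4 (.L 742) (.B 0 1 8 (.L 1191) (.G 1191 3880 1 1 1 1 1 [.g 64 1 0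
  0, .n, .n, .n, .n, .n]))) (.C 0 2 3 5 (.L 517) (.L 16))) (.L 240)))) (.L
  54)) (.B 0 2 1 (.G 844 97 0 16 29 158 58 [.n, .n, .n, .n, .n, .n, .g 1
  6529 0 0, .g 1 6886 0 0]) (.B 1 2 1 (.B 0 1 2 (.L 54) (.C 1 3 2 1 (.B 1 4
  1 (.B 0 1 4 (.L 1191) (.G 1191 3880 1 1 1 1 1 [.g 32 1 0 0, .n, .n, .n,
  .n, .n])) (.L 742)) (.C 0 2 10 1 (.L 517) (.C 0 2 3 5 (.L 517) (.L 16)))))
  (.L 54)))) (.B 0 2 1 (.L 54) (.B 1 1 1 (.B 0 1 2 (.L 54) (.C 0 3 2 1 (.C 0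
  1 3 5 (.B 1 2 1 (.G 3880 240 7 1 1 1 1 [.n, .g 2 11 0 0, .n, .n, .n, .n,
  .n, .n]) (.L 240)) (.L 497)) (.L 16))) (.L 54)))) (.B 0 2 1 (.L 64) (.G
  229 173 0 1 1 1 1 [.n, .g 64 55 0 0, .n, .n, .n, .n, .n, .g 1 91 0 0, .n,
  .n]))) (.C 2 3 1 12 (.B 0 2 1 (.C 1 2 1 2 (.B 2 1 2 (.L 64) (.C 0 1 10 1
  (.B 2 1 4 (.L 64) (.B 0 4 1 (.C 0 2 20 1 (.G 1992 97 0 16 286 571 155 [.g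
  1 52 0 0, .n, .n, .n, .n, .n, .g 1 5341 0 0, .g 1 5913 0 0]) (.L 844)) (.L
  844))) (.L 64))) (.B 2 1 2 (.B 1 1 2 (.C 1 2 1 4 (.L 64) (.C 2 3 2 1 (.C 0
  2 5 1 (.G 138 339 7 16 629 142 312 [.g 2048 1 0 0, .g 64 1 0 0, .n, .n,
  .n, .n, .n, .n]) (.G 806 115 0 29 128 16 64 [.g 32 1 0 0, .n, .n, .n, .n,
  .n, .n, .n])) (.G 64 339 1 1 1 1 1 [.n, .n, .n, .g 2 263 0 0, .n, .n])))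
  (.L 844)) (.C 0 3 10 1 (.G 53 97 0 426088 8388607 2077179 7536431 [.n, .g
  1 752 0 0, .g 1 3136 0 0, .n]) (.G 34 242 1 198682 219235 54809 109618
  [.n, .n, .g 32 17 0 0, .n])))) (.C 1 2 1 2 (.B 1 1 1 (.C 0 1 10 1 (.L 339)
  (.B 0 1 2 (.L 54) (.B 1 2 1 (.C 0 1 3 5 (.L 517) (.G 844 242 1 83715 7879
  15758 7879 [.g 6 65 0 0, .n, .n, .n, .n, .n, .n, .n])) (.L 54)))) (.L 64))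
  (.B 2 2 1 (.B 1 1 1 (.G 481 339 7 1 1 1 1 [.n, .n, .g 32 9 0 0, .g 64 5 0
  0]) (.L 64)) (.C 2 3 2 1 (.C 1 2 1 4 (.L 339) (.B 0 1 2 (.G 1430 138 0 16
  629 78 312 [.n, .n, .g 1 1025 21244 0, .g 1 1084 17370 0, .n, .n]) (.G 313
  903 7 1 1 1 1 [.n, .n, .n, .g 11 7 258571 0, .n, .n]))) (.L 339))))) (.C 0
  3 2 5 (.B 2 1 2 (.B 1 1 1 (.B 0 1 2 (.L 64) (.C 0 1 10 1 (.L 517) (.B 1 2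
  1 (.C 0 1 3 5 (.L 517) (.G 173 242 1 24705 2368 2314 861 [.g 16 63 0 0,
  .n, .n, .n, .n, .n])) (.L 54)))) (.L 64)) (.B 0 2 1 (.C 0 1 10 1 (.C 0 3 7
  2 (.C 0 2 10 1 (.L 97) (.G 574 738 1 1 1 1 1 [.g 32 19 0 0, .n, .n, .n,
  .n, .n, .n, .n])) (.L 844)) (.L 64)) (.B 1 2 1 (.C 0 1 10 1 (.L 339) (.B 0
  1 2 (.L 54) (.C 1 2 1 1 (.C 1 3 3 8 (.C 0 1 3 5 (.L 517) (.G 16 497 7 167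
  16 32 95 [.n, .g 64 11 0 0, .n, .n, .n])) (.L 517)) (.L 517)))) (.L 64))))
  (.G 285 64 0 529 1454 1424 59 [.g 64 1 0 0, .n, .n, .g 32 1 0 0])))) (.C 0
  3 2 5 (.C 0 2 5 1 (.C 0 1 1 1 (.C 0 3 7 2 (.C 0 1 5 3 (.C 0 2 9 1 (.C 0 3
  13 1 (.B 1 2 1 (.C 0 1 10 1 (.C 0 2 18 1 (.B 0 1 2 (.G 474 3593 1 8 163
  284 208 [.n, .g 64 13 0 0, .n, .n, .g 1 126 0 0, .n]) (.L 90)) (.L 91))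
  (.L 176)) (.C 0 1 10 1 (.G 313 2569 1 8 163 140 208 [.n, .n, .n, .n, .g 1
  59 0 0, .g 1 65 0 0]) (.L 2856))) (.L 176)) (.L 176)) (.C 1 3 7 1 (.C 1 2
  5 1 (.C 0 1 1 6 (.G 475 3 0 255307 526570 446787 622311 [.n, .n, .n, .n,
  .n, .n, .n, .n, .g 1 83 0 0, .g 1 237 0 0]) (.B 1 2 1 (.C 0 2 4 5 (.C 0 3
  5 4 (.C 0 2 8 1 (.B 1 4 1 (.B 0 1 2 (.G 374 401 5 1 1 1 1 [.g 64 1 0 0,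
  .n, .n, .n, .n, .n]) (.B 0 1 4 (.C 0 3 10 1 (.G 354 1308 7 1 1 1 1 [.n,
  .n, .n, .n, .g 17 63 0 0, .g 17 66 0 0]) (.L 220)) (.B 1 8 1 (.B 0 1 8 (.C
  0 1 1 12 (.C 1 3 5 1 (.C 1 2 8 1 (.L 1831) (.L 3)) (.L 3)) (.G 1319 354 5
  1 1 1 1 [.g 31 64 0 0, .g 64 23 0 0, .g 10 67 0 0, .g 10 67 0 0, .n, .n]))
  (.C 1 2 190 1 (.C 1 3 116 1 (.C 0 1 1 12 (.G 1610 341 9 1 1 1 1 [.n, .n,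
  .n, .n, .n, .n, .n, .g 11 61 0 0]) (.C 1 3 232 1 (.G 233 1575 4 429605
  18089 6872553 8388607 [.n, .n, .n, .g 64 45 0 0]) (.G 632 647 2 430185
  8388607 6882960 4194304 [.n, .n, .g 64 61 0 0, .g 64 43 0 0]))) (.L 341))
  (.L 1229))) (.G 354 1098 7 1 1 1 1 [.n, .n, .n, .n, .g 21 32 0 0, .g 1 2 0
  0])))) (.L 401)) (.B 0 1 2 (.L 55) (.B 1 4 1 (.B 1 8 1 (.B 0 1 4 (.L 193)
  (.B 0 1 8 (.L 126) (.C 1 2 96 1 (.B 1 16 1 (.G 1700 3081 3 1 1 1 1 [.n,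
  .n, .n, .n, .n, .g 1 3617 0 0, .n, .n]) (.L 928)) (.L 444)))) (.L 193))
  (.L 148)))) (.G 354 12 2 463 4 383 57 [.g 128 1 0 0, .g 64 1 0 0, .n, .n,
  .n, .g 9 62 0 0])) (.B 0 1 2 (.L 55) (.B 1 4 1 (.C 1 2 10 1 (.G 12 1930 5
  1532 16 319 228 [.n, .n, .g 128 17 0 0, .g 64 9 0 0, .n, .n]) (.L 148))
  (.L 7)))) (.G 138 7 0 4692 399 3968 5690 [.g 3 8 0 0, .n, .n, .n, .n, .n,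
  .n, .n]))) (.L 3)) (.L 3))) (.C 1 3 2 1 (.C 1 3 4 1 (.C 1 2 5 1 (.B 1 2 1
  (.B 0 1 2 (.L 55) (.C 0 1 1 7 (.L 83) (.C 1 2 10 1 (.B 1 4 1 (.C 1 3 8 1
  (.B 0 1 4 (.L 193) (.B 1 8 1 (.G 12 220 9 228 16 319 256 [.n, .n, .g 32 7
  0 0, .g 4 1 0 0, .n, .n]) (.L 126))) (.L 148)) (.L 148)) (.L 639)))) (.L
  55)) (.L 122)) (.L 122)) (.C 0 3 2 7 (.L 122) (.G 16 672 1 455602 64510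
  80637 32255 [.n, .n, .g 8 31 0 0, .g 1 5 0 0, .n])))) (.C 0 3 2 1 (.C 0 1
  3 5 (.C 0 3 4 1 (.C 0 2 5 1 (.C 0 2 10 1 (.B 0 1 2 (.L 7) (.C 0 3 8 1 (.B
  1 2 1 (.B 1 4 1 (.C 0 1 6 1 (.B 0 1 4 (.L 193) (.B 1 8 1 (.C 0 2 20 1 (.C
  0 3 16 1 (.B 0 1 8 (.L 126) (.G 1480 354 5 16 188 639 512 [.g 32 1 0 0, .g
  256 1 0 0, .n, .n, .n, .n, .g 64 25 0 0, .g 64 25 0 0])) (.L 126)) (.L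
  126)) (.L 126))) (.L 148)) (.L 148)) (.G 208 83 1 1082 6221 21572 17311
  [.g 16 5 0 0, .n, .n, .n, .n, .n, .n, .n])) (.L 973))) (.L 1686)) (.L 38))
  (.L 38)) (.G 38 122 1 246965 23804 211259 171090 [.g 1 144 0 0, .n, .n,
  .n])) (.G 16 672 1 56540 7866 69815 28516 [.n, .n, .g 23 65 0 0, .g 2 9 0
  0, .n]))) (.C 0 2 4 7 (.G 595 328 0 18766 2114 147749 7665 [.n, .g 16 11 0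
  0, .n, .n, .n, .n, .n, .n]) (.G 328 16 1 800485 11456 55848 41528 [.g 64
  37 0 0, .g 32 9 0 0, .n, .n, .n, .n]))) (.C 1 3 2 5 (.C 1 3 4 1 (.C 1 2 5
  1 (.C 1 3 8 1 (.G 650 16 1 5722 1578 15587 25255 [.g 8 3 0 0, .g 8 1 0 0,
  .n, .n, .n, .n, .n, .n]) (.L 328)) (.G 328 1017 0 5626 15471 7736 12658
  [.n, .g 64 45 0 0, .n, .n, .n, .n])) (.G 1174 767 2 33659 75732 46281
  37866 [.n, .g 16 1 0 0, .n, .n, .n, .n, .n, .n])) (.C 2 3 1 12 (.L 845)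
  (.C 0 3 1 9 (.L 845) (.B 1 2 1 (.G 497 173 0 1 1 1 1 [.n, .g 32 19 0 0,
  .n, .n, .n, .n, .n, .n]) (.L 155)))))))) (by decide +kernel)

theorem CN0_c179 : CoN CNTab ⟨⟨3, 3, 8⟩, ⟨3, 4, 8⟩, ⟨7, 7, 16⟩, ⟨28, 2, 0,
  1, 0⟩, ⟨8, 2, 0, 1, 0⟩, ⟨8, 2, 0, 0, 1⟩, ⟨4, 1, 1, 1, 0⟩⟩ :=
CoN.ofG CNTab_B CNBt_E CNBt_U (.C 0 2 1 2 (.C 2 3 2 9 (.C 2 3 4 1 (.C 1 2 7
  2 (.C 1 3 26 1 (.G 316 122 1 320329 160164 2142198 8388607 [.g 2 29 0 0,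
  .n, .g 1 4801 0 0, .g 1 5263 0 0, .n, .n]) (.G 81 38 0 22728 595183 151992
  299722 [.g 32 1 0 0, .g 32 7 0 0, .n, .n, .n, .n, .n, .n])) (.C 0 2 5 3
  (.C 0 2 10 1 (.G 81 38 0 23727 158671 470082 312893 [.g 128 3 0 0, .g 32 7
  0 0, .n, .n, .n, .n, .n, .n]) (.B 0 1 1 (.L 216) (.C 2 3 4 3 (.G 973 1814
  0 1403951 477941 687040 5615804 [.n, .n, .n, .n, .n, .n, .n, .n, .g 1 100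
  0 0, .g 1 117 0 0]) (.L 775)))) (.C 1 2 1 4 (.B 0 1 1 (.L 74) (.B 0 1 2
  (.L 7) (.B 1 2 1 (.C 1 2 2 1 (.L 1736) (.C 2 3 1 1 (.B 0 1 4 (.L 866) (.B
  1 4 1 (.C 0 2 4 3 (.C 0 1 5 2 (.C 0 3 5 2 (.C 0 2 8 1 (.C 1 2 3 2 (.L 468)
  (.G 763 1023 1 1 1 1 1 [.n, .g 32 7 0 0, .n, .n, .n, .n, .n, .n])) (.L
  174)) (.L 174)) (.L 174)) (.L 313)) (.L 83))) (.L 1736))) (.L 7)))) (.B 0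
  1 1 (.L 55) (.C 2 3 7 1 (.B 0 1 2 (.G 1019 12 0 320873 427831 59011 826156
  [.n, .n, .n, .n, .n, .n, .g 2 21 0 0, .g 5 63 0 0]) (.C 0 2 2 11 (.B 1 2 1
  (.C 0 2 4 1 (.C 0 3 5 2 (.B 0 1 4 (.L 7) (.B 1 4 1 (.C 0 1 4 3 (.G 763
  1023 1 1 1 1 1 [.n, .g 64 29 0 0, .n, .n, .n, .n, .n, .n]) (.L 313)) (.L
  7))) (.L 1418)) (.C 0 3 1 3 (.G 174 717 0 93 16 47 185 [.g 32 5 0 0, .n,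
  .n, .g 2 63 0 0, .g 1 32 0 0, .n]) (.C 0 1 1 12 (.G 313 12 0 96 195 25 16
  [.n, .n, .g 7 66 0 0, .g 2 33 0 0, .n, .n]) (.C 1 3 2 1 (.G 313 717 0 375
  16 47 62 [.g 8 1 0 0, .n, .n, .g 3 76 0 0, .n, .n]) (.G 313 536 0 195 32
  25 16 [.g 256 1 0 0, .n, .g 3 7 0 0, .g 8 33 0 0, .n, .n]))))) (.L 55))
  (.B 1 2 1 (.C 0 1 1 3 (.B 1 4 1 (.G 519 763 1 1 1 1 1 [.n, .g 64 19 0 0,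
  .n, .n, .n, .n]) (.C 0 2 1 21 (.C 0 3 2 3 (.L 3368) (.C 1 3 1 3 (.L 3368)
  (.C 1 2 1 2 (.G 870 778 7 4194303 4194303 8388607 691844 [.n, .g 128 1 0
  0, .n, .n, .n, .n, .n, .n, .n, .n]) (.L 3)))) (.C 1 2 1 43 (.B 2 1 1 (.C 0
  1 1 1 (.C 1 3 1 6 (.G 1024 1023 7 1 1 1 1 [.n, .g 1024 1 0 0, .n, .n, .n,
  .n]) (.L 3)) (.C 2 3 1 6 (.G 2057 1024 3 1 1 1 1 [.n, .n, .n, .g 16 65 0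
  0, .n, .n, .n, .g 36 65 0 0]) (.G 2850 83 0 98 49 194 16 [.n, .n, .n, .g 2
  79 0 0, .n, .n, .n, .g 1 36 0 0]))) (.G 1023 2850 3 1 1 1 1 [.n, .g 128 1
  0 0, .n, .n, .n, .n, .n, .g 4 9 0 0])) (.L 3)))) (.B 2 1 1 (.C 1 2 1 7 (.G
  3362 115 0 156786 26687 51706 51706 [.n, .n, .n, .n, .n, .n, .g 64 13 0 0,
  .g 64 15 0 0]) (.B 1 4 1 (.G 519 1224 0 1 1 1 1 [.n, .g 32 3 0 0, .n, .n,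
  .n, .n]) (.C 0 2 1 43 (.C 2 3 1 6 (.G 438 519 3 477 156 944 1869 [.n, .n,
  .g 64 39 0 0, .g 64 45 0 0, .n, .n]) (.G 83 115 0 335 110 1328 110 [.g 16
  7 0 0, .n, .n, .n, .n, .n])) (.L 392)))) (.L 115))) (.G 1019 689 0 665943
  225217 31064 434901 [.n, .n, .n, .n, .n, .n, .g 1 37 0 0, .g 1 44 0 0]))))
  (.B 0 1 2 (.L 55) (.B 1 2 1 (.B 0 1 4 (.L 7) (.B 1 4 1 (.C 0 2 5 2 (.C 0 3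
  4 3 (.C 0 1 4 3 (.C 0 1 8 1 (.G 763 474 4 1 1 1 1 [.n, .n, .n, .n, .n, .n,
  .g 64 23 0 0, .g 16 5 0 0]) (.L 174)) (.L 313)) (.L 313)) (.G 174 115 0 1
  1 1 1 [.n, .n, .n, .g 1 60 0 0, .n, .n])) (.L 7))) (.L 55)))))))) (.C 2 3
  1 2 (.G 81 38 0 312862 156431 4125865 8388607 [.g 32 1 0 0, .g 32 7 0 0,
  .n, .n, .n, .n, .g 16 0 3 0, .n]) (.G 16 672 1 7821 3910 209687 53277 [.n,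
  .n, .g 1 3 0 0, .n, .n]))) (.C 2 3 1 17 (.C 2 3 2 1 (.B 0 1 1 (.L 16) (.B
  0 1 2 (.L 16) (.G 328 672 1 3656 1828 24910 99411 [.g 47 64 0 0, .n, .n,
  .n, .n, .n]))) (.L 413)) (.C 1 3 3 4 (.L 413) (.C 1 3 1 8 (.C 0 3 6 1 (.L
  413) (.G 287 1302 2 238 60 264 125 [.g 64 9 0 0, .g 64 1 0 0, .n, .g 32 3
  0 0])) (.B 0 1 1 (.G 155 240 1 1 1 1 1 [.g 59 64 0 0, .n, .n, .n, .n, .n])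
  (.C 0 3 2 5 (.G 845 767 0 33233 209786 452805 132934 [.g 32 27 0 0, .g 64
  0 3 0, .n, .g 23 65 0 0]) (.B 1 2 1 (.B 0 1 2 (.G 155 2344 1 933 1469 3171
  93 [.g 4 31 0 0, .n, .n, .n, .n, .n]) (.C 2 3 1 34 (.G 1290 767 0 26312
  41112 88803 179250 [.n, .g 64 31 0 0, .n, .n, .n, .n, .n, .n]) (.G 119 41
  0 1 1 1 1 [.n, .g 1 6 0 0, .n, .n, .n, .n]))) (.L 155)))))))) (.C 0 1 2 7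
  (.C 0 3 2 9 (.C 0 2 2 7 (.C 0 3 4 1 (.C 0 1 4 1 (.B 0 1 1 (.L 138) (.B 1 2
  1 (.G 915 315 0 843 6108 3318 6161 [.g 2048 5 0 0, .g 256 1 0 0, .n, .n,
  .g 64 35 0 0, .g 8 5 0 0, .n, .n]) (.G 800 66 2 265 1920 1043 1936 [.n,
  .n, .n, .n, .n, .n, .g 16 3 0 0, .g 64 15 0 0]))) (.C 1 2 1 1 (.G 74 411 0
  10034 5179 10034 10357 [.g 1024 1 0 0, .n, .n, .n, .n, .n, .g 32 7 0 0, .g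
  4 1 0 0]) (.B 0 1 1 (.L 138) (.G 800 66 2 1446 1398 771 1446 [.g 1024 1 0
  0, .n, .n, .n, .n, .n, .g 32 23 0 0, .g 16 13 0 0])))) (.C 2 3 1 1 (.C 1 2
  1 1 (.G 74 2338 4 24268 12134 23510 22751 [.g 1024 1 0 0, .n, .n, .n, .n,
  .n, .g 16 3 0 0, .g 32 7 0 0]) (.C 0 2 1 2 (.G 55 411 0 2864 2696 5729
  2696 [.n, .n, .g 32 15 0 0, .g 64 35 0 0, .n, .n]) (.G 97 8 2 61876 29907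
  16500 28875 [.g 8192 1 0 0, .n, .n, .g 8 1 0 0, .n, .n]))) (.G 38 347 0
  4736 2368 4440 2368 [.g 64 13 0 0, .n, .g 16 3 0 0, .n]))) (.C 0 3 1 1 (.G
  3624 141 1 1 1 1 1 [.g 64 53 0 0, .n, .g 64 7 0 0, .g 64 11 0 0]) (.L
  588))) (.G 1564 141 0 1 1 1 1 [.n, .g 10 67 0 0, .n])) (.L 141)))
  (by decide +kernel)

theorem CN0_c180 : CoN CNTab ⟨⟨1, 1, 4⟩, ⟨2, 3, 8⟩, ⟨3, 3, 8⟩, ⟨1, 0, 0, 0,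
  0⟩, ⟨8, 2, 0, 1, 0⟩, ⟨8, 2, 0, 0, 1⟩, ⟨4, 1, 1, 1, 0⟩⟩ :=
CoN.ofG CNTab_B CNBt_E CNBt_U (.B 2 1 2 (.C 2 3 3 4 (.C 1 2 1 1 (.C 1 2 3 2
  (.L 53) (.C 2 3 3 1 (.L 216) (.L 38))) (.C 2 3 5 1 (.C 1 2 2 3 (.L 988)
  (.C 2 3 10 1 (.P (.ofNat 1) (.ofNat 3)) (.L 63))) (.L 988))) (.C 2 3 1 6
  (.C 2 3 2 1 (.L 53) (.L 16)) (.C 1 3 3 4 (.L 16) (.C 2 3 1 12 (.C 2 3 2 1
  (.L 16) (.B 2 2 1 (.B 1 1 1 (.L 16) (.C 2 3 1 2 (.L 721) (.C 1 3 3 1 (.L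
  721) (.L 205)))) (.L 16))) (.C 1 3 1 8 (.B 2 2 1 (.C 1 2 3 1 (.B 1 1 1 (.L
  205) (.L 34)) (.L 205)) (.C 1 3 2 1 (.L 16) (.L 300))) (.B 2 2 1 (.B 1 1 1
  (.C 2 3 1 24 (.L 300) (.C 2 3 1 48 (.L 817) (.B 0 1 4 (.C 1 2 6 1 (.L 60)
  (.B 1 1 4 (.B 0 2 1 (.L 60) (.C 2 3 1 96 (.L 131) (.L 574))) (.L 60))) (.B
  1 2 1 (.L 131) (.C 1 2 6 1 (.L 60) (.C 2 3 1 96 (.C 0 2 1540 1 (.L 123)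
  (.G 891 115 0 84 84 42 84 [.n, .n, .n, .g 32 13 0 0])) (.L 123))))))) (.C
  2 3 1 24 (.C 0 2 388 1 (.L 614) (.L 300)) (.L 614))) (.C 2 3 1 24 (.L 300)
  (.C 2 3 1 48 (.L 326) (.B 2 1 2 (.B 1 4 1 (.L 131) (.C 1 2 6 1 (.L 60) (.C
  2 3 1 96 (.C 1 3 1 1 (.L 1425) (.B 2 2 1 (.B 1 1 2 (.L 633) (.L 952)) (.L
  633))) (.L 123)))) (.L 131)))))))))) (.C 2 3 3 4 (.C 1 2 1 1 (.C 1 2 3 2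
  (.L 53) (.C 2 3 3 1 (.L 216) (.L 53))) (.C 2 3 5 1 (.C 1 2 2 3 (.L 988)
  (.C 1 2 1 6 (.L 1681) (.C 2 3 10 1 (.P (.ofNat 1) (.ofNat 2)) (.L 678))))
  (.L 988))) (.C 2 3 1 6 (.C 2 3 2 1 (.L 53) (.L 65)) (.C 1 3 3 4 (.L 65)
  (.C 2 3 1 12 (.L 242) (.C 1 3 1 8 (.L 242) (.C 1 3 1 16 (.L 326) (.C 2 3 1
  24 (.L 326) (.C 2 3 1 48 (.L 443) (.C 2 3 1 96 (.L 443) (.C 2 3 1 192 (.L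
  895) (.B 0 2 1 (.B 2 1 4 (.L 895) (.L 606)) (.L 895)))))))))))))
  (by decide +kernel)

theorem CN0_c181 : CoN CNTab ⟨⟨2, 3, 8⟩, ⟨1, 2, 4⟩, ⟨5, 7, 16⟩, ⟨1, 0, 0, 0,
  0⟩, ⟨8, 2, 0, 1, 0⟩, ⟨8, 2, 0, 0, 1⟩, ⟨4, 1, 1, 1, 0⟩⟩ :=
CoN.ofG CNTab_B CNBt_E CNBt_U (.C 0 3 16 1 (.C 0 1 20 1 (.C 2 3 3 2 (.C 1 2
  1 2 (.C 1 2 5 3 (.C 1 3 5 2 (.C 1 2 10 1 (.L 38) (.B 0 1 2 (.L 216) (.B 0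
  1 4 (.L 74) (.C 2 3 1 1 (.C 1 2 1 2 (.L 122) (.B 1 4 1 (.C 2 3 2 1 (.B 0 1
  8 (.L 7) (.C 1 2 1 4 (.L 310) (.B 1 8 1 (.L 343) (.L 7)))) (.L 310)) (.L
  7))) (.L 122))))) (.C 1 2 1 1 (.B 0 1 2 (.C 1 3 2 7 (.L 216) (.L 74)) (.C
  2 3 1 7 (.L 74) (.C 1 3 2 7 (.L 74) (.B 0 1 4 (.L 7) (.B 1 4 1 (.C 1 3 1
  14 (.L 83) (.C 2 3 1 14 (.L 176) (.L 1681))) (.L 7)))))) (.B 0 1 2 (.L 74)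
  (.B 0 1 4 (.L 7) (.B 1 4 1 (.B 0 1 8 (.L 7) (.B 1 8 1 (.B 0 1 16 (.L 7)
  (.B 1 16 1 (.B 0 1 32 (.L 866) (.B 1 32 1 (.C 2 3 2 7 (.C 2 3 4 1 (.C 1 2
  1 2 (.C 2 3 2 1 (.L 310) (.C 1 3 4 1 (.L 310) (.L 57))) (.B 0 1 64 (.L
  403) (.C 1 2 1 4 (.C 2 3 1 1 (.L 639) (.C 1 3 2 1 (.L 639) (.L 57))) (.C 1
  3 1 1 (.L 163) (.C 1 2 1 16 (.L 57) (.L 349)))))) (.C 0 1 792 1 (.C 0 1
  1584 1 (.C 0 3 1508 1 (.C 0 3 3016 1 (.C 0 2 3052 1 (.C 1 2 2 1 (.C 1 3 2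
  1 (.L 310) (.C 2 3 1 2 (.L 1674) (.C 1 3 1 2 (.L 310) (.C 1 3 1 4 (.L 280)
  (.C 2 3 1 4 (.L 321) (.L 49)))))) (.B 0 1 64 (.L 761) (.B 1 64 1 (.C 1 2 1
  2 (.C 1 3 1 2 (.L 369) (.C 2 3 1 4 (.L 990) (.C 1 3 1 4 (.L 880) (.L
  49)))) (.C 1 3 1 4 (.L 990) (.L 49))) (.L 761)))) (.L 866)) (.L 866)) (.L
  866)) (.L 866)) (.L 7))) (.C 0 1 792 1 (.C 0 1 1584 1 (.C 1 3 1 29 (.C 1 3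
  2 1 (.C 0 3 12516 1 (.C 0 2 1508 1 (.C 1 2 1 1 (.L 310) (.C 1 2 1 2 (.L
  280) (.L 3))) (.L 866)) (.L 866)) (.L 1869)) (.L 28)) (.L 866)) (.L 7)))
  (.L 866))) (.L 7))) (.L 7))) (.L 7)))))) (.C 1 2 2 11 (.B 0 1 2 (.L 7) (.B
  0 1 4 (.C 1 2 4 1 (.L 7) (.C 2 3 1 14 (.L 1558) (.L 7))) (.C 1 2 4 1 (.B 1
  4 1 (.B 0 1 8 (.L 7) (.B 1 8 1 (.B 0 1 16 (.L 7) (.B 1 16 1 (.B 0 1 32 (.L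
  12) (.C 1 2 8 1 (.C 1 3 2 7 (.C 1 2 16 1 (.L 49) (.L 28)) (.L 28)) (.L
  624))) (.L 7))) (.L 7))) (.L 7)) (.C 2 3 1 14 (.B 1 4 1 (.C 2 3 2 1 (.B 0
  1 8 (.C 1 2 1 2 (.L 10) (.C 2 3 4 1 (.C 1 3 2 1 (.L 107) (.C 2 3 8 1 (.L
  1864) (.B 1 1 2 (.B 0 2 1 (.L 3618) (.C 1 3 1 2 (.L 182) (.B 1 2 1 (.B 0 1
  2 (.L 14) (.B 1 4 1 (.B 0 1 4 (.L 286) (.C 2 3 1 2 (.L 35) (.C 1 3 1 4 (.L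
  35) (.L 3)))) (.L 246))) (.L 121)))) (.L 10)))) (.B 1 1 2 (.B 0 2 1 (.L
  27) (.C 1 2 2 1 (.C 0 1 6136 1 (.C 0 1 12272 1 (.C 0 1 24544 1 (.C 0 1
  49088 1 (.C 1 2 1 4 (.L 340) (.C 2 3 1 4 (.C 2 3 2 1 (.L 182) (.L 340))
  (.L 340))) (.L 340)) (.L 340)) (.L 10)) (.L 10)) (.C 1 3 1 4 (.C 1 3 2 1
  (.B 1 2 1 (.C 1 2 1 2 (.L 184) (.B 0 1 2 (.L 186) (.C 1 2 1 4 (.C 2 3 1 1
  (.B 1 4 1 (.C 1 2 2 1 (.L 132) (.L 14)) (.L 246)) (.L 254)) (.C 2 3 8 1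
  (.L 3) (.C 1 3 1 1 (.L 14) (.C 2 3 1 2 (.L 14) (.L 254))))))) (.C 0 3
  98352 1 (.C 1 2 1 2 (.L 182) (.L 121)) (.L 27))) (.C 1 2 1 8 (.C 0 3 49168
  1 (.B 1 2 1 (.B 0 1 2 (.L 186) (.C 0 1 98352 1 (.C 1 3 1 2 (.B 1 4 1 (.C 1
  2 1 1 (.C 1 3 2 1 (.L 1063) (.L 121)) (.L 3)) (.L 166)) (.L 3)) (.L 340)))
  (.L 14)) (.L 10)) (.L 3))) (.L 3)))) (.L 10)))) (.C 0 1 3056 1 (.C 2 3 4 1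
  (.C 1 3 2 1 (.C 1 2 1 4 (.C 1 3 4 1 (.B 1 8 1 (.B 1 16 1 (.B 0 1 16 (.L
  1162) (.C 1 2 2 1 (.C 1 3 8 1 (.C 1 2 4 1 (.L 2600) (.L 1357)) (.L 700))
  (.L 1809))) (.L 1162)) (.B 2 2 1 (.L 1052) (.L 233))) (.B 1 8 1 (.C 1 3 1
  2 (.L 1188) (.L 165)) (.L 107))) (.B 1 8 1 (.L 165) (.L 107))) (.C 2 3 8 1
  (.B 1 8 1 (.L 1101) (.L 1864)) (.C 1 3 1 2 (.B 1 8 1 (.L 1101) (.L 1864))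
  (.B 1 8 1 (.C 2 3 1 2 (.C 1 2 1 2 (.B 1 16 1 (.B 0 1 16 (.L 433) (.L 143))
  (.C 2 3 1 2 (.L 1991) (.L 488))) (.B 1 16 1 (.B 0 1 16 (.L 433) (.L 522))
  (.B 1 1 2 (.L 433) (.L 249)))) (.C 1 2 1 1 (.C 1 3 1 4 (.B 1 16 1 (.L 273)
  (.L 488)) (.L 88)) (.L 88))) (.C 2 3 1 2 (.C 2 3 2 1 (.L 405) (.L 14)) (.L
  14)))))) (.C 1 3 1 1 (.B 1 8 1 (.C 1 2 2 1 (.C 1 3 2 1 (.C 1 2 4 1 (.B 0 1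
  16 (.L 233) (.B 1 16 1 (.C 1 3 4 1 (.C 1 2 8 1 (.L 1802) (.L 700)) (.L
  635)) (.L 233))) (.C 1 2 1 2 (.L 1188) (.L 195))) (.C 1 3 1 2 (.L 195) (.B
  0 1 16 (.L 275) (.L 589)))) (.C 1 2 1 2 (.B 0 1 16 (.L 275) (.L 589)) (.C
  1 3 1 4 (.C 1 2 1 4 (.B 1 16 1 (.L 273) (.L 488)) (.L 88)) (.L 88)))) (.C
  1 2 2 1 (.L 27) (.C 2 3 1 1 (.C 1 2 1 2 (.C 0 3 24568 1 (.C 1 3 2 1 (.L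
  1864) (.C 1 3 1 2 (.L 184) (.L 51))) (.L 10)) (.L 14)) (.L 10)))) (.B 1 8
  1 (.L 129) (.L 14)))) (.C 0 2 1 4 (.C 0 3 1 1 (.B 1 8 1 (.C 0 3 2 1 (.B 1
  16 1 (.B 0 1 16 (.L 233) (.G 369 2594 0 2097152 1048576 4194304 8388607
  [.n, .n, .g 64 51 0 0, .n])) (.L 233)) (.C 0 1 1 8 (.C 0 1 2 1 (.C 1 3 1 8
  (.G 1169 1479 0 1052688 4177855 526344 8388607 [.g 64 35 0 0, .n, .g 4 13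
  0 0, .n]) (.G 415 165 2 1048576 8388607 524288 524288 [.n, .n, .g 32 9 0
  0, .n])) (.G 233 561 1 1035928 517964 129491 129491 [.g 1 1 0 0, .n, .n,
  .g 16 3 0 0])) (.L 8))) (.C 2 3 1 1 (.C 2 3 2 1 (.C 2 3 4 1 (.B 1 1 2 (.L
  233) (.G 233 4081 0 522248 261124 1044496 8388607 [.n, .g 3 31 0 0, .g 1
  15 0 0, .n])) (.L 10)) (.L 27)) (.L 27))) (.B 1 8 1 (.L 8) (.G 889 315 0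
  10708 2677 10708 5354 [.n, .n, .n, .n, .n, .n, .g 27 32 0 0, .g 54 65 0
  0]))) (.C 0 3 1 2 (.C 0 2 1 8 (.C 0 1 1 4 (.G 107 56 2 98868 197735 197735
  197735 [.g 64 9 0 0, .g 64 9 0 0, .g 512 1 0 0, .g 32 13 0 0]) (.L 8)) (.L
  3106)) (.L 3106))))) (.B 0 1 8 (.L 10) (.B 1 8 1 (.C 1 3 1 1 (.C 1 2 2 1
  (.B 0 1 16 (.L 10) (.B 1 16 1 (.C 1 3 2 1 (.C 1 2 4 1 (.L 1735) (.C 1 2 1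
  2 (.L 1809) (.L 195))) (.C 2 3 1 2 (.L 196) (.B 1 32 1 (.C 0 2 24448 1 (.C
  1 2 4 1 (.L 2082) (.C 0 3 6104 1 (.C 0 2 48896 1 (.B 0 1 32 (.L 404) (.C 2
  3 1 8 (.C 1 2 1 1 (.L 1297) (.L 1613)) (.L 1297))) (.G 908 346 7 8388607
  8388607 4194304 1048576 [.n, .n, .g 63 64 0 0, .n])) (.L 346))) (.L 346))
  (.L 404)))) (.L 10))) (.C 1 2 1 2 (.C 1 3 1 2 (.C 1 3 2 1 (.C 1 2 2 1 (.L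
  1101) (.C 2 3 2 1 (.B 1 16 1 (.C 1 2 1 2 (.B 0 1 16 (.L 433) (.L 2028))
  (.L 129)) (.B 1 1 2 (.C 0 2 24528 1 (.C 1 2 1 1 (.L 275) (.L 88)) (.L
  191)) (.L 10))) (.L 71))) (.B 0 1 16 (.C 2 3 1 1 (.C 1 2 1 2 (.L 10) (.L
  88)) (.L 10)) (.C 1 2 1 2 (.L 71) (.B 1 16 1 (.C 2 3 1 1 (.L 410) (.L
  2028)) (.C 2 3 1 1 (.L 88) (.L 10)))))) (.C 1 2 1 1 (.B 1 16 1 (.B 0 1 16
  (.L 10) (.C 1 3 1 4 (.L 2028) (.L 410))) (.L 10)) (.L 3))) (.L 3))) (.L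
  3)) (.L 10)))) (.L 1558)) (.C 1 3 1 28 (.L 12) (.L 218)))))) (.C 1 3 1 14
  (.C 1 2 1 21 (.B 0 1 2 (.L 55) (.C 1 3 2 1 (.B 1 4 1 (.C 1 3 4 1 (.B 0 1 4
  (.C 1 2 2 1 (.C 1 3 8 1 (.C 2 3 4 1 (.B 0 2 1 (.B 2 1 2 (.C 1 2 4 1 (.L
  1828) (.L 392)) (.L 55)) (.C 1 3 32 1 (.P (.ofNat 1) (.ofNat 11)) (.L
  392))) (.C 1 2 32 1 (.L 3057) (.B 0 2 1 (.B 2 1 2 (.L 392) (.L 55)) (.L
  392)))) (.C 1 2 1 4 (.C 1 2 2 1 (.L 889) (.L 977)) (.L 977))) (.L 977))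
  (.C 1 2 2 1 (.C 1 2 4 1 (.C 1 3 8 1 (.B 1 8 1 (.B 0 1 8 (.L 182) (.L 82))
  (.L 1864)) (.B 1 8 1 (.B 0 1 8 (.B 0 2 1 (.B 2 1 2 (.C 1 3 1 2 (.C 1 3 2 1
  (.L 254) (.L 286)) (.L 286)) (.L 70)) (.B 0 1 2 (.B 2 2 1 (.C 1 2 1 2 (.C
  1 2 2 1 (.C 1 3 1 2 (.C 1 3 2 1 (.L 254) (.L 1516)) (.L 1516)) (.L 1516))
  (.L 470)) (.L 121)) (.C 1 3 1 2 (.C 1 3 2 1 (.L 132) (.C 2 3 4 1 (.L 132)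
  (.L 14))) (.C 2 3 1 1 (.B 0 1 4 (.L 470) (.L 35)) (.L 3))))) (.C 1 3 1 2
  (.B 1 16 1 (.B 0 1 16 (.L 433) (.L 522)) (.B 1 1 2 (.L 433) (.L 249))) (.C
  1 2 1 4 (.L 88) (.L 483)))) (.B 1 1 2 (.B 0 2 1 (.L 70) (.C 1 3 1 2 (.C 1
  3 2 1 (.L 254) (.L 286)) (.L 286))) (.L 70)))) (.C 1 2 1 2 (.B 1 8 1 (.B 0
  1 8 (.B 0 2 1 (.L 185) (.L 1223)) (.L 934)) (.L 185)) (.L 3))) (.L 3)))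
  (.L 3)) (.B 1 1 2 (.C 1 2 2 1 (.B 0 2 1 (.L 55) (.B 1 2 1 (.C 1 2 4 1 (.C
  2 3 1 2 (.C 2 3 2 1 (.C 1 3 32 1 (.L 1828) (.L 392)) (.L 889)) (.L 652))
  (.L 392)) (.L 4034))) (.L 218)) (.L 909))) (.L 3))) (.L 475)) (.L 475))))
  (.C 1 2 2 7 (.C 1 2 4 1 (.B 0 1 2 (.L 494) (.L 218)) (.B 0 1 2 (.L 678)
  (.L 73))) (.B 0 1 2 (.C 2 3 5 1 (.P (.ofNat 1) (.ofNat 3)) (.L 97)) (.C 2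
  3 5 1 (.P (.ofNat 1) (.ofNat 3)) (.L 73))))) (.C 2 3 2 7 (.C 2 3 4 1 (.C 1
  2 5 2 (.L 38) (.C 2 3 8 1 (.B 0 1 2 (.C 1 2 2 7 (.L 216) (.L 494)) (.C 1 2
  2 7 (.L 74) (.C 1 2 1 14 (.L 1863) (.L 218)))) (.L 122))) (.C 2 3 1 2 (.L
  38) (.L 16))) (.C 1 3 3 4 (.C 1 3 6 1 (.L 16) (.C 2 3 3 5 (.L 53) (.C 2 3
  1 10 (.L 16) (.C 1 3 1 2 (.L 16) (.B 0 1 2 (.B 2 1 2 (.C 1 3 1 4 (.L 16)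
  (.L 1046)) (.L 65)) (.C 1 3 1 4 (.L 413) (.L 610))))))) (.B 0 1 2 (.B 2 1
  2 (.L 34) (.C 2 3 1 13 (.L 16) (.C 1 3 1 8 (.L 205) (.C 2 3 1 26 (.L 205)
  (.B 0 2 1 (.B 2 1 4 (.L 60) (.L 131)) (.L 60)))))) (.L 34))))) (.C 2 3 3 2
  (.C 0 2 1 2 (.C 0 1 1 2 (.C 0 2 5 3 (.C 0 1 2 1 (.C 0 3 5 2 (.C 0 2 10 1
  (.L 38) (.C 1 2 5 2 (.L 38) (.G 204 56 2 32 65 16 16 [.g 64 7 0 0, .n, .n,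
  .n, .n, .n]))) (.G 38 56 2 2291 932 2252 621 [.n, .n, .g 27 32 0 0, .n]))
  (.G 56 38 2 596 298 1454 410 [.n, .n, .g 16 7 0 0, .n])) (.L 56)) (.L 8))
  (.L 8)) (.C 2 3 2 7 (.C 0 1 1 2 (.C 0 1 2 1 (.B 1 4 1 (.G 16 56 2 166 664
  446 1763 [.n, .n, .g 64 9 0 0, .g 64 21 0 0, .n]) (.C 2 3 4 1 (.G 38 347 0
  163 650 437 3353 [.n, .n, .g 64 27 0 0, .n]) (.G 38 53 1 28781 115123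
  593601 305795 [.g 64 19 0 0, .n, .n, .n]))) (.G 316 56 2 38 19 26 101 [.g
  16 7 0 0, .g 32 5 0 0, .n, .n, .n, .n])) (.C 1 3 21 1 (.L 8) (.G 53 56 2
  91 957 125 481 [.n, .g 53 64 0 0, .n, .n]))) (.C 1 3 3 2 (.L 16) (.C 0 3 3
  4 (.G 3010 16 1 10237 31992 108772 63344 [.g 27 65 0 0, .g 47 64 0 0, .n,
  .n, .n, .n, .n, .n]) (.C 1 3 1 4 (.C 0 2 5 3 (.B 0 1 2 (.G 242 1290 1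
  28422 14211 287777 29311 [.n, .g 32 63 0 0, .n, .n, .n]) (.G 413 610 3
  35117 17558 355555 36214 [.g 64 5 0 0, .g 16 3 0 0, .g 8 7 0 0, .n])) (.C
  2 3 3 5 (.L 16) (.C 1 3 2 1 (.G 16 115 0 640 32 646 128 [.n, .g 64 9 0 0,
  .n, .n, .n]) (.G 34 16 1 344187 69270 348516 34635 [.n, .n, .g 64 39 0 0,
  .n])))) (.B 0 1 2 (.B 2 1 2 (.L 34) (.C 2 3 1 13 (.L 16) (.C 0 3 1 8 (.L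
  205) (.C 2 3 1 26 (.L 205) (.G 131 34 2 857419 428710 2844454 54439 [.n,
  .g 64 11 0 0, .g 3 62 0 0, .g 3 67 0 0, .n, .n, .n, .n]))))) (.L
  34)))))))) (.C 0 2 2 3 (.C 0 1 2 3 (.C 0 3 1 2 (.C 0 2 7 2 (.C 0 1 4 1 (.B
  0 1 2 (.B 2 1 2 (.L 34) (.C 0 2 13 1 (.B 0 2 1 (.C 0 2 26 1 (.G 131 34 2
  101122 796334 5283616 202244 [.n, .g 64 15 0 0, .g 2 53 0 0, .g 1 29 0 0,
  .n, .n, .n, .n]) (.C 2 3 1 13 (.G 242 780 1 61868 9339 30934 61868 [.n, .g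
  29 32 0 0, .n, .n, .n]) (.C 0 3 1 26 (.L 780) (.B 2 1 4 (.G 285 347 0 1480
  112 742 28 [.n, .n, .g 64 11 0 0, .n]) (.L 8))))) (.G 115 34 2 8 63 210 16
  [.g 1 6 0 0, .n, .n, .n])) (.C 0 3 1 13 (.G 205 242 1 55423 16731 28234
  110846 [.g 64 15 0 0, .g 32 25 0 0, .n, .n, .n, .n]) (.G 959 30 3 1089 164
  276 42 [.n, .n, .n, .g 64 17 0 0])))) (.L 34)) (.G 34 30 3 69 34 116 18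
  [.g 64 3 0 0, .g 16 5 0 0, .g 32 13 0 0, .n])) (.B 2 1 2 (.C 0 1 2 7 (.B 1
  4 1 (.L 30) (.C 0 2 1 4 (.C 2 3 1 13 (.G 53 109 0 1439 5846 2788 5576 [.n,
  .g 64 11 0 0, .n, .n]) (.L 34)) (.G 115 944 2 1 1 1 1 [.g 11 16 0 0, .n,
  .n, .g 33 64 0 0]))) (.L 944)) (.L 56))) (.G 944 411 1 1 1 1 1 [.g 39 64 0
  0, .n, .n, .g 16 7 0 0])) (.L 411)) (.G 66 141 2 1 1 1 1 [.n, .n, .n, .g 1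
  3 3529 0]))) (by decide +kernel)

theorem CN0_c182 : CoN CNTab ⟨⟨2, 3, 8⟩, ⟨5, 7, 16⟩, ⟨3, 3, 8⟩, ⟨1, 0, 0, 0,
  0⟩, ⟨8, 2, 0, 1, 0⟩, ⟨8, 2, 0, 0, 1⟩, ⟨4, 1, 1, 1, 0⟩⟩ :=
CoN.ofG CNTab_B CNBt_E CNBt_U (.C 0 1 20 1 (.C 2 3 3 4 (.C 1 2 1 2 (.C 2 3 4
  3 (.C 1 2 5 3 (.C 1 2 10 1 (.L 38) (.L 216)) (.C 1 2 2 11 (.L 55) (.L
  806))) (.L 38)) (.C 2 3 5 1 (.C 1 2 2 7 (.L 63) (.C 2 3 10 1 (.P (.ofNat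
  1) (.ofNat 2)) (.L 63))) (.L 138))) (.C 2 3 1 6 (.C 2 3 2 1 (.C 2 3 4 1
  (.L 38) (.L 53)) (.L 16)) (.C 1 3 2 5 (.C 1 3 4 1 (.L 16) (.C 2 3 4 5 (.B
  0 2 1 (.L 65) (.C 2 3 8 1 (.L 65) (.B 0 1 2 (.L 65) (.L 287)))) (.C 1 2 5
  1 (.C 1 3 1 2 (.C 1 3 2 1 (.L 16) (.L 721)) (.B 0 2 1 (.B 2 1 1 (.L 610)
  (.L 16)) (.L 1553))) (.B 0 2 1 (.B 2 1 1 (.L 34) (.L 16)) (.L 2022)))))
  (.C 2 3 1 12 (.C 2 3 2 1 (.C 1 2 5 4 (.B 0 2 1 (.B 2 1 1 (.L 721) (.L 16))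
  (.L 721)) (.B 0 2 1 (.L 65) (.C 1 2 1 8 (.L 287) (.C 2 3 4 1 (.L 65) (.L
  287))))) (.C 1 2 5 1 (.L 205) (.C 2 3 1 2 (.B 0 2 1 (.B 2 1 1 (.L 721) (.L
  16)) (.L 721)) (.L 205)))) (.C 1 3 1 10 (.C 1 3 2 1 (.L 205) (.C 1 2 3 5
  (.L 300) (.C 2 3 4 5 (.B 2 1 1 (.L 205) (.B 0 2 1 (.L 300) (.L 205))) (.L
  300)))) (.C 2 3 1 24 (.C 1 2 5 4 (.L 300) (.C 0 3 772 1 (.C 2 3 4 1 (.B 2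
  1 1 (.L 205) (.B 0 2 1 (.L 300) (.L 205))) (.L 300)) (.L 300))) (.B 2 1 1
  (.L 60) (.B 0 2 1 (.B 2 1 2 (.C 1 2 5 2 (.L 123) (.C 0 2 772 1 (.L 123)
  (.G 131 1351 0 4119596 8388607 2059798 42690 [.n, .n, .g 3 76 0 0, .g 1 29
  0 0, .n, .n, .n, .n]))) (.B 0 4 1 (.L 633) (.C 1 2 5 2 (.L 123) (.C 0 2
  772 1 (.L 123) (.G 131 1933 3 4119596 8388607 2059798 42690 [.n, .n, .g 1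
  37 0 0, .g 1 41 0 0, .n, .n, .n, .n]))))) (.L 60))))))))) (.C 0 3 2 5 (.C
  0 1 1 2 (.C 0 2 1 2 (.C 2 3 7 3 (.C 1 2 5 6 (.L 38) (.C 0 2 5 3 (.G 216 38
  2 69084 1355772 677886 1601883 [.n, .g 2 1 0 0, .n, .n]) (.C 2 3 13 1 (.G
  208 806 0 11991 23982 2205 53891 [.g 7 16 0 0, .g 3 4 0 0, .n, .n, .n, .n,
  .n, .n]) (.L 216)))) (.C 2 3 1 6 (.L 16) (.G 3112 242 1 7497 14994 353755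
  29987 [.g 25 32 0 0, .g 3 13 0 0, .g 11 16 0 0, .n]))) (.B 1 1 2 (.L 8)
  (.C 2 3 8 1 (.B 2 1 1 (.B 2 2 1 (.B 1 1 4 (.L 66) (.G 56 152 0 58 64 16
  211 [.g 1 481 0 0, .g 1 256 0 0, .n, .n])) (.L 66)) (.L 66)) (.B 2 1 1 (.C
  2 3 3 5 (.G 138 56 1 16 18 59 348 [.g 64 13 0 0, .n, .n, .n, .n, .n, .n,
  .n]) (.C 0 3 7 3 (.G 138 56 1 8 9 174 103 [.g 32 13 0 0, .n, .n, .n, .n,
  .n, .n, .n]) (.C 0 3 1 6 (.L 53) (.C 2 3 1 10 (.L 53) (.G 34 242 1 271568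
  11495 455487 22990 [.n, .g 4 7 0 0, .n, .n]))))) (.L 8))))) (.C 2 3 8 1
  (.L 550) (.C 1 3 8 1 (.L 8) (.C 2 3 3 5 (.L 8) (.B 2 1 1 (.C 1 3 1 2 (.L
  8) (.C 2 3 1 10 (.L 8) (.G 34 16 1 17563 140504 695932 35126 [.g 64 9 0 0,
  .g 29 63 0 0, .n, .n]))) (.L 8)))))) (.C 2 3 3 4 (.C 0 2 1 8 (.C 0 1 1 8
  (.C 0 3 2 3 (.C 0 2 5 3 (.C 0 3 4 1 (.G 34 3522 0 19 38 188 151 [.n, .g 55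
  64 0 0, .g 64 21 0 0, .n]) (.L 8)) (.L 8)) (.L 8)) (.L 8)) (.L 688)) (.C 0
  2 2 3 (.G 34 481 2 40 5 155 4 [.g 32 1 0 0, .g 64 23 0 0, .g 16 3 0 0,
  .n]) (.L 481))))) (by decide +kernel)

theorem CN0_c183 : CoN CNTab ⟨⟨1, 1, 8⟩, ⟨0, 1, 4⟩, ⟨1, 1, 4⟩, ⟨1, 0, 0, 0,
  0⟩, ⟨8, 2, 0, 1, 0⟩, ⟨8, 2, 0, 0, 1⟩, ⟨4, 1, 1, 1, 0⟩⟩ :=
CoN.ofG CNTab_B CNBt_E CNBt_U (.B 1 1 1 (.B 0 1 2 (.C 0 3 16 1 (.C 2 3 3 2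
  (.C 1 2 1 1 (.L 53) (.B 2 1 1 (.L 699) (.L 1638))) (.C 2 3 2 7 (.C 2 3 4 1
  (.L 53) (.L 65)) (.C 1 3 3 2 (.L 65) (.C 2 3 1 13 (.L 217) (.C 1 3 1 4 (.L
  235) (.C 1 3 1 8 (.L 217) (.L 13))))))) (.C 0 3 1 2 (.C 0 1 2 3 (.C 0 2 2
  3 (.G 13 48 3 8 31 27 16 [.g 64 5 0 0, .n, .n, .n, .n, .n]) (.G 2498 2088
  3 1 1 1 1 [.n, .n, .g 1 0 2079 0, .n])) (.L 2037)) (.L 2037))) (.C 0 3 16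
  1 (.C 0 1 20 1 (.C 0 2 20 1 (.B 1 2 1 (.B 0 1 4 (.C 0 1 40 1 (.C 0 3 32 1
  (.C 0 2 40 1 (.B 0 2 1 (.C 0 1 80 1 (.B 2 1 1 (.L 48) (.C 0 3 64 1 (.C 0 2
  80 1 (.B 0 4 1 (.C 0 1 160 1 (.C 0 2 160 1 (.C 0 3 128 1 (.B 2 1 2 (.C 0 1
  320 1 (.B 2 2 1 (.L 48) (.C 0 3 256 1 (.C 0 2 320 1 (.B 0 2 1 (.C 0 1 640
  1 (.B 2 1 2 (.L 48) (.C 0 3 512 1 (.C 0 2 640 1 (.B 0 4 1 (.C 0 2 1280 1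
  (.C 0 2 2560 1 (.C 0 3 1024 1 (.C 0 3 2048 1 (.C 0 1 1280 1 (.C 0 1 2560 1
  (.B 2 1 4 (.L 140) (.C 0 1 5120 1 (.B 0 8 1 (.B 2 1 8 (.L 140) (.B 0 16 1
  (.B 2 1 16 (.L 206) (.C 2 3 3 4 (.C 1 2 1 2 (.L 53) (.L 787)) (.C 1 3 2 5
  (.L 235) (.L 1037)))) (.L 206))) (.L 140)) (.L 206))) (.L 206)) (.L 206))
  (.L 206)) (.L 206)) (.L 206)) (.L 140)) (.L 140)) (.L 140)) (.L 140))) (.L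
  48)) (.L 48)) (.L 48)) (.L 48))) (.L 48)) (.B 0 8 1 (.C 0 1 320 1 (.C 0 2
  320 1 (.C 2 3 2 5 (.C 1 2 1 1 (.L 65) (.L 1000)) (.C 1 3 2 5 (.L 235) (.L
  1037))) (.B 2 1 4 (.C 0 3 2 5 (.C 0 1 1 1 (.L 1000) (.C 1 2 1 2 (.G 53 140
  2 1648 824 1648 3296 [.n, .n, .n, .g 21 64 0 0]) (.L 1000))) (.L 140)) (.C
  0 3 2 5 (.G 257 65 3 323413 323413 161706 1283544 [.n, .n, .n, .n, .g 16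
  63 0 0, .g 3 13 0 0, .n, .n]) (.C 2 3 3 4 (.G 734 65 3 2481517 625264
  312632 1914872 [.n, .n, .n, .n, .g 1 4 0 0, .g 5 22 0 0]) (.G 235 13 0
  801476 201629 620010 80652 [.n, .n, .g 2 79 0 0, .n]))))) (.B 2 1 4 (.L
  140) (.C 0 1 1 2 (.C 0 1 2 1 (.B 0 16 1 (.C 2 3 3 4 (.G 257 65 3 712479
  2849917 356240 2181968 [.n, .n, .n, .n, .g 5 21 0 0, .g 14 65 0 0, .n,
  .n]) (.G 235 13 0 216645 866581 666184 86658 [.n, .n, .g 1 40 0 0, .n]))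
  (.G 65 473 1 4898 19594 2449 1959 [.n, .g 64 47 0 0, .n, .g 64 35 0 0]))
  (.L 385)) (.L 385)))) (.C 0 1 320 1 (.C 0 3 256 1 (.C 0 2 320 1 (.B 1 1 2
  (.L 1607) (.C 0 1 640 1 (.B 0 1 1 (.B 2 4 1 (.C 0 3 512 1 (.C 0 2 640 1
  (.C 2 3 3 4 (.C 1 2 1 1 (.L 53) (.L 787)) (.C 2 3 1 8 (.L 235) (.C 1 3 3 4
  (.L 235) (.C 1 3 1 8 (.L 235) (.L 13))))) (.L 140)) (.L 140)) (.C 0 2 640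
  1 (.C 0 3 512 1 (.C 2 3 3 4 (.C 1 2 1 1 (.L 53) (.L 787)) (.C 2 3 1 8 (.L
  235) (.C 1 3 3 4 (.L 235) (.C 2 3 1 16 (.L 235) (.L 831))))) (.B 2 1 2 (.B
  0 1 2 (.C 2 3 2 5 (.C 2 3 4 1 (.B 2 2 1 (.C 1 2 1 1 (.L 140) (.C 0 2 4 3
  (.G 65 140 2 6187 15467 47946 61480 [.n, .g 21 65 0 0, .n, .n]) (.L 787)))
  (.B 1 1 1 (.L 1607) (.C 0 2 4 3 (.C 0 3 10 1 (.G 13 235 2 88643 110804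
  686985 1767325 [.g 32 1 0 0, .n, .n, .n, .n, .n]) (.L 65)) (.G 65 1607 3
  12741 2059 2059 16473 [.n, .n, .n, .g 10 61 0 0])))) (.G 13 140 2 31 39
  309 156 [.g 16 63 0 0, .n, .n, .n, .n, .n])) (.G 13 140 2 33 41 164 16 [.g
  17 63 0 0, .n, .n, .n, .n, .n])) (.L 140)) (.L 1607))) (.G 1000 473 1
  46766 46766 23383 18706 [.n, .n, .n, .n, .g 3 7 0 0, .g 3 8 0 0, .n,
  .n]))) (.C 0 3 512 1 (.C 0 2 640 1 (.C 0 2 1280 1 (.C 0 3 1024 1 (.C 0 3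
  2048 1 (.C 0 1 1280 1 (.C 0 1 2560 1 (.C 2 3 3 2 (.C 1 2 1 2 (.L 53) (.L
  787)) (.C 2 3 1 4 (.L 65) (.C 2 3 1 8 (.L 235) (.C 1 3 3 4 (.L 235) (.C 1
  3 1 8 (.L 235) (.L 13)))))) (.L 140)) (.L 140)) (.L 140)) (.L 140)) (.L
  140)) (.L 140)) (.L 140))) (.L 1095))) (.L 140)) (.L 140)) (.L 48)))) (.L
  385)) (.L 473)) (.L 140)) (.L 48)) (.L 48)) (.L 48))) (.L 48)) (.L 48))
  (.L 48)) (.L 48)) (.L 5)) (.L 48)) (.C 0 1 40 1 (.C 0 3 32 1 (.C 0 2 40 1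
  (.C 2 3 3 4 (.C 1 2 1 1 (.L 53) (.L 476)) (.C 2 3 1 7 (.C 2 3 2 1 (.L
  2760) (.L 235)) (.C 1 3 3 4 (.L 235) (.C 1 3 1 8 (.L 235) (.L 13))))) (.B
  1 1 2 (.L 48) (.B 2 2 1 (.G 476 217 3 2151404 2151404 1075702 1748015 [.g
  256 1 0 0, .n, .n, .n, .g 9 64 0 0, .g 8 65 0 0, .n, .n]) (.L 140)))) (.B
  1 1 2 (.L 48) (.B 2 2 1 (.G 257 217 3 769764 962205 481103 384882 [.g 256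
  1 0 0, .n, .n, .n, .g 9 64 0 0, .g 4 31 0 0, .n, .n]) (.L 48)))) (.B 1 1 2
  (.L 48) (.C 0 1 1 2 (.B 2 2 1 (.C 0 3 2 5 (.C 0 2 1 2 (.B 1 1 4 (.L 47)
  (.C 2 3 2 1 (.G 53 48 0 629 1258 1180 4798 [.n, .g 64 15 0 0, .n, .n]) (.L
  217))) (.L 47)) (.L 47)) (.L 48)) (.L 48))))) (.L 688)) (.L 493)) (.L
  66))) (.B 2 2 1 (.C 2 3 3 4 (.C 1 2 1 1 (.L 53) (.C 2 3 5 1 (.C 1 2 2 3
  (.L 407) (.C 2 3 10 1 (.P (.ofNat 1) (.ofNat 3)) (.L 63))) (.L 53))) (.C 2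
  3 1 6 (.L 65) (.L 217))) (.C 2 3 3 4 (.C 1 2 1 1 (.L 53) (.C 2 3 5 1 (.C 1
  2 2 3 (.L 407) (.C 2 3 10 1 (.P (.ofNat 1) (.ofNat 3)) (.L 3778))) (.L
  53))) (.C 0 3 16 1 (.C 2 3 1 3 (.L 65) (.C 1 3 3 2 (.L 65) (.C 2 3 1 6 (.L
  235) (.C 1 3 1 4 (.L 235) (.C 1 3 1 8 (.L 217) (.L 13)))))) (.C 0 3 1 2
  (.C 0 1 2 3 (.G 217 13 0 216798 840093 677494 433596 [.n, .n, .g 1 21 0 0,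
  .g 7 63 3 0]) (.L 48)) (.L 1525)))))) (by decide +kernel)

end Pool.Agent.TET.Cvr
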