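import Pool.Agent.Helper37_TET.CNBt

/-!
# MP_c7c9bf_co: cover of the charts, root 0 part 9
-/

set_option autoImplicit false
set_option maxRecDepth 100000

namespace Pool.Agent.TET.Cvr

theorem CN0_c184 : CoN CNTab ⟨⟨0, 0, 1⟩, ⟨0, 1, 8⟩, ⟨1, 1, 8⟩, ⟨1, 0, 0, 0,
  0⟩, ⟨8, 2, 0, 1, 0⟩, ⟨8, 2, 0, 0, 1⟩, ⟨4, 1, 1, 1, 0⟩⟩ :=
CoN.ofG CNTab_B CNBt_E CNBt_U (.B 2 1 8 (.C 2 3 3 4 (.C 1 2 1 1 (.L 65) (.C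
  2 3 5 1 (.B 0 1 2 (.L 407) (.L 1638)) (.L 65))) (.C 2 3 1 6 (.L 235) (.C 0
  1 20 1 (.C 0 3 16 1 (.C 1 3 3 4 (.L 235) (.C 2 3 1 6 (.L 235) (.C 2 3 1 12
  (.L 1900) (.C 1 3 1 8 (.L 1900) (.C 2 3 1 24 (.L 1510) (.C 1 3 1 16 (.L
  1510) (.B 2 2 1 (.B 1 1 1 (.B 1 2 1 (.B 0 1 4 (.L 13) (.C 0 3 32 1 (.C 2 3
  1 24 (.L 2434) (.C 0 1 1016 1 (.C 2 3 1 48 (.L 653) (.C 1 3 1 32 (.L 653)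
  (.B 1 4 1 (.B 0 1 8 (.L 13) (.L 5)) (.L 13)))) (.L 5))) (.L 5))) (.L 13))
  (.L 13)) (.C 2 3 1 48 (.C 1 3 3 1 (.L 3569) (.C 1 2 1 4 (.C 1 3 1 2 (.L
  2545) (.C 2 3 1 4 (.L 1415) (.C 1 3 1 4 (.L 1415) (.B 2 1 2 (.L 653) (.B 2
  1 4 (.L 653) (.L 1772)))))) (.C 2 3 2 1 (.L 1510) (.C 2 3 1 2 (.L 2754)
  (.C 1 3 1 4 (.L 2754) (.B 1 4 1 (.B 2 1 4 (.B 1 8 1 (.L 2626) (.L 13)) (.L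
  1772)) (.B 2 1 2 (.L 13) (.B 0 4 1 (.B 2 1 4 (.L 3825) (.L 1772)) (.L
  13))))))))) (.C 2 3 1 96 (.B 2 1 2 (.L 1927) (.C 1 2 3 1 (.C 1 3 6 1 (.L
  1766) (.C 1 3 1 2 (.L 264) (.C 2 3 1 1 (.L 264) (.C 1 3 1 4 (.L 4040) (.B
  2 1 4 (.L 1041) (.L 3016)))))) (.C 1 2 1 2 (.C 2 3 1 2 (.L 4040) (.C 1 3 1
  1 (.L 4040) (.B 1 8 1 (.L 3016) (.B 2 1 4 (.L 13) (.L 3016))))) (.B 2 1 4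
  (.L 653) (.L 1772))))) (.C 2 3 1 192 (.C 1 2 6 1 (.C 1 3 12 1 (.L 1766)
  (.C 1 3 1 2 (.L 264) (.C 2 3 1 1 (.L 264) (.C 1 3 1 4 (.L 862) (.C 2 3 1 2
  (.L 862) (.B 2 1 2 (.B 1 4 1 (.B 0 1 8 (.L 13) (.C 1 3 1 8 (.L 828) (.B 1
  8 1 (.B 0 1 16 (.L 1677) (.L 5)) (.L 13)))) (.L 13)) (.C 1 3 1 8 (.L 1352)
  (.C 2 3 1 4 (.L 1352) (.B 1 8 1 (.L 1165) (.B 2 1 4 (.L 13) (.L
  1165))))))))))) (.C 1 2 1 2 (.C 2 3 1 2 (.L 862) (.C 1 3 1 1 (.L 862) (.C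
  1 3 1 2 (.L 862) (.B 2 1 2 (.B 1 4 1 (.B 1 8 1 (.B 0 1 8 (.L 13) (.B 0 1
  16 (.L 1677) (.L 5))) (.L 13)) (.L 13)) (.C 1 3 1 4 (.L 1352) (.C 2 3 1 4
  (.L 3528) (.B 1 8 1 (.B 2 1 8 (.L 1421) (.L 145)) (.B 2 1 4 (.L 13) (.B 0
  8 1 (.L 2242) (.L 966)))))))))) (.C 2 3 2 1 (.B 2 1 2 (.L 653) (.B 2 1 4
  (.L 653) (.L 2801))) (.B 2 1 2 (.C 1 3 1 2 (.L 653) (.B 1 4 1 (.B 0 1 8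
  (.L 13) (.C 0 2 24588 1 (.C 0 3 12292 1 (.B 1 8 1 (.B 0 1 16 (.L 1677) (.L
  5)) (.L 13)) (.L 5)) (.L 5))) (.L 13))) (.B 1 8 1 (.C 1 3 1 2 (.L 3266)
  (.B 2 1 8 (.B 1 16 1 (.L 703) (.L 1677)) (.L 145))) (.B 2 1 4 (.L 13) (.C
  1 3 1 2 (.L 3266) (.B 0 8 1 (.L 2242) (.L 1677))))))))) (.C 2 3 1 384 (.C
  1 2 12 1 (.C 1 3 24 1 (.L 1766) (.C 1 3 1 2 (.L 264) (.C 1 3 1 4 (.L 862)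
  (.C 2 3 1 1 (.L 862) (.C 2 3 1 2 (.L 862) (.C 1 3 1 8 (.L 3313) (.B 1 4 1
  (.C 2 3 1 4 (.L 828) (.B 1 8 1 (.L 3906) (.B 2 1 4 (.L 13) (.L 3906))))
  (.B 2 1 2 (.L 13) (.B 2 1 4 (.L 13) (.B 0 4 1 (.C 2 3 1 4 (.L 2882) (.L
  2504)) (.L 13))))))))))) (.C 1 2 1 2 (.C 2 3 1 2 (.L 862) (.C 1 3 1 1 (.L
  862) (.C 1 3 1 2 (.L 862) (.B 1 4 1 (.C 2 3 1 4 (.L 828) (.C 1 3 1 4 (.L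
  828) (.B 1 8 1 (.B 2 1 8 (.L 1293) (.L 145)) (.B 2 1 4 (.L 13) (.B 0 8 1
  (.L 2504) (.L 966)))))) (.B 2 1 2 (.L 13) (.B 2 1 4 (.L 13) (.B 0 4 1 (.B
  0 8 1 (.B 2 1 8 (.L 966) (.L 145)) (.L 966)) (.L 13)))))))) (.B 1 4 1 (.B
  1 8 1 (.B 2 1 8 (.C 0 2 12292 1 (.C 0 1 49068 1 (.C 0 3 24580 1 (.B 1 16 1
  (.L 703) (.L 264)) (.L 5)) (.L 5)) (.L 5)) (.L 145)) (.B 2 1 4 (.L 13) (.B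
  0 8 1 (.B 2 1 8 (.L 264) (.L 145)) (.L 264)))) (.B 2 1 2 (.L 13) (.B 0 4 1
  (.B 2 1 4 (.L 13) (.B 0 8 1 (.B 2 1 8 (.L 264) (.L 145)) (.L 264))) (.L
  13)))))) (.C 2 3 1 768 (.B 2 1 2 (.B 1 4 1 (.B 1 8 1 (.B 0 1 8 (.L 13) (.C
  0 1 1016 1 (.C 0 2 24580 1 (.C 0 3 49156 1 (.B 0 1 16 (.L 1766) (.L 5))
  (.L 5)) (.L 5)) (.L 5))) (.L 13)) (.L 13)) (.C 1 2 24 1 (.C 1 3 48 1 (.L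
  1766) (.C 1 3 1 2 (.L 264) (.C 2 3 1 1 (.L 264) (.C 1 3 1 4 (.L 862) (.C 2
  3 1 2 (.L 862) (.C 1 3 1 8 (.L 828) (.C 2 3 1 4 (.L 828) (.B 1 8 1 (.L
  966) (.B 2 1 4 (.L 13) (.L 966)))))))))) (.C 1 2 1 2 (.C 1 3 1 1 (.L 264)
  (.C 2 3 1 2 (.L 862) (.C 1 3 1 2 (.L 862) (.C 1 3 1 4 (.L 828) (.C 2 3 1 4
  (.L 828) (.B 1 8 1 (.L 966) (.B 2 1 4 (.L 13) (.L 966)))))))) (.B 1 8 1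
  (.B 2 1 8 (.B 1 16 1 (.L 703) (.L 264)) (.L 145)) (.B 2 1 4 (.L 13) (.B 2
  1 8 (.L 264) (.B 0 8 1 (.L 145) (.L 264)))))))) (.B 2 1 2 (.B 1 4 1 (.B 1
  8 1 (.B 0 1 8 (.L 13) (.C 0 1 1016 1 (.C 0 2 49156 1 (.C 0 3 32 1 (.B 0 1
  16 (.L 1766) (.L 5)) (.L 5)) (.L 5)) (.L 5))) (.L 13)) (.L 13)) (.C 1 3 1
  32 (.C 1 2 48 1 (.L 1766) (.C 2 3 1 24 (.C 1 2 1 2 (.L 264) (.C 2 3 2 1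
  (.C 1 2 1 4 (.L 862) (.C 2 3 4 1 (.C 1 2 1 8 (.L 828) (.B 1 8 1 (.L 966)
  (.B 2 1 4 (.L 13) (.L 966)))) (.L 828))) (.L 862))) (.L 264))) (.C 2 3 1
  1536 (.C 1 2 24 1 (.C 1 3 48 1 (.L 264) (.C 1 3 1 2 (.L 1034) (.C 2 3 1 1
  (.L 1034) (.C 1 3 1 4 (.L 828) (.C 2 3 1 2 (.L 828) (.C 0 3 98308 1 (.C 0
  3 196616 1 (.C 1 3 1 2 (.L 1352) (.C 2 3 1 1 (.L 1352) (.B 1 8 1 (.B 2 1 8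
  (.B 1 16 1 (.L 145) (.L 264)) (.L 145)) (.B 2 1 4 (.L 13) (.B 2 1 8 (.L
  1165) (.B 0 8 1 (.L 145) (.L 264))))))) (.B 2 1 4 (.B 1 8 1 (.B 0 1 16 (.L
  264) (.G 966 1805 0 4194304 8388607 4194304 2097152 [.n, .n, .g 17 65 0 0,
  .n])) (.L 13)) (.G 1546 1293 2 4194304 8388607 4194304 2097152 [.n, .n,
  .n, .g 64 21 0 0]))) (.B 1 8 1 (.G 1254 1805 0 2097152 8388607 4194304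
  1048576 [.n, .n, .g 17 32 0 0, .n]) (.B 2 1 4 (.L 13) (.B 2 1 8 (.L 1165)
  (.G 1805 1254 2 2097152 8388607 4194304 1048576 [.g 32 17 0 0, .n, .n,
  .n])))))))))) (.C 1 2 1 2 (.C 1 3 1 1 (.L 862) (.C 2 3 1 2 (.L 828) (.C 1
  3 1 2 (.L 828) (.C 0 3 98308 1 (.C 0 3 196616 1 (.C 2 3 1 1 (.L 1415) (.C
  1 3 1 1 (.L 1415) (.B 1 8 1 (.B 2 1 8 (.B 1 16 1 (.L 145) (.L 264)) (.L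
  145)) (.B 2 1 4 (.L 13) (.C 2 3 1 2 (.L 1894) (.B 0 8 1 (.B 2 1 8 (.L 264)
  (.L 145)) (.L 264))))))) (.B 1 8 1 (.G 1546 1293 2 8388607 8388607 8388607
  4194304 [.n, .n, .n, .g 64 29 0 0]) (.B 2 1 4 (.L 13) (.G 2289 966 2
  8388607 8388607 8388607 4194304 [.n, .n, .n, .n, .g 7 65 0 0, .g 7 66 0
  0])))) (.B 1 8 1 (.G 966 1805 0 4194304 8388607 8388607 2097152 [.n, .n,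
  .g 17 66 0 0, .n]) (.B 2 1 4 (.L 13) (.B 2 1 8 (.L 1165) (.G 966 1805 0
  4194304 8388607 8388607 2097152 [.n, .n, .g 17 66 0 0, .n])))))))) (.B 2 1
  4 (.B 1 8 1 (.B 0 1 16 (.L 264) (.C 0 1 196428 1 (.C 0 2 49156 1 (.C 0 3
  98308 1 (.B 1 16 1 (.L 145) (.L 264)) (.L 5)) (.L 5)) (.L 5))) (.L 13))
  (.B 2 1 8 (.B 1 16 1 (.L 145) (.L 264)) (.L 145))))) (.C 2 3 1 3072 (.C 1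
  2 48 1 (.C 1 3 96 1 (.L 264) (.C 1 3 1 2 (.L 1034) (.C 2 3 1 1 (.L 1034)
  (.C 1 3 1 4 (.L 828) (.C 2 3 1 2 (.L 828) (.C 0 3 196612 1 (.C 0 3 393224
  1 (.C 1 3 1 2 (.L 1352) (.C 2 3 1 1 (.L 1352) (.B 1 8 1 (.B 2 1 8 (.B 1 16
  1 (.L 145) (.L 264)) (.L 145)) (.B 2 1 4 (.L 13) (.B 0 8 1 (.B 2 1 8 (.L
  13) (.L 145)) (.L 13)))))) (.B 2 1 4 (.B 1 8 1 (.B 0 1 16 (.L 264) (.G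
  3953 1254 2 4194304 8388607 4194304 2097152 [.n, .n, .n, .n, .g 1 2 68 0,
  .g 1 2 70 0, .n, .n])) (.L 13)) (.G 1546 1254 2 4194304 8388607 4194304
  2097152 [.n, .n, .n, .g 64 35 0 0]))) (.B 1 8 1 (.G 1546 1293 2 2097152
  8388607 4194304 1048576 [.n, .n, .n, .g 64 29 0 0]) (.B 2 1 4 (.L 13) (.B
  0 8 1 (.G 966 1546 3 2097152 8388607 4194304 1048576 [.n, .n, .g 19 64 0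
  0, .n]) (.L 264)))))))))) (.C 1 2 1 2 (.C 1 3 1 1 (.L 1034) (.C 1 3 1 2
  (.L 828) (.C 2 3 1 2 (.L 828) (.C 0 3 196612 1 (.C 0 3 393224 1 (.C 2 3 1
  1 (.L 1352) (.C 1 3 1 1 (.L 1352) (.B 1 8 1 (.B 2 1 8 (.B 1 16 1 (.L 145)
  (.L 264)) (.L 145)) (.B 2 1 4 (.L 13) (.B 0 8 1 (.B 2 1 8 (.L 13) (.L
  145)) (.L 13)))))) (.B 1 8 1 (.G 1293 1546 3 8388607 8388607 8388607
  4194304 [.n, .n, .g 29 63 0 0, .n]) (.B 2 1 4 (.L 13) (.G 2929 1254 2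
  8388607 8388607 8388607 4194304 [.n, .n, .n, .n, .g 10 67 0 0, .g 9 61 0
  0])))) (.B 1 8 1 (.G 1546 966 2 4194304 8388607 8388607 2097152 [.n, .n,
  .n, .g 32 13 0 0]) (.B 2 1 4 (.L 13) (.G 3441 1546 3 4194304 8388607
  8388607 2097152 [.n, .n, .n, .n, .g 4 21 0 0, .g 2 11 0 0]))))))) (.B 2 1
  4 (.B 1 8 1 (.B 0 1 16 (.L 264) (.C 0 1 392844 1 (.C 0 2 98308 1 (.C 0 3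
  196612 1 (.B 1 16 1 (.L 145) (.L 264)) (.L 5)) (.L 5)) (.L 5))) (.L 13))
  (.B 2 1 8 (.B 1 16 1 (.L 145) (.L 264)) (.L 145))))) (.C 2 3 1 6144 (.C 1
  2 96 1 (.C 1 3 193 1 (.L 264) (.C 1 3 1 2 (.L 1034) (.C 2 3 1 1 (.L 1034)
  (.C 1 3 1 4 (.L 828) (.C 2 3 1 2 (.L 828) (.C 0 3 393220 1 (.C 0 3 786440
  1 (.C 1 3 1 2 (.L 3394) (.C 2 3 1 1 (.L 3394) (.B 1 8 1 (.B 2 1 8 (.B 1 16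
  1 (.L 145) (.L 13)) (.L 145)) (.B 2 1 4 (.L 13) (.B 2 1 8 (.L 13) (.B 0 8
  1 (.L 145) (.L 13))))))) (.B 2 1 4 (.B 1 8 1 (.B 0 1 16 (.L 13) (.G 2417
  966 2 4194304 8388607 4194304 2097152 [.n, .n, .n, .n, .g 1 3 61 0, .g 1 3
  61 0])) (.L 13)) (.G 3697 3138 1 4194304 8388607 4194304 2097152 [.n, .n,
  .n, .n, .g 4 59 0 0, .g 1 15 0 0]))) (.B 1 8 1 (.G 1260 1254 2 123934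
  495737 247868 61967 [.n, .n, .g 63 64 0 0, .g 16 9 0 0]) (.B 2 1 4 (.L 13)
  (.B 2 1 8 (.L 264) (.G 2370 1894 2 2097152 8388607 4194304 1048576 [.n,
  .n, .n, .n, .g 7 69 0 0, .g 1 10 0 0, .n, .n])))))))))) (.C 1 2 1 2 (.C 1
  3 1 1 (.L 1034) (.C 2 3 1 2 (.L 828) (.C 1 3 1 2 (.L 828) (.C 0 3 393220 1
  (.C 0 3 786440 1 (.C 2 3 1 1 (.L 1352) (.C 1 3 1 1 (.L 1352) (.B 2 1 4 (.B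
  1 8 1 (.B 0 1 16 (.L 13) (.B 1 16 1 (.L 145) (.L 13))) (.L 13)) (.B 2 1 8
  (.B 1 16 1 (.L 145) (.L 13)) (.L 145))))) (.B 2 1 4 (.B 1 8 1 (.B 1 16 1
  (.G 2673 1254 2 8388607 8388607 8388607 4194304 [.n, .n, .n, .n, .n, .n,
  .n, .n, .g 32 3 0 0, .g 64 7 0 0]) (.L 13)) (.L 13)) (.G 3185 1894 2
  8388607 8388607 8388607 4194304 [.n, .n, .n, .n, .g 3 31 0 0, .g 2 21 0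
  0]))) (.B 1 8 1 (.G 926 2161 3 95206 190413 190413 47603 [.g 64 17 0 0,
  .n, .n, .g 64 11 0 0]) (.B 2 1 4 (.L 13) (.B 2 1 8 (.L 264) (.G 2370 1894
  2 4194304 8388607 8388607 2097152 [.n, .n, .n, .n, .g 1 9 0 0, .g 7 64 0
  0, .n, .n])))))))) (.B 2 1 4 (.B 1 8 1 (.B 0 1 16 (.L 264) (.C 0 1 785676
  1 (.C 0 2 196612 1 (.C 0 3 393220 1 (.B 1 16 1 (.L 145) (.L 264)) (.L 5))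
  (.L 5)) (.L 5))) (.L 13)) (.B 2 1 8 (.B 1 16 1 (.L 145) (.L 264)) (.L
  145))))) (.C 2 3 1 12288 (.B 2 1 4 (.B 1 8 1 (.B 1 16 1 (.B 0 1 16 (.L
  264) (.L 1671)) (.L 264)) (.L 13)) (.B 2 1 8 (.B 1 16 1 (.L 3650) (.L
  264)) (.L 145))) (.B 2 1 4 (.B 1 8 1 (.B 1 16 1 (.B 0 1 16 (.L 13) (.L
  1671)) (.L 13)) (.L 13)) (.C 1 3 1 64 (.C 1 2 386 1 (.L 2626) (.C 2 3 1
  192 (.C 1 2 1 2 (.L 703) (.C 2 3 2 1 (.B 2 1 8 (.B 1 16 1 (.L 145) (.L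
  13)) (.L 145)) (.L 3138))) (.L 703))) (.B 2 1 8 (.B 1 16 1 (.L 145) (.L
  13)) (.L 145)))))))))))))))))))))) (.C 0 3 1 2 (.C 0 2 6 1 (.B 1 1 1 (.L
  5) (.C 0 3 2 1 (.C 0 2 12 1 (.B 1 1 2 (.L 5) (.B 2 2 1 (.C 0 3 4 1 (.C 0 2
  24 1 (.B 1 1 4 (.L 5) (.C 0 1 4 3 (.L 831) (.G 606 385 2 99 16 616 102 [.g
  64 1 0 0, .g 32 1 0 0, .n, .n, .n, .n]))) (.L 5)) (.L 5)) (.L 5))) (.L 5))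
  (.L 5))) (.L 5)) (.L 5))) (.L 5)))) (.C 2 3 3 4 (.C 1 2 1 1 (.L 65) (.C 2
  3 5 1 (.C 1 2 2 3 (.L 4017) (.C 2 3 10 1 (.P (.ofNat 1) (.ofNat 3)) (.L
  407))) (.L 65))) (.C 2 3 1 6 (.L 235) (.C 1 3 3 4 (.L 235) (.C 2 3 1 12
  (.L 1549) (.C 1 3 1 8 (.L 1549) (.C 1 3 1 16 (.L 1900) (.C 0 1 508 1 (.C 0
  3 16 1 (.C 2 3 1 12 (.L 1900) (.C 2 3 1 24 (.L 1900) (.B 0 8 1 (.C 2 3 1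
  48 (.L 2993) (.B 2 1 16 (.C 1 3 1 32 (.C 2 3 2 3 (.L 2114) (.B 2 2 1 (.B 1
  1 1 (.L 2946) (.C 1 3 2 1 (.L 2114) (.L 3970))) (.L 2946))) (.B 1 1 1 (.L
  3784) (.B 2 2 1 (.L 3458) (.L 3784)))) (.C 1 3 1 32 (.L 3505) (.L 2481))))
  (.B 2 1 1 (.C 1 3 1 32 (.C 1 3 2 1 (.L 2434) (.L 3714)) (.L 3714)) (.C 0 2
  1540 1 (.C 0 1 1016 1 (.C 0 3 32 1 (.B 1 4 1 (.L 167) (.B 2 1 2 (.C 0 2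
  3080 1 (.C 1 3 1 32 (.L 3761) (.L 3784)) (.L 659)) (.L 495))) (.L 167))
  (.L 167)) (.L 167)))))) (.G 3249 2737 0 247857 7869472 3005271 123929 [.g
  32 0 11 0, .n, .n, .g 5 0 7 0])) (.C 0 3 1 64 (.G 3889 2225 0 4194304
  2097152 1597830 8388607 [.n, .n, .n, .n, .n, .n, .g 64 0 57 0, .g 15 0 16
  0]) (.O 1)))))))))) (by decide +kernel)

theorem CN0_c185 : CoN CNTab ⟨⟨0, 1, 8⟩, ⟨0, 1, 4⟩, ⟨1, 1, 8⟩, ⟨1, 0, 0, 0,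
  0⟩, ⟨8, 2, 0, 1, 0⟩, ⟨8, 2, 0, 0, 1⟩, ⟨4, 1, 1, 1, 0⟩⟩ :=
CoN.ofG CNTab_B CNBt_E CNBt_U (.B 1 2 1 (.C 0 3 16 1 (.C 0 1 20 1 (.C 0 1 40
  1 (.C 0 3 32 1 (.C 0 2 20 1 (.B 1 4 1 (.L 926) (.C 0 2 40 1 (.B 1 1 2 (.L
  5) (.B 2 1 2 (.C 0 1 80 1 (.C 0 3 64 1 (.C 0 2 80 1 (.B 1 1 4 (.L 5) (.B 2
  2 1 (.C 0 1 160 1 (.C 0 3 128 1 (.C 0 2 160 1 (.B 1 1 8 (.L 385) (.B 2 4 1
  (.C 0 1 320 1 (.C 2 3 3 4 (.C 1 2 1 2 (.L 53) (.L 787)) (.C 1 3 2 5 (.L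
  235) (.L 1037))) (.B 2 8 1 (.B 1 1 16 (.L 5) (.C 0 1 1 2 (.B 2 16 1 (.B 1
  1 32 (.L 5) (.C 0 1 2 1 (.C 2 3 3 4 (.G 257 65 3 717172 2868686 358586
  2196338 [.n, .n, .n, .n, .g 5 21 0 0, .g 7 32 0 0, .n, .n]) (.G 235 13 0
  217455 869821 668675 86982 [.n, .n, .g 2 81 0 0, .n])) (.L 385))) (.L 5))
  (.L 385))) (.L 5))) (.C 0 1 320 1 (.C 0 3 256 1 (.C 0 2 320 1 (.B 2 1 2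
  (.C 0 1 640 1 (.B 1 1 2 (.L 385) (.C 0 3 512 1 (.C 0 2 640 1 (.C 0 2 1280
  1 (.C 0 3 1024 1 (.C 0 1 1280 1 (.B 2 2 1 (.C 0 1 2560 1 (.C 2 3 3 4 (.C 1
  2 1 2 (.C 1 2 2 1 (.L 2760) (.L 407)) (.L 787)) (.C 1 3 2 5 (.L 235) (.L
  1037))) (.L 473)) (.L 385)) (.L 473)) (.L 473)) (.L 473)) (.L 5)) (.L 5)))
  (.L 5)) (.L 385)) (.L 5)) (.L 5)) (.L 5)))) (.L 385)) (.L 385)) (.L 5))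
  (.L 5))) (.L 5)) (.L 5)) (.L 5)) (.L 5))) (.L 688))) (.G 524 385 1 1 1 1 1
  [.n, .n, .g 1 0 4980 0, .n])) (.L 1382)) (.L 1382)) (.L 493)) (.L 493))
  (.C 0 3 16 1 (.C 0 1 20 1 (.C 2 3 3 2 (.C 1 2 1 2 (.C 1 2 5 3 (.L 65) (.L
  407)) (.L 1638)) (.B 2 1 1 (.C 2 3 2 7 (.L 65) (.C 1 3 3 4 (.L 235) (.C 1
  3 1 8 (.L 235) (.C 1 2 4 5 (.C 1 3 1 16 (.L 2865) (.L 13)) (.L 13))))) (.C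
  0 2 108 1 (.C 0 1 40 1 (.C 0 3 32 1 (.B 2 1 2 (.C 2 3 2 7 (.L 65) (.C 2 3
  1 14 (.L 235) (.C 1 3 3 4 (.L 235) (.C 2 3 1 28 (.L 235) (.L 831))))) (.C
  0 2 216 1 (.C 0 1 80 1 (.C 0 3 64 1 (.C 0 2 432 1 (.C 0 1 160 1 (.C 0 3
  128 1 (.B 2 1 4 (.C 2 3 2 7 (.L 65) (.C 1 3 3 4 (.L 235) (.C 2 3 1 14 (.L
  235) (.C 2 3 1 28 (.L 235) (.C 1 3 1 8 (.L 1900) (.L 366)))))) (.B 0 2 1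
  (.L 5) (.B 1 4 1 (.B 0 1 2 (.L 5) (.C 2 3 2 7 (.L 65) (.C 2 3 1 14 (.L
  235) (.C 1 3 3 4 (.L 235) (.C 2 3 1 28 (.L 235) (.L 831)))))) (.L 5))))
  (.L 385)) (.L 5)) (.L 5)) (.L 5)) (.L 5)) (.L 5))) (.B 2 1 2 (.C 0 3 1 2
  (.B 1 1 1 (.L 5) (.B 2 2 1 (.C 0 3 2 1 (.C 0 2 7 2 (.G 831 955 2 4 5 54 16
  [.n, .g 64 33 0 0, .n, .n, .n, .n, .n, .n, .n, .n]) (.L 5)) (.L 5)) (.L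
  5))) (.L 5)) (.L 5))) (.L 5)) (.L 5)))) (.B 2 1 1 (.C 1 3 3 2 (.G 385 3377
  1 1 1 1 1 [.n, .g 2 0 5171 0, .n, .n]) (.C 2 3 3 2 (.G 140 385 1 1 1 1 1
  [.n, .n, .n, .g 1 0 4463 0]) (.C 1 3 1 4 (.L 5) (.B 1 1 2 (.L 5) (.C 2 3 2
  7 (.L 5) (.B 2 2 1 (.C 1 3 1 8 (.L 5) (.B 1 1 4 (.L 5) (.G 2353 831 1
  660520 8388607 7001515 528416 [.g 16 63 0 0, .n, .n, .n, .n, .n, .g 1 980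
  0 0, .g 1 1086 0 0]))) (.L 5))))))) (.L 1126))) (.C 0 3 1 2 (.B 2 1 1 (.C
  0 1 2 3 (.C 2 3 3 1 (.C 0 2 2 3 (.C 0 3 3 1 (.G 13 48 3 31 120 104 189 [.g
  35 1 64 0, .n, .n, .n, .g 1 0 1781 0, .n]) (.L 5)) (.O 1)) (.G 688 831 1 8
  31 25 16 [.n, .n, .g 5 62 0 0, .n, .n])) (.L 2037)) (.L 1126)) (.L
  2037)))) (by decide +kernel)

theorem CN0_c186 : CoN CNTab ⟨⟨0, 1, 4⟩, ⟨0, 1, 2⟩, ⟨1, 1, 4⟩, ⟨1, 0, 0, 0,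
  0⟩, ⟨8, 2, 0, 1, 0⟩, ⟨8, 2, 0, 0, 1⟩, ⟨4, 1, 1, 1, 0⟩⟩ :=
CoN.ofG CNTab_B CNBt_E CNBt_U (.B 1 2 1 (.B 0 1 2 (.B 2 1 2 (.L 8) (.L
  1525)) (.B 1 4 1 (.L 8) (.L 8))) (.B 2 1 1 (.B 1 1 2 (.C 0 3 16 1 (.C 0 1
  20 1 (.C 0 2 20 1 (.C 2 3 3 4 (.C 1 2 1 1 (.C 1 2 5 3 (.L 53) (.C 1 2 1 6
  (.L 53) (.L 97))) (.C 2 3 6 1 (.C 1 2 3 5 (.L 97) (.C 1 2 1 10 (.L 63) (.C
  2 3 11 1 (.P (.ofNat 1) (.ofNat 2)) (.L 63)))) (.L 97))) (.C 2 3 1 7 (.L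
  65) (.L 217))) (.C 0 2 1 2 (.B 1 2 1 (.L 524) (.C 0 2 2 1 (.C 0 1 1 1 (.B
  2 1 2 (.B 1 1 2 (.L 232) (.G 1000 141 1 4875 8775 19500 3900 [.g 4096 1 0
  0, .n, .n, .n, .g 32 7 0 0, .g 4 1 0 0, .n, .n])) (.L 232)) (.L 572)) (.L
  572))) (.L 1958))) (.L 66)) (.L 66)) (.C 2 3 3 4 (.C 1 2 1 1 (.L 53) (.C 2
  3 5 1 (.C 1 2 2 3 (.L 988) (.B 1 1 4 (.L 257) (.L 699))) (.L 988))) (.C 2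
  3 1 6 (.L 65) (.L 217)))) (.B 0 2 1 (.C 0 3 16 1 (.C 0 1 20 1 (.C 0 2 20 1
  (.B 2 1 2 (.C 0 1 40 1 (.B 1 1 2 (.C 0 3 32 1 (.C 0 2 40 1 (.B 1 2 1 (.L
  524) (.C 0 1 80 1 (.C 0 3 64 1 (.C 0 2 80 1 (.B 1 1 2 (.L 47) (.C 0 1 160
  1 (.B 2 1 2 (.C 0 3 128 1 (.C 0 2 160 1 (.B 1 1 4 (.C 0 1 320 1 (.C 0 3
  256 1 (.C 0 2 320 1 (.B 1 2 1 (.L 47) (.B 2 1 4 (.C 0 1 640 1 (.C 0 3 512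
  1 (.C 0 2 640 1 (.B 1 1 2 (.L 47) (.B 2 2 1 (.C 0 1 1280 1 (.C 0 3 1024 1
  (.C 0 2 1280 1 (.B 2 4 1 (.C 2 3 3 4 (.C 1 2 1 1 (.L 53) (.L 476)) (.C 2 3
  1 8 (.L 65) (.L 217))) (.G 232 3633 2 1 1 1 1 [.n, .n, .g 4 1 0 0, .n]))
  (.G 476 217 3 2015645 2015645 1007822 1637711 [.g 256 1 0 0, .n, .n, .n,
  .g 9 65 0 0, .g 4 33 0 0, .n, .n])) (.G 232 217 3 3034 3792 1896 1517 [.n,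
  .n, .g 16 3 0 0, .n])) (.L 232)) (.L 232))) (.L 47)) (.L 47)) (.L 47)) (.L
  47))) (.L 47)) (.L 47)) (.L 47)) (.B 2 2 1 (.C 0 2 320 1 (.C 2 3 2 5 (.C 1
  2 2 1 (.L 65) (.L 476)) (.L 217)) (.G 476 217 3 2018578 1009289 1009289
  807431 [.g 256 1 0 0, .n, .n, .n, .g 9 61 0 0, .g 4 31 0 0, .n, .n])) (.C
  0 1 320 1 (.C 0 3 256 1 (.C 0 2 320 1 (.C 0 1 640 1 (.C 0 3 512 1 (.C 0 2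
  640 1 (.B 2 1 2 (.B 2 2 1 (.C 0 2 1280 1 (.C 2 3 2 5 (.C 1 2 2 1 (.L 65)
  (.L 476)) (.L 217)) (.G 476 232 2 76006 38003 38003 30402 [.g 4096 1 0 0,
  .n, .n, .n, .g 55 64 0 0, .g 3 4 0 0, .n, .n])) (.B 0 1 1 (.L 232) (.C 0 1
  1280 1 (.C 0 3 1024 1 (.C 2 3 3 2 (.C 1 2 1 2 (.C 1 2 2 1 (.L 53) (.L
  407)) (.L 2017)) (.C 2 3 1 4 (.L 38) (.L 217))) (.G 232 217 3 3359 4198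
  2099 1679 [.n, .n, .g 64 13 0 0, .n])) (.L 232)))) (.B 0 4 1 (.L 47) (.B 0
  1 2 (.L 232) (.B 1 1 1 (.C 0 1 1280 1 (.C 0 3 1024 1 (.C 2 3 3 2 (.C 1 2 1
  2 (.C 1 2 2 1 (.L 53) (.L 407)) (.L 2017)) (.C 2 3 1 4 (.L 53) (.L 217)))
  (.G 232 217 3 3243 4053 2027 1621 [.n, .n, .g 64 13 0 0, .n])) (.L 232))
  (.L 232))))) (.L 232)) (.L 232)) (.L 47)) (.L 47)) (.L 47)) (.L 47)))) (.B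
  1 1 4 (.L 47) (.G 476 217 3 2019877 2019877 1009938 1641150 [.g 256 1 0 0,
  .n, .n, .n, .g 3 22 0 0, .g 8 67 0 0, .n, .n]))) (.G 217 232 2 337 421 211
  169 [.n, .n, .n, .g 7 31 0 0])) (.L 47)) (.L 47))) (.L 47)) (.L 141)) (.L
  141))) (.L 141)) (.L 141)) (.C 0 3 32 1 (.B 2 2 1 (.C 2 3 3 2 (.C 1 2 1 2
  (.C 1 2 2 1 (.L 53) (.L 407)) (.L 476)) (.C 2 3 2 7 (.L 53) (.L 217))) (.C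
  0 2 40 1 (.C 0 1 80 1 (.B 2 1 2 (.C 0 3 64 1 (.C 0 2 80 1 (.C 2 3 3 4 (.C
  1 2 1 1 (.L 53) (.L 152)) (.C 2 3 1 8 (.C 2 3 2 1 (.L 65) (.L 217)) (.L
  217))) (.G 476 217 3 2161677 2161677 1080839 1756363 [.g 256 1 0 0, .n,
  .n, .n, .g 9 65 0 0, .g 4 33 0 0, .n, .n])) (.G 476 217 3 797056 996320
  498160 398528 [.g 256 1 0 0, .n, .n, .n, .g 9 64 0 0, .g 1 8 0 0, .n,
  .n])) (.C 0 3 64 1 (.C 0 2 80 1 (.C 0 1 160 1 (.B 0 2 1 (.B 2 1 4 (.C 0 2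
  160 1 (.C 0 3 128 1 (.C 0 1 320 1 (.B 2 2 1 (.C 0 2 320 1 (.C 0 3 256 1
  (.B 1 1 1 (.L 206) (.B 2 4 1 (.C 0 1 640 1 (.C 0 2 640 1 (.C 2 3 2 5 (.C 1
  2 1 1 (.C 2 3 2 1 (.L 53) (.L 65)) (.L 476)) (.L 217)) (.L 206)) (.L 206))
  (.L 206))) (.L 206)) (.L 206)) (.L 47)) (.L 47)) (.L 48)) (.L 48)) (.L
  47)) (.C 0 3 128 1 (.C 0 2 160 1 (.B 0 1 2 (.C 0 1 320 1 (.C 0 3 256 1 (.C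
  0 2 320 1 (.C 0 1 640 1 (.B 2 1 1 (.C 0 3 512 1 (.C 0 2 640 1 (.C 2 3 3 4
  (.C 1 2 1 1 (.L 53) (.L 152)) (.C 2 3 1 8 (.C 2 3 2 1 (.L 65) (.L 235))
  (.L 217))) (.G 257 217 3 1973171 1973171 986586 1603202 [.g 2048 7 0 0,
  .n, .n, .n, .g 3 22 0 0, .g 1 8 0 0, .n, .n])) (.G 232 217 3 1305 1631 816
  652 [.n, .n, .g 8 1 0 0, .n])) (.B 0 2 1 (.L 232) (.C 0 3 512 1 (.C 0 2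
  640 1 (.B 0 1 2 (.L 232) (.B 1 1 1 (.C 0 1 1280 1 (.C 0 3 1024 1 (.C 2 3 3
  2 (.C 1 2 1 2 (.C 1 2 2 1 (.L 53) (.L 407)) (.L 2017)) (.C 2 3 1 4 (.L 38)
  (.L 217))) (.G 152 217 3 178345 222932 111466 89173 [.n, .n, .n, .n, .g 39
  64 0 0, .g 17 32 0 0])) (.G 65 232 2 5032 2516 2516 2013 [.n, .g 31 64 0
  0, .n, .g 19 64 0 0])) (.L 232))) (.L 232)) (.L 232)))) (.L 232)) (.L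
  232)) (.L 232)) (.L 47)) (.C 2 3 3 4 (.C 1 2 1 1 (.L 53) (.L 152)) (.C 2 3
  1 8 (.C 2 3 2 1 (.L 65) (.L 217)) (.L 217)))) (.G 476 217 3 2096504
  2096504 1048252 1703410 [.g 256 1 0 0, .n, .n, .n, .g 3 22 0 0, .g 8 67 0
  0, .n, .n])) (.G 217 232 2 346 432 216 173 [.n, .n, .n, .g 3 13 0 0])))
  (.L 47)) (.L 47)) (.L 47))) (.L 232)) (.L 140))) (.B 2 2 1 (.B 1 1 4 (.L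
  47) (.G 476 217 3 763486 954358 477179 381743 [.g 256 1 0 0, .n, .n, .n,
  .g 9 61 0 0, .g 4 31 0 0, .n, .n])) (.L 141)))) (.B 1 1 2 (.L 48) (.B 2 2
  1 (.C 0 1 1 2 (.B 1 1 4 (.L 141) (.C 0 3 2 5 (.B 2 4 1 (.C 0 2 1 2 (.C 0 1
  2 1 (.C 2 3 2 1 (.G 206 53 1 336 1346 631 2565 [.n, .n, .n, .g 33 64 0 0])
  (.L 217)) (.L 47)) (.L 47)) (.L 47)) (.L 47))) (.L 48)) (.L 48)))) (.L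
  48)) (.L 48)) (.L 48)) (.L 48)) (.C 0 3 16 1 (.C 0 1 20 1 (.C 0 2 20 1 (.C
  2 3 3 4 (.B 1 1 1 (.C 0 1 40 1 (.C 0 3 224 1 (.C 0 2 40 1 (.B 1 2 1 (.L 8)
  (.B 2 1 1 (.C 0 1 80 1 (.B 1 1 2 (.L 66) (.C 0 1 160 1 (.C 0 3 448 1 (.B 2
  2 1 (.C 1 2 1 4 (.C 1 2 2 1 (.C 1 2 4 1 (.L 53) (.L 988)) (.L 988)) (.C 2
  3 11 1 (.L 257) (.L 988))) (.L 66)) (.L 66)) (.L 66))) (.L 99)) (.L 99)))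
  (.L 99)) (.L 99)) (.L 99)) (.C 1 2 1 1 (.L 53) (.C 2 3 6 1 (.C 1 2 3 5 (.L
  988) (.C 2 3 11 1 (.P (.ofNat 1) (.ofNat 3)) (.L 63))) (.L 988)))) (.C 2 3
  1 7 (.L 65) (.L 217))) (.L 140)) (.L 140)) (.L 66))))) (by decide +kernel)

end Pool.Agent.TET.Cvr
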