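import Pool.Agent.Helper37_TET.CN0_000
import Pool.Agent.Helper37_TET.CN0_001
import Pool.Agent.Helper37_TET.CN0_002
import Pool.Agent.Helper37_TET.CN0_003
import Pool.Agent.Helper37_TET.CN0_004
import Pool.Agent.Helper37_TET.CN0_005
import Pool.Agent.Helper37_TET.CN0_006
import Pool.Agent.Helper37_TET.CN0_007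
import Pool.Agent.Helper37_TET.CN0_008
import Pool.Agent.Helper37_TET.CN0_009

/-!
# MP_c7c9bf_co: cover of the charts, root 0, assembly 0
-/

set_option autoImplicit false
set_option maxRecDepth 100000

namespace Pool.Agent.TET.Cvr

theorem CN0_t0 : CoN CNTab ⟨⟨2, 3, 8⟩, ⟨1, 3, 8⟩, ⟨1, 2, 4⟩, ⟨1, 0, 0, 0,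
  0⟩, ⟨8, 2, 0, 1, 0⟩, ⟨8, 2, 0, 0, 1⟩, ⟨4, 1, 1, 1, 0⟩⟩ :=
  CoN.b 1 1 2 rfl rfl rfl CN0_c0 CN0_c1

theorem CN0_t1 : CoN CNTab ⟨⟨1, 1, 4⟩, ⟨1, 3, 8⟩, ⟨1, 2, 4⟩, ⟨1, 0, 0, 0,
  0⟩, ⟨8, 2, 0, 1, 0⟩, ⟨8, 2, 0, 0, 1⟩, ⟨4, 1, 1, 1, 0⟩⟩ :=
  CoN.b 2 1 1 rfl rfl rfl CN0_t0 CN0_c2

theorem CN0_t2 : CoN CNTab ⟨⟨3, 7, 16⟩, ⟨5, 15, 32⟩, ⟨3, 8, 16⟩, ⟨1, 0, 0,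
  0, 0⟩, ⟨1148, 22, 0, 6, 5⟩, ⟨580, 10, 0, 2, 3⟩, ⟨4616, 79, 5, 19, 23⟩⟩ :=
  CoN.b 1 1 2 rfl rfl rfl CN0_c6 CN0_c7

theorem CN0_t3 : CoN CNTab ⟨⟨3, 7, 16⟩, ⟨5, 15, 32⟩, ⟨3, 8, 16⟩, ⟨1, 0, 0,
  0, 0⟩, ⟨1148, 22, 0, 6, 5⟩, ⟨580, 10, 0, 2, 3⟩, ⟨2296, 39, 5, 11, 11⟩⟩ :=
  CoN.c 2 3 4 1 rfl rfl rfl rfl rfl CN0_t2 CN0_c8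

theorem CN0_t4 : CoN CNTab ⟨⟨3, 7, 16⟩, ⟨5, 15, 32⟩, ⟨3, 8, 16⟩, ⟨1, 0, 0,
  0, 0⟩, ⟨1148, 22, 0, 6, 5⟩, ⟨580, 10, 0, 2, 3⟩, ⟨1148, 17, 5, 5, 6⟩⟩ :=
  CoN.c 1 3 1 1 rfl rfl rfl rfl rfl CN0_t3 CN0_c9

theorem CN0_t5 : CoN CNTab ⟨⟨3, 7, 16⟩, ⟨5, 15, 32⟩, ⟨3, 8, 16⟩, ⟨1, 0, 0,
  0, 0⟩, ⟨284, 6, 0, 2, 1⟩, ⟨580, 10, 0, 2, 3⟩, ⟨1148, 17, 5, 5, 6⟩⟩ :=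
  CoN.c 1 2 2 1 rfl rfl rfl rfl rfl CN0_c5 CN0_t4

theorem CN0_t6 : CoN CNTab ⟨⟨3, 7, 16⟩, ⟨5, 15, 32⟩, ⟨3, 8, 16⟩, ⟨1, 0, 0,
  0, 0⟩, ⟨284, 6, 0, 2, 1⟩, ⟨148, 2, 0, 0, 1⟩, ⟨1148, 17, 5, 5, 6⟩⟩ :=
  CoN.c 1 2 1 2 rfl rfl rfl rfl rfl CN0_t5 CN0_c10

theorem CN0_t7 : CoN CNTab ⟨⟨3, 7, 16⟩, ⟨5, 15, 32⟩, ⟨3, 8, 16⟩, ⟨1, 0, 0,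
  0, 0⟩, ⟨68, 2, 0, 1, 0⟩, ⟨148, 2, 0, 0, 1⟩, ⟨1148, 17, 5, 5, 6⟩⟩ :=
  CoN.c 1 2 2 1 rfl rfl rfl rfl rfl CN0_c4 CN0_t6

theorem CN0_t8 : CoN CNTab ⟨⟨3, 7, 16⟩, ⟨5, 15, 32⟩, ⟨3, 8, 16⟩, ⟨1, 0, 0,
  0, 0⟩, ⟨68, 2, 0, 1, 0⟩, ⟨148, 2, 0, 0, 1⟩, ⟨556, 9, 5, 5, 2⟩⟩ :=
  CoN.c 2 3 4 1 rfl rfl rfl rfl rfl CN0_t7 CN0_c11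

theorem CN0_t9 : CoN CNTab ⟨⟨3, 7, 16⟩, ⟨5, 15, 32⟩, ⟨3, 8, 16⟩, ⟨1, 0, 0,
  0, 0⟩, ⟨68, 2, 0, 1, 0⟩, ⟨148, 2, 0, 0, 1⟩, ⟨52, 1, 1, 1, 0⟩⟩ :=
  CoN.c 2 3 2 5 rfl rfl rfl rfl rfl CN0_t8 CN0_c12

theorem CN0_t10 : CoN CNTab ⟨⟨3, 7, 16⟩, ⟨5, 15, 32⟩, ⟨3, 8, 16⟩, ⟨1, 0, 0,
  0, 0⟩, ⟨68, 2, 0, 1, 0⟩, ⟨68, 2, 0, 0, 1⟩, ⟨52, 1, 1, 1, 0⟩⟩ :=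
  CoN.c 0 2 80 1 rfl rfl rfl rfl rfl CN0_t9 CN0_c13

theorem CN0_t11 : CoN CNTab ⟨⟨5, 15, 32⟩, ⟨5, 16, 32⟩, ⟨3, 8, 16⟩, ⟨1, 0, 0,
  0, 0⟩, ⟨148, 2, 0, 1, 0⟩, ⟨148, 2, 0, 0, 1⟩, ⟨52, 1, 1, 1, 0⟩⟩ :=
  CoN.b 2 2 1 rfl rfl rfl CN0_c15 CN0_c16

theorem CN0_t12 : CoN CNTab ⟨⟨5, 15, 32⟩, ⟨5, 16, 32⟩, ⟨3, 8, 16⟩, ⟨1, 0, 0,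
  0, 0⟩, ⟨68, 2, 0, 1, 0⟩, ⟨148, 2, 0, 0, 1⟩, ⟨52, 1, 1, 1, 0⟩⟩ :=
  CoN.c 0 1 80 1 rfl rfl rfl rfl rfl CN0_t11 CN0_c17

theorem CN0_t13 : CoN CNTab ⟨⟨5, 15, 32⟩, ⟨5, 16, 32⟩, ⟨3, 8, 16⟩, ⟨1, 0, 0,
  0, 0⟩, ⟨68, 2, 0, 1, 0⟩, ⟨68, 2, 0, 0, 1⟩, ⟨52, 1, 1, 1, 0⟩⟩ :=
  CoN.c 0 2 80 1 rfl rfl rfl rfl rfl CN0_t12 CN0_c18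

theorem CN0_t14 : CoN CNTab ⟨⟨5, 15, 32⟩, ⟨1, 4, 8⟩, ⟨3, 8, 16⟩, ⟨1, 0, 0,
  0, 0⟩, ⟨68, 2, 0, 1, 0⟩, ⟨68, 2, 0, 0, 1⟩, ⟨52, 1, 1, 1, 0⟩⟩ :=
  CoN.b 1 2 1 rfl rfl rfl CN0_c14 CN0_t13

theorem CN0_t15 : CoN CNTab ⟨⟨3, 7, 16⟩, ⟨1, 4, 8⟩, ⟨3, 8, 16⟩, ⟨1, 0, 0, 0,
  0⟩, ⟨68, 2, 0, 1, 0⟩, ⟨68, 2, 0, 0, 1⟩, ⟨52, 1, 1, 1, 0⟩⟩ :=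
  CoN.b 0 1 2 rfl rfl rfl CN0_t10 CN0_t14

theorem CN0_t16 : CoN CNTab ⟨⟨3, 7, 16⟩, ⟨1, 4, 8⟩, ⟨3, 8, 16⟩, ⟨1, 0, 0, 0,
  0⟩, ⟨68, 2, 0, 1, 0⟩, ⟨68, 2, 0, 0, 1⟩, ⟨20, 1, 1, 1, 0⟩⟩ :=
  CoN.c 0 3 32 1 rfl rfl rfl rfl rfl CN0_t15 CN0_c19

theorem CN0_t17 : CoN CNTab ⟨⟨3, 7, 16⟩, ⟨1, 4, 8⟩, ⟨3, 8, 16⟩, ⟨1, 0, 0, 0,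
  0⟩, ⟨28, 2, 0, 1, 0⟩, ⟨68, 2, 0, 0, 1⟩, ⟨20, 1, 1, 1, 0⟩⟩ :=
  CoN.c 0 1 40 1 rfl rfl rfl rfl rfl CN0_t16 CN0_c20

theorem CN0_t18 : CoN CNTab ⟨⟨3, 7, 16⟩, ⟨1, 4, 8⟩, ⟨3, 8, 16⟩, ⟨1, 0, 0, 0,
  0⟩, ⟨28, 2, 0, 1, 0⟩, ⟨28, 2, 0, 0, 1⟩, ⟨20, 1, 1, 1, 0⟩⟩ :=
  CoN.c 0 2 40 1 rfl rfl rfl rfl rfl CN0_t17 CN0_c21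

theorem CN0_t19 : CoN CNTab ⟨⟨7, 15, 32⟩, ⟨13, 31, 64⟩, ⟨7, 16, 32⟩, ⟨260,
  10, 0, 2, 3⟩, ⟨508, 22, 0, 6, 5⟩, ⟨484, 21, 5, 5, 8⟩, ⟨992, 43, 5, 15, 9⟩⟩
  :=
  CoN.c 1 3 2 1 rfl rfl rfl rfl rfl CN0_c25 CN0_c26

theorem CN0_t20 : CoN CNTab ⟨⟨7, 15, 32⟩, ⟨13, 31, 64⟩, ⟨7, 16, 32⟩, ⟨260,
  10, 0, 2, 3⟩, ⟨508, 22, 0, 6, 5⟩, ⟨484, 21, 5, 5, 8⟩, ⟨484, 21, 5, 9, 4⟩⟩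
  :=
  CoN.c 1 3 1 1 rfl rfl rfl rfl rfl CN0_t19 CN0_c27

theorem CN0_t21 : CoN CNTab ⟨⟨7, 15, 32⟩, ⟨13, 31, 64⟩, ⟨7, 16, 32⟩, ⟨260,
  10, 0, 2, 3⟩, ⟨124, 6, 0, 2, 1⟩, ⟨484, 21, 5, 5, 8⟩, ⟨484, 21, 5, 9, 4⟩⟩
  :=
  CoN.c 0 1 1 2 rfl rfl rfl rfl rfl CN0_t20 CN0_c28

theorem CN0_t22 : CoN CNTab ⟨⟨7, 15, 32⟩, ⟨13, 31, 64⟩, ⟨7, 16, 32⟩, ⟨260,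
  10, 0, 2, 3⟩, ⟨124, 6, 0, 2, 1⟩, ⟨484, 21, 5, 5, 8⟩, ⟨236, 9, 5, 5, 2⟩⟩ :=
  CoN.c 1 3 2 1 rfl rfl rfl rfl rfl CN0_t21 CN0_c29

theorem CN0_t23 : CoN CNTab ⟨⟨7, 15, 32⟩, ⟨13, 31, 64⟩, ⟨7, 16, 32⟩, ⟨260,
  10, 0, 2, 3⟩, ⟨124, 6, 0, 2, 1⟩, ⟨124, 6, 0, 0, 3⟩, ⟨236, 9, 5, 5, 2⟩⟩ :=
  CoN.c 2 3 2 1 rfl rfl rfl rfl rfl CN0_c24 CN0_t22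

theorem CN0_t24 : CoN CNTab ⟨⟨7, 15, 32⟩, ⟨13, 31, 64⟩, ⟨7, 16, 32⟩, ⟨68, 2,
  0, 0, 1⟩, ⟨124, 6, 0, 2, 1⟩, ⟨124, 6, 0, 0, 3⟩, ⟨236, 9, 5, 5, 2⟩⟩ :=
  CoN.c 0 1 2 1 rfl rfl rfl rfl rfl CN0_c23 CN0_t23

theorem CN0_t25 : CoN CNTab ⟨⟨7, 15, 32⟩, ⟨3, 8, 16⟩, ⟨7, 16, 32⟩, ⟨68, 2,
  0, 0, 1⟩, ⟨124, 6, 0, 2, 1⟩, ⟨124, 6, 0, 0, 3⟩, ⟨236, 9, 5, 5, 2⟩⟩ :=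
  CoN.b 0 1 2 rfl rfl rfl CN0_t24 CN0_c30

theorem CN0_t26 : CoN CNTab ⟨⟨7, 15, 32⟩, ⟨3, 8, 16⟩, ⟨7, 16, 32⟩, ⟨68, 2,
  0, 0, 1⟩, ⟨124, 6, 0, 2, 1⟩, ⟨124, 6, 0, 0, 3⟩, ⟨20, 1, 1, 1, 0⟩⟩ :=
  CoN.c 0 3 2 5 rfl rfl rfl rfl rfl CN0_t25 CN0_c31

theorem CN0_t27 : CoN CNTab ⟨⟨7, 15, 32⟩, ⟨7, 16, 32⟩, ⟨1, 2, 4⟩, ⟨260, 10,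
  0, 2, 3⟩, ⟨124, 6, 0, 2, 1⟩, ⟨248, 12, 0, 2, 4⟩, ⟨224, 11, 5, 5, 3⟩⟩ :=
  CoN.c 1 2 2 1 rfl rfl rfl rfl rfl CN0_c33 CN0_c34

theorem CN0_t28 : CoN CNTab ⟨⟨7, 15, 32⟩, ⟨7, 16, 32⟩, ⟨1, 2, 4⟩, ⟨260, 10,
  0, 2, 3⟩, ⟨124, 6, 0, 2, 1⟩, ⟨124, 6, 0, 0, 3⟩, ⟨224, 11, 5, 5, 3⟩⟩ :=
  CoN.c 1 2 1 1 rfl rfl rfl rfl rfl CN0_t27 CN0_c35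

theorem CN0_t29 : CoN CNTab ⟨⟨7, 15, 32⟩, ⟨7, 16, 32⟩, ⟨1, 2, 4⟩, ⟨68, 2, 0,
  0, 1⟩, ⟨124, 6, 0, 2, 1⟩, ⟨124, 6, 0, 0, 3⟩, ⟨224, 11, 5, 5, 3⟩⟩ :=
  CoN.c 0 1 2 1 rfl rfl rfl rfl rfl CN0_c32 CN0_t28

theorem CN0_t30 : CoN CNTab ⟨⟨7, 15, 32⟩, ⟨7, 16, 32⟩, ⟨1, 2, 4⟩, ⟨68, 2, 0,
  0, 1⟩, ⟨124, 6, 0, 2, 1⟩, ⟨124, 6, 0, 0, 3⟩, ⟨20, 1, 1, 1, 0⟩⟩ :=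
  CoN.c 2 3 1 5 rfl rfl rfl rfl rfl CN0_t29 CN0_c36

theorem CN0_t31 : CoN CNTab ⟨⟨7, 15, 32⟩, ⟨3, 8, 16⟩, ⟨1, 2, 4⟩, ⟨68, 2, 0,
  0, 1⟩, ⟨124, 6, 0, 2, 1⟩, ⟨124, 6, 0, 0, 3⟩, ⟨20, 1, 1, 1, 0⟩⟩ :=
  CoN.b 1 1 4 rfl rfl rfl CN0_t26 CN0_t30

theorem CN0_t32 : CoN CNTab ⟨⟨7, 15, 32⟩, ⟨7, 16, 32⟩, ⟨1, 2, 4⟩, ⟨124, 6,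
  0, 0, 3⟩, ⟨124, 6, 0, 2, 1⟩, ⟨28, 2, 0, 0, 1⟩, ⟨20, 1, 1, 1, 0⟩⟩ :=
  CoN.c 2 3 3 4 rfl rfl rfl rfl rfl CN0_c38 CN0_c39

theorem CN0_t33 : CoN CNTab ⟨⟨7, 15, 32⟩, ⟨3, 8, 16⟩, ⟨1, 2, 4⟩, ⟨124, 6, 0,
  0, 3⟩, ⟨124, 6, 0, 2, 1⟩, ⟨28, 2, 0, 0, 1⟩, ⟨20, 1, 1, 1, 0⟩⟩ :=
  CoN.b 1 1 4 rfl rfl rfl CN0_c37 CN0_t32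

theorem CN0_t34 : CoN CNTab ⟨⟨7, 15, 32⟩, ⟨3, 8, 16⟩, ⟨1, 2, 4⟩, ⟨68, 2, 0,
  0, 1⟩, ⟨124, 6, 0, 2, 1⟩, ⟨28, 2, 0, 0, 1⟩, ⟨20, 1, 1, 1, 0⟩⟩ :=
  CoN.c 0 2 1 2 rfl rfl rfl rfl rfl CN0_t31 CN0_t33

theorem CN0_t35 : CoN CNTab ⟨⟨7, 15, 32⟩, ⟨7, 16, 32⟩, ⟨1, 2, 4⟩, ⟨124, 6,
  0, 2, 1⟩, ⟨28, 2, 0, 1, 0⟩, ⟨28, 2, 0, 0, 1⟩, ⟨164, 10, 4, 4, 3⟩⟩ :=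
  CoN.c 0 2 1 4 rfl rfl rfl rfl rfl CN0_c41 CN0_c42

theorem CN0_t36 : CoN CNTab ⟨⟨7, 15, 32⟩, ⟨7, 16, 32⟩, ⟨1, 2, 4⟩, ⟨124, 6,
  0, 2, 1⟩, ⟨28, 2, 0, 1, 0⟩, ⟨28, 2, 0, 0, 1⟩, ⟨20, 1, 1, 1, 0⟩⟩ :=
  CoN.c 2 3 3 4 rfl rfl rfl rfl rfl CN0_t35 CN0_c43

theorem CN0_t37 : CoN CNTab ⟨⟨7, 15, 32⟩, ⟨3, 8, 16⟩, ⟨1, 2, 4⟩, ⟨124, 6, 0,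
  2, 1⟩, ⟨28, 2, 0, 1, 0⟩, ⟨28, 2, 0, 0, 1⟩, ⟨20, 1, 1, 1, 0⟩⟩ :=
  CoN.b 1 1 4 rfl rfl rfl CN0_c40 CN0_t36

theorem CN0_t38 : CoN CNTab ⟨⟨7, 15, 32⟩, ⟨3, 8, 16⟩, ⟨1, 2, 4⟩, ⟨68, 2, 0,
  0, 1⟩, ⟨28, 2, 0, 1, 0⟩, ⟨28, 2, 0, 0, 1⟩, ⟨20, 1, 1, 1, 0⟩⟩ :=
  CoN.c 0 1 1 2 rfl rfl rfl rfl rfl CN0_t34 CN0_t37

theorem CN0_t39 : CoN CNTab ⟨⟨3, 7, 16⟩, ⟨3, 8, 16⟩, ⟨1, 2, 4⟩, ⟨68, 2, 0,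
  0, 1⟩, ⟨28, 2, 0, 1, 0⟩, ⟨28, 2, 0, 0, 1⟩, ⟨20, 1, 1, 1, 0⟩⟩ :=
  CoN.b 2 4 1 rfl rfl rfl CN0_t38 CN0_c44

theorem CN0_t40 : CoN CNTab ⟨⟨3, 7, 16⟩, ⟨3, 8, 16⟩, ⟨1, 2, 4⟩, ⟨1, 0, 0, 0,
  0⟩, ⟨28, 2, 0, 1, 0⟩, ⟨28, 2, 0, 0, 1⟩, ⟨20, 1, 1, 1, 0⟩⟩ :=
  CoN.c 0 2 40 1 rfl rfl rfl rfl rfl CN0_c22 CN0_t39

theorem CN0_t41 : CoN CNTab ⟨⟨3, 7, 16⟩, ⟨1, 4, 8⟩, ⟨1, 2, 4⟩, ⟨1, 0, 0, 0,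
  0⟩, ⟨28, 2, 0, 1, 0⟩, ⟨28, 2, 0, 0, 1⟩, ⟨20, 1, 1, 1, 0⟩⟩ :=
  CoN.b 1 1 2 rfl rfl rfl CN0_t18 CN0_t40

theorem CN0_t42 : CoN CNTab ⟨⟨3, 7, 16⟩, ⟨1, 4, 8⟩, ⟨1, 2, 4⟩, ⟨1, 0, 0, 0,
  0⟩, ⟨8, 2, 0, 1, 0⟩, ⟨28, 2, 0, 0, 1⟩, ⟨20, 1, 1, 1, 0⟩⟩ :=
  CoN.c 0 1 20 1 rfl rfl rfl rfl rfl CN0_t41 CN0_c45

theorem CN0_t43 : CoN CNTab ⟨⟨3, 7, 16⟩, ⟨1, 4, 8⟩, ⟨1, 2, 4⟩, ⟨1, 0, 0, 0,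
  0⟩, ⟨8, 2, 0, 1, 0⟩, ⟨8, 2, 0, 0, 1⟩, ⟨20, 1, 1, 1, 0⟩⟩ :=
  CoN.c 0 2 20 1 rfl rfl rfl rfl rfl CN0_t42 CN0_c46

theorem CN0_t44 : CoN CNTab ⟨⟨3, 7, 16⟩, ⟨1, 4, 8⟩, ⟨1, 2, 4⟩, ⟨1, 0, 0, 0,
  0⟩, ⟨8, 2, 0, 1, 0⟩, ⟨8, 2, 0, 0, 1⟩, ⟨4, 1, 1, 1, 0⟩⟩ :=
  CoN.c 0 3 16 1 rfl rfl rfl rfl rfl CN0_t43 CN0_c47

theorem CN0_t45 : CoN CNTab ⟨⟨1, 3, 8⟩, ⟨1, 4, 8⟩, ⟨1, 2, 4⟩, ⟨1, 0, 0, 0,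
  0⟩, ⟨8, 2, 0, 1, 0⟩, ⟨8, 2, 0, 0, 1⟩, ⟨4, 1, 1, 1, 0⟩⟩ :=
  CoN.b 2 2 1 rfl rfl rfl CN0_t44 CN0_c48

theorem CN0_t46 : CoN CNTab ⟨⟨1, 3, 8⟩, ⟨0, 1, 2⟩, ⟨1, 2, 4⟩, ⟨1, 0, 0, 0,
  0⟩, ⟨8, 2, 0, 1, 0⟩, ⟨8, 2, 0, 0, 1⟩, ⟨4, 1, 1, 1, 0⟩⟩ :=
  CoN.b 1 2 1 rfl rfl rfl CN0_c3 CN0_t45

theorem CN0_t47 : CoN CNTab ⟨⟨1, 1, 4⟩, ⟨0, 1, 2⟩, ⟨1, 2, 4⟩, ⟨1, 0, 0, 0,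
  0⟩, ⟨8, 2, 0, 1, 0⟩, ⟨8, 2, 0, 0, 1⟩, ⟨4, 1, 1, 1, 0⟩⟩ :=
  CoN.b 0 1 2 rfl rfl rfl CN0_t1 CN0_t46

theorem CN0_t48 : CoN CNTab ⟨⟨3, 3, 8⟩, ⟨5, 7, 16⟩, ⟨3, 4, 8⟩, ⟨1, 0, 0, 0,
  0⟩, ⟨28, 2, 0, 1, 0⟩, ⟨8, 2, 0, 0, 1⟩, ⟨4, 1, 1, 1, 0⟩⟩ :=
  CoN.c 2 3 3 4 rfl rfl rfl rfl rfl CN0_c49 CN0_c50

theorem CN0_t49 : CoN CNTab ⟨⟨3, 3, 8⟩, ⟨5, 7, 16⟩, ⟨3, 4, 8⟩, ⟨1, 0, 0, 0,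
  0⟩, ⟨8, 2, 0, 1, 0⟩, ⟨8, 2, 0, 0, 1⟩, ⟨4, 1, 1, 1, 0⟩⟩ :=
  CoN.c 0 1 20 1 rfl rfl rfl rfl rfl CN0_t48 CN0_c51

theorem CN0_t50 : CoN CNTab ⟨⟨5, 7, 16⟩, ⟨1, 2, 4⟩, ⟨3, 4, 8⟩, ⟨1, 0, 0, 0,
  0⟩, ⟨44, 6, 0, 2, 1⟩, ⟨272, 28, 0, 6, 8⟩, ⟨1636, 134, 20, 38, 39⟩⟩ :=
  CoN.b 0 1 4 rfl rfl rfl CN0_c53 CN0_c54

theorem CN0_t51 : CoN CNTab ⟨⟨5, 7, 16⟩, ⟨1, 2, 4⟩, ⟨3, 4, 8⟩, ⟨1, 0, 0, 0,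
  0⟩, ⟨44, 6, 0, 2, 1⟩, ⟨272, 28, 0, 6, 8⟩, ⟨164, 10, 4, 4, 3⟩⟩ :=
  CoN.c 2 3 3 5 rfl rfl rfl rfl rfl CN0_t50 CN0_c55

theorem CN0_t52 : CoN CNTab ⟨⟨5, 7, 16⟩, ⟨1, 2, 4⟩, ⟨3, 4, 8⟩, ⟨1, 0, 0, 0,
  0⟩, ⟨44, 6, 0, 2, 1⟩, ⟨28, 2, 0, 0, 1⟩, ⟨164, 10, 4, 4, 3⟩⟩ :=
  CoN.c 1 2 3 5 rfl rfl rfl rfl rfl CN0_t51 CN0_c56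

theorem CN0_t53 : CoN CNTab ⟨⟨5, 7, 16⟩, ⟨1, 2, 4⟩, ⟨3, 4, 8⟩, ⟨1, 0, 0, 0,
  0⟩, ⟨8, 2, 0, 1, 0⟩, ⟨28, 2, 0, 0, 1⟩, ⟨164, 10, 4, 4, 3⟩⟩ :=
  CoN.c 1 2 2 1 rfl rfl rfl rfl rfl CN0_c52 CN0_t52

theorem CN0_t54 : CoN CNTab ⟨⟨5, 7, 16⟩, ⟨1, 2, 4⟩, ⟨3, 4, 8⟩, ⟨1, 0, 0, 0,
  0⟩, ⟨8, 2, 0, 1, 0⟩, ⟨28, 2, 0, 0, 1⟩, ⟨20, 1, 1, 1, 0⟩⟩ :=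
  CoN.c 2 3 3 4 rfl rfl rfl rfl rfl CN0_t53 CN0_c57

theorem CN0_t55 : CoN CNTab ⟨⟨21, 31, 64⟩, ⟨1, 2, 4⟩, ⟨3, 4, 8⟩, ⟨1636, 134,
  20, 38, 39⟩, ⟨2116, 234, 0, 58, 59⟩, ⟨272, 28, 0, 6, 8⟩, ⟨2132, 208, 30,
  54, 65⟩⟩ :=
  CoN.c 0 1 4 3 rfl rfl rfl rfl rfl CN0_c64 CN0_c65

theorem CN0_t56 : CoN CNTab ⟨⟨21, 31, 64⟩, ⟨1, 2, 4⟩, ⟨3, 4, 8⟩, ⟨1636, 134,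
  20, 38, 39⟩, ⟨1028, 122, 0, 34, 27⟩, ⟨272, 28, 0, 6, 8⟩, ⟨2132, 208, 30,
  54, 65⟩⟩ :=
  CoN.c 1 2 1 4 rfl rfl rfl rfl rfl CN0_c63 CN0_t55

theorem CN0_t57 : CoN CNTab ⟨⟨21, 31, 64⟩, ⟨1, 2, 4⟩, ⟨3, 4, 8⟩, ⟨1636, 134,
  20, 38, 39⟩, ⟨44, 6, 0, 2, 1⟩, ⟨272, 28, 0, 6, 8⟩, ⟨2132, 208, 30, 54,
  65⟩⟩ :=
  CoN.c 1 2 11 2 rfl rfl rfl rfl rfl CN0_c62 CN0_t56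

theorem CN0_t58 : CoN CNTab ⟨⟨9, 15, 32⟩, ⟨1, 2, 4⟩, ⟨3, 4, 8⟩, ⟨1636, 134,
  20, 38, 39⟩, ⟨44, 6, 0, 2, 1⟩, ⟨272, 28, 0, 6, 8⟩, ⟨2132, 208, 30, 54,
  65⟩⟩ :=
  CoN.b 2 4 1 rfl rfl rfl CN0_t57 CN0_c66

theorem CN0_t59 : CoN CNTab ⟨⟨5, 7, 16⟩, ⟨1, 2, 4⟩, ⟨3, 4, 8⟩, ⟨1636, 134,
  20, 38, 39⟩, ⟨44, 6, 0, 2, 1⟩, ⟨272, 28, 0, 6, 8⟩, ⟨2132, 208, 30, 54,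
  65⟩⟩ :=
  CoN.b 0 1 4 rfl rfl rfl CN0_c61 CN0_t58

theorem CN0_t60 : CoN CNTab ⟨⟨5, 7, 16⟩, ⟨1, 2, 4⟩, ⟨3, 4, 8⟩, ⟨1636, 134,
  20, 38, 39⟩, ⟨44, 6, 0, 2, 1⟩, ⟨272, 28, 0, 6, 8⟩, ⟨348, 32, 10, 10, 11⟩⟩
  :=
  CoN.c 2 3 4 3 rfl rfl rfl rfl rfl CN0_t59 CN0_c67

theorem CN0_t61 : CoN CNTab ⟨⟨5, 7, 16⟩, ⟨1, 2, 4⟩, ⟨3, 4, 8⟩, ⟨164, 10, 4,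
  4, 3⟩, ⟨44, 6, 0, 2, 1⟩, ⟨272, 28, 0, 6, 8⟩, ⟨348, 32, 10, 10, 11⟩⟩ :=
  CoN.c 0 2 5 3 rfl rfl rfl rfl rfl CN0_c60 CN0_t60

theorem CN0_t62 : CoN CNTab ⟨⟨5, 7, 16⟩, ⟨1, 2, 4⟩, ⟨3, 4, 8⟩, ⟨164, 10, 4,
  4, 3⟩, ⟨44, 6, 0, 2, 1⟩, ⟨28, 2, 0, 0, 1⟩, ⟨348, 32, 10, 10, 11⟩⟩ :=
  CoN.c 1 2 3 5 rfl rfl rfl rfl rfl CN0_t61 CN0_c68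

theorem CN0_t63 : CoN CNTab ⟨⟨5, 7, 16⟩, ⟨1, 2, 4⟩, ⟨3, 4, 8⟩, ⟨164, 10, 4,
  4, 3⟩, ⟨8, 2, 0, 1, 0⟩, ⟨28, 2, 0, 0, 1⟩, ⟨348, 32, 10, 10, 11⟩⟩ :=
  CoN.c 1 2 2 1 rfl rfl rfl rfl rfl CN0_c59 CN0_t62

theorem CN0_t64 : CoN CNTab ⟨⟨5, 7, 16⟩, ⟨1, 2, 4⟩, ⟨3, 4, 8⟩, ⟨164, 10, 4,
  4, 3⟩, ⟨8, 2, 0, 1, 0⟩, ⟨28, 2, 0, 0, 1⟩, ⟨76, 9, 5, 5, 2⟩⟩ :=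
  CoN.c 2 3 7 2 rfl rfl rfl rfl rfl CN0_t63 CN0_c69

theorem CN0_t65 : CoN CNTab ⟨⟨5, 7, 16⟩, ⟨1, 2, 4⟩, ⟨3, 4, 8⟩, ⟨20, 1, 1, 1,
  0⟩, ⟨8, 2, 0, 1, 0⟩, ⟨28, 2, 0, 0, 1⟩, ⟨76, 9, 5, 5, 2⟩⟩ :=
  CoN.c 0 2 4 3 rfl rfl rfl rfl rfl CN0_c58 CN0_t64

theorem CN0_t66 : CoN CNTab ⟨⟨5, 7, 16⟩, ⟨1, 2, 4⟩, ⟨3, 4, 8⟩, ⟨20, 1, 1, 1,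
  0⟩, ⟨8, 2, 0, 1, 0⟩, ⟨28, 2, 0, 0, 1⟩, ⟨4, 1, 1, 1, 0⟩⟩ :=
  CoN.c 2 3 2 5 rfl rfl rfl rfl rfl CN0_t65 CN0_c70

theorem CN0_t67 : CoN CNTab ⟨⟨5, 7, 16⟩, ⟨1, 2, 4⟩, ⟨3, 4, 8⟩, ⟨1, 0, 0, 0,
  0⟩, ⟨8, 2, 0, 1, 0⟩, ⟨28, 2, 0, 0, 1⟩, ⟨4, 1, 1, 1, 0⟩⟩ :=
  CoN.c 0 3 16 1 rfl rfl rfl rfl rfl CN0_t54 CN0_t66

theorem CN0_t68 : CoN CNTab ⟨⟨41, 61, 128⟩, ⟨5, 8, 16⟩, ⟨11, 15, 32⟩, ⟨272,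
  28, 0, 6, 8⟩, ⟨2116, 234, 0, 58, 59⟩, ⟨4172, 478, 0, 116, 123⟩, ⟨2080,
  225, 15, 51, 69⟩⟩ :=
  CoN.c 0 3 8 1 rfl rfl rfl rfl rfl CN0_c75 CN0_c76

theorem CN0_t69 : CoN CNTab ⟨⟨21, 29, 64⟩, ⟨5, 8, 16⟩, ⟨11, 15, 32⟩, ⟨272,
  28, 0, 6, 8⟩, ⟨2116, 234, 0, 58, 59⟩, ⟨4172, 478, 0, 116, 123⟩, ⟨2080,
  225, 15, 51, 69⟩⟩ :=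
  CoN.b 0 1 4 rfl rfl rfl CN0_c74 CN0_t68

theorem CN0_t70 : CoN CNTab ⟨⟨21, 29, 64⟩, ⟨5, 8, 16⟩, ⟨11, 15, 32⟩, ⟨272,
  28, 0, 6, 8⟩, ⟨2116, 234, 0, 58, 59⟩, ⟨4172, 478, 0, 116, 123⟩, ⟨992, 113,
  15, 27, 37⟩⟩ :=
  CoN.c 0 3 4 1 rfl rfl rfl rfl rfl CN0_t69 CN0_c77

theorem CN0_t71 : CoN CNTab ⟨⟨21, 29, 64⟩, ⟨5, 8, 16⟩, ⟨11, 15, 32⟩, ⟨272,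
  28, 0, 6, 8⟩, ⟨1028, 122, 0, 34, 27⟩, ⟨4172, 478, 0, 116, 123⟩, ⟨992, 113,
  15, 27, 37⟩⟩ :=
  CoN.c 0 1 4 1 rfl rfl rfl rfl rfl CN0_t70 CN0_c78

theorem CN0_t72 : CoN CNTab ⟨⟨21, 29, 64⟩, ⟨5, 8, 16⟩, ⟨11, 15, 32⟩, ⟨272,
  28, 0, 6, 8⟩, ⟨1028, 122, 0, 34, 27⟩, ⟨2116, 234, 0, 48, 69⟩, ⟨992, 113,
  15, 27, 37⟩⟩ :=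
  CoN.c 1 2 2 1 rfl rfl rfl rfl rfl CN0_t71 CN0_c79

theorem CN0_t73 : CoN CNTab ⟨⟨21, 29, 64⟩, ⟨5, 8, 16⟩, ⟨11, 15, 32⟩, ⟨272,
  28, 0, 6, 8⟩, ⟨1028, 122, 0, 34, 27⟩, ⟨1028, 122, 0, 24, 37⟩, ⟨992, 113,
  15, 27, 37⟩⟩ :=
  CoN.c 0 2 4 1 rfl rfl rfl rfl rfl CN0_t72 CN0_c80

theorem CN0_t74 : CoN CNTab ⟨⟨5, 7, 16⟩, ⟨5, 8, 16⟩, ⟨11, 15, 32⟩, ⟨272, 28,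
  0, 6, 8⟩, ⟨1028, 122, 0, 34, 27⟩, ⟨1028, 122, 0, 24, 37⟩, ⟨992, 113, 15,
  27, 37⟩⟩ :=
  CoN.b 2 1 2 rfl rfl rfl CN0_t73 CN0_c81

theorem CN0_t75 : CoN CNTab ⟨⟨5, 7, 16⟩, ⟨5, 8, 16⟩, ⟨11, 15, 32⟩, ⟨272, 28,
  0, 6, 8⟩, ⟨1028, 122, 0, 34, 27⟩, ⟨1028, 122, 0, 24, 37⟩, ⟨448, 57, 15,
  15, 21⟩⟩ :=
  CoN.c 0 3 2 1 rfl rfl rfl rfl rfl CN0_t74 CN0_c82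

theorem CN0_t76 : CoN CNTab ⟨⟨5, 7, 16⟩, ⟨5, 8, 16⟩, ⟨11, 15, 32⟩, ⟨272, 28,
  0, 6, 8⟩, ⟨44, 6, 0, 2, 1⟩, ⟨1028, 122, 0, 24, 37⟩, ⟨448, 57, 15, 15, 21⟩⟩
  :=
  CoN.c 0 1 2 11 rfl rfl rfl rfl rfl CN0_t75 CN0_c83

theorem CN0_t77 : CoN CNTab ⟨⟨5, 7, 16⟩, ⟨5, 8, 16⟩, ⟨11, 15, 32⟩, ⟨272, 28,
  0, 6, 8⟩, ⟨44, 6, 0, 2, 1⟩, ⟨484, 66, 0, 12, 21⟩, ⟨448, 57, 15, 15, 21⟩⟩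
  :=
  CoN.c 0 2 2 1 rfl rfl rfl rfl rfl CN0_t76 CN0_c84

theorem CN0_t78 : CoN CNTab ⟨⟨5, 7, 16⟩, ⟨5, 8, 16⟩, ⟨3, 4, 8⟩, ⟨272, 28, 0,
  6, 8⟩, ⟨44, 6, 0, 2, 1⟩, ⟨484, 66, 0, 12, 21⟩, ⟨448, 57, 15, 15, 21⟩⟩ :=
  CoN.b 2 2 1 rfl rfl rfl CN0_c73 CN0_t77

theorem CN0_t79 : CoN CNTab ⟨⟨5, 7, 16⟩, ⟨5, 8, 16⟩, ⟨3, 4, 8⟩, ⟨272, 28, 0,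
  6, 8⟩, ⟨44, 6, 0, 2, 1⟩, ⟨44, 6, 0, 0, 3⟩, ⟨448, 57, 15, 15, 21⟩⟩ :=
  CoN.c 1 2 6 5 rfl rfl rfl rfl rfl CN0_t78 CN0_c85

theorem CN0_t80 : CoN CNTab ⟨⟨5, 7, 16⟩, ⟨5, 8, 16⟩, ⟨3, 4, 8⟩, ⟨272, 28, 0,
  6, 8⟩, ⟨44, 6, 0, 2, 1⟩, ⟨448, 57, 15, 15, 21⟩, ⟨76, 9, 5, 5, 2⟩⟩ :=
  CoN.b 2 2 1 rfl rfl rfl CN0_c86 CN0_c87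

theorem CN0_t81 : CoN CNTab ⟨⟨5, 7, 16⟩, ⟨5, 8, 16⟩, ⟨3, 4, 8⟩, ⟨272, 28, 0,
  6, 8⟩, ⟨44, 6, 0, 2, 1⟩, ⟨44, 6, 0, 0, 3⟩, ⟨76, 9, 5, 5, 2⟩⟩ :=
  CoN.c 2 3 5 3 rfl rfl rfl rfl rfl CN0_t79 CN0_t80

theorem CN0_t82 : CoN CNTab ⟨⟨5, 7, 16⟩, ⟨1, 2, 4⟩, ⟨3, 4, 8⟩, ⟨272, 28, 0,
  6, 8⟩, ⟨44, 6, 0, 2, 1⟩, ⟨44, 6, 0, 0, 3⟩, ⟨76, 9, 5, 5, 2⟩⟩ :=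
  CoN.b 1 2 1 rfl rfl rfl CN0_c72 CN0_t81

theorem CN0_t83 : CoN CNTab ⟨⟨5, 7, 16⟩, ⟨1, 2, 4⟩, ⟨3, 4, 8⟩, ⟨28, 2, 0, 0,
  1⟩, ⟨44, 6, 0, 2, 1⟩, ⟨44, 6, 0, 0, 3⟩, ⟨76, 9, 5, 5, 2⟩⟩ :=
  CoN.c 0 1 5 3 rfl rfl rfl rfl rfl CN0_c71 CN0_t82

theorem CN0_t84 : CoN CNTab ⟨⟨5, 7, 16⟩, ⟨1, 2, 4⟩, ⟨3, 4, 8⟩, ⟨28, 2, 0, 0,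
  1⟩, ⟨44, 6, 0, 2, 1⟩, ⟨8, 2, 0, 0, 1⟩, ⟨76, 9, 5, 5, 2⟩⟩ :=
  CoN.c 0 2 1 2 rfl rfl rfl rfl rfl CN0_t83 CN0_c88

theorem CN0_t85 : CoN CNTab ⟨⟨5, 7, 16⟩, ⟨1, 2, 4⟩, ⟨3, 4, 8⟩, ⟨28, 2, 0, 0,
  1⟩, ⟨8, 2, 0, 1, 0⟩, ⟨8, 2, 0, 0, 1⟩, ⟨76, 9, 5, 5, 2⟩⟩ :=
  CoN.c 0 1 1 2 rfl rfl rfl rfl rfl CN0_t84 CN0_c89

theorem CN0_t86 : CoN CNTab ⟨⟨5, 7, 16⟩, ⟨1, 2, 4⟩, ⟨3, 4, 8⟩, ⟨28, 2, 0, 0,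
  1⟩, ⟨8, 2, 0, 1, 0⟩, ⟨8, 2, 0, 0, 1⟩, ⟨4, 1, 1, 1, 0⟩⟩ :=
  CoN.c 0 3 2 5 rfl rfl rfl rfl rfl CN0_t85 CN0_c90

theorem CN0_t87 : CoN CNTab ⟨⟨5, 7, 16⟩, ⟨1, 2, 4⟩, ⟨3, 4, 8⟩, ⟨1, 0, 0, 0,
  0⟩, ⟨8, 2, 0, 1, 0⟩, ⟨8, 2, 0, 0, 1⟩, ⟨4, 1, 1, 1, 0⟩⟩ :=
  CoN.c 0 2 20 1 rfl rfl rfl rfl rfl CN0_t67 CN0_t86

theorem CN0_t88 : CoN CNTab ⟨⟨3, 3, 8⟩, ⟨1, 2, 4⟩, ⟨3, 4, 8⟩, ⟨1, 0, 0, 0,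
  0⟩, ⟨8, 2, 0, 1, 0⟩, ⟨8, 2, 0, 0, 1⟩, ⟨4, 1, 1, 1, 0⟩⟩ :=
  CoN.b 0 1 2 rfl rfl rfl CN0_t49 CN0_t87

theorem CN0_t89 : CoN CNTab ⟨⟨15, 15, 32⟩, ⟨3, 4, 8⟩, ⟨31, 31, 64⟩, ⟨1, 0,
  0, 0, 0⟩, ⟨1884, 30, 0, 9, 6⟩, ⟨112, 4, 0, 1, 1⟩, ⟨2952, 738, 16, 204,
  173⟩⟩ :=
  CoN.c 0 1 2016 1 rfl rfl rfl rfl rfl CN0_c94 CN0_c95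

theorem CN0_t90 : CoN CNTab ⟨⟨15, 15, 32⟩, ⟨3, 4, 8⟩, ⟨31, 31, 64⟩, ⟨1, 0,
  0, 0, 0⟩, ⟨876, 30, 0, 9, 6⟩, ⟨112, 4, 0, 1, 1⟩, ⟨2952, 738, 16, 204,
  173⟩⟩ :=
  CoN.c 0 1 1008 1 rfl rfl rfl rfl rfl CN0_t89 CN0_c96

theorem CN0_t91 : CoN CNTab ⟨⟨15, 15, 32⟩, ⟨3, 4, 8⟩, ⟨31, 31, 64⟩, ⟨1, 0,
  0, 0, 0⟩, ⟨876, 30, 0, 9, 6⟩, ⟨48, 4, 0, 1, 1⟩, ⟨2952, 738, 16, 204, 173⟩⟩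
  :=
  CoN.c 0 2 64 1 rfl rfl rfl rfl rfl CN0_t90 CN0_c97

theorem CN0_t92 : CoN CNTab ⟨⟨15, 15, 32⟩, ⟨3, 4, 8⟩, ⟨31, 31, 64⟩, ⟨1, 0,
  0, 0, 0⟩, ⟨876, 30, 0, 9, 6⟩, ⟨16, 4, 0, 1, 1⟩, ⟨2952, 738, 16, 204, 173⟩⟩
  :=
  CoN.c 0 2 32 1 rfl rfl rfl rfl rfl CN0_t91 CN0_c98

theorem CN0_t93 : CoN CNTab ⟨⟨15, 15, 32⟩, ⟨3, 4, 8⟩, ⟨31, 31, 64⟩, ⟨1, 0,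
  0, 0, 0⟩, ⟨372, 30, 0, 9, 6⟩, ⟨16, 4, 0, 1, 1⟩, ⟨2952, 738, 16, 204, 173⟩⟩
  :=
  CoN.c 0 1 504 1 rfl rfl rfl rfl rfl CN0_t92 CN0_c99

theorem CN0_t94 : CoN CNTab ⟨⟨15, 15, 32⟩, ⟨3, 4, 8⟩, ⟨1, 1, 2⟩, ⟨1, 0, 0,
  0, 0⟩, ⟨372, 30, 0, 9, 6⟩, ⟨16, 4, 0, 1, 1⟩, ⟨2952, 738, 16, 204, 173⟩⟩ :=
  CoN.b 2 16 1 rfl rfl rfl CN0_c93 CN0_t93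

theorem CN0_t95 : CoN CNTab ⟨⟨15, 15, 32⟩, ⟨3, 4, 8⟩, ⟨1, 1, 2⟩, ⟨1, 0, 0,
  0, 0⟩, ⟨120, 30, 0, 9, 6⟩, ⟨16, 4, 0, 1, 1⟩, ⟨2952, 738, 16, 204, 173⟩⟩ :=
  CoN.c 0 1 252 1 rfl rfl rfl rfl rfl CN0_t94 CN0_c100

theorem CN0_t96 : CoN CNTab ⟨⟨15, 15, 32⟩, ⟨3, 4, 8⟩, ⟨1, 1, 2⟩, ⟨1, 0, 0,
  0, 0⟩, ⟨5832, 1458, 16, 420, 317⟩, ⟨2952, 738, 16, 204, 173⟩, ⟨5816, 1454,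
  48, 422, 329⟩⟩ :=
  CoN.c 2 3 2 1 rfl rfl rfl rfl rfl CN0_c102 CN0_c103

theorem CN0_t97 : CoN CNTab ⟨⟨15, 15, 32⟩, ⟨3, 4, 8⟩, ⟨1, 1, 2⟩, ⟨1, 0, 0,
  0, 0⟩, ⟨5832, 1458, 16, 420, 317⟩, ⟨2952, 738, 16, 204, 173⟩, ⟨1432, 358,
  16, 109, 78⟩⟩ :=
  CoN.c 2 3 1 2 rfl rfl rfl rfl rfl CN0_t96 CN0_c104

theorem CN0_t98 : CoN CNTab ⟨⟨15, 15, 32⟩, ⟨3, 4, 8⟩, ⟨1, 1, 2⟩, ⟨1, 0, 0,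
  0, 0⟩, ⟨120, 30, 0, 9, 6⟩, ⟨2952, 738, 16, 204, 173⟩, ⟨1432, 358, 16, 109,
  78⟩⟩ :=
  CoN.c 1 2 24 1 rfl rfl rfl rfl rfl CN0_c101 CN0_t97

theorem CN0_t99 : CoN CNTab ⟨⟨15, 15, 32⟩, ⟨3, 4, 8⟩, ⟨1, 1, 2⟩, ⟨1, 0, 0,
  0, 0⟩, ⟨120, 30, 0, 9, 6⟩, ⟨16, 4, 0, 1, 1⟩, ⟨1432, 358, 16, 109, 78⟩⟩ :=
  CoN.c 2 3 95 1 rfl rfl rfl rfl rfl CN0_t95 CN0_t98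

theorem CN0_t100 : CoN CNTab ⟨⟨15, 15, 32⟩, ⟨3, 4, 8⟩, ⟨1, 1, 2⟩, ⟨1, 0, 0,
  0, 0⟩, ⟨1432, 358, 16, 109, 78⟩, ⟨16, 4, 0, 1, 1⟩, ⟨712, 178, 16, 55, 42⟩⟩
  :=
  CoN.c 0 2 32 1 rfl rfl rfl rfl rfl CN0_c105 CN0_c106

theorem CN0_t101 : CoN CNTab ⟨⟨15, 15, 32⟩, ⟨3, 4, 8⟩, ⟨1, 1, 2⟩, ⟨1, 0, 0,
  0, 0⟩, ⟨120, 30, 0, 9, 6⟩, ⟨16, 4, 0, 1, 1⟩, ⟨712, 178, 16, 55, 42⟩⟩ :=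
  CoN.c 1 3 6 1 rfl rfl rfl rfl rfl CN0_t99 CN0_t100

theorem CN0_t102 : CoN CNTab ⟨⟨7, 7, 16⟩, ⟨3, 4, 8⟩, ⟨1, 1, 2⟩, ⟨1, 0, 0, 0,
  0⟩, ⟨120, 30, 0, 9, 6⟩, ⟨16, 4, 0, 1, 1⟩, ⟨712, 178, 16, 55, 42⟩⟩ :=
  CoN.b 2 8 1 rfl rfl rfl CN0_t101 CN0_c107

theorem CN0_t103 : CoN CNTab ⟨⟨7, 7, 16⟩, ⟨3, 4, 8⟩, ⟨1, 1, 2⟩, ⟨1, 0, 0, 0,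
  0⟩, ⟨120, 30, 0, 9, 6⟩, ⟨16, 4, 0, 1, 1⟩, ⟨88, 22, 4, 7, 6⟩⟩ :=
  CoN.c 1 3 3 4 rfl rfl rfl rfl rfl CN0_t102 CN0_c108

theorem CN0_t104 : CoN CNTab ⟨⟨7, 7, 16⟩, ⟨3, 4, 8⟩, ⟨1, 1, 2⟩, ⟨1, 0, 0, 0,
  0⟩, ⟨56, 14, 0, 5, 2⟩, ⟨16, 4, 0, 1, 1⟩, ⟨88, 22, 4, 7, 6⟩⟩ :=
  CoN.c 1 2 1 4 rfl rfl rfl rfl rfl CN0_c92 CN0_t103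

theorem CN0_t105 : CoN CNTab ⟨⟨7, 7, 16⟩, ⟨3, 4, 8⟩, ⟨1, 1, 2⟩, ⟨1, 0, 0, 0,
  0⟩, ⟨56, 14, 0, 5, 2⟩, ⟨16, 4, 0, 1, 1⟩, ⟨40, 10, 4, 4, 3⟩⟩ :=
  CoN.c 2 3 3 1 rfl rfl rfl rfl rfl CN0_t104 CN0_c109

theorem CN0_t106 : CoN CNTab ⟨⟨7, 7, 16⟩, ⟨3, 4, 8⟩, ⟨1, 1, 2⟩, ⟨1, 0, 0, 0,
  0⟩, ⟨8, 2, 0, 1, 0⟩, ⟨16, 4, 0, 1, 1⟩, ⟨40, 10, 4, 4, 3⟩⟩ :=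
  CoN.c 1 2 3 2 rfl rfl rfl rfl rfl CN0_c91 CN0_t105

theorem CN0_t107 : CoN CNTab ⟨⟨13, 15, 32⟩, ⟨3, 4, 8⟩, ⟨1, 1, 2⟩, ⟨1, 0, 0,
  0, 0⟩, ⟨1136, 92, 4, 22, 26⟩, ⟨1464, 366, 12, 84, 105⟩, ⟨1456, 364, 20,
  86, 106⟩⟩ :=
  CoN.c 2 3 1 1 rfl rfl rfl rfl rfl CN0_c112 CN0_c113

theorem CN0_t108 : CoN CNTab ⟨⟨13, 15, 32⟩, ⟨3, 4, 8⟩, ⟨1, 1, 2⟩, ⟨1, 0, 0,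
  0, 0⟩, ⟨368, 92, 4, 22, 26⟩, ⟨1464, 366, 12, 84, 105⟩, ⟨1456, 364, 20, 86,
  106⟩⟩ :=
  CoN.c 0 1 768 1 rfl rfl rfl rfl rfl CN0_t107 CN0_c114

theorem CN0_t109 : CoN CNTab ⟨⟨13, 15, 32⟩, ⟨3, 4, 8⟩, ⟨1, 1, 2⟩, ⟨1, 0, 0,
  0, 0⟩, ⟨368, 92, 4, 22, 26⟩, ⟨728, 182, 4, 40, 53⟩, ⟨1456, 364, 20, 86,
  106⟩⟩ :=
  CoN.c 1 2 2 1 rfl rfl rfl rfl rfl CN0_t108 CN0_c115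

theorem CN0_t110 : CoN CNTab ⟨⟨13, 15, 32⟩, ⟨3, 4, 8⟩, ⟨1, 1, 2⟩, ⟨1, 0, 0,
  0, 0⟩, ⟨368, 92, 4, 22, 26⟩, ⟨728, 182, 4, 40, 53⟩, ⟨720, 180, 12, 42,
  54⟩⟩ :=
  CoN.c 1 3 2 1 rfl rfl rfl rfl rfl CN0_t109 CN0_c116

theorem CN0_t111 : CoN CNTab ⟨⟨13, 15, 32⟩, ⟨3, 4, 8⟩, ⟨1, 1, 2⟩, ⟨1, 0, 0,
  0, 0⟩, ⟨368, 92, 4, 22, 26⟩, ⟨728, 182, 4, 40, 53⟩, ⟨176, 44, 4, 10, 14⟩⟩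
  :=
  CoN.c 1 3 1 2 rfl rfl rfl rfl rfl CN0_t110 CN0_c117

theorem CN0_t112 : CoN CNTab ⟨⟨7, 7, 16⟩, ⟨3, 4, 8⟩, ⟨1, 1, 2⟩, ⟨1, 0, 0, 0,
  0⟩, ⟨368, 92, 4, 22, 26⟩, ⟨728, 182, 4, 40, 53⟩, ⟨176, 44, 4, 10, 14⟩⟩ :=
  CoN.b 0 1 2 rfl rfl rfl CN0_c111 CN0_t111

theorem CN0_t113 : CoN CNTab ⟨⟨7, 7, 16⟩, ⟨3, 4, 8⟩, ⟨1, 1, 2⟩, ⟨1, 0, 0, 0,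
  0⟩, ⟨368, 92, 4, 22, 26⟩, ⟨120, 30, 0, 6, 9⟩, ⟨176, 44, 4, 10, 14⟩⟩ :=
  CoN.c 1 2 1 3 rfl rfl rfl rfl rfl CN0_t112 CN0_c118

theorem CN0_t114 : CoN CNTab ⟨⟨7, 7, 16⟩, ⟨3, 4, 8⟩, ⟨1, 1, 2⟩, ⟨1, 0, 0, 0,
  0⟩, ⟨16, 4, 0, 1, 1⟩, ⟨120, 30, 0, 6, 9⟩, ⟨176, 44, 4, 10, 14⟩⟩ :=
  CoN.c 1 3 12 1 rfl rfl rfl rfl rfl CN0_c110 CN0_t113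

theorem CN0_t115 : CoN CNTab ⟨⟨7, 7, 16⟩, ⟨3, 4, 8⟩, ⟨1, 1, 2⟩, ⟨1, 0, 0, 0,
  0⟩, ⟨16, 4, 0, 1, 1⟩, ⟨56, 14, 0, 2, 5⟩, ⟨176, 44, 4, 10, 14⟩⟩ :=
  CoN.c 1 2 4 1 rfl rfl rfl rfl rfl CN0_t114 CN0_c119

theorem CN0_t116 : CoN CNTab ⟨⟨7, 7, 16⟩, ⟨3, 4, 8⟩, ⟨1, 1, 2⟩, ⟨1, 0, 0, 0,
  0⟩, ⟨16, 4, 0, 1, 1⟩, ⟨56, 14, 0, 2, 5⟩, ⟨80, 20, 4, 4, 8⟩⟩ :=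
  CoN.c 1 3 6 1 rfl rfl rfl rfl rfl CN0_t115 CN0_c120

theorem CN0_t117 : CoN CNTab ⟨⟨7, 7, 16⟩, ⟨3, 4, 8⟩, ⟨1, 1, 2⟩, ⟨1, 0, 0, 0,
  0⟩, ⟨16, 4, 0, 1, 1⟩, ⟨8, 2, 0, 0, 1⟩, ⟨80, 20, 4, 4, 8⟩⟩ :=
  CoN.c 1 2 2 3 rfl rfl rfl rfl rfl CN0_t116 CN0_c121

theorem CN0_t118 : CoN CNTab ⟨⟨425, 507, 1024⟩, ⟨447, 509, 1024⟩, ⟨117, 127,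
  256⟩, ⟨1, 0, 0, 0, 0⟩, ⟨2672, 92, 4, 22, 26⟩, ⟨783948, 498, 32, 119, 146⟩,
  ⟨3071004, 16778, 928, 4075, 4778⟩⟩ :=
  CoN.c 0 2 786176 1 rfl rfl rfl rfl rfl CN0_c130 CN0_c131

theorem CN0_t119 : CoN CNTab ⟨⟨425, 507, 1024⟩, ⟨447, 509, 1024⟩, ⟨117, 127,
  256⟩, ⟨1, 0, 0, 0, 0⟩, ⟨2672, 92, 4, 22, 26⟩, ⟨783948, 498, 32, 119, 146⟩,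
  ⟨1503108, 15782, 864, 3837, 4486⟩⟩ :=
  CoN.c 2 3 2 1 rfl rfl rfl rfl rfl CN0_t118 CN0_c132

theorem CN0_t120 : CoN CNTab ⟨⟨425, 507, 1024⟩, ⟨447, 509, 1024⟩, ⟨117, 127,
  256⟩, ⟨1, 0, 0, 0, 0⟩, ⟨2672, 92, 4, 22, 26⟩, ⟨783948, 498, 32, 119, 146⟩,
  ⟨359580, 7642, 416, 1859, 2170⟩⟩ :=
  CoN.c 2 3 1 2 rfl rfl rfl rfl rfl CN0_t119 CN0_c133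

theorem CN0_t121 : CoN CNTab ⟨⟨425, 507, 1024⟩, ⟨447, 509, 1024⟩, ⟨117, 127,
  256⟩, ⟨1, 0, 0, 0, 0⟩, ⟨1136, 92, 4, 22, 26⟩, ⟨783948, 498, 32, 119, 146⟩,
  ⟨359580, 7642, 416, 1859, 2170⟩⟩ :=
  CoN.c 0 1 1536 1 rfl rfl rfl rfl rfl CN0_t120 CN0_c134

theorem CN0_t122 : CoN CNTab ⟨⟨425, 507, 1024⟩, ⟨447, 509, 1024⟩, ⟨117, 127,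
  256⟩, ⟨1, 0, 0, 0, 0⟩, ⟨1136, 92, 4, 22, 26⟩, ⟨390860, 498, 32, 119, 146⟩,
  ⟨359580, 7642, 416, 1859, 2170⟩⟩ :=
  CoN.c 0 2 393088 1 rfl rfl rfl rfl rfl CN0_t121 CN0_c135

theorem CN0_t123 : CoN CNTab ⟨⟨425, 507, 1024⟩, ⟨447, 509, 1024⟩, ⟨117, 127,
  256⟩, ⟨1, 0, 0, 0, 0⟩, ⟨1136, 92, 4, 22, 26⟩, ⟨194316, 498, 32, 119, 146⟩,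
  ⟨359580, 7642, 416, 1859, 2170⟩⟩ :=
  CoN.c 0 2 196544 1 rfl rfl rfl rfl rfl CN0_t122 CN0_c136

theorem CN0_t124 : CoN CNTab ⟨⟨425, 507, 1024⟩, ⟨213, 255, 512⟩, ⟨117, 127,
  256⟩, ⟨1, 0, 0, 0, 0⟩, ⟨1136, 92, 4, 22, 26⟩, ⟨194316, 498, 32, 119, 146⟩,
  ⟨359580, 7642, 416, 1859, 2170⟩⟩ :=
  CoN.b 1 1 2 rfl rfl rfl CN0_c129 CN0_t123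

theorem CN0_t125 : CoN CNTab ⟨⟨425, 507, 1024⟩, ⟨213, 255, 512⟩, ⟨117, 127,
  256⟩, ⟨1, 0, 0, 0, 0⟩, ⟨1136, 92, 4, 22, 26⟩, ⟨194316, 498, 32, 119, 146⟩,
  ⟨41316, 1786, 96, 435, 506⟩⟩ :=
  CoN.c 2 3 1 4 rfl rfl rfl rfl rfl CN0_t124 CN0_c137

theorem CN0_t126 : CoN CNTab ⟨⟨425, 507, 1024⟩, ⟨213, 255, 512⟩, ⟨117, 127,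
  256⟩, ⟨1, 0, 0, 0, 0⟩, ⟨1136, 92, 4, 22, 26⟩, ⟨96044, 498, 32, 119, 146⟩,
  ⟨41316, 1786, 96, 435, 506⟩⟩ :=
  CoN.c 0 2 98272 1 rfl rfl rfl rfl rfl CN0_t125 CN0_c138

theorem CN0_t127 : CoN CNTab ⟨⟨53, 63, 128⟩, ⟨213, 255, 512⟩, ⟨117, 127,
  256⟩, ⟨1, 0, 0, 0, 0⟩, ⟨1136, 92, 4, 22, 26⟩, ⟨96044, 498, 32, 119, 146⟩,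
  ⟨41316, 1786, 96, 435, 506⟩⟩ :=
  CoN.b 0 4 1 rfl rfl rfl CN0_c128 CN0_t126

theorem CN0_t128 : CoN CNTab ⟨⟨53, 63, 128⟩, ⟨213, 255, 512⟩, ⟨117, 127,
  256⟩, ⟨1, 0, 0, 0, 0⟩, ⟨1136, 92, 4, 22, 26⟩, ⟨46908, 498, 32, 119, 146⟩,
  ⟨41316, 1786, 96, 435, 506⟩⟩ :=
  CoN.c 0 2 49136 1 rfl rfl rfl rfl rfl CN0_t127 CN0_c139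

theorem CN0_t129 : CoN CNTab ⟨⟨53, 63, 128⟩, ⟨213, 255, 512⟩, ⟨117, 127,
  256⟩, ⟨1, 0, 0, 0, 0⟩, ⟨1136, 92, 4, 22, 26⟩, ⟨22340, 498, 32, 119, 146⟩,
  ⟨41316, 1786, 96, 435, 506⟩⟩ :=
  CoN.c 0 2 24568 1 rfl rfl rfl rfl rfl CN0_t128 CN0_c140

theorem CN0_t130 : CoN CNTab ⟨⟨53, 63, 128⟩, ⟨3, 4, 8⟩, ⟨117, 127, 256⟩, ⟨1,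
  0, 0, 0, 0⟩, ⟨1136, 92, 4, 22, 26⟩, ⟨22340, 498, 32, 119, 146⟩, ⟨41316,
  1786, 96, 435, 506⟩⟩ :=
  CoN.b 1 32 1 rfl rfl rfl CN0_c127 CN0_t129

theorem CN0_t131 : CoN CNTab ⟨⟨53, 63, 128⟩, ⟨3, 4, 8⟩, ⟨117, 127, 256⟩, ⟨1,
  0, 0, 0, 0⟩, ⟨1136, 92, 4, 22, 26⟩, ⟨22340, 498, 32, 119, 146⟩, ⟨4744,
  322, 16, 79, 90⟩⟩ :=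
  CoN.c 2 3 1 4 rfl rfl rfl rfl rfl CN0_t130 CN0_c141

theorem CN0_t132 : CoN CNTab ⟨⟨53, 63, 128⟩, ⟨3, 4, 8⟩, ⟨117, 127, 256⟩, ⟨1,
  0, 0, 0, 0⟩, ⟨1136, 92, 4, 22, 26⟩, ⟨10056, 498, 32, 119, 146⟩, ⟨4744,
  322, 16, 79, 90⟩⟩ :=
  CoN.c 0 2 12284 1 rfl rfl rfl rfl rfl CN0_t131 CN0_c142

theorem CN0_t133 : CoN CNTab ⟨⟨53, 63, 128⟩, ⟨3, 4, 8⟩, ⟨1, 1, 2⟩, ⟨1, 0, 0,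
  0, 0⟩, ⟨1136, 92, 4, 22, 26⟩, ⟨10056, 498, 32, 119, 146⟩, ⟨4744, 322, 16,
  79, 90⟩⟩ :=
  CoN.b 2 64 1 rfl rfl rfl CN0_c126 CN0_t132

theorem CN0_t134 : CoN CNTab ⟨⟨29, 31, 64⟩, ⟨3, 4, 8⟩, ⟨1, 1, 2⟩, ⟨1, 0, 0,
  0, 0⟩, ⟨1136, 92, 4, 22, 26⟩, ⟨10056, 498, 32, 119, 146⟩, ⟨4744, 322, 16,
  79, 90⟩⟩ :=
  CoN.b 0 1 8 rfl rfl rfl CN0_c125 CN0_t133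

theorem CN0_t135 : CoN CNTab ⟨⟨29, 31, 64⟩, ⟨3, 4, 8⟩, ⟨1, 1, 2⟩, ⟨1, 0, 0,
  0, 0⟩, ⟨368, 92, 4, 22, 26⟩, ⟨10056, 498, 32, 119, 146⟩, ⟨4744, 322, 16,
  79, 90⟩⟩ :=
  CoN.c 0 1 768 1 rfl rfl rfl rfl rfl CN0_t134 CN0_c143

theorem CN0_t136 : CoN CNTab ⟨⟨29, 31, 64⟩, ⟨3, 4, 8⟩, ⟨1, 1, 2⟩, ⟨1, 0, 0,
  0, 0⟩, ⟨368, 92, 4, 22, 26⟩, ⟨1328, 44, 4, 10, 14⟩, ⟨4744, 322, 16, 79,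
  90⟩⟩ :=
  CoN.c 2 3 4 1 rfl rfl rfl rfl rfl CN0_c124 CN0_t135

theorem CN0_t137 : CoN CNTab ⟨⟨29, 31, 64⟩, ⟨3, 4, 8⟩, ⟨1, 1, 2⟩, ⟨1, 0, 0,
  0, 0⟩, ⟨368, 92, 4, 22, 26⟩, ⟨1328, 44, 4, 10, 14⟩, ⟨2088, 234, 8, 59,
  62⟩⟩ :=
  CoN.c 2 3 2 1 rfl rfl rfl rfl rfl CN0_t136 CN0_c144

theorem CN0_t138 : CoN CNTab ⟨⟨29, 31, 64⟩, ⟨3, 4, 8⟩, ⟨1, 1, 2⟩, ⟨1, 0, 0,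
  0, 0⟩, ⟨368, 92, 4, 22, 26⟩, ⟨1328, 44, 4, 10, 14⟩, ⟨760, 190, 4, 49, 48⟩⟩
  :=
  CoN.c 2 3 1 1 rfl rfl rfl rfl rfl CN0_t137 CN0_c145

theorem CN0_t139 : CoN CNTab ⟨⟨29, 31, 64⟩, ⟨3, 4, 8⟩, ⟨1, 1, 2⟩, ⟨1, 0, 0,
  0, 0⟩, ⟨368, 92, 4, 22, 26⟩, ⟨560, 44, 4, 10, 14⟩, ⟨760, 190, 4, 49, 48⟩⟩
  :=
  CoN.c 0 2 768 1 rfl rfl rfl rfl rfl CN0_t138 CN0_c146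

theorem CN0_t140 : CoN CNTab ⟨⟨29, 31, 64⟩, ⟨3, 4, 8⟩, ⟨1, 1, 2⟩, ⟨1, 0, 0,
  0, 0⟩, ⟨368, 92, 4, 22, 26⟩, ⟨176, 44, 4, 10, 14⟩, ⟨760, 190, 4, 49, 48⟩⟩
  :=
  CoN.c 0 2 384 1 rfl rfl rfl rfl rfl CN0_t139 CN0_c147

theorem CN0_t141 : CoN CNTab ⟨⟨13, 15, 32⟩, ⟨3, 4, 8⟩, ⟨1, 1, 2⟩, ⟨1, 0, 0,
  0, 0⟩, ⟨368, 92, 4, 22, 26⟩, ⟨176, 44, 4, 10, 14⟩, ⟨760, 190, 4, 49, 48⟩⟩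
  :=
  CoN.b 2 16 1 rfl rfl rfl CN0_t140 CN0_c148

theorem CN0_t142 : CoN CNTab ⟨⟨13, 15, 32⟩, ⟨3, 4, 8⟩, ⟨1, 1, 2⟩, ⟨1, 0, 0,
  0, 0⟩, ⟨16, 4, 0, 1, 1⟩, ⟨176, 44, 4, 10, 14⟩, ⟨760, 190, 4, 49, 48⟩⟩ :=
  CoN.c 1 2 12 1 rfl rfl rfl rfl rfl CN0_c123 CN0_t141

theorem CN0_t143 : CoN CNTab ⟨⟨13, 15, 32⟩, ⟨3, 4, 8⟩, ⟨1, 1, 2⟩, ⟨1, 0, 0,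
  0, 0⟩, ⟨16, 4, 0, 1, 1⟩, ⟨176, 44, 4, 10, 14⟩, ⟨376, 94, 4, 25, 24⟩⟩ :=
  CoN.c 1 3 24 1 rfl rfl rfl rfl rfl CN0_t142 CN0_c149

theorem CN0_t144 : CoN CNTab ⟨⟨13, 15, 32⟩, ⟨3, 4, 8⟩, ⟨1, 1, 2⟩, ⟨1, 0, 0,
  0, 0⟩, ⟨16, 4, 0, 1, 1⟩, ⟨80, 20, 4, 4, 8⟩, ⟨376, 94, 4, 25, 24⟩⟩ :=
  CoN.c 1 2 6 1 rfl rfl rfl rfl rfl CN0_t143 CN0_c150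

theorem CN0_t145 : CoN CNTab ⟨⟨7, 7, 16⟩, ⟨3, 4, 8⟩, ⟨1, 1, 2⟩, ⟨1, 0, 0, 0,
  0⟩, ⟨16, 4, 0, 1, 1⟩, ⟨80, 20, 4, 4, 8⟩, ⟨376, 94, 4, 25, 24⟩⟩ :=
  CoN.b 0 1 2 rfl rfl rfl CN0_c122 CN0_t144

theorem CN0_t146 : CoN CNTab ⟨⟨7, 7, 16⟩, ⟨3, 4, 8⟩, ⟨1, 1, 2⟩, ⟨1, 0, 0, 0,
  0⟩, ⟨16, 4, 0, 1, 1⟩, ⟨80, 20, 4, 4, 8⟩, ⟨184, 46, 4, 13, 12⟩⟩ :=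
  CoN.c 1 3 12 1 rfl rfl rfl rfl rfl CN0_t145 CN0_c151

theorem CN0_t147 : CoN CNTab ⟨⟨63, 63, 128⟩, ⟨3, 4, 8⟩, ⟨1, 1, 2⟩, ⟨1, 0, 0,
  0, 0⟩, ⟨3892, 498, 56, 143, 134⟩, ⟨4252, 398, 56, 113, 114⟩, ⟨5460, 130,
  24, 39, 38⟩⟩ :=
  CoN.b 0 1 16 rfl rfl rfl CN0_c155 CN0_c156

theorem CN0_t148 : CoN CNTab ⟨⟨31, 31, 64⟩, ⟨55, 63, 128⟩, ⟨63, 63, 128⟩,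
  ⟨1, 0, 0, 0, 0⟩, ⟨3892, 498, 56, 143, 134⟩, ⟨4252, 398, 56, 113, 114⟩,
  ⟨11540, 130, 24, 39, 38⟩⟩ :=
  CoN.c 0 3 12160 1 rfl rfl rfl rfl rfl CN0_c157 CN0_c158

theorem CN0_t149 : CoN CNTab ⟨⟨31, 31, 64⟩, ⟨3, 4, 8⟩, ⟨63, 63, 128⟩, ⟨1, 0,
  0, 0, 0⟩, ⟨3892, 498, 56, 143, 134⟩, ⟨4252, 398, 56, 113, 114⟩, ⟨11540,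
  130, 24, 39, 38⟩⟩ :=
  CoN.b 0 1 8 rfl rfl rfl CN0_t148 CN0_c159

theorem CN0_t150 : CoN CNTab ⟨⟨31, 31, 64⟩, ⟨3, 4, 8⟩, ⟨63, 63, 128⟩, ⟨1, 0,
  0, 0, 0⟩, ⟨3892, 498, 56, 143, 134⟩, ⟨4252, 398, 56, 113, 114⟩, ⟨5460,
  130, 24, 39, 38⟩⟩ :=
  CoN.c 0 3 6080 1 rfl rfl rfl rfl rfl CN0_t149 CN0_c160

theorem CN0_t151 : CoN CNTab ⟨⟨31, 31, 64⟩, ⟨3, 4, 8⟩, ⟨1, 1, 2⟩, ⟨1, 0, 0,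
  0, 0⟩, ⟨3892, 498, 56, 143, 134⟩, ⟨4252, 398, 56, 113, 114⟩, ⟨5460, 130,
  24, 39, 38⟩⟩ :=
  CoN.b 2 32 1 rfl rfl rfl CN0_t147 CN0_t150

theorem CN0_t152 : CoN CNTab ⟨⟨31, 31, 64⟩, ⟨3, 4, 8⟩, ⟨1, 1, 2⟩, ⟨1, 0, 0,
  0, 0⟩, ⟨3892, 498, 56, 143, 134⟩, ⟨4252, 398, 56, 113, 114⟩, ⟨2420, 130,
  24, 39, 38⟩⟩ :=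
  CoN.c 0 3 3040 1 rfl rfl rfl rfl rfl CN0_t151 CN0_c161

theorem CN0_t153 : CoN CNTab ⟨⟨31, 31, 64⟩, ⟨3, 4, 8⟩, ⟨1, 1, 2⟩, ⟨1, 0, 0,
  0, 0⟩, ⟨3892, 498, 56, 143, 134⟩, ⟨916, 134, 16, 37, 38⟩, ⟨2420, 130, 24,
  39, 38⟩⟩ :=
  CoN.c 2 3 2 1 rfl rfl rfl rfl rfl CN0_c154 CN0_t152

theorem CN0_t154 : CoN CNTab ⟨⟨31, 31, 64⟩, ⟨3, 4, 8⟩, ⟨1, 1, 2⟩, ⟨1, 0, 0,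
  0, 0⟩, ⟨184, 46, 4, 13, 12⟩, ⟨916, 134, 16, 37, 38⟩, ⟨2420, 130, 24, 39,
  38⟩⟩ :=
  CoN.c 1 3 8 1 rfl rfl rfl rfl rfl CN0_c153 CN0_t153

theorem CN0_t155 : CoN CNTab ⟨⟨27, 31, 64⟩, ⟨3, 4, 8⟩, ⟨31, 31, 64⟩, ⟨1, 0,
  0, 0, 0⟩, ⟨572, 46, 4, 13, 12⟩, ⟨2436, 134, 16, 37, 38⟩, ⟨5460, 130, 24,
  39, 38⟩⟩ :=
  CoN.b 1 8 1 rfl rfl rfl CN0_c163 CN0_c164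

theorem CN0_t156 : CoN CNTab ⟨⟨27, 31, 64⟩, ⟨3, 4, 8⟩, ⟨31, 31, 64⟩, ⟨1, 0,
  0, 0, 0⟩, ⟨572, 46, 4, 13, 12⟩, ⟨916, 134, 16, 37, 38⟩, ⟨5460, 130, 24,
  39, 38⟩⟩ :=
  CoN.c 0 2 1520 1 rfl rfl rfl rfl rfl CN0_t155 CN0_c165

theorem CN0_t157 : CoN CNTab ⟨⟨27, 31, 64⟩, ⟨3, 4, 8⟩, ⟨31, 31, 64⟩, ⟨1, 0,
  0, 0, 0⟩, ⟨184, 46, 4, 13, 12⟩, ⟨916, 134, 16, 37, 38⟩, ⟨5460, 130, 24,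
  39, 38⟩⟩ :=
  CoN.c 0 1 388 1 rfl rfl rfl rfl rfl CN0_t156 CN0_c166

theorem CN0_t158 : CoN CNTab ⟨⟨27, 31, 64⟩, ⟨3, 4, 8⟩, ⟨31, 31, 64⟩, ⟨1, 0,
  0, 0, 0⟩, ⟨184, 46, 4, 13, 12⟩, ⟨916, 134, 16, 37, 38⟩, ⟨2420, 130, 24,
  39, 38⟩⟩ :=
  CoN.c 0 3 3040 1 rfl rfl rfl rfl rfl CN0_t157 CN0_c167

theorem CN0_t159 : CoN CNTab ⟨⟨15, 15, 32⟩, ⟨3, 4, 8⟩, ⟨31, 31, 64⟩, ⟨1, 0,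
  0, 0, 0⟩, ⟨184, 46, 4, 13, 12⟩, ⟨916, 134, 16, 37, 38⟩, ⟨2420, 130, 24,
  39, 38⟩⟩ :=
  CoN.b 0 1 4 rfl rfl rfl CN0_c162 CN0_t158

theorem CN0_t160 : CoN CNTab ⟨⟨15, 15, 32⟩, ⟨3, 4, 8⟩, ⟨1, 1, 2⟩, ⟨1, 0, 0,
  0, 0⟩, ⟨184, 46, 4, 13, 12⟩, ⟨916, 134, 16, 37, 38⟩, ⟨2420, 130, 24, 39,
  38⟩⟩ :=
  CoN.b 2 16 1 rfl rfl rfl CN0_t154 CN0_t159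

theorem CN0_t161 : CoN CNTab ⟨⟨15, 15, 32⟩, ⟨3, 4, 8⟩, ⟨1, 1, 2⟩, ⟨1, 0, 0,
  0, 0⟩, ⟨184, 46, 4, 13, 12⟩, ⟨548, 42, 8, 11, 14⟩, ⟨2420, 130, 24, 39,
  38⟩⟩ :=
  CoN.c 1 2 2 1 rfl rfl rfl rfl rfl CN0_t160 CN0_c168

theorem CN0_t162 : CoN CNTab ⟨⟨15, 15, 32⟩, ⟨3, 4, 8⟩, ⟨1, 1, 2⟩, ⟨1, 0, 0,
  0, 0⟩, ⟨184, 46, 4, 13, 12⟩, ⟨548, 42, 8, 11, 14⟩, ⟨900, 130, 24, 39, 38⟩⟩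
  :=
  CoN.c 0 3 1520 1 rfl rfl rfl rfl rfl CN0_t161 CN0_c169

theorem CN0_t163 : CoN CNTab ⟨⟨15, 15, 32⟩, ⟨3, 4, 8⟩, ⟨1, 1, 2⟩, ⟨1, 0, 0,
  0, 0⟩, ⟨184, 46, 4, 13, 12⟩, ⟨548, 42, 8, 11, 14⟩, ⟨88, 22, 4, 7, 6⟩⟩ :=
  CoN.c 2 3 1 4 rfl rfl rfl rfl rfl CN0_t162 CN0_c170

theorem CN0_t164 : CoN CNTab ⟨⟨15, 15, 32⟩, ⟨3, 4, 8⟩, ⟨1, 1, 2⟩, ⟨1, 0, 0,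
  0, 0⟩, ⟨184, 46, 4, 13, 12⟩, ⟨168, 42, 8, 11, 14⟩, ⟨88, 22, 4, 7, 6⟩⟩ :=
  CoN.c 0 2 380 1 rfl rfl rfl rfl rfl CN0_t163 CN0_c171

theorem CN0_t165 : CoN CNTab ⟨⟨7, 7, 16⟩, ⟨3, 4, 8⟩, ⟨1, 1, 2⟩, ⟨1, 0, 0, 0,
  0⟩, ⟨184, 46, 4, 13, 12⟩, ⟨168, 42, 8, 11, 14⟩, ⟨88, 22, 4, 7, 6⟩⟩ :=
  CoN.b 2 8 1 rfl rfl rfl CN0_t164 CN0_c172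

theorem CN0_t166 : CoN CNTab ⟨⟨7, 7, 16⟩, ⟨3, 4, 8⟩, ⟨1, 1, 2⟩, ⟨1, 0, 0, 0,
  0⟩, ⟨184, 46, 4, 13, 12⟩, ⟨80, 20, 4, 4, 8⟩, ⟨88, 22, 4, 7, 6⟩⟩ :=
  CoN.c 2 3 1 1 rfl rfl rfl rfl rfl CN0_c152 CN0_t165

theorem CN0_t167 : CoN CNTab ⟨⟨7, 7, 16⟩, ⟨3, 4, 8⟩, ⟨1, 1, 2⟩, ⟨1, 0, 0, 0,
  0⟩, ⟨16, 4, 0, 1, 1⟩, ⟨80, 20, 4, 4, 8⟩, ⟨88, 22, 4, 7, 6⟩⟩ :=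
  CoN.c 1 3 6 1 rfl rfl rfl rfl rfl CN0_t146 CN0_t166

theorem CN0_t168 : CoN CNTab ⟨⟨7, 7, 16⟩, ⟨3, 4, 8⟩, ⟨1, 1, 2⟩, ⟨1, 0, 0, 0,
  0⟩, ⟨16, 4, 0, 1, 1⟩, ⟨80, 20, 4, 4, 8⟩, ⟨40, 10, 4, 4, 3⟩⟩ :=
  CoN.c 1 3 3 1 rfl rfl rfl rfl rfl CN0_t167 CN0_c173

theorem CN0_t169 : CoN CNTab ⟨⟨7, 7, 16⟩, ⟨3, 4, 8⟩, ⟨1, 1, 2⟩, ⟨1, 0, 0, 0,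
  0⟩, ⟨16, 4, 0, 1, 1⟩, ⟨8, 2, 0, 0, 1⟩, ⟨40, 10, 4, 4, 3⟩⟩ :=
  CoN.c 2 3 5 1 rfl rfl rfl rfl rfl CN0_t117 CN0_t168

theorem CN0_t170 : CoN CNTab ⟨⟨7, 7, 16⟩, ⟨3, 4, 8⟩, ⟨1, 1, 2⟩, ⟨1, 0, 0, 0,
  0⟩, ⟨8, 2, 0, 1, 0⟩, ⟨8, 2, 0, 0, 1⟩, ⟨40, 10, 4, 4, 3⟩⟩ :=
  CoN.c 1 2 1 1 rfl rfl rfl rfl rfl CN0_t106 CN0_t169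

theorem CN0_t171 : CoN CNTab ⟨⟨7, 7, 16⟩, ⟨3, 4, 8⟩, ⟨1, 1, 2⟩, ⟨1, 0, 0, 0,
  0⟩, ⟨8, 2, 0, 1, 0⟩, ⟨40, 10, 4, 4, 3⟩, ⟨4, 1, 1, 1, 0⟩⟩ :=
  CoN.c 2 3 1 6 rfl rfl rfl rfl rfl CN0_c174 CN0_c175

theorem CN0_t172 : CoN CNTab ⟨⟨7, 7, 16⟩, ⟨3, 4, 8⟩, ⟨1, 1, 2⟩, ⟨1, 0, 0, 0,
  0⟩, ⟨8, 2, 0, 1, 0⟩, ⟨8, 2, 0, 0, 1⟩, ⟨4, 1, 1, 1, 0⟩⟩ :=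
  CoN.c 2 3 3 4 rfl rfl rfl rfl rfl CN0_t170 CN0_t171

theorem CN0_t173 : CoN CNTab ⟨⟨3, 3, 8⟩, ⟨3, 4, 8⟩, ⟨7, 7, 16⟩, ⟨28, 2, 0,
  0, 1⟩, ⟨28, 2, 0, 1, 0⟩, ⟨8, 2, 0, 0, 1⟩, ⟨4, 1, 1, 1, 0⟩⟩ :=
  CoN.c 2 3 3 4 rfl rfl rfl rfl rfl CN0_c177 CN0_c178

theorem CN0_t174 : CoN CNTab ⟨⟨3, 3, 8⟩, ⟨3, 4, 8⟩, ⟨7, 7, 16⟩, ⟨1, 0, 0, 0,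
  0⟩, ⟨28, 2, 0, 1, 0⟩, ⟨8, 2, 0, 0, 1⟩, ⟨4, 1, 1, 1, 0⟩⟩ :=
  CoN.c 0 2 20 1 rfl rfl rfl rfl rfl CN0_c176 CN0_t173

theorem CN0_t175 : CoN CNTab ⟨⟨3, 3, 8⟩, ⟨3, 4, 8⟩, ⟨7, 7, 16⟩, ⟨1, 0, 0, 0,
  0⟩, ⟨8, 2, 0, 1, 0⟩, ⟨8, 2, 0, 0, 1⟩, ⟨4, 1, 1, 1, 0⟩⟩ :=
  CoN.c 0 1 20 1 rfl rfl rfl rfl rfl CN0_t174 CN0_c179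

theorem CN0_t176 : CoN CNTab ⟨⟨3, 3, 8⟩, ⟨3, 4, 8⟩, ⟨1, 1, 2⟩, ⟨1, 0, 0, 0,
  0⟩, ⟨8, 2, 0, 1, 0⟩, ⟨8, 2, 0, 0, 1⟩, ⟨4, 1, 1, 1, 0⟩⟩ :=
  CoN.b 2 4 1 rfl rfl rfl CN0_t172 CN0_t175

theorem CN0_t177 : CoN CNTab ⟨⟨3, 3, 8⟩, ⟨1, 2, 4⟩, ⟨1, 1, 2⟩, ⟨1, 0, 0, 0,
  0⟩, ⟨8, 2, 0, 1, 0⟩, ⟨8, 2, 0, 0, 1⟩, ⟨4, 1, 1, 1, 0⟩⟩ :=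
  CoN.b 1 1 2 rfl rfl rfl CN0_t88 CN0_t176

theorem CN0_t178 : CoN CNTab ⟨⟨2, 3, 8⟩, ⟨1, 2, 4⟩, ⟨3, 3, 8⟩, ⟨1, 0, 0, 0,
  0⟩, ⟨8, 2, 0, 1, 0⟩, ⟨8, 2, 0, 0, 1⟩, ⟨4, 1, 1, 1, 0⟩⟩ :=
  CoN.b 1 2 1 rfl rfl rfl CN0_c181 CN0_c182

theorem CN0_t179 : CoN CNTab ⟨⟨1, 1, 4⟩, ⟨1, 2, 4⟩, ⟨3, 3, 8⟩, ⟨1, 0, 0, 0,
  0⟩, ⟨8, 2, 0, 1, 0⟩, ⟨8, 2, 0, 0, 1⟩, ⟨4, 1, 1, 1, 0⟩⟩ :=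
  CoN.b 0 1 1 rfl rfl rfl CN0_c180 CN0_t178

theorem CN0_t180 : CoN CNTab ⟨⟨1, 1, 4⟩, ⟨1, 2, 4⟩, ⟨1, 1, 2⟩, ⟨1, 0, 0, 0,
  0⟩, ⟨8, 2, 0, 1, 0⟩, ⟨8, 2, 0, 0, 1⟩, ⟨4, 1, 1, 1, 0⟩⟩ :=
  CoN.b 2 2 1 rfl rfl rfl CN0_t177 CN0_t179

theorem CN0_t181 : CoN CNTab ⟨⟨1, 1, 4⟩, ⟨0, 1, 2⟩, ⟨1, 1, 2⟩, ⟨1, 0, 0, 0,
  0⟩, ⟨8, 2, 0, 1, 0⟩, ⟨8, 2, 0, 0, 1⟩, ⟨4, 1, 1, 1, 0⟩⟩ :=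
  CoN.b 1 1 1 rfl rfl rfl CN0_t47 CN0_t180

theorem CN0_t182 : CoN CNTab ⟨⟨0, 0, 1⟩, ⟨0, 1, 4⟩, ⟨1, 1, 8⟩, ⟨1, 0, 0, 0,
  0⟩, ⟨8, 2, 0, 1, 0⟩, ⟨8, 2, 0, 0, 1⟩, ⟨4, 1, 1, 1, 0⟩⟩ :=
  CoN.b 0 4 1 rfl rfl rfl CN0_c184 CN0_c185

theorem CN0_t183 : CoN CNTab ⟨⟨0, 0, 1⟩, ⟨0, 1, 4⟩, ⟨1, 1, 4⟩, ⟨1, 0, 0, 0,
  0⟩, ⟨8, 2, 0, 1, 0⟩, ⟨8, 2, 0, 0, 1⟩, ⟨4, 1, 1, 1, 0⟩⟩ :=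
  CoN.b 2 1 4 rfl rfl rfl CN0_c183 CN0_t182

theorem CN0_t184 : CoN CNTab ⟨⟨0, 0, 1⟩, ⟨0, 1, 2⟩, ⟨1, 1, 4⟩, ⟨1, 0, 0, 0,
  0⟩, ⟨8, 2, 0, 1, 0⟩, ⟨8, 2, 0, 0, 1⟩, ⟨4, 1, 1, 1, 0⟩⟩ :=
  CoN.b 0 2 1 rfl rfl rfl CN0_t183 CN0_c186

theorem CN0_t185 : CoN CNTab ⟨⟨0, 0, 1⟩, ⟨0, 1, 2⟩, ⟨1, 1, 2⟩, ⟨1, 0, 0, 0,
  0⟩, ⟨8, 2, 0, 1, 0⟩, ⟨8, 2, 0, 0, 1⟩, ⟨4, 1, 1, 1, 0⟩⟩ :=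
  CoN.b 2 1 2 rfl rfl rfl CN0_t181 CN0_t184

end Pool.Agent.TET.Cvr
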