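import Pool.Agent.Helper37_TET.CN1_000
import Pool.Agent.Helper37_TET.CN1_001
import Pool.Agent.Helper37_TET.CN1_002
import Pool.Agent.Helper37_TET.CN1_003
import Pool.Agent.Helper37_TET.CN1_004
import Pool.Agent.Helper37_TET.CN1_005
import Pool.Agent.Helper37_TET.CN1_006
import Pool.Agent.Helper37_TET.CN1_007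
import Pool.Agent.Helper37_TET.CN1_008
import Pool.Agent.Helper37_TET.CN1_009

/-!
# MP_c7c9bf_co: cover of the charts, root 1, assembly 0
-/

set_option autoImplicit false
set_option maxRecDepth 100000

namespace Pool.Agent.TET.Cvr

theorem CN1_t0 : CoN CNTab ⟨⟨3, 6, 16⟩, ⟨1, 3, 8⟩, ⟨3, 7, 16⟩, ⟨1, 0, 0, 0,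
  0⟩, ⟨68, 2, 0, 0, 1⟩, ⟨52, 1, 1, 1, 0⟩, ⟨20, 1, 1, 0, 1⟩⟩ :=
  CoN.b 0 1 2 rfl rfl rfl CN1_c1 CN1_c2

theorem CN1_t1 : CoN CNTab ⟨⟨3, 6, 16⟩, ⟨1, 3, 8⟩, ⟨3, 7, 16⟩, ⟨1, 0, 0, 0,
  0⟩, ⟨28, 2, 0, 0, 1⟩, ⟨52, 1, 1, 1, 0⟩, ⟨20, 1, 1, 0, 1⟩⟩ :=
  CoN.c 0 1 40 1 rfl rfl rfl rfl rfl CN1_t0 CN1_c3

theorem CN1_t2 : CoN CNTab ⟨⟨3, 6, 16⟩, ⟨1, 3, 8⟩, ⟨3, 7, 16⟩, ⟨1, 0, 0, 0,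
  0⟩, ⟨28, 2, 0, 0, 1⟩, ⟨20, 1, 1, 1, 0⟩, ⟨20, 1, 1, 0, 1⟩⟩ :=
  CoN.c 0 2 32 1 rfl rfl rfl rfl rfl CN1_t1 CN1_c4

theorem CN1_t3 : CoN CNTab ⟨⟨2, 3, 8⟩, ⟨1, 3, 8⟩, ⟨3, 7, 16⟩, ⟨1, 0, 0, 0,
  0⟩, ⟨28, 2, 0, 0, 1⟩, ⟨20, 1, 1, 1, 0⟩, ⟨20, 1, 1, 0, 1⟩⟩ :=
  CoN.b 0 1 1 rfl rfl rfl CN1_c0 CN1_t2

theorem CN1_t4 : CoN CNTab ⟨⟨2, 3, 8⟩, ⟨1, 3, 8⟩, ⟨3, 7, 16⟩, ⟨1, 0, 0, 0,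
  0⟩, ⟨28, 2, 0, 0, 1⟩, ⟨20, 1, 1, 1, 0⟩, ⟨4, 1, 1, 0, 1⟩⟩ :=
  CoN.c 0 3 16 1 rfl rfl rfl rfl rfl CN1_t3 CN1_c5

theorem CN1_t5 : CoN CNTab ⟨⟨2, 3, 8⟩, ⟨1, 3, 8⟩, ⟨3, 7, 16⟩, ⟨1, 0, 0, 0,
  0⟩, ⟨8, 2, 0, 0, 1⟩, ⟨20, 1, 1, 1, 0⟩, ⟨4, 1, 1, 0, 1⟩⟩ :=
  CoN.c 0 1 20 1 rfl rfl rfl rfl rfl CN1_t4 CN1_c6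

theorem CN1_t6 : CoN CNTab ⟨⟨2, 3, 8⟩, ⟨1, 3, 8⟩, ⟨3, 7, 16⟩, ⟨1, 0, 0, 0,
  0⟩, ⟨8, 2, 0, 0, 1⟩, ⟨4, 1, 1, 1, 0⟩, ⟨4, 1, 1, 0, 1⟩⟩ :=
  CoN.c 0 2 16 1 rfl rfl rfl rfl rfl CN1_t5 CN1_c7

theorem CN1_t7 : CoN CNTab ⟨⟨2, 3, 8⟩, ⟨3, 7, 16⟩, ⟨1, 2, 4⟩, ⟨1, 0, 0, 0,
  0⟩, ⟨8, 2, 0, 0, 1⟩, ⟨4, 1, 1, 1, 0⟩, ⟨4, 1, 1, 0, 1⟩⟩ :=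
  CoN.c 0 1 20 1 rfl rfl rfl rfl rfl CN1_c8 CN1_c9

theorem CN1_t8 : CoN CNTab ⟨⟨2, 3, 8⟩, ⟨1, 3, 8⟩, ⟨1, 2, 4⟩, ⟨1, 0, 0, 0,
  0⟩, ⟨8, 2, 0, 0, 1⟩, ⟨4, 1, 1, 1, 0⟩, ⟨4, 1, 1, 0, 1⟩⟩ :=
  CoN.b 1 1 2 rfl rfl rfl CN1_t6 CN1_t7

theorem CN1_t9 : CoN CNTab ⟨⟨1, 1, 4⟩, ⟨3, 5, 16⟩, ⟨2, 3, 8⟩, ⟨1, 0, 0, 0,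
  0⟩, ⟨432, 108, 90, 12, 87⟩, ⟨52, 13, 13, 2, 11⟩, ⟨100, 25, 25, 2, 23⟩⟩ :=
  CoN.c 2 3 2 1 rfl rfl rfl rfl rfl CN1_c16 CN1_c17

theorem CN1_t10 : CoN CNTab ⟨⟨1, 1, 4⟩, ⟨3, 5, 16⟩, ⟨2, 3, 8⟩, ⟨1, 0, 0, 0,
  0⟩, ⟨224, 56, 38, 4, 43⟩, ⟨52, 13, 13, 2, 11⟩, ⟨100, 25, 25, 2, 23⟩⟩ :=
  CoN.c 1 2 1 4 rfl rfl rfl rfl rfl CN1_c15 CN1_t9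

theorem CN1_t11 : CoN CNTab ⟨⟨1, 1, 4⟩, ⟨3, 5, 16⟩, ⟨2, 3, 8⟩, ⟨1, 0, 0, 0,
  0⟩, ⟨224, 56, 38, 4, 43⟩, ⟨52, 13, 13, 2, 11⟩, ⟨4, 1, 1, 0, 1⟩⟩ :=
  CoN.c 2 3 1 12 rfl rfl rfl rfl rfl CN1_t10 CN1_c18

theorem CN1_t12 : CoN CNTab ⟨⟨1, 1, 4⟩, ⟨3, 5, 16⟩, ⟨2, 3, 8⟩, ⟨1, 0, 0, 0,
  0⟩, ⟨40, 10, 4, 0, 7⟩, ⟨52, 13, 13, 2, 11⟩, ⟨4, 1, 1, 0, 1⟩⟩ :=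
  CoN.c 1 2 3 2 rfl rfl rfl rfl rfl CN1_c14 CN1_t11

theorem CN1_t13 : CoN CNTab ⟨⟨1, 1, 4⟩, ⟨3, 5, 16⟩, ⟨2, 3, 8⟩, ⟨1, 0, 0, 0,
  0⟩, ⟨8, 2, 0, 0, 1⟩, ⟨52, 13, 13, 2, 11⟩, ⟨4, 1, 1, 0, 1⟩⟩ :=
  CoN.c 1 3 3 4 rfl rfl rfl rfl rfl CN1_c13 CN1_t12

theorem CN1_t14 : CoN CNTab ⟨⟨1, 1, 4⟩, ⟨3, 5, 16⟩, ⟨2, 3, 8⟩, ⟨1, 0, 0, 0,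
  0⟩, ⟨8, 2, 0, 0, 1⟩, ⟨28, 7, 7, 2, 5⟩, ⟨4, 1, 1, 0, 1⟩⟩ :=
  CoN.c 2 3 1 6 rfl rfl rfl rfl rfl CN1_c12 CN1_t13

theorem CN1_t15 : CoN CNTab ⟨⟨1, 1, 4⟩, ⟨3, 5, 16⟩, ⟨2, 3, 8⟩, ⟨1, 0, 0, 0,
  0⟩, ⟨8, 2, 0, 0, 1⟩, ⟨8, 2, 2, 1, 1⟩, ⟨4, 1, 1, 0, 1⟩⟩ :=
  CoN.c 2 3 2 3 rfl rfl rfl rfl rfl CN1_c11 CN1_t14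

theorem CN1_t16 : CoN CNTab ⟨⟨1, 1, 4⟩, ⟨3, 5, 16⟩, ⟨2, 3, 8⟩, ⟨1, 0, 0, 0,
  0⟩, ⟨8, 2, 0, 0, 1⟩, ⟨4, 1, 1, 1, 0⟩, ⟨4, 1, 1, 0, 1⟩⟩ :=
  CoN.c 2 3 1 1 rfl rfl rfl rfl rfl CN1_c10 CN1_t15

theorem CN1_t17 : CoN CNTab ⟨⟨1, 1, 4⟩, ⟨1, 3, 8⟩, ⟨2, 3, 8⟩, ⟨1, 0, 0, 0,
  0⟩, ⟨8, 2, 0, 0, 1⟩, ⟨4, 1, 1, 1, 0⟩, ⟨4, 1, 1, 0, 1⟩⟩ :=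
  CoN.b 0 2 1 rfl rfl rfl CN1_t16 CN1_c19

theorem CN1_t18 : CoN CNTab ⟨⟨1, 1, 4⟩, ⟨1, 3, 8⟩, ⟨1, 2, 4⟩, ⟨1, 0, 0, 0,
  0⟩, ⟨8, 2, 0, 0, 1⟩, ⟨4, 1, 1, 1, 0⟩, ⟨4, 1, 1, 0, 1⟩⟩ :=
  CoN.b 2 1 1 rfl rfl rfl CN1_t8 CN1_t17

theorem CN1_t19 : CoN CNTab ⟨⟨1, 3, 8⟩, ⟨1, 4, 8⟩, ⟨1, 2, 4⟩, ⟨1, 0, 0, 0,
  0⟩, ⟨8, 2, 0, 0, 1⟩, ⟨4, 1, 1, 1, 0⟩, ⟨4, 1, 1, 0, 1⟩⟩ :=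
  CoN.b 2 2 1 rfl rfl rfl CN1_c21 CN1_c22

theorem CN1_t20 : CoN CNTab ⟨⟨1, 3, 8⟩, ⟨0, 1, 2⟩, ⟨1, 2, 4⟩, ⟨1, 0, 0, 0,
  0⟩, ⟨8, 2, 0, 0, 1⟩, ⟨4, 1, 1, 1, 0⟩, ⟨4, 1, 1, 0, 1⟩⟩ :=
  CoN.b 1 2 1 rfl rfl rfl CN1_c20 CN1_t19

theorem CN1_t21 : CoN CNTab ⟨⟨1, 1, 4⟩, ⟨0, 1, 2⟩, ⟨1, 2, 4⟩, ⟨1, 0, 0, 0,
  0⟩, ⟨8, 2, 0, 0, 1⟩, ⟨4, 1, 1, 1, 0⟩, ⟨4, 1, 1, 0, 1⟩⟩ :=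
  CoN.b 0 1 2 rfl rfl rfl CN1_t18 CN1_t20

theorem CN1_t22 : CoN CNTab ⟨⟨3, 3, 8⟩, ⟨5, 7, 16⟩, ⟨3, 4, 8⟩, ⟨1, 0, 0, 0,
  0⟩, ⟨452, 89, 59, 6, 68⟩, ⟨84, 13, 13, 2, 11⟩, ⟨776, 170, 140, 6, 149⟩⟩ :=
  CoN.c 2 3 12 1 rfl rfl rfl rfl rfl CN1_c27 CN1_c28

theorem CN1_t23 : CoN CNTab ⟨⟨11, 13, 32⟩, ⟨5, 7, 16⟩, ⟨6, 7, 16⟩, ⟨1, 0, 0,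
  0, 0⟩, ⟨1784, 326, 296, 30, 281⟩, ⟨1652, 13, 13, 2, 11⟩, ⟨140, 27, 27, 2,
  25⟩⟩ :=
  CoN.c 0 2 1792 1 rfl rfl rfl rfl rfl CN1_c32 CN1_c33

theorem CN1_t24 : CoN CNTab ⟨⟨11, 13, 32⟩, ⟨5, 7, 16⟩, ⟨6, 7, 16⟩, ⟨1, 0, 0,
  0, 0⟩, ⟨1784, 326, 296, 30, 281⟩, ⟨756, 13, 13, 2, 11⟩, ⟨140, 27, 27, 2,
  25⟩⟩ :=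
  CoN.c 0 2 896 1 rfl rfl rfl rfl rfl CN1_t23 CN1_c34

theorem CN1_t25 : CoN CNTab ⟨⟨11, 13, 32⟩, ⟨5, 7, 16⟩, ⟨6, 7, 16⟩, ⟨1, 0, 0,
  0, 0⟩, ⟨1784, 326, 296, 30, 281⟩, ⟨308, 13, 13, 2, 11⟩, ⟨140, 27, 27, 2,
  25⟩⟩ :=
  CoN.c 0 2 448 1 rfl rfl rfl rfl rfl CN1_t24 CN1_c35

theorem CN1_t26 : CoN CNTab ⟨⟨3, 3, 8⟩, ⟨5, 7, 16⟩, ⟨6, 7, 16⟩, ⟨1, 0, 0, 0,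
  0⟩, ⟨1784, 326, 296, 30, 281⟩, ⟨308, 13, 13, 2, 11⟩, ⟨140, 27, 27, 2, 25⟩⟩
  :=
  CoN.b 0 2 1 rfl rfl rfl CN1_c31 CN1_t25

theorem CN1_t27 : CoN CNTab ⟨⟨3, 3, 8⟩, ⟨5, 7, 16⟩, ⟨6, 7, 16⟩, ⟨1, 0, 0, 0,
  0⟩, ⟨1784, 326, 296, 30, 281⟩, ⟨84, 13, 13, 2, 11⟩, ⟨140, 27, 27, 2, 25⟩⟩
  :=
  CoN.c 0 2 224 1 rfl rfl rfl rfl rfl CN1_t26 CN1_c36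

theorem CN1_t28 : CoN CNTab ⟨⟨3, 3, 8⟩, ⟨5, 7, 16⟩, ⟨3, 4, 8⟩, ⟨1, 0, 0, 0,
  0⟩, ⟨1784, 326, 296, 30, 281⟩, ⟨84, 13, 13, 2, 11⟩, ⟨140, 27, 27, 2, 25⟩⟩
  :=
  CoN.b 2 1 1 rfl rfl rfl CN1_c30 CN1_t27

theorem CN1_t29 : CoN CNTab ⟨⟨3, 3, 8⟩, ⟨5, 7, 16⟩, ⟨3, 4, 8⟩, ⟨1, 0, 0, 0,
  0⟩, ⟨776, 170, 140, 6, 149⟩, ⟨84, 13, 13, 2, 11⟩, ⟨140, 27, 27, 2, 25⟩⟩ :=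
  CoN.c 1 2 1 12 rfl rfl rfl rfl rfl CN1_c29 CN1_t28

theorem CN1_t30 : CoN CNTab ⟨⟨3, 3, 8⟩, ⟨5, 7, 16⟩, ⟨3, 4, 8⟩, ⟨1, 0, 0, 0,
  0⟩, ⟨776, 170, 140, 6, 149⟩, ⟨84, 13, 13, 2, 11⟩, ⟨4, 1, 1, 0, 1⟩⟩ :=
  CoN.c 2 3 1 14 rfl rfl rfl rfl rfl CN1_t29 CN1_c37

theorem CN1_t31 : CoN CNTab ⟨⟨3, 3, 8⟩, ⟨5, 7, 16⟩, ⟨3, 4, 8⟩, ⟨1, 0, 0, 0,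
  0⟩, ⟨452, 89, 59, 6, 68⟩, ⟨84, 13, 13, 2, 11⟩, ⟨4, 1, 1, 0, 1⟩⟩ :=
  CoN.c 1 3 1 81 rfl rfl rfl rfl rfl CN1_t22 CN1_t30

theorem CN1_t32 : CoN CNTab ⟨⟨3, 3, 8⟩, ⟨5, 7, 16⟩, ⟨3, 4, 8⟩, ⟨1, 0, 0, 0,
  0⟩, ⟨40, 10, 4, 0, 7⟩, ⟨84, 13, 13, 2, 11⟩, ⟨4, 1, 1, 0, 1⟩⟩ :=
  CoN.c 1 2 5 3 rfl rfl rfl rfl rfl CN1_c26 CN1_t31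

theorem CN1_t33 : CoN CNTab ⟨⟨3, 3, 8⟩, ⟨5, 7, 16⟩, ⟨3, 4, 8⟩, ⟨1, 0, 0, 0,
  0⟩, ⟨8, 2, 0, 0, 1⟩, ⟨84, 13, 13, 2, 11⟩, ⟨4, 1, 1, 0, 1⟩⟩ :=
  CoN.c 1 3 3 4 rfl rfl rfl rfl rfl CN1_c25 CN1_t32

theorem CN1_t34 : CoN CNTab ⟨⟨3, 3, 8⟩, ⟨5, 7, 16⟩, ⟨3, 4, 8⟩, ⟨1, 0, 0, 0,
  0⟩, ⟨8, 2, 0, 0, 1⟩, ⟨28, 3, 3, 1, 2⟩, ⟨4, 1, 1, 0, 1⟩⟩ :=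
  CoN.c 2 3 2 7 rfl rfl rfl rfl rfl CN1_c24 CN1_t33

theorem CN1_t35 : CoN CNTab ⟨⟨3, 3, 8⟩, ⟨5, 7, 16⟩, ⟨3, 4, 8⟩, ⟨1, 0, 0, 0,
  0⟩, ⟨8, 2, 0, 0, 1⟩, ⟨20, 1, 1, 1, 0⟩, ⟨4, 1, 1, 0, 1⟩⟩ :=
  CoN.c 2 3 1 2 rfl rfl rfl rfl rfl CN1_c23 CN1_t34

theorem CN1_t36 : CoN CNTab ⟨⟨3, 3, 8⟩, ⟨5, 7, 16⟩, ⟨3, 4, 8⟩, ⟨20, 1, 1, 1,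
  0⟩, ⟨8, 2, 0, 0, 1⟩, ⟨28, 3, 3, 3, 0⟩, ⟨4, 1, 1, 0, 1⟩⟩ :=
  CoN.c 0 3 1 2 rfl rfl rfl rfl rfl CN1_c38 CN1_c39

theorem CN1_t37 : CoN CNTab ⟨⟨3, 3, 8⟩, ⟨5, 7, 16⟩, ⟨3, 4, 8⟩, ⟨20, 1, 1, 1,
  0⟩, ⟨8, 2, 0, 0, 1⟩, ⟨4, 1, 1, 1, 0⟩, ⟨4, 1, 1, 0, 1⟩⟩ :=
  CoN.c 0 2 1 2 rfl rfl rfl rfl rfl CN1_t36 CN1_c40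

theorem CN1_t38 : CoN CNTab ⟨⟨3, 3, 8⟩, ⟨5, 7, 16⟩, ⟨3, 4, 8⟩, ⟨1, 0, 0, 0,
  0⟩, ⟨8, 2, 0, 0, 1⟩, ⟨4, 1, 1, 1, 0⟩, ⟨4, 1, 1, 0, 1⟩⟩ :=
  CoN.c 0 2 16 1 rfl rfl rfl rfl rfl CN1_t35 CN1_t37

theorem CN1_t39 : CoN CNTab ⟨⟨3, 3, 8⟩, ⟨1, 2, 4⟩, ⟨3, 4, 8⟩, ⟨1, 0, 0, 0,
  0⟩, ⟨8, 2, 0, 0, 1⟩, ⟨4, 1, 1, 1, 0⟩, ⟨4, 1, 1, 0, 1⟩⟩ :=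
  CoN.b 0 1 2 rfl rfl rfl CN1_t38 CN1_c41

theorem CN1_t40 : CoN CNTab ⟨⟨14, 15, 32⟩, ⟨28, 31, 64⟩, ⟨15, 15, 32⟩, ⟨1,
  0, 0, 0, 0⟩, ⟨208, 52, 46, 46, 3⟩, ⟨828, 63, 63, 57, 6⟩, ⟨244, 13, 13, 11,
  2⟩⟩ :=
  CoN.b 2 1 1 rfl rfl rfl CN1_c51 CN1_c52

theorem CN1_t41 : CoN CNTab ⟨⟨14, 15, 32⟩, ⟨7, 8, 16⟩, ⟨15, 15, 32⟩, ⟨1, 0,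
  0, 0, 0⟩, ⟨208, 52, 46, 46, 3⟩, ⟨828, 63, 63, 57, 6⟩, ⟨244, 13, 13, 11,
  2⟩⟩ :=
  CoN.b 0 1 2 rfl rfl rfl CN1_t40 CN1_c53

theorem CN1_t42 : CoN CNTab ⟨⟨14, 15, 32⟩, ⟨7, 8, 16⟩, ⟨15, 15, 32⟩, ⟨1, 0,
  0, 0, 0⟩, ⟨208, 52, 46, 46, 3⟩, ⟨340, 37, 37, 35, 2⟩, ⟨244, 13, 13, 11,
  2⟩⟩ :=
  CoN.c 2 3 1 2 rfl rfl rfl rfl rfl CN1_c50 CN1_t41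

theorem CN1_t43 : CoN CNTab ⟨⟨7, 7, 16⟩, ⟨7, 8, 16⟩, ⟨15, 15, 32⟩, ⟨1, 0, 0,
  0, 0⟩, ⟨208, 52, 46, 46, 3⟩, ⟨340, 37, 37, 35, 2⟩, ⟨244, 13, 13, 11, 2⟩⟩
  :=
  CoN.b 0 1 1 rfl rfl rfl CN1_c49 CN1_t42

theorem CN1_t44 : CoN CNTab ⟨⟨7, 7, 16⟩, ⟨7, 8, 16⟩, ⟨15, 15, 32⟩, ⟨1, 0, 0,
  0, 0⟩, ⟨208, 52, 46, 46, 3⟩, ⟨4, 1, 1, 1, 0⟩, ⟨244, 13, 13, 11, 2⟩⟩ :=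
  CoN.c 2 3 24 1 rfl rfl rfl rfl rfl CN1_c48 CN1_t43

theorem CN1_t45 : CoN CNTab ⟨⟨7, 7, 16⟩, ⟨7, 8, 16⟩, ⟨15, 15, 32⟩, ⟨1, 0, 0,
  0, 0⟩, ⟨112, 28, 22, 22, 3⟩, ⟨4, 1, 1, 1, 0⟩, ⟨244, 13, 13, 11, 2⟩⟩ :=
  CoN.c 1 2 1 24 rfl rfl rfl rfl rfl CN1_c47 CN1_t44

theorem CN1_t46 : CoN CNTab ⟨⟨7, 7, 16⟩, ⟨7, 8, 16⟩, ⟨15, 15, 32⟩, ⟨1, 0, 0,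
  0, 0⟩, ⟨112, 28, 22, 22, 3⟩, ⟨4, 1, 1, 1, 0⟩, ⟨52, 13, 13, 11, 2⟩⟩ :=
  CoN.c 0 3 192 1 rfl rfl rfl rfl rfl CN1_t45 CN1_c54

theorem CN1_t47 : CoN CNTab ⟨⟨7, 7, 16⟩, ⟨7, 8, 16⟩, ⟨1, 1, 2⟩, ⟨1, 0, 0, 0,
  0⟩, ⟨112, 28, 22, 22, 3⟩, ⟨4, 1, 1, 1, 0⟩, ⟨52, 13, 13, 11, 2⟩⟩ :=
  CoN.b 2 8 1 rfl rfl rfl CN1_c46 CN1_t46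

theorem CN1_t48 : CoN CNTab ⟨⟨7, 7, 16⟩, ⟨3, 4, 8⟩, ⟨1, 1, 2⟩, ⟨1, 0, 0, 0,
  0⟩, ⟨112, 28, 22, 22, 3⟩, ⟨4, 1, 1, 1, 0⟩, ⟨52, 13, 13, 11, 2⟩⟩ :=
  CoN.b 1 1 4 rfl rfl rfl CN1_c45 CN1_t47

theorem CN1_t49 : CoN CNTab ⟨⟨7, 7, 16⟩, ⟨3, 4, 8⟩, ⟨1, 1, 2⟩, ⟨1, 0, 0, 0,
  0⟩, ⟨64, 16, 10, 10, 3⟩, ⟨4, 1, 1, 1, 0⟩, ⟨52, 13, 13, 11, 2⟩⟩ :=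
  CoN.c 1 2 1 12 rfl rfl rfl rfl rfl CN1_c44 CN1_t48

theorem CN1_t50 : CoN CNTab ⟨⟨7, 7, 16⟩, ⟨3, 4, 8⟩, ⟨1, 1, 2⟩, ⟨1, 0, 0, 0,
  0⟩, ⟨64, 16, 10, 10, 3⟩, ⟨4, 1, 1, 1, 0⟩, ⟨28, 7, 7, 5, 2⟩⟩ :=
  CoN.c 2 3 6 1 rfl rfl rfl rfl rfl CN1_t49 CN1_c55

theorem CN1_t51 : CoN CNTab ⟨⟨7, 7, 16⟩, ⟨3, 4, 8⟩, ⟨1, 1, 2⟩, ⟨1, 0, 0, 0,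
  0⟩, ⟨40, 10, 4, 4, 3⟩, ⟨4, 1, 1, 1, 0⟩, ⟨28, 7, 7, 5, 2⟩⟩ :=
  CoN.c 1 2 1 6 rfl rfl rfl rfl rfl CN1_c43 CN1_t50

theorem CN1_t52 : CoN CNTab ⟨⟨7, 7, 16⟩, ⟨3, 4, 8⟩, ⟨1, 1, 2⟩, ⟨1, 0, 0, 0,
  0⟩, ⟨40, 10, 4, 4, 3⟩, ⟨4, 1, 1, 1, 0⟩, ⟨8, 2, 2, 1, 1⟩⟩ :=
  CoN.c 2 3 3 2 rfl rfl rfl rfl rfl CN1_t51 CN1_c56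

theorem CN1_t53 : CoN CNTab ⟨⟨7, 7, 16⟩, ⟨3, 4, 8⟩, ⟨1, 1, 2⟩, ⟨1, 0, 0, 0,
  0⟩, ⟨8, 2, 0, 0, 1⟩, ⟨4, 1, 1, 1, 0⟩, ⟨8, 2, 2, 1, 1⟩⟩ :=
  CoN.c 1 2 3 4 rfl rfl rfl rfl rfl CN1_c42 CN1_t52

theorem CN1_t54 : CoN CNTab ⟨⟨7, 7, 16⟩, ⟨3, 4, 8⟩, ⟨1, 1, 2⟩, ⟨1, 0, 0, 0,
  0⟩, ⟨8, 2, 0, 0, 1⟩, ⟨72, 18, 8, 4, 9⟩, ⟨264, 17, 7, 2, 10⟩⟩ :=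
  CoN.c 2 3 2 1 rfl rfl rfl rfl rfl CN1_c57 CN1_c58

theorem CN1_t55 : CoN CNTab ⟨⟨7, 7, 16⟩, ⟨3, 4, 8⟩, ⟨1, 1, 2⟩, ⟨1, 0, 0, 0,
  0⟩, ⟨8, 2, 0, 0, 1⟩, ⟨72, 18, 8, 4, 9⟩, ⟨68, 17, 7, 2, 10⟩⟩ :=
  CoN.c 0 3 196 1 rfl rfl rfl rfl rfl CN1_t54 CN1_c59

theorem CN1_t56 : CoN CNTab ⟨⟨7, 7, 16⟩, ⟨3, 4, 8⟩, ⟨1, 1, 2⟩, ⟨1, 0, 0, 0,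
  0⟩, ⟨8, 2, 0, 0, 1⟩, ⟨72, 18, 8, 4, 9⟩, ⟨28, 7, 7, 2, 5⟩⟩ :=
  CoN.c 1 3 5 1 rfl rfl rfl rfl rfl CN1_t55 CN1_c60

theorem CN1_t57 : CoN CNTab ⟨⟨7, 7, 16⟩, ⟨3, 4, 8⟩, ⟨1, 1, 2⟩, ⟨1, 0, 0, 0,
  0⟩, ⟨8, 2, 0, 0, 1⟩, ⟨8, 2, 2, 1, 1⟩, ⟨28, 7, 7, 2, 5⟩⟩ :=
  CoN.c 1 2 5 4 rfl rfl rfl rfl rfl CN1_t56 CN1_c61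

theorem CN1_t58 : CoN CNTab ⟨⟨13, 15, 32⟩, ⟨3, 4, 8⟩, ⟨1, 1, 2⟩, ⟨1, 0, 0,
  0, 0⟩, ⟨224, 56, 38, 4, 43⟩, ⟨52, 13, 13, 2, 11⟩, ⟨100, 25, 25, 2, 23⟩⟩ :=
  CoN.b 1 1 4 rfl rfl rfl CN1_c66 CN1_c67

theorem CN1_t59 : CoN CNTab ⟨⟨7, 7, 16⟩, ⟨3, 4, 8⟩, ⟨1, 1, 2⟩, ⟨1, 0, 0, 0,
  0⟩, ⟨224, 56, 38, 4, 43⟩, ⟨52, 13, 13, 2, 11⟩, ⟨100, 25, 25, 2, 23⟩⟩ :=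
  CoN.b 0 1 2 rfl rfl rfl CN1_c65 CN1_t58

theorem CN1_t60 : CoN CNTab ⟨⟨7, 7, 16⟩, ⟨3, 4, 8⟩, ⟨1, 1, 2⟩, ⟨1, 0, 0, 0,
  0⟩, ⟨224, 56, 38, 4, 43⟩, ⟨52, 13, 13, 2, 11⟩, ⟨4, 1, 1, 0, 1⟩⟩ :=
  CoN.c 2 3 1 12 rfl rfl rfl rfl rfl CN1_t59 CN1_c68

theorem CN1_t61 : CoN CNTab ⟨⟨7, 7, 16⟩, ⟨3, 4, 8⟩, ⟨1, 1, 2⟩, ⟨1, 0, 0, 0,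
  0⟩, ⟨40, 10, 4, 0, 7⟩, ⟨52, 13, 13, 2, 11⟩, ⟨4, 1, 1, 0, 1⟩⟩ :=
  CoN.c 1 2 3 2 rfl rfl rfl rfl rfl CN1_c64 CN1_t60

theorem CN1_t62 : CoN CNTab ⟨⟨7, 7, 16⟩, ⟨3, 4, 8⟩, ⟨1, 1, 2⟩, ⟨1, 0, 0, 0,
  0⟩, ⟨8, 2, 0, 0, 1⟩, ⟨52, 13, 13, 2, 11⟩, ⟨4, 1, 1, 0, 1⟩⟩ :=
  CoN.c 1 3 3 4 rfl rfl rfl rfl rfl CN1_c63 CN1_t61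

theorem CN1_t63 : CoN CNTab ⟨⟨7, 7, 16⟩, ⟨3, 4, 8⟩, ⟨1, 1, 2⟩, ⟨1, 0, 0, 0,
  0⟩, ⟨8, 2, 0, 0, 1⟩, ⟨28, 7, 7, 2, 5⟩, ⟨4, 1, 1, 0, 1⟩⟩ :=
  CoN.c 2 3 1 6 rfl rfl rfl rfl rfl CN1_c62 CN1_t62

theorem CN1_t64 : CoN CNTab ⟨⟨7, 7, 16⟩, ⟨3, 4, 8⟩, ⟨1, 1, 2⟩, ⟨1, 0, 0, 0,
  0⟩, ⟨8, 2, 0, 0, 1⟩, ⟨8, 2, 2, 1, 1⟩, ⟨4, 1, 1, 0, 1⟩⟩ :=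
  CoN.c 2 3 2 3 rfl rfl rfl rfl rfl CN1_t57 CN1_t63

theorem CN1_t65 : CoN CNTab ⟨⟨7, 7, 16⟩, ⟨3, 4, 8⟩, ⟨1, 1, 2⟩, ⟨1, 0, 0, 0,
  0⟩, ⟨8, 2, 0, 0, 1⟩, ⟨4, 1, 1, 1, 0⟩, ⟨4, 1, 1, 0, 1⟩⟩ :=
  CoN.c 2 3 1 1 rfl rfl rfl rfl rfl CN1_t53 CN1_t64

theorem CN1_t66 : CoN CNTab ⟨⟨3, 3, 8⟩, ⟨6, 7, 16⟩, ⟨13, 15, 32⟩, ⟨1, 0, 0,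
  0, 0⟩, ⟨224, 56, 38, 4, 43⟩, ⟨204, 51, 51, 6, 45⟩, ⟨100, 25, 25, 2, 23⟩⟩
  :=
  CoN.c 1 3 1 2 rfl rfl rfl rfl rfl CN1_c75 CN1_c76

theorem CN1_t67 : CoN CNTab ⟨⟨3, 3, 8⟩, ⟨6, 7, 16⟩, ⟨13, 15, 32⟩, ⟨1, 0, 0,
  0, 0⟩, ⟨224, 56, 38, 4, 43⟩, ⟨52, 13, 13, 2, 11⟩, ⟨100, 25, 25, 2, 23⟩⟩ :=
  CoN.c 2 3 2 1 rfl rfl rfl rfl rfl CN1_c74 CN1_t66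

theorem CN1_t68 : CoN CNTab ⟨⟨6, 7, 16⟩, ⟨3, 4, 8⟩, ⟨13, 15, 32⟩, ⟨484, 25,
  25, 2, 23⟩, ⟨224, 56, 38, 4, 43⟩, ⟨244, 13, 13, 2, 11⟩, ⟨100, 25, 25, 2,
  23⟩⟩ :=
  CoN.c 0 3 1 2 rfl rfl rfl rfl rfl CN1_c78 CN1_c79

theorem CN1_t69 : CoN CNTab ⟨⟨6, 7, 16⟩, ⟨3, 4, 8⟩, ⟨13, 15, 32⟩, ⟨1, 0, 0,
  0, 0⟩, ⟨224, 56, 38, 4, 43⟩, ⟨244, 13, 13, 2, 11⟩, ⟨100, 25, 25, 2, 23⟩⟩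
  :=
  CoN.c 0 3 384 1 rfl rfl rfl rfl rfl CN1_c77 CN1_t68

theorem CN1_t70 : CoN CNTab ⟨⟨6, 7, 16⟩, ⟨3, 4, 8⟩, ⟨13, 15, 32⟩, ⟨1, 0, 0,
  0, 0⟩, ⟨224, 56, 38, 4, 43⟩, ⟨52, 13, 13, 2, 11⟩, ⟨100, 25, 25, 2, 23⟩⟩ :=
  CoN.c 0 2 192 1 rfl rfl rfl rfl rfl CN1_t69 CN1_c80

theorem CN1_t71 : CoN CNTab ⟨⟨3, 3, 8⟩, ⟨3, 4, 8⟩, ⟨13, 15, 32⟩, ⟨1, 0, 0,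
  0, 0⟩, ⟨224, 56, 38, 4, 43⟩, ⟨52, 13, 13, 2, 11⟩, ⟨100, 25, 25, 2, 23⟩⟩ :=
  CoN.b 0 1 1 rfl rfl rfl CN1_t67 CN1_t70

theorem CN1_t72 : CoN CNTab ⟨⟨13, 13, 32⟩, ⟨429, 431, 1024⟩, ⟨7, 7, 16⟩,
  ⟨7004, 1559, 1559, 142, 1417⟩, ⟨28668, 6207, 6135, 558, 5613⟩, ⟨13420,
  3163, 3163, 278, 2885⟩, ⟨6988, 1555, 1555, 134, 1421⟩⟩ :=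
  CoN.b 2 2 1 rfl rfl rfl CN1_c95 CN1_c96

theorem CN1_t73 : CoN CNTab ⟨⟨13, 13, 32⟩, ⟨429, 431, 1024⟩, ⟨7, 7, 16⟩,
  ⟨7004, 1559, 1559, 142, 1417⟩, ⟨28668, 6207, 6135, 558, 5613⟩, ⟨804, 201,
  201, 18, 183⟩, ⟨6988, 1555, 1555, 134, 1421⟩⟩ :=
  CoN.c 2 3 8 1 rfl rfl rfl rfl rfl CN1_c94 CN1_t72

theorem CN1_t74 : CoN CNTab ⟨⟨13, 13, 32⟩, ⟨205, 207, 512⟩, ⟨7, 7, 16⟩,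
  ⟨7004, 1559, 1559, 142, 1417⟩, ⟨28668, 6207, 6135, 558, 5613⟩, ⟨804, 201,
  201, 18, 183⟩, ⟨6988, 1555, 1555, 134, 1421⟩⟩ :=
  CoN.b 1 1 32 rfl rfl rfl CN1_c93 CN1_t73

theorem CN1_t75 : CoN CNTab ⟨⟨3, 3, 8⟩, ⟨205, 207, 512⟩, ⟨7, 7, 16⟩, ⟨7004,
  1559, 1559, 142, 1417⟩, ⟨28668, 6207, 6135, 558, 5613⟩, ⟨804, 201, 201,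
  18, 183⟩, ⟨6988, 1555, 1555, 134, 1421⟩⟩ :=
  CoN.b 2 1 2 rfl rfl rfl CN1_t74 CN1_c97

theorem CN1_t76 : CoN CNTab ⟨⟨3, 3, 8⟩, ⟨205, 207, 512⟩, ⟨7, 7, 16⟩, ⟨7004,
  1559, 1559, 142, 1417⟩, ⟨15804, 2991, 2919, 270, 2685⟩, ⟨804, 201, 201,
  18, 183⟩, ⟨6988, 1555, 1555, 134, 1421⟩⟩ :=
  CoN.c 1 2 1 16 rfl rfl rfl rfl rfl CN1_c92 CN1_t75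

theorem CN1_t77 : CoN CNTab ⟨⟨3, 3, 8⟩, ⟨205, 207, 512⟩, ⟨7, 7, 16⟩, ⟨3788,
  755, 755, 70, 685⟩, ⟨15804, 2991, 2919, 270, 2685⟩, ⟨804, 201, 201, 18,
  183⟩, ⟨6988, 1555, 1555, 134, 1421⟩⟩ :=
  CoN.c 0 2 1 4 rfl rfl rfl rfl rfl CN1_c91 CN1_t76

theorem CN1_t78 : CoN CNTab ⟨⟨3, 3, 8⟩, ⟨109, 111, 256⟩, ⟨7, 7, 16⟩, ⟨3788,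
  755, 755, 70, 685⟩, ⟨15804, 2991, 2919, 270, 2685⟩, ⟨804, 201, 201, 18,
  183⟩, ⟨6988, 1555, 1555, 134, 1421⟩⟩ :=
  CoN.b 0 32 1 rfl rfl rfl CN1_t77 CN1_c98

theorem CN1_t79 : CoN CNTab ⟨⟨3, 3, 8⟩, ⟨109, 111, 256⟩, ⟨7, 7, 16⟩, ⟨3788,
  755, 755, 70, 685⟩, ⟨15804, 2991, 2919, 270, 2685⟩, ⟨804, 201, 201, 18,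
  183⟩, ⟨100, 25, 25, 2, 23⟩⟩ :=
  CoN.c 0 3 1 32 rfl rfl rfl rfl rfl CN1_t78 CN1_c99

theorem CN1_t80 : CoN CNTab ⟨⟨3, 3, 8⟩, ⟨109, 111, 256⟩, ⟨7, 7, 16⟩, ⟨3788,
  755, 755, 70, 685⟩, ⟨8228, 1481, 1409, 130, 1315⟩, ⟨804, 201, 201, 18,
  183⟩, ⟨100, 25, 25, 2, 23⟩⟩ :=
  CoN.c 0 1 2 1 rfl rfl rfl rfl rfl CN1_t79 CN1_c100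

theorem CN1_t81 : CoN CNTab ⟨⟨3, 3, 8⟩, ⟨53, 55, 128⟩, ⟨7, 7, 16⟩, ⟨3788,
  755, 755, 70, 685⟩, ⟨8228, 1481, 1409, 130, 1315⟩, ⟨804, 201, 201, 18,
  183⟩, ⟨100, 25, 25, 2, 23⟩⟩ :=
  CoN.b 1 1 8 rfl rfl rfl CN1_c90 CN1_t80

theorem CN1_t82 : CoN CNTab ⟨⟨3, 3, 8⟩, ⟨53, 55, 128⟩, ⟨7, 7, 16⟩, ⟨3788,
  755, 755, 70, 685⟩, ⟨2220, 363, 327, 30, 315⟩, ⟨804, 201, 201, 18, 183⟩,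
  ⟨100, 25, 25, 2, 23⟩⟩ :=
  CoN.c 0 1 1 2 rfl rfl rfl rfl rfl CN1_t81 CN1_c101

theorem CN1_t83 : CoN CNTab ⟨⟨3, 3, 8⟩, ⟨53, 55, 128⟩, ⟨7, 7, 16⟩, ⟨3788,
  755, 755, 70, 685⟩, ⟨2220, 363, 327, 30, 315⟩, ⟨404, 101, 101, 10, 91⟩,
  ⟨100, 25, 25, 2, 23⟩⟩ :=
  CoN.c 2 3 1 4 rfl rfl rfl rfl rfl CN1_c89 CN1_t82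

theorem CN1_t84 : CoN CNTab ⟨⟨3, 3, 8⟩, ⟨25, 27, 64⟩, ⟨7, 7, 16⟩, ⟨3788,
  755, 755, 70, 685⟩, ⟨2220, 363, 327, 30, 315⟩, ⟨404, 101, 101, 10, 91⟩,
  ⟨100, 25, 25, 2, 23⟩⟩ :=
  CoN.b 1 1 4 rfl rfl rfl CN1_c88 CN1_t83

theorem CN1_t85 : CoN CNTab ⟨⟨3, 3, 8⟩, ⟨25, 27, 64⟩, ⟨7, 7, 16⟩, ⟨2172,
  351, 351, 30, 321⟩, ⟨2220, 363, 327, 30, 315⟩, ⟨404, 101, 101, 10, 91⟩,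
  ⟨100, 25, 25, 2, 23⟩⟩ :=
  CoN.c 0 2 1 4 rfl rfl rfl rfl rfl CN1_c87 CN1_t84

theorem CN1_t86 : CoN CNTab ⟨⟨3, 3, 8⟩, ⟨25, 27, 64⟩, ⟨7, 7, 16⟩, ⟨1372,
  151, 151, 14, 137⟩, ⟨2220, 363, 327, 30, 315⟩, ⟨404, 101, 101, 10, 91⟩,
  ⟨100, 25, 25, 2, 23⟩⟩ :=
  CoN.c 0 3 1 8 rfl rfl rfl rfl rfl CN1_c86 CN1_t85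

theorem CN1_t87 : CoN CNTab ⟨⟨3, 3, 8⟩, ⟨13, 15, 32⟩, ⟨7, 7, 16⟩, ⟨1372,
  151, 151, 14, 137⟩, ⟨2220, 363, 327, 30, 315⟩, ⟨404, 101, 101, 10, 91⟩,
  ⟨100, 25, 25, 2, 23⟩⟩ :=
  CoN.b 0 4 1 rfl rfl rfl CN1_t86 CN1_c102

theorem CN1_t88 : CoN CNTab ⟨⟨3, 3, 8⟩, ⟨13, 15, 32⟩, ⟨7, 7, 16⟩, ⟨1372,
  151, 151, 14, 137⟩, ⟨424, 106, 88, 8, 89⟩, ⟨404, 101, 101, 10, 91⟩, ⟨100,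
  25, 25, 2, 23⟩⟩ :=
  CoN.c 0 1 1 2 rfl rfl rfl rfl rfl CN1_t87 CN1_c103

theorem CN1_t89 : CoN CNTab ⟨⟨3, 3, 8⟩, ⟨13, 15, 32⟩, ⟨7, 7, 16⟩, ⟨484, 25,
  25, 2, 23⟩, ⟨424, 106, 88, 8, 89⟩, ⟨404, 101, 101, 10, 91⟩, ⟨100, 25, 25,
  2, 23⟩⟩ :=
  CoN.c 0 2 2 1 rfl rfl rfl rfl rfl CN1_c85 CN1_t88

theorem CN1_t90 : CoN CNTab ⟨⟨3, 3, 8⟩, ⟨13, 15, 32⟩, ⟨7, 7, 16⟩, ⟨1, 0, 0,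
  0, 0⟩, ⟨424, 106, 88, 8, 89⟩, ⟨404, 101, 101, 10, 91⟩, ⟨100, 25, 25, 2,
  23⟩⟩ :=
  CoN.c 0 3 384 1 rfl rfl rfl rfl rfl CN1_c84 CN1_t89

theorem CN1_t91 : CoN CNTab ⟨⟨3, 3, 8⟩, ⟨13, 15, 32⟩, ⟨7, 7, 16⟩, ⟨1, 0, 0,
  0, 0⟩, ⟨424, 106, 88, 8, 89⟩, ⟨204, 51, 51, 6, 45⟩, ⟨100, 25, 25, 2, 23⟩⟩
  :=
  CoN.c 2 3 1 2 rfl rfl rfl rfl rfl CN1_c83 CN1_t90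

theorem CN1_t92 : CoN CNTab ⟨⟨3, 3, 8⟩, ⟨13, 15, 32⟩, ⟨7, 7, 16⟩, ⟨1, 0, 0,
  0, 0⟩, ⟨224, 56, 38, 4, 43⟩, ⟨204, 51, 51, 6, 45⟩, ⟨100, 25, 25, 2, 23⟩⟩
  :=
  CoN.c 1 3 1 2 rfl rfl rfl rfl rfl CN1_c82 CN1_t91

theorem CN1_t93 : CoN CNTab ⟨⟨3, 3, 8⟩, ⟨13, 15, 32⟩, ⟨7, 7, 16⟩, ⟨1, 0, 0,
  0, 0⟩, ⟨224, 56, 38, 4, 43⟩, ⟨52, 13, 13, 2, 11⟩, ⟨100, 25, 25, 2, 23⟩⟩ :=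
  CoN.c 2 3 2 1 rfl rfl rfl rfl rfl CN1_c81 CN1_t92

theorem CN1_t94 : CoN CNTab ⟨⟨3, 3, 8⟩, ⟨3, 4, 8⟩, ⟨7, 7, 16⟩, ⟨1, 0, 0, 0,
  0⟩, ⟨224, 56, 38, 4, 43⟩, ⟨52, 13, 13, 2, 11⟩, ⟨100, 25, 25, 2, 23⟩⟩ :=
  CoN.b 1 2 1 rfl rfl rfl CN1_t71 CN1_t93

theorem CN1_t95 : CoN CNTab ⟨⟨3, 3, 8⟩, ⟨3, 4, 8⟩, ⟨7, 7, 16⟩, ⟨1, 0, 0, 0,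
  0⟩, ⟨224, 56, 38, 4, 43⟩, ⟨52, 13, 13, 2, 11⟩, ⟨4, 1, 1, 0, 1⟩⟩ :=
  CoN.c 2 3 1 12 rfl rfl rfl rfl rfl CN1_t94 CN1_c104

theorem CN1_t96 : CoN CNTab ⟨⟨3, 3, 8⟩, ⟨3, 4, 8⟩, ⟨7, 7, 16⟩, ⟨1, 0, 0, 0,
  0⟩, ⟨40, 10, 4, 0, 7⟩, ⟨52, 13, 13, 2, 11⟩, ⟨4, 1, 1, 0, 1⟩⟩ :=
  CoN.c 1 2 3 2 rfl rfl rfl rfl rfl CN1_c73 CN1_t95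

theorem CN1_t97 : CoN CNTab ⟨⟨3, 3, 8⟩, ⟨3, 4, 8⟩, ⟨7, 7, 16⟩, ⟨1, 0, 0, 0,
  0⟩, ⟨8, 2, 0, 0, 1⟩, ⟨52, 13, 13, 2, 11⟩, ⟨4, 1, 1, 0, 1⟩⟩ :=
  CoN.c 1 3 3 4 rfl rfl rfl rfl rfl CN1_c72 CN1_t96

theorem CN1_t98 : CoN CNTab ⟨⟨3, 3, 8⟩, ⟨3, 4, 8⟩, ⟨7, 7, 16⟩, ⟨1, 0, 0, 0,
  0⟩, ⟨8, 2, 0, 0, 1⟩, ⟨28, 7, 7, 2, 5⟩, ⟨4, 1, 1, 0, 1⟩⟩ :=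
  CoN.c 2 3 1 6 rfl rfl rfl rfl rfl CN1_c71 CN1_t97

theorem CN1_t99 : CoN CNTab ⟨⟨3, 3, 8⟩, ⟨3, 4, 8⟩, ⟨7, 7, 16⟩, ⟨1, 0, 0, 0,
  0⟩, ⟨8, 2, 0, 0, 1⟩, ⟨8, 2, 2, 1, 1⟩, ⟨4, 1, 1, 0, 1⟩⟩ :=
  CoN.c 2 3 2 3 rfl rfl rfl rfl rfl CN1_c70 CN1_t98

theorem CN1_t100 : CoN CNTab ⟨⟨3, 3, 8⟩, ⟨3, 4, 8⟩, ⟨7, 7, 16⟩, ⟨1, 0, 0, 0,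
  0⟩, ⟨8, 2, 0, 0, 1⟩, ⟨4, 1, 1, 1, 0⟩, ⟨4, 1, 1, 0, 1⟩⟩ :=
  CoN.c 2 3 1 1 rfl rfl rfl rfl rfl CN1_c69 CN1_t99

theorem CN1_t101 : CoN CNTab ⟨⟨3, 3, 8⟩, ⟨3, 4, 8⟩, ⟨1, 1, 2⟩, ⟨1, 0, 0, 0,
  0⟩, ⟨8, 2, 0, 0, 1⟩, ⟨4, 1, 1, 1, 0⟩, ⟨4, 1, 1, 0, 1⟩⟩ :=
  CoN.b 2 4 1 rfl rfl rfl CN1_t65 CN1_t100

theorem CN1_t102 : CoN CNTab ⟨⟨3, 3, 8⟩, ⟨1, 2, 4⟩, ⟨1, 1, 2⟩, ⟨1, 0, 0, 0,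
  0⟩, ⟨8, 2, 0, 0, 1⟩, ⟨4, 1, 1, 1, 0⟩, ⟨4, 1, 1, 0, 1⟩⟩ :=
  CoN.b 1 1 2 rfl rfl rfl CN1_t39 CN1_t101

theorem CN1_t103 : CoN CNTab ⟨⟨5, 5, 16⟩, ⟨2, 3, 8⟩, ⟨3, 3, 8⟩, ⟨1, 0, 0, 0,
  0⟩, ⟨224, 56, 38, 4, 43⟩, ⟨52, 13, 13, 2, 11⟩, ⟨100, 25, 25, 2, 23⟩⟩ :=
  CoN.c 2 3 2 1 rfl rfl rfl rfl rfl CN1_c110 CN1_c111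

theorem CN1_t104 : CoN CNTab ⟨⟨5, 5, 16⟩, ⟨2, 3, 8⟩, ⟨3, 3, 8⟩, ⟨1, 0, 0, 0,
  0⟩, ⟨224, 56, 38, 4, 43⟩, ⟨52, 13, 13, 2, 11⟩, ⟨4, 1, 1, 0, 1⟩⟩ :=
  CoN.c 2 3 1 12 rfl rfl rfl rfl rfl CN1_t103 CN1_c112

theorem CN1_t105 : CoN CNTab ⟨⟨5, 5, 16⟩, ⟨2, 3, 8⟩, ⟨3, 3, 8⟩, ⟨1, 0, 0, 0,
  0⟩, ⟨40, 10, 4, 0, 7⟩, ⟨52, 13, 13, 2, 11⟩, ⟨4, 1, 1, 0, 1⟩⟩ :=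
  CoN.c 1 2 3 2 rfl rfl rfl rfl rfl CN1_c109 CN1_t104

theorem CN1_t106 : CoN CNTab ⟨⟨5, 5, 16⟩, ⟨2, 3, 8⟩, ⟨3, 3, 8⟩, ⟨1, 0, 0, 0,
  0⟩, ⟨8, 2, 0, 0, 1⟩, ⟨52, 13, 13, 2, 11⟩, ⟨4, 1, 1, 0, 1⟩⟩ :=
  CoN.c 1 3 3 4 rfl rfl rfl rfl rfl CN1_c108 CN1_t105

theorem CN1_t107 : CoN CNTab ⟨⟨5, 5, 16⟩, ⟨2, 3, 8⟩, ⟨3, 3, 8⟩, ⟨1, 0, 0, 0,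
  0⟩, ⟨8, 2, 0, 0, 1⟩, ⟨28, 7, 7, 2, 5⟩, ⟨4, 1, 1, 0, 1⟩⟩ :=
  CoN.c 2 3 1 6 rfl rfl rfl rfl rfl CN1_c107 CN1_t106

theorem CN1_t108 : CoN CNTab ⟨⟨5, 5, 16⟩, ⟨2, 3, 8⟩, ⟨3, 3, 8⟩, ⟨1, 0, 0, 0,
  0⟩, ⟨8, 2, 0, 0, 1⟩, ⟨8, 2, 2, 1, 1⟩, ⟨4, 1, 1, 0, 1⟩⟩ :=
  CoN.c 2 3 2 3 rfl rfl rfl rfl rfl CN1_c106 CN1_t107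

theorem CN1_t109 : CoN CNTab ⟨⟨5, 5, 16⟩, ⟨2, 3, 8⟩, ⟨3, 3, 8⟩, ⟨1, 0, 0, 0,
  0⟩, ⟨8, 2, 0, 0, 1⟩, ⟨4, 1, 1, 1, 0⟩, ⟨4, 1, 1, 0, 1⟩⟩ :=
  CoN.c 2 3 1 1 rfl rfl rfl rfl rfl CN1_c105 CN1_t108

theorem CN1_t110 : CoN CNTab ⟨⟨1, 1, 4⟩, ⟨2, 3, 8⟩, ⟨5, 5, 16⟩, ⟨1, 0, 0, 0,
  0⟩, ⟨224, 56, 38, 4, 43⟩, ⟨52, 13, 13, 2, 11⟩, ⟨100, 25, 25, 2, 23⟩⟩ :=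
  CoN.b 0 2 1 rfl rfl rfl CN1_c118 CN1_c119

theorem CN1_t111 : CoN CNTab ⟨⟨1, 1, 4⟩, ⟨2, 3, 8⟩, ⟨5, 5, 16⟩, ⟨1, 0, 0, 0,
  0⟩, ⟨224, 56, 38, 4, 43⟩, ⟨52, 13, 13, 2, 11⟩, ⟨4, 1, 1, 0, 1⟩⟩ :=
  CoN.c 2 3 1 12 rfl rfl rfl rfl rfl CN1_t110 CN1_c120

theorem CN1_t112 : CoN CNTab ⟨⟨1, 1, 4⟩, ⟨2, 3, 8⟩, ⟨5, 5, 16⟩, ⟨1, 0, 0, 0,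
  0⟩, ⟨40, 10, 4, 0, 7⟩, ⟨52, 13, 13, 2, 11⟩, ⟨4, 1, 1, 0, 1⟩⟩ :=
  CoN.c 1 2 3 2 rfl rfl rfl rfl rfl CN1_c117 CN1_t111

theorem CN1_t113 : CoN CNTab ⟨⟨1, 1, 4⟩, ⟨2, 3, 8⟩, ⟨5, 5, 16⟩, ⟨1, 0, 0, 0,
  0⟩, ⟨8, 2, 0, 0, 1⟩, ⟨52, 13, 13, 2, 11⟩, ⟨4, 1, 1, 0, 1⟩⟩ :=
  CoN.c 1 3 3 4 rfl rfl rfl rfl rfl CN1_c116 CN1_t112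

theorem CN1_t114 : CoN CNTab ⟨⟨1, 1, 4⟩, ⟨2, 3, 8⟩, ⟨5, 5, 16⟩, ⟨1, 0, 0, 0,
  0⟩, ⟨8, 2, 0, 0, 1⟩, ⟨28, 7, 7, 2, 5⟩, ⟨4, 1, 1, 0, 1⟩⟩ :=
  CoN.c 2 3 1 6 rfl rfl rfl rfl rfl CN1_c115 CN1_t113

theorem CN1_t115 : CoN CNTab ⟨⟨1, 1, 4⟩, ⟨2, 3, 8⟩, ⟨5, 5, 16⟩, ⟨1, 0, 0, 0,
  0⟩, ⟨8, 2, 0, 0, 1⟩, ⟨8, 2, 2, 1, 1⟩, ⟨4, 1, 1, 0, 1⟩⟩ :=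
  CoN.c 2 3 2 3 rfl rfl rfl rfl rfl CN1_c114 CN1_t114

theorem CN1_t116 : CoN CNTab ⟨⟨1, 1, 4⟩, ⟨2, 3, 8⟩, ⟨5, 5, 16⟩, ⟨1, 0, 0, 0,
  0⟩, ⟨8, 2, 0, 0, 1⟩, ⟨4, 1, 1, 1, 0⟩, ⟨4, 1, 1, 0, 1⟩⟩ :=
  CoN.c 2 3 1 1 rfl rfl rfl rfl rfl CN1_c113 CN1_t115

theorem CN1_t117 : CoN CNTab ⟨⟨1, 1, 4⟩, ⟨2, 3, 8⟩, ⟨3, 3, 8⟩, ⟨1, 0, 0, 0,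
  0⟩, ⟨8, 2, 0, 0, 1⟩, ⟨4, 1, 1, 1, 0⟩, ⟨4, 1, 1, 0, 1⟩⟩ :=
  CoN.b 2 1 2 rfl rfl rfl CN1_t109 CN1_t116

theorem CN1_t118 : CoN CNTab ⟨⟨2, 3, 8⟩, ⟨1, 2, 4⟩, ⟨5, 7, 16⟩, ⟨1, 0, 0, 0,
  0⟩, ⟨8, 2, 0, 0, 1⟩, ⟨4, 1, 1, 1, 0⟩, ⟨4, 1, 1, 0, 1⟩⟩ :=
  CoN.c 0 2 16 1 rfl rfl rfl rfl rfl CN1_c121 CN1_c122

theorem CN1_t119 : CoN CNTab ⟨⟨2, 3, 8⟩, ⟨5, 7, 16⟩, ⟨3, 3, 8⟩, ⟨1, 0, 0, 0,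
  0⟩, ⟨8, 2, 0, 0, 1⟩, ⟨8, 2, 2, 1, 1⟩, ⟨4, 1, 1, 0, 1⟩⟩ :=
  CoN.c 2 3 2 3 rfl rfl rfl rfl rfl CN1_c124 CN1_c125

theorem CN1_t120 : CoN CNTab ⟨⟨2, 3, 8⟩, ⟨5, 7, 16⟩, ⟨3, 3, 8⟩, ⟨1, 0, 0, 0,
  0⟩, ⟨8, 2, 0, 0, 1⟩, ⟨4, 1, 1, 1, 0⟩, ⟨4, 1, 1, 0, 1⟩⟩ :=
  CoN.c 2 3 1 1 rfl rfl rfl rfl rfl CN1_c123 CN1_t119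

theorem CN1_t121 : CoN CNTab ⟨⟨2, 3, 8⟩, ⟨1, 2, 4⟩, ⟨3, 3, 8⟩, ⟨1, 0, 0, 0,
  0⟩, ⟨8, 2, 0, 0, 1⟩, ⟨4, 1, 1, 1, 0⟩, ⟨4, 1, 1, 0, 1⟩⟩ :=
  CoN.b 1 2 1 rfl rfl rfl CN1_t118 CN1_t120

theorem CN1_t122 : CoN CNTab ⟨⟨1, 1, 4⟩, ⟨1, 2, 4⟩, ⟨3, 3, 8⟩, ⟨1, 0, 0, 0,
  0⟩, ⟨8, 2, 0, 0, 1⟩, ⟨4, 1, 1, 1, 0⟩, ⟨4, 1, 1, 0, 1⟩⟩ :=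
  CoN.b 0 1 1 rfl rfl rfl CN1_t117 CN1_t121

theorem CN1_t123 : CoN CNTab ⟨⟨1, 1, 4⟩, ⟨1, 2, 4⟩, ⟨1, 1, 2⟩, ⟨1, 0, 0, 0,
  0⟩, ⟨8, 2, 0, 0, 1⟩, ⟨4, 1, 1, 1, 0⟩, ⟨4, 1, 1, 0, 1⟩⟩ :=
  CoN.b 2 2 1 rfl rfl rfl CN1_t102 CN1_t122

theorem CN1_t124 : CoN CNTab ⟨⟨1, 1, 4⟩, ⟨0, 1, 2⟩, ⟨1, 1, 2⟩, ⟨1, 0, 0, 0,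
  0⟩, ⟨8, 2, 0, 0, 1⟩, ⟨4, 1, 1, 1, 0⟩, ⟨4, 1, 1, 0, 1⟩⟩ :=
  CoN.b 1 1 1 rfl rfl rfl CN1_t21 CN1_t123

theorem CN1_t125 : CoN CNTab ⟨⟨1, 1, 8⟩, ⟨1, 3, 16⟩, ⟨2, 3, 16⟩, ⟨1, 0, 0,
  0, 0⟩, ⟨40, 10, 4, 0, 7⟩, ⟨52, 13, 13, 2, 11⟩, ⟨100, 25, 25, 2, 23⟩⟩ :=
  CoN.b 0 2 1 rfl rfl rfl CN1_c131 CN1_c132

theorem CN1_t126 : CoN CNTab ⟨⟨1, 1, 8⟩, ⟨1, 3, 16⟩, ⟨1, 2, 8⟩, ⟨1, 0, 0, 0,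
  0⟩, ⟨40, 10, 4, 0, 7⟩, ⟨52, 13, 13, 2, 11⟩, ⟨100, 25, 25, 2, 23⟩⟩ :=
  CoN.b 2 1 1 rfl rfl rfl CN1_c130 CN1_t125

theorem CN1_t127 : CoN CNTab ⟨⟨1, 1, 8⟩, ⟨1, 3, 16⟩, ⟨1, 2, 8⟩, ⟨1, 0, 0, 0,
  0⟩, ⟨40, 10, 4, 0, 7⟩, ⟨52, 13, 13, 2, 11⟩, ⟨4, 1, 1, 0, 1⟩⟩ :=
  CoN.c 2 3 1 12 rfl rfl rfl rfl rfl CN1_t126 CN1_c133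

theorem CN1_t128 : CoN CNTab ⟨⟨1, 1, 8⟩, ⟨1, 3, 16⟩, ⟨1, 2, 8⟩, ⟨1, 0, 0, 0,
  0⟩, ⟨40, 10, 4, 0, 7⟩, ⟨28, 7, 7, 2, 5⟩, ⟨4, 1, 1, 0, 1⟩⟩ :=
  CoN.c 2 3 1 6 rfl rfl rfl rfl rfl CN1_c129 CN1_t127

theorem CN1_t129 : CoN CNTab ⟨⟨1, 1, 8⟩, ⟨1, 3, 16⟩, ⟨1, 2, 8⟩, ⟨1, 0, 0, 0,
  0⟩, ⟨8, 2, 0, 0, 1⟩, ⟨28, 7, 7, 2, 5⟩, ⟨4, 1, 1, 0, 1⟩⟩ :=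
  CoN.c 1 3 3 4 rfl rfl rfl rfl rfl CN1_c128 CN1_t128

theorem CN1_t130 : CoN CNTab ⟨⟨1, 1, 8⟩, ⟨1, 3, 16⟩, ⟨1, 2, 8⟩, ⟨1, 0, 0, 0,
  0⟩, ⟨8, 2, 0, 0, 1⟩, ⟨8, 2, 2, 1, 1⟩, ⟨4, 1, 1, 0, 1⟩⟩ :=
  CoN.c 2 3 2 3 rfl rfl rfl rfl rfl CN1_c127 CN1_t129

theorem CN1_t131 : CoN CNTab ⟨⟨1, 1, 8⟩, ⟨1, 3, 16⟩, ⟨1, 2, 8⟩, ⟨1, 0, 0, 0,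
  0⟩, ⟨8, 2, 0, 0, 1⟩, ⟨4, 1, 1, 1, 0⟩, ⟨4, 1, 1, 0, 1⟩⟩ :=
  CoN.c 2 3 1 1 rfl rfl rfl rfl rfl CN1_c126 CN1_t130

theorem CN1_t132 : CoN CNTab ⟨⟨1, 1, 8⟩, ⟨0, 1, 4⟩, ⟨1, 2, 8⟩, ⟨1, 0, 0, 0,
  0⟩, ⟨8, 2, 0, 0, 1⟩, ⟨4, 1, 1, 1, 0⟩, ⟨4, 1, 1, 0, 1⟩⟩ :=
  CoN.b 0 1 2 rfl rfl rfl CN1_t131 CN1_c134

theorem CN1_t133 : CoN CNTab ⟨⟨3, 3, 16⟩, ⟨1, 2, 8⟩, ⟨1, 1, 4⟩, ⟨1, 0, 0, 0,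
  0⟩, ⟨220, 55, 37, 2, 44⟩, ⟨428, 107, 89, 10, 88⟩, ⟨100, 25, 25, 2, 23⟩⟩ :=
  CoN.c 0 2 1524 1 rfl rfl rfl rfl rfl CN1_c140 CN1_c141

theorem CN1_t134 : CoN CNTab ⟨⟨3, 3, 16⟩, ⟨1, 2, 8⟩, ⟨1, 1, 4⟩, ⟨1, 0, 0, 0,
  0⟩, ⟨220, 55, 37, 2, 44⟩, ⟨52, 13, 13, 2, 11⟩, ⟨100, 25, 25, 2, 23⟩⟩ :=
  CoN.c 1 2 1 4 rfl rfl rfl rfl rfl CN1_t133 CN1_c142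

theorem CN1_t135 : CoN CNTab ⟨⟨3, 3, 16⟩, ⟨1, 2, 8⟩, ⟨1, 1, 4⟩, ⟨1, 0, 0, 0,
  0⟩, ⟨40, 10, 4, 0, 7⟩, ⟨52, 13, 13, 2, 11⟩, ⟨100, 25, 25, 2, 23⟩⟩ :=
  CoN.c 1 3 3 1 rfl rfl rfl rfl rfl CN1_c139 CN1_t134

theorem CN1_t136 : CoN CNTab ⟨⟨3, 3, 16⟩, ⟨1, 2, 8⟩, ⟨1, 1, 4⟩, ⟨1, 0, 0, 0,
  0⟩, ⟨40, 10, 4, 0, 7⟩, ⟨52, 13, 13, 2, 11⟩, ⟨4, 1, 1, 0, 1⟩⟩ :=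
  CoN.c 2 3 1 12 rfl rfl rfl rfl rfl CN1_t135 CN1_c143

theorem CN1_t137 : CoN CNTab ⟨⟨3, 3, 16⟩, ⟨1, 2, 8⟩, ⟨1, 1, 4⟩, ⟨1, 0, 0, 0,
  0⟩, ⟨8, 2, 0, 0, 1⟩, ⟨52, 13, 13, 2, 11⟩, ⟨4, 1, 1, 0, 1⟩⟩ :=
  CoN.c 1 3 3 4 rfl rfl rfl rfl rfl CN1_c138 CN1_t136

theorem CN1_t138 : CoN CNTab ⟨⟨3, 3, 16⟩, ⟨1, 2, 8⟩, ⟨1, 1, 4⟩, ⟨1, 0, 0, 0,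
  0⟩, ⟨8, 2, 0, 0, 1⟩, ⟨28, 7, 7, 2, 5⟩, ⟨4, 1, 1, 0, 1⟩⟩ :=
  CoN.c 2 3 1 6 rfl rfl rfl rfl rfl CN1_c137 CN1_t137

theorem CN1_t139 : CoN CNTab ⟨⟨3, 3, 16⟩, ⟨1, 2, 8⟩, ⟨1, 1, 4⟩, ⟨1, 0, 0, 0,
  0⟩, ⟨8, 2, 0, 0, 1⟩, ⟨8, 2, 2, 1, 1⟩, ⟨4, 1, 1, 0, 1⟩⟩ :=
  CoN.c 2 3 2 3 rfl rfl rfl rfl rfl CN1_c136 CN1_t138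

theorem CN1_t140 : CoN CNTab ⟨⟨3, 3, 16⟩, ⟨1, 2, 8⟩, ⟨1, 1, 4⟩, ⟨1, 0, 0, 0,
  0⟩, ⟨8, 2, 0, 0, 1⟩, ⟨4, 1, 1, 1, 0⟩, ⟨4, 1, 1, 0, 1⟩⟩ :=
  CoN.c 2 3 1 1 rfl rfl rfl rfl rfl CN1_c135 CN1_t139

theorem CN1_t141 : CoN CNTab ⟨⟨1, 1, 8⟩, ⟨1, 2, 8⟩, ⟨3, 3, 16⟩, ⟨1, 0, 0, 0,
  0⟩, ⟨444, 111, 75, 6, 87⟩, ⟨972, 51, 51, 6, 45⟩, ⟨100, 25, 25, 2, 23⟩⟩ :=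
  CoN.c 1 2 1 1 rfl rfl rfl rfl rfl CN1_c150 CN1_c151

theorem CN1_t142 : CoN CNTab ⟨⟨1, 1, 8⟩, ⟨1, 2, 8⟩, ⟨3, 3, 16⟩, ⟨1, 0, 0, 0,
  0⟩, ⟨444, 111, 75, 6, 87⟩, ⟨204, 51, 51, 6, 45⟩, ⟨100, 25, 25, 2, 23⟩⟩ :=
  CoN.c 0 2 768 1 rfl rfl rfl rfl rfl CN1_t141 CN1_c152

theorem CN1_t143 : CoN CNTab ⟨⟨1, 1, 8⟩, ⟨1, 2, 8⟩, ⟨3, 3, 16⟩, ⟨1, 0, 0, 0,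
  0⟩, ⟨40, 10, 4, 0, 7⟩, ⟨204, 51, 51, 6, 45⟩, ⟨100, 25, 25, 2, 23⟩⟩ :=
  CoN.c 1 2 6 1 rfl rfl rfl rfl rfl CN1_c149 CN1_t142

theorem CN1_t144 : CoN CNTab ⟨⟨1, 1, 8⟩, ⟨1, 2, 8⟩, ⟨3, 3, 16⟩, ⟨1, 0, 0, 0,
  0⟩, ⟨40, 10, 4, 0, 7⟩, ⟨52, 13, 13, 2, 11⟩, ⟨100, 25, 25, 2, 23⟩⟩ :=
  CoN.c 2 3 2 1 rfl rfl rfl rfl rfl CN1_c148 CN1_t143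

theorem CN1_t145 : CoN CNTab ⟨⟨1, 1, 8⟩, ⟨1, 2, 8⟩, ⟨3, 3, 16⟩, ⟨1, 0, 0, 0,
  0⟩, ⟨40, 10, 4, 0, 7⟩, ⟨52, 13, 13, 2, 11⟩, ⟨4, 1, 1, 0, 1⟩⟩ :=
  CoN.c 2 3 1 12 rfl rfl rfl rfl rfl CN1_t144 CN1_c153

theorem CN1_t146 : CoN CNTab ⟨⟨1, 1, 8⟩, ⟨1, 2, 8⟩, ⟨3, 3, 16⟩, ⟨1, 0, 0, 0,
  0⟩, ⟨8, 2, 0, 0, 1⟩, ⟨52, 13, 13, 2, 11⟩, ⟨4, 1, 1, 0, 1⟩⟩ :=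
  CoN.c 1 3 3 4 rfl rfl rfl rfl rfl CN1_c147 CN1_t145

theorem CN1_t147 : CoN CNTab ⟨⟨1, 1, 8⟩, ⟨1, 2, 8⟩, ⟨3, 3, 16⟩, ⟨1, 0, 0, 0,
  0⟩, ⟨8, 2, 0, 0, 1⟩, ⟨28, 7, 7, 2, 5⟩, ⟨4, 1, 1, 0, 1⟩⟩ :=
  CoN.c 2 3 1 6 rfl rfl rfl rfl rfl CN1_c146 CN1_t146

theorem CN1_t148 : CoN CNTab ⟨⟨1, 1, 8⟩, ⟨1, 2, 8⟩, ⟨3, 3, 16⟩, ⟨1, 0, 0, 0,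
  0⟩, ⟨8, 2, 0, 0, 1⟩, ⟨8, 2, 2, 1, 1⟩, ⟨4, 1, 1, 0, 1⟩⟩ :=
  CoN.c 2 3 2 3 rfl rfl rfl rfl rfl CN1_c145 CN1_t147

theorem CN1_t149 : CoN CNTab ⟨⟨1, 1, 8⟩, ⟨1, 2, 8⟩, ⟨3, 3, 16⟩, ⟨1, 0, 0, 0,
  0⟩, ⟨8, 2, 0, 0, 1⟩, ⟨4, 1, 1, 1, 0⟩, ⟨4, 1, 1, 0, 1⟩⟩ :=
  CoN.c 2 3 1 1 rfl rfl rfl rfl rfl CN1_c144 CN1_t148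

theorem CN1_t150 : CoN CNTab ⟨⟨1, 1, 8⟩, ⟨1, 2, 8⟩, ⟨1, 1, 4⟩, ⟨1, 0, 0, 0,
  0⟩, ⟨8, 2, 0, 0, 1⟩, ⟨4, 1, 1, 1, 0⟩, ⟨4, 1, 1, 0, 1⟩⟩ :=
  CoN.b 2 2 1 rfl rfl rfl CN1_t140 CN1_t149

theorem CN1_t151 : CoN CNTab ⟨⟨1, 1, 8⟩, ⟨0, 1, 4⟩, ⟨1, 1, 4⟩, ⟨1, 0, 0, 0,
  0⟩, ⟨8, 2, 0, 0, 1⟩, ⟨4, 1, 1, 1, 0⟩, ⟨4, 1, 1, 0, 1⟩⟩ :=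
  CoN.b 1 1 1 rfl rfl rfl CN1_t132 CN1_t150

theorem CN1_t152 : CoN CNTab ⟨⟨1, 1, 16⟩, ⟨0, 1, 8⟩, ⟨1, 1, 8⟩, ⟨1, 0, 0, 0,
  0⟩, ⟨40, 10, 4, 0, 7⟩, ⟨52, 13, 13, 2, 11⟩, ⟨4, 1, 1, 0, 1⟩⟩ :=
  CoN.c 2 3 1 12 rfl rfl rfl rfl rfl CN1_c158 CN1_c159

theorem CN1_t153 : CoN CNTab ⟨⟨1, 1, 16⟩, ⟨0, 1, 8⟩, ⟨1, 1, 8⟩, ⟨1, 0, 0, 0,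
  0⟩, ⟨8, 2, 0, 0, 1⟩, ⟨52, 13, 13, 2, 11⟩, ⟨4, 1, 1, 0, 1⟩⟩ :=
  CoN.c 1 3 3 4 rfl rfl rfl rfl rfl CN1_c157 CN1_t152

theorem CN1_t154 : CoN CNTab ⟨⟨1, 1, 16⟩, ⟨0, 1, 8⟩, ⟨1, 1, 8⟩, ⟨1, 0, 0, 0,
  0⟩, ⟨8, 2, 0, 0, 1⟩, ⟨28, 7, 7, 2, 5⟩, ⟨4, 1, 1, 0, 1⟩⟩ :=
  CoN.c 2 3 1 6 rfl rfl rfl rfl rfl CN1_c156 CN1_t153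

theorem CN1_t155 : CoN CNTab ⟨⟨1, 1, 16⟩, ⟨0, 1, 8⟩, ⟨1, 1, 8⟩, ⟨1, 0, 0, 0,
  0⟩, ⟨8, 2, 0, 0, 1⟩, ⟨8, 2, 2, 1, 1⟩, ⟨4, 1, 1, 0, 1⟩⟩ :=
  CoN.c 2 3 2 3 rfl rfl rfl rfl rfl CN1_c155 CN1_t154

theorem CN1_t156 : CoN CNTab ⟨⟨1, 1, 16⟩, ⟨0, 1, 8⟩, ⟨1, 1, 8⟩, ⟨1, 0, 0, 0,
  0⟩, ⟨8, 2, 0, 0, 1⟩, ⟨4, 1, 1, 1, 0⟩, ⟨4, 1, 1, 0, 1⟩⟩ :=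
  CoN.c 2 3 1 1 rfl rfl rfl rfl rfl CN1_c154 CN1_t155

theorem CN1_t157 : CoN CNTab ⟨⟨0, 0, 1⟩, ⟨0, 1, 8⟩, ⟨1, 1, 8⟩, ⟨1, 0, 0, 0,
  0⟩, ⟨8, 2, 0, 0, 1⟩, ⟨4, 1, 1, 1, 0⟩, ⟨4, 1, 1, 0, 1⟩⟩ :=
  CoN.b 2 1 8 rfl rfl rfl CN1_t156 CN1_c160

theorem CN1_t158 : CoN CNTab ⟨⟨0, 1, 8⟩, ⟨1, 3, 16⟩, ⟨3, 5, 32⟩, ⟨1, 0, 0,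
  0, 0⟩, ⟨220, 55, 37, 2, 44⟩, ⟨204, 51, 51, 6, 45⟩, ⟨100, 25, 25, 2, 23⟩⟩
  :=
  CoN.c 1 2 1 1 rfl rfl rfl rfl rfl CN1_c168 CN1_c169

theorem CN1_t159 : CoN CNTab ⟨⟨0, 1, 8⟩, ⟨1, 3, 16⟩, ⟨3, 5, 32⟩, ⟨1, 0, 0,
  0, 0⟩, ⟨40, 10, 4, 0, 7⟩, ⟨204, 51, 51, 6, 45⟩, ⟨100, 25, 25, 2, 23⟩⟩ :=
  CoN.c 1 3 3 1 rfl rfl rfl rfl rfl CN1_c167 CN1_t158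

theorem CN1_t160 : CoN CNTab ⟨⟨0, 1, 8⟩, ⟨1, 3, 16⟩, ⟨3, 5, 32⟩, ⟨1, 0, 0,
  0, 0⟩, ⟨40, 10, 4, 0, 7⟩, ⟨52, 13, 13, 2, 11⟩, ⟨100, 25, 25, 2, 23⟩⟩ :=
  CoN.c 2 3 2 1 rfl rfl rfl rfl rfl CN1_c166 CN1_t159

theorem CN1_t161 : CoN CNTab ⟨⟨0, 1, 8⟩, ⟨1, 3, 16⟩, ⟨1, 1, 8⟩, ⟨1, 0, 0, 0,
  0⟩, ⟨40, 10, 4, 0, 7⟩, ⟨52, 13, 13, 2, 11⟩, ⟨100, 25, 25, 2, 23⟩⟩ :=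
  CoN.b 1 1 2 rfl rfl rfl CN1_t160 CN1_c170

theorem CN1_t162 : CoN CNTab ⟨⟨0, 1, 8⟩, ⟨1, 3, 16⟩, ⟨1, 1, 8⟩, ⟨1, 0, 0, 0,
  0⟩, ⟨40, 10, 4, 0, 7⟩, ⟨52, 13, 13, 2, 11⟩, ⟨4, 1, 1, 0, 1⟩⟩ :=
  CoN.c 2 3 1 12 rfl rfl rfl rfl rfl CN1_t161 CN1_c171

theorem CN1_t163 : CoN CNTab ⟨⟨0, 1, 8⟩, ⟨1, 3, 16⟩, ⟨1, 1, 8⟩, ⟨1, 0, 0, 0,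
  0⟩, ⟨8, 2, 0, 0, 1⟩, ⟨52, 13, 13, 2, 11⟩, ⟨4, 1, 1, 0, 1⟩⟩ :=
  CoN.c 1 3 3 4 rfl rfl rfl rfl rfl CN1_c165 CN1_t162

theorem CN1_t164 : CoN CNTab ⟨⟨0, 1, 8⟩, ⟨1, 3, 16⟩, ⟨1, 1, 8⟩, ⟨1, 0, 0, 0,
  0⟩, ⟨8, 2, 0, 0, 1⟩, ⟨28, 7, 7, 2, 5⟩, ⟨4, 1, 1, 0, 1⟩⟩ :=
  CoN.c 2 3 1 6 rfl rfl rfl rfl rfl CN1_c164 CN1_t163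

theorem CN1_t165 : CoN CNTab ⟨⟨0, 1, 8⟩, ⟨1, 3, 16⟩, ⟨1, 1, 8⟩, ⟨1, 0, 0, 0,
  0⟩, ⟨8, 2, 0, 0, 1⟩, ⟨8, 2, 2, 1, 1⟩, ⟨4, 1, 1, 0, 1⟩⟩ :=
  CoN.c 2 3 2 3 rfl rfl rfl rfl rfl CN1_c163 CN1_t164

theorem CN1_t166 : CoN CNTab ⟨⟨0, 1, 8⟩, ⟨1, 3, 16⟩, ⟨1, 1, 8⟩, ⟨1, 0, 0, 0,
  0⟩, ⟨8, 2, 0, 0, 1⟩, ⟨4, 1, 1, 1, 0⟩, ⟨4, 1, 1, 0, 1⟩⟩ :=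
  CoN.c 2 3 1 1 rfl rfl rfl rfl rfl CN1_c162 CN1_t165

theorem CN1_t167 : CoN CNTab ⟨⟨0, 1, 8⟩, ⟨0, 1, 4⟩, ⟨1, 1, 8⟩, ⟨1, 0, 0, 0,
  0⟩, ⟨8, 2, 0, 0, 1⟩, ⟨4, 1, 1, 1, 0⟩, ⟨4, 1, 1, 0, 1⟩⟩ :=
  CoN.b 1 2 1 rfl rfl rfl CN1_c161 CN1_t166

theorem CN1_t168 : CoN CNTab ⟨⟨0, 0, 1⟩, ⟨0, 1, 4⟩, ⟨1, 1, 8⟩, ⟨1, 0, 0, 0,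
  0⟩, ⟨8, 2, 0, 0, 1⟩, ⟨4, 1, 1, 1, 0⟩, ⟨4, 1, 1, 0, 1⟩⟩ :=
  CoN.b 0 4 1 rfl rfl rfl CN1_t157 CN1_t167

theorem CN1_t169 : CoN CNTab ⟨⟨0, 0, 1⟩, ⟨0, 1, 4⟩, ⟨1, 1, 4⟩, ⟨1, 0, 0, 0,
  0⟩, ⟨8, 2, 0, 0, 1⟩, ⟨4, 1, 1, 1, 0⟩, ⟨4, 1, 1, 0, 1⟩⟩ :=
  CoN.b 2 1 4 rfl rfl rfl CN1_t151 CN1_t168

theorem CN1_t170 : CoN CNTab ⟨⟨1, 2, 8⟩, ⟨3, 5, 16⟩, ⟨1, 1, 4⟩, ⟨1, 0, 0, 0,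
  0⟩, ⟨444, 111, 75, 6, 87⟩, ⟨204, 51, 51, 6, 45⟩, ⟨100, 25, 25, 2, 23⟩⟩ :=
  CoN.c 1 2 1 2 rfl rfl rfl rfl rfl CN1_c180 CN1_c181

theorem CN1_t171 : CoN CNTab ⟨⟨1, 2, 8⟩, ⟨3, 5, 16⟩, ⟨1, 1, 4⟩, ⟨1, 0, 0, 0,
  0⟩, ⟨40, 10, 4, 0, 7⟩, ⟨204, 51, 51, 6, 45⟩, ⟨100, 25, 25, 2, 23⟩⟩ :=
  CoN.c 1 2 6 1 rfl rfl rfl rfl rfl CN1_c179 CN1_t170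

theorem CN1_t172 : CoN CNTab ⟨⟨1, 2, 8⟩, ⟨3, 5, 16⟩, ⟨1, 1, 4⟩, ⟨1, 0, 0, 0,
  0⟩, ⟨40, 10, 4, 0, 7⟩, ⟨52, 13, 13, 2, 11⟩, ⟨100, 25, 25, 2, 23⟩⟩ :=
  CoN.c 2 3 2 1 rfl rfl rfl rfl rfl CN1_c178 CN1_t171

theorem CN1_t173 : CoN CNTab ⟨⟨1, 2, 8⟩, ⟨3, 5, 16⟩, ⟨1, 1, 4⟩, ⟨1, 0, 0, 0,
  0⟩, ⟨40, 10, 4, 0, 7⟩, ⟨52, 13, 13, 2, 11⟩, ⟨4, 1, 1, 0, 1⟩⟩ :=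
  CoN.c 2 3 1 12 rfl rfl rfl rfl rfl CN1_t172 CN1_c182

theorem CN1_t174 : CoN CNTab ⟨⟨1, 2, 8⟩, ⟨3, 5, 16⟩, ⟨1, 1, 4⟩, ⟨1, 0, 0, 0,
  0⟩, ⟨8, 2, 0, 0, 1⟩, ⟨52, 13, 13, 2, 11⟩, ⟨4, 1, 1, 0, 1⟩⟩ :=
  CoN.c 1 3 3 4 rfl rfl rfl rfl rfl CN1_c177 CN1_t173

theorem CN1_t175 : CoN CNTab ⟨⟨1, 2, 8⟩, ⟨3, 5, 16⟩, ⟨1, 1, 4⟩, ⟨1, 0, 0, 0,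
  0⟩, ⟨8, 2, 0, 0, 1⟩, ⟨28, 7, 7, 2, 5⟩, ⟨4, 1, 1, 0, 1⟩⟩ :=
  CoN.c 2 3 1 6 rfl rfl rfl rfl rfl CN1_c176 CN1_t174

theorem CN1_t176 : CoN CNTab ⟨⟨1, 2, 8⟩, ⟨3, 5, 16⟩, ⟨1, 1, 4⟩, ⟨1, 0, 0, 0,
  0⟩, ⟨8, 2, 0, 0, 1⟩, ⟨8, 2, 2, 1, 1⟩, ⟨4, 1, 1, 0, 1⟩⟩ :=
  CoN.c 2 3 2 3 rfl rfl rfl rfl rfl CN1_c175 CN1_t175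

theorem CN1_t177 : CoN CNTab ⟨⟨1, 2, 8⟩, ⟨3, 5, 16⟩, ⟨1, 1, 4⟩, ⟨1, 0, 0, 0,
  0⟩, ⟨8, 2, 0, 0, 1⟩, ⟨4, 1, 1, 1, 0⟩, ⟨4, 1, 1, 0, 1⟩⟩ :=
  CoN.c 2 3 1 1 rfl rfl rfl rfl rfl CN1_c174 CN1_t176

theorem CN1_t178 : CoN CNTab ⟨⟨1, 2, 8⟩, ⟨1, 3, 8⟩, ⟨1, 1, 4⟩, ⟨1, 0, 0, 0,
  0⟩, ⟨8, 2, 0, 0, 1⟩, ⟨4, 1, 1, 1, 0⟩, ⟨4, 1, 1, 0, 1⟩⟩ :=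
  CoN.b 1 1 2 rfl rfl rfl CN1_c173 CN1_t177

theorem CN1_t179 : CoN CNTab ⟨⟨0, 1, 4⟩, ⟨1, 3, 8⟩, ⟨1, 1, 4⟩, ⟨1, 0, 0, 0,
  0⟩, ⟨8, 2, 0, 0, 1⟩, ⟨4, 1, 1, 1, 0⟩, ⟨4, 1, 1, 0, 1⟩⟩ :=
  CoN.b 2 1 1 rfl rfl rfl CN1_t178 CN1_c183

theorem CN1_t180 : CoN CNTab ⟨⟨0, 1, 4⟩, ⟨0, 1, 2⟩, ⟨1, 1, 4⟩, ⟨1, 0, 0, 0,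
  0⟩, ⟨8, 2, 0, 0, 1⟩, ⟨4, 1, 1, 1, 0⟩, ⟨4, 1, 1, 0, 1⟩⟩ :=
  CoN.b 1 2 1 rfl rfl rfl CN1_c172 CN1_t179

theorem CN1_t181 : CoN CNTab ⟨⟨0, 0, 1⟩, ⟨0, 1, 2⟩, ⟨1, 1, 4⟩, ⟨1, 0, 0, 0,
  0⟩, ⟨8, 2, 0, 0, 1⟩, ⟨4, 1, 1, 1, 0⟩, ⟨4, 1, 1, 0, 1⟩⟩ :=
  CoN.b 0 2 1 rfl rfl rfl CN1_t169 CN1_t180

theorem CN1_t182 : CoN CNTab ⟨⟨0, 0, 1⟩, ⟨0, 1, 2⟩, ⟨1, 1, 2⟩, ⟨1, 0, 0, 0,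
  0⟩, ⟨8, 2, 0, 0, 1⟩, ⟨4, 1, 1, 1, 0⟩, ⟨4, 1, 1, 0, 1⟩⟩ :=
  CoN.b 2 1 2 rfl rfl rfl CN1_t124 CN1_t181

end Pool.Agent.TET.Cvr
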