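import Pool.Agent.Helper37_TET.CN2_000
import Pool.Agent.Helper37_TET.CN2_001

/-!
# MP_c7c9bf_co: cover of the charts, root 2, assembly 0
-/

set_option autoImplicit false
set_option maxRecDepth 100000

namespace Pool.Agent.TET.Cvr

theorem CN2_t0 : CoN CNTab ⟨⟨15, 15, 32⟩, ⟨15, 16, 32⟩, ⟨1, 1, 2⟩, ⟨1, 0, 0,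
  0, 0⟩, ⟨120, 0, 30, 9, 6⟩, ⟨16, 0, 4, 1, 1⟩, ⟨712, 16, 178, 55, 42⟩⟩ :=
  CoN.c 1 3 6 1 rfl rfl rfl rfl rfl CN2_c6 CN2_c7

theorem CN2_t1 : CoN CNTab ⟨⟨15, 15, 32⟩, ⟨7, 8, 16⟩, ⟨1, 1, 2⟩, ⟨1, 0, 0,
  0, 0⟩, ⟨120, 0, 30, 9, 6⟩, ⟨16, 0, 4, 1, 1⟩, ⟨712, 16, 178, 55, 42⟩⟩ :=
  CoN.b 1 1 8 rfl rfl rfl CN2_c5 CN2_t0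

theorem CN2_t2 : CoN CNTab ⟨⟨7, 7, 16⟩, ⟨7, 8, 16⟩, ⟨1, 1, 2⟩, ⟨1, 0, 0, 0,
  0⟩, ⟨120, 0, 30, 9, 6⟩, ⟨16, 0, 4, 1, 1⟩, ⟨712, 16, 178, 55, 42⟩⟩ :=
  CoN.b 2 8 1 rfl rfl rfl CN2_t1 CN2_c8

theorem CN2_t3 : CoN CNTab ⟨⟨7, 7, 16⟩, ⟨7, 8, 16⟩, ⟨1, 1, 2⟩, ⟨1, 0, 0, 0,
  0⟩, ⟨56, 0, 14, 5, 2⟩, ⟨16, 0, 4, 1, 1⟩, ⟨712, 16, 178, 55, 42⟩⟩ :=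
  CoN.c 1 2 1 4 rfl rfl rfl rfl rfl CN2_c4 CN2_t2

theorem CN2_t4 : CoN CNTab ⟨⟨7, 7, 16⟩, ⟨7, 8, 16⟩, ⟨1, 1, 2⟩, ⟨1, 0, 0, 0,
  0⟩, ⟨56, 0, 14, 5, 2⟩, ⟨16, 0, 4, 1, 1⟩, ⟨328, 16, 82, 31, 18⟩⟩ :=
  CoN.c 2 3 24 1 rfl rfl rfl rfl rfl CN2_t3 CN2_c9

theorem CN2_t5 : CoN CNTab ⟨⟨7, 7, 16⟩, ⟨3, 4, 8⟩, ⟨1, 1, 2⟩, ⟨1, 0, 0, 0,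
  0⟩, ⟨56, 0, 14, 5, 2⟩, ⟨16, 0, 4, 1, 1⟩, ⟨328, 16, 82, 31, 18⟩⟩ :=
  CoN.b 1 1 4 rfl rfl rfl CN2_c3 CN2_t4

theorem CN2_t6 : CoN CNTab ⟨⟨7, 7, 16⟩, ⟨3, 4, 8⟩, ⟨1, 1, 2⟩, ⟨1, 0, 0, 0,
  0⟩, ⟨56, 0, 14, 5, 2⟩, ⟨16, 0, 4, 1, 1⟩, ⟨40, 4, 10, 4, 3⟩⟩ :=
  CoN.c 1 3 3 4 rfl rfl rfl rfl rfl CN2_t5 CN2_c10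

theorem CN2_t7 : CoN CNTab ⟨⟨7, 7, 16⟩, ⟨3, 4, 8⟩, ⟨1, 1, 2⟩, ⟨1, 0, 0, 0,
  0⟩, ⟨8, 0, 2, 1, 0⟩, ⟨16, 0, 4, 1, 1⟩, ⟨40, 4, 10, 4, 3⟩⟩ :=
  CoN.c 1 2 3 2 rfl rfl rfl rfl rfl CN2_c2 CN2_t6

theorem CN2_t8 : CoN CNTab ⟨⟨31, 31, 64⟩, ⟨31, 32, 64⟩, ⟨1, 1, 2⟩, ⟨1, 0, 0,
  0, 0⟩, ⟨16, 0, 4, 1, 1⟩, ⟨1432, 16, 358, 82, 105⟩, ⟨1440, 16, 360, 87,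
  101⟩⟩ :=
  CoN.c 1 3 94 1 rfl rfl rfl rfl rfl CN2_c15 CN2_c16

theorem CN2_t9 : CoN CNTab ⟨⟨31, 31, 64⟩, ⟨31, 32, 64⟩, ⟨1, 1, 2⟩, ⟨1, 0, 0,
  0, 0⟩, ⟨16, 0, 4, 1, 1⟩, ⟨1432, 16, 358, 82, 105⟩, ⟨688, 16, 172, 40, 54⟩⟩
  :=
  CoN.c 1 3 47 1 rfl rfl rfl rfl rfl CN2_t8 CN2_c17

theorem CN2_t10 : CoN CNTab ⟨⟨31, 31, 64⟩, ⟨31, 32, 64⟩, ⟨1, 1, 2⟩, ⟨1, 0,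
  0, 0, 0⟩, ⟨16, 0, 4, 1, 1⟩, ⟨248, 0, 62, 14, 17⟩, ⟨688, 16, 172, 40, 54⟩⟩
  :=
  CoN.c 2 3 3 1 rfl rfl rfl rfl rfl CN2_c14 CN2_t9

theorem CN2_t11 : CoN CNTab ⟨⟨15, 15, 32⟩, ⟨31, 32, 64⟩, ⟨1, 1, 2⟩, ⟨1, 0,
  0, 0, 0⟩, ⟨16, 0, 4, 1, 1⟩, ⟨248, 0, 62, 14, 17⟩, ⟨688, 16, 172, 40, 54⟩⟩
  :=
  CoN.b 2 16 1 rfl rfl rfl CN2_t10 CN2_c18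

theorem CN2_t12 : CoN CNTab ⟨⟨15, 15, 32⟩, ⟨15, 16, 32⟩, ⟨1, 1, 2⟩, ⟨1, 0,
  0, 0, 0⟩, ⟨16, 0, 4, 1, 1⟩, ⟨248, 0, 62, 14, 17⟩, ⟨688, 16, 172, 40, 54⟩⟩
  :=
  CoN.b 1 1 16 rfl rfl rfl CN2_c13 CN2_t11

theorem CN2_t13 : CoN CNTab ⟨⟨15, 15, 32⟩, ⟨15, 16, 32⟩, ⟨1, 1, 2⟩, ⟨1, 0,
  0, 0, 0⟩, ⟨16, 0, 4, 1, 1⟩, ⟨120, 0, 30, 6, 9⟩, ⟨688, 16, 172, 40, 54⟩⟩ :=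
  CoN.c 1 2 8 1 rfl rfl rfl rfl rfl CN2_t12 CN2_c19

theorem CN2_t14 : CoN CNTab ⟨⟨7, 7, 16⟩, ⟨15, 16, 32⟩, ⟨1, 1, 2⟩, ⟨1, 0, 0,
  0, 0⟩, ⟨16, 0, 4, 1, 1⟩, ⟨120, 0, 30, 6, 9⟩, ⟨688, 16, 172, 40, 54⟩⟩ :=
  CoN.b 2 8 1 rfl rfl rfl CN2_t13 CN2_c20

theorem CN2_t15 : CoN CNTab ⟨⟨7, 7, 16⟩, ⟨7, 8, 16⟩, ⟨1, 1, 2⟩, ⟨1, 0, 0, 0,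
  0⟩, ⟨16, 0, 4, 1, 1⟩, ⟨120, 0, 30, 6, 9⟩, ⟨688, 16, 172, 40, 54⟩⟩ :=
  CoN.b 1 1 8 rfl rfl rfl CN2_c12 CN2_t14

theorem CN2_t16 : CoN CNTab ⟨⟨7, 7, 16⟩, ⟨7, 8, 16⟩, ⟨1, 1, 2⟩, ⟨1, 0, 0, 0,
  0⟩, ⟨16, 0, 4, 1, 1⟩, ⟨120, 0, 30, 6, 9⟩, ⟨328, 16, 82, 22, 27⟩⟩ :=
  CoN.c 2 3 3 1 rfl rfl rfl rfl rfl CN2_t15 CN2_c21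

theorem CN2_t17 : CoN CNTab ⟨⟨7, 7, 16⟩, ⟨7, 8, 16⟩, ⟨1, 1, 2⟩, ⟨1, 0, 0, 0,
  0⟩, ⟨16, 0, 4, 1, 1⟩, ⟨56, 0, 14, 2, 5⟩, ⟨328, 16, 82, 22, 27⟩⟩ :=
  CoN.c 1 2 4 1 rfl rfl rfl rfl rfl CN2_t16 CN2_c22

theorem CN2_t18 : CoN CNTab ⟨⟨31, 31, 64⟩, ⟨31, 32, 64⟩, ⟨1, 1, 2⟩, ⟨676, 4,
  22, 7, 6⟩, ⟨696, 16, 174, 45, 50⟩, ⟨2420, 24, 126, 36, 39⟩, ⟨284, 4, 22,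
  7, 6⟩⟩ :=
  CoN.c 0 1 2 1 rfl rfl rfl rfl rfl CN2_c27 CN2_c28

theorem CN2_t19 : CoN CNTab ⟨⟨15, 15, 32⟩, ⟨31, 32, 64⟩, ⟨1, 1, 2⟩, ⟨676, 4,
  22, 7, 6⟩, ⟨696, 16, 174, 45, 50⟩, ⟨2420, 24, 126, 36, 39⟩, ⟨284, 4, 22,
  7, 6⟩⟩ :=
  CoN.b 2 16 1 rfl rfl rfl CN2_t18 CN2_c29

theorem CN2_t20 : CoN CNTab ⟨⟨15, 15, 32⟩, ⟨15, 16, 32⟩, ⟨1, 1, 2⟩, ⟨676, 4,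
  22, 7, 6⟩, ⟨696, 16, 174, 45, 50⟩, ⟨2420, 24, 126, 36, 39⟩, ⟨284, 4, 22,
  7, 6⟩⟩ :=
  CoN.b 1 1 16 rfl rfl rfl CN2_c26 CN2_t19

theorem CN2_t21 : CoN CNTab ⟨⟨15, 15, 32⟩, ⟨15, 16, 32⟩, ⟨1, 1, 2⟩, ⟨676, 4,
  22, 7, 6⟩, ⟨696, 16, 174, 45, 50⟩, ⟨1068, 16, 82, 22, 27⟩, ⟨284, 4, 22, 7,
  6⟩⟩ :=
  CoN.c 0 2 2 1 rfl rfl rfl rfl rfl CN2_t20 CN2_c30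

theorem CN2_t22 : CoN CNTab ⟨⟨15, 15, 32⟩, ⟨15, 16, 32⟩, ⟨1, 1, 2⟩, ⟨1, 0,
  0, 0, 0⟩, ⟨696, 16, 174, 45, 50⟩, ⟨1068, 16, 82, 22, 27⟩, ⟨284, 4, 22, 7,
  6⟩⟩ :=
  CoN.c 0 3 392 1 rfl rfl rfl rfl rfl CN2_c25 CN2_t21

theorem CN2_t23 : CoN CNTab ⟨⟨15, 15, 32⟩, ⟨15, 16, 32⟩, ⟨1, 1, 2⟩, ⟨1, 0,
  0, 0, 0⟩, ⟨696, 16, 174, 45, 50⟩, ⟨1068, 16, 82, 22, 27⟩, ⟨88, 4, 22, 7,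
  6⟩⟩ :=
  CoN.c 0 3 196 1 rfl rfl rfl rfl rfl CN2_t22 CN2_c31

theorem CN2_t24 : CoN CNTab ⟨⟨15, 15, 32⟩, ⟨15, 16, 32⟩, ⟨1, 1, 2⟩, ⟨1, 0,
  0, 0, 0⟩, ⟨696, 16, 174, 45, 50⟩, ⟨328, 16, 82, 22, 27⟩, ⟨88, 4, 22, 7,
  6⟩⟩ :=
  CoN.c 0 2 740 1 rfl rfl rfl rfl rfl CN2_t23 CN2_c32

theorem CN2_t25 : CoN CNTab ⟨⟨15, 15, 32⟩, ⟨7, 8, 16⟩, ⟨1, 1, 2⟩, ⟨1, 0, 0,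
  0, 0⟩, ⟨696, 16, 174, 45, 50⟩, ⟨328, 16, 82, 22, 27⟩, ⟨88, 4, 22, 7, 6⟩⟩
  :=
  CoN.b 1 1 8 rfl rfl rfl CN2_c24 CN2_t24

theorem CN2_t26 : CoN CNTab ⟨⟨15, 15, 32⟩, ⟨7, 8, 16⟩, ⟨1, 1, 2⟩, ⟨1, 0, 0,
  0, 0⟩, ⟨16, 0, 4, 1, 1⟩, ⟨328, 16, 82, 22, 27⟩, ⟨88, 4, 22, 7, 6⟩⟩ :=
  CoN.c 1 2 23 1 rfl rfl rfl rfl rfl CN2_c23 CN2_t25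

theorem CN2_t27 : CoN CNTab ⟨⟨7, 7, 16⟩, ⟨7, 8, 16⟩, ⟨1, 1, 2⟩, ⟨1, 0, 0, 0,
  0⟩, ⟨16, 0, 4, 1, 1⟩, ⟨328, 16, 82, 22, 27⟩, ⟨88, 4, 22, 7, 6⟩⟩ :=
  CoN.b 2 8 1 rfl rfl rfl CN2_t26 CN2_c33

theorem CN2_t28 : CoN CNTab ⟨⟨7, 7, 16⟩, ⟨7, 8, 16⟩, ⟨1, 1, 2⟩, ⟨1, 0, 0, 0,
  0⟩, ⟨16, 0, 4, 1, 1⟩, ⟨328, 16, 82, 22, 27⟩, ⟨40, 4, 10, 4, 3⟩⟩ :=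
  CoN.c 1 3 3 1 rfl rfl rfl rfl rfl CN2_t27 CN2_c34

theorem CN2_t29 : CoN CNTab ⟨⟨7, 7, 16⟩, ⟨7, 8, 16⟩, ⟨1, 1, 2⟩, ⟨1, 0, 0, 0,
  0⟩, ⟨16, 0, 4, 1, 1⟩, ⟨56, 0, 14, 2, 5⟩, ⟨40, 4, 10, 4, 3⟩⟩ :=
  CoN.c 2 3 3 4 rfl rfl rfl rfl rfl CN2_t17 CN2_t28

theorem CN2_t30 : CoN CNTab ⟨⟨7, 7, 16⟩, ⟨3, 4, 8⟩, ⟨1, 1, 2⟩, ⟨1, 0, 0, 0,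
  0⟩, ⟨16, 0, 4, 1, 1⟩, ⟨56, 0, 14, 2, 5⟩, ⟨40, 4, 10, 4, 3⟩⟩ :=
  CoN.b 1 1 4 rfl rfl rfl CN2_c11 CN2_t29

theorem CN2_t31 : CoN CNTab ⟨⟨7, 7, 16⟩, ⟨3, 4, 8⟩, ⟨1, 1, 2⟩, ⟨1, 0, 0, 0,
  0⟩, ⟨16, 0, 4, 1, 1⟩, ⟨8, 0, 2, 0, 1⟩, ⟨40, 4, 10, 4, 3⟩⟩ :=
  CoN.c 1 2 2 3 rfl rfl rfl rfl rfl CN2_t30 CN2_c35

theorem CN2_t32 : CoN CNTab ⟨⟨7, 7, 16⟩, ⟨3, 4, 8⟩, ⟨1, 1, 2⟩, ⟨1, 0, 0, 0,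
  0⟩, ⟨8, 0, 2, 1, 0⟩, ⟨8, 0, 2, 0, 1⟩, ⟨40, 4, 10, 4, 3⟩⟩ :=
  CoN.c 1 2 1 1 rfl rfl rfl rfl rfl CN2_t7 CN2_t31

theorem CN2_t33 : CoN CNTab ⟨⟨15, 15, 32⟩, ⟨27, 31, 64⟩, ⟨31, 31, 64⟩, ⟨1,
  0, 0, 0, 0⟩, ⟨164, 4, 10, 7, 0⟩, ⟨500, 22, 28, 22, 3⟩, ⟨208, 46, 52, 46,
  3⟩⟩ :=
  CoN.b 0 2 1 rfl rfl rfl CN2_c40 CN2_c41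

theorem CN2_t34 : CoN CNTab ⟨⟨15, 15, 32⟩, ⟨27, 31, 64⟩, ⟨31, 31, 64⟩, ⟨1,
  0, 0, 0, 0⟩, ⟨164, 4, 10, 7, 0⟩, ⟨112, 22, 28, 22, 3⟩, ⟨208, 46, 52, 46,
  3⟩⟩ :=
  CoN.c 0 2 388 1 rfl rfl rfl rfl rfl CN2_t33 CN2_c42

theorem CN2_t35 : CoN CNTab ⟨⟨15, 15, 32⟩, ⟨27, 31, 64⟩, ⟨31, 31, 64⟩, ⟨1,
  0, 0, 0, 0⟩, ⟨40, 4, 10, 7, 0⟩, ⟨112, 22, 28, 22, 3⟩, ⟨208, 46, 52, 46,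
  3⟩⟩ :=
  CoN.c 0 1 124 1 rfl rfl rfl rfl rfl CN2_t34 CN2_c43

theorem CN2_t36 : CoN CNTab ⟨⟨15, 15, 32⟩, ⟨27, 31, 64⟩, ⟨1, 1, 2⟩, ⟨1, 0,
  0, 0, 0⟩, ⟨40, 4, 10, 7, 0⟩, ⟨112, 22, 28, 22, 3⟩, ⟨208, 46, 52, 46, 3⟩⟩
  :=
  CoN.b 2 16 1 rfl rfl rfl CN2_c39 CN2_t35

theorem CN2_t37 : CoN CNTab ⟨⟨15, 15, 32⟩, ⟨3, 4, 8⟩, ⟨1, 1, 2⟩, ⟨1, 0, 0,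
  0, 0⟩, ⟨40, 4, 10, 7, 0⟩, ⟨112, 22, 28, 22, 3⟩, ⟨208, 46, 52, 46, 3⟩⟩ :=
  CoN.b 0 1 4 rfl rfl rfl CN2_t36 CN2_c44

theorem CN2_t38 : CoN CNTab ⟨⟨7, 7, 16⟩, ⟨3, 4, 8⟩, ⟨1, 1, 2⟩, ⟨1, 0, 0, 0,
  0⟩, ⟨40, 4, 10, 7, 0⟩, ⟨112, 22, 28, 22, 3⟩, ⟨208, 46, 52, 46, 3⟩⟩ :=
  CoN.b 2 8 1 rfl rfl rfl CN2_t37 CN2_c45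

theorem CN2_t39 : CoN CNTab ⟨⟨7, 7, 16⟩, ⟨3, 4, 8⟩, ⟨1, 1, 2⟩, ⟨1, 0, 0, 0,
  0⟩, ⟨40, 4, 10, 7, 0⟩, ⟨112, 22, 28, 22, 3⟩, ⟨4, 1, 1, 1, 0⟩⟩ :=
  CoN.c 2 3 1 24 rfl rfl rfl rfl rfl CN2_t38 CN2_c46

theorem CN2_t40 : CoN CNTab ⟨⟨7, 7, 16⟩, ⟨3, 4, 8⟩, ⟨1, 1, 2⟩, ⟨1, 0, 0, 0,
  0⟩, ⟨8, 0, 2, 1, 0⟩, ⟨112, 22, 28, 22, 3⟩, ⟨4, 1, 1, 1, 0⟩⟩ :=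
  CoN.c 1 3 3 4 rfl rfl rfl rfl rfl CN2_c38 CN2_t39

theorem CN2_t41 : CoN CNTab ⟨⟨7, 7, 16⟩, ⟨3, 4, 8⟩, ⟨1, 1, 2⟩, ⟨1, 0, 0, 0,
  0⟩, ⟨8, 0, 2, 1, 0⟩, ⟨64, 10, 16, 10, 3⟩, ⟨4, 1, 1, 1, 0⟩⟩ :=
  CoN.c 2 3 1 12 rfl rfl rfl rfl rfl CN2_c37 CN2_t40

theorem CN2_t42 : CoN CNTab ⟨⟨7, 7, 16⟩, ⟨3, 4, 8⟩, ⟨1, 1, 2⟩, ⟨1, 0, 0, 0,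
  0⟩, ⟨8, 0, 2, 1, 0⟩, ⟨40, 4, 10, 4, 3⟩, ⟨4, 1, 1, 1, 0⟩⟩ :=
  CoN.c 2 3 1 6 rfl rfl rfl rfl rfl CN2_c36 CN2_t41

theorem CN2_t43 : CoN CNTab ⟨⟨7, 7, 16⟩, ⟨3, 4, 8⟩, ⟨1, 1, 2⟩, ⟨1, 0, 0, 0,
  0⟩, ⟨8, 0, 2, 1, 0⟩, ⟨8, 0, 2, 0, 1⟩, ⟨4, 1, 1, 1, 0⟩⟩ :=
  CoN.c 2 3 3 4 rfl rfl rfl rfl rfl CN2_t32 CN2_t42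

theorem CN2_t44 : CoN CNTab ⟨⟨3, 3, 8⟩, ⟨3, 4, 8⟩, ⟨1, 1, 2⟩, ⟨1, 0, 0, 0,
  0⟩, ⟨8, 0, 2, 1, 0⟩, ⟨8, 0, 2, 0, 1⟩, ⟨4, 1, 1, 1, 0⟩⟩ :=
  CoN.b 2 4 1 rfl rfl rfl CN2_t43 CN2_c47

theorem CN2_t45 : CoN CNTab ⟨⟨3, 3, 8⟩, ⟨1, 2, 4⟩, ⟨1, 1, 2⟩, ⟨1, 0, 0, 0,
  0⟩, ⟨8, 0, 2, 1, 0⟩, ⟨8, 0, 2, 0, 1⟩, ⟨4, 1, 1, 1, 0⟩⟩ :=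
  CoN.b 1 1 2 rfl rfl rfl CN2_c1 CN2_t44

theorem CN2_t46 : CoN CNTab ⟨⟨1, 1, 4⟩, ⟨1, 2, 4⟩, ⟨1, 1, 2⟩, ⟨1, 0, 0, 0,
  0⟩, ⟨8, 0, 2, 1, 0⟩, ⟨8, 0, 2, 0, 1⟩, ⟨4, 1, 1, 1, 0⟩⟩ :=
  CoN.b 2 2 1 rfl rfl rfl CN2_t45 CN2_c48

theorem CN2_t47 : CoN CNTab ⟨⟨1, 1, 4⟩, ⟨0, 1, 2⟩, ⟨1, 1, 2⟩, ⟨1, 0, 0, 0,
  0⟩, ⟨8, 0, 2, 1, 0⟩, ⟨8, 0, 2, 0, 1⟩, ⟨4, 1, 1, 1, 0⟩⟩ :=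
  CoN.b 1 1 1 rfl rfl rfl CN2_c0 CN2_t46

theorem CN2_t48 : CoN CNTab ⟨⟨1, 1, 16⟩, ⟨0, 1, 8⟩, ⟨1, 1, 8⟩, ⟨1, 0, 0, 0,
  0⟩, ⟨72, 12, 18, 15, 0⟩, ⟨208, 46, 52, 46, 3⟩, ⟨4, 1, 1, 1, 0⟩⟩ :=
  CoN.c 1 2 3 1 rfl rfl rfl rfl rfl CN2_c56 CN2_c57

theorem CN2_t49 : CoN CNTab ⟨⟨1, 1, 16⟩, ⟨0, 1, 8⟩, ⟨1, 1, 8⟩, ⟨1, 0, 0, 0,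
  0⟩, ⟨40, 4, 10, 7, 0⟩, ⟨208, 46, 52, 46, 3⟩, ⟨4, 1, 1, 1, 0⟩⟩ :=
  CoN.c 1 3 1 8 rfl rfl rfl rfl rfl CN2_c55 CN2_t48

theorem CN2_t50 : CoN CNTab ⟨⟨1, 1, 16⟩, ⟨0, 1, 8⟩, ⟨1, 1, 8⟩, ⟨1, 0, 0, 0,
  0⟩, ⟨40, 4, 10, 7, 0⟩, ⟨112, 22, 28, 22, 3⟩, ⟨4, 1, 1, 1, 0⟩⟩ :=
  CoN.c 2 3 1 24 rfl rfl rfl rfl rfl CN2_c54 CN2_t49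

theorem CN2_t51 : CoN CNTab ⟨⟨1, 1, 16⟩, ⟨0, 1, 8⟩, ⟨1, 1, 8⟩, ⟨1, 0, 0, 0,
  0⟩, ⟨40, 4, 10, 7, 0⟩, ⟨64, 10, 16, 10, 3⟩, ⟨4, 1, 1, 1, 0⟩⟩ :=
  CoN.c 2 3 1 12 rfl rfl rfl rfl rfl CN2_c53 CN2_t50

theorem CN2_t52 : CoN CNTab ⟨⟨1, 1, 16⟩, ⟨0, 1, 8⟩, ⟨1, 1, 8⟩, ⟨1, 0, 0, 0,
  0⟩, ⟨8, 0, 2, 1, 0⟩, ⟨64, 10, 16, 10, 3⟩, ⟨4, 1, 1, 1, 0⟩⟩ :=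
  CoN.c 1 3 3 4 rfl rfl rfl rfl rfl CN2_c52 CN2_t51

theorem CN2_t53 : CoN CNTab ⟨⟨1, 1, 16⟩, ⟨0, 1, 8⟩, ⟨1, 1, 8⟩, ⟨1, 0, 0, 0,
  0⟩, ⟨8, 0, 2, 1, 0⟩, ⟨40, 4, 10, 4, 3⟩, ⟨4, 1, 1, 1, 0⟩⟩ :=
  CoN.c 2 3 1 6 rfl rfl rfl rfl rfl CN2_c51 CN2_t52

theorem CN2_t54 : CoN CNTab ⟨⟨1, 1, 16⟩, ⟨0, 1, 8⟩, ⟨1, 1, 8⟩, ⟨1, 0, 0, 0,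
  0⟩, ⟨8, 0, 2, 1, 0⟩, ⟨8, 0, 2, 0, 1⟩, ⟨4, 1, 1, 1, 0⟩⟩ :=
  CoN.c 2 3 3 4 rfl rfl rfl rfl rfl CN2_c50 CN2_t53

theorem CN2_t55 : CoN CNTab ⟨⟨0, 0, 1⟩, ⟨0, 1, 8⟩, ⟨1, 1, 8⟩, ⟨1, 0, 0, 0,
  0⟩, ⟨8, 0, 2, 1, 0⟩, ⟨8, 0, 2, 0, 1⟩, ⟨4, 1, 1, 1, 0⟩⟩ :=
  CoN.b 2 1 8 rfl rfl rfl CN2_t54 CN2_c58

theorem CN2_t56 : CoN CNTab ⟨⟨0, 0, 1⟩, ⟨0, 1, 4⟩, ⟨1, 1, 8⟩, ⟨1, 0, 0, 0,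
  0⟩, ⟨8, 0, 2, 1, 0⟩, ⟨8, 0, 2, 0, 1⟩, ⟨4, 1, 1, 1, 0⟩⟩ :=
  CoN.b 0 4 1 rfl rfl rfl CN2_t55 CN2_c59

theorem CN2_t57 : CoN CNTab ⟨⟨0, 0, 1⟩, ⟨0, 1, 4⟩, ⟨1, 1, 4⟩, ⟨1, 0, 0, 0,
  0⟩, ⟨8, 0, 2, 1, 0⟩, ⟨8, 0, 2, 0, 1⟩, ⟨4, 1, 1, 1, 0⟩⟩ :=
  CoN.b 2 1 4 rfl rfl rfl CN2_c49 CN2_t56

theorem CN2_t58 : CoN CNTab ⟨⟨0, 0, 1⟩, ⟨0, 1, 2⟩, ⟨1, 1, 4⟩, ⟨1, 0, 0, 0,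
  0⟩, ⟨8, 0, 2, 1, 0⟩, ⟨8, 0, 2, 0, 1⟩, ⟨4, 1, 1, 1, 0⟩⟩ :=
  CoN.b 0 2 1 rfl rfl rfl CN2_t57 CN2_c60

theorem CN2_t59 : CoN CNTab ⟨⟨0, 0, 1⟩, ⟨0, 1, 2⟩, ⟨1, 1, 2⟩, ⟨1, 0, 0, 0,
  0⟩, ⟨8, 0, 2, 1, 0⟩, ⟨8, 0, 2, 0, 1⟩, ⟨4, 1, 1, 1, 0⟩⟩ :=
  CoN.b 2 1 2 rfl rfl rfl CN2_t47 CN2_t58

end Pool.Agent.TET.Cvr
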