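import Pool.Agent.Helper37_TET.CN3_000
import Pool.Agent.Helper37_TET.CN3_001
import Pool.Agent.Helper37_TET.CN3_002
import Pool.Agent.Helper37_TET.CN3_003
import Pool.Agent.Helper37_TET.CN3_004

/-!
# MP_c7c9bf_co: cover of the charts, root 3, assembly 0
-/

set_option autoImplicit false
set_option maxRecDepth 100000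

namespace Pool.Agent.TET.Cvr

theorem CN3_t0 : CoN CNTab ⟨⟨1, 1, 4⟩, ⟨1, 3, 8⟩, ⟨1, 2, 4⟩, ⟨1, 0, 0, 0,
  0⟩, ⟨8, 0, 2, 0, 1⟩, ⟨4, 1, 1, 1, 0⟩, ⟨4, 1, 1, 0, 1⟩⟩ :=
  CoN.b 2 1 1 rfl rfl rfl CN3_c0 CN3_c1

theorem CN3_t1 : CoN CNTab ⟨⟨1, 1, 4⟩, ⟨0, 1, 2⟩, ⟨1, 2, 4⟩, ⟨1, 0, 0, 0,
  0⟩, ⟨8, 0, 2, 0, 1⟩, ⟨4, 1, 1, 1, 0⟩, ⟨4, 1, 1, 0, 1⟩⟩ :=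
  CoN.b 0 1 2 rfl rfl rfl CN3_t0 CN3_c2

theorem CN3_t2 : CoN CNTab ⟨⟨3, 3, 8⟩, ⟨5, 7, 16⟩, ⟨3, 4, 8⟩, ⟨1, 0, 0, 0,
  0⟩, ⟨8, 0, 2, 0, 1⟩, ⟨4, 1, 1, 1, 0⟩, ⟨4, 1, 1, 0, 1⟩⟩ :=
  CoN.c 2 3 1 1 rfl rfl rfl rfl rfl CN3_c3 CN3_c4

theorem CN3_t3 : CoN CNTab ⟨⟨3, 3, 8⟩, ⟨1, 2, 4⟩, ⟨3, 4, 8⟩, ⟨1, 0, 0, 0,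
  0⟩, ⟨8, 0, 2, 0, 1⟩, ⟨4, 1, 1, 1, 0⟩, ⟨4, 1, 1, 0, 1⟩⟩ :=
  CoN.b 0 1 2 rfl rfl rfl CN3_t2 CN3_c5

theorem CN3_t4 : CoN CNTab ⟨⟨7, 7, 16⟩, ⟨3, 4, 8⟩, ⟨1, 1, 2⟩, ⟨1, 0, 0, 0,
  0⟩, ⟨112, 22, 28, 22, 3⟩, ⟨4, 1, 1, 1, 0⟩, ⟨52, 13, 13, 11, 2⟩⟩ :=
  CoN.b 2 8 1 rfl rfl rfl CN3_c9 CN3_c10

theorem CN3_t5 : CoN CNTab ⟨⟨7, 7, 16⟩, ⟨3, 4, 8⟩, ⟨1, 1, 2⟩, ⟨1, 0, 0, 0,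
  0⟩, ⟨64, 10, 16, 10, 3⟩, ⟨4, 1, 1, 1, 0⟩, ⟨52, 13, 13, 11, 2⟩⟩ :=
  CoN.c 1 2 1 12 rfl rfl rfl rfl rfl CN3_c8 CN3_t4

theorem CN3_t6 : CoN CNTab ⟨⟨7, 7, 16⟩, ⟨3, 4, 8⟩, ⟨1, 1, 2⟩, ⟨1, 0, 0, 0,
  0⟩, ⟨64, 10, 16, 10, 3⟩, ⟨4, 1, 1, 1, 0⟩, ⟨28, 7, 7, 5, 2⟩⟩ :=
  CoN.c 2 3 6 1 rfl rfl rfl rfl rfl CN3_t5 CN3_c11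

theorem CN3_t7 : CoN CNTab ⟨⟨7, 7, 16⟩, ⟨3, 4, 8⟩, ⟨1, 1, 2⟩, ⟨1, 0, 0, 0,
  0⟩, ⟨40, 4, 10, 4, 3⟩, ⟨4, 1, 1, 1, 0⟩, ⟨28, 7, 7, 5, 2⟩⟩ :=
  CoN.c 1 2 1 6 rfl rfl rfl rfl rfl CN3_c7 CN3_t6

theorem CN3_t8 : CoN CNTab ⟨⟨7, 7, 16⟩, ⟨3, 4, 8⟩, ⟨1, 1, 2⟩, ⟨1, 0, 0, 0,
  0⟩, ⟨8, 0, 2, 0, 1⟩, ⟨4, 1, 1, 1, 0⟩, ⟨28, 7, 7, 5, 2⟩⟩ :=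
  CoN.c 1 2 3 4 rfl rfl rfl rfl rfl CN3_c6 CN3_t7

theorem CN3_t9 : CoN CNTab ⟨⟨7, 7, 16⟩, ⟨3, 4, 8⟩, ⟨1, 1, 2⟩, ⟨1, 0, 0, 0,
  0⟩, ⟨8, 0, 2, 0, 1⟩, ⟨4, 1, 1, 1, 0⟩, ⟨8, 2, 2, 1, 1⟩⟩ :=
  CoN.c 2 3 3 2 rfl rfl rfl rfl rfl CN3_t8 CN3_c12

theorem CN3_t10 : CoN CNTab ⟨⟨7, 7, 16⟩, ⟨3, 4, 8⟩, ⟨1, 1, 2⟩, ⟨1, 0, 0, 0,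
  0⟩, ⟨224, 38, 56, 4, 43⟩, ⟨52, 13, 13, 2, 11⟩, ⟨100, 25, 25, 2, 23⟩⟩ :=
  CoN.c 0 2 192 1 rfl rfl rfl rfl rfl CN3_c17 CN3_c18

theorem CN3_t11 : CoN CNTab ⟨⟨7, 7, 16⟩, ⟨3, 4, 8⟩, ⟨1, 1, 2⟩, ⟨1, 0, 0, 0,
  0⟩, ⟨224, 38, 56, 4, 43⟩, ⟨52, 13, 13, 2, 11⟩, ⟨4, 1, 1, 0, 1⟩⟩ :=
  CoN.c 2 3 1 12 rfl rfl rfl rfl rfl CN3_t10 CN3_c19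

theorem CN3_t12 : CoN CNTab ⟨⟨7, 7, 16⟩, ⟨3, 4, 8⟩, ⟨1, 1, 2⟩, ⟨1, 0, 0, 0,
  0⟩, ⟨40, 4, 10, 0, 7⟩, ⟨52, 13, 13, 2, 11⟩, ⟨4, 1, 1, 0, 1⟩⟩ :=
  CoN.c 1 2 3 2 rfl rfl rfl rfl rfl CN3_c16 CN3_t11

theorem CN3_t13 : CoN CNTab ⟨⟨7, 7, 16⟩, ⟨3, 4, 8⟩, ⟨1, 1, 2⟩, ⟨1, 0, 0, 0,
  0⟩, ⟨8, 0, 2, 0, 1⟩, ⟨52, 13, 13, 2, 11⟩, ⟨4, 1, 1, 0, 1⟩⟩ :=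
  CoN.c 1 3 3 4 rfl rfl rfl rfl rfl CN3_c15 CN3_t12

theorem CN3_t14 : CoN CNTab ⟨⟨7, 7, 16⟩, ⟨3, 4, 8⟩, ⟨1, 1, 2⟩, ⟨1, 0, 0, 0,
  0⟩, ⟨8, 0, 2, 0, 1⟩, ⟨28, 7, 7, 2, 5⟩, ⟨4, 1, 1, 0, 1⟩⟩ :=
  CoN.c 2 3 1 6 rfl rfl rfl rfl rfl CN3_c14 CN3_t13

theorem CN3_t15 : CoN CNTab ⟨⟨7, 7, 16⟩, ⟨3, 4, 8⟩, ⟨1, 1, 2⟩, ⟨1, 0, 0, 0,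
  0⟩, ⟨8, 0, 2, 0, 1⟩, ⟨8, 2, 2, 1, 1⟩, ⟨4, 1, 1, 0, 1⟩⟩ :=
  CoN.c 2 3 2 3 rfl rfl rfl rfl rfl CN3_c13 CN3_t14

theorem CN3_t16 : CoN CNTab ⟨⟨7, 7, 16⟩, ⟨3, 4, 8⟩, ⟨1, 1, 2⟩, ⟨1, 0, 0, 0,
  0⟩, ⟨8, 0, 2, 0, 1⟩, ⟨4, 1, 1, 1, 0⟩, ⟨4, 1, 1, 0, 1⟩⟩ :=
  CoN.c 2 3 1 1 rfl rfl rfl rfl rfl CN3_t9 CN3_t15

theorem CN3_t17 : CoN CNTab ⟨⟨27, 27, 64⟩, ⟨207, 209, 512⟩, ⟨7, 7, 16⟩,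
  ⟨14148, 3105, 3105, 282, 2823⟩, ⟨55756, 12355, 12643, 1166, 11333⟩,
  ⟨27276, 6291, 6291, 558, 5733⟩, ⟨26948, 6305, 6305, 538, 5767⟩⟩ :=
  CoN.b 1 1 32 rfl rfl rfl CN3_c36 CN3_c37

theorem CN3_t18 : CoN CNTab ⟨⟨27, 27, 64⟩, ⟨207, 209, 512⟩, ⟨7, 7, 16⟩,
  ⟨14148, 3105, 3105, 282, 2823⟩, ⟨1780, 379, 397, 38, 350⟩, ⟨27276, 6291,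
  6291, 558, 5733⟩, ⟨26948, 6305, 6305, 538, 5767⟩⟩ :=
  CoN.c 1 2 16 1 rfl rfl rfl rfl rfl CN3_c35 CN3_t17

theorem CN3_t19 : CoN CNTab ⟨⟨13, 13, 32⟩, ⟨207, 209, 512⟩, ⟨7, 7, 16⟩,
  ⟨14148, 3105, 3105, 282, 2823⟩, ⟨1780, 379, 397, 38, 350⟩, ⟨27276, 6291,
  6291, 558, 5733⟩, ⟨26948, 6305, 6305, 538, 5767⟩⟩ :=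
  CoN.b 2 2 1 rfl rfl rfl CN3_t18 CN3_c38

theorem CN3_t20 : CoN CNTab ⟨⟨13, 13, 32⟩, ⟨207, 209, 512⟩, ⟨7, 7, 16⟩,
  ⟨14148, 3105, 3105, 282, 2823⟩, ⟨1780, 379, 397, 38, 350⟩, ⟨6564, 1593,
  1593, 138, 1455⟩, ⟨26948, 6305, 6305, 538, 5767⟩⟩ :=
  CoN.c 0 2 1 2 rfl rfl rfl rfl rfl CN3_t19 CN3_c39

theorem CN3_t21 : CoN CNTab ⟨⟨13, 13, 32⟩, ⟨103, 105, 256⟩, ⟨7, 7, 16⟩,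
  ⟨14148, 3105, 3105, 282, 2823⟩, ⟨1780, 379, 397, 38, 350⟩, ⟨6564, 1593,
  1593, 138, 1455⟩, ⟨26948, 6305, 6305, 538, 5767⟩⟩ :=
  CoN.b 0 8 1 rfl rfl rfl CN3_t20 CN3_c40

theorem CN3_t22 : CoN CNTab ⟨⟨13, 13, 32⟩, ⟨103, 105, 256⟩, ⟨7, 7, 16⟩,
  ⟨14148, 3105, 3105, 282, 2823⟩, ⟨1780, 379, 397, 38, 350⟩, ⟨6564, 1593,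
  1593, 138, 1455⟩, ⟨100, 25, 25, 2, 23⟩⟩ :=
  CoN.c 0 3 1 128 rfl rfl rfl rfl rfl CN3_t21 CN3_c41

theorem CN3_t23 : CoN CNTab ⟨⟨13, 13, 32⟩, ⟨103, 105, 256⟩, ⟨7, 7, 16⟩,
  ⟨948, 189, 189, 18, 171⟩, ⟨1780, 379, 397, 38, 350⟩, ⟨6564, 1593, 1593,
  138, 1455⟩, ⟨100, 25, 25, 2, 23⟩⟩ :=
  CoN.c 0 2 8 1 rfl rfl rfl rfl rfl CN3_c34 CN3_t22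

theorem CN3_t24 : CoN CNTab ⟨⟨13, 13, 32⟩, ⟨51, 53, 128⟩, ⟨7, 7, 16⟩, ⟨948,
  189, 189, 18, 171⟩, ⟨1780, 379, 397, 38, 350⟩, ⟨6564, 1593, 1593, 138,
  1455⟩, ⟨100, 25, 25, 2, 23⟩⟩ :=
  CoN.b 0 4 1 rfl rfl rfl CN3_t23 CN3_c42

theorem CN3_t25 : CoN CNTab ⟨⟨13, 13, 32⟩, ⟨51, 53, 128⟩, ⟨7, 7, 16⟩, ⟨948,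
  189, 189, 18, 171⟩, ⟨1780, 379, 397, 38, 350⟩, ⟨3364, 793, 793, 74, 719⟩,
  ⟨100, 25, 25, 2, 23⟩⟩ :=
  CoN.c 2 3 1 32 rfl rfl rfl rfl rfl CN3_c33 CN3_t24

theorem CN3_t26 : CoN CNTab ⟨⟨13, 13, 32⟩, ⟨25, 27, 64⟩, ⟨7, 7, 16⟩, ⟨948,
  189, 189, 18, 171⟩, ⟨1780, 379, 397, 38, 350⟩, ⟨3364, 793, 793, 74, 719⟩,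
  ⟨100, 25, 25, 2, 23⟩⟩ :=
  CoN.b 0 2 1 rfl rfl rfl CN3_t25 CN3_c43

theorem CN3_t27 : CoN CNTab ⟨⟨13, 13, 32⟩, ⟨25, 27, 64⟩, ⟨7, 7, 16⟩, ⟨948,
  189, 189, 18, 171⟩, ⟨1780, 379, 397, 38, 350⟩, ⟨1764, 393, 393, 42, 351⟩,
  ⟨100, 25, 25, 2, 23⟩⟩ :=
  CoN.c 2 3 1 16 rfl rfl rfl rfl rfl CN3_c32 CN3_t26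

theorem CN3_t28 : CoN CNTab ⟨⟨13, 13, 32⟩, ⟨25, 27, 64⟩, ⟨7, 7, 16⟩, ⟨948,
  189, 189, 18, 171⟩, ⟨832, 190, 208, 20, 179⟩, ⟨1764, 393, 393, 42, 351⟩,
  ⟨100, 25, 25, 2, 23⟩⟩ :=
  CoN.c 0 1 1 1 rfl rfl rfl rfl rfl CN3_t27 CN3_c44

theorem CN3_t29 : CoN CNTab ⟨⟨13, 13, 32⟩, ⟨6, 7, 16⟩, ⟨7, 7, 16⟩, ⟨948,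
  189, 189, 18, 171⟩, ⟨832, 190, 208, 20, 179⟩, ⟨1764, 393, 393, 42, 351⟩,
  ⟨100, 25, 25, 2, 23⟩⟩ :=
  CoN.b 0 1 2 rfl rfl rfl CN3_t28 CN3_c45

theorem CN3_t30 : CoN CNTab ⟨⟨13, 13, 32⟩, ⟨6, 7, 16⟩, ⟨7, 7, 16⟩, ⟨948,
  189, 189, 18, 171⟩, ⟨832, 190, 208, 20, 179⟩, ⟨204, 51, 51, 6, 45⟩, ⟨100,
  25, 25, 2, 23⟩⟩ :=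
  CoN.c 0 2 1 4 rfl rfl rfl rfl rfl CN3_t29 CN3_c46

theorem CN3_t31 : CoN CNTab ⟨⟨13, 13, 32⟩, ⟨6, 7, 16⟩, ⟨7, 7, 16⟩, ⟨548, 89,
  89, 10, 79⟩, ⟨832, 190, 208, 20, 179⟩, ⟨204, 51, 51, 6, 45⟩, ⟨100, 25, 25,
  2, 23⟩⟩ :=
  CoN.c 0 3 1 4 rfl rfl rfl rfl rfl CN3_c31 CN3_t30

theorem CN3_t32 : CoN CNTab ⟨⟨13, 13, 32⟩, ⟨6, 7, 16⟩, ⟨7, 7, 16⟩, ⟨548, 89,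
  89, 10, 79⟩, ⟨424, 88, 106, 8, 89⟩, ⟨204, 51, 51, 6, 45⟩, ⟨100, 25, 25, 2,
  23⟩⟩ :=
  CoN.c 1 2 1 2 rfl rfl rfl rfl rfl CN3_c30 CN3_t31

theorem CN3_t33 : CoN CNTab ⟨⟨13, 13, 32⟩, ⟨6, 7, 16⟩, ⟨7, 7, 16⟩, ⟨548, 89,
  89, 10, 79⟩, ⟨224, 38, 56, 4, 43⟩, ⟨204, 51, 51, 6, 45⟩, ⟨100, 25, 25, 2,
  23⟩⟩ :=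
  CoN.c 1 3 1 2 rfl rfl rfl rfl rfl CN3_c29 CN3_t32

theorem CN3_t34 : CoN CNTab ⟨⟨13, 13, 32⟩, ⟨6, 7, 16⟩, ⟨7, 7, 16⟩, ⟨548, 89,
  89, 10, 79⟩, ⟨224, 38, 56, 4, 43⟩, ⟨52, 13, 13, 2, 11⟩, ⟨100, 25, 25, 2,
  23⟩⟩ :=
  CoN.c 2 3 2 1 rfl rfl rfl rfl rfl CN3_c28 CN3_t33

theorem CN3_t35 : CoN CNTab ⟨⟨13, 13, 32⟩, ⟨6, 7, 16⟩, ⟨7, 7, 16⟩, ⟨348, 39,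
  39, 6, 33⟩, ⟨224, 38, 56, 4, 43⟩, ⟨52, 13, 13, 2, 11⟩, ⟨100, 25, 25, 2,
  23⟩⟩ :=
  CoN.c 0 3 1 2 rfl rfl rfl rfl rfl CN3_c27 CN3_t34

theorem CN3_t36 : CoN CNTab ⟨⟨3, 3, 8⟩, ⟨6, 7, 16⟩, ⟨13, 13, 32⟩, ⟨348, 39,
  39, 6, 33⟩, ⟨224, 38, 56, 4, 43⟩, ⟨52, 13, 13, 2, 11⟩, ⟨100, 25, 25, 2,
  23⟩⟩ :=
  CoN.b 0 2 1 rfl rfl rfl CN3_c47 CN3_c48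

theorem CN3_t37 : CoN CNTab ⟨⟨3, 3, 8⟩, ⟨6, 7, 16⟩, ⟨7, 7, 16⟩, ⟨348, 39,
  39, 6, 33⟩, ⟨224, 38, 56, 4, 43⟩, ⟨52, 13, 13, 2, 11⟩, ⟨100, 25, 25, 2,
  23⟩⟩ :=
  CoN.b 2 1 2 rfl rfl rfl CN3_t35 CN3_t36

theorem CN3_t38 : CoN CNTab ⟨⟨3, 3, 8⟩, ⟨6, 7, 16⟩, ⟨7, 7, 16⟩, ⟨244, 13,
  13, 2, 11⟩, ⟨224, 38, 56, 4, 43⟩, ⟨52, 13, 13, 2, 11⟩, ⟨100, 25, 25, 2,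
  23⟩⟩ :=
  CoN.c 0 2 1 2 rfl rfl rfl rfl rfl CN3_c26 CN3_t37

theorem CN3_t39 : CoN CNTab ⟨⟨3, 3, 8⟩, ⟨3, 4, 8⟩, ⟨7, 7, 16⟩, ⟨244, 13, 13,
  2, 11⟩, ⟨224, 38, 56, 4, 43⟩, ⟨52, 13, 13, 2, 11⟩, ⟨100, 25, 25, 2, 23⟩⟩
  :=
  CoN.b 0 1 1 rfl rfl rfl CN3_t38 CN3_c49

theorem CN3_t40 : CoN CNTab ⟨⟨3, 3, 8⟩, ⟨3, 4, 8⟩, ⟨7, 7, 16⟩, ⟨1, 0, 0, 0,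
  0⟩, ⟨224, 38, 56, 4, 43⟩, ⟨52, 13, 13, 2, 11⟩, ⟨100, 25, 25, 2, 23⟩⟩ :=
  CoN.c 0 2 192 1 rfl rfl rfl rfl rfl CN3_c25 CN3_t39

theorem CN3_t41 : CoN CNTab ⟨⟨3, 3, 8⟩, ⟨3, 4, 8⟩, ⟨7, 7, 16⟩, ⟨1, 0, 0, 0,
  0⟩, ⟨224, 38, 56, 4, 43⟩, ⟨52, 13, 13, 2, 11⟩, ⟨4, 1, 1, 0, 1⟩⟩ :=
  CoN.c 2 3 1 12 rfl rfl rfl rfl rfl CN3_t40 CN3_c50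

theorem CN3_t42 : CoN CNTab ⟨⟨3, 3, 8⟩, ⟨3, 4, 8⟩, ⟨7, 7, 16⟩, ⟨1, 0, 0, 0,
  0⟩, ⟨40, 4, 10, 0, 7⟩, ⟨52, 13, 13, 2, 11⟩, ⟨4, 1, 1, 0, 1⟩⟩ :=
  CoN.c 1 2 3 2 rfl rfl rfl rfl rfl CN3_c24 CN3_t41

theorem CN3_t43 : CoN CNTab ⟨⟨3, 3, 8⟩, ⟨3, 4, 8⟩, ⟨7, 7, 16⟩, ⟨1, 0, 0, 0,
  0⟩, ⟨8, 0, 2, 0, 1⟩, ⟨52, 13, 13, 2, 11⟩, ⟨4, 1, 1, 0, 1⟩⟩ :=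
  CoN.c 1 3 3 4 rfl rfl rfl rfl rfl CN3_c23 CN3_t42

theorem CN3_t44 : CoN CNTab ⟨⟨3, 3, 8⟩, ⟨3, 4, 8⟩, ⟨7, 7, 16⟩, ⟨1, 0, 0, 0,
  0⟩, ⟨8, 0, 2, 0, 1⟩, ⟨28, 7, 7, 2, 5⟩, ⟨4, 1, 1, 0, 1⟩⟩ :=
  CoN.c 2 3 1 6 rfl rfl rfl rfl rfl CN3_c22 CN3_t43

theorem CN3_t45 : CoN CNTab ⟨⟨3, 3, 8⟩, ⟨3, 4, 8⟩, ⟨7, 7, 16⟩, ⟨1, 0, 0, 0,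
  0⟩, ⟨8, 0, 2, 0, 1⟩, ⟨8, 2, 2, 1, 1⟩, ⟨4, 1, 1, 0, 1⟩⟩ :=
  CoN.c 2 3 2 3 rfl rfl rfl rfl rfl CN3_c21 CN3_t44

theorem CN3_t46 : CoN CNTab ⟨⟨3, 3, 8⟩, ⟨3, 4, 8⟩, ⟨7, 7, 16⟩, ⟨1, 0, 0, 0,
  0⟩, ⟨8, 0, 2, 0, 1⟩, ⟨4, 1, 1, 1, 0⟩, ⟨4, 1, 1, 0, 1⟩⟩ :=
  CoN.c 2 3 1 1 rfl rfl rfl rfl rfl CN3_c20 CN3_t45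

theorem CN3_t47 : CoN CNTab ⟨⟨3, 3, 8⟩, ⟨3, 4, 8⟩, ⟨1, 1, 2⟩, ⟨1, 0, 0, 0,
  0⟩, ⟨8, 0, 2, 0, 1⟩, ⟨4, 1, 1, 1, 0⟩, ⟨4, 1, 1, 0, 1⟩⟩ :=
  CoN.b 2 4 1 rfl rfl rfl CN3_t16 CN3_t46

theorem CN3_t48 : CoN CNTab ⟨⟨3, 3, 8⟩, ⟨1, 2, 4⟩, ⟨1, 1, 2⟩, ⟨1, 0, 0, 0,
  0⟩, ⟨8, 0, 2, 0, 1⟩, ⟨4, 1, 1, 1, 0⟩, ⟨4, 1, 1, 0, 1⟩⟩ :=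
  CoN.b 1 1 2 rfl rfl rfl CN3_t3 CN3_t47

theorem CN3_t49 : CoN CNTab ⟨⟨5, 5, 16⟩, ⟨5, 6, 16⟩, ⟨3, 3, 8⟩, ⟨972, 51,
  51, 6, 45⟩, ⟨444, 75, 111, 6, 87⟩, ⟨412, 103, 103, 14, 89⟩, ⟨204, 51, 51,
  6, 45⟩⟩ :=
  CoN.c 0 2 1 1 rfl rfl rfl rfl rfl CN3_c59 CN3_c60

theorem CN3_t50 : CoN CNTab ⟨⟨5, 5, 16⟩, ⟨5, 6, 16⟩, ⟨3, 3, 8⟩, ⟨1, 0, 0, 0,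
  0⟩, ⟨444, 75, 111, 6, 87⟩, ⟨412, 103, 103, 14, 89⟩, ⟨204, 51, 51, 6, 45⟩⟩
  :=
  CoN.c 0 3 768 1 rfl rfl rfl rfl rfl CN3_c58 CN3_t49

theorem CN3_t51 : CoN CNTab ⟨⟨5, 5, 16⟩, ⟨2, 3, 8⟩, ⟨3, 3, 8⟩, ⟨1, 0, 0, 0,
  0⟩, ⟨444, 75, 111, 6, 87⟩, ⟨412, 103, 103, 14, 89⟩, ⟨204, 51, 51, 6, 45⟩⟩
  :=
  CoN.b 1 1 1 rfl rfl rfl CN3_c57 CN3_t50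

theorem CN3_t52 : CoN CNTab ⟨⟨5, 5, 16⟩, ⟨2, 3, 8⟩, ⟨3, 3, 8⟩, ⟨1, 0, 0, 0,
  0⟩, ⟨40, 4, 10, 0, 7⟩, ⟨412, 103, 103, 14, 89⟩, ⟨204, 51, 51, 6, 45⟩⟩ :=
  CoN.c 1 3 6 1 rfl rfl rfl rfl rfl CN3_c56 CN3_t51

theorem CN3_t53 : CoN CNTab ⟨⟨5, 5, 16⟩, ⟨2, 3, 8⟩, ⟨3, 3, 8⟩, ⟨1, 0, 0, 0,
  0⟩, ⟨40, 4, 10, 0, 7⟩, ⟨52, 13, 13, 2, 11⟩, ⟨204, 51, 51, 6, 45⟩⟩ :=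
  CoN.c 2 3 4 1 rfl rfl rfl rfl rfl CN3_c55 CN3_t52

theorem CN3_t54 : CoN CNTab ⟨⟨5, 5, 16⟩, ⟨2, 3, 8⟩, ⟨3, 3, 8⟩, ⟨972, 51, 51,
  6, 45⟩, ⟨444, 75, 111, 6, 87⟩, ⟨204, 51, 51, 6, 45⟩, ⟨100, 25, 25, 2, 23⟩⟩
  :=
  CoN.c 1 2 1 2 rfl rfl rfl rfl rfl CN3_c63 CN3_c64

theorem CN3_t55 : CoN CNTab ⟨⟨5, 5, 16⟩, ⟨2, 3, 8⟩, ⟨3, 3, 8⟩, ⟨1, 0, 0, 0,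
  0⟩, ⟨444, 75, 111, 6, 87⟩, ⟨204, 51, 51, 6, 45⟩, ⟨100, 25, 25, 2, 23⟩⟩ :=
  CoN.c 0 2 768 1 rfl rfl rfl rfl rfl CN3_c62 CN3_t54

theorem CN3_t56 : CoN CNTab ⟨⟨5, 5, 16⟩, ⟨2, 3, 8⟩, ⟨3, 3, 8⟩, ⟨1, 0, 0, 0,
  0⟩, ⟨40, 4, 10, 0, 7⟩, ⟨204, 51, 51, 6, 45⟩, ⟨100, 25, 25, 2, 23⟩⟩ :=
  CoN.c 1 2 6 1 rfl rfl rfl rfl rfl CN3_c61 CN3_t55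

theorem CN3_t57 : CoN CNTab ⟨⟨5, 5, 16⟩, ⟨2, 3, 8⟩, ⟨3, 3, 8⟩, ⟨1, 0, 0, 0,
  0⟩, ⟨40, 4, 10, 0, 7⟩, ⟨52, 13, 13, 2, 11⟩, ⟨100, 25, 25, 2, 23⟩⟩ :=
  CoN.c 2 3 2 1 rfl rfl rfl rfl rfl CN3_t53 CN3_t56

theorem CN3_t58 : CoN CNTab ⟨⟨5, 5, 16⟩, ⟨2, 3, 8⟩, ⟨3, 3, 8⟩, ⟨1, 0, 0, 0,
  0⟩, ⟨40, 4, 10, 0, 7⟩, ⟨52, 13, 13, 2, 11⟩, ⟨4, 1, 1, 0, 1⟩⟩ :=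
  CoN.c 2 3 1 12 rfl rfl rfl rfl rfl CN3_t57 CN3_c65

theorem CN3_t59 : CoN CNTab ⟨⟨5, 5, 16⟩, ⟨2, 3, 8⟩, ⟨3, 3, 8⟩, ⟨1, 0, 0, 0,
  0⟩, ⟨40, 4, 10, 0, 7⟩, ⟨28, 7, 7, 2, 5⟩, ⟨4, 1, 1, 0, 1⟩⟩ :=
  CoN.c 2 3 1 6 rfl rfl rfl rfl rfl CN3_c54 CN3_t58

theorem CN3_t60 : CoN CNTab ⟨⟨5, 5, 16⟩, ⟨2, 3, 8⟩, ⟨3, 3, 8⟩, ⟨1, 0, 0, 0,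
  0⟩, ⟨8, 0, 2, 0, 1⟩, ⟨28, 7, 7, 2, 5⟩, ⟨4, 1, 1, 0, 1⟩⟩ :=
  CoN.c 1 3 3 4 rfl rfl rfl rfl rfl CN3_c53 CN3_t59

theorem CN3_t61 : CoN CNTab ⟨⟨5, 5, 16⟩, ⟨2, 3, 8⟩, ⟨3, 3, 8⟩, ⟨1, 0, 0, 0,
  0⟩, ⟨8, 0, 2, 0, 1⟩, ⟨8, 2, 2, 1, 1⟩, ⟨4, 1, 1, 0, 1⟩⟩ :=
  CoN.c 2 3 2 3 rfl rfl rfl rfl rfl CN3_c52 CN3_t60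

theorem CN3_t62 : CoN CNTab ⟨⟨5, 5, 16⟩, ⟨2, 3, 8⟩, ⟨3, 3, 8⟩, ⟨1, 0, 0, 0,
  0⟩, ⟨8, 0, 2, 0, 1⟩, ⟨4, 1, 1, 1, 0⟩, ⟨4, 1, 1, 0, 1⟩⟩ :=
  CoN.c 2 3 1 1 rfl rfl rfl rfl rfl CN3_c51 CN3_t61

theorem CN3_t63 : CoN CNTab ⟨⟨1, 1, 4⟩, ⟨2, 3, 8⟩, ⟨5, 5, 16⟩, ⟨1, 0, 0, 0,
  0⟩, ⟨40, 4, 10, 0, 7⟩, ⟨52, 13, 13, 2, 11⟩, ⟨100, 25, 25, 2, 23⟩⟩ :=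
  CoN.c 2 3 2 1 rfl rfl rfl rfl rfl CN3_c70 CN3_c71

theorem CN3_t64 : CoN CNTab ⟨⟨1, 1, 4⟩, ⟨2, 3, 8⟩, ⟨5, 5, 16⟩, ⟨1, 0, 0, 0,
  0⟩, ⟨40, 4, 10, 0, 7⟩, ⟨52, 13, 13, 2, 11⟩, ⟨4, 1, 1, 0, 1⟩⟩ :=
  CoN.c 2 3 1 12 rfl rfl rfl rfl rfl CN3_t63 CN3_c72

theorem CN3_t65 : CoN CNTab ⟨⟨1, 1, 4⟩, ⟨2, 3, 8⟩, ⟨5, 5, 16⟩, ⟨1, 0, 0, 0,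
  0⟩, ⟨40, 4, 10, 0, 7⟩, ⟨28, 7, 7, 2, 5⟩, ⟨4, 1, 1, 0, 1⟩⟩ :=
  CoN.c 2 3 1 6 rfl rfl rfl rfl rfl CN3_c69 CN3_t64

theorem CN3_t66 : CoN CNTab ⟨⟨1, 1, 4⟩, ⟨2, 3, 8⟩, ⟨5, 5, 16⟩, ⟨1, 0, 0, 0,
  0⟩, ⟨8, 0, 2, 0, 1⟩, ⟨28, 7, 7, 2, 5⟩, ⟨4, 1, 1, 0, 1⟩⟩ :=
  CoN.c 1 3 3 4 rfl rfl rfl rfl rfl CN3_c68 CN3_t65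

theorem CN3_t67 : CoN CNTab ⟨⟨1, 1, 4⟩, ⟨2, 3, 8⟩, ⟨5, 5, 16⟩, ⟨1, 0, 0, 0,
  0⟩, ⟨8, 0, 2, 0, 1⟩, ⟨8, 2, 2, 1, 1⟩, ⟨4, 1, 1, 0, 1⟩⟩ :=
  CoN.c 2 3 2 3 rfl rfl rfl rfl rfl CN3_c67 CN3_t66

theorem CN3_t68 : CoN CNTab ⟨⟨1, 1, 4⟩, ⟨2, 3, 8⟩, ⟨5, 5, 16⟩, ⟨1, 0, 0, 0,
  0⟩, ⟨8, 0, 2, 0, 1⟩, ⟨4, 1, 1, 1, 0⟩, ⟨4, 1, 1, 0, 1⟩⟩ :=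
  CoN.c 2 3 1 1 rfl rfl rfl rfl rfl CN3_c66 CN3_t67

theorem CN3_t69 : CoN CNTab ⟨⟨1, 1, 4⟩, ⟨2, 3, 8⟩, ⟨3, 3, 8⟩, ⟨1, 0, 0, 0,
  0⟩, ⟨8, 0, 2, 0, 1⟩, ⟨4, 1, 1, 1, 0⟩, ⟨4, 1, 1, 0, 1⟩⟩ :=
  CoN.b 2 1 2 rfl rfl rfl CN3_t62 CN3_t68

theorem CN3_t70 : CoN CNTab ⟨⟨2, 3, 8⟩, ⟨5, 7, 16⟩, ⟨3, 3, 8⟩, ⟨1, 0, 0, 0,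
  0⟩, ⟨8, 0, 2, 0, 1⟩, ⟨4, 1, 1, 1, 0⟩, ⟨4, 1, 1, 0, 1⟩⟩ :=
  CoN.c 2 3 1 1 rfl rfl rfl rfl rfl CN3_c74 CN3_c75

theorem CN3_t71 : CoN CNTab ⟨⟨2, 3, 8⟩, ⟨1, 2, 4⟩, ⟨3, 3, 8⟩, ⟨1, 0, 0, 0,
  0⟩, ⟨8, 0, 2, 0, 1⟩, ⟨4, 1, 1, 1, 0⟩, ⟨4, 1, 1, 0, 1⟩⟩ :=
  CoN.b 1 2 1 rfl rfl rfl CN3_c73 CN3_t70

theorem CN3_t72 : CoN CNTab ⟨⟨1, 1, 4⟩, ⟨1, 2, 4⟩, ⟨3, 3, 8⟩, ⟨1, 0, 0, 0,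
  0⟩, ⟨8, 0, 2, 0, 1⟩, ⟨4, 1, 1, 1, 0⟩, ⟨4, 1, 1, 0, 1⟩⟩ :=
  CoN.b 0 1 1 rfl rfl rfl CN3_t69 CN3_t71

theorem CN3_t73 : CoN CNTab ⟨⟨1, 1, 4⟩, ⟨1, 2, 4⟩, ⟨1, 1, 2⟩, ⟨1, 0, 0, 0,
  0⟩, ⟨8, 0, 2, 0, 1⟩, ⟨4, 1, 1, 1, 0⟩, ⟨4, 1, 1, 0, 1⟩⟩ :=
  CoN.b 2 2 1 rfl rfl rfl CN3_t48 CN3_t72

theorem CN3_t74 : CoN CNTab ⟨⟨1, 1, 4⟩, ⟨0, 1, 2⟩, ⟨1, 1, 2⟩, ⟨1, 0, 0, 0,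
  0⟩, ⟨8, 0, 2, 0, 1⟩, ⟨4, 1, 1, 1, 0⟩, ⟨4, 1, 1, 0, 1⟩⟩ :=
  CoN.b 1 1 1 rfl rfl rfl CN3_t1 CN3_t73

theorem CN3_t75 : CoN CNTab ⟨⟨1, 1, 8⟩, ⟨1, 3, 16⟩, ⟨1, 2, 8⟩, ⟨1, 0, 0, 0,
  0⟩, ⟨40, 4, 10, 0, 7⟩, ⟨52, 13, 13, 2, 11⟩, ⟨4, 1, 1, 0, 1⟩⟩ :=
  CoN.c 2 3 1 12 rfl rfl rfl rfl rfl CN3_c80 CN3_c81

theorem CN3_t76 : CoN CNTab ⟨⟨1, 1, 8⟩, ⟨1, 3, 16⟩, ⟨1, 2, 8⟩, ⟨1, 0, 0, 0,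
  0⟩, ⟨40, 4, 10, 0, 7⟩, ⟨28, 7, 7, 2, 5⟩, ⟨4, 1, 1, 0, 1⟩⟩ :=
  CoN.c 2 3 1 6 rfl rfl rfl rfl rfl CN3_c79 CN3_t75

theorem CN3_t77 : CoN CNTab ⟨⟨1, 1, 8⟩, ⟨1, 3, 16⟩, ⟨1, 2, 8⟩, ⟨1, 0, 0, 0,
  0⟩, ⟨8, 0, 2, 0, 1⟩, ⟨28, 7, 7, 2, 5⟩, ⟨4, 1, 1, 0, 1⟩⟩ :=
  CoN.c 1 3 3 4 rfl rfl rfl rfl rfl CN3_c78 CN3_t76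

theorem CN3_t78 : CoN CNTab ⟨⟨1, 1, 8⟩, ⟨1, 3, 16⟩, ⟨1, 2, 8⟩, ⟨1, 0, 0, 0,
  0⟩, ⟨8, 0, 2, 0, 1⟩, ⟨8, 2, 2, 1, 1⟩, ⟨4, 1, 1, 0, 1⟩⟩ :=
  CoN.c 2 3 2 3 rfl rfl rfl rfl rfl CN3_c77 CN3_t77

theorem CN3_t79 : CoN CNTab ⟨⟨1, 1, 8⟩, ⟨1, 3, 16⟩, ⟨1, 2, 8⟩, ⟨1, 0, 0, 0,
  0⟩, ⟨8, 0, 2, 0, 1⟩, ⟨4, 1, 1, 1, 0⟩, ⟨4, 1, 1, 0, 1⟩⟩ :=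
  CoN.c 2 3 1 1 rfl rfl rfl rfl rfl CN3_c76 CN3_t78

theorem CN3_t80 : CoN CNTab ⟨⟨1, 1, 8⟩, ⟨0, 1, 4⟩, ⟨1, 2, 8⟩, ⟨1, 0, 0, 0,
  0⟩, ⟨8, 0, 2, 0, 1⟩, ⟨4, 1, 1, 1, 0⟩, ⟨4, 1, 1, 0, 1⟩⟩ :=
  CoN.b 0 1 2 rfl rfl rfl CN3_t79 CN3_c82

theorem CN3_t81 : CoN CNTab ⟨⟨3, 3, 16⟩, ⟨1, 2, 8⟩, ⟨1, 1, 4⟩, ⟨1, 0, 0, 0,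
  0⟩, ⟨220, 37, 55, 2, 44⟩, ⟨204, 51, 51, 6, 45⟩, ⟨100, 25, 25, 2, 23⟩⟩ :=
  CoN.b 0 1 2 rfl rfl rfl CN3_c89 CN3_c90

theorem CN3_t82 : CoN CNTab ⟨⟨3, 3, 16⟩, ⟨1, 2, 8⟩, ⟨1, 1, 4⟩, ⟨1, 0, 0, 0,
  0⟩, ⟨40, 4, 10, 0, 7⟩, ⟨204, 51, 51, 6, 45⟩, ⟨100, 25, 25, 2, 23⟩⟩ :=
  CoN.c 1 3 3 1 rfl rfl rfl rfl rfl CN3_c88 CN3_t81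

theorem CN3_t83 : CoN CNTab ⟨⟨3, 3, 16⟩, ⟨1, 2, 8⟩, ⟨1, 1, 4⟩, ⟨1, 0, 0, 0,
  0⟩, ⟨40, 4, 10, 0, 7⟩, ⟨52, 13, 13, 2, 11⟩, ⟨100, 25, 25, 2, 23⟩⟩ :=
  CoN.c 2 3 2 1 rfl rfl rfl rfl rfl CN3_c87 CN3_t82

theorem CN3_t84 : CoN CNTab ⟨⟨3, 3, 16⟩, ⟨1, 2, 8⟩, ⟨1, 1, 4⟩, ⟨1, 0, 0, 0,
  0⟩, ⟨40, 4, 10, 0, 7⟩, ⟨52, 13, 13, 2, 11⟩, ⟨4, 1, 1, 0, 1⟩⟩ :=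
  CoN.c 2 3 1 12 rfl rfl rfl rfl rfl CN3_t83 CN3_c91

theorem CN3_t85 : CoN CNTab ⟨⟨3, 3, 16⟩, ⟨1, 2, 8⟩, ⟨1, 1, 4⟩, ⟨1, 0, 0, 0,
  0⟩, ⟨40, 4, 10, 0, 7⟩, ⟨28, 7, 7, 2, 5⟩, ⟨4, 1, 1, 0, 1⟩⟩ :=
  CoN.c 2 3 1 6 rfl rfl rfl rfl rfl CN3_c86 CN3_t84

theorem CN3_t86 : CoN CNTab ⟨⟨3, 3, 16⟩, ⟨1, 2, 8⟩, ⟨1, 1, 4⟩, ⟨1, 0, 0, 0,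
  0⟩, ⟨8, 0, 2, 0, 1⟩, ⟨28, 7, 7, 2, 5⟩, ⟨4, 1, 1, 0, 1⟩⟩ :=
  CoN.c 1 3 3 4 rfl rfl rfl rfl rfl CN3_c85 CN3_t85

theorem CN3_t87 : CoN CNTab ⟨⟨3, 3, 16⟩, ⟨1, 2, 8⟩, ⟨1, 1, 4⟩, ⟨1, 0, 0, 0,
  0⟩, ⟨8, 0, 2, 0, 1⟩, ⟨8, 2, 2, 1, 1⟩, ⟨4, 1, 1, 0, 1⟩⟩ :=
  CoN.c 2 3 2 3 rfl rfl rfl rfl rfl CN3_c84 CN3_t86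

theorem CN3_t88 : CoN CNTab ⟨⟨3, 3, 16⟩, ⟨1, 2, 8⟩, ⟨1, 1, 4⟩, ⟨1, 0, 0, 0,
  0⟩, ⟨8, 0, 2, 0, 1⟩, ⟨4, 1, 1, 1, 0⟩, ⟨4, 1, 1, 0, 1⟩⟩ :=
  CoN.c 2 3 1 1 rfl rfl rfl rfl rfl CN3_c83 CN3_t87

theorem CN3_t89 : CoN CNTab ⟨⟨1, 1, 8⟩, ⟨1, 2, 8⟩, ⟨3, 3, 16⟩, ⟨1, 0, 0, 0,
  0⟩, ⟨40, 4, 10, 0, 7⟩, ⟨52, 13, 13, 2, 11⟩, ⟨4, 1, 1, 0, 1⟩⟩ :=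
  CoN.c 2 3 1 12 rfl rfl rfl rfl rfl CN3_c96 CN3_c97

theorem CN3_t90 : CoN CNTab ⟨⟨1, 1, 8⟩, ⟨1, 2, 8⟩, ⟨3, 3, 16⟩, ⟨1, 0, 0, 0,
  0⟩, ⟨8, 0, 2, 0, 1⟩, ⟨52, 13, 13, 2, 11⟩, ⟨4, 1, 1, 0, 1⟩⟩ :=
  CoN.c 1 3 3 4 rfl rfl rfl rfl rfl CN3_c95 CN3_t89

theorem CN3_t91 : CoN CNTab ⟨⟨1, 1, 8⟩, ⟨1, 2, 8⟩, ⟨3, 3, 16⟩, ⟨1, 0, 0, 0,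
  0⟩, ⟨8, 0, 2, 0, 1⟩, ⟨28, 7, 7, 2, 5⟩, ⟨4, 1, 1, 0, 1⟩⟩ :=
  CoN.c 2 3 1 6 rfl rfl rfl rfl rfl CN3_c94 CN3_t90

theorem CN3_t92 : CoN CNTab ⟨⟨1, 1, 8⟩, ⟨1, 2, 8⟩, ⟨3, 3, 16⟩, ⟨1, 0, 0, 0,
  0⟩, ⟨8, 0, 2, 0, 1⟩, ⟨8, 2, 2, 1, 1⟩, ⟨4, 1, 1, 0, 1⟩⟩ :=
  CoN.c 2 3 2 3 rfl rfl rfl rfl rfl CN3_c93 CN3_t91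

theorem CN3_t93 : CoN CNTab ⟨⟨1, 1, 8⟩, ⟨1, 2, 8⟩, ⟨3, 3, 16⟩, ⟨1, 0, 0, 0,
  0⟩, ⟨8, 0, 2, 0, 1⟩, ⟨4, 1, 1, 1, 0⟩, ⟨4, 1, 1, 0, 1⟩⟩ :=
  CoN.c 2 3 1 1 rfl rfl rfl rfl rfl CN3_c92 CN3_t92

theorem CN3_t94 : CoN CNTab ⟨⟨1, 1, 8⟩, ⟨1, 2, 8⟩, ⟨1, 1, 4⟩, ⟨1, 0, 0, 0,
  0⟩, ⟨8, 0, 2, 0, 1⟩, ⟨4, 1, 1, 1, 0⟩, ⟨4, 1, 1, 0, 1⟩⟩ :=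
  CoN.b 2 2 1 rfl rfl rfl CN3_t88 CN3_t93

theorem CN3_t95 : CoN CNTab ⟨⟨1, 1, 8⟩, ⟨0, 1, 4⟩, ⟨1, 1, 4⟩, ⟨1, 0, 0, 0,
  0⟩, ⟨8, 0, 2, 0, 1⟩, ⟨4, 1, 1, 1, 0⟩, ⟨4, 1, 1, 0, 1⟩⟩ :=
  CoN.b 1 1 1 rfl rfl rfl CN3_t80 CN3_t94

theorem CN3_t96 : CoN CNTab ⟨⟨0, 0, 1⟩, ⟨0, 1, 8⟩, ⟨1, 1, 8⟩, ⟨1, 0, 0, 0,
  0⟩, ⟨8, 0, 2, 0, 1⟩, ⟨4, 1, 1, 1, 0⟩, ⟨4, 1, 1, 0, 1⟩⟩ :=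
  CoN.b 2 1 8 rfl rfl rfl CN3_c98 CN3_c99

theorem CN3_t97 : CoN CNTab ⟨⟨0, 0, 1⟩, ⟨0, 1, 4⟩, ⟨1, 1, 8⟩, ⟨1, 0, 0, 0,
  0⟩, ⟨8, 0, 2, 0, 1⟩, ⟨4, 1, 1, 1, 0⟩, ⟨4, 1, 1, 0, 1⟩⟩ :=
  CoN.b 0 4 1 rfl rfl rfl CN3_t96 CN3_c100

theorem CN3_t98 : CoN CNTab ⟨⟨0, 0, 1⟩, ⟨0, 1, 4⟩, ⟨1, 1, 4⟩, ⟨1, 0, 0, 0,
  0⟩, ⟨8, 0, 2, 0, 1⟩, ⟨4, 1, 1, 1, 0⟩, ⟨4, 1, 1, 0, 1⟩⟩ :=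
  CoN.b 2 1 4 rfl rfl rfl CN3_t95 CN3_t97

theorem CN3_t99 : CoN CNTab ⟨⟨0, 1, 4⟩, ⟨1, 3, 8⟩, ⟨1, 1, 4⟩, ⟨1, 0, 0, 0,
  0⟩, ⟨8, 0, 2, 0, 1⟩, ⟨4, 1, 1, 1, 0⟩, ⟨4, 1, 1, 0, 1⟩⟩ :=
  CoN.b 2 1 1 rfl rfl rfl CN3_c102 CN3_c103

theorem CN3_t100 : CoN CNTab ⟨⟨0, 1, 4⟩, ⟨0, 1, 2⟩, ⟨1, 1, 4⟩, ⟨1, 0, 0, 0,
  0⟩, ⟨8, 0, 2, 0, 1⟩, ⟨4, 1, 1, 1, 0⟩, ⟨4, 1, 1, 0, 1⟩⟩ :=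
  CoN.b 1 2 1 rfl rfl rfl CN3_c101 CN3_t99

theorem CN3_t101 : CoN CNTab ⟨⟨0, 0, 1⟩, ⟨0, 1, 2⟩, ⟨1, 1, 4⟩, ⟨1, 0, 0, 0,
  0⟩, ⟨8, 0, 2, 0, 1⟩, ⟨4, 1, 1, 1, 0⟩, ⟨4, 1, 1, 0, 1⟩⟩ :=
  CoN.b 0 2 1 rfl rfl rfl CN3_t98 CN3_t100

theorem CN3_t102 : CoN CNTab ⟨⟨0, 0, 1⟩, ⟨0, 1, 2⟩, ⟨1, 1, 2⟩, ⟨1, 0, 0, 0,
  0⟩, ⟨8, 0, 2, 0, 1⟩, ⟨4, 1, 1, 1, 0⟩, ⟨4, 1, 1, 0, 1⟩⟩ :=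
  CoN.b 2 1 2 rfl rfl rfl CN3_t74 CN3_t101

end Pool.Agent.TET.Cvr
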