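import Pool.Agent.Helper37_TET.LastQ
import Pool.Agent.Helper37_TET.CN0_T0
import Pool.Agent.Helper37_TET.CN1_T0
import Pool.Agent.Helper37_TET.CN2_T0
import Pool.Agent.Helper37_TET.CN3_T0

/-!
# MP_c7c9bf_co: the cover of chart N
-/

set_option autoImplicit false
set_option maxRecDepth 100000

namespace Pool.Agent.TET

open Cvr (V4 Cd)

theorem CN_cover : CoverN Cvr.CNTab :=
  coverNq Cvr.CN0_t185 Cvr.CN1_t182 Cvr.CN2_t59 Cvr.CN3_t102

end Pool.Agent.TET
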