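import Pool.Agent.Helper37_TET.OkC

/-!
# MP_c7c9bf_co: lists of good regions with a list of exception regions
-/

set_option autoImplicit false

namespace Pool.Agent.TET.Cvr

theorem okm_nil {X : List (List Cd)} : ∀ R ∈ ([] : List (List Cd)), R ∈ X ∨ ROK R :=
  fun _ h => absurd h List.not_mem_nil

theorem okm_cons {X : List (List Cd)} {R : List Cd} {T : List (List Cd)} (h : ROK R)
    (hT : ∀ R ∈ T, R ∈ X ∨ ROK R) : ∀ S ∈ (R :: T), S ∈ X ∨ ROK S :=
  fun S hS => (List.mem_cons.1 hS).elim (fun e => Or.inr (e ▸ h)) (hT S)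

/-- the next region is the first exception region -/
theorem okm_x0 {R : List Cd} {X T : List (List Cd)} (hT : ∀ S ∈ T, S ∈ (R :: X) ∨ ROK S) :
    ∀ S ∈ (R :: T), S ∈ (R :: X) ∨ ROK S :=
  fun S hS => (List.mem_cons.1 hS).elim (fun e => Or.inl (e ▸ List.mem_cons_self)) (hT S)

/-- the next region is the second exception region -/
theorem okm_x1 {Q R : List Cd} {X T : List (List Cd)} (hT : ∀ S ∈ T, S ∈ (Q :: R :: X) ∨ ROK S) :
    ∀ S ∈ (R :: T), S ∈ (Q :: R :: X) ∨ ROK S :=
  fun S hS => (List.mem_cons.1 hS).elim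
    (fun e => Or.inl (e ▸ List.mem_cons_of_mem _ List.mem_cons_self)) (hT S)

end Pool.Agent.TET.Cvr
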