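import Pool.Agent.Helper86_TET.Tab
import Pool.Agent.Helper37_TET.CNTab

/-!
# MP_c7c9bf_co: sums of coefficients of the table CNTab
-/

set_option autoImplicit false

namespace Pool.Agent.TET

theorem CN_zc : zcT Cvr.CNTab = true := by decide +kernel

end Pool.Agent.TET
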