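import Pool.Agent.Helper37_TET.CSBt

/-!
# MP_c7c9bf_co: cover of the charts, root 0 part 0
-/

set_option autoImplicit false
set_option maxRecDepth 100000

namespace Pool.Agent.TET.Cvr

theorem CS0_c0 : CoF CSTab ⟨⟨2054, 1936, 40000⟩, ⟨5442, 2656, 80000⟩, ⟨3388,
  1936, 40000⟩, ⟨0, 1⟩, ⟨2, 1⟩, ⟨1, 0, 0⟩, ⟨0, 1, 0⟩, ⟨0, 1, 1⟩⟩ :=
CoF.ofG CSTab_B CSBt_E CSBt_U (.B 2 1 1 (.B 1 1 2 (.C 0 2 8 1 (.T 1 1 (.T 2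
  1 (.T 4 1 (.C 1 2 4 1 (.C 0 1 4 1 (.T 8 1 (.C 1 2 4 1 (.L 5) (.C 0 2 32 1
  (.L 5) (.G 1 376 0 291513 291513 145756 [.n, .g 7 33 0 0, .n, .n]))) (.T 1
  2 (.T 2 1 (.L 330) (.L 329)) (.L 394))) (.T 8 1 (.C 0 2 4 1 (.L 5) (.C 0 1
  1 16 (.C 1 2 1 4 (.L 1) (.G 399 136 0 39709 158836 19855 [.n, .n, .g 25 64
  0 0, .g 43 63 0 0])) (.C 1 2 8 1 (.L 102) (.C 1 2 1 2 (.L 102) (.B 0 1 1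
  (.C 0 2 1 4 (.G 55 276 3 1840 1840 3681 [.g 32 7 0 0, .g 64 21 0 0, .n,
  .n, .g 32 9 0 0]) (.G 180 194 3 117 58 15 [.g 1 2 3381 0, .g 64 43 0 0,
  .n, .n])) (.G 75 119 3 1 1 1 [.n, .g 4 63 0 0, .g 1 4 400 0])))))) (.T 1 2
  (.T 2 1 (.L 330) (.L 329)) (.L 394)))) (.C 1 2 1 2 (.C 1 2 2 1 (.T 8 1 (.L
  46) (.C 1 2 4 1 (.T 1 2 (.L 46) (.L 394)) (.L 46))) (.L 266)) (.L 130)))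
  (.L 21)) (.L 6)) (.C 0 1 4 1 (.T 1 2 (.T 2 1 (.L 4) (.C 1 2 2 1 (.L 4) (.L
  16))) (.T 1 4 (.C 1 2 2 1 (.L 2) (.C 1 2 1 2 (.L 2) (.L 9))) (.C 0 1 8 1
  (.C 1 2 1 1 (.T 1 8 (.C 1 2 2 1 (.L 2) (.L 38)) (.C 1 2 2 1 (.C 1 2 4 1
  (.C 1 2 8 1 (.L 197) (.T 1 16 (.L 504) (.T 1 32 (.L 116) (.O 4)))) (.T 1
  16 (.L 81) (.O 4))) (.O 4))) (.O 4)) (.G 337 271 0 129 65 129 [.g 2048 3 0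
  0, .n, .g 64 27 0 0, .g 64 33 0 0, .n, .n])))) (.C 1 2 4 1 (.C 0 1 1 2 (.L
  27) (.C 1 2 8 1 (.C 0 1 1 4 (.L 8) (.T 1 2 (.L 26) (.L 12))) (.L 8))) (.C
  1 2 1 2 (.L 3) (.T 1 2 (.G 4 482 1 4 34 8 [.n, .n, .n, .g 1 0 1586 0]) (.L
  3)))))) (.C 0 2 1 2 (.T 1 1 (.T 2 1 (.C 1 2 8 1 (.T 4 1 (.C 0 1 1 4 (.G
  304 372 0 15472 30944 61889 [.g 32 1 0 0, .g 47 64 7 0, .n, .n]) (.C 0 1 1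
  8 (.C 0 2 2 1 (.C 0 1 2 1 (.T 8 1 (.C 1 2 1 1 (.G 500 393 0 33926 135703
  271405 [.n, .g 2 5 0 0, .g 64 19 2 0, .n]) (.L 46)) (.G 436 89 0 1 1 1 [.g
  64 43 0 0, .n, .n, .n])) (.G 119 372 0 353 176 353 [.n, .n, .n, .g 5 13 0
  0])) (.G 503 102 3 1 1 1 [.g 1 359 0 0, .n, .n, .n])) (.L 98))) (.G 30 251
  4 1 1 1 [.n, .g 1 2 7532 0, .n, .n])) (.G 253 99 0 1 1 1 [.n, .n, .n, .g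
  32 5 16522 0, .g 1 0 381 0])) (.L 6)) (.C 0 1 1 4 (.L 133) (.C 1 2 8 1 (.C
  0 1 1 8 (.L 20) (.T 1 2 (.L 26) (.L 12))) (.L 3)))) (.C 0 2 1 4 (.T 1 1
  (.T 2 1 (.G 102 44 1 1 1 1 [.n, .n, .n, .g 271 2 4094 0]) (.C 0 2 2 1 (.L
  6) (.L 49))) (.C 0 1 1 8 (.L 3) (.C 1 2 16 1 (.T 1 2 (.L 7) (.L 12)) (.L
  3)))) (.C 0 2 1 8 (.T 1 1 (.L 18) (.C 0 1 1 16 (.L 3) (.T 1 2 (.L 52) (.L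
  12)))) (.L 28))))) (.B 2 2 1 (.L 375) (.C 0 2 8 1 (.T 1 1 (.T 2 1 (.T 4 1
  (.T 8 1 (.C 1 2 4 1 (.C 0 1 4 1 (.C 1 2 4 1 (.L 5) (.T 16 1 (.L 46) (.C 0
  2 32 1 (.L 5) (.G 5 136 0 823141 823141 411570 [.n, .g 17 65 0 0, .n,
  .n])))) (.C 0 2 4 1 (.L 5) (.C 0 1 1 16 (.C 1 2 1 4 (.L 1) (.G 136 68 3
  22618 90473 11309 [.g 64 45 0 0, .n, .n, .n])) (.C 1 2 8 1 (.L 102) (.C 1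
  2 1 2 (.L 102) (.G 180 146 3 1 1 1 [.g 2 7 3578 0, .g 12 65 0 0, .n,
  .n])))))) (.C 1 2 1 2 (.L 46) (.O 4))) (.L 24)) (.L 21)) (.L 6)) (.C 0 1 4
  1 (.T 1 2 (.T 2 1 (.L 4) (.C 1 2 2 1 (.L 4) (.L 16))) (.T 1 4 (.C 1 2 2 1
  (.L 2) (.C 1 2 1 2 (.L 2) (.L 9))) (.C 0 1 8 1 (.C 1 2 1 1 (.T 1 8 (.C 1 2
  2 1 (.L 2) (.L 38)) (.C 1 2 2 1 (.C 1 2 4 1 (.C 1 2 8 1 (.L 197) (.T 1 16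
  (.L 233) (.T 1 32 (.L 116) (.O 4)))) (.T 1 16 (.L 81) (.O 4))) (.O 4)))
  (.O 4)) (.G 402 133 0 122 61 122 [.g 1 0 7 0, .n, .n, .n, .n, .n, .g 8 3 0
  0, .g 64 31 0 0])))) (.C 1 2 4 1 (.C 0 1 1 2 (.L 27) (.C 1 2 8 1 (.C 0 1 1
  4 (.L 8) (.T 1 2 (.L 26) (.L 12))) (.L 8))) (.C 1 2 1 2 (.L 3) (.T 1 2 (.G
  27 4 3 5 44 11 [.n, .n, .g 1 1 320 0, .n]) (.L 3)))))) (.C 0 2 1 2 (.T 1 1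
  (.T 2 1 (.C 1 2 8 1 (.T 4 1 (.C 0 1 1 4 (.G 24 372 0 16242 32483 64966 [.g
  32 0 15 0, .n, .n]) (.C 0 1 1 8 (.C 0 2 2 1 (.C 0 1 2 1 (.G 24 136 0 26146
  104583 104583 [.g 25 64 0 0, .n, .n]) (.G 146 24 0 1715 857 1715 [.n, .n,
  .n, .g 51 64 0 0])) (.G 24 146 3 1245 622 622 [.g 64 21 0 0, .n, .n])) (.L
  98))) (.G 187 104 1 1 1 1 [.n, .n, .g 1 6 8296 0, .n])) (.G 253 44 1 1 1 1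
  [.n, .n, .n, .g 452 21 131103 0, .g 1 0 481 0])) (.L 6)) (.C 0 1 1 4 (.L
  133) (.C 1 2 8 1 (.C 0 1 1 8 (.L 20) (.T 1 2 (.L 26) (.L 12))) (.L 3))))
  (.C 0 2 1 4 (.T 1 1 (.T 2 1 (.G 119 44 1 1 1 1 [.n, .n, .n, .g 46 2 4071
  0]) (.C 0 2 2 1 (.L 6) (.L 49))) (.C 0 1 1 8 (.L 3) (.C 1 2 16 1 (.T 1 2
  (.L 7) (.L 12)) (.L 3)))) (.C 0 2 1 8 (.T 1 1 (.L 18) (.T 1 2 (.L 18) (.L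
  12))) (.L 28))))))) (.B 0 2 1 (.C 0 2 8 1 (.T 1 1 (.T 2 1 (.T 4 1 (.C 1 2
  4 1 (.C 0 1 4 1 (.T 8 1 (.C 1 2 4 1 (.L 5) (.C 1 2 1 2 (.L 5) (.L 46)))
  (.L 15)) (.T 8 1 (.C 0 2 4 1 (.L 5) (.C 1 2 8 1 (.G 119 1 1 792 49 792
  [.n, .n, .n, .g 19 64 0 0]) (.T 16 1 (.C 1 2 1 2 (.T 32 1 (.O 4) (.G 439
  136 0 2418788 2418788 4837576 [.n, .n, .n, .n, .g 1 70 0 0, .g 1 73 0 0,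
  .n, .n, .g 1 19 0 0, .g 3 64 0 0])) (.L 46)) (.C 1 2 1 2 (.G 163 1 1
  214254 214254 428508 [.n, .n, .n, .g 8 1 0 0]) (.G 136 198 1 64938 129876
  32469 [.g 32 13 0 0, .n, .n, .n]))))) (.L 15))) (.C 1 2 1 2 (.C 1 2 2 1
  (.T 8 1 (.L 46) (.L 15)) (.L 266)) (.L 130))) (.L 21)) (.L 6)) (.C 0 1 4 1
  (.T 1 2 (.T 2 1 (.L 4) (.C 1 2 2 1 (.L 4) (.L 16))) (.T 1 4 (.C 1 2 2 1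
  (.L 2) (.C 1 2 1 2 (.L 2) (.L 9))) (.C 0 1 8 1 (.C 1 2 1 1 (.C 1 2 2 1 (.T
  1 8 (.L 2) (.C 1 2 4 1 (.C 1 2 8 1 (.C 1 2 16 1 (.L 270) (.L 195)) (.T 1
  16 (.L 218) (.T 1 32 (.L 116) (.O 4)))) (.T 1 16 (.L 38) (.O 4)))) (.T 1 8
  (.T 2 1 (.L 2) (.L 131)) (.O 4))) (.O 4)) (.L 78)))) (.C 1 2 4 1 (.C 0 1 1
  2 (.L 27) (.C 1 2 8 1 (.C 0 1 1 4 (.L 8) (.T 1 2 (.L 4) (.L 12))) (.L 8)))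
  (.C 1 2 1 2 (.L 3) (.T 1 2 (.G 7 27 2 8 64 16 [.n, .n, .g 1 0 1987 0, .g 1
  1 2828 0]) (.L 3)))))) (.C 0 2 1 2 (.T 1 1 (.T 2 1 (.C 1 2 8 1 (.T 4 1 (.C
  0 1 1 4 (.G 147 372 0 15472 30944 61889 [.g 1 1 0 0, .g 47 64 7 0, .n,
  .n]) (.C 0 1 1 8 (.C 0 2 2 1 (.T 8 1 (.C 1 2 2 1 (.C 0 1 2 1 (.G 248 136 0
  22556 90222 180444 [.g 13 66 0 0, .g 51 64 0 0, .n, .n]) (.L 98)) (.L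
  311)) (.L 15)) (.G 102 103 0 519 260 260 [.n, .n, .n, .g 10 21 0 0])) (.L
  98))) (.G 432 466 0 1 1 1 [.g 1 0 1277 0, .n, .n, .n, .n])) (.G 352 44 1 1
  1 1 [.n, .g 64 0 45 0, .n, .n, .n, .g 16384 1 0 0])) (.L 6)) (.C 0 1 1 4
  (.G 4 404 1 47 93 93 [.n, .n, .g 3 1 4784 0, .g 4 1 4495 0]) (.C 1 2 8 1
  (.C 0 1 1 8 (.L 20) (.T 1 2 (.L 26) (.L 12))) (.L 3)))) (.C 0 2 1 4 (.T 1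
  1 (.T 2 1 (.G 98 60 1 1 1 1 [.n, .n, .n, .g 86 1 2044 0]) (.C 0 2 2 1 (.L
  6) (.L 49))) (.C 0 1 1 8 (.L 3) (.C 1 2 16 1 (.T 1 2 (.L 7) (.L 12)) (.L
  3)))) (.C 0 2 1 8 (.T 1 1 (.L 18) (.C 0 1 1 16 (.L 3) (.C 1 2 32 1 (.T 1 2
  (.L 52) (.L 12)) (.L 3)))) (.L 28))))) (.C 0 2 8 1 (.T 1 1 (.T 2 1 (.T 4 1
  (.C 1 2 4 1 (.C 0 1 4 1 (.T 8 1 (.C 1 2 4 1 (.L 5) (.C 1 2 1 2 (.L 5) (.L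
  46))) (.L 15)) (.T 8 1 (.C 0 2 4 1 (.L 5) (.C 0 1 1 16 (.C 1 2 1 4 (.L 1)
  (.G 36 1 1 25 99 12 [.g 228 3 8179 0, .n, .g 4 1 4493 0, .n])) (.C 1 2 8 1
  (.L 102) (.C 1 2 1 2 (.L 102) (.B 1 1 1 (.G 91 119 3 42 42 11 [.g 1 5 215
  0, .n, .g 1 9 736 0, .g 64 53 0 0]) (.C 0 2 1 4 (.T 16 1 (.L 119) (.G 202
  276 3 765 765 1530 [.n, .g 64 43 0 0, .n, .n, .n])) (.G 180 194 3 105 53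
  13 [.g 1 2 3706 0, .g 31 32 0 0, .n, .n]))))))) (.L 15))) (.C 1 2 1 2 (.C
  1 2 2 1 (.T 8 1 (.L 46) (.L 15)) (.L 266)) (.L 130))) (.L 21)) (.L 6)) (.C
  0 1 4 1 (.T 1 2 (.T 2 1 (.L 4) (.C 1 2 2 1 (.L 4) (.L 16))) (.T 1 4 (.C 1
  2 2 1 (.L 2) (.C 1 2 1 2 (.L 2) (.L 9))) (.C 0 1 8 1 (.C 1 2 1 1 (.T 1 8
  (.C 1 2 2 1 (.L 2) (.L 38)) (.C 1 2 2 1 (.C 1 2 4 1 (.C 1 2 8 1 (.L 197)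
  (.T 1 16 (.L 504) (.T 1 32 (.L 116) (.O 4)))) (.T 1 16 (.L 81) (.O 4)))
  (.O 4))) (.O 4)) (.L 222)))) (.C 1 2 4 1 (.C 0 1 1 2 (.L 27) (.C 1 2 8 1
  (.C 0 1 1 4 (.L 8) (.T 1 2 (.L 26) (.L 12))) (.L 8))) (.C 1 2 1 2 (.L 3)
  (.T 1 2 (.G 4 203 3 5 41 10 [.n, .n, .n, .g 1 0 1604 0]) (.L 3)))))) (.C 0
  2 1 2 (.T 1 1 (.T 2 1 (.C 1 2 8 1 (.T 4 1 (.C 0 1 1 4 (.G 304 471 0 15472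
  30944 61889 [.g 64 1 0 0, .g 64 43 10 0, .n, .n]) (.C 0 1 1 8 (.C 0 2 2 1
  (.C 0 1 2 1 (.T 8 1 (.G 343 149 0 6189 24755 24755 [.n, .g 13 32 0 0, .g
  63 64 9 0, .n]) (.L 15)) (.G 103 102 3 751 375 751 [.g 64 17 0 0, .n, .n,
  .n])) (.G 103 102 3 519 260 260 [.g 64 27 0 0, .n, .n, .n])) (.L 98))) (.G
  30 177 2 1 1 1 [.n, .g 1 2 4338 0, .n, .n])) (.G 265 44 1 1 1 1 [.g 16384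
  1 0 0, .g 32 0 23 0, .n, .n, .n, .n])) (.L 6)) (.C 0 1 1 4 (.L 133) (.C 1
  2 8 1 (.C 0 1 1 8 (.L 20) (.T 1 2 (.L 26) (.L 12))) (.L 3)))) (.C 0 2 1 4
  (.T 1 1 (.T 2 1 (.G 98 407 1 89 11 179 [.n, .n, .n, .g 8 13 0 0]) (.C 0 2
  2 1 (.L 6) (.L 49))) (.C 0 1 1 8 (.L 3) (.C 1 2 16 1 (.T 1 2 (.L 7) (.L
  12)) (.L 3)))) (.C 0 2 1 8 (.T 1 1 (.L 18) (.C 0 1 1 16 (.L 3) (.T 1 2 (.L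
  52) (.L 12)))) (.L 28))))))) (by decide +kernel)

theorem CS0_c1 : CoF CSTab ⟨⟨5442, 2656, 80000⟩, ⟨1694, 360, 20000⟩, ⟨3388,
  1936, 40000⟩, ⟨0, 1⟩, ⟨2, 1⟩, ⟨1, 0, 0⟩, ⟨0, 1, 0⟩, ⟨0, 1, 1⟩⟩ :=
CoF.ofG CSTab_B CSBt_E CSBt_U (.B 1 2 1 (.B 0 1 4 (.B 0 2 1 (.B 2 1 1 (.L
  87) (.B 0 4 1 (.B 2 1 2 (.L 87) (.B 0 8 1 (.B 2 1 4 (.L 87) (.B 0 16 1 (.C
  0 2 8 1 (.T 1 1 (.T 2 1 (.T 4 1 (.C 1 2 4 1 (.C 0 1 4 1 (.T 8 1 (.C 1 2 4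
  1 (.L 5) (.C 1 2 1 2 (.L 5) (.L 19))) (.L 15)) (.C 0 2 4 1 (.C 0 2 8 1 (.L
  5) (.T 8 1 (.L 5) (.L 15))) (.C 0 1 1 16 (.T 8 1 (.C 1 2 1 4 (.L 1) (.T 16
  1 (.L 19) (.G 19 198 1 56346 225384 28173 [.g 64 15 0 0, .n, .n, .n])))
  (.L 15)) (.G 209 119 3 1161 36 290 [.g 64 19 0 0, .n, .n, .n])))) (.C 1 2
  1 2 (.C 1 2 2 1 (.T 8 1 (.L 19) (.L 15)) (.L 19)) (.L 130))) (.C 0 2 16 1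
  (.L 21) (.L 41))) (.L 6)) (.C 0 1 4 1 (.T 1 2 (.T 2 1 (.L 4) (.C 1 2 2 1
  (.L 4) (.L 16))) (.T 1 4 (.C 1 2 2 1 (.L 2) (.C 1 2 1 2 (.L 2) (.L 9)))
  (.C 0 1 8 1 (.C 1 2 1 1 (.C 1 2 2 1 (.T 1 8 (.L 2) (.C 1 2 4 1 (.C 1 2 8 1
  (.L 81) (.T 1 16 (.L 233) (.C 1 2 1 2 (.L 154) (.T 1 32 (.L 154) (.O
  4))))) (.T 1 16 (.L 81) (.O 4)))) (.T 1 8 (.L 115) (.O 4))) (.O 4)) (.L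
  279)))) (.C 1 2 4 1 (.C 0 1 1 2 (.L 27) (.C 1 2 8 1 (.C 0 1 1 4 (.L 8) (.T
  1 2 (.L 26) (.L 12))) (.L 8))) (.C 1 2 1 2 (.L 3) (.T 1 2 (.G 4 186 2 5 41
  10 [.n, .n, .n, .g 1 0 996 0]) (.L 3)))))) (.C 0 2 1 2 (.T 1 1 (.T 2 1 (.C
  0 1 1 4 (.G 487 86 3 1 1 1 [.n, .n, .g 2 0 4223 0, .g 1 0 1406 0]) (.C 0 1
  1 8 (.C 1 2 1 2 (.T 4 1 (.G 119 209 0 101 201 402 [.n, .n, .n, .g 25 32 0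
  0]) (.L 61)) (.G 210 217 1 1 1 1 [.g 1 0 1523 0, .n, .n, .g 1 0 2749 0]))
  (.G 102 44 1 1 1 1 [.n, .n, .n, .g 841 2 1024 0]))) (.L 6)) (.C 0 1 1 4
  (.L 20) (.C 1 2 8 1 (.C 0 1 1 8 (.L 20) (.T 1 2 (.L 26) (.L 12))) (.L
  3)))) (.C 0 2 1 4 (.T 1 1 (.T 2 1 (.G 44 153 3 1 1 1 [.n, .g 1 335 1989 0,
  .n, .n]) (.C 0 2 2 1 (.L 6) (.L 49))) (.C 0 1 1 8 (.L 3) (.C 1 2 16 1 (.T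
  1 2 (.L 7) (.L 12)) (.L 3)))) (.C 0 2 1 8 (.T 1 1 (.L 18) (.C 0 1 1 16 (.L
  3) (.T 1 2 (.L 52) (.L 12)))) (.L 28))))) (.L 159))) (.L 87))) (.L 87)))
  (.L 87)) (.L 87)) (.B 2 2 1 (.L 87) (.B 0 1 1 (.B 0 2 1 (.B 2 1 2 (.L 369)
  (.B 0 4 1 (.C 0 2 8 1 (.T 1 1 (.T 2 1 (.T 4 1 (.C 1 2 4 1 (.C 0 1 4 1 (.T
  8 1 (.C 1 2 4 1 (.L 5) (.T 16 1 (.L 19) (.C 0 2 32 1 (.L 5) (.G 19 5 1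
  859238 859238 429619 [.g 64 9 0 0, .n, .n, .n])))) (.L 15)) (.T 8 1 (.C 0
  2 4 1 (.L 5) (.C 0 1 1 16 (.C 1 2 1 4 (.L 1) (.T 16 1 (.L 19) (.G 19 198 1
  56346 225384 28173 [.g 64 15 0 0, .n, .n, .n]))) (.G 276 334 3 32 1 8 [.g
  36 1 64 0, .n, .n, .n]))) (.L 15))) (.C 1 2 1 2 (.C 1 2 2 1 (.T 8 1 (.L
  19) (.L 15)) (.L 19)) (.L 130))) (.L 21)) (.L 6)) (.C 0 1 4 1 (.T 1 2 (.T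
  2 1 (.L 4) (.C 1 2 2 1 (.L 4) (.L 16))) (.T 1 4 (.C 1 2 2 1 (.L 2) (.C 1 2
  1 2 (.L 2) (.L 9))) (.C 0 1 8 1 (.C 1 2 1 1 (.C 1 2 2 1 (.T 1 8 (.L 2) (.C
  1 2 4 1 (.C 1 2 8 1 (.L 81) (.T 1 16 (.L 233) (.C 1 2 1 2 (.L 154) (.T 1
  32 (.L 154) (.O 4))))) (.T 1 16 (.L 81) (.O 4)))) (.T 1 8 (.L 115) (.O
  4))) (.O 4)) (.G 423 359 1 384 192 384 [.g 256 1 0 0, .n, .g 8 3 0 0, .g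
  16 7 0 0, .n, .n])))) (.C 1 2 4 1 (.C 0 1 1 2 (.L 27) (.C 1 2 8 1 (.C 0 1
  1 4 (.L 8) (.T 1 2 (.L 26) (.L 12))) (.L 8))) (.C 1 2 1 2 (.L 3) (.T 1 2
  (.G 4 114 3 27 218 55 [.n, .n, .n, .g 1 0 203 0]) (.L 3)))))) (.C 0 2 1 2
  (.T 1 1 (.T 2 1 (.C 0 1 1 4 (.G 19 86 3 3 5 5 [.g 32 11 0 0, .g 1 1 3238
  0, .n, .n]) (.C 0 1 1 8 (.C 1 2 1 2 (.T 4 1 (.C 0 1 2 1 (.G 436 119 3 1 1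
  1 [.g 6 67 0 0, .n, .n, .g 1 59 0 0]) (.L 98)) (.L 61)) (.G 210 217 1 1 1
  1 [.g 1 0 1534 0, .n, .n, .g 1 0 2753 0])) (.G 102 44 1 1 1 1 [.n, .n, .n,
  .g 173 1 1022 0]))) (.L 6)) (.C 0 1 1 4 (.L 10) (.C 1 2 8 1 (.C 0 1 1 8
  (.L 20) (.T 1 2 (.L 26) (.L 12))) (.L 3)))) (.C 0 2 1 4 (.T 1 1 (.T 2 1
  (.G 98 497 1 66 8 133 [.n, .n, .n, .g 64 45 0 0]) (.C 0 2 2 1 (.L 6) (.L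
  49))) (.C 0 1 1 8 (.L 3) (.C 1 2 16 1 (.T 1 2 (.L 7) (.L 12)) (.L 3))))
  (.C 0 2 1 8 (.T 1 1 (.L 18) (.C 0 1 1 16 (.L 3) (.T 1 2 (.L 52) (.L 12))))
  (.L 28))))) (.L 369))) (.L 87)) (.L 87)))) (by decide +kernel)

theorem CS0_c2 : CoF CSTab ⟨⟨5442, 5088, 80000⟩, ⟨3388, 1936, 40000⟩, ⟨6776,
  5088, 80000⟩, ⟨0, 1⟩, ⟨2, 1⟩, ⟨1, 0, 0⟩, ⟨0, 1, 0⟩, ⟨0, 1, 1⟩⟩ :=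
CoF.ofG CSTab_B CSBt_E CSBt_U (.B 0 1 2 (.C 0 2 8 1 (.T 1 1 (.T 2 1 (.T 4 1
  (.T 8 1 (.C 1 2 4 1 (.C 0 1 4 1 (.C 1 2 4 1 (.L 5) (.C 0 2 32 1 (.L 5) (.G
  144 5 1 230423 230423 115211 [.n, .g 64 9 6 0, .g 32 7 6 0, .n]))) (.C 0 2
  4 1 (.L 5) (.C 0 1 1 16 (.C 1 2 1 4 (.C 1 2 2 1 (.L 5) (.C 0 1 8 1 (.C 0 2
  4 1 (.L 5) (.G 242 1 1 12 24 6 [.g 64 1 0 0, .n, .n, .g 32 27 0 0, .g 29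
  32 0 0, .g 4 7 0 0])) (.G 138 1 1 95 47 24 [.g 32 11 0 0, .g 1 1 121 0,
  .n, .n, .g 1 1 19950 0, .g 1 1 20250 0]))) (.C 0 2 1 2 (.C 0 2 2 1 (.C 0 1
  4 1 (.L 5) (.T 16 1 (.G 295 5 1 342 171 171 [.g 16 9 0 0, .g 1 3 5262 0,
  .n, .g 8 13 0 0]) (.C 1 2 1 1 (.C 0 1 1 2 (.L 5) (.G 1 69 2 3080273 770068
  1540137 [.n, .g 4 7 0 0, .n, .n])) (.L 5)))) (.T 16 1 (.T 32 1 (.O 4) (.C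
  1 2 1 2 (.G 455 229 2 1 1 1 [.g 1 0 7598 0, .g 7 67 0 0, .n, .n, .n, .n,
  .g 1 0 357212 0, .g 1 0 857030 0]) (.O 4))) (.C 0 1 1 1 (.L 5) (.G 69 1 1
  2241223 1120612 560306 [.n, .n, .g 16 9 0 0, .g 63 64 3 0, .n])))) (.T 16
  1 (.G 327 229 1 1 1 1 [.n, .n, .g 1 1 968 0, .n]) (.C 1 2 1 8 (.C 0 1 2 1
  (.C 0 2 4 1 (.G 1 47 0 115153 460612 921224 [.n, .g 26 32 21 0, .n, .n])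
  (.G 54 105 0 5 3 3 [.n, .n, .n, .g 64 47 0 0, .g 64 19 0 0, .g 1 0 23335
  0])) (.G 54 105 0 21 10 21 [.n, .g 64 17 0 0, .n, .n, .g 1 1 10596 0, .g 1
  1 15087 0])) (.G 47 433 0 105950 423798 26487 [.g 8 0 5 0, .n, .n,
  .n]))))) (.C 1 2 8 1 (.L 29) (.C 1 2 1 2 (.C 0 1 1 2 (.G 219 172 3 1 1 1
  [.g 1 8 0 0, .n, .n, .n, .g 1 324 0 0, .g 1 378 0 0]) (.G 305 484 3 10642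
  2660 5321 [.g 2 1 0 0, .n, .n, .n, .g 8 3 0 0])) (.T 16 1 (.G 212 5 1
  247949 247949 61987 [.n, .n, .n, .n, .g 32 15 0 0]) (.C 0 2 1 4 (.G 340
  123 1 1 1 1 [.g 6 13 0 0, .n, .n, .n, .n, .n]) (.G 180 105 3 55 27 7 [.g 3
  4 8952 0, .g 19 32 0 0, .n, .n])))))))) (.C 1 2 1 2 (.L 25) (.O 4))) (.L
  24)) (.L 45)) (.L 6)) (.C 0 1 4 1 (.T 1 2 (.T 2 1 (.L 7) (.C 1 2 2 1 (.L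
  4) (.L 16))) (.T 1 4 (.C 1 2 2 1 (.L 2) (.C 1 2 1 2 (.L 2) (.L 9))) (.C 0
  1 8 1 (.C 1 2 1 1 (.C 1 2 2 1 (.T 1 8 (.L 2) (.T 1 16 (.L 38) (.C 1 2 4 1
  (.C 1 2 8 1 (.L 116) (.T 1 32 (.L 116) (.O 4))) (.O 4)))) (.T 1 8 (.T 2 1
  (.L 2) (.L 446)) (.O 4))) (.O 4)) (.G 2 10 3 96 48 96 [.g 20 0 63 0, .n,
  .g 3 1 2194 0, .g 3 1 3537 0, .n, .n])))) (.C 1 2 4 1 (.C 0 1 1 2 (.T 1 2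
  (.L 4) (.L 3)) (.C 1 2 8 1 (.C 0 1 1 4 (.L 8) (.T 1 2 (.L 4) (.L 12))) (.L
  8))) (.C 1 2 1 2 (.T 1 2 (.L 4) (.L 3)) (.T 1 2 (.G 4 57 2 9 71 18 [.n,
  .n, .g 1 0 1234 0, .g 6 1 4049 0]) (.L 3)))))) (.C 0 2 1 2 (.T 1 1 (.T 2 1
  (.C 0 1 1 4 (.G 210 86 3 1 1 1 [.g 1 0 2409 0, .n, .n, .g 1 0 2769 0]) (.T
  4 1 (.T 8 1 (.C 1 2 8 1 (.C 0 1 1 8 (.C 0 1 2 1 (.C 1 2 1 2 (.G 36 145 0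
  11 43 86 [.g 2 0 67 0, .n, .g 1 0 1048 0, .g 16 1 0 0]) (.L 25)) (.G 465
  288 3 3 1 1 [.g 64 33 0 0, .n, .n, .n])) (.L 243)) (.C 0 2 1 1 (.L 25) (.O
  4))) (.L 24)) (.L 30))) (.L 6)) (.C 0 1 1 4 (.G 4 62 1 42 84 84 [.n, .n,
  .g 3 1 4599 0, .g 4 1 4262 0]) (.C 1 2 8 1 (.C 0 1 1 8 (.L 20) (.T 1 2 (.L
  26) (.L 12))) (.L 3)))) (.C 0 2 1 4 (.T 1 1 (.T 2 1 (.T 4 1 (.G 60 165 3 1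
  1 1 [.n, .g 2 48 4365 0, .n]) (.L 30)) (.C 0 2 2 1 (.L 6) (.L 35))) (.C 0
  1 1 8 (.L 3) (.C 1 2 16 1 (.T 1 2 (.L 7) (.L 12)) (.L 3)))) (.C 0 2 1 8
  (.T 1 1 (.L 18) (.C 0 1 1 16 (.L 3) (.T 1 2 (.L 52) (.L 12)))) (.L 28)))))
  (.B 0 1 4 (.B 2 2 1 (.L 498) (.B 0 2 1 (.B 2 1 2 (.L 498) (.B 0 4 1 (.C 0
  2 8 1 (.B 2 1 4 (.L 401) (.T 1 1 (.T 2 1 (.T 4 1 (.T 8 1 (.C 1 2 4 1 (.C 0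
  1 4 1 (.C 1 2 4 1 (.L 5) (.C 0 2 32 1 (.L 5) (.G 1 68 3 276306 276306
  138153 [.n, .g 6 61 6 0, .n, .n]))) (.C 0 2 4 1 (.L 5) (.C 0 1 1 16 (.C 1
  2 1 4 (.L 1) (.C 0 2 1 2 (.L 1) (.T 16 1 (.L 249) (.C 1 2 1 8 (.C 0 1 2 1
  (.G 211 68 3 127689 510756 510756 [.n, .g 13 21 8 0, .g 64 35 12 0, .n,
  .n]) (.L 105)) (.G 74 198 1 129995 519979 32499 [.n, .n, .g 64 0 33 0,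
  .n]))))) (.C 1 2 8 1 (.L 172) (.C 1 2 1 2 (.L 172) (.C 0 2 1 4 (.G 75 172
  3 1 1 1 [.n, .g 12 65 0 0, .g 16 63 0 0]) (.G 180 391 2 8 4 1 [.g 3 8 8235
  0, .g 8 5 0 0, .n, .n]))))))) (.C 1 2 1 2 (.L 204) (.O 4))) (.L 24)) (.L
  21)) (.L 6)) (.C 0 1 4 1 (.T 1 2 (.T 2 1 (.L 4) (.C 1 2 2 1 (.L 4) (.L
  16))) (.T 1 4 (.C 1 2 2 1 (.L 2) (.C 1 2 1 2 (.L 2) (.L 9))) (.C 0 1 8 1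
  (.C 1 2 1 1 (.C 1 2 2 1 (.C 1 2 4 1 (.T 1 8 (.L 2) (.C 1 2 8 1 (.L 197)
  (.T 1 16 (.L 440) (.T 1 32 (.L 116) (.O 4))))) (.T 1 8 (.L 2) (.T 1 16 (.L
  197) (.O 4)))) (.T 1 8 (.L 38) (.O 4))) (.O 4)) (.G 337 263 2 219 110 219
  [.g 10 0 63 0, .n, .g 1 1 1007 0, .g 1 1 1368 0, .n, .n])))) (.C 1 2 4 1
  (.C 0 1 1 2 (.L 70) (.C 1 2 8 1 (.C 0 1 1 4 (.L 8) (.T 1 2 (.L 4) (.L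
  12))) (.L 8))) (.C 1 2 1 2 (.L 3) (.T 1 2 (.G 62 4 3 5 40 10 [.n, .g 1 1
  701 0, .n, .n]) (.L 3))))))) (.C 0 2 1 2 (.T 1 1 (.T 2 1 (.C 0 1 1 4 (.G
  507 86 3 1 1 1 [.n, .n, .n, .g 2 0 1093 0, .g 1 0 1606 0]) (.T 4 1 (.T 8 1
  (.C 1 2 8 1 (.C 0 1 1 8 (.C 0 1 2 1 (.G 124 420 1 10 41 20 [.g 1 0 556 0,
  .n, .g 1 0 1100 0, .g 5 1 68 0]) (.L 288)) (.L 243)) (.G 443 379 1 1 1 1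
  [.n, .g 1 0 2608 0, .g 1 0 3038 0, .g 1 0 1961 0])) (.L 24)) (.L 30))) (.L
  6)) (.C 0 1 1 4 (.G 4 404 1 46 92 92 [.n, .n, .g 2 1 3314 0, .g 4 1 4514
  0]) (.C 1 2 8 1 (.C 0 1 1 8 (.L 20) (.T 1 2 (.L 26) (.L 12))) (.L 3))))
  (.C 0 2 1 4 (.T 1 1 (.T 2 1 (.T 4 1 (.G 168 153 3 1326 166 2652 [.n, .n,
  .n, .g 10 6 61 0]) (.L 30)) (.C 0 2 2 1 (.L 6) (.L 35))) (.C 0 1 1 8 (.L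
  3) (.C 1 2 16 1 (.T 1 2 (.L 7) (.L 12)) (.L 3)))) (.C 0 2 1 8 (.T 1 1 (.L
  18) (.C 0 1 1 16 (.L 3) (.T 1 2 (.L 52) (.L 12)))) (.L 28))))) (.L 401)))
  (.L 498))) (.L 315))) (by decide +kernel)

theorem CS0_c3 : CoF CSTab ⟨⟨12218, 11392, 160000⟩, ⟨6776, 5088, 80000⟩,
  ⟨1694, 1576, 20000⟩, ⟨0, 1⟩, ⟨2, 1⟩, ⟨1, 0, 0⟩, ⟨0, 1, 0⟩, ⟨0, 1, 1⟩⟩ :=
CoF.ofG CSTab_B CSBt_E CSBt_U (.B 2 8 1 (.L 140) (.B 0 1 2 (.C 0 2 8 1 (.B 2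
  1 2 (.B 1 1 1 (.B 0 1 2 (.B 2 1 1 (.L 193) (.B 0 2 1 (.B 2 1 2 (.L 193)
  (.B 0 4 1 (.B 1 1 2 (.T 1 1 (.T 2 1 (.T 4 1 (.T 8 1 (.C 1 2 4 1 (.C 0 1 4
  1 (.C 1 2 4 1 (.L 5) (.C 0 2 32 1 (.L 5) (.G 158 5 1 212351 212351 106176
  [.g 64 11 12 0, .g 64 13 13 0, .n, .n, .n]))) (.C 0 2 4 1 (.L 5) (.C 1 2 8
  1 (.C 0 1 1 16 (.G 1 29 1 65780 131560 65780 [.n, .g 13 32 0 0, .n, .n])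
  (.L 152)) (.C 0 2 1 2 (.C 0 1 1 1 (.L 5) (.C 1 2 2 1 (.T 16 1 (.G 32 29 1
  7 3 14 [.n, .g 65 1 4087 0, .n, .n, .n, .g 64 39 0 0]) (.C 0 1 1 2 (.G 123
  1 1 38 76 76 [.g 64 23 0 0, .g 7 16 0 0, .n, .n, .n, .n]) (.L 69))) (.C 0
  2 1 1 (.G 54 1 1 2 4 4 [.n, .n, .n, .g 8 5 0 0, .g 1 0 42627 0, .g 1 0
  42545 0]) (.T 16 1 (.G 5 32 0 4551 4551 2275 [.n, .g 5 2 274 0, .n, .n])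
  (.G 54 1 1 2 2 1 [.g 32 1 0 0, .n, .g 15 16 0 0, .g 2 3 0 0, .n, .n])))))
  (.T 16 1 (.C 0 1 1 2 (.C 1 2 1 8 (.T 32 1 (.O 4) (.C 1 2 2 1 (.T 1 2 (.O
  4) (.G 32 89 0 1 1 1 [.g 1 0 370 0, .n, .n, .n, .n, .n])) (.O 4))) (.O 4))
  (.L 59)) (.C 0 1 1 2 (.C 0 1 2 1 (.T 1 2 (.C 1 2 1 16 (.C 1 2 2 1 (.G 225
  1 1 17 67 268 [.g 1 1 49 0, .n, .n, .n, .n, .n]) (.G 232 248 0 158860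
  2541753 1270877 [.g 64 0 29 0, .n, .n, .n])) (.G 145 475 0 172903 1383225
  43226 [.g 3 4 0 0, .n, .n])) (.L 24)) (.L 54)) (.G 124 100 3 235 59 29
  [.n, .n, .g 7 13 8701 0, .g 8 5 0 0]))))))) (.C 1 2 1 2 (.L 25) (.O 4)))
  (.L 24)) (.L 45)) (.L 6)) (.C 0 1 4 1 (.T 1 2 (.T 2 1 (.L 7) (.T 1 2 (.C 1
  2 2 1 (.L 33) (.L 16)) (.L 48))) (.C 1 2 2 1 (.C 1 2 4 1 (.T 1 4 (.L 2)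
  (.C 1 2 8 1 (.T 1 8 (.L 2) (.C 1 2 16 1 (.L 464) (.L 195))) (.T 1 8 (.L 2)
  (.T 1 16 (.L 218) (.L 112))))) (.T 1 4 (.L 2) (.T 1 8 (.L 2) (.T 1 16 (.C
  1 2 1 2 (.L 17) (.L 112)) (.O 4))))) (.T 1 4 (.C 1 2 1 2 (.L 2) (.L 9))
  (.L 50)))) (.C 1 2 4 1 (.C 0 1 1 2 (.T 1 2 (.L 4) (.L 3)) (.C 1 2 8 1 (.C
  0 1 1 4 (.L 8) (.T 1 2 (.L 4) (.L 12))) (.L 8))) (.C 1 2 1 2 (.T 1 2 (.L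
  4) (.L 3)) (.T 1 2 (.G 4 57 2 9 69 17 [.n, .n, .g 1 0 1427 0, .g 6 1 4217
  0]) (.L 3)))))) (.L 140)) (.B 0 1 2 (.B 1 1 4 (.B 2 1 4 (.L 193) (.B 0 2 1
  (.T 1 1 (.T 2 1 (.T 4 1 (.T 8 1 (.C 1 2 4 1 (.C 0 1 4 1 (.C 1 2 4 1 (.L 5)
  (.C 0 2 32 1 (.L 5) (.G 47 5 1 212535 212535 106268 [.g 64 13 13 0, .n,
  .n, .g 256 1 1 0]))) (.C 0 2 4 1 (.L 5) (.C 1 2 8 1 (.C 0 1 1 16 (.G 1 29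
  1 65780 131560 65780 [.n, .g 13 32 0 0, .n, .n]) (.L 152)) (.B 2 1 8 (.L
  193) (.C 0 2 1 2 (.C 0 1 1 1 (.L 5) (.C 1 2 2 1 (.T 16 1 (.G 32 250 1 8 4
  17 [.n, .g 128 3 0 0, .n, .n, .n, .g 32 31 0 0]) (.C 0 1 1 2 (.G 89 1 1 38
  76 76 [.g 64 23 0 0, .g 29 65 0 0, .n, .n, .n, .n]) (.L 69))) (.C 0 2 1 1
  (.G 54 1 1 2 4 4 [.n, .n, .n, .g 64 39 0 0, .g 1 0 42629 0, .g 1 0 42548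
  0]) (.T 16 1 (.G 32 5 1 4568 4568 2284 [.g 1 1 220 0, .n, .n, .n, .n, .n])
  (.G 54 1 1 2 2 1 [.g 32 1 0 0, .n, .g 61 64 0 0, .g 43 64 0 0, .n,
  .n]))))) (.T 16 1 (.C 0 1 1 2 (.C 1 2 1 8 (.T 32 1 (.O 4) (.C 1 2 2 1 (.T
  1 2 (.O 4) (.G 32 123 0 1 1 1 [.g 1 0 370 0, .n, .n, .n, .n, .n])) (.O
  4))) (.O 4)) (.L 59)) (.C 0 1 1 2 (.C 0 1 2 1 (.T 1 2 (.C 1 2 1 16 (.C 1 2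
  2 1 (.G 225 1 1 17 66 265 [.g 5 6 63 0, .n, .n, .n, .n, .n]) (.G 232 248 0
  158809 2540939 1270470 [.g 64 0 29 0, .n, .n, .n])) (.G 347 420 1 163221
  1305765 40805 [.n, .n, .n, .g 32 27 0 0, .n])) (.L 24)) (.L 54)) (.G 124
  100 3 235 59 29 [.n, .n, .g 3 5 3725 0, .g 8 5 0 0])))))))) (.C 1 2 1 2
  (.L 25) (.O 4))) (.L 24)) (.L 45)) (.L 6)) (.C 0 1 4 1 (.T 1 2 (.T 2 1 (.L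
  7) (.T 1 2 (.C 1 2 2 1 (.L 33) (.L 16)) (.L 48))) (.C 1 2 2 1 (.C 1 2 4 1
  (.T 1 4 (.L 2) (.C 1 2 8 1 (.T 1 8 (.L 2) (.T 1 16 (.L 42) (.L 116))) (.T
  1 8 (.L 2) (.T 1 16 (.L 218) (.L 411))))) (.T 1 4 (.L 2) (.T 1 8 (.L 2)
  (.C 0 2 32 1 (.T 1 16 (.C 1 2 1 1 (.L 353) (.L 112)) (.O 4)) (.G 417 370 3
  8388607 8388607 4194304 [.n, .n, .n, .n, .n, .n, .n, .g 64 39 0 0])))))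
  (.T 1 4 (.C 1 2 1 2 (.L 2) (.L 9)) (.L 50)))) (.C 1 2 4 1 (.C 0 1 1 2 (.T
  1 2 (.L 4) (.L 3)) (.C 1 2 8 1 (.C 0 1 1 4 (.L 8) (.T 1 2 (.L 4) (.L 12)))
  (.L 8))) (.C 1 2 1 2 (.T 1 2 (.L 4) (.L 3)) (.T 1 2 (.G 4 155 1 7 56 14
  [.n, .n, .g 1 0 1716 0, .g 3 1 3895 0]) (.L 3)))))) (.L 193))) (.B 2 2 1
  (.L 140) (.B 0 4 1 (.B 2 1 2 (.L 140) (.B 0 8 1 (.T 1 1 (.T 2 1 (.T 4 1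
  (.T 8 1 (.C 1 2 4 1 (.C 0 1 4 1 (.C 1 2 4 1 (.L 5) (.C 0 2 32 1 (.L 5) (.G
  336 1 1 255041 255041 127521 [.g 16 3 3 0, .n, .n, .g 4096 23 22 0]))) (.C
  0 2 4 1 (.L 5) (.C 1 2 8 1 (.C 0 1 1 16 (.G 1 29 1 65780 131560 65780 [.n,
  .g 13 32 0 0, .n, .n]) (.L 152)) (.C 0 2 1 2 (.C 0 1 1 1 (.L 5) (.C 1 2 2
  1 (.T 16 1 (.G 32 29 1 7 4 14 [.n, .g 45 1 1638 0, .n, .n, .n, .g 64 51 0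
  0]) (.C 0 1 1 2 (.G 123 1 1 38 76 76 [.g 64 23 0 0, .g 4 9 0 0, .n, .n,
  .n, .n]) (.L 69))) (.C 0 2 1 1 (.G 54 1 1 2 4 4 [.n, .n, .n, .g 64 39 0 0,
  .g 1 0 42625 0, .g 1 0 42543 0]) (.T 16 1 (.G 32 5 1 4568 4568 2284 [.g 1
  1 220 0, .n, .n, .n, .n, .n]) (.G 54 1 1 2 2 1 [.g 32 1 0 0, .n, .g 61 64
  0 0, .g 43 65 0 0, .n, .n]))))) (.T 16 1 (.C 0 1 1 2 (.C 1 2 1 8 (.T 32 1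
  (.O 4) (.C 1 2 2 1 (.T 1 2 (.O 4) (.G 32 123 0 1 1 1 [.g 1 0 370 0, .n,
  .n, .n, .n, .n])) (.O 4))) (.O 4)) (.L 59)) (.T 1 2 (.C 0 1 1 2 (.C 0 1 2
  1 (.C 1 2 1 16 (.C 1 2 2 1 (.G 225 1 1 17 66 265 [.g 2 3 59 0, .n, .n, .n,
  .n, .n]) (.G 385 232 0 158809 2540939 1270470 [.n, .n, .g 7 16 9 0, .n]))
  (.G 308 273 3 166396 1331165 41599 [.n, .n, .n, .g 64 43 0 0])) (.L 54))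
  (.G 481 100 3 118 29 15 [.n, .g 21 64 0 0, .n, .n, .g 3 2 3684 0])) (.L
  24))))))) (.C 1 2 1 2 (.L 25) (.O 4))) (.L 24)) (.L 45)) (.L 6)) (.C 0 1 4
  1 (.T 1 2 (.T 2 1 (.L 7) (.T 1 2 (.C 1 2 2 1 (.L 33) (.L 16)) (.L 48)))
  (.C 1 2 2 1 (.C 1 2 4 1 (.T 1 4 (.L 2) (.C 1 2 8 1 (.T 1 8 (.L 2) (.C 1 2
  16 1 (.L 42) (.L 195))) (.T 1 8 (.L 2) (.T 1 16 (.L 218) (.L 112))))) (.T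
  1 4 (.L 2) (.T 1 8 (.L 2) (.C 0 2 32 1 (.T 1 16 (.C 1 2 1 1 (.L 353) (.L
  112)) (.O 4)) (.G 417 370 3 8388607 8388607 4194304 [.n, .n, .n, .n, .n,
  .n, .n, .g 64 39 0 0]))))) (.T 1 4 (.C 1 2 1 2 (.L 2) (.L 9)) (.L 50))))
  (.C 1 2 4 1 (.C 0 1 1 2 (.T 1 2 (.L 4) (.L 3)) (.C 1 2 8 1 (.C 0 1 1 4 (.L
  8) (.T 1 2 (.L 4) (.L 12))) (.L 8))) (.C 1 2 1 2 (.T 1 2 (.L 4) (.L 3))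
  (.T 1 2 (.G 7 155 1 6 51 13 [.n, .n, .g 2 0 4935 0, .g 1 1 2951 0]) (.L
  3)))))) (.L 140))) (.L 140)))) (.L 193)))) (.L 193))) (.L 283)) (.L 140))
  (.T 1 1 (.T 2 1 (.T 4 1 (.T 8 1 (.C 1 2 4 1 (.C 0 1 4 1 (.C 1 2 4 1 (.L 5)
  (.C 0 2 32 1 (.L 5) (.G 289 1 1 254510 254510 127255 [.n, .n, .g 32 5 5 0,
  .g 64 11 11 0]))) (.C 0 2 4 1 (.L 5) (.C 1 2 8 1 (.C 0 1 1 16 (.G 29 1 1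
  65780 131560 65780 [.n, .g 32 13 0 0, .n, .n]) (.L 29)) (.C 0 2 1 2 (.C 0
  1 1 1 (.L 5) (.C 1 2 2 1 (.T 16 1 (.G 32 29 1 7 3 14 [.n, .g 65 1 4087 0,
  .n, .n, .n, .g 16 13 0 0]) (.T 1 2 (.C 0 1 1 2 (.G 134 1 1 21 43 43 [.g 32
  11 0 0, .n, .n, .g 32 9 0 0]) (.L 105)) (.L 24))) (.C 0 2 1 1 (.G 132 1 1
  3 6 6 [.g 32 1 0 0, .g 1 0 404 0, .n, .n, .g 64 59 0 0, .g 11 16 0 0]) (.T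
  16 1 (.G 32 5 1 4533 4533 2266 [.g 1 1 220 0, .n, .n, .n, .n, .n]) (.T 1 2
  (.G 132 1 1 3 3 1 [.g 32 1 0 0, .n, .n, .g 31 32 0 0, .n, .n]) (.L
  24)))))) (.T 16 1 (.C 0 1 1 2 (.C 1 2 1 8 (.T 32 1 (.O 4) (.C 1 2 2 1 (.T
  1 2 (.O 4) (.G 32 449 0 1 1 1 [.g 1 0 369 0, .n, .n, .n, .n, .n])) (.O
  4))) (.O 4)) (.L 59)) (.C 0 1 1 2 (.C 0 1 2 1 (.T 1 2 (.C 1 2 1 16 (.C 1 2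
  2 1 (.G 321 1 1 24 97 386 [.g 5 8 0 0, .n, .n, .n, .n, .n]) (.G 232 385 2
  158918 2542693 1271347 [.g 32 0 15 0, .n, .n, .n])) (.G 144 235 3 300310
  2402484 75078 [.n, .n, .g 16 0 5 0, .n])) (.L 24)) (.G 105 54 1 100 50 6
  [.g 8 5 0 0, .n, .n, .g 1 1 709 0])) (.G 124 100 3 233 58 29 [.n, .n, .g
  25 49 32438 0, .g 8 5 0 0]))))))) (.C 1 2 1 2 (.L 25) (.O 4))) (.L 24))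
  (.L 45)) (.L 6)) (.C 0 1 4 1 (.T 1 2 (.T 2 1 (.L 7) (.T 1 2 (.C 1 2 2 1
  (.L 33) (.L 16)) (.L 16))) (.C 1 2 2 1 (.T 1 4 (.L 2) (.C 0 1 8 1 (.C 1 2
  2 1 (.T 1 8 (.L 2) (.T 1 16 (.L 17) (.C 1 2 4 1 (.T 1 32 (.L 116) (.C 1 2
  8 1 (.L 116) (.L 112))) (.L 112)))) (.T 1 8 (.L 2) (.L 50))) (.L 78))) (.T
  1 4 (.C 1 2 1 2 (.L 2) (.L 9)) (.L 50)))) (.C 1 2 4 1 (.C 0 1 1 2 (.T 1 2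
  (.L 4) (.L 3)) (.C 1 2 8 1 (.C 0 1 1 4 (.L 8) (.T 1 2 (.L 4) (.L 12))) (.L
  8))) (.C 1 2 1 2 (.T 1 2 (.L 4) (.L 3)) (.T 1 2 (.G 4 57 2 9 69 17 [.n,
  .n, .g 1 0 1425 0, .g 6 1 4224 0]) (.L 3))))))) (.C 0 2 1 2 (.T 1 1 (.T 2
  1 (.C 1 2 8 1 (.C 0 1 1 4 (.C 0 1 2 1 (.C 0 2 4 1 (.L 272) (.G 25 82 3 39
  19 19 [.g 64 23 0 0, .n, .n])) (.C 0 1 1 2 (.G 244 227 4 3 5 3 [.n, .n,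
  .n, .g 31 63 0 0]) (.T 4 1 (.G 168 24 0 362265 90566 181132 [.n, .n, .n,
  .g 4 61 11 0]) (.L 61)))) (.C 0 1 1 8 (.T 4 1 (.T 8 1 (.C 1 2 1 1 (.C 0 2
  4 1 (.G 91 254 4 15 30 121 [.g 15 2 4098 0, .n, .g 7 1 7840 0, .g 64 7 0
  0]) (.G 257 491 3 31052 7763 15526 [.g 35 10 64 0, .g 30 9 65 0, .n, .n]))
  (.G 510 161 3 10610 42439 21220 [.n, .g 45 22 64 0, .n, .g 64 29 26 0, .n,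
  .n])) (.L 24)) (.L 61)) (.L 111))) (.G 480 66 3 1 1 1 [.n, .n, .g 4096 1 0
  0, .n, .g 64 0 47 0, .n])) (.L 6)) (.C 0 1 1 4 (.G 4 70 3 31 62 62 [.n,
  .n, .g 32 15 0 0, .g 16 5 0 0]) (.C 1 2 8 1 (.C 0 1 1 8 (.L 20) (.T 1 2
  (.L 26) (.L 12))) (.L 3)))) (.C 0 2 1 4 (.T 1 1 (.T 2 1 (.T 4 1 (.G 40 60
  1 1 1 1 [.n, .n, .n, .g 2 1 1930 0]) (.L 30)) (.C 0 2 2 1 (.L 6) (.L 18)))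
  (.C 0 1 1 8 (.L 3) (.C 1 2 16 1 (.T 1 2 (.L 7) (.L 12)) (.L 3)))) (.C 0 2
  1 8 (.T 1 1 (.L 18) (.C 0 1 1 16 (.L 3) (.T 1 2 (.L 52) (.L 12)))) (.L
  28))))) (.L 193))) (by decide +kernel)

theorem CS0_c4 : CoF CSTab ⟨⟨5442, 5088, 80000⟩, ⟨6776, 5088, 80000⟩,
  ⟨12218, 11392, 160000⟩, ⟨0, 1⟩, ⟨2, 1⟩, ⟨1, 0, 0⟩, ⟨0, 1, 0⟩, ⟨0, 1, 1⟩⟩
  :=
CoF.ofG CSTab_B CSBt_E CSBt_U (.C 0 2 8 1 (.T 1 1 (.T 2 1 (.T 4 1 (.T 8 1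
  (.C 1 2 4 1 (.C 0 1 4 1 (.C 1 2 4 1 (.L 5) (.C 0 2 32 1 (.L 5) (.G 382 1 1
  259204 259204 129602 [.n, .n, .g 64 12 11 0, .g 256 49 44 0]))) (.C 0 2 4
  1 (.L 5) (.C 0 1 1 16 (.C 1 2 1 4 (.C 1 2 2 1 (.L 5) (.C 0 1 8 1 (.C 0 2 4
  1 (.L 5) (.G 242 1 1 12 24 6 [.g 64 1 0 0, .n, .n, .g 64 51 0 0, .g 1 0
  41552 0, .g 1 1 43133 0])) (.G 138 1 1 63 32 16 [.g 64 15 0 0, .g 2 1 242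
  0, .n, .n, .g 1 1 20705 0, .g 1 2 21489 0]))) (.C 0 2 1 2 (.C 0 2 2 1 (.C
  0 1 4 1 (.L 5) (.T 16 1 (.G 32 5 1 293 146 146 [.g 16 1 3980 0, .n, .n,
  .n, .g 31 63 0 0, .g 7 62 0 0]) (.C 1 2 1 1 (.G 242 1 1 19 10 19 [.g 32 1
  0 0, .n, .n, .g 11 65 0 0, .n, .n]) (.L 5)))) (.T 16 1 (.T 32 1 (.O 4) (.C
  0 1 1 1 (.O 4) (.G 400 1 1 842075 421038 210519 [.g 256 7 1 0, .n, .n,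
  .n]))) (.C 0 1 1 1 (.L 5) (.C 1 2 1 2 (.G 242 1 1 12 6 12 [.g 64 1 0 0,
  .n, .n, .g 16 63 0 0, .n, .n]) (.L 1))))) (.T 16 1 (.C 1 2 1 8 (.T 32 1
  (.O 4) (.C 1 2 2 1 (.T 1 2 (.O 4) (.G 363 171 0 1 1 1 [.g 1 0 1026 0, .g 1
  0 104 0, .n, .n, .n, .n])) (.O 4))) (.O 4)) (.C 0 1 2 1 (.T 1 2 (.C 1 2 1
  16 (.C 1 2 2 1 (.G 211 1 1 69747 278987 1115947 [.n, .g 64 11 20 0, .g 32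
  8 3 0, .n, .n]) (.G 144 232 0 157989 2527824 1263912 [.n, .n, .g 9 32 19
  0, .n])) (.G 468 47 0 368390 2947120 92098 [.n, .g 64 19 0 0, .n, .n,
  .n])) (.L 24)) (.C 1 2 1 8 (.G 242 105 0 2 1 2 [.n, .n, .g 1 2 0 0, .g 49
  64 0 0, .n, .n]) (.G 54 144 2 16 16 1 [.n, .n, .n, .n, .g 1 0 36858 0, .g
  1 0 38222 0])))))) (.C 1 2 8 1 (.L 29) (.C 1 2 1 2 (.G 55 29 1 131560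
  65780 131560 [.g 64 23 1 0, .g 4 0 1 0, .n, .n, .g 64 17 0 0]) (.T 16 1
  (.G 59 1 1 275895 275895 68974 [.g 32 13 0 0, .n, .n, .n]) (.C 0 2 1 4 (.G
  340 89 1 1 1 1 [.g 6 13 0 0, .n, .n, .n, .n, .n]) (.G 75 105 3 44 22 5
  [.n, .g 43 64 0 0, .g 6 1 3794 0])))))))) (.C 1 2 1 2 (.L 25) (.O 4))) (.L
  24)) (.L 45)) (.L 6)) (.C 0 1 4 1 (.T 1 2 (.T 2 1 (.L 7) (.T 1 2 (.C 1 2 2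
  1 (.L 33) (.L 16)) (.L 16))) (.T 1 4 (.C 1 2 2 1 (.L 2) (.C 1 2 1 2 (.L 2)
  (.L 9))) (.C 0 1 8 1 (.C 1 2 1 1 (.C 1 2 2 1 (.T 1 8 (.L 2) (.T 1 16 (.L
  38) (.C 1 2 4 1 (.C 1 2 8 1 (.L 116) (.T 1 32 (.L 116) (.O 4))) (.O 4))))
  (.T 1 8 (.T 2 1 (.L 2) (.L 446)) (.O 4))) (.O 4)) (.G 402 222 0 131 66 131
  [.g 4 0 21 0, .n, .n, .n, .n, .n, .g 2 1 3453 0, .g 2 1 4723 0])))) (.C 1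
  2 4 1 (.C 0 1 1 2 (.T 1 2 (.L 4) (.L 3)) (.C 1 2 8 1 (.C 0 1 1 4 (.L 8)
  (.T 1 2 (.L 4) (.L 12))) (.L 8))) (.T 1 2 (.G 434 26 1 1 4 2 [.n, .n, .n,
  .n, .g 128 23 0 0]) (.L 3))))) (.C 0 2 1 2 (.T 1 1 (.T 2 1 (.C 1 2 8 1 (.C
  0 1 1 4 (.C 0 1 2 1 (.C 0 2 4 1 (.L 272) (.G 25 253 3 391 196 196 [.g 64
  23 0 0, .n, .n])) (.C 0 1 1 2 (.G 244 104 2 7 14 7 [.n, .n, .n, .g 32 65 0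
  0]) (.T 4 1 (.G 24 129 1 361061 90265 180530 [.g 64 0 11 0, .n, .n]) (.L
  61)))) (.T 4 1 (.C 0 1 1 8 (.T 8 1 (.C 1 2 1 1 (.C 0 1 2 1 (.T 16 1 (.O 4)
  (.G 318 47 0 4 16 16 [.g 64 15 0 0, .n, .g 64 21 0 0, .g 17 3 8250 0]))
  (.G 55 338 3 1066 533 1066 [.n, .g 5 1 126 0, .g 64 23 0 0, .n, .n])) (.G
  244 24 0 17530 70119 35060 [.n, .n, .n, .g 32 19 0 0])) (.L 24)) (.L 84))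
  (.L 30))) (.G 480 44 1 1 1 1 [.n, .n, .g 8192 1 0 0, .n, .g 32 0 25 0,
  .n])) (.L 6)) (.C 0 1 1 4 (.G 4 404 1 44 88 88 [.n, .n, .g 2 1 3500 0, .g
  3 1 3672 0]) (.C 1 2 8 1 (.C 0 1 1 8 (.L 20) (.T 1 2 (.L 26) (.L 12))) (.L
  3)))) (.C 0 2 1 4 (.T 1 1 (.T 2 1 (.T 4 1 (.G 44 178 3 1 1 1 [.n, .g 1 3
  2306 0, .n, .n]) (.L 30)) (.C 0 2 2 1 (.L 6) (.L 35))) (.C 0 1 1 8 (.L 3)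
  (.C 1 2 16 1 (.T 1 2 (.L 7) (.L 12)) (.L 3)))) (.C 0 2 1 8 (.T 1 1 (.L 18)
  (.C 0 1 1 16 (.L 3) (.C 1 2 32 1 (.T 1 2 (.L 52) (.L 12)) (.L 3)))) (.L
  28))))) (by decide +kernel)

theorem CS0_c5 : CoF CSTab ⟨⟨2054, 1936, 40000⟩, ⟨3388, 1936, 40000⟩, ⟨5442,
  5088, 80000⟩, ⟨0, 1⟩, ⟨2, 1⟩, ⟨1, 0, 0⟩, ⟨0, 1, 0⟩, ⟨0, 1, 1⟩⟩ :=
CoF.ofG CSTab_B CSBt_E CSBt_U (.B 0 1 1 (.B 2 1 2 (.C 0 2 8 1 (.T 1 1 (.T 2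
  1 (.T 4 1 (.T 8 1 (.C 1 2 4 1 (.C 0 1 4 1 (.C 1 2 4 1 (.L 5) (.C 0 2 32 1
  (.L 5) (.G 1 68 3 292252 292252 146126 [.n, .g 6 61 5 0, .n, .n]))) (.C 0
  2 4 1 (.L 5) (.C 0 1 1 16 (.C 1 2 1 4 (.L 1) (.C 0 2 1 2 (.L 1) (.T 16 1
  (.L 59) (.C 1 2 1 8 (.G 100 427 2 343882 687764 1375529 [.n, .n, .g 256 0
  11 0, .g 1024 0 53 0, .n]) (.G 68 158 1 145971 583884 36493 [.n, .n, .n,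
  .g 32 0 7 0]))))) (.C 1 2 8 1 (.L 84) (.C 0 2 1 4 (.G 118 29 1 94094 47047
  188188 [.g 32 13 0 0, .n, .n, .g 32 6 7 0, .g 32 9 0 0]) (.G 107 85 1 210
  52 26 [.g 135 7 8194 0, .n, .g 1 1 1347 0, .g 64 11 0 0])))))) (.C 1 2 1 2
  (.L 25) (.O 4))) (.L 15)) (.L 21)) (.L 6)) (.C 0 1 4 1 (.T 1 2 (.T 2 1 (.L
  7) (.C 1 2 2 1 (.L 4) (.L 16))) (.T 1 4 (.C 1 2 2 1 (.L 2) (.C 1 2 1 2 (.L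
  2) (.L 9))) (.C 0 1 8 1 (.C 1 2 1 1 (.C 1 2 2 1 (.T 1 8 (.L 2) (.T 1 16
  (.L 38) (.C 1 2 4 1 (.C 1 2 8 1 (.L 76) (.T 1 32 (.L 116) (.O 4))) (.O
  4)))) (.T 1 8 (.T 2 1 (.L 2) (.L 131)) (.O 4))) (.O 4)) (.L 78)))) (.C 1 2
  4 1 (.C 0 1 1 2 (.G 62 114 2 1 1 1 [.g 64 27 0 0, .n, .n, .n]) (.C 1 2 8 1
  (.C 0 1 1 4 (.L 8) (.T 1 2 (.L 4) (.L 12))) (.L 8))) (.C 1 2 1 2 (.L 3)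
  (.T 1 2 (.G 4 3 3 8 60 15 [.n, .n, .g 1 0 1456 0, .g 3 1 3661 0]) (.L
  3)))))) (.C 0 2 1 2 (.T 1 1 (.T 2 1 (.C 0 1 1 4 (.G 228 86 3 1 1 1 [.n,
  .n, .g 1 0 2698 0, .g 3 13 33482 0]) (.T 4 1 (.T 8 1 (.C 1 2 8 1 (.C 0 1 1
  8 (.C 0 1 2 1 (.G 352 68 3 17051 68204 34102 [.n, .g 64 0 35 0, .n, .n,
  .n, .g 29 32 0 0]) (.C 0 2 1 2 (.G 55 146 3 161 80 321 [.n, .g 5 8 0 0, .g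
  64 59 0 0, .n, .n]) (.L 102))) (.L 243)) (.C 0 2 1 1 (.L 25) (.O 4))) (.L
  15)) (.L 30))) (.L 6)) (.C 0 1 1 4 (.G 4 3 3 39 79 79 [.n, .n, .g 3 1 4634
  0, .g 4 1 4315 0]) (.C 1 2 8 1 (.C 0 1 1 8 (.L 20) (.T 1 2 (.L 26) (.L
  12))) (.L 3)))) (.C 0 2 1 4 (.T 1 1 (.T 2 1 (.T 4 1 (.G 60 299 3 1 1 1
  [.n, .g 1 18 1792 0, .n]) (.L 30)) (.C 0 2 2 1 (.L 6) (.L 49))) (.C 0 1 1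
  8 (.L 3) (.C 1 2 16 1 (.T 1 2 (.L 7) (.L 12)) (.L 3)))) (.C 0 2 1 8 (.T 1
  1 (.L 18) (.T 1 2 (.L 18) (.L 12))) (.L 28))))) (.C 0 2 8 1 (.T 1 1 (.T 2
  1 (.T 4 1 (.T 8 1 (.C 1 2 4 1 (.C 0 1 4 1 (.C 1 2 4 1 (.L 5) (.C 0 2 32 1
  (.L 5) (.G 5 46 0 244643 244643 122322 [.n, .g 7 32 0 0, .n, .n]))) (.C 0
  2 4 1 (.L 5) (.C 0 1 1 16 (.C 1 2 1 4 (.L 1) (.G 36 1 1 23 91 11 [.g 850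
  11 32778 0, .n, .g 4 1 4493 0, .g 64 1 0 0])) (.C 1 2 8 1 (.L 29) (.C 0 2
  1 4 (.G 139 29 1 99423 49712 198847 [.g 64 11 17 0, .g 64 17 0 0, .g 16 9
  0 0, .n, .n]) (.G 107 254 4 227 57 28 [.g 145 7 8206 0, .n, .g 1 1 1297 0,
  .g 64 11 0 0])))))) (.C 1 2 1 2 (.L 46) (.O 4))) (.L 15)) (.L 21)) (.L 6))
  (.C 0 1 4 1 (.T 1 2 (.T 2 1 (.L 7) (.C 1 2 2 1 (.L 4) (.L 16))) (.T 1 4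
  (.C 1 2 2 1 (.L 2) (.C 1 2 1 2 (.L 2) (.L 9))) (.C 0 1 8 1 (.C 1 2 1 1 (.C
  1 2 2 1 (.T 1 8 (.L 2) (.T 1 16 (.L 38) (.C 1 2 4 1 (.C 1 2 8 1 (.L 76)
  (.T 1 32 (.L 116) (.O 4))) (.O 4)))) (.T 1 8 (.T 2 1 (.L 2) (.L 131)) (.O
  4))) (.O 4)) (.L 78)))) (.C 1 2 4 1 (.C 0 1 1 2 (.L 27) (.C 1 2 8 1 (.C 0
  1 1 4 (.L 8) (.T 1 2 (.L 4) (.L 12))) (.L 8))) (.C 1 2 1 2 (.L 3) (.T 1 2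
  (.G 7 62 1 8 61 15 [.n, .n, .g 2 0 4145 0, .g 1 1 2972 0]) (.L 3)))))) (.C
  0 2 1 2 (.T 1 1 (.T 2 1 (.C 1 2 8 1 (.T 4 1 (.C 0 1 1 4 (.G 46 15 0 15472
  30944 61889 [.g 48 65 0 0, .g 64 57 10 0, .n, .n]) (.C 0 1 1 8 (.C 0 2 2 1
  (.T 8 1 (.C 1 2 2 1 (.C 0 1 2 1 (.T 16 1 (.O 4) (.G 416 306 3 5 18 36 [.g
  32 5 0 0, .n, .g 64 29 0 0, .g 152 1 8166 0])) (.G 459 98 3 3769 1884 7538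
  [.g 64 21 0 0, .n, .g 15 4 62 0])) (.G 478 331 3 1 1 1 [.g 4096 1 0 0, .n,
  .n, .g 1024 1 880 0, .n, .n])) (.L 15)) (.G 168 119 3 3415 1708 1708 [.n,
  .n, .g 128 9 0 0, .g 4 1 22 0])) (.L 98))) (.G 466 104 1 1 1 1 [.g 1 1
  1815 0, .n, .n, .n])) (.G 350 44 1 1 1 1 [.g 64 0 45 0, .n, .g 8192 1 0 0,
  .n, .n, .n])) (.L 6)) (.C 0 1 1 4 (.G 4 114 3 295 590 590 [.n, .n, .g 2 1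
  0 0, .g 32 11 0 0]) (.C 1 2 8 1 (.C 0 1 1 8 (.L 20) (.T 1 2 (.L 26) (.L
  12))) (.L 3)))) (.C 0 2 1 4 (.T 1 1 (.T 2 1 (.T 4 1 (.G 239 60 1 1 1 1
  [.n, .n, .n, .g 80 2 4121 0]) (.L 30)) (.C 0 2 2 1 (.L 6) (.L 49))) (.C 0
  1 1 8 (.L 3) (.C 1 2 16 1 (.T 1 2 (.L 7) (.L 12)) (.L 3)))) (.C 0 2 1 8
  (.T 1 1 (.L 18) (.C 0 1 1 16 (.L 3) (.C 1 2 32 1 (.T 1 2 (.L 52) (.L 12))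
  (.L 3)))) (.L 28)))))) (.B 1 2 1 (.C 0 2 8 1 (.T 1 1 (.T 2 1 (.T 4 1 (.T 8
  1 (.C 1 2 4 1 (.C 0 1 4 1 (.C 1 2 4 1 (.L 5) (.C 0 2 32 1 (.L 5) (.G 1 68
  3 276358 276358 138179 [.n, .g 6 61 6 0, .n, .n]))) (.C 0 2 4 1 (.L 5) (.C
  0 1 1 16 (.C 1 2 1 4 (.L 1) (.C 0 2 1 2 (.L 1) (.G 85 46 0 114361 228722
  28590 [.g 32 11 0 0, .g 31 63 0 0, .n, .n]))) (.C 1 2 8 1 (.L 484) (.C 1 2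
  1 2 (.L 484) (.C 0 2 1 4 (.T 16 1 (.G 338 146 3 38 38 77 [.g 64 27 0 0,
  .n, .n, .n]) (.T 1 2 (.G 134 146 3 1 1 1 [.n, .g 10 63 0 0, .n, .g 7 22 0
  0]) (.L 24))) (.G 67 100 3 1058029 529014 132254 [.n, .g 64 0 5 0, .g 2 85
  4 0, .g 1 44 2 0, .n, .n]))))))) (.C 1 2 1 2 (.L 46) (.O 4))) (.L 24)) (.L
  21)) (.L 6)) (.C 0 1 4 1 (.T 1 2 (.T 2 1 (.L 4) (.C 1 2 2 1 (.L 4) (.L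
  16))) (.T 1 4 (.C 1 2 2 1 (.L 2) (.C 1 2 1 2 (.L 2) (.L 9))) (.C 0 1 8 1
  (.C 1 2 1 1 (.T 1 8 (.C 1 2 2 1 (.L 2) (.L 38)) (.C 1 2 2 1 (.C 1 2 4 1
  (.C 1 2 8 1 (.L 197) (.T 1 16 (.L 504) (.T 1 32 (.L 116) (.O 4)))) (.T 1
  16 (.L 197) (.O 4))) (.O 4))) (.O 4)) (.G 402 133 0 125 63 125 [.g 9 0 61
  0, .n, .n, .n, .n, .n, .g 8 3 0 0, .g 64 31 0 0])))) (.C 1 2 4 1 (.C 0 1 1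
  2 (.L 27) (.C 1 2 8 1 (.C 0 1 1 4 (.L 8) (.T 1 2 (.L 4) (.L 12))) (.L 8)))
  (.C 1 2 1 2 (.L 3) (.T 1 2 (.G 4 203 3 5 40 10 [.n, .n, .n, .g 1 0 1693
  0]) (.L 3)))))) (.C 0 2 1 2 (.T 1 1 (.T 2 1 (.C 1 2 8 1 (.C 0 1 1 4 (.C 0
  1 2 1 (.C 0 2 4 1 (.L 190) (.G 46 82 3 22 11 11 [.g 16 5 0 0, .n, .n,
  .n])) (.C 0 1 1 2 (.G 46 253 3 21 43 21 [.g 64 41 0 0, .n, .n, .n]) (.T 4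
  1 (.G 46 24 0 367175 91794 183588 [.g 64 11 0 0, .n, .n, .n]) (.L 61))))
  (.C 0 1 1 8 (.T 4 1 (.C 0 2 2 1 (.C 0 1 2 1 (.T 8 1 (.G 180 68 3 4 16 16
  [.g 1 0 2279 0, .g 32 11 0 0, .n, .n]) (.L 24)) (.G 24 146 3 1329 664 1329
  [.g 16 5 0 0, .n, .n])) (.G 24 276 3 2550 1275 1275 [.g 9 2 68 0, .n,
  .n])) (.L 61)) (.C 1 2 16 1 (.L 31) (.C 1 2 1 2 (.L 31) (.C 1 2 1 4 (.L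
  31) (.B 0 1 2 (.L 31) (.G 288 39 3 1 10 1 [.g 5 0 16 0, .n, .n, .g 22 63 0
  0]))))))) (.G 414 160 1 1 1 1 [.n, .g 8192 1 0 0, .n, .n, .n, .g 32 0 25
  0])) (.L 6)) (.C 0 1 1 4 (.G 4 222 0 29 59 59 [.n, .n, .g 2 1 4051 0, .g 3
  1 4084 0]) (.C 1 2 8 1 (.C 0 1 1 8 (.L 20) (.T 1 2 (.L 26) (.L 12))) (.L
  3)))) (.C 0 2 1 4 (.T 1 1 (.T 2 1 (.G 60 119 3 1 1 1 [.n, .g 1 10 1574 0,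
  .n]) (.C 0 2 2 1 (.L 6) (.L 49))) (.C 0 1 1 8 (.L 3) (.C 1 2 16 1 (.T 1 2
  (.L 7) (.L 12)) (.L 3)))) (.C 0 2 1 8 (.T 1 1 (.L 18) (.C 0 1 1 16 (.L 3)
  (.T 1 2 (.L 52) (.L 12)))) (.L 28))))) (.C 0 2 8 1 (.T 1 1 (.T 2 1 (.T 4 1
  (.T 8 1 (.C 1 2 4 1 (.C 0 1 4 1 (.C 1 2 4 1 (.L 5) (.C 0 2 32 1 (.L 5) (.G
  5 68 3 230423 230423 115211 [.n, .g 7 68 7 0, .n, .n]))) (.C 0 2 4 1 (.L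
  5) (.C 0 1 1 16 (.C 1 2 1 4 (.L 1) (.C 0 2 1 2 (.L 1) (.T 16 1 (.L 212)
  (.C 1 2 1 8 (.C 0 1 2 1 (.G 211 68 3 128317 513267 513267 [.n, .g 39 64 24
  0, .g 32 19 6 0, .n, .n]) (.L 105)) (.G 248 158 1 120613 482451 30153 [.g
  16 0 9 0, .n, .n, .n]))))) (.C 1 2 8 1 (.L 29) (.C 1 2 1 2 (.C 0 1 1 2 (.G
  139 29 1 90301 180603 90301 [.g 64 14 15 0, .g 32 7 0 0, .n, .n, .g 32 0 5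
  0]) (.G 118 146 3 876 219 438 [.n, .n, .g 64 15 0 0, .g 64 9 0 0, .g 64 9
  0 0])) (.T 16 1 (.C 0 2 1 4 (.B 2 1 1 (.C 0 2 2 1 (.B 2 2 1 (.G 250 288 3
  3761 3761 15045 [.n, .g 4 1 0 0, .n, .n]) (.L 288)) (.G 29 249 0 1373644
  343411 686822 [.n, .g 8 31 0 0, .n, .n])) (.G 55 484 3 7501 7501 15003 [.g
  64 23 0 0, .g 11 2 64 0, .n, .n, .g 64 21 0 0])) (.L 37)) (.T 1 2 (.G 448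
  356 2 1 1 1 [.g 1 0 1574 0, .n, .g 64 29 0 0, .n]) (.L 24)))))))) (.C 1 2
  1 2 (.L 25) (.O 4))) (.L 24)) (.L 21)) (.L 6)) (.C 0 1 4 1 (.T 1 2 (.T 2 1
  (.L 7) (.C 1 2 2 1 (.L 4) (.L 16))) (.T 1 4 (.C 1 2 2 1 (.L 2) (.C 1 2 1 2
  (.L 2) (.L 9))) (.C 0 1 8 1 (.C 1 2 1 1 (.C 1 2 2 1 (.T 1 8 (.L 2) (.C 1 2
  4 1 (.C 1 2 8 1 (.C 1 2 16 1 (.L 81) (.L 195)) (.T 1 16 (.L 218) (.T 1 32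
  (.L 116) (.O 4)))) (.T 1 16 (.L 38) (.O 4)))) (.T 1 8 (.T 2 1 (.L 2) (.L
  131)) (.O 4))) (.O 4)) (.L 78)))) (.C 1 2 4 1 (.C 0 1 1 2 (.G 62 320 0 1 1
  1 [.g 64 43 0 0, .n, .n, .n]) (.C 1 2 8 1 (.C 0 1 1 4 (.L 8) (.T 1 2 (.L
  4) (.L 12))) (.L 8))) (.C 1 2 1 2 (.L 3) (.T 1 2 (.G 4 3 3 8 63 16 [.n,
  .n, .g 1 0 1391 0, .g 3 1 3521 0]) (.L 3)))))) (.C 0 2 1 2 (.T 1 1 (.T 2 1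
  (.C 0 1 1 4 (.G 210 86 3 1 1 1 [.g 1 0 2327 0, .n, .n, .g 1 0 2753 0]) (.T
  4 1 (.T 8 1 (.C 1 2 8 1 (.C 0 1 1 8 (.C 0 1 2 1 (.C 1 2 1 2 (.G 384 420 1
  8 30 61 [.g 64 41 0 0, .n, .g 1 1 0 0, .g 22 3 4142 0]) (.L 25)) (.C 0 2 1
  2 (.G 85 146 3 198 99 395 [.n, .g 27 32 0 0, .g 29 32 0 0, .n]) (.L 102)))
  (.L 243)) (.C 0 2 1 1 (.L 25) (.O 4))) (.L 24)) (.L 30))) (.L 6)) (.C 0 1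
  1 4 (.G 4 57 2 62 124 124 [.n, .n, .g 64 25 0 0, .g 64 17 0 0]) (.C 1 2 8
  1 (.C 0 1 1 8 (.L 20) (.T 1 2 (.L 26) (.L 12))) (.L 3)))) (.C 0 2 1 4 (.T
  1 1 (.T 2 1 (.T 4 1 (.G 395 44 1 1 1 1 [.n, .n, .n, .g 17 2 4153 0]) (.L
  30)) (.C 0 2 2 1 (.L 6) (.L 49))) (.C 0 1 1 8 (.L 3) (.C 1 2 16 1 (.T 1 2
  (.L 7) (.L 12)) (.L 3)))) (.C 0 2 1 8 (.T 1 1 (.L 18) (.C 0 1 1 16 (.L 3)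
  (.T 1 2 (.L 52) (.L 12)))) (.L 28))))))) (by decide +kernel)

theorem CS0_c6 : CoF CSTab ⟨⟨360, 360, 20000⟩, ⟨2054, 720, 40000⟩, ⟨2054,
  1936, 40000⟩, ⟨0, 1⟩, ⟨2, 1⟩, ⟨1, 0, 0⟩, ⟨0, 1, 0⟩, ⟨0, 1, 1⟩⟩ :=
CoF.ofG CSTab_B CSBt_E CSBt_U (.B 2 1 2 (.B 1 1 1 (.B 0 1 2 (.B 1 1 2 (.L
  452) (.C 0 2 8 1 (.C 0 1 4 1 (.B 2 1 1 (.T 1 1 (.T 2 1 (.C 1 2 2 1 (.T 4 1
  (.T 8 1 (.C 1 2 4 1 (.L 5) (.L 19)) (.L 15)) (.L 92)) (.C 0 1 32 1 (.C 0 1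
  64 1 (.C 0 1 128 1 (.C 0 1 256 1 (.C 1 2 1 32 (.C 0 2 1024 1 (.C 0 2 2048
  1 (.C 0 2 4096 1 (.C 0 1 512 1 (.C 0 1 1024 1 (.C 0 2 8192 1 (.C 0 1 2048
  1 (.C 0 2 16384 1 (.T 4 1 (.C 0 2 32768 1 (.C 1 2 16 1 (.L 19) (.O 4)) (.G
  41 267 1 8388607 524288 4194304 [.g 64 5 39 0, .n, .g 1 0 1394 0, .g 1 0
  1473 0, .n, .n])) (.L 92)) (.G 354 65 1 8388607 1048576 4194304 [.n, .n,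
  .g 3 61 0 0, .g 1 22 0 0, .n, .n])) (.G 92 34 1 2097152 1048576 8388607
  [.g 64 7 14 0, .n, .g 1 146 335 0, .g 1 152 348 0, .n, .n])) (.G 125 19 1
  8388607 1048576 4194304 [.n, .n, .n, .g 9 47 61 0])) (.G 92 34 1 2097152
  1048576 8388607 [.g 64 7 7 0, .n, .g 2 292 329 0, .g 1 152 171 0, .n,
  .n])) (.G 92 136 1 1048576 524288 8388607 [.g 64 7 7 0, .n, .g 2 294 329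
  0, .g 1 152 171 0, .n, .n])) (.G 499 292 1 8388607 524288 4194304 [.g 15
  59 64 0, .g 5 7 7 0, .n, .n, .n])) (.G 125 83 1 8388607 1048576 4194304
  [.n, .n, .n, .g 12 62 19 0])) (.G 34 125 3 8388607 2097152 4194304 [.n, .g
  64 5 4 0, .n, .n])) (.O 4)) (.G 73 34 1 8388607 4194304 262144 [.g 32 1 0
  0, .n, .g 1 41 0 0, .g 1 43 0 0, .n, .n])) (.G 73 83 1 8388607 4194304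
  524288 [.g 64 1 0 0, .n, .g 1 41 0 0, .g 1 43 0 0, .n, .n])) (.G 101 34 1
  8388607 4194304 1048576 [.g 64 1 0 0, .n, .g 1 42 0 0, .g 1 44 0 0, .n,
  .n, .n, .n])) (.G 41 19 1 8388607 4194304 2097152 [.n, .n, .g 1 91 1 0, .g
  1 95 1 0, .n, .n]))) (.L 6)) (.T 1 2 (.T 2 1 (.L 4) (.C 1 2 2 1 (.L 4) (.L
  16))) (.T 1 4 (.C 1 2 2 1 (.L 2) (.C 1 2 1 2 (.L 2) (.L 9))) (.C 0 1 8 1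
  (.C 1 2 1 1 (.C 1 2 2 1 (.T 1 8 (.L 2) (.C 1 2 4 1 (.C 1 2 8 1 (.C 1 2 16
  1 (.L 81) (.L 195)) (.T 1 16 (.L 440) (.T 1 32 (.L 116) (.O 4)))) (.T 1 16
  (.L 38) (.O 4)))) (.T 1 8 (.L 38) (.O 4))) (.O 4)) (.L 3))))) (.B 2 1 2
  (.B 1 1 2 (.L 452) (.T 1 1 (.T 2 1 (.C 1 2 2 1 (.T 4 1 (.T 8 1 (.C 1 2 4 1
  (.L 5) (.L 19)) (.L 22)) (.L 92)) (.C 0 1 32 1 (.C 0 1 64 1 (.C 0 1 128 1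
  (.C 0 1 256 1 (.C 1 2 1 32 (.C 0 2 1024 1 (.C 0 1 512 1 (.C 0 2 2048 1 (.C
  0 2 4096 1 (.C 0 2 8192 1 (.C 0 1 1024 1 (.C 0 2 16384 1 (.C 0 1 2048 1
  (.T 4 1 (.L 73) (.L 92)) (.G 73 34 1 1048576 524288 8388607 [.n, .n, .g 1
  224 0 0, .g 1 233 0 0, .n, .n])) (.G 286 65 1 8388607 524288 4194304 [.n,
  .n, .g 1 12 40 0, .g 3 11 0 0])) (.G 73 34 1 1048576 524288 8388607 [.n,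
  .n, .g 1 224 0 0, .g 1 233 0 0, .n, .n])) (.G 286 65 1 8388607 524288
  4194304 [.n, .n, .g 3 37 60 0, .g 3 11 0 0])) (.G 125 34 1 8388607 1048576
  4194304 [.n, .n, .n, .g 6 31 20 0])) (.G 185 34 1 8388607 2097152 4194304
  [.n, .n, .n, .g 11 67 10 0])) (.G 73 19 1 4194304 2097152 8388607 [.n, .n,
  .g 1 225 0 0, .g 1 234 0 0, .n, .n])) (.G 185 34 1 8388607 2097152 4194304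
  [.n, .n, .n, .g 10 61 4 0])) (.O 4)) (.G 73 147 1 8388607 4194304 262144
  [.n, .n, .g 1 41 0 0, .g 1 43 0 0, .n, .n])) (.G 371 34 1 8388607 4194304
  524288 [.n, .n, .g 4 57 0 0, .g 2 31 0 0, .n, .n, .g 13 32 0 0, .g 3 8 0
  0])) (.G 41 19 1 8388607 4194304 1048576 [.n, .n, .g 1 87 1 0, .g 1 92 1
  0, .n, .n])) (.C 0 2 1 4 (.L 19) (.G 19 435 2 17 4 2 [.n, .g 2 1 5283 0,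
  .n, .n])))) (.L 6)) (.T 1 2 (.T 2 1 (.L 4) (.C 1 2 2 1 (.L 4) (.L 16)))
  (.C 1 2 2 1 (.T 1 4 (.L 2) (.C 0 1 8 1 (.C 1 2 2 1 (.T 1 8 (.L 2) (.T 1 16
  (.L 17) (.C 1 2 4 1 (.T 1 32 (.L 116) (.C 1 2 8 1 (.L 116) (.L 112))) (.L
  112)))) (.T 1 8 (.L 2) (.L 50))) (.L 3))) (.T 1 4 (.C 1 2 1 2 (.L 2) (.L
  9)) (.L 50)))))) (.L 452))) (.T 1 1 (.T 2 1 (.T 4 1 (.T 8 1 (.C 0 2 2 1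
  (.C 0 2 4 1 (.L 5) (.C 1 2 8 1 (.L 5) (.G 256 226 0 22640 22640 11320 [.g
  64 63 39 0, .n, .n, .n]))) (.C 1 2 4 1 (.T 16 1 (.L 238) (.L 53)) (.C 1 2
  1 2 (.L 19) (.O 4)))) (.L 15)) (.L 104)) (.L 6)) (.C 1 2 4 1 (.C 0 1 1 2
  (.L 27) (.C 1 2 8 1 (.C 0 1 1 4 (.L 8) (.T 1 2 (.L 4) (.L 12))) (.L 8)))
  (.L 186)))) (.C 0 2 1 2 (.T 1 1 (.T 2 1 (.C 0 1 1 4 (.G 19 82 3 3 6 6 [.g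
  16 5 0 0, .g 5 3 4120 0, .n, .n]) (.C 0 1 1 8 (.C 1 2 1 2 (.T 4 1 (.G 98
  97 0 535 1069 2139 [.n, .n, .n, .g 13 21 0 0]) (.L 148)) (.C 0 2 1 1 (.C 0
  2 2 1 (.C 0 1 4 1 (.T 4 1 (.G 324 226 0 17742 141937 70969 [.g 64 3 0 0,
  .n, .n, .n]) (.L 61)) (.L 19)) (.L 19)) (.L 418))) (.G 191 60 1 1 1 1 [.n,
  .n, .n, .g 120 1 1026 0]))) (.L 6)) (.C 0 1 1 4 (.L 20) (.C 1 2 8 1 (.C 0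
  1 1 8 (.L 20) (.T 1 2 (.L 26) (.L 12))) (.L 3)))) (.C 0 2 1 4 (.T 1 1 (.T
  2 1 (.G 94 239 3 1 1 1 [.n, .n, .g 1 19 258 0, .n]) (.C 0 2 2 1 (.L 6) (.L
  49))) (.C 0 1 1 8 (.L 3) (.C 1 2 16 1 (.T 1 2 (.L 7) (.L 12)) (.L 3))))
  (.C 0 2 1 8 (.T 1 1 (.L 18) (.C 0 1 1 16 (.L 3) (.T 1 2 (.L 52) (.L 12))))
  (.L 28)))))) (.B 1 2 1 (.L 174) (.B 1 1 2 (.L 174) (.B 2 2 1 (.B 2 4 1 (.C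
  0 2 8 1 (.B 1 1 4 (.L 472) (.C 0 1 4 1 (.T 1 1 (.T 2 1 (.C 1 2 2 1 (.T 4 1
  (.T 8 1 (.C 1 2 4 1 (.L 5) (.L 19)) (.L 15)) (.L 92)) (.C 0 1 32 1 (.C 0 1
  64 1 (.C 0 1 128 1 (.C 0 1 256 1 (.C 0 1 512 1 (.C 1 2 1 64 (.C 1 2 2 1
  (.C 0 2 4096 1 (.C 0 2 8192 1 (.C 0 2 16384 1 (.C 0 1 1024 1 (.C 0 1 2048
  1 (.C 0 2 32768 1 (.T 4 1 (.L 19) (.L 92)) (.G 83 125 3 8388607 524288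
  4194304 [.n, .g 33 3 64 0, .n, .n])) (.G 92 34 1 1048576 524288 8388607
  [.g 64 7 27 0, .n, .g 1 171 726 0, .g 1 178 755 0, .n, .n])) (.G 92 136 1
  524288 262144 8388607 [.g 64 7 27 0, .n, .g 1 172 726 0, .g 1 178 755 0,
  .n, .n])) (.G 6 34 1 8388607 262144 4194304 [.g 1 15 59 0, .n, .n, .g 5 16
  60 0])) (.G 354 65 1 8388607 524288 4194304 [.n, .n, .g 3 67 7 0, .g 3 72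
  8 0, .n, .n])) (.G 125 34 1 8388607 1048576 4194304 [.n, .n, .n, .g 11 61
  38 0])) (.O 4)) (.O 4)) (.C 1 2 1 32 (.G 494 83 1 8388607 4194304 8388607
  [.g 64 12 1 0, .n, .g 2 291 32 0, .g 1 153 17 0, .n, .n, .n, .n]) (.C 0 2
  1 64 (.G 307 388 0 4194304 4194304 8388607 [.n, .n, .g 2 0 57 0, .g 1 0 30
  0, .n, .n, .g 1 0 36 0, .g 2 0 75 0, .n, .n]) (.O 4)))) (.G 73 34 1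
  8388607 4194304 262144 [.g 32 1 0 0, .n, .g 2 83 0 0, .g 1 43 0 0, .n,
  .n])) (.G 73 34 1 8388607 4194304 524288 [.g 64 1 0 0, .n, .g 1 41 0 0, .g
  1 43 0 0, .n, .n])) (.G 113 83 1 8388607 4194304 1048576 [.g 64 1 0 0, .n,
  .g 2 83 0 0, .g 1 44 0 0, .n, .n])) (.G 41 34 1 8388607 4194304 2097152
  [.n, .n, .g 1 90 1 0, .g 1 95 1 0, .n, .n]))) (.L 6)) (.T 1 2 (.T 2 1 (.L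
  4) (.C 1 2 2 1 (.L 4) (.L 16))) (.T 1 4 (.C 1 2 2 1 (.L 2) (.C 1 2 1 2 (.L
  2) (.L 9))) (.C 0 1 8 1 (.C 1 2 1 1 (.C 1 2 2 1 (.T 1 8 (.L 2) (.C 1 2 4 1
  (.C 1 2 8 1 (.L 344) (.T 1 16 (.L 440) (.T 1 32 (.L 467) (.O 4)))) (.T 1
  16 (.L 81) (.O 4)))) (.T 1 8 (.L 38) (.O 4))) (.O 4)) (.L 3))))) (.T 1 1
  (.T 2 1 (.T 4 1 (.T 8 1 (.C 0 2 2 1 (.C 0 2 4 1 (.L 5) (.C 1 2 8 1 (.L 5)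
  (.G 256 79 0 16045 16045 8022 [.g 49 64 39 0, .n, .n, .n]))) (.C 1 2 4 1
  (.T 16 1 (.L 312) (.L 53)) (.C 1 2 1 2 (.L 19) (.O 4)))) (.L 15)) (.L
  104)) (.L 6)) (.C 1 2 4 1 (.C 0 1 1 2 (.L 27) (.C 1 2 8 1 (.C 0 1 1 4 (.L
  8) (.T 1 2 (.L 26) (.L 12))) (.L 8))) (.L 186))))) (.C 0 2 1 2 (.T 1 1 (.T
  2 1 (.C 0 1 1 4 (.G 19 366 3 3 6 6 [.g 16 5 0 0, .g 1 1 2834 0, .n, .n])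
  (.C 0 1 1 8 (.C 1 2 1 2 (.T 4 1 (.G 223 126 0 402 803 1606 [.n, .n, .n, .g
  15 32 0 0]) (.L 66)) (.C 0 2 1 1 (.C 0 2 2 1 (.C 0 1 4 1 (.T 4 1 (.G 274
  226 0 25848 206782 103391 [.g 64 59 31 0, .n, .n, .n]) (.L 61)) (.L 19))
  (.L 19)) (.L 418))) (.G 60 98 3 1 1 1 [.n, .g 1 230 1428 0, .n]))) (.L 6))
  (.C 0 1 1 4 (.L 20) (.C 1 2 8 1 (.C 0 1 1 8 (.L 20) (.T 1 2 (.L 26) (.L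
  12))) (.L 3)))) (.C 0 2 1 4 (.T 1 1 (.T 2 1 (.G 94 191 3 1 1 1 [.n, .n, .g
  1 24 253 0, .n]) (.C 0 2 2 1 (.L 6) (.L 49))) (.C 0 1 1 8 (.L 3) (.C 1 2
  16 1 (.T 1 2 (.L 7) (.L 12)) (.L 3)))) (.C 0 2 1 8 (.T 1 1 (.L 18) (.C 0 1
  1 16 (.L 3) (.T 1 2 (.L 52) (.L 12)))) (.L 28))))) (.L 472)) (.L 174)))))
  (.B 2 2 1 (.C 0 2 8 1 (.T 1 1 (.T 2 1 (.T 4 1 (.T 8 1 (.C 1 2 4 1 (.C 0 1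
  4 1 (.C 1 2 4 1 (.L 5) (.C 1 2 1 2 (.L 5) (.L 46))) (.C 0 2 4 1 (.L 5) (.C
  1 2 8 1 (.G 102 1 1 4242 265 4242 [.n, .n, .n, .g 19 62 0 0]) (.T 16 1 (.C
  0 2 1 2 (.C 0 1 1 1 (.L 5) (.L 37)) (.L 37)) (.L 53))))) (.C 1 2 1 2 (.L
  46) (.O 4))) (.L 15)) (.C 0 2 16 1 (.L 21) (.L 41))) (.L 6)) (.C 0 1 4 1
  (.T 1 2 (.T 2 1 (.L 4) (.C 1 2 2 1 (.L 4) (.L 16))) (.T 1 4 (.C 1 2 2 1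
  (.L 2) (.C 1 2 1 2 (.L 2) (.L 9))) (.C 0 1 8 1 (.C 1 2 1 1 (.C 1 2 2 1 (.T
  1 8 (.L 2) (.T 1 16 (.L 38) (.C 1 2 4 1 (.C 1 2 8 1 (.L 76) (.T 1 32 (.L
  116) (.O 4))) (.O 4)))) (.T 1 8 (.T 2 1 (.L 2) (.L 131)) (.O 4))) (.O 4))
  (.L 3)))) (.C 1 2 4 1 (.C 0 1 1 2 (.L 27) (.C 1 2 8 1 (.C 0 1 1 4 (.L 8)
  (.T 1 2 (.L 4) (.L 12))) (.L 8))) (.C 1 2 1 2 (.L 3) (.T 1 2 (.G 4 482 1 7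
  54 14 [.n, .n, .g 1 0 1267 0, .g 4 1 3694 0]) (.L 3)))))) (.C 0 2 1 2 (.T
  1 1 (.T 2 1 (.C 1 2 8 1 (.T 4 1 (.C 0 1 1 4 (.G 43 200 0 8472 16945 33889
  [.g 32 17 15 0, .n, .n, .n]) (.C 0 1 1 8 (.G 98 79 0 452 905 905 [.n, .n,
  .n, .g 2 20 67 0]) (.L 11))) (.L 104)) (.G 148 44 1 1 1 1 [.g 1 1 3848 0,
  .n, .n, .n, .n])) (.L 6)) (.C 0 1 1 4 (.G 4 20 2 23 46 46 [.n, .n, .g 8 3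
  0 0, .g 64 17 0 0]) (.C 1 2 8 1 (.C 0 1 1 8 (.L 20) (.T 1 2 (.L 26) (.L
  12))) (.L 3)))) (.C 0 2 1 4 (.T 1 1 (.T 2 1 (.G 94 98 3 1 1 1 [.n, .n, .g
  1 24 324 0, .n]) (.C 0 2 2 1 (.L 6) (.L 49))) (.C 0 1 1 8 (.L 3) (.C 1 2
  16 1 (.T 1 2 (.L 7) (.L 12)) (.L 3)))) (.C 0 2 1 8 (.T 1 1 (.L 18) (.C 0 1
  1 16 (.L 3) (.T 1 2 (.L 52) (.L 12)))) (.L 28))))) (.C 0 2 8 1 (.T 1 1 (.T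
  2 1 (.T 4 1 (.T 8 1 (.C 1 2 4 1 (.C 0 1 4 1 (.C 1 2 4 1 (.L 5) (.C 1 2 1 2
  (.L 5) (.L 19))) (.C 0 2 4 1 (.L 5) (.C 1 2 8 1 (.G 223 1 1 3766 235 3766
  [.n, .n, .n, .g 2 5 0 0]) (.T 16 1 (.L 238) (.L 53))))) (.C 1 2 1 2 (.L
  19) (.O 4))) (.L 15)) (.L 41)) (.L 6)) (.C 0 1 4 1 (.T 1 2 (.T 2 1 (.L 4)
  (.C 1 2 2 1 (.L 4) (.L 16))) (.T 1 4 (.C 1 2 2 1 (.L 2) (.C 1 2 1 2 (.L 2)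
  (.L 9))) (.C 0 1 8 1 (.C 1 2 1 1 (.C 1 2 2 1 (.T 1 8 (.L 2) (.T 1 16 (.L
  38) (.C 1 2 4 1 (.C 1 2 8 1 (.L 76) (.T 1 32 (.L 116) (.O 4))) (.O 4))))
  (.T 1 8 (.C 1 2 1 2 (.L 17) (.L 9)) (.O 4))) (.O 4)) (.L 3)))) (.C 1 2 4 1
  (.C 0 1 1 2 (.L 27) (.C 1 2 8 1 (.C 0 1 1 4 (.L 8) (.T 1 2 (.L 4) (.L
  12))) (.L 8))) (.G 186 27 2 1 1 1 [.n, .n, .n, .g 32 5 0 0, .n])))) (.C 0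
  2 1 2 (.T 1 1 (.T 2 1 (.C 1 2 8 1 (.T 4 1 (.C 0 1 1 4 (.G 224 103 0 3811
  7623 15245 [.g 32 0 15 0, .n, .n, .n]) (.G 98 162 0 573 72 1145 [.n, .n,
  .n, .g 8 20 67 0])) (.L 104)) (.G 310 60 1 1 1 1 [.n, .g 3 2 1380 0, .n]))
  (.L 6)) (.C 0 1 1 4 (.L 20) (.C 1 2 8 1 (.C 0 1 1 8 (.L 20) (.T 1 2 (.L
  26) (.L 12))) (.L 3)))) (.C 0 2 1 4 (.T 1 1 (.T 2 1 (.G 94 462 3 1 1 1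
  [.n, .n, .g 1 52 307 0, .n]) (.C 0 2 2 1 (.L 6) (.L 49))) (.C 0 1 1 8 (.L
  3) (.C 1 2 16 1 (.T 1 2 (.L 7) (.L 12)) (.L 3)))) (.C 0 2 1 8 (.T 1 1 (.L
  18) (.C 0 1 1 16 (.L 3) (.T 1 2 (.L 52) (.L 12)))) (.L 28))))))) (.B 0 2 1
  (.B 2 1 4 (.L 260) (.L 174)) (.B 1 2 1 (.L 174) (.L 260))))
  (by decide +kernel)

theorem CS0_c7 : CoF CSTab ⟨⟨2054, 720, 40000⟩, ⟨1694, 360, 20000⟩, ⟨5442,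
  2656, 80000⟩, ⟨0, 1⟩, ⟨2, 1⟩, ⟨1, 0, 0⟩, ⟨0, 1, 0⟩, ⟨0, 1, 1⟩⟩ :=
CoF.ofG CSTab_B CSBt_E CSBt_U (.B 0 1 2 (.B 2 1 2 (.B 1 1 1 (.L 174) (.B 1 1
  2 (.L 179) (.B 2 2 1 (.B 1 1 4 (.L 179) (.B 2 4 1 (.B 1 1 8 (.L 408) (.B 2
  8 1 (.C 0 2 8 1 (.B 1 1 16 (.L 159) (.T 1 1 (.T 2 1 (.T 4 1 (.C 1 2 4 1
  (.C 0 1 4 1 (.T 8 1 (.C 1 2 4 1 (.L 5) (.C 1 2 1 2 (.L 5) (.L 19))) (.L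
  15)) (.C 0 2 4 1 (.C 0 2 8 1 (.L 5) (.T 8 1 (.L 5) (.L 15))) (.C 0 1 1 16
  (.T 8 1 (.G 75 1 1 74 148 37 [.n, .g 7 8 0 0, .g 29 14 16547 0]) (.L 15))
  (.G 103 153 3 1540 48 385 [.g 8 1 0 0, .n, .n, .n])))) (.C 1 2 1 2 (.C 1 2
  2 1 (.T 8 1 (.L 19) (.L 15)) (.L 19)) (.L 130))) (.C 0 2 16 1 (.L 21) (.L
  41))) (.L 6)) (.C 0 1 4 1 (.T 1 2 (.T 2 1 (.L 4) (.C 1 2 2 1 (.L 4) (.L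
  16))) (.T 1 4 (.C 1 2 2 1 (.L 2) (.C 1 2 1 2 (.L 2) (.L 9))) (.C 0 1 8 1
  (.C 1 2 1 1 (.C 1 2 2 1 (.T 1 8 (.L 2) (.C 1 2 4 1 (.C 1 2 8 1 (.L 81) (.T
  1 16 (.L 233) (.C 1 2 1 2 (.L 154) (.T 1 32 (.L 154) (.O 4))))) (.T 1 16
  (.L 81) (.O 4)))) (.T 1 8 (.L 115) (.O 4))) (.O 4)) (.L 23)))) (.C 1 2 4 1
  (.C 0 1 1 2 (.L 27) (.C 1 2 8 1 (.C 0 1 1 4 (.L 8) (.T 1 2 (.L 26) (.L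
  12))) (.L 8))) (.C 1 2 1 2 (.L 3) (.T 1 2 (.G 4 70 3 3 21 5 [.n, .n, .n,
  .g 1 0 1904 0]) (.L 3))))))) (.C 0 2 1 2 (.T 1 1 (.T 2 1 (.C 0 1 1 4 (.G
  228 86 3 1 1 1 [.n, .n, .g 1 0 2706 0, .g 3 13 33582 0]) (.G 217 102 3 1 1
  1 [.g 1 45 0 0, .g 1 143 0 0, .n, .n, .n])) (.L 6)) (.C 0 1 1 4 (.L 20)
  (.C 1 2 8 1 (.C 0 1 1 8 (.L 20) (.T 1 2 (.L 26) (.L 12))) (.L 3)))) (.C 0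
  2 1 4 (.T 1 1 (.T 2 1 (.G 94 153 3 1 1 1 [.n, .n, .g 1 32 257 0, .n]) (.C
  0 2 2 1 (.L 6) (.L 49))) (.C 0 1 1 8 (.L 3) (.C 1 2 16 1 (.T 1 2 (.L 7)
  (.L 12)) (.L 3)))) (.C 0 2 1 8 (.T 1 1 (.L 18) (.C 0 1 1 16 (.L 3) (.T 1 2
  (.L 52) (.L 12)))) (.L 28))))) (.L 159))) (.L 408))) (.L 179)))) (.L 174))
  (.B 1 4 1 (.L 87) (.B 2 1 1 (.B 1 1 2 (.L 87) (.B 2 2 1 (.B 1 1 4 (.L 87)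
  (.B 2 4 1 (.B 1 1 8 (.L 179) (.B 2 8 1 (.B 1 1 16 (.L 159) (.C 0 2 8 1 (.T
  1 1 (.T 2 1 (.T 4 1 (.C 1 2 4 1 (.C 0 1 4 1 (.T 8 1 (.C 1 2 4 1 (.L 5) (.C
  1 2 1 2 (.L 5) (.L 19))) (.L 15)) (.C 0 2 4 1 (.C 0 2 8 1 (.L 5) (.T 8 1
  (.L 5) (.L 15))) (.C 0 1 1 16 (.T 8 1 (.G 75 5 1 47 93 23 [.n, .g 64 53 0
  0, .g 36 11 16571 0]) (.L 15)) (.G 103 102 3 1372 43 343 [.g 64 13 0 0,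
  .n, .n, .n])))) (.C 1 2 1 2 (.C 1 2 2 1 (.T 8 1 (.L 19) (.L 15)) (.L 19))
  (.L 130))) (.C 0 2 16 1 (.L 21) (.L 41))) (.L 6)) (.C 0 1 4 1 (.T 1 2 (.T
  2 1 (.L 4) (.C 1 2 2 1 (.L 4) (.L 16))) (.T 1 4 (.C 1 2 2 1 (.L 2) (.C 1 2
  1 2 (.L 2) (.L 9))) (.C 0 1 8 1 (.C 1 2 1 1 (.C 1 2 2 1 (.T 1 8 (.L 2) (.C
  1 2 4 1 (.C 1 2 8 1 (.L 81) (.T 1 16 (.L 233) (.C 1 2 1 2 (.L 154) (.T 1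
  32 (.L 154) (.O 4))))) (.T 1 16 (.L 81) (.O 4)))) (.T 1 8 (.L 115) (.O
  4))) (.O 4)) (.L 23)))) (.C 1 2 4 1 (.C 0 1 1 2 (.L 27) (.C 1 2 8 1 (.C 0
  1 1 4 (.L 8) (.T 1 2 (.L 26) (.L 12))) (.L 8))) (.C 1 2 1 2 (.L 3) (.T 1 2
  (.G 4 114 3 27 218 54 [.n, .n, .n, .g 1 0 187 0]) (.L 3)))))) (.C 0 2 1 2
  (.T 1 1 (.T 2 1 (.C 1 2 8 1 (.T 4 1 (.C 0 1 1 4 (.G 430 103 0 253 507 1014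
  [.n, .n, .n, .g 64 0 33 0, .n, .g 64 21 0 0]) (.G 103 119 3 8 1 16 [.g 3 2
  74 0, .n, .n, .n])) (.G 160 82 2 1 1 1 [.n, .g 2 1 4698 0, .n, .n])) (.G
  302 66 3 1 1 1 [.n, .g 64 49 0 0, .n, .n])) (.L 6)) (.C 0 1 1 4 (.L 20)
  (.C 1 2 8 1 (.C 0 1 1 8 (.L 20) (.T 1 2 (.L 26) (.L 12))) (.L 3)))) (.C 0
  2 1 4 (.T 1 1 (.T 2 1 (.G 94 191 3 1 1 1 [.n, .n, .g 1 24 265 0, .n]) (.C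
  0 2 2 1 (.L 6) (.L 49))) (.C 0 1 1 8 (.L 3) (.C 1 2 16 1 (.T 1 2 (.L 7)
  (.L 12)) (.L 3)))) (.C 0 2 1 8 (.T 1 1 (.L 18) (.C 0 1 1 16 (.L 3) (.C 1 2
  32 1 (.T 1 2 (.L 52) (.L 12)) (.L 3)))) (.L 28)))))) (.L 179))) (.L 179)))
  (.L 87))) (.L 87)))) (by decide +kernel)

theorem CS0_c8 : CoF CSTab ⟨⟨2054, 720, 40000⟩, ⟨5442, 2656, 80000⟩, ⟨2054,
  1936, 40000⟩, ⟨0, 1⟩, ⟨2, 1⟩, ⟨1, 0, 0⟩, ⟨0, 1, 0⟩, ⟨0, 1, 1⟩⟩ :=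
CoF.ofG CSTab_B CSBt_E CSBt_U (.B 2 1 1 (.B 1 1 2 (.C 0 2 8 1 (.T 1 1 (.T 2
  1 (.T 4 1 (.C 1 2 4 1 (.C 0 1 4 1 (.T 8 1 (.C 1 2 4 1 (.L 5) (.C 1 2 1 2
  (.L 5) (.L 19))) (.L 15)) (.T 8 1 (.C 0 2 4 1 (.L 5) (.C 1 2 8 1 (.G 102 1
  1 4055 253 4055 [.n, .n, .n, .g 2 5 0 0]) (.T 16 1 (.C 1 2 1 2 (.C 0 1 1 1
  (.L 19) (.L 37)) (.L 19)) (.C 1 2 1 2 (.C 0 1 1 1 (.G 1 69 2 264671 529342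
  529342 [.n, .g 42 65 0 0, .n, .n]) (.L 163)) (.C 0 2 1 2 (.G 1 211 2
  260597 521194 521194 [.n, .g 4 13 0 0, .n, .n]) (.G 194 136 0 263454
  263454 65864 [.n, .n, .n, .g 32 31 0 0])))))) (.L 15))) (.C 1 2 1 2 (.C 1
  2 2 1 (.T 8 1 (.L 19) (.L 15)) (.L 19)) (.L 130))) (.C 0 2 16 1 (.L 21)
  (.L 41))) (.L 6)) (.C 0 1 4 1 (.T 1 2 (.T 2 1 (.L 4) (.C 1 2 2 1 (.L 4)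
  (.L 16))) (.T 1 4 (.C 1 2 2 1 (.L 2) (.C 1 2 1 2 (.L 2) (.L 9))) (.C 0 1 8
  1 (.C 1 2 1 1 (.T 1 8 (.C 1 2 2 1 (.L 2) (.L 38)) (.C 1 2 2 1 (.C 1 2 4 1
  (.C 1 2 8 1 (.L 344) (.T 1 16 (.L 504) (.T 1 32 (.L 116) (.O 4)))) (.T 1
  16 (.L 81) (.O 4))) (.O 4))) (.O 4)) (.L 23)))) (.C 1 2 4 1 (.C 0 1 1 2
  (.L 27) (.C 1 2 8 1 (.C 0 1 1 4 (.L 8) (.T 1 2 (.L 26) (.L 12))) (.L 8)))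
  (.C 1 2 1 2 (.L 3) (.T 1 2 (.G 4 339 3 4 32 8 [.n, .n, .n, .g 2 0 4335 0])
  (.L 3)))))) (.C 0 2 1 2 (.T 1 1 (.T 2 1 (.C 0 1 1 4 (.G 19 99 0 3 6 6 [.g
  256 77 0 0, .g 4 5 14948 0, .n, .n]) (.C 0 1 1 8 (.C 1 2 1 2 (.T 4 1 (.C 0
  1 2 1 (.C 1 2 1 1 (.T 8 1 (.G 403 376 0 36656 146625 293249 [.n, .g 16 7 0
  0, .g 8 1 0 0, .n]) (.L 15)) (.G 15 147 0 3671 29367 14684 [.g 8 7 0 0,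
  .n, .n, .n])) (.G 103 462 3 1017 508 1017 [.g 64 19 0 0, .n, .n, .n])) (.L
  66)) (.G 19 227 4 2 9 2 [.g 64 39 0 0, .g 1 1 1187 0, .n, .n])) (.G 98 60
  1 1 1 1 [.n, .n, .n, .g 90 1 1028 0]))) (.L 6)) (.C 0 1 1 4 (.L 275) (.C 1
  2 8 1 (.C 0 1 1 8 (.L 20) (.T 1 2 (.L 26) (.L 12))) (.L 3)))) (.C 0 2 1 4
  (.T 1 1 (.T 2 1 (.G 94 334 3 1 1 1 [.n, .n, .g 1 2 310 0, .n]) (.C 0 2 2 1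
  (.L 6) (.L 49))) (.C 0 1 1 8 (.L 3) (.C 1 2 16 1 (.T 1 2 (.L 7) (.L 12))
  (.L 3)))) (.C 0 2 1 8 (.T 1 1 (.L 18) (.C 0 1 1 16 (.L 3) (.T 1 2 (.L 52)
  (.L 12)))) (.L 28))))) (.C 0 2 8 1 (.T 1 1 (.T 2 1 (.T 4 1 (.T 8 1 (.C 1 2
  4 1 (.C 0 1 4 1 (.C 1 2 4 1 (.L 5) (.C 1 2 1 2 (.L 5) (.L 46))) (.C 0 2 4
  1 (.L 5) (.C 1 2 8 1 (.G 102 1 1 4055 253 4055 [.n, .n, .n, .g 20 63 0 0])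
  (.T 16 1 (.C 1 2 1 2 (.C 0 1 1 1 (.G 398 5 1 354374 708749 708749 [.n, .n,
  .n, .g 64 16 3 0]) (.L 37)) (.L 46)) (.C 1 2 1 2 (.C 0 1 1 1 (.G 1 55 0
  264671 529342 529342 [.n, .g 21 32 0 0, .n, .n]) (.L 163)) (.C 0 2 1 2 (.G
  118 1 1 260597 521194 521194 [.n, .n, .n, .g 32 9 0 0, .n]) (.G 483 376 0
  249931 249931 62483 [.g 64 45 6 0, .g 8 3 0 0, .n, .n]))))))) (.C 1 2 1 2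
  (.L 46) (.O 4))) (.L 15)) (.C 0 2 16 1 (.L 21) (.L 41))) (.L 6)) (.C 0 1 4
  1 (.T 1 2 (.T 2 1 (.L 4) (.C 1 2 2 1 (.L 4) (.L 16))) (.T 1 4 (.C 1 2 2 1
  (.L 2) (.C 1 2 1 2 (.L 2) (.L 9))) (.C 0 1 8 1 (.C 1 2 1 1 (.C 1 2 2 1 (.T
  1 8 (.L 2) (.C 1 2 4 1 (.C 1 2 8 1 (.C 1 2 16 1 (.L 270) (.L 195)) (.T 1
  16 (.L 218) (.T 1 32 (.L 116) (.O 4)))) (.T 1 16 (.L 38) (.O 4)))) (.T 1 8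
  (.T 2 1 (.L 2) (.L 131)) (.O 4))) (.O 4)) (.L 3)))) (.C 1 2 4 1 (.C 0 1 1
  2 (.L 27) (.C 1 2 8 1 (.C 0 1 1 4 (.L 8) (.T 1 2 (.L 4) (.L 12))) (.L 8)))
  (.C 1 2 1 2 (.L 3) (.T 1 2 (.G 4 70 3 4 34 9 [.n, .n, .g 1 0 2028 0, .g 5
  1 8425 0]) (.L 3)))))) (.C 0 2 1 2 (.T 1 1 (.T 2 1 (.C 1 2 8 1 (.T 4 1 (.C
  0 1 1 4 (.G 224 15 0 3811 7623 15245 [.g 32 0 15 0, .n, .n, .n]) (.C 0 1 1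
  8 (.C 0 2 2 1 (.C 0 1 2 1 (.G 502 136 0 6096 24384 24384 [.g 128 23 0 0,
  .n, .n, .n]) (.G 153 224 0 7633 3816 7633 [.n, .n, .n, .g 14 65 0 0])) (.G
  224 223 3 6994 3497 3497 [.g 64 9 60 0, .n, .n, .n])) (.L 11))) (.L 82))
  (.G 160 44 1 1 1 1 [.n, .g 1 0 1541 0, .g 1 0 771 0, .n])) (.L 6)) (.C 0 1
  1 4 (.G 4 62 1 42 85 85 [.n, .n, .g 3 1 4443 0, .g 4 1 4222 0]) (.C 1 2 8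
  1 (.C 0 1 1 8 (.L 20) (.T 1 2 (.L 26) (.L 12))) (.L 3)))) (.C 0 2 1 4 (.T
  1 1 (.T 2 1 (.G 94 239 3 1 1 1 [.n, .n, .g 1 7 306 0, .n]) (.C 0 2 2 1 (.L
  6) (.L 49))) (.C 0 1 1 8 (.L 3) (.C 1 2 16 1 (.T 1 2 (.L 7) (.L 12)) (.L
  3)))) (.C 0 2 1 8 (.T 1 1 (.L 18) (.C 0 1 1 16 (.L 3) (.C 1 2 32 1 (.T 1 2
  (.L 52) (.L 12)) (.L 3)))) (.L 28)))))) (.B 0 2 1 (.B 2 1 2 (.B 1 1 2 (.L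
  290) (.B 2 2 1 (.B 1 1 4 (.L 472) (.C 0 2 8 1 (.B 2 4 1 (.C 0 1 4 1 (.T 1
  1 (.T 2 1 (.C 1 2 2 1 (.T 4 1 (.T 8 1 (.C 1 2 4 1 (.L 5) (.L 19)) (.L 15))
  (.L 92)) (.C 0 1 32 1 (.C 0 1 64 1 (.C 0 1 128 1 (.C 0 1 256 1 (.C 0 1 512
  1 (.C 1 2 1 64 (.C 1 2 2 1 (.C 0 2 4096 1 (.C 0 2 8192 1 (.C 0 2 16384 1
  (.C 0 1 1024 1 (.C 0 1 2048 1 (.C 0 2 32768 1 (.C 0 1 4096 1 (.T 4 1 (.L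
  19) (.L 92)) (.G 92 34 1 1048576 524288 8388607 [.g 32 3 26 0, .n, .g 1
  172 1466 0, .g 1 178 1524 0, .n, .n])) (.G 125 65 1 8388607 524288 4194304
  [.n, .n, .n, .g 2 11 58 0])) (.G 92 34 1 1048576 524288 8388607 [.g 64 7
  26 0, .n, .g 1 172 727 0, .g 1 178 756 0, .n, .n])) (.G 41 83 1 524288
  262144 8388607 [.g 64 7 26 0, .n, .g 1 173 731 0, .g 1 182 770 0, .n,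
  .n])) (.G 374 34 1 8388607 262144 4194304 [.n, .n, .g 1 16 65 0, .g 1 17
  70 0, .n, .n])) (.G 354 65 1 8388607 524288 4194304 [.n, .n, .g 3 67 7 0,
  .g 3 72 8 0, .n, .n])) (.G 125 34 1 8388607 1048576 4194304 [.n, .n, .n,
  .g 12 67 41 0])) (.O 4)) (.O 4)) (.G 355 34 1 1932538 966269 30196 [.g 64
  24 7 0, .n, .n, .n, .n, .n, .n, .n])) (.G 73 34 1 8388607 4194304 262144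
  [.g 32 1 0 0, .n, .g 2 83 0 0, .g 1 43 0 0, .n, .n])) (.G 73 34 1 8388607
  4194304 524288 [.g 64 1 0 0, .n, .g 2 83 0 0, .g 1 43 0 0, .n, .n])) (.G
  113 34 1 8388607 4194304 1048576 [.g 64 1 0 0, .n, .g 1 41 0 0, .g 1 44 0
  0, .n, .n])) (.G 41 34 1 8388607 4194304 2097152 [.n, .n, .g 1 90 1 0, .g
  1 95 1 0, .n, .n]))) (.L 6)) (.T 1 2 (.T 2 1 (.L 4) (.C 1 2 2 1 (.L 4) (.L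
  16))) (.T 1 4 (.C 1 2 2 1 (.L 2) (.C 1 2 1 2 (.L 2) (.L 9))) (.C 0 1 8 1
  (.C 1 2 1 1 (.C 1 2 2 1 (.T 1 8 (.L 2) (.C 1 2 4 1 (.C 1 2 8 1 (.L 344)
  (.T 1 16 (.L 440) (.T 1 32 (.L 116) (.O 4)))) (.T 1 16 (.L 81) (.O 4))))
  (.T 1 8 (.L 38) (.O 4))) (.O 4)) (.L 3))))) (.T 1 1 (.T 2 1 (.T 4 1 (.T 8
  1 (.C 0 2 2 1 (.C 0 2 4 1 (.L 5) (.C 1 2 8 1 (.L 5) (.G 126 256 0 15903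
  15903 7951 [.g 64 6 9 0, .n, .n, .n]))) (.C 1 2 4 1 (.T 16 1 (.L 312) (.L
  53)) (.C 1 2 1 2 (.L 19) (.O 4)))) (.L 15)) (.L 104)) (.L 6)) (.C 1 2 4 1
  (.C 0 1 1 2 (.L 27) (.C 1 2 8 1 (.C 0 1 1 4 (.L 8) (.T 1 2 (.L 26) (.L
  12))) (.L 8))) (.G 23 419 4 1 1 1 [.n, .n, .n, .g 16 11 0 0, .n])))) (.L
  472)) (.C 0 2 1 2 (.T 1 1 (.T 2 1 (.C 0 1 1 4 (.G 19 104 2 6 13 13 [.g 64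
  19 0 0, .g 3 2 1184 0, .n, .n]) (.C 0 1 1 8 (.C 1 2 1 2 (.T 4 1 (.G 438
  126 0 285 570 1140 [.n, .n, .n, .g 5 9 0 0]) (.L 66)) (.G 19 253 3 31 122
  31 [.g 32 17 0 0, .g 3 1 239 0, .n, .n])) (.G 191 60 1 1 1 1 [.n, .n, .n,
  .g 313 2 1366 0]))) (.L 6)) (.C 0 1 1 4 (.L 20) (.C 1 2 8 1 (.C 0 1 1 8
  (.L 20) (.T 1 2 (.L 26) (.L 12))) (.L 3)))) (.C 0 2 1 4 (.T 1 1 (.T 2 1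
  (.G 94 223 3 1 1 1 [.n, .n, .g 1 42 251 0, .n]) (.C 0 2 2 1 (.L 6) (.L
  49))) (.C 0 1 1 8 (.L 3) (.C 1 2 16 1 (.T 1 2 (.L 7) (.L 12)) (.L 3))))
  (.C 0 2 1 8 (.T 1 1 (.L 18) (.C 0 1 1 16 (.L 3) (.T 1 2 (.L 52) (.L 12))))
  (.L 28)))))) (.L 290))) (.L 174)) (.B 2 2 1 (.C 0 2 8 1 (.T 1 1 (.T 2 1
  (.T 4 1 (.C 1 2 4 1 (.C 0 1 4 1 (.T 8 1 (.C 1 2 4 1 (.L 5) (.C 1 2 1 2 (.L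
  5) (.L 19))) (.L 15)) (.T 8 1 (.C 0 2 4 1 (.L 5) (.C 1 2 8 1 (.G 102 1 1
  5417 339 5417 [.n, .n, .n, .g 29 65 0 0]) (.T 16 1 (.C 0 2 1 2 (.C 0 1 1 1
  (.L 19) (.L 37)) (.L 37)) (.C 1 2 1 2 (.C 0 1 1 1 (.G 1 55 0 284652 569304
  569304 [.n, .g 5 8 0 0, .n, .n]) (.L 102)) (.C 0 2 1 2 (.G 1 255 3 291073
  582145 582145 [.n, .g 37 64 0 0, .n, .n]) (.G 255 136 0 263454 263454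
  65864 [.g 1 1 0 0, .n, .n, .n])))))) (.L 15))) (.C 1 2 1 2 (.C 1 2 2 1 (.T
  8 1 (.L 19) (.L 15)) (.L 19)) (.L 130))) (.C 0 2 16 1 (.L 21) (.L 41)))
  (.L 6)) (.C 0 1 4 1 (.T 1 2 (.T 2 1 (.L 4) (.C 1 2 2 1 (.L 4) (.L 16)))
  (.T 1 4 (.C 1 2 2 1 (.L 2) (.C 1 2 1 2 (.L 2) (.L 9))) (.C 0 1 8 1 (.C 1 2
  1 1 (.C 1 2 2 1 (.C 1 2 4 1 (.T 1 8 (.L 2) (.C 1 2 8 1 (.L 344) (.T 1 16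
  (.L 233) (.T 1 32 (.L 116) (.O 4))))) (.T 1 8 (.L 2) (.T 1 16 (.L 81) (.O
  4)))) (.T 1 8 (.L 38) (.O 4))) (.O 4)) (.L 23)))) (.C 1 2 4 1 (.C 0 1 1 2
  (.L 27) (.C 1 2 8 1 (.C 0 1 1 4 (.L 8) (.T 1 2 (.L 26) (.L 12))) (.L 8)))
  (.C 1 2 1 2 (.L 3) (.T 1 2 (.G 62 4 3 5 43 11 [.n, .g 32 23 0 0, .n, .n])
  (.L 3)))))) (.C 0 2 1 2 (.T 1 1 (.T 2 1 (.C 0 1 1 4 (.G 19 99 0 3 6 6 [.g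
  256 77 0 0, .g 4 5 14948 0, .n, .n]) (.C 0 1 1 8 (.C 1 2 1 2 (.T 4 1 (.G
  98 103 0 64 128 255 [.n, .n, .n, .g 3 4 0 0]) (.L 66)) (.C 0 2 1 1 (.C 0 2
  2 1 (.C 0 1 4 1 (.T 4 1 (.G 103 19 0 5969 47752 23876 [.g 8 1 0 0, .n, .n,
  .n]) (.L 61)) (.L 19)) (.L 19)) (.L 418))) (.G 191 60 1 1 1 1 [.n, .n, .n,
  .g 140 1 1024 0]))) (.L 6)) (.C 0 1 1 4 (.L 20) (.C 1 2 8 1 (.C 0 1 1 8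
  (.L 20) (.T 1 2 (.L 26) (.L 12))) (.L 3)))) (.C 0 2 1 4 (.T 1 1 (.T 2 1
  (.G 94 223 3 1 1 1 [.n, .n, .g 1 46 263 0, .n]) (.C 0 2 2 1 (.L 6) (.L
  49))) (.C 0 1 1 8 (.L 3) (.C 1 2 16 1 (.T 1 2 (.L 7) (.L 12)) (.L 3))))
  (.C 0 2 1 8 (.T 1 1 (.L 18) (.C 0 1 1 16 (.L 3) (.T 1 2 (.L 52) (.L 12))))
  (.L 28))))) (.B 0 1 2 (.L 290) (.B 1 4 1 (.B 0 1 4 (.L 408) (.B 0 1 8 (.L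
  159) (.C 0 2 8 1 (.T 1 1 (.T 2 1 (.T 4 1 (.C 1 2 4 1 (.C 0 1 4 1 (.T 8 1
  (.C 1 2 4 1 (.L 5) (.C 1 2 1 2 (.L 5) (.L 19))) (.L 15)) (.C 0 2 4 1 (.C 0
  2 8 1 (.L 5) (.T 8 1 (.L 5) (.L 15))) (.C 0 1 1 16 (.T 8 1 (.G 124 1 1 92
  184 46 [.g 28 6 4059 0, .n, .g 1 1 1011 0, .g 16 1 0 0]) (.L 15)) (.G 103
  153 3 1306 41 326 [.g 32 5 0 0, .n, .n, .n])))) (.C 1 2 1 2 (.C 1 2 2 1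
  (.T 8 1 (.L 19) (.L 15)) (.L 19)) (.L 130))) (.C 0 2 16 1 (.L 21) (.L
  41))) (.L 6)) (.C 0 1 4 1 (.T 1 2 (.T 2 1 (.L 4) (.C 1 2 2 1 (.L 4) (.L
  16))) (.T 1 4 (.C 1 2 2 1 (.L 2) (.C 1 2 1 2 (.L 2) (.L 9))) (.C 0 1 8 1
  (.C 1 2 1 1 (.C 1 2 2 1 (.T 1 8 (.L 2) (.C 1 2 4 1 (.C 1 2 8 1 (.L 81) (.T
  1 16 (.L 233) (.C 1 2 1 2 (.L 116) (.T 1 32 (.L 154) (.O 4))))) (.T 1 16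
  (.L 81) (.O 4)))) (.T 1 8 (.L 38) (.O 4))) (.O 4)) (.L 23)))) (.C 1 2 4 1
  (.C 0 1 1 2 (.L 27) (.C 1 2 8 1 (.C 0 1 1 4 (.L 8) (.T 1 2 (.L 26) (.L
  12))) (.L 8))) (.C 1 2 1 2 (.L 3) (.T 1 2 (.G 4 70 3 3 21 5 [.n, .n, .n,
  .g 1 0 1966 0]) (.L 3)))))) (.C 0 2 1 2 (.T 1 1 (.T 2 1 (.C 1 2 8 1 (.T 4
  1 (.C 0 1 1 4 (.G 46 15 0 15472 30944 61889 [.g 48 65 0 0, .g 64 57 10 0,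
  .n, .n]) (.G 438 103 0 28 3 55 [.n, .n, .n, .g 32 19 0 0])) (.G 30 160 1 1
  1 1 [.n, .g 1 1 4137 0, .n, .n])) (.G 310 291 1 1 1 1 [.n, .g 1 1197 0 0,
  .n])) (.L 6)) (.C 0 1 1 4 (.L 20) (.C 1 2 8 1 (.C 0 1 1 8 (.L 20) (.T 1 2
  (.L 26) (.L 12))) (.L 3)))) (.C 0 2 1 4 (.T 1 1 (.T 2 1 (.G 239 94 2 1 1 1
  [.n, .n, .n, .g 26 1 256 0]) (.C 0 2 2 1 (.L 6) (.L 49))) (.C 0 1 1 8 (.L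
  3) (.C 1 2 16 1 (.T 1 2 (.L 7) (.L 12)) (.L 3)))) (.C 0 2 1 8 (.T 1 1 (.L
  18) (.C 0 1 1 16 (.L 3) (.C 1 2 32 1 (.T 1 2 (.L 52) (.L 12)) (.L 3))))
  (.L 28))))))) (.L 408)))))) (by decide +kernel)

end Pool.Agent.TET.Cvr
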