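import Pool.Agent.Helper37_TET.CS0_000

/-!
# MP_c7c9bf_co: cover of the charts, root 0, assembly 0
-/

set_option autoImplicit false
set_option maxRecDepth 100000

namespace Pool.Agent.TET.Cvr

theorem CS0_t0 : CoF CSTab ⟨⟨2054, 1936, 40000⟩, ⟨1694, 360, 20000⟩, ⟨3388,
  1936, 40000⟩, ⟨0, 1⟩, ⟨2, 1⟩, ⟨1, 0, 0⟩, ⟨0, 1, 0⟩, ⟨0, 1, 1⟩⟩ :=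
  CoF.b 0 1 2 rfl rfl rfl CS0_c0 CS0_c1

theorem CS0_t1 : CoF CSTab ⟨⟨5442, 5088, 80000⟩, ⟨6776, 5088, 80000⟩, ⟨1694,
  1576, 20000⟩, ⟨0, 1⟩, ⟨2, 1⟩, ⟨1, 0, 0⟩, ⟨0, 1, 0⟩, ⟨0, 1, 1⟩⟩ :=
  CoF.b 2 4 1 rfl rfl rfl CS0_c3 CS0_c4

theorem CS0_t2 : CoF CSTab ⟨⟨5442, 5088, 80000⟩, ⟨3388, 1936, 40000⟩, ⟨1694,
  1576, 20000⟩, ⟨0, 1⟩, ⟨2, 1⟩, ⟨1, 0, 0⟩, ⟨0, 1, 0⟩, ⟨0, 1, 1⟩⟩ :=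
  CoF.b 1 1 2 rfl rfl rfl CS0_c2 CS0_t1

theorem CS0_t3 : CoF CSTab ⟨⟨2054, 1936, 40000⟩, ⟨3388, 1936, 40000⟩, ⟨1694,
  1576, 20000⟩, ⟨0, 1⟩, ⟨2, 1⟩, ⟨1, 0, 0⟩, ⟨0, 1, 0⟩, ⟨0, 1, 1⟩⟩ :=
  CoF.b 2 2 1 rfl rfl rfl CS0_t2 CS0_c5

theorem CS0_t4 : CoF CSTab ⟨⟨2054, 1936, 40000⟩, ⟨1694, 360, 20000⟩, ⟨1694,
  1576, 20000⟩, ⟨0, 1⟩, ⟨2, 1⟩, ⟨1, 0, 0⟩, ⟨0, 1, 0⟩, ⟨0, 1, 1⟩⟩ :=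
  CoF.b 1 1 1 rfl rfl rfl CS0_t0 CS0_t3

theorem CS0_t5 : CoF CSTab ⟨⟨2054, 720, 40000⟩, ⟨1694, 360, 20000⟩, ⟨2054,
  1936, 40000⟩, ⟨0, 1⟩, ⟨2, 1⟩, ⟨1, 0, 0⟩, ⟨0, 1, 0⟩, ⟨0, 1, 1⟩⟩ :=
  CoF.b 1 2 1 rfl rfl rfl CS0_c7 CS0_c8

theorem CS0_t6 : CoF CSTab ⟨⟨360, 360, 20000⟩, ⟨1694, 360, 20000⟩, ⟨2054,
  1936, 40000⟩, ⟨0, 1⟩, ⟨2, 1⟩, ⟨1, 0, 0⟩, ⟨0, 1, 0⟩, ⟨0, 1, 1⟩⟩ :=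
  CoF.b 0 1 1 rfl rfl rfl CS0_c6 CS0_t5

theorem CS0_t7 : CoF CSTab ⟨⟨360, 360, 20000⟩, ⟨1694, 360, 20000⟩, ⟨1694,
  1576, 20000⟩, ⟨0, 1⟩, ⟨2, 1⟩, ⟨1, 0, 0⟩, ⟨0, 1, 0⟩, ⟨0, 1, 1⟩⟩ :=
  CoF.b 2 1 1 rfl rfl rfl CS0_t4 CS0_t6

end Pool.Agent.TET.Cvr
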