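import Pool.Agent.Helper37_TET.CSBt

/-!
# MP_c7c9bf_co: cover of the charts, root 1 part 0
-/

set_option autoImplicit false
set_option maxRecDepth 100000

namespace Pool.Agent.TET.Cvr

theorem CS1_c0 : CoF CSTab ⟨⟨1936, 2054, 40000⟩, ⟨360, 1694, 20000⟩, ⟨1936,
  3388, 40000⟩, ⟨0, 1⟩, ⟨2, 1⟩, ⟨1, 0, 0⟩, ⟨0, 1, 0⟩, ⟨0, 1, 1⟩⟩ :=
CoF.ofG CSTab_B CSBt_E CSBt_U (.B 0 1 2 (.B 2 1 1 (.B 1 1 2 (.C 0 2 8 1 (.T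
  1 1 (.T 2 1 (.T 4 1 (.T 8 1 (.T 16 1 (.C 0 2 16 1 (.C 0 1 4 1 (.C 1 2 4 1
  (.L 1) (.O 4)) (.C 0 2 4 1 (.L 1) (.C 1 2 8 1 (.L 1) (.C 1 2 1 2 (.C 1 2 2
  1 (.L 1) (.O 4)) (.O 4))))) (.C 0 2 1 2 (.T 32 1 (.C 0 2 2 1 (.C 0 2 4 1
  (.B 0 1 1 (.C 1 2 64 1 (.C 0 2 16 1 (.B 1 1 1 (.B 0 2 1 (.T 64 1 (.L 456)
  (.C 0 1 1 8 (.O 4) (.L 456))) (.L 476)) (.T 64 1 (.L 456) (.C 0 1 1 8 (.O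
  4) (.L 456)))) (.L 456)) (.O 4)) (.L 476)) (.C 1 2 32 1 (.B 0 1 1 (.L 848)
  (.L 476)) (.O 4))) (.G 111 59 0 78 2 39 [.n, .n, .n, .g 1 0 108 0])) (.B 0
  1 1 (.T 1 2 (.B 0 2 1 (.C 0 1 1 8 (.O 4) (.C 0 2 1 1 (.L 476) (.G 313 182
  3 138 4 69 [.n, .n, .n, .g 2 4 1263 0]))) (.L 22)) (.L 226)) (.L 22))) (.T
  32 1 (.L 150) (.C 0 1 1 16 (.O 4) (.G 592 345 3 6377 199 797 [.n, .n, .n,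
  .n, .g 94 25 1025 0]))))) (.L 53)) (.L 15)) (.L 21)) (.L 6)) (.C 0 1 4 1
  (.T 1 2 (.T 2 1 (.L 7) (.T 1 2 (.C 1 2 2 1 (.L 4) (.L 16)) (.L 48))) (.C 0
  1 8 1 (.T 1 4 (.C 1 2 1 1 (.L 2) (.L 9)) (.C 1 2 1 1 (.T 1 8 (.C 1 2 2 1
  (.L 115) (.C 1 2 1 2 (.T 2 1 (.L 48) (.L 9)) (.L 9))) (.C 1 2 2 1 (.T 1 16
  (.C 1 2 4 1 (.C 1 2 8 1 (.L 167) (.T 2 1 (.L 108) (.C 1 2 1 2 (.C 1 2 2 1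
  (.L 122) (.T 1 2 (.L 51) (.L 58))) (.L 58)))) (.C 1 2 1 2 (.T 2 1 (.L 410)
  (.L 56)) (.L 230))) (.C 1 2 4 1 (.T 1 32 (.C 1 2 8 1 (.C 1 2 16 1 (.L 298)
  (.L 58)) (.L 56)) (.L 230)) (.O 4))) (.O 4))) (.O 4))) (.L 27))) (.C 1 2 4
  1 (.C 0 1 1 2 (.T 1 2 (.L 4) (.L 10)) (.C 1 2 8 1 (.C 0 1 1 4 (.L 8) (.T 1
  2 (.L 11) (.L 14))) (.L 8))) (.T 1 2 (.G 4 57 2 6 25 12 [.n, .n, .g 8 3 0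
  0, .g 32 25 0 0]) (.L 10))))) (.C 0 2 1 2 (.T 1 1 (.T 2 1 (.C 1 2 8 1 (.T
  4 1 (.T 8 1 (.C 0 1 1 4 (.C 0 1 2 1 (.O 4) (.G 912 205 1 1164 582 1164 [.g
  478 1 2048 0, .g 135 1 4085 0, .g 1 0 1708 0, .g 1 0 1934 0, .n, .n])) (.G
  246 128 0 42 5 85 [.n, .n, .n, .g 1 1 187 0])) (.L 15)) (.L 30)) (.G 82 60
  1 1 1 1 [.n, .n, .n, .g 1 3 7846 0, .n])) (.L 6)) (.C 0 1 1 4 (.L 222) (.C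
  1 2 8 1 (.C 0 1 1 8 (.L 20) (.T 1 2 (.L 11) (.L 14))) (.L 3)))) (.C 0 2 1
  4 (.T 1 1 (.G 114 31 3 1 1 1 [.g 1 653 0 0, .g 1 380 0 0, .g 1 116 0 0, .g
  1 3 87 0, .n]) (.C 0 1 1 8 (.L 10) (.C 1 2 16 1 (.T 1 2 (.L 11) (.L 14))
  (.L 10)))) (.C 0 2 1 8 (.T 1 1 (.L 31) (.C 0 1 1 16 (.L 10) (.C 0 2 1 1
  (.L 49) (.L 28)))) (.L 28))))) (.B 2 2 1 (.L 656) (.C 0 2 8 1 (.T 1 1 (.T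
  2 1 (.T 4 1 (.T 8 1 (.C 1 2 4 1 (.C 0 1 4 1 (.C 1 2 4 1 (.L 1) (.C 0 2 32
  1 (.L 1) (.G 43 208 0 70526 70526 35263 [.g 35 63 36 0, .n, .n, .n]))) (.C
  0 2 4 1 (.L 1) (.C 0 1 1 16 (.G 1 208 0 67427 134854 33713 [.n, .g 17 66
  15 0, .n, .n]) (.G 128 182 3 678 21 169 [.g 2 1 71 0, .n, .n, .n])))) (.C
  1 2 1 2 (.L 244) (.O 4))) (.L 15)) (.L 21)) (.L 6)) (.C 0 1 4 1 (.T 1 2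
  (.T 2 1 (.L 7) (.T 1 2 (.C 1 2 2 1 (.L 4) (.L 16)) (.L 48))) (.T 1 4 (.C 1
  2 2 1 (.L 2) (.C 1 2 1 2 (.L 17) (.L 9))) (.C 1 2 2 1 (.C 0 1 8 1 (.T 1 8
  (.C 1 2 2 1 (.L 17) (.T 2 1 (.L 2) (.L 72))) (.C 1 2 2 1 (.T 1 16 (.C 1 2
  4 1 (.C 1 2 8 1 (.L 167) (.T 2 1 (.L 108) (.C 1 2 1 2 (.L 405) (.L 58))))
  (.T 2 1 (.L 405) (.L 56))) (.C 1 2 4 1 (.T 1 32 (.C 1 2 8 1 (.C 1 2 16 1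
  (.L 298) (.L 58)) (.L 56)) (.L 230)) (.L 392))) (.L 9))) (.L 23)) (.L
  9)))) (.C 1 2 4 1 (.C 0 1 1 2 (.T 1 2 (.L 4) (.L 10)) (.C 1 2 8 1 (.C 0 1
  1 4 (.L 8) (.T 1 2 (.L 11) (.L 14))) (.L 8))) (.T 1 2 (.G 7 57 2 5 22 11
  [.n, .n, .g 64 41 0 0, .g 64 59 0 0]) (.L 10))))) (.C 0 2 1 2 (.T 1 1 (.T
  2 1 (.C 1 2 8 1 (.T 4 1 (.T 8 1 (.C 0 1 1 4 (.G 784 277 0 1 1 1 [.n, .g 1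
  0 567 0, .n, .n, .g 1 1 55 0]) (.G 162 165 3 86 11 173 [.g 5 7 280 0, .n,
  .n, .n])) (.L 15)) (.L 30)) (.G 245 104 2 1 1 1 [.n, .n, .g 1 0 1462 0,
  .n])) (.L 6)) (.C 0 1 1 4 (.L 222) (.C 1 2 8 1 (.C 0 1 1 8 (.L 20) (.T 1 2
  (.L 11) (.L 14))) (.L 3)))) (.C 0 2 1 4 (.T 1 1 (.T 2 1 (.G 39 60 1 1 1 1
  [.n, .n, .n, .g 39 1 4101 0]) (.C 0 2 2 1 (.L 6) (.L 35))) (.C 0 1 1 8 (.L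
  10) (.C 1 2 16 1 (.T 1 2 (.L 11) (.L 14)) (.L 10)))) (.C 0 2 1 8 (.T 1 1
  (.L 31) (.T 1 2 (.L 18) (.L 14))) (.L 28))))))) (.B 0 2 1 (.C 0 2 8 1 (.T
  1 1 (.T 2 1 (.T 4 1 (.T 8 1 (.C 1 2 4 1 (.C 0 1 4 1 (.C 1 2 4 1 (.L 1) (.C
  0 2 32 1 (.L 1) (.G 79 126 0 22932 22932 11466 [.g 18 32 11 0, .n, .n,
  .n]))) (.C 0 2 4 1 (.L 1) (.C 1 2 8 1 (.G 39 1 1 838 52 838 [.n, .n, .n,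
  .g 9 32 0 0]) (.T 16 1 (.C 0 1 1 1 (.G 162 200 0 20143 40285 10071 [.g 32
  0 15 0, .n, .n, .n]) (.L 240)) (.L 53))))) (.C 1 2 1 2 (.C 1 2 2 1 (.C 1 2
  4 1 (.T 16 1 (.O 4) (.L 53)) (.O 4)) (.O 4)) (.O 4))) (.L 15)) (.L 21))
  (.L 6)) (.C 0 1 4 1 (.T 1 2 (.T 2 1 (.L 7) (.T 1 2 (.C 1 2 2 1 (.L 4) (.L
  16)) (.L 16))) (.T 1 4 (.C 1 2 2 1 (.L 2) (.C 1 2 1 2 (.L 2) (.L 9))) (.C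
  0 1 8 1 (.C 1 2 1 1 (.T 1 8 (.C 1 2 2 1 (.L 48) (.C 1 2 1 2 (.L 496) (.L
  9))) (.C 1 2 2 1 (.T 1 16 (.C 1 2 4 1 (.L 137) (.T 2 1 (.L 115) (.L 56)))
  (.C 1 2 4 1 (.T 1 32 (.C 1 2 8 1 (.L 64) (.L 56)) (.L 56)) (.O 4))) (.O
  4))) (.O 4)) (.L 23)))) (.C 1 2 4 1 (.C 0 1 1 2 (.G 247 62 0 1 1 1 [.n,
  .n, .n, .g 16 1 0 0, .n]) (.C 1 2 8 1 (.C 0 1 1 4 (.L 8) (.T 1 2 (.L 4)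
  (.L 14))) (.L 8))) (.C 1 2 1 2 (.L 3) (.T 1 2 (.G 7 62 1 7 56 14 [.n, .n,
  .g 1 0 2532 0, .g 1 1 2809 0]) (.L 10)))))) (.C 0 2 1 2 (.T 1 1 (.T 2 1
  (.C 0 1 1 4 (.C 0 1 2 1 (.L 127) (.C 1 2 1 1 (.C 1 2 2 1 (.C 0 1 1 2 (.G
  217 66 3 1 1 1 [.n, .g 1 0 1002 0, .n, .n, .n]) (.T 4 1 (.G 224 128 0
  230433 57608 230433 [.g 16 5 2 0, .n, .n, .n]) (.L 61))) (.G 485 281 2 1 1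
  1 [.g 1 0 2041 0, .n, .n, .n])) (.L 127))) (.T 4 1 (.G 128 39 3 362 45 362
  [.g 4 1 85 0, .n, .n, .n]) (.L 30))) (.L 6)) (.C 0 1 1 4 (.G 4 70 3 31 61
  61 [.n, .n, .g 64 29 0 0, .g 64 21 0 0]) (.C 1 2 8 1 (.C 0 1 1 8 (.L 20)
  (.T 1 2 (.L 26) (.L 14))) (.L 23)))) (.C 0 2 1 4 (.T 1 1 (.G 114 31 3 1 1
  1 [.g 1 653 0 0, .g 1 380 0 0, .g 1 116 0 0, .g 1 3 87 0, .n]) (.C 0 1 1 8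
  (.L 10) (.C 1 2 16 1 (.T 1 2 (.L 7) (.L 14)) (.L 10)))) (.C 0 2 1 8 (.T 1
  1 (.L 31) (.C 0 1 1 16 (.L 10) (.T 1 2 (.L 52) (.L 14)))) (.L 28))))) (.C
  0 2 8 1 (.T 1 1 (.T 2 1 (.T 4 1 (.T 8 1 (.C 1 2 4 1 (.C 0 1 4 1 (.C 1 2 4
  1 (.L 1) (.C 0 2 32 1 (.L 1) (.G 162 128 0 74853 74853 37426 [.g 64 11 14
  0, .n, .n, .n]))) (.C 0 2 4 1 (.L 1) (.C 0 1 1 16 (.G 1 79 0 71698 143396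
  35849 [.n, .g 5 59 4 0, .n, .n]) (.G 93 31 3 2918 91 729 [.g 29 7 254 0,
  .n, .n, .n])))) (.C 1 2 1 2 (.C 1 2 2 1 (.C 1 2 4 1 (.T 16 1 (.O 4) (.L
  53)) (.O 4)) (.O 4)) (.O 4))) (.L 15)) (.L 21)) (.L 6)) (.C 0 1 4 1 (.T 1
  2 (.T 2 1 (.L 7) (.T 1 2 (.C 1 2 2 1 (.L 4) (.L 16)) (.L 48))) (.T 1 4 (.C
  1 2 2 1 (.L 2) (.C 1 2 1 2 (.L 17) (.L 9))) (.C 1 2 2 1 (.C 0 1 8 1 (.T 1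
  8 (.C 1 2 2 1 (.L 17) (.T 2 1 (.L 2) (.C 1 2 1 2 (.L 115) (.L 528)))) (.C
  1 2 2 1 (.T 1 16 (.C 1 2 4 1 (.C 1 2 8 1 (.L 167) (.T 2 1 (.L 108) (.C 1 2
  1 2 (.L 77) (.L 58)))) (.C 1 2 1 2 (.T 2 1 (.L 115) (.L 56)) (.L 56))) (.C
  1 2 4 1 (.T 1 32 (.C 1 2 8 1 (.C 1 2 16 1 (.L 64) (.L 58)) (.L 56)) (.L
  230)) (.L 392))) (.L 9))) (.L 23)) (.L 9)))) (.C 1 2 4 1 (.C 0 1 1 2 (.L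
  320) (.C 1 2 8 1 (.C 0 1 1 4 (.L 8) (.T 1 2 (.L 11) (.L 14))) (.L 8))) (.C
  1 2 1 2 (.L 3) (.G 222 62 1 1 1 1 [.n, .n, .n, .g 19 32 0 0]))))) (.C 0 2
  1 2 (.T 1 1 (.T 2 1 (.C 1 2 8 1 (.T 4 1 (.T 8 1 (.T 16 1 (.G 328 246 3 1 1
  1 [.n, .n, .n, .g 9 1 1080 0]) (.L 53)) (.L 15)) (.L 30)) (.G 148 60 1 1 1
  1 [.g 8 9 32089 0, .n, .n, .n, .n])) (.L 6)) (.C 0 1 1 4 (.L 222) (.C 1 2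
  8 1 (.C 0 1 1 8 (.L 20) (.T 1 2 (.L 11) (.L 14))) (.L 23)))) (.C 0 2 1 4
  (.T 1 1 (.T 2 1 (.G 31 60 1 1 1 1 [.n, .n, .n, .g 73 1 2044 0]) (.C 0 2 2
  1 (.L 6) (.L 35))) (.C 0 1 1 8 (.L 10) (.C 1 2 16 1 (.T 1 2 (.L 11) (.L
  14)) (.L 10)))) (.C 0 2 1 8 (.T 1 1 (.L 31) (.T 1 2 (.L 18) (.L 14))) (.L
  28))))))) (.B 1 2 1 (.B 0 1 4 (.B 0 2 1 (.B 2 1 1 (.L 192) (.B 0 4 1 (.B 2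
  1 2 (.L 192) (.B 0 8 1 (.B 2 1 4 (.L 192) (.B 0 16 1 (.C 0 2 8 1 (.T 1 1
  (.T 2 1 (.T 4 1 (.T 8 1 (.C 1 2 4 1 (.C 0 1 4 1 (.C 1 2 4 1 (.L 1) (.C 0 2
  32 1 (.L 1) (.G 22 79 0 39374 39374 19687 [.g 64 0 19 0, .n, .n, .n])))
  (.G 246 1 1 80 40 320 [.n, .n, .n, .g 7 10 64 0])) (.C 1 2 1 2 (.C 1 2 2 1
  (.C 1 2 4 1 (.C 1 2 8 1 (.T 16 1 (.O 4) (.L 22)) (.L 421)) (.O 4)) (.O 4))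
  (.O 4))) (.L 22)) (.L 21)) (.L 6)) (.C 0 1 4 1 (.C 0 1 8 1 (.T 1 2 (.T 2 1
  (.L 7) (.T 1 2 (.C 1 2 1 1 (.L 4) (.L 2)) (.L 48))) (.T 1 4 (.C 1 2 1 1
  (.L 2) (.L 9)) (.C 1 2 1 1 (.C 1 2 2 1 (.T 1 8 (.L 115) (.C 1 2 4 1 (.T 1
  16 (.C 1 2 8 1 (.L 51) (.T 2 1 (.L 51) (.T 1 2 (.L 135) (.L 164)))) (.T 1
  32 (.C 1 2 8 1 (.T 2 1 (.C 1 2 16 1 (.L 51) (.L 164)) (.L 164)) (.L 90))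
  (.L 106))) (.L 72))) (.T 1 8 (.C 1 2 1 2 (.L 72) (.L 9)) (.O 4))) (.O
  4)))) (.G 7 63 0 92 46 92 [.n, .n, .g 32 7 0 0, .g 64 11 0 0])) (.C 1 2 4
  1 (.C 0 1 1 2 (.L 27) (.G 11 95 3 1 1 1 [.n, .n, .n, .g 256 1 0 0])) (.L
  3)))) (.C 0 2 1 2 (.T 1 1 (.T 2 1 (.C 1 2 8 1 (.C 0 1 1 4 (.C 0 1 2 1 (.G
  104 60 1 1 1 1 [.n, .n, .g 2 1 4345 0, .n, .n]) (.T 4 1 (.G 93 53 0 75449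
  37725 75449 [.g 64 29 16 0, .n, .n, .n]) (.L 66))) (.L 31)) (.G 992 346 3
  1 1 1 [.g 1 6 6428 0, .n, .n, .n])) (.L 6)) (.C 0 1 1 4 (.L 23) (.C 1 2 8
  1 (.G 95 11 3 1 1 1 [.n, .n, .n, .g 3 55 0 0, .n]) (.L 23)))) (.C 0 2 1 4
  (.T 1 1 (.G 70 357 3 1 1 1 [.g 3 59 0 0, .n, .n, .n, .g 2 53 0 0]) (.G 95
  11 3 1 1 1 [.n, .n, .n, .g 1 61 0 0, .n])) (.L 11)))) (.L 88))) (.L 192)))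
  (.L 192))) (.L 192)) (.L 192)) (.B 2 2 1 (.L 192) (.B 0 1 1 (.B 0 2 1 (.B
  2 1 2 (.L 293) (.B 0 4 1 (.C 0 2 8 1 (.T 1 1 (.T 2 1 (.T 4 1 (.T 8 1 (.C 1
  2 4 1 (.C 0 1 4 1 (.C 1 2 4 1 (.L 1) (.C 0 2 32 1 (.L 1) (.G 43 1 1 301808
  301808 150904 [.g 64 6 5 0, .n, .n, .n]))) (.C 0 2 4 1 (.L 1) (.C 0 1 1 16
  (.G 5 22 0 44684 89368 22342 [.n, .g 13 64 6 0, .n, .n]) (.L 39)))) (.C 1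
  2 1 2 (.C 1 2 2 1 (.C 1 2 4 1 (.C 1 2 8 1 (.T 16 1 (.O 4) (.L 22)) (.L
  421)) (.O 4)) (.O 4)) (.O 4))) (.L 22)) (.L 21)) (.L 6)) (.C 0 1 4 1 (.C 0
  1 8 1 (.T 1 2 (.T 2 1 (.L 7) (.T 1 2 (.C 1 2 1 1 (.L 4) (.L 2)) (.L 48)))
  (.T 1 4 (.C 1 2 1 1 (.L 2) (.L 9)) (.C 1 2 1 1 (.C 1 2 2 1 (.T 1 8 (.L
  115) (.C 1 2 4 1 (.C 1 2 8 1 (.T 1 16 (.L 51) (.T 1 32 (.T 2 1 (.C 1 2 16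
  1 (.L 51) (.L 164)) (.L 164)) (.L 90))) (.T 1 16 (.T 2 1 (.L 51) (.T 1 2
  (.L 135) (.L 164))) (.L 106))) (.L 72))) (.T 1 8 (.C 1 2 1 2 (.L 72) (.L
  9)) (.O 4))) (.O 4)))) (.G 7 63 0 93 46 93 [.n, .n, .g 32 7 0 0, .g 64 11
  0 0])) (.C 1 2 4 1 (.C 0 1 1 2 (.L 320) (.G 95 11 3 1 1 1 [.n, .n, .n, .g
  1 68 0 0, .n])) (.L 62)))) (.C 0 2 1 2 (.T 1 1 (.T 2 1 (.C 0 1 1 4 (.C 1 2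
  1 1 (.C 0 1 2 1 (.L 272) (.C 1 2 2 1 (.T 4 1 (.G 282 226 0 82637 41318
  165274 [.g 32 63 13 0, .n, .n, .n]) (.L 61)) (.L 166))) (.L 396)) (.C 1 2
  8 1 (.C 0 1 1 8 (.G 39 196 3 3 6 6 [.g 3 34 0 0, .n, .n, .n]) (.L 11)) (.C
  0 2 1 1 (.C 1 2 1 1 (.G 39 328 3 8 17 33 [.g 7 31 0 0, .n, .n, .n]) (.C 0
  2 2 1 (.C 1 2 1 1 (.G 39 66 3 1 4 8 [.g 64 1 0 0, .n, .n, .n]) (.T 4 1 (.G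
  93 79 0 66141 529132 264566 [.g 38 64 7 0, .n, .n, .n]) (.L 61))) (.G 736
  148 0 1 1 1 [.n, .g 64 19 0 0, .n, .n, .n]))) (.G 864 62 1 1 1 1 [.n, .g 1
  1 3765 0, .n, .n])))) (.L 6)) (.C 0 1 1 4 (.L 3) (.C 1 2 8 1 (.G 95 11 3 1
  1 1 [.n, .n, .n, .g 3 55 0 0, .n]) (.L 23)))) (.C 0 2 1 4 (.T 1 1 (.G 70
  368 3 1 1 1 [.g 2 297 0 0, .n, .n, .n, .g 1 178 0 0]) (.G 95 11 3 1 1 1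
  [.n, .n, .n, .g 1 58 0 0, .n])) (.L 11)))) (.L 293))) (.L 192)) (.L
  192))))) (by decide +kernel)

theorem CS1_c1 : CoF CSTab ⟨⟨5088, 5442, 80000⟩, ⟨1936, 3388, 40000⟩, ⟨5088,
  6776, 80000⟩, ⟨0, 1⟩, ⟨2, 1⟩, ⟨1, 0, 0⟩, ⟨0, 1, 0⟩, ⟨0, 1, 1⟩⟩ :=
CoF.ofG CSTab_B CSBt_E CSBt_U (.B 0 1 2 (.C 0 2 8 1 (.T 1 1 (.T 2 1 (.T 4 1
  (.T 8 1 (.C 1 2 4 1 (.C 0 1 4 1 (.C 1 2 4 1 (.L 1) (.C 0 2 32 1 (.L 1) (.G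
  382 5 1 230088 230088 115044 [.n, .n, .g 16 3 3 0, .g 131072 25586 22119
  0]))) (.C 0 2 4 1 (.L 1) (.C 0 1 1 16 (.C 1 2 1 4 (.C 1 2 2 1 (.L 1) (.C 0
  1 8 1 (.C 0 2 4 1 (.L 1) (.G 54 1 1 25 50 12 [.g 64 1 0 0, .n, .n, .g 43
  64 0 0, .g 1 7 44445 0, .g 1 8 44730 0])) (.C 0 2 1 4 (.L 1) (.G 89 1 1 40
  10 5 [.g 64 1 0 0, .n, .n, .n, .g 1 1 41736 0, .g 1 1 42270 0])))) (.C 0 2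
  1 2 (.C 0 2 2 1 (.C 0 1 4 1 (.L 1) (.C 1 2 1 1 (.G 54 1 1 20 10 20 [.g 44
  1 255 0, .n, .n, .g 27 32 0 0, .g 1 5 44643 0, .g 1 6 44955 0]) (.L 1)))
  (.T 16 1 (.T 32 1 (.O 4) (.C 1 2 1 2 (.G 400 1 1 259415 259415 518829 [.g
  512 14 1 0, .n, .n, .n]) (.O 4))) (.C 0 1 1 1 (.L 1) (.G 55 1 1 2241454
  1120727 560364 [.g 32 19 0 0, .g 61 64 3 0, .n, .n, .n])))) (.T 16 1 (.C 1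
  2 1 8 (.T 32 1 (.O 4) (.G 229 75 2 1 1 1 [.n, .n, .g 1 7 6249 0])) (.O 4))
  (.G 36 47 0 61 121 15 [.n, .n, .g 6 1 7829 0, .g 32 3 0 0])))) (.C 1 2 8 1
  (.L 40) (.C 1 2 1 2 (.L 40) (.T 16 1 (.G 481 40 3 1 1 1 [.n, .n, .n, .g 1
  3 1900 0, .g 4 5 4210 0]) (.G 124 47 0 47 47 12 [.n, .n, .g 1 0 327 0, .g
  64 7 0 0]))))))) (.C 1 2 1 2 (.L 25) (.O 4))) (.L 15)) (.L 45)) (.L 6))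
  (.C 0 1 4 1 (.T 1 2 (.T 2 1 (.L 7) (.T 1 2 (.C 1 2 2 1 (.L 4) (.L 16)) (.L
  48))) (.T 1 4 (.C 1 2 2 1 (.L 2) (.C 1 2 1 2 (.L 17) (.L 9))) (.C 1 2 2 1
  (.T 1 8 (.L 115) (.C 0 1 8 1 (.C 1 2 2 1 (.T 1 16 (.C 1 2 4 1 (.L 442) (.T
  2 1 (.L 17) (.L 56))) (.C 1 2 4 1 (.T 1 32 (.C 1 2 8 1 (.L 64) (.L 56))
  (.L 56)) (.L 364))) (.L 9)) (.L 23))) (.L 9)))) (.C 1 2 4 1 (.C 0 1 1 2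
  (.T 1 2 (.L 4) (.L 10)) (.C 1 2 8 1 (.C 0 1 1 4 (.L 8) (.T 1 2 (.L 11) (.L
  14))) (.L 8))) (.T 1 2 (.G 4 57 2 6 26 13 [.n, .n, .g 64 25 0 0, .g 32 23
  0 0]) (.L 10))))) (.C 0 2 1 2 (.T 1 1 (.T 2 1 (.C 1 2 8 1 (.T 4 1 (.T 8 1
  (.C 0 1 1 4 (.C 0 1 2 1 (.O 4) (.L 25)) (.C 0 1 1 8 (.C 1 2 1 1 (.C 0 1 2
  1 (.T 16 1 (.O 4) (.G 412 47 0 2 9 9 [.n, .g 51 46 262015 0, .g 2 1 4275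
  0, .g 64 29 0 0, .g 64 13 0 0])) (.L 40)) (.G 188 161 3 13341 53365 26683
  [.n, .g 64 31 0 0, .g 32 19 0 0, .n])) (.L 11))) (.L 15)) (.G 608 177 2 1
  1 1 [.n, .n, .g 1 2 3113 0, .n, .n])) (.G 66 44 1 1 1 1 [.n, .n, .n, .g 1
  0 1527 0, .n])) (.L 6)) (.C 0 1 1 4 (.G 4 27 2 39 78 78 [.n, .n, .g 2 1
  3336 0, .g 3 1 3678 0]) (.C 1 2 8 1 (.C 0 1 1 8 (.L 20) (.T 1 2 (.L 11)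
  (.L 14))) (.L 3)))) (.C 0 2 1 4 (.T 1 1 (.T 2 1 (.G 44 246 3 1 1 1 [.n, .g
  2 15 4097 0, .n, .n]) (.C 0 2 2 1 (.L 6) (.L 35))) (.C 0 1 1 8 (.L 10) (.C
  1 2 16 1 (.T 1 2 (.L 11) (.L 14)) (.L 10)))) (.C 0 2 1 8 (.T 1 1 (.L 18)
  (.C 0 1 1 16 (.L 10) (.T 1 2 (.L 11) (.L 14)))) (.L 28))))) (.B 0 1 4 (.B
  2 2 1 (.L 326) (.B 0 2 1 (.B 2 1 2 (.L 326) (.B 0 4 1 (.C 0 2 8 1 (.B 2 1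
  4 (.L 325) (.T 1 1 (.T 2 1 (.T 4 1 (.T 8 1 (.C 1 2 4 1 (.C 0 1 4 1 (.C 1 2
  4 1 (.L 1) (.C 0 2 32 1 (.L 1) (.G 5 47 0 229974 229974 114987 [.n, .g 13
  63 12 0, .n, .n]))) (.C 0 2 4 1 (.L 1) (.C 0 1 1 16 (.C 1 2 1 4 (.L 1) (.C
  0 2 1 2 (.L 1) (.G 180 47 0 33 65 8 [.g 11 3 32178 0, .g 8 3 0 0, .n,
  .n]))) (.C 1 2 8 1 (.L 40) (.C 1 2 1 2 (.L 40) (.C 0 2 1 4 (.L 40) (.G 36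
  294 3 87 44 11 [.g 89 3 4085 0, .n, .g 1 0 1055 0, .g 32 3 0 0]))))))) (.C
  1 2 1 2 (.L 25) (.O 4))) (.L 15)) (.L 21)) (.L 6)) (.C 0 1 4 1 (.T 1 2 (.T
  2 1 (.L 7) (.C 1 2 2 1 (.L 7) (.L 16))) (.T 1 4 (.C 1 2 2 1 (.L 2) (.C 1 2
  1 2 (.L 48) (.L 9))) (.C 1 2 2 1 (.T 1 8 (.L 115) (.C 0 1 8 1 (.C 1 2 2 1
  (.T 1 16 (.C 1 2 4 1 (.L 361) (.T 2 1 (.L 17) (.L 56))) (.C 1 2 4 1 (.T 1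
  32 (.C 1 2 8 1 (.L 122) (.L 58)) (.L 56)) (.L 928))) (.L 9)) (.L 23))) (.L
  9)))) (.C 1 2 4 1 (.C 0 1 1 2 (.T 1 2 (.L 4) (.L 10)) (.C 1 2 8 1 (.C 0 1
  1 4 (.L 8) (.T 1 2 (.L 11) (.L 14))) (.L 8))) (.C 1 2 1 2 (.T 1 2 (.L 4)
  (.L 10)) (.T 1 2 (.G 4 57 2 8 67 17 [.n, .n, .g 1 0 1796 0, .g 5 2 4154
  0]) (.L 10))))))) (.C 0 2 1 2 (.T 1 1 (.T 2 1 (.C 0 1 1 4 (.G 86 99 0 1 1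
  1 [.n, .n, .n, .g 2 0 4155 0]) (.T 4 1 (.T 8 1 (.C 1 2 8 1 (.C 0 1 1 8 (.C
  0 1 2 1 (.G 453 168 3 8 34 17 [.g 55 64 0 0, .g 3 4 8308 0, .n, .n]) (.L
  40)) (.L 11)) (.G 205 672 3 1 1 1 [.n, .g 1 0 3317 0, .n, .n])) (.L 15))
  (.L 30))) (.L 6)) (.C 0 1 1 4 (.C 0 1 2 1 (.G 474 454 4 54 216 108 [.g 512
  1 0 0, .g 256 1 0 0, .n, .n, .n, .n, .g 64 29 0 0, .g 16 9 0 0]) (.L 3))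
  (.C 1 2 8 1 (.C 0 1 1 8 (.L 20) (.T 1 2 (.L 11) (.L 14))) (.L 3)))) (.C 0
  2 1 4 (.T 1 1 (.T 2 1 (.G 182 44 1 1 1 1 [.n, .n, .n, .g 38 2 4045 0]) (.C
  0 2 2 1 (.L 6) (.L 35))) (.C 0 1 1 8 (.L 10) (.C 1 2 16 1 (.T 1 2 (.L 11)
  (.L 14)) (.L 10)))) (.C 0 2 1 8 (.T 1 1 (.L 18) (.C 0 1 1 16 (.L 10) (.C 1
  2 32 1 (.T 1 2 (.L 11) (.L 14)) (.L 10)))) (.L 28))))) (.L 325))) (.L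
  326))) (.L 800))) (by decide +kernel)

theorem CS1_c2 : CoF CSTab ⟨⟨5088, 5442, 80000⟩, ⟨5088, 6776, 80000⟩, ⟨1576,
  1694, 20000⟩, ⟨0, 1⟩, ⟨2, 1⟩, ⟨1, 0, 0⟩, ⟨0, 1, 0⟩, ⟨0, 1, 1⟩⟩ :=
CoF.ofG CSTab_B CSBt_E CSBt_U (.B 2 4 1 (.B 2 8 1 (.L 220) (.B 0 1 2 (.C 0 2
  8 1 (.B 2 1 2 (.B 1 1 1 (.B 0 1 2 (.B 2 1 1 (.L 201) (.B 0 2 1 (.B 2 1 2
  (.L 201) (.B 0 4 1 (.B 1 1 2 (.T 1 1 (.T 2 1 (.T 4 1 (.T 8 1 (.C 1 2 4 1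
  (.C 0 1 4 1 (.C 1 2 4 1 (.L 1) (.C 0 2 32 1 (.L 1) (.G 74 1 1 254364
  254364 127182 [.n, .g 64 11 11 0, .g 64 13 13 0, .n]))) (.C 0 2 4 1 (.L 1)
  (.C 1 2 8 1 (.C 0 1 1 16 (.G 29 1 1 65780 131560 65780 [.n, .g 32 13 0 0,
  .n, .n]) (.L 40)) (.C 0 2 1 2 (.C 0 1 1 1 (.L 1) (.C 1 2 2 1 (.T 16 1 (.G
  32 29 1 7 4 14 [.n, .g 228 5 8181 0, .n, .n, .n, .g 16 13 0 0]) (.C 0 1 1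
  2 (.G 173 1 1 47 94 94 [.g 22 63 0 0, .n, .n, .g 16 1 0 0]) (.L 69))) (.C
  0 2 1 1 (.G 134 1 1 46 91 91 [.g 17 6 32562 0, .n, .n, .g 3 4 4807 0]) (.T
  16 1 (.G 32 1 1 4500 4500 2250 [.g 1 1 248 0, .n, .n, .n, .n, .n]) (.T 1 2
  (.G 132 1 1 3 3 1 [.g 32 1 0 0, .n, .n, .g 1 1 0 0, .n, .n]) (.L 121))))))
  (.T 16 1 (.G 32 150 0 210 105 53 [.g 1 0 248 0, .g 3 4 276 0, .n, .n, .n,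
  .n]) (.C 0 1 1 2 (.T 1 2 (.C 0 1 2 1 (.C 1 2 1 16 (.C 1 2 2 1 (.G 505 1 1
  31 123 492 [.g 7 3 15814 0, .n, .n, .n]) (.G 144 232 0 159005 2544083
  1272041 [.n, .n, .g 19 65 38 0, .n])) (.G 389 468 1 196233 1569864 49058
  [.g 39 64 0 0, .n, .n, .n])) (.G 170 173 3 1 1 1 [.n, .n, .n, .n, .n, .g 3
  35 0 0])) (.L 121)) (.G 183 100 3 224 56 28 [.n, .n, .g 3 5 3680 0, .g 32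
  27 0 0]))))))) (.C 1 2 1 2 (.L 25) (.O 4))) (.L 24)) (.L 45)) (.L 6)) (.C
  0 1 4 1 (.T 1 2 (.T 2 1 (.L 7) (.C 1 2 2 1 (.L 7) (.L 16))) (.T 1 4 (.C 1
  2 2 1 (.L 2) (.C 1 2 1 2 (.L 2) (.L 9))) (.C 1 2 2 1 (.T 1 8 (.L 17) (.C 0
  1 8 1 (.T 1 16 (.C 1 2 2 1 (.L 17) (.L 378)) (.C 1 2 2 1 (.C 1 2 4 1 (.T 1
  32 (.L 64) (.L 56)) (.L 544)) (.O 4))) (.L 23))) (.L 9)))) (.C 1 2 4 1 (.C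
  0 1 1 2 (.T 1 2 (.L 4) (.L 10)) (.C 1 2 8 1 (.C 0 1 1 4 (.L 8) (.T 1 2 (.L
  11) (.L 14))) (.L 8))) (.T 1 2 (.G 4 57 2 7 26 13 [.n, .n, .g 16 5 0 0, .g
  16 9 0 0]) (.L 10))))) (.L 220)) (.B 0 1 2 (.B 1 1 4 (.B 2 1 4 (.L 201)
  (.B 0 2 1 (.T 1 1 (.T 2 1 (.T 4 1 (.T 8 1 (.C 1 2 4 1 (.C 0 1 4 1 (.C 1 2
  4 1 (.L 1) (.C 0 2 32 1 (.L 1) (.G 74 1 1 254576 254576 127288 [.n, .g 64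
  11 11 0, .g 64 13 13 0, .n]))) (.C 0 2 4 1 (.L 1) (.C 1 2 8 1 (.G 390 1 1
  102 6 102 [.n, .n, .n, .g 113 239 2049 0]) (.B 2 1 8 (.L 201) (.C 0 2 1 2
  (.C 0 1 1 1 (.L 1) (.C 1 2 2 1 (.T 16 1 (.G 32 29 1 7 4 14 [.n, .g 228 5
  8182 0, .n, .n, .n, .g 64 51 0 0]) (.C 0 1 1 2 (.G 173 1 1 48 95 95 [.g 11
  32 0 0, .n, .n, .g 32 3 0 0]) (.L 69))) (.C 0 2 1 1 (.G 134 1 1 46 91 91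
  [.g 8 3 15597 0, .n, .n, .g 1 1 1598 0]) (.T 16 1 (.G 32 1 1 4517 4517
  2258 [.g 1 1 248 0, .n, .n, .n, .n, .n]) (.G 1 36 2 642 642 321 [.n, .g 64
  13 0 0, .n, .n]))))) (.T 16 1 (.C 0 1 1 2 (.C 1 2 1 8 (.T 32 1 (.O 4) (.C
  1 2 2 1 (.T 1 2 (.O 4) (.G 32 261 0 1 1 1 [.g 1 0 399 0, .n, .n, .n, .n,
  .n])) (.O 4))) (.O 4)) (.L 59)) (.C 0 1 1 2 (.T 1 2 (.C 0 1 2 1 (.C 1 2 1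
  16 (.C 1 2 2 1 (.G 436 1 1 30 120 479 [.n, .n, .n, .g 2 1 4505 0]) (.G 232
  248 0 158955 2543288 1271644 [.g 64 0 29 0, .n, .n, .n])) (.G 262 506 2
  249968 1999741 62492 [.n, .n, .n, .g 64 25 0 0])) (.G 173 170 5 1 1 1 [.n,
  .n, .n, .g 64 1 0 0])) (.L 121)) (.G 183 100 3 223 56 28 [.n, .n, .g 3 5
  3597 0, .g 32 27 0 0])))))))) (.C 1 2 1 2 (.L 25) (.O 4))) (.L 15)) (.L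
  45)) (.L 6)) (.C 0 1 4 1 (.T 1 2 (.T 2 1 (.L 7) (.C 1 2 2 1 (.L 7) (.L
  16))) (.T 1 4 (.C 1 2 2 1 (.L 2) (.C 1 2 1 2 (.L 2) (.L 9))) (.C 1 2 2 1
  (.T 1 8 (.L 17) (.C 0 1 8 1 (.C 1 2 2 1 (.C 1 2 4 1 (.T 1 16 (.L 42) (.T 1
  32 (.L 64) (.L 56))) (.T 1 16 (.L 17) (.L 392))) (.L 9)) (.L 23))) (.L
  9)))) (.C 1 2 4 1 (.C 0 1 1 2 (.T 1 2 (.L 4) (.L 10)) (.C 1 2 8 1 (.C 0 1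
  1 4 (.L 8) (.T 1 2 (.L 11) (.L 14))) (.L 8))) (.C 1 2 1 2 (.T 1 2 (.L 4)
  (.L 10)) (.T 1 2 (.G 4 57 2 9 68 17 [.n, .n, .g 1 0 1694 0, .g 3 1 2202
  0]) (.L 10)))))) (.L 201))) (.B 2 2 1 (.L 220) (.B 0 4 1 (.B 2 1 2 (.L
  220) (.B 0 8 1 (.T 1 1 (.T 2 1 (.T 4 1 (.T 8 1 (.C 1 2 4 1 (.C 0 1 4 1 (.C
  1 2 4 1 (.L 1) (.C 0 2 32 1 (.L 1) (.G 74 1 1 254619 254619 127310 [.n, .g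
  64 11 11 0, .g 64 13 13 0, .n]))) (.C 0 2 4 1 (.L 1) (.C 1 2 8 1 (.C 0 1 1
  16 (.G 29 1 1 65780 131560 65780 [.n, .g 32 13 0 0, .n, .n]) (.L 40)) (.C
  0 2 1 2 (.C 0 1 1 1 (.L 1) (.C 1 2 2 1 (.T 16 1 (.G 32 250 1 8 4 17 [.n,
  .g 128 3 0 0, .n, .n, .n, .g 32 31 0 0]) (.C 0 1 1 2 (.G 173 1 1 48 95 95
  [.g 11 32 0 0, .n, .n, .g 64 5 0 0]) (.L 69))) (.C 0 2 1 1 (.G 134 1 1 46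
  91 91 [.g 8 3 15569 0, .n, .n, .g 3 4 4797 0]) (.T 16 1 (.G 32 1 1 4517
  4517 2258 [.g 1 1 248 0, .n, .n, .n, .n, .n]) (.G 1 36 2 642 642 321 [.n,
  .g 128 27 0 0, .n, .n]))))) (.T 16 1 (.C 0 1 1 2 (.C 1 2 1 8 (.T 32 1 (.O
  4) (.C 1 2 2 1 (.T 1 2 (.O 4) (.G 32 89 0 1 1 1 [.g 1 0 372 0, .n, .n, .n,
  .n, .n])) (.O 4))) (.O 4)) (.L 59)) (.C 0 1 1 2 (.T 1 2 (.C 0 1 2 1 (.C 1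
  2 1 16 (.C 1 2 2 1 (.G 436 1 1 30 120 479 [.n, .n, .n, .g 2 1 4506 0]) (.G
  232 506 2 158955 2543288 1271644 [.g 32 0 15 0, .n, .n, .n])) (.G 506 262
  3 249968 1999741 62492 [.n, .n, .g 33 64 0 0, .n, .n])) (.G 36 170 5 1 1 1
  [.n, .n, .g 32 1 0 0, .n])) (.L 121)) (.G 107 100 3 223 56 28 [.n, .n, .g
  3 5 3603 0, .g 64 29 0 0]))))))) (.C 1 2 1 2 (.L 25) (.O 4))) (.L 24)) (.L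
  45)) (.L 6)) (.C 0 1 4 1 (.T 1 2 (.T 2 1 (.L 7) (.C 1 2 2 1 (.L 7) (.L
  16))) (.T 1 4 (.C 1 2 2 1 (.L 2) (.C 1 2 1 2 (.L 2) (.L 9))) (.C 1 2 2 1
  (.T 1 8 (.L 17) (.C 0 1 8 1 (.T 1 16 (.C 1 2 2 1 (.L 17) (.L 378)) (.C 1 2
  2 1 (.C 1 2 4 1 (.T 1 32 (.L 64) (.L 56)) (.L 392)) (.O 4))) (.L 23))) (.L
  9)))) (.C 1 2 4 1 (.C 0 1 1 2 (.T 1 2 (.L 4) (.L 10)) (.C 1 2 8 1 (.C 0 1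
  1 4 (.L 8) (.T 1 2 (.L 11) (.L 14))) (.L 8))) (.T 1 2 (.G 4 57 2 7 26 13
  [.n, .n, .g 16 5 0 0, .g 16 9 0 0]) (.L 10))))) (.L 220))) (.L 220)))) (.L
  201)))) (.L 201))) (.L 960)) (.L 220)) (.T 1 1 (.T 2 1 (.T 4 1 (.T 8 1 (.C
  1 2 4 1 (.C 0 1 4 1 (.C 1 2 4 1 (.L 1) (.C 0 2 32 1 (.L 1) (.G 336 1 1
  254156 254156 127078 [.g 16 3 3 0, .n, .n, .g 4096 23 22 0]))) (.C 0 2 4 1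
  (.L 1) (.C 1 2 8 1 (.C 0 1 1 16 (.G 29 1 1 65780 131560 65780 [.n, .g 32
  13 0 0, .n, .n]) (.L 40)) (.C 0 2 1 2 (.C 0 1 1 1 (.L 1) (.C 1 2 2 1 (.T
  16 1 (.G 32 29 1 7 3 14 [.n, .g 264 5 16412 0, .n, .n, .n, .g 64 53 0 0])
  (.C 0 1 1 2 (.G 173 1 1 45 91 91 [.g 5 13 0 0, .n, .n, .g 16 1 0 0]) (.L
  69))) (.C 0 2 1 1 (.G 214 1 1 46 92 92 [.g 3 4 4383 0, .g 17 6 32576 0,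
  .n, .n]) (.T 16 1 (.G 1 32 0 4486 4486 2243 [.n, .g 3 1 229 0, .n, .n])
  (.T 1 2 (.G 132 1 1 3 3 1 [.g 32 1 0 0, .n, .n, .g 59 64 0 0, .n, .n]) (.L
  24)))))) (.T 16 1 (.C 0 1 1 2 (.C 1 2 1 8 (.T 32 1 (.O 4) (.C 1 2 2 1 (.T
  1 2 (.O 4) (.G 32 89 0 1 1 1 [.g 1 0 372 0, .n, .n, .n, .n, .n])) (.O 4)))
  (.O 4)) (.L 216)) (.C 0 1 1 2 (.T 1 2 (.C 0 1 2 1 (.C 1 2 1 16 (.C 1 2 2 1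
  (.G 505 1 1 32 129 515 [.g 15 7 33887 0, .n, .n, .n]) (.G 144 232 0 159041
  2544661 1272330 [.n, .n, .g 19 65 39 0, .n])) (.G 144 235 3 299414 2395314
  74854 [.n, .n, .g 16 0 5 0, .n])) (.G 173 170 5 1 1 1 [.n, .n, .n, .g 64 1
  0 0])) (.L 24)) (.G 91 100 3 227 57 28 [.n, .n, .g 3 5 3684 0, .g 64 35 0
  0]))))))) (.C 1 2 1 2 (.L 25) (.O 4))) (.L 24)) (.L 45)) (.L 6)) (.C 0 1 4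
  1 (.T 1 2 (.T 2 1 (.L 7) (.C 1 2 2 1 (.L 7) (.L 16))) (.T 1 4 (.C 1 2 2 1
  (.L 2) (.C 1 2 1 2 (.L 2) (.L 9))) (.C 1 2 2 1 (.T 1 8 (.L 17) (.C 0 1 8 1
  (.T 1 16 (.C 1 2 2 1 (.C 1 2 4 1 (.L 42) (.T 2 1 (.L 64) (.L 56))) (.L
  378)) (.C 1 2 2 1 (.C 1 2 4 1 (.T 1 32 (.C 1 2 8 1 (.L 64) (.L 56)) (.L
  56)) (.L 364)) (.O 4))) (.L 23))) (.L 9)))) (.C 1 2 4 1 (.C 0 1 1 2 (.T 1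
  2 (.L 4) (.L 10)) (.C 1 2 8 1 (.C 0 1 1 4 (.L 8) (.T 1 2 (.L 11) (.L 14)))
  (.L 8))) (.T 1 2 (.G 4 57 2 7 26 13 [.n, .n, .g 32 11 0 0, .g 8 5 0 0])
  (.L 10)))))) (.C 0 2 1 2 (.T 1 1 (.T 2 1 (.C 0 1 1 4 (.G 210 86 3 1 1 1
  [.g 1 0 2312 0, .n, .n, .g 1 0 2736 0]) (.T 4 1 (.T 8 1 (.C 1 2 8 1 (.C 0
  1 1 8 (.C 1 2 1 1 (.C 0 2 4 1 (.T 16 1 (.L 150) (.G 67 254 4 58247 116494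
  465978 [.g 32 27 0 0, .g 32 0 3 0, .n, .n, .n, .n])) (.G 336 141 3 613 153
  306 [.g 3 1 522 0, .n, .n, .g 211 2 1025 0])) (.G 348 24 0 13589 54355
  27177 [.n, .n, .n, .g 23 13 32 0, .g 32 15 7 0, .n])) (.L 40)) (.G 205 704
  3 1 1 1 [.n, .g 1 0 3340 0, .n, .n])) (.L 24)) (.L 30))) (.L 6)) (.C 0 1 1
  4 (.G 4 215 0 59 119 119 [.n, .n, .g 3 1 3629 0, .g 5 2 4370 0]) (.C 1 2 8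
  1 (.C 0 1 1 8 (.L 20) (.T 1 2 (.L 26) (.L 14))) (.L 3)))) (.C 0 2 1 4 (.T
  1 1 (.T 2 1 (.T 4 1 (.G 40 168 3 50 6 99 [.n, .n, .n, .g 1 1 305 0]) (.L
  30)) (.C 0 2 2 1 (.L 6) (.L 18))) (.C 0 1 1 8 (.L 10) (.C 1 2 16 1 (.T 1 2
  (.L 7) (.L 14)) (.L 10)))) (.C 0 2 1 8 (.T 1 1 (.L 18) (.C 0 1 1 16 (.L
  10) (.T 1 2 (.L 11) (.L 14)))) (.L 28))))) (.L 201))) (.C 0 2 8 1 (.T 1 1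
  (.T 2 1 (.T 4 1 (.T 8 1 (.C 1 2 4 1 (.C 0 1 4 1 (.C 1 2 4 1 (.L 1) (.C 0 2
  32 1 (.L 1) (.G 832 5 1 216033 216033 108016 [.g 256 41 38 0, .g 64 13 14
  0, .n, .n]))) (.C 0 2 4 1 (.L 1) (.C 0 1 1 16 (.C 1 2 1 4 (.C 1 2 2 1 (.L
  1) (.C 0 1 8 1 (.C 0 2 4 1 (.L 1) (.G 54 1 1 16 33 8 [.g 64 1 0 0, .n, .n,
  .g 64 61 0 0, .g 1 4 45126 0, .g 1 5 45655 0])) (.C 0 2 1 4 (.L 1) (.G 123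
  1 1 154 38 19 [.g 16 1 0 0, .n, .n, .n, .g 1 1 8686 0, .g 1 2 8923 0]))))
  (.C 0 2 1 2 (.C 0 2 2 1 (.C 0 1 4 1 (.L 1) (.C 1 2 1 1 (.G 54 1 1 13 6 13
  [.g 64 1 0 0, .n, .n, .g 32 25 0 0, .g 1 3 45569 0, .g 1 4 46133 0]) (.L
  1))) (.T 16 1 (.T 32 1 (.O 4) (.C 1 2 1 2 (.G 32 1 1 11 11 23 [.g 128 1 0
  0, .n, .n, .n, .g 16 9 0 0, .g 64 41 0 0]) (.O 4))) (.G 1 36 2 618 618 309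
  [.n, .g 16 3 0 0, .n, .n]))) (.T 16 1 (.C 1 2 1 8 (.T 32 1 (.O 4) (.C 1 2
  2 1 (.T 1 2 (.O 4) (.G 55 75 2 231 462 1847 [.g 25 1 8279 0, .g 413 26
  262122 0, .n, .n, .n])) (.O 4))) (.O 4)) (.T 1 2 (.C 0 1 2 1 (.C 1 2 1 16
  (.C 0 2 8 1 (.L 1) (.G 184 36 2 1 1 1 [.n, .g 1 2 3338 0, .n, .n, .g 1 95
  0 0, .g 1 103 0 0, .n, .n])) (.G 377 235 3 150652 1205215 37663 [.n, .n,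
  .n, .g 23 63 5 0])) (.G 54 180 0 1 1 1 [.n, .n, .n, .n, .g 1 24 84656 0,
  .g 1 25 89896 0])) (.L 156))))) (.C 1 2 8 1 (.L 40) (.C 1 2 1 2 (.G 141 40
  3 6 3 6 [.g 64 43 0 0, .n, .n, .n]) (.T 16 1 (.G 89 40 3 1 1 1 [.g 1 0
  1361 0, .g 24 65 52 0, .n, .n, .g 1 81 42487 0, .g 1 83 42635 0]) (.G 36
  47 0 51 51 13 [.n, .n, .g 1 0 334 0, .g 8 1 0 0]))))))) (.C 1 2 1 2 (.L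
  25) (.O 4))) (.L 15)) (.L 45)) (.L 6)) (.C 0 1 4 1 (.T 1 2 (.T 2 1 (.L 7)
  (.T 1 2 (.C 1 2 2 1 (.L 4) (.L 16)) (.L 48))) (.T 1 4 (.C 1 2 2 1 (.L 2)
  (.C 1 2 1 2 (.L 17) (.L 9))) (.C 1 2 2 1 (.T 1 8 (.L 115) (.C 0 1 8 1 (.T
  1 16 (.C 1 2 2 1 (.C 1 2 4 1 (.L 442) (.T 2 1 (.L 17) (.L 56))) (.L 9))
  (.C 1 2 2 1 (.C 1 2 4 1 (.T 1 32 (.C 1 2 8 1 (.L 64) (.L 56)) (.L 56)) (.L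
  364)) (.O 4))) (.L 23))) (.L 9)))) (.C 1 2 4 1 (.C 0 1 1 2 (.T 1 2 (.L 4)
  (.L 10)) (.C 1 2 8 1 (.C 0 1 1 4 (.L 8) (.T 1 2 (.L 11) (.L 14))) (.L 8)))
  (.T 1 2 (.G 7 57 2 6 22 11 [.n, .n, .g 64 39 0 0, .g 31 32 0 0]) (.L
  10))))) (.C 0 2 1 2 (.T 1 1 (.T 2 1 (.C 1 2 8 1 (.T 4 1 (.T 8 1 (.C 0 1 1
  4 (.C 0 1 2 1 (.O 4) (.L 25)) (.C 0 1 1 8 (.C 1 2 1 1 (.C 0 1 2 1 (.T 16 1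
  (.O 4) (.G 412 47 0 2 8 8 [.n, .g 51 41 262015 0, .g 2 1 4142 0, .g 32 13
  0 0, .g 64 11 0 0])) (.G 141 176 3 20 10 20 [.g 11 16 0 0, .n, .n, .n]))
  (.G 468 129 1 14060 56241 28121 [.n, .g 16 9 0 0, .g 64 35 0 0, .n, .n]))
  (.L 40))) (.L 15)) (.G 82 251 4 1 1 1 [.n, .n, .g 1 1 4166 0, .n, .n]))
  (.G 99 66 3 1 1 1 [.g 1 0 2179 0, .n, .n, .n])) (.L 6)) (.C 0 1 1 4 (.G 4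
  215 0 60 121 121 [.n, .n, .g 3 1 3538 0, .g 5 2 4358 0]) (.C 1 2 8 1 (.C 0
  1 1 8 (.L 20) (.T 1 2 (.L 7) (.L 14))) (.L 3)))) (.C 0 2 1 4 (.T 1 1 (.T 2
  1 (.T 4 1 (.G 44 84 3 1 1 1 [.n, .g 1 3 2069 0, .n, .n]) (.L 30)) (.C 0 2
  2 1 (.L 6) (.L 35))) (.C 0 1 1 8 (.L 10) (.C 1 2 16 1 (.T 1 2 (.L 7) (.L
  14)) (.L 10)))) (.C 0 2 1 8 (.T 1 1 (.L 18) (.T 1 2 (.L 284) (.L 14))) (.L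
  28)))))) (by decide +kernel)

theorem CS1_c3 : CoF CSTab ⟨⟨1936, 2054, 40000⟩, ⟨1936, 3388, 40000⟩, ⟨5088,
  5442, 80000⟩, ⟨0, 1⟩, ⟨2, 1⟩, ⟨1, 0, 0⟩, ⟨0, 1, 0⟩, ⟨0, 1, 1⟩⟩ :=
CoF.ofG CSTab_B CSBt_E CSBt_U (.B 0 1 1 (.B 2 1 2 (.C 0 2 8 1 (.T 1 1 (.T 2
  1 (.T 4 1 (.T 8 1 (.C 1 2 4 1 (.C 0 1 4 1 (.C 1 2 4 1 (.L 1) (.C 0 2 32 1
  (.L 1) (.G 1 68 3 292066 292066 146033 [.n, .g 6 61 5 0, .n, .n]))) (.C 0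
  2 4 1 (.L 1) (.C 0 1 1 16 (.C 1 2 1 4 (.L 1) (.C 0 2 1 2 (.L 1) (.T 16 1
  (.L 240) (.T 1 2 (.C 0 2 1 4 (.G 1 356 2 62 123 123 [.n, .g 3 8 8275 0,
  .n, .n]) (.G 91 576 2 1 1 1 [.n, .n, .g 1 0 796 0, .n])) (.L 24))))) (.C 1
  2 8 1 (.L 84) (.C 0 2 1 4 (.G 202 29 1 81031 40516 162062 [.n, .g 32 9 0
  0, .g 64 16 13 0, .g 64 4 13 0, .n]) (.T 16 1 (.L 37) (.G 67 118 2 1743980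
  435995 217997 [.g 4 9 0 0, .g 32 0 1 0, .g 3 67 0 0, .g 3 71 0 0, .n,
  .n]))))))) (.C 1 2 1 2 (.L 25) (.O 4))) (.L 15)) (.L 21)) (.L 6)) (.C 0 1
  4 1 (.T 1 2 (.T 2 1 (.L 7) (.T 1 2 (.C 1 2 2 1 (.L 4) (.L 16)) (.L 48)))
  (.T 1 4 (.C 1 2 2 1 (.L 2) (.C 1 2 1 2 (.L 2) (.L 9))) (.C 0 1 8 1 (.C 1 2
  1 1 (.T 1 8 (.C 1 2 2 1 (.L 48) (.T 2 1 (.L 17) (.L 50))) (.C 1 2 2 1 (.C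
  1 2 4 1 (.T 1 16 (.L 137) (.T 1 32 (.C 1 2 8 1 (.L 64) (.L 56)) (.L 56)))
  (.T 1 16 (.C 1 2 1 2 (.T 2 1 (.L 441) (.L 56)) (.L 56)) (.O 4))) (.O 4)))
  (.O 4)) (.L 3)))) (.C 1 2 4 1 (.C 0 1 1 2 (.G 62 492 2 1 1 1 [.g 64 27 0
  0, .n, .n, .n]) (.C 1 2 8 1 (.C 0 1 1 4 (.L 8) (.T 1 2 (.L 11) (.L 14)))
  (.L 8))) (.C 1 2 1 2 (.L 62) (.T 1 2 (.G 4 62 1 8 65 16 [.n, .n, .g 1 0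
  1757 0, .g 3 1 4183 0]) (.L 10)))))) (.C 0 2 1 2 (.T 1 1 (.T 2 1 (.C 0 1 1
  4 (.C 1 2 1 1 (.C 0 1 2 1 (.L 127) (.C 1 2 2 1 (.C 0 1 1 2 (.G 25 217 1 7
  13 13 [.g 41 65 0 0, .n, .n]) (.T 4 1 (.G 145 103 0 379087 94772 379087
  [.g 16 0 3 0, .n, .n]) (.L 61))) (.L 314))) (.L 396)) (.T 4 1 (.T 8 1 (.C
  1 2 8 1 (.C 0 1 1 8 (.C 1 2 1 1 (.C 0 1 2 1 (.T 16 1 (.O 4) (.G 416 47 0 5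
  19 19 [.g 64 9 0 0, .n, .g 64 23 0 0, .g 228 13 32811 0])) (.L 84)) (.G 24
  25 0 20028 80114 40057 [.g 39 64 0 0, .n, .n])) (.L 11)) (.C 0 2 1 1 (.L
  314) (.O 4))) (.L 15)) (.L 30))) (.L 6)) (.C 0 1 1 4 (.G 4 155 1 48 96 96
  [.n, .n, .g 64 33 0 0, .g 4 1 946 0]) (.C 1 2 8 1 (.C 0 1 1 8 (.L 20) (.T
  1 2 (.L 11) (.L 14))) (.L 23)))) (.C 0 2 1 4 (.T 1 1 (.T 2 1 (.G 44 39 3 1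
  1 1 [.n, .g 1 11 2035 0, .n, .n]) (.C 0 2 2 1 (.L 6) (.L 35))) (.C 0 1 1 8
  (.L 10) (.C 1 2 16 1 (.T 1 2 (.L 11) (.L 14)) (.L 10)))) (.C 0 2 1 8 (.T 1
  1 (.L 18) (.C 0 1 1 16 (.L 10) (.T 1 2 (.L 11) (.L 14)))) (.L 28))))) (.C
  0 2 8 1 (.T 1 1 (.T 2 1 (.T 4 1 (.T 8 1 (.C 1 2 4 1 (.C 0 1 4 1 (.C 1 2 4
  1 (.L 1) (.C 0 2 32 1 (.L 1) (.G 53 1 1 292066 292066 146033 [.g 32 3 2 0,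
  .n, .n, .n]))) (.C 0 2 4 1 (.L 1) (.C 0 1 1 16 (.G 1 53 0 68274 136548
  34137 [.n, .g 13 64 13 0, .n, .n]) (.C 1 2 8 1 (.L 31) (.C 0 2 1 4 (.G 1
  39 3 1432 716 2864 [.n, .g 51 11 65 0, .n, .n]) (.T 16 1 (.L 37) (.L
  53))))))) (.C 1 2 1 2 (.C 1 2 2 1 (.C 1 2 4 1 (.T 16 1 (.O 4) (.L 53)) (.O
  4)) (.O 4)) (.O 4))) (.L 15)) (.L 21)) (.L 6)) (.C 0 1 4 1 (.T 1 2 (.T 2 1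
  (.L 7) (.T 1 2 (.C 1 2 2 1 (.L 4) (.L 16)) (.L 16))) (.T 1 4 (.C 1 2 2 1
  (.L 2) (.C 1 2 1 2 (.L 2) (.L 9))) (.C 0 1 8 1 (.C 1 2 1 1 (.T 1 8 (.C 1 2
  2 1 (.L 48) (.T 2 1 (.L 17) (.L 50))) (.C 1 2 2 1 (.C 1 2 4 1 (.T 1 16 (.L
  137) (.T 1 32 (.C 1 2 8 1 (.L 64) (.L 56)) (.L 56))) (.T 1 16 (.C 1 2 1 2
  (.T 2 1 (.L 441) (.L 56)) (.L 56)) (.O 4))) (.O 4))) (.O 4)) (.L 23))))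
  (.C 1 2 4 1 (.C 0 1 1 2 (.G 62 114 2 1 1 1 [.g 64 27 0 0, .n, .n, .n]) (.C
  1 2 8 1 (.C 0 1 1 4 (.L 8) (.T 1 2 (.L 4) (.L 14))) (.L 8))) (.C 1 2 1 2
  (.L 3) (.T 1 2 (.G 4 62 1 8 65 16 [.n, .n, .g 1 0 1757 0, .g 3 1 4183 0])
  (.L 10)))))) (.C 0 2 1 2 (.T 1 1 (.T 2 1 (.C 0 1 1 4 (.C 0 1 2 1 (.L 127)
  (.C 1 2 1 1 (.C 1 2 2 1 (.C 0 1 1 2 (.G 217 82 3 1 1 1 [.n, .g 1 0 1004 0,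
  .n, .n, .n]) (.T 4 1 (.G 43 209 0 194724 48681 194724 [.g 64 0 11 0, .n,
  .n, .n]) (.L 61))) (.G 82 896 1 1 1 1 [.n, .n, .n, .g 1 0 1970 0, .n]))
  (.L 127))) (.T 4 1 (.T 8 1 (.C 1 2 8 1 (.C 0 1 1 8 (.G 39 53 0 67 134 134
  [.n, .n, .n, .g 5 8 965 0]) (.L 11)) (.C 0 2 1 1 (.C 0 2 2 1 (.C 0 2 4 1
  (.G 768 640 2 35716 71432 285729 [.g 5 61 7 0, .n, .n, .n]) (.O 4)) (.O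
  4)) (.O 4))) (.L 15)) (.L 30))) (.L 6)) (.C 0 1 1 4 (.G 4 63 1 30 59 59
  [.n, .n, .g 1 1 2898 0, .g 2 1 4317 0]) (.C 1 2 8 1 (.C 0 1 1 8 (.L 20)
  (.T 1 2 (.L 26) (.L 14))) (.L 23)))) (.C 0 2 1 4 (.T 1 1 (.T 2 1 (.G 196
  44 1 1 1 1 [.n, .n, .n, .g 107 2 4101 0]) (.C 0 2 2 1 (.L 6) (.L 35))) (.C
  0 1 1 8 (.L 10) (.C 1 2 16 1 (.T 1 2 (.L 7) (.L 14)) (.L 10)))) (.C 0 2 1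
  8 (.T 1 1 (.L 18) (.C 0 1 1 16 (.L 10) (.C 1 2 32 1 (.T 1 2 (.L 52) (.L
  14)) (.L 10)))) (.L 28)))))) (.B 1 2 1 (.C 0 2 8 1 (.T 1 1 (.T 2 1 (.T 4 1
  (.T 8 1 (.C 1 2 4 1 (.C 0 1 4 1 (.C 1 2 4 1 (.L 1) (.C 0 2 32 1 (.L 1) (.G
  53 110 0 61873 61873 30936 [.g 64 0 27 0, .n, .n, .n]))) (.C 0 2 4 1 (.L
  1) (.C 0 1 1 16 (.G 53 1 1 63455 126910 31728 [.g 64 13 15 0, .n, .n, .n])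
  (.C 1 2 8 1 (.L 31) (.C 1 2 1 2 (.L 111) (.C 0 2 1 4 (.G 53 165 3 5305
  5305 10610 [.g 13 2 66 0, .n, .n, .n]) (.G 53 512 1 210889 105444 26361
  [.g 64 13 21 0, .n, .n, .n]))))))) (.C 1 2 1 2 (.L 25) (.O 4))) (.L 15))
  (.L 21)) (.L 6)) (.C 0 1 4 1 (.T 1 2 (.T 2 1 (.L 7) (.T 1 2 (.C 1 2 2 1
  (.L 4) (.L 16)) (.L 48))) (.T 1 4 (.C 1 2 2 1 (.L 2) (.C 1 2 1 2 (.L 17)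
  (.L 9))) (.C 1 2 2 1 (.C 0 1 8 1 (.T 1 8 (.C 1 2 2 1 (.L 17) (.T 2 1 (.L
  2) (.L 72))) (.C 1 2 2 1 (.T 1 16 (.C 1 2 4 1 (.C 1 2 8 1 (.L 167) (.T 2 1
  (.L 108) (.T 1 2 (.L 410) (.L 58)))) (.T 2 1 (.C 1 2 1 2 (.L 115) (.L 56))
  (.L 56))) (.C 1 2 4 1 (.T 1 32 (.C 1 2 8 1 (.C 1 2 16 1 (.T 2 1 (.L 51)
  (.L 490)) (.L 58)) (.L 56)) (.L 230)) (.L 392))) (.L 9))) (.L 3)) (.L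
  9)))) (.C 1 2 4 1 (.C 0 1 1 2 (.T 1 2 (.L 4) (.L 10)) (.C 1 2 8 1 (.C 0 1
  1 4 (.L 8) (.T 1 2 (.L 11) (.L 14))) (.L 8))) (.T 1 2 (.G 7 57 2 5 22 11
  [.n, .n, .g 64 45 0 0, .g 64 61 0 0]) (.L 10))))) (.C 0 2 1 2 (.T 1 1 (.T
  2 1 (.C 1 2 8 1 (.T 4 1 (.T 8 1 (.C 0 1 1 4 (.G 473 511 0 121 241 483 [.g
  9 0 64 0, .g 1 0 109 0, .g 1 0 3842 0, .g 1 0 4950 0, .n, .n]) (.G 165 53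
  0 220 27 439 [.n, .n, .n, .g 5 6 244 0])) (.L 15)) (.L 104)) (.G 383 44 1
  1 1 1 [.g 2 1 7393 0, .g 12 5 15904 0, .n, .n])) (.L 6)) (.C 0 1 1 4 (.C 0
  1 2 1 (.G 474 447 0 108 430 215 [.g 512 1 0 0, .g 2048 3 0 0, .n, .n, .n,
  .n, .g 64 29 0 0, .g 16 9 0 0]) (.L 3)) (.C 1 2 8 1 (.C 0 1 1 8 (.L 20)
  (.T 1 2 (.L 11) (.L 14))) (.L 3)))) (.C 0 2 1 4 (.T 1 1 (.T 2 1 (.G 111 60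
  1 1 1 1 [.n, .n, .n, .g 144 2 4093 0]) (.C 0 2 2 1 (.L 6) (.L 35))) (.C 0
  1 1 8 (.L 10) (.C 1 2 16 1 (.T 1 2 (.L 11) (.L 14)) (.L 10)))) (.C 0 2 1 8
  (.T 1 1 (.L 18) (.C 0 1 1 16 (.L 10) (.C 0 2 1 1 (.L 49) (.L 28)))) (.L
  28))))) (.C 0 2 8 1 (.T 1 1 (.T 2 1 (.T 4 1 (.T 8 1 (.C 1 2 4 1 (.C 0 1 4
  1 (.C 1 2 4 1 (.L 1) (.C 0 2 32 1 (.L 1) (.G 5 68 3 230088 230088 115044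
  [.n, .g 7 68 7 0, .n, .n]))) (.C 0 2 4 1 (.L 1) (.C 0 1 1 16 (.C 1 2 1 4
  (.L 1) (.C 0 2 1 2 (.L 1) (.T 16 1 (.L 240) (.T 1 2 (.T 2 1 (.L 313) (.L
  319)) (.L 24))))) (.C 1 2 8 1 (.L 84) (.C 1 2 1 2 (.L 84) (.T 16 1 (.C 0 2
  1 4 (.B 2 1 1 (.G 479 176 3 1 1 1 [.g 1 2 1503 0, .n, .n, .g 2 34 4157 0])
  (.G 351 84 3 1 1 1 [.n, .n, .g 2 8 4389 0, .n])) (.L 37)) (.G 91 68 3 23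
  23 6 [.n, .n, .g 1 0 353 0, .g 32 3 0 0]))))))) (.C 1 2 1 2 (.L 25) (.O
  4))) (.L 15)) (.L 21)) (.L 6)) (.C 0 1 4 1 (.T 1 2 (.T 2 1 (.L 7) (.T 1 2
  (.C 1 2 2 1 (.L 4) (.L 16)) (.L 48))) (.T 1 4 (.C 1 2 2 1 (.L 2) (.C 1 2 1
  2 (.L 2) (.L 9))) (.C 1 2 2 1 (.T 1 8 (.L 17) (.C 0 1 8 1 (.C 1 2 2 1 (.T
  1 16 (.C 1 2 4 1 (.L 442) (.T 2 1 (.L 17) (.L 56))) (.C 1 2 4 1 (.T 1 32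
  (.C 1 2 8 1 (.L 64) (.L 56)) (.L 56)) (.L 364))) (.L 9)) (.L 23))) (.L
  9)))) (.C 1 2 4 1 (.C 0 1 1 2 (.T 1 2 (.L 4) (.L 10)) (.C 1 2 8 1 (.C 0 1
  1 4 (.L 8) (.T 1 2 (.L 11) (.L 14))) (.L 8))) (.T 1 2 (.G 4 57 2 6 26 13
  [.n, .n, .g 64 21 0 0, .g 64 41 0 0]) (.L 10))))) (.C 0 2 1 2 (.T 1 1 (.T
  2 1 (.C 1 2 8 1 (.T 4 1 (.T 8 1 (.C 0 1 1 4 (.G 473 415 0 35 70 141 [.g 2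
  0 57 0, .g 1 0 378 0, .g 1 0 13160 0, .g 1 0 16958 0, .n, .n]) (.C 0 1 1 8
  (.C 1 2 1 1 (.C 0 1 2 1 (.T 16 1 (.O 4) (.G 171 68 3 2 9 9 [.g 64 7 0 0,
  .n, .g 1 2 5476 0, .n])) (.L 84)) (.G 314 161 3 13341 53365 26683 [.g 32 9
  0 0, .g 32 19 0 0, .n, .n])) (.L 11))) (.L 15)) (.G 30 297 0 1 1 1 [.n, .g
  1 0 1995 0, .n, .n])) (.G 99 60 1 1 1 1 [.g 1 0 2088 0, .n, .n, .g 11 1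
  4117 0])) (.L 6)) (.C 0 1 1 4 (.C 0 1 2 1 (.G 474 287 1 63 251 126 [.g 256
  1 0 0, .g 512 1 0 0, .n, .n, .n, .n, .g 64 35 0 0, .g 32 23 0 0]) (.L 23))
  (.C 1 2 8 1 (.C 0 1 1 8 (.L 20) (.T 1 2 (.L 11) (.L 14))) (.L 23)))) (.C 0
  2 1 4 (.T 1 1 (.T 2 1 (.G 39 60 1 1 1 1 [.n, .n, .n, .g 10 1 2049 0]) (.C
  0 2 2 1 (.L 6) (.L 35))) (.C 0 1 1 8 (.L 10) (.C 1 2 16 1 (.T 1 2 (.L 11)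
  (.L 14)) (.L 10)))) (.C 0 2 1 8 (.T 1 1 (.L 18) (.C 0 1 1 16 (.L 10) (.T 1
  2 (.L 11) (.L 14)))) (.L 28))))))) (by decide +kernel)

theorem CS1_c4 : CoF CSTab ⟨⟨360, 360, 20000⟩, ⟨720, 2054, 40000⟩, ⟨1936,
  2054, 40000⟩, ⟨0, 1⟩, ⟨2, 1⟩, ⟨1, 0, 0⟩, ⟨0, 1, 0⟩, ⟨0, 1, 1⟩⟩ :=
CoF.ofG CSTab_B CSBt_E CSBt_U (.B 2 1 2 (.B 1 1 1 (.B 0 1 2 (.C 0 2 8 1 (.B
  1 1 2 (.L 428) (.C 0 1 4 1 (.B 2 1 1 (.T 1 1 (.T 2 1 (.C 1 2 2 1 (.T 4 1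
  (.T 8 1 (.C 1 2 4 1 (.L 1) (.C 1 2 1 2 (.T 16 1 (.O 4) (.L 22)) (.L 46)))
  (.L 22)) (.L 21)) (.C 0 1 32 1 (.C 0 1 64 1 (.C 0 1 128 1 (.C 0 1 256 1
  (.C 0 2 16 1 (.C 0 1 512 1 (.C 1 2 1 32 (.C 1 2 2 1 (.C 1 2 4 1 (.L 46)
  (.L 185)) (.O 4)) (.O 4)) (.G 73 34 1 8388607 4194304 262144 [.g 32 1 0 0,
  .n, .g 2 81 0 0, .g 1 42 0 0, .n, .n])) (.C 1 2 1 32 (.C 0 1 16 1 (.O 4)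
  (.G 83 185 3 8388607 4194304 8388607 [.n, .g 64 2 5 0, .n, .n])) (.O 4)))
  (.G 41 304 1 8388607 4194304 262144 [.g 256 11 1 0, .n, .g 1 84 6 0, .g 1
  89 6 0, .n, .n])) (.G 113 34 1 8388607 4194304 524288 [.g 64 1 0 0, .n, .g
  1 41 0 0, .g 1 43 0 0, .n, .n])) (.G 113 147 1 8388607 4194304 1048576
  [.n, .n, .g 1 41 0 0, .g 1 43 0 0, .n, .n])) (.G 101 34 1 6713473 3356736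
  1678368 [.n, .n, .g 1 40 0 0, .g 2 85 0 0, .n, .n, .n, .n]))) (.L 6)) (.C
  0 1 8 1 (.T 1 2 (.T 2 1 (.L 7) (.T 1 2 (.C 1 2 1 1 (.L 4) (.L 2)) (.L
  16))) (.T 1 4 (.C 1 2 1 1 (.L 2) (.L 9)) (.C 1 2 1 1 (.T 1 8 (.C 1 2 2 1
  (.L 48) (.C 1 2 1 2 (.L 38) (.L 9))) (.C 1 2 2 1 (.T 1 16 (.C 1 2 4 1 (.L
  137) (.C 1 2 1 2 (.T 2 1 (.L 64) (.L 56)) (.L 56))) (.C 1 2 4 1 (.T 1 32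
  (.C 1 2 8 1 (.L 64) (.L 56)) (.L 56)) (.O 4))) (.O 4))) (.O 4)))) (.T 1 2
  (.G 62 33 1 10 5 10 [.n, .g 32 5 0 0, .g 32 25 0 0, .n]) (.L 3)))) (.B 2 1
  2 (.B 1 1 2 (.L 428) (.T 1 1 (.T 2 1 (.C 1 2 2 1 (.T 4 1 (.T 8 1 (.C 1 2 4
  1 (.L 1) (.L 19)) (.L 22)) (.L 92)) (.C 0 1 32 1 (.C 0 1 64 1 (.C 0 1 128
  1 (.C 0 1 256 1 (.C 1 2 1 32 (.C 0 2 1024 1 (.C 0 1 512 1 (.C 1 2 2 1 (.C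
  1 2 4 1 (.L 19) (.L 185)) (.O 4)) (.G 113 34 1 4194304 2097152 8388607
  [.n, .n, .g 1 229 0 0, .g 1 241 0 0, .n, .n])) (.G 185 34 1 8388607
  2097152 4194304 [.n, .n, .n, .g 11 66 5 0])) (.O 4)) (.G 113 34 1 8388607
  4194304 262144 [.n, .n, .g 1 41 0 0, .g 1 43 0 0, .n, .n])) (.G 101 83 1
  8388607 4194304 524288 [.n, .n, .g 1 41 0 0, .g 1 43 0 0, .n, .n, .n,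
  .n])) (.G 101 83 1 8388607 4194304 1048576 [.n, .n, .g 1 41 0 0, .g 1 43 0
  0, .n, .n, .n, .n])) (.G 41 19 1 8388607 4194304 2097152 [.n, .n, .g 1 90
  1 0, .g 1 95 1 0, .n, .n]))) (.L 6)) (.C 0 1 8 1 (.T 1 2 (.T 2 1 (.L 7)
  (.T 1 2 (.C 1 2 1 1 (.L 4) (.L 2)) (.L 16))) (.T 1 4 (.C 1 2 1 1 (.L 2)
  (.L 9)) (.C 1 2 1 1 (.T 1 8 (.C 1 2 2 1 (.L 2) (.C 1 2 1 2 (.L 17) (.L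
  9))) (.C 1 2 2 1 (.C 1 2 4 1 (.T 1 16 (.L 464) (.C 1 2 8 1 (.T 1 32 (.L
  64) (.L 56)) (.L 56))) (.T 1 16 (.C 1 2 1 2 (.L 496) (.L 56)) (.O 4))) (.O
  4))) (.O 4)))) (.T 1 2 (.G 63 33 1 14 7 14 [.g 16 11 0 0, .g 5 1 4346 0,
  .n, .n]) (.L 3))))) (.L 428))) (.T 1 1 (.T 2 1 (.T 4 1 (.T 8 1 (.C 0 2 2 1
  (.C 0 2 4 1 (.L 1) (.C 1 2 8 1 (.L 1) (.G 128 126 0 50865 50865 25433 [.g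
  32 0 11 0, .n, .n, .n]))) (.C 1 2 4 1 (.T 16 1 (.L 238) (.L 22)) (.C 1 2 1
  2 (.L 46) (.O 4)))) (.L 22)) (.L 30)) (.L 6)) (.C 1 2 4 1 (.C 0 1 1 2 (.L
  27) (.C 1 2 8 1 (.C 0 1 1 4 (.L 8) (.T 1 2 (.L 4) (.L 14))) (.L 8))) (.L
  3))))) (.C 0 2 1 2 (.T 1 1 (.T 2 1 (.C 0 1 1 4 (.C 1 2 1 1 (.G 149 245 2 2
  4 7 [.g 64 27 0 0, .g 1 1 3092 0, .n, .n]) (.L 396)) (.G 31 60 1 1 1 1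
  [.n, .n, .n, .g 7943 37 65536 0])) (.L 6)) (.C 0 1 1 4 (.L 23) (.C 1 2 8 1
  (.C 0 1 1 8 (.L 20) (.T 1 2 (.L 26) (.L 14))) (.L 23)))) (.C 0 2 1 4 (.T 1
  1 (.G 70 11 3 1 1 1 [.g 3 65 0 0, .n, .n, .n, .g 2 53 0 0]) (.C 0 1 1 8
  (.L 10) (.C 1 2 16 1 (.T 1 2 (.L 7) (.L 14)) (.L 10)))) (.C 0 2 1 8 (.T 1
  1 (.L 11) (.C 0 1 1 16 (.L 10) (.C 1 2 32 1 (.T 1 2 (.L 52) (.L 14)) (.L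
  10)))) (.L 28))))) (.B 1 2 1 (.L 241) (.B 1 1 2 (.L 241) (.B 2 2 1 (.B 2 4
  1 (.C 0 2 8 1 (.B 1 1 4 (.L 332) (.C 0 1 4 1 (.T 1 1 (.T 2 1 (.C 1 2 2 1
  (.T 4 1 (.T 8 1 (.C 1 2 4 1 (.L 1) (.C 1 2 1 2 (.T 16 1 (.O 4) (.L 22))
  (.L 46))) (.L 22)) (.L 21)) (.C 0 1 32 1 (.C 0 1 64 1 (.C 0 1 128 1 (.C 0
  1 256 1 (.C 1 2 1 32 (.C 0 1 512 1 (.C 1 2 1 1 (.C 1 2 2 1 (.C 1 2 4 1 (.L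
  46) (.L 264)) (.O 4)) (.O 4)) (.G 41 304 1 8388607 4194304 8388607 [.g 64
  10 1 0, .n, .g 2 286 33 0, .g 2 301 34 0, .n, .n])) (.O 4)) (.G 41 292 1
  8388607 4194304 262144 [.g 256 11 1 0, .n, .g 1 84 6 0, .g 1 89 6 0, .n,
  .n])) (.G 73 149 1 8388607 4194304 524288 [.g 64 1 0 0, .g 256 0 1 0, .g 1
  40 0 0, .g 1 42 0 0, .n, .n])) (.G 101 149 1 8388607 4194304 1048576 [.n,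
  .n, .g 2 81 0 0, .g 1 43 0 0, .n, .n, .n, .n])) (.G 41 149 1 8388607
  4194304 2097152 [.n, .n, .g 1 90 1 0, .g 1 95 1 0, .n, .n]))) (.L 6)) (.C
  0 1 8 1 (.T 1 2 (.T 2 1 (.L 7) (.T 1 2 (.C 1 2 1 1 (.L 4) (.L 2)) (.L
  48))) (.T 1 4 (.C 1 2 1 1 (.L 2) (.L 9)) (.C 1 2 1 1 (.T 1 8 (.C 1 2 2 1
  (.L 48) (.C 1 2 1 2 (.L 496) (.L 9))) (.C 1 2 2 1 (.T 1 16 (.C 1 2 4 1 (.L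
  137) (.C 1 2 1 2 (.T 2 1 (.L 17) (.L 56)) (.L 56))) (.C 1 2 4 1 (.T 1 32
  (.C 1 2 8 1 (.L 122) (.L 56)) (.L 56)) (.O 4))) (.O 4))) (.O 4)))) (.G 7
  63 0 82 41 82 [.n, .n, .g 32 7 0 0, .g 64 11 0 0]))) (.T 1 1 (.T 2 1 (.T 4
  1 (.T 8 1 (.C 0 2 2 1 (.C 0 2 4 1 (.L 1) (.C 1 2 8 1 (.L 1) (.G 208 256 0
  47925 47925 23963 [.g 64 43 24 0, .n, .n, .n]))) (.C 1 2 4 1 (.T 16 1 (.L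
  312) (.L 22)) (.G 495 166 1 1 1 1 [.g 57 64 0 0, .n, .g 1 0 1770 0, .n])))
  (.L 22)) (.L 30)) (.L 6)) (.C 1 2 4 1 (.C 0 1 1 2 (.L 27) (.C 1 2 8 1 (.C
  0 1 1 4 (.L 8) (.T 1 2 (.L 11) (.L 14))) (.L 8))) (.L 3))))) (.C 0 2 1 2
  (.T 1 1 (.T 2 1 (.C 0 1 1 4 (.C 0 1 2 1 (.L 190) (.C 1 2 1 1 (.G 300 44 1
  3 2 3 [.g 32 21 0 0, .n, .n, .n]) (.L 127))) (.G 31 60 1 1 1 1 [.n, .n,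
  .n, .g 7903 37 65536 0])) (.L 6)) (.C 0 1 1 4 (.L 23) (.C 1 2 8 1 (.C 0 1
  1 8 (.L 20) (.T 1 2 (.L 11) (.L 14))) (.L 23)))) (.C 0 2 1 4 (.T 1 1 (.G
  70 199 3 1 1 1 [.g 1 296 0 0, .n, .n, .n, .g 1 434 0 0]) (.C 0 1 1 8 (.L
  10) (.C 1 2 16 1 (.T 1 2 (.L 11) (.L 14)) (.L 10)))) (.C 0 2 1 8 (.T 1 1
  (.L 11) (.C 0 1 1 16 (.L 10) (.T 1 2 (.L 11) (.L 14)))) (.L 28))))) (.L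
  332)) (.L 241))))) (.B 2 2 1 (.C 0 2 8 1 (.T 1 1 (.T 2 1 (.T 4 1 (.T 8 1
  (.C 1 2 4 1 (.C 0 1 4 1 (.C 1 2 4 1 (.L 1) (.C 0 2 32 1 (.L 1) (.G 110 200
  0 21201 21201 10601 [.g 32 26 13 0, .n, .n, .n]))) (.C 0 2 4 1 (.L 1) (.C
  1 2 8 1 (.G 196 1 1 3491 218 3491 [.n, .n, .n, .g 17 63 0 0]) (.T 16 1 (.C
  0 2 1 2 (.C 0 1 1 1 (.L 1) (.L 37)) (.L 37)) (.L 53))))) (.C 1 2 1 2 (.L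
  46) (.O 4))) (.L 15)) (.C 0 2 16 1 (.L 21) (.L 41))) (.L 6)) (.C 0 1 4 1
  (.C 0 1 8 1 (.T 1 2 (.T 2 1 (.L 7) (.T 1 2 (.C 1 2 1 1 (.L 4) (.L 2)) (.L
  16))) (.T 1 4 (.C 1 2 1 1 (.L 2) (.L 9)) (.C 1 2 1 1 (.T 1 8 (.C 1 2 2 1
  (.L 48) (.T 2 1 (.L 17) (.L 50))) (.C 1 2 2 1 (.C 1 2 4 1 (.T 1 16 (.L
  137) (.C 1 2 8 1 (.T 1 32 (.L 64) (.L 56)) (.L 120))) (.T 1 16 (.C 1 2 1 2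
  (.T 2 1 (.L 64) (.L 56)) (.L 120)) (.O 4))) (.O 4))) (.O 4)))) (.T 1 2 (.G
  78 33 1 15 7 15 [.g 8 2 269 0, .n, .g 64 47 0 0, .g 64 17 0 0]) (.L 63)))
  (.C 1 2 4 1 (.C 0 1 1 2 (.L 27) (.C 1 2 8 1 (.C 0 1 1 4 (.L 8) (.T 1 2 (.L
  4) (.L 14))) (.L 8))) (.C 1 2 1 2 (.L 3) (.T 1 2 (.G 4 203 3 8 66 16 [.n,
  .n, .g 1 0 1373 0, .g 3 1 3690 0]) (.L 10)))))) (.C 0 2 1 2 (.T 1 1 (.T 2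
  1 (.C 1 2 8 1 (.T 4 1 (.T 8 1 (.C 0 1 1 4 (.C 0 1 2 1 (.O 4) (.L 46)) (.G
  208 196 3 306 38 612 [.g 9 8 262 0, .n, .n, .n])) (.L 15)) (.L 30)) (.G
  104 44 1 1 1 1 [.n, .n, .g 1 1 2487 0, .n, .n])) (.L 6)) (.C 0 1 1 4 (.G 4
  404 1 45 90 90 [.n, .n, .g 3 1 4873 0, .g 3 1 3608 0]) (.C 1 2 8 1 (.C 0 1
  1 8 (.L 20) (.T 1 2 (.L 26) (.L 14))) (.L 23)))) (.C 0 2 1 4 (.T 1 1 (.T 2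
  1 (.G 94 345 3 1 1 1 [.n, .n, .g 1 22 401 0, .n]) (.C 0 2 2 1 (.L 6) (.L
  49))) (.C 0 1 1 8 (.L 10) (.C 1 2 16 1 (.T 1 2 (.L 7) (.L 14)) (.L 10))))
  (.C 0 2 1 8 (.T 1 1 (.L 18) (.C 0 1 1 16 (.L 10) (.T 1 2 (.L 52) (.L
  14)))) (.L 28))))) (.C 0 2 8 1 (.T 1 1 (.T 2 1 (.T 4 1 (.T 8 1 (.C 1 2 4 1
  (.C 0 1 4 1 (.C 1 2 4 1 (.L 1) (.C 0 2 32 1 (.L 1) (.G 1 126 0 317220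
  317220 158610 [.n, .g 2 63 1 0, .n, .n]))) (.C 0 2 4 1 (.L 1) (.C 1 2 8 1
  (.G 31 1 1 3491 218 3491 [.n, .n, .n, .g 25 63 0 0]) (.T 16 1 (.L 238) (.L
  22))))) (.C 1 2 1 2 (.L 46) (.O 4))) (.L 22)) (.C 0 2 16 1 (.L 21) (.L
  41))) (.L 6)) (.C 0 1 4 1 (.C 0 1 8 1 (.T 1 2 (.T 2 1 (.L 7) (.T 1 2 (.C 1
  2 1 1 (.L 4) (.L 2)) (.L 16))) (.T 1 4 (.C 1 2 1 1 (.L 2) (.L 9)) (.C 1 2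
  1 1 (.T 1 8 (.C 1 2 2 1 (.L 48) (.T 2 1 (.L 17) (.L 50))) (.C 1 2 2 1 (.C
  1 2 4 1 (.T 1 16 (.L 137) (.C 1 2 8 1 (.T 1 32 (.L 64) (.L 56)) (.L 120)))
  (.T 1 16 (.C 1 2 1 2 (.T 2 1 (.L 64) (.L 56)) (.L 120)) (.O 4))) (.O 4)))
  (.O 4)))) (.T 1 2 (.G 62 33 1 10 5 10 [.n, .g 32 5 0 0, .g 64 51 0 0, .n])
  (.L 27))) (.C 1 2 4 1 (.C 0 1 1 2 (.L 27) (.C 1 2 8 1 (.C 0 1 1 4 (.L 8)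
  (.T 1 2 (.L 4) (.L 14))) (.L 8))) (.L 114)))) (.C 0 2 1 2 (.T 1 1 (.T 2 1
  (.C 1 2 8 1 (.T 4 1 (.T 8 1 (.C 0 1 1 4 (.C 0 1 2 1 (.O 4) (.L 46)) (.G
  236 231 3 8 1 16 [.g 1 1 15 0, .n, .n, .n])) (.L 22)) (.L 30)) (.G 44 148
  0 1 1 1 [.n, .g 3 2 8863 0, .n, .n])) (.L 6)) (.C 0 1 1 4 (.L 23) (.C 1 2
  8 1 (.C 0 1 1 8 (.L 20) (.T 1 2 (.L 26) (.L 14))) (.L 23)))) (.C 0 2 1 4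
  (.T 1 1 (.G 114 11 3 1 1 1 [.g 1 67 0 0, .g 1 41 0 0, .g 5 63 0 0, .g 1 0
  77 0, .n]) (.C 0 1 1 8 (.L 10) (.C 1 2 16 1 (.T 1 2 (.L 7) (.L 14)) (.L
  10)))) (.C 0 2 1 8 (.T 1 1 (.L 18) (.C 0 1 1 16 (.L 10) (.T 1 2 (.L 52)
  (.L 14)))) (.L 28))))))) (.B 0 2 1 (.B 2 1 4 (.L 460) (.L 241)) (.B 1 2 1
  (.L 241) (.L 460)))) (by decide +kernel)

theorem CS1_c5 : CoF CSTab ⟨⟨720, 2054, 40000⟩, ⟨360, 1694, 20000⟩, ⟨2656,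
  5442, 80000⟩, ⟨0, 1⟩, ⟨2, 1⟩, ⟨1, 0, 0⟩, ⟨0, 1, 0⟩, ⟨0, 1, 1⟩⟩ :=
CoF.ofG CSTab_B CSBt_E CSBt_U (.B 0 1 2 (.B 2 1 2 (.B 1 1 1 (.L 241) (.B 1 1
  2 (.L 151) (.B 2 2 1 (.B 1 1 4 (.L 151) (.B 2 4 1 (.B 1 1 8 (.L 268) (.B 2
  8 1 (.C 0 2 8 1 (.B 1 1 16 (.L 88) (.C 0 1 4 1 (.T 1 1 (.T 2 1 (.T 4 1 (.T
  8 1 (.C 1 2 2 1 (.C 1 2 4 1 (.L 1) (.C 1 2 1 2 (.C 0 2 128 1 (.C 0 1 64 1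
  (.C 0 2 256 1 (.C 0 1 128 1 (.C 0 2 512 1 (.C 0 1 256 1 (.C 0 2 1024 1 (.C
  0 2 2048 1 (.C 0 1 512 1 (.C 0 2 4096 1 (.C 0 2 8192 1 (.C 1 2 16 1 (.L 1)
  (.C 1 2 1 2 (.L 1) (.T 16 1 (.O 4) (.L 22)))) (.G 110 5 0 6965058 435316
  3482529 [.g 32 7 6 0, .n, .n, .n])) (.G 236 110 0 2309145 288643 1154572
  [.g 33 64 17 0, .n, .n, .n])) (.G 208 43 0 2097152 1048576 8388607 [.g 1 9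
  5 0, .n, .n, .n])) (.G 236 110 0 1145481 143185 572741 [.g 32 65 17 0, .n,
  .n, .n])) (.G 93 110 0 8388607 2097152 4194304 [.g 2 315 6 0, .n, .n,
  .n])) (.G 208 43 0 3175399 1587700 6350798 [.g 6 64 11 0, .n, .n, .n]))
  (.G 93 110 0 6506646 1626661 3253323 [.g 1 167 2 0, .n, .n, .n])) (.G 208
  43 0 1481853 740926 2963706 [.g 3 64 10 0, .n, .n, .n])) (.G 93 110 0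
  3036435 759109 1518217 [.g 1 190 2 0, .n, .n, .n])) (.G 22 43 0 424685
  212343 849371 [.g 32 0 3 0, .n, .n, .n])) (.G 200 5 0 381827 95457 190914
  [.g 29 63 5 0, .n, .n, .n])) (.L 426))) (.O 4)) (.L 22)) (.L 21)) (.L 6))
  (.C 0 1 8 1 (.T 1 2 (.T 2 1 (.L 7) (.T 1 2 (.C 1 2 1 1 (.L 4) (.L 2)) (.L
  48))) (.T 1 4 (.C 1 2 1 1 (.L 2) (.L 9)) (.C 1 2 1 1 (.C 1 2 2 1 (.T 1 8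
  (.L 17) (.C 1 2 4 1 (.T 1 16 (.C 1 2 8 1 (.L 108) (.T 2 1 (.L 51) (.T 1 2
  (.L 135) (.L 164)))) (.T 1 32 (.C 1 2 8 1 (.T 2 1 (.C 1 2 16 1 (.L 51) (.L
  164)) (.L 164)) (.L 90)) (.L 106))) (.L 72))) (.T 1 8 (.C 1 2 1 2 (.L 72)
  (.L 9)) (.O 4))) (.O 4)))) (.G 7 63 0 92 46 92 [.n, .n, .g 32 7 0 0, .g 64
  11 0 0]))) (.T 1 1 (.T 2 1 (.T 4 1 (.T 8 1 (.C 0 2 2 1 (.C 0 2 4 1 (.L 1)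
  (.C 1 2 8 1 (.L 1) (.G 208 79 0 47925 47925 23963 [.g 8 0 3 0, .n, .n,
  .n]))) (.T 16 1 (.L 458) (.L 22))) (.L 22)) (.L 30)) (.L 6)) (.C 1 2 4 1
  (.C 0 1 1 2 (.L 27) (.G 11 95 3 1 1 1 [.n, .n, .n, .g 256 1 0 0])) (.L
  3))))) (.C 0 2 1 2 (.T 1 1 (.T 2 1 (.C 1 2 8 1 (.C 0 1 1 4 (.C 0 1 2 1 (.G
  44 346 3 1 1 1 [.n, .g 2 0 4299 0, .n, .n]) (.T 4 1 (.G 22 93 0 75449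
  37725 75449 [.g 64 9 7 0, .n, .n, .n]) (.L 66))) (.L 31)) (.G 489 245 2 1
  1 1 [.n, .g 1 2 5753 0, .n])) (.L 6)) (.C 0 1 1 4 (.L 23) (.C 1 2 8 1 (.G
  11 95 3 1 1 1 [.n, .n, .n, .g 64 1 0 0]) (.L 23)))) (.C 0 2 1 4 (.T 1 1
  (.G 70 231 3 1 1 1 [.g 1 407 0 0, .n, .n, .n, .g 1 517 0 0]) (.G 95 11 3 1
  1 1 [.n, .n, .n, .g 1 61 0 0, .n])) (.L 11)))) (.L 88))) (.L 268))) (.L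
  151)))) (.L 241)) (.B 1 4 1 (.L 192) (.B 2 1 1 (.B 1 1 2 (.L 192) (.B 2 2
  1 (.B 1 1 4 (.L 192) (.B 2 4 1 (.B 1 1 8 (.L 151) (.B 2 8 1 (.B 1 1 16 (.L
  88) (.C 0 2 8 1 (.C 0 1 4 1 (.B 2 16 1 (.T 1 1 (.T 2 1 (.T 4 1 (.T 8 1 (.C
  1 2 2 1 (.C 1 2 4 1 (.L 1) (.C 1 2 1 2 (.C 0 2 128 1 (.C 0 1 64 1 (.C 0 2
  256 1 (.C 0 1 128 1 (.C 0 2 512 1 (.C 0 1 256 1 (.C 0 2 1024 1 (.C 0 2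
  2048 1 (.C 0 1 512 1 (.C 0 2 4096 1 (.G 409 43 0 1024 1048576 8388607 [.g
  5 60 68 0, .n, .n, .n]) (.G 236 24 0 8388607 1048576 4194304 [.g 64 0 1 0,
  .n, .n, .n])) (.G 22 1 0 2097152 1048576 8388607 [.g 6 13 3 0, .n, .n,
  .n])) (.G 43 97 0 8388607 1048576 4194304 [.g 64 0 31 0, .n, .n, .n])) (.G
  128 97 0 8388607 2097152 4194304 [.g 64 0 17 0, .n, .n, .n])) (.G 43 1 0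
  2123426 1061713 4246853 [.g 18 63 7 0, .n, .n, .n])) (.G 128 97 0 6740418
  1685104 3370209 [.g 32 0 5 0, .n, .n, .n])) (.G 22 1 0 827292 413646
  1654584 [.g 25 63 7 0, .n, .n, .n])) (.G 128 97 0 3145528 786382 1572764
  [.g 64 0 9 0, .n, .n, .n])) (.G 22 1 0 354554 177277 709108 [.g 17 65 5 0,
  .n, .n, .n])) (.G 43 409 0 958901 239725 479450 [.g 64 0 9 0, .n, .n,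
  .n])) (.L 426))) (.O 4)) (.L 22)) (.L 21)) (.L 6)) (.C 0 1 8 1 (.T 1 2 (.T
  2 1 (.L 7) (.T 1 2 (.C 1 2 1 1 (.L 4) (.L 2)) (.L 48))) (.T 1 4 (.C 1 2 1
  1 (.L 2) (.L 9)) (.C 1 2 1 1 (.C 1 2 2 1 (.T 1 8 (.L 115) (.C 1 2 4 1 (.C
  1 2 8 1 (.T 1 16 (.L 51) (.T 1 32 (.T 2 1 (.C 1 2 16 1 (.L 51) (.L 164))
  (.L 164)) (.L 90))) (.T 1 16 (.T 2 1 (.L 51) (.T 1 2 (.L 135) (.L 164)))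
  (.L 106))) (.L 72))) (.T 1 8 (.C 1 2 1 2 (.L 72) (.L 9)) (.O 4))) (.O
  4)))) (.G 7 63 0 92 46 92 [.n, .n, .g 32 7 0 0, .g 64 11 0 0]))) (.L 88))
  (.T 1 1 (.T 2 1 (.T 4 1 (.T 8 1 (.C 0 2 2 1 (.C 0 2 4 1 (.L 1) (.C 1 2 8 1
  (.L 1) (.G 162 1 0 23228 23228 11614 [.g 64 24 25 0, .n, .n, .n]))) (.T 16
  1 (.L 458) (.L 22))) (.L 22)) (.L 30)) (.L 6)) (.C 1 2 4 1 (.C 0 1 1 2 (.L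
  27) (.G 11 95 3 1 1 1 [.n, .n, .n, .g 256 1 0 0])) (.L 3)))) (.C 0 2 1 2
  (.T 1 1 (.T 2 1 (.C 1 2 8 1 (.C 0 1 1 4 (.C 0 1 2 1 (.G 245 60 1 1 1 1
  [.n, .n, .g 1 1 3182 0, .n]) (.T 4 1 (.G 162 274 0 53204 26602 53204 [.g 8
  0 1 0, .n, .n, .n]) (.L 66))) (.L 31)) (.G 63 44 1 1 1 1 [.n, .g 1 2 6811
  0, .n, .n])) (.L 6)) (.C 0 1 1 4 (.L 23) (.C 1 2 8 1 (.G 95 11 3 1 1 1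
  [.n, .n, .n, .g 3 55 0 0, .n]) (.L 23)))) (.C 0 2 1 4 (.T 1 1 (.G 70 199 3
  1 1 1 [.g 1 290 0 0, .n, .n, .n, .g 1 405 0 0]) (.G 95 11 3 1 1 1 [.n, .n,
  .n, .g 1 61 0 0, .n])) (.L 11))))) (.L 151))) (.L 151))) (.L 192))) (.L
  192)))) (by decide +kernel)

theorem CS1_c6 : CoF CSTab ⟨⟨2656, 4108, 80000⟩, ⟨2656, 5442, 80000⟩, ⟨1936,
  2054, 40000⟩, ⟨0, 1⟩, ⟨2, 1⟩, ⟨1, 0, 0⟩, ⟨0, 1, 0⟩, ⟨0, 1, 1⟩⟩ :=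
CoF.ofG CSTab_B CSBt_E CSBt_U (.B 1 1 2 (.C 0 2 8 1 (.T 1 1 (.T 2 1 (.T 4 1
  (.T 8 1 (.C 1 2 4 1 (.C 0 1 4 1 (.C 1 2 4 1 (.L 1) (.C 0 2 32 1 (.L 1) (.G
  200 236 0 21201 21201 10601 [.g 3 64 2 0, .n, .n, .n]))) (.C 0 2 4 1 (.L
  1) (.C 1 2 8 1 (.G 111 1 1 4617 289 4617 [.n, .n, .n, .g 25 64 0 0]) (.G
  211 22 0 74240 74240 37120 [.g 5 64 5 0, .g 19 32 5 0, .g 64 55 10 0, .g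
  64 31 0 0, .n])))) (.C 1 2 1 2 (.C 1 2 2 1 (.C 1 2 4 1 (.T 16 1 (.O 4) (.L
  22)) (.O 4)) (.O 4)) (.O 4))) (.L 22)) (.L 21)) (.L 6)) (.C 0 1 4 1 (.C 0
  1 8 1 (.T 1 2 (.T 2 1 (.L 7) (.T 1 2 (.C 1 2 1 1 (.L 4) (.L 2)) (.L 48)))
  (.T 1 4 (.C 1 2 1 1 (.L 2) (.L 9)) (.C 1 2 1 1 (.T 1 8 (.C 1 2 2 1 (.L 17)
  (.C 1 2 1 2 (.T 2 1 (.L 48) (.L 9)) (.L 9))) (.C 1 2 2 1 (.T 1 16 (.C 1 2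
  4 1 (.C 1 2 8 1 (.L 167) (.C 1 2 1 2 (.T 2 1 (.L 108) (.C 1 2 2 1 (.L 122)
  (.T 1 2 (.L 51) (.L 490)))) (.T 2 1 (.L 51) (.L 58)))) (.C 1 2 1 2 (.T 2 1
  (.L 410) (.L 56)) (.L 230))) (.C 1 2 4 1 (.T 1 32 (.C 1 2 8 1 (.C 1 2 16 1
  (.L 64) (.L 58)) (.L 56)) (.L 230)) (.O 4))) (.O 4))) (.O 4)))) (.T 1 2
  (.G 203 33 1 11 5 11 [.n, .n, .g 64 47 0 0, .g 64 11 0 0]) (.L 27))) (.C 1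
  2 4 1 (.C 0 1 1 2 (.L 27) (.C 1 2 8 1 (.C 0 1 1 4 (.L 8) (.T 1 2 (.L 11)
  (.L 14))) (.L 8))) (.G 155 114 2 1 1 1 [.n, .g 64 29 0 0, .n, .n, .n]))))
  (.C 0 2 1 2 (.T 1 1 (.T 2 1 (.C 0 1 1 4 (.C 0 1 2 1 (.L 127) (.C 1 2 1 1
  (.C 1 2 2 1 (.T 4 1 (.G 282 53 0 117658 58829 235315 [.g 59 63 18 0, .n,
  .n, .n]) (.L 61)) (.G 367 281 2 10 20 10 [.g 24 65 0 0, .n, .n, .n])) (.L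
  127))) (.C 1 2 8 1 (.C 0 1 1 8 (.C 0 1 2 1 (.C 0 2 2 1 (.C 0 1 4 1 (.B 2 1
  2 (.C 0 2 4 1 (.B 1 2 1 (.C 0 1 8 1 (.B 0 1 4 (.C 0 2 8 1 (.T 4 1 (.G 22
  110 0 12326 197214 197214 [.g 32 0 7 0, .n, .n, .n]) (.L 61)) (.L 31)) (.C
  0 2 8 1 (.B 1 4 1 (.L 31) (.T 4 1 (.L 39) (.L 61))) (.L 31))) (.L 31)) (.T
  4 1 (.G 22 110 0 10753 86025 86025 [.g 64 0 15 0, .n, .n, .n]) (.L 61)))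
  (.L 31)) (.C 0 2 4 1 (.B 1 4 1 (.L 31) (.C 0 1 8 1 (.B 2 1 4 (.C 0 2 8 1
  (.C 0 1 16 1 (.T 4 1 (.G 126 110 0 3071 98271 49136 [.g 64 0 17 0, .n, .n,
  .n]) (.L 61)) (.L 31)) (.L 31)) (.L 31)) (.L 31))) (.L 31))) (.L 31)) (.L
  31)) (.L 11)) (.L 11)) (.C 0 2 1 1 (.C 0 2 2 1 (.C 1 2 2 1 (.C 0 1 2 1 (.B
  2 1 2 (.C 0 1 4 1 (.C 0 2 8 1 (.T 4 1 (.G 93 502 0 30389 243115 486229 [.g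
  32 0 7 0, .n, .n, .n]) (.L 61)) (.B 1 2 1 (.L 31) (.C 0 2 1 2 (.B 2 2 1
  (.G 111 60 1 2 1 4 [.g 32 3 0 0, .n, .n, .n]) (.L 31)) (.L 31)))) (.L 31))
  (.C 0 1 4 1 (.C 0 2 8 1 (.B 1 4 1 (.L 31) (.B 2 1 4 (.C 0 1 8 1 (.C 0 2 16
  1 (.T 4 1 (.G 128 110 0 29153 466447 932894 [.g 32 0 7 0, .n, .n, .n]) (.L
  61)) (.L 31)) (.L 31)) (.L 31))) (.L 31)) (.L 31))) (.L 31)) (.T 4 1 (.G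
  128 53 0 36044 288349 144175 [.g 64 0 13 0, .n, .n, .n]) (.L 61))) (.G 44
  63 1 1 1 1 [.n, .g 1 0 1977 0, .n, .n])) (.G 431 489 1 1 1 1 [.g 4 9 29910
  0, .n, .n, .n])))) (.L 6)) (.C 0 1 1 4 (.L 303) (.C 1 2 8 1 (.C 0 1 1 8
  (.L 20) (.T 1 2 (.L 11) (.L 14))) (.L 23)))) (.C 0 2 1 4 (.T 1 1 (.G 70 31
  3 1 1 1 [.g 1 211 0 0, .n, .n, .n, .g 1 249 0 0]) (.C 0 1 1 8 (.L 10) (.C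
  1 2 16 1 (.T 1 2 (.L 11) (.L 14)) (.L 10)))) (.C 0 2 1 8 (.T 1 1 (.L 31)
  (.T 1 2 (.L 18) (.L 14))) (.L 28))))) (.C 0 2 8 1 (.T 1 1 (.T 2 1 (.T 4 1
  (.T 8 1 (.C 1 2 4 1 (.C 0 1 4 1 (.C 1 2 4 1 (.L 1) (.C 0 2 32 1 (.L 1) (.G
  208 236 0 70526 70526 35263 [.g 2 59 1 0, .n, .n, .n]))) (.C 0 2 4 1 (.L
  1) (.C 1 2 8 1 (.G 111 1 1 4617 289 4617 [.n, .n, .n, .g 9 32 0 0]) (.T 16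
  1 (.C 0 2 1 2 (.G 216 208 0 116140 116140 232280 [.n, .n, .g 35 64 15 0,
  .n, .n]) (.L 37)) (.L 53))))) (.C 1 2 1 2 (.L 65) (.O 4))) (.L 15)) (.L
  21)) (.L 6)) (.C 0 1 4 1 (.T 1 2 (.T 2 1 (.L 7) (.T 1 2 (.C 1 2 2 1 (.L 4)
  (.L 16)) (.L 16))) (.T 1 4 (.C 1 2 2 1 (.L 2) (.C 1 2 1 2 (.L 2) (.L 9)))
  (.C 0 1 8 1 (.C 1 2 1 1 (.T 1 8 (.C 1 2 2 1 (.L 48) (.C 1 2 1 2 (.L 496)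
  (.L 9))) (.C 1 2 2 1 (.T 1 16 (.C 1 2 4 1 (.L 137) (.T 2 1 (.L 115) (.L
  56))) (.C 1 2 4 1 (.T 1 32 (.C 1 2 8 1 (.L 64) (.L 56)) (.L 56)) (.O 4)))
  (.O 4))) (.O 4)) (.L 23)))) (.C 1 2 4 1 (.C 0 1 1 2 (.L 27) (.C 1 2 8 1
  (.C 0 1 1 4 (.L 8) (.T 1 2 (.L 4) (.L 14))) (.L 8))) (.C 1 2 1 2 (.L 3)
  (.T 1 2 (.G 7 62 1 7 56 14 [.n, .n, .g 1 0 2507 0, .g 1 1 2809 0]) (.L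
  10)))))) (.C 0 2 1 2 (.T 1 1 (.T 2 1 (.C 0 1 1 4 (.C 0 1 2 1 (.L 190) (.C
  1 2 1 1 (.C 1 2 2 1 (.C 0 1 1 2 (.G 65 253 3 8 15 15 [.g 29 64 0 0, .n,
  .n, .n]) (.T 4 1 (.G 209 93 0 227085 56771 227085 [.g 64 19 6 0, .n, .n,
  .n]) (.L 61))) (.L 181)) (.L 213))) (.T 4 1 (.T 8 1 (.G 231 79 0 261 33
  261 [.n, .n, .n, .g 12 26 253 0]) (.L 15)) (.L 30))) (.L 6)) (.C 0 1 1 4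
  (.G 4 63 1 29 58 58 [.n, .n, .g 1 1 2957 0, .g 2 1 4423 0]) (.C 1 2 8 1
  (.C 0 1 1 8 (.L 20) (.T 1 2 (.L 26) (.L 14))) (.L 23)))) (.C 0 2 1 4 (.T 1
  1 (.G 114 368 3 1 1 1 [.g 1 444 0 0, .g 1 260 0 0, .g 1 81 0 0, .g 1 2 85
  0, .n]) (.C 0 1 1 8 (.L 10) (.C 1 2 16 1 (.T 1 2 (.L 7) (.L 14)) (.L
  10)))) (.C 0 2 1 8 (.T 1 1 (.L 31) (.C 0 1 1 16 (.L 10) (.T 1 2 (.L 52)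
  (.L 14)))) (.L 28)))))) (by decide +kernel)

theorem CS1_c7 : CoF CSTab ⟨⟨720, 2054, 40000⟩, ⟨4096, 9550, 160000⟩, ⟨2656,
  4108, 80000⟩, ⟨0, 1⟩, ⟨2, 1⟩, ⟨1, 0, 0⟩, ⟨0, 1, 0⟩, ⟨0, 1, 1⟩⟩ :=
CoF.ofG CSTab_B CSBt_E CSBt_U (.B 2 1 2 (.B 1 1 2 (.L 362) (.B 2 2 1 (.B 1 1
  4 (.L 332) (.C 0 2 8 1 (.B 2 4 1 (.C 0 1 4 1 (.T 1 1 (.T 2 1 (.C 1 2 2 1
  (.T 4 1 (.T 8 1 (.C 1 2 4 1 (.L 1) (.C 1 2 1 2 (.T 16 1 (.O 4) (.L 22))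
  (.L 46))) (.L 22)) (.L 21)) (.C 0 1 32 1 (.C 0 1 64 1 (.C 0 1 128 1 (.C 0
  1 256 1 (.C 1 2 1 32 (.C 1 2 2 1 (.C 0 1 512 1 (.C 1 2 2 1 (.C 1 2 4 1 (.L
  46) (.L 264)) (.O 4)) (.G 374 147 1 4194304 2097152 8388607 [.n, .n, .g 3
  69 13 0, .g 1 25 5 0, .n, .n])) (.O 4)) (.O 4)) (.G 101 204 1 8388607
  4194304 262144 [.g 64 1 0 0, .n, .g 1 41 0 0, .g 1 43 0 0, .n, .n, .n,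
  .n])) (.G 101 65 1 8388607 4194304 524288 [.g 64 1 0 0, .n, .g 1 41 0 0,
  .g 1 43 0 0, .n, .n, .n, .n])) (.G 113 292 1 8388607 4194304 1048576 [.n,
  .n, .g 1 40 0 0, .g 2 85 0 0, .n, .n])) (.G 113 83 1 6789084 3394542
  1697271 [.n, .n, .g 1 40 0 0, .g 2 85 0 0, .n, .n]))) (.L 6)) (.C 0 1 8 1
  (.T 1 2 (.T 2 1 (.L 7) (.T 1 2 (.C 1 2 1 1 (.L 4) (.L 2)) (.L 48))) (.T 1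
  4 (.C 1 2 1 1 (.L 2) (.L 9)) (.C 1 2 1 1 (.T 1 8 (.C 1 2 2 1 (.L 48) (.C 1
  2 1 2 (.L 496) (.L 9))) (.C 1 2 2 1 (.T 1 16 (.C 1 2 4 1 (.L 361) (.C 1 2
  1 2 (.T 2 1 (.L 17) (.L 56)) (.L 56))) (.C 1 2 4 1 (.T 1 32 (.C 1 2 8 1
  (.L 122) (.L 56)) (.L 56)) (.O 4))) (.O 4))) (.O 4)))) (.G 7 63 0 83 42 83
  [.n, .n, .g 32 7 0 0, .g 64 11 0 0]))) (.T 1 1 (.T 2 1 (.T 4 1 (.T 8 1 (.C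
  0 2 2 1 (.C 0 2 4 1 (.L 1) (.C 1 2 8 1 (.L 1) (.G 226 1 0 22640 22640
  11320 [.g 64 31 28 0, .n, .n, .n]))) (.C 1 2 4 1 (.T 16 1 (.L 312) (.L
  22)) (.G 463 166 1 1 1 1 [.n, .n, .g 1 1 174 0, .g 1 0 1295 0]))) (.L 22))
  (.L 30)) (.L 6)) (.C 1 2 4 1 (.C 0 1 1 2 (.L 27) (.C 1 2 8 1 (.C 0 1 1 4
  (.L 8) (.T 1 2 (.L 11) (.L 14))) (.L 8))) (.L 3)))) (.L 332)) (.C 0 2 1 2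
  (.T 1 1 (.T 2 1 (.C 0 1 1 4 (.C 0 1 2 1 (.L 190) (.C 1 2 1 1 (.G 324 425 3
  3 1 3 [.g 64 63 0 0, .n, .n, .n]) (.L 213))) (.G 31 60 1 1 1 1 [.n, .n,
  .n, .g 7903 37 65536 0])) (.L 6)) (.C 0 1 1 4 (.L 23) (.C 1 2 8 1 (.C 0 1
  1 8 (.L 20) (.T 1 2 (.L 11) (.L 14))) (.L 23)))) (.C 0 2 1 4 (.T 1 1 (.G
  70 31 3 1 1 1 [.g 1 229 0 0, .n, .n, .n, .g 1 360 0 0]) (.C 0 1 1 8 (.L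
  10) (.C 1 2 16 1 (.T 1 2 (.L 11) (.L 14)) (.L 10)))) (.C 0 2 1 8 (.T 1 1
  (.L 11) (.C 0 1 1 16 (.L 10) (.T 1 2 (.L 11) (.L 14)))) (.L 28)))))) (.L
  362))) (.L 241)) (by decide +kernel)

theorem CS1_c8 : CoF CSTab ⟨⟨9408, 17766, 320000⟩, ⟨2656, 5442, 80000⟩,
  ⟨2656, 4108, 80000⟩, ⟨0, 1⟩, ⟨2, 1⟩, ⟨1, 0, 0⟩, ⟨0, 1, 0⟩, ⟨0, 1, 1⟩⟩ :=
CoF.ofG CSTab_B CSBt_E CSBt_U (.C 0 2 8 1 (.T 1 1 (.T 2 1 (.T 4 1 (.T 8 1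
  (.C 1 2 4 1 (.C 0 1 4 1 (.C 1 2 4 1 (.L 1) (.C 0 2 32 1 (.L 1) (.G 126 128
  0 74853 74853 37426 [.g 16 1 1 0, .n, .n, .n]))) (.C 0 2 4 1 (.L 1) (.C 0
  1 1 16 (.G 1 22 0 74822 149644 37411 [.n, .g 12 66 7 0, .n, .n]) (.L
  31)))) (.C 1 2 1 2 (.C 1 2 2 1 (.C 1 2 4 1 (.T 16 1 (.O 4) (.L 22)) (.O
  4)) (.O 4)) (.O 4))) (.L 22)) (.L 21)) (.L 6)) (.C 0 1 4 1 (.C 0 1 8 1 (.T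
  1 2 (.T 2 1 (.L 7) (.T 1 2 (.C 1 2 1 1 (.L 4) (.L 2)) (.L 48))) (.T 1 4
  (.C 1 2 1 1 (.L 2) (.L 9)) (.C 1 2 1 1 (.T 1 8 (.C 1 2 2 1 (.L 17) (.C 1 2
  1 2 (.T 2 1 (.L 48) (.L 9)) (.L 9))) (.C 1 2 2 1 (.T 1 16 (.C 1 2 4 1 (.C
  1 2 8 1 (.L 167) (.C 1 2 1 2 (.T 2 1 (.L 108) (.T 1 2 (.L 51) (.L 490)))
  (.T 2 1 (.L 51) (.L 58)))) (.C 1 2 1 2 (.T 2 1 (.L 135) (.L 56)) (.L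
  230))) (.C 1 2 4 1 (.T 1 32 (.C 1 2 8 1 (.C 1 2 16 1 (.L 64) (.L 58)) (.L
  56)) (.L 230)) (.O 4))) (.O 4))) (.O 4)))) (.G 7 63 0 86 43 86 [.n, .n, .g
  64 15 0 0, .g 64 11 0 0])) (.C 1 2 4 1 (.C 0 1 1 2 (.L 27) (.C 1 2 8 1 (.C
  0 1 1 4 (.L 8) (.T 1 2 (.L 11) (.L 14))) (.L 8))) (.L 3)))) (.C 0 2 1 2
  (.T 1 1 (.T 2 1 (.C 0 1 1 4 (.C 0 1 2 1 (.L 127) (.C 1 2 1 1 (.C 1 2 2 1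
  (.T 4 1 (.G 126 226 0 60518 30259 121037 [.g 64 9 3 0, .n, .n, .n]) (.L
  61)) (.G 297 335 0 1 2 1 [.n, .g 64 49 0 0, .n, .n])) (.L 127))) (.G 31 60
  1 1 1 1 [.n, .n, .n, .g 7871 37 65535 0])) (.L 6)) (.C 0 1 1 4 (.L 23) (.C
  1 2 8 1 (.C 0 1 1 8 (.L 20) (.T 1 2 (.L 11) (.L 14))) (.L 23)))) (.C 0 2 1
  4 (.T 1 1 (.G 70 199 3 1 1 1 [.g 1 294 0 0, .n, .n, .n, .g 1 415 0 0]) (.C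
  0 1 1 8 (.L 10) (.C 1 2 16 1 (.T 1 2 (.L 11) (.L 14)) (.L 10)))) (.C 0 2 1
  8 (.T 1 1 (.L 11) (.C 0 1 1 16 (.L 10) (.C 0 2 1 1 (.L 49) (.L 28)))) (.L
  28))))) (by decide +kernel)

theorem CS1_c9 : CoF CSTab ⟨⟨4096, 9550, 160000⟩, ⟨9408, 20434, 320000⟩,
  ⟨9408, 17766, 320000⟩, ⟨0, 1⟩, ⟨2, 1⟩, ⟨1, 0, 0⟩, ⟨0, 1, 0⟩, ⟨0, 1, 1⟩⟩ :=
  CoF.ofG CSTab_B CSBt_E CSBt_U (.L 362) (by decide +kernel)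

theorem CS1_c10 : CoF CSTab ⟨⟨9408, 20434, 320000⟩, ⟨20032, 42202, 640000⟩,
  ⟨20032, 39534, 640000⟩, ⟨0, 1⟩, ⟨2, 1⟩, ⟨1, 0, 0⟩, ⟨0, 1, 0⟩, ⟨0, 1, 1⟩⟩
  :=
  CoF.ofG CSTab_B CSBt_E CSBt_U (.L 268) (by decide +kernel)

theorem CS1_c11 : CoF CSTab ⟨⟨20032, 42202, 640000⟩, ⟨41280, 85738,
  1280000⟩, ⟨20032, 39534, 640000⟩, ⟨0, 1⟩, ⟨2, 1⟩, ⟨1, 0, 0⟩, ⟨0, 1, 0⟩,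
  ⟨0, 1, 1⟩⟩ :=
  CoF.ofG CSTab_B CSBt_E CSBt_U (.L 88) (by decide +kernel)

theorem CS1_c12 : CoF CSTab ⟨⟨41280, 85738, 1280000⟩, ⟨2656, 5442, 80000⟩,
  ⟨41280, 83070, 1280000⟩, ⟨0, 1⟩, ⟨2, 1⟩, ⟨1, 0, 0⟩, ⟨4, 1, 0⟩, ⟨8, 1, 1⟩⟩
  :=
CoF.ofG CSTab_B CSBt_E CSBt_U (.T 1 1 (.T 2 1 (.T 4 1 (.T 8 1 (.C 1 2 2 1
  (.C 1 2 4 1 (.L 1) (.C 1 2 1 2 (.C 0 2 128 1 (.C 0 1 64 1 (.C 0 2 256 1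
  (.C 0 1 128 1 (.C 0 2 512 1 (.C 0 1 256 1 (.C 0 2 1024 1 (.C 0 2 2048 1
  (.C 0 1 512 1 (.C 0 2 4096 1 (.C 0 2 8192 1 (.C 1 2 16 1 (.L 1) (.C 1 2 1
  2 (.L 1) (.T 16 1 (.O 4) (.L 22)))) (.G 110 43 0 8388607 524288 4194304
  [.g 59 28 64 0, .n, .n, .n])) (.G 457 110 0 8388607 1048576 4194304 [.g 1
  233 17 0, .n, .n])) (.G 236 43 0 2097152 1048576 8388607 [.g 64 7 4 0, .n,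
  .n, .n])) (.G 457 110 0 8388607 1048576 4194304 [.g 1 236 8 0, .n, .n]))
  (.G 93 97 0 8388607 2097152 4194304 [.g 64 0 17 0, .n, .n, .n])) (.G 110 5
  0 204855 102427 409709 [.g 64 14 11 0, .n, .n, .n])) (.G 93 97 0 6506646
  1626661 3253323 [.g 32 0 5 0, .n, .n, .n])) (.G 110 256 0 319194 159597
  638387 [.g 64 11 4 0, .n, .n, .n])) (.G 93 97 0 3036435 759109 1518217 [.g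
  64 0 9 0, .n, .n, .n])) (.G 22 43 0 424685 212343 849371 [.g 32 0 3 0, .n,
  .n, .n])) (.G 53 43 0 1114312 278578 557156 [.g 3 64 9 0, .n, .n, .n]))
  (.L 426))) (.O 4)) (.L 22)) (.L 21)) (.L 6)) (.C 0 1 8 1 (.T 1 2 (.T 2 1
  (.L 7) (.T 1 2 (.C 1 2 1 1 (.L 4) (.L 2)) (.L 48))) (.T 1 4 (.C 1 2 1 1
  (.L 2) (.L 9)) (.C 1 2 1 1 (.C 1 2 2 1 (.T 1 8 (.L 17) (.C 1 2 4 1 (.T 1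
  16 (.C 1 2 8 1 (.L 108) (.T 2 1 (.L 51) (.T 1 2 (.L 135) (.L 58)))) (.T 1
  32 (.C 1 2 8 1 (.C 1 2 16 1 (.L 64) (.L 58)) (.L 90)) (.L 106))) (.L 72)))
  (.T 1 8 (.C 1 2 1 2 (.T 2 1 (.L 48) (.L 9)) (.L 9)) (.O 4))) (.O 4)))) (.G
  7 63 0 92 46 92 [.n, .n, .g 32 7 0 0, .g 32 5 0 0]))) (by decide +kernel)

theorem CS1_c13 : CoF CSTab ⟨⟨81344, 164806, 2560000⟩, ⟨41280, 83070,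
  1280000⟩, ⟨20032, 39534, 640000⟩, ⟨0, 1⟩, ⟨2, 1⟩, ⟨1, 0, 0⟩, ⟨4, 1, 0⟩,
  ⟨8, 1, 1⟩⟩ :=
CoF.ofG CSTab_B CSBt_E CSBt_U (.B 1 1 2 (.B 1 2 1 (.B 0 1 2 (.L 88) (.B 1 4
  1 (.B 0 1 4 (.L 88) (.B 1 8 1 (.B 0 1 8 (.L 13) (.B 1 16 1 (.B 0 1 16 (.L
  13) (.B 1 32 1 (.B 0 1 32 (.L 13) (.B 1 64 1 (.B 0 1 64 (.L 13) (.B 1 128
  1 (.B 0 1 128 (.L 13) (.B 1 256 1 (.B 0 1 256 (.L 13) (.T 1 1 (.T 2 1 (.T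
  4 1 (.T 8 1 (.C 1 2 2 1 (.C 1 2 4 1 (.L 1) (.C 1 2 1 2 (.C 0 2 128 1 (.C 0
  1 64 1 (.L 13) (.G 93 5 0 650665 325332 1301329 [.g 10 63 2 0, .n, .n,
  .n])) (.L 13)) (.L 109))) (.O 4)) (.L 22)) (.L 21)) (.L 6)) (.C 0 1 8 1
  (.T 1 2 (.T 2 1 (.L 7) (.T 1 2 (.C 1 2 1 1 (.L 4) (.L 13)) (.L 48))) (.T 1
  4 (.C 1 2 1 1 (.L 2) (.L 13)) (.C 1 2 1 1 (.C 1 2 2 1 (.C 1 2 4 1 (.T 1 8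
  (.L 2) (.T 1 16 (.C 1 2 8 1 (.L 108) (.T 2 1 (.L 51) (.C 1 2 1 2 (.L 77)
  (.L 58)))) (.T 1 32 (.C 1 2 8 1 (.C 1 2 16 1 (.L 122) (.L 58)) (.L 90))
  (.L 106)))) (.T 1 8 (.L 17) (.L 72))) (.T 1 8 (.C 1 2 1 2 (.L 117) (.L
  13)) (.O 4))) (.O 4)))) (.L 13)))) (.L 13))) (.L 13))) (.L 13))) (.L 13)))
  (.L 13))) (.L 13))) (.L 88))) (.L 88)) (.L 88)) (by decide +kernel)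

theorem CS1_c14 : CoF CSTab ⟨⟨163904, 336282, 5120000⟩, ⟨41280, 83070,
  1280000⟩, ⟨81344, 164806, 2560000⟩, ⟨0, 1⟩, ⟨2, 1⟩, ⟨1, 0, 0⟩, ⟨4, 1, 0⟩,
  ⟨8, 1, 1⟩⟩ :=
CoF.ofG CSTab_B CSBt_E CSBt_U (.B 1 2 1 (.B 0 1 4 (.L 88) (.B 1 4 1 (.B 0 1
  8 (.L 88) (.B 1 8 1 (.B 0 1 16 (.L 88) (.B 1 16 1 (.B 0 1 32 (.L 13) (.B 1
  32 1 (.B 0 1 64 (.L 13) (.B 1 64 1 (.B 0 1 128 (.L 13) (.B 1 128 1 (.B 0 1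
  256 (.L 13) (.B 1 256 1 (.B 0 1 512 (.L 13) (.T 1 1 (.T 2 1 (.T 4 1 (.T 8
  1 (.C 1 2 2 1 (.C 1 2 4 1 (.L 1) (.C 1 2 1 2 (.C 0 2 128 1 (.C 0 1 64 1
  (.L 13) (.G 93 5 0 650665 325332 1301329 [.g 10 63 2 0, .n, .n, .n])) (.L
  13)) (.L 109))) (.O 4)) (.L 22)) (.L 21)) (.L 6)) (.C 0 1 8 1 (.T 1 2 (.T
  2 1 (.L 7) (.T 1 2 (.C 1 2 1 1 (.L 4) (.L 13)) (.L 48))) (.T 1 4 (.C 1 2 1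
  1 (.L 2) (.L 13)) (.C 1 2 1 1 (.C 1 2 2 1 (.C 1 2 4 1 (.T 1 8 (.L 2) (.T 1
  16 (.C 1 2 8 1 (.L 108) (.T 2 1 (.L 51) (.C 1 2 1 2 (.L 77) (.L 58)))) (.T
  1 32 (.C 1 2 8 1 (.C 1 2 16 1 (.L 122) (.L 58)) (.L 90)) (.L 106)))) (.T 1
  8 (.L 17) (.L 72))) (.T 1 8 (.C 1 2 1 2 (.L 117) (.L 13)) (.O 4))) (.O
  4)))) (.L 13)))) (.L 13))) (.L 13))) (.L 13))) (.L 13))) (.L 13))) (.L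
  88))) (.L 88))) (.L 88)) (by decide +kernel)

theorem CS1_c15 : CoF CSTab ⟨⟨41280, 85738, 1280000⟩, ⟨82560, 168808,
  2560000⟩, ⟨163904, 336282, 5120000⟩, ⟨0, 1⟩, ⟨2, 1⟩, ⟨1, 0, 0⟩, ⟨4, 1, 0⟩,
  ⟨8, 1, 1⟩⟩ :=
  CoF.ofG CSTab_B CSBt_E CSBt_U (.L 88) (by decide +kernel)

theorem CS1_c16 : CoF CSTab ⟨⟨82560, 168808, 2560000⟩, ⟨165120, 334948,
  5120000⟩, ⟨329024, 668562, 10240000⟩, ⟨0, 1⟩, ⟨2, 1⟩, ⟨1, 0, 0⟩, ⟨4, 1,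
  0⟩, ⟨8, 1, 1⟩⟩ :=
  CoF.ofG CSTab_B CSBt_E CSBt_U (.L 88) (by decide +kernel)

theorem CS1_c17 : CoF CSTab ⟨⟨165120, 334948, 5120000⟩, ⟨330240, 667228,
  10240000⟩, ⟨659264, 1333122, 20480000⟩, ⟨0, 1⟩, ⟨2, 1⟩, ⟨1, 0, 0⟩, ⟨4, 1,
  0⟩, ⟨8, 1, 1⟩⟩ :=
  CoF.ofG CSTab_B CSBt_E CSBt_U (.L 88) (by decide +kernel)

theorem CS1_c18 : CoF CSTab ⟨⟨2640704, 5331154, 81920000⟩, ⟨41280, 83070,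
  1280000⟩, ⟨1319744, 2662242, 40960000⟩, ⟨0, 1⟩, ⟨2, 1⟩, ⟨1, 0, 0⟩, ⟨4, 1,
  0⟩, ⟨8, 1, 1⟩⟩ :=
CoF.ofG CSTab_B CSBt_E CSBt_U (.B 1 32 1 (.B 0 1 64 (.L 13) (.B 1 64 1 (.B 0
  1 128 (.L 13) (.B 1 128 1 (.B 0 1 256 (.L 13) (.B 1 256 1 (.B 0 1 512 (.L
  13) (.B 1 512 1 (.T 1 1 (.T 2 1 (.T 4 1 (.T 8 1 (.C 1 2 2 1 (.C 1 2 4 1
  (.L 1) (.C 1 2 1 2 (.C 0 2 128 1 (.C 0 1 64 1 (.L 13) (.G 93 5 0 650665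
  325332 1301329 [.g 10 63 2 0, .n, .n, .n])) (.L 13)) (.L 109))) (.O 4))
  (.L 22)) (.L 21)) (.L 6)) (.C 0 1 8 1 (.T 1 2 (.T 2 1 (.L 7) (.T 1 2 (.C 1
  2 1 1 (.L 4) (.L 13)) (.L 48))) (.T 1 4 (.C 1 2 1 1 (.L 2) (.L 13)) (.C 1
  2 1 1 (.C 1 2 2 1 (.C 1 2 4 1 (.T 1 8 (.L 2) (.T 1 16 (.C 1 2 8 1 (.L 108)
  (.T 2 1 (.L 51) (.C 1 2 1 2 (.L 77) (.L 58)))) (.T 1 32 (.C 1 2 8 1 (.C 1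
  2 16 1 (.L 122) (.L 58)) (.L 90)) (.L 106)))) (.T 1 8 (.L 17) (.L 72)))
  (.T 1 8 (.C 1 2 1 2 (.L 117) (.L 13)) (.O 4))) (.O 4)))) (.L 13))) (.L
  13))) (.L 13))) (.L 13))) (.L 13))) (.L 13)) (by decide +kernel)

theorem CS1_c19 : CoF CSTab ⟨⟨330240, 667228, 10240000⟩, ⟨660480, 1331788,
  20480000⟩, ⟨5282624, 10647634, 163840000⟩, ⟨0, 1⟩, ⟨2, 1⟩, ⟨1, 0, 0⟩, ⟨4,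
  1, 0⟩, ⟨8, 1, 1⟩⟩ :=
CoF.ofG CSTab_B CSBt_E CSBt_U (.B 2 1 16 (.B 2 2 1 (.B 1 8 1 (.B 0 1 32 (.L
  13) (.B 1 16 1 (.B 0 1 64 (.L 13) (.B 1 32 1 (.T 1 1 (.T 2 1 (.T 4 1 (.T 8
  1 (.C 1 2 2 1 (.C 1 2 4 1 (.L 1) (.C 1 2 1 2 (.C 0 2 128 1 (.C 0 1 64 1
  (.L 13) (.G 22 43 0 424685 212343 849371 [.g 32 0 3 0, .n, .n, .n])) (.L
  13)) (.L 109))) (.O 4)) (.L 22)) (.L 21)) (.L 6)) (.C 0 1 8 1 (.T 1 2 (.T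
  2 1 (.L 7) (.T 1 2 (.C 1 2 1 1 (.L 4) (.L 13)) (.L 48))) (.T 1 4 (.C 1 2 1
  1 (.L 2) (.L 13)) (.C 1 2 1 1 (.C 1 2 2 1 (.C 1 2 4 1 (.T 1 8 (.L 2) (.T 1
  16 (.C 1 2 8 1 (.L 108) (.T 2 1 (.L 51) (.C 1 2 1 2 (.L 77) (.L 58)))) (.T
  1 32 (.C 1 2 8 1 (.C 1 2 16 1 (.L 122) (.L 58)) (.L 90)) (.L 106)))) (.T 1
  8 (.L 17) (.L 72))) (.T 1 8 (.C 1 2 1 2 (.L 117) (.L 13)) (.O 4))) (.O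
  4)))) (.L 13))) (.L 13))) (.L 13))) (.L 13)) (.B 0 1 16 (.L 88) (.B 1 32 1
  (.B 0 1 32 (.L 13) (.B 1 64 1 (.T 1 1 (.T 2 1 (.T 4 1 (.T 8 1 (.C 1 2 2 1
  (.C 1 2 4 1 (.L 1) (.C 1 2 1 2 (.C 0 2 128 1 (.C 0 1 64 1 (.L 13) (.G 22
  43 0 424685 212343 849371 [.g 32 0 3 0, .n, .n, .n])) (.L 13)) (.L 109)))
  (.O 4)) (.L 22)) (.L 21)) (.L 6)) (.C 0 1 8 1 (.T 1 2 (.T 2 1 (.L 7) (.T 1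
  2 (.C 1 2 1 1 (.L 4) (.L 13)) (.L 48))) (.T 1 4 (.C 1 2 1 1 (.L 2) (.L
  13)) (.C 1 2 1 1 (.C 1 2 2 1 (.C 1 2 4 1 (.T 1 8 (.L 2) (.T 1 16 (.C 1 2 8
  1 (.L 108) (.T 2 1 (.L 51) (.C 1 2 1 2 (.L 77) (.L 58)))) (.T 1 32 (.C 1 2
  8 1 (.C 1 2 16 1 (.L 122) (.L 58)) (.L 90)) (.L 106)))) (.T 1 8 (.L 17)
  (.L 72))) (.T 1 8 (.C 1 2 1 2 (.L 117) (.L 13)) (.O 4))) (.O 4)))) (.L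
  13))) (.L 13))) (.L 13)))) (.B 0 2 1 (.L 88) (.B 1 16 1 (.B 0 1 2 (.L 88)
  (.T 1 1 (.T 2 1 (.T 4 1 (.T 8 1 (.C 1 2 2 1 (.C 1 2 4 1 (.L 1) (.C 1 2 1 2
  (.C 0 2 128 1 (.C 0 1 64 1 (.L 13) (.G 22 43 0 424685 212343 849371 [.g 32
  0 3 0, .n, .n, .n])) (.L 13)) (.L 109))) (.O 4)) (.L 22)) (.L 21)) (.L 6))
  (.C 0 1 8 1 (.T 1 2 (.T 2 1 (.L 7) (.T 1 2 (.C 1 2 1 1 (.L 4) (.L 13)) (.L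
  48))) (.T 1 4 (.C 1 2 1 1 (.L 2) (.L 13)) (.C 1 2 1 1 (.C 1 2 2 1 (.C 1 2
  4 1 (.T 1 8 (.L 2) (.T 1 16 (.C 1 2 8 1 (.L 108) (.T 2 1 (.L 51) (.C 1 2 1
  2 (.L 298) (.L 58)))) (.T 1 32 (.C 1 2 8 1 (.C 1 2 16 1 (.L 122) (.L 58))
  (.L 90)) (.L 106)))) (.T 1 8 (.L 17) (.L 72))) (.T 1 8 (.C 1 2 1 2 (.L
  117) (.L 13)) (.O 4))) (.O 4)))) (.L 13)))) (.L 88)))) (by decide +kernel)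

theorem CS1_c20 : CoF CSTab ⟨⟨660480, 1331788, 20480000⟩, ⟨41280, 83070,
  1280000⟩, ⟨5282624, 10647634, 163840000⟩, ⟨0, 1⟩, ⟨2, 1⟩, ⟨1, 0, 0⟩, ⟨4,
  1, 0⟩, ⟨8, 1, 1⟩⟩ :=
CoF.ofG CSTab_B CSBt_E CSBt_U (.B 1 128 1 (.B 0 1 16 (.B 2 1 16 (.B 2 2 1
  (.B 1 8 1 (.B 0 1 32 (.L 13) (.B 1 16 1 (.T 1 1 (.T 2 1 (.T 4 1 (.T 8 1
  (.C 1 2 2 1 (.C 1 2 4 1 (.L 1) (.C 1 2 1 2 (.C 0 2 128 1 (.C 0 1 64 1 (.L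
  13) (.G 22 43 0 424685 212343 849371 [.g 32 0 3 0, .n, .n, .n])) (.L 13))
  (.L 109))) (.O 4)) (.L 22)) (.L 21)) (.L 6)) (.C 0 1 8 1 (.T 1 2 (.T 2 1
  (.L 7) (.T 1 2 (.C 1 2 1 1 (.L 4) (.L 13)) (.L 48))) (.T 1 4 (.C 1 2 1 1
  (.L 2) (.L 13)) (.C 1 2 1 1 (.C 1 2 2 1 (.C 1 2 4 1 (.T 1 8 (.L 2) (.T 1
  16 (.C 1 2 8 1 (.L 108) (.T 2 1 (.L 51) (.C 1 2 1 2 (.L 77) (.L 58)))) (.T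
  1 32 (.C 1 2 8 1 (.C 1 2 16 1 (.L 122) (.L 58)) (.L 90)) (.L 106)))) (.T 1
  8 (.L 17) (.L 72))) (.T 1 8 (.C 1 2 1 2 (.L 117) (.L 13)) (.O 4))) (.O
  4)))) (.L 13))) (.L 13))) (.L 13)) (.B 0 1 16 (.L 13) (.B 1 32 1 (.T 1 1
  (.T 2 1 (.T 4 1 (.T 8 1 (.C 1 2 2 1 (.C 1 2 4 1 (.L 1) (.C 1 2 1 2 (.C 0 2
  128 1 (.C 0 1 64 1 (.L 13) (.G 22 43 0 424685 212343 849371 [.g 32 0 3 0,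
  .n, .n, .n])) (.L 13)) (.L 109))) (.O 4)) (.L 22)) (.L 21)) (.L 6)) (.C 0
  1 8 1 (.T 1 2 (.T 2 1 (.L 7) (.T 1 2 (.C 1 2 1 1 (.L 4) (.L 13)) (.L 48)))
  (.T 1 4 (.C 1 2 1 1 (.L 2) (.L 13)) (.C 1 2 1 1 (.C 1 2 2 1 (.C 1 2 4 1
  (.T 1 8 (.L 2) (.T 1 16 (.C 1 2 8 1 (.L 108) (.T 2 1 (.L 51) (.C 1 2 1 2
  (.L 77) (.L 58)))) (.T 1 32 (.C 1 2 8 1 (.C 1 2 16 1 (.L 122) (.L 58)) (.L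
  90)) (.L 106)))) (.T 1 8 (.L 17) (.L 72))) (.T 1 8 (.C 1 2 1 2 (.L 117)
  (.L 13)) (.O 4))) (.O 4)))) (.L 13))) (.L 13)))) (.B 0 2 1 (.B 2 1 32 (.B
  2 2 1 (.B 1 8 1 (.T 1 1 (.T 2 1 (.T 4 1 (.T 8 1 (.C 1 2 2 1 (.C 1 2 4 1
  (.L 1) (.C 1 2 1 2 (.C 0 2 128 1 (.C 0 1 64 1 (.L 13) (.G 22 43 0 424685
  212343 849371 [.g 32 0 3 0, .n, .n, .n])) (.L 13)) (.L 109))) (.O 4)) (.L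
  22)) (.L 21)) (.L 6)) (.C 0 1 8 1 (.T 1 2 (.T 2 1 (.L 7) (.T 1 2 (.C 1 2 1
  1 (.L 4) (.L 13)) (.L 48))) (.T 1 4 (.C 1 2 1 1 (.L 2) (.L 13)) (.C 1 2 1
  1 (.C 1 2 2 1 (.C 1 2 4 1 (.T 1 8 (.L 2) (.T 1 16 (.C 1 2 8 1 (.L 108) (.T
  2 1 (.L 51) (.C 1 2 1 2 (.L 77) (.L 58)))) (.T 1 32 (.C 1 2 8 1 (.C 1 2 16
  1 (.L 122) (.L 58)) (.L 90)) (.L 106)))) (.T 1 8 (.L 17) (.L 72))) (.T 1 8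
  (.C 1 2 1 2 (.L 117) (.L 13)) (.O 4))) (.O 4)))) (.L 13))) (.L 13)) (.T 1
  1 (.T 2 1 (.T 4 1 (.T 8 1 (.C 1 2 2 1 (.C 1 2 4 1 (.L 1) (.C 1 2 1 2 (.C 0
  2 128 1 (.C 0 1 64 1 (.L 13) (.G 22 43 0 424685 212343 849371 [.g 32 0 3
  0, .n, .n, .n])) (.L 13)) (.L 109))) (.O 4)) (.L 22)) (.L 21)) (.L 6)) (.C
  0 1 8 1 (.T 1 2 (.T 2 1 (.L 7) (.T 1 2 (.C 1 2 1 1 (.L 4) (.L 13)) (.L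
  48))) (.T 1 4 (.C 1 2 1 1 (.L 2) (.L 13)) (.C 1 2 1 1 (.C 1 2 2 1 (.C 1 2
  4 1 (.T 1 8 (.L 2) (.T 1 16 (.C 1 2 8 1 (.L 108) (.T 2 1 (.L 51) (.C 1 2 1
  2 (.L 77) (.L 58)))) (.T 1 32 (.C 1 2 8 1 (.C 1 2 16 1 (.L 122) (.L 58))
  (.L 90)) (.L 106)))) (.T 1 8 (.L 17) (.L 72))) (.T 1 8 (.C 1 2 1 2 (.L
  117) (.L 13)) (.O 4))) (.O 4)))) (.L 13)))) (.T 1 1 (.T 2 1 (.T 4 1 (.T 8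
  1 (.C 1 2 2 1 (.C 1 2 4 1 (.L 1) (.C 1 2 1 2 (.C 0 2 128 1 (.C 0 1 64 1
  (.L 13) (.G 22 43 0 424685 212343 849371 [.g 32 0 3 0, .n, .n, .n])) (.L
  13)) (.L 109))) (.O 4)) (.L 22)) (.L 21)) (.L 6)) (.C 0 1 8 1 (.T 1 2 (.T
  2 1 (.L 7) (.T 1 2 (.C 1 2 1 1 (.L 4) (.L 13)) (.L 48))) (.T 1 4 (.C 1 2 1
  1 (.L 2) (.L 13)) (.C 1 2 1 1 (.C 1 2 2 1 (.C 1 2 4 1 (.T 1 8 (.L 2) (.T 1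
  16 (.C 1 2 8 1 (.L 108) (.T 2 1 (.L 51) (.C 1 2 1 2 (.L 77) (.L 58)))) (.T
  1 32 (.C 1 2 8 1 (.C 1 2 16 1 (.L 122) (.L 58)) (.L 90)) (.L 106)))) (.T 1
  8 (.L 17) (.L 72))) (.T 1 8 (.C 1 2 1 2 (.L 117) (.L 13)) (.O 4))) (.O
  4)))) (.L 13)))) (.T 1 1 (.T 2 1 (.T 4 1 (.T 8 1 (.C 1 2 2 1 (.C 1 2 4 1
  (.L 1) (.C 1 2 1 2 (.C 0 2 128 1 (.C 0 1 64 1 (.L 13) (.G 22 43 0 424685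
  212343 849371 [.g 32 0 3 0, .n, .n, .n])) (.L 13)) (.L 109))) (.O 4)) (.L
  22)) (.L 21)) (.L 6)) (.C 0 1 8 1 (.T 1 2 (.T 2 1 (.L 7) (.T 1 2 (.C 1 2 1
  1 (.L 4) (.L 13)) (.L 48))) (.T 1 4 (.C 1 2 1 1 (.L 2) (.L 13)) (.C 1 2 1
  1 (.C 1 2 2 1 (.C 1 2 4 1 (.T 1 8 (.L 2) (.T 1 16 (.C 1 2 8 1 (.L 108) (.T
  2 1 (.L 51) (.C 1 2 1 2 (.L 77) (.L 58)))) (.T 1 32 (.C 1 2 8 1 (.C 1 2 16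
  1 (.L 122) (.L 58)) (.L 90)) (.L 106)))) (.T 1 8 (.L 17) (.L 72))) (.T 1 8
  (.C 1 2 1 2 (.L 117) (.L 13)) (.O 4))) (.O 4)))) (.L 13))))) (.B 1 256 1
  (.B 0 1 32 (.B 2 1 16 (.B 2 2 1 (.B 1 8 1 (.T 1 1 (.T 2 1 (.T 4 1 (.T 8 1
  (.C 1 2 2 1 (.C 1 2 4 1 (.L 1) (.C 1 2 1 2 (.C 0 2 128 1 (.C 0 1 64 1 (.L
  13) (.G 22 43 0 424685 212343 849371 [.g 32 0 3 0, .n, .n, .n])) (.L 13))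
  (.L 109))) (.O 4)) (.L 22)) (.L 21)) (.L 6)) (.C 0 1 8 1 (.T 1 2 (.T 2 1
  (.L 7) (.T 1 2 (.C 1 2 1 1 (.L 4) (.L 13)) (.L 48))) (.T 1 4 (.C 1 2 1 1
  (.L 2) (.L 13)) (.C 1 2 1 1 (.C 1 2 2 1 (.C 1 2 4 1 (.T 1 8 (.L 2) (.T 1
  16 (.C 1 2 8 1 (.L 108) (.T 2 1 (.L 51) (.C 1 2 1 2 (.L 77) (.L 58)))) (.T
  1 32 (.C 1 2 8 1 (.C 1 2 16 1 (.L 122) (.L 58)) (.L 90)) (.L 106)))) (.T 1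
  8 (.L 17) (.L 72))) (.T 1 8 (.C 1 2 1 2 (.L 117) (.L 13)) (.O 4))) (.O
  4)))) (.L 13))) (.L 13)) (.T 1 1 (.T 2 1 (.T 4 1 (.T 8 1 (.C 1 2 2 1 (.C 1
  2 4 1 (.L 1) (.C 1 2 1 2 (.C 0 2 128 1 (.C 0 1 64 1 (.L 13) (.G 22 43 0
  424685 212343 849371 [.g 32 0 3 0, .n, .n, .n])) (.L 13)) (.L 109))) (.O
  4)) (.L 22)) (.L 21)) (.L 6)) (.C 0 1 8 1 (.T 1 2 (.T 2 1 (.L 7) (.T 1 2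
  (.C 1 2 1 1 (.L 4) (.L 13)) (.L 48))) (.T 1 4 (.C 1 2 1 1 (.L 2) (.L 13))
  (.C 1 2 1 1 (.C 1 2 2 1 (.C 1 2 4 1 (.T 1 8 (.L 2) (.T 1 16 (.C 1 2 8 1
  (.L 108) (.T 2 1 (.L 51) (.C 1 2 1 2 (.L 77) (.L 58)))) (.T 1 32 (.C 1 2 8
  1 (.C 1 2 16 1 (.L 122) (.L 58)) (.L 90)) (.L 106)))) (.T 1 8 (.L 17) (.L
  72))) (.T 1 8 (.C 1 2 1 2 (.L 117) (.L 13)) (.O 4))) (.O 4)))) (.L 13))))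
  (.T 1 1 (.T 2 1 (.T 4 1 (.T 8 1 (.C 1 2 2 1 (.C 1 2 4 1 (.L 1) (.C 1 2 1 2
  (.C 0 2 128 1 (.C 0 1 64 1 (.L 13) (.G 22 43 0 424685 212343 849371 [.g 32
  0 3 0, .n, .n, .n])) (.L 13)) (.L 109))) (.O 4)) (.L 22)) (.L 21)) (.L 6))
  (.C 0 1 8 1 (.T 1 2 (.T 2 1 (.L 7) (.T 1 2 (.C 1 2 1 1 (.L 4) (.L 13)) (.L
  48))) (.T 1 4 (.C 1 2 1 1 (.L 2) (.L 13)) (.C 1 2 1 1 (.C 1 2 2 1 (.C 1 2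
  4 1 (.T 1 8 (.L 2) (.T 1 16 (.C 1 2 8 1 (.L 108) (.T 2 1 (.L 51) (.C 1 2 1
  2 (.L 77) (.L 58)))) (.T 1 32 (.C 1 2 8 1 (.C 1 2 16 1 (.L 122) (.L 58))
  (.L 90)) (.L 106)))) (.T 1 8 (.L 17) (.L 72))) (.T 1 8 (.C 1 2 1 2 (.L
  117) (.L 13)) (.O 4))) (.O 4)))) (.L 13)))) (.T 1 1 (.T 2 1 (.T 4 1 (.T 8
  1 (.C 1 2 2 1 (.C 1 2 4 1 (.L 1) (.C 1 2 1 2 (.C 0 2 128 1 (.C 0 1 64 1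
  (.L 13) (.G 93 5 0 650665 325332 1301329 [.g 10 63 2 0, .n, .n, .n])) (.L
  13)) (.L 109))) (.O 4)) (.L 22)) (.L 21)) (.L 6)) (.C 0 1 8 1 (.T 1 2 (.T
  2 1 (.L 7) (.T 1 2 (.C 1 2 1 1 (.L 4) (.L 13)) (.L 48))) (.T 1 4 (.C 1 2 1
  1 (.L 2) (.L 13)) (.C 1 2 1 1 (.C 1 2 2 1 (.C 1 2 4 1 (.T 1 8 (.L 2) (.T 1
  16 (.C 1 2 8 1 (.L 108) (.T 2 1 (.L 51) (.C 1 2 1 2 (.L 77) (.L 58)))) (.T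
  1 32 (.C 1 2 8 1 (.C 1 2 16 1 (.L 122) (.L 58)) (.L 90)) (.L 106)))) (.T 1
  8 (.L 17) (.L 72))) (.T 1 8 (.C 1 2 1 2 (.L 117) (.L 13)) (.O 4))) (.O
  4)))) (.L 13)))) (.B 0 16 1 (.B 2 1 8 (.L 13) (.B 0 32 1 (.B 2 1 16 (.L
  13) (.T 1 1 (.T 2 1 (.T 4 1 (.T 8 1 (.C 1 2 2 1 (.C 1 2 4 1 (.L 1) (.C 1 2
  1 2 (.C 0 2 128 1 (.C 0 1 64 1 (.L 13) (.G 22 43 0 424685 212343 849371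
  [.g 32 0 3 0, .n, .n, .n])) (.L 13)) (.L 109))) (.O 4)) (.L 22)) (.L 21))
  (.L 6)) (.C 0 1 8 1 (.T 1 2 (.T 2 1 (.L 7) (.T 1 2 (.C 1 2 1 1 (.L 4) (.L
  13)) (.L 48))) (.T 1 4 (.C 1 2 1 1 (.L 2) (.L 13)) (.C 1 2 1 1 (.C 1 2 2 1
  (.C 1 2 4 1 (.T 1 8 (.L 2) (.T 1 16 (.C 1 2 8 1 (.L 108) (.T 2 1 (.L 51)
  (.C 1 2 1 2 (.L 77) (.L 58)))) (.T 1 32 (.C 1 2 8 1 (.C 1 2 16 1 (.L 122)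
  (.L 58)) (.L 90)) (.L 106)))) (.T 1 8 (.L 17) (.L 72))) (.T 1 8 (.C 1 2 1
  2 (.L 117) (.L 13)) (.O 4))) (.O 4)))) (.L 13)))) (.L 13))) (.L 13)))) (.B
  0 16 1 (.B 2 1 8 (.L 13) (.B 0 32 1 (.B 2 1 16 (.L 13) (.B 0 64 1 (.B 2 1
  32 (.L 13) (.T 1 1 (.T 2 1 (.T 4 1 (.T 8 1 (.C 1 2 2 1 (.C 1 2 4 1 (.L 1)
  (.C 1 2 1 2 (.C 0 2 128 1 (.C 0 1 64 1 (.L 13) (.G 22 43 0 424685 212343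
  849371 [.g 32 0 3 0, .n, .n, .n])) (.L 13)) (.L 109))) (.O 4)) (.L 22))
  (.L 21)) (.L 6)) (.C 0 1 8 1 (.T 1 2 (.T 2 1 (.L 7) (.T 1 2 (.C 1 2 1 1
  (.L 4) (.L 13)) (.L 48))) (.T 1 4 (.C 1 2 1 1 (.L 2) (.L 13)) (.C 1 2 1 1
  (.C 1 2 2 1 (.C 1 2 4 1 (.T 1 8 (.L 2) (.T 1 16 (.C 1 2 8 1 (.L 108) (.T 2
  1 (.L 51) (.C 1 2 1 2 (.L 77) (.L 58)))) (.T 1 32 (.C 1 2 8 1 (.C 1 2 16 1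
  (.L 122) (.L 58)) (.L 90)) (.L 106)))) (.T 1 8 (.L 17) (.L 72))) (.T 1 8
  (.C 1 2 1 2 (.L 117) (.L 13)) (.O 4))) (.O 4)))) (.L 13)))) (.L 13))) (.L
  13))) (.L 13))) (by decide +kernel)

theorem CS1_c21 : CoF CSTab ⟨⟨330240, 667228, 10240000⟩, ⟨5282624, 10647634,
  163840000⟩, ⟨2640704, 5331154, 81920000⟩, ⟨0, 1⟩, ⟨2, 1⟩, ⟨1, 0, 0⟩, ⟨4,
  1, 0⟩, ⟨8, 1, 1⟩⟩ :=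
  CoF.ofG CSTab_B CSBt_E CSBt_U (.B 0 16 1 (.L 88) (.L 13)) (by decide +kernel)

theorem CS1_c22 : CoF CSTab ⟨⟨330240, 667228, 10240000⟩, ⟨1319744, 2662242,
  40960000⟩, ⟨659264, 1333122, 20480000⟩, ⟨0, 1⟩, ⟨2, 1⟩, ⟨1, 0, 0⟩, ⟨4, 1,
  0⟩, ⟨8, 1, 1⟩⟩ :=
  CoF.ofG CSTab_B CSBt_E CSBt_U (.L 88) (by decide +kernel)

theorem CS1_c23 : CoF CSTab ⟨⟨165120, 334948, 5120000⟩, ⟨659264, 1333122,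
  20480000⟩, ⟨329024, 668562, 10240000⟩, ⟨0, 1⟩, ⟨2, 1⟩, ⟨1, 0, 0⟩, ⟨4, 1,
  0⟩, ⟨8, 1, 1⟩⟩ :=
  CoF.ofG CSTab_B CSBt_E CSBt_U (.L 88) (by decide +kernel)

theorem CS1_c24 : CoF CSTab ⟨⟨82560, 168808, 2560000⟩, ⟨329024, 668562,
  10240000⟩, ⟨163904, 336282, 5120000⟩, ⟨0, 1⟩, ⟨2, 1⟩, ⟨1, 0, 0⟩, ⟨4, 1,
  0⟩, ⟨8, 1, 1⟩⟩ :=
  CoF.ofG CSTab_B CSBt_E CSBt_U (.L 88) (by decide +kernel)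

theorem CS1_c25 : CoF CSTab ⟨⟨41280, 85738, 1280000⟩, ⟨2656, 5442, 80000⟩,
  ⟨20032, 39534, 640000⟩, ⟨0, 1⟩, ⟨2, 1⟩, ⟨4, 1, 0⟩, ⟨0, 1, 0⟩, ⟨8, 1, 1⟩⟩
  :=
CoF.ofG CSTab_B CSBt_E CSBt_U (.T 1 1 (.T 2 1 (.T 4 1 (.T 8 1 (.C 0 2 2 1
  (.C 0 2 4 1 (.L 1) (.C 1 2 8 1 (.L 1) (.G 208 79 0 47925 47925 23963 [.g 8
  0 3 0, .n, .n, .n]))) (.T 16 1 (.L 458) (.L 22))) (.L 22)) (.L 30)) (.L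
  6)) (.C 1 2 4 1 (.C 0 1 1 2 (.L 27) (.G 11 95 3 1 1 1 [.n, .n, .n, .g 256
  1 0 0])) (.L 3))) (by decide +kernel)

theorem CS1_c26 : CoF CSTab ⟨⟨41280, 85738, 1280000⟩, ⟨2656, 5442, 80000⟩,
  ⟨20032, 39534, 640000⟩, ⟨0, 1⟩, ⟨2, 1⟩, ⟨8, 1, 1⟩, ⟨0, 1, 0⟩, ⟨0, 1, 1⟩⟩
  :=
CoF.ofG CSTab_B CSBt_E CSBt_U (.C 0 2 1 2 (.T 1 1 (.T 2 1 (.C 0 1 1 4 (.C 1
  2 1 1 (.C 0 1 2 1 (.L 127) (.C 1 2 2 1 (.T 4 1 (.G 224 43 0 107213 53606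
  214426 [.g 64 40 11 0, .n, .n, .n]) (.L 61)) (.G 166 160 1 1 1 1 [.n, .g 1
  0 139 0, .n, .n]))) (.L 396)) (.G 196 60 1 1 1 1 [.n, .n, .n, .g 3937 19
  32768 0])) (.L 6)) (.C 0 1 1 4 (.L 23) (.C 1 2 8 1 (.G 95 11 3 1 1 1 [.n,
  .n, .n, .g 4 73 0 0, .n]) (.L 23)))) (.C 0 2 1 4 (.T 1 1 (.G 70 368 3 1 1
  1 [.g 2 313 0 0, .n, .n, .n, .g 1 215 0 0]) (.G 95 11 3 1 1 1 [.n, .n, .n,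
  .g 1 61 0 0, .n])) (.L 11))) (by decide +kernel)

theorem CS1_c27 : CoF CSTab ⟨⟨9408, 20434, 320000⟩, ⟨20032, 39534, 640000⟩,
  ⟨9408, 17766, 320000⟩, ⟨0, 1⟩, ⟨2, 1⟩, ⟨1, 0, 0⟩, ⟨0, 1, 0⟩, ⟨0, 1, 1⟩⟩ :=
  CoF.ofG CSTab_B CSBt_E CSBt_U (.L 268) (by decide +kernel)

end Pool.Agent.TET.Cvr
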