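import Pool.Agent.Helper37_TET.CS1_000

/-!
# MP_c7c9bf_co: cover of the charts, root 1, assembly 0
-/

set_option autoImplicit false
set_option maxRecDepth 100000

namespace Pool.Agent.TET.Cvr

theorem CS1_t0 : CoF CSTab ⟨⟨5088, 5442, 80000⟩, ⟨1936, 3388, 40000⟩, ⟨1576,
  1694, 20000⟩, ⟨0, 1⟩, ⟨2, 1⟩, ⟨1, 0, 0⟩, ⟨0, 1, 0⟩, ⟨0, 1, 1⟩⟩ :=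
  CoF.b 1 1 2 rfl rfl rfl CS1_c1 CS1_c2

theorem CS1_t1 : CoF CSTab ⟨⟨1936, 2054, 40000⟩, ⟨1936, 3388, 40000⟩, ⟨1576,
  1694, 20000⟩, ⟨0, 1⟩, ⟨2, 1⟩, ⟨1, 0, 0⟩, ⟨0, 1, 0⟩, ⟨0, 1, 1⟩⟩ :=
  CoF.b 2 2 1 rfl rfl rfl CS1_t0 CS1_c3

theorem CS1_t2 : CoF CSTab ⟨⟨1936, 2054, 40000⟩, ⟨360, 1694, 20000⟩, ⟨1576,
  1694, 20000⟩, ⟨0, 1⟩, ⟨2, 1⟩, ⟨1, 0, 0⟩, ⟨0, 1, 0⟩, ⟨0, 1, 1⟩⟩ :=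
  CoF.b 1 1 1 rfl rfl rfl CS1_c0 CS1_t1

theorem CS1_t3 : CoF CSTab ⟨⟨330240, 667228, 10240000⟩, ⟨41280, 83070,
  1280000⟩, ⟨5282624, 10647634, 163840000⟩, ⟨0, 1⟩, ⟨2, 1⟩, ⟨1, 0, 0⟩, ⟨4,
  1, 0⟩, ⟨8, 1, 1⟩⟩ :=
  CoF.b 0 1 8 rfl rfl rfl CS1_c19 CS1_c20

theorem CS1_t4 : CoF CSTab ⟨⟨330240, 667228, 10240000⟩, ⟨41280, 83070,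
  1280000⟩, ⟨2640704, 5331154, 81920000⟩, ⟨0, 1⟩, ⟨2, 1⟩, ⟨1, 0, 0⟩, ⟨4, 1,
  0⟩, ⟨8, 1, 1⟩⟩ :=
  CoF.b 1 64 1 rfl rfl rfl CS1_t3 CS1_c21

theorem CS1_t5 : CoF CSTab ⟨⟨330240, 667228, 10240000⟩, ⟨41280, 83070,
  1280000⟩, ⟨1319744, 2662242, 40960000⟩, ⟨0, 1⟩, ⟨2, 1⟩, ⟨1, 0, 0⟩, ⟨4, 1,
  0⟩, ⟨8, 1, 1⟩⟩ :=
  CoF.b 2 1 4 rfl rfl rfl CS1_c18 CS1_t4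

theorem CS1_t6 : CoF CSTab ⟨⟨330240, 667228, 10240000⟩, ⟨41280, 83070,
  1280000⟩, ⟨659264, 1333122, 20480000⟩, ⟨0, 1⟩, ⟨2, 1⟩, ⟨1, 0, 0⟩, ⟨4, 1,
  0⟩, ⟨8, 1, 1⟩⟩ :=
  CoF.b 1 16 1 rfl rfl rfl CS1_t5 CS1_c22

theorem CS1_t7 : CoF CSTab ⟨⟨165120, 334948, 5120000⟩, ⟨41280, 83070,
  1280000⟩, ⟨659264, 1333122, 20480000⟩, ⟨0, 1⟩, ⟨2, 1⟩, ⟨1, 0, 0⟩, ⟨4, 1,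
  0⟩, ⟨8, 1, 1⟩⟩ :=
  CoF.b 0 1 4 rfl rfl rfl CS1_c17 CS1_t6

theorem CS1_t8 : CoF CSTab ⟨⟨165120, 334948, 5120000⟩, ⟨41280, 83070,
  1280000⟩, ⟨329024, 668562, 10240000⟩, ⟨0, 1⟩, ⟨2, 1⟩, ⟨1, 0, 0⟩, ⟨4, 1,
  0⟩, ⟨8, 1, 1⟩⟩ :=
  CoF.b 1 8 1 rfl rfl rfl CS1_t7 CS1_c23

theorem CS1_t9 : CoF CSTab ⟨⟨82560, 168808, 2560000⟩, ⟨41280, 83070,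
  1280000⟩, ⟨329024, 668562, 10240000⟩, ⟨0, 1⟩, ⟨2, 1⟩, ⟨1, 0, 0⟩, ⟨4, 1,
  0⟩, ⟨8, 1, 1⟩⟩ :=
  CoF.b 0 1 2 rfl rfl rfl CS1_c16 CS1_t8

theorem CS1_t10 : CoF CSTab ⟨⟨82560, 168808, 2560000⟩, ⟨41280, 83070,
  1280000⟩, ⟨163904, 336282, 5120000⟩, ⟨0, 1⟩, ⟨2, 1⟩, ⟨1, 0, 0⟩, ⟨4, 1, 0⟩,
  ⟨8, 1, 1⟩⟩ :=
  CoF.b 1 4 1 rfl rfl rfl CS1_t9 CS1_c24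

theorem CS1_t11 : CoF CSTab ⟨⟨41280, 85738, 1280000⟩, ⟨41280, 83070,
  1280000⟩, ⟨163904, 336282, 5120000⟩, ⟨0, 1⟩, ⟨2, 1⟩, ⟨1, 0, 0⟩, ⟨4, 1, 0⟩,
  ⟨8, 1, 1⟩⟩ :=
  CoF.b 0 1 1 rfl rfl rfl CS1_c15 CS1_t10

theorem CS1_t12 : CoF CSTab ⟨⟨41280, 85738, 1280000⟩, ⟨41280, 83070,
  1280000⟩, ⟨81344, 164806, 2560000⟩, ⟨0, 1⟩, ⟨2, 1⟩, ⟨1, 0, 0⟩, ⟨4, 1, 0⟩,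
  ⟨8, 1, 1⟩⟩ :=
  CoF.b 2 1 2 rfl rfl rfl CS1_c14 CS1_t11

theorem CS1_t13 : CoF CSTab ⟨⟨41280, 85738, 1280000⟩, ⟨41280, 83070,
  1280000⟩, ⟨20032, 39534, 640000⟩, ⟨0, 1⟩, ⟨2, 1⟩, ⟨1, 0, 0⟩, ⟨4, 1, 0⟩,
  ⟨8, 1, 1⟩⟩ :=
  CoF.b 2 2 1 rfl rfl rfl CS1_c13 CS1_t12

theorem CS1_t14 : CoF CSTab ⟨⟨41280, 85738, 1280000⟩, ⟨2656, 5442, 80000⟩,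
  ⟨20032, 39534, 640000⟩, ⟨0, 1⟩, ⟨2, 1⟩, ⟨1, 0, 0⟩, ⟨4, 1, 0⟩, ⟨8, 1, 1⟩⟩
  :=
  CoF.b 1 8 1 rfl rfl rfl CS1_c12 CS1_t13

theorem CS1_t15 : CoF CSTab ⟨⟨41280, 85738, 1280000⟩, ⟨2656, 5442, 80000⟩,
  ⟨20032, 39534, 640000⟩, ⟨0, 1⟩, ⟨2, 1⟩, ⟨1, 0, 0⟩, ⟨0, 1, 0⟩, ⟨8, 1, 1⟩⟩
  :=
  CoF.c 0 1 4 1 rfl rfl rfl rfl rfl CS1_t14 CS1_c25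

theorem CS1_t16 : CoF CSTab ⟨⟨41280, 85738, 1280000⟩, ⟨2656, 5442, 80000⟩,
  ⟨20032, 39534, 640000⟩, ⟨0, 1⟩, ⟨2, 1⟩, ⟨1, 0, 0⟩, ⟨0, 1, 0⟩, ⟨0, 1, 1⟩⟩
  :=
  CoF.c 0 2 8 1 rfl rfl rfl rfl rfl CS1_t15 CS1_c26

theorem CS1_t17 : CoF CSTab ⟨⟨20032, 42202, 640000⟩, ⟨2656, 5442, 80000⟩,
  ⟨20032, 39534, 640000⟩, ⟨0, 1⟩, ⟨2, 1⟩, ⟨1, 0, 0⟩, ⟨0, 1, 0⟩, ⟨0, 1, 1⟩⟩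
  :=
  CoF.b 0 1 8 rfl rfl rfl CS1_c11 CS1_t16

theorem CS1_t18 : CoF CSTab ⟨⟨9408, 20434, 320000⟩, ⟨2656, 5442, 80000⟩,
  ⟨20032, 39534, 640000⟩, ⟨0, 1⟩, ⟨2, 1⟩, ⟨1, 0, 0⟩, ⟨0, 1, 0⟩, ⟨0, 1, 1⟩⟩
  :=
  CoF.b 0 1 4 rfl rfl rfl CS1_c10 CS1_t17

theorem CS1_t19 : CoF CSTab ⟨⟨9408, 20434, 320000⟩, ⟨2656, 5442, 80000⟩,
  ⟨9408, 17766, 320000⟩, ⟨0, 1⟩, ⟨2, 1⟩, ⟨1, 0, 0⟩, ⟨0, 1, 0⟩, ⟨0, 1, 1⟩⟩ :=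
  CoF.b 1 4 1 rfl rfl rfl CS1_t18 CS1_c27

theorem CS1_t20 : CoF CSTab ⟨⟨4096, 9550, 160000⟩, ⟨2656, 5442, 80000⟩,
  ⟨9408, 17766, 320000⟩, ⟨0, 1⟩, ⟨2, 1⟩, ⟨1, 0, 0⟩, ⟨0, 1, 0⟩, ⟨0, 1, 1⟩⟩ :=
  CoF.b 0 1 2 rfl rfl rfl CS1_c9 CS1_t19

theorem CS1_t21 : CoF CSTab ⟨⟨4096, 9550, 160000⟩, ⟨2656, 5442, 80000⟩,
  ⟨2656, 4108, 80000⟩, ⟨0, 1⟩, ⟨2, 1⟩, ⟨1, 0, 0⟩, ⟨0, 1, 0⟩, ⟨0, 1, 1⟩⟩ :=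
  CoF.b 2 2 1 rfl rfl rfl CS1_c8 CS1_t20

theorem CS1_t22 : CoF CSTab ⟨⟨720, 2054, 40000⟩, ⟨2656, 5442, 80000⟩, ⟨2656,
  4108, 80000⟩, ⟨0, 1⟩, ⟨2, 1⟩, ⟨1, 0, 0⟩, ⟨0, 1, 0⟩, ⟨0, 1, 1⟩⟩ :=
  CoF.b 0 2 1 rfl rfl rfl CS1_c7 CS1_t21

theorem CS1_t23 : CoF CSTab ⟨⟨720, 2054, 40000⟩, ⟨2656, 5442, 80000⟩, ⟨1936,
  2054, 40000⟩, ⟨0, 1⟩, ⟨2, 1⟩, ⟨1, 0, 0⟩, ⟨0, 1, 0⟩, ⟨0, 1, 1⟩⟩ :=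
  CoF.b 2 1 1 rfl rfl rfl CS1_c6 CS1_t22

theorem CS1_t24 : CoF CSTab ⟨⟨720, 2054, 40000⟩, ⟨360, 1694, 20000⟩, ⟨1936,
  2054, 40000⟩, ⟨0, 1⟩, ⟨2, 1⟩, ⟨1, 0, 0⟩, ⟨0, 1, 0⟩, ⟨0, 1, 1⟩⟩ :=
  CoF.b 1 2 1 rfl rfl rfl CS1_c5 CS1_t23

theorem CS1_t25 : CoF CSTab ⟨⟨360, 360, 20000⟩, ⟨360, 1694, 20000⟩, ⟨1936,
  2054, 40000⟩, ⟨0, 1⟩, ⟨2, 1⟩, ⟨1, 0, 0⟩, ⟨0, 1, 0⟩, ⟨0, 1, 1⟩⟩ :=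
  CoF.b 0 1 1 rfl rfl rfl CS1_c4 CS1_t24

theorem CS1_t26 : CoF CSTab ⟨⟨360, 360, 20000⟩, ⟨360, 1694, 20000⟩, ⟨1576,
  1694, 20000⟩, ⟨0, 1⟩, ⟨2, 1⟩, ⟨1, 0, 0⟩, ⟨0, 1, 0⟩, ⟨0, 1, 1⟩⟩ :=
  CoF.b 2 1 1 rfl rfl rfl CS1_t2 CS1_t25

end Pool.Agent.TET.Cvr
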