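import Pool.Agent.Helper37_TET.CSBt

/-!
# MP_c7c9bf_co: cover of the charts, root 2 part 0
-/

set_option autoImplicit false
set_option maxRecDepth 100000

namespace Pool.Agent.TET.Cvr

theorem CS2_c0 : CoF CSTab ⟨⟨1995, 1995, 40000⟩, ⟨2054, 1936, 40000⟩, ⟨5324,
  5206, 80000⟩, ⟨0, 1⟩, ⟨2, 1⟩, ⟨1, 0, 0⟩, ⟨0, 1, 0⟩, ⟨0, 1, 1⟩⟩ :=
CoF.ofG CSTab_B CSBt_E CSBt_U (.B 1 2 1 (.B 2 1 4 (.C 0 2 8 1 (.T 1 1 (.T 2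
  1 (.T 4 1 (.T 8 1 (.C 1 2 4 1 (.C 0 1 4 1 (.C 1 2 4 1 (.L 5) (.C 0 2 32 1
  (.L 5) (.G 516 5 1 251605 251605 125802 [.n, .g 64 13 5 0, .g 128 19 15 0,
  .n]))) (.C 0 2 4 1 (.L 5) (.C 0 1 1 16 (.G 107 1 1 82 165 41 [.g 23 1 1021
  0, .n, .g 1 1 1040 0, .g 64 5 0 0]) (.C 1 2 8 1 (.L 111) (.C 0 2 1 4 (.G
  139 29 1 96584 48292 193168 [.g 64 11 17 0, .g 32 9 0 0, .g 64 35 0 0, .n,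
  .n]) (.C 1 2 1 2 (.G 305 163 2 199925 49981 99963 [.g 8 33 14 0, .n, .n,
  .n, .n]) (.G 67 1016 1 2114047 1057023 264256 [.n, .g 64 0 3 0, .g 3 7086
  17 0, .g 2 4959 12 0, .n, .n]))))))) (.C 1 2 1 2 (.L 204) (.O 4))) (.L
  15)) (.L 21)) (.L 6)) (.C 0 1 4 1 (.T 1 2 (.T 2 1 (.L 7) (.C 1 2 2 1 (.L
  4) (.L 16))) (.T 1 4 (.C 1 2 2 1 (.L 2) (.C 1 2 1 2 (.L 2) (.L 9))) (.C 0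
  1 8 1 (.C 1 2 1 1 (.C 1 2 2 1 (.T 1 8 (.L 2) (.C 1 2 4 1 (.T 1 16 (.L 42)
  (.C 1 2 8 1 (.L 76) (.L 96))) (.T 1 16 (.L 38) (.O 4)))) (.T 1 8 (.T 2 1
  (.L 2) (.L 50)) (.O 4))) (.O 4)) (.L 3)))) (.C 1 2 4 1 (.C 0 1 1 2 (.L 27)
  (.C 1 2 8 1 (.C 0 1 1 4 (.L 8) (.T 1 2 (.L 4) (.L 12))) (.L 8))) (.C 1 2 1
  2 (.L 3) (.T 1 2 (.G 4 27 2 8 66 17 [.n, .n, .g 1 0 1199 0, .g 4 1 4638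
  0]) (.L 3)))))) (.C 0 2 1 2 (.T 1 1 (.T 2 1 (.C 1 2 8 1 (.T 4 1 (.C 0 1 1
  4 (.G 224 450 0 6724 13449 26898 [.g 64 0 17 0, .n, .n, .n]) (.C 0 1 1 8
  (.C 0 1 2 1 (.T 8 1 (.C 1 2 1 2 (.G 509 224 0 3 14 27 [.g 64 1 0 0, .n, .g
  64 63 0 0, .g 283 23 32794 0]) (.L 204)) (.L 15)) (.C 0 1 1 2 (.C 0 2 1 2
  (.G 219 39 3 1 1 1 [.g 5 61 0 0, .n, .n, .n, .g 1 565 73866 0, .g 1 556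
  81824 0]) (.L 31)) (.L 31))) (.L 11))) (.L 82)) (.G 381 44 1 1 1 1 [.n, .g
  8192 1 0 0, .n, .g 32 0 21 0, .n, .n])) (.L 6)) (.C 0 1 1 4 (.G 4 10 3 62
  124 124 [.n, .n, .g 32 11 0 0, .g 64 15 0 0]) (.C 1 2 8 1 (.C 0 1 1 8 (.L
  20) (.T 1 2 (.L 26) (.L 12))) (.L 3)))) (.C 0 2 1 4 (.T 1 1 (.T 2 1 (.G
  368 44 1 1 1 1 [.n, .n, .n, .g 60 2 4123 0]) (.C 0 2 2 1 (.L 6) (.L 49)))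
  (.C 0 1 1 8 (.L 3) (.C 1 2 16 1 (.T 1 2 (.L 7) (.L 12)) (.L 3)))) (.C 0 2
  1 8 (.T 1 1 (.L 18) (.C 0 1 1 16 (.L 3) (.T 1 2 (.L 52) (.L 12)))) (.L
  28))))) (.C 0 2 8 1 (.T 1 1 (.T 2 1 (.T 4 1 (.T 8 1 (.C 1 2 4 1 (.C 0 1 4
  1 (.C 1 2 4 1 (.L 5) (.C 0 2 32 1 (.L 5) (.G 200 43 0 47162 47162 23581
  [.g 16 0 3 0, .n, .n, .n]))) (.C 0 2 4 1 (.L 5) (.C 1 2 8 1 (.G 39 1 1 508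
  32 508 [.n, .n, .n, .g 13 32 0 0]) (.T 16 1 (.C 1 2 1 2 (.C 0 1 1 1 (.G
  240 5 1 338837 677674 677674 [.n, .n, .g 64 18 1 0, .n, .n]) (.L 37)) (.L
  46)) (.L 53))))) (.C 1 2 1 2 (.L 46) (.O 4))) (.L 15)) (.L 21)) (.L 6))
  (.C 0 1 4 1 (.T 1 2 (.T 2 1 (.L 7) (.C 1 2 2 1 (.L 4) (.L 16))) (.T 1 4
  (.C 1 2 2 1 (.L 2) (.C 1 2 1 2 (.L 2) (.L 9))) (.C 0 1 8 1 (.C 1 2 1 1 (.C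
  1 2 2 1 (.T 1 8 (.L 2) (.C 1 2 4 1 (.T 1 16 (.L 42) (.C 1 2 8 1 (.L 76)
  (.L 96))) (.T 1 16 (.L 38) (.O 4)))) (.T 1 8 (.T 2 1 (.L 2) (.L 50)) (.O
  4))) (.O 4)) (.L 3)))) (.C 1 2 4 1 (.C 0 1 1 2 (.L 27) (.C 1 2 8 1 (.C 0 1
  1 4 (.L 8) (.T 1 2 (.L 4) (.L 12))) (.L 8))) (.C 1 2 1 2 (.L 3) (.T 1 2
  (.G 7 62 1 8 60 15 [.n, .n, .g 2 0 4243 0, .g 2 1 5305 0]) (.L 3)))))) (.C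
  0 2 1 2 (.T 1 1 (.T 2 1 (.C 1 2 8 1 (.T 4 1 (.C 0 1 1 4 (.G 209 43 0 8472
  16945 33889 [.g 64 46 29 0, .n, .n, .n]) (.C 0 1 1 8 (.C 0 1 2 1 (.G 224
  200 0 6136 24542 12271 [.g 18 64 29 0, .n, .n, .n]) (.L 111)) (.L 11)))
  (.L 104)) (.G 99 148 0 1 1 1 [.g 1 0 2032 0, .n, .n, .g 2 0 333 0])) (.L
  6)) (.C 0 1 1 4 (.G 4 57 2 62 125 125 [.n, .n, .g 64 25 0 0, .g 64 17 0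
  0]) (.C 1 2 8 1 (.C 0 1 1 8 (.L 20) (.T 1 2 (.L 26) (.L 12))) (.L 3))))
  (.C 0 2 1 4 (.T 1 1 (.T 2 1 (.G 328 44 1 1 1 1 [.n, .n, .n, .g 119 2 4097
  0]) (.C 0 2 2 1 (.L 6) (.L 49))) (.C 0 1 1 8 (.L 3) (.C 1 2 16 1 (.T 1 2
  (.L 7) (.L 12)) (.L 3)))) (.C 0 2 1 8 (.T 1 1 (.L 18) (.C 0 1 1 16 (.L 3)
  (.T 1 2 (.L 52) (.L 12)))) (.L 28)))))) (.B 2 1 2 (.C 0 2 8 1 (.T 1 1 (.T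
  2 1 (.T 4 1 (.T 8 1 (.C 1 2 4 1 (.C 0 1 4 1 (.C 1 2 4 1 (.L 5) (.C 0 2 32
  1 (.L 5) (.G 5 68 3 244607 244607 122304 [.n, .g 7 69 6 0, .n, .n]))) (.C
  0 2 4 1 (.L 5) (.C 0 1 1 16 (.C 1 2 1 4 (.L 1) (.C 0 2 1 2 (.L 1) (.T 16 1
  (.L 59) (.T 1 2 (.C 0 2 1 4 (.G 36 1 1 52 105 105 [.n, .n, .g 4 2 4171 0,
  .n]) (.G 760 424 1 69 69 9 [.n, .n, .g 16 15 0 0, .n])) (.L 156))))) (.C 1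
  2 8 1 (.L 84) (.C 0 2 1 4 (.G 202 29 1 81031 40516 162062 [.n, .g 32 9 0
  0, .g 64 16 13 0, .g 64 4 13 0, .n]) (.G 107 85 1 205 51 26 [.g 130 7 8168
  0, .n, .g 1 1 1298 0, .g 64 11 0 0])))))) (.C 1 2 1 2 (.L 25) (.O 4))) (.L
  15)) (.L 21)) (.L 6)) (.C 0 1 4 1 (.T 1 2 (.T 2 1 (.L 7) (.T 1 2 (.C 1 2 2
  1 (.L 33) (.L 16)) (.L 16))) (.T 1 4 (.C 1 2 2 1 (.L 2) (.C 1 2 1 2 (.L 2)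
  (.L 9))) (.C 0 1 8 1 (.C 1 2 1 1 (.C 1 2 2 1 (.T 1 8 (.L 2) (.C 1 2 4 1
  (.T 1 16 (.L 42) (.C 1 2 8 1 (.L 76) (.L 96))) (.T 1 16 (.L 38) (.O 4))))
  (.T 1 8 (.T 2 1 (.L 2) (.L 50)) (.O 4))) (.O 4)) (.L 3)))) (.C 1 2 4 1 (.C
  0 1 1 2 (.G 62 70 4 1 1 1 [.g 32 11 0 0, .n, .n, .n]) (.C 1 2 8 1 (.C 0 1
  1 4 (.L 8) (.T 1 2 (.L 4) (.L 12))) (.L 8))) (.C 1 2 1 2 (.L 3) (.T 1 2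
  (.G 7 62 1 8 60 15 [.n, .n, .g 2 0 4261 0, .g 1 1 2767 0]) (.L 3)))))) (.C
  0 2 1 2 (.T 1 1 (.T 2 1 (.C 0 1 1 4 (.G 210 86 3 1 1 1 [.g 1 0 2997 0, .n,
  .n, .g 2 0 5447 0]) (.T 4 1 (.T 8 1 (.C 1 2 8 1 (.C 0 1 1 8 (.C 1 2 1 1
  (.C 0 1 2 1 (.T 16 1 (.O 4) (.G 888 68 3 4 14 14 [.n, .n, .g 16 3 0 0, .g
  3 5 8706 0])) (.G 55 182 3 638 319 638 [.n, .g 4 1 204 0, .g 63 26 64 0,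
  .n, .n])) (.G 24 25 0 20060 80239 40120 [.g 39 64 0 0, .n, .n])) (.L 98))
  (.C 0 2 1 1 (.L 25) (.O 4))) (.L 15)) (.L 30))) (.L 6)) (.C 0 1 1 4 (.G 4
  114 3 294 588 588 [.n, .n, .g 64 33 0 0, .g 64 23 0 0]) (.C 1 2 8 1 (.C 0
  1 1 8 (.L 20) (.T 1 2 (.L 26) (.L 12))) (.L 3)))) (.C 0 2 1 4 (.T 1 1 (.T
  2 1 (.T 4 1 (.G 39 60 1 1 1 1 [.n, .n, .n, .g 21 2 4056 0]) (.L 30)) (.C 0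
  2 2 1 (.L 6) (.L 35))) (.C 0 1 1 8 (.L 3) (.C 1 2 16 1 (.T 1 2 (.L 7) (.L
  12)) (.L 3)))) (.C 0 2 1 8 (.T 1 1 (.L 18) (.C 0 1 1 16 (.L 3) (.T 1 2 (.L
  52) (.L 12)))) (.L 28))))) (.C 0 2 8 1 (.T 1 1 (.T 2 1 (.T 4 1 (.T 8 1 (.C
  1 2 4 1 (.C 0 1 4 1 (.C 1 2 4 1 (.L 5) (.C 0 2 32 1 (.L 5) (.G 248 5 1
  244607 244607 122304 [.g 64 13 12 0, .g 256 20 9 0, .n, .n]))) (.C 0 2 4 1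
  (.L 5) (.C 0 1 1 16 (.G 91 1 1 83 166 41 [.g 7 1 974 0, .n, .g 1 1 1044 0,
  .g 32 3 0 0]) (.C 1 2 8 1 (.L 111) (.C 0 2 1 4 (.G 118 29 1 94428 47214
  188855 [.g 32 13 0 0, .n, .n, .g 16 5 3 0, .g 64 17 0 0]) (.G 107 254 4
  221 55 28 [.g 138 7 8163 0, .n, .g 1 1 1181 0, .g 64 11 0 0])))))) (.C 1 2
  1 2 (.L 204) (.O 4))) (.L 15)) (.L 21)) (.L 6)) (.C 0 1 4 1 (.T 1 2 (.T 2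
  1 (.L 7) (.T 1 2 (.C 1 2 2 1 (.L 33) (.L 16)) (.L 16))) (.T 1 4 (.C 1 2 2
  1 (.L 2) (.C 1 2 1 2 (.L 2) (.L 9))) (.C 0 1 8 1 (.C 1 2 1 1 (.T 1 8 (.C 1
  2 2 1 (.L 2) (.T 2 1 (.L 2) (.L 50))) (.C 1 2 2 1 (.C 1 2 4 1 (.T 1 16 (.L
  42) (.C 1 2 8 1 (.L 76) (.L 96))) (.T 1 16 (.L 38) (.O 4))) (.O 4))) (.O
  4)) (.L 3)))) (.C 1 2 4 1 (.C 0 1 1 2 (.L 27) (.C 1 2 8 1 (.C 0 1 1 4 (.L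
  8) (.T 1 2 (.L 4) (.L 12))) (.L 8))) (.C 1 2 1 2 (.L 3) (.T 1 2 (.G 4 70 3
  4 33 8 [.n, .n, .g 1 0 2487 0, .g 4 1 7325 0]) (.L 3)))))) (.C 0 2 1 2 (.T
  1 1 (.T 2 1 (.C 0 1 1 4 (.C 0 1 2 1 (.L 190) (.C 1 2 1 1 (.C 1 2 2 1 (.C 0
  1 1 2 (.G 204 82 3 1 2 2 [.g 16 15 0 0, .n, .n, .n]) (.T 4 1 (.G 224 450 0
  154552 38638 154552 [.g 32 6 5 0, .n, .n, .n]) (.L 61))) (.L 181)) (.L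
  213))) (.T 4 1 (.T 8 1 (.C 1 2 8 1 (.C 0 1 1 8 (.C 1 2 1 1 (.C 0 1 2 1 (.T
  16 1 (.O 4) (.G 508 306 3 7507 30027 30027 [.n, .n, .g 32 2 15 0, .n, .n,
  .g 64 21 0 0])) (.G 246 119 3 14 7 14 [.g 8 13 0 0, .n, .n, .n])) (.G 430
  296 4 1 1 1 [.n, .n, .n, .g 4 0 3 0, .n, .n])) (.L 243)) (.C 0 2 1 1 (.L
  204) (.O 4))) (.L 15)) (.L 30))) (.L 6)) (.C 0 1 1 4 (.G 4 186 2 61 122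
  122 [.n, .n, .g 16 7 0 0, .g 64 19 0 0]) (.C 1 2 8 1 (.C 0 1 1 8 (.L 20)
  (.T 1 2 (.L 26) (.L 12))) (.L 3)))) (.C 0 2 1 4 (.T 1 1 (.T 2 1 (.G 328 44
  1 1 1 1 [.n, .n, .n, .g 87 2 4078 0]) (.C 0 2 2 1 (.L 6) (.L 49))) (.C 0 1
  1 8 (.L 3) (.C 1 2 16 1 (.T 1 2 (.L 7) (.L 12)) (.L 3)))) (.C 0 2 1 8 (.T
  1 1 (.L 18) (.C 0 1 1 16 (.L 3) (.T 1 2 (.L 52) (.L 12)))) (.L 28)))))))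
  (by decide +kernel)

theorem CS2_c1 : CoF CSTab ⟨⟨1995, 1995, 40000⟩, ⟨5324, 5206, 80000⟩, ⟨1635,
  1635, 20000⟩, ⟨0, 1⟩, ⟨2, 1⟩, ⟨1, 0, 0⟩, ⟨0, 1, 0⟩, ⟨0, 1, 1⟩⟩ :=
CoF.ofG CSTab_B CSBt_E CSBt_U (.B 2 2 1 (.B 1 1 4 (.C 0 2 8 1 (.T 1 1 (.T 2
  1 (.T 4 1 (.T 8 1 (.C 1 2 4 1 (.C 0 1 4 1 (.C 1 2 4 1 (.L 5) (.C 0 2 32 1
  (.L 5) (.G 500 1 1 259065 259065 129533 [.n, .g 16 3 3 0, .g 4096 163 146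
  0, .n]))) (.C 0 2 4 1 (.L 5) (.C 0 1 1 16 (.C 1 2 1 4 (.C 1 2 2 1 (.L 5)
  (.C 0 1 8 1 (.C 0 2 4 1 (.L 5) (.G 54 1 1 16 33 8 [.g 64 1 0 0, .n, .n, .g
  64 53 0 0, .g 1 4 45465 0, .g 1 5 46056 0])) (.G 488 1 1 1049 524 262 [.n,
  .g 32 17 0 0, .g 2 3 2972 0, .g 1 2 2138 0, .g 1 1 375 0]))) (.C 0 2 1 2
  (.C 0 2 2 1 (.C 0 1 4 1 (.L 5) (.T 16 1 (.G 249 1 1 8388607 4194304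
  4194304 [.g 64 26 1 0, .g 128 1 1 0, .n, .n, .g 32 0 1 0]) (.G 5 36 2 1580
  790 790 [.n, .g 64 21 0 0, .n, .n]))) (.T 16 1 (.T 32 1 (.O 4) (.C 1 2 1 2
  (.C 0 1 1 1 (.O 4) (.C 0 1 1 2 (.L 225) (.L 242))) (.O 4))) (.G 36 1 1 546
  546 273 [.n, .n, .g 16 65 0 0, .n]))) (.T 16 1 (.C 1 2 1 8 (.C 0 2 4 1 (.T
  32 1 (.O 4) (.C 1 2 4 1 (.T 1 2 (.O 4) (.G 249 216 2 102193 204386 1635091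
  [.g 64 0 35 0, .g 64 20 27 0, .n, .n, .n])) (.O 4))) (.L 59)) (.O 4)) (.T
  1 2 (.C 0 2 1 4 (.T 2 1 (.G 1 216 2 150387 300773 300773 [.n, .g 3 7 0 0,
  .n, .n]) (.L 74)) (.G 448 36 2 1 1 1 [.g 3 26 30959 0, .n, .n, .n])) (.L
  24))))) (.C 1 2 8 1 (.L 40) (.C 0 2 1 4 (.C 0 2 2 1 (.L 29) (.G 55 29 1
  400933 50117 200467 [.g 1024 232 83 0, .g 64 11 21 0, .n, .n, .g 64 11 0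
  0])) (.T 16 1 (.L 59) (.G 91 100 3 236 59 29 [.n, .n, .g 6 11 7601 0, .g
  64 37 0 0]))))))) (.C 1 2 1 2 (.L 25) (.O 4))) (.L 24)) (.L 45)) (.L 6))
  (.C 0 1 4 1 (.T 1 2 (.T 2 1 (.L 7) (.T 1 2 (.C 1 2 2 1 (.L 33) (.L 16))
  (.L 48))) (.T 1 4 (.C 1 2 2 1 (.L 2) (.C 1 2 1 2 (.L 2) (.L 9))) (.C 0 1 8
  1 (.C 1 2 1 1 (.T 1 8 (.C 1 2 2 1 (.L 2) (.C 1 2 1 2 (.L 17) (.L 9))) (.C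
  1 2 2 1 (.C 1 2 4 1 (.T 1 16 (.L 42) (.C 1 2 8 1 (.L 76) (.L 96))) (.T 1
  16 (.L 38) (.O 4))) (.O 4))) (.O 4)) (.L 27)))) (.C 1 2 4 1 (.C 0 1 1 2
  (.T 1 2 (.L 4) (.L 3)) (.C 1 2 8 1 (.C 0 1 1 4 (.L 8) (.T 1 2 (.L 11) (.L
  12))) (.L 8))) (.C 1 2 1 2 (.T 1 2 (.L 4) (.L 3)) (.T 1 2 (.G 4 57 2 9 69
  17 [.n, .n, .g 1 0 1489 0, .g 6 1 4275 0]) (.L 3)))))) (.C 0 2 1 2 (.T 1 1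
  (.T 2 1 (.C 1 2 8 1 (.T 4 1 (.T 8 1 (.C 0 1 1 4 (.C 0 1 2 1 (.O 4) (.L
  25)) (.C 0 1 1 8 (.C 1 2 1 1 (.C 0 1 2 1 (.T 16 1 (.O 4) (.G 384 47 0 6 24
  24 [.g 64 31 0 0, .n, .g 32 15 0 0, .g 17 2 4151 0])) (.G 85 176 3 1277
  639 1277 [.n, .g 3 1 67 0, .g 64 33 0 0, .n])) (.G 188 129 1 14060 56241
  28121 [.n, .g 64 25 0 0, .g 32 19 0 0, .n])) (.L 40))) (.L 24)) (.G 177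
  160 1 1 1 1 [.n, .n, .g 1 0 1027 0, .n, .n])) (.G 296 99 0 1 1 1 [.n, .n,
  .n, .n, .g 64 0 45 0, .g 8192 1 0 0])) (.L 6)) (.C 0 1 1 4 (.G 4 215 0 61
  122 122 [.n, .n, .g 4 2 4651 0, .g 10 3 8243 0]) (.C 1 2 8 1 (.C 0 1 1 8
  (.L 20) (.T 1 2 (.L 26) (.L 12))) (.L 3)))) (.C 0 2 1 4 (.T 1 1 (.T 2 1
  (.T 4 1 (.G 178 168 3 49 6 99 [.n, .n, .n, .g 1 1 299 0]) (.L 30)) (.C 0 2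
  2 1 (.L 6) (.L 35))) (.C 0 1 1 8 (.L 3) (.C 1 2 16 1 (.T 1 2 (.L 7) (.L
  12)) (.L 3)))) (.C 0 2 1 8 (.T 1 1 (.L 18) (.C 0 1 1 16 (.L 3) (.T 1 2 (.L
  11) (.L 12)))) (.L 28))))) (.C 0 2 8 1 (.T 1 1 (.T 2 1 (.T 4 1 (.T 8 1 (.C
  1 2 4 1 (.C 0 1 4 1 (.C 1 2 4 1 (.L 5) (.C 0 2 32 1 (.L 5) (.C 1 2 1 2 (.L
  5) (.G 74 5 1 152174 304348 76087 [.n, .g 128 17 31 0, .g 32 5 10 0,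
  .n])))) (.C 0 2 4 1 (.L 5) (.C 1 2 8 1 (.C 0 1 1 16 (.C 1 2 1 2 (.L 1) (.C
  0 2 1 1 (.L 1) (.L 29))) (.L 29)) (.C 0 2 1 2 (.C 0 1 1 1 (.L 5) (.C 1 2 2
  1 (.T 16 1 (.G 89 29 1 2 1 4 [.g 29 1 16486 0, .g 11 1 3987 0, .n, .n, .g
  1 1 58805 0, .g 1 1 57117 0]) (.C 0 1 1 2 (.T 1 2 (.C 0 1 2 1 (.L 138) (.G
  124 488 1 1 1 1 [.n, .n, .g 27 65 0 0, .n])) (.L 24)) (.C 0 1 1 4 (.T 1 2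
  (.G 143 105 0 184 368 184 [.g 23 64 0 0, .n, .n, .n]) (.L 24)) (.C 1 2 4 1
  (.L 163) (.T 1 2 (.C 0 2 1 2 (.L 105) (.G 501 143 0 1 1 1 [.n, .n, .g 64
  37 0 0, .n])) (.L 24)))))) (.C 0 2 1 1 (.C 1 2 1 1 (.G 138 1 1 2 4 7 [.g
  31 1 2061 0, .n, .n, .n, .g 1 1 21677 0, .g 1 1 22185 0]) (.L 1)) (.T 16 1
  (.G 32 5 1 62 62 31 [.g 35 1 8107 0, .n, .n, .n, .n, .g 4 31 0 0]) (.C 1 2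
  1 2 (.C 0 1 1 1 (.L 1) (.C 1 2 2 1 (.G 1 138 0 122 61 245 [.n, .g 64 39 0
  0, .n, .n]) (.G 1 445 7 1 2 1 [.n, .g 13 16 0 0, .n, .n]))) (.L 1))))))
  (.T 16 1 (.C 0 1 1 2 (.C 1 2 1 8 (.T 32 1 (.O 4) (.C 1 2 2 1 (.T 1 2 (.O
  4) (.G 32 400 0 1 2 8 [.g 1 0 282 0, .n, .n, .n, .n, .g 1 3 1008 0])) (.O
  4))) (.O 4)) (.C 0 2 1 8 (.C 0 1 1 4 (.G 32 212 4 11 22 22 [.n, .g 56 2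
  4109 0, .n, .n, .n, .g 16 11 0 0]) (.L 59)) (.L 150))) (.C 0 1 1 2 (.T 1 2
  (.C 0 1 2 1 (.C 1 2 1 16 (.C 0 2 8 1 (.B 2 4 1 (.C 0 1 4 1 (.G 198 1 1
  366221 2929768 5859535 [.g 64 21 12 0, .g 32 13 7 0, .n, .n]) (.G 1 184 0
  399 200 798 [.n, .g 31 32 0 0, .n, .n])) (.L 1)) (.G 184 121 4 1 1 1 [.n,
  .g 1 0 1791 0, .n, .n, .g 1 32 0 0, .g 1 26 0 0, .n, .n])) (.G 157 278 0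
  256603 2052824 64151 [.n, .g 32 0 11 0, .n, .n])) (.G 237 36 2 1 1 1 [.n,
  .n, .n, .n, .g 1 29 0 0, .g 2 71 0 0])) (.L 24)) (.C 1 2 1 2 (.C 0 1 1 4
  (.G 488 317 1 618 1235 309 [.n, .g 44 63 0 0, .n, .n, .n]) (.L 85)) (.G 75
  89 0 1 1 1 [.n, .g 19 32 0 0, .g 8 2 3983 0])))))))) (.C 1 2 1 2 (.L 25)
  (.O 4))) (.L 24)) (.L 45)) (.L 6)) (.C 0 1 4 1 (.T 1 2 (.T 2 1 (.L 7) (.T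
  1 2 (.C 1 2 2 1 (.L 4) (.L 16)) (.L 48))) (.T 1 4 (.C 1 2 2 1 (.L 2) (.C 1
  2 1 2 (.L 2) (.L 9))) (.C 0 1 8 1 (.C 1 2 1 1 (.C 1 2 2 1 (.T 1 8 (.L 2)
  (.C 1 2 4 1 (.T 1 16 (.L 42) (.C 1 2 8 1 (.L 80) (.L 96))) (.T 1 16 (.L
  38) (.O 4)))) (.T 1 8 (.C 1 2 1 2 (.L 17) (.L 9)) (.O 4))) (.O 4)) (.L
  78)))) (.C 1 2 4 1 (.C 0 1 1 2 (.T 1 2 (.L 4) (.L 3)) (.C 1 2 8 1 (.C 0 1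
  1 4 (.L 8) (.T 1 2 (.L 4) (.L 12))) (.L 8))) (.T 1 2 (.G 4 57 2 7 27 14
  [.n, .n, .g 64 19 0 0, .g 2 1 0 0]) (.L 3))))) (.C 0 2 1 2 (.T 1 1 (.T 2 1
  (.C 1 2 8 1 (.C 0 1 1 4 (.C 0 1 2 1 (.G 227 99 0 1 1 1 [.n, .n, .n, .g 1 0
  1936 0, .g 43 5 131664 0]) (.C 0 1 1 2 (.G 244 82 3 4 7 4 [.n, .n, .n, .g
  1 2 0 0]) (.T 4 1 (.G 24 129 1 360838 90210 180419 [.g 128 0 21 0, .n,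
  .n]) (.L 61)))) (.C 0 1 1 8 (.T 4 1 (.T 8 1 (.C 1 2 1 1 (.C 0 2 4 1 (.T 16
  1 (.L 150) (.G 67 157 1 604710 1209421 4837682 [.g 29 32 0 0, .g 128 0 1
  0, .n, .n, .g 6 273 4 0, .g 22 1039 15 0])) (.C 0 1 1 4 (.B 2 4 1 (.C 0 2
  1 2 (.G 477 142 3 39603 79207 79207 [.g 4096 31 0 0, .g 64 1 17 0, .n, .n,
  .g 6 1 243 0, .g 6 1 276 0]) (.L 40)) (.G 74 176 3 4514 9028 2257 [.n, .g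
  13 3 250 0, .g 47 10 1016 0, .n])) (.L 40))) (.G 296 322 2 10169 40676
  20338 [.n, .n, .n, .n, .g 45 22 64 0, .g 64 31 27 0])) (.L 24)) (.L 61))
  (.L 39))) (.G 213 99 0 1 1 1 [.n, .n, .n, .g 18 65 131833 0, .g 64 31 0
  0])) (.L 6)) (.C 0 1 1 4 (.G 4 234 3 31 61 61 [.n, .n, .g 64 27 0 0, .g 32
  9 0 0]) (.C 1 2 8 1 (.C 0 1 1 8 (.L 20) (.T 1 2 (.L 26) (.L 12))) (.L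
  3)))) (.C 0 2 1 4 (.T 1 1 (.T 2 1 (.T 4 1 (.G 60 84 3 1 1 1 [.n, .g 2 5
  4252 0, .n]) (.L 30)) (.C 0 2 2 1 (.L 6) (.L 35))) (.C 0 1 1 8 (.L 3) (.C
  1 2 16 1 (.T 1 2 (.L 7) (.L 12)) (.L 3)))) (.C 0 2 1 8 (.T 1 1 (.L 18) (.C
  0 1 1 16 (.L 3) (.T 1 2 (.L 11) (.L 12)))) (.L 28)))))) (.B 0 2 1 (.C 0 2
  8 1 (.T 1 1 (.T 2 1 (.T 4 1 (.T 8 1 (.C 1 2 4 1 (.C 0 1 4 1 (.C 1 2 4 1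
  (.L 5) (.C 0 2 32 1 (.L 5) (.G 47 1 1 292180 292180 146090 [.g 64 13 11 0,
  .g 64 5 3 0, .n, .n]))) (.C 0 2 4 1 (.L 5) (.C 0 1 1 16 (.C 1 2 1 4 (.L 1)
  (.C 0 2 1 2 (.L 1) (.T 16 1 (.L 59) (.T 1 2 (.G 349 124 2 119 238 30 [.g
  64 7 0 0, .g 5 2 3763 0, .g 29 1 4129 0, .g 2 0 325 0]) (.L 413))))) (.C 1
  2 8 1 (.L 29) (.C 0 2 1 4 (.G 118 29 1 94428 47214 188855 [.g 32 13 0 0,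
  .n, .n, .g 32 6 7 0, .g 32 9 0 0]) (.T 16 1 (.L 37) (.G 67 118 2 1747557
  436889 218445 [.g 29 65 0 0, .g 32 0 1 0, .g 3 67 0 0, .g 3 70 0 0, .n,
  .n]))))))) (.C 1 2 1 2 (.C 1 2 2 1 (.C 1 2 4 1 (.T 16 1 (.O 4) (.L 342))
  (.O 4)) (.O 4)) (.O 4))) (.L 15)) (.L 21)) (.L 6)) (.C 0 1 4 1 (.T 1 2 (.T
  2 1 (.L 7) (.T 1 2 (.C 1 2 2 1 (.L 33) (.L 16)) (.L 16))) (.T 1 4 (.C 1 2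
  2 1 (.L 2) (.C 1 2 1 2 (.L 2) (.L 9))) (.C 0 1 8 1 (.C 1 2 1 1 (.T 1 8 (.C
  1 2 2 1 (.L 2) (.T 2 1 (.L 2) (.L 50))) (.C 1 2 2 1 (.C 1 2 4 1 (.T 1 16
  (.L 42) (.C 1 2 8 1 (.L 80) (.L 96))) (.T 1 16 (.L 38) (.O 4))) (.O 4)))
  (.O 4)) (.L 3)))) (.C 1 2 4 1 (.C 0 1 1 2 (.G 215 62 0 1 1 1 [.n, .n, .g 4
  1 0 0, .n]) (.C 1 2 8 1 (.C 0 1 1 4 (.L 8) (.T 1 2 (.L 4) (.L 12))) (.L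
  8))) (.C 1 2 1 2 (.L 3) (.T 1 2 (.G 7 3 3 7 54 14 [.n, .n, .g 2 0 4713 0,
  .g 1 1 2830 0]) (.L 3)))))) (.C 0 2 1 2 (.T 1 1 (.T 2 1 (.C 0 1 1 4 (.C 0
  1 2 1 (.L 127) (.C 1 2 1 1 (.C 1 2 2 1 (.C 0 1 1 2 (.G 82 86 3 1 1 1 [.n,
  .n, .n, .g 1 10 22684 0, .n]) (.T 4 1 (.G 632 450 0 121 30 121 [.g 32 1 0
  0, .n, .g 3 7 0 0, .g 6 2 999 0]) (.L 61))) (.L 181)) (.L 127))) (.T 4 1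
  (.T 8 1 (.C 1 2 8 1 (.C 0 1 1 8 (.C 1 2 1 1 (.C 0 1 2 1 (.T 16 1 (.O 4)
  (.T 1 2 (.C 0 2 4 1 (.G 437 316 0 1 1 1 [.g 4096 1 3006 0, .g 4096 1 0 0,
  .n, .n, .n, .n]) (.G 285 952 3 169542 84771 84771 [.g 64 43 0 0, .g 51 64
  0 0, .n, .n])) (.L 198))) (.G 294 39 3 593 297 593 [.g 64 46 7 0, .g 16 1
  0 0, .n, .g 5 1 122 0])) (.G 352 360 3 8737 34949 17475 [.n, .g 23 8 32 0,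
  .n, .n, .n, .g 64 17 12 0])) (.L 98)) (.C 0 2 1 1 (.C 0 2 2 1 (.C 0 2 4 1
  (.G 342 322 2 58638 117276 469105 [.g 16 0 3 0, .n, .n, .n]) (.O 4)) (.O
  4)) (.O 4))) (.L 15)) (.L 30))) (.L 6)) (.C 0 1 1 4 (.G 4 247 0 62 124 124
  [.n, .n, .g 4 1 4516 0, .g 10 3 8062 0]) (.C 1 2 8 1 (.C 0 1 1 8 (.L 20)
  (.T 1 2 (.L 26) (.L 12))) (.L 3)))) (.C 0 2 1 4 (.T 1 1 (.T 2 1 (.G 196 60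
  1 1 1 1 [.n, .n, .n, .g 124 5 8171 0]) (.C 0 2 2 1 (.L 6) (.L 49))) (.C 0
  1 1 8 (.L 3) (.C 1 2 16 1 (.T 1 2 (.L 7) (.L 12)) (.L 3)))) (.C 0 2 1 8
  (.T 1 1 (.L 18) (.C 0 1 1 16 (.L 3) (.T 1 2 (.L 52) (.L 12)))) (.L 28)))))
  (.C 0 2 8 1 (.T 1 1 (.T 2 1 (.T 4 1 (.T 8 1 (.C 1 2 4 1 (.C 0 1 4 1 (.C 1
  2 4 1 (.L 5) (.C 0 2 32 1 (.L 5) (.G 1 68 3 292180 292180 146090 [.n, .g 6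
  61 5 0, .n, .n]))) (.C 0 2 4 1 (.L 5) (.C 0 1 1 16 (.C 1 2 1 4 (.L 1) (.C
  0 2 1 2 (.L 1) (.T 16 1 (.L 59) (.T 1 2 (.C 0 2 1 4 (.G 36 1 1 52 105 105
  [.n, .n, .g 4 2 4171 0, .n]) (.G 36 255 0 249 249 31 [.n, .n, .g 1 0 866
  0, .n])) (.L 156))))) (.C 1 2 8 1 (.L 84) (.C 0 2 1 4 (.G 118 29 1 94428
  47214 188855 [.g 32 13 0 0, .n, .n, .g 32 6 7 0, .g 32 9 0 0]) (.G 183 85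
  1 204 51 26 [.g 356 7 8201 0, .n, .g 1 1 1293 0, .g 16 5 0 0])))))) (.C 1
  2 1 2 (.L 25) (.O 4))) (.L 15)) (.L 21)) (.L 6)) (.C 0 1 4 1 (.T 1 2 (.T 2
  1 (.L 7) (.T 1 2 (.C 1 2 2 1 (.L 33) (.L 16)) (.L 16))) (.T 1 4 (.C 1 2 2
  1 (.L 2) (.C 1 2 1 2 (.L 2) (.L 9))) (.C 0 1 8 1 (.C 1 2 1 1 (.C 1 2 2 1
  (.T 1 8 (.L 2) (.C 1 2 4 1 (.T 1 16 (.L 42) (.C 1 2 8 1 (.L 76) (.L 96)))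
  (.T 1 16 (.L 38) (.O 4)))) (.T 1 8 (.C 1 2 1 2 (.L 17) (.L 9)) (.O 4)))
  (.O 4)) (.L 3)))) (.C 1 2 4 1 (.C 0 1 1 2 (.G 492 62 0 1 1 1 [.n, .n, .g
  64 15 0 0, .n]) (.C 1 2 8 1 (.C 0 1 1 4 (.L 8) (.T 1 2 (.L 4) (.L 12)))
  (.L 8))) (.C 1 2 1 2 (.L 3) (.T 1 2 (.G 7 62 1 8 60 15 [.n, .n, .g 1 0
  2149 0, .g 1 1 2767 0]) (.L 3)))))) (.C 0 2 1 2 (.T 1 1 (.T 2 1 (.C 0 1 1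
  4 (.G 210 86 3 1 1 1 [.g 1 0 2997 0, .n, .n, .g 2 0 5447 0]) (.T 4 1 (.T 8
  1 (.C 1 2 8 1 (.C 0 1 1 8 (.C 1 2 1 1 (.C 0 1 2 1 (.T 16 1 (.O 4) (.G 416
  248 0 4 17 17 [.g 64 9 0 0, .n, .g 32 11 0 0, .g 227 11 32808 0])) (.G 178
  182 3 2 1 2 [.g 16 65 0 0, .n, .n, .n])) (.G 244 360 3 11702 46807 23404
  [.n, .n, .g 128 13 0 0, .g 8 5 0 0])) (.L 98)) (.C 0 2 1 1 (.L 25) (.O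
  4))) (.L 15)) (.L 30))) (.L 6)) (.C 0 1 1 4 (.G 4 222 0 29 57 57 [.n, .n,
  .g 2 1 4094 0, .g 3 1 4319 0]) (.C 1 2 8 1 (.C 0 1 1 8 (.L 20) (.T 1 2 (.L
  26) (.L 12))) (.L 3)))) (.C 0 2 1 4 (.T 1 1 (.T 2 1 (.T 4 1 (.G 60 196 3 1
  1 1 [.n, .g 2 81 4251 0, .n]) (.L 30)) (.C 0 2 2 1 (.L 6) (.L 35))) (.C 0
  1 1 8 (.L 3) (.C 1 2 16 1 (.T 1 2 (.L 7) (.L 12)) (.L 3)))) (.C 0 2 1 8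
  (.T 1 1 (.L 18) (.C 0 1 1 16 (.L 3) (.T 1 2 (.L 52) (.L 12)))) (.L
  28))))))) (by decide +kernel)

theorem CS2_c2 : CoF CSTab ⟨⟨360, 360, 20000⟩, ⟨2774, 2656, 80000⟩, ⟨1995,
  1995, 40000⟩, ⟨0, 1⟩, ⟨2, 1⟩, ⟨1, 0, 0⟩, ⟨0, 1, 0⟩, ⟨0, 1, 1⟩⟩ :=
CoF.ofG CSTab_B CSBt_E CSBt_U (.B 2 1 2 (.B 1 1 2 (.C 0 2 8 1 (.C 0 1 4 1
  (.B 2 1 2 (.T 1 1 (.T 2 1 (.C 1 2 2 1 (.T 4 1 (.T 8 1 (.C 1 2 4 1 (.L 5)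
  (.L 19)) (.L 22)) (.L 92)) (.C 0 1 32 1 (.C 0 1 64 1 (.C 0 1 128 1 (.C 0 1
  256 1 (.C 0 2 16 1 (.C 0 1 512 1 (.C 1 2 1 32 (.C 1 2 2 1 (.C 0 2 4096 1
  (.C 1 2 8 1 (.L 19) (.L 696)) (.G 34 125 3 8388607 1048576 4194304 [.n, .g
  64 4 9 0, .n, .n])) (.O 4)) (.O 4)) (.G 101 34 1 8388607 4194304 262144
  [.g 32 1 0 0, .n, .g 2 83 0 0, .g 1 44 0 0, .n, .n, .n, .n])) (.C 1 2 1 32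
  (.G 45 388 0 262144 4194304 8388607 [.n, .n, .g 15 0 64 0, .g 14 0 65 0,
  .n, .n, .g 10 0 61 0, .g 5 0 33 0]) (.O 4))) (.G 113 34 1 8388607 4194304
  262144 [.g 64 1 0 0, .n, .g 2 83 0 0, .g 1 44 0 0, .n, .n])) (.G 101 149 1
  8388607 4194304 524288 [.g 64 1 0 0, .n, .g 2 83 0 0, .g 1 44 0 0, .n, .n,
  .n, .n])) (.G 113 83 1 8388607 4194304 1048576 [.n, .n, .g 2 83 0 0, .g 1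
  44 0 0, .n, .n])) (.G 113 34 1 6682316 3341158 1670579 [.n, .n, .g 2 83 0
  0, .g 1 44 0 0, .n, .n]))) (.L 6)) (.T 1 2 (.T 2 1 (.L 4) (.C 1 2 2 1 (.L
  4) (.L 16))) (.T 1 4 (.C 1 2 2 1 (.L 2) (.C 1 2 1 2 (.L 2) (.L 9))) (.C 0
  1 8 1 (.C 1 2 1 1 (.T 1 8 (.C 1 2 2 1 (.L 2) (.T 2 1 (.L 2) (.L 50))) (.C
  1 2 2 1 (.T 1 16 (.L 38) (.C 1 2 4 1 (.C 1 2 8 1 (.L 80) (.L 96)) (.O 4)))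
  (.O 4))) (.O 4)) (.L 3))))) (.B 1 4 1 (.B 1 8 1 (.L 493) (.B 2 1 8 (.B 1 1
  2 (.L 452) (.T 1 1 (.T 2 1 (.C 1 2 2 1 (.T 4 1 (.T 8 1 (.C 1 2 4 1 (.L 5)
  (.L 19)) (.L 22)) (.L 92)) (.C 0 1 32 1 (.C 0 1 64 1 (.C 0 1 128 1 (.C 0 2
  16 1 (.C 0 1 256 1 (.C 1 2 1 16 (.C 0 2 1024 1 (.C 0 2 2048 1 (.C 0 1 512
  1 (.C 0 1 1024 1 (.C 1 2 2 1 (.C 0 2 8192 1 (.T 4 1 (.L 19) (.L 92)) (.G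
  824 34 1 8388607 1048576 4194304 [.g 5 54 66 0, .g 8 25 32 0, .n, .n,
  .n])) (.O 4)) (.G 101 300 1 4194304 2097152 8388607 [.n, .n, .g 1 272 7 0,
  .g 1 286 8 0, .n, .n, .n, .n])) (.G 41 300 1 2097152 1048576 8388607 [.n,
  .n, .g 1 200 98 0, .g 1 210 103 0, .n, .n])) (.G 101 34 1 8388607 1048576
  4194304 [.n, .n, .g 1 274 11 0, .g 1 288 11 0, .n, .n, .n, .n])) (.G 125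
  34 1 8388607 2097152 4194304 [.n, .n, .n, .g 10 62 9 0])) (.O 4)) (.G 101
  34 1 8388607 4194304 524288 [.n, .n, .g 1 41 0 0, .g 1 44 0 0, .n, .n, .n,
  .n])) (.G 34 125 3 129517 1036133 64758 [.n, .g 64 11 5 0, .n, .n])) (.G
  41 65 1 8388607 4194304 524288 [.n, .n, .g 1 86 3 0, .g 1 90 3 0, .n,
  .n])) (.G 41 34 1 8388607 4194304 1048576 [.n, .n, .g 1 87 1 0, .g 1 92 1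
  0, .n, .n])) (.G 41 292 1 8388607 4194304 2097152 [.n, .n, .g 1 91 1 0, .g
  1 95 1 0, .n, .n]))) (.L 6)) (.T 1 2 (.T 2 1 (.L 4) (.C 1 2 2 1 (.L 4) (.L
  16))) (.T 1 4 (.C 1 2 2 1 (.L 2) (.C 1 2 1 2 (.L 2) (.L 9))) (.C 0 1 8 1
  (.C 1 2 1 1 (.T 1 8 (.C 1 2 2 1 (.L 2) (.T 2 1 (.L 2) (.L 50))) (.C 1 2 2
  1 (.T 1 16 (.L 38) (.C 1 2 4 1 (.C 1 2 8 1 (.L 80) (.L 96)) (.O 4))) (.O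
  4))) (.O 4)) (.L 3)))))) (.L 493))) (.T 1 1 (.T 2 1 (.C 1 2 2 1 (.T 4 1
  (.T 8 1 (.C 1 2 4 1 (.L 5) (.L 19)) (.L 22)) (.L 92)) (.C 0 1 32 1 (.C 0 1
  64 1 (.C 0 1 128 1 (.C 0 1 256 1 (.C 1 2 1 32 (.C 0 2 1024 1 (.C 0 2 2048
  1 (.C 0 1 512 1 (.C 0 2 4096 1 (.C 0 2 8192 1 (.C 0 2 16384 1 (.C 1 2 32 1
  (.L 19) (.L 73)) (.G 73 34 1 8388607 262144 4194304 [.n, .n, .g 1 225 0 0,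
  .g 1 234 0 0, .n, .n])) (.G 73 65 1 8388607 524288 4194304 [.n, .n, .g 1
  225 0 0, .g 1 234 0 0, .n, .n])) (.G 125 34 1 8388607 1048576 4194304 [.n,
  .n, .n, .g 12 63 40 0])) (.G 113 324 1 2097152 1048576 8388607 [.n, .n, .g
  1 228 0 0, .g 1 240 0 0, .n, .n])) (.G 125 65 1 8388607 1048576 4194304
  [.n, .n, .n, .g 12 63 19 0])) (.G 125 34 1 8388607 2097152 4194304 [.n,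
  .n, .n, .g 4 21 3 0])) (.O 4)) (.G 113 304 1 8388607 4194304 262144 [.n,
  .n, .g 2 83 0 0, .g 1 44 0 0, .n, .n])) (.G 41 83 1 8388607 4194304 524288
  [.n, .n, .g 1 86 3 0, .g 1 90 3 0, .n, .n])) (.G 101 19 1 8388607 4194304
  1048576 [.n, .n, .g 1 41 0 0, .g 1 43 0 0, .n, .n, .n, .n])) (.G 113 393 1
  6675687 3337843 1668922 [.n, .n, .g 2 83 0 0, .g 1 44 0 0, .n, .n]))) (.L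
  6)) (.C 0 1 8 1 (.T 1 2 (.T 2 1 (.L 4) (.T 1 2 (.C 1 2 1 1 (.L 4) (.L 2))
  (.L 16))) (.T 1 4 (.C 1 2 1 1 (.L 2) (.L 9)) (.C 1 2 1 1 (.T 1 8 (.C 1 2 2
  1 (.L 2) (.T 2 1 (.L 2) (.L 50))) (.C 1 2 2 1 (.T 1 16 (.L 38) (.C 1 2 4 1
  (.C 1 2 8 1 (.L 80) (.L 96)) (.O 4))) (.O 4))) (.O 4)))) (.T 1 2 (.G 63 4
  3 7 4 7 [.g 64 37 0 0, .g 16 3 0 0, .n, .n]) (.L 27)))))) (.T 1 1 (.T 2 1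
  (.T 4 1 (.T 8 1 (.C 0 2 2 1 (.C 0 2 4 1 (.L 5) (.C 1 2 8 1 (.L 5) (.G 208
  126 0 47925 47925 23963 [.g 8 0 3 0, .n, .n, .n]))) (.C 1 2 4 1 (.T 16 1
  (.L 238) (.L 22)) (.C 1 2 1 2 (.L 19) (.O 4)))) (.L 22)) (.L 30)) (.L 6))
  (.C 1 2 4 1 (.C 0 1 1 2 (.L 27) (.C 1 2 8 1 (.C 0 1 1 4 (.L 8) (.T 1 2 (.L
  4) (.L 12))) (.L 8))) (.L 114)))) (.C 0 2 1 2 (.T 1 1 (.T 2 1 (.C 1 2 8 1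
  (.T 4 1 (.C 0 1 1 4 (.G 126 110 0 1190 2379 4758 [.g 16 0 5 0, .n, .n,
  .n]) (.G 22 31 3 412 52 825 [.g 7 4 68 0, .n, .n, .n])) (.L 30)) (.G 148
  302 1 1 1 1 [.g 50 63 0 0, .n, .n, .n, .n])) (.L 6)) (.C 0 1 1 4 (.L 20)
  (.C 1 2 8 1 (.C 0 1 1 8 (.L 20) (.T 1 2 (.L 26) (.L 12))) (.L 3)))) (.C 0
  2 1 4 (.T 1 1 (.G 114 11 3 1 1 1 [.g 1 65 0 0, .g 2 79 0 0, .g 1 12 0 0,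
  .g 1 0 77 0, .n]) (.C 0 1 1 8 (.L 3) (.C 1 2 16 1 (.T 1 2 (.L 7) (.L 12))
  (.L 3)))) (.C 0 2 1 8 (.T 1 1 (.L 18) (.T 1 2 (.L 18) (.L 12))) (.L
  28))))) (.C 0 2 8 1 (.T 1 1 (.T 2 1 (.T 4 1 (.T 8 1 (.C 1 2 4 1 (.C 0 1 4
  1 (.C 1 2 4 1 (.L 5) (.C 0 2 32 1 (.L 5) (.G 110 200 0 21201 21201 10601
  [.g 32 26 13 0, .n, .n, .n]))) (.C 0 2 4 1 (.L 5) (.C 1 2 8 1 (.G 199 1 1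
  3950 247 3950 [.n, .n, .n, .g 18 65 0 0]) (.T 16 1 (.C 0 2 1 2 (.C 0 1 1 1
  (.L 5) (.L 37)) (.L 37)) (.L 53))))) (.C 1 2 1 2 (.L 46) (.O 4))) (.L 15))
  (.B 2 2 1 (.C 0 2 16 1 (.L 21) (.L 41)) (.L 41))) (.L 6)) (.C 0 1 4 1 (.C
  0 1 8 1 (.T 1 2 (.T 2 1 (.L 4) (.T 1 2 (.C 1 2 1 1 (.L 4) (.L 2)) (.L
  16))) (.T 1 4 (.C 1 2 1 1 (.L 2) (.L 9)) (.C 1 2 1 1 (.T 1 8 (.C 1 2 2 1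
  (.L 2) (.T 2 1 (.L 2) (.L 50))) (.C 1 2 2 1 (.C 1 2 4 1 (.T 1 16 (.L 42)
  (.C 1 2 8 1 (.L 80) (.L 96))) (.T 1 16 (.L 38) (.O 4))) (.O 4))) (.O 4))))
  (.T 1 2 (.G 78 33 1 15 7 15 [.g 64 17 0 0, .n, .g 64 49 0 0, .g 64 17 0
  0]) (.L 63))) (.C 1 2 4 1 (.C 0 1 1 2 (.L 27) (.C 1 2 8 1 (.C 0 1 1 4 (.L
  8) (.T 1 2 (.L 4) (.L 12))) (.L 8))) (.C 1 2 1 2 (.L 3) (.T 1 2 (.G 4 27 2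
  8 66 17 [.n, .n, .g 1 0 1103 0, .g 4 1 4472 0]) (.L 3)))))) (.C 0 2 1 2
  (.T 1 1 (.T 2 1 (.C 1 2 8 1 (.T 4 1 (.C 0 1 1 4 (.G 224 274 0 6967 13934
  27869 [.g 4 0 1 0, .n, .n, .n]) (.C 0 1 1 8 (.C 0 1 2 1 (.G 162 53 0 14968
  59870 29935 [.g 16 0 3 0, .n, .n, .n]) (.L 31)) (.L 11))) (.L 30)) (.G 82
  245 2 1 1 1 [.n, .n, .n, .g 1 4 7483 0, .n])) (.L 6)) (.C 0 1 1 4 (.G 4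
  247 0 63 126 126 [.n, .n, .g 4 1 4327 0, .g 5 1 3909 0]) (.C 1 2 8 1 (.C 0
  1 1 8 (.L 20) (.T 1 2 (.L 26) (.L 12))) (.L 3)))) (.C 0 2 1 4 (.T 1 1 (.T
  2 1 (.G 94 31 3 1 1 1 [.n, .n, .g 1 13 400 0, .n]) (.C 0 2 2 1 (.L 6) (.L
  49))) (.C 0 1 1 8 (.L 3) (.C 1 2 16 1 (.T 1 2 (.L 7) (.L 12)) (.L 3))))
  (.C 0 2 1 8 (.T 1 1 (.L 18) (.C 0 1 1 16 (.L 3) (.T 1 2 (.L 52) (.L 12))))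
  (.L 28)))))) (.B 0 4 1 (.L 260) (.L 260))) (by decide +kernel)

theorem CS2_c3 : CoF CSTab ⟨⟨2774, 2656, 80000⟩, ⟨2054, 1936, 40000⟩, ⟨1995,
  1995, 40000⟩, ⟨0, 1⟩, ⟨2, 1⟩, ⟨1, 0, 0⟩, ⟨0, 1, 0⟩, ⟨0, 1, 1⟩⟩ :=
CoF.ofG CSTab_B CSBt_E CSBt_U (.B 2 2 1 (.B 0 1 4 (.C 0 2 8 1 (.T 1 1 (.T 2
  1 (.T 4 1 (.T 8 1 (.C 1 2 4 1 (.C 0 1 4 1 (.C 1 2 4 1 (.L 5) (.C 0 2 32 1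
  (.L 5) (.G 79 208 0 70526 70526 35263 [.g 64 9 11 0, .n, .n, .n]))) (.C 0
  2 4 1 (.L 5) (.C 1 2 8 1 (.G 196 1 1 2620 164 2620 [.n, .n, .n, .g 11 32 0
  0]) (.T 16 1 (.C 0 2 1 2 (.C 0 1 1 1 (.L 5) (.L 37)) (.L 37)) (.L 53)))))
  (.C 1 2 1 2 (.L 46) (.O 4))) (.L 15)) (.C 0 2 16 1 (.L 21) (.L 41))) (.L
  6)) (.C 0 1 4 1 (.C 0 1 8 1 (.T 1 2 (.T 2 1 (.L 4) (.T 1 2 (.C 1 2 1 1 (.L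
  4) (.L 2)) (.L 16))) (.T 1 4 (.C 1 2 1 1 (.L 2) (.L 9)) (.C 1 2 1 1 (.T 1
  8 (.C 1 2 2 1 (.L 2) (.T 2 1 (.L 2) (.L 50))) (.C 1 2 2 1 (.C 1 2 4 1 (.T
  1 16 (.L 42) (.C 1 2 8 1 (.L 76) (.L 96))) (.T 1 16 (.L 38) (.O 4))) (.O
  4))) (.O 4)))) (.T 1 2 (.G 78 33 1 15 7 15 [.g 64 17 0 0, .n, .g 64 49 0
  0, .g 64 17 0 0]) (.L 63))) (.C 1 2 4 1 (.C 0 1 1 2 (.L 27) (.C 1 2 8 1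
  (.C 0 1 1 4 (.L 8) (.T 1 2 (.L 4) (.L 12))) (.L 8))) (.C 1 2 1 2 (.L 3)
  (.T 1 2 (.G 4 27 2 8 67 17 [.n, .n, .g 1 0 1082 0, .g 4 1 4475 0]) (.L
  3)))))) (.C 0 2 1 2 (.T 1 1 (.T 2 1 (.C 1 2 8 1 (.T 4 1 (.C 0 1 1 4 (.G
  568 79 0 3229 6457 12915 [.g 64 17 11 0, .n, .n, .n]) (.C 0 1 1 8 (.G 196
  126 0 89 178 178 [.n, .n, .n, .g 4 37 268 0]) (.L 11))) (.L 30)) (.G 44 60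
  1 1 1 1 [.n, .g 2 0 4747 0, .n, .n])) (.L 6)) (.C 0 1 1 4 (.G 4 984 2 173
  347 347 [.n, .n, .g 7 3 956 0, .g 7 1 1098 0]) (.C 1 2 8 1 (.C 0 1 1 8 (.L
  20) (.T 1 2 (.L 26) (.L 12))) (.L 3)))) (.C 0 2 1 4 (.T 1 1 (.T 2 1 (.G 94
  357 3 1 1 1 [.n, .n, .g 1 1 435 0, .n]) (.C 0 2 2 1 (.L 6) (.L 49))) (.C 0
  1 1 8 (.L 3) (.C 1 2 16 1 (.T 1 2 (.L 7) (.L 12)) (.L 3)))) (.C 0 2 1 8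
  (.T 1 1 (.L 18) (.C 0 1 1 16 (.L 3) (.T 1 2 (.L 52) (.L 12)))) (.L 28)))))
  (.C 0 2 8 1 (.T 1 1 (.T 2 1 (.T 4 1 (.T 8 1 (.C 1 2 4 1 (.C 0 1 4 1 (.C 1
  2 4 1 (.L 5) (.C 0 2 32 1 (.L 5) (.G 1 110 0 311774 311774 155887 [.n, .g
  2 206 1 0, .n, .n]))) (.C 0 2 4 1 (.L 5) (.C 1 2 8 1 (.G 111 1 1 3604 225
  3604 [.n, .n, .n, .g 21 65 0 0]) (.T 16 1 (.C 0 2 1 2 (.G 162 150 0 129649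
  129649 259298 [.g 64 11 6 0, .n, .n, .n]) (.L 37)) (.L 53))))) (.C 1 2 1 2
  (.L 46) (.O 4))) (.L 15)) (.L 21)) (.L 6)) (.C 0 1 4 1 (.T 1 2 (.T 2 1 (.L
  4) (.C 1 2 2 1 (.L 4) (.L 16))) (.T 1 4 (.C 1 2 2 1 (.L 2) (.C 1 2 1 2 (.L
  2) (.L 9))) (.C 0 1 8 1 (.C 1 2 1 1 (.C 1 2 2 1 (.T 1 8 (.L 2) (.C 1 2 4 1
  (.T 1 16 (.L 42) (.C 1 2 8 1 (.L 76) (.L 96))) (.T 1 16 (.L 38) (.O 4))))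
  (.T 1 8 (.T 2 1 (.L 2) (.L 50)) (.O 4))) (.O 4)) (.L 3)))) (.C 1 2 4 1 (.C
  0 1 1 2 (.L 27) (.C 1 2 8 1 (.C 0 1 1 4 (.L 8) (.T 1 2 (.L 4) (.L 12)))
  (.L 8))) (.C 1 2 1 2 (.L 3) (.T 1 2 (.G 4 114 3 42 337 84 [.n, .n, .g 1 0
  215 0, .g 6 1 1052 0]) (.L 3)))))) (.C 0 2 1 2 (.T 1 1 (.T 2 1 (.C 1 2 8 1
  (.T 4 1 (.C 0 1 1 4 (.G 226 79 0 4782 9565 19129 [.g 16 0 5 0, .n, .n,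
  .n]) (.C 0 1 1 8 (.G 111 200 0 290 581 581 [.n, .n, .n, .g 5 46 269 0])
  (.L 11))) (.L 104)) (.G 60 104 2 1 1 1 [.n, .g 2 3 6606 0, .n])) (.L 6))
  (.C 0 1 1 4 (.G 4 3 3 40 79 79 [.n, .n, .g 3 1 4424 0, .g 4 1 4210 0]) (.C
  1 2 8 1 (.C 0 1 1 8 (.L 20) (.T 1 2 (.L 26) (.L 12))) (.L 3)))) (.C 0 2 1
  4 (.T 1 1 (.T 2 1 (.G 94 60 1 1 1 1 [.n, .n, .g 1 0 379 0, .n]) (.C 0 2 2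
  1 (.L 6) (.L 49))) (.C 0 1 1 8 (.L 3) (.C 1 2 16 1 (.T 1 2 (.L 7) (.L 12))
  (.L 3)))) (.C 0 2 1 8 (.T 1 1 (.L 18) (.C 0 1 1 16 (.L 3) (.T 1 2 (.L 52)
  (.L 12)))) (.L 28)))))) (.B 0 1 2 (.C 0 2 8 1 (.T 1 1 (.T 2 1 (.T 4 1 (.T
  8 1 (.C 1 2 4 1 (.C 0 1 4 1 (.C 1 2 4 1 (.L 5) (.C 1 2 1 2 (.L 5) (.L
  19))) (.C 0 2 4 1 (.L 5) (.C 1 2 8 1 (.G 31 1 1 3139 196 3139 [.n, .n, .n,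
  .g 25 63 0 0]) (.T 16 1 (.L 238) (.L 22))))) (.C 1 2 1 2 (.L 19) (.O 4)))
  (.L 22)) (.L 41)) (.L 6)) (.C 0 1 4 1 (.T 1 2 (.T 2 1 (.L 4) (.C 1 2 2 1
  (.L 4) (.L 16))) (.T 1 4 (.C 1 2 2 1 (.L 2) (.C 1 2 1 2 (.L 2) (.L 9)))
  (.C 0 1 8 1 (.C 1 2 1 1 (.T 1 8 (.C 1 2 2 1 (.L 2) (.T 2 1 (.L 2) (.L
  50))) (.C 1 2 2 1 (.T 1 16 (.L 38) (.C 1 2 4 1 (.C 1 2 8 1 (.L 76) (.L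
  96)) (.O 4))) (.O 4))) (.O 4)) (.L 3)))) (.C 1 2 4 1 (.C 0 1 1 2 (.L 27)
  (.C 1 2 8 1 (.C 0 1 1 4 (.L 8) (.T 1 2 (.L 4) (.L 12))) (.L 8))) (.L
  114)))) (.C 0 2 1 2 (.T 1 1 (.T 2 1 (.C 1 2 8 1 (.T 4 1 (.C 0 1 1 4 (.G 44
  93 0 3 6 11 [.n, .g 1 2 4556 0, .n, .n]) (.G 22 199 3 549 69 1098 [.g 9 4
  64 0, .n, .n, .n])) (.L 30)) (.G 148 245 2 1 1 1 [.g 1 4 7472 0, .n, .n,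
  .n, .n])) (.L 6)) (.C 0 1 1 4 (.L 20) (.C 1 2 8 1 (.C 0 1 1 8 (.L 20) (.T
  1 2 (.L 26) (.L 12))) (.L 3)))) (.C 0 2 1 4 (.T 1 1 (.G 114 11 3 1 1 1 [.g
  1 64 0 0, .g 2 77 0 0, .g 5 59 0 0, .g 1 0 77 0, .n]) (.C 0 1 1 8 (.L 3)
  (.C 1 2 16 1 (.T 1 2 (.L 7) (.L 12)) (.L 3)))) (.C 0 2 1 8 (.T 1 1 (.L 18)
  (.C 0 1 1 16 (.L 3) (.C 1 2 32 1 (.T 1 2 (.L 52) (.L 12)) (.L 3)))) (.L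
  28))))) (.C 0 2 8 1 (.T 1 1 (.T 2 1 (.T 4 1 (.T 8 1 (.C 1 2 4 1 (.C 0 1 4
  1 (.C 1 2 4 1 (.L 5) (.C 0 2 32 1 (.L 5) (.G 126 200 0 21201 21201 10601
  [.g 32 15 11 0, .n, .n, .n]))) (.C 0 2 4 1 (.L 5) (.C 1 2 8 1 (.G 196 1 1
  3139 196 3139 [.n, .n, .n, .g 17 63 0 0]) (.T 16 1 (.C 0 2 1 2 (.C 0 1 1 1
  (.L 5) (.L 37)) (.L 37)) (.L 53))))) (.C 1 2 1 2 (.L 46) (.O 4))) (.L 15))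
  (.C 0 2 16 1 (.L 21) (.L 41))) (.L 6)) (.C 0 1 4 1 (.T 1 2 (.T 2 1 (.L 4)
  (.C 1 2 2 1 (.L 4) (.L 16))) (.T 1 4 (.C 1 2 2 1 (.L 2) (.C 1 2 1 2 (.L 2)
  (.L 9))) (.C 0 1 8 1 (.C 1 2 1 1 (.T 1 8 (.C 1 2 2 1 (.L 2) (.T 2 1 (.L 2)
  (.L 50))) (.C 1 2 2 1 (.T 1 16 (.L 38) (.C 1 2 4 1 (.C 1 2 8 1 (.L 76) (.L
  96)) (.O 4))) (.O 4))) (.O 4)) (.L 3)))) (.C 1 2 4 1 (.C 0 1 1 2 (.L 27)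
  (.C 1 2 8 1 (.C 0 1 1 4 (.L 8) (.T 1 2 (.L 4) (.L 12))) (.L 8))) (.C 1 2 1
  2 (.L 3) (.T 1 2 (.G 7 203 3 7 60 15 [.n, .n, .g 1 0 2152 0, .g 6 3 16525
  0]) (.L 3)))))) (.C 0 2 1 2 (.T 1 1 (.T 2 1 (.C 1 2 8 1 (.T 4 1 (.C 0 1 1
  4 (.G 97 236 0 2646 5292 10584 [.g 7 62 4 0, .n, .n, .n]) (.C 0 1 1 8 (.C
  0 1 2 1 (.G 97 200 0 5041 20165 10083 [.g 33 64 37 0, .n, .n, .n]) (.L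
  31)) (.L 11))) (.L 104)) (.G 245 44 1 1 1 1 [.n, .n, .g 2 1 4950 0, .n]))
  (.L 6)) (.C 0 1 1 4 (.G 4 280 1 50 101 101 [.n, .n, .g 32 13 0 0, .g 32 9
  0 0]) (.C 1 2 8 1 (.C 0 1 1 8 (.L 20) (.T 1 2 (.L 26) (.L 12))) (.L 3))))
  (.C 0 2 1 4 (.T 1 1 (.T 2 1 (.G 94 231 3 1 1 1 [.n, .n, .g 1 20 399 0,
  .n]) (.C 0 2 2 1 (.L 6) (.L 49))) (.C 0 1 1 8 (.L 3) (.C 1 2 16 1 (.T 1 2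
  (.L 7) (.L 12)) (.L 3)))) (.C 0 2 1 8 (.T 1 1 (.L 18) (.C 0 1 1 16 (.L 3)
  (.T 1 2 (.L 52) (.L 12)))) (.L 28))))))) (by decide +kernel)

theorem CS2_c4 : CoF CSTab ⟨⟨5324, 5206, 80000⟩, ⟨12100, 11510, 160000⟩,
  ⟨1635, 1635, 20000⟩, ⟨0, 1⟩, ⟨2, 1⟩, ⟨1, 0, 0⟩, ⟨0, 1, 0⟩, ⟨0, 1, 1⟩⟩ :=
CoF.ofG CSTab_B CSBt_E CSBt_U (.B 2 4 1 (.B 1 1 8 (.C 0 2 8 1 (.T 1 1 (.T 2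
  1 (.T 4 1 (.T 8 1 (.C 1 2 4 1 (.C 0 1 4 1 (.C 1 2 4 1 (.L 5) (.C 0 2 32 1
  (.L 5) (.G 74 1 1 249570 249570 124785 [.n, .g 64 11 11 0, .g 64 13 13 0,
  .n]))) (.C 0 2 4 1 (.L 5) (.C 1 2 8 1 (.C 0 1 1 16 (.G 1 29 1 65780 131560
  65780 [.n, .g 13 32 0 0, .n, .n]) (.L 152)) (.C 0 2 1 2 (.C 0 1 1 1 (.L 5)
  (.C 1 2 2 1 (.T 16 1 (.G 32 29 1 6 3 11 [.n, .g 204 3 8176 0, .n, .n, .n,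
  .g 1 1 517 0]) (.C 0 1 1 2 (.G 123 1 1 35 70 70 [.g 32 11 0 0, .g 2 5 0 0,
  .n, .n, .n, .n]) (.G 29 55 0 431616 107904 431616 [.n, .g 1 29 0 0, .n,
  .n]))) (.C 0 2 1 1 (.G 54 1 1 2 3 3 [.n, .n, .n, .g 32 17 0 0, .g 2 1
  85480 0, .g 1 0 42659 0]) (.T 16 1 (.G 1 32 0 4183 4183 2092 [.n, .g 3 1
  278 0, .n, .n]) (.G 54 1 1 2 2 1 [.g 32 1 0 0, .n, .g 7 8 0 0, .g 8 13 0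
  0, .n, .n]))))) (.T 16 1 (.C 0 1 1 2 (.C 1 2 1 8 (.T 32 1 (.O 4) (.G 444
  728 3 1 1 1 [.g 1 0 3174 0, .g 1 0 397 0, .n, .g 1 0 166530 0, .n, .n]))
  (.O 4)) (.G 212 406 1 110292 27573 13787 [.n, .n, .n, .n, .g 64 0 5 0]))
  (.C 0 1 1 2 (.C 0 1 2 1 (.T 1 2 (.C 1 2 1 16 (.C 0 2 8 1 (.G 5 252 1
  139480 557919 2231676 [.n, .g 128 255 34 0, .n, .n]) (.G 184 856 0 1 1 1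
  [.n, .g 2 9 0 0, .n, .n, .n, .n, .n, .n])) (.G 278 235 3 241096 1928766
  60274 [.g 64 0 23 0, .n, .n, .n])) (.L 121)) (.L 54)) (.C 1 2 1 2 (.G 202
  422 1 854892 213723 427446 [.n, .n, .g 64 7 0 0, .n, .n]) (.G 75 89 0 1 1
  1 [.n, .g 27 64 0 0, .g 9 2 4254 0])))))))) (.C 1 2 1 2 (.L 25) (.O 4)))
  (.L 24)) (.L 45)) (.L 6)) (.C 0 1 4 1 (.T 1 2 (.T 2 1 (.L 7) (.T 1 2 (.C 1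
  2 2 1 (.L 33) (.L 16)) (.L 48))) (.T 1 4 (.C 1 2 2 1 (.L 2) (.C 1 2 1 2
  (.L 2) (.L 9))) (.C 0 1 8 1 (.C 1 2 1 1 (.C 1 2 2 1 (.T 1 8 (.L 2) (.C 1 2
  4 1 (.T 1 16 (.L 42) (.C 1 2 8 1 (.L 76) (.L 96))) (.T 1 16 (.L 38) (.O
  4)))) (.T 1 8 (.C 1 2 1 2 (.L 17) (.L 9)) (.O 4))) (.O 4)) (.L 78)))) (.C
  1 2 4 1 (.C 0 1 1 2 (.T 1 2 (.L 4) (.L 3)) (.C 1 2 8 1 (.C 0 1 1 4 (.L 8)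
  (.T 1 2 (.L 4) (.L 12))) (.L 8))) (.T 1 2 (.G 7 57 2 6 22 11 [.n, .n, .g
  64 29 0 0, .g 59 63 0 0]) (.L 3))))) (.C 0 2 1 2 (.T 1 1 (.T 2 1 (.C 1 2 8
  1 (.T 4 1 (.T 8 1 (.C 0 1 1 4 (.G 333 166 1 1 1 1 [.n, .g 2 87 221423 0,
  .n, .n]) (.C 0 1 1 8 (.C 1 2 1 1 (.C 0 2 4 1 (.G 107 254 4 5 10 42 [.g 30
  1 8076 0, .n, .g 15 1 16617 0, .g 4096 183 0 0]) (.G 316 142 3 1 1 1 [.g 1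
  6 1716 0, .g 5 71 0 0, .g 6 61 0 0, .n])) (.G 188 600 2 13199 52795 26397
  [.n, .g 64 33 0 0, .g 64 39 0 0, .n])) (.L 172))) (.L 24)) (.G 432 104 1 1
  1 1 [.g 1 1 2872 0, .n, .n, .n, .n])) (.G 920 66 3 1 1 1 [.n, .n, .g 8192
  1 0 0, .n, .n, .g 32 0 23 0])) (.L 6)) (.C 0 1 1 4 (.G 4 10 3 60 120 120
  [.n, .n, .g 64 23 0 0, .g 4 1 0 0]) (.C 1 2 8 1 (.C 0 1 1 8 (.L 20) (.C 1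
  2 16 1 (.T 1 2 (.L 26) (.L 12)) (.L 20))) (.L 3)))) (.C 0 2 1 4 (.T 1 1
  (.T 2 1 (.T 4 1 (.G 176 44 1 1 1 1 [.n, .n, .n, .g 31 2 4131 0]) (.L 30))
  (.T 1 2 (.L 169) (.L 6))) (.C 0 1 1 8 (.L 3) (.C 1 2 16 1 (.T 1 2 (.L 7)
  (.L 12)) (.L 3)))) (.C 0 2 1 8 (.T 1 1 (.L 18) (.C 0 1 1 16 (.L 3) (.T 1 2
  (.L 11) (.L 12)))) (.L 28))))) (.B 2 8 1 (.L 221) (.C 0 2 8 1 (.T 1 1 (.T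
  2 1 (.T 4 1 (.T 8 1 (.C 1 2 4 1 (.C 0 1 4 1 (.C 1 2 4 1 (.L 5) (.C 0 2 32
  1 (.L 5) (.G 74 1 1 249570 249570 124785 [.n, .g 64 11 11 0, .g 64 13 13
  0, .n]))) (.C 0 2 4 1 (.L 5) (.C 1 2 8 1 (.C 0 1 1 16 (.G 29 1 1 65780
  131560 65780 [.n, .g 32 13 0 0, .n, .n]) (.L 152)) (.C 0 2 1 2 (.C 0 1 1 1
  (.L 5) (.C 1 2 2 1 (.T 16 1 (.G 32 29 1 6 3 11 [.n, .g 205 3 8204 0, .n,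
  .n, .n, .g 1 1 517 0]) (.C 0 1 1 2 (.G 89 1 1 35 70 70 [.g 64 21 0 0, .g 2
  5 0 0, .n, .n, .n, .n]) (.C 1 2 4 1 (.L 29) (.G 214 100 2 70 140 70 [.n,
  .n, .g 31 64 0 0, .n])))) (.C 0 2 1 1 (.G 175 1 1 1 2 2 [.n, .n, .n, .n,
  .g 1 0 39163 0, .g 1 0 42668 0, .n, .g 38 63 0 0]) (.T 16 1 (.G 5 32 0
  4205 4205 2102 [.n, .g 2 1 136 0, .n, .n]) (.T 1 2 (.G 132 1 1 3 3 1 [.g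
  32 1 0 0, .n, .n, .g 29 32 0 0, .n, .n]) (.L 121)))))) (.T 16 1 (.C 0 1 1
  2 (.C 1 2 1 8 (.T 32 1 (.O 4) (.C 1 2 2 1 (.T 1 2 (.O 4) (.G 32 486 0 1 1
  1 [.g 1 0 371 0, .n, .n, .n, .n, .n])) (.O 4))) (.O 4)) (.G 240 398 3
  151664 37916 18958 [.n, .n, .n, .g 32 5 0 0, .n])) (.C 0 1 1 2 (.T 1 2 (.C
  0 1 2 1 (.C 1 2 1 16 (.C 0 2 8 1 (.G 1 252 1 114510 458040 1832160 [.n, .g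
  33 65 22 0, .n, .n]) (.G 184 237 0 1 1 1 [.n, .g 2 9 0 0, .n, .n, .n, .n,
  .n, .n])) (.G 252 420 1 133157 1065259 33289 [.n, .g 16 0 5 0, .n, .n]))
  (.G 170 36 2 1 1 1 [.n, .n, .n, .n, .n, .g 3 76 0 0])) (.L 121)) (.C 1 2 1
  2 (.G 69 118 3 183693 45923 91847 [.n, .n, .n, .g 8 5 0 0, .n]) (.G 124
  123 0 1 1 1 [.n, .n, .g 4 2 3953 0, .g 64 7 0 0])))))))) (.C 1 2 1 2 (.L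
  25) (.O 4))) (.L 24)) (.L 45)) (.L 6)) (.C 0 1 4 1 (.T 1 2 (.T 2 1 (.L 7)
  (.T 1 2 (.C 1 2 2 1 (.L 33) (.L 16)) (.L 48))) (.T 1 4 (.C 1 2 2 1 (.L 2)
  (.C 1 2 1 2 (.L 2) (.L 9))) (.C 0 1 8 1 (.C 1 2 1 1 (.C 1 2 2 1 (.T 1 8
  (.L 2) (.C 1 2 4 1 (.T 1 16 (.L 42) (.C 1 2 8 1 (.L 76) (.L 96))) (.T 1 16
  (.L 38) (.O 4)))) (.T 1 8 (.C 1 2 1 2 (.L 17) (.L 9)) (.O 4))) (.O 4)) (.L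
  78)))) (.C 1 2 4 1 (.C 0 1 1 2 (.T 1 2 (.L 4) (.L 3)) (.C 1 2 8 1 (.C 0 1
  1 4 (.L 8) (.T 1 2 (.L 386) (.L 12))) (.L 8))) (.T 1 2 (.G 7 57 2 6 22 11
  [.n, .n, .g 32 15 0 0, .g 59 63 0 0]) (.L 3))))) (.C 0 2 1 2 (.T 1 1 (.T 2
  1 (.C 1 2 8 1 (.T 4 1 (.T 8 1 (.C 0 1 1 4 (.G 205 365 1 1 1 1 [.n, .g 1 0
  3220 0, .n, .n]) (.C 0 1 1 8 (.C 1 2 1 1 (.C 0 2 4 1 (.G 107 194 3 5 10 42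
  [.g 30 1 8058 0, .n, .g 15 1 16616 0, .g 128 5 0 0]) (.G 171 142 3 1 1 1
  [.g 13 21 0 0, .g 17 32 0 0, .g 1 5 1806 0, .n])) (.G 348 24 0 14086 56346
  28173 [.n, .n, .n, .g 45 28 64 0, .g 64 27 9 0, .n])) (.L 172))) (.L 24))
  (.G 187 82 2 1 1 1 [.n, .n, .g 1 1 3151 0, .n])) (.G 258 160 1 1 1 1 [.n,
  .g 8 7 31331 0, .g 1 3 7019 0, .n])) (.L 6)) (.C 0 1 1 4 (.G 4 454 4 21 42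
  42 [.n, .n, .g 64 33 0 0, .g 32 11 0 0]) (.C 1 2 8 1 (.C 0 1 1 8 (.L 20)
  (.T 1 2 (.L 26) (.L 12))) (.L 3)))) (.C 0 2 1 4 (.T 1 1 (.T 2 1 (.T 4 1
  (.G 178 44 1 1 1 1 [.n, .n, .n, .g 5 2 3941 0]) (.L 30)) (.T 1 2 (.L 169)
  (.L 6))) (.C 0 1 1 8 (.L 3) (.C 1 2 16 1 (.T 1 2 (.L 7) (.L 12)) (.L 3))))
  (.C 0 2 1 8 (.T 1 1 (.L 18) (.T 1 2 (.L 18) (.L 12))) (.L 28))))))) (.B 0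
  2 1 (.C 0 2 8 1 (.T 1 1 (.T 2 1 (.T 4 1 (.T 8 1 (.C 1 2 4 1 (.C 0 1 4 1
  (.C 1 2 4 1 (.L 5) (.C 0 2 32 1 (.L 5) (.G 500 5 1 223770 223770 111885
  [.n, .g 64 13 12 0, .g 512 21 19 0, .n]))) (.C 0 2 4 1 (.L 5) (.C 0 1 1 16
  (.C 1 2 1 4 (.C 1 2 2 1 (.L 5) (.C 0 1 8 1 (.C 0 2 4 1 (.L 5) (.G 54 1 1
  21 41 10 [.g 64 1 0 0, .n, .n, .g 59 64 0 0, .g 1 5 44986 0, .g 1 6 45400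
  0])) (.G 488 1 1 1130 565 282 [.n, .g 32 15 0 0, .g 3 5 4457 0, .g 1 2
  2138 0, .g 1 1 375 0]))) (.C 0 2 1 2 (.C 0 2 2 1 (.C 0 1 4 1 (.L 5) (.T 16
  1 (.G 32 5 1 349 175 175 [.g 13 1 3267 0, .n, .n, .n, .g 26 63 0 0, .g 1
  16 0 0]) (.G 5 36 2 2024 1012 1012 [.n, .g 4 1 0 0, .n, .n]))) (.T 16 1
  (.T 32 1 (.O 4) (.C 1 2 1 2 (.G 1 216 2 237775 237775 475550 [.n, .g 36 63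
  1 0, .n, .n]) (.O 4))) (.G 36 1 1 655 655 328 [.n, .n, .g 13 64 0 0,
  .n]))) (.T 16 1 (.C 1 2 1 8 (.T 32 1 (.O 4) (.C 1 2 2 1 (.T 1 2 (.O 4) (.G
  249 453 0 47 93 373 [.g 1 0 1183 0, .g 1 0 356 0, .n, .n, .n])) (.O 4)))
  (.O 4)) (.T 1 2 (.C 0 2 1 4 (.C 0 1 2 1 (.G 1 47 0 142502 570007 285004
  [.n, .g 35 64 33 0, .n, .n]) (.G 237 36 2 1 1 1 [.g 1 1 858 0, .n, .n, .n,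
  .g 2 67 0 0, .g 1 49 10990 0])) (.G 100 36 2 140 140 18 [.n, .n, .n, .g 5
  7 8550 0, .n])) (.L 24))))) (.C 1 2 8 1 (.L 40) (.C 1 2 1 2 (.C 1 2 2 1
  (.L 40) (.G 219 40 3 1 1 1 [.g 7 31 0 0, .n, .n, .n, .g 1 537 70640 0, .g
  51 35253 4166311 0])) (.T 16 1 (.G 89 250 1 12 12 3 [.g 1 0 1282 0, .g 128
  3 0 0, .n, .n, .g 2 3 76480 0, .g 2 3 76118 0]) (.T 1 2 (.G 36 124 2 1 1 1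
  [.n, .n, .g 1 0 340 0, .n]) (.L 24)))))))) (.C 1 2 1 2 (.L 25) (.O 4)))
  (.L 24)) (.L 45)) (.L 6)) (.C 0 1 4 1 (.T 1 2 (.T 2 1 (.L 7) (.T 1 2 (.C 1
  2 2 1 (.L 33) (.L 16)) (.L 48))) (.T 1 4 (.C 1 2 2 1 (.L 2) (.C 1 2 1 2
  (.L 2) (.L 9))) (.C 0 1 8 1 (.C 1 2 1 1 (.C 1 2 2 1 (.T 1 8 (.L 2) (.C 1 2
  4 1 (.T 1 16 (.L 42) (.C 1 2 8 1 (.L 76) (.L 96))) (.T 1 16 (.L 38) (.O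
  4)))) (.T 1 8 (.C 1 2 1 2 (.L 17) (.L 9)) (.O 4))) (.O 4)) (.L 27)))) (.C
  1 2 4 1 (.C 0 1 1 2 (.T 1 2 (.L 4) (.L 3)) (.C 1 2 8 1 (.C 0 1 1 4 (.L 8)
  (.T 1 2 (.L 11) (.L 12))) (.L 8))) (.C 1 2 1 2 (.T 1 2 (.L 4) (.L 3)) (.T
  1 2 (.G 7 57 2 8 64 16 [.n, .n, .g 1 0 1965 0, .g 2 1 3548 0]) (.L 3))))))
  (.C 0 2 1 2 (.T 1 1 (.T 2 1 (.C 1 2 8 1 (.T 4 1 (.T 8 1 (.C 0 1 1 4 (.C 0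
  1 2 1 (.O 4) (.L 25)) (.C 0 1 1 8 (.C 1 2 1 1 (.C 0 1 2 1 (.T 16 1 (.O 4)
  (.G 429 144 2 5 20 20 [.g 64 13 0 0, .n, .g 32 11 0 0, .g 3 4 8819 0]))
  (.G 85 176 3 1080 540 1080 [.n, .g 2 1 53 0, .g 64 37 0 0, .n])) (.G 188
  129 1 14060 56241 28121 [.n, .g 32 13 0 0, .g 32 19 0 0, .n])) (.L 40)))
  (.L 24)) (.G 82 160 1 1 1 1 [.n, .n, .g 1 0 1707 0, .n, .n])) (.G 664 66 3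
  1 1 1 [.n, .n, .n, .g 8192 1 0 0, .g 64 0 45 0, .n])) (.L 6)) (.C 0 1 1 4
  (.G 4 247 0 61 123 123 [.n, .n, .g 4 2 4647 0, .g 10 3 8236 0]) (.C 1 2 8
  1 (.C 0 1 1 8 (.L 20) (.T 1 2 (.L 26) (.L 12))) (.L 3)))) (.C 0 2 1 4 (.T
  1 1 (.T 2 1 (.T 4 1 (.G 60 84 3 1 1 1 [.n, .g 2 6 4183 0, .n]) (.L 30))
  (.C 0 2 2 1 (.L 6) (.L 35))) (.C 0 1 1 8 (.L 3) (.C 1 2 16 1 (.T 1 2 (.L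
  7) (.L 12)) (.L 3)))) (.C 0 2 1 8 (.T 1 1 (.L 18) (.C 0 1 1 16 (.L 3) (.T
  1 2 (.L 11) (.L 12)))) (.L 28))))) (.C 0 2 8 1 (.T 1 1 (.T 2 1 (.T 4 1 (.T
  8 1 (.C 1 2 4 1 (.C 0 1 4 1 (.C 1 2 4 1 (.L 5) (.C 0 2 32 1 (.L 5) (.G 74
  1 1 268151 268151 134076 [.n, .g 64 11 10 0, .g 64 13 12 0, .n]))) (.C 0 2
  4 1 (.L 5) (.C 1 2 8 1 (.C 0 1 1 16 (.G 1 29 1 65780 131560 65780 [.n, .g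
  13 32 0 0, .n, .n]) (.L 40)) (.C 0 2 1 2 (.C 0 1 1 1 (.L 5) (.C 1 2 2 1
  (.T 16 1 (.G 32 29 1 10 5 20 [.n, .g 169 5 8179 0, .n, .n, .g 32 31 0 0,
  .g 31 32 0 0]) (.T 1 2 (.G 301 105 0 2645472 1322736 5290943 [.n, .n, .n,
  .n, .g 3 58 0 0, .g 3 56 0 0, .n, .n]) (.L 24))) (.T 16 1 (.G 132 1 1 1 2
  1 [.g 52 1 130632 0, .g 2 0 1273 0, .n, .g 1 1 201284 0, .n, .n]) (.G 54 1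
  1 1 2 1 [.g 32 1 0 0, .n, .g 59 64 0 0, .g 43 64 0 0, .n, .n])))) (.T 16 1
  (.G 212 424 3 146085 73042 36521 [.n, .n, .n, .g 16 0 1 0, .g 4 0 1 0])
  (.C 1 2 1 2 (.C 0 1 1 2 (.C 0 2 1 1 (.G 211 1 1 89817 179633 179633 [.n,
  .g 64 13 14 0, .g 64 15 2 0, .n, .n]) (.L 105)) (.L 100)) (.T 1 2 (.C 0 2
  1 4 (.T 2 1 (.C 0 2 2 1 (.C 0 2 4 1 (.T 4 1 (.L 792) (.C 0 1 1 1 (.G 536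
  237 0 155 309 1237 [.n, .g 64 7 0 0, .n, .n]) (.G 216 1000 1 415178 207589
  1660712 [.n, .n, .g 16 0 7 0, .n, .n]))) (.L 744)) (.L 872)) (.L 74)) (.G
  229 183 2 1 1 1 [.n, .n, .g 32 3 0 0])) (.L 24)))))))) (.C 1 2 1 2 (.L 25)
  (.O 4))) (.L 24)) (.L 45)) (.L 6)) (.C 0 1 4 1 (.T 1 2 (.T 2 1 (.L 7) (.T
  1 2 (.C 1 2 2 1 (.L 33) (.L 16)) (.L 48))) (.T 1 4 (.C 1 2 2 1 (.L 2) (.C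
  1 2 1 2 (.L 2) (.L 9))) (.C 0 1 8 1 (.C 1 2 1 1 (.C 1 2 2 1 (.T 1 8 (.L 2)
  (.C 1 2 4 1 (.T 1 16 (.L 42) (.C 1 2 8 1 (.L 76) (.L 96))) (.T 1 16 (.L
  38) (.O 4)))) (.T 1 8 (.T 2 1 (.L 2) (.L 50)) (.O 4))) (.O 4)) (.L 78))))
  (.C 1 2 4 1 (.C 0 1 1 2 (.T 1 2 (.L 4) (.L 3)) (.C 1 2 8 1 (.C 0 1 1 4 (.L
  8) (.T 1 2 (.L 4) (.L 12))) (.L 8))) (.T 1 2 (.G 4 57 2 7 27 14 [.n, .n,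
  .g 4 1 0 0, .g 16 7 0 0]) (.L 3))))) (.C 0 2 1 2 (.T 1 1 (.T 2 1 (.C 1 2 8
  1 (.T 4 1 (.T 8 1 (.C 0 1 1 4 (.G 228 277 0 1 1 1 [.n, .g 1 0 2400 0, .g 1
  0 3699 0, .g 1 0 3857 0]) (.C 0 1 1 8 (.C 1 2 1 1 (.C 0 1 2 1 (.T 16 1 (.O
  4) (.G 416 144 2 5 20 20 [.g 8 1 0 0, .n, .g 32 11 0 0, .g 112 7 16375
  0])) (.G 55 465 3 152 76 152 [.n, .g 23 5 4057 0, .g 8 3 0 0, .n, .n]))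
  (.G 188 161 3 12974 51897 25949 [.n, .g 32 15 0 0, .g 32 19 0 0, .n])) (.L
  172))) (.L 24)) (.G 187 177 2 1 1 1 [.n, .n, .g 1 1 2747 0, .n])) (.G 258
  44 1 1 1 1 [.n, .g 3 1 9731 0, .g 7 6 31769 0, .n])) (.L 6)) (.C 0 1 1 4
  (.G 4 454 4 21 42 42 [.n, .n, .g 64 33 0 0, .g 32 11 0 0]) (.C 1 2 8 1 (.C
  0 1 1 8 (.L 20) (.T 1 2 (.L 26) (.L 12))) (.L 3)))) (.C 0 2 1 4 (.T 1 1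
  (.T 2 1 (.T 4 1 (.G 60 616 3 1 1 1 [.n, .g 1 11 1739 0, .n]) (.L 30)) (.C
  0 2 2 1 (.L 6) (.L 35))) (.C 0 1 1 8 (.L 3) (.C 1 2 16 1 (.T 1 2 (.L 7)
  (.L 12)) (.L 3)))) (.C 0 2 1 8 (.T 1 1 (.L 18) (.C 0 1 1 16 (.L 3) (.T 1 2
  (.L 11) (.L 12)))) (.L 28))))))) (by decide +kernel)

theorem CS2_c5 : CoF CSTab ⟨⟨12100, 11510, 160000⟩, ⟨1694, 1576, 20000⟩,
  ⟨1635, 1635, 20000⟩, ⟨0, 1⟩, ⟨2, 1⟩, ⟨1, 0, 0⟩, ⟨0, 1, 0⟩, ⟨0, 1, 1⟩⟩ :=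
CoF.ofG CSTab_B CSBt_E CSBt_U (.B 2 8 1 (.B 0 1 16 (.L 221) (.L 221)) (.B 0
  1 8 (.B 0 2 1 (.C 0 2 8 1 (.T 1 1 (.T 2 1 (.T 4 1 (.T 8 1 (.C 1 2 4 1 (.C
  0 1 4 1 (.C 1 2 4 1 (.L 5) (.C 0 2 32 1 (.L 5) (.G 74 5 1 212130 212130
  106065 [.n, .g 64 11 11 0, .g 64 13 13 0, .n]))) (.C 0 2 4 1 (.L 5) (.C 1
  2 8 1 (.C 0 1 1 16 (.G 29 1 1 65780 131560 65780 [.n, .g 32 13 0 0, .n,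
  .n]) (.L 152)) (.C 0 2 1 2 (.C 0 1 1 1 (.L 5) (.C 1 2 2 1 (.T 16 1 (.G 32
  250 1 8 4 16 [.n, .g 128 3 0 0, .n, .n, .n, .g 27 32 0 0]) (.C 0 1 1 2 (.G
  123 1 1 38 76 76 [.g 32 11 0 0, .g 24 65 0 0, .n, .n, .n, .n]) (.G 29 55 0
  431616 107904 431616 [.n, .g 1 29 0 0, .n, .n]))) (.C 0 2 1 1 (.G 54 1 1 2
  4 4 [.n, .n, .n, .g 64 45 0 0, .g 2 1 85409 0, .g 1 0 42644 0]) (.T 16 1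
  (.G 5 32 0 4531 4531 2265 [.n, .g 3 1 220 0, .n, .n]) (.G 54 1 1 2 2 1 [.g
  32 1 0 0, .n, .g 7 8 0 0, .g 8 13 0 0, .n, .n]))))) (.T 16 1 (.C 0 1 1 2
  (.C 1 2 1 8 (.T 32 1 (.O 4) (.G 444 309 4 1 1 1 [.g 1 0 4754 0, .g 1 0 400
  0, .n, .g 1 0 291682 0, .n, .n])) (.O 4)) (.G 212 424 3 399818 99954 49977
  [.n, .n, .n, .n, .g 256 0 5 0])) (.C 0 1 1 2 (.C 0 1 2 1 (.T 1 2 (.C 1 2 1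
  16 (.G 184 1 1 43 174 347 [.g 35 64 0 0, .g 1 0 1717 0, .n, .n, .n, .n,
  .n, .n]) (.G 461 308 3 130226 1041808 32556 [.n, .g 4 5 0 0, .n, .n])) (.L
  121)) (.L 54)) (.G 143 55 1 30 7 4 [.g 64 43 0 0, .g 4 1 9198 0, .g 36 1
  66220 0, .n]))))))) (.C 1 2 1 2 (.L 25) (.O 4))) (.L 24)) (.L 45)) (.L 6))
  (.C 0 1 4 1 (.T 1 2 (.T 2 1 (.L 7) (.T 1 2 (.C 1 2 2 1 (.L 33) (.L 16))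
  (.L 48))) (.C 1 2 2 1 (.C 0 1 8 1 (.T 1 4 (.L 2) (.T 1 8 (.L 17) (.T 1 16
  (.C 1 2 2 1 (.L 17) (.L 112)) (.C 1 2 2 1 (.C 1 2 4 1 (.T 1 32 (.L 76) (.L
  96)) (.L 112)) (.O 4))))) (.L 63)) (.T 1 4 (.C 1 2 1 2 (.L 2) (.L 9)) (.L
  50)))) (.C 1 2 4 1 (.C 0 1 1 2 (.T 1 2 (.L 4) (.L 3)) (.C 1 2 8 1 (.C 0 1
  1 4 (.L 8) (.T 1 2 (.L 4) (.L 12))) (.L 8))) (.T 1 2 (.G 4 57 2 7 27 14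
  [.n, .n, .g 64 17 0 0, .g 64 29 0 0]) (.L 3))))) (.C 0 2 1 2 (.T 1 1 (.T 2
  1 (.C 1 2 8 1 (.T 4 1 (.T 8 1 (.C 0 1 1 4 (.G 333 166 1 1 1 1 [.n, .g 2 87
  221720 0, .n, .n]) (.C 0 1 1 8 (.C 1 2 1 1 (.C 0 2 4 1 (.G 107 194 3 5 11
  42 [.g 34 1 8284 0, .n, .g 15 1 16616 0, .g 32 1 0 0]) (.C 0 1 1 4 (.G 207
  936 3 3028 6055 1514 [.n, .g 11 2 254 0, .g 4 1 66 0, .n]) (.L 172))) (.G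
  680 360 3 16212 64849 32425 [.g 64 41 0 0, .n, .n, .n])) (.L 172))) (.L
  24)) (.G 251 160 1 1 1 1 [.n, .n, .n, .n, .g 2 0 4299 0])) (.G 258 66 3 1
  1 1 [.n, .g 3 4 14251 0, .g 7 34 69435 0, .n])) (.L 6)) (.C 0 1 1 4 (.G 4
  3 3 39 78 78 [.n, .n, .g 3 1 4721 0, .g 4 1 4380 0]) (.C 1 2 8 1 (.C 0 1 1
  8 (.L 20) (.T 1 2 (.L 26) (.L 12))) (.L 3)))) (.C 0 2 1 4 (.T 1 1 (.T 2 1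
  (.T 4 1 (.G 60 808 3 1 1 1 [.n, .g 1 50 2087 0, .n]) (.L 30)) (.T 1 2 (.L
  169) (.L 6))) (.C 0 1 1 8 (.L 3) (.C 1 2 16 1 (.T 1 2 (.L 7) (.L 12)) (.L
  3)))) (.C 0 2 1 8 (.T 1 1 (.L 18) (.C 0 1 1 16 (.L 3) (.T 1 2 (.L 11) (.L
  12)))) (.L 28))))) (.B 0 1 2 (.B 2 2 1 (.L 189) (.B 0 2 1 (.B 2 1 2 (.L
  140) (.C 0 2 8 1 (.B 0 4 1 (.T 1 1 (.T 2 1 (.T 4 1 (.T 8 1 (.C 1 2 4 1 (.C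
  0 1 4 1 (.C 1 2 4 1 (.L 5) (.C 0 2 32 1 (.L 5) (.G 257 1 1 253881 253881
  126940 [.g 64 10 9 0, .g 64 11 11 0, .n, .n]))) (.C 0 2 4 1 (.L 5) (.C 1 2
  8 1 (.C 0 1 1 16 (.G 29 1 1 65780 131560 65780 [.n, .g 32 13 0 0, .n, .n])
  (.L 152)) (.C 0 2 1 2 (.C 0 1 1 1 (.L 5) (.C 1 2 2 1 (.T 16 1 (.G 32 29 1
  7 3 13 [.n, .g 49 1 2726 0, .n, .n, .n, .g 8 5 0 0]) (.C 0 1 1 2 (.G 448 1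
  1 19 39 39 [.g 64 23 0 0, .n, .g 47 64 0 0, .n]) (.L 69))) (.C 0 2 1 1 (.G
  54 1 1 2 4 4 [.n, .n, .n, .g 64 41 0 0, .g 1 0 42615 0, .g 1 0 42531 0])
  (.T 16 1 (.G 32 5 1 4491 4491 2246 [.g 1 1 221 0, .n, .n, .n, .n, .n]) (.G
  54 1 1 2 2 1 [.g 32 1 0 0, .n, .g 59 64 0 0, .g 42 65 0 0, .n, .n])))))
  (.T 16 1 (.C 0 1 1 2 (.C 1 2 1 8 (.T 32 1 (.O 4) (.C 1 2 2 1 (.T 1 2 (.O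
  4) (.G 32 449 0 1 1 1 [.g 1 0 370 0, .n, .n, .n, .n, .n])) (.O 4))) (.O
  4)) (.L 216)) (.C 0 1 1 2 (.C 0 1 2 1 (.T 1 2 (.C 1 2 1 16 (.C 1 2 2 1 (.G
  225 1 1 17 70 278 [.g 1 1 80 0, .n, .n, .n, .n, .n]) (.G 252 232 0 159047
  2544747 1272374 [.n, .g 30 65 36 0, .n, .n])) (.G 552 273 3 163607 1308857
  40902 [.g 41 63 0 0, .n, .n, .n])) (.L 968)) (.L 54)) (.G 124 100 3 231 58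
  29 [.n, .n, .g 3 5 3649 0, .g 8 5 0 0]))))))) (.C 1 2 1 2 (.L 25) (.O 4)))
  (.L 24)) (.L 45)) (.L 6)) (.C 0 1 4 1 (.T 1 2 (.T 2 1 (.L 7) (.T 1 2 (.C 1
  2 2 1 (.L 33) (.L 16)) (.L 48))) (.C 1 2 2 1 (.C 0 1 8 1 (.T 1 4 (.L 2)
  (.T 1 8 (.L 17) (.T 1 16 (.C 1 2 2 1 (.L 17) (.L 112)) (.C 1 2 2 1 (.C 1 2
  4 1 (.T 1 32 (.L 76) (.L 112)) (.L 112)) (.O 4))))) (.L 63)) (.T 1 4 (.C 1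
  2 1 2 (.L 2) (.L 9)) (.L 50)))) (.C 1 2 4 1 (.C 0 1 1 2 (.T 1 2 (.L 4) (.L
  3)) (.C 1 2 8 1 (.C 0 1 1 4 (.L 8) (.T 1 2 (.L 4) (.L 12))) (.L 8))) (.T 1
  2 (.G 4 57 2 7 27 14 [.n, .n, .g 4 1 0 0, .g 64 27 0 0]) (.L 3))))) (.L
  140)) (.C 0 2 1 2 (.T 1 1 (.T 2 1 (.C 1 2 8 1 (.T 4 1 (.T 8 1 (.C 0 1 1 4
  (.G 397 166 1 1 1 1 [.n, .g 4 47 123284 0, .n, .n]) (.C 0 1 1 8 (.C 1 2 1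
  1 (.C 0 2 4 1 (.G 183 254 4 5 10 42 [.g 84 1 8241 0, .n, .g 15 1 16617 0,
  .g 16 1 0 0]) (.C 0 1 1 4 (.G 712 152 3 3786 7572 1893 [.g 19 2 259 0, .g
  5 1 129 0, .n, .n]) (.L 172))) (.G 188 433 0 9083 36332 18166 [.n, .g 32
  27 0 0, .g 63 64 0 0, .n])) (.L 172))) (.L 24)) (.G 251 187 2 1 1 1 [.n,
  .n, .n, .n, .g 1 0 2152 0])) (.G 480 840 1 1 1 1 [.n, .n, .g 8192 1 0 0,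
  .n, .g 4 0 3 0, .n])) (.L 6)) (.C 0 1 1 4 (.G 4 269 3 62 124 124 [.n, .n,
  .g 1 1 1952 0, .g 1 1 1444 0]) (.C 1 2 8 1 (.C 0 1 1 8 (.L 20) (.T 1 2 (.L
  26) (.L 12))) (.L 3)))) (.C 0 2 1 4 (.T 1 1 (.T 2 1 (.T 4 1 (.G 44 146 3 1
  1 1 [.n, .g 1 3 1852 0, .n, .n]) (.L 30)) (.C 0 2 2 1 (.L 6) (.L 18))) (.C
  0 1 1 8 (.L 3) (.C 1 2 16 1 (.T 1 2 (.L 7) (.L 12)) (.L 3)))) (.C 0 2 1 8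
  (.T 1 1 (.L 18) (.T 1 2 (.L 18) (.L 12))) (.L 28)))))) (.L 140))) (.L
  189))) (.L 221))) (by decide +kernel)

theorem CS2_c6 : CoF CSTab ⟨⟨2054, 1936, 40000⟩, ⟨5442, 5088, 80000⟩, ⟨5324,
  5206, 80000⟩, ⟨0, 1⟩, ⟨2, 1⟩, ⟨1, 0, 0⟩, ⟨0, 1, 0⟩, ⟨0, 1, 1⟩⟩ :=
CoF.ofG CSTab_B CSBt_E CSBt_U (.B 0 2 1 (.B 2 1 2 (.C 0 2 8 1 (.T 1 1 (.T 2
  1 (.T 4 1 (.T 8 1 (.C 1 2 4 1 (.C 0 1 4 1 (.C 1 2 4 1 (.L 5) (.C 0 2 32 1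
  (.L 5) (.G 1 68 3 292252 292252 146126 [.n, .g 6 61 5 0, .n, .n]))) (.C 0
  2 4 1 (.L 5) (.C 0 1 1 16 (.C 1 2 1 4 (.L 1) (.C 0 2 1 2 (.L 1) (.T 16 1
  (.L 59) (.T 1 2 (.C 0 2 1 4 (.G 424 1 1 104211 208421 208421 [.n, .n, .n,
  .g 32 19 1 0]) (.G 107 255 0 319 319 40 [.n, .n, .g 1 2 1828 0, .n])) (.L
  156))))) (.C 1 2 8 1 (.L 84) (.C 0 2 1 4 (.G 118 29 1 94261 47130 188522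
  [.g 32 13 0 0, .n, .n, .g 32 6 7 0, .g 32 9 0 0]) (.G 107 85 1 207 52 26
  [.g 133 7 8188 0, .n, .g 1 1 1289 0, .g 64 11 0 0])))))) (.C 1 2 1 2 (.L
  25) (.O 4))) (.L 15)) (.L 21)) (.L 6)) (.C 0 1 4 1 (.T 1 2 (.T 2 1 (.L 7)
  (.T 1 2 (.C 1 2 2 1 (.L 33) (.L 16)) (.L 16))) (.T 1 4 (.C 1 2 2 1 (.L 2)
  (.C 1 2 1 2 (.L 2) (.L 9))) (.C 0 1 8 1 (.C 1 2 1 1 (.C 1 2 2 1 (.T 1 8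
  (.L 2) (.C 1 2 4 1 (.T 1 16 (.L 42) (.C 1 2 8 1 (.L 76) (.L 96))) (.T 1 16
  (.L 38) (.O 4)))) (.T 1 8 (.C 1 2 1 2 (.L 17) (.L 9)) (.O 4))) (.O 4)) (.L
  3)))) (.C 1 2 4 1 (.C 0 1 1 2 (.G 62 27 3 1 1 1 [.g 4 1 0 0, .n, .n, .n])
  (.C 1 2 8 1 (.C 0 1 1 4 (.L 8) (.T 1 2 (.L 4) (.L 12))) (.L 8))) (.C 1 2 1
  2 (.L 3) (.T 1 2 (.G 4 62 1 8 67 17 [.n, .n, .g 1 0 1368 0, .g 3 1 3697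
  0]) (.L 3)))))) (.C 0 2 1 2 (.T 1 1 (.T 2 1 (.C 0 1 1 4 (.G 228 86 3 1 1 1
  [.n, .n, .g 2 0 5371 0, .g 1 2 6457 0]) (.T 4 1 (.T 8 1 (.C 1 2 8 1 (.C 0
  1 1 8 (.C 1 2 1 1 (.C 0 1 2 1 (.T 16 1 (.O 4) (.T 1 2 (.G 508 68 3 7196
  28783 28783 [.n, .n, .g 64 6 37 0, .n, .n, .g 32 17 0 0]) (.L 24))) (.G 55
  182 3 652 326 652 [.n, .g 21 5 1048 0, .g 32 13 32 0, .n, .n])) (.G 24 25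
  0 20068 80271 40135 [.g 39 64 0 0, .n, .n])) (.L 98)) (.C 0 2 1 1 (.L 25)
  (.O 4))) (.L 15)) (.L 30))) (.L 6)) (.C 0 1 1 4 (.G 4 234 3 32 63 63 [.n,
  .n, .g 64 25 0 0, .g 64 17 0 0]) (.C 1 2 8 1 (.C 0 1 1 8 (.L 20) (.T 1 2
  (.L 26) (.L 12))) (.L 3)))) (.C 0 2 1 4 (.T 1 1 (.T 2 1 (.T 4 1 (.G 44 239
  3 1 1 1 [.n, .g 1 26 1915 0, .n, .n]) (.L 30)) (.C 0 2 2 1 (.L 6) (.L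
  35))) (.C 0 1 1 8 (.L 3) (.C 1 2 16 1 (.T 1 2 (.L 7) (.L 12)) (.L 3))))
  (.C 0 2 1 8 (.T 1 1 (.L 18) (.C 0 1 1 16 (.L 3) (.T 1 2 (.L 52) (.L 12))))
  (.L 28))))) (.C 0 2 8 1 (.T 1 1 (.T 2 1 (.T 4 1 (.T 8 1 (.C 1 2 4 1 (.C 0
  1 4 1 (.C 1 2 4 1 (.L 5) (.C 0 2 32 1 (.L 5) (.G 144 1 1 292252 292252
  146126 [.n, .g 256 53 22 0, .g 64 13 11 0, .n]))) (.C 0 2 4 1 (.L 5) (.C 0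
  1 1 16 (.G 183 1 1 83 167 42 [.g 66 1 1028 0, .n, .g 1 1 1037 0, .g 128 19
  0 0]) (.C 1 2 8 1 (.L 111) (.C 0 2 1 4 (.G 139 29 1 99575 49787 199149 [.g
  64 11 16 0, .g 64 17 0 0, .g 16 9 0 0, .n, .n]) (.G 501 254 4 224 56 28
  [.g 12 1 1002 0, .n, .g 1 1 1185 0, .g 3 8 0 0])))))) (.C 1 2 1 2 (.L 204)
  (.O 4))) (.L 15)) (.L 21)) (.L 6)) (.C 0 1 4 1 (.T 1 2 (.T 2 1 (.L 7) (.C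
  1 2 2 1 (.L 4) (.L 16))) (.C 1 2 2 1 (.T 1 4 (.L 2) (.C 0 1 8 1 (.T 1 8
  (.L 17) (.T 1 16 (.C 1 2 2 1 (.L 17) (.L 112)) (.C 1 2 2 1 (.C 1 2 4 1 (.T
  1 32 (.L 76) (.L 112)) (.L 112)) (.O 4)))) (.L 3))) (.T 1 4 (.C 1 2 1 2
  (.L 2) (.L 9)) (.L 9)))) (.C 1 2 4 1 (.C 0 1 1 2 (.L 27) (.C 1 2 8 1 (.C 0
  1 1 4 (.L 8) (.T 1 2 (.L 4) (.L 12))) (.L 8))) (.C 1 2 1 2 (.L 3) (.T 1 2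
  (.G 7 3 3 7 55 14 [.n, .n, .g 2 0 4601 0, .g 3 1 8421 0]) (.L 3)))))) (.C
  0 2 1 2 (.T 1 1 (.T 2 1 (.C 1 2 8 1 (.T 4 1 (.C 0 1 1 4 (.G 224 282 0 6530
  13060 26121 [.g 32 0 9 0, .n, .n, .n]) (.C 0 1 1 8 (.C 0 1 2 1 (.T 8 1 (.C
  1 2 1 2 (.T 16 1 (.O 4) (.G 584 500 1 8082 32329 64657 [.g 64 0 25 0, .n,
  .n, .n, .g 16 5 0 0, .n])) (.L 204)) (.L 15)) (.G 246 39 3 7 3 3 [.g 23 65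
  0 0, .n, .n, .n])) (.L 11))) (.L 82)) (.G 508 44 1 1 1 1 [.n, .n, .g 64 0
  43 0, .n, .n, .g 8192 1 0 0])) (.L 6)) (.C 0 1 1 4 (.G 4 186 2 61 122 122
  [.n, .n, .g 16 7 0 0, .g 64 19 0 0]) (.C 1 2 8 1 (.C 0 1 1 8 (.L 20) (.T 1
  2 (.L 26) (.L 12))) (.L 3)))) (.C 0 2 1 4 (.T 1 1 (.T 2 1 (.G 904 31 3 1 1
  1 [.n, .g 1 50 972 0, .g 1 34 1724 0, .n]) (.C 0 2 2 1 (.L 6) (.L 49)))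
  (.C 0 1 1 8 (.L 3) (.C 1 2 16 1 (.T 1 2 (.L 7) (.L 12)) (.L 3)))) (.C 0 2
  1 8 (.T 1 1 (.L 18) (.C 0 1 1 16 (.L 3) (.T 1 2 (.L 52) (.L 12)))) (.L
  28)))))) (.B 2 2 1 (.C 0 2 8 1 (.T 1 1 (.T 2 1 (.T 4 1 (.T 8 1 (.C 1 2 4 1
  (.C 0 1 4 1 (.C 1 2 4 1 (.L 5) (.C 0 2 32 1 (.L 5) (.G 5 47 0 237820
  237820 118910 [.n, .g 13 64 12 0, .n, .n]))) (.C 0 2 4 1 (.L 5) (.C 0 1 1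
  16 (.C 1 2 1 4 (.L 1) (.C 0 2 1 2 (.L 1) (.T 16 1 (.L 59) (.T 1 2 (.G 380
  68 3 39372 78744 9843 [.g 64 55 0 0, .g 32 25 0 0, .n, .n, .n]) (.L
  156))))) (.C 1 2 8 1 (.L 84) (.C 0 2 1 4 (.G 118 29 1 95150 47575 190301
  [.g 64 25 0 0, .n, .n, .g 256 49 56 0, .g 32 9 0 0]) (.G 91 85 1 218 54 27
  [.g 31 5 5453 0, .n, .g 1 1 1325 0, .g 32 7 0 0])))))) (.C 1 2 1 2 (.L 25)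
  (.O 4))) (.L 15)) (.L 21)) (.L 6)) (.C 0 1 4 1 (.T 1 2 (.T 2 1 (.L 7) (.T
  1 2 (.C 1 2 2 1 (.L 33) (.L 16)) (.L 16))) (.T 1 4 (.C 1 2 2 1 (.L 2) (.C
  1 2 1 2 (.L 2) (.L 9))) (.C 0 1 8 1 (.C 1 2 1 1 (.C 1 2 2 1 (.T 1 8 (.L 2)
  (.C 1 2 4 1 (.T 1 16 (.L 42) (.C 1 2 8 1 (.L 76) (.L 96))) (.T 1 16 (.L
  38) (.O 4)))) (.T 1 8 (.T 2 1 (.L 2) (.L 50)) (.O 4))) (.O 4)) (.L 3))))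
  (.C 1 2 4 1 (.C 0 1 1 2 (.G 62 648 0 1 1 1 [.g 4 1 0 0, .n, .n, .n]) (.C 1
  2 8 1 (.C 0 1 1 4 (.L 8) (.T 1 2 (.L 4) (.L 12))) (.L 8))) (.C 1 2 1 2 (.L
  3) (.T 1 2 (.G 7 62 1 8 61 15 [.n, .n, .g 2 0 4225 0, .g 1 1 2814 0]) (.L
  3)))))) (.C 0 2 1 2 (.T 1 1 (.T 2 1 (.C 0 1 1 4 (.G 228 86 3 1 1 1 [.n,
  .n, .g 1 0 2690 0, .g 1 4 9667 0]) (.T 4 1 (.T 8 1 (.C 1 2 8 1 (.C 0 1 1 8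
  (.C 1 2 1 1 (.C 0 1 2 1 (.T 16 1 (.O 4) (.G 318 248 0 4 18 18 [.g 32 7 0
  0, .n, .g 8 3 0 0, .g 17 3 8235 0])) (.G 176 178 3 3 1 3 [.g 17 66 0 0,
  .n, .n, .n])) (.G 358 352 1 1 1 1 [.n, .n, .g 30 17 32 0, .n, .n, .n]))
  (.L 98)) (.C 0 2 1 1 (.L 25) (.O 4))) (.L 15)) (.L 30))) (.L 6)) (.C 0 1 1
  4 (.G 4 186 2 61 122 122 [.n, .n, .g 16 7 0 0, .g 64 19 0 0]) (.C 1 2 8 1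
  (.C 0 1 1 8 (.L 20) (.T 1 2 (.L 26) (.L 12))) (.L 3)))) (.C 0 2 1 4 (.T 1
  1 (.T 2 1 (.T 4 1 (.G 60 119 3 1 1 1 [.n, .g 1 10 1666 0, .n]) (.L 30))
  (.C 0 2 2 1 (.L 6) (.L 35))) (.C 0 1 1 8 (.L 3) (.C 1 2 16 1 (.T 1 2 (.L
  7) (.L 12)) (.L 3)))) (.C 0 2 1 8 (.T 1 1 (.L 18) (.C 0 1 1 16 (.L 3) (.T
  1 2 (.L 52) (.L 12)))) (.L 28))))) (.C 0 2 8 1 (.T 1 1 (.T 2 1 (.T 4 1 (.T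
  8 1 (.C 1 2 4 1 (.C 0 1 4 1 (.C 1 2 4 1 (.L 5) (.C 0 2 32 1 (.L 5) (.G 5
  68 3 237820 237820 118910 [.n, .g 7 68 7 0, .n, .n]))) (.C 0 2 4 1 (.L 5)
  (.C 0 1 1 16 (.C 1 2 1 4 (.L 1) (.C 0 2 1 2 (.L 1) (.T 16 1 (.L 59) (.C 1
  2 1 8 (.G 100 124 2 283 566 1132 [.n, .n, .g 1 0 52 0, .g 239 1 16378 0,
  .n]) (.G 47 145 0 133089 532358 33272 [.g 256 0 131 0, .n, .n, .n])))))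
  (.C 1 2 8 1 (.L 84) (.C 0 2 1 4 (.G 118 29 1 95150 47575 190301 [.g 32 13
  0 0, .n, .n, .g 256 49 56 0, .g 32 9 0 0]) (.G 107 85 1 218 54 27 [.g 140
  7 8186 0, .n, .g 1 1 1325 0, .g 64 11 0 0])))))) (.C 1 2 1 2 (.L 25) (.O
  4))) (.L 15)) (.L 21)) (.L 6)) (.C 0 1 4 1 (.T 1 2 (.T 2 1 (.L 7) (.T 1 2
  (.C 1 2 2 1 (.L 33) (.L 16)) (.L 16))) (.C 1 2 2 1 (.C 0 1 8 1 (.T 1 4 (.L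
  2) (.T 1 8 (.L 17) (.T 1 16 (.C 1 2 2 1 (.L 17) (.L 112)) (.C 1 2 2 1 (.C
  1 2 4 1 (.T 1 32 (.L 76) (.L 112)) (.L 112)) (.O 4))))) (.L 63)) (.T 1 4
  (.C 1 2 1 2 (.L 2) (.L 9)) (.L 50)))) (.C 1 2 4 1 (.C 0 1 1 2 (.G 62 247 3
  1 1 1 [.g 19 32 0 0, .n, .n, .n]) (.C 1 2 8 1 (.C 0 1 1 4 (.L 8) (.T 1 2
  (.L 4) (.L 12))) (.L 8))) (.C 1 2 1 2 (.L 3) (.T 1 2 (.G 4 62 1 8 66 17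
  [.n, .n, .g 1 0 1303 0, .g 3 1 3616 0]) (.L 3)))))) (.C 0 2 1 2 (.T 1 1
  (.T 2 1 (.C 0 1 1 4 (.G 210 86 3 1 1 1 [.g 1 1 4163 0, .n, .n, .g 1 0 2728
  0]) (.T 4 1 (.T 8 1 (.C 1 2 8 1 (.C 0 1 1 8 (.C 1 2 1 1 (.C 0 1 2 1 (.G
  348 68 3 12996 51984 51984 [.n, .n, .n, .g 64 0 35 0, .g 32 27 0 0, .n])
  (.G 55 84 3 164 82 164 [.n, .g 21 5 4175 0, .g 5 2 13 0, .n, .n])) (.G 24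
  25 0 19425 77701 38851 [.g 39 64 0 0, .n, .n])) (.L 243)) (.C 0 2 1 1 (.L
  25) (.O 4))) (.L 15)) (.L 30))) (.L 6)) (.C 0 1 1 4 (.G 4 234 3 31 63 63
  [.n, .n, .g 32 13 0 0, .g 64 17 0 0]) (.C 1 2 8 1 (.C 0 1 1 8 (.L 20) (.T
  1 2 (.L 26) (.L 12))) (.L 3)))) (.C 0 2 1 4 (.T 1 1 (.T 2 1 (.T 4 1 (.G 24
  246 3 124 15 247 [.g 32 30 4113 0, .n, .n]) (.L 30)) (.C 0 2 2 1 (.L 6)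
  (.L 35))) (.C 0 1 1 8 (.L 3) (.C 1 2 16 1 (.T 1 2 (.L 7) (.L 12)) (.L
  3)))) (.C 0 2 1 8 (.T 1 1 (.L 18) (.C 0 1 1 16 (.L 3) (.T 1 2 (.L 52) (.L
  12)))) (.L 28))))))) (by decide +kernel)

theorem CS2_c7 : CoF CSTab ⟨⟨5442, 5088, 80000⟩, ⟨1694, 1576, 20000⟩,
  ⟨12100, 11510, 160000⟩, ⟨0, 1⟩, ⟨2, 1⟩, ⟨1, 0, 0⟩, ⟨0, 1, 0⟩, ⟨0, 1, 1⟩⟩
  :=
CoF.ofG CSTab_B CSBt_E CSBt_U (.B 0 1 4 (.C 0 2 8 1 (.T 1 1 (.T 2 1 (.T 4 1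
  (.T 8 1 (.C 1 2 4 1 (.C 0 1 4 1 (.C 1 2 4 1 (.L 5) (.C 0 2 32 1 (.L 5) (.G
  289 5 1 216127 216127 108064 [.n, .n, .g 32 5 5 0, .g 1024 194 179 0])))
  (.C 0 2 4 1 (.L 5) (.C 0 1 1 16 (.C 1 2 1 4 (.C 1 2 2 1 (.L 5) (.C 0 1 8 1
  (.C 0 2 4 1 (.L 5) (.G 54 1 1 17 33 8 [.g 64 1 0 0, .n, .n, .g 64 55 0 0,
  .g 1 4 45577 0, .g 1 5 46187 0])) (.G 138 1 1 63 32 16 [.g 64 15 0 0, .g 2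
  1 209 0, .n, .n, .g 1 1 20707 0, .g 1 2 21491 0]))) (.C 0 2 1 2 (.C 0 2 2
  1 (.C 0 1 4 1 (.L 5) (.T 16 1 (.G 32 5 1 293 146 146 [.g 16 1 3985 0, .n,
  .n, .n, .g 31 63 0 0, .g 7 62 0 0]) (.C 1 2 1 1 (.G 242 1 1 19 10 19 [.g
  32 1 0 0, .n, .n, .g 5 32 0 0, .n, .n]) (.L 5)))) (.T 16 1 (.T 32 1 (.O 4)
  (.C 1 2 1 2 (.G 32 5 1 16 16 31 [.g 64 1 0 0, .n, .n, .n, .g 16 9 0 0, .g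
  15 16 0 0]) (.O 4))) (.C 0 1 1 1 (.L 5) (.C 1 2 1 2 (.G 242 1 1 12 6 12
  [.g 64 1 0 0, .n, .n, .g 1 4 0 0, .n, .n]) (.L 1))))) (.T 16 1 (.C 1 2 1 8
  (.T 32 1 (.O 4) (.G 54 469 2 1 1 1 [.g 2 0 4741 0, .n, .n, .g 1 0 86157 0,
  .g 1 19 13883 0, .g 1 33 18730 0])) (.O 4)) (.C 0 1 2 1 (.T 1 2 (.C 1 2 1
  16 (.C 0 2 8 1 (.L 1) (.G 225 232 0 74 18 37 [.g 9 4 63447 0, .n, .g 1 3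
  27393 0, .g 1 3 24885 0, .n, .n])) (.G 468 389 0 219210 1753678 54802 [.n,
  .g 64 29 0 0, .n, .n, .n])) (.L 121)) (.G 54 36 2 1 1 1 [.n, .n, .n, .n,
  .g 1 57 92262 0, .g 1 63 102766 0]))))) (.C 1 2 8 1 (.L 29) (.C 0 2 1 4
  (.C 0 2 2 1 (.L 29) (.G 69 29 1 393909 49239 196954 [.n, .g 64 25 0 0, .g
  64 15 4 0, .g 64 11 22 0, .n])) (.T 16 1 (.L 59) (.G 124 100 3 223 56 28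
  [.g 64 5 0 0, .n, .g 4 6 4631 0, .g 16 9 0 0]))))))) (.C 1 2 1 2 (.L 25)
  (.O 4))) (.L 24)) (.L 45)) (.L 6)) (.C 0 1 4 1 (.T 1 2 (.T 2 1 (.L 7) (.T
  1 2 (.C 1 2 2 1 (.L 33) (.L 16)) (.L 48))) (.C 1 2 2 1 (.C 1 2 4 1 (.T 1 4
  (.L 2) (.C 1 2 8 1 (.T 1 8 (.L 2) (.L 464)) (.T 1 8 (.L 2) (.T 1 16 (.L
  218) (.L 112))))) (.T 1 4 (.L 2) (.T 1 8 (.L 17) (.T 1 16 (.C 1 2 1 2 (.L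
  17) (.L 112)) (.O 4))))) (.T 1 4 (.C 1 2 1 2 (.L 2) (.L 9)) (.L 50)))) (.C
  1 2 4 1 (.C 0 1 1 2 (.T 1 2 (.L 4) (.L 3)) (.C 1 2 8 1 (.C 0 1 1 4 (.L 8)
  (.T 1 2 (.L 4) (.L 12))) (.L 8))) (.T 1 2 (.G 434 26 1 1 4 2 [.n, .n, .n,
  .n, .g 128 23 0 0]) (.L 3))))) (.C 0 2 1 2 (.T 1 1 (.T 2 1 (.C 1 2 8 1 (.T
  4 1 (.T 8 1 (.C 0 1 1 4 (.C 0 1 2 1 (.O 4) (.L 25)) (.C 0 1 1 8 (.C 1 2 1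
  1 (.C 0 1 2 1 (.T 16 1 (.O 4) (.G 373 47 0 4 16 16 [.g 16 1 0 0, .n, .g 64
  21 0 0, .g 22 3 8015 0])) (.G 85 338 3 1467 734 1467 [.n, .g 5 1 64 0, .g
  64 33 0 0, .n])) (.G 437 129 1 11607 46426 23213 [.g 45 23 63 0, .g 64 25
  16 0, .n, .n, .n, .n])) (.L 40))) (.L 24)) (.G 177 160 1 1 1 1 [.n, .n, .g
  1 0 1052 0, .n, .n])) (.G 478 66 3 1 1 1 [.g 8192 1 0 0, .n, .n, .g 32 0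
  23 0, .n, .n])) (.L 6)) (.C 0 1 1 4 (.G 4 114 3 294 588 588 [.n, .n, .g 64
  33 0 0, .g 64 23 0 0]) (.C 1 2 8 1 (.C 0 1 1 8 (.L 20) (.T 1 2 (.L 26) (.L
  12))) (.L 3)))) (.C 0 2 1 4 (.T 1 1 (.T 2 1 (.T 4 1 (.G 119 44 1 1 1 1
  [.n, .n, .n, .g 22 2 4055 0]) (.L 30)) (.C 0 2 2 1 (.L 6) (.L 35))) (.C 0
  1 1 8 (.L 3) (.C 1 2 16 1 (.T 1 2 (.L 7) (.L 12)) (.L 3)))) (.C 0 2 1 8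
  (.T 1 1 (.L 18) (.C 0 1 1 16 (.L 3) (.T 1 2 (.L 52) (.L 12)))) (.L 28)))))
  (.C 0 2 8 1 (.B 1 8 1 (.B 0 1 8 (.B 0 2 1 (.T 1 1 (.T 2 1 (.T 4 1 (.T 8 1
  (.C 1 2 4 1 (.C 0 1 4 1 (.C 1 2 4 1 (.L 5) (.C 0 2 32 1 (.L 5) (.G 158 1 1
  254510 254510 127255 [.g 128 23 21 0, .g 16 3 3 0, .n, .n, .n]))) (.C 0 2
  4 1 (.L 5) (.C 1 2 8 1 (.C 0 1 1 16 (.G 29 1 1 65780 131560 65780 [.n, .g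
  32 13 0 0, .n, .n]) (.L 142)) (.C 0 2 1 2 (.C 0 1 1 1 (.L 5) (.C 1 2 2 1
  (.T 16 1 (.G 32 29 1 7 3 14 [.n, .g 65 1 4074 0, .n, .n, .n, .g 16 13 0
  0]) (.C 0 1 1 2 (.G 123 1 1 38 76 76 [.g 32 11 0 0, .g 24 65 0 0, .n, .n,
  .n, .n]) (.C 0 1 1 4 (.G 214 100 2 75 151 75 [.n, .n, .g 35 64 0 0, .n])
  (.L 69)))) (.C 0 2 1 1 (.G 54 1 1 2 4 4 [.n, .n, .n, .g 16 11 0 0, .g 2 1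
  85420 0, .g 1 0 42650 0]) (.T 16 1 (.G 5 32 0 4533 4533 2266 [.n, .g 3 1
  221 0, .n, .n]) (.G 54 1 1 2 2 1 [.g 32 1 0 0, .n, .g 7 8 0 0, .g 8 13 0
  0, .n, .n]))))) (.T 16 1 (.C 0 1 1 2 (.C 1 2 1 8 (.T 32 1 (.O 4) (.C 1 2 2
  1 (.T 1 2 (.O 4) (.G 400 32 0 30 60 241 [.g 1 1 424 0, .n, .n, .n])) (.O
  4))) (.O 4)) (.G 69 776 2 2125002 531250 265625 [.n, .n, .g 256 0 3 0, .g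
  139 256 11 0, .g 14 32 1 0])) (.C 0 1 1 2 (.C 0 1 2 1 (.T 1 2 (.C 1 2 1 16
  (.C 1 2 2 1 (.G 1 321 0 24 97 386 [.n, .g 64 43 0 0, .n, .n]) (.G 520 252
  1 159394 2550300 1275150 [.n, .n, .g 32 0 3 0, .g 64 0 29 0, .n])) (.G 252
  235 3 120839 966716 30210 [.n, .g 32 0 11 0, .n, .n])) (.L 24)) (.L 54))
  (.C 1 2 1 2 (.G 202 422 1 853258 213315 426629 [.n, .n, .g 64 7 0 0, .n,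
  .n]) (.G 36 89 0 1 1 1 [.n, .n, .g 2 1 1862 0, .g 64 7 0 0])))))))) (.C 1
  2 1 2 (.L 25) (.O 4))) (.L 24)) (.L 45)) (.L 6)) (.C 0 1 4 1 (.T 1 2 (.T 2
  1 (.L 7) (.T 1 2 (.C 1 2 2 1 (.L 33) (.L 16)) (.L 48))) (.C 1 2 2 1 (.C 1
  2 4 1 (.T 1 4 (.L 2) (.C 1 2 8 1 (.T 1 8 (.L 2) (.L 464)) (.T 1 8 (.L 2)
  (.T 1 16 (.L 218) (.L 112))))) (.T 1 4 (.L 2) (.T 1 8 (.L 2) (.C 0 2 32 1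
  (.T 1 16 (.C 1 2 1 1 (.L 1008) (.L 112)) (.O 4)) (.G 370 752 2 5508444
  5508444 2754222 [.n, .n, .n, .g 64 0 29 0]))))) (.T 1 4 (.C 1 2 1 2 (.L 2)
  (.L 9)) (.L 50)))) (.C 1 2 4 1 (.C 0 1 1 2 (.T 1 2 (.L 4) (.L 3)) (.C 1 2
  8 1 (.C 0 1 1 4 (.L 8) (.T 1 2 (.L 4) (.L 12))) (.L 8))) (.T 1 2 (.G 4 57
  2 7 27 14 [.n, .n, .g 4 1 0 0, .g 64 27 0 0]) (.L 3))))) (.L 140)) (.L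
  221)) (.T 1 1 (.T 2 1 (.T 4 1 (.T 8 1 (.C 1 2 4 1 (.C 0 1 4 1 (.C 1 2 4 1
  (.L 5) (.C 0 2 32 1 (.L 5) (.G 74 5 1 208038 208038 104019 [.n, .g 64 11
  11 0, .g 64 13 14 0, .n]))) (.C 0 2 4 1 (.L 5) (.C 1 2 8 1 (.C 0 1 1 16
  (.G 29 1 1 65780 131560 65780 [.n, .g 32 13 0 0, .n, .n]) (.L 142)) (.C 0
  2 1 2 (.C 0 1 1 1 (.L 5) (.C 1 2 2 1 (.T 16 1 (.G 32 29 1 6 3 11 [.n, .g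
  68 1 2734 0, .n, .n, .n, .g 2 2 1085 0]) (.C 0 1 1 2 (.G 123 1 1 35 70 70
  [.g 32 11 0 0, .g 2 5 0 0, .n, .n, .n, .n]) (.C 0 1 1 4 (.T 1 2 (.G 143
  202 2 139 277 139 [.g 8 13 0 0, .n, .n, .n]) (.L 24)) (.L 69)))) (.C 0 2 1
  1 (.G 54 1 1 2 3 3 [.n, .n, .n, .g 32 17 0 0, .g 2 1 85492 0, .g 1 0 42665
  0]) (.T 16 1 (.G 32 5 1 4213 4213 2107 [.g 1 1 221 0, .n, .n, .n, .n, .n])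
  (.G 54 1 1 2 2 1 [.g 32 1 0 0, .n, .g 7 8 0 0, .g 8 13 0 0, .n, .n])))))
  (.T 16 1 (.C 0 1 1 2 (.C 1 2 1 8 (.T 32 1 (.O 4) (.G 444 309 4 1 1 1 [.g 1
  0 3549 0, .g 1 0 400 0, .n, .g 1 0 171346 0, .n, .n])) (.O 4)) (.G 240 880
  3 241173 60293 30147 [.n, .n, .n, .g 16 0 1 0, .n])) (.C 0 1 1 2 (.C 0 1 2
  1 (.T 1 2 (.C 1 2 1 16 (.C 0 2 8 1 (.G 1 252 1 113965 455860 1823439 [.n,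
  .g 65 128 43 0, .n, .n]) (.G 184 237 0 1 1 1 [.n, .g 7 32 0 0, .n, .n, .n,
  .n, .n, .n])) (.G 157 624 1 232345 1858761 58086 [.n, .g 256 0 97 0, .n,
  .n])) (.L 24)) (.L 54)) (.C 1 2 1 2 (.G 202 422 1 852645 213161 426322
  [.n, .n, .g 64 7 0 0, .n, .n]) (.G 36 89 0 1 1 1 [.n, .n, .g 4 2 3717 0,
  .g 64 7 0 0])))))))) (.C 1 2 1 2 (.L 25) (.O 4))) (.L 24)) (.L 45)) (.L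
  6)) (.C 0 1 4 1 (.T 1 2 (.T 2 1 (.L 7) (.T 1 2 (.C 1 2 2 1 (.L 33) (.L
  16)) (.L 48))) (.C 1 2 2 1 (.C 1 2 4 1 (.T 1 4 (.L 2) (.T 1 8 (.L 2) (.C 1
  2 8 1 (.L 464) (.T 1 16 (.L 218) (.L 112))))) (.T 1 4 (.L 2) (.T 1 8 (.L
  17) (.T 1 16 (.C 1 2 1 2 (.L 17) (.L 112)) (.O 4))))) (.T 1 4 (.C 1 2 1 2
  (.L 2) (.L 9)) (.L 50)))) (.C 1 2 4 1 (.C 0 1 1 2 (.T 1 2 (.L 4) (.L 3))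
  (.C 1 2 8 1 (.C 0 1 1 4 (.L 8) (.T 1 2 (.L 4) (.L 12))) (.L 8))) (.T 1 2
  (.G 4 57 2 7 27 14 [.n, .n, .g 4 1 0 0, .g 64 27 0 0]) (.L 3)))))) (.C 0 2
  1 2 (.T 1 1 (.T 2 1 (.C 1 2 8 1 (.C 0 1 1 4 (.C 0 1 2 1 (.C 0 2 4 1 (.L
  272) (.G 104 944 0 7 4 4 [.n, .n, .g 9 2 8510 0, .n, .n])) (.C 0 1 1 2 (.G
  244 82 3 4 7 4 [.n, .n, .n, .g 1 2 0 0]) (.T 4 1 (.G 24 129 1 361061 90265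
  180530 [.g 128 0 21 0, .n, .n]) (.L 61)))) (.C 0 1 1 8 (.T 4 1 (.T 8 1 (.C
  1 2 1 1 (.C 0 2 4 1 (.G 356 194 3 5 10 42 [.g 32 1 8164 0, .n, .g 58 3
  65769 0, .g 32 1 0 0]) (.C 0 1 1 4 (.C 0 2 1 2 (.T 16 1 (.O 4) (.G 171 235
  3 19 38 38 [.g 64 11 0 0, .n, .g 9 12 33041 0, .n])) (.L 688)) (.L 40)))
  (.G 188 24 0 17530 70119 35060 [.n, .g 2 1 0 0, .g 64 31 0 0, .n])) (.L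
  24)) (.L 61)) (.L 84))) (.G 296 160 1 1 1 1 [.n, .n, .n, .n, .g 4 0 3 0,
  .g 8192 1 0 0])) (.L 6)) (.C 0 1 1 4 (.G 4 186 2 60 121 121 [.n, .n, .g 32
  15 0 0, .g 16 5 0 0]) (.C 1 2 8 1 (.C 0 1 1 8 (.L 20) (.T 1 2 (.L 26) (.L
  12))) (.L 3)))) (.C 0 2 1 4 (.T 1 1 (.T 2 1 (.T 4 1 (.G 40 60 1 1 1 1 [.n,
  .n, .n, .g 9 4 8488 0]) (.L 30)) (.T 1 2 (.L 169) (.L 6))) (.C 0 1 1 8 (.L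
  3) (.C 1 2 16 1 (.T 1 2 (.L 7) (.L 12)) (.L 3)))) (.C 0 2 1 8 (.T 1 1 (.L
  18) (.C 0 1 1 16 (.L 3) (.T 1 2 (.L 11) (.L 12)))) (.L 28))))))
  (by decide +kernel)

theorem CS2_c8 : CoF CSTab ⟨⟨5442, 5088, 80000⟩, ⟨12100, 11510, 160000⟩,
  ⟨5324, 5206, 80000⟩, ⟨0, 1⟩, ⟨2, 1⟩, ⟨1, 0, 0⟩, ⟨0, 1, 0⟩, ⟨0, 1, 1⟩⟩ :=
CoF.ofG CSTab_B CSBt_E CSBt_U (.B 1 1 2 (.C 0 2 8 1 (.T 1 1 (.T 2 1 (.T 4 1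
  (.T 8 1 (.C 1 2 4 1 (.C 0 1 4 1 (.C 1 2 4 1 (.L 5) (.C 0 2 32 1 (.L 5) (.G
  158 1 1 268151 268151 134076 [.g 64 11 11 0, .g 64 13 11 0, .n, .n, .n])))
  (.C 0 2 4 1 (.L 5) (.C 0 1 1 16 (.C 1 2 1 4 (.C 1 2 2 1 (.L 5) (.C 0 1 8 1
  (.C 0 2 4 1 (.L 5) (.G 54 1 1 21 41 10 [.g 64 1 0 0, .n, .n, .g 15 16 0 0,
  .g 1 5 45064 0, .g 1 6 45493 0])) (.G 138 1 1 77 38 19 [.g 32 9 0 0, .g 2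
  1 207 0, .n, .n, .g 1 1 20124 0, .g 1 2 20850 0]))) (.C 0 2 1 2 (.C 0 2 2
  1 (.C 0 1 4 1 (.L 5) (.T 16 1 (.G 32 5 1 349 175 175 [.g 65 5 16346 0, .n,
  .n, .n, .g 27 65 0 0, .g 4 63 0 0]) (.G 36 1 1 2098 1049 1049 [.n, .n, .g
  5 21 0 0, .n]))) (.T 16 1 (.T 32 1 (.O 4) (.C 1 2 1 2 (.G 240 5 1 319913
  319913 639826 [.n, .n, .g 64 27 0 0, .g 64 9 0 0, .n]) (.O 4))) (.C 0 1 1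
  1 (.L 5) (.G 55 1 1 2052499 1026249 513125 [.g 64 39 0 0, .g 16 15 1 0,
  .n, .n, .n])))) (.T 16 1 (.C 1 2 1 8 (.T 32 1 (.O 4) (.G 32 469 2 1 1 1
  [.g 1 0 256 0, .n, .n, .n, .n, .g 1 10 1401 0])) (.O 4)) (.T 1 2 (.C 0 2 1
  4 (.C 0 1 2 1 (.G 5 248 0 95226 380903 190452 [.n, .g 39 65 38 0, .n, .n])
  (.G 237 36 2 1 1 1 [.g 8 11 8593 0, .n, .n, .n, .g 2 69 0 0, .g 2 69 0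
  0])) (.G 100 36 2 140 140 18 [.n, .n, .n, .g 3 7 7733 0, .n])) (.L
  228))))) (.C 1 2 8 1 (.L 40) (.C 1 2 1 2 (.C 1 2 2 1 (.L 40) (.B 0 2 1 (.G
  219 40 3 1 1 1 [.g 17 65 0 0, .n, .n, .n, .g 1 732 76961 0, .g 1 791 85830
  0]) (.G 219 141 3 1 1 1 [.g 8 33 0 0, .n, .n, .n, .g 1 463 68383 0, .g 1
  611 79758 0]))) (.T 16 1 (.G 89 250 1 12 12 3 [.g 1 0 1282 0, .g 128 3 0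
  0, .n, .n, .g 2 3 76462 0, .g 2 3 76095 0]) (.C 0 2 1 4 (.C 0 2 2 1 (.G 29
  123 1 456 456 1825 [.n, .g 23 32 0 0, .n, .n]) (.L 123)) (.G 36 105 3 230
  115 29 [.n, .n, .g 1 1 807 0, .g 64 31 0 0])))))))) (.C 1 2 1 2 (.L 25)
  (.O 4))) (.L 24)) (.L 45)) (.L 6)) (.C 0 1 4 1 (.T 1 2 (.T 2 1 (.L 7) (.T
  1 2 (.C 1 2 2 1 (.L 33) (.L 16)) (.L 48))) (.C 1 2 2 1 (.C 0 1 8 1 (.T 1 4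
  (.L 2) (.T 1 8 (.L 17) (.T 1 16 (.C 1 2 2 1 (.L 17) (.L 112)) (.C 1 2 2 1
  (.C 1 2 4 1 (.T 1 32 (.L 76) (.L 112)) (.L 112)) (.O 4))))) (.L 63)) (.T 1
  4 (.C 1 2 1 2 (.L 2) (.L 9)) (.L 50)))) (.C 1 2 4 1 (.C 0 1 1 2 (.T 1 2
  (.L 4) (.L 3)) (.C 1 2 8 1 (.C 0 1 1 4 (.L 8) (.T 1 2 (.L 4) (.L 12))) (.L
  8))) (.T 1 2 (.G 434 26 1 1 4 2 [.n, .n, .n, .n, .g 128 23 0 0]) (.L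
  3))))) (.C 0 2 1 2 (.T 1 1 (.T 2 1 (.C 1 2 8 1 (.T 4 1 (.T 8 1 (.C 0 1 1 4
  (.C 0 1 2 1 (.O 4) (.L 25)) (.C 0 1 1 8 (.C 1 2 1 1 (.C 0 1 2 1 (.T 16 1
  (.O 4) (.G 416 144 2 5 20 20 [.g 64 9 0 0, .n, .g 64 23 0 0, .g 112 7
  16397 0])) (.G 85 40 3 176 88 176 [.n, .g 25 10 4016 0, .g 64 39 0 0,
  .n])) (.G 244 24 0 18153 72610 36305 [.n, .n, .n, .g 32 19 0 0])) (.L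
  40))) (.L 24)) (.G 104 82 2 1 1 1 [.n, .g 1 1 3228 0, .n, .n, .n])) (.G
  816 44 1 1 1 1 [.n, .g 1 0 2681 0, .g 7 8 34085 0, .n, .n])) (.L 6)) (.C 0
  1 1 4 (.G 4 155 1 48 95 95 [.n, .n, .g 3 2 222 0, .g 3 1 947 0]) (.C 1 2 8
  1 (.C 0 1 1 8 (.L 20) (.T 1 2 (.L 26) (.L 12))) (.L 3)))) (.C 0 2 1 4 (.T
  1 1 (.T 2 1 (.T 4 1 (.G 44 178 3 1 1 1 [.n, .g 1 3 2210 0, .n, .n]) (.L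
  30)) (.C 0 2 2 1 (.L 6) (.L 35))) (.C 0 1 1 8 (.L 3) (.C 1 2 16 1 (.T 1 2
  (.L 7) (.L 12)) (.L 3)))) (.C 0 2 1 8 (.T 1 1 (.L 18) (.T 1 2 (.L 18) (.L
  12))) (.L 28))))) (.C 0 2 8 1 (.T 1 1 (.T 2 1 (.T 4 1 (.T 8 1 (.C 1 2 4 1
  (.C 0 1 4 1 (.C 1 2 4 1 (.L 5) (.C 0 2 32 1 (.L 5) (.G 5 47 0 223770
  223770 111885 [.n, .g 13 63 13 0, .n, .n]))) (.C 0 2 4 1 (.L 5) (.C 0 1 1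
  16 (.C 1 2 1 4 (.G 1 5 1 27013 54027 108054 [.n, .g 64 7 0 0, .n, .n]) (.C
  0 2 1 2 (.G 5 1 1 26021 104084 52042 [.n, .g 9 65 0 0, .n, .n]) (.T 16 1
  (.C 1 2 1 8 (.C 0 2 4 1 (.T 32 1 (.O 4) (.G 316 560 3 1 1 1 [.n, .n, .g 1
  0 2906 0, .n])) (.L 341)) (.O 4)) (.T 1 2 (.C 0 2 1 4 (.G 36 1 1 59 119
  119 [.n, .n, .g 8 3 8362 0, .n]) (.G 75 976 1 1 1 1 [.n, .n, .g 1 0 504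
  0])) (.L 156))))) (.C 1 2 8 1 (.L 40) (.C 1 2 1 2 (.G 139 40 3 876 438 876
  [.g 2 1 56 0, .g 64 27 0 0, .n, .n, .g 2 0 35 0]) (.T 16 1 (.G 59 1 1
  288646 288646 72162 [.g 32 13 0 0, .n, .n, .n]) (.C 0 2 1 4 (.C 0 2 2 1
  (.G 176 720 1 1 1 1 [.n, .n, .n, .g 32 7 0 0]) (.L 123)) (.G 180 255 0 135
  68 17 [.g 1 0 1397 0, .g 31 63 0 0, .n, .n])))))))) (.C 1 2 1 2 (.L 25)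
  (.O 4))) (.L 15)) (.L 21)) (.L 6)) (.C 0 1 4 1 (.T 1 2 (.T 2 1 (.L 7) (.T
  1 2 (.C 1 2 2 1 (.L 33) (.L 16)) (.L 48))) (.T 1 4 (.C 1 2 2 1 (.L 2) (.C
  1 2 1 2 (.L 2) (.L 9))) (.C 0 1 8 1 (.C 1 2 1 1 (.C 1 2 2 1 (.T 1 8 (.L 2)
  (.T 1 16 (.L 38) (.C 1 2 4 1 (.C 1 2 8 1 (.L 76) (.L 96)) (.O 4)))) (.T 1
  8 (.T 2 1 (.L 2) (.L 50)) (.O 4))) (.O 4)) (.L 27)))) (.C 1 2 4 1 (.C 0 1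
  1 2 (.T 1 2 (.L 4) (.L 3)) (.C 1 2 8 1 (.C 0 1 1 4 (.L 8) (.T 1 2 (.L 4)
  (.L 12))) (.L 8))) (.C 1 2 1 2 (.T 1 2 (.L 4) (.L 3)) (.T 1 2 (.G 4 57 2 9
  69 17 [.n, .n, .g 1 0 1373 0, .g 6 1 4242 0]) (.L 3)))))) (.C 0 2 1 2 (.T
  1 1 (.T 2 1 (.C 1 2 8 1 (.T 4 1 (.T 8 1 (.C 0 1 1 4 (.C 0 1 2 1 (.O 4) (.L
  25)) (.C 0 1 1 8 (.C 1 2 1 1 (.C 0 2 4 1 (.T 16 1 (.L 37) (.G 67 248 0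
  299648 599296 2397185 [.g 49 64 0 0, .g 64 0 1 0, .n, .n, .g 9 269 7 0, .g
  2 61 2 0])) (.G 47 176 3 4312 1078 2156 [.g 3 1 76 0, .n, .n, .n])) (.G
  188 161 3 12974 51897 25949 [.n, .g 32 9 0 0, .g 32 19 0 0, .n])) (.L
  40))) (.L 15)) (.G 30 160 1 1 1 1 [.n, .g 1 1 4463 0, .n, .n])) (.G 227 66
  3 1 1 1 [.n, .n, .n, .g 1 0 923 0, .g 3 20 37503 0])) (.L 6)) (.C 0 1 1 4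
  (.G 4 70 3 31 62 62 [.n, .n, .g 64 29 0 0, .g 16 5 0 0]) (.C 1 2 8 1 (.C 0
  1 1 8 (.L 20) (.T 1 2 (.L 26) (.L 12))) (.L 3)))) (.C 0 2 1 4 (.T 1 1 (.T
  2 1 (.T 4 1 (.G 182 60 1 1 1 1 [.n, .n, .n, .g 21 2 4121 0]) (.L 30)) (.C
  0 2 2 1 (.L 6) (.L 35))) (.C 0 1 1 8 (.L 3) (.C 1 2 16 1 (.T 1 2 (.L 7)
  (.L 12)) (.L 3)))) (.C 0 2 1 8 (.T 1 1 (.L 18) (.C 0 1 1 16 (.L 3) (.T 1 2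
  (.L 52) (.L 12)))) (.L 28)))))) (by decide +kernel)

end Pool.Agent.TET.Cvr
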