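import Pool.Agent.Helper37_TET.CS2_000

/-!
# MP_c7c9bf_co: cover of the charts, root 2, assembly 0
-/

set_option autoImplicit false
set_option maxRecDepth 100000

namespace Pool.Agent.TET.Cvr

theorem CS2_t0 : CoF CSTab ⟨⟨1995, 1995, 40000⟩, ⟨2054, 1936, 40000⟩, ⟨1635,
  1635, 20000⟩, ⟨0, 1⟩, ⟨2, 1⟩, ⟨1, 0, 0⟩, ⟨0, 1, 0⟩, ⟨0, 1, 1⟩⟩ :=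
  CoF.b 1 1 2 rfl rfl rfl CS2_c0 CS2_c1

theorem CS2_t1 : CoF CSTab ⟨⟨360, 360, 20000⟩, ⟨2054, 1936, 40000⟩, ⟨1995,
  1995, 40000⟩, ⟨0, 1⟩, ⟨2, 1⟩, ⟨1, 0, 0⟩, ⟨0, 1, 0⟩, ⟨0, 1, 1⟩⟩ :=
  CoF.b 0 2 1 rfl rfl rfl CS2_c2 CS2_c3

theorem CS2_t2 : CoF CSTab ⟨⟨360, 360, 20000⟩, ⟨2054, 1936, 40000⟩, ⟨1635,
  1635, 20000⟩, ⟨0, 1⟩, ⟨2, 1⟩, ⟨1, 0, 0⟩, ⟨0, 1, 0⟩, ⟨0, 1, 1⟩⟩ :=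
  CoF.b 2 1 1 rfl rfl rfl CS2_t0 CS2_t1

theorem CS2_t3 : CoF CSTab ⟨⟨5324, 5206, 80000⟩, ⟨1694, 1576, 20000⟩, ⟨1635,
  1635, 20000⟩, ⟨0, 1⟩, ⟨2, 1⟩, ⟨1, 0, 0⟩, ⟨0, 1, 0⟩, ⟨0, 1, 1⟩⟩ :=
  CoF.b 0 1 4 rfl rfl rfl CS2_c4 CS2_c5

theorem CS2_t4 : CoF CSTab ⟨⟨5442, 5088, 80000⟩, ⟨1694, 1576, 20000⟩, ⟨5324,
  5206, 80000⟩, ⟨0, 1⟩, ⟨2, 1⟩, ⟨1, 0, 0⟩, ⟨0, 1, 0⟩, ⟨0, 1, 1⟩⟩ :=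
  CoF.b 1 4 1 rfl rfl rfl CS2_c7 CS2_c8

theorem CS2_t5 : CoF CSTab ⟨⟨2054, 1936, 40000⟩, ⟨1694, 1576, 20000⟩, ⟨5324,
  5206, 80000⟩, ⟨0, 1⟩, ⟨2, 1⟩, ⟨1, 0, 0⟩, ⟨0, 1, 0⟩, ⟨0, 1, 1⟩⟩ :=
  CoF.b 0 1 2 rfl rfl rfl CS2_c6 CS2_t4

theorem CS2_t6 : CoF CSTab ⟨⟨2054, 1936, 40000⟩, ⟨1694, 1576, 20000⟩, ⟨1635,
  1635, 20000⟩, ⟨0, 1⟩, ⟨2, 1⟩, ⟨1, 0, 0⟩, ⟨0, 1, 0⟩, ⟨0, 1, 1⟩⟩ :=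
  CoF.b 2 2 1 rfl rfl rfl CS2_t3 CS2_t5

theorem CS2_t7 : CoF CSTab ⟨⟨360, 360, 20000⟩, ⟨1694, 1576, 20000⟩, ⟨1635,
  1635, 20000⟩, ⟨0, 1⟩, ⟨2, 1⟩, ⟨1, 0, 0⟩, ⟨0, 1, 0⟩, ⟨0, 1, 1⟩⟩ :=
  CoF.b 0 1 1 rfl rfl rfl CS2_t2 CS2_t6

end Pool.Agent.TET.Cvr
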