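import Pool.Agent.Helper37_TET.CSBt

/-!
# MP_c7c9bf_co: cover of the charts, root 3 part 0
-/

set_option autoImplicit false
set_option maxRecDepth 100000

namespace Pool.Agent.TET.Cvr

theorem CS3_c0 : CoF CSTab ⟨⟨1995, 1995, 40000⟩, ⟨1936, 2054, 40000⟩, ⟨5206,
  5324, 80000⟩, ⟨0, 1⟩, ⟨2, 1⟩, ⟨1, 0, 0⟩, ⟨0, 1, 0⟩, ⟨0, 1, 1⟩⟩ :=
CoF.ofG CSTab_B CSBt_E CSBt_U (.B 1 2 1 (.B 2 1 4 (.C 0 2 8 1 (.T 1 1 (.T 2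
  1 (.T 4 1 (.T 8 1 (.C 1 2 4 1 (.C 0 1 4 1 (.C 1 2 4 1 (.L 1) (.C 0 2 32 1
  (.L 1) (.G 1 97 0 299162 299162 149581 [.n, .g 8 248 7 0, .n, .n]))) (.C 0
  2 4 1 (.L 1) (.C 1 2 8 1 (.G 39 1 1 527 33 527 [.n, .n, .n, .g 24 65 0 0])
  (.T 16 1 (.C 0 2 1 2 (.G 59 5 1 288713 288713 577426 [.g 64 15 0 0, .n,
  .n, .n]) (.L 37)) (.C 1 2 1 2 (.G 118 1 1 226160 226160 452319 [.n, .n,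
  .n, .g 64 19 0 0, .n]) (.T 1 2 (.G 124 1 1 57 115 29 [.g 1 0 193 0, .n, .g
  4 3 4145 0, .n]) (.L 97))))))) (.C 1 2 1 2 (.L 65) (.O 4))) (.L 15)) (.L
  21)) (.L 6)) (.C 0 1 4 1 (.T 1 2 (.T 2 1 (.L 7) (.T 1 2 (.C 1 2 2 1 (.L
  33) (.L 16)) (.L 16))) (.T 1 4 (.C 1 2 2 1 (.L 2) (.C 1 2 1 2 (.L 2) (.L
  9))) (.C 0 1 8 1 (.C 1 2 1 1 (.T 1 8 (.C 1 2 2 1 (.L 2) (.T 2 1 (.L 17)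
  (.L 50))) (.C 1 2 2 1 (.C 1 2 4 1 (.T 1 16 (.L 42) (.C 1 2 8 1 (.L 80) (.L
  120))) (.T 1 16 (.L 71) (.O 4))) (.O 4))) (.O 4)) (.L 23)))) (.C 1 2 4 1
  (.C 0 1 1 2 (.L 27) (.C 1 2 8 1 (.C 0 1 1 4 (.L 8) (.T 1 2 (.L 4) (.L
  14))) (.L 8))) (.C 1 2 1 2 (.L 3) (.T 1 2 (.G 7 27 2 7 60 15 [.n, .n, .g 1
  0 2208 0, .g 6 3 16549 0]) (.L 10)))))) (.C 0 2 1 2 (.T 1 1 (.T 2 1 (.C 0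
  1 1 4 (.C 0 1 2 1 (.L 190) (.C 1 2 1 1 (.C 1 2 2 1 (.C 0 1 1 2 (.G 82 884
  0 2 3 3 [.n, .n, .n, .g 4 1 0 0, .n]) (.T 4 1 (.G 97 450 0 154552 38638
  154552 [.g 64 18 9 0, .n, .n, .n]) (.L 61))) (.L 181)) (.L 213))) (.T 4 1
  (.T 8 1 (.C 1 2 8 1 (.C 0 1 1 8 (.C 0 1 2 1 (.G 296 97 0 4617 18469 9235
  [.n, .n, .n, .n, .g 64 0 37 0, .g 64 59 0 0]) (.L 39)) (.L 11)) (.C 0 2 1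
  1 (.L 65) (.O 4))) (.L 15)) (.L 30))) (.L 6)) (.C 0 1 1 4 (.G 4 215 0 62
  124 124 [.n, .n, .g 4 1 4458 0, .g 10 3 8048 0]) (.C 1 2 8 1 (.C 0 1 1 8
  (.L 20) (.T 1 2 (.L 26) (.L 14))) (.L 23)))) (.C 0 2 1 4 (.T 1 1 (.T 2 1
  (.G 31 60 1 1 1 1 [.n, .n, .n, .g 101 2 4088 0]) (.C 0 2 2 1 (.L 6) (.L
  35))) (.C 0 1 1 8 (.L 10) (.C 1 2 16 1 (.T 1 2 (.L 7) (.L 14)) (.L 10))))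
  (.C 0 2 1 8 (.T 1 1 (.L 18) (.C 0 1 1 16 (.L 10) (.T 1 2 (.L 52) (.L
  14)))) (.L 28))))) (.C 0 2 8 1 (.T 1 1 (.T 2 1 (.T 4 1 (.T 8 1 (.C 1 2 4 1
  (.C 0 1 4 1 (.C 1 2 4 1 (.L 1) (.C 0 2 32 1 (.L 1) (.G 126 53 0 61873
  61873 30936 [.g 64 14 9 0, .n, .n, .n]))) (.C 0 2 4 1 (.L 1) (.C 1 2 8 1
  (.G 39 1 1 527 33 527 [.n, .n, .n, .g 2 5 0 0]) (.T 16 1 (.C 0 2 1 2 (.G 1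
  380 2 245153 245153 490306 [.n, .g 18 63 1 0, .n, .n]) (.L 37)) (.L
  53))))) (.C 1 2 1 2 (.L 46) (.O 4))) (.L 15)) (.L 21)) (.L 6)) (.C 0 1 4 1
  (.C 0 1 8 1 (.T 1 2 (.T 2 1 (.L 7) (.T 1 2 (.C 1 2 1 1 (.L 4) (.L 2)) (.L
  16))) (.T 1 4 (.C 1 2 1 1 (.L 2) (.L 9)) (.C 1 2 1 1 (.T 1 8 (.C 1 2 2 1
  (.L 2) (.T 2 1 (.L 17) (.L 50))) (.C 1 2 2 1 (.C 1 2 4 1 (.T 1 16 (.L 42)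
  (.C 1 2 8 1 (.L 80) (.L 120))) (.T 1 16 (.L 71) (.O 4))) (.O 4))) (.O
  4)))) (.T 1 2 (.G 78 26 1 14 7 14 [.g 4 1 0 0, .n, .g 64 49 0 0, .g 4 1 0
  0]) (.L 63))) (.C 1 2 4 1 (.C 0 1 1 2 (.L 27) (.C 1 2 8 1 (.C 0 1 1 4 (.L
  8) (.T 1 2 (.L 4) (.L 14))) (.L 8))) (.C 1 2 1 2 (.L 3) (.T 1 2 (.G 4 203
  3 8 66 16 [.n, .n, .g 1 0 1201 0, .g 3 1 3597 0]) (.L 10)))))) (.C 0 2 1 2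
  (.T 1 1 (.T 2 1 (.C 1 2 8 1 (.T 4 1 (.C 0 1 1 4 (.G 53 126 0 9298 18595
  37191 [.g 64 0 21 0, .n, .n, .n]) (.C 0 1 1 8 (.C 0 1 2 1 (.G 226 126 0
  7699 30795 15397 [.g 64 8 25 0, .n, .n, .n]) (.L 31)) (.L 11))) (.L 104))
  (.G 60 82 3 1 1 1 [.n, .g 5 4 16420 0, .n])) (.L 6)) (.C 0 1 1 4 (.G 4 57
  2 62 124 124 [.n, .n, .g 64 25 0 0, .g 64 17 0 0]) (.C 1 2 8 1 (.C 0 1 1 8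
  (.L 20) (.T 1 2 (.L 26) (.L 14))) (.L 23)))) (.C 0 2 1 4 (.T 1 1 (.T 2 1
  (.G 497 196 3 54 7 108 [.n, .g 7 7 65 0, .n, .n, .n, .n, .n, .n]) (.C 0 2
  2 1 (.L 6) (.L 49))) (.C 0 1 1 8 (.L 10) (.C 1 2 16 1 (.T 1 2 (.L 7) (.L
  14)) (.L 10)))) (.C 0 2 1 8 (.T 1 1 (.L 18) (.C 0 1 1 16 (.L 10) (.T 1 2
  (.L 52) (.L 14)))) (.L 28)))))) (.B 2 1 2 (.C 0 2 8 1 (.T 1 1 (.T 2 1 (.T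
  4 1 (.T 8 1 (.C 1 2 4 1 (.C 0 1 4 1 (.C 1 2 4 1 (.L 1) (.C 0 2 32 1 (.L 1)
  (.G 5 68 3 244533 244533 122267 [.n, .g 7 69 6 0, .n, .n]))) (.C 0 2 4 1
  (.L 1) (.C 0 1 1 16 (.C 1 2 1 4 (.L 1) (.C 0 2 1 2 (.L 1) (.T 16 1 (.L 59)
  (.T 1 2 (.G 100 36 2 79 157 20 [.n, .n, .g 1 0 201 0, .g 3 1 1959 0, .n])
  (.L 156))))) (.C 1 2 8 1 (.L 84) (.C 0 2 1 4 (.G 118 29 1 94761 47381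
  189522 [.g 32 13 0 0, .n, .n, .g 256 49 56 0, .g 32 9 0 0]) (.T 16 1 (.L
  37) (.G 67 118 2 1746353 436588 218294 [.g 29 65 0 0, .g 32 0 1 0, .g 3 67
  0 0, .g 3 70 0 0, .n, .n]))))))) (.C 1 2 1 2 (.L 25) (.O 4))) (.L 15)) (.L
  21)) (.L 6)) (.C 0 1 4 1 (.T 1 2 (.T 2 1 (.L 7) (.T 1 2 (.C 1 2 2 1 (.L
  33) (.L 16)) (.L 16))) (.T 1 4 (.C 1 2 2 1 (.L 2) (.C 1 2 1 2 (.L 2) (.L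
  9))) (.C 0 1 8 1 (.C 1 2 1 1 (.T 1 8 (.C 1 2 2 1 (.L 2) (.C 1 2 1 2 (.L
  17) (.L 9))) (.C 1 2 2 1 (.C 1 2 4 1 (.T 1 16 (.L 42) (.C 1 2 8 1 (.L 80)
  (.L 120))) (.T 1 16 (.L 206) (.O 4))) (.O 4))) (.O 4)) (.L 3)))) (.C 1 2 4
  1 (.C 0 1 1 2 (.G 62 492 2 1 1 1 [.g 64 27 0 0, .n, .n, .n]) (.C 1 2 8 1
  (.C 0 1 1 4 (.L 8) (.T 1 2 (.L 4) (.L 14))) (.L 8))) (.C 1 2 1 2 (.L 3)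
  (.T 1 2 (.G 7 62 1 7 60 15 [.n, .n, .g 2 0 4419 0, .g 1 1 2833 0]) (.L
  10)))))) (.C 0 2 1 2 (.T 1 1 (.T 2 1 (.C 0 1 1 4 (.G 86 628 0 1 1 1 [.n,
  .n, .n, .g 1 0 2093 0]) (.T 4 1 (.T 8 1 (.C 1 2 8 1 (.C 0 1 1 8 (.C 1 2 1
  1 (.C 0 1 2 1 (.T 16 1 (.O 4) (.G 384 47 0 5 21 21 [.g 16 7 0 0, .n, .g 16
  7 0 0, .g 68 7 16414 0])) (.G 165 39 3 20 10 20 [.g 11 67 0 0, .n, .n,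
  .n])) (.G 25 24 0 20044 80176 40088 [.g 49 63 15 0, .n, .n])) (.L 31)) (.C
  0 2 1 1 (.L 25) (.O 4))) (.L 15)) (.L 30))) (.L 6)) (.C 0 1 1 4 (.G 4 57 2
  62 124 124 [.n, .n, .g 64 25 0 0, .g 64 17 0 0]) (.C 1 2 8 1 (.C 0 1 1 8
  (.L 20) (.T 1 2 (.L 26) (.L 14))) (.L 23)))) (.C 0 2 1 4 (.T 1 1 (.T 2 1
  (.G 39 60 1 1 1 1 [.n, .n, .n, .g 9 1 2055 0]) (.C 0 2 2 1 (.L 6) (.L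
  35))) (.C 0 1 1 8 (.L 10) (.C 1 2 16 1 (.T 1 2 (.L 7) (.L 14)) (.L 10))))
  (.C 0 2 1 8 (.T 1 1 (.L 18) (.T 1 2 (.L 284) (.L 14))) (.L 28))))) (.C 0 2
  8 1 (.T 1 1 (.T 2 1 (.T 4 1 (.T 8 1 (.C 1 2 4 1 (.C 0 1 4 1 (.C 1 2 4 1
  (.L 1) (.C 0 2 32 1 (.L 1) (.G 1 97 0 292143 292143 146071 [.n, .g 8 248 7
  0, .n, .n]))) (.C 0 2 4 1 (.L 1) (.C 0 1 1 16 (.G 91 1 1 82 163 41 [.g 7 1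
  992 0, .n, .g 1 1 1031 0, .g 32 3 0 0]) (.C 1 2 8 1 (.L 31) (.C 0 2 1 4
  (.G 139 29 1 100028 50014 200056 [.g 64 11 16 0, .g 64 17 0 0, .g 16 9 0
  0, .n, .n]) (.G 107 254 4 216 54 27 [.g 137 7 8217 0, .n, .g 1 1 1168 0,
  .g 64 11 0 0])))))) (.C 1 2 1 2 (.L 65) (.O 4))) (.L 15)) (.L 21)) (.L 6))
  (.C 0 1 4 1 (.T 1 2 (.T 2 1 (.L 7) (.T 1 2 (.C 1 2 2 1 (.L 33) (.L 16))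
  (.L 16))) (.T 1 4 (.C 1 2 2 1 (.L 2) (.C 1 2 1 2 (.L 2) (.L 9))) (.C 0 1 8
  1 (.C 1 2 1 1 (.T 1 8 (.C 1 2 2 1 (.L 2) (.T 2 1 (.L 2) (.L 50))) (.C 1 2
  2 1 (.C 1 2 4 1 (.T 1 16 (.L 42) (.C 1 2 8 1 (.L 80) (.L 120))) (.T 1 16
  (.L 206) (.O 4))) (.O 4))) (.O 4)) (.L 23)))) (.C 1 2 4 1 (.C 0 1 1 2 (.L
  27) (.C 1 2 8 1 (.C 0 1 1 4 (.L 8) (.T 1 2 (.L 4) (.L 14))) (.L 8))) (.C 1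
  2 1 2 (.L 3) (.T 1 2 (.G 4 62 1 8 66 16 [.n, .n, .g 1 0 1312 0, .g 3 1
  3727 0]) (.L 10)))))) (.C 0 2 1 2 (.T 1 1 (.T 2 1 (.C 0 1 1 4 (.C 0 1 2 1
  (.L 190) (.C 1 2 1 1 (.C 1 2 2 1 (.C 0 1 1 2 (.G 104 83 0 1 2 2 [.n, .n,
  .g 16 9 0 0, .n, .n]) (.T 4 1 (.G 224 209 0 87598 21899 87598 [.g 64 0 13
  0, .n, .n, .n]) (.L 61))) (.L 181)) (.L 213))) (.T 4 1 (.T 8 1 (.C 1 2 8 1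
  (.C 0 1 1 8 (.C 1 2 1 1 (.C 0 1 2 1 (.G 381 97 0 3643 14571 14571 [.n, .g
  32 23 0 0, .n, .g 64 0 37 0, .n, .n]) (.L 39)) (.G 358 352 1 1 1 1 [.n,
  .n, .g 4 0 3 0, .n, .n, .n])) (.L 11)) (.C 0 2 1 1 (.L 65) (.O 4))) (.L
  15)) (.L 30))) (.L 6)) (.C 0 1 1 4 (.G 4 280 1 49 98 98 [.n, .n, .g 64 27
  0 0, .g 64 19 0 0]) (.C 1 2 8 1 (.C 0 1 1 8 (.L 20) (.T 1 2 (.L 26) (.L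
  14))) (.L 23)))) (.C 0 2 1 4 (.T 1 1 (.T 2 1 (.G 31 60 1 1 1 1 [.n, .n,
  .n, .g 91 2 4102 0]) (.C 0 2 2 1 (.L 6) (.L 49))) (.C 0 1 1 8 (.L 10) (.C
  1 2 16 1 (.T 1 2 (.L 7) (.L 14)) (.L 10)))) (.C 0 2 1 8 (.T 1 1 (.L 18)
  (.C 0 1 1 16 (.L 10) (.T 1 2 (.L 52) (.L 14)))) (.L 28)))))))
  (by decide +kernel)

theorem CS3_c1 : CoF CSTab ⟨⟨1995, 1995, 40000⟩, ⟨5206, 5324, 80000⟩, ⟨1635,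
  1635, 20000⟩, ⟨0, 1⟩, ⟨2, 1⟩, ⟨1, 0, 0⟩, ⟨0, 1, 0⟩, ⟨0, 1, 1⟩⟩ :=
CoF.ofG CSTab_B CSBt_E CSBt_U (.B 2 2 1 (.B 1 1 4 (.C 0 2 8 1 (.T 1 1 (.T 2
  1 (.T 4 1 (.T 8 1 (.C 1 2 4 1 (.C 0 1 4 1 (.C 1 2 4 1 (.L 1) (.C 0 2 32 1
  (.L 1) (.G 74 5 1 216078 216078 108039 [.n, .g 64 11 11 0, .g 64 13 13 0,
  .n]))) (.C 0 2 4 1 (.L 1) (.C 0 1 1 16 (.C 1 2 1 4 (.C 1 2 2 1 (.L 1) (.C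
  0 1 8 1 (.C 0 2 4 1 (.L 1) (.G 54 1 1 16 33 8 [.g 64 1 0 0, .n, .n, .g 64
  53 0 0, .g 1 4 45425 0, .g 1 5 46009 0])) (.G 214 1 1 935 467 234 [.g 1 2
  1352 0, .g 4 5 7674 0, .g 7 33 0 0, .n]))) (.C 0 2 1 2 (.C 0 2 2 1 (.C 0 1
  4 1 (.L 1) (.T 16 1 (.G 249 5 1 8388607 4194304 4194304 [.g 32 13 0 0, .g
  256 1 2 0, .n, .n, .g 32 0 1 0]) (.G 1 36 2 1716 858 858 [.n, .g 4 1 0 0,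
  .n, .n]))) (.T 16 1 (.T 32 1 (.O 4) (.C 1 2 1 2 (.G 216 5 1 296087 296087
  592173 [.n, .n, .g 32 15 0 0, .n, .n]) (.O 4))) (.G 1 36 2 563 563 281
  [.n, .g 64 15 0 0, .n, .n]))) (.T 16 1 (.C 1 2 1 8 (.C 0 2 4 1 (.T 32 1
  (.O 4) (.T 1 2 (.O 4) (.C 1 2 4 1 (.G 55 412 4 126 251 2011 [.g 1 0 556 0,
  .g 1 0 1066 0, .n, .n, .n]) (.O 4)))) (.L 59)) (.O 4)) (.T 1 2 (.C 0 2 1 4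
  (.T 2 1 (.G 1 216 2 150335 300671 300671 [.n, .g 3 7 0 0, .n, .n]) (.L
  74)) (.G 36 75 2 1 1 1 [.n, .n, .g 1 0 799 0, .n])) (.L 24))))) (.C 1 2 8
  1 (.L 40) (.C 0 2 1 4 (.C 0 2 2 1 (.L 29) (.G 55 29 1 400575 50072 200288
  [.g 4096 925 330 0, .g 64 11 21 0, .n, .n, .g 64 11 0 0])) (.T 16 1 (.L
  59) (.G 91 100 3 232 58 29 [.n, .n, .g 3 5 3730 0, .g 16 9 0 0]))))))) (.C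
  1 2 1 2 (.L 25) (.O 4))) (.L 24)) (.L 45)) (.L 6)) (.C 0 1 4 1 (.T 1 2 (.T
  2 1 (.L 7) (.T 1 2 (.C 1 2 2 1 (.L 33) (.L 16)) (.L 48))) (.T 1 4 (.C 1 2
  2 1 (.L 2) (.C 1 2 1 2 (.L 2) (.L 9))) (.C 0 1 8 1 (.C 1 2 1 1 (.C 1 2 2 1
  (.T 1 8 (.L 2) (.C 1 2 4 1 (.T 1 16 (.L 42) (.C 1 2 8 1 (.L 80) (.L 120)))
  (.T 1 16 (.L 206) (.O 4)))) (.T 1 8 (.C 1 2 1 2 (.L 17) (.L 9)) (.O 4)))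
  (.O 4)) (.L 27)))) (.C 1 2 4 1 (.C 0 1 1 2 (.T 1 2 (.L 4) (.L 10)) (.C 1 2
  8 1 (.C 0 1 1 4 (.L 8) (.T 1 2 (.L 11) (.L 14))) (.L 8))) (.T 1 2 (.G 7 57
  2 6 22 11 [.n, .n, .g 64 29 0 0, .g 61 64 0 0]) (.L 10))))) (.C 0 2 1 2
  (.T 1 1 (.T 2 1 (.C 1 2 8 1 (.T 4 1 (.T 8 1 (.C 0 1 1 4 (.C 0 1 2 1 (.O 4)
  (.L 25)) (.C 0 1 1 8 (.C 1 2 1 1 (.C 0 1 2 1 (.T 16 1 (.O 4) (.G 384 47 0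
  6 24 24 [.g 64 31 0 0, .n, .g 64 29 0 0, .g 17 2 4158 0])) (.G 85 176 3
  1250 625 1250 [.n, .g 3 1 68 0, .g 64 33 0 0, .n])) (.G 244 360 3 15750
  63000 31500 [.n, .n, .n, .g 8 5 0 0])) (.L 40))) (.L 24)) (.G 177 251 4 1
  1 1 [.n, .n, .g 1 0 1635 0, .n, .n])) (.G 480 66 3 1 1 1 [.n, .n, .g 8192
  1 0 0, .n, .g 64 0 45 0, .n])) (.L 6)) (.C 0 1 1 4 (.G 4 70 3 31 61 61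
  [.n, .n, .g 32 15 0 0, .g 16 5 0 0]) (.C 1 2 8 1 (.C 0 1 1 8 (.L 20) (.C 1
  2 16 1 (.T 1 2 (.L 11) (.L 14)) (.L 20))) (.L 23)))) (.C 0 2 1 4 (.T 1 1
  (.T 2 1 (.T 4 1 (.G 44 246 3 1 1 1 [.n, .g 2 13 4366 0, .n, .n]) (.L 30))
  (.C 0 2 2 1 (.L 6) (.L 35))) (.C 0 1 1 8 (.L 10) (.C 1 2 16 1 (.T 1 2 (.L
  7) (.L 14)) (.L 10)))) (.C 0 2 1 8 (.T 1 1 (.L 18) (.C 0 1 1 16 (.L 10)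
  (.T 1 2 (.L 11) (.L 14)))) (.L 28))))) (.C 0 2 8 1 (.T 1 1 (.T 2 1 (.T 4 1
  (.T 8 1 (.C 1 2 4 1 (.C 0 1 4 1 (.C 1 2 4 1 (.L 1) (.C 0 2 32 1 (.L 1) (.C
  1 2 1 2 (.L 1) (.T 16 1 (.O 4) (.G 198 145 0 95823 191646 47912 [.g 8 0 3
  0, .g 64 0 31 0, .n, .n]))))) (.C 0 2 4 1 (.L 1) (.C 1 2 8 1 (.C 0 1 1 16
  (.C 1 2 1 2 (.L 1) (.C 0 2 1 1 (.L 1) (.L 29))) (.L 29)) (.C 0 2 1 2 (.C 0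
  1 1 1 (.L 1) (.C 1 2 2 1 (.T 16 1 (.G 89 29 1 2 1 4 [.g 29 1 16486 0, .g
  11 1 3987 0, .n, .n, .g 1 1 58805 0, .g 1 1 57117 0]) (.C 0 1 1 2 (.T 1 2
  (.C 0 1 2 1 (.L 138) (.G 124 488 1 1 1 1 [.n, .n, .g 25 63 0 0, .n])) (.L
  24)) (.C 0 1 1 4 (.T 1 2 (.G 143 69 2 152 304 152 [.g 25 64 0 0, .n, .n,
  .n]) (.L 24)) (.C 1 2 4 1 (.L 163) (.T 1 2 (.C 0 2 1 2 (.L 105) (.G 134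
  948 4 854 427 213 [.n, .g 7 16 0 0, .n, .n])) (.L 24)))))) (.C 0 2 1 1 (.C
  1 2 1 1 (.G 138 1 1 2 4 7 [.g 62 2 4119 0, .n, .n, .n, .g 1 1 21678 0, .g
  1 1 22185 0]) (.L 1)) (.T 16 1 (.G 32 5 1 62 62 31 [.g 35 1 8108 0, .n,
  .n, .n, .n, .g 4 31 0 0]) (.C 1 2 1 2 (.C 0 1 1 1 (.L 1) (.C 1 2 2 1 (.G 1
  138 0 122 61 245 [.n, .g 64 39 0 0, .n, .n]) (.G 1 445 7 1 2 1 [.n, .g 13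
  16 0 0, .n, .n]))) (.L 1)))))) (.T 16 1 (.C 0 1 1 2 (.C 1 2 1 8 (.T 32 1
  (.O 4) (.C 1 2 2 1 (.C 0 1 2 1 (.O 4) (.G 32 242 1 1 1 1 [.g 32 1 0 0, .n,
  .n, .n, .n, .g 9 62 0 0])) (.O 4))) (.O 4)) (.C 0 1 1 4 (.C 0 2 1 8 (.T 32
  1 (.O 4) (.G 32 212 4 7 14 14 [.n, .g 95 2 4112 0, .n, .n, .n, .g 8 5 0
  0])) (.L 59)) (.L 59))) (.C 0 1 1 2 (.C 0 1 2 1 (.T 1 2 (.C 1 2 1 16 (.C 0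
  2 8 1 (.B 2 4 1 (.C 0 1 4 1 (.G 198 1 1 365831 2926645 5853289 [.g 64 21
  12 0, .g 64 26 15 0, .n, .n]) (.G 1 184 0 399 199 797 [.n, .g 31 32 0 0,
  .n, .n])) (.L 1)) (.G 184 121 4 1 1 1 [.n, .g 1 0 1791 0, .n, .n, .g 2 65
  0 0, .g 1 26 0 0, .n, .n])) (.G 157 308 3 232345 1858761 58086 [.n, .g 256
  0 97 0, .n, .n])) (.L 24)) (.T 1 2 (.G 237 36 2 1 1 1 [.n, .n, .n, .n, .g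
  1 29 0 0, .g 2 71 0 0]) (.L 180))) (.C 1 2 1 2 (.C 0 1 1 4 (.T 1 2 (.G 134
  317 1 145 289 72 [.n, .g 15 32 0 0, .n, .n]) (.L 24)) (.L 85)) (.G 75 89 0
  1 1 1 [.n, .g 19 32 0 0, .g 8 2 3983 0])))))))) (.C 1 2 1 2 (.L 25) (.O
  4))) (.L 24)) (.L 45)) (.L 6)) (.C 0 1 4 1 (.T 1 2 (.T 2 1 (.L 7) (.T 1 2
  (.C 1 2 2 1 (.L 4) (.L 16)) (.L 48))) (.T 1 4 (.C 1 2 2 1 (.L 2) (.C 1 2 1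
  2 (.L 2) (.L 9))) (.C 0 1 8 1 (.C 1 2 1 1 (.C 1 2 2 1 (.T 1 8 (.L 2) (.C 1
  2 4 1 (.T 1 16 (.L 42) (.C 1 2 8 1 (.L 80) (.L 96))) (.T 1 16 (.L 38) (.O
  4)))) (.T 1 8 (.T 2 1 (.L 2) (.L 50)) (.O 4))) (.O 4)) (.L 78)))) (.C 1 2
  4 1 (.C 0 1 1 2 (.T 1 2 (.L 4) (.L 10)) (.C 1 2 8 1 (.C 0 1 1 4 (.L 8) (.T
  1 2 (.L 4) (.L 14))) (.L 8))) (.T 1 2 (.G 7 57 2 6 22 11 [.n, .n, .g 64 31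
  0 0, .g 29 32 0 0]) (.L 10))))) (.C 0 2 1 2 (.T 1 1 (.T 2 1 (.C 1 2 8 1
  (.C 0 1 1 4 (.C 0 1 2 1 (.G 227 99 0 1 1 1 [.n, .n, .n, .g 1 0 1938 0, .g
  43 5 131664 0]) (.C 0 1 1 2 (.G 244 104 2 7 14 7 [.n, .n, .n, .g 31 65 0
  0]) (.T 4 1 (.G 168 24 0 361289 90322 180644 [.n, .n, .n, .g 3 65 11 0])
  (.L 61)))) (.C 0 1 1 8 (.T 4 1 (.T 8 1 (.C 1 2 1 1 (.C 0 2 4 1 (.T 16 1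
  (.L 150) (.G 67 157 1 603634 1207267 4829069 [.g 29 32 0 0, .g 128 0 1 0,
  .n, .n, .g 6 273 4 0, .g 22 1039 15 0])) (.C 0 1 1 4 (.B 2 4 1 (.C 0 2 1 2
  (.G 477 142 3 38657 77315 77315 [.g 128 1 0 0, .g 1024 17 284 0, .n, .n,
  .g 6 1 248 0, .g 5 1 235 0]) (.L 40)) (.G 207 176 3 4078 8157 2039 [.n, .g
  45 11 1016 0, .g 4 1 68 0, .n])) (.L 40))) (.G 348 322 2 10125 40501 20251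
  [.n, .n, .n, .g 45 22 64 0, .g 64 31 27 0, .n])) (.L 24)) (.L 61)) (.L
  39))) (.G 508 44 1 1 1 1 [.n, .n, .g 64 0 49 0, .n, .n, .g 16384 1 0 0]))
  (.L 6)) (.C 0 1 1 4 (.G 4 215 0 61 122 122 [.n, .n, .g 3 1 3528 0, .g 5 2
  4135 0]) (.C 1 2 8 1 (.C 0 1 1 8 (.L 20) (.T 1 2 (.L 26) (.L 14))) (.L
  23)))) (.C 0 2 1 4 (.T 1 1 (.T 2 1 (.T 4 1 (.G 182 60 1 1 1 1 [.n, .n, .n,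
  .g 19 2 4079 0]) (.L 30)) (.C 0 2 2 1 (.L 6) (.L 35))) (.C 0 1 1 8 (.L 10)
  (.C 1 2 16 1 (.T 1 2 (.L 7) (.L 14)) (.L 10)))) (.C 0 2 1 8 (.T 1 1 (.L
  18) (.C 0 1 1 16 (.L 10) (.T 1 2 (.L 11) (.L 14)))) (.L 28)))))) (.B 0 2 1
  (.C 0 2 8 1 (.T 1 1 (.T 2 1 (.T 4 1 (.T 8 1 (.C 1 2 4 1 (.C 0 1 4 1 (.C 1
  2 4 1 (.L 1) (.C 0 2 32 1 (.L 1) (.G 248 1 1 292143 292143 146071 [.g 64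
  13 11 0, .g 256 21 9 0, .n, .n]))) (.C 0 2 4 1 (.L 1) (.C 0 1 1 16 (.C 1 2
  1 4 (.L 1) (.C 0 2 1 2 (.L 1) (.T 16 1 (.L 59) (.T 1 2 (.G 349 124 2 117
  233 29 [.g 64 7 0 0, .g 5 2 3881 0, .g 28 1 4048 0, .g 1 0 165 0]) (.L
  413))))) (.C 1 2 8 1 (.L 29) (.C 0 2 1 4 (.G 118 29 1 94594 47297 189189
  [.g 32 13 0 0, .n, .n, .g 32 6 7 0, .g 32 9 0 0]) (.T 16 1 (.L 37) (.G 67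
  118 2 1746353 436588 218294 [.g 29 65 0 0, .g 32 0 1 0, .g 3 67 0 0, .g 3
  70 0 0, .n, .n]))))))) (.C 1 2 1 2 (.C 1 2 2 1 (.C 1 2 4 1 (.T 16 1 (.O 4)
  (.L 342)) (.O 4)) (.O 4)) (.O 4))) (.L 15)) (.L 21)) (.L 6)) (.C 0 1 4 1
  (.T 1 2 (.T 2 1 (.L 7) (.T 1 2 (.C 1 2 2 1 (.L 33) (.L 16)) (.L 16))) (.T
  1 4 (.C 1 2 2 1 (.L 2) (.C 1 2 1 2 (.L 2) (.L 9))) (.C 0 1 8 1 (.C 1 2 1 1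
  (.T 1 8 (.C 1 2 2 1 (.L 2) (.T 2 1 (.L 2) (.L 50))) (.C 1 2 2 1 (.C 1 2 4
  1 (.T 1 16 (.L 42) (.C 1 2 8 1 (.L 80) (.L 96))) (.T 1 16 (.L 38) (.O 4)))
  (.O 4))) (.O 4)) (.L 3)))) (.C 1 2 4 1 (.C 0 1 1 2 (.G 62 234 3 1 1 1 [.g
  8 3 0 0, .n, .n, .n]) (.C 1 2 8 1 (.C 0 1 1 4 (.L 8) (.T 1 2 (.L 4) (.L
  14))) (.L 8))) (.C 1 2 1 2 (.L 3) (.T 1 2 (.G 7 62 1 7 60 15 [.n, .n, .g 1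
  0 2191 0, .g 1 1 2853 0]) (.L 10)))))) (.C 0 2 1 2 (.T 1 1 (.T 2 1 (.C 0 1
  1 4 (.C 0 1 2 1 (.L 127) (.C 1 2 1 1 (.C 1 2 2 1 (.C 0 1 1 2 (.G 86 227 4
  1 1 1 [.n, .n, .n, .g 1 0 2113 0]) (.T 4 1 (.G 229 103 0 4 1 4 [.n, .g 1 2
  1835 0, .g 64 57 0 0]) (.L 61))) (.L 181)) (.L 127))) (.T 4 1 (.T 8 1 (.C
  1 2 8 1 (.C 0 1 1 8 (.C 1 2 1 1 (.C 0 1 2 1 (.T 16 1 (.O 4) (.T 1 2 (.C 0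
  2 4 1 (.T 2 1 (.L 341) (.L 91)) (.G 285 350 2 172501 86251 86251 [.g 32 21
  0 0, .g 13 16 0 0, .n, .n])) (.L 198))) (.G 294 39 3 581 290 581 [.g 64 47
  8 0, .g 64 5 0 0, .n, .g 10 2 249 0])) (.C 1 2 1 2 (.G 480 692 2 9889
  39554 79109 [.n, .n, .g 64 13 6 0, .n, .g 29 6 32 0, .n]) (.G 161 451 2
  57801 462409 115602 [.n, .n, .n, .g 49 63 19 0]))) (.L 31)) (.C 0 2 1 1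
  (.C 0 2 2 1 (.C 0 2 4 1 (.G 322 451 2 44440 88880 355521 [.n, .n, .g 3 72
  4 0, .n]) (.O 4)) (.O 4)) (.O 4))) (.L 15)) (.L 30))) (.L 6)) (.C 0 1 1 4
  (.G 4 27 2 41 81 81 [.n, .n, .g 3 1 4687 0, .g 4 1 4425 0]) (.C 1 2 8 1
  (.C 0 1 1 8 (.L 20) (.T 1 2 (.L 26) (.L 14))) (.L 23)))) (.C 0 2 1 4 (.T 1
  1 (.T 2 1 (.G 31 44 1 1 1 1 [.n, .n, .n, .g 72 2 4115 0]) (.C 0 2 2 1 (.L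
  6) (.L 49))) (.C 0 1 1 8 (.L 10) (.C 1 2 16 1 (.T 1 2 (.L 7) (.L 14)) (.L
  10)))) (.C 0 2 1 8 (.T 1 1 (.L 18) (.T 1 2 (.L 284) (.L 14))) (.L 28)))))
  (.C 0 2 8 1 (.T 1 1 (.T 2 1 (.T 4 1 (.T 8 1 (.C 1 2 4 1 (.C 0 1 4 1 (.C 1
  2 4 1 (.L 1) (.C 0 2 32 1 (.L 1) (.G 1 68 3 292143 292143 146071 [.n, .g 6
  61 5 0, .n, .n]))) (.C 0 2 4 1 (.L 1) (.C 0 1 1 16 (.C 1 2 1 4 (.L 1) (.C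
  0 2 1 2 (.L 1) (.T 16 1 (.L 59) (.T 1 2 (.G 100 36 2 80 160 20 [.n, .n, .g
  1 0 198 0, .g 207 68 131299 0, .n]) (.L 156))))) (.C 1 2 8 1 (.L 84) (.C 0
  2 1 4 (.G 118 29 1 94594 47297 189189 [.g 32 13 0 0, .n, .n, .g 32 6 7 0,
  .g 32 9 0 0]) (.G 107 85 1 202 50 25 [.g 259 13 16373 0, .n, .g 3 2 3872
  0, .g 32 5 0 0])))))) (.C 1 2 1 2 (.L 25) (.O 4))) (.L 15)) (.L 21)) (.L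
  6)) (.C 0 1 4 1 (.T 1 2 (.T 2 1 (.L 7) (.T 1 2 (.C 1 2 2 1 (.L 33) (.L
  16)) (.L 16))) (.T 1 4 (.C 1 2 2 1 (.L 2) (.C 1 2 1 2 (.L 2) (.L 9))) (.C
  0 1 8 1 (.C 1 2 1 1 (.T 1 8 (.C 1 2 2 1 (.L 2) (.C 1 2 1 2 (.L 17) (.L
  9))) (.C 1 2 2 1 (.C 1 2 4 1 (.T 1 16 (.L 42) (.C 1 2 8 1 (.L 80) (.L
  120))) (.T 1 16 (.L 206) (.O 4))) (.O 4))) (.O 4)) (.L 3)))) (.C 1 2 4 1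
  (.C 0 1 1 2 (.G 62 320 0 1 1 1 [.g 32 21 0 0, .n, .n, .n]) (.C 1 2 8 1 (.C
  0 1 1 4 (.L 8) (.T 1 2 (.L 4) (.L 14))) (.L 8))) (.C 1 2 1 2 (.L 3) (.T 1
  2 (.G 7 3 3 7 54 13 [.n, .n, .g 1 0 2436 0, .g 1 1 3000 0]) (.L 10))))))
  (.C 0 2 1 2 (.T 1 1 (.T 2 1 (.C 0 1 1 4 (.G 210 86 3 1 1 1 [.g 1 0 2614 0,
  .n, .n, .g 1 0 2721 0]) (.T 4 1 (.T 8 1 (.C 1 2 8 1 (.C 0 1 1 8 (.C 1 2 1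
  1 (.C 0 1 2 1 (.T 16 1 (.O 4) (.G 509 68 3 2 8 8 [.g 64 1 0 0, .n, .g 32
  11 0 0, .g 56 3 8230 0])) (.G 178 84 3 2 1 2 [.g 32 23 0 0, .n, .n, .n]))
  (.G 470 24 0 20044 80176 40088 [.g 32 19 0 0, .n, .n])) (.L 31)) (.C 0 2 1
  1 (.L 25) (.O 4))) (.L 15)) (.L 30))) (.L 6)) (.C 0 1 1 4 (.G 4 234 3 31
  63 63 [.n, .n, .g 32 13 0 0, .g 32 9 0 0]) (.C 1 2 8 1 (.C 0 1 1 8 (.L 20)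
  (.T 1 2 (.L 26) (.L 14))) (.L 23)))) (.C 0 2 1 4 (.T 1 1 (.T 2 1 (.T 4 1
  (.G 153 60 1 1 1 1 [.n, .n, .n, .g 110 2 4111 0]) (.L 30)) (.C 0 2 2 1 (.L
  6) (.L 35))) (.C 0 1 1 8 (.L 10) (.C 1 2 16 1 (.T 1 2 (.L 7) (.L 14)) (.L
  10)))) (.C 0 2 1 8 (.T 1 1 (.L 18) (.C 0 1 1 16 (.L 10) (.C 1 2 32 1 (.T 1
  2 (.L 52) (.L 14)) (.L 10)))) (.L 28))))))) (by decide +kernel)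

theorem CS3_c2 : CoF CSTab ⟨⟨360, 360, 20000⟩, ⟨2656, 2774, 80000⟩, ⟨1995,
  1995, 40000⟩, ⟨0, 1⟩, ⟨2, 1⟩, ⟨1, 0, 0⟩, ⟨0, 1, 0⟩, ⟨0, 1, 1⟩⟩ :=
CoF.ofG CSTab_B CSBt_E CSBt_U (.B 2 1 2 (.B 1 1 2 (.C 0 2 8 1 (.C 0 1 4 1
  (.B 2 1 2 (.T 1 1 (.T 2 1 (.C 1 2 2 1 (.T 4 1 (.T 8 1 (.C 1 2 4 1 (.L 1)
  (.L 19)) (.L 22)) (.L 92)) (.C 0 1 32 1 (.C 0 1 64 1 (.C 0 1 128 1 (.C 0 1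
  256 1 (.C 0 2 16 1 (.C 1 2 1 16 (.C 0 1 512 1 (.C 0 2 1024 1 (.C 1 2 2 1
  (.C 1 2 4 1 (.L 19) (.L 264)) (.O 4)) (.G 820 83 1 8388607 4194304 4194304
  [.g 9 65 2 0, .g 27 63 2 0, .n, .n, .n])) (.G 494 324 1 8388607 4194304
  8388607 [.g 64 12 1 0, .n, .g 1 192 21 0, .g 1 202 23 0, .n, .n, .n, .n]))
  (.O 4)) (.C 1 2 1 32 (.G 45 388 0 262144 4194304 8388607 [.n, .n, .g 15 0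
  64 0, .g 14 0 65 0, .n, .n, .g 10 0 61 0, .g 5 0 33 0]) (.O 4))) (.G 41 34
  1 8388607 4194304 262144 [.g 256 12 1 0, .n, .g 1 85 6 0, .g 1 89 6 0, .n,
  .n])) (.G 101 147 1 8388607 4194304 524288 [.g 64 1 0 0, .n, .g 2 83 0 0,
  .g 1 44 0 0, .n, .n, .n, .n])) (.G 113 46 1 8388607 4194304 1048576 [.n,
  .n, .g 2 83 0 0, .g 1 44 0 0, .n, .n])) (.G 101 149 1 6621194 3310597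
  1655299 [.n, .n, .g 2 81 0 0, .g 1 43 0 0, .n, .n, .n, .n]))) (.L 6)) (.C
  0 1 8 1 (.T 1 2 (.T 2 1 (.L 4) (.T 1 2 (.C 1 2 1 1 (.L 4) (.L 2)) (.L
  16))) (.T 1 4 (.C 1 2 1 1 (.L 2) (.L 9)) (.C 1 2 1 1 (.C 1 2 2 1 (.T 1 8
  (.L 2) (.C 1 2 4 1 (.T 1 16 (.L 42) (.C 1 2 8 1 (.L 80) (.L 96))) (.T 1 16
  (.L 206) (.O 4)))) (.T 1 8 (.T 2 1 (.L 2) (.L 50)) (.O 4))) (.O 4)))) (.T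
  1 2 (.G 63 4 3 7 4 7 [.g 32 19 0 0, .g 16 3 0 0, .n, .n]) (.L 27)))) (.B 1
  4 1 (.B 1 8 1 (.L 323) (.B 2 1 8 (.B 1 1 2 (.L 428) (.T 1 1 (.T 2 1 (.C 1
  2 2 1 (.T 4 1 (.T 8 1 (.C 1 2 4 1 (.L 1) (.L 19)) (.L 22)) (.L 92)) (.C 0
  1 32 1 (.C 0 1 64 1 (.C 0 1 128 1 (.C 0 2 16 1 (.C 0 1 256 1 (.C 0 2 32 1
  (.C 0 1 512 1 (.C 1 2 1 16 (.C 1 2 2 1 (.C 0 1 1024 1 (.C 1 2 2 1 (.L 19)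
  (.L 264)) (.G 73 300 1 4194304 2097152 8388607 [.n, .n, .g 2 1053 59 0, .g
  2 1093 61 0, .n, .n])) (.O 4)) (.O 4)) (.G 101 34 1 8388607 4194304 524288
  [.n, .n, .g 1 41 0 0, .g 1 44 0 0, .n, .n, .n, .n])) (.G 34 125 3 267320
  2138558 133660 [.n, .g 64 11 5 0, .n, .n])) (.G 101 34 1 8388607 4194304
  524288 [.n, .n, .g 1 41 0 0, .g 1 43 0 0, .n, .n, .n, .n])) (.G 34 125 3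
  130105 1040838 65052 [.n, .g 64 11 5 0, .n, .n])) (.G 113 83 1 8388607
  4194304 524288 [.n, .n, .g 2 83 0 0, .g 1 44 0 0, .n, .n])) (.G 41 204 1
  8388607 4194304 1048576 [.n, .n, .g 1 87 1 0, .g 1 92 1 0, .n, .n])) (.G
  113 83 1 6683199 3341599 1670800 [.n, .n, .g 2 83 0 0, .g 1 44 0 0, .n,
  .n]))) (.L 6)) (.C 0 1 8 1 (.T 1 2 (.T 2 1 (.L 4) (.T 1 2 (.C 1 2 1 1 (.L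
  4) (.L 2)) (.L 16))) (.T 1 4 (.C 1 2 1 1 (.L 2) (.L 9)) (.C 1 2 1 1 (.T 1
  8 (.C 1 2 2 1 (.L 2) (.T 2 1 (.L 2) (.L 50))) (.C 1 2 2 1 (.C 1 2 4 1 (.T
  1 16 (.L 42) (.C 1 2 8 1 (.L 80) (.L 96))) (.T 1 16 (.L 38) (.O 4))) (.O
  4))) (.O 4)))) (.T 1 2 (.G 63 4 3 7 4 7 [.g 16 9 0 0, .g 64 11 0 0, .n,
  .n]) (.L 27))))) (.L 323))) (.T 1 1 (.T 2 1 (.C 1 2 2 1 (.T 4 1 (.T 8 1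
  (.C 1 2 4 1 (.L 1) (.L 19)) (.L 22)) (.L 92)) (.C 0 1 32 1 (.C 0 1 64 1
  (.C 0 1 128 1 (.C 0 1 256 1 (.C 0 2 16 1 (.C 0 1 512 1 (.C 1 2 1 32 (.C 0
  2 2048 1 (.C 0 2 4096 1 (.C 0 1 1024 1 (.C 1 2 4 1 (.C 0 1 2048 1 (.C 1 2
  4 1 (.L 19) (.L 264)) (.G 73 34 1 2097152 1048576 8388607 [.n, .n, .g 1
  605 93 0, .g 2 1257 192 0, .n, .n])) (.O 4)) (.G 101 376 1 2097152 1048576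
  8388607 [.n, .n, .g 1 223 0 0, .g 1 235 0 0, .n, .n, .n, .n])) (.G 125 65
  1 8388607 1048576 4194304 [.n, .n, .n, .g 12 63 40 0])) (.G 185 34 1
  8388607 2097152 4194304 [.n, .n, .n, .g 11 66 9 0])) (.O 4)) (.G 73 34 1
  8388607 4194304 262144 [.n, .n, .g 2 81 0 0, .g 2 85 0 0, .n, .n])) (.G 92
  388 0 524288 8388607 262144 [.n, .g 64 0 1 0, .g 7 0 61 0, .g 7 0 64 0,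
  .n, .n])) (.G 41 204 1 8388607 4194304 262144 [.n, .n, .g 1 85 6 0, .g 1
  89 6 0, .n, .n])) (.G 113 136 1 8388607 4194304 524288 [.n, .n, .g 2 83 0
  0, .g 1 44 0 0, .n, .n])) (.G 41 65 1 8388607 4194304 1048576 [.n, .n, .g
  1 87 1 0, .g 1 92 1 0, .n, .n])) (.G 113 46 1 6683660 3341830 1670915 [.n,
  .n, .g 2 83 0 0, .g 1 44 0 0, .n, .n]))) (.L 6)) (.C 0 1 8 1 (.T 1 2 (.T 2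
  1 (.L 4) (.T 1 2 (.C 1 2 1 1 (.L 4) (.L 2)) (.L 16))) (.T 1 4 (.C 1 2 1 1
  (.L 2) (.L 9)) (.C 1 2 1 1 (.T 1 8 (.C 1 2 2 1 (.L 2) (.T 2 1 (.L 2) (.L
  50))) (.C 1 2 2 1 (.C 1 2 4 1 (.T 1 16 (.L 42) (.C 1 2 8 1 (.L 80) (.L
  96))) (.T 1 16 (.L 38) (.O 4))) (.O 4))) (.O 4)))) (.T 1 2 (.G 63 4 3 7 4
  7 [.g 64 37 0 0, .g 16 3 0 0, .n, .n]) (.L 27)))))) (.T 1 1 (.T 2 1 (.T 4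
  1 (.T 8 1 (.C 0 2 2 1 (.C 0 2 4 1 (.L 1) (.C 1 2 8 1 (.L 1) (.G 128 79 0
  50865 50865 25433 [.g 32 0 11 0, .n, .n, .n]))) (.C 1 2 4 1 (.T 16 1 (.L
  238) (.L 22)) (.C 1 2 1 2 (.L 19) (.O 4)))) (.L 22)) (.L 30)) (.L 6)) (.C
  1 2 4 1 (.C 0 1 1 2 (.L 27) (.C 1 2 8 1 (.C 0 1 1 4 (.L 8) (.T 1 2 (.L 4)
  (.L 14))) (.L 8))) (.L 114)))) (.C 0 2 1 2 (.T 1 1 (.T 2 1 (.C 1 2 8 1 (.T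
  4 1 (.C 0 1 1 4 (.G 224 346 3 3 6 11 [.g 11 1 8324 0, .n, .n, .n]) (.G 22
  199 3 537 67 1074 [.g 9 5 67 0, .n, .n, .n])) (.L 30)) (.G 148 44 1 1 1 1
  [.g 1 2 5366 0, .n, .n, .n, .n])) (.L 6)) (.C 0 1 1 4 (.L 23) (.C 1 2 8 1
  (.C 0 1 1 8 (.L 20) (.T 1 2 (.L 26) (.L 14))) (.L 23)))) (.C 0 2 1 4 (.T 1
  1 (.G 114 11 3 1 1 1 [.g 1 66 0 0, .g 1 40 0 0, .g 5 61 0 0, .g 1 0 77 0,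
  .n]) (.C 0 1 1 8 (.L 10) (.C 1 2 16 1 (.T 1 2 (.L 7) (.L 14)) (.L 10))))
  (.C 0 2 1 8 (.T 1 1 (.L 18) (.C 0 1 1 16 (.L 10) (.C 1 2 32 1 (.T 1 2 (.L
  52) (.L 14)) (.L 10)))) (.L 28))))) (.C 0 2 8 1 (.T 1 1 (.T 2 1 (.T 4 1
  (.T 8 1 (.C 1 2 4 1 (.C 0 1 4 1 (.C 1 2 4 1 (.L 1) (.C 0 2 32 1 (.L 1) (.G
  126 1 1 317247 317247 158624 [.g 256 3 2 0, .n, .n, .n]))) (.C 0 2 4 1 (.L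
  1) (.C 1 2 8 1 (.G 368 1 1 2160 135 2160 [.n, .n, .n, .g 17 63 0 0]) (.T
  16 1 (.C 0 2 1 2 (.C 0 1 1 1 (.L 1) (.L 37)) (.L 37)) (.L 53))))) (.C 1 2
  1 2 (.L 46) (.O 4))) (.L 15)) (.B 2 2 1 (.C 0 2 16 1 (.L 21) (.L 41)) (.L
  41))) (.L 6)) (.C 0 1 4 1 (.C 0 1 8 1 (.T 1 2 (.T 2 1 (.L 4) (.T 1 2 (.C 1
  2 1 1 (.L 4) (.L 2)) (.L 16))) (.T 1 4 (.C 1 2 1 1 (.L 2) (.L 9)) (.C 1 2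
  1 1 (.C 1 2 2 1 (.T 1 8 (.L 2) (.C 1 2 4 1 (.T 1 16 (.L 42) (.C 1 2 8 1
  (.L 80) (.L 96))) (.T 1 16 (.L 38) (.O 4)))) (.T 1 8 (.T 2 1 (.L 2) (.L
  50)) (.O 4))) (.O 4)))) (.T 1 2 (.G 78 26 1 13 7 13 [.g 32 7 0 0, .n, .g
  32 25 0 0, .g 4 1 0 0]) (.L 63))) (.C 1 2 4 1 (.C 0 1 1 2 (.L 27) (.C 1 2
  8 1 (.C 0 1 1 4 (.L 8) (.T 1 2 (.L 4) (.L 14))) (.L 8))) (.C 1 2 1 2 (.L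
  3) (.T 1 2 (.G 7 482 1 6 49 12 [.n, .n, .g 2 0 5255 0, .g 2 1 4851 0]) (.L
  10)))))) (.C 0 2 1 2 (.T 1 1 (.T 2 1 (.C 1 2 8 1 (.T 4 1 (.C 0 1 1 4 (.G
  97 208 0 9783 19566 39133 [.g 64 7 10 0, .n, .n, .n]) (.C 0 1 1 8 (.G 31
  200 0 210 420 420 [.n, .n, .n, .g 15 128 1042 0]) (.L 11))) (.L 30)) (.G
  82 60 1 1 1 1 [.n, .n, .n, .g 2 5 13124 0, .n])) (.L 6)) (.C 0 1 1 4 (.G 4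
  234 3 32 64 64 [.n, .n, .g 64 25 0 0, .g 64 17 0 0]) (.C 1 2 8 1 (.C 0 1 1
  8 (.L 20) (.T 1 2 (.L 26) (.L 14))) (.L 23)))) (.C 0 2 1 4 (.T 1 1 (.T 2 1
  (.G 94 231 3 1 1 1 [.n, .n, .g 1 21 395 0, .n]) (.C 0 2 2 1 (.L 6) (.L
  49))) (.C 0 1 1 8 (.L 10) (.C 1 2 16 1 (.T 1 2 (.L 7) (.L 14)) (.L 10))))
  (.C 0 2 1 8 (.T 1 1 (.L 18) (.C 0 1 1 16 (.L 10) (.C 1 2 32 1 (.T 1 2 (.L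
  52) (.L 14)) (.L 10)))) (.L 28)))))) (.B 0 4 1 (.L 460) (.L 460)))
  (by decide +kernel)

theorem CS3_c3 : CoF CSTab ⟨⟨2656, 2774, 80000⟩, ⟨1936, 2054, 40000⟩, ⟨1995,
  1995, 40000⟩, ⟨0, 1⟩, ⟨2, 1⟩, ⟨1, 0, 0⟩, ⟨0, 1, 0⟩, ⟨0, 1, 1⟩⟩ :=
CoF.ofG CSTab_B CSBt_E CSBt_U (.B 2 2 1 (.B 0 1 4 (.C 0 2 8 1 (.T 1 1 (.T 2
  1 (.T 4 1 (.T 8 1 (.C 1 2 4 1 (.C 0 1 4 1 (.C 1 2 4 1 (.L 1) (.C 0 2 32 1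
  (.L 1) (.G 43 126 0 47162 47162 23581 [.g 3 68 6 0, .n, .n, .n]))) (.C 0 2
  4 1 (.L 1) (.C 1 2 8 1 (.G 196 1 1 2821 176 2821 [.n, .n, .n, .g 20 63 0
  0]) (.T 16 1 (.C 0 2 1 2 (.G 240 79 0 161855 161855 323710 [.n, .n, .g 10
  65 4 0, .n, .n]) (.L 37)) (.L 53))))) (.C 1 2 1 2 (.L 46) (.O 4))) (.L
  15)) (.C 0 2 16 1 (.L 21) (.L 41))) (.L 6)) (.C 0 1 4 1 (.C 0 1 8 1 (.T 1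
  2 (.T 2 1 (.L 4) (.T 1 2 (.C 1 2 1 1 (.L 4) (.L 2)) (.L 16))) (.T 1 4 (.C
  1 2 1 1 (.L 2) (.L 9)) (.C 1 2 1 1 (.T 1 8 (.C 1 2 2 1 (.L 2) (.T 2 1 (.L
  2) (.L 50))) (.C 1 2 2 1 (.C 1 2 4 1 (.T 1 16 (.L 42) (.C 1 2 8 1 (.L 80)
  (.L 120))) (.T 1 16 (.L 206) (.O 4))) (.O 4))) (.O 4)))) (.T 1 2 (.G 78 33
  1 15 7 15 [.g 64 17 0 0, .n, .g 64 49 0 0, .g 64 17 0 0]) (.L 63))) (.C 1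
  2 4 1 (.C 0 1 1 2 (.L 27) (.C 1 2 8 1 (.C 0 1 1 4 (.L 8) (.T 1 2 (.L 4)
  (.L 14))) (.L 8))) (.C 1 2 1 2 (.L 3) (.T 1 2 (.G 4 27 2 8 66 16 [.n, .n,
  .g 1 0 1097 0, .g 4 1 4629 0]) (.L 10)))))) (.C 0 2 1 2 (.T 1 1 (.T 2 1
  (.C 1 2 8 1 (.T 4 1 (.C 0 1 1 4 (.G 226 126 0 4782 9565 19129 [.g 16 0 5
  0, .n, .n, .n]) (.C 0 1 1 8 (.G 31 162 0 347 695 695 [.n, .n, .n, .g 1 11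
  73 0]) (.L 11))) (.L 30)) (.G 148 44 1 1 1 1 [.g 3 56 136002 0, .n, .n,
  .n, .n])) (.L 6)) (.C 0 1 1 4 (.G 4 234 3 32 64 64 [.n, .n, .g 64 25 0 0,
  .g 64 17 0 0]) (.C 1 2 8 1 (.C 0 1 1 8 (.L 20) (.T 1 2 (.L 26) (.L 14)))
  (.L 23)))) (.C 0 2 1 4 (.T 1 1 (.T 2 1 (.G 94 231 3 1 1 1 [.n, .n, .g 1 25
  440 0, .n]) (.C 0 2 2 1 (.L 6) (.L 49))) (.C 0 1 1 8 (.L 10) (.C 1 2 16 1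
  (.T 1 2 (.L 7) (.L 14)) (.L 10)))) (.C 0 2 1 8 (.T 1 1 (.L 18) (.C 0 1 1
  16 (.L 10) (.T 1 2 (.L 52) (.L 14)))) (.L 28))))) (.C 0 2 8 1 (.T 1 1 (.T
  2 1 (.T 4 1 (.T 8 1 (.C 1 2 4 1 (.C 0 1 4 1 (.C 1 2 4 1 (.L 1) (.C 0 2 32
  1 (.L 1) (.G 236 126 0 8221 8221 4110 [.g 16 1 1 0, .n, .n, .n]))) (.C 0 2
  4 1 (.L 1) (.C 1 2 8 1 (.G 111 1 1 3890 243 3890 [.n, .n, .n, .g 20 63 0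
  0]) (.T 16 1 (.C 0 2 1 2 (.G 162 249 0 157199 157199 314398 [.g 64 12 5 0,
  .n, .n, .n]) (.L 37)) (.L 53))))) (.C 1 2 1 2 (.L 46) (.O 4))) (.L 15))
  (.L 21)) (.L 6)) (.C 0 1 4 1 (.C 0 1 8 1 (.T 1 2 (.T 2 1 (.L 7) (.T 1 2
  (.C 1 2 1 1 (.L 4) (.L 2)) (.L 16))) (.T 1 4 (.C 1 2 1 1 (.L 2) (.L 9))
  (.C 1 2 1 1 (.T 1 8 (.C 1 2 2 1 (.L 2) (.T 2 1 (.L 17) (.L 50))) (.C 1 2 2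
  1 (.C 1 2 4 1 (.T 1 16 (.L 42) (.C 1 2 8 1 (.L 80) (.L 120))) (.T 1 16 (.L
  71) (.O 4))) (.O 4))) (.O 4)))) (.T 1 2 (.G 78 33 1 15 7 15 [.g 64 17 0 0,
  .n, .g 4 3 0 0, .g 64 17 0 0]) (.L 63))) (.C 1 2 4 1 (.C 0 1 1 2 (.L 27)
  (.C 1 2 8 1 (.C 0 1 1 4 (.L 8) (.T 1 2 (.L 4) (.L 14))) (.L 8))) (.C 1 2 1
  2 (.L 3) (.T 1 2 (.G 7 70 3 4 30 7 [.n, .n, .g 1 0 4313 0, .g 2 1 8373 0])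
  (.L 10)))))) (.C 0 2 1 2 (.T 1 1 (.T 2 1 (.C 1 2 8 1 (.T 4 1 (.C 0 1 1 4
  (.G 79 236 0 3229 6457 12915 [.g 64 0 19 0, .n, .n, .n]) (.C 0 1 1 8 (.G
  111 200 0 280 560 560 [.n, .n, .n, .g 5 43 259 0]) (.L 11))) (.L 30)) (.G
  60 104 2 1 1 1 [.n, .g 3 4 9694 0, .n])) (.L 6)) (.C 0 1 1 4 (.G 4 269 3
  64 128 128 [.n, .n, .g 1 1 1763 0, .g 3 2 3964 0]) (.C 1 2 8 1 (.C 0 1 1 8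
  (.L 20) (.T 1 2 (.L 26) (.L 14))) (.L 23)))) (.C 0 2 1 4 (.T 1 1 (.T 2 1
  (.G 94 328 3 1 1 1 [.n, .n, .g 1 15 443 0, .n]) (.C 0 2 2 1 (.L 6) (.L
  49))) (.C 0 1 1 8 (.L 10) (.C 1 2 16 1 (.T 1 2 (.L 7) (.L 14)) (.L 10))))
  (.C 0 2 1 8 (.T 1 1 (.L 18) (.C 0 1 1 16 (.L 10) (.T 1 2 (.L 52) (.L
  14)))) (.L 28)))))) (.B 0 1 2 (.C 0 2 8 1 (.T 1 1 (.T 2 1 (.T 4 1 (.T 8 1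
  (.C 1 2 4 1 (.C 0 1 4 1 (.C 1 2 4 1 (.L 1) (.C 1 2 1 2 (.L 1) (.L 19)))
  (.C 0 2 4 1 (.L 1) (.C 1 2 8 1 (.G 31 1 1 3365 210 3365 [.n, .n, .n, .g 25
  63 0 0]) (.T 16 1 (.L 238) (.L 22))))) (.C 1 2 1 2 (.L 19) (.O 4))) (.L
  22)) (.L 41)) (.L 6)) (.C 0 1 4 1 (.C 0 1 8 1 (.T 1 2 (.T 2 1 (.L 4) (.T 1
  2 (.C 1 2 1 1 (.L 4) (.L 2)) (.L 16))) (.T 1 4 (.C 1 2 1 1 (.L 2) (.L 9))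
  (.C 1 2 1 1 (.T 1 8 (.C 1 2 2 1 (.L 2) (.T 2 1 (.L 2) (.L 50))) (.C 1 2 2
  1 (.C 1 2 4 1 (.T 1 16 (.L 42) (.C 1 2 8 1 (.L 80) (.L 120))) (.T 1 16 (.L
  206) (.O 4))) (.O 4))) (.O 4)))) (.T 1 2 (.G 63 4 3 7 4 7 [.g 32 19 0 0,
  .g 16 3 0 0, .n, .n]) (.L 27))) (.C 1 2 4 1 (.C 0 1 1 2 (.L 27) (.C 1 2 8
  1 (.C 0 1 1 4 (.L 8) (.T 1 2 (.L 4) (.L 14))) (.L 8))) (.L 114)))) (.C 0 2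
  1 2 (.T 1 1 (.T 2 1 (.C 1 2 8 1 (.T 4 1 (.C 0 1 1 4 (.G 209 236 0 2015
  4030 8060 [.g 9 259 11 0, .n, .n, .n]) (.G 31 22 0 396 49 792 [.n, .n, .n,
  .g 4 7 67 0])) (.L 30)) (.G 104 44 1 1 1 1 [.n, .n, .g 4 3 8992 0, .n,
  .n])) (.L 6)) (.C 0 1 1 4 (.L 23) (.C 1 2 8 1 (.C 0 1 1 8 (.L 20) (.T 1 2
  (.L 26) (.L 14))) (.L 23)))) (.C 0 2 1 4 (.T 1 1 (.G 114 11 3 1 1 1 [.g 1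
  66 0 0, .g 1 40 0 0, .g 5 61 0 0, .g 1 0 77 0, .n]) (.C 0 1 1 8 (.L 10)
  (.C 1 2 16 1 (.T 1 2 (.L 7) (.L 14)) (.L 10)))) (.C 0 2 1 8 (.T 1 1 (.L
  18) (.C 0 1 1 16 (.L 10) (.T 1 2 (.L 52) (.L 14)))) (.L 28))))) (.C 0 2 8
  1 (.T 1 1 (.T 2 1 (.T 4 1 (.T 8 1 (.C 1 2 4 1 (.C 0 1 4 1 (.C 1 2 4 1 (.L
  1) (.C 0 2 32 1 (.L 1) (.G 128 93 0 74853 74853 37426 [.g 64 5 23 0, .n,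
  .n, .n]))) (.C 0 2 4 1 (.L 1) (.C 1 2 8 1 (.G 31 1 1 3365 210 3365 [.n,
  .n, .n, .g 9 32 0 0]) (.T 16 1 (.C 0 2 1 2 (.C 0 1 1 1 (.L 1) (.L 37)) (.L
  37)) (.L 53))))) (.C 1 2 1 2 (.L 46) (.O 4))) (.L 15)) (.C 0 2 16 1 (.L
  21) (.L 41))) (.L 6)) (.C 0 1 4 1 (.C 0 1 8 1 (.T 1 2 (.T 2 1 (.L 7) (.T 1
  2 (.C 1 2 1 1 (.L 4) (.L 2)) (.L 16))) (.T 1 4 (.C 1 2 1 1 (.L 2) (.L 9))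
  (.C 1 2 1 1 (.T 1 8 (.C 1 2 2 1 (.L 2) (.T 2 1 (.L 17) (.L 50))) (.C 1 2 2
  1 (.C 1 2 4 1 (.T 1 16 (.L 42) (.C 1 2 8 1 (.L 80) (.L 120))) (.T 1 16 (.L
  71) (.O 4))) (.O 4))) (.O 4)))) (.T 1 2 (.G 78 33 1 15 7 15 [.g 8 2 269 0,
  .n, .g 4 3 0 0, .g 64 17 0 0]) (.L 63))) (.C 1 2 4 1 (.C 0 1 1 2 (.L 27)
  (.C 1 2 8 1 (.C 0 1 1 4 (.L 8) (.T 1 2 (.L 4) (.L 14))) (.L 8))) (.C 1 2 1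
  2 (.L 3) (.T 1 2 (.G 7 114 3 38 301 75 [.n, .n, .g 1 0 428 0, .g 2 1 847
  0]) (.L 10)))))) (.C 0 2 1 2 (.T 1 1 (.T 2 1 (.C 1 2 8 1 (.T 4 1 (.C 0 1 1
  4 (.G 110 97 0 2646 5292 10584 [.g 64 9 9 0, .n, .n, .n]) (.C 0 1 1 8 (.G
  128 43 0 9163 18326 18326 [.g 64 0 27 0, .n, .n, .n]) (.L 11))) (.L 30))
  (.G 44 148 0 1 1 1 [.n, .g 3 1 8751 0, .n, .n])) (.L 6)) (.C 0 1 1 4 (.G 4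
  234 3 32 64 64 [.n, .n, .g 64 25 0 0, .g 64 17 0 0]) (.C 1 2 8 1 (.C 0 1 1
  8 (.L 20) (.T 1 2 (.L 26) (.L 14))) (.L 23)))) (.C 0 2 1 4 (.T 1 1 (.T 2 1
  (.G 94 564 3 1 1 1 [.n, .n, .g 1 7 412 0, .n]) (.C 0 2 2 1 (.L 6) (.L
  49))) (.C 0 1 1 8 (.L 10) (.C 1 2 16 1 (.T 1 2 (.L 7) (.L 14)) (.L 10))))
  (.C 0 2 1 8 (.T 1 1 (.L 18) (.C 0 1 1 16 (.L 10) (.T 1 2 (.L 52) (.L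
  14)))) (.L 28))))))) (by decide +kernel)

theorem CS3_c4 : CoF CSTab ⟨⟨5206, 5324, 80000⟩, ⟨11510, 12100, 160000⟩,
  ⟨1635, 1635, 20000⟩, ⟨0, 1⟩, ⟨2, 1⟩, ⟨1, 0, 0⟩, ⟨0, 1, 0⟩, ⟨0, 1, 1⟩⟩ :=
CoF.ofG CSTab_B CSBt_E CSBt_U (.B 2 4 1 (.B 1 1 8 (.C 0 2 8 1 (.T 1 1 (.T 2
  1 (.T 4 1 (.T 8 1 (.C 1 2 4 1 (.C 0 1 4 1 (.C 1 2 4 1 (.L 1) (.C 0 2 32 1
  (.L 1) (.G 74 1 1 249445 249445 124722 [.n, .g 64 11 11 0, .g 64 13 13 0,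
  .n]))) (.C 0 2 4 1 (.L 1) (.C 1 2 8 1 (.C 0 1 1 16 (.G 1 29 1 65780 131560
  65780 [.n, .g 13 32 0 0, .n, .n]) (.L 152)) (.C 0 2 1 2 (.C 0 1 1 1 (.L 1)
  (.C 1 2 2 1 (.T 16 1 (.G 32 29 1 6 3 11 [.n, .g 205 3 8184 0, .n, .n, .n,
  .g 1 1 478 0]) (.C 0 1 1 2 (.G 214 1 1 28 55 55 [.g 2 1 0 0, .n, .g 35 64
  0 0, .n]) (.C 1 2 4 1 (.L 142) (.G 36 202 2 771 1543 771 [.n, .n, .n, .g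
  41 64 0 0])))) (.C 0 2 1 1 (.G 54 1 1 2 3 3 [.n, .n, .n, .g 64 35 0 0, .g
  1 0 42721 0, .g 1 0 42639 0]) (.T 16 1 (.G 5 32 0 4200 4200 2100 [.n, .g 2
  1 135 0, .n, .n]) (.G 54 1 1 2 2 1 [.g 32 1 0 0, .n, .g 7 8 0 0, .g 13 21
  0 0, .n, .n]))))) (.T 16 1 (.C 0 1 1 2 (.C 1 2 1 8 (.T 32 1 (.O 4) (.G 229
  32 0 1 1 1 [.n, .n, .g 1 11 3067 0])) (.O 4)) (.G 240 406 1 115841 28960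
  14480 [.n, .n, .n, .g 64 11 0 0, .n])) (.C 0 1 1 2 (.T 1 2 (.C 0 1 2 1 (.C
  1 2 1 16 (.G 184 1 1 46 185 371 [.g 32 63 0 0, .g 1 0 1702 0, .n, .n, .n,
  .n, .n, .n]) (.G 168 278 0 240740 1925923 60185 [.n, .n, .n, .g 4 59 23
  0])) (.L 54)) (.L 121)) (.G 36 55 1 219 55 27 [.g 256 1 0 0, .n, .g 12 13
  16478 0, .g 64 15 0 0]))))))) (.C 1 2 1 2 (.L 25) (.O 4))) (.L 24)) (.L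
  45)) (.L 6)) (.C 0 1 4 1 (.T 1 2 (.T 2 1 (.L 7) (.C 1 2 2 1 (.L 7) (.L
  16))) (.T 1 4 (.C 1 2 2 1 (.L 2) (.C 1 2 1 2 (.L 2) (.L 9))) (.C 0 1 8 1
  (.C 1 2 1 1 (.T 1 8 (.C 1 2 2 1 (.L 2) (.T 2 1 (.L 17) (.L 50))) (.C 1 2 2
  1 (.C 1 2 4 1 (.T 1 16 (.L 42) (.C 1 2 8 1 (.L 80) (.L 120))) (.T 1 16 (.L
  71) (.O 4))) (.O 4))) (.O 4)) (.L 78)))) (.C 1 2 4 1 (.C 0 1 1 2 (.T 1 2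
  (.L 4) (.L 10)) (.C 1 2 8 1 (.C 0 1 1 4 (.L 8) (.T 1 2 (.L 386) (.L 14)))
  (.L 8))) (.T 1 2 (.G 4 57 2 7 27 13 [.n, .n, .g 64 19 0 0, .g 32 17 0 0])
  (.L 10))))) (.C 0 2 1 2 (.T 1 1 (.T 2 1 (.C 1 2 8 1 (.T 4 1 (.T 8 1 (.C 0
  1 1 4 (.G 166 397 1 1 1 1 [.n, .g 1 0 2606 0, .n, .n]) (.C 0 1 1 8 (.C 1 2
  1 1 (.C 0 2 4 1 (.G 91 194 3 14 28 113 [.g 14 2 4109 0, .n, .g 1 0 1099 0,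
  .g 32 5 0 0]) (.G 171 152 3 1 1 1 [.g 23 63 0 0, .g 21 65 0 0, .g 1 8 1833
  0, .n])) (.G 980 168 3 27973 111892 55946 [.n, .g 16 7 9 0, .n, .g 64 31 6
  0])) (.L 40))) (.L 24)) (.G 160 432 0 1 1 1 [.n, .g 1 9 13951 0, .n, .n]))
  (.G 485 66 3 1 1 1 [.g 7 2 16477 0, .g 1 2 5713 0, .n, .n])) (.L 6)) (.C 0
  1 1 4 (.G 4 20 2 22 44 44 [.n, .n, .g 64 27 0 0, .g 32 9 0 0]) (.C 1 2 8 1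
  (.C 0 1 1 8 (.L 20) (.T 1 2 (.L 26) (.L 14))) (.L 23)))) (.C 0 2 1 4 (.T 1
  1 (.T 2 1 (.T 4 1 (.G 44 141 3 1 1 1 [.n, .g 2 5 4243 0, .n, .n]) (.L 30))
  (.T 1 2 (.L 169) (.L 6))) (.C 0 1 1 8 (.L 10) (.C 1 2 16 1 (.T 1 2 (.L 7)
  (.L 14)) (.L 10)))) (.C 0 2 1 8 (.T 1 1 (.L 18) (.C 0 1 1 16 (.L 10) (.T 1
  2 (.L 11) (.L 14)))) (.L 28))))) (.B 2 8 1 (.L 189) (.C 0 2 8 1 (.T 1 1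
  (.T 2 1 (.T 4 1 (.T 8 1 (.C 1 2 4 1 (.C 0 1 4 1 (.C 1 2 4 1 (.L 1) (.C 0 2
  32 1 (.L 1) (.G 158 1 1 249496 249496 124748 [.g 256 46 43 0, .g 64 13 12
  0, .n, .n, .n]))) (.C 0 2 4 1 (.L 1) (.C 1 2 8 1 (.C 0 1 1 16 (.G 29 1 1
  65780 131560 65780 [.n, .g 32 13 0 0, .n, .n]) (.L 152)) (.C 0 2 1 2 (.C 0
  1 1 1 (.L 1) (.C 1 2 2 1 (.T 16 1 (.G 32 250 1 7 3 13 [.n, .g 64 1 0 0,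
  .n, .n, .n, .g 16 15 0 0]) (.C 0 1 1 2 (.G 123 1 1 35 70 70 [.g 64 21 0 0,
  .g 2 5 0 0, .n, .n, .n, .n]) (.G 29 55 0 431616 107904 431616 [.n, .g 1 28
  0 0, .n, .n]))) (.C 0 2 1 1 (.G 175 1 1 1 2 2 [.n, .n, .n, .n, .g 1 0
  39576 0, .g 1 0 42645 0, .n, .g 19 32 0 0]) (.T 16 1 (.G 1 32 0 4176 4176
  2088 [.n, .g 3 1 277 0, .n, .n]) (.T 1 2 (.G 132 1 1 3 3 1 [.g 32 1 0 0,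
  .n, .n, .g 29 32 0 0, .n, .n]) (.L 121)))))) (.T 16 1 (.C 0 1 1 2 (.C 1 2
  1 8 (.T 32 1 (.O 4) (.C 1 2 2 1 (.T 1 2 (.O 4) (.G 32 486 0 1 1 1 [.g 1 0
  371 0, .n, .n, .n, .n, .n])) (.O 4))) (.O 4)) (.G 240 59 0 110119 27530
  13765 [.n, .n, .n, .g 64 11 0 0, .n])) (.C 0 1 1 2 (.T 1 2 (.C 0 1 2 1 (.C
  1 2 1 16 (.C 0 2 8 1 (.G 1 252 1 114783 459130 1836521 [.n, .g 131 256 86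
  0, .n, .n]) (.G 184 121 4 1 1 1 [.n, .g 3 2 8266 0, .n, .n, .n, .n, .n,
  .n])) (.G 24 157 1 232345 1858761 58086 [.g 2 1261 480 0, .n, .n])) (.G
  170 36 2 1 1 1 [.n, .n, .n, .n, .n, .g 1 24 0 0])) (.L 121)) (.G 448 55 1
  30 7 4 [.g 1 0 1604 0, .n, .g 64 43 0 0, .n]))))))) (.C 1 2 1 2 (.L 25)
  (.O 4))) (.L 24)) (.L 45)) (.L 6)) (.C 0 1 4 1 (.T 1 2 (.T 2 1 (.L 7) (.C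
  1 2 2 1 (.L 7) (.L 16))) (.T 1 4 (.C 1 2 2 1 (.L 2) (.C 1 2 1 2 (.L 2) (.L
  9))) (.C 0 1 8 1 (.C 1 2 1 1 (.C 1 2 2 1 (.T 1 8 (.L 2) (.C 1 2 4 1 (.T 1
  16 (.L 42) (.C 1 2 8 1 (.L 80) (.L 120))) (.T 1 16 (.L 206) (.O 4)))) (.T
  1 8 (.C 1 2 1 2 (.L 17) (.L 9)) (.O 4))) (.O 4)) (.L 78)))) (.C 1 2 4 1
  (.C 0 1 1 2 (.T 1 2 (.L 4) (.L 10)) (.C 1 2 8 1 (.C 0 1 1 4 (.L 8) (.T 1 2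
  (.L 386) (.L 14))) (.L 8))) (.T 1 2 (.G 7 57 2 6 22 11 [.n, .n, .g 64 31 0
  0, .g 15 16 0 0]) (.L 10))))) (.C 0 2 1 2 (.T 1 1 (.T 2 1 (.C 1 2 8 1 (.T
  4 1 (.T 8 1 (.C 0 1 1 4 (.G 365 205 1 1 1 1 [.n, .g 7 22 70391 0, .n, .n,
  .n]) (.C 0 1 1 8 (.C 1 2 1 1 (.C 0 2 4 1 (.G 91 194 3 14 28 114 [.g 7 1
  2047 0, .n, .g 4 1 4409 0, .g 8 1 0 0]) (.G 171 142 3 1 1 1 [.g 19 32 0 0,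
  .g 7 13 0 0, .g 1 5 1849 0, .n])) (.G 377 724 0 14991 59963 29982 [.n, .n,
  .g 64 29 0 0, .g 64 31 0 0])) (.L 40))) (.L 24)) (.G 187 82 2 1 1 1 [.n,
  .n, .g 1 1 2962 0, .n])) (.G 414 66 3 1 1 1 [.n, .g 8192 1 0 0, .n, .n,
  .n, .g 32 0 23 0])) (.L 6)) (.C 0 1 1 4 (.G 4 234 3 30 61 61 [.n, .n, .g
  64 27 0 0, .g 64 19 0 0]) (.C 1 2 8 1 (.C 0 1 1 8 (.L 20) (.T 1 2 (.L 26)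
  (.L 14))) (.L 23)))) (.C 0 2 1 4 (.T 1 1 (.T 2 1 (.T 4 1 (.G 40 168 3 47 6
  93 [.n, .n, .n, .g 3 3 940 0]) (.L 30)) (.T 1 2 (.L 169) (.L 6))) (.C 0 1
  1 8 (.L 10) (.C 1 2 16 1 (.T 1 2 (.L 7) (.L 14)) (.L 10)))) (.C 0 2 1 8
  (.T 1 1 (.L 18) (.C 0 1 1 16 (.L 10) (.T 1 2 (.L 11) (.L 14)))) (.L
  28))))))) (.B 0 2 1 (.C 0 2 8 1 (.T 1 1 (.T 2 1 (.T 4 1 (.T 8 1 (.C 1 2 4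
  1 (.C 0 1 4 1 (.C 1 2 4 1 (.L 1) (.C 0 2 32 1 (.L 1) (.G 74 5 1 223726
  223726 111863 [.n, .g 64 11 11 0, .g 64 13 13 0, .n]))) (.C 0 2 4 1 (.L 1)
  (.C 0 1 1 16 (.C 1 2 1 4 (.C 1 2 2 1 (.L 1) (.C 0 1 8 1 (.C 0 2 4 1 (.L 1)
  (.G 54 1 1 20 41 10 [.g 64 1 0 0, .n, .n, .g 31 32 0 0, .g 1 5 44929 0, .g
  1 6 45332 0])) (.G 134 1 1 1155 578 289 [.g 2 3 3837 0, .g 8 61 0 0, .n,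
  .g 1 3 1495 0]))) (.C 0 2 1 2 (.C 0 2 2 1 (.C 0 1 4 1 (.L 1) (.T 16 1 (.G
  32 1 1 358 179 179 [.g 14 1 4029 0, .n, .n, .n, .g 26 63 0 0, .g 2 21 0
  0]) (.G 1 36 2 2555 1278 1278 [.n, .g 32 5 0 0, .n, .n]))) (.T 16 1 (.T 32
  1 (.O 4) (.C 1 2 1 2 (.G 5 216 2 320185 320185 640370 [.n, .g 15 32 0 0,
  .n, .n]) (.O 4))) (.G 36 1 1 739 739 370 [.n, .n, .g 11 63 0 0, .n]))) (.T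
  16 1 (.C 1 2 1 8 (.T 32 1 (.O 4) (.C 1 2 2 1 (.T 1 2 (.O 4) (.G 55 229 2
  156 313 1251 [.g 1 0 448 0, .g 1 0 858 0, .n, .n, .n])) (.O 4))) (.O 4))
  (.T 1 2 (.C 0 2 1 4 (.C 0 2 2 1 (.G 100 1 1 93239 186478 372955 [.n, .n,
  .g 31 32 3 0, .g 60 64 15 0, .n]) (.T 2 1 (.G 380 216 2 295043 147521
  147521 [.n, .g 52 63 11 0, .n, .n, .n]) (.L 74))) (.G 36 852 0 1 1 1 [.n,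
  .n, .g 1 0 799 0, .n])) (.L 24))))) (.C 1 2 8 1 (.L 40) (.C 1 2 1 2 (.C 1
  2 2 1 (.L 40) (.G 219 40 3 1 1 1 [.g 5 21 0 0, .n, .n, .n, .g 1 469 67942
  0, .g 1 621 79515 0])) (.T 16 1 (.G 212 5 1 236201 236201 59050 [.n, .n,
  .n, .n, .g 32 15 0 0]) (.C 0 2 1 4 (.G 340 89 1 1 1 1 [.g 6 13 0 0, .n,
  .n, .n, .n, .n]) (.G 124 105 3 238 119 30 [.n, .n, .g 1 1 933 0, .g 2 1 0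
  0])))))))) (.C 1 2 1 2 (.L 25) (.O 4))) (.L 24)) (.L 45)) (.L 6)) (.C 0 1
  4 1 (.T 1 2 (.T 2 1 (.L 7) (.T 1 2 (.C 1 2 2 1 (.L 33) (.L 16)) (.L 48)))
  (.T 1 4 (.C 1 2 2 1 (.L 2) (.C 1 2 1 2 (.L 2) (.L 9))) (.C 0 1 8 1 (.C 1 2
  1 1 (.C 1 2 2 1 (.T 1 8 (.L 2) (.C 1 2 4 1 (.T 1 16 (.L 42) (.C 1 2 8 1
  (.L 80) (.L 120))) (.T 1 16 (.L 206) (.O 4)))) (.T 1 8 (.C 1 2 1 2 (.L 17)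
  (.L 9)) (.O 4))) (.O 4)) (.L 27)))) (.C 1 2 4 1 (.C 0 1 1 2 (.T 1 2 (.L 4)
  (.L 10)) (.C 1 2 8 1 (.C 0 1 1 4 (.L 8) (.T 1 2 (.L 11) (.L 14))) (.L 8)))
  (.T 1 2 (.G 7 57 2 6 22 11 [.n, .n, .g 64 29 0 0, .g 61 64 0 0]) (.L
  10))))) (.C 0 2 1 2 (.T 1 1 (.T 2 1 (.C 1 2 8 1 (.T 4 1 (.T 8 1 (.C 0 1 1
  4 (.C 0 1 2 1 (.O 4) (.L 25)) (.C 0 1 1 8 (.C 1 2 1 1 (.C 0 2 4 1 (.T 16 1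
  (.L 37) (.G 67 47 0 295805 591610 2366438 [.g 47 64 0 0, .g 64 0 1 0, .n,
  .n, .g 9 271 6 0, .g 4 124 3 0])) (.G 207 176 3 4023 1006 2012 [.n, .g 10
  3 251 0, .g 4 1 73 0, .n])) (.G 188 24 0 18125 72500 36250 [.n, .g 64 21 0
  0, .g 2 1 0 0, .n])) (.L 40))) (.L 24)) (.G 177 160 1 1 1 1 [.n, .n, .g 1
  0 1019 0, .n, .n])) (.G 358 99 0 1 1 1 [.n, .n, .g 64 0 45 0, .n, .g 8192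
  1 0 0, .n])) (.L 6)) (.C 0 1 1 4 (.G 4 133 0 44 88 88 [.n, .n, .g 64 23 0
  0, .g 4 1 0 0]) (.C 1 2 8 1 (.C 0 1 1 8 (.L 20) (.T 1 2 (.L 26) (.L 14)))
  (.L 23)))) (.C 0 2 1 4 (.T 1 1 (.T 2 1 (.T 4 1 (.G 84 60 1 1 1 1 [.n, .n,
  .n, .g 5 2 3824 0]) (.L 30)) (.C 0 2 2 1 (.L 6) (.L 35))) (.C 0 1 1 8 (.L
  10) (.C 1 2 16 1 (.T 1 2 (.L 7) (.L 14)) (.L 10)))) (.C 0 2 1 8 (.T 1 1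
  (.L 18) (.C 0 1 1 16 (.L 10) (.T 1 2 (.L 11) (.L 14)))) (.L 28))))) (.C 0
  2 8 1 (.T 1 1 (.T 2 1 (.T 4 1 (.T 8 1 (.C 1 2 4 1 (.C 0 1 4 1 (.C 1 2 4 1
  (.L 1) (.C 0 2 32 1 (.L 1) (.G 47 5 1 223726 223726 111863 [.g 64 13 13 0,
  .n, .n, .g 256 1 1 0]))) (.C 0 2 4 1 (.L 1) (.C 1 2 8 1 (.C 0 1 1 16 (.G 1
  29 1 65780 131560 65780 [.n, .g 13 32 0 0, .n, .n]) (.L 40)) (.C 0 2 1 2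
  (.C 0 1 1 1 (.L 1) (.C 1 2 2 1 (.T 16 1 (.G 32 29 1 10 5 20 [.n, .g 170 5
  8196 0, .n, .n, .g 32 31 0 0, .g 31 32 0 0]) (.T 1 2 (.G 301 105 0 4194304
  2097152 8388607 [.n, .n, .n, .n, .g 1 20 0 0, .g 3 58 0 0, .n, .g 5 69 0
  0]) (.L 24))) (.T 16 1 (.G 132 5 1 1 2 1 [.g 46 1 65993 0, .g 1 0 629 0,
  .n, .g 1 1 158736 0, .n, .n]) (.G 1 36 2 117 233 117 [.n, .g 64 33 0 0,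
  .n, .n])))) (.T 16 1 (.C 0 1 1 2 (.C 1 2 1 8 (.T 32 1 (.O 4) (.G 54 596 3
  1 1 1 [.g 2 0 4737 0, .n, .n, .g 1 0 89171 0, .g 1 0 46093 0, .g 1 0 44634
  0])) (.O 4)) (.L 59)) (.C 0 1 1 2 (.T 1 2 (.C 0 1 2 1 (.C 1 2 1 16 (.G 916
  1 1 62 249 499 [.n, .g 153 37 131151 0, .g 6 5 17799 0, .n]) (.L 660)) (.L
  54)) (.L 228)) (.G 91 100 3 214 53 27 [.n, .n, .g 3 5 3728 0, .g 32 17 0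
  0]))))))) (.C 1 2 1 2 (.L 25) (.O 4))) (.L 24)) (.L 45)) (.L 6)) (.C 0 1 4
  1 (.T 1 2 (.T 2 1 (.L 7) (.T 1 2 (.C 1 2 2 1 (.L 4) (.L 16)) (.L 48))) (.T
  1 4 (.C 1 2 2 1 (.L 2) (.C 1 2 1 2 (.L 2) (.L 9))) (.C 0 1 8 1 (.C 1 2 1 1
  (.T 1 8 (.C 1 2 2 1 (.L 2) (.T 2 1 (.L 17) (.L 50))) (.C 1 2 2 1 (.C 1 2 4
  1 (.T 1 16 (.L 42) (.C 1 2 8 1 (.L 80) (.L 120))) (.T 1 16 (.L 71) (.O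
  4))) (.O 4))) (.O 4)) (.L 27)))) (.C 1 2 4 1 (.C 0 1 1 2 (.T 1 2 (.L 4)
  (.L 10)) (.C 1 2 8 1 (.C 0 1 1 4 (.L 8) (.T 1 2 (.L 11) (.L 14))) (.L 8)))
  (.T 1 2 (.G 4 57 2 7 27 13 [.n, .n, .g 32 9 0 0, .g 64 33 0 0]) (.L
  10))))) (.C 0 2 1 2 (.T 1 1 (.T 2 1 (.C 1 2 8 1 (.T 4 1 (.T 8 1 (.C 0 1 1
  4 (.G 166 788 0 1 1 1 [.n, .g 1 0 2636 0, .n, .n]) (.C 0 1 1 8 (.C 1 2 1 1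
  (.C 0 2 4 1 (.T 16 1 (.L 37) (.G 91 387 1 7 13 54 [.n, .n, .g 1 0 783 0,
  .g 32 13 0 0])) (.G 207 141 3 610 153 305 [.n, .g 2 1 338 0, .g 2 1 254 0,
  .n])) (.G 262 330 1 7288 29152 14576 [.g 1 48 0 0, .n, .n, .g 1 175 0 0]))
  (.L 40))) (.L 24)) (.G 432 104 1 1 1 1 [.g 2 2 4657 0, .n, .n, .n, .n]))
  (.G 532 99 0 1 1 1 [.g 1 3 6178 0, .n, .n, .g 16 9 0 0])) (.L 6)) (.C 0 1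
  1 4 (.G 4 186 2 60 120 120 [.n, .n, .g 64 29 0 0, .g 16 5 0 0]) (.C 1 2 8
  1 (.C 0 1 1 8 (.L 20) (.T 1 2 (.L 26) (.L 14))) (.L 23)))) (.C 0 2 1 4 (.T
  1 1 (.T 2 1 (.T 4 1 (.G 60 176 3 1 1 1 [.n, .g 2 43 4676 0, .n]) (.L 30))
  (.C 0 2 2 1 (.L 6) (.L 35))) (.C 0 1 1 8 (.L 10) (.C 1 2 16 1 (.T 1 2 (.L
  7) (.L 14)) (.L 10)))) (.C 0 2 1 8 (.T 1 1 (.L 18) (.C 0 1 1 16 (.L 10)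
  (.T 1 2 (.L 11) (.L 14)))) (.L 28))))))) (by decide +kernel)

theorem CS3_c5 : CoF CSTab ⟨⟨11510, 12100, 160000⟩, ⟨1576, 1694, 20000⟩,
  ⟨1635, 1635, 20000⟩, ⟨0, 1⟩, ⟨2, 1⟩, ⟨1, 0, 0⟩, ⟨0, 1, 0⟩, ⟨0, 1, 1⟩⟩ :=
CoF.ofG CSTab_B CSBt_E CSBt_U (.B 2 8 1 (.B 0 1 16 (.L 189) (.L 189)) (.B 0
  1 8 (.C 0 2 8 1 (.B 0 2 1 (.T 1 1 (.T 2 1 (.T 4 1 (.T 8 1 (.C 1 2 4 1 (.C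
  0 1 4 1 (.C 1 2 4 1 (.L 1) (.C 0 2 32 1 (.L 1) (.G 158 5 1 212050 212050
  106025 [.g 64 12 11 0, .g 64 13 13 0, .n, .n, .n]))) (.C 0 2 4 1 (.L 1)
  (.C 1 2 8 1 (.C 0 1 1 16 (.G 1 29 1 65780 131560 65780 [.n, .g 13 32 0 0,
  .n, .n]) (.L 152)) (.C 0 2 1 2 (.C 0 1 1 1 (.L 1) (.C 1 2 2 1 (.T 16 1 (.G
  32 250 1 8 4 16 [.n, .g 128 3 0 0, .n, .n, .n, .g 27 32 0 0]) (.C 0 1 1 2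
  (.G 214 1 1 30 60 60 [.g 32 17 0 0, .n, .g 1 2 0 0, .n]) (.C 1 2 4 1 (.L
  142) (.G 36 202 2 983 1966 983 [.n, .n, .n, .g 11 21 0 0])))) (.C 0 2 1 1
  (.G 175 1 1 1 2 2 [.n, .n, .n, .n, .g 1 0 38273 0, .g 1 0 41534 0, .n, .g
  39 64 0 0]) (.T 16 1 (.G 1 32 0 4488 4488 2244 [.n, .g 3 1 288 0, .n, .n])
  (.T 1 2 (.G 132 1 1 3 3 1 [.g 32 1 0 0, .n, .n, .g 61 64 0 0, .n, .n]) (.L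
  121)))))) (.T 16 1 (.C 0 1 1 2 (.C 1 2 1 8 (.T 32 1 (.O 4) (.C 1 2 2 1 (.T
  1 2 (.O 4) (.G 32 486 0 1 1 1 [.g 1 0 372 0, .n, .n, .n, .n, .n])) (.O
  4))) (.O 4)) (.G 240 406 1 91037 22759 11380 [.n, .n, .n, .g 64 13 0 0,
  .n])) (.C 0 1 1 2 (.T 1 2 (.C 0 1 2 1 (.C 1 2 1 16 (.G 184 1 1 43 172 345
  [.g 35 64 0 0, .g 1 0 1707 0, .n, .n, .n, .n, .n, .n]) (.G 252 168 3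
  172619 1380951 43155 [.n, .g 64 0 15 0, .n, .n])) (.G 170 36 2 1 1 1 [.n,
  .n, .n, .n, .n, .g 1 20 0 0])) (.L 121)) (.G 36 55 1 204 51 25 [.g 256 1 0
  0, .n, .g 1 1 1373 0, .g 32 7 0 0]))))))) (.C 1 2 1 2 (.L 25) (.O 4))) (.L
  24)) (.L 45)) (.L 6)) (.C 0 1 4 1 (.T 1 2 (.T 2 1 (.L 7) (.C 1 2 2 1 (.L
  7) (.L 16))) (.T 1 4 (.C 1 2 2 1 (.L 2) (.C 1 2 1 2 (.L 2) (.L 9))) (.C 0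
  1 8 1 (.C 1 2 1 1 (.T 1 8 (.C 1 2 2 1 (.L 2) (.C 1 2 1 2 (.L 17) (.L 9)))
  (.C 1 2 2 1 (.C 1 2 4 1 (.T 1 16 (.L 42) (.C 1 2 8 1 (.L 80) (.L 120)))
  (.T 1 16 (.L 71) (.O 4))) (.O 4))) (.O 4)) (.L 78)))) (.C 1 2 4 1 (.C 0 1
  1 2 (.T 1 2 (.L 4) (.L 10)) (.C 1 2 8 1 (.C 0 1 1 4 (.L 8) (.T 1 2 (.L
  386) (.L 14))) (.L 8))) (.C 1 2 1 2 (.T 1 2 (.L 4) (.L 10)) (.T 1 2 (.G 7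
  57 2 8 63 16 [.n, .n, .g 1 0 2005 0, .g 2 1 3549 0]) (.L 10)))))) (.B 0 1
  2 (.B 2 2 1 (.L 221) (.B 0 2 1 (.B 2 1 2 (.L 220) (.B 0 4 1 (.T 1 1 (.T 2
  1 (.T 4 1 (.T 8 1 (.C 1 2 4 1 (.C 0 1 4 1 (.C 1 2 4 1 (.L 1) (.C 0 2 32 1
  (.L 1) (.G 207 1 1 253594 253594 126797 [.n, .g 512 99 91 0, .g 64 10 7 0,
  .n]))) (.C 0 2 4 1 (.L 1) (.C 1 2 8 1 (.C 0 1 1 16 (.G 1 29 1 65780 131560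
  65780 [.n, .g 13 32 0 0, .n, .n]) (.L 40)) (.C 0 2 1 2 (.C 0 1 1 1 (.L 1)
  (.C 1 2 2 1 (.T 16 1 (.G 32 250 1 8 4 16 [.n, .g 128 3 0 0, .n, .n, .n, .g
  63 64 0 0]) (.C 0 1 1 2 (.G 214 1 1 30 60 60 [.g 64 41 0 0, .n, .g 32 63 0
  0, .n]) (.L 69))) (.C 0 2 1 1 (.G 175 1 1 1 2 2 [.n, .n, .n, .n, .g 1 0
  39364 0, .g 1 0 39557 0, .n, .g 41 65 0 0]) (.T 16 1 (.G 1 32 0 4449 4449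
  2225 [.n, .g 3 1 242 0, .n, .n]) (.T 1 2 (.G 132 1 1 3 3 1 [.g 32 1 0 0,
  .n, .n, .g 64 63 0 0, .n, .n]) (.L 121)))))) (.T 16 1 (.C 0 1 1 2 (.C 1 2
  1 8 (.T 32 1 (.O 4) (.C 1 2 2 1 (.T 1 2 (.O 4) (.G 32 261 0 1 1 1 [.g 1 0
  398 0, .n, .n, .n, .n, .n])) (.O 4))) (.O 4)) (.L 216)) (.C 0 1 1 2 (.T 1
  2 (.C 0 1 2 1 (.C 1 2 1 16 (.C 1 2 2 1 (.G 225 1 1 18 71 282 [.g 1 1 207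
  0, .n, .n, .n, .n, .n]) (.G 252 232 0 159146 2546333 1273166 [.n, .g 15 32
  18 0, .n, .n])) (.G 168 996 2 169625 1357003 42406 [.n, .n, .n, .g 45 64 0
  0])) (.G 170 36 2 1 1 1 [.n, .n, .n, .n, .n, .g 9 61 0 0])) (.L 121)) (.G
  124 100 3 211 53 26 [.n, .n, .g 1 1 1079 0, .g 32 17 0 0]))))))) (.C 1 2 1
  2 (.L 25) (.O 4))) (.L 24)) (.L 45)) (.L 6)) (.C 0 1 4 1 (.T 1 2 (.T 2 1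
  (.L 7) (.C 1 2 2 1 (.L 7) (.L 16))) (.T 1 4 (.C 1 2 2 1 (.L 2) (.C 1 2 1 2
  (.L 2) (.L 9))) (.C 0 1 8 1 (.C 1 2 1 1 (.C 1 2 2 1 (.T 1 8 (.L 2) (.C 1 2
  4 1 (.T 1 16 (.L 42) (.C 1 2 8 1 (.L 64) (.L 120))) (.T 1 16 (.L 71) (.O
  4)))) (.T 1 8 (.C 1 2 1 2 (.L 17) (.L 9)) (.O 4))) (.O 4)) (.L 27)))) (.C
  1 2 4 1 (.C 0 1 1 2 (.T 1 2 (.L 4) (.L 10)) (.C 1 2 8 1 (.C 0 1 1 4 (.L 8)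
  (.T 1 2 (.L 11) (.L 14))) (.L 8))) (.T 1 2 (.G 4 57 2 7 27 13 [.n, .n, .g
  64 19 0 0, .g 64 35 0 0]) (.L 10))))) (.L 220))) (.L 220))) (.L 221))) (.C
  0 2 1 2 (.T 1 1 (.T 2 1 (.C 0 1 1 4 (.G 210 86 3 1 1 1 [.g 2 0 4641 0, .n,
  .n, .g 1 0 2741 0]) (.T 4 1 (.T 8 1 (.C 1 2 8 1 (.C 0 1 1 8 (.C 1 2 1 1
  (.T 16 1 (.G 150 740 0 27752 55503 111007 [.n, .n, .g 64 3 46 0, .n]) (.C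
  1 2 2 1 (.G 67 194 3 639246 1278493 5113971 [.g 16 13 0 0, .g 128 0 1 0,
  .n, .n, .g 1 59 0 0, .g 1 62 0 0]) (.T 1 2 (.G 390 412 1 1 1 1 [.n, .n,
  .n, .g 1 1 1775 0]) (.L 24)))) (.G 188 24 0 16856 67424 33712 [.n, .g 64
  29 0 0, .g 64 31 0 0, .n])) (.L 40)) (.G 205 868 1 1 1 1 [.n, .g 1 0 3316
  0, .n, .n])) (.L 24)) (.L 30))) (.L 6)) (.C 0 1 1 4 (.G 4 70 3 30 61 61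
  [.n, .n, .g 64 31 0 0, .g 64 21 0 0]) (.C 1 2 8 1 (.C 0 1 1 8 (.L 20) (.T
  1 2 (.L 26) (.L 14))) (.L 23)))) (.C 0 2 1 4 (.T 1 1 (.T 2 1 (.T 4 1 (.G
  178 44 1 1 1 1 [.n, .n, .n, .g 5 2 3798 0]) (.L 30)) (.T 1 2 (.L 169) (.L
  6))) (.C 0 1 1 8 (.L 10) (.C 1 2 16 1 (.T 1 2 (.L 7) (.L 14)) (.L 10))))
  (.C 0 2 1 8 (.T 1 1 (.L 18) (.T 1 2 (.L 284) (.L 14))) (.L 28))))) (.L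
  189))) (by decide +kernel)

theorem CS3_c6 : CoF CSTab ⟨⟨1936, 2054, 40000⟩, ⟨5088, 5442, 80000⟩, ⟨5206,
  5324, 80000⟩, ⟨0, 1⟩, ⟨2, 1⟩, ⟨1, 0, 0⟩, ⟨0, 1, 0⟩, ⟨0, 1, 1⟩⟩ :=
CoF.ofG CSTab_B CSBt_E CSBt_U (.B 0 2 1 (.B 2 1 2 (.C 0 2 8 1 (.T 1 1 (.T 2
  1 (.T 4 1 (.T 8 1 (.C 1 2 4 1 (.C 0 1 4 1 (.C 1 2 4 1 (.L 1) (.C 0 2 32 1
  (.L 1) (.G 5 68 3 244495 244495 122248 [.n, .g 7 69 6 0, .n, .n]))) (.C 0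
  2 4 1 (.L 1) (.C 0 1 1 16 (.C 1 2 1 4 (.L 1) (.C 0 2 1 2 (.L 1) (.T 16 1
  (.L 59) (.T 1 2 (.C 0 2 1 4 (.G 1 124 2 55 109 109 [.n, .g 2 3 3365 0, .n,
  .n]) (.G 612 124 2 1 1 1 [.n, .n, .g 1 1 1790 0, .n])) (.L 156))))) (.C 1
  2 8 1 (.L 84) (.C 0 2 1 4 (.G 202 29 1 81031 40516 162062 [.n, .g 32 9 0
  0, .g 64 16 13 0, .g 64 4 13 0, .n]) (.T 16 1 (.L 37) (.G 67 118 2 1745161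
  436290 218145 [.g 4 9 0 0, .g 32 0 1 0, .g 3 67 0 0, .g 3 70 0 0, .n,
  .n]))))))) (.C 1 2 1 2 (.L 25) (.O 4))) (.L 15)) (.L 21)) (.L 6)) (.C 0 1
  4 1 (.T 1 2 (.T 2 1 (.L 7) (.T 1 2 (.C 1 2 2 1 (.L 33) (.L 16)) (.L 48)))
  (.T 1 4 (.C 1 2 2 1 (.L 2) (.C 1 2 1 2 (.L 2) (.L 9))) (.C 0 1 8 1 (.C 1 2
  1 1 (.T 1 8 (.C 1 2 2 1 (.L 2) (.C 1 2 1 2 (.L 17) (.L 9))) (.C 1 2 2 1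
  (.C 1 2 4 1 (.T 1 16 (.L 42) (.C 1 2 8 1 (.L 80) (.L 120))) (.T 1 16 (.L
  71) (.O 4))) (.O 4))) (.O 4)) (.L 3)))) (.C 1 2 4 1 (.C 0 1 1 2 (.G 62 247
  3 1 1 1 [.g 37 63 0 0, .n, .n, .n]) (.C 1 2 8 1 (.C 0 1 1 4 (.L 8) (.T 1 2
  (.L 11) (.L 14))) (.L 8))) (.C 1 2 1 2 (.L 3) (.T 1 2 (.G 7 62 1 7 59 15
  [.n, .n, .g 1 0 2232 0, .g 1 1 2829 0]) (.L 10)))))) (.C 0 2 1 2 (.T 1 1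
  (.T 2 1 (.C 0 1 1 4 (.G 86 366 3 1 1 1 [.n, .n, .n, .g 2 0 4187 0]) (.T 4
  1 (.T 8 1 (.C 1 2 8 1 (.C 0 1 1 8 (.C 1 2 1 1 (.C 0 1 2 1 (.T 16 1 (.O 4)
  (.G 384 74 2 5 21 21 [.g 64 27 0 0, .n, .g 64 27 0 0, .g 69 7 16491 0]))
  (.G 165 84 3 5 3 5 [.g 44 63 0 0, .n, .n, .n])) (.G 25 24 0 20036 80145
  40073 [.g 49 63 15 0, .n, .n])) (.L 31)) (.C 0 2 1 1 (.L 25) (.O 4))) (.L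
  15)) (.L 30))) (.L 6)) (.C 0 1 1 4 (.G 4 234 3 31 63 63 [.n, .n, .g 32 13
  0 0, .g 32 9 0 0]) (.C 1 2 8 1 (.C 0 1 1 8 (.L 20) (.T 1 2 (.L 26) (.L
  14))) (.L 23)))) (.C 0 2 1 4 (.T 1 1 (.T 2 1 (.G 44 39 3 1 1 1 [.n, .g 1
  10 2016 0, .n, .n]) (.C 0 2 2 1 (.L 6) (.L 35))) (.C 0 1 1 8 (.L 10) (.C 1
  2 16 1 (.T 1 2 (.L 7) (.L 14)) (.L 10)))) (.C 0 2 1 8 (.T 1 1 (.L 18) (.C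
  0 1 1 16 (.L 10) (.T 1 2 (.L 11) (.L 14)))) (.L 28))))) (.C 0 2 8 1 (.T 1
  1 (.T 2 1 (.T 4 1 (.T 8 1 (.C 1 2 4 1 (.C 0 1 4 1 (.C 1 2 4 1 (.L 1) (.C 0
  2 32 1 (.L 1) (.G 1 97 0 292105 292105 146052 [.n, .g 8 248 7 0, .n,
  .n]))) (.C 0 2 4 1 (.L 1) (.C 0 1 1 16 (.C 1 2 1 4 (.L 1) (.G 124 1 1 23
  92 11 [.g 14 3 8305 0, .n, .g 4 1 4494 0, .g 128 3 0 0])) (.C 1 2 8 1 (.L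
  31) (.C 0 2 1 4 (.G 39 1 1 1294 647 2588 [.n, .n, .n, .g 5 22 31 0]) (.T
  16 1 (.L 37) (.G 67 387 1 618454 154614 77307 [.g 1 7 0 0, .g 64 0 5 0,
  .n, .n, .n, .n]))))))) (.C 1 2 1 2 (.L 65) (.O 4))) (.L 15)) (.L 21)) (.L
  6)) (.C 0 1 4 1 (.T 1 2 (.T 2 1 (.L 7) (.T 1 2 (.C 1 2 2 1 (.L 33) (.L
  16)) (.L 16))) (.T 1 4 (.C 1 2 2 1 (.L 2) (.C 1 2 1 2 (.L 2) (.L 9))) (.C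
  0 1 8 1 (.C 1 2 1 1 (.T 1 8 (.C 1 2 2 1 (.L 2) (.T 2 1 (.L 17) (.L 50)))
  (.C 1 2 2 1 (.C 1 2 4 1 (.T 1 16 (.L 42) (.C 1 2 8 1 (.L 64) (.L 120)))
  (.T 1 16 (.L 71) (.O 4))) (.O 4))) (.O 4)) (.L 23)))) (.C 1 2 4 1 (.C 0 1
  1 2 (.L 27) (.C 1 2 8 1 (.C 0 1 1 4 (.L 8) (.T 1 2 (.L 4) (.L 14))) (.L
  8))) (.C 1 2 1 2 (.L 3) (.T 1 2 (.G 7 3 3 7 54 13 [.n, .n, .g 1 0 2450 0,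
  .g 1 1 2900 0]) (.L 10)))))) (.C 0 2 1 2 (.T 1 1 (.T 2 1 (.C 0 1 1 4 (.C 0
  1 2 1 (.L 190) (.C 1 2 1 1 (.C 1 2 2 1 (.C 0 1 1 2 (.G 217 104 2 1 1 1
  [.n, .g 1 0 1004 0, .n, .n, .n]) (.T 4 1 (.G 209 97 0 60816 15204 60816
  [.g 30 63 17 0, .n, .n, .n]) (.L 61))) (.L 181)) (.L 213))) (.T 4 1 (.T 8
  1 (.C 1 2 8 1 (.C 0 1 1 8 (.C 1 2 1 1 (.C 0 1 2 1 (.T 16 1 (.O 4) (.G 265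
  306 3 7608 30433 30433 [.g 64 21 0 0, .g 64 3 27 0, .n, .n, .n, .n])) (.L
  39)) (.G 932 161 3 10667 42670 21335 [.n, .n, .n, .n, .n, .g 47 17 64 0]))
  (.L 11)) (.C 0 2 1 1 (.L 65) (.O 4))) (.L 15)) (.L 30))) (.L 6)) (.C 0 1 1
  4 (.G 4 280 1 49 98 98 [.n, .n, .g 64 27 0 0, .g 64 19 0 0]) (.C 1 2 8 1
  (.C 0 1 1 8 (.L 20) (.T 1 2 (.L 26) (.L 14))) (.L 23)))) (.C 0 2 1 4 (.T 1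
  1 (.T 2 1 (.G 31 60 1 1 1 1 [.n, .n, .n, .g 96 2 4097 0]) (.C 0 2 2 1 (.L
  6) (.L 35))) (.C 0 1 1 8 (.L 10) (.C 1 2 16 1 (.T 1 2 (.L 7) (.L 14)) (.L
  10)))) (.C 0 2 1 8 (.T 1 1 (.L 18) (.C 0 1 1 16 (.L 10) (.T 1 2 (.L 52)
  (.L 14)))) (.L 28)))))) (.B 2 2 1 (.C 0 2 8 1 (.T 1 1 (.T 2 1 (.T 4 1 (.T
  8 1 (.C 1 2 4 1 (.C 0 1 4 1 (.C 1 2 4 1 (.L 1) (.C 0 2 32 1 (.L 1) (.G 5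
  47 0 237780 237780 118890 [.n, .g 13 64 12 0, .n, .n]))) (.C 0 2 4 1 (.L
  1) (.C 0 1 1 16 (.C 1 2 1 4 (.L 1) (.C 0 2 1 2 (.L 1) (.T 16 1 (.L 212)
  (.G 100 36 2 116 232 29 [.n, .n, .g 1 0 121 0, .g 36 9 16571 0, .n]))))
  (.C 1 2 8 1 (.L 84) (.C 0 2 1 4 (.G 118 29 1 95734 47867 191468 [.g 32 13
  0 0, .n, .n, .g 256 49 55 0, .g 32 9 0 0]) (.G 107 85 1 208 52 26 [.g 136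
  7 8206 0, .n, .g 3 2 3735 0, .g 64 11 0 0])))))) (.C 1 2 1 2 (.L 25) (.O
  4))) (.L 15)) (.L 21)) (.L 6)) (.C 0 1 4 1 (.T 1 2 (.T 2 1 (.L 7) (.T 1 2
  (.C 1 2 2 1 (.L 33) (.L 16)) (.L 48))) (.T 1 4 (.C 1 2 2 1 (.L 2) (.C 1 2
  1 2 (.L 2) (.L 9))) (.C 0 1 8 1 (.C 1 2 1 1 (.T 1 8 (.C 1 2 2 1 (.L 2) (.C
  1 2 1 2 (.L 17) (.L 9))) (.C 1 2 2 1 (.C 1 2 4 1 (.T 1 16 (.L 42) (.C 1 2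
  8 1 (.L 80) (.L 120))) (.T 1 16 (.L 71) (.O 4))) (.O 4))) (.O 4)) (.L
  3)))) (.C 1 2 4 1 (.C 0 1 1 2 (.G 62 320 0 1 1 1 [.g 32 21 0 0, .n, .n,
  .n]) (.C 1 2 8 1 (.C 0 1 1 4 (.L 8) (.T 1 2 (.L 11) (.L 14))) (.L 8))) (.C
  1 2 1 2 (.L 62) (.T 1 2 (.G 4 62 1 8 65 16 [.n, .n, .g 1 0 1551 0, .g 3 1
  4004 0]) (.L 10)))))) (.C 0 2 1 2 (.T 1 1 (.T 2 1 (.C 1 2 8 1 (.T 4 1 (.T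
  8 1 (.C 0 1 1 4 (.C 0 1 2 1 (.O 4) (.L 25)) (.C 0 1 1 8 (.C 1 2 1 1 (.C 0
  1 2 1 (.T 16 1 (.O 4) (.G 676 336 0 5 21 21 [.g 64 9 0 0, .n, .g 32 13 0
  0, .g 680 57 131137 0])) (.L 178)) (.G 145 470 0 20982 83929 41965 [.g 37
  64 0 0, .n, .n])) (.L 31))) (.L 15)) (.G 251 187 2 1 1 1 [.n, .n, .n, .n,
  .g 1 0 1883 0])) (.G 44 66 3 1 1 1 [.n, .g 1 23 37745 0, .n, .n])) (.L 6))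
  (.C 0 1 1 4 (.G 4 280 1 49 97 97 [.n, .n, .g 16 7 0 0, .g 19 6 250 0]) (.C
  1 2 8 1 (.C 0 1 1 8 (.L 20) (.T 1 2 (.L 26) (.L 14))) (.L 23)))) (.C 0 2 1
  4 (.T 1 1 (.T 2 1 (.T 4 1 (.G 44 246 3 1 1 1 [.n, .g 1 7 2033 0, .n, .n])
  (.L 30)) (.C 0 2 2 1 (.L 6) (.L 35))) (.C 0 1 1 8 (.L 10) (.C 1 2 16 1 (.T
  1 2 (.L 7) (.L 14)) (.L 10)))) (.C 0 2 1 8 (.T 1 1 (.L 18) (.C 0 1 1 16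
  (.L 10) (.T 1 2 (.L 11) (.L 14)))) (.L 28))))) (.C 0 2 8 1 (.T 1 1 (.T 2 1
  (.T 4 1 (.T 8 1 (.C 1 2 4 1 (.C 0 1 4 1 (.C 1 2 4 1 (.L 1) (.C 0 2 32 1
  (.L 1) (.G 1 68 3 284562 284562 142281 [.n, .g 6 61 6 0, .n, .n]))) (.C 0
  2 4 1 (.L 1) (.C 0 1 1 16 (.C 1 2 1 4 (.L 1) (.C 0 2 1 2 (.L 1) (.T 16 1
  (.L 240) (.T 1 2 (.C 0 2 1 4 (.G 124 1 1 54 107 107 [.n, .n, .g 4 2 4225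
  0, .n]) (.G 424 448 0 26 26 3 [.n, .g 32 19 0 0, .n, .n])) (.L 156)))))
  (.C 1 2 8 1 (.L 84) (.C 0 2 1 4 (.G 118 29 1 95734 47867 191468 [.g 32 13
  0 0, .n, .n, .g 256 49 55 0, .g 32 9 0 0]) (.G 107 85 1 208 52 26 [.g 133
  7 8175 0, .n, .g 3 2 3675 0, .g 64 11 0 0])))))) (.C 1 2 1 2 (.L 25) (.O
  4))) (.L 15)) (.L 21)) (.L 6)) (.C 0 1 4 1 (.T 1 2 (.T 2 1 (.L 7) (.T 1 2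
  (.C 1 2 2 1 (.L 33) (.L 16)) (.L 48))) (.T 1 4 (.C 1 2 2 1 (.L 2) (.C 1 2
  1 2 (.L 2) (.L 9))) (.C 0 1 8 1 (.C 1 2 1 1 (.T 1 8 (.C 1 2 2 1 (.L 2) (.C
  1 2 1 2 (.L 17) (.L 9))) (.C 1 2 2 1 (.C 1 2 4 1 (.T 1 16 (.L 42) (.C 1 2
  8 1 (.L 64) (.L 120))) (.T 1 16 (.L 71) (.O 4))) (.O 4))) (.O 4)) (.L
  3)))) (.C 1 2 4 1 (.C 0 1 1 2 (.G 62 492 2 1 1 1 [.g 64 27 0 0, .n, .n,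
  .n]) (.C 1 2 8 1 (.C 0 1 1 4 (.L 8) (.T 1 2 (.L 11) (.L 14))) (.L 8))) (.C
  1 2 1 2 (.L 62) (.T 1 2 (.G 4 62 1 8 65 16 [.n, .n, .g 1 0 1551 0, .g 3 1
  4004 0]) (.L 10)))))) (.C 0 2 1 2 (.T 1 1 (.T 2 1 (.C 0 1 1 4 (.G 86 99 0
  1 1 1 [.n, .n, .n, .g 2 0 4183 0]) (.T 4 1 (.T 8 1 (.C 1 2 8 1 (.C 0 1 1 8
  (.C 1 2 1 1 (.C 0 1 2 1 (.T 16 1 (.O 4) (.G 373 248 0 5 18 18 [.g 64 3 0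
  0, .n, .g 32 11 0 0, .g 22 3 8043 0])) (.L 84)) (.G 470 145 0 20982 83929
  41965 [.g 64 35 0 0, .n, .n])) (.L 11)) (.C 0 2 1 1 (.L 25) (.O 4))) (.L
  15)) (.L 30))) (.L 6)) (.C 0 1 1 4 (.G 4 280 1 49 97 97 [.n, .n, .g 16 7 0
  0, .g 19 6 250 0]) (.C 1 2 8 1 (.C 0 1 1 8 (.L 20) (.T 1 2 (.L 11) (.L
  14))) (.L 23)))) (.C 0 2 1 4 (.T 1 1 (.T 2 1 (.G 60 39 3 1 1 1 [.n, .g 1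
  10 1921 0, .n]) (.C 0 2 2 1 (.L 6) (.L 35))) (.C 0 1 1 8 (.L 10) (.C 1 2
  16 1 (.T 1 2 (.L 11) (.L 14)) (.L 10)))) (.C 0 2 1 8 (.T 1 1 (.L 18) (.C 0
  1 1 16 (.L 10) (.T 1 2 (.L 11) (.L 14)))) (.L 28)))))))
  (by decide +kernel)

theorem CS3_c7 : CoF CSTab ⟨⟨5088, 5442, 80000⟩, ⟨1576, 1694, 20000⟩,
  ⟨11510, 12100, 160000⟩, ⟨0, 1⟩, ⟨2, 1⟩, ⟨1, 0, 0⟩, ⟨0, 1, 0⟩, ⟨0, 1, 1⟩⟩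
  :=
CoF.ofG CSTab_B CSBt_E CSBt_U (.B 0 1 4 (.C 0 2 8 1 (.T 1 1 (.T 2 1 (.T 4 1
  (.T 8 1 (.C 1 2 4 1 (.C 0 1 4 1 (.C 1 2 4 1 (.L 1) (.C 0 2 32 1 (.L 1) (.G
  74 1 1 258920 258920 129460 [.n, .g 64 10 11 0, .g 64 13 12 0, .n]))) (.C
  0 2 4 1 (.L 1) (.C 0 1 1 16 (.C 1 2 1 4 (.C 1 2 2 1 (.L 1) (.C 0 1 8 1 (.C
  0 2 4 1 (.L 1) (.G 54 1 1 16 33 8 [.g 64 1 0 0, .n, .n, .g 64 55 0 0, .g 1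
  4 45336 0, .g 1 5 45906 0])) (.G 134 1 1 1006 503 252 [.g 2 3 3980 0, .g 6
  31 0 0, .n, .g 1 2 1444 0]))) (.C 0 2 1 2 (.C 0 2 2 1 (.C 0 1 4 1 (.L 1)
  (.T 16 1 (.G 32 1 1 306 153 153 [.g 14 1 4031 0, .n, .n, .n, .g 31 65 0 0,
  .g 10 63 0 0]) (.G 1 36 2 1884 942 942 [.n, .g 64 13 0 0, .n, .n]))) (.T
  16 1 (.T 32 1 (.O 4) (.C 1 2 1 2 (.G 32 1 1 11 11 23 [.g 128 1 0 0, .n,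
  .n, .n, .g 16 9 0 0, .g 64 41 0 0]) (.O 4))) (.G 36 1 1 598 598 299 [.n,
  .n, .g 13 64 0 0, .n]))) (.T 16 1 (.C 1 2 1 8 (.T 32 1 (.O 4) (.C 1 2 2 1
  (.C 0 1 2 1 (.O 4) (.L 242)) (.O 4))) (.O 4)) (.T 1 2 (.C 0 1 2 1 (.C 1 2
  1 16 (.G 804 1 1 78 311 621 [.n, .g 5 3 7498 0, .g 1 1 2719 0, .n]) (.G
  232 548 2 354897 2839177 88724 [.g 64 0 17 0, .n, .n, .n])) (.G 54 75 2 1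
  1 1 [.n, .n, .n, .n, .g 1 98 84584 0, .g 1 102 89815 0])) (.L 24))))) (.C
  1 2 8 1 (.L 40) (.C 1 2 1 2 (.G 259 40 3 25 13 25 [.g 3 4 0 0, .n, .n,
  .n]) (.T 16 1 (.G 212 1 1 275582 275582 68896 [.n, .n, .n, .n, .g 64 28 1
  0]) (.C 0 2 1 4 (.G 340 123 1 1 1 1 [.g 6 13 0 0, .n, .n, .n, .n, .n]) (.G
  91 105 3 283 141 35 [.n, .n, .g 1 2 1086 0, .g 64 39 0 0])))))))) (.C 1 2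
  1 2 (.L 25) (.O 4))) (.L 15)) (.L 45)) (.L 6)) (.C 0 1 4 1 (.T 1 2 (.T 2 1
  (.L 7) (.T 1 2 (.C 1 2 2 1 (.L 4) (.L 16)) (.L 48))) (.T 1 4 (.C 1 2 2 1
  (.L 2) (.C 1 2 1 2 (.L 2) (.L 9))) (.C 0 1 8 1 (.C 1 2 1 1 (.T 1 8 (.C 1 2
  2 1 (.L 2) (.T 2 1 (.L 17) (.L 50))) (.C 1 2 2 1 (.C 1 2 4 1 (.T 1 16 (.L
  42) (.C 1 2 8 1 (.L 64) (.L 120))) (.T 1 16 (.L 71) (.O 4))) (.O 4))) (.O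
  4)) (.L 27)))) (.C 1 2 4 1 (.C 0 1 1 2 (.T 1 2 (.L 4) (.L 10)) (.C 1 2 8 1
  (.C 0 1 1 4 (.L 8) (.T 1 2 (.L 11) (.L 14))) (.L 8))) (.T 1 2 (.G 4 57 2 7
  27 13 [.n, .n, .g 64 19 0 0, .g 32 17 0 0]) (.L 10))))) (.C 0 2 1 2 (.T 1
  1 (.T 2 1 (.C 1 2 8 1 (.T 4 1 (.T 8 1 (.C 0 1 1 4 (.C 0 1 2 1 (.O 4) (.L
  25)) (.C 0 1 1 8 (.C 1 2 1 1 (.C 0 2 4 1 (.T 16 1 (.L 37) (.G 67 144 2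
  601444 1202888 4811552 [.g 51 64 0 0, .g 128 0 1 0, .n, .n, .g 2 83 1 0,
  .g 2 83 1 0])) (.G 207 40 3 653 163 327 [.n, .g 7 3 1087 0, .g 9 3 1067 0,
  .n])) (.G 244 145 0 18982 75929 37964 [.n, .n, .n, .g 63 64 12 0])) (.L
  40))) (.L 15)) (.G 104 432 0 1 1 1 [.n, .g 1 3 4375 0, .n, .n, .n])) (.G
  258 425 3 1 1 1 [.n, .g 3 2 9705 0, .g 4 7 17364 0, .n])) (.L 6)) (.C 0 1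
  1 4 (.G 4 20 2 22 44 44 [.n, .n, .g 32 13 0 0, .g 32 9 0 0]) (.C 1 2 8 1
  (.C 0 1 1 8 (.L 20) (.T 1 2 (.L 26) (.L 14))) (.L 23)))) (.C 0 2 1 4 (.T 1
  1 (.T 2 1 (.T 4 1 (.G 44 178 3 1 1 1 [.n, .g 1 3 2040 0, .n, .n]) (.L 30))
  (.C 0 2 2 1 (.L 6) (.L 35))) (.C 0 1 1 8 (.L 10) (.C 1 2 16 1 (.T 1 2 (.L
  7) (.L 14)) (.L 10)))) (.C 0 2 1 8 (.T 1 1 (.L 18) (.C 0 1 1 16 (.L 10)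
  (.T 1 2 (.L 11) (.L 14)))) (.L 28))))) (.C 0 2 8 1 (.B 1 8 1 (.B 0 1 8 (.B
  0 2 1 (.T 1 1 (.T 2 1 (.T 4 1 (.T 8 1 (.C 1 2 4 1 (.C 0 1 4 1 (.C 1 2 4 1
  (.L 1) (.C 0 2 32 1 (.L 1) (.G 74 1 1 254156 254156 127078 [.n, .g 64 11
  10 0, .g 64 13 13 0, .n]))) (.C 0 2 4 1 (.L 1) (.C 1 2 8 1 (.C 0 1 1 16
  (.G 1 29 1 65780 131560 65780 [.n, .g 13 32 0 0, .n, .n]) (.L 40)) (.C 0 2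
  1 2 (.C 0 1 1 1 (.L 1) (.C 1 2 2 1 (.T 16 1 (.G 32 29 1 7 3 14 [.n, .g 263
  5 16360 0, .n, .n, .n, .g 64 53 0 0]) (.C 0 1 1 2 (.G 214 1 1 29 58 58 [.g
  8 5 0 0, .n, .g 34 63 0 0, .n]) (.G 29 55 0 431616 107904 431616 [.n, .g 3
  73 0 0, .n, .n]))) (.C 0 2 1 1 (.G 175 1 1 1 2 2 [.n, .n, .n, .n, .g 1 0
  38252 0, .g 1 0 41510 0, .n, .g 3 5 0 0]) (.T 16 1 (.G 1 32 0 4486 4486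
  2243 [.n, .g 3 1 287 0, .n, .n]) (.T 1 2 (.G 132 1 1 3 3 1 [.g 32 1 0 0,
  .n, .n, .g 61 65 0 0, .n, .n]) (.L 228)))))) (.T 16 1 (.C 0 1 1 2 (.C 1 2
  1 8 (.T 32 1 (.O 4) (.C 1 2 2 1 (.T 1 2 (.O 4) (.G 32 400 0 29 58 232 [.g
  1 0 282 0, .n, .n, .n, .n, .n])) (.O 4))) (.O 4)) (.G 143 964 2 8 2 1 [.g
  1 1 7013 0, .g 1 0 2270 0, .g 2 0 5427 0, .n])) (.C 0 1 1 2 (.T 1 2 (.C 0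
  1 2 1 (.C 1 2 1 16 (.C 1 2 2 1 (.G 225 1 1 17 69 276 [.g 1 1 291 0, .n,
  .n, .n, .n, .n]) (.G 74 252 1 163017 2608279 1304139 [.n, .g 8 0 3 0, .g
  64 0 29 0, .n])) (.G 157 360 3 232345 1858761 58086 [.n, .g 256 0 97 0,
  .n, .n])) (.G 170 36 2 1 1 1 [.n, .n, .n, .n, .n, .g 1 19 0 0])) (.L 228))
  (.G 75 55 1 42 10 5 [.n, .g 256 191 0 0, .g 13 1 8245 0]))))))) (.C 1 2 1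
  2 (.L 25) (.O 4))) (.L 24)) (.L 45)) (.L 6)) (.C 0 1 4 1 (.T 1 2 (.T 2 1
  (.L 7) (.C 1 2 2 1 (.L 7) (.L 16))) (.T 1 4 (.C 1 2 2 1 (.L 2) (.C 1 2 1 2
  (.L 2) (.L 9))) (.C 0 1 8 1 (.C 1 2 1 1 (.T 1 8 (.C 1 2 2 1 (.L 2) (.T 2 1
  (.L 17) (.L 50))) (.C 1 2 2 1 (.C 1 2 4 1 (.T 1 16 (.L 42) (.C 1 2 8 1 (.L
  64) (.L 56))) (.T 1 16 (.C 1 2 1 2 (.L 708) (.L 56)) (.O 4))) (.O 4))) (.O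
  4)) (.L 27)))) (.C 1 2 4 1 (.C 0 1 1 2 (.T 1 2 (.L 4) (.L 10)) (.C 1 2 8 1
  (.C 0 1 1 4 (.L 8) (.T 1 2 (.L 11) (.L 14))) (.L 8))) (.T 1 2 (.G 7 57 2 6
  22 11 [.n, .n, .g 2 1 0 0, .g 15 16 0 0]) (.L 10))))) (.L 220)) (.L 189))
  (.T 1 1 (.T 2 1 (.T 4 1 (.T 8 1 (.C 1 2 4 1 (.C 0 1 4 1 (.C 1 2 4 1 (.L 1)
  (.C 0 2 32 1 (.L 1) (.G 158 1 1 249342 249342 124671 [.g 256 46 43 0, .g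
  64 13 12 0, .n, .n, .n]))) (.C 0 2 4 1 (.L 1) (.C 1 2 8 1 (.C 0 1 1 16 (.G
  1 29 1 65780 131560 65780 [.n, .g 13 32 0 0, .n, .n]) (.L 40)) (.C 0 2 1 2
  (.C 0 1 1 1 (.L 1) (.C 1 2 2 1 (.T 16 1 (.G 32 29 1 6 3 11 [.n, .g 206 3
  8198 0, .n, .n, .n, .g 1 1 466 0]) (.C 0 1 1 2 (.G 180 1 1 28 57 57 [.g 32
  7 0 0, .g 35 64 0 0, .n, .n]) (.C 1 2 4 1 (.L 152) (.G 36 55 0 1012 2024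
  1012 [.n, .n, .n, .g 9 32 0 0])))) (.C 0 2 1 1 (.G 175 1 1 1 2 2 [.n, .n,
  .n, .n, .g 1 0 39582 0, .g 1 0 42597 0, .n, .g 19 32 0 0]) (.T 16 1 (.G 1
  32 0 4170 4170 2085 [.n, .g 3 1 275 0, .n, .n]) (.T 1 2 (.G 132 1 1 3 3 1
  [.g 32 1 0 0, .n, .n, .g 57 64 0 0, .n, .n]) (.L 228)))))) (.T 16 1 (.C 0
  1 1 2 (.C 1 2 1 8 (.T 32 1 (.O 4) (.G 444 836 4 1 1 1 [.g 1 0 3544 0, .g 1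
  0 400 0, .n, .g 1 0 170238 0, .n, .n])) (.O 4)) (.G 240 212 4 95556 23889
  11945 [.n, .n, .n, .g 16 3 0 0, .n])) (.C 0 1 1 2 (.T 1 2 (.C 0 1 2 1 (.C
  1 2 1 16 (.G 184 1 1 46 185 370 [.g 33 65 0 0, .g 1 0 1705 0, .n, .n, .n,
  .n, .n, .n]) (.G 461 308 3 114140 913122 28535 [.n, .g 13 16 0 0, .n,
  .n])) (.G 170 36 2 1 1 1 [.n, .n, .n, .n, .n, .g 3 65 0 0])) (.L 228)) (.G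
  36 55 1 208 52 26 [.g 256 1 0 0, .n, .g 3 2 3755 0, .g 32 7 0 0])))))))
  (.C 1 2 1 2 (.L 25) (.O 4))) (.L 24)) (.L 45)) (.L 6)) (.C 0 1 4 1 (.T 1 2
  (.T 2 1 (.L 7) (.C 1 2 2 1 (.L 7) (.L 16))) (.T 1 4 (.C 1 2 2 1 (.L 2) (.C
  1 2 1 2 (.L 2) (.L 9))) (.C 0 1 8 1 (.C 1 2 1 1 (.T 1 8 (.C 1 2 2 1 (.L 2)
  (.C 1 2 1 2 (.L 17) (.L 9))) (.C 1 2 2 1 (.C 1 2 4 1 (.T 1 16 (.L 42) (.C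
  1 2 8 1 (.L 64) (.L 120))) (.T 1 16 (.L 71) (.O 4))) (.O 4))) (.O 4)) (.L
  27)))) (.C 1 2 4 1 (.C 0 1 1 2 (.T 1 2 (.L 4) (.L 10)) (.C 1 2 8 1 (.C 0 1
  1 4 (.L 8) (.T 1 2 (.L 11) (.L 14))) (.L 8))) (.T 1 2 (.G 7 57 2 6 22 11
  [.n, .n, .g 2 1 0 0, .g 15 16 0 0]) (.L 10)))))) (.C 0 2 1 2 (.T 1 1 (.T 2
  1 (.C 0 1 1 4 (.G 580 86 3 1 1 1 [.g 1 0 1571 0, .g 5 9 31647 0, .n, .n])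
  (.T 4 1 (.T 8 1 (.C 1 2 8 1 (.C 0 1 1 8 (.C 1 2 1 1 (.C 0 2 4 1 (.T 16 1
  (.L 150) (.G 67 194 3 57838 115676 462705 [.g 32 27 0 0, .g 32 0 3 0, .n,
  .n, .n, .n])) (.G 316 390 3 1 1 1 [.g 1 3 1958 0, .g 7 31 0 0, .g 20 63 0
  0, .n])) (.G 188 24 0 17483 69931 34965 [.n, .g 64 33 0 0, .g 64 31 0 0,
  .n])) (.L 40)) (.G 205 900 2 1 1 1 [.n, .g 1 0 3220 0, .n, .n])) (.L 24))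
  (.L 30))) (.L 6)) (.C 0 1 1 4 (.G 4 133 0 44 88 88 [.n, .n, .g 8 3 0 0, .g
  4 1 0 0]) (.C 1 2 8 1 (.C 0 1 1 8 (.L 20) (.T 1 2 (.L 26) (.L 14))) (.L
  3)))) (.C 0 2 1 4 (.T 1 1 (.T 2 1 (.T 4 1 (.G 168 141 3 54 7 108 [.n, .n,
  .n, .g 28 25 8090 0]) (.L 30)) (.T 1 2 (.L 169) (.L 6))) (.C 0 1 1 8 (.L
  10) (.C 1 2 16 1 (.T 1 2 (.L 7) (.L 14)) (.L 10)))) (.C 0 2 1 8 (.T 1 1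
  (.L 18) (.C 0 1 1 16 (.L 10) (.T 1 2 (.L 11) (.L 14)))) (.L 28))))))
  (by decide +kernel)

theorem CS3_c8 : CoF CSTab ⟨⟨5088, 5442, 80000⟩, ⟨11510, 12100, 160000⟩,
  ⟨5206, 5324, 80000⟩, ⟨0, 1⟩, ⟨2, 1⟩, ⟨1, 0, 0⟩, ⟨0, 1, 0⟩, ⟨0, 1, 1⟩⟩ :=
CoF.ofG CSTab_B CSBt_E CSBt_U (.B 1 1 2 (.C 0 2 8 1 (.T 1 1 (.T 2 1 (.T 4 1
  (.T 8 1 (.C 1 2 4 1 (.C 0 1 4 1 (.C 1 2 4 1 (.L 1) (.C 0 2 32 1 (.L 1) (.G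
  144 1 1 267994 267994 133997 [.n, .g 64 9 6 0, .g 64 13 12 0, .n]))) (.C 0
  2 4 1 (.L 1) (.C 0 1 1 16 (.C 1 2 1 4 (.C 1 2 2 1 (.L 1) (.C 0 1 8 1 (.C 0
  2 4 1 (.L 1) (.G 54 1 1 20 41 10 [.g 64 1 0 0, .n, .n, .g 61 64 0 0, .g 1
  5 44851 0, .g 1 6 45240 0])) (.G 214 1 1 1150 575 288 [.g 1 3 1284 0, .g 1
  2 1986 0, .g 11 64 0 0, .n]))) (.C 0 2 1 2 (.C 0 2 2 1 (.C 0 1 4 1 (.L 1)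
  (.T 16 1 (.G 32 1 1 358 179 179 [.g 14 1 4026 0, .n, .n, .n, .g 26 63 0 0,
  .g 3 32 0 0]) (.G 1 36 2 2555 1278 1278 [.n, .g 64 9 0 0, .n, .n]))) (.T
  16 1 (.T 32 1 (.O 4) (.C 1 2 1 2 (.G 240 1 1 238047 238047 476094 [.n, .n,
  .g 64 29 0 0, .g 4 1 0 0, .n]) (.O 4))) (.G 1 36 2 739 739 370 [.n, .g 64
  11 0 0, .n, .n]))) (.T 16 1 (.C 1 2 1 8 (.T 32 1 (.O 4) (.C 1 2 2 1 (.T 1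
  2 (.O 4) (.G 55 644 3 100554 201109 804435 [.g 32 0 23 0, .g 3 0 4 0, .n,
  .n, .n])) (.O 4))) (.O 4)) (.T 1 2 (.C 0 2 1 4 (.C 0 2 2 1 (.G 100 1 1
  93239 186478 372955 [.n, .n, .g 61 64 5 0, .g 29 32 7 0, .n]) (.T 2 1 (.G
  216 380 1 295043 147521 147521 [.n, .n, .g 64 9 7 0, .n, .n]) (.L 74)))
  (.G 124 36 2 1 1 1 [.n, .n, .g 1 3 3033 0, .n])) (.L 24))))) (.C 1 2 8 1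
  (.L 40) (.C 1 2 1 2 (.G 259 40 3 6 3 6 [.g 11 61 0 0, .n, .n, .n]) (.T 16
  1 (.G 105 5 1 236201 236201 59050 [.g 1024 373 31 0, .g 64 15 0 0, .n, .g
  16 0 3 0]) (.G 36 47 0 52 52 13 [.n, .n, .g 1 0 337 0, .g 8 1 0 0])))))))
  (.C 1 2 1 2 (.L 25) (.O 4))) (.L 15)) (.L 45)) (.L 6)) (.C 0 1 4 1 (.T 1 2
  (.T 2 1 (.L 7) (.T 1 2 (.C 1 2 2 1 (.L 4) (.L 16)) (.L 48))) (.T 1 4 (.C 1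
  2 2 1 (.L 2) (.C 1 2 1 2 (.L 2) (.L 9))) (.C 0 1 8 1 (.C 1 2 1 1 (.C 1 2 2
  1 (.T 1 8 (.L 2) (.C 1 2 4 1 (.T 1 16 (.L 42) (.C 1 2 8 1 (.L 64) (.L
  120))) (.T 1 16 (.L 71) (.O 4)))) (.T 1 8 (.C 1 2 1 2 (.L 17) (.L 9)) (.O
  4))) (.O 4)) (.L 27)))) (.C 1 2 4 1 (.C 0 1 1 2 (.T 1 2 (.L 4) (.L 10))
  (.C 1 2 8 1 (.C 0 1 1 4 (.L 8) (.T 1 2 (.L 11) (.L 14))) (.L 8))) (.T 1 2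
  (.G 7 57 2 6 22 11 [.n, .n, .g 32 15 0 0, .g 31 32 0 0]) (.L 10))))) (.C 0
  2 1 2 (.T 1 1 (.T 2 1 (.C 1 2 8 1 (.T 4 1 (.T 8 1 (.C 0 1 1 4 (.C 0 1 2 1
  (.O 4) (.L 25)) (.C 0 1 1 8 (.C 1 2 1 1 (.C 0 2 4 1 (.T 16 1 (.L 37) (.G
  67 47 0 295805 591610 2366438 [.g 47 64 0 0, .g 64 0 1 0, .n, .n, .g 9 271
  7 0, .g 4 124 3 0])) (.G 336 176 3 3872 968 1936 [.g 3 1 82 0, .n, .n, .g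
  256 3 200 0])) (.G 510 161 3 10232 40930 20465 [.n, .g 46 19 64 0, .n, .g
  64 29 26 0, .n, .n])) (.L 40))) (.L 15)) (.G 466 30 1 1 1 1 [.g 2 1 4863
  0, .n, .n, .n])) (.G 272 99 0 1 1 1 [.n, .n, .g 2 5 10389 0, .g 32 17 0
  0])) (.L 6)) (.C 0 1 1 4 (.G 4 20 2 22 44 44 [.n, .n, .g 32 13 0 0, .g 32
  9 0 0]) (.C 1 2 8 1 (.C 0 1 1 8 (.L 20) (.T 1 2 (.L 26) (.L 14))) (.L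
  23)))) (.C 0 2 1 4 (.T 1 1 (.T 2 1 (.T 4 1 (.G 182 60 1 1 1 1 [.n, .n, .n,
  .g 22 2 4087 0]) (.L 30)) (.C 0 2 2 1 (.L 6) (.L 35))) (.C 0 1 1 8 (.L 10)
  (.C 1 2 16 1 (.T 1 2 (.L 7) (.L 14)) (.L 10)))) (.C 0 2 1 8 (.T 1 1 (.L
  18) (.C 0 1 1 16 (.L 10) (.T 1 2 (.L 11) (.L 14)))) (.L 28))))) (.C 0 2 8
  1 (.T 1 1 (.T 2 1 (.T 4 1 (.T 8 1 (.C 1 2 4 1 (.C 0 1 4 1 (.C 1 2 4 1 (.L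
  1) (.C 0 2 32 1 (.L 1) (.G 1 47 0 267994 267994 133997 [.n, .g 13 65 12 0,
  .n, .n]))) (.C 0 2 4 1 (.L 1) (.C 0 1 1 16 (.C 1 2 1 4 (.G 1 5 1 26976
  53951 107902 [.n, .g 32 3 0 0, .n, .n]) (.C 0 2 1 2 (.G 1 5 1 26122 104488
  52244 [.n, .g 32 3 0 0, .n, .n]) (.T 16 1 (.C 1 2 1 8 (.C 0 2 4 1 (.T 32 1
  (.O 4) (.C 0 1 2 1 (.O 4) (.L 59))) (.L 37)) (.O 4)) (.T 1 2 (.C 0 2 1 4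
  (.G 36 1 1 55 111 111 [.n, .n, .g 4 2 4217 0, .n]) (.G 356 75 2 1 1 1 [.n,
  .n, .g 1 4 3030 0, .n])) (.L 156))))) (.C 1 2 8 1 (.L 40) (.C 1 2 1 2 (.L
  40) (.T 16 1 (.G 1 75 2 1023 1023 256 [.n, .g 2 1 549 0, .n, .n]) (.G 36
  47 0 52 52 13 [.n, .n, .g 1 0 326 0, .g 8 1 0 0]))))))) (.C 1 2 1 2 (.L
  25) (.O 4))) (.L 15)) (.L 45)) (.L 6)) (.C 0 1 4 1 (.T 1 2 (.T 2 1 (.L 7)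
  (.T 1 2 (.C 1 2 2 1 (.L 33) (.L 16)) (.L 48))) (.T 1 4 (.C 1 2 2 1 (.L 2)
  (.C 1 2 1 2 (.L 2) (.L 9))) (.C 0 1 8 1 (.C 1 2 1 1 (.T 1 8 (.C 1 2 2 1
  (.L 2) (.T 2 1 (.L 17) (.L 50))) (.C 1 2 2 1 (.C 1 2 4 1 (.T 1 16 (.L 42)
  (.C 1 2 8 1 (.L 80) (.L 120))) (.T 1 16 (.L 71) (.O 4))) (.O 4))) (.O 4))
  (.L 3)))) (.C 1 2 4 1 (.C 0 1 1 2 (.T 1 2 (.L 4) (.L 10)) (.C 1 2 8 1 (.C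
  0 1 1 4 (.L 8) (.T 1 2 (.L 11) (.L 14))) (.L 8))) (.C 1 2 1 2 (.T 1 2 (.L
  4) (.L 10)) (.T 1 2 (.G 7 155 1 6 50 13 [.n, .n, .g 1 0 2621 0, .g 1 1
  2953 0]) (.L 10)))))) (.C 0 2 1 2 (.T 1 1 (.T 2 1 (.C 1 2 8 1 (.T 4 1 (.T
  8 1 (.C 0 1 1 4 (.C 0 1 2 1 (.O 4) (.L 25)) (.C 0 1 1 8 (.C 1 2 1 1 (.C 0
  1 2 1 (.T 16 1 (.O 4) (.G 429 144 2 5 20 20 [.g 64 13 0 0, .n, .g 64 23 0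
  0, .g 3 4 8890 0])) (.L 40)) (.G 772 129 1 40321 161285 80643 [.n, .g 64
  39 0 0, .n, .g 64 9 25 0])) (.L 40))) (.L 15)) (.G 177 30 1 1 1 1 [.n, .n,
  .g 1 0 1340 0, .n, .n])) (.G 99 66 3 1 1 1 [.g 2 0 4279 0, .n, .n, .n]))
  (.L 6)) (.C 0 1 1 4 (.G 4 62 1 40 80 80 [.n, .n, .g 3 1 4836 0, .g 4 1
  4584 0]) (.C 1 2 8 1 (.C 0 1 1 8 (.L 20) (.T 1 2 (.L 26) (.L 14))) (.L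
  23)))) (.C 0 2 1 4 (.T 1 1 (.T 2 1 (.T 4 1 (.G 165 44 1 1 1 1 [.n, .n, .n,
  .g 77 2 4094 0]) (.L 30)) (.C 0 2 2 1 (.L 6) (.L 35))) (.C 0 1 1 8 (.L 10)
  (.C 1 2 16 1 (.T 1 2 (.L 7) (.L 14)) (.L 10)))) (.C 0 2 1 8 (.T 1 1 (.L
  18) (.C 0 1 1 16 (.L 10) (.C 1 2 32 1 (.T 1 2 (.L 11) (.L 14)) (.L 10))))
  (.L 28)))))) (by decide +kernel)

end Pool.Agent.TET.Cvr
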