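import Pool.Agent.Helper37_TET.LastQ
import Pool.Agent.Helper37_TET.CS0_T0
import Pool.Agent.Helper37_TET.CS1_T0
import Pool.Agent.Helper37_TET.CS2_T0
import Pool.Agent.Helper37_TET.CS3_T0

/-!
# MP_c7c9bf_co: the cover of chart S
-/

set_option autoImplicit false
set_option maxRecDepth 100000

namespace Pool.Agent.TET

open Cvr (V4 Cd)

theorem CS_cover : CoverS Cvr.CSTab :=
  coverSq Cvr.CS0_t7 Cvr.CS2_t7 Cvr.CS1_t26 Cvr.CS3_t7

end Pool.Agent.TET
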