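import Pool.Agent.Helper37_TET.CSTab
import Pool.Agent.Helper37_TET.OkM
import Pool.Agent.Helper38_TET.Glue
import Pool.Agent.Helper38_TET.TB
import Pool.Agent.Helper38_TET.TD
import Pool.Agent.Helper38_TET.TE
import Pool.Agent.Helper38_TET.TF
import Pool.Agent.Helper38_TET.TH
import Pool.Agent.Helper38_TET.TP
import Pool.Agent.Helper38_TET.TQ
import Pool.Agent.Helper38_TET.TV
import Pool.Agent.Helper38_TET.TW
import Pool.Agent.Helper86_TET.XReg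

/-!
# MP_c7c9bf_co: the regions of the table CSTab are good
-/

set_option autoImplicit false
set_option maxRecDepth 100000

namespace Pool.Agent.TET.Cvr

theorem CS_ok : ∀ R ∈ CSTab, R ∈ xL ∨ ROK R :=
  (okm_x0
  (okm_cons TF_rg1
  (okm_cons TF_rg3
  (okm_cons TW_rg2
  (okm_cons TB_rg40
  (okm_cons TW_rg1
  (okm_cons TP_rg0
  (okm_cons TE_rg5
  (okm_cons TP_rg8
  (okm_cons TP_rg13
  (okm_cons TF_rg4
  (okm_cons TB_rg261
  (okm_cons TF_rg60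
  (okm_cons TQ_rg40
  (okm_cons TB_rg370
  (okm_cons TP_rg116
  (okm_cons TQ_rg34
  (okm_cons TP_rg77
  (okm_cons TF_rg20
  (okm_cons TB_rg23
  (okm_cons TF_rg110
  (okm_cons TP_rg103
  (okm_cons TB_rg37
  (okm_cons TF_rg55
  (okm_cons TP_rg69
  (okm_cons TF_rg63
  (okm_cons TQ_rg24
  (okm_cons TD_rg13
  (okm_cons TE_rg26
  (okm_cons TQ_rg10
  (okm_cons TQ_rg32
  (okm_cons TB_rg162
  (okm_cons TF_rg99
  (okm_cons TE_rg111
  (okm_cons TP_rg79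
  (okm_cons TD_rg2
  (okm_cons TE_rg93
  (okm_cons TQ_rg14
  (okm_cons noR_ok
  (okm_cons TP_rg25
  (okm_cons TB_rg20
  (okm_cons TP_rg26
  (okm_cons TE_rg7
  (okm_cons TB_rg21
  (okm_cons TF_rg0
  (okm_cons TE_rg96
  (okm_cons TF_rg91
  (okm_cons TB_rg191
  (okm_cons TB_rg18
  (okm_cons TP_rg39
  (okm_cons TE_rg75
  (okm_cons TP_rg110
  (okm_cons TF_rg35
  (okm_cons TP_rg32
  (okm_cons TF_rg75
  (okm_cons TE_rg36
  (okm_cons TF_rg65
  (okm_cons TP_rg104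
  (okm_cons TF_rg134
  (okm_cons TB_rg9
  (okm_cons TE_rg19
  (okm_cons TE_rg99
  (okm_cons TP_rg132
  (okm_cons TV_rg5
  (okm_cons TP_rg14
  (okm_cons TP_rg40
  (okm_cons TD_rg28
  (okm_cons TF_rg8
  (okm_cons TP_rg41
  (okm_cons TP_rg20
  (okm_cons TP_rg83
  (okm_cons TB_rg215
  (okm_cons TD_rg168
  (okm_cons TE_rg97
  (okm_cons TF_rg116
  (okm_cons TP_rg43
  (okm_cons TB_rg6
  (okm_cons TQ_rg68
  (okm_cons TE_rg64
  (okm_cons TB_rg289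
  (okm_cons TF_rg2
  (okm_cons TD_rg44
  (okm_cons TB_rg92
  (okm_cons TF_rg10
  (okm_cons TP_rg114
  (okm_cons TF_rg17
  (okm_cons TQ_rg37
  (okm_cons TE_rg10
  (okm_cons TP_rg91
  (okm_cons TP_rg113
  (okm_cons TE_rg126
  (okm_cons TE_rg139
  (okm_cons TF_rg16
  (okm_cons TP_rg118
  (okm_cons TF_rg107
  (okm_cons TE_rg4
  (okm_cons TD_rg3
  (okm_cons TF_rg7
  (okm_cons TE_rg48
  (okm_cons TE_rg83
  (okm_cons TQ_rg5
  (okm_cons TQ_rg1
  (okm_cons TF_rg25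
  (okm_cons TE_rg137
  (okm_cons TE_rg89
  (okm_cons TD_rg91
  (okm_cons TD_rg160
  (okm_cons TD_rg52
  (okm_cons TF_rg132
  (okm_cons TD_rg51
  (okm_cons TF_rg77
  (okm_cons TB_rg46
  (okm_cons TQ_rg8
  (okm_cons TE_rg28
  (okm_cons TE_rg23
  (okm_cons TP_rg122
  (okm_cons TQ_rg6
  (okm_cons TB_rg59
  (okm_cons TF_rg12
  (okm_cons TE_rg1
  (okm_cons TF_rg34
  (okm_cons TE_rg78
  (okm_cons TQ_rg49
  (okm_cons TE_rg16
  (okm_cons TQ_rg11
  (okm_cons TE_rg33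
  (okm_cons TE_rg52
  (okm_cons TD_rg32
  (okm_cons TF_rg9
  (okm_cons TF_rg93
  (okm_cons TF_rg29
  (okm_cons TE_rg180
  (okm_cons TE_rg54
  (okm_cons TF_rg6
  (okm_cons TE_rg67
  (okm_cons TB_rg31
  (okm_cons TF_rg130
  (okm_cons TB_rg121
  (okm_cons TD_rg41
  (okm_cons TB_rg142
  (okm_cons TE_rg70
  (okm_cons TF_rg21
  (okm_cons TV_rg3
  (okm_cons TF_rg27
  (okm_cons TE_rg87
  (okm_cons TE_rg11
  (okm_cons TE_rg88
  (okm_cons TE_rg124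
  (okm_cons TE_rg46
  (okm_cons TE_rg155
  (okm_cons TF_rg24
  (okm_cons TE_rg197
  (okm_cons TE_rg25
  (okm_cons TB_rg176
  (okm_cons TF_rg19
  (okm_cons TE_rg129
  (okm_cons TF_rg97
  (okm_cons TF_rg42
  (okm_cons TV_rg0
  (okm_cons TB_rg89
  (okm_cons TE_rg76
  (okm_cons TE_rg31
  (okm_cons TP_rg115
  (okm_cons TQ_rg12
  (okm_cons TE_rg15
  (okm_cons TP_rg17
  (okm_cons TQ_rg46
  (okm_cons TF_rg33
  (okm_cons TQ_rg20
  (okm_cons TQ_rg50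
  (okm_cons TB_rg4
  (okm_cons TQ_rg63
  (okm_cons TF_rg92
  (okm_cons TE_rg62
  (okm_cons TE_rg45
  (okm_cons TP_rg131
  (okm_cons TE_rg118
  (okm_cons TD_rg108
  (okm_cons TE_rg119
  (okm_cons TE_rg8
  (okm_cons TB_rg293
  (okm_cons TB_rg99
  (okm_cons TE_rg65
  (okm_cons TE_rg131
  (okm_cons TD_rg112
  (okm_cons TF_rg14
  (okm_cons TB_rg94
  (okm_cons TQ_rg2
  (okm_cons TE_rg22
  (okm_cons TE_rg61
  (okm_cons TB_rg229
  (okm_cons TE_rg178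
  (okm_cons TB_rg102
  (okm_cons TP_rg112
  (okm_cons TP_rg111
  (okm_cons TE_rg161
  (okm_cons TF_rg135
  (okm_cons TB_rg72
  (okm_cons TE_rg6
  (okm_cons TQ_rg30
  (okm_cons TD_rg177
  (okm_cons TB_rg56
  (okm_cons TH_rg38
  (okm_cons TF_rg70
  (okm_cons TF_rg52
  (okm_cons TF_rg69
  (okm_cons TB_rg131
  (okm_cons TE_rg69
  (okm_cons TB_rg11
  (okm_cons TE_rg53
  (okm_cons TD_rg20
  (okm_cons TB_rg290
  (okm_cons TF_rg78
  (okm_cons TB_rg110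
  (okm_cons TB_rg55
  (okm_cons TE_rg149
  (okm_cons TD_rg31
  (okm_cons TQ_rg45
  (okm_cons TD_rg122
  (okm_cons TB_rg227
  (okm_cons TB_rg60
  (okm_cons TB_rg364
  (okm_cons TF_rg115
  (okm_cons TF_rg56
  (okm_cons TP_rg130
  (okm_cons TF_rg121
  (okm_cons TF_rg74
  (okm_cons TE_rg172
  (okm_cons TF_rg131
  (okm_cons TE_rg79
  (okm_cons TF_rg89
  (okm_cons TF_rg147
  (okm_cons TB_rg10
  (okm_cons TB_rg26
  (okm_cons TD_rg24
  (okm_cons TE_rg71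
  (okm_cons TE_rg188
  (okm_cons TE_rg109
  (okm_cons TQ_rg22
  (okm_cons TQ_rg71
  (okm_cons TE_rg108
  (okm_cons TF_rg48
  (okm_cons TF_rg58
  (okm_cons TE_rg35
  (okm_cons TE_rg14
  (okm_cons TF_rg50
  (okm_cons TE_rg116
  (okm_cons TE_rg47
  (okm_cons TD_rg153
  (okm_cons TE_rg192
  (okm_cons TF_rg98
  (okm_cons TQ_rg70
  (okm_cons TE_rg145
  (okm_cons TE_rg186
  (okm_cons TE_rg57
  (okm_cons TF_rg103
  (okm_cons TF_rg133
  (okm_cons TF_rg118 okm_nil))))))))))))))))))))))))))))))))))))))))))))))))))))))))))))))))))))))))))))))))))))))))))))))))))))))))))))))))))))))))))))))))))))))))))))))))))))))))))))))))))))))))))))))))))))))))))))))))))))))))))))))))))))))))))))))))))))))))))))))))))))))))))))))))))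

end Pool.Agent.TET.Cvr
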