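import Pool.Agent.Helper38_TET.Chk

/-!
# MP_c7c9bf_co: the checker with affine functionals

A triangular cell.  As in `Helper38_TET/Chk.lean`, but a pair of tetrahedra is separated by a functional which
is affine in the parameters: it is given at the three corners, and the condition is checked for the three
corners and for the three pairs of corners (`f_k (x_l) + f_l (x_k)`).
-/

set_option autoImplicit false

namespace Pool.Agent.TET.A

/-- the values of a functional at the three corners -/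
structure F3 where
  f : Q
  g : Q
  h : Q

/-- a triangular cell with its certificate -/
structure Cel where
  n : ℕ
  t : List ℕ
  c : Cn
  d : Cn
  e : Cn
  f : List (List (List F3))
  w1 : Q
  w2 : Q
  w3 : Q

/-- the maximum of `f (C) + g (B)` on the vertices -/
def hi2 (f g : Q) (B C : Bd) : ℕ :=
  nmax (nmax (Nat.add (dot4 f C.p) (dot4 g B.p)) (Nat.add (dot4 f C.q) (dot4 g B.q)))
    (nmax (Nat.add (dot4 f C.r) (dot4 g B.r)) (Nat.add (dot4 f C.s) (dot4 g B.s)))

/-- the minimum of `f (C) + g (B)` on the vertices -/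
def lo2 (f g : Q) (B C : Bd) : ℕ :=
  nmin (nmin (Nat.add (dot4 f C.p) (dot4 g B.p)) (Nat.add (dot4 f C.q) (dot4 g B.q)))
    (nmin (Nat.add (dot4 f C.r) (dot4 g B.r)) (Nat.add (dot4 f C.s) (dot4 g B.s)))

/-- `2 ^ 39 - 18 * m * 245760 * 16384` -/
def kk (K : Kc) : ℕ := Nat.sub 549755813888 (Nat.mul 72477573120 K.m)

/-- the fields with the test bits, two corners: `f` belongs to the corner `c` with the tetrahedra `Bi`, `Bj`,
`g` to the corner `d` with `Ci`, `Cj` -/
def z2 (K : Kc) (f g : Q) (Bi Ci Bj Cj : Bd) (c d : Cn) : ℕ :=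
  Nat.add (Nat.add (dot4 f (yq K d)) (dot4 g (yq K c)))
    (Nat.mul (Nat.sub (Nat.add (kk K) (lo2 f g Bj Cj)) (hi2 f g Bi Ci)) K.one)

/-- the separated pairs for one functional -/
def zt (K : Kc) (c d e : Cn) (Bi Ci Di Bj Cj Dj : Bd) (F : F3) : ℕ :=
  Nat.land (Nat.land (z1 K F.f Bi Bj c) (Nat.land (z1 K F.g Ci Cj d) (z1 K F.h Di Dj e)))
    (Nat.land (z2 K F.f F.g Bi Ci Bj Cj c d)
      (Nat.land (z2 K F.f F.h Bi Di Bj Dj c e) (z2 K F.g F.h Ci Di Cj Dj d e)))

/-- the separated pairs for a list of functionals -/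
def zs (K : Kc) (c d e : Cn) (Bi Ci Di Bj Cj Dj : Bd) (fs : List F3) : ℕ :=
  List.rec (motive := fun _ => ℕ) 0
    (fun F _ ih => Nat.lor (zt K c d e Bi Ci Di Bj Cj Dj F) ih) fs

/-- a functional: the sums, and the angles with the first value are acute -/
def okT (F : F3) : Bool :=
  Bool.and (Bool.and (Nat.beq (sumQ F.f) 16384)
      (Bool.and (Nat.beq (sumQ F.g) 16384) (Nat.beq (sumQ F.h) 16384)))
    (Bool.and (Nat.ble 67108865 (dot4 F.f F.f))
      (Bool.and (Nat.ble 67108865 (dot4 F.f F.g)) (Nat.ble 67108865 (dot4 F.f F.h))))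

/-- the pair `i`, `j` is separated -/
def prA (K : Kc) (c d e : Cn) (i j : ℕ) (fs : List F3) : Bool :=
  Bool.and (allL okT fs)
    (Nat.beq (Nat.land (zs K c d e (nth b0d c.l i) (nth b0d d.l i) (nth b0d e.l i)
        (nth b0d c.l j) (nth b0d d.l j) (nth b0d e.l j) fs) (cond (Nat.beq i j) K.ht K.hh))
      (cond (Nat.beq i j) K.ht K.hh))

def prsA (K : Kc) (c d e : Cn) (n : ℕ) (F : List (List (List F3))) : Bool :=
  allLt (fun i => allLt (fun j => Bool.or (Nat.ble (Nat.succ j) i)
    (prA K c d e i j (nth [] (nth [] F i) j))) n) n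

/-- **the checker**; `A` is the list of the admissible classes -/
def chkA (K : Kc) (A : List ℕ) (X : Cel) : Bool :=
  Bool.and (Bool.and (Bool.and (Nat.ble 1 X.n) (Nat.ble K.m 3)) (allL (okC X.n) [X.c, X.d, X.e]))
    (Bool.and (Bool.and (allL (fun c => semL c.e c.f c.g X.t c.l) [X.c, X.d, X.e])
        (Bool.and (Nat.beq (List.length X.t) X.n) (allL (fun τ => memb τ A) X.t)))
      (Bool.and (Bool.and (okF X.w1) (Bool.and (okF X.w2) (okF X.w3)))
        (Bool.and (allL (farC K X.w1 X.w2 X.w3) [X.c, X.d, X.e])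
          (Bool.and (dets X.n [X.c, X.d, X.e]) (prsA K X.c X.d X.e X.n X.f)))))

end Pool.Agent.TET.A
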