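import Mathlib

/-!
# MP_c7c9bf_co: the cover checker

Charts (`ch = 0`: N, `ch = 1`: S), base corners `(X, Y, W)` (homogeneous coordinates of `(x, y)`), generators
`(k, al, be, ga)`.
-/

set_option autoImplicit false

namespace Pool.Agent.TET.Cvr

noncomputable section

/-- four integers -/
structure V4 where
  a : ℤ
  b : ℤ
  c : ℤ
  d : ℤ

/-- a generator of a cone -/
structure Gn where
  k : ℕ
  al : ℕ
  be : ℕ
  ga : ℤ

/-- a corner of the base triangle -/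
structure Pt where
  X : ℕ
  Y : ℕ
  W : ℕ

/-- a condition: `l m f` is `m L f >= 0`, `q v w` is `<v, w> >= 0` -/
inductive Cd where
  | l (m f : V4)
  | q (v w : V4)

/-- a cell -/
structure St where
  p0 : Pt
  p1 : Pt
  p2 : Pt
  u0 : Gn
  u1 : Gn
  u2 : Gn
  u3 : Gn

/-- a cover tree -/
inductive Tr where
  | B (r p q : ℕ) (s t : Tr)
  | C (i j p q : ℕ) (s t : Tr)
  | L (R s0 s1 s2 s3 : ℕ)
  | O (t : ℕ)
  | P (a b : ℤ)

def dot (m n : V4) : ℤ :=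
  Int.add (Int.add (Int.mul m.a n.a) (Int.mul m.b n.b)) (Int.add (Int.mul m.c n.c) (Int.mul m.d n.d))

/-- entry `i` -/
def get (v : V4) (i : ℕ) : ℤ :=
  Nat.rec v.a (fun j _ => Nat.rec v.b (fun j _ => Nat.rec v.c (fun _ _ => v.d) j) j) i

def prm (s0 s1 s2 s3 : ℕ) (v : V4) : V4 := ⟨get v s0, get v s1, get v s2, get v s3⟩

def nn (z : ℤ) : Bool := Int.rec (fun _ => true) (fun _ => false) z

/-! ### the charts; `D` is the third coordinate of the corner -/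

def nC (ch D X Y : ℕ) : V4 :=
  Nat.rec (motive := fun _ => V4) ⟨Int.subNatNat X D, Int.subNatNat 0 X, Int.subNatNat D Y, Int.ofNat Y⟩
    (fun _ _ => ⟨Int.subNatNat (Nat.add X Y) D, Int.subNatNat 0 X, Int.subNatNat 0 Y, Int.ofNat D⟩) ch

def sC (ch : ℕ) : V4 :=
  Nat.rec (motive := fun _ => V4) ⟨0, 0, 1, 1⟩ (fun _ _ => ⟨0, 0, 0, 1⟩) ch

def pC (ch D X : ℕ) : V4 :=
  Nat.rec (motive := fun _ => V4) ⟨Int.ofNat D, 0, Int.subNatNat D X, Int.subNatNat D X⟩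
    (fun _ _ => ⟨0, Int.subNatNat 0 D, 0, Int.subNatNat 0 X⟩) ch

def qC (ch D Y : ℕ) : V4 :=
  Nat.rec (motive := fun _ => V4) ⟨0, 0, Int.ofNat Y, Int.subNatNat Y D⟩
    (fun _ _ => ⟨0, 0, Int.subNatNat 0 D, Int.subNatNat 0 Y⟩) ch

def dC : V4 := ⟨1, -1, 0, 0⟩

def eC (ch : ℕ) : V4 :=
  Nat.rec (motive := fun _ => V4) ⟨0, 0, 1, -1⟩ (fun _ _ => ⟨1, 0, -1, 0⟩) ch

/-! ### linear conditions -/

/-- the polar form of a product -/
def pol (a b a' b' : ℤ) : ℤ := Int.add (Int.mul a b') (Int.mul a' b)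

def linG (N00 N11 N22 N01 N02 N12 V00 V11 V22 V01 V02 V12 : ℤ) (k : ℤ) (R : ℤ) : Bool :=
  Bool.and (Bool.and (Bool.and (nn (Int.add (Int.mul k N00) (Int.mul R V00)))
      (nn (Int.add (Int.mul k N11) (Int.mul R V11))))
    (Bool.and (nn (Int.add (Int.mul k N22) (Int.mul R V22)))
      (nn (Int.add (Int.mul k N01) (Int.mul R V01)))))
    (Bool.and (nn (Int.add (Int.mul k N02) (Int.mul R V02)))
      (nn (Int.add (Int.mul k N12) (Int.mul R V12))))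

def rest (A B C : ℤ) (u : Gn) : ℤ :=
  Int.add (Int.mul (Int.ofNat u.al) A) (Int.add (Int.mul (Int.ofNat u.be) B) (Int.mul u.ga C))

def linB (N00 N11 N22 N01 N02 N12 V00 V11 V22 V01 V02 V12 A B C : ℤ) (u0 u1 u2 u3 : Gn) : Bool :=
  Bool.and (Bool.and
    (linG N00 N11 N22 N01 N02 N12 V00 V11 V22 V01 V02 V12 (Int.ofNat u0.k) (rest A B C u0))
    (linG N00 N11 N22 N01 N02 N12 V00 V11 V22 V01 V02 V12 (Int.ofNat u1.k) (rest A B C u1)))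
    (Bool.and
    (linG N00 N11 N22 N01 N02 N12 V00 V11 V22 V01 V02 V12 (Int.ofNat u2.k) (rest A B C u2))
    (linG N00 N11 N22 N01 N02 N12 V00 V11 V22 V01 V02 V12 (Int.ofNat u3.k) (rest A B C u3)))

def linC (a0 a1 a2 b0 b1 b2 V00 V11 V22 V01 V02 V12 A B C : ℤ) (u0 u1 u2 u3 : Gn) : Bool :=
  linB (pol a0 b0 a0 b0) (pol a1 b1 a1 b1) (pol a2 b2 a2 b2) (pol a0 b0 a1 b1) (pol a0 b0 a2 b2)
    (pol a1 b1 a2 b2) V00 V11 V22 V01 V02 V12 A B C u0 u1 u2 u3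

def ww (a b : ℕ) : ℤ := Int.ofNat (Nat.mul a b)

def lin (m f n0 n1 n2 d e : V4) (W0 W1 W2 : ℕ) (u0 u1 u2 u3 : Gn) : Bool :=
  linC (dot m n0) (dot m n1) (dot m n2) (dot f n0) (dot f n1) (dot f n2)
    (ww W0 W0) (ww W1 W1) (ww W2 W2) (ww W0 W1) (ww W0 W2) (ww W1 W2)
    (pol (dot m d) (dot f d) (dot m d) (dot f d)) (pol (dot m e) (dot f e) (dot m e) (dot f e))
    (Int.add (pol (dot m d) (dot f d) (dot m e) (dot f e)) (pol (dot m d) (dot f d) (dot m e) (dot f e)))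
    u0 u1 u2 u3

/-! ### quadratic conditions -/

/-- one corner pair -/
def quC (H P Q S V B C D : ℤ) : Bool :=
  nn (Int.add (Int.add (Int.mul H V) (Int.mul P B)) (Int.sub (Int.mul Q C) (Int.mul S D)))

/-- the polar values of a pair of generators, for all corner pairs; `a, b` = `v.p, w.p`, `c, d` = `v.q, w.q` -/
def quP (a0 a1 a2 b0 b1 b2 c0 c1 c2 d0 d1 d2 V00 V11 V22 V01 V02 V12 H P Q S : ℤ) : Bool :=
  Bool.and (Bool.and (Bool.and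
    (quC H P Q S V00 (pol a0 b0 a0 b0) (pol c0 d0 c0 d0) (Int.add (pol a0 b0 c0 d0) (pol a0 b0 c0 d0)))
    (quC H P Q S V11 (pol a1 b1 a1 b1) (pol c1 d1 c1 d1) (Int.add (pol a1 b1 c1 d1) (pol a1 b1 c1 d1))))
    (Bool.and
    (quC H P Q S V22 (pol a2 b2 a2 b2) (pol c2 d2 c2 d2) (Int.add (pol a2 b2 c2 d2) (pol a2 b2 c2 d2)))
    (quC H P Q S V01 (pol a0 b0 a1 b1) (pol c0 d0 c1 d1) (Int.add (pol a0 b0 c1 d1) (pol a1 b1 c0 d0)))))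
    (Bool.and
    (quC H P Q S V02 (pol a0 b0 a2 b2) (pol c0 d0 c2 d2) (Int.add (pol a0 b0 c2 d2) (pol a2 b2 c0 d0)))
    (quC H P Q S V12 (pol a1 b1 a2 b2) (pol c1 d1 c2 d2) (Int.add (pol a1 b1 c2 d2) (pol a2 b2 c1 d1))))

def hP (u v : Gn) : ℤ :=
  Int.sub (Int.add (Int.mul (Int.ofNat u.al) (Int.ofNat v.be)) (Int.mul (Int.ofNat v.al) (Int.ofNat u.be)))
    (Int.add (Int.mul u.ga v.ga) (Int.mul u.ga v.ga))

def kbP (u v : Gn) : ℤ :=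
  Int.add (Int.mul (Int.ofNat u.k) (Int.ofNat v.be)) (Int.mul (Int.ofNat v.k) (Int.ofNat u.be))

def kaP (u v : Gn) : ℤ :=
  Int.add (Int.mul (Int.ofNat u.k) (Int.ofNat v.al)) (Int.mul (Int.ofNat v.k) (Int.ofNat u.al))

def kgP (u v : Gn) : ℤ :=
  Int.add (Int.mul (Int.ofNat u.k) v.ga) (Int.mul (Int.ofNat v.k) u.ga)

def quG (A a0 a1 a2 b0 b1 b2 c0 c1 c2 d0 d1 d2 V00 V11 V22 V01 V02 V12 : ℤ) (u v : Gn) : Bool :=
  quP a0 a1 a2 b0 b1 b2 c0 c1 c2 d0 d1 d2 V00 V11 V22 V01 V02 V12 (Int.mul (hP u v) A) (kbP u v)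
    (kaP u v) (kgP u v)

/-- all pairs of generators -/
def all4 (F : Gn → Gn → Bool) (u0 u1 u2 u3 : Gn) : Bool :=
  Bool.and (Bool.and (Bool.and (F u0 u0) (F u1 u1)) (Bool.and (F u2 u2) (F u3 u3)))
    (Bool.and (Bool.and (F u0 u1) (Bool.and (F u0 u2) (F u0 u3)))
      (Bool.and (F u1 u2) (Bool.and (F u1 u3) (F u2 u3))))

def qua (v w s p0 p1 p2 q0 q1 q2 : V4) (W0 W1 W2 : ℕ) (u0 u1 u2 u3 : Gn) : Bool :=
  all4 (quG (pol (dot v s) (dot w s) (dot v s) (dot w s)) (dot v p0) (dot v p1) (dot v p2)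
    (dot w p0) (dot w p1) (dot w p2) (dot v q0) (dot v q1) (dot v q2)
    (dot w q0) (dot w q1) (dot w q2)
    (ww W0 W0) (ww W1 W1) (ww W2 W2) (ww W0 W1) (ww W0 W2) (ww W1 W2)) u0 u1 u2 u3

/-! ### leaves -/

def cdC (n0 n1 n2 d e s p0 p1 p2 q0 q1 q2 : V4) (W0 W1 W2 : ℕ) (u0 u1 u2 u3 : Gn) (c : Cd) :
    Bool :=
  Cd.rec (motive := fun _ => Bool) (fun m f => lin m f n0 n1 n2 d e W0 W1 W2 u0 u1 u2 u3)
    (fun v w => qua v w s p0 p1 p2 q0 q1 q2 W0 W1 W2 u0 u1 u2 u3) c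

def allL {α : Type} (p : α → Bool) (l : List α) : Bool :=
  List.rec (motive := fun _ => Bool) true (fun a _ ih => Bool.and (p a) ih) l

def nth {α : Type} (x : α) (l : List α) : ℕ → α :=
  List.rec (motive := fun _ => ℕ → α) (fun _ => x)
    (fun a _ ih n => Nat.rec (motive := fun _ => α) a (fun m _ => ih m) n) l

/-- a permutation of `0, 1, 2, 3` -/
def isP (a b c d : ℕ) : Bool :=
  Bool.and (Bool.and (Bool.and (Nat.ble a 3) (Nat.ble b 3)) (Bool.and (Nat.ble c 3) (Nat.ble d 3)))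
    (Bool.and (Bool.and (Bool.and (not (Nat.beq a b)) (not (Nat.beq a c))) (not (Nat.beq a d)))
      (Bool.and (Bool.and (not (Nat.beq b c)) (not (Nat.beq b d))) (not (Nat.beq c d))))

def leaf (ch : ℕ) (T : List (List Cd)) (R s0 s1 s2 s3 : ℕ) (x : St) : Bool :=
  Bool.and (Bool.and (isP s0 s1 s2 s3) (Nat.blt R T.length))
    (allL (cdC (prm s0 s1 s2 s3 (nC ch x.p0.W x.p0.X x.p0.Y)) (prm s0 s1 s2 s3 (nC ch x.p1.W x.p1.X x.p1.Y))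
      (prm s0 s1 s2 s3 (nC ch x.p2.W x.p2.X x.p2.Y)) (prm s0 s1 s2 s3 dC) (prm s0 s1 s2 s3 (eC ch))
      (prm s0 s1 s2 s3 (sC ch)) (prm s0 s1 s2 s3 (pC ch x.p0.W x.p0.X))
      (prm s0 s1 s2 s3 (pC ch x.p1.W x.p1.X)) (prm s0 s1 s2 s3 (pC ch x.p2.W x.p2.X))
      (prm s0 s1 s2 s3 (qC ch x.p0.W x.p0.Y)) (prm s0 s1 s2 s3 (qC ch x.p1.W x.p1.Y))
      (prm s0 s1 s2 s3 (qC ch x.p2.W x.p2.Y)) x.p0.W x.p1.W x.p2.W x.u0 x.u1 x.u2 x.u3)
      (nth [] T R))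

/-- `al be - ga ^ 2 <= 0` for a pair -/
def o0 (u v : Gn) : Bool := nn (Int.neg (hP u v))

/-- `al > k x (1 - x)`, one generator, one corner pair -/
def o1 (k al X W X' W' : ℕ) : Bool :=
  Bool.or (Nat.beq k 0)
    (Nat.blt (Nat.mul k (Nat.add (Nat.mul X (Nat.sub W' X')) (Nat.mul X' (Nat.sub W X))))
      (Nat.mul 2 (Nat.mul al (Nat.mul W W'))))

def o1c (X0 W0 X1 W1 X2 W2 k al : ℕ) : Bool :=
  Bool.and (Bool.and (Bool.and (o1 k al X0 W0 X0 W0) (o1 k al X1 W1 X1 W1))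
    (Bool.and (o1 k al X2 W2 X2 W2) (o1 k al X0 W0 X1 W1)))
    (Bool.and (o1 k al X0 W0 X2 W2) (o1 k al X1 W1 X2 W2))

def le3 (X0 W0 X1 W1 X2 W2 : ℕ) : Bool :=
  Bool.and (Bool.and (Nat.ble X0 W0) (Nat.ble X1 W1)) (Nat.ble X2 W2)

def o1g (X0 W0 X1 W1 X2 W2 k0 a0 k1 a1 k2 a2 k3 a3 : ℕ) : Bool :=
  Bool.and (le3 X0 W0 X1 W1 X2 W2)
    (Bool.and (Bool.and (o1c X0 W0 X1 W1 X2 W2 k0 a0) (o1c X0 W0 X1 W1 X2 W2 k1 a1))
      (Bool.and (o1c X0 W0 X1 W1 X2 W2 k2 a2) (o1c X0 W0 X1 W1 X2 W2 k3 a3)))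

def out (ch t : ℕ) (x : St) : Bool :=
  Nat.rec (motive := fun _ => Bool) (all4 o0 x.u0 x.u1 x.u2 x.u3)
    (fun t _ => Bool.and (Nat.beq ch 0) (Nat.rec (motive := fun _ => Bool)
      (o1g x.p0.X x.p0.W x.p1.X x.p1.W x.p2.X x.p2.W x.u0.k x.u0.al x.u1.k x.u1.al x.u2.k x.u2.al
        x.u3.k x.u3.al)
      (fun _ _ => o1g x.p0.Y x.p0.W x.p1.Y x.p1.W x.p2.Y x.p2.W x.u0.k x.u0.be x.u1.k x.u1.be
        x.u2.k x.u2.be x.u3.k x.u3.be) t)) t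

/-- `al a ^ 2 + be b ^ 2 + 2 ga a b <= 0` -/
def psG (a b : ℤ) (u : Gn) : Bool :=
  nn (Int.neg (Int.add (Int.add (Int.mul (Int.ofNat u.al) (Int.mul a a))
    (Int.mul (Int.ofNat u.be) (Int.mul b b))) (Int.mul (Int.mul 2 u.ga) (Int.mul a b))))

def isz (a : ℤ) : Bool := Bool.and (nn a) (nn (Int.neg a))

def ps (a b : ℤ) (x : St) : Bool :=
  Bool.and (not (Bool.and (isz a) (isz b)))
    (Bool.and (Bool.and (psG a b x.u0) (psG a b x.u1)) (Bool.and (psG a b x.u2) (psG a b x.u3)))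

/-! ### the tree -/

def mid (a b : ℕ) (p q : Pt) : Pt :=
  ⟨Nat.add (Nat.mul a p.X) (Nat.mul b q.X), Nat.add (Nat.mul a p.Y) (Nat.mul b q.Y),
    Nat.add (Nat.mul a p.W) (Nat.mul b q.W)⟩

def cmb (p q : ℕ) (u v : Gn) : Gn :=
  ⟨Nat.add (Nat.mul p u.k) (Nat.mul q v.k), Nat.add (Nat.mul p u.al) (Nat.mul q v.al),
    Nat.add (Nat.mul p u.be) (Nat.mul q v.be),
    Int.add (Int.mul (Int.ofNat p) u.ga) (Int.mul (Int.ofNat q) v.ga)⟩

def gP (x : St) (r : ℕ) : Pt :=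
  Nat.rec (motive := fun _ => Pt) x.p0 (fun j _ => Nat.rec (motive := fun _ => Pt) x.p1 (fun _ _ => x.p2) j) r

def sP (x : St) (r : ℕ) (p : Pt) : St :=
  Nat.rec (motive := fun _ => St) ⟨p, x.p1, x.p2, x.u0, x.u1, x.u2, x.u3⟩
    (fun j _ => Nat.rec (motive := fun _ => St) ⟨x.p0, p, x.p2, x.u0, x.u1, x.u2, x.u3⟩
      (fun _ _ => ⟨x.p0, x.p1, p, x.u0, x.u1, x.u2, x.u3⟩) j) r

def gU (x : St) (i : ℕ) : Gn :=
  Nat.rec (motive := fun _ => Gn) x.u0 (fun j _ => Nat.rec (motive := fun _ => Gn) x.u1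
    (fun j _ => Nat.rec (motive := fun _ => Gn) x.u2 (fun _ _ => x.u3) j) j) i

def sU (x : St) (i : ℕ) (u : Gn) : St :=
  Nat.rec (motive := fun _ => St) ⟨x.p0, x.p1, x.p2, u, x.u1, x.u2, x.u3⟩
    (fun j _ => Nat.rec (motive := fun _ => St) ⟨x.p0, x.p1, x.p2, x.u0, u, x.u2, x.u3⟩
      (fun j _ => Nat.rec (motive := fun _ => St) ⟨x.p0, x.p1, x.p2, x.u0, x.u1, u, x.u3⟩
        (fun _ _ => ⟨x.p0, x.p1, x.p2, x.u0, x.u1, x.u2, u⟩) j) j) i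

def nx (r : ℕ) : ℕ := cond (Nat.beq r 2) 0 (Nat.succ r)

/-- **the checker** -/
def chk (ch : ℕ) (T : List (List Cd)) (t : Tr) : St → Bool :=
  Tr.rec (motive := fun _ => St → Bool)
    (fun r p q _ _ f g x => Bool.and (Bool.and (Nat.ble r 2) (Bool.and (Nat.ble 1 p) (Nat.ble 1 q)))
      (Bool.and (f (sP x (nx r) (mid p q (gP x r) (gP x (nx r)))))
        (g (sP x r (mid p q (gP x r) (gP x (nx r)))))))
    (fun i j p q _ _ f g x => Bool.and (Bool.and (Bool.and (Nat.ble i 3) (Nat.ble j 3))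
        (Bool.and (not (Nat.beq i j)) (Bool.and (Nat.ble 1 p) (Nat.ble 1 q))))
      (Bool.and (f (sU x j (cmb p q (gU x i) (gU x j)))) (g (sU x i (cmb p q (gU x i) (gU x j))))))
    (fun R s0 s1 s2 s3 x => leaf ch T R s0 s1 s2 s3 x)
    (fun t x => out ch t x)
    (fun a b x => ps a b x) t

end

end Pool.Agent.TET.Cvr
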