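import Pool.Agent.Helper37_TET.CovRoot
import Pool.Agent.Helper38_TET.Regn

/-!
# MP_c7c9bf_co: covered points of the charts are tetrahedra in a region
-/

set_option autoImplicit false

namespace Pool.Agent.TET.Cvr

open MeasureTheory Set Filter Pool.Agent.UL3 Pool.Agent.UL3.H88 Pool.Agent.TET
open scoped ENNReal Topology RealInnerProductSpace

/-- an integer vector -/
def vZ (v : V4) : Fin 4 → ℤ := ![v.a, v.b, v.c, v.d]

def Cd.cond : Cd → Cond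
  | .l m f => Cond.l (vZ m) (vZ f)
  | .q v w => Cond.q (vZ v) (vZ w)

/-- coefficient sum zero -/
def z4 (v : V4) : Bool := decide (v.a + v.b + v.c + v.d = 0)

def Cd.wf : Cd → Bool
  | .l _ _ => true
  | .q v w => z4 v && z4 w

theorem z4_sum {v : V4} (h : z4 v = true) : ∑ i, vZ v i = 0 := by
  rw [Fin.sum_univ_four]
  exact of_decide_eq_true h

theorem dot_sum (v : V4) (n : Fin 4 → ℝ) : vR v ⬝ᵥ n = ∑ x, (vZ v x : ℝ) * n x := by
  unfold dotProduct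
  refine Finset.sum_congr rfl fun i _ => ?_
  fin_cases i <;> rfl

theorem l_case {G : Fin 4 → E3} {n d e : Fin 4 → ℝ} {k al be ga : ℝ}
    (hm : ∀ x y, ⟪G x, G y⟫ = LM n d e k al be ga x y) {m f : V4}
    (h : 0 ≤ k * ((vR m ⬝ᵥ n) * (vR f ⬝ᵥ n)) + al * ((vR m ⬝ᵥ d) * (vR f ⬝ᵥ d)) +
      be * ((vR m ⬝ᵥ e) * (vR f ⬝ᵥ e)) +
      ga * ((vR m ⬝ᵥ d) * (vR f ⬝ᵥ e) + (vR m ⬝ᵥ e) * (vR f ⬝ᵥ d))) :
    0 ≤ lform G (vZ m) (vZ f) := by
  rw [lform_chart hm]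
  simp only [dot_sum] at h
  refine le_of_le_of_eq h ?_
  ring

theorem q_case {p G : Fin 4 → E3} (hG : Grad p G) {n d e s q r : Fin 4 → ℝ} {k al be ga : ℝ}
    (hm : ∀ x y, ⟪G x, G y⟫ = LM n d e k al be ga x y) (hD : Dual n d e s q r) (hk : 0 < k)
    (hdet : 0 < al * be - ga ^ 2) {v w : V4} (hv : z4 v = true) (hw : z4 w = true)
    (h : 0 ≤ (al * be - ga ^ 2) * ((vR v ⬝ᵥ s) * (vR w ⬝ᵥ s)) +
      k * (be * ((vR v ⬝ᵥ q) * (vR w ⬝ᵥ q)) + al * ((vR v ⬝ᵥ r) * (vR w ⬝ᵥ r)) -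
        ga * ((vR v ⬝ᵥ q) * (vR w ⬝ᵥ r) + (vR v ⬝ᵥ r) * (vR w ⬝ᵥ q)))) :
    0 ≤ qform p (vZ v) (vZ w) := by
  have h1 := qform_chart hG hm hD (vZ v) (vZ w) (z4_sum hv) (z4_sum hw)
  simp only [dot_sum] at h
  have h2 : 0 ≤ k * (al * be - ga ^ 2) * qform p (vZ v) (vZ w) := by
    rw [h1]
    refine le_of_le_of_eq h ?_
    ring
  exact le_of_mul_le_mul_left (by rw [mul_zero]; exact h2) (mul_pos hk hdet)

theorem Dual.perm {n d e s q r : Fin 4 → ℝ} (h : Dual n d e s q r) (τ : Equiv.Perm (Fin 4)) :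
    Dual (n ∘ τ) (d ∘ τ) (e ∘ τ) (s ∘ τ) (q ∘ τ) (r ∘ τ) := by
  have key : ∀ f g : Fin 4 → ℝ, ∑ x, (f ∘ τ) x * (g ∘ τ) x = ∑ x, f x * g x := fun f g =>
    Equiv.sum_comp τ (fun x => f x * g x)
  refine ⟨?_, ?_, ?_, ?_, ?_, ?_, ?_, ?_, ?_, ?_⟩
  · rw [key, h.ns]
  · rw [key, h.nq]
  · rw [key, h.nr]
  · rw [key, h.ds]
  · rw [key, h.dq]
  · rw [key, h.dr]
  · rw [key, h.es]
  · rw [key, h.eq]
  · rw [key, h.er]
  · intro v hv x
    have h1 : ∑ x, (v ∘ τ.symm) x = 0 := by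
      rw [← hv]
      exact Equiv.sum_comp τ.symm v
    have h2 := h.ex (v ∘ τ.symm) h1 (τ x)
    have h3 : ∀ f : Fin 4 → ℝ, ∑ y, (v ∘ τ.symm) y * f y = ∑ y, v y * (f ∘ τ) y := by
      intro f
      rw [← Equiv.sum_comp τ (fun y => (v ∘ τ.symm) y * f y)]
      refine Finset.sum_congr rfl fun y _ => ?_
      simp
    rw [h3, h3, h3] at h2
    simpa using h2

theorem cvd_dense {ch : ℕ} {T : List (List Cd)} {p G : Fin 4 → E3} (hG : Grad p G)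
    {x y k al be ga : ℝ} {n d e s q r : Fin 4 → ℝ} (hn : n = nR ch x y) (hd : d = dR)
    (he : e = eR ch) (hs : s = sR ch) (hq : q = pR ch x) (hr : r = qR ch y)
    (hm : ∀ i j, ⟪G i, G j⟫ = LM n d e k al be ga i j) (hD : Dual n d e s q r) (hk : 0 < k)
    (hdet : 0 < al * be - ga ^ 2) (hT : ∀ R ∈ T, RegionOK (R.map Cd.cond))
    (hw : ∀ R ∈ T, ∀ c ∈ R, c.wf = true) (h : Cvd ch T x y k al be ga) :
    Dense (convexHull ℝ (Set.range p)) := by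
  obtain ⟨R, hR, σ, hσ, hc⟩ := h
  let τ : Equiv.Perm (Fin 4) := Equiv.ofBijective σ (Finite.injective_iff_bijective.1 hσ)
  have hτ : ∀ i, τ i = σ i := fun i => rfl
  rw [← range_perm p τ]
  refine hT R hR (p ∘ τ) (G ∘ τ) (hG.perm τ) ?_
  intro c' hc'
  obtain ⟨c, hcR, rfl⟩ := List.mem_map.1 hc'
  have h1 := hc c hcR
  have h2 := hw R hR c hcR
  have hm' : ∀ i j, ⟪(G ∘ τ) i, (G ∘ τ) j⟫ = LM (n ∘ τ) (d ∘ τ) (e ∘ τ) k al be ga i j :=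
    fun i j => hm (τ i) (τ j)
  subst hn hd he hs hq hr
  cases c with
  | l m f => exact l_case hm' h1
  | q v w =>
    have h3 : (z4 v && z4 w) = true := h2
    rw [Bool.and_eq_true] at h3
    exact q_case (hG.perm τ) hm' (Dual.perm hD τ) hk hdet h3.1 h3.2 h1

/-- chart N -/
theorem cvdN {T : List (List Cd)} {p G : Fin 4 → E3} (hG : Grad p G) {a c k al be ga : ℝ}
    (hC : ChartN G a c k al be ga) (hT : ∀ R ∈ T, RegionOK (R.map Cd.cond))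
    (hw : ∀ R ∈ T, ∀ c ∈ R, c.wf = true) (h : Cvd 0 T a c k al be ga) :
    Dense (convexHull ℝ (Set.range p)) :=
  cvd_dense (n := nN a c) (d := dN) (e := eN) (s := sN) (q := qN a) (r := rN c) hG rfl rfl rfl rfl
    rfl rfl hC.mat (dualN a c) hC.k0 (by linarith [hC.ga1]) hT hw h

/-- chart S -/
theorem cvdS {T : List (List Cd)} {p G : Fin 4 → E3} (hG : Grad p G) {v w k al be ga : ℝ}
    (hC : ChartS G v w k al be ga) (hT : ∀ R ∈ T, RegionOK (R.map Cd.cond))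
    (hw : ∀ R ∈ T, ∀ c ∈ R, c.wf = true) (h : Cvd 1 T v w k al be ga) :
    Dense (convexHull ℝ (Set.range p)) := by
  have h1 : nS v w = nR 1 v w := by
    unfold nS nR
    congr 1
    ring
  exact cvd_dense (n := nS v w) (d := dS) (e := eS) (s := sS) (q := qS v) (r := rS w) hG h1 rfl rfl
    rfl rfl rfl hC.mat (dualS v w) hC.k0 (by linarith [hC.ga1]) hT hw h

/-- **all tetrahedra**, from the two covers -/
theorem all_of_covers {T U : List (List Cd)} (hT : ∀ R ∈ T, RegionOK (R.map Cd.cond))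
    (hU : ∀ R ∈ U, RegionOK (R.map Cd.cond)) (wT : ∀ R ∈ T, ∀ c ∈ R, c.wf = true)
    (wU : ∀ R ∈ U, ∀ c ∈ R, c.wf = true) (n0 : CvS 0 T rN0) (n1 : CvS 0 T rN1) (n2 : CvS 0 T rN2)
    (n3 : CvS 0 T rN3) (s0 : CvS 1 U rS0) (s1 : CvS 1 U rS1) (s2 : CvS 1 U rS2)
    (s3 : CvS 1 U rS3) {p : Fin 4 → E3} (hp : AffineIndependent ℝ p) :
    Dense (convexHull ℝ (Set.range p)) := by
  rcases reduction hp with h | ⟨q, G, a, c, k, al, be, ga, hG, hr, hC⟩ |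
    ⟨q, G, v, w, k, al, be, ga, hG, hr, hC⟩
  · exact h
  · rw [← hr]
    exact cvdN hG hC hT wT (rootN n0 n1 n2 n3 hC.k0 hC.a0 hC.ac hC.c1 hC.al0 hC.al1 hC.be0 hC.be1
      hC.ga1)
  · rw [← hr]
    exact cvdS hG hC hU wU (rootS s0 s1 s2 s3 hC.k0 hC.w0 hC.wv hC.v1 hC.vw hC.al0 hC.be0 hC.ga1)

end Pool.Agent.TET.Cvr
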