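import Pool.Agent.Helper37_TET.CovRoot

/-!
# MP_c7c9bf_co: the packed form of the leaf test

All the polar values of a condition are computed as the digits (192 bits each) of one integer.
-/

set_option autoImplicit false

namespace Pool.Agent.TET.Cvr

noncomputable section

/-- `2 ^ (192 k)` -/
def tw (k : ℕ) : ℕ := Nat.pow 2 (Nat.mul 192 k)

def pk3 (a b c : ℤ) : ℤ :=
  Int.add a (Int.add (Int.mul b (Int.ofNat (tw 1))) (Int.mul c (Int.ofNat (tw 3))))

def pk4 (a b c d : ℤ) : ℤ :=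
  Int.add a (Int.add (Int.mul b (Int.ofNat (tw 7)))
    (Int.add (Int.mul c (Int.ofNat (tw 21))) (Int.mul d (Int.ofNat (tw 49)))))

def pv (x y z : V4) : V4 := ⟨pk3 x.a y.a z.a, pk3 x.b y.b z.b, pk3 x.c y.c z.c, pk3 x.d y.d z.d⟩

/-- the sum of `2 ^ (192 j + 191)`, `j < 105` -/
def OFF : ℕ := Nat.div (Nat.mul (Nat.pow 2 191) (Nat.sub (Nat.pow 2 20160) 1)) (Nat.sub (Nat.pow 2 192) 1)

def tst (F : ℤ) : Bool := Nat.beq (Nat.land (Int.toNat (Int.add F (Int.ofNat OFF))) OFF) OFF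

def linP (m f N d e : V4) (KK AL BE GA VV : ℤ) : Bool :=
  tst (Int.add (Int.mul KK (Int.mul (dot m N) (dot f N)))
    (Int.mul (Int.add (Int.mul AL (Int.mul (dot m d) (dot f d)))
      (Int.add (Int.mul BE (Int.mul (dot m e) (dot f e)))
        (Int.mul GA (Int.add (Int.mul (dot m d) (dot f e)) (Int.mul (dot m e) (dot f d)))))) VV))

def quaP (v w s P Q : V4) (HH KB KA KG VV : ℤ) : Bool :=
  tst (Int.add (Int.add (Int.mul (Int.mul HH (Int.mul (dot v s) (dot w s))) VV)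
      (Int.mul KB (Int.mul (dot v P) (dot w P))))
    (Int.sub (Int.mul KA (Int.mul (dot v Q) (dot w Q)))
      (Int.mul KG (Int.add (Int.mul (dot v P) (dot w Q)) (Int.mul (dot v Q) (dot w P))))))

def cdP (N d e s P Q : V4) (KK AL BE GA VV HH KB KA KG : ℤ) (c : Cd) : Bool :=
  Cd.rec (motive := fun _ => Bool) (fun m f => linP m f N d e KK AL BE GA VV)
    (fun v w => quaP v w s P Q HH KB KA KG VV) c

/-! ### size checks -/

def M1 : ℕ := 1099511627776
def M2 : ℕ := 17179869184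
def M3 : ℕ := 32768

def nab (z : ℤ) : ℕ := Int.rec (fun n => n) (fun n => Nat.succ n) z

def ptB (p : Pt) : Bool := Bool.and (Nat.ble p.X M2) (Bool.and (Nat.ble p.Y M2) (Nat.ble p.W M2))
def gnB (u : Gn) : Bool :=
  Bool.and (Bool.and (Nat.ble u.k M1) (Nat.ble u.al M1)) (Bool.and (Nat.ble u.be M1) (Nat.ble (nab u.ga) M1))
def stB (x : St) : Bool :=
  Bool.and (Bool.and (ptB x.p0) (Bool.and (ptB x.p1) (ptB x.p2)))
    (Bool.and (Bool.and (gnB x.u0) (gnB x.u1)) (Bool.and (gnB x.u2) (gnB x.u3)))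

def vB (v : V4) : Bool :=
  Bool.and (Bool.and (Nat.ble (nab v.a) M3) (Nat.ble (nab v.b) M3))
    (Bool.and (Nat.ble (nab v.c) M3) (Nat.ble (nab v.d) M3))
def cB (c : Cd) : Bool :=
  Cd.rec (motive := fun _ => Bool) (fun m f => Bool.and (vB m) (vB f)) (fun v w => Bool.and (vB v) (vB w)) c
/-- the size check of the table -/
def tabB (T : List (List Cd)) : Bool := allL (allL cB) T

/-! ### leaves and trees -/

def leafQ (N d e s P Q : V4) (K A B G V : ℤ) (l : List Cd) : Bool :=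
  allL (cdP N d e s P Q K A B G V (Int.sub (Int.mul A B) (Int.mul G G)) (Int.mul K B) (Int.mul K A)
    (Int.mul K G)) l

def leafP (ch : ℕ) (T : List (List Cd)) (R s0 s1 s2 s3 : ℕ) (x : St) : Bool :=
  Bool.and (Bool.and (stB x) (Bool.and (isP s0 s1 s2 s3) (Nat.blt R T.length)))
    (leafQ (prm s0 s1 s2 s3 (pv (nC ch x.p0.W x.p0.X x.p0.Y) (nC ch x.p1.W x.p1.X x.p1.Y)
        (nC ch x.p2.W x.p2.X x.p2.Y)))
      (prm s0 s1 s2 s3 dC) (prm s0 s1 s2 s3 (eC ch)) (prm s0 s1 s2 s3 (sC ch))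
      (prm s0 s1 s2 s3 (pv (pC ch x.p0.W x.p0.X) (pC ch x.p1.W x.p1.X) (pC ch x.p2.W x.p2.X)))
      (prm s0 s1 s2 s3 (pv (qC ch x.p0.W x.p0.Y) (qC ch x.p1.W x.p1.Y) (qC ch x.p2.W x.p2.Y)))
      (pk4 (Int.ofNat x.u0.k) (Int.ofNat x.u1.k) (Int.ofNat x.u2.k) (Int.ofNat x.u3.k))
      (pk4 (Int.ofNat x.u0.al) (Int.ofNat x.u1.al) (Int.ofNat x.u2.al) (Int.ofNat x.u3.al))
      (pk4 (Int.ofNat x.u0.be) (Int.ofNat x.u1.be) (Int.ofNat x.u2.be) (Int.ofNat x.u3.be))
      (pk4 x.u0.ga x.u1.ga x.u2.ga x.u3.ga)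
      (Int.mul (pk3 (Int.ofNat x.p0.W) (Int.ofNat x.p1.W) (Int.ofNat x.p2.W))
        (pk3 (Int.ofNat x.p0.W) (Int.ofNat x.p1.W) (Int.ofNat x.p2.W)))
      (nth [] T R))

/-- **the packed checker** -/
def chkP (ch : ℕ) (T : List (List Cd)) (t : Tr) : St → Bool :=
  Tr.rec (motive := fun _ => St → Bool)
    (fun r p q _ _ f g x => Bool.and (Bool.and (Nat.ble r 2) (Bool.and (Nat.ble 1 p) (Nat.ble 1 q)))
      (Bool.and (f (sP x (nx r) (mid p q (gP x r) (gP x (nx r)))))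
        (g (sP x r (mid p q (gP x r) (gP x (nx r)))))))
    (fun i j p q _ _ f g x => Bool.and (Bool.and (Bool.and (Nat.ble i 3) (Nat.ble j 3))
        (Bool.and (not (Nat.beq i j)) (Bool.and (Nat.ble 1 p) (Nat.ble 1 q))))
      (Bool.and (f (sU x j (cmb p q (gU x i) (gU x j)))) (g (sU x i (cmb p q (gU x i) (gU x j))))))
    (fun R s0 s1 s2 s3 x => leafP ch T R s0 s1 s2 s3 x)
    (fun t x => out ch t x)
    (fun a b x => ps a b x) t

end

/-! ### digits -/

/-- digits of natural numbers -/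
def pN : List ℕ → ℕ
  | [] => 0
  | z :: l => z + 2 ^ 192 * pN l

/-- digits of integers -/
def pZ (t : ℤ) : List ℤ → ℤ
  | [] => 0
  | z :: l => z + t * pZ t l

theorem pN_testBit (l : List ℕ) (hl : ∀ z ∈ l, z < 2 ^ 192) (p : ℕ) (hp : p < l.length) :
    (pN l).testBit (192 * p + 191) = (l[p]).testBit 191 := by
  induction l generalizing p with
  | nil => exact absurd hp (Nat.not_lt_zero _)
  | cons z l ih =>
    have hz : z < 2 ^ 192 := hl z (List.mem_cons_self ..)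
    show (z + 2 ^ 192 * pN l).testBit (192 * p + 191) = _
    rw [add_comm, Nat.testBit_two_pow_mul_add _ hz]
    cases p with
    | zero => simp
    | succ p =>
      have h1 : ¬ 192 * (p + 1) + 191 < 192 := by omega
      have h2 : 192 * (p + 1) + 191 - 192 = 192 * p + 191 := by omega
      rw [if_neg h1, h2, List.getElem_cons_succ]
      exact ih (fun z hz => hl z (List.mem_cons_of_mem _ hz)) p _

theorem testBit_191 (z : ℕ) (hz : z < 2 ^ 192) : z.testBit 191 = decide (2 ^ 191 ≤ z) := by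
  rw [Nat.testBit_eq_decide_div_mod_eq, decide_eq_decide]
  norm_num at hz ⊢
  omega

theorem OFF_eq : OFF = pN (List.replicate 105 (2 ^ 191)) := by decide +kernel

theorem pZ_off (l : List ℤ) (hl : ∀ z ∈ l, |z| < 2 ^ 191) :
    pZ (2 ^ 192) l + (pN (List.replicate l.length (2 ^ 191)) : ℕ) =
      (pN (l.map fun z => (z + 2 ^ 191).toNat) : ℕ) := by
  induction l with
  | nil => rfl
  | cons z l ih =>
    have ih' := ih fun z hz => hl z (List.mem_cons_of_mem _ hz)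
    have hz := abs_lt.1 (hl z (List.mem_cons_self ..))
    show z + 2 ^ 192 * pZ (2 ^ 192) l +
      ((2 ^ 191 + 2 ^ 192 * pN (List.replicate l.length (2 ^ 191)) : ℕ) : ℤ) =
      (((z + 2 ^ 191).toNat + 2 ^ 192 * pN (l.map fun z => (z + 2 ^ 191).toNat) : ℕ) : ℤ)
    have e1 : ∀ x : ℕ, ((2 ^ 191 + 2 ^ 192 * x : ℕ) : ℤ) = 2 ^ 191 + 2 ^ 192 * (x : ℤ) := by
      intro x
      push_cast
      ring
    have e2 : ∀ x y : ℕ, ((y + 2 ^ 192 * x : ℕ) : ℤ) = (y : ℤ) + 2 ^ 192 * (x : ℤ) := by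
      intro x y
      push_cast
      ring
    rw [e1, e2, ← ih', Int.toNat_of_nonneg (by linarith [hz.1])]
    ring

theorem tst_digits {F : ℤ} (h : tst F = true) {l : List ℤ} (hlen : l.length = 105)
    (hl : ∀ z ∈ l, |z| < 2 ^ 191) (hF : F = pZ (2 ^ 192) l) : ∀ z ∈ l, 0 ≤ z := by
  have h1 : Nat.land (Int.toNat (F + (OFF : ℤ))) OFF = OFF := Nat.eq_of_beq_eq_true h
  have h2 : F + (OFF : ℤ) = (pN (l.map fun z => (z + 2 ^ 191).toNat) : ℕ) := by
    rw [← pZ_off l hl, hlen, hF, ← OFF_eq]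
  rw [h2, Int.toNat_natCast] at h1
  have hlt : ∀ z ∈ (l.map fun z => (z + 2 ^ 191).toNat), z < 2 ^ 192 := by
    intro z hz
    obtain ⟨y, hy, rfl⟩ := List.mem_map.1 hz
    have hy' := abs_lt.1 (hl y hy)
    have h3 : y + 2 ^ 191 < 2 ^ 192 := by
      have := hy'.2
      norm_num at this ⊢
      linarith
    have h4 : 0 ≤ y + 2 ^ 191 := by linarith [hy'.1]
    have h5 : (((y + 2 ^ 191).toNat : ℕ) : ℤ) < ((2 ^ 192 : ℕ) : ℤ) := by
      rw [Int.toNat_of_nonneg h4]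
      push_cast
      exact h3
    exact_mod_cast h5
  intro z hz
  obtain ⟨p, hp, rfl⟩ := List.getElem_of_mem hz
  have hp' : p < (l.map fun z => (z + 2 ^ 191).toNat).length := by
    rw [List.length_map]
    exact hp
  have b1 := pN_testBit _ hlt p hp'
  have hp2 : p < (List.replicate 105 (2 ^ 191 : ℕ)).length := by
    rw [List.length_replicate, ← hlen]
    exact hp
  have b2 := pN_testBit (List.replicate 105 (2 ^ 191 : ℕ)) (by
    intro z hz
    rw [List.eq_of_mem_replicate hz]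
    norm_num) p hp2
  rw [← OFF_eq, List.getElem_replicate] at b2
  have b3 : (2 ^ 191 : ℕ).testBit 191 = true := Nat.testBit_two_pow_self
  rw [b3] at b2
  have b4 : (Nat.land (pN (l.map fun z => (z + 2 ^ 191).toNat)) OFF).testBit (192 * p + 191) =
      true := by
    rw [h1]
    exact b2
  have b5 : ((pN (l.map fun z => (z + 2 ^ 191).toNat)) &&& OFF).testBit (192 * p + 191) =
      true := b4
  rw [Nat.testBit_and, b2, Bool.and_true, b1, List.getElem_map, testBit_191 _ (by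
    have := hlt _ (List.getElem_mem hp')
    rw [List.getElem_map] at this
    exact this)] at b5
  have b6 : 2 ^ 191 ≤ (l[p] + 2 ^ 191).toNat := of_decide_eq_true b5
  have b7 : ((2 ^ 191 : ℕ) : ℤ) ≤ ((l[p] + 2 ^ 191).toNat : ℤ) := Int.ofNat_le.2 b6
  have hy' := abs_lt.1 (hl l[p] (List.getElem_mem hp))
  rw [Int.toNat_of_nonneg (by linarith [hy'.1])] at b7
  push_cast at b7
  linarith

end Pool.Agent.TET.Cvr
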