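import Pool.Agent.Helper37_TET.CovP1

/-!
# MP_c7c9bf_co: the packed form of the leaf test, algebra
-/

set_option autoImplicit false

namespace Pool.Agent.TET.Cvr

/-- a block of seven digits -/
def blk (a00 a01 a11 a02 a12 a22 : ℤ) : List ℤ := [a00, a01, a11, a02, a12, 0, a22]

def z7 : List ℤ := [0, 0, 0, 0, 0, 0, 0]

theorem pZ_blk (t a00 a01 a11 a02 a12 a22 : ℤ) (l : List ℤ) :
    pZ t (blk a00 a01 a11 a02 a12 a22 ++ l) =
      (a00 + a01 * t + a11 * t ^ 2 + a02 * t ^ 3 + a12 * t ^ 4 + a22 * t ^ 6) + t ^ 7 * pZ t l := by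
  show a00 + t * (a01 + t * (a11 + t * (a02 + t * (a12 + t * (0 + t * (a22 + t * pZ t l)))))) = _
  ring

theorem pZ_z7 (t : ℤ) (l : List ℤ) : pZ t (z7 ++ l) = t ^ 7 * pZ t l := by
  show 0 + t * (0 + t * (0 + t * (0 + t * (0 + t * (0 + t * (0 + t * pZ t l)))))) = _
  ring

/-- six digits -/
structure D6 where
  a : ℤ
  b : ℤ
  c : ℤ
  d : ℤ
  e : ℤ
  f : ℤ

def D6.blk (x : D6) : List ℤ := Cvr.blk x.a x.b x.c x.d x.e x.f

def D6.val (t : ℤ) (x : D6) : ℤ :=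
  x.a + x.b * t + x.c * t ^ 2 + x.d * t ^ 3 + x.e * t ^ 4 + x.f * t ^ 6

/-- the 105 digits -/
def dig (x0 x1 x2 x3 x4 x6 x7 x8 x10 x14 : D6) : List ℤ :=
  x0.blk ++ (x1.blk ++ (x2.blk ++ (x3.blk ++ (x4.blk ++ (z7 ++ (x6.blk ++ (x7.blk ++ (x8.blk ++
    (z7 ++ (x10.blk ++ (z7 ++ (z7 ++ (z7 ++ (x14.blk ++ []))))))))))))))

theorem dig_len (x0 x1 x2 x3 x4 x6 x7 x8 x10 x14 : D6) :
    (dig x0 x1 x2 x3 x4 x6 x7 x8 x10 x14).length = 105 := rfl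

theorem dig_val (t : ℤ) (x0 x1 x2 x3 x4 x6 x7 x8 x10 x14 : D6) :
    pZ t (dig x0 x1 x2 x3 x4 x6 x7 x8 x10 x14) =
      x0.val t + t ^ 7 * x1.val t + t ^ 14 * x2.val t + t ^ 21 * x3.val t + t ^ 28 * x4.val t +
      t ^ 42 * x6.val t + t ^ 49 * x7.val t + t ^ 56 * x8.val t + t ^ 70 * x10.val t +
      t ^ 98 * x14.val t := by
  have hv : ∀ (x : D6) (l : List ℤ), pZ t (x.blk ++ l) = x.val t + t ^ 7 * pZ t l :=
    fun x l => pZ_blk t _ _ _ _ _ _ l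
  unfold dig
  rw [hv, hv, hv, hv, hv, pZ_z7, hv, hv, hv, pZ_z7, hv, pZ_z7, pZ_z7, pZ_z7, hv]
  have h0 : pZ t [] = 0 := rfl
  rw [h0]
  ring

/-- all six digits satisfy `P` -/
def D6.all (P : ℤ → Prop) (x : D6) : Prop := P x.a ∧ P x.b ∧ P x.c ∧ P x.d ∧ P x.e ∧ P x.f

theorem blk_all {P : ℤ → Prop} (h0 : P 0) {x : D6} (hx : x.all P) : ∀ z ∈ x.blk, P z := by
  obtain ⟨a, b, c, d, e, f⟩ := hx
  intro z hz
  unfold D6.blk blk at hz
  simp only [List.mem_cons, List.not_mem_nil, or_false] at hz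
  rcases hz with rfl | rfl | rfl | rfl | rfl | rfl | rfl <;> assumption

theorem all_blk {P : ℤ → Prop} {x : D6} (h : ∀ z ∈ x.blk, P z) : x.all P := by
  unfold D6.blk blk at h
  refine ⟨h _ ?_, h _ ?_, h _ ?_, h _ ?_, h _ ?_, h _ ?_⟩ <;> simp

theorem z7_all {P : ℤ → Prop} (h0 : P 0) : ∀ z ∈ z7, P z := by
  intro z hz
  unfold z7 at hz
  simp only [List.mem_cons, List.not_mem_nil, or_false] at hz
  rcases hz with rfl | rfl | rfl | rfl | rfl | rfl | rfl <;> exact h0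

theorem dig_all {P : ℤ → Prop} (h0 : P 0) {x0 x1 x2 x3 x4 x6 x7 x8 x10 x14 : D6} (y0 : x0.all P)
    (y1 : x1.all P) (y2 : x2.all P) (y3 : x3.all P) (y4 : x4.all P) (y6 : x6.all P)
    (y7 : x7.all P) (y8 : x8.all P) (y10 : x10.all P) (y14 : x14.all P) :
    ∀ z ∈ dig x0 x1 x2 x3 x4 x6 x7 x8 x10 x14, P z := by
  intro z hz
  unfold dig at hz
  simp only [List.mem_append] at hz
  rcases hz with h | h | h | h | h | h | h | h | h | h | h | h | h | h | h | h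
  · exact blk_all h0 y0 z h
  · exact blk_all h0 y1 z h
  · exact blk_all h0 y2 z h
  · exact blk_all h0 y3 z h
  · exact blk_all h0 y4 z h
  · exact z7_all h0 z h
  · exact blk_all h0 y6 z h
  · exact blk_all h0 y7 z h
  · exact blk_all h0 y8 z h
  · exact z7_all h0 z h
  · exact blk_all h0 y10 z h
  · exact z7_all h0 z h
  · exact z7_all h0 z h
  · exact z7_all h0 z h
  · exact blk_all h0 y14 z h
  · exact absurd h List.not_mem_nil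

theorem all_dig {P : ℤ → Prop} {x0 x1 x2 x3 x4 x6 x7 x8 x10 x14 : D6}
    (h : ∀ z ∈ dig x0 x1 x2 x3 x4 x6 x7 x8 x10 x14, P z) :
    x0.all P ∧ x1.all P ∧ x2.all P ∧ x3.all P ∧ x4.all P ∧ x6.all P ∧ x7.all P ∧ x8.all P ∧
      x10.all P ∧ x14.all P := by
  unfold dig at h
  simp only [List.mem_append] at h
  refine ⟨all_blk fun z hz => h z ?_, all_blk fun z hz => h z ?_, all_blk fun z hz => h z ?_,
    all_blk fun z hz => h z ?_, all_blk fun z hz => h z ?_, all_blk fun z hz => h z ?_,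
    all_blk fun z hz => h z ?_, all_blk fun z hz => h z ?_, all_blk fun z hz => h z ?_,
    all_blk fun z hz => h z ?_⟩ <;> simp [hz]

/-- the digits are non-negative -/
theorem tst_dig {F : ℤ} (h : tst F = true) {x0 x1 x2 x3 x4 x6 x7 x8 x10 x14 : D6}
    (y0 : x0.all fun z => |z| < 2 ^ 191)
    (y1 : x1.all fun z => |z| < 2 ^ 191) (y2 : x2.all fun z => |z| < 2 ^ 191)
    (y3 : x3.all fun z => |z| < 2 ^ 191) (y4 : x4.all fun z => |z| < 2 ^ 191)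
    (y6 : x6.all fun z => |z| < 2 ^ 191) (y7 : x7.all fun z => |z| < 2 ^ 191)
    (y8 : x8.all fun z => |z| < 2 ^ 191) (y10 : x10.all fun z => |z| < 2 ^ 191)
    (y14 : x14.all fun z => |z| < 2 ^ 191)
    (hF : F = pZ (2 ^ 192) (dig x0 x1 x2 x3 x4 x6 x7 x8 x10 x14)) :
    x0.all (0 ≤ ·) ∧ x1.all (0 ≤ ·) ∧ x2.all (0 ≤ ·) ∧ x3.all (0 ≤ ·) ∧ x4.all (0 ≤ ·) ∧
      x6.all (0 ≤ ·) ∧ x7.all (0 ≤ ·) ∧ x8.all (0 ≤ ·) ∧ x10.all (0 ≤ ·) ∧ x14.all (0 ≤ ·) :=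
  all_dig (tst_digits h (dig_len ..)
    (dig_all (by rw [abs_zero]; positivity) y0 y1 y2 y3 y4 y6 y7 y8 y10 y14) hF)

/-! ### products -/

theorem tri_mul (t a0 a1 a2 b0 b1 b2 : ℤ) :
    (a0 + a1 * t + a2 * t ^ 3) * (b0 + b1 * t + b2 * t ^ 3) =
      (D6.mk (a0 * b0) (a0 * b1 + a1 * b0) (a1 * b1) (a0 * b2 + a2 * b0) (a1 * b2 + a2 * b1)
        (a2 * b2)).val t := by
  unfold D6.val
  ring

/-- linear combination of digits -/
def D6.lc (h p q s : ℤ) (V B C D : D6) : D6 :=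
  ⟨h * V.a + p * B.a + q * C.a - s * D.a, h * V.b + p * B.b + q * C.b - s * D.b,
    h * V.c + p * B.c + q * C.c - s * D.c, h * V.d + p * B.d + q * C.d - s * D.d,
    h * V.e + p * B.e + q * C.e - s * D.e, h * V.f + p * B.f + q * C.f - s * D.f⟩

theorem lc_val (t h p q s : ℤ) (V B C D : D6) :
    (D6.lc h p q s V B C D).val t = h * V.val t + p * B.val t + q * C.val t - s * D.val t := by
  unfold D6.lc D6.val
  ring

/-- the product of two packed vectors of generators -/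
theorem gen_mul (g a0 a1 a2 a3 b0 b1 b2 b3 : ℤ) :
    (a0 + a1 * g + a2 * g ^ 3 + a3 * g ^ 7) * (b0 + b1 * g + b2 * g ^ 3 + b3 * g ^ 7) =
      a0 * b0 + g * (a0 * b1 + a1 * b0) + g ^ 2 * (a1 * b1) + g ^ 3 * (a0 * b2 + a2 * b0) +
      g ^ 4 * (a1 * b2 + a2 * b1) + g ^ 6 * (a2 * b2) + g ^ 7 * (a0 * b3 + a3 * b0) +
      g ^ 8 * (a1 * b3 + a3 * b1) + g ^ 10 * (a2 * b3 + a3 * b2) + g ^ 14 * (a3 * b3) := by
  ring

/-! ### bounds -/

theorem mul_bd {x y X Y : ℤ} (hx : |x| ≤ X) (hy : |y| ≤ Y) : |x * y| ≤ X * Y := by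
  rw [abs_mul]
  exact mul_le_mul hx hy (abs_nonneg y) ((abs_nonneg x).trans hx)

theorem add_bd {x y X Y : ℤ} (hx : |x| ≤ X) (hy : |y| ≤ Y) : |x + y| ≤ X + Y :=
  (abs_add_le x y).trans (add_le_add hx hy)

theorem sub_bd {x y X Y : ℤ} (hx : |x| ≤ X) (hy : |y| ≤ Y) : |x - y| ≤ X + Y := by
  rw [sub_eq_add_neg]
  exact add_bd hx (by rwa [abs_neg])

theorem lc_bd {h p q s H P Q S VV BB CC DD : ℤ} {V B C D : D6} (hh : |h| ≤ H) (hp : |p| ≤ P)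
    (hq : |q| ≤ Q) (hs : |s| ≤ S) (hV : V.all (|·| ≤ VV)) (hB : B.all (|·| ≤ BB))
    (hC : C.all (|·| ≤ CC)) (hD : D.all (|·| ≤ DD))
    (hlt : H * VV + P * BB + Q * CC + S * DD < 2 ^ 191) :
    (D6.lc h p q s V B C D).all (|·| < 2 ^ 191) := by
  have key : ∀ v b c d : ℤ, |v| ≤ VV → |b| ≤ BB → |c| ≤ CC → |d| ≤ DD →
      |h * v + p * b + q * c - s * d| < 2 ^ 191 := fun v b c d h1 h2 h3 h4 =>
    lt_of_le_of_lt (sub_bd (add_bd (add_bd (mul_bd hh h1) (mul_bd hp h2)) (mul_bd hq h3))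
      (mul_bd hs h4)) hlt
  obtain ⟨v1, v2, v3, v4, v5, v6⟩ := hV
  obtain ⟨b1, b2, b3, b4, b5, b6⟩ := hB
  obtain ⟨c1, c2, c3, c4, c5, c6⟩ := hC
  obtain ⟨d1, d2, d3, d4, d5, d6⟩ := hD
  exact ⟨key _ _ _ _ v1 b1 c1 d1, key _ _ _ _ v2 b2 c2 d2, key _ _ _ _ v3 b3 c3 d3,
    key _ _ _ _ v4 b4 c4 d4, key _ _ _ _ v5 b5 c5 d5, key _ _ _ _ v6 b6 c6 d6⟩

end Pool.Agent.TET.Cvr
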