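import Pool.Agent.Helper37_TET.CovP2

/-!
# MP_c7c9bf_co: the packed form of the leaf test, quadratic conditions
-/

set_option autoImplicit false

namespace Pool.Agent.TET.Cvr

/-! ### packed vectors -/

theorem tw_eq (k : ℕ) : ((tw k : ℕ) : ℤ) = (2 ^ 192) ^ k := by
  have h : tw k = 2 ^ (192 * k) := rfl
  rw [h]
  push_cast
  rw [pow_mul]
  norm_num

theorem pk3_eq (a b c : ℤ) : pk3 a b c = a + b * 2 ^ 192 + c * (2 ^ 192) ^ 3 := by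
  have h : pk3 a b c = a + (b * ((tw 1 : ℕ) : ℤ) + c * ((tw 3 : ℕ) : ℤ)) := rfl
  rw [h, tw_eq, tw_eq, pow_one]
  ring

theorem pk4_eq (a b c d : ℤ) : pk4 a b c d = a + b * (2 ^ 192) ^ 7 + c * ((2 ^ 192) ^ 7) ^ 3 +
    d * ((2 ^ 192) ^ 7) ^ 7 := by
  have h : pk4 a b c d = a + (b * ((tw 7 : ℕ) : ℤ) + (c * ((tw 21 : ℕ) : ℤ) +
    d * ((tw 49 : ℕ) : ℤ))) := rfl
  have h1 : ∀ t : ℤ, a + (b * t ^ 7 + (c * t ^ 21 + d * t ^ 49)) =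
      a + b * t ^ 7 + c * (t ^ 7) ^ 3 + d * (t ^ 7) ^ 7 := fun t => by ring
  rw [h, tw_eq, tw_eq, tw_eq]
  exact h1 _

theorem dot_def (m n : V4) : dot m n = (m.a * n.a + m.b * n.b) + (m.c * n.c + m.d * n.d) := rfl

theorem dot_pv (v x y z : V4) :
    dot v (pv x y z) = dot v x + dot v y * 2 ^ 192 + dot v z * (2 ^ 192) ^ 3 := by
  rw [dot_def, dot_def, dot_def, dot_def]
  show (v.a * pk3 x.a y.a z.a + v.b * pk3 x.b y.b z.b) + (v.c * pk3 x.c y.c z.c +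
    v.d * pk3 x.d y.d z.d) = _
  rw [pk3_eq, pk3_eq, pk3_eq, pk3_eq]
  generalize (2 ^ 192 : ℤ) = t
  ring

/-! ### digits of the products -/

def tri (a0 a1 a2 b0 b1 b2 : ℤ) : D6 :=
  ⟨a0 * b0, a0 * b1 + a1 * b0, a1 * b1, a0 * b2 + a2 * b0, a1 * b2 + a2 * b1, a2 * b2⟩

def D6.plus (x y : D6) : D6 := ⟨x.a + y.a, x.b + y.b, x.c + y.c, x.d + y.d, x.e + y.e, x.f + y.f⟩

theorem tri_val (t a0 a1 a2 b0 b1 b2 : ℤ) : (tri a0 a1 a2 b0 b1 b2).val t =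
    (a0 + a1 * t + a2 * t ^ 3) * (b0 + b1 * t + b2 * t ^ 3) := (tri_mul t a0 a1 a2 b0 b1 b2).symm

theorem plus_val (t : ℤ) (x y : D6) : (x.plus y).val t = x.val t + y.val t := by
  unfold D6.plus D6.val
  ring

theorem tri_bd {a0 a1 a2 b0 b1 b2 X Y : ℤ} (h0 : |a0| ≤ X) (h1 : |a1| ≤ X) (h2 : |a2| ≤ X)
    (k0 : |b0| ≤ Y) (k1 : |b1| ≤ Y) (k2 : |b2| ≤ Y) :
    (tri a0 a1 a2 b0 b1 b2).all (|·| ≤ X * Y + X * Y) := by
  have hX : 0 ≤ X := (abs_nonneg _).trans h0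
  have hY : 0 ≤ Y := (abs_nonneg _).trans k0
  have hXY : 0 ≤ X * Y := mul_nonneg hX hY
  have one : ∀ x y : ℤ, |x| ≤ X → |y| ≤ Y → |x * y| ≤ X * Y + X * Y := fun x y h k =>
    (mul_bd h k).trans (by linarith)
  exact ⟨one _ _ h0 k0, add_bd (mul_bd h0 k1) (mul_bd h1 k0), one _ _ h1 k1,
    add_bd (mul_bd h0 k2) (mul_bd h2 k0), add_bd (mul_bd h1 k2) (mul_bd h2 k1), one _ _ h2 k2⟩

theorem plus_bd {x y : D6} {X Y : ℤ} (hx : x.all (|·| ≤ X)) (hy : y.all (|·| ≤ Y)) :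
    (x.plus y).all (|·| ≤ X + Y) := by
  obtain ⟨a, b, c, d, e, f⟩ := hx
  obtain ⟨a', b', c', d', e', f'⟩ := hy
  exact ⟨add_bd a a', add_bd b b', add_bd c c', add_bd d d', add_bd e e', add_bd f f'⟩

theorem all_mono {x : D6} {X Y : ℤ} (hx : x.all (|·| ≤ X)) (h : X ≤ Y) : x.all (|·| ≤ Y) := by
  obtain ⟨a, b, c, d, e, f⟩ := hx
  exact ⟨a.trans h, b.trans h, c.trans h, d.trans h, e.trans h, f.trans h⟩

/-- one pair of generators -/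
theorem quP_true {a0 a1 a2 b0 b1 b2 c0 c1 c2 d0 d1 d2 H P Q S h p q s m : ℤ} {W0 W1 W2 : ℕ}
    (hm : 0 ≤ m) (hH : H = 2 * (m * h)) (hP : P = m * p) (hQ : Q = m * q) (hS : S = m * s)
    (hx : (D6.lc h p q s (tri W0 W1 W2 W0 W1 W2) (tri a0 a1 a2 b0 b1 b2) (tri c0 c1 c2 d0 d1 d2)
      ((tri a0 a1 a2 d0 d1 d2).plus (tri c0 c1 c2 b0 b1 b2))).all (0 ≤ ·)) :
    quP a0 a1 a2 b0 b1 b2 c0 c1 c2 d0 d1 d2 (ww W0 W0) (ww W1 W1) (ww W2 W2) (ww W0 W1) (ww W0 W2)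
      (ww W1 W2) H P Q S = true := by
  obtain ⟨x1, x2, x3, x4, x5, x6⟩ := hx
  have e1 : (D6.lc h p q s (tri W0 W1 W2 W0 W1 W2) (tri a0 a1 a2 b0 b1 b2) (tri c0 c1 c2 d0 d1 d2)
      ((tri a0 a1 a2 d0 d1 d2).plus (tri c0 c1 c2 b0 b1 b2))).a = h * ((W0 : ℤ) * W0) + p * (a0 * b0) +
      q * (c0 * d0) - s * (a0 * d0 + c0 * b0) := rfl
  have e2 : (D6.lc h p q s (tri W0 W1 W2 W0 W1 W2) (tri a0 a1 a2 b0 b1 b2) (tri c0 c1 c2 d0 d1 d2)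
      ((tri a0 a1 a2 d0 d1 d2).plus (tri c0 c1 c2 b0 b1 b2))).b = h * ((W0 : ℤ) * W1 + W1 * W0) +
      p * (a0 * b1 + a1 * b0) + q * (c0 * d1 + c1 * d0) -
      s * ((a0 * d1 + a1 * d0) + (c0 * b1 + c1 * b0)) := rfl
  have e3 : (D6.lc h p q s (tri W0 W1 W2 W0 W1 W2) (tri a0 a1 a2 b0 b1 b2) (tri c0 c1 c2 d0 d1 d2)
      ((tri a0 a1 a2 d0 d1 d2).plus (tri c0 c1 c2 b0 b1 b2))).c = h * ((W1 : ℤ) * W1) + p * (a1 * b1) +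
      q * (c1 * d1) - s * (a1 * d1 + c1 * b1) := rfl
  have e4 : (D6.lc h p q s (tri W0 W1 W2 W0 W1 W2) (tri a0 a1 a2 b0 b1 b2) (tri c0 c1 c2 d0 d1 d2)
      ((tri a0 a1 a2 d0 d1 d2).plus (tri c0 c1 c2 b0 b1 b2))).d = h * ((W0 : ℤ) * W2 + W2 * W0) +
      p * (a0 * b2 + a2 * b0) + q * (c0 * d2 + c2 * d0) -
      s * ((a0 * d2 + a2 * d0) + (c0 * b2 + c2 * b0)) := rfl
  have e5 : (D6.lc h p q s (tri W0 W1 W2 W0 W1 W2) (tri a0 a1 a2 b0 b1 b2) (tri c0 c1 c2 d0 d1 d2)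
      ((tri a0 a1 a2 d0 d1 d2).plus (tri c0 c1 c2 b0 b1 b2))).e = h * ((W1 : ℤ) * W2 + W2 * W1) +
      p * (a1 * b2 + a2 * b1) + q * (c1 * d2 + c2 * d1) -
      s * ((a1 * d2 + a2 * d1) + (c1 * b2 + c2 * b1)) := rfl
  have e6 : (D6.lc h p q s (tri W0 W1 W2 W0 W1 W2) (tri a0 a1 a2 b0 b1 b2) (tri c0 c1 c2 d0 d1 d2)
      ((tri a0 a1 a2 d0 d1 d2).plus (tri c0 c1 c2 b0 b1 b2))).f = h * ((W2 : ℤ) * W2) + p * (a2 * b2) +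
      q * (c2 * d2) - s * (a2 * d2 + c2 * b2) := rfl
  rw [e1] at x1
  rw [e2] at x2
  rw [e3] at x3
  rw [e4] at x4
  rw [e5] at x5
  rw [e6] at x6
  unfold quP
  simp only [bAnd]
  unfold quC
  simp only [nn_iff]
  have w : ∀ x y : ℕ, ww x y = (x : ℤ) * y := fun x y => by
    show ((x * y : ℕ) : ℤ) = _
    push_cast
    rfl
  have f1 : ∀ x y : ℤ, Int.mul x y = x * y := fun _ _ => rfl
  have f2 : ∀ x y : ℤ, Int.add x y = x + y := fun _ _ => rfl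
  have f3 : ∀ x y : ℤ, Int.sub x y = x - y := fun _ _ => rfl
  simp only [f1, f2, f3, pol_eq, w, hH, hP, hQ, hS]
  refine ⟨⟨⟨?_, ?_⟩, ?_, ?_⟩, ?_, ?_⟩
  · have := mul_nonneg hm x1
    linarith
  · have := mul_nonneg hm x3
    linarith
  · have := mul_nonneg hm x6
    linarith
  · have := mul_nonneg hm x2
    linarith
  · have := mul_nonneg hm x4
    linarith
  · have := mul_nonneg hm x5
    linarith

end Pool.Agent.TET.Cvr
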