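import Pool.Agent.Helper37_TET.CovP3

/-!
# MP_c7c9bf_co: the packed form of the leaf test, the main step
-/

set_option autoImplicit false

namespace Pool.Agent.TET.Cvr

/-- the sum of the products of the packed polynomials -/
theorem comb_all (t A VV AB CD AD h0 h1 h2 h3 h4 h6 h7 h8 h10 h14 p0 p1 p2 p3 p4 p6 p7 p8 p10 p14
    q0 q1 q2 q3 q4 q6 q7 q8 q10 q14 s0 s1 s2 s3 s4 s6 s7 s8 s10 s14 : ℤ) :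
    (h0 + t ^ 7 * h1 + t ^ 14 * h2 + t ^ 21 * h3 + t ^ 28 * h4 + t ^ 42 * h6 + t ^ 49 * h7 +
      t ^ 56 * h8 + t ^ 70 * h10 + t ^ 98 * h14) * A * VV +
    (p0 + t ^ 7 * p1 + t ^ 14 * p2 + t ^ 21 * p3 + t ^ 28 * p4 + t ^ 42 * p6 + t ^ 49 * p7 +
      t ^ 56 * p8 + t ^ 70 * p10 + t ^ 98 * p14) * AB +
    ((q0 + t ^ 7 * q1 + t ^ 14 * q2 + t ^ 21 * q3 + t ^ 28 * q4 + t ^ 42 * q6 + t ^ 49 * q7 +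
      t ^ 56 * q8 + t ^ 70 * q10 + t ^ 98 * q14) * CD -
    (s0 + t ^ 7 * s1 + t ^ 14 * s2 + t ^ 21 * s3 + t ^ 28 * s4 + t ^ 42 * s6 + t ^ 49 * s7 +
      t ^ 56 * s8 + t ^ 70 * s10 + t ^ 98 * s14) * AD) =
    (h0 * A * VV + p0 * AB + q0 * CD - s0 * AD) + t ^ 7 * (h1 * A * VV + p1 * AB + q1 * CD - s1 * AD) +
    t ^ 14 * (h2 * A * VV + p2 * AB + q2 * CD - s2 * AD) +
    t ^ 21 * (h3 * A * VV + p3 * AB + q3 * CD - s3 * AD) +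
    t ^ 28 * (h4 * A * VV + p4 * AB + q4 * CD - s4 * AD) +
    t ^ 42 * (h6 * A * VV + p6 * AB + q6 * CD - s6 * AD) +
    t ^ 49 * (h7 * A * VV + p7 * AB + q7 * CD - s7 * AD) +
    t ^ 56 * (h8 * A * VV + p8 * AB + q8 * CD - s8 * AD) +
    t ^ 70 * (h10 * A * VV + p10 * AB + q10 * CD - s10 * AD) +
    t ^ 98 * (h14 * A * VV + p14 * AB + q14 * CD - s14 * AD) := by
  ring

/-- the product of two packed vectors of generators -/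
theorem gen_mul' (t a0 a1 a2 a3 b0 b1 b2 b3 : ℤ) :
    (a0 + a1 * t ^ 7 + a2 * (t ^ 7) ^ 3 + a3 * (t ^ 7) ^ 7) *
      (b0 + b1 * t ^ 7 + b2 * (t ^ 7) ^ 3 + b3 * (t ^ 7) ^ 7) =
      a0 * b0 + t ^ 7 * (a0 * b1 + a1 * b0) + t ^ 14 * (a1 * b1) + t ^ 21 * (a0 * b2 + a2 * b0) +
      t ^ 28 * (a1 * b2 + a2 * b1) + t ^ 42 * (a2 * b2) + t ^ 49 * (a0 * b3 + a3 * b0) +
      t ^ 56 * (a1 * b3 + a3 * b1) + t ^ 70 * (a2 * b3 + a3 * b2) + t ^ 98 * (a3 * b3) := by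
  ring

/-- the difference of two such products -/
theorem gen_sub (t a0 a1 a2 a3 a4 a6 a7 a8 a10 a14 b0 b1 b2 b3 b4 b6 b7 b8 b10 b14 : ℤ) :
    (a0 + t ^ 7 * a1 + t ^ 14 * a2 + t ^ 21 * a3 + t ^ 28 * a4 + t ^ 42 * a6 + t ^ 49 * a7 +
      t ^ 56 * a8 + t ^ 70 * a10 + t ^ 98 * a14) -
    (b0 + t ^ 7 * b1 + t ^ 14 * b2 + t ^ 21 * b3 + t ^ 28 * b4 + t ^ 42 * b6 + t ^ 49 * b7 +
      t ^ 56 * b8 + t ^ 70 * b10 + t ^ 98 * b14) =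
    (a0 - b0) + t ^ 7 * (a1 - b1) + t ^ 14 * (a2 - b2) + t ^ 21 * (a3 - b3) + t ^ 28 * (a4 - b4) +
      t ^ 42 * (a6 - b6) + t ^ 49 * (a7 - b7) + t ^ 56 * (a8 - b8) + t ^ 70 * (a10 - b10) +
      t ^ 98 * (a14 - b14) := by
  ring

/-- **quadratic conditions**: the packed test implies the test of all pairs -/
theorem quaP_all {A a0 a1 a2 b0 b1 b2 c0 c1 c2 d0 d1 d2 : ℤ} {W0 W1 W2 : ℕ}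
    {k0 k1 k2 k3 x0 x1 x2 x3 y0 y1 y2 y3 g0 g1 g2 g3 : ℤ} {F : ℤ} (hF : tst F = true)
    (eF : F = ((pk4 x0 x1 x2 x3 * pk4 y0 y1 y2 y3 - pk4 g0 g1 g2 g3 * pk4 g0 g1 g2 g3) * A) *
      (pk3 W0 W1 W2 * pk3 W0 W1 W2) +
      (pk4 k0 k1 k2 k3 * pk4 y0 y1 y2 y3) *
        ((a0 + a1 * 2 ^ 192 + a2 * (2 ^ 192) ^ 3) * (b0 + b1 * 2 ^ 192 + b2 * (2 ^ 192) ^ 3)) +
      ((pk4 k0 k1 k2 k3 * pk4 x0 x1 x2 x3) *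
        ((c0 + c1 * 2 ^ 192 + c2 * (2 ^ 192) ^ 3) * (d0 + d1 * 2 ^ 192 + d2 * (2 ^ 192) ^ 3)) -
      (pk4 k0 k1 k2 k3 * pk4 g0 g1 g2 g3) *
        ((a0 + a1 * 2 ^ 192 + a2 * (2 ^ 192) ^ 3) * (d0 + d1 * 2 ^ 192 + d2 * (2 ^ 192) ^ 3) +
        (c0 + c1 * 2 ^ 192 + c2 * (2 ^ 192) ^ 3) * (b0 + b1 * 2 ^ 192 + b2 * (2 ^ 192) ^ 3))))
    (hA : |A| ≤ 2 ^ 34) (ha : |a0| ≤ 2 ^ 52 ∧ |a1| ≤ 2 ^ 52 ∧ |a2| ≤ 2 ^ 52)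
    (hb : |b0| ≤ 2 ^ 52 ∧ |b1| ≤ 2 ^ 52 ∧ |b2| ≤ 2 ^ 52)
    (hc : |c0| ≤ 2 ^ 52 ∧ |c1| ≤ 2 ^ 52 ∧ |c2| ≤ 2 ^ 52)
    (hd : |d0| ≤ 2 ^ 52 ∧ |d1| ≤ 2 ^ 52 ∧ |d2| ≤ 2 ^ 52)
    (hW : |(W0 : ℤ)| ≤ 2 ^ 34 ∧ |(W1 : ℤ)| ≤ 2 ^ 34 ∧ |(W2 : ℤ)| ≤ 2 ^ 34)
    (hk : |k0| ≤ 2 ^ 40 ∧ |k1| ≤ 2 ^ 40 ∧ |k2| ≤ 2 ^ 40 ∧ |k3| ≤ 2 ^ 40)
    (hx : |x0| ≤ 2 ^ 40 ∧ |x1| ≤ 2 ^ 40 ∧ |x2| ≤ 2 ^ 40 ∧ |x3| ≤ 2 ^ 40)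
    (hy : |y0| ≤ 2 ^ 40 ∧ |y1| ≤ 2 ^ 40 ∧ |y2| ≤ 2 ^ 40 ∧ |y3| ≤ 2 ^ 40)
    (hg : |g0| ≤ 2 ^ 40 ∧ |g1| ≤ 2 ^ 40 ∧ |g2| ≤ 2 ^ 40 ∧ |g3| ≤ 2 ^ 40) :
    (∀ a b : Fin 4, a ≠ b → (D6.lc
      (((![x0, x1, x2, x3] a * ![y0, y1, y2, y3] b + ![x0, x1, x2, x3] b * ![y0, y1, y2, y3] a) -
        (![g0, g1, g2, g3] a * ![g0, g1, g2, g3] b + ![g0, g1, g2, g3] b * ![g0, g1, g2, g3] a)) * A)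
      (![k0, k1, k2, k3] a * ![y0, y1, y2, y3] b + ![k0, k1, k2, k3] b * ![y0, y1, y2, y3] a)
      (![k0, k1, k2, k3] a * ![x0, x1, x2, x3] b + ![k0, k1, k2, k3] b * ![x0, x1, x2, x3] a)
      (![k0, k1, k2, k3] a * ![g0, g1, g2, g3] b + ![k0, k1, k2, k3] b * ![g0, g1, g2, g3] a)
      (tri W0 W1 W2 W0 W1 W2) (tri a0 a1 a2 b0 b1 b2) (tri c0 c1 c2 d0 d1 d2)
      ((tri a0 a1 a2 d0 d1 d2).plus (tri c0 c1 c2 b0 b1 b2))).all (0 ≤ ·)) ∧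
    (∀ a : Fin 4, (D6.lc
      ((![x0, x1, x2, x3] a * ![y0, y1, y2, y3] a -
        ![g0, g1, g2, g3] a * ![g0, g1, g2, g3] a) * A)
      (![k0, k1, k2, k3] a * ![y0, y1, y2, y3] a) (![k0, k1, k2, k3] a * ![x0, x1, x2, x3] a)
      (![k0, k1, k2, k3] a * ![g0, g1, g2, g3] a)
      (tri W0 W1 W2 W0 W1 W2) (tri a0 a1 a2 b0 b1 b2) (tri c0 c1 c2 d0 d1 d2)
      ((tri a0 a1 a2 d0 d1 d2).plus (tri c0 c1 c2 b0 b1 b2))).all (0 ≤ ·)) := by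
  obtain ⟨V, hV⟩ : ∃ V, V = tri (W0 : ℤ) W1 W2 W0 W1 W2 := ⟨_, rfl⟩
  obtain ⟨B, hB⟩ : ∃ B, B = tri a0 a1 a2 b0 b1 b2 := ⟨_, rfl⟩
  obtain ⟨C, hC⟩ : ∃ C, C = tri c0 c1 c2 d0 d1 d2 := ⟨_, rfl⟩
  obtain ⟨D, hD⟩ : ∃ D, D = (tri a0 a1 a2 d0 d1 d2).plus (tri c0 c1 c2 b0 b1 b2) := ⟨_, rfl⟩
  rw [← hV, ← hB, ← hC, ← hD]
  have bV : V.all (|·| ≤ 2 ^ 69) := by
    rw [hV]
    exact all_mono (tri_bd hW.1 hW.2.1 hW.2.2 hW.1 hW.2.1 hW.2.2) (by norm_num)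
  have bB : B.all (|·| ≤ 2 ^ 105) := by
    rw [hB]
    exact all_mono (tri_bd ha.1 ha.2.1 ha.2.2 hb.1 hb.2.1 hb.2.2) (by norm_num)
  have bC : C.all (|·| ≤ 2 ^ 105) := by
    rw [hC]
    exact all_mono (tri_bd hc.1 hc.2.1 hc.2.2 hd.1 hd.2.1 hd.2.2) (by norm_num)
  have bD : D.all (|·| ≤ 2 ^ 106) := by
    rw [hD]
    exact all_mono (plus_bd (tri_bd ha.1 ha.2.1 ha.2.2 hd.1 hd.2.1 hd.2.2)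
      (tri_bd hc.1 hc.2.1 hc.2.2 hb.1 hb.2.1 hb.2.2)) (by norm_num)
  have bd : ∀ h p q s : ℤ, |h| ≤ 2 ^ 116 → |p| ≤ 2 ^ 81 → |q| ≤ 2 ^ 81 → |s| ≤ 2 ^ 81 →
      (D6.lc h p q s V B C D).all (|·| < 2 ^ 191) := fun h p q s h1 h2 h3 h4 =>
    lc_bd h1 h2 h3 h4 bV bB bC bD (by norm_num)
  have m2 : ∀ u v : ℤ, |u| ≤ 2 ^ 40 → |v| ≤ 2 ^ 40 → |u * v| ≤ 2 ^ 81 := fun u v h1 h2 =>
    (mul_bd h1 h2).trans (by norm_num)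
  have m4 : ∀ u v u' v' : ℤ, |u| ≤ 2 ^ 40 → |v| ≤ 2 ^ 40 → |u'| ≤ 2 ^ 40 → |v'| ≤ 2 ^ 40 →
      |u * v + u' * v'| ≤ 2 ^ 81 := fun u v u' v' h1 h2 h3 h4 =>
    (add_bd (mul_bd h1 h2) (mul_bd h3 h4)).trans (by norm_num)
  have n2 : ∀ u v w : ℤ, |u| ≤ 2 ^ 40 → |v| ≤ 2 ^ 40 → |w| ≤ 2 ^ 40 →
      |(u * v - w * w) * A| ≤ 2 ^ 116 := fun u v w h1 h2 h3 =>
    (mul_bd (sub_bd (mul_bd h1 h2) (mul_bd h3 h3)) hA).trans (by norm_num)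
  have n4 : ∀ u v u' v' w w' : ℤ, |u| ≤ 2 ^ 40 → |v| ≤ 2 ^ 40 → |u'| ≤ 2 ^ 40 → |v'| ≤ 2 ^ 40 →
      |w| ≤ 2 ^ 40 → |w'| ≤ 2 ^ 40 → |((u * v + u' * v') - (w * w' + w' * w)) * A| ≤ 2 ^ 116 :=
    fun u v u' v' w w' h1 h2 h3 h4 h5 h6 =>
    (mul_bd (sub_bd (add_bd (mul_bd h1 h2) (mul_bd h3 h4)) (add_bd (mul_bd h5 h6)
      (mul_bd h6 h5))) hA).trans (by norm_num)
  obtain ⟨hk0, hk1, hk2, hk3⟩ := hk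
  obtain ⟨hx0, hx1, hx2, hx3⟩ := hx
  obtain ⟨hy0, hy1, hy2, hy3⟩ := hy
  obtain ⟨hg0, hg1, hg2, hg3⟩ := hg
  have key := tst_dig hF
    (bd _ _ _ _ (n2 x0 y0 g0 hx0 hy0 hg0) (m2 k0 y0 hk0 hy0) (m2 k0 x0 hk0 hx0) (m2 k0 g0 hk0 hg0))
    (bd _ _ _ _ (n4 x0 y1 x1 y0 g0 g1 hx0 hy1 hx1 hy0 hg0 hg1) (m4 k0 y1 k1 y0 hk0 hy1 hk1 hy0)
      (m4 k0 x1 k1 x0 hk0 hx1 hk1 hx0) (m4 k0 g1 k1 g0 hk0 hg1 hk1 hg0))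
    (bd _ _ _ _ (n2 x1 y1 g1 hx1 hy1 hg1) (m2 k1 y1 hk1 hy1) (m2 k1 x1 hk1 hx1) (m2 k1 g1 hk1 hg1))
    (bd _ _ _ _ (n4 x0 y2 x2 y0 g0 g2 hx0 hy2 hx2 hy0 hg0 hg2) (m4 k0 y2 k2 y0 hk0 hy2 hk2 hy0)
      (m4 k0 x2 k2 x0 hk0 hx2 hk2 hx0) (m4 k0 g2 k2 g0 hk0 hg2 hk2 hg0))
    (bd _ _ _ _ (n4 x1 y2 x2 y1 g1 g2 hx1 hy2 hx2 hy1 hg1 hg2) (m4 k1 y2 k2 y1 hk1 hy2 hk2 hy1)
      (m4 k1 x2 k2 x1 hk1 hx2 hk2 hx1) (m4 k1 g2 k2 g1 hk1 hg2 hk2 hg1))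
    (bd _ _ _ _ (n2 x2 y2 g2 hx2 hy2 hg2) (m2 k2 y2 hk2 hy2) (m2 k2 x2 hk2 hx2) (m2 k2 g2 hk2 hg2))
    (bd _ _ _ _ (n4 x0 y3 x3 y0 g0 g3 hx0 hy3 hx3 hy0 hg0 hg3) (m4 k0 y3 k3 y0 hk0 hy3 hk3 hy0)
      (m4 k0 x3 k3 x0 hk0 hx3 hk3 hx0) (m4 k0 g3 k3 g0 hk0 hg3 hk3 hg0))
    (bd _ _ _ _ (n4 x1 y3 x3 y1 g1 g3 hx1 hy3 hx3 hy1 hg1 hg3) (m4 k1 y3 k3 y1 hk1 hy3 hk3 hy1)
      (m4 k1 x3 k3 x1 hk1 hx3 hk3 hx1) (m4 k1 g3 k3 g1 hk1 hg3 hk3 hg1))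
    (bd _ _ _ _ (n4 x2 y3 x3 y2 g2 g3 hx2 hy3 hx3 hy2 hg2 hg3) (m4 k2 y3 k3 y2 hk2 hy3 hk3 hy2)
      (m4 k2 x3 k3 x2 hk2 hx3 hk3 hx2) (m4 k2 g3 k3 g2 hk2 hg3 hk3 hg2))
    (bd _ _ _ _ (n2 x3 y3 g3 hx3 hy3 hg3) (m2 k3 y3 hk3 hy3) (m2 k3 x3 hk3 hx3) (m2 k3 g3 hk3 hg3))
    (by
      rw [eF, dig_val]
      simp only [lc_val, pk4_eq, pk3_eq]
      rw [← tri_val, ← tri_val, ← tri_val, ← tri_val, ← tri_val, ← hV, ← hB, ← hC,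
        ← plus_val, ← hD]
      generalize (2 ^ 192 : ℤ) = t
      rw [gen_mul', gen_mul', gen_mul', gen_mul', gen_mul', gen_sub, comb_all])
  obtain ⟨r0, r1, r2, r3, r4, r6, r7, r8, r10, r14⟩ := key
  constructor
  · intro a b hab
    have sym : ∀ a b : Fin 4, (D6.lc
      (((![x0, x1, x2, x3] a * ![y0, y1, y2, y3] b + ![x0, x1, x2, x3] b * ![y0, y1, y2, y3] a) -
        (![g0, g1, g2, g3] a * ![g0, g1, g2, g3] b + ![g0, g1, g2, g3] b * ![g0, g1, g2, g3] a)) * A)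
      (![k0, k1, k2, k3] a * ![y0, y1, y2, y3] b + ![k0, k1, k2, k3] b * ![y0, y1, y2, y3] a)
      (![k0, k1, k2, k3] a * ![x0, x1, x2, x3] b + ![k0, k1, k2, k3] b * ![x0, x1, x2, x3] a)
      (![k0, k1, k2, k3] a * ![g0, g1, g2, g3] b + ![k0, k1, k2, k3] b * ![g0, g1, g2, g3] a)
      V B C D) = (D6.lc
      (((![x0, x1, x2, x3] b * ![y0, y1, y2, y3] a + ![x0, x1, x2, x3] a * ![y0, y1, y2, y3] b) -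
        (![g0, g1, g2, g3] b * ![g0, g1, g2, g3] a + ![g0, g1, g2, g3] a * ![g0, g1, g2, g3] b)) * A)
      (![k0, k1, k2, k3] b * ![y0, y1, y2, y3] a + ![k0, k1, k2, k3] a * ![y0, y1, y2, y3] b)
      (![k0, k1, k2, k3] b * ![x0, x1, x2, x3] a + ![k0, k1, k2, k3] a * ![x0, x1, x2, x3] b)
      (![k0, k1, k2, k3] b * ![g0, g1, g2, g3] a + ![k0, k1, k2, k3] a * ![g0, g1, g2, g3] b)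
      V B C D) := by
      intro a b
      congr 1 <;> ring
    fin_cases a <;> fin_cases b
    · exact absurd rfl hab
    · exact r1
    · exact r3
    · exact r7
    · rw [sym]
      exact r1
    · exact absurd rfl hab
    · exact r4
    · exact r8
    · rw [sym]
      exact r3
    · rw [sym]
      exact r4
    · exact absurd rfl hab
    · exact r10
    · rw [sym]
      exact r7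
    · rw [sym]
      exact r8
    · rw [sym]
      exact r10
    · exact absurd rfl hab
  · intro a
    fin_cases a
    · exact r0
    · exact r2
    · exact r6
    · exact r14

end Pool.Agent.TET.Cvr
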