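import Pool.Agent.Helper37_TET.CovP4

/-!
# MP_c7c9bf_co: the packed form of the leaf test, soundness
-/

set_option autoImplicit false

namespace Pool.Agent.TET.Cvr

/-! ### bounds from the size checks -/

theorem nab_le {z : ℤ} {n : ℕ} (h : Nat.ble (nab z) n = true) : |z| ≤ (n : ℤ) := by
  have h1 := Nat.le_of_ble_eq_true h
  cases z with
  | ofNat m =>
    have h2 : m ≤ n := h1
    rw [Int.ofNat_eq_natCast, Nat.abs_cast]
    exact_mod_cast h2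
  | negSucc m =>
    have h2 : m + 1 ≤ n := h1
    rw [Int.negSucc_eq, abs_neg, abs_of_nonneg (by positivity)]
    exact_mod_cast h2

theorem nat_le {m n : ℕ} (h : Nat.ble m n = true) : |(m : ℤ)| ≤ (n : ℤ) := by
  rw [Nat.abs_cast]
  exact_mod_cast Nat.le_of_ble_eq_true h

/-- all entries are at most `n` -/
def vle (v : V4) (n : ℤ) : Prop := |v.a| ≤ n ∧ |v.b| ≤ n ∧ |v.c| ≤ n ∧ |v.d| ≤ n

theorem dot_bd {v n : V4} {X Y : ℤ} (hv : vle v X) (hn : vle n Y) :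
    |dot v n| ≤ (X * Y + X * Y) + (X * Y + X * Y) := by
  rw [dot_def]
  exact add_bd (add_bd (mul_bd hv.1 hn.1) (mul_bd hv.2.1 hn.2.1))
    (add_bd (mul_bd hv.2.2.1 hn.2.2.1) (mul_bd hv.2.2.2 hn.2.2.2))

theorem vB_le {v : V4} (h : vB v = true) : vle v (2 ^ 15) := by
  unfold vB at h
  simp only [bAnd] at h
  obtain ⟨⟨h1, h2⟩, h3, h4⟩ := h
  have e : ((M3 : ℕ) : ℤ) = 2 ^ 15 := by
    unfold M3
    norm_num
  have k1 := nab_le h1
  have k2 := nab_le h2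
  have k3 := nab_le h3
  have k4 := nab_le h4
  rw [e] at k1 k2 k3 k4
  exact ⟨k1, k2, k3, k4⟩

theorem get_vle {v : V4} {n : ℤ} (h : vle v n) (i : ℕ) : |get v i| ≤ n := by
  match i with
  | 0 => exact h.1
  | 1 => exact h.2.1
  | 2 => exact h.2.2.1
  | _ + 3 => exact h.2.2.2

theorem prm_vle {v : V4} {n : ℤ} (h : vle v n) (s0 s1 s2 s3 : ℕ) : vle (prm s0 s1 s2 s3 v) n :=
  ⟨get_vle h s0, get_vle h s1, get_vle h s2, get_vle h s3⟩

/-- a packed vector, relabelled -/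
theorem prm_pv (x y z : V4) (s0 s1 s2 s3 : ℕ) : prm s0 s1 s2 s3 (pv x y z) =
    pv (prm s0 s1 s2 s3 x) (prm s0 s1 s2 s3 y) (prm s0 s1 s2 s3 z) := by
  have h : ∀ i, get (pv x y z) i = pk3 (get x i) (get y i) (get z i) := by
    intro i
    match i with
    | 0 => rfl
    | 1 => rfl
    | 2 => rfl
    | _ + 3 => rfl
  unfold prm
  rw [h, h, h, h]
  rfl

/-! ### the corner vectors -/

theorem sub_abs {a b : ℕ} (ha : (a : ℤ) ≤ 2 ^ 34) (hb : (b : ℤ) ≤ 2 ^ 34) :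
    |Int.subNatNat a b| ≤ 2 ^ 35 := by
  rw [Int.subNatNat_eq_coe]
  refine (sub_bd (X := 2 ^ 34) (Y := 2 ^ 34) ?_ ?_).trans (by norm_num)
  · rw [Nat.abs_cast]
    exact ha
  · rw [Nat.abs_cast]
    exact hb

theorem nat_abs {a : ℕ} (ha : (a : ℤ) ≤ 2 ^ 34) : |Int.ofNat a| ≤ 2 ^ 35 := by
  rw [Int.ofNat_eq_natCast, Nat.abs_cast]
  exact ha.trans (by norm_num)

theorem sub0_abs {b : ℕ} (hb : (b : ℤ) ≤ 2 ^ 34) : |Int.subNatNat 0 b| ≤ 2 ^ 35 :=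
  sub_abs (by norm_num) hb

theorem nC_vle {ch W X Y : ℕ} (hW : (W : ℤ) ≤ 2 ^ 34) (hX : (X : ℤ) ≤ 2 ^ 34)
    (hY : (Y : ℤ) ≤ 2 ^ 34) : vle (nC ch W X Y) (2 ^ 35) := by
  cases ch with
  | zero => exact ⟨sub_abs hX hW, sub0_abs hX, sub_abs hW hY, nat_abs hY⟩
  | succ n =>
    refine ⟨?_, sub0_abs hX, sub0_abs hY, nat_abs hW⟩
    show |Int.subNatNat (X + Y) W| ≤ 2 ^ 35
    rw [Int.subNatNat_eq_coe, abs_le]
    push_cast
    have h1 : (0 : ℤ) ≤ X := by positivity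
    have h2 : (0 : ℤ) ≤ Y := by positivity
    have h3 : (0 : ℤ) ≤ W := by positivity
    norm_num at hW hX hY ⊢
    constructor <;> linarith

theorem zero_vle : |(0 : ℤ)| ≤ 2 ^ 35 := by norm_num

theorem pC_vle {ch W X : ℕ} (hW : (W : ℤ) ≤ 2 ^ 34) (hX : (X : ℤ) ≤ 2 ^ 34) :
    vle (pC ch W X) (2 ^ 35) := by
  cases ch with
  | zero => exact ⟨nat_abs hW, zero_vle, sub_abs hW hX, sub_abs hW hX⟩
  | succ n => exact ⟨zero_vle, sub0_abs hW, zero_vle, sub0_abs hX⟩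

theorem qC_vle {ch W Y : ℕ} (hW : (W : ℤ) ≤ 2 ^ 34) (hY : (Y : ℤ) ≤ 2 ^ 34) :
    vle (qC ch W Y) (2 ^ 35) := by
  cases ch with
  | zero => exact ⟨zero_vle, zero_vle, nat_abs hY, sub_abs hY hW⟩
  | succ n => exact ⟨zero_vle, zero_vle, sub0_abs hW, sub0_abs hY⟩

theorem sC_vle (ch : ℕ) : vle (sC ch) 1 := by
  cases ch with
  | zero => exact ⟨by norm_num [sC], by norm_num [sC], by norm_num [sC], by norm_num [sC]⟩
  | succ n => exact ⟨by norm_num [sC], by norm_num [sC], by norm_num [sC], by norm_num [sC]⟩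

theorem dC_vle : vle dC 1 := by
  refine ⟨?_, ?_, ?_, ?_⟩ <;> norm_num [dC]

theorem eC_vle (ch : ℕ) : vle (eC ch) 1 := by
  cases ch with
  | zero => exact ⟨by norm_num [eC], by norm_num [eC], by norm_num [eC], by norm_num [eC]⟩
  | succ n => exact ⟨by norm_num [eC], by norm_num [eC], by norm_num [eC], by norm_num [eC]⟩

/-! ### quadratic conditions -/

/-- a generator is small -/
structure GnS (u : Gn) : Prop where
  k : |(u.k : ℤ)| ≤ 2 ^ 40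
  al : |(u.al : ℤ)| ≤ 2 ^ 40
  be : |(u.be : ℤ)| ≤ 2 ^ 40
  ga : |u.ga| ≤ 2 ^ 40

theorem gnB_S {u : Gn} (h : gnB u = true) : GnS u := by
  unfold gnB at h
  simp only [bAnd] at h
  obtain ⟨⟨h1, h2⟩, h3, h4⟩ := h
  have e : ((M1 : ℕ) : ℤ) = 2 ^ 40 := by
    unfold M1
    norm_num
  have k1 := nat_le h1
  have k2 := nat_le h2
  have k3 := nat_le h3
  have k4 := nab_le h4
  rw [e] at k1 k2 k3 k4
  exact ⟨k1, k2, k3, k4⟩

theorem ptB_S {p : Pt} (h : ptB p = true) : (p.X : ℤ) ≤ 2 ^ 34 ∧ (p.Y : ℤ) ≤ 2 ^ 34 ∧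
    (p.W : ℤ) ≤ 2 ^ 34 := by
  unfold ptB at h
  simp only [bAnd] at h
  obtain ⟨h1, h2, h3⟩ := h
  have e : ((M2 : ℕ) : ℤ) = 2 ^ 34 := by
    unfold M2
    norm_num
  have k1 := nat_le h1
  have k2 := nat_le h2
  have k3 := nat_le h3
  rw [e, Nat.abs_cast] at k1 k2 k3
  exact ⟨k1, k2, k3⟩

theorem quaP_qua {v w s p0 p1 p2 q0 q1 q2 : V4} {W0 W1 W2 : ℕ} {u0 u1 u2 u3 : Gn}
    (hv : vle v (2 ^ 15)) (hw : vle w (2 ^ 15)) (hs : vle s 1) (hp0 : vle p0 (2 ^ 35))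
    (hp1 : vle p1 (2 ^ 35)) (hp2 : vle p2 (2 ^ 35)) (hq0 : vle q0 (2 ^ 35))
    (hq1 : vle q1 (2 ^ 35)) (hq2 : vle q2 (2 ^ 35)) (hW0 : (W0 : ℤ) ≤ 2 ^ 34)
    (hW1 : (W1 : ℤ) ≤ 2 ^ 34) (hW2 : (W2 : ℤ) ≤ 2 ^ 34) (hu0 : GnS u0) (hu1 : GnS u1)
    (hu2 : GnS u2) (hu3 : GnS u3)
    (h : quaP v w s (pv p0 p1 p2) (pv q0 q1 q2)
      (Int.sub (Int.mul (pk4 (Int.ofNat u0.al) (Int.ofNat u1.al) (Int.ofNat u2.al) (Int.ofNat u3.al))
        (pk4 (Int.ofNat u0.be) (Int.ofNat u1.be) (Int.ofNat u2.be) (Int.ofNat u3.be)))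
        (Int.mul (pk4 u0.ga u1.ga u2.ga u3.ga) (pk4 u0.ga u1.ga u2.ga u3.ga)))
      (Int.mul (pk4 (Int.ofNat u0.k) (Int.ofNat u1.k) (Int.ofNat u2.k) (Int.ofNat u3.k))
        (pk4 (Int.ofNat u0.be) (Int.ofNat u1.be) (Int.ofNat u2.be) (Int.ofNat u3.be)))
      (Int.mul (pk4 (Int.ofNat u0.k) (Int.ofNat u1.k) (Int.ofNat u2.k) (Int.ofNat u3.k))
        (pk4 (Int.ofNat u0.al) (Int.ofNat u1.al) (Int.ofNat u2.al) (Int.ofNat u3.al)))
      (Int.mul (pk4 (Int.ofNat u0.k) (Int.ofNat u1.k) (Int.ofNat u2.k) (Int.ofNat u3.k))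
        (pk4 u0.ga u1.ga u2.ga u3.ga))
      (Int.mul (pk3 (Int.ofNat W0) (Int.ofNat W1) (Int.ofNat W2))
        (pk3 (Int.ofNat W0) (Int.ofNat W1) (Int.ofNat W2))) = true) :
    qua v w s p0 p1 p2 q0 q1 q2 W0 W1 W2 u0 u1 u2 u3 = true := by
  have hA : |dot v s * dot w s| ≤ 2 ^ 34 :=
    (mul_bd (dot_bd hv hs) (dot_bd hw hs)).trans (by norm_num)
  have hd : ∀ x y : V4, vle x (2 ^ 15) → vle y (2 ^ 35) → |dot x y| ≤ 2 ^ 52 := fun x y h1 h2 =>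
    (dot_bd h1 h2).trans (by norm_num)
  have hWa : ∀ W : ℕ, (W : ℤ) ≤ 2 ^ 34 → |(W : ℤ)| ≤ 2 ^ 34 := fun W h => by
    rw [Nat.abs_cast]
    exact h
  obtain ⟨H1, H2⟩ := quaP_all (A := dot v s * dot w s) (W0 := W0) (W1 := W1) (W2 := W2)
    (k0 := u0.k) (k1 := u1.k) (k2 := u2.k) (k3 := u3.k) (x0 := u0.al) (x1 := u1.al) (x2 := u2.al)
    (x3 := u3.al) (y0 := u0.be) (y1 := u1.be) (y2 := u2.be) (y3 := u3.be) (g0 := u0.ga)
    (g1 := u1.ga) (g2 := u2.ga) (g3 := u3.ga)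
    (a0 := dot v p0) (a1 := dot v p1) (a2 := dot v p2) (b0 := dot w p0) (b1 := dot w p1)
    (b2 := dot w p2) (c0 := dot v q0) (c1 := dot v q1) (c2 := dot v q2) (d0 := dot w q0)
    (d1 := dot w q1) (d2 := dot w q2) h
    (by
      rw [← dot_pv, ← dot_pv, ← dot_pv, ← dot_pv]
      rfl)
    hA ⟨hd _ _ hv hp0, hd _ _ hv hp1, hd _ _ hv hp2⟩ ⟨hd _ _ hw hp0, hd _ _ hw hp1, hd _ _ hw hp2⟩
    ⟨hd _ _ hv hq0, hd _ _ hv hq1, hd _ _ hv hq2⟩ ⟨hd _ _ hw hq0, hd _ _ hw hq1, hd _ _ hw hq2⟩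
    ⟨hWa _ hW0, hWa _ hW1, hWa _ hW2⟩ ⟨hu0.k, hu1.k, hu2.k, hu3.k⟩
    ⟨hu0.al, hu1.al, hu2.al, hu3.al⟩ ⟨hu0.be, hu1.be, hu2.be, hu3.be⟩
    ⟨hu0.ga, hu1.ga, hu2.ga, hu3.ga⟩
  have m1 : (0 : ℤ) ≤ 1 := by norm_num
  have m2 : (0 : ℤ) ≤ 2 := by norm_num
  unfold qua all4
  simp only [bAnd]
  have eA : pol (dot v s) (dot w s) (dot v s) (dot w s) = 2 * (dot v s * dot w s) := by
    rw [pol_eq]
    ring
  have eh : ∀ u v : Gn, hP u v = ((u.al : ℤ) * v.be + v.al * u.be) - (u.ga * v.ga + u.ga * v.ga) :=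
    fun _ _ => rfl
  have eb : ∀ u v : Gn, kbP u v = (u.k : ℤ) * v.be + v.k * u.be := fun _ _ => rfl
  have ea : ∀ u v : Gn, kaP u v = (u.k : ℤ) * v.al + v.k * u.al := fun _ _ => rfl
  have eg : ∀ u v : Gn, kgP u v = (u.k : ℤ) * v.ga + v.k * u.ga := fun _ _ => rfl
  have im : ∀ x y : ℤ, Int.mul x y = x * y := fun _ _ => rfl
  unfold quG
  refine ⟨⟨⟨?_, ?_⟩, ?_, ?_⟩, ⟨?_, ?_, ?_⟩, ?_, ?_, ?_⟩
  · refine quP_true m2 ?_ ?_ ?_ ?_ (H2 0)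
    · rw [im, eA, eh]
      show _ = 2 * (2 * (((u0.al : ℤ) * u0.be - u0.ga * u0.ga) * (dot v s * dot w s)))
      ring
    · rw [eb]
      show _ = 2 * ((u0.k : ℤ) * u0.be)
      ring
    · rw [ea]
      show _ = 2 * ((u0.k : ℤ) * u0.al)
      ring
    · rw [eg]
      show _ = 2 * ((u0.k : ℤ) * u0.ga)
      ring
  · refine quP_true m2 ?_ ?_ ?_ ?_ (H2 1)
    · rw [im, eA, eh]
      show _ = 2 * (2 * (((u1.al : ℤ) * u1.be - u1.ga * u1.ga) * (dot v s * dot w s)))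
      ring
    · rw [eb]
      show _ = 2 * ((u1.k : ℤ) * u1.be)
      ring
    · rw [ea]
      show _ = 2 * ((u1.k : ℤ) * u1.al)
      ring
    · rw [eg]
      show _ = 2 * ((u1.k : ℤ) * u1.ga)
      ring
  · refine quP_true m2 ?_ ?_ ?_ ?_ (H2 2)
    · rw [im, eA, eh]
      show _ = 2 * (2 * (((u2.al : ℤ) * u2.be - u2.ga * u2.ga) * (dot v s * dot w s)))
      ring
    · rw [eb]
      show _ = 2 * ((u2.k : ℤ) * u2.be)
      ring
    · rw [ea]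
      show _ = 2 * ((u2.k : ℤ) * u2.al)
      ring
    · rw [eg]
      show _ = 2 * ((u2.k : ℤ) * u2.ga)
      ring
  · refine quP_true m2 ?_ ?_ ?_ ?_ (H2 3)
    · rw [im, eA, eh]
      show _ = 2 * (2 * (((u3.al : ℤ) * u3.be - u3.ga * u3.ga) * (dot v s * dot w s)))
      ring
    · rw [eb]
      show _ = 2 * ((u3.k : ℤ) * u3.be)
      ring
    · rw [ea]
      show _ = 2 * ((u3.k : ℤ) * u3.al)
      ring
    · rw [eg]
      show _ = 2 * ((u3.k : ℤ) * u3.ga)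
      ring
  · refine quP_true m1 ?_ ?_ ?_ ?_ (H1 0 1 (by decide))
    · rw [im, eA, eh]
      show _ = 2 * (1 * ((((u0.al : ℤ) * u1.be + u1.al * u0.be) - (u0.ga * u1.ga + u1.ga * u0.ga)) *
        (dot v s * dot w s)))
      ring
    · rw [eb]
      show _ = 1 * ((u0.k : ℤ) * u1.be + u1.k * u0.be)
      ring
    · rw [ea]
      show _ = 1 * ((u0.k : ℤ) * u1.al + u1.k * u0.al)
      ring
    · rw [eg]
      show _ = 1 * ((u0.k : ℤ) * u1.ga + u1.k * u0.ga)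
      ring
  · refine quP_true m1 ?_ ?_ ?_ ?_ (H1 0 2 (by decide))
    · rw [im, eA, eh]
      show _ = 2 * (1 * ((((u0.al : ℤ) * u2.be + u2.al * u0.be) - (u0.ga * u2.ga + u2.ga * u0.ga)) *
        (dot v s * dot w s)))
      ring
    · rw [eb]
      show _ = 1 * ((u0.k : ℤ) * u2.be + u2.k * u0.be)
      ring
    · rw [ea]
      show _ = 1 * ((u0.k : ℤ) * u2.al + u2.k * u0.al)
      ring
    · rw [eg]
      show _ = 1 * ((u0.k : ℤ) * u2.ga + u2.k * u0.ga)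
      ring
  · refine quP_true m1 ?_ ?_ ?_ ?_ (H1 0 3 (by decide))
    · rw [im, eA, eh]
      show _ = 2 * (1 * ((((u0.al : ℤ) * u3.be + u3.al * u0.be) - (u0.ga * u3.ga + u3.ga * u0.ga)) *
        (dot v s * dot w s)))
      ring
    · rw [eb]
      show _ = 1 * ((u0.k : ℤ) * u3.be + u3.k * u0.be)
      ring
    · rw [ea]
      show _ = 1 * ((u0.k : ℤ) * u3.al + u3.k * u0.al)
      ring
    · rw [eg]
      show _ = 1 * ((u0.k : ℤ) * u3.ga + u3.k * u0.ga)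
      ring
  · refine quP_true m1 ?_ ?_ ?_ ?_ (H1 1 2 (by decide))
    · rw [im, eA, eh]
      show _ = 2 * (1 * ((((u1.al : ℤ) * u2.be + u2.al * u1.be) - (u1.ga * u2.ga + u2.ga * u1.ga)) *
        (dot v s * dot w s)))
      ring
    · rw [eb]
      show _ = 1 * ((u1.k : ℤ) * u2.be + u2.k * u1.be)
      ring
    · rw [ea]
      show _ = 1 * ((u1.k : ℤ) * u2.al + u2.k * u1.al)
      ring
    · rw [eg]
      show _ = 1 * ((u1.k : ℤ) * u2.ga + u2.k * u1.ga)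
      ring
  · refine quP_true m1 ?_ ?_ ?_ ?_ (H1 1 3 (by decide))
    · rw [im, eA, eh]
      show _ = 2 * (1 * ((((u1.al : ℤ) * u3.be + u3.al * u1.be) - (u1.ga * u3.ga + u3.ga * u1.ga)) *
        (dot v s * dot w s)))
      ring
    · rw [eb]
      show _ = 1 * ((u1.k : ℤ) * u3.be + u3.k * u1.be)
      ring
    · rw [ea]
      show _ = 1 * ((u1.k : ℤ) * u3.al + u3.k * u1.al)
      ring
    · rw [eg]
      show _ = 1 * ((u1.k : ℤ) * u3.ga + u3.k * u1.ga)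
      ring
  · refine quP_true m1 ?_ ?_ ?_ ?_ (H1 2 3 (by decide))
    · rw [im, eA, eh]
      show _ = 2 * (1 * ((((u2.al : ℤ) * u3.be + u3.al * u2.be) - (u2.ga * u3.ga + u3.ga * u2.ga)) *
        (dot v s * dot w s)))
      ring
    · rw [eb]
      show _ = 1 * ((u2.k : ℤ) * u3.be + u3.k * u2.be)
      ring
    · rw [ea]
      show _ = 1 * ((u2.k : ℤ) * u3.al + u3.k * u2.al)
      ring
    · rw [eg]
      show _ = 1 * ((u2.k : ℤ) * u3.ga + u3.k * u2.ga)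
      ring

end Pool.Agent.TET.Cvr
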