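import Pool.Agent.Helper37_TET.CovP5

/-!
# MP_c7c9bf_co: the packed form of the leaf test, linear conditions and trees
-/

set_option autoImplicit false

namespace Pool.Agent.TET.Cvr

def zD : D6 := ⟨0, 0, 0, 0, 0, 0⟩

theorem zD_val (t : ℤ) : zD.val t = 0 := by
  unfold zD D6.val
  ring

theorem zD_bd : zD.all (|·| < 2 ^ 191) := by
  unfold zD D6.all
  norm_num

/-- one generator -/
theorem linG_true {a0 a1 a2 b0 b1 b2 k r R : ℤ} {W0 W1 W2 : ℕ} {C D : D6} (hR : R = 2 * r)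
    (hx : (D6.lc r k 0 0 (tri W0 W1 W2 W0 W1 W2) (tri a0 a1 a2 b0 b1 b2) C D).all (0 ≤ ·)) :
    linG (pol a0 b0 a0 b0) (pol a1 b1 a1 b1) (pol a2 b2 a2 b2) (pol a0 b0 a1 b1) (pol a0 b0 a2 b2)
      (pol a1 b1 a2 b2) (ww W0 W0) (ww W1 W1) (ww W2 W2) (ww W0 W1) (ww W0 W2) (ww W1 W2) k R =
      true := by
  obtain ⟨x1, x2, x3, x4, x5, x6⟩ := hx
  have e1 : (D6.lc r k 0 0 (tri W0 W1 W2 W0 W1 W2) (tri a0 a1 a2 b0 b1 b2) C D).a =
      r * ((W0 : ℤ) * W0) + k * (a0 * b0) + 0 * C.a - 0 * D.a := rfl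
  have e2 : (D6.lc r k 0 0 (tri W0 W1 W2 W0 W1 W2) (tri a0 a1 a2 b0 b1 b2) C D).b =
      r * ((W0 : ℤ) * W1 + W1 * W0) + k * (a0 * b1 + a1 * b0) + 0 * C.b - 0 * D.b := rfl
  have e3 : (D6.lc r k 0 0 (tri W0 W1 W2 W0 W1 W2) (tri a0 a1 a2 b0 b1 b2) C D).c =
      r * ((W1 : ℤ) * W1) + k * (a1 * b1) + 0 * C.c - 0 * D.c := rfl
  have e4 : (D6.lc r k 0 0 (tri W0 W1 W2 W0 W1 W2) (tri a0 a1 a2 b0 b1 b2) C D).d =
      r * ((W0 : ℤ) * W2 + W2 * W0) + k * (a0 * b2 + a2 * b0) + 0 * C.d - 0 * D.d := rfl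
  have e5 : (D6.lc r k 0 0 (tri W0 W1 W2 W0 W1 W2) (tri a0 a1 a2 b0 b1 b2) C D).e =
      r * ((W1 : ℤ) * W2 + W2 * W1) + k * (a1 * b2 + a2 * b1) + 0 * C.e - 0 * D.e := rfl
  have e6 : (D6.lc r k 0 0 (tri W0 W1 W2 W0 W1 W2) (tri a0 a1 a2 b0 b1 b2) C D).f =
      r * ((W2 : ℤ) * W2) + k * (a2 * b2) + 0 * C.f - 0 * D.f := rfl
  rw [e1] at x1
  rw [e2] at x2
  rw [e3] at x3
  rw [e4] at x4
  rw [e5] at x5
  rw [e6] at x6
  unfold linG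
  simp only [bAnd, nn_iff]
  have w : ∀ x y : ℕ, ww x y = (x : ℤ) * y := fun x y => by
    show ((x * y : ℕ) : ℤ) = _
    push_cast
    rfl
  have f1 : ∀ x y : ℤ, Int.mul x y = x * y := fun _ _ => rfl
  have f2 : ∀ x y : ℤ, Int.add x y = x + y := fun _ _ => rfl
  simp only [f1, f2, pol_eq, w, hR]
  refine ⟨⟨⟨?_, ?_⟩, ?_, ?_⟩, ?_, ?_⟩ <;> linarith

/-- the sum of the products of the packed polynomials -/
theorem comb_lin (t M VV AB k0 k1 k2 k3 x0 x1 x2 x3 y0 y1 y2 y3 g0 g1 g2 g3 A B C : ℤ)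
    (hM : M = 0) :
    (k0 + k1 * t ^ 7 + k2 * (t ^ 7) ^ 3 + k3 * (t ^ 7) ^ 7) * AB +
      ((x0 + x1 * t ^ 7 + x2 * (t ^ 7) ^ 3 + x3 * (t ^ 7) ^ 7) * A +
        ((y0 + y1 * t ^ 7 + y2 * (t ^ 7) ^ 3 + y3 * (t ^ 7) ^ 7) * B +
        (g0 + g1 * t ^ 7 + g2 * (t ^ 7) ^ 3 + g3 * (t ^ 7) ^ 7) * C)) * VV =
    ((x0 * A + y0 * B + g0 * C) * VV + k0 * AB + 0 * M - 0 * M) +
      t ^ 7 * ((x1 * A + y1 * B + g1 * C) * VV + k1 * AB + 0 * M - 0 * M) + t ^ 14 * M +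
      t ^ 21 * ((x2 * A + y2 * B + g2 * C) * VV + k2 * AB + 0 * M - 0 * M) + t ^ 28 * M +
      t ^ 42 * M + t ^ 49 * ((x3 * A + y3 * B + g3 * C) * VV + k3 * AB + 0 * M - 0 * M) +
      t ^ 56 * M + t ^ 70 * M + t ^ 98 * M := by
  rw [hM]
  ring

theorem linP_lin {m f n0 n1 n2 d e : V4} {W0 W1 W2 : ℕ} {u0 u1 u2 u3 : Gn}
    (hm : vle m (2 ^ 15)) (hf : vle f (2 ^ 15)) (hd : vle d 1) (he : vle e 1)
    (hn0 : vle n0 (2 ^ 35)) (hn1 : vle n1 (2 ^ 35)) (hn2 : vle n2 (2 ^ 35))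
    (hW0 : (W0 : ℤ) ≤ 2 ^ 34) (hW1 : (W1 : ℤ) ≤ 2 ^ 34) (hW2 : (W2 : ℤ) ≤ 2 ^ 34)
    (hu0 : GnS u0) (hu1 : GnS u1) (hu2 : GnS u2) (hu3 : GnS u3)
    (h : linP m f (pv n0 n1 n2) d e
      (pk4 (Int.ofNat u0.k) (Int.ofNat u1.k) (Int.ofNat u2.k) (Int.ofNat u3.k))
      (pk4 (Int.ofNat u0.al) (Int.ofNat u1.al) (Int.ofNat u2.al) (Int.ofNat u3.al))
      (pk4 (Int.ofNat u0.be) (Int.ofNat u1.be) (Int.ofNat u2.be) (Int.ofNat u3.be))
      (pk4 u0.ga u1.ga u2.ga u3.ga)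
      (Int.mul (pk3 (Int.ofNat W0) (Int.ofNat W1) (Int.ofNat W2))
        (pk3 (Int.ofNat W0) (Int.ofNat W1) (Int.ofNat W2))) = true) :
    lin m f n0 n1 n2 d e W0 W1 W2 u0 u1 u2 u3 = true := by
  obtain ⟨A, hA⟩ : ∃ A, A = dot m d * dot f d := ⟨_, rfl⟩
  obtain ⟨B, hB⟩ : ∃ B, B = dot m e * dot f e := ⟨_, rfl⟩
  obtain ⟨C, hC⟩ : ∃ C, C = dot m d * dot f e + dot m e * dot f d := ⟨_, rfl⟩
  have bmd := dot_bd hm hd
  have bfd := dot_bd hf hd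
  have bme := dot_bd hm he
  have bfe := dot_bd hf he
  have bA : |A| ≤ 2 ^ 35 := by
    rw [hA]
    exact (mul_bd bmd bfd).trans (by norm_num)
  have bB : |B| ≤ 2 ^ 35 := by
    rw [hB]
    exact (mul_bd bme bfe).trans (by norm_num)
  have bC : |C| ≤ 2 ^ 35 := by
    rw [hC]
    exact (add_bd (mul_bd bmd bfe) (mul_bd bme bfd)).trans (by norm_num)
  have bn : ∀ x y : V4, vle x (2 ^ 15) → vle y (2 ^ 35) → |dot x y| ≤ 2 ^ 52 := fun x y h1 h2 =>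
    (dot_bd h1 h2).trans (by norm_num)
  have hWa : ∀ W : ℕ, (W : ℤ) ≤ 2 ^ 34 → |(W : ℤ)| ≤ 2 ^ 34 := fun W h => by
    rw [Nat.abs_cast]
    exact h
  obtain ⟨V, hV⟩ : ∃ V, V = tri (W0 : ℤ) W1 W2 W0 W1 W2 := ⟨_, rfl⟩
  obtain ⟨N, hN⟩ : ∃ N, N = tri (dot m n0) (dot m n1) (dot m n2) (dot f n0) (dot f n1) (dot f n2) :=
    ⟨_, rfl⟩
  have bV : V.all (|·| ≤ 2 ^ 69) := by
    rw [hV]
    exact all_mono (tri_bd (hWa _ hW0) (hWa _ hW1) (hWa _ hW2) (hWa _ hW0) (hWa _ hW1)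
      (hWa _ hW2)) (by norm_num)
  have bN : N.all (|·| ≤ 2 ^ 105) := by
    rw [hN]
    exact all_mono (tri_bd (bn _ _ hm hn0) (bn _ _ hm hn1) (bn _ _ hm hn2) (bn _ _ hf hn0)
      (bn _ _ hf hn1) (bn _ _ hf hn2)) (by norm_num)
  have bz : zD.all (|·| ≤ 1) := by
    unfold zD D6.all
    norm_num
  have bd : ∀ u : Gn, GnS u → (D6.lc ((u.al : ℤ) * A + u.be * B + u.ga * C) u.k 0 0 V N zD zD).all
      (|·| < 2 ^ 191) := by
    intro u hu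
    refine lc_bd (P := 2 ^ 40) (Q := 0) (S := 0) (add_bd (add_bd (mul_bd hu.al bA) (mul_bd hu.be bB))
      (mul_bd hu.ga bC)) hu.k (by norm_num) (by norm_num) bV bN bz bz (by norm_num)
  have key := tst_dig h (bd u0 hu0) (bd u1 hu1) zD_bd (bd u2 hu2) zD_bd zD_bd (bd u3 hu3) zD_bd
    zD_bd zD_bd (by
      rw [dig_val]
      simp only [lc_val, zD_val]
      have eF : Int.add (Int.mul (pk4 (Int.ofNat u0.k) (Int.ofNat u1.k) (Int.ofNat u2.k)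
          (Int.ofNat u3.k)) (Int.mul (dot m (pv n0 n1 n2)) (dot f (pv n0 n1 n2))))
        (Int.mul (Int.add (Int.mul (pk4 (Int.ofNat u0.al) (Int.ofNat u1.al) (Int.ofNat u2.al)
          (Int.ofNat u3.al)) (Int.mul (dot m d) (dot f d)))
          (Int.add (Int.mul (pk4 (Int.ofNat u0.be) (Int.ofNat u1.be) (Int.ofNat u2.be)
            (Int.ofNat u3.be)) (Int.mul (dot m e) (dot f e)))
          (Int.mul (pk4 u0.ga u1.ga u2.ga u3.ga) (Int.add (Int.mul (dot m d) (dot f e))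
            (Int.mul (dot m e) (dot f d))))))
          (Int.mul (pk3 (Int.ofNat W0) (Int.ofNat W1) (Int.ofNat W2))
        (pk3 (Int.ofNat W0) (Int.ofNat W1) (Int.ofNat W2)))) =
        pk4 (u0.k : ℤ) u1.k u2.k u3.k * (dot m (pv n0 n1 n2) * dot f (pv n0 n1 n2)) +
        (pk4 (u0.al : ℤ) u1.al u2.al u3.al * (dot m d * dot f d) +
          (pk4 (u0.be : ℤ) u1.be u2.be u3.be * (dot m e * dot f e) +
          pk4 u0.ga u1.ga u2.ga u3.ga * (dot m d * dot f e + dot m e * dot f d))) *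
          (pk3 (W0 : ℤ) W1 W2 * pk3 (W0 : ℤ) W1 W2) := rfl
      rw [eF, ← hA, ← hB, ← hC]
      simp only [pk4_eq, pk3_eq, dot_pv]
      rw [← tri_val, ← tri_val, ← hV, ← hN]
      generalize (2 ^ 192 : ℤ) = t
      rw [comb_lin t 0 _ _ _ _ _ _ _ _ _ _ _ _ _ _ _ _ _ _ _ _ _ rfl])
  obtain ⟨r0, r1, -, r3, -, -, r7, -, -, -⟩ := key
  rw [hV, hN] at r0 r1 r3 r7
  unfold lin linC linB
  simp only [bAnd]
  have er : ∀ u : Gn, rest (pol (dot m d) (dot f d) (dot m d) (dot f d))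
      (pol (dot m e) (dot f e) (dot m e) (dot f e))
      (Int.add (pol (dot m d) (dot f d) (dot m e) (dot f e)) (pol (dot m d) (dot f d) (dot m e)
        (dot f e))) u = 2 * ((u.al : ℤ) * A + u.be * B + u.ga * C) := by
    intro u
    have e1 : rest (pol (dot m d) (dot f d) (dot m d) (dot f d))
      (pol (dot m e) (dot f e) (dot m e) (dot f e))
      (Int.add (pol (dot m d) (dot f d) (dot m e) (dot f e)) (pol (dot m d) (dot f d) (dot m e)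
        (dot f e))) u = (u.al : ℤ) * (pol (dot m d) (dot f d) (dot m d) (dot f d)) +
        ((u.be : ℤ) * (pol (dot m e) (dot f e) (dot m e) (dot f e)) +
        u.ga * (pol (dot m d) (dot f d) (dot m e) (dot f e) + pol (dot m d) (dot f d) (dot m e)
        (dot f e))) := rfl
    rw [e1, hA, hB, hC]
    simp only [pol_eq]
    ring
  refine ⟨⟨linG_true (er u0) r0, linG_true (er u1) r1⟩, linG_true (er u2) r3,
    linG_true (er u3) r7⟩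

/-! ### leaves and trees -/

theorem tabB_le {T : List (List Cd)} (h : tabB T = true) : ∀ R ∈ T, ∀ c ∈ R, cB c = true := by
  unfold tabB at h
  rw [allL_iff] at h
  intro R hR
  exact (allL_iff _ _).1 (h R hR)

theorem leafP_leaf {ch : ℕ} {T : List (List Cd)} {R s0 s1 s2 s3 : ℕ} {x : St}
    (hT : tabB T = true) (h : leafP ch T R s0 s1 s2 s3 x = true) :
    leaf ch T R s0 s1 s2 s3 x = true := by
  unfold leafP at h
  simp only [bAnd] at h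
  obtain ⟨⟨hst, hp, hR⟩, hl⟩ := h
  unfold stB at hst
  simp only [bAnd] at hst
  obtain ⟨⟨c0, c1, c2⟩, ⟨g0, g1⟩, g2, g3⟩ := hst
  obtain ⟨X0, Y0, V0⟩ := ptB_S c0
  obtain ⟨X1, Y1, V1⟩ := ptB_S c1
  obtain ⟨X2, Y2, V2⟩ := ptB_S c2
  have k0 := gnB_S g0
  have k1 := gnB_S g1
  have k2 := gnB_S g2
  have k3 := gnB_S g3
  have hR' : R < T.length := by
    unfold Nat.blt at hR
    exact Nat.lt_of_succ_le (Nat.le_of_ble_eq_true hR)
  have hmem := nth_mem [] T R hR'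
  have hB := tabB_le hT _ hmem
  unfold leaf
  simp only [bAnd]
  refine ⟨⟨hp, hR⟩, ?_⟩
  unfold leafQ at hl
  rw [allL_iff] at hl ⊢
  intro c hc
  have h1 := hl c hc
  have h2 := hB c hc
  cases c with
  | l m f =>
    have h3 : Bool.and (vB m) (vB f) = true := h2
    rw [bAnd] at h3
    have h4 : linP m f (prm s0 s1 s2 s3 (pv (nC ch x.p0.W x.p0.X x.p0.Y)
        (nC ch x.p1.W x.p1.X x.p1.Y) (nC ch x.p2.W x.p2.X x.p2.Y)))
      (prm s0 s1 s2 s3 dC) (prm s0 s1 s2 s3 (eC ch))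
      (pk4 (Int.ofNat x.u0.k) (Int.ofNat x.u1.k) (Int.ofNat x.u2.k) (Int.ofNat x.u3.k))
      (pk4 (Int.ofNat x.u0.al) (Int.ofNat x.u1.al) (Int.ofNat x.u2.al) (Int.ofNat x.u3.al))
      (pk4 (Int.ofNat x.u0.be) (Int.ofNat x.u1.be) (Int.ofNat x.u2.be) (Int.ofNat x.u3.be))
      (pk4 x.u0.ga x.u1.ga x.u2.ga x.u3.ga)
      (Int.mul (pk3 (Int.ofNat x.p0.W) (Int.ofNat x.p1.W) (Int.ofNat x.p2.W))
        (pk3 (Int.ofNat x.p0.W) (Int.ofNat x.p1.W) (Int.ofNat x.p2.W))) = true := h1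
    rw [prm_pv] at h4
    exact linP_lin (vB_le h3.1) (vB_le h3.2) (prm_vle dC_vle ..) (prm_vle (eC_vle ch) ..)
      (prm_vle (nC_vle V0 X0 Y0) ..) (prm_vle (nC_vle V1 X1 Y1) ..) (prm_vle (nC_vle V2 X2 Y2) ..)
      V0 V1 V2 k0 k1 k2 k3 h4
  | q v w =>
    have h3 : Bool.and (vB v) (vB w) = true := h2
    rw [bAnd] at h3
    have h4 : quaP v w (prm s0 s1 s2 s3 (sC ch))
      (prm s0 s1 s2 s3 (pv (pC ch x.p0.W x.p0.X) (pC ch x.p1.W x.p1.X) (pC ch x.p2.W x.p2.X)))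
      (prm s0 s1 s2 s3 (pv (qC ch x.p0.W x.p0.Y) (qC ch x.p1.W x.p1.Y) (qC ch x.p2.W x.p2.Y)))
      _ _ _ _ _ = true := h1
    rw [prm_pv, prm_pv] at h4
    exact quaP_qua (vB_le h3.1) (vB_le h3.2) (prm_vle (sC_vle ch) ..) (prm_vle (pC_vle V0 X0) ..)
      (prm_vle (pC_vle V1 X1) ..) (prm_vle (pC_vle V2 X2) ..) (prm_vle (qC_vle V0 Y0) ..)
      (prm_vle (qC_vle V1 Y1) ..) (prm_vle (qC_vle V2 Y2) ..) V0 V1 V2 k0 k1 k2 k3 h4

theorem chkP_chk {ch : ℕ} {T : List (List Cd)} (hT : tabB T = true) (t : Tr) : ∀ {s : St},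
    chkP ch T t s = true → chk ch T t s = true := by
  induction t with
  | B r p q a b iha ihb =>
    intro s h
    have h' : Bool.and (Bool.and (Nat.ble r 2) (Bool.and (Nat.ble 1 p) (Nat.ble 1 q)))
      (Bool.and (chkP ch T a (sP s (nx r) (mid p q (gP s r) (gP s (nx r)))))
        (chkP ch T b (sP s r (mid p q (gP s r) (gP s (nx r)))))) = true := h
    have h1 := bAnd.1 h'
    have h2 := bAnd.1 h1.2
    exact bAnd.2 ⟨h1.1, bAnd.2 ⟨iha h2.1, ihb h2.2⟩⟩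
  | C i j p q a b iha ihb =>
    intro s h
    have h' : Bool.and (Bool.and (Bool.and (Nat.ble i 3) (Nat.ble j 3))
        (Bool.and (not (Nat.beq i j)) (Bool.and (Nat.ble 1 p) (Nat.ble 1 q))))
      (Bool.and (chkP ch T a (sU s j (cmb p q (gU s i) (gU s j))))
        (chkP ch T b (sU s i (cmb p q (gU s i) (gU s j))))) = true := h
    have h1 := bAnd.1 h'
    have h2 := bAnd.1 h1.2
    exact bAnd.2 ⟨h1.1, bAnd.2 ⟨iha h2.1, ihb h2.2⟩⟩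
  | L R s0 s1 s2 s3 =>
    intro s h
    exact leafP_leaf hT h
  | O t =>
    intro s h
    exact h
  | P a b =>
    intro s h
    exact h

/-- **chunks of a cover tree, packed check** -/
theorem CvS.ofP {ch : ℕ} {T : List (List Cd)} (hT : tabB T = true) {s : St} (t : Tr)
    (h : chkP ch T t s = true) : CvS ch T s := CvS.of t (chkP_chk hT t h)

end Pool.Agent.TET.Cvr
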