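import Pool.Agent.Helper37_TET.CovTop

/-!
# MP_c7c9bf_co: the roots of the cover trees
-/

set_option autoImplicit false

namespace Pool.Agent.TET.Cvr

/-- weights -/
def w4 (a b c d : ℝ) : ℕ → ℝ := fun i => if i = 0 then a else if i = 1 then b else if i = 2 then c else d

theorem w4_0 (a b c d : ℝ) : w4 a b c d 0 = a := by simp [w4]
theorem w4_1 (a b c d : ℝ) : w4 a b c d 1 = b := by simp [w4]
theorem w4_2 (a b c d : ℝ) : w4 a b c d 2 = c := by simp [w4]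
theorem w4_3 (a b c d : ℝ) : w4 a b c d 3 = d := by simp [w4]

/-! ### chart N: `0 < x <= y <= 1 / 2` -/

def rN0 : St := ⟨⟨0, 0, 1⟩, ⟨0, 1, 2⟩, ⟨1, 1, 2⟩, ⟨1, 0, 0, 0⟩, ⟨8, 2, 0, 1⟩, ⟨8, 2, 0, -1⟩, ⟨4, 1, 1, 1⟩⟩
def rN1 : St := ⟨⟨0, 0, 1⟩, ⟨0, 1, 2⟩, ⟨1, 1, 2⟩, ⟨1, 0, 0, 0⟩, ⟨8, 2, 0, -1⟩, ⟨4, 1, 1, 1⟩, ⟨4, 1, 1, -1⟩⟩
def rN2 : St := ⟨⟨0, 0, 1⟩, ⟨0, 1, 2⟩, ⟨1, 1, 2⟩, ⟨1, 0, 0, 0⟩, ⟨8, 0, 2, 1⟩, ⟨8, 0, 2, -1⟩, ⟨4, 1, 1, 1⟩⟩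
def rN3 : St := ⟨⟨0, 0, 1⟩, ⟨0, 1, 2⟩, ⟨1, 1, 2⟩, ⟨1, 0, 0, 0⟩, ⟨8, 0, 2, -1⟩, ⟨4, 1, 1, 1⟩, ⟨4, 1, 1, -1⟩⟩

theorem sq_bd {a k al : ℝ} (hk : 0 < k) (h : al < k * a * (1 - a)) : 4 * al ≤ k := by
  nlinarith [mul_nonneg hk.le (sq_nonneg (2 * a - 1))]

theorem abs_bd {al be ga : ℝ} (ha : 0 < al) (hb : 0 < be) (h : ga ^ 2 < al * be) :
    2 * ga ≤ al + be ∧ -(al + be) ≤ 2 * ga := by
  constructor
  · nlinarith [sq_nonneg (al - be)]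
  · nlinarith [sq_nonneg (al - be)]

theorem rootN {T : List (List Cd)} (h0 : CvS 0 T rN0) (h1 : CvS 0 T rN1) (h2 : CvS 0 T rN2)
    (h3 : CvS 0 T rN3) {x y k al be ga : ℝ} (k0 : 0 < k) (x0 : 0 < x) (xy : x ≤ y)
    (y1 : y ≤ 1 / 2) (al0 : 0 < al) (al1 : al < k * x * (1 - x)) (be0 : 0 < be)
    (be1 : be < k * y * (1 - y)) (g : ga ^ 2 < al * be) : Cvd 0 T x y k al be ga := by
  have hd : Dom 0 x y k al be ga := ⟨k0, by linarith, fun _ => by linarith, fun _ => by linarith⟩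
  have ha := sq_bd k0 al1
  have hb := sq_bd k0 be1
  obtain ⟨g1, g2⟩ := abs_bd al0 be0 g
  rcases le_total be al with hab | hab
  · rcases le_total (3 * be) (al + 2 * ga) with hc | hc
    · refine h0 x y k al be ga (w4 (1 - 2 * y) (y - x) x 0)
        (w4 (k - 4 * al) ((al + 2 * ga - 3 * be) / 4) ((al - 2 * ga + be) / 4) be) ?_ hd
      refine ⟨?_, ?_, ?_, ?_, ?_, ?_, ?_, ?_, ?_, ?_, ?_, ?_, ?_, ?_⟩ <;>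
        simp only [w4_0, w4_1, w4_2, w4_3, rN0] <;> push_cast <;> linarith
    · refine h1 x y k al be ga (w4 (1 - 2 * y) (y - x) x 0)
        (w4 (k - 4 * al) ((al - be) / 2) ((al + be + 2 * ga) / 4) ((3 * be - al - 2 * ga) / 4)) ?_ hd
      refine ⟨?_, ?_, ?_, ?_, ?_, ?_, ?_, ?_, ?_, ?_, ?_, ?_, ?_, ?_⟩ <;>
        simp only [w4_0, w4_1, w4_2, w4_3, rN1] <;> push_cast <;> linarith
  · rcases le_total (3 * al) (be + 2 * ga) with hc | hc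
    · refine h2 x y k al be ga (w4 (1 - 2 * y) (y - x) x 0)
        (w4 (k - 4 * be) ((be + 2 * ga - 3 * al) / 4) ((be - 2 * ga + al) / 4) al) ?_ hd
      refine ⟨?_, ?_, ?_, ?_, ?_, ?_, ?_, ?_, ?_, ?_, ?_, ?_, ?_, ?_⟩ <;>
        simp only [w4_0, w4_1, w4_2, w4_3, rN2] <;> push_cast <;> linarith
    · refine h3 x y k al be ga (w4 (1 - 2 * y) (y - x) x 0)
        (w4 (k - 4 * be) ((be - al) / 2) ((be + al + 2 * ga) / 4) ((3 * al - be - 2 * ga) / 4)) ?_ hd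
      refine ⟨?_, ?_, ?_, ?_, ?_, ?_, ?_, ?_, ?_, ?_, ?_, ?_, ?_, ?_⟩ <;>
        simp only [w4_0, w4_1, w4_2, w4_3, rN3] <;> push_cast <;> linarith

/-! ### chart S: `9 / 500 <= y <= x <= 847 / 10000`, `x + y <= 1635 / 10000` -/

def rS0 : St := ⟨⟨360, 360, 20000⟩, ⟨1694, 360, 20000⟩, ⟨1694, 1576, 20000⟩, ⟨1, 0, 0, 0⟩,
  ⟨0, 2, 0, 1⟩, ⟨0, 2, 0, -1⟩, ⟨0, 0, 2, 1⟩⟩
def rS1 : St := ⟨⟨360, 360, 20000⟩, ⟨1694, 360, 20000⟩, ⟨1694, 1576, 20000⟩, ⟨1, 0, 0, 0⟩,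
  ⟨0, 2, 0, -1⟩, ⟨0, 0, 2, 1⟩, ⟨0, 0, 2, -1⟩⟩
def rS2 : St := ⟨⟨360, 360, 20000⟩, ⟨1694, 1576, 20000⟩, ⟨1635, 1635, 20000⟩, ⟨1, 0, 0, 0⟩,
  ⟨0, 2, 0, 1⟩, ⟨0, 2, 0, -1⟩, ⟨0, 0, 2, 1⟩⟩
def rS3 : St := ⟨⟨360, 360, 20000⟩, ⟨1694, 1576, 20000⟩, ⟨1635, 1635, 20000⟩, ⟨1, 0, 0, 0⟩,
  ⟨0, 2, 0, -1⟩, ⟨0, 0, 2, 1⟩, ⟨0, 0, 2, -1⟩⟩

theorem rootS {T : List (List Cd)} (h0 : CvS 1 T rS0) (h1 : CvS 1 T rS1) (h2 : CvS 1 T rS2)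
    (h3 : CvS 1 T rS3) {x y k al be ga : ℝ} (k0 : 0 < k) (y0 : 9 / 500 ≤ y) (yx : y ≤ x)
    (x1 : x ≤ 847 / 10000) (xy : x + y ≤ 1635 / 10000) (al0 : 0 < al) (be0 : 0 < be)
    (g : ga ^ 2 < al * be) : Cvd 1 T x y k al be ga := by
  have hd : Dom 1 x y k al be ga :=
    ⟨k0, by linarith, fun h => absurd h one_ne_zero, fun h => absurd h one_ne_zero⟩
  obtain ⟨g1, g2⟩ := abs_bd al0 be0 g
  -- the line through `(360, 360)` and `(1694, 1576)`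
  rcases le_total (1334 * (20000 * y - 360)) (1216 * (20000 * x - 360)) with hl | hl
  · obtain ⟨m2, hm2⟩ : ∃ m2, m2 = (20000 * y - 360) / 1216 / 20000 := ⟨_, rfl⟩
    obtain ⟨m1, hm1⟩ : ∃ m1, m1 = (20000 * x - 360) / 1334 / 20000 - m2 := ⟨_, rfl⟩
    have e2 : 1216 * 20000 * m2 = 20000 * y - 360 := by rw [hm2]; ring
    have e1 : 1334 * 20000 * (m1 + m2) = 20000 * x - 360 := by rw [hm1]; ring
    rcases le_total be (al + 2 * ga) with hc | hc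
    · refine h0 x y k al be ga (w4 (1 / 20000 - m1 - m2) m1 m2 0)
        (w4 k ((al + 2 * ga - be) / 4) ((al - 2 * ga + be) / 4) (be / 2)) ?_ hd
      refine ⟨?_, ?_, ?_, ?_, ?_, ?_, ?_, ?_, ?_, ?_, ?_, ?_, ?_, ?_⟩ <;>
        simp only [w4_0, w4_1, w4_2, w4_3, rS0] <;> push_cast <;> linarith
    · refine h1 x y k al be ga (w4 (1 / 20000 - m1 - m2) m1 m2 0)
        (w4 k (al / 2) ((be + 2 * ga + al) / 4) ((be - 2 * ga - al) / 4)) ?_ hd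
      refine ⟨?_, ?_, ?_, ?_, ?_, ?_, ?_, ?_, ?_, ?_, ?_, ?_, ?_, ?_⟩ <;>
        simp only [w4_0, w4_1, w4_2, w4_3, rS1] <;> push_cast <;> linarith
  · -- `x = 1334 m1 + 1275 m2`, `y = 1216 m1 + 1275 m2` (times `20000`, minus `360`)
    obtain ⟨m1, hm1⟩ : ∃ m1, m1 = (x - y) / 118 := ⟨_, rfl⟩
    obtain ⟨m2, hm2⟩ : ∃ m2, m2 = (20000 * y - 360 - 1216 * (20000 * m1)) / 1275 / 20000 := ⟨_, rfl⟩
    have e1 : 118 * m1 = x - y := by rw [hm1]; ring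
    have e2 : 1275 * 20000 * m2 = 20000 * y - 360 - 1216 * (20000 * m1) := by rw [hm2]; ring
    rcases le_total be (al + 2 * ga) with hc | hc
    · refine h2 x y k al be ga (w4 (1 / 20000 - m1 - m2) m1 m2 0)
        (w4 k ((al + 2 * ga - be) / 4) ((al - 2 * ga + be) / 4) (be / 2)) ?_ hd
      refine ⟨?_, ?_, ?_, ?_, ?_, ?_, ?_, ?_, ?_, ?_, ?_, ?_, ?_, ?_⟩ <;>
        simp only [w4_0, w4_1, w4_2, w4_3, rS2] <;> push_cast <;> linarith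
    · refine h3 x y k al be ga (w4 (1 / 20000 - m1 - m2) m1 m2 0)
        (w4 k (al / 2) ((be + 2 * ga + al) / 4) ((be - 2 * ga - al) / 4)) ?_ hd
      refine ⟨?_, ?_, ?_, ?_, ?_, ?_, ?_, ?_, ?_, ?_, ?_, ?_, ?_, ?_⟩ <;>
        simp only [w4_0, w4_1, w4_2, w4_3, rS3] <;> push_cast <;> linarith

end Pool.Agent.TET.Cvr
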