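import Pool.Agent.Helper37_TET.CovChk

/-!
# MP_c7c9bf_co: soundness of the cover checker
-/

set_option autoImplicit false

namespace Pool.Agent.TET.Cvr

/-! ### real meaning -/

def nR (ch : ℕ) (x y : ℝ) : Fin 4 → ℝ :=
  match ch with
  | 0 => ![x - 1, -x, 1 - y, y]
  | _ + 1 => ![x + y - 1, -x, -y, 1]

def sR (ch : ℕ) : Fin 4 → ℝ :=
  match ch with
  | 0 => ![0, 0, 1, 1]
  | _ + 1 => ![0, 0, 0, 1]

def pR (ch : ℕ) (x : ℝ) : Fin 4 → ℝ :=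
  match ch with
  | 0 => ![1, 0, 1 - x, 1 - x]
  | _ + 1 => ![0, -1, 0, -x]

def qR (ch : ℕ) (y : ℝ) : Fin 4 → ℝ :=
  match ch with
  | 0 => ![0, 0, y, y - 1]
  | _ + 1 => ![0, 0, -1, -y]

def dR : Fin 4 → ℝ := ![1, -1, 0, 0]

def eR (ch : ℕ) : Fin 4 → ℝ :=
  match ch with
  | 0 => ![0, 0, 1, -1]
  | _ + 1 => ![1, 0, -1, 0]

/-- an integer vector as a real vector -/
def vR (v : V4) : Fin 4 → ℝ := ![(v.a : ℝ), v.b, v.c, v.d]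

/-- the condition `c` for a point of the chart, the vertices relabelled by `σ` -/
def Hold (ch : ℕ) (x y k al be ga : ℝ) (σ : Fin 4 → Fin 4) : Cd → Prop
  | .l m f => 0 ≤ k * ((vR m ⬝ᵥ (nR ch x y ∘ σ)) * (vR f ⬝ᵥ (nR ch x y ∘ σ))) +
      al * ((vR m ⬝ᵥ (dR ∘ σ)) * (vR f ⬝ᵥ (dR ∘ σ))) +
      be * ((vR m ⬝ᵥ (eR ch ∘ σ)) * (vR f ⬝ᵥ (eR ch ∘ σ))) +
      ga * ((vR m ⬝ᵥ (dR ∘ σ)) * (vR f ⬝ᵥ (eR ch ∘ σ)) + (vR m ⬝ᵥ (eR ch ∘ σ)) * (vR f ⬝ᵥ (dR ∘ σ)))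
  | .q v w => 0 ≤ (al * be - ga ^ 2) * ((vR v ⬝ᵥ (sR ch ∘ σ)) * (vR w ⬝ᵥ (sR ch ∘ σ))) +
      k * (be * ((vR v ⬝ᵥ (pR ch x ∘ σ)) * (vR w ⬝ᵥ (pR ch x ∘ σ))) +
        al * ((vR v ⬝ᵥ (qR ch y ∘ σ)) * (vR w ⬝ᵥ (qR ch y ∘ σ))) -
        ga * ((vR v ⬝ᵥ (pR ch x ∘ σ)) * (vR w ⬝ᵥ (qR ch y ∘ σ)) +
          (vR v ⬝ᵥ (qR ch y ∘ σ)) * (vR w ⬝ᵥ (pR ch x ∘ σ))))

/-! ### elementary facts -/

theorem nn_iff {z : ℤ} : nn z = true ↔ 0 ≤ z := by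
  cases z with
  | ofNat n =>
    constructor
    · intro _
      exact Int.natCast_nonneg n
    · intro _
      rfl
  | negSucc n =>
    constructor
    · intro h
      exact absurd h Bool.false_ne_true
    · intro h
      exact absurd h (by have := Int.negSucc_lt_zero n; omega)

theorem bAnd {a b : Bool} : Bool.and a b = true ↔ a = true ∧ b = true := by
  cases a <;> cases b <;> simp [Bool.and]

theorem pol_eq (a b a' b' : ℤ) : pol a b a' b' = a * b' + a' * b := rfl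

theorem dot_eq (m n : V4) : ((dot m n : ℤ) : ℝ) = vR m ⬝ᵥ vR n := by
  have h : dot m n = (m.a * n.a + m.b * n.b) + (m.c * n.c + m.d * n.d) := rfl
  rw [h]
  unfold vR dotProduct
  rw [Fin.sum_univ_four]
  push_cast
  show _ = (m.a : ℝ) * n.a + m.b * n.b + m.c * n.c + m.d * n.d
  ring

theorem subNat_cast (a b : ℕ) : ((Int.subNatNat a b : ℤ) : ℝ) = (a : ℝ) - b := by
  rw [Int.subNatNat_eq_coe]
  push_cast
  ring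

theorem ofNat_cast (a : ℕ) : ((Int.ofNat a : ℤ) : ℝ) = (a : ℝ) := by
  rw [Int.ofNat_eq_natCast]
  push_cast
  rfl

/-! ### the real lemmas -/

theorem lin_real {k R a0 a1 a2 b0 b1 b2 W0 W1 W2 m0 m1 m2 : ℝ} (h0 : 0 ≤ m0) (h1 : 0 ≤ m1)
    (h2 : 0 ≤ m2) (hs : m0 * W0 + m1 * W1 + m2 * W2 = 1)
    (c00 : 0 ≤ k * (a0 * b0 + a0 * b0) + R * (W0 * W0))
    (c11 : 0 ≤ k * (a1 * b1 + a1 * b1) + R * (W1 * W1))
    (c22 : 0 ≤ k * (a2 * b2 + a2 * b2) + R * (W2 * W2))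
    (c01 : 0 ≤ k * (a0 * b1 + a1 * b0) + R * (W0 * W1))
    (c02 : 0 ≤ k * (a0 * b2 + a2 * b0) + R * (W0 * W2))
    (c12 : 0 ≤ k * (a1 * b2 + a2 * b1) + R * (W1 * W2)) :
    0 ≤ 2 * (k * ((m0 * a0 + m1 * a1 + m2 * a2) * (m0 * b0 + m1 * b1 + m2 * b2))) + R := by
  have e : 2 * (k * ((m0 * a0 + m1 * a1 + m2 * a2) * (m0 * b0 + m1 * b1 + m2 * b2))) +
      R * (m0 * W0 + m1 * W1 + m2 * W2) ^ 2 =
      m0 * m0 * (k * (a0 * b0 + a0 * b0) + R * (W0 * W0)) +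
      m1 * m1 * (k * (a1 * b1 + a1 * b1) + R * (W1 * W1)) +
      m2 * m2 * (k * (a2 * b2 + a2 * b2) + R * (W2 * W2)) +
      2 * (m0 * m1 * (k * (a0 * b1 + a1 * b0) + R * (W0 * W1))) +
      2 * (m0 * m2 * (k * (a0 * b2 + a2 * b0) + R * (W0 * W2))) +
      2 * (m1 * m2 * (k * (a1 * b2 + a2 * b1) + R * (W1 * W2))) := by
    ring
  rw [hs, one_pow, mul_one] at e
  rw [e]
  positivity

theorem quad_real {H P Q S W0 W1 W2 a0 a1 a2 b0 b1 b2 c0 c1 c2 d0 d1 d2 m0 m1 m2 : ℝ} (h0 : 0 ≤ m0)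
    (h1 : 0 ≤ m1) (h2 : 0 ≤ m2) (hs : m0 * W0 + m1 * W1 + m2 * W2 = 1)
    (c00 : 0 ≤ H * (W0 * W0) + P * (a0 * b0 + a0 * b0) + (Q * (c0 * d0 + c0 * d0) -
      S * ((a0 * d0 + c0 * b0) + (a0 * d0 + c0 * b0))))
    (c11 : 0 ≤ H * (W1 * W1) + P * (a1 * b1 + a1 * b1) + (Q * (c1 * d1 + c1 * d1) -
      S * ((a1 * d1 + c1 * b1) + (a1 * d1 + c1 * b1))))
    (c22 : 0 ≤ H * (W2 * W2) + P * (a2 * b2 + a2 * b2) + (Q * (c2 * d2 + c2 * d2) -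
      S * ((a2 * d2 + c2 * b2) + (a2 * d2 + c2 * b2))))
    (c01 : 0 ≤ H * (W0 * W1) + P * (a0 * b1 + a1 * b0) + (Q * (c0 * d1 + c1 * d0) -
      S * ((a0 * d1 + c1 * b0) + (a1 * d0 + c0 * b1))))
    (c02 : 0 ≤ H * (W0 * W2) + P * (a0 * b2 + a2 * b0) + (Q * (c0 * d2 + c2 * d0) -
      S * ((a0 * d2 + c2 * b0) + (a2 * d0 + c0 * b2))))
    (c12 : 0 ≤ H * (W1 * W2) + P * (a1 * b2 + a2 * b1) + (Q * (c1 * d2 + c2 * d1) -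
      S * ((a1 * d2 + c2 * b1) + (a2 * d1 + c1 * b2)))) :
    0 ≤ H + 2 * (P * ((m0 * a0 + m1 * a1 + m2 * a2) * (m0 * b0 + m1 * b1 + m2 * b2))) +
      2 * (Q * ((m0 * c0 + m1 * c1 + m2 * c2) * (m0 * d0 + m1 * d1 + m2 * d2))) -
      2 * (S * ((m0 * a0 + m1 * a1 + m2 * a2) * (m0 * d0 + m1 * d1 + m2 * d2) +
        (m0 * c0 + m1 * c1 + m2 * c2) * (m0 * b0 + m1 * b1 + m2 * b2))) := by
  have e : H * (m0 * W0 + m1 * W1 + m2 * W2) ^ 2 +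
      2 * (P * ((m0 * a0 + m1 * a1 + m2 * a2) * (m0 * b0 + m1 * b1 + m2 * b2))) +
      2 * (Q * ((m0 * c0 + m1 * c1 + m2 * c2) * (m0 * d0 + m1 * d1 + m2 * d2))) -
      2 * (S * ((m0 * a0 + m1 * a1 + m2 * a2) * (m0 * d0 + m1 * d1 + m2 * d2) +
        (m0 * c0 + m1 * c1 + m2 * c2) * (m0 * b0 + m1 * b1 + m2 * b2))) =
      m0 * m0 * (H * (W0 * W0) + P * (a0 * b0 + a0 * b0) + (Q * (c0 * d0 + c0 * d0) -
        S * ((a0 * d0 + c0 * b0) + (a0 * d0 + c0 * b0)))) +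
      m1 * m1 * (H * (W1 * W1) + P * (a1 * b1 + a1 * b1) + (Q * (c1 * d1 + c1 * d1) -
        S * ((a1 * d1 + c1 * b1) + (a1 * d1 + c1 * b1)))) +
      m2 * m2 * (H * (W2 * W2) + P * (a2 * b2 + a2 * b2) + (Q * (c2 * d2 + c2 * d2) -
        S * ((a2 * d2 + c2 * b2) + (a2 * d2 + c2 * b2)))) +
      2 * (m0 * m1 * (H * (W0 * W1) + P * (a0 * b1 + a1 * b0) + (Q * (c0 * d1 + c1 * d0) -
        S * ((a0 * d1 + c1 * b0) + (a1 * d0 + c0 * b1))))) +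
      2 * (m0 * m2 * (H * (W0 * W2) + P * (a0 * b2 + a2 * b0) + (Q * (c0 * d2 + c2 * d0) -
        S * ((a0 * d2 + c2 * b0) + (a2 * d0 + c0 * b2))))) +
      2 * (m1 * m2 * (H * (W1 * W2) + P * (a1 * b2 + a2 * b1) + (Q * (c1 * d2 + c2 * d1) -
        S * ((a1 * d2 + c2 * b1) + (a2 * d1 + c1 * b2))))) := by
    ring
  rw [hs, one_pow, mul_one] at e
  rw [e]
  positivity

/-- the real quadratic value of a pair of generators -/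
noncomputable def gv (α β γ δ : ℝ) (u v : Gn) : ℝ :=
  ((u.al * v.be + v.al * u.be) - (u.ga * v.ga + u.ga * v.ga)) * α +
    (u.k * v.be + v.k * u.be) * β + (u.k * v.al + v.k * u.al) * γ - (u.k * v.ga + v.k * u.ga) * δ

theorem gens_real {α β γ δ w0 w1 w2 w3 : ℝ} {u0 u1 u2 u3 : Gn} (h0 : 0 ≤ w0) (h1 : 0 ≤ w1)
    (h2 : 0 ≤ w2) (h3 : 0 ≤ w3) (c00 : 0 ≤ gv α β γ δ u0 u0) (c11 : 0 ≤ gv α β γ δ u1 u1)
    (c22 : 0 ≤ gv α β γ δ u2 u2) (c33 : 0 ≤ gv α β γ δ u3 u3) (c01 : 0 ≤ gv α β γ δ u0 u1)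
    (c02 : 0 ≤ gv α β γ δ u0 u2) (c03 : 0 ≤ gv α β γ δ u0 u3) (c12 : 0 ≤ gv α β γ δ u1 u2)
    (c13 : 0 ≤ gv α β γ δ u1 u3) (c23 : 0 ≤ gv α β γ δ u2 u3) {k al be ga : ℝ}
    (hk : k = w0 * u0.k + w1 * u1.k + w2 * u2.k + w3 * u3.k)
    (hal : al = w0 * u0.al + w1 * u1.al + w2 * u2.al + w3 * u3.al)
    (hbe : be = w0 * u0.be + w1 * u1.be + w2 * u2.be + w3 * u3.be)
    (hga : ga = w0 * u0.ga + w1 * u1.ga + w2 * u2.ga + w3 * u3.ga) :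
    0 ≤ 2 * ((al * be - ga ^ 2) * α + k * be * β + k * al * γ - k * ga * δ) := by
  have e : 2 * ((al * be - ga ^ 2) * α + k * be * β + k * al * γ - k * ga * δ) =
      w0 * w0 * gv α β γ δ u0 u0 + w1 * w1 * gv α β γ δ u1 u1 + w2 * w2 * gv α β γ δ u2 u2 +
      w3 * w3 * gv α β γ δ u3 u3 + 2 * (w0 * w1 * gv α β γ δ u0 u1) +
      2 * (w0 * w2 * gv α β γ δ u0 u2) + 2 * (w0 * w3 * gv α β γ δ u0 u3) +
      2 * (w1 * w2 * gv α β γ δ u1 u2) + 2 * (w1 * w3 * gv α β γ δ u1 u3) +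
      2 * (w2 * w3 * gv α β γ δ u2 u3) := by
    rw [hk, hal, hbe, hga]
    unfold gv
    ring
  rw [e]
  positivity

end Pool.Agent.TET.Cvr
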