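import Pool.Agent.Helper37_TET.CovSound

/-!
# MP_c7c9bf_co: soundness of the cover checker, leaves and tree
-/

set_option autoImplicit false

namespace Pool.Agent.TET.Cvr

/-- a point of a cell -/
structure Mem (s : St) (x y k al be ga : ℝ) (m w : ℕ → ℝ) : Prop where
  h0 : 0 ≤ m 0
  h1 : 0 ≤ m 1
  h2 : 0 ≤ m 2
  hs : m 0 * s.p0.W + m 1 * s.p1.W + m 2 * s.p2.W = 1
  g0 : 0 ≤ w 0
  g1 : 0 ≤ w 1
  g2 : 0 ≤ w 2
  g3 : 0 ≤ w 3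
  hx : x = m 0 * s.p0.X + m 1 * s.p1.X + m 2 * s.p2.X
  hy : y = m 0 * s.p0.Y + m 1 * s.p1.Y + m 2 * s.p2.Y
  hk : k = w 0 * s.u0.k + w 1 * s.u1.k + w 2 * s.u2.k + w 3 * s.u3.k
  hal : al = w 0 * s.u0.al + w 1 * s.u1.al + w 2 * s.u2.al + w 3 * s.u3.al
  hbe : be = w 0 * s.u0.be + w 1 * s.u1.be + w 2 * s.u2.be + w 3 * s.u3.be
  hga : ga = w 0 * s.u0.ga + w 1 * s.u1.ga + w 2 * s.u2.ga + w 3 * s.u3.ga

/-! ### linear conditions -/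

theorem lm_real {k R N V : ℤ} (h : nn (Int.add (Int.mul k N) (Int.mul R V)) = true) :
    (0 : ℝ) ≤ k * N + R * V := by
  have h1 := nn_iff.1 h
  have h2 : (0 : ℤ) ≤ k * N + R * V := h1
  have h3 : ((0 : ℤ) : ℝ) ≤ ((k * N + R * V : ℤ) : ℝ) := Int.cast_le.2 h2
  push_cast at h3
  exact h3

theorem ww_cast (a b : ℕ) : ((ww a b : ℤ) : ℝ) = (a : ℝ) * b := by
  have : ww a b = ((a * b : ℕ) : ℤ) := rfl
  rw [this]
  push_cast
  rfl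

theorem lin_gen {a0 a1 a2 b0 b1 b2 : ℤ} {W0 W1 W2 kk : ℕ} {R : ℤ} {m : ℕ → ℝ}
    (h : linG (pol a0 b0 a0 b0) (pol a1 b1 a1 b1) (pol a2 b2 a2 b2) (pol a0 b0 a1 b1)
      (pol a0 b0 a2 b2) (pol a1 b1 a2 b2) (ww W0 W0) (ww W1 W1) (ww W2 W2) (ww W0 W1) (ww W0 W2)
      (ww W1 W2) (Int.ofNat kk) R = true) (h0 : 0 ≤ m 0) (h1 : 0 ≤ m 1) (h2 : 0 ≤ m 2)
    (hs : m 0 * W0 + m 1 * W1 + m 2 * W2 = 1) :
    0 ≤ 2 * ((kk : ℝ) * ((m 0 * a0 + m 1 * a1 + m 2 * a2) * (m 0 * b0 + m 1 * b1 + m 2 * b2))) +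
      R := by
  unfold linG at h
  simp only [bAnd] at h
  obtain ⟨⟨⟨c00, c11⟩, c22, c01⟩, c02, c12⟩ := h
  have e : ((Int.ofNat kk : ℤ) : ℝ) = (kk : ℝ) := ofNat_cast kk
  refine lin_real h0 h1 h2 hs ?_ ?_ ?_ ?_ ?_ ?_
  · have := lm_real c00; rw [pol_eq, ww_cast, e] at this; push_cast at this; exact this
  · have := lm_real c11; rw [pol_eq, ww_cast, e] at this; push_cast at this; exact this
  · have := lm_real c22; rw [pol_eq, ww_cast, e] at this; push_cast at this; exact this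
  · have := lm_real c01; rw [pol_eq, ww_cast, e] at this; push_cast at this; exact this
  · have := lm_real c02; rw [pol_eq, ww_cast, e] at this; push_cast at this; exact this
  · have := lm_real c12; rw [pol_eq, ww_cast, e] at this; push_cast at this; exact this

theorem rest_cast (A B C : ℤ) (u : Gn) :
    ((rest A B C u : ℤ) : ℝ) = u.al * A + u.be * B + u.ga * C := by
  have : rest A B C u = (u.al : ℤ) * A + ((u.be : ℤ) * B + u.ga * C) := rfl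
  rw [this]
  push_cast
  ring

theorem dot_comb (v : Fin 4 → ℝ) {n a b c : Fin 4 → ℝ} {m0 m1 m2 : ℝ}
    (h : n = m0 • a + m1 • b + m2 • c) :
    (v ⬝ᵥ n) = m0 * (v ⬝ᵥ a) + m1 * (v ⬝ᵥ b) + m2 * (v ⬝ᵥ c) := by
  rw [h, dotProduct_add, dotProduct_add, dotProduct_smul, dotProduct_smul, dotProduct_smul]
  rfl

theorem lin_hold {m f n0 n1 n2 d e : V4} {W0 W1 W2 : ℕ} {u0 u1 u2 u3 : Gn} {μ w : ℕ → ℝ}
    {k al be ga : ℝ} {n δ ε : Fin 4 → ℝ} (h : lin m f n0 n1 n2 d e W0 W1 W2 u0 u1 u2 u3 = true)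
    (h0 : 0 ≤ μ 0) (h1 : 0 ≤ μ 1) (h2 : 0 ≤ μ 2) (hs : μ 0 * W0 + μ 1 * W1 + μ 2 * W2 = 1)
    (g0 : 0 ≤ w 0) (g1 : 0 ≤ w 1) (g2 : 0 ≤ w 2) (g3 : 0 ≤ w 3)
    (hk : k = w 0 * u0.k + w 1 * u1.k + w 2 * u2.k + w 3 * u3.k)
    (hal : al = w 0 * u0.al + w 1 * u1.al + w 2 * u2.al + w 3 * u3.al)
    (hbe : be = w 0 * u0.be + w 1 * u1.be + w 2 * u2.be + w 3 * u3.be)
    (hga : ga = w 0 * u0.ga + w 1 * u1.ga + w 2 * u2.ga + w 3 * u3.ga)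
    (hn : n = μ 0 • vR n0 + μ 1 • vR n1 + μ 2 • vR n2) (hd : vR d = δ) (he : vR e = ε) :
    0 ≤ k * ((vR m ⬝ᵥ n) * (vR f ⬝ᵥ n)) + al * ((vR m ⬝ᵥ δ) * (vR f ⬝ᵥ δ)) +
      be * ((vR m ⬝ᵥ ε) * (vR f ⬝ᵥ ε)) +
      ga * ((vR m ⬝ᵥ δ) * (vR f ⬝ᵥ ε) + (vR m ⬝ᵥ ε) * (vR f ⬝ᵥ δ)) := by
  subst hd he
  unfold lin linC linB at h
  rw [bAnd, bAnd, bAnd] at h
  obtain ⟨⟨c0, c1⟩, c2, c3⟩ := h
  have d0 := lin_gen c0 h0 h1 h2 hs
  have d1 := lin_gen c1 h0 h1 h2 hs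
  have d2 := lin_gen c2 h0 h1 h2 hs
  have d3 := lin_gen c3 h0 h1 h2 hs
  have em := dot_comb (vR m) hn
  have ef := dot_comb (vR f) hn
  rw [rest_cast] at d0 d1 d2 d3
  simp only [dot_eq] at d0 d1 d2 d3
  rw [← em, ← ef] at d0 d1 d2 d3
  have eA : ((pol (dot m d) (dot f d) (dot m d) (dot f d) : ℤ) : ℝ) =
      2 * ((vR m ⬝ᵥ vR d) * (vR f ⬝ᵥ vR d)) := by
    rw [pol_eq]; push_cast; rw [dot_eq, dot_eq]; ring
  have eB : ((pol (dot m e) (dot f e) (dot m e) (dot f e) : ℤ) : ℝ) =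
      2 * ((vR m ⬝ᵥ vR e) * (vR f ⬝ᵥ vR e)) := by
    rw [pol_eq]; push_cast; rw [dot_eq, dot_eq]; ring
  have eC : ((Int.add (pol (dot m d) (dot f d) (dot m e) (dot f e))
      (pol (dot m d) (dot f d) (dot m e) (dot f e)) : ℤ) : ℝ) =
      2 * ((vR m ⬝ᵥ vR d) * (vR f ⬝ᵥ vR e) + (vR m ⬝ᵥ vR e) * (vR f ⬝ᵥ vR d)) := by
    have e1 : Int.add (pol (dot m d) (dot f d) (dot m e) (dot f e))
      (pol (dot m d) (dot f d) (dot m e) (dot f e)) =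
      (dot m d * dot f e + dot m e * dot f d) + (dot m d * dot f e + dot m e * dot f d) := rfl
    rw [e1]; push_cast; rw [dot_eq, dot_eq, dot_eq, dot_eq]; ring
  rw [eA, eB, eC] at d0 d1 d2 d3
  have tot := add_nonneg (add_nonneg (add_nonneg (mul_nonneg g0 d0) (mul_nonneg g1 d1))
    (mul_nonneg g2 d2)) (mul_nonneg g3 d3)
  have e9 : ∀ X Y Z T : ℝ, w 0 * (2 * ((u0.k : ℝ) * X) + (u0.al * (2 * Y) + u0.be * (2 * Z) +
      u0.ga * (2 * T))) + w 1 * (2 * ((u1.k : ℝ) * X) + (u1.al * (2 * Y) + u1.be * (2 * Z) +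
      u1.ga * (2 * T))) + w 2 * (2 * ((u2.k : ℝ) * X) + (u2.al * (2 * Y) + u2.be * (2 * Z) +
      u2.ga * (2 * T))) + w 3 * (2 * ((u3.k : ℝ) * X) + (u3.al * (2 * Y) + u3.be * (2 * Z) +
      u3.ga * (2 * T))) = 2 * (k * X + al * Y + be * Z + ga * T) := by
    intro X Y Z T
    rw [hk, hal, hbe, hga]
    ring
  rw [e9] at tot
  linarith

/-! ### quadratic conditions -/

theorem quC_real {H P Q S A B C E : ℤ} (h : quC H P Q S A B C E = true) :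
    (0 : ℝ) ≤ H * A + P * B + (Q * C - S * E) := by
  have h1 := nn_iff.1 h
  have h2 : (0 : ℤ) ≤ (H * A + P * B) + (Q * C - S * E) := h1
  have h3 : ((0 : ℤ) : ℝ) ≤ (((H * A + P * B) + (Q * C - S * E) : ℤ) : ℝ) := Int.cast_le.2 h2
  push_cast at h3
  exact h3

theorem quP_real {a0 a1 a2 b0 b1 b2 c0 c1 c2 d0 d1 d2 H P Q S : ℤ} {W0 W1 W2 : ℕ} {m : ℕ → ℝ}
    (h : quP a0 a1 a2 b0 b1 b2 c0 c1 c2 d0 d1 d2 (ww W0 W0) (ww W1 W1) (ww W2 W2) (ww W0 W1)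
      (ww W0 W2) (ww W1 W2) H P Q S = true) (h0 : 0 ≤ m 0) (h1 : 0 ≤ m 1)
    (h2 : 0 ≤ m 2) (hs : m 0 * W0 + m 1 * W1 + m 2 * W2 = 1) :
    (0 : ℝ) ≤ H + 2 * (P * ((m 0 * a0 + m 1 * a1 + m 2 * a2) * (m 0 * b0 + m 1 * b1 + m 2 * b2))) +
      2 * (Q * ((m 0 * c0 + m 1 * c1 + m 2 * c2) * (m 0 * d0 + m 1 * d1 + m 2 * d2))) -
      2 * (S * ((m 0 * a0 + m 1 * a1 + m 2 * a2) * (m 0 * d0 + m 1 * d1 + m 2 * d2) +
        (m 0 * c0 + m 1 * c1 + m 2 * c2) * (m 0 * b0 + m 1 * b1 + m 2 * b2))) := by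
  unfold quP at h
  rw [bAnd, bAnd, bAnd, bAnd, bAnd] at h
  obtain ⟨⟨⟨c00, c11⟩, c22, c01⟩, c02, c12⟩ := h
  refine quad_real h0 h1 h2 hs ?_ ?_ ?_ ?_ ?_ ?_
  · have e : Int.add (pol a0 b0 c0 d0) (pol a0 b0 c0 d0) =
      (a0 * d0 + c0 * b0) + (a0 * d0 + c0 * b0) := rfl
    have := quC_real c00
    rw [pol_eq, pol_eq, e, ww_cast] at this
    push_cast at this
    exact this
  · have e : Int.add (pol a1 b1 c1 d1) (pol a1 b1 c1 d1) =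
      (a1 * d1 + c1 * b1) + (a1 * d1 + c1 * b1) := rfl
    have := quC_real c11
    rw [pol_eq, pol_eq, e, ww_cast] at this
    push_cast at this
    exact this
  · have e : Int.add (pol a2 b2 c2 d2) (pol a2 b2 c2 d2) =
      (a2 * d2 + c2 * b2) + (a2 * d2 + c2 * b2) := rfl
    have := quC_real c22
    rw [pol_eq, pol_eq, e, ww_cast] at this
    push_cast at this
    exact this
  · have e : Int.add (pol a0 b0 c1 d1) (pol a1 b1 c0 d0) =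
      (a0 * d1 + c1 * b0) + (a1 * d0 + c0 * b1) := rfl
    have := quC_real c01
    rw [pol_eq, pol_eq, e, ww_cast] at this
    push_cast at this
    exact this
  · have e : Int.add (pol a0 b0 c2 d2) (pol a2 b2 c0 d0) =
      (a0 * d2 + c2 * b0) + (a2 * d0 + c0 * b2) := rfl
    have := quC_real c02
    rw [pol_eq, pol_eq, e, ww_cast] at this
    push_cast at this
    exact this
  · have e : Int.add (pol a1 b1 c2 d2) (pol a2 b2 c1 d1) =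
      (a1 * d2 + c2 * b1) + (a2 * d1 + c1 * b2) := rfl
    have := quC_real c12
    rw [pol_eq, pol_eq, e, ww_cast] at this
    push_cast at this
    exact this

end Pool.Agent.TET.Cvr
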