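import Pool.Agent.Helper37_TET.CovSound2

/-!
# MP_c7c9bf_co: soundness of the cover checker, leaves
-/

set_option autoImplicit false

namespace Pool.Agent.TET.Cvr

theorem quad_hold {v w' s p0 p1 p2 q0 q1 q2 : V4} {W0 W1 W2 : ℕ} {u0 u1 u2 u3 : Gn}
    {μ w : ℕ → ℝ} {k al be ga : ℝ} {σ p q : Fin 4 → ℝ}
    (h : qua v w' s p0 p1 p2 q0 q1 q2 W0 W1 W2 u0 u1 u2 u3 = true)
    (h0 : 0 ≤ μ 0) (h1 : 0 ≤ μ 1) (h2 : 0 ≤ μ 2) (hs : μ 0 * W0 + μ 1 * W1 + μ 2 * W2 = 1)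
    (g0 : 0 ≤ w 0) (g1 : 0 ≤ w 1) (g2 : 0 ≤ w 2) (g3 : 0 ≤ w 3)
    (hk : k = w 0 * u0.k + w 1 * u1.k + w 2 * u2.k + w 3 * u3.k)
    (hal : al = w 0 * u0.al + w 1 * u1.al + w 2 * u2.al + w 3 * u3.al)
    (hbe : be = w 0 * u0.be + w 1 * u1.be + w 2 * u2.be + w 3 * u3.be)
    (hga : ga = w 0 * u0.ga + w 1 * u1.ga + w 2 * u2.ga + w 3 * u3.ga)
    (hp : p = μ 0 • vR p0 + μ 1 • vR p1 + μ 2 • vR p2)
    (hq : q = μ 0 • vR q0 + μ 1 • vR q1 + μ 2 • vR q2) (hσ : vR s = σ) :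
    0 ≤ (al * be - ga ^ 2) * ((vR v ⬝ᵥ σ) * (vR w' ⬝ᵥ σ)) +
      k * (be * ((vR v ⬝ᵥ p) * (vR w' ⬝ᵥ p)) + al * ((vR v ⬝ᵥ q) * (vR w' ⬝ᵥ q)) -
        ga * ((vR v ⬝ᵥ p) * (vR w' ⬝ᵥ q) + (vR v ⬝ᵥ q) * (vR w' ⬝ᵥ p))) := by
  subst hσ
  have ep := dot_comb (vR v) hp
  have eq := dot_comb (vR v) hq
  have ep' := dot_comb (vR w') hp
  have eq' := dot_comb (vR w') hq
  have eA : ((pol (dot v s) (dot w' s) (dot v s) (dot w' s) : ℤ) : ℝ) =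
      2 * ((vR v ⬝ᵥ vR s) * (vR w' ⬝ᵥ vR s)) := by
    rw [pol_eq]; push_cast; rw [dot_eq, dot_eq]; ring
  have key : ∀ a b : Gn, quG (pol (dot v s) (dot w' s) (dot v s) (dot w' s)) (dot v p0) (dot v p1)
      (dot v p2) (dot w' p0) (dot w' p1) (dot w' p2) (dot v q0) (dot v q1) (dot v q2)
      (dot w' q0) (dot w' q1) (dot w' q2) (ww W0 W0) (ww W1 W1) (ww W2 W2) (ww W0 W1) (ww W0 W2)
      (ww W1 W2) a b = true →
      0 ≤ gv (2 * ((vR v ⬝ᵥ vR s) * (vR w' ⬝ᵥ vR s))) (2 * ((vR v ⬝ᵥ p) * (vR w' ⬝ᵥ p)))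
        (2 * ((vR v ⬝ᵥ q) * (vR w' ⬝ᵥ q)))
        (2 * ((vR v ⬝ᵥ p) * (vR w' ⬝ᵥ q) + (vR v ⬝ᵥ q) * (vR w' ⬝ᵥ p))) a b := by
    intro a b hab
    have h3 := quP_real hab h0 h1 h2 hs
    simp only [dot_eq] at h3
    rw [← ep, ← ep', ← eq, ← eq'] at h3
    have e0 : ((Int.mul (hP a b) (pol (dot v s) (dot w' s) (dot v s) (dot w' s)) : ℤ) : ℝ) =
        ((hP a b : ℤ) : ℝ) * (2 * ((vR v ⬝ᵥ vR s) * (vR w' ⬝ᵥ vR s))) := by
      have : Int.mul (hP a b) (pol (dot v s) (dot w' s) (dot v s) (dot w' s)) =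
        hP a b * (pol (dot v s) (dot w' s) (dot v s) (dot w' s)) := rfl
      rw [this]
      push_cast
      rw [eA]
    have e1 : ((hP a b : ℤ) : ℝ) = (a.al * b.be + b.al * a.be) - (a.ga * b.ga + a.ga * b.ga) := by
      have : hP a b = ((a.al : ℤ) * (b.be : ℤ) + (b.al : ℤ) * (a.be : ℤ)) -
        (a.ga * b.ga + a.ga * b.ga) := rfl
      rw [this]; push_cast; ring
    have e2 : ((kbP a b : ℤ) : ℝ) = a.k * b.be + b.k * a.be := by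
      have : kbP a b = (a.k : ℤ) * (b.be : ℤ) + (b.k : ℤ) * (a.be : ℤ) := rfl
      rw [this]; push_cast; ring
    have e3 : ((kaP a b : ℤ) : ℝ) = a.k * b.al + b.k * a.al := by
      have : kaP a b = (a.k : ℤ) * (b.al : ℤ) + (b.k : ℤ) * (a.al : ℤ) := rfl
      rw [this]; push_cast; ring
    have e4 : ((kgP a b : ℤ) : ℝ) = a.k * b.ga + b.k * a.ga := by
      have : kgP a b = (a.k : ℤ) * b.ga + (b.k : ℤ) * a.ga := rfl
      rw [this]; push_cast; ring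
    rw [e0, e1, e2, e3, e4] at h3
    unfold gv
    calc (0 : ℝ) ≤ _ := h3
      _ = _ := by ring
  unfold qua all4 at h
  simp only [bAnd] at h
  obtain ⟨⟨⟨c00, c11⟩, c22, c33⟩, ⟨c01, c02, c03⟩, c12, c13, c23⟩ := h
  have tot := gens_real g0 g1 g2 g3 (key _ _ c00) (key _ _ c11) (key _ _ c22) (key _ _ c33)
    (key _ _ c01) (key _ _ c02) (key _ _ c03) (key _ _ c12) (key _ _ c13) (key _ _ c23)
    hk hal hbe hga
  have e9 : 2 * ((al * be - ga ^ 2) * (2 * ((vR v ⬝ᵥ vR s) * (vR w' ⬝ᵥ vR s))) +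
      k * be * (2 * ((vR v ⬝ᵥ p) * (vR w' ⬝ᵥ p))) +
      k * al * (2 * ((vR v ⬝ᵥ q) * (vR w' ⬝ᵥ q))) -
      k * ga * (2 * ((vR v ⬝ᵥ p) * (vR w' ⬝ᵥ q) + (vR v ⬝ᵥ q) * (vR w' ⬝ᵥ p)))) =
      4 * ((al * be - ga ^ 2) * ((vR v ⬝ᵥ vR s) * (vR w' ⬝ᵥ vR s)) +
      k * (be * ((vR v ⬝ᵥ p) * (vR w' ⬝ᵥ p)) + al * ((vR v ⬝ᵥ q) * (vR w' ⬝ᵥ q)) -
        ga * ((vR v ⬝ᵥ p) * (vR w' ⬝ᵥ q) + (vR v ⬝ᵥ q) * (vR w' ⬝ᵥ p)))) := by ring
  rw [e9] at tot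
  linarith

/-! ### relabelling -/

theorem get_vR (v : V4) {i : ℕ} (hi : i < 4) : ((get v i : ℤ) : ℝ) = vR v ⟨i, hi⟩ := by
  have h : i = 0 ∨ i = 1 ∨ i = 2 ∨ i = 3 := by omega
  rcases h with rfl | rfl | rfl | rfl <;> rfl

/-- the relabelling -/
def sg (s0 s1 s2 s3 : ℕ) (h0 : s0 < 4) (h1 : s1 < 4) (h2 : s2 < 4) (h3 : s3 < 4) : Fin 4 → Fin 4 :=
  ![⟨s0, h0⟩, ⟨s1, h1⟩, ⟨s2, h2⟩, ⟨s3, h3⟩]

theorem vR_prm (v : V4) {s0 s1 s2 s3 : ℕ} (h0 : s0 < 4) (h1 : s1 < 4) (h2 : s2 < 4) (h3 : s3 < 4) :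
    vR (prm s0 s1 s2 s3 v) = vR v ∘ sg s0 s1 s2 s3 h0 h1 h2 h3 := by
  funext i
  fin_cases i
  · exact get_vR v h0
  · exact get_vR v h1
  · exact get_vR v h2
  · exact get_vR v h3

theorem not_beq {a b : ℕ} (h : (not (Nat.beq a b)) = true) : a ≠ b := by
  intro e
  rw [e] at h
  have : Nat.beq b b = true := Nat.beq_refl b
  rw [this] at h
  exact absurd h (by decide)

theorem isP_iff {a b c d : ℕ} (h : isP a b c d = true) : a < 4 ∧ b < 4 ∧ c < 4 ∧ d < 4 ∧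
    a ≠ b ∧ a ≠ c ∧ a ≠ d ∧ b ≠ c ∧ b ≠ d ∧ c ≠ d := by
  unfold isP at h
  simp only [bAnd] at h
  obtain ⟨⟨⟨ha, hb⟩, hc, hd⟩, ⟨⟨hab, hac⟩, had⟩, ⟨hbc, hbd⟩, hcd⟩ := h
  refine ⟨?_, ?_, ?_, ?_, not_beq hab, not_beq hac, not_beq had, not_beq hbc, not_beq hbd,
    not_beq hcd⟩
  · exact Nat.lt_succ_of_le (Nat.le_of_ble_eq_true ha)
  · exact Nat.lt_succ_of_le (Nat.le_of_ble_eq_true hb)
  · exact Nat.lt_succ_of_le (Nat.le_of_ble_eq_true hc)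
  · exact Nat.lt_succ_of_le (Nat.le_of_ble_eq_true hd)

theorem sg_inj {s0 s1 s2 s3 : ℕ} (h0 : s0 < 4) (h1 : s1 < 4) (h2 : s2 < 4) (h3 : s3 < 4)
    (a : s0 ≠ s1) (b : s0 ≠ s2) (c : s0 ≠ s3) (d : s1 ≠ s2) (e : s1 ≠ s3) (f : s2 ≠ s3) :
    Function.Injective (sg s0 s1 s2 s3 h0 h1 h2 h3) := by
  intro i j hij
  have hv : ((sg s0 s1 s2 s3 h0 h1 h2 h3 i : Fin 4) : ℕ) = (sg s0 s1 s2 s3 h0 h1 h2 h3 j : Fin 4) := by
    rw [hij]
  fin_cases i <;> fin_cases j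
  · rfl
  · exact absurd hv a
  · exact absurd hv b
  · exact absurd hv c
  · exact absurd hv a.symm
  · rfl
  · exact absurd hv d
  · exact absurd hv e
  · exact absurd hv b.symm
  · exact absurd hv d.symm
  · rfl
  · exact absurd hv f
  · exact absurd hv c.symm
  · exact absurd hv e.symm
  · exact absurd hv f.symm
  · rfl

/-! ### the charts -/

theorem n_comb {ch : ℕ} {x y m0 m1 m2 : ℝ} {p0 p1 p2 : Pt}
    (hs : m0 * p0.W + m1 * p1.W + m2 * p2.W = 1)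
    (hx : x = m0 * p0.X + m1 * p1.X + m2 * p2.X) (hy : y = m0 * p0.Y + m1 * p1.Y + m2 * p2.Y) :
    nR ch x y = m0 • vR (nC ch p0.W p0.X p0.Y) + m1 • vR (nC ch p1.W p1.X p1.Y) +
      m2 • vR (nC ch p2.W p2.X p2.Y) := by
  cases ch with
  | zero =>
    funext i
    fin_cases i
    · show x - 1 = m0 * ((Int.subNatNat p0.X p0.W : ℤ) : ℝ) +
        m1 * ((Int.subNatNat p1.X p1.W : ℤ) : ℝ) + m2 * ((Int.subNatNat p2.X p2.W : ℤ) : ℝ)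
      rw [subNat_cast, subNat_cast, subNat_cast]
      linear_combination hx + hs
    · show -x = m0 * ((Int.subNatNat 0 p0.X : ℤ) : ℝ) +
        m1 * ((Int.subNatNat 0 p1.X : ℤ) : ℝ) + m2 * ((Int.subNatNat 0 p2.X : ℤ) : ℝ)
      rw [subNat_cast, subNat_cast, subNat_cast, Nat.cast_zero]
      linear_combination -hx
    · show 1 - y = m0 * ((Int.subNatNat p0.W p0.Y : ℤ) : ℝ) +
        m1 * ((Int.subNatNat p1.W p1.Y : ℤ) : ℝ) + m2 * ((Int.subNatNat p2.W p2.Y : ℤ) : ℝ)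
      rw [subNat_cast, subNat_cast, subNat_cast]
      linear_combination -hy - hs
    · show y = m0 * ((Int.ofNat p0.Y : ℤ) : ℝ) +
        m1 * ((Int.ofNat p1.Y : ℤ) : ℝ) + m2 * ((Int.ofNat p2.Y : ℤ) : ℝ)
      rw [ofNat_cast, ofNat_cast, ofNat_cast]
      exact hy
  | succ c =>
    funext i
    fin_cases i
    · show x + y - 1 = m0 * ((Int.subNatNat (p0.X + p0.Y) p0.W : ℤ) : ℝ) +
        m1 * ((Int.subNatNat (p1.X + p1.Y) p1.W : ℤ) : ℝ) +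
        m2 * ((Int.subNatNat (p2.X + p2.Y) p2.W : ℤ) : ℝ)
      rw [subNat_cast, subNat_cast, subNat_cast]
      push_cast
      linear_combination hx + hy + hs
    · show -x = m0 * ((Int.subNatNat 0 p0.X : ℤ) : ℝ) +
        m1 * ((Int.subNatNat 0 p1.X : ℤ) : ℝ) + m2 * ((Int.subNatNat 0 p2.X : ℤ) : ℝ)
      rw [subNat_cast, subNat_cast, subNat_cast, Nat.cast_zero]
      linear_combination -hx
    · show -y = m0 * ((Int.subNatNat 0 p0.Y : ℤ) : ℝ) +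
        m1 * ((Int.subNatNat 0 p1.Y : ℤ) : ℝ) + m2 * ((Int.subNatNat 0 p2.Y : ℤ) : ℝ)
      rw [subNat_cast, subNat_cast, subNat_cast, Nat.cast_zero]
      linear_combination -hy
    · show (1 : ℝ) = m0 * ((Int.ofNat p0.W : ℤ) : ℝ) +
        m1 * ((Int.ofNat p1.W : ℤ) : ℝ) + m2 * ((Int.ofNat p2.W : ℤ) : ℝ)
      rw [ofNat_cast, ofNat_cast, ofNat_cast]
      exact hs.symm

theorem p_comb {ch : ℕ} {x m0 m1 m2 : ℝ} {p0 p1 p2 : Pt}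
    (hs : m0 * p0.W + m1 * p1.W + m2 * p2.W = 1)
    (hx : x = m0 * p0.X + m1 * p1.X + m2 * p2.X) :
    pR ch x = m0 • vR (pC ch p0.W p0.X) + m1 • vR (pC ch p1.W p1.X) +
      m2 • vR (pC ch p2.W p2.X) := by
  cases ch with
  | zero =>
    have h3 : 1 - x = m0 * ((Int.subNatNat p0.W p0.X : ℤ) : ℝ) +
        m1 * ((Int.subNatNat p1.W p1.X : ℤ) : ℝ) + m2 * ((Int.subNatNat p2.W p2.X : ℤ) : ℝ) := by
      rw [subNat_cast, subNat_cast, subNat_cast]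
      linear_combination -hx - hs
    funext i
    fin_cases i
    · show (1 : ℝ) = m0 * ((Int.ofNat p0.W : ℤ) : ℝ) +
        m1 * ((Int.ofNat p1.W : ℤ) : ℝ) + m2 * ((Int.ofNat p2.W : ℤ) : ℝ)
      rw [ofNat_cast, ofNat_cast, ofNat_cast]
      exact hs.symm
    · show (0 : ℝ) = m0 * ((0 : ℤ) : ℝ) + m1 * ((0 : ℤ) : ℝ) + m2 * ((0 : ℤ) : ℝ)
      push_cast
      ring
    · exact h3
    · exact h3
  | succ c =>
    funext i
    fin_cases i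
    · show (0 : ℝ) = m0 * ((0 : ℤ) : ℝ) + m1 * ((0 : ℤ) : ℝ) + m2 * ((0 : ℤ) : ℝ)
      push_cast
      ring
    · show (-1 : ℝ) = m0 * ((Int.subNatNat 0 p0.W : ℤ) : ℝ) +
        m1 * ((Int.subNatNat 0 p1.W : ℤ) : ℝ) + m2 * ((Int.subNatNat 0 p2.W : ℤ) : ℝ)
      rw [subNat_cast, subNat_cast, subNat_cast, Nat.cast_zero]
      linear_combination hs
    · show (0 : ℝ) = m0 * ((0 : ℤ) : ℝ) + m1 * ((0 : ℤ) : ℝ) + m2 * ((0 : ℤ) : ℝ)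
      push_cast
      ring
    · show -x = m0 * ((Int.subNatNat 0 p0.X : ℤ) : ℝ) +
        m1 * ((Int.subNatNat 0 p1.X : ℤ) : ℝ) + m2 * ((Int.subNatNat 0 p2.X : ℤ) : ℝ)
      rw [subNat_cast, subNat_cast, subNat_cast, Nat.cast_zero]
      linear_combination -hx

theorem q_comb {ch : ℕ} {y m0 m1 m2 : ℝ} {p0 p1 p2 : Pt}
    (hs : m0 * p0.W + m1 * p1.W + m2 * p2.W = 1)
    (hy : y = m0 * p0.Y + m1 * p1.Y + m2 * p2.Y) :
    qR ch y = m0 • vR (qC ch p0.W p0.Y) + m1 • vR (qC ch p1.W p1.Y) +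
      m2 • vR (qC ch p2.W p2.Y) := by
  cases ch with
  | zero =>
    funext i
    fin_cases i
    · show (0 : ℝ) = m0 * ((0 : ℤ) : ℝ) + m1 * ((0 : ℤ) : ℝ) + m2 * ((0 : ℤ) : ℝ)
      push_cast
      ring
    · show (0 : ℝ) = m0 * ((0 : ℤ) : ℝ) + m1 * ((0 : ℤ) : ℝ) + m2 * ((0 : ℤ) : ℝ)
      push_cast
      ring
    · show y = m0 * ((Int.ofNat p0.Y : ℤ) : ℝ) +
        m1 * ((Int.ofNat p1.Y : ℤ) : ℝ) + m2 * ((Int.ofNat p2.Y : ℤ) : ℝ)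
      rw [ofNat_cast, ofNat_cast, ofNat_cast]
      exact hy
    · show y - 1 = m0 * ((Int.subNatNat p0.Y p0.W : ℤ) : ℝ) +
        m1 * ((Int.subNatNat p1.Y p1.W : ℤ) : ℝ) + m2 * ((Int.subNatNat p2.Y p2.W : ℤ) : ℝ)
      rw [subNat_cast, subNat_cast, subNat_cast]
      linear_combination hy + hs
  | succ c =>
    funext i
    fin_cases i
    · show (0 : ℝ) = m0 * ((0 : ℤ) : ℝ) + m1 * ((0 : ℤ) : ℝ) + m2 * ((0 : ℤ) : ℝ)
      push_cast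
      ring
    · show (0 : ℝ) = m0 * ((0 : ℤ) : ℝ) + m1 * ((0 : ℤ) : ℝ) + m2 * ((0 : ℤ) : ℝ)
      push_cast
      ring
    · show (-1 : ℝ) = m0 * ((Int.subNatNat 0 p0.W : ℤ) : ℝ) +
        m1 * ((Int.subNatNat 0 p1.W : ℤ) : ℝ) + m2 * ((Int.subNatNat 0 p2.W : ℤ) : ℝ)
      rw [subNat_cast, subNat_cast, subNat_cast, Nat.cast_zero]
      linear_combination hs
    · show -y = m0 * ((Int.subNatNat 0 p0.Y : ℤ) : ℝ) +
        m1 * ((Int.subNatNat 0 p1.Y : ℤ) : ℝ) + m2 * ((Int.subNatNat 0 p2.Y : ℤ) : ℝ)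
      rw [subNat_cast, subNat_cast, subNat_cast, Nat.cast_zero]
      linear_combination -hy

theorem s_sc (ch : ℕ) : vR (sC ch) = sR ch := by
  cases ch with
  | zero =>
    funext i
    fin_cases i
    · show ((0 : ℤ) : ℝ) = 0
      norm_num
    · show ((0 : ℤ) : ℝ) = 0
      norm_num
    · show ((1 : ℤ) : ℝ) = 1
      norm_num
    · show ((1 : ℤ) : ℝ) = 1
      norm_num
  | succ c =>
    funext i
    fin_cases i
    · show ((0 : ℤ) : ℝ) = 0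
      norm_num
    · show ((0 : ℤ) : ℝ) = 0
      norm_num
    · show ((0 : ℤ) : ℝ) = 0
      norm_num
    · show ((1 : ℤ) : ℝ) = 1
      norm_num

theorem d_sc : vR dC = dR := by
  funext i
  fin_cases i
  · show ((1 : ℤ) : ℝ) = 1
    norm_num
  · show ((-1 : ℤ) : ℝ) = -1
    norm_num
  · show ((0 : ℤ) : ℝ) = 0
    norm_num
  · show ((0 : ℤ) : ℝ) = 0
    norm_num

theorem e_sc (ch : ℕ) : vR (eC ch) = eR ch := by
  cases ch with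
  | zero =>
    funext i
    fin_cases i
    · show ((0 : ℤ) : ℝ) = 0
      norm_num
    · show ((0 : ℤ) : ℝ) = 0
      norm_num
    · show ((1 : ℤ) : ℝ) = 1
      norm_num
    · show ((-1 : ℤ) : ℝ) = -1
      norm_num
  | succ c =>
    funext i
    fin_cases i
    · show ((1 : ℤ) : ℝ) = 1
      norm_num
    · show ((0 : ℤ) : ℝ) = 0
      norm_num
    · show ((-1 : ℤ) : ℝ) = -1
      norm_num
    · show ((0 : ℤ) : ℝ) = 0
      norm_num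

end Pool.Agent.TET.Cvr
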