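import Pool.Agent.Helper37_TET.CovSound3

/-!
# MP_c7c9bf_co: soundness of the cover checker
-/

set_option autoImplicit false

namespace Pool.Agent.TET.Cvr

theorem comp_comb {m0 m1 m2 : ℝ} {n a b c : Fin 4 → ℝ} (σ : Fin 4 → Fin 4)
    (h : n = m0 • a + m1 • b + m2 • c) :
    n ∘ σ = m0 • (a ∘ σ) + m1 • (b ∘ σ) + m2 • (c ∘ σ) := by
  funext i
  exact congrFun h (σ i)

theorem comp_sc {a b : Fin 4 → ℝ} (σ : Fin 4 → Fin 4) (h : a = b) : a ∘ σ = b ∘ σ := by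
  rw [h]

theorem allL_iff {α : Type} (p : α → Bool) (l : List α) :
    allL p l = true ↔ ∀ a ∈ l, p a = true := by
  induction l with
  | nil =>
    constructor
    · intro _ a ha
      exact absurd ha List.not_mem_nil
    · intro _
      rfl
  | cons b l ih =>
    have e : allL p (b :: l) = Bool.and (p b) (allL p l) := rfl
    rw [e, bAnd, ih]
    constructor
    · rintro ⟨h1, h2⟩ a ha
      rcases List.mem_cons.1 ha with rfl | ha
      · exact h1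
      · exact h2 a ha
    · intro h
      exact ⟨h b List.mem_cons_self, fun a ha => h a (List.mem_cons_of_mem _ ha)⟩

theorem nth_mem {α : Type} (x : α) : ∀ (l : List α) (i : ℕ), i < l.length → nth x l i ∈ l
  | [], i, h => absurd h (Nat.not_lt_zero i)
  | a :: l, 0, _ => List.mem_cons_self
  | a :: l, i + 1, h => List.mem_cons_of_mem _ (nth_mem x l i (Nat.lt_of_succ_lt_succ h))

/-- the conclusion: some region of the table holds for some relabelling -/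
def Cvd (ch : ℕ) (T : List (List Cd)) (x y k al be ga : ℝ) : Prop :=
  ∃ R ∈ T, ∃ σ : Fin 4 → Fin 4, Function.Injective σ ∧ ∀ c ∈ R, Hold ch x y k al be ga σ c

theorem leaf_sound {ch : ℕ} {T : List (List Cd)} {R s0 s1 s2 s3 : ℕ} {s : St}
    (h : leaf ch T R s0 s1 s2 s3 s = true) {x y k al be ga : ℝ} {m w : ℕ → ℝ}
    (hm : Mem s x y k al be ga m w) : Cvd ch T x y k al be ga := by
  unfold leaf at h
  rw [bAnd, bAnd, allL_iff] at h
  obtain ⟨⟨hp, hR⟩, ha⟩ := h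
  obtain ⟨h0, h1, h2, h3, a, b, c, d, e, f⟩ := isP_iff hp
  have hR' : R < T.length := by
    unfold Nat.blt at hR
    exact Nat.lt_of_succ_le (Nat.le_of_ble_eq_true hR)
  refine ⟨nth [] T R, nth_mem [] T R hR', sg s0 s1 s2 s3 h0 h1 h2 h3,
    sg_inj h0 h1 h2 h3 a b c d e f, ?_⟩
  intro cd hcd
  have hc := ha cd hcd
  cases cd with
  | l mm ff =>
    refine lin_hold hc hm.h0 hm.h1 hm.h2 hm.hs hm.g0 hm.g1 hm.g2 hm.g3 hm.hk hm.hal hm.hbe
      hm.hga ?_ ?_ ?_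
    · rw [vR_prm _ h0 h1 h2 h3, vR_prm _ h0 h1 h2 h3, vR_prm _ h0 h1 h2 h3]
      exact comp_comb _ (n_comb hm.hs hm.hx hm.hy)
    · rw [vR_prm _ h0 h1 h2 h3]
      exact comp_sc _ d_sc
    · rw [vR_prm _ h0 h1 h2 h3]
      exact comp_sc _ (e_sc ch)
  | q v w' =>
    refine quad_hold hc hm.h0 hm.h1 hm.h2 hm.hs hm.g0 hm.g1 hm.g2 hm.g3 hm.hk hm.hal hm.hbe
      hm.hga ?_ ?_ ?_
    · rw [vR_prm _ h0 h1 h2 h3, vR_prm _ h0 h1 h2 h3, vR_prm _ h0 h1 h2 h3]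
      exact comp_comb _ (p_comb hm.hs hm.hx)
    · rw [vR_prm _ h0 h1 h2 h3, vR_prm _ h0 h1 h2 h3, vR_prm _ h0 h1 h2 h3]
      exact comp_comb _ (q_comb hm.hs hm.hy)
    · rw [vR_prm _ h0 h1 h2 h3]
      exact comp_sc _ (s_sc ch)

/-! ### outside -/

theorem o0_real {u v : Gn} (h : o0 u v = true) : 0 ≤ gv (-1) 0 0 0 u v := by
  have h1 := nn_iff.1 h
  have h2 : (0 : ℤ) ≤ -(((u.al : ℤ) * (v.be : ℤ) + (v.al : ℤ) * (u.be : ℤ)) -
    (u.ga * v.ga + u.ga * v.ga)) := h1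
  have h3 : ((0 : ℤ) : ℝ) ≤ ((-(((u.al : ℤ) * (v.be : ℤ) + (v.al : ℤ) * (u.be : ℤ)) -
    (u.ga * v.ga + u.ga * v.ga)) : ℤ) : ℝ) := Int.cast_le.2 h2
  push_cast at h3
  unfold gv
  linarith

theorem out0 {s : St} (h : all4 o0 s.u0 s.u1 s.u2 s.u3 = true) {x y k al be ga : ℝ}
    {m w : ℕ → ℝ} (hm : Mem s x y k al be ga m w) : al * be - ga ^ 2 ≤ 0 := by
  unfold all4 at h
  simp only [bAnd] at h
  obtain ⟨⟨⟨c00, c11⟩, c22, c33⟩, ⟨c01, c02, c03⟩, c12, c13, c23⟩ := h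
  have := gens_real hm.g0 hm.g1 hm.g2 hm.g3 (o0_real c00) (o0_real c11) (o0_real c22) (o0_real c33)
    (o0_real c01) (o0_real c02) (o0_real c03) (o0_real c12) (o0_real c13) (o0_real c23)
    hm.hk hm.hal hm.hbe hm.hga
  linarith

/-- one generator -/
theorem o1_real {k al X W X' W' : ℕ} (h : o1 k al X W X' W' = true) (hX : X ≤ W) (hX' : X' ≤ W') :
    k = 0 ∨ (k : ℝ) * ((X : ℝ) * (W' - X') + X' * (W - X)) < 2 * (al * (W * W')) := by
  unfold o1 at h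
  rcases Bool.or_eq_true_iff.1 h with h1 | h1
  · exact Or.inl (Nat.eq_of_beq_eq_true h1)
  · right
    unfold Nat.blt at h1
    have h2 := Nat.lt_of_succ_le (Nat.le_of_ble_eq_true h1)
    have h3 : k * (X * (W' - X') + X' * (W - X)) < 2 * (al * (W * W')) := h2
    have h4 : ((k * (X * (W' - X') + X' * (W - X)) : ℕ) : ℝ) < ((2 * (al * (W * W')) : ℕ) : ℝ) :=
      Nat.cast_lt.2 h3
    push_cast [Nat.cast_sub hX, Nat.cast_sub hX'] at h4
    exact h4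

theorem o1c_real {X0 W0 X1 W1 X2 W2 k al : ℕ} (h : o1c X0 W0 X1 W1 X2 W2 k al = true)
    (h0 : X0 ≤ W0) (h1 : X1 ≤ W1) (h2 : X2 ≤ W2) {x m0 m1 m2 : ℝ} (hm0 : 0 ≤ m0) (hm1 : 0 ≤ m1)
    (hm2 : 0 ≤ m2) (hs : m0 * W0 + m1 * W1 + m2 * W2 = 1)
    (hx : x = m0 * X0 + m1 * X1 + m2 * X2) :
    k = 0 ∨ 0 < (al : ℝ) - k * (x * (1 - x)) := by
  unfold o1c at h
  simp only [bAnd] at h
  obtain ⟨⟨⟨c00, c11⟩, c22, c01⟩, c02, c12⟩ := h
  rcases o1_real c00 h0 h0 with hk | c00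
  · exact Or.inl hk
  rcases o1_real c11 h1 h1 with hk | c11
  · exact Or.inl hk
  rcases o1_real c22 h2 h2 with hk | c22
  · exact Or.inl hk
  rcases o1_real c01 h0 h1 with hk | c01
  · exact Or.inl hk
  rcases o1_real c02 h0 h2 with hk | c02
  · exact Or.inl hk
  rcases o1_real c12 h1 h2 with hk | c12
  · exact Or.inl hk
  right
  have e : 2 * ((al : ℝ) - k * (x * (1 - x))) =
      m0 * m0 * (2 * (al * (W0 * W0)) - k * (X0 * (W0 - X0) + X0 * (W0 - X0))) +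
      m1 * m1 * (2 * (al * (W1 * W1)) - k * (X1 * (W1 - X1) + X1 * (W1 - X1))) +
      m2 * m2 * (2 * (al * (W2 * W2)) - k * (X2 * (W2 - X2) + X2 * (W2 - X2))) +
      2 * (m0 * m1 * (2 * (al * (W0 * W1)) - k * (X0 * (W1 - X1) + X1 * (W0 - X0)))) +
      2 * (m0 * m2 * (2 * (al * (W0 * W2)) - k * (X0 * (W2 - X2) + X2 * (W0 - X0)))) +
      2 * (m1 * m2 * (2 * (al * (W1 * W2)) - k * (X1 * (W2 - X2) + X2 * (W1 - X1)))) := by
    have e1 : (al : ℝ) - k * (x * (1 - x)) =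
        al * (m0 * W0 + m1 * W1 + m2 * W2) ^ 2 -
          k * (x * ((m0 * W0 + m1 * W1 + m2 * W2) - x)) := by
      rw [hs]
      ring
    rw [e1, hx]
    ring
  have hpos : 0 < m0 * m0 ∨ 0 < m1 * m1 ∨ 0 < m2 * m2 := by
    by_contra hc
    push Not at hc
    obtain ⟨a, b, c⟩ := hc
    have a0 : m0 = 0 := by nlinarith
    have b0 : m1 = 0 := by nlinarith
    have c0 : m2 = 0 := by nlinarith
    rw [a0, b0, c0] at hs
    norm_num at hs
  have p00 := mul_nonneg (mul_nonneg hm0 hm0) (sub_pos.2 c00).le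
  have p11 := mul_nonneg (mul_nonneg hm1 hm1) (sub_pos.2 c11).le
  have p22 := mul_nonneg (mul_nonneg hm2 hm2) (sub_pos.2 c22).le
  have p01 := mul_nonneg (mul_nonneg hm0 hm1) (sub_pos.2 c01).le
  have p02 := mul_nonneg (mul_nonneg hm0 hm2) (sub_pos.2 c02).le
  have p12 := mul_nonneg (mul_nonneg hm1 hm2) (sub_pos.2 c12).le
  have : 0 < 2 * ((al : ℝ) - k * (x * (1 - x))) := by
    rw [e]
    rcases hpos with hp | hp | hp
    · have := mul_pos hp (sub_pos.2 c00)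
      linarith
    · have := mul_pos hp (sub_pos.2 c11)
      linarith
    · have := mul_pos hp (sub_pos.2 c22)
      linarith
  linarith

theorem le3_iff {a W0 b W1 c W2 : ℕ} (h : le3 a W0 b W1 c W2 = true) : a ≤ W0 ∧ b ≤ W1 ∧ c ≤ W2 := by
  unfold le3 at h
  simp only [bAnd] at h
  obtain ⟨⟨h1, h2⟩, h3⟩ := h
  exact ⟨Nat.le_of_ble_eq_true h1, Nat.le_of_ble_eq_true h2, Nat.le_of_ble_eq_true h3⟩

/-- the total -/
theorem o1_tot {X0 W0 X1 W1 X2 W2 k0 k1 k2 k3 a0 a1 a2 a3 : ℕ}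
    (h : o1g X0 W0 X1 W1 X2 W2 k0 a0 k1 a1 k2 a2 k3 a3 = true)
    {x k al m0 m1 m2 w0 w1 w2 w3 : ℝ} (hm0 : 0 ≤ m0)
    (hm1 : 0 ≤ m1) (hm2 : 0 ≤ m2) (hs : m0 * W0 + m1 * W1 + m2 * W2 = 1)
    (hx : x = m0 * X0 + m1 * X1 + m2 * X2) (g0 : 0 ≤ w0) (g1 : 0 ≤ w1) (g2 : 0 ≤ w2)
    (g3 : 0 ≤ w3) (hk : k = w0 * k0 + w1 * k1 + w2 * k2 + w3 * k3)
    (ha : al = w0 * a0 + w1 * a1 + w2 * a2 + w3 * a3) (hkp : 0 < k) :
    k * (x * (1 - x)) < al := by
  unfold o1g at h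
  simp only [bAnd] at h
  obtain ⟨hl, ⟨c0, c1⟩, c2, c3⟩ := h
  obtain ⟨l0, l1, l2⟩ := le3_iff hl
  have key : ∀ (kk aa : ℕ) (w : ℝ), o1c X0 W0 X1 W1 X2 W2 kk aa = true → 0 ≤ w →
      (0 ≤ w * (aa - kk * (x * (1 - x)))) ∧ (0 < w * kk → 0 < w * (aa - kk * (x * (1 - x)))) := by
    intro kk aa w hc hw
    rcases o1c_real hc l0 l1 l2 hm0 hm1 hm2 hs hx with h | h
    · subst h
      refine ⟨?_, ?_⟩
      · rw [Nat.cast_zero, zero_mul, sub_zero]
        exact mul_nonneg hw (Nat.cast_nonneg _)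
      · intro h
        rw [Nat.cast_zero, mul_zero] at h
        exact absurd h (lt_irrefl _)
    · refine ⟨mul_nonneg hw h.le, ?_⟩
      intro h2
      have hw' : 0 < w := by
        rcases hw.lt_or_eq with h3 | h3
        · exact h3
        · rw [← h3, zero_mul] at h2
          exact absurd h2 (lt_irrefl _)
      exact mul_pos hw' h
  obtain ⟨n0, s0⟩ := key k0 a0 w0 c0 g0
  obtain ⟨n1, s1⟩ := key k1 a1 w1 c1 g1
  obtain ⟨n2, s2⟩ := key k2 a2 w2 c2 g2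
  obtain ⟨n3, s3⟩ := key k3 a3 w3 c3 g3
  have e : al - k * (x * (1 - x)) = w0 * (a0 - k0 * (x * (1 - x))) +
      w1 * (a1 - k1 * (x * (1 - x))) + w2 * (a2 - k2 * (x * (1 - x))) +
      w3 * (a3 - k3 * (x * (1 - x))) := by
    rw [hk, ha]
    ring
  have hpos : 0 < w0 * k0 ∨ 0 < w1 * k1 ∨ 0 < w2 * k2 ∨ 0 < w3 * k3 := by
    by_contra hc
    push Not at hc
    obtain ⟨a, b, c, d⟩ := hc
    rw [hk] at hkp
    linarith
  have : 0 < al - k * (x * (1 - x)) := by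
    rw [e]
    rcases hpos with hp | hp | hp | hp
    · have := s0 hp
      linarith
    · have := s1 hp
      linarith
    · have := s2 hp
      linarith
    · have := s3 hp
      linarith
  linarith

/-! ### the positive semidefinite certificate -/

theorem isz_iff {a : ℤ} : isz a = true ↔ a = 0 := by
  unfold isz
  rw [bAnd, nn_iff, nn_iff]
  constructor
  · rintro ⟨h1, h2⟩
    have h3 : (0 : ℤ) ≤ -a := h2
    omega
  · intro h
    subst h
    exact ⟨le_rfl, le_rfl⟩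

theorem psG_real {a b : ℤ} {u : Gn} (h : psG a b u = true) :
    (u.al : ℝ) * (a * a) + u.be * (b * b) + 2 * u.ga * (a * b) ≤ 0 := by
  have h1 := nn_iff.1 h
  have h2 : (0 : ℤ) ≤ -(((u.al : ℤ) * (a * a) + (u.be : ℤ) * (b * b)) + (2 * u.ga) * (a * b)) := h1
  have h3 : ((0 : ℤ) : ℝ) ≤
      ((-(((u.al : ℤ) * (a * a) + (u.be : ℤ) * (b * b)) + (2 * u.ga) * (a * b)) : ℤ) : ℝ) :=
    Int.cast_le.2 h2
  push_cast at h3
  linarith

theorem ps_sound {a b : ℤ} {s : St} (h : ps a b s = true) {x y k al be ga : ℝ} {m w : ℕ → ℝ}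
    (hm : Mem s x y k al be ga m w) (hd : 0 < al * be - ga ^ 2) : False := by
  unfold ps at h
  simp only [bAnd] at h
  obtain ⟨h0, ⟨c0, c1⟩, c2, c3⟩ := h
  have hal : 0 ≤ al := by
    rw [hm.hal]
    have := hm.g0
    have := hm.g1
    have := hm.g2
    have := hm.g3
    positivity
  have hne : ¬ (a = 0 ∧ b = 0) := by
    intro hc
    rw [hc.1, hc.2] at h0
    exact absurd h0 (by decide)
  have h1 : al * (a * a) + be * (b * b) + 2 * ga * (a * b) ≤ 0 := by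
    have e : al * (a * a) + be * (b * b) + 2 * ga * (a * b) =
        w 0 * ((s.u0.al : ℝ) * (a * a) + s.u0.be * (b * b) + 2 * s.u0.ga * (a * b)) +
        w 1 * ((s.u1.al : ℝ) * (a * a) + s.u1.be * (b * b) + 2 * s.u1.ga * (a * b)) +
        w 2 * ((s.u2.al : ℝ) * (a * a) + s.u2.be * (b * b) + 2 * s.u2.ga * (a * b)) +
        w 3 * ((s.u3.al : ℝ) * (a * a) + s.u3.be * (b * b) + 2 * s.u3.ga * (a * b)) := by
      rw [hm.hal, hm.hbe, hm.hga]
      ring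
    rw [e]
    have t0 := mul_nonpos_of_nonneg_of_nonpos hm.g0 (psG_real c0)
    have t1 := mul_nonpos_of_nonneg_of_nonpos hm.g1 (psG_real c1)
    have t2 := mul_nonpos_of_nonneg_of_nonpos hm.g2 (psG_real c2)
    have t3 := mul_nonpos_of_nonneg_of_nonpos hm.g3 (psG_real c3)
    linarith
  have halp : 0 < al := by
    rcases hal.lt_or_eq with h2 | h2
    · exact h2
    · rw [← h2] at hd
      nlinarith [sq_nonneg ga]
  have h3 : al * (al * (a * a) + be * (b * b) + 2 * ga * (a * b)) =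
      (al * a + ga * b) ^ 2 + (al * be - ga ^ 2) * (b : ℝ) ^ 2 := by ring
  have h4 : al * (al * (a * a) + be * (b * b) + 2 * ga * (a * b)) ≤ 0 :=
    mul_nonpos_of_nonneg_of_nonpos hal h1
  rw [h3] at h4
  have h5 : 0 ≤ (al * a + ga * b) ^ 2 := sq_nonneg _
  have h6 : 0 ≤ (al * be - ga ^ 2) * (b : ℝ) ^ 2 := mul_nonneg hd.le (sq_nonneg _)
  have h7 : (al * be - ga ^ 2) * (b : ℝ) ^ 2 = 0 := by linarith
  have h8 : (b : ℝ) = 0 := by
    rcases mul_eq_zero.1 h7 with h9 | h9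
    · exact absurd h9 hd.ne'
    · exact pow_eq_zero_iff (two_ne_zero) |>.1 h9
  have h9 : (al * a + ga * b) ^ 2 = 0 := by linarith
  have h10 : al * (a : ℝ) = 0 := by
    have := pow_eq_zero_iff (two_ne_zero) |>.1 h9
    rw [h8, mul_zero, add_zero] at this
    exact this
  have h11 : (a : ℝ) = 0 := by
    rcases mul_eq_zero.1 h10 with h12 | h12
    · exact absurd h12 halp.ne'
    · exact h12
  exact hne ⟨by exact_mod_cast h11, by exact_mod_cast h8⟩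

end Pool.Agent.TET.Cvr
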