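import Pool.Agent.Helper37_TET.CovSound4

/-!
# MP_c7c9bf_co: soundness of the cover checker, the tree
-/

set_option autoImplicit false

namespace Pool.Agent.TET.Cvr

/-- the domain of a chart -/
structure Dom (ch : ℕ) (x y k al be ga : ℝ) : Prop where
  kp : 0 < k
  dp : 0 < al * be - ga ^ 2
  ap : ch = 0 → al ≤ k * (x * (1 - x))
  bp : ch = 0 → be ≤ k * (y * (1 - y))

theorem out_sound {ch t : ℕ} {s : St} (h : out ch t s = true)
    {x y k al be ga : ℝ} {m w : ℕ → ℝ} (hm : Mem s x y k al be ga m w)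
    (hd : Dom ch x y k al be ga) : False := by
  match t, h with
  | 0, h =>
    have h1 := out0 h hm
    exact absurd hd.dp (not_lt.2 h1)
  | 1, h =>
    have h' : Bool.and (Nat.beq ch 0) (o1g s.p0.X s.p0.W s.p1.X s.p1.W s.p2.X s.p2.W s.u0.k s.u0.al
      s.u1.k s.u1.al s.u2.k s.u2.al s.u3.k s.u3.al) = true := h
    rw [bAnd] at h'
    have h1 := o1_tot h'.2 hm.h0 hm.h1 hm.h2 hm.hs hm.hx hm.g0 hm.g1 hm.g2 hm.g3
      hm.hk hm.hal hd.kp
    exact absurd (hd.ap (Nat.eq_of_beq_eq_true h'.1)) (not_le.2 h1)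
  | t + 2, h =>
    have h' : Bool.and (Nat.beq ch 0) (o1g s.p0.Y s.p0.W s.p1.Y s.p1.W s.p2.Y s.p2.W s.u0.k s.u0.be
      s.u1.k s.u1.be s.u2.k s.u2.be s.u3.k s.u3.be) = true := h
    rw [bAnd] at h'
    have h1 := o1_tot h'.2 hm.h0 hm.h1 hm.h2 hm.hs hm.hy hm.g0 hm.g1 hm.g2 hm.g3
      hm.hk hm.hbe hd.kp
    exact absurd (hd.bp (Nat.eq_of_beq_eq_true h'.1)) (not_le.2 h1)

theorem cmb_k (p q : ℕ) (u v : Gn) : ((cmb p q u v).k : ℝ) = p * u.k + q * v.k := by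
  show ((p * u.k + q * v.k : ℕ) : ℝ) = _
  push_cast
  ring

theorem cmb_al (p q : ℕ) (u v : Gn) : ((cmb p q u v).al : ℝ) = p * u.al + q * v.al := by
  show ((p * u.al + q * v.al : ℕ) : ℝ) = _
  push_cast
  ring

theorem cmb_be (p q : ℕ) (u v : Gn) : ((cmb p q u v).be : ℝ) = p * u.be + q * v.be := by
  show ((p * u.be + q * v.be : ℕ) : ℝ) = _
  push_cast
  ring

theorem cmb_ga (p q : ℕ) (u v : Gn) : ((cmb p q u v).ga : ℝ) = p * u.ga + q * v.ga := by
  have : (cmb p q u v).ga = (p : ℤ) * u.ga + (q : ℤ) * v.ga := rfl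
  rw [this]
  push_cast
  ring

theorem mid_X (a b : ℕ) (p q : Pt) : ((mid a b p q).X : ℝ) = a * p.X + b * q.X := by
  show ((a * p.X + b * q.X : ℕ) : ℝ) = _
  push_cast
  ring

theorem mid_Y (a b : ℕ) (p q : Pt) : ((mid a b p q).Y : ℝ) = a * p.Y + b * q.Y := by
  show ((a * p.Y + b * q.Y : ℕ) : ℝ) = _
  push_cast
  ring

theorem mid_W (a b : ℕ) (p q : Pt) : ((mid a b p q).W : ℝ) = a * p.W + b * q.W := by
  show ((a * p.W + b * q.W : ℕ) : ℝ) = _
  push_cast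
  ring

/-! ### base splits -/

theorem split0 {a b : ℕ} (ha : 1 ≤ a) (hb : 1 ≤ b) {s : St} {x y k al be ga : ℝ} {m w : ℕ → ℝ}
    (hm : Mem s x y k al be ga m w) :
    (∃ m', Mem ⟨s.p0, mid a b s.p0 s.p1, s.p2, s.u0, s.u1, s.u2, s.u3⟩ x y k al be ga m' w) ∨
    (∃ m', Mem ⟨mid a b s.p0 s.p1, s.p1, s.p2, s.u0, s.u1, s.u2, s.u3⟩ x y k al be ga m' w) := by
  have hX := mid_X a b s.p0 s.p1
  have hY := mid_Y a b s.p0 s.p1
  have hW := mid_W a b s.p0 s.p1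
  have ha' : (0 : ℝ) < (a : ℝ) := Nat.cast_pos.2 ha
  have hb' : (0 : ℝ) < (b : ℝ) := Nat.cast_pos.2 hb
  obtain ⟨h0, h1, h2, hs, g0, g1, g2, g3, hx, hy, hk, hal, hbe, hga⟩ := hm
  rcases le_total ((a : ℝ) * m 1) (b * m 0) with hc | hc
  · left
    obtain ⟨t, ht⟩ : ∃ t, t = m 1 / b := ⟨_, rfl⟩
    have ht1 : t * b = m 1 := by rw [ht]; exact div_mul_cancel₀ _ hb'.ne'
    have ht0 : 0 ≤ t := by rw [ht]; exact div_nonneg h1 hb'.le
    have hA : 0 ≤ m 0 - a * t := by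
      have h3 : (a : ℝ) * t * b ≤ m 0 * b := by
        rw [mul_assoc, ht1]
        linarith
      have h4 := le_of_mul_le_mul_right h3 hb'
      linarith
    refine ⟨fun i => if i = 0 then m 0 - a * t else if i = 1 then t else m 2, ?_⟩
    refine ⟨hA, ht0, h2, ?_, g0, g1, g2, g3, ?_, ?_, hk, hal, hbe, hga⟩
    · show (m 0 - a * t) * (s.p0.W : ℝ) + t * ((mid a b s.p0 s.p1).W : ℝ) + m 2 * (s.p2.W : ℝ) = 1
      rw [hW]
      linear_combination hs + (s.p1.W : ℝ) * ht1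
    · show x = (m 0 - a * t) * (s.p0.X : ℝ) + t * ((mid a b s.p0 s.p1).X : ℝ) + m 2 * (s.p2.X : ℝ)
      rw [hX]
      linear_combination hx - (s.p1.X : ℝ) * ht1
    · show y = (m 0 - a * t) * (s.p0.Y : ℝ) + t * ((mid a b s.p0 s.p1).Y : ℝ) + m 2 * (s.p2.Y : ℝ)
      rw [hY]
      linear_combination hy - (s.p1.Y : ℝ) * ht1
  · right
    obtain ⟨t, ht⟩ : ∃ t, t = m 0 / a := ⟨_, rfl⟩
    have ht1 : t * a = m 0 := by rw [ht]; exact div_mul_cancel₀ _ ha'.ne'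
    have ht0 : 0 ≤ t := by rw [ht]; exact div_nonneg h0 ha'.le
    have hA : 0 ≤ m 1 - b * t := by
      have h3 : (b : ℝ) * t * a ≤ m 1 * a := by
        rw [mul_assoc, ht1]
        linarith
      have h4 := le_of_mul_le_mul_right h3 ha'
      linarith
    refine ⟨fun i => if i = 0 then t else if i = 1 then m 1 - b * t else m 2, ?_⟩
    refine ⟨ht0, hA, h2, ?_, g0, g1, g2, g3, ?_, ?_, hk, hal, hbe, hga⟩
    · show t * ((mid a b s.p0 s.p1).W : ℝ) + (m 1 - b * t) * (s.p1.W : ℝ) + m 2 * (s.p2.W : ℝ) = 1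
      rw [hW]
      linear_combination hs + (s.p0.W : ℝ) * ht1
    · show x = t * ((mid a b s.p0 s.p1).X : ℝ) + (m 1 - b * t) * (s.p1.X : ℝ) + m 2 * (s.p2.X : ℝ)
      rw [hX]
      linear_combination hx - (s.p0.X : ℝ) * ht1
    · show y = t * ((mid a b s.p0 s.p1).Y : ℝ) + (m 1 - b * t) * (s.p1.Y : ℝ) + m 2 * (s.p2.Y : ℝ)
      rw [hY]
      linear_combination hy - (s.p0.Y : ℝ) * ht1

/-- rotate the base corners -/
def rot (s : St) : St := ⟨s.p1, s.p2, s.p0, s.u0, s.u1, s.u2, s.u3⟩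

theorem rot_mem {s : St} {x y k al be ga : ℝ} {w : ℕ → ℝ} :
    (∃ m, Mem s x y k al be ga m w) ↔ ∃ m, Mem (rot s) x y k al be ga m w := by
  constructor
  · rintro ⟨m, h0, h1, h2, hs, g0, g1, g2, g3, hx, hy, hk, hal, hbe, hga⟩
    refine ⟨fun i => if i = 0 then m 1 else if i = 1 then m 2 else m 0, ?_⟩
    refine ⟨h1, h2, h0, ?_, g0, g1, g2, g3, ?_, ?_, hk, hal, hbe, hga⟩
    · show m 1 * (s.p1.W : ℝ) + m 2 * (s.p2.W : ℝ) + m 0 * (s.p0.W : ℝ) = 1
      linarith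
    · show x = m 1 * (s.p1.X : ℝ) + m 2 * (s.p2.X : ℝ) + m 0 * (s.p0.X : ℝ)
      linarith
    · show y = m 1 * (s.p1.Y : ℝ) + m 2 * (s.p2.Y : ℝ) + m 0 * (s.p0.Y : ℝ)
      linarith
  · rintro ⟨m, h0, h1, h2, hs, g0, g1, g2, g3, hx, hy, hk, hal, hbe, hga⟩
    refine ⟨fun i => if i = 0 then m 2 else if i = 1 then m 0 else m 1, ?_⟩
    refine ⟨h2, h0, h1, ?_, g0, g1, g2, g3, ?_, ?_, hk, hal, hbe, hga⟩
    · show m 2 * (s.p0.W : ℝ) + m 0 * (s.p1.W : ℝ) + m 1 * (s.p2.W : ℝ) = 1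
      have hs' : m 0 * (s.p1.W : ℝ) + m 1 * (s.p2.W : ℝ) + m 2 * (s.p0.W : ℝ) = 1 := hs
      linarith
    · show x = m 2 * (s.p0.X : ℝ) + m 0 * (s.p1.X : ℝ) + m 1 * (s.p2.X : ℝ)
      have hx' : x = m 0 * (s.p1.X : ℝ) + m 1 * (s.p2.X : ℝ) + m 2 * (s.p0.X : ℝ) := hx
      linarith
    · show y = m 2 * (s.p0.Y : ℝ) + m 0 * (s.p1.Y : ℝ) + m 1 * (s.p2.Y : ℝ)
      have hy' : y = m 0 * (s.p1.Y : ℝ) + m 1 * (s.p2.Y : ℝ) + m 2 * (s.p0.Y : ℝ) := hy
      linarith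

theorem base_split {s : St} {r a b : ℕ} (hr : r ≤ 2) (ha : 1 ≤ a) (hb : 1 ≤ b)
    {x y k al be ga : ℝ} {m w : ℕ → ℝ} (hm : Mem s x y k al be ga m w) :
    (∃ m', Mem (sP s (nx r) (mid a b (gP s r) (gP s (nx r)))) x y k al be ga m' w) ∨
    (∃ m', Mem (sP s r (mid a b (gP s r) (gP s (nx r)))) x y k al be ga m' w) := by
  have hr' : r = 0 ∨ r = 1 ∨ r = 2 := by omega
  rcases hr' with rfl | rfl | rfl
  · exact split0 ha hb hm
  · obtain ⟨m1, hm1⟩ := rot_mem.1 ⟨m, hm⟩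
    rcases split0 (s := rot s) ha hb hm1 with h2 | h2
    · exact Or.inl (rot_mem.2 h2)
    · exact Or.inr (rot_mem.2 h2)
  · obtain ⟨m1, hm1⟩ := rot_mem.1 ⟨m, hm⟩
    obtain ⟨m2, hm2⟩ := rot_mem.1 ⟨m1, hm1⟩
    rcases split0 (s := rot (rot s)) ha hb hm2 with h2 | h2
    · exact Or.inl (rot_mem.2 (rot_mem.2 h2))
    · exact Or.inr (rot_mem.2 (rot_mem.2 h2))

/-! ### cone splits -/

/-- the weights after a cone split, first child -/
noncomputable def W1 (w : ℕ → ℝ) (i j : ℕ) (p q : ℝ) (t : ℕ) : ℝ :=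
  if t = j then w j / q else if t = i then w i - p * (w j / q) else w t

theorem cone1 {s : St} {i j p q : ℕ} (hi : i ≤ 3) (hj : j ≤ 3) (hij : i ≠ j) (hq : 1 ≤ q)
    {x y k al be ga : ℝ} {m w : ℕ → ℝ} (hm : Mem s x y k al be ga m w)
    (hc : (p : ℝ) * w j ≤ q * w i) :
    Mem (sU s j (cmb p q (gU s i) (gU s j))) x y k al be ga m (W1 w i j p q) := by
  have hq' : (0 : ℝ) < (q : ℝ) := Nat.cast_pos.2 hq
  have hqi : (q : ℝ) ≠ 0 := hq'.ne'
  have hA : 0 ≤ w i - p * (w j / q) := by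
    have : (p : ℝ) * (w j / q) ≤ w i := by
      rw [← mul_div_assoc, div_le_iff₀ hq']
      linarith
    linarith
  obtain ⟨h0, h1, h2, hs, g0, g1, g2, g3, hx, hy, hk, hal, hbe, hga⟩ := hm
  have hw : ∀ t ≤ 3, 0 ≤ w t := by
    intro t ht
    have : t = 0 ∨ t = 1 ∨ t = 2 ∨ t = 3 := by omega
    rcases this with rfl | rfl | rfl | rfl
    · exact g0
    · exact g1
    · exact g2
    · exact g3
  have hB : 0 ≤ w j / q := div_nonneg (hw j hj) hq'.le
  have hW : ∀ t ≤ 3, 0 ≤ W1 w i j p q t := by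
    intro t ht
    unfold W1
    split_ifs
    · exact hB
    · exact hA
    · exact hw t ht
  have hbW : m 0 * ((sU s j (cmb p q (gU s i) (gU s j))).p0.W : ℝ) +
      m 1 * ((sU s j (cmb p q (gU s i) (gU s j))).p1.W : ℝ) +
      m 2 * ((sU s j (cmb p q (gU s i) (gU s j))).p2.W : ℝ) = 1 := by
    have : j = 0 ∨ j = 1 ∨ j = 2 ∨ j = 3 := by omega
    rcases this with rfl | rfl | rfl | rfl <;> exact hs
  have hbx : x = m 0 * ((sU s j (cmb p q (gU s i) (gU s j))).p0.X : ℝ) +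
      m 1 * ((sU s j (cmb p q (gU s i) (gU s j))).p1.X : ℝ) +
      m 2 * ((sU s j (cmb p q (gU s i) (gU s j))).p2.X : ℝ) := by
    have : j = 0 ∨ j = 1 ∨ j = 2 ∨ j = 3 := by omega
    rcases this with rfl | rfl | rfl | rfl <;> exact hx
  have hby : y = m 0 * ((sU s j (cmb p q (gU s i) (gU s j))).p0.Y : ℝ) +
      m 1 * ((sU s j (cmb p q (gU s i) (gU s j))).p1.Y : ℝ) +
      m 2 * ((sU s j (cmb p q (gU s i) (gU s j))).p2.Y : ℝ) := by
    have : j = 0 ∨ j = 1 ∨ j = 2 ∨ j = 3 := by omega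
    rcases this with rfl | rfl | rfl | rfl <;> exact hy
  have hgen : ∀ (F : Gn → ℝ) (z : ℝ), (∀ a b : Gn, F (cmb p q a b) = p * F a + q * F b) →
      z = w 0 * F s.u0 + w 1 * F s.u1 + w 2 * F s.u2 + w 3 * F s.u3 →
      z = W1 w i j p q 0 * F (sU s j (cmb p q (gU s i) (gU s j))).u0 +
        W1 w i j p q 1 * F (sU s j (cmb p q (gU s i) (gU s j))).u1 +
        W1 w i j p q 2 * F (sU s j (cmb p q (gU s i) (gU s j))).u2 +
        W1 w i j p q 3 * F (sU s j (cmb p q (gU s i) (gU s j))).u3 := by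
    intro F z hF hz
    have e : ∀ u, w u / q * q = w u := fun u => div_mul_cancel₀ _ hqi
    have hi' : i = 0 ∨ i = 1 ∨ i = 2 ∨ i = 3 := by omega
    have hj' : j = 0 ∨ j = 1 ∨ j = 2 ∨ j = 3 := by omega
    rcases hi' with rfl | rfl | rfl | rfl <;> rcases hj' with rfl | rfl | rfl | rfl
    · exact absurd rfl hij
    · show z = (w 0 - p * (w 1 / q)) * F s.u0 + w 1 / q * F (cmb p q s.u0 s.u1) +
        w 2 * F s.u2 + w 3 * F s.u3
      rw [hF]
      linear_combination hz - F s.u1 * e 1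
    · show z = (w 0 - p * (w 2 / q)) * F s.u0 + w 1 * F s.u1 + w 2 / q * F (cmb p q s.u0 s.u2) +
        w 3 * F s.u3
      rw [hF]
      linear_combination hz - F s.u2 * e 2
    · show z = (w 0 - p * (w 3 / q)) * F s.u0 + w 1 * F s.u1 + w 2 * F s.u2 +
        w 3 / q * F (cmb p q s.u0 s.u3)
      rw [hF]
      linear_combination hz - F s.u3 * e 3
    · show z = w 0 / q * F (cmb p q s.u1 s.u0) + (w 1 - p * (w 0 / q)) * F s.u1 +
        w 2 * F s.u2 + w 3 * F s.u3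
      rw [hF]
      linear_combination hz - F s.u0 * e 0
    · exact absurd rfl hij
    · show z = w 0 * F s.u0 + (w 1 - p * (w 2 / q)) * F s.u1 + w 2 / q * F (cmb p q s.u1 s.u2) +
        w 3 * F s.u3
      rw [hF]
      linear_combination hz - F s.u2 * e 2
    · show z = w 0 * F s.u0 + (w 1 - p * (w 3 / q)) * F s.u1 + w 2 * F s.u2 +
        w 3 / q * F (cmb p q s.u1 s.u3)
      rw [hF]
      linear_combination hz - F s.u3 * e 3
    · show z = w 0 / q * F (cmb p q s.u2 s.u0) + w 1 * F s.u1 + (w 2 - p * (w 0 / q)) * F s.u2 +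
        w 3 * F s.u3
      rw [hF]
      linear_combination hz - F s.u0 * e 0
    · show z = w 0 * F s.u0 + w 1 / q * F (cmb p q s.u2 s.u1) + (w 2 - p * (w 1 / q)) * F s.u2 +
        w 3 * F s.u3
      rw [hF]
      linear_combination hz - F s.u1 * e 1
    · exact absurd rfl hij
    · show z = w 0 * F s.u0 + w 1 * F s.u1 + (w 2 - p * (w 3 / q)) * F s.u2 +
        w 3 / q * F (cmb p q s.u2 s.u3)
      rw [hF]
      linear_combination hz - F s.u3 * e 3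
    · show z = w 0 / q * F (cmb p q s.u3 s.u0) + w 1 * F s.u1 + w 2 * F s.u2 +
        (w 3 - p * (w 0 / q)) * F s.u3
      rw [hF]
      linear_combination hz - F s.u0 * e 0
    · show z = w 0 * F s.u0 + w 1 / q * F (cmb p q s.u3 s.u1) + w 2 * F s.u2 +
        (w 3 - p * (w 1 / q)) * F s.u3
      rw [hF]
      linear_combination hz - F s.u1 * e 1
    · show z = w 0 * F s.u0 + w 1 * F s.u1 + w 2 / q * F (cmb p q s.u3 s.u2) +
        (w 3 - p * (w 2 / q)) * F s.u3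
      rw [hF]
      linear_combination hz - F s.u2 * e 2
    · exact absurd rfl hij
  refine ⟨h0, h1, h2, hbW, hW 0 (by norm_num), hW 1 (by norm_num), hW 2 (by norm_num),
    hW 3 le_rfl, hbx, hby, ?_, ?_, ?_, ?_⟩
  · exact hgen (fun u => (u.k : ℝ)) k (cmb_k p q) hk
  · exact hgen (fun u => (u.al : ℝ)) al (cmb_al p q) hal
  · exact hgen (fun u => (u.be : ℝ)) be (cmb_be p q) hbe
  · exact hgen (fun u => (u.ga : ℝ)) ga (cmb_ga p q) hga

theorem cmb_swap (p q : ℕ) (u v : Gn) : cmb p q u v = cmb q p v u := by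
  have e1 : p * u.k + q * v.k = q * v.k + p * u.k := Nat.add_comm _ _
  have e2 : p * u.al + q * v.al = q * v.al + p * u.al := Nat.add_comm _ _
  have e3 : p * u.be + q * v.be = q * v.be + p * u.be := Nat.add_comm _ _
  have e4 : (p : ℤ) * u.ga + (q : ℤ) * v.ga = (q : ℤ) * v.ga + (p : ℤ) * u.ga := Int.add_comm _ _
  show (⟨p * u.k + q * v.k, p * u.al + q * v.al, p * u.be + q * v.be,
    (p : ℤ) * u.ga + (q : ℤ) * v.ga⟩ : Gn) = ⟨q * v.k + p * u.k, q * v.al + p * u.al,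
    q * v.be + p * u.be, (q : ℤ) * v.ga + (p : ℤ) * u.ga⟩
  rw [e1, e2, e3, e4]

theorem cone_split {s : St} {i j p q : ℕ} (hi : i ≤ 3) (hj : j ≤ 3) (hij : i ≠ j)
    (hp : 1 ≤ p) (hq : 1 ≤ q) {x y k al be ga : ℝ} {m w : ℕ → ℝ}
    (hm : Mem s x y k al be ga m w) :
    (∃ w', Mem (sU s j (cmb p q (gU s i) (gU s j))) x y k al be ga m w') ∨
    (∃ w', Mem (sU s i (cmb p q (gU s i) (gU s j))) x y k al be ga m w') := by
  rcases le_total ((p : ℝ) * w j) (q * w i) with h | h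
  · exact Or.inl ⟨_, cone1 hi hj hij hq hm h⟩
  · right
    rw [cmb_swap]
    exact ⟨_, cone1 hj hi hij.symm hp hm h⟩

/-- **soundness of the cover checker** -/
theorem sound {ch : ℕ} {T : List (List Cd)} (t : Tr) : ∀ {s : St},
    chk ch T t s = true → ∀ {x y k al be ga : ℝ} {m w : ℕ → ℝ}, Mem s x y k al be ga m w →
      Dom ch x y k al be ga → Cvd ch T x y k al be ga := by
  induction t with
  | B r p q a b iha ihb =>
    intro s h x y k al be ga m w hm hd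
    have h' : Bool.and (Bool.and (Nat.ble r 2) (Bool.and (Nat.ble 1 p) (Nat.ble 1 q)))
      (Bool.and (chk ch T a (sP s (nx r) (mid p q (gP s r) (gP s (nx r)))))
        (chk ch T b (sP s r (mid p q (gP s r) (gP s (nx r)))))) = true := h
    simp only [bAnd] at h'
    obtain ⟨⟨hr, hp, hq⟩, ha, hb⟩ := h'
    rcases base_split (Nat.le_of_ble_eq_true hr) (Nat.le_of_ble_eq_true hp)
      (Nat.le_of_ble_eq_true hq) hm with ⟨m', h1⟩ | ⟨m', h1⟩
    · exact iha ha h1 hd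
    · exact ihb hb h1 hd
  | C i j p q a b iha ihb =>
    intro s h x y k al be ga m w hm hd
    have h' : Bool.and (Bool.and (Bool.and (Nat.ble i 3) (Nat.ble j 3))
        (Bool.and (not (Nat.beq i j)) (Bool.and (Nat.ble 1 p) (Nat.ble 1 q))))
      (Bool.and (chk ch T a (sU s j (cmb p q (gU s i) (gU s j))))
        (chk ch T b (sU s i (cmb p q (gU s i) (gU s j))))) = true := h
    simp only [bAnd] at h'
    obtain ⟨⟨⟨hi, hj⟩, hij, hp, hq⟩, ha, hb⟩ := h'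
    rcases cone_split (Nat.le_of_ble_eq_true hi) (Nat.le_of_ble_eq_true hj) (not_beq hij)
      (Nat.le_of_ble_eq_true hp) (Nat.le_of_ble_eq_true hq) hm with ⟨w', h1⟩ | ⟨w', h1⟩
    · exact iha ha h1 hd
    · exact ihb hb h1 hd
  | L R s0 s1 s2 s3 =>
    intro s h x y k al be ga m w hm _
    exact leaf_sound h hm
  | O t =>
    intro s h x y k al be ga m w hm hd
    exact (out_sound h hm hd).elim
  | P a b =>
    intro s h x y k al be ga m w hm hd
    exact (ps_sound h hm hd.dp).elim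

end Pool.Agent.TET.Cvr
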