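import Pool.Agent.Helper37_TET.CovSound5

/-!
# MP_c7c9bf_co: putting cover trees together
-/

set_option autoImplicit false

namespace Pool.Agent.TET.Cvr

/-- the cell `s` is covered -/
def CvS (ch : ℕ) (T : List (List Cd)) (s : St) : Prop :=
  ∀ (x y k al be ga : ℝ) (m w : ℕ → ℝ), Mem s x y k al be ga m w → Dom ch x y k al be ga →
    Cvd ch T x y k al be ga

theorem CvS.of {ch : ℕ} {T : List (List Cd)} {s : St} (t : Tr) (h : chk ch T t s = true) :
    CvS ch T s := fun _ _ _ _ _ _ _ _ hm hd => sound t h hm hd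

theorem CvS.b {ch : ℕ} {T : List (List Cd)} {s : St} (r p q : ℕ) (hr : Nat.ble r 2 = true)
    (hp : Nat.ble 1 p = true) (hq : Nat.ble 1 q = true)
    (h1 : CvS ch T (sP s (nx r) (mid p q (gP s r) (gP s (nx r)))))
    (h2 : CvS ch T (sP s r (mid p q (gP s r) (gP s (nx r))))) : CvS ch T s := by
  intro x y k al be ga m w hm hd
  rcases base_split (Nat.le_of_ble_eq_true hr) (Nat.le_of_ble_eq_true hp)
    (Nat.le_of_ble_eq_true hq) hm with ⟨m', h⟩ | ⟨m', h⟩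
  · exact h1 _ _ _ _ _ _ _ _ h hd
  · exact h2 _ _ _ _ _ _ _ _ h hd

theorem CvS.c {ch : ℕ} {T : List (List Cd)} {s : St} (i j p q : ℕ) (hi : Nat.ble i 3 = true)
    (hj : Nat.ble j 3 = true) (hij : (not (Nat.beq i j)) = true) (hp : Nat.ble 1 p = true)
    (hq : Nat.ble 1 q = true) (h1 : CvS ch T (sU s j (cmb p q (gU s i) (gU s j))))
    (h2 : CvS ch T (sU s i (cmb p q (gU s i) (gU s j)))) : CvS ch T s := by
  intro x y k al be ga m w hm hd
  rcases cone_split (Nat.le_of_ble_eq_true hi) (Nat.le_of_ble_eq_true hj) (not_beq hij)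
    (Nat.le_of_ble_eq_true hp) (Nat.le_of_ble_eq_true hq) hm with ⟨w', h⟩ | ⟨w', h⟩
  · exact h1 _ _ _ _ _ _ _ _ h hd
  · exact h2 _ _ _ _ _ _ _ _ h hd

/-- a larger table -/
theorem CvS.mono {ch : ℕ} {T T' : List (List Cd)} {s : St} (hT : ∀ R ∈ T, R ∈ T')
    (h : CvS ch T s) : CvS ch T' s := by
  intro x y k al be ga m w hm hd
  obtain ⟨R, hR, σ, hσ, hc⟩ := h _ _ _ _ _ _ _ _ hm hd
  exact ⟨R, hT R hR, σ, hσ, hc⟩

end Pool.Agent.TET.Cvr
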