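import Pool.Agent.Helper37_TET.ENBt

/-!
# MP_c7c9bf_co: cover of the charts, root 0 part 0
-/

set_option autoImplicit false
set_option maxRecDepth 100000

namespace Pool.Agent.TET.Cvr

theorem EN0_c0 : CoN ENTab ⟨⟨2, 3, 8⟩, ⟨1, 3, 8⟩, ⟨3, 7, 16⟩, ⟨1, 0, 0, 0,
  0⟩, ⟨8, 2, 0, 1, 0⟩, ⟨8, 2, 0, 0, 1⟩, ⟨4, 1, 1, 1, 0⟩⟩ :=
CoN.ofG ENTab_B ENBt_E ENBt_U (.C 0 3 16 1 (.C 0 1 20 1 (.C 0 2 20 1 (.C 2 3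
  3 4 (.B 0 1 1 (.C 1 2 1 1 (.C 1 2 5 3 (.L 66) (.C 1 2 1 6 (.L 66) (.L
  188))) (.C 1 2 3 5 (.L 719) (.C 2 3 6 1 (.C 1 2 1 10 (.B 2 1 2 (.L 222)
  (.L 962)) (.B 2 1 2 (.B 1 1 1 (.C 2 3 11 1 (.P (.ofNat 1) (.ofNat 2)) (.L
  67)) (.L 245)) (.C 2 3 11 1 (.P (.ofNat 1) (.ofNat 2)) (.L 67)))) (.L
  719)))) (.C 0 1 40 1 (.C 0 2 40 1 (.C 1 2 1 1 (.C 1 2 2 1 (.L 66) (.C 1 2
  1 2 (.L 66) (.B 1 2 1 (.L 1712) (.B 2 1 1 (.L 188) (.L 1712))))) (.C 1 2 1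
  2 (.L 719) (.C 2 3 3 1 (.C 1 2 1 4 (.L 222) (.L 225)) (.L 719)))) (.L
  866)) (.L 275))) (.C 1 3 3 4 (.L 62) (.C 2 3 1 7 (.L 62) (.C 1 3 1 8 (.L
  62) (.C 2 3 1 14 (.L 62) (.C 1 3 1 16 (.L 713) (.C 2 3 1 28 (.L 713) (.B 0
  1 1 (.L 1464) (.B 1 2 1 (.L 1914) (.L 1464)))))))))) (.B 0 1 1 (.B 2 1 2
  (.L 32) (.B 0 2 1 (.C 2 3 3 2 (.C 0 2 1 2 (.C 0 3 5 2 (.B 2 1 4 (.L 71)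
  (.C 1 2 2 1 (.C 0 2 7 2 (.C 0 3 10 1 (.C 0 2 14 1 (.C 0 1 1 1 (.C 0 1 5 3
  (.P (.ofNat 1) (.ofNat 3)) (.L 169)) (.G 207 163 0 29 16 451 326 [.n, .g 7
  33 0 0, .n, .n])) (.L 275)) (.L 275)) (.L 71)) (.C 0 1 7 2 (.C 0 2 2 1 (.C
  0 3 10 1 (.P (.ofNat 1) (.ofNat 2)) (.G 583 1963 1 8560 5950 1670 4384 [.g
  256 1 0 0, .n, .n, .n, .n, .n, .g 32 21 0 0, .g 64 43 0 0])) (.C 0 3 5 2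
  (.P (.ofNat 1) (.ofNat 2)) (.L 316))) (.L 316)))) (.L 321)) (.L 71)) (.C 0
  3 3 4 (.C 0 1 1 1 (.C 0 3 6 1 (.C 0 1 5 3 (.C 0 2 5 2 (.C 0 1 10 1 (.B 2 1
  4 (.L 71) (.C 0 3 11 1 (.C 0 2 10 1 (.P (.ofNat 1) (.ofNat 2)) (.L 67))
  (.L 67))) (.L 962)) (.L 962)) (.L 515)) (.L 515)) (.G 634 719 0 29 16 43
  90 [.n, .g 1 17 0 0, .n])) (.C 2 3 2 7 (.G 321 81 1 268 48 128 505 [.n, .g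
  25 63 0 0, .n]) (.C 2 3 1 13 (.L 62) (.C 0 3 1 7 (.L 62) (.C 1 3 3 4 (.L
  221) (.G 191 509 1 15607 8639 29263 1115 [.g 7 8 0 0, .n, .n, .n, .n,
  .n]))))))) (.L 71))) (.L 32))) (.C 1 3 3 2 (.L 71) (.C 2 3 3 2 (.L 71) (.C
  2 3 2 7 (.L 321) (.B 0 1 1 (.C 1 3 1 4 (.L 60) (.B 2 1 2 (.L 32) (.C 2 3 1
  13 (.L 60) (.B 0 2 1 (.C 1 3 1 8 (.L 60) (.G 256 509 1 19125 242893 401634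
  15300 [.n, .g 35 64 0 0, .g 8 67 0 0, .n, .n])) (.L 32))))) (.L 32))))))
  (.C 0 3 1 2 (.C 0 1 2 3 (.C 0 2 2 3 (.B 0 1 1 (.C 0 2 7 2 (.C 0 1 4 1 (.C
  0 3 2 1 (.C 0 1 8 1 (.G 509 634 0 8 127 106 32 [.g 64 1 0 0, .g 32 9 0 0,
  .n, .n, .n, .n, .n, .n]) (.L 60)) (.L 32)) (.L 32)) (.L 32)) (.L 32)) (.L
  32)) (.L 32)) (.G 3037 71 3 1 1 1 1 [.n, .n, .n, .g 24 65 0 0, .n])))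
  (by decide +kernel)

theorem EN0_c1 : CoN ENTab ⟨⟨2, 3, 8⟩, ⟨3, 7, 16⟩, ⟨1, 2, 4⟩, ⟨1, 0, 0, 0,
  0⟩, ⟨8, 2, 0, 1, 0⟩, ⟨8, 2, 0, 0, 1⟩, ⟨4, 1, 1, 1, 0⟩⟩ :=
CoN.ofG ENTab_B ENBt_E ENBt_U (.C 0 3 16 1 (.C 0 1 20 1 (.C 0 2 20 1 (.C 2 3
  3 4 (.C 1 2 1 1 (.C 1 2 5 3 (.L 66) (.C 2 3 3 1 (.C 1 2 1 6 (.B 2 2 1 (.L
  196) (.L 272)) (.B 2 2 1 (.B 1 1 4 (.L 188) (.B 2 4 1 (.B 1 1 8 (.L 24)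
  (.B 2 8 1 (.B 1 1 16 (.L 24) (.B 2 16 1 (.C 1 2 1 12 (.C 1 2 2 1 (.L 804)
  (.C 2 3 1 4 (.C 2 3 2 1 (.C 1 3 2 1 (.C 1 2 1 2 (.L 1633) (.L 3018)) (.L
  623)) (.L 350)) (.L 350))) (.L 105)) (.L 24))) (.L 24))) (.L 188))) (.L
  188))) (.L 66))) (.C 1 2 3 5 (.B 2 2 1 (.C 1 2 6 1 (.C 2 3 1 4 (.C 1 3 24
  1 (.B 2 4 1 (.C 2 3 4 1 (.C 1 2 12 1 (.B 1 1 4 (.L 1676) (.C 1 3 95 1 (.B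
  2 8 1 (.B 1 1 8 (.C 1 2 24 1 (.L 76) (.L 182)) (.B 2 16 1 (.B 1 1 16 (.L
  268) (.C 1 2 24 1 (.L 291) (.C 1 2 1 2 (.L 1952) (.L 504)))) (.L 268)))
  (.C 1 2 24 1 (.L 76) (.L 182))) (.C 2 3 4 1 (.C 1 3 1 1 (.L 833) (.B 2 8 1
  (.B 1 1 8 (.L 340) (.L 1483)) (.L 340))) (.B 2 8 1 (.B 1 1 8 (.C 2 3 1 2
  (.C 1 2 1 1 (.L 40) (.C 1 2 1 2 (.L 40) (.C 1 3 1 2 (.L 227) (.B 1 2 1 (.B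
  0 1 2 (.B 0 2 1 (.B 2 1 2 (.L 451) (.C 2 3 2 1 (.L 896) (.C 0 1 109400 1
  (.L 1791) (.L 40)))) (.L 1637)) (.L 749)) (.C 2 3 2 1 (.L 1637) (.C 1 2 1
  2 (.L 1458) (.L 35))))))) (.L 40)) (.C 1 3 1 2 (.L 153) (.B 2 16 1 (.C 2 3
  1 2 (.C 1 3 1 1 (.L 154) (.C 2 3 2 1 (.L 602) (.L 1696))) (.C 1 3 1 4 (.C
  1 2 1 1 (.C 1 3 2 1 (.L 154) (.B 1 1 16 (.L 492) (.L 739))) (.L 1696)) (.L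
  214))) (.C 1 3 1 4 (.L 492) (.C 2 3 1 2 (.L 917) (.L 8)))))) (.C 2 3 1 2
  (.C 1 2 1 1 (.L 40) (.B 2 1 2 (.B 1 2 1 (.L 76) (.C 1 2 1 2 (.L 40) (.B 2
  2 1 (.B 1 1 2 (.L 76) (.C 2 3 2 1 (.L 896) (.C 0 3 27344 1 (.L 3549) (.L
  40)))) (.L 76)))) (.L 76))) (.L 40)))))) (.C 1 2 1 2 (.B 1 1 4 (.C 1 2 2 1
  (.C 2 3 1 1 (.C 1 2 4 1 (.L 1451) (.C 2 3 2 1 (.C 1 3 2 1 (.L 3258) (.L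
  1036)) (.L 1451))) (.L 1957)) (.L 813)) (.C 1 3 4 1 (.C 1 2 2 1 (.B 2 8 1
  (.B 1 1 8 (.L 340) (.L 1483)) (.L 340)) (.B 2 8 1 (.B 1 1 8 (.C 1 2 1 2
  (.L 848) (.C 2 3 4 1 (.L 164) (.C 2 3 1 2 (.L 164) (.L 848)))) (.C 1 2 1 2
  (.L 154) (.B 2 16 1 (.C 2 3 4 1 (.L 274) (.B 1 1 16 (.L 492) (.L 602)))
  (.L 917)))) (.B 2 1 2 (.B 1 2 1 (.L 1394) (.C 1 2 1 2 (.L 810) (.B 2 2 1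
  (.C 2 3 4 1 (.L 35) (.C 2 3 1 2 (.L 35) (.L 810))) (.L 451)))) (.L
  1394)))) (.C 1 3 1 2 (.B 2 8 1 (.B 1 1 8 (.C 1 2 1 4 (.C 1 2 2 1 (.C 1 3 2
  1 (.L 227) (.L 164)) (.L 164)) (.L 8)) (.C 1 2 1 4 (.B 2 16 1 (.B 1 1 16
  (.L 2034) (.L 948)) (.L 917)) (.L 214))) (.B 2 1 2 (.B 1 2 1 (.L 377) (.C
  1 2 1 4 (.C 1 2 2 1 (.C 1 3 2 1 (.L 810) (.L 35)) (.L 35)) (.L 8))) (.L
  377))) (.L 8)))) (.B 1 1 4 (.L 813) (.L 8)))) (.B 1 1 4 (.L 24) (.B 2 8 1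
  (.B 1 1 8 (.L 76) (.B 2 16 1 (.C 1 2 95 1 (.C 1 3 48 1 (.C 1 2 190 1 (.L
  570) (.C 1 2 1 2 (.C 2 3 1 8 (.B 1 1 16 (.L 768) (.L 3364)) (.L 570)) (.L
  1546))) (.B 1 1 16 (.L 217) (.C 1 2 2 1 (.C 1 3 1 2 (.L 1952) (.L 504))
  (.L 504)))) (.C 1 2 1 2 (.L 217) (.C 2 3 1 2 (.C 1 2 1 4 (.C 1 3 1 2 (.C 1
  2 2 1 (.L 154) (.B 1 1 16 (.L 492) (.L 739))) (.L 1696)) (.L 214)) (.C 1 2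
  1 2 (.L 154) (.C 1 3 1 16 (.L 570) (.C 0 3 3440 1 (.C 0 3 6880 1 (.C 2 3 1
  1 (.L 2525) (.L 153)) (.G 998 30 2 1052688 8388607 1052688 526344 [.g 16 1
  0 0, .n, .n, .n, .n, .n])) (.L 30))))))) (.C 2 3 1 2 (.C 1 2 95 1 (.L 76)
  (.C 2 3 2 1 (.C 2 3 4 1 (.C 1 2 1 2 (.L 2003) (.B 2 1 2 (.B 1 2 1 (.L 331)
  (.B 2 2 1 (.L 3194) (.L 609))) (.L 40))) (.L 40)) (.L 76))) (.L 24)))) (.L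
  76)))) (.B 2 1 2 (.C 1 2 12 1 (.L 188) (.C 1 3 2 1 (.B 1 2 1 (.L 870) (.B
  2 2 1 (.C 1 2 1 2 (.C 1 2 2 1 (.C 1 2 4 1 (.L 1074) (.L 1036)) (.L 491))
  (.L 491)) (.L 813))) (.L 813))) (.L 870))) (.C 1 3 1 2 (.C 1 3 2 1 (.C 1 2
  1 4 (.B 2 4 1 (.B 1 1 4 (.L 24) (.C 1 2 2 1 (.B 1 1 8 (.L 24) (.B 2 8 1
  (.C 1 2 4 1 (.B 1 1 16 (.L 24) (.B 2 16 1 (.C 1 3 4 1 (.L 167) (.L 270))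
  (.L 24))) (.L 450)) (.L 24))) (.L 8))) (.L 24)) (.L 8)) (.L 8)) (.L 8)))
  (.B 1 1 4 (.L 1862) (.B 2 4 1 (.C 1 2 24 1 (.B 1 1 8 (.L 393) (.B 2 8 1
  (.C 1 3 3 1 (.B 1 1 16 (.L 24) (.C 1 3 6 1 (.C 0 1 72 1 (.B 2 16 1 (.C 1 2
  24 1 (.L 291) (.L 504)) (.L 24)) (.L 30)) (.C 2 3 1 8 (.C 1 2 4 1 (.C 0 3
  6952 1 (.C 0 3 13904 1 (.C 1 2 8 1 (.L 1402) (.L 153)) (.L 747)) (.L 24))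
  (.L 3002)) (.L 350)))) (.C 2 3 1 15 (.C 2 3 2 1 (.C 1 2 8 1 (.L 350) (.C 2
  3 4 1 (.C 1 2 1 2 (.L 350) (.B 1 1 16 (.L 917) (.B 2 16 1 (.C 2 3 8 1 (.L
  154) (.L 270)) (.L 917)))) (.L 350))) (.L 8)) (.L 1860))) (.L 393))) (.C 1
  3 1 15 (.C 1 3 2 1 (.C 1 2 1 2 (.B 1 1 8 (.L 24) (.B 2 8 1 (.C 1 3 4 1 (.B
  1 1 16 (.L 24) (.B 2 16 1 (.C 1 3 8 1 (.C 0 2 6864 1 (.B 1 1 32 (.L 493)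
  (.C 0 2 13728 1 (.C 0 3 54840 1 (.C 1 2 8 1 (.L 403) (.L 400)) (.L 747))
  (.L 747))) (.L 493)) (.L 400)) (.L 24))) (.L 8)) (.L 24))) (.L 8)) (.L 8))
  (.L 222))) (.L 1862)))) (.L 222)) (.L 719)) (.B 2 2 1 (.C 2 3 6 1 (.L 245)
  (.C 2 3 1 2 (.L 245) (.L 222))) (.C 2 3 6 1 (.C 1 2 1 10 (.B 0 2 1 (.L
  962) (.L 222)) (.B 0 2 1 (.B 2 1 2 (.L 225) (.C 2 3 11 1 (.P (.ofNat 1)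
  (.ofNat 2)) (.L 67))) (.L 245))) (.L 719))))) (.C 1 3 3 4 (.B 2 2 1 (.B 1
  1 4 (.L 62) (.B 2 4 1 (.B 1 1 8 (.L 62) (.C 2 3 7 6 (.C 2 3 14 1 (.L 219)
  (.L 62)) (.C 2 3 1 12 (.L 62) (.L 875)))) (.L 62))) (.L 62)) (.C 2 3 1 7
  (.B 2 2 1 (.B 1 1 4 (.L 62) (.L 100)) (.L 62)) (.C 1 3 1 8 (.B 2 2 1 (.B 1
  1 4 (.C 1 2 5 3 (.L 100) (.B 1 2 1 (.B 0 1 1 (.L 2036) (.L 191)) (.L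
  2036))) (.L 631)) (.C 2 3 6 5 (.L 62) (.L 191))) (.C 2 3 1 14 (.B 2 2 1
  (.B 1 1 4 (.C 1 2 5 6 (.L 191) (.C 2 3 2 1 (.L 62) (.L 191))) (.L 118))
  (.C 1 2 5 6 (.L 191) (.C 2 3 2 1 (.L 62) (.L 191)))) (.B 2 2 1 (.B 1 1 4
  (.B 0 1 1 (.L 118) (.B 1 2 1 (.L 509) (.L 118))) (.L 118)) (.C 2 3 1 28
  (.L 449) (.B 2 1 2 (.B 1 1 1 (.L 509) (.L 118)) (.L 509))))))))) (.C 2 3 3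
  2 (.B 2 2 1 (.L 207) (.C 0 2 1 2 (.B 0 2 1 (.C 0 3 5 2 (.C 1 2 2 1 (.C 0 2
  7 2 (.C 0 3 10 1 (.C 0 2 14 1 (.C 0 1 1 1 (.B 2 1 2 (.B 0 1 1 (.C 0 1 5 3
  (.P (.ofNat 1) (.ofNat 3)) (.L 207)) (.L 207)) (.C 0 1 5 3 (.P (.ofNat 1)
  (.ofNat 3)) (.G 169 719 1 3914 681 10677 7699 [.g 32 1 0 0, .n, .n, .n,
  .n, .n]))) (.G 404 207 1 29 16 451 326 [.g 128 1 0 0, .n, .g 64 37 0 0, .g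
  16 11 0 0, .n, .n])) (.L 275)) (.L 275)) (.L 71)) (.C 0 1 7 2 (.C 0 2 2 1
  (.B 2 1 2 (.G 189 321 1 23 328 92 240 [.g 1024 3 0 0, .n, .g 64 11 0 0,
  .n, .n, .n]) (.B 0 4 1 (.B 2 1 4 (.C 0 3 10 1 (.P (.ofNat 1) (.ofNat 2))
  (.L 316)) (.C 1 2 2 7 (.C 0 1 14 1 (.C 0 3 10 1 (.P (.ofNat 1) (.ofNat 2))
  (.L 866)) (.L 866)) (.C 0 3 10 1 (.P (.ofNat 1) (.ofNat 2)) (.G 583 71 1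
  3699 10195 722 1895 [.n, .n, .n, .n, .n, .n, .g 64 59 0 0, .g 64 55 0
  0])))) (.C 0 3 10 1 (.P (.ofNat 1) (.ofNat 2)) (.L 316)))) (.B 2 1 2 (.L
  32) (.B 0 4 1 (.G 583 316 1 1456 5186 728 3776 [.g 1024 5 0 0, .n, .n, .n,
  .n, .n, .g 32 31 0 0, .g 63 64 0 0]) (.L 316)))) (.L 316))) (.L 71)) (.L
  207)) (.L 71))) (.C 2 3 2 7 (.B 2 2 1 (.L 207) (.B 0 2 1 (.C 0 2 5 2 (.C 0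
  3 11 1 (.C 0 2 10 1 (.C 0 1 1 1 (.C 0 1 5 3 (.B 2 1 2 (.C 0 1 10 1 (.L
  225) (.L 515)) (.C 0 3 21 1 (.C 0 1 10 1 (.G 67 33 1 19764 402683 402683
  822660 [.g 9 65 0 0, .g 2 35 0 0, .n, .n]) (.L 67)) (.L 67))) (.G 866 515
  1 92 16 181 183 [.n, .g 43 64 0 0, .n, .n, .n])) (.B 0 4 1 (.G 169 207 1
  488 269 5484 5552 [.g 2048 1 0 0, .n, .g 8 1 0 0, .g 64 9 0 0, .n, .n])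
  (.L 32))) (.L 275)) (.L 71)) (.L 71)) (.L 207))) (.C 0 3 3 4 (.B 2 2 1 (.C
  2 3 1 2 (.L 207) (.C 0 3 6 1 (.L 207) (.B 1 1 4 (.L 464) (.B 1 1 8 (.L
  464) (.C 0 1 1 11 (.C 2 3 1 4 (.L 37) (.C 1 3 1 4 (.L 37) (.C 0 1 4 1 (.L
  225) (.G 37 66 2 4332 2166 2183 277 [.n, .n, .g 64 15 0 0, .n])))) (.L
  66)))))) (.B 0 2 1 (.C 0 1 1 1 (.C 0 1 5 3 (.C 0 2 11 1 (.C 0 3 6 1 (.C 0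
  1 10 1 (.C 0 2 21 1 (.B 2 1 2 (.L 225) (.C 0 3 11 1 (.C 0 1 20 1 (.G 169
  113 1 32459 1310539 1351113 726274 [.n, .n, .g 3 70 0 0, .g 1 28 0 0, .n,
  .n]) (.C 0 2 1 1 (.P (.ofNat 1) (.ofNat 2)) (.L 67))) (.L 67))) (.L 962))
  (.L 962)) (.L 515)) (.L 515)) (.L 515)) (.C 0 2 6 1 (.G 188 66 2 92717
  51154 1093416 287741 [.g 256 1 0 0, .n, .n, .n, .g 19 63 0 0, .g 16 63 0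
  0]) (.L 81))) (.G 464 634 0 1 1 1 1 [.n, .n, .n, .n, .g 4 1 0 0]))) (.C 0
  3 1 7 (.L 62) (.C 2 3 1 13 (.G 1336 62 1 118169 10563 112228 221815 [.g 11
  61 0 0, .g 11 16 0 0, .n, .n, .n, .n]) (.C 1 3 3 4 (.G 706 256 1 42632
  3811 80025 23579 [.n, .g 64 63 0 0, .g 2 9 0 0, .n]) (.C 2 3 1 26 (.G 256
  100 2 19188 10586 35729 71458 [.n, .g 16 9 0 0, .n, .n, .n]) (.B 2 2 1 (.G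
  100 692 0 56 31 209 4 [.n, .n, .g 64 35 0 0, .n]) (.C 0 3 1 14 (.G 256 191
  1 24682 13618 91918 49364 [.n, .g 64 43 0 0, .n, .n, .n]) (.C 1 3 1 8 (.L
  191) (.C 0 3 1 28 (.L 1506) (.C 2 3 1 52 (.L 1506) (.G 509 2042 2 4506110
  1267344 8388607 80466 [.n, .n, .g 3 73 0 0, .g 1 27 0 0, .n, .n, .n,
  .n])))))))))))))) (.C 2 3 3 2 (.G 71 3650 3 1 1 1 1 [.n, .n, .n, .g 8 3 0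
  0]) (.C 1 3 3 2 (.G 275 172 3 1 1 1 1 [.n, .g 28 65 0 0, .n, .n]) (.C 2 3
  2 7 (.L 207) (.C 1 3 1 4 (.L 60) (.B 1 1 4 (.B 0 2 1 (.C 2 3 1 13 (.L 60)
  (.C 1 3 1 8 (.L 60) (.C 0 3 3 4 (.L 60) (.B 2 1 4 (.G 100 60 3 62 127 210
  8 [.n, .n, .g 32 13 0 0, .n]) (.G 191 509 1 10049 20584 34037 1297 [.g 1 1
  0 0, .n, .n, .n, .n, .n]))))) (.L 32)) (.C 0 3 3 4 (.B 2 2 1 (.C 2 3 3 5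
  (.L 32) (.C 1 3 1 1 (.L 32) (.G 1385 62 1 4793 59912 301060 29657 [.n, .n,
  .g 37 64 0 0, .g 4 9 0 0]))) (.L 62)) (.B 2 2 1 (.L 100) (.C 2 3 1 13 (.L
  62) (.C 0 3 1 8 (.G 2426 191 1 7617 7617 25708 15710 [.g 32 29 0 0, .n,
  .n, .n, .n, .n, .n, .n]) (.C 2 3 1 26 (.L 191) (.G 509 840 2 437471 218735
  1451292 27776 [.n, .g 64 11 0 0, .g 1 17 0 0, .g 3 56 0 0, .n, .n, .n,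
  .n])))))))))))) (.C 0 2 2 3 (.C 0 1 2 3 (.C 0 2 7 2 (.C 0 3 1 2 (.C 0 1 4
  1 (.C 0 3 2 1 (.B 2 2 1 (.G 100 172 0 8 63 106 32 [.n, .n, .g 32 9 0 0,
  .n]) (.C 0 2 13 1 (.C 0 1 8 1 (.B 0 2 1 (.C 0 2 26 1 (.B 2 1 2 (.G 509 745
  0 149094 2366868 7790162 596376 [.n, .n, .g 2 67 0 0, .g 1 37 0 0, .n, .n,
  .n, .n]) (.L 509)) (.G 449 37 2 18351 5619 9219 1405 [.g 256 1 0 0, .g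
  1024 7 0 0, .g 51 64 0 0, .g 3 4 0 0, .n, .n])) (.B 1 1 1 (.L 32) (.G 860
  1274 3 8 127 210 32 [.n, .n, .g 26 63 0 0, .n]))) (.L 37)) (.L 60))) (.L
  60)) (.L 60)) (.G 60 1003 3 1 1 1 1 [.n, .n, .g 64 7 0 0, .n])) (.L 275))
  (.L 275)) (.G 435 766 0 1 1 1 1 [.n, .n, .n, .g 8 5 0 0])))
  (by decide +kernel)

theorem EN0_c2 : CoN ENTab ⟨⟨1, 1, 4⟩, ⟨1, 3, 8⟩, ⟨2, 3, 8⟩, ⟨1, 0, 0, 0,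
  0⟩, ⟨8, 2, 0, 1, 0⟩, ⟨8, 2, 0, 0, 1⟩, ⟨4, 1, 1, 1, 0⟩⟩ :=
CoN.ofG ENTab_B ENBt_E ENBt_U (.B 0 2 1 (.C 2 3 3 4 (.C 1 2 1 1 (.C 1 2 3 2
  (.L 81) (.C 2 3 3 1 (.L 272) (.L 81))) (.C 2 3 5 1 (.C 1 2 2 3 (.L 548)
  (.C 2 3 10 1 (.P (.ofNat 1) (.ofNat 3)) (.L 1405))) (.L 548))) (.C 2 3 1 6
  (.C 2 3 2 1 (.L 81) (.L 221)) (.C 1 3 3 4 (.L 221) (.C 1 3 1 8 (.L 256)
  (.C 0 1 252 1 (.C 2 3 1 12 (.L 256) (.C 2 3 1 24 (.L 713) (.C 2 3 1 48 (.L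
  713) (.C 2 3 1 96 (.L 713) (.B 2 1 2 (.B 1 1 2 (.L 1914) (.C 1 3 1 32 (.L
  713) (.L 1464))) (.L 1914)))))) (.C 0 3 1 32 (.G 713 592 2 41 21 16 83
  [.n, .g 64 13 0 0, .n, .n, .n, .n, .n, .n]) (.L 32))))))) (.C 2 3 3 4 (.C
  0 1 20 1 (.C 0 2 20 1 (.C 2 3 5 2 (.C 1 2 1 1 (.C 1 2 5 3 (.L 66) (.L
  272)) (.C 1 2 3 5 (.L 169) (.C 2 3 10 1 (.C 1 2 1 10 (.L 67) (.C 2 3 20 1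
  (.P (.ofNat 1) (.ofNat 2)) (.L 67))) (.L 67)))) (.L 66)) (.C 0 3 5 2 (.C 0
  2 1 2 (.C 0 3 10 1 (.B 0 1 2 (.C 1 2 2 1 (.C 0 1 1 1 (.C 0 1 5 3 (.C 0 2 7
  2 (.B 0 2 1 (.L 668) (.L 583)) (.L 548)) (.L 548)) (.G 196 321 1 29 16 58
  314 [.g 64 9 0 0, .g 32 7 0 0, .n, .n, .n, .n, .n, .n])) (.C 1 2 3 5 (.C 0
  1 7 2 (.G 894 583 1 123346 1749973 2567141 2420667 [.n, .n, .n, .n, .n,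
  .n, .g 1 70 0 0, .g 1 80 0 0]) (.L 316)) (.C 2 3 10 1 (.P (.ofNat 1)
  (.ofNat 2)) (.G 668 583 1 103544 2155005 4102923 2032047 [.n, .n, .g 3 70
  0 0, .g 1 26 0 0, .n, .n, .n, .n])))) (.B 1 1 1 (.L 32) (.B 2 4 1 (.B 1 1
  2 (.L 71) (.C 0 3 20 1 (.C 1 2 2 1 (.C 0 2 7 2 (.C 0 1 1 1 (.C 0 1 5 3 (.P
  (.ofNat 1) (.ofNat 3)) (.L 169)) (.G 207 404 0 29 16 227 634 [.n, .g 1 151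
  0 0, .n, .n])) (.L 71)) (.P (.ofNat 1) (.ofNat 5))) (.L 71))) (.L 71))))
  (.L 321)) (.L 901)) (.L 71))) (.L 71)) (.C 0 1 20 1 (.C 0 3 16 1 (.C 2 3 1
  3 (.L 81) (.C 1 3 3 4 (.L 221) (.C 2 3 1 6 (.L 221) (.C 1 3 1 8 (.L 62)
  (.C 1 2 3 4 (.C 2 3 1 96 (.L 713) (.C 2 3 1 192 (.L 713) (.C 2 3 1 384 (.L
  713) (.B 2 2 1 (.B 1 1 1 (.L 1914) (.C 1 3 1 16 (.L 713) (.L 1464))) (.L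
  1914))))) (.C 2 3 1 12 (.L 62) (.C 1 3 1 96 (.L 713) (.C 2 3 1 24 (.L 713)
  (.C 1 3 1 192 (.L 1214) (.C 2 3 1 48 (.L 1214) (.C 1 3 1 384 (.L 1214) (.C
  2 3 1 96 (.L 1214) (.C 1 3 1 768 (.L 1214) (.C 2 3 1 192 (.L 1464) (.B 2 2
  1 (.B 1 1 1 (.L 936) (.L 3008)) (.L 936)))))))))))))))) (.C 0 3 1 2 (.C 0
  2 3 1 (.B 1 1 1 (.L 32) (.C 0 2 6 1 (.C 0 3 2 1 (.B 1 1 2 (.L 32) (.B 2 2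
  1 (.G 256 1464 1 16498 20622 200034 65991 [.n, .g 7 16 0 0, .g 7 65 0 0,
  .n, .n]) (.L 692))) (.L 692)) (.L 321))) (.L 692)) (.L 275))) (.L 275))))
  (by decide +kernel)

theorem EN0_c3 : CoN ENTab ⟨⟨1, 3, 8⟩, ⟨0, 1, 2⟩, ⟨1, 4, 8⟩, ⟨1, 0, 0, 0,
  0⟩, ⟨8, 2, 0, 1, 0⟩, ⟨8, 2, 0, 0, 1⟩, ⟨4, 1, 1, 1, 0⟩⟩ :=
CoN.ofG ENTab_B ENBt_E ENBt_U (.B 0 1 4 (.G 32 60 0 1 1 1 1 [.g 64 25 0 0,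
  .n, .n, .n]) (.L 60)) (by decide +kernel)

theorem EN0_c4 : CoN ENTab ⟨⟨3, 7, 16⟩, ⟨5, 15, 32⟩, ⟨3, 8, 16⟩, ⟨1, 0, 0,
  0, 0⟩, ⟨68, 2, 0, 1, 0⟩, ⟨284, 6, 0, 2, 1⟩, ⟨1148, 17, 5, 5, 6⟩⟩ :=
  CoN.ofG ENTab_B ENBt_E ENBt_U (.L 66) (by decide +kernel)

theorem EN0_c5 : CoN ENTab ⟨⟨3, 7, 16⟩, ⟨5, 15, 32⟩, ⟨3, 8, 16⟩, ⟨1, 0, 0,
  0, 0⟩, ⟨284, 6, 0, 2, 1⟩, ⟨1148, 22, 0, 6, 5⟩, ⟨1148, 17, 5, 5, 6⟩⟩ :=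
CoN.ofG ENTab_B ENBt_E ENBt_U (.B 2 1 1 (.C 2 3 1 1 (.C 1 2 4 1 (.L 24) (.L
  30)) (.L 24)) (.L 24)) (by decide +kernel)

theorem EN0_c6 : CoN ENTab ⟨⟨3, 7, 16⟩, ⟨5, 15, 32⟩, ⟨11, 31, 64⟩, ⟨1, 0, 0,
  0, 0⟩, ⟨1148, 22, 0, 6, 5⟩, ⟨580, 10, 0, 2, 3⟩, ⟨4616, 79, 5, 19, 23⟩⟩ :=
CoN.ofG ENTab_B ENBt_E ENBt_U (.B 0 2 1 (.B 2 1 4 (.C 0 2 624 1 (.C 1 2 1 1
  (.L 24) (.C 2 3 4 1 (.C 1 2 1 2 (.B 1 1 1 (.L 40) (.B 2 2 1 (.B 1 1 2 (.L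
  76) (.B 2 4 1 (.C 0 1 2480 1 (.C 0 3 9960 1 (.C 1 3 4 1 (.L 546) (.C 2 3 4
  1 (.L 182) (.B 1 1 4 (.L 331) (.C 1 2 1 1 (.C 1 3 1 2 (.L 153) (.B 2 8 1
  (.C 2 3 1 4 (.L 545) (.L 214)) (.L 331))) (.C 1 3 1 4 (.L 602) (.C 0 2
  39824 1 (.C 2 3 1 4 (.C 2 3 2 1 (.L 896) (.L 917)) (.L 35)) (.L 96)))))))
  (.L 1814)) (.L 732)) (.L 76))) (.L 76))) (.C 1 2 1 4 (.B 1 1 1 (.C 2 3 1 1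
  (.C 1 2 2 1 (.L 40) (.C 1 3 1 1 (.B 1 2 1 (.L 2682) (.L 500)) (.L 491)))
  (.L 40)) (.C 0 3 9960 1 (.C 1 3 4 1 (.B 2 2 1 (.L 740) (.B 2 1 2 (.L 1631)
  (.C 1 2 2 1 (.L 1074) (.L 500)))) (.C 1 3 1 2 (.B 2 2 1 (.C 1 3 2 1 (.L
  500) (.B 1 1 2 (.L 511) (.B 2 4 1 (.B 1 1 4 (.L 848) (.L 387)) (.L 810))))
  (.L 661)) (.C 2 3 2 1 (.B 2 2 1 (.C 2 3 4 1 (.B 1 1 2 (.L 511) (.B 2 4 1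
  (.B 1 1 4 (.L 848) (.L 387)) (.L 810))) (.B 1 1 2 (.L 3706) (.C 1 2 1 1
  (.L 164) (.C 2 3 1 2 (.B 2 4 1 (.L 896) (.L 810)) (.L 164))))) (.C 2 3 4 1
  (.L 227) (.L 377))) (.L 8)))) (.C 0 1 1 4 (.C 1 3 1 4 (.C 0 1 2 1 (.C 0 2
  1 2 (.L 8) (.B 2 2 1 (.G 172 1470 0 1 1 1 1 [.g 32 17 0 0, .n, .n, .n])
  (.C 2 3 8 1 (.C 0 2 1 4 (.L 377) (.L 227)) (.L 8)))) (.B 2 2 1 (.G 1470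
  172 0 1 1 1 1 [.g 11 21 0 0, .n, .n, .n]) (.C 2 3 8 1 (.L 661) (.L 40))))
  (.G 1264 172 0 33862 135447 16931 16931 [.n, .n, .n, .n, .g 8 3 0 0, .g 16
  7 0 0, .n, .n])) (.B 2 2 1 (.L 172) (.G 1705 230 3 61592 7699 15398 15398
  [.n, .n, .n, .n, .n, .n, .g 64 37 0 0, .g 32 21 0 0]))))) (.C 1 3 1 1 (.C
  1 2 1 8 (.B 1 1 1 (.L 491) (.B 2 2 1 (.C 1 3 2 1 (.C 0 1 9968 1 (.C 1 2 1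
  1 (.B 1 1 2 (.C 1 3 2 1 (.C 1 2 2 1 (.L 511) (.L 771)) (.L 384)) (.C 1 2 2
  1 (.B 2 4 1 (.L 896) (.L 810)) (.B 2 4 1 (.C 2 3 1 1 (.L 789) (.L 1052))
  (.C 1 3 1 2 (.B 2 1 2 (.C 1 3 2 1 (.P (.ofNat 1) (.ofNat 13)) (.L 35)) (.L
  354)) (.L 384))))) (.L 164)) (.C 0 3 2 1 (.C 0 2 1 1 (.C 1 2 4 1 (.B 1 1 2
  (.L 511) (.L 190)) (.B 1 1 2 (.G 1542 741 1 598641 2394563 1197281 2394563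
  [.n, .n, .n, .n, .g 64 63 0 0, .g 1 1 0 0]) (.C 0 2 2 1 (.L 190) (.C 1 2 1
  2 (.L 1835) (.C 2 3 2 1 (.P (.ofNat 1) (.ofNat 11)) (.G 3904 1675 1 818053
  1636106 1636106 818053 [.n, .n, .n, .g 64 35 0 0, .n])))))) (.B 2 4 1 (.L
  732) (.G 797 340 1 712268 178067 356134 1424535 [.n, .n, .n, .n, .g 31 64
  0 0, .g 6 13 0 0]))) (.L 218))) (.L 284)) (.C 1 3 2 1 (.C 1 2 2 1 (.L 848)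
  (.L 377)) (.L 8)))) (.L 8)) (.L 8)))) (.C 1 2 4 1 (.L 24) (.B 1 1 1 (.L
  24) (.B 2 2 1 (.C 1 2 1 2 (.L 76) (.C 1 3 1 8 (.C 1 2 1 4 (.L 284) (.L 8))
  (.L 8))) (.L 76)))))) (.C 0 1 1 1 (.C 0 1 2 1 (.B 2 2 1 (.L 218) (.G 771
  1470 3 4970 19881 2485 19725 [.g 128 3 0 0, .n, .n, .n, .g 8 13 0 0, .g 37
  65 0 0])) (.L 172)) (.L 60))) (.C 1 2 1 2 (.L 188) (.C 1 2 1 4 (.L 188)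
  (.C 1 3 1 1 (.B 2 1 8 (.L 813) (.L 870)) (.L 8))))) (.C 0 1 1240 1 (.C 0 2
  624 1 (.C 0 3 4968 1 (.B 1 2 1 (.B 0 1 2 (.C 0 2 1248 1 (.C 0 1 2480 1 (.C
  1 2 1 2 (.L 24) (.C 0 3 9936 1 (.C 1 2 1 4 (.C 1 2 2 1 (.L 40) (.C 2 3 1 1
  (.B 2 1 2 (.C 0 3 39800 1 (.C 0 1 39816 1 (.C 0 1 79632 1 (.C 0 1 159264 1
  (.C 0 3 79600 1 (.B 2 2 1 (.L 218) (.C 0 3 159200 1 (.B 0 1 2 (.C 0 2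
  19928 1 (.B 2 1 2 (.L 218) (.C 2 3 8 1 (.C 1 2 1 8 (.L 40) (.L 500)) (.L
  40))) (.L 218)) (.L 218)) (.L 218))) (.L 218)) (.L 218)) (.L 218)) (.L
  172)) (.L 172)) (.L 1451)) (.L 40))) (.C 1 3 1 1 (.C 1 2 1 8 (.B 2 1 2 (.C
  0 1 19928 1 (.C 1 3 1 1 (.C 1 2 1 1 (.L 1548) (.L 384)) (.L 377)) (.L
  172)) (.L 491)) (.L 8)) (.L 8))) (.L 172))) (.L 172)) (.L 172)) (.L 60))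
  (.C 0 2 1248 1 (.C 1 2 1 1 (.L 24) (.B 2 1 1 (.C 2 3 4 1 (.B 1 1 2 (.B 0 1
  1 (.C 0 1 4968 1 (.C 1 3 2 1 (.C 1 2 1 4 (.C 1 2 2 1 (.L 76) (.L 1330))
  (.C 0 2 2496 1 (.C 1 2 1 4 (.L 340) (.C 2 3 8 1 (.C 1 2 1 8 (.B 2 1 2 (.C
  1 2 2 1 (.B 1 1 1 (.L 771) (.C 1 3 2 1 (.B 2 2 1 (.L 516) (.L 3805)) (.L
  970))) (.L 8)) (.L 384)) (.L 8)) (.L 227))) (.C 0 1 4 1 (.C 0 3 8 1 (.C 1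
  2 1 16 (.C 0 1 8 1 (.L 8) (.C 1 2 2 1 (.B 2 1 2 (.C 0 1 1 2 (.L 8) (.L
  566)) (.L 384)) (.L 8))) (.L 8)) (.C 2 3 16 1 (.C 1 2 1 16 (.C 1 2 2 1 (.B
  2 1 2 (.L 566) (.L 384)) (.L 8)) (.L 8)) (.B 2 1 2 (.L 566) (.G 218 2781 5
  271560 135780 271560 135780 [.g 11 32 0 0, .n, .n, .n])))) (.B 2 1 2 (.L
  566) (.B 0 2 1 (.C 1 2 1 8 (.C 1 2 2 1 (.L 340) (.G 1981 1608 3 601543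
  1203085 601543 601543 [.n, .n, .n, .n, .g 64 21 0 0, .g 32 11 0 0, .n,
  .n])) (.G 1445 218 0 14102 14102 881 14047 [.n, .n, .n, .n, .n, .n, .n,
  .n, .n, .g 64 17 0 0])) (.L 218)))))) (.C 1 3 1 2 (.C 1 2 1 16 (.C 1 3 2 1
  (.C 1 2 2 1 (.L 227) (.L 451)) (.L 8)) (.L 8)) (.L 8))) (.B 2 1 2 (.L 218)
  (.C 1 2 1 2 (.L 76) (.C 0 3 2 1 (.C 0 1 1 1 (.C 0 3 4 1 (.C 0 1 2 1 (.B 2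
  1 4 (.L 218) (.B 0 2 1 (.B 0 4 1 (.C 0 2 1 4 (.C 0 2 2 1 (.L 2028) (.G 969
  218 0 642024 642024 321012 1284048 [.n, .n, .n, .n, .n, .n, .g 16 1 0 0,
  .g 64 5 0 0, .n, .n])) (.G 740 218 0 340167 677676 42521 1355351 [.n, .g 8
  33 0 0, .n, .g 3 4 0 0, .g 27 32 0 0])) (.L 218)) (.L 218))) (.L 218)) (.L
  218)) (.L 218)) (.L 218))))) (.C 0 1 4968 1 (.C 0 3 19920 1 (.C 0 2 2496 1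
  (.C 0 1 9936 1 (.C 0 3 39840 1 (.C 1 2 1 4 (.C 1 2 2 1 (.L 40) (.C 1 3 1 1
  (.L 182) (.B 0 1 2 (.B 2 1 1 (.C 2 3 2 1 (.L 896) (.C 1 3 1 2 (.C 1 3 2 1
  (.L 896) (.C 1 3 1 2 (.L 896) (.L 8))) (.L 8))) (.C 0 2 39840 1 (.C 1 2 1
  2 (.L 76) (.C 2 3 1 1 (.C 2 3 2 1 (.L 227) (.C 1 3 1 2 (.L 1586) (.L 35)))
  (.L 40))) (.C 0 3 1 1 (.G 566 3293 2 25855 51710 12927 51710 [.n, .g 8 1 0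
  0, .g 64 17 0 0, .n, .n]) (.L 566)))) (.B 1 2 1 (.L 822) (.C 0 2 39840 1
  (.B 2 2 1 (.C 0 1 159264 1 (.C 2 3 1 1 (.C 2 3 2 1 (.L 896) (.C 1 3 1 2
  (.L 896) (.L 772))) (.C 1 2 1 2 (.L 96) (.L 772))) (.G 171 822 0 320207
  160103 80052 80052 [.n, .n, .g 45 64 0 0, .n])) (.C 0 1 159264 1 (.C 0 3
  79680 1 (.C 0 3 159360 1 (.C 2 3 4 1 (.L 896) (.C 1 2 2 1 (.L 96) (.C 1 3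
  1 4 (.L 810) (.L 772)))) (.L 822)) (.L 822)) (.L 822))) (.L 1707)))))) (.C
  1 3 2 1 (.C 1 2 1 8 (.C 1 2 2 1 (.L 227) (.B 0 1 2 (.B 2 1 1 (.C 0 1
  159456 1 (.C 1 2 1 4 (.C 1 2 2 1 (.L 896) (.C 1 3 1 8 (.B 1 1 2 (.L 2168)
  (.L 714)) (.L 35))) (.L 35)) (.L 1707)) (.C 1 2 1 2 (.L 511) (.L 384)))
  (.B 1 2 1 (.L 822) (.C 0 1 159456 1 (.C 0 2 79776 1 (.B 2 2 1 (.L 1516)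
  (.C 0 1 318912 1 (.C 0 3 159360 1 (.C 1 2 1 4 (.C 1 2 2 1 (.L 896) (.C 1 3
  1 8 (.B 0 1 1 (.L 2168) (.L 714)) (.L 35))) (.L 35)) (.L 822)) (.L 822)))
  (.L 1707)) (.L 1707))))) (.L 8)) (.L 8))) (.L 566)) (.L 566)) (.L 566))
  (.L 37)) (.L 37))) (.C 1 2 1 2 (.B 2 2 1 (.C 0 1 4968 1 (.C 1 3 2 1 (.C 1
  2 1 1 (.L 76) (.C 1 3 2 1 (.L 182) (.L 1477))) (.C 0 3 19920 1 (.C 2 3 4 1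
  (.L 1477) (.B 2 4 1 (.C 2 3 1 2 (.L 492) (.C 1 3 1 1 (.L 492) (.L 8))) (.L
  331))) (.B 0 1 1 (.B 1 1 8 (.C 0 3 1 2 (.B 2 1 4 (.G 96 698 4 182477
  182477 45619 364954 [.n, .g 512 1 0 0, .n, .g 32 3 0 0, .n, .g 256 1 0 0])
  (.L 40)) (.L 822)) (.B 2 4 1 (.C 0 2 1 4 (.L 96) (.G 153 698 4 498321
  249160 62290 124580 [.n, .g 32 17 0 0, .n, .n])) (.C 1 2 1 4 (.L 331) (.G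
  96 698 4 29564 59128 7391 14782 [.n, .g 4096 59 0 0, .n, .g 64 21 0 0, .n,
  .g 256 3 0 0])))) (.B 1 1 4 (.L 698) (.C 0 3 1 2 (.C 0 2 1 4 (.L 96) (.G
  96 698 4 136532 68266 17067 136532 [.n, .g 256 1 0 0, .n, .g 4 1 0 0, .n,
  .g 64 1 0 0])) (.L 738)))))) (.G 40 698 4 6295 3148 6295 12590 [.n, .n,
  .n, .n, .n, .n, .g 25 63 0 0, .g 3 8 0 0])) (.B 0 2 1 (.L 76) (.B 1 1 1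
  (.B 0 1 2 (.L 76) (.C 1 2 2 1 (.L 40) (.B 1 2 1 (.C 1 2 1 2 (.L 40) (.B 0
  1 4 (.L 937) (.C 2 3 2 1 (.L 1330) (.L 331)))) (.L 937)))) (.L 76)))) (.C
  1 2 1 4 (.C 0 3 19920 1 (.C 1 3 4 1 (.L 740) (.C 1 3 1 2 (.C 1 3 2 1 (.L
  500) (.B 2 2 1 (.B 2 4 1 (.L 387) (.L 848)) (.L 848))) (.C 2 3 2 1 (.C 2 3
  4 1 (.B 2 2 1 (.C 1 2 1 8 (.C 1 2 2 1 (.C 1 3 1 1 (.L 673) (.L 896)) (.L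
  896)) (.L 896)) (.L 848)) (.C 1 2 1 1 (.L 164) (.C 2 3 1 2 (.B 2 2 1 (.L
  896) (.L 848)) (.L 164)))) (.L 8)))) (.C 0 1 1 4 (.C 1 3 1 4 (.C 0 1 2 1
  (.C 0 2 1 2 (.L 8) (.C 2 3 8 1 (.B 2 2 1 (.G 323 171 2 2097152 4194304
  524288 8388607 [.g 64 29 0 0, .g 32 25 0 0, .n, .n]) (.C 0 2 1 4 (.B 0 2 1
  (.L 3706) (.G 2269 1814 3 187586 375172 375172 750343 [.n, .n, .n, .n, .g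
  64 11 0 0, .g 64 11 0 0])) (.L 848))) (.L 284))) (.B 2 2 1 (.B 2 4 1 (.L
  1156) (.C 0 3 1 1 (.C 1 3 4 1 (.L 848) (.G 1209 387 0 2101256 8388607
  262657 4202512 [.g 64 33 0 0, .n, .g 32 17 0 0, .n])) (.L 822))) (.C 1 3 2
  1 (.L 848) (.C 2 3 8 1 (.L 848) (.L 35))))) (.C 2 3 1 1 (.C 0 2 1 2 (.L 8)
  (.C 2 3 2 1 (.C 1 2 1 8 (.L 284) (.G 441 1052 2 2097152 8388607 524288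
  2097152 [.n, .n, .n, .n, .g 64 47 0 0, .g 64 49 0 0])) (.L 284))) (.L 8)))
  (.B 2 2 1 (.G 1440 698 4 102858 12857 25715 25715 [.n, .n, .g 3 7 0 0, .g
  16 7 0 0, .n]) (.G 218 566 1 1 1 1 1 [.n, .n, .n, .g 59 64 0 0])))) (.C 1
  2 1 8 (.C 1 3 1 1 (.C 1 3 2 1 (.C 1 2 2 1 (.B 2 2 1 (.L 896) (.B 0 2 1 (.L
  511) (.L 190))) (.C 1 2 1 2 (.C 1 2 2 1 (.B 2 2 1 (.L 1978) (.B 0 2 1 (.L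
  384) (.L 557))) (.L 284)) (.L 164))) (.L 284)) (.L 8)) (.L 8))))) (.C 1 2
  4 1 (.L 24) (.C 1 2 1 2 (.L 76) (.C 1 3 1 8 (.C 1 2 1 4 (.L 284) (.L 8))
  (.L 8))))) (.C 2 3 4 1 (.C 1 2 1 2 (.L 40) (.C 1 3 2 1 (.C 1 2 1 4 (.B 0 2
  1 (.C 1 2 2 1 (.L 40) (.C 2 3 2 1 (.B 2 1 2 (.L 500) (.B 0 4 1 (.L 2682)
  (.C 1 2 1 2 (.L 2586) (.L 500)))) (.L 40))) (.C 1 3 4 1 (.L 740) (.L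
  500))) (.C 1 2 1 8 (.B 0 2 1 (.L 491) (.C 1 2 2 1 (.L 227) (.L 35))) (.L
  35))) (.L 35))) (.L 40)))) (.B 2 1 1 (.B 1 1 2 (.L 218) (.C 0 1 1 1 (.C 0
  2 1 2 (.C 0 3 4 1 (.C 0 1 2 1 (.C 0 1 4 1 (.C 1 2 1 4 (.C 0 1 8 1 (.L 8)
  (.C 1 2 2 1 (.C 0 1 1 2 (.L 376) (.B 2 2 1 (.C 1 2 4 1 (.G 4026 698 4
  102704 25676 205408 25676 [.n, .n, .n, .n, .g 1 19 0 0, .g 1 20 0 0]) (.L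
  789)) (.C 0 3 1 4 (.C 0 3 2 1 (.B 2 1 2 (.L 566) (.L 218)) (.L 1355)) (.L
  1355)))) (.L 376))) (.L 8)) (.G 698 218 3 1 1 1 1 [.n, .n, .n, .g 64 37 0
  0, .n])) (.G 172 732 2 1 1 1 1 [.g 256 65 0 0, .n, .n, .n])) (.L 37)) (.L
  37)) (.L 37))) (.L 218)))) (.L 60)) (.L 60)) (.L 60))) (by decide +kernel)

theorem EN0_c7 : CoN ENTab ⟨⟨3, 7, 16⟩, ⟨11, 31, 64⟩, ⟨3, 8, 16⟩, ⟨1, 0, 0,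
  0, 0⟩, ⟨1148, 22, 0, 6, 5⟩, ⟨580, 10, 0, 2, 3⟩, ⟨4616, 79, 5, 19, 23⟩⟩ :=
CoN.ofG ENTab_B ENBt_E ENBt_U (.B 2 1 1 (.C 1 2 1 2 (.B 2 2 1 (.C 1 2 2 1
  (.L 30) (.C 1 2 1 2 (.B 1 1 4 (.L 570) (.B 2 4 1 (.C 1 2 2 1 (.L 30) (.B 2
  8 1 (.B 1 1 8 (.L 40) (.L 1110)) (.L 40))) (.L 570))) (.C 2 3 2 1 (.C 1 3
  1 1 (.B 2 4 1 (.B 1 1 4 (.L 1184) (.L 910)) (.L 1184)) (.C 2 3 4 1 (.B 2 4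
  1 (.B 1 1 4 (.L 768) (.L 1952)) (.L 768)) (.C 1 3 1 2 (.L 1195) (.L
  504)))) (.B 2 4 1 (.B 1 1 4 (.L 40) (.C 1 3 1 2 (.C 1 2 1 1 (.L 942) (.L
  504)) (.C 2 3 1 2 (.C 1 3 1 1 (.L 504) (.C 2 3 2 1 (.L 217) (.C 1 3 1 2
  (.L 217) (.C 2 3 1 2 (.L 154) (.L 270))))) (.B 1 1 8 (.L 40) (.B 2 8 1 (.B
  2 16 1 (.B 1 1 16 (.L 1430) (.L 640)) (.L 1430)) (.L 40)))))) (.L 40)))))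
  (.L 76)) (.C 1 3 2 1 (.C 1 2 1 4 (.C 1 2 2 1 (.B 2 2 1 (.C 1 3 4 1 (.B 2 4
  1 (.B 1 1 4 (.L 768) (.L 1952)) (.L 768)) (.L 504)) (.C 1 3 4 1 (.L 1125)
  (.L 182))) (.B 2 2 1 (.L 504) (.L 182))) (.C 2 3 16 1 (.C 1 2 1 8 (.C 1 2
  2 1 (.B 2 2 1 (.C 1 3 4 1 (.L 873) (.L 1436)) (.C 1 3 4 1 (.L 1473) (.B 0
  2 1 (.B 2 1 2 (.B 2 2 1 (.B 1 1 2 (.L 516) (.L 387)) (.B 2 1 2 (.L 516)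
  (.C 2 3 1 1 (.L 896) (.L 3933)))) (.L 771)) (.B 0 1 2 (.B 2 2 1 (.L 387)
  (.L 516)) (.L 387))))) (.B 2 2 1 (.L 274) (.B 0 2 1 (.B 2 1 2 (.L 682) (.L
  771)) (.L 682)))) (.L 8)) (.B 2 2 1 (.C 2 3 1 2 (.C 1 2 4 1 (.L 873) (.C 1
  2 1 2 (.L 190) (.B 2 4 1 (.B 1 1 4 (.L 1160) (.C 1 3 1 2 (.L 2017) (.C 2 3
  2 1 (.L 2017) (.L 190)))) (.L 270)))) (.L 217)) (.C 2 3 1 2 (.C 1 2 4 1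
  (.L 227) (.B 0 2 1 (.B 2 1 2 (.C 1 2 1 2 (.L 896) (.C 2 3 2 1 (.L 164) (.L
  896))) (.L 1394)) (.C 2 3 2 1 (.B 0 1 2 (.B 2 2 1 (.L 387) (.L 516)) (.L
  387)) (.L 896)))) (.L 1285))))) (.C 1 3 1 2 (.C 1 2 1 16 (.B 2 2 1 (.B 2 4
  1 (.B 1 1 4 (.C 0 1 9928 1 (.C 1 2 1 1 (.C 1 3 1 1 (.L 154) (.L 465)) (.L
  465)) (.L 96)) (.C 1 2 2 1 (.C 1 3 2 1 (.L 217) (.C 2 3 1 2 (.L 154) (.C 1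
  3 1 2 (.L 154) (.L 720)))) (.C 1 3 1 2 (.C 1 2 1 2 (.L 190) (.L 720)) (.L
  720)))) (.C 1 2 2 1 (.C 1 3 2 1 (.L 217) (.L 270)) (.L 270))) (.C 1 2 2 1
  (.C 2 3 1 2 (.L 1473) (.L 76)) (.C 1 2 1 2 (.C 1 3 1 2 (.C 1 2 2 1 (.L
  227) (.C 1 2 1 2 (.B 0 2 1 (.L 3460) (.L 896)) (.L 164))) (.L 164)) (.L
  164)))) (.L 8)) (.L 8)))) (.C 1 2 1 2 (.B 0 4 1 (.L 24) (.L 76)) (.C 1 2 1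
  4 (.B 0 4 1 (.B 2 1 2 (.C 1 2 2 1 (.L 40) (.B 2 2 1 (.C 2 3 1 1 (.C 1 2 1
  2 (.L 40) (.C 2 3 2 1 (.L 500) (.L 40))) (.L 76)) (.L 188))) (.L 188)) (.C
  0 2 4976 1 (.C 2 3 1 2 (.C 1 2 4 1 (.B 0 1 2 (.L 76) (.B 1 1 2 (.C 2 3 1 1
  (.L 182) (.L 40)) (.L 76))) (.C 1 3 1 1 (.B 0 1 2 (.C 1 2 1 2 (.L 40) (.C
  2 3 4 1 (.B 0 2 1 (.C 1 2 1 4 (.L 1074) (.L 500)) (.L 182)) (.L 40))) (.L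
  182)) (.C 2 3 2 1 (.B 0 1 2 (.L 661) (.B 1 1 2 (.B 0 1 4 (.L 227) (.L
  190)) (.L 340))) (.B 0 1 2 (.L 76) (.B 1 1 2 (.B 0 1 4 (.L 76) (.C 2 3 1 2
  (.B 1 2 1 (.B 0 1 8 (.C 2 3 2 1 (.L 492) (.L 40)) (.L 492)) (.L 1458)) (.L
  40))) (.L 76)))))) (.L 76)) (.B 1 1 2 (.C 0 1 1 4 (.C 0 3 1 2 (.C 0 2 1 2
  (.B 0 1 2 (.C 0 1 2 1 (.C 1 3 1 2 (.C 1 3 2 1 (.B 2 1 1 (.L 182) (.G 1451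
  1231 2 524288 2097152 1048576 8388607 [.n, .n, .n, .n, .n, .n, .g 64 49 0
  0, .g 64 51 0 0, .n, .n])) (.L 500)) (.G 1470 802 3 5672 45378 11344 11344
  [.g 64 63 0 0, .n, .n, .g 32 15 0 0])) (.G 500 218 3 69551 34775 34775
  34775 [.g 32 11 0 0, .n, .g 59 64 0 0, .n])) (.G 1185 1814 3 29494 58987
  58987 58987 [.g 32 7 0 0, .g 64 11 0 0, .n, .g 16 1 0 0, .n])) (.L 60))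
  (.L 60)) (.L 60)) (.C 0 3 1 2 (.C 0 1 1 4 (.C 1 3 1 1 (.G 1705 182 2
  2097152 4194304 1048576 8388607 [.n, .n, .n, .n, .n, .n, .g 1 89 0 0, .g 1
  98 0 0]) (.G 3716 802 3 2097152 8388607 1048576 4194304 [.n, .n, .n, .n,
  .n, .n, .g 9 31 0 0, .g 2 7 0 0, .g 22 63 0 0, .g 1 3 0 0])) (.G 1451 230
  3 78812 9851 19703 78812 [.n, .n, .n, .n, .n, .n, .g 16 3 0 0, .g 64 13 0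
  0, .n, .n])) (.G 1705 230 3 94652 11831 23663 23663 [.n, .n, .n, .n, .n,
  .n, .g 64 15 0 0, .g 4 1 0 0]))))) (.C 1 3 1 1 (.C 1 2 1 8 (.B 0 4 1 (.C 1
  3 2 1 (.C 1 2 2 1 (.C 1 2 4 1 (.C 1 3 4 1 (.B 2 1 2 (.L 802) (.L 1074))
  (.L 1036)) (.L 1036)) (.L 813)) (.L 813)) (.B 0 1 2 (.C 1 3 2 1 (.C 1 2 2
  1 (.L 1548) (.L 377)) (.L 377)) (.C 0 1 4976 1 (.C 1 3 1 1 (.C 1 2 1 1 (.B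
  1 1 2 (.B 0 1 4 (.L 1586) (.L 896)) (.L 848)) (.B 1 1 2 (.B 0 1 4 (.L 35)
  (.C 1 2 1 2 (.B 1 2 1 (.L 387) (.L 516)) (.L 164))) (.L 384))) (.L 164))
  (.B 1 1 2 (.G 1608 1003 0 3677 1838 3677 3677 [.g 8 1 0 0, .n, .n, .g 64
  47 0 0]) (.C 0 2 1 1 (.G 1715 802 3 1539417 769708 3078833 1539417 [.n,
  .n, .n, .n, .g 21 64 0 0, .g 20 63 0 0, .g 22 63 0 0, .g 22 65 0 0]) (.G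
  924 230 3 22068 5517 11034 11034 [.n, .n, .n, .n, .g 64 49 0 0, .g 64 49 0
  0])))))) (.L 1264)) (.L 8))))) (by decide +kernel)

theorem EN0_c8 : CoN ENTab ⟨⟨3, 7, 16⟩, ⟨5, 15, 32⟩, ⟨3, 8, 16⟩, ⟨1, 0, 0,
  0, 0⟩, ⟨1148, 22, 0, 6, 5⟩, ⟨4616, 79, 5, 19, 23⟩, ⟨2296, 39, 5, 11, 11⟩⟩
  :=
  CoN.ofG ENTab_B ENBt_E ENBt_U (.L 30) (by decide +kernel)

theorem EN0_c9 : CoN ENTab ⟨⟨3, 7, 16⟩, ⟨5, 15, 32⟩, ⟨3, 8, 16⟩, ⟨1, 0, 0,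
  0, 0⟩, ⟨2296, 39, 5, 11, 11⟩, ⟨580, 10, 0, 2, 3⟩, ⟨1148, 17, 5, 5, 6⟩⟩ :=
CoN.ofG ENTab_B ENBt_E ENBt_U (.C 2 3 2 1 (.L 8) (.C 2 3 1 2 (.L 30) (.L
  24))) (by decide +kernel)

theorem EN0_c10 : CoN ENTab ⟨⟨3, 7, 16⟩, ⟨5, 15, 32⟩, ⟨3, 8, 16⟩, ⟨1, 0, 0,
  0, 0⟩, ⟨580, 10, 0, 2, 3⟩, ⟨148, 2, 0, 0, 1⟩, ⟨1148, 17, 5, 5, 6⟩⟩ :=
  CoN.ofG ENTab_B ENBt_E ENBt_U (.C 1 2 1 4 (.L 376) (.L 245)) (by decide +kernel)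

theorem EN0_c11 : CoN ENTab ⟨⟨3, 7, 16⟩, ⟨5, 15, 32⟩, ⟨3, 8, 16⟩, ⟨1, 0, 0,
  0, 0⟩, ⟨68, 2, 0, 1, 0⟩, ⟨1148, 17, 5, 5, 6⟩, ⟨556, 9, 5, 5, 2⟩⟩ :=
CoN.ofG ENTab_B ENBt_E ENBt_U (.C 1 2 16 1 (.L 62) (.C 2 3 1 2 (.L 66) (.L
  62))) (by decide +kernel)

theorem EN0_c12 : CoN ENTab ⟨⟨3, 7, 16⟩, ⟨5, 15, 32⟩, ⟨3, 8, 16⟩, ⟨1, 0, 0,
  0, 0⟩, ⟨68, 2, 0, 1, 0⟩, ⟨556, 9, 5, 5, 2⟩, ⟨52, 1, 1, 1, 0⟩⟩ :=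
CoN.ofG ENTab_B ENBt_E ENBt_U (.C 1 3 3 4 (.L 62) (.C 1 3 1 8 (.L 100) (.B 1
  1 2 (.B 0 2 1 (.C 0 3 64 1 (.C 1 3 1 8 (.B 2 1 4 (.L 212) (.C 1 3 2 1 (.L
  212) (.C 1 3 1 2 (.L 212) (.B 2 1 8 (.L 212) (.B 2 1 16 (.L 212) (.C 2 3 3
  1 (.L 256) (.L 449))))))) (.C 1 2 1 3 (.C 2 3 1 31 (.C 1 2 2 1 (.L 1506)
  (.L 191)) (.L 509)) (.C 2 3 1 5 (.L 221) (.C 1 2 1 3 (.C 1 3 1 31 (.L 191)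
  (.L 2909)) (.L 282))))) (.B 2 1 4 (.G 509 172 0 8 63 39 4 [.n, .g 111 257
  0 0, .n, .n, .n, .n, .n, .n]) (.G 256 509 1 11779 92760 57423 5890 [.n, .g
  37 64 0 0, .g 5 32 0 0, .n, .n]))) (.C 0 1 1008 1 (.C 0 3 64 1 (.C 0 2 624
  1 (.B 1 2 1 (.B 0 1 2 (.C 0 3 128 1 (.C 0 1 2016 1 (.C 0 2 1248 1 (.C 2 3
  1 10 (.L 256) (.L 509)) (.L 230)) (.L 218)) (.L 218)) (.L 60)) (.C 2 3 1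
  10 (.C 1 3 4 3 (.L 212) (.B 2 1 1 (.L 118) (.L 62))) (.L 509))) (.L 60))
  (.L 60)) (.L 60))) (.B 2 1 1 (.L 118) (.C 1 3 1 16 (.B 0 4 1 (.B 2 1 2 (.L
  118) (.B 0 8 1 (.B 2 1 4 (.L 212) (.C 1 2 2 3 (.L 449) (.C 2 3 3 1 (.L
  221) (.L 449)))) (.L 118))) (.L 118)) (.C 1 2 1 3 (.C 1 2 2 1 (.L 509) (.C
  2 3 1 61 (.L 449) (.L 509))) (.C 1 3 1 61 (.B 0 4 1 (.B 2 1 2 (.L 118) (.L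
  282)) (.L 118)) (.L 282)))))))) (by decide +kernel)

theorem EN0_c13 : CoN ENTab ⟨⟨3, 7, 16⟩, ⟨5, 15, 32⟩, ⟨3, 8, 16⟩, ⟨148, 2,
  0, 0, 1⟩, ⟨68, 2, 0, 1, 0⟩, ⟨68, 2, 0, 0, 1⟩, ⟨52, 1, 1, 1, 0⟩⟩ :=
CoN.ofG ENTab_B ENBt_E ENBt_U (.B 1 1 2 (.L 464) (.C 0 1 1 2 (.C 0 2 1 2 (.B
  2 1 1 (.B 0 2 1 (.C 0 3 2 5 (.C 0 1 2 1 (.C 2 3 2 1 (.G 376 245 2 178484
  691625 356968 1383251 [.n, .n, .g 3 13 0 0, .g 13 66 0 0, .n, .n]) (.C 0 3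
  4 1 (.G 245 222 1 37086 143710 287420 287420 [.n, .n, .g 1 134 0 0, .n])
  (.G 225 1406 1 5409 2704 5409 2704 [.g 16 1 0 0, .n, .n, .n, .n, .n])))
  (.C 1 2 1 1 (.B 2 2 1 (.C 1 3 2 1 (.B 1 1 8 (.L 738) (.C 0 1 1 2 (.B 1 1
  16 (.L 1007) (.C 0 2 1 1 (.C 1 3 1 1 (.G 652 738 1 1 1 1 1 [.g 31 64 0 0,
  .n, .n, .n]) (.C 2 3 1 1 (.G 652 738 1 1 1 1 1 [.g 31 64 0 0, .n, .n, .n])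
  (.C 0 3 2 1 (.G 398 652 0 1 1 1 1 [.n, .g 64 1 0 0, .g 64 17 0 0, .n]) (.L
  216)))) (.L 37))) (.L 37))) (.C 2 3 1 1 (.B 1 1 8 (.L 738) (.C 0 2 1 1 (.B
  1 1 16 (.L 1007) (.C 1 2 1 1 (.C 0 1 2 1 (.G 398 424 3 1 1 1 1 [.n, .g 32
  1 0 0, .g 64 21 0 0, .n]) (.L 216)) (.G 3264 738 1 1 1 1 1 [.n, .n, .g 64
  53 0 0, .n]))) (.L 37))) (.C 0 3 1 1 (.C 0 1 2 1 (.C 0 3 2 1 (.C 0 2 2 1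
  (.C 0 1 4 1 (.C 1 2 1 2 (.C 0 1 8 1 (.L 8) (.G 699 30 0 1808191 904096
  1808191 452048 [.n, .n, .n, .n, .n, .n, .n, .n, .g 1 34 0 0, .g 1 53 0
  0])) (.L 8)) (.L 30)) (.L 24)) (.L 196)) (.L 66)) (.G 219 81 1 123546
  123546 123546 61773 [.n, .g 16 1 0 0, .n, .n, .n, .n, .n, .n])))) (.C 1 3
  2 1 (.C 0 1 1 2 (.C 0 2 1 1 (.C 2 3 1 1 (.B 2 1 2 (.L 698) (.L 218)) (.C 0
  3 2 1 (.G 218 698 3 1 1 1 1 [.n, .n, .n, .g 37 65 0 0]) (.G 37 196 1 173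
  87 173 87 [.n, .n, .g 64 11 0 0, .n]))) (.L 37)) (.L 37)) (.C 1 2 1 2 (.C
  0 3 1 1 (.C 0 1 2 1 (.C 0 3 2 1 (.C 0 1 4 1 (.G 1931 30 0 64360 510855
  253416 253416 [.n, .n, .n, .n, .g 1 56 0 0, .g 1 71 0 0]) (.L 24)) (.L
  393)) (.G 456 272 2 194891 97446 194891 97446 [.n, .g 256 1 0 0, .n, .n,
  .n, .n])) (.C 2 3 1 4 (.G 66 216 1 493747 493747 987495 1974990 [.n, .n,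
  .g 1 430 0 0, .n]) (.G 94 62 3 68460 68460 271702 34230 [.n, .n, .n, .g 64
  27 0 0]))) (.G 1887 860 2 662 2606 662 662 [.n, .g 256 7 0 0, .n, .n, .g
  39 64 0 0, .g 23 64 0 0])))) (.G 1406 245 2 79561 79561 41064 79561 [.n,
  .g 32 1 0 0, .n, .n, .n, .n, .n, .n, .n, .n]))) (.C 0 2 1 2 (.C 0 1 1 2
  (.C 2 3 1 19 (.C 2 3 2 1 (.C 1 2 1 1 (.G 94 81 1 56290 112579 221640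
  439762 [.n, .n, .n, .g 64 7 0 0]) (.C 0 2 2 1 (.G 8 94 3 56290 221640
  221640 439762 [.n, .g 64 1 0 0, .n, .n, .n, .n]) (.G 3864 759 7 1209959
  1209959 604979 2382106 [.n, .g 256 1 0 0, .n, .n, .n, .n, .n, .n]))) (.L
  62)) (.G 62 100 1 96697 193393 376869 9918 [.g 38 65 0 0, .g 32 11 0 0,
  .n, .n, .n])) (.L 37)) (.L 37))) (.B 1 1 4 (.L 60) (.C 0 3 2 5 (.C 0 1 2 1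
  (.C 2 3 2 1 (.G 376 245 2 178129 690250 356258 1380499 [.n, .n, .g 15 62 0
  0, .g 13 63 0 0, .n, .n]) (.C 0 3 4 1 (.G 376 245 2 231297 896277 1792554
  1792554 [.n, .n, .g 7 31 0 0, .g 6 31 0 0, .n, .n]) (.G 225 1155 1 6657
  3328 6657 3328 [.g 64 3 0 0, .n, .n, .n, .n, .n]))) (.B 2 8 1 (.B 1 1 8
  (.L 37) (.B 2 16 1 (.C 2 3 2 1 (.L 766) (.C 2 3 1 2 (.L 652) (.C 1 3 2 1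
  (.G 766 37 2 1 1 1 1 [.g 32 29 0 0, .n, .n, .n]) (.C 0 3 1 1 (.B 2 32 1
  (.B 1 1 16 (.L 652) (.B 1 1 32 (.L 652) (.C 0 1 2 1 (.G 1116 252 1 7177
  28707 28258 14353 [.n, .n, .g 64 23 0 0, .g 64 17 0 0, .n, .n]) (.L
  1860)))) (.L 252)) (.G 256 94 3 131395 131395 258684 65698 [.n, .n, .n,
  .n, .g 64 27 0 0]))))) (.L 252))) (.L 37))) (.B 2 8 1 (.C 0 2 1 2 (.C 0 1
  1 2 (.B 1 1 8 (.L 37) (.C 2 3 1 19 (.B 2 16 1 (.C 2 3 2 1 (.C 1 2 1 1 (.G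
  62 94 3 57385 114771 225955 448324 [.n, .n, .g 64 31 0 0, .g 64 45 0 0,
  .n]) (.G 189 1116 1 532 2097 1065 4160 [.g 64 5 0 0, .n, .n, .n, .n, .n]))
  (.L 62)) (.L 275)) (.G 1942 100 1 373 747 1455 38 [.g 1 1 0 0, .g 64 29 0
  0, .n, .n]))) (.L 37)) (.L 37)) (.L 37))))) (.B 1 1 2 (.L 464) (.C 0 2 2 1
  (.C 0 3 2 5 (.C 0 1 2 1 (.G 189 837 1 1533 5941 6133 5941 [.g 16 1 0 0,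
  .n, .n, .n, .n, .n]) (.C 2 3 1 1 (.L 218) (.C 1 3 2 1 (.L 218) (.C 0 3 1 1
  (.L 218) (.C 2 3 1 2 (.L 218) (.G 94 62 3 105644 105644 207987 52822 [.n,
  .n, .n, .g 32 19 0 0])))))) (.C 0 1 1 2 (.B 1 1 4 (.L 172) (.C 2 3 1 10
  (.C 0 2 1 1 (.G 218 81 1 1568 3137 3137 3137 [.g 32 1 0 0, .n, .n, .g 16
  13 0 0]) (.L 218)) (.C 1 3 1 20 (.L 62) (.G 218 2036 3 377 1529 750 39 [.g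
  32 27 0 0, .n, .n, .g 2 21 0 0])))) (.L 172))) (.L 172)))) (.L 37)) (.L
  37))) (by decide +kernel)

theorem EN0_c14 : CoN ENTab ⟨⟨5, 15, 32⟩, ⟨1, 4, 8⟩, ⟨5, 16, 32⟩, ⟨1, 0, 0,
  0, 0⟩, ⟨68, 2, 0, 1, 0⟩, ⟨68, 2, 0, 0, 1⟩, ⟨52, 1, 1, 1, 0⟩⟩ :=
  CoN.ofG ENTab_B ENBt_E ENBt_U (.L 32) (by decide +kernel)

theorem EN0_c15 : CoN ENTab ⟨⟨11, 31, 64⟩, ⟨5, 16, 32⟩, ⟨3, 8, 16⟩, ⟨1, 0,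
  0, 0, 0⟩, ⟨148, 2, 0, 1, 0⟩, ⟨148, 2, 0, 0, 1⟩, ⟨52, 1, 1, 1, 0⟩⟩ :=
CoN.ofG ENTab_B ENBt_E ENBt_U (.B 1 1 2 (.C 0 3 64 1 (.C 0 1 160 1 (.C 0 2
  160 1 (.C 2 3 2 5 (.C 0 2 320 1 (.C 2 3 2 1 (.C 1 2 2 1 (.L 66) (.C 1 2 1
  2 (.C 2 3 1 1 (.C 2 3 2 1 (.C 1 2 2 1 (.L 30) (.B 0 1 2 (.C 1 2 1 2 (.C 1
  2 2 1 (.L 30) (.C 2 3 1 1 (.C 1 2 1 2 (.L 605) (.C 2 3 2 1 (.B 2 1 1 (.C 1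
  3 1 1 (.L 910) (.C 2 3 4 1 (.L 3364) (.C 1 3 1 2 (.L 1952) (.L 504)))) (.L
  546)) (.C 1 2 1 1 (.L 554) (.B 2 1 1 (.B 2 2 1 (.B 1 1 2 (.L 40) (.L
  1110)) (.L 374)) (.L 570))))) (.L 1291))) (.C 1 3 1 1 (.C 1 2 1 4 (.C 1 3
  2 1 (.C 1 2 2 1 (.B 2 1 1 (.C 1 3 4 1 (.L 1952) (.L 504)) (.L 1894)) (.L
  504)) (.C 1 3 1 2 (.L 504) (.C 2 3 1 1 (.L 217) (.B 2 1 1 (.L 96) (.C 2 3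
  1 2 (.L 602) (.L 30)))))) (.C 1 2 1 8 (.C 1 3 1 1 (.C 1 2 2 1 (.L 873) (.C
  2 3 1 1 (.L 1253) (.L 190))) (.B 2 1 1 (.L 450) (.L 720))) (.L 8))) (.L
  8))) (.B 1 2 1 (.L 37) (.B 2 2 1 (.C 0 2 2544 1 (.C 1 2 1 1 (.L 30) (.C 1
  2 1 2 (.C 2 3 1 2 (.C 0 1 10160 1 (.C 1 2 1 1 (.C 2 3 1 1 (.C 2 3 2 1 (.C
  1 3 8 1 (.L 910) (.L 504)) (.C 1 2 8 1 (.L 2522) (.C 1 3 1 4 (.L 504) (.L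
  217)))) (.L 1893)) (.L 903)) (.B 2 4 1 (.G 3802 640 0 1268670 634335
  1268670 2537340 [.g 1 205 0 0, .g 1 196 0 0, .n, .n]) (.B 1 4 1 (.L 252)
  (.C 2 3 2 1 (.G 1352 1761 2 2097152 1048576 2097152 8388607 [.n, .g 32 5 0
  0, .n, .n, .n, .n, .g 23 32 0 0, .g 45 64 0 0]) (.C 1 2 8 1 (.L 1893) (.G
  2496 1110 3 471285 3770279 1885140 942570 [.n, .n, .n, .n, .n, .n, .g 6 31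
  0 0, .g 2 11 0 0])))))) (.L 1472)) (.C 1 3 1 2 (.C 1 2 1 4 (.L 1505) (.C 1
  2 1 8 (.C 1 3 1 1 (.L 2017) (.L 8)) (.L 8))) (.L 8)))) (.B 1 1 2 (.L 252)
  (.C 0 1 1 1 (.C 1 3 1 1 (.C 0 1 2 1 (.G 640 424 0 1385 5540 693 5540 [.n,
  .n, .g 64 13 0 0, .g 64 15 0 0, .n, .n]) (.C 1 2 1 4 (.B 2 4 1 (.C 1 2 2 1
  (.G 942 640 0 1222642 611321 2445284 1222642 [.n, .n, .g 1 155 0 0, .g 3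
  55 0 0, .n]) (.L 640)) (.G 3780 252 1 91231 45616 91231 91231 [.n, .n, .n,
  .n, .n, .n, .g 64 25 0 0, .g 32 13 0 0])) (.G 3520 424 0 9621 9621 1203
  9621 [.n, .n, .g 64 15 0 0, .g 4 1 0 0, .n, .n]))) (.L 8)) (.B 2 4 1 (.B 1
  1 4 (.L 1628) (.C 0 1 1 2 (.C 1 2 1 8 (.G 640 570 1 1196845 2393690
  4787381 1196845 [.g 1024 3 0 0, .n, .g 64 1 0 0, .g 64 1 0 0, .n, .n]) (.C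
  0 2 1 4 (.C 0 2 2 1 (.C 0 1 4 1 (.G 640 570 1 462937 3703498 1851749
  462937 [.g 512 1 0 0, .n, .n, .n, .n, .n]) (.L 640)) (.L 640)) (.L 640)))
  (.B 2 8 1 (.G 1216 640 0 2523650 630913 315456 1261825 [.g 1 348 0 0, .n,
  .n, .n, .g 1 362 0 0]) (.L 1628)))) (.L 252))))) (.C 0 2 2544 1 (.C 0 1
  5080 1 (.B 1 2 1 (.L 252) (.B 2 1 2 (.C 0 3 10152 1 (.C 2 3 4 1 (.C 1 2 1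
  2 (.C 0 2 20328 1 (.C 1 3 4 1 (.C 1 2 4 1 (.L 30) (.C 1 2 1 2 (.L 1551)
  (.C 1 3 1 2 (.C 1 2 1 4 (.L 2216) (.L 2596)) (.L 3421)))) (.C 2 3 1 1 (.C
  2 3 2 1 (.C 2 3 4 1 (.L 1952) (.L 504)) (.C 1 3 1 1 (.L 504) (.L 96))) (.C
  1 3 1 2 (.C 1 2 1 1 (.L 576) (.L 96)) (.L 96)))) (.C 0 1 1 4 (.B 2 2 1 (.C
  0 2 1 2 (.C 0 3 1 1 (.C 0 3 2 1 (.C 0 1 2 1 (.C 2 3 2 1 (.L 1889) (.C 0 3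
  4 1 (.L 1889) (.C 1 3 1 1 (.L 1889) (.L 504)))) (.L 424)) (.L 424)) (.L
  252)) (.L 252)) (.L 252)) (.L 252))) (.C 1 2 1 4 (.C 1 3 2 1 (.C 1 2 2 1
  (.C 1 3 4 1 (.L 1864) (.L 217)) (.L 217)) (.L 1505)) (.L 2017))) (.C 1 2 4
  1 (.L 30) (.C 1 2 1 2 (.C 1 2 2 1 (.L 1472) (.L 96)) (.L 96)))) (.L 252))
  (.L 252))) (.L 252)) (.L 252)))))) (.L 30)) (.L 66)) (.C 1 2 1 4 (.L 222)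
  (.L 245)))) (.L 62)) (.B 0 1 2 (.C 0 3 2 1 (.C 0 1 1 2 (.C 0 1 2 1 (.C 1 2
  1 8 (.G 245 222 1 52845 211379 422757 208076 [.n, .n, .g 1 130 0 0, .n])
  (.L 2212)) (.C 1 2 1 4 (.C 1 3 2 1 (.C 2 3 2 1 (.C 1 2 2 1 (.C 0 1 1 2 (.B
  1 1 2 (.B 0 2 1 (.B 2 1 4 (.L 252) (.B 0 4 1 (.B 2 1 8 (.L 313) (.B 0 8 1
  (.C 0 1 2 1 (.C 1 3 1 1 (.C 0 1 4 1 (.C 0 2 2 1 (.C 0 1 8 1 (.C 0 2 4 1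
  (.L 8) (.L 3754)) (.L 465)) (.G 153 398 1 15861 31721 7930 31721 [.n, .g 1
  1 0 0, .n, .n])) (.C 1 3 2 1 (.L 182) (.G 398 557 3 73060 146119 18265
  73060 [.n, .g 7 16 0 0, .n, .n]))) (.G 1323 398 1 6883 55061 13765 27531
  [.n, .n, .n, .n, .g 64 27 0 0, .g 2 1 0 0, .g 64 57 0 0, .g 61 64 0 0]))
  (.B 2 1 16 (.L 313) (.C 1 2 1 1 (.L 76) (.G 40 398 1 49758 49758 24879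
  49758 [.n, .n, .n, .n, .n, .n, .g 32 5 0 0, .g 64 11 0 0])))) (.L 313)))
  (.L 617))) (.L 37)) (.C 0 1 2 1 (.C 1 3 1 1 (.B 2 1 1 (.C 0 1 4 1 (.C 0 2
  2 1 (.C 0 3 8 1 (.L 1436) (.B 2 2 1 (.L 1505) (.C 0 3 1 2 (.L 1120) (.G
  2852 954 2 8388607 2097152 1048576 2097152 [.g 17 65 0 0, .n, .n, .n, .n,
  .n])))) (.G 2170 424 0 10959 21918 5479 21918 [.n, .g 43 64 0 0, .n, .g 57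
  64 0 0])) (.C 1 3 2 1 (.G 963 1162 0 456801 228401 114200 913603 [.g 32 11
  0 0, .n, .n, .n, .n]) (.G 963 424 0 7937 15875 1984 7937 [.g 59 64 0 0,
  .n, .g 31 64 0 0, .n, .n]))) (.C 0 1 4 1 (.B 0 4 1 (.C 0 2 2 1 (.C 0 1 8 1
  (.C 0 2 4 1 (.L 8) (.C 2 3 2 1 (.C 0 3 2 1 (.L 1120) (.C 1 2 1 4 (.L 465)
  (.G 3194 3946 1 2767093 2767093 345887 1383546 [.n, .g 29 63 0 0, .n,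
  .n]))) (.L 465))) (.G 465 4036 2 1942838 971419 485709 971419 [.n, .n, .n,
  .g 29 64 0 0])) (.G 398 557 3 9323 18646 4661 18646 [.n, .g 64 37 0 0, .n,
  .n])) (.B 1 1 2 (.L 252) (.B 1 1 4 (.L 252) (.B 2 4 1 (.C 0 2 2 1 (.C 0 3
  8 1 (.L 1120) (.B 1 1 8 (.L 424) (.B 2 8 1 (.C 0 1 1 2 (.C 0 2 1 4 (.L 96)
  (.C 2 3 2 1 (.G 2874 424 0 2739885 2739885 342486 1369943 [.n, .n, .n, .n,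
  .g 16 7 0 0, .g 16 7 0 0]) (.L 96))) (.G 96 4058 1 596573 149143 74572
  149143 [.n, .n, .g 64 33 0 0, .g 32 17 0 0, .g 64 3 0 0, .g 16 1 0 0]))
  (.L 424)))) (.G 252 686 3 35810 71620 17905 71620 [.n, .g 57 64 0 0, .n,
  .n])) (.L 252))))) (.C 1 3 2 1 (.G 796 504 0 683021 341511 170755 1366043
  [.n, .n, .g 64 43 0 0, .n]) (.G 153 398 1 18864 37727 4716 18864 [.n, .g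
  19 32 0 0, .n, .g 64 19 0 0])))) (.C 2 3 2 1 (.C 0 2 2 1 (.C 0 2 4 1 (.L
  8) (.C 2 3 2 1 (.C 1 2 1 2 (.L 270) (.C 0 1 2 1 (.C 0 3 2 1 (.L 1436) (.G
  2397 1220 0 5257591 5257591 657199 2628795 [.n, .n, .n, .n, .g 12 65 0 0,
  .g 11 64 0 0, .n, .n])) (.G 450 1220 0 2691791 1345895 336474 1345895 [.n,
  .n, .n, .n, .n, .n, .g 13 62 0 0, .g 7 32 0 0]))) (.L 270))) (.G 398 252 0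
  1 1 1 1 [.n, .g 32 1 0 0, .g 8 3 0 0, .n])) (.L 8))) (.B 2 1 1 (.C 0 3 1 1
  (.C 1 3 4 1 (.C 1 2 1 1 (.C 0 1 1 2 (.G 1779 3677 1 1013925 2027849
  1013925 4055699 [.n, .n, .g 64 11 0 0, .n]) (.L 30)) (.L 291)) (.C 0 3 2 1
  (.G 796 1864 0 1355504 5422016 677752 5422016 [.n, .g 32 7 0 0, .n, .n])
  (.L 424))) (.G 30 424 0 34 8 8 17 [.g 4 57 0 0, .n, .n, .n, .n, .n])) (.C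
  1 2 1 1 (.C 0 1 1 2 (.C 0 1 2 1 (.C 0 3 1 1 (.C 0 2 1 1 (.C 0 3 2 1 (.G
  305 546 1 243642 974568 487284 974568 [.n, .n, .n, .g 45 64 0 0]) (.G 1348
  398 1 14752 14752 7376 7376 [.g 64 47 0 0, .n, .n, .n, .n, .n, .n, .n, .n,
  .n])) (.L 554)) (.L 570)) (.L 3994)) (.L 30)) (.C 0 3 1 1 (.C 0 2 1 2 (.B
  0 4 1 (.C 2 3 1 1 (.L 546) (.C 0 1 1 1 (.C 0 3 2 1 (.L 546) (.L 937)) (.L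
  937))) (.G 1184 424 0 7813 7813 15627 15627 [.g 19 65 0 0, .n, .g 32 27 0
  0])) (.L 398)) (.L 398)))))) (.C 1 2 4 1 (.L 30) (.C 1 2 1 2 (.L 30) (.C 0
  2 1 1 (.L 30) (.G 3264 398 2 1 1 1 1 [.n, .n, .g 15 16 0 0, .n]))))) (.C 1
  2 1 2 (.C 1 2 2 1 (.C 0 1 2 1 (.L 1436) (.G 424 738 1 1 1 1 1 [.n, .n, .n,
  .g 2 3 0 0])) (.L 8)) (.L 1253))) (.C 0 3 2 1 (.C 0 1 1 2 (.C 0 3 4 1 (.C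
  0 1 2 1 (.C 1 2 1 1 (.C 0 1 4 1 (.C 0 1 8 1 (.L 8) (.C 1 2 1 1 (.G 450
  1440 2 1360147 680073 1360147 680073 [.n, .n, .n, .n, .n, .n, .g 37 63 0
  0, .g 17 32 0 0]) (.L 270))) (.C 1 2 2 1 (.C 1 3 2 1 (.G 796 504 0 885051
  442526 1770103 1770103 [.n, .g 20 63 0 0, .g 64 47 0 0, .n]) (.C 1 3 1 2
  (.L 504) (.C 2 3 1 2 (.L 504) (.C 0 3 1 1 (.L 217) (.G 40 2372 4 1630532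
  3261064 3261064 815266 [.n, .n, .n, .n, .n, .n, .g 1 3 0 0, .g 19 65 0
  0]))))) (.C 1 2 1 2 (.C 1 3 1 2 (.L 217) (.C 0 3 1 1 (.L 217) (.G 974 1440
  2 1029702 2059405 2059405 514851 [.n, .n, .n, .n, .g 64 15 0 0, .g 8 5 0
  0, .n, .n]))) (.G 974 1440 2 879896 3519586 879896 879896 [.n, .n, .n, .n,
  .g 21 32 0 0, .g 5 8 0 0, .g 32 29 0 0, .g 32 29 0 0])))) (.L 8)) (.C 0 1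
  1 2 (.C 0 2 1 1 (.C 0 1 2 1 (.C 0 3 2 1 (.C 0 2 2 1 (.G 291 305 3 1773569
  7094275 7094275 7094275 [.g 4 21 0 0, .n, .n, .g 16 13 0 0]) (.B 2 1 1 (.C
  1 2 1 2 (.G 1761 305 3 2102096 2102096 4204192 2102096 [.n, .n, .g 15 64 0
  0, .n]) (.G 96 963 2 1420534 2841069 710267 1420534 [.n, .g 1024 1 0 0,
  .n, .n, .n, .n])) (.L 40))) (.B 2 1 1 (.B 2 2 1 (.G 1110 374 3 1069465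
  1069465 534733 534733 [.g 64 55 0 0, .n, .n, .g 32 19 0 0]) (.L 374)) (.L
  570))) (.G 40 374 3 848576 424288 424288 424288 [.n, .n, .n, .n, .n, .n,
  .g 5 8 0 0, .g 59 64 0 0])) (.L 30)) (.L 30))) (.L 30)) (.L 30)) (.G 30
  456 0 24744 3093 24550 12372 [.n, .g 4 65 0 0, .n, .n, .n, .n]))) (.C 1 3
  1 2 (.C 1 2 1 2 (.C 1 2 2 1 (.C 0 1 2 1 (.C 0 1 4 1 (.L 8) (.C 0 3 1 2 (.G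
  30 699 9 2010125 1005062 2010125 4020249 [.n, .g 256 1 0 0, .n, .n, .n,
  .n]) (.L 1035))) (.L 196)) (.L 8)) (.L 222)) (.L 222))) (.G 245 222 1
  82863 82863 10439 82211 [.n, .n, .g 1 57 0 0, .n]))) (.G 738 652 0 1 1 1 1
  [.n, .g 32 17 0 0, .n, .n])) (.G 617 275 0 1 1 1 1 [.n, .n, .g 15 32 0 0,
  .n])) (.B 1 2 1 (.L 32) (.B 2 2 1 (.B 1 1 2 (.L 37) (.C 0 1 1 2 (.C 0 3 2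
  1 (.B 2 4 1 (.B 1 1 4 (.L 252) (.C 0 2 1 2 (.C 0 1 2 1 (.G 759 245 2 27786
  111142 55571 109406 [.n, .g 32 1 0 0, .n, .n, .n, .n, .n, .n]) (.C 0 3 1 1
  (.B 2 8 1 (.B 1 1 8 (.L 252) (.C 1 2 1 1 (.C 1 3 4 1 (.C 1 2 2 1 (.C 0 1 1
  2 (.C 1 3 2 1 (.C 0 1 2 1 (.C 0 3 8 1 (.G 640 424 0 89 354 177 1412 [.g 32
  7 0 0, .n, .n, .n, .n, .n]) (.B 2 16 1 (.B 1 1 16 (.L 1628) (.G 2500 30 0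
  6510574 1627643 813822 3255287 [.n, .g 1 210 0 0, .n, .n])) (.L 1628)))
  (.B 2 16 1 (.B 1 1 16 (.L 1628) (.C 1 2 1 1 (.C 0 3 2 1 (.C 0 1 1 2 (.C 0
  3 4 1 (.C 0 2 1 1 (.G 2653 1889 0 724140 1448280 1448280 5793118 [.n, .g
  16 3 0 0, .n, .n]) (.L 943)) (.L 1472)) (.L 1208)) (.L 30)) (.C 0 2 1 2
  (.C 1 3 2 1 (.C 0 3 4 1 (.G 554 3165 3 444475 444475 888951 3555804 [.n,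
  .n, .n, .g 45 64 0 0]) (.G 1491 3130 0 1321353 165169 330338 660677 [.n,
  .g 23 32 0 0, .n, .g 64 31 0 0])) (.C 0 3 2 1 (.C 0 1 4 1 (.L 2141) (.G
  3997 30 0 4657754 2328877 1164439 2328877 [.g 1 84 0 0, .g 1 68 0 0, .n,
  .n])) (.G 30 424 0 3325 3325 1662 1662 [.g 19 32 0 0, .n, .n, .n, .n,
  .n]))) (.L 271)))) (.L 1628))) (.G 987 640 0 1048576 8388607 2097152
  4194304 [.n, .n, .g 1 930 0 0, .g 1 977 0 0, .n, .n, .g 1 204 0 0, .g 1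
  214 0 0])) (.L 30)) (.G 640 271 3 34 68 34 137 [.g 64 27 0 0, .n, .n, .n,
  .n, .n])) (.L 640)) (.G 424 759 1 330 330 165 649 [.g 16 15 0 0, .n, .n,
  .n]))) (.L 252)) (.L 252))) (.L 252))) (.L 252)) (.L 271)) (.L 271))) (.L
  37))))) (.C 1 3 2 5 (.C 1 3 4 1 (.L 81) (.C 1 2 1 2 (.L 1039) (.L 1725)))
  (.L 118))) (.L 37)) (.L 37)) (.L 37)) (.C 2 3 2 5 (.C 2 3 4 1 (.C 1 2 1 1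
  (.C 1 2 2 1 (.L 66) (.C 1 2 1 2 (.L 24) (.L 30))) (.C 1 2 1 2 (.C 1 2 2 1
  (.C 1 3 4 1 (.C 1 3 8 1 (.C 0 1 312 1 (.C 1 2 2 1 (.C 1 2 4 1 (.C 1 3 8 1
  (.C 1 2 8 1 (.C 2 3 1 1 (.B 2 4 1 (.L 291) (.B 0 1 1 (.L 1146) (.L 291)))
  (.L 605)) (.C 1 2 1 2 (.L 1604) (.L 504))) (.L 217)) (.C 1 2 1 2 (.L 217)
  (.C 1 3 1 2 (.C 1 2 1 4 (.C 1 2 2 1 (.L 154) (.C 1 2 1 2 (.L 190) (.L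
  739))) (.L 270)) (.L 270)))) (.L 400)) (.B 2 4 1 (.C 0 2 2 1 (.C 1 2 8 1
  (.G 374 942 2 326497 163249 2611977 2611977 [.n, .n, .g 3 7 0 0, .g 51 64
  0 0, .g 64 19 0 0]) (.C 0 2 4 1 (.G 963 942 2 138370 1106963 1106963
  1106963 [.g 64 23 0 0, .n, .n, .n, .g 16 7 0 0]) (.C 1 2 1 2 (.G 513 1249
  1 470199 470199 940398 470199 [.n, .n, .n, .n, .g 64 15 0 0]) (.C 0 2 1 2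
  (.L 217) (.C 1 2 1 4 (.L 217) (.G 450 190 1 205756 411512 51439 102878
  [.n, .n, .n, .n, .n, .n, .g 13 32 0 0, .g 13 32 0 0])))))) (.B 1 1 4 (.C 0
  3 2 1 (.C 0 1 1 8 (.C 0 2 1 2 (.C 0 3 4 1 (.C 1 2 1 1 (.C 0 1 2 1 (.C 0 1
  4 1 (.L 2017) (.C 1 2 1 1 (.G 2973 1440 2 3139690 1569845 3139690 3139690
  [.n, .n, .n, .n, .n, .n, .g 64 61 0 0, .g 64 63 0 0]) (.L 2017))) (.G 766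
  424 1 1 1 1 1 [.n, .n, .n, .g 22 63 0 0])) (.L 2017)) (.L 652)) (.L 252))
  (.L 252)) (.L 252)) (.C 1 2 4 1 (.C 0 1 1 8 (.C 0 1 2 1 (.C 0 1 4 1 (.G
  3485 2170 1 62855 502841 62855 125710 [.n, .n, .n, .n, .n, .n, .n, .n, .g
  8 3 0 0, .g 64 25 0 0]) (.L 217)) (.G 2461 1249 1 940169 470084 235042
  470084 [.g 16 5 0 0, .n, .n, .n])) (.C 1 2 8 1 (.C 1 3 16 1 (.L 291) (.G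
  963 3876 4 635420 1270840 635420 635420 [.g 64 33 0 0, .n, .n, .n, .n]))
  (.G 3876 217 0 838114 838114 419057 838114 [.n, .n, .n, .n, .g 64 33 0
  0]))) (.C 1 2 1 2 (.C 1 2 2 1 (.C 0 1 1 1 (.C 0 1 2 1 (.L 720) (.G 948
  1220 0 1596010 798005 1596010 798005 [.n, .n, .n, .n, .g 1 3 0 0, .g 21 65
  0 0, .n, .n, .n, .n])) (.G 3741 1220 0 4194304 2097152 8388607 4194304 [.g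
  14 65 0 0, .n, .n, .n, .n, .n, .g 1 30 0 0, .g 1 31 0 0])) (.L 270)) (.L
  400))))) (.B 2 1 2 (.C 0 2 2 1 (.C 0 3 8 1 (.B 1 2 1 (.C 0 1 1 2 (.C 0 3
  16 1 (.C 0 1 2 1 (.C 0 2 4 1 (.B 0 1 4 (.G 268 305 3 15478 61911 123823
  495291 [.n, .n, .n, .g 4 3 0 0]) (.G 652 2717 0 2614 10454 20908 83633
  [.n, .n, .n, .g 63 64 0 0])) (.G 252 617 2 1 1 1 1 [.g 64 47 0 0, .n, .n,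
  .n])) (.L 252)) (.L 252)) (.L 37)) (.C 1 2 8 1 (.G 2028 305 3 69991 34995
  559924 1119849 [.g 8 3 0 0, .n, .n, .n]) (.C 0 2 4 1 (.G 305 268 3 69991
  559924 559924 1119849 [.n, .n, .n, .g 47 65 0 0]) (.C 1 2 1 2 (.L 504) (.C
  2 3 4 1 (.C 0 2 1 2 (.L 217) (.C 1 2 1 4 (.L 217) (.C 2 3 8 1 (.L 274) (.L
  190)))) (.L 217)))))) (.B 1 2 1 (.L 37) (.B 2 2 1 (.B 1 1 2 (.L 252) (.C 2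
  3 2 1 (.C 1 2 8 1 (.G 546 652 3 23062 721 11531 23062 [.n, .g 32 5 0 0, .g
  16 21 0 0, .n]) (.C 1 2 1 2 (.G 833 1249 1 1824863 912431 1824863 1824863
  [.g 64 25 0 0, .n, .n, .n, .n]) (.C 0 2 1 4 (.L 988) (.C 1 2 1 4 (.L 988)
  (.G 739 988 2 662241 662241 82780 331121 [.n, .n, .n, .n, .g 1 5 0 0, .g 2
  11 0 0]))))) (.L 40))) (.L 252)))) (.B 1 2 1 (.L 37) (.C 0 1 1 8 (.C 0 2 1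
  2 (.C 0 1 2 1 (.B 1 1 2 (.L 252) (.C 0 2 2 1 (.C 0 3 2 1 (.B 2 2 1 (.C 0 3
  4 1 (.C 1 2 1 1 (.C 0 1 4 1 (.L 274) (.C 1 2 2 1 (.G 4026 4036 2 3802489
  1901244 7604978 3802489 [.n, .n, .n, .n, .g 37 63 0 0, .g 36 65 0 0]) (.L
  274))) (.L 274)) (.L 424)) (.L 252)) (.L 424)) (.L 424))) (.L 424)) (.L
  252)) (.L 252)))) (.C 0 3 8 1 (.G 268 313 2 1376 688 2752 22019 [.g 11 16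
  0 0, .n, .n, .g 32 13 0 0]) (.L 37))))) (.L 1323)) (.L 759)) (.L 376)) (.L
  2212))) (.C 2 3 1 2 (.L 66) (.L 62))) (.C 1 3 2 5 (.C 1 3 4 1 (.L 62) (.C
  1 3 1 2 (.L 62) (.L 631))) (.L 685)))) (by decide +kernel)

theorem EN0_c16 : CoN ENTab ⟨⟨5, 15, 32⟩, ⟨5, 16, 32⟩, ⟨11, 31, 64⟩, ⟨1, 0,
  0, 0, 0⟩, ⟨148, 2, 0, 1, 0⟩, ⟨148, 2, 0, 0, 1⟩, ⟨52, 1, 1, 1, 0⟩⟩ :=
CoN.ofG ENTab_B ENBt_E ENBt_U (.C 0 3 64 1 (.B 1 2 1 (.L 37) (.C 0 1 160 1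
  (.B 2 1 2 (.C 0 2 160 1 (.C 2 3 2 5 (.C 0 3 1264 1 (.C 0 2 320 1 (.C 2 3 4
  1 (.C 1 2 2 1 (.L 66) (.C 1 2 1 2 (.C 2 3 2 1 (.C 1 2 2 1 (.L 24) (.C 1 2
  1 2 (.C 1 2 2 1 (.L 24) (.C 2 3 1 1 (.C 1 2 1 2 (.L 30) (.C 2 3 2 1 (.B 0
  1 1 (.L 76) (.C 1 3 1 1 (.L 1184) (.C 2 3 4 1 (.L 768) (.L 3768)))) (.L
  40))) (.L 30))) (.C 1 3 1 1 (.B 2 2 1 (.C 1 3 2 1 (.C 1 2 1 4 (.C 1 2 2 1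
  (.C 1 3 4 1 (.L 768) (.L 182)) (.L 182)) (.B 1 1 2 (.C 0 3 40632 1 (.C 0 2
  2544 1 (.C 0 1 20336 1 (.B 0 1 2 (.C 0 2 5088 1 (.C 2 3 8 1 (.C 1 2 1 4
  (.L 545) (.C 1 2 1 8 (.L 1669) (.L 214))) (.L 545)) (.G 974 738 0 11690
  46761 5845 93522 [.n, .n, .n, .n, .g 27 65 0 0, .g 25 63 0 0, .g 33 65 0
  0, .g 10 21 0 0])) (.B 1 2 1 (.L 398) (.C 0 2 5088 1 (.C 2 3 8 1 (.C 1 2 1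
  4 (.L 545) (.L 270)) (.L 602)) (.G 3229 398 1 126898 507593 63449 1015187
  [.g 64 5 0 0, .n, .n, .n, .g 1 2 0 0, .g 32 65 0 0])))) (.L 617)) (.L
  617)) (.L 617)) (.C 0 2 2544 1 (.C 2 3 8 1 (.C 1 2 1 4 (.L 545) (.C 1 2 1
  8 (.L 1669) (.L 214))) (.L 545)) (.C 0 1 4 1 (.C 0 3 8 1 (.C 1 2 1 16 (.C
  0 1 8 1 (.L 214) (.G 1611 2904 0 8388607 4194304 8388607 8388607 [.n, .n,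
  .g 64 55 0 0, .n])) (.L 214)) (.B 2 4 1 (.C 2 3 16 1 (.L 214) (.G 171 545
  2 8388607 4194304 8388607 4194304 [.g 4 13 0 0, .n, .n, .n])) (.L 581)))
  (.B 2 4 1 (.B 1 1 4 (.L 398) (.C 2 3 16 1 (.C 1 2 1 8 (.L 1407) (.L 274))
  (.L 465))) (.L 581)))))) (.C 1 3 1 2 (.C 1 2 1 16 (.B 0 1 2 (.L 465) (.C 1
  2 2 1 (.L 96) (.L 1160))) (.L 8)) (.L 8))) (.C 0 1 10160 1 (.C 0 1 20320 1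
  (.C 0 3 20312 1 (.C 0 2 2544 1 (.C 0 3 40624 1 (.C 0 2 5088 1 (.C 1 3 2 1
  (.C 1 2 1 4 (.B 0 1 1 (.L 182) (.B 1 2 1 (.L 313) (.L 182))) (.B 1 2 1 (.G
  37 738 3 1 1 1 1 [.n, .n, .g 64 19 0 0, .n]) (.B 0 4 1 (.B 2 1 2 (.B 1 1 4
  (.L 822) (.C 2 3 16 1 (.C 1 2 1 8 (.L 492) (.L 8)) (.L 492))) (.L 822))
  (.C 2 3 16 1 (.C 1 2 1 8 (.L 465) (.L 8)) (.L 465))))) (.C 1 3 1 2 (.B 0 1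
  1 (.B 1 1 1 (.L 581) (.B 2 1 2 (.C 1 2 1 16 (.L 492) (.L 8)) (.L 732)))
  (.C 1 2 1 16 (.B 1 2 1 (.L 313) (.L 465)) (.L 8))) (.L 8))) (.L 737)) (.L
  737)) (.L 737)) (.L 737)) (.L 737)) (.L 581))) (.L 8)))) (.L 24)) (.C 1 2
  1 4 (.L 376) (.L 2212)))) (.C 2 3 1 2 (.L 66) (.L 81))) (.B 1 1 2 (.L 37)
  (.B 2 2 1 (.B 2 4 1 (.B 1 1 4 (.L 1174) (.C 0 1 1 2 (.C 0 1 2 1 (.C 0 3 4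
  1 (.G 2205 225 0 509503 2022091 254752 4028259 [.n, .n, .g 1 5490 0 0, .g
  1 5953 0 0, .n, .n]) (.C 2 3 8 1 (.G 2234 225 0 1019522 511776 64476
  1019522 [.n, .n, .g 1 1105 0 0, .g 1 1231 0 0, .n, .n, .n, .n]) (.G 189
  1121 1 9084 4542 9084 4542 [.g 16 1 0 0, .n, .n, .n, .n, .n]))) (.C 1 2 1
  4 (.C 1 2 2 1 (.C 0 1 1 2 (.C 0 3 1 1 (.B 2 8 1 (.B 1 1 8 (.L 398) (.C 0 3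
  2 1 (.C 0 1 2 1 (.C 0 1 4 1 (.G 974 153 1 85589 684713 171178 342356 [.n,
  .n, .n, .n, .g 9 13 0 0, .g 41 63 0 0, .g 64 47 0 0, .g 64 51 0 0]) (.C 1
  3 1 1 (.L 182) (.C 2 3 2 1 (.L 182) (.G 3869 1015 0 6609228 6609228
  6609228 3304614 [.g 1 958 0 0, .n, .n, .n])))) (.G 3204 398 1 65313 32656
  32656 65313 [.n, .n, .g 64 13 0 0, .g 64 15 0 0, .n, .n, .n, .n, .n, .n]))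
  (.G 3204 398 1 68848 34424 34424 34424 [.n, .n, .g 128 25 0 0, .g 64 15 0
  0, .n, .n, .n, .n, .n, .n]))) (.L 398)) (.C 1 3 1 2 (.B 2 8 1 (.B 1 1 8
  (.L 398) (.C 2 3 2 1 (.G 1995 738 0 82792 82792 82792 331166 [.n, .n, .g
  64 15 0 0, .g 64 17 0 0, .n, .n, .n, .n]) (.G 196 456 0 12995 12995 51978
  25989 [.n, .g 5 71 0 0, .n, .n, .n, .n, .n, .n]))) (.L 398)) (.C 2 3 1 2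
  (.G 398 456 0 31 61 31 61 [.n, .g 25 32 0 0, .n, .n]) (.L 94)))) (.C 1 3 2
  1 (.B 1 1 8 (.L 617) (.B 2 8 1 (.B 1 1 16 (.L 398) (.B 2 16 1 (.C 2 3 1 1
  (.G 30 398 1 1008 252 1008 2000 [.g 64 11 0 0, .n, .n, .n, .n, .n]) (.G
  196 216 0 11476 2869 22772 11476 [.n, .g 5 61 0 0, .n, .n, .n, .n, .n,
  .n])) (.L 398))) (.L 617))) (.C 0 3 1 2 (.B 2 8 1 (.B 1 1 8 (.L 398) (.C 0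
  3 2 1 (.B 1 1 16 (.L 398) (.B 2 16 1 (.C 0 1 1 1 (.G 24 398 1 581 1163 581
  2325 [.g 64 11 0 0, .n, .n, .n, .n, .n]) (.G 456 398 1 123 61 61 245 [.g
  16 7 0 0, .n, .n, .n, .n, .n])) (.L 398))) (.G 216 398 1 134 34 34 67 [.g
  64 49 0 0, .n, .n, .n, .n, .n]))) (.L 398)) (.C 2 3 1 2 (.G 738 216 0 256
  128 128 256 [.g 16 15 0 0, .n, .n, .n]) (.L 94))))) (.C 1 2 1 2 (.C 1 2 2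
  1 (.C 1 3 1 2 (.B 2 8 1 (.B 1 1 8 (.L 398) (.C 0 1 2 1 (.G 1507 398 1
  13703 54811 109621 54811 [.n, .n, .n, .n, .g 64 57 0 0, .g 64 59 0 0, .g
  35 64 0 0, .g 34 65 0 0, .n, .n]) (.G 557 1286 2 7081 3541 14162 7081 [.n,
  .n, .n, .g 43 64 0 0]))) (.L 581)) (.G 2845 974 1 96213 384853 775720
  96213 [.n, .n, .n, .n, .n, .n, .n, .g 2 59 0 0])) (.L 8)) (.L 8))) (.C 2 3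
  8 1 (.G 3268 738 0 59863 59863 7542 119255 [.n, .n, .n, .n, .n, .n, .g 9
  16 0 0, .g 31 64 0 0, .n, .n]) (.G 245 1323 1 212361 212361 424722 212361
  [.n, .n, .g 1 38 0 0, .n])))) (.C 2 3 8 1 (.L 1174) (.C 1 3 8 1 (.L 1174)
  (.C 0 2 4 1 (.C 0 1 4 1 (.C 0 3 2 1 (.G 66 738 0 14187 113499 112612 56749
  [.n, .n, .g 43 63 0 0, .n]) (.C 1 2 1 1 (.G 219 81 1 204224 408448 816895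
  102112 [.n, .g 16 1 0 0, .n, .n, .n, .n, .n, .n]) (.G 94 738 0 13041 52165
  26083 6521 [.g 3 31 0 0, .g 5 33 0 0, .n, .n]))) (.C 1 2 2 1 (.L 62) (.C 0
  2 1 1 (.G 62 398 1 3868 7736 7736 967 [.n, .n, .g 3 4 0 0, .g 21 64 0 0,
  .n]) (.G 94 738 0 121609 121609 60804 15201 [.g 5 22 0 0, .g 23 65 0 0,
  .n, .n])))) (.C 1 2 1 1 (.C 0 1 1 2 (.G 94 398 1 14713 29426 14713 3678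
  [.g 3 13 0 0, .g 23 63 0 0, .n, .n]) (.G 81 738 0 33349 8337 16675 4169
  [.n, .g 17 63 0 0, .n, .n])) (.C 2 3 1 2 (.G 456 732 1 42 42 21 42 [.g 27
  64 0 0, .n, .n, .n, .n, .n]) (.G 94 398 1 22518 22518 22518 5629 [.g 23 65
  0 0, .g 4 7 0 0, .n, .n])))))))) (.L 581)) (.L 37)))) (.B 1 1 2 (.L 37)
  (.C 0 2 1 8 (.B 2 2 1 (.C 0 1 1 8 (.B 2 4 1 (.B 1 1 4 (.L 617) (.C 0 3 1 2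
  (.C 2 3 1 1 (.C 1 2 1 1 (.G 81 738 0 5926 11853 23706 23706 [.n, .g 5 13 0
  0, .n, .n]) (.C 0 2 2 1 (.L 94) (.G 456 1174 2 112 112 56 112 [.g 9 16 0
  0, .n, .n, .n, .n, .n]))) (.L 81)) (.L 617))) (.L 581)) (.L 1174)) (.L
  37)) (.L 581)))) (.C 1 3 2 5 (.L 62) (.C 1 3 1 10 (.L 118) (.C 2 3 1 10
  (.L 118) (.L 509))))) (.L 37)) (.L 37)) (.L 37))) (.L 60))
  (by decide +kernel)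

theorem EN0_c17 : CoN ENTab ⟨⟨5, 15, 32⟩, ⟨5, 16, 32⟩, ⟨3, 8, 16⟩, ⟨148, 2,
  0, 1, 0⟩, ⟨68, 2, 0, 1, 0⟩, ⟨148, 2, 0, 0, 1⟩, ⟨52, 1, 1, 1, 0⟩⟩ :=
CoN.ofG ENTab_B ENBt_E ENBt_U (.B 2 2 1 (.B 1 1 2 (.L 32) (.B 2 4 1 (.B 1 1
  4 (.L 37) (.C 2 3 2 5 (.C 1 2 2 1 (.C 1 2 4 1 (.L 62) (.C 2 3 2 1 (.L 66)
  (.L 62))) (.C 0 2 1 1 (.C 2 3 2 1 (.C 0 2 2 1 (.L 66) (.C 0 2 1 2 (.L 804)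
  (.C 2 3 4 1 (.G 24 30 1 219248 54812 54812 438497 [.n, .n, .g 1 60 0 0, .g
  1 66 0 0, .n, .n]) (.L 804)))) (.G 66 256 4 8382 16240 65485 32481 [.g 27
  64 0 0, .n, .n, .n])) (.C 1 2 1 2 (.C 1 3 2 1 (.C 0 1 1 1 (.C 1 3 2 1 (.B
  2 8 1 (.C 2 3 4 1 (.C 1 2 1 1 (.L 30) (.C 0 2 2 1 (.C 1 2 1 1 (.L 1864)
  (.C 0 2 4 1 (.L 1864) (.C 2 3 4 1 (.L 504) (.L 1864)))) (.G 640 652 3 205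
  205 102 813 [.g 64 9 0 0, .n, .g 6 13 0 0, .g 13 32 0 0, .n, .n]))) (.G 24
  30 1 22718 45436 360651 181745 [.n, .n, .g 7 60 0 0, .g 1 10 0 0, .n,
  .n])) (.C 0 3 8 1 (.C 0 1 2 1 (.B 2 1 2 (.C 0 1 4 1 (.C 0 3 16 1 (.B 2 2 1
  (.B 1 2 1 (.L 252) (.B 1 1 2 (.L 252) (.C 0 3 32 1 (.G 2936 424 0 4992
  39936 9984 319486 [.g 64 19 0 0, .g 64 15 0 0, .g 32 17 0 0, .g 64 9 0 0])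
  (.L 652)))) (.L 252)) (.L 252)) (.L 252)) (.L 252)) (.L 37)) (.L 37))) (.C
  2 3 2 1 (.C 1 2 1 4 (.G 24 30 1 29345 234757 465845 232923 [.n, .n, .g 7
  66 0 0, .g 6 65 0 0, .n, .n]) (.B 1 1 8 (.G 1889 766 3 3054 48476 6107
  24238 [.n, .n, .g 8 7 0 0, .n]) (.C 0 3 8 1 (.C 0 2 2 1 (.C 2 3 4 1 (.C 0
  2 4 1 (.L 291) (.C 1 2 1 4 (.L 291) (.G 731 3876 2 742035 2944952 371018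
  2944952 [.n, .g 33 64 0 0, .n, .n, .n]))) (.L 291)) (.G 640 652 3 801 3177
  400 3202 [.n, .n, .g 16 9 0 0, .g 64 41 0 0, .n, .n])) (.G 3357 652 3 2886
  2863 361 1443 [.n, .n, .g 64 21 0 0, .g 8 3 0 0, .n, .n, .g 8 7 0 0, .g 1
  1 0 0])))) (.C 0 3 4 1 (.C 0 1 8 1 (.G 24 30 1 43851 701615 348067 350807
  [.n, .n, .g 3 59 0 0, .g 3 67 0 0, .n, .n]) (.L 804)) (.L 1860)))) (.L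
  271)) (.C 2 3 1 1 (.C 1 2 1 2 (.C 0 1 4 1 (.G 471 456 0 447575 3580598
  3552625 1790299 [.g 3 70 0 0, .n, .n, .n, .g 1 3977 0 0, .g 1 4115 0 0,
  .n, .n]) (.L 1860)) (.C 2 3 2 1 (.C 0 1 8 1 (.C 1 2 1 8 (.C 1 2 2 1 (.L
  30) (.C 2 3 1 4 (.C 0 2 32 1 (.L 1871) (.G 2333 527 0 6459042 6459042
  3229521 6459042 [.g 1 57 0 0, .n, .n, .g 1 193 0 0])) (.L 30))) (.C 0 2 2
  1 (.C 2 3 2 1 (.B 2 8 1 (.B 2 16 1 (.C 0 2 4 1 (.G 3613 640 0 71904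
  2291951 575235 1145976 [.n, .g 1 276 0 0, .n, .g 2 59 0 0, .n]) (.L 640))
  (.B 2 1 2 (.C 0 2 4 1 (.C 0 1 32 1 (.G 1802 291 0 74399 4752254 595194
  1185739 [.n, .n, .n, .n, .n, .n, .g 16 1 0 0, .g 16 1 0 0]) (.L 1802)) (.L
  903)) (.C 0 1 32 1 (.G 942 252 1 28062 1792435 112246 447232 [.n, .n, .g
  16 3 0 0, .g 32 1 0 0, .n]) (.L 252)))) (.C 0 3 16 1 (.G 942 313 2 1668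
  53157 6671 53261 [.n, .n, .g 42 65 0 0, .n, .n]) (.L 252))) (.C 1 3 1 4
  (.C 0 1 32 1 (.L 1871) (.G 513 4034 2 8388607 4194304 2097152 8388607 [.g
  64 1 0 0, .g 16 3 0 0, .n, .n, .g 8 3 0 0])) (.L 30))) (.B 2 8 1 (.G 640
  652 3 367 2922 183 722 [.n, .n, .g 53 64 0 0, .g 23 32 0 0, .n, .n]) (.L
  37)))) (.G 640 766 3 3084 1542 385 1518 [.n, .n, .g 16 9 0 0, .g 64 41 0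
  0, .n, .n])) (.C 2 3 1 2 (.G 24 30 1 64319 510531 510531 1021061 [.n, .n,
  .g 1 51 0 0, .g 1 54 0 0, .n, .n]) (.L 471)))) (.C 0 3 2 1 (.C 0 1 4 1 (.C
  0 3 4 1 (.G 987 216 0 290551 2324405 1162202 2324405 [.g 3 70 0 0, .n, .n,
  .n, .g 1 3502 0 0, .g 1 3809 0 0, .n, .n]) (.L 3482)) (.L 272)) (.G 256 94
  3 97870 97870 97870 48935 [.n, .n, .n, .n, .g 64 27 0 0])))) (.C 0 2 1 2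
  (.C 0 2 2 1 (.B 2 8 1 (.C 0 3 2 1 (.C 0 2 4 1 (.B 2 16 1 (.G 640 1864 0
  64655 129311 517244 258622 [.g 256 1 0 0, .n, .n, .n, .n, .n]) (.B 0 1 2
  (.B 2 1 2 (.C 2 3 1 2 (.C 0 1 2 1 (.G 513 942 2 64636 258543 517085
  1034170 [.n, .g 32 15 0 0, .g 32 13 0 0, .n, .n]) (.G 2589 3002 1 276909
  138454 553817 1107635 [.n, .n, .g 64 27 0 0, .g 16 7 0 0, .n, .n])) (.C 1
  3 2 1 (.C 1 2 8 1 (.C 0 1 2 1 (.C 1 3 2 1 (.B 0 1 2 (.C 1 2 8 1 (.C 0 1 4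
  1 (.G 942 500 0 106882 855056 6827086 1703432 [.n, .n, .g 64 49 0 0, .n,
  .n]) (.L 500)) (.C 1 3 1 4 (.C 1 2 1 2 (.G 1802 1348 0 65729 4198412
  8388607 8384499 [.n, .n, .n, .n, .n, .n, .g 64 21 0 0, .g 32 11 0 0]) (.L
  1472)) (.L 1551))) (.C 0 2 32 1 (.G 3520 942 2 47012 188050 3002922 749261
  [.g 64 1 0 0, .n, .n, .n, .n, .n]) (.L 3520))) (.L 30)) (.G 640 652 3 471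
  236 3755 943 [.n, .n, .g 64 61 0 0, .g 59 64 0 0, .n, .n])) (.L 30)) (.G
  942 3520 0 64636 513045 1034170 258543 [.n, .n, .g 1 27 0 0, .n, .n])))
  (.C 1 2 4 1 (.C 0 1 2 1 (.C 2 3 1 4 (.C 0 2 16 1 (.G 424 942 2 1302 5209
  41671 41508 [.g 16 15 0 0, .n, .n, .n]) (.G 1249 766 3 181917 22740 90959
  180496 [.n, .n, .n, .g 64 25 0 0, .n])) (.G 942 424 0 1031 4122 32850 4122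
  [.n, .n, .g 38 63 0 0, .n, .n])) (.L 652)) (.C 0 1 16 1 (.C 0 2 8 1 (.L
  1864) (.C 2 3 1 2 (.L 513) (.L 1864))) (.C 1 3 1 4 (.C 0 1 1 2 (.L 217)
  (.C 1 2 1 2 (.C 1 3 2 1 (.B 1 2 1 (.L 252) (.C 1 2 2 1 (.L 252) (.C 0 1 1
  1 (.L 154) (.L 450)))) (.L 988)) (.L 988))) (.G 1761 963 0 766987 760995
  191747 95873 [.n, .n, .g 28 65 0 0, .n]))))) (.G 1761 640 0 57563 115126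
  460504 230252 [.n, .n, .g 1 237 0 0, .n]))) (.C 0 2 1 2 (.C 0 1 1 4 (.B 0
  1 2 (.B 2 16 1 (.L 640) (.C 2 3 1 4 (.G 2618 954 2 669046 1338092 1338092
  2676183 [.n, .n, .g 11 16 0 0, .g 42 65 0 0, .n, .n]) (.C 1 3 1 4 (.G 1220
  2852 0 600533 1201066 2402132 2402132 [.g 64 23 0 0, .n, .n, .n, .n]) (.G
  833 942 2 216062 857497 864249 108031 [.n, .n, .n, .g 32 11 0 0, .n]))))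
  (.L 3514)) (.L 2490)) (.L 2746))) (.L 3514)) (.B 1 2 1 (.L 652) (.B 2 1 2
  (.B 2 2 1 (.B 1 1 2 (.L 652) (.C 0 2 4 1 (.C 0 1 2 1 (.G 833 942 2 107300
  429199 858397 214599 [.n, .n, .g 16 11 0 0, .g 16 7 0 0, .n]) (.G 954 766
  3 6240 3120 12480 3120 [.n, .n, .g 64 35 0 0, .n])) (.C 0 3 1 4 (.C 0 2 1
  2 (.C 0 3 2 1 (.C 0 1 1 4 (.C 0 2 2 1 (.G 2852 954 2 520626 1041252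
  2082505 2082505 [.g 23 63 0 0, .n, .n, .n, .n, .n]) (.L 270)) (.L 3101))
  (.L 2490)) (.L 3770)) (.L 2746)))) (.L 652)) (.L 652)))) (.G 3620 2752 7
  441797 220898 220898 220898 [.n, .g 256 1 0 0, .n, .n, .n, .n, .n, .n]))
  (.G 245 1155 1 66784 65724 16961 65724 [.n, .n, .g 2 59 0 0, .n]))))) (.C
  1 3 3 4 (.L 62) (.C 0 3 2 5 (.G 1039 256 1 17163 53635 66508 68653 [.g 13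
  21 0 0, .g 13 62 0 0, .n, .n]) (.L 1725))))) (.L 37))) (.L 32))
  (by decide +kernel)

theorem EN0_c18 : CoN ENTab ⟨⟨5, 15, 32⟩, ⟨5, 16, 32⟩, ⟨3, 8, 16⟩, ⟨148, 2,
  0, 0, 1⟩, ⟨68, 2, 0, 1, 0⟩, ⟨68, 2, 0, 0, 1⟩, ⟨52, 1, 1, 1, 0⟩⟩ :=
CoN.ofG ENTab_B ENBt_E ENBt_U (.B 2 2 1 (.B 1 1 2 (.L 32) (.C 0 1 1 2 (.C 0
  2 1 2 (.B 2 4 1 (.B 1 1 4 (.L 37) (.C 0 3 2 5 (.C 0 1 2 1 (.C 2 3 2 1 (.G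
  759 245 2 42718 165531 85435 331061 [.n, .g 64 1 0 0, .n, .n, .n, .n, .n,
  .n]) (.C 0 3 4 1 (.G 245 759 1 41809 162009 324017 324017 [.n, .n, .g 3 70
  0 0, .n]) (.C 1 3 1 1 (.L 759) (.G 759 1825 1 2311390 2311390 2311390
  1155695 [.n, .n, .n, .n, .n, .n, .n, .g 1 87 0 0])))) (.C 2 3 2 1 (.L 766)
  (.B 2 8 1 (.C 1 3 2 1 (.L 271) (.B 2 16 1 (.C 2 3 1 2 (.L 271) (.B 1 1 8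
  (.L 271) (.C 1 3 1 2 (.L 271) (.G 640 1116 3 91995 367981 362231 91995
  [.n, .g 64 1 0 0, .n, .n, .n, .n])))) (.L 271))) (.L 37)))) (.C 0 2 1 2
  (.G 100 1942 0 82 41 163 8 [.g 64 13 0 0, .g 7 33 0 0, .n, .n]) (.L 37))))
  (.L 60)) (.L 37)) (.L 32))) (.L 32)) (by decide +kernel)

theorem EN0_c19 : CoN ENTab ⟨⟨3, 7, 16⟩, ⟨1, 4, 8⟩, ⟨3, 8, 16⟩, ⟨52, 1, 1,
  1, 0⟩, ⟨68, 2, 0, 1, 0⟩, ⟨68, 2, 0, 0, 1⟩, ⟨20, 1, 1, 1, 0⟩⟩ :=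
  CoN.ofG ENTab_B ENBt_E ENBt_U (.L 37) (by decide +kernel)

theorem EN0_c20 : CoN ENTab ⟨⟨3, 7, 16⟩, ⟨1, 4, 8⟩, ⟨3, 8, 16⟩, ⟨68, 2, 0,
  1, 0⟩, ⟨28, 2, 0, 1, 0⟩, ⟨68, 2, 0, 0, 1⟩, ⟨20, 1, 1, 1, 0⟩⟩ :=
  CoN.ofG ENTab_B ENBt_E ENBt_U (.L 32) (by decide +kernel)

theorem EN0_c21 : CoN ENTab ⟨⟨3, 7, 16⟩, ⟨1, 4, 8⟩, ⟨3, 8, 16⟩, ⟨68, 2, 0,
  0, 1⟩, ⟨28, 2, 0, 1, 0⟩, ⟨28, 2, 0, 0, 1⟩, ⟨20, 1, 1, 1, 0⟩⟩ :=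
  CoN.ofG ENTab_B ENBt_E ENBt_U (.L 32) (by decide +kernel)

theorem EN0_c22 : CoN ENTab ⟨⟨3, 7, 16⟩, ⟨3, 8, 16⟩, ⟨1, 2, 4⟩, ⟨1, 0, 0, 0,
  0⟩, ⟨28, 2, 0, 1, 0⟩, ⟨68, 2, 0, 0, 1⟩, ⟨20, 1, 1, 1, 0⟩⟩ :=
CoN.ofG ENTab_B ENBt_E ENBt_U (.C 2 3 2 5 (.C 1 2 2 1 (.C 2 3 2 1 (.L 66)
  (.L 62)) (.C 1 2 1 2 (.C 2 3 1 1 (.C 1 2 2 1 (.C 2 3 1 1 (.C 1 2 4 1 (.L
  147) (.C 2 3 2 1 (.C 1 2 1 2 (.L 1720) (.B 2 4 1 (.C 1 3 1 1 (.B 2 8 1 (.B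
  2 16 1 (.C 1 2 1 4 (.L 1633) (.L 2884)) (.L 297)) (.L 297)) (.L 680)) (.L
  30))) (.L 147))) (.L 216)) (.C 1 3 1 1 (.C 1 3 2 1 (.B 0 1 1 (.B 2 4 1 (.C
  2 3 8 1 (.C 1 2 1 2 (.B 1 1 8 (.L 393) (.B 2 8 1 (.C 1 2 2 1 (.L 2084) (.B
  2 16 1 (.B 1 1 16 (.L 1146) (.C 1 3 2 1 (.C 1 2 1 2 (.L 605) (.L 910)) (.L
  910))) (.L 1146))) (.L 393))) (.C 1 2 1 4 (.B 2 8 1 (.C 1 2 2 1 (.B 1 1 8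
  (.L 1125) (.B 2 16 1 (.B 1 1 16 (.L 768) (.L 1952)) (.L 768))) (.B 1 1 8
  (.L 182) (.L 500))) (.C 2 3 2 1 (.C 1 2 2 1 (.C 1 2 4 1 (.L 40) (.L 182))
  (.L 182)) (.L 76))) (.C 2 3 16 1 (.C 1 2 1 8 (.B 2 8 1 (.B 1 1 8 (.C 1 2 2
  1 (.L 227) (.B 1 2 1 (.B 0 1 2 (.C 2 3 2 1 (.C 1 2 1 2 (.B 0 2 1 (.L 751)
  (.L 354)) (.L 35)) (.L 190)) (.L 384)) (.B 1 1 2 (.C 2 3 2 1 (.L 751) (.L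
  1675)) (.B 1 1 4 (.L 1215) (.L 387))))) (.C 1 2 2 1 (.L 154) (.C 2 3 2 1
  (.L 274) (.L 602)))) (.C 1 2 2 1 (.L 227) (.B 2 1 2 (.B 1 2 1 (.L 384) (.B
  2 2 1 (.C 2 3 2 1 (.C 1 2 1 2 (.C 1 2 2 1 (.L 190) (.L 1558)) (.L 35)) (.L
  190)) (.L 929))) (.L 377)))) (.C 2 3 32 1 (.L 8) (.C 2 3 1 2 (.L 8) (.B 2
  8 1 (.B 1 1 8 (.C 1 3 2 1 (.L 35) (.B 1 2 1 (.B 0 1 2 (.C 2 3 1 4 (.L 35)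
  (.L 190)) (.L 501)) (.B 1 1 2 (.C 2 3 1 4 (.L 35) (.L 1675)) (.L 1516))))
  (.C 1 3 2 1 (.L 274) (.B 2 16 1 (.C 2 3 1 4 (.L 214) (.L 602)) (.L 492))))
  (.B 2 1 2 (.B 1 2 1 (.L 384) (.C 1 3 2 1 (.L 35) (.B 2 2 1 (.C 2 3 1 4 (.L
  35) (.L 190)) (.L 929)))) (.L 377)))))) (.C 2 3 1 2 (.B 2 8 1 (.B 1 1 8
  (.L 340) (.L 2340)) (.L 340)) (.C 1 3 2 1 (.L 182) (.L 833)))))) (.B 1 1 8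
  (.L 24) (.B 2 8 1 (.C 2 3 1 2 (.C 1 2 8 1 (.L 105) (.B 1 1 16 (.L 1146)
  (.B 2 16 1 (.C 2 3 2 1 (.L 943) (.L 167)) (.L 1146)))) (.L 105)) (.L
  24)))) (.C 2 3 8 1 (.C 1 2 1 2 (.L 188) (.C 2 3 16 1 (.C 1 2 1 4 (.C 1 2 2
  1 (.L 1957) (.C 1 2 1 2 (.L 1676) (.C 1 2 1 4 (.L 997) (.C 2 3 4 1 (.C 2 3
  8 1 (.B 0 2 1 (.B 2 1 2 (.B 2 2 1 (.B 1 1 2 (.L 188) (.L 500)) (.L 188))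
  (.L 188)) (.B 0 1 2 (.B 2 2 1 (.L 500) (.L 188)) (.L 500))) (.L 3690)) (.L
  997))))) (.C 1 2 1 8 (.C 1 2 2 1 (.C 1 3 4 1 (.C 1 2 4 1 (.B 0 2 1 (.L
  3258) (.L 802)) (.L 1036)) (.L 1036)) (.L 813)) (.L 813))) (.L 1676))) (.L
  188))) (.C 2 3 8 1 (.C 1 2 1 2 (.C 1 2 2 1 (.L 1658) (.C 1 2 1 2 (.C 1 2 2
  1 (.L 30) (.B 0 1 2 (.B 2 8 1 (.L 605) (.L 24)) (.L 605))) (.B 0 1 2 (.B 2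
  8 1 (.B 1 1 16 (.L 1184) (.B 2 16 1 (.L 910) (.L 1184))) (.L 2028)) (.B 0
  1 4 (.B 2 16 1 (.L 910) (.L 1184)) (.L 1864))))) (.C 1 2 1 4 (.C 1 2 2 1
  (.B 0 1 2 (.B 2 8 1 (.B 2 16 1 (.B 1 1 16 (.L 768) (.L 1952)) (.L 768))
  (.L 1125)) (.B 0 1 4 (.B 2 16 1 (.L 1952) (.L 768)) (.L 1952))) (.B 0 1 2
  (.B 2 8 1 (.L 500) (.L 182)) (.L 504))) (.C 2 3 16 1 (.C 2 3 32 1 (.C 1 2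
  1 8 (.B 0 1 2 (.C 1 2 2 1 (.C 1 3 8 1 (.P (.ofNat 1) (.ofNat 10)) (.B 2 8
  1 (.L 274) (.B 0 2 1 (.B 2 1 2 (.L 751) (.L 1394)) (.L 682)))) (.B 2 8 1
  (.L 274) (.C 1 3 2 1 (.P (.ofNat 1) (.ofNat 9)) (.L 8)))) (.C 1 2 2 1 (.C
  1 3 8 1 (.P (.ofNat 1) (.ofNat 10)) (.L 274)) (.L 274))) (.L 8)) (.C 1 2 8
  1 (.B 0 1 2 (.B 2 8 1 (.L 154) (.B 0 2 1 (.L 227) (.L 896))) (.L 873)) (.B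
  0 1 2 (.B 2 8 1 (.C 2 3 1 2 (.L 274) (.C 2 3 1 4 (.B 2 16 1 (.L 289) (.L
  609)) (.L 602))) (.B 0 2 1 (.B 2 1 2 (.C 2 3 1 2 (.L 2922) (.C 2 3 1 4 (.B
  2 2 1 (.B 1 1 2 (.L 35) (.L 1516)) (.L 35)) (.L 2077))) (.L 1394)) (.C 2 3
  1 2 (.L 682) (.B 0 1 2 (.C 2 3 1 4 (.B 2 2 1 (.L 387) (.L 441)) (.L 896))
  (.L 387))))) (.C 2 3 1 2 (.L 274) (.C 2 3 1 4 (.L 1436) (.L 154)))))) (.B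
  0 1 2 (.B 2 8 1 (.L 963) (.C 2 3 1 2 (.L 340) (.L 182))) (.C 2 3 1 2 (.L
  873) (.L 504)))))) (.B 2 8 1 (.C 2 3 1 2 (.B 2 16 1 (.C 0 1 600 1 (.B 2 32
  1 (.C 2 3 2 1 (.L 1216) (.L 167)) (.L 30)) (.L 1015)) (.L 30)) (.L 105))
  (.L 30)))) (.C 2 3 4 1 (.C 1 2 1 8 (.B 2 4 1 (.B 2 8 1 (.B 2 16 1 (.B 2 32
  1 (.C 1 2 2 1 (.B 2 64 1 (.C 1 3 1 1 (.L 105) (.C 1 3 1 2 (.L 3364) (.L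
  167))) (.L 297)) (.C 1 2 1 2 (.L 167) (.L 1472))) (.L 30)) (.L 30)) (.L
  30)) (.L 30)) (.C 2 3 8 1 (.C 1 2 1 16 (.B 0 1 1 (.B 2 4 1 (.C 1 2 2 1 (.B
  2 8 1 (.C 1 3 1 1 (.L 833) (.C 2 3 1 4 (.L 500) (.B 1 1 8 (.C 1 3 1 2 (.L
  500) (.B 1 2 1 (.L 865) (.L 331))) (.C 1 3 1 2 (.L 217) (.C 2 3 1 8 (.L
  154) (.B 2 16 1 (.C 1 3 1 4 (.L 154) (.L 289)) (.L 492))))))) (.L 865))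
  (.C 1 3 1 4 (.B 2 8 1 (.B 1 1 8 (.L 340) (.L 2340)) (.L 340)) (.B 2 8 1
  (.B 1 1 8 (.C 1 3 1 8 (.L 227) (.C 2 3 1 2 (.L 227) (.L 164))) (.C 1 3 1 8
  (.L 154) (.B 2 16 1 (.C 2 3 1 2 (.L 602) (.L 289)) (.L 492)))) (.C 2 3 1 2
  (.L 227) (.B 2 1 2 (.B 1 2 1 (.L 797) (.C 1 2 1 2 (.L 331) (.C 1 3 1 16
  (.L 810) (.L 35)))) (.L 1394)))))) (.L 1676)) (.C 1 3 1 1 (.B 0 1 2 (.C 1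
  2 2 1 (.L 833) (.B 2 8 1 (.L 2340) (.L 340))) (.C 1 2 2 1 (.L 504) (.L
  873))) (.B 0 1 2 (.B 2 8 1 (.C 1 3 1 2 (.L 190) (.C 1 3 1 4 (.L 154) (.C 2
  3 1 2 (.L 602) (.L 289)))) (.C 1 3 1 2 (.L 340) (.C 1 3 1 4 (.L 227) (.C 2
  3 1 2 (.B 0 2 1 (.L 227) (.L 896)) (.L 164))))) (.C 1 3 1 2 (.L 873) (.C 2
  3 1 2 (.L 154) (.C 1 3 1 4 (.L 154) (.L 720))))))) (.C 1 2 1 32 (.B 0 1 1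
  (.B 2 4 1 (.C 1 2 2 1 (.B 2 8 1 (.B 1 1 8 (.C 1 2 4 1 (.C 1 3 1 2 (.L 227)
  (.L 164)) (.L 164)) (.B 2 16 1 (.C 1 2 4 1 (.C 1 3 1 2 (.L 602) (.L 214))
  (.L 214)) (.L 492))) (.B 2 1 2 (.B 1 2 1 (.L 501) (.C 1 3 1 2 (.C 1 2 4 1
  (.L 810) (.L 35)) (.L 35))) (.L 2616))) (.L 8)) (.L 813)) (.B 0 1 2 (.C 1
  2 2 1 (.B 2 8 1 (.B 2 16 1 (.B 1 1 16 (.L 1611) (.C 1 2 4 1 (.C 1 3 1 2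
  (.L 602) (.L 720)) (.L 720))) (.L 609)) (.C 1 2 4 1 (.C 1 3 1 2 (.B 0 2 1
  (.L 227) (.L 896)) (.L 164)) (.L 164))) (.L 8)) (.C 1 2 2 1 (.C 1 2 4 1
  (.C 1 3 1 2 (.L 154) (.L 720)) (.L 720)) (.L 8)))) (.L 8))) (.C 2 3 1 2
  (.B 0 1 1 (.B 2 4 1 (.B 2 8 1 (.C 1 2 1 1 (.B 1 1 8 (.L 740) (.L 500)) (.B
  1 1 8 (.C 2 3 2 1 (.B 1 2 1 (.L 865) (.L 937)) (.L 340)) (.C 1 2 1 2 (.L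
  217) (.C 2 3 2 1 (.C 1 2 1 4 (.L 154) (.L 1696)) (.L 154))))) (.L 865))
  (.L 24)) (.C 1 2 1 1 (.C 1 3 2 1 (.B 0 1 2 (.L 833) (.L 504)) (.L 740))
  (.B 0 1 2 (.B 2 8 1 (.C 1 2 1 2 (.L 217) (.C 2 3 2 1 (.C 1 2 1 4 (.L 154)
  (.L 289)) (.L 154))) (.C 2 3 2 1 (.C 1 2 1 2 (.L 1473) (.C 2 3 4 1 (.C 1 2
  1 4 (.L 40) (.L 164)) (.L 76))) (.L 1473))) (.C 1 2 1 2 (.L 217) (.C 2 3 2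
  1 (.C 1 2 1 4 (.L 154) (.L 720)) (.L 154)))))) (.L 30)))) (.C 2 3 1 2 (.B
  2 4 1 (.B 2 8 1 (.C 1 2 1 1 (.L 105) (.B 2 16 1 (.C 1 2 1 2 (.L 910) (.C 2
  3 2 1 (.L 504) (.L 1952))) (.L 297))) (.L 30)) (.L 30)) (.L 579)))) (.C 2
  3 2 1 (.C 1 2 1 4 (.C 1 2 2 1 (.L 1854) (.B 2 4 1 (.B 2 8 1 (.B 2 16 1 (.C
  0 3 1192 1 (.B 2 32 1 (.B 2 64 1 (.C 1 3 1 2 (.L 504) (.C 2 3 1 1 (.L 504)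
  (.C 1 2 1 2 (.L 858) (.C 2 3 1 2 (.L 403) (.C 2 3 1 4 (.L 1928) (.L
  858)))))) (.L 297)) (.L 297)) (.L 297)) (.L 297)) (.L 30)) (.L 30))) (.C 1
  2 1 8 (.B 0 1 1 (.B 2 4 1 (.C 2 3 1 4 (.C 1 2 2 1 (.L 30) (.C 2 3 2 1 (.B
  2 8 1 (.C 1 3 2 1 (.B 1 1 8 (.C 1 2 1 2 (.L 227) (.L 35)) (.B 2 16 1 (.C 1
  2 1 2 (.L 154) (.L 289)) (.L 492))) (.L 214)) (.L 865)) (.B 2 8 1 (.B 1 1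
  8 (.L 24) (.L 374)) (.L 24)))) (.B 1 1 8 (.L 24) (.B 2 8 1 (.B 1 1 16 (.L
  24) (.B 2 16 1 (.C 0 3 1192 1 (.B 2 32 1 (.B 1 1 32 (.L 297) (.C 1 3 1 1
  (.L 1472) (.C 1 3 1 2 (.C 1 2 2 1 (.L 167) (.L 4077)) (.L 270)))) (.L
  297)) (.L 297)) (.L 24))) (.L 24)))) (.L 24)) (.C 2 3 1 4 (.C 1 2 2 1 (.L
  30) (.C 1 3 1 1 (.C 2 3 4 1 (.B 0 1 2 (.B 2 8 1 (.C 1 2 1 2 (.C 1 3 4 1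
  (.L 154) (.L 289)) (.L 289)) (.C 1 2 1 2 (.L 24) (.L 164))) (.C 1 3 4 1
  (.C 1 2 1 2 (.L 154) (.L 720)) (.L 720))) (.C 2 3 1 2 (.B 2 8 1 (.C 1 2 4
  1 (.C 0 2 76928 1 (.B 2 16 1 (.L 153) (.L 576)) (.L 826)) (.L 400)) (.B 0
  1 2 (.L 24) (.B 1 4 1 (.B 0 1 4 (.L 30) (.C 2 3 2 1 (.B 0 1 8 (.L 40) (.C
  1 2 4 1 (.L 1249) (.L 720))) (.L 30))) (.L 2034)))) (.L 30))) (.L 214)))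
  (.B 2 8 1 (.C 0 3 1192 1 (.B 2 16 1 (.B 2 32 1 (.C 1 3 1 1 (.L 1472) (.C 1
  3 1 2 (.C 1 2 2 1 (.L 167) (.L 270)) (.L 400))) (.L 297)) (.L 297)) (.L
  297)) (.L 30)))) (.L 8))) (.C 2 3 1 2 (.L 196) (.L 216))))) (.C 1 3 2 1
  (.L 66) (.C 2 3 1 2 (.C 2 3 2 1 (.L 1860) (.L 62)) (.L 62)))) (.C 2 3 4 1
  (.C 1 2 1 4 (.L 376) (.L 245)) (.C 1 3 1 1 (.C 1 2 2 1 (.B 2 4 1 (.L 1406)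
  (.L 8)) (.C 1 3 1 2 (.C 1 2 1 2 (.L 222) (.C 1 2 1 4 (.L 222) (.L 147)))
  (.L 216))) (.C 2 3 1 2 (.C 2 3 2 1 (.L 216) (.L 94)) (.C 1 3 1 2 (.B 2 4 1
  (.C 1 3 2 1 (.L 94) (.L 62)) (.L 94)) (.L 119))))))) (.C 1 3 3 4 (.C 2 3 4
  5 (.L 62) (.B 2 4 1 (.B 2 8 1 (.L 875) (.L 62)) (.L 62))) (.B 2 4 1 (.L
  1725) (.B 0 1 1 (.B 2 1 2 (.L 100) (.C 0 1 248 1 (.C 1 3 1 16 (.C 1 3 2 1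
  (.L 62) (.B 2 1 4 (.L 118) (.B 0 2 1 (.C 0 2 304 1 (.B 2 1 8 (.L 212) (.B
  0 4 1 (.C 0 3 1008 1 (.C 1 3 1 1 (.L 118) (.C 1 3 1 2 (.L 212) (.C 1 3 1 4
  (.L 212) (.B 0 8 1 (.B 2 1 16 (.L 118) (.C 2 3 7 2 (.L 256) (.L 449))) (.L
  118))))) (.C 0 1 1 1 (.C 2 3 5 3 (.G 1674 256 1 34736 69473 10486 104864
  [.n, .g 32 13 0 0, .n, .n, .n, .n, .n, .n]) (.L 1506)) (.G 2856 172 0 1003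
  502 151 256 [.n, .n, .n, .g 32 7 0 0]))) (.L 212))) (.G 464 1274 3 152 500
  76 252 [.g 7 69 0 0, .n, .n, .n, .n])) (.L 118)))) (.C 0 1 1008 1 (.C 1 2
  1 7 (.C 1 2 2 1 (.C 2 3 1 256 (.L 1674) (.L 509)) (.C 1 3 1 256 (.C 2 3 4
  1 (.L 191) (.L 1674)) (.L 282))) (.L 282)) (.C 0 3 1 63 (.C 0 2 1 7 (.B 0
  2 1 (.C 2 3 1 1 (.G 449 191 0 29128 14564 60077 118334 [.n, .g 64 53 0 0,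
  .n, .n, .n, .n]) (.L 713)) (.L 212)) (.G 1274 60 3 934 227 69 908 [.n, .n,
  .n, .g 32 9 0 0])) (.G 313 732 1 1 1 1 1 [.n, .n, .n, .g 32 9 0 0])))) (.G
  840 71 2 85 43 52 5 [.n, .n, .g 8 3 0 0, .n]))) (.L 100)))))
  (by decide +kernel)

theorem EN0_c23 : CoN ENTab ⟨⟨7, 15, 32⟩, ⟨13, 31, 64⟩, ⟨7, 16, 32⟩, ⟨68, 2,
  0, 0, 1⟩, ⟨260, 10, 0, 2, 3⟩, ⟨124, 6, 0, 0, 3⟩, ⟨236, 9, 5, 5, 2⟩⟩ :=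
CoN.ofG ENTab_B ENBt_E ENBt_U (.C 2 3 2 1 (.G 3268 189 0 242501 924535
  485002 1818758 [.n, .n, .n, .n, .n, .n, .g 2 5023 0 0, .g 1 2941 0 0, .n,
  .n]) (.C 0 3 4 1 (.G 245 222 1 38068 145135 285511 285511 [.n, .n, .g 2
  271 0 0, .n]) (.C 1 3 1 1 (.G 225 1121 1 5714 2857 5714 5714 [.g 16 1 0 0,
  .n, .n, .n, .n, .n]) (.C 2 3 1 2 (.G 456 225 0 953 953 953 1906 [.g 27 32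
  0 0, .n, .n, .n, .n, .n]) (.C 0 3 1 2 (.L 66) (.G 94 100 1 235750 119746
  232008 59873 [.n, .n, .n, .g 35 64 0 0])))))) (by decide +kernel)

end Pool.Agent.TET.Cvr
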