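import Pool.Agent.Helper37_TET.ENBt

/-!
# MP_c7c9bf_co: cover of the charts, root 0 part 7
-/

set_option autoImplicit false
set_option maxRecDepth 100000

namespace Pool.Agent.TET.Cvr

theorem EN0_c152 : CoN ENTab ⟨⟨3, 3, 8⟩, ⟨3, 4, 8⟩, ⟨7, 7, 16⟩, ⟨28, 2, 0,
  0, 1⟩, ⟨28, 2, 0, 1, 0⟩, ⟨8, 2, 0, 0, 1⟩, ⟨40, 10, 4, 4, 3⟩⟩ :=
CoN.ofG ENTab_B ENBt_E ENBt_U (.C 1 2 1 2 (.C 0 1 1 1 (.C 0 1 5 3 (.C 0 3 5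
  2 (.C 0 2 5 3 (.C 0 1 10 1 (.C 0 3 10 1 (.B 0 1 1 (.L 668) (.B 0 1 2 (.C 0
  2 10 1 (.C 0 3 20 1 (.P (.ofNat 1) (.ofNat 2)) (.L 67)) (.L 67)) (.B 1 2 1
  (.L 189) (.C 0 2 10 1 (.C 0 3 20 1 (.P (.ofNat 1) (.ofNat 2)) (.L 67)) (.L
  67))))) (.G 962 67 1 6380 6574 3287 3093 [.n, .g 64 1 0 0, .n, .g 1 2 0
  0])) (.G 67 962 3 6157 3078 3078 2897 [.n, .g 64 19 0 0, .g 32 1 0 0,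
  .n])) (.G 628 169 0 1170 1170 203 1081 [.n, .g 3 4 0 0, .n, .n, .n, .n,
  .n, .n, .n, .n])) (.G 222 404 0 458077 495801 86226 118561 [.g 25 63 0 0,
  .n, .n, .n, .n, .n, .g 2 1111 0 0, .g 1 689 0 0, .n, .n])) (.B 0 1 1 (.L
  163) (.C 0 3 1 4 (.C 0 1 1 6 (.L 628) (.C 1 2 1 1 (.B 1 2 1 (.B 0 1 2 (.G
  163 923 1 9182 781 1563 8498 [.g 23 64 0 0, .n, .n, .n, .n, .n, .n, .n])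
  (.C 1 3 11 1 (.C 0 3 2 1 (.B 1 4 1 (.C 0 1 1 12 (.C 0 1 2 1 (.L 8) (.C 1 2
  1 12 (.C 1 3 2 1 (.B 0 1 4 (.B 1 1 1 (.C 1 2 2 1 (.G 1542 260 5 185 93 371
  365 [.n, .n, .n, .n, .g 15 62 0 0, .g 2 9 0 0]) (.L 491)) (.L 371)) (.C 0
  2 1 1 (.B 0 1 8 (.B 1 1 2 (.C 0 3 2 1 (.G 924 1167 7 329 165 658 1296 [.n,
  .n, .n, .n, .g 21 64 0 0, .g 20 63 0 0]) (.B 1 2 1 (.G 3496 260 5 1 1 1 1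
  [.g 31 64 0 0, .n, .g 16 63 0 0, .g 17 65 0 0, .n, .n]) (.L 371))) (.G
  1789 1449 7 1 1 1 1 [.n, .g 256 1 0 0, .n, .n, .n, .g 49 64 0 0, .n, .n]))
  (.G 3778 117 5 1 1 1 1 [.n, .g 1 4 0 0, .n, .n, .n, .n, .g 64 59 0 0, .g 3
  4 0 0])) (.B 1 8 1 (.C 1 2 2 1 (.B 0 1 8 (.G 1932 802 3 140 35 140 138
  [.n, .n, .n, .n, .g 64 25 0 0, .g 16 5 0 0]) (.G 1030 339 5 1 1 1 1 [.n,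
  .n, .n, .n, .n, .n, .g 64 41 0 0, .g 32 25 0 0])) (.L 1728)) (.L 371))))
  (.L 8)) (.L 8))) (.B 0 1 4 (.G 53 411 1 1 1 1 1 [.n, .n, .n, .n, .n, .g 2
  71 0 0]) (.C 0 2 1 12 (.B 1 8 1 (.C 1 2 48 1 (.C 0 3 2 1 (.C 1 3 93 1 (.C
  0 1 1 24 (.G 887 182 0 1073742 2147483 4294967 8388607 [.n, .g 29 32 0 0,
  .n, .n, .n]) (.G 603 268 3 1936356 40552 3882851 7542666 [.n, .n, .n, .g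
  64 9 0 0])) (.C 2 3 1 1 (.L 217) (.C 1 3 1 2 (.L 217) (.C 0 3 4 1 (.L 190)
  (.G 260 117 5 1 1 1 1 [.n, .g 64 1 0 0, .n, .n, .g 5 8 0 0, .g 36 65 0
  0]))))) (.B 0 1 8 (.L 505) (.C 1 3 45 1 (.B 1 16 1 (.B 0 1 16 (.L 371) (.C
  1 3 90 1 (.C 1 2 96 1 (.B 1 32 1 (.G 1795 2754 0 1488 16 3068 2887 [.n,
  .n, .n, .n, .g 1 7762 0 0, .g 1 10150 0 0]) (.L 371)) (.L 319)) (.L 319)))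
  (.L 540)) (.L 339)))) (.B 0 1 8 (.G 371 802 3 557 2227 1114 1079 [.n, .n,
  .n, .n, .n, .g 64 53 0 0, .n, .n, .n, .g 33 65 0 0]) (.G 557 117 5 524
  2096 1048 1015 [.g 64 3 0 0, .n, .n, .g 32 15 0 0]))) (.L 371)) (.B 1 8 1
  (.C 1 2 2 1 (.B 0 1 8 (.L 505) (.B 1 16 1 (.C 0 1 1 48 (.L 339) (.C 1 3 45
  1 (.G 268 1283 2 4707273 49162 196648 4446099 [.g 2 1 0 0, .n, .n, .g 32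
  15 0 0]) (.L 339))) (.L 540))) (.L 365)) (.L 53))))) (.G 53 180 1 1 1 1 1
  [.n, .n, .n, .n, .n, .g 1 124 0 0])) (.B 1 4 1 (.C 1 3 22 1 (.B 0 1 4 (.L
  53) (.B 1 8 1 (.C 1 3 44 1 (.C 1 2 2 1 (.B 0 1 8 (.L 505) (.B 1 16 1 (.C 0
  1 1 45 (.L 371) (.G 371 1283 2 1447 16 64 1406 [.n, .n, .n, .n, .n, .n,
  .n, .n, .n, .g 35 64 0 0])) (.L 540))) (.G 365 53 5 1 1 1 1 [.n, .n, .n,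
  .n, .g 31 32 0 0, .g 38 63 0 0])) (.L 53)) (.L 53))) (.L 53)) (.L 203)))
  (.L 8))) (.G 163 24 0 9182 781 1563 8498 [.g 8 21 0 0, .n, .n, .n, .n, .n,
  .n, .n])) (.L 376))) (.C 2 3 4 3 (.C 1 2 1 1 (.B 1 2 1 (.C 0 1 1 11 (.G
  1656 837 0 562115 1130691 103377 407049 [.n, .n, .n, .n, .n, .n, .g 1 41 0
  0, .g 1 57 0 0]) (.C 2 3 4 1 (.B 0 1 2 (.G 30 923 1 36081 1649 3299 26082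
  [.g 3 76 0 0, .n, .n, .n, .n, .n]) (.C 1 3 16 1 (.B 1 4 1 (.C 0 1 1 22 (.L
  203) (.C 1 3 32 1 (.B 0 1 4 (.L 53) (.B 1 8 1 (.C 1 2 2 1 (.G 1283 371 9
  702 16 64 1021 [.g 64 11 0 0, .n, .g 32 15 0 0, .g 16 1 0 0]) (.L 365))
  (.L 53))) (.L 203))) (.L 203)) (.G 837 30 0 1074372 1565513 98228 779687
  [.n, .n, .n, .n, .n, .g 1 51 0 0, .n, .n]))) (.C 1 3 8 1 (.C 0 1 1 22 (.L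
  30) (.G 998 30 2 4894421 111554 1763944 1763944 [.g 64 17 0 0, .g 64 1 0
  0, .n, .n, .n, .n])) (.L 8)))) (.G 163 24 0 14645 1347 2693 10521 [.g 3 8
  0 0, .n, .n, .n, .n, .n, .n, .n])) (.L 376)) (.B 0 1 2 (.L 188) (.B 1 2 1
  (.C 1 3 4 3 (.C 1 3 8 1 (.C 1 2 8 1 (.C 0 1 1 11 (.L 233) (.B 1 4 1 (.C 1
  2 16 1 (.G 30 1420 5 350 16 509 259 [.n, .n, .g 64 7 0 0, .g 64 7 0 0, .n,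
  .n]) (.L 203)) (.L 188))) (.L 233)) (.L 147)) (.L 216)) (.L 188))))))) (.C
  1 2 5 3 (.C 0 1 3 5 (.C 0 3 4 3 (.B 0 1 1 (.G 196 272 3 99608 572747
  541620 815542 [.n, .g 128 1 0 0, .n, .n, .n, .n, .n, .n]) (.C 0 3 8 1 (.B
  0 1 2 (.L 24) (.B 1 2 1 (.C 0 2 11 2 (.B 1 4 1 (.C 0 3 16 1 (.C 0 1 6 1
  (.B 0 1 4 (.L 180) (.B 1 8 1 (.C 0 2 22 1 (.C 0 3 32 1 (.G 3266 371 9 16
  188 702 1027 [.n, .g 256 1 0 0, .g 64 9 0 0, .g 64 9 0 0, .n, .n, .n, .n])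
  (.L 505)) (.L 53)) (.L 53))) (.L 203)) (.L 203)) (.G 233 203 2 16 92 350
  259 [.n, .g 64 1 0 0, .n, .n, .n, .n])) (.G 1530 203 2 123 33 31 92 [.n,
  .n, .n, .n, .g 8 3 0 0, .g 32 13 0 0, .n, .n])) (.G 196 233 1 1325 7617
  7203 21444 [.g 64 37 0 0, .n, .n, .n, .n, .n, .n, .n]))) (.G 539 1277 0
  1667063 590418 555688 833531 [.n, .g 35 64 0 0, .n, .n, .n, .n, .n, .n, .g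
  1 100 0 0, .g 1 117 0 0]))) (.C 2 3 1 4 (.B 0 1 1 (.L 272) (.G 196 1277 0
  6291455 4456447 4194304 8388607 [.g 1 4 0 0, .n, .n, .n, .n, .n, .g 1 1115
  0 0, .g 1 1319 0 0])) (.L 66))) (.C 2 3 1 4 (.C 1 2 10 1 (.G 219 66 0
  322978 31130 616772 616772 [.g 64 1 0 0, .g 32 7 0 0, .n, .n, .n, .n, .n,
  .n]) (.B 0 1 1 (.L 272) (.G 539 1277 0 1441828 2714029 1357014 2714029
  [.n, .g 64 37 0 0, .n, .n, .n, .n, .n, .n, .g 1 94 0 0, .g 1 113 0 0])))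
  (.G 219 66 0 485808 46825 927718 117062 [.g 32 1 0 0, .g 32 7 0 0, .n, .n,
  .n, .n, .n, .n]))) (.B 0 1 1 (.G 163 188 1 876 4762 876 1204 [.g 64 33 0
  0, .n, .n, .n, .n, .n, .n, .n]) (.C 2 3 4 3 (.C 1 2 2 11 (.B 0 1 2 (.L
  188) (.B 1 2 1 (.C 2 3 3 8 (.C 1 3 23 1 (.C 1 2 4 1 (.C 1 3 46 1 (.B 1 4 1
  (.B 0 1 4 (.L 53) (.B 1 8 1 (.C 0 3 499 1 (.C 0 2 42 1 (.C 0 1 11 2 (.L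
  1216) (.L 203)) (.L 311)) (.L 311)) (.L 53))) (.L 203)) (.L 105)) (.B 1 4
  1 (.B 0 1 4 (.C 1 2 1 2 (.L 1918) (.C 0 2 21 1 (.L 1918) (.G 1904 309 0 1
  1 1 1 [.n, .g 64 1 0 0, .n, .n, .n, .n, .n, .n, .n, .n]))) (.G 311 1918 1
  16 679 343 3984 [.g 11 62 0 0, .n, .n, .n, .g 1 432 0 0, .g 1 407 0 0]))
  (.C 2 3 12 1 (.C 2 3 24 1 (.C 2 3 48 1 (.B 1 1 2 (.B 0 2 1 (.L 393) (.G 53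
  309 0 1 1 1 1 [.n, .g 64 3 0 0, .n, .n, .n, .n])) (.L 393)) (.L 40)) (.L
  393)) (.L 188)))) (.C 0 3 127 1 (.C 0 1 249 1 (.C 0 3 254 1 (.C 0 1 498 1
  (.C 1 2 1 46 (.G 268 2984 1 4235 4218525 8388607 2151617 [.n, .g 1 299 0
  0, .n, .g 1 238 0 0]) (.C 2 3 24 1 (.B 1 4 1 (.C 0 2 21 1 (.C 0 3 1023 1
  (.L 1918) (.L 203)) (.G 53 309 0 1 1 1 1 [.n, .g 32 3 0 0, .n, .n, .n,
  .n])) (.C 2 3 48 1 (.C 1 2 1 92 (.L 203) (.G 203 309 0 1 1 1 1 [.n, .g 64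
  3 0 0, .n, .n, .n, .n])) (.L 203))) (.C 0 3 508 1 (.C 0 2 1023 1 (.G 1615
  1918 3 18 36243 37434 18592 [.n, .g 4 3 0 0, .n, .n]) (.L 53)) (.L 53))))
  (.C 2 3 24 1 (.G 53 309 0 1 1 1 1 [.n, .g 32 7 0 0, .n, .n, .n, .n]) (.L
  203))) (.G 30 311 0 3790 3720 160 1900 [.g 64 17 0 0, .n, .n, .n, .n,
  .n])) (.C 1 2 1 12 (.L 1015) (.G 311 30 0 186 188 8 95 [.g 64 7 0 0, .n,
  .g 3 13 0 0, .n, .n, .n]))) (.C 2 3 6 1 (.G 309 328 1 1 1 1 1 [.g 19 64 0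
  0, .g 15 62 0 0, .n, .n, .n, .n, .g 1 78 0 0, .g 1 66 0 0]) (.L 30)))) (.B
  0 1 4 (.L 24) (.B 1 4 1 (.C 1 3 3 2 (.C 1 2 23 1 (.C 1 3 6 1 (.C 1 2 46 1
  (.C 0 3 64 1 (.C 0 2 499 1 (.C 0 1 11 2 (.C 1 3 6 1 (.G 1359 1216 2 8402
  183788 8388607 2182351 [.n, .n, .n, .n, .n, .n, .g 2 3 0 0, .g 41 65 0 0])
  (.L 1615)) (.L 203)) (.L 203)) (.L 309)) (.L 105)) (.L 696)) (.C 0 2 127 1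
  (.B 0 1 8 (.L 24) (.B 1 8 1 (.C 2 3 1 8 (.C 0 2 254 1 (.C 0 3 505 1 (.L
  1042) (.L 311)) (.L 311)) (.L 2242)) (.L 24))) (.L 30))) (.C 0 3 8 1 (.C 0
  2 127 1 (.B 1 8 1 (.B 0 1 8 (.L 24) (.C 0 1 32 1 (.G 590 3185 0 16 1020
  4064 253 [.n, .n, .g 64 9 0 0, .g 64 9 0 0, .n, .n, .n, .n]) (.L 1456)))
  (.L 24)) (.L 30)) (.L 24))) (.L 24)))) (.L 188))) (.B 1 2 1 (.C 0 3 8 1
  (.C 0 3 16 1 (.B 0 1 2 (.G 899 233 0 29456 631470 29456 937079 [.n, .n,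
  .n, .n, .n, .n, .g 7 61 0 0, .g 3 32 0 0]) (.C 0 2 1 1 (.C 0 1 21 1 (.B 1
  4 1 (.C 0 3 32 1 (.B 0 1 4 (.L 53) (.B 1 8 1 (.C 0 1 42 1 (.C 0 2 2 1 (.G
  603 1420 5 16 1351 64 1021 [.n, .n, .g 32 5 0 0, .g 13 16 0 0]) (.G 53 365
  5 1 1 1 1 [.n, .n, .n, .n, .n, .g 64 17 0 0])) (.L 53)) (.L 53))) (.L 53))
  (.L 203)) (.G 53 311 0 1 1 1 1 [.n, .g 64 13 0 0, .n, .n, .n, .n])) (.C 2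
  3 32 1 (.C 1 2 1 21 (.C 1 3 3 1 (.C 1 2 2 1 (.G 35 266 1 903 9705 38537
  57833 [.n, .n, .n, .n, .g 15 32 0 0, .g 7 16 0 0]) (.L 8)) (.L 8)) (.L 8))
  (.G 203 309 0 1 1 1 1 [.n, .g 64 7 0 0, .n, .n, .n, .n])))) (.B 0 1 2 (.L
  870) (.C 0 2 1 32 (.G 311 30 0 32 22 65 16 [.g 64 19 0 0, .n, .g 1 16 0 0,
  .g 1 28 0 0, .n, .n]) (.C 1 2 1 21 (.C 0 1 1 3 (.L 8) (.C 1 2 2 1 (.G 309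
  266 1 1 1 1 1 [.n, .g 19 65 0 0, .n, .n, .n, .n, .g 1 88 0 0, .g 1 75 0
  0]) (.L 8))) (.L 8))))) (.C 1 2 1 21 (.C 1 3 3 8 (.B 0 1 2 (.L 870) (.C 1
  2 2 1 (.C 1 3 6 1 (.G 309 328 1 1 1 1 1 [.n, .g 23 64 0 0, .n, .n, .n, .n,
  .g 1 63 0 0, .g 1 49 0 0]) (.L 8)) (.L 8))) (.L 8)) (.L 8))) (.G 870 24 0
  28697 615189 28697 224194 [.n, .n, .n, .n, .n, .n, .g 1 73 0 0, .g 1 90 0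
  0]))) (.B 0 1 2 (.L 188) (.B 1 2 1 (.C 1 3 1 4 (.B 0 1 4 (.L 24) (.B 1 4 1
  (.C 1 2 3 2 (.C 1 3 2 1 (.C 1 2 6 1 (.C 1 3 4 1 (.C 0 2 64 1 (.C 0 1 11 2
  (.C 1 3 2 1 (.C 0 3 87 1 (.C 1 2 6 1 (.C 0 2 260 1 (.C 0 3 174 1 (.L 1216)
  (.L 540)) (.L 540)) (.L 1615)) (.L 540)) (.L 105)) (.L 203)) (.L 309)) (.L
  105)) (.L 696)) (.L 696)) (.C 0 3 11 1 (.C 0 2 8 1 (.C 2 3 3 2 (.B 1 8 1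
  (.B 0 1 8 (.L 24) (.C 0 3 91 1 (.C 0 1 32 1 (.C 0 2 16 1 (.C 0 2 32 1 (.L
  2408) (.L 540)) (.L 203)) (.G 1456 309 6 1 1 1 1 [.g 256 1 0 0, .n, .n,
  .n, .n, .n, .n, .n])) (.G 365 1456 0 1 1 1 1 [.n, .g 53 63 0 0, .n, .n,
  .n, .n]))) (.L 24)) (.L 3688)) (.L 233)) (.L 147))) (.L 24))) (.C 0 3 4 3
  (.C 0 2 8 1 (.C 0 1 11 1 (.C 0 3 8 1 (.B 0 1 4 (.L 188) (.B 1 4 1 (.C 0 1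
  22 1 (.C 0 2 16 1 (.G 696 1420 5 16 704 509 259 [.n, .n, .g 64 9 0 0, .g
  64 9 0 0, .n, .n, .n, .n, .n, .n]) (.L 203)) (.L 203)) (.L 188))) (.L
  147)) (.L 147)) (.L 24)) (.L 216))) (.L 188))))))) (.C 2 3 5 1 (.C 1 2 2 7
  (.C 0 1 5 3 (.B 0 1 1 (.L 668) (.C 0 1 10 1 (.B 0 1 2 (.C 0 3 5 1 (.C 0 3
  10 1 (.P (.ofNat 1) (.ofNat 2)) (.L 67)) (.L 2664)) (.B 1 2 1 (.L 189) (.C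
  0 3 5 1 (.C 0 3 10 1 (.P (.ofNat 1) (.ofNat 2)) (.L 67)) (.L 2664)))) (.G
  2664 67 1 589804 303576 208166 138777 [.g 64 1 0 0, .n, .n, .n]))) (.B 0 1
  1 (.L 67) (.G 962 1406 1 92 16 63 43 [.g 32 31 0 0, .n, .n, .g 15 32 0
  0]))) (.B 0 1 1 (.C 2 3 10 1 (.P (.ofNat 1) (.ofNat 2)) (.L 668)) (.C 0 3
  5 1 (.C 1 2 1 14 (.B 1 2 1 (.B 0 1 2 (.C 0 1 7 1 (.G 169 2161 1 17730
  250437 250437 173976 [.n, .n, .g 3 74 0 0, .g 2 57 0 0, .n, .n]) (.C 2 3 2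
  3 (.P (.ofNat 1) (.ofNat 2)) (.L 169))) (.C 0 2 14 1 (.L 189) (.L 225)))
  (.C 0 3 10 1 (.P (.ofNat 1) (.ofNat 2)) (.C 2 3 2 3 (.P (.ofNat 1) (.ofNat
  2)) (.L 67)))) (.C 2 3 20 1 (.P (.ofNat 1) (.ofNat 2)) (.B 1 2 1 (.C 0 3
  10 1 (.P (.ofNat 1) (.ofNat 2)) (.G 169 33 1 237525 170721 237525 118763
  [.n, .n, .g 2 63 0 0, .g 2 75 0 0, .n, .n])) (.C 0 3 10 1 (.P (.ofNat 1)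
  (.ofNat 2)) (.B 1 1 2 (.C 1 3 2 3 (.P (.ofNat 1) (.ofNat 2)) (.L 3176))
  (.L 169)))))) (.G 169 901 3 1382 999 70 678 [.g 4096 1 0 0, .n, .g 8 3 0
  0, .g 64 27 0 0, .n, .n])))) (.C 0 3 5 2 (.C 0 1 5 3 (.B 0 1 1 (.L 668)
  (.C 0 3 10 1 (.C 0 2 5 1 (.B 0 1 2 (.C 0 1 10 1 (.C 0 3 20 1 (.C 0 2 10 1
  (.P (.ofNat 1) (.ofNat 2)) (.L 67)) (.L 67)) (.L 67)) (.B 1 2 1 (.L 189)
  (.C 0 1 10 1 (.C 0 3 20 1 (.C 0 2 10 1 (.P (.ofNat 1) (.ofNat 2)) (.L 67))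
  (.L 67)) (.L 67)))) (.L 2882)) (.G 628 222 1 4814 2592 1185 2370 [.n, .g
  64 7 0 0, .n, .n, .n, .n, .n, .n, .n, .n]))) (.G 404 628 1 1074 187 502
  992 [.g 16 3 0 0, .n, .n, .n, .n, .n])) (.G 222 404 0 814470 153312 412026
  210804 [.g 25 63 0 0, .g 5 16 0 0, .n, .n, .n, .n, .g 1 490 0 0, .g 2 1183
  0 0, .n, .n])))) (by decide +kernel)

theorem EN0_c153 : CoN ENTab ⟨⟨3, 3, 8⟩, ⟨3, 4, 8⟩, ⟨7, 7, 16⟩, ⟨28, 2, 0,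
  0, 1⟩, ⟨28, 2, 0, 1, 0⟩, ⟨40, 10, 4, 4, 3⟩, ⟨4, 1, 1, 1, 0⟩⟩ :=
CoN.ofG ENTab_B ENBt_E ENBt_U (.C 2 3 1 6 (.C 0 3 5 1 (.C 0 1 1 1 (.C 0 2 5
  2 (.C 0 1 5 3 (.C 0 3 9 1 (.C 0 2 10 1 (.C 0 1 10 1 (.C 0 3 18 1 (.B 0 1 1
  (.L 668) (.B 0 1 2 (.B 1 1 2 (.C 0 2 20 1 (.C 0 1 20 1 (.G 1103 362 0 1 1
  1 1 [.n, .g 16 65 0 0, .n, .n, .n, .n, .n, .n, .n, .n]) (.L 225)) (.L 67))
  (.L 668)) (.B 1 2 1 (.L 189) (.C 0 2 20 1 (.B 2 2 1 (.G 707 2152 1 1 1 1 1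
  [.g 64 15 0 0, .n, .n, .n, .n, .n, .g 8 67 0 0, .g 7 67 0 0]) (.G 362 1103
  1 1 1 1 1 [.g 64 3 0 0, .n, .n, .n, .n, .n])) (.L 67))))) (.L 169)) (.G
  962 67 1 6574 3393 6362 5725 [.n, .g 64 1 0 0, .n, .g 17 62 0 0])) (.G 169
  628 1 1458 751 707 1281 [.g 32 9 0 0, .n, .n, .n, .n, .n])) (.G 222 404 0
  743563 455732 407761 383775 [.g 3 4 0 0, .n, .n, .n, .n, .n, .g 1 476 0 0,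
  .g 1 572 0 0, .n, .n])) (.B 0 1 1 (.L 163) (.C 1 2 5 1 (.C 1 3 5 1 (.C 0 1
  1 6 (.G 870 8 0 580124 1196506 1051475 1015217 [.n, .n, .n, .n, .n, .n, .g
  1 95 0 0, .g 1 110 0 0]) (.B 1 2 1 (.B 0 1 2 (.G 923 163 0 5945 506 5218
  5028 [.n, .g 8 1 0 0, .n, .n, .n, .n, .n, .n]) (.C 0 3 4 5 (.B 1 4 1 (.C 0
  2 5 6 (.C 0 1 1 12 (.C 0 1 2 1 (.L 8) (.C 1 2 5 1 (.C 1 3 4 1 (.B 0 1 4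
  (.B 1 1 1 (.G 1542 260 5 441 221 2221 1766 [.n, .n, .n, .n, .g 37 65 0 0,
  .g 17 32 0 0]) (.L 371)) (.C 1 3 8 1 (.B 2 1 1 (.G 1392 117 5 1 1 1 1 [.n,
  .n, .n, .n, .n, .n, .n, .g 64 49 0 0]) (.B 0 1 8 (.B 1 1 1 (.B 0 2 1 (.G
  260 1167 7 1 1 1 1 [.n, .n, .n, .n, .g 32 17 0 0, .g 64 57 0 0]) (.G 1641
  4017 7 1 1 1 1 [.n, .n, .n, .n, .g 64 7 0 0, .g 32 7 0 0, .n, .n])) (.G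
  1789 1167 7 1 1 1 1 [.n, .n, .n, .n, .n, .g 32 19 0 0, .n, .n])) (.G 339
  1030 7 1 1 1 1 [.n, .n, .n, .n, .g 16 7 0 0, .g 64 57 0 0]))) (.B 2 1 1
  (.L 117) (.C 1 2 2 3 (.B 0 1 8 (.C 0 3 4 1 (.C 0 1 8 1 (.L 35) (.G 2993
  1539 5 1 1 1 1 [.n, .n, .n, .n, .n, .n, .g 23 32 0 0, .g 37 64 0 0])) (.L
  1027)) (.L 339)) (.L 284))))) (.G 754 35 5 1598191 6492652 8090844 3196383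
  [.n, .n, .n, .n, .n, .n, .n, .n, .g 64 25 0 0, .g 64 51 0 0])) (.L 8)))
  (.B 0 1 4 (.G 180 260 1 1 1 1 1 [.n, .n, .n, .n, .n, .g 3 65 0 0, .n, .n])
  (.C 0 3 4 1 (.B 1 8 1 (.C 0 2 5 1 (.B 0 1 8 (.C 0 3 8 1 (.C 0 2 10 1 (.G
  3496 260 5 1 1 1 1 [.g 31 64 0 0, .n, .g 10 67 0 0, .g 10 67 0 0, .n, .n])
  (.G 371 260 1 1 1 1 1 [.n, .n, .n, .n, .n, .n, .n, .n, .n, .g 3 56 0 0]))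
  (.L 371)) (.C 0 2 10 1 (.C 1 3 191 1 (.C 1 2 478 1 (.G 268 1961 4 208494
  8779 8388607 3351822 [.n, .n, .n, .g 64 45 0 0]) (.G 1533 1935 2 204 8211
  4099 3282 [.n, .n, .n, .n, .n, .g 9 13 0 0, .n, .n, .n, .g 16 5 0 0])) (.G
  1533 153 1 67 1074 1342 535 [.n, .n, .n, .n, .n, .g 16 11 0 0, .n, .n, .n,
  .n])) (.C 1 2 240 1 (.B 1 16 1 (.C 1 3 191 1 (.C 0 1 1 478 (.G 1423 835 0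
  1566 3131 1566 1252 [.n, .n, .n, .n, .n, .g 16 11 0 0]) (.G 1042 268 3
  8388607 8779 4211587 3351822 [.g 16 9 0 0, .n, .n, .n])) (.L 1423)) (.L
  260)) (.L 1533)))) (.B 0 1 8 (.L 505) (.C 1 2 121 1 (.B 1 16 1 (.G 319
  3906 0 3836 16 3870 3053 [.n, .n, .n, .n, .n, .n, .n, .n, .g 2 1221 0 0,
  .g 2 1265 0 0]) (.L 540)) (.L 339)))) (.L 371)) (.B 1 8 1 (.C 1 3 96 1 (.C
  1 2 121 1 (.G 4008 3505 1 6617679 34682 8388607 6650193 [.n, .g 1024 1 0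
  0, .n, .n]) (.L 371)) (.L 371)) (.L 505))))) (.C 1 2 10 1 (.C 1 3 96 1 (.C
  1 2 20 1 (.C 0 1 1 121 (.L 371) (.G 40 371 9 4197 17 699 3327 [.n, .g 256
  1 0 0, .g 64 15 0 0, .n, .n, .n, .n, .g 32 3 0 0])) (.L 53)) (.L 53)) (.L
  53))) (.L 180)) (.B 1 4 1 (.C 1 3 10 1 (.C 1 2 10 1 (.G 30 1420 5 1532 16
  325 319 [.n, .n, .g 128 17 0 0, .g 64 9 0 0, .n, .n]) (.L 203)) (.L 203))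
  (.L 24)))) (.G 1129 24 0 5945 506 5218 5028 [.g 3 8 0 0, .n, .n, .n, .n,
  .n, .n, .n]))) (.L 8)) (.L 222)))) (.B 0 1 1 (.L 163) (.B 0 1 2 (.G 66 24
  1 412923 77727 106874 383775 [.n, .n, .g 1 122 0 0, .n]) (.C 1 2 4 3 (.C 1
  3 5 1 (.B 1 2 1 (.C 1 2 8 1 (.C 0 1 1 5 (.L 233) (.B 1 4 1 (.C 1 3 10 1
  (.C 1 2 16 1 (.C 0 1 1 10 (.L 203) (.G 30 1420 5 325 16 515 319 [.n, .n,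
  .g 128 17 0 0, .g 64 9 0 0, .n, .n])) (.L 203)) (.L 203)) (.L 24))) (.L
  147)) (.L 24)) (.L 196)) (.G 222 456 0 650404 1002262 170598 607755 [.n,
  .n, .n, .n, .n, .n, .n, .n, .n, .g 1 440 0 0]))))) (.C 0 1 3 5 (.C 0 2 4 3
  (.C 0 3 5 1 (.C 1 2 3 2 (.B 0 1 1 (.G 196 272 3 75442 433794 2541466
  749709 [.n, .g 128 1 0 0, .n, .n, .n, .n, .n, .n]) (.C 0 2 34 1 (.C 0 3 10
  1 (.B 0 1 2 (.L 24) (.C 0 1 6 1 (.B 1 2 1 (.B 1 4 1 (.C 0 2 68 1 (.B 0 1 4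
  (.L 180) (.B 1 8 1 (.C 0 3 20 1 (.B 0 1 8 (.L 505) (.C 0 1 12 1 (.C 1 3 5
  3 (.C 0 2 136 1 (.G 1216 1789 5 16 380 4347 3820 [.n, .n, .g 32 5 0 0, .n,
  .n]) (.L 540)) (.L 2984)) (.L 540))) (.L 505)) (.L 505))) (.L 203)) (.L
  203)) (.L 24)) (.L 539))) (.L 1150)) (.L 579))) (.B 0 1 1 (.L 188) (.C 0 2
  8 1 (.B 1 2 1 (.C 0 1 34 1 (.C 0 3 10 1 (.G 393 696 1 448 30331 7254 8934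
  [.g 16 5 0 0, .n, .n, .n, .n, .n]) (.L 1150)) (.L 579)) (.L 188)) (.L
  196)))) (.L 66)) (.L 66)) (.G 219 66 0 236682 22813 57032 202463 [.g 64 1
  0 0, .g 32 7 0 0, .n, .n, .n, .n, .n, .n]))) (.C 0 3 4 7 (.G 81 742 1
  573613 64632 161581 4516194 [.g 2 57 0 0, .g 2 63 0 0, .n, .n]) (.C 2 3 2
  1 (.G 824 219 1 86533 1238 3096 12229 [.g 61 64 0 0, .n, .n, .n, .n, .n])
  (.G 824 62 1 702907 10059 99337 49040 [.g 64 37 0 0, .g 64 21 0 0, .n, .n,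
  .n, .n])))) (.B 0 1 1 (.C 1 2 5 1 (.C 0 3 2 5 (.C 0 1 1 1 (.B 2 1 2 (.B 1
  1 1 (.B 0 1 2 (.L 51) (.C 0 2 10 1 (.C 0 1 5 3 (.L 884) (.G 347 163 0 92
  16 159 32 [.g 1 63 0 0, .g 1 136 0 0, .n, .n, .n, .n])) (.B 1 2 1 (.C 1 3
  2 1 (.B 0 1 4 (.L 347) (.B 0 1 8 (.L 1662) (.G 1662 2045 1 1 1 1 1 [.g 64
  1 0 0, .n, .n, .n, .n, .n]))) (.C 0 2 3 5 (.L 884) (.L 62))) (.L 98))))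
  (.L 51)) (.B 0 2 1 (.G 478 169 0 16 29 158 58 [.n, .n, .n, .n, .n, .n, .g
  1 6529 0 0, .g 1 6886 0 0]) (.B 1 2 1 (.B 0 1 2 (.L 51) (.C 1 3 2 1 (.B 1
  4 1 (.B 0 1 4 (.L 1662) (.G 1662 2045 1 1 1 1 1 [.g 32 1 0 0, .n, .n, .n,
  .n, .n])) (.L 347)) (.C 0 2 10 1 (.L 884) (.C 0 2 3 5 (.L 884) (.L 62)))))
  (.L 51)))) (.B 0 2 1 (.L 51) (.B 1 1 1 (.B 0 1 2 (.L 51) (.C 0 3 2 1 (.C 0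
  1 3 5 (.B 1 2 1 (.G 2045 98 7 1 1 1 1 [.n, .g 2 11 0 0, .n, .n, .n, .n,
  .n, .n]) (.L 98)) (.L 469)) (.L 62))) (.L 51)))) (.B 0 2 1 (.L 59) (.G 469
  241 0 1 1 1 1 [.n, .g 64 55 0 0, .n, .n, .n, .n, .n, .n]))) (.C 2 3 1 12
  (.B 0 2 1 (.C 1 2 1 2 (.B 2 1 2 (.L 59) (.C 0 1 10 1 (.B 2 1 4 (.L 59) (.B
  0 4 1 (.C 0 2 20 1 (.G 756 169 0 16 286 571 155 [.g 1 52 0 0, .n, .n, .n,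
  .n, .n, .g 1 5341 0 0, .g 1 5913 0 0]) (.L 478)) (.L 478))) (.L 59))) (.B
  2 1 2 (.B 1 1 2 (.C 1 2 1 4 (.L 59) (.C 2 3 2 1 (.C 0 2 5 1 (.G 163 337 7
  16 629 142 312 [.g 2048 1 0 0, .g 64 1 0 0, .n, .n, .n, .n, .n, .n]) (.G
  1712 172 0 29 128 16 64 [.g 32 1 0 0, .n, .n, .n, .n, .n, .n, .n])) (.G 59
  337 1 1 1 1 1 [.n, .n, .n, .g 2 263 0 0, .n, .n]))) (.L 478)) (.C 0 3 10 1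
  (.G 81 169 0 426088 8388607 2077179 7536431 [.n, .g 1 752 0 0, .g 1 3136 0
  0, .n]) (.G 100 256 1 198682 219235 54809 109618 [.n, .n, .g 32 17 0 0,
  .n])))) (.C 1 2 1 2 (.B 1 1 1 (.C 0 1 10 1 (.L 337) (.B 0 1 2 (.L 51) (.B
  1 2 1 (.C 0 1 3 5 (.L 884) (.G 478 256 1 83715 7879 15758 7879 [.g 6 65 0
  0, .n, .n, .n, .n, .n, .n, .n])) (.L 51)))) (.L 59)) (.B 2 2 1 (.B 1 1 1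
  (.G 313 337 7 1 1 1 1 [.n, .n, .g 32 9 0 0, .g 64 5 0 0]) (.L 59)) (.C 2 3
  2 1 (.C 1 2 1 4 (.L 337) (.B 0 1 2 (.G 1679 163 0 16 629 78 312 [.n, .n,
  .g 1 1025 21244 0, .g 1 1084 17370 0, .n, .n]) (.G 328 1648 7 1 1 1 1 [.n,
  .n, .n, .g 11 7 258571 0, .n, .n]))) (.L 337))))) (.C 0 3 2 5 (.B 2 1 2
  (.B 1 1 1 (.B 0 1 2 (.L 59) (.C 0 1 10 1 (.L 884) (.B 1 2 1 (.C 0 1 3 5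
  (.L 884) (.G 111 256 1 24705 2368 2314 861 [.g 16 63 0 0, .n, .n, .n, .n,
  .n])) (.L 51)))) (.L 59)) (.B 0 2 1 (.C 0 1 10 1 (.C 0 3 7 2 (.C 0 2 10 1
  (.L 169) (.G 1804 1022 1 1 1 1 1 [.g 32 19 0 0, .n, .n, .n, .n, .n, .n,
  .n])) (.L 478)) (.L 59)) (.B 1 2 1 (.C 0 1 10 1 (.L 337) (.B 0 1 2 (.L 51)
  (.C 1 2 1 1 (.C 1 3 3 8 (.C 0 1 3 5 (.L 884) (.G 62 469 7 167 16 32 95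
  [.n, .g 64 11 0 0, .n, .n, .n])) (.L 884)) (.L 884)))) (.L 59)))) (.G 840
  59 0 529 1454 1424 59 [.g 64 1 0 0, .n, .n, .g 32 1 0 0])))) (.C 0 3 2 5
  (.C 0 2 5 1 (.C 0 1 1 1 (.C 0 3 7 2 (.C 0 1 5 3 (.C 0 2 9 1 (.C 0 3 13 1
  (.B 1 2 1 (.C 0 1 10 1 (.C 0 2 18 1 (.B 0 1 2 (.G 362 2481 1 8 163 284 208
  [.n, .g 64 13 0 0, .n, .n, .g 1 126 0 0, .n]) (.L 189)) (.L 225)) (.L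
  222)) (.C 0 1 10 1 (.G 328 3761 1 8 163 140 208 [.n, .n, .n, .n, .g 1 59 0
  0, .g 1 65 0 0]) (.L 2882))) (.L 222)) (.L 222)) (.C 1 3 7 1 (.C 1 2 5 1
  (.C 0 1 1 6 (.G 628 8 0 255307 526570 446787 622311 [.n, .n, .n, .n, .n,
  .n, .n, .n, .g 1 83 0 0, .g 1 237 0 0]) (.B 1 2 1 (.C 0 2 4 5 (.C 0 3 5 4
  (.C 0 2 8 1 (.B 1 4 1 (.B 0 1 2 (.G 411 976 5 1 1 1 1 [.g 64 1 0 0, .n,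
  .n, .n, .n, .n]) (.B 0 1 4 (.C 0 3 10 1 (.G 260 621 7 1 1 1 1 [.n, .n, .n,
  .n, .g 17 63 0 0, .g 17 66 0 0]) (.L 371)) (.B 1 8 1 (.B 0 1 8 (.C 0 1 1
  12 (.C 1 3 5 1 (.C 1 2 8 1 (.L 1167) (.L 8)) (.L 8)) (.G 3496 260 5 1 1 1
  1 [.g 31 64 0 0, .g 64 23 0 0, .g 10 67 0 0, .g 10 67 0 0, .n, .n])) (.C 1
  2 190 1 (.C 1 3 116 1 (.C 0 1 1 12 (.G 1030 319 9 1 1 1 1 [.n, .n, .n, .n,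
  .n, .n, .n, .g 11 61 0 0]) (.C 1 3 232 1 (.G 268 1961 4 429605 18089
  6872553 8388607 [.n, .n, .n, .g 64 45 0 0]) (.G 796 1144 2 430185 8388607
  6882960 4194304 [.n, .n, .g 64 61 0 0, .g 64 43 0 0]))) (.L 319)) (.L
  1533))) (.G 260 1449 7 1 1 1 1 [.n, .n, .n, .n, .g 21 32 0 0, .g 1 2 0
  0])))) (.L 976)) (.B 0 1 2 (.L 188) (.B 1 4 1 (.B 1 8 1 (.B 0 1 4 (.L 180)
  (.B 0 1 8 (.L 505) (.C 1 2 96 1 (.B 1 16 1 (.G 1789 2737 3 1 1 1 1 [.n,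
  .n, .n, .n, .n, .g 1 3617 0 0, .n, .n]) (.L 540)) (.L 339)))) (.L 180))
  (.L 203)))) (.G 260 30 2 463 4 383 57 [.g 128 1 0 0, .g 64 1 0 0, .n, .n,
  .n, .g 9 62 0 0])) (.B 0 1 2 (.L 188) (.B 1 4 1 (.C 1 2 10 1 (.G 30 1420 5
  1532 16 319 228 [.n, .n, .g 128 17 0 0, .g 64 9 0 0, .n, .n]) (.L 203))
  (.L 24)))) (.G 163 24 0 4692 399 3968 5690 [.g 3 8 0 0, .n, .n, .n, .n,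
  .n, .n, .n]))) (.L 8)) (.L 8))) (.C 1 3 2 1 (.C 1 3 4 1 (.C 1 2 5 1 (.B 1
  2 1 (.B 0 1 2 (.L 188) (.C 0 1 1 7 (.L 233) (.C 1 2 10 1 (.B 1 4 1 (.C 1 3
  8 1 (.B 0 1 4 (.L 180) (.B 1 8 1 (.G 30 371 9 228 16 319 256 [.n, .n, .g
  32 7 0 0, .g 4 1 0 0, .n, .n]) (.L 505))) (.L 203)) (.L 203)) (.L 1720))))
  (.L 188)) (.L 216)) (.L 216)) (.C 0 3 2 7 (.L 216) (.G 62 742 1 455602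
  64510 80637 32255 [.n, .n, .g 8 31 0 0, .g 1 5 0 0, .n])))) (.C 0 3 2 1
  (.C 0 1 3 5 (.C 0 3 4 1 (.C 0 2 5 1 (.C 0 2 10 1 (.B 0 1 2 (.L 24) (.C 0 3
  8 1 (.B 1 2 1 (.B 1 4 1 (.C 0 1 6 1 (.B 0 1 4 (.L 180) (.B 1 8 1 (.C 0 2
  20 1 (.C 0 3 16 1 (.B 0 1 8 (.L 505) (.G 471 260 5 16 188 639 512 [.g 32 1
  0 0, .g 256 1 0 0, .n, .n, .n, .n, .g 64 25 0 0, .g 64 25 0 0])) (.L 505))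
  (.L 505)) (.L 505))) (.L 203)) (.L 203)) (.G 147 233 1 1082 6221 21572
  17311 [.g 16 5 0 0, .n, .n, .n, .n, .n, .n, .n])) (.L 539))) (.L 1150))
  (.L 66)) (.L 66)) (.G 66 216 1 246965 23804 211259 171090 [.g 1 144 0 0,
  .n, .n, .n])) (.G 62 742 1 56540 7866 69815 28516 [.n, .n, .g 23 65 0 0,
  .g 2 9 0 0, .n]))) (.C 0 2 4 7 (.G 941 824 0 18766 2114 147749 7665 [.n,
  .g 16 11 0 0, .n, .n, .n, .n, .n, .n]) (.G 824 62 1 800485 11456 55848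
  41528 [.g 64 37 0 0, .g 32 9 0 0, .n, .n, .n, .n]))) (.C 1 3 2 5 (.C 1 3 4
  1 (.C 1 2 5 1 (.C 1 3 8 1 (.G 667 62 1 5722 1578 15587 25255 [.g 8 3 0 0,
  .g 8 1 0 0, .n, .n, .n, .n, .n, .n]) (.L 824)) (.G 824 1136 0 5626 15471
  7736 12658 [.n, .g 64 45 0 0, .n, .n, .n, .n])) (.G 795 1786 2 33659 75732
  46281 37866 [.n, .g 16 1 0 0, .n, .n, .n, .n, .n, .n])) (.C 2 3 1 12 (.L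
  2042) (.C 0 3 1 9 (.L 2042) (.B 1 2 1 (.G 469 111 0 1 1 1 1 [.n, .g 32 19
  0 0, .n, .n, .n, .n, .n, .n]) (.L 241)))))))) (by decide +kernel)

theorem EN0_c154 : CoN ENTab ⟨⟨3, 3, 8⟩, ⟨3, 4, 8⟩, ⟨7, 7, 16⟩, ⟨28, 2, 0,
  1, 0⟩, ⟨8, 2, 0, 1, 0⟩, ⟨8, 2, 0, 0, 1⟩, ⟨4, 1, 1, 1, 0⟩⟩ :=
CoN.ofG ENTab_B ENBt_E ENBt_U (.C 0 2 1 2 (.C 2 3 2 9 (.C 2 3 4 1 (.C 1 2 7
  2 (.C 1 3 26 1 (.G 283 216 1 320329 160164 2142198 8388607 [.g 2 29 0 0,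
  .n, .g 1 4801 0 0, .g 1 5263 0 0, .n, .n]) (.G 219 66 0 22728 595183
  151992 299722 [.g 32 1 0 0, .g 32 7 0 0, .n, .n, .n, .n, .n, .n])) (.C 0 2
  5 3 (.C 0 2 10 1 (.G 219 66 0 23727 158671 470082 312893 [.g 128 3 0 0, .g
  32 7 0 0, .n, .n, .n, .n, .n, .n]) (.B 0 1 1 (.L 272) (.C 2 3 4 3 (.G 539
  1277 0 1403951 477941 687040 5615804 [.n, .n, .n, .n, .n, .n, .n, .n, .g 1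
  100 0 0, .g 1 117 0 0]) (.L 579)))) (.C 1 2 1 4 (.B 0 1 1 (.L 196) (.B 0 1
  2 (.L 24) (.B 1 2 1 (.C 1 2 2 1 (.L 1530) (.C 2 3 1 1 (.B 0 1 4 (.L 747)
  (.B 1 4 1 (.C 0 2 4 3 (.C 0 1 5 2 (.C 0 3 5 2 (.C 0 2 8 1 (.C 1 2 3 2 (.L
  1968) (.G 1456 1982 1 1 1 1 1 [.n, .g 32 7 0 0, .n, .n, .n, .n, .n, .n]))
  (.L 266)) (.L 266)) (.L 266)) (.L 328)) (.L 233))) (.L 1530))) (.L 24))))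
  (.B 0 1 1 (.L 188) (.C 2 3 7 1 (.B 0 1 2 (.G 899 30 0 320873 427831 59011
  826156 [.n, .n, .n, .n, .n, .n, .g 2 21 0 0, .g 5 63 0 0]) (.C 0 2 2 11
  (.B 1 2 1 (.C 0 2 4 1 (.C 0 3 5 2 (.B 0 1 4 (.L 24) (.B 1 4 1 (.C 0 1 4 3
  (.G 1456 1982 1 1 1 1 1 [.n, .g 64 29 0 0, .n, .n, .n, .n, .n, .n]) (.L
  328)) (.L 24))) (.L 1658)) (.C 0 3 1 3 (.G 266 527 0 93 16 47 185 [.g 32 5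
  0 0, .n, .n, .g 2 63 0 0, .g 1 32 0 0, .n]) (.C 0 1 1 12 (.G 328 30 0 96
  195 25 16 [.n, .n, .g 7 66 0 0, .g 2 33 0 0, .n, .n]) (.C 1 3 2 1 (.G 328
  527 0 375 16 47 62 [.g 8 1 0 0, .n, .n, .g 3 76 0 0, .n, .n]) (.G 328 590
  0 195 32 25 16 [.g 256 1 0 0, .n, .g 3 7 0 0, .g 8 33 0 0, .n, .n])))))
  (.L 188)) (.B 1 2 1 (.C 0 1 1 3 (.B 1 4 1 (.G 1726 1456 1 1 1 1 1 [.n, .g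
  64 19 0 0, .n, .n, .n, .n]) (.C 0 2 1 21 (.C 0 3 2 3 (.L 1976) (.C 1 3 1 3
  (.L 1976) (.C 1 2 1 2 (.G 969 1676 7 4194303 4194303 8388607 691844 [.n,
  .g 128 1 0 0, .n, .n, .n, .n, .n, .n, .n, .n]) (.L 8)))) (.C 1 2 1 43 (.B
  2 1 1 (.C 0 1 1 1 (.C 1 3 1 6 (.G 1164 1982 7 1 1 1 1 [.n, .g 1024 1 0 0,
  .n, .n, .n, .n]) (.L 8)) (.C 2 3 1 6 (.G 3249 1164 3 1 1 1 1 [.n, .n, .n,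
  .g 16 65 0 0, .n, .n, .n, .g 36 65 0 0]) (.G 1807 233 0 98 49 194 16 [.n,
  .n, .n, .g 2 79 0 0, .n, .n, .n, .g 1 36 0 0]))) (.G 1982 1807 3 1 1 1 1
  [.n, .g 128 1 0 0, .n, .n, .n, .n, .n, .g 4 9 0 0])) (.L 8)))) (.B 2 1 1
  (.C 1 2 1 7 (.G 3394 172 0 156786 26687 51706 51706 [.n, .n, .n, .n, .n,
  .n, .g 64 13 0 0, .g 64 15 0 0]) (.B 1 4 1 (.G 1726 1470 0 1 1 1 1 [.n, .g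
  32 3 0 0, .n, .n, .n, .n]) (.C 0 2 1 43 (.C 2 3 1 6 (.G 393 1726 3 477 156
  944 1869 [.n, .n, .g 64 39 0 0, .g 64 45 0 0, .n, .n]) (.G 233 172 0 335
  110 1328 110 [.g 16 7 0 0, .n, .n, .n, .n, .n])) (.L 491)))) (.L 172)))
  (.G 899 1015 0 665943 225217 31064 434901 [.n, .n, .n, .n, .n, .n, .g 1 37
  0 0, .g 1 44 0 0])))) (.B 0 1 2 (.L 188) (.B 1 2 1 (.B 0 1 4 (.L 24) (.B 1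
  4 1 (.C 0 2 5 2 (.C 0 3 4 3 (.C 0 1 4 3 (.C 0 1 8 1 (.G 1456 362 4 1 1 1 1
  [.n, .n, .n, .n, .n, .n, .g 64 23 0 0, .g 16 5 0 0]) (.L 266)) (.L 328))
  (.L 328)) (.G 266 172 0 1 1 1 1 [.n, .n, .n, .g 1 60 0 0, .n, .n])) (.L
  24))) (.L 188)))))))) (.C 2 3 1 2 (.G 219 66 0 312862 156431 4125865
  8388607 [.g 32 1 0 0, .g 32 7 0 0, .n, .n, .n, .n, .g 16 0 3 0, .n]) (.G
  62 742 1 7821 3910 209687 53277 [.n, .n, .g 1 3 0 0, .n, .n]))) (.C 2 3 1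
  17 (.C 2 3 2 1 (.B 0 1 1 (.L 62) (.B 0 1 2 (.L 62) (.G 824 742 1 3656 1828
  24910 99411 [.g 47 64 0 0, .n, .n, .n, .n, .n]))) (.L 706)) (.C 1 3 3 4
  (.L 706) (.C 1 3 1 8 (.C 0 3 6 1 (.L 706) (.G 875 1917 2 238 60 264 125
  [.g 64 9 0 0, .g 64 1 0 0, .n, .g 32 3 0 0])) (.B 0 1 1 (.G 241 98 1 1 1 1
  1 [.g 59 64 0 0, .n, .n, .n, .n, .n]) (.B 1 2 1 (.C 0 3 2 5 (.G 128 1786 0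
  16 101 218 64 [.g 1 2 0 0, .n, .n, .g 5 62 0 0, .n, .n]) (.B 0 1 2 (.G 51
  2472 1 933 1469 3171 93 [.g 4 31 0 0, .n, .n, .n, .n, .n]) (.C 2 3 1 34
  (.G 2225 1786 0 26312 41112 88803 179250 [.n, .g 8 1 0 0, .n, .n, .n, .n,
  .n, .n]) (.G 128 48 0 1 1 1 1 [.n, .g 1 6 0 0, .n, .n, .n, .n])))) (.G 98
  241 0 1 1 1 1 [.n, .g 56 65 0 0, .n, .n, .n, .n, .n, .n]))))))) (.C 0 1 2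
  7 (.C 0 3 2 9 (.C 0 2 2 7 (.C 0 3 4 1 (.C 0 1 4 1 (.B 0 1 1 (.L 163) (.B 1
  2 1 (.G 837 1003 0 843 6108 3318 6161 [.g 2048 5 0 0, .g 256 1 0 0, .n,
  .n, .g 64 35 0 0, .g 8 5 0 0, .n, .n]) (.G 870 71 2 265 1920 1043 1936
  [.n, .n, .n, .n, .n, .n, .g 16 3 0 0, .g 64 15 0 0]))) (.C 1 2 1 1 (.G 196
  275 0 10034 5179 10034 10357 [.g 1024 1 0 0, .n, .n, .n, .n, .n, .g 32 7 0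
  0, .g 4 1 0 0]) (.B 0 1 1 (.L 163) (.G 870 71 2 1446 1398 771 1446 [.g
  1024 1 0 0, .n, .n, .n, .n, .n, .g 32 23 0 0, .g 16 13 0 0])))) (.C 2 3 1
  1 (.C 1 2 1 1 (.G 196 3752 4 24268 12134 23510 22751 [.g 1024 1 0 0, .n,
  .n, .n, .n, .n, .g 16 3 0 0, .g 32 7 0 0]) (.C 0 2 1 2 (.G 188 275 0 2864
  2696 5729 2696 [.n, .n, .g 32 15 0 0, .g 64 35 0 0, .n, .n]) (.G 169 32 2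
  61876 29907 16500 28875 [.g 8192 1 0 0, .n, .n, .g 8 1 0 0, .n, .n]))) (.G
  66 692 0 4736 2368 4440 2368 [.g 64 13 0 0, .n, .g 16 3 0 0, .n]))) (.C 0
  3 1 1 (.G 2728 321 1 1 1 1 1 [.g 64 53 0 0, .n, .g 64 7 0 0, .g 64 11 0
  0]) (.L 581))) (.G 1295 321 0 1 1 1 1 [.n, .g 10 67 0 0, .n])) (.L 321)))
  (by decide +kernel)

theorem EN0_c155 : CoN ENTab ⟨⟨1, 1, 4⟩, ⟨1, 2, 4⟩, ⟨3, 3, 8⟩, ⟨1, 0, 0, 0,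
  0⟩, ⟨8, 2, 0, 1, 0⟩, ⟨8, 2, 0, 0, 1⟩, ⟨4, 1, 1, 1, 0⟩⟩ :=
CoN.ofG ENTab_B ENBt_E ENBt_U (.B 0 1 1 (.B 2 1 2 (.C 2 3 3 4 (.C 1 2 1 1
  (.C 1 2 3 2 (.L 81) (.C 2 3 3 1 (.L 272) (.L 66))) (.C 2 3 5 1 (.C 1 2 2 3
  (.L 548) (.C 2 3 10 1 (.P (.ofNat 1) (.ofNat 3)) (.L 67))) (.L 548))) (.C
  2 3 1 6 (.C 2 3 2 1 (.L 81) (.L 62)) (.C 1 3 3 4 (.L 62) (.C 2 3 1 12 (.C
  2 3 2 1 (.L 62) (.B 2 2 1 (.B 1 1 1 (.L 62) (.C 2 3 1 2 (.L 585) (.C 1 3 3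
  1 (.L 585) (.L 191)))) (.L 62))) (.C 1 3 1 8 (.B 2 2 1 (.C 1 2 3 1 (.B 1 1
  1 (.L 191) (.L 100)) (.L 191)) (.C 1 3 2 1 (.L 62) (.L 449))) (.B 2 2 1
  (.B 1 1 1 (.C 2 3 1 24 (.L 449) (.C 2 3 1 48 (.L 2018) (.B 0 1 4 (.C 1 2 6
  1 (.L 118) (.B 1 1 4 (.B 0 2 1 (.L 118) (.C 2 3 1 96 (.L 509) (.L 1804)))
  (.L 118))) (.B 1 2 1 (.L 509) (.C 1 2 6 1 (.L 118) (.C 2 3 1 96 (.C 0 2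
  1540 1 (.L 212) (.G 1274 172 0 84 84 42 84 [.n, .n, .n, .g 32 13 0 0]))
  (.L 212))))))) (.C 2 3 1 24 (.C 0 2 388 1 (.L 685) (.L 449)) (.L 685)))
  (.C 2 3 1 24 (.L 449) (.C 2 3 1 48 (.L 713) (.B 2 1 2 (.B 1 4 1 (.L 509)
  (.C 1 2 6 1 (.L 118) (.C 2 3 1 96 (.C 1 3 1 1 (.L 1506) (.B 2 2 1 (.B 1 1
  2 (.L 1321) (.L 932)) (.L 1321))) (.L 212)))) (.L 509)))))))))) (.C 2 3 3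
  4 (.C 1 2 1 1 (.C 1 2 3 2 (.L 81) (.C 2 3 3 1 (.L 272) (.L 81))) (.C 2 3 5
  1 (.C 1 2 2 3 (.L 548) (.C 1 2 1 6 (.L 1405) (.C 2 3 10 1 (.P (.ofNat 1)
  (.ofNat 2)) (.L 962)))) (.L 548))) (.C 2 3 1 6 (.C 2 3 2 1 (.L 81) (.L
  221)) (.C 1 3 3 4 (.L 221) (.C 2 3 1 12 (.L 256) (.C 1 3 1 8 (.L 256) (.C
  1 3 1 16 (.L 713) (.C 2 3 1 24 (.L 713) (.C 2 3 1 48 (.L 1214) (.C 2 3 1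
  96 (.L 1214) (.C 2 3 1 192 (.L 1464) (.B 0 2 1 (.B 2 1 4 (.L 1464) (.L
  1914)) (.L 1464))))))))))))) (.B 1 2 1 (.C 0 3 16 1 (.C 0 1 20 1 (.C 2 3 3
  2 (.C 1 2 1 2 (.C 1 2 5 3 (.C 1 2 10 1 (.C 1 3 5 2 (.L 66) (.C 2 3 1 7 (.L
  216) (.B 0 1 2 (.C 1 3 2 7 (.L 272) (.L 515)) (.C 1 3 2 7 (.L 196) (.C 2 3
  1 14 (.L 1854) (.C 1 3 1 14 (.L 1854) (.L 376))))))) (.B 0 1 2 (.C 1 3 1 7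
  (.L 272) (.L 196)) (.B 1 4 1 (.B 0 1 4 (.L 196) (.B 0 1 8 (.L 24) (.B 1 8
  1 (.B 1 16 1 (.B 0 1 16 (.L 24) (.C 1 2 1 2 (.C 1 3 1 7 (.L 804) (.C 2 3 1
  15 (.L 350) (.C 1 3 1 14 (.L 350) (.C 2 3 1 28 (.L 1402) (.L 1661))))) (.B
  0 1 32 (.L 747) (.B 1 32 1 (.C 2 3 2 7 (.C 0 1 1576 1 (.C 1 2 1 8 (.C 1 3
  1 2 (.L 350) (.C 2 3 1 4 (.L 1720) (.C 1 3 1 4 (.L 858) (.L 841)))) (.C 0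
  2 392 1 (.B 0 1 64 (.L 1856) (.C 1 3 1 4 (.L 676) (.L 841))) (.B 0 1 64
  (.L 643) (.B 1 64 1 (.C 0 3 2 1 (.G 3240 676 7 1044496 8388607 522248
  4080062 [.n, .n, .n, .n, .n, .n, .n, .n, .g 3 67 0 0, .g 3 71 0 0]) (.L
  32)) (.L 643))))) (.G 147 692 0 1803 895 224 867 [.n, .n, .n, .n, .n, .n,
  .g 16 5 0 0, .g 64 23 0 0])) (.C 0 3 108 1 (.C 1 2 1 1 (.C 1 3 1 7 (.L
  804) (.C 2 3 1 14 (.L 350) (.C 1 3 1 14 (.L 350) (.C 2 3 1 28 (.L 8) (.L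
  759))))) (.C 1 3 1 14 (.C 1 2 1 2 (.L 350) (.C 1 2 1 4 (.L 1292) (.L 8)))
  (.C 1 3 1 28 (.L 8) (.L 167)))) (.L 233))) (.L 747))))) (.L 24)) (.L
  24)))) (.L 196)))) (.B 0 1 2 (.C 1 2 2 11 (.L 24) (.L 515)) (.C 1 3 2 7
  (.C 1 2 2 11 (.B 1 4 1 (.B 0 1 4 (.L 393) (.C 1 2 4 1 (.B 0 1 8 (.L 24)
  (.B 1 8 1 (.B 0 1 16 (.L 24) (.B 1 16 1 (.B 0 1 32 (.L 30) (.B 1 32 1 (.C
  0 2 3056 1 (.C 1 2 16 1 (.L 403) (.C 1 2 1 2 (.L 167) (.C 0 1 24608 1 (.C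
  2 3 1 4 (.L 1551) (.L 167)) (.L 30)))) (.G 1658 71 2 10647 684 5345 2651
  [.n, .n, .g 64 19 0 0, .g 64 21 0 0, .n, .n, .n, .n])) (.L 30))) (.L 24)))
  (.L 24))) (.C 1 3 1 2 (.C 1 2 1 2 (.B 1 8 1 (.C 2 3 1 1 (.B 0 1 8 (.L 393)
  (.B 0 1 16 (.L 1146) (.B 1 16 1 (.C 1 3 4 1 (.C 1 2 2 1 (.L 2216) (.L
  910)) (.L 3889)) (.L 1146)))) (.L 30)) (.L 393)) (.B 0 1 8 (.L 182) (.B 1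
  8 1 (.B 1 16 1 (.B 0 1 16 (.L 887) (.B 1 32 1 (.B 0 1 32 (.L 546) (.L
  504)) (.L 268))) (.L 182)) (.L 182)))) (.C 2 3 1 1 (.C 2 3 2 1 (.C 1 3 1 1
  (.L 500) (.B 1 8 1 (.B 0 1 8 (.L 1149) (.L 190)) (.L 1548))) (.C 1 2 1 1
  (.L 30) (.B 1 8 1 (.B 0 1 8 (.L 76) (.C 1 3 1 4 (.L 154) (.C 2 3 1 2 (.C 2
  3 2 1 (.L 602) (.L 948)) (.B 1 16 1 (.L 400) (.L 40))))) (.L 76)))) (.C 2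
  3 1 2 (.L 30) (.B 0 1 8 (.L 24) (.B 1 8 1 (.C 1 3 1 4 (.L 1208) (.L 8))
  (.L 24)))))))) (.L 1848)) (.C 1 2 1 21 (.C 1 3 1 1 (.B 1 4 1 (.B 0 1 4 (.C
  1 2 2 1 (.C 2 3 1 2 (.B 0 2 1 (.B 2 1 2 (.C 1 3 8 1 (.C 1 2 4 1 (.L 1036)
  (.L 491)) (.L 491)) (.L 188)) (.C 1 2 4 1 (.C 1 2 8 1 (.C 1 2 16 1 (.L
  1705) (.L 813)) (.L 813)) (.L 491))) (.L 2865)) (.L 813)) (.C 1 2 2 1 (.C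
  0 1 1544 1 (.B 0 1 8 (.C 1 3 1 1 (.C 1 2 2 1 (.C 1 2 4 1 (.L 1548) (.B 0 2
  1 (.L 377) (.C 1 3 1 4 (.C 1 2 1 2 (.L 227) (.L 441)) (.L 164)))) (.L
  384)) (.L 35)) (.C 1 2 2 1 (.C 1 3 1 1 (.B 1 8 1 (.C 1 2 4 1 (.L 1978) (.B
  1 16 1 (.B 0 1 16 (.L 492) (.C 1 2 1 2 (.L 602) (.L 720))) (.L 1193))) (.C
  1 2 4 1 (.L 1548) (.C 1 3 1 4 (.C 1 2 1 2 (.L 227) (.L 441)) (.L 164))))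
  (.B 1 8 1 (.L 214) (.L 35))) (.B 1 8 1 (.L 214) (.L 8)))) (.C 0 2 2 1 (.C
  0 3 1 1 (.B 1 8 1 (.B 0 1 8 (.C 1 2 8 1 (.L 1548) (.C 0 2 4 1 (.L 1548)
  (.G 848 172 0 27846 27846 13923 6961 [.n, .g 4 1 0 0, .g 16 7 0 0, .n])))
  (.C 1 2 8 1 (.L 1978) (.C 0 2 4 1 (.L 1978) (.G 557 60 3 14900 14900 7450
  3725 [.n, .n, .n, .g 64 33 0 0])))) (.G 1981 1833 4 1303384 651692 5213536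
  2606768 [.n, .n, .n, .n, .g 23 32 0 0, .g 41 64 0 0, .g 9 16 0 0, .g 33 64
  0 0])) (.B 1 8 1 (.L 60) (.G 771 37 2 9173 2293 18346 4587 [.n, .n, .n,
  .n, .g 64 29 0 0, .g 64 31 0 0]))) (.C 0 2 1 2 (.C 0 1 1 8 (.C 0 3 1 4 (.G
  35 71 2 6517 13034 13034 13034 [.n, .n, .n, .n, .g 2 1 0 0, .g 32 17 0 0])
  (.L 1762)) (.L 1762)) (.L 1762)))) (.L 8))) (.B 1 1 2 (.B 0 2 1 (.L 515)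
  (.C 1 2 2 1 (.C 1 3 2 1 (.C 1 2 4 1 (.L 1036) (.L 491)) (.L 491)) (.L 8)))
  (.L 1848))) (.B 1 4 1 (.L 8) (.C 1 2 1 1 (.B 1 1 2 (.L 8) (.L 188)) (.L
  8)))) (.L 8))) (.C 1 3 1 14 (.L 222) (.L 376))))) (.C 1 2 2 7 (.C 1 2 4 1
  (.B 0 1 2 (.L 515) (.L 376)) (.B 0 1 2 (.L 962) (.L 245))) (.B 0 1 2 (.C 2
  3 5 1 (.P (.ofNat 1) (.ofNat 3)) (.L 169)) (.C 2 3 5 1 (.P (.ofNat 1)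
  (.ofNat 3)) (.L 245))))) (.C 2 3 2 7 (.C 2 3 4 1 (.C 1 2 5 2 (.L 66) (.C 2
  3 8 1 (.B 0 1 2 (.C 1 2 2 7 (.L 272) (.L 515)) (.C 1 2 2 7 (.L 196) (.C 1
  2 1 14 (.L 1854) (.L 376)))) (.L 216))) (.C 2 3 1 2 (.L 66) (.L 62))) (.C
  1 3 3 4 (.C 1 3 6 1 (.L 62) (.C 2 3 3 5 (.L 81) (.C 2 3 1 10 (.L 62) (.C 1
  3 1 2 (.L 62) (.B 0 1 2 (.B 2 1 2 (.C 1 3 1 4 (.L 62) (.L 1342)) (.L 221))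
  (.C 1 3 1 4 (.L 706) (.L 631))))))) (.B 0 1 2 (.B 2 1 2 (.L 100) (.C 2 3 1
  13 (.L 62) (.C 1 3 1 8 (.L 191) (.C 2 3 1 26 (.L 191) (.B 0 2 1 (.B 2 1 4
  (.L 118) (.L 509)) (.L 118)))))) (.L 100))))) (.C 2 3 3 2 (.C 0 2 1 2 (.C
  0 1 1 2 (.C 0 2 5 3 (.B 1 4 1 (.G 692 66 2 93 186 910 249 [.g 8 7 0 0, .n,
  .n, .n]) (.G 66 196 1 15735 31470 154399 42288 [.n, .n, .g 5 59 0 0, .n]))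
  (.L 207)) (.L 32)) (.L 32)) (.C 2 3 2 7 (.C 0 1 1 2 (.B 2 1 2 (.C 2 3 4 1
  (.G 66 60 3 90 180 241 1851 [.n, .n, .g 16 5 0 0, .n]) (.G 3377 81 1 14855
  29710 306385 157835 [.n, .g 32 1 0 0, .n, .n, .n, .n, .n, .n])) (.G 66 207
  2 872 1743 2343 9262 [.g 128 3 0 0, .n, .g 64 15 0 0, .n])) (.C 1 3 21 1
  (.L 32) (.G 81 207 2 91 957 125 481 [.n, .g 53 64 0 0, .n, .n]))) (.C 1 3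
  3 2 (.L 62) (.C 0 3 3 4 (.G 1469 62 1 10237 31992 108772 63344 [.g 27 65 0
  0, .g 47 64 0 0, .n, .n, .n, .n, .n, .n]) (.B 2 1 2 (.C 1 3 1 4 (.C 1 3 2
  1 (.G 1336 256 1 53929 26964 92690 109543 [.g 29 64 0 0, .g 47 64 0 0, .n,
  .n, .n, .n]) (.L 100)) (.L 100)) (.C 1 3 1 4 (.G 631 60 3 111 56 191 115
  [.n, .n, .g 32 7 0 0, .g 4 1 0 0]) (.B 0 1 2 (.C 2 3 1 13 (.L 62) (.C 0 3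
  1 8 (.L 191) (.C 2 3 1 26 (.L 191) (.G 509 100 2 857419 428710 2844454
  54439 [.n, .g 64 11 0 0, .g 3 62 0 0, .g 3 67 0 0, .n, .n, .n, .n])))) (.L
  100))))))))) (.C 0 2 2 3 (.C 0 1 2 3 (.C 0 3 1 2 (.C 0 2 7 2 (.B 2 1 2 (.C
  0 1 4 1 (.L 100) (.G 100 820 2 238 117 401 60 [.g 32 1 0 0, .g 64 9 0 0,
  .n, .n])) (.B 0 1 2 (.C 0 1 4 1 (.C 0 2 13 1 (.C 0 2 26 1 (.G 509 100 2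
  54439 428710 2844454 108879 [.n, .g 64 11 0 0, .g 3 62 0 0, .g 3 67 0 0,
  .n, .n, .n, .n]) (.C 2 3 1 13 (.G 191 449 1 47597 7184 23799 47597 [.g 32
  7 0 0, .n, .n, .n, .n, .n]) (.G 509 100 2 2844454 428710 2844454 108879
  [.n, .g 64 15 0 0, .g 3 62 0 0, .g 3 67 0 0, .n, .n, .n, .n]))) (.C 0 3 1
  13 (.G 191 256 1 55423 16731 28234 110846 [.g 64 15 0 0, .g 32 25 0 0, .n,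
  .n, .n, .n]) (.G 2036 60 3 1089 164 276 42 [.n, .n, .n, .g 64 17 0 0])))
  (.G 100 207 2 254 125 428 65 [.n, .g 16 3 0 0, .g 4 1 0 0, .n])) (.G 100
  172 0 27 106 361 55 [.g 32 1 0 0, .g 4 1 0 0, .n, .n]))) (.B 1 4 1 (.L
  207) (.B 2 1 2 (.C 0 1 2 7 (.C 2 3 3 5 (.G 60 81 1 1369 5521 348 2000 [.n,
  .n, .n, .g 2 9 0 0]) (.G 100 172 0 360 1458 527 54 [.n, .n, .g 64 11 0 0,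
  .n])) (.L 820)) (.L 207)))) (.G 820 275 1 1 1 1 1 [.g 39 64 0 0, .n, .n,
  .g 16 7 0 0])) (.L 275)) (.G 71 321 2 1 1 1 1 [.n, .n, .n, .g 1 3 3529
  0]))) (.C 0 1 20 1 (.C 2 3 3 4 (.C 1 2 1 2 (.C 2 3 4 3 (.C 1 2 5 3 (.C 1 2
  10 1 (.L 66) (.L 272)) (.C 1 2 2 11 (.L 188) (.L 1712))) (.L 66)) (.C 2 3
  5 1 (.C 1 2 2 7 (.L 67) (.C 2 3 10 1 (.P (.ofNat 1) (.ofNat 2)) (.L 67)))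
  (.L 163))) (.C 2 3 1 6 (.C 2 3 2 1 (.C 2 3 4 1 (.L 66) (.L 81)) (.L 62))
  (.C 1 3 2 5 (.C 1 3 4 1 (.L 62) (.C 2 3 4 5 (.B 0 2 1 (.L 221) (.C 2 3 8 1
  (.L 221) (.B 0 1 2 (.L 221) (.L 875)))) (.C 1 2 5 1 (.C 1 3 1 2 (.C 1 3 2
  1 (.L 62) (.L 585)) (.B 0 2 1 (.B 2 1 1 (.L 631) (.L 62)) (.L 1725))) (.B
  0 2 1 (.B 2 1 1 (.L 100) (.L 62)) (.L 1598))))) (.C 2 3 1 12 (.C 2 3 2 1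
  (.C 1 2 5 4 (.B 0 2 1 (.B 2 1 1 (.L 585) (.L 62)) (.L 585)) (.B 0 2 1 (.L
  221) (.C 1 2 1 8 (.L 875) (.C 2 3 4 1 (.L 221) (.L 875))))) (.C 1 2 5 1
  (.L 191) (.C 2 3 1 2 (.B 0 2 1 (.B 2 1 1 (.L 585) (.L 62)) (.L 585)) (.L
  191)))) (.C 1 3 1 10 (.C 1 3 2 1 (.L 191) (.C 1 2 3 5 (.L 449) (.C 2 3 4 5
  (.B 2 1 1 (.L 191) (.B 0 2 1 (.L 449) (.L 191))) (.L 449)))) (.C 2 3 1 24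
  (.C 1 2 5 4 (.L 449) (.C 0 3 772 1 (.C 2 3 4 1 (.B 2 1 1 (.L 191) (.B 0 2
  1 (.L 449) (.L 191))) (.L 449)) (.L 449))) (.B 2 1 1 (.L 118) (.B 0 2 1
  (.B 2 1 2 (.C 1 2 5 2 (.L 212) (.C 0 2 772 1 (.L 212) (.G 509 3880 0
  4119596 8388607 2059798 42690 [.n, .n, .g 3 76 0 0, .g 1 29 0 0, .n, .n,
  .n, .n]))) (.B 0 4 1 (.L 1321) (.C 1 2 5 2 (.L 212) (.C 0 2 772 1 (.L 212)
  (.G 509 2856 3 4119596 8388607 2059798 42690 [.n, .n, .g 1 37 0 0, .g 1 41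
  0 0, .n, .n, .n, .n]))))) (.L 118))))))))) (.C 0 3 2 5 (.C 0 1 1 2 (.C 0 2
  1 2 (.C 2 3 7 3 (.C 1 2 5 6 (.L 66) (.C 0 2 5 3 (.G 272 66 2 69084 1355772
  677886 1601883 [.n, .g 2 1 0 0, .n, .n]) (.C 2 3 13 1 (.G 147 1712 0 11991
  23982 2205 53891 [.g 7 16 0 0, .g 3 4 0 0, .n, .n, .n, .n, .n, .n]) (.L
  272)))) (.C 2 3 1 6 (.L 62) (.G 1039 256 1 7497 14994 353755 29987 [.g 25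
  32 0 0, .g 3 13 0 0, .g 11 16 0 0, .n]))) (.B 1 1 2 (.L 32) (.C 2 3 8 1
  (.B 2 1 1 (.B 2 2 1 (.B 1 1 4 (.L 71) (.G 207 404 0 58 64 16 211 [.g 1 481
  0 0, .g 1 256 0 0, .n, .n])) (.L 71)) (.L 71)) (.B 2 1 1 (.C 2 3 3 5 (.G
  163 207 1 16 18 59 348 [.g 64 13 0 0, .n, .n, .n, .n, .n, .n, .n]) (.C 0 3
  7 3 (.G 163 207 1 8 9 174 103 [.g 32 13 0 0, .n, .n, .n, .n, .n, .n, .n])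
  (.C 0 3 1 6 (.L 81) (.C 2 3 1 10 (.L 81) (.G 100 256 1 271568 11495 455487
  22990 [.n, .g 4 7 0 0, .n, .n]))))) (.L 32))))) (.C 2 3 8 1 (.L 766) (.C 1
  3 8 1 (.L 32) (.C 2 3 3 5 (.L 32) (.B 2 1 1 (.C 1 3 1 2 (.L 32) (.C 2 3 1
  10 (.L 32) (.G 100 62 1 17563 140504 695932 35126 [.g 64 9 0 0, .g 29 63 0
  0, .n, .n]))) (.L 32)))))) (.C 2 3 3 4 (.C 0 2 1 8 (.C 0 1 1 8 (.C 0 3 2 3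
  (.C 0 2 5 3 (.C 0 3 4 1 (.G 100 2370 0 19 38 188 151 [.n, .g 55 64 0 0, .g
  64 21 0 0, .n]) (.L 32)) (.L 32)) (.L 32)) (.L 32)) (.L 592)) (.C 0 2 2 3
  (.G 100 313 2 40 5 155 4 [.g 32 1 0 0, .g 64 23 0 0, .g 16 3 0 0, .n]) (.L
  313))))))) (by decide +kernel)

theorem EN0_c156 : CoN ENTab ⟨⟨0, 0, 1⟩, ⟨0, 1, 2⟩, ⟨1, 1, 4⟩, ⟨1, 0, 0, 0,
  0⟩, ⟨8, 2, 0, 1, 0⟩, ⟨8, 2, 0, 0, 1⟩, ⟨4, 1, 1, 1, 0⟩⟩ :=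
CoN.ofG ENTab_B ENBt_E ENBt_U (.B 0 2 1 (.B 2 1 4 (.B 1 1 1 (.B 0 1 2 (.C 0
  3 16 1 (.C 2 3 3 2 (.C 1 2 1 1 (.L 81) (.B 2 1 1 (.L 951) (.L 1250))) (.C
  2 3 2 7 (.C 2 3 4 1 (.L 81) (.L 221)) (.C 1 3 3 2 (.L 221) (.C 2 3 1 13
  (.L 343) (.C 1 3 1 4 (.L 310) (.C 1 3 1 8 (.L 343) (.L 139))))))) (.C 0 3
  1 2 (.C 0 1 2 3 (.C 0 2 2 3 (.G 139 25 3 8 31 27 16 [.g 64 5 0 0, .n, .n,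
  .n, .n, .n]) (.G 619 3650 3 1 1 1 1 [.n, .n, .g 1 0 2079 0, .n])) (.L
  2626)) (.L 2626))) (.C 0 3 16 1 (.C 0 1 20 1 (.C 0 2 20 1 (.B 1 2 1 (.B 0
  1 4 (.C 0 1 40 1 (.C 0 3 32 1 (.C 0 2 40 1 (.B 0 2 1 (.C 0 1 80 1 (.B 2 1
  1 (.L 25) (.C 0 3 64 1 (.C 0 2 80 1 (.B 0 4 1 (.C 0 1 160 1 (.C 0 2 160 1
  (.C 0 3 128 1 (.B 2 1 2 (.C 0 1 320 1 (.B 2 2 1 (.L 25) (.C 0 3 256 1 (.C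
  0 2 320 1 (.B 0 2 1 (.B 2 1 2 (.L 25) (.C 0 1 640 1 (.C 0 3 512 1 (.C 0 2
  640 1 (.B 0 4 1 (.C 0 2 1280 1 (.C 0 2 2560 1 (.C 0 3 1024 1 (.C 0 3 2048
  1 (.C 0 1 1280 1 (.B 2 1 4 (.L 61) (.C 0 1 2560 1 (.B 0 8 1 (.C 0 1 5120 1
  (.B 2 1 8 (.L 61) (.B 0 16 1 (.B 2 1 16 (.L 195) (.C 2 3 3 4 (.C 1 2 1 2
  (.L 81) (.L 939)) (.C 1 3 2 5 (.L 310) (.L 1065)))) (.L 195))) (.L 195))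
  (.L 61)) (.L 195))) (.L 195)) (.L 195)) (.L 195)) (.L 195)) (.L 61)) (.L
  61)) (.L 61)) (.L 61)) (.L 25))) (.L 25)) (.L 25)) (.L 25))) (.L 25)) (.B
  0 8 1 (.C 0 1 320 1 (.C 2 3 3 4 (.C 1 2 1 2 (.L 81) (.L 939)) (.C 1 3 2 5
  (.L 310) (.L 1065))) (.B 2 1 4 (.L 61) (.C 0 1 1 2 (.C 0 1 2 1 (.B 0 16 1
  (.C 2 3 3 4 (.G 372 221 3 712479 2849917 356240 2181968 [.n, .n, .n, .n,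
  .g 5 21 0 0, .g 14 65 0 0, .n, .n]) (.G 310 139 0 216645 866581 666184
  86658 [.n, .n, .g 1 40 0 0, .n])) (.G 221 150 1 4898 19594 2449 1959 [.n,
  .g 64 47 0 0, .n, .g 64 35 0 0])) (.L 210)) (.L 210)))) (.C 0 1 320 1 (.C
  0 3 256 1 (.C 0 2 320 1 (.B 1 1 2 (.L 1466) (.C 0 1 640 1 (.B 2 4 1 (.C 0
  3 512 1 (.C 0 2 640 1 (.C 2 3 3 4 (.C 1 2 1 1 (.L 81) (.L 939)) (.C 2 3 1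
  8 (.L 310) (.C 1 3 3 4 (.L 310) (.C 1 3 1 8 (.L 310) (.L 139))))) (.L 61))
  (.L 61)) (.B 0 1 1 (.C 0 2 640 1 (.B 2 1 2 (.C 0 3 512 1 (.C 2 3 3 4 (.C 1
  2 1 1 (.L 81) (.L 939)) (.C 2 3 1 8 (.L 310) (.C 1 3 3 4 (.L 310) (.C 2 3
  1 16 (.L 310) (.L 1200))))) (.B 0 1 2 (.C 2 3 2 5 (.C 2 3 4 1 (.B 2 2 1
  (.C 1 2 1 1 (.L 61) (.C 0 2 4 3 (.G 61 221 1 6187 15467 47946 61480 [.n,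
  .n, .g 64 21 0 0, .n]) (.L 939))) (.B 1 1 1 (.L 1466) (.C 0 2 4 3 (.C 0 3
  10 1 (.G 310 139 0 88643 110804 686985 1767325 [.n, .n, .g 2 79 0 0, .n])
  (.L 221)) (.G 221 1466 3 12741 2059 2059 16473 [.n, .n, .n, .g 10 61 0
  0])))) (.G 139 61 2 31 39 309 156 [.g 16 63 0 0, .n, .n, .n, .n, .n])) (.G
  139 61 2 33 41 164 16 [.g 17 63 0 0, .n, .n, .n, .n, .n])) (.L 61))) (.C 0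
  3 512 1 (.C 2 3 3 4 (.C 1 2 1 1 (.L 81) (.L 939)) (.C 2 3 1 8 (.L 310) (.C
  1 3 3 4 (.L 310) (.C 2 3 1 16 (.L 310) (.L 1200))))) (.L 1466))) (.G 894
  150 1 46766 46766 23383 18706 [.n, .n, .n, .n, .g 3 7 0 0, .g 3 8 0 0, .n,
  .n])) (.C 0 3 512 1 (.C 0 2 640 1 (.B 1 2 1 (.C 0 1 1280 1 (.B 0 1 2 (.C 0
  3 1024 1 (.C 0 2 1280 1 (.C 0 1 2560 1 (.B 0 2 1 (.C 0 3 2048 1 (.C 0 2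
  2560 1 (.C 0 1 5120 1 (.C 2 3 3 4 (.C 1 2 1 2 (.L 81) (.L 939)) (.C 1 3 2
  5 (.L 310) (.L 1065))) (.L 61)) (.L 61)) (.L 61)) (.L 61)) (.L 61)) (.L
  61)) (.L 61)) (.L 61)) (.L 61)) (.C 2 3 3 4 (.C 1 2 1 1 (.L 81) (.L 939))
  (.C 2 3 1 8 (.L 310) (.C 1 3 3 4 (.L 310) (.C 2 3 1 16 (.L 310) (.L
  1200)))))) (.L 61)) (.L 61)))) (.L 905))) (.L 61)) (.L 61)) (.L 25)))) (.L
  210)) (.L 150)) (.L 61)) (.L 25)) (.L 25)) (.L 25))) (.L 25)) (.L 25)) (.L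
  25)) (.L 25)) (.L 7)) (.L 25)) (.C 0 1 40 1 (.C 0 3 32 1 (.C 0 2 40 1 (.C
  2 3 3 4 (.C 1 2 1 1 (.L 81) (.L 748)) (.C 2 3 1 7 (.C 2 3 2 1 (.L 3714)
  (.L 310)) (.C 1 3 3 4 (.L 310) (.C 1 3 1 8 (.L 310) (.L 139))))) (.B 1 1 2
  (.L 25) (.B 2 2 1 (.G 748 343 3 2151404 2151404 1075702 1748015 [.g 256 1
  0 0, .n, .n, .n, .g 9 64 0 0, .g 8 65 0 0, .n, .n]) (.L 61)))) (.B 1 1 2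
  (.L 25) (.B 2 2 1 (.G 372 343 3 769764 962205 481103 384882 [.g 256 1 0 0,
  .n, .n, .n, .g 9 64 0 0, .g 4 31 0 0, .n, .n]) (.L 25)))) (.B 1 1 2 (.L
  25) (.C 0 1 1 2 (.B 2 2 1 (.C 0 3 2 5 (.C 0 2 1 2 (.B 1 1 4 (.L 110) (.C 2
  3 2 1 (.G 81 25 0 629 1258 1180 4798 [.n, .g 64 15 0 0, .n, .n]) (.L
  343))) (.L 110)) (.L 110)) (.L 25)) (.L 25))))) (.L 592)) (.L 717)) (.L
  71))) (.B 2 2 1 (.C 2 3 3 4 (.C 1 2 1 1 (.L 81) (.C 2 3 5 1 (.C 1 2 2 3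
  (.L 1004) (.C 2 3 10 1 (.P (.ofNat 1) (.ofNat 3)) (.L 67))) (.L 81))) (.C
  2 3 1 6 (.L 221) (.L 343))) (.C 2 3 3 4 (.C 1 2 1 1 (.L 81) (.C 2 3 5 1
  (.C 1 2 2 3 (.L 1004) (.C 2 3 10 1 (.P (.ofNat 1) (.ofNat 3)) (.L 3138)))
  (.L 81))) (.C 0 3 16 1 (.C 2 3 1 3 (.L 221) (.C 1 3 3 2 (.L 221) (.C 2 3 1
  6 (.L 310) (.C 1 3 1 4 (.L 310) (.C 1 3 1 8 (.L 343) (.L 139)))))) (.C 0 3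
  1 2 (.C 0 1 2 3 (.G 343 139 0 216798 840093 677494 433596 [.n, .n, .g 1 21
  0 0, .g 7 63 3 0]) (.L 25)) (.L 1722)))))) (.B 0 4 1 (.B 2 1 8 (.C 2 3 3 4
  (.C 1 2 1 1 (.L 221) (.C 0 2 20 1 (.L 1004) (.B 1 1 1 (.O 1) (.L 1004))))
  (.C 2 3 1 6 (.L 310) (.C 0 1 20 1 (.C 0 3 16 1 (.C 1 3 3 4 (.L 310) (.C 2
  3 1 6 (.L 310) (.C 2 3 1 12 (.L 1213) (.C 2 3 1 24 (.L 2114) (.C 1 3 1 8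
  (.L 2114) (.C 1 3 1 16 (.L 1577) (.B 2 2 1 (.B 1 1 1 (.B 1 2 1 (.B 1 4 1
  (.B 0 1 4 (.L 139) (.B 0 1 8 (.L 139) (.L 7))) (.L 139)) (.L 139)) (.L
  139)) (.C 1 3 1 32 (.C 2 3 4 3 (.L 3624) (.L 2353)) (.B 2 1 2 (.B 1 4 1
  (.B 0 1 8 (.L 139) (.C 0 2 1540 1 (.B 1 8 1 (.B 0 1 16 (.L 2039) (.L 7))
  (.L 139)) (.L 7))) (.L 139)) (.C 2 3 1 48 (.C 2 3 2 1 (.C 1 2 3 4 (.C 1 3
  3 1 (.L 3633) (.C 1 3 1 2 (.L 2609) (.L 3624))) (.L 3121)) (.C 2 3 1 2 (.B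
  2 1 4 (.L 3368) (.B 2 1 8 (.L 3368) (.L 973))) (.L 2097))) (.B 2 1 4 (.B 1
  8 1 (.B 0 1 16 (.L 2039) (.B 1 16 1 (.L 3970) (.L 2039))) (.L 139)) (.C 1
  3 1 64 (.L 3368) (.B 2 1 8 (.B 1 16 1 (.L 973) (.L 2039)) (.L
  973)))))))))))))) (.C 0 3 1 2 (.C 0 3 2 1 (.B 1 1 1 (.L 7) (.C 0 3 4 1 (.B
  1 1 2 (.L 7) (.B 2 2 1 (.B 1 1 4 (.L 7) (.G 310 1200 1 111407 139258
  682366 891253 [.n, .n, .g 1 82 0 0, .g 2 55 0 0])) (.L 7))) (.L 7))) (.L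
  7)) (.L 7))) (.L 7)))) (.C 2 3 3 4 (.C 1 2 1 1 (.L 221) (.C 2 3 5 1 (.C 1
  2 2 3 (.L 4049) (.C 2 3 10 1 (.P (.ofNat 1) (.ofNat 3)) (.L 1004))) (.L
  221))) (.C 2 3 1 6 (.L 310) (.C 1 3 3 4 (.L 310) (.C 2 3 1 12 (.L 1527)
  (.C 1 3 1 8 (.L 1527) (.C 1 3 1 16 (.L 1213) (.C 0 1 508 1 (.C 0 3 16 1
  (.C 2 3 1 12 (.L 1213) (.C 2 3 1 24 (.L 1213) (.B 0 8 1 (.C 2 3 1 48 (.L
  3025) (.B 2 1 16 (.C 1 3 1 32 (.C 2 3 2 3 (.L 2344) (.B 2 2 1 (.B 1 1 1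
  (.L 2946) (.C 1 3 2 1 (.L 2344) (.L 3537))) (.L 2946))) (.B 1 1 1 (.L
  2600) (.B 2 2 1 (.L 3458) (.L 2600)))) (.C 1 3 1 32 (.L 2513) (.L 3793))))
  (.B 2 1 1 (.C 1 3 1 32 (.C 1 3 2 1 (.L 3624) (.L 2434)) (.L 2434)) (.C 0 2
  1540 1 (.C 0 1 1016 1 (.C 0 3 32 1 (.B 1 4 1 (.L 73) (.B 2 1 2 (.C 0 2
  3080 1 (.C 1 3 1 32 (.L 2769) (.L 2600)) (.L 414)) (.L 168))) (.L 73)) (.L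
  73)) (.L 73)))))) (.G 2257 3281 0 247857 7869472 3005271 123929 [.g 32 0
  11 0, .n, .n, .g 5 0 7 0])) (.C 0 3 1 64 (.G 2897 3921 0 4194304 2097152
  1597830 8388607 [.n, .n, .n, .n, .n, .n, .g 64 0 57 0, .g 15 0 16 0]) (.O
  1)))))))))) (.B 1 2 1 (.C 0 3 16 1 (.C 0 1 20 1 (.C 0 1 40 1 (.C 0 3 32 1
  (.C 0 2 20 1 (.B 1 4 1 (.L 435) (.C 0 2 40 1 (.B 1 1 2 (.L 7) (.B 2 1 2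
  (.C 0 1 80 1 (.C 0 3 64 1 (.C 0 2 80 1 (.B 1 1 4 (.L 7) (.B 2 2 1 (.C 0 1
  160 1 (.C 0 3 128 1 (.C 0 2 160 1 (.B 1 1 8 (.L 210) (.B 2 4 1 (.C 0 1 320
  1 (.C 2 3 3 4 (.C 1 2 1 2 (.L 81) (.L 939)) (.C 1 3 2 5 (.L 310) (.L
  1065))) (.B 2 8 1 (.B 1 1 16 (.L 7) (.C 0 1 1 2 (.B 2 16 1 (.B 1 1 32 (.L
  7) (.C 0 1 2 1 (.C 2 3 3 4 (.G 372 221 3 717172 2868686 358586 2196338
  [.n, .n, .n, .n, .g 5 21 0 0, .g 7 32 0 0, .n, .n]) (.G 310 139 0 217455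
  869821 668675 86982 [.n, .n, .g 2 81 0 0, .n])) (.L 210))) (.L 7)) (.L
  210))) (.L 7))) (.C 0 1 320 1 (.C 0 3 256 1 (.C 0 2 320 1 (.B 2 1 2 (.C 0
  1 640 1 (.B 1 1 2 (.L 210) (.C 0 3 512 1 (.C 0 2 640 1 (.C 0 2 1280 1 (.C
  0 3 1024 1 (.C 0 1 1280 1 (.B 2 2 1 (.C 0 1 2560 1 (.C 2 3 3 4 (.C 1 2 1 2
  (.C 1 2 2 1 (.L 3714) (.L 1004)) (.L 939)) (.C 1 3 2 5 (.L 310) (.L
  1065))) (.L 150)) (.L 210)) (.L 150)) (.L 150)) (.L 150)) (.L 7)) (.L 7)))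
  (.L 7)) (.L 210)) (.L 7)) (.L 7)) (.L 7)))) (.L 210)) (.L 210)) (.L 7))
  (.L 7))) (.L 7)) (.L 7)) (.L 7)) (.L 7))) (.L 592))) (.G 638 210 1 1 1 1 1
  [.n, .n, .g 1 0 4980 0, .n])) (.L 1783)) (.L 1783)) (.L 717)) (.L 717))
  (.C 2 3 3 4 (.C 1 2 1 1 (.L 221) (.L 1250)) (.C 1 3 3 4 (.L 310) (.C 0 3
  16 1 (.C 2 3 1 3 (.L 310) (.C 2 3 1 6 (.L 310) (.B 0 2 1 (.C 2 3 1 12 (.L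
  310) (.B 2 1 1 (.L 1200) (.B 2 1 2 (.L 1200) (.C 1 3 1 4 (.L 310) (.B 2 1
  4 (.L 882) (.L 7)))))) (.L 1200)))) (.G 3409 61 2 15 60 48 8 [.g 32 3 0 0,
  .n, .n, .n, .n, .n, .n, .n, .g 1 0 18840 0, .g 1 0 20661 0]))))))) (.B 1 2
  1 (.B 0 1 2 (.B 2 1 2 (.L 32) (.L 1722)) (.B 1 4 1 (.L 32) (.L 32))) (.B 2
  1 1 (.B 1 1 2 (.C 0 3 16 1 (.C 0 1 20 1 (.C 0 2 20 1 (.C 2 3 3 4 (.C 1 2 1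
  1 (.C 1 2 5 3 (.L 81) (.C 1 2 1 6 (.L 81) (.L 169))) (.C 2 3 6 1 (.C 1 2 3
  5 (.L 169) (.C 1 2 1 10 (.L 67) (.C 2 3 11 1 (.P (.ofNat 1) (.ofNat 2))
  (.L 67)))) (.L 169))) (.C 2 3 1 7 (.L 221) (.L 343))) (.C 0 2 1 2 (.B 1 2
  1 (.L 638) (.C 0 2 2 1 (.C 0 1 1 1 (.B 2 1 2 (.B 1 1 2 (.L 90) (.G 894 321
  1 4875 8775 19500 3900 [.g 4096 1 0 0, .n, .n, .n, .g 32 7 0 0, .g 4 1 0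
  0, .n, .n])) (.L 90)) (.L 901)) (.L 901))) (.L 1524))) (.L 71)) (.L 71))
  (.C 2 3 3 4 (.C 1 2 1 1 (.L 81) (.C 2 3 5 1 (.C 1 2 2 3 (.L 548) (.B 1 1 4
  (.L 372) (.L 951))) (.L 548))) (.C 2 3 1 6 (.L 221) (.L 343)))) (.B 0 2 1
  (.C 0 3 16 1 (.C 0 1 20 1 (.C 0 2 20 1 (.B 2 1 2 (.C 0 1 40 1 (.B 1 1 2
  (.C 0 3 32 1 (.C 0 2 40 1 (.B 1 2 1 (.L 638) (.C 0 1 80 1 (.C 0 3 64 1 (.C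
  0 2 80 1 (.B 2 1 2 (.B 1 1 2 (.L 110) (.C 0 1 160 1 (.C 0 3 128 1 (.C 0 2
  160 1 (.C 2 3 3 4 (.C 1 2 1 1 (.L 81) (.L 748)) (.C 2 3 1 8 (.L 221) (.L
  343))) (.B 1 1 4 (.L 110) (.B 2 2 1 (.B 1 1 8 (.L 110) (.B 2 4 1 (.B 2 8 1
  (.B 1 1 16 (.L 110) (.G 404 343 3 440288 440288 220144 357734 [.n, .n, .n,
  .n, .g 13 21 0 0, .g 34 63 0 0])) (.L 110)) (.L 110))) (.L 110)))) (.B 1 1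
  4 (.L 321) (.B 2 2 1 (.G 343 90 2 576 719 360 288 [.n, .n, .n, .g 5 13 0
  0]) (.L 110)))) (.L 110))) (.L 110)) (.L 110)) (.L 321)) (.L 321))) (.L
  321)) (.L 321)) (.C 2 3 3 4 (.C 1 2 1 2 (.C 1 2 2 1 (.L 81) (.L 1004)) (.L
  748)) (.C 2 3 1 7 (.L 221) (.L 343)))) (.B 1 1 2 (.L 25) (.B 2 2 1 (.C 0 1
  1 2 (.B 1 1 4 (.L 321) (.C 0 3 2 5 (.C 0 2 1 2 (.B 2 4 1 (.C 0 1 2 1 (.C 2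
  3 2 1 (.G 195 81 1 336 1346 631 2565 [.n, .n, .n, .g 33 64 0 0]) (.L 343))
  (.L 110)) (.L 110)) (.L 110)) (.L 110))) (.L 25)) (.L 25)))) (.L 25)) (.L
  25)) (.L 25)) (.L 25)) (.C 0 3 16 1 (.C 0 1 20 1 (.C 0 2 20 1 (.C 2 3 3 4
  (.B 1 1 1 (.C 0 1 40 1 (.C 0 3 224 1 (.C 0 2 40 1 (.B 1 2 1 (.L 32) (.B 2
  1 1 (.C 0 1 80 1 (.B 1 1 2 (.L 71) (.C 0 1 160 1 (.C 0 3 448 1 (.B 2 2 1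
  (.C 1 2 1 4 (.C 1 2 2 1 (.C 1 2 4 1 (.L 81) (.L 548)) (.L 548)) (.C 2 3 11
  1 (.L 372) (.L 548))) (.L 71)) (.L 71)) (.L 71))) (.L 316)) (.L 316))) (.L
  316)) (.L 316)) (.L 316)) (.C 1 2 1 1 (.L 81) (.C 2 3 6 1 (.C 1 2 3 5 (.L
  548) (.C 2 3 11 1 (.P (.ofNat 1) (.ofNat 3)) (.L 67))) (.L 548)))) (.C 2 3
  1 7 (.L 221) (.L 343))) (.L 61)) (.L 61)) (.L 71)))))) (by decide +kernel)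

end Pool.Agent.TET.Cvr
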