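import Pool.Agent.Helper37_TET.EN0_000
import Pool.Agent.Helper37_TET.EN0_001
import Pool.Agent.Helper37_TET.EN0_002
import Pool.Agent.Helper37_TET.EN0_003
import Pool.Agent.Helper37_TET.EN0_004
import Pool.Agent.Helper37_TET.EN0_005
import Pool.Agent.Helper37_TET.EN0_006
import Pool.Agent.Helper37_TET.EN0_007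

/-!
# MP_c7c9bf_co: cover of the charts, root 0, assembly 0
-/

set_option autoImplicit false
set_option maxRecDepth 100000

namespace Pool.Agent.TET.Cvr

theorem EN0_t0 : CoN ENTab ⟨⟨2, 3, 8⟩, ⟨1, 3, 8⟩, ⟨1, 2, 4⟩, ⟨1, 0, 0, 0,
  0⟩, ⟨8, 2, 0, 1, 0⟩, ⟨8, 2, 0, 0, 1⟩, ⟨4, 1, 1, 1, 0⟩⟩ :=
  CoN.b 1 1 2 rfl rfl rfl EN0_c0 EN0_c1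

theorem EN0_t1 : CoN ENTab ⟨⟨1, 1, 4⟩, ⟨1, 3, 8⟩, ⟨1, 2, 4⟩, ⟨1, 0, 0, 0,
  0⟩, ⟨8, 2, 0, 1, 0⟩, ⟨8, 2, 0, 0, 1⟩, ⟨4, 1, 1, 1, 0⟩⟩ :=
  CoN.b 2 1 1 rfl rfl rfl EN0_t0 EN0_c2

theorem EN0_t2 : CoN ENTab ⟨⟨3, 7, 16⟩, ⟨5, 15, 32⟩, ⟨3, 8, 16⟩, ⟨1, 0, 0,
  0, 0⟩, ⟨1148, 22, 0, 6, 5⟩, ⟨580, 10, 0, 2, 3⟩, ⟨4616, 79, 5, 19, 23⟩⟩ :=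
  CoN.b 1 1 2 rfl rfl rfl EN0_c6 EN0_c7

theorem EN0_t3 : CoN ENTab ⟨⟨3, 7, 16⟩, ⟨5, 15, 32⟩, ⟨3, 8, 16⟩, ⟨1, 0, 0,
  0, 0⟩, ⟨1148, 22, 0, 6, 5⟩, ⟨580, 10, 0, 2, 3⟩, ⟨2296, 39, 5, 11, 11⟩⟩ :=
  CoN.c 2 3 4 1 rfl rfl rfl rfl rfl EN0_t2 EN0_c8

theorem EN0_t4 : CoN ENTab ⟨⟨3, 7, 16⟩, ⟨5, 15, 32⟩, ⟨3, 8, 16⟩, ⟨1, 0, 0,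
  0, 0⟩, ⟨1148, 22, 0, 6, 5⟩, ⟨580, 10, 0, 2, 3⟩, ⟨1148, 17, 5, 5, 6⟩⟩ :=
  CoN.c 1 3 1 1 rfl rfl rfl rfl rfl EN0_t3 EN0_c9

theorem EN0_t5 : CoN ENTab ⟨⟨3, 7, 16⟩, ⟨5, 15, 32⟩, ⟨3, 8, 16⟩, ⟨1, 0, 0,
  0, 0⟩, ⟨284, 6, 0, 2, 1⟩, ⟨580, 10, 0, 2, 3⟩, ⟨1148, 17, 5, 5, 6⟩⟩ :=
  CoN.c 1 2 2 1 rfl rfl rfl rfl rfl EN0_c5 EN0_t4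

theorem EN0_t6 : CoN ENTab ⟨⟨3, 7, 16⟩, ⟨5, 15, 32⟩, ⟨3, 8, 16⟩, ⟨1, 0, 0,
  0, 0⟩, ⟨284, 6, 0, 2, 1⟩, ⟨148, 2, 0, 0, 1⟩, ⟨1148, 17, 5, 5, 6⟩⟩ :=
  CoN.c 1 2 1 2 rfl rfl rfl rfl rfl EN0_t5 EN0_c10

theorem EN0_t7 : CoN ENTab ⟨⟨3, 7, 16⟩, ⟨5, 15, 32⟩, ⟨3, 8, 16⟩, ⟨1, 0, 0,
  0, 0⟩, ⟨68, 2, 0, 1, 0⟩, ⟨148, 2, 0, 0, 1⟩, ⟨1148, 17, 5, 5, 6⟩⟩ :=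
  CoN.c 1 2 2 1 rfl rfl rfl rfl rfl EN0_c4 EN0_t6

theorem EN0_t8 : CoN ENTab ⟨⟨3, 7, 16⟩, ⟨5, 15, 32⟩, ⟨3, 8, 16⟩, ⟨1, 0, 0,
  0, 0⟩, ⟨68, 2, 0, 1, 0⟩, ⟨148, 2, 0, 0, 1⟩, ⟨556, 9, 5, 5, 2⟩⟩ :=
  CoN.c 2 3 4 1 rfl rfl rfl rfl rfl EN0_t7 EN0_c11

theorem EN0_t9 : CoN ENTab ⟨⟨3, 7, 16⟩, ⟨5, 15, 32⟩, ⟨3, 8, 16⟩, ⟨1, 0, 0,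
  0, 0⟩, ⟨68, 2, 0, 1, 0⟩, ⟨148, 2, 0, 0, 1⟩, ⟨52, 1, 1, 1, 0⟩⟩ :=
  CoN.c 2 3 2 5 rfl rfl rfl rfl rfl EN0_t8 EN0_c12

theorem EN0_t10 : CoN ENTab ⟨⟨3, 7, 16⟩, ⟨5, 15, 32⟩, ⟨3, 8, 16⟩, ⟨1, 0, 0,
  0, 0⟩, ⟨68, 2, 0, 1, 0⟩, ⟨68, 2, 0, 0, 1⟩, ⟨52, 1, 1, 1, 0⟩⟩ :=
  CoN.c 0 2 80 1 rfl rfl rfl rfl rfl EN0_t9 EN0_c13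

theorem EN0_t11 : CoN ENTab ⟨⟨5, 15, 32⟩, ⟨5, 16, 32⟩, ⟨3, 8, 16⟩, ⟨1, 0, 0,
  0, 0⟩, ⟨148, 2, 0, 1, 0⟩, ⟨148, 2, 0, 0, 1⟩, ⟨52, 1, 1, 1, 0⟩⟩ :=
  CoN.b 2 2 1 rfl rfl rfl EN0_c15 EN0_c16

theorem EN0_t12 : CoN ENTab ⟨⟨5, 15, 32⟩, ⟨5, 16, 32⟩, ⟨3, 8, 16⟩, ⟨1, 0, 0,
  0, 0⟩, ⟨68, 2, 0, 1, 0⟩, ⟨148, 2, 0, 0, 1⟩, ⟨52, 1, 1, 1, 0⟩⟩ :=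
  CoN.c 0 1 80 1 rfl rfl rfl rfl rfl EN0_t11 EN0_c17

theorem EN0_t13 : CoN ENTab ⟨⟨5, 15, 32⟩, ⟨5, 16, 32⟩, ⟨3, 8, 16⟩, ⟨1, 0, 0,
  0, 0⟩, ⟨68, 2, 0, 1, 0⟩, ⟨68, 2, 0, 0, 1⟩, ⟨52, 1, 1, 1, 0⟩⟩ :=
  CoN.c 0 2 80 1 rfl rfl rfl rfl rfl EN0_t12 EN0_c18

theorem EN0_t14 : CoN ENTab ⟨⟨5, 15, 32⟩, ⟨1, 4, 8⟩, ⟨3, 8, 16⟩, ⟨1, 0, 0,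
  0, 0⟩, ⟨68, 2, 0, 1, 0⟩, ⟨68, 2, 0, 0, 1⟩, ⟨52, 1, 1, 1, 0⟩⟩ :=
  CoN.b 1 2 1 rfl rfl rfl EN0_c14 EN0_t13

theorem EN0_t15 : CoN ENTab ⟨⟨3, 7, 16⟩, ⟨1, 4, 8⟩, ⟨3, 8, 16⟩, ⟨1, 0, 0, 0,
  0⟩, ⟨68, 2, 0, 1, 0⟩, ⟨68, 2, 0, 0, 1⟩, ⟨52, 1, 1, 1, 0⟩⟩ :=
  CoN.b 0 1 2 rfl rfl rfl EN0_t10 EN0_t14

theorem EN0_t16 : CoN ENTab ⟨⟨3, 7, 16⟩, ⟨1, 4, 8⟩, ⟨3, 8, 16⟩, ⟨1, 0, 0, 0,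
  0⟩, ⟨68, 2, 0, 1, 0⟩, ⟨68, 2, 0, 0, 1⟩, ⟨20, 1, 1, 1, 0⟩⟩ :=
  CoN.c 0 3 32 1 rfl rfl rfl rfl rfl EN0_t15 EN0_c19

theorem EN0_t17 : CoN ENTab ⟨⟨3, 7, 16⟩, ⟨1, 4, 8⟩, ⟨3, 8, 16⟩, ⟨1, 0, 0, 0,
  0⟩, ⟨28, 2, 0, 1, 0⟩, ⟨68, 2, 0, 0, 1⟩, ⟨20, 1, 1, 1, 0⟩⟩ :=
  CoN.c 0 1 40 1 rfl rfl rfl rfl rfl EN0_t16 EN0_c20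

theorem EN0_t18 : CoN ENTab ⟨⟨3, 7, 16⟩, ⟨1, 4, 8⟩, ⟨3, 8, 16⟩, ⟨1, 0, 0, 0,
  0⟩, ⟨28, 2, 0, 1, 0⟩, ⟨28, 2, 0, 0, 1⟩, ⟨20, 1, 1, 1, 0⟩⟩ :=
  CoN.c 0 2 40 1 rfl rfl rfl rfl rfl EN0_t17 EN0_c21

theorem EN0_t19 : CoN ENTab ⟨⟨7, 15, 32⟩, ⟨13, 31, 64⟩, ⟨7, 16, 32⟩, ⟨260,
  10, 0, 2, 3⟩, ⟨508, 22, 0, 6, 5⟩, ⟨484, 21, 5, 5, 8⟩, ⟨992, 43, 5, 15, 9⟩⟩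
  :=
  CoN.c 1 3 2 1 rfl rfl rfl rfl rfl EN0_c25 EN0_c26

theorem EN0_t20 : CoN ENTab ⟨⟨7, 15, 32⟩, ⟨13, 31, 64⟩, ⟨7, 16, 32⟩, ⟨260,
  10, 0, 2, 3⟩, ⟨508, 22, 0, 6, 5⟩, ⟨484, 21, 5, 5, 8⟩, ⟨484, 21, 5, 9, 4⟩⟩
  :=
  CoN.c 1 3 1 1 rfl rfl rfl rfl rfl EN0_t19 EN0_c27

theorem EN0_t21 : CoN ENTab ⟨⟨7, 15, 32⟩, ⟨13, 31, 64⟩, ⟨7, 16, 32⟩, ⟨260,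
  10, 0, 2, 3⟩, ⟨124, 6, 0, 2, 1⟩, ⟨484, 21, 5, 5, 8⟩, ⟨484, 21, 5, 9, 4⟩⟩
  :=
  CoN.c 0 1 1 2 rfl rfl rfl rfl rfl EN0_t20 EN0_c28

theorem EN0_t22 : CoN ENTab ⟨⟨7, 15, 32⟩, ⟨13, 31, 64⟩, ⟨7, 16, 32⟩, ⟨260,
  10, 0, 2, 3⟩, ⟨124, 6, 0, 2, 1⟩, ⟨484, 21, 5, 5, 8⟩, ⟨236, 9, 5, 5, 2⟩⟩ :=
  CoN.c 1 3 2 1 rfl rfl rfl rfl rfl EN0_t21 EN0_c29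

theorem EN0_t23 : CoN ENTab ⟨⟨7, 15, 32⟩, ⟨13, 31, 64⟩, ⟨7, 16, 32⟩, ⟨260,
  10, 0, 2, 3⟩, ⟨124, 6, 0, 2, 1⟩, ⟨124, 6, 0, 0, 3⟩, ⟨236, 9, 5, 5, 2⟩⟩ :=
  CoN.c 2 3 2 1 rfl rfl rfl rfl rfl EN0_c24 EN0_t22

theorem EN0_t24 : CoN ENTab ⟨⟨7, 15, 32⟩, ⟨13, 31, 64⟩, ⟨7, 16, 32⟩, ⟨68, 2,
  0, 0, 1⟩, ⟨124, 6, 0, 2, 1⟩, ⟨124, 6, 0, 0, 3⟩, ⟨236, 9, 5, 5, 2⟩⟩ :=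
  CoN.c 0 1 2 1 rfl rfl rfl rfl rfl EN0_c23 EN0_t23

theorem EN0_t25 : CoN ENTab ⟨⟨7, 15, 32⟩, ⟨3, 8, 16⟩, ⟨7, 16, 32⟩, ⟨68, 2,
  0, 0, 1⟩, ⟨124, 6, 0, 2, 1⟩, ⟨124, 6, 0, 0, 3⟩, ⟨236, 9, 5, 5, 2⟩⟩ :=
  CoN.b 0 1 2 rfl rfl rfl EN0_t24 EN0_c30

theorem EN0_t26 : CoN ENTab ⟨⟨7, 15, 32⟩, ⟨3, 8, 16⟩, ⟨7, 16, 32⟩, ⟨68, 2,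
  0, 0, 1⟩, ⟨124, 6, 0, 2, 1⟩, ⟨124, 6, 0, 0, 3⟩, ⟨20, 1, 1, 1, 0⟩⟩ :=
  CoN.c 0 3 2 5 rfl rfl rfl rfl rfl EN0_t25 EN0_c31

theorem EN0_t27 : CoN ENTab ⟨⟨7, 15, 32⟩, ⟨7, 16, 32⟩, ⟨1, 2, 4⟩, ⟨260, 10,
  0, 2, 3⟩, ⟨124, 6, 0, 2, 1⟩, ⟨248, 12, 0, 2, 4⟩, ⟨224, 11, 5, 5, 3⟩⟩ :=
  CoN.c 1 2 2 1 rfl rfl rfl rfl rfl EN0_c33 EN0_c34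

theorem EN0_t28 : CoN ENTab ⟨⟨7, 15, 32⟩, ⟨7, 16, 32⟩, ⟨1, 2, 4⟩, ⟨260, 10,
  0, 2, 3⟩, ⟨124, 6, 0, 2, 1⟩, ⟨124, 6, 0, 0, 3⟩, ⟨224, 11, 5, 5, 3⟩⟩ :=
  CoN.c 1 2 1 1 rfl rfl rfl rfl rfl EN0_t27 EN0_c35

theorem EN0_t29 : CoN ENTab ⟨⟨7, 15, 32⟩, ⟨7, 16, 32⟩, ⟨1, 2, 4⟩, ⟨68, 2, 0,
  0, 1⟩, ⟨124, 6, 0, 2, 1⟩, ⟨124, 6, 0, 0, 3⟩, ⟨224, 11, 5, 5, 3⟩⟩ :=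
  CoN.c 0 1 2 1 rfl rfl rfl rfl rfl EN0_c32 EN0_t28

theorem EN0_t30 : CoN ENTab ⟨⟨7, 15, 32⟩, ⟨7, 16, 32⟩, ⟨1, 2, 4⟩, ⟨68, 2, 0,
  0, 1⟩, ⟨124, 6, 0, 2, 1⟩, ⟨124, 6, 0, 0, 3⟩, ⟨20, 1, 1, 1, 0⟩⟩ :=
  CoN.c 2 3 1 5 rfl rfl rfl rfl rfl EN0_t29 EN0_c36

theorem EN0_t31 : CoN ENTab ⟨⟨7, 15, 32⟩, ⟨3, 8, 16⟩, ⟨1, 2, 4⟩, ⟨68, 2, 0,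
  0, 1⟩, ⟨124, 6, 0, 2, 1⟩, ⟨124, 6, 0, 0, 3⟩, ⟨20, 1, 1, 1, 0⟩⟩ :=
  CoN.b 1 1 4 rfl rfl rfl EN0_t26 EN0_t30

theorem EN0_t32 : CoN ENTab ⟨⟨7, 15, 32⟩, ⟨7, 16, 32⟩, ⟨1, 2, 4⟩, ⟨124, 6,
  0, 0, 3⟩, ⟨124, 6, 0, 2, 1⟩, ⟨28, 2, 0, 0, 1⟩, ⟨20, 1, 1, 1, 0⟩⟩ :=
  CoN.c 2 3 3 4 rfl rfl rfl rfl rfl EN0_c38 EN0_c39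

theorem EN0_t33 : CoN ENTab ⟨⟨7, 15, 32⟩, ⟨3, 8, 16⟩, ⟨1, 2, 4⟩, ⟨124, 6, 0,
  0, 3⟩, ⟨124, 6, 0, 2, 1⟩, ⟨28, 2, 0, 0, 1⟩, ⟨20, 1, 1, 1, 0⟩⟩ :=
  CoN.b 1 1 4 rfl rfl rfl EN0_c37 EN0_t32

theorem EN0_t34 : CoN ENTab ⟨⟨7, 15, 32⟩, ⟨3, 8, 16⟩, ⟨1, 2, 4⟩, ⟨68, 2, 0,
  0, 1⟩, ⟨124, 6, 0, 2, 1⟩, ⟨28, 2, 0, 0, 1⟩, ⟨20, 1, 1, 1, 0⟩⟩ :=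
  CoN.c 0 2 1 2 rfl rfl rfl rfl rfl EN0_t31 EN0_t33

theorem EN0_t35 : CoN ENTab ⟨⟨7, 15, 32⟩, ⟨7, 16, 32⟩, ⟨1, 2, 4⟩, ⟨124, 6,
  0, 2, 1⟩, ⟨28, 2, 0, 1, 0⟩, ⟨28, 2, 0, 0, 1⟩, ⟨164, 10, 4, 4, 3⟩⟩ :=
  CoN.c 0 2 1 4 rfl rfl rfl rfl rfl EN0_c41 EN0_c42

theorem EN0_t36 : CoN ENTab ⟨⟨7, 15, 32⟩, ⟨7, 16, 32⟩, ⟨1, 2, 4⟩, ⟨124, 6,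
  0, 2, 1⟩, ⟨28, 2, 0, 1, 0⟩, ⟨28, 2, 0, 0, 1⟩, ⟨20, 1, 1, 1, 0⟩⟩ :=
  CoN.c 2 3 3 4 rfl rfl rfl rfl rfl EN0_t35 EN0_c43

theorem EN0_t37 : CoN ENTab ⟨⟨7, 15, 32⟩, ⟨3, 8, 16⟩, ⟨1, 2, 4⟩, ⟨124, 6, 0,
  2, 1⟩, ⟨28, 2, 0, 1, 0⟩, ⟨28, 2, 0, 0, 1⟩, ⟨20, 1, 1, 1, 0⟩⟩ :=
  CoN.b 1 1 4 rfl rfl rfl EN0_c40 EN0_t36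

theorem EN0_t38 : CoN ENTab ⟨⟨7, 15, 32⟩, ⟨3, 8, 16⟩, ⟨1, 2, 4⟩, ⟨68, 2, 0,
  0, 1⟩, ⟨28, 2, 0, 1, 0⟩, ⟨28, 2, 0, 0, 1⟩, ⟨20, 1, 1, 1, 0⟩⟩ :=
  CoN.c 0 1 1 2 rfl rfl rfl rfl rfl EN0_t34 EN0_t37

theorem EN0_t39 : CoN ENTab ⟨⟨3, 7, 16⟩, ⟨3, 8, 16⟩, ⟨1, 2, 4⟩, ⟨68, 2, 0,
  0, 1⟩, ⟨28, 2, 0, 1, 0⟩, ⟨28, 2, 0, 0, 1⟩, ⟨20, 1, 1, 1, 0⟩⟩ :=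
  CoN.b 2 4 1 rfl rfl rfl EN0_t38 EN0_c44

theorem EN0_t40 : CoN ENTab ⟨⟨3, 7, 16⟩, ⟨3, 8, 16⟩, ⟨1, 2, 4⟩, ⟨1, 0, 0, 0,
  0⟩, ⟨28, 2, 0, 1, 0⟩, ⟨28, 2, 0, 0, 1⟩, ⟨20, 1, 1, 1, 0⟩⟩ :=
  CoN.c 0 2 40 1 rfl rfl rfl rfl rfl EN0_c22 EN0_t39

theorem EN0_t41 : CoN ENTab ⟨⟨3, 7, 16⟩, ⟨1, 4, 8⟩, ⟨1, 2, 4⟩, ⟨1, 0, 0, 0,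
  0⟩, ⟨28, 2, 0, 1, 0⟩, ⟨28, 2, 0, 0, 1⟩, ⟨20, 1, 1, 1, 0⟩⟩ :=
  CoN.b 1 1 2 rfl rfl rfl EN0_t18 EN0_t40

theorem EN0_t42 : CoN ENTab ⟨⟨3, 7, 16⟩, ⟨1, 4, 8⟩, ⟨1, 2, 4⟩, ⟨1, 0, 0, 0,
  0⟩, ⟨8, 2, 0, 1, 0⟩, ⟨28, 2, 0, 0, 1⟩, ⟨20, 1, 1, 1, 0⟩⟩ :=
  CoN.c 0 1 20 1 rfl rfl rfl rfl rfl EN0_t41 EN0_c45

theorem EN0_t43 : CoN ENTab ⟨⟨3, 7, 16⟩, ⟨1, 4, 8⟩, ⟨1, 2, 4⟩, ⟨1, 0, 0, 0,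
  0⟩, ⟨8, 2, 0, 1, 0⟩, ⟨8, 2, 0, 0, 1⟩, ⟨20, 1, 1, 1, 0⟩⟩ :=
  CoN.c 0 2 20 1 rfl rfl rfl rfl rfl EN0_t42 EN0_c46

theorem EN0_t44 : CoN ENTab ⟨⟨3, 7, 16⟩, ⟨1, 4, 8⟩, ⟨1, 2, 4⟩, ⟨1, 0, 0, 0,
  0⟩, ⟨8, 2, 0, 1, 0⟩, ⟨8, 2, 0, 0, 1⟩, ⟨4, 1, 1, 1, 0⟩⟩ :=
  CoN.c 0 3 16 1 rfl rfl rfl rfl rfl EN0_t43 EN0_c47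

theorem EN0_t45 : CoN ENTab ⟨⟨1, 3, 8⟩, ⟨1, 4, 8⟩, ⟨1, 2, 4⟩, ⟨1, 0, 0, 0,
  0⟩, ⟨8, 2, 0, 1, 0⟩, ⟨8, 2, 0, 0, 1⟩, ⟨4, 1, 1, 1, 0⟩⟩ :=
  CoN.b 2 2 1 rfl rfl rfl EN0_t44 EN0_c48

theorem EN0_t46 : CoN ENTab ⟨⟨1, 3, 8⟩, ⟨0, 1, 2⟩, ⟨1, 2, 4⟩, ⟨1, 0, 0, 0,
  0⟩, ⟨8, 2, 0, 1, 0⟩, ⟨8, 2, 0, 0, 1⟩, ⟨4, 1, 1, 1, 0⟩⟩ :=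
  CoN.b 1 2 1 rfl rfl rfl EN0_c3 EN0_t45

theorem EN0_t47 : CoN ENTab ⟨⟨1, 1, 4⟩, ⟨0, 1, 2⟩, ⟨1, 2, 4⟩, ⟨1, 0, 0, 0,
  0⟩, ⟨8, 2, 0, 1, 0⟩, ⟨8, 2, 0, 0, 1⟩, ⟨4, 1, 1, 1, 0⟩⟩ :=
  CoN.b 0 1 2 rfl rfl rfl EN0_t1 EN0_t46

theorem EN0_t48 : CoN ENTab ⟨⟨3, 3, 8⟩, ⟨5, 7, 16⟩, ⟨3, 4, 8⟩, ⟨1, 0, 0, 0,
  0⟩, ⟨8, 2, 0, 1, 0⟩, ⟨8, 2, 0, 0, 1⟩, ⟨4, 1, 1, 1, 0⟩⟩ :=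
  CoN.c 0 2 20 1 rfl rfl rfl rfl rfl EN0_c49 EN0_c50

theorem EN0_t49 : CoN ENTab ⟨⟨5, 7, 16⟩, ⟨1, 2, 4⟩, ⟨3, 4, 8⟩, ⟨1, 0, 0, 0,
  0⟩, ⟨8, 2, 0, 1, 0⟩, ⟨28, 2, 0, 0, 1⟩, ⟨20, 1, 1, 1, 0⟩⟩ :=
  CoN.c 2 3 3 4 rfl rfl rfl rfl rfl EN0_c51 EN0_c52

theorem EN0_t50 : CoN ENTab ⟨⟨5, 7, 16⟩, ⟨1, 2, 4⟩, ⟨3, 4, 8⟩, ⟨164, 10, 4,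
  4, 3⟩, ⟨44, 6, 0, 2, 1⟩, ⟨28, 2, 0, 0, 1⟩, ⟨348, 32, 10, 10, 11⟩⟩ :=
  CoN.c 1 2 3 5 rfl rfl rfl rfl rfl EN0_c55 EN0_c56

theorem EN0_t51 : CoN ENTab ⟨⟨5, 7, 16⟩, ⟨1, 2, 4⟩, ⟨3, 4, 8⟩, ⟨164, 10, 4,
  4, 3⟩, ⟨8, 2, 0, 1, 0⟩, ⟨28, 2, 0, 0, 1⟩, ⟨348, 32, 10, 10, 11⟩⟩ :=
  CoN.c 1 2 2 1 rfl rfl rfl rfl rfl EN0_c54 EN0_t50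

theorem EN0_t52 : CoN ENTab ⟨⟨5, 7, 16⟩, ⟨1, 2, 4⟩, ⟨3, 4, 8⟩, ⟨164, 10, 4,
  4, 3⟩, ⟨8, 2, 0, 1, 0⟩, ⟨28, 2, 0, 0, 1⟩, ⟨76, 9, 5, 5, 2⟩⟩ :=
  CoN.c 2 3 7 2 rfl rfl rfl rfl rfl EN0_t51 EN0_c57

theorem EN0_t53 : CoN ENTab ⟨⟨5, 7, 16⟩, ⟨1, 2, 4⟩, ⟨3, 4, 8⟩, ⟨20, 1, 1, 1,
  0⟩, ⟨8, 2, 0, 1, 0⟩, ⟨28, 2, 0, 0, 1⟩, ⟨76, 9, 5, 5, 2⟩⟩ :=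
  CoN.c 0 2 4 3 rfl rfl rfl rfl rfl EN0_c53 EN0_t52

theorem EN0_t54 : CoN ENTab ⟨⟨5, 7, 16⟩, ⟨1, 2, 4⟩, ⟨3, 4, 8⟩, ⟨20, 1, 1, 1,
  0⟩, ⟨8, 2, 0, 1, 0⟩, ⟨28, 2, 0, 0, 1⟩, ⟨4, 1, 1, 1, 0⟩⟩ :=
  CoN.c 2 3 2 5 rfl rfl rfl rfl rfl EN0_t53 EN0_c58

theorem EN0_t55 : CoN ENTab ⟨⟨5, 7, 16⟩, ⟨1, 2, 4⟩, ⟨3, 4, 8⟩, ⟨1, 0, 0, 0,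
  0⟩, ⟨8, 2, 0, 1, 0⟩, ⟨28, 2, 0, 0, 1⟩, ⟨4, 1, 1, 1, 0⟩⟩ :=
  CoN.c 0 3 16 1 rfl rfl rfl rfl rfl EN0_t49 EN0_t54

theorem EN0_t56 : CoN ENTab ⟨⟨5, 7, 16⟩, ⟨5, 8, 16⟩, ⟨3, 4, 8⟩, ⟨272, 28, 0,
  6, 8⟩, ⟨44, 6, 0, 2, 1⟩, ⟨448, 57, 15, 15, 21⟩, ⟨76, 9, 5, 5, 2⟩⟩ :=
  CoN.b 2 2 1 rfl rfl rfl EN0_c62 EN0_c63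

theorem EN0_t57 : CoN ENTab ⟨⟨5, 7, 16⟩, ⟨5, 8, 16⟩, ⟨3, 4, 8⟩, ⟨272, 28, 0,
  6, 8⟩, ⟨44, 6, 0, 2, 1⟩, ⟨44, 6, 0, 0, 3⟩, ⟨76, 9, 5, 5, 2⟩⟩ :=
  CoN.c 2 3 5 3 rfl rfl rfl rfl rfl EN0_c61 EN0_t56

theorem EN0_t58 : CoN ENTab ⟨⟨5, 7, 16⟩, ⟨1, 2, 4⟩, ⟨3, 4, 8⟩, ⟨272, 28, 0,
  6, 8⟩, ⟨44, 6, 0, 2, 1⟩, ⟨44, 6, 0, 0, 3⟩, ⟨76, 9, 5, 5, 2⟩⟩ :=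
  CoN.b 1 2 1 rfl rfl rfl EN0_c60 EN0_t57

theorem EN0_t59 : CoN ENTab ⟨⟨5, 7, 16⟩, ⟨1, 2, 4⟩, ⟨3, 4, 8⟩, ⟨28, 2, 0, 0,
  1⟩, ⟨44, 6, 0, 2, 1⟩, ⟨44, 6, 0, 0, 3⟩, ⟨76, 9, 5, 5, 2⟩⟩ :=
  CoN.c 0 1 5 3 rfl rfl rfl rfl rfl EN0_c59 EN0_t58

theorem EN0_t60 : CoN ENTab ⟨⟨5, 7, 16⟩, ⟨1, 2, 4⟩, ⟨3, 4, 8⟩, ⟨28, 2, 0, 0,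
  1⟩, ⟨44, 6, 0, 2, 1⟩, ⟨8, 2, 0, 0, 1⟩, ⟨76, 9, 5, 5, 2⟩⟩ :=
  CoN.c 0 2 1 2 rfl rfl rfl rfl rfl EN0_t59 EN0_c64

theorem EN0_t61 : CoN ENTab ⟨⟨5, 7, 16⟩, ⟨1, 2, 4⟩, ⟨3, 4, 8⟩, ⟨28, 2, 0, 0,
  1⟩, ⟨8, 2, 0, 1, 0⟩, ⟨8, 2, 0, 0, 1⟩, ⟨76, 9, 5, 5, 2⟩⟩ :=
  CoN.c 0 1 1 2 rfl rfl rfl rfl rfl EN0_t60 EN0_c65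

theorem EN0_t62 : CoN ENTab ⟨⟨5, 7, 16⟩, ⟨1, 2, 4⟩, ⟨3, 4, 8⟩, ⟨28, 2, 0, 0,
  1⟩, ⟨8, 2, 0, 1, 0⟩, ⟨8, 2, 0, 0, 1⟩, ⟨4, 1, 1, 1, 0⟩⟩ :=
  CoN.c 0 3 2 5 rfl rfl rfl rfl rfl EN0_t61 EN0_c66

theorem EN0_t63 : CoN ENTab ⟨⟨5, 7, 16⟩, ⟨1, 2, 4⟩, ⟨3, 4, 8⟩, ⟨1, 0, 0, 0,
  0⟩, ⟨8, 2, 0, 1, 0⟩, ⟨8, 2, 0, 0, 1⟩, ⟨4, 1, 1, 1, 0⟩⟩ :=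
  CoN.c 0 2 20 1 rfl rfl rfl rfl rfl EN0_t55 EN0_t62

theorem EN0_t64 : CoN ENTab ⟨⟨3, 3, 8⟩, ⟨1, 2, 4⟩, ⟨3, 4, 8⟩, ⟨1, 0, 0, 0,
  0⟩, ⟨8, 2, 0, 1, 0⟩, ⟨8, 2, 0, 0, 1⟩, ⟨4, 1, 1, 1, 0⟩⟩ :=
  CoN.b 0 1 2 rfl rfl rfl EN0_t48 EN0_t63

theorem EN0_t65 : CoN ENTab ⟨⟨15, 15, 32⟩, ⟨3, 4, 8⟩, ⟨1, 1, 2⟩, ⟨1, 0, 0,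
  0, 0⟩, ⟨372, 30, 0, 9, 6⟩, ⟨16, 4, 0, 1, 1⟩, ⟨728, 182, 8, 53, 42⟩⟩ :=
  CoN.c 1 3 3 1 rfl rfl rfl rfl rfl EN0_c69 EN0_c70

theorem EN0_t66 : CoN ENTab ⟨⟨15, 15, 32⟩, ⟨3, 4, 8⟩, ⟨1, 1, 2⟩, ⟨1, 0, 0,
  0, 0⟩, ⟨120, 30, 0, 9, 6⟩, ⟨16, 4, 0, 1, 1⟩, ⟨728, 182, 8, 53, 42⟩⟩ :=
  CoN.c 0 1 252 1 rfl rfl rfl rfl rfl EN0_t65 EN0_c71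

theorem EN0_t67 : CoN ENTab ⟨⟨63, 63, 128⟩, ⟨59, 63, 128⟩, ⟨1, 1, 2⟩, ⟨1, 0,
  0, 0, 0⟩, ⟨728, 182, 8, 53, 42⟩, ⟨1496, 374, 8, 101, 90⟩, ⟨2692, 94, 4,
  25, 24⟩⟩ :=
  CoN.c 0 3 3088 1 rfl rfl rfl rfl rfl EN0_c73 EN0_c74

theorem EN0_t68 : CoN ENTab ⟨⟨63, 63, 128⟩, ⟨59, 63, 128⟩, ⟨1, 1, 2⟩, ⟨1, 0,
  0, 0, 0⟩, ⟨728, 182, 8, 53, 42⟩, ⟨1496, 374, 8, 101, 90⟩, ⟨1148, 94, 4,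
  25, 24⟩⟩ :=
  CoN.c 0 3 1544 1 rfl rfl rfl rfl rfl EN0_t67 EN0_c75

theorem EN0_t69 : CoN ENTab ⟨⟨63, 63, 128⟩, ⟨59, 63, 128⟩, ⟨1, 1, 2⟩, ⟨1, 0,
  0, 0, 0⟩, ⟨728, 182, 8, 53, 42⟩, ⟨16, 4, 0, 1, 1⟩, ⟨1148, 94, 4, 25, 24⟩⟩
  :=
  CoN.c 1 2 1 48 rfl rfl rfl rfl rfl EN0_t68 EN0_c76

theorem EN0_t70 : CoN ENTab ⟨⟨31, 31, 64⟩, ⟨59, 63, 128⟩, ⟨1, 1, 2⟩, ⟨1, 0,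
  0, 0, 0⟩, ⟨728, 182, 8, 53, 42⟩, ⟨16, 4, 0, 1, 1⟩, ⟨1148, 94, 4, 25, 24⟩⟩
  :=
  CoN.b 2 32 1 rfl rfl rfl EN0_t69 EN0_c77

theorem EN0_t71 : CoN ENTab ⟨⟨31, 31, 64⟩, ⟨27, 31, 64⟩, ⟨1, 1, 2⟩, ⟨1, 0,
  0, 0, 0⟩, ⟨728, 182, 8, 53, 42⟩, ⟨16, 4, 0, 1, 1⟩, ⟨1148, 94, 4, 25, 24⟩⟩
  :=
  CoN.b 1 1 32 rfl rfl rfl EN0_c72 EN0_t70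

theorem EN0_t72 : CoN ENTab ⟨⟨15, 15, 32⟩, ⟨27, 31, 64⟩, ⟨1, 1, 2⟩, ⟨1, 0,
  0, 0, 0⟩, ⟨728, 182, 8, 53, 42⟩, ⟨16, 4, 0, 1, 1⟩, ⟨1148, 94, 4, 25, 24⟩⟩
  :=
  CoN.b 2 16 1 rfl rfl rfl EN0_t71 EN0_c78

theorem EN0_t73 : CoN ENTab ⟨⟨15, 15, 32⟩, ⟨3, 4, 8⟩, ⟨1, 1, 2⟩, ⟨1, 0, 0,
  0, 0⟩, ⟨728, 182, 8, 53, 42⟩, ⟨16, 4, 0, 1, 1⟩, ⟨1148, 94, 4, 25, 24⟩⟩ :=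
  CoN.b 0 1 4 rfl rfl rfl EN0_t72 EN0_c79

theorem EN0_t74 : CoN ENTab ⟨⟨15, 15, 32⟩, ⟨3, 4, 8⟩, ⟨1, 1, 2⟩, ⟨1, 0, 0,
  0, 0⟩, ⟨728, 182, 8, 53, 42⟩, ⟨16, 4, 0, 1, 1⟩, ⟨376, 94, 4, 25, 24⟩⟩ :=
  CoN.c 0 3 772 1 rfl rfl rfl rfl rfl EN0_t73 EN0_c80

theorem EN0_t75 : CoN ENTab ⟨⟨15, 15, 32⟩, ⟨3, 4, 8⟩, ⟨1, 1, 2⟩, ⟨1, 0, 0,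
  0, 0⟩, ⟨728, 182, 8, 53, 42⟩, ⟨16, 4, 0, 1, 1⟩, ⟨184, 46, 4, 13, 12⟩⟩ :=
  CoN.c 2 3 12 1 rfl rfl rfl rfl rfl EN0_t74 EN0_c81

theorem EN0_t76 : CoN ENTab ⟨⟨15, 15, 32⟩, ⟨3, 4, 8⟩, ⟨1, 1, 2⟩, ⟨1, 0, 0,
  0, 0⟩, ⟨120, 30, 0, 9, 6⟩, ⟨16, 4, 0, 1, 1⟩, ⟨184, 46, 4, 13, 12⟩⟩ :=
  CoN.c 1 3 3 2 rfl rfl rfl rfl rfl EN0_t66 EN0_t75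

theorem EN0_t77 : CoN ENTab ⟨⟨7, 7, 16⟩, ⟨3, 4, 8⟩, ⟨1, 1, 2⟩, ⟨1, 0, 0, 0,
  0⟩, ⟨120, 30, 0, 9, 6⟩, ⟨16, 4, 0, 1, 1⟩, ⟨184, 46, 4, 13, 12⟩⟩ :=
  CoN.b 2 8 1 rfl rfl rfl EN0_t76 EN0_c82

theorem EN0_t78 : CoN ENTab ⟨⟨7, 7, 16⟩, ⟨3, 4, 8⟩, ⟨1, 1, 2⟩, ⟨1, 0, 0, 0,
  0⟩, ⟨120, 30, 0, 9, 6⟩, ⟨16, 4, 0, 1, 1⟩, ⟨88, 22, 4, 7, 6⟩⟩ :=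
  CoN.c 2 3 6 1 rfl rfl rfl rfl rfl EN0_t77 EN0_c83

theorem EN0_t79 : CoN ENTab ⟨⟨7, 7, 16⟩, ⟨3, 4, 8⟩, ⟨1, 1, 2⟩, ⟨1, 0, 0, 0,
  0⟩, ⟨56, 14, 0, 5, 2⟩, ⟨16, 4, 0, 1, 1⟩, ⟨88, 22, 4, 7, 6⟩⟩ :=
  CoN.c 1 2 1 4 rfl rfl rfl rfl rfl EN0_c68 EN0_t78

theorem EN0_t80 : CoN ENTab ⟨⟨7, 7, 16⟩, ⟨3, 4, 8⟩, ⟨1, 1, 2⟩, ⟨1, 0, 0, 0,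
  0⟩, ⟨56, 14, 0, 5, 2⟩, ⟨16, 4, 0, 1, 1⟩, ⟨40, 10, 4, 4, 3⟩⟩ :=
  CoN.c 2 3 3 1 rfl rfl rfl rfl rfl EN0_t79 EN0_c84

theorem EN0_t81 : CoN ENTab ⟨⟨7, 7, 16⟩, ⟨3, 4, 8⟩, ⟨1, 1, 2⟩, ⟨1, 0, 0, 0,
  0⟩, ⟨8, 2, 0, 1, 0⟩, ⟨16, 4, 0, 1, 1⟩, ⟨40, 10, 4, 4, 3⟩⟩ :=
  CoN.c 1 2 3 2 rfl rfl rfl rfl rfl EN0_c67 EN0_t80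

theorem EN0_t82 : CoN ENTab ⟨⟨13, 15, 32⟩, ⟨3, 4, 8⟩, ⟨1, 1, 2⟩, ⟨1, 0, 0,
  0, 0⟩, ⟨16, 4, 0, 1, 1⟩, ⟨248, 62, 0, 14, 17⟩, ⟨176, 44, 4, 10, 14⟩⟩ :=
  CoN.b 0 1 4 rfl rfl rfl EN0_c86 EN0_c87

theorem EN0_t83 : CoN ENTab ⟨⟨7, 7, 16⟩, ⟨3, 4, 8⟩, ⟨1, 1, 2⟩, ⟨1, 0, 0, 0,
  0⟩, ⟨16, 4, 0, 1, 1⟩, ⟨248, 62, 0, 14, 17⟩, ⟨176, 44, 4, 10, 14⟩⟩ :=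
  CoN.b 0 1 2 rfl rfl rfl EN0_c85 EN0_t82

theorem EN0_t84 : CoN ENTab ⟨⟨7, 7, 16⟩, ⟨3, 4, 8⟩, ⟨1, 1, 2⟩, ⟨1, 0, 0, 0,
  0⟩, ⟨16, 4, 0, 1, 1⟩, ⟨120, 30, 0, 6, 9⟩, ⟨176, 44, 4, 10, 14⟩⟩ :=
  CoN.c 1 2 8 1 rfl rfl rfl rfl rfl EN0_t83 EN0_c88

theorem EN0_t85 : CoN ENTab ⟨⟨7, 7, 16⟩, ⟨3, 4, 8⟩, ⟨1, 1, 2⟩, ⟨1, 0, 0, 0,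
  0⟩, ⟨16, 4, 0, 1, 1⟩, ⟨56, 14, 0, 2, 5⟩, ⟨176, 44, 4, 10, 14⟩⟩ :=
  CoN.c 1 2 4 1 rfl rfl rfl rfl rfl EN0_t84 EN0_c89

theorem EN0_t86 : CoN ENTab ⟨⟨7, 7, 16⟩, ⟨3, 4, 8⟩, ⟨1, 1, 2⟩, ⟨1, 0, 0, 0,
  0⟩, ⟨16, 4, 0, 1, 1⟩, ⟨56, 14, 0, 2, 5⟩, ⟨80, 20, 4, 4, 8⟩⟩ :=
  CoN.c 1 3 6 1 rfl rfl rfl rfl rfl EN0_t85 EN0_c90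

theorem EN0_t87 : CoN ENTab ⟨⟨7, 7, 16⟩, ⟨3, 4, 8⟩, ⟨1, 1, 2⟩, ⟨1, 0, 0, 0,
  0⟩, ⟨16, 4, 0, 1, 1⟩, ⟨8, 2, 0, 0, 1⟩, ⟨80, 20, 4, 4, 8⟩⟩ :=
  CoN.c 1 2 2 3 rfl rfl rfl rfl rfl EN0_t86 EN0_c91

theorem EN0_t88 : CoN ENTab ⟨⟨13, 15, 32⟩, ⟨3, 4, 8⟩, ⟨1, 1, 2⟩, ⟨1, 0, 0,
  0, 0⟩, ⟨16, 4, 0, 1, 1⟩, ⟨176, 44, 4, 10, 14⟩, ⟨760, 190, 4, 49, 48⟩⟩ :=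
  CoN.c 1 3 48 1 rfl rfl rfl rfl rfl EN0_c93 EN0_c94

theorem EN0_t89 : CoN ENTab ⟨⟨13, 15, 32⟩, ⟨3, 4, 8⟩, ⟨1, 1, 2⟩, ⟨1, 0, 0,
  0, 0⟩, ⟨16, 4, 0, 1, 1⟩, ⟨176, 44, 4, 10, 14⟩, ⟨376, 94, 4, 25, 24⟩⟩ :=
  CoN.c 1 3 24 1 rfl rfl rfl rfl rfl EN0_t88 EN0_c95

theorem EN0_t90 : CoN ENTab ⟨⟨13, 15, 32⟩, ⟨3, 4, 8⟩, ⟨1, 1, 2⟩, ⟨1, 0, 0,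
  0, 0⟩, ⟨16, 4, 0, 1, 1⟩, ⟨80, 20, 4, 4, 8⟩, ⟨376, 94, 4, 25, 24⟩⟩ :=
  CoN.c 1 2 6 1 rfl rfl rfl rfl rfl EN0_t89 EN0_c96

theorem EN0_t91 : CoN ENTab ⟨⟨7, 7, 16⟩, ⟨3, 4, 8⟩, ⟨1, 1, 2⟩, ⟨1, 0, 0, 0,
  0⟩, ⟨16, 4, 0, 1, 1⟩, ⟨80, 20, 4, 4, 8⟩, ⟨376, 94, 4, 25, 24⟩⟩ :=
  CoN.b 0 1 2 rfl rfl rfl EN0_c92 EN0_t90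

theorem EN0_t92 : CoN ENTab ⟨⟨7, 7, 16⟩, ⟨3, 4, 8⟩, ⟨1, 1, 2⟩, ⟨1, 0, 0, 0,
  0⟩, ⟨16, 4, 0, 1, 1⟩, ⟨80, 20, 4, 4, 8⟩, ⟨184, 46, 4, 13, 12⟩⟩ :=
  CoN.c 1 3 12 1 rfl rfl rfl rfl rfl EN0_t91 EN0_c97

theorem EN0_t93 : CoN ENTab ⟨⟨31, 31, 64⟩, ⟨59, 63, 128⟩, ⟨1, 1, 2⟩, ⟨5244,
  174, 28, 49, 52⟩, ⟨3684, 542, 60, 153, 148⟩, ⟨2212, 174, 28, 49, 52⟩,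
  ⟨8988, 718, 92, 209, 196⟩⟩ :=
  CoN.c 0 1 1 1 rfl rfl rfl rfl rfl EN0_c102 EN0_c103

theorem EN0_t94 : CoN ENTab ⟨⟨31, 31, 64⟩, ⟨59, 63, 128⟩, ⟨1, 1, 2⟩, ⟨5244,
  174, 28, 49, 52⟩, ⟨3684, 542, 60, 153, 148⟩, ⟨2212, 174, 28, 49, 52⟩,
  ⟨468, 68, 8, 20, 18⟩⟩ :=
  CoN.c 0 3 1 8 rfl rfl rfl rfl rfl EN0_t93 EN0_c104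

theorem EN0_t95 : CoN ENTab ⟨⟨31, 31, 64⟩, ⟨59, 63, 128⟩, ⟨1, 1, 2⟩, ⟨1, 0,
  0, 0, 0⟩, ⟨3684, 542, 60, 153, 148⟩, ⟨2212, 174, 28, 49, 52⟩, ⟨468, 68, 8,
  20, 18⟩⟩ :=
  CoN.c 0 2 3032 1 rfl rfl rfl rfl rfl EN0_c101 EN0_t94

theorem EN0_t96 : CoN ENTab ⟨⟨31, 31, 64⟩, ⟨27, 31, 64⟩, ⟨1, 1, 2⟩, ⟨1, 0,
  0, 0, 0⟩, ⟨3684, 542, 60, 153, 148⟩, ⟨2212, 174, 28, 49, 52⟩, ⟨468, 68, 8,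
  20, 18⟩⟩ :=
  CoN.b 1 1 32 rfl rfl rfl EN0_c100 EN0_t95

theorem EN0_t97 : CoN ENTab ⟨⟨31, 31, 64⟩, ⟨27, 31, 64⟩, ⟨1, 1, 2⟩, ⟨1, 0,
  0, 0, 0⟩, ⟨184, 46, 4, 13, 12⟩, ⟨2212, 174, 28, 49, 52⟩, ⟨468, 68, 8, 20,
  18⟩⟩ :=
  CoN.c 1 2 8 1 rfl rfl rfl rfl rfl EN0_c99 EN0_t96

theorem EN0_t98 : CoN ENTab ⟨⟨15, 15, 32⟩, ⟨27, 31, 64⟩, ⟨1, 1, 2⟩, ⟨1, 0,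
  0, 0, 0⟩, ⟨184, 46, 4, 13, 12⟩, ⟨2212, 174, 28, 49, 52⟩, ⟨468, 68, 8, 20,
  18⟩⟩ :=
  CoN.b 2 16 1 rfl rfl rfl EN0_t97 EN0_c105

theorem EN0_t99 : CoN ENTab ⟨⟨59, 63, 128⟩, ⟨15, 16, 32⟩, ⟨1, 1, 2⟩, ⟨18676,
  1258, 148, 355, 348⟩, ⟨8188, 910, 92, 257, 244⟩, ⟨2212, 174, 28, 49, 52⟩,
  ⟨8988, 718, 92, 209, 196⟩⟩ :=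
  CoN.c 0 1 1 2 rfl rfl rfl rfl rfl EN0_c110 EN0_c111

theorem EN0_t100 : CoN ENTab ⟨⟨59, 63, 128⟩, ⟨7, 8, 16⟩, ⟨1, 1, 2⟩, ⟨18676,
  1258, 148, 355, 348⟩, ⟨8188, 910, 92, 257, 244⟩, ⟨2212, 174, 28, 49, 52⟩,
  ⟨8988, 718, 92, 209, 196⟩⟩ :=
  CoN.b 1 1 8 rfl rfl rfl EN0_c109 EN0_t99

theorem EN0_t101 : CoN ENTab ⟨⟨59, 63, 128⟩, ⟨7, 8, 16⟩, ⟨1, 1, 2⟩, ⟨5244,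
  174, 28, 49, 52⟩, ⟨8188, 910, 92, 257, 244⟩, ⟨2212, 174, 28, 49, 52⟩,
  ⟨8988, 718, 92, 209, 196⟩⟩ :=
  CoN.c 0 1 2 1 rfl rfl rfl rfl rfl EN0_c108 EN0_t100

theorem EN0_t102 : CoN ENTab ⟨⟨27, 31, 64⟩, ⟨7, 8, 16⟩, ⟨1, 1, 2⟩, ⟨5244,
  174, 28, 49, 52⟩, ⟨8188, 910, 92, 257, 244⟩, ⟨2212, 174, 28, 49, 52⟩,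
  ⟨8988, 718, 92, 209, 196⟩⟩ :=
  CoN.b 2 32 1 rfl rfl rfl EN0_t101 EN0_c112

theorem EN0_t103 : CoN ENTab ⟨⟨27, 31, 64⟩, ⟨3, 4, 8⟩, ⟨1, 1, 2⟩, ⟨5244,
  174, 28, 49, 52⟩, ⟨8188, 910, 92, 257, 244⟩, ⟨2212, 174, 28, 49, 52⟩,
  ⟨8988, 718, 92, 209, 196⟩⟩ :=
  CoN.b 1 1 4 rfl rfl rfl EN0_c107 EN0_t102

theorem EN0_t104 : CoN ENTab ⟨⟨27, 31, 64⟩, ⟨3, 4, 8⟩, ⟨1, 1, 2⟩, ⟨5244,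
  174, 28, 49, 52⟩, ⟨184, 46, 4, 13, 12⟩, ⟨2212, 174, 28, 49, 52⟩, ⟨8988,
  718, 92, 209, 196⟩⟩ :=
  CoN.c 0 1 1 16 rfl rfl rfl rfl rfl EN0_t103 EN0_c113

theorem EN0_t105 : CoN ENTab ⟨⟨27, 31, 64⟩, ⟨3, 4, 8⟩, ⟨1, 1, 2⟩, ⟨5244,
  174, 28, 49, 52⟩, ⟨184, 46, 4, 13, 12⟩, ⟨2212, 174, 28, 49, 52⟩, ⟨468, 68,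
  8, 20, 18⟩⟩ :=
  CoN.c 0 3 1 8 rfl rfl rfl rfl rfl EN0_t104 EN0_c114

theorem EN0_t106 : CoN ENTab ⟨⟨27, 31, 64⟩, ⟨3, 4, 8⟩, ⟨1, 1, 2⟩, ⟨1, 0, 0,
  0, 0⟩, ⟨184, 46, 4, 13, 12⟩, ⟨2212, 174, 28, 49, 52⟩, ⟨468, 68, 8, 20,
  18⟩⟩ :=
  CoN.c 0 2 3032 1 rfl rfl rfl rfl rfl EN0_c106 EN0_t105

theorem EN0_t107 : CoN ENTab ⟨⟨15, 15, 32⟩, ⟨3, 4, 8⟩, ⟨1, 1, 2⟩, ⟨1, 0, 0,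
  0, 0⟩, ⟨184, 46, 4, 13, 12⟩, ⟨2212, 174, 28, 49, 52⟩, ⟨468, 68, 8, 20,
  18⟩⟩ :=
  CoN.b 0 1 4 rfl rfl rfl EN0_t98 EN0_t106

theorem EN0_t108 : CoN ENTab ⟨⟨15, 15, 32⟩, ⟨3, 4, 8⟩, ⟨1, 1, 2⟩, ⟨1, 0, 0,
  0, 0⟩, ⟨184, 46, 4, 13, 12⟩, ⟨2212, 174, 28, 49, 52⟩, ⟨284, 22, 4, 7, 6⟩⟩
  :=
  CoN.c 1 3 1 1 rfl rfl rfl rfl rfl EN0_t107 EN0_c115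

theorem EN0_t109 : CoN ENTab ⟨⟨15, 15, 32⟩, ⟨3, 4, 8⟩, ⟨1, 1, 2⟩, ⟨1, 0, 0,
  0, 0⟩, ⟨184, 46, 4, 13, 12⟩, ⟨696, 174, 28, 49, 52⟩, ⟨284, 22, 4, 7, 6⟩⟩
  :=
  CoN.c 0 2 1516 1 rfl rfl rfl rfl rfl EN0_t108 EN0_c116

theorem EN0_t110 : CoN ENTab ⟨⟨15, 15, 32⟩, ⟨3, 4, 8⟩, ⟨1, 1, 2⟩, ⟨1, 0, 0,
  0, 0⟩, ⟨184, 46, 4, 13, 12⟩, ⟨696, 174, 28, 49, 52⟩, ⟨88, 22, 4, 7, 6⟩⟩ :=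
  CoN.c 0 3 196 1 rfl rfl rfl rfl rfl EN0_t109 EN0_c117

theorem EN0_t111 : CoN ENTab ⟨⟨15, 15, 32⟩, ⟨3, 4, 8⟩, ⟨1, 1, 2⟩, ⟨1, 0, 0,
  0, 0⟩, ⟨184, 46, 4, 13, 12⟩, ⟨344, 86, 12, 21, 28⟩, ⟨88, 22, 4, 7, 6⟩⟩ :=
  CoN.c 2 3 1 4 rfl rfl rfl rfl rfl EN0_c98 EN0_t110

theorem EN0_t112 : CoN ENTab ⟨⟨7, 7, 16⟩, ⟨3, 4, 8⟩, ⟨1, 1, 2⟩, ⟨1, 0, 0, 0,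
  0⟩, ⟨184, 46, 4, 13, 12⟩, ⟨344, 86, 12, 21, 28⟩, ⟨88, 22, 4, 7, 6⟩⟩ :=
  CoN.b 2 8 1 rfl rfl rfl EN0_t111 EN0_c118

theorem EN0_t113 : CoN ENTab ⟨⟨7, 7, 16⟩, ⟨3, 4, 8⟩, ⟨1, 1, 2⟩, ⟨1, 0, 0, 0,
  0⟩, ⟨184, 46, 4, 13, 12⟩, ⟨80, 20, 4, 4, 8⟩, ⟨88, 22, 4, 7, 6⟩⟩ :=
  CoN.c 1 2 1 2 rfl rfl rfl rfl rfl EN0_t112 EN0_c119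

theorem EN0_t114 : CoN ENTab ⟨⟨7, 7, 16⟩, ⟨3, 4, 8⟩, ⟨1, 1, 2⟩, ⟨1, 0, 0, 0,
  0⟩, ⟨16, 4, 0, 1, 1⟩, ⟨80, 20, 4, 4, 8⟩, ⟨88, 22, 4, 7, 6⟩⟩ :=
  CoN.c 1 3 6 1 rfl rfl rfl rfl rfl EN0_t92 EN0_t113

theorem EN0_t115 : CoN ENTab ⟨⟨7, 7, 16⟩, ⟨3, 4, 8⟩, ⟨1, 1, 2⟩, ⟨1, 0, 0, 0,
  0⟩, ⟨16, 4, 0, 1, 1⟩, ⟨80, 20, 4, 4, 8⟩, ⟨40, 10, 4, 4, 3⟩⟩ :=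
  CoN.c 1 3 3 1 rfl rfl rfl rfl rfl EN0_t114 EN0_c120

theorem EN0_t116 : CoN ENTab ⟨⟨7, 7, 16⟩, ⟨3, 4, 8⟩, ⟨1, 1, 2⟩, ⟨1, 0, 0, 0,
  0⟩, ⟨16, 4, 0, 1, 1⟩, ⟨8, 2, 0, 0, 1⟩, ⟨40, 10, 4, 4, 3⟩⟩ :=
  CoN.c 2 3 5 1 rfl rfl rfl rfl rfl EN0_t87 EN0_t115

theorem EN0_t117 : CoN ENTab ⟨⟨7, 7, 16⟩, ⟨3, 4, 8⟩, ⟨1, 1, 2⟩, ⟨1, 0, 0, 0,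
  0⟩, ⟨8, 2, 0, 1, 0⟩, ⟨8, 2, 0, 0, 1⟩, ⟨40, 10, 4, 4, 3⟩⟩ :=
  CoN.c 1 2 1 1 rfl rfl rfl rfl rfl EN0_t81 EN0_t116

theorem EN0_t118 : CoN ENTab ⟨⟨219, 255, 512⟩, ⟨13, 16, 32⟩, ⟨7, 8, 16⟩, ⟨1,
  0, 0, 0, 0⟩, ⟨7956, 12, 6, 9, 0⟩, ⟨2740, 34, 28, 28, 3⟩, ⟨2036, 1, 1, 1,
  0⟩⟩ :=
  CoN.c 0 3 2048 1 rfl rfl rfl rfl rfl EN0_c129 EN0_c130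

theorem EN0_t119 : CoN ENTab ⟨⟨219, 255, 512⟩, ⟨13, 16, 32⟩, ⟨7, 8, 16⟩, ⟨1,
  0, 0, 0, 0⟩, ⟨7956, 12, 6, 9, 0⟩, ⟨2740, 34, 28, 28, 3⟩, ⟨1012, 1, 1, 1,
  0⟩⟩ :=
  CoN.c 0 3 1024 1 rfl rfl rfl rfl rfl EN0_t118 EN0_c131

theorem EN0_t120 : CoN ENTab ⟨⟨219, 255, 512⟩, ⟨13, 16, 32⟩, ⟨7, 8, 16⟩, ⟨1,
  0, 0, 0, 0⟩, ⟨3924, 12, 6, 9, 0⟩, ⟨2740, 34, 28, 28, 3⟩, ⟨1012, 1, 1, 1,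
  0⟩⟩ :=
  CoN.c 0 1 4032 1 rfl rfl rfl rfl rfl EN0_t119 EN0_c132

theorem EN0_t121 : CoN ENTab ⟨⟨219, 255, 512⟩, ⟨13, 16, 32⟩, ⟨7, 8, 16⟩, ⟨1,
  0, 0, 0, 0⟩, ⟨3924, 12, 6, 9, 0⟩, ⟨2740, 34, 28, 28, 3⟩, ⟨500, 1, 1, 1,
  0⟩⟩ :=
  CoN.c 0 3 512 1 rfl rfl rfl rfl rfl EN0_t120 EN0_c133

theorem EN0_t122 : CoN ENTab ⟨⟨219, 255, 512⟩, ⟨13, 16, 32⟩, ⟨7, 8, 16⟩, ⟨1,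
  0, 0, 0, 0⟩, ⟨3924, 12, 6, 9, 0⟩, ⟨2740, 34, 28, 28, 3⟩, ⟨244, 1, 1, 1,
  0⟩⟩ :=
  CoN.c 0 3 256 1 rfl rfl rfl rfl rfl EN0_t121 EN0_c134

theorem EN0_t123 : CoN ENTab ⟨⟨219, 255, 512⟩, ⟨13, 16, 32⟩, ⟨7, 8, 16⟩, ⟨1,
  0, 0, 0, 0⟩, ⟨3924, 12, 6, 9, 0⟩, ⟨2740, 34, 28, 28, 3⟩, ⟨116, 1, 1, 1,
  0⟩⟩ :=
  CoN.c 0 3 128 1 rfl rfl rfl rfl rfl EN0_t122 EN0_c135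

theorem EN0_t124 : CoN ENTab ⟨⟨219, 255, 512⟩, ⟨13, 16, 32⟩, ⟨7, 8, 16⟩, ⟨1,
  0, 0, 0, 0⟩, ⟨1908, 12, 6, 9, 0⟩, ⟨2740, 34, 28, 28, 3⟩, ⟨116, 1, 1, 1,
  0⟩⟩ :=
  CoN.c 0 1 2016 1 rfl rfl rfl rfl rfl EN0_t123 EN0_c136

theorem EN0_t125 : CoN ENTab ⟨⟨107, 127, 256⟩, ⟨13, 16, 32⟩, ⟨7, 8, 16⟩, ⟨1,
  0, 0, 0, 0⟩, ⟨1908, 12, 6, 9, 0⟩, ⟨2740, 34, 28, 28, 3⟩, ⟨116, 1, 1, 1,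
  0⟩⟩ :=
  CoN.b 2 16 1 rfl rfl rfl EN0_t124 EN0_c137

theorem EN0_t126 : CoN ENTab ⟨⟨51, 63, 128⟩, ⟨13, 16, 32⟩, ⟨7, 8, 16⟩, ⟨1,
  0, 0, 0, 0⟩, ⟨1908, 12, 6, 9, 0⟩, ⟨2740, 34, 28, 28, 3⟩, ⟨116, 1, 1, 1,
  0⟩⟩ :=
  CoN.b 2 8 1 rfl rfl rfl EN0_t125 EN0_c138

theorem EN0_t127 : CoN ENTab ⟨⟨51, 63, 128⟩, ⟨13, 16, 32⟩, ⟨7, 8, 16⟩, ⟨1,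
  0, 0, 0, 0⟩, ⟨900, 12, 6, 9, 0⟩, ⟨2740, 34, 28, 28, 3⟩, ⟨116, 1, 1, 1, 0⟩⟩
  :=
  CoN.c 0 1 1008 1 rfl rfl rfl rfl rfl EN0_t126 EN0_c139

theorem EN0_t128 : CoN ENTab ⟨⟨51, 63, 128⟩, ⟨13, 16, 32⟩, ⟨7, 8, 16⟩, ⟨1,
  0, 0, 0, 0⟩, ⟨900, 12, 6, 9, 0⟩, ⟨2740, 34, 28, 28, 3⟩, ⟨52, 1, 1, 1, 0⟩⟩
  :=
  CoN.c 0 3 64 1 rfl rfl rfl rfl rfl EN0_t127 EN0_c140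

theorem EN0_t129 : CoN ENTab ⟨⟨51, 63, 128⟩, ⟨3, 4, 8⟩, ⟨7, 8, 16⟩, ⟨1, 0,
  0, 0, 0⟩, ⟨900, 12, 6, 9, 0⟩, ⟨2740, 34, 28, 28, 3⟩, ⟨52, 1, 1, 1, 0⟩⟩ :=
  CoN.b 1 2 1 rfl rfl rfl EN0_c128 EN0_t128

theorem EN0_t130 : CoN ENTab ⟨⟨51, 63, 128⟩, ⟨3, 4, 8⟩, ⟨7, 8, 16⟩, ⟨1, 0,
  0, 0, 0⟩, ⟨900, 12, 6, 9, 0⟩, ⟨1196, 34, 28, 28, 3⟩, ⟨52, 1, 1, 1, 0⟩⟩ :=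
  CoN.c 0 2 1544 1 rfl rfl rfl rfl rfl EN0_t129 EN0_c141

theorem EN0_t131 : CoN ENTab ⟨⟨27, 31, 64⟩, ⟨3, 4, 8⟩, ⟨7, 8, 16⟩, ⟨1, 0, 0,
  0, 0⟩, ⟨900, 12, 6, 9, 0⟩, ⟨1196, 34, 28, 28, 3⟩, ⟨52, 1, 1, 1, 0⟩⟩ :=
  CoN.b 0 1 8 rfl rfl rfl EN0_c127 EN0_t130

theorem EN0_t132 : CoN ENTab ⟨⟨27, 31, 64⟩, ⟨3, 4, 8⟩, ⟨7, 8, 16⟩, ⟨1, 0, 0,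
  0, 0⟩, ⟨396, 12, 6, 9, 0⟩, ⟨1196, 34, 28, 28, 3⟩, ⟨52, 1, 1, 1, 0⟩⟩ :=
  CoN.c 0 1 504 1 rfl rfl rfl rfl rfl EN0_t131 EN0_c142

theorem EN0_t133 : CoN ENTab ⟨⟨15, 15, 32⟩, ⟨3, 4, 8⟩, ⟨7, 8, 16⟩, ⟨1, 0, 0,
  0, 0⟩, ⟨396, 12, 6, 9, 0⟩, ⟨1196, 34, 28, 28, 3⟩, ⟨52, 1, 1, 1, 0⟩⟩ :=
  CoN.b 0 1 4 rfl rfl rfl EN0_c126 EN0_t132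

theorem EN0_t134 : CoN ENTab ⟨⟨15, 15, 32⟩, ⟨3, 4, 8⟩, ⟨7, 8, 16⟩, ⟨1, 0, 0,
  0, 0⟩, ⟨144, 12, 6, 9, 0⟩, ⟨1196, 34, 28, 28, 3⟩, ⟨52, 1, 1, 1, 0⟩⟩ :=
  CoN.c 0 1 252 1 rfl rfl rfl rfl rfl EN0_t133 EN0_c143

theorem EN0_t135 : CoN ENTab ⟨⟨15, 15, 32⟩, ⟨3, 4, 8⟩, ⟨1, 1, 2⟩, ⟨1, 0, 0,
  0, 0⟩, ⟨144, 12, 6, 9, 0⟩, ⟨1196, 34, 28, 28, 3⟩, ⟨52, 1, 1, 1, 0⟩⟩ :=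
  CoN.b 1 1 4 rfl rfl rfl EN0_t134 EN0_c144

theorem EN0_t136 : CoN ENTab ⟨⟨15, 15, 32⟩, ⟨3, 4, 8⟩, ⟨1, 1, 2⟩, ⟨1, 0, 0,
  0, 0⟩, ⟨144, 12, 6, 9, 0⟩, ⟨424, 34, 28, 28, 3⟩, ⟨52, 1, 1, 1, 0⟩⟩ :=
  CoN.c 0 2 772 1 rfl rfl rfl rfl rfl EN0_t135 EN0_c145

theorem EN0_t137 : CoN ENTab ⟨⟨15, 15, 32⟩, ⟨3, 4, 8⟩, ⟨1, 1, 2⟩, ⟨1, 0, 0,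
  0, 0⟩, ⟨40, 10, 4, 7, 0⟩, ⟨424, 34, 28, 28, 3⟩, ⟨52, 1, 1, 1, 0⟩⟩ :=
  CoN.c 1 3 1 2 rfl rfl rfl rfl rfl EN0_c125 EN0_t136

theorem EN0_t138 : CoN ENTab ⟨⟨15, 15, 32⟩, ⟨3, 4, 8⟩, ⟨1, 1, 2⟩, ⟨1, 0, 0,
  0, 0⟩, ⟨40, 10, 4, 7, 0⟩, ⟨112, 28, 22, 22, 3⟩, ⟨52, 1, 1, 1, 0⟩⟩ :=
  CoN.c 2 3 1 6 rfl rfl rfl rfl rfl EN0_c124 EN0_t137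

theorem EN0_t139 : CoN ENTab ⟨⟨15, 15, 32⟩, ⟨3, 4, 8⟩, ⟨1, 1, 2⟩, ⟨1, 0, 0,
  0, 0⟩, ⟨40, 10, 4, 7, 0⟩, ⟨112, 28, 22, 22, 3⟩, ⟨20, 1, 1, 1, 0⟩⟩ :=
  CoN.c 0 3 32 1 rfl rfl rfl rfl rfl EN0_t138 EN0_c146

theorem EN0_t140 : CoN ENTab ⟨⟨15, 15, 32⟩, ⟨3, 4, 8⟩, ⟨1, 1, 2⟩, ⟨20, 1, 1,
  1, 0⟩, ⟨40, 10, 4, 7, 0⟩, ⟨112, 28, 22, 22, 3⟩, ⟨4, 1, 1, 1, 0⟩⟩ :=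
  CoN.c 0 1 4 1 rfl rfl rfl rfl rfl EN0_c147 EN0_c148

theorem EN0_t141 : CoN ENTab ⟨⟨15, 15, 32⟩, ⟨3, 4, 8⟩, ⟨1, 1, 2⟩, ⟨1, 0, 0,
  0, 0⟩, ⟨40, 10, 4, 7, 0⟩, ⟨112, 28, 22, 22, 3⟩, ⟨4, 1, 1, 1, 0⟩⟩ :=
  CoN.c 0 3 16 1 rfl rfl rfl rfl rfl EN0_t139 EN0_t140

theorem EN0_t142 : CoN ENTab ⟨⟨7, 7, 16⟩, ⟨3, 4, 8⟩, ⟨1, 1, 2⟩, ⟨1, 0, 0, 0,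
  0⟩, ⟨40, 10, 4, 7, 0⟩, ⟨112, 28, 22, 22, 3⟩, ⟨4, 1, 1, 1, 0⟩⟩ :=
  CoN.b 2 8 1 rfl rfl rfl EN0_t141 EN0_c149

theorem EN0_t143 : CoN ENTab ⟨⟨7, 7, 16⟩, ⟨3, 4, 8⟩, ⟨1, 1, 2⟩, ⟨1, 0, 0, 0,
  0⟩, ⟨8, 2, 0, 1, 0⟩, ⟨112, 28, 22, 22, 3⟩, ⟨4, 1, 1, 1, 0⟩⟩ :=
  CoN.c 1 3 3 4 rfl rfl rfl rfl rfl EN0_c123 EN0_t142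

theorem EN0_t144 : CoN ENTab ⟨⟨7, 7, 16⟩, ⟨3, 4, 8⟩, ⟨1, 1, 2⟩, ⟨1, 0, 0, 0,
  0⟩, ⟨8, 2, 0, 1, 0⟩, ⟨64, 16, 10, 10, 3⟩, ⟨4, 1, 1, 1, 0⟩⟩ :=
  CoN.c 2 3 1 12 rfl rfl rfl rfl rfl EN0_c122 EN0_t143

theorem EN0_t145 : CoN ENTab ⟨⟨7, 7, 16⟩, ⟨3, 4, 8⟩, ⟨1, 1, 2⟩, ⟨1, 0, 0, 0,
  0⟩, ⟨8, 2, 0, 1, 0⟩, ⟨40, 10, 4, 4, 3⟩, ⟨4, 1, 1, 1, 0⟩⟩ :=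
  CoN.c 2 3 1 6 rfl rfl rfl rfl rfl EN0_c121 EN0_t144

theorem EN0_t146 : CoN ENTab ⟨⟨7, 7, 16⟩, ⟨3, 4, 8⟩, ⟨1, 1, 2⟩, ⟨1, 0, 0, 0,
  0⟩, ⟨8, 2, 0, 1, 0⟩, ⟨8, 2, 0, 0, 1⟩, ⟨4, 1, 1, 1, 0⟩⟩ :=
  CoN.c 2 3 3 4 rfl rfl rfl rfl rfl EN0_t117 EN0_t145

theorem EN0_t147 : CoN ENTab ⟨⟨3, 3, 8⟩, ⟨3, 4, 8⟩, ⟨7, 7, 16⟩, ⟨1, 0, 0, 0,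
  0⟩, ⟨28, 2, 0, 1, 0⟩, ⟨28, 2, 0, 0, 1⟩, ⟨4, 1, 1, 1, 0⟩⟩ :=
  CoN.b 0 1 1 rfl rfl rfl EN0_c150 EN0_c151

theorem EN0_t148 : CoN ENTab ⟨⟨3, 3, 8⟩, ⟨3, 4, 8⟩, ⟨7, 7, 16⟩, ⟨28, 2, 0,
  0, 1⟩, ⟨28, 2, 0, 1, 0⟩, ⟨8, 2, 0, 0, 1⟩, ⟨4, 1, 1, 1, 0⟩⟩ :=
  CoN.c 2 3 3 4 rfl rfl rfl rfl rfl EN0_c152 EN0_c153

theorem EN0_t149 : CoN ENTab ⟨⟨3, 3, 8⟩, ⟨3, 4, 8⟩, ⟨7, 7, 16⟩, ⟨1, 0, 0, 0,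
  0⟩, ⟨28, 2, 0, 1, 0⟩, ⟨8, 2, 0, 0, 1⟩, ⟨4, 1, 1, 1, 0⟩⟩ :=
  CoN.c 0 2 20 1 rfl rfl rfl rfl rfl EN0_t147 EN0_t148

theorem EN0_t150 : CoN ENTab ⟨⟨3, 3, 8⟩, ⟨3, 4, 8⟩, ⟨7, 7, 16⟩, ⟨1, 0, 0, 0,
  0⟩, ⟨8, 2, 0, 1, 0⟩, ⟨8, 2, 0, 0, 1⟩, ⟨4, 1, 1, 1, 0⟩⟩ :=
  CoN.c 0 1 20 1 rfl rfl rfl rfl rfl EN0_t149 EN0_c154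

theorem EN0_t151 : CoN ENTab ⟨⟨3, 3, 8⟩, ⟨3, 4, 8⟩, ⟨1, 1, 2⟩, ⟨1, 0, 0, 0,
  0⟩, ⟨8, 2, 0, 1, 0⟩, ⟨8, 2, 0, 0, 1⟩, ⟨4, 1, 1, 1, 0⟩⟩ :=
  CoN.b 2 4 1 rfl rfl rfl EN0_t146 EN0_t150

theorem EN0_t152 : CoN ENTab ⟨⟨3, 3, 8⟩, ⟨1, 2, 4⟩, ⟨1, 1, 2⟩, ⟨1, 0, 0, 0,
  0⟩, ⟨8, 2, 0, 1, 0⟩, ⟨8, 2, 0, 0, 1⟩, ⟨4, 1, 1, 1, 0⟩⟩ :=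
  CoN.b 1 1 2 rfl rfl rfl EN0_t64 EN0_t151

theorem EN0_t153 : CoN ENTab ⟨⟨1, 1, 4⟩, ⟨1, 2, 4⟩, ⟨1, 1, 2⟩, ⟨1, 0, 0, 0,
  0⟩, ⟨8, 2, 0, 1, 0⟩, ⟨8, 2, 0, 0, 1⟩, ⟨4, 1, 1, 1, 0⟩⟩ :=
  CoN.b 2 2 1 rfl rfl rfl EN0_t152 EN0_c155

theorem EN0_t154 : CoN ENTab ⟨⟨1, 1, 4⟩, ⟨0, 1, 2⟩, ⟨1, 1, 2⟩, ⟨1, 0, 0, 0,
  0⟩, ⟨8, 2, 0, 1, 0⟩, ⟨8, 2, 0, 0, 1⟩, ⟨4, 1, 1, 1, 0⟩⟩ :=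
  CoN.b 1 1 1 rfl rfl rfl EN0_t47 EN0_t153

theorem EN0_t155 : CoN ENTab ⟨⟨0, 0, 1⟩, ⟨0, 1, 2⟩, ⟨1, 1, 2⟩, ⟨1, 0, 0, 0,
  0⟩, ⟨8, 2, 0, 1, 0⟩, ⟨8, 2, 0, 0, 1⟩, ⟨4, 1, 1, 1, 0⟩⟩ :=
  CoN.b 2 1 2 rfl rfl rfl EN0_t154 EN0_c156

end Pool.Agent.TET.Cvr
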