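import Pool.Agent.Helper37_TET.ENBt

/-!
# MP_c7c9bf_co: cover of the charts, root 1 part 0
-/

set_option autoImplicit false
set_option maxRecDepth 100000

namespace Pool.Agent.TET.Cvr

theorem EN1_c0 : CoN ENTab ⟨⟨2, 3, 8⟩, ⟨1, 3, 8⟩, ⟨3, 7, 16⟩, ⟨1, 0, 0, 0,
  0⟩, ⟨8, 2, 0, 0, 1⟩, ⟨4, 1, 1, 1, 0⟩, ⟨8, 2, 2, 1, 1⟩⟩ :=
CoN.ofG ENTab_B ENBt_E ENBt_U (.C 0 2 16 1 (.C 0 1 20 1 (.C 1 2 3 4 (.B 2 1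
  2 (.C 0 3 24 1 (.C 1 2 6 1 (.C 0 1 40 1 (.C 1 3 3 5 (.C 2 3 1 1 (.L 225)
  (.C 1 3 6 1 (.C 1 2 12 1 (.L 33) (.L 277)) (.C 1 3 1 2 (.L 277) (.L 70))))
  (.L 70)) (.B 0 1 4 (.G 169 113 1 118799 59399 675668 70537 [.n, .n, .g 2
  55 0 0, .g 1 33 0 0, .n, .n]) (.L 32))) (.L 719)) (.L 32)) (.C 1 3 3 5 (.C
  1 2 6 1 (.C 1 2 11 1 (.C 1 3 6 1 (.B 0 1 1 (.B 2 1 4 (.L 33) (.C 1 2 22 1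
  (.L 33) (.L 583))) (.L 33)) (.L 67)) (.L 67)) (.C 0 3 240 1 (.L 163) (.L
  169))) (.C 0 3 24 1 (.C 1 2 1 1 (.L 70) (.L 163)) (.L 94)))) (.C 2 3 3 4
  (.C 2 3 6 1 (.C 1 2 1 7 (.L 62) (.C 2 3 12 1 (.B 0 1 1 (.L 940) (.B 1 2 1
  (.L 936) (.L 940))) (.C 1 2 5 3 (.L 62) (.L 426)))) (.L 62)) (.L 119)))
  (.B 0 1 1 (.B 2 1 2 (.L 32) (.B 0 2 1 (.C 1 2 3 2 (.C 0 3 3 5 (.C 0 1 1 2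
  (.C 0 2 5 2 (.G 67 33 1 46075 92151 478032 276453 [.g 2 17 0 0, .g 1 16 0
  0, .n, .n]) (.L 316)) (.L 717)) (.L 1722)) (.C 0 2 3 4 (.C 0 2 6 1 (.B 2 1
  4 (.L 71) (.C 0 2 11 1 (.C 0 3 3 5 (.C 0 1 5 2 (.C 0 3 6 1 (.G 67 33 1
  14975 155370 335075 179705 [.g 4 33 0 0, .g 1 15 0 0, .n, .n]) (.L 67))
  (.L 67)) (.L 67)) (.L 67))) (.G 866 404 1 304 72 149 16 [.n, .g 1 20 0 0,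
  .n, .n, .n])) (.C 2 3 3 4 (.G 205 692 0 56 27 8 48 [.n, .g 32 3 0 0, .n,
  .n, .n, .n, .n, .n]) (.L 548)))) (.L 71))) (.L 32))) (.C 0 1 2 3 (.G 205
  275 0 8 27 4 6 [.g 64 1 0 0, .g 64 5 0 0, .n, .n, .n, .n, .n, .n]) (.G 717
  435 3 1 1 1 1 [.n, .g 4 3 0 0, .n, .n, .n]))) (by decide +kernel)

theorem EN1_c1 : CoN ENTab ⟨⟨2, 3, 8⟩, ⟨1, 3, 8⟩, ⟨3, 7, 16⟩, ⟨1, 0, 0, 0,
  0⟩, ⟨8, 2, 0, 0, 1⟩, ⟨8, 2, 2, 1, 1⟩, ⟨20, 1, 1, 0, 1⟩⟩ :=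
CoN.ofG ENTab_B ENBt_E ENBt_U (.C 0 2 24 1 (.C 0 1 20 1 (.B 0 1 1 (.C 1 2 5
  4 (.C 2 3 1 12 (.C 2 3 2 1 (.C 2 3 4 1 (.L 33) (.B 2 1 2 (.C 1 3 39 1 (.L
  33) (.C 1 3 1 2 (.L 113) (.L 378))) (.L 113))) (.C 2 3 1 2 (.C 1 3 78 1
  (.B 2 1 2 (.B 1 1 1 (.L 113) (.C 0 1 40 1 (.C 1 2 20 1 (.C 1 3 78 1 (.L
  113) (.L 303)) (.L 378)) (.L 113))) (.L 113)) (.B 2 1 2 (.C 1 3 1 2 (.B 1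
  1 1 (.C 0 2 1560 1 (.L 852) (.L 113)) (.L 378)) (.L 1386)) (.C 1 2 1 4 (.C
  1 3 1 2 (.B 2 1 4 (.L 852) (.L 113)) (.L 248)) (.L 239)))) (.L 229))) (.C
  1 3 3 4 (.L 89) (.C 2 3 1 24 (.C 2 3 2 1 (.L 938) (.L 380)) (.B 2 1 2 (.C
  1 3 1 8 (.C 1 3 2 1 (.L 938) (.C 1 2 3 2 (.L 757) (.L 246))) (.L 246)) (.C
  1 3 1 8 (.C 1 3 2 1 (.L 50) (.C 1 2 3 2 (.C 1 3 1 2 (.B 2 1 4 (.L 17) (.L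
  448)) (.C 1 3 1 4 (.L 1888) (.L 996))) (.B 2 1 4 (.L 334) (.B 0 2 1 (.C 1
  2 1 4 (.L 608) (.L 1902)) (.L 334))))) (.C 1 3 1 16 (.C 2 3 2 3 (.B 0 2 1
  (.B 2 1 4 (.L 254) (.C 1 3 12 1 (.L 1902) (.C 2 3 4 1 (.C 0 2 1544 1 (.L
  1) (.G 1 50 1 35097 138193 17548 140386 [.n, .n, .n, .n, .g 32 1 0 0,
  .n])) (.L 1)))) (.L 254)) (.C 1 3 2 1 (.B 0 2 1 (.B 2 1 4 (.L 254) (.C 1 2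
  12 1 (.C 1 3 4 1 (.L 2006) (.L 1)) (.L 1))) (.L 254)) (.B 0 2 1 (.B 2 1 4
  (.C 1 3 1 2 (.L 129) (.C 0 3 1016 1 (.C 1 3 1 2 (.L 1866) (.C 2 3 1 3 (.L
  1866) (.C 0 3 2032 1 (.C 2 3 1 3 (.B 1 1 1 (.L 129) (.L 657)) (.B 1 1 1
  (.L 1) (.B 2 2 1 (.L 84) (.C 2 3 1 6 (.C 2 3 2 1 (.L 657) (.L 1)) (.L
  1))))) (.G 4 146 0 45389 90779 136168 22695 [.n, .n, .g 64 1 0 0, .n, .g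
  128 5 0 0, .n])))) (.G 4 146 0 21351 42701 64719 10675 [.n, .n, .g 64 1 0
  0, .n, .g 128 5 0 0, .n]))) (.L 1)) (.B 0 1 2 (.C 1 3 1 2 (.L 129) (.B 2 1
  1 (.L 146) (.C 1 2 3 2 (.L 1) (.C 0 3 1016 1 (.C 2 3 1 3 (.L 254) (.C 2 3
  1 6 (.B 2 1 2 (.L 1418) (.C 2 3 2 1 (.L 129) (.L 1))) (.L 1))) (.G 1 453 2
  10770 129579 32647 5385 [.n, .n, .n, .n, .g 32 1 0 0, .n]))))) (.L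
  146))))) (.C 1 3 1 32 (.B 0 2 1 (.B 2 1 4 (.C 1 2 3 2 (.C 1 3 2 1 (.C 1 2
  6 1 (.C 1 3 4 1 (.B 1 1 1 (.C 1 2 12 1 (.L 1) (.C 0 2 12232 1 (.L 1) (.G 4
  44 0 66254 66254 33127 22085 [.n, .n, .n, .n, .g 32 1 0 0, .n]))) (.B 2 2
  1 (.L 84) (.C 1 2 12 1 (.L 1) (.C 1 3 1 3 (.C 0 2 12232 1 (.C 0 2 24464 1
  (.L 1) (.G 4 44 0 74326 37163 37163 74326 [.n, .n, .n, .n, .g 256 3 0 0,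
  .n])) (.G 4 832 1 126514 126514 63257 253028 [.n, .n, .n, .n, .g 32 1 0 0,
  .n])) (.L 537))))) (.L 44)) (.L 44)) (.L 44)) (.L 44)) (.C 1 2 3 2 (.L 1)
  (.B 0 4 1 (.B 2 1 8 (.L 162) (.L 1)) (.L 162)))) (.C 1 2 3 2 (.C 1 3 2 1
  (.C 1 2 6 1 (.C 1 3 4 1 (.B 2 1 1 (.L 84) (.B 0 1 2 (.C 1 2 12 1 (.L 1)
  (.C 0 2 12232 1 (.L 1) (.G 4 44 0 59237 59237 29618 19746 [.n, .n, .n, .n,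
  .g 32 1 0 0, .n]))) (.L 146))) (.L 44)) (.L 44)) (.L 114)) (.L 114))) (.L
  162)))))))) (.C 2 3 2 3 (.L 55) (.C 2 3 1 6 (.C 1 2 1 2 (.C 2 3 1 2 (.L
  196) (.L 147)) (.C 2 3 2 1 (.L 239) (.L 26))) (.C 1 3 1 12 (.C 1 3 2 1 (.L
  147) (.C 1 3 1 2 (.B 2 1 2 (.L 444) (.B 2 1 4 (.L 30) (.C 1 2 1 4 (.C 1 2
  2 1 (.L 55) (.L 1837)) (.L 50)))) (.L 89))) (.C 1 3 1 24 (.B 2 1 2 (.L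
  938) (.L 50)) (.C 2 3 1 12 (.B 0 2 1 (.B 2 1 2 (.L 114) (.C 1 2 1 4 (.L
  878) (.B 2 1 4 (.L 114) (.L 226)))) (.L 114)) (.L 878))))))) (.C 1 2 5 4
  (.C 1 3 3 4 (.C 0 1 40 1 (.C 2 3 2 3 (.C 0 2 392 1 (.C 1 3 19 1 (.L 113)
  (.B 2 1 1 (.L 378) (.L 113))) (.G 113 866 1 917 93 456 1787 [.g 64 5 0 0,
  .g 32 1 0 0, .n, .n])) (.C 2 3 1 6 (.C 1 2 19 1 (.L 50) (.C 1 2 1 2 (.L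
  50) (.L 378))) (.L 89))) (.L 866)) (.C 1 3 1 8 (.C 1 3 2 1 (.C 1 2 3 2 (.C
  1 2 6 1 (.L 938) (.C 1 2 1 2 (.L 938) (.L 1812))) (.L 1812)) (.L 757)) (.C
  2 3 1 12 (.L 1218) (.L 246)))) (.C 2 3 2 3 (.L 55) (.C 1 2 1 2 (.C 1 2 2 1
  (.C 1 3 1 12 (.L 1218) (.L 52)) (.L 52)) (.C 2 3 1 6 (.C 2 3 2 1 (.L 94)
  (.L 114)) (.L 52)))))) (.C 1 3 3 2 (.B 0 1 1 (.B 2 1 2 (.L 32) (.B 0 2 1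
  (.C 2 3 5 2 (.G 404 113 1 17386 8693 20646 211894 [.n, .n, .g 3 65 0 0, .g
  1 24 0 0, .n, .n]) (.G 50 113 0 5612 2806 68391 17361 [.n, .n, .g 17 64 0
  0])) (.L 71))) (.L 32)) (.B 0 1 1 (.C 2 3 2 3 (.B 2 1 2 (.L 32) (.C 1 2 2
  5 (.C 1 3 3 2 (.G 50 113 0 4563 14260 55612 86127 [.n, .n, .g 4 13 0 0])
  (.B 0 2 1 (.C 0 3 5 1 (.G 113 788 0 4563 86127 55612 44775 [.g 16 5 0 0,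
  .n, .n, .n]) (.C 1 2 2 3 (.G 442 137 3 5275 10071 39645 2558 [.g 64 7 0 0,
  .n, .n, .n, .n, .n, .n, .n]) (.L 239))) (.G 866 316 1 1 1 1 1 [.n, .n, .g
  53 64 0 0, .n, .n]))) (.C 0 2 5 4 (.G 55 113 0 94164 1147623 923984 453164
  [.g 2 57 0 0, .g 1 15 0 0, .g 3 73 0 0, .g 9 62 0 0]) (.L 55)))) (.C 2 3 1
  6 (.C 2 3 2 1 (.C 1 2 3 2 (.L 89) (.C 1 2 1 4 (.L 229) (.C 2 3 4 1 (.C 0 2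
  5 1 (.B 2 1 2 (.L 32) (.C 0 2 10 1 (.L 19) (.G 481 242 0 3700554 7169824
  1850277 7285466 [.g 64 3 0 0, .n, .g 1 69 0 0, .n, .g 3 67 0 0, .g 2 55 0
  0]))) (.G 1837 239 3 397748 1530728 192848 1542781 [.n, .n, .g 3 4 0 0,
  .n])) (.L 229)))) (.L 89)) (.C 0 3 3 4 (.L 89) (.C 1 3 1 4 (.L 380) (.C 0
  3 1 8 (.C 2 3 4 3 (.L 380) (.C 0 3 2 1 (.L 380) (.B 2 1 2 (.G 71 990 1 151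
  38 465 77 [.n, .n, .g 27 32 0 0, .n]) (.B 2 1 4 (.G 129 412 0 56394 14322
  173657 28645 [.n, .g 64 17 0 0, .n, .n, .n, .n, .n, .n]) (.G 915 294 1
  2724135 691844 8388607 1383688 [.n, .g 5 21 0 0, .n, .n, .n, .n, .g 1 300
  0 0, .g 1 350 0 0]))))) (.C 1 2 3 2 (.C 1 3 1 8 (.B 2 1 2 (.L 1386) (.C 1
  3 2 1 (.G 2006 872 1 42464 21232 128718 84928 [.n, .g 3 55 0 0, .n, .n,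
  .n, .n, .n, .n]) (.G 254 608 1 7048 14095 21143 7048 [.n, .g 32 9 0 0, .n,
  .n, .n, .n, .n, .n]))) (.B 2 1 2 (.L 246) (.C 0 3 1 16 (.B 2 1 4 (.G 1 246
  1 8935 8935 26804 17870 [.n, .n, .n, .g 256 13 0 0, .g 64 3 0 0, .n]) (.C
  2 3 2 3 (.G 1316 1902 0 27697 27697 83091 335828 [.n, .g 13 21 0 0, .n,
  .n, .n, .n, .n, .n]) (.C 0 3 2 1 (.G 334 2 3 691844 691844 8388607 2767376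
  [.n, .n, .g 1 2493 0 0, .g 2 5183 0 0, .n, .n]) (.G 4 246 1 9978 2495
  29935 4989 [.n, .n, .g 256 5 0 0, .n, .g 32 1 0 0, .n])))) (.C 1 3 1 16
  (.G 1 246 1 60752 30376 91128 60752 [.n, .n, .n, .g 256 5 0 0, .g 128 5 0
  0, .n]) (.G 1 240 2 49046 49239 73568 1545 [.n, .n, .n, .g 1024 17 0 0, .g
  256 9 0 0, .n]))))) (.C 0 2 3 4 (.B 2 1 2 (.L 246) (.C 0 3 1 16 (.C 1 3 2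
  3 (.G 254 507 0 11510 34531 69782 139563 [.n, .g 64 21 0 0, .n, .n, .n,
  .n, .n, .n]) (.C 0 2 6 1 (.C 0 3 2 1 (.G 990 3 2 157989 1915616 1905742
  631956 [.n, .g 8 65 0 0, .n, .n, .n, .n, .g 1 176 0 0, .g 1 190 0 0]) (.G
  1 246 1 82093 246278 246278 41046 [.n, .n, .n, .g 64 1 0 0, .g 32 1 0 0,
  .n])) (.G 1 444 0 230141 230141 115070 38357 [.n, .n, .n, .g 64 1 0 0, .g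
  256 9 0 0, .n]))) (.C 1 3 1 48 (.C 0 2 3 1 (.G 1 240 2 50076 75115 300458
  150229 [.n, .n, .n, .g 1024 17 0 0, .g 32 1 0 0, .n]) (.B 2 1 4 (.L 129)
  (.B 0 2 1 (.G 1 138 0 103114 25779 51557 51557 [.n, .n, .n, .n, .g 64 1 0
  0, .n]) (.L 129)))) (.C 0 3 1 32 (.C 0 2 3 1 (.B 2 1 4 (.C 0 3 2 1 (.C 0 1
  3 1 (.C 0 2 6 1 (.B 2 2 1 (.L 84) (.G 318 4 4 15780 94681 189362 63121 [.g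
  1 22 0 0, .n, .n, .n])) (.L 44)) (.L 44)) (.L 114)) (.G 318 1 4 13074
  39222 78444 26148 [.g 3 68 0 0, .n, .n, .n])) (.L 1632)) (.L 162))))) (.C
  1 2 1 4 (.C 1 3 1 48 (.B 2 1 2 (.L 246) (.B 0 2 1 (.B 2 1 4 (.L 129) (.G 1
  138 0 275711 137855 275711 275711 [.n, .n, .n, .n, .g 64 1 0 0, .n])) (.L
  129))) (.L 162)) (.L 114))))))))) (.C 1 3 1 4 (.L 316) (.C 2 3 2 3 (.L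
  860) (.G 246 71 1 13 83 63 11 [.g 28 65 0 0, .n, .g 64 17 0 0])))))) (.B 2
  1 2 (.C 2 3 4 3 (.L 32) (.C 1 3 3 2 (.L 32) (.G 246 866 1 253 654 1013 169
  [.g 64 27 0 0, .n, .g 16 11 0 0]))) (.C 2 3 4 3 (.G 70 901 3 164 69 82 663
  [.n, .n, .g 8 7 0 0, .g 16 3 0 0]) (.C 1 3 3 2 (.B 0 1 1 (.B 0 2 1 (.B 2 1
  4 (.L 1524) (.C 0 1 2 5 (.C 0 3 5 2 (.L 748) (.G 1001 113 0 356 141 141 90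
  [.n, .n, .n, .g 7 22 0 0])) (.L 90))) (.L 71)) (.L 32)) (.B 0 1 1 (.C 1 3
  1 4 (.B 0 2 1 (.C 2 3 4 3 (.B 2 1 4 (.L 316) (.C 0 1 5 2 (.L 55) (.G 1001
  113 0 63 16 25 197 [.n, .n, .n, .g 15 16 0 0]))) (.C 0 1 5 2 (.C 0 3 5 1
  (.L 55) (.G 239 50 2 1124792 1124792 3519509 580538 [.g 57 64 0 0, .n, .g
  13 62 0 0, .g 12 65 0 0])) (.C 0 3 1 2 (.C 0 1 1 4 (.G 239 3463 3 420979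
  841959 1315561 868270 [.g 32 31 0 0, .n, .n, .g 1 6 0 0]) (.L 229)) (.L
  50)))) (.G 825 316 1 443 1136 1773 2327 [.g 512 3 0 0, .g 1024 1 0 0, .g 8
  5 0 0, .g 32 21 0 0, .n, .n, .n, .n])) (.C 0 3 2 3 (.C 0 1 5 1 (.L 55) (.C
  1 3 3 4 (.G 294 316 1 41 21 16 127 [.n, .g 64 7 0 0, .n, .n, .n, .n, .n,
  .n]) (.G 616 239 3 176103 545488 68723 68723 [.n, .n, .n, .g 32 1 0 0, .g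
  16 3 0 0]))) (.C 1 3 1 8 (.C 1 2 3 4 (.C 0 1 4 3 (.B 2 1 4 (.G 246 915 1
  10369 82304 82304 27219 [.n, .g 50 63 0 0, .n]) (.G 334 1494 1 1056832
  8388607 8388607 2774185 [.n, .g 16 7 0 0, .g 1 82 0 0, .g 1 86 0 0, .n,
  .n])) (.G 915 294 1 8388607 1383688 8388607 2767376 [.n, .g 3 13 0 0, .n,
  .n, .n, .n, .g 1 380 0 0, .g 1 401 0 0])) (.G 186 608 1 9728 77218 9728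
  25537 [.n, .g 16 13 0 0, .n, .n, .n, .n])) (.B 0 2 1 (.C 0 1 5 2 (.G 239 9
  1 79529 818486 79529 13255 [.g 2 1 0 0, .n, .n, .g 9 65 0 0]) (.C 1 2 2 5
  (.C 1 2 4 1 (.C 1 3 1 16 (.C 2 3 1 4 (.G 915 254 1 70029 18072 142317
  288023 [.g 64 21 0 0, .n, .n, .n, .n, .n, .n, .n]) (.C 0 3 1 2 (.C 0 3 2 1
  (.L 254) (.B 2 1 4 (.L 254) (.G 1 50 1 505313 32211 513366 253663 [.n, .n,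
  .n, .n, .g 32 1 0 0, .n]))) (.B 2 1 4 (.C 1 3 2 1 (.L 254) (.G 4 240 2
  236344 120048 476440 60024 [.n, .g 7 62 0 0, .g 8192 135 0 0, .n, .g 128 5
  0 0, .n])) (.G 44 1 4 221175 28086 447616 56171 [.g 1 93 0 0, .g 1 116 0
  0, .n, .n])))) (.C 1 3 1 32 (.C 0 1 1 2 (.L 162) (.C 0 1 1 4 (.L 1632) (.C
  1 2 4 1 (.G 138 1 4 511030 64382 511030 128763 [.g 2 31 0 0, .n, .n, .n])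
  (.L 1632)))) (.L 162))) (.L 52)) (.G 334 396 3 8388607 8388607 815087
  135848 [.g 2 1 0 0, .n, .g 1 31 0 0, .g 1 32 0 0, .n, .n]))) (.C 1 2 2 5
  (.C 0 1 5 2 (.L 114) (.C 1 2 4 1 (.C 0 1 1 4 (.L 114) (.C 1 2 8 1 (.C 1 3
  1 16 (.G 1 246 1 230204 29232 464062 58464 [.n, .n, .n, .g 256 5 0 0, .g
  64 3 0 0, .n]) (.B 2 1 1 (.L 240) (.B 0 1 2 (.C 2 3 1 252 (.C 1 3 16 1 (.G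
  453 1 4 112331 28529 226446 907565 [.n, .n, .g 1 23 0 0, .n]) (.G 186 318
  0 1032444 8388607 2064888 4129776 [.g 31 64 0 0, .n, .g 1 205 0 0, .g 1
  223 0 0, .n, .n])) (.C 1 3 1 32 (.C 1 3 2 1 (.G 1 857 0 112494 28570
  451762 114280 [.n, .n, .n, .n, .g 64 7 0 0, .n]) (.L 114)) (.L 114))) (.L
  240)))) (.C 1 3 1 252 (.G 861 1307 2 225619 451237 225619 902474 [.g 32 23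
  0 0, .n, .n, .n]) (.L 114)))) (.L 52))) (.G 892 316 1 75 776 75 13 [.n,
  .n, .g 4 1 0 0, .n])))))) (.G 246 316 1 35 91 141 23 [.g 64 51 0 0, .n, .g
  64 13 0 0])))))) (by decide +kernel)

theorem EN1_c2 : CoN ENTab ⟨⟨2, 3, 8⟩, ⟨1, 3, 8⟩, ⟨3, 7, 16⟩, ⟨20, 1, 1, 0,
  1⟩, ⟨8, 2, 0, 0, 1⟩, ⟨8, 2, 2, 1, 1⟩, ⟨4, 1, 1, 0, 1⟩⟩ :=
CoN.ofG ENTab_B ENBt_E ENBt_U (.C 0 2 3 4 (.C 0 3 1 2 (.C 0 1 2 3 (.B 0 1 1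
  (.C 1 2 3 2 (.C 0 1 4 1 (.C 1 2 3 1 (.C 1 3 1 4 (.C 0 2 47 1 (.C 0 1 8 1
  (.B 2 1 2 (.L 246) (.C 0 1 16 1 (.C 0 3 16 1 (.G 1 240 2 1807 57611 170348
  57611 [.n, .n, .n, .g 64 1 0 0, .g 256 9 0 0, .n]) (.G 1 84 1 66653 66653
  197875 33326 [.n, .n, .n, .g 64 1 0 0, .g 128 5 0 0, .n])) (.G 1 246 1
  65814 32907 195385 32907 [.n, .n, .n, .g 256 5 0 0, .g 128 5 0 0, .n])))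
  (.B 2 1 2 (.L 1386) (.C 1 3 2 1 (.C 0 1 1 2 (.G 254 1354 1 12972 25943
  77020 25943 [.n, .g 32 9 0 0, .n, .n, .n, .n, .n, .n]) (.G 938 394 1 22143
  5536 66083 22143 [.n, .g 13 16 0 0, .n, .n])) (.B 2 1 4 (.L 254) (.G 334 2
  3 1412818 2825636 8388607 1412818 [.n, .g 1 21 0 0, .g 2 5089 0 0, .g 2
  5279 0 0, .n, .n]))))) (.B 2 1 2 (.L 316) (.C 2 3 1 3 (.L 50) (.C 1 3 2 1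
  (.G 938 394 1 75395 6316 76185 25263 [.n, .g 13 16 0 0, .n, .n]) (.C 2 3 1
  6 (.L 996) (.B 2 1 4 (.L 254) (.B 0 2 1 (.G 1244 1 3 4150613 1398101
  8388607 699051 [.n, .n, .g 2 4599 0 0, .g 1 2458 0 0, .n, .n, .n, .n, .n,
  .n]) (.L 334)))))))) (.B 2 1 2 (.L 246) (.C 2 3 1 24 (.C 0 2 47 1 (.C 0 1
  16 1 (.C 0 1 32 1 (.B 0 2 1 (.B 2 1 4 (.C 0 2 94 1 (.L 453) (.G 334 453 2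
  8388607 2855696 4283544 4283544 [.g 27 64 0 0, .n, .g 2 283 0 0, .g 1 147
  0 0, .n, .n])) (.G 1 138 0 1309 83618 123381 124690 [.n, .n, .n, .n, .g
  256 1 0 0, .n])) (.C 0 2 94 1 (.L 453) (.G 990 828 2 7660930 2607976
  3911965 3911965 [.n, .n, .g 1 110 0 0, .g 1 116 0 0, .n, .n, .g 11 63 0 0,
  .g 1 6 0 0]))) (.B 0 2 1 (.G 1 444 0 149940 74970 220224 224910 [.n, .n,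
  .n, .g 64 1 0 0, .g 256 9 0 0, .n]) (.B 0 1 2 (.B 2 1 1 (.L 240) (.C 1 2 3
  1 (.G 453 1 4 21541 10771 63950 32312 [.n, .n, .g 1 25 0 0, .n]) (.C 0 2 3
  2 (.G 186 857 0 1412818 4238454 8388607 2119227 [.g 24 65 0 0, .n, .g 1
  189 0 0, .g 1 193 0 0, .n, .n]) (.L 186)))) (.L 240)))) (.G 1 84 1 69650
  34825 206772 208949 [.n, .n, .n, .g 64 1 0 0, .g 128 5 0 0, .n])) (.C 1 2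
  3 1 (.C 1 2 6 1 (.G 1 3662 1 237726 40038 480456 240228 [.n, .n, .n, .g
  128 3 0 0, .g 512 25 0 0, .n]) (.G 334 17 1 431904 863808 431904 431904
  [.n, .g 4 3 0 0, .n, .n, .n, .n])) (.G 304 334 1 447838 447838 223919
  447838 [.g 32 29 0 0, .n, .n, .n]))) (.C 1 3 1 8 (.C 0 1 16 1 (.C 0 2 95 1
  (.B 2 1 4 (.L 44) (.G 44 1 4 1967 62710 374290 62710 [.n, .g 1 31 0 0, .n,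
  .n])) (.B 0 2 1 (.B 2 1 4 (.C 2 3 1 3 (.G 990 44 0 6170910 1039311 3117933
  6235866 [.n, .n, .g 1 183 0 0, .g 1 191 0 0, .n, .n, .g 2 23 0 0, .g 5 61
  0 0]) (.L 44)) (.L 1)) (.C 0 2 1 2 (.L 44) (.C 2 3 1 3 (.B 2 1 1 (.L 84)
  (.G 990 537 2 8388607 702711 2108132 4216263 [.n, .n, .g 1 188 0 0, .g 1
  194 0 0, .n, .n, .g 5 66 0 0, .g 5 69 0 0])) (.L 44))))) (.B 0 2 1 (.B 2 1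
  4 (.C 2 3 1 3 (.G 4 146 0 19663 9831 58988 117976 [.n, .n, .g 64 1 0 0,
  .n, .g 128 5 0 0, .n]) (.C 1 3 2 1 (.G 4 84 1 18305 9152 109827 36609 [.n,
  .n, .g 64 1 0 0, .n, .g 128 5 0 0, .n]) (.G 453 4 4 22996 45993 137978
  22996 [.n, .n, .g 1 25 0 0, .n]))) (.L 1)) (.B 2 1 1 (.L 146) (.B 0 1 2
  (.G 4 444 0 55949 27974 167847 55949 [.n, .n, .n, .n, .g 32 1 0 0, .n])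
  (.G 146 444 0 55949 27974 167847 55949 [.g 8 1 0 0, .n, .n]))))) (.B 2 1 4
  (.L 453) (.B 0 2 1 (.G 1 138 0 314 10006 29899 628 [.n, .n, .n, .n, .g 128
  1 0 0, .n]) (.L 453))))))) (.B 2 1 2 (.L 246) (.C 1 3 1 24 (.C 0 2 24 1
  (.C 0 1 47 1 (.C 0 1 94 1 (.C 0 3 95 1 (.L 162) (.B 0 2 1 (.B 2 1 4 (.L
  453) (.C 0 2 1 4 (.G 857 1 4 138382 138382 276763 69191 [.g 2 67 0 0, .n,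
  .n, .n]) (.G 1 50 1 680693 335028 85087 170173 [.g 64 11 0 0, .n, .n, .n,
  .g 64 1 0 0, .n]))) (.L 453))) (.C 0 2 1 4 (.B 2 1 4 (.L 657) (.G 1 240 2
  124479 62240 248959 62240 [.n, .n, .n, .g 64 1 0 0, .g 256 9 0 0, .n]))
  (.G 721 380 1 8388607 2113665 1056832 2113665 [.n, .n, .n, .n, .n, .n, .g
  1 181 0 0, .n]))) (.G 334 412 1 447838 223919 223919 447838 [.n, .g 8 21 0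
  0, .n, .n, .n, .n])) (.C 2 3 4 1 (.G 895 84 1 373768 373768 186884 1506752
  [.n, .n, .n, .g 21 32 0 0]) (.G 1576 334 1 317553 317553 1270212 635106
  [.g 42 65 0 0, .n, .n, .n]))) (.B 0 2 1 (.B 2 1 4 (.L 453) (.C 2 3 1 12
  (.C 0 2 24 1 (.C 0 1 95 1 (.L 44) (.C 0 2 1 4 (.C 0 3 1 4 (.G 857 1 4
  176255 88128 352510 352510 [.g 2 63 0 0, .n, .n, .n]) (.L 186)) (.L
  1828))) (.C 1 2 1 4 (.G 507 50 1 367208 734415 1468830 367208 [.n, .g 32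
  13 0 0, .n, .n, .n, .n, .n, .n]) (.G 240 89 2 381138 1536462 190569 381138
  [.n, .n, .g 64 11 0 0]))) (.C 1 3 1 48 (.G 744 1 4 1860 177211 88606
  355818 [.n, .n, .n, .g 1 36 0 0, .n]) (.L 114)))) (.L 453))))) (.C 2 3 1
  12 (.G 380 316 1 56 27 166 333 [.n, .n, .g 63 64 0 0, .g 64 11 0 0]) (.C 1
  3 1 2 (.G 872 412 1 1405198 681308 8388607 1405198 [.g 64 11 0 0, .g 8 1 0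
  0, .n, .n, .n, .n, .g 2 59 0 0, .g 2 61 0 0]) (.B 2 1 2 (.G 246 321 1 155
  155 935 39 [.g 8 21 0 0, .n, .n]) (.C 0 3 1 4 (.C 0 3 2 1 (.G 448 17 1
  74729 74729 453042 298914 [.g 44 65 0 0, .g 7 8 0 0, .n, .n, .n, .n]) (.C
  0 1 1 4 (.C 0 2 3 2 (.C 0 3 1 2 (.G 1888 1316 1 396883 793765 2381296
  793765 [.n, .g 64 3 0 0, .n, .n, .n, .n, .g 1 19 0 0, .g 3 64 0 0]) (.G
  3502 355 0 1 1 1 1 [.n, .g 1 118 0 0, .n, .n, .n, .n])) (.G 174 84 1 180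
  60 45 15 [.g 256 7 0 0, .n, .n, .n, .n, .n, .g 9 16 0 0, .g 31 64 0 0]))
  (.G 174 84 1 128 16 97 32 [.g 128 7 0 0, .n, .n, .n, .n, .n, .g 13 66 0 0,
  .g 5 31 0 0]))) (.C 1 3 1 4 (.B 2 1 4 (.G 254 334 0 54304 27152 164608
  54304 [.n, .g 64 7 0 0, .n, .n, .n, .n, .n, .n]) (.C 1 3 2 1 (.B 0 2 1 (.L
  174) (.G 186 996 0 35127 17564 106480 70255 [.n, .g 11 32 0 0, .n, .n, .n,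
  .n])) (.B 0 2 1 (.C 1 3 1 2 (.L 174) (.G 174 1 4 1 4 3 1 [.n, .n, .n, .n,
  .n, .n, .g 9 32 0 0, .g 29 65 0 0])) (.L 254)))) (.C 0 3 1 8 (.C 2 3 2 3
  (.B 2 1 4 (.L 254) (.B 0 2 1 (.G 186 1 4 699051 699051 2097152 8388607
  [.n, .n, .g 1 1484 0 0, .g 1 1473 0 0, .n, .n]) (.L 254))) (.B 0 2 1 (.B 2
  1 4 (.C 0 3 2 1 (.C 0 3 4 1 (.L 1366) (.G 4 240 2 171218 21402 256827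
  85609 [.n, .n, .g 64 1 0 0, .n, .g 128 5 0 0, .n])) (.G 4 240 2 85609
  21402 256827 42805 [.n, .n, .g 64 1 0 0, .n, .g 128 5 0 0, .n])) (.G 186 4
  4 699051 699051 8388607 1398101 [.g 2 69 0 0, .n, .g 1 3353 0 0, .g 1 3347
  0 0, .n, .n])) (.B 2 1 1 (.L 146) (.B 0 1 2 (.G 1 444 0 41522 41522 498267
  83044 [.n, .n, .n, .n, .g 256 9 0 0, .n]) (.G 146 444 0 41522 41522 498267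
  83044 [.g 64 7 0 0, .n, .n]))))) (.C 1 3 1 8 (.C 1 2 3 1 (.G 4 444 0
  118972 59486 356917 118972 [.n, .n, .g 64 1 0 0, .n, .g 32 1 0 0, .n]) (.B
  0 2 1 (.B 2 1 4 (.L 318) (.G 1 318 0 31833 95500 47750 31833 [.n, .n, .n,
  .n, .g 64 3 0 0, .n])) (.L 318))) (.B 2 1 4 (.L 52) (.B 0 2 1 (.G 1 44 1
  156317 156317 233555 9808 [.n, .n, .n, .n, .g 32 1 0 0, .n]) (.L
  114))))))))))) (.C 0 2 6 1 (.C 1 2 1 2 (.C 1 3 1 12 (.G 412 327 2 18738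
  442695 892417 892417 [.g 3 56 0 0, .g 11 64 0 0, .g 5 63 0 0, .n]) (.L
  52)) (.L 114)) (.C 2 3 1 3 (.L 239) (.G 892 114 0 80824 159122 80824 13471
  [.g 64 13 0 0, .n, .n, .n])))) (.G 246 71 1 12 48 75 25 [.g 13 21 0 0, .n,
  .g 16 3 0 0])) (.C 1 3 3 1 (.G 90 424 3 1 1 1 1 [.n, .g 2 1 958 0, .n,
  .n]) (.B 0 1 1 (.C 2 3 1 3 (.G 615 321 1 16 16 25 50 [.n, .n, .g 5 13 0 0,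
  .n]) (.C 1 3 1 2 (.G 380 61 1 57 57 177 117 [.g 2 1 0 0, .g 64 7 0 0, .n,
  .n]) (.B 2 1 2 (.L 110) (.C 0 3 1 2 (.B 0 2 1 (.G 825 412 1 2684354
  5536481 8388607 5536481 [.g 32 23 0 0, .g 64 27 0 0, .g 1 66 0 0, .g 1 70
  0 0, .n, .n, .n, .n]) (.L 61)) (.C 1 3 1 4 (.B 0 2 1 (.B 2 1 4 (.L 110)
  (.C 0 3 2 1 (.C 1 2 3 2 (.G 2024 90 2 1 1 1 1 [.n, .n, .n, .n, .n, .n, .g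
  3 65 0 0, .g 9 67 0 0, .n, .n]) (.G 50 243 0 2047 12407 3070 8186 [.n, .g
  64 11 0 0, .n])) (.C 1 3 2 1 (.C 1 2 3 2 (.G 507 1354 1 164904 41226
  249932 164904 [.n, .g 39 64 0 0, .n, .n, .n, .n, .n, .n]) (.G 254 915 0
  104901 159849 39962 104901 [.n, .g 64 5 0 0, .n, .n, .n, .n, .n, .n])) (.C
  2 3 4 3 (.G 254 996 0 50234 50234 19137 153094 [.n, .g 1 1 0 0, .n, .n,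
  .n, .n, .n, .n]) (.C 1 2 3 1 (.C 0 2 6 1 (.G 915 1 3 700876 700876 8388607
  350438 [.n, .n, .g 1 5050 0 0, .g 1 5229 0 0, .n, .n, .n, .n]) (.G 4 90 2
  383 32 192 16 [.n, .n, .g 64 1 0 0, .n, .g 64 5 0 0, .n])) (.C 0 3 1 2 (.G
  90 1453 0 1 1 1 1 [.n, .n, .g 21 65 0 0, .n]) (.C 2 3 1 6 (.G 1453 318 0
  1798 5393 2697 5393 [.g 64 43 0 0, .n, .n, .n, .n, .n]) (.G 2439 4 4 4 12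
  12 1 [.n, .n, .g 6 67 0 0, .n, .n, .n, .g 11 62 0 0, .n])))))))) (.L 61))
  (.C 0 2 3 2 (.C 0 3 1 4 (.B 0 2 1 (.B 2 1 4 (.G 996 990 1 4391 8782 26620
  8782 [.g 32 19 0 0, .n, .n, .n, .n, .n, .n, .n, .n, .n]) (.C 0 1 2 1 (.C 0
  3 2 1 (.L 174) (.C 2 3 1 3 (.L 174) (.G 174 1453 5 1 1 1 1 [.n, .n, .n,
  .n, .n, .n, .g 64 15 0 0, .g 64 11 0 0]))) (.C 1 2 3 1 (.C 0 1 1 2 (.L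
  1453) (.G 1453 1 4 4 1 6 1 [.n, .n, .g 3 65 0 0, .g 3 58 0 0, .n, .n]))
  (.C 2 3 1 3 (.L 507) (.G 915 1453 5 379 1138 1138 190 [.n, .n, .g 64 25 0
  0, .g 32 13 0 0, .n, .n, .n, .n]))))) (.L 195)) (.C 1 3 1 8 (.G 1 444 0
  96868 96868 290605 193736 [.n, .n, .n, .g 64 1 0 0, .g 256 9 0 0, .n]) (.C
  0 3 1 8 (.C 0 2 3 1 (.G 4 444 0 59486 118972 356917 118972 [.n, .n, .g 64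
  1 0 0, .n, .g 32 1 0 0, .n]) (.B 0 2 1 (.B 2 1 4 (.L 318) (.G 318 1 4
  95500 31833 47750 31833 [.g 3 76 0 0, .n, .n, .n])) (.L 318))) (.B 2 1 4
  (.L 52) (.B 0 2 1 (.G 1 44 1 156317 156317 233555 9808 [.n, .n, .n, .n, .g
  32 1 0 0, .n]) (.L 52)))))) (.C 1 2 3 4 (.C 1 2 6 1 (.C 1 3 1 8 (.B 0 2 1
  (.B 2 1 4 (.C 0 1 1 3 (.L 114) (.B 2 2 1 (.L 195) (.G 240 4 4 313612 52269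
  627224 104537 [.n, .n, .g 2 57 0 0]))) (.G 1 318 0 133086 44362 532345
  88724 [.n, .n, .n, .n, .g 256 7 0 0, .n])) (.L 61)) (.G 2478 908 2 400463
  268027 1605006 16817 [.n, .n, .g 128 115 0 0, .n])) (.L 114)) (.L
  52)))))))) (.L 25)))) (.C 0 3 1 4 (.C 0 1 1 3 (.C 0 1 2 1 (.B 0 1 1 (.B 2
  1 2 (.L 110) (.C 1 2 3 4 (.C 0 1 4 1 (.C 1 2 3 1 (.C 1 3 1 4 (.C 0 1 8 1
  (.G 2478 908 2 20198 321906 961930 321906 [.n, .n, .g 32 29 0 0, .n]) (.B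
  0 2 1 (.C 1 2 6 1 (.B 2 1 4 (.B 2 2 1 (.L 195) (.C 0 2 6 1 (.G 453 4 4
  69650 34825 837977 69650 [.n, .n, .g 1 46 0 0, .n]) (.L 90))) (.G 1 90 2 2
  1 12 2 [.n, .n, .n, .n, .g 8 3 0 0, .n])) (.B 2 1 4 (.L 52) (.G 138 1 4
  35336 212017 106008 35336 [.g 3 55 0 0, .n, .n, .n]))) (.L 25))) (.L 396))
  (.L 52)) (.B 0 2 1 (.B 0 4 1 (.B 2 1 4 (.L 25) (.C 0 2 3 1 (.C 0 2 6 1 (.G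
  4 90 2 32 16 381 8 [.n, .n, .g 32 1 0 0, .n, .g 32 1 0 0, .n]) (.B 2 1 8
  (.G 1 110 0 762 32 381 16 [.n, .n, .n, .g 64 3 0 0, .g 64 5 0 0, .n]) (.C
  0 1 1 24 (.G 1 857 0 659678 1314161 329839 13852 [.n, .n, .n, .n, .g 256
  11 0 0, .n]) (.G 334 25 0 350071 7380 87864 3690 [.g 128 1 0 0, .g 256 1 0
  0, .g 32 13 0 0, .g 64 27 0 0, .n, .n])))) (.G 334 195 3 101121 8493 50693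
  4247 [.g 256 1 0 0, .g 128 1 0 0, .g 32 17 0 0, .g 64 35 0 0, .n, .n])))
  (.L 25)) (.L 25))) (.G 396 110 0 16 381 48 32 [.n, .n, .n, .g 8 3 0 0])))
  (.L 25)) (.L 110)) (.L 110)) (.G 296 195 1 1 1 1 1 [.g 1 1 7678 0, .n, .n,
  .n]))) (.G 592 717 2 1 1 1 1 [.n, .n, .n, .g 1 0 506 0, .n]))
  (by decide +kernel)

theorem EN1_c3 : CoN ENTab ⟨⟨2, 3, 8⟩, ⟨3, 7, 16⟩, ⟨1, 2, 4⟩, ⟨1, 0, 0, 0,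
  0⟩, ⟨28, 2, 0, 0, 1⟩, ⟨164, 10, 4, 4, 3⟩, ⟨4, 1, 1, 0, 1⟩⟩ :=
CoN.ofG ENTab_B ENBt_E ENBt_U (.C 1 3 2 5 (.C 2 3 2 3 (.C 2 3 4 1 (.B 2 2 1
  (.C 1 2 6 1 (.L 277) (.C 1 2 1 2 (.B 2 4 1 (.L 376) (.L 225)) (.C 2 3 8 1
  (.C 1 2 1 4 (.L 245) (.L 94)) (.L 70)))) (.C 1 2 6 1 (.B 0 2 1 (.B 2 1 2
  (.L 189) (.C 1 3 44 1 (.C 1 2 11 1 (.C 1 2 22 1 (.L 33) (.C 1 2 1 2 (.L
  33) (.B 0 4 1 (.L 169) (.L 33)))) (.L 67)) (.L 67))) (.L 225)) (.C 2 3 8 1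
  (.L 719) (.L 70)))) (.C 2 3 1 2 (.C 1 2 44 1 (.L 113) (.B 2 2 1 (.C 2 3 2
  1 (.L 277) (.L 113)) (.C 1 2 1 2 (.C 2 3 1 2 (.B 0 2 1 (.C 0 3 14288 1 (.C
  0 2 7088 1 (.C 1 2 4 1 (.L 33) (.L 67)) (.L 67)) (.L 67)) (.L 277)) (.L
  33)) (.B 2 1 2 (.L 24) (.L 196))))) (.B 2 2 1 (.B 2 4 1 (.L 431) (.C 1 3
  23 1 (.L 33) (.C 1 3 1 2 (.L 303) (.L 378)))) (.B 0 2 1 (.L 113) (.C 0 2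
  3600 1 (.C 2 3 1 8 (.L 33) (.C 0 1 40 1 (.C 1 3 11 1 (.L 113) (.L 378))
  (.L 113))) (.L 33)))))) (.C 2 3 1 6 (.C 2 3 2 1 (.C 1 3 92 1 (.B 2 2 1 (.B
  2 4 1 (.L 431) (.C 1 2 23 1 (.C 1 3 184 1 (.L 113) (.L 303)) (.B 0 1 1 (.L
  303) (.L 378)))) (.B 0 2 1 (.L 113) (.B 0 1 2 (.L 113) (.B 0 1 4 (.L 113)
  (.C 1 2 23 1 (.C 1 3 184 1 (.L 113) (.L 303)) (.B 1 1 1 (.L 378) (.L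
  303))))))) (.B 2 2 1 (.C 1 3 1 2 (.L 378) (.L 394)) (.B 0 2 1 (.B 0 4 1
  (.B 2 1 2 (.C 1 3 1 2 (.L 852) (.B 1 1 4 (.L 3758) (.L 378))) (.C 1 3 1 2
  (.L 113) (.C 1 2 1 16 (.C 1 2 2 1 (.L 19) (.L 248)) (.C 2 3 4 1 (.L 55)
  (.L 248))))) (.C 1 3 1 2 (.L 852) (.C 1 3 1 4 (.L 378) (.C 0 2 912 1 (.C 2
  3 2 1 (.L 3758) (.L 78)) (.L 757))))) (.C 1 3 1 2 (.L 378) (.C 1 3 1 4 (.L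
  378) (.L 757)))))) (.L 89)) (.C 1 3 4 1 (.L 89) (.B 2 2 1 (.L 938) (.C 2 3
  1 12 (.L 57) (.B 0 2 1 (.C 1 3 1 2 (.L 17) (.B 2 1 2 (.L 17) (.C 1 3 1 4
  (.L 17) (.L 394)))) (.L 938))))))) (.C 1 3 1 10 (.B 2 2 1 (.C 2 3 3 2 (.L
  757) (.L 767)) (.B 0 2 1 (.B 2 1 2 (.C 2 3 3 2 (.B 2 2 1 (.L 1386) (.C 1 3
  8 1 (.L 84) (.C 0 2 224 1 (.C 0 3 1288 1 (.C 2 3 6 1 (.L 767) (.C 0 2 5216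
  1 (.C 1 3 1 1 (.L 246) (.B 0 1 1 (.C 0 1 5144 1 (.C 0 3 2576 1 (.C 1 3 1 2
  (.L 246) (.C 1 3 1 4 (.L 246) (.C 1 3 1 8 (.L 1218) (.L 55)))) (.L 84))
  (.L 84)) (.L 84))) (.L 84))) (.L 84)) (.L 84)))) (.B 2 2 1 (.L 84) (.B 0 1
  1 (.C 1 2 8 1 (.C 2 3 1 8 (.L 17) (.C 1 3 2 1 (.L 721) (.L 129))) (.C 2 3
  1 4 (.C 2 3 2 1 (.L 294) (.L 50)) (.C 1 3 1 8 (.L 17) (.C 2 3 1 8 (.L 17)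
  (.L 129))))) (.L 84)))) (.C 2 3 3 2 (.C 1 2 3 2 (.C 1 2 6 1 (.C 0 1 160 1
  (.B 0 4 1 (.B 2 1 4 (.L 394) (.B 0 8 1 (.C 1 3 4 1 (.C 1 3 8 1 (.C 1 2 6 1
  (.L 394) (.L 19)) (.L 19)) (.C 2 3 2 3 (.L 19) (.C 1 3 1 2 (.L 19) (.L
  248)))) (.L 825))) (.L 394)) (.L 394)) (.C 1 3 2 3 (.B 0 4 1 (.C 1 2 1 2
  (.L 19) (.C 0 3 7608 1 (.C 2 3 17 1 (.C 1 2 1 4 (.L 248) (.L 55)) (.L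
  255)) (.G 248 757 1 35443 8628 2124 17655 [.n, .g 32 3 0 0, .n, .n, .n,
  .n]))) (.L 84)) (.C 1 2 1 8 (.B 0 4 1 (.C 1 3 1 6 (.C 1 2 2 1 (.L 19) (.L
  248)) (.L 239)) (.L 394)) (.L 239)))) (.C 0 2 224 1 (.C 1 2 1 2 (.L 55)
  (.C 0 2 448 1 (.C 2 3 3 2 (.C 2 3 6 1 (.L 272) (.L 33)) (.L 55)) (.G 196
  219 0 19965 39930 9982 28700 [.n, .g 10 13 0 0, .n, .n, .n, .n, .n, .n])))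
  (.G 272 1386 1 917828 1864337 458914 2638754 [.n, .g 63 64 0 0, .n, .g 1
  32 0 0]))) (.C 2 3 1 4 (.C 1 2 8 1 (.C 1 2 16 1 (.B 0 4 1 (.L 448) (.L
  17)) (.L 17)) (.C 2 3 2 1 (.B 0 4 1 (.C 1 2 1 2 (.L 19) (.C 0 2 1288 1 (.L
  255) (.L 248))) (.L 394)) (.L 50))) (.C 1 3 2 1 (.B 0 4 1 (.C 1 3 4 1 (.L
  448) (.L 996)) (.L 721)) (.B 0 4 1 (.C 1 2 4 1 (.C 2 3 1 16 (.L 507) (.C 1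
  2 16 1 (.C 1 3 1 2 (.B 2 1 4 (.L 186) (.B 0 8 1 (.L 1) (.L 186))) (.L 1))
  (.L 1))) (.C 2 3 1 8 (.C 2 3 2 1 (.L 50) (.L 507)) (.C 1 3 1 16 (.L 507)
  (.L 1)))) (.C 2 3 1 8 (.L 334) (.L 129))))))) (.L 767))) (.C 1 2 2 3 (.B 2
  2 1 (.L 246) (.B 0 2 1 (.C 1 3 1 20 (.C 2 3 1 2 (.C 1 2 4 1 (.C 1 2 8 1
  (.B 2 1 2 (.L 129) (.B 0 4 1 (.C 0 3 2568 1 (.L 1) (.G 1 146 0 52874 3292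
  52668 26334 [.n, .n, .n, .n, .g 128 5 0 0, .n])) (.L 129))) (.B 2 1 2 (.L
  17) (.B 0 4 1 (.C 1 2 1 2 (.L 507) (.L 17)) (.L 17)))) (.C 2 3 2 1 (.C 1 2
  1 2 (.L 50) (.C 2 3 4 1 (.C 1 2 1 4 (.L 19) (.L 248)) (.L 19))) (.L 50)))
  (.C 1 3 2 1 (.C 2 3 1 2 (.B 2 1 2 (.L 129) (.B 0 4 1 (.C 1 2 8 1 (.C 1 3
  16 1 (.C 1 2 16 1 (.L 1) (.C 0 2 5128 1 (.L 1) (.G 90 4 4 6 6 3 6 [.n, .n,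
  .g 19 65 0 0, .n]))) (.C 1 2 1 2 (.C 0 3 5128 1 (.L 1) (.G 1316 4 4
  4194304 4194304 8388607 2097152 [.n, .n, .g 1 1844 0 0, .g 1 1899 0 0, .n,
  .n, .n, .n])) (.B 2 1 4 (.L 186) (.B 0 8 1 (.L 1) (.L 186))))) (.B 2 1 4
  (.L 186) (.B 0 8 1 (.C 2 3 2 1 (.C 1 2 1 2 (.L 1) (.L 507)) (.L 1)) (.L
  186)))) (.L 129))) (.B 2 1 2 (.B 2 2 1 (.L 84) (.B 0 1 1 (.C 2 3 1 4 (.L
  657) (.C 1 2 32 1 (.C 1 2 64 1 (.C 1 3 4 1 (.L 1) (.C 2 3 1 32 (.L 1) (.C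
  1 2 32 1 (.P (.ofNat 6) (.ofNat 7)) (.C 2 3 1 64 (.B 2 1 2 (.B 2 2 1 (.L
  84) (.L 1)) (.L 1)) (.P (.ofNat 7) (.ofNat 8)))))) (.C 2 3 1 16 (.C 0 2
  20488 1 (.B 2 1 2 (.B 2 2 1 (.L 84) (.B 0 1 2 (.L 1) (.L 84))) (.C 0 3
  40968 1 (.L 1) (.G 4 146 0 266291 133146 133146 133146 [.n, .n, .n, .n, .g
  32 1 0 0, .n]))) (.G 4 84 1 529984 529984 264992 529984 [.n, .n, .n, .n,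
  .g 64 1 0 0, .n])) (.C 2 3 1 32 (.B 2 1 2 (.B 2 2 1 (.L 84) (.B 0 1 2 (.L
  1) (.L 146))) (.B 0 2 1 (.L 1) (.B 1 2 1 (.B 0 1 2 (.L 1) (.B 0 1 4 (.L 1)
  (.L 146))) (.L 1)))) (.C 1 3 1 32 (.B 2 1 2 (.B 2 2 1 (.L 84) (.B 0 1 2
  (.L 1) (.L 146))) (.B 0 2 1 (.L 1) (.C 0 2 81928 1 (.L 1) (.G 4 90 2 45 11
  23 23 [.n, .n, .n, .n, .g 64 1 0 0, .n])))) (.C 2 3 1 64 (.B 2 1 2 (.B 2 2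
  1 (.L 240) (.B 0 1 2 (.L 1) (.C 1 3 2 1 (.L 146) (.L 240)))) (.B 0 2 1 (.L
  1) (.B 0 1 2 (.L 1) (.B 1 2 1 (.C 1 3 2 1 (.B 0 1 4 (.L 1) (.L 146)) (.L
  240)) (.L 1))))) (.C 1 3 1 64 (.B 2 1 2 (.B 2 2 1 (.L 240) (.C 0 2 163848
  1 (.B 0 1 2 (.L 1) (.C 1 2 4 1 (.L 1) (.L 240))) (.L 1))) (.C 0 2 163848 1
  (.B 0 2 1 (.L 1) (.B 0 1 2 (.L 1) (.B 1 2 1 (.C 0 3 163848 1 (.B 0 1 4 (.L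
  1) (.C 1 2 4 1 (.L 146) (.L 240))) (.L 1)) (.L 1)))) (.L 1))) (.P (.ofNat
  7) (.ofNat 8)))))))) (.B 0 2 1 (.C 0 2 10248 1 (.B 2 1 2 (.B 1 1 2 (.L 1)
  (.B 2 2 1 (.C 1 3 1 16 (.L 146) (.L 240)) (.C 2 3 1 16 (.C 0 2 20496 1 (.L
  1) (.G 4 444 0 170016 85008 85008 170016 [.n, .n, .n, .n, .g 64 1 0 0,
  .n])) (.L 1)))) (.L 1)) (.G 1 453 2 116708 116708 58354 7294 [.n, .n, .n,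
  .n, .g 32 1 0 0, .n])) (.C 1 2 1 2 (.B 2 2 1 (.C 1 3 1 16 (.L 84) (.L
  240)) (.B 0 1 2 (.C 2 3 1 32 (.C 0 2 40984 1 (.L 1) (.G 4 146 0 419926
  104981 209963 419926 [.n, .n, .n, .n, .g 64 1 0 0, .n])) (.L 1)) (.C 0 2
  40984 1 (.C 1 3 1 16 (.L 146) (.B 0 1 4 (.L 1) (.L 240))) (.L 240)))) (.C
  0 2 10248 1 (.B 2 2 1 (.L 240) (.C 1 3 1 32 (.B 0 1 2 (.C 0 1 40984 1 (.L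
  1) (.G 4 318 0 578086 289043 144522 578086 [.n, .n, .n, .n, .g 32 1 0 0,
  .n])) (.C 0 1 40984 1 (.C 1 2 1 4 (.C 0 1 81968 1 (.C 0 1 163936 1 (.C 0 1
  327872 1 (.C 0 1 655744 1 (.C 0 1 1311488 1 (.C 0 1 2622976 1 (.C 0 1
  5245952 1 (.B 0 1 4 (.C 1 3 1 128 (.C 1 2 1 64 (.L 1) (.L 240)) (.L 240))
  (.L 240)) (.G 146 857 0 106676 53312 1666 833 [.g 64 13 0 0, .n, .n])) (.L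
  444)) (.L 444)) (.L 240)) (.L 240)) (.L 240)) (.L 84)) (.L 240)) (.L 84)))
  (.L 44))) (.L 318)))))) (.L 84))) (.B 0 4 1 (.C 2 3 1 4 (.C 1 2 16 1 (.L
  1) (.C 0 2 5128 1 (.L 1) (.G 138 1 4 123422 123422 61711 123422 [.g 2 63 0
  0, .n, .n, .n]))) (.L 1)) (.C 2 3 1 4 (.L 657) (.B 0 1 2 (.C 1 2 32 1 (.C
  1 2 64 1 (.L 1) (.C 2 3 1 16 (.C 0 2 20488 1 (.L 1) (.G 4 110 0 13 13 7 13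
  [.n, .n, .n, .n, .g 64 9 0 0, .n])) (.L 1))) (.C 2 3 1 8 (.C 0 2 10248 1
  (.B 1 1 4 (.B 0 2 1 (.L 1) (.C 0 3 20488 1 (.B 1 2 1 (.B 0 1 2 (.L 1) (.C
  0 2 20496 1 (.C 1 3 2 1 (.L 1418) (.B 0 1 4 (.L 1) (.B 1 4 1 (.L 240) (.L
  1)))) (.G 240 146 0 82341 41171 41171 82341 [.n, .n, .g 57 64 0 0]))) (.L
  1)) (.G 4 453 2 184745 92373 92373 92373 [.n, .n, .n, .n, .g 32 1 0 0,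
  .n]))) (.L 1)) (.G 453 4 4 362135 362135 181068 362135 [.n, .n, .g 1 33 0
  0, .n])) (.B 0 2 1 (.L 1) (.B 1 1 4 (.C 2 3 1 16 (.C 0 1 20488 1 (.C 1 2 1
  2 (.B 1 2 1 (.C 1 3 1 1 (.B 0 1 2 (.L 1) (.B 0 1 4 (.L 1) (.B 1 4 1 (.L
  84) (.L 1)))) (.L 537)) (.L 1)) (.L 537)) (.G 4 453 2 430479 215239 215239
  430479 [.n, .n, .n, .n, .g 32 1 0 0, .n])) (.B 0 1 2 (.L 1) (.B 1 2 1 (.B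
  0 1 4 (.L 1) (.B 1 4 1 (.C 1 3 1 16 (.L 146) (.L 240)) (.L 1))) (.L 1))))
  (.L 1))))) (.B 1 1 1 (.L 84) (.C 1 2 32 1 (.C 1 2 64 1 (.C 0 1 320 1 (.C 2
  3 1 32 (.L 1) (.C 2 3 1 64 (.L 1) (.P (.ofNat 7) (.ofNat 8)))) (.L 1)) (.C
  2 3 1 16 (.C 0 2 20488 1 (.C 0 3 40968 1 (.L 1) (.G 1 84 1 335956 167978
  167978 167978 [.n, .n, .n, .n, .g 64 1 0 0, .n])) (.G 4 84 1 367686 367686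
  183843 367686 [.n, .n, .n, .n, .g 64 1 0 0, .n])) (.B 1 1 2 (.B 1 2 1 (.B
  1 4 1 (.L 146) (.L 1)) (.L 1)) (.L 1)))) (.B 2 4 1 (.C 2 3 1 8 (.B 1 1 2
  (.C 0 2 10248 1 (.C 0 3 20488 1 (.C 1 3 2 1 (.L 1418) (.B 1 2 1 (.B 0 1 4
  (.L 1) (.C 1 2 1 4 (.C 1 3 1 2 (.B 0 1 8 (.L 1) (.L 146)) (.L 318)) (.L
  318))) (.L 1))) (.G 4 453 2 163448 81724 81724 81724 [.n, .n, .n, .n, .g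
  32 1 0 0, .n])) (.G 148 4 4 18070 18070 9035 18070 [.g 2 5 0 0, .n, .n,
  .n])) (.C 0 2 10248 1 (.L 1) (.G 4 832 1 202002 202002 101001 202002 [.n,
  .n, .n, .n, .g 32 1 0 0, .n]))) (.B 1 1 2 (.C 1 3 1 16 (.C 0 2 20488 1 (.B
  1 2 1 (.B 0 1 4 (.L 1) (.C 0 1 20488 1 (.C 0 1 40976 1 (.C 0 3 40968 1 (.B
  0 1 8 (.L 1) (.B 1 4 1 (.L 84) (.L 1))) (.L 146)) (.L 146)) (.L 146))) (.L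
  1)) (.G 4 659 3 184815 92407 92407 184815 [.n, .n, .n, .n, .g 64 3 0 0,
  .n])) (.C 1 2 1 2 (.C 1 3 1 32 (.B 0 1 4 (.L 1) (.B 1 2 1 (.B 0 1 8 (.C 0
  2 81944 1 (.L 1) (.L 240)) (.L 444)) (.L 1))) (.L 44)) (.L 44))) (.L 1)))
  (.C 1 2 1 2 (.B 1 4 1 (.C 0 2 40984 1 (.B 1 8 1 (.L 240) (.B 2 1 4 (.L 1)
  (.L 240))) (.L 659)) (.B 2 1 2 (.C 2 3 1 32 (.C 0 2 40984 1 (.L 1) (.G 4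
  146 0 322822 80706 161411 322822 [.n, .n, .n, .n, .g 64 1 0 0, .n])) (.L
  1)) (.C 0 2 40984 1 (.B 2 1 4 (.L 1) (.B 0 4 1 (.L 444) (.L 1))) (.L
  659)))) (.C 0 2 10248 1 (.C 1 3 1 32 (.B 1 4 1 (.C 0 1 40984 1 (.C 1 2 1 4
  (.B 1 8 1 (.L 84) (.C 0 3 81944 1 (.B 2 1 4 (.C 0 2 163952 1 (.L 1) (.L
  240)) (.L 84)) (.L 240))) (.L 240)) (.L 84)) (.C 1 2 1 2 (.C 0 1 40984 1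
  (.B 2 1 2 (.L 1) (.C 0 2 81976 1 (.C 0 3 81944 1 (.B 2 1 4 (.L 1) (.B 0 4
  1 (.L 84) (.L 1))) (.L 240)) (.L 84))) (.G 1 240 2 597080 298540 597080
  597080 [.n, .n, .n, .n, .g 32 1 0 0, .n])) (.L 537))) (.L 44)) (.L
  318))))))))))) (.B 2 1 2 (.L 44) (.B 0 4 1 (.C 0 2 2568 1 (.L 1) (.G 1 138
  0 39038 9760 19519 4880 [.n, .n, .n, .n, .g 16 1 0 0, .n])) (.L 44)))))
  (.C 2 3 1 81 (.C 1 2 2 1 (.B 2 1 2 (.L 44) (.B 0 4 1 (.C 0 3 2584 1 (.C 0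
  1 640 1 (.C 1 2 2 1 (.B 2 1 4 (.L 44) (.B 0 8 1 (.L 1) (.L 44))) (.B 2 1 4
  (.L 412) (.B 0 8 1 (.C 1 2 1 2 (.L 1) (.L 17)) (.L 412)))) (.L 162)) (.L
  162)) (.L 44))) (.C 2 3 2 1 (.C 1 2 1 2 (.L 50) (.C 2 3 4 1 (.C 1 2 1 4
  (.L 19) (.L 248)) (.L 229))) (.L 380))) (.L 162))) (.L 246))) (.C 2 3 1 14
  (.C 2 3 2 1 (.B 2 2 1 (.C 2 3 4 1 (.L 757) (.L 148)) (.B 0 2 1 (.C 0 2 224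
  1 (.C 1 2 1 3 (.L 55) (.C 1 2 1 6 (.L 272) (.L 66))) (.B 2 1 2 (.L 240)
  (.G 272 1218 1 917828 2638754 458914 1778291 [.n, .g 25 63 0 0, .n, .g 2
  81 0 0]))) (.L 1218))) (.B 0 2 1 (.B 2 2 1 (.L 246) (.C 0 2 872 1 (.C 2 3
  1 4 (.L 55) (.L 1730)) (.L 196))) (.L 246))) (.C 1 3 1 81 (.B 0 2 1 (.B 2
  2 1 (.L 246) (.C 1 3 2 1 (.C 1 3 4 1 (.L 248) (.L 229)) (.L 380))) (.L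
  246)) (.L 114)))))) (by decide +kernel)

theorem EN1_c4 : CoN ENTab ⟨⟨2, 3, 8⟩, ⟨3, 7, 16⟩, ⟨1, 2, 4⟩, ⟨1, 0, 0, 0,
  0⟩, ⟨164, 10, 4, 4, 3⟩, ⟨20, 1, 1, 1, 0⟩, ⟨4, 1, 1, 0, 1⟩⟩ :=
CoN.ofG ENTab_B ENBt_E ENBt_U (.C 2 3 1 2 (.C 2 3 5 3 (.C 2 3 10 1 (.C 1 2 1
  7 (.C 1 3 3 1 (.C 0 1 224 1 (.B 2 2 1 (.B 1 1 4 (.L 62) (.L 100)) (.L 62))
  (.L 62)) (.C 1 2 1 3 (.C 1 3 1 2 (.L 552) (.L 383)) (.C 0 2 448 1 (.L 383)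
  (.L 2734)))) (.C 1 2 1 14 (.C 2 3 2 3 (.B 1 1 4 (.C 1 2 2 1 (.C 1 3 8 1
  (.L 62) (.L 191)) (.L 191)) (.B 2 2 1 (.L 118) (.C 1 2 2 1 (.C 1 3 8 1 (.L
  62) (.L 191)) (.L 191)))) (.C 1 3 3 2 (.C 1 2 8 1 (.B 2 2 1 (.B 1 1 4 (.L
  62) (.L 118)) (.L 221)) (.L 306)) (.C 2 3 1 6 (.L 306) (.L 2734)))) (.B 2
  2 1 (.B 1 1 4 (.C 1 2 1 28 (.L 1674) (.C 2 3 20 1 (.C 2 3 40 1 (.B 0 1 1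
  (.B 0 2 1 (.L 118) (.B 1 1 1 (.C 1 3 3 2 (.L 118) (.C 2 3 80 1 (.L 118)
  (.L 440))) (.L 118))) (.B 1 2 1 (.L 282) (.C 1 3 3 2 (.L 118) (.C 2 3 80 1
  (.L 118) (.C 2 3 1 2 (.L 212) (.L 440)))))) (.L 2018)) (.L 1674))) (.C 2 3
  20 1 (.L 118) (.C 2 3 1 2 (.L 449) (.L 191)))) (.C 2 3 20 1 (.C 1 2 1 28
  (.L 449) (.C 2 3 40 1 (.B 2 1 2 (.B 1 1 1 (.L 282) (.B 1 1 2 (.B 1 2 1 (.L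
  282) (.L 212)) (.L 212))) (.L 282)) (.L 2018))) (.L 449))))) (.C 1 3 4 3
  (.C 1 2 3 1 (.C 1 2 6 1 (.B 2 2 1 (.B 2 4 1 (.L 225) (.L 119)) (.L 81))
  (.L 119)) (.L 126)) (.L 70))) (.C 1 2 4 3 (.C 2 3 1 32 (.C 1 2 8 1 (.B 2 2
  1 (.L 94) (.L 81)) (.L 70)) (.L 264)) (.L 119))) (.C 2 3 2 7 (.C 1 3 1 1
  (.L 66) (.C 2 3 4 1 (.L 239) (.B 0 2 1 (.B 2 2 1 (.C 0 2 448 1 (.L 114)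
  (.L 881)) (.C 2 3 1 2 (.L 216) (.L 26))) (.C 0 2 448 1 (.L 114) (.L
  881))))) (.C 1 2 1 1 (.C 1 3 1 14 (.C 1 2 2 1 (.C 0 2 872 1 (.B 2 2 1 (.C
  1 3 2 1 (.L 66) (.L 246)) (.B 0 2 1 (.C 0 3 440 1 (.C 1 3 4 1 (.L 66) (.C
  1 3 1 2 (.L 272) (.L 114))) (.L 3719)) (.C 1 3 2 1 (.L 66) (.L 246)))) (.L
  148)) (.L 197)) (.L 54)) (.B 2 2 1 (.L 52) (.B 0 2 1 (.C 2 3 1 14 (.C 0 2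
  224 1 (.C 0 1 440 1 (.B 2 1 2 (.L 52) (.B 0 4 1 (.C 0 3 448 1 (.C 2 3 2 1
  (.L 26) (.L 14)) (.L 39)) (.L 52))) (.L 65)) (.L 65)) (.L 54)) (.L
  52)))))) (by decide +kernel)

theorem EN1_c5 : CoN ENTab ⟨⟨2, 3, 8⟩, ⟨3, 7, 16⟩, ⟨1, 2, 4⟩, ⟨20, 1, 1, 1,
  0⟩, ⟨28, 2, 0, 0, 1⟩, ⟨4, 1, 1, 1, 0⟩, ⟨4, 1, 1, 0, 1⟩⟩ :=
CoN.ofG ENTab_B ENBt_E ENBt_U (.C 0 3 1 2 (.C 1 2 2 5 (.C 0 3 5 3 (.B 2 2 1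
  (.C 0 2 9 2 (.C 0 1 4 3 (.B 1 1 4 (.B 0 1 1 (.C 0 3 10 1 (.C 0 3 20 1 (.G
  100 172 0 4 29 74 162 [.n, .n, .g 4 3 0 0, .n]) (.G 1872 205 1 5804240
  1031865 2644154 2902120 [.g 32 9 0 0, .n, .n, .n, .n, .n, .g 1 77 0 0, .g
  1 101 0 0])) (.G 62 581 3 45 16 41 22 [.n, .g 64 5 0 0, .n, .n, .n])) (.L
  32)) (.C 0 3 10 1 (.C 1 3 3 1 (.L 100) (.G 306 685 2 175930 7125171
  3166743 3430638 [.n, .g 4 1 0 0, .g 1 190 0 0, .g 1 203 0 0, .n, .n])) (.G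
  225 172 0 45 16 41 22 [.g 16 1 0 0, .g 64 7 0 0, .n, .n, .n, .n]))) (.C 0
  2 5 2 (.C 0 1 1 6 (.B 1 1 4 (.L 464) (.B 1 1 8 (.L 464) (.G 189 172 0 16
  33 162 22 [.g 64 3 0 0, .g 64 11 0 0, .n, .n, .n, .n]))) (.L 207)) (.L
  207))) (.L 207)) (.C 1 2 7 2 (.B 0 2 1 (.C 0 1 4 3 (.C 0 3 10 1 (.B 2 1 2
  (.B 1 1 2 (.L 205) (.C 0 3 20 1 (.C 0 2 16 1 (.G 205 100 2 145298 1017087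
  4649540 5739276 [.n, .n, .g 1 48 0 0, .g 1 47 0 0, .n, .n, .n, .n]) (.L
  426)) (.G 1872 1325 1 5380755 956579 2212088 2690377 [.n, .n, .n, .n, .n,
  .n, .n, .g 1 97 0 0]))) (.L 205)) (.G 256 1712 0 419903 149299 345254
  205286 [.n, .n, .n, .n, .g 1 36 0 0])) (.C 1 3 8 1 (.C 0 1 1 6 (.L 163)
  (.C 1 2 13 1 (.B 2 1 2 (.L 225) (.C 0 1 1 11 (.L 67) (.C 1 3 15 1 (.G 404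
  33 1 994562 44450 1155692 1341825 [.n, .n, .g 1 24 0 0, .g 1 28 0 0, .n,
  .n]) (.L 67)))) (.L 169))) (.L 163))) (.B 1 1 1 (.L 32) (.C 0 2 16 1 (.C 0
  1 4 3 (.C 0 3 10 1 (.B 2 2 1 (.C 0 1 7 1 (.C 0 2 32 1 (.C 0 3 20 1 (.G 205
  2856 3 55166 772330 3530653 2179075 [.n, .n, .g 1 61 0 0, .g 1 64 0 0, .n,
  .n, .n, .n]) (.G 1674 256 1 60733 21594 98522 29692 [.n, .g 64 23 0 0, .n,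
  .n, .n, .n, .n, .n])) (.L 62)) (.L 62)) (.L 205)) (.L 62)) (.G 464 207 2 1
  1 1 1 [.n, .n, .n, .n, .g 32 23 0 0])) (.L 634)))) (.C 0 2 9 2 (.C 0 1 16
  1 (.C 0 3 10 1 (.C 0 1 32 1 (.B 2 1 2 (.C 0 2 18 1 (.C 0 1 64 1 (.C 0 3 20
  1 (.C 0 3 40 1 (.G 509 212 2 65536 8388607 2359296 5210111 [.n, .n, .g 2
  59 0 0, .g 2 65 0 0, .n, .n, .n, .n]) (.L 1506)) (.L 449)) (.L 449)) (.L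
  191)) (.L 205)) (.L 62)) (.L 62)) (.L 692)) (.L 32)))) (.C 1 2 7 2 (.B 0 2
  1 (.B 2 2 1 (.L 207) (.C 1 2 13 1 (.C 0 1 1 8 (.L 866) (.C 1 2 26 1 (.C 0
  3 1 11 (.G 866 33 1 243 16 832 490 [.n, .g 64 5 0 0, .g 5 22 0 0, .n, .n])
  (.C 0 1 1 31 (.L 866) (.C 2 3 1 37 (.G 866 113 1 986 16 832 1661 [.n, .g
  64 13 0 0, .g 15 64 0 0, .n, .n]) (.G 113 321 1 986 16 1661 22 [.g 64 3 0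
  0, .n, .n, .n])))) (.L 866))) (.L 71))) (.L 32)) (.L 71))) (.C 0 2 1 2 (.C
  0 3 5 3 (.C 0 1 9 2 (.B 2 2 1 (.C 0 2 2 1 (.B 2 4 1 (.G 1942 840 2 6 111
  25 58 [.g 9 16 0 0, .n, .n, .n]) (.C 0 1 18 1 (.B 1 2 1 (.B 0 1 1 (.C 0 3
  10 1 (.C 2 3 5 1 (.G 685 860 2 2 72 8 79 [.n, .n, .g 64 33 0 0]) (.C 0 3
  20 1 (.G 3880 71 2 2 72 79 79 [.g 32 25 0 0, .n, .n, .n]) (.L 449))) (.G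
  1007 737 1 1 1 1 1 [.g 23 65 0 0, .n, .n, .n, .n])) (.L 32)) (.C 0 3 10 1
  (.G 1674 840 2 171174 6162259 684695 3337890 [.n, .n, .g 7 62 0 0, .g 7 65
  0 0, .n, .n, .g 1 73 0 0, .g 1 68 0 0]) (.G 449 37 2 4028 7437 826 1963
  [.n, .g 64 1 0 0, .g 9 16 0 0, .g 33 64 0 0, .n, .n]))) (.L 37))) (.L 60))
  (.C 0 2 2 1 (.C 0 3 10 1 (.B 1 1 1 (.L 205) (.B 2 1 2 (.C 2 3 5 1 (.G 205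
  1306 2 167745 3019418 670982 6625945 [.n, .n, .g 1 46 0 0, .g 1 46 0 0,
  .n, .n, .n, .n]) (.C 0 3 20 1 (.G 1325 745 0 83955 1511192 3316226 3316226
  [.n, .n, .g 1 34 0 0, .g 2 77 0 0, .n, .n, .n, .n]) (.G 449 205 1 59416
  27162 59416 28859 [.n, .g 16 9 0 0, .n, .n, .n, .n]))) (.L 205))) (.G 126
  207 2 367 339 75 179 [.n, .g 22 65 0 0, .g 24 65 0 0, .n, .n])) (.L 32)))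
  (.L 207)) (.L 207)) (.G 207 313 3 1 1 1 1 [.n, .n, .n, .g 23 63 0 0])))
  (.C 2 3 1 1 (.B 0 2 1 (.B 0 4 1 (.C 1 2 2 5 (.C 1 3 3 5 (.C 1 2 7 2 (.C 1
  3 6 1 (.C 1 2 13 1 (.C 1 2 26 1 (.B 2 2 1 (.G 207 866 1 1 1 1 1 [.n, .g 18
  65 0 0, .n, .n]) (.C 0 2 37 1 (.G 113 321 1 22 16 1661 192 [.g 64 5 0 0,
  .n, .n, .n]) (.G 866 33 1 1661 16 832 192 [.n, .g 64 13 0 0, .g 15 64 0 0,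
  .n, .n]))) (.L 866)) (.L 71)) (.L 316)) (.L 860)) (.L 316)) (.G 71 275 3 1
  1 1 1 [.n, .n, .n, .g 8 1 0 0])) (.L 275)) (.L 275)) (.C 1 3 2 5 (.B 2 2 1
  (.L 207) (.B 0 2 1 (.C 2 3 7 1 (.G 113 901 3 37 27 16 219 [.g 16 1 0 0, .g
  64 3 0 0, .n, .n]) (.C 1 2 8 1 (.C 1 3 4 1 (.B 2 1 2 (.G 113 866 1 26 19
  301 149 [.g 17 32 0 0, .n, .n, .n]) (.C 2 3 1 2 (.L 113) (.C 0 3 6 1 (.G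
  866 113 0 22 16 515 262 [.n, .g 17 32 0 0, .g 3 67 0 0, .n, .n]) (.L
  50)))) (.C 0 1 6 1 (.C 0 3 3 1 (.L 239) (.C 0 3 1 2 (.G 615 1218 1 91429
  182858 182858 182858 [.n, .n, .g 5 33 0 0, .n]) (.B 2 1 2 (.L 84) (.B 0 4
  1 (.C 2 3 1 4 (.G 89 84 1 117516 117516 117516 235032 [.n, .n, .g 2 7 0 0,
  .n]) (.L 394)) (.L 84))))) (.C 1 2 2 1 (.G 825 412 1 2268606 1099930
  4434094 549965 [.g 64 21 0 0, .g 8 1 0 0, .g 1 66 0 0, .g 1 71 0 0, .n,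
  .n, .n, .n]) (.C 0 3 1 4 (.B 2 1 2 (.L 860) (.B 0 4 1 (.C 0 1 2 1 (.G 1218
  767 1 64145 256581 64145 128290 [.g 47 64 0 0, .n, .n, .n]) (.C 1 2 1 2
  (.G 1771 248 0 223880 111940 223880 111940 [.n, .n, .n, .n, .g 1 95 0 0])
  (.L 1812))) (.L 860))) (.C 2 3 1 4 (.C 1 2 1 2 (.B 2 1 2 (.L 860) (.C 0 2
  2 1 (.L 229) (.C 2 3 1 2 (.G 481 71 1 4 1 2 4 [.g 64 19 0 0, .n, .n, .n,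
  .n, .n]) (.L 19)))) (.L 1812)) (.G 174 89 0 130 129 129 16 [.n, .n, .n,
  .n, .g 1 67 0 0, .g 1 93 0 0, .n, .n])))))) (.C 2 3 1 2 (.L 316) (.B 0 4 1
  (.C 0 3 3 1 (.L 239) (.C 0 3 1 2 (.G 316 89 2 172 344 344 344 [.n, .g 64
  61 0 0, .n, .n, .n]) (.C 2 3 1 4 (.G 316 50 2 584 584 584 1167 [.n, .g 13
  21 0 0, .n, .n, .n]) (.B 2 1 2 (.L 84) (.C 1 3 1 4 (.G 412 1386 1 175821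
  175821 351641 351641 [.n, .n, .g 13 64 0 0, .n]) (.L 181)))))) (.L
  110))))) (.L 1524))) (.B 2 2 1 (.L 592) (.B 0 2 1 (.C 2 3 2 3 (.C 1 2 1 7
  (.C 1 3 3 5 (.G 448 71 1 8 23 47 137 [.n, .g 32 11 0 0, .n, .n, .n, .n])
  (.L 717)) (.L 717)) (.C 0 3 2 7 (.C 1 2 3 5 (.B 0 4 1 (.C 1 2 6 1 (.C 0 1
  3 1 (.L 246) (.C 0 1 1 2 (.L 50) (.B 2 1 2 (.L 17) (.G 281 17 1 65 16 192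
  22 [.g 16 1 0 0, .n, .g 1 73 0 0, .g 1 70 0 0, .n, .n])))) (.L 901)) (.L
  110)) (.L 901)) (.C 1 3 1 10 (.C 1 2 3 5 (.C 1 2 6 1 (.C 1 3 2 1 (.C 0 1 2
  3 (.L 61) (.B 0 4 1 (.G 792 90 2 9129 1571 18848 6283 [.n, .g 64 1 0 0,
  .n, .n, .n, .n, .g 44 63 0 0, .g 7 9 0 0]) (.L 110))) (.L 25)) (.L 25))
  (.L 25)) (.G 110 638 2 1 1 1 1 [.n, .n, .g 1 0 5386 0, .n])))) (.L
  717)))))) (by decide +kernel)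

theorem EN1_c6 : CoN ENTab ⟨⟨2, 3, 8⟩, ⟨3, 7, 16⟩, ⟨1, 2, 4⟩, ⟨28, 2, 0, 0,
  1⟩, ⟨8, 2, 0, 0, 1⟩, ⟨4, 1, 1, 1, 0⟩, ⟨4, 1, 1, 0, 1⟩⟩ :=
CoN.ofG ENTab_B ENBt_E ENBt_U (.C 2 3 1 1 (.C 0 2 2 5 (.C 0 3 3 5 (.C 0 1 1
  2 (.C 0 2 7 2 (.B 0 2 1 (.B 2 2 1 (.L 634) (.C 0 3 6 1 (.C 0 2 13 1 (.G
  404 113 1 54275 108551 1411157 651303 [.n, .n, .g 1 25 0 0, .g 1 29 0 0,
  .n, .n]) (.L 316)) (.L 316))) (.L 32)) (.L 316)) (.L 638)) (.L 32)) (.G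
  321 32 0 1 1 1 1 [.n, .n, .g 1 0 1047 0])) (.C 0 3 2 5 (.B 2 2 1 (.L 207)
  (.B 0 2 1 (.C 2 3 7 1 (.G 113 901 3 32 16 19 262 [.n, .g 128 5 0 0, .n,
  .n]) (.C 0 1 1 2 (.C 2 3 1 2 (.G 316 113 0 16 32 131 259 [.g 11 65 0 0, .g
  5 62 0 0, .n, .n, .n]) (.C 1 3 2 1 (.L 229) (.G 825 412 1 518215 4145721
  8388607 2072860 [.g 8 7 0 0, .g 64 9 0 0, .g 1 66 0 0, .g 1 71 0 0, .n,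
  .n, .n, .n]))) (.C 1 3 8 1 (.L 1603) (.C 2 3 1 2 (.L 321) (.C 1 3 1 2 (.L
  321) (.C 2 3 1 4 (.L 110) (.G 281 412 1 8 64 129 16 [.g 32 1 0 0, .g 64 15
  0 0, .n, .n, .n, .g 2 7 0 0]))))))) (.L 1524))) (.B 2 2 1 (.L 1524) (.B 0
  2 1 (.C 2 3 2 3 (.C 0 2 1 7 (.C 0 3 3 5 (.C 0 1 1 8 (.C 0 2 2 1 (.C 0 1 2
  1 (.C 0 3 6 1 (.G 136 412 1 188 751 763 2254 [.g 64 21 0 0, .g 25 64 0 0,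
  .n, .n, .n, .n]) (.L 25)) (.L 25)) (.L 25)) (.L 168)) (.L 168)) (.L 1722))
  (.C 0 3 1 10 (.C 0 2 3 5 (.C 0 1 1 8 (.C 0 1 2 1 (.C 0 2 6 1 (.B 0 4 1 (.C
  0 3 2 1 (.C 0 1 4 1 (.C 0 3 4 1 (.G 412 243 0 348 2782 4172 2782 [.n, .g
  64 19 0 0, .n, .n]) (.B 2 1 2 (.L 110) (.G 458 195 3 1 1 1 1 [.n, .n, .g 1
  49 0 0, .g 1 40 0 0, .n, .n, .g 1 66 0 0, .g 1 69 0 0]))) (.L 61)) (.L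
  25)) (.L 110)) (.L 25)) (.L 25)) (.L 7)) (.L 7)) (.G 419 2695 1 1 1 1 1
  [.n, .n, .g 1 0 5074 0, .n]))) (.L 717))))) (by decide +kernel)

theorem EN1_c7 : CoN ENTab ⟨⟨1, 1, 4⟩, ⟨3, 5, 16⟩, ⟨2, 3, 8⟩, ⟨1, 0, 0, 0,
  0⟩, ⟨8, 2, 0, 0, 1⟩, ⟨4, 1, 1, 1, 0⟩, ⟨8, 2, 2, 1, 1⟩⟩ :=
CoN.ofG ENTab_B ENBt_E ENBt_U (.C 1 2 3 4 (.C 1 2 5 1 (.C 1 3 5 4 (.C 1 2 10
  1 (.C 1 3 10 1 (.B 2 1 2 (.C 1 2 20 1 (.C 0 1 20 1 (.L 372) (.L 33)) (.L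
  169)) (.B 0 4 1 (.L 1320) (.L 372))) (.B 2 1 2 (.L 748) (.L 928))) (.L
  67)) (.C 0 3 24 1 (.L 67) (.L 1405))) (.L 548)) (.C 2 3 3 2 (.C 2 3 6 1
  (.C 2 3 12 1 (.C 2 3 24 1 (.C 2 3 48 1 (.B 2 1 2 (.B 1 1 2 (.L 1898) (.C 1
  3 15 1 (.B 1 1 4 (.L 1898) (.B 2 2 1 (.C 0 1 100 1 (.L 940) (.L 3008)) (.L
  1898))) (.L 3008))) (.L 1898)) (.L 1898)) (.L 1898)) (.L 1898)) (.C 1 2 2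
  1 (.C 1 3 1 1 (.C 1 2 4 1 (.L 119) (.L 221)) (.C 0 3 96 1 (.L 221) (.L
  426))) (.C 0 1 392 1 (.B 1 1 2 (.L 349) (.B 2 1 2 (.C 2 3 1 2 (.L 426) (.L
  256)) (.L 349))) (.L 426)))) (.C 1 2 1 1 (.L 119) (.C 2 3 1 4 (.C 0 2 96 1
  (.L 221) (.L 349)) (.L 221))))) (by decide +kernel)

theorem EN1_c8 : CoN ENTab ⟨⟨1, 1, 4⟩, ⟨3, 5, 16⟩, ⟨2, 3, 8⟩, ⟨1, 0, 0, 0,
  0⟩, ⟨8, 2, 0, 0, 1⟩, ⟨8, 2, 2, 1, 1⟩, ⟨28, 7, 7, 2, 5⟩⟩ :=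
CoN.ofG ENTab_B ENBt_E ENBt_U (.C 1 2 5 4 (.C 2 3 1 2 (.B 2 1 2 (.C 1 2 10 1
  (.L 33) (.C 0 3 388 1 (.L 748) (.G 748 951 0 15846 8049 4024 8049 [.n, .g
  64 31 0 0, .n, .n, .n, .n, .n, .n]))) (.C 1 2 10 1 (.C 1 3 19 1 (.B 0 4 1
  (.L 1320) (.L 372)) (.L 928)) (.L 928))) (.C 1 3 5 1 (.B 2 1 2 (.L 33) (.B
  2 1 4 (.L 33) (.B 0 4 1 (.L 928) (.C 0 2 388 1 (.L 33) (.G 1250 113 1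
  45731 1178 22829 11562 [.g 64 23 0 0, .n, .n, .n, .n, .n]))))) (.L 55)))
  (.C 0 2 24 1 (.B 2 1 2 (.C 1 3 1 2 (.C 0 3 388 1 (.L 748) (.G 894 1320 0
  15846 3977 979 7893 [.n, .g 64 31 0 0, .n, .n, .n, .n, .n, .n])) (.L 55))
  (.C 2 3 2 1 (.C 2 3 4 1 (.L 70) (.L 81)) (.L 81))) (.L 70)))
  (by decide +kernel)

theorem EN1_c9 : CoN ENTab ⟨⟨1, 1, 4⟩, ⟨3, 5, 16⟩, ⟨2, 3, 8⟩, ⟨1, 0, 0, 0,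
  0⟩, ⟨8, 2, 0, 0, 1⟩, ⟨28, 7, 7, 2, 5⟩, ⟨52, 13, 13, 2, 11⟩⟩ :=
CoN.ofG ENTab_B ENBt_E ENBt_U (.C 2 3 2 1 (.C 2 3 4 1 (.C 1 2 5 1 (.C 2 3 4
  1 (.C 0 1 20 1 (.C 0 2 196 1 (.C 2 3 4 1 (.C 0 1 40 1 (.C 1 2 5 1 (.L 50)
  (.C 1 3 4 1 (.L 113) (.L 55))) (.L 113)) (.L 50)) (.L 113)) (.L 113)) (.L
  19)) (.L 55)) (.L 19)) (.L 89)) (by decide +kernel)

theorem EN1_c10 : CoN ENTab ⟨⟨1, 1, 4⟩, ⟨3, 5, 16⟩, ⟨2, 3, 8⟩, ⟨1, 0, 0, 0,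
  0⟩, ⟨8, 2, 0, 0, 1⟩, ⟨52, 13, 13, 2, 11⟩, ⟨40, 10, 4, 0, 7⟩⟩ :=
  CoN.ofG ENTab_B ENBt_E ENBt_U (.L 89) (by decide +kernel)

theorem EN1_c11 : CoN ENTab ⟨⟨1, 1, 4⟩, ⟨3, 5, 16⟩, ⟨2, 3, 8⟩, ⟨1, 0, 0, 0,
  0⟩, ⟨40, 10, 4, 0, 7⟩, ⟨52, 13, 13, 2, 11⟩, ⟨172, 19, 19, 2, 17⟩⟩ :=
CoN.ofG ENTab_B ENBt_E ENBt_U (.C 2 3 2 1 (.L 89) (.C 1 3 3 1 (.L 89) (.C 1
  2 1 1 (.C 1 3 1 2 (.B 2 1 2 (.B 2 2 1 (.C 0 2 1524 1 (.B 2 4 1 (.L 1) (.L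
  2)) (.G 2 17 1 38241 9413 18826 18826 [.g 64 17 0 0, .n, .n, .g 64 1 0 0,
  .n, .n])) (.B 0 1 1 (.L 335) (.B 0 1 2 (.L 38) (.C 1 2 2 1 (.L 2) (.C 0 2
  1524 1 (.L 1) (.G 2 1 4 66492 66492 33246 33246 [.g 32 0 7 0, .n, .n, .n,
  .n, .n])))))) (.B 0 4 1 (.B 2 1 4 (.L 229) (.B 2 1 8 (.L 2) (.C 1 2 2 1
  (.B 0 8 1 (.C 1 3 2 1 (.B 0 16 1 (.C 0 2 3036 1 (.B 2 1 16 (.B 2 2 1 (.L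
  2) (.L 80)) (.L 80)) (.L 606)) (.L 2)) (.L 2011)) (.L 2)) (.B 0 8 1 (.L
  869) (.C 0 2 1524 1 (.L 2) (.G 49 2 0 1441295 1441295 720647 720647 [.g 64
  27 0 0, .n, .n, .n, .g 10 67 0 0, .g 7 62 0 0])))))) (.B 0 1 2 (.L 19) (.B
  1 1 1 (.B 0 1 4 (.L 38) (.B 1 2 1 (.C 1 2 2 1 (.L 2) (.C 0 2 1524 1 (.L 1)
  (.G 1 2 0 65096 65096 32548 32548 [.n, .n, .n, .n, .g 23 64 18 0, .n])))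
  (.L 38))) (.L 19))))) (.C 1 3 1 4 (.B 2 1 2 (.B 2 2 1 (.C 0 3 3060 1 (.C 0
  2 1524 1 (.L 1) (.G 1 44 1 76204 38102 38102 152408 [.n, .n, .n, .n, .g 32
  1 0 0, .n])) (.G 1 733 3 83521 20880 20880 41761 [.n, .n, .n, .n, .g 64 3
  0 0, .n])) (.B 0 1 1 (.L 2) (.B 1 2 1 (.B 0 1 2 (.L 1) (.C 0 3 3060 1 (.C
  0 2 1524 1 (.L 1) (.L 44)) (.L 114))) (.L 1)))) (.B 0 4 1 (.B 2 1 4 (.L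
  229) (.B 2 1 8 (.L 2) (.B 0 8 1 (.C 0 3 3060 1 (.L 700) (.L 11)) (.C 0 2
  1524 1 (.L 2) (.G 2 49 0 55619 27810 27810 55619 [.g 8 1 0 0, .n, .n, .n,
  .n, .n]))))) (.B 0 1 2 (.L 335) (.B 1 1 1 (.B 1 2 1 (.C 0 3 3060 1 (.C 0 2
  1524 1 (.L 1) (.G 74 2 0 188161 94081 94081 376323 [.n, .n, .g 1 3 0 0,
  .n])) (.L 74)) (.L 2)) (.L 38))))) (.B 2 1 2 (.C 0 3 384 1 (.B 2 2 1 (.C 2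
  3 1 2 (.C 0 1 3060 1 (.C 0 2 1524 1 (.L 1) (.G 39 1 4 19279 38557 9639
  19279 [.n, .g 44 63 0 0, .n, .n])) (.L 44)) (.C 1 3 1 4 (.B 0 1 2 (.L 2)
  (.L 52)) (.B 0 1 2 (.L 1) (.C 2 3 1 4 (.L 52) (.C 2 3 1 8 (.L 14) (.C 1 3
  1 8 (.L 14) (.L 432))))))) (.B 0 1 1 (.B 2 1 2 (.L 1) (.B 0 2 1 (.L 38)
  (.L 1))) (.B 1 2 1 (.B 0 1 2 (.L 1) (.C 2 3 1 2 (.L 317) (.C 2 3 1 4 (.L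
  52) (.C 1 3 1 4 (.L 52) (.C 1 3 1 8 (.L 14) (.B 1 4 1 (.L 63) (.L 1)))))))
  (.L 1)))) (.B 0 1 1 (.C 0 2 2 1 (.G 49 2 0 221849 887398 887398 110925 [.g
  25 63 0 0, .n, .n, .n, .g 1 9 0 0, .g 5 59 0 0]) (.B 2 2 1 (.L 39) (.L
  47))) (.G 47 138 2 1693584 6774335 3387168 846792 [.g 64 19 0 0, .n, .n,
  .n, .g 5 31 0 0, .g 5 66 0 0]))) (.B 0 4 1 (.B 0 8 1 (.B 2 1 4 (.L 83) (.C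
  0 3 384 1 (.C 2 3 1 2 (.L 11) (.C 2 3 1 4 (.L 11) (.C 1 3 1 4 (.L 11) (.B
  2 1 8 (.B 2 2 1 (.L 1610) (.L 161)) (.L 161))))) (.C 0 2 2 1 (.G 47 658 3
  2097152 8388607 8388607 1048576 [.n, .n, .g 2 73 0 0, .g 1 43 0 0, .n,
  .n]) (.L 49)))) (.L 83)) (.B 0 1 2 (.L 185) (.B 1 1 1 (.C 2 3 1 4 (.C 0 3
  3060 1 (.C 0 2 1524 1 (.C 0 1 3060 1 (.L 1) (.L 3374)) (.L 430)) (.L 14))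
  (.C 0 3 384 1 (.C 1 3 1 4 (.C 0 2 3060 1 (.C 0 1 3060 1 (.C 0 3 6132 1 (.L
  1) (.L 54)) (.L 52)) (.L 52)) (.C 0 2 3060 1 (.C 0 3 768 1 (.B 1 2 1 (.B 1
  4 1 (.L 63) (.L 1)) (.L 1)) (.L 63)) (.G 224 744 1 8296394 8296394 4148197
  1037049 [.n, .n, .n, .n, .n, .g 1 20 0 0]))) (.G 47 130 1 2097152 8388607
  8388607 1048576 [.n, .n, .n, .n, .g 4 31 0 0, .g 1 14 0 0]))) (.C 2 3 1 4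
  (.L 38) (.B 1 1 2 (.C 2 3 1 8 (.L 38) (.B 1 2 1 (.C 1 3 1 8 (.L 242) (.C 0
  3 384 1 (.C 0 2 6132 1 (.C 1 3 1 8 (.L 3207) (.L 97)) (.L 49)) (.L 12)))
  (.L 185))) (.L 185))))))))) (.C 1 2 1 2 (.B 2 1 2 (.B 2 2 1 (.C 0 2 3060 1
  (.C 1 3 1 4 (.C 0 3 3060 1 (.B 0 1 2 (.C 0 1 1524 1 (.C 1 2 2 1 (.L 1) (.C
  0 2 6120 1 (.L 1) (.L 14))) (.G 1 1026 0 228054 114027 456109 456109 [.g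
  32 1 0 0, .n, .n, .n, .g 64 1 0 0, .n])) (.L 74)) (.L 430)) (.C 0 1 3060 1
  (.C 1 3 1 16 (.B 0 1 2 (.B 2 4 1 (.L 54) (.C 0 2 6120 1 (.L 1) (.L 54)))
  (.L 54)) (.L 432)) (.G 14 744 3 296247 148704 296247 18588 [.g 32 21 0 0,
  .n, .n, .n]))) (.G 9 993 2 94187 23639 47278 5910 [.n, .n, .g 8 61 0 0,
  .n])) (.B 0 1 1 (.C 1 3 1 4 (.L 335) (.C 2 3 1 8 (.L 38) (.C 0 3 384 1 (.C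
  1 3 1 4 (.L 38) (.C 2 3 1 8 (.L 38) (.C 0 2 12276 1 (.L 1) (.L 63)))) (.L
  49)))) (.C 1 3 1 4 (.C 0 2 3060 1 (.C 0 3 3060 1 (.C 0 1 1524 1 (.C 1 2 2
  1 (.L 1) (.C 0 2 6120 1 (.C 0 3 6120 1 (.C 1 2 1 1 (.L 1) (.B 0 1 2 (.L
  38) (.L 2183))) (.L 54)) (.L 54))) (.G 197 2 0 208926 104463 417852 417852
  [.n, .g 15 62 0 0, .n, .n])) (.L 430)) (.L 14)) (.C 0 2 3060 1 (.C 0 1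
  3060 1 (.B 1 2 1 (.C 0 3 384 1 (.C 0 2 6120 1 (.C 1 2 2 1 (.B 1 4 1 (.L
  63) (.L 1)) (.L 49)) (.L 49)) (.L 47)) (.C 1 3 1 16 (.C 0 2 6120 1 (.C 2 3
  1 1 (.B 0 2 1 (.L 38) (.C 0 1 6120 1 (.B 1 1 2 (.L 1334) (.C 2 3 2 1 (.L
  38) (.L 1))) (.L 54))) (.L 1)) (.L 54)) (.L 97))) (.G 47 1774 1 8388607
  4210752 8388607 526344 [.g 32 11 0 0, .n, .n, .n, .n, .g 1 52 0 0])) (.G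
  346 130 1 3006597 1509194 1509194 188649 [.g 16 3 0 0, .n, .n, .n, .n, .g
  10 67 0 0]))))) (.B 0 4 1 (.B 2 1 4 (.L 83) (.B 0 8 1 (.C 0 2 3060 1 (.C 0
  3 384 1 (.C 1 3 1 2 (.L 314) (.C 1 3 1 4 (.L 258) (.C 0 3 768 1 (.C 1 3 1
  4 (.L 368) (.C 2 3 1 4 (.L 368) (.L 161))) (.G 161 143 0 958905 3835619
  3835619 479452 [.n, .n, .n, .n, .g 1 10 0 0, .g 1 23 0 0, .n, .n, .n, .g 4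
  57 0 0])))) (.C 0 1 2 1 (.G 382 143 0 148853 595413 1186174 74427 [.n, .n,
  .g 31 65 0 0, .g 5 13 0 0, .n, .n]) (.L 880))) (.L 536)) (.L 83))) (.B 0 1
  2 (.L 185) (.C 0 2 3060 1 (.B 1 1 1 (.C 1 2 4 1 (.C 1 3 1 4 (.C 0 3 3060 1
  (.C 0 1 1524 1 (.C 0 2 12216 1 (.L 1) (.L 510)) (.L 430)) (.L 14)) (.C 0 1
  3060 1 (.L 47) (.G 14 47 5 4202544 2109512 8388607 263689 [.g 32 1 0 0,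
  .n, .n, .n]))) (.L 47)) (.C 1 3 1 4 (.L 19) (.C 2 3 1 16 (.L 335) (.B 1 1
  2 (.C 1 3 1 8 (.L 38) (.L 97)) (.L 185))))) (.C 1 3 1 4 (.G 2038 1717 1
  291027 72757 145514 145514 [.n, .n, .n, .n, .g 64 43 0 0]) (.G 224 878 1
  8388607 4210752 4210752 526344 [.n, .g 16 9 0 0, .n, .n, .n, .g 1 41 0
  0])))))) (.B 0 4 1 (.B 2 1 2 (.L 432) (.C 0 2 768 1 (.B 0 8 1 (.B 2 1 4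
  (.L 83) (.C 0 1 3060 1 (.C 1 3 1 16 (.B 2 1 8 (.C 1 2 1 4 (.C 1 3 2 1 (.C
  0 3 24504 1 (.C 0 2 12264 1 (.C 1 2 4 1 (.L 368) (.B 2 2 1 (.C 1 2 1 2 (.B
  1 1 2 (.L 161) (.L 368)) (.L 575)) (.L 575))) (.B 0 1 1 (.G 382 143 0
  530026 132506 265013 1060052 [.n, .n, .g 43 64 0 0, .g 6 13 0 0, .n, .n])
  (.G 660 382 1 936658 234165 468329 1873317 [.n, .n, .n, .g 15 62 0 0, .n,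
  .n]))) (.G 660 314 0 8388607 1048576 2097152 4194304 [.n, .n, .g 5 13 0 0,
  .g 3 22 0 0, .n, .n])) (.B 2 2 1 (.B 2 4 1 (.L 83) (.L 636)) (.L 161)))
  (.B 2 2 1 (.B 2 4 1 (.L 83) (.L 636)) (.L 161))) (.C 1 2 1 4 (.B 0 16 1
  (.L 575) (.C 1 3 2 1 (.B 1 1 1 (.B 0 1 2 (.L 575) (.C 0 1 6120 1 (.L 575)
  (.L 536))) (.L 575)) (.L 161))) (.L 161))) (.C 0 3 384 1 (.B 2 1 8 (.L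
  636) (.L 161)) (.L 134))) (.L 536))) (.L 83)) (.L 672))) (.L 432))))))
  (by decide +kernel)

theorem EN1_c12 : CoN ENTab ⟨⟨1, 1, 4⟩, ⟨3, 5, 16⟩, ⟨2, 3, 8⟩, ⟨1, 0, 0, 0,
  0⟩, ⟨40, 10, 4, 0, 7⟩, ⟨292, 49, 31, 2, 38⟩, ⟨20, 1, 1, 0, 1⟩⟩ :=
CoN.ofG ENTab_B ENBt_E ENBt_U (.C 1 3 1 4 (.C 1 3 2 1 (.C 1 3 4 1 (.L 89)
  (.C 1 3 1 2 (.L 89) (.C 1 3 1 4 (.L 89) (.C 2 3 2 3 (.L 89) (.C 2 3 1 6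
  (.L 89) (.P (.ofNat 2) (.ofNat 3))))))) (.C 1 2 3 2 (.B 2 1 2 (.B 2 2 1
  (.B 1 1 2 (.L 3) (.B 2 4 1 (.B 2 8 1 (.B 1 1 4 (.L 3) (.B 2 16 1 (.C 1 3 1
  2 (.L 50) (.L 394)) (.L 3))) (.L 3)) (.L 3))) (.L 3)) (.B 0 4 1 (.B 2 1 4
  (.L 83) (.B 0 8 1 (.B 2 1 8 (.L 3) (.B 0 16 1 (.C 2 3 1 12 (.C 2 3 2 1 (.L
  3847) (.P (.ofNat 3) (.ofNat 4))) (.P (.ofNat 2) (.ofNat 3))) (.L 3))) (.L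
  83))) (.L 3))) (.C 2 3 1 3 (.C 1 2 1 4 (.C 1 2 2 1 (.B 2 1 2 (.B 1 1 2 (.L
  3) (.B 2 2 1 (.B 2 4 1 (.B 2 8 1 (.L 294) (.L 3)) (.L 3)) (.L 3))) (.B 0 4
  1 (.B 2 1 4 (.L 229) (.B 0 8 1 (.B 2 1 8 (.L 3) (.B 0 16 1 (.C 1 3 1 2 (.L
  665) (.C 0 2 12060 1 (.C 0 3 1512 1 (.C 0 1 6036 1 (.C 0 3 3024 1 (.C 2 3
  1 4 (.L 665) (.B 2 1 16 (.L 3) (.B 0 32 1 (.L 46) (.L 3)))) (.G 2 178 1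
  87971 175941 351883 43985 [.n, .n, .g 64 1 0 0, .n, .n, .n])) (.G 2 178 1
  175941 87971 351883 43985 [.n, .n, .g 64 1 0 0, .n, .n, .n])) (.G 2 178 1
  44158 88316 351883 22079 [.n, .n, .g 64 1 0 0, .n, .n, .n])) (.G 3 178 1
  351883 88316 176631 22079 [.n, .n, .n, .g 64 1 0 0, .n, .n]))) (.L 3)))
  (.L 83))) (.L 3))) (.B 2 1 2 (.B 2 2 1 (.B 2 4 1 (.C 0 2 6036 1 (.B 2 8 1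
  (.B 1 1 2 (.L 3) (.L 157)) (.L 3)) (.L 872)) (.L 3)) (.L 3)) (.B 0 4 1 (.B
  2 1 4 (.L 229) (.B 0 8 1 (.B 2 1 8 (.L 3) (.B 0 16 1 (.C 0 2 6036 1 (.C 0
  3 1512 1 (.C 1 3 1 4 (.L 80) (.C 0 2 12072 1 (.C 0 1 24156 1 (.C 2 3 1 8
  (.B 2 1 16 (.C 2 3 2 1 (.L 80) (.L 3)) (.L 665)) (.B 2 1 16 (.L 3) (.B 0
  32 1 (.L 46) (.L 3)))) (.G 2 178 1 174975 87488 87488 10936 [.n, .n, .g 32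
  1 0 0, .n, .n, .n])) (.G 2 178 1 160924 160924 80462 20115 [.n, .n, .g 32
  1 0 0, .n, .n, .n]))) (.G 2 178 1 56671 226683 226683 28335 [.n, .n, .g 64
  1 0 0, .n, .n, .n])) (.G 178 3 3 226683 226683 113341 28335 [.n, .g 1 37 0
  0, .n])) (.L 3))) (.L 83))) (.L 3)))) (.B 2 1 2 (.B 2 2 1 (.B 2 4 1 (.C 1
  2 1 8 (.L 394) (.L 3788)) (.L 3)) (.L 3)) (.B 0 4 1 (.B 2 1 4 (.L 229) (.B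
  0 8 1 (.B 2 1 8 (.L 3) (.B 0 16 1 (.C 0 2 756 1 (.C 0 1 6036 1 (.C 0 2
  1512 1 (.C 1 2 1 4 (.C 0 3 1512 1 (.C 2 3 1 8 (.C 2 3 2 1 (.L 80) (.B 2 1
  16 (.C 1 3 4 1 (.L 80) (.L 3)) (.L 665))) (.C 1 3 1 4 (.B 2 1 16 (.B 2 2 1
  (.L 3) (.L 665)) (.L 665)) (.C 0 1 24168 1 (.C 0 1 48336 1 (.C 1 2 1 2 (.B
  2 1 16 (.L 3) (.B 0 32 1 (.L 46) (.L 3))) (.L 3)) (.G 2 178 1 29195 14626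
  14626 914 [.n, .n, .g 32 1 0 0, .n, .n, .n])) (.G 2 178 1 55472 27736
  55472 3467 [.n, .n, .g 32 1 0 0, .n, .n, .n])))) (.G 2 178 1 31571 126283
  252567 15785 [.n, .n, .g 64 1 0 0, .n, .n, .n])) (.B 2 1 16 (.B 2 2 1 (.L
  3) (.B 0 1 1 (.B 2 1 2 (.L 3) (.L 606)) (.L 3))) (.B 0 32 1 (.L 46) (.B 1
  1 1 (.B 0 1 2 (.L 606) (.L 3)) (.L 606))))) (.G 2 178 1 44282 177129 22141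
  22141 [.n, .n, .g 64 1 0 0, .n, .n, .n])) (.G 3 178 1 177129 88565 22141
  22141 [.n, .n, .n, .g 64 1 0 0, .n, .n])) (.G 178 3 3 78796 315186 39398
  78796 [.n, .g 1 30 0 0, .n])) (.L 3))) (.L 83))) (.L 3)))) (.C 1 3 1 12
  (.B 2 1 2 (.B 2 2 1 (.C 1 3 2 1 (.C 1 3 4 1 (.B 1 1 2 (.L 3) (.B 2 4 1 (.B
  2 8 1 (.L 294) (.L 3)) (.L 3))) (.L 3)) (.L 3)) (.L 3)) (.B 0 4 1 (.B 2 1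
  4 (.L 229) (.B 0 8 1 (.B 2 1 8 (.L 3) (.B 0 16 1 (.C 2 3 4 1 (.C 2 3 8 1
  (.C 1 2 1 2 (.C 1 3 8 1 (.L 665) (.B 2 1 16 (.L 3) (.B 0 32 1 (.L 46) (.L
  3)))) (.C 1 2 1 4 (.B 2 1 16 (.L 3) (.B 0 32 1 (.L 46) (.L 3))) (.L 3)))
  (.C 2 3 1 2 (.B 2 1 16 (.C 1 2 8 1 (.C 1 3 16 1 (.L 665) (.L 3)) (.L 3))
  (.B 0 32 1 (.L 46) (.C 1 2 8 1 (.C 1 3 16 1 (.L 178) (.L 3)) (.L 3)))) (.B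
  2 1 16 (.C 1 3 4 1 (.C 1 2 16 1 (.L 665) (.L 3)) (.L 3)) (.B 0 32 1 (.L
  46) (.C 1 3 4 1 (.C 1 2 16 1 (.L 178) (.L 3)) (.L 3)))))) (.C 1 3 2 1 (.C
  1 2 4 1 (.L 665) (.B 2 1 16 (.L 3) (.B 0 32 1 (.L 46) (.L 3)))) (.B 2 1 16
  (.L 3) (.B 0 32 1 (.L 46) (.L 3))))) (.L 3))) (.L 83))) (.L 3))) (.L
  3))))) (.C 1 3 1 8 (.C 1 2 3 1 (.L 3) (.C 2 3 2 3 (.C 2 3 4 1 (.C 1 2 1 2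
  (.C 1 2 2 1 (.L 3) (.B 2 1 2 (.L 3) (.B 0 4 1 (.B 2 1 4 (.L 229) (.B 0 8 1
  (.C 1 2 1 2 (.L 3) (.C 2 3 2 1 (.B 2 1 8 (.L 3) (.B 0 16 1 (.B 2 1 16 (.L
  3) (.B 0 32 1 (.L 46) (.L 3))) (.L 3))) (.L 3))) (.L 1738))) (.L 3)))) (.B
  2 1 2 (.B 2 2 1 (.B 2 4 1 (.B 2 8 1 (.L 1) (.L 3)) (.L 3)) (.L 3)) (.B 0 4
  1 (.B 2 1 4 (.L 229) (.B 0 8 1 (.B 2 1 8 (.L 3) (.B 0 16 1 (.C 0 2 756 1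
  (.C 0 1 3024 1 (.C 0 3 6060 1 (.C 2 3 8 1 (.B 2 1 16 (.B 2 2 1 (.L 3) (.L
  178)) (.L 178)) (.B 0 32 1 (.B 2 1 16 (.L 3) (.B 2 1 32 (.L 3) (.L 725)))
  (.L 3))) (.G 2 178 1 166644 83322 20830 83322 [.n, .n, .g 32 1 0 0, .n,
  .n, .n])) (.G 2 178 1 101654 50827 25413 101654 [.n, .n, .g 32 1 0 0, .n,
  .n, .n])) (.G 2 178 1 67726 135452 33863 270903 [.n, .n, .g 64 3 0 0, .n,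
  .n, .n])) (.L 3))) (.L 83))) (.L 3)))) (.L 3)) (.L 3))) (.C 2 3 1 24 (.C 1
  2 3 2 (.L 3) (.C 2 3 2 1 (.C 1 2 1 4 (.L 3) (.C 2 3 4 1 (.B 2 1 2 (.B 2 2
  1 (.B 2 4 1 (.L 1) (.L 3)) (.L 3)) (.B 0 4 1 (.B 2 1 4 (.L 229) (.B 0 8 1
  (.B 2 1 8 (.L 3) (.B 0 16 1 (.C 0 2 756 1 (.C 1 2 1 4 (.L 3) (.C 0 3 6060
  1 (.C 0 1 12108 1 (.B 2 1 16 (.C 1 2 1 16 (.L 3) (.C 2 3 8 1 (.L 80) (.L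
  3))) (.B 0 32 1 (.L 46) (.C 1 2 1 16 (.L 3) (.C 2 3 8 1 (.L 80) (.L 3)))))
  (.G 2 178 1 74581 37291 4661 37291 [.n, .n, .g 64 3 0 0, .n, .n, .n])) (.G
  2 178 1 81157 81157 10145 40579 [.n, .n, .g 32 1 0 0, .n, .n, .n]))) (.G 2
  178 1 67726 270903 33863 270903 [.n, .n, .g 64 3 0 0, .n, .n, .n])) (.L
  3))) (.L 83))) (.L 3))) (.L 3))) (.L 3))) (.C 1 3 1 16 (.C 2 3 2 3 (.L 3)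
  (.B 2 1 2 (.B 2 2 1 (.B 2 4 1 (.L 1) (.B 0 1 2 (.B 2 1 2 (.L 1) (.C 1 3 2
  1 (.C 0 1 508 1 (.C 1 2 6 1 (.C 1 2 12 1 (.C 1 3 2 1 (.B 0 2 1 (.C 2 3 1 6
  (.L 1450) (.P (.ofNat 5) (.ofNat 6))) (.C 1 2 24 1 (.P (.ofNat 4) (.ofNat
  5)) (.L 1224))) (.L 21)) (.L 124)) (.L 1)) (.G 1014 4 5 349665 174833
  2097993 699331 [.n, .n, .g 1 22618 0 0, .g 1 23329 0 0, .n, .n, .n, .n]))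
  (.L 1))) (.L 1))) (.C 1 2 12 1 (.B 0 1 1 (.C 2 3 1 12 (.B 2 1 2 (.C 1 3 48
  1 (.L 10) (.B 2 2 1 (.C 1 3 1 2 (.L 10) (.L 21)) (.L 10))) (.L 462)) (.C 1
  3 2 1 (.B 2 1 2 (.B 2 2 1 (.B 2 4 1 (.C 1 2 48 1 (.P (.ofNat 4) (.ofNat
  5)) (.L 21)) (.L 10)) (.L 10)) (.L 462)) (.B 2 1 2 (.C 1 2 12 1 (.P
  (.ofNat 6) (.ofNat 7)) (.L 15)) (.B 0 2 1 (.L 29) (.C 1 2 12 1 (.P (.ofNat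
  6) (.ofNat 7)) (.L 15)))))) (.B 0 1 2 (.C 1 3 2 1 (.C 1 3 4 1 (.C 2 3 1 3
  (.L 10) (.P (.ofNat 6) (.ofNat 7))) (.C 1 2 3 1 (.P (.ofNat 6) (.ofNat 7))
  (.L 21))) (.B 0 2 1 (.L 124) (.B 1 1 2 (.L 1) (.L 124)))) (.B 1 2 1 (.L 1)
  (.C 1 2 24 1 (.P (.ofNat 6) (.ofNat 7)) (.B 1 1 2 (.L 1) (.B 2 2 1 (.C 1 3
  1 24 (.C 1 2 1 2 (.C 1 2 2 1 (.C 1 3 2 1 (.L 10) (.L 21)) (.L 21)) (.L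
  21)) (.L 124)) (.L 1))))))) (.B 0 1 1 (.C 1 3 1 12 (.C 2 3 4 1 (.L 22) (.C
  2 3 1 2 (.L 489) (.C 1 3 2 1 (.L 489) (.B 2 1 2 (.L 21) (.L 462))))) (.C 1
  3 1 24 (.B 2 1 2 (.L 21) (.B 0 2 1 (.L 88) (.L 15))) (.L 15))) (.C 1 3 1
  12 (.B 0 1 2 (.C 2 3 4 1 (.C 1 2 1 2 (.L 972) (.B 0 2 1 (.L 10) (.L 1)))
  (.L 972)) (.C 1 3 2 1 (.C 1 3 4 1 (.L 3) (.L 1)) (.L 1))) (.L 1))))) (.B 0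
  4 1 (.B 2 1 4 (.L 112) (.B 0 8 1 (.B 2 1 8 (.L 115) (.C 1 3 2 1 (.B 0 16 1
  (.L 1941) (.L 115)) (.L 575))) (.L 125))) (.B 1 1 1 (.C 1 2 12 1 (.B 0 1 2
  (.C 1 3 2 1 (.L 22) (.C 2 3 1 12 (.L 462) (.B 2 1 1 (.C 1 2 12 1 (.P
  (.ofNat 6) (.ofNat 7)) (.L 543)) (.B 0 2 1 (.L 29) (.C 1 2 12 1 (.P
  (.ofNat 6) (.ofNat 7)) (.L 459)))))) (.C 1 3 2 1 (.B 1 2 1 (.B 0 1 4 (.C 1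
  3 4 1 (.C 2 3 1 3 (.L 10) (.P (.ofNat 6) (.ofNat 7))) (.B 2 1 1 (.C 1 2 3
  1 (.P (.ofNat 6) (.ofNat 7)) (.L 1224)) (.C 1 2 3 1 (.P (.ofNat 6) (.ofNat
  7)) (.C 1 3 1 12 (.B 0 2 1 (.L 10) (.L 1224)) (.L 21))))) (.L 1)) (.C 1 3
  4 1 (.C 2 3 1 3 (.L 10) (.P (.ofNat 6) (.ofNat 7))) (.B 0 1 1 (.C 1 3 1 2
  (.L 10) (.B 0 2 1 (.L 10) (.L 21))) (.C 1 2 3 1 (.P (.ofNat 6) (.ofNat 7))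
  (.L 21))))) (.B 1 2 1 (.B 0 1 4 (.C 1 3 1 2 (.L 124) (.C 2 3 1 12 (.L 124)
  (.B 2 1 1 (.L 1) (.B 0 2 1 (.L 124) (.L 1))))) (.L 1)) (.C 1 3 1 2 (.L
  124) (.C 2 3 1 12 (.L 124) (.B 0 1 1 (.L 124) (.L 1))))))) (.B 0 1 2 (.C 1
  3 1 12 (.L 462) (.B 2 1 1 (.L 15) (.C 1 3 1 24 (.B 0 2 1 (.L 88) (.L 15))
  (.L 253)))) (.B 0 1 4 (.C 2 3 1 6 (.L 278) (.C 2 3 1 12 (.L 278) (.C 1 3 1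
  12 (.L 278) (.C 1 3 1 24 (.L 278) (.L 1))))) (.C 1 3 1 12 (.B 1 2 1 (.L 1)
  (.B 1 1 2 (.L 1) (.L 278))) (.L 1))))) (.C 1 3 2 1 (.L 22) (.B 0 1 1 (.L
  594) (.B 1 1 2 (.C 1 2 3 1 (.C 1 2 6 1 (.C 1 3 1 2 (.B 0 1 2 (.L 244) (.B
  1 2 1 (.L 21) (.C 1 3 2 1 (.L 10) (.L 21)))) (.L 459)) (.L 459)) (.L 15))
  (.L 1960)))))))) (.B 2 1 2 (.B 2 2 1 (.L 1) (.B 0 1 1 (.C 2 3 1 48 (.C 1 3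
  3 1 (.L 15) (.C 2 3 2 1 (.L 15) (.C 1 3 1 2 (.L 253) (.B 2 1 2 (.B 2 2 1
  (.B 2 4 1 (.L 1) (.L 101)) (.L 101)) (.L 101))))) (.B 2 1 2 (.B 2 2 1 (.L
  1) (.C 1 3 1 32 (.B 0 1 2 (.L 15) (.C 1 3 2 1 (.L 101) (.L 1))) (.C 2 3 1
  96 (.B 0 1 2 (.C 2 3 2 1 (.L 467) (.L 1)) (.L 1)) (.L 1)))) (.B 0 2 1 (.L
  88) (.C 1 3 1 32 (.C 2 3 2 3 (.L 64) (.B 0 1 2 (.L 15) (.B 1 2 1 (.C 1 3 2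
  1 (.L 64) (.L 1)) (.L 15)))) (.C 2 3 1 96 (.C 1 2 3 2 (.C 0 3 6132 1 (.C 2
  3 1 1 (.B 0 1 2 (.L 353) (.B 1 2 1 (.L 1) (.L 467))) (.L 1)) (.L 1)) (.B 0
  1 2 (.C 2 3 2 1 (.L 165) (.L 361)) (.B 1 2 1 (.L 1) (.C 2 3 2 1 (.L 467)
  (.L 361))))) (.L 1)))))) (.C 1 2 3 2 (.L 1) (.C 2 3 1 48 (.C 2 3 2 1 (.L
  3) (.L 1)) (.L 1))))) (.B 0 4 1 (.C 2 3 1 48 (.B 0 8 1 (.B 2 1 4 (.C 2 3 2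
  1 (.C 1 2 3 2 (.L 594) (.L 3)) (.L 594)) (.C 1 2 3 2 (.L 161) (.C 2 3 2 1
  (.L 3) (.L 161)))) (.B 2 4 1 (.L 88) (.C 2 3 2 1 (.B 0 1 2 (.C 1 2 3 2 (.L
  29) (.L 3)) (.L 88)) (.L 594)))) (.C 1 3 1 32 (.L 530) (.L 1276))) (.B 1 1
  1 (.B 0 1 2 (.C 1 3 1 32 (.C 1 2 3 2 (.C 1 3 2 1 (.L 15) (.C 2 3 1 3 (.L
  15) (.B 2 1 1 (.B 2 2 1 (.L 1) (.L 64)) (.L 64)))) (.C 2 3 4 3 (.C 2 3 8 1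
  (.L 3) (.L 15)) (.C 2 3 1 6 (.L 864) (.C 1 3 1 3 (.L 864) (.C 1 3 1 6 (.L
  101) (.C 2 3 1 12 (.L 64) (.B 2 1 1 (.B 2 2 1 (.L 1) (.L 64)) (.L
  64)))))))) (.C 2 3 1 48 (.C 1 2 3 4 (.C 1 3 3 2 (.C 1 2 6 1 (.C 1 2 12 1
  (.B 2 1 1 (.B 2 2 1 (.L 1) (.L 64)) (.L 64)) (.L 64)) (.L 64)) (.L 64))
  (.B 2 1 1 (.L 101) (.B 0 2 1 (.L 704) (.L 101)))) (.B 0 2 1 (.B 2 1 1 (.C
  2 3 1 96 (.B 1 1 4 (.C 1 2 3 2 (.L 20) (.L 223)) (.B 2 2 1 (.L 1) (.C 1 2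
  3 2 (.L 20) (.L 223)))) (.L 1)) (.L 88)) (.C 2 3 1 96 (.B 2 4 1 (.L 1) (.B
  0 1 2 (.C 1 2 3 2 (.L 20) (.L 223)) (.L 1))) (.L 1))))) (.C 1 2 3 2 (.L 1)
  (.C 2 3 1 48 (.C 2 3 2 1 (.L 3) (.L 1)) (.L 1)))) (.B 0 1 1 (.L 704) (.B 1
  1 2 (.C 2 3 1 48 (.L 101) (.C 1 3 1 32 (.C 2 3 2 3 (.L 64) (.B 0 1 2 (.L
  20) (.B 1 2 1 (.C 1 3 2 1 (.L 64) (.L 1)) (.L 15)))) (.C 2 3 1 96 (.C 1 2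
  3 2 (.B 0 1 2 (.L 20) (.B 1 2 1 (.L 1) (.B 1 1 2 (.L 1) (.L 20)))) (.B 0 1
  2 (.L 223) (.B 1 2 1 (.L 1) (.C 2 3 2 1 (.L 165) (.L 361))))) (.L 1))))
  (.C 2 3 1 48 (.L 864) (.L 88))))))))))) (by decide +kernel)

theorem EN1_c13 : CoN ENTab ⟨⟨1, 1, 4⟩, ⟨3, 5, 16⟩, ⟨2, 3, 8⟩, ⟨1, 0, 0, 0,
  0⟩, ⟨292, 49, 31, 2, 38⟩, ⟨172, 19, 19, 2, 17⟩, ⟨20, 1, 1, 0, 1⟩⟩ :=
CoN.ofG ENTab_B ENBt_E ENBt_U (.C 2 3 1 12 (.C 1 2 1 2 (.C 1 3 1 1 (.C 1 3 2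
  1 (.B 2 1 2 (.B 2 2 1 (.B 2 4 1 (.L 1) (.L 2)) (.L 2)) (.B 0 4 1 (.B 2 1 4
  (.L 229) (.B 0 8 1 (.B 2 1 8 (.L 2) (.B 0 16 1 (.C 0 2 1524 1 (.C 0 3 3036
  1 (.C 1 3 8 1 (.C 1 2 4 1 (.L 80) (.B 0 32 1 (.B 2 1 16 (.L 2) (.C 2 3 4 1
  (.C 1 2 1 2 (.L 80) (.L 472)) (.L 80))) (.L 2))) (.C 1 2 1 4 (.C 1 3 1 2
  (.B 0 32 1 (.B 2 1 16 (.L 2) (.L 80)) (.L 2)) (.L 2)) (.L 2))) (.G 2 178 1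
  83873 10403 42262 41612 [.n, .n, .g 32 1 0 0, .n, .n, .n])) (.G 2 178 1
  55469 13654 27308 54616 [.n, .n, .g 32 1 0 0, .n, .n, .n])) (.L 2))) (.L
  83))) (.L 2))) (.L 2)) (.L 2)) (.B 2 1 2 (.B 0 1 1 (.C 1 2 1 4 (.L 2) (.C
  2 3 2 1 (.B 2 2 1 (.C 0 2 384 1 (.C 1 2 1 4 (.L 2) (.C 0 3 1536 1 (.L 1)
  (.G 1 2 0 22130 44260 5532 11065 [.n, .n, .n, .n, .g 32 9 0 0, .n]))) (.G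
  226 130 1 2097152 8388607 1048576 4194304 [.n, .n, .g 3 71 0 0, .g 2 65 0
  0, .n, .n, .g 17 63 0 0, .g 5 21 0 0])) (.C 0 2 384 1 (.C 1 2 1 4 (.L 2)
  (.L 1)) (.G 47 2 0 23000 92001 11500 46001 [.g 25 64 0 0, .n, .n, .n, .n,
  .n]))) (.L 2))) (.C 1 2 1 4 (.C 0 2 3060 1 (.L 2) (.G 54 2 0 132125 33031
  66063 16516 [.n, .n, .n, .g 23 65 0 0])) (.C 0 2 384 1 (.C 1 2 1 4 (.C 0 1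
  3060 1 (.B 0 1 2 (.L 1) (.L 14)) (.L 14)) (.B 0 1 2 (.L 1) (.C 1 2 1 8 (.L
  14) (.C 2 3 1 1 (.L 56) (.L 54))))) (.C 1 2 1 8 (.C 0 1 4 1 (.G 9 1 4
  19730 157839 157839 19730 [.n, .n, .g 3 71 0 0, .n]) (.L 14)) (.G 226 130
  1 1048576 8388607 524288 1048576 [.n, .n, .g 1 38 0 0, .g 2 85 0 0, .n,
  .n, .g 8 61 0 0, .g 4 33 0 0]))))) (.B 0 4 1 (.C 2 3 2 1 (.C 1 2 1 4 (.L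
  2) (.B 2 1 4 (.C 1 3 1 2 (.L 83) (.C 2 3 4 1 (.L 624) (.C 1 3 1 4 (.L
  1596) (.C 2 3 1 2 (.L 3734) (.C 0 2 6144 1 (.L 2) (.G 1 2 0 69887 69887
  34943 8736 [.n, .n, .n, .n, .n, .g 64 1 0 0])))))) (.B 0 8 1 (.C 0 1 3060
  1 (.C 1 3 1 4 (.C 1 2 1 16 (.L 161) (.C 0 2 384 1 (.L 161) (.G 192 1553 0
  226857 3622627 113429 3622627 [.n, .n, .g 23 65 0 0, .n, .n, .n]))) (.C 0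
  2 384 1 (.L 202) (.G 192 333 3 56166 896903 28083 112332 [.n, .n, .g 64 51
  0 0, .n, .n, .n]))) (.C 0 2 1 16 (.G 47 2 0 4194304 2097152 8388607
  1048576 [.g 22 63 0 0, .n, .g 1 109 0 0, .n, .n, .n]) (.G 47 134 1 309636
  77561 9695 38780 [.g 23 64 0 0, .n, .n, .n, .n, .n]))) (.C 1 3 1 2 (.L
  788) (.C 2 3 4 1 (.L 800) (.C 1 3 1 4 (.L 1444) (.B 0 1 2 (.C 2 3 1 2 (.L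
  3246) (.C 0 2 6144 1 (.L 2) (.G 358 2 0 137247 137247 68624 17156 [.g 11
  63 0 0, .n, .n, .n]))) (.C 2 3 1 2 (.L 3246) (.C 0 2 6144 1 (.L 2) (.G 1 2
  0 45951 45951 22975 5744 [.n, .n, .n, .n, .n, .g 64 1 0 0])))))))))) (.L
  2)) (.C 0 2 384 1 (.C 1 2 1 2 (.L 2) (.C 2 3 1 1 (.C 1 2 1 4 (.L 2) (.B 1
  1 1 (.B 0 1 2 (.C 2 3 2 1 (.C 2 3 4 1 (.C 1 2 1 8 (.L 1) (.L 433)) (.L 1))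
  (.L 1)) (.B 1 2 1 (.C 1 2 1 8 (.B 0 1 4 (.L 1) (.L 54)) (.L 26)) (.C 0 2
  768 1 (.L 1) (.G 1 49 0 12362 49449 6181 12362 [.g 64 29 0 0, .n, .n, .n,
  .n, .n])))) (.C 2 3 2 1 (.C 2 3 4 1 (.C 1 2 1 8 (.L 1) (.C 0 2 768 1 (.C 1
  2 1 8 (.L 1) (.L 432)) (.L 433))) (.L 1)) (.L 1)))) (.L 2))) (.B 1 1 1 (.C
  1 2 1 4 (.C 0 1 2 1 (.B 0 1 2 (.C 0 1 4 1 (.G 47 1 0 1048576 8388607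
  4194304 1048576 [.g 29 65 0 0, .n, .n, .n, .g 2 277 0 0, .g 1 143 0 0])
  (.L 1)) (.C 0 1 4 1 (.C 0 2 4 1 (.C 0 1 8 1 (.G 122 130 1 524288 8388607
  4194304 524288 [.n, .n, .g 1 28 0 0, .g 1 30 0 0, .n, .n, .g 1 45 0 0, .g
  1 51 0 0]) (.L 14)) (.L 14)) (.L 14))) (.G 733 1 4 255752 127876 255752
  63938 [.g 11 62 0 0, .n, .n, .g 4 63 0 0])) (.C 2 3 2 1 (.C 2 3 4 1 (.C 0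
  1 4 1 (.L 47) (.B 0 1 2 (.L 47) (.G 47 878 1 8388607 4194304 524288
  4194304 [.n, .n, .n, .n, .g 1 45 0 0, .g 1 41 0 0]))) (.B 0 1 2 (.G 63 1 0
  37045 148179 148179 74089 [.g 45 64 0 0, .n, .n, .n, .n, .n]) (.G 226 130
  1 2097152 8388607 8388607 4194304 [.n, .n, .g 1 28 0 0, .g 2 65 0 0, .n,
  .n, .g 17 64 0 0, .g 15 64 0 0]))) (.C 0 1 4 1 (.B 0 1 2 (.C 0 3 1 1 (.G 1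
  49 0 14573 116582 29146 29146 [.g 32 9 0 0, .n, .n, .n, .n, .n]) (.L 1))
  (.G 184 3376 1 100879 807030 201758 100879 [.n, .n, .g 3 67 0 0, .g 3 76 0
  0, .n, .n, .g 5 62 0 0, .g 4 63 0 0])) (.G 1 1774 1 192018 96009 48005
  24002 [.n, .n, .n, .n, .g 16 1 0 0, .n])))) (.C 1 3 1 2 (.C 1 3 2 1 (.B 0
  1 1 (.L 19) (.B 1 1 2 (.B 0 1 2 (.L 242) (.C 1 2 1 4 (.L 1) (.B 1 2 1 (.B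
  0 1 4 (.L 1930) (.C 2 3 16 1 (.L 49) (.L 1))) (.L 242)))) (.L 335))) (.B 0
  1 1 (.L 1813) (.B 1 1 2 (.C 2 3 8 1 (.C 1 2 1 16 (.G 1 1892 0 37626 298653
  599658 301005 [.g 32 3 0 0, .n, .n, .n, .n, .n]) (.G 1 49 0 20469 326871
  10235 163755 [.g 32 17 0 0, .n, .n, .n, .g 16 1 0 0, .n])) (.G 1403 1 0
  58346 463118 466764 233382 [.n, .g 4 59 0 0, .g 7 65 0 0, .n, .n])) (.G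
  1173 1 0 54444 433848 27222 217775 [.n, .g 25 63 0 0, .n, .n])))) (.G 49 2
  0 145276 581102 72638 145276 [.g 2 5 0 0, .n, .n, .n, .g 10 21 0 0, .g 2 9
  0 0]))))))) (.C 1 3 1 24 (.C 1 2 1 1 (.C 1 3 2 1 (.C 1 2 2 1 (.C 1 3 4 1
  (.B 2 1 2 (.B 2 2 1 (.B 2 4 1 (.L 1) (.L 3)) (.L 3)) (.B 0 4 1 (.B 2 1 4
  (.L 229) (.B 0 8 1 (.B 2 1 8 (.L 2) (.B 0 16 1 (.C 0 2 3036 1 (.C 1 2 8 1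
  (.C 1 3 8 1 (.L 80) (.B 2 1 16 (.L 3) (.B 0 32 1 (.L 46) (.L 3)))) (.C 1 2
  1 2 (.C 1 3 1 2 (.B 0 32 1 (.B 2 1 16 (.L 3) (.L 80)) (.L 3)) (.L 3)) (.L
  3))) (.G 2 178 1 83873 10403 41612 83223 [.n, .n, .g 32 1 0 0, .n, .n,
  .n])) (.L 2))) (.L 83))) (.L 3))) (.L 2)) (.L 2)) (.L 2)) (.L 2)) (.B 0 4
  1 (.B 2 1 2 (.B 2 2 1 (.B 1 1 4 (.B 0 1 1 (.C 1 2 1 2 (.C 1 3 1 48 (.C 2 3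
  1 1 (.L 3) (.C 0 2 6120 1 (.C 0 1 1524 1 (.C 0 2 12240 1 (.B 0 2 1 (.C 1 3
  1 1 (.L 3) (.L 1)) (.C 1 2 8 1 (.L 64) (.B 1 1 1 (.L 308) (.C 1 3 1 16 (.L
  36) (.L 1))))) (.G 417 4 5 8388607 1040447 4161790 1040447 [.n, .n, .n,
  .n, .n, .n, .g 1 22679 0 0, .g 1 23053 0 0])) (.G 417 1 5 2080895 1040447
  8388607 2080895 [.n, .n, .n, .n, .n, .n, .g 1 21945 0 0, .g 1 22397 0 0]))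
  (.G 417 1 5 8388607 1040447 4161790 2080895 [.n, .n, .n, .n, .n, .n, .g 1
  21945 0 0, .g 1 22397 0 0]))) (.C 1 3 1 96 (.B 0 2 1 (.L 1) (.B 1 1 1 (.C
  2 3 2 1 (.L 556) (.B 0 1 2 (.L 1) (.B 1 2 1 (.L 463) (.L 1)))) (.L 1)))
  (.L 1))) (.L 1)) (.C 1 3 1 48 (.C 1 3 2 1 (.L 2) (.B 1 2 1 (.L 462) (.B 1
  1 2 (.L 556) (.C 2 3 4 1 (.C 1 2 1 8 (.C 1 3 1 1 (.L 22) (.L 1)) (.L 1))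
  (.B 2 1 1 (.C 0 2 6132 1 (.C 0 2 12264 1 (.C 1 3 1 2 (.C 1 2 4 1 (.L 10)
  (.L 1)) (.L 1)) (.L 1)) (.L 1)) (.L 556)))))) (.B 1 2 1 (.C 1 2 1 4 (.L
  92) (.B 0 1 2 (.L 1) (.B 1 4 1 (.C 2 3 1 24 (.L 215) (.C 2 3 1 48 (.L 29)
  (.L 600))) (.L 1)))) (.C 1 3 1 96 (.C 1 2 1 4 (.C 1 2 2 1 (.B 1 1 2 (.B 1
  2 1 (.L 463) (.B 2 1 4 (.C 1 3 2 1 (.C 2 3 1 1 (.C 0 2 12252 1 (.B 1 1 2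
  (.C 1 3 8 1 (.L 10) (.L 1)) (.L 1)) (.L 1)) (.L 165)) (.L 1)) (.L 463)))
  (.B 2 1 1 (.L 1) (.B 2 1 2 (.L 1) (.B 0 4 1 (.L 463) (.L 1))))) (.L 1))
  (.L 1)) (.L 1))))) (.L 1)) (.C 1 3 1 48 (.C 1 3 2 1 (.L 2) (.B 1 1 1 (.L
  462) (.B 2 1 2 (.C 2 3 4 1 (.C 1 2 1 8 (.C 1 3 1 1 (.L 22) (.L 1)) (.L 1))
  (.C 2 3 1 2 (.C 1 2 1 1 (.B 1 1 2 (.L 556) (.C 1 3 2 1 (.L 10) (.C 0 2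
  12240 1 (.C 0 3 12252 1 (.B 2 2 1 (.L 1) (.C 0 1 24468 1 (.C 0 2 24480 1
  (.B 2 1 2 (.L 1) (.L 10)) (.L 10)) (.L 10))) (.L 1)) (.L 1)))) (.L 1)) (.B
  1 1 2 (.L 556) (.B 2 2 1 (.C 0 1 6108 1 (.C 0 2 12252 1 (.C 1 2 2 1 (.C 1
  3 1 4 (.L 10) (.L 1)) (.L 1)) (.L 1)) (.L 1)) (.C 0 2 12252 1 (.C 0 1 6108
  1 (.C 0 3 3060 1 (.C 1 2 2 1 (.L 15) (.C 0 1 48936 1 (.C 1 2 1 4 (.L 556)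
  (.B 2 1 2 (.L 1) (.L 10))) (.L 10))) (.L 10)) (.L 10)) (.L 402)))))) (.L
  244)))) (.B 2 1 2 (.B 1 1 1 (.C 1 2 1 4 (.L 20) (.B 0 1 2 (.L 1) (.B 1 2 1
  (.C 2 3 1 24 (.L 201) (.C 2 3 1 48 (.L 29) (.L 600))) (.L 1)))) (.C 1 3 1
  96 (.C 0 2 768 1 (.C 0 2 1536 1 (.C 1 2 1 1 (.B 1 1 2 (.B 1 2 1 (.L 20)
  (.C 1 3 2 1 (.B 2 1 2 (.L 1) (.L 165)) (.L 1))) (.B 2 2 1 (.L 1) (.C 1 3 2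
  1 (.B 2 1 2 (.L 1) (.B 0 2 1 (.C 1 2 2 1 (.L 1709) (.L 20)) (.L 1))) (.L
  1)))) (.L 1)) (.L 1)) (.L 1)) (.L 1))) (.C 1 2 1 4 (.L 20) (.B 2 1 4 (.B 1
  2 1 (.B 0 1 4 (.B 0 2 1 (.L 1) (.C 2 3 1 24 (.L 201) (.C 2 3 1 48 (.L 29)
  (.L 600)))) (.C 2 3 1 24 (.L 201) (.C 2 3 1 48 (.L 29) (.L 600)))) (.L 1))
  (.C 2 3 1 24 (.C 1 2 1 8 (.L 263) (.L 1)) (.C 2 3 1 48 (.L 223) (.L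
  600)))))))) (.C 1 2 1 2 (.C 1 3 1 48 (.C 1 3 2 1 (.L 2) (.B 2 1 4 (.L 183)
  (.B 0 8 1 (.L 161) (.L 92)))) (.L 386)) (.C 2 3 1 24 (.C 1 2 1 4 (.L 1376)
  (.B 2 1 4 (.C 1 3 1 4 (.B 2 2 1 (.L 486) (.L 112)) (.L 125)) (.B 0 8 1 (.L
  258) (.L 112)))) (.L 1376)))) (.B 2 4 1 (.C 2 3 1 24 (.C 0 2 768 1 (.L 1)
  (.G 762 1 4 68048 68048 34024 68048 [.g 11 65 0 0, .g 4 59 0 0, .n, .n]))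
  (.L 1)) (.B 2 1 2 (.C 1 3 1 48 (.C 1 3 2 1 (.L 2) (.C 1 3 1 2 (.L 2) (.B 0
  1 8 (.B 0 2 1 (.B 2 2 1 (.L 1) (.C 0 2 768 1 (.C 0 2 1536 1 (.C 2 3 1 1
  (.C 1 2 1 4 (.L 1808) (.C 1 2 1 8 (.L 1808) (.L 1))) (.L 1808)) (.L 402))
  (.L 22))) (.L 1)) (.C 2 3 4 1 (.C 1 2 1 16 (.L 1) (.B 1 4 1 (.L 197) (.L
  1))) (.L 1))))) (.C 1 3 1 96 (.B 0 1 8 (.B 0 2 1 (.B 2 2 1 (.L 1) (.B 0 4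
  1 (.C 1 2 1 4 (.C 1 2 2 1 (.C 1 3 2 1 (.B 2 1 2 (.C 2 3 1 1 (.C 0 2 12252
  1 (.B 2 2 1 (.L 1) (.C 1 3 8 1 (.L 10) (.L 1))) (.L 1)) (.L 165)) (.L
  463)) (.C 1 2 1 1 (.L 223) (.L 1))) (.L 1)) (.L 1)) (.L 1))) (.L 1)) (.C 2
  3 8 1 (.C 1 2 1 4 (.L 1) (.B 1 4 1 (.L 197) (.L 1))) (.L 1))) (.C 2 3 1 24
  (.C 1 2 1 8 (.L 1) (.B 0 1 8 (.L 1) (.B 1 4 1 (.L 828) (.L 1)))) (.L 1))))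
  (.B 0 1 2 (.C 1 3 1 48 (.C 1 3 2 1 (.L 2) (.B 0 2 1 (.L 462) (.C 0 2 768 1
  (.C 0 1 6108 1 (.B 0 1 2 (.L 22) (.B 1 2 1 (.C 1 2 1 8 (.C 0 2 24504 1 (.B
  0 1 4 (.L 10) (.C 1 3 1 4 (.L 10) (.L 1))) (.L 556)) (.L 1)) (.L 22))) (.L
  556)) (.L 556)))) (.B 0 2 1 (.C 1 2 1 4 (.L 92) (.B 2 1 4 (.L 1) (.B 0 4 1
  (.C 2 3 1 24 (.L 263) (.C 2 3 1 48 (.L 29) (.L 600))) (.L 1)))) (.C 1 3 1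
  96 (.C 1 2 1 4 (.C 1 2 2 1 (.B 0 1 2 (.C 2 3 1 2 (.C 2 3 2 1 (.C 2 3 4 1
  (.L 244) (.L 1709)) (.L 223)) (.L 223)) (.B 1 2 1 (.L 1) (.C 2 3 1 2 (.C 1
  2 4 1 (.L 1709) (.C 1 2 1 2 (.L 1709) (.L 1))) (.L 223)))) (.L 1)) (.L 1))
  (.L 1)))) (.C 1 3 1 48 (.C 1 3 2 1 (.L 2) (.C 1 3 1 2 (.L 2) (.B 1 8 1 (.C
  2 3 4 1 (.C 1 2 1 16 (.L 1) (.B 0 1 4 (.L 1) (.L 197))) (.L 1)) (.B 1 1 2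
  (.L 1) (.C 0 2 768 1 (.C 0 1 12228 1 (.C 0 1 24456 1 (.C 1 2 1 32 (.C 1 3
  1 16 (.L 10) (.B 2 1 2 (.L 556) (.L 1))) (.C 2 3 2 1 (.L 1) (.B 2 1 2 (.L
  1808) (.L 1)))) (.L 556)) (.L 556)) (.L 556)))))) (.C 1 3 1 96 (.B 1 8 1
  (.C 2 3 8 1 (.C 1 2 1 4 (.L 1) (.B 0 1 4 (.L 1) (.L 197))) (.L 1)) (.B 1 1
  2 (.L 1) (.B 2 1 2 (.B 1 1 4 (.L 1) (.C 2 3 8 1 (.C 1 2 1 4 (.C 1 3 4 1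
  (.C 1 3 8 1 (.L 244) (.L 1)) (.L 1)) (.L 1)) (.L 223))) (.L 1)))) (.C 2 3
  1 24 (.C 1 2 1 8 (.L 1) (.B 1 8 1 (.B 0 1 4 (.L 1) (.L 828)) (.L 1))) (.L
  1)))))))))) (by decide +kernel)

end Pool.Agent.TET.Cvr
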