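import Pool.Agent.Helper37_TET.ENBt

/-!
# MP_c7c9bf_co: cover of the charts, root 1 part 5
-/

set_option autoImplicit false
set_option maxRecDepth 100000

namespace Pool.Agent.TET.Cvr

theorem EN1_c67 : CoN ENTab ⟨⟨7, 7, 16⟩, ⟨13, 15, 32⟩, ⟨1, 1, 2⟩, ⟨1, 0, 0,
  0, 0⟩, ⟨40, 10, 4, 0, 7⟩, ⟨52, 13, 13, 2, 11⟩, ⟨4, 1, 1, 0, 1⟩⟩ :=
CoN.ofG ENTab_B ENBt_E ENBt_U (.C 2 3 1 12 (.C 0 3 384 1 (.C 2 3 4 1 (.L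
  242) (.C 1 3 6 1 (.L 242) (.C 1 2 1 1 (.L 2) (.C 1 3 1 4 (.B 0 2 1 (.L 19)
  (.B 1 1 16 (.B 0 1 2 (.L 38) (.B 1 2 1 (.B 0 1 4 (.L 242) (.C 0 3 6120 1
  (.C 2 3 8 1 (.L 1011) (.C 1 3 4 1 (.L 3892) (.C 0 1 24432 1 (.L 386) (.L
  51)))) (.C 0 2 1 8 (.G 337 2 1 64 16 129 32 [.n, .n, .n, .n, .n, .n, .g 5
  22 0 0, .g 13 62 0 0, .n, .n]) (.L 2572)))) (.L 242))) (.L 19))) (.B 1 1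
  16 (.B 0 2 1 (.C 0 2 1536 1 (.L 183) (.G 250 183 2 374917 749833 187458
  93729 [.n, .n, .n, .g 32 5 0 0, .n])) (.C 0 2 1536 1 (.B 1 2 1 (.C 1 2 1 2
  (.L 2) (.C 0 2 3072 1 (.L 92) (.L 59))) (.L 88)) (.C 1 2 1 4 (.B 1 2 1 (.B
  0 1 2 (.L 92) (.C 0 1 2 1 (.C 0 2 4 1 (.L 51) (.G 1934 3590 2 32 16 16 1
  [.n, .n, .n, .n, .g 4 9 0 0, .g 28 65 0 0, .n, .n, .g 8 21 0 0, .g 23 63 0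
  0])) (.G 243 2 1 16 8 16 1 [.n, .n, .n, .n, .g 32 27 0 0, .g 16 15 0 0])))
  (.L 92)) (.B 1 2 1 (.B 0 1 2 (.L 1816) (.C 2 3 1 2 (.G 1229 1816 3 1012
  4047 506 1012 [.n, .g 15 64 0 0, .n, .n, .n, .n]) (.G 756 250 4 4 16 4 1
  [.n, .n, .n, .n, .n, .n, .g 11 62 0 0, .g 11 65 0 0]))) (.L 1816))))) (.C
  0 2 1536 1 (.L 1425) (.L 160))))))) (.C 0 2 1 4 (.C 0 1 1 6 (.C 0 1 2 1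
  (.C 1 3 1 8 (.C 1 2 1 2 (.G 109 2 1 206895 827581 1655161 1655161 [.g 3 4
  0 0, .g 32 7 0 0, .g 8 5 0 0, .n, .n]) (.B 1 1 16 (.B 0 2 1 (.L 629) (.C 0
  2 2 1 (.G 136 2 1 1 8 4 8 [.n, .n, .g 64 49 0 0, .g 16 13 0 0, .g 16 9 0
  0, .g 32 19 0 0]) (.G 411 79 2 173 346 87 346 [.g 32 7 0 0, .g 27 32 0 0,
  .n, .n, .n, .n]))) (.L 234))) (.B 1 1 16 (.B 0 2 1 (.L 946) (.G 251 629 0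
  424371 3381710 848743 212186 [.n, .g 33 65 0 0, .n, .n, .g 1 323 0 0, .g 1
  377 0 0, .n, .n])) (.L 946))) (.B 1 1 16 (.C 1 3 1 4 (.L 280) (.C 0 3 1 8
  (.G 280 2 1 163 163 81 325 [.n, .n, .n, .n, .g 64 29 0 0, .g 38 65 0 0])
  (.G 53 152 3 255 127 64 16 [.g 64 3 0 0, .n, .g 2 29 0 0, .g 4 59 0 0, .n,
  .n]))) (.C 2 3 1 4 (.L 38) (.C 1 3 1 4 (.L 38) (.C 0 3 1 8 (.G 203 137 0 2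
  2 2 3 [.n, .g 256 1 0 0, .g 64 35 0 0, .g 16 9 0 0, .n, .n]) (.C 1 3 1 8
  (.G 956 920 2 322879 161439 161439 322879 [.n, .n, .g 64 61 0 0, .n]) (.L
  152))))))) (.C 1 3 3 1 (.B 0 2 1 (.L 19) (.B 1 1 16 (.G 3084 1732 0 221 18
  224 111 [.g 6 31 0 0, .g 41 64 0 0, .n, .n, .n, .n]) (.L 19))) (.B 0 2 1
  (.C 0 3 1 4 (.L 38) (.C 2 3 1 4 (.L 38) (.C 1 3 1 2 (.L 2021) (.C 0 3 1 8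
  (.G 1023 956 2 963141 481570 963141 1926282 [.n, .g 15 32 0 0, .n, .g 20
  63 0 0]) (.G 20 152 0 1682437 422259 844518 105565 [.g 32 29 0 0, .n, .n,
  .g 16 9 0 0]))))) (.B 1 1 16 (.C 0 3 1 4 (.G 280 992 0 1 1 1 1 [.n, .g 1 5
  0 0, .n, .n, .n, .n]) (.C 1 3 1 2 (.G 280 992 0 1 1 1 1 [.n, .g 1 5 0 0,
  .n, .n, .n, .n]) (.G 53 206 0 127 64 64 16 [.g 64 3 0 0, .n, .n, .g 1 14 0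
  0, .n, .n]))) (.C 0 3 1 4 (.L 38) (.C 1 3 1 2 (.L 1760) (.G 53 920 2 127
  64 64 16 [.g 32 7 0 0, .g 32 11 0 0, .n, .g 2 59 0 0, .n, .n]))))))) (.C 2
  3 2 1 (.B 0 2 1 (.L 19) (.B 1 1 16 (.B 0 1 2 (.L 19) (.G 3084 185 1 198 16
  25 99 [.g 4 13 0 0, .g 15 32 0 0, .n, .n, .n, .n])) (.L 19))) (.C 1 3 3 1
  (.B 1 1 16 (.G 280 1732 0 198 16 99 98 [.n, .g 32 5 0 0, .g 1 12 0 0, .g 9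
  62 0 0, .n, .n]) (.L 19)) (.B 0 2 1 (.C 0 3 1 4 (.L 38) (.C 2 3 1 2 (.L
  819) (.C 1 3 1 2 (.L 819) (.C 1 2 1 1 (.C 1 3 1 4 (.G 160 1560 0 357968
  178984 357968 357968 [.n, .n, .n, .g 64 63 0 0, .n]) (.C 0 2 1 1 (.B 0 4 1
  (.G 20 250 2 163540 163540 327081 20443 [.n, .n, .n, .g 59 64 28 0]) (.L
  520)) (.B 0 4 1 (.G 208 1284 0 906897 453448 453448 56681 [.g 16 9 0 0,
  .n, .n, .n, .n]) (.G 238 2128 1 8388607 4194304 4194304 524288 [.n, .n,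
  .n, .n, .g 1 702 0 0, .g 1 720 0 0])))) (.B 0 4 1 (.C 0 3 1 8 (.L 595) (.C
  1 3 1 8 (.L 595) (.C 0 2 1 4 (.B 0 8 1 (.B 2 8 1 (.L 68) (.C 0 2 2 1 (.G
  11 1322 1 998412 998412 3993647 62401 [.g 64 27 3 0, .n, .n, .n]) (.C 0 1
  1 4 (.C 0 2 1 2 (.L 235) (.B 0 16 1 (.C 2 3 1 32 (.G 3115 1287 1 6132618
  6132618 1533154 3066309 [.n, .g 16 5 0 0, .g 64 59 0 0, .n]) (.L 235)) (.L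
  235))) (.C 1 3 1 16 (.C 2 3 1 1 (.L 984) (.G 143 68 0 8212821 1026603
  4106411 2053205 [.g 61 64 0 0, .n, .n, .n])) (.B 0 16 1 (.B 2 1 2 (.L 235)
  (.C 2 3 1 32 (.C 1 2 1 1 (.G 849 235 3 5324929 1331232 2662464 2662464 [.g
  55 64 0 0, .n, .n]) (.G 307 984 2 8388607 4194304 2097152 4194304 [.n, .n,
  .g 64 15 0 0, .g 64 43 0 0])) (.G 2128 135 4 6697664 1676053 3352105 52377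
  [.n, .g 256 1 0 0, .n, .n]))) (.L 235)))))) (.L 152)) (.C 0 3 1 32 (.C 2 3
  16 1 (.L 595) (.C 0 3 2 1 (.L 984) (.B 0 8 1 (.B 2 8 1 (.L 3924) (.C 1 3 4
  1 (.L 984) (.C 2 3 1 2 (.L 984) (.B 2 1 2 (.G 1165 3318 2 4194304 4194304
  8388607 2097152 [.n, .n, .g 8 3 0 0, .n]) (.C 0 1 1 1 (.C 2 3 1 4 (.L 984)
  (.B 0 16 1 (.C 0 3 1 2 (.L 984) (.G 1666 2091 2 8746 8746 17492 2187 [.n,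
  .g 64 17 0 0, .g 4 1 0 0])) (.L 909))) (.L 73)))))) (.L 3318)))) (.C 0 2 1
  16 (.G 168 68 0 2021 505 4043 32 [.g 64 63 0 0, .n, .n, .n]) (.L 73))))))
  (.G 3670 1023 3 484331 484331 242165 60541 [.g 64 7 0 0, .g 64 47 0 0, .g
  7 9 0 0, .n])))))) (.C 1 2 1 1 (.C 1 3 1 2 (.B 1 1 16 (.G 992 280 1 1 1 1
  1 [.g 32 1 0 0, .n, .n, .n, .n, .n]) (.L 1760)) (.B 1 1 16 (.G 53 250 3 17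
  17 17 4 [.g 64 1 0 0, .n, .n, .g 27 32 0 0, .n, .n]) (.G 4064 1023 3
  248831 248831 248831 62208 [.n, .g 64 11 0 0, .g 33 64 0 0, .n, .n]))) (.B
  1 1 16 (.G 992 234 1 75 75 37 19 [.g 256 1 0 0, .n, .n, .n, .g 7 13 0 0,
  .g 1 3 3194 0]) (.C 0 3 1 4 (.L 38) (.C 2 3 1 2 (.L 1173) (.G 1899 1023 3
  784095 392047 392047 98012 [.n, .g 32 19 0 0, .g 25 32 0 0, .n]))))))))))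
  (.C 1 3 1 8 (.C 1 2 3 1 (.C 1 3 2 1 (.B 0 2 1 (.L 19) (.B 1 1 16 (.B 0 1 2
  (.L 19) (.B 1 2 1 (.C 1 2 6 1 (.P (.ofNat 3) (.ofNat 4)) (.L 3)) (.L 38)))
  (.L 19))) (.L 3)) (.C 2 3 2 3 (.C 1 2 1 2 (.L 2) (.C 0 2 384 1 (.L 2) (.C
  0 2 1 2 (.G 109 2 1 178988 357976 357976 357976 [.g 29 65 0 0, .n, .n, .n,
  .g 64 47 0 0]) (.B 0 2 1 (.G 160 1855 3 173634 173634 43408 173634 [.n,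
  .n, .n, .g 64 20 13 0, .n]) (.G 250 2 1 407019 407019 101755 407019 [.n,
  .n, .n, .g 64 37 12 0, .n]))))) (.L 3))) (.C 1 3 1 16 (.C 1 3 2 1 (.C 0 2
  384 1 (.L 2) (.C 1 2 3 2 (.L 2) (.G 208 2 1 216148 432297 108074 283695
  [.n, .g 16 1 0 0, .g 16 9 0 0, .n, .n]))) (.B 0 2 1 (.C 2 3 4 3 (.C 1 2 2
  5 (.L 2528) (.C 0 2 384 1 (.L 386) (.L 152))) (.L 125)) (.C 0 2 384 1 (.B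
  1 1 16 (.L 1008) (.C 1 2 3 4 (.L 112) (.L 109))) (.C 1 2 2 5 (.G 596 215 0
  1623601 2164802 8388607 1082401 [.n, .n, .n, .n, .g 1 71 0 0, .g 1 77 0 0,
  .n, .n, .g 7 60 0 0, .g 7 60 0 0]) (.B 1 1 16 (.G 149 251 1 129377 663055
  64688 84903 [.g 3 34 0 0, .n, .n, .n, .n, .n]) (.G 386 332 0 263737
  1351652 131868 173077 [.n, .n, .g 5 16 0 0, .g 16 3 0 0, .n])))))) (.C 2 3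
  1 24 (.C 0 2 384 1 (.C 2 3 1 1 (.C 1 2 3 2 (.L 215) (.L 135)) (.L 29)) (.B
  1 1 16 (.C 0 3 1 1 (.C 1 2 3 4 (.B 0 2 1 (.G 112 926 3 215613 143742
  862451 431226 [.g 8 3 0 0, .n, .n, .g 32 17 0 0]) (.G 11 486 0 27064 18043
  108256 54128 [.n, .n, .n, .g 1 394 3 0])) (.G 776 648 1 2097152 8388607
  1048576 4194304 [.n, .n, .n, .n, .g 1 41 0 0, .g 1 47 0 0, .n, .n, .n,
  .n])) (.C 2 3 2 1 (.G 486 208 2 3122505 1024572 780626 3122505 [.g 4096 0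
  3 0, .n, .n, .n, .g 7 67 0 0, .g 1 10 0 0]) (.G 250 427 0 210624 70208
  210624 105312 [.n, .n, .n, .g 23 63 0 0, .g 21 32 0 0]))) (.G 2772 1869 3
  50392 33070 25196 50392 [.n, .g 32 15 0 0, .g 64 1 0 0, .n]))) (.B 0 2 1
  (.L 93) (.C 2 3 1 48 (.L 29) (.L 109))))))) (by decide +kernel)

theorem EN1_c68 : CoN ENTab ⟨⟨29, 31, 64⟩, ⟨3, 4, 8⟩, ⟨7, 8, 16⟩, ⟨1, 0, 0,
  0, 0⟩, ⟨412, 10, 4, 0, 7⟩, ⟨2212, 82, 64, 8, 65⟩, ⟨732, 26, 20, 0, 23⟩⟩ :=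
CoN.ofG ENTab_B ENBt_E ENBt_U (.C 0 3 1008 1 (.C 0 2 3024 1 (.B 0 1 8 (.C 0
  1 496 1 (.C 0 2 6048 1 (.B 0 2 1 (.B 0 4 1 (.B 2 4 1 (.B 1 1 32 (.L 1602)
  (.B 2 8 1 (.B 1 1 64 (.L 1838) (.B 2 16 1 (.C 0 3 2016 1 (.B 2 32 1 (.B 1
  1 128 (.C 0 2 12096 1 (.L 794) (.C 2 3 1 3 (.G 392 17 1 390 16 195 390
  [.n, .n, .g 23 65 0 0, .n, .n, .n]) (.L 794))) (.C 1 3 4 1 (.C 2 3 2 3 (.L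
  17) (.C 0 3 8000 1 (.C 1 3 16 1 (.L 17) (.C 0 1 31872 1 (.C 0 2 48192 1
  (.B 2 64 1 (.C 0 3 16000 1 (.B 1 1 256 (.L 3212) (.C 0 2 96384 1 (.C 1 3 1
  2 (.L 17) (.L 3)) (.L 392))) (.L 392)) (.L 3212)) (.L 392)) (.L 392))) (.L
  392))) (.C 2 3 1 3 (.C 1 2 3 2 (.L 3) (.C 1 2 1 4 (.C 1 3 1 2 (.C 2 3 1 1
  (.L 17) (.L 3)) (.L 15)) (.L 864))) (.C 2 3 1 6 (.L 3) (.C 2 3 1 12 (.L 3)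
  (.C 1 3 1 2 (.L 3) (.C 2 3 1 24 (.L 3) (.B 2 64 1 (.B 2 128 1 (.C 1 3 1 4
  (.L 3) (.L 36)) (.L 4043)) (.L 794))))))))) (.C 0 2 12096 1 (.L 794) (.C 2
  3 1 3 (.G 392 410 0 390 16 195 390 [.n, .n, .g 24 65 0 0, .n, .n, .n]) (.L
  794)))) (.C 2 3 1 6 (.C 2 3 2 1 (.C 0 1 1 4 (.C 1 2 3 2 (.C 0 3 12 1 (.C 0
  1 2 1 (.C 0 1 4 1 (.C 0 3 24 1 (.C 0 2 12 1 (.G 446 3 5 174763 1398101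
  4183381 8388607 [.g 1 338 0 0, .n, .n, .n, .g 1 24537 0 0, .g 1 25369 0 0,
  .n, .n]) (.L 3)) (.L 3)) (.L 3)) (.L 3)) (.L 3)) (.C 0 2 3 1 (.C 0 3 12 1
  (.C 0 2 6 1 (.C 0 1 12 1 (.G 2294 2 5 349525 8366762 4194304 8388607 [.n,
  .n, .n, .n, .g 1 1563 0 0, .g 1 1687 0 0, .g 1 6852 0 0, .g 1 7443 0 0])
  (.L 3)) (.L 3)) (.L 3)) (.G 1653 392 2 22929 45858 11465 45858 [.g 256 1 0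
  0, .n, .n, .n, .n, .n, .g 16 13 0 0, .g 64 55 0 0, .n, .n]))) (.C 0 2 3 2
  (.L 392) (.G 392 410 0 777 16 195 780 [.n, .n, .g 19 32 0 0, .n, .n,
  .n]))) (.C 0 1 1 4 (.C 0 1 2 1 (.C 0 1 4 1 (.C 0 3 6 1 (.G 2294 2 5 699051
  5592405 8388607 8388607 [.n, .n, .n, .n, .g 1 1252 0 0, .g 1 1425 0 0, .g
  1 5527 0 0, .g 1 6226 0 0]) (.L 3)) (.L 3)) (.L 319)) (.L 1940))) (.C 0 3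
  1 2 (.C 0 3 2 1 (.C 0 2 6 1 (.C 0 1 1 4 (.C 0 2 12 1 (.G 10 2 5 349525
  699051 8388607 1398101 [.n, .n, .n, .n, .g 1 14048 0 0, .g 1 14541 0 0])
  (.L 1940)) (.L 1940)) (.L 1940)) (.L 1940)) (.L 1940)))) (.L 794))) (.L
  3958))) (.L 438)) (.B 0 1 2 (.C 0 1 992 1 (.B 2 32 1 (.B 1 1 64 (.L 1735)
  (.B 2 64 1 (.B 1 1 128 (.C 2 3 1 6 (.C 0 2 12096 1 (.L 1838) (.B 2 1 2 (.C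
  1 2 6 1 (.L 1838) (.B 1 2 1 (.L 3019) (.C 2 3 2 1 (.G 392 410 0 149 149 75
  298 [.n, .n, .g 53 64 0 0, .n, .n, .n]) (.L 1838)))) (.L 1838))) (.L
  1838)) (.C 2 3 1 6 (.C 0 2 12096 1 (.C 0 3 24192 1 (.B 2 128 1 (.C 0 2
  24192 1 (.B 1 1 256 (.L 794) (.C 0 1 1984 1 (.B 2 256 1 (.C 1 2 12 1 (.C 1
  3 12 1 (.C 0 3 96000 1 (.C 1 3 48 1 (.L 17) (.B 2 512 1 (.C 2 3 2 1 (.L
  17) (.L 3)) (.L 3212))) (.G 392 17 1 1461 30 730 730 [.n, .n, .g 16 13 0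
  0, .n, .n, .n])) (.C 1 2 1 1 (.L 3) (.C 2 3 1 2 (.C 2 3 2 1 (.C 0 2 96000
  1 (.C 1 2 1 1 (.L 3) (.C 2 3 2 1 (.L 17) (.L 3))) (.G 392 410 0 714 714
  357 1428 [.n, .n, .g 29 32 0 0, .n, .n, .n])) (.L 3)) (.L 3)))) (.C 1 3 1
  2 (.C 0 3 192768 1 (.C 2 3 8 1 (.L 17) (.C 1 3 4 1 (.L 17) (.L 3))) (.G
  392 17 1 3123 787 393 1574 [.n, .n, .g 31 32 0 0, .n, .n, .n])) (.C 1 2 1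
  4 (.L 3) (.L 864)))) (.L 794)) (.B 2 256 1 (.G 3 17 1 28134 14067 342884
  342884 [.n, .n, .g 64 1 0 0, .n, .g 64 3 0 0, .n]) (.L 794)))) (.G 3 17 1
  350895 14396 175447 350895 [.n, .n, .g 64 1 0 0, .n, .g 64 3 0 0, .n]))
  (.L 794)) (.B 2 128 1 (.C 2 3 1 1 (.C 0 2 1 2 (.G 3 392 4 195 8 390 195
  [.n, .n, .g 64 1 0 0, .n, .g 64 3 0 0, .n]) (.C 2 3 2 1 (.G 392 17 1 780
  16 195 780 [.n, .n, .g 64 63 0 0, .n, .n, .n]) (.L 392))) (.G 3 392 4 390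
  16 390 195 [.n, .n, .g 64 1 0 0, .n, .g 64 3 0 0, .n])) (.L 794))) (.C 2 3
  2 1 (.G 392 17 1 195 16 98 390 [.n, .n, .g 37 64 0 0, .n, .n, .n]) (.C 0 3
  1 1 (.C 0 2 2 1 (.C 0 3 2 1 (.G 392 410 0 195 16 780 780 [.n, .n, .g 40 63
  0 0, .n, .n, .n]) (.G 794 392 2 1 1 1 1 [.n, .n, .g 1 118 0 0, .g 2 263 0
  0, .n, .n])) (.G 794 392 2 1 1 1 1 [.n, .n, .g 1 118 0 0, .g 2 263 0 0,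
  .n, .n])) (.C 1 3 12 1 (.G 794 392 2 1 1 1 1 [.n, .n, .g 1 123 0 0, .g 2
  263 0 0, .n, .n]) (.L 3))))) (.C 1 2 12 1 (.B 2 128 1 (.C 1 3 1 1 (.C 1 2
  24 1 (.P (.ofNat 2) (.ofNat 3)) (.L 3)) (.C 1 3 1 2 (.L 3) (.B 1 1 256 (.L
  3531) (.C 1 3 1 4 (.L 3) (.C 2 3 1 24 (.L 3) (.L 36)))))) (.L 794)) (.C 2
  3 1 12 (.L 3) (.C 1 3 1 24 (.L 3) (.L 36)))))) (.L 1838))) (.L 1602)) (.B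
  2 32 1 (.B 1 1 64 (.G 1198 2507 0 1 1 1 1 [.n, .n, .g 2 33 0 0, .g 4 69 0
  0, .n, .n, .n, .n]) (.B 2 64 1 (.C 2 3 1 6 (.C 0 1 1 2 (.G 2 410 0 33202
  66404 203362 404649 [.n, .n, .n, .g 64 1 0 0, .g 256 11 0 0, .n]) (.C 2 3
  2 1 (.G 392 17 1 64 16 195 780 [.n, .n, .g 41 64 0 0, .n, .n, .n]) (.C 0 3
  6 1 (.L 392) (.L 319)))) (.C 1 2 24 1 (.C 0 3 1 1 (.C 0 2 24 1 (.P (.ofNat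
  2) (.ofNat 3)) (.C 1 3 4 1 (.L 392) (.L 3))) (.L 319)) (.C 0 2 12 1 (.C 0
  2 24 1 (.C 0 3 1 1 (.C 0 1 24 1 (.P (.ofNat 2) (.ofNat 3)) (.L 3)) (.G
  3432 3 5 32 381 759 16 [.n, .n, .n, .n, .g 1 2123 0 0, .g 1 2259 0 0]))
  (.G 3787 3 5 759 381 381 16 [.n, .n, .n, .n, .g 1 12228 0 0, .g 1 12445 0
  0])) (.G 2763 2 5 381 381 192 16 [.n, .n, .n, .n, .g 2 4635 0 0, .g 1 2393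
  0 0])))) (.L 1838))) (.L 1602))) (.C 0 3 2016 1 (.C 2 3 1 3 (.C 1 3 24 1
  (.L 57) (.C 2 3 2 1 (.C 2 3 4 1 (.L 57) (.C 2 3 1 2 (.L 57) (.C 2 3 1 4
  (.L 57) (.L 3)))) (.L 3))) (.C 1 3 4 1 (.C 1 3 8 1 (.C 1 2 24 1 (.L 57)
  (.L 3)) (.L 3)) (.C 1 3 1 2 (.L 3) (.C 1 3 1 4 (.L 3) (.C 2 3 1 6 (.L 3)
  (.L 960)))))) (.C 2 3 1 6 (.B 1 1 16 (.B 1 2 1 (.L 633) (.B 2 2 1 (.C 2 3
  2 1 (.C 0 2 3 1 (.B 1 1 2 (.L 1439) (.C 1 2 24 1 (.C 0 1 1 4 (.G 2188 2 5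
  8 16 95 96 [.g 1 336 0 0, .n, .n, .n, .n, .n, .g 1 1759 0 0, .g 1 1782 0
  0]) (.L 392)) (.G 2188 2 5 8 95 48 96 [.g 1 236 0 0, .n, .n, .n, .n, .n,
  .g 1 1759 0 0, .g 1 1782 0 0]))) (.G 1439 392 0 1 1 1 1 [.n, .n, .n, .n,
  .g 1 984 0 0, .g 1 995 0 0])) (.C 0 1 1 4 (.B 1 1 2 (.L 633) (.G 2188 3 5
  1 2 12 6 [.g 1 42 0 0, .n, .n, .n, .n, .n, .g 1 222 0 0, .g 1 229 0 0]))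
  (.L 633))) (.L 373))) (.C 0 2 3 1 (.C 0 1 1 4 (.C 0 1 2 1 (.G 1188 2 5
  125225 500898 751347 751347 [.n, .n, .n, .n, .g 2 5059 0 0, .g 1 2682 0 0,
  .n, .n]) (.L 3)) (.C 1 3 24 1 (.L 392) (.L 3))) (.C 2 3 2 1 (.G 392 663 0
  390 16 195 780 [.n, .n, .g 17 32 0 0, .n, .n, .n]) (.C 1 3 24 1 (.L 392)
  (.L 3))))) (.C 0 3 1 2 (.C 0 1 1 4 (.G 3028 2 5 745994 1491987 4475962
  1491987 [.n, .n, .n, .n, .g 1 24514 0 0, .g 1 25435 0 0, .n, .n]) (.B 1 1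
  16 (.L 633) (.B 2 64 1 (.C 0 3 1 1 (.C 1 3 16 1 (.C 1 2 24 1 (.L 392) (.L
  3)) (.L 3)) (.L 319)) (.L 373)))) (.C 1 3 2 1 (.B 1 1 16 (.L 473) (.B 2 64
  1 (.L 319) (.L 285))) (.L 473))))))) (.C 1 3 2 1 (.C 1 3 4 1 (.C 2 3 2 3
  (.L 17) (.C 1 3 8 1 (.L 17) (.C 1 2 3 1 (.P (.ofNat 3) (.ofNat 4)) (.L
  3)))) (.C 2 3 1 3 (.C 2 3 2 1 (.C 1 2 3 2 (.L 3) (.L 57)) (.L 3)) (.L 3)))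
  (.C 1 2 3 1 (.C 1 3 1 2 (.L 3) (.C 2 3 1 12 (.L 3) (.C 2 3 1 24 (.L 3) (.C
  1 3 1 4 (.L 3) (.L 36))))) (.C 2 3 1 6 (.C 1 2 1 2 (.L 3) (.C 2 3 2 1 (.C
  1 2 1 4 (.L 15) (.C 2 3 4 1 (.L 57) (.B 0 1 2 (.L 467) (.L 468)))) (.L
  15))) (.C 1 3 1 12 (.L 3) (.B 0 1 2 (.L 960) (.L 36))))))) (.C 0 3 1 6 (.C
  0 3 2 1 (.C 2 3 8 1 (.L 57) (.C 1 3 49 1 (.L 57) (.C 0 3 4 1 (.G 304 622 3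
  49829 398630 398630 398630 [.g 64 53 0 0, .n, .n, .n]) (.C 2 3 1 2 (.G 3
  57 2 96330 96330 96330 192660 [.n, .n, .g 32 1 0 0, .n, .g 32 1 0 0, .n])
  (.L 3))))) (.B 0 2 1 (.B 0 4 1 (.G 117 1728 0 1 1 1 1 [.n, .n, .n, .n, .g
  1 251 0 0, .g 1 275 0 0]) (.B 1 1 16 (.L 473) (.C 0 2 1 8 (.C 0 2 2 1 (.C
  1 3 24 1 (.G 319 392 2 1 1 1 1 [.n, .n, .n, .n, .n, .n, .n, .n, .g 16 11 0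
  0, .g 64 39 0 0]) (.L 3)) (.L 319)) (.L 319)))) (.B 1 1 8 (.L 51) (.B 2 16
  1 (.B 1 1 16 (.L 176) (.B 1 1 32 (.L 687) (.G 3275 392 4 1 1 1 1 [.n, .n,
  .n, .n, .g 3 8 0 0, .g 23 64 0 0]))) (.L 176))))) (.C 1 3 2 1 (.C 1 2 6 1
  (.B 0 2 1 (.B 0 4 1 (.G 319 1728 0 1 1 1 1 [.n, .g 5 8 0 0, .n, .n, .n,
  .n, .n, .n, .n, .n]) (.B 1 1 16 (.L 473) (.L 319))) (.B 1 1 8 (.L 51) (.B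
  2 16 1 (.B 1 1 16 (.L 176) (.C 1 3 4 1 (.B 1 1 32 (.L 687) (.L 319)) (.L
  1940))) (.L 176)))) (.L 176)) (.L 176)))) (.C 0 1 1 2 (.C 0 3 2 1 (.C 0 2
  6 1 (.C 0 1 2 1 (.B 0 2 1 (.B 0 4 1 (.G 319 339 0 1 1 1 1 [.n, .g 64 5 0
  0, .n, .n, .n, .n, .n, .n, .n, .n]) (.B 1 1 16 (.L 473) (.L 319))) (.B 1 1
  8 (.L 51) (.B 2 16 1 (.C 0 3 4 1 (.G 705 410 0 16 64 194 129 [.n, .n, .n,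
  .n, .g 2 35 0 0, .g 4 71 0 0, .n, .n]) (.L 2610)) (.L 499)))) (.L 176))
  (.L 241)) (.L 48)) (.L 51))) (.B 1 2 1 (.C 0 3 2016 1 (.C 0 3 4032 1 (.C 0
  1 496 1 (.C 0 2 6048 1 (.C 0 1 992 1 (.C 0 2 12096 1 (.C 2 3 1 3 (.C 1 3
  24 1 (.L 17) (.C 1 3 1 2 (.C 1 2 1 4 (.L 294) (.L 157)) (.B 0 1 16 (.L 1)
  (.L 608)))) (.C 1 3 4 1 (.C 1 2 24 1 (.L 394) (.C 1 2 1 2 (.L 294) (.B 0 1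
  16 (.C 0 3 16000 1 (.B 0 2 1 (.C 1 3 1 6 (.L 1) (.L 3)) (.C 2 3 2 3 (.L 1)
  (.L 157))) (.L 1958)) (.C 2 3 1 3 (.L 608) (.L 380))))) (.B 0 1 16 (.C 0 1
  16000 1 (.C 1 3 1 4 (.B 1 1 8 (.B 0 2 1 (.L 3) (.L 2045)) (.L 3)) (.L 1))
  (.L 1958)) (.B 1 4 1 (.L 128) (.B 2 8 1 (.C 1 3 1 2 (.C 1 2 3 1 (.L 157)
  (.L 1)) (.L 1)) (.L 712)))))) (.L 612)) (.L 612)) (.L 612)) (.L 868)) (.L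
  868)) (.L 128)) (.C 0 3 2016 1 (.C 1 3 8 1 (.C 2 3 4 3 (.L 17) (.C 1 3 16
  1 (.L 17) (.B 1 1 2 (.L 17) (.C 1 3 1 2 (.L 17) (.C 2 3 1 6 (.L 17) (.B 1
  1 4 (.L 17) (.L 3))))))) (.C 2 3 2 3 (.C 2 3 4 1 (.C 1 2 3 4 (.B 1 1 2 (.L
  17) (.C 1 2 6 1 (.C 1 3 6 1 (.B 1 1 4 (.L 17) (.L 3)) (.L 17)) (.L 17)))
  (.L 17)) (.B 1 1 2 (.C 2 3 1 2 (.L 17) (.B 0 1 4 (.C 1 3 3 1 (.L 17) (.L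
  1)) (.L 50))) (.C 2 3 1 2 (.C 1 2 6 1 (.B 1 1 4 (.L 17) (.L 3)) (.L 17))
  (.L 3)))) (.C 0 1 8000 1 (.B 1 1 2 (.C 1 2 3 2 (.C 0 2 96384 1 (.C 1 2 12
  1 (.P (.ofNat 7) (.ofNat 9)) (.C 1 3 1 95 (.C 1 3 2 1 (.L 157) (.L 1)) (.L
  1))) (.B 1 2 1 (.L 1278) (.B 2 2 1 (.C 0 2 1 2 (.B 1 1 2 (.C 0 3 1 48 (.G
  3340 2 3 193 16 386 386 [.n, .n, .n, .n, .g 1 413 0 0, .g 1 421 0 0, .n,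
  .n]) (.L 176)) (.G 4 2 5 24975 2057 49950 522 [.n, .n, .g 18 65 0 0, .n,
  .n, .g 64 5 0 0])) (.L 2251)) (.L 1679)))) (.L 1)) (.C 2 3 1 6 (.L 3) (.C
  1 3 1 4 (.L 3) (.C 2 3 1 12 (.L 3) (.C 2 3 1 24 (.L 3) (.C 2 3 1 48 (.L 3)
  (.C 1 3 1 8 (.L 3) (.C 2 3 1 96 (.L 36) (.P (.ofNat 5) (.ofNat 6))))))))))
  (.B 1 1 2 (.L 1288) (.B 2 8 1 (.C 1 3 1 2 (.L 3) (.C 2 3 1 6 (.L 3) (.C 1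
  3 1 4 (.L 3) (.C 2 3 1 12 (.L 3) (.C 0 3 1 4 (.L 3) (.C 2 3 1 24 (.L 3)
  (.C 2 3 1 48 (.L 3) (.C 0 3 1 8 (.L 3) (.C 1 3 1 8 (.L 3) (.G 1014 4 5
  1392640 1398101 8388607 87381 [.n, .n, .g 1 9480 0 0, .g 1 9762 0 0, .n,
  .n, .n, .n])))))))))) (.L 1288)))))) (.C 0 1 1 8 (.B 1 1 2 (.L 499) (.B 2
  8 1 (.C 0 3 1 2 (.C 0 2 3 2 (.C 0 1 2 1 (.C 0 2 6 1 (.C 1 2 3 1 (.C 0 1 4
  1 (.B 1 1 4 (.C 0 3 2 1 (.C 0 2 24 1 (.B 2 2 1 (.B 1 2 1 (.L 906) (.G 1275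
  2 5 174990 1399924 8388607 699962 [.n, .n, .n, .n, .g 1 20857 0 0, .g 1
  21189 0 0, .n, .n])) (.L 285)) (.L 3340)) (.L 285)) (.G 446 3 5 350438
  2803503 8388607 700876 [.g 1 415 0 0, .n, .n, .n, .g 1 25092 0 0, .g 1
  25666 0 0, .n, .n])) (.G 373 3 5 4 2 12 1 [.n, .n, .n, .n, .g 2 81 0 0, .g
  1 42 0 0, .n, .n, .n, .n])) (.B 1 1 4 (.G 124 2 5 350438 8388607 4205255
  700876 [.n, .n, .g 1 2501 0 0, .g 1 2703 0 0, .n, .n]) (.G 1275 2 5 350438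
  8388607 4205255 700876 [.n, .n, .n, .n, .g 1 24668 0 0, .g 1 25595 0 0,
  .n, .n]))) (.G 285 3 5 6 2 3 1 [.n, .n, .n, .n, .g 21 65 0 0, .g 4 13 0
  0])) (.G 705 3 5 5 3 8 3 [.g 64 47 0 0, .n, .n, .n, .n, .n, .n, .n])) (.L
  285)) (.L 499)) (.L 499))) (.L 48))))) (.G 175 51 0 1 1 1 1 [.n, .g 64 37
  0 0, .n, .n, .n, .n, .n, .n, .n, .n])) (.B 0 1 8 (.L 51) (.C 1 3 2 1 (.L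
  175) (.B 1 2 1 (.C 1 3 1 2 (.L 175) (.G 175 1 1 25 51 38 13 [.n, .n, .n,
  .n, .n, .n, .g 16 3 0 0, .g 16 3 0 0, .n, .n])) (.L 128)))))
  (by decide +kernel)

theorem EN1_c69 : CoN ENTab ⟨⟨29, 31, 64⟩, ⟨3, 4, 8⟩, ⟨7, 8, 16⟩, ⟨1, 0, 0,
  0, 0⟩, ⟨2212, 82, 64, 8, 65⟩, ⟨244, 13, 13, 2, 11⟩, ⟨732, 26, 20, 0, 23⟩⟩
  :=
CoN.ofG ENTab_B ENBt_E ENBt_U (.C 0 2 384 1 (.B 0 1 8 (.C 0 1 3024 1 (.C 0 3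
  1008 1 (.C 2 3 5 2 (.C 1 2 1 8 (.B 0 2 1 (.C 1 2 2 1 (.C 1 3 4 3 (.B 2 4 1
  (.C 1 3 8 1 (.L 17) (.C 2 3 2 1 (.L 17) (.B 2 8 1 (.C 0 1 96192 1 (.L 704)
  (.G 890 704 3 692029 346014 346014 173007 [.n, .n, .g 22 65 0 0, .n])) (.L
  88)))) (.L 19)) (.L 353)) (.L 353)) (.C 0 3 7872 1 (.C 1 3 5 2 (.L 17) (.B
  0 1 2 (.C 1 3 1 4 (.B 0 2 1 (.L 193) (.C 1 3 2 1 (.L 17) (.L 20))) (.L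
  237)) (.C 2 3 4 3 (.L 17) (.C 1 3 1 4 (.C 2 3 4 3 (.L 17) (.C 1 3 2 1 (.L
  17) (.L 2))) (.C 1 2 3 4 (.L 2) (.B 1 1 8 (.B 0 1 4 (.L 237) (.C 0 2 96000
  1 (.C 0 2 192000 1 (.C 1 2 1 2 (.L 1) (.C 1 2 1 4 (.L 1) (.L 20))) (.G 1
  109 0 1981689 3912564 990844 81300 [.n, .g 20 63 0 0, .n, .n, .n, .n]))
  (.L 285))) (.L 237))))))) (.G 111 20 0 42 16 32 21 [.n, .n, .n, .n, .g 15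
  64 0 0, .g 14 65 0 0]))) (.B 0 2 1 (.L 88) (.B 0 1 2 (.L 11) (.C 2 3 10 1
  (.L 17) (.B 1 1 8 (.C 0 1 12192 1 (.C 0 3 7872 1 (.L 20) (.L 51)) (.L 51))
  (.L 237)))))) (.C 0 1 6048 1 (.C 1 3 1 6 (.C 1 2 2 3 (.C 1 3 2 1 (.C 1 3 4
  1 (.C 1 2 4 1 (.B 0 2 1 (.L 622) (.L 57)) (.C 1 3 1 1 (.C 1 2 1 2 (.C 1 2
  2 1 (.C 1 2 4 1 (.L 57) (.L 2)) (.L 2)) (.L 2)) (.L 2))) (.L 2)) (.L 2))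
  (.L 2)) (.C 2 3 1 4 (.L 3) (.C 1 3 1 12 (.L 3) (.C 2 3 1 8 (.L 22) (.B 0 2
  1 (.L 22) (.L 36)))))) (.C 0 3 1 6 (.C 0 2 2 3 (.B 0 2 1 (.C 2 3 1 2 (.B 2
  4 1 (.C 1 2 8 1 (.C 2 3 1 1 (.G 2934 137 0 32 16 254 509 [.n, .n, .n, .n,
  .g 5 59 0 0, .g 1 12 0 0, .n, .n]) (.L 156)) (.B 2 8 1 (.C 0 2 4 1 (.C 0 3
  8 1 (.G 156 304 0 526344 4177855 4177855 8388607 [.n, .n, .n, .n, .g 1 82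
  0 0, .g 1 83 0 0]) (.G 704 392 0 6127 3063 3063 3063 [.n, .n, .n, .g 64 27
  0 0])) (.G 88 392 0 3480 3480 1740 3480 [.n, .n, .g 64 39 0 0, .n])) (.L
  594))) (.L 1960)) (.C 1 3 4 1 (.L 156) (.C 0 3 2 1 (.L 156) (.L 3)))) (.B
  1 1 8 (.L 176) (.C 0 1 1 2 (.B 2 16 1 (.G 687 1863 4 1 1 1 1 [.n, .n, .n,
  .n, .g 19 65 0 0, .g 19 66 0 0]) (.C 0 2 4 1 (.C 0 3 2 1 (.G 373 410 0 16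
  32 127 64 [.n, .n, .n, .n, .g 64 61 0 0, .g 1 1 0 0, .n, .n, .n, .n]) (.L
  473)) (.L 473))) (.L 906)))) (.L 176)) (.L 176)))) (.L 51)) (.L 51)) (.C 0
  1 3024 1 (.C 0 3 1008 1 (.B 1 2 1 (.C 0 2 768 1 (.C 0 3 2016 1 (.C 0 3
  4032 1 (.C 1 3 4 3 (.L 17) (.C 2 3 5 1 (.L 17) (.L 1))) (.L 897)) (.L
  128)) (.L 128)) (.C 0 3 2016 1 (.C 2 3 5 1 (.C 2 3 10 1 (.L 17) (.C 1 3 4
  3 (.L 17) (.B 1 1 2 (.L 17) (.B 2 8 1 (.B 1 1 4 (.L 17) (.C 1 3 1 6 (.L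
  17) (.L 20))) (.L 17))))) (.C 1 3 2 3 (.B 1 1 2 (.C 0 1 6048 1 (.L 1) (.L
  176)) (.B 2 8 1 (.C 0 1 6048 1 (.C 0 1 12096 1 (.C 1 3 1 1 (.C 1 2 1 3 (.L
  17) (.L 2)) (.L 2)) (.G 2 50 1 78394 39997 25598 78394 [.n, .n, .n, .g 64
  1 0 0, .g 64 3 0 0, .n])) (.C 0 1 1 2 (.C 0 2 2 3 (.G 1863 410 0 59 118
  232 118 [.n, .n, .g 49 64 0 0, .g 64 57 0 0, .n, .n]) (.G 705 50 1 97 49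
  16 49 [.n, .n, .g 1 24 0 0, .g 3 74 0 0, .n, .n, .n, .n])) (.L 906))) (.C
  0 1 6048 1 (.C 0 1 12096 1 (.C 1 3 1 1 (.L 17) (.L 2)) (.L 1)) (.L 176))))
  (.B 1 1 2 (.L 1) (.C 2 3 1 2 (.L 2) (.C 2 3 1 4 (.L 3) (.L 348)))))) (.C 0
  2 1 5 (.B 1 1 2 (.L 499) (.C 0 1 3 2 (.C 0 3 1 2 (.B 2 8 1 (.C 0 2 2 1 (.G
  348 2 5 960220 5761320 3780866 1920440 [.n, .g 1 122 0 0, .n, .n, .g 1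
  6529 0 0, .g 1 6488 0 0, .n, .n]) (.G 3915 2 5 32 49 16 16 [.n, .n, .n,
  .n, .g 2 313 0 0, .g 2 321 0 0])) (.L 499)) (.L 285)) (.L 285))) (.L
  48)))) (.B 1 2 1 (.G 98 1 1 42 126 16 21 [.n, .n, .n, .n, .n, .n, .g 8 21
  0 0, .g 23 63 0 0]) (.L 128))) (.B 1 2 1 (.G 175 1 1 126 63 16 21 [.n, .n,
  .n, .n, .n, .n, .g 32 23 0 0, .g 64 29 0 0, .n, .n]) (.L 128)))) (.B 0 1 8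
  (.L 59) (.B 1 2 1 (.B 0 1 16 (.L 98) (.C 2 3 5 2 (.L 1426) (.G 778 1 1 22
  85 111 28 [.n, .n, .n, .n, .g 64 35 0 0, .g 64 35 0 0]))) (.L 98))))
  (by decide +kernel)

theorem EN1_c70 : CoN ENTab ⟨⟨29, 31, 64⟩, ⟨3, 4, 8⟩, ⟨7, 8, 16⟩, ⟨1, 0, 0,
  0, 0⟩, ⟨732, 26, 20, 0, 23⟩, ⟨244, 13, 13, 2, 11⟩, ⟨20, 1, 1, 0, 1⟩⟩ :=
CoN.ofG ENTab_B ENBt_E ENBt_U (.B 0 1 8 (.C 0 1 1008 1 (.C 0 2 384 1 (.C 1 2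
  2 5 (.C 0 3 32 1 (.C 1 3 1 32 (.C 1 2 4 1 (.C 1 3 2 1 (.B 0 2 1 (.C 1 3 4
  1 (.L 22) (.L 1960)) (.C 1 3 4 1 (.B 0 1 2 (.L 22) (.C 1 2 8 1 (.L 348)
  (.L 64))) (.L 64))) (.B 0 2 1 (.L 88) (.L 64))) (.B 0 2 1 (.L 88) (.B 0 1
  2 (.L 353) (.C 0 1 15936 1 (.B 1 1 8 (.C 0 3 4064 1 (.C 0 2 7872 1 (.B 0 1
  4 (.C 1 2 1 2 (.C 1 3 1 4 (.C 1 3 2 1 (.L 10) (.C 2 3 1 1 (.L 10) (.L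
  156))) (.L 353)) (.L 353)) (.L 1)) (.L 51)) (.L 51)) (.C 1 3 1 8 (.C 1 3 2
  1 (.C 1 3 4 1 (.L 36) (.L 20)) (.L 353)) (.L 237))) (.G 499 109 0 125 63
  31 16 [.n, .n, .n, .n, .g 7 67 0 0, .g 6 61 0 0]))))) (.B 0 2 1 (.L 3856)
  (.B 0 1 2 (.L 237) (.B 1 1 8 (.B 0 1 4 (.L 237) (.L 1)) (.L 237))))) (.L
  241)) (.B 0 2 1 (.L 88) (.B 0 1 2 (.L 11) (.B 1 1 8 (.C 0 1 7872 1 (.C 1 2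
  1 21 (.L 20) (.C 2 3 1 24 (.C 0 2 768 1 (.B 0 1 4 (.L 2896) (.C 0 2 1536 1
  (.L 2891) (.G 285 314 0 8 83 4 4 [.n, .n, .n, .n, .g 15 62 0 0, .g 3 13 0
  0]))) (.L 51)) (.L 88))) (.L 51)) (.L 11))))) (.L 241)) (.L 241)) (.C 0 3
  32 1 (.C 2 3 1 6 (.C 0 1 1008 1 (.C 0 3 768 1 (.C 1 2 1 5 (.C 0 2 3936 1
  (.B 1 2 1 (.L 1) (.B 1 1 2 (.L 1) (.C 1 2 4 1 (.B 1 1 4 (.B 1 2 1 (.L 1)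
  (.L 1756)) (.L 1756)) (.L 2)))) (.L 48)) (.C 0 2 384 1 (.C 0 1 3936 1 (.C
  0 2 768 1 (.C 0 1 7872 1 (.C 2 3 1 1 (.B 1 2 1 (.L 17) (.C 1 2 1 10 (.B 1
  1 2 (.L 17) (.B 2 8 1 (.L 11) (.B 2 1 2 (.L 330) (.L 17)))) (.L 16))) (.B
  1 2 1 (.C 0 2 3072 1 (.L 1) (.L 128)) (.B 1 1 2 (.C 0 3 1536 1 (.C 2 3 1 1
  (.C 1 3 2 5 (.B 0 1 4 (.L 1450) (.L 50)) (.L 41)) (.L 1)) (.L 868)) (.C 0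
  2 3072 1 (.L 11) (.L 960))))) (.B 1 2 1 (.L 128) (.B 2 8 1 (.G 1958 806 4
  1 1 1 1 [.n, .n, .n, .n, .g 2 55 0 0, .g 2 57 0 0, .n, .n, .n, .n]) (.L
  347)))) (.G 712 16 1 8 41 4 8 [.n, .n, .n, .n, .g 32 15 0 0, .g 64 33 0 0,
  .n, .n])) (.L 48)) (.G 98 50 1 8 41 4 16 [.n, .n, .n, .n, .n, .n, .g 1 24
  0 0, .g 1 26 0 0]))) (.B 1 2 1 (.C 1 2 1 5 (.L 469) (.G 98 200 1 16 41 4 8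
  [.n, .n, .n, .n, .n, .n, .g 5 69 0 0, .g 1 15 0 0])) (.L 98))) (.B 1 2 1
  (.C 0 2 1 5 (.L 1) (.B 0 1 16 (.L 98) (.C 1 3 3 4 (.C 1 2 2 5 (.L 1) (.L
  3446)) (.L 3446)))) (.L 98))) (.B 1 2 1 (.L 1) (.C 0 1 1008 1 (.C 0 2 768
  1 (.B 1 1 2 (.L 1) (.C 0 1 2016 1 (.C 1 3 1 63 (.B 1 1 4 (.B 1 2 1 (.L 1)
  (.C 1 2 2 5 (.B 2 1 1 (.C 1 2 4 1 (.L 15) (.L 1)) (.L 1)) (.L 11))) (.C 1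
  2 2 5 (.C 1 2 4 1 (.B 2 8 1 (.L 64) (.C 1 2 8 1 (.L 15) (.L 468))) (.B 2 8
  1 (.L 20) (.L 1))) (.L 11))) (.L 11)) (.C 0 3 1 63 (.C 0 2 2 5 (.C 0 1 1 2
  (.B 2 8 1 (.C 0 3 2 1 (.C 1 2 2 1 (.L 348) (.C 0 2 4 1 (.C 0 2 8 1 (.L
  348) (.G 64 468 1 8388607 4194304 4194304 2097152 [.n, .n, .n, .n, .g 2 57
  0 0, .n, .n, .n])) (.G 373 1863 4 1 1 1 1 [.n, .n, .n, .n, .g 32 65 0 0,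
  .g 10 21 0 0, .n, .n, .n, .n]))) (.L 285)) (.L 499)) (.L 176)) (.L 176))
  (.L 51)))) (.L 48)) (.L 48)))) (.B 1 2 1 (.C 1 2 2 5 (.L 1) (.G 317 347 0
  2 124 12 1 [.g 64 23 0 0, .g 32 17 0 0, .n, .n])) (.L 98))))
  (by decide +kernel)

theorem EN1_c71 : CoN ENTab ⟨⟨29, 31, 64⟩, ⟨7, 8, 16⟩, ⟨1, 1, 2⟩, ⟨1, 0, 0,
  0, 0⟩, ⟨412, 10, 4, 0, 7⟩, ⟨244, 13, 13, 2, 11⟩, ⟨20, 1, 1, 0, 1⟩⟩ :=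
CoN.ofG ENTab_B ENBt_E ENBt_U (.C 0 3 32 1 (.C 0 2 384 1 (.B 1 1 8 (.C 0 3
  64 1 (.B 1 2 1 (.C 0 2 768 1 (.B 1 4 1 (.B 0 1 4 (.L 1602) (.B 1 8 1 (.B 0
  1 8 (.L 1544) (.C 0 2 1536 1 (.B 0 1 16 (.G 1223 1544 7 1 1 1 1 [.n, .n,
  .n, .n, .g 2 1 0 0, .g 64 33 0 0, .n, .n]) (.C 1 3 1 4 (.C 0 1 496 1 (.B 1
  16 1 (.C 0 3 1008 1 (.B 0 1 32 (.C 0 2 3072 1 (.L 794) (.B 0 2 1 (.L 794)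
  (.C 2 3 2 3 (.G 1223 17 1 99 16 50 197 [.n, .n, .n, .n, .n, .n, .g 13 32 0
  0, .g 3 5 0 0]) (.L 794)))) (.C 1 3 2 1 (.L 17) (.C 0 2 3072 1 (.B 1 32 1
  (.C 2 3 1 3 (.C 2 3 2 1 (.C 2 3 4 1 (.L 17) (.C 2 3 1 2 (.L 17) (.L 3)))
  (.L 3)) (.L 3)) (.L 3852)) (.G 392 17 1 49 32 24 16 [.n, .n, .g 38 63 0 0,
  .n, .n, .n])))) (.C 2 3 1 3 (.C 2 3 2 1 (.G 392 17 1 33 16 50 197 [.n, .n,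
  .g 2 5 0 0, .n, .n, .n]) (.L 392)) (.L 392))) (.L 1223)) (.G 392 17 1 32
  16 99 33 [.n, .n, .g 5 32 0 0, .n, .n, .n])) (.B 1 16 1 (.B 0 1 32 (.C 2 3
  1 24 (.C 0 2 3072 1 (.L 794) (.B 0 2 1 (.L 794) (.C 2 3 2 1 (.C 0 2 1 2
  (.L 1223) (.C 1 2 3 1 (.B 0 1 2 (.L 794) (.C 0 1 1 12 (.G 392 3852 3 1 1 1
  1 [.n, .n, .g 17 32 0 0, .n, .g 64 7 0 0, .n]) (.L 2))) (.C 1 2 1 2 (.C 0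
  1 1 2 (.B 1 1 2 (.G 3403 392 2 1 1 1 1 [.n, .n, .g 5 66 0 0, .g 4 59 0 0,
  .n, .n, .n, .n]) (.L 794)) (.L 2)) (.G 392 20 0 116 116 29 116 [.n, .n, .g
  38 65 0 0, .n, .g 64 29 0 0, .n])))) (.L 794)))) (.L 794)) (.C 1 3 1 8 (.C
  1 2 3 1 (.L 3) (.C 2 3 2 3 (.C 1 2 1 2 (.L 3) (.C 2 3 4 1 (.C 1 2 1 4 (.C
  1 2 2 1 (.L 3) (.L 20)) (.L 237)) (.L 3))) (.L 3))) (.C 1 2 3 2 (.C 1 3 1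
  16 (.C 2 3 1 3 (.L 36) (.C 1 3 2 1 (.L 10) (.L 15))) (.L 193)) (.L 193))))
  (.L 1223)))) (.C 0 1 1 6 (.C 0 1 2 1 (.C 1 2 1 8 (.B 0 1 16 (.G 2422 3852
  1 1 1 1 1 [.n, .n, .n, .n, .n, .n, .n, .g 32 5 0 0]) (.C 1 3 1 95 (.C 0 3
  8 1 (.C 2 3 2 1 (.L 17) (.C 1 3 4 1 (.L 17) (.G 193 392 2 60 1895 1899 949
  [.g 64 23 0 0, .g 32 29 0 0, .n, .n]))) (.C 0 3 1 2 (.C 0 3 2 1 (.G 3702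
  392 2 1 1 1 1 [.n, .n, .n, .n, .g 5 63 0 0, .g 5 64 0 0, .n, .n]) (.L
  3702)) (.L 1940))) (.L 20))) (.L 20)) (.L 1940)) (.L 1940)))) (.L 1544)))
  (.L 1602)) (.L 117)) (.L 438)) (.L 117)) (.L 438)) (.B 2 32 1 (.B 1 1 8
  (.G 1326 111 4 1 1 1 1 [.g 64 1 0 0, .g 256 1 0 0, .n, .n, .n, .n, .n,
  .n]) (.L 438)) (.L 111))) (.B 2 32 1 (.B 1 1 8 (.G 1804 111 4 1 1 1 1 [.g
  64 1 0 0, .g 256 1 0 0, .n, .n, .n, .n, .n, .n]) (.L 438)) (.L 111)))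
  (by decide +kernel)

theorem EN1_c72 : CoN ENTab ⟨⟨29, 31, 64⟩, ⟨3, 4, 8⟩, ⟨1, 1, 2⟩, ⟨412, 10,
  4, 0, 7⟩, ⟨164, 10, 4, 0, 7⟩, ⟨244, 13, 13, 2, 11⟩, ⟨20, 1, 1, 0, 1⟩⟩ :=
CoN.ofG ENTab_B ENBt_E ENBt_U (.C 0 3 1 16 (.B 1 1 4 (.B 0 1 8 (.G 241 98 1
  1 1 1 1 [.g 16 3 0 0, .n, .n, .n, .n, .n]) (.B 1 2 1 (.C 1 3 4 1 (.G 469
  412 1 32 16 25 129 [.n, .n, .n, .n, .n, .n, .g 2 83 0 0, .g 1 45 0 0]) (.C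
  0 2 3 4 (.C 0 1 4 1 (.C 0 3 2 1 (.L 175) (.C 1 3 1 4 (.L 3344) (.G 3344
  2316 1 32 127 48 16 [.n, .n, .n, .n, .n, .n, .g 3 56 0 0, .g 4 69 0 0])))
  (.C 1 2 3 2 (.B 0 1 16 (.L 175) (.G 448 2379 0 2766923 1405421 8388607
  702711 [.n, .g 2 9 0 0, .g 1 359 0 0, .g 1 382 0 0, .n, .n])) (.C 0 2 3 4
  (.G 175 2316 0 63 191 382 16 [.n, .n, .n, .n, .n, .n, .g 6 67 0 0, .g 1 12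
  0 0, .n, .n]) (.G 3344 3659 1 382 191 48 16 [.n, .n, .g 64 25 0 0, .g 16 5
  0 0, .n, .n, .g 3 56 0 0, .g 4 69 0 0])))) (.C 2 3 5 2 (.G 469 380 1 126
  83 16 164 [.n, .n, .n, .n, .n, .n, .g 1 64 0 0, .g 1 70 0 0]) (.B 0 1 16
  (.L 175) (.C 1 2 2 1 (.C 1 3 1 2 (.L 792) (.G 996 2678 1 2352737 3136983
  6175935 784246 [.n, .n, .g 1 299 0 0, .g 1 303 0 0, .n, .n, .n, .n, .n,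
  .n])) (.G 1 3792 5 94 247 121 31 [.n, .g 32 7 0 0, .n, .n, .n, .n]))))))
  (.B 1 1 2 (.G 469 50 1 32 16 25 65 [.n, .n, .n, .n, .n, .n, .g 1 12 0 0,
  .g 5 68 0 0]) (.L 98)))) (.C 0 2 3 4 (.C 0 1 1 2 (.B 1 1 8 (.L 176) (.L
  438)) (.L 59)) (.L 59))) (.B 1 1 4 (.B 0 1 8 (.G 241 98 1 1 1 1 1 [.g 16 3
  0 0, .n, .n, .n, .n, .n]) (.C 1 2 3 2 (.C 1 3 1 8 (.C 0 1 1 4 (.C 0 1 2 1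
  (.G 3190 2678 2 295 1171 443 148 [.g 64 7 0 0, .g 64 7 0 0, .n, .n]) (.G
  792 347 0 6791 3369 2567 856 [.g 128 1 0 0, .n, .g 29 32 0 0, .g 55 64 0
  0, .n, .n, .n, .n])) (.B 1 2 1 (.C 1 3 2 1 (.L 825) (.B 0 1 16 (.G 1888
  1278 0 2516 1278 1917 639 [.n, .n, .g 64 27 0 0, .g 64 29 0 0, .n, .n, .n,
  .n]) (.L 792))) (.B 1 1 2 (.C 1 3 2 1 (.L 825) (.G 157 1662 0 5853 2973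
  4459 1486 [.n, .n, .g 16 9 0 0, .g 32 19 0 0, .n, .n])) (.L 98)))) (.B 1 2
  1 (.G 4 3190 1 33145 16573 49718 1052 [.n, .n, .g 64 3 0 0, .n, .n, .n])
  (.G 347 285 0 1 1 1 1 [.n, .g 2 7 0 0, .n, .n, .n, .n]))) (.B 1 2 1 (.C 0
  2 2 5 (.G 301 1 3 126 189 492 4 [.n, .n, .n, .g 1 123 0 0, .n, .g 1 815 0
  0]) (.G 632 347 0 1 1 1 1 [.n, .n, .n, .n, .g 13 66 0 0, .g 5 31 0 0]))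
  (.L 98)))) (.L 59))) (by decide +kernel)

theorem EN1_c73 : CoN ENTab ⟨⟨29, 31, 64⟩, ⟨3, 4, 8⟩, ⟨1, 1, 2⟩, ⟨20, 1, 1,
  0, 1⟩, ⟨164, 10, 4, 0, 7⟩, ⟨244, 13, 13, 2, 11⟩, ⟨4, 1, 1, 0, 1⟩⟩ :=
CoN.ofG ENTab_B ENBt_E ENBt_U (.C 1 3 1 16 (.C 2 3 4 3 (.B 1 1 4 (.B 0 1 8
  (.C 1 3 12 1 (.G 1556 478 0 1 1 1 1 [.g 17 63 0 0, .g 6 31 0 0, .n, .n,
  .n, .n, .n, .n]) (.L 281)) (.C 1 3 12 1 (.B 1 2 1 (.C 0 1 8 1 (.C 1 2 3 4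
  (.G 2635 4 2 1584 24941 150834 298105 [.g 2 9 0 0, .g 2 65 0 0, .n, .n])
  (.L 337)) (.C 0 1 1 2 (.B 0 1 16 (.G 157 884 0 40855 81710 31128 488317
  [.n, .g 256 1 0 0, .g 32 5 0 0, .g 64 11 0 0, .n, .n]) (.G 294 507 1 4909
  9817 3740 58670 [.n, .g 32 9 0 0, .n, .n, .n, .n, .n, .n])) (.G 825 50 1
  15791 3887 6073 94502 [.n, .g 19 32 0 0, .n, .n, .n, .n, .g 11 62 0 0, .g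
  2 11 0 0]))) (.C 1 3 24 1 (.B 1 1 2 (.C 0 1 8 1 (.L 355) (.G 1461 355 5 33
  16 25 773 [.n, .g 16 9 0 0, .n, .n])) (.L 98)) (.L 355))) (.B 1 2 1 (.C 2
  3 8 1 (.L 337) (.G 1 829 0 18 3367 3420 1703 [.n, .g 32 3 0 0, .n, .g 64 1
  0 0, .n, .n])) (.L 174)))) (.L 59)) (.C 1 3 2 1 (.B 1 1 4 (.C 1 2 12 1 (.B
  0 1 8 (.G 1556 241 0 1 1 1 1 [.g 17 63 0 0, .g 6 31 0 0, .n, .n, .n, .n,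
  .n, .n]) (.C 1 3 4 1 (.B 1 2 1 (.C 0 1 8 1 (.B 0 1 16 (.L 1799) (.C 0 3 62
  1 (.G 778 1 3 4 63 753 497 [.n, .n, .n, .n, .g 1 773 0 0, .g 1 844 0 0])
  (.G 829 2060 0 126 16 191 63 [.n, .n, .n, .n, .g 1 27 0 0, .g 2 57 0 0])))
  (.C 0 1 1 2 (.B 0 1 16 (.G 294 884 0 20133 40266 240339 79274 [.n, .n, .g
  32 5 0 0, .g 64 11 0 0, .n, .n, .n, .n]) (.L 792)) (.L 825))) (.C 1 2 24 1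
  (.C 0 1 8 1 (.L 355) (.P (.ofNat 2) (.ofNat 3))) (.L 355))) (.B 1 2 1 (.C
  0 3 31 1 (.B 0 1 16 (.L 355) (.G 2998 829 0 1 1 1 1 [.g 32 27 0 0, .n, .n,
  .n, .n, .n, .n, .n])) (.L 355)) (.L 2832)))) (.B 0 1 8 (.G 243 2 5 4 753
  381 125 [.n, .g 2 53 0 0, .n, .n, .n, .n]) (.C 0 3 31 1 (.B 1 2 1 (.G 4
  829 0 4 753 381 249 [.n, .n, .g 64 3 0 0, .n, .n, .n]) (.L 174)) (.G 243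
  174 1 1 1 1 1 [.g 8 5 0 0, .n, .n, .n, .n, .n])))) (.L 59)) (.B 1 1 4 (.C
  0 3 16 1 (.B 0 1 8 (.G 478 281 1 1 1 1 1 [.n, .n, .g 1 48 0 0, .g 1 54 0
  0, .n, .n, .n, .n]) (.C 0 1 31 1 (.G 4 243 0 4 249 381 127 [.n, .n, .n,
  .n, .n, .g 256 1 0 0]) (.G 174 243 0 1 1 1 1 [.n, .g 32 11 0 0, .n, .n,
  .n, .n, .n, .n]))) (.C 0 3 1 2 (.B 0 1 8 (.G 458 703 0 1 1 1 1 [.n, .g 64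
  17 0 0, .n, .n, .n, .n, .n, .n]) (.G 243 174 1 1 1 1 1 [.g 8 3 0 0, .n,
  .n, .n, .n, .n])) (.C 2 3 1 6 (.G 174 423 0 1 1 1 1 [.n, .g 32 7 0 0, .n,
  .n, .n, .n, .n, .n]) (.C 1 3 1 2 (.G 174 423 0 1 1 1 1 [.n, .g 32 7 0 0,
  .n, .n, .n, .n, .n, .n]) (.C 1 3 1 4 (.G 2024 703 0 1 1 1 1 [.n, .g 32 7 0
  0, .n, .n, .n, .n, .n, .n, .n, .n]) (.B 0 1 8 (.B 0 2 1 (.L 22) (.B 0 1 2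
  (.L 402) (.C 2 3 1 12 (.L 136) (.C 2 3 1 24 (.L 885) (.C 1 3 1 8 (.L 885)
  (.C 1 2 3 1 (.P (.ofNat 5) (.ofNat 6)) (.L 21))))))) (.B 1 2 1 (.L 1) (.C
  2 3 1 12 (.L 136) (.C 0 3 1 4 (.L 136) (.B 1 1 2 (.L 1) (.C 2 3 1 24 (.L
  885) (.C 1 3 1 8 (.L 885) (.C 1 2 3 1 (.P (.ofNat 5) (.ofNat 6)) (.L
  21)))))))))))))) (.C 0 3 16 1 (.L 59) (.B 1 1 8 (.C 1 3 1 2 (.G 458 423 0
  1 1 1 1 [.n, .g 16 1 0 0, .n, .n, .n, .n, .n, .n]) (.C 0 1 2 1 (.C 0 3 1 2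
  (.L 136) (.L 22)) (.G 22 3 5 8388607 4194304 6356991 1048576 [.n, .n, .n,
  .n, .g 1 16594 0 0, .g 1 17122 0 0]))) (.L 438)))))) (.C 1 2 3 4 (.C 1 2 6
  1 (.C 1 3 1 32 (.B 1 1 4 (.C 0 1 16 1 (.C 0 1 32 1 (.L 301) (.G 3158 4 5
  2796202 1398101 8388607 1398101 [.n, .n, .n, .n, .g 1 9810 0 0, .g 1 10637
  0 0, .n, .n, .g 1 12542 0 0, .g 1 13564 0 0])) (.B 0 1 8 (.B 0 2 1 (.G 308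
  902 3 1390857 695429 8388607 1390857 [.n, .n, .n, .n, .n, .n, .g 1 178 0
  0, .g 1 185 0 0]) (.C 1 2 12 1 (.B 0 1 2 (.C 1 3 2 1 (.C 0 1 1 2 (.L 253)
  (.C 1 3 4 1 (.L 402) (.L 253))) (.L 253)) (.L 348)) (.L 15))) (.G 348 4 5
  422805 211403 2550044 422805 [.g 1 195 0 0, .n, .n, .n, .g 1 22868 0 0, .g
  1 23864 0 0, .n, .n]))) (.C 0 1 16 1 (.G 109 301 5 4 127 759 127 [.g 32 3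
  0 0, .n, .n, .n, .n]) (.B 1 1 8 (.G 308 902 3 1390857 695429 8388607
  1390857 [.n, .n, .n, .n, .n, .n, .g 1 175 0 0, .g 1 182 0 0]) (.L 438))))
  (.L 301)) (.L 301)) (.C 2 3 1 24 (.C 2 3 2 1 (.B 1 1 4 (.B 0 1 8 (.L 281)
  (.B 1 2 1 (.C 1 2 1 8 (.G 1 1137 5 4 381 765 192 [.n, .g 128 1 0 0, .n,
  .n, .n, .n]) (.G 2166 510 1 4 765 48 192 [.n, .n, .n, .n, .g 1 30 0 0, .g
  2 65 0 0])) (.L 174))) (.L 59)) (.C 0 3 24 1 (.B 1 1 4 (.G 1 243 0 30 2848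
  1435 1435 [.n, .g 64 15 0 0, .n, .n, .n, .g 1024 1 0 0]) (.L 59)) (.B 1 1
  4 (.B 0 1 8 (.C 2 3 1 2 (.L 136) (.G 20 1 5 64048 128095 128095 32024 [.g
  1 304 0 0, .n, .n, .g 1 88 0 0])) (.L 1)) (.B 1 1 8 (.B 1 2 1 (.C 1 3 1 4
  (.L 136) (.G 2572 3147 0 4 17 4 2 [.n, .n, .g 2 55 0 0, .g 1 28 0 0, .n,
  .n])) (.L 540)) (.L 183))))) (.L 574)))) (by decide +kernel)

theorem EN1_c74 : CoN ENTab ⟨⟨29, 31, 64⟩, ⟨3, 4, 8⟩, ⟨1, 1, 2⟩, ⟨244, 13,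
  13, 2, 11⟩, ⟨164, 10, 4, 0, 7⟩, ⟨52, 13, 13, 2, 11⟩, ⟨4, 1, 1, 0, 1⟩⟩ :=
CoN.ofG ENTab_B ENBt_E ENBt_U (.C 1 2 3 4 (.C 1 3 1 16 (.C 0 3 4 3 (.B 1 1 4
  (.B 0 1 8 (.G 243 890 2 25 16 98 197 [.n, .g 64 5 0 0, .g 2 55 0 0, .g 2
  53 0 0, .n, .g 1 33 0 0]) (.C 1 3 12 1 (.G 136 17 1 25 16 98 389 [.g 64 21
  0 0, .n, .n, .n, .g 1 66 0 0, .g 1 69 0 0]) (.B 1 2 1 (.G 174 50 1 16 251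
  63 127 [.g 32 3 0 0, .n, .n, .n, .g 1 31 0 0, .g 2 67 0 0, .n, .n]) (.G
  174 50 1 16 251 63 127 [.n, .g 64 1 0 0, .g 53 64 0 0, .n, .n, .n, .n,
  .n])))) (.C 1 2 6 1 (.L 59) (.C 0 2 4 1 (.L 59) (.B 1 1 8 (.L 1351) (.G 59
  694 2 33 33 16 33 [.n, .n, .g 19 63 0 0, .g 3 11 0 0, .n, .n]))))) (.C 1 3
  2 1 (.B 1 1 4 (.C 1 2 6 1 (.B 0 1 8 (.B 0 2 1 (.L 51) (.G 1556 281 5 1 1 1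
  1 [.g 64 1 0 0, .n, .n, .n, .n, .n, .n, .n])) (.C 0 1 1 12 (.G 281 174 1 1
  1 1 1 [.g 8 5 0 0, .n, .n, .n, .n, .n]) (.G 281 50 1 389 16 194 65 [.g 8 1
  0 0, .n, .n, .n, .g 1 9 0 0, .g 7 69 0 0]))) (.G 174 703 0 1 1 1 1 [.n, .g
  32 7 0 0, .g 36 65 0 0, .g 31 65 0 0, .n, .n, .n, .n])) (.B 1 1 8 (.G 1351
  423 0 1 1 1 1 [.g 64 19 0 0, .n, .n, .n, .n, .n]) (.G 59 38 1 197 16 98 65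
  [.n, .n, .g 2 57 0 0, .g 1 31 0 0, .n, .n]))) (.B 1 1 4 (.B 0 1 8 (.C 1 3
  1 2 (.G 458 423 0 1 1 1 1 [.n, .g 64 17 0 0, .n, .n, .n, .n, .n, .n]) (.C
  0 3 1 6 (.G 136 423 0 1 1 1 1 [.n, .g 64 25 0 0, .n, .n, .n, .n]) (.C 0 3
  1 12 (.G 458 703 0 1 1 1 1 [.n, .g 64 21 0 0, .n, .n, .n, .n, .n, .n]) (.C
  1 3 1 4 (.G 458 703 0 1 1 1 1 [.n, .g 64 21 0 0, .n, .n, .n, .n, .n, .n])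
  (.C 1 3 1 8 (.L 885) (.C 0 3 1 24 (.L 885) (.C 2 3 1 3 (.L 423) (.C 2 3 1
  6 (.G 423 2 5 128 43 16 32 [.n, .n, .g 1 1549 0 0, .g 1 1734 0 0, .n, .n])
  (.B 0 2 1 (.L 228) (.C 2 3 1 12 (.L 36) (.B 0 1 2 (.L 10) (.C 2 3 1 24 (.L
  10) (.C 0 3 1 48 (.L 10) (.C 2 3 1 48 (.L 10) (.P (.ofNat 6) (.ofNat
  7)))))))))))))))) (.C 1 3 1 2 (.G 174 136 0 1 1 1 1 [.n, .g 64 21 0 0, .g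
  1 10 0 0, .n, .n, .n, .n, .n]) (.C 1 3 1 4 (.G 174 458 0 1 1 1 1 [.n, .g
  64 11 0 0, .g 3 16 0 0, .n, .n, .n, .n, .n]) (.C 2 3 1 3 (.G 458 506 5 1 1
  1 1 [.g 1024 3 0 0, .n, .n, .n, .n, .n, .g 8 5 0 0, .g 64 41 0 0]) (.G 36
  4 5 2917343 3849690 2887267 481211 [.n, .n, .g 1 5393 0 0, .g 1 5709 0 0,
  .g 1 5841 0 0, .g 1 6624 0 0]))))) (.B 1 1 8 (.C 1 3 1 2 (.G 1351 423 0 1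
  1 1 1 [.n, .n, .n, .n, .g 4 33 0 0, .g 7 60 0 0]) (.C 0 3 1 6 (.G 736 423
  0 1 1 1 1 [.n, .n, .n, .n, .g 2 301 0 0, .g 1 141 0 0, .n, .n]) (.C 0 3 1
  12 (.L 423) (.C 1 2 3 4 (.G 211 2 5 8388607 1394470 8345030 348617 [.g 1
  177 0 0, .n, .n, .n, .n, .n, .g 1 23216 0 0, .g 1 24364 0 0]) (.C 2 3 1 3
  (.C 0 2 1 8 (.L 3) (.L 736)) (.G 1297 3 5 8388607 8345030 2091705 348617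
  [.n, .n, .n, .n, .g 1 1436 0 0, .g 1 1521 0 0, .n, .n, .g 1 10609 0 0, .g
  1 11545 0 0])))))) (.G 1388 53 1 1 1 1 1 [.n, .g 9 32 0 0, .n, .n, .n,
  .n]))))) (.C 0 1 4 3 (.C 0 3 1 24 (.C 0 3 2 1 (.B 1 1 4 (.C 0 2 4 1 (.B 0
  1 8 (.L 281) (.C 0 3 4 1 (.G 174 50 1 16 127 127 128 [.g 32 1 0 0, .n, .n,
  .n, .g 4 71 0 0, .g 1 20 0 0, .n, .n]) (.L 174))) (.G 187 136 0 1 1 1 1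
  [.n, .n, .n, .n, .g 2 319 0 0, .g 1 178 0 0, .n, .n])) (.C 0 2 4 1 (.L 59)
  (.G 243 137 0 8 8 4 4 [.n, .g 256 1 0 0, .g 9 16 0 0, .g 17 32 0 0, .n,
  .n]))) (.B 1 1 4 (.C 0 3 1 2 (.B 0 1 8 (.L 136) (.G 187 136 0 1 1 1 1 [.n,
  .n, .n, .n, .g 1 101 0 0, .g 1 118 0 0, .n, .n])) (.C 0 1 1 1 (.C 0 3 1 4
  (.G 1863 136 0 1 1 1 1 [.n, .g 13 63 0 0, .g 1 10 0 0, .n, .n, .n]) (.L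
  736)) (.L 736))) (.B 1 1 8 (.B 1 2 1 (.G 540 506 3 1 1 1 1 [.n, .n, .n,
  .n, .g 55 64 0 0, .g 25 32 0 0]) (.L 203)) (.C 2 3 1 2 (.G 92 137 0 54571
  109142 54571 109142 [.g 32 31 0 0, .n, .n, .n]) (.L 88))))) (.L 736)) (.C
  1 2 3 1 (.C 0 1 1 6 (.L 736) (.C 1 3 1 32 (.B 1 1 4 (.B 0 1 8 (.B 0 2 1
  (.C 1 3 2 1 (.C 2 3 2 3 (.G 22 3 5 4205198 348617 2091705 8388607 [.n, .n,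
  .n, .n, .g 1 15787 0 0, .g 1 16698 0 0]) (.G 211 902 3 4205198 348617
  8388607 1394470 [.n, .n, .g 2 341 0 0, .g 1 178 0 0, .n, .n, .n, .n])) (.G
  278 353 1 1430365 476788 715183 238394 [.n, .n, .g 18 65 0 0, .g 17 65 0
  0, .n, .n, .n, .n])) (.C 1 2 6 1 (.C 1 3 2 1 (.C 0 1 1 12 (.L 15) (.C 1 3
  4 1 (.C 1 2 12 1 (.B 0 1 2 (.L 22) (.L 21)) (.L 21)) (.L 15))) (.L 15))
  (.L 101))) (.G 348 4 5 2550044 211403 1268416 422805 [.g 1 195 0 0, .n,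
  .n, .n, .g 1 22868 0 0, .g 1 23864 0 0, .n, .n])) (.B 1 1 8 (.C 2 3 1 3
  (.G 1008 2 5 3864438 320368 1922208 3864438 [.n, .n, .n, .n, .g 1 4002 0
  0, .g 1 4324 0 0, .n, .n]) (.G 211 902 3 8388607 695429 8388607 1390857
  [.n, .n, .g 1 177 0 0, .g 1 184 0 0, .n, .n, .n, .n])) (.G 438 311 1 1 1 1
  1 [.n, .n, .n, .g 7 68 0 0, .n, .n]))) (.L 736))) (.L 736)))) (.C 2 3 1 12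
  (.B 1 1 4 (.C 1 2 1 8 (.B 0 1 8 (.C 0 3 1 1 (.B 0 2 1 (.L 992) (.C 0 2 8 1
  (.G 243 392 0 1 1 1 1 [.n, .n, .g 1 83 0 0, .g 1 78 0 0, .n, .n]) (.L
  53))) (.L 53)) (.C 0 1 4 1 (.G 733 276 5 68 542 542 68 [.n, .n, .n, .g 53
  63 0 0]) (.L 443))) (.C 0 3 1 1 (.L 276) (.G 160 138 1 346855 1376579
  86714 173427 [.g 29 63 0 0, .g 42 65 0 0, .n, .g 16 11 0 0, .n]))) (.C 0 2
  1 2 (.C 1 3 1 4 (.G 53 19 0 124 489 248 986 [.n, .g 64 37 0 0, .n, .n, .n,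
  .n]) (.L 160)) (.C 1 2 1 8 (.B 1 1 8 (.L 203) (.C 1 3 1 4 (.L 19) (.G 2768
  1023 3 32 127 127 16 [.n, .n, .n, .n, .g 55 64 0 0, .g 7 16 0 0]))) (.G 68
  1357 5 42 168 11 21 [.g 64 21 0 0, .n, .n, .g 32 7 0 0])))) (.B 1 1 4 (.B
  0 1 8 (.C 0 3 1 24 (.C 2 3 2 1 (.C 0 2 1 1 (.B 0 2 1 (.L 53) (.B 0 1 2 (.G
  1067 180 1 1 1 1 1 [.g 44 65 0 0, .n, .n, .n, .n, .n, .n, .n]) (.C 0 3 4 1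
  (.G 243 392 0 1 1 1 1 [.n, .n, .g 1 78 0 0, .g 1 72 0 0, .n, .n]) (.L
  443)))) (.L 53)) (.B 0 2 1 (.G 540 260 1 1 1 1 1 [.g 32 31 0 0, .n, .n,
  .n, .n, .n]) (.C 1 3 1 2 (.C 0 2 4 1 (.G 243 392 0 1 1 1 1 [.n, .n, .g 1
  68 0 0, .g 1 60 0 0, .n, .n]) (.B 0 1 2 (.L 53) (.B 1 1 8 (.L 1362) (.L
  53)))) (.C 0 2 4 1 (.C 0 3 2 1 (.G 281 392 0 1 1 1 1 [.n, .n, .g 1 80 0 0,
  .g 1 70 0 0, .n, .n]) (.G 211 1 1 4194304 8388607 8388607 2097152 [.n, .n,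
  .g 2 85 0 0, .g 1 46 0 0, .n, .n, .n, .n])) (.G 211 1 1 8388607 8388607
  4194304 2097152 [.n, .n, .g 2 85 0 0, .g 1 46 0 0, .n, .n, .n, .n])))))
  (.G 53 506 3 1 1 1 1 [.n, .n, .n, .n, .g 13 62 0 0, .g 13 66 0 0])) (.B 1
  2 1 (.C 0 3 1 24 (.L 443) (.G 198 506 3 1 1 1 1 [.n, .n, .n, .n, .g 64 25
  0 0, .g 64 33 0 0])) (.C 0 3 1 24 (.B 1 1 2 (.L 443) (.C 2 3 2 1 (.C 0 2 1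
  1 (.B 2 8 1 (.B 1 1 4 (.L 443) (.G 1695 540 0 1 1 1 1 [.n, .g 19 63 0 0,
  .n, .n, .n, .n, .n, .g 1 44 0 0])) (.L 443)) (.L 198)) (.B 2 8 1 (.C 1 3 1
  2 (.B 1 1 4 (.L 443) (.G 1695 540 0 1 1 1 1 [.n, .g 17 65 0 0, .n, .n, .n,
  .n, .n, .g 1 62 0 0])) (.C 0 3 2 1 (.C 0 2 4 1 (.G 281 392 0 1 1 1 1 [.n,
  .n, .g 1 50 0 0, .g 1 47 0 0, .n, .n]) (.L 308)) (.L 1))) (.C 0 3 2 1 (.L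
  1740) (.G 1740 1 1 171 171 171 85 [.n, .n, .n, .n, .g 46 63 0 0, .g 21 32
  0 0]))))) (.G 315 506 3 1 1 1 1 [.n, .n, .n, .n, .g 23 63 0 0, .g 5 16 0
  0])))) (.C 2 3 1 24 (.C 1 2 1 4 (.C 1 3 1 2 (.G 1613 53 1 1 1 1 1 [.g 64
  47 0 0, .n, .n, .n, .n, .n]) (.L 561)) (.L 367)) (.C 1 3 1 95 (.B 1 1 8
  (.L 53) (.C 1 2 1 2 (.G 1613 208 1 16 63 127 126 [.n, .n, .n, .n, .g 3 34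
  0 0, .g 2 29 0 0]) (.L 234))) (.B 1 1 8 (.B 0 1 4 (.L 92) (.B 1 2 1 (.C 0
  3 1 24 (.G 540 79 1 38 297 75 75 [.g 9 16 0 0, .n, .n, .n, .n, .n]) (.L
  506)) (.L 20))) (.L 183))))))) (by decide +kernel)

theorem EN1_c75 : CoN ENTab ⟨⟨29, 31, 64⟩, ⟨3, 4, 8⟩, ⟨1, 1, 2⟩, ⟨164, 10,
  4, 0, 7⟩, ⟨40, 10, 4, 0, 7⟩, ⟨52, 13, 13, 2, 11⟩, ⟨100, 25, 25, 2, 23⟩⟩ :=
CoN.ofG ENTab_B ENBt_E ENBt_U (.B 1 1 4 (.C 0 3 3 2 (.C 2 3 8 1 (.L 57) (.B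
  0 1 8 (.B 0 2 1 (.L 992) (.G 280 17 1 32 16 393 195 [.n, .n, .g 5 67 0 0,
  .g 4 69 0 0, .n, .n])) (.G 280 380 1 32 16 393 195 [.g 64 51 0 0, .n, .g 1
  32 0 0, .g 1 38 0 0, .n, .n]))) (.B 0 1 8 (.C 0 2 1 8 (.C 1 3 3 1 (.G 280
  992 0 1 1 1 1 [.n, .g 4 63 0 0, .g 1 724 0 0, .g 2 1271 0 0, .n, .n]) (.C
  1 3 1 2 (.G 992 280 1 1 1 1 1 [.g 64 1 0 0, .n, .n, .n, .n, .n]) (.G 53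
  506 3 1 1 1 1 [.n, .n, .n, .n, .g 7 8 0 0, .g 46 63 0 0]))) (.C 2 3 2 1
  (.L 992) (.C 2 3 1 2 (.L 992) (.C 0 3 1 8 (.L 992) (.G 1351 296 2 1 1 1 1
  [.n, .n, .n, .n, .g 14 65 0 0, .g 13 64 0 0]))))) (.C 1 3 3 1 (.G 280 380
  1 195 16 25 98 [.g 64 51 0 0, .n, .g 1 46 0 0, .g 1 50 0 0, .n, .n]) (.C 0
  2 1 8 (.C 1 3 1 2 (.G 198 280 0 1 1 1 1 [.n, .n, .n, .n, .g 2 65 0 0, .g 2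
  73 0 0]) (.G 187 506 3 1 1 1 1 [.n, .n, .n, .n, .g 27 32 0 0, .g 25 32 0
  0, .n, .n])) (.G 187 90 2 1 1 1 1 [.n, .n, .n, .n, .g 7 67 0 0, .g 7 67 0
  0, .n, .g 7 66 0 0]))))) (.C 0 3 3 2 (.G 295 992 2 32 16 25 195 [.n, .g 8
  1 0 0, .n, .n]) (.C 2 3 2 1 (.G 2768 992 2 1 1 1 1 [.g 64 1 0 0, .n, .n,
  .n, .n, .n]) (.C 1 3 3 1 (.G 992 1613 0 1 1 1 1 [.n, .n, .g 1 14 0 0, .n,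
  .n, .n]) (.C 1 3 1 2 (.G 309 2768 0 1 1 1 1 [.n, .g 5 16 0 0, .n, .n, .n,
  .n, .g 2 317 0 0, .g 1 168 0 0]) (.C 0 2 1 2 (.G 506 920 2 63 64 127 16
  [.n, .n, .n, .g 9 62 0 0, .n, .n]) (.C 1 2 1 2 (.G 208 506 3 127 64 128 16
  [.g 64 11 0 0, .n, .g 64 11 0 0, .n, .n]) (.C 2 3 1 2 (.L 992) (.B 1 1 8
  (.L 234) (.G 1613 1023 3 127 128 64 16 [.n, .n, .n, .n, .g 16 63 0 0, .g 1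
  10 0 0])))))))))) (by decide +kernel)

theorem EN1_c76 : CoN ENTab ⟨⟨29, 31, 64⟩, ⟨3, 4, 8⟩, ⟨7, 8, 16⟩, ⟨164, 10,
  4, 0, 7⟩, ⟨40, 10, 4, 0, 7⟩, ⟨100, 25, 25, 2, 23⟩, ⟨228, 26, 20, 0, 23⟩⟩
  :=
CoN.ofG ENTab_B ENBt_E ENBt_U (.B 0 1 8 (.C 0 2 3 2 (.C 0 3 2 1 (.B 0 2 1
  (.G 2123 992 5 1 1 1 1 [.n, .g 64 7 0 0, .n, .n, .n, .n]) (.C 0 1 1 2 (.G
  392 1556 1 1 1 1 1 [.g 32 21 0 0, .n, .n, .n, .n, .n]) (.C 1 3 8 1 (.G 992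
  392 1 1 1 1 1 [.g 64 1 0 0, .n, .n, .n, .n, .n]) (.G 392 280 2 1 1 1 1 [.g
  32 1 0 0, .g 256 3 0 0, .n, .n, .n, .n])))) (.C 1 3 4 1 (.C 0 1 1 8 (.L 3)
  (.G 992 392 1 1 1 1 1 [.g 256 1 0 0, .n, .n, .n, .n, .n])) (.C 1 3 1 2 (.L
  3) (.C 0 3 1 2 (.L 3) (.C 1 3 1 4 (.L 3) (.C 2 3 1 3 (.L 3) (.C 2 3 1 6
  (.L 3) (.C 1 3 1 8 (.L 3) (.C 2 3 1 12 (.L 3) (.B 0 2 1 (.G 1008 3 5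
  1398101 5592405 8388607 349525 [.n, .n, .n, .n, .g 1 8258 0 0, .g 1 8746 0
  0, .n, .n]) (.B 0 1 2 (.L 446) (.C 2 3 1 24 (.L 793) (.P (.ofNat 6)
  (.ofNat 7)))))))))))))) (.C 1 3 4 1 (.C 1 2 3 1 (.G 2 992 0 2651 217 1332
  1753 [.n, .n, .n, .g 64 7 0 0, .g 4 1 0 0, .n]) (.G 53 2 1 63 32 16 42
  [.n, .g 64 1 0 0, .n, .n, .g 3 8 0 0, .g 1 4 0 0])) (.C 2 3 4 3 (.G 540 2
  1 63 42 16 127 [.n, .g 16 1 0 0, .n, .n, .g 2 11 0 0, .g 11 65 0 0]) (.C 2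
  3 1 6 (.L 3) (.C 1 3 1 2 (.L 3) (.C 1 3 1 4 (.L 3) (.C 0 3 1 3 (.L 3) (.C
  1 3 1 8 (.L 3) (.B 0 2 1 (.L 228) (.B 0 1 2 (.L 22) (.C 0 3 1 6 (.L 36)
  (.C 0 3 1 12 (.L 10) (.C 0 3 1 24 (.L 10) (.C 2 3 1 12 (.L 10) (.B 1 1 8
  (.C 0 3 1 48 (.L 10) (.B 0 1 4 (.L 10) (.G 3979 1 5 8046128 1341021
  2016770 83814 [.n, .n, .n, .n, .n, .n, .g 1 4720 0 0, .g 1 4993 0 0])))
  (.L 10)))))))))))))))) (.C 0 2 3 2 (.B 1 2 1 (.B 0 1 16 (.C 1 3 4 1 (.G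
  280 1461 1 32 16 195 129 [.g 32 11 0 0, .n, .g 1 28 0 0, .n, .n, .n]) (.C
  0 3 2 1 (.C 0 2 6 1 (.G 3 50 1 7581 30797 91917 30797 [.n, .n, .g 256 5 0
  0, .n, .g 32 1 0 0, .n]) (.G 966 2 3 6 2 3 2 [.n, .g 25 32 0 0, .n, .n,
  .n, .n, .n, .n])) (.B 1 1 8 (.C 1 3 1 2 (.G 1678 2 3 2 2 3 4 [.g 32 11 0
  0, .n, .n, .n, .g 11 65 0 0, .n]) (.G 4 2 5 1428 2855 2141 714 [.n, .n, .g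
  33 64 0 0, .n, .n, .g 16 3 0 0])) (.G 4 2 5 2315 2315 3472 1157 [.n, .n,
  .g 21 64 0 0, .n, .n, .g 4 1 0 0])))) (.C 0 3 2 1 (.G 394 950 0 7773 3886
  47364 31333 [.n, .g 64 31 0 0, .n, .n, .n, .n, .n, .n]) (.C 1 3 4 1 (.G
  394 950 0 31333 3886 47364 31333 [.n, .g 64 31 0 0, .n, .n, .n, .n, .n,
  .n]) (.G 448 4 2 2844188 2844188 4266282 1422094 [.n, .g 2 73 0 0, .g 2
  4111 0 0, .g 2 4329 0 0, .n, .n])))) (.C 0 3 2 1 (.G 2 50 1 11522 5761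
  70210 46446 [.n, .n, .n, .g 256 5 0 0, .g 64 3 0 0, .n]) (.C 1 3 4 1 (.C 0
  1 1 8 (.L 280) (.G 992 2955 1 1 1 1 1 [.g 64 1 0 0, .n, .n, .n, .n, .n]))
  (.C 0 3 1 2 (.L 3) (.C 1 3 1 2 (.L 3) (.C 1 3 1 4 (.L 3) (.C 2 3 1 3 (.L
  3) (.G 793 4 5 4194304 8388607 6291455 1048576 [.g 1 684 0 0, .n, .g 1
  42538 0 0, .g 1 43445 0 0, .n, .n])))))))) (.C 1 2 3 1 (.C 1 3 4 1 (.G 3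
  380 1 32557 2671 16362 21537 [.n, .n, .g 64 3 0 0, .n, .g 64 7 0 0, .n])
  (.C 2 3 2 3 (.G 950 280 0 16098 10564 8049 32196 [.g 128 1 0 0, .n, .g 64
  59 0 0, .g 64 59 0 0, .n, .n, .n, .n, .n, .n]) (.C 1 3 1 2 (.B 1 2 1 (.B 0
  1 16 (.G 2 2868 5 3 2 6 4 [.n, .n, .n, .g 16 1 0 0, .n, .n]) (.G 1888 950
  0 3117684 2078456 6235367 4156911 [.n, .n, .n, .n, .n, .n, .g 2 73 0 0, .g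
  2 63 0 0])) (.L 3)) (.C 0 3 1 3 (.G 778 2 3 16 21 32 32 [.n, .n, .n, .n,
  .g 1 63 0 0, .g 1 68 0 0]) (.C 1 3 1 4 (.G 721 2 3 4378033 2918689 4378033
  5837378 [.n, .n, .g 1 507 0 0, .g 1 794 0 0, .n, .n, .g 1 1439 0 0, .g 1
  1568 0 0]) (.B 1 2 1 (.L 1) (.C 2 3 1 6 (.L 3) (.G 36 4 5 2949007 3932009
  5898013 491501 [.n, .n, .g 1 5366 0 0, .g 1 5682 0 0, .n, .n])))))))) (.C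
  2 3 4 3 (.C 1 2 1 2 (.C 1 2 2 1 (.G 198 4 2 32 16 64 65 [.n, .n, .n, .n,
  .g 2 73 0 0, .g 1 39 0 0]) (.L 506)) (.G 187 301 3 1 1 1 1 [.n, .n, .n,
  .n, .g 16 11 0 0, .g 32 25 0 0, .n, .n])) (.C 1 3 2 3 (.G 198 1 3 32 16 65
  64 [.n, .n, .n, .n, .g 1 46 0 0, .g 1 52 0 0]) (.C 0 3 1 3 (.L 1) (.B 1 2
  1 (.L 1) (.C 1 3 1 6 (.L 3) (.G 489 4 5 4194304 8388607 4237994 699051 [.g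
  1 83 0 0, .n, .n, .n, .n, .n, .g 1 21942 0 0, .g 1 22884 0 0])))))))))
  (by decide +kernel)

theorem EN1_c77 : CoN ENTab ⟨⟨29, 31, 64⟩, ⟨3, 4, 8⟩, ⟨7, 8, 16⟩, ⟨228, 26,
  20, 0, 23⟩, ⟨40, 10, 4, 0, 7⟩, ⟨100, 25, 25, 2, 23⟩, ⟨4, 1, 1, 0, 1⟩⟩ :=
CoN.ofG ENTab_B ENBt_E ENBt_U (.C 0 1 1 4 (.C 1 2 2 5 (.C 1 3 1 63 (.B 0 1 8
  (.C 1 3 2 1 (.C 0 1 2 1 (.C 0 3 8 1 (.C 0 1 4 1 (.C 0 2 8 1 (.C 0 1 8 1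
  (.C 0 3 16 1 (.B 0 2 1 (.L 22) (.B 0 1 2 (.L 36) (.C 0 2 16 1 (.C 0 2 32 1
  (.C 0 2 64 1 (.P (.ofNat 5) (.ofNat 6)) (.L 10)) (.L 10)) (.L 10)))) (.L
  3)) (.L 3)) (.L 3)) (.L 3)) (.L 3)) (.L 3)) (.C 1 3 1 2 (.C 0 2 8 1 (.C 0
  1 8 1 (.C 0 2 16 1 (.C 0 2 32 1 (.C 0 1 16 1 (.B 0 2 1 (.L 716) (.B 0 1 2
  (.L 36) (.B 1 1 8 (.C 0 2 64 1 (.P (.ofNat 5) (.ofNat 6)) (.L 10)) (.L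
  10)))) (.L 3)) (.L 3)) (.L 3)) (.L 3)) (.L 3)) (.B 0 2 1 (.G 22 2 5 526344
  8388607 4079166 2105376 [.n, .n, .n, .n, .g 1 10245 0 0, .g 1 11165 0 0])
  (.C 2 3 1 2 (.C 0 2 8 1 (.B 0 1 2 (.L 36) (.C 0 2 16 1 (.C 0 3 16 1 (.B 1
  1 8 (.C 0 3 32 1 (.C 0 2 32 1 (.C 0 2 64 1 (.C 0 3 64 1 (.P (.ofNat 5)
  (.ofNat 6)) (.L 10)) (.L 10)) (.L 10)) (.L 10)) (.L 10)) (.L 10)) (.L
  10))) (.L 3)) (.B 0 1 2 (.L 36) (.B 1 1 8 (.B 0 1 4 (.L 10) (.B 1 2 1 (.G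
  10 4 5 526344 8388607 8289918 2105376 [.n, .n, .g 1 20676 0 0, .g 1 21584
  0 0, .n, .n]) (.L 10))) (.L 10))))))) (.C 1 3 2 1 (.B 1 2 1 (.C 0 1 2 1
  (.B 0 1 16 (.G 2 4 5 335 1338 2593 2656 [.n, .n, .n, .n, .n, .g 13 66 0
  0]) (.G 996 4 2 667680 2670720 5174520 5299710 [.n, .n, .g 1 992 0 0, .g 1
  1041 0 0, .n, .n, .n, .n, .n, .n])) (.G 966 3 2 32 16 63 64 [.n, .g 1 7 0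
  0, .n, .n, .g 1 288 0 0, .g 1 278 0 0, .n, .n])) (.C 0 1 2 1 (.C 0 1 4 1
  (.C 0 2 8 1 (.C 0 3 8 1 (.G 36 1 5 526321 4210571 8289562 8388248 [.n, .n,
  .g 1 5166 0 0, .g 1 5471 0 0, .n, .n]) (.L 3)) (.L 3)) (.L 3)) (.L 3)))
  (.C 2 3 1 2 (.B 1 2 1 (.C 1 2 1 1 (.B 0 1 16 (.G 2 4 5 304 2414 4790 4790
  [.n, .n, .n, .n, .n, .g 13 66 0 0]) (.G 778 4 2 16 127 252 252 [.n, .n,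
  .n, .n, .g 1 158 0 0, .g 1 177 0 0])) (.L 1)) (.C 0 2 8 1 (.C 0 1 8 1 (.G
  36 4 5 526321 8388248 8289562 8289562 [.n, .n, .g 1 5166 0 0, .g 1 5471 0
  0, .n, .n]) (.L 3)) (.L 3))) (.C 1 3 1 2 (.C 0 1 8 1 (.G 36 4 5 480350
  7655573 7565507 7655573 [.n, .n, .g 1 5177 0 0, .g 1 5482 0 0, .n, .n])
  (.L 3)) (.G 36 4 5 526344 8388607 8289918 2105376 [.n, .n, .g 1 5177 0 0,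
  .g 1 5482 0 0, .n, .n]))))) (.B 0 1 8 (.C 2 3 1 245 (.C 1 2 2 1 (.B 0 2 1
  (.L 228) (.B 0 1 2 (.L 22) (.C 1 3 4 1 (.B 1 1 8 (.L 124) (.L 10)) (.G 348
  1 5 266305 8388607 4194304 4144371 [.n, .n, .n, .n, .g 1 30586 0 0, .g 1
  32044 0 0, .n, .n])))) (.B 0 2 1 (.G 211 2 5 532610 8388607 4127727
  8288743 [.n, .n, .n, .n, .n, .n, .g 1 14280 0 0, .g 1 15194 0 0]) (.C 0 2
  8 1 (.B 0 1 2 (.L 22) (.C 0 3 16 1 (.L 348) (.G 468 4 5 8388607 4194304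
  4194304 4194304 [.n, .n, .n, .n, .n, .n, .n, .n, .g 1 43556 0 0, .g 1
  45530 0 0]))) (.G 468 1 5 8388607 8388607 4194304 8388607 [.n, .n, .n, .n,
  .n, .n, .n, .n, .g 1 31164 0 0, .g 1 32642 0 0])))) (.B 0 2 1 (.C 1 3 1
  126 (.G 596 463 3 539027 2156108 8388607 4312216 [.n, .n, .g 1 33 0 0, .g
  2 67 0 0, .n, .n, .n, .n, .n, .n]) (.C 0 3 1 32 (.C 0 3 2 1 (.C 0 1 8 1
  (.G 755 29 2 524288 8388607 8159231 2097152 [.n, .n, .n, .n, .n, .n, .g 2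
  69 0 0, .g 1 36 0 0, .n, .n]) (.L 29)) (.L 29)) (.L 736))) (.C 0 3 1 32
  (.C 1 2 4 1 (.B 0 1 2 (.C 1 3 1 2 (.C 2 3 1 4 (.L 402) (.C 1 3 2 1 (.L
  402) (.G 755 263 1 131974 2111586 8388607 1055793 [.n, .n, .n, .n, .n, .n,
  .g 1 61 0 0, .g 1 64 0 0, .n, .n]))) (.C 0 3 2 1 (.C 0 2 31 1 (.C 0 2 62 1
  (.P (.ofNat 6) (.ofNat 7)) (.L 15)) (.L 253)) (.L 253))) (.C 1 2 8 1 (.B 1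
  1 8 (.L 348) (.C 1 2 16 1 (.P (.ofNat 9) (.ofNat 10)) (.L 348))) (.L
  348))) (.C 0 2 16 1 (.B 0 1 2 (.G 1008 23 2 265778 8371996 8388607 531555
  [.n, .n, .g 6 65 0 0, .g 2 23 0 0, .n, .n, .g 3 59 0 0, .g 3 62 0 0]) (.L
  348)) (.G 864 301 5 16596 16596 8165 1062 [.n, .n, .n, .n, .g 64 13 0 0,
  .g 64 13 0 0, .n, .n]))) (.C 1 3 1 126 (.C 0 1 2 1 (.G 477 301 5 37 146
  281 144 [.n, .n, .n, .n, .g 59 64 0 0, .g 57 64 0 0, .n, .n, .n, .n]) (.C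
  1 2 4 1 (.C 1 2 8 1 (.C 1 3 2 1 (.C 0 1 1 2 (.L 15) (.C 1 3 4 1 (.B 0 1 2
  (.L 10) (.C 1 2 16 1 (.P (.ofNat 5) (.ofNat 6)) (.L 21))) (.L 15))) (.L
  15)) (.L 15)) (.G 417 301 5 7923 31198 15351 7923 [.n, .n, .n, .n, .n, .n,
  .g 8 1 0 0, .g 64 9 0 0]))) (.L 736))))) (.B 1 2 1 (.L 1) (.B 1 1 2 (.L 1)
  (.C 1 3 1 126 (.C 1 2 2 1 (.C 1 2 4 1 (.C 1 2 8 1 (.C 1 2 16 1 (.P (.ofNat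
  8) (.ofNat 9)) (.L 348)) (.L 348)) (.L 348)) (.G 348 4 5 532610 8388607
  4127727 4260880 [.n, .n, .n, .n, .g 1 5747 0 0, .g 1 6163 0 0, .n, .n]))
  (.C 0 3 1 32 (.G 348 1 5 1048576 8388607 8126463 2097152 [.n, .n, .n, .n,
  .g 1 4138 0 0, .g 1 4530 0 0, .n, .n]) (.L 736))))))) (.C 0 2 3 4 (.C 0 2
  6 1 (.C 0 3 1 32 (.B 0 1 8 (.B 0 2 1 (.C 1 3 1 4 (.G 211 2 5 530505
  4111412 6399214 8388607 [.n, .n, .n, .n, .n, .n, .g 1 21811 0 0, .g 1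
  23038 0 0]) (.G 308 902 3 530505 8388607 6399214 1061010 [.n, .n, .n, .n,
  .n, .n, .g 1 178 0 0, .g 1 185 0 0])) (.C 0 2 12 1 (.C 0 3 2 1 (.C 0 1 8 1
  (.B 0 1 2 (.C 0 3 4 1 (.L 22) (.L 15)) (.L 459)) (.L 273)) (.L 273)) (.G
  477 301 5 37139 12056 18667 3111 [.n, .n, .n, .n, .n, .n, .n, .n, .n, .g
  32 3 0 0]))) (.G 348 4 5 218852 1696105 2639906 437705 [.g 1 185 0 0, .n,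
  .n, .n, .g 1 22868 0 0, .g 1 23864 0 0, .n, .n])) (.L 736)) (.L 736)) (.C
  2 3 1 24 (.C 1 2 1 10 (.L 736) (.G 79 506 3 127 323 16 32 [.n, .g 3 1
  14220 0, .g 64 7 0 0, .n, .n])) (.L 736)))) (.C 0 3 1 63 (.C 1 3 16 1 (.C
  0 1 1 8 (.B 0 1 8 (.C 0 2 2 5 (.L 992) (.C 1 2 1 5 (.L 992) (.G 53 2 1 195
  195 19 199 [.n, .g 64 1 0 0, .n, .n, .g 45 64 0 0, .g 23 63 0 0]))) (.C 0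
  2 2 5 (.G 950 280 0 5772 11544 22728 23088 [.g 64 3 0 0, .n, .g 31 32 0 0,
  .g 15 16 0 0, .n, .n, .n, .n, .n, .n]) (.G 2 90 2 6602 3362 648 6723 [.n,
  .g 16 3 0 0, .n, .g 512 1 0 0, .n, .n]))) (.G 992 110 0 1 1 1 1 [.g 32 1 0
  0, .n, .n, .n, .g 13 66 0 0, .g 9 65 0 0])) (.C 2 3 5 1 (.C 0 2 2 5 (.B 1
  2 1 (.B 0 1 8 (.L 3) (.C 0 3 4 1 (.G 280 966 1 1 1 1 1 [.g 64 13 0 0, .n,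
  .n, .n, .n, .n]) (.G 2 90 2 66 33 33 33 [.n, .n, .n, .g 64 19 0 0, .n,
  .n]))) (.L 3)) (.C 1 2 1 10 (.G 3 110 0 69 69 138 69 [.n, .n, .g 8 1 0 0,
  .n, .n, .n]) (.G 301 110 0 1 1 1 1 [.n, .n, .n, .g 1 29 0 0, .n, .n])))
  (.C 0 3 2 1 (.B 1 2 1 (.B 0 1 8 (.L 3) (.C 0 2 4 1 (.G 448 2 3 1056832
  4227330 8388607 4227330 [.n, .n, .g 1 1771 0 0, .g 1 1866 0 0, .n, .n])
  (.B 0 1 16 (.L 3) (.G 448 4 2 8388607 4194304 4194304 4194304 [.n, .g 1 55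
  0 0, .g 1 1329 0 0, .g 1 1393 0 0, .n, .n])))) (.L 3)) (.C 1 3 1 2 (.B 1 2
  1 (.B 0 1 8 (.L 3) (.C 0 1 1 1 (.C 1 2 1 2 (.G 950 2 3 2130440 4260880
  8388607 4260880 [.n, .n, .g 1 855 0 0, .g 1 900 0 0, .n, .n, .n, .n, .n,
  .n]) (.L 3)) (.L 61))) (.L 3)) (.B 0 1 8 (.C 0 3 1 2 (.L 3) (.C 1 3 1 4
  (.L 3) (.B 0 2 1 (.G 2 716 1 1405521 2811041 680799 351380 [.n, .n, .n,
  .n, .n, .g 2048 5 0 0]) (.G 22 1 5 4194304 8388607 2031616 1048576 [.n,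
  .n, .g 1 20426 0 0, .g 1 21315 0 0, .n, .n])))) (.B 1 2 1 (.G 4 2 5 16418
  32836 15905 8209 [.n, .n, .g 5 21 0 0, .n, .n, .g 64 15 0 0]) (.C 0 3 1 2
  (.L 3) (.C 1 3 1 4 (.L 3) (.G 36 4 5 4194304 8388607 2031616 1048576 [.n,
  .g 2 23 0 0, .g 1 5139 0 0, .g 1 5447 0 0, .n, .n]))))))))) (.C 0 3 1 126
  (.C 0 1 1 16 (.B 0 1 8 (.C 1 3 1 1 (.C 0 2 1 5 (.C 0 1 2 1 (.C 0 1 4 1 (.B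
  0 2 1 (.G 228 716 1 351380 2811041 680799 1405521 [.g 8 1 0 0, .n, .n, .n,
  .n, .n, .n, .n]) (.G 22 4 5 1048576 8388607 2031616 4194304 [.n, .n, .g 1
  20426 0 0, .g 1 21315 0 0, .n, .n])) (.L 3)) (.L 3)) (.G 2 7 4 10261 10386
  1001 20898 [.n, .g 16 3 0 0, .n, .n, .n, .n])) (.C 2 3 10 1 (.B 0 2 1 (.G
  149 716 1 410337 1631579 78159 1602269 [.g 4 3 0 0, .n, .n, .n, .n, .n])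
  (.B 0 1 2 (.L 1008) (.B 1 1 8 (.C 0 2 1 5 (.G 22 1 5 2097152 8388607
  4063232 8257535 [.n, .n, .g 1 20426 0 0, .g 1 21315 0 0, .n, .n]) (.L 7))
  (.L 2828)))) (.B 0 2 1 (.G 791 215 0 2097152 8388607 8257535 4194304 [.n,
  .g 35 64 0 0, .g 1 63 0 0, .g 1 66 0 0, .n, .n, .n, .n, .n, .n]) (.C 1 2 1
  1 (.C 1 3 1 2 (.B 0 1 2 (.L 22) (.B 1 1 8 (.C 2 3 1 1 (.B 0 1 4 (.L 10)
  (.G 10 4 5 526344 2105376 4177855 8388607 [.n, .n, .g 1 20322 0 0, .g 1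
  21219 0 0, .n, .n])) (.C 1 2 4 1 (.B 0 1 4 (.C 2 3 1 4 (.L 10) (.P (.ofNat
  5) (.ofNat 6))) (.C 2 3 1 4 (.G 793 4 5 131328 525314 4186095 8388607 [.n,
  .n, .g 1 37740 0 0, .g 1 38561 0 0, .n, .n]) (.P (.ofNat 5) (.ofNat 6))))
  (.L 21))) (.C 2 3 1 1 (.L 10) (.C 2 3 1 2 (.L 10) (.C 2 3 1 4 (.L 10) (.P
  (.ofNat 6) (.ofNat 7))))))) (.C 0 2 8 1 (.C 0 2 16 1 (.C 0 3 2 1 (.C 0 3 4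
  1 (.B 0 1 2 (.L 10) (.C 0 2 32 1 (.P (.ofNat 5) (.ofNat 6)) (.L 21))) (.L
  15)) (.L 15)) (.L 15)) (.L 273))) (.C 0 2 4 1 (.C 0 2 8 1 (.C 0 1 8 1 (.C
  0 1 16 1 (.C 0 2 16 1 (.C 0 3 2 1 (.C 0 3 4 1 (.B 0 1 2 (.L 10) (.C 0 1 32
  1 (.C 0 2 32 1 (.P (.ofNat 5) (.ofNat 6)) (.L 21)) (.L 21))) (.L 15)) (.L
  15)) (.L 15)) (.L 15)) (.L 101)) (.L 101)) (.L 736)))))) (.C 0 2 1 5 (.C 0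
  1 2 1 (.B 1 2 1 (.B 0 1 16 (.G 3 4 5 904 3616 1751 1808 [.n, .n, .n, .n,
  .n, .g 13 62 0 0]) (.L 1)) (.C 1 2 1 2 (.C 1 3 1 2 (.C 0 1 4 1 (.G 10 4 5
  1048576 8388607 8257535 8388607 [.n, .n, .g 1 21147 0 0, .g 1 22067 0 0,
  .n, .n]) (.C 1 3 2 1 (.L 3) (.G 10 1 5 4194304 8388607 4194304 4194304
  [.n, .n, .g 1 20834 0 0, .g 1 21757 0 0, .n, .n]))) (.B 1 1 2 (.L 1) (.B 2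
  8 1 (.B 1 1 4 (.L 15) (.B 1 1 8 (.L 15) (.B 2 16 1 (.C 2 3 1 4 (.L 10) (.C
  1 2 2 1 (.C 2 3 1 16 (.B 1 1 16 (.L 459) (.B 2 32 1 (.C 1 3 8 1 (.L 10)
  (.G 556 253 0 65568 8388607 2094078 4196353 [.n, .n, .g 3 76 0 0, .g 1 26
  0 0, .n, .n, .n, .n])) (.L 459))) (.C 0 2 64 1 (.P (.ofNat 8) (.ofNat 9))
  (.C 1 2 8 1 (.P (.ofNat 8) (.ofNat 9)) (.L 23)))) (.G 10 253 0 262657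
  8388607 4186095 525314 [.n, .g 64 21 0 0, .g 3 68 0 0, .g 3 71 0 0, .n,
  .n]))) (.L 15)))) (.L 15)))) (.B 1 1 2 (.L 1) (.C 0 2 2 1 (.B 2 8 1 (.C 0
  1 8 1 (.C 0 2 4 1 (.C 0 2 8 1 (.C 0 1 16 1 (.C 0 1 32 1 (.C 0 2 16 1 (.P
  (.ofNat 8) (.ofNat 9)) (.L 15)) (.L 15)) (.L 15)) (.L 15)) (.L 278)) (.L
  278)) (.L 159)) (.G 15 4 5 4129776 8388607 2064888 2064888 [.n, .n, .n,
  .n, .g 1 13446 0 0, .g 1 14328 0 0]))))) (.B 1 2 1 (.L 7) (.C 1 3 1 1 (.L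
  3) (.C 0 3 1 2 (.C 0 3 2 1 (.L 3) (.G 402 7 4 356099 89704 43493 176690
  [.g 1024 1 0 0, .n, .n, .n, .n, .n, .g 32 15 0 0, .g 64 33 0 0])) (.C 1 3
  1 2 (.B 1 1 2 (.L 7) (.G 402 7 4 105141 53379 25881 105141 [.n, .n, .n,
  .n, .n, .n, .g 64 49 0 0, .g 64 53 0 0])) (.B 1 1 2 (.L 1) (.C 0 2 1 4 (.C
  0 2 2 1 (.B 2 8 1 (.C 0 2 4 1 (.B 1 1 4 (.L 15) (.C 0 2 8 1 (.P (.ofNat 8)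
  (.ofNat 9)) (.L 15))) (.L 15)) (.L 15)) (.L 101)) (.G 15 4 5 8388607
  4226817 1040447 1040447 [.n, .n, .n, .n, .g 1 13446 0 0, .g 1 14328 0
  0])))))))) (.C 2 3 10 1 (.L 7) (.B 1 2 1 (.L 7) (.C 1 3 1 1 (.L 7) (.C 2 3
  1 2 (.L 7) (.C 1 3 1 2 (.B 1 1 2 (.L 7) (.C 0 3 4 1 (.L 7) (.B 2 8 1 (.B 1
  1 4 (.L 7) (.G 468 7 4 3419320 868399 1736798 1736798 [.n, .n, .g 64 13 0
  0, .g 64 13 0 0, .n, .n, .g 4 1 0 0, .g 64 17 0 0, .n, .n])) (.L 7)))) (.G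
  15 4 5 2064888 8388607 8388607 2064888 [.n, .n, .n, .n, .g 1 18191 0 0, .g
  1 19109 0 0])))))))) (.C 1 3 32 1 (.L 7) (.B 0 1 8 (.C 2 3 10 1 (.C 0 3 2
  1 (.L 7) (.G 311 419 3 1 1 1 1 [.g 32 19 0 0, .g 17 32 0 0, .n, .n, .g 1
  107 0 0, .g 1 124 0 0])) (.C 0 3 1 1 (.C 0 2 2 1 (.L 3) (.B 0 2 1 (.G 596
  2 5 8388607 4194304 4194304 4194304 [.g 3 76 0 0, .n, .n, .n, .n, .n, .n,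
  .n, .g 1 4219 0 0, .g 1 4543 0 0]) (.L 7))) (.C 1 3 1 2 (.B 0 2 1 (.G 596
  2 5 4067203 4067203 4067203 8388607 [.g 1 47 0 0, .n, .n, .n, .n, .n, .n,
  .n, .g 1 4538 0 0, .g 1 4910 0 0]) (.L 7)) (.B 0 2 1 (.G 716 215 0 4194304
  8388607 4063232 2097152 [.n, .g 4 7 0 0, .g 1 72 0 0, .g 1 76 0 0, .n, .n,
  .n, .n, .n, .n]) (.C 0 3 1 2 (.G 22 416 1 411850 849441 411850 849441 [.n,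
  .g 256 1 0 0, .g 64 11 0 0, .g 16 3 0 0, .n, .n]) (.C 1 3 1 4 (.G 755 7 4
  702233 702233 340477 1383187 [.g 256 1 0 0, .n, .n, .n, .n, .n, .g 4 1 0
  0, .g 4 1 0 0, .n, .n]) (.G 417 7 4 2971937 5943874 1439532 742984 [.n,
  .n, .n, .n, .g 256 3 0 0, .g 256 3 0 0, .g 16 1 0 0, .g 16 1 0 0])))))))
  (.C 2 3 10 1 (.L 7) (.B 1 2 1 (.L 7) (.C 1 3 1 2 (.L 7) (.C 0 3 1 1 (.L 7)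
  (.C 2 3 1 2 (.L 7) (.C 1 3 1 4 (.B 1 1 2 (.L 7) (.G 15 7 4 257110 514220
  514220 1028439 [.n, .n, .g 61 64 0 0, .g 29 32 0 0, .g 16 5 0 0, .g 64 21
  0 0])) (.B 1 1 2 (.G 1 210 2 32 128 63 16 [.n, .n, .n, .n, .n, .g 64 1 0
  0]) (.C 0 2 2 1 (.G 1044 356 3 136441 545765 541501 68221 [.n, .n, .g 256
  149 0 0, .g 128 81 0 0, .n, .n, .g 64 47 0 0, .g 32 25 0 0, .n, .n]) (.G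
  417 1 5 8323071 8388607 4128768 1048576 [.n, .n, .n, .n, .n, .n, .g 1
  19137 0 0, .g 1 20095 0 0])))))))))))) (.C 0 1 1 32 (.B 0 1 8 (.C 0 2 1 10
  (.C 0 1 2 1 (.C 1 2 1 2 (.C 1 3 1 1003 (.C 0 1 4 1 (.G 64 193 0 1048576
  8388607 8257535 8388607 [.n, .n, .g 2 35 0 0, .g 4 73 0 0, .n, .n, .n,
  .n]) (.B 0 2 1 (.G 596 215 0 8388607 4194304 8388607 8388607 [.n, .n, .g 1
  27 0 0, .g 2 59 0 0, .n, .n, .n, .n, .n, .n]) (.B 0 1 2 (.G 1008 7 4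
  169110 84555 169110 169110 [.n, .n, .g 4 1 0 0, .g 64 17 0 0, .n, .n, .g
  32 19 0 0, .g 8 5 0 0]) (.L 905)))) (.G 864 301 5 2098 16728 16561 8 [.n,
  .g 256 1 0 0, .n, .n, .g 32 7 0 0, .g 64 15 0 0, .n, .n])) (.L 736)) (.C 1
  3 1 500 (.B 0 2 1 (.B 2 4 1 (.L 7) (.B 0 4 1 (.C 1 3 2 1 (.C 1 2 1 1 (.L
  3) (.G 596 3 5 4258831 4129776 2064888 8388607 [.n, .n, .n, .n, .n, .n,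
  .n, .n, .g 1 2308 0 0, .g 1 2437 0 0])) (.G 596 397 3 82002 161520 39759
  82002 [.n, .n, .n, .n, .n, .n, .n, .n, .g 64 55 0 0, .g 32 29 0 0])) (.L
  7))) (.L 7)) (.C 0 3 1 1003 (.B 0 2 1 (.G 596 215 0 4258831 4258831
  2064888 8388607 [.n, .n, .g 1 25 0 0, .g 2 55 0 0, .n, .n, .n, .n, .n,
  .n]) (.L 7)) (.G 420 193 0 6329 3154 1551 3 [.n, .g 8 5 0 0, .n, .n]))))
  (.B 0 2 1 (.C 1 3 1 500 (.C 0 2 1 20 (.G 596 420 1 55992 55992 111983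
  115483 [.g 64 1 0 0, .n, .n, .n, .n, .n, .n, .n, .g 57 64 0 0, .g 53 64 0
  0]) (.L 168)) (.G 506 485 2 1 1 1 1 [.n, .n, .n, .g 1 49 0 0, .g 1 25 0 0,
  .g 1 109 0 0])) (.L 414))) (.C 0 2 1 10 (.B 1 2 1 (.L 419) (.C 0 1 2 1 (.C
  0 1 4 1 (.B 1 1 2 (.L 1) (.C 1 2 1 4 (.G 15 506 5 953 7613 15066 4 [.n, .g
  64 1 0 0, .n, .n, .g 64 37 0 0, .g 8 5 0 0]) (.L 736))) (.L 419)) (.L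
  170))) (.L 414))) (.G 414 150 0 1 1 1 1 [.n, .n, .g 1 0 18537 0, .n,
  .n]))))) (by decide +kernel)

theorem EN1_c78 : CoN ENTab ⟨⟨29, 31, 64⟩, ⟨7, 8, 16⟩, ⟨1, 1, 2⟩, ⟨164, 10,
  4, 0, 7⟩, ⟨40, 10, 4, 0, 7⟩, ⟨100, 25, 25, 2, 23⟩, ⟨4, 1, 1, 0, 1⟩⟩ :=
CoN.ofG ENTab_B ENBt_E ENBt_U (.B 1 1 8 (.C 1 3 1 8 (.C 1 2 3 1 (.C 1 3 2 1
  (.G 2768 992 2 1 1 1 1 [.g 8 1 0 0, .n, .n, .n, .n, .n]) (.C 0 3 1 1 (.G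
  1613 992 2 1 1 1 1 [.g 8 1 0 0, .n, .n, .n, .n, .n]) (.L 3))) (.C 0 2 3 2
  (.C 0 3 1 1 (.G 992 3467 9 1 1 1 1 [.n, .n, .g 4 1 0 0, .n, .n, .n]) (.L
  3)) (.G 311 2 1 13 7 3 2 [.n, .g 67 1 32697 0, .n, .n, .g 64 55 0 0, .g 16
  15 0 0]))) (.C 0 2 3 2 (.C 0 3 1 16 (.C 0 3 2 1 (.C 0 1 1 1 (.G 992 1351 0
  1 1 1 1 [.n, .n, .g 33 64 0 0, .n, .n, .g 9 68 0 0]) (.L 3)) (.C 1 3 2 1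
  (.L 3) (.C 0 3 1 2 (.L 3) (.G 1297 3 5 2229136 1114568 1671852 557284 [.n,
  .n, .n, .n, .g 1 1308 0 0, .g 1 1363 0 0, .n, .n, .g 1 5799 0 0, .g 1 6642
  0 0])))) (.C 2 3 1 95 (.G 1008 2 5 1390857 695429 4172571 8388607 [.n, .n,
  .n, .n, .g 1 6149 0 0, .g 1 6484 0 0, .n, .n]) (.C 1 3 1 16 (.C 1 3 2 1
  (.C 1 2 12 1 (.G 596 3 5 259925 129962 3127220 519850 [.n, .n, .n, .n, .n,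
  .n, .n, .n, .g 1 3879 0 0, .g 1 4137 0 0]) (.L 1008)) (.G 308 215 0
  1398101 2796202 8388607 1398101 [.n, .n, .n, .n, .n, .n, .g 1 79 0 0, .g 1
  81 0 0])) (.C 0 3 1 32 (.G 308 29 2 1398101 1398101 8388607 2796202 [.n,
  .n, .n, .n, .n, .n, .g 1 79 0 0, .g 1 80 0 0]) (.L 193))))) (.C 1 2 3 2
  (.C 1 3 1 16 (.C 1 3 2 1 (.L 3) (.C 0 3 1 3 (.L 3) (.C 2 3 1 3 (.L 3) (.G
  755 215 0 8388607 2796202 8388607 1398101 [.n, .n, .n, .n, .n, .n, .g 1 48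
  0 0, .g 1 50 0 0, .n, .n])))) (.C 1 3 1 32 (.C 1 2 3 1 (.G 273 353 1
  4194304 1398101 8388607 2796202 [.n, .n, .n, .n, .n, .n, .g 2 57 0 0, .g 2
  59 0 0]) (.L 736)) (.L 506))) (.G 311 301 3 1 1 1 1 [.n, .n, .n, .n, .g 55
  64 0 0, .g 55 63 0 0])))) (.C 1 3 1 8 (.C 0 2 3 2 (.G 137 2 4 6471 3236
  39435 6674 [.g 8 61 0 0, .g 5 21 0 0, .n, .n]) (.C 1 2 3 1 (.G 1613 3 4
  195 16 98 33 [.n, .n, .n, .n, .g 1 107 0 0, .g 1 128 0 0]) (.C 0 2 1 4 (.L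
  2) (.C 2 3 2 3 (.G 920 2 1 450286 113458 56729 226916 [.n, .g 64 13 0 0,
  .g 64 19 0 0, .n, .n]) (.L 2))))) (.C 1 2 3 2 (.G 311 1726 1 1 1 1 1 [.n,
  .g 5 21 0 0, .n, .n, .n, .n]) (.B 2 32 1 (.C 0 2 3 2 (.G 1388 688 3 1 1 1
  1 [.n, .g 64 1 0 0, .n, .n, .n, .n]) (.G 332 869 0 322035 324591 81787
  3408 [.g 64 25 0 0, .g 32 3 0 0, .n, .n, .n])) (.L 309)))))
  (by decide +kernel)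

theorem EN1_c79 : CoN ENTab ⟨⟨13, 15, 32⟩, ⟨3, 4, 8⟩, ⟨29, 31, 64⟩, ⟨1, 0,
  0, 0, 0⟩, ⟨164, 10, 4, 0, 7⟩, ⟨52, 13, 13, 2, 11⟩, ⟨20, 1, 1, 0, 1⟩⟩ :=
CoN.ofG ENTab_B ENBt_E ENBt_U (.C 0 2 192 1 (.C 0 1 248 1 (.C 1 3 1 16 (.C 0
  2 384 1 (.C 1 3 2 1 (.B 1 8 1 (.C 0 2 768 1 (.C 0 3 2000 1 (.B 1 16 1 (.L
  128) (.C 0 3 4000 1 (.C 0 3 8000 1 (.C 1 3 32 1 (.L 17) (.C 0 3 16000 1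
  (.C 2 3 21 1 (.L 17) (.C 1 3 1 1 (.L 17) (.C 2 3 1 2 (.L 17) (.B 2 1 4 (.B
  1 1 2 (.L 499) (.B 2 2 1 (.C 0 1 63872 1 (.C 0 1 127744 1 (.B 2 4 1 (.B 1
  1 4 (.L 1421) (.C 0 2 128256 1 (.C 1 2 1 1 (.C 1 3 1 8 (.L 2198) (.C 2 3 1
  16 (.L 157) (.L 3))) (.C 0 3 32000 1 (.C 2 3 1 4 (.C 1 3 1 1 (.L 17) (.L
  1)) (.C 1 3 1 8 (.B 0 1 1 (.C 1 2 1 1 (.L 17) (.L 3)) (.L 17)) (.L 3)))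
  (.C 0 2 4 1 (.C 0 2 8 1 (.C 0 1 8 1 (.L 3) (.L 4022)) (.L 4022)) (.L
  3340)))) (.L 285))) (.L 868)) (.L 868)) (.L 868)) (.L 499))) (.L 128)))))
  (.L 1288))) (.L 48)) (.L 128))) (.L 128)) (.G 48 175 1 1 1 1 1 [.g 32 1 0
  0, .n, .n, .n, .n, .n])) (.C 0 3 2000 1 (.C 2 3 5 1 (.C 2 3 10 1 (.L 57)
  (.C 1 3 16 1 (.L 57) (.C 2 3 1 2 (.L 57) (.C 1 3 1 2 (.L 57) (.C 2 3 1 4
  (.L 57) (.C 1 3 1 4 (.L 57) (.L 2))))))) (.C 1 3 8 1 (.B 1 1 2 (.C 0 1 496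
  1 (.C 0 2 7840 1 (.C 0 3 7968 1 (.B 0 4 1 (.B 2 1 8 (.C 0 1 992 1 (.C 1 2
  8 1 (.C 2 3 1 2 (.L 17) (.C 1 3 8 1 (.L 17) (.C 1 3 1 2 (.L 17) (.L 3))))
  (.C 0 2 15680 1 (.C 1 3 1 2 (.C 1 2 1 1 (.L 17) (.C 1 2 1 2 (.L 17) (.L
  2))) (.L 2)) (.G 2 304 0 59136 59136 29568 29568 [.n, .n, .n, .n, .g 32 1
  0 0, .n]))) (.G 111 17 1 32 16 253 257 [.n, .n, .n, .n, .g 2 67 0 0, .g 2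
  75 0 0])) (.L 48)) (.B 1 2 1 (.L 17) (.C 1 2 16 1 (.C 1 3 16 1 (.L 17) (.C
  2 3 1 2 (.L 17) (.C 1 3 1 2 (.L 17) (.B 2 1 1 (.C 2 3 1 4 (.L 17) (.P
  (.ofNat 2) (.ofNat 3))) (.L 410))))) (.C 0 1 31552 1 (.C 1 2 1 4 (.C 1 3 1
  4 (.L 17) (.L 3)) (.L 2)) (.G 285 57 2 244 122 61 61 [.n, .n, .n, .n, .g
  34 65 0 0, .g 32 63 0 0]))))) (.L 48)) (.L 48)) (.L 51)) (.L 38)) (.L 2)))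
  (.L 48))) (.B 1 8 1 (.C 0 1 2000 1 (.C 0 3 1008 1 (.C 1 2 1 5 (.B 2 1 4
  (.B 1 16 1 (.L 128) (.C 0 3 2016 1 (.C 0 3 4032 1 (.C 0 3 8064 1 (.C 0 1
  4000 1 (.C 0 1 8000 1 (.C 0 1 16000 1 (.B 1 1 2 (.L 499) (.B 2 2 1 (.C 1 2
  1 4 (.C 1 2 2 1 (.C 1 3 1 2 (.L 3) (.B 2 4 1 (.L 1) (.L 868))) (.L 1)) (.L
  1)) (.L 499))) (.L 1288)) (.L 176)) (.L 176)) (.L 176)) (.L 48)) (.L
  128))) (.L 128)) (.C 0 2 768 1 (.C 0 1 7840 1 (.C 0 3 2016 1 (.B 2 1 4 (.B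
  1 16 1 (.L 128) (.C 0 3 4032 1 (.B 2 2 1 (.C 0 2 1536 1 (.C 0 1 15680 1
  (.B 1 1 2 (.L 499) (.C 0 3 8064 1 (.B 2 4 1 (.B 1 1 4 (.L 1421) (.C 0 2
  3072 1 (.C 0 1 31360 1 (.C 0 2 6144 1 (.C 2 3 4 3 (.C 2 3 8 1 (.C 2 3 16 1
  (.L 17) (.C 2 3 1 2 (.L 17) (.L 1))) (.L 1)) (.L 1)) (.L 3986)) (.L 176))
  (.L 176))) (.L 347)) (.L 176))) (.L 48)) (.L 48)) (.L 48)) (.L 48))) (.L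
  128)) (.L 128)) (.L 128)) (.L 48))) (.B 0 1 4 (.L 98) (.C 1 3 1 4 (.L 128)
  (.G 499 1 1 42 167 16 21 [.n, .n, .g 64 63 0 0, .g 31 32 0 0, .n, .n]))))
  (.B 0 1 4 (.L 98) (.C 0 3 1 4 (.L 128) (.C 1 2 2 5 (.L 2443) (.G 175 1 1
  167 163 16 21 [.n, .n, .n, .n, .n, .n, .g 40 63 0 0, .g 37 63 0 0, .n,
  .n]))))) (.C 0 3 1008 1 (.C 0 1 2000 1 (.C 1 2 1 5 (.C 1 3 1 2 (.L 2) (.C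
  2 3 1 4 (.L 2) (.C 2 3 1 8 (.L 3) (.C 1 3 1 4 (.L 3) (.B 1 1 2 (.L 36) (.L
  22)))))) (.C 2 3 5 2 (.B 1 1 2 (.C 0 2 768 1 (.C 0 3 7872 1 (.C 0 1 7840 1
  (.B 1 2 1 (.C 0 2 1536 1 (.B 0 4 1 (.L 20) (.C 0 3 15744 1 (.C 0 1 15680 1
  (.C 1 2 1 10 (.C 1 2 2 1 (.C 2 3 1 4 (.C 1 2 4 1 (.L 2) (.B 1 4 1 (.L 1)
  (.L 353))) (.L 2)) (.C 1 2 1 2 (.B 0 1 2 (.L 237) (.B 1 4 1 (.C 1 2 2 1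
  (.L 1) (.L 237)) (.L 237))) (.L 237))) (.C 2 3 10 1 (.L 17) (.L 953))) (.L
  285)) (.L 176))) (.L 499)) (.L 20)) (.L 48)) (.L 51)) (.L 51)) (.L 11))
  (.C 1 3 1 4 (.L 2) (.C 2 3 1 4 (.L 2) (.C 1 3 1 8 (.L 3) (.B 1 1 2 (.L 36)
  (.L 22))))))) (.L 48)) (.L 51)))) (.B 1 8 1 (.B 0 1 4 (.L 98) (.B 1 16 1
  (.C 2 3 5 2 (.G 469 412 1 32 21 16 164 [.n, .n, .n, .n, .n, .n, .g 1 22 0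
  0, .g 3 70 0 0]) (.C 1 2 8 1 (.C 1 3 2 1 (.L 469) (.C 0 3 4 3 (.L 469) (.G
  2316 1 3 44926 14821 57894 7410 [.n, .g 3 16 0 0, .n, .n]))) (.G 175 1 1
  16 165 82 21 [.n, .n, .n, .n, .n, .n, .g 7 31 0 0, .g 13 64 0 0, .n,
  .n]))) (.L 98))) (.L 59))) (.B 1 8 1 (.C 0 3 32 1 (.C 0 2 384 1 (.C 0 1
  1008 1 (.C 0 3 64 1 (.C 0 2 768 1 (.C 0 1 2016 1 (.C 0 1 4032 1 (.C 0 1
  8064 1 (.B 1 16 1 (.L 128) (.B 2 1 4 (.B 1 1 2 (.L 499) (.B 2 2 1 (.C 0 3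
  128 1 (.C 0 2 1536 1 (.C 0 2 3072 1 (.C 0 2 6144 1 (.C 1 2 3 4 (.L 1) (.C
  1 2 1 8 (.L 1) (.C 0 3 256 1 (.B 1 1 4 (.L 1421) (.C 1 2 1 16 (.L 20) (.C
  2 3 1 24 (.C 1 2 1 32 (.L 849) (.C 2 3 2 1 (.B 0 2 1 (.L 3723) (.B 2 16 1
  (.C 2 3 4 1 (.L 16) (.B 1 1 8 (.B 0 1 4 (.L 2699) (.C 0 1 785664 1 (.C 0 3
  49152 1 (.C 1 3 1 16 (.L 16) (.L 1)) (.L 3596)) (.L 3596))) (.L 2164)))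
  (.B 1 4 1 (.L 3596) (.L 3211)))) (.L 330))) (.L 849)))) (.L 1288)))) (.L
  1288)) (.L 176)) (.L 176)) (.L 176)) (.L 499))) (.L 128))) (.L 176)) (.L
  48)) (.L 128)) (.L 48)) (.L 48)) (.C 1 2 3 4 (.G 98 4 5 126 63 381 4 [.n,
  .n, .n, .n, .n, .n, .g 1 15025 0 0, .g 1 16238 0 0]) (.L 48))) (.B 0 1 4
  (.L 98) (.B 1 16 1 (.C 1 2 2 5 (.G 175 1 1 48 63 246 4 [.n, .n, .n, .n,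
  .n, .n, .g 2 23 0 0, .g 5 64 0 0, .n, .n]) (.G 98 74 1 24 123 12 2 [.n,
  .n, .n, .n, .n, .n, .g 1 19 0 0, .g 1 21 0 0])) (.L 98)))) (.B 0 1 4 (.L
  98) (.C 1 2 2 5 (.L 1) (.G 317 347 0 2 124 12 1 [.g 64 23 0 0, .g 32 17 0
  0, .n, .n])))) (.C 0 1 1008 1 (.C 0 2 384 1 (.C 0 3 32 1 (.C 0 3 64 1 (.C
  1 2 2 5 (.C 1 3 1 16 (.B 1 1 2 (.C 0 1 2016 1 (.C 0 3 4064 1 (.C 2 3 1 1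
  (.L 36) (.C 1 2 4 1 (.C 1 2 8 1 (.C 1 3 2 1 (.C 1 2 16 1 (.C 1 2 32 1 (.C
  1 3 4 1 (.B 1 2 1 (.C 1 2 64 1 (.P (.ofNat 6) (.ofNat 7)) (.L 21)) (.L
  10)) (.L 459)) (.L 15)) (.L 15)) (.L 15)) (.L 64)) (.B 1 2 1 (.C 0 2 16000
  1 (.C 0 1 32128 1 (.C 2 3 1 4 (.L 3) (.L 64)) (.L 499)) (.L 51)) (.L
  88)))) (.L 176)) (.L 48)) (.C 1 3 2 1 (.L 228) (.L 88))) (.B 1 1 2 (.B 1 2
  1 (.B 1 4 1 (.B 0 4 1 (.L 193) (.C 0 1 4064 1 (.C 0 1 8128 1 (.B 2 1 4 (.L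
  1) (.C 0 3 128 1 (.B 0 1 2 (.L 499) (.L 1)) (.L 51))) (.L 176)) (.L 51)))
  (.L 193)) (.L 237)) (.L 3856))) (.B 1 1 2 (.C 0 2 768 1 (.B 1 2 1 (.C 0 2
  1536 1 (.B 0 4 1 (.L 11) (.C 0 1 7872 1 (.C 1 2 1 5 (.L 953) (.L 2187))
  (.L 499))) (.L 499)) (.L 11)) (.L 51)) (.L 11))) (.L 176)) (.L 59)) (.L
  59)) (.L 59)))) (.C 0 3 1 16 (.B 1 8 1 (.B 0 1 4 (.C 0 1 1 2 (.L 98) (.C 1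
  3 4 1 (.G 98 1461 1 64 16 25 129 [.n, .n, .n, .n, .n, .n, .g 1 36 0 0, .g
  2 79 0 0]) (.L 98))) (.C 1 3 4 1 (.G 825 50 1 23412 11706 18290 94378 [.n,
  .g 2 1 0 0, .n, .n, .n, .n, .g 16 65 0 0, .g 17 65 0 0]) (.B 1 16 1 (.C 0
  3 2 1 (.G 157 17 1 18940 74859 14431 74859 [.g 61 64 0 0, .g 64 49 0 0,
  .n, .n, .n, .n]) (.C 1 2 1 5 (.G 448 1 3 3070369 3070369 5948841 1535185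
  [.n, .g 2 73 0 0, .g 1 2127 0 0, .g 2 4483 0 0, .n, .n]) (.C 0 2 1 5 (.G 1
  3851 1 4747 9197 9197 2373 [.n, .n, .n, .g 64 9 0 0, .n, .n]) (.G 1 50 1
  179602 179602 17630 46278 [.n, .g 21 64 0 0, .n, .n, .g 64 1 0 0, .n]))))
  (.C 0 1 4 1 (.L 98) (.C 1 3 1 2 (.G 1888 347 0 43356 21678 4179 43617 [.n,
  .n, .g 64 3 0 0, .g 64 3 0 0, .n, .n, .g 16 3 0 0, .g 32 5 0 0]) (.L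
  98)))))) (.G 111 98 1 1 1 1 1 [.g 16 3 0 0, .n, .n, .n, .n, .n])) (.B 1 8
  1 (.B 0 1 4 (.C 0 1 1 4 (.L 98) (.C 1 2 3 2 (.C 1 3 1 8 (.G 3 50 1 45078
  5591 34245 11532 [.n, .n, .g 64 1 0 0, .n, .g 64 3 0 0, .n]) (.B 1 2 1 (.L
  884) (.L 98))) (.B 1 2 1 (.L 884) (.L 98)))) (.C 1 2 3 2 (.C 1 3 1 8 (.C 0
  1 1 4 (.C 0 1 2 1 (.G 3339 2827 2 195 773 292 97 [.g 8 1 0 0, .g 2 1 0 0,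
  .n, .n]) (.B 1 16 1 (.L 792) (.G 157 1662 0 32750 16246 12378 4126 [.n,
  .n, .g 32 9 0 0, .g 32 9 0 0, .n, .n]))) (.C 1 3 2 1 (.L 825) (.B 1 16 1
  (.L 792) (.G 157 1278 0 18660 9478 14217 4739 [.n, .n, .g 64 15 0 0, .g 64
  15 0 0, .n, .n])))) (.G 4 2315 1 1289 645 1934 41 [.n, .n, .g 55 64 0 0,
  .n, .n, .n])) (.C 0 2 2 5 (.G 301 1 3 126 189 492 4 [.n, .n, .n, .g 1 291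
  0 0, .n, .g 1 869 0 0]) (.G 632 347 0 1 1 1 1 [.n, .n, .n, .n, .g 13 66 0
  0, .g 1 7 0 0])))) (.G 98 241 0 1 1 1 1 [.n, .g 32 29 0 0, .n, .n, .n, .n,
  .n, .n])))) (.C 2 3 1 6 (.C 2 3 2 1 (.L 57) (.C 1 2 3 1 (.B 1 8 1 (.C 1 3
  3 2 (.G 243 17 1 25 16 98 98 [.g 32 5 0 0, .n, .n, .n, .g 1 106 0 0, .g 1
  115 0 0]) (.B 0 1 4 (.G 458 410 0 16 63 63 16 [.g 64 3 0 0, .n, .n, .n, .g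
  2 75 0 0, .g 2 81 0 0, .n, .n]) (.C 1 3 1 4 (.G 174 17 1 16 63 63 127 [.g
  8 1 0 0, .n, .n, .n, .g 1 62 0 0, .g 1 67 0 0, .n, .n]) (.L 198)))) (.C 0
  3 1 1 (.G 243 57 2 25 16 98 50 [.n, .g 64 13 0 0, .n, .n, .g 1 80 0 0, .g
  1 95 0 0]) (.C 1 3 3 2 (.G 243 890 2 25 8 49 49 [.n, .g 16 1 0 0, .n, .n,
  .g 2 61 0 0, .g 1 33 0 0]) (.G 136 280 2 1 1 1 1 [.n, .n, .g 1 4 0 0, .g 5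
  22 0 0, .n, .n])))) (.C 1 2 1 2 (.C 0 2 8 1 (.B 1 8 1 (.B 0 1 4 (.G 458
  410 0 16 63 255 16 [.g 64 3 0 0, .n, .n, .n, .g 2 75 0 0, .g 2 81 0 0, .n,
  .n]) (.L 198)) (.C 0 1 4 1 (.C 0 3 1 1 (.G 243 622 3 16 127 255 32 [.n,
  .n, .n, .n, .g 1 38 0 0, .g 1 41 0 0]) (.G 243 173 5 1 1 1 1 [.n, .n, .g 3
  34 0 0, .g 6 65 0 0, .n, .n])) (.G 280 663 0 127 63 255 16 [.g 32 1 0 0,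
  .n, .g 18 65 0 0, .n, .n, .n]))) (.B 1 8 1 (.B 0 1 4 (.C 1 2 2 1 (.L 458)
  (.G 136 1768 0 255 253 127 16 [.n, .n, .g 3 56 0 0, .g 3 59 0 0, .n, .n]))
  (.L 198)) (.G 280 890 2 255 63 127 16 [.n, .n, .g 2 7 0 0, .n, .n, .n])))
  (.B 1 8 1 (.G 173 197 2 16 127 32 16 [.n, .n, .g 4 69 0 0, .n, .n, .g 1 4
  0 0]) (.G 173 1024 1 1 1 1 1 [.n, .n, .g 1 441 0 0, .n, .n, .g 4 33 0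
  0]))))) (.C 1 2 3 2 (.C 1 2 6 1 (.B 1 8 1 (.B 0 1 4 (.C 1 3 1 8 (.G 50 884
  0 75 48 585 100 [.n, .g 41 63 0 0, .n]) (.L 884)) (.C 1 3 1 8 (.C 1 3 2 1
  (.G 884 17 1 74 48 577 193 [.g 19 65 0 0, .n, .n, .n, .n, .n]) (.B 1 16 1
  (.C 0 1 5 2 (.G 608 50 1 823422 8388607 6432981 1080741 [.g 32 19 0 0, .g
  16 7 0 0, .n, .n, .n, .n, .g 5 66 0 0, .n]) (.L 792)) (.G 157 884 0 57150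
  150019 446485 75009 [.n, .g 256 1 0 0, .g 64 9 0 0, .g 64 9 0 0, .n,
  .n]))) (.B 1 16 1 (.B 0 1 8 (.L 2998) (.B 1 32 1 (.L 780) (.L 337))) (.L
  337)))) (.G 884 478 0 1 1 1 1 [.n, .g 5 33 0 0, .n, .n, .g 2 289 0 0, .g 1
  165 0 0])) (.C 0 2 4 1 (.B 1 8 1 (.G 355 337 0 1 1 1 1 [.g 16 1 0 0, .n,
  .n, .n, .g 1 64 0 0, .g 1 70 0 0]) (.G 337 241 0 1 1 1 1 [.n, .g 64 63 0
  0, .n, .n, .n, .n, .n, .n, .n, .n])) (.B 1 8 1 (.B 0 1 4 (.L 355) (.G 780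
  829 0 1 1 1 1 [.n, .n, .n, .n, .g 1 59 0 0, .g 1 65 0 0])) (.G 59 243 1 1
  1 1 1 [.g 8 1 0 0, .n, .g 2 263 0 0, .g 2 289 0 0, .n, .n])))) (.C 0 2 1 1
  (.C 0 1 4 1 (.C 0 2 2 1 (.G 337 241 0 1 1 1 1 [.n, .g 64 5 0 0, .n, .n,
  .n, .n, .n, .n, .n, .n]) (.B 1 8 1 (.G 762 829 0 239 474 119 5 [.g 4 3 0
  0, .g 16 5 0 0, .n, .n]) (.L 281))) (.B 1 8 1 (.B 0 1 4 (.L 355) (.G 778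
  829 0 1 1 1 1 [.n, .n, .n, .n, .g 1 29 0 0, .g 2 65 0 0])) (.L 281))) (.C
  2 3 1 12 (.C 1 2 1 4 (.G 281 174 1 1 1 1 1 [.g 41 64 0 0, .n, .n, .n, .n,
  .n]) (.C 0 2 1 2 (.G 360 243 0 529 2117 1058 529 [.g 64 45 0 0, .g 16 11 0
  0, .n, .n]) (.C 2 3 2 1 (.B 1 8 1 (.B 0 1 4 (.L 458) (.L 198)) (.C 1 2 1 8
  (.L 136) (.G 648 791 1 115480 460117 28870 115480 [.n, .g 32 13 0 0, .n,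
  .n, .n]))) (.G 360 458 0 1058 2117 1058 529 [.g 64 45 0 0, .g 16 11 0 0,
  .n, .n])))) (.B 1 8 1 (.C 2 3 1 24 (.L 174) (.B 0 1 4 (.L 355) (.G 632 829
  0 1 1 1 1 [.n, .n, .n, .n, .g 2 75 0 0, .g 2 85 0 0]))) (.L 281)))))))
  (by decide +kernel)

theorem EN1_c80 : CoN ENTab ⟨⟨13, 15, 32⟩, ⟨3, 4, 8⟩, ⟨29, 31, 64⟩, ⟨20, 1,
  1, 0, 1⟩, ⟨164, 10, 4, 0, 7⟩, ⟨52, 13, 13, 2, 11⟩, ⟨4, 1, 1, 0, 1⟩⟩ :=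
CoN.ofG ENTab_B ENBt_E ENBt_U (.C 1 2 3 4 (.C 1 3 1 16 (.C 1 3 2 1 (.C 0 2
  47 1 (.C 1 2 12 1 (.B 1 8 1 (.C 1 3 4 1 (.C 0 1 8 1 (.B 0 1 4 (.L 884) (.B
  1 16 1 (.C 0 3 62 1 (.G 2046 4 2 4 63 749 497 [.n, .n, .n, .n, .g 1 4971 0
  0, .g 1 5629 0 0]) (.C 1 3 4 1 (.G 157 3595 0 5562971 706409 8388607
  5607122 [.n, .g 37 64 0 0, .g 1 58 0 0, .g 1 60 0 0, .n, .n]) (.L 174)))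
  (.L 337))) (.B 0 1 4 (.G 394 884 0 3637 1763 42653 14218 [.n, .n, .g 32 7
  0 0, .g 4 1 0 0, .n, .n, .g 64 41 0 0, .g 64 45 0 0]) (.C 0 1 1 2 (.B 1 16
  1 (.L 792) (.G 825 884 0 1660 3321 19718 6538 [.n, .n, .n, .n, .n, .n, .g
  64 27 0 0, .g 32 15 0 0])) (.L 825)))) (.C 0 3 31 1 (.C 0 1 62 1 (.C 0 2
  187 1 (.G 4 243 0 4 497 1497 249 [.n, .n, .n, .n, .n, .g 512 3 0 0]) (.L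
  355)) (.L 355)) (.L 355))) (.C 1 3 4 1 (.G 884 241 0 1 1 1 1 [.n, .g 4 21
  0 0, .n, .n, .g 2 281 0 0, .g 1 157 0 0]) (.G 281 2 5 4 249 749 125 [.n,
  .g 2 53 0 0, .n, .n, .n, .n]))) (.B 1 8 1 (.C 0 3 31 1 (.C 0 2 94 1 (.B 0
  1 4 (.L 355) (.G 1 829 0 4 749 753 249 [.n, .n, .n, .g 64 5 0 0, .n, .n]))
  (.L 355)) (.L 355)) (.G 281 2 5 4 749 377 125 [.n, .g 2 53 0 0, .n, .n,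
  .n, .n]))) (.C 1 2 6 1 (.B 1 8 1 (.G 355 17 1 195 16 194 65 [.n, .n, .n,
  .n, .g 8 65 0 0, .g 1 9 0 0]) (.C 0 1 1 12 (.G 703 243 1 1 1 1 1 [.g 51 64
  0 0, .n, .n, .n, .n, .n]) (.C 1 3 4 1 (.G 885 890 2 387 16 194 129 [.n, .g
  64 3 0 0, .n, .n, .g 2 7 0 0, .g 17 63 0 0, .n, .n]) (.G 243 423 0 1 1 1 1
  [.n, .g 32 11 0 0, .n, .n, .n, .n])))) (.G 174 703 0 1 1 1 1 [.n, .g 32 7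
  0 0, .g 43 64 0 0, .g 9 16 0 0, .n, .n, .n, .n]))) (.C 0 3 16 1 (.B 1 8 1
  (.C 0 2 47 1 (.C 0 1 31 1 (.G 829 1 5 4 249 377 127 [.g 1 214 0 0, .n, .n,
  .n, .n, .n]) (.G 174 243 0 1 1 1 1 [.n, .g 64 23 0 0, .n, .n, .n, .n, .n,
  .n])) (.G 174 458 0 1 1 1 1 [.n, .g 64 23 0 0, .n, .n, .n, .n, .n, .n]))
  (.G 243 703 0 1 1 1 1 [.n, .g 64 17 0 0, .g 1 166 0 0, .g 2 287 0 0, .n,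
  .n])) (.C 1 2 3 2 (.B 1 8 1 (.C 1 3 1 2 (.G 458 174 1 1 1 1 1 [.g 55 64 0
  0, .n, .n, .n, .n, .n, .n, .n]) (.C 0 3 1 2 (.G 136 174 1 1 1 1 1 [.g 55
  64 0 0, .n, .n, .n, .n, .n]) (.C 2 3 1 12 (.G 136 2024 1 1 1 1 1 [.g 1 1 0
  0, .n, .n, .n, .n, .n]) (.G 4 1002 0 64 64 383 16 [.n, .n, .n, .n, .n, .g
  64 1 0 0])))) (.C 1 3 1 2 (.G 423 136 1 1 1 1 1 [.g 49 64 0 0, .n, .n, .n,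
  .n, .n]) (.C 2 3 1 12 (.G 136 423 0 1 1 1 1 [.n, .g 64 15 0 0, .n, .n, .n,
  .n]) (.C 0 3 1 2 (.G 458 703 0 1 1 1 1 [.n, .g 64 15 0 0, .n, .n, .n, .n,
  .n, .n]) (.B 1 1 2 (.C 2 3 1 24 (.L 136) (.B 1 2 1 (.L 1002) (.G 2572 556
  0 64 64 767 16 [.n, .n, .g 1 17 0 0, .g 4 69 0 0, .n, .n]))) (.G 489 2 5
  1401752 1401752 8388607 350438 [.n, .n, .n, .n, .g 1 14343 0 0, .g 1 14924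
  0 0, .n, .n])))))) (.C 0 3 1 2 (.B 1 8 1 (.G 243 174 1 1 1 1 1 [.g 55 64 0
  0, .n, .n, .n, .n, .n]) (.G 136 423 0 1 1 1 1 [.n, .g 32 7 0 0, .n, .n,
  .n, .n])) (.C 1 3 1 12 (.G 2024 423 0 1 1 1 1 [.n, .g 32 7 0 0, .n, .n,
  .n, .n, .n, .n, .n, .n]) (.C 2 3 1 3 (.G 2024 423 0 1 1 1 1 [.n, .g 64 13
  0 0, .n, .n, .n, .n, .n, .n, .n, .n]) (.B 1 8 1 (.G 4 1556 0 64 383 96 16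
  [.n, .n, .n, .n, .n, .g 64 1 0 0]) (.B 1 1 2 (.C 2 3 1 6 (.L 885) (.C 1 3
  1 24 (.L 885) (.B 1 2 1 (.L 1002) (.L 556)))) (.G 489 2 5 1401752 8388607
  2102627 350438 [.n, .n, .n, .n, .g 1 11175 0 0, .g 1 12028 0 0, .n,
  .n]))))))))) (.C 1 2 3 1 (.C 1 3 1 32 (.B 1 8 1 (.B 0 1 4 (.B 0 2 1 (.C 1
  2 6 1 (.C 0 1 16 1 (.G 159 20 0 44384 1409197 8388607 1409197 [.n, .g 79
  256 0 0, .n, .n, .g 1 50 0 0, .g 1 52 0 0, .n, .n]) (.C 1 3 2 1 (.C 1 2 12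
  1 (.C 0 1 1 2 (.L 15) (.C 1 2 24 1 (.C 1 2 48 1 (.P (.ofNat 6) (.ofNat 7))
  (.L 3942)) (.L 15))) (.L 15)) (.L 15))) (.C 0 3 32 1 (.G 281 3414 0 1 1 1
  1 [.n, .n, .g 1 47 0 0, .g 1 40 0 0, .n, .n]) (.L 64))) (.L 1)) (.L 1))
  (.C 0 1 16 1 (.B 1 1 2 (.C 0 1 32 1 (.G 562 1101 0 1 1 1 1 [.n, .g 32 5 0
  0, .n, .n, .n, .n]) (.L 64)) (.L 156)) (.B 1 1 2 (.C 1 2 6 1 (.C 1 3 2 1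
  (.C 1 2 12 1 (.C 0 1 1 2 (.L 15) (.B 1 2 1 (.C 1 2 24 1 (.C 1 3 4 1 (.B 0
  4 1 (.C 0 1 1 4 (.L 21) (.B 0 8 1 (.L 10) (.L 21))) (.L 21)) (.L 15)) (.L
  15)) (.C 1 3 4 1 (.L 402) (.L 15)))) (.L 15)) (.L 15)) (.L 101)) (.C 1 3 2
  1 (.C 0 2 3 1 (.G 308 902 3 1390857 695429 8388607 2781714 [.n, .n, .n,
  .n, .n, .n, .g 1 253 0 0, .g 1 264 0 0]) (.C 2 3 2 3 (.G 211 2 5 4205198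
  348617 2091705 8388607 [.n, .n, .n, .n, .n, .n, .g 1 17700 0 0, .g 1 18658
  0 0]) (.G 211 902 3 4205198 348617 8388607 1394470 [.n, .n, .g 1 228 0 0,
  .g 1 237 0 0, .n, .n, .n, .n]))) (.G 864 353 1 854747 1709494 2564241
  854747 [.n, .n, .g 2 11 0 0, .g 11 62 0 0, .n, .n, .n, .n]))))) (.G 574
  562 1 1 1 1 1 [.n, .n, .n, .n, .n, .n, .n, .n, .n, .g 2 9 0 0])) (.G 409
  574 9 1 1 1 1 [.n, .g 64 3 0 0, .n, .n, .n, .n, .n, .g 64 37 0 0]))) (.C 0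
  2 6 1 (.C 2 3 1 24 (.C 0 2 12 1 (.C 0 2 24 1 (.G 20 574 9 4 189 192 96 [.g
  64 19 0 0, .n, .n, .g 64 9 0 0]) (.C 2 3 1 1 (.C 0 2 1 2 (.L 574) (.C 0 3
  1 2 (.G 736 136 0 1 1 1 1 [.g 13 66 0 0, .n, .n, .n, .n, .n, .n, .g 5 64 0
  0]) (.C 2 3 2 1 (.G 736 136 0 1 1 1 1 [.g 13 66 0 0, .n, .n, .n, .n, .n,
  .n, .g 5 64 0 0]) (.B 0 1 4 (.G 136 574 7 1 1 1 1 [.n, .n, .g 1 41 0 0, .g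
  1 44 0 0, .n, .n]) (.L 736))))) (.L 574))) (.B 1 8 1 (.B 0 1 4 (.B 0 2 1
  (.C 1 3 1 2 (.C 0 3 4 1 (.L 458) (.C 0 1 1 4 (.G 280 1 1 255 507 16 127
  [.g 128 1 0 0, .n, .n, .n, .g 41 64 0 0, .g 38 63 0 0]) (.G 411 280 2 1 1
  1 1 [.n, .n, .n, .n, .g 64 33 0 0, .g 45 64 0 0]))) (.G 1622 1 1 108447
  430399 54223 108447 [.n, .g 16 7 0 0, .g 64 17 0 0, .n])) (.G 778 1 1 32
  63 16 32 [.n, .n, .n, .n, .g 64 61 0 0, .g 53 64 0 0])) (.G 1489 780 5 32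
  63 16 32 [.g 32 1 0 0, .g 32 7 0 0, .n, .g 1024 9 0 0])) (.C 0 1 2 1 (.C 1
  3 1 4 (.B 1 1 2 (.C 0 2 1 2 (.L 1) (.C 1 2 1 8 (.G 2024 1 1 19 38 75 75
  [.n, .n, .n, .n, .n, .n, .g 3 7 0 0, .g 13 32 0 0, .n, .n]) (.L 22))) (.G
  79 2 1 135460 537607 67730 1079447 [.n, .g 32 3 0 0, .g 64 37 0 0, .n,
  .n])) (.B 1 1 2 (.G 308 1 1 1052688 8388607 526344 1052688 [.n, .n, .n,
  .n, .n, .n, .g 3 55 0 0, .g 1 19 0 0]) (.G 1 250 4 158614 1263958 79307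
  158614 [.n, .g 4 21 0 0, .n, .n, .n, .g 128 1 0 0]))) (.C 1 3 1 2 (.B 1 1
  2 (.G 976 280 2 1 1 1 1 [.n, .n, .n, .n, .g 57 64 0 0, .g 53 64 0 0, .n,
  .n]) (.G 411 1067 0 1 1 1 1 [.n, .g 32 15 0 0, .n, .n, .n, .n])) (.B 1 1 2
  (.C 2 3 2 1 (.C 0 3 1 2 (.G 280 1 1 127 127 16 255 [.n, .n, .n, .n, .n, .g
  32 31 0 0]) (.L 462)) (.L 1)) (.G 1 976 5 127 127 16 32 [.n, .g 32 5 0 0,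
  .n, .n, .n, .g 4096 1 0 0])))))) (.G 20 574 9 4 189 96 2 [.g 64 11 0 0,
  .n, .n, .g 64 9 0 0])) (.C 2 3 1 12 (.C 1 2 1 8 (.B 1 8 1 (.C 1 3 1 4 (.C
  0 1 4 1 (.L 778) (.G 1177 17 1 698 349 698 698 [.g 64 45 0 0, .n, .n, .n,
  .n, .n])) (.L 198)) (.G 206 53 0 572 2252 4539 572 [.g 121 128 0 0, .g 32
  7 0 0, .n, .n])) (.G 160 138 1 173427 1376579 86714 173427 [.g 29 63 0 0,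
  .g 42 65 0 0, .n, .g 32 21 0 0, .n])) (.B 1 8 1 (.C 2 3 1 24 (.C 1 2 1 4
  (.B 0 1 4 (.C 1 3 1 2 (.B 0 2 1 (.L 411) (.L 99)) (.L 907)) (.L 198)) (.L
  907)) (.B 0 1 4 (.C 0 3 1 24 (.B 0 2 1 (.C 1 3 1 2 (.G 198 411 5 1 1 1 1
  [.n, .n, .n, .n, .g 64 9 0 0, .g 32 5 0 0]) (.G 3764 1 1 54223 430399
  108447 108447 [.n, .g 32 5 0 0, .g 32 5 0 0, .n])) (.L 187)) (.L 574)) (.C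
  0 3 1 24 (.L 198) (.L 736)))) (.C 2 3 1 24 (.B 1 1 2 (.G 411 505 0 1 1 1 1
  [.n, .g 8 1 0 0, .n, .n, .n, .n]) (.G 1106 53 0 1 1 1 1 [.n, .g 16 1 0 0,
  .n, .n, .g 1 24 0 0, .n, .n, .n])) (.C 0 3 1 24 (.B 1 1 2 (.B 2 1 8 (.B 1
  2 1 (.C 1 3 1 2 (.L 260) (.G 345 1 1 42220 335124 84441 84441 [.g 64 15 0
  0, .g 64 5 0 0, .n, .n, .n])) (.G 1420 260 1 1 1 1 1 [.n, .n, .n, .n, .n,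
  .g 2 53 0 0, .n, .n])) (.G 411 1 1 16 63 32 32 [.n, .n, .n, .n, .g 20 63 0
  0, .g 22 65 0 0])) (.B 2 1 2 (.L 53) (.G 180 976 5 1 1 1 1 [.g 256 1 0 0,
  .n, .n, .n, .n, .n, .n, .n]))) (.L 574))))))) (by decide +kernel)

end Pool.Agent.TET.Cvr
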