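import Pool.Agent.Helper37_TET.ENBt

/-!
# MP_c7c9bf_co: cover of the charts, root 1 part 15
-/

set_option autoImplicit false
set_option maxRecDepth 100000

namespace Pool.Agent.TET.Cvr

theorem EN1_c236 : CoN ENTab ⟨⟨1, 5, 16⟩, ⟨1, 3, 8⟩, ⟨1, 2, 8⟩, ⟨1, 0, 0, 0,
  0⟩, ⟨8, 2, 0, 0, 1⟩, ⟨4, 1, 1, 1, 0⟩, ⟨4, 1, 1, 0, 1⟩⟩ :=
CoN.ofG ENTab_B ENBt_E ENBt_U (.C 2 3 1 1 (.C 0 2 16 1 (.C 0 3 24 1 (.C 0 1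
  20 1 (.C 1 2 3 4 (.C 0 1 40 1 (.C 1 2 3 1 (.B 1 1 1 (.B 1 2 1 (.L 32) (.C
  1 3 3 5 (.B 2 1 1 (.C 1 3 6 1 (.C 1 2 6 1 (.B 1 1 2 (.L 71) (.L 372)) (.L
  67)) (.L 67)) (.L 316)) (.L 548))) (.B 2 2 1 (.L 894) (.C 1 3 3 5 (.B 2 1
  2 (.L 372) (.B 0 1 1 (.L 1722) (.L 372))) (.L 548)))) (.L 548)) (.G 894
  901 3 490 245 1379 291 [.g 512 1 0 0, .n, .n, .n, .n, .n, .g 64 25 0 0, .g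
  16 7 0 0])) (.C 1 3 1 5 (.L 349) (.L 343))) (.L 61)) (.L 61)) (.L 71)) (.C
  0 2 24 1 (.C 0 3 16 1 (.C 0 1 20 1 (.B 2 2 1 (.C 0 2 48 1 (.C 0 1 40 1 (.C
  1 2 5 4 (.C 2 3 1 25 (.C 2 3 2 1 (.C 2 3 4 1 (.C 1 2 10 1 (.L 33) (.B 1 1
  1 (.B 0 1 4 (.L 404) (.B 1 2 1 (.L 316) (.L 583))) (.L 748))) (.G 104 3450
  2 1 80 6288 3152 [.g 32 1 0 0, .n, .n, .n])) (.L 89)) (.B 1 1 1 (.C 1 3 2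
  5 (.L 412) (.C 1 3 1 10 (.C 1 3 2 1 (.C 1 3 4 1 (.L 861) (.L 246)) (.L
  246)) (.L 246))) (.C 1 3 2 5 (.C 1 3 4 1 (.L 50) (.C 1 3 1 2 (.L 57) (.B 1
  1 2 (.L 380) (.B 2 4 1 (.C 0 3 320 1 (.C 2 3 2 5 (.L 57) (.C 1 3 1 2 (.B 1
  1 4 (.L 17) (.B 2 8 1 (.L 890) (.L 57))) (.C 2 3 1 10 (.C 2 3 2 1 (.C 1 2
  5 2 (.L 2) (.L 57)) (.L 2)) (.L 3)))) (.G 2 304 0 25916 51832 63980 12958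
  [.g 64 31 0 0, .n, .n, .g 256 1 0 0, .g 256 9 0 0, .n])) (.C 2 3 1 5 (.L
  17) (.C 1 3 1 4 (.L 17) (.B 2 1 2 (.C 1 3 1 8 (.L 50) (.L 294)) (.L
  380)))))))) (.C 1 3 1 10 (.B 2 4 1 (.B 1 1 2 (.C 1 3 2 1 (.C 1 2 5 1 (.C 1
  3 4 1 (.L 448) (.L 1244)) (.L 996)) (.C 1 3 1 2 (.L 186) (.C 2 3 2 5 (.L
  186) (.B 1 2 1 (.B 0 1 4 (.L 1) (.L 129)) (.L 1))))) (.C 2 3 2 5 (.C 2 3 4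
  1 (.C 1 2 5 1 (.L 2) (.C 1 2 1 2 (.L 1) (.C 2 3 8 1 (.L 57) (.L 1)))) (.L
  2)) (.C 1 3 2 1 (.L 2) (.C 1 3 1 2 (.L 2) (.L 1))))) (.C 1 3 2 1 (.C 1 2 5
  1 (.C 1 3 4 1 (.L 448) (.L 1244)) (.L 996)) (.C 2 3 2 5 (.L 186) (.C 1 3 1
  2 (.L 186) (.B 1 4 1 (.L 129) (.B 2 1 2 (.L 1) (.L 254))))))) (.C 1 3 1 20
  (.C 1 2 5 2 (.B 1 1 2 (.C 1 3 2 1 (.B 2 1 1 (.B 1 2 1 (.C 2 3 2 5 (.L 129)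
  (.B 1 4 1 (.B 0 1 4 (.C 1 2 40 1 (.L 1) (.C 1 2 1 2 (.L 1) (.C 1 2 1 4 (.C
  1 2 2 1 (.L 1) (.L 537)) (.L 44)))) (.L 84)) (.B 0 2 1 (.L 1) (.C 1 2 40 1
  (.L 1) (.B 1 1 2 (.C 1 2 1 2 (.L 1) (.C 1 2 1 4 (.C 1 2 2 1 (.L 1) (.C 0 2
  204352 1 (.L 1) (.L 318))) (.L 44))) (.L 1)))))) (.L 1)) (.B 1 4 1 (.L 84)
  (.C 2 3 2 5 (.L 129) (.C 0 1 640 1 (.B 2 1 2 (.C 1 2 20 1 (.L 1) (.C 1 2 1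
  2 (.L 1) (.L 44))) (.B 2 1 4 (.B 2 2 1 (.C 1 2 20 1 (.L 1) (.C 0 2 25536 1
  (.C 1 2 1 1 (.L 1) (.L 240)) (.L 444))) (.L 84)) (.L 84))) (.G 110 4 4 16
  8 319 32 [.g 2 55 0 0, .n, .n, .n]))))) (.B 1 2 1 (.L 44) (.C 1 3 1 2 (.B
  2 1 1 (.L 1) (.L 44)) (.L 44)))) (.B 2 4 1 (.L 1) (.B 0 1 1 (.B 2 1 2 (.L
  1) (.C 1 3 2 1 (.C 2 3 2 5 (.L 129) (.C 0 2 25536 1 (.B 0 2 1 (.B 2 1 4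
  (.L 1) (.B 2 1 8 (.C 0 1 640 1 (.C 1 3 2 1 (.C 2 3 1 10 (.C 1 3 80 1 (.L
  1418) (.C 1 2 1 4 (.L 1) (.C 1 2 1 8 (.C 1 2 2 1 (.L 1) (.L 318)) (.L
  318)))) (.L 1)) (.C 1 2 10 1 (.C 1 3 1 2 (.L 1) (.L 318)) (.L 318))) (.G
  90 4 4 32 16 1277 64 [.n, .n, .g 1 66 0 0, .n])) (.B 0 4 1 (.L 84) (.B 0 1
  2 (.L 84) (.B 1 4 1 (.C 1 2 80 1 (.L 1) (.C 2 3 1 20 (.C 1 2 1 2 (.L 1)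
  (.C 1 2 1 4 (.L 1) (.L 318))) (.L 1))) (.L 84)))))) (.L 1)) (.G 90 4 4
  1277 16 638 64 [.n, .n, .g 1 48 0 0, .n]))) (.L 44))) (.L 1)))) (.B 1 1 2
  (.L 44) (.B 2 4 1 (.C 2 3 3 4 (.C 1 2 1 4 (.L 1) (.L 1476)) (.L 1)) (.L
  44)))) (.B 1 1 2 (.L 52) (.B 2 4 1 (.C 1 2 4 3 (.C 1 3 1 40 (.L 1) (.L
  572)) (.L 572)) (.L 52)))))))) (.C 2 3 1 3 (.C 1 2 1 8 (.C 1 2 2 1 (.L
  272) (.L 81)) (.L 94)) (.C 1 2 1 4 (.C 1 2 2 1 (.C 1 3 1 25 (.C 1 3 2 1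
  (.L 196) (.L 114)) (.L 52)) (.B 1 1 1 (.L 52) (.C 2 3 1 49 (.C 2 3 2 1 (.L
  1632) (.L 39)) (.L 52)))) (.C 2 3 1 6 (.L 65) (.B 1 1 1 (.L 52) (.C 1 3 1
  49 (.C 1 3 2 1 (.L 18) (.L 9)) (.L 9))))))) (.B 1 1 1 (.L 110) (.B 2 4 1
  (.C 2 3 1 3 (.C 2 3 2 1 (.L 372) (.G 242 104 0 9026 4513 43437 21718 [.g 1
  28 0 0, .n, .n, .n])) (.C 1 3 3 4 (.L 50) (.C 0 3 2 5 (.C 0 3 4 1 (.L 50)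
  (.C 2 3 5 3 (.L 50) (.C 0 3 1 2 (.L 57) (.C 1 3 4 3 (.L 57) (.B 1 1 2 (.G
  394 17 1 4211496 6448853 6317244 1052874 [.n, .g 16 7 0 0, .n, .n, .n, .n,
  .g 1 69 0 0, .g 1 72 0 0]) (.G 2 304 0 90226 138159 135339 22557 [.g 4 3 0
  0, .n, .n, .g 256 1 0 0, .g 128 5 0 0, .n])))))) (.C 1 2 3 4 (.C 1 3 1 8
  (.B 1 1 2 (.G 872 90 2 694 528 3237 1090 [.g 1024 3 0 0, .g 512 1 0 0, .n,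
  .n, .n, .n, .g 8 5 0 0, .g 64 41 0 0]) (.G 2 57 2 27481 20938 128243 43184
  [.n, .n, .n, .g 1024 5 0 0, .g 256 9 0 0, .n])) (.B 1 1 2 (.C 0 1 3 2 (.C
  0 3 1 10 (.B 2 2 1 (.C 2 3 2 5 (.G 448 195 3 38 234 181 742 [.n, .g 64 25
  0 0, .n, .n, .n, .n]) (.C 0 3 2 1 (.G 507 448 1 11667 71461 226780 46669
  [.n, .g 64 51 0 0, .n, .n, .n, .n, .n, .n]) (.B 1 2 1 (.L 90) (.G 1 90 2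
  32 49 156 16 [.n, .n, .n, .g 2048 119 0 0, .n, .n])))) (.L 195)) (.G 25
  195 3 1 1 1 1 [.g 64 23 0 0, .n, .n, .n])) (.L 25)) (.B 2 8 1 (.C 2 3 1 47
  (.C 2 3 2 1 (.G 2 89 0 473 739 2246 8924 [.n, .n, .n, .g 32 1 0 0, .g 4 1
  0 0, .n]) (.L 2)) (.C 0 3 1 10 (.G 4 2 5 735 1149 6940 1471 [.n, .n, .g 13
  64 0 0, .n, .n, .g 64 59 0 0]) (.C 1 3 1 16 (.G 1 2 5 242 193 1160 387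
  [.n, .n, .n, .n, .n, .g 64 47 0 0]) (.G 4 1622 1 8865 14073 41776 443 [.n,
  .n, .n, .n, .g 32 1 0 0, .n])))) (.C 0 1 3 2 (.C 0 3 1 10 (.C 2 3 2 5 (.G
  2 50 1 6926 42424 32901 134633 [.n, .n, .n, .g 64 1 0 0, .g 64 5 0 0, .n])
  (.G 4 2 5 447 2739 8691 894 [.n, .n, .g 20 63 0 0, .n, .n, .g 64 39 0 0]))
  (.G 1 25 3 80 246 189 4 [.n, .n, .n, .g 256 1 0 0, .g 64 3 0 0, .g 256 1 0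
  0])) (.L 61))))) (.C 0 2 3 5 (.C 0 2 6 1 (.B 1 1 2 (.B 2 2 1 (.C 0 3 1 10
  (.C 1 3 2 5 (.G 380 448 1 7978 37898 95742 155082 [.n, .g 32 1 0 0, .n,
  .n]) (.C 0 3 2 1 (.G 448 334 1 11667 226780 140006 46669 [.n, .g 32 11 0
  0, .n, .n, .n, .n]) (.G 334 1 3 1414084 6893657 4242251 707042 [.g 1 76 0
  0, .g 3 73 0 0, .g 1 1303 0 0, .g 1 1347 0 0, .n, .n]))) (.C 0 2 6 1 (.G 1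
  195 3 80 189 960 4 [.n, .n, .n, .g 64 1 0 0, .g 16 1 0 0, .n]) (.C 2 3 1
  120 (.G 1 90 2 340 67 172 340 [.n, .n, .n, .g 32 1 0 0, .g 32 3 0 0, .n])
  (.G 1 195 3 960 189 960 4 [.n, .n, .n, .g 64 1 0 0, .g 16 1 0 0, .n]))))
  (.L 195)) (.C 1 3 1 47 (.G 2 304 0 14672 69691 176063 138466 [.n, .n, .n,
  .g 1024 5 0 0, .g 128 5 0 0, .n]) (.C 0 3 1 10 (.G 1 2 5 285 2694 3426 571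
  [.n, .n, .n, .g 5 13 0 0, .n, .g 64 55 0 0]) (.G 1 9 3 49615 233809 297688
  2481 [.n, .n, .n, .n, .g 128 1 0 0, .n])))) (.B 1 1 2 (.B 2 2 1 (.C 0 3 1
  120 (.C 1 3 5 1 (.L 50) (.C 0 3 2 1 (.G 996 334 1 228291 906032 114146
  913166 [.g 16 1 0 0, .n, .n, .n, .n, .n, .n, .n, .n, .n]) (.C 2 3 4 1 (.L
  186) (.C 1 3 1 2 (.L 186) (.C 0 3 1 2 (.G 254 1 4 3042034 6084068 3042034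
  6084068 [.n, .n, .g 1 92 0 0, .g 2 263 0 0, .n, .n, .n, .n]) (.L 44))))))
  (.C 1 2 4 3 (.G 537 195 3 2253 444 3464 9 [.g 64 49 0 0, .n, .g 64 41 0 0,
  .g 4 3 0 0]) (.L 832))) (.L 195)) (.C 2 3 1 60 (.G 2 304 0 367996 143608
  179510 367996 [.g 16 3 0 0, .n, .n, .g 1024 5 0 0, .g 128 5 0 0, .n]) (.G
  1 9 3 297688 117215 297688 2481 [.n, .n, .n, .n, .g 64 1 0 0, .n])))) (.C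
  1 2 1 8 (.C 1 2 2 1 (.C 1 3 1 47 (.C 1 3 2 1 (.C 2 3 1 1 (.L 57) (.G 1 304
  0 87011 69609 556873 278436 [.g 64 15 0 0, .n, .n, .g 32 1 0 0, .g 8 1 0
  0, .n])) (.C 0 1 3 1 (.L 162) (.C 1 2 1 1 (.G 1 90 2 63 32 64 16 [.n, .n,
  .n, .n, .g 32 15 0 0, .n]) (.L 162)))) (.L 162)) (.L 52)) (.L 616)))))))
  (.L 90)))) (.B 1 1 1 (.L 110) (.B 2 4 1 (.C 1 2 5 4 (.C 0 3 1 3 (.C 0 3 2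
  1 (.L 372) (.C 2 3 1 2 (.L 372) (.G 444 1001 0 203863 21181 410373 101931
  [.g 5 22 0 0, .n, .g 16 13 0 0, .g 1 9 0 0]))) (.C 2 3 1 12 (.C 0 2 2 1
  (.G 113 694 0 22273 4628 89671 89671 [.g 16 9 0 0, .n, .n, .n]) (.L 25))
  (.C 1 3 3 4 (.L 50) (.C 0 1 4 3 (.C 0 1 8 1 (.L 616) (.C 0 1 1 2 (.L 52)
  (.C 1 3 1 47 (.C 2 3 4 1 (.L 50) (.B 1 1 2 (.L 195) (.G 1 410 0 424578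
  106145 431212 212289 [.g 8 3 0 0, .n, .n, .n, .g 256 1 0 0, .n]))) (.L
  162)))) (.B 1 1 2 (.L 25) (.B 2 8 1 (.C 2 3 1 24 (.C 2 3 2 1 (.L 19) (.G
  1732 61 2 558 91 1140 570 [.g 64 15 0 0, .g 8 1 0 0, .n, .n, .n])) (.C 1 3
  1 8 (.B 1 1 4 (.L 25) (.G 2 890 2 168203 27462 171635 56640 [.n, .n, .n,
  .n, .g 256 7 0 0, .n])) (.B 1 1 4 (.G 25 1 4 189 63 193 4 [.n, .n, .n, .g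
  1 43 0 0]) (.G 2 1 5 4260 1420 4350 90 [.n, .n, .n, .n, .g 1 26 0 0, .g 13
  16 0 0])))) (.L 61))))))) (.C 0 3 1 3 (.G 81 70 3 229243 938463 114621
  458486 [.n, .n, .n, .g 29 32 0 0]) (.C 2 3 2 3 (.G 70 81 3 458486 938463
  114621 458486 [.n, .n, .n, .g 64 41 0 0]) (.G 52 148 0 25843 52762 25843
  4307 [.g 7 31 0 0, .n, .n])))) (.L 90)))) (.C 0 2 48 1 (.C 0 1 40 1 (.B 1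
  4 1 (.L 316) (.B 2 1 2 (.C 0 3 32 1 (.C 0 2 96 1 (.B 2 2 1 (.C 0 1 80 1
  (.B 1 1 2 (.L 316) (.C 0 3 64 1 (.C 1 2 5 4 (.C 2 3 1 12 (.C 2 3 2 1 (.L
  894) (.L 104)) (.C 1 3 3 4 (.L 50) (.C 1 3 1 8 (.C 2 3 2 3 (.L 50) (.C 1 3
  2 1 (.L 17) (.C 1 3 1 2 (.L 17) (.L 84)))) (.L 84)))) (.C 2 3 2 3 (.L
  2109) (.L 148))) (.L 90))) (.L 110)) (.L 316)) (.L 110)) (.L 110)) (.L
  316))) (.L 321)) (.L 321))) (.C 1 3 3 2 (.L 25) (.B 2 2 1 (.B 1 1 1 (.L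
  25) (.C 2 3 2 3 (.L 25) (.C 0 3 3 4 (.L 25) (.C 1 3 1 4 (.L 25) (.C 2 3 1
  6 (.L 61) (.B 2 4 1 (.C 1 3 1 8 (.L 61) (.B 1 1 2 (.L 25) (.B 2 8 1 (.C 0
  2 3 2 (.B 1 1 4 (.G 1 25 3 62 127 378 8 [.n, .n, .n, .g 64 1 0 0, .g 64 1
  0 0, .g 256 1 0 0]) (.C 0 3 1 8 (.G 2 25 3 16 33 98 33 [.n, .n, .n, .n, .g
  32 9 0 0, .n]) (.G 2 1 5 821 828 2464 52 [.n, .n, .n, .n, .g 7 67 0 0, .g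
  4 5 0 0]))) (.C 1 2 3 4 (.G 1 61 2 378 127 765 8 [.n, .n, .n, .n, .g 256 1
  0 0, .g 512 1 0 0]) (.C 0 2 1 4 (.C 0 2 2 1 (.G 1 61 2 378 765 1518 8 [.g
  32 7 0 0, .n, .n, .n, .g 256 1 0 0, .n]) (.L 52)) (.L 114)))) (.L 61))))
  (.L 25))))))) (.L 25)))) (.C 0 3 1 2 (.C 0 1 2 3 (.C 1 2 2 5 (.B 2 2 1 (.C
  0 1 4 1 (.B 1 1 1 (.L 25) (.C 0 2 15 1 (.B 2 4 1 (.G 1 25 3 8 63 242 16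
  [.g 4 1 0 0, .n, .n, .g 256 1 0 0, .g 256 3 0 0, .g 512 1 0 0]) (.L 25))
  (.L 25))) (.L 25)) (.L 25)) (.G 616 90 2 4 61 6 8 [.g 16 1 0 0, .n, .n, .g
  64 29 0 0, .g 39 64 0 0])) (.L 25)) (.G 1783 638 2 1 1 1 1 [.n, .n, .n, .g
  1 1 8342 0, .n]))) (.G 61 4061 0 1 1 1 1 [.n, .n, .n, .g 1 0 6242 0])))
  (by decide +kernel)

end Pool.Agent.TET.Cvr
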