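import Pool.Agent.Helper37_TET.EN1_000
import Pool.Agent.Helper37_TET.EN1_001
import Pool.Agent.Helper37_TET.EN1_002
import Pool.Agent.Helper37_TET.EN1_003
import Pool.Agent.Helper37_TET.EN1_004
import Pool.Agent.Helper37_TET.EN1_005
import Pool.Agent.Helper37_TET.EN1_006
import Pool.Agent.Helper37_TET.EN1_007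
import Pool.Agent.Helper37_TET.EN1_008
import Pool.Agent.Helper37_TET.EN1_009
import Pool.Agent.Helper37_TET.EN1_010
import Pool.Agent.Helper37_TET.EN1_011
import Pool.Agent.Helper37_TET.EN1_012
import Pool.Agent.Helper37_TET.EN1_013
import Pool.Agent.Helper37_TET.EN1_014
import Pool.Agent.Helper37_TET.EN1_015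

/-!
# MP_c7c9bf_co: cover of the charts, root 1, assembly 0
-/

set_option autoImplicit false
set_option maxRecDepth 100000

namespace Pool.Agent.TET.Cvr

theorem EN1_t0 : CoN ENTab ⟨⟨2, 3, 8⟩, ⟨1, 3, 8⟩, ⟨3, 7, 16⟩, ⟨1, 0, 0, 0,
  0⟩, ⟨8, 2, 0, 0, 1⟩, ⟨8, 2, 2, 1, 1⟩, ⟨4, 1, 1, 0, 1⟩⟩ :=
  CoN.c 0 3 16 1 rfl rfl rfl rfl rfl EN1_c1 EN1_c2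

theorem EN1_t1 : CoN ENTab ⟨⟨2, 3, 8⟩, ⟨1, 3, 8⟩, ⟨3, 7, 16⟩, ⟨1, 0, 0, 0,
  0⟩, ⟨8, 2, 0, 0, 1⟩, ⟨4, 1, 1, 1, 0⟩, ⟨4, 1, 1, 0, 1⟩⟩ :=
  CoN.c 2 3 1 1 rfl rfl rfl rfl rfl EN1_c0 EN1_t0

theorem EN1_t2 : CoN ENTab ⟨⟨2, 3, 8⟩, ⟨3, 7, 16⟩, ⟨1, 2, 4⟩, ⟨1, 0, 0, 0,
  0⟩, ⟨28, 2, 0, 0, 1⟩, ⟨20, 1, 1, 1, 0⟩, ⟨4, 1, 1, 0, 1⟩⟩ :=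
  CoN.c 1 2 3 4 rfl rfl rfl rfl rfl EN1_c3 EN1_c4

theorem EN1_t3 : CoN ENTab ⟨⟨2, 3, 8⟩, ⟨3, 7, 16⟩, ⟨1, 2, 4⟩, ⟨1, 0, 0, 0,
  0⟩, ⟨28, 2, 0, 0, 1⟩, ⟨4, 1, 1, 1, 0⟩, ⟨4, 1, 1, 0, 1⟩⟩ :=
  CoN.c 0 2 16 1 rfl rfl rfl rfl rfl EN1_t2 EN1_c5

theorem EN1_t4 : CoN ENTab ⟨⟨2, 3, 8⟩, ⟨3, 7, 16⟩, ⟨1, 2, 4⟩, ⟨1, 0, 0, 0,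
  0⟩, ⟨8, 2, 0, 0, 1⟩, ⟨4, 1, 1, 1, 0⟩, ⟨4, 1, 1, 0, 1⟩⟩ :=
  CoN.c 0 1 20 1 rfl rfl rfl rfl rfl EN1_t3 EN1_c6

theorem EN1_t5 : CoN ENTab ⟨⟨2, 3, 8⟩, ⟨1, 3, 8⟩, ⟨1, 2, 4⟩, ⟨1, 0, 0, 0,
  0⟩, ⟨8, 2, 0, 0, 1⟩, ⟨4, 1, 1, 1, 0⟩, ⟨4, 1, 1, 0, 1⟩⟩ :=
  CoN.b 1 1 2 rfl rfl rfl EN1_t1 EN1_t4

theorem EN1_t6 : CoN ENTab ⟨⟨1, 1, 4⟩, ⟨3, 5, 16⟩, ⟨2, 3, 8⟩, ⟨1, 0, 0, 0,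
  0⟩, ⟨40, 10, 4, 0, 7⟩, ⟨172, 19, 19, 2, 17⟩, ⟨20, 1, 1, 0, 1⟩⟩ :=
  CoN.c 1 2 3 1 rfl rfl rfl rfl rfl EN1_c12 EN1_c13

theorem EN1_t7 : CoN ENTab ⟨⟨1, 1, 4⟩, ⟨3, 5, 16⟩, ⟨2, 3, 8⟩, ⟨1, 0, 0, 0,
  0⟩, ⟨40, 10, 4, 0, 7⟩, ⟨52, 13, 13, 2, 11⟩, ⟨20, 1, 1, 0, 1⟩⟩ :=
  CoN.c 2 3 1 6 rfl rfl rfl rfl rfl EN1_c11 EN1_t6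

theorem EN1_t8 : CoN ENTab ⟨⟨4, 5, 16⟩, ⟨3, 5, 16⟩, ⟨2, 3, 8⟩, ⟨28, 3, 3, 0,
  3⟩, ⟨120, 14, 8, 0, 11⟩, ⟨5268, 693, 459, 8, 568⟩, ⟨4, 1, 1, 0, 1⟩⟩ :=
  CoN.c 1 3 1 16 rfl rfl rfl rfl rfl EN1_c16 EN1_c17

theorem EN1_t9 : CoN ENTab ⟨⟨4, 5, 16⟩, ⟨3, 5, 16⟩, ⟨2, 3, 8⟩, ⟨20, 1, 1, 0,
  1⟩, ⟨120, 14, 8, 0, 11⟩, ⟨5268, 693, 459, 8, 568⟩, ⟨4, 1, 1, 0, 1⟩⟩ :=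
  CoN.c 0 3 1 2 rfl rfl rfl rfl rfl EN1_c15 EN1_t8

theorem EN1_t10 : CoN ENTab ⟨⟨4, 5, 16⟩, ⟨3, 5, 16⟩, ⟨2, 3, 8⟩, ⟨20, 1, 1,
  0, 1⟩, ⟨120, 14, 8, 0, 11⟩, ⟨2388, 357, 267, 8, 304⟩, ⟨4, 1, 1, 0, 1⟩⟩ :=
  CoN.c 1 2 24 1 rfl rfl rfl rfl rfl EN1_t9 EN1_c18

theorem EN1_t11 : CoN ENTab ⟨⟨4, 5, 16⟩, ⟨3, 5, 16⟩, ⟨2, 3, 8⟩, ⟨20, 1, 1,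
  0, 1⟩, ⟨120, 14, 8, 0, 11⟩, ⟨948, 189, 171, 8, 172⟩, ⟨4, 1, 1, 0, 1⟩⟩ :=
  CoN.c 1 2 12 1 rfl rfl rfl rfl rfl EN1_t10 EN1_c19

theorem EN1_t12 : CoN ENTab ⟨⟨1, 1, 4⟩, ⟨3, 5, 16⟩, ⟨2, 3, 8⟩, ⟨20, 1, 1, 0,
  1⟩, ⟨120, 14, 8, 0, 11⟩, ⟨948, 189, 171, 8, 172⟩, ⟨4, 1, 1, 0, 1⟩⟩ :=
  CoN.b 2 1 2 rfl rfl rfl EN1_t11 EN1_c20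

theorem EN1_t13 : CoN ENTab ⟨⟨1, 1, 4⟩, ⟨3, 5, 16⟩, ⟨2, 3, 8⟩, ⟨20, 1, 1, 0,
  1⟩, ⟨120, 14, 8, 0, 11⟩, ⟨568, 94, 76, 8, 77⟩, ⟨4, 1, 1, 0, 1⟩⟩ :=
  CoN.c 2 3 1 95 rfl rfl rfl rfl rfl EN1_c14 EN1_t12

theorem EN1_t14 : CoN ENTab ⟨⟨1, 1, 4⟩, ⟨3, 5, 16⟩, ⟨2, 3, 8⟩, ⟨20, 1, 1, 0,
  1⟩, ⟨568, 94, 76, 8, 77⟩, ⟨52, 13, 13, 2, 11⟩, ⟨4, 1, 1, 0, 1⟩⟩ :=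
  CoN.c 0 2 6 1 rfl rfl rfl rfl rfl EN1_c21 EN1_c22

theorem EN1_t15 : CoN ENTab ⟨⟨1, 1, 4⟩, ⟨3, 5, 16⟩, ⟨2, 3, 8⟩, ⟨20, 1, 1, 0,
  1⟩, ⟨120, 14, 8, 0, 11⟩, ⟨52, 13, 13, 2, 11⟩, ⟨4, 1, 1, 0, 1⟩⟩ :=
  CoN.c 1 2 3 4 rfl rfl rfl rfl rfl EN1_t13 EN1_t14

theorem EN1_t16 : CoN ENTab ⟨⟨1, 1, 4⟩, ⟨3, 5, 16⟩, ⟨2, 3, 8⟩, ⟨120, 14, 8,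
  0, 11⟩, ⟨200, 34, 16, 0, 25⟩, ⟨52, 13, 13, 2, 11⟩, ⟨4, 1, 1, 0, 1⟩⟩ :=
  CoN.c 0 3 1 16 rfl rfl rfl rfl rfl EN1_c23 EN1_c24

theorem EN1_t17 : CoN ENTab ⟨⟨1, 1, 4⟩, ⟨3, 5, 16⟩, ⟨2, 3, 8⟩, ⟨120, 14, 8,
  0, 11⟩, ⟨40, 10, 4, 0, 7⟩, ⟨52, 13, 13, 2, 11⟩, ⟨4, 1, 1, 0, 1⟩⟩ :=
  CoN.c 0 1 1 2 rfl rfl rfl rfl rfl EN1_t16 EN1_c25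

theorem EN1_t18 : CoN ENTab ⟨⟨1, 1, 4⟩, ⟨3, 5, 16⟩, ⟨2, 3, 8⟩, ⟨20, 1, 1, 0,
  1⟩, ⟨40, 10, 4, 0, 7⟩, ⟨52, 13, 13, 2, 11⟩, ⟨4, 1, 1, 0, 1⟩⟩ :=
  CoN.c 0 1 4 1 rfl rfl rfl rfl rfl EN1_t15 EN1_t17

theorem EN1_t19 : CoN ENTab ⟨⟨1, 1, 4⟩, ⟨3, 5, 16⟩, ⟨2, 3, 8⟩, ⟨1, 0, 0, 0,
  0⟩, ⟨40, 10, 4, 0, 7⟩, ⟨52, 13, 13, 2, 11⟩, ⟨4, 1, 1, 0, 1⟩⟩ :=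
  CoN.c 0 3 16 1 rfl rfl rfl rfl rfl EN1_t7 EN1_t18

theorem EN1_t20 : CoN ENTab ⟨⟨1, 1, 4⟩, ⟨3, 5, 16⟩, ⟨2, 3, 8⟩, ⟨1, 0, 0, 0,
  0⟩, ⟨8, 2, 0, 0, 1⟩, ⟨52, 13, 13, 2, 11⟩, ⟨4, 1, 1, 0, 1⟩⟩ :=
  CoN.c 1 3 3 4 rfl rfl rfl rfl rfl EN1_c10 EN1_t19

theorem EN1_t21 : CoN ENTab ⟨⟨1, 1, 4⟩, ⟨3, 5, 16⟩, ⟨2, 3, 8⟩, ⟨1, 0, 0, 0,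
  0⟩, ⟨8, 2, 0, 0, 1⟩, ⟨28, 7, 7, 2, 5⟩, ⟨4, 1, 1, 0, 1⟩⟩ :=
  CoN.c 2 3 1 6 rfl rfl rfl rfl rfl EN1_c9 EN1_t20

theorem EN1_t22 : CoN ENTab ⟨⟨1, 1, 4⟩, ⟨3, 5, 16⟩, ⟨2, 3, 8⟩, ⟨1, 0, 0, 0,
  0⟩, ⟨8, 2, 0, 0, 1⟩, ⟨8, 2, 2, 1, 1⟩, ⟨4, 1, 1, 0, 1⟩⟩ :=
  CoN.c 2 3 2 3 rfl rfl rfl rfl rfl EN1_c8 EN1_t21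

theorem EN1_t23 : CoN ENTab ⟨⟨1, 1, 4⟩, ⟨3, 5, 16⟩, ⟨2, 3, 8⟩, ⟨1, 0, 0, 0,
  0⟩, ⟨8, 2, 0, 0, 1⟩, ⟨4, 1, 1, 1, 0⟩, ⟨4, 1, 1, 0, 1⟩⟩ :=
  CoN.c 2 3 1 1 rfl rfl rfl rfl rfl EN1_c7 EN1_t22

theorem EN1_t24 : CoN ENTab ⟨⟨3, 5, 16⟩, ⟨1, 3, 8⟩, ⟨2, 3, 8⟩, ⟨20, 1, 1, 0,
  1⟩, ⟨8, 2, 0, 0, 1⟩, ⟨8, 2, 2, 1, 1⟩, ⟨28, 3, 3, 0, 3⟩⟩ :=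
  CoN.c 0 2 3 4 rfl rfl rfl rfl rfl EN1_c28 EN1_c29

theorem EN1_t25 : CoN ENTab ⟨⟨3, 5, 16⟩, ⟨1, 3, 8⟩, ⟨2, 3, 8⟩, ⟨20, 1, 1, 0,
  1⟩, ⟨8, 2, 0, 0, 1⟩, ⟨8, 2, 2, 1, 1⟩, ⟨4, 1, 1, 0, 1⟩⟩ :=
  CoN.c 0 3 1 2 rfl rfl rfl rfl rfl EN1_t24 EN1_c30

theorem EN1_t26 : CoN ENTab ⟨⟨3, 5, 16⟩, ⟨1, 3, 8⟩, ⟨2, 3, 8⟩, ⟨1, 0, 0, 0,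
  0⟩, ⟨8, 2, 0, 0, 1⟩, ⟨8, 2, 2, 1, 1⟩, ⟨4, 1, 1, 0, 1⟩⟩ :=
  CoN.c 0 3 16 1 rfl rfl rfl rfl rfl EN1_c27 EN1_t25

theorem EN1_t27 : CoN ENTab ⟨⟨3, 5, 16⟩, ⟨1, 3, 8⟩, ⟨2, 3, 8⟩, ⟨1, 0, 0, 0,
  0⟩, ⟨8, 2, 0, 0, 1⟩, ⟨4, 1, 1, 1, 0⟩, ⟨4, 1, 1, 0, 1⟩⟩ :=
  CoN.c 2 3 1 1 rfl rfl rfl rfl rfl EN1_c26 EN1_t26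

theorem EN1_t28 : CoN ENTab ⟨⟨1, 1, 4⟩, ⟨1, 3, 8⟩, ⟨2, 3, 8⟩, ⟨1, 0, 0, 0,
  0⟩, ⟨8, 2, 0, 0, 1⟩, ⟨4, 1, 1, 1, 0⟩, ⟨4, 1, 1, 0, 1⟩⟩ :=
  CoN.b 0 2 1 rfl rfl rfl EN1_t23 EN1_t27

theorem EN1_t29 : CoN ENTab ⟨⟨1, 1, 4⟩, ⟨1, 3, 8⟩, ⟨1, 2, 4⟩, ⟨1, 0, 0, 0,
  0⟩, ⟨8, 2, 0, 0, 1⟩, ⟨4, 1, 1, 1, 0⟩, ⟨4, 1, 1, 0, 1⟩⟩ :=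
  CoN.b 2 1 1 rfl rfl rfl EN1_t5 EN1_t28

theorem EN1_t30 : CoN ENTab ⟨⟨1, 3, 8⟩, ⟨1, 4, 8⟩, ⟨1, 2, 4⟩, ⟨1, 0, 0, 0,
  0⟩, ⟨8, 2, 0, 0, 1⟩, ⟨4, 1, 1, 1, 0⟩, ⟨4, 1, 1, 0, 1⟩⟩ :=
  CoN.b 2 2 1 rfl rfl rfl EN1_c32 EN1_c33

theorem EN1_t31 : CoN ENTab ⟨⟨1, 3, 8⟩, ⟨0, 1, 2⟩, ⟨1, 2, 4⟩, ⟨1, 0, 0, 0,
  0⟩, ⟨8, 2, 0, 0, 1⟩, ⟨4, 1, 1, 1, 0⟩, ⟨4, 1, 1, 0, 1⟩⟩ :=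
  CoN.b 1 2 1 rfl rfl rfl EN1_c31 EN1_t30

theorem EN1_t32 : CoN ENTab ⟨⟨1, 1, 4⟩, ⟨0, 1, 2⟩, ⟨1, 2, 4⟩, ⟨1, 0, 0, 0,
  0⟩, ⟨8, 2, 0, 0, 1⟩, ⟨4, 1, 1, 1, 0⟩, ⟨4, 1, 1, 0, 1⟩⟩ :=
  CoN.b 0 1 2 rfl rfl rfl EN1_t29 EN1_t31

theorem EN1_t33 : CoN ENTab ⟨⟨3, 3, 8⟩, ⟨5, 7, 16⟩, ⟨3, 4, 8⟩, ⟨1, 0, 0, 0,
  0⟩, ⟨1652, 389, 179, 6, 278⟩, ⟨852, 189, 99, 6, 138⟩, ⟨4, 1, 1, 0, 1⟩⟩ :=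
  CoN.c 1 3 1 313 rfl rfl rfl rfl rfl EN1_c38 EN1_c39

theorem EN1_t34 : CoN ENTab ⟨⟨3, 3, 8⟩, ⟨5, 7, 16⟩, ⟨3, 4, 8⟩, ⟨1, 0, 0, 0,
  0⟩, ⟨40, 10, 4, 0, 7⟩, ⟨852, 189, 99, 6, 138⟩, ⟨4, 1, 1, 0, 1⟩⟩ :=
  CoN.c 1 2 20 1 rfl rfl rfl rfl rfl EN1_c37 EN1_t33

theorem EN1_t35 : CoN ENTab ⟨⟨3, 3, 8⟩, ⟨5, 7, 16⟩, ⟨3, 4, 8⟩, ⟨1, 0, 0, 0,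
  0⟩, ⟨40, 10, 4, 0, 7⟩, ⟨452, 89, 59, 6, 68⟩, ⟨4, 1, 1, 0, 1⟩⟩ :=
  CoN.c 1 2 10 1 rfl rfl rfl rfl rfl EN1_t34 EN1_c40

theorem EN1_t36 : CoN ENTab ⟨⟨3, 3, 8⟩, ⟨5, 7, 16⟩, ⟨3, 4, 8⟩, ⟨1, 0, 0, 0,
  0⟩, ⟨452, 89, 59, 6, 68⟩, ⟨84, 13, 13, 2, 11⟩, ⟨776, 170, 140, 6, 149⟩⟩ :=
  CoN.b 2 1 1 rfl rfl rfl EN1_c41 EN1_c42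

theorem EN1_t37 : CoN ENTab ⟨⟨3, 3, 8⟩, ⟨5, 7, 16⟩, ⟨3, 4, 8⟩, ⟨1, 0, 0, 0,
  0⟩, ⟨776, 170, 140, 6, 149⟩, ⟨84, 13, 13, 2, 11⟩, ⟨4, 1, 1, 0, 1⟩⟩ :=
  CoN.c 2 3 1 14 rfl rfl rfl rfl rfl EN1_c43 EN1_c44

theorem EN1_t38 : CoN ENTab ⟨⟨3, 3, 8⟩, ⟨5, 7, 16⟩, ⟨3, 4, 8⟩, ⟨1, 0, 0, 0,
  0⟩, ⟨452, 89, 59, 6, 68⟩, ⟨84, 13, 13, 2, 11⟩, ⟨4, 1, 1, 0, 1⟩⟩ :=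
  CoN.c 1 3 1 81 rfl rfl rfl rfl rfl EN1_t36 EN1_t37

theorem EN1_t39 : CoN ENTab ⟨⟨3, 3, 8⟩, ⟨5, 7, 16⟩, ⟨3, 4, 8⟩, ⟨1, 0, 0, 0,
  0⟩, ⟨40, 10, 4, 0, 7⟩, ⟨84, 13, 13, 2, 11⟩, ⟨4, 1, 1, 0, 1⟩⟩ :=
  CoN.c 1 2 5 3 rfl rfl rfl rfl rfl EN1_t35 EN1_t38

theorem EN1_t40 : CoN ENTab ⟨⟨3, 3, 8⟩, ⟨5, 7, 16⟩, ⟨3, 4, 8⟩, ⟨1, 0, 0, 0,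
  0⟩, ⟨8, 2, 0, 0, 1⟩, ⟨84, 13, 13, 2, 11⟩, ⟨4, 1, 1, 0, 1⟩⟩ :=
  CoN.c 1 3 3 4 rfl rfl rfl rfl rfl EN1_c36 EN1_t39

theorem EN1_t41 : CoN ENTab ⟨⟨3, 3, 8⟩, ⟨5, 7, 16⟩, ⟨3, 4, 8⟩, ⟨1, 0, 0, 0,
  0⟩, ⟨8, 2, 0, 0, 1⟩, ⟨28, 3, 3, 1, 2⟩, ⟨4, 1, 1, 0, 1⟩⟩ :=
  CoN.c 2 3 2 7 rfl rfl rfl rfl rfl EN1_c35 EN1_t40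

theorem EN1_t42 : CoN ENTab ⟨⟨3, 3, 8⟩, ⟨5, 7, 16⟩, ⟨3, 4, 8⟩, ⟨1, 0, 0, 0,
  0⟩, ⟨8, 2, 0, 0, 1⟩, ⟨20, 1, 1, 1, 0⟩, ⟨4, 1, 1, 0, 1⟩⟩ :=
  CoN.c 2 3 1 2 rfl rfl rfl rfl rfl EN1_c34 EN1_t41

theorem EN1_t43 : CoN ENTab ⟨⟨3, 3, 8⟩, ⟨5, 7, 16⟩, ⟨3, 4, 8⟩, ⟨20, 1, 1, 1,
  0⟩, ⟨8, 2, 0, 0, 1⟩, ⟨28, 3, 3, 3, 0⟩, ⟨4, 1, 1, 0, 1⟩⟩ :=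
  CoN.c 0 3 1 2 rfl rfl rfl rfl rfl EN1_c45 EN1_c46

theorem EN1_t44 : CoN ENTab ⟨⟨3, 3, 8⟩, ⟨5, 7, 16⟩, ⟨3, 4, 8⟩, ⟨20, 1, 1, 1,
  0⟩, ⟨8, 2, 0, 0, 1⟩, ⟨4, 1, 1, 1, 0⟩, ⟨4, 1, 1, 0, 1⟩⟩ :=
  CoN.c 0 2 1 2 rfl rfl rfl rfl rfl EN1_t43 EN1_c47

theorem EN1_t45 : CoN ENTab ⟨⟨3, 3, 8⟩, ⟨5, 7, 16⟩, ⟨3, 4, 8⟩, ⟨1, 0, 0, 0,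
  0⟩, ⟨8, 2, 0, 0, 1⟩, ⟨4, 1, 1, 1, 0⟩, ⟨4, 1, 1, 0, 1⟩⟩ :=
  CoN.c 0 2 16 1 rfl rfl rfl rfl rfl EN1_t42 EN1_t44

theorem EN1_t46 : CoN ENTab ⟨⟨5, 7, 16⟩, ⟨1, 2, 4⟩, ⟨3, 4, 8⟩, ⟨1, 0, 0, 0,
  0⟩, ⟨8, 2, 0, 0, 1⟩, ⟨8, 2, 2, 1, 1⟩, ⟨4, 1, 1, 0, 1⟩⟩ :=
  CoN.c 0 1 20 1 rfl rfl rfl rfl rfl EN1_c49 EN1_c50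

theorem EN1_t47 : CoN ENTab ⟨⟨5, 7, 16⟩, ⟨1, 2, 4⟩, ⟨3, 4, 8⟩, ⟨1, 0, 0, 0,
  0⟩, ⟨8, 2, 0, 0, 1⟩, ⟨4, 1, 1, 1, 0⟩, ⟨4, 1, 1, 0, 1⟩⟩ :=
  CoN.c 2 3 1 1 rfl rfl rfl rfl rfl EN1_c48 EN1_t46

theorem EN1_t48 : CoN ENTab ⟨⟨3, 3, 8⟩, ⟨1, 2, 4⟩, ⟨3, 4, 8⟩, ⟨1, 0, 0, 0,
  0⟩, ⟨8, 2, 0, 0, 1⟩, ⟨4, 1, 1, 1, 0⟩, ⟨4, 1, 1, 0, 1⟩⟩ :=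
  CoN.b 0 1 2 rfl rfl rfl EN1_t45 EN1_t47

theorem EN1_t49 : CoN ENTab ⟨⟨15, 15, 32⟩, ⟨3, 4, 8⟩, ⟨1, 1, 2⟩, ⟨1, 0, 0,
  0, 0⟩, ⟨112, 28, 22, 22, 3⟩, ⟨20, 1, 1, 1, 0⟩, ⟨244, 13, 13, 11, 2⟩⟩ :=
  CoN.c 0 1 388 1 rfl rfl rfl rfl rfl EN1_c54 EN1_c55

theorem EN1_t50 : CoN ENTab ⟨⟨15, 15, 32⟩, ⟨3, 4, 8⟩, ⟨1, 1, 2⟩, ⟨1, 0, 0,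
  0, 0⟩, ⟨112, 28, 22, 22, 3⟩, ⟨4, 1, 1, 1, 0⟩, ⟨244, 13, 13, 11, 2⟩⟩ :=
  CoN.c 0 2 16 1 rfl rfl rfl rfl rfl EN1_t49 EN1_c56

theorem EN1_t51 : CoN ENTab ⟨⟨7, 7, 16⟩, ⟨3, 4, 8⟩, ⟨1, 1, 2⟩, ⟨1, 0, 0, 0,
  0⟩, ⟨112, 28, 22, 22, 3⟩, ⟨4, 1, 1, 1, 0⟩, ⟨244, 13, 13, 11, 2⟩⟩ :=
  CoN.b 2 8 1 rfl rfl rfl EN1_t50 EN1_c57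

theorem EN1_t52 : CoN ENTab ⟨⟨7, 7, 16⟩, ⟨3, 4, 8⟩, ⟨1, 1, 2⟩, ⟨1, 0, 0, 0,
  0⟩, ⟨112, 28, 22, 22, 3⟩, ⟨4, 1, 1, 1, 0⟩, ⟨52, 13, 13, 11, 2⟩⟩ :=
  CoN.c 0 3 192 1 rfl rfl rfl rfl rfl EN1_t51 EN1_c58

theorem EN1_t53 : CoN ENTab ⟨⟨7, 7, 16⟩, ⟨3, 4, 8⟩, ⟨1, 1, 2⟩, ⟨1, 0, 0, 0,
  0⟩, ⟨64, 16, 10, 10, 3⟩, ⟨4, 1, 1, 1, 0⟩, ⟨52, 13, 13, 11, 2⟩⟩ :=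
  CoN.c 1 2 1 12 rfl rfl rfl rfl rfl EN1_c53 EN1_t52

theorem EN1_t54 : CoN ENTab ⟨⟨7, 7, 16⟩, ⟨3, 4, 8⟩, ⟨1, 1, 2⟩, ⟨1, 0, 0, 0,
  0⟩, ⟨64, 16, 10, 10, 3⟩, ⟨4, 1, 1, 1, 0⟩, ⟨28, 7, 7, 5, 2⟩⟩ :=
  CoN.c 2 3 6 1 rfl rfl rfl rfl rfl EN1_t53 EN1_c59

theorem EN1_t55 : CoN ENTab ⟨⟨7, 7, 16⟩, ⟨3, 4, 8⟩, ⟨1, 1, 2⟩, ⟨1, 0, 0, 0,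
  0⟩, ⟨40, 10, 4, 4, 3⟩, ⟨4, 1, 1, 1, 0⟩, ⟨28, 7, 7, 5, 2⟩⟩ :=
  CoN.c 1 2 1 6 rfl rfl rfl rfl rfl EN1_c52 EN1_t54

theorem EN1_t56 : CoN ENTab ⟨⟨7, 7, 16⟩, ⟨3, 4, 8⟩, ⟨1, 1, 2⟩, ⟨1, 0, 0, 0,
  0⟩, ⟨40, 10, 4, 4, 3⟩, ⟨4, 1, 1, 1, 0⟩, ⟨8, 2, 2, 1, 1⟩⟩ :=
  CoN.c 2 3 3 2 rfl rfl rfl rfl rfl EN1_t55 EN1_c60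

theorem EN1_t57 : CoN ENTab ⟨⟨7, 7, 16⟩, ⟨3, 4, 8⟩, ⟨1, 1, 2⟩, ⟨1, 0, 0, 0,
  0⟩, ⟨8, 2, 0, 0, 1⟩, ⟨4, 1, 1, 1, 0⟩, ⟨8, 2, 2, 1, 1⟩⟩ :=
  CoN.c 1 2 3 4 rfl rfl rfl rfl rfl EN1_c51 EN1_t56

theorem EN1_t58 : CoN ENTab ⟨⟨7, 7, 16⟩, ⟨3, 4, 8⟩, ⟨1, 1, 2⟩, ⟨1, 0, 0, 0,
  0⟩, ⟨8, 2, 0, 0, 1⟩, ⟨152, 38, 8, 4, 19⟩, ⟨28, 7, 7, 2, 5⟩⟩ :=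
  CoN.c 1 3 5 1 rfl rfl rfl rfl rfl EN1_c61 EN1_c62

theorem EN1_t59 : CoN ENTab ⟨⟨7, 7, 16⟩, ⟨3, 4, 8⟩, ⟨1, 1, 2⟩, ⟨1, 0, 0, 0,
  0⟩, ⟨8, 2, 0, 0, 1⟩, ⟨72, 18, 8, 4, 9⟩, ⟨28, 7, 7, 2, 5⟩⟩ :=
  CoN.c 1 2 10 1 rfl rfl rfl rfl rfl EN1_t58 EN1_c63

theorem EN1_t60 : CoN ENTab ⟨⟨7, 7, 16⟩, ⟨3, 4, 8⟩, ⟨1, 1, 2⟩, ⟨1, 0, 0, 0,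
  0⟩, ⟨8, 2, 0, 0, 1⟩, ⟨8, 2, 2, 1, 1⟩, ⟨28, 7, 7, 2, 5⟩⟩ :=
  CoN.c 1 2 5 4 rfl rfl rfl rfl rfl EN1_t59 EN1_c64

theorem EN1_t61 : CoN ENTab ⟨⟨29, 31, 64⟩, ⟨3, 4, 8⟩, ⟨7, 8, 16⟩, ⟨1, 0, 0,
  0, 0⟩, ⟨412, 10, 4, 0, 7⟩, ⟨244, 13, 13, 2, 11⟩, ⟨732, 26, 20, 0, 23⟩⟩ :=
  CoN.c 1 2 3 4 rfl rfl rfl rfl rfl EN1_c68 EN1_c69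

theorem EN1_t62 : CoN ENTab ⟨⟨29, 31, 64⟩, ⟨3, 4, 8⟩, ⟨7, 8, 16⟩, ⟨1, 0, 0,
  0, 0⟩, ⟨412, 10, 4, 0, 7⟩, ⟨244, 13, 13, 2, 11⟩, ⟨20, 1, 1, 0, 1⟩⟩ :=
  CoN.c 1 3 1 16 rfl rfl rfl rfl rfl EN1_t61 EN1_c70

theorem EN1_t63 : CoN ENTab ⟨⟨29, 31, 64⟩, ⟨3, 4, 8⟩, ⟨1, 1, 2⟩, ⟨1, 0, 0,
  0, 0⟩, ⟨412, 10, 4, 0, 7⟩, ⟨244, 13, 13, 2, 11⟩, ⟨20, 1, 1, 0, 1⟩⟩ :=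
  CoN.b 1 1 4 rfl rfl rfl EN1_t62 EN1_c71

theorem EN1_t64 : CoN ENTab ⟨⟨29, 31, 64⟩, ⟨3, 4, 8⟩, ⟨1, 1, 2⟩, ⟨1, 0, 0,
  0, 0⟩, ⟨164, 10, 4, 0, 7⟩, ⟨244, 13, 13, 2, 11⟩, ⟨20, 1, 1, 0, 1⟩⟩ :=
  CoN.c 0 1 248 1 rfl rfl rfl rfl rfl EN1_t63 EN1_c72

theorem EN1_t65 : CoN ENTab ⟨⟨29, 31, 64⟩, ⟨3, 4, 8⟩, ⟨1, 1, 2⟩, ⟨1, 0, 0,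
  0, 0⟩, ⟨164, 10, 4, 0, 7⟩, ⟨244, 13, 13, 2, 11⟩, ⟨4, 1, 1, 0, 1⟩⟩ :=
  CoN.c 0 3 16 1 rfl rfl rfl rfl rfl EN1_t64 EN1_c73

theorem EN1_t66 : CoN ENTab ⟨⟨29, 31, 64⟩, ⟨3, 4, 8⟩, ⟨1, 1, 2⟩, ⟨1, 0, 0,
  0, 0⟩, ⟨164, 10, 4, 0, 7⟩, ⟨52, 13, 13, 2, 11⟩, ⟨4, 1, 1, 0, 1⟩⟩ :=
  CoN.c 0 2 192 1 rfl rfl rfl rfl rfl EN1_t65 EN1_c74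

theorem EN1_t67 : CoN ENTab ⟨⟨29, 31, 64⟩, ⟨3, 4, 8⟩, ⟨7, 8, 16⟩, ⟨164, 10,
  4, 0, 7⟩, ⟨40, 10, 4, 0, 7⟩, ⟨100, 25, 25, 2, 23⟩, ⟨4, 1, 1, 0, 1⟩⟩ :=
  CoN.c 0 3 1 16 rfl rfl rfl rfl rfl EN1_c76 EN1_c77

theorem EN1_t68 : CoN ENTab ⟨⟨29, 31, 64⟩, ⟨3, 4, 8⟩, ⟨1, 1, 2⟩, ⟨164, 10,
  4, 0, 7⟩, ⟨40, 10, 4, 0, 7⟩, ⟨100, 25, 25, 2, 23⟩, ⟨4, 1, 1, 0, 1⟩⟩ :=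
  CoN.b 1 1 4 rfl rfl rfl EN1_t67 EN1_c78

theorem EN1_t69 : CoN ENTab ⟨⟨29, 31, 64⟩, ⟨3, 4, 8⟩, ⟨1, 1, 2⟩, ⟨164, 10,
  4, 0, 7⟩, ⟨40, 10, 4, 0, 7⟩, ⟨52, 13, 13, 2, 11⟩, ⟨4, 1, 1, 0, 1⟩⟩ :=
  CoN.c 2 3 1 12 rfl rfl rfl rfl rfl EN1_c75 EN1_t68

theorem EN1_t70 : CoN ENTab ⟨⟨29, 31, 64⟩, ⟨3, 4, 8⟩, ⟨1, 1, 2⟩, ⟨1, 0, 0,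
  0, 0⟩, ⟨40, 10, 4, 0, 7⟩, ⟨52, 13, 13, 2, 11⟩, ⟨4, 1, 1, 0, 1⟩⟩ :=
  CoN.c 0 1 124 1 rfl rfl rfl rfl rfl EN1_t66 EN1_t69

theorem EN1_t71 : CoN ENTab ⟨⟨13, 15, 32⟩, ⟨3, 4, 8⟩, ⟨29, 31, 64⟩, ⟨1, 0,
  0, 0, 0⟩, ⟨164, 10, 4, 0, 7⟩, ⟨52, 13, 13, 2, 11⟩, ⟨4, 1, 1, 0, 1⟩⟩ :=
  CoN.c 0 3 16 1 rfl rfl rfl rfl rfl EN1_c79 EN1_c80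

theorem EN1_t72 : CoN ENTab ⟨⟨13, 15, 32⟩, ⟨3, 4, 8⟩, ⟨29, 31, 64⟩, ⟨228,
  26, 20, 0, 23⟩, ⟨40, 10, 4, 0, 7⟩, ⟨52, 13, 13, 2, 11⟩, ⟨4, 1, 1, 0, 1⟩⟩
  :=
  CoN.c 0 1 1 4 rfl rfl rfl rfl rfl EN1_c82 EN1_c83

theorem EN1_t73 : CoN ENTab ⟨⟨13, 15, 32⟩, ⟨3, 4, 8⟩, ⟨29, 31, 64⟩, ⟨164,
  10, 4, 0, 7⟩, ⟨40, 10, 4, 0, 7⟩, ⟨52, 13, 13, 2, 11⟩, ⟨4, 1, 1, 0, 1⟩⟩ :=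
  CoN.c 0 3 1 16 rfl rfl rfl rfl rfl EN1_c81 EN1_t72

theorem EN1_t74 : CoN ENTab ⟨⟨13, 15, 32⟩, ⟨3, 4, 8⟩, ⟨29, 31, 64⟩, ⟨1, 0,
  0, 0, 0⟩, ⟨40, 10, 4, 0, 7⟩, ⟨52, 13, 13, 2, 11⟩, ⟨4, 1, 1, 0, 1⟩⟩ :=
  CoN.c 0 1 124 1 rfl rfl rfl rfl rfl EN1_t71 EN1_t73

theorem EN1_t75 : CoN ENTab ⟨⟨13, 15, 32⟩, ⟨3, 4, 8⟩, ⟨1, 1, 2⟩, ⟨1, 0, 0,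
  0, 0⟩, ⟨40, 10, 4, 0, 7⟩, ⟨52, 13, 13, 2, 11⟩, ⟨4, 1, 1, 0, 1⟩⟩ :=
  CoN.b 2 16 1 rfl rfl rfl EN1_t70 EN1_t74

theorem EN1_t76 : CoN ENTab ⟨⟨7, 7, 16⟩, ⟨3, 4, 8⟩, ⟨1, 1, 2⟩, ⟨1, 0, 0, 0,
  0⟩, ⟨40, 10, 4, 0, 7⟩, ⟨52, 13, 13, 2, 11⟩, ⟨4, 1, 1, 0, 1⟩⟩ :=
  CoN.b 0 1 2 rfl rfl rfl EN1_c67 EN1_t75

theorem EN1_t77 : CoN ENTab ⟨⟨7, 7, 16⟩, ⟨3, 4, 8⟩, ⟨1, 1, 2⟩, ⟨1, 0, 0, 0,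
  0⟩, ⟨8, 2, 0, 0, 1⟩, ⟨52, 13, 13, 2, 11⟩, ⟨4, 1, 1, 0, 1⟩⟩ :=
  CoN.c 1 3 3 4 rfl rfl rfl rfl rfl EN1_c66 EN1_t76

theorem EN1_t78 : CoN ENTab ⟨⟨7, 7, 16⟩, ⟨3, 4, 8⟩, ⟨1, 1, 2⟩, ⟨1, 0, 0, 0,
  0⟩, ⟨8, 2, 0, 0, 1⟩, ⟨28, 7, 7, 2, 5⟩, ⟨4, 1, 1, 0, 1⟩⟩ :=
  CoN.c 2 3 1 6 rfl rfl rfl rfl rfl EN1_c65 EN1_t77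

theorem EN1_t79 : CoN ENTab ⟨⟨7, 7, 16⟩, ⟨3, 4, 8⟩, ⟨1, 1, 2⟩, ⟨1, 0, 0, 0,
  0⟩, ⟨8, 2, 0, 0, 1⟩, ⟨8, 2, 2, 1, 1⟩, ⟨4, 1, 1, 0, 1⟩⟩ :=
  CoN.c 2 3 2 3 rfl rfl rfl rfl rfl EN1_t60 EN1_t78

theorem EN1_t80 : CoN ENTab ⟨⟨7, 7, 16⟩, ⟨3, 4, 8⟩, ⟨1, 1, 2⟩, ⟨1, 0, 0, 0,
  0⟩, ⟨8, 2, 0, 0, 1⟩, ⟨4, 1, 1, 1, 0⟩, ⟨4, 1, 1, 0, 1⟩⟩ :=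
  CoN.c 2 3 1 1 rfl rfl rfl rfl rfl EN1_t57 EN1_t79

theorem EN1_t81 : CoN ENTab ⟨⟨3, 3, 8⟩, ⟨24, 25, 64⟩, ⟨7, 7, 16⟩, ⟨1892,
  377, 377, 34, 343⟩, ⟨3808, 760, 742, 68, 683⟩, ⟨804, 201, 201, 18, 183⟩,
  ⟨100, 25, 25, 2, 23⟩⟩ :=
  CoN.c 0 2 1 2 rfl rfl rfl rfl rfl EN1_c99 EN1_c100

theorem EN1_t82 : CoN ENTab ⟨⟨3, 3, 8⟩, ⟨24, 25, 64⟩, ⟨7, 7, 16⟩, ⟨1892,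
  377, 377, 34, 343⟩, ⟨2200, 358, 340, 32, 317⟩, ⟨804, 201, 201, 18, 183⟩,
  ⟨100, 25, 25, 2, 23⟩⟩ :=
  CoN.c 1 2 1 2 rfl rfl rfl rfl rfl EN1_c98 EN1_t81

theorem EN1_t83 : CoN ENTab ⟨⟨3, 3, 8⟩, ⟨24, 25, 64⟩, ⟨7, 7, 16⟩, ⟨1892,
  377, 377, 34, 343⟩, ⟨2200, 358, 340, 32, 317⟩, ⟨404, 101, 101, 10, 91⟩,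
  ⟨100, 25, 25, 2, 23⟩⟩ :=
  CoN.c 2 3 1 4 rfl rfl rfl rfl rfl EN1_c97 EN1_t82

theorem EN1_t84 : CoN ENTab ⟨⟨3, 3, 8⟩, ⟨24, 25, 64⟩, ⟨7, 7, 16⟩, ⟨1092,
  177, 177, 18, 159⟩, ⟨2200, 358, 340, 32, 317⟩, ⟨404, 101, 101, 10, 91⟩,
  ⟨100, 25, 25, 2, 23⟩⟩ :=
  CoN.c 0 3 1 8 rfl rfl rfl rfl rfl EN1_c96 EN1_t83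

theorem EN1_t85 : CoN ENTab ⟨⟨3, 3, 8⟩, ⟨12, 13, 32⟩, ⟨7, 7, 16⟩, ⟨1092,
  177, 177, 18, 159⟩, ⟨2200, 358, 340, 32, 317⟩, ⟨404, 101, 101, 10, 91⟩,
  ⟨100, 25, 25, 2, 23⟩⟩ :=
  CoN.b 0 4 1 rfl rfl rfl EN1_t84 EN1_c101

theorem EN1_t86 : CoN ENTab ⟨⟨3, 3, 8⟩, ⟨12, 13, 32⟩, ⟨7, 7, 16⟩, ⟨1092,
  177, 177, 18, 159⟩, ⟨1392, 156, 138, 12, 135⟩, ⟨404, 101, 101, 10, 91⟩,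
  ⟨100, 25, 25, 2, 23⟩⟩ :=
  CoN.c 1 2 1 2 rfl rfl rfl rfl rfl EN1_c95 EN1_t85

theorem EN1_t87 : CoN ENTab ⟨⟨3, 3, 8⟩, ⟨12, 13, 32⟩, ⟨7, 7, 16⟩, ⟨688, 76,
  76, 8, 68⟩, ⟨1392, 156, 138, 12, 135⟩, ⟨404, 101, 101, 10, 91⟩, ⟨100, 25,
  25, 2, 23⟩⟩ :=
  CoN.c 0 2 1 1 rfl rfl rfl rfl rfl EN1_c94 EN1_t86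

theorem EN1_t88 : CoN ENTab ⟨⟨3, 3, 8⟩, ⟨12, 13, 32⟩, ⟨7, 7, 16⟩, ⟨688, 76,
  76, 8, 68⟩, ⟨1392, 156, 138, 12, 135⟩, ⟨204, 51, 51, 6, 45⟩, ⟨100, 25, 25,
  2, 23⟩⟩ :=
  CoN.c 2 3 1 2 rfl rfl rfl rfl rfl EN1_c93 EN1_t87

theorem EN1_t89 : CoN ENTab ⟨⟨3, 3, 8⟩, ⟨6, 7, 16⟩, ⟨7, 7, 16⟩, ⟨688, 76,
  76, 8, 68⟩, ⟨1392, 156, 138, 12, 135⟩, ⟨204, 51, 51, 6, 45⟩, ⟨100, 25, 25,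
  2, 23⟩⟩ :=
  CoN.b 0 2 1 rfl rfl rfl EN1_t88 EN1_c102

theorem EN1_t90 : CoN ENTab ⟨⟨3, 3, 8⟩, ⟨6, 7, 16⟩, ⟨7, 7, 16⟩, ⟨484, 25,
  25, 2, 23⟩, ⟨1392, 156, 138, 12, 135⟩, ⟨204, 51, 51, 6, 45⟩, ⟨100, 25, 25,
  2, 23⟩⟩ :=
  CoN.c 0 2 1 1 rfl rfl rfl rfl rfl EN1_c92 EN1_t89

theorem EN1_t91 : CoN ENTab ⟨⟨3, 3, 8⟩, ⟨6, 7, 16⟩, ⟨7, 7, 16⟩, ⟨484, 25,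
  25, 2, 23⟩, ⟨424, 106, 88, 8, 89⟩, ⟨204, 51, 51, 6, 45⟩, ⟨100, 25, 25, 2,
  23⟩⟩ :=
  CoN.c 0 1 2 1 rfl rfl rfl rfl rfl EN1_t90 EN1_c103

theorem EN1_t92 : CoN ENTab ⟨⟨3, 3, 8⟩, ⟨6, 7, 16⟩, ⟨7, 7, 16⟩, ⟨1, 0, 0, 0,
  0⟩, ⟨424, 106, 88, 8, 89⟩, ⟨204, 51, 51, 6, 45⟩, ⟨100, 25, 25, 2, 23⟩⟩ :=
  CoN.c 0 3 384 1 rfl rfl rfl rfl rfl EN1_c91 EN1_t91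

theorem EN1_t93 : CoN ENTab ⟨⟨3, 3, 8⟩, ⟨6, 7, 16⟩, ⟨7, 7, 16⟩, ⟨1, 0, 0, 0,
  0⟩, ⟨224, 56, 38, 4, 43⟩, ⟨204, 51, 51, 6, 45⟩, ⟨100, 25, 25, 2, 23⟩⟩ :=
  CoN.c 1 3 1 2 rfl rfl rfl rfl rfl EN1_c90 EN1_t92

theorem EN1_t94 : CoN ENTab ⟨⟨3, 3, 8⟩, ⟨6, 7, 16⟩, ⟨7, 7, 16⟩, ⟨1, 0, 0, 0,
  0⟩, ⟨224, 56, 38, 4, 43⟩, ⟨52, 13, 13, 2, 11⟩, ⟨100, 25, 25, 2, 23⟩⟩ :=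
  CoN.c 2 3 2 1 rfl rfl rfl rfl rfl EN1_c89 EN1_t93

theorem EN1_t95 : CoN ENTab ⟨⟨6, 7, 16⟩, ⟨3, 4, 8⟩, ⟨13, 15, 32⟩, ⟨1, 0, 0,
  0, 0⟩, ⟨432, 108, 90, 12, 87⟩, ⟨244, 13, 13, 2, 11⟩, ⟨100, 25, 25, 2, 23⟩⟩
  :=
  CoN.c 1 2 1 4 rfl rfl rfl rfl rfl EN1_c105 EN1_c106

theorem EN1_t96 : CoN ENTab ⟨⟨6, 7, 16⟩, ⟨3, 4, 8⟩, ⟨13, 15, 32⟩, ⟨1, 0, 0,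
  0, 0⟩, ⟨432, 108, 90, 12, 87⟩, ⟨52, 13, 13, 2, 11⟩, ⟨100, 25, 25, 2, 23⟩⟩
  :=
  CoN.c 0 2 192 1 rfl rfl rfl rfl rfl EN1_t95 EN1_c107

theorem EN1_t97 : CoN ENTab ⟨⟨6, 7, 16⟩, ⟨3, 4, 8⟩, ⟨13, 15, 32⟩, ⟨1, 0, 0,
  0, 0⟩, ⟨224, 56, 38, 4, 43⟩, ⟨52, 13, 13, 2, 11⟩, ⟨100, 25, 25, 2, 23⟩⟩ :=
  CoN.c 1 2 1 4 rfl rfl rfl rfl rfl EN1_c104 EN1_t96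

theorem EN1_t98 : CoN ENTab ⟨⟨6, 7, 16⟩, ⟨3, 4, 8⟩, ⟨7, 7, 16⟩, ⟨1, 0, 0, 0,
  0⟩, ⟨224, 56, 38, 4, 43⟩, ⟨52, 13, 13, 2, 11⟩, ⟨100, 25, 25, 2, 23⟩⟩ :=
  CoN.b 1 2 1 rfl rfl rfl EN1_t97 EN1_c108

theorem EN1_t99 : CoN ENTab ⟨⟨3, 3, 8⟩, ⟨3, 4, 8⟩, ⟨7, 7, 16⟩, ⟨1, 0, 0, 0,
  0⟩, ⟨224, 56, 38, 4, 43⟩, ⟨52, 13, 13, 2, 11⟩, ⟨100, 25, 25, 2, 23⟩⟩ :=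
  CoN.b 0 1 1 rfl rfl rfl EN1_t94 EN1_t98

theorem EN1_t100 : CoN ENTab ⟨⟨3, 3, 8⟩, ⟨3, 4, 8⟩, ⟨7, 7, 16⟩, ⟨1, 0, 0, 0,
  0⟩, ⟨224, 56, 38, 4, 43⟩, ⟨52, 13, 13, 2, 11⟩, ⟨4, 1, 1, 0, 1⟩⟩ :=
  CoN.c 2 3 1 12 rfl rfl rfl rfl rfl EN1_t99 EN1_c109

theorem EN1_t101 : CoN ENTab ⟨⟨3, 3, 8⟩, ⟨3, 4, 8⟩, ⟨7, 7, 16⟩, ⟨1, 0, 0, 0,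
  0⟩, ⟨40, 10, 4, 0, 7⟩, ⟨52, 13, 13, 2, 11⟩, ⟨4, 1, 1, 0, 1⟩⟩ :=
  CoN.c 1 2 3 2 rfl rfl rfl rfl rfl EN1_c88 EN1_t100

theorem EN1_t102 : CoN ENTab ⟨⟨3, 3, 8⟩, ⟨3, 4, 8⟩, ⟨7, 7, 16⟩, ⟨1, 0, 0, 0,
  0⟩, ⟨8, 2, 0, 0, 1⟩, ⟨52, 13, 13, 2, 11⟩, ⟨4, 1, 1, 0, 1⟩⟩ :=
  CoN.c 1 3 3 4 rfl rfl rfl rfl rfl EN1_c87 EN1_t101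

theorem EN1_t103 : CoN ENTab ⟨⟨3, 3, 8⟩, ⟨3, 4, 8⟩, ⟨7, 7, 16⟩, ⟨1, 0, 0, 0,
  0⟩, ⟨8, 2, 0, 0, 1⟩, ⟨28, 7, 7, 2, 5⟩, ⟨4, 1, 1, 0, 1⟩⟩ :=
  CoN.c 2 3 1 6 rfl rfl rfl rfl rfl EN1_c86 EN1_t102

theorem EN1_t104 : CoN ENTab ⟨⟨3, 3, 8⟩, ⟨3, 4, 8⟩, ⟨7, 7, 16⟩, ⟨1, 0, 0, 0,
  0⟩, ⟨8, 2, 0, 0, 1⟩, ⟨8, 2, 2, 1, 1⟩, ⟨4, 1, 1, 0, 1⟩⟩ :=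
  CoN.c 2 3 2 3 rfl rfl rfl rfl rfl EN1_c85 EN1_t103

theorem EN1_t105 : CoN ENTab ⟨⟨3, 3, 8⟩, ⟨3, 4, 8⟩, ⟨7, 7, 16⟩, ⟨1, 0, 0, 0,
  0⟩, ⟨8, 2, 0, 0, 1⟩, ⟨4, 1, 1, 1, 0⟩, ⟨4, 1, 1, 0, 1⟩⟩ :=
  CoN.c 2 3 1 1 rfl rfl rfl rfl rfl EN1_c84 EN1_t104

theorem EN1_t106 : CoN ENTab ⟨⟨3, 3, 8⟩, ⟨3, 4, 8⟩, ⟨1, 1, 2⟩, ⟨1, 0, 0, 0,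
  0⟩, ⟨8, 2, 0, 0, 1⟩, ⟨4, 1, 1, 1, 0⟩, ⟨4, 1, 1, 0, 1⟩⟩ :=
  CoN.b 2 4 1 rfl rfl rfl EN1_t80 EN1_t105

theorem EN1_t107 : CoN ENTab ⟨⟨3, 3, 8⟩, ⟨1, 2, 4⟩, ⟨1, 1, 2⟩, ⟨1, 0, 0, 0,
  0⟩, ⟨8, 2, 0, 0, 1⟩, ⟨4, 1, 1, 1, 0⟩, ⟨4, 1, 1, 0, 1⟩⟩ :=
  CoN.b 1 1 2 rfl rfl rfl EN1_t48 EN1_t106

theorem EN1_t108 : CoN ENTab ⟨⟨5, 5, 16⟩, ⟨2, 3, 8⟩, ⟨3, 3, 8⟩, ⟨1, 0, 0, 0,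
  0⟩, ⟨40, 10, 4, 0, 7⟩, ⟨52, 13, 13, 2, 11⟩, ⟨100, 25, 25, 2, 23⟩⟩ :=
  CoN.b 0 1 2 rfl rfl rfl EN1_c114 EN1_c115

theorem EN1_t109 : CoN ENTab ⟨⟨5, 5, 16⟩, ⟨2, 3, 8⟩, ⟨3, 3, 8⟩, ⟨1, 0, 0, 0,
  0⟩, ⟨40, 10, 4, 0, 7⟩, ⟨52, 13, 13, 2, 11⟩, ⟨4, 1, 1, 0, 1⟩⟩ :=
  CoN.c 2 3 1 12 rfl rfl rfl rfl rfl EN1_t108 EN1_c116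

theorem EN1_t110 : CoN ENTab ⟨⟨5, 5, 16⟩, ⟨2, 3, 8⟩, ⟨3, 3, 8⟩, ⟨1, 0, 0, 0,
  0⟩, ⟨8, 2, 0, 0, 1⟩, ⟨52, 13, 13, 2, 11⟩, ⟨4, 1, 1, 0, 1⟩⟩ :=
  CoN.c 1 3 3 4 rfl rfl rfl rfl rfl EN1_c113 EN1_t109

theorem EN1_t111 : CoN ENTab ⟨⟨5, 5, 16⟩, ⟨2, 3, 8⟩, ⟨3, 3, 8⟩, ⟨1, 0, 0, 0,
  0⟩, ⟨8, 2, 0, 0, 1⟩, ⟨28, 7, 7, 2, 5⟩, ⟨4, 1, 1, 0, 1⟩⟩ :=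
  CoN.c 2 3 1 6 rfl rfl rfl rfl rfl EN1_c112 EN1_t110

theorem EN1_t112 : CoN ENTab ⟨⟨5, 5, 16⟩, ⟨2, 3, 8⟩, ⟨3, 3, 8⟩, ⟨1, 0, 0, 0,
  0⟩, ⟨8, 2, 0, 0, 1⟩, ⟨8, 2, 2, 1, 1⟩, ⟨4, 1, 1, 0, 1⟩⟩ :=
  CoN.c 2 3 2 3 rfl rfl rfl rfl rfl EN1_c111 EN1_t111

theorem EN1_t113 : CoN ENTab ⟨⟨5, 5, 16⟩, ⟨2, 3, 8⟩, ⟨3, 3, 8⟩, ⟨1, 0, 0, 0,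
  0⟩, ⟨8, 2, 0, 0, 1⟩, ⟨4, 1, 1, 1, 0⟩, ⟨4, 1, 1, 0, 1⟩⟩ :=
  CoN.c 2 3 1 1 rfl rfl rfl rfl rfl EN1_c110 EN1_t112

theorem EN1_t114 : CoN ENTab ⟨⟨1, 1, 4⟩, ⟨2, 3, 8⟩, ⟨5, 5, 16⟩, ⟨1, 0, 0, 0,
  0⟩, ⟨224, 56, 38, 4, 43⟩, ⟨52, 13, 13, 2, 11⟩, ⟨4, 1, 1, 0, 1⟩⟩ :=
  CoN.c 2 3 1 12 rfl rfl rfl rfl rfl EN1_c122 EN1_c123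

theorem EN1_t115 : CoN ENTab ⟨⟨1, 1, 4⟩, ⟨2, 3, 8⟩, ⟨5, 5, 16⟩, ⟨1, 0, 0, 0,
  0⟩, ⟨40, 10, 4, 0, 7⟩, ⟨52, 13, 13, 2, 11⟩, ⟨4, 1, 1, 0, 1⟩⟩ :=
  CoN.c 1 2 3 2 rfl rfl rfl rfl rfl EN1_c121 EN1_t114

theorem EN1_t116 : CoN ENTab ⟨⟨1, 1, 4⟩, ⟨2, 3, 8⟩, ⟨5, 5, 16⟩, ⟨1, 0, 0, 0,
  0⟩, ⟨8, 2, 0, 0, 1⟩, ⟨52, 13, 13, 2, 11⟩, ⟨4, 1, 1, 0, 1⟩⟩ :=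
  CoN.c 1 3 3 4 rfl rfl rfl rfl rfl EN1_c120 EN1_t115

theorem EN1_t117 : CoN ENTab ⟨⟨1, 1, 4⟩, ⟨2, 3, 8⟩, ⟨5, 5, 16⟩, ⟨1, 0, 0, 0,
  0⟩, ⟨8, 2, 0, 0, 1⟩, ⟨28, 7, 7, 2, 5⟩, ⟨4, 1, 1, 0, 1⟩⟩ :=
  CoN.c 2 3 1 6 rfl rfl rfl rfl rfl EN1_c119 EN1_t116

theorem EN1_t118 : CoN ENTab ⟨⟨1, 1, 4⟩, ⟨2, 3, 8⟩, ⟨5, 5, 16⟩, ⟨1, 0, 0, 0,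
  0⟩, ⟨8, 2, 0, 0, 1⟩, ⟨8, 2, 2, 1, 1⟩, ⟨4, 1, 1, 0, 1⟩⟩ :=
  CoN.c 2 3 2 3 rfl rfl rfl rfl rfl EN1_c118 EN1_t117

theorem EN1_t119 : CoN ENTab ⟨⟨1, 1, 4⟩, ⟨2, 3, 8⟩, ⟨5, 5, 16⟩, ⟨1, 0, 0, 0,
  0⟩, ⟨8, 2, 0, 0, 1⟩, ⟨4, 1, 1, 1, 0⟩, ⟨4, 1, 1, 0, 1⟩⟩ :=
  CoN.c 2 3 1 1 rfl rfl rfl rfl rfl EN1_c117 EN1_t118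

theorem EN1_t120 : CoN ENTab ⟨⟨1, 1, 4⟩, ⟨2, 3, 8⟩, ⟨3, 3, 8⟩, ⟨1, 0, 0, 0,
  0⟩, ⟨8, 2, 0, 0, 1⟩, ⟨4, 1, 1, 1, 0⟩, ⟨4, 1, 1, 0, 1⟩⟩ :=
  CoN.b 2 1 2 rfl rfl rfl EN1_t113 EN1_t119

theorem EN1_t121 : CoN ENTab ⟨⟨2, 3, 8⟩, ⟨1, 2, 4⟩, ⟨5, 7, 16⟩, ⟨1, 0, 0, 0,
  0⟩, ⟨28, 2, 0, 0, 1⟩, ⟨4, 1, 1, 1, 0⟩, ⟨4, 1, 1, 0, 1⟩⟩ :=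
  CoN.c 1 2 2 5 rfl rfl rfl rfl rfl EN1_c124 EN1_c125

theorem EN1_t122 : CoN ENTab ⟨⟨2, 3, 8⟩, ⟨1, 2, 4⟩, ⟨5, 7, 16⟩, ⟨1, 0, 0, 0,
  0⟩, ⟨8, 2, 0, 0, 1⟩, ⟨4, 1, 1, 1, 0⟩, ⟨4, 1, 1, 0, 1⟩⟩ :=
  CoN.c 0 1 20 1 rfl rfl rfl rfl rfl EN1_t121 EN1_c126

theorem EN1_t123 : CoN ENTab ⟨⟨2, 3, 8⟩, ⟨5, 7, 16⟩, ⟨3, 3, 8⟩, ⟨732, 26,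
  20, 0, 23⟩, ⟨164, 10, 4, 0, 7⟩, ⟨484, 25, 25, 2, 23⟩, ⟨228, 26, 20, 0,
  23⟩⟩ :=
  CoN.c 0 3 1 2 rfl rfl rfl rfl rfl EN1_c133 EN1_c134

theorem EN1_t124 : CoN ENTab ⟨⟨2, 3, 8⟩, ⟨5, 7, 16⟩, ⟨3, 3, 8⟩, ⟨1, 0, 0, 0,
  0⟩, ⟨164, 10, 4, 0, 7⟩, ⟨484, 25, 25, 2, 23⟩, ⟨228, 26, 20, 0, 23⟩⟩ :=
  CoN.c 0 3 504 1 rfl rfl rfl rfl rfl EN1_c132 EN1_t123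

theorem EN1_t125 : CoN ENTab ⟨⟨2, 3, 8⟩, ⟨5, 7, 16⟩, ⟨3, 3, 8⟩, ⟨1, 0, 0, 0,
  0⟩, ⟨164, 10, 4, 0, 7⟩, ⟨100, 25, 25, 2, 23⟩, ⟨228, 26, 20, 0, 23⟩⟩ :=
  CoN.c 0 2 384 1 rfl rfl rfl rfl rfl EN1_t124 EN1_c135

theorem EN1_t126 : CoN ENTab ⟨⟨2, 3, 8⟩, ⟨5, 7, 16⟩, ⟨3, 3, 8⟩, ⟨1, 0, 0, 0,
  0⟩, ⟨164, 10, 4, 0, 7⟩, ⟨100, 25, 25, 2, 23⟩, ⟨4, 1, 1, 0, 1⟩⟩ :=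
  CoN.c 1 3 1 16 rfl rfl rfl rfl rfl EN1_t125 EN1_c136

theorem EN1_t127 : CoN ENTab ⟨⟨2, 3, 8⟩, ⟨5, 7, 16⟩, ⟨3, 3, 8⟩, ⟨692, 80,
  62, 4, 67⟩, ⟨368, 61, 43, 0, 52⟩, ⟨100, 25, 25, 2, 23⟩, ⟨4, 1, 1, 0, 1⟩⟩
  :=
  CoN.c 0 2 1 4 rfl rfl rfl rfl rfl EN1_c139 EN1_c140

theorem EN1_t128 : CoN ENTab ⟨⟨2, 3, 8⟩, ⟨5, 7, 16⟩, ⟨3, 3, 8⟩, ⟨692, 80,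
  62, 4, 67⟩, ⟨244, 30, 12, 0, 21⟩, ⟨100, 25, 25, 2, 23⟩, ⟨4, 1, 1, 0, 1⟩⟩
  :=
  CoN.c 1 3 1 31 rfl rfl rfl rfl rfl EN1_c138 EN1_t127

theorem EN1_t129 : CoN ENTab ⟨⟨2, 3, 8⟩, ⟨5, 7, 16⟩, ⟨3, 3, 8⟩, ⟨164, 10, 4,
  0, 7⟩, ⟨244, 30, 12, 0, 21⟩, ⟨100, 25, 25, 2, 23⟩, ⟨4, 1, 1, 0, 1⟩⟩ :=
  CoN.c 0 2 3 2 rfl rfl rfl rfl rfl EN1_c137 EN1_t128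

theorem EN1_t130 : CoN ENTab ⟨⟨2, 3, 8⟩, ⟨5, 7, 16⟩, ⟨3, 3, 8⟩, ⟨368, 61,
  43, 0, 52⟩, ⟨40, 10, 4, 0, 7⟩, ⟨1132, 190, 136, 8, 155⟩, ⟨4, 1, 1, 0, 1⟩⟩
  :=
  CoN.c 0 3 1 62 rfl rfl rfl rfl rfl EN1_c142 EN1_c143

theorem EN1_t131 : CoN ENTab ⟨⟨2, 3, 8⟩, ⟨5, 7, 16⟩, ⟨3, 3, 8⟩, ⟨244, 30,
  12, 0, 21⟩, ⟨40, 10, 4, 0, 7⟩, ⟨1132, 190, 136, 8, 155⟩, ⟨4, 1, 1, 0, 1⟩⟩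
  :=
  CoN.c 0 3 1 31 rfl rfl rfl rfl rfl EN1_c141 EN1_t130

theorem EN1_t132 : CoN ENTab ⟨⟨2, 3, 8⟩, ⟨5, 7, 16⟩, ⟨3, 3, 8⟩, ⟨244, 30,
  12, 0, 21⟩, ⟨40, 10, 4, 0, 7⟩, ⟨100, 25, 25, 2, 23⟩, ⟨4, 1, 1, 0, 1⟩⟩ :=
  CoN.c 0 2 3 4 rfl rfl rfl rfl rfl EN1_t131 EN1_c144

theorem EN1_t133 : CoN ENTab ⟨⟨2, 3, 8⟩, ⟨5, 7, 16⟩, ⟨3, 3, 8⟩, ⟨164, 10, 4,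
  0, 7⟩, ⟨40, 10, 4, 0, 7⟩, ⟨100, 25, 25, 2, 23⟩, ⟨4, 1, 1, 0, 1⟩⟩ :=
  CoN.c 0 1 1 2 rfl rfl rfl rfl rfl EN1_t129 EN1_t132

theorem EN1_t134 : CoN ENTab ⟨⟨2, 3, 8⟩, ⟨5, 7, 16⟩, ⟨3, 3, 8⟩, ⟨1, 0, 0, 0,
  0⟩, ⟨40, 10, 4, 0, 7⟩, ⟨100, 25, 25, 2, 23⟩, ⟨4, 1, 1, 0, 1⟩⟩ :=
  CoN.c 0 1 124 1 rfl rfl rfl rfl rfl EN1_t126 EN1_t133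

theorem EN1_t135 : CoN ENTab ⟨⟨2, 3, 8⟩, ⟨5, 7, 16⟩, ⟨3, 3, 8⟩, ⟨1, 0, 0, 0,
  0⟩, ⟨40, 10, 4, 0, 7⟩, ⟨52, 13, 13, 2, 11⟩, ⟨4, 1, 1, 0, 1⟩⟩ :=
  CoN.c 2 3 1 12 rfl rfl rfl rfl rfl EN1_c131 EN1_t134

theorem EN1_t136 : CoN ENTab ⟨⟨2, 3, 8⟩, ⟨5, 7, 16⟩, ⟨3, 3, 8⟩, ⟨1, 0, 0, 0,
  0⟩, ⟨8, 2, 0, 0, 1⟩, ⟨52, 13, 13, 2, 11⟩, ⟨4, 1, 1, 0, 1⟩⟩ :=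
  CoN.c 1 3 3 4 rfl rfl rfl rfl rfl EN1_c130 EN1_t135

theorem EN1_t137 : CoN ENTab ⟨⟨2, 3, 8⟩, ⟨5, 7, 16⟩, ⟨3, 3, 8⟩, ⟨1, 0, 0, 0,
  0⟩, ⟨8, 2, 0, 0, 1⟩, ⟨28, 7, 7, 2, 5⟩, ⟨4, 1, 1, 0, 1⟩⟩ :=
  CoN.c 2 3 1 6 rfl rfl rfl rfl rfl EN1_c129 EN1_t136

theorem EN1_t138 : CoN ENTab ⟨⟨2, 3, 8⟩, ⟨5, 7, 16⟩, ⟨3, 3, 8⟩, ⟨1, 0, 0, 0,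
  0⟩, ⟨8, 2, 0, 0, 1⟩, ⟨8, 2, 2, 1, 1⟩, ⟨4, 1, 1, 0, 1⟩⟩ :=
  CoN.c 2 3 2 3 rfl rfl rfl rfl rfl EN1_c128 EN1_t137

theorem EN1_t139 : CoN ENTab ⟨⟨2, 3, 8⟩, ⟨5, 7, 16⟩, ⟨3, 3, 8⟩, ⟨1, 0, 0, 0,
  0⟩, ⟨8, 2, 0, 0, 1⟩, ⟨4, 1, 1, 1, 0⟩, ⟨4, 1, 1, 0, 1⟩⟩ :=
  CoN.c 2 3 1 1 rfl rfl rfl rfl rfl EN1_c127 EN1_t138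

theorem EN1_t140 : CoN ENTab ⟨⟨2, 3, 8⟩, ⟨1, 2, 4⟩, ⟨3, 3, 8⟩, ⟨1, 0, 0, 0,
  0⟩, ⟨8, 2, 0, 0, 1⟩, ⟨4, 1, 1, 1, 0⟩, ⟨4, 1, 1, 0, 1⟩⟩ :=
  CoN.b 1 2 1 rfl rfl rfl EN1_t122 EN1_t139

theorem EN1_t141 : CoN ENTab ⟨⟨1, 1, 4⟩, ⟨1, 2, 4⟩, ⟨3, 3, 8⟩, ⟨1, 0, 0, 0,
  0⟩, ⟨8, 2, 0, 0, 1⟩, ⟨4, 1, 1, 1, 0⟩, ⟨4, 1, 1, 0, 1⟩⟩ :=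
  CoN.b 0 1 1 rfl rfl rfl EN1_t120 EN1_t140

theorem EN1_t142 : CoN ENTab ⟨⟨1, 1, 4⟩, ⟨1, 2, 4⟩, ⟨1, 1, 2⟩, ⟨1, 0, 0, 0,
  0⟩, ⟨8, 2, 0, 0, 1⟩, ⟨4, 1, 1, 1, 0⟩, ⟨4, 1, 1, 0, 1⟩⟩ :=
  CoN.b 2 2 1 rfl rfl rfl EN1_t107 EN1_t141

theorem EN1_t143 : CoN ENTab ⟨⟨1, 1, 4⟩, ⟨0, 1, 2⟩, ⟨1, 1, 2⟩, ⟨1, 0, 0, 0,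
  0⟩, ⟨8, 2, 0, 0, 1⟩, ⟨4, 1, 1, 1, 0⟩, ⟨4, 1, 1, 0, 1⟩⟩ :=
  CoN.b 1 1 1 rfl rfl rfl EN1_t32 EN1_t142

theorem EN1_t144 : CoN ENTab ⟨⟨1, 1, 8⟩, ⟨1, 3, 16⟩, ⟨1, 2, 8⟩, ⟨1, 0, 0, 0,
  0⟩, ⟨72, 18, 12, 0, 15⟩, ⟨424, 106, 88, 8, 89⟩, ⟨4, 1, 1, 0, 1⟩⟩ :=
  CoN.c 1 2 6 1 rfl rfl rfl rfl rfl EN1_c150 EN1_c151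

theorem EN1_t145 : CoN ENTab ⟨⟨1, 1, 8⟩, ⟨1, 3, 16⟩, ⟨2, 3, 16⟩, ⟨1, 0, 0,
  0, 0⟩, ⟨424, 106, 88, 8, 89⟩, ⟨100, 25, 25, 2, 23⟩, ⟨4, 1, 1, 0, 1⟩⟩ :=
  CoN.c 1 3 1 95 rfl rfl rfl rfl rfl EN1_c154 EN1_c155

theorem EN1_t146 : CoN ENTab ⟨⟨1, 1, 8⟩, ⟨1, 3, 16⟩, ⟨1, 2, 8⟩, ⟨1, 0, 0, 0,
  0⟩, ⟨424, 106, 88, 8, 89⟩, ⟨100, 25, 25, 2, 23⟩, ⟨4, 1, 1, 0, 1⟩⟩ :=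
  CoN.b 2 1 1 rfl rfl rfl EN1_c153 EN1_t145

theorem EN1_t147 : CoN ENTab ⟨⟨1, 1, 8⟩, ⟨1, 3, 16⟩, ⟨1, 2, 8⟩, ⟨1, 0, 0, 0,
  0⟩, ⟨424, 106, 88, 8, 89⟩, ⟨52, 13, 13, 2, 11⟩, ⟨4, 1, 1, 0, 1⟩⟩ :=
  CoN.c 2 3 1 12 rfl rfl rfl rfl rfl EN1_c152 EN1_t146

theorem EN1_t148 : CoN ENTab ⟨⟨1, 1, 8⟩, ⟨1, 3, 16⟩, ⟨1, 2, 8⟩, ⟨1, 0, 0, 0,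
  0⟩, ⟨72, 18, 12, 0, 15⟩, ⟨52, 13, 13, 2, 11⟩, ⟨4, 1, 1, 0, 1⟩⟩ :=
  CoN.c 1 2 3 4 rfl rfl rfl rfl rfl EN1_t144 EN1_t147

theorem EN1_t149 : CoN ENTab ⟨⟨1, 1, 8⟩, ⟨1, 3, 16⟩, ⟨1, 2, 8⟩, ⟨1, 0, 0, 0,
  0⟩, ⟨40, 10, 4, 0, 7⟩, ⟨52, 13, 13, 2, 11⟩, ⟨4, 1, 1, 0, 1⟩⟩ :=
  CoN.c 1 3 1 8 rfl rfl rfl rfl rfl EN1_c149 EN1_t148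

theorem EN1_t150 : CoN ENTab ⟨⟨1, 1, 8⟩, ⟨1, 3, 16⟩, ⟨1, 2, 8⟩, ⟨1, 0, 0, 0,
  0⟩, ⟨8, 2, 0, 0, 1⟩, ⟨52, 13, 13, 2, 11⟩, ⟨4, 1, 1, 0, 1⟩⟩ :=
  CoN.c 1 3 3 4 rfl rfl rfl rfl rfl EN1_c148 EN1_t149

theorem EN1_t151 : CoN ENTab ⟨⟨1, 1, 8⟩, ⟨1, 3, 16⟩, ⟨1, 2, 8⟩, ⟨1, 0, 0, 0,
  0⟩, ⟨8, 2, 0, 0, 1⟩, ⟨28, 7, 7, 2, 5⟩, ⟨4, 1, 1, 0, 1⟩⟩ :=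
  CoN.c 2 3 1 6 rfl rfl rfl rfl rfl EN1_c147 EN1_t150

theorem EN1_t152 : CoN ENTab ⟨⟨1, 1, 8⟩, ⟨1, 3, 16⟩, ⟨1, 2, 8⟩, ⟨1, 0, 0, 0,
  0⟩, ⟨8, 2, 0, 0, 1⟩, ⟨8, 2, 2, 1, 1⟩, ⟨4, 1, 1, 0, 1⟩⟩ :=
  CoN.c 2 3 2 3 rfl rfl rfl rfl rfl EN1_c146 EN1_t151

theorem EN1_t153 : CoN ENTab ⟨⟨1, 1, 8⟩, ⟨1, 3, 16⟩, ⟨1, 2, 8⟩, ⟨1, 0, 0, 0,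
  0⟩, ⟨8, 2, 0, 0, 1⟩, ⟨4, 1, 1, 1, 0⟩, ⟨4, 1, 1, 0, 1⟩⟩ :=
  CoN.c 2 3 1 1 rfl rfl rfl rfl rfl EN1_c145 EN1_t152

theorem EN1_t154 : CoN ENTab ⟨⟨1, 3, 16⟩, ⟨1, 4, 16⟩, ⟨3, 8, 32⟩, ⟨1, 0, 0,
  0, 0⟩, ⟨436, 8, 2, 0, 5⟩, ⟨3356, 48, 42, 5, 40⟩, ⟨116, 1, 1, 0, 1⟩⟩ :=
  CoN.c 0 3 128 1 rfl rfl rfl rfl rfl EN1_c161 EN1_c162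

theorem EN1_t155 : CoN ENTab ⟨⟨1, 3, 16⟩, ⟨1, 4, 16⟩, ⟨3, 8, 32⟩, ⟨1, 0, 0,
  0, 0⟩, ⟨436, 8, 2, 0, 5⟩, ⟨1616, 33, 27, 5, 25⟩, ⟨116, 1, 1, 0, 1⟩⟩ :=
  CoN.c 2 3 1 15 rfl rfl rfl rfl rfl EN1_c160 EN1_t154

theorem EN1_t156 : CoN ENTab ⟨⟨1, 3, 16⟩, ⟨1, 4, 16⟩, ⟨3, 8, 32⟩, ⟨1, 0, 0,
  0, 0⟩, ⟨436, 8, 2, 0, 5⟩, ⟨1616, 33, 27, 5, 25⟩, ⟨52, 1, 1, 0, 1⟩⟩ :=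
  CoN.c 0 3 64 1 rfl rfl rfl rfl rfl EN1_t155 EN1_c163

theorem EN1_t157 : CoN ENTab ⟨⟨1, 3, 16⟩, ⟨1, 4, 16⟩, ⟨3, 8, 32⟩, ⟨1, 0, 0,
  0, 0⟩, ⟨436, 8, 2, 0, 5⟩, ⟨836, 18, 12, 5, 10⟩, ⟨52, 1, 1, 0, 1⟩⟩ :=
  CoN.c 2 3 1 15 rfl rfl rfl rfl rfl EN1_c159 EN1_t156

theorem EN1_t158 : CoN ENTab ⟨⟨1, 3, 16⟩, ⟨1, 4, 16⟩, ⟨3, 8, 32⟩, ⟨1, 0, 0,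
  0, 0⟩, ⟨436, 8, 2, 0, 5⟩, ⟨80, 2, 2, 1, 1⟩, ⟨52, 1, 1, 0, 1⟩⟩ :=
  CoN.c 1 2 1 5 rfl rfl rfl rfl rfl EN1_t157 EN1_c164

theorem EN1_t159 : CoN ENTab ⟨⟨1, 3, 16⟩, ⟨1, 4, 16⟩, ⟨3, 8, 32⟩, ⟨1, 0, 0,
  0, 0⟩, ⟨188, 8, 2, 0, 5⟩, ⟨80, 2, 2, 1, 1⟩, ⟨52, 1, 1, 0, 1⟩⟩ :=
  CoN.c 0 1 248 1 rfl rfl rfl rfl rfl EN1_t158 EN1_c165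

theorem EN1_t160 : CoN ENTab ⟨⟨1, 3, 16⟩, ⟨1, 4, 16⟩, ⟨3, 8, 32⟩, ⟨1, 0, 0,
  0, 0⟩, ⟨188, 8, 2, 0, 5⟩, ⟨80, 2, 2, 1, 1⟩, ⟨20, 1, 1, 0, 1⟩⟩ :=
  CoN.c 0 3 32 1 rfl rfl rfl rfl rfl EN1_t159 EN1_c166

theorem EN1_t161 : CoN ENTab ⟨⟨1, 3, 16⟩, ⟨1, 4, 16⟩, ⟨3, 8, 32⟩, ⟨1, 0, 0,
  0, 0⟩, ⟨188, 8, 2, 0, 5⟩, ⟨32, 2, 2, 1, 1⟩, ⟨20, 1, 1, 0, 1⟩⟩ :=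
  CoN.c 0 2 48 1 rfl rfl rfl rfl rfl EN1_t160 EN1_c167

theorem EN1_t162 : CoN ENTab ⟨⟨1, 3, 16⟩, ⟨1, 4, 16⟩, ⟨1, 2, 8⟩, ⟨1, 0, 0,
  0, 0⟩, ⟨188, 8, 2, 0, 5⟩, ⟨32, 2, 2, 1, 1⟩, ⟨20, 1, 1, 0, 1⟩⟩ :=
  CoN.b 1 1 2 rfl rfl rfl EN1_t161 EN1_c168

theorem EN1_t163 : CoN ENTab ⟨⟨1, 3, 16⟩, ⟨1, 4, 16⟩, ⟨1, 2, 8⟩, ⟨1, 0, 0,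
  0, 0⟩, ⟨64, 8, 2, 0, 5⟩, ⟨32, 2, 2, 1, 1⟩, ⟨20, 1, 1, 0, 1⟩⟩ :=
  CoN.c 0 1 124 1 rfl rfl rfl rfl rfl EN1_t162 EN1_c169

theorem EN1_t164 : CoN ENTab ⟨⟨1, 3, 16⟩, ⟨0, 1, 4⟩, ⟨1, 2, 8⟩, ⟨1, 0, 0, 0,
  0⟩, ⟨64, 8, 2, 0, 5⟩, ⟨32, 2, 2, 1, 1⟩, ⟨20, 1, 1, 0, 1⟩⟩ :=
  CoN.b 1 2 1 rfl rfl rfl EN1_c158 EN1_t163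

theorem EN1_t165 : CoN ENTab ⟨⟨1, 3, 16⟩, ⟨0, 1, 4⟩, ⟨1, 2, 8⟩, ⟨1, 0, 0, 0,
  0⟩, ⟨64, 8, 2, 0, 5⟩, ⟨8, 2, 2, 1, 1⟩, ⟨20, 1, 1, 0, 1⟩⟩ :=
  CoN.c 0 2 24 1 rfl rfl rfl rfl rfl EN1_t164 EN1_c170

theorem EN1_t166 : CoN ENTab ⟨⟨1, 3, 16⟩, ⟨0, 1, 4⟩, ⟨1, 2, 8⟩, ⟨1, 0, 0, 0,
  0⟩, ⟨8, 2, 0, 0, 1⟩, ⟨8, 2, 2, 1, 1⟩, ⟨20, 1, 1, 0, 1⟩⟩ :=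
  CoN.c 1 3 3 2 rfl rfl rfl rfl rfl EN1_c157 EN1_t165

theorem EN1_t167 : CoN ENTab ⟨⟨1, 3, 16⟩, ⟨0, 1, 4⟩, ⟨1, 2, 8⟩, ⟨1, 0, 0, 0,
  0⟩, ⟨8, 2, 0, 0, 1⟩, ⟨8, 2, 2, 1, 1⟩, ⟨4, 1, 1, 0, 1⟩⟩ :=
  CoN.c 0 3 16 1 rfl rfl rfl rfl rfl EN1_t166 EN1_c171

theorem EN1_t168 : CoN ENTab ⟨⟨1, 3, 16⟩, ⟨0, 1, 4⟩, ⟨1, 2, 8⟩, ⟨1, 0, 0, 0,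
  0⟩, ⟨8, 2, 0, 0, 1⟩, ⟨4, 1, 1, 1, 0⟩, ⟨4, 1, 1, 0, 1⟩⟩ :=
  CoN.c 2 3 1 1 rfl rfl rfl rfl rfl EN1_c156 EN1_t167

theorem EN1_t169 : CoN ENTab ⟨⟨1, 1, 8⟩, ⟨0, 1, 4⟩, ⟨1, 2, 8⟩, ⟨1, 0, 0, 0,
  0⟩, ⟨8, 2, 0, 0, 1⟩, ⟨4, 1, 1, 1, 0⟩, ⟨4, 1, 1, 0, 1⟩⟩ :=
  CoN.b 0 1 2 rfl rfl rfl EN1_t153 EN1_t168

theorem EN1_t170 : CoN ENTab ⟨⟨3, 3, 16⟩, ⟨1, 2, 8⟩, ⟨1, 1, 4⟩, ⟨1, 0, 0, 0,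
  0⟩, ⟨40, 10, 4, 0, 7⟩, ⟨224, 56, 38, 4, 43⟩, ⟨4, 1, 1, 0, 1⟩⟩ :=
  CoN.c 1 3 1 8 rfl rfl rfl rfl rfl EN1_c176 EN1_c177

theorem EN1_t171 : CoN ENTab ⟨⟨3, 3, 16⟩, ⟨1, 2, 8⟩, ⟨1, 1, 4⟩, ⟨1, 0, 0, 0,
  0⟩, ⟨224, 56, 38, 4, 43⟩, ⟨52, 13, 13, 2, 11⟩, ⟨4, 1, 1, 0, 1⟩⟩ :=
  CoN.c 2 3 1 12 rfl rfl rfl rfl rfl EN1_c178 EN1_c179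

theorem EN1_t172 : CoN ENTab ⟨⟨3, 3, 16⟩, ⟨1, 2, 8⟩, ⟨1, 1, 4⟩, ⟨1, 0, 0, 0,
  0⟩, ⟨40, 10, 4, 0, 7⟩, ⟨52, 13, 13, 2, 11⟩, ⟨4, 1, 1, 0, 1⟩⟩ :=
  CoN.c 1 2 3 2 rfl rfl rfl rfl rfl EN1_t170 EN1_t171

theorem EN1_t173 : CoN ENTab ⟨⟨3, 3, 16⟩, ⟨1, 2, 8⟩, ⟨1, 1, 4⟩, ⟨1, 0, 0, 0,
  0⟩, ⟨8, 2, 0, 0, 1⟩, ⟨52, 13, 13, 2, 11⟩, ⟨4, 1, 1, 0, 1⟩⟩ :=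
  CoN.c 1 3 3 4 rfl rfl rfl rfl rfl EN1_c175 EN1_t172

theorem EN1_t174 : CoN ENTab ⟨⟨3, 3, 16⟩, ⟨1, 2, 8⟩, ⟨1, 1, 4⟩, ⟨1, 0, 0, 0,
  0⟩, ⟨8, 2, 0, 0, 1⟩, ⟨28, 7, 7, 2, 5⟩, ⟨4, 1, 1, 0, 1⟩⟩ :=
  CoN.c 2 3 1 6 rfl rfl rfl rfl rfl EN1_c174 EN1_t173

theorem EN1_t175 : CoN ENTab ⟨⟨3, 3, 16⟩, ⟨1, 2, 8⟩, ⟨1, 1, 4⟩, ⟨1, 0, 0, 0,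
  0⟩, ⟨8, 2, 0, 0, 1⟩, ⟨8, 2, 2, 1, 1⟩, ⟨4, 1, 1, 0, 1⟩⟩ :=
  CoN.c 2 3 2 3 rfl rfl rfl rfl rfl EN1_c173 EN1_t174

theorem EN1_t176 : CoN ENTab ⟨⟨3, 3, 16⟩, ⟨1, 2, 8⟩, ⟨1, 1, 4⟩, ⟨1, 0, 0, 0,
  0⟩, ⟨8, 2, 0, 0, 1⟩, ⟨4, 1, 1, 1, 0⟩, ⟨4, 1, 1, 0, 1⟩⟩ :=
  CoN.c 2 3 1 1 rfl rfl rfl rfl rfl EN1_c172 EN1_t175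

theorem EN1_t177 : CoN ENTab ⟨⟨1, 1, 8⟩, ⟨1, 2, 8⟩, ⟨3, 3, 16⟩, ⟨1, 0, 0, 0,
  0⟩, ⟨40, 10, 4, 0, 7⟩, ⟨224, 56, 38, 4, 43⟩, ⟨4, 1, 1, 0, 1⟩⟩ :=
  CoN.c 0 3 16 1 rfl rfl rfl rfl rfl EN1_c184 EN1_c185

theorem EN1_t178 : CoN ENTab ⟨⟨1, 1, 8⟩, ⟨1, 2, 8⟩, ⟨3, 3, 16⟩, ⟨1, 0, 0, 0,
  0⟩, ⟨224, 56, 38, 4, 43⟩, ⟨100, 25, 25, 2, 23⟩, ⟨196, 49, 49, 2, 47⟩⟩ :=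
  CoN.c 1 2 1 2 rfl rfl rfl rfl rfl EN1_c187 EN1_c188

theorem EN1_t179 : CoN ENTab ⟨⟨1, 1, 8⟩, ⟨1, 2, 8⟩, ⟨3, 3, 16⟩, ⟨1, 0, 0, 0,
  0⟩, ⟨224, 56, 38, 4, 43⟩, ⟨100, 25, 25, 2, 23⟩, ⟨4, 1, 1, 0, 1⟩⟩ :=
  CoN.c 2 3 1 24 rfl rfl rfl rfl rfl EN1_t178 EN1_c189

theorem EN1_t180 : CoN ENTab ⟨⟨1, 1, 8⟩, ⟨1, 2, 8⟩, ⟨3, 3, 16⟩, ⟨1, 0, 0, 0,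
  0⟩, ⟨224, 56, 38, 4, 43⟩, ⟨52, 13, 13, 2, 11⟩, ⟨4, 1, 1, 0, 1⟩⟩ :=
  CoN.c 2 3 1 12 rfl rfl rfl rfl rfl EN1_c186 EN1_t179

theorem EN1_t181 : CoN ENTab ⟨⟨1, 1, 8⟩, ⟨1, 2, 8⟩, ⟨3, 3, 16⟩, ⟨1, 0, 0, 0,
  0⟩, ⟨40, 10, 4, 0, 7⟩, ⟨52, 13, 13, 2, 11⟩, ⟨4, 1, 1, 0, 1⟩⟩ :=
  CoN.c 1 2 3 2 rfl rfl rfl rfl rfl EN1_t177 EN1_t180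

theorem EN1_t182 : CoN ENTab ⟨⟨1, 1, 8⟩, ⟨1, 2, 8⟩, ⟨3, 3, 16⟩, ⟨1, 0, 0, 0,
  0⟩, ⟨8, 2, 0, 0, 1⟩, ⟨52, 13, 13, 2, 11⟩, ⟨4, 1, 1, 0, 1⟩⟩ :=
  CoN.c 1 3 3 4 rfl rfl rfl rfl rfl EN1_c183 EN1_t181

theorem EN1_t183 : CoN ENTab ⟨⟨1, 1, 8⟩, ⟨1, 2, 8⟩, ⟨3, 3, 16⟩, ⟨1, 0, 0, 0,
  0⟩, ⟨8, 2, 0, 0, 1⟩, ⟨28, 7, 7, 2, 5⟩, ⟨4, 1, 1, 0, 1⟩⟩ :=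
  CoN.c 2 3 1 6 rfl rfl rfl rfl rfl EN1_c182 EN1_t182

theorem EN1_t184 : CoN ENTab ⟨⟨1, 1, 8⟩, ⟨1, 2, 8⟩, ⟨3, 3, 16⟩, ⟨1, 0, 0, 0,
  0⟩, ⟨8, 2, 0, 0, 1⟩, ⟨8, 2, 2, 1, 1⟩, ⟨4, 1, 1, 0, 1⟩⟩ :=
  CoN.c 2 3 2 3 rfl rfl rfl rfl rfl EN1_c181 EN1_t183

theorem EN1_t185 : CoN ENTab ⟨⟨1, 1, 8⟩, ⟨1, 2, 8⟩, ⟨3, 3, 16⟩, ⟨1, 0, 0, 0,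
  0⟩, ⟨8, 2, 0, 0, 1⟩, ⟨4, 1, 1, 1, 0⟩, ⟨4, 1, 1, 0, 1⟩⟩ :=
  CoN.c 2 3 1 1 rfl rfl rfl rfl rfl EN1_c180 EN1_t184

theorem EN1_t186 : CoN ENTab ⟨⟨1, 1, 8⟩, ⟨1, 2, 8⟩, ⟨1, 1, 4⟩, ⟨1, 0, 0, 0,
  0⟩, ⟨8, 2, 0, 0, 1⟩, ⟨4, 1, 1, 1, 0⟩, ⟨4, 1, 1, 0, 1⟩⟩ :=
  CoN.b 2 2 1 rfl rfl rfl EN1_t176 EN1_t185

theorem EN1_t187 : CoN ENTab ⟨⟨1, 1, 8⟩, ⟨0, 1, 4⟩, ⟨1, 1, 4⟩, ⟨1, 0, 0, 0,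
  0⟩, ⟨8, 2, 0, 0, 1⟩, ⟨4, 1, 1, 1, 0⟩, ⟨4, 1, 1, 0, 1⟩⟩ :=
  CoN.b 1 1 1 rfl rfl rfl EN1_t169 EN1_t186

theorem EN1_t188 : CoN ENTab ⟨⟨1, 3, 32⟩, ⟨1, 2, 16⟩, ⟨3, 4, 32⟩, ⟨1, 0, 0,
  0, 0⟩, ⟨40, 10, 4, 0, 7⟩, ⟨424, 106, 88, 8, 89⟩, ⟨220, 55, 37, 2, 44⟩⟩ :=
  CoN.c 1 3 6 1 rfl rfl rfl rfl rfl EN1_c198 EN1_c199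

theorem EN1_t189 : CoN ENTab ⟨⟨1, 3, 32⟩, ⟨1, 2, 16⟩, ⟨3, 4, 32⟩, ⟨1, 0, 0,
  0, 0⟩, ⟨40, 10, 4, 0, 7⟩, ⟨204, 51, 51, 6, 45⟩, ⟨220, 55, 37, 2, 44⟩⟩ :=
  CoN.c 2 3 1 1 rfl rfl rfl rfl rfl EN1_c197 EN1_t188

theorem EN1_t190 : CoN ENTab ⟨⟨1, 3, 32⟩, ⟨1, 2, 16⟩, ⟨1, 1, 8⟩, ⟨1, 0, 0,
  0, 0⟩, ⟨40, 10, 4, 0, 7⟩, ⟨204, 51, 51, 6, 45⟩, ⟨220, 55, 37, 2, 44⟩⟩ :=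
  CoN.b 1 1 2 rfl rfl rfl EN1_t189 EN1_c200

theorem EN1_t191 : CoN ENTab ⟨⟨1, 3, 32⟩, ⟨1, 2, 16⟩, ⟨1, 1, 8⟩, ⟨1, 0, 0,
  0, 0⟩, ⟨40, 10, 4, 0, 7⟩, ⟨204, 51, 51, 6, 45⟩, ⟨100, 25, 25, 2, 23⟩⟩ :=
  CoN.c 1 3 3 1 rfl rfl rfl rfl rfl EN1_t190 EN1_c201

theorem EN1_t192 : CoN ENTab ⟨⟨1, 3, 32⟩, ⟨0, 1, 8⟩, ⟨1, 1, 8⟩, ⟨1, 0, 0, 0,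
  0⟩, ⟨40, 10, 4, 0, 7⟩, ⟨204, 51, 51, 6, 45⟩, ⟨100, 25, 25, 2, 23⟩⟩ :=
  CoN.b 1 1 1 rfl rfl rfl EN1_c196 EN1_t191

theorem EN1_t193 : CoN ENTab ⟨⟨1, 1, 16⟩, ⟨0, 1, 8⟩, ⟨1, 1, 8⟩, ⟨1, 0, 0, 0,
  0⟩, ⟨40, 10, 4, 0, 7⟩, ⟨204, 51, 51, 6, 45⟩, ⟨100, 25, 25, 2, 23⟩⟩ :=
  CoN.b 0 1 2 rfl rfl rfl EN1_c195 EN1_t192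

theorem EN1_t194 : CoN ENTab ⟨⟨1, 1, 16⟩, ⟨0, 1, 8⟩, ⟨1, 1, 8⟩, ⟨1, 0, 0, 0,
  0⟩, ⟨40, 10, 4, 0, 7⟩, ⟨52, 13, 13, 2, 11⟩, ⟨100, 25, 25, 2, 23⟩⟩ :=
  CoN.c 2 3 2 1 rfl rfl rfl rfl rfl EN1_c194 EN1_t193

theorem EN1_t195 : CoN ENTab ⟨⟨1, 3, 32⟩, ⟨0, 1, 8⟩, ⟨1, 1, 8⟩, ⟨1, 0, 0, 0,
  0⟩, ⟨408, 102, 84, 2, 91⟩, ⟨100, 25, 25, 2, 23⟩, ⟨4, 1, 1, 0, 1⟩⟩ :=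
  CoN.b 1 1 1 rfl rfl rfl EN1_c205 EN1_c206

theorem EN1_t196 : CoN ENTab ⟨⟨1, 1, 16⟩, ⟨0, 1, 8⟩, ⟨1, 1, 8⟩, ⟨1, 0, 0, 0,
  0⟩, ⟨408, 102, 84, 2, 91⟩, ⟨100, 25, 25, 2, 23⟩, ⟨4, 1, 1, 0, 1⟩⟩ :=
  CoN.b 0 1 2 rfl rfl rfl EN1_c204 EN1_t195

theorem EN1_t197 : CoN ENTab ⟨⟨1, 1, 16⟩, ⟨0, 1, 8⟩, ⟨1, 1, 8⟩, ⟨1, 0, 0, 0,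
  0⟩, ⟨220, 55, 37, 2, 44⟩, ⟨100, 25, 25, 2, 23⟩, ⟨4, 1, 1, 0, 1⟩⟩ :=
  CoN.c 1 3 1 47 rfl rfl rfl rfl rfl EN1_c203 EN1_t196

theorem EN1_t198 : CoN ENTab ⟨⟨1, 1, 16⟩, ⟨0, 1, 8⟩, ⟨1, 1, 8⟩, ⟨1, 0, 0, 0,
  0⟩, ⟨40, 10, 4, 0, 7⟩, ⟨100, 25, 25, 2, 23⟩, ⟨4, 1, 1, 0, 1⟩⟩ :=
  CoN.c 1 2 3 1 rfl rfl rfl rfl rfl EN1_c202 EN1_t197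

theorem EN1_t199 : CoN ENTab ⟨⟨1, 1, 16⟩, ⟨0, 1, 8⟩, ⟨1, 1, 8⟩, ⟨1, 0, 0, 0,
  0⟩, ⟨40, 10, 4, 0, 7⟩, ⟨52, 13, 13, 2, 11⟩, ⟨4, 1, 1, 0, 1⟩⟩ :=
  CoN.c 2 3 1 12 rfl rfl rfl rfl rfl EN1_t194 EN1_t198

theorem EN1_t200 : CoN ENTab ⟨⟨1, 1, 16⟩, ⟨0, 1, 8⟩, ⟨1, 1, 8⟩, ⟨1, 0, 0, 0,
  0⟩, ⟨8, 2, 0, 0, 1⟩, ⟨52, 13, 13, 2, 11⟩, ⟨4, 1, 1, 0, 1⟩⟩ :=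
  CoN.c 1 3 3 4 rfl rfl rfl rfl rfl EN1_c193 EN1_t199

theorem EN1_t201 : CoN ENTab ⟨⟨1, 1, 16⟩, ⟨0, 1, 8⟩, ⟨1, 1, 8⟩, ⟨1, 0, 0, 0,
  0⟩, ⟨8, 2, 0, 0, 1⟩, ⟨28, 7, 7, 2, 5⟩, ⟨4, 1, 1, 0, 1⟩⟩ :=
  CoN.c 2 3 1 6 rfl rfl rfl rfl rfl EN1_c192 EN1_t200

theorem EN1_t202 : CoN ENTab ⟨⟨1, 1, 16⟩, ⟨0, 1, 8⟩, ⟨1, 1, 8⟩, ⟨1, 0, 0, 0,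
  0⟩, ⟨8, 2, 0, 0, 1⟩, ⟨8, 2, 2, 1, 1⟩, ⟨4, 1, 1, 0, 1⟩⟩ :=
  CoN.c 2 3 2 3 rfl rfl rfl rfl rfl EN1_c191 EN1_t201

theorem EN1_t203 : CoN ENTab ⟨⟨1, 1, 16⟩, ⟨0, 1, 8⟩, ⟨1, 1, 8⟩, ⟨1, 0, 0, 0,
  0⟩, ⟨8, 2, 0, 0, 1⟩, ⟨4, 1, 1, 1, 0⟩, ⟨4, 1, 1, 0, 1⟩⟩ :=
  CoN.c 2 3 1 1 rfl rfl rfl rfl rfl EN1_c190 EN1_t202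

theorem EN1_t204 : CoN ENTab ⟨⟨0, 0, 1⟩, ⟨0, 1, 8⟩, ⟨1, 1, 8⟩, ⟨1, 0, 0, 0,
  0⟩, ⟨8, 2, 0, 0, 1⟩, ⟨4, 1, 1, 1, 0⟩, ⟨4, 1, 1, 0, 1⟩⟩ :=
  CoN.b 2 1 8 rfl rfl rfl EN1_t203 EN1_c207

theorem EN1_t205 : CoN ENTab ⟨⟨0, 1, 8⟩, ⟨1, 3, 16⟩, ⟨1, 1, 8⟩, ⟨1, 0, 0, 0,
  0⟩, ⟨40, 10, 4, 0, 7⟩, ⟨224, 56, 38, 4, 43⟩, ⟨4, 1, 1, 0, 1⟩⟩ :=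
  CoN.b 2 1 1 rfl rfl rfl EN1_c213 EN1_c214

theorem EN1_t206 : CoN ENTab ⟨⟨0, 1, 8⟩, ⟨1, 3, 16⟩, ⟨1, 1, 8⟩, ⟨1, 0, 0, 0,
  0⟩, ⟨224, 56, 38, 4, 43⟩, ⟨432, 108, 90, 12, 87⟩, ⟨4, 1, 1, 0, 1⟩⟩ :=
  CoN.c 1 2 2 1 rfl rfl rfl rfl rfl EN1_c215 EN1_c216

theorem EN1_t207 : CoN ENTab ⟨⟨0, 1, 8⟩, ⟨1, 3, 16⟩, ⟨1, 1, 8⟩, ⟨1, 0, 0, 0,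
  0⟩, ⟨432, 108, 90, 12, 87⟩, ⟨100, 25, 25, 2, 23⟩, ⟨4, 1, 1, 0, 1⟩⟩ :=
  CoN.c 1 3 1 95 rfl rfl rfl rfl rfl EN1_c218 EN1_c219

theorem EN1_t208 : CoN ENTab ⟨⟨0, 1, 8⟩, ⟨1, 3, 16⟩, ⟨1, 1, 8⟩, ⟨1, 0, 0, 0,
  0⟩, ⟨432, 108, 90, 12, 87⟩, ⟨52, 13, 13, 2, 11⟩, ⟨4, 1, 1, 0, 1⟩⟩ :=
  CoN.c 2 3 1 12 rfl rfl rfl rfl rfl EN1_c217 EN1_t207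

theorem EN1_t209 : CoN ENTab ⟨⟨0, 1, 8⟩, ⟨1, 3, 16⟩, ⟨1, 1, 8⟩, ⟨1, 0, 0, 0,
  0⟩, ⟨224, 56, 38, 4, 43⟩, ⟨52, 13, 13, 2, 11⟩, ⟨4, 1, 1, 0, 1⟩⟩ :=
  CoN.c 1 2 1 4 rfl rfl rfl rfl rfl EN1_t206 EN1_t208

theorem EN1_t210 : CoN ENTab ⟨⟨0, 1, 8⟩, ⟨1, 3, 16⟩, ⟨1, 1, 8⟩, ⟨1, 0, 0, 0,
  0⟩, ⟨40, 10, 4, 0, 7⟩, ⟨52, 13, 13, 2, 11⟩, ⟨4, 1, 1, 0, 1⟩⟩ :=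
  CoN.c 1 2 3 2 rfl rfl rfl rfl rfl EN1_t205 EN1_t209

theorem EN1_t211 : CoN ENTab ⟨⟨0, 1, 8⟩, ⟨1, 3, 16⟩, ⟨1, 1, 8⟩, ⟨1, 0, 0, 0,
  0⟩, ⟨8, 2, 0, 0, 1⟩, ⟨52, 13, 13, 2, 11⟩, ⟨4, 1, 1, 0, 1⟩⟩ :=
  CoN.c 1 3 3 4 rfl rfl rfl rfl rfl EN1_c212 EN1_t210

theorem EN1_t212 : CoN ENTab ⟨⟨0, 1, 8⟩, ⟨1, 3, 16⟩, ⟨1, 1, 8⟩, ⟨1, 0, 0, 0,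
  0⟩, ⟨8, 2, 0, 0, 1⟩, ⟨28, 7, 7, 2, 5⟩, ⟨4, 1, 1, 0, 1⟩⟩ :=
  CoN.c 2 3 1 6 rfl rfl rfl rfl rfl EN1_c211 EN1_t211

theorem EN1_t213 : CoN ENTab ⟨⟨0, 1, 8⟩, ⟨1, 3, 16⟩, ⟨1, 1, 8⟩, ⟨1, 0, 0, 0,
  0⟩, ⟨8, 2, 0, 0, 1⟩, ⟨8, 2, 2, 1, 1⟩, ⟨4, 1, 1, 0, 1⟩⟩ :=
  CoN.c 2 3 2 3 rfl rfl rfl rfl rfl EN1_c210 EN1_t212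

theorem EN1_t214 : CoN ENTab ⟨⟨0, 1, 8⟩, ⟨1, 3, 16⟩, ⟨1, 1, 8⟩, ⟨1, 0, 0, 0,
  0⟩, ⟨8, 2, 0, 0, 1⟩, ⟨4, 1, 1, 1, 0⟩, ⟨4, 1, 1, 0, 1⟩⟩ :=
  CoN.c 2 3 1 1 rfl rfl rfl rfl rfl EN1_c209 EN1_t213

theorem EN1_t215 : CoN ENTab ⟨⟨0, 1, 8⟩, ⟨0, 1, 4⟩, ⟨1, 1, 8⟩, ⟨1, 0, 0, 0,
  0⟩, ⟨8, 2, 0, 0, 1⟩, ⟨4, 1, 1, 1, 0⟩, ⟨4, 1, 1, 0, 1⟩⟩ :=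
  CoN.b 1 2 1 rfl rfl rfl EN1_c208 EN1_t214

theorem EN1_t216 : CoN ENTab ⟨⟨0, 0, 1⟩, ⟨0, 1, 4⟩, ⟨1, 1, 8⟩, ⟨1, 0, 0, 0,
  0⟩, ⟨8, 2, 0, 0, 1⟩, ⟨4, 1, 1, 1, 0⟩, ⟨4, 1, 1, 0, 1⟩⟩ :=
  CoN.b 0 4 1 rfl rfl rfl EN1_t204 EN1_t215

theorem EN1_t217 : CoN ENTab ⟨⟨0, 0, 1⟩, ⟨0, 1, 4⟩, ⟨1, 1, 4⟩, ⟨1, 0, 0, 0,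
  0⟩, ⟨8, 2, 0, 0, 1⟩, ⟨4, 1, 1, 1, 0⟩, ⟨4, 1, 1, 0, 1⟩⟩ :=
  CoN.b 2 1 4 rfl rfl rfl EN1_t187 EN1_t216

theorem EN1_t218 : CoN ENTab ⟨⟨1, 2, 8⟩, ⟨1, 3, 8⟩, ⟨3, 5, 16⟩, ⟨1, 0, 0, 0,
  0⟩, ⟨8, 2, 0, 0, 1⟩, ⟨8, 2, 2, 1, 1⟩, ⟨4, 1, 1, 0, 1⟩⟩ :=
  CoN.c 0 3 16 1 rfl rfl rfl rfl rfl EN1_c222 EN1_c223

theorem EN1_t219 : CoN ENTab ⟨⟨1, 2, 8⟩, ⟨1, 3, 8⟩, ⟨3, 5, 16⟩, ⟨1, 0, 0, 0,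
  0⟩, ⟨8, 2, 0, 0, 1⟩, ⟨4, 1, 1, 1, 0⟩, ⟨4, 1, 1, 0, 1⟩⟩ :=
  CoN.c 2 3 1 1 rfl rfl rfl rfl rfl EN1_c221 EN1_t218

theorem EN1_t220 : CoN ENTab ⟨⟨1, 2, 8⟩, ⟨7, 9, 32⟩, ⟨1, 1, 4⟩, ⟨1, 0, 0, 0,
  0⟩, ⟨40, 10, 4, 0, 7⟩, ⟨204, 51, 51, 6, 45⟩, ⟨100, 25, 25, 2, 23⟩⟩ :=
  CoN.c 2 3 1 2 rfl rfl rfl rfl rfl EN1_c230 EN1_c231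

theorem EN1_t221 : CoN ENTab ⟨⟨1, 2, 8⟩, ⟨3, 5, 16⟩, ⟨1, 1, 4⟩, ⟨1, 0, 0, 0,
  0⟩, ⟨40, 10, 4, 0, 7⟩, ⟨204, 51, 51, 6, 45⟩, ⟨100, 25, 25, 2, 23⟩⟩ :=
  CoN.b 1 1 4 rfl rfl rfl EN1_c229 EN1_t220

theorem EN1_t222 : CoN ENTab ⟨⟨1, 2, 8⟩, ⟨3, 5, 16⟩, ⟨1, 1, 4⟩, ⟨1, 0, 0, 0,
  0⟩, ⟨40, 10, 4, 0, 7⟩, ⟨52, 13, 13, 2, 11⟩, ⟨100, 25, 25, 2, 23⟩⟩ :=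
  CoN.c 2 3 2 1 rfl rfl rfl rfl rfl EN1_c228 EN1_t221

theorem EN1_t223 : CoN ENTab ⟨⟨1, 2, 8⟩, ⟨3, 5, 16⟩, ⟨1, 1, 4⟩, ⟨1, 0, 0, 0,
  0⟩, ⟨72, 18, 12, 0, 15⟩, ⟨100, 25, 25, 2, 23⟩, ⟨4, 1, 1, 0, 1⟩⟩ :=
  CoN.b 2 2 1 rfl rfl rfl EN1_c233 EN1_c234

theorem EN1_t224 : CoN ENTab ⟨⟨1, 2, 8⟩, ⟨3, 5, 16⟩, ⟨1, 1, 4⟩, ⟨1, 0, 0, 0,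
  0⟩, ⟨40, 10, 4, 0, 7⟩, ⟨100, 25, 25, 2, 23⟩, ⟨4, 1, 1, 0, 1⟩⟩ :=
  CoN.c 1 3 1 8 rfl rfl rfl rfl rfl EN1_c232 EN1_t223

theorem EN1_t225 : CoN ENTab ⟨⟨1, 2, 8⟩, ⟨3, 5, 16⟩, ⟨1, 1, 4⟩, ⟨1, 0, 0, 0,
  0⟩, ⟨40, 10, 4, 0, 7⟩, ⟨52, 13, 13, 2, 11⟩, ⟨4, 1, 1, 0, 1⟩⟩ :=
  CoN.c 2 3 1 12 rfl rfl rfl rfl rfl EN1_t222 EN1_t224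

theorem EN1_t226 : CoN ENTab ⟨⟨1, 2, 8⟩, ⟨3, 5, 16⟩, ⟨1, 1, 4⟩, ⟨1, 0, 0, 0,
  0⟩, ⟨8, 2, 0, 0, 1⟩, ⟨52, 13, 13, 2, 11⟩, ⟨4, 1, 1, 0, 1⟩⟩ :=
  CoN.c 1 3 3 4 rfl rfl rfl rfl rfl EN1_c227 EN1_t225

theorem EN1_t227 : CoN ENTab ⟨⟨1, 2, 8⟩, ⟨3, 5, 16⟩, ⟨1, 1, 4⟩, ⟨1, 0, 0, 0,
  0⟩, ⟨8, 2, 0, 0, 1⟩, ⟨28, 7, 7, 2, 5⟩, ⟨4, 1, 1, 0, 1⟩⟩ :=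
  CoN.c 2 3 1 6 rfl rfl rfl rfl rfl EN1_c226 EN1_t226

theorem EN1_t228 : CoN ENTab ⟨⟨1, 2, 8⟩, ⟨3, 5, 16⟩, ⟨1, 1, 4⟩, ⟨1, 0, 0, 0,
  0⟩, ⟨8, 2, 0, 0, 1⟩, ⟨8, 2, 2, 1, 1⟩, ⟨4, 1, 1, 0, 1⟩⟩ :=
  CoN.c 2 3 2 3 rfl rfl rfl rfl rfl EN1_c225 EN1_t227

theorem EN1_t229 : CoN ENTab ⟨⟨1, 2, 8⟩, ⟨3, 5, 16⟩, ⟨1, 1, 4⟩, ⟨1, 0, 0, 0,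
  0⟩, ⟨8, 2, 0, 0, 1⟩, ⟨4, 1, 1, 1, 0⟩, ⟨4, 1, 1, 0, 1⟩⟩ :=
  CoN.c 2 3 1 1 rfl rfl rfl rfl rfl EN1_c224 EN1_t228

theorem EN1_t230 : CoN ENTab ⟨⟨1, 2, 8⟩, ⟨1, 3, 8⟩, ⟨1, 1, 4⟩, ⟨1, 0, 0, 0,
  0⟩, ⟨8, 2, 0, 0, 1⟩, ⟨4, 1, 1, 1, 0⟩, ⟨4, 1, 1, 0, 1⟩⟩ :=
  CoN.b 1 1 2 rfl rfl rfl EN1_t219 EN1_t229

theorem EN1_t231 : CoN ENTab ⟨⟨0, 1, 4⟩, ⟨1, 3, 8⟩, ⟨1, 2, 8⟩, ⟨1, 0, 0, 0,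
  0⟩, ⟨8, 2, 0, 0, 1⟩, ⟨4, 1, 1, 1, 0⟩, ⟨4, 1, 1, 0, 1⟩⟩ :=
  CoN.b 0 2 1 rfl rfl rfl EN1_c235 EN1_c236

theorem EN1_t232 : CoN ENTab ⟨⟨0, 1, 4⟩, ⟨1, 3, 8⟩, ⟨1, 1, 4⟩, ⟨1, 0, 0, 0,
  0⟩, ⟨8, 2, 0, 0, 1⟩, ⟨4, 1, 1, 1, 0⟩, ⟨4, 1, 1, 0, 1⟩⟩ :=
  CoN.b 2 1 1 rfl rfl rfl EN1_t230 EN1_t231

theorem EN1_t233 : CoN ENTab ⟨⟨0, 1, 4⟩, ⟨0, 1, 2⟩, ⟨1, 1, 4⟩, ⟨1, 0, 0, 0,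
  0⟩, ⟨8, 2, 0, 0, 1⟩, ⟨4, 1, 1, 1, 0⟩, ⟨4, 1, 1, 0, 1⟩⟩ :=
  CoN.b 1 2 1 rfl rfl rfl EN1_c220 EN1_t232

theorem EN1_t234 : CoN ENTab ⟨⟨0, 0, 1⟩, ⟨0, 1, 2⟩, ⟨1, 1, 4⟩, ⟨1, 0, 0, 0,
  0⟩, ⟨8, 2, 0, 0, 1⟩, ⟨4, 1, 1, 1, 0⟩, ⟨4, 1, 1, 0, 1⟩⟩ :=
  CoN.b 0 2 1 rfl rfl rfl EN1_t217 EN1_t233

theorem EN1_t235 : CoN ENTab ⟨⟨0, 0, 1⟩, ⟨0, 1, 2⟩, ⟨1, 1, 2⟩, ⟨1, 0, 0, 0,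
  0⟩, ⟨8, 2, 0, 0, 1⟩, ⟨4, 1, 1, 1, 0⟩, ⟨4, 1, 1, 0, 1⟩⟩ :=
  CoN.b 2 1 2 rfl rfl rfl EN1_t143 EN1_t234

end Pool.Agent.TET.Cvr
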