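import Pool.Agent.Helper37_TET.ENBt

/-!
# MP_c7c9bf_co: cover of the charts, root 2 part 1
-/

set_option autoImplicit false
set_option maxRecDepth 100000

namespace Pool.Agent.TET.Cvr

theorem EN2_c20 : CoN ENTab ⟨⟨7, 7, 16⟩, ⟨3, 4, 8⟩, ⟨1, 1, 2⟩, ⟨1, 0, 0, 0,
  0⟩, ⟨448, 70, 112, 88, 3⟩, ⟨208, 46, 52, 46, 3⟩, ⟨4, 1, 1, 1, 0⟩⟩ :=
CoN.ofG ENTab_B ENBt_E ENBt_U (.B 2 8 1 (.C 1 3 1 95 (.B 1 1 4 (.B 0 1 4 (.B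
  0 2 1 (.B 0 4 1 (.L 132) (.B 1 1 8 (.C 0 1 1516 1 (.L 5) (.G 893 5 2 63 31
  16 63 [.n, .n, .n, .n, .g 3 74 0 0, .g 1 29 0 0])) (.L 132))) (.C 0 2 772
  1 (.C 0 1 1516 1 (.C 1 3 1 1 (.C 0 3 6068 1 (.C 0 1 3032 1 (.C 0 2 1544 1
  (.C 0 3 12136 1 (.C 0 2 3088 1 (.C 1 2 1 1 (.C 1 3 4 1 (.B 1 1 4 (.L 964)
  (.B 1 1 8 (.L 964) (.L 5))) (.L 5)) (.B 1 1 4 (.L 5) (.L 72))) (.L 976))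
  (.G 315 58 3 126 31 16 63 [.n, .n, .n, .n, .g 1 128 0 0, .g 1 180 0 0]))
  (.L 1362)) (.L 315)) (.G 1012 58 3 126 31 16 63 [.n, .n, .g 2 1273 0 0, .g
  2 1343 0 0, .n, .n])) (.L 72)) (.G 436 58 3 18 9 9 18 [.n, .n, .n, .n, .g
  16 63 0 0, .g 16 65 0 0, .n, .n])) (.G 437 5 2 32 31 16 63 [.n, .n, .n,
  .n, .g 1 27 0 0, .g 2 57 0 0]))) (.C 0 1 1516 1 (.B 1 2 1 (.C 0 2 772 1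
  (.C 0 1 3032 1 (.C 1 2 1 4 (.C 1 3 1 2 (.C 1 3 2 1 (.L 1901) (.B 0 1 8 (.L
  5) (.L 1232))) (.L 5)) (.L 5)) (.G 2476 58 3 8388607 4127727 2130440
  4127727 [.n, .n, .g 1 1909 0 0, .g 1 2016 0 0, .n, .n, .n, .n])) (.G 48
  111 0 1 1 1 1 [.n, .n, .n, .n, .n, .g 1 6 0 0])) (.C 1 3 1 1 (.C 0 1 3032
  1 (.C 1 2 1 8 (.C 1 3 1 1 (.C 0 2 12240 1 (.C 0 3 12132 1 (.B 2 4 1 (.C 0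
  1 6064 1 (.C 1 2 2 1 (.C 1 2 4 1 (.B 1 1 2 (.L 1986) (.C 1 3 2 1 (.B 1 1 4
  (.L 964) (.B 2 8 1 (.L 5) (.L 964))) (.L 72))) (.L 5)) (.B 1 1 2 (.L 5)
  (.L 72))) (.L 322)) (.C 1 2 4 1 (.L 1986) (.L 5))) (.L 490)) (.G 436 437 2
  1 1 1 1 [.n, .n, .n, .n, .n, .n, .n, .g 29 32 0 0])) (.L 72)) (.L 132))
  (.G 2480 5 2 8388607 4194304 1065220 8388607 [.n, .g 1 44 0 0, .g 2 4605 0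
  0, .g 1 2418 0 0, .n, .n])) (.L 132))) (.C 1 3 2 1 (.G 48 626 4 1 1 1 1
  [.n, .g 1024 1 0 0, .n, .n, .g 64 47 0 0, .g 64 49 0 0]) (.B 1 2 1 (.G 712
  528 0 1 1 1 1 [.n, .g 32 7 0 0, .n, .n, .n, .n, .n, .n]) (.G 436 5 2 63
  126 16 63 [.n, .n, .n, .n, .g 1 14 0 0, .g 4 59 0 0, .n, .n]))))) (.L
  132)) (.B 1 1 4 (.B 0 1 4 (.C 0 2 772 1 (.B 1 1 4 (.B 2 1 4 (.L 5) (.B 0 2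
  1 (.B 0 4 1 (.B 2 1 8 (.B 2 2 1 (.L 5) (.G 85 5 5 1 3036 1544 16 [.n, .g 1
  3995 0 0, .n, .g 1 293860 0 0, .n, .n])) (.B 0 8 1 (.C 1 2 1 2 (.G 521
  3623 1 1 3036 6124 16 [.n, .g 9 65 0 0, .n, .n, .n, .n, .g 1 144 0 0, .g 1
  159 0 0]) (.G 85 2599 1 1 1 1 1 [.n, .g 32 5 0 0, .n, .n, .n, .n])) (.G 85
  5 5 1 3036 1544 16 [.n, .g 1 12340 0 0, .n, .g 1 167452 0 0, .n, .n])))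
  (.L 5)) (.L 5))) (.C 0 3 16 1 (.C 1 3 1 95 (.C 0 3 6076 1 (.C 2 3 8 1 (.L
  72) (.B 0 4 1 (.L 1178) (.B 1 1 8 (.L 5) (.L 1178)))) (.G 3756 58 5
  1328129 326762 168651 664065 [.n, .n, .n, .n, .g 1 5579 0 0, .g 1 5832 0
  0, .n, .n])) (.C 0 1 6076 1 (.C 0 2 1544 1 (.C 0 3 32 1 (.C 1 3 1 190 (.C
  1 2 1 4 (.L 1178) (.B 0 4 1 (.C 2 3 8 1 (.B 0 8 1 (.L 480) (.B 1 1 16 (.L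
  5) (.C 2 3 16 1 (.C 1 2 1 8 (.L 1076) (.L 72)) (.L 1076)))) (.L 1076)) (.B
  2 16 1 (.B 1 1 8 (.L 5) (.B 1 1 16 (.L 5) (.C 2 3 8 1 (.C 0 2 3088 1 (.C 1
  2 1 4 (.L 1076) (.C 2 3 8 1 (.L 72) (.L 1076))) (.L 827)) (.L 1076)))) (.L
  5)))) (.B 0 4 1 (.C 2 3 1 48 (.C 2 3 2 1 (.B 0 8 1 (.L 3760) (.B 1 1 16
  (.L 5) (.C 0 2 3088 1 (.L 3760) (.G 58 1664 0 53397 210252 26699 106795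
  [.n, .n, .n, .n, .n, .g 1024 1 0 0])))) (.L 584)) (.L 584)) (.B 1 1 8 (.L
  5) (.C 2 3 1 48 (.B 1 1 16 (.L 5) (.C 2 3 2 1 (.B 2 16 1 (.C 1 2 1 8 (.L
  584) (.C 1 2 1 16 (.L 3760) (.L 3111))) (.L 5)) (.L 584))) (.L 584)))))
  (.C 2 3 1 97 (.G 1664 5 5 865 164155 41714 83644 [.g 1 343 0 0, .n, .n,
  .n]) (.G 3470 1664 0 8 1519 774 4 [.n, .n, .n, .n, .g 1 209 0 0, .g 1 215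
  0 0, .n, .n]))) (.G 5 480 0 41344 162699 20672 428 [.n, .n, .n, .n, .n, .g
  1024 3 0 0])) (.C 1 3 1 190 (.G 2736 58 5 3463334 1731667 439788 3463334
  [.n, .n, .n, .n, .g 1 10418 0 0, .g 1 10701 0 0, .n, .n]) (.L 490)))) (.C
  0 1 95 1 (.G 5 2004 0 1460 277144 70426 730 [.n, .n, .n, .n, .n, .g 1024 3
  0 0]) (.G 480 58 5 279095 139456 70922 735 [.g 1 1255 0 0, .n, .n, .n]))))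
  (.G 1108 5 5 386 759 193 4 [.n, .n, .g 1 42152 0 0, .g 1 184335 0 0, .n,
  .n])) (.B 1 2 1 (.C 0 2 772 1 (.L 5) (.G 48 5 4 386 759 193 4 [.n, .n, .n,
  .n, .n, .g 1 89 0 0])) (.B 2 4 1 (.B 1 1 2 (.L 5) (.B 1 1 4 (.L 5) (.B 2 8
  1 (.C 2 3 1 48 (.C 0 3 1540 1 (.C 0 1 3036 1 (.C 2 3 4 1 (.L 132) (.C 0 2
  6168 1 (.C 0 2 12336 1 (.B 2 16 1 (.C 0 3 3080 1 (.B 1 1 8 (.L 5) (.C 0 1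
  6072 1 (.C 0 1 12144 1 (.C 0 1 24288 1 (.C 1 3 1 8 (.C 1 2 1 2 (.L 1178)
  (.C 1 2 1 4 (.L 1076) (.L 3760))) (.L 584)) (.L 1059)) (.L 180)) (.L
  490))) (.L 490)) (.L 5)) (.L 490)) (.L 5))) (.L 5)) (.L 5)) (.C 0 2 1540 1
  (.C 0 2 3080 1 (.C 0 1 3036 1 (.C 1 3 1 380 (.C 1 2 1 1 (.L 830) (.C 0 3
  12152 1 (.C 2 3 4 1 (.C 1 2 1 2 (.L 2078) (.C 1 2 1 4 (.L 1076) (.L 480)))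
  (.L 2078)) (.L 1170))) (.L 584)) (.L 1170)) (.L 1170)) (.L 1108))) (.L
  5)))) (.L 5)))) (.C 2 3 1 48 (.B 1 1 8 (.C 0 2 772 1 (.C 1 3 1 2 (.C 1 2 1
  2 (.C 0 3 6116 1 (.C 1 3 4 1 (.L 1744) (.L 2736)) (.L 2087)) (.C 1 2 1 4
  (.L 4078) (.C 2 3 4 1 (.L 72) (.L 4078)))) (.C 0 3 1540 1 (.C 0 1 6116 1
  (.C 0 2 1544 1 (.L 480) (.G 315 1664 0 32 127 16 32 [.n, .n, .n, .n, .g 1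
  96 0 0, .g 1 103 0 0])) (.C 1 3 1 2 (.B 1 2 1 (.G 2004 58 5 349959 173602
  44089 349959 [.g 1 319 0 0, .n, .n, .n, .n]) (.G 2732 4039 1 41737 20704
  5258 41737 [.n, .n, .n, .n, .n, .n, .g 45 64 0 0, .g 45 64 0 0])) (.C 1 2
  1 8 (.G 2798 1664 0 4194304 4194304 8388607 1048576 [.n, .n, .n, .n, .g 2
  51 0 0, .g 1 30 0 0, .n, .n, .n, .n]) (.L 1272)))) (.B 2 1 1 (.B 1 2 1 (.B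
  1 4 1 (.G 480 58 5 54916 109832 27458 27458 [.g 1 349 0 0, .n, .n, .n])
  (.G 3054 1518 3 860599 1721197 430299 430299 [.n, .n, .g 1 10 0 0, .g 3 31
  0 0, .n, .n, .n, .n])) (.L 480)) (.G 5 480 0 86372 172744 43186 43186 [.n,
  .n, .n, .n, .n, .g 1024 3 0 0])))) (.G 3566 5 5 4260880 8388607 2130440
  4260880 [.n, .n, .g 1 9167 0 0, .g 1 9960 0 0, .n, .n, .n, .n, .n, .n]))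
  (.B 2 16 1 (.L 117) (.C 0 2 772 1 (.B 2 1 2 (.L 1664) (.B 0 1 1 (.C 0 3
  1540 1 (.G 3015 521 1 28 86023 43748 87270 [.n, .n, .g 4 1 0 0, .g 4 1 0
  0, .n, .n, .n, .n]) (.C 1 3 1 2 (.C 0 1 1 1 (.L 1767) (.L 1744)) (.L
  1767))) (.L 1511))) (.C 1 3 1 2 (.L 3527) (.L 1767))))) (.C 1 2 1 2 (.B 1
  1 8 (.C 1 3 1 190 (.B 1 2 1 (.L 3248) (.B 2 1 1 (.C 1 3 2 1 (.L 2542) (.L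
  2503)) (.L 3248))) (.L 1076)) (.B 2 16 1 (.L 117) (.B 2 1 2 (.L 3822) (.B
  0 1 1 (.G 521 1389 1 1 3036 6116 16 [.n, .g 7 32 0 0, .n, .n, .n, .n, .g 1
  81 0 0, .g 1 113 0 0]) (.L 1511))))) (.C 0 2 1540 1 (.C 0 1 6116 1 (.L
  2004) (.G 2798 1518 3 8388607 4194303 2112239 10973 [.n, .n, .g 1 122 0 0,
  .g 1 132 0 0, .g 1 52 0 0, .g 1 54 0 0, .n, .n, .n, .n])) (.B 2 16 1 (.L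
  1912) (.B 0 1 2 (.G 3048 2004 0 770 1529 385 4 [.n, .g 15 5 0 513, .n, .n,
  .n, .n, .n, .g 2 323 0 0]) (.L 1912)))))))) (.C 1 2 1 2 (.B 1 4 1 (.C 1 3
  1 95 (.C 1 3 2 1 (.L 1645) (.C 2 3 1 1 (.L 1232) (.C 1 3 1 2 (.L 1232) (.B
  1 8 1 (.G 48 1492 1 1 1 1 1 [.n, .g 64 1 0 0, .n, .n, .n, .n]) (.L 5)))))
  (.C 2 3 1 191 (.B 1 8 1 (.G 48 1965 1 1 1 1 1 [.n, .g 64 1 0 0, .n, .n,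
  .n, .n]) (.C 0 2 3060 1 (.L 5) (.G 48 1965 1 1 1 1 1 [.n, .g 64 1 0 0, .n,
  .n, .n, .n]))) (.L 5))) (.C 1 3 1 95 (.C 1 3 2 1 (.C 0 2 3060 1 (.B 2 1 2
  (.B 1 1 2 (.L 1986) (.C 0 3 6068 1 (.C 0 1 1516 1 (.B 2 2 1 (.B 1 1 4 (.L
  5) (.L 72)) (.C 1 2 2 1 (.C 1 3 4 1 (.L 964) (.L 5)) (.L 5))) (.L 437))
  (.L 437))) (.L 1133)) (.L 893)) (.B 2 1 2 (.B 1 1 2 (.L 5) (.L 72)) (.C 0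
  2 3060 1 (.C 1 3 1 2 (.B 2 1 4 (.L 5) (.L 1232)) (.L 5)) (.G 58 1492 1 63
  63 31 31 [.n, .n, .n, .g 32 3 0 0, .g 64 9 0 0, .n])))) (.B 2 1 2 (.B 1 1
  2 (.L 5) (.B 1 1 4 (.L 5) (.B 2 2 1 (.B 2 4 1 (.C 0 3 16 1 (.C 2 3 1 96
  (.L 72) (.G 521 3244 1 1 3036 6132 32 [.n, .g 2 15 0 0, .n, .n, .n, .n, .g
  1 301 0 0, .g 1 315 0 0])) (.C 0 1 95 1 (.G 2220 3783 1 1 1 1 1 [.n, .n,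
  .n, .g 1 47 0 0, .n, .n]) (.G 2220 58 5 1519 759 765 4 [.n, .n, .n, .n, .g
  1 12924 0 0, .g 1 22023 0 0]))) (.L 5)) (.L 5)))) (.C 0 2 3060 1 (.L 5)
  (.G 58 2759 1 1530 759 765 4 [.n, .n, .n, .g 16 1 0 0, .g 16 1 0 0,
  .n]))))) (.B 1 4 1 (.C 1 3 1 191 (.C 0 2 772 1 (.C 0 1 3060 1 (.B 0 1 2
  (.L 5) (.B 1 8 1 (.L 48) (.L 5))) (.B 0 1 2 (.G 111 1492 1 1 1 1 1 [.n, .g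
  4 1 0 0, .n, .n, .n, .n]) (.L 48))) (.B 0 1 2 (.G 111 1965 1 1 1 1 1 [.n,
  .g 4 1 0 0, .n, .n, .n, .n]) (.L 48))) (.C 0 2 772 1 (.L 5) (.G 1521 5 4
  49515 196137 24758 513 [.g 5 64 0 0, .n, .n, .g 64 3 0 0]))) (.B 2 1 2 (.B
  1 1 2 (.L 5) (.B 2 2 1 (.B 1 1 4 (.L 5) (.B 2 4 1 (.C 0 1 3060 1 (.C 0 2
  772 1 (.G 521 58 5 1 6120 1544 16 [.n, .n, .n, .n, .n, .n, .g 1 205664 0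
  0, .g 1 232522 0 0]) (.G 5 1767 0 386 1530 193 4 [.n, .n, .n, .n, .n, .g
  2048 1 0 0])) (.G 5 2220 3 1530 765 193 4 [.n, .n, .n, .n, .n, .g 131072 1
  0 0])) (.L 5))) (.L 5))) (.C 0 2 772 1 (.C 0 1 3060 1 (.L 5) (.G 58 2224 1
  1530 765 386 4 [.n, .n, .n, .g 64 1 0 0, .g 64 1 0 0, .n])) (.C 1 3 1 191
  (.G 1492 111 1 1 1 1 1 [.n, .g 8 33 0 0, .n, .n, .n, .n]) (.G 5 1521 0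
  58781 232838 29390 609 [.n, .n, .n, .n, .g 64 3 0 0, .n])))))))
  (by decide +kernel)

theorem EN2_c21 : CoN ENTab ⟨⟨3, 3, 8⟩, ⟨3, 4, 8⟩, ⟨7, 7, 16⟩, ⟨1, 0, 0, 0,
  0⟩, ⟨8, 0, 2, 1, 0⟩, ⟨8, 0, 2, 0, 1⟩, ⟨4, 1, 1, 1, 0⟩⟩ :=
CoN.ofG ENTab_B ENBt_E ENBt_U (.C 2 3 3 4 (.C 1 2 1 1 (.C 1 2 3 2 (.C 1 3 5
  1 (.C 1 2 6 1 (.C 1 2 12 1 (.L 126) (.L 415)) (.L 415)) (.L 415)) (.B 2 1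
  2 (.C 2 3 3 1 (.L 255) (.L 239)) (.L 239))) (.C 1 2 2 3 (.L 320) (.C 2 3 5
  1 (.C 1 2 1 6 (.L 325) (.B 1 2 1 (.L 538) (.L 1255))) (.B 1 2 1 (.L 552)
  (.L 320))))) (.C 2 3 1 6 (.C 2 3 2 1 (.C 1 2 5 1 (.L 126) (.C 2 3 4 1 (.L
  415) (.L 1017))) (.C 1 3 10 1 (.L 126) (.C 1 3 1 2 (.L 126) (.C 0 2 396 1
  (.C 2 3 1 4 (.L 126) (.B 2 1 2 (.L 637) (.L 126))) (.L 126))))) (.C 1 3 3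
  4 (.C 2 3 2 3 (.C 2 3 4 1 (.C 1 2 10 1 (.C 2 3 4 1 (.L 126) (.L 760)) (.C
  1 3 4 1 (.C 1 2 1 2 (.L 126) (.B 2 1 2 (.L 637) (.L 126))) (.B 2 1 2 (.L
  637) (.C 0 2 196 1 (.B 0 1 1 (.L 100) (.C 0 3 1548 1 (.L 637) (.L 1748)))
  (.L 126))))) (.L 760)) (.L 760)) (.C 1 2 3 2 (.B 2 1 2 (.C 2 3 1 48 (.L
  547) (.C 1 3 1 8 (.C 1 3 2 1 (.L 547) (.L 3271)) (.C 1 3 1 16 (.C 1 3 2 1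
  (.L 1474) (.C 2 3 1 3 (.L 1474) (.G 48 1492 1 1 1 1 1 [.n, .g 64 1 0 0, .g
  10 61 0 0, .g 9 62 0 0, .n, .n]))) (.B 1 2 1 (.B 0 1 4 (.B 2 1 1 (.C 0 2
  1532 1 (.G 111 528 0 1 1 1 1 [.n, .g 8 1 0 0, .n, .n, .n, .n]) (.G 528
  3310 0 766 127 383 4 [.n, .g 1 1 0 321, .n, .n, .n, .n])) (.L 1818)) (.G
  111 98 1 1 1 1 1 [.g 11 32 0 0, .n, .n, .n, .n, .n])) (.G 1965 59 1 1 1 1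
  1 [.n, .g 8 33 0 0, .n, .n, .n, .n]))))) (.B 0 1 1 (.L 100) (.C 1 3 1 8
  (.L 1748) (.B 0 1 2 (.L 1818) (.B 1 4 1 (.G 48 1039 0 1 252 764 16 [.n, .g
  128 11 0 0, .g 1 43 0 0, .g 2 63 0 0, .n, .n]) (.L 1818)))))) (.C 2 3 1 12
  (.C 2 3 2 1 (.B 0 1 1 (.B 2 1 2 (.L 3884) (.C 0 2 196 1 (.C 0 3 780 1 (.L
  1748) (.G 100 760 2 293235 142036 73309 146618 [.n, .n, .g 16 11 0 0,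
  .n])) (.G 100 189 2 691630 1340033 345815 1383260 [.n, .n, .g 64 5 0 0,
  .n]))) (.L 3884)) (.L 547)) (.B 2 1 2 (.C 1 3 1 48 (.L 547) (.C 0 2 388 1
  (.B 1 2 1 (.B 0 1 4 (.B 2 1 1 (.G 59 1818 2 1 2046 1036 21 [.n, .g 51 64 0
  0, .n, .n, .n, .n]) (.L 1818)) (.G 241 98 1 1 1 1 1 [.g 15 16 0 0, .n, .n,
  .n, .n, .n])) (.G 1965 241 1 1 1 1 1 [.n, .g 8 33 0 0, .n, .n, .n, .n]))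
  (.C 2 3 1 24 (.L 3888) (.C 0 3 1 49 (.C 1 3 1 1 (.L 3888) (.G 2860 1895 2
  2097152 8388607 2097152 4194304 [.n, .n, .g 1 119 0 0, .g 1 127 0 0, .n,
  .n, .g 7 69 0 0, .g 2 21 0 0])) (.C 1 2 1 2 (.C 1 3 1 96 (.C 0 1 1 1 (.G
  2860 2247 0 4194304 8388607 8388607 8126463 [.n, .n, .g 1 101 0 0, .g 1
  111 0 0, .n, .n, .g 7 65 0 0, .g 1 10 0 0]) (.G 2860 3911 1 8388607
  4194304 8388607 8388607 [.n, .n, .n, .g 28 63 0 24, .n, .n, .n, .n])) (.L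
  1895)) (.L 1895)))))) (.B 0 1 1 (.L 100) (.B 1 4 1 (.G 100 98 1 1 764 388
  16 [.g 1024 91 0 0, .n, .n, .n]) (.L 100))))))))) (by decide +kernel)

theorem EN2_c22 : CoN ENTab ⟨⟨1, 1, 4⟩, ⟨1, 2, 4⟩, ⟨3, 3, 8⟩, ⟨1, 0, 0, 0,
  0⟩, ⟨8, 0, 2, 1, 0⟩, ⟨8, 0, 2, 0, 1⟩, ⟨4, 1, 1, 1, 0⟩⟩ :=
CoN.ofG ENTab_B ENBt_E ENBt_U (.B 0 1 1 (.B 2 1 2 (.C 2 3 3 4 (.C 1 2 1 1
  (.C 1 2 3 2 (.L 55) (.C 2 3 3 1 (.L 239) (.L 415))) (.C 2 3 5 1 (.C 1 2 2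
  3 (.L 552) (.C 1 2 1 6 (.L 325) (.C 2 3 10 1 (.P (.ofNat 2) (.ofNat 1))
  (.L 2864)))) (.L 552))) (.C 2 3 1 6 (.C 2 3 2 1 (.L 55) (.L 126)) (.C 1 3
  3 4 (.L 126) (.C 2 3 1 12 (.C 2 3 2 1 (.L 126) (.B 1 1 1 (.L 126) (.B 2 2
  1 (.C 2 3 1 2 (.L 1474) (.C 1 3 3 1 (.L 1474) (.L 836))) (.L 126)))) (.C 1
  3 1 8 (.B 1 1 1 (.C 1 3 2 1 (.L 126) (.L 306)) (.B 2 2 1 (.C 1 2 3 1 (.L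
  100) (.L 836)) (.C 1 3 2 1 (.L 126) (.L 306)))) (.C 1 2 3 2 (.C 2 3 1 96
  (.L 306) (.C 1 2 12 1 (.B 1 1 1 (.C 2 3 1 381 (.L 429) (.B 1 2 1 (.L 205)
  (.B 2 1 1 (.L 761) (.L 205)))) (.B 2 2 1 (.L 118) (.C 2 3 1 381 (.L 429)
  (.B 0 1 1 (.B 2 1 2 (.L 118) (.L 205)) (.L 118))))) (.C 1 3 1 381 (.B 1 1
  1 (.L 429) (.B 2 2 1 (.L 118) (.L 429))) (.B 1 1 1 (.C 2 3 1 192 (.L 1282)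
  (.B 1 2 1 (.L 282) (.B 2 1 1 (.L 212) (.L 282)))) (.B 2 2 1 (.L 118) (.C 2
  3 1 192 (.L 1282) (.B 0 1 1 (.B 2 1 2 (.L 932) (.L 282)) (.L 212))))))))
  (.C 2 3 1 24 (.B 1 1 1 (.L 306) (.B 2 2 1 (.C 0 3 772 1 (.L 836) (.L 306))
  (.L 306))) (.C 1 3 1 96 (.L 306) (.B 1 1 1 (.C 2 3 1 48 (.L 426) (.C 1 3 1
  192 (.L 1282) (.B 1 2 1 (.L 282) (.B 2 1 1 (.C 2 3 1 96 (.C 0 2 1540 1 (.L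
  212) (.G 940 1858 0 3921230 7842459 1960615 3921230 [.n, .n, .g 4 59 0 0,
  .g 2 33 0 0, .n, .n, .n, .n])) (.L 212)) (.L 282))))) (.B 2 2 1 (.B 1 1 2
  (.C 2 3 1 48 (.C 0 2 772 1 (.L 118) (.L 1282)) (.L 118)) (.L 212)) (.C 2 3
  1 48 (.L 426) (.C 1 3 1 192 (.L 1282) (.B 0 1 1 (.B 2 1 2 (.C 2 3 1 96 (.C
  0 2 1540 1 (.L 932) (.G 426 2286 3 3896368 7792736 1948184 3896368 [.n,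
  .n, .g 5 68 0 0, .g 4 63 0 0, .n, .n, .n, .n])) (.L 932)) (.L 282)) (.B 2
  1 1 (.L 118) (.B 0 1 2 (.C 2 3 1 96 (.L 282) (.L 932)) (.L
  118)))))))))))))))) (.C 2 3 3 4 (.C 1 2 1 1 (.L 55) (.C 2 3 5 1 (.C 1 2 2
  3 (.L 119) (.C 1 2 1 6 (.L 325) (.C 2 3 10 1 (.P (.ofNat 2) (.ofNat 1))
  (.L 2864)))) (.L 119))) (.C 2 3 1 6 (.L 70) (.C 1 3 3 4 (.L 70) (.C 1 3 1
  8 (.L 126) (.C 2 3 1 12 (.L 126) (.C 2 3 1 24 (.L 426) (.B 2 1 4 (.L 940)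
  (.B 0 2 1 (.L 936) (.L 940)))))))))) (.B 1 2 1 (.C 2 3 3 4 (.C 1 2 1 1 (.L
  55) (.L 119)) (.C 2 3 1 6 (.C 2 3 2 1 (.L 55) (.L 70)) (.C 1 3 3 4 (.L
  126) (.C 0 3 16 1 (.C 2 3 1 6 (.L 126) (.C 1 3 1 4 (.L 836) (.C 2 3 1 12
  (.C 2 3 2 1 (.L 836) (.B 2 1 2 (.L 212) (.L 306))) (.B 0 1 2 (.C 2 3 1 24
  (.L 306) (.B 2 1 2 (.L 761) (.C 1 3 1 8 (.L 306) (.C 2 3 1 48 (.L 426) (.B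
  0 2 1 (.B 2 1 4 (.L 212) (.L 282)) (.L 212)))))) (.L 761))))) (.C 0 3 1 2
  (.C 0 2 6 1 (.B 2 1 2 (.G 1009 100 2 6136 23779 74404 12273 [.g 13 16 0 0,
  .n, .n, .n]) (.C 0 1 4 1 (.C 2 3 1 6 (.C 0 2 12 1 (.G 205 1306 2 148864
  1172305 3591347 3591347 [.n, .g 64 11 0 0, .g 2 81 0 0, .g 1 45 0 0, .n,
  .n, .n, .n]) (.L 1009)) (.G 205 212 2 189619 1493247 4574551 379237 [.n,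
  .g 16 3 0 0, .g 2 77 0 0, .g 2 85 0 0, .n, .n, .n, .n])) (.G 313 1009 0 63
  31 97 16 [.n, .g 3 8 0 0, .g 22 63 0 0, .n]))) (.C 1 3 1 2 (.L 1009) (.C 2
  3 1 3 (.L 1009) (.B 2 1 2 (.G 1009 1306 2 74404 48324 74404 12273 [.g 32
  31 0 0, .n, .n, .n]) (.L 313))))) (.C 0 2 3 1 (.G 803 840 2 16 31 97 4 [.g
  7 15 0 4261, .n, .n, .n]) (.L 3950))))))) (.C 2 3 3 4 (.C 1 2 1 1 (.C 1 2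
  3 2 (.L 55) (.C 2 3 3 1 (.L 239) (.L 415))) (.C 2 3 5 1 (.C 1 2 2 3 (.L
  552) (.C 1 2 1 6 (.L 325) (.C 2 3 10 1 (.P (.ofNat 2) (.ofNat 1)) (.L
  2864)))) (.L 552))) (.C 2 3 1 6 (.C 2 3 2 1 (.L 55) (.L 126)) (.C 1 3 3 4
  (.L 126) (.C 2 3 1 12 (.C 2 3 2 1 (.L 126) (.B 2 1 1 (.B 2 2 1 (.L 1474)
  (.L 836)) (.B 0 2 1 (.L 126) (.L 836)))) (.B 2 1 1 (.C 1 2 3 1 (.L 100)
  (.C 0 2 388 1 (.L 212) (.G 306 212 2 7977373 7812892 3988687 164482 [.n,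
  .g 32 3 0 0, .g 1 62 0 0, .g 1 68 0 0, .n, .n]))) (.C 1 3 1 8 (.B 0 2 1
  (.C 1 3 2 1 (.L 126) (.L 306)) (.L 836)) (.C 2 3 1 24 (.L 306) (.B 0 2 1
  (.C 2 3 1 48 (.L 426) (.C 1 3 1 16 (.L 426) (.B 2 1 2 (.B 2 2 1 (.L 118)
  (.B 0 1 1 (.C 2 3 1 96 (.L 282) (.L 212)) (.L 118))) (.B 0 4 1 (.L 282)
  (.C 2 3 1 96 (.C 1 3 6 1 (.L 440) (.C 0 2 1540 1 (.L 212) (.G 1550 60 3 35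
  71 18 35 [.n, .n, .n, .g 64 35 0 0]))) (.L 212)))))) (.C 2 3 1 48 (.C 1 2
  3 1 (.L 118) (.C 0 2 772 1 (.L 118) (.G 1872 2926 2 1589690 1589690 794845
  1589690 [.n, .n, .g 12 65 0 0, .g 1 6 0 0, .n, .n, .n, .n]))) (.L
  118)))))))))))) (by decide +kernel)

theorem EN2_c23 : CoN ENTab ⟨⟨0, 0, 1⟩, ⟨0, 1, 2⟩, ⟨1, 1, 4⟩, ⟨1, 0, 0, 0,
  0⟩, ⟨8, 0, 2, 1, 0⟩, ⟨8, 0, 2, 0, 1⟩, ⟨4, 1, 1, 1, 0⟩⟩ :=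
CoN.ofG ENTab_B ENBt_E ENBt_U (.B 0 2 1 (.B 2 1 4 (.B 1 1 1 (.B 0 1 2 (.C 2
  3 3 4 (.C 1 2 1 1 (.L 70) (.L 94)) (.C 2 3 1 6 (.L 70) (.C 1 3 3 4 (.L
  656) (.C 1 3 1 8 (.L 656) (.L 882))))) (.C 2 3 3 4 (.C 1 2 1 1 (.L 70) (.L
  94)) (.C 0 3 16 1 (.C 2 3 1 3 (.L 70) (.C 1 3 3 2 (.L 656) (.C 2 3 1 6 (.L
  656) (.C 1 3 1 4 (.L 656) (.C 1 3 1 8 (.L 936) (.L 882)))))) (.L 71))))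
  (.B 2 2 1 (.C 2 3 3 4 (.C 1 2 1 1 (.L 55) (.C 2 3 5 1 (.C 1 2 2 3 (.L 119)
  (.C 1 2 1 6 (.L 119) (.C 2 3 10 1 (.P (.ofNat 2) (.ofNat 1)) (.L 4044))))
  (.L 55))) (.C 2 3 1 6 (.L 70) (.L 349))) (.C 2 3 3 4 (.C 1 2 1 1 (.L 70)
  (.L 119)) (.C 2 3 1 6 (.L 70) (.C 1 3 3 4 (.L 656) (.C 1 3 1 8 (.L 656)
  (.L 882))))))) (.B 0 4 1 (.B 2 1 8 (.C 2 3 3 4 (.C 1 2 1 1 (.L 70) (.L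
  94)) (.C 1 3 3 4 (.L 656) (.C 2 3 1 6 (.L 656) (.C 2 3 1 12 (.L 656) (.C 1
  3 1 8 (.L 1432) (.C 0 3 16 1 (.C 2 3 1 12 (.L 1432) (.C 1 3 1 8 (.L 1432)
  (.B 2 2 1 (.B 1 1 1 (.B 1 2 1 (.B 1 4 1 (.B 0 1 4 (.L 3438) (.B 0 1 8 (.L
  3372) (.L 7))) (.L 3438)) (.L 882)) (.L 139)) (.B 2 1 2 (.C 2 3 1 24 (.L
  2887) (.B 1 4 1 (.B 1 8 1 (.B 0 1 8 (.L 3372) (.B 0 1 16 (.L 3399) (.L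
  7))) (.L 3372)) (.L 139))) (.C 1 2 3 2 (.C 1 3 1 16 (.L 2375) (.C 1 3 1 32
  (.L 2414) (.C 2 3 1 96 (.L 2414) (.C 2 3 1 192 (.L 3694) (.C 1 3 1 64 (.L
  3694) (.C 1 3 1 128 (.L 3655) (.C 2 3 1 384 (.L 2631) (.C 2 3 1 768 (.L
  2670) (.C 1 3 1 256 (.L 2670) (.B 2 1 4 (.B 1 8 1 (.B 1 16 1 (.B 0 1 16
  (.L 2348) (.L 1944)) (.L 2348)) (.L 139)) (.B 1 16 1 (.L 1944) (.B 2 1 8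
  (.L 2348) (.L 1944))))))))))))) (.C 1 3 1 96 (.L 3182) (.C 2 3 1 24 (.L
  3182) (.B 2 1 4 (.B 1 8 1 (.B 1 16 1 (.B 0 1 16 (.L 3628) (.L 2604)) (.L
  3628)) (.L 882)) (.B 2 1 8 (.B 1 16 1 (.L 2604) (.L 3628)) (.L
  2604)))))))))) (.G 2854 3540 2 69 544 838 35 [.n, .n, .n, .n, .g 32 25 0
  0, .g 64 55 0 0, .n, .n]))))))) (.C 2 3 3 4 (.C 1 2 1 1 (.L 1979) (.L 94))
  (.C 2 3 1 6 (.L 3116) (.C 1 3 3 4 (.L 656) (.C 2 3 1 12 (.L 1432) (.C 1 3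
  1 8 (.L 1432) (.C 1 3 1 16 (.L 1432) (.C 2 3 1 24 (.L 1432) (.C 0 3 16 1
  (.C 1 3 1 16 (.L 2158) (.C 2 3 1 24 (.L 2158) (.C 0 2 1540 1 (.B 2 1 16
  (.B 2 2 1 (.L 4014) (.B 0 1 4 (.L 2990) (.L 4014))) (.B 0 8 1 (.L 3143)
  (.B 1 4 1 (.L 73) (.L 2990)))) (.G 2092 2119 2 8388607 2778045 4194304
  87154 [.n, .g 36 0 64 43, .g 42 0 64 33, .n, .g 64 16 0 7])))) (.G 3975
  3366 0 123639 1962776 2982801 61820 [.n, .g 38 0 65 0, .g 47 0 64 0,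
  .n])))))))))) (.B 1 2 1 (.C 2 3 3 4 (.C 1 2 1 1 (.L 1979) (.L 94)) (.C 0 3
  16 1 (.C 0 2 100 1 (.B 1 4 1 (.L 25) (.C 0 3 32 1 (.C 0 1 20 1 (.B 1 1 2
  (.L 25) (.B 2 1 2 (.C 0 2 200 1 (.C 0 3 64 1 (.B 1 1 4 (.L 25) (.B 2 2 1
  (.C 0 2 400 1 (.C 2 3 1 6 (.L 1141) (.C 1 3 3 1 (.L 70) (.C 0 3 128 1 (.C
  1 3 1 1 (.L 656) (.C 1 3 1 2 (.L 656) (.C 2 3 1 6 (.L 656) (.L 1640))))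
  (.L 210)))) (.L 150)) (.L 61))) (.L 25)) (.L 25)) (.L 25))) (.L 25)) (.L
  25))) (.L 25)) (.L 25))) (.C 2 3 3 4 (.C 1 2 1 1 (.L 70) (.L 94)) (.C 1 3
  3 4 (.L 656) (.C 0 3 16 1 (.C 2 3 1 3 (.L 656) (.C 2 3 1 6 (.L 656) (.C 2
  3 1 12 (.L 656) (.C 2 3 1 24 (.L 2951) (.B 2 1 1 (.L 1640) (.B 0 2 1 (.C 0
  1 124 1 (.B 2 1 2 (.L 1640) (.C 0 2 1540 1 (.C 0 3 32 1 (.C 0 1 248 1 (.B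
  2 1 4 (.B 2 2 1 (.L 1640) (.L 7)) (.L 7)) (.L 1428)) (.L 1428)) (.L
  1428))) (.L 7)) (.L 1640))))))) (.G 3744 25 3 34 133 107 17 [.g 64 1 0 0,
  .n, .n, .n, .n, .n, .g 34 63 0 0, .g 31 65 0 0]))))))) (.B 1 2 1 (.B 0 1 2
  (.B 2 1 2 (.C 2 3 3 4 (.G 94 71 1 1 20 20 100 [.n, .n, .g 25 63 0 0, .n])
  (.L 32)) (.C 2 3 3 4 (.C 2 3 5 1 (.G 94 592 2 9 179 179 1714 [.n, .n, .g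
  57 64 0 0, .n]) (.L 1603)) (.L 32))) (.B 1 4 1 (.L 32) (.C 2 3 3 4 (.C 1 2
  1 1 (.L 32) (.L 94)) (.L 32)))) (.B 2 1 1 (.B 1 1 2 (.C 2 3 3 4 (.C 1 2 1
  1 (.L 70) (.L 94)) (.C 2 3 1 6 (.L 70) (.L 349))) (.C 2 3 3 4 (.C 1 2 1 1
  (.L 55) (.C 2 3 5 1 (.C 1 2 2 3 (.L 119) (.C 1 2 1 6 (.L 119) (.C 2 3 10 1
  (.P (.ofNat 2) (.ofNat 1)) (.L 4044)))) (.L 55))) (.C 2 3 1 6 (.L 70) (.L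
  349)))) (.B 0 2 1 (.C 2 3 3 4 (.C 1 2 1 1 (.L 70) (.L 94)) (.C 0 3 16 1
  (.B 2 1 2 (.C 2 3 1 3 (.L 70) (.L 349)) (.L 61)) (.L 32))) (.C 2 3 3 4 (.C
  1 2 1 1 (.L 70) (.L 94)) (.C 0 3 16 1 (.C 2 3 1 3 (.L 70) (.L 349)) (.L
  32))))))) (by decide +kernel)

end Pool.Agent.TET.Cvr
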