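import Pool.Agent.Helper37_TET.EN2_000
import Pool.Agent.Helper37_TET.EN2_001

/-!
# MP_c7c9bf_co: cover of the charts, root 2, assembly 0
-/

set_option autoImplicit false
set_option maxRecDepth 100000

namespace Pool.Agent.TET.Cvr

theorem EN2_t0 : CoN ENTab ⟨⟨15, 15, 32⟩, ⟨7, 8, 16⟩, ⟨1, 1, 2⟩, ⟨1, 0, 0,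
  0, 0⟩, ⟨184, 4, 46, 13, 12⟩, ⟨328, 16, 82, 22, 27⟩, ⟨88, 4, 22, 7, 6⟩⟩ :=
  CoN.b 1 1 8 rfl rfl rfl EN2_c6 EN2_c7

theorem EN2_t1 : CoN ENTab ⟨⟨15, 15, 32⟩, ⟨7, 8, 16⟩, ⟨1, 1, 2⟩, ⟨1, 0, 0,
  0, 0⟩, ⟨16, 0, 4, 1, 1⟩, ⟨328, 16, 82, 22, 27⟩, ⟨88, 4, 22, 7, 6⟩⟩ :=
  CoN.c 1 3 6 1 rfl rfl rfl rfl rfl EN2_c5 EN2_t0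

theorem EN2_t2 : CoN ENTab ⟨⟨7, 7, 16⟩, ⟨7, 8, 16⟩, ⟨1, 1, 2⟩, ⟨1, 0, 0, 0,
  0⟩, ⟨16, 0, 4, 1, 1⟩, ⟨328, 16, 82, 22, 27⟩, ⟨88, 4, 22, 7, 6⟩⟩ :=
  CoN.b 2 8 1 rfl rfl rfl EN2_t1 EN2_c8

theorem EN2_t3 : CoN ENTab ⟨⟨7, 7, 16⟩, ⟨7, 8, 16⟩, ⟨1, 1, 2⟩, ⟨1, 0, 0, 0,
  0⟩, ⟨16, 0, 4, 1, 1⟩, ⟨328, 16, 82, 22, 27⟩, ⟨40, 4, 10, 4, 3⟩⟩ :=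
  CoN.c 1 3 3 1 rfl rfl rfl rfl rfl EN2_t2 EN2_c9

theorem EN2_t4 : CoN ENTab ⟨⟨7, 7, 16⟩, ⟨7, 8, 16⟩, ⟨1, 1, 2⟩, ⟨1, 0, 0, 0,
  0⟩, ⟨16, 0, 4, 1, 1⟩, ⟨56, 0, 14, 2, 5⟩, ⟨40, 4, 10, 4, 3⟩⟩ :=
  CoN.c 2 3 3 4 rfl rfl rfl rfl rfl EN2_c4 EN2_t3

theorem EN2_t5 : CoN ENTab ⟨⟨7, 7, 16⟩, ⟨3, 4, 8⟩, ⟨1, 1, 2⟩, ⟨1, 0, 0, 0,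
  0⟩, ⟨16, 0, 4, 1, 1⟩, ⟨56, 0, 14, 2, 5⟩, ⟨40, 4, 10, 4, 3⟩⟩ :=
  CoN.b 1 1 4 rfl rfl rfl EN2_c3 EN2_t4

theorem EN2_t6 : CoN ENTab ⟨⟨7, 7, 16⟩, ⟨3, 4, 8⟩, ⟨1, 1, 2⟩, ⟨1, 0, 0, 0,
  0⟩, ⟨16, 0, 4, 1, 1⟩, ⟨8, 0, 2, 0, 1⟩, ⟨40, 4, 10, 4, 3⟩⟩ :=
  CoN.c 1 2 2 3 rfl rfl rfl rfl rfl EN2_t5 EN2_c10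

theorem EN2_t7 : CoN ENTab ⟨⟨7, 7, 16⟩, ⟨3, 4, 8⟩, ⟨1, 1, 2⟩, ⟨1, 0, 0, 0,
  0⟩, ⟨8, 0, 2, 1, 0⟩, ⟨8, 0, 2, 0, 1⟩, ⟨40, 4, 10, 4, 3⟩⟩ :=
  CoN.c 1 2 1 1 rfl rfl rfl rfl rfl EN2_c2 EN2_t6

theorem EN2_t8 : CoN ENTab ⟨⟨31, 31, 64⟩, ⟨3, 4, 8⟩, ⟨1, 1, 2⟩, ⟨1, 0, 0, 0,
  0⟩, ⟨164, 4, 10, 7, 0⟩, ⟨448, 70, 112, 88, 3⟩, ⟨4, 1, 1, 1, 0⟩⟩ :=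
  CoN.c 1 3 1 16 rfl rfl rfl rfl rfl EN2_c15 EN2_c16

theorem EN2_t9 : CoN ENTab ⟨⟨31, 31, 64⟩, ⟨3, 4, 8⟩, ⟨1, 1, 2⟩, ⟨1, 0, 0, 0,
  0⟩, ⟨40, 4, 10, 7, 0⟩, ⟨448, 70, 112, 88, 3⟩, ⟨4, 1, 1, 1, 0⟩⟩ :=
  CoN.c 0 1 124 1 rfl rfl rfl rfl rfl EN2_t8 EN2_c17

theorem EN2_t10 : CoN ENTab ⟨⟨15, 15, 32⟩, ⟨3, 4, 8⟩, ⟨1, 1, 2⟩, ⟨1, 0, 0,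
  0, 0⟩, ⟨40, 4, 10, 7, 0⟩, ⟨448, 70, 112, 88, 3⟩, ⟨4, 1, 1, 1, 0⟩⟩ :=
  CoN.b 2 16 1 rfl rfl rfl EN2_t9 EN2_c18

theorem EN2_t11 : CoN ENTab ⟨⟨7, 7, 16⟩, ⟨3, 4, 8⟩, ⟨1, 1, 2⟩, ⟨1, 0, 0, 0,
  0⟩, ⟨40, 4, 10, 7, 0⟩, ⟨448, 70, 112, 88, 3⟩, ⟨4, 1, 1, 1, 0⟩⟩ :=
  CoN.b 2 8 1 rfl rfl rfl EN2_t10 EN2_c19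

theorem EN2_t12 : CoN ENTab ⟨⟨7, 7, 16⟩, ⟨3, 4, 8⟩, ⟨1, 1, 2⟩, ⟨1, 0, 0, 0,
  0⟩, ⟨40, 4, 10, 7, 0⟩, ⟨208, 46, 52, 46, 3⟩, ⟨4, 1, 1, 1, 0⟩⟩ :=
  CoN.c 1 2 6 1 rfl rfl rfl rfl rfl EN2_t11 EN2_c20

theorem EN2_t13 : CoN ENTab ⟨⟨7, 7, 16⟩, ⟨3, 4, 8⟩, ⟨1, 1, 2⟩, ⟨1, 0, 0, 0,
  0⟩, ⟨40, 4, 10, 7, 0⟩, ⟨112, 22, 28, 22, 3⟩, ⟨4, 1, 1, 1, 0⟩⟩ :=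
  CoN.c 2 3 1 24 rfl rfl rfl rfl rfl EN2_c14 EN2_t12

theorem EN2_t14 : CoN ENTab ⟨⟨7, 7, 16⟩, ⟨3, 4, 8⟩, ⟨1, 1, 2⟩, ⟨1, 0, 0, 0,
  0⟩, ⟨8, 0, 2, 1, 0⟩, ⟨112, 22, 28, 22, 3⟩, ⟨4, 1, 1, 1, 0⟩⟩ :=
  CoN.c 1 3 3 4 rfl rfl rfl rfl rfl EN2_c13 EN2_t13

theorem EN2_t15 : CoN ENTab ⟨⟨7, 7, 16⟩, ⟨3, 4, 8⟩, ⟨1, 1, 2⟩, ⟨1, 0, 0, 0,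
  0⟩, ⟨8, 0, 2, 1, 0⟩, ⟨64, 10, 16, 10, 3⟩, ⟨4, 1, 1, 1, 0⟩⟩ :=
  CoN.c 2 3 1 12 rfl rfl rfl rfl rfl EN2_c12 EN2_t14

theorem EN2_t16 : CoN ENTab ⟨⟨7, 7, 16⟩, ⟨3, 4, 8⟩, ⟨1, 1, 2⟩, ⟨1, 0, 0, 0,
  0⟩, ⟨8, 0, 2, 1, 0⟩, ⟨40, 4, 10, 4, 3⟩, ⟨4, 1, 1, 1, 0⟩⟩ :=
  CoN.c 2 3 1 6 rfl rfl rfl rfl rfl EN2_c11 EN2_t15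

theorem EN2_t17 : CoN ENTab ⟨⟨7, 7, 16⟩, ⟨3, 4, 8⟩, ⟨1, 1, 2⟩, ⟨1, 0, 0, 0,
  0⟩, ⟨8, 0, 2, 1, 0⟩, ⟨8, 0, 2, 0, 1⟩, ⟨4, 1, 1, 1, 0⟩⟩ :=
  CoN.c 2 3 3 4 rfl rfl rfl rfl rfl EN2_t7 EN2_t16

theorem EN2_t18 : CoN ENTab ⟨⟨3, 3, 8⟩, ⟨3, 4, 8⟩, ⟨1, 1, 2⟩, ⟨1, 0, 0, 0,
  0⟩, ⟨8, 0, 2, 1, 0⟩, ⟨8, 0, 2, 0, 1⟩, ⟨4, 1, 1, 1, 0⟩⟩ :=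
  CoN.b 2 4 1 rfl rfl rfl EN2_t17 EN2_c21

theorem EN2_t19 : CoN ENTab ⟨⟨3, 3, 8⟩, ⟨1, 2, 4⟩, ⟨1, 1, 2⟩, ⟨1, 0, 0, 0,
  0⟩, ⟨8, 0, 2, 1, 0⟩, ⟨8, 0, 2, 0, 1⟩, ⟨4, 1, 1, 1, 0⟩⟩ :=
  CoN.b 1 1 2 rfl rfl rfl EN2_c1 EN2_t18

theorem EN2_t20 : CoN ENTab ⟨⟨1, 1, 4⟩, ⟨1, 2, 4⟩, ⟨1, 1, 2⟩, ⟨1, 0, 0, 0,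
  0⟩, ⟨8, 0, 2, 1, 0⟩, ⟨8, 0, 2, 0, 1⟩, ⟨4, 1, 1, 1, 0⟩⟩ :=
  CoN.b 2 2 1 rfl rfl rfl EN2_t19 EN2_c22

theorem EN2_t21 : CoN ENTab ⟨⟨1, 1, 4⟩, ⟨0, 1, 2⟩, ⟨1, 1, 2⟩, ⟨1, 0, 0, 0,
  0⟩, ⟨8, 0, 2, 1, 0⟩, ⟨8, 0, 2, 0, 1⟩, ⟨4, 1, 1, 1, 0⟩⟩ :=
  CoN.b 1 1 1 rfl rfl rfl EN2_c0 EN2_t20

theorem EN2_t22 : CoN ENTab ⟨⟨0, 0, 1⟩, ⟨0, 1, 2⟩, ⟨1, 1, 2⟩, ⟨1, 0, 0, 0,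
  0⟩, ⟨8, 0, 2, 1, 0⟩, ⟨8, 0, 2, 0, 1⟩, ⟨4, 1, 1, 1, 0⟩⟩ :=
  CoN.b 2 1 2 rfl rfl rfl EN2_t21 EN2_c23

end Pool.Agent.TET.Cvr
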