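import Pool.Agent.Helper37_TET.ENBt

/-!
# MP_c7c9bf_co: cover of the charts, root 3 part 2
-/

set_option autoImplicit false
set_option maxRecDepth 100000

namespace Pool.Agent.TET.Cvr

theorem EN3_c34 : CoN ENTab ⟨⟨7, 7, 16⟩, ⟨3, 4, 8⟩, ⟨1, 1, 2⟩, ⟨1, 0, 0, 0,
  0⟩, ⟨40, 4, 10, 0, 7⟩, ⟨224, 38, 56, 4, 43⟩, ⟨412, 85, 103, 4, 90⟩⟩ :=
CoN.ofG ENTab_B ENBt_E ENBt_U (.C 0 3 1508 1 (.C 2 3 4 1 (.C 1 3 49 1 (.L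
  298) (.C 1 3 1 2 (.L 298) (.C 1 3 1 4 (.L 502) (.C 2 3 8 1 (.L 502) (.C 2
  3 1 2 (.L 502) (.C 2 3 1 4 (.L 502) (.B 1 1 4 (.B 0 1 2 (.B 0 2 1 (.B 2 1
  1 (.B 1 1 4 (.L 13) (.B 2 2 1 (.L 16) (.L 13))) (.L 13)) (.B 0 1 2 (.B 2 4
  1 (.L 16) (.B 0 2 1 (.L 6) (.L 16))) (.L 16))) (.L 16)) (.B 1 1 8 (.B 1 2
  1 (.B 0 1 1 (.L 13) (.B 0 1 2 (.L 13) (.L 16))) (.L 13)) (.L 1344)))))))))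
  (.C 0 2 6040 1 (.C 0 1 124 1 (.B 0 1 2 (.B 1 1 16 (.C 0 1 248 1 (.C 0 3
  3016 1 (.C 0 2 12080 1 (.B 2 1 4 (.B 1 2 1 (.C 0 1 496 1 (.C 0 3 6032 1
  (.C 0 2 24160 1 (.C 0 1 992 1 (.C 0 3 12064 1 (.C 0 2 48320 1 (.C 0 1 1984
  1 (.C 0 3 24128 1 (.C 0 2 96640 1 (.C 0 1 3968 1 (.C 0 3 48256 1 (.B 0 1 4
  (.B 1 1 2 (.L 3504) (.B 1 1 4 (.L 3504) (.B 0 8 1 (.L 1703) (.C 0 1 7936 1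
  (.C 1 3 6 1 (.C 0 2 193280 1 (.B 1 1 8 (.L 473) (.G 1134 373 1 1 1 1 1
  [.n, .n, .n, .n, .n, .n, .g 3 71 0 0, .g 1 26 0 0])) (.L 1326)) (.L 13))
  (.L 1326))))) (.B 1 4 1 (.L 51) (.G 523 373 1 1 1 1 1 [.n, .n, .n, .n, .g
  2 311 0 0, .g 2 323 0 0]))) (.L 111)) (.L 111)) (.L 48)) (.L 48)) (.L 48))
  (.L 48)) (.L 48)) (.L 48)) (.L 59)) (.L 59)) (.L 59)) (.G 1134 1703 1 1 1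
  1 1 [.n, .n, .n, .n, .n, .n, .g 1 15 0 0, .g 4 57 0 0])) (.B 1 4 1 (.G 241
  528 0 1 1 1 1 [.n, .g 64 19 0 0, .n, .n, .n, .n]) (.B 1 1 2 (.L 528) (.L
  1616)))) (.G 708 528 0 1 1 1 1 [.n, .g 64 3 0 0, .n, .n, .n, .n, .n, .n]))
  (.G 528 241 1 1 1 1 1 [.g 35 64 0 0, .n, .n, .n, .n, .n])) (.C 0 1 1 2 (.G
  2380 708 1 1 1 1 1 [.n, .n, .g 1 573 0 0, .g 2 1205 0 0, .n, .n, .g 1 142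
  0 0, .n]) (.B 2 1 4 (.G 688 478 1 1 1 1 1 [.g 8 5 0 0, .n, .g 1 219 0 0,
  .g 1 233 0 0, .n, .n]) (.G 478 1492 1 1 1 1 1 [.n, .g 32 7 0 0, .n, .n,
  .n, .n, .n, .n])))) (.C 1 3 12 1 (.L 1737) (.L 13))) (.B 1 1 4 (.C 0 3
  3016 1 (.C 1 3 24 1 (.L 16) (.C 0 2 12080 1 (.C 0 1 11984 1 (.C 1 3 1 4
  (.C 1 3 2 1 (.L 498) (.C 1 3 1 2 (.L 498) (.B 1 2 1 (.B 0 1 4 (.L 108) (.L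
  97)) (.B 1 1 2 (.L 42) (.L 1))))) (.B 1 2 1 (.B 1 4 1 (.L 48) (.C 0 3 6032
  1 (.C 0 1 48096 1 (.C 0 2 24160 1 (.B 2 1 1 (.C 0 3 12064 1 (.C 0 1 96192
  1 (.C 0 2 48320 1 (.C 0 3 24128 1 (.C 1 3 1 4 (.L 108) (.L 1)) (.L 2806))
  (.L 897)) (.L 897)) (.L 897)) (.L 48)) (.L 48)) (.L 48)) (.L 48))) (.C 2 3
  1 4 (.L 1) (.B 1 1 2 (.L 1) (.L 13))))) (.L 98)) (.L 98))) (.B 0 1 4 (.L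
  59) (.B 1 2 1 (.B 1 4 1 (.B 0 1 8 (.G 98 906 0 1 1 1 1 [.n, .n, .n, .n,
  .n, .n, .g 1 59 0 0, .g 1 64 0 0]) (.L 99)) (.L 98)) (.L 59)))) (.B 2 16 1
  (.C 1 3 12 1 (.C 0 1 248 1 (.C 0 3 5992 1 (.B 1 1 8 (.B 1 2 1 (.B 0 1 4
  (.L 438) (.C 0 2 12080 1 (.B 1 4 1 (.C 0 1 496 1 (.B 0 1 8 (.L 1959) (.C 1
  2 24 1 (.L 3105) (.C 2 3 1 2 (.B 1 8 1 (.L 41) (.L 3800)) (.L 4033)))) (.L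
  1300)) (.L 438)) (.G 3345 176 5 1 1 1 1 [.n, .n, .n, .n, .n, .g 8 13 0
  0]))) (.L 438)) (.L 1737)) (.L 683)) (.L 683)) (.B 1 1 8 (.C 0 3 3016 1
  (.C 1 2 2 1 (.L 13) (.C 2 3 1 2 (.C 0 1 24064 1 (.B 1 2 1 (.B 0 1 4 (.L
  438) (.B 0 1 8 (.L 13) (.C 0 2 12080 1 (.C 0 3 24144 1 (.C 0 2 24160 1 (.C
  0 1 48128 1 (.C 1 2 1 2 (.L 13) (.C 1 3 1 4 (.C 0 1 192896 1 (.C 1 2 1 8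
  (.C 0 2 772352 1 (.C 0 2 1544704 1 (.C 1 3 1 1 (.C 0 2 3089408 1 (.B 1 4 1
  (.C 1 2 16 1 (.L 13) (.C 1 2 1 2 (.L 13) (.L 158))) (.L 438)) (.G 3089 6 2
  8388607 524288 4194304 1048576 [.n, .n, .n, .n, .n, .n, .g 1 4604 0 0, .g
  1 4785 0 0, .n, .n])) (.L 69)) (.G 934 13 3 8388607 1048576 4194304
  1048576 [.n, .n, .n, .n, .n, .n, .g 1 1220 0 0, .g 1 1413 0 0])) (.L 806))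
  (.L 69)) (.L 806)) (.L 69))) (.L 806)) (.L 806)) (.L 457)) (.L 806)))) (.L
  438)) (.L 683)) (.L 13))) (.L 708)) (.L 53))) (.C 0 1 248 1 (.C 0 3 3016 1
  (.C 0 2 12080 1 (.B 2 1 2 (.C 1 3 12 1 (.B 1 4 1 (.C 1 3 24 1 (.L 16) (.C
  1 2 1 1 (.C 1 3 1 2 (.L 1396) (.B 1 8 1 (.L 385) (.L 13))) (.B 1 8 1 (.C 1
  2 1 2 (.L 42) (.B 0 1 8 (.L 13) (.C 2 3 1 2 (.L 41) (.L 42)))) (.L 13))))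
  (.C 0 2 24160 1 (.B 2 2 1 (.L 438) (.B 0 1 1 (.G 1616 1703 1 1 1 1 1 [.n,
  .n, .n, .n, .n, .n, .g 1 33 0 0, .g 2 67 0 0]) (.L 438))) (.L 1134))) (.C
  1 2 2 1 (.L 13) (.C 2 3 1 4 (.B 0 1 8 (.L 13) (.B 1 4 1 (.C 1 2 1 2 (.L
  13) (.C 1 3 1 2 (.C 1 2 1 4 (.B 1 8 1 (.C 1 2 2 1 (.L 13) (.L 158)) (.L
  13)) (.L 1245)) (.L 69))) (.L 13))) (.L 13)))) (.C 1 3 12 1 (.C 1 2 49 1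
  (.L 1396) (.C 1 3 1 4 (.L 16) (.B 2 1 4 (.C 1 2 1 4 (.L 42) (.C 0 3 11984
  1 (.C 2 3 1 1 (.L 41) (.C 1 3 1 8 (.L 41) (.L 13))) (.G 13 41 1 161884
  1305192 161884 80942 [.n, .n, .n, .g 128 1 0 0, .n, .n]))) (.L 42)))) (.B
  0 1 2 (.C 0 2 24160 1 (.C 0 1 11984 1 (.C 0 3 6032 1 (.C 2 3 1 4 (.C 0 3
  96576 1 (.C 0 3 193152 1 (.C 0 1 23968 1 (.C 0 3 386304 1 (.C 0 1 47936 1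
  (.C 0 2 48320 1 (.C 0 1 95872 1 (.C 0 2 96640 1 (.C 0 2 193280 1 (.C 2 3 2
  1 (.C 1 2 2 1 (.B 2 1 4 (.L 13) (.C 2 3 2 1 (.L 42) (.L 13))) (.C 1 3 2 1
  (.B 2 1 4 (.B 1 2 1 (.C 2 3 8 1 (.L 16) (.C 0 3 3085824 1 (.C 2 3 1 1 (.L
  16) (.L 13)) (.L 373))) (.L 373)) (.L 41)) (.C 1 3 1 2 (.C 1 2 1 8 (.B 2 1
  4 (.B 1 2 1 (.L 158) (.L 373)) (.L 158)) (.L 69)) (.L 69)))) (.L 13)) (.L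
  285)) (.L 285)) (.L 285)) (.L 285)) (.L 285)) (.L 285)) (.L 473)) (.L
  473)) (.L 51)) (.L 13)) (.L 51)) (.L 51)) (.L 51)) (.C 1 2 2 1 (.L 13) (.C
  2 3 1 4 (.C 2 3 2 1 (.C 2 3 4 1 (.B 1 8 1 (.L 41) (.C 0 1 48128 1 (.B 2 1
  2 (.L 13) (.L 41)) (.L 48))) (.L 13)) (.L 13)) (.L 13)))))) (.L 523)) (.L
  59)) (.G 528 111 1 1 1 1 1 [.g 21 32 0 0, .n, .n, .n, .n, .n]))))) (.B 0 1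
  2 (.B 1 1 16 (.C 1 3 24 1 (.C 1 2 97 1 (.P (.ofNat 3) (.ofNat 2)) (.C 1 2
  1 2 (.G 173 3586 0 40 3873 7756 964 [.g 8 5 0 0, .n, .n, .n, .n, .n]) (.B
  2 1 4 (.G 173 364 1 1 1 1 1 [.n, .n, .n, .n, .n, .g 3 61 0 0]) (.B 0 2 1
  (.G 1268 7648 1 16 3114 779 387 [.g 44 65 0 0, .n, .n, .n, .n, .g 18 65 0
  0]) (.G 1268 364 0 1 1 1 1 [.n, .g 3 5 0 0, .g 1 45 0 0, .n, .n, .n])))))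
  (.C 1 2 2 1 (.C 1 3 1 2 (.B 0 2 1 (.L 438) (.L 173)) (.B 0 2 1 (.G 1687
  1652 1 1 1 1 1 [.n, .g 64 19 0 0, .n, .n, .n, .n]) (.G 708 1585 0 1 1 1 1
  [.n, .g 64 1 0 0, .g 5 8 0 0, .g 5 9 0 0, .n, .n, .n, .n]))) (.G 708 2577
  1 1 1 1 1 [.n, .g 16 1 0 0, .n, .n, .n, .n, .n, .n]))) (.C 1 3 24 1 (.L
  2444) (.G 1655 6 4 6475 156619 315262 78917 [.g 5 63 0 0, .g 4 71 0 0, .n,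
  .n]))) (.C 1 3 24 1 (.B 2 16 1 (.L 683) (.G 683 16 1 32 16 1559 773 [.g 5
  13 0 0, .n, .n, .n, .n, .n])) (.C 1 2 2 1 (.C 1 3 1 2 (.G 276 173 2 1 1 1
  1 [.n, .n, .n, .n, .n, .g 256 1 0 0, .n, .n]) (.C 1 3 1 4 (.G 276 1086 1 1
  1 1 1 [.n, .n, .n, .n, .n, .g 59 64 0 0, .n, .n]) (.B 1 1 4 (.G 111 337 1
  1 1 1 1 [.g 43 64 0 0, .n, .n, .n, .n, .n]) (.G 6 173 5 16 1554 1553 195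
  [.n, .n, .g 4096 13 0 0, .n, .g 256 1 0 0, .n])))) (.B 1 1 4 (.G 337 16 1
  16 1553 779 195 [.n, .g 32 1 0 0, .n, .n, .n, .n, .n, .n, .g 3 65 0 0, .g
  3 71 0 0]) (.G 243 708 1 1 1 1 1 [.g 32 63 0 0, .n, .n, .n, .g 1 1239 0 0,
  .g 1 1362 0 0])))))) (.B 0 1 2 (.C 1 3 24 1 (.B 1 1 16 (.C 0 1 1 97 (.G 6
  1730 0 478713 957425 239356 239356 [.n, .n, .g 32 5 0 0, .n, .g 512 17 0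
  0, .n]) (.G 173 645 2 1 1 1 1 [.g 64 5 0 0, .n, .n, .n, .n, .n])) (.L
  2444)) (.G 364 6 2 4 2 2 1 [.g 16 1 0 0, .g 32 1 0 0, .n, .n, .g 41 64 0
  0, .g 39 64 0 0])) (.B 0 1 4 (.C 1 3 24 1 (.G 1911 683 0 1 1 1 1 [.n, .g
  32 27 0 0, .n, .n, .n, .n]) (.B 2 16 1 (.C 1 3 1 2 (.L 276) (.B 1 1 32 (.G
  1024 6 2 4 4 2 1 [.n, .g 32 1 0 0, .n, .n, .g 25 63 0 0, .g 23 63 0 0, .n,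
  .n]) (.L 13))) (.G 341 6 2 8388607 4194304 4194304 2097152 [.g 2 59 0 0,
  .g 3 64 0 0, .g 1 2922 0 0, .g 1 3082 0 0, .n, .n]))) (.C 1 3 24 1 (.L
  683) (.C 2 3 1 2 (.L 683) (.C 1 3 1 2 (.L 683) (.B 2 32 1 (.C 0 3 1 4 (.L
  683) (.C 1 3 1 4 (.L 276) (.C 2 3 1 4 (.L 276) (.B 1 1 4 (.G 337 683 5 1 1
  1 1 [.n, .g 512 3 0 0, .n, .n, .n, .n, .n, .n, .g 6 13 0 0, .g 13 32 0 0])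
  (.L 243))))) (.C 0 1 1 1 (.C 0 2 1 1 (.G 466 241 0 119736 239472 239472
  29934 [.n, .g 64 1 0 0, .g 23 63 0 0, .g 11 32 0 0, .n, .n]) (.G 337 173 5
  1 1 1 1 [.n, .g 128 1 0 0, .n, .n, .n, .n, .g 13 62 0 0, .g 6 31 0 0, .n,
  .n])) (.G 337 173 5 1 1 1 1 [.n, .g 256 3 0 0, .n, .n, .n, .n, .g 13 62 0
  0, .g 6 31 0 0, .n, .n])))))))))) (.C 0 2 1 4 (.C 0 1 1 24 (.C 0 1 2 1 (.B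
  0 1 2 (.G 173 6 2 2 8 4 1 [.g 64 3 0 0, .n, .n, .n, .g 29 63 0 0, .g 16 63
  0 0]) (.B 1 1 4 (.B 0 1 4 (.G 173 1 2 2 8 4 1 [.n, .n, .n, .n, .g 19 64 0
  0, .g 22 65 0 0]) (.C 1 3 1 8 (.G 1 173 5 6 24 12 48 [.n, .n, .g 32 5 0 0,
  .n, .g 64 9 0 0, .n]) (.B 1 2 1 (.C 0 3 1 2 (.G 1 907 5 5 38 10 10 [.n,
  .n, .g 64 5 0 0, .n, .g 64 9 0 0, .n]) (.L 490)) (.G 1 173 5 2 16 4 1 [.n,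
  .n, .g 64 15 0 0, .n, .n, .n])))) (.G 173 6 2 2 8 4 1 [.n, .n, .n, .n, .g
  18 65 0 0, .g 5 21 0 0]))) (.B 0 1 2 (.G 173 6 2 8 4 4 1 [.g 64 3 0 0, .n,
  .n, .n, .g 15 32 0 0, .g 25 64 0 0]) (.C 2 3 1 4 (.L 173) (.C 1 3 1 4 (.L
  173) (.B 1 1 4 (.C 0 3 1 8 (.G 173 1086 1 1 1 1 1 [.n, .n, .n, .n, .n, .g
  11 67 0 0]) (.G 466 6 2 8388607 4194304 4194304 524288 [.n, .g 7 67 0 0,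
  .g 1 2283 0 0, .g 1 2445 0 0, .n, .n])) (.L 13)))))) (.C 1 3 12 1 (.G 173
  645 2 1 1 1 1 [.g 64 1 0 0, .n, .n, .n, .n, .n]) (.C 0 3 1 4 (.G 173 6 2
  446 223 446 892 [.g 29 64 0 0, .n, .n, .n, .n, .n]) (.B 0 1 2 (.G 173 6 2
  8 2 4 1 [.g 32 1 0 0, .n, .n, .n, .g 36 65 0 0, .g 25 64 0 0]) (.C 2 3 1 4
  (.L 276) (.C 1 3 1 2 (.L 645) (.B 1 1 4 (.G 466 6 2 8388607 4194304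
  8388607 1048576 [.n, .g 5 71 0 0, .g 2 4425 0 0, .g 2 4703 0 0, .n, .n])
  (.L 13)))))))) (.C 2 3 2 1 (.G 173 645 2 1 1 1 1 [.g 64 1 0 0, .n, .n, .n,
  .n, .n]) (.C 1 3 12 1 (.G 1357 645 2 1 1 1 1 [.g 64 1 0 0, .n, .n, .n, .n,
  .n]) (.B 0 1 2 (.G 173 6 2 4 2 2 1 [.g 16 1 0 0, .n, .n, .n, .g 4 21 0 0,
  .g 1 5 0 0]) (.C 0 3 1 4 (.L 276) (.C 1 3 1 2 (.L 645) (.G 315 6 2 8 4 2 1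
  [.n, .g 64 3 0 0, .n, .n, .g 11 63 0 0, .g 9 61 0 0]))))))))
  (by decide +kernel)

theorem EN3_c35 : CoN ENTab ⟨⟨7, 7, 16⟩, ⟨3, 4, 8⟩, ⟨1, 1, 2⟩, ⟨1, 0, 0, 0,
  0⟩, ⟨40, 4, 10, 0, 7⟩, ⟨412, 85, 103, 4, 90⟩, ⟨72, 12, 18, 0, 15⟩⟩ :=
CoN.ofG ENTab_B ENBt_E ENBt_U (.C 0 1 124 1 (.B 1 1 4 (.B 0 1 2 (.C 1 3 1 1
  (.C 1 2 6 1 (.C 1 2 12 1 (.P (.ofNat 4) (.ofNat 3)) (.B 0 2 1 (.L 13) (.B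
  0 1 2 (.L 13) (.C 1 2 1 2 (.C 1 3 1 12 (.L 42) (.L 13)) (.L 13))))) (.L
  13)) (.L 13)) (.C 1 2 6 1 (.C 1 3 1 1 (.B 1 2 1 (.B 0 1 4 (.L 385) (.L
  16)) (.C 1 2 12 1 (.P (.ofNat 4) (.ofNat 3)) (.B 1 1 2 (.L 42) (.B 1 1 4
  (.L 42) (.C 1 2 1 2 (.L 42) (.L 13)))))) (.B 1 2 1 (.B 0 1 4 (.B 2 1 1 (.L
  108) (.B 0 2 1 (.C 1 3 1 2 (.L 42) (.L 1)) (.L 108))) (.L 466)) (.B 1 1 2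
  (.B 0 1 1 (.L 13) (.L 108)) (.L 13)))) (.C 2 3 1 6 (.B 1 2 1 (.B 0 1 4 (.C
  1 2 1 2 (.B 0 2 1 (.C 0 1 2996 1 (.L 1) (.G 702 1 2 5117740 2558870
  5117740 2558870 [.n, .n, .g 1 715 0 0, .g 1 750 0 0, .n, .n, .n, .n, .n,
  .n])) (.L 108)) (.L 1)) (.C 2 3 2 1 (.C 0 1 2996 1 (.C 1 2 1 4 (.L 213)
  (.C 0 2 1508 1 (.B 1 4 1 (.B 0 1 8 (.L 1) (.L 12)) (.L 1)) (.G 544 6 2
  2097152 8388607 1048576 4194304 [.n, .n, .g 2 4363 0 0, .g 2 4573 0 0, .n,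
  .n, .n, .n]))) (.L 213)) (.L 213))) (.B 1 1 2 (.C 0 1 2996 1 (.L 1) (.G
  568 4 3 3641250 1820625 910312 1820625 [.n, .n, .g 1 465 0 0, .g 1 517 0
  0, .n, .n, .g 1 1458 0 0, .g 1 1533 0 0])) (.L 13))) (.B 1 2 1 (.B 0 1 4
  (.C 1 3 1 12 (.B 0 2 1 (.C 1 3 2 1 (.C 0 1 2996 1 (.L 1) (.G 702 4 3
  4194304 2097152 2097152 8388607 [.n, .n, .g 1 1265 0 0, .g 1 1330 0 0, .n,
  .n, .n, .n, .n, .n])) (.L 1)) (.L 108)) (.L 1)) (.L 213)) (.C 1 3 1 12 (.C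
  0 1 2996 1 (.L 1) (.G 702 1 2 8388607 4194304 4194304 8388607 [.n, .n, .g
  1 1074 0 0, .g 1 1130 0 0, .n, .n, .n, .n, .n, .n])) (.L 13)))))) (.C 1 2
  6 1 (.C 1 3 1 1 (.C 1 2 12 1 (.P (.ofNat 4) (.ofNat 3)) (.L 13)) (.L 13))
  (.L 13))) (.C 0 3 1 1 (.B 0 1 2 (.C 0 2 6 1 (.G 1597 173 0 264 132 3190
  536 [.n, .g 16 9 0 0, .g 64 29 0 0, .n]) (.C 1 2 12 1 (.G 173 1143 1 2978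
  123 2978 500 [.g 51 64 0 0, .n, .n, .n, .n, .n]) (.L 13))) (.C 0 2 6 1 (.L
  276) (.C 1 2 12 1 (.L 276) (.C 1 2 1 2 (.L 276) (.B 1 1 4 (.C 2 3 1 3 (.G
  466 13 3 4194304 8388607 2097152 4194304 [.n, .g 1 30 0 0, .g 2 4425 0 0,
  .g 2 4703 0 0, .n, .n]) (.G 4 276 5 17 34 17 3 [.n, .n, .n, .g 8 7 0 0,
  .n, .g 64 3 0 0])) (.L 13)))))) (.C 1 2 12 1 (.C 1 3 2 1 (.C 0 1 1 4 (.B 0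
  1 2 (.G 173 13 3 3 6 19 3 [.g 2 1 0 0, .n, .n, .n, .n, .n]) (.L 276)) (.L
  1357)) (.B 0 1 2 (.L 13) (.C 1 3 1 2 (.L 276) (.C 2 3 1 12 (.L 276) (.P
  (.ofNat 4) (.ofNat 3)))))) (.B 0 1 2 (.L 13) (.B 1 1 4 (.C 1 2 1 2 (.G
  2620 6 2 702711 4172344 8388607 351355 [.n, .n, .g 1 1884 0 0, .g 1 2024 0
  0, .n, .n, .n, .n, .g 2 1299 0 0, .g 1 698 0 0]) (.B 1 2 1 (.B 0 1 4 (.G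
  341 4 3 702711 8388607 2108132 351355 [.n, .g 1 31 0 0, .g 1 1972 0 0, .g
  2 4141 0 0, .n, .n]) (.L 213)) (.G 173 6 2 16 191 48 8 [.n, .n, .n, .n, .g
  1 190 0 0, .g 1 167 0 0]))) (.L 13)))))) (by decide +kernel)

theorem EN3_c36 : CoN ENTab ⟨⟨7, 7, 16⟩, ⟨13, 15, 32⟩, ⟨7, 8, 16⟩, ⟨1, 0, 0,
  0, 0⟩, ⟨72, 12, 18, 0, 15⟩, ⟨412, 85, 103, 4, 90⟩, ⟨4, 1, 1, 0, 1⟩⟩ :=
CoN.ofG ENTab_B ENBt_E ENBt_U (.C 1 3 1 16 (.C 1 3 2 1 (.L 13) (.B 0 2 1 (.B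
  2 1 1 (.C 2 3 1 3 (.L 155) (.B 2 2 1 (.B 1 1 4 (.L 155) (.C 1 3 1 2 (.L
  155) (.B 2 4 1 (.L 1097) (.L 1080)))) (.L 155))) (.C 0 2 1508 1 (.L 1950)
  (.B 0 4 1 (.B 2 1 2 (.L 1950) (.G 1029 1284 0 384 129 190 65 [.n, .g 9 1 0
  987, .n, .n, .n, .n, .n, .n])) (.L 3361)))) (.C 2 3 1 3 (.L 13) (.B 0 1 2
  (.B 2 4 1 (.C 1 3 1 2 (.L 155) (.L 1097)) (.L 155)) (.C 1 2 3 1 (.C 1 3 1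
  2 (.B 0 1 4 (.L 262) (.C 1 3 2 1 (.L 262) (.L 158))) (.L 69)) (.L 69))))))
  (.B 0 2 1 (.C 2 3 1 94 (.B 2 1 1 (.B 2 2 1 (.B 1 1 4 (.L 107) (.L 123))
  (.L 82)) (.C 0 2 1508 1 (.L 2888) (.G 978 314 0 8388607 1412818 4150153
  8388607 [.n, .n, .n, .n, .g 5 278 0 3, .g 2 116 0 1]))) (.B 2 1 1 (.C 1 3
  1 32 (.L 482) (.L 27)) (.L 269))) (.C 2 3 1 94 (.B 0 1 2 (.B 2 4 1 (.L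
  123) (.L 107)) (.L 123)) (.C 1 2 6 1 (.L 82) (.L 27)))))
  (by decide +kernel)

theorem EN3_c37 : CoN ENTab ⟨⟨27, 31, 64⟩, ⟨3, 4, 8⟩, ⟨7, 8, 16⟩, ⟨1, 0, 0,
  0, 0⟩, ⟨72, 12, 18, 0, 15⟩, ⟨412, 85, 103, 4, 90⟩, ⟨4, 1, 1, 0, 1⟩⟩ :=
CoN.ofG ENTab_B ENBt_E ENBt_U (.B 0 1 8 (.B 2 4 1 (.C 1 3 1 16 (.C 1 3 2 1
  (.L 13) (.C 0 2 1508 1 (.C 0 1 1012 1 (.B 1 1 8 (.B 2 1 2 (.L 1) (.B 0 1 1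
  (.B 0 2 1 (.C 1 2 3 2 (.C 1 2 6 1 (.C 1 2 12 1 (.C 1 2 24 1 (.P (.ofNat 6)
  (.ofNat 5)) (.L 158)) (.L 158)) (.L 158)) (.L 69)) (.L 1)) (.L 1))) (.C 1
  2 3 2 (.C 1 2 6 1 (.C 1 3 1 4 (.C 1 2 12 1 (.C 1 2 24 1 (.P (.ofNat 5)
  (.ofNat 4)) (.L 405)) (.L 405)) (.L 405)) (.L 405)) (.B 1 1 16 (.B 0 2 1
  (.L 69) (.L 1)) (.L 69)))) (.G 736 4 5 64 32 95 16 [.n, .n, .n, .n, .n,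
  .n, .g 1 4739 0 0, .g 1 5729 0 0])) (.G 4 506 3 95 32 47 16 [.n, .n, .n,
  .n, .n, .g 16384 3 0 0]))) (.B 1 1 8 (.B 2 1 2 (.L 1) (.B 0 1 1 (.B 0 2 1
  (.C 0 2 1508 1 (.C 1 3 1 32 (.L 69) (.C 2 3 1 189 (.C 0 3 6040 1 (.L 265)
  (.G 301 1626 1 189 16 47 95 [.n, .n, .n, .g 7 31 0 0, .n, .n])) (.L 31)))
  (.G 1 506 3 754 127 377 4 [.n, .n, .n, .n, .n, .g 65536 1 0 0])) (.L 1))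
  (.L 1))) (.C 0 2 1508 1 (.C 0 1 508 1 (.C 0 3 16 1 (.C 0 2 3016 1 (.C 0 1
  1016 1 (.C 0 3 32 1 (.C 1 3 1 32 (.L 123) (.C 2 3 1 94 (.C 1 3 3 1 (.L
  123) (.B 1 1 16 (.B 0 2 1 (.L 27) (.L 1)) (.L 27))) (.B 1 1 16 (.B 0 2 1
  (.L 31) (.L 1)) (.L 31)))) (.L 51)) (.L 51)) (.L 51)) (.G 506 1 5 4 127
  377 2 [.n, .n, .n, .g 1 19637 0 0, .n, .n])) (.G 506 1 5 254 127 754 4
  [.n, .n, .n, .g 1 39274 0 0, .n, .n])) (.G 4 506 3 754 127 377 4 [.n, .n,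
  .n, .n, .n, .g 65536 1 0 0])))) (.C 1 3 1 16 (.C 1 3 2 1 (.L 13) (.C 0 1
  1012 1 (.C 0 2 1508 1 (.C 0 3 508 1 (.C 0 1 2024 1 (.C 0 3 1016 1 (.C 0 2
  3016 1 (.C 0 1 4048 1 (.C 0 2 6032 1 (.C 0 3 2032 1 (.B 1 1 1 (.L 1) (.C 1
  2 3 2 (.L 405) (.L 1460))) (.L 51)) (.L 51)) (.L 51)) (.L 51)) (.L 51))
  (.L 51)) (.G 1936 1 5 32 64 95 16 [.n, .n, .g 1 20678 0 0, .g 1 10523 0 0,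
  .n, .n])) (.G 1936 4 5 95 64 47 16 [.n, .n, .g 1 20678 0 0, .g 1 10523 0
  0, .n, .n])) (.G 1936 4 5 64 32 47 16 [.n, .n, .g 1 9907 0 0, .g 1 10021 0
  0, .n, .n]))) (.B 2 1 2 (.C 0 1 508 1 (.C 0 2 1508 1 (.C 0 3 16 1 (.C 0 1
  1016 1 (.C 0 3 32 1 (.C 0 2 3016 1 (.C 0 3 64 1 (.C 0 1 2032 1 (.C 0 2
  6032 1 (.C 0 3 128 1 (.B 1 1 1 (.C 0 1 4064 1 (.B 0 1 2 (.C 0 2 12064 1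
  (.C 1 3 1 32 (.L 123) (.B 0 2 1 (.B 2 1 1 (.L 1) (.C 2 3 1 94 (.L 27) (.L
  31))) (.L 1))) (.L 48)) (.L 1)) (.L 48)) (.C 1 3 1 16 (.L 144) (.C 2 3 1
  47 (.L 123) (.C 1 3 1 32 (.L 123) (.C 0 2 24096 1 (.C 2 3 1 188 (.B 1 1 2
  (.C 0 1 16352 1 (.B 0 1 1 (.L 265) (.L 1)) (.L 373)) (.L 265)) (.L 330))
  (.B 1 1 2 (.L 1311) (.G 27 11 0 2943838 998872 1471919 15638 [.n, .n, .n,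
  .n, .g 1 62 0 0, .g 1 67 0 0]))))))) (.B 1 1 1 (.L 48) (.C 0 3 1 2 (.C 0 1
  16 1 (.G 98 314 0 8 255 377 16 [.n, .n, .n, .n, .g 1 45 0 0, .g 1 49 0 0,
  .n, .n]) (.L 48)) (.L 48)))) (.L 48)) (.L 48)) (.L 48)) (.L 51)) (.L 51))
  (.L 51)) (.G 1936 1 5 4 127 377 2 [.n, .n, .g 1 48161 0 0, .g 1 41758 0 0,
  .n, .n])) (.G 736 4 5 754 254 377 4 [.n, .n, .n, .n, .n, .n, .g 1 35311 0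
  0, .g 1 44195 0 0])) (.G 1936 4 5 254 127 377 4 [.n, .n, .g 1 65358 0 0,
  .g 1 56216 0 0, .n, .n])) (.C 0 1 508 1 (.C 0 1 1016 1 (.C 0 3 16 1 (.C 0
  2 1508 1 (.C 0 3 32 1 (.C 0 2 3016 1 (.C 0 3 64 1 (.C 0 1 2032 1 (.C 0 3
  128 1 (.C 0 1 4064 1 (.C 0 2 6032 1 (.C 0 2 12064 1 (.B 1 2 1 (.C 0 3 256
  1 (.C 0 3 512 1 (.B 0 2 1 (.C 0 3 1024 1 (.C 0 1 8128 1 (.C 0 3 2048 1 (.B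
  0 4 1 (.B 2 1 8 (.L 1874) (.C 0 3 4096 1 (.C 1 3 1 2 (.L 69) (.C 1 3 1 4
  (.L 69) (.C 1 3 1 8 (.L 1246) (.C 2 3 1 3 (.L 1246) (.B 0 8 1 (.C 1 3 1 16
  (.L 1246) (.C 2 3 1 6 (.L 107) (.C 2 3 1 12 (.L 107) (.C 1 3 1 32 (.L 107)
  (.C 2 3 1 24 (.L 107) (.B 2 1 16 (.L 867) (.L 11))))))) (.L 867)))))) (.L
  867))) (.L 285)) (.L 373)) (.L 1196)) (.L 1196)) (.L 868)) (.L 176)) (.L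
  48)) (.C 1 3 1 32 (.L 123) (.C 0 3 256 1 (.C 2 3 1 47 (.L 123) (.C 2 3 1
  94 (.C 1 3 6 1 (.L 123) (.B 0 8 1 (.L 27) (.B 1 1 2 (.L 1) (.L 27)))) (.B
  0 8 1 (.L 31) (.B 1 1 2 (.L 1) (.L 31))))) (.G 1958 314 0 8 255 377 4 [.n,
  .n, .n, .n, .g 2 85 0 0, .g 1 44 0 0, .n, .n, .n, .n])))) (.L 48)) (.L
  48)) (.L 48)) (.L 48)) (.L 48)) (.L 48)) (.L 51)) (.L 51)) (.G 59 4 5 754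
  508 377 8 [.n, .n, .g 1 358502 0 0, .g 1 385039 0 0, .n, .n])) (.G 1936 4
  5 8 508 377 4 [.n, .n, .g 1 102488 0 0, .g 1 82951 0 0, .n, .n])) (.G 1936
  4 5 508 254 377 4 [.n, .n, .g 1 102488 0 0, .g 1 82951 0 0, .n, .n])) (.G
  1936 4 5 254 127 377 4 [.n, .n, .g 1 58258 0 0, .g 1 49472 0 0, .n,
  .n]))))) (.B 0 1 16 (.B 2 8 1 (.B 1 1 16 (.B 1 2 1 (.C 1 3 1 16 (.C 1 2 6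
  1 (.B 0 1 1 (.L 1) (.C 1 3 2 1 (.C 1 3 4 1 (.L 12) (.L 1)) (.L 1))) (.L
  1)) (.L 1)) (.L 1)) (.B 2 16 1 (.B 1 1 32 (.L 1) (.C 0 1 252 1 (.C 0 1 504
  1 (.C 0 2 1508 1 (.C 0 3 16 1 (.C 0 2 3016 1 (.C 0 3 32 1 (.C 1 3 1 16 (.C
  0 2 6032 1 (.C 1 2 12 1 (.C 0 1 1008 1 (.C 0 3 2032 1 (.C 1 3 2 1 (.L 13)
  (.C 2 3 1 6 (.L 13) (.C 1 3 1 2 (.C 1 2 6 1 (.P (.ofNat 7) (.ofNat 6)) (.L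
  158)) (.L 405)))) (.G 3600 4 5 2 1 12 1 [.n, .n, .n, .n, .g 1 71 0 0, .g 1
  76 0 0])) (.G 2320 4 5 32 16 383 32 [.n, .n, .n, .n, .g 1 31789 0 0, .g 1
  33948 0 0, .n, .n])) (.C 1 2 1 2 (.C 1 3 1 12 (.B 1 1 64 (.L 158) (.B 2 32
  1 (.L 834) (.L 1))) (.L 405)) (.L 69))) (.G 176 4 5 191 16 96 32 [.n, .n,
  .n, .n, .g 1 11033 0 0, .g 1 12064 0 0, .n, .n, .n, .n])) (.C 0 1 2032 1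
  (.C 0 3 64 1 (.C 1 3 1 32 (.L 69) (.B 1 1 64 (.L 1) (.C 2 3 1 47 (.L 107)
  (.C 2 3 1 94 (.L 27) (.L 31))))) (.G 712 2744 2 1 1 1 1 [.n, .n, .n, .n,
  .g 3 7 0 0, .g 25 63 0 0, .n, .n])) (.C 0 1 1 2 (.G 5600 1 5 254 508 377 4
  [.n, .n, .n, .n, .g 1 171352 0 0, .g 1 175377 0 0, .n, .n]) (.L 51)))) (.L
  51)) (.L 51)) (.G 301 4 5 4 126 377 2 [.n, .n, .n, .g 1 40678 0 0, .n,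
  .n])) (.G 4 506 3 754 252 377 4 [.n, .n, .n, .n, .n, .g 65536 1 0 0])) (.G
  506 6 5 252 126 377 4 [.n, .n, .n, .g 1 6071 0 0, .n, .n])) (.G 506 6 5
  126 63 377 4 [.n, .n, .n, .g 1 7144 0 0, .n, .n]))) (.L 1))) (.C 1 3 1 16
  (.C 1 3 2 1 (.B 1 1 1 (.C 1 2 6 1 (.C 1 3 4 1 (.L 12) (.L 1)) (.L 1)) (.L
  13)) (.L 1)) (.L 1))) (.C 0 2 1508 1 (.B 0 1 32 (.C 0 1 252 1 (.C 0 3 16 1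
  (.C 0 3 32 1 (.C 0 1 504 1 (.C 0 2 3016 1 (.C 0 1 1008 1 (.C 0 3 64 1 (.C
  0 2 6032 1 (.B 1 1 32 (.B 1 2 1 (.L 897) (.C 0 2 12064 1 (.C 0 3 128 1 (.C
  0 1 2016 1 (.B 2 1 4 (.B 1 1 2 (.C 0 2 24128 1 (.C 0 3 256 1 (.C 0 1 4032
  1 (.B 1 2 1 (.L 2045) (.L 1)) (.L 897)) (.L 897)) (.L 897)) (.L 1)) (.L
  897)) (.L 897)) (.L 897)) (.L 897))) (.B 2 16 1 (.B 1 1 64 (.L 1) (.B 2 32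
  1 (.B 1 1 128 (.L 1) (.B 2 64 1 (.C 1 3 1 16 (.C 1 2 6 1 (.C 0 3 4064 1
  (.C 1 3 4 1 (.L 13) (.C 1 3 1 2 (.L 262) (.L 158))) (.G 405 4 5 624045
  153611 1843332 307222 [.n, .n, .g 1 90217 0 0, .g 1 95147 0 0, .n, .n]))
  (.L 69)) (.C 2 3 1 94 (.L 123) (.C 1 3 1 32 (.L 123) (.L 31)))) (.L 1)))
  (.L 1))) (.B 2 1 2 (.L 1) (.B 0 4 1 (.L 897) (.L 1))))) (.B 1 1 32 (.L
  128) (.B 2 16 1 (.G 1863 13 5 754 126 377 8 [.n, .n, .g 1 1658 0 0, .g 1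
  1999 0 0, .n, .n]) (.L 128)))) (.B 1 1 32 (.L 128) (.B 2 16 1 (.G 4 301 3
  8 126 377 4 [.n, .n, .n, .n, .n, .g 65536 3 0 0]) (.L 128)))) (.B 2 16 1
  (.B 1 1 32 (.L 128) (.G 285 1 5 126 63 377 4 [.n, .n, .n, .n, .g 1 34252 0
  0, .g 1 35744 0 0])) (.L 128))) (.C 1 2 3 1 (.L 98) (.G 4 1679 0 754 755
  377 8 [.n, .n, .n, .n, .n, .g 512 1 0 0]))) (.B 1 1 32 (.G 632 4 3 126 63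
  377 8 [.n, .g 1 57 0 0, .n, .n, .g 1 2513 0 0, .g 1 2653 0 0]) (.L 98)))
  (.C 0 1 8 1 (.G 4 301 3 8 127 377 4 [.n, .n, .n, .n, .n, .g 8192 1 0 0])
  (.G 632 51 0 1 1 1 1 [.n, .g 9 67 0 0, .n, .n, .g 1 124 0 0, .g 1 122 0
  0]))) (.C 1 3 1 32 (.G 337 506 3 1 1 1 1 [.n, .n, .n, .n, .n, .n, .g 9 68
  0 0, .g 4 33 0 0, .n, .n]) (.G 4 301 3 4 127 377 2 [.n, .n, .n, .n, .n, .g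
  8192 1 0 0]))) (.C 2 3 1 189 (.C 1 3 24 1 (.B 1 1 32 (.G 213 4 3 349981
  174990 2088949 8388607 [.n, .n, .g 1 1483 0 0, .g 1 1580 0 0, .n, .n, .n,
  .n]) (.B 2 16 1 (.G 4 13 5 232 116 1384 5557 [.n, .n, .n, .n, .n, .g 64 33
  0 0]) (.G 213 4 3 349981 174990 2088949 8388607 [.n, .n, .g 1 1534 0 0, .g
  1 1632 0 0, .n, .n, .n, .n]))) (.C 0 3 12 1 (.C 0 2 6 1 (.C 0 2 12 1 (.C 0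
  3 24 1 (.C 0 1 24 1 (.G 26 6 2 174763 8388607 4194304 8388607 [.n, .g 5 68
  0 0, .g 1 1647 0 0, .g 1 1787 0 0, .n, .n, .n, .n]) (.G 780 4 3 2 1 1 2
  [.n, .g 64 1 0 0, .n, .n, .g 46 65 0 0, .g 41 64 0 0])) (.G 1682 4 3 2 1 1
  1 [.n, .g 32 1 0 0, .n, .n, .g 5 16 0 0, .g 19 64 0 0, .n, .n, .n, .n]))
  (.G 1682 4 3 2 2 1 2 [.n, .g 64 3 0 0, .n, .n, .g 2 11 0 0, .g 1 6 0 0,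
  .n, .n, .n, .n])) (.L 1)) (.L 1))) (.C 0 3 1 32 (.C 0 2 12 1 (.C 0 3 2 1
  (.C 1 2 48 1 (.P (.ofNat 5) (.ofNat 4)) (.C 0 2 24 1 (.P (.ofNat 7)
  (.ofNat 6)) (.L 506))) (.C 1 3 4 1 (.C 1 2 48 1 (.P (.ofNat 5) (.ofNat 4))
  (.L 506)) (.L 506))) (.C 1 2 24 1 (.C 0 1 1 48 (.L 506) (.C 1 3 4 1 (.C 1
  2 48 1 (.P (.ofNat 5) (.ofNat 4)) (.L 506)) (.L 506))) (.L 506))) (.C 1 3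
  1 16 (.C 1 2 24 1 (.C 0 1 1 4 (.L 506) (.C 1 2 48 1 (.P (.ofNat 6) (.ofNat
  5)) (.L 506))) (.L 506)) (.L 506))))) (.B 2 32 1 (.C 0 1 252 1 (.C 1 3 1
  32 (.B 1 2 1 (.C 1 3 2 1 (.C 1 3 4 1 (.C 1 2 6 1 (.C 1 3 8 1 (.L 12) (.B 1
  4 1 (.B 0 1 128 (.L 1) (.L 1426)) (.L 1))) (.L 1)) (.L 1)) (.L 1)) (.B 1 1
  2 (.L 1) (.B 1 1 4 (.L 1) (.B 1 1 8 (.L 1) (.B 2 64 1 (.C 1 3 2 1 (.C 0 3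
  2024 1 (.C 0 1 504 1 (.C 0 2 3016 1 (.C 0 3 4048 1 (.C 1 3 8 1 (.L 13) (.C
  1 2 2 5 (.C 1 3 1 2 (.L 13) (.L 405)) (.L 1460))) (.L 48)) (.L 51)) (.L
  51)) (.L 59)) (.L 1460)) (.L 1)))))) (.B 1 2 1 (.L 1) (.B 1 1 2 (.L 1) (.B
  1 1 4 (.L 1) (.B 2 64 1 (.B 2 128 1 (.C 0 3 16 1 (.C 2 3 1 94 (.L 27) (.C
  2 3 1 188 (.C 0 3 12040 1 (.L 265) (.L 506)) (.L 11))) (.G 6624 4 5 4 127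
  377 2 [.n, .n, .n, .g 1 26529 0 0, .n, .n])) (.L 1)) (.L 1)))))) (.B 1 2 1
  (.C 0 3 1 32 (.B 1 4 1 (.G 213 4 3 842785 421393 5030374 1711907 [.g 2 29
  0 0, .n, .g 2 5335 0 0, .g 1 2809 0 0, .n, .n, .n, .n]) (.G 315 4 3 32 16
  191 65 [.n, .n, .n, .n, .g 1 853 0 0, .g 1 1273 0 0])) (.G 198 4 3 254 63
  754 4 [.n, .n, .n, .n, .g 1 85 0 0, .g 1 355 0 0])) (.G 506 6 5 126 63 754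
  4 [.n, .n, .n, .g 1 6118 0 0, .n, .n]))) (.B 1 128 1 (.L 198) (.C 1 3 1 16
  (.C 1 3 2 1 (.C 1 3 4 1 (.C 1 2 12 1 (.L 177) (.L 1)) (.L 1)) (.L 1)) (.L
  1))))) (.C 2 3 1 94 (.B 1 2 1 (.G 4 198 5 191 16 96 191 [.n, .n, .n, .g
  128 1 0 0, .g 256 1 0 0, .n]) (.C 0 1 1 12 (.L 1) (.C 1 2 6 1 (.C 1 3 12 1
  (.G 12 6 2 8388607 350438 4205255 8388607 [.n, .g 1 48 0 0, .g 1 3038 0 0,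
  .g 1 3154 0 0, .n, .n]) (.L 1)) (.L 1)))) (.C 0 3 1 189 (.C 1 3 24 1 (.C 1
  2 12 1 (.C 0 1 1 12 (.G 198 4 3 3 6 6 12 [.n, .n, .n, .n, .g 8 21 0 0, .g
  21 64 0 0]) (.C 1 2 24 1 (.C 1 3 48 1 (.G 12 6 2 2093053 87438 4191571
  8388607 [.n, .g 1 41 0 0, .g 2 5367 0 0, .g 1 2794 0 0, .n, .n]) (.C 0 3 2
  1 (.G 466 13 3 2097152 8388607 4194304 8388607 [.n, .n, .g 1 2639 0 0, .g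
  1 2783 0 0, .n, .n]) (.L 506))) (.G 466 4 3 4194304 8388607 4194304
  8388607 [.n, .n, .g 1 2626 0 0, .g 1 2764 0 0, .n, .n]))) (.L 1)) (.L 1))
  (.C 0 1 1 24 (.L 506) (.C 1 3 1 16 (.C 1 2 12 1 (.C 1 2 24 1 (.C 0 1 1 48
  (.L 506) (.P (.ofNat 6) (.ofNat 5))) (.L 506)) (.L 506)) (.L 506))))))))
  (by decide +kernel)

theorem EN3_c38 : CoN ENTab ⟨⟨13, 15, 32⟩, ⟨3, 4, 8⟩, ⟨27, 31, 64⟩, ⟨1, 0,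
  0, 0, 0⟩, ⟨72, 12, 18, 0, 15⟩, ⟨412, 85, 103, 4, 90⟩, ⟨4, 1, 1, 0, 1⟩⟩ :=
CoN.ofG ENTab_B ENBt_E ENBt_U (.B 0 1 4 (.C 0 1 252 1 (.C 0 3 16 1 (.C 0 2
  1508 1 (.C 0 3 32 1 (.C 0 1 504 1 (.C 0 2 3016 1 (.C 0 3 64 1 (.C 0 1 1008
  1 (.C 0 2 6032 1 (.B 1 1 1 (.L 48) (.B 2 1 2 (.C 0 3 128 1 (.C 0 1 2016 1
  (.C 0 2 12064 1 (.B 2 2 1 (.B 1 1 2 (.L 48) (.C 0 3 256 1 (.C 0 2 24128 1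
  (.C 0 1 4032 1 (.B 2 4 1 (.B 1 1 4 (.L 473) (.C 0 3 512 1 (.C 0 2 48256 1
  (.C 0 1 8064 1 (.B 2 8 1 (.B 1 1 8 (.L 1840) (.B 2 16 1 (.B 1 1 16 (.L
  1840) (.B 2 32 1 (.C 0 1 16128 1 (.C 0 1 32256 1 (.C 0 1 64512 1 (.C 1 3 1
  126 (.C 1 3 2 1 (.C 1 3 4 1 (.L 1) (.L 1246)) (.L 107)) (.L 27)) (.L
  1840)) (.L 1840)) (.L 4576)) (.L 1840))) (.L 1840))) (.L 1840)) (.L 473))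
  (.L 473)) (.L 473))) (.L 473)) (.L 48)) (.L 48)) (.L 48))) (.L 48)) (.L
  51)) (.L 51)) (.L 51)) (.L 51))) (.L 48)) (.L 48)) (.L 48)) (.L 51)) (.L
  51)) (.L 51)) (.G 478 4 5 754 126 377 8 [.n, .n, .g 1 217249 0 0, .g 1
  234087 0 0, .n, .n, .g 1 338069 0 0, .g 1 362477 0 0])) (.C 1 3 1 32 (.C 1
  2 3 1 (.C 1 3 2 1 (.G 573 4 5 8 126 755 506 [.g 1 537 0 0, .n, .n, .n, .g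
  1 14728 0 0, .g 1 14667 0 0]) (.C 0 2 94 1 (.G 574 562 2 1 1 1 1 [.n, .n,
  .n, .n, .n, .n, .n, .n, .n, .g 8 5 0 0]) (.G 574 4 5 95 32 48 16 [.n, .n,
  .n, .n, .n, .n, .g 1 833 0 0, .g 1 1009 0 0, .n, .n]))) (.G 562 4 5 8 755
  377 254 [.n, .n, .g 1 84441 0 0, .g 1 66996 0 0, .n, .n])) (.G 4 143 0
  8980 285102 423163 4490 [.n, .n, .n, .n, .n, .g 512 1 0 0]))) (.C 0 3 1 32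
  (.C 1 3 4 1 (.B 1 1 1 (.L 1) (.G 405 6 5 1289226 644613 3867677 5197191
  [.n, .n, .g 1 7271 0 0, .g 1 7743 0 0, .g 1 5283 0 0, .g 1 5908 0 0])) (.C
  0 2 3 1 (.C 0 3 2 1 (.G 405 4 5 1257150 5028598 7542898 5028598 [.n, .n,
  .g 1 43594 0 0, .g 1 46276 0 0, .g 1 3715 0 0, .g 1 3951 0 0]) (.G 1460 4
  5 5592405 5592405 8388607 2796202 [.g 1 616 0 0, .n, .n, .n, .g 1 28666 0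
  0, .g 1 29517 0 0, .n, .n])) (.G 1460 4 5 8388607 5592405 4194304 2796202
  [.g 1 616 0 0, .n, .n, .n, .g 1 28666 0 0, .g 1 29517 0 0, .n, .n]))) (.C
  1 3 1 16 (.C 0 1 1 4 (.G 1460 4 5 4194304 8388607 6160383 2097152 [.g 2
  1233 0 0, .n, .n, .n, .g 1 39508 0 0, .g 1 40657 0 0, .n, .n]) (.C 0 2 3 4
  (.C 1 2 48 1 (.C 1 3 2 1 (.C 0 1 1 8 (.G 834 4 5 700876 1401752 8388607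
  350438 [.n, .n, .g 1 5019 0 0, .g 1 5318 0 0, .n, .n]) (.L 13)) (.G 1936 4
  5 32 16 381 8 [.g 1 1019 0 0, .n, .g 1 7939 0 0, .g 1 8145 0 0, .n, .n]))
  (.G 1570 4 5 704555 8388607 4194303 176139 [.n, .n, .n, .n, .g 1 20062 0
  0, .g 1 20874 0 0, .n, .n])) (.G 1 715 2 769 16 96 32 [.n, .n, .n, .n, .n,
  .g 1024 1 0 0]))) (.G 301 4 5 254 127 377 4 [.n, .n, .g 1 3879 0 0, .g 1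
  16272 0 0, .n, .n])))) (.C 0 1 252 1 (.B 1 8 1 (.C 0 2 1508 1 (.C 0 2 3016
  1 (.B 0 1 8 (.C 1 3 1 32 (.G 98 4 3 1 504 6032 1016 [.n, .n, .g 1 3493 0
  0, .g 1 3773 0 0, .n, .n, .g 1 14287 0 0, .g 1 16003 0 0]) (.L 1)) (.B 1
  16 1 (.L 641) (.C 1 2 12 1 (.C 1 3 1 32 (.G 98 4 3 1 504 12080 1016 [.n,
  .n, .g 1 6592 0 0, .g 1 7463 0 0, .n, .n, .g 1 15590 0 0, .g 1 18361 0 0])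
  (.L 1)) (.L 1)))) (.G 632 4 3 754 63 377 2 [.n, .g 3 65 0 0, .n, .n, .g 1
  1174 0 0, .g 2 4323 0 0])) (.C 1 2 3 1 (.G 1177 4 3 754 126 755 4 [.n, .n,
  .n, .n, .g 1 2921 0 0, .g 1 3309 0 0]) (.G 187 4 4 754 755 377 4 [.n, .n,
  .n, .n, .g 2 325 0 0, .g 1 331 0 0, .n, .n]))) (.B 1 1 2 (.L 1) (.B 1 1 4
  (.L 1) (.B 2 1 1 (.B 2 2 1 (.C 0 1 504 1 (.C 0 1 1008 1 (.C 0 3 16 1 (.C 1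
  2 3 4 (.C 0 3 32 1 (.C 0 2 12080 1 (.C 0 2 24160 1 (.C 0 3 64 1 (.C 0 1
  2016 1 (.C 0 3 128 1 (.C 0 2 48320 1 (.C 0 3 256 1 (.C 0 2 96640 1 (.C 0 1
  4032 1 (.C 0 3 512 1 (.C 0 1 8064 1 (.C 0 3 1024 1 (.C 0 3 2048 1 (.C 0 3
  4096 1 (.C 0 1 16128 1 (.C 0 1 32256 1 (.C 0 1 64512 1 (.C 1 3 1 16 (.L 1)
  (.C 1 3 1 32 (.L 69) (.C 2 3 1 24 (.L 69) (.C 2 3 1 48 (.L 69) (.C 1 3 1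
  64 (.L 27) (.C 2 3 1 96 (.L 27) (.C 2 3 1 192 (.L 27) (.C 0 2 3142400 1
  (.C 2 3 1 767 (.L 27) (.L 31)) (.L 867))))))))) (.L 867)) (.L 867)) (.L
  867)) (.L 867)) (.L 867)) (.L 1196)) (.L 473)) (.L 473)) (.L 48)) (.L 48))
  (.L 48)) (.L 51)) (.L 51)) (.L 51)) (.L 51)) (.L 51)) (.L 51)) (.L 51))
  (.B 2 4 1 (.B 1 1 8 (.G 906 1 5 1 12080 1508 32 [.n, .g 1 2638 0 0, .g 1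
  2516696 0 0, .g 1 2595403 0 0, .n, .n, .n, .n]) (.C 2 3 1 47 (.C 0 2 1508
  1 (.L 69) (.L 1)) (.C 2 3 1 94 (.L 123) (.C 1 3 1 378 (.L 123) (.L 11)))))
  (.G 111 4 5 1 12080 1508 32 [.n, .n, .g 1 1217760 0 0, .g 1 1294127 0 0,
  .n, .n]))) (.G 1936 4 5 8 504 377 4 [.n, .n, .g 1 241362 0 0, .g 1 211280
  0 0, .n, .n])) (.G 1936 1 5 504 252 377 4 [.n, .n, .g 1 241362 0 0, .g 1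
  211280 0 0, .n, .n])) (.G 1936 1 5 252 126 377 4 [.n, .n, .g 1 296491 0 0,
  .g 1 256876 0 0, .n, .n])) (.L 1)) (.L 1))))) (.B 1 8 1 (.B 0 1 8 (.B 0 2
  1 (.L 1) (.G 891 4 3 126 63 377 4 [.n, .g 1 19 0 137, .n, .n, .g 1 1660 0
  0, .g 1 1683 0 0, .n, .n])) (.B 1 16 1 (.L 198) (.C 0 3 1 32 (.G 12 4 3
  2796202 1398101 8388607 5679786 [.n, .n, .g 1 2551 0 0, .g 2 5305 0 0, .n,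
  .n]) (.G 315 4 3 254 63 377 4 [.n, .n, .n, .n, .g 1 1308 0 0, .g 2 4951 0
  0])))) (.B 2 1 1 (.B 2 2 1 (.B 1 1 2 (.L 1) (.B 1 1 4 (.L 1) (.C 1 3 1 16
  (.G 405 13 5 2043395 1021697 6130184 2043395 [.n, .n, .g 1 6118 0 0, .g 1
  6475 0 0, .g 1 2499 0 0, .g 1 2810 0 0]) (.G 736 4 5 126 127 377 4 [.n,
  .n, .n, .n, .n, .n, .g 1 217270 0 0, .g 1 221406 0 0])))) (.L 1)) (.L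
  1))))) (by decide +kernel)

theorem EN3_c39 : CoN ENTab ⟨⟨7, 7, 16⟩, ⟨7, 8, 16⟩, ⟨1, 1, 2⟩, ⟨1, 0, 0, 0,
  0⟩, ⟨72, 12, 18, 0, 15⟩, ⟨412, 85, 103, 4, 90⟩, ⟨4, 1, 1, 0, 1⟩⟩ :=
CoN.ofG ENTab_B ENBt_E ENBt_U (.B 0 1 1 (.C 1 3 1 16 (.C 1 3 2 1 (.L 13) (.C
  2 3 1 3 (.L 13) (.L 1284))) (.C 2 3 1 94 (.C 1 2 3 1 (.L 1284) (.L 1826))
  (.L 269))) (.C 1 3 1 16 (.C 1 3 2 1 (.L 13) (.C 2 3 1 3 (.L 13) (.B 1 1 8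
  (.B 0 1 2 (.L 155) (.B 1 2 1 (.B 1 4 1 (.C 1 3 1 2 (.L 155) (.C 1 2 3 2
  (.B 0 1 4 (.L 1080) (.L 158)) (.L 1246))) (.L 155)) (.L 155))) (.L
  1284)))) (.C 2 3 1 94 (.B 1 1 8 (.B 1 2 1 (.B 0 1 2 (.L 82) (.L 123)) (.C
  1 3 6 1 (.L 1488) (.L 107))) (.B 2 16 1 (.L 53) (.B 2 1 2 (.L 53) (.L
  978)))) (.B 1 1 8 (.C 1 3 1 32 (.L 482) (.L 27)) (.L 269)))))
  (by decide +kernel)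

theorem EN3_c40 : CoN ENTab ⟨⟨7, 7, 16⟩, ⟨13, 15, 32⟩, ⟨1, 1, 2⟩, ⟨1, 0, 0,
  0, 0⟩, ⟨224, 38, 56, 4, 43⟩, ⟨52, 13, 13, 2, 11⟩, ⟨100, 25, 25, 2, 23⟩⟩ :=
CoN.ofG ENTab_B ENBt_E ENBt_U (.C 0 2 192 1 (.C 0 3 384 1 (.C 1 3 1 1 (.C 2
  3 4 1 (.L 1481) (.C 1 3 2 1 (.L 1481) (.C 2 3 1 2 (.L 502) (.B 0 2 1 (.L
  93) (.B 1 1 16 (.C 1 3 1 2 (.L 298) (.L 29)) (.L 93)))))) (.B 1 1 16 (.C 0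
  1 1524 1 (.C 0 3 768 1 (.C 0 2 384 1 (.C 0 1 3048 1 (.C 1 3 1 4 (.B 0 2 1
  (.C 1 2 1 8 (.B 2 1 4 (.C 1 3 2 1 (.C 1 2 2 1 (.L 112) (.L 368)) (.L 368))
  (.C 0 1 6096 1 (.C 1 3 1 1 (.B 1 2 1 (.L 932) (.L 1616)) (.L 2888)) (.L
  932))) (.L 258)) (.B 1 2 1 (.C 0 2 768 1 (.C 0 3 12240 1 (.C 0 1 6096 1
  (.B 2 1 2 (.B 1 4 1 (.L 51) (.C 0 2 1536 1 (.C 0 3 24480 1 (.C 0 1 12192 1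
  (.B 2 2 1 (.B 1 1 2 (.L 523) (.G 473 373 1 1 1 1 1 [.n, .n, .n, .n, .g 2
  29 0 0, .g 1 15 0 0])) (.L 523)) (.L 523)) (.L 51)) (.L 51))) (.L 51)) (.L
  48)) (.L 59)) (.L 59)) (.C 1 2 1 8 (.C 1 2 2 1 (.L 106) (.L 1333)) (.L
  368)))) (.B 0 2 1 (.L 183) (.B 1 2 1 (.B 1 4 1 (.L 48) (.L 368)) (.L
  601)))) (.G 528 241 1 1 1 1 1 [.g 11 16 0 0, .n, .n, .n, .n, .n])) (.G 528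
  708 1 1 1 1 1 [.g 3 22 0 0, .n, .n, .n, .n, .n])) (.G 528 111 1 1 1 1 1
  [.g 35 64 0 0, .n, .n, .n, .n, .n])) (.C 0 1 1 2 (.G 59 528 0 1 1 1 1 [.n,
  .g 32 3 0 0, .n, .n, .n, .n]) (.C 1 2 1 4 (.C 1 3 1 2 (.C 0 1 1 4 (.L 281)
  (.L 136)) (.C 1 3 1 4 (.L 281) (.C 2 3 1 4 (.L 281) (.G 6 59 1 236 238 238
  30 [.n, .n, .g 64 11 0 0, .n, .n, .n])))) (.C 1 2 1 8 (.C 1 3 1 4 (.L 281)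
  (.G 59 932 0 1 1 1 1 [.n, .g 64 7 0 0, .n, .n, .n, .n])) (.G 59 528 0 1 1
  1 1 [.n, .g 64 7 0 0, .n, .n, .n, .n]))))) (.C 1 3 1 2 (.L 1597) (.L
  314)))) (.C 0 1 1 1 (.C 1 3 1 4 (.B 1 1 16 (.C 1 2 1 4 (.C 0 1 2 1 (.B 0 2
  1 (.L 642) (.B 1 2 1 (.G 1 79 1 86056 344223 344223 344223 [.n, .g 4 33 0
  0, .n, .n, .n, .g 512 3 0 0]) (.L 2849))) (.B 2 1 4 (.L 173) (.G 1584 364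
  0 1 1 1 1 [.n, .g 32 29 0 0, .n, .n, .n, .n]))) (.B 0 2 1 (.L 234) (.C 0 3
  4 1 (.G 251 250 4 1048576 4194304 524288 8388607 [.n, .g 8 1 0 0, .n, .n,
  .g 1 198 0 0, .g 1 217 0 0, .n, .n]) (.L 79)))) (.G 1597 648 2 171669
  343338 85834 686676 [.n, .g 8 1 0 0, .g 16 15 0 0, .g 64 61 0 0])) (.C 0 3
  1 2 (.B 1 1 16 (.B 0 2 1 (.L 234) (.C 0 1 4 1 (.G 251 332 4 1048576
  8388607 524288 2097152 [.n, .g 32 3 0 0, .n, .n, .g 1 198 0 0, .g 1 217 0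
  0, .n, .n]) (.L 79))) (.L 234)) (.L 648))) (.B 2 8 1 (.C 2 3 1 1 (.L 173)
  (.C 1 3 1 2 (.L 173) (.C 0 3 1 4 (.L 173) (.G 173 332 2 62 31 15 8 [.n,
  .n, .n, .n, .g 8 67 0 0, .g 4 71 0 0])))) (.C 2 3 1 1 (.G 1655 364 0 1327
  663 332 663 [.g 16 11 0 0, .n, .n, .n]) (.C 1 3 1 2 (.G 1584 364 0 1 1 1 1
  [.n, .g 1 1 0 0, .n, .n, .n, .n]) (.C 0 3 1 4 (.G 364 1584 1 1 1 1 1 [.g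
  64 19 0 0, .n, .n, .n, .n, .n]) (.G 1911 332 2 301 150 75 38 [.g 53 65 0
  0, .n, .n, .n, .g 5 64 0 0, .g 1 19 0 0]))))))) (.C 0 3 1 1 (.B 2 8 1 (.L
  173) (.G 1655 364 0 369 726 184 737 [.g 64 39 0 0, .n, .n, .n])) (.C 2 3 2
  1 (.B 2 8 1 (.L 173) (.G 1584 2562 9 1 1 1 1 [.n, .g 64 1 0 0, .n, .n, .n,
  .n])) (.C 0 1 1 1 (.C 1 2 1 2 (.B 1 1 16 (.B 0 2 1 (.L 68) (.G 173 79 0 7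
  13 27 3 [.n, .n, .n, .n, .g 64 53 0 0, .g 57 64 0 0])) (.G 645 68 3 6 12
  24 3 [.n, .n, .n, .n, .g 16 15 0 0, .g 41 65 0 0])) (.C 0 2 1 1 (.C 0 1 4
  1 (.L 946) (.G 173 332 2 73 36 18 5 [.n, .n, .n, .n, .g 9 67 0 0, .g 5 64
  0 0])) (.C 2 3 1 2 (.L 645) (.B 0 2 1 (.C 1 3 1 8 (.L 645) (.B 0 4 1 (.C 0
  2 1 1 (.C 1 2 1 2 (.L 235) (.B 2 8 1 (.L 152) (.B 0 8 1 (.C 0 2 2 1 (.L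
  2704) (.C 2 3 1 8 (.L 595) (.L 1666))) (.L 152)))) (.C 2 3 1 4 (.C 0 3 1 1
  (.L 173) (.C 1 2 1 4 (.B 1 1 64 (.C 1 3 1 2 (.L 1911) (.G 984 1885 1 773
  1547 1547 387 [.n, .n, .g 32 19 0 0])) (.L 3857)) (.L 1045))) (.C 1 2 1 2
  (.C 0 1 2 1 (.B 0 8 1 (.B 0 16 1 (.G 7904 1256 2 438530 1754122 1754122
  54816 [.g 27 64 0 0, .g 10 21 0 0, .n, .n]) (.L 68)) (.L 152)) (.L 476))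
  (.B 2 8 1 (.C 2 3 1 8 (.G 1899 3400 3 754993 3019974 754993 1509987 [.n,
  .n, .g 23 64 0 11, .n]) (.L 152)) (.B 0 8 1 (.C 2 3 1 8 (.C 0 3 2 1 (.G
  1098 2785 2 663147 2652588 663147 2652588 [.n, .n, .g 64 55 0 11, .n]) (.C
  0 2 1 4 (.C 0 3 1 2 (.G 1098 2273 2 3536013 3536013 7072027 7072027 [.n,
  .n, .g 32 27 0 0, .n]) (.L 1271)) (.L 1271))) (.B 0 16 1 (.C 0 3 1 8 (.C 0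
  2 2 1 (.L 3836) (.C 1 2 1 2 (.L 3857) (.B 2 1 2 (.L 68) (.C 0 2 1 2 (.L
  2465) (.C 2 3 1 1 (.L 818) (.G 5856 3233 1 1066 1066 533 267 [.g 16 15 0
  0, .n, .n, .n])))))) (.C 2 3 1 16 (.C 0 2 1 1 (.B 2 1 2 (.L 1677) (.B 0 32
  1 (.C 0 3 2 1 (.C 1 3 2 1 (.G 6880 1841 1 634435 1268871 1268871 5075483
  [.n, .g 29 32 0 0, .n, .n]) (.B 2 1 4 (.L 1666) (.G 959 2209 5 1 8 2 4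
  [.n, .n, .g 32 5 0 0, .n, .n]))) (.L 1271)) (.L 1890))) (.L 2625)) (.L
  3489))) (.L 1677))) (.B 1 1 4 (.L 2014) (.C 2 3 1 8 (.G 476 3924 1 495080
  1980322 495080 990161 [.n, .n, .n, .g 64 50 0 17]) (.L 1677)))))))) (.C 0
  2 1 1 (.L 2050) (.C 2 3 1 4 (.G 173 3828 1 54 108 27 54 [.n, .n, .n, .n,
  .n, .g 3 7 65947 0]) (.L 2050))))) (.B 1 1 16 (.L 315) (.B 2 32 1 (.G 152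
  645 5 51 102 51 13 [.g 32 13 0 0, .g 64 1 0 0, .n, .n]) (.L 946))))))) (.C
  1 3 1 2 (.L 1357) (.C 2 3 1 2 (.L 645) (.C 0 3 1 4 (.L 645) (.B 0 2 1 (.C
  0 2 1 2 (.G 112 777 0 1757468 878734 3514936 219683 [.g 41 63 0 0, .n, .n,
  .g 32 27 0 0]) (.C 0 1 1 4 (.C 0 2 1 4 (.C 1 2 1 1 (.B 2 8 1 (.G 173 476 0
  256 510 1021 16 [.n, .n, .n, .n, .g 12 65 0 0, .g 1 10 0 0]) (.L 476)) (.C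
  0 2 2 1 (.C 1 3 1 64 (.G 68 173 5 139 556 556 1111 [.n, .n, .n, .g 32 7 0
  0]) (.L 476)) (.C 0 3 1 64 (.G 173 434 4 1 1 1 1 [.n, .n, .n, .n, .n, .g 5
  71 0 0]) (.L 1271)))) (.L 1271)) (.L 1946))) (.B 1 1 16 (.L 946) (.B 2 32
  1 (.G 476 645 5 189 95 95 24 [.g 64 17 0 0, .n, .n, .g 8 1 0 0]) (.L
  476))))))))))) (by decide +kernel)

theorem EN3_c41 : CoN ENTab ⟨⟨29, 31, 64⟩, ⟨25, 31, 64⟩, ⟨1, 1, 2⟩, ⟨1, 0,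
  0, 0, 0⟩, ⟨224, 38, 56, 4, 43⟩, ⟨52, 13, 13, 2, 11⟩, ⟨100, 25, 25, 2, 23⟩⟩
  :=
CoN.ofG ENTab_B ENBt_E ENBt_U (.C 0 3 384 1 (.C 0 3 768 1 (.C 0 3 1536 1 (.C
  2 3 16 1 (.L 1481) (.C 1 3 4 1 (.L 1481) (.C 1 3 1 2 (.L 502) (.C 0 2 6144
  1 (.B 1 1 32 (.C 0 1 12240 1 (.C 0 2 12288 1 (.B 0 1 1 (.C 1 3 1 8 (.B 0 2
  1 (.L 1198) (.C 0 1 24480 1 (.C 2 3 2 1 (.L 16) (.C 1 2 2 1 (.C 1 2 4 1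
  (.L 29) (.B 1 1 1 (.B 0 1 2 (.C 1 2 1 2 (.L 27) (.L 6)) (.C 0 3 49056 1
  (.C 2 3 1 2 (.L 16) (.C 1 2 1 1 (.L 165) (.C 2 3 1 4 (.C 1 3 1 1 (.L 16)
  (.L 6)) (.L 165)))) (.L 633))) (.L 6))) (.B 1 1 1 (.C 1 3 1 4 (.C 1 3 2 1
  (.L 2) (.L 3144)) (.L 3528)) (.L 11)))) (.G 6 41 1 1662379 831189 831189
  1662379 [.n, .g 5 21 0 0, .g 32 1 0 0, .n, .g 64 3 0 0, .n]))) (.C 1 3 1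
  16 (.B 0 2 1 (.L 1198) (.L 834)) (.L 368))) (.B 1 2 1 (.C 0 1 24480 1 (.C
  0 2 24576 1 (.C 0 1 48960 1 (.C 0 1 97920 1 (.C 0 2 49152 1 (.C 0 3 3072 1
  (.C 0 2 98304 1 (.C 0 3 6144 1 (.C 0 3 12288 1 (.C 0 2 196608 1 (.B 2 1 2
  (.C 2 3 1 16 (.C 2 3 2 1 (.L 16) (.L 1)) (.L 1)) (.C 2 3 1 16 (.C 2 3 2 1
  (.L 16) (.B 0 1 2 (.C 0 2 1572864 1 (.B 0 2 1 (.B 0 4 1 (.C 0 1 195840 1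
  (.C 0 3 786432 1 (.C 0 1 391680 1 (.C 1 3 2 1 (.L 41) (.L 2)) (.L 1840))
  (.L 1840)) (.L 1840)) (.L 1)) (.L 1)) (.L 373)) (.L 1))) (.B 0 1 2 (.C 0 3
  24576 1 (.C 0 1 195840 1 (.B 0 2 1 (.C 1 3 1 8 (.B 0 4 1 (.C 0 3 784896 1
  (.C 0 2 786432 1 (.C 1 2 4 1 (.L 1) (.C 1 2 1 2 (.L 3528) (.L 6))) (.L
  1840)) (.L 1840)) (.L 1)) (.L 6)) (.L 1)) (.L 1196)) (.L 1196)) (.L 1))))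
  (.B 0 1 2 (.L 373) (.G 1 257 3 573831 286916 286916 35864 [.n, .g 3 5 0 0,
  .n, .n, .n, .n]))) (.L 1891)) (.L 1288)) (.L 1288)) (.L 176)) (.L 176))
  (.L 176)) (.L 48)) (.L 128)) (.L 51)) (.C 0 1 24480 1 (.C 1 3 1 16 (.C 2 3
  4 1 (.L 16) (.C 1 3 2 1 (.C 1 3 4 1 (.B 1 1 2 (.L 16) (.B 2 1 1 (.C 1 3 8
  1 (.L 16) (.B 1 1 4 (.L 16) (.L 6))) (.L 16))) (.B 1 1 2 (.C 2 3 1 1 (.L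
  16) (.B 1 2 1 (.L 41) (.C 1 3 1 2 (.L 41) (.C 2 3 1 2 (.L 41) (.L 6)))))
  (.B 2 1 1 (.L 6) (.C 2 3 1 1 (.L 41) (.C 1 3 1 2 (.B 2 1 2 (.L 6) (.L 41))
  (.L 6)))))) (.B 1 1 2 (.B 1 2 1 (.B 0 2 1 (.L 1079) (.B 1 4 1 (.L 1) (.L
  1079))) (.L 3528)) (.C 1 2 1 1 (.L 6) (.L 834))))) (.B 1 1 2 (.C 1 3 1 32
  (.C 1 2 1 4 (.C 1 2 2 1 (.L 6) (.B 1 2 1 (.L 2) (.L 31))) (.L 11)) (.L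
  31)) (.L 11))) (.B 2 1 1 (.B 1 1 2 (.L 473) (.C 2 3 1 8 (.G 658 41 1
  922115 461058 461058 922115 [.n, .n, .n, .g 64 57 0 0, .g 15 62 0 0]) (.C
  0 1 1 2 (.C 0 3 1 16 (.G 6 883 3 261905 523809 261905 523809 [.n, .n, .g
  128 1 0 0, .n, .n, .n]) (.G 373 6 2 511 510 256 16 [.n, .n, .n, .n, .g 1
  325 0 0, .g 1 353 0 0, .n, .n, .n, .n])) (.G 285 6 2 255 64 128 8 [.n, .n,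
  .n, .n, .g 1 42 0 0, .g 1 44 0 0])))) (.L 473))))) (.C 2 3 1 4 (.L 1086)
  (.C 2 3 1 8 (.L 111) (.C 1 3 1 8 (.L 111) (.G 712 11 0 233 467 467 29 [.n,
  .n, .n, .n, .g 8 7 0 0, .g 32 31 0 0, .n, .n]))))) (.C 1 3 1 4 (.L 241)
  (.C 2 3 1 4 (.L 48) (.C 1 3 1 8 (.L 48) (.C 2 3 1 8 (.L 48) (.G 111 6 2 8
  16 16 1 [.n, .n, .n, .n, .g 16 65 0 0, .g 7 31 0 0])))))) (.C 1 2 1 1 (.G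
  53 688 1 1 1 1 1 [.n, .n, .n, .n, .g 1 47 0 0, .g 1 51 0 0]) (.L 314)))
  (.C 2 3 1 2 (.L 683) (.B 1 1 32 (.C 1 3 1 4 (.L 59) (.C 1 3 1 8 (.L 241)
  (.G 51 839 3 14 56 14 4 [.n, .n, .n, .n, .g 53 63 0 0, .g 51 65 0 0])))
  (.C 1 3 1 4 (.L 683) (.G 926 368 0 186991 373982 186991 46748 [.n, .g 7 8
  0 0, .n, .n, .n])))))))) (.B 1 1 32 (.C 0 2 1 16 (.C 0 1 1 4 (.C 0 2 2 1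
  (.C 0 1 2 1 (.C 0 1 4 1 (.G 111 258 0 3 21 11 1 [.n, .n, .n, .n, .g 64 37
  0 0, .g 8 5 0 0]) (.L 59)) (.L 59)) (.L 59)) (.G 59 276 5 1 1 1 1 [.n, .g
  64 5 0 0, .g 1 71 0 0, .g 1 76 0 0, .n, .n])) (.C 2 3 8 1 (.L 276) (.G 59
  276 5 1 1 1 1 [.n, .g 64 5 0 0, .g 1 71 0 0, .g 1 76 0 0, .n, .n]))) (.C 0
  2 1 16 (.B 1 1 64 (.C 0 1 1 4 (.C 0 2 2 1 (.C 0 2 4 1 (.G 438 1119 1 1 1 1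
  1 [.n, .n, .n, .g 3 76 0 0, .n, .n]) (.L 111)) (.L 708)) (.C 1 3 2 1 (.L
  1328) (.L 708))) (.G 53 1344 1 65 16 130 33 [.n, .n, .n, .g 1 8 0 0, .n,
  .n])) (.C 2 3 8 1 (.L 1328) (.C 1 3 2 1 (.L 1328) (.G 258 276 5 1606 803
  803 402 [.g 32 9 0 0, .n, .n, .g 32 9 0 0])))))) (.C 0 2 1 8 (.C 0 1 1 2
  (.B 1 1 32 (.G 59 276 5 1 1 1 1 [.n, .n, .g 1 27 0 0, .g 1 29 0 0, .n,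
  .n]) (.G 258 276 5 411 822 822 205 [.g 32 9 0 0, .n, .n, .g 32 9 0 0]))
  (.C 1 3 1 1 (.L 1328) (.C 1 3 1 2 (.L 276) (.B 1 1 32 (.G 478 173 5 1 1 1
  1 [.n, .n, .g 17 63 0 0, .g 16 63 0 0, .n, .n, .g 4 13 0 0, .g 22 65 0 0])
  (.L 136))))) (.C 2 3 4 1 (.L 1328) (.C 1 3 1 1 (.L 1328) (.B 1 1 32 (.C 1
  3 1 2 (.L 276) (.C 2 3 1 2 (.L 276) (.C 0 3 1 4 (.L 276) (.C 1 3 1 4 (.G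
  281 649 1 1 1 1 1 [.g 32 25 0 0, .n, .n, .n, .n, .n]) (.C 2 3 1 4 (.G 174
  1086 1 1 1 1 1 [.n, .g 64 23 0 0, .n, .n, .n, .n, .n, .n]) (.L 59))))))
  (.L 53)))))) (.C 0 2 1 4 (.C 0 1 1 1 (.B 1 1 32 (.C 1 3 1 4 (.C 0 1 2 1
  (.C 0 2 2 1 (.B 0 1 1 (.G 683 6 1 13 54 54 54 [.n, .n, .n, .n, .g 49 64 0
  0, .g 37 65 0 0]) (.C 0 3 4 1 (.B 1 2 1 (.G 1 649 5 27 107 107 215 [.n, .g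
  32 11 0 0, .n, .n, .n, .n]) (.L 181)) (.G 173 1086 1 1 1 1 1 [.n, .n, .n,
  .n, .n, .g 4 33 0 0]))) (.L 276)) (.L 276)) (.B 0 1 1 (.C 0 3 1 2 (.C 0 2
  2 1 (.C 0 1 4 1 (.G 149 486 5 1048576 8388607 4194304 2097152 [.n, .n, .g
  16 1 0 0, .n, .n, .n]) (.L 180)) (.L 180)) (.L 180)) (.C 0 3 1 2 (.C 0 2 2
  1 (.C 0 1 4 1 (.C 0 3 2 1 (.G 174 2 1 1 8 4 4 [.n, .n, .n, .n, .g 8 5 0 0,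
  .g 64 43 0 0, .n, .n]) (.G 181 1 1 16 32 16 8 [.n, .n, .g 22 63 0 0, .g 1
  3 0 0, .n, .n])) (.B 1 2 1 (.G 1 649 5 220 110 110 55 [.n, .g 32 7 0 0,
  .n, .n, .n, .n]) (.C 1 3 1 2 (.L 4832) (.G 462 1 1 2867736 2867736 1433868
  716934 [.n, .n, .g 7 32 0 0, .g 3 13 0 0, .n, .n, .n, .n])))) (.G 891 345
  1 63 63 32 32 [.n, .n, .n, .n, .g 21 65 0 0, .g 19 64 0 0, .n, .n])) (.G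
  891 250 4 51 102 51 13 [.n, .n, .n, .n, .g 7 32 0 0, .g 13 64 0 0, .n,
  .n])))) (.G 648 53 3 5 10 10 2 [.n, .n, .g 64 21 0 0, .n, .n])) (.G 332
  1357 5 140 70 140 35 [.n, .n, .g 16 1 0 0, .g 64 33 0 0, .g 4 1 0 0])) (.C
  1 3 1 2 (.L 1328) (.G 208 1357 5 254 252 32 64 [.g 64 9 0 0, .n, .g 8 1 0
  0, .g 7 1 0 1015, .g 8 1 0 0])))) (by decide +kernel)

theorem EN3_c42 : CoN ENTab ⟨⟨13, 15, 32⟩, ⟨25, 31, 64⟩, ⟨29, 31, 64⟩, ⟨1,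
  0, 0, 0, 0⟩, ⟨224, 38, 56, 4, 43⟩, ⟨52, 13, 13, 2, 11⟩, ⟨100, 25, 25, 2,
  23⟩⟩ :=
CoN.ofG ENTab_B ENBt_E ENBt_U (.B 2 1 2 (.C 0 3 384 1 (.C 0 3 768 1 (.C 2 3
  8 1 (.L 16) (.C 0 3 1536 1 (.C 1 3 4 1 (.L 16) (.C 1 3 1 2 (.L 298) (.C 0
  2 3072 1 (.C 0 1 12240 1 (.C 1 3 1 8 (.C 0 2 6144 1 (.B 0 1 2 (.B 1 1 4
  (.C 2 3 4 1 (.L 16) (.C 0 2 98208 1 (.C 0 3 49056 1 (.C 1 3 4 1 (.L 16)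
  (.B 1 2 1 (.B 0 2 1 (.C 0 1 196032 1 (.B 0 4 1 (.L 373) (.L 473)) (.L 51))
  (.L 473)) (.C 0 1 196032 1 (.C 0 2 196416 1 (.C 1 2 1 1 (.L 165) (.C 1 2 1
  2 (.B 0 8 1 (.L 6) (.B 1 1 2 (.B 1 2 1 (.L 2550) (.L 6)) (.L 6))) (.L
  834))) (.L 373)) (.L 48)))) (.L 48)) (.L 48))) (.C 1 2 1 2 (.C 1 2 2 1 (.L
  29) (.C 1 2 1 2 (.L 106) (.C 1 2 1 4 (.L 82) (.L 1333)))) (.L 368))) (.B 2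
  4 1 (.B 1 1 1 (.C 0 3 49056 1 (.C 0 1 24480 1 (.C 0 2 12288 1 (.C 2 3 4 1
  (.L 16) (.C 1 3 2 1 (.L 41) (.C 2 3 1 2 (.B 0 1 8 (.B 0 2 1 (.C 0 1 196032
  1 (.C 1 3 1 1 (.B 0 4 1 (.B 2 4 1 (.L 41) (.L 6)) (.L 41)) (.L 834)) (.L
  373)) (.L 16)) (.L 16)) (.C 2 3 1 4 (.C 0 1 196032 1 (.B 0 1 8 (.C 1 3 2 1
  (.C 1 3 4 1 (.B 0 2 1 (.C 0 2 392640 1 (.C 1 2 2 1 (.L 29) (.L 6)) (.L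
  373)) (.L 16)) (.B 0 2 1 (.L 6) (.L 41))) (.L 834)) (.C 0 2 392640 1 (.C 0
  2 785280 1 (.C 0 3 785088 1 (.C 0 3 1570176 1 (.C 0 3 3140352 1 (.C 1 3 16
  1 (.L 16) (.B 2 8 1 (.C 2 3 4 1 (.L 41) (.C 0 2 12562944 1 (.C 1 2 2 1 (.L
  1) (.C 2 3 1 4 (.L 141) (.C 2 3 1 8 (.L 141) (.L 1)))) (.G 428 1 5 783779
  391889 391889 195945 [.n, .g 1 458 0 0, .n, .n]))) (.L 499))) (.L 1)) (.L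
  176)) (.L 176)) (.L 176)) (.L 48))) (.B 0 1 8 (.G 773 6 2 583041 291521
  583041 1166082 [.n, .g 1 39 0 0, .n, .n]) (.L 48))) (.C 1 2 4 1 (.C 1 3 1
  2 (.B 0 1 8 (.C 1 2 8 1 (.L 361) (.L 165)) (.L 41)) (.B 0 1 8 (.L 165) (.L
  1))) (.B 0 1 8 (.L 3144) (.L 1))))))) (.L 48)) (.L 48)) (.L 48)) (.C 0 1
  24480 1 (.C 1 2 1 4 (.C 1 2 2 1 (.C 1 2 4 1 (.L 29) (.B 1 1 2 (.B 1 2 1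
  (.C 1 2 1 2 (.L 27) (.C 0 2 196032 1 (.C 2 3 1 8 (.C 2 3 2 1 (.L 16) (.C 0
  2 1568640 1 (.L 82) (.L 373))) (.L 82)) (.L 473))) (.L 27)) (.L 106))) (.B
  1 1 2 (.C 0 3 49056 1 (.C 2 3 1 1 (.L 16) (.C 0 1 196032 1 (.C 1 2 1 2 (.C
  1 3 1 4 (.C 1 3 2 1 (.L 16) (.B 1 2 1 (.C 1 3 1 2 (.L 16) (.L 7392)) (.L
  839))) (.L 2376)) (.L 2376)) (.G 6 41 1 698712 349356 349356 174678 [.n,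
  .n, .g 64 1 0 0, .n, .g 128 1 0 0, .n]))) (.L 285)) (.L 368))) (.B 1 1 2
  (.L 1370) (.L 368))) (.L 1086))) (.B 2 1 2 (.C 0 3 49056 1 (.B 1 8 1 (.L
  176) (.C 0 1 24480 1 (.B 1 1 2 (.L 633) (.C 2 3 8 1 (.L 16) (.C 0 2 196416
  1 (.C 0 1 48960 1 (.C 0 3 98112 1 (.C 1 3 2 1 (.L 41) (.C 1 2 1 1 (.C 2 3
  1 4 (.B 1 1 4 (.L 41) (.B 2 2 1 (.L 6) (.L 41))) (.L 6)) (.L 834))) (.L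
  373)) (.L 285)) (.L 473)))) (.L 48))) (.L 48)) (.L 176)))) (.L 48)) (.B 1
  1 1 (.C 0 1 49056 1 (.C 0 1 98112 1 (.C 0 1 196224 1 (.C 0 2 6144 1 (.C 0
  3 3072 1 (.C 0 2 12288 1 (.C 0 3 6144 1 (.C 0 2 24576 1 (.C 0 3 12288 1
  (.C 0 2 49152 1 (.C 0 2 98304 1 (.C 2 3 1 8 (.B 1 2 1 (.C 0 1 392448 1 (.B
  0 1 2 (.L 373) (.L 128)) (.L 176)) (.B 1 1 2 (.L 373) (.C 0 1 392448 1 (.C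
  1 3 1 2 (.B 0 4 1 (.L 834) (.B 1 1 4 (.L 473) (.B 1 1 8 (.L 1840) (.L
  262)))) (.L 11)) (.L 373)))) (.B 1 2 1 (.B 0 1 2 (.L 373) (.L 128)) (.B 1
  1 2 (.L 373) (.L 6)))) (.G 176 633 0 1 1 1 1 [.n, .n, .n, .n, .g 45 64 0
  0, .g 41 64 0 0, .n, .n, .n, .n])) (.L 176)) (.L 176)) (.L 176)) (.L 176))
  (.L 176)) (.L 176)) (.L 176)) (.L 176)) (.L 48)) (.L 48)) (.B 1 1 2 (.C 1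
  3 1 16 (.L 834) (.L 31)) (.L 368)))) (.C 1 3 1 4 (.L 241) (.B 1 1 1 (.L
  51) (.C 2 3 1 2 (.L 48) (.C 1 3 1 8 (.L 48) (.G 241 1376 3 44 88 22 6 [.n,
  .n, .n, .n, .g 32 9 0 0, .g 64 19 0 0])))))) (.C 2 3 1 1 (.L 649) (.C 2 3
  1 2 (.L 59) (.C 1 3 1 4 (.L 59) (.C 0 3 1 2 (.L 59) (.G 59 258 0 9 18 9 2
  [.n, .n, .n, .n, .g 2 1 0 0, .g 64 35 0 0])))))))) (.C 0 1 1 4 (.C 0 2 1 1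
  (.C 0 1 2 1 (.C 0 2 2 1 (.C 0 1 4 1 (.G 59 258 0 2 18 9 1 [.n, .n, .n, .n,
  .g 2 1 0 0, .g 64 35 0 0]) (.L 59)) (.L 59)) (.L 59)) (.G 241 649 5 1 1 1
  1 [.n, .n, .g 35 64 0 0, .g 11 21 0 0, .n, .n])) (.G 59 5344 5 1 1 1 1
  [.n, .g 64 1 0 0, .g 5 68 0 0, .g 2 29 0 0, .n, .n])))) (.C 0 2 1 8 (.C 0
  1 1 2 (.B 1 1 1 (.B 0 1 2 (.L 478) (.G 59 649 5 1 1 1 1 [.n, .n, .g 3 4 0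
  0, .g 45 64 0 0, .n, .n])) (.L 59)) (.C 1 3 1 1 (.L 649) (.C 1 3 1 2 (.L
  649) (.G 478 173 5 1 1 1 1 [.n, .n, .g 17 63 0 0, .g 16 63 0 0, .n, .n, .g
  27 64 0 0, .g 34 63 0 0])))) (.C 2 3 4 1 (.L 649) (.C 1 3 1 1 (.L 649) (.C
  2 3 1 2 (.L 649) (.C 1 3 1 2 (.L 649) (.C 2 3 1 4 (.L 1024) (.C 1 3 1 4
  (.L 1024) (.C 0 3 1 4 (.L 1024) (.L 59)))))))))) (.C 0 2 1 4 (.C 0 1 1 1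
  (.C 0 1 2 1 (.C 1 2 1 2 (.B 1 1 1 (.C 0 3 1 2 (.C 0 3 2 1 (.C 0 2 8 1 (.G
  6 1 5 1151 4602 18409 4602 [.n, .n, .g 1 5 0 0, .n, .n, .n]) (.L 174)) (.G
  1024 1 1 20 20 40 10 [.n, .n, .n, .n, .g 29 32 0 0, .g 15 16 0 0, .n,
  .n])) (.C 1 3 1 8 (.G 1 173 5 25 51 101 101 [.n, .g 8 5 0 0, .n, .n, .n,
  .n]) (.G 907 648 1 18 72 72 4 [.n, .n, .n, .n, .g 22 65 0 0, .g 2 7 0
  0]))) (.C 1 3 1 8 (.G 1934 367 1 1 4 8 8 [.n, .n, .n, .n, .n, .n, .g 8 63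
  0 0, .g 8 65 0 0, .n, .n]) (.L 149))) (.B 1 1 1 (.C 0 2 2 1 (.B 0 1 2 (.L
  596) (.C 0 3 1 2 (.G 1024 1 1 3 24 12 6 [.n, .n, .n, .n, .g 16 9 0 0, .g
  32 19 0 0, .n, .n]) (.G 402 54 2 2097152 8388607 4194304 524288 [.n, .n,
  .n, .n, .n, .n, .g 2 67 0 0, .g 1 38 0 0]))) (.G 1682 3656 3 20 40 10 2
  [.n, .g 64 1 0 0, .n, .n, .g 5 21 0 0, .g 15 64 0 0, .n, .n, .n, .g 32 15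
  0 0])) (.G 251 3656 3 1048576 8388607 2097152 524288 [.n, .g 64 5 0 0, .n,
  .n, .g 4 67 0 0, .g 1 19 0 0, .n, .n]))) (.C 1 3 1 4 (.L 649) (.C 0 3 1 8
  (.L 649) (.B 1 1 1 (.G 907 367 1 116 58 29 7 [.n, .n, .n, .n, .g 35 64 0
  0, .g 2 5 0 0]) (.L 180))))) (.C 1 3 1 2 (.L 649) (.C 0 3 1 4 (.L 649) (.G
  649 332 4 16 8 8 2 [.n, .n, .n, .n, .g 64 51 0 0, .g 35 64 0 0])))) (.G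
  648 1328 5 128 63 16 32 [.n, .g 47 1 0 1015, .g 14 1 0 1032, .g 52 1 16492
  0, .g 88 1 16391 0]))) (.C 0 3 384 1 (.C 2 3 4 1 (.L 16) (.C 1 3 1 1 (.L
  16) (.C 0 2 1536 1 (.C 0 1 1524 1 (.C 0 3 768 1 (.C 0 1 3048 1 (.C 0 2
  3072 1 (.C 0 3 1536 1 (.C 0 1 6096 1 (.C 0 2 6144 1 (.B 1 2 1 (.L 128) (.B
  2 1 4 (.C 0 3 3072 1 (.C 0 1 12192 1 (.C 0 2 12288 1 (.B 1 1 2 (.L 48) (.B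
  2 2 1 (.L 373) (.L 48))) (.L 48)) (.L 48)) (.L 51)) (.L 51))) (.L 48)) (.L
  51)) (.L 51)) (.L 51)) (.L 51)) (.L 51)) (.C 0 1 1 2 (.L 59) (.C 1 2 2 1
  (.G 573 1 5 127 32 128 16 [.g 1 45 0 0, .n, .n, .n, .g 1 863 0 0, .g 1 936
  0 0]) (.L 59)))) (.C 1 3 1 2 (.G 1086 364 1 1 1 1 1 [.g 27 32 0 0, .n, .n,
  .n, .n, .n, .n, .n]) (.C 2 3 1 2 (.G 6368 1911 1 1 1 1 1 [.g 64 19 0 0,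
  .n, .n, .n, .n, .n, .n, .n]) (.C 2 3 1 4 (.B 0 2 1 (.G 337 1911 5 1 1 1 1
  [.n, .n, .n, .n, .n, .n, .g 2 55 0 0, .g 2 59 0 0, .n, .n]) (.L 1024)) (.C
  0 1 1 1 (.L 51) (.G 1 2 5 1173 586 1173 147 [.n, .n, .n, .n, .n, .g 32 9 0
  0])))))))) (.C 0 2 1 4 (.C 0 1 1 1 (.C 1 3 1 4 (.C 0 1 2 1 (.C 0 3 4 1 (.C
  0 2 2 1 (.C 0 2 4 1 (.G 1 6 2 1417 5668 11336 11336 [.n, .n, .n, .n, .n,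
  .g 64 1 0 0]) (.L 174)) (.L 1024)) (.L 1024)) (.L 649)) (.C 0 2 2 1 (.C 0
  3 1 2 (.B 1 2 1 (.G 1024 1 1 5 21 21 10 [.n, .n, .n, .n, .g 64 61 0 0, .g
  1 1 0 0, .n, .n]) (.G 776 6 1 2097152 8388607 8388607 4194304 [.n, .n, .g
  1 35 0 0, .g 2 75 0 0, .n, .n, .g 11 62 0 0, .g 1 6 0 0, .n, .n])) (.B 1 2
  1 (.B 0 2 1 (.G 3728 648 1 106601 213203 213203 26650 [.g 3 7 0 0, .g 64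
  49 0 0, .g 64 25 0 0, .g 31 63 0 0]) (.L 891)) (.L 79))) (.B 1 2 1 (.C 0 3
  1 8 (.L 1024) (.L 198)) (.L 79)))) (.C 1 3 1 2 (.L 649) (.C 0 3 1 4 (.L
  649) (.G 891 332 4 168 84 84 21 [.n, .n, .n, .n, .n, .g 1 1 0 0, .n,
  .n])))) (.G 315 187 1 1 1 1 1 [.g 32 7 0 0, .n, .n, .n, .n, .n]))))
  (by decide +kernel)

theorem EN3_c43 : CoN ENTab ⟨⟨25, 31, 64⟩, ⟨3, 4, 8⟩, ⟨1, 1, 2⟩, ⟨1, 0, 0,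
  0, 0⟩, ⟨224, 38, 56, 4, 43⟩, ⟨52, 13, 13, 2, 11⟩, ⟨100, 25, 25, 2, 23⟩⟩ :=
CoN.ofG ENTab_B ENBt_E ENBt_U (.C 0 2 192 1 (.C 0 3 384 1 (.C 0 3 768 1 (.C
  1 3 2 1 (.L 298) (.B 1 1 4 (.C 2 3 4 1 (.L 16) (.C 1 3 1 2 (.L 16) (.C 0 1
  6120 1 (.C 2 3 1 2 (.C 2 3 2 1 (.L 16) (.C 0 3 6144 1 (.B 2 4 1 (.B 1 2 1
  (.L 257) (.C 0 2 12288 1 (.B 1 1 2 (.L 41) (.B 2 8 1 (.C 0 2 24576 1 (.C 0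
  2 49152 1 (.C 0 1 12240 1 (.C 0 3 12288 1 (.C 0 1 24480 1 (.C 0 3 24576 1
  (.B 1 1 4 (.C 2 3 1 2 (.L 41) (.L 1)) (.B 2 16 1 (.B 1 1 8 (.C 2 3 1 2 (.L
  773) (.L 1)) (.C 1 2 2 1 (.L 6) (.C 1 2 1 2 (.L 6) (.L 31)))) (.C 2 3 1 2
  (.L 773) (.L 1)))) (.L 806)) (.L 806)) (.L 806)) (.L 806)) (.L 806)) (.L
  806)) (.C 2 3 1 2 (.L 41) (.L 1)))) (.L 48))) (.L 257)) (.L 98))) (.B 1 2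
  1 (.L 1) (.C 0 2 6144 1 (.B 2 4 1 (.B 2 8 1 (.B 1 1 2 (.L 1) (.B 2 16 1
  (.B 1 1 4 (.L 1) (.B 1 1 8 (.L 1) (.L 6))) (.L 1))) (.L 1)) (.L 1)) (.L
  48)))) (.G 98 16 1 11 6 3 1 [.n, .n, .n, .n, .n, .n, .g 16 5 0 0, .g 64 21
  0 0])))) (.C 0 1 3048 1 (.B 2 32 1 (.C 0 1 6096 1 (.C 1 3 1 8 (.C 1 2 1 32
  (.B 2 64 1 (.C 0 2 24480 1 (.B 1 1 8 (.C 0 2 48960 1 (.B 0 1 16 (.L 1075)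
  (.C 0 1 12192 1 (.B 1 2 1 (.C 2 3 1 4 (.B 0 1 32 (.L 1075) (.C 0 3 195840
  1 (.C 2 3 4 1 (.L 16) (.C 1 3 16 1 (.L 16) (.B 1 4 1 (.B 0 1 64 (.L 2818)
  (.B 0 1 128 (.L 2818) (.C 0 3 391680 1 (.B 1 8 1 (.B 1 16 1 (.C 1 3 1 1
  (.L 16) (.C 1 3 1 2 (.L 16) (.L 1079))) (.L 2833)) (.L 2818)) (.L 1328))))
  (.L 1075)))) (.L 806))) (.C 0 1 24384 1 (.C 1 2 4 1 (.C 0 3 24480 1 (.C 1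
  3 1 1 (.C 1 2 8 1 (.L 27) (.L 6)) (.L 6)) (.L 806)) (.L 6)) (.L 806))) (.L
  1075)) (.L 806))) (.L 806)) (.L 117)) (.L 806)) (.C 0 1 12192 1 (.C 2 3 1
  1 (.L 298) (.B 1 16 1 (.B 1 32 1 (.C 0 3 24480 1 (.C 2 3 1 1 (.C 1 3 4 1
  (.L 16) (.C 1 2 1 4 (.C 2 3 1 4 (.L 16) (.B 1 64 1 (.L 2) (.L 1465))) (.L
  3528))) (.B 1 64 1 (.B 0 1 8 (.L 2422) (.C 0 2 97920 1 (.C 0 1 24384 1 (.C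
  1 3 1 1 (.C 1 3 2 1 (.B 0 1 16 (.L 2833) (.L 16)) (.L 6)) (.L 834)) (.L
  806)) (.L 806))) (.L 1465))) (.G 4320 806 1 1 1 1 1 [.n, .n, .g 1 137 0 0,
  .g 1 143 0 0, .n, .n])) (.L 1465)) (.L 1959))) (.B 2 1 2 (.L 806) (.G 3800
  806 1 1 1 1 1 [.n, .n, .g 1 24 0 0, .g 3 61 0 0, .n, .n])))) (.B 1 1 8 (.B
  1 2 1 (.C 0 2 384 1 (.C 0 1 24480 1 (.L 11) (.L 457)) (.L 98)) (.L 368))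
  (.L 3784))) (.B 1 1 8 (.C 0 2 384 1 (.L 11) (.G 241 20 3 8 255 4 16 [.n,
  .n, .n, .n, .g 5 21 0 0, .g 7 32 0 0])) (.L 3784))) (.C 0 2 1 32 (.G 117
  3345 5 1 1 1 1 [.n, .n, .g 25 32 0 0, .g 23 32 0 0, .n, .n]) (.B 2 64 1
  (.G 258 1328 5 647 161 10 41 [.g 8 3 0 0, .n, .n, .g 32 15 0 0]) (.L
  241)))) (.C 0 2 384 1 (.C 0 1 6096 1 (.C 0 3 1536 1 (.C 2 3 4 1 (.L 16)
  (.C 1 2 1 2 (.B 2 1 2 (.C 1 3 1 4 (.C 1 3 2 1 (.B 2 2 1 (.B 1 8 1 (.L 16)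
  (.C 2 3 2 1 (.L 16) (.L 27))) (.L 16)) (.C 2 3 1 1 (.B 1 8 1 (.L 16) (.B 2
  2 1 (.B 2 4 1 (.L 1735) (.L 16)) (.L 16))) (.B 2 2 1 (.L 6) (.C 1 3 1 2
  (.L 41) (.C 1 3 1 4 (.C 2 3 4 1 (.L 41) (.C 2 3 1 2 (.B 2 1 2 (.L 165) (.L
  41)) (.L 165))) (.L 2321)))))) (.C 1 2 1 1 (.C 2 3 1 16 (.B 2 2 1 (.L 6)
  (.C 2 3 2 1 (.L 2321) (.L 6))) (.L 6)) (.L 2))) (.B 0 1 4 (.L 1) (.B 0 1 8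
  (.L 1) (.B 0 1 16 (.L 1) (.B 1 16 1 (.C 0 3 3072 1 (.C 1 3 1 2 (.L 16) (.C
  2 3 1 4 (.L 41) (.C 1 3 1 4 (.B 1 32 1 (.L 6) (.L 1)) (.L 6)))) (.G 6 1 5
  738 1477 2953 369 [.n, .n, .g 1 25 0 0, .n, .g 1 16 0 0, .n])) (.L 1))))))
  (.C 2 3 1 2 (.B 2 1 2 (.C 1 3 1 2 (.B 2 2 1 (.C 1 3 2 1 (.L 16) (.L 11))
  (.L 16)) (.B 2 2 1 (.L 31) (.C 1 3 1 4 (.B 2 1 2 (.L 11) (.B 0 1 16 (.L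
  41) (.L 11))) (.L 31)))) (.C 1 3 1 2 (.L 16) (.C 2 3 2 1 (.L 16) (.B 0 1 4
  (.L 1) (.B 0 1 8 (.C 0 2 24576 1 (.L 1) (.L 176)) (.C 1 3 1 4 (.B 0 1 16
  (.L 41) (.B 1 16 1 (.L 11) (.L 41))) (.L 31))))))) (.L 2)))) (.C 0 2 1 4
  (.C 0 1 4 1 (.G 285 143 0 32 255 64 16 [.n, .n, .n, .n, .g 64 45 0 0, .g
  16 11 0 0]) (.L 176)) (.L 48))) (.L 48)) (.L 51))) (.C 1 3 1 2 (.L 683)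
  (.B 2 32 1 (.B 1 1 8 (.L 241) (.B 2 64 1 (.L 203) (.L 523))) (.L 51))))))
  (.C 0 1 1 2 (.B 1 1 4 (.C 0 1 2 1 (.B 1 2 1 (.G 778 1421 0 1 1 1 1 [.n,
  .n, .n, .n, .g 19 63 0 0, .g 8 31 0 0]) (.L 51)) (.G 1 276 5 4392 2187 276
  551 [.n, .g 32 9 0 0, .g 256 1 0 0, .n, .g 256 1 0 0, .n])) (.B 0 1 4 (.B
  2 32 1 (.B 1 1 64 (.L 59) (.G 580 276 5 88 174 22 44 [.n, .n, .g 64 37 0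
  0, .g 57 64 0 0, .n])) (.G 478 276 5 1 1 1 1 [.n, .n, .g 1 12 0 0, .g 5 63
  0 0, .n, .n, .n, .n])) (.B 2 64 1 (.G 11 1328 5 64 127 16 32 [.g 16 3 0 0,
  .g 16 1 0 0, .n, .n]) (.L 59)))) (.C 2 3 2 1 (.L 276) (.C 1 3 1 1 (.L 276)
  (.C 0 3 1 4 (.L 276) (.C 1 3 1 2 (.L 276) (.C 1 3 1 4 (.G 1 683 5 407 204
  102 407 [.n, .g 64 21 0 0, .n, .n, .n, .g 1024 1 0 0]) (.G 281 2832 1 1 1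
  1 1 [.g 64 29 0 0, .n, .n, .n, .g 3 31 0 0, .g 1 12 0 0])))))))) (.B 1 1 4
  (.B 1 2 1 (.G 198 187 1 1 1 1 1 [.n, .n, .g 2 53 0 0, .n, .n, .n]) (.C 0 1
  1 1 (.C 0 3 1 2 (.C 0 2 1 2 (.G 1 173 5 19 39 39 39 [.n, .g 64 39 0 0, .n,
  .n, .n, .n]) (.C 2 3 4 1 (.L 276) (.G 173 1 1 20 20 41 20 [.n, .n, .n, .n,
  .n, .g 64 57 0 0]))) (.B 1 1 2 (.L 198) (.B 1 1 4 (.L 198) (.B 2 4 1 (.B 2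
  8 1 (.G 505 276 5 1 1 1 1 [.g 32 5 0 0, .n, .n, .n, .n, .n, .n, .n]) (.L
  443)) (.L 198))))) (.G 198 1328 5 1 1 1 1 [.n, .g 1024 1 0 0, .n, .n, .g
  64 15 0 0, .g 64 17 0 0]))) (.B 2 32 1 (.C 0 1 1 1 (.B 1 1 8 (.C 0 3 1 2
  (.B 1 2 1 (.C 0 3 2 1 (.G 3252 3020 0 1 1 1 1 [.n, .g 4 1 0 0, .n, .n, .n,
  .n, .n, .n]) (.L 371)) (.L 53)) (.L 53)) (.G 648 53 3 2 4 1 1 [.n, .n, .g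
  32 21 0 0, .n, .n])) (.G 250 1328 5 11 6 3 3 [.g 64 57 0 0, .g 16 11 0 0,
  .n, .n, .n])) (.C 0 1 1 1 (.C 0 2 1 2 (.C 0 2 2 1 (.B 2 1 2 (.C 0 3 1 2
  (.G 243 1 5 1 2 4 2 [.n, .n, .g 2 1229 0 0, .g 2 1303 0 0, .n, .n]) (.G 79
  1 1 99934 99934 199869 24984 [.g 32 29 0 0, .g 64 33 0 0, .n, .n, .n]))
  (.C 0 3 1 2 (.L 1) (.C 2 3 1 8 (.L 1) (.G 1 443 5 225 225 898 56 [.n, .g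
  64 31 0 0, .n, .n, .g 64 1 0 0, .n])))) (.C 2 3 1 4 (.B 0 1 4 (.G 276 1024
  1 1 1 1 1 [.n, .n, .n, .n, .n, .g 31 32 0 0, .n, .n]) (.L 276)) (.B 2 1 2
  (.C 1 3 1 4 (.G 1 173 5 88 44 88 88 [.n, .g 24 65 0 0, .n, .n, .n, .n])
  (.C 0 1 1 1 (.G 782 776 2 3357673 6715346 3357673 419709 [.n, .n, .g 16 15
  0 0, .g 32 29 0 0, .n, .n, .n, .n, .n, .n]) (.L 127))) (.C 0 3 1 8 (.G 1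
  173 5 64 32 64 130 [.n, .g 32 27 0 0, .n, .n, .n, .n]) (.L 443))))) (.C 2
  3 1 1 (.L 276) (.C 1 3 1 4 (.L 276) (.C 1 3 1 8 (.G 315 173 5 1 1 1 1 [.g
  64 9 0 0, .n, .n, .n, .g 11 64 0 0, .g 10 63 0 0]) (.B 2 1 2 (.L 776) (.G
  211 360 1 2097152 8388607 1048576 524288 [.g 8 5 0 0, .n, .g 1 50 0 0, .g
  1 52 0 0, .n, .n, .n, .n])))))) (.C 2 3 1 1 (.L 276) (.G 198 173 5 1 1 1 1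
  [.n, .g 4096 1 0 0, .n, .n, .g 64 15 0 0, .g 64 29 0 0])))))) (.C 0 3 1 1
  (.L 276) (.C 2 3 2 1 (.L 276) (.C 1 3 1 2 (.L 276) (.B 1 1 4 (.G 549 52 0
  257 515 257 129 [.g 64 59 0 0, .n, .n, .n, .n, .n]) (.B 2 32 1 (.G 777 645
  5 57 114 57 29 [.g 32 7 0 0, .n, .n, .g 8 3 0 0, .g 32 7 0 0]) (.G 332 173
  5 6 12 6 3 [.n, .n, .n, .n, .g 64 27 0 0]))))))) (by decide +kernel)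

theorem EN3_c44 : CoN ENTab ⟨⟨7, 7, 16⟩, ⟨3, 4, 8⟩, ⟨1, 1, 2⟩, ⟨1, 0, 0, 0,
  0⟩, ⟨224, 38, 56, 4, 43⟩, ⟨100, 25, 25, 2, 23⟩, ⟨4, 1, 1, 0, 1⟩⟩ :=
CoN.ofG ENTab_B ENBt_E ENBt_U (.C 1 3 1 47 (.B 1 1 4 (.C 0 1 756 1 (.C 0 2
  384 1 (.B 0 1 2 (.C 1 2 1 2 (.C 1 3 1 1 (.C 1 3 2 1 (.C 0 3 6044 1 (.C 0 1
  1512 1 (.C 0 2 3048 1 (.B 2 1 1 (.C 0 3 12088 1 (.C 1 2 2 1 (.C 1 3 8 1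
  (.L 16) (.C 1 3 1 2 (.L 16) (.B 0 1 1 (.B 2 2 1 (.L 69) (.B 0 2 1 (.B 2 1
  2 (.L 2008) (.L 484)) (.L 1246))) (.L 16)))) (.C 2 3 4 1 (.L 29) (.B 2 2 1
  (.L 144) (.C 1 3 2 1 (.L 144) (.B 0 1 1 (.L 13) (.L 144)))))) (.L 48)) (.B
  0 2 1 (.L 286) (.C 0 3 12088 1 (.C 0 2 6096 1 (.C 0 1 3024 1 (.C 0 3 24176
  1 (.B 2 2 1 (.B 1 1 1 (.L 48) (.C 0 2 12192 1 (.C 0 1 6048 1 (.C 0 3 48352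
  1 (.B 1 1 2 (.L 523) (.L 484)) (.L 523)) (.L 523)) (.L 523))) (.L 59)) (.L
  59)) (.L 59)) (.L 59)) (.L 59)))) (.G 530 111 1 1153 576 576 2306 [.g 32
  21 0 0, .n, .n, .n])) (.G 734 708 1 1831 916 1831 7326 [.g 53 63 0 0, .g
  32 21 0 0, .n, .n, .n])) (.C 0 3 1 2 (.G 734 59 1 3025 378 756 6050 [.g 32
  23 0 0, .g 16 7 0 0, .n, .n, .n]) (.B 2 1 1 (.G 276 1086 1 1 1 1 1 [.n,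
  .n, .n, .n, .n, .g 32 11 0 0, .n, .n]) (.G 1194 1229 0 2750 172 344 688
  [.n, .n, .g 64 43 0 0, .n, .n])))) (.B 0 2 1 (.L 6) (.B 0 1 2 (.L 6) (.L
  265)))) (.L 6)) (.L 6)) (.C 0 3 1508 1 (.C 0 2 768 1 (.C 0 1 1512 1 (.B 1
  2 1 (.C 1 2 1 2 (.C 1 3 1 1 (.B 2 1 1 (.L 200) (.L 98)) (.L 1)) (.B 2 1 1
  (.L 1) (.G 98 1 5 1 6096 1536 3016 [.n, .n, .n, .n, .n, .n, .g 1 210864 0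
  0, .g 1 228892 0 0]))) (.C 0 3 3016 1 (.B 1 1 2 (.C 0 3 6032 1 (.C 0 1
  3024 1 (.C 0 2 1536 1 (.B 0 1 1 (.B 2 1 2 (.L 1) (.L 48)) (.C 1 3 2 1 (.C
  1 2 1 2 (.L 16) (.L 1)) (.L 1))) (.L 48)) (.L 48)) (.L 48)) (.C 0 1 3024 1
  (.B 1 1 4 (.C 0 2 1536 1 (.B 0 2 1 (.B 2 1 4 (.L 1) (.L 473)) (.L 1)) (.L
  176)) (.C 1 2 1 4 (.B 1 1 8 (.L 1) (.C 0 2 12192 1 (.B 1 1 16 (.L 1) (.C 1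
  2 4 1 (.L 69) (.C 0 3 6032 1 (.C 0 1 48576 1 (.C 1 2 1 4 (.L 27) (.L
  1079)) (.L 1)) (.L 1)))) (.L 1))) (.L 6))) (.L 1))) (.L 51))) (.G 1 16 1
  124945 62473 62473 124945 [.n, .n, .g 64 1 0 0, .n, .n, .n])) (.G 200 1 2
  79840 79840 39920 157185 [.g 2 59 0 0, .g 2 59 0 0, .n, .n])) (.C 1 3 1 1
  (.G 276 1 2 63 32 16 63 [.n, .n, .n, .n, .g 2 5 0 0, .g 3 31 0 0, .n, .n])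
  (.B 0 1 4 (.L 1) (.G 891 6 2 63 63 16 31 [.n, .g 38 63 0 0, .n, .n, .g 1
  72 0 0, .g 1 74 0 0, .n, .g 1 128 0 0]))))) (.B 0 1 2 (.C 1 2 1 4 (.C 1 3
  1 1 (.C 0 1 2 1 (.L 6) (.C 0 1 1 2 (.G 173 427 2 21 43 21 21 [.g 32 1 0 0,
  .n, .n, .n, .n, .g 64 31 0 0]) (.B 0 2 1 (.B 2 1 1 (.G 243 173 2 1 1 1 1
  [.n, .n, .g 33 64 0 0, .g 31 64 0 0, .g 11 16 0 0, .g 21 32 0 0]) (.L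
  286)) (.G 173 1 5 4 1 2 2 [.n, .n, .g 1 83 0 0, .n, .n, .n])))) (.L 6))
  (.G 332 6 1 111656 443137 55828 219824 [.n, .n, .n, .g 16 3 0 0, .g 64 17
  0 0])) (.C 1 2 1 4 (.B 0 1 4 (.G 276 1 2 16 32 64 31 [.n, .n, .n, .n, .g
  13 63 0 0, .g 3 31 0 0, .n, .n]) (.B 1 2 1 (.L 198) (.G 1 276 5 16 32 64
  31 [.n, .n, .g 64 5 0 0, .n, .n, .n]))) (.C 0 2 1 2 (.G 198 1 4 16 64 32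
  31 [.n, .n, .n, .n, .g 2 55 0 0, .g 2 67 0 0]) (.B 1 2 1 (.B 0 1 4 (.C 0 2
  1 4 (.L 1) (.C 1 2 1 8 (.L 1) (.L 187))) (.L 198)) (.C 2 3 4 1 (.G 1 79 1
  282560 560705 70640 560705 [.n, .g 21 64 0 0, .n, .n, .g 64 3 0 0, .n])
  (.L 1))))))) (.C 0 2 1 4 (.B 0 1 2 (.B 2 1 1 (.C 1 3 2 1 (.G 276 173 2 1 1
  1 1 [.n, .n, .n, .n, .n, .g 64 1 0 0, .n, .n]) (.C 0 3 1 1 (.G 276 173 2 1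
  1 1 1 [.n, .n, .n, .n, .n, .g 64 1 0 0, .n, .n]) (.L 6))) (.B 0 2 1 (.L
  286) (.C 0 3 1 1 (.L 364) (.C 1 3 2 1 (.L 364) (.L 6))))) (.B 0 1 4 (.G 1
  41 1 276513 138257 561667 276513 [.n, .g 15 16 0 0, .g 256 6 0 1, .n, .g
  64 1 0 0, .n]) (.G 315 276 5 1 1 1 1 [.g 16 1 0 0, .g 64 11 0 0, .n, .n,
  .g 4 65 0 0, .g 5 62 0 0]))) (.B 0 1 2 (.C 2 3 4 1 (.C 1 2 1 2 (.G 173 215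
  2 65 16 32 64 [.g 32 1 0 0, .n, .n, .n, .g 19 63 0 0, .g 5 32 0 0]) (.G
  777 332 2 884179 445571 111393 884179 [.g 64 0 0 15, .n, .g 16 5 0 0, .n,
  .n])) (.C 1 2 4 1 (.C 1 3 2 1 (.B 2 1 1 (.L 173) (.G 2562 678 0 65 16 128
  64 [.n, .n, .n, .n, .n, .n, .n, .n, .n, .g 33 65 0 0])) (.L 6)) (.L 6)))
  (.C 0 2 1 8 (.C 1 3 2 1 (.G 315 173 5 1 1 1 1 [.n, .g 64 1 0 0, .n, .n, .g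
  22 63 0 0, .g 23 64 0 0]) (.C 0 2 2 1 (.C 0 1 1 1 (.G 315 6 2 16 32 65 8
  [.n, .n, .n, .n, .g 1 21 0 0, .g 1 37 0 0]) (.L 315)) (.L 315))) (.G 315
  1946 0 1 1 1 1 [.n, .g 64 5 0 0, .n, .n, .n, .n]))))) (.C 1 2 1 2 (.B 1 1
  8 (.B 0 1 1 (.L 286) (.C 0 1 756 1 (.C 0 2 1524 1 (.C 1 3 1 1 (.C 0 3 3020
  1 (.C 0 2 3048 1 (.C 0 1 1512 1 (.C 1 2 2 1 (.B 1 2 1 (.B 0 1 2 (.G 1602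
  1029 7 1 1 1 1 [.n, .g 64 1 0 0, .n, .n, .n, .n, .n, .n]) (.C 1 3 2 1 (.C
  1 3 4 1 (.L 16) (.L 69)) (.L 1246))) (.G 1029 688 0 1 1 1 1 [.n, .g 64 13
  0 0, .n, .n, .n, .n, .n, .n])) (.L 82)) (.L 708)) (.L 708)) (.C 1 3 2 1
  (.L 59) (.L 13))) (.L 13)) (.C 1 2 1 1 (.C 1 3 1 1 (.G 276 173 2 1 1 1 1
  [.n, .n, .n, .n, .n, .g 64 1 0 0, .n, .n]) (.G 6 484 0 197666 197666
  197666 98833 [.n, .n, .g 256 7 0 0, .n, .n, .n])) (.G 6 23 0 376626 376626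
  188313 188313 [.n, .g 5 13 0 0, .g 32 1 0 0, .n, .n, .n]))) (.C 0 3 1 1
  (.L 276) (.G 3330 484 0 48 12 24 24 [.n, .g 32 5 0 0, .g 29 32 0 0, .g 53
  64 0 0, .n, .n])))) (.L 286)) (.C 2 3 4 1 (.C 0 2 384 1 (.C 1 2 1 2 (.L
  215) (.C 2 3 4 1 (.L 6) (.L 215))) (.B 1 1 8 (.C 0 2 1 2 (.B 0 1 1 (.G 777
  250 1 183845 367691 367691 723891 [.g 32 0 0 7, .n, .n, .g 61 65 0 0, .n])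
  (.G 332 6 1 148192 296385 296385 583508 [.n, .n, .n, .g 64 7 0 0, .g 32 17
  0 0])) (.G 777 332 2 345677 345677 86419 685954 [.g 8 0 0 3, .n, .n, .g 16
  13 0 0, .n])) (.G 3302 777 0 171469 342938 85734 680517 [.g 64 17 0 0, .n,
  .n, .g 64 31 0 0]))) (.C 1 3 1 1 (.L 29) (.C 2 3 1 2 (.L 29) (.L 6))))))
  (.C 2 3 1 24 (.B 1 1 4 (.B 0 1 2 (.C 1 2 1 4 (.C 1 3 1 2 (.C 1 3 2 1 (.L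
  6) (.C 1 3 1 2 (.L 6) (.C 1 3 1 4 (.L 6) (.L 29)))) (.L 29)) (.C 0 2 384 1
  (.C 2 3 1 1 (.C 1 2 1 4 (.L 215) (.C 0 1 6116 1 (.L 314) (.C 1 3 1 4 (.L
  6) (.C 0 1 1 1 (.L 11) (.B 0 2 1 (.B 2 1 1 (.B 2 2 1 (.B 1 1 4 (.L 379)
  (.B 2 4 1 (.B 1 1 8 (.L 31) (.L 1)) (.L 31))) (.L 379)) (.L 2504)) (.B 0 1
  2 (.B 2 4 1 (.C 1 2 1 16 (.B 2 8 1 (.G 4 4038 2 560345 281271 562543 35159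
  [.n, .n, .n, .n, .n, .g 1024 1 0 0]) (.L 31)) (.L 258)) (.L 31)) (.G 1 11
  0 683986 341993 21458 42917 [.n, .n, .n, .n, .n, .g 1024 1 0 0]))))))) (.L
  215)) (.C 0 2 1 2 (.C 0 1 4 1 (.B 0 2 1 (.B 2 1 1 (.B 1 1 4 (.L 1816) (.B
  2 2 1 (.G 1 1969 3 39748 315498 79496 39748 [.n, .n, .n, .n, .n, .g 1024 3
  0 0]) (.L 180))) (.L 368)) (.G 135 1 5 76882 610249 153764 76882 [.g 1 428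
  0 0, .n, .n, .n, .g 1 324 0 0])) (.L 79)) (.L 946)))) (.C 0 2 384 1 (.C 0
  3 768 1 (.C 0 1 1508 1 (.C 0 2 768 1 (.C 0 1 3016 1 (.C 0 3 1536 1 (.B 1 2
  1 (.B 2 1 1 (.L 1) (.L 48)) (.B 1 1 2 (.B 2 1 2 (.L 1) (.B 0 1 1 (.L 48)
  (.L 1))) (.B 1 1 4 (.B 0 2 1 (.B 2 1 4 (.L 1) (.L 473)) (.L 1)) (.C 0 1
  6032 1 (.C 1 2 1 8 (.C 1 3 1 4 (.B 1 1 8 (.B 0 4 1 (.B 2 1 8 (.C 0 1 12064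
  1 (.C 1 2 1 1 (.C 1 3 1 1 (.L 1) (.L 23)) (.L 799)) (.L 1)) (.L 906)) (.L
  1)) (.C 1 3 2 1 (.L 13) (.L 799))) (.L 31)) (.L 31)) (.G 1311 1 5 126 63
  16 32 [.n, .n, .n, .n, .g 1 52014 0 0, .g 1 53592 0 0, .n, .n]))))) (.G 1
  51 0 32 63 16 16 [.n, .n, .n, .n, .n, .g 128 1 0 0])) (.L 1)) (.L 1)) (.G
  907 1 4 63 31 16 32 [.g 13 16 0 0, .g 4 13 0 0, .n, .n, .g 1 63 0 0, .g 1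
  70 0 0])) (.G 198 1 4 32 31 16 16 [.n, .n, .n, .n, .g 2 63 0 0, .g 2 75 0
  0])) (.B 1 2 1 (.B 0 1 4 (.C 0 2 1 2 (.L 1) (.C 0 2 1 4 (.L 1) (.L 315)))
  (.L 198)) (.C 1 2 1 4 (.L 1) (.C 0 2 1 2 (.L 1) (.G 54 345 1 233348 463050
  58337 116674 [.n, .n, .g 39 64 0 0, .n])))))) (.C 1 2 1 4 (.C 1 3 1 2 (.B
  1 1 8 (.B 0 1 1 (.L 93) (.C 0 2 3044 1 (.C 0 1 1508 1 (.B 0 1 2 (.L 1114)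
  (.C 1 2 2 1 (.C 0 3 3044 1 (.L 27) (.G 1000 13 5 4821 2410 9641 2410 [.n,
  .g 7 61 0 0, .n, .n])) (.L 29))) (.L 1950)) (.L 1950))) (.L 93)) (.L 29))
  (.B 1 1 8 (.C 0 2 384 1 (.C 2 3 1 1 (.C 0 1 3044 1 (.C 1 3 1 4 (.L 6) (.L
  258)) (.B 0 1 1 (.L 642) (.C 2 3 2 1 (.L 6) (.B 1 2 1 (.C 0 2 1 2 (.L 165)
  (.B 0 1 2 (.L 180) (.G 134 1 5 5731097 1444056 1444056 722028 [.n, .n, .g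
  1 7423 0 0, .g 1 7904 0 0, .n, .n]))) (.L 134))))) (.L 215)) (.C 0 2 1 2
  (.B 0 1 1 (.L 234) (.B 1 2 1 (.G 1969 1 5 192702 758762 385403 192702 [.n,
  .n, .n, .g 1 346 0 0]) (.L 53))) (.L 946))) (.L 332)))) (.B 1 1 4 (.B 0 1
  2 (.C 1 3 1 94 (.C 0 2 768 1 (.C 1 2 1 1 (.B 0 2 1 (.B 2 1 1 (.C 0 1 1508
  1 (.L 27) (.L 123)) (.L 1826)) (.C 0 1 1508 1 (.L 27) (.L 123))) (.B 0 2 1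
  (.B 2 1 1 (.B 2 2 1 (.B 1 1 4 (.L 368) (.C 1 2 1 2 (.C 2 3 1 2 (.B 2 4 1
  (.B 1 1 8 (.L 23) (.C 1 2 2 1 (.L 265) (.C 0 3 12140 1 (.C 1 3 2 1 (.L 29)
  (.L 31)) (.L 736)))) (.L 23)) (.L 27)) (.C 2 3 2 1 (.L 31) (.C 0 3 3012 1
  (.L 31) (.G 1101 135 4 77 77 77 39 [.n, .n, .n, .n, .n, .n, .g 5 32 0 0,
  .n]))))) (.L 368)) (.L 93)) (.C 1 2 1 2 (.C 2 3 1 2 (.C 2 3 2 1 (.C 1 2 2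
  1 (.C 1 3 8 1 (.B 0 1 2 (.L 220) (.L 265)) (.L 1000)) (.L 29)) (.C 0 2
  24372 1 (.L 27) (.G 265 1000 1 5632314 352020 2816157 1408078 [.n, .g 5 58
  0 0, .n, .n, .g 1 247 0 0, .n, .n, .n]))) (.L 27)) (.C 2 3 2 1 (.L 11) (.C
  0 3 3012 1 (.L 11) (.C 0 3 1 2 (.L 11) (.C 0 1 1 2 (.G 27 1796 2 4161790
  8388607 2080895 1040447 [.n, .n, .n, .n, .g 1 140 0 0, .g 1 146 0 0]) (.C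
  1 3 1 2 (.C 2 3 2 1 (.L 11) (.B 0 1 2 (.B 2 4 1 (.G 574 135 4 736 184 736
  368 [.g 64 1 0 0, .n, .n, .n, .n, .n, .n, .g 5 9 0 0, .n, .n]) (.L 31))
  (.G 11 1 5 984917 246229 984917 492458 [.g 1 269 0 0, .n, .n, .n]))) (.G
  574 1796 2 1553 770 385 193 [.g 64 9 0 0, .n, .n, .n, .n, .n, .n, .g 2 5 0
  0, .n, .n]))))))))) (.B 0 2 1 (.B 2 1 1 (.C 0 1 1 1 (.B 2 2 1 (.B 1 1 4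
  (.L 23) (.G 736 1000 1 32 63 16 63 [.g 7 61 0 0, .n, .n, .n, .n, .n, .g 2
  71 0 0, .g 1 55 0 0])) (.L 23)) (.G 3330 23 0 63 31 16 63 [.g 8 1 0 0, .n,
  .g 51 64 0 0, .g 43 63 0 0, .n, .n])) (.L 93)) (.G 883 4 5 106993 103649
  53496 210642 [.g 1 261 0 0, .n, .n, .n, .g 1 391 0 0]))) (.B 0 2 1 (.B 2 1
  1 (.C 2 3 1 48 (.L 482) (.C 1 3 1 188 (.L 482) (.L 368))) (.L 269)) (.C 2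
  3 1 48 (.L 338) (.C 1 3 1 188 (.L 338) (.L 368))))) (.B 1 2 1 (.B 0 1 4
  (.B 2 1 1 (.L 1) (.B 0 2 1 (.B 2 1 2 (.L 1) (.B 0 4 1 (.C 0 1 1508 1 (.C 0
  2 768 1 (.C 1 3 1 189 (.G 633 4 5 1 3016 1536 6040 [.n, .n, .n, .n, .n,
  .n, .g 1 8008203 0 0, .g 1 8315370 0 0, .n, .n]) (.L 31)) (.G 1 658 3
  28584 56126 14292 298 [.n, .n, .n, .n, .n, .g 512 1 0 0])) (.G 4 506 3 754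
  377 192 4 [.n, .n, .n, .n, .n, .g 131072 1 0 0])) (.L 1))) (.L 1))) (.B 0
  1 8 (.L 1) (.B 1 4 1 (.G 198 986 1 1 1 1 1 [.g 4 1 0 0, .n, .n, .n, .n,
  .n]) (.L 1)))) (.B 1 1 2 (.B 2 1 2 (.L 1) (.B 0 1 1 (.B 0 2 1 (.B 2 1 4
  (.C 1 3 1 94 (.L 1) (.C 1 3 1 188 (.L 1) (.C 0 2 768 1 (.L 31) (.L
  1154)))) (.C 2 3 1 48 (.C 0 2 768 1 (.C 0 1 1508 1 (.C 0 3 1536 1 (.L 51)
  (.L 1)) (.L 1)) (.L 1)) (.C 0 2 1536 1 (.C 0 1 1508 1 (.C 1 3 1 189 (.G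
  633 4 5 1 3016 3072 6040 [.n, .n, .n, .n, .n, .n, .g 1 8054879 0 0, .g 1
  8365460 0 0, .n, .n]) (.L 31)) (.G 574 4 5 754 377 768 4 [.n, .n, .n, .n,
  .n, .n, .g 1 13491 0 0, .g 1 16244 0 0, .n, .n])) (.G 1 11 0 89425 43898
  44713 466 [.n, .n, .n, .n, .n, .g 1024 1 0 0])))) (.L 1)) (.L 1))) (.C 1 3
  1 94 (.C 0 1 1508 1 (.C 0 1 3016 1 (.C 0 3 3012 1 (.C 0 2 768 1 (.C 0 3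
  6024 1 (.C 0 2 1536 1 (.C 0 2 3072 1 (.B 1 1 4 (.B 0 2 1 (.B 2 1 4 (.L 1)
  (.L 473)) (.L 1)) (.C 1 2 1 1 (.L 27) (.C 1 2 1 2 (.C 2 3 1 2 (.C 0 1
  12176 1 (.C 1 2 1 1 (.C 1 2 2 1 (.L 265) (.C 0 1 97520 1 (.L 799) (.G 106
  314 0 3740243 1870122 935061 935061 [.n, .n, .n, .n, .g 1 113 0 0, .g 1 84
  0 0]))) (.L 799)) (.G 799 1 5 44327 22163 44327 88654 [.n, .g 1 306 0 0,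
  .n, .n])) (.L 265)) (.L 31)))) (.C 0 2 1 2 (.B 2 2 1 (.C 0 1 1 1 (.G 111
  314 0 16 32 32 31 [.n, .n, .n, .n, .g 17 63 0 0, .g 1 4 0 0]) (.L 51)) (.L
  51)) (.L 51))) (.L 51)) (.L 51)) (.L 1)) (.L 1)) (.L 1)) (.L 1)) (.B 0 2 1
  (.B 2 2 1 (.C 0 3 16 1 (.C 0 1 3012 1 (.C 0 1 6024 1 (.C 1 2 1 16 (.L 11)
  (.C 0 2 768 1 (.L 31) (.L 1101))) (.L 574)) (.L 1101)) (.L 301)) (.C 0 3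
  16 1 (.C 0 2 768 1 (.C 1 3 1 94 (.C 0 1 3012 1 (.B 0 4 1 (.L 31) (.B 1 1 2
  (.L 1) (.L 31))) (.L 574)) (.L 31)) (.G 574 562 2 1 1 1 1 [.n, .n, .n, .n,
  .n, .n, .n, .n, .n, .g 64 33 0 0])) (.L 562))) (.B 1 1 4 (.L 1) (.C 0 2
  768 1 (.C 0 3 16 1 (.C 0 3 32 1 (.C 1 3 1 47 (.C 0 1 3012 1 (.B 2 8 1 (.L
  11) (.L 1)) (.L 3792)) (.L 31)) (.L 1101)) (.L 1101)) (.L 3792)))))))) (.B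
  1 1 8 (.B 0 1 1 (.L 93) (.C 1 3 1 94 (.C 0 2 768 1 (.C 1 2 1 1 (.C 1 3 2 1
  (.L 13) (.L 27)) (.B 1 2 1 (.B 0 1 2 (.L 368) (.C 0 1 3044 1 (.C 2 3 2 1
  (.L 11) (.C 2 3 1 2 (.L 11) (.L 27))) (.G 27 3792 3 3248 1650 825 1598
  [.n, .n, .n, .n, .g 64 29 0 0, .g 2 1 0 0]))) (.L 368))) (.G 3330 1000 1
  32 31 16 63 [.g 23 64 0 0, .g 5 33 0 0, .g 2 75 0 0, .g 1 38 0 0, .n,
  .n])) (.B 0 1 2 (.L 482) (.C 2 3 1 48 (.L 482) (.C 1 3 1 188 (.L 482) (.L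
  368)))))) (.L 93))))) (by decide +kernel)

theorem EN3_c45 : CoN ENTab ⟨⟨3, 3, 8⟩, ⟨3, 4, 8⟩, ⟨7, 7, 16⟩, ⟨1, 0, 0, 0,
  0⟩, ⟨8, 0, 2, 0, 1⟩, ⟨4, 1, 1, 1, 0⟩, ⟨8, 2, 2, 1, 1⟩⟩ :=
CoN.ofG ENTab_B ENBt_E ENBt_U (.C 1 2 3 4 (.C 0 3 24 1 (.C 1 2 5 1 (.C 0 1
  20 1 (.L 538) (.G 625 325 0 41182 20591 198186 48903 [.g 1024 9 0 0, .g 8
  1 0 0, .n, .n, .n, .n, .n, .n])) (.C 2 3 1 2 (.B 1 2 1 (.L 552) (.L 320))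
  (.L 325))) (.C 1 3 5 4 (.G 1592 1255 1 842168 354597 1772984 3479482 [.g 1
  1 0 0, .n, .n, .n, .n, .n, .g 1 250 0 0, .g 1 269 0 0]) (.G 55 325 2
  221158 905364 463049 110579 [.n, .g 32 13 0 0, .n, .n]))) (.C 2 3 3 2 (.C
  1 2 1 6 (.C 0 1 100 1 (.C 1 3 1 2 (.C 1 2 1 1 (.C 1 2 2 1 (.L 279) (.L
  126)) (.B 2 1 2 (.C 1 2 1 2 (.L 126) (.L 637)) (.L 126))) (.C 0 3 96 1 (.C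
  0 2 196 1 (.B 2 1 2 (.C 2 3 1 2 (.L 637) (.C 1 3 1 2 (.L 637) (.C 1 3 1 4
  (.L 637) (.B 0 1 4 (.B 2 2 1 (.C 0 3 192 1 (.L 637) (.L 3601)) (.L 100))
  (.C 0 3 192 1 (.L 637) (.L 2480)))))) (.C 1 3 1 2 (.L 126) (.B 0 1 1 (.L
  100) (.C 2 3 1 2 (.L 1748) (.B 1 4 1 (.L 98) (.L 100)))))) (.G 840 126 1
  87523 87523 42435 42435 [.n, .n, .g 25 32 0 0, .n])) (.G 100 189 0 45102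
  91613 46511 22551 [.n, .n, .g 1 130 0 0, .n]))) (.G 1017 577 0 152093
  78351 152093 73742 [.n, .n, .n, .g 1 963 0 0, .n])) (.C 2 3 6 1 (.C 1 2 1
  12 (.C 1 2 2 1 (.C 1 2 4 1 (.L 875) (.L 760)) (.L 547)) (.C 0 3 192 1 (.B
  0 1 1 (.B 2 1 2 (.B 1 1 1 (.L 100) (.G 1492 528 1 1 1 1 1 [.n, .g 64 39 0
  0, .n, .n, .n, .n])) (.L 761)) (.C 1 2 1 24 (.C 1 2 2 1 (.L 547) (.L
  3888)) (.L 745))) (.C 2 3 12 1 (.L 2306) (.G 8032 840 2 130920 130920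
  130920 65460 [.g 29 32 0 0, .n, .n, .g 64 41 0 0])))) (.C 1 3 1 2 (.L 875)
  (.C 2 3 1 2 (.L 875) (.C 0 1 388 1 (.C 0 3 96 1 (.B 0 1 1 (.C 0 2 384 1
  (.B 2 1 2 (.B 2 2 1 (.B 1 1 1 (.L 1818) (.L 932)) (.L 100)) (.L 212)) (.G
  100 1580 0 177899 180678 88949 44475 [.n, .n, .g 4 57 0 0, .n])) (.C 0 2
  384 1 (.B 0 1 2 (.C 0 3 192 1 (.B 2 1 1 (.B 1 1 2 (.L 59) (.G 932 111 1 1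
  1 1 1 [.g 32 19 0 0, .n, .n, .n, .n, .n])) (.L 59)) (.L 3601)) (.B 2 2 1
  (.C 1 2 1 1 (.L 637) (.L 2480)) (.L 48))) (.G 100 1580 0 177899 180678
  88949 44475 [.n, .n, .g 2 21 0 0, .n]))) (.G 189 840 2 42939 173099 85878
  21470 [.g 256 1 0 0, .n, .n, .n, .n, .n])) (.G 212 189 0 173099 87220
  85878 21470 [.n, .n, .g 1 311 0 0])))))) (.C 0 3 24 1 (.C 0 2 96 1 (.C 1 2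
  2 1 (.C 0 3 48 1 (.C 2 3 1 4 (.L 320) (.C 2 3 1 8 (.L 320) (.C 1 3 1 1 (.L
  320) (.C 1 3 1 2 (.L 552) (.L 325))))) (.G 55 577 1 47690 49181 195233
  23845 [.n, .g 2 305 0 0, .n, .n])) (.C 2 3 1 4 (.C 1 2 1 2 (.L 126) (.C 0
  3 384 1 (.C 0 2 192 1 (.B 2 1 2 (.C 2 3 2 1 (.L 279) (.L 320)) (.L 320))
  (.L 320)) (.L 100))) (.L 126))) (.G 320 5984 0 1937793 999174 968896
  484448 [.n, .g 27 32 0 0, .n, .n, .g 1 233 0 0, .g 1 212 0 0, .n, .n]))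
  (.G 119 552 1 186597 390688 373195 93299 [.n, .g 9 16 0 0, .n, .n]))))
  (by decide +kernel)

theorem EN3_c46 : CoN ENTab ⟨⟨3, 3, 8⟩, ⟨3, 4, 8⟩, ⟨7, 7, 16⟩, ⟨1, 0, 0, 0,
  0⟩, ⟨8, 0, 2, 0, 1⟩, ⟨8, 2, 2, 1, 1⟩, ⟨28, 7, 7, 2, 5⟩⟩ :=
CoN.ofG ENTab_B ENBt_E ENBt_U (.C 1 3 5 1 (.C 0 2 24 1 (.B 1 2 1 (.C 0 3 196
  1 (.C 1 2 5 2 (.L 912) (.C 2 3 8 1 (.B 0 1 1 (.L 538) (.L 351)) (.L 912)))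
  (.G 912 614 0 5877 299 711 2939 [.n, .g 16 7 0 0, .n, .n, .n, .n])) (.C 1
  3 10 1 (.L 625) (.C 0 3 196 1 (.L 538) (.L 1592)))) (.G 614 625 1 1267 534
  634 5237 [.g 13 16 0 0, .n, .n, .n, .n, .n])) (.C 0 3 96 1 (.C 2 3 8 1 (.C
  1 2 1 8 (.C 0 2 388 1 (.B 1 2 1 (.B 0 1 1 (.L 912) (.L 614)) (.L 1592))
  (.L 81)) (.C 0 1 388 1 (.C 0 2 24 1 (.B 1 2 1 (.B 0 1 1 (.C 1 2 1 16 (.L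
  351) (.B 2 1 4 (.L 351) (.L 55))) (.L 351)) (.C 0 3 384 1 (.L 538) (.L
  912))) (.G 912 55 1 13531 218607 6765 108246 [.n, .g 64 3 0 0, .n, .n, .n,
  .n])) (.L 81))) (.C 2 3 1 2 (.B 1 2 1 (.B 0 1 1 (.L 912) (.L 614)) (.L
  1592)) (.C 2 3 1 4 (.C 0 2 768 1 (.L 456) (.L 219)) (.L 456)))) (.G 81 272
  1 187125 191510 23391 93562 [.n, .g 64 33 0 0, .n, .n])))
  (by decide +kernel)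

theorem EN3_c47 : CoN ENTab ⟨⟨3, 3, 8⟩, ⟨3, 4, 8⟩, ⟨7, 7, 16⟩, ⟨1, 0, 0, 0,
  0⟩, ⟨8, 0, 2, 0, 1⟩, ⟨28, 7, 7, 2, 5⟩, ⟨52, 13, 13, 2, 11⟩⟩ :=
CoN.ofG ENTab_B ENBt_E ENBt_U (.C 2 3 2 1 (.C 2 3 4 1 (.C 1 2 5 1 (.C 1 2 10
  1 (.L 1344) (.C 2 3 4 1 (.C 1 2 1 2 (.L 1344) (.C 0 3 1552 1 (.B 1 2 1 (.L
  614) (.C 0 2 196 1 (.C 1 3 4 1 (.L 1592) (.L 147)) (.L 216))) (.L 456)))
  (.L 1344))) (.C 0 2 96 1 (.C 0 3 768 1 (.C 0 1 196 1 (.B 0 1 1 (.L 196)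
  (.B 1 2 1 (.C 1 3 4 1 (.G 98 456 0 1 392 192 3104 [.n, .g 1 98 0 0, .n,
  .n, .n, .n, .g 1 54134 0 0, .g 1 62650 0 0]) (.L 385)) (.C 0 1 392 1 (.L
  147) (.L 196)))) (.L 456)) (.L 216)) (.G 219 272 1 622263 641709 311132
  2489053 [.g 32 1 0 0, .n, .n, .n, .n, .n, .n, .n]))) (.L 1344)) (.L 502))
  (by decide +kernel)

theorem EN3_c48 : CoN ENTab ⟨⟨3, 3, 8⟩, ⟨3, 4, 8⟩, ⟨7, 7, 16⟩, ⟨1, 0, 0, 0,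
  0⟩, ⟨8, 0, 2, 0, 1⟩, ⟨52, 13, 13, 2, 11⟩, ⟨40, 4, 10, 0, 7⟩⟩ :=
  CoN.ofG ENTab_B ENBt_E ENBt_U (.L 502) (by decide +kernel)

theorem EN3_c49 : CoN ENTab ⟨⟨3, 3, 8⟩, ⟨3, 4, 8⟩, ⟨7, 7, 16⟩, ⟨1, 0, 0, 0,
  0⟩, ⟨40, 4, 10, 0, 7⟩, ⟨224, 38, 56, 4, 43⟩, ⟨412, 85, 103, 4, 90⟩⟩ :=
CoN.ofG ENTab_B ENBt_E ENBt_U (.B 0 1 1 (.C 2 3 2 1 (.C 0 3 3020 1 (.C 2 3 8
  1 (.L 1481) (.C 0 3 6040 1 (.C 1 3 97 1 (.L 1481) (.C 1 3 1 2 (.L 298) (.C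
  2 3 1 1 (.L 298) (.C 0 1 48268 1 (.B 1 1 1 (.C 0 2 24168 1 (.G 932 59 1 1
  1 1 1 [.g 34 65 0 0, .n, .n, .n, .n, .n]) (.G 6 479 0 342691 685383 171346
  85673 [.n, .n, .g 256 11 0 0, .n, .g 32 1 0 0, .n])) (.G 932 1655 0 1
  96536 24168 12080 [.n, .n, .g 1 4380 0 0, .g 1 4640 0 0, .n, .n])) (.B 1 1
  1 (.G 6 479 0 685383 342691 171346 85673 [.n, .n, .g 256 11 0 0, .n, .g 32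
  1 0 0, .n]) (.G 1399 6 4 396833 198417 99208 49604 [.n, .n, .n, .g 2 75 0
  0])))))) (.C 0 1 1 97 (.B 0 2 1 (.G 6 1399 3 363882 727765 363882 181941
  [.n, .n, .g 512 11 0 0, .n, .g 32 1 0 0, .n]) (.B 2 2 1 (.C 0 2 1 1 (.C 0
  1 2 1 (.G 708 1965 1 1 1 1 1 [.n, .g 64 3 0 0, .n, .n, .n, .n, .n, .n])
  (.L 407)) (.L 407)) (.B 0 1 2 (.G 6 16 1 808870 1617741 808870 404435 [.n,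
  .n, .g 256 5 0 0, .n, .g 256 9 0 0, .n]) (.G 971 407 0 1 1 1 1 [.n, .g 3 8
  0 0, .n, .n, .g 3 55 0 0, .n])))) (.C 1 3 49 1 (.L 1481) (.C 2 3 1 2 (.G
  3586 1730 0 1149939 574970 574970 1149939 [.g 23 64 0 0, .n, .n, .n]) (.C
  1 3 1 2 (.G 3586 298 2 1149939 574970 1149939 1149939 [.g 5 22 0 0, .n,
  .n, .n]) (.B 0 2 1 (.G 6 1399 3 727765 727765 727765 181941 [.n, .n, .g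
  512 11 0 0, .n, .g 32 1 0 0, .n]) (.G 971 407 0 1 1 1 1 [.n, .g 17 64 0 0,
  .n, .n, .g 1 30 0 0, .n])))))))) (.B 0 2 1 (.B 1 1 2 (.G 6 1730 0 163276
  3354 20541 81743 [.n, .n, .g 128 3 0 0, .n, .g 32 1 0 0, .n]) (.L 1737))
  (.C 0 2 1 8 (.C 0 1 1 49 (.C 0 3 1 2 (.G 6 407 0 238 475 475 475 [.n, .n,
  .g 32 11 0 0, .n, .g 16 9 0 0, .n]) (.G 555 407 1 1 1 1 1 [.n, .n, .g 1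
  113 0 0, .n, .n, .g 1 18 0 0])) (.G 811 555 2 1 1 1 1 [.g 256 1 0 0, .n,
  .n, .n, .n, .n])) (.G 1908 16 1 780 8 49 195 [.n, .n, .n, .g 7 60 0 0, .n,
  .n])))) (.C 1 3 12 1 (.C 0 1 124 1 (.B 0 2 1 (.B 1 1 2 (.C 1 2 12 1 (.C 0
  1 248 1 (.C 0 1 496 1 (.C 1 3 3 1 (.C 1 2 6 1 (.C 1 3 6 1 (.G 1652 298 2 1
  992 11948 11924 [.n, .n, .g 1 5565 0 0, .g 1 5747 0 0, .n, .n]) (.L 13))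
  (.L 13)) (.L 13)) (.G 6 479 0 19497 9748 117589 59099 [.n, .n, .g 32 1 0
  0, .n, .g 256 9 0 0, .n])) (.G 6 479 0 9723 4862 117589 58643 [.n, .n, .g
  32 1 0 0, .n, .g 256 9 0 0, .n])) (.L 6)) (.L 1737)) (.C 0 2 3020 1 (.B 2
  2 1 (.C 0 3 2996 1 (.G 708 2577 1 1 1 1 1 [.n, .g 64 3 0 0, .n, .n, .n,
  .n, .n, .n]) (.G 555 407 1 1 1 1 1 [.n, .n, .g 1 62 0 0, .n, .n, .g 1 43 0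
  0])) (.B 0 1 2 (.C 0 3 2996 1 (.C 0 1 248 1 (.C 0 3 5992 1 (.C 0 2 6040 1
  (.L 59) (.G 478 971 0 1 1 1 1 [.n, .n, .n, .n, .n, .n, .g 1 241 0 0, .g 1
  258 0 0])) (.G 932 971 0 1 1 1 1 [.n, .n, .g 1 467 0 0, .g 1 489 0 0, .n,
  .n])) (.G 971 41 1 65 33 794 788 [.g 61 64 0 0, .n, .n, .n, .n, .n])) (.G
  6 41 1 179773 7432 181166 89654 [.n, .n, .g 32 1 0 0, .n, .g 1024 39 0 0,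
  .n])) (.B 1 4 1 (.B 0 1 4 (.C 0 1 248 1 (.C 0 1 496 1 (.C 0 3 2996 1 (.L
  708) (.G 13 773 1 70652 11654 70652 34962 [.n, .n, .n, .g 32 1 0 0, .g 64
  3 0 0, .n])) (.G 6 773 1 11190 5595 68189 33920 [.n, .n, .g 32 1 0 0, .n,
  .g 64 3 0 0, .n])) (.G 1396 407 1 2813 1406 34280 16964 [.n, .n, .g 16 7 0
  0, .g 64 27 0 0, .n, .n, .n, .n])) (.C 0 1 248 1 (.C 0 1 496 1 (.C 0 3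
  2996 1 (.L 708) (.G 6 41 1 53079 8755 53079 26266 [.n, .n, .g 32 1 0 0,
  .n, .g 64 3 0 0, .n])) (.C 0 2 6 1 (.L 385) (.G 1396 407 1 48044 1986
  24208 12042 [.n, .n, .g 16 9 0 0, .g 64 35 0 0, .n, .n, .n, .n]))) (.C 0 2
  12 1 (.L 385) (.G 1396 407 1 92223 1906 46469 22996 [.n, .n, .g 32 11 0 0,
  .g 32 11 0 0, .n, .n, .n, .n])))) (.C 0 3 2996 1 (.L 932) (.G 6 407 1 387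
  16 390 193 [.n, .n, .g 8 1 0 0, .n, .g 64 11 0 0, .n]))))) (.B 2 2 1 (.G
  555 407 1 1 1 1 1 [.n, .n, .g 1 62 0 0, .n, .n, .g 1 43 0 0]) (.G 6 41 1
  183661 7535 91830 90889 [.n, .n, .g 32 1 0 0, .n, .g 1024 39 0 0, .n]))))
  (.B 2 1 2 (.C 0 1 1 2 (.B 0 1 2 (.B 1 1 4 (.C 0 2 12 1 (.G 555 3068 0 16
  32 387 193 [.g 64 9 0 0, .n, .g 1 7 0 0, .n, .n, .n]) (.G 555 1780 5 1 1 1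
  1 [.n, .n, .g 16 9 0 0, .n, .n, .n])) (.L 1737)) (.G 407 1908 3 1 1 1 1
  [.n, .g 64 1 0 0, .n, .n, .n, .n])) (.G 1780 811 0 1 1 1 1 [.n, .g 3 32 0
  0, .n, .n, .n, .n])) (.B 0 2 1 (.C 0 1 1 2 (.C 0 2 12 1 (.G 6 1399 3 4907
  9814 118692 59193 [.n, .n, .g 512 11 0 0, .n, .g 256 9 0 0, .n]) (.C 1 2 6
  1 (.G 6 1399 3 118692 9840 118692 59653 [.n, .n, .g 512 11 0 0, .n, .g 256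
  9 0 0, .n]) (.L 6))) (.G 407 7008 0 123 31 749 743 [.g 23 32 0 0, .n, .n,
  .n, .n, .n])) (.G 555 41 1 32 16 390 387 [.g 64 11 0 0, .n, .g 5 67 0 0,
  .n, .n, .g 2 17 0 0])))) (.B 1 1 1 (.B 0 2 1 (.L 6) (.B 1 2 1 (.B 0 1 2
  (.L 6) (.B 1 4 1 (.C 1 3 1 2 (.C 0 2 3020 1 (.C 1 3 2 1 (.C 1 2 2 1 (.L
  42) (.B 2 1 2 (.L 42) (.B 0 1 4 (.G 756 1 5 1 12032 6040 12004 [.n, .g 1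
  8052 0 0, .n, .n, .n, .n, .g 1 5105297 0 0, .g 1 5283215 0 0]) (.L 42))))
  (.B 0 1 4 (.L 13) (.L 1))) (.L 42)) (.B 0 1 4 (.L 6) (.C 2 3 1 2 (.L 1)
  (.L 6)))) (.L 6))) (.L 6))) (.L 6)))) (.B 1 2 1 (.C 2 3 2 1 (.L 16) (.C 1
  3 12 1 (.L 16) (.C 1 3 1 2 (.B 1 4 1 (.L 876) (.C 1 3 2 1 (.L 108) (.B 1 1
  2 (.L 108) (.B 1 1 4 (.L 108) (.L 1))))) (.C 0 2 3020 1 (.B 1 4 1 (.B 0 1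
  2 (.C 0 1 6012 1 (.L 1) (.G 876 4 3 8388607 4194304 4194304 1048576 [.n,
  .n, .g 1 1647 0 0, .g 1 1730 0 0, .n, .n, .n, .n, .n, .n])) (.C 0 2 6040 1
  (.C 2 3 1 8 (.L 213) (.C 0 1 6012 1 (.B 1 8 1 (.B 0 1 4 (.C 1 3 1 8 (.L
  12) (.L 1)) (.L 12)) (.C 1 3 1 8 (.L 12) (.L 1))) (.L 12))) (.L 12))) (.C
  0 1 6012 1 (.L 1) (.G 466 4 3 8388607 4194304 4194304 1048576 [.n, .g 1 26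
  0 0, .g 1 3039 0 0, .g 1 3177 0 0, .n, .n]))) (.B 1 4 1 (.B 0 1 2 (.G 876
  1 2 8388607 8388607 4194304 2097152 [.n, .n, .g 1 1604 0 0, .g 1 1678 0 0,
  .n, .n, .n, .n, .n, .n]) (.L 12)) (.G 876 1 2 8388607 8388607 4194304
  2097152 [.n, .n, .g 1 1715 0 0, .g 1 1794 0 0, .n, .n, .n, .n, .n,
  .n])))))) (.C 0 2 756 1 (.C 0 3 1508 1 (.C 0 1 124 1 (.B 1 1 2 (.C 0 3
  3016 1 (.G 59 41 1 1 248 1512 6032 [.n, .g 32 29 0 0, .n, .n, .n, .n]) (.G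
  528 478 1 1 1 1 1 [.g 5 7 0 0, .n, .n, .n, .n, .n])) (.G 478 1687 1 1 1 1
  1 [.n, .g 64 15 0 0, .n, .n, .n, .n, .n, .n])) (.C 1 3 24 1 (.G 645 16 1
  32 16 195 773 [.n, .n, .g 16 63 0 0, .n, .n, .g 19 64 0 0]) (.C 1 3 1 2
  (.C 0 1 24 1 (.B 1 1 2 (.B 2 1 4 (.G 1268 364 0 1 1 1 1 [.n, .g 8 63 0 0,
  .g 1 224 0 0, .n, .n, .n]) (.L 385)) (.G 1780 2065 1 1 1 1 1 [.n, .n, .n,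
  .n, .n, .g 22 63 0 0])) (.C 1 2 1 4 (.G 174 1584 5 1 1 1 1 [.n, .n, .n,
  .n, .n, .n, .g 17 65 0 0, .g 3 13 0 0]) (.B 2 1 1 (.C 2 3 8 1 (.G 479 1780
  1 1034 1043 131 2094 [.g 32 21 0 0, .n, .n]) (.G 1584 243 0 1 1 1 1 [.g 5
  33 0 0, .n, .n, .n, .n, .g 3 58 0 0])) (.G 3454 1896 1 126 127 16 127 [.n,
  .g 256 1 0 0, .n, .n, .g 9 65 0 0, .g 1 8 0 0])))) (.B 1 1 2 (.G 6 41 1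
  11235 544874 68811 136921 [.n, .n, .g 128 3 0 0, .n, .g 32 1 0 0, .n]) (.C
  2 3 2 1 (.G 1850 1780 5 1 1 1 1 [.n, .g 64 5 0 0, .g 8 21 0 0, .n, .n,
  .n]) (.C 0 3 12 1 (.G 407 1378 5 1 1 1 1 [.n, .g 64 1 0 0, .n, .n, .g 32 5
  0 0, .n]) (.G 407 6 2 14 28 14 7 [.n, .g 64 5 0 0, .n, .n, .g 7 68 0 0, .g
  3 32 0 0]))))))) (.C 0 1 1 24 (.C 0 2 1 2 (.B 2 1 1 (.G 364 6 2 2 4 4 1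
  [.g 32 3 0 0, .n, .n, .n, .g 3 13 0 0, .g 7 33 0 0]) (.C 0 1 2 1 (.G 13 1
  5 4754 19014 9507 2377 [.n, .n, .n, .g 5 33 0 0, .n, .n]) (.G 42 6 2
  8388607 4194304 4194304 1048576 [.g 2 59 0 0, .g 1 27 0 0, .g 1 2742 0 0,
  .g 1 2795 0 0, .n, .n]))) (.C 1 3 1 4 (.B 1 1 2 (.B 0 2 1 (.C 0 1 1 1 (.B
  2 1 4 (.G 1378 1268 5 1 1 1 1 [.n, .g 8 1 0 0, .g 12 65 0 0, .n, .n, .n])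
  (.G 1 41 1 232116 460605 58029 460605 [.n, .n, .g 64 1 0 0, .n, .n, .n]))
  (.G 811 1268 0 1 1 1 1 [.n, .n, .g 4 33 0 0, .n, .n, .n])) (.L 364)) (.C 2
  3 8 1 (.G 1268 407 1 1 1 1 1 [.g 20 63 0 0, .n, .n, .n, .n, .g 1 23 0 0])
  (.C 0 1 1 1 (.G 13 1850 1 59 118 237 118 [.n, .n, .n, .g 64 25 0 0, .n,
  .n]) (.L 811)))) (.C 2 3 1 1 (.C 2 3 2 1 (.C 1 2 1 8 (.G 6 1 5 4567 9134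
  18268 4567 [.n, .n, .g 7 33 0 0, .n, .n, .n]) (.B 0 2 1 (.G 407 1780 5 1 1
  1 1 [.n, .g 128 3 0 0, .g 25 32 0 0, .n, .n, .n]) (.G 1378 364 0 1 1 1 1
  [.n, .g 21 65 0 0, .g 1 97 0 0, .n, .n, .n]))) (.G 405 6 2 3475357 6950713
  3475357 1737678 [.n, .g 41 64 0 0, .g 1 504 0 0, .g 1 539 0 0, .n, .n]))
  (.G 13 1 5 9933 19866 4966 2483 [.n, .n, .n, .g 9 61 0 0, .n, .n])))) (.C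
  1 3 12 1 (.G 645 16 1 773 16 195 387 [.n, .n, .g 16 63 0 0, .n, .n, .g 5
  13 0 0]) (.C 2 3 1 1 (.G 1378 364 0 1 1 1 1 [.n, .g 18 66 0 35, .g 1 97 0
  0, .n, .n, .n]) (.G 42 6 2 8388607 4194304 4194304 2097152 [.g 2 61 0 0,
  .g 1 54 0 0, .g 1 4703 0 0, .g 1 4884 0 0, .n, .n]))))) (.C 0 3 1 1 (.C 1
  3 24 1 (.L 502) (.G 1378 364 0 1 1 1 1 [.n, .g 15 62 0 0, .g 1 97 0 0, .n,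
  .n, .n])) (.C 2 3 2 1 (.C 0 2 1 4 (.C 0 1 1 24 (.G 6 41 1 243581 487162
  487162 243581 [.n, .n, .g 256 5 0 0, .n, .n, .n]) (.L 364)) (.L 364)) (.C
  1 3 12 1 (.C 0 1 1 24 (.G 42 6 2 4194304 8388607 4194304 4194304 [.g 1 30
  0 0, .n, .g 1 4293 0 0, .g 1 4461 0 0, .n, .n]) (.L 364)) (.G 364 6 2 2 2
  2 1 [.g 64 5 0 0, .n, .n, .n, .g 7 32 0 0, .g 13 63 0 0])))))))
  (by decide +kernel)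

end Pool.Agent.TET.Cvr
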