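import Pool.Agent.Helper37_TET.ENBt

/-!
# MP_c7c9bf_co: cover of the charts, root 3 part 8
-/

set_option autoImplicit false
set_option maxRecDepth 100000

namespace Pool.Agent.TET.Cvr

theorem EN3_c142 : CoN ENTab ⟨⟨1, 1, 16⟩, ⟨0, 1, 8⟩, ⟨1, 1, 8⟩, ⟨1, 0, 0, 0,
  0⟩, ⟨40, 4, 10, 0, 7⟩, ⟨100, 25, 25, 2, 23⟩, ⟨72, 12, 18, 0, 15⟩⟩ :=
CoN.ofG ENTab_B ENBt_E ENBt_U (.B 1 1 1 (.B 0 1 2 (.C 0 1 124 1 (.B 0 2 1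
  (.B 2 1 1 (.L 213) (.C 0 3 252 1 (.C 0 2 384 1 (.C 0 3 504 1 (.C 1 3 4 1
  (.C 1 2 3 1 (.L 812) (.C 2 3 5 2 (.C 1 2 1 2 (.L 342) (.C 2 3 10 1 (.L
  116) (.L 108))) (.L 812))) (.C 1 2 2 5 (.B 0 4 1 (.B 2 1 2 (.L 341) (.L
  1442)) (.L 341)) (.C 2 3 4 3 (.C 0 2 768 1 (.C 0 1 7840 1 (.C 1 2 1 10 (.C
  1 3 2 5 (.L 108) (.L 93)) (.C 1 2 1 20 (.L 206) (.C 2 3 4 1 (.L 116) (.L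
  206)))) (.G 3848 1698 0 1664 837 163 654 [.n, .n, .n, .g 2 33 0 0])) (.G
  1204 843 0 69 354 35 276 [.n, .n, .n, .g 1 17 0 0])) (.B 0 4 1 (.B 2 1 2
  (.L 108) (.C 0 1 7840 1 (.C 0 1 15680 1 (.C 1 2 1 5 (.B 2 1 4 (.L 1442)
  (.L 1698)) (.L 6)) (.L 1186)) (.L 381))) (.L 12))))) (.L 843)) (.G 871
  1630 2 1 1 1 1 [.n, .n, .g 1 0 0 1943, .n])) (.G 1954 1204 2 1 1 1 1 [.n,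
  .n, .g 2 0 0 1117, .n]))) (.L 26)) (.G 892 2559 1 48480 24240 75750 49995
  [.g 64 9 0 23, .n, .n, .n])) (.L 122)) (.C 1 3 2 1 (.C 1 2 3 1 (.L 97) (.C
  2 3 4 3 (.C 0 2 384 1 (.C 1 2 1 1 (.L 876) (.B 1 1 2 (.C 2 3 4 1 (.C 2 3 8
  1 (.C 1 2 1 2 (.L 177) (.C 0 2 768 1 (.C 2 3 8 1 (.L 116) (.L 112)) (.L
  116))) (.L 177)) (.L 466)) (.C 0 3 3036 1 (.C 2 3 8 1 (.C 1 2 1 2 (.L 484)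
  (.C 2 3 16 1 (.C 1 2 1 4 (.L 743) (.L 116)) (.L 743))) (.B 1 1 4 (.L 108)
  (.L 1972))) (.C 2 3 4 1 (.C 1 2 1 2 (.L 1442) (.C 0 2 1 8 (.G 2824 1442 0
  1869620 934810 3739241 1869620 [.n, .n, .n, .g 5 59 0 0, .n]) (.G 782 82 1
  8388607 2105376 526344 4177855 [.n, .n, .g 1 110 0 0, .g 1 111 0 0, .n,
  .n, .n, .n, .n, .n]))) (.L 108))))) (.B 1 1 2 (.G 494 1954 2 1672 1672 836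
  6634 [.g 6 2 1103 0, .n, .g 3 1 895 0, .n]) (.C 0 2 1 2 (.G 1704 106 0 482
  482 995 1929 [.n, .n, .g 1 0 0 232, .g 16 7 0 0]) (.O 1)))) (.C 2 3 1 6
  (.L 876) (.L 200)))) (.B 1 1 2 (.B 0 1 1 (.C 2 3 2 3 (.C 0 1 500 1 (.C 1 2
  2 5 (.C 1 3 3 2 (.L 341) (.C 2 3 2 5 (.L 177) (.C 1 3 1 4 (.L 177) (.L
  6)))) (.C 1 2 1 10 (.L 678) (.C 0 3 1524 1 (.C 2 3 8 1 (.C 0 2 384 1 (.L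
  106) (.G 532 3622 0 32 323 16 255 [.n, .n, .g 2 5 4291 0, .n])) (.L 678))
  (.G 2236 484 2 192241 488928 24219 96877 [.n, .n, .n, .g 10 0 21 0,
  .n])))) (.L 568)) (.B 0 2 1 (.C 1 3 1 2 (.C 1 2 3 1 (.L 342) (.C 2 3 2 3
  (.C 0 3 6060 1 (.C 0 1 3024 1 (.C 1 2 1 4 (.L 108) (.L 1)) (.L 568)) (.L
  568)) (.L 341))) (.B 2 1 2 (.L 213) (.C 1 2 3 2 (.C 1 3 1 4 (.L 341) (.L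
  13)) (.L 6)))) (.L 177))) (.C 0 1 500 1 (.C 0 3 252 1 (.C 1 2 2 5 (.L 466)
  (.C 2 3 4 3 (.C 1 2 1 10 (.L 12) (.C 2 3 8 1 (.C 0 2 384 1 (.L 103) (.L
  299)) (.L 514))) (.L 12))) (.L 213)) (.L 466))) (.C 1 2 3 4 (.C 1 3 1 2
  (.L 341) (.C 0 3 252 1 (.C 1 3 1 2 (.L 108) (.C 2 3 1 6 (.L 108) (.B 1 1 4
  (.B 0 2 1 (.L 13) (.L 108)) (.L 13)))) (.G 1886 6 2 32 64 193 16 [.n, .n,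
  .g 2 5 0 1349, .n]))) (.C 2 3 2 3 (.C 1 2 1 8 (.C 1 2 2 1 (.C 1 3 1 2 (.B
  1 1 4 (.L 466) (.L 155)) (.B 1 1 4 (.C 0 2 12180 1 (.C 0 1 6084 1 (.L 69)
  (.L 177)) (.L 177)) (.L 958))) (.L 484)) (.C 2 3 4 1 (.C 0 2 384 1 (.C 1 2
  1 8 (.L 1681) (.C 2 3 4 1 (.L 106) (.L 743))) (.C 0 2 1 2 (.G 86 106 0
  114242 906799 228485 456970 [.g 7 15 16 0, .n, .n, .n, .n, .n]) (.O 1)))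
  (.L 286))) (.C 0 1 3036 1 (.C 1 2 1 4 (.C 1 3 1 24 (.B 1 1 4 (.L 108) (.B
  1 1 8 (.L 1) (.L 6))) (.L 6)) (.L 6)) (.G 1442 6 2 386 193 97 16 [.g 2 11
  0 0, .n, .g 1 8 0 761, .n]))))))) (by decide +kernel)

theorem EN3_c143 : CoN ENTab ⟨⟨1, 1, 16⟩, ⟨0, 1, 8⟩, ⟨1, 2, 16⟩, ⟨1, 0, 0,
  0, 0⟩, ⟨72, 12, 18, 0, 15⟩, ⟨700, 61, 79, 2, 68⟩, ⟨4, 1, 1, 0, 1⟩⟩ :=
CoN.ofG ENTab_B ENBt_E ENBt_U (.C 0 1 252 1 (.C 0 3 16 1 (.C 0 2 1524 1 (.B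
  0 1 2 (.C 1 3 1 16 (.B 0 2 1 (.B 2 1 1 (.C 2 3 1 3 (.C 1 3 12 1 (.L 12)
  (.C 1 2 1 4 (.L 1) (.C 2 3 2 1 (.C 2 3 4 1 (.L 12) (.L 1)) (.L 1)))) (.C 1
  2 12 1 (.P (.ofNat 6) (.ofNat 5)) (.L 1))) (.C 1 3 2 1 (.L 13) (.C 0 3
  1016 1 (.C 1 3 1 1 (.B 2 1 2 (.L 1) (.B 0 4 1 (.L 834) (.L 1))) (.L 1626))
  (.C 0 1 1 1 (.L 1626) (.G 871 1142 0 9879 4939 7409 2470 [.n, .n, .n, .g 7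
  16 0 0]))))) (.C 2 3 1 3 (.C 1 3 12 1 (.L 12) (.C 2 3 2 1 (.C 2 3 4 1 (.L
  12) (.L 1)) (.L 1))) (.C 1 3 2 1 (.C 1 2 12 1 (.P (.ofNat 6) (.ofNat 5))
  (.L 1)) (.L 1)))) (.B 0 2 1 (.B 2 1 1 (.C 2 3 1 95 (.C 2 3 2 1 (.C 1 2 3 1
  (.L 1) (.C 1 2 1 2 (.L 1) (.C 2 3 4 1 (.B 2 2 1 (.B 1 1 4 (.L 1) (.L 12))
  (.L 1)) (.L 1)))) (.B 2 2 1 (.B 1 1 4 (.C 1 3 6 1 (.L 1) (.L 144)) (.L 1))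
  (.L 1600))) (.B 2 2 1 (.B 1 1 4 (.C 1 3 1 32 (.C 1 3 2 1 (.B 1 2 1 (.L
  1600) (.L 1)) (.L 144)) (.L 107)) (.C 1 3 1 32 (.C 1 3 2 1 (.L 1) (.B 2 4
  1 (.B 1 1 8 (.L 144) (.L 1)) (.L 144))) (.C 2 3 1 190 (.C 1 2 3 1 (.L 27)
  (.C 2 3 2 1 (.L 1) (.L 27))) (.L 27)))) (.C 1 3 1 32 (.C 1 3 2 1 (.L 1600)
  (.L 144)) (.L 107)))) (.L 220)) (.C 2 3 1 95 (.B 0 1 2 (.B 2 4 1 (.C 1 2 3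
  1 (.L 1) (.C 1 2 1 2 (.L 1) (.C 2 3 2 1 (.C 2 3 4 1 (.L 12) (.L 1)) (.L
  1)))) (.C 1 3 6 1 (.L 1) (.C 2 3 2 1 (.L 1) (.L 144)))) (.C 1 2 3 1 (.L 1)
  (.C 1 2 1 2 (.L 1) (.C 2 3 2 1 (.C 2 3 4 1 (.L 12) (.L 1)) (.L 1))))) (.C
  1 3 1 32 (.B 0 1 2 (.B 2 4 1 (.B 2 8 1 (.L 1) (.C 1 3 2 1 (.L 1) (.L
  144))) (.C 1 2 6 1 (.C 1 2 12 1 (.C 1 2 24 1 (.P (.ofNat 11) (.ofNat 10))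
  (.L 144)) (.L 144)) (.L 144))) (.L 1)) (.C 2 3 1 190 (.B 0 1 2 (.C 1 2 3 1
  (.L 27) (.B 2 4 1 (.C 2 3 2 1 (.L 1) (.L 27)) (.L 107))) (.B 0 1 4 (.B 2 8
  1 (.L 1) (.L 107)) (.L 1))) (.C 1 3 1 64 (.B 0 1 2 (.L 27) (.C 1 3 2 1 (.B
  0 1 4 (.L 27) (.L 1)) (.L 31))) (.L 601))))))) (.B 1 2 1 (.C 0 3 32 1 (.C
  0 1 504 1 (.C 0 2 3048 1 (.B 0 1 4 (.C 0 3 64 1 (.C 1 3 1 8 (.C 1 3 2 1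
  (.L 812) (.C 2 3 1 3 (.L 12) (.B 0 2 1 (.B 2 1 1 (.L 12) (.C 1 3 1 2 (.L
  12) (.L 1))) (.L 12)))) (.C 2 3 1 48 (.C 2 3 2 1 (.B 2 1 1 (.L 12) (.B 0 2
  1 (.C 1 2 3 1 (.L 1) (.L 12)) (.L 12))) (.C 2 3 1 2 (.C 2 3 2 1 (.C 1 2 12
  1 (.L 1) (.L 12)) (.L 1)) (.L 1))) (.B 0 2 1 (.B 2 1 1 (.L 1) (.C 1 3 1 16
  (.L 1) (.C 1 3 1 32 (.L 1) (.C 2 3 1 96 (.L 1) (.C 2 3 1 192 (.L 1) (.C 1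
  3 1 64 (.L 1) (.C 2 3 1 384 (.L 1) (.C 1 3 1 128 (.L 1) (.L 88)))))))))
  (.L 1)))) (.C 0 3 1 2 (.C 0 1 8 1 (.C 0 3 2 1 (.B 0 2 1 (.C 0 2 48 1 (.G
  565 4 5 8 127 765 32 [.g 1 1251 0 0, .n, .g 1 15 0 0, .n]) (.B 2 1 1 (.B 1
  1 4 (.L 73) (.B 2 2 1 (.L 7) (.G 4 414 4 383 64 191 16 [.n, .n, .n, .g 64
  43 0 0, .g 64 27 0 0, .n]))) (.G 4 73 0 383 64 191 16 [.n, .n, .n, .g 64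
  23 0 0, .n, .g 64 3 0 0]))) (.L 170)) (.L 414)) (.L 414)) (.L 414))) (.B 1
  4 1 (.L 168) (.C 0 3 64 1 (.C 0 1 1008 1 (.B 1 1 2 (.L 7) (.C 0 3 128 1
  (.C 0 3 256 1 (.C 0 3 512 1 (.C 1 3 1 2 (.L 812) (.C 1 3 1 4 (.L 812) (.C
  2 3 1 6 (.L 812) (.C 0 3 1024 1 (.C 1 3 1 4 (.L 56) (.C 2 3 1 6 (.L 56)
  (.C 2 3 1 12 (.L 56) (.L 1)))) (.L 170))))) (.L 170)) (.L 170)) (.L 7)))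
  (.L 7)) (.L 110)))) (.L 414)) (.L 664)) (.G 168 73 1 1 1 1 1 [.n, .g 1 3
  28662 0, .n, .n])) (.B 1 1 2 (.C 0 3 32 1 (.C 1 3 1 8 (.B 0 1 1 (.C 1 3 2
  1 (.L 812) (.C 2 3 1 3 (.L 12) (.C 1 3 1 2 (.L 12) (.L 1)))) (.L 12)) (.C
  2 3 1 48 (.C 0 2 3048 1 (.C 2 3 1 1 (.C 1 2 6 1 (.B 0 1 1 (.L 1) (.L 12))
  (.L 12)) (.L 1)) (.G 1 812 0 14669 2445 7334 14669 [.n, .n, .g 64 41 0 0,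
  .n, .g 8 5 0 0, .n])) (.B 0 1 1 (.C 1 3 1 16 (.L 1) (.C 1 3 1 32 (.L 1)
  (.C 2 3 1 96 (.L 1) (.C 2 3 1 192 (.L 1) (.C 1 3 1 64 (.L 1) (.C 2 3 1 384
  (.L 1) (.C 1 3 1 128 (.L 1) (.L 88)))))))) (.L 1)))) (.C 0 3 1 2 (.G 1 414
  4 8 63 381 16 [.n, .n, .g 64 7 0 0, .n, .g 64 1 0 0, .g 1024 1 0 0]) (.L
  1148))) (.C 2 3 1 95 (.C 1 3 12 1 (.L 544) (.C 2 3 2 1 (.C 2 3 4 1 (.L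
  544) (.L 1)) (.L 1))) (.C 0 1 504 1 (.C 1 3 1 32 (.C 1 2 6 1 (.C 1 2 12 1
  (.P (.ofNat 9) (.ofNat 8)) (.L 1)) (.L 1)) (.C 1 3 1 64 (.L 1) (.C 2 3 1
  190 (.L 1) (.C 2 3 1 380 (.L 1) (.B 1 1 4 (.C 1 3 1 128 (.L 1) (.L 88))
  (.L 31)))))) (.C 0 3 1 32 (.G 12 4 3 1390857 695429 8388607 2825179 [.n,
  .n, .g 2 5133 0 0, .g 2 5339 0 0, .n, .n]) (.B 2 2 1 (.B 1 1 4 (.L 73) (.C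
  1 3 1 16 (.G 1698 4 3 492 121 1460 242 [.g 2 7 0 0, .n, .n, .g 1 14 0 0])
  (.G 4 1148 2 254 127 761 4 [.n, .n, .n, .n, .n, .g 1024 1 0 0]))) (.L
  300)))))))) (.C 0 2 1 2 (.C 1 3 1 16 (.B 0 1 2 (.B 2 1 1 (.G 12 4 3
  4194303 691844 8388607 1383688 [.n, .n, .g 1 3014 0 0, .g 1 3128 0 0, .n,
  .n]) (.G 983 535 0 17465 2881 34930 5762 [.n, .n, .n, .g 8 31 0 0])) (.G 4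
  812 0 736264 121446 1472528 242891 [.n, .g 3 31 0 0, .n, .g 8 5 0 0, .g 64
  51 1 0, .n])) (.B 0 1 2 (.B 2 1 1 (.C 0 3 1 95 (.C 2 3 1 1 (.G 12 4 3
  2097152 699051 4194304 8388607 [.n, .n, .g 1 2405 0 0, .g 2 4999 0 0, .n,
  .n]) (.C 0 3 2 1 (.C 0 1 1 3 (.C 0 1 2 1 (.G 12 4 3 2097152 8388607
  8388607 8388607 [.n, .n, .g 1 1751 0 0, .g 1 1824 0 0, .n, .n]) (.L 1))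
  (.L 1)) (.G 1314 4 5 69 6 69 34 [.n, .n, .n, .g 2 17 0 0]))) (.C 0 2 1 1
  (.C 0 3 1 190 (.G 265 4 5 4194304 699051 8388607 8388607 [.g 1 289 0 0,
  .n, .n, .n, .n, .n, .g 1 27048 0 0, .g 1 28299 0 0]) (.G 1117 664 3 1 1 1
  1 [.g 13 16 0 0, .n, .n, .n])) (.L 1117))) (.C 0 3 1 95 (.G 871 1142 0
  15998 5333 31995 31995 [.n, .n, .n, .g 27 64 0 0]) (.G 752 2689 0 8377598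
  1398101 8388607 44035 [.g 8 1 0 0, .n, .n, .n, .g 1 65 3 0, .g 1 71 3 0,
  .n, .n]))) (.B 1 2 1 (.G 485 1122 1 1 1 1 1 [.g 2 0 4965 0, .n, .n, .n])
  (.B 1 1 2 (.L 1148) (.B 2 2 1 (.C 0 3 1 95 (.G 12 1 2 4194304 1398101
  8388607 8388607 [.n, .n, .g 1 2645 0 0, .g 1 2750 0 0, .n, .n]) (.G 4 1122
  3 761 127 762 4 [.n, .n, .n, .g 32 1 0 0, .n, .g 512 1 0 0])) (.L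
  1122)))))) (.B 0 1 2 (.B 2 1 1 (.B 2 2 1 (.G 758 1204 0 1524 126 381 8 [.g
  23 63 0 0, .g 7 9 0 0, .g 1 2 6027 0]) (.G 758 535 0 1524 126 381 8 [.n,
  .g 64 39 0 0, .g 1 1 5427 0])) (.C 1 2 3 1 (.G 1685 3457 0 1524 126 759 8
  [.g 5 64 0 0, .n, .n, .n]) (.G 3488 758 2 1 1 1 1 [.n, .n, .n, .g 1 0 2408
  2908]))) (.G 73 1886 0 1524 126 381 8 [.g 5 62 0 0, .g 1 8 5685 0, .n,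
  .n])))) (.C 1 3 1 32 (.B 0 1 2 (.C 1 3 2 1 (.C 0 2 48 1 (.C 1 2 6 1 (.C 1
  3 4 1 (.B 2 1 1 (.C 0 1 16 1 (.L 1117) (.G 4 1204 0 142110 71055 857100
  568439 [.n, .n, .n, .g 16 1 0 0, .n, .n])) (.G 3839 1659 0 8 126 1521 1010
  [.g 64 49 0 0, .n, .n, .n])) (.L 1716)) (.L 1716)) (.B 2 1 1 (.G 1698 871
  3 736 121 364 486 [.g 103 43 8202 0, .n, .n, .n]) (.G 871 1374 2 1 1 1 1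
  [.n, .n, .g 1 0 0 2336, .n]))) (.C 0 3 32 1 (.G 1749 758 2 8 506 381 510
  [.n, .n, .n, .g 2 3 14476 3826, .n]) (.O 1))) (.C 0 2 48 1 (.C 1 3 2 1 (.G
  485 1886 0 8 126 765 506 [.g 1 0 5250 0, .g 5 68 0 0, .n, .n]) (.G 2720
  1122 1 1 1 1 1 [.n, .g 1 2 9362 0, .n, .n])) (.C 1 3 2 1 (.L 843) (.O
  1)))) (.C 0 3 1 2 (.B 0 1 2 (.C 0 1 32 1 (.G 1117 86 0 8 510 381 16 [.n,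
  .g 2 0 1265 627, .g 1 1 2889 2688, .n]) (.O 1)) (.G 2720 1122 1 1 1 1 1
  [.n, .g 1 3 10817 0, .n, .n])) (.O 1)))) (.C 0 3 1 32 (.C 0 1 1 2 (.C 0 3
  2 1 (.B 0 1 2 (.B 2 1 1 (.G 4 2876 0 54889 109779 164668 219557 [.n, .n,
  .n, .g 8 1 0 0, .n, .n]) (.B 0 2 1 (.C 0 1 2 1 (.G 13 4 5 1012 4048 3036
  4048 [.n, .n, .n, .n, .n, .g 5 33 0 11]) (.L 518)) (.L 381))) (.L 843))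
  (.O 1)) (.O 1)) (.O 1))) (by decide +kernel)

theorem EN3_c144 : CoN ENTab ⟨⟨1, 1, 16⟩, ⟨0, 1, 8⟩, ⟨1, 2, 16⟩, ⟨1, 0, 0,
  0, 0⟩, ⟨700, 61, 79, 2, 68⟩, ⟨484, 25, 25, 2, 23⟩, ⟨4, 1, 1, 0, 1⟩⟩ :=
CoN.ofG ENTab_B ENBt_E ENBt_U (.C 2 3 1 48 (.B 0 1 2 (.C 1 2 1 2 (.B 2 1 1
  (.C 0 3 1536 1 (.C 1 3 2 1 (.C 1 3 4 1 (.L 12) (.C 2 3 2 1 (.B 0 1 1 (.L
  1) (.L 12)) (.L 1))) (.C 0 1 6120 1 (.C 1 3 1 4 (.B 0 1 1 (.B 2 2 1 (.L 1)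
  (.L 144)) (.C 1 2 1 4 (.L 1) (.C 1 2 1 8 (.C 1 2 2 1 (.L 1) (.L 1082)) (.L
  23)))) (.L 263)) (.G 1 734 0 1121604 560802 280401 280401 [.n, .n, .g 64 0
  1 0, .n, .n, .g 256 1 0 0]))) (.G 1 1197 4 757211 378605 757211 378605
  [.n, .n, .g 64 0 1 0, .n, .n, .g 512 1 0 0])) (.C 0 1 1524 1 (.C 1 3 1 2
  (.B 0 2 1 (.L 220) (.B 0 1 2 (.L 1) (.B 1 1 1 (.C 0 2 3060 1 (.C 0 3 6120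
  1 (.C 0 3 12240 1 (.C 2 3 4 1 (.L 12) (.C 1 3 8 1 (.L 12) (.L 1))) (.G 1
  300 0 595 74 148 295 [.n, .n, .g 32 7 0 0, .n, .n, .n])) (.G 1704 1 2 625
  156 312 312 [.n, .n, .n, .g 16 9 0 0])) (.L 381)) (.L 1)))) (.L 883)) (.C
  0 3 1 2 (.B 0 2 1 (.G 983 1 5 2 1 2 4 [.n, .n, .g 1 0 0 594, .g 32 7 0 0])
  (.L 1832)) (.G 2433 2464 0 1 1 1 1 [.g 1 0 875 3990, .n, .n, .g 1 0 2786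
  0])))) (.C 1 2 1 4 (.L 93) (.C 2 3 2 1 (.C 1 2 1 8 (.B 2 1 1 (.L 115) (.B
  0 2 1 (.L 106) (.L 115))) (.C 0 3 3072 1 (.C 2 3 8 1 (.L 116) (.B 2 1 1
  (.L 45) (.B 0 2 1 (.L 86) (.B 0 1 2 (.L 107) (.L 45))))) (.G 474 45 0 4838
  9676 605 2419 [.g 64 13 0 0, .n, .g 1 1 488 0, .n]))) (.L 93)))) (.C 1 3 1
  1 (.C 1 3 2 1 (.L 26) (.C 0 3 3060 1 (.C 2 3 8 1 (.L 26) (.C 1 3 1 1 (.B 1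
  2 1 (.L 122) (.B 1 1 2 (.L 26) (.L 1))) (.B 1 2 1 (.B 0 1 4 (.B 0 2 1 (.L
  1) (.B 0 1 2 (.L 1) (.L 26))) (.L 56)) (.L 1)))) (.C 0 1 1 1 (.C 0 3 1 2
  (.B 1 2 1 (.G 1122 292 1 1 1 1 1 [.n, .g 1 0 3022 0, .n, .n]) (.G 1 300 0
  2059 4102 257 4102 [.g 64 43 0 0, .n, .g 64 1 0 0, .n, .g 64 1 0 0, .n]))
  (.L 1954)) (.L 1498)))) (.C 2 3 2 1 (.C 2 3 4 1 (.B 1 2 1 (.B 0 1 4 (.C 0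
  2 768 1 (.C 1 2 1 2 (.L 1) (.C 2 3 4 1 (.C 1 2 1 4 (.L 1) (.L 26)) (.L
  1))) (.G 2064 397 0 1 1 1 1 [.g 1 0 835 0, .n, .n, .g 1 0 5326 0])) (.L
  56)) (.C 1 2 1 4 (.C 1 3 2 1 (.C 0 2 6132 1 (.L 1) (.G 1 530 0 942828
  235707 471414 942828 [.n, .n, .n, .n, .g 64 0 1 0, .n])) (.L 223)) (.C 1 2
  1 8 (.L 223) (.C 1 2 1 16 (.L 112) (.C 2 3 8 1 (.L 116) (.B 1 1 2 (.C 2 3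
  1 2 (.L 460) (.L 112)) (.L 1206))))))) (.B 1 2 1 (.B 0 1 4 (.L 1) (.C 0 1
  3060 1 (.C 0 3 3072 1 (.C 0 2 6144 1 (.B 1 4 1 (.L 168) (.C 0 2 12288 1
  (.B 1 1 2 (.L 110) (.L 1)) (.L 168))) (.G 140 3232 1 6493 3247 3247 3247
  [.g 1 2 1039 0, .n, .n, .n, .n, .n])) (.G 729 397 0 1 1 1 1 [.n, .g 1 0
  2783 0, .n, .n])) (.G 821 43 3 133 66 133 66 [.n, .n, .g 1 0 4677 0,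
  .n]))) (.L 1))) (.B 1 2 1 (.B 0 1 4 (.L 1) (.C 1 3 1 2 (.C 0 1 3060 1 (.B
  1 4 1 (.G 416 292 1 1 1 1 1 [.n, .n, .n, .g 1 0 3236 0]) (.B 1 1 2 (.G 619
  729 1 1 1 1 1 [.n, .n, .g 1 0 2748 0, .n]) (.L 1))) (.C 0 2 1 2 (.G 74 73
  1 85 42 169 85 [.g 1 1 7984 0, .n, .n, .n]) (.O 1))) (.L 54))) (.L 1)))))
  (.B 0 1 2 (.C 1 3 1 95 (.B 0 2 1 (.C 1 2 1 1 (.C 1 3 2 1 (.B 2 1 1 (.B 2 2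
  1 (.B 1 1 4 (.L 1) (.C 1 2 2 1 (.C 1 3 4 1 (.C 1 2 4 1 (.L 12) (.L 1)) (.L
  1)) (.L 1))) (.L 1)) (.C 0 1 1524 1 (.L 220) (.G 1142 1832 2 1 1 1 1 [.n,
  .n, .g 1 0 0 483, .n]))) (.B 2 1 1 (.B 2 2 1 (.B 1 1 4 (.C 1 3 1 2 (.L 1)
  (.L 1246)) (.L 1)) (.L 1600)) (.L 82))) (.B 2 1 1 (.B 2 2 1 (.B 1 1 4 (.L
  107) (.C 2 3 2 1 (.C 1 2 1 2 (.L 1) (.C 2 3 4 1 (.L 29) (.L 1))) (.L 1)))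
  (.L 107)) (.C 2 3 2 1 (.L 93) (.L 107)))) (.C 0 1 1524 1 (.C 1 2 1 2 (.C 1
  3 1 1 (.C 1 2 2 1 (.C 1 3 2 1 (.C 1 2 4 1 (.C 1 2 8 1 (.C 1 3 4 1 (.C 1 3
  8 1 (.L 12) (.L 1)) (.L 1)) (.L 1)) (.L 1)) (.L 1)) (.L 1)) (.B 2 4 1 (.L
  1) (.B 0 1 2 (.L 144) (.L 1)))) (.B 0 1 2 (.B 2 4 1 (.B 2 8 1 (.L 1) (.L
  27)) (.L 107)) (.L 1))) (.C 0 3 1 1 (.C 0 2 1 2 (.G 213 4 3 4194304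
  2097152 8388607 8388607 [.n, .n, .g 1 2340 0 0, .g 2 4941 0 0, .n, .n, .n,
  .n]) (.G 999 1685 2 1 1 1 1 [.n, .g 1 0 3258 1499, .n, .n])) (.O 1)))) (.B
  0 2 1 (.B 2 1 1 (.B 2 2 1 (.B 2 4 1 (.B 1 1 4 (.L 27) (.B 1 1 8 (.L 27)
  (.C 1 3 1 190 (.L 1) (.C 2 3 1 96 (.C 2 3 2 1 (.L 1) (.C 0 2 6144 1 (.L
  31) (.L 1))) (.L 31))))) (.L 27)) (.L 107)) (.L 425)) (.C 1 3 1 190 (.B 0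
  1 2 (.B 2 4 1 (.B 1 1 8 (.L 27) (.B 2 8 1 (.L 1) (.L 27))) (.L 107)) (.B 0
  1 4 (.B 2 8 1 (.L 1) (.L 27)) (.L 1))) (.C 0 2 1536 1 (.C 0 1 6084 1 (.L
  27) (.G 143 4 5 3379890 1689945 853305 4444 [.g 1 367 0 0, .n, .n, .n]))
  (.G 4 994 2 176790 350127 88395 921 [.n, .n, .n, .n, .n, .g 256 1 1
  0]))))) (.C 1 3 1 95 (.C 0 1 1524 1 (.B 1 2 1 (.B 0 1 4 (.C 1 2 1 2 (.C 1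
  3 1 1 (.C 1 3 2 1 (.C 0 2 6120 1 (.C 1 2 4 1 (.L 26) (.C 1 2 1 2 (.C 1 2 2
  1 (.C 1 2 4 1 (.L 26) (.L 1)) (.L 1)) (.L 1))) (.G 397 485 0 1 1 1 1 [.g 2
  1 15905 0, .n, .n, .n])) (.L 1)) (.L 1)) (.L 1)) (.C 1 2 1 2 (.C 0 3 3044
  1 (.C 0 2 6120 1 (.B 1 4 1 (.L 168) (.C 0 3 6088 1 (.C 0 1 3048 1 (.C 0 2
  12240 1 (.B 1 1 2 (.L 7) (.B 2 2 1 (.C 0 3 12176 1 (.C 0 1 6096 1 (.C 0 2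
  24480 1 (.B 1 1 4 (.L 7) (.B 2 4 1 (.C 0 3 24352 1 (.C 0 1 12192 1 (.B 1 1
  8 (.L 7) (.C 0 2 48960 1 (.B 2 8 1 (.C 1 3 2 1 (.C 1 2 4 1 (.L 1242) (.C 0
  1 195456 1 (.L 1) (.L 170))) (.L 1)) (.L 435)) (.L 435))) (.L 435)) (.L
  7)) (.L 7))) (.L 7)) (.L 7)) (.L 7)) (.L 7))) (.L 110)) (.L 168)) (.L
  168))) (.G 565 485 0 1 1 1 1 [.n, .g 1 0 3590 0, .n, .n])) (.G 170 356 2 1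
  1 1 1 [.n, .n, .g 1 0 3912 0, .n])) (.C 1 2 1 4 (.B 1 4 1 (.G 210 74 0 1
  6120 12264 3044 [.n, .g 1 0 3092 0, .n, .n]) (.L 1)) (.L 54)))) (.C 1 3 1
  1 (.C 1 2 1 2 (.C 1 3 2 1 (.C 1 2 2 1 (.C 0 1 3048 1 (.C 1 2 2 1 (.B 1 1 2
  (.L 12) (.C 1 3 2 1 (.L 12) (.L 1))) (.C 0 1 24408 1 (.L 1) (.G 1 300 0
  531 265 133 133 [.n, .n, .g 64 1 0 0, .n, .n, .n]))) (.G 1 1538 1 546201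
  273100 1092401 1092401 [.n, .n, .g 32 1 0 0, .n, .g 64 3 0 0, .n])) (.L
  1)) (.L 1)) (.L 1)) (.L 1))) (.C 0 3 1 1 (.G 1 1538 1 1095507 547753
  547753 2191013 [.n, .n, .g 256 7 0 0, .n, .g 1024 35 6 0, .n]) (.O 1)))
  (.B 0 1 4 (.C 1 3 1 190 (.L 1) (.C 2 3 1 96 (.L 1) (.C 1 3 1 380 (.L 1)
  (.B 1 1 4 (.B 0 2 1 (.B 0 4 1 (.B 2 1 4 (.L 1) (.C 2 3 1 192 (.C 0 2 3072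
  1 (.L 31) (.O 1)) (.L 31))) (.L 1)) (.L 1)) (.B 0 4 1 (.L 135) (.B 1 1 8
  (.L 1) (.L 135))))))) (.B 1 2 1 (.C 1 3 1 190 (.L 54) (.L 1)) (.B 1 1 2
  (.L 1) (.C 2 3 1 96 (.L 1) (.B 1 1 4 (.L 1) (.B 2 4 1 (.B 2 8 1 (.C 1 3 1
  190 (.L 1) (.C 1 3 1 380 (.L 1) (.L 330))) (.L 1)) (.L 1))))))))))
  (by decide +kernel)

theorem EN3_c145 : CoN ENTab ⟨⟨1, 1, 16⟩, ⟨0, 1, 8⟩, ⟨1, 2, 16⟩, ⟨484, 25,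
  25, 2, 23⟩, ⟨72, 12, 18, 0, 15⟩, ⟨100, 25, 25, 2, 23⟩, ⟨4, 1, 1, 0, 1⟩⟩ :=
CoN.ofG ENTab_B ENBt_E ENBt_U (.C 0 3 1 48 (.C 0 1 1 3 (.C 0 2 1 2 (.B 0 1 2
  (.G 116 406 0 571302 1142604 1142604 1142604 [.g 64 0 25 0, .n, .n, .n, .g
  32 0 0 13, .g 16 0 0 7]) (.C 0 3 2 1 (.G 116 406 0 143032 286064 286064
  572128 [.g 42 0 65 0, .n, .n, .n, .n, .n]) (.O 1))) (.O 1)) (.O 1)) (.O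
  1)) (by decide +kernel)

theorem EN3_c146 : CoN ENTab ⟨⟨1, 1, 16⟩, ⟨1, 2, 16⟩, ⟨1, 1, 8⟩, ⟨1, 0, 0,
  0, 0⟩, ⟨72, 12, 18, 0, 15⟩, ⟨100, 25, 25, 2, 23⟩, ⟨4, 1, 1, 0, 1⟩⟩ :=
CoN.ofG ENTab_B ENBt_E ENBt_U (.C 1 2 3 2 (.C 1 3 1 16 (.B 1 1 2 (.B 0 1 1
  (.C 1 3 2 1 (.L 6) (.C 1 3 1 2 (.B 0 2 1 (.C 1 2 3 2 (.B 2 1 2 (.L 1570)
  (.B 0 4 1 (.L 262) (.L 158))) (.L 69)) (.C 2 3 4 3 (.L 6) (.B 0 1 2 (.L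
  1570) (.L 1)))) (.L 1600))) (.C 0 3 508 1 (.C 0 2 1524 1 (.C 1 3 4 1 (.C 1
  3 8 1 (.L 12) (.C 1 3 1 2 (.L 12) (.L 1))) (.L 1)) (.C 2 3 2 3 (.G 843 6 2
  194 16 97 387 [.n, .n, .g 1 0 0 912, .n]) (.G 843 1 2 194 16 387 65 [.g 2
  7 0 0, .n, .g 1 0 0 912, .n]))) (.C 0 2 3 2 (.C 0 1 1 4 (.G 1365 1 5 2 4
  12 1 [.n, .n, .g 1 0 0 665, .g 1 229 0 0]) (.O 2)) (.O 1)))) (.C 1 3 2 1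
  (.L 6) (.B 1 1 4 (.B 0 2 1 (.L 845) (.C 1 2 3 2 (.C 1 3 1 2 (.L 1570) (.L
  69)) (.L 69))) (.L 845)))) (.C 2 3 1 95 (.B 1 1 2 (.B 0 1 1 (.C 2 3 2 1
  (.L 144) (.L 82)) (.C 0 2 1524 1 (.B 1 2 1 (.B 0 1 2 (.B 2 1 2 (.L 1) (.B
  0 2 1 (.L 144) (.L 1))) (.L 1)) (.C 1 3 6 1 (.L 2000) (.L 144))) (.C 1 2 3
  1 (.G 4 1 5 954780 159130 954780 954780 [.n, .g 2 1319 0 0, .n, .n, .n, .g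
  4096 0 0 1]) (.C 1 2 1 2 (.L 1) (.C 2 3 2 1 (.G 12 6 2 4194304 8388607
  2097152 8388607 [.n, .n, .g 1 1558 0 0, .g 1 1629 0 0, .n, .n]) (.L
  1)))))) (.C 2 3 2 1 (.L 2008) (.L 82))) (.B 1 1 2 (.B 0 1 1 (.L 752) (.B 1
  2 1 (.B 0 1 2 (.C 1 3 1 32 (.C 1 2 6 1 (.C 1 3 2 1 (.L 823) (.L 144)) (.L
  144)) (.L 107)) (.C 1 3 1 32 (.C 1 3 2 1 (.L 1) (.B 1 4 1 (.B 0 1 4 (.L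
  123) (.L 1)) (.L 123))) (.C 0 2 3044 1 (.C 0 2 6088 1 (.L 27) (.G 1 314 0
  284765 23855 142382 374 [.n, .n, .n, .n, .n, .g 512 1 0 0])) (.G 1 4 5
  1809 303 905 5 [.n, .n, .n, .n, .n, .g 4 55 60 0])))) (.C 1 3 1 32 (.L
  144) (.L 107)))) (.L 752)))) (.C 2 3 1 24 (.C 0 1 1524 1 (.C 1 2 1 8 (.C 1
  3 1 4 (.C 1 2 2 1 (.B 0 1 1 (.L 286) (.B 1 1 2 (.L 1) (.L 484))) (.L 45))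
  (.L 45)) (.B 1 1 2 (.B 0 1 1 (.C 1 2 1 16 (.L 106) (.C 2 3 2 1 (.C 0 2 384
  1 (.L 86) (.C 0 2 1 2 (.L 86) (.O 1))) (.L 86))) (.C 2 3 2 1 (.C 0 2 384 1
  (.C 2 3 2 1 (.C 0 2 768 1 (.C 1 2 1 4 (.L 45) (.B 0 1 2 (.L 106) (.C 1 2 1
  8 (.L 115) (.B 1 2 1 (.C 2 3 2 1 (.L 460) (.L 115)) (.L 86))))) (.L 116))
  (.L 45)) (.G 1630 299 0 53 420 26 105 [.n, .n, .g 1 0 0 652, .g 9 1 254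
  0])) (.L 115))) (.C 2 3 2 1 (.C 0 2 384 1 (.L 106) (.B 0 2 1 (.L 86) (.C 0
  2 1 2 (.L 106) (.O 2)))) (.L 106)))) (.B 1 1 2 (.C 0 3 1 4 (.C 0 2 1 8 (.G
  843 678 0 1508 754 3016 3016 [.g 55 7 64 0, .n, .g 1 1 285 861, .n]) (.O
  1)) (.O 1)) (.G 3260 427 4 4245107 2139267 534817 1069633 [.n, .n, .n, .n,
  .n, .n, .n, .n, .g 11 64 17 0, .g 9 67 17 0]))) (.B 1 1 2 (.B 0 1 1 (.L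
  286) (.C 0 1 1524 1 (.C 1 2 1 4 (.C 1 3 1 191 (.C 1 3 2 1 (.L 1) (.B 0 1 2
  (.L 107) (.B 1 2 1 (.L 1) (.L 107)))) (.B 1 2 1 (.B 0 1 2 (.L 1852) (.B 1
  4 1 (.B 0 1 4 (.L 27) (.C 2 3 1 383 (.L 1) (.B 1 8 1 (.B 0 1 8 (.L 27) (.C
  1 3 1 382 (.L 1) (.C 0 2 12248 1 (.L 106) (.G 143 4 5 627041 312701 313521
  410 [.g 2 289 1 0, .n, .n, .n])))) (.L 27)))) (.L 27))) (.L 1852))) (.B 0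
  1 2 (.L 484) (.C 2 3 1 48 (.L 29) (.B 1 2 1 (.C 1 3 1 383 (.L 23) (.C 2 3
  1 96 (.L 23) (.C 1 3 1 766 (.C 0 1 12248 1 (.C 1 3 1 1 (.L 1082) (.L 31))
  (.G 427 839 3 2912956 1456478 364120 2912956 [.n, .n, .g 1024 247 33 0,
  .n, .n])) (.L 31)))) (.L 484))))) (.C 1 3 1 95 (.C 1 2 1 2 (.C 1 3 2 1 (.G
  1886 1194 2 217 109 217 434 [.g 64 1 0 0, .n, .g 1 0 0 796, .n]) (.L 1))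
  (.L 1)) (.G 1 734 0 275853 275491 69506 1448 [.n, .n, .n, .n, .n, .g 256 1
  1 0])))) (.L 286)))) (by decide +kernel)

theorem EN3_c147 : CoN ENTab ⟨⟨0, 0, 1⟩, ⟨0, 1, 8⟩, ⟨1, 1, 16⟩, ⟨1, 0, 0, 0,
  0⟩, ⟨8, 0, 2, 0, 1⟩, ⟨4, 1, 1, 1, 0⟩, ⟨8, 2, 2, 1, 1⟩⟩ :=
CoN.ofG ENTab_B ENBt_E ENBt_U (.C 1 2 3 4 (.L 94) (.C 1 2 1 6 (.L 3116) (.C
  2 3 3 2 (.C 1 2 1 12 (.L 1432) (.C 2 3 6 1 (.C 1 2 1 24 (.L 1432) (.C 2 3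
  12 1 (.C 0 2 16 1 (.C 1 2 1 24 (.L 3720) (.C 2 3 12 1 (.C 1 2 1 48 (.L
  2815) (.B 2 1 16 (.C 0 3 768 1 (.L 2092) (.L 3327)) (.B 0 8 1 (.L 2303)
  (.C 0 3 768 1 (.L 2092) (.O 1))))) (.L 3967))) (.G 2943 1944 1 11281
  272156 5641 135373 [.n, .n, .n, .g 1 2 37 0])) (.L 3720))) (.L 1432))) (.C
  2 3 1 4 (.L 1432) (.L 3116))))) (by decide +kernel)

theorem EN3_c148 : CoN ENTab ⟨⟨0, 0, 1⟩, ⟨0, 1, 8⟩, ⟨1, 1, 16⟩, ⟨1, 0, 0, 0,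
  0⟩, ⟨8, 0, 2, 0, 1⟩, ⟨8, 2, 2, 1, 1⟩, ⟨28, 7, 7, 2, 5⟩⟩ :=
  CoN.ofG ENTab_B ENBt_E ENBt_U (.L 94) (by decide +kernel)

theorem EN3_c149 : CoN ENTab ⟨⟨0, 0, 1⟩, ⟨0, 1, 8⟩, ⟨1, 1, 16⟩, ⟨1, 0, 0, 0,
  0⟩, ⟨8, 0, 2, 0, 1⟩, ⟨28, 7, 7, 2, 5⟩, ⟨52, 13, 13, 2, 11⟩⟩ :=
CoN.ofG ENTab_B ENBt_E ENBt_U (.C 2 3 2 1 (.L 94) (.C 1 3 10 1 (.L 94) (.B 1
  2 1 (.L 26) (.L 298)))) (by decide +kernel)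

theorem EN3_c150 : CoN ENTab ⟨⟨0, 0, 1⟩, ⟨0, 1, 8⟩, ⟨1, 1, 16⟩, ⟨1, 0, 0, 0,
  0⟩, ⟨8, 0, 2, 0, 1⟩, ⟨52, 13, 13, 2, 11⟩, ⟨40, 4, 10, 0, 7⟩⟩ :=
CoN.ofG ENTab_B ENBt_E ENBt_U (.C 1 3 6 1 (.C 1 2 10 1 (.L 94) (.G 1088 1239
  1 1 392 192 244 [.n, .n, .g 1 4 730 9, .n])) (.G 3455 461 2 1 1 1 1 [.n,
  .n, .g 1 7 0 942, .n])) (by decide +kernel)

theorem EN3_c151 : CoN ENTab ⟨⟨0, 0, 1⟩, ⟨0, 1, 8⟩, ⟨1, 1, 16⟩, ⟨1, 0, 0, 0,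
  0⟩, ⟨40, 4, 10, 0, 7⟩, ⟨52, 13, 13, 2, 11⟩, ⟨100, 25, 25, 2, 23⟩⟩ :=
CoN.ofG ENTab_B ENBt_E ENBt_U (.C 2 3 2 1 (.G 226 1088 2 1 124 192 768 [.n,
  .g 43 2 0 1020, .n, .n, .n, .n, .n, .n]) (.C 1 3 3 1 (.L 1020) (.B 1 2 1
  (.C 0 2 768 1 (.B 0 8 1 (.L 26) (.L 122)) (.O 1)) (.C 0 1 756 1 (.C 1 3 1
  4 (.L 568) (.C 0 2 768 1 (.B 1 1 2 (.L 26) (.B 1 1 4 (.C 0 2 1536 1 (.C 0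
  3 384 1 (.C 2 3 1 4 (.L 466) (.L 107)) (.L 12)) (.L 12)) (.L 106))) (.L
  568))) (.L 568))))) (by decide +kernel)

theorem EN3_c152 : CoN ENTab ⟨⟨0, 0, 1⟩, ⟨0, 1, 8⟩, ⟨1, 1, 16⟩, ⟨1, 0, 0, 0,
  0⟩, ⟨40, 4, 10, 0, 7⟩, ⟨100, 25, 25, 2, 23⟩, ⟨120, 8, 14, 0, 11⟩⟩ :=
CoN.ofG ENTab_B ENBt_E ENBt_U (.C 1 2 3 1 (.L 1020) (.B 0 8 1 (.G 1754 2696
  2 1 1 1 1 [.n, .n, .g 1 0 0 423, .n]) (.B 1 2 1 (.L 122) (.C 0 1 756 1 (.C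
  1 2 1 4 (.L 466) (.C 2 3 2 3 (.B 2 1 1 (.B 1 1 2 (.L 26) (.C 0 3 1524 1
  (.C 2 3 8 1 (.C 2 3 16 1 (.C 1 2 1 8 (.L 107) (.C 0 2 384 1 (.L 106) (.L
  1956))) (.L 107)) (.L 220)) (.G 2236 484 2 1515124 1515124 190882 763527
  [.g 64 18 0 3, .n, .n, .g 16 0 0 5, .n]))) (.L 26)) (.L 466))) (.L
  568))))) (by decide +kernel)

theorem EN3_c153 : CoN ENTab ⟨⟨0, 0, 1⟩, ⟨0, 1, 8⟩, ⟨1, 1, 16⟩, ⟨1, 0, 0, 0,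
  0⟩, ⟨120, 8, 14, 0, 11⟩, ⟨100, 25, 25, 2, 23⟩, ⟨340, 37, 37, 2, 35⟩⟩ :=
CoN.ofG ENTab_B ENBt_E ENBt_U (.C 0 2 384 1 (.B 1 2 1 (.B 0 8 1 (.C 0 1 252
  1 (.C 0 3 768 1 (.B 2 1 32 (.C 0 3 1536 1 (.C 1 3 6 1 (.L 12) (.C 2 3 4 1
  (.B 2 2 1 (.L 12) (.L 381)) (.C 0 2 6144 1 (.B 2 2 1 (.C 1 3 1 2 (.L 12)
  (.C 1 2 1 1 (.B 1 2 1 (.B 0 1 8 (.L 1) (.L 300)) (.L 1)) (.C 1 2 1 2 (.L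
  514) (.C 1 2 1 4 (.L 125) (.G 979 2824 0 1 98256 12288 3072 [.n, .n, .g 1
  1 112 0, .n]))))) (.B 2 1 2 (.L 381) (.L 1832))) (.L 1122)))) (.G 535 1122
  1 1 1 1 1 [.n, .n, .n, .g 17 1 1009 0])) (.G 1404 1142 2 1 1 1 1 [.g 2 0
  5204 5325, .n, .n, .n])) (.B 2 1 32 (.C 1 3 3 2 (.L 381) (.O 1)) (.O 1)))
  (.G 2720 247 0 32 16 49 49 [.n, .g 1 3 11117 0, .n, .g 2 0 5263 5420]))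
  (.C 1 3 3 1 (.L 26) (.C 1 3 1 2 (.L 26) (.B 0 1 2 (.C 0 1 3060 1 (.C 0 2
  768 1 (.C 1 2 1 4 (.C 1 3 1 8 (.B 1 1 1 (.G 65 485 0 1 6120 12264 12264
  [.n, .g 50 1 8272 0, .n]) (.L 1)) (.L 125)) (.C 1 2 1 8 (.L 125) (.C 2 3 1
  2 (.C 2 3 2 1 (.L 116) (.L 125)) (.L 125)))) (.L 843)) (.O 1)) (.B 1 4 1
  (.G 170 420 0 1 1 1 1 [.n, .n, .g 1 2 9407 0, .n]) (.C 1 2 1 4 (.C 1 3 1 4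
  (.B 2 1 1 (.B 1 1 2 (.L 26) (.C 1 3 2 1 (.L 12) (.L 29))) (.L 26)) (.L
  23)) (.C 2 3 1 1 (.B 2 1 1 (.C 0 2 768 1 (.B 1 1 2 (.L 26) (.C 0 2 1536 1
  (.C 1 2 1 2 (.L 125) (.L 116)) (.L 116))) (.L 116)) (.L 26)) (.L
  223)))))))) (.C 0 3 768 1 (.C 0 1 252 1 (.B 0 32 1 (.B 2 1 16 (.B 1 1 4
  (.L 983) (.B 2 2 1 (.C 1 3 3 1 (.L 381) (.C 1 3 1 2 (.L 1754) (.L 106)))
  (.L 983))) (.G 3457 3336 2 1 1 1 1 [.n, .n, .g 1 1 341 2923, .n])) (.B 1 1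
  2 (.C 1 3 3 1 (.L 12) (.C 1 2 1 4 (.C 1 3 1 2 (.C 0 2 6120 1 (.C 1 3 2 1
  (.L 12) (.L 1)) (.L 1954)) (.L 93)) (.C 0 2 768 1 (.C 1 2 1 4 (.L 514) (.B
  0 1 2 (.L 107) (.B 1 2 1 (.G 474 1248 0 1 12264 1536 1536 [.n, .n, .g 3 59
  0 0, .n]) (.L 1006)))) (.G 1754 843 0 20 79 10 20 [.n, .n, .n, .g 1 1 43
  0])))) (.C 1 2 3 2 (.C 1 3 3 1 (.B 1 1 4 (.L 1442) (.L 1186)) (.C 1 3 1 2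
  (.C 0 2 3048 1 (.B 2 4 1 (.L 220) (.C 0 1 3048 1 (.C 0 3 6120 1 (.B 0 1 1
  (.L 381) (.C 1 2 1 1 (.L 1) (.L 823))) (.L 381)) (.L 381))) (.L 381)) (.L
  678))) (.C 1 2 1 4 (.L 678) (.L 106))))) (.C 1 3 6 1 (.G 1204 1954 2 1 1 1
  1 [.n, .n, .g 1 1 68 2868, .n]) (.C 0 3 3 1 (.G 381 1204 2 1 1 1 1 [.n,
  .n, .g 6 1 0 4065, .n]) (.B 0 32 1 (.G 3585 871 2 164 164 41 82 [.g 1 1 0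
  1025, .n, .n, .n]) (.G 1754 1374 3 357 357 89 178 [.g 16 5 0 0, .n, .n,
  .n]))))) (.B 0 32 1 (.G 871 1314 2 1 1 1 1 [.n, .n, .g 1 0 0 2185, .n])
  (.C 0 1 1 6 (.C 2 3 1 1 (.G 535 1314 3 492 984 246 492 [.g 1 10 6296 0,
  .n, .n, .n]) (.C 1 3 1 4 (.G 1374 381 0 94 188 94 375 [.n, .n, .g 1 2 0
  192, .g 16 5 0 0]) (.C 1 3 1 8 (.C 1 2 1 4 (.G 1929 1915 2 278646 1114584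
  2229168 2229168 [.n, .g 4 66 7 0, .g 2 29 0 0, .n]) (.B 1 1 2 (.L 45) (.L
  106))) (.B 1 1 2 (.L 45) (.L 106))))) (.C 1 2 3 1 (.G 678 2464 0 10439 861
  5219 2637 [.g 5 2 979 1006, .g 9 2 0 1077, .n, .n, .n]) (.C 0 3 1 4 (.L
  381) (.C 2 3 1 1 (.L 381) (.L 3208)))))))) (.C 0 2 1 2 (.B 0 8 1 (.C 1 3 3
  1 (.B 2 1 16 (.B 2 2 1 (.L 1496) (.O 1)) (.O 1)) (.G 1109 2431 0 292989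
  585978 585978 292989 [.g 64 0 2 55, .g 64 0 1 16, .n, .n, .n, .n])) (.B 1
  2 1 (.O 1) (.G 2433 1109 0 49 16 98 49 [.g 1 0 0 4728, .n, .n, .g 1 0
  17017 291]))) (.O 1))) (by decide +kernel)

theorem EN3_c154 : CoN ENTab ⟨⟨0, 0, 1⟩, ⟨0, 1, 16⟩, ⟨1, 1, 16⟩, ⟨1, 0, 0,
  0, 0⟩, ⟨120, 8, 14, 0, 11⟩, ⟨340, 37, 37, 2, 35⟩, ⟨20, 1, 1, 0, 1⟩⟩ :=
CoN.ofG ENTab_B ENBt_E ENBt_U (.C 0 1 252 1 (.C 1 2 3 2 (.B 2 1 16 (.C 0 2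
  3048 1 (.C 1 3 1 16 (.C 1 3 2 1 (.L 381) (.C 0 3 1016 1 (.C 1 3 1 1 (.L
  381) (.C 0 3 2032 1 (.C 1 3 1 1 (.L 1754) (.C 2 3 2 3 (.L 1754) (.C 2 3 1
  6 (.L 535) (.C 0 1 8120 1 (.C 0 2 48768 1 (.B 0 1 2 (.B 1 1 4 (.L 983) (.B
  1 1 8 (.L 1365) (.L 155))) (.B 1 1 1 (.L 1832) (.B 2 4 1 (.B 1 1 2 (.L
  1832) (.B 1 1 4 (.L 69) (.B 2 8 1 (.L 155) (.L 69)))) (.L 1832)))) (.L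
  1314)) (.L 1314))))) (.L 983))) (.L 1920))) (.B 0 1 2 (.L 220) (.C 0 3 32
  1 (.C 1 3 1 16 (.C 0 3 2040 1 (.C 0 1 1016 1 (.C 0 2 6096 1 (.C 2 3 1 3
  (.B 1 1 1 (.L 1832) (.L 220)) (.B 1 1 1 (.B 1 2 1 (.L 758) (.C 0 1 2032 1
  (.C 1 3 1 1 (.L 1142) (.L 144)) (.L 983))) (.L 220))) (.L 1920)) (.L
  1920)) (.L 1920)) (.B 1 1 1 (.B 1 2 1 (.L 1777) (.C 2 3 1 95 (.C 1 2 3 1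
  (.L 144) (.L 1)) (.L 220))) (.L 82))) (.G 425 3900 0 15892 252284 1513703
  7946 [.g 4 3 1 0, .n, .n, .g 11 21 0 0])))) (.C 1 3 1 16 (.G 3900 3713 2 1
  1 1 1 [.n, .n, .g 1 0 0 566, .n]) (.C 0 3 1 191 (.G 2689 1920 2 1 1 1 1
  [.n, .n, .g 1 0 0 1594, .n]) (.G 2950 11 0 1526 127 381 4 [.n, .g 36 65 0
  0, .g 9 2 0 4044, .g 1 0 389 3495])))) (.C 0 2 3048 1 (.C 0 3 32 1 (.B 0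
  16 1 (.C 0 1 504 1 (.B 2 1 32 (.C 1 3 1 16 (.L 1920) (.L 220)) (.L 3711))
  (.G 3199 2687 2 1446 723 8748 92 [.g 1 1 233 37, .n, .n, .n])) (.B 2 1 1
  (.C 1 3 1 8 (.L 381) (.B 1 2 1 (.C 0 3 64 1 (.C 0 3 128 1 (.C 0 3 256 1
  (.C 2 3 1 12 (.L 381) (.C 1 3 1 2 (.L 381) (.C 1 3 1 4 (.L 1832) (.B 0 1 4
  (.C 1 3 1 8 (.L 1920) (.L 220)) (.L 758))))) (.L 1716)) (.L 3132)) (.L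
  3132)) (.C 1 3 1 16 (.L 1920) (.L 82)))) (.L 3300))) (.G 3488 1627 2 1 1 1
  1 [.n, .n, .n, .g 1 0 5742 643])) (.G 2464 1627 2 1 1 1 1 [.g 1 0 811 0,
  .n, .n, .n]))) (.C 1 2 1 4 (.B 1 1 1 (.B 0 16 1 (.L 93) (.C 1 3 1 95 (.L
  1) (.B 1 2 1 (.G 994 1404 0 1 6088 6120 32 [.n, .n, .g 41 1 4103 0, .n,
  .n]) (.L 107)))) (.L 93)) (.C 2 3 1 24 (.L 45) (.B 1 1 1 (.B 0 16 1 (.L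
  1816) (.C 1 3 1 191 (.L 29) (.C 2 3 1 48 (.L 29) (.C 2 3 1 96 (.L 1000)
  (.C 1 3 1 382 (.L 1000) (.L 106)))))) (.L 1816))))) (.C 1 3 1 8 (.G 2184
  2108 0 252 126 386 252 [.g 1 0 0 41, .n, .n, .g 1 0 0 199]) (.C 0 3 1 16
  (.G 871 3336 2 1 1 1 1 [.n, .n, .g 2 0 0 4355, .n]) (.G 2175 1192 3 254
  127 192 8 [.g 1 0 3997 2713, .n, .n, .g 1 0 3779 0]))))
  (by decide +kernel)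

theorem EN3_c155 : CoN ENTab ⟨⟨0, 1, 16⟩, ⟨0, 1, 8⟩, ⟨1, 1, 16⟩, ⟨1, 0, 0,
  0, 0⟩, ⟨372, 8, 14, 0, 11⟩, ⟨1796, 98, 116, 4, 103⟩, ⟨20, 1, 1, 0, 1⟩⟩ :=
CoN.ofG ENTab_B ENBt_E ENBt_U (.B 1 2 1 (.C 0 2 3048 1 (.C 0 3 32 1 (.C 0 1
  504 1 (.B 2 1 2 (.B 1 4 1 (.L 300) (.C 0 3 64 1 (.C 1 3 1 8 (.L 12) (.C 0
  2 6096 1 (.B 0 1 1 (.B 1 1 4 (.L 73) (.C 1 3 1 16 (.L 1) (.C 2 3 1 95 (.L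
  1) (.C 1 3 1 32 (.L 1) (.C 2 3 1 190 (.L 1) (.C 1 3 1 64 (.L 1) (.C 2 3 1
  380 (.L 1) (.L 31)))))))) (.B 2 4 1 (.B 1 1 2 (.C 0 1 2032 1 (.C 0 3 128 1
  (.C 0 2 12192 1 (.C 0 1 4064 1 (.C 0 2 24384 1 (.C 0 3 256 1 (.B 2 2 1 (.C
  0 2 48768 1 (.C 2 3 1 191 (.C 0 1 8128 1 (.C 1 2 6 1 (.C 0 3 195328 1 (.C
  2 3 2 1 (.C 2 3 4 1 (.L 12) (.C 1 3 48 1 (.L 12) (.L 1))) (.C 0 1 16256 1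
  (.C 0 1 32512 1 (.C 1 2 12 1 (.C 1 3 6 1 (.C 0 1 65024 1 (.C 1 3 6 1 (.C 1
  3 12 1 (.C 1 3 24 1 (.L 56) (.L 1)) (.L 1)) (.L 1)) (.C 1 3 12 1 (.C 1 3
  24 1 (.L 56) (.C 0 3 12 1 (.C 0 3 24 1 (.L 56) (.L 1)) (.L 1))) (.C 0 2 12
  1 (.C 0 3 6 1 (.C 0 3 12 1 (.C 0 1 12 1 (.C 0 3 24 1 (.C 0 1 24 1 (.L 12)
  (.L 1)) (.L 1)) (.L 1)) (.L 1)) (.L 1)) (.L 1)))) (.L 1)) (.L 1)) (.B 0 1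
  8 (.G 12 4 3 699051 349525 8388607 4194304 [.n, .n, .g 1 2550 0 0, .g 2
  5313 0 0, .n, .n]) (.B 1 2 1 (.L 7) (.G 12 4 3 699051 349525 8388607
  4194304 [.n, .n, .g 2 5055 0 0, .g 2 5267 0 0, .n, .n])))) (.C 1 3 24 1
  (.C 1 2 48 1 (.C 1 3 48 1 (.L 12) (.C 0 3 24 1 (.L 12) (.L 1))) (.C 0 2 24
  1 (.C 0 3 24 1 (.L 12) (.L 1)) (.L 1))) (.C 0 1 24 1 (.C 0 2 24 1 (.C 0 3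
  12 1 (.C 0 3 24 1 (.L 56) (.L 1)) (.L 1)) (.L 1)) (.L 1))))) (.B 2 4 1 (.B
  1 2 1 (.G 4 485 2 3080 128 1536 1536 [.n, .n, .n, .g 64 5 0 0, .g 64 9 0
  0, .n]) (.G 12 1 2 8388607 348617 4183409 4183409 [.n, .n, .g 2 5131 0 0,
  .g 1 2674 0 0, .n, .n])) (.G 73 485 2 1 1 1 1 [.n, .n, .n, .g 16 5 0 0])))
  (.C 1 3 1 1 (.C 1 3 2 1 (.L 56) (.C 2 3 4 1 (.L 56) (.L 1))) (.C 2 3 2 1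
  (.C 1 2 1 4 (.L 1) (.C 2 3 4 1 (.L 56) (.L 1))) (.L 1)))) (.B 2 4 1 (.B 2
  8 1 (.B 1 2 1 (.B 0 1 32 (.C 1 2 12 1 (.C 0 1 1 2 (.C 0 1 2 1 (.C 0 2 12 1
  (.C 0 3 12 1 (.C 0 3 24 1 (.L 12) (.G 3526 1 2 3921 327 1960 1960 [.n, .g
  53 63 0 0, .n, .n])) (.L 73)) (.L 73)) (.L 73)) (.L 73)) (.G 12 1 2 699051
  8388607 4194304 8388607 [.n, .n, .g 1 2585 0 0, .g 2 5387 0 0, .n, .n]))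
  (.L 7)) (.G 65 1 2 164926 82463 989557 1984267 [.n, .g 1 50 0 0, .n])) (.L
  3201)) (.L 73))) (.C 1 2 24 1 (.C 1 2 48 1 (.C 1 3 1 16 (.P (.ofNat 7)
  (.ofNat 6)) (.L 1)) (.L 1)) (.L 1))) (.C 0 1 1 12 (.C 0 3 1 191 (.B 1 2 1
  (.L 485) (.G 65 1 2 1057953 2115906 528976 2115906 [.n, .g 1 49 0 0, .n]))
  (.L 73)) (.L 73))) (.B 0 1 4 (.L 73) (.C 0 1 8128 1 (.C 0 2 48768 1 (.C 0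
  3 512 1 (.B 1 8 1 (.L 168) (.C 0 1 16256 1 (.C 0 2 97536 1 (.C 0 3 1024 1
  (.B 0 2 1 (.L 73) (.B 1 1 2 (.C 0 1 32512 1 (.C 0 3 2048 1 (.C 0 2 195072
  1 (.C 2 3 1 95 (.C 2 3 2 1 (.L 56) (.C 1 3 12 1 (.L 56) (.L 1))) (.C 1 3 1
  16 (.C 1 2 12 1 (.C 1 3 2 1 (.L 56) (.L 1)) (.L 1)) (.L 1))) (.L 485)) (.L
  485)) (.L 485)) (.L 3201))) (.L 73)) (.L 73)) (.L 73))) (.L 485)) (.L 73))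
  (.L 73)))) (.L 73)) (.L 73)) (.L 73)) (.L 73)) (.L 73)) (.L 73)) (.C 0 1
  2032 1 (.C 0 2 12192 1 (.C 0 3 128 1 (.B 1 1 4 (.C 0 1 4064 1 (.B 0 1 2
  (.L 1) (.C 1 3 1 32 (.C 1 2 3 1 (.B 1 2 1 (.C 1 2 6 1 (.C 0 1 8128 1 (.C 1
  2 6 1 (.C 0 1 16256 1 (.C 1 2 6 1 (.C 0 1 32512 1 (.C 1 2 6 1 (.C 1 2 12 1
  (.P (.ofNat 9) (.ofNat 8)) (.L 1)) (.L 1)) (.G 12 4 3 1405421 702711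
  8388607 351355 [.n, .n, .g 1 6039 0 0, .g 1 6287 0 0, .n, .n])) (.L 1))
  (.B 0 1 4 (.L 1) (.G 1538 1 2 55520 27760 333119 27760 [.n, .g 1 51 0 0,
  .n, .n]))) (.L 1)) (.G 1538 1 2 30854 15427 185123 30854 [.n, .g 1 43 0 0,
  .n, .n])) (.L 1)) (.L 1)) (.L 1)) (.L 1))) (.L 73)) (.C 1 3 1 16 (.L 1)
  (.C 1 3 1 32 (.L 1) (.C 1 3 1 64 (.L 1) (.C 1 3 1 128 (.L 1) (.C 2 3 1 95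
  (.L 1) (.C 2 3 1 190 (.L 1) (.C 2 3 1 380 (.L 1) (.L 31))))))))) (.G 11 1
  5 11911 189094 1134565 5956 [.g 1 494 0 0, .n, .n, .n])) (.G 1 2448 1 762
  127 381 4 [.n, .n, .n, .n, .n, .g 256 3 0 0])) (.G 565 1 5 254 127 762 8
  [.n, .n, .g 2 29 0 0, .g 1 117 0 0]))) (.G 292 565 0 1 1 1 1 [.n, .n, .g
  16 7 0 0]))) (.B 1 1 2 (.L 73) (.C 2 3 1 48 (.L 1) (.B 2 2 1 (.B 1 1 4 (.L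
  73) (.B 2 4 1 (.G 565 1 5 762 127 765 8 [.n, .n, .g 2 29 0 0, .n]) (.L
  73))) (.L 73)))))) (.B 1 1 2 (.L 73) (.B 2 2 1 (.B 1 1 4 (.L 73) (.B 2 4 1
  (.B 1 1 8 (.L 73) (.C 1 3 1 16 (.C 0 2 48 1 (.C 1 2 12 1 (.C 0 1 8 1 (.B 1
  1 16 (.L 1700) (.C 1 3 1 1 (.B 2 8 1 (.C 0 2 190 1 (.G 565 1 5 8 127 3041
  254 [.n, .n, .g 2 31 0 0, .n]) (.G 2876 4 3 347924 14535 174416 29069 [.g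
  5 33 0 0, .n, .n, .n])) (.G 4 2010 1 8 127 1521 254 [.n, .n, .n, .g 64 5 0
  0, .n, .g 64 3 0 0])) (.C 0 3 16 1 (.B 2 8 1 (.B 2 16 1 (.B 1 1 32 (.L
  2010) (.B 1 1 64 (.L 2010) (.C 0 2 190 1 (.G 1 565 2 8 254 3041 255 [.n,
  .n, .n, .n, .n, .g 64 3 0 0]) (.G 4 73 0 4757 396 2379 396 [.n, .n, .n, .g
  64 19 0 0, .n, .n])))) (.L 2010)) (.L 73)) (.L 73)))) (.G 4 4031 0 35302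
  17651 425835 35302 [.n, .n, .n, .g 64 3 0 0, .g 32 1 0 0, .n])) (.C 0 2 96
  1 (.C 0 3 16 1 (.B 1 1 16 (.L 73) (.B 1 1 32 (.L 2010) (.B 2 8 1 (.B 1 1
  64 (.L 2010) (.B 2 16 1 (.C 1 3 1 6 (.C 0 3 381 1 (.C 0 3 762 1 (.C 0 1
  190 1 (.G 565 4 5 8 3041 1533 12195 [.n, .n, .g 5 63 0 0, .n]) (.G 1 1700
  1 14430 7215 7215 57721 [.n, .n, .g 64 7 0 0, .n, .n, .n])) (.G 1 73 0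
  47290 5911 5911 23645 [.n, .n, .g 8 1 0 0, .n, .n, .n])) (.G 4 73 0 12547
  3137 3137 6274 [.n, .n, .n, .g 64 19 0 0, .n, .n])) (.G 565 1 5 8 3051
  1533 255 [.n, .n, .g 9 64 0 0, .n])) (.L 2010))) (.L 2010)))) (.L 73)) (.L
  73))) (.G 3388 2010 1 672 55 336 111 [.g 21 64 0 0, .n, .n, .n])) (.G 565
  73 0 1 1 1 1 [.n, .n, .g 64 19 0 0, .n]))) (.L 73))) (.L 73))))) (.L 300))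
  (.B 1 4 1 (.L 999) (.G 3388 1122 3 126 63 762 8 [.g 11 16 0 0, .n, .n, .g
  32 3 0 0]))) (.G 73 168 1 1 1 1 1 [.n, .g 1 0 6603 0, .n, .n])) (.G 168
  758 2 1 1 1 1 [.n, .g 2 1 16556 0, .n, .n])) (.C 1 3 1 16 (.C 0 3 1016 1
  (.C 1 3 4 1 (.C 0 2 3048 1 (.C 1 2 12 1 (.L 177) (.B 1 1 2 (.B 2 1 4 (.B 1
  2 1 (.L 12) (.C 0 3 4048 1 (.C 2 3 4 3 (.C 0 2 6096 1 (.C 1 2 1 1 (.L 12)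
  (.C 1 2 1 2 (.L 12) (.L 1))) (.L 1698)) (.L 12)) (.L 1698))) (.L 12)) (.B
  0 4 1 (.L 381) (.C 0 3 4048 1 (.C 1 2 1 2 (.L 1698) (.C 0 2 6096 1 (.B 1 1
  4 (.C 2 3 2 3 (.C 1 2 1 2 (.L 1442) (.L 1)) (.L 1442)) (.L 1630)) (.L
  381))) (.L 381))))) (.L 1186)) (.C 2 3 2 3 (.B 1 1 2 (.C 1 2 3 4 (.C 1 3 3
  1 (.L 12) (.C 0 2 24336 1 (.C 0 3 12192 1 (.B 2 1 4 (.B 1 2 1 (.C 2 3 1 2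
  (.L 12) (.L 1)) (.L 1)) (.B 2 1 8 (.B 1 4 1 (.L 12) (.L 1)) (.L 12))) (.G
  1498 381 3 16 16 33 8 [.g 32 11 0 0, .n, .n, .n])) (.L 1954))) (.C 0 2
  3048 1 (.C 0 1 24336 1 (.C 1 3 1 4 (.B 2 1 4 (.B 1 2 1 (.L 12) (.L 1)) (.L
  12)) (.L 1)) (.L 1954)) (.L 1186))) (.C 0 2 3048 1 (.C 0 3 12192 1 (.C 0 1
  4048 1 (.C 0 2 6096 1 (.B 0 4 1 (.B 1 1 8 (.L 381) (.L 1704)) (.C 1 3 3 1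
  (.B 2 8 1 (.B 1 1 4 (.C 1 2 3 2 (.L 1698) (.L 6)) (.L 1630)) (.C 1 2 3 2
  (.L 1442) (.L 1))) (.L 6))) (.L 1704)) (.L 1704)) (.L 1754)) (.L 381)))
  (.B 1 1 2 (.C 1 3 1 2 (.C 1 2 3 1 (.L 12) (.B 2 1 4 (.L 1) (.B 2 1 8 (.L
  1) (.L 12)))) (.L 1)) (.C 1 3 1 2 (.C 0 1 4048 1 (.C 1 2 3 2 (.B 0 4 1 (.L
  381) (.B 1 1 4 (.B 0 1 2 (.L 843) (.B 1 2 1 (.L 1698) (.L 843))) (.L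
  1186))) (.B 2 1 1 (.L 13) (.L 1))) (.L 381)) (.B 2 1 1 (.C 1 2 3 2 (.B 1 1
  4 (.C 1 3 1 4 (.L 1) (.C 1 3 1 8 (.L 1) (.L 2177))) (.B 2 2 1 (.B 1 1 8
  (.L 158) (.B 2 4 1 (.C 1 3 1 4 (.L 262) (.L 155)) (.L 158))) (.C 0 2 48720
  1 (.C 1 3 1 4 (.L 1630) (.C 1 3 1 8 (.L 1) (.L 2177))) (.L 1832)))) (.L
  69)) (.L 1)))))) (.C 0 1 1 4 (.C 1 3 1 4 (.C 0 2 3 2 (.B 1 1 2 (.G 843 1 2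
  18010 36020 108061 72041 [.g 23 63 0 0, .n, .n, .n]) (.G 535 983 3 5543
  11085 33255 22170 [.g 64 11 0 0, .n, .n, .n])) (.L 381)) (.G 1314 1 5 18
  72 27 9 [.n, .n, .n, .g 3 34 0 0])) (.G 381 2364 3 2007 249 1509 498 [.g 4
  1 0 0, .n, .n, .n]))) (.B 2 1 1 (.B 1 1 2 (.C 0 2 3048 1 (.C 2 3 1 191 (.C
  2 3 2 1 (.L 1) (.C 1 3 12 1 (.L 1) (.B 1 2 1 (.B 0 1 1 (.L 144) (.L 1))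
  (.L 144)))) (.C 0 3 32 1 (.C 1 3 1 16 (.C 0 1 1016 1 (.B 0 1 1 (.C 1 2 6 1
  (.C 1 2 12 1 (.B 1 1 1 (.C 1 3 1 1 (.L 1) (.L 144)) (.L 1460)) (.L 144))
  (.L 144)) (.B 1 2 1 (.L 1) (.C 1 2 6 1 (.B 1 1 2 (.L 1) (.C 1 2 12 1 (.B 2
  1 1 (.L 1460) (.L 1)) (.L 144))) (.L 144)))) (.G 265 1 5 1398101 699051
  8388607 1398101 [.g 1 698 0 0, .n, .n, .n, .n, .n, .g 1 40231 0 0, .g 1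
  41923 0 0])) (.B 1 2 1 (.B 0 1 1 (.L 220) (.C 2 3 1 191 (.C 1 3 12 1 (.L
  1) (.B 0 1 2 (.L 107) (.B 1 4 1 (.L 1) (.L 107)))) (.C 1 3 1 32 (.C 0 1
  2040 1 (.C 1 2 6 1 (.C 1 2 12 1 (.C 1 3 1 1 (.L 1) (.B 0 1 2 (.L 107) (.B
  1 4 1 (.L 1) (.L 107)))) (.C 1 3 1 24 (.B 1 4 1 (.L 1) (.L 107)) (.L
  123))) (.B 0 1 2 (.L 31) (.B 1 4 1 (.L 1) (.L 31)))) (.G 11 4 5 302159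
  151080 1812957 302159 [.g 1 801 0 0, .n, .n, .n])) (.L 330)))) (.L 220)))
  (.G 314 1117 3 11 177 2126 6 [.g 8 5 0 0, .n, .n, .n, .n]))) (.G 1 1777 2
  762 127 381 4 [.n, .n, .n, .n, .n, .g 4096 11 0 0])) (.L 220)) (.C 0 2
  3048 1 (.C 0 3 32 1 (.C 2 3 1 95 (.L 1) (.C 0 1 1016 1 (.B 2 1 2 (.C 0 3
  64 1 (.B 1 1 1 (.C 2 3 1 95 (.L 1) (.C 1 3 1 16 (.L 1) (.C 1 3 1 32 (.C 2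
  3 1 3 (.L 1) (.C 1 3 2 1 (.L 1) (.B 0 1 2 (.L 107) (.B 1 2 1 (.L 1) (.L
  107))))) (.C 1 3 1 64 (.B 1 2 1 (.C 1 3 2 1 (.B 0 1 2 (.L 107) (.L 1)) (.L
  27)) (.L 107)) (.L 27))))) (.C 1 3 1 16 (.B 2 2 1 (.B 1 1 2 (.L 1) (.C 1 3
  2 1 (.L 1) (.L 144))) (.L 1)) (.L 220))) (.C 0 1 16 1 (.B 1 1 1 (.C 1 2 3
  1 (.C 0 2 191 1 (.C 1 3 1 64 (.C 0 3 64 1 (.C 0 1 32 1 (.B 1 2 1 (.B 0 1 2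
  (.L 799) (.B 1 4 1 (.C 0 2 382 1 (.L 330) (.G 4 11 0 1543250 129277 775665
  258555 [.n, .n, .n, .n, .n, .g 1024 1 0 0])) (.L 27))) (.L 31)) (.G 11 4 5
  129538 64769 777227 259076 [.g 1 394 0 0, .n, .n, .n])) (.L 414)) (.C 2 3
  1 764 (.C 0 2 382 1 (.L 31) (.G 20 414 4 4129 346 2075 4129 [.n, .n, .n,
  .g 24 65 0 0])) (.L 31))) (.G 758 414 2 1 1 1 1 [.g 64 31 0 0, .n, .n]))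
  (.G 414 11 0 8 1526 761 4 [.n, .n, .g 1 0 4174 0, .n, .g 32 9 0 0])) (.L
  220)) (.G 314 1 5 294576 146710 879107 4621 [.g 1 483 0 0, .n, .n, .n,
  .n]))) (.B 0 2 1 (.L 300) (.C 1 3 1 32 (.L 1) (.C 0 1 4080 1 (.C 1 2 3 2
  (.C 1 3 1 128 (.C 2 3 1 3 (.L 1) (.C 1 3 2 1 (.B 1 2 1 (.L 1) (.C 0 1 8160
  1 (.B 0 2 1 (.L 414) (.L 27)) (.L 414))) (.C 2 3 1 6 (.C 1 2 3 1 (.L 31)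
  (.B 2 1 1 (.L 27) (.L 1))) (.L 31)))) (.C 2 3 1 763 (.C 0 1 16352 1 (.B 1
  2 1 (.C 1 2 3 2 (.C 1 2 6 1 (.L 330) (.L 1)) (.L 1)) (.B 0 2 1 (.L 414)
  (.L 27))) (.B 1 2 1 (.G 11 4 5 1077805 538902 1616707 3233414 [.g 2 1135 0
  0, .n, .n, .n]) (.L 758))) (.L 31))) (.C 2 3 1 190 (.B 1 2 1 (.L 1) (.C 0
  2 12176 1 (.C 0 3 24336 1 (.B 2 1 1 (.L 107) (.L 1)) (.L 758)) (.L 758)))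
  (.C 1 3 1 763 (.B 1 2 1 (.L 1) (.C 0 3 97664 1 (.B 2 1 1 (.L 107) (.L 1))
  (.L 758))) (.L 27)))) (.G 4 300 0 510 255 761 4 [.n, .n, .n, .n, .n, .g
  128 1 0 0]))))) (.G 1404 4 5 254 127 1522 8 [.n, .n, .g 9 65 0 0, .n])))
  (.L 1716)) (.L 1716))))) (by decide +kernel)

theorem EN3_c156 : CoN ENTab ⟨⟨0, 1, 16⟩, ⟨0, 1, 8⟩, ⟨1, 1, 16⟩, ⟨1, 0, 0,
  0, 0⟩, ⟨1796, 98, 116, 4, 103⟩, ⟨340, 37, 37, 2, 35⟩, ⟨20, 1, 1, 0, 1⟩⟩ :=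
CoN.ofG ENTab_B ENBt_E ENBt_U (.B 1 2 1 (.C 2 3 1 24 (.B 0 1 2 (.B 0 2 1 (.C
  1 2 1 4 (.C 1 3 1 2 (.C 0 2 6120 1 (.C 0 3 6120 1 (.C 0 1 3048 1 (.B 1 1 2
  (.L 300) (.L 1)) (.L 1186)) (.L 381)) (.L 381)) (.L 1000)) (.L 1130)) (.C
  0 2 768 1 (.C 1 3 1 2 (.C 0 3 6120 1 (.C 0 1 3048 1 (.B 1 1 1 (.G 2448 565
  1 1 1 1 1 [.g 1 0 532 0, .n, .n, .n]) (.C 1 2 1 4 (.B 2 2 1 (.B 1 1 2 (.L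
  73) (.L 1)) (.L 300)) (.L 856))) (.L 1186)) (.L 381)) (.L 1)) (.O 1))) (.C
  0 2 768 1 (.C 0 3 1536 1 (.C 0 1 3048 1 (.C 0 2 1536 1 (.B 1 4 1 (.L 300)
  (.B 2 1 1 (.C 0 3 3072 1 (.B 1 1 2 (.B 1 2 1 (.L 168) (.C 0 1 6096 1 (.C 0
  2 3072 1 (.C 0 3 6144 1 (.C 0 1 12192 1 (.B 2 1 2 (.C 0 2 6144 1 (.C 0 3
  12288 1 (.C 0 1 24384 1 (.C 1 2 1 4 (.C 1 3 1 2 (.C 1 3 2 1 (.L 12) (.L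
  1)) (.L 1)) (.L 1130)) (.L 73)) (.L 73)) (.L 73)) (.L 168)) (.L 73)) (.L
  73)) (.L 73)) (.L 73))) (.B 2 2 1 (.L 1) (.C 0 1 6096 1 (.C 0 1 12192 1
  (.L 1) (.L 73)) (.L 73)))) (.L 73)) (.L 300))) (.G 414 300 2 1 1 1 1 [.n,
  .g 1 0 2071 0, .n, .n, .n])) (.G 1117 485 0 1 1 1 1 [.n, .g 1 0 892 0, .n,
  .n])) (.G 73 168 1 1 1 1 1 [.n, .g 1 0 5334 0, .n, .n])) (.O 1))) (.C 1 3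
  1 95 (.C 0 1 3048 1 (.C 0 2 1536 1 (.C 0 3 6088 1 (.B 2 1 2 (.C 0 2 3072 1
  (.B 1 4 1 (.L 300) (.B 1 1 2 (.B 1 2 1 (.L 414) (.C 0 1 6096 1 (.C 0 3
  12176 1 (.B 2 1 2 (.C 0 2 6144 1 (.C 0 1 12192 1 (.C 0 3 24352 1 (.B 0 1 1
  (.L 1) (.C 0 2 12288 1 (.C 0 3 48704 1 (.C 0 1 24384 1 (.C 1 2 1 2 (.C 1 3
  2 1 (.C 1 2 2 1 (.L 56) (.L 1)) (.L 1)) (.L 1)) (.L 73)) (.L 73)) (.L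
  73))) (.L 73)) (.L 73)) (.L 73)) (.L 414)) (.L 73)) (.L 73))) (.L 1))) (.L
  414)) (.L 300)) (.G 485 999 1 1 1 1 1 [.g 1 0 7118 0, .n, .n, .n])) (.G
  664 999 1 1 1 1 1 [.n, .n, .n, .g 1 0 3252 0])) (.G 999 3007 1 1 1 1 1
  [.n, .g 1 0 5319 0, .n, .n])) (.B 1 4 1 (.G 664 292 1 1 1 1 1 [.n, .n, .n,
  .g 1 0 2855 0]) (.C 1 3 1 190 (.L 1) (.C 2 3 1 48 (.L 1) (.C 1 3 1 380 (.L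
  1) (.C 2 3 1 96 (.L 1) (.C 1 3 1 760 (.L 1) (.B 1 1 2 (.B 2 1 8 (.L 1) (.G
  4 485 0 1 48648 6144 32 [.n, .n, .n, .n, .n, .g 32768 1 5935 0])) (.B 1 1
  4 (.B 0 8 1 (.L 31) (.L 1)) (.L 31))))))))))) (.C 1 2 1 4 (.C 0 3 32 1 (.B
  2 1 1 (.B 1 1 2 (.C 1 3 1 48 (.L 1) (.B 1 2 1 (.B 0 1 1 (.L 107) (.C 2 3 1
  96 (.L 1) (.C 1 3 1 96 (.L 1) (.B 1 4 1 (.C 2 3 1 192 (.L 1) (.B 0 1 2 (.L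
  107) (.C 1 3 1 192 (.L 1) (.C 2 3 1 384 (.L 1) (.L 31))))) (.L 107)))))
  (.L 107))) (.L 93)) (.C 2 3 1 96 (.L 1) (.C 1 3 1 48 (.L 1) (.C 0 2 12264
  1 (.C 1 3 1 96 (.B 2 1 2 (.B 1 1 1 (.L 1) (.L 107)) (.L 1)) (.C 2 3 1 383
  (.C 1 2 2 1 (.B 2 1 2 (.B 1 1 1 (.B 0 1 2 (.L 107) (.B 1 2 1 (.L 1) (.L
  107))) (.L 1852)) (.C 0 2 49056 1 (.C 0 1 12264 1 (.B 0 2 1 (.L 300) (.B 1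
  2 1 (.L 1) (.C 0 3 49040 1 (.B 2 1 1 (.L 107) (.L 1)) (.L 758)))) (.L 1))
  (.L 1))) (.L 994)) (.B 2 1 2 (.C 1 3 1 192 (.B 1 1 1 (.B 0 1 2 (.L 107)
  (.B 1 2 1 (.L 1) (.L 107))) (.L 1852)) (.L 27)) (.B 0 2 1 (.L 1404) (.C 1
  3 1 192 (.B 1 2 1 (.L 1) (.B 2 1 1 (.L 107) (.L 1))) (.L 27)))))) (.L
  1404))))) (.C 0 2 96 1 (.B 2 1 1 (.G 1777 1197 4 8 381 1533 4 [.n, .n, .g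
  14 65 0 0, .n]) (.L 1716)) (.G 1659 1384 0 1533 381 765 4 [.n, .g 1 0 3500
  0, .n, .n]))) (.C 2 3 1 24 (.L 45) (.C 2 3 1 48 (.L 93) (.C 1 3 1 191 (.L
  29) (.C 1 3 1 382 (.L 263) (.B 2 1 1 (.L 3644) (.B 2 1 2 (.L 3644) (.C 1 3
  1 764 (.C 2 3 16 1 (.L 23) (.L 106)) (.C 2 3 1 96 (.B 2 1 4 (.L 31) (.C 0
  2 3072 1 (.L 31) (.L 1716))) (.L 31))))))))))) (by decide +kernel)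

theorem EN3_c157 : CoN ENTab ⟨⟨0, 1, 16⟩, ⟨0, 1, 8⟩, ⟨1, 1, 16⟩, ⟨372, 8,
  14, 0, 11⟩, ⟨120, 8, 14, 0, 11⟩, ⟨340, 37, 37, 2, 35⟩, ⟨20, 1, 1, 0, 1⟩⟩
  :=
CoN.ofG ENTab_B ENBt_E ENBt_U (.C 1 3 1 8 (.G 871 18 1 158 79 243 158 [.n,
  .n, .g 1 0 0 1229, .g 6 1 337 0]) (.C 0 2 3 2 (.C 0 3 1 16 (.G 1204 983 3
  16 16 97 32 [.g 1 34 3073 0, .n, .n, .g 1 0 1984 0]) (.B 1 2 1 (.O 1) (.G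
  1374 1685 0 254 127 762 8 [.g 32 25 0 0, .n, .g 1 0 344 1098, .g 8 1 0
  0]))) (.C 2 3 1 24 (.G 43 247 0 1571243 261874 392811 785621 [.n, .n, .g 7
  0 62 64, .g 2 0 32 33]) (.G 1659 1627 1 1 1 1 1 [.n, .g 1 0 5689 0, .n,
  .n])))) (by decide +kernel)

theorem EN3_c158 : CoN ENTab ⟨⟨0, 0, 1⟩, ⟨0, 1, 8⟩, ⟨1, 1, 16⟩, ⟨20, 1, 1,
  0, 1⟩, ⟨40, 4, 10, 0, 7⟩, ⟨100, 25, 25, 2, 23⟩, ⟨4, 1, 1, 0, 1⟩⟩ :=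
CoN.ofG ENTab_B ENBt_E ENBt_U (.C 0 1 4 1 (.C 1 3 1 16 (.C 0 2 12 1 (.G 1796
  18 1 18173 143113 436155 288498 [.n, .g 59 0 64 40, .g 64 0 24 11, .g 16 0
  7 0]) (.O 1)) (.B 0 8 1 (.C 1 2 3 4 (.B 1 1 1 (.O 1) (.L 220)) (.C 2 3 1
  24 (.C 0 2 12 1 (.C 0 2 24 1 (.G 3519 3398 0 4072 389426 195477 97738 [.n,
  .g 5 38 66 0, .n, .n]) (.O 1)) (.O 1)) (.B 1 1 1 (.O 1) (.L 93)))) (.C 0 2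
  12 1 (.C 0 3 1 2 (.C 0 1 16 1 (.B 1 2 1 (.O 1) (.G 3092 1 5 8907 283913
  213770 17814 [.n, .g 4 0 3 0, .g 16 0 12 3, .n])) (.O 1)) (.O 1)) (.O
  1)))) (.O 1)) (by decide +kernel)

theorem EN3_c159 : CoN ENTab ⟨⟨0, 1, 8⟩, ⟨0, 1, 4⟩, ⟨1, 3, 16⟩, ⟨1, 0, 0, 0,
  0⟩, ⟨8, 0, 2, 0, 1⟩, ⟨4, 1, 1, 1, 0⟩, ⟨4, 1, 1, 0, 1⟩⟩ :=
CoN.ofG ENTab_B ENBt_E ENBt_U (.C 2 3 1 1 (.C 1 2 3 4 (.L 94) (.C 0 2 16 1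
  (.C 0 3 24 1 (.C 0 1 100 1 (.B 1 4 1 (.L 7) (.C 0 2 32 1 (.C 0 3 48 1 (.B
  1 1 2 (.L 7) (.B 2 1 2 (.C 0 1 200 1 (.C 0 2 64 1 (.C 0 3 96 1 (.B 1 1 4
  (.L 7) (.B 2 2 1 (.C 0 1 400 1 (.C 0 2 128 1 (.C 2 3 3 4 (.C 2 3 6 1 (.L
  1200) (.L 656)) (.L 1141)) (.L 210)) (.L 7)) (.L 7))) (.L 7)) (.L 7)) (.L
  7)) (.L 7))) (.L 7)) (.L 7))) (.L 7)) (.L 7)) (.L 1428))) (.C 2 3 2 3 (.L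
  94) (.C 1 3 3 4 (.C 2 3 4 3 (.L 94) (.L 264)) (.C 2 3 1 6 (.C 1 2 3 4 (.L
  408) (.C 2 3 2 1 (.L 94) (.L 408))) (.C 2 3 1 12 (.C 2 3 2 1 (.L 881) (.B
  1 4 1 (.G 1233 638 2 1 1 1 1 [.n, .n, .n, .g 1 0 9088 0]) (.L 148))) (.C 1
  3 1 8 (.B 1 4 1 (.G 1131 1295 2 1 1 1 1 [.n, .g 1 3 4812 0, .n, .n, .n])
  (.L 148)) (.B 1 4 1 (.L 396) (.L 9)))))))) (by decide +kernel)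

theorem EN3_c160 : CoN ENTab ⟨⟨0, 1, 8⟩, ⟨1, 3, 16⟩, ⟨1, 1, 8⟩, ⟨1, 0, 0, 0,
  0⟩, ⟨8, 0, 2, 0, 1⟩, ⟨4, 1, 1, 1, 0⟩, ⟨8, 2, 2, 1, 1⟩⟩ :=
CoN.ofG ENTab_B ENBt_E ENBt_U (.C 1 2 3 4 (.L 94) (.C 2 3 3 2 (.C 0 2 16 1
  (.C 1 2 1 3 (.L 656) (.C 2 3 3 1 (.B 2 1 1 (.L 882) (.C 0 3 192 1 (.B 0 2
  1 (.C 1 2 1 6 (.L 656) (.B 2 1 2 (.L 882) (.B 2 1 4 (.B 2 2 1 (.L 1640)
  (.L 7)) (.L 7)))) (.L 882)) (.L 1428))) (.L 656))) (.G 3744 592 2 67 210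
  34 202 [.n, .n, .n, .n, .n, .n, .g 5 2 0 3937, .g 1 1 0 1256])) (.L 656)))
  (by decide +kernel)

theorem EN3_c161 : CoN ENTab ⟨⟨0, 1, 8⟩, ⟨1, 3, 16⟩, ⟨1, 1, 8⟩, ⟨1, 0, 0, 0,
  0⟩, ⟨8, 0, 2, 0, 1⟩, ⟨8, 2, 2, 1, 1⟩, ⟨28, 7, 7, 2, 5⟩⟩ :=
  CoN.ofG ENTab_B ENBt_E ENBt_U (.L 94) (by decide +kernel)

theorem EN3_c162 : CoN ENTab ⟨⟨0, 1, 8⟩, ⟨1, 3, 16⟩, ⟨1, 1, 8⟩, ⟨1, 0, 0, 0,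
  0⟩, ⟨8, 0, 2, 0, 1⟩, ⟨28, 7, 7, 2, 5⟩, ⟨40, 4, 10, 0, 7⟩⟩ :=
CoN.ofG ENTab_B ENBt_E ENBt_U (.C 2 3 4 3 (.L 94) (.C 1 3 6 1 (.L 264) (.G
  1088 461 2 1 1 1 1 [.n, .n, .g 1 0 0 274, .n]))) (by decide +kernel)

theorem EN3_c163 : CoN ENTab ⟨⟨0, 1, 8⟩, ⟨1, 3, 16⟩, ⟨1, 1, 8⟩, ⟨1, 0, 0, 0,
  0⟩, ⟨40, 4, 10, 0, 7⟩, ⟨28, 7, 7, 2, 5⟩, ⟨52, 13, 13, 2, 11⟩⟩ :=
CoN.ofG ENTab_B ENBt_E ENBt_U (.C 1 2 3 4 (.G 1088 1020 2 1 124 756 192 [.n,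
  .n, .g 1 0 0 483, .n]) (.C 2 3 2 1 (.L 94) (.G 122 1088 2 1 756 384 192
  [.n, .g 15 1 0 250, .n, .n, .n, .n, .n, .n]))) (by decide +kernel)

theorem EN3_c164 : CoN ENTab ⟨⟨1, 2, 16⟩, ⟨1, 3, 16⟩, ⟨1, 1, 8⟩, ⟨1, 0, 0,
  0, 0⟩, ⟨40, 4, 10, 0, 7⟩, ⟨52, 13, 13, 2, 11⟩, ⟨72, 12, 18, 0, 15⟩⟩ :=
CoN.ofG ENTab_B ENBt_E ENBt_U (.C 2 3 4 3 (.G 97 812 2 2 297 460 3655 [.n,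
  .n, .n, .g 47 6 64 0]) (.C 1 3 2 1 (.L 97) (.B 1 1 2 (.L 18) (.B 1 1 4 (.L
  466) (.B 2 2 1 (.C 2 3 1 6 (.L 654) (.C 1 3 1 2 (.L 341) (.B 2 4 1 (.C 0 3
  252 1 (.C 1 3 1 2 (.L 108) (.C 2 3 1 6 (.L 108) (.B 1 1 8 (.L 108) (.L
  13)))) (.G 2620 6 2 1390857 2781714 8388607 695429 [.n, .n, .g 1 2325 0 0,
  .g 2 5133 0 1, .n, .n, .n, .n, .n, .n])) (.L 177)))) (.L 466))))))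
  (by decide +kernel)

theorem EN3_c165 : CoN ENTab ⟨⟨1, 2, 16⟩, ⟨1, 3, 16⟩, ⟨1, 1, 8⟩, ⟨1, 0, 0,
  0, 0⟩, ⟨72, 12, 18, 0, 15⟩, ⟨52, 13, 13, 2, 11⟩, ⟨136, 28, 34, 0, 31⟩⟩ :=
CoN.ofG ENTab_B ENBt_E ENBt_U (.C 2 3 5 2 (.B 1 1 2 (.L 65) (.C 0 2 192 1
  (.B 1 1 4 (.L 466) (.B 2 2 1 (.B 2 4 1 (.C 0 1 252 1 (.B 1 1 8 (.L 177)
  (.C 1 2 3 4 (.C 1 3 4 1 (.C 1 2 6 1 (.L 1) (.L 155)) (.L 45)) (.L 369)))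
  (.C 1 2 3 2 (.C 0 2 3 1 (.C 0 3 4 1 (.G 498 6 2 1061010 530505 6399214
  8388607 [.n, .n, .g 1 3539 0 0, .g 1 3707 0 0, .n, .n, .n, .n]) (.G 1630
  3848 2 1 1 1 1 [.n, .n, .g 1 0 0 633, .n])) (.G 3848 843 2 1 1 1 1 [.n,
  .n, .g 1 0 0 1895, .n])) (.B 1 1 8 (.L 177) (.C 0 3 4 1 (.C 0 2 3 4 (.C 0
  2 6 1 (.G 1 1204 3 16 48 193 127 [.n, .n, .g 32 1 0 0, .n, .n, .n]) (.L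
  155)) (.L 369)) (.L 369))))) (.L 177)) (.L 466))) (.G 1088 1896 1 141 92
  70 725 [.g 2 0 0 315, .n, .g 1 0 0 699, .n]))) (.C 0 3 508 1 (.C 2 3 1 2
  (.B 1 1 2 (.L 26) (.B 2 2 1 (.B 1 1 4 (.C 0 2 1976 1 (.C 2 3 1 1 (.L 12)
  (.C 1 3 16 1 (.L 12) (.C 1 3 1 2 (.L 12) (.L 1)))) (.L 12)) (.C 1 2 8 1
  (.L 6) (.C 1 2 1 2 (.C 1 2 2 1 (.C 2 3 1 4 (.B 2 4 1 (.L 6) (.L 177)) (.L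
  6)) (.L 93)) (.L 743)))) (.C 1 3 16 1 (.L 12) (.C 0 2 1976 1 (.C 0 3 4008
  1 (.L 1949) (.L 12)) (.L 12))))) (.C 1 3 4 1 (.B 1 1 2 (.L 26) (.B 2 2 1
  (.B 1 1 4 (.B 1 2 1 (.B 0 1 1 (.L 1) (.L 12)) (.L 6)) (.L 6)) (.B 2 1 2
  (.C 1 3 8 1 (.L 1949) (.B 1 1 1 (.L 12) (.L 6))) (.L 12)))) (.B 1 1 2 (.C
  0 3 1016 1 (.C 2 3 1 2 (.L 26) (.C 1 3 1 1 (.L 26) (.B 1 2 1 (.B 0 1 1 (.C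
  1 3 1 2 (.B 0 2 1 (.L 1) (.L 12)) (.L 1)) (.C 1 3 1 2 (.L 56) (.C 2 3 1 4
  (.L 56) (.C 2 3 1 8 (.L 184) (.C 1 3 1 4 (.L 184) (.B 0 1 2 (.L 1) (.B 1 4
  1 (.C 1 3 1 8 (.L 1242) (.B 1 8 1 (.B 0 1 4 (.C 2 3 1 16 (.L 564) (.C 1 3
  1 16 (.C 1 3 2 1 (.L 564) (.L 1)) (.L 1))) (.L 564)) (.B 0 4 1 (.L 1) (.B
  1 1 2 (.C 2 3 1 16 (.L 1242) (.C 1 3 1 16 (.L 1242) (.L 1))) (.L 1)))))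
  (.L 1)))))))) (.L 1)))) (.G 1 65 1 124436 124436 244983 62218 [.n, .n, .g
  256 5 0 0, .n, .g 256 11 0 0, .n])) (.B 2 2 1 (.B 1 1 4 (.B 1 2 1 (.L 1)
  (.C 1 3 1 2 (.L 1) (.C 1 2 1 1 (.B 1 1 2 (.L 1) (.B 1 1 4 (.L 1) (.L
  405))) (.L 144)))) (.C 2 3 1 4 (.L 6) (.C 1 3 1 2 (.C 1 3 2 1 (.L 13) (.C
  1 3 1 2 (.L 13) (.B 2 4 1 (.B 1 1 8 (.L 934) (.L 369)) (.L 934)))) (.B 2 4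
  1 (.B 1 1 8 (.L 752) (.L 369)) (.L 752))))) (.L 1))))) (.C 0 2 2 1 (.B 1 1
  2 (.C 0 1 1 4 (.C 0 3 1 2 (.C 0 2 4 1 (.B 1 2 1 (.C 0 3 2 1 (.G 4 150 0 16
  32 127 64 [.n, .n, .n, .g 8 1 0 0, .g 64 9 0 0, .n]) (.G 485 1700 2 1 1 1
  1 [.g 1 0 10103 0, .n, .n, .n])) (.G 4 3132 3 16 32 127 32 [.n, .n, .n, .g
  64 3 0 0, .n, .n])) (.G 1 65 1 1271992 317998 635996 317998 [.n, .n, .g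
  256 6 1 0, .n, .g 32 1 1 0, .n])) (.G 999 3988 0 1 1 1 1 [.n, .g 1 0 5067
  0, .n, .n])) (.G 3488 18 1 129 16 254 32 [.n, .n, .g 2 1 3428 0, .g 1 0
  7977 0])) (.C 0 1 1 4 (.B 2 2 1 (.B 1 1 4 (.G 405 1 5 2130440 4260880
  8388607 1065220 [.n, .g 1 12 0 0, .n, .n, .g 1 5796 0 0, .g 1 6143 0 0])
  (.C 1 3 1 4 (.C 0 1 2 1 (.B 2 4 1 (.B 1 1 8 (.L 752) (.L 369)) (.L 752))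
  (.G 1314 1 5 4 2 4 4 [.n, .n, .g 1 0 0 490, .g 64 29 0 0])) (.B 2 4 1 (.B
  1 1 8 (.L 752) (.L 369)) (.L 752)))) (.G 1142 1 5 16 32 63 8 [.n, .n, .g 1
  0 886 0, .g 1 863 0 0])) (.G 1 2108 0 237697 29482 468023 58964 [.n, .n,
  .g 64 0 1 0, .n, .n, .g 64 0 0 1]))) (.G 1197 892 0 2516289 158506 1238331
  317013 [.n, .g 64 0 0 35, .n, .g 17 63 4 0, .g 21 0 32 2]))))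
  (by decide +kernel)

theorem EN3_c166 : CoN ENTab ⟨⟨1, 2, 16⟩, ⟨1, 3, 16⟩, ⟨1, 1, 8⟩, ⟨1, 0, 0,
  0, 0⟩, ⟨136, 28, 34, 0, 31⟩, ⟨52, 13, 13, 2, 11⟩, ⟨4, 1, 1, 0, 1⟩⟩ :=
CoN.ofG ENTab_B ENBt_E ENBt_U (.C 1 2 2 5 (.C 2 3 1 124 (.B 1 1 2 (.C 2 3 2
  1 (.C 1 2 4 1 (.C 0 3 7912 1 (.C 0 1 508 1 (.B 1 2 1 (.C 0 2 4008 1 (.B 0
  1 1 (.L 1) (.C 1 3 16 1 (.C 1 2 8 1 (.B 1 4 1 (.B 0 1 2 (.L 1) (.C 0 3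
  32080 1 (.C 0 2 16144 1 (.C 0 1 1016 1 (.C 1 2 16 1 (.B 1 8 1 (.B 0 1 4
  (.C 1 3 32 1 (.B 0 2 1 (.L 1) (.C 1 2 32 1 (.C 1 3 64 1 (.L 1) (.L 564))
  (.L 564))) (.L 564)) (.L 564)) (.C 1 3 32 1 (.L 1) (.B 1 1 2 (.L 564) (.L
  1)))) (.L 564)) (.G 4 120 0 9071 4535 143995 286289 [.n, .n, .n, .g 64 1 0
  0, .g 32 1 0 0, .n])) (.G 607 7 4 351 11 175 697 [.g 8 3 0 0, .n, .g 64 9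
  0 0, .n])) (.G 607 723 1 1195 19 300 597 [.g 8 3 0 0, .n, .g 4 1 0 0,
  .n]))) (.L 1)) (.L 56)) (.L 56))) (.G 1 65 1 206702 26248 103351 408482
  [.n, .n, .g 64 1 0 0, .n, .g 64 2 1 0, .n])) (.C 1 2 4 1 (.L 1) (.C 0 2
  4008 1 (.L 1) (.C 1 2 1 2 (.G 194 1 4 4194304 4194304 8388607 8388607 [.n,
  .n, .n, .n, .n, .n, .g 1 1591 0 0, .g 1 1651 0 0, .n, .n]) (.L 26))))) (.G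
  1 18 1 75911 37955 298899 1181363 [.n, .n, .g 64 1 0 0, .n, .g 32 1 0 0,
  .n])) (.G 1 18 1 1181363 37955 298899 590681 [.n, .n, .g 64 1 0 0, .n, .g
  64 2 1 0, .n])) (.C 0 3 7912 1 (.L 26) (.L 122))) (.C 0 2 7912 1 (.B 0 1 1
  (.C 0 3 3960 1 (.L 1) (.G 1 484 0 1427985 91758 2855970 716860 [.n, .n,
  .n, .n, .g 256 1 1 0, .n])) (.B 1 2 1 (.C 0 3 3960 1 (.C 0 1 508 1 (.B 1 4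
  1 (.C 0 3 7920 1 (.C 2 3 1 1 (.C 1 2 16 1 (.B 0 1 2 (.C 1 3 31 1 (.L 1)
  (.C 1 3 1 2 (.L 1) (.L 56))) (.C 0 1 1016 1 (.C 1 2 16 1 (.C 1 3 16 1 (.C
  0 1 2032 1 (.C 0 1 4064 1 (.C 1 2 8 1 (.C 0 1 8128 1 (.C 1 3 4 1 (.B 1 8 1
  (.B 0 1 4 (.C 1 3 8 1 (.C 1 2 8 1 (.L 1) (.L 564)) (.L 564)) (.L 564)) (.C
  1 3 8 1 (.L 1) (.C 0 3 129200 1 (.L 1) (.L 1882)))) (.L 564)) (.G 564 4 4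
  8001 4001 63758 31504 [.g 1 8 0 0, .n, .n, .n])) (.L 564)) (.G 564 4 4
  19294 9647 153143 152540 [.g 7 67 0 0, .n, .n, .n])) (.G 1882 4 4 1915 957
  30455 30216 [.g 15 16 0 0, .n, .n, .n])) (.L 564)) (.L 1242)) (.G 1 7 4 32
  16 505 499 [.n, .n, .g 64 1 0 0, .n, .g 256 15 0 0, .n]))) (.L 56)) (.C 0
  3 15840 1 (.C 0 2 31664 1 (.B 0 1 2 (.L 1) (.C 2 3 1 2 (.B 1 8 1 (.B 0 1 4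
  (.C 1 2 62 1 (.L 1) (.C 0 1 126320 1 (.C 0 2 63328 1 (.C 1 2 1 2 (.B 0 2 1
  (.L 1) (.L 564)) (.L 184)) (.L 1882)) (.L 1882))) (.L 564)) (.C 1 2 62 1
  (.L 1) (.C 1 2 1 2 (.B 1 1 2 (.C 0 2 252976 1 (.L 1) (.L 1882)) (.L 1))
  (.L 184)))) (.B 0 1 4 (.L 1) (.B 1 8 1 (.L 39) (.L 1))))) (.G 1 120 0
  252832 4057 126543 126543 [.n, .n, .g 64 1 0 0, .n, .g 32 1 0 0, .n])) (.G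
  1 43 3 183918 5897 183918 91775 [.n, .n, .g 64 1 0 0, .n, .g 32 1 0 0,
  .n]))) (.G 1 7 4 249 16 249 125 [.n, .n, .g 64 3 0 0, .n, .g 64 5 0 0,
  .n])) (.C 1 2 16 1 (.L 1) (.C 2 3 1 2 (.L 56) (.C 0 2 31664 1 (.L 1) (.G 1
  7 4 128 65 64 16 [.n, .n, .n, .n, .g 32 3 0 0, .n]))))) (.C 1 2 31 1 (.G
  416 1 4 32 16 994 249 [.n, .g 1 17 0 0, .n, .g 1 0 4168 0]) (.C 0 1 31 1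
  (.G 1 356 3 16 993 249 125 [.n, .n, .g 64 11 0 0, .n, .g 16 3 0 0, .n])
  (.G 7 729 1 1 1 1 1 [.n, .n, .n, .g 2 1 9477 0, .n])))) (.G 397 356 2 1 1
  1 1 [.g 1 0 7458 0, .n, .n, .n])) (.C 0 3 3960 1 (.L 1) (.G 292 1 4 249 16
  498 125 [.n, .g 1 44 8087 0, .g 4 21 0 0])))) (.G 1 65 1 1082681 34785
  541341 271757 [.n, .n, .g 64 1 0 0, .n, .g 256 10 7 0, .n]))) (.C 1 2 4 1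
  (.B 2 2 1 (.B 1 1 4 (.B 1 2 1 (.B 0 1 1 (.B 0 2 1 (.B 2 1 4 (.L 1) (.C 0 2
  4008 1 (.L 220) (.L 123))) (.L 1)) (.L 1)) (.C 0 2 4008 1 (.B 1 1 2 (.B 0
  4 1 (.L 82) (.L 1)) (.L 82)) (.G 1 484 0 711976 45205 355988 353163 [.n,
  .n, .n, .n, .n, .g 1024 0 1 0]))) (.B 2 4 1 (.L 82) (.L 220))) (.B 2 1 2
  (.B 1 1 1 (.L 1) (.B 1 1 2 (.L 1) (.B 2 2 1 (.C 0 2 4008 1 (.L 220) (.L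
  123)) (.L 1)))) (.L 1))) (.C 1 2 1 2 (.C 1 3 1 1 (.C 1 3 2 1 (.C 1 2 2 1
  (.C 1 2 4 1 (.C 1 2 8 1 (.L 6) (.L 883)) (.L 263)) (.L 263)) (.L 263)) (.L
  29)) (.L 45)))) (.B 1 1 2 (.C 2 3 1 248 (.C 0 2 3960 1 (.B 1 2 1 (.B 1 4 1
  (.B 0 1 1 (.L 1) (.B 0 1 2 (.L 1) (.C 1 2 16 1 (.B 1 8 1 (.B 0 1 4 (.L 1)
  (.C 0 1 508 1 (.L 39) (.G 43 510 0 41414 20707 653566 323548 [.n, .n, .n,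
  .g 187 256 18 0]))) (.L 1)) (.L 312)))) (.L 1)) (.L 1)) (.G 1 878 1 891953
  57314 447768 895535 [.n, .n, .g 64 1 0 0, .n, .g 256 13 1 0, .n])) (.B 0 1
  1 (.C 1 3 1 32 (.L 1) (.C 2 3 1 496 (.L 1) (.C 1 3 1 64 (.L 1) (.C 1 3 1
  128 (.L 1) (.B 1 1 1 (.B 0 2 1 (.C 2 3 1 991 (.L 1) (.L 183)) (.L 1)) (.C
  2 3 1 991 (.B 1 1 2 (.L 1) (.B 1 1 4 (.L 1) (.L 399))) (.L 183))))))) (.B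
  1 2 1 (.B 1 4 1 (.B 0 1 2 (.L 1) (.B 1 8 1 (.B 0 1 4 (.L 1) (.C 1 3 1 32
  (.C 1 2 16 1 (.C 0 1 508 1 (.L 39) (.G 9 1159 0 31266 15633 494393 31266
  [.n, .n, .g 64 0 5 0, .n])) (.L 52)) (.L 52))) (.L 1))) (.L 1)) (.C 1 3 1
  32 (.L 1) (.C 2 3 1 496 (.L 1) (.B 2 1 1 (.B 1 1 2 (.L 1) (.C 1 3 1 64 (.L
  1) (.B 2 2 1 (.B 1 1 4 (.L 1) (.C 2 3 1 991 (.C 0 2 15864 1 (.L 31) (.L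
  1)) (.L 31))) (.L 1)))) (.L 1))))))) (.B 2 2 1 (.B 1 1 4 (.B 0 1 1 (.B 0 2
  1 (.L 82) (.B 1 1 1 (.B 1 2 1 (.B 0 1 2 (.L 220) (.C 1 3 1 32 (.L 265) (.C
  1 3 1 64 (.L 265) (.L 106)))) (.L 220)) (.L 82))) (.C 1 3 1 32 (.B 1 2 1
  (.C 2 3 1 4 (.L 1) (.C 1 3 2 1 (.L 1) (.B 1 4 1 (.B 0 1 2 (.L 123) (.L 1))
  (.L 123)))) (.C 1 2 8 1 (.L 144) (.C 1 2 1 2 (.L 107) (.C 2 3 1 4 (.L 484)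
  (.L 107))))) (.C 0 2 3960 1 (.C 0 2 7920 1 (.L 27) (.G 314 1 5 358778
  23103 179389 362 [.g 1 313 0 0, .n, .n, .n, .n])) (.C 0 1 1 8 (.G 1 734 0
  977028 1983664 488514 1974 [.n, .n, .n, .n, .n, .g 256 1 1 0]) (.O 1)))))
  (.L 82)) (.B 2 1 2 (.C 1 3 1 32 (.B 1 1 1 (.C 2 3 1 4 (.L 1) (.C 1 3 2 1
  (.L 1) (.B 1 2 1 (.B 0 1 2 (.L 123) (.L 1)) (.L 123)))) (.C 2 3 1 4 (.C 0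
  1 508 1 (.C 1 2 4 1 (.L 144) (.L 484)) (.L 265)) (.L 144))) (.C 0 2 3960 1
  (.C 0 2 7920 1 (.L 27) (.G 11 1 5 489317 31509 244659 494 [.g 1 490 0 0,
  .n, .n, .n])) (.B 1 1 1 (.G 1 994 2 1551565 199823 775783 3134 [.n, .n,
  .n, .n, .n, .g 1024 1 2 0]) (.G 220 1397 3 6514401 838976 3257200 13160
  [.n, .n, .n, .n, .n, .n, .n, .n, .n, .g 64 0 19 0])))) (.C 0 3 16 1 (.C 1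
  3 1 16 (.L 1) (.C 2 3 1 124 (.L 1) (.B 2 1 4 (.B 1 2 1 (.C 1 3 1 32 (.L 1)
  (.C 0 2 7928 1 (.L 27) (.G 4 11 0 282879 36466 141439 571 [.n, .n, .n, .n,
  .n, .g 256 1 0 0]))) (.C 1 3 1 32 (.L 123) (.L 27))) (.C 1 3 1 32 (.L 1)
  (.C 2 3 1 248 (.L 1) (.L 601)))))) (.C 0 2 124 1 (.G 300 143 0 8 127 1982
  4 [.g 128 75 0 0, .g 5 2 4314 0, .g 1 3 5950 0, .n]) (.O 1))))))) (.C 2 3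
  1 12 (.B 1 1 2 (.L 122) (.C 0 2 192 1 (.C 0 2 384 1 (.B 2 2 1 (.C 2 3 1 2
  (.B 1 1 4 (.L 432) (.B 2 4 1 (.B 1 1 8 (.L 177) (.L 134)) (.L 177))) (.C 0
  3 384 1 (.C 0 1 1976 1 (.L 121) (.G 445 103 1 3525205 1762603 1375690
  687845 [.n, .n, .n, .g 8 61 0 0, .n, .g 4 68 0 3])) (.G 455 103 1 1112793
  2851531 2225585 556396 [.n, .n, .n, .n, .g 32 0 0 5, .g 29 64 0 7]))) (.C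
  2 3 1 2 (.L 97) (.B 1 1 1 (.L 12) (.L 455)))) (.G 445 1896 1 614324
  1574206 307162 307162 [.n, .g 32 5 0 0, .n, .n, .n, .g 64 0 0 33])) (.G
  106 65 1 1626881 8388607 813441 1626881 [.g 32 15 0 0, .n, .n, .n, .g 1 65
  1 0, .g 1 69 1 0]))) (.B 1 1 2 (.B 0 1 1 (.C 2 3 1 24 (.C 2 3 2 1 (.C 1 3
  3 4 (.L 26) (.B 1 1 1 (.C 0 2 384 1 (.C 2 3 2 1 (.C 2 3 4 1 (.L 26) (.B 0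
  2 1 (.L 1206) (.L 56))) (.B 0 2 1 (.L 125) (.L 251))) (.G 1572 455 0
  121609 1911540 60804 243218 [.n, .g 4 69 0 0, .n, .n, .n, .n])) (.C 2 3 4
  1 (.C 2 3 8 1 (.L 26) (.L 112)) (.L 125)))) (.L 263)) (.C 1 3 1 124 (.L
  223) (.C 1 3 1 248 (.C 2 3 10 1 (.L 856) (.B 0 2 1 (.L 1) (.C 0 1 3960 1
  (.L 1) (.G 1 1947 2 218741 109371 430647 218741 [.n, .n, .n, .n, .g 32 0 1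
  0, .n])))) (.C 2 3 1 48 (.L 1) (.C 2 3 1 96 (.L 1) (.C 1 3 1 496 (.L 1)
  (.B 1 1 1 (.B 0 2 1 (.B 0 4 1 (.B 2 1 4 (.L 1) (.C 1 3 1 991 (.L 1) (.L
  88))) (.L 1)) (.L 1)) (.B 1 1 2 (.B 0 4 1 (.C 1 3 1 991 (.L 1) (.L 88))
  (.L 1)) (.C 1 3 1 991 (.C 0 1 15864 1 (.L 849) (.L 1)) (.L 88))))))))))
  (.C 2 3 1 24 (.C 0 3 768 1 (.C 1 3 3 4 (.L 122) (.C 0 3 1536 1 (.C 2 3 8 1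
  (.C 0 2 384 1 (.B 1 2 1 (.L 56) (.B 2 1 1 (.C 0 1 12072 1 (.C 2 3 8 1 (.L
  12) (.L 1)) (.L 26)) (.L 26))) (.L 122)) (.C 0 3 3072 1 (.C 0 3 6144 1 (.C
  1 3 1 1 (.B 1 2 1 (.L 56) (.C 0 2 6144 1 (.L 211) (.G 142 463 3 201847
  195540 100924 397387 [.n, .g 64 23 0 0, .n, .n, .n, .n, .n, .n]))) (.B 1 2
  1 (.C 2 3 2 1 (.L 56) (.C 1 3 1 2 (.L 56) (.C 1 3 1 4 (.L 56) (.C 2 3 1 2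
  (.L 56) (.B 0 1 2 (.L 1) (.B 1 4 1 (.C 0 3 12288 1 (.C 1 3 1 4 (.L 56) (.C
  2 3 1 2 (.L 184) (.B 0 1 4 (.L 1) (.B 1 8 1 (.L 39) (.L 1))))) (.G 1 39 0
  82096 328383 164191 41048 [.n, .n, .n, .n, .g 4096 175 0 0, .n])) (.L
  1))))))) (.C 0 2 6144 1 (.L 1) (.G 791 1 4 4260880 8388607 2130440 4260880
  [.n, .g 3 56 0 0, .g 1 1699 0 0, .g 1 1773 0 0, .n, .n, .n, .n, .n,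
  .n])))) (.B 1 2 1 (.G 1 247 0 349123 338213 174562 174562 [.n, .n, .g 64 1
  0 0, .n, .g 32 1 0 0, .n]) (.G 22 463 3 8388607 8126463 4194304 4194304
  [.n, .g 17 21 0 0, .g 1 169 0 0, .g 1 174 0 0, .n, .n]))) (.B 1 2 1 (.C 0
  2 1 1 (.C 1 3 1 4 (.C 0 1 2 1 (.G 1 34 2 87000 342561 173999 342561 [.n,
  .n, .g 64 1 0 0, .n, .g 32 1 0 0, .n]) (.L 56)) (.B 1 4 1 (.C 0 1 4 1 (.G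
  1 39 0 22932 182739 45864 11466 [.n, .n, .n, .n, .g 256 11 0 0, .n]) (.G 1
  7 4 255 127 64 16 [.n, .n, .g 64 9 0 0, .n, .g 32 7 0 0, .n])) (.G 142 1 4
  2113665 8388607 4227330 1056832 [.n, .n, .g 1 3344 0 0, .g 1 3393 0 0, .n,
  .n, .g 1 2160 0 0, .g 2 4347 0 0]))) (.C 2 3 1 2 (.L 56) (.C 1 3 1 4 (.L
  56) (.G 1 7 4 68 136 68 17 [.n, .n, .g 64 9 0 0, .n, .g 64 13 0 0, .n]))))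
  (.G 791 215 0 4260880 8388607 4260880 2130440 [.n, .g 29 32 0 0, .g 1 280
  0 0, .g 1 288 0 0, .n, .n, .n, .n, .n, .n])))) (.B 1 2 1 (.C 0 2 1 8 (.C 0
  1 4 1 (.G 1 296 2 16 127 32 8 [.n, .n, .g 64 9 0 0, .n, .g 32 7 0 0, .n])
  (.G 619 774 3 1 1 1 1 [.n, .n, .g 1 0 2120 0, .n])) (.G 2495 150 3 1 1 1 1
  [.n, .g 2 1 9920 0, .n, .n])) (.C 2 3 4 1 (.G 184 215 0 2134675 8388607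
  266834 2134675 [.n, .n, .g 1 44 0 0, .g 1 45 0 0, .n, .n, .g 1 36 0 0, .g
  1 37 0 0]) (.G 1 165 1 145940 574638 145940 72970 [.n, .n, .g 64 1 2 0,
  .n, .g 64 2 3 0, .n]))))) (.C 0 2 1 4 (.G 168 125 1 32 41 64 16 [.g 38 63
  0 0, .g 1 2 5119 131, .n, .n]) (.O 1))) (.C 1 3 1 124 (.B 1 2 1 (.C 0 1
  1976 1 (.C 0 1 3952 1 (.C 1 2 1 10 (.C 0 3 3960 1 (.C 0 2 15584 1 (.C 0 1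
  7904 1 (.B 0 1 2 (.C 1 3 1 2 (.C 1 2 2 1 (.L 764) (.L 1)) (.L 1)) (.C 1 3
  1 2 (.C 1 2 2 1 (.L 184) (.B 1 4 1 (.C 0 2 31168 1 (.C 1 2 1 1 (.L 56) (.C
  0 3 31648 1 (.B 0 1 4 (.L 1) (.B 1 8 1 (.L 39) (.L 1))) (.G 1 9 2 208362
  410212 208362 104181 [.n, .n, .n, .n, .g 64 3 0 0, .n]))) (.G 1 9 2 205390
  205390 102695 102695 [.n, .n, .n, .n, .g 64 3 0 0, .n])) (.L 1))) (.B 1 4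
  1 (.C 1 2 1 1 (.B 1 8 1 (.B 0 1 4 (.C 0 1 31648 1 (.L 1) (.G 1 9 2 381610
  190805 378628 47701 [.n, .n, .n, .n, .g 64 1 0 0, .n])) (.L 39)) (.C 0 1
  31648 1 (.L 1) (.G 510 1 4 170626 85313 169293 21328 [.g 5 59 0 0, .n, .n,
  .n]))) (.L 14)) (.L 1)))) (.G 1 120 0 655819 327909 1291143 327909 [.n,
  .n, .g 32 1 0 0, .n, .g 128 5 0 0, .n])) (.C 1 2 2 1 (.G 1 120 0 1270969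
  322786 1291143 322786 [.n, .n, .g 32 1 0 0, .n, .g 128 5 0 0, .n]) (.G 1
  296 2 100 100 49 25 [.n, .n, .g 8 1 0 0, .n, .g 8 3 0 0, .n]))) (.C 1 3 1
  2 (.C 1 2 2 1 (.G 1 120 0 139383 139383 557531 278766 [.n, .n, .g 32 1 0
  0, .n, .g 256 9 0 0, .n]) (.G 1 419 3 69 272 134 138 [.n, .n, .g 64 15 0
  0, .n, .g 64 27 0 0, .n])) (.G 130 619 2 526 1052 1036 263 [.n, .g 1 1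
  2504 0, .n, .n]))) (.C 0 2 768 1 (.C 0 3 3960 1 (.B 1 4 1 (.B 0 1 2 (.L 1)
  (.L 14)) (.L 1)) (.L 14)) (.L 14))) (.C 1 2 1 5 (.C 1 3 1 1 (.L 56) (.G 1
  65 1 301797 301797 292365 150898 [.n, .n, .g 32 1 0 0, .n, .g 256 10 7 0,
  .n])) (.G 1 247 0 200610 196962 19453 100913 [.n, .n, .g 128 5 0 0, .n, .g
  256 9 1 0, .n]))) (.G 1437 892 0 382372 191186 74609 387035 [.n, .g 1 61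
  12 0, .n, .n])) (.L 223)) (.B 1 2 1 (.C 1 3 1 248 (.C 0 1 3960 1 (.C 0 2
  768 1 (.B 1 4 1 (.B 0 1 2 (.L 1) (.L 14)) (.L 1)) (.L 14)) (.L 14)) (.C 2
  3 1 48 (.L 54) (.C 1 3 1 496 (.L 1962) (.L 1)))) (.C 0 1 3960 1 (.B 1 1 2
  (.L 1) (.B 1 1 4 (.L 1) (.B 2 1 1 (.B 2 2 1 (.C 1 3 1 495 (.L 1) (.C 2 3 1
  48 (.L 1) (.C 1 3 1 990 (.L 1) (.C 2 3 1 96 (.L 1) (.L 88))))) (.L 1)) (.L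
  1)))) (.G 1 853 3 264542 132271 25653 534 [.n, .n, .n, .n, .g 16 0 1 0, .g
  128 0 1 0])))))) (.C 2 3 1 24 (.C 0 2 384 1 (.C 2 3 1 1 (.B 2 2 1 (.B 1 1
  4 (.C 2 3 2 1 (.C 1 2 2 5 (.L 115) (.B 0 1 1 (.L 106) (.B 1 2 1 (.C 2 3 4
  1 (.C 2 3 8 1 (.L 116) (.L 1448)) (.L 2044)) (.L 106)))) (.L 115)) (.C 0 1
  1976 1 (.L 106) (.G 106 476 3 310481 155240 60582 121163 [.g 32 0 9 0, .n,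
  .n, .n, .n, .n]))) (.C 2 3 2 1 (.C 1 2 2 5 (.L 115) (.C 1 3 2 5 (.L 116)
  (.C 2 3 4 1 (.C 2 3 8 1 (.L 116) (.B 1 1 1 (.L 1448) (.L 1724))) (.B 1 1 1
  (.L 2044) (.B 2 1 2 (.L 106) (.L 1992)))))) (.L 115))) (.L 45)) (.B 1 1 4
  (.G 103 45 0 3245062 8315473 1622531 3245062 [.g 64 45 0 0, .g 128 21 1 0,
  .n, .n, .g 1 29 0 0, .g 2 61 0 0]) (.B 2 2 1 (.C 0 2 1 2 (.G 106 86 0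
  89583 229556 179166 89583 [.g 64 0 15 0, .n, .n, .n, .n, .n]) (.O 1)) (.C
  2 3 2 1 (.G 86 293 0 645578 1654293 322789 1291155 [.g 45 64 5 0, .n, .n,
  .n, .g 5 63 6 0, .g 5 63 6 0]) (.G 121 45 0 3197955 8194761 6395911
  3197955 [.g 64 45 0 0, .g 64 29 0 0, .n, .n, .g 1 32 0 0, .g 1 48 0
  0]))))) (.C 1 3 1 124 (.L 45) (.C 2 3 1 48 (.L 93) (.C 1 3 1 248 (.L 29)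
  (.C 1 3 1 496 (.L 883) (.C 0 2 1536 1 (.L 11) (.G 1197 1654 2 88681 457956
  44341 462 [.n, .n, .n, .n, .g 64 55 0 33])))))))))) (by decide +kernel)

theorem EN3_c167 : CoN ENTab ⟨⟨0, 1, 8⟩, ⟨1, 3, 16⟩, ⟨1, 2, 16⟩, ⟨1, 0, 0,
  0, 0⟩, ⟨40, 4, 10, 0, 7⟩, ⟨52, 13, 13, 2, 11⟩, ⟨4, 1, 1, 0, 1⟩⟩ :=
CoN.ofG ENTab_B ENBt_E ENBt_U (.C 2 3 1 12 (.L 122) (.C 1 3 1 8 (.L 122) (.C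
  1 3 1 16 (.C 0 2 384 1 (.C 1 3 2 1 (.L 26) (.C 2 3 2 3 (.B 2 1 2 (.B 1 1 1
  (.L 184) (.C 2 3 4 1 (.B 2 2 1 (.B 1 1 2 (.L 26) (.C 2 3 8 1 (.L 12) (.L
  1))) (.L 26)) (.C 1 3 3 1 (.B 2 2 1 (.B 1 1 2 (.L 26) (.L 1)) (.L 26)) (.C
  0 2 6132 1 (.L 1) (.G 122 1 4 8388607 4194304 4194304 2097152 [.n, .n, .g
  1 334 0 0, .g 1 358 0 0, .n, .n, .n, .n]))))) (.L 56)) (.C 0 3 508 1 (.C 0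
  1 1012 1 (.C 0 2 3060 1 (.B 2 1 2 (.B 1 1 1 (.C 1 3 1 2 (.L 184) (.B 0 1 2
  (.L 1) (.B 1 2 1 (.C 0 1 4056 1 (.C 1 3 1 8 (.L 564) (.C 0 3 1016 1 (.C 2
  3 1 3 (.B 1 4 1 (.L 564) (.B 1 1 2 (.L 564) (.L 1))) (.B 1 4 1 (.B 0 1 4
  (.B 0 2 1 (.L 1) (.B 0 1 2 (.L 1) (.L 34))) (.L 564)) (.L 1))) (.G 1 416 1
  2 20 7 1 [.n, .n, .n, .n, .g 45 64 0 0, .n]))) (.G 120 7 4 263 131 197 33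
  [.g 64 53 0 0, .n, .n])) (.L 1)))) (.C 1 2 3 1 (.C 1 3 1 2 (.C 1 3 2 1 (.B
  2 2 1 (.B 1 1 2 (.L 12) (.L 1)) (.L 12)) (.L 1)) (.L 1)) (.L 1))) (.B 0 2
  1 (.C 0 3 1016 1 (.C 0 1 2024 1 (.B 2 1 4 (.B 1 1 1 (.L 7) (.C 0 3 2032 1
  (.C 0 3 4064 1 (.C 0 1 4048 1 (.B 1 1 2 (.L 7) (.B 2 2 1 (.C 0 3 8128 1
  (.C 0 1 8096 1 (.C 0 3 16256 1 (.C 0 1 16192 1 (.C 1 3 1 1 (.L 56) (.L 1))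
  (.L 170)) (.L 170)) (.L 170)) (.L 170)) (.L 7))) (.L 7)) (.L 7)) (.L 7)))
  (.L 7)) (.L 168)) (.G 110 356 2 1 1 1 1 [.n, .n, .g 1 1 7686 0, .n])) (.C
  0 2 6120 1 (.C 0 3 1016 1 (.C 0 1 2024 1 (.B 2 1 1 (.B 1 2 1 (.C 1 3 1 2
  (.L 1242) (.C 1 3 1 4 (.L 1242) (.C 1 3 1 8 (.L 564) (.C 2 3 1 6 (.B 2 1 1
  (.B 1 4 1 (.L 564) (.L 1882)) (.L 564)) (.B 1 4 1 (.B 0 1 4 (.B 0 2 1 (.L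
  1) (.L 607)) (.L 1242)) (.L 1)))))) (.C 0 1 4048 1 (.C 1 3 1 4 (.L 764)
  (.L 1)) (.L 7))) (.B 1 4 1 (.L 1242) (.L 7))) (.L 150)) (.L 150)) (.L
  150)))) (.G 4 65 1 411290 137097 205645 68548 [.n, .n, .n, .g 64 1 0 0, .g
  256 10 1 0, .n])) (.G 4 65 1 287700 143850 431550 143850 [.n, .n, .n, .g
  64 1 0 0, .g 256 11 0 0, .n])) (.C 0 1 1 1 (.G 168 664 3 1 1 1 1 [.n, .g 1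
  4 17857 0, .n, .n]) (.O 1))))) (.G 12 247 0 7895695 2578186 3867279
  5156372 [.g 128 83 1 0, .n, .g 2 0 3 0, .g 41 0 64 0, .n, .n])) (.C 1 3 1
  32 (.B 2 1 2 (.C 2 3 5 2 (.B 1 1 1 (.C 0 2 384 1 (.C 0 1 508 1 (.C 0 3
  3960 1 (.B 1 2 1 (.C 0 2 768 1 (.C 0 3 7920 1 (.C 0 1 1016 1 (.B 0 1 2 (.C
  1 2 3 4 (.L 1) (.C 2 3 10 1 (.L 26) (.L 1))) (.C 0 2 1536 1 (.C 2 3 5 1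
  (.C 1 2 3 2 (.B 1 4 1 (.B 0 1 4 (.B 2 1 2 (.C 0 1 2032 1 (.C 0 2 12240 1
  (.C 0 2 24480 1 (.B 0 1 2 (.L 1) (.L 34)) (.L 1882)) (.L 1882)) (.L 607))
  (.B 0 2 1 (.L 1) (.L 607))) (.L 18)) (.B 0 2 1 (.L 1) (.C 1 2 6 1 (.L 1)
  (.B 1 1 2 (.C 2 3 5 2 (.L 564) (.L 1)) (.L 1))))) (.L 184)) (.B 1 4 1 (.B
  0 1 4 (.C 0 2 31200 1 (.L 1) (.G 1 7 4 491 16 246 125 [.n, .n, .n, .n, .g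
  256 1 0 0, .n])) (.L 39)) (.L 1))) (.G 1 120 0 69452 45578 34726 358111
  [.g 64 51 0 0, .n, .g 32 1 0 0, .n, .g 128 5 0 0, .n]))) (.G 1 120 0 46022
  23011 34517 358111 [.g 32 17 0 0, .n, .g 32 1 0 0, .n, .g 128 5 0 0, .n]))
  (.G 1 356 3 1268 81 122 637 [.g 16 7 0 0, .n, .g 32 1 0 0, .n, .g 32 1 0
  0, .n])) (.L 356)) (.C 0 2 768 1 (.C 1 2 3 2 (.L 1) (.C 2 3 5 1 (.L 764)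
  (.L 1))) (.C 0 2 1 2 (.C 0 1 2 3 (.G 226 296 2 1689 6755 3377 8760 [.n,
  .n, .g 32 21 0 0, .g 64 49 0 0, .n, .n, .g 64 5 0 0, .g 32 3 0 0]) (.L
  170)) (.L 170)))) (.G 420 419 2 1 1 1 1 [.g 1 0 4195 0, .n, .n, .n])) (.G
  292 356 2 1 1 1 1 [.n, .g 1 1 8108 0, .n])) (.G 568 1774 1 1051769 690223
  525884 5423183 [.g 32 5 0 0, .n, .g 29 0 65 0, .g 27 0 64 0, .n, .n, .n,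
  .n])) (.C 0 2 384 1 (.C 0 1 508 1 (.C 0 3 3960 1 (.C 1 2 3 4 (.L 1) (.C 2
  3 10 1 (.B 2 2 1 (.C 2 3 20 1 (.C 1 2 1 8 (.L 1) (.L 12)) (.L 1)) (.L 26))
  (.L 1))) (.G 664 168 1 1 1 1 1 [.n, .n, .n, .g 1 0 3276 0])) (.G 73 168 1
  1 1 1 1 [.n, .g 1 0 6306 0, .n, .n])) (.C 0 1 2 3 (.C 0 3 5 1 (.C 0 2 1 2
  (.G 170 292 1 1 1 1 1 [.n, .n, .g 1 0 4444 0, .n]) (.O 1)) (.O 1)) (.O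
  1)))) (.C 0 1 508 1 (.C 0 2 3960 1 (.B 1 1 1 (.B 0 1 2 (.L 1) (.B 1 2 1
  (.C 1 2 8 1 (.B 0 1 4 (.L 1) (.B 1 4 1 (.L 39) (.L 1))) (.L 14)) (.L 1)))
  (.L 1)) (.G 292 168 1 1 1 1 1 [.n, .g 1 0 6039 0, .n])) (.G 1 52 0 28874
  14437 112788 28874 [.n, .n, .g 64 1 0 0, .n, .g 256 15 0 0, .n]))) (.C 1 2
  3 4 (.C 2 3 1 3 (.C 0 2 3060 1 (.B 2 1 4 (.C 0 1 508 1 (.C 0 3 6120 1 (.C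
  0 2 6120 1 (.C 0 3 12240 1 (.C 0 1 1016 1 (.C 0 2 12240 1 (.B 0 1 4 (.B 2
  2 1 (.B 1 1 4 (.L 7) (.L 1)) (.L 7)) (.B 1 2 1 (.B 1 4 1 (.L 9) (.C 0 3
  24480 1 (.C 2 3 2 1 (.B 2 2 1 (.C 1 2 12 1 (.L 1) (.C 2 3 4 1 (.L 607) (.B
  1 1 2 (.L 607) (.L 1)))) (.L 607)) (.L 1)) (.L 7))) (.C 0 1 2032 1 (.C 2 3
  1 1 (.B 2 4 1 (.L 1) (.B 0 1 2 (.L 7) (.C 2 3 2 1 (.C 1 2 6 1 (.L 1) (.G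
  607 1 4 1 48864 24480 97920 [.n, .n, .g 1 117 0 0, .n])) (.L 1)))) (.L 1))
  (.L 7)))) (.L 210)) (.L 150)) (.L 416)) (.L 416)) (.G 397 420 0 1 1 1 1
  [.g 1 0 5525 0, .n, .n, .n])) (.G 664 638 2 1 1 1 1 [.n, .n, .n, .g 1 0
  3333 0])) (.B 2 1 8 (.B 1 4 1 (.L 39) (.G 356 296 0 1 1 1 1 [.n, .n, .g 2
  0 4233 0, .n])) (.L 39))) (.C 0 2 1 2 (.C 0 1 1 12 (.G 397 292 1 1 1 1 1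
  [.g 1 0 5223 423, .n, .n, .n]) (.O 1)) (.O 1))) (.C 1 3 2 1 (.B 2 1 4 (.B
  1 2 1 (.C 1 2 12 1 (.C 1 3 4 1 (.C 1 2 24 1 (.B 1 4 1 (.B 0 1 4 (.C 0 2
  24408 1 (.L 1) (.C 0 2 1 2 (.L 1) (.O 1))) (.L 9)) (.L 1)) (.L 14)) (.L
  14)) (.L 14)) (.C 0 2 6120 1 (.L 1) (.O 1))) (.B 2 1 8 (.B 1 4 1 (.L 39)
  (.G 4 7 3 1 508 6120 2036 [.n, .n, .n, .n, .g 1409 1 4096 0, .n])) (.L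
  52))) (.L 54))) (.C 0 1 3060 1 (.C 0 2 384 1 (.C 0 3 1020 1 (.C 0 3 2040 1
  (.B 2 1 4 (.C 2 3 5 1 (.L 56) (.C 0 2 7920 1 (.C 0 1 6120 1 (.C 0 3 4080 1
  (.B 0 1 4 (.B 2 2 1 (.B 1 1 4 (.L 7) (.L 1)) (.L 7)) (.C 1 3 2 3 (.C 0 1
  12240 1 (.B 1 2 1 (.B 1 4 1 (.L 9) (.C 1 3 2 1 (.L 607) (.C 0 2 15840 1
  (.B 2 2 1 (.L 1) (.B 2 1 2 (.L 1) (.L 39))) (.G 416 607 0 110 342 55 169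
  [.n, .g 31 32 0 0, .n, .n])))) (.B 2 4 1 (.L 1) (.C 0 3 48960 1 (.B 0 1 2
  (.L 7) (.C 1 3 4 1 (.L 1882) (.L 1))) (.L 7)))) (.L 210)) (.C 2 3 1 2 (.B
  1 2 1 (.B 1 4 1 (.L 39) (.C 2 3 2 1 (.C 0 2 15840 1 (.B 2 2 1 (.L 1) (.B 2
  1 2 (.L 1) (.L 39))) (.G 1 723 1 32 49 16 64 [.n, .n, .n, .n, .g 64 13 0
  0, .n])) (.L 14))) (.B 2 4 1 (.L 1) (.B 0 1 2 (.L 7) (.L 1)))) (.B 1 2 1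
  (.L 14) (.L 1))))) (.G 1 7 4 16 24 31 8 [.n, .n, .n, .n, .g 32 25 0 0,
  .n])) (.L 416)) (.L 416))) (.B 1 4 1 (.L 9) (.G 7 61 3 1 1 1 1 [.n, .n,
  .n, .g 1 0 2754 0, .n]))) (.G 416 61 3 1 1 1 1 [.n, .n, .n, .g 2 0 5165
  0])) (.G 170 356 2 1 1 1 1 [.n, .n, .g 1 0 4200 0, .n])) (.G 148 1774 1
  66891 533035 33445 89884 [.g 64 0 15 0, .n, .n, .n])) (.G 247 1671 1
  305804 153502 19188 51567 [.g 1 0 3 0, .n, .n, .n])))) (.B 2 1 2 (.C 1 2 2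
  5 (.B 1 1 1 (.C 2 3 1 248 (.C 1 2 4 1 (.L 54) (.C 0 2 3960 1 (.B 1 2 1 (.C
  2 3 1 1 (.B 0 1 2 (.L 1) (.L 14)) (.L 54)) (.L 1)) (.L 14))) (.C 2 3 1 496
  (.L 54) (.L 1))) (.C 0 2 3960 1 (.C 2 3 1 495 (.L 1) (.C 2 3 1 990 (.L 1)
  (.B 2 2 1 (.B 1 1 2 (.L 1) (.C 1 3 1 64 (.L 1) (.C 1 3 1 128 (.L 1) (.L
  88)))) (.L 1)))) (.C 1 2 4 1 (.G 2262 1 5 1370757 176537 1391526 2769 [.g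
  2 1060 0 1, .g 1 83 1 0, .n, .n]) (.G 1 1194 2 1058602 1074641 529301 2139
  [.n, .n, .n, .n, .g 64 0 1 0, .g 1024 0 1 0])))) (.C 2 3 1 24 (.B 1 1 1
  (.C 2 3 2 1 (.C 0 2 384 1 (.C 1 2 1 5 (.C 0 3 1536 1 (.C 0 2 7800 1 (.C 0
  1 3960 1 (.B 1 2 1 (.C 0 3 3072 1 (.B 0 1 2 (.L 1) (.C 0 1 7920 1 (.C 0 2
  15600 1 (.B 1 4 1 (.B 0 1 4 (.C 0 2 31200 1 (.L 1) (.G 1 210 2 163 41 81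
  16 [.n, .n, .n, .n, .g 64 1 0 0, .n])) (.L 39)) (.L 1)) (.G 1 7 4 81 41 41
  16 [.n, .n, .n, .n, .g 64 21 0 0, .n])) (.G 723 312 2 325 167 325 127 [.n,
  .g 39 64 0 0, .n]))) (.L 356)) (.L 1)) (.G 170 729 1 1 1 1 1 [.n, .n, .g 1
  0 5882 0, .n])) (.G 774 420 0 1 1 1 1 [.n, .n, .n, .g 1 0 2505 0])) (.C 0
  3 1 2 (.G 419 416 3 1 1 1 1 [.n, .n, .g 1 0 3896 179, .n]) (.O 1))) (.B 0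
  1 2 (.L 226) (.C 0 2 768 1 (.C 0 3 1536 1 (.B 0 1 4 (.L 184) (.B 1 2 1 (.B
  1 4 1 (.L 9) (.L 142)) (.B 1 1 2 (.L 142) (.L 184)))) (.B 1 2 1 (.L 18)
  (.G 226 142 0 1821212 4609944 910606 910606 [.n, .n, .n, .g 5 234 2 0, .n,
  .n, .n, .n]))) (.L 56)))) (.C 0 1 5 1 (.L 18) (.O 1))) (.C 0 2 1536 1 (.C
  0 3 768 1 (.C 0 1 3960 1 (.B 1 2 1 (.C 0 2 3072 1 (.B 0 1 2 (.L 1) (.B 0 1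
  4 (.L 1) (.L 14))) (.L 356)) (.L 1)) (.G 296 774 3 1 1 1 1 [.g 1 0 4189 0,
  .n, .n, .n])) (.G 356 292 1 1 1 1 1 [.n, .n, .g 1 0 1986 0, .n])) (.G 446
  1774 1 6468323 8388607 3234162 1617081 [.n, .g 64 0 3 0, .n, .n, .n, .n,
  .g 1 122 4 0, .g 1 125 4 0]))) (.C 2 3 2 1 (.C 1 2 1 10 (.L 223) (.C 0 2
  384 1 (.C 0 2 768 1 (.C 1 2 1 5 (.L 263) (.C 2 3 1 1 (.B 2 2 1 (.C 2 3 2 1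
  (.B 1 1 2 (.L 26) (.C 1 2 1 10 (.L 125) (.L 116))) (.L 1)) (.L 26)) (.B 1
  1 2 (.L 251) (.L 112)))) (.G 149 103 0 1646843 8388607 823422 1646843 [.n,
  .n, .n, .n, .g 1 138 0 0, .g 2 287 0 0])) (.G 1572 455 0 29452 299117
  14726 58903 [.n, .g 2 35 0 0, .n, .n, .n, .n]))) (.L 223))) (.C 1 3 1 248
  (.B 1 1 1 (.C 0 1 3960 1 (.C 0 2 768 1 (.B 1 2 1 (.B 0 1 2 (.L 1) (.L 14))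
  (.L 1)) (.L 14)) (.L 14)) (.C 2 3 10 1 (.L 856) (.C 0 1 3960 1 (.L 1) (.C
  1 3 2 1 (.G 223 2252 1 208925 104463 411322 417851 [.n, .g 8 0 1 0, .g 707
  0 1024 0, .n]) (.L 1))))) (.B 1 1 1 (.C 1 3 1 496 (.L 54) (.C 2 3 1 48 (.L
  54) (.L 1))) (.C 0 2 768 1 (.B 1 1 2 (.L 1) (.B 2 2 1 (.B 1 1 4 (.L 1) (.B
  2 4 1 (.C 2 3 1 96 (.L 29) (.C 1 3 1 496 (.L 1) (.C 1 3 1 991 (.L 1) (.L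
  330)))) (.L 1))) (.L 1))) (.G 361 45 2 114142 589139 57071 1189 [.n, .n,
  .n, .g 23 0 65 0])))))) (.C 2 3 1 24 (.C 1 2 2 5 (.C 1 2 4 1 (.L 54) (.C 0
  3 768 1 (.B 1 2 1 (.L 14) (.C 0 2 3960 1 (.B 2 1 4 (.L 1) (.L 14)) (.O
  1))) (.L 14))) (.C 0 2 384 1 (.C 0 3 768 1 (.B 2 1 4 (.C 0 1 3960 1 (.C 0
  2 768 1 (.C 0 3 1536 1 (.C 0 1 7920 1 (.C 0 2 1536 1 (.C 0 3 3072 1 (.C 0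
  1 15840 1 (.B 0 1 4 (.B 2 2 1 (.B 2 4 1 (.C 0 2 3072 1 (.B 1 1 4 (.L 7)
  (.C 1 2 1 5 (.L 1) (.C 2 3 1 1 (.C 1 2 1 10 (.L 1) (.C 2 3 2 1 (.L 26) (.L
  244))) (.L 165)))) (.L 7)) (.L 7)) (.L 7)) (.B 1 2 1 (.B 1 4 1 (.L 9) (.C
  2 3 2 1 (.C 1 2 1 10 (.B 2 2 1 (.C 1 2 2 1 (.L 1) (.C 1 2 1 2 (.L 1) (.L
  184))) (.B 0 1 1 (.L 7) (.C 1 2 2 1 (.L 1) (.L 607)))) (.L 184)) (.B 2 2 1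
  (.L 1) (.B 2 1 2 (.L 1) (.L 39))))) (.C 2 3 2 1 (.C 1 2 1 10 (.B 2 4 1 (.L
  1) (.B 0 1 2 (.L 7) (.C 1 2 2 1 (.L 1) (.L 142)))) (.L 184)) (.B 2 4 1 (.L
  1) (.B 0 1 2 (.L 7) (.L 1)))))) (.L 7)) (.L 7)) (.L 7)) (.G 905 150 3 1 1
  1 1 [.n, .n, .n, .g 1 0 2047 0])) (.G 356 296 0 1 1 1 1 [.n, .n, .g 1 0
  307 0, .n])) (.G 34 356 2 137 706 68 137 [.n, .n, .g 3 2 7287 0])) (.G 397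
  420 0 1 1 1 1 [.g 1 0 5204 0, .n, .n, .n])) (.C 0 1 3960 1 (.C 0 2 768 1
  (.B 1 4 1 (.L 9) (.G 7 510 0 1 7920 1536 1536 [.n, .n, .n, .g 2 0 4313 0,
  .n])) (.L 9)) (.L 114))) (.G 3430 197 3 22832 59221 11416 11416 [.n, .g 7
  0 33 0, .n, .n, .n])) (.C 0 3 1 1 (.L 34) (.O 1)))) (.C 2 3 1 48 (.L 54)
  (.B 2 1 4 (.L 1) (.L 52))))))))) (by decide +kernel)

theorem EN3_c168 : CoN ENTab ⟨⟨0, 1, 4⟩, ⟨0, 1, 2⟩, ⟨1, 3, 8⟩, ⟨1, 0, 0, 0,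
  0⟩, ⟨8, 0, 2, 0, 1⟩, ⟨4, 1, 1, 1, 0⟩, ⟨4, 1, 1, 0, 1⟩⟩ :=
CoN.ofG ENTab_B ENBt_E ENBt_U (.B 0 1 2 (.B 2 1 2 (.C 1 2 3 4 (.C 1 3 3 4
  (.L 94) (.G 901 717 2 1 1 1 1 [.n, .n, .g 1 3 3743 0, .n, .n])) (.L 71))
  (.C 1 2 3 4 (.C 1 2 5 1 (.C 0 1 20 1 (.L 717) (.C 0 3 2 5 (.B 1 2 1 (.L
  25) (.G 226 424 3 16 8 77 64 [.g 64 3 0 0, .n, .n, .n, .n, .n, .n, .n]))
  (.G 592 566 1 1 1 1 1 [.n, .n, .g 1 0 0 1997, .g 1 0 176 341, .n]))) (.L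
  717)) (.L 71))) (.B 1 4 1 (.L 32) (.C 1 2 3 4 (.C 1 2 5 1 (.C 0 1 20 1 (.L
  71) (.G 94 592 2 300 150 1440 120 [.g 64 23 0 0, .g 32 7 0 0, .n, .n]))
  (.L 71)) (.L 71)))) (by decide +kernel)

end Pool.Agent.TET.Cvr
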