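import Pool.Agent.Helper37_TET.EN3_000
import Pool.Agent.Helper37_TET.EN3_001
import Pool.Agent.Helper37_TET.EN3_002
import Pool.Agent.Helper37_TET.EN3_003
import Pool.Agent.Helper37_TET.EN3_004
import Pool.Agent.Helper37_TET.EN3_005
import Pool.Agent.Helper37_TET.EN3_006
import Pool.Agent.Helper37_TET.EN3_007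
import Pool.Agent.Helper37_TET.EN3_008
import Pool.Agent.Helper37_TET.EN3_009

/-!
# MP_c7c9bf_co: cover of the charts, root 3, assembly 0
-/

set_option autoImplicit false
set_option maxRecDepth 100000

namespace Pool.Agent.TET.Cvr

theorem EN3_t0 : CoN ENTab ⟨⟨2, 3, 8⟩, ⟨1, 3, 8⟩, ⟨1, 2, 4⟩, ⟨1, 0, 0, 0,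
  0⟩, ⟨8, 0, 2, 0, 1⟩, ⟨4, 1, 1, 1, 0⟩, ⟨4, 1, 1, 0, 1⟩⟩ :=
  CoN.b 1 1 2 rfl rfl rfl EN3_c0 EN3_c1

theorem EN3_t1 : CoN ENTab ⟨⟨1, 1, 4⟩, ⟨3, 5, 16⟩, ⟨2, 3, 8⟩, ⟨1, 0, 0, 0,
  0⟩, ⟨72, 12, 18, 0, 15⟩, ⟨52, 13, 13, 2, 11⟩, ⟨4, 1, 1, 0, 1⟩⟩ :=
  CoN.c 2 3 1 12 rfl rfl rfl rfl rfl EN3_c7 EN3_c8

theorem EN3_t2 : CoN ENTab ⟨⟨1, 1, 4⟩, ⟨3, 5, 16⟩, ⟨2, 3, 8⟩, ⟨1, 0, 0, 0,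
  0⟩, ⟨40, 4, 10, 0, 7⟩, ⟨52, 13, 13, 2, 11⟩, ⟨4, 1, 1, 0, 1⟩⟩ :=
  CoN.c 1 3 1 8 rfl rfl rfl rfl rfl EN3_c6 EN3_t1

theorem EN3_t3 : CoN ENTab ⟨⟨1, 1, 4⟩, ⟨3, 5, 16⟩, ⟨2, 3, 8⟩, ⟨1, 0, 0, 0,
  0⟩, ⟨40, 4, 10, 0, 7⟩, ⟨28, 7, 7, 2, 5⟩, ⟨4, 1, 1, 0, 1⟩⟩ :=
  CoN.c 2 3 1 6 rfl rfl rfl rfl rfl EN3_c5 EN3_t2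

theorem EN3_t4 : CoN ENTab ⟨⟨1, 1, 4⟩, ⟨3, 5, 16⟩, ⟨2, 3, 8⟩, ⟨1, 0, 0, 0,
  0⟩, ⟨8, 0, 2, 0, 1⟩, ⟨28, 7, 7, 2, 5⟩, ⟨4, 1, 1, 0, 1⟩⟩ :=
  CoN.c 1 3 3 4 rfl rfl rfl rfl rfl EN3_c4 EN3_t3

theorem EN3_t5 : CoN ENTab ⟨⟨1, 1, 4⟩, ⟨3, 5, 16⟩, ⟨2, 3, 8⟩, ⟨1, 0, 0, 0,
  0⟩, ⟨8, 0, 2, 0, 1⟩, ⟨8, 2, 2, 1, 1⟩, ⟨4, 1, 1, 0, 1⟩⟩ :=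
  CoN.c 2 3 2 3 rfl rfl rfl rfl rfl EN3_c3 EN3_t4

theorem EN3_t6 : CoN ENTab ⟨⟨1, 1, 4⟩, ⟨3, 5, 16⟩, ⟨2, 3, 8⟩, ⟨1, 0, 0, 0,
  0⟩, ⟨8, 0, 2, 0, 1⟩, ⟨4, 1, 1, 1, 0⟩, ⟨4, 1, 1, 0, 1⟩⟩ :=
  CoN.c 2 3 1 1 rfl rfl rfl rfl rfl EN3_c2 EN3_t5

theorem EN3_t7 : CoN ENTab ⟨⟨3, 5, 16⟩, ⟨1, 3, 8⟩, ⟨2, 3, 8⟩, ⟨1, 0, 0, 0,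
  0⟩, ⟨8, 0, 2, 0, 1⟩, ⟨4, 1, 1, 1, 0⟩, ⟨4, 1, 1, 0, 1⟩⟩ :=
  CoN.c 2 3 1 1 rfl rfl rfl rfl rfl EN3_c9 EN3_c10

theorem EN3_t8 : CoN ENTab ⟨⟨1, 1, 4⟩, ⟨1, 3, 8⟩, ⟨2, 3, 8⟩, ⟨1, 0, 0, 0,
  0⟩, ⟨8, 0, 2, 0, 1⟩, ⟨4, 1, 1, 1, 0⟩, ⟨4, 1, 1, 0, 1⟩⟩ :=
  CoN.b 0 2 1 rfl rfl rfl EN3_t6 EN3_t7

theorem EN3_t9 : CoN ENTab ⟨⟨1, 1, 4⟩, ⟨1, 3, 8⟩, ⟨1, 2, 4⟩, ⟨1, 0, 0, 0,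
  0⟩, ⟨8, 0, 2, 0, 1⟩, ⟨4, 1, 1, 1, 0⟩, ⟨4, 1, 1, 0, 1⟩⟩ :=
  CoN.b 2 1 1 rfl rfl rfl EN3_t0 EN3_t8

theorem EN3_t10 : CoN ENTab ⟨⟨1, 1, 4⟩, ⟨0, 1, 2⟩, ⟨1, 2, 4⟩, ⟨1, 0, 0, 0,
  0⟩, ⟨8, 0, 2, 0, 1⟩, ⟨4, 1, 1, 1, 0⟩, ⟨4, 1, 1, 0, 1⟩⟩ :=
  CoN.b 0 1 2 rfl rfl rfl EN3_t9 EN3_c11

theorem EN3_t11 : CoN ENTab ⟨⟨3, 3, 8⟩, ⟨5, 7, 16⟩, ⟨3, 4, 8⟩, ⟨1, 0, 0, 0,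
  0⟩, ⟨72, 12, 18, 0, 15⟩, ⟨424, 88, 106, 8, 89⟩, ⟨4, 1, 1, 0, 1⟩⟩ :=
  CoN.c 1 2 6 1 rfl rfl rfl rfl rfl EN3_c17 EN3_c18

theorem EN3_t12 : CoN ENTab ⟨⟨3, 3, 8⟩, ⟨5, 7, 16⟩, ⟨3, 4, 8⟩, ⟨1, 0, 0, 0,
  0⟩, ⟨424, 88, 106, 8, 89⟩, ⟨52, 13, 13, 2, 11⟩, ⟨4, 1, 1, 0, 1⟩⟩ :=
  CoN.c 2 3 1 12 rfl rfl rfl rfl rfl EN3_c19 EN3_c20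

theorem EN3_t13 : CoN ENTab ⟨⟨3, 3, 8⟩, ⟨5, 7, 16⟩, ⟨3, 4, 8⟩, ⟨1, 0, 0, 0,
  0⟩, ⟨72, 12, 18, 0, 15⟩, ⟨52, 13, 13, 2, 11⟩, ⟨4, 1, 1, 0, 1⟩⟩ :=
  CoN.c 1 2 3 4 rfl rfl rfl rfl rfl EN3_t11 EN3_t12

theorem EN3_t14 : CoN ENTab ⟨⟨3, 3, 8⟩, ⟨5, 7, 16⟩, ⟨3, 4, 8⟩, ⟨1, 0, 0, 0,
  0⟩, ⟨40, 4, 10, 0, 7⟩, ⟨52, 13, 13, 2, 11⟩, ⟨4, 1, 1, 0, 1⟩⟩ :=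
  CoN.c 1 3 1 8 rfl rfl rfl rfl rfl EN3_c16 EN3_t13

theorem EN3_t15 : CoN ENTab ⟨⟨3, 3, 8⟩, ⟨5, 7, 16⟩, ⟨3, 4, 8⟩, ⟨1, 0, 0, 0,
  0⟩, ⟨8, 0, 2, 0, 1⟩, ⟨52, 13, 13, 2, 11⟩, ⟨4, 1, 1, 0, 1⟩⟩ :=
  CoN.c 1 3 3 4 rfl rfl rfl rfl rfl EN3_c15 EN3_t14

theorem EN3_t16 : CoN ENTab ⟨⟨3, 3, 8⟩, ⟨5, 7, 16⟩, ⟨3, 4, 8⟩, ⟨1, 0, 0, 0,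
  0⟩, ⟨8, 0, 2, 0, 1⟩, ⟨28, 7, 7, 2, 5⟩, ⟨4, 1, 1, 0, 1⟩⟩ :=
  CoN.c 2 3 1 6 rfl rfl rfl rfl rfl EN3_c14 EN3_t15

theorem EN3_t17 : CoN ENTab ⟨⟨3, 3, 8⟩, ⟨5, 7, 16⟩, ⟨3, 4, 8⟩, ⟨1, 0, 0, 0,
  0⟩, ⟨8, 0, 2, 0, 1⟩, ⟨8, 2, 2, 1, 1⟩, ⟨4, 1, 1, 0, 1⟩⟩ :=
  CoN.c 2 3 2 3 rfl rfl rfl rfl rfl EN3_c13 EN3_t16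

theorem EN3_t18 : CoN ENTab ⟨⟨3, 3, 8⟩, ⟨5, 7, 16⟩, ⟨3, 4, 8⟩, ⟨1, 0, 0, 0,
  0⟩, ⟨8, 0, 2, 0, 1⟩, ⟨4, 1, 1, 1, 0⟩, ⟨4, 1, 1, 0, 1⟩⟩ :=
  CoN.c 2 3 1 1 rfl rfl rfl rfl rfl EN3_c12 EN3_t17

theorem EN3_t19 : CoN ENTab ⟨⟨3, 3, 8⟩, ⟨1, 2, 4⟩, ⟨3, 4, 8⟩, ⟨1, 0, 0, 0,
  0⟩, ⟨8, 0, 2, 0, 1⟩, ⟨4, 1, 1, 1, 0⟩, ⟨4, 1, 1, 0, 1⟩⟩ :=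
  CoN.b 0 1 2 rfl rfl rfl EN3_t18 EN3_c21

theorem EN3_t20 : CoN ENTab ⟨⟨15, 15, 32⟩, ⟨3, 4, 8⟩, ⟨1, 1, 2⟩, ⟨1, 0, 0,
  0, 0⟩, ⟨112, 22, 28, 22, 3⟩, ⟨20, 1, 1, 1, 0⟩, ⟨52, 13, 13, 11, 2⟩⟩ :=
  CoN.b 2 16 1 rfl rfl rfl EN3_c25 EN3_c26

theorem EN3_t21 : CoN ENTab ⟨⟨15, 15, 32⟩, ⟨3, 4, 8⟩, ⟨1, 1, 2⟩, ⟨1, 0, 0,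
  0, 0⟩, ⟨112, 22, 28, 22, 3⟩, ⟨4, 1, 1, 1, 0⟩, ⟨52, 13, 13, 11, 2⟩⟩ :=
  CoN.c 0 2 16 1 rfl rfl rfl rfl rfl EN3_t20 EN3_c27

theorem EN3_t22 : CoN ENTab ⟨⟨7, 7, 16⟩, ⟨3, 4, 8⟩, ⟨1, 1, 2⟩, ⟨1, 0, 0, 0,
  0⟩, ⟨112, 22, 28, 22, 3⟩, ⟨4, 1, 1, 1, 0⟩, ⟨52, 13, 13, 11, 2⟩⟩ :=
  CoN.b 2 8 1 rfl rfl rfl EN3_t21 EN3_c28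

theorem EN3_t23 : CoN ENTab ⟨⟨7, 7, 16⟩, ⟨3, 4, 8⟩, ⟨1, 1, 2⟩, ⟨1, 0, 0, 0,
  0⟩, ⟨64, 10, 16, 10, 3⟩, ⟨4, 1, 1, 1, 0⟩, ⟨52, 13, 13, 11, 2⟩⟩ :=
  CoN.c 1 2 1 12 rfl rfl rfl rfl rfl EN3_c24 EN3_t22

theorem EN3_t24 : CoN ENTab ⟨⟨7, 7, 16⟩, ⟨3, 4, 8⟩, ⟨1, 1, 2⟩, ⟨1, 0, 0, 0,
  0⟩, ⟨64, 10, 16, 10, 3⟩, ⟨4, 1, 1, 1, 0⟩, ⟨28, 7, 7, 5, 2⟩⟩ :=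
  CoN.c 2 3 6 1 rfl rfl rfl rfl rfl EN3_t23 EN3_c29

theorem EN3_t25 : CoN ENTab ⟨⟨7, 7, 16⟩, ⟨3, 4, 8⟩, ⟨1, 1, 2⟩, ⟨1, 0, 0, 0,
  0⟩, ⟨64, 10, 16, 10, 3⟩, ⟨4, 1, 1, 1, 0⟩, ⟨8, 2, 2, 1, 1⟩⟩ :=
  CoN.c 2 3 3 2 rfl rfl rfl rfl rfl EN3_t24 EN3_c30

theorem EN3_t26 : CoN ENTab ⟨⟨7, 7, 16⟩, ⟨3, 4, 8⟩, ⟨1, 1, 2⟩, ⟨1, 0, 0, 0,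
  0⟩, ⟨40, 4, 10, 4, 3⟩, ⟨4, 1, 1, 1, 0⟩, ⟨8, 2, 2, 1, 1⟩⟩ :=
  CoN.c 1 2 1 6 rfl rfl rfl rfl rfl EN3_c23 EN3_t25

theorem EN3_t27 : CoN ENTab ⟨⟨7, 7, 16⟩, ⟨3, 4, 8⟩, ⟨1, 1, 2⟩, ⟨1, 0, 0, 0,
  0⟩, ⟨8, 0, 2, 0, 1⟩, ⟨4, 1, 1, 1, 0⟩, ⟨8, 2, 2, 1, 1⟩⟩ :=
  CoN.c 1 2 3 4 rfl rfl rfl rfl rfl EN3_c22 EN3_t26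

theorem EN3_t28 : CoN ENTab ⟨⟨13, 15, 32⟩, ⟨3, 4, 8⟩, ⟨7, 8, 16⟩, ⟨1, 0, 0,
  0, 0⟩, ⟨72, 12, 18, 0, 15⟩, ⟨412, 85, 103, 4, 90⟩, ⟨4, 1, 1, 0, 1⟩⟩ :=
  CoN.b 2 2 1 rfl rfl rfl EN3_c37 EN3_c38

theorem EN3_t29 : CoN ENTab ⟨⟨7, 7, 16⟩, ⟨3, 4, 8⟩, ⟨7, 8, 16⟩, ⟨1, 0, 0, 0,
  0⟩, ⟨72, 12, 18, 0, 15⟩, ⟨412, 85, 103, 4, 90⟩, ⟨4, 1, 1, 0, 1⟩⟩ :=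
  CoN.b 0 1 2 rfl rfl rfl EN3_c36 EN3_t28

theorem EN3_t30 : CoN ENTab ⟨⟨7, 7, 16⟩, ⟨3, 4, 8⟩, ⟨1, 1, 2⟩, ⟨1, 0, 0, 0,
  0⟩, ⟨72, 12, 18, 0, 15⟩, ⟨412, 85, 103, 4, 90⟩, ⟨4, 1, 1, 0, 1⟩⟩ :=
  CoN.b 1 1 4 rfl rfl rfl EN3_t29 EN3_c39

theorem EN3_t31 : CoN ENTab ⟨⟨7, 7, 16⟩, ⟨3, 4, 8⟩, ⟨1, 1, 2⟩, ⟨1, 0, 0, 0,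
  0⟩, ⟨40, 4, 10, 0, 7⟩, ⟨412, 85, 103, 4, 90⟩, ⟨4, 1, 1, 0, 1⟩⟩ :=
  CoN.c 1 3 1 8 rfl rfl rfl rfl rfl EN3_c35 EN3_t30

theorem EN3_t32 : CoN ENTab ⟨⟨7, 7, 16⟩, ⟨3, 4, 8⟩, ⟨1, 1, 2⟩, ⟨1, 0, 0, 0,
  0⟩, ⟨40, 4, 10, 0, 7⟩, ⟨224, 38, 56, 4, 43⟩, ⟨4, 1, 1, 0, 1⟩⟩ :=
  CoN.c 2 3 1 47 rfl rfl rfl rfl rfl EN3_c34 EN3_t31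

theorem EN3_t33 : CoN ENTab ⟨⟨13, 15, 32⟩, ⟨25, 31, 64⟩, ⟨1, 1, 2⟩, ⟨1, 0,
  0, 0, 0⟩, ⟨224, 38, 56, 4, 43⟩, ⟨52, 13, 13, 2, 11⟩, ⟨100, 25, 25, 2, 23⟩⟩
  :=
  CoN.b 2 16 1 rfl rfl rfl EN3_c41 EN3_c42

theorem EN3_t34 : CoN ENTab ⟨⟨13, 15, 32⟩, ⟨3, 4, 8⟩, ⟨1, 1, 2⟩, ⟨1, 0, 0,
  0, 0⟩, ⟨224, 38, 56, 4, 43⟩, ⟨52, 13, 13, 2, 11⟩, ⟨100, 25, 25, 2, 23⟩⟩ :=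
  CoN.b 0 1 4 rfl rfl rfl EN3_t33 EN3_c43

theorem EN3_t35 : CoN ENTab ⟨⟨7, 7, 16⟩, ⟨3, 4, 8⟩, ⟨1, 1, 2⟩, ⟨1, 0, 0, 0,
  0⟩, ⟨224, 38, 56, 4, 43⟩, ⟨52, 13, 13, 2, 11⟩, ⟨100, 25, 25, 2, 23⟩⟩ :=
  CoN.b 0 1 2 rfl rfl rfl EN3_c40 EN3_t34

theorem EN3_t36 : CoN ENTab ⟨⟨7, 7, 16⟩, ⟨3, 4, 8⟩, ⟨1, 1, 2⟩, ⟨1, 0, 0, 0,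
  0⟩, ⟨224, 38, 56, 4, 43⟩, ⟨52, 13, 13, 2, 11⟩, ⟨4, 1, 1, 0, 1⟩⟩ :=
  CoN.c 2 3 1 12 rfl rfl rfl rfl rfl EN3_t35 EN3_c44

theorem EN3_t37 : CoN ENTab ⟨⟨7, 7, 16⟩, ⟨3, 4, 8⟩, ⟨1, 1, 2⟩, ⟨1, 0, 0, 0,
  0⟩, ⟨40, 4, 10, 0, 7⟩, ⟨52, 13, 13, 2, 11⟩, ⟨4, 1, 1, 0, 1⟩⟩ :=
  CoN.c 1 2 3 2 rfl rfl rfl rfl rfl EN3_t32 EN3_t36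

theorem EN3_t38 : CoN ENTab ⟨⟨7, 7, 16⟩, ⟨3, 4, 8⟩, ⟨1, 1, 2⟩, ⟨1, 0, 0, 0,
  0⟩, ⟨8, 0, 2, 0, 1⟩, ⟨52, 13, 13, 2, 11⟩, ⟨4, 1, 1, 0, 1⟩⟩ :=
  CoN.c 1 3 3 4 rfl rfl rfl rfl rfl EN3_c33 EN3_t37

theorem EN3_t39 : CoN ENTab ⟨⟨7, 7, 16⟩, ⟨3, 4, 8⟩, ⟨1, 1, 2⟩, ⟨1, 0, 0, 0,
  0⟩, ⟨8, 0, 2, 0, 1⟩, ⟨28, 7, 7, 2, 5⟩, ⟨4, 1, 1, 0, 1⟩⟩ :=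
  CoN.c 2 3 1 6 rfl rfl rfl rfl rfl EN3_c32 EN3_t38

theorem EN3_t40 : CoN ENTab ⟨⟨7, 7, 16⟩, ⟨3, 4, 8⟩, ⟨1, 1, 2⟩, ⟨1, 0, 0, 0,
  0⟩, ⟨8, 0, 2, 0, 1⟩, ⟨8, 2, 2, 1, 1⟩, ⟨4, 1, 1, 0, 1⟩⟩ :=
  CoN.c 2 3 2 3 rfl rfl rfl rfl rfl EN3_c31 EN3_t39

theorem EN3_t41 : CoN ENTab ⟨⟨7, 7, 16⟩, ⟨3, 4, 8⟩, ⟨1, 1, 2⟩, ⟨1, 0, 0, 0,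
  0⟩, ⟨8, 0, 2, 0, 1⟩, ⟨4, 1, 1, 1, 0⟩, ⟨4, 1, 1, 0, 1⟩⟩ :=
  CoN.c 2 3 1 1 rfl rfl rfl rfl rfl EN3_t27 EN3_t40

theorem EN3_t42 : CoN ENTab ⟨⟨3, 3, 8⟩, ⟨3, 4, 8⟩, ⟨7, 7, 16⟩, ⟨1, 0, 0, 0,
  0⟩, ⟨40, 4, 10, 0, 7⟩, ⟨224, 38, 56, 4, 43⟩, ⟨4, 1, 1, 0, 1⟩⟩ :=
  CoN.c 2 3 1 47 rfl rfl rfl rfl rfl EN3_c49 EN3_c50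

theorem EN3_t43 : CoN ENTab ⟨⟨3, 3, 8⟩, ⟨12, 13, 32⟩, ⟨7, 7, 16⟩, ⟨1748,
  389, 389, 34, 355⟩, ⟨3560, 758, 794, 76, 700⟩, ⟨3364, 793, 793, 74, 719⟩,
  ⟨3348, 789, 789, 66, 723⟩⟩ :=
  CoN.c 0 2 2 1 rfl rfl rfl rfl rfl EN3_c59 EN3_c60

theorem EN3_t44 : CoN ENTab ⟨⟨3, 3, 8⟩, ⟨12, 13, 32⟩, ⟨7, 7, 16⟩, ⟨1748,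
  389, 389, 34, 355⟩, ⟨1812, 369, 405, 42, 345⟩, ⟨3364, 793, 793, 74, 719⟩,
  ⟨3348, 789, 789, 66, 723⟩⟩ :=
  CoN.c 0 1 1 1 rfl rfl rfl rfl rfl EN3_t43 EN3_c61

theorem EN3_t45 : CoN ENTab ⟨⟨3, 3, 8⟩, ⟨12, 13, 32⟩, ⟨7, 7, 16⟩, ⟨1748,
  389, 389, 34, 355⟩, ⟨1812, 369, 405, 42, 345⟩, ⟨3364, 793, 793, 74, 719⟩,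
  ⟨100, 25, 25, 2, 23⟩⟩ :=
  CoN.c 0 3 1 16 rfl rfl rfl rfl rfl EN3_t44 EN3_c62

theorem EN3_t46 : CoN ENTab ⟨⟨3, 3, 8⟩, ⟨12, 13, 32⟩, ⟨7, 7, 16⟩, ⟨1748,
  389, 389, 34, 355⟩, ⟨1812, 369, 405, 42, 345⟩, ⟨404, 101, 101, 10, 91⟩,
  ⟨100, 25, 25, 2, 23⟩⟩ :=
  CoN.c 0 2 1 4 rfl rfl rfl rfl rfl EN3_t45 EN3_c63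

theorem EN3_t47 : CoN ENTab ⟨⟨3, 3, 8⟩, ⟨12, 13, 32⟩, ⟨7, 7, 16⟩, ⟨948, 189,
  189, 18, 171⟩, ⟨1812, 369, 405, 42, 345⟩, ⟨404, 101, 101, 10, 91⟩, ⟨100,
  25, 25, 2, 23⟩⟩ :=
  CoN.c 0 3 1 8 rfl rfl rfl rfl rfl EN3_c58 EN3_t46

theorem EN3_t48 : CoN ENTab ⟨⟨3, 3, 8⟩, ⟨12, 13, 32⟩, ⟨7, 7, 16⟩, ⟨948, 189,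
  189, 18, 171⟩, ⟨432, 90, 108, 12, 87⟩, ⟨404, 101, 101, 10, 91⟩, ⟨100, 25,
  25, 2, 23⟩⟩ :=
  CoN.c 0 1 1 2 rfl rfl rfl rfl rfl EN3_t47 EN3_c64

theorem EN3_t49 : CoN ENTab ⟨⟨3, 3, 8⟩, ⟨12, 13, 32⟩, ⟨7, 7, 16⟩, ⟨548, 89,
  89, 10, 79⟩, ⟨432, 90, 108, 12, 87⟩, ⟨404, 101, 101, 10, 91⟩, ⟨100, 25,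
  25, 2, 23⟩⟩ :=
  CoN.c 0 3 1 4 rfl rfl rfl rfl rfl EN3_c57 EN3_t48

theorem EN3_t50 : CoN ENTab ⟨⟨3, 3, 8⟩, ⟨12, 13, 32⟩, ⟨7, 7, 16⟩, ⟨548, 89,
  89, 10, 79⟩, ⟨432, 90, 108, 12, 87⟩, ⟨204, 51, 51, 6, 45⟩, ⟨100, 25, 25,
  2, 23⟩⟩ :=
  CoN.c 2 3 1 2 rfl rfl rfl rfl rfl EN3_c56 EN3_t49

theorem EN3_t51 : CoN ENTab ⟨⟨3, 3, 8⟩, ⟨12, 13, 32⟩, ⟨7, 7, 16⟩, ⟨548, 89,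
  89, 10, 79⟩, ⟨432, 90, 108, 12, 87⟩, ⟨52, 13, 13, 2, 11⟩, ⟨100, 25, 25, 2,
  23⟩⟩ :=
  CoN.c 2 3 2 1 rfl rfl rfl rfl rfl EN3_c55 EN3_t50

theorem EN3_t52 : CoN ENTab ⟨⟨3, 3, 8⟩, ⟨6, 7, 16⟩, ⟨7, 7, 16⟩, ⟨548, 89,
  89, 10, 79⟩, ⟨432, 90, 108, 12, 87⟩, ⟨52, 13, 13, 2, 11⟩, ⟨100, 25, 25, 2,
  23⟩⟩ :=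
  CoN.b 0 2 1 rfl rfl rfl EN3_t51 EN3_c65

theorem EN3_t53 : CoN ENTab ⟨⟨3, 3, 8⟩, ⟨6, 7, 16⟩, ⟨7, 7, 16⟩, ⟨348, 39,
  39, 6, 33⟩, ⟨432, 90, 108, 12, 87⟩, ⟨52, 13, 13, 2, 11⟩, ⟨100, 25, 25, 2,
  23⟩⟩ :=
  CoN.c 0 3 1 2 rfl rfl rfl rfl rfl EN3_c54 EN3_t52

theorem EN3_t54 : CoN ENTab ⟨⟨3, 3, 8⟩, ⟨3, 4, 8⟩, ⟨7, 7, 16⟩, ⟨348, 39, 39,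
  6, 33⟩, ⟨432, 90, 108, 12, 87⟩, ⟨52, 13, 13, 2, 11⟩, ⟨100, 25, 25, 2, 23⟩⟩
  :=
  CoN.b 0 1 1 rfl rfl rfl EN3_t53 EN3_c66

theorem EN3_t55 : CoN ENTab ⟨⟨3, 3, 8⟩, ⟨3, 4, 8⟩, ⟨7, 7, 16⟩, ⟨244, 13, 13,
  2, 11⟩, ⟨432, 90, 108, 12, 87⟩, ⟨52, 13, 13, 2, 11⟩, ⟨100, 25, 25, 2, 23⟩⟩
  :=
  CoN.c 0 2 1 2 rfl rfl rfl rfl rfl EN3_c53 EN3_t54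

theorem EN3_t56 : CoN ENTab ⟨⟨3, 3, 8⟩, ⟨3, 4, 8⟩, ⟨7, 7, 16⟩, ⟨244, 13, 13,
  2, 11⟩, ⟨224, 38, 56, 4, 43⟩, ⟨52, 13, 13, 2, 11⟩, ⟨100, 25, 25, 2, 23⟩⟩
  :=
  CoN.c 1 2 1 4 rfl rfl rfl rfl rfl EN3_c52 EN3_t55

theorem EN3_t57 : CoN ENTab ⟨⟨3, 3, 8⟩, ⟨3, 4, 8⟩, ⟨7, 7, 16⟩, ⟨1, 0, 0, 0,
  0⟩, ⟨224, 38, 56, 4, 43⟩, ⟨52, 13, 13, 2, 11⟩, ⟨100, 25, 25, 2, 23⟩⟩ :=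
  CoN.c 0 2 192 1 rfl rfl rfl rfl rfl EN3_c51 EN3_t56

theorem EN3_t58 : CoN ENTab ⟨⟨3, 3, 8⟩, ⟨3, 4, 8⟩, ⟨7, 7, 16⟩, ⟨1, 0, 0, 0,
  0⟩, ⟨224, 38, 56, 4, 43⟩, ⟨52, 13, 13, 2, 11⟩, ⟨4, 1, 1, 0, 1⟩⟩ :=
  CoN.c 2 3 1 12 rfl rfl rfl rfl rfl EN3_t57 EN3_c67

theorem EN3_t59 : CoN ENTab ⟨⟨3, 3, 8⟩, ⟨3, 4, 8⟩, ⟨7, 7, 16⟩, ⟨1, 0, 0, 0,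
  0⟩, ⟨40, 4, 10, 0, 7⟩, ⟨52, 13, 13, 2, 11⟩, ⟨4, 1, 1, 0, 1⟩⟩ :=
  CoN.c 1 2 3 2 rfl rfl rfl rfl rfl EN3_t42 EN3_t58

theorem EN3_t60 : CoN ENTab ⟨⟨3, 3, 8⟩, ⟨3, 4, 8⟩, ⟨7, 7, 16⟩, ⟨1, 0, 0, 0,
  0⟩, ⟨8, 0, 2, 0, 1⟩, ⟨52, 13, 13, 2, 11⟩, ⟨4, 1, 1, 0, 1⟩⟩ :=
  CoN.c 1 3 3 4 rfl rfl rfl rfl rfl EN3_c48 EN3_t59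

theorem EN3_t61 : CoN ENTab ⟨⟨3, 3, 8⟩, ⟨3, 4, 8⟩, ⟨7, 7, 16⟩, ⟨1, 0, 0, 0,
  0⟩, ⟨8, 0, 2, 0, 1⟩, ⟨28, 7, 7, 2, 5⟩, ⟨4, 1, 1, 0, 1⟩⟩ :=
  CoN.c 2 3 1 6 rfl rfl rfl rfl rfl EN3_c47 EN3_t60

theorem EN3_t62 : CoN ENTab ⟨⟨3, 3, 8⟩, ⟨3, 4, 8⟩, ⟨7, 7, 16⟩, ⟨1, 0, 0, 0,
  0⟩, ⟨8, 0, 2, 0, 1⟩, ⟨8, 2, 2, 1, 1⟩, ⟨4, 1, 1, 0, 1⟩⟩ :=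
  CoN.c 2 3 2 3 rfl rfl rfl rfl rfl EN3_c46 EN3_t61

theorem EN3_t63 : CoN ENTab ⟨⟨3, 3, 8⟩, ⟨3, 4, 8⟩, ⟨7, 7, 16⟩, ⟨1, 0, 0, 0,
  0⟩, ⟨8, 0, 2, 0, 1⟩, ⟨4, 1, 1, 1, 0⟩, ⟨4, 1, 1, 0, 1⟩⟩ :=
  CoN.c 2 3 1 1 rfl rfl rfl rfl rfl EN3_c45 EN3_t62

theorem EN3_t64 : CoN ENTab ⟨⟨3, 3, 8⟩, ⟨3, 4, 8⟩, ⟨1, 1, 2⟩, ⟨1, 0, 0, 0,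
  0⟩, ⟨8, 0, 2, 0, 1⟩, ⟨4, 1, 1, 1, 0⟩, ⟨4, 1, 1, 0, 1⟩⟩ :=
  CoN.b 2 4 1 rfl rfl rfl EN3_t41 EN3_t63

theorem EN3_t65 : CoN ENTab ⟨⟨3, 3, 8⟩, ⟨1, 2, 4⟩, ⟨1, 1, 2⟩, ⟨1, 0, 0, 0,
  0⟩, ⟨8, 0, 2, 0, 1⟩, ⟨4, 1, 1, 1, 0⟩, ⟨4, 1, 1, 0, 1⟩⟩ :=
  CoN.b 1 1 2 rfl rfl rfl EN3_t19 EN3_t64

theorem EN3_t66 : CoN ENTab ⟨⟨5, 5, 16⟩, ⟨2, 3, 8⟩, ⟨3, 3, 8⟩, ⟨1, 0, 0, 0,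
  0⟩, ⟨428, 89, 107, 10, 88⟩, ⟨52, 13, 13, 2, 11⟩, ⟨100, 25, 25, 2, 23⟩⟩ :=
  CoN.c 0 2 192 1 rfl rfl rfl rfl rfl EN3_c74 EN3_c75

theorem EN3_t67 : CoN ENTab ⟨⟨5, 5, 16⟩, ⟨2, 3, 8⟩, ⟨3, 3, 8⟩, ⟨1, 0, 0, 0,
  0⟩, ⟨220, 37, 55, 2, 44⟩, ⟨52, 13, 13, 2, 11⟩, ⟨100, 25, 25, 2, 23⟩⟩ :=
  CoN.c 1 2 1 4 rfl rfl rfl rfl rfl EN3_c73 EN3_t66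

theorem EN3_t68 : CoN ENTab ⟨⟨5, 5, 16⟩, ⟨2, 3, 8⟩, ⟨3, 3, 8⟩, ⟨1, 0, 0, 0,
  0⟩, ⟨40, 4, 10, 0, 7⟩, ⟨52, 13, 13, 2, 11⟩, ⟨100, 25, 25, 2, 23⟩⟩ :=
  CoN.c 1 3 3 1 rfl rfl rfl rfl rfl EN3_c72 EN3_t67

theorem EN3_t69 : CoN ENTab ⟨⟨9, 11, 32⟩, ⟨2, 3, 8⟩, ⟨3, 3, 8⟩, ⟨1, 0, 0, 0,
  0⟩, ⟨40, 4, 10, 0, 7⟩, ⟨100, 25, 25, 2, 23⟩, ⟨4, 1, 1, 0, 1⟩⟩ :=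
  CoN.c 0 1 124 1 rfl rfl rfl rfl rfl EN3_c77 EN3_c78

theorem EN3_t70 : CoN ENTab ⟨⟨5, 5, 16⟩, ⟨2, 3, 8⟩, ⟨3, 3, 8⟩, ⟨1, 0, 0, 0,
  0⟩, ⟨40, 4, 10, 0, 7⟩, ⟨100, 25, 25, 2, 23⟩, ⟨4, 1, 1, 0, 1⟩⟩ :=
  CoN.b 0 1 2 rfl rfl rfl EN3_c76 EN3_t69

theorem EN3_t71 : CoN ENTab ⟨⟨5, 5, 16⟩, ⟨2, 3, 8⟩, ⟨3, 3, 8⟩, ⟨1, 0, 0, 0,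
  0⟩, ⟨40, 4, 10, 0, 7⟩, ⟨52, 13, 13, 2, 11⟩, ⟨4, 1, 1, 0, 1⟩⟩ :=
  CoN.c 2 3 1 12 rfl rfl rfl rfl rfl EN3_t68 EN3_t70

theorem EN3_t72 : CoN ENTab ⟨⟨5, 5, 16⟩, ⟨2, 3, 8⟩, ⟨3, 3, 8⟩, ⟨1, 0, 0, 0,
  0⟩, ⟨8, 0, 2, 0, 1⟩, ⟨52, 13, 13, 2, 11⟩, ⟨4, 1, 1, 0, 1⟩⟩ :=
  CoN.c 1 3 3 4 rfl rfl rfl rfl rfl EN3_c71 EN3_t71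

theorem EN3_t73 : CoN ENTab ⟨⟨5, 5, 16⟩, ⟨2, 3, 8⟩, ⟨3, 3, 8⟩, ⟨1, 0, 0, 0,
  0⟩, ⟨8, 0, 2, 0, 1⟩, ⟨28, 7, 7, 2, 5⟩, ⟨4, 1, 1, 0, 1⟩⟩ :=
  CoN.c 2 3 1 6 rfl rfl rfl rfl rfl EN3_c70 EN3_t72

theorem EN3_t74 : CoN ENTab ⟨⟨5, 5, 16⟩, ⟨2, 3, 8⟩, ⟨3, 3, 8⟩, ⟨1, 0, 0, 0,
  0⟩, ⟨8, 0, 2, 0, 1⟩, ⟨8, 2, 2, 1, 1⟩, ⟨4, 1, 1, 0, 1⟩⟩ :=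
  CoN.c 2 3 2 3 rfl rfl rfl rfl rfl EN3_c69 EN3_t73

theorem EN3_t75 : CoN ENTab ⟨⟨5, 5, 16⟩, ⟨2, 3, 8⟩, ⟨3, 3, 8⟩, ⟨1, 0, 0, 0,
  0⟩, ⟨8, 0, 2, 0, 1⟩, ⟨4, 1, 1, 1, 0⟩, ⟨4, 1, 1, 0, 1⟩⟩ :=
  CoN.c 2 3 1 1 rfl rfl rfl rfl rfl EN3_c68 EN3_t74

theorem EN3_t76 : CoN ENTab ⟨⟨1, 1, 4⟩, ⟨2, 3, 8⟩, ⟨5, 5, 16⟩, ⟨1, 0, 0, 0,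
  0⟩, ⟨40, 4, 10, 0, 7⟩, ⟨204, 51, 51, 6, 45⟩, ⟨100, 25, 25, 2, 23⟩⟩ :=
  CoN.b 1 2 1 rfl rfl rfl EN3_c84 EN3_c85

theorem EN3_t77 : CoN ENTab ⟨⟨1, 1, 4⟩, ⟨2, 3, 8⟩, ⟨5, 5, 16⟩, ⟨1, 0, 0, 0,
  0⟩, ⟨40, 4, 10, 0, 7⟩, ⟨52, 13, 13, 2, 11⟩, ⟨100, 25, 25, 2, 23⟩⟩ :=
  CoN.c 2 3 2 1 rfl rfl rfl rfl rfl EN3_c83 EN3_t76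

theorem EN3_t78 : CoN ENTab ⟨⟨1, 1, 4⟩, ⟨2, 3, 8⟩, ⟨5, 5, 16⟩, ⟨1, 0, 0, 0,
  0⟩, ⟨40, 4, 10, 0, 7⟩, ⟨220, 37, 55, 2, 44⟩, ⟨4, 1, 1, 0, 1⟩⟩ :=
  CoN.c 1 3 1 8 rfl rfl rfl rfl rfl EN3_c86 EN3_c87

theorem EN3_t79 : CoN ENTab ⟨⟨1, 1, 4⟩, ⟨2, 3, 8⟩, ⟨9, 11, 32⟩, ⟨1, 0, 0, 0,
  0⟩, ⟨220, 37, 55, 2, 44⟩, ⟨100, 25, 25, 2, 23⟩, ⟨4, 1, 1, 0, 1⟩⟩ :=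
  CoN.b 0 2 1 rfl rfl rfl EN3_c88 EN3_c89

theorem EN3_t80 : CoN ENTab ⟨⟨1, 1, 4⟩, ⟨2, 3, 8⟩, ⟨5, 5, 16⟩, ⟨1, 0, 0, 0,
  0⟩, ⟨220, 37, 55, 2, 44⟩, ⟨100, 25, 25, 2, 23⟩, ⟨4, 1, 1, 0, 1⟩⟩ :=
  CoN.b 1 2 1 rfl rfl rfl EN3_t79 EN3_c90

theorem EN3_t81 : CoN ENTab ⟨⟨1, 1, 4⟩, ⟨2, 3, 8⟩, ⟨5, 5, 16⟩, ⟨1, 0, 0, 0,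
  0⟩, ⟨40, 4, 10, 0, 7⟩, ⟨100, 25, 25, 2, 23⟩, ⟨4, 1, 1, 0, 1⟩⟩ :=
  CoN.c 1 2 3 1 rfl rfl rfl rfl rfl EN3_t78 EN3_t80

theorem EN3_t82 : CoN ENTab ⟨⟨1, 1, 4⟩, ⟨2, 3, 8⟩, ⟨5, 5, 16⟩, ⟨1, 0, 0, 0,
  0⟩, ⟨40, 4, 10, 0, 7⟩, ⟨52, 13, 13, 2, 11⟩, ⟨4, 1, 1, 0, 1⟩⟩ :=
  CoN.c 2 3 1 12 rfl rfl rfl rfl rfl EN3_t77 EN3_t81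

theorem EN3_t83 : CoN ENTab ⟨⟨1, 1, 4⟩, ⟨2, 3, 8⟩, ⟨5, 5, 16⟩, ⟨1, 0, 0, 0,
  0⟩, ⟨8, 0, 2, 0, 1⟩, ⟨52, 13, 13, 2, 11⟩, ⟨4, 1, 1, 0, 1⟩⟩ :=
  CoN.c 1 3 3 4 rfl rfl rfl rfl rfl EN3_c82 EN3_t82

theorem EN3_t84 : CoN ENTab ⟨⟨1, 1, 4⟩, ⟨2, 3, 8⟩, ⟨5, 5, 16⟩, ⟨1, 0, 0, 0,
  0⟩, ⟨8, 0, 2, 0, 1⟩, ⟨28, 7, 7, 2, 5⟩, ⟨4, 1, 1, 0, 1⟩⟩ :=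
  CoN.c 2 3 1 6 rfl rfl rfl rfl rfl EN3_c81 EN3_t83

theorem EN3_t85 : CoN ENTab ⟨⟨1, 1, 4⟩, ⟨2, 3, 8⟩, ⟨5, 5, 16⟩, ⟨1, 0, 0, 0,
  0⟩, ⟨8, 0, 2, 0, 1⟩, ⟨8, 2, 2, 1, 1⟩, ⟨4, 1, 1, 0, 1⟩⟩ :=
  CoN.c 2 3 2 3 rfl rfl rfl rfl rfl EN3_c80 EN3_t84

theorem EN3_t86 : CoN ENTab ⟨⟨1, 1, 4⟩, ⟨2, 3, 8⟩, ⟨5, 5, 16⟩, ⟨1, 0, 0, 0,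
  0⟩, ⟨8, 0, 2, 0, 1⟩, ⟨4, 1, 1, 1, 0⟩, ⟨4, 1, 1, 0, 1⟩⟩ :=
  CoN.c 2 3 1 1 rfl rfl rfl rfl rfl EN3_c79 EN3_t85

theorem EN3_t87 : CoN ENTab ⟨⟨1, 1, 4⟩, ⟨2, 3, 8⟩, ⟨3, 3, 8⟩, ⟨1, 0, 0, 0,
  0⟩, ⟨8, 0, 2, 0, 1⟩, ⟨4, 1, 1, 1, 0⟩, ⟨4, 1, 1, 0, 1⟩⟩ :=
  CoN.b 2 1 2 rfl rfl rfl EN3_t75 EN3_t86

theorem EN3_t88 : CoN ENTab ⟨⟨2, 3, 8⟩, ⟨1, 2, 4⟩, ⟨5, 7, 16⟩, ⟨1, 0, 0, 0,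
  0⟩, ⟨8, 0, 2, 0, 1⟩, ⟨28, 7, 7, 2, 5⟩, ⟨4, 1, 1, 0, 1⟩⟩ :=
  CoN.c 1 2 5 1 rfl rfl rfl rfl rfl EN3_c93 EN3_c94

theorem EN3_t89 : CoN ENTab ⟨⟨2, 3, 8⟩, ⟨1, 2, 4⟩, ⟨5, 7, 16⟩, ⟨1, 0, 0, 0,
  0⟩, ⟨8, 0, 2, 0, 1⟩, ⟨8, 2, 2, 1, 1⟩, ⟨4, 1, 1, 0, 1⟩⟩ :=
  CoN.c 2 3 2 3 rfl rfl rfl rfl rfl EN3_c92 EN3_t88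

theorem EN3_t90 : CoN ENTab ⟨⟨2, 3, 8⟩, ⟨1, 2, 4⟩, ⟨5, 7, 16⟩, ⟨1, 0, 0, 0,
  0⟩, ⟨8, 0, 2, 0, 1⟩, ⟨4, 1, 1, 1, 0⟩, ⟨4, 1, 1, 0, 1⟩⟩ :=
  CoN.c 2 3 1 1 rfl rfl rfl rfl rfl EN3_c91 EN3_t89

theorem EN3_t91 : CoN ENTab ⟨⟨5, 6, 16⟩, ⟨5, 7, 16⟩, ⟨3, 3, 8⟩, ⟨1, 0, 0, 0,
  0⟩, ⟨72, 12, 18, 0, 15⟩, ⟨424, 88, 106, 8, 89⟩, ⟨4, 1, 1, 0, 1⟩⟩ :=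
  CoN.b 1 1 2 rfl rfl rfl EN3_c100 EN3_c101

theorem EN3_t92 : CoN ENTab ⟨⟨2, 3, 8⟩, ⟨5, 7, 16⟩, ⟨3, 3, 8⟩, ⟨1, 0, 0, 0,
  0⟩, ⟨72, 12, 18, 0, 15⟩, ⟨424, 88, 106, 8, 89⟩, ⟨4, 1, 1, 0, 1⟩⟩ :=
  CoN.b 2 1 1 rfl rfl rfl EN3_t91 EN3_c102

theorem EN3_t93 : CoN ENTab ⟨⟨2, 3, 8⟩, ⟨5, 7, 16⟩, ⟨3, 3, 8⟩, ⟨1, 0, 0, 0,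
  0⟩, ⟨424, 88, 106, 8, 89⟩, ⟨100, 25, 25, 2, 23⟩, ⟨4, 1, 1, 0, 1⟩⟩ :=
  CoN.c 1 3 1 95 rfl rfl rfl rfl rfl EN3_c104 EN3_c105

theorem EN3_t94 : CoN ENTab ⟨⟨2, 3, 8⟩, ⟨5, 7, 16⟩, ⟨3, 3, 8⟩, ⟨1, 0, 0, 0,
  0⟩, ⟨424, 88, 106, 8, 89⟩, ⟨52, 13, 13, 2, 11⟩, ⟨4, 1, 1, 0, 1⟩⟩ :=
  CoN.c 2 3 1 12 rfl rfl rfl rfl rfl EN3_c103 EN3_t93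

theorem EN3_t95 : CoN ENTab ⟨⟨2, 3, 8⟩, ⟨5, 7, 16⟩, ⟨3, 3, 8⟩, ⟨1, 0, 0, 0,
  0⟩, ⟨72, 12, 18, 0, 15⟩, ⟨52, 13, 13, 2, 11⟩, ⟨4, 1, 1, 0, 1⟩⟩ :=
  CoN.c 1 2 3 4 rfl rfl rfl rfl rfl EN3_t92 EN3_t94

theorem EN3_t96 : CoN ENTab ⟨⟨2, 3, 8⟩, ⟨5, 7, 16⟩, ⟨3, 3, 8⟩, ⟨1, 0, 0, 0,
  0⟩, ⟨40, 4, 10, 0, 7⟩, ⟨52, 13, 13, 2, 11⟩, ⟨4, 1, 1, 0, 1⟩⟩ :=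
  CoN.c 1 3 1 8 rfl rfl rfl rfl rfl EN3_c99 EN3_t95

theorem EN3_t97 : CoN ENTab ⟨⟨2, 3, 8⟩, ⟨5, 7, 16⟩, ⟨3, 3, 8⟩, ⟨1, 0, 0, 0,
  0⟩, ⟨40, 4, 10, 0, 7⟩, ⟨28, 7, 7, 2, 5⟩, ⟨4, 1, 1, 0, 1⟩⟩ :=
  CoN.c 2 3 1 6 rfl rfl rfl rfl rfl EN3_c98 EN3_t96

theorem EN3_t98 : CoN ENTab ⟨⟨2, 3, 8⟩, ⟨5, 7, 16⟩, ⟨3, 3, 8⟩, ⟨1, 0, 0, 0,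
  0⟩, ⟨8, 0, 2, 0, 1⟩, ⟨28, 7, 7, 2, 5⟩, ⟨4, 1, 1, 0, 1⟩⟩ :=
  CoN.c 1 3 3 4 rfl rfl rfl rfl rfl EN3_c97 EN3_t97

theorem EN3_t99 : CoN ENTab ⟨⟨2, 3, 8⟩, ⟨5, 7, 16⟩, ⟨3, 3, 8⟩, ⟨1, 0, 0, 0,
  0⟩, ⟨8, 0, 2, 0, 1⟩, ⟨8, 2, 2, 1, 1⟩, ⟨4, 1, 1, 0, 1⟩⟩ :=
  CoN.c 2 3 2 3 rfl rfl rfl rfl rfl EN3_c96 EN3_t98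

theorem EN3_t100 : CoN ENTab ⟨⟨2, 3, 8⟩, ⟨5, 7, 16⟩, ⟨3, 3, 8⟩, ⟨1, 0, 0, 0,
  0⟩, ⟨8, 0, 2, 0, 1⟩, ⟨4, 1, 1, 1, 0⟩, ⟨4, 1, 1, 0, 1⟩⟩ :=
  CoN.c 2 3 1 1 rfl rfl rfl rfl rfl EN3_c95 EN3_t99

theorem EN3_t101 : CoN ENTab ⟨⟨2, 3, 8⟩, ⟨1, 2, 4⟩, ⟨3, 3, 8⟩, ⟨1, 0, 0, 0,
  0⟩, ⟨8, 0, 2, 0, 1⟩, ⟨4, 1, 1, 1, 0⟩, ⟨4, 1, 1, 0, 1⟩⟩ :=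
  CoN.b 1 2 1 rfl rfl rfl EN3_t90 EN3_t100

theorem EN3_t102 : CoN ENTab ⟨⟨1, 1, 4⟩, ⟨1, 2, 4⟩, ⟨3, 3, 8⟩, ⟨1, 0, 0, 0,
  0⟩, ⟨8, 0, 2, 0, 1⟩, ⟨4, 1, 1, 1, 0⟩, ⟨4, 1, 1, 0, 1⟩⟩ :=
  CoN.b 0 1 1 rfl rfl rfl EN3_t87 EN3_t101

theorem EN3_t103 : CoN ENTab ⟨⟨1, 1, 4⟩, ⟨1, 2, 4⟩, ⟨1, 1, 2⟩, ⟨1, 0, 0, 0,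
  0⟩, ⟨8, 0, 2, 0, 1⟩, ⟨4, 1, 1, 1, 0⟩, ⟨4, 1, 1, 0, 1⟩⟩ :=
  CoN.b 2 2 1 rfl rfl rfl EN3_t65 EN3_t102

theorem EN3_t104 : CoN ENTab ⟨⟨1, 1, 4⟩, ⟨0, 1, 2⟩, ⟨1, 1, 2⟩, ⟨1, 0, 0, 0,
  0⟩, ⟨8, 0, 2, 0, 1⟩, ⟨4, 1, 1, 1, 0⟩, ⟨4, 1, 1, 0, 1⟩⟩ :=
  CoN.b 1 1 1 rfl rfl rfl EN3_t10 EN3_t103

theorem EN3_t105 : CoN ENTab ⟨⟨1, 1, 8⟩, ⟨1, 3, 16⟩, ⟨1, 2, 8⟩, ⟨1, 0, 0, 0,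
  0⟩, ⟨232, 20, 26, 0, 23⟩, ⟨100, 25, 25, 2, 23⟩, ⟨20, 1, 1, 0, 1⟩⟩ :=
  CoN.c 0 2 384 1 rfl rfl rfl rfl rfl EN3_c113 EN3_c114

theorem EN3_t106 : CoN ENTab ⟨⟨1, 1, 8⟩, ⟨1, 3, 16⟩, ⟨1, 2, 8⟩, ⟨1, 0, 0, 0,
  0⟩, ⟨72, 12, 18, 0, 15⟩, ⟨100, 25, 25, 2, 23⟩, ⟨20, 1, 1, 0, 1⟩⟩ :=
  CoN.c 1 3 1 8 rfl rfl rfl rfl rfl EN3_c112 EN3_t105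

theorem EN3_t107 : CoN ENTab ⟨⟨1, 1, 8⟩, ⟨1, 3, 16⟩, ⟨1, 2, 8⟩, ⟨1, 0, 0, 0,
  0⟩, ⟨72, 12, 18, 0, 15⟩, ⟨100, 25, 25, 2, 23⟩, ⟨4, 1, 1, 0, 1⟩⟩ :=
  CoN.c 0 3 16 1 rfl rfl rfl rfl rfl EN3_t106 EN3_c115

theorem EN3_t108 : CoN ENTab ⟨⟨1, 1, 8⟩, ⟨1, 3, 16⟩, ⟨1, 2, 8⟩, ⟨1, 0, 0, 0,
  0⟩, ⟨40, 4, 10, 0, 7⟩, ⟨100, 25, 25, 2, 23⟩, ⟨4, 1, 1, 0, 1⟩⟩ :=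
  CoN.c 1 3 1 8 rfl rfl rfl rfl rfl EN3_c111 EN3_t107

theorem EN3_t109 : CoN ENTab ⟨⟨1, 1, 8⟩, ⟨1, 3, 16⟩, ⟨1, 2, 8⟩, ⟨1, 0, 0, 0,
  0⟩, ⟨40, 4, 10, 0, 7⟩, ⟨52, 13, 13, 2, 11⟩, ⟨4, 1, 1, 0, 1⟩⟩ :=
  CoN.c 2 3 1 12 rfl rfl rfl rfl rfl EN3_c110 EN3_t108

theorem EN3_t110 : CoN ENTab ⟨⟨1, 1, 8⟩, ⟨1, 3, 16⟩, ⟨1, 2, 8⟩, ⟨1, 0, 0, 0,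
  0⟩, ⟨8, 0, 2, 0, 1⟩, ⟨52, 13, 13, 2, 11⟩, ⟨4, 1, 1, 0, 1⟩⟩ :=
  CoN.c 1 3 3 4 rfl rfl rfl rfl rfl EN3_c109 EN3_t109

theorem EN3_t111 : CoN ENTab ⟨⟨1, 1, 8⟩, ⟨1, 3, 16⟩, ⟨1, 2, 8⟩, ⟨1, 0, 0, 0,
  0⟩, ⟨8, 0, 2, 0, 1⟩, ⟨28, 7, 7, 2, 5⟩, ⟨4, 1, 1, 0, 1⟩⟩ :=
  CoN.c 2 3 1 6 rfl rfl rfl rfl rfl EN3_c108 EN3_t110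

theorem EN3_t112 : CoN ENTab ⟨⟨1, 1, 8⟩, ⟨1, 3, 16⟩, ⟨1, 2, 8⟩, ⟨1, 0, 0, 0,
  0⟩, ⟨8, 0, 2, 0, 1⟩, ⟨8, 2, 2, 1, 1⟩, ⟨4, 1, 1, 0, 1⟩⟩ :=
  CoN.c 2 3 2 3 rfl rfl rfl rfl rfl EN3_c107 EN3_t111

theorem EN3_t113 : CoN ENTab ⟨⟨1, 1, 8⟩, ⟨1, 3, 16⟩, ⟨1, 2, 8⟩, ⟨1, 0, 0, 0,
  0⟩, ⟨8, 0, 2, 0, 1⟩, ⟨4, 1, 1, 1, 0⟩, ⟨4, 1, 1, 0, 1⟩⟩ :=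
  CoN.c 2 3 1 1 rfl rfl rfl rfl rfl EN3_c106 EN3_t112

theorem EN3_t114 : CoN ENTab ⟨⟨1, 1, 8⟩, ⟨0, 1, 4⟩, ⟨1, 2, 8⟩, ⟨1, 0, 0, 0,
  0⟩, ⟨8, 0, 2, 0, 1⟩, ⟨4, 1, 1, 1, 0⟩, ⟨4, 1, 1, 0, 1⟩⟩ :=
  CoN.b 0 1 2 rfl rfl rfl EN3_t113 EN3_c116

theorem EN3_t115 : CoN ENTab ⟨⟨5, 7, 32⟩, ⟨1, 2, 8⟩, ⟨1, 1, 4⟩, ⟨1, 0, 0, 0,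
  0⟩, ⟨72, 12, 18, 0, 15⟩, ⟨424, 88, 106, 8, 89⟩, ⟨4, 1, 1, 0, 1⟩⟩ :=
  CoN.c 0 3 16 1 rfl rfl rfl rfl rfl EN3_c123 EN3_c124

theorem EN3_t116 : CoN ENTab ⟨⟨3, 3, 16⟩, ⟨1, 2, 8⟩, ⟨1, 1, 4⟩, ⟨1, 0, 0, 0,
  0⟩, ⟨72, 12, 18, 0, 15⟩, ⟨424, 88, 106, 8, 89⟩, ⟨4, 1, 1, 0, 1⟩⟩ :=
  CoN.b 0 1 2 rfl rfl rfl EN3_c122 EN3_t115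

theorem EN3_t117 : CoN ENTab ⟨⟨3, 3, 16⟩, ⟨1, 2, 8⟩, ⟨1, 1, 4⟩, ⟨1, 0, 0, 0,
  0⟩, ⟨424, 88, 106, 8, 89⟩, ⟨52, 13, 13, 2, 11⟩, ⟨4, 1, 1, 0, 1⟩⟩ :=
  CoN.c 2 3 1 12 rfl rfl rfl rfl rfl EN3_c125 EN3_c126

theorem EN3_t118 : CoN ENTab ⟨⟨3, 3, 16⟩, ⟨1, 2, 8⟩, ⟨1, 1, 4⟩, ⟨1, 0, 0, 0,
  0⟩, ⟨72, 12, 18, 0, 15⟩, ⟨52, 13, 13, 2, 11⟩, ⟨4, 1, 1, 0, 1⟩⟩ :=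
  CoN.c 1 2 3 4 rfl rfl rfl rfl rfl EN3_t116 EN3_t117

theorem EN3_t119 : CoN ENTab ⟨⟨3, 3, 16⟩, ⟨1, 2, 8⟩, ⟨1, 1, 4⟩, ⟨1, 0, 0, 0,
  0⟩, ⟨40, 4, 10, 0, 7⟩, ⟨52, 13, 13, 2, 11⟩, ⟨4, 1, 1, 0, 1⟩⟩ :=
  CoN.c 1 3 1 8 rfl rfl rfl rfl rfl EN3_c121 EN3_t118

theorem EN3_t120 : CoN ENTab ⟨⟨3, 3, 16⟩, ⟨1, 2, 8⟩, ⟨1, 1, 4⟩, ⟨1, 0, 0, 0,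
  0⟩, ⟨8, 0, 2, 0, 1⟩, ⟨52, 13, 13, 2, 11⟩, ⟨4, 1, 1, 0, 1⟩⟩ :=
  CoN.c 1 3 3 4 rfl rfl rfl rfl rfl EN3_c120 EN3_t119

theorem EN3_t121 : CoN ENTab ⟨⟨3, 3, 16⟩, ⟨1, 2, 8⟩, ⟨1, 1, 4⟩, ⟨1, 0, 0, 0,
  0⟩, ⟨8, 0, 2, 0, 1⟩, ⟨28, 7, 7, 2, 5⟩, ⟨4, 1, 1, 0, 1⟩⟩ :=
  CoN.c 2 3 1 6 rfl rfl rfl rfl rfl EN3_c119 EN3_t120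

theorem EN3_t122 : CoN ENTab ⟨⟨3, 3, 16⟩, ⟨1, 2, 8⟩, ⟨1, 1, 4⟩, ⟨1, 0, 0, 0,
  0⟩, ⟨8, 0, 2, 0, 1⟩, ⟨8, 2, 2, 1, 1⟩, ⟨4, 1, 1, 0, 1⟩⟩ :=
  CoN.c 2 3 2 3 rfl rfl rfl rfl rfl EN3_c118 EN3_t121

theorem EN3_t123 : CoN ENTab ⟨⟨3, 3, 16⟩, ⟨1, 2, 8⟩, ⟨1, 1, 4⟩, ⟨1, 0, 0, 0,
  0⟩, ⟨8, 0, 2, 0, 1⟩, ⟨4, 1, 1, 1, 0⟩, ⟨4, 1, 1, 0, 1⟩⟩ :=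
  CoN.c 2 3 1 1 rfl rfl rfl rfl rfl EN3_c117 EN3_t122

theorem EN3_t124 : CoN ENTab ⟨⟨1, 1, 8⟩, ⟨1, 2, 8⟩, ⟨3, 3, 16⟩, ⟨1, 0, 0, 0,
  0⟩, ⟨120, 8, 14, 0, 11⟩, ⟨100, 25, 25, 2, 23⟩, ⟨20, 1, 1, 0, 1⟩⟩ :=
  CoN.c 1 2 3 2 rfl rfl rfl rfl rfl EN3_c133 EN3_c134

theorem EN3_t125 : CoN ENTab ⟨⟨1, 1, 8⟩, ⟨1, 2, 8⟩, ⟨3, 3, 16⟩, ⟨1, 0, 0, 0,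
  0⟩, ⟨40, 4, 10, 0, 7⟩, ⟨100, 25, 25, 2, 23⟩, ⟨20, 1, 1, 0, 1⟩⟩ :=
  CoN.c 1 3 1 4 rfl rfl rfl rfl rfl EN3_c132 EN3_t124

theorem EN3_t126 : CoN ENTab ⟨⟨1, 1, 8⟩, ⟨1, 2, 8⟩, ⟨3, 3, 16⟩, ⟨20, 1, 1,
  0, 1⟩, ⟨40, 4, 10, 0, 7⟩, ⟨100, 25, 25, 2, 23⟩, ⟨4, 1, 1, 0, 1⟩⟩ :=
  CoN.c 0 1 4 1 rfl rfl rfl rfl rfl EN3_c135 EN3_c136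

theorem EN3_t127 : CoN ENTab ⟨⟨1, 1, 8⟩, ⟨1, 2, 8⟩, ⟨3, 3, 16⟩, ⟨1, 0, 0, 0,
  0⟩, ⟨40, 4, 10, 0, 7⟩, ⟨100, 25, 25, 2, 23⟩, ⟨4, 1, 1, 0, 1⟩⟩ :=
  CoN.c 0 3 16 1 rfl rfl rfl rfl rfl EN3_t125 EN3_t126

theorem EN3_t128 : CoN ENTab ⟨⟨1, 1, 8⟩, ⟨1, 2, 8⟩, ⟨3, 3, 16⟩, ⟨1, 0, 0, 0,
  0⟩, ⟨40, 4, 10, 0, 7⟩, ⟨52, 13, 13, 2, 11⟩, ⟨4, 1, 1, 0, 1⟩⟩ :=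
  CoN.c 2 3 1 12 rfl rfl rfl rfl rfl EN3_c131 EN3_t127

theorem EN3_t129 : CoN ENTab ⟨⟨1, 1, 8⟩, ⟨1, 2, 8⟩, ⟨3, 3, 16⟩, ⟨1, 0, 0, 0,
  0⟩, ⟨8, 0, 2, 0, 1⟩, ⟨52, 13, 13, 2, 11⟩, ⟨4, 1, 1, 0, 1⟩⟩ :=
  CoN.c 1 3 3 4 rfl rfl rfl rfl rfl EN3_c130 EN3_t128

theorem EN3_t130 : CoN ENTab ⟨⟨1, 1, 8⟩, ⟨1, 2, 8⟩, ⟨3, 3, 16⟩, ⟨1, 0, 0, 0,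
  0⟩, ⟨8, 0, 2, 0, 1⟩, ⟨28, 7, 7, 2, 5⟩, ⟨4, 1, 1, 0, 1⟩⟩ :=
  CoN.c 2 3 1 6 rfl rfl rfl rfl rfl EN3_c129 EN3_t129

theorem EN3_t131 : CoN ENTab ⟨⟨1, 1, 8⟩, ⟨1, 2, 8⟩, ⟨3, 3, 16⟩, ⟨1, 0, 0, 0,
  0⟩, ⟨8, 0, 2, 0, 1⟩, ⟨8, 2, 2, 1, 1⟩, ⟨4, 1, 1, 0, 1⟩⟩ :=
  CoN.c 2 3 2 3 rfl rfl rfl rfl rfl EN3_c128 EN3_t130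

theorem EN3_t132 : CoN ENTab ⟨⟨1, 1, 8⟩, ⟨1, 2, 8⟩, ⟨3, 3, 16⟩, ⟨1, 0, 0, 0,
  0⟩, ⟨8, 0, 2, 0, 1⟩, ⟨4, 1, 1, 1, 0⟩, ⟨4, 1, 1, 0, 1⟩⟩ :=
  CoN.c 2 3 1 1 rfl rfl rfl rfl rfl EN3_c127 EN3_t131

theorem EN3_t133 : CoN ENTab ⟨⟨1, 1, 8⟩, ⟨1, 2, 8⟩, ⟨1, 1, 4⟩, ⟨1, 0, 0, 0,
  0⟩, ⟨8, 0, 2, 0, 1⟩, ⟨4, 1, 1, 1, 0⟩, ⟨4, 1, 1, 0, 1⟩⟩ :=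
  CoN.b 2 2 1 rfl rfl rfl EN3_t123 EN3_t132

theorem EN3_t134 : CoN ENTab ⟨⟨1, 1, 8⟩, ⟨0, 1, 4⟩, ⟨1, 1, 4⟩, ⟨1, 0, 0, 0,
  0⟩, ⟨8, 0, 2, 0, 1⟩, ⟨4, 1, 1, 1, 0⟩, ⟨4, 1, 1, 0, 1⟩⟩ :=
  CoN.b 1 1 1 rfl rfl rfl EN3_t114 EN3_t133

theorem EN3_t135 : CoN ENTab ⟨⟨1, 1, 16⟩, ⟨0, 1, 8⟩, ⟨1, 2, 16⟩, ⟨1, 0, 0,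
  0, 0⟩, ⟨72, 12, 18, 0, 15⟩, ⟨484, 25, 25, 2, 23⟩, ⟨4, 1, 1, 0, 1⟩⟩ :=
  CoN.c 1 2 3 1 rfl rfl rfl rfl rfl EN3_c143 EN3_c144

theorem EN3_t136 : CoN ENTab ⟨⟨1, 1, 16⟩, ⟨0, 1, 8⟩, ⟨1, 2, 16⟩, ⟨1, 0, 0,
  0, 0⟩, ⟨72, 12, 18, 0, 15⟩, ⟨100, 25, 25, 2, 23⟩, ⟨4, 1, 1, 0, 1⟩⟩ :=
  CoN.c 0 2 384 1 rfl rfl rfl rfl rfl EN3_t135 EN3_c145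

theorem EN3_t137 : CoN ENTab ⟨⟨1, 1, 16⟩, ⟨0, 1, 8⟩, ⟨1, 1, 8⟩, ⟨1, 0, 0, 0,
  0⟩, ⟨72, 12, 18, 0, 15⟩, ⟨100, 25, 25, 2, 23⟩, ⟨4, 1, 1, 0, 1⟩⟩ :=
  CoN.b 1 1 1 rfl rfl rfl EN3_t136 EN3_c146

theorem EN3_t138 : CoN ENTab ⟨⟨1, 1, 16⟩, ⟨0, 1, 8⟩, ⟨1, 1, 8⟩, ⟨1, 0, 0, 0,
  0⟩, ⟨40, 4, 10, 0, 7⟩, ⟨100, 25, 25, 2, 23⟩, ⟨4, 1, 1, 0, 1⟩⟩ :=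
  CoN.c 1 3 1 8 rfl rfl rfl rfl rfl EN3_c142 EN3_t137

theorem EN3_t139 : CoN ENTab ⟨⟨1, 1, 16⟩, ⟨0, 1, 8⟩, ⟨1, 1, 8⟩, ⟨1, 0, 0, 0,
  0⟩, ⟨40, 4, 10, 0, 7⟩, ⟨52, 13, 13, 2, 11⟩, ⟨4, 1, 1, 0, 1⟩⟩ :=
  CoN.c 2 3 1 12 rfl rfl rfl rfl rfl EN3_c141 EN3_t138

theorem EN3_t140 : CoN ENTab ⟨⟨1, 1, 16⟩, ⟨0, 1, 8⟩, ⟨1, 1, 8⟩, ⟨1, 0, 0, 0,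
  0⟩, ⟨8, 0, 2, 0, 1⟩, ⟨52, 13, 13, 2, 11⟩, ⟨4, 1, 1, 0, 1⟩⟩ :=
  CoN.c 1 3 3 4 rfl rfl rfl rfl rfl EN3_c140 EN3_t139

theorem EN3_t141 : CoN ENTab ⟨⟨1, 1, 16⟩, ⟨0, 1, 8⟩, ⟨1, 1, 8⟩, ⟨1, 0, 0, 0,
  0⟩, ⟨8, 0, 2, 0, 1⟩, ⟨28, 7, 7, 2, 5⟩, ⟨4, 1, 1, 0, 1⟩⟩ :=
  CoN.c 2 3 1 6 rfl rfl rfl rfl rfl EN3_c139 EN3_t140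

theorem EN3_t142 : CoN ENTab ⟨⟨1, 1, 16⟩, ⟨0, 1, 8⟩, ⟨1, 1, 8⟩, ⟨1, 0, 0, 0,
  0⟩, ⟨8, 0, 2, 0, 1⟩, ⟨8, 2, 2, 1, 1⟩, ⟨4, 1, 1, 0, 1⟩⟩ :=
  CoN.c 2 3 2 3 rfl rfl rfl rfl rfl EN3_c138 EN3_t141

theorem EN3_t143 : CoN ENTab ⟨⟨1, 1, 16⟩, ⟨0, 1, 8⟩, ⟨1, 1, 8⟩, ⟨1, 0, 0, 0,
  0⟩, ⟨8, 0, 2, 0, 1⟩, ⟨4, 1, 1, 1, 0⟩, ⟨4, 1, 1, 0, 1⟩⟩ :=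
  CoN.c 2 3 1 1 rfl rfl rfl rfl rfl EN3_c137 EN3_t142

theorem EN3_t144 : CoN ENTab ⟨⟨0, 1, 16⟩, ⟨0, 1, 8⟩, ⟨1, 1, 16⟩, ⟨1, 0, 0,
  0, 0⟩, ⟨372, 8, 14, 0, 11⟩, ⟨340, 37, 37, 2, 35⟩, ⟨20, 1, 1, 0, 1⟩⟩ :=
  CoN.c 1 2 3 2 rfl rfl rfl rfl rfl EN3_c155 EN3_c156

theorem EN3_t145 : CoN ENTab ⟨⟨0, 1, 16⟩, ⟨0, 1, 8⟩, ⟨1, 1, 16⟩, ⟨1, 0, 0,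
  0, 0⟩, ⟨120, 8, 14, 0, 11⟩, ⟨340, 37, 37, 2, 35⟩, ⟨20, 1, 1, 0, 1⟩⟩ :=
  CoN.c 0 1 252 1 rfl rfl rfl rfl rfl EN3_t144 EN3_c157

theorem EN3_t146 : CoN ENTab ⟨⟨0, 0, 1⟩, ⟨0, 1, 8⟩, ⟨1, 1, 16⟩, ⟨1, 0, 0, 0,
  0⟩, ⟨120, 8, 14, 0, 11⟩, ⟨340, 37, 37, 2, 35⟩, ⟨20, 1, 1, 0, 1⟩⟩ :=
  CoN.b 0 8 1 rfl rfl rfl EN3_c154 EN3_t145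

theorem EN3_t147 : CoN ENTab ⟨⟨0, 0, 1⟩, ⟨0, 1, 8⟩, ⟨1, 1, 16⟩, ⟨1, 0, 0, 0,
  0⟩, ⟨120, 8, 14, 0, 11⟩, ⟨100, 25, 25, 2, 23⟩, ⟨20, 1, 1, 0, 1⟩⟩ :=
  CoN.c 2 3 1 12 rfl rfl rfl rfl rfl EN3_c153 EN3_t146

theorem EN3_t148 : CoN ENTab ⟨⟨0, 0, 1⟩, ⟨0, 1, 8⟩, ⟨1, 1, 16⟩, ⟨1, 0, 0, 0,
  0⟩, ⟨40, 4, 10, 0, 7⟩, ⟨100, 25, 25, 2, 23⟩, ⟨20, 1, 1, 0, 1⟩⟩ :=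
  CoN.c 1 3 1 4 rfl rfl rfl rfl rfl EN3_c152 EN3_t147

theorem EN3_t149 : CoN ENTab ⟨⟨0, 0, 1⟩, ⟨0, 1, 8⟩, ⟨1, 1, 16⟩, ⟨1, 0, 0, 0,
  0⟩, ⟨40, 4, 10, 0, 7⟩, ⟨100, 25, 25, 2, 23⟩, ⟨4, 1, 1, 0, 1⟩⟩ :=
  CoN.c 0 3 16 1 rfl rfl rfl rfl rfl EN3_t148 EN3_c158

theorem EN3_t150 : CoN ENTab ⟨⟨0, 0, 1⟩, ⟨0, 1, 8⟩, ⟨1, 1, 16⟩, ⟨1, 0, 0, 0,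
  0⟩, ⟨40, 4, 10, 0, 7⟩, ⟨52, 13, 13, 2, 11⟩, ⟨4, 1, 1, 0, 1⟩⟩ :=
  CoN.c 2 3 1 12 rfl rfl rfl rfl rfl EN3_c151 EN3_t149

theorem EN3_t151 : CoN ENTab ⟨⟨0, 0, 1⟩, ⟨0, 1, 8⟩, ⟨1, 1, 16⟩, ⟨1, 0, 0, 0,
  0⟩, ⟨8, 0, 2, 0, 1⟩, ⟨52, 13, 13, 2, 11⟩, ⟨4, 1, 1, 0, 1⟩⟩ :=
  CoN.c 1 3 3 4 rfl rfl rfl rfl rfl EN3_c150 EN3_t150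

theorem EN3_t152 : CoN ENTab ⟨⟨0, 0, 1⟩, ⟨0, 1, 8⟩, ⟨1, 1, 16⟩, ⟨1, 0, 0, 0,
  0⟩, ⟨8, 0, 2, 0, 1⟩, ⟨28, 7, 7, 2, 5⟩, ⟨4, 1, 1, 0, 1⟩⟩ :=
  CoN.c 2 3 1 6 rfl rfl rfl rfl rfl EN3_c149 EN3_t151

theorem EN3_t153 : CoN ENTab ⟨⟨0, 0, 1⟩, ⟨0, 1, 8⟩, ⟨1, 1, 16⟩, ⟨1, 0, 0, 0,
  0⟩, ⟨8, 0, 2, 0, 1⟩, ⟨8, 2, 2, 1, 1⟩, ⟨4, 1, 1, 0, 1⟩⟩ :=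
  CoN.c 2 3 2 3 rfl rfl rfl rfl rfl EN3_c148 EN3_t152

theorem EN3_t154 : CoN ENTab ⟨⟨0, 0, 1⟩, ⟨0, 1, 8⟩, ⟨1, 1, 16⟩, ⟨1, 0, 0, 0,
  0⟩, ⟨8, 0, 2, 0, 1⟩, ⟨4, 1, 1, 1, 0⟩, ⟨4, 1, 1, 0, 1⟩⟩ :=
  CoN.c 2 3 1 1 rfl rfl rfl rfl rfl EN3_c147 EN3_t153

theorem EN3_t155 : CoN ENTab ⟨⟨0, 0, 1⟩, ⟨0, 1, 8⟩, ⟨1, 1, 8⟩, ⟨1, 0, 0, 0,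
  0⟩, ⟨8, 0, 2, 0, 1⟩, ⟨4, 1, 1, 1, 0⟩, ⟨4, 1, 1, 0, 1⟩⟩ :=
  CoN.b 2 1 8 rfl rfl rfl EN3_t143 EN3_t154

theorem EN3_t156 : CoN ENTab ⟨⟨1, 2, 16⟩, ⟨1, 3, 16⟩, ⟨1, 1, 8⟩, ⟨1, 0, 0,
  0, 0⟩, ⟨72, 12, 18, 0, 15⟩, ⟨52, 13, 13, 2, 11⟩, ⟨4, 1, 1, 0, 1⟩⟩ :=
  CoN.c 1 3 1 16 rfl rfl rfl rfl rfl EN3_c165 EN3_c166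

theorem EN3_t157 : CoN ENTab ⟨⟨1, 2, 16⟩, ⟨1, 3, 16⟩, ⟨1, 1, 8⟩, ⟨1, 0, 0,
  0, 0⟩, ⟨40, 4, 10, 0, 7⟩, ⟨52, 13, 13, 2, 11⟩, ⟨4, 1, 1, 0, 1⟩⟩ :=
  CoN.c 1 3 1 8 rfl rfl rfl rfl rfl EN3_c164 EN3_t156

theorem EN3_t158 : CoN ENTab ⟨⟨0, 1, 8⟩, ⟨1, 3, 16⟩, ⟨1, 1, 8⟩, ⟨1, 0, 0, 0,
  0⟩, ⟨40, 4, 10, 0, 7⟩, ⟨52, 13, 13, 2, 11⟩, ⟨4, 1, 1, 0, 1⟩⟩ :=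
  CoN.b 2 1 1 rfl rfl rfl EN3_t157 EN3_c167

theorem EN3_t159 : CoN ENTab ⟨⟨0, 1, 8⟩, ⟨1, 3, 16⟩, ⟨1, 1, 8⟩, ⟨1, 0, 0, 0,
  0⟩, ⟨40, 4, 10, 0, 7⟩, ⟨28, 7, 7, 2, 5⟩, ⟨4, 1, 1, 0, 1⟩⟩ :=
  CoN.c 2 3 1 6 rfl rfl rfl rfl rfl EN3_c163 EN3_t158

theorem EN3_t160 : CoN ENTab ⟨⟨0, 1, 8⟩, ⟨1, 3, 16⟩, ⟨1, 1, 8⟩, ⟨1, 0, 0, 0,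
  0⟩, ⟨8, 0, 2, 0, 1⟩, ⟨28, 7, 7, 2, 5⟩, ⟨4, 1, 1, 0, 1⟩⟩ :=
  CoN.c 1 3 3 4 rfl rfl rfl rfl rfl EN3_c162 EN3_t159

theorem EN3_t161 : CoN ENTab ⟨⟨0, 1, 8⟩, ⟨1, 3, 16⟩, ⟨1, 1, 8⟩, ⟨1, 0, 0, 0,
  0⟩, ⟨8, 0, 2, 0, 1⟩, ⟨8, 2, 2, 1, 1⟩, ⟨4, 1, 1, 0, 1⟩⟩ :=
  CoN.c 2 3 2 3 rfl rfl rfl rfl rfl EN3_c161 EN3_t160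

theorem EN3_t162 : CoN ENTab ⟨⟨0, 1, 8⟩, ⟨1, 3, 16⟩, ⟨1, 1, 8⟩, ⟨1, 0, 0, 0,
  0⟩, ⟨8, 0, 2, 0, 1⟩, ⟨4, 1, 1, 1, 0⟩, ⟨4, 1, 1, 0, 1⟩⟩ :=
  CoN.c 2 3 1 1 rfl rfl rfl rfl rfl EN3_c160 EN3_t161

theorem EN3_t163 : CoN ENTab ⟨⟨0, 1, 8⟩, ⟨0, 1, 4⟩, ⟨1, 1, 8⟩, ⟨1, 0, 0, 0,
  0⟩, ⟨8, 0, 2, 0, 1⟩, ⟨4, 1, 1, 1, 0⟩, ⟨4, 1, 1, 0, 1⟩⟩ :=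
  CoN.b 1 2 1 rfl rfl rfl EN3_c159 EN3_t162

theorem EN3_t164 : CoN ENTab ⟨⟨0, 0, 1⟩, ⟨0, 1, 4⟩, ⟨1, 1, 8⟩, ⟨1, 0, 0, 0,
  0⟩, ⟨8, 0, 2, 0, 1⟩, ⟨4, 1, 1, 1, 0⟩, ⟨4, 1, 1, 0, 1⟩⟩ :=
  CoN.b 0 4 1 rfl rfl rfl EN3_t155 EN3_t163

theorem EN3_t165 : CoN ENTab ⟨⟨0, 0, 1⟩, ⟨0, 1, 4⟩, ⟨1, 1, 4⟩, ⟨1, 0, 0, 0,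
  0⟩, ⟨8, 0, 2, 0, 1⟩, ⟨4, 1, 1, 1, 0⟩, ⟨4, 1, 1, 0, 1⟩⟩ :=
  CoN.b 2 1 4 rfl rfl rfl EN3_t134 EN3_t164

theorem EN3_t166 : CoN ENTab ⟨⟨1, 2, 8⟩, ⟨3, 5, 16⟩, ⟨1, 1, 4⟩, ⟨1, 0, 0, 0,
  0⟩, ⟨416, 86, 104, 4, 91⟩, ⟨100, 25, 25, 2, 23⟩, ⟨20, 1, 1, 0, 1⟩⟩ :=
  CoN.b 2 2 1 rfl rfl rfl EN3_c177 EN3_c178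

theorem EN3_t167 : CoN ENTab ⟨⟨1, 2, 8⟩, ⟨3, 5, 16⟩, ⟨1, 1, 4⟩, ⟨1, 0, 0, 0,
  0⟩, ⟨72, 12, 18, 0, 15⟩, ⟨100, 25, 25, 2, 23⟩, ⟨20, 1, 1, 0, 1⟩⟩ :=
  CoN.c 1 2 3 2 rfl rfl rfl rfl rfl EN3_c176 EN3_t166

theorem EN3_t168 : CoN ENTab ⟨⟨1, 2, 8⟩, ⟨3, 5, 16⟩, ⟨1, 1, 4⟩, ⟨20, 1, 1,
  0, 1⟩, ⟨72, 12, 18, 0, 15⟩, ⟨100, 25, 25, 2, 23⟩, ⟨4, 1, 1, 0, 1⟩⟩ :=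
  CoN.c 0 3 1 2 rfl rfl rfl rfl rfl EN3_c179 EN3_c180

theorem EN3_t169 : CoN ENTab ⟨⟨1, 2, 8⟩, ⟨3, 5, 16⟩, ⟨1, 1, 4⟩, ⟨1, 0, 0, 0,
  0⟩, ⟨72, 12, 18, 0, 15⟩, ⟨100, 25, 25, 2, 23⟩, ⟨4, 1, 1, 0, 1⟩⟩ :=
  CoN.c 0 3 16 1 rfl rfl rfl rfl rfl EN3_t167 EN3_t168

theorem EN3_t170 : CoN ENTab ⟨⟨1, 2, 8⟩, ⟨3, 5, 16⟩, ⟨1, 1, 4⟩, ⟨1, 0, 0, 0,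
  0⟩, ⟨72, 12, 18, 0, 15⟩, ⟨52, 13, 13, 2, 11⟩, ⟨4, 1, 1, 0, 1⟩⟩ :=
  CoN.c 2 3 1 12 rfl rfl rfl rfl rfl EN3_c175 EN3_t169

theorem EN3_t171 : CoN ENTab ⟨⟨1, 2, 8⟩, ⟨3, 5, 16⟩, ⟨1, 1, 4⟩, ⟨1, 0, 0, 0,
  0⟩, ⟨40, 4, 10, 0, 7⟩, ⟨52, 13, 13, 2, 11⟩, ⟨4, 1, 1, 0, 1⟩⟩ :=
  CoN.c 1 3 1 8 rfl rfl rfl rfl rfl EN3_c174 EN3_t170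

theorem EN3_t172 : CoN ENTab ⟨⟨1, 2, 8⟩, ⟨3, 5, 16⟩, ⟨1, 1, 4⟩, ⟨1, 0, 0, 0,
  0⟩, ⟨40, 4, 10, 0, 7⟩, ⟨28, 7, 7, 2, 5⟩, ⟨4, 1, 1, 0, 1⟩⟩ :=
  CoN.c 2 3 1 6 rfl rfl rfl rfl rfl EN3_c173 EN3_t171

theorem EN3_t173 : CoN ENTab ⟨⟨1, 2, 8⟩, ⟨3, 5, 16⟩, ⟨1, 1, 4⟩, ⟨1, 0, 0, 0,
  0⟩, ⟨8, 0, 2, 0, 1⟩, ⟨28, 7, 7, 2, 5⟩, ⟨4, 1, 1, 0, 1⟩⟩ :=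
  CoN.c 1 3 3 4 rfl rfl rfl rfl rfl EN3_c172 EN3_t172

theorem EN3_t174 : CoN ENTab ⟨⟨1, 2, 8⟩, ⟨3, 5, 16⟩, ⟨1, 1, 4⟩, ⟨1, 0, 0, 0,
  0⟩, ⟨8, 0, 2, 0, 1⟩, ⟨8, 2, 2, 1, 1⟩, ⟨4, 1, 1, 0, 1⟩⟩ :=
  CoN.c 2 3 2 3 rfl rfl rfl rfl rfl EN3_c171 EN3_t173

theorem EN3_t175 : CoN ENTab ⟨⟨1, 2, 8⟩, ⟨3, 5, 16⟩, ⟨1, 1, 4⟩, ⟨1, 0, 0, 0,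
  0⟩, ⟨8, 0, 2, 0, 1⟩, ⟨4, 1, 1, 1, 0⟩, ⟨4, 1, 1, 0, 1⟩⟩ :=
  CoN.c 2 3 1 1 rfl rfl rfl rfl rfl EN3_c170 EN3_t174

theorem EN3_t176 : CoN ENTab ⟨⟨1, 2, 8⟩, ⟨1, 3, 8⟩, ⟨1, 1, 4⟩, ⟨1, 0, 0, 0,
  0⟩, ⟨8, 0, 2, 0, 1⟩, ⟨4, 1, 1, 1, 0⟩, ⟨4, 1, 1, 0, 1⟩⟩ :=
  CoN.b 1 1 2 rfl rfl rfl EN3_c169 EN3_t175

theorem EN3_t177 : CoN ENTab ⟨⟨0, 1, 4⟩, ⟨1, 3, 8⟩, ⟨1, 1, 4⟩, ⟨1, 0, 0, 0,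
  0⟩, ⟨8, 0, 2, 0, 1⟩, ⟨4, 1, 1, 1, 0⟩, ⟨4, 1, 1, 0, 1⟩⟩ :=
  CoN.b 2 1 1 rfl rfl rfl EN3_t176 EN3_c181

theorem EN3_t178 : CoN ENTab ⟨⟨0, 1, 4⟩, ⟨0, 1, 2⟩, ⟨1, 1, 4⟩, ⟨1, 0, 0, 0,
  0⟩, ⟨8, 0, 2, 0, 1⟩, ⟨4, 1, 1, 1, 0⟩, ⟨4, 1, 1, 0, 1⟩⟩ :=
  CoN.b 1 2 1 rfl rfl rfl EN3_c168 EN3_t177

theorem EN3_t179 : CoN ENTab ⟨⟨0, 0, 1⟩, ⟨0, 1, 2⟩, ⟨1, 1, 4⟩, ⟨1, 0, 0, 0,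
  0⟩, ⟨8, 0, 2, 0, 1⟩, ⟨4, 1, 1, 1, 0⟩, ⟨4, 1, 1, 0, 1⟩⟩ :=
  CoN.b 0 2 1 rfl rfl rfl EN3_t165 EN3_t178

theorem EN3_t180 : CoN ENTab ⟨⟨0, 0, 1⟩, ⟨0, 1, 2⟩, ⟨1, 1, 2⟩, ⟨1, 0, 0, 0,
  0⟩, ⟨8, 0, 2, 0, 1⟩, ⟨4, 1, 1, 1, 0⟩, ⟨4, 1, 1, 0, 1⟩⟩ :=
  CoN.b 2 1 2 rfl rfl rfl EN3_t104 EN3_t179

end Pool.Agent.TET.Cvr
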