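import Pool.Agent.Helper37_TET.LastQ
import Pool.Agent.Helper37_TET.EN0_T0
import Pool.Agent.Helper37_TET.EN1_T0
import Pool.Agent.Helper37_TET.EN2_T0
import Pool.Agent.Helper37_TET.EN3_T0

/-!
# MP_c7c9bf_co: the cover of chart N
-/

set_option autoImplicit false
set_option maxRecDepth 100000

namespace Pool.Agent.TET

open Cvr (V4 Cd)

theorem EN_cover : CoverN Cvr.ENTab :=
  coverNq Cvr.EN0_t155 Cvr.EN1_t235 Cvr.EN2_t22 Cvr.EN3_t180

end Pool.Agent.TET
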