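import Pool.Agent.Helper37_TET.OkC

/-!
# MP_c7c9bf_co: lists of good regions with one exception region
-/

set_option autoImplicit false

namespace Pool.Agent.TET.Cvr

theorem okx_nil {X : List Cd} : ∀ R ∈ ([] : List (List Cd)), R = X ∨ ROK R :=
  fun _ h => absurd h List.not_mem_nil

theorem okx_cons {X R : List Cd} {T : List (List Cd)} (h : ROK R) (hT : ∀ R ∈ T, R = X ∨ ROK R) :
    ∀ S ∈ (R :: T), S = X ∨ ROK S :=
  fun S hS => (List.mem_cons.1 hS).elim (fun e => Or.inr (e ▸ h)) (hT S)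

theorem okx_x {X : List Cd} {T : List (List Cd)} (hT : ∀ R ∈ T, R = X ∨ ROK R) :
    ∀ S ∈ (X :: T), S = X ∨ ROK S :=
  fun S hS => (List.mem_cons.1 hS).elim (fun e => Or.inl e) (hT S)

end Pool.Agent.TET.Cvr
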