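import Pool.Agent.Helper37_TET.ENTab
import Pool.Agent.Helper37_TET.OkX
import Pool.Agent.Helper38_TET.TA
import Pool.Agent.Helper38_TET.TB
import Pool.Agent.Helper38_TET.TC
import Pool.Agent.Helper38_TET.TD
import Pool.Agent.Helper38_TET.TE
import Pool.Agent.Helper38_TET.TF
import Pool.Agent.Helper38_TET.TG
import Pool.Agent.Helper38_TET.TH
import Pool.Agent.Helper38_TET.TI
import Pool.Agent.Helper38_TET.TK
import Pool.Agent.Helper38_TET.TL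
import Pool.Agent.Helper38_TET.TM
import Pool.Agent.Helper38_TET.TO
import Pool.Agent.Helper38_TET.TP
import Pool.Agent.Helper38_TET.TQ
import Pool.Agent.Helper38_TET.TT
import Pool.Agent.Helper38_TET.TU
import Pool.Agent.Helper38_TET.TV
import Pool.Agent.Helper38_TET.TW
import Pool.Agent.Helper38_TET.TX
import Pool.Agent.Helper38_TET.TY
import Pool.Agent.Helper86_TET.XRegD

/-!
# MP_c7c9bf_co: the regions of the table ENTab are good
-/

set_option autoImplicit false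
set_option maxRecDepth 100000

namespace Pool.Agent.TET.Cvr

theorem EN_ok : ∀ R ∈ ENTab, R = xRD ∨ ROK R :=
  (okx_x
  (okx_cons TE_rg3
  (okx_cons TE_rg70
  (okx_cons TB_rg20
  (okx_cons TB_rg187
  (okx_cons TB_rg299
  (okx_cons TE_rg4
  (okx_cons TE_rg32
  (okx_cons TE_rg5
  (okx_cons TB_rg5
  (okx_cons TW_rg1
  (okx_cons TF_rg1
  (okx_cons TE_rg12
  (okx_cons TE_rg88
  (okx_cons TE_rg1
  (okx_cons TV_rg0
  (okx_cons TB_rg23
  (okx_cons TE_rg71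
  (okx_cons TB_rg197
  (okx_cons TB_rg40
  (okx_cons TE_rg19
  (okx_cons TD_rg28
  (okx_cons TD_rg13
  (okx_cons TB_rg176
  (okx_cons TF_rg3
  (okx_cons TW_rg4
  (okx_cons TE_rg53
  (okx_cons TE_rg7
  (okx_cons TB_rg142
  (okx_cons TB_rg37
  (okx_cons TB_rg131
  (okx_cons TB_rg21
  (okx_cons TD_rg4
  (okx_cons TE_rg26
  (okx_cons TF_rg4
  (okx_cons TE_rg6
  (okx_cons TD_rg168
  (okx_cons TB_rg72
  (okx_cons TE_rg33
  (okx_cons TB_rg261
  (okx_cons TD_rg0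
  (okx_cons TD_rg7
  (okx_cons TE_rg118
  (okx_cons TB_rg290
  (okx_cons TE_rg43
  (okx_cons TB_rg191
  (okx_cons TL_rg0
  (okx_cons TD_rg14
  (okx_cons TB_rg289
  (okx_cons TB_rg161
  (okx_cons TB_rg1
  (okx_cons TB_rg87
  (okx_cons TP_rg1
  (okx_cons TB_rg370
  (okx_cons TB_rg121
  (okx_cons TB_rg22
  (okx_cons TB_rg25
  (okx_cons TB_rg334
  (okx_cons TB_rg108
  (okx_cons TW_rg2
  (okx_cons TE_rg108
  (okx_cons TB_rg15
  (okx_cons TB_rg10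
  (okx_cons TB_rg357
  (okx_cons TE_rg18
  (okx_cons TE_rg15
  (okx_cons TB_rg18
  (okx_cons TE_rg16
  (okx_cons TB_rg220
  (okx_cons TB_rg335
  (okx_cons TD_rg2
  (okx_cons TE_rg111
  (okx_cons TB_rg162
  (okx_cons TE_rg95
  (okx_cons TE_rg64
  (okx_cons TB_rg137
  (okx_cons TE_rg67
  (okx_cons TU_rg1
  (okx_cons TE_rg106
  (okx_cons TE_rg92
  (okx_cons TE_rg93
  (okx_cons TF_rg5
  (okx_cons TD_rg44
  (okx_cons TE_rg100
  (okx_cons TF_rg29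
  (okx_cons TB_rg377
  (okx_cons TP_rg17
  (okx_cons TB_rg215
  (okx_cons TB_rg364
  (okx_cons TT_rg0
  (okx_cons TU_rg2
  (okx_cons TB_rg9
  (okx_cons TB_rg219
  (okx_cons TP_rg83
  (okx_cons TF_rg0
  (okx_cons TE_rg65
  (okx_cons TD_rg43
  (okx_cons TD_rg20
  (okx_cons TD_rg24
  (okx_cons TE_rg97
  (okx_cons TU_rg4
  (okx_cons TB_rg302
  (okx_cons TE_rg63
  (okx_cons TE_rg36
  (okx_cons TB_rg88
  (okx_cons TE_rg50
  (okx_cons TF_rg48
  (okx_cons TB_rg229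
  (okx_cons TD_rg47
  (okx_cons TE_rg8
  (okx_cons TF_rg33
  (okx_cons TF_rg119
  (okx_cons TB_rg212
  (okx_cons TB_rg196
  (okx_cons TB_rg293
  (okx_cons TB_rg190
  (okx_cons TB_rg270
  (okx_cons TM_rg18
  (okx_cons TU_rg14
  (okx_cons TB_rg56
  (okx_cons TP_rg8
  (okx_cons TB_rg368
  (okx_cons TD_rg32
  (okx_cons TD_rg1
  (okx_cons TU_rg7
  (okx_cons TD_rg301
  (okx_cons TA_rg19
  (okx_cons TE_rg25
  (okx_cons TB_rg174
  (okx_cons TU_rg21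
  (okx_cons TX_rg0
  (okx_cons TE_rg96
  (okx_cons TH_rg1
  (okx_cons TK_rg1
  (okx_cons TF_rg30
  (okx_cons TB_rg38
  (okx_cons TE_rg41
  (okx_cons TE_rg115
  (okx_cons TB_rg70
  (okx_cons TD_rg19
  (okx_cons TE_rg126
  (okx_cons TD_rg91
  (okx_cons TB_rg284
  (okx_cons TO_rg1
  (okx_cons TA_rg31
  (okx_cons TD_rg332
  (okx_cons TB_rg44
  (okx_cons TE_rg2
  (okx_cons TB_rg356
  (okx_cons TE_rg87
  (okx_cons TF_rg32
  (okx_cons TF_rg91
  (okx_cons TB_rg110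
  (okx_cons TA_rg0
  (okx_cons TB_rg206
  (okx_cons TF_rg110
  (okx_cons TE_rg69
  (okx_cons TE_rg42
  (okx_cons TD_rg38
  (okx_cons TB_rg26
  (okx_cons TH_rg20
  (okx_cons TB_rg310
  (okx_cons TB_rg260
  (okx_cons TF_rg26
  (okx_cons TB_rg254
  (okx_cons TD_rg46
  (okx_cons TB_rg214
  (okx_cons TE_rg23
  (okx_cons TF_rg109
  (okx_cons TB_rg177
  (okx_cons TE_rg60
  (okx_cons TP_rg13
  (okx_cons TF_rg50
  (okx_cons TE_rg82
  (okx_cons TA_rg12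
  (okx_cons TB_rg271
  (okx_cons TB_rg199
  (okx_cons TE_rg149
  (okx_cons TB_rg19
  (okx_cons TB_rg7
  (okx_cons TD_rg160
  (okx_cons TD_rg112
  (okx_cons TO_rg0
  (okx_cons TF_rg94
  (okx_cons TB_rg222
  (okx_cons TD_rg16
  (okx_cons TD_rg39
  (okx_cons TD_rg159
  (okx_cons TB_rg391
  (okx_cons TB_rg55
  (okx_cons TB_rg244
  (okx_cons TD_rg328
  (okx_cons TF_rg133
  (okx_cons TD_rg31
  (okx_cons TE_rg20
  (okx_cons TB_rg42
  (okx_cons TP_rg33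
  (okx_cons TD_rg278
  (okx_cons TE_rg89
  (okx_cons TE_rg49
  (okx_cons TF_rg37
  (okx_cons TE_rg139
  (okx_cons TB_rg379
  (okx_cons TD_rg41
  (okx_cons TD_rg51
  (okx_cons TD_rg10
  (okx_cons TE_rg46
  (okx_cons TQ_rg38
  (okx_cons TD_rg37
  (okx_cons TE_rg54
  (okx_cons TT_rg1
  (okx_cons TO_rg3
  (okx_cons TG_rg1
  (okx_cons TA_rg34
  (okx_cons TB_rg13
  (okx_cons TB_rg285
  (okx_cons TP_rg111
  (okx_cons TF_rg111
  (okx_cons TD_rg3
  (okx_cons TB_rg223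
  (okx_cons TP_rg46
  (okx_cons TD_rg42
  (okx_cons TF_rg115
  (okx_cons TB_rg8
  (okx_cons TE_rg28
  (okx_cons TU_rg27
  (okx_cons TH_rg13
  (okx_cons TD_rg73
  (okx_cons TD_rg147
  (okx_cons TF_rg69
  (okx_cons TT_rg2
  (okx_cons TX_rg1
  (okx_cons TM_rg0
  (okx_cons TE_rg22
  (okx_cons TP_rg69
  (okx_cons TB_rg250
  (okx_cons TY_rg0
  (okx_cons TB_rg300
  (okx_cons TE_rg48
  (okx_cons TB_rg213
  (okx_cons TB_rg221
  (okx_cons TU_rg36
  (okx_cons TB_rg296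
  (okx_cons TB_rg2
  (okx_cons TU_rg5
  (okx_cons TB_rg51
  (okx_cons TM_rg20
  (okx_cons TF_rg38
  (okx_cons TB_rg124
  (okx_cons TB_rg73
  (okx_cons TG_rg2
  (okx_cons TB_rg381
  (okx_cons TF_rg72
  (okx_cons TB_rg100
  (okx_cons TE_rg61
  (okx_cons TB_rg16
  (okx_cons TB_rg209
  (okx_cons TD_rg9
  (okx_cons TB_rg235
  (okx_cons TU_rg42
  (okx_cons TK_rg0
  (okx_cons TD_rg153
  (okx_cons TF_rg55
  (okx_cons TE_rg199
  (okx_cons TF_rg52
  (okx_cons TE_rg180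
  (okx_cons TD_rg12
  (okx_cons TH_rg15
  (okx_cons TF_rg10
  (okx_cons TD_rg92
  (okx_cons TE_rg37
  (okx_cons TD_rg52
  (okx_cons TD_rg292
  (okx_cons TI_rg62
  (okx_cons TQ_rg48
  (okx_cons TQ_rg36
  (okx_cons TB_rg128
  (okx_cons TE_rg144
  (okx_cons TP_rg0
  (okx_cons TF_rg6
  (okx_cons TB_rg60
  (okx_cons TB_rg367
  (okx_cons TY_rg2
  (okx_cons TA_rg25
  (okx_cons TE_rg9
  (okx_cons TB_rg231
  (okx_cons TB_rg102
  (okx_cons TE_rg75
  (okx_cons TB_rg50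
  (okx_cons TM_rg41
  (okx_cons TU_rg16
  (okx_cons TE_rg56
  (okx_cons TB_rg242
  (okx_cons TP_rg132
  (okx_cons TE_rg91
  (okx_cons TF_rg9
  (okx_cons TP_rg116
  (okx_cons TQ_rg40
  (okx_cons TB_rg166
  (okx_cons TF_rg17
  (okx_cons TF_rg118
  (okx_cons TF_rg43
  (okx_cons TB_rg111
  (okx_cons TF_rg58
  (okx_cons TD_rg36
  (okx_cons TD_rg169
  (okx_cons TB_rg185
  (okx_cons TI_rg23
  (okx_cons TE_rg73
  (okx_cons TP_rg77
  (okx_cons TB_rg120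
  (okx_cons TD_rg299
  (okx_cons TG_rg0
  (okx_cons TF_rg16
  (okx_cons TB_rg132
  (okx_cons TE_rg76
  (okx_cons TP_rg110
  (okx_cons TB_rg92
  (okx_cons TE_rg72
  (okx_cons TF_rg65
  (okx_cons TF_rg77
  (okx_cons TF_rg63
  (okx_cons TB_rg80
  (okx_cons TB_rg83
  (okx_cons TQ_rg10
  (okx_cons TQ_rg35
  (okx_cons TU_rg30
  (okx_cons TD_rg102
  (okx_cons TA_rg14
  (okx_cons TE_rg113
  (okx_cons TB_rg442
  (okx_cons TH_rg101
  (okx_cons TD_rg57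
  (okx_cons TB_rg397
  (okx_cons TA_rg48
  (okx_cons TQ_rg73
  (okx_cons TP_rg113
  (okx_cons TP_rg135
  (okx_cons TB_rg412
  (okx_cons TU_rg28
  (okx_cons TA_rg7
  (okx_cons TH_rg9
  (okx_cons TU_rg43
  (okx_cons TQ_rg64
  (okx_cons TA_rg16
  (okx_cons TP_rg123
  (okx_cons TB_rg14
  (okx_cons TU_rg9
  (okx_cons TB_rg94
  (okx_cons TD_rg54
  (okx_cons TD_rg89
  (okx_cons TB_rg201
  (okx_cons TM_rg25
  (okx_cons TB_rg75
  (okx_cons TB_rg263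
  (okx_cons TB_rg179
  (okx_cons TB_rg123
  (okx_cons TE_rg81
  (okx_cons TE_rg39
  (okx_cons TD_rg154
  (okx_cons TQ_rg51
  (okx_cons TP_rg79
  (okx_cons TP_rg121
  (okx_cons TB_rg158
  (okx_cons TQ_rg25
  (okx_cons TE_rg44
  (okx_cons TH_rg6
  (okx_cons TB_rg246
  (okx_cons TP_rg128
  (okx_cons TB_rg226
  (okx_cons TD_rg122
  (okx_cons TF_rg27
  (okx_cons TB_rg59
  (okx_cons TB_rg52
  (okx_cons TB_rg227
  (okx_cons TB_rg361
  (okx_cons TD_rg108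
  (okx_cons TH_rg66
  (okx_cons TD_rg239
  (okx_cons TH_rg47
  (okx_cons TB_rg248
  (okx_cons TB_rg68
  (okx_cons TE_rg161
  (okx_cons TP_rg131
  (okx_cons TE_rg62
  (okx_cons TD_rg176
  (okx_cons TB_rg279
  (okx_cons TB_rg232
  (okx_cons TP_rg122
  (okx_cons TU_rg78
  (okx_cons TQ_rg53
  (okx_cons TQ_rg32
  (okx_cons TB_rg200
  (okx_cons TD_rg11
  (okx_cons TD_rg141
  (okx_cons TI_rg107
  (okx_cons TI_rg17
  (okx_cons TQ_rg67
  (okx_cons TB_rg204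
  (okx_cons TB_rg265
  (okx_cons TE_rg157
  (okx_cons TP_rg103
  (okx_cons TP_rg42
  (okx_cons TD_rg233
  (okx_cons TQ_rg2
  (okx_cons TH_rg56
  (okx_cons TB_rg61
  (okx_cons TE_rg57
  (okx_cons TE_rg83
  (okx_cons TE_rg122
  (okx_cons TB_rg65
  (okx_cons TB_rg49
  (okx_cons TU_rg71
  (okx_cons TO_rg2
  (okx_cons TB_rg268
  (okx_cons TE_rg40
  (okx_cons TF_rg56
  (okx_cons TB_rg330
  (okx_cons TB_rg336
  (okx_cons TI_rg98
  (okx_cons TH_rg39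
  (okx_cons TH_rg36
  (okx_cons TF_rg84
  (okx_cons TF_rg151
  (okx_cons TE_rg128
  (okx_cons TP_rg91
  (okx_cons TB_rg0
  (okx_cons TD_rg116
  (okx_cons TB_rg195
  (okx_cons TE_rg114
  (okx_cons TB_rg346
  (okx_cons TU_rg34
  (okx_cons TF_rg54
  (okx_cons TP_rg112
  (okx_cons TE_rg14
  (okx_cons TE_rg129
  (okx_cons TE_rg86
  (okx_cons TB_rg452
  (okx_cons TB_rg273
  (okx_cons TD_rg34
  (okx_cons TH_rg17
  (okx_cons TE_rg78
  (okx_cons TP_rg130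
  (okx_cons TE_rg66
  (okx_cons TP_rg136
  (okx_cons TI_rg1
  (okx_cons TW_rg0
  (okx_cons TU_rg18
  (okx_cons TF_rg108
  (okx_cons TB_rg101
  (okx_cons TD_rg15
  (okx_cons TU_rg52
  (okx_cons TD_rg107
  (okx_cons TB_rg276
  (okx_cons TB_rg35
  (okx_cons TQ_rg8
  (okx_cons TF_rg112
  (okx_cons TF_rg75
  (okx_cons TF_rg90
  (okx_cons TB_rg288
  (okx_cons TP_rg26
  (okx_cons TP_rg114
  (okx_cons TP_rg115
  (okx_cons TF_rg7
  (okx_cons TE_rg68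
  (okx_cons TD_rg277
  (okx_cons TA_rg32
  (okx_cons TM_rg22
  (okx_cons TM_rg19
  (okx_cons TB_rg71
  (okx_cons TB_rg309
  (okx_cons TF_rg39
  (okx_cons TE_rg45
  (okx_cons TE_rg11
  (okx_cons TP_rg43
  (okx_cons TP_rg14
  (okx_cons TP_rg104
  (okx_cons TD_rg55
  (okx_cons TB_rg46
  (okx_cons TB_rg306
  (okx_cons TD_rg282
  (okx_cons TU_rg72
  (okx_cons TB_rg247
  (okx_cons TA_rg9
  (okx_cons TM_rg1
  (okx_cons TB_rg143
  (okx_cons TB_rg90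
  (okx_cons TP_rg39
  (okx_cons TP_rg20
  (okx_cons TF_rg99
  (okx_cons TE_rg159
  (okx_cons TE_rg154
  (okx_cons TE_rg90
  (okx_cons TD_rg124
  (okx_cons TE_rg84
  (okx_cons TB_rg443
  (okx_cons TF_rg147
  (okx_cons TF_rg20
  (okx_cons TF_rg114
  (okx_cons TE_rg0
  (okx_cons TA_rg24
  (okx_cons TD_rg253
  (okx_cons TM_rg28
  (okx_cons TH_rg75
  (okx_cons TF_rg139
  (okx_cons TF_rg31
  (okx_cons TB_rg331
  (okx_cons TE_rg148
  (okx_cons TP_rg25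
  (okx_cons TP_rg117
  (okx_cons TH_rg177
  (okx_cons TH_rg14
  (okx_cons TW_rg3
  (okx_cons TD_rg283
  (okx_cons TU_rg59
  (okx_cons TI_rg15
  (okx_cons TI_rg16
  (okx_cons TE_rg47
  (okx_cons TF_rg146
  (okx_cons TF_rg93
  (okx_cons TP_rg40
  (okx_cons TE_rg131
  (okx_cons TE_rg107
  (okx_cons TF_rg101
  (okx_cons TF_rg36
  (okx_cons TD_rg30
  (okx_cons TU_rg75
  (okx_cons TI_rg126
  (okx_cons TB_rg388
  (okx_cons TA_rg45
  (okx_cons TA_rg41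
  (okx_cons TU_rg53
  (okx_cons TE_rg103
  (okx_cons TE_rg13
  (okx_cons TE_rg146
  (okx_cons TF_rg73
  (okx_cons TF_rg49
  (okx_cons TB_rg339
  (okx_cons TD_rg33
  (okx_cons TF_rg105
  (okx_cons TD_rg90
  (okx_cons TD_rg125
  (okx_cons TM_rg2
  (okx_cons TA_rg40
  (okx_cons TQ_rg4
  (okx_cons TU_rg74
  (okx_cons TE_rg120
  (okx_cons TF_rg28
  (okx_cons TE_rg74
  (okx_cons TE_rg192
  (okx_cons TD_rg121
  (okx_cons TB_rg218
  (okx_cons TD_rg218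
  (okx_cons TD_rg227
  (okx_cons TB_rg286
  (okx_cons TB_rg225
  (okx_cons TP_rg32
  (okx_cons TP_rg41
  (okx_cons TE_rg201
  (okx_cons TE_rg141
  (okx_cons TE_rg79
  (okx_cons TH_rg63
  (okx_cons TD_rg59
  (okx_cons TD_rg5
  (okx_cons TB_rg236
  (okx_cons TI_rg78
  (okx_cons TY_rg1
  (okx_cons TB_rg34
  (okx_cons TH_rg22
  (okx_cons TA_rg29
  (okx_cons TQ_rg15
  (okx_cons TE_rg145
  (okx_cons TB_rg11
  (okx_cons TP_rg118
  (okx_cons TF_rg18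
  (okx_cons TE_rg202
  (okx_cons TB_rg453
  (okx_cons TB_rg350
  (okx_cons TB_rg461
  (okx_cons TB_rg277
  (okx_cons TQ_rg45
  (okx_cons TC_rg5
  (okx_cons TC_rg8
  (okx_cons TI_rg14
  (okx_cons TI_rg32
  (okx_cons TH_rg157
  (okx_cons TQ_rg14
  (okx_cons TB_rg43
  (okx_cons TP_rg47
  (okx_cons TE_rg143
  (okx_cons TE_rg178
  (okx_cons TD_rg345
  (okx_cons TE_rg197
  (okx_cons TA_rg46
  (okx_cons TU_rg48
  (okx_cons TD_rg26
  (okx_cons TD_rg146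
  (okx_cons TB_rg347
  (okx_cons TI_rg132
  (okx_cons TI_rg42
  (okx_cons TA_rg11
  (okx_cons TU_rg0
  (okx_cons TM_rg45
  (okx_cons TB_rg79
  (okx_cons TM_rg24
  (okx_cons TH_rg57
  (okx_cons TB_rg295
  (okx_cons TE_rg119
  (okx_cons TF_rg132
  (okx_cons TB_rg54
  (okx_cons TE_rg124
  (okx_cons TD_rg152
  (okx_cons TI_rg4
  (okx_cons TB_rg95
  (okx_cons TQ_rg33
  (okx_cons TP_rg35
  (okx_cons TD_rg314
  (okx_cons TB_rg363
  (okx_cons TP_rg59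
  (okx_cons TQ_rg62
  (okx_cons TU_rg57
  (okx_cons TE_rg58
  (okx_cons TE_rg172
  (okx_cons TE_rg132
  (okx_cons TE_rg52
  (okx_cons TE_rg116
  (okx_cons TE_rg31
  (okx_cons TE_rg105
  (okx_cons TE_rg188
  (okx_cons TU_rg54
  (okx_cons TB_rg292
  (okx_cons TD_rg126
  (okx_cons TU_rg31
  (okx_cons TD_rg18
  (okx_cons TU_rg55
  (okx_cons TC_rg0
  (okx_cons TI_rg106
  (okx_cons TH_rg191
  (okx_cons TA_rg2
  (okx_cons TH_rg51
  (okx_cons TH_rg87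
  (okx_cons TQ_rg3
  (okx_cons TM_rg15
  (okx_cons TP_rg49
  (okx_cons TQ_rg11
  (okx_cons TB_rg408
  (okx_cons TA_rg5
  (okx_cons TP_rg64
  (okx_cons TH_rg117
  (okx_cons TB_rg66
  (okx_cons TE_rg38
  (okx_cons TE_rg200
  (okx_cons TE_rg123
  (okx_cons TB_rg484
  (okx_cons TE_rg187
  (okx_cons TU_rg3
  (okx_cons TQ_rg1
  (okx_cons TD_rg71
  (okx_cons TB_rg167
  (okx_cons TD_rg199
  (okx_cons TD_rg131
  (okx_cons TB_rg173
  (okx_cons TB_rg275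
  (okx_cons TD_rg312
  (okx_cons TK_rg2
  (okx_cons TD_rg156
  (okx_cons TA_rg23
  (okx_cons TH_rg92
  (okx_cons TM_rg30
  (okx_cons TH_rg24
  (okx_cons TH_rg121
  (okx_cons TQ_rg12
  (okx_cons TQ_rg19
  (okx_cons TU_rg32
  (okx_cons TF_rg60
  (okx_cons TF_rg67
  (okx_cons TF_rg64
  (okx_cons TE_rg109
  (okx_cons TF_rg11
  (okx_cons TP_rg34
  (okx_cons TE_rg194
  (okx_cons TB_rg445
  (okx_cons TB_rg447
  (okx_cons TB_rg138
  (okx_cons TI_rg8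
  (okx_cons TQ_rg28
  (okx_cons TD_rg58
  (okx_cons TB_rg369
  (okx_cons TD_rg206
  (okx_cons TI_rg124
  (okx_cons TB_rg304
  (okx_cons TM_rg47
  (okx_cons TM_rg16
  (okx_cons TB_rg151
  (okx_cons TU_rg73
  (okx_cons TB_rg63
  (okx_cons TD_rg212
  (okx_cons TF_rg131
  (okx_cons TB_rg305
  (okx_cons TQ_rg0
  (okx_cons TF_rg13
  (okx_cons TE_rg24
  (okx_cons TE_rg34
  (okx_cons TF_rg117
  (okx_cons TE_rg137
  (okx_cons TF_rg141
  (okx_cons TB_rg444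
  (okx_cons TB_rg135
  (okx_cons TE_rg151
  (okx_cons TD_rg144
  (okx_cons TP_rg125
  (okx_cons TF_rg138
  (okx_cons TH_rg70
  (okx_cons TH_rg151
  (okx_cons TF_rg76
  (okx_cons TD_rg70
  (okx_cons TP_rg127
  (okx_cons TD_rg225
  (okx_cons TD_rg137
  (okx_cons TD_rg104
  (okx_cons TB_rg17
  (okx_cons TB_rg259
  (okx_cons TI_rg36
  (okx_cons TI_rg20
  (okx_cons TA_rg27
  (okx_cons TB_rg267
  (okx_cons TB_rg308
  (okx_cons TH_rg49
  (okx_cons TB_rg274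
  (okx_cons TQ_rg31
  (okx_cons TU_rg67
  (okx_cons TU_rg19
  (okx_cons TM_rg43
  (okx_cons TQ_rg70
  (okx_cons TP_rg4
  (okx_cons TP_rg31
  (okx_cons TA_rg1
  (okx_cons TH_rg128
  (okx_cons TF_rg44
  (okx_cons TU_rg63
  (okx_cons TH_rg134
  (okx_cons TB_rg133
  (okx_cons TE_rg142
  (okx_cons TE_rg121
  (okx_cons TE_rg99
  (okx_cons TB_rg77
  (okx_cons TE_rg175
  (okx_cons TF_rg149
  (okx_cons TB_rg425
  (okx_cons TI_rg69
  (okx_cons TB_rg256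
  (okx_cons TF_rg59
  (okx_cons TH_rg139
  (okx_cons TF_rg71
  (okx_cons TQ_rg13
  (okx_cons TB_rg76
  (okx_cons TQ_rg71
  (okx_cons TF_rg92
  (okx_cons TD_rg127
  (okx_cons TB_rg365
  (okx_cons TD_rg256
  (okx_cons TH_rg131
  (okx_cons TH_rg53
  (okx_cons TU_rg46
  (okx_cons TQ_rg22
  (okx_cons TM_rg14
  (okx_cons TB_rg112
  (okx_cons TQ_rg7
  (okx_cons TH_rg133
  (okx_cons TU_rg22
  (okx_cons TU_rg24
  (okx_cons TH_rg19
  (okx_cons TH_rg148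
  (okx_cons TQ_rg39
  (okx_cons TF_rg107
  (okx_cons TE_rg140
  (okx_cons TB_rg129
  (okx_cons TF_rg15
  (okx_cons TF_rg97
  (okx_cons TE_rg181
  (okx_cons TB_rg41
  (okx_cons TB_rg458
  (okx_cons TB_rg385
  (okx_cons TD_rg165
  (okx_cons TB_rg69
  (okx_cons TB_rg99
  (okx_cons TD_rg200
  (okx_cons TD_rg48
  (okx_cons TP_rg138
  (okx_cons TD_rg74
  (okx_cons TD_rg35
  (okx_cons TD_rg60
  (okx_cons TB_rg354
  (okx_cons TF_rg2
  (okx_cons TP_rg96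
  (okx_cons TH_rg68
  (okx_cons TH_rg37
  (okx_cons TI_rg89
  (okx_cons TD_rg284
  (okx_cons TB_rg355
  (okx_cons TA_rg50
  (okx_cons TB_rg234
  (okx_cons TB_rg81
  (okx_cons TP_rg63
  (okx_cons TB_rg86
  (okx_cons TQ_rg37
  (okx_cons TM_rg38
  (okx_cons TM_rg17
  (okx_cons TA_rg18
  (okx_cons TD_rg175
  (okx_cons TH_rg16
  (okx_cons TB_rg57
  (okx_cons TF_rg41
  (okx_cons TP_rg94
  (okx_cons TU_rg60
  (okx_cons TP_rg9
  (okx_cons TB_rg264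
  (okx_cons TE_rg183
  (okx_cons TE_rg29
  (okx_cons TF_rg12
  (okx_cons TE_rg185
  (okx_cons TE_rg59
  (okx_cons TD_rg230
  (okx_cons TE_rg155
  (okx_cons TD_rg115
  (okx_cons TD_rg138
  (okx_cons TB_rg481
  (okx_cons TB_rg456
  (okx_cons TB_rg462
  (okx_cons TI_rg93
  (okx_cons TD_rg307
  (okx_cons TE_rg117
  (okx_cons TI_rg12
  (okx_cons TF_rg74
  (okx_cons TD_rg17
  (okx_cons TP_rg84
  (okx_cons TD_rg53
  (okx_cons TH_rg88
  (okx_cons TD_rg63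
  (okx_cons TU_rg38
  (okx_cons TB_rg74
  (okx_cons TD_rg49
  (okx_cons TD_rg303
  (okx_cons TD_rg118
  (okx_cons TC_rg9
  (okx_cons TH_rg147
  (okx_cons TC_rg3
  (okx_cons TI_rg38
  (okx_cons TA_rg20
  (okx_cons TH_rg184
  (okx_cons TH_rg119
  (okx_cons TA_rg3
  (okx_cons TH_rg71
  (okx_cons TM_rg27
  (okx_cons TU_rg23
  (okx_cons TP_rg24
  (okx_cons TM_rg33
  (okx_cons TU_rg65
  (okx_cons TQ_rg41
  (okx_cons TU_rg35
  (okx_cons TP_rg7
  (okx_cons TH_rg26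
  (okx_cons TU_rg62
  (okx_cons TB_rg208
  (okx_cons TH_rg48
  (okx_cons TA_rg39
  (okx_cons TQ_rg9
  (okx_cons TB_rg64
  (okx_cons TF_rg137
  (okx_cons TF_rg88
  (okx_cons TE_rg27
  (okx_cons TB_rg113
  (okx_cons TE_rg133
  (okx_cons TF_rg130
  (okx_cons TB_rg207
  (okx_cons TE_rg21
  (okx_cons TE_rg80
  (okx_cons TD_rg315
  (okx_cons TD_rg305
  (okx_cons TB_rg396
  (okx_cons TF_rg113
  (okx_cons TB_rg144
  (okx_cons TB_rg392
  (okx_cons TB_rg341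
  (okx_cons TB_rg475
  (okx_cons TB_rg466
  (okx_cons TE_rg166
  (okx_cons TI_rg28
  (okx_cons TD_rg78
  (okx_cons TD_rg123
  (okx_cons TI_rg0
  (okx_cons TD_rg67
  (okx_cons TQ_rg72
  (okx_cons TD_rg251
  (okx_cons TH_rg112
  (okx_cons TD_rg157
  (okx_cons TP_rg74
  (okx_cons TP_rg76
  (okx_cons TB_rg31
  (okx_cons TI_rg123
  (okx_cons TI_rg18
  (okx_cons TM_rg26
  (okx_cons TI_rg13
  (okx_cons TA_rg26
  (okx_cons TA_rg37
  (okx_cons TB_rg117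
  (okx_cons TB_rg423
  (okx_cons TB_rg358
  (okx_cons TB_rg91
  (okx_cons TH_rg156
  (okx_cons TM_rg10
  (okx_cons TH_rg41
  (okx_cons TU_rg15
  (okx_cons TH_rg125
  (okx_cons TH_rg185
  (okx_cons TU_rg13
  (okx_cons TD_rg333
  (okx_cons TH_rg190
  (okx_cons TF_rg53
  (okx_cons TU_rg10
  (okx_cons TB_rg183
  (okx_cons TE_rg77
  (okx_cons TF_rg40
  (okx_cons TF_rg104
  (okx_cons TE_rg10
  (okx_cons TE_rg195
  (okx_cons TE_rg112
  (okx_cons TE_rg164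
  (okx_cons TF_rg47
  (okx_cons TF_rg157
  (okx_cons TE_rg85
  (okx_cons TE_rg171
  (okx_cons TF_rg70
  (okx_cons TB_rg338
  (okx_cons TE_rg169
  (okx_cons TE_rg150
  (okx_cons TF_rg148
  (okx_cons TB_rg446
  (okx_cons TB_rg451
  (okx_cons TB_rg470
  (okx_cons TB_rg472
  (okx_cons TE_rg136
  (okx_cons TD_rg113
  (okx_cons TD_rg106
  (okx_cons TB_rg163
  (okx_cons TB_rg351
  (okx_cons TB_rg433
  (okx_cons TQ_rg6
  (okx_cons TD_rg294
  (okx_cons TP_rg108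
  (okx_cons TP_rg68
  (okx_cons TD_rg27
  (okx_cons TP_rg71
  (okx_cons TD_rg177
  (okx_cons TB_rg170
  (okx_cons TB_rg252
  (okx_cons TI_rg61
  (okx_cons TM_rg6
  (okx_cons TM_rg48
  (okx_cons TM_rg39
  (okx_cons TC_rg7
  (okx_cons TD_rg162
  (okx_cons TI_rg44
  (okx_cons TI_rg86
  (okx_cons TH_rg227
  (okx_cons TH_rg67
  (okx_cons TI_rg5
  (okx_cons TM_rg35
  (okx_cons TU_rg39
  (okx_cons TH_rg23
  (okx_cons TA_rg36
  (okx_cons TM_rg4
  (okx_cons TH_rg106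
  (okx_cons TH_rg12
  (okx_cons TB_rg251
  (okx_cons TM_rg51
  (okx_cons TB_rg228
  (okx_cons TH_rg208
  (okx_cons TP_rg88
  (okx_cons TH_rg30
  (okx_cons TH_rg52
  (okx_cons TB_rg239
  (okx_cons TH_rg50
  (okx_cons TU_rg77
  (okx_cons TP_rg65
  (okx_cons TH_rg58
  (okx_cons TH_rg85
  (okx_cons TP_rg60
  (okx_cons TP_rg75
  (okx_cons TB_rg149
  (okx_cons TH_rg45
  (okx_cons TB_rg262
  (okx_cons TU_rg70
  (okx_cons TP_rg99
  (okx_cons TB_rg342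
  (okx_cons TQ_rg50
  (okx_cons TU_rg58
  (okx_cons TB_rg62
  (okx_cons TQ_rg24
  (okx_cons TU_rg20
  (okx_cons TU_rg8
  (okx_cons TP_rg133
  (okx_cons TE_rg147
  (okx_cons TE_rg134
  (okx_cons TE_rg184
  (okx_cons TF_rg96
  (okx_cons TF_rg61
  (okx_cons TF_rg19
  (okx_cons TF_rg116
  (okx_cons TE_rg167
  (okx_cons TE_rg35
  (okx_cons TF_rg78
  (okx_cons TE_rg160
  (okx_cons TE_rg196
  (okx_cons TB_rg404
  (okx_cons TE_rg182
  (okx_cons TB_rg437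
  (okx_cons TB_rg467
  (okx_cons TF_rg144
  (okx_cons TB_rg398
  (okx_cons TB_rg449
  (okx_cons TB_rg417
  (okx_cons TB_rg422
  (okx_cons TB_rg410
  (okx_cons TP_rg85
  (okx_cons TD_rg105
  (okx_cons TP_rg51
  (okx_cons TI_rg3
  (okx_cons TI_rg21
  (okx_cons TI_rg59
  (okx_cons TD_rg140
  (okx_cons TF_rg83
  (okx_cons TE_rg51
  (okx_cons TB_rg434
  (okx_cons TB_rg89
  (okx_cons TD_rg25
  (okx_cons TD_rg161
  (okx_cons TB_rg238
  (okx_cons TC_rg4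
  (okx_cons TB_rg249
  (okx_cons TI_rg145
  (okx_cons TI_rg108
  (okx_cons TD_rg308
  (okx_cons TB_rg333
  (okx_cons TH_rg202
  (okx_cons TH_rg54
  (okx_cons TH_rg33
  (okx_cons TB_rg78
  (okx_cons TD_rg134
  (okx_cons TA_rg51
  (okx_cons TA_rg4
  (okx_cons TH_rg105
  (okx_cons TP_rg90
  (okx_cons TH_rg104
  (okx_cons TM_rg23
  (okx_cons TM_rg34
  (okx_cons TP_rg134
  (okx_cons TD_rg172
  (okx_cons TB_rg147
  (okx_cons TB_rg148
  (okx_cons TM_rg8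
  (okx_cons TH_rg145
  (okx_cons TH_rg18
  (okx_cons TB_rg297
  (okx_cons TP_rg97
  (okx_cons TU_rg47
  (okx_cons TB_rg150
  (okx_cons TM_rg13
  (okx_cons TB_rg233
  (okx_cons TH_rg199
  (okx_cons TD_rg243
  (okx_cons TH_rg174
  (okx_cons TB_rg122
  (okx_cons TH_rg76
  (okx_cons TU_rg41
  (okx_cons TD_rg119
  (okx_cons TD_rg313
  (okx_cons TB_rg237
  (okx_cons TP_rg82
  (okx_cons TA_rg38
  (okx_cons TP_rg54
  (okx_cons TH_rg138
  (okx_cons TV_rg3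
  (okx_cons TQ_rg68
  (okx_cons TQ_rg54
  (okx_cons TB_rg84
  (okx_cons TU_rg61
  (okx_cons TU_rg69
  (okx_cons TU_rg40
  (okx_cons TQ_rg65
  (okx_cons TH_rg2
  (okx_cons TH_rg189
  (okx_cons TH_rg149
  (okx_cons TH_rg59
  (okx_cons TH_rg93
  (okx_cons TB_rg240
  (okx_cons TH_rg7
  (okx_cons TV_rg5
  (okx_cons TF_rg98
  (okx_cons TE_rg17
  (okx_cons TF_rg103
  (okx_cons TF_rg42
  (okx_cons TE_rg179
  (okx_cons TF_rg136
  (okx_cons TP_rg45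
  (okx_cons TD_rg6
  (okx_cons TB_rg30
  (okx_cons TD_rg163
  (okx_cons TB_rg401
  (okx_cons TF_rg106
  (okx_cons TB_rg457
  (okx_cons TB_rg465
  (okx_cons TB_rg430
  (okx_cons TB_rg419
  (okx_cons TE_rg102
  (okx_cons TE_rg125
  (okx_cons TD_rg133
  (okx_cons TD_rg226
  (okx_cons TD_rg114
  (okx_cons TI_rg7
  (okx_cons TE_rg110
  (okx_cons TI_rg9
  (okx_cons TB_rg266
  (okx_cons TD_rg317
  (okx_cons TD_rg139
  (okx_cons TD_rg98
  (okx_cons TB_rg278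
  (okx_cons TP_rg52
  (okx_cons TP_rg92
  (okx_cons TE_rg127
  (okx_cons TP_rg15
  (okx_cons TU_rg12
  (okx_cons TH_rg180
  (okx_cons TB_rg283
  (okx_cons TF_rg156
  (okx_cons TF_rg66
  (okx_cons TB_rg245
  (okx_cons TB_rg455
  (okx_cons TB_rg464
  (okx_cons TB_rg438
  (okx_cons TB_rg115
  (okx_cons TB_rg67
  (okx_cons TB_rg136
  (okx_cons TD_rg174
  (okx_cons TB_rg186
  (okx_cons TQ_rg44
  (okx_cons TP_rg106
  (okx_cons TD_rg330
  (okx_cons TD_rg325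
  (okx_cons TP_rg140
  (okx_cons TD_rg76
  (okx_cons TD_rg69
  (okx_cons TD_rg320
  (okx_cons TH_rg25
  (okx_cons TP_rg93
  (okx_cons TI_rg24
  (okx_cons TH_rg124
  (okx_cons TH_rg78
  (okx_cons TI_rg103
  (okx_cons TD_rg149
  (okx_cons TD_rg271
  (okx_cons TD_rg296
  (okx_cons TI_rg34
  (okx_cons TI_rg25
  (okx_cons TH_rg192
  (okx_cons TA_rg55
  (okx_cons TB_rg378
  (okx_cons TH_rg153
  (okx_cons TA_rg52
  (okx_cons TH_rg186
  (okx_cons TI_rg26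
  (okx_cons TC_rg11
  (okx_cons TA_rg17
  (okx_cons TD_rg348
  (okx_cons TH_rg187
  (okx_cons TB_rg344
  (okx_cons TQ_rg55
  (okx_cons TI_rg113
  (okx_cons TP_rg73
  (okx_cons TM_rg44
  (okx_cons TH_rg132
  (okx_cons TH_rg100
  (okx_cons TB_rg146
  (okx_cons TH_rg29
  (okx_cons TH_rg114
  (okx_cons TM_rg50
  (okx_cons TH_rg162
  (okx_cons TA_rg47
  (okx_cons TP_rg66
  (okx_cons TH_rg197
  (okx_cons TP_rg139
  (okx_cons TM_rg37
  (okx_cons TH_rg137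
  (okx_cons TA_rg42
  (okx_cons TH_rg179
  (okx_cons TH_rg175
  (okx_cons TU_rg11
  (okx_cons TB_rg280
  (okx_cons TH_rg116
  (okx_cons TH_rg64
  (okx_cons TH_rg94
  (okx_cons TH_rg228
  (okx_cons TM_rg40
  (okx_cons TB_rg307
  (okx_cons TA_rg15
  (okx_cons TH_rg143
  (okx_cons TA_rg35
  (okx_cons TP_rg81
  (okx_cons TD_rg75
  (okx_cons TH_rg130
  (okx_cons TH_rg160
  (okx_cons TD_rg128
  (okx_cons TD_rg87
  (okx_cons TU_rg51
  (okx_cons TD_rg21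
  (okx_cons TD_rg224
  (okx_cons TH_rg172
  (okx_cons TB_rg362
  (okx_cons TU_rg49
  (okx_cons TU_rg29
  (okx_cons TH_rg46
  (okx_cons TB_rg127
  (okx_cons TB_rg145
  (okx_cons TF_rg126
  (okx_cons TH_rg103
  (okx_cons TH_rg72
  (okx_cons TV_rg1
  (okx_cons TH_rg113
  (okx_cons TB_rg125
  (okx_cons TQ_rg47
  (okx_cons TB_rg352
  (okx_cons TH_rg154
  (okx_cons TH_rg188
  (okx_cons TQ_rg66
  (okx_cons TQ_rg58
  (okx_cons TU_rg68
  (okx_cons TH_rg4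
  (okx_cons TH_rg118
  (okx_cons TH_rg205
  (okx_cons TH_rg35
  (okx_cons TH_rg165
  (okx_cons TU_rg56
  (okx_cons TA_rg6
  (okx_cons TH_rg61
  (okx_cons TB_rg189
  (okx_cons TQ_rg5
  (okx_cons TH_rg164
  (okx_cons TU_rg66
  (okx_cons TH_rg141
  (okx_cons TB_rg198
  (okx_cons TB_rg119
  (okx_cons TH_rg79
  (okx_cons TF_rg8
  (okx_cons TB_rg294
  (okx_cons TD_rg289
  (okx_cons TD_rg83
  (okx_cons TE_rg94
  (okx_cons TF_rg128
  (okx_cons TB_rg413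
  (okx_cons TB_rg428
  (okx_cons TB_rg395
  (okx_cons TE_rg130
  (okx_cons TE_rg163
  (okx_cons TB_rg421
  (okx_cons TB_rg415
  (okx_cons TB_rg418
  (okx_cons TB_rg468
  (okx_cons TB_rg476
  (okx_cons TB_rg478
  (okx_cons TP_rg56
  (okx_cons TD_rg148
  (okx_cons TP_rg50
  (okx_cons TP_rg3
  (okx_cons TI_rg196
  (okx_cons TD_rg170
  (okx_cons TI_rg116
  (okx_cons TI_rg105
  (okx_cons TI_rg2
  (okx_cons TI_rg137
  (okx_cons TF_rg102
  (okx_cons TD_rg237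
  (okx_cons TI_rg68
  (okx_cons TD_rg8
  (okx_cons TP_rg137
  (okx_cons TI_rg170
  (okx_cons TI_rg191
  (okx_cons TI_rg77
  (okx_cons TH_rg159
  (okx_cons TH_rg173
  (okx_cons TI_rg50
  (okx_cons TC_rg10
  (okx_cons TA_rg44
  (okx_cons TP_rg5
  (okx_cons TB_rg255
  (okx_cons TB_rg27
  (okx_cons TF_rg86
  (okx_cons TF_rg45
  (okx_cons TU_rg6
  (okx_cons TB_rg28
  (okx_cons TB_rg130
  (okx_cons TB_rg3
  (okx_cons TB_rg371
  (okx_cons TB_rg188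
  (okx_cons TE_rg162
  (okx_cons TB_rg431
  (okx_cons TB_rg450
  (okx_cons TB_rg411
  (okx_cons TB_rg485
  (okx_cons TB_rg435
  (okx_cons TE_rg174
  (okx_cons TE_rg190
  (okx_cons TB_rg463
  (okx_cons TB_rg459
  (okx_cons TB_rg373
  (okx_cons TB_rg118
  (okx_cons TB_rg469
  (okx_cons TD_rg270
  (okx_cons TI_rg97
  (okx_cons TD_rg280
  (okx_cons TD_rg143
  (okx_cons TI_rg165
  (okx_cons TF_rg34 okx_nil)))))))))))))))))))))))))))))))))))))))))))))))))))))))))))))))))))))))))))))))))))))))))))))))))))))))))))))))))))))))))))))))))))))))))))))))))))))))))))))))))))))))))))))))))))))))))))))))))))))))))))))))))))))))))))))))))))))))))))))))))))))))))))))))))))))))))))))))))))))))))))))))))))))))))))))))))))))))))))))))))))))))))))))))))))))))))))))))))))))))))))))))))))))))))))))))))))))))))))))))))))))))))))))))))))))))))))))))))))))))))))))))))))))))))))))))))))))))))))))))))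)))))))))))))))))))))))))))))))))))))))))))))))))))))))))))))))))))))))))))))))))))))))))))))))))))))))))))))))))))))))))))))))))))))))))))))))))))))))))))))))))))))))))))))))))))))))))))))))))))))))))))))))))))))))))))))))))))))))))))))))))))))))))))))))))))))))))))))))))))))))))))))))))))))))))))))))))))))))))))))))))))))))))))))))))))))))))))))))))))))))))))))))))))))))))))))))))))))))))))))))))))))))))))))))))))))))))))))))))))))))))))))))))))))))))))))))))))))))))))))))))))))))))))))))))))))))))))))))))))))))))))))))))))))))))))))))))))))))))))))))))))))))))))))))))))))))))))))))))))))))))))))))))))))))))))))))))))))))))))))))))))))))))))))))))))))))))))))))))))))))))))))))))))))))))))))))))))))))))))))))))))))))))))))))))))))))))))))))))))))))))))))))))))))))))))))))))))))))))))))))))))))))))))))))))))))))))))))))))))))))))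

end Pool.Agent.TET.Cvr
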