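import Pool.Agent.Helper37_TET.QgN

/-!
# MP_c7c9bf_co: cover of the charts, the table of regions
-/

set_option autoImplicit false
set_option maxRecDepth 100000

namespace Pool.Agent.TET.Cvr

noncomputable def ENTab : List (List Cd) := [
[.q ⟨.ofNat 13, .ofNat 12, .negSucc 24, .ofNat 0⟩ ⟨.negSucc 36, .ofNat 12,
  .ofNat 25, .ofNat 0⟩, .q ⟨.negSucc 32, .ofNat 133, .ofNat 0, .negSucc 99⟩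
  ⟨.negSucc 32, .negSucc 66, .ofNat 0, .ofNat 100⟩, .q ⟨.ofNat 81, .ofNat
  19, .negSucc 99, .ofNat 0⟩ ⟨.negSucc 0, .ofNat 1, .ofNat 0, .ofNat 0⟩, .q
  ⟨.negSucc 18, .negSucc 80, .ofNat 0, .ofNat 100⟩ ⟨.negSucc 0, .ofNat 1,
  .ofNat 0, .ofNat 0⟩, .q ⟨.ofNat 73, .negSucc 72, .negSucc 99, .ofNat 100⟩
  ⟨.negSucc 0, .ofNat 1, .ofNat 0, .ofNat 0⟩, .q ⟨.negSucc 6, .ofNat 7,
  .ofNat 8, .negSucc 7⟩ ⟨.negSucc 0, .ofNat 1, .ofNat 0, .ofNat 0⟩],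
[.q ⟨.negSucc 0, .ofNat 0, .ofNat 0, .ofNat 1⟩ ⟨.ofNat 512, .negSucc 706,
  .negSucc 706, .ofNat 902⟩, .q ⟨.negSucc 0, .ofNat 0, .ofNat 0, .ofNat 1⟩
  ⟨.negSucc 3035, .ofNat 3804, .negSucc 1234, .ofNat 467⟩, .q ⟨.negSucc 0,
  .ofNat 0, .ofNat 0, .ofNat 1⟩ ⟨.negSucc 19, .negSucc 378, .ofNat 1964,
  .negSucc 1564⟩],
[.q ⟨.negSucc 0, .ofNat 0, .ofNat 0, .ofNat 1⟩ ⟨.ofNat 3407, .negSucc 3823,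
  .ofNat 1174, .negSucc 756⟩, .q ⟨.negSucc 0, .ofNat 0, .ofNat 0, .ofNat 1⟩
  ⟨.ofNat 141, .negSucc 166, .negSucc 985, .ofNat 1012⟩, .q ⟨.negSucc 0,
  .ofNat 0, .ofNat 0, .ofNat 1⟩ ⟨.negSucc 4008, .ofNat 3939, .negSucc 697,
  .ofNat 768⟩, .q ⟨.negSucc 0, .ofNat 0, .ofNat 0, .ofNat 1⟩ ⟨.ofNat 171,
  .negSucc 366, .ofNat 1966, .negSucc 1769⟩],
[.q ⟨.negSucc 2, .negSucc 36, .ofNat 40, .ofNat 0⟩ ⟨.negSucc 76, .ofNat 37,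
  .ofNat 40, .ofNat 0⟩, .q ⟨.ofNat 0, .ofNat 40, .negSucc 39, .ofNat 0⟩
  ⟨.negSucc 79, .ofNat 40, .ofNat 40, .ofNat 0⟩, .q ⟨.ofNat 77, .negSucc 36,
  .negSucc 39, .ofNat 0⟩ ⟨.ofNat 3321, .ofNat 1315, .negSucc 696, .negSucc
  3938⟩, .q ⟨.ofNat 80, .negSucc 39, .negSucc 39, .ofNat 0⟩ ⟨.ofNat 3321,
  .ofNat 1315, .negSucc 696, .negSucc 3938⟩, .q ⟨.ofNat 77, .negSucc 36,
  .negSucc 39, .ofNat 0⟩ ⟨.ofNat 685, .negSucc 5320, .ofNat 697, .ofNat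
  3939⟩, .q ⟨.ofNat 80, .negSucc 39, .negSucc 39, .ofNat 0⟩ ⟨.ofNat 685,
  .negSucc 5320, .ofNat 697, .ofNat 3939⟩],
[.q ⟨.negSucc 6, .negSucc 32, .ofNat 40, .ofNat 0⟩ ⟨.negSucc 72, .ofNat 33,
  .ofNat 40, .ofNat 0⟩, .q ⟨.ofNat 4, .ofNat 36, .negSucc 39, .ofNat 0⟩
  ⟨.negSucc 75, .ofNat 36, .ofNat 40, .ofNat 0⟩, .q ⟨.ofNat 73, .negSucc 32,
  .negSucc 39, .ofNat 0⟩ ⟨.ofNat 4066, .ofNat 475, .negSucc 583, .negSucc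
  3956⟩, .q ⟨.ofNat 76, .negSucc 35, .negSucc 39, .ofNat 0⟩ ⟨.ofNat 4066,
  .ofNat 475, .negSucc 583, .negSucc 3956⟩, .q ⟨.ofNat 73, .negSucc 32,
  .negSucc 39, .ofNat 0⟩ ⟨.negSucc 1745, .ofNat 563, .negSucc 692, .ofNat
  1876⟩, .q ⟨.ofNat 76, .negSucc 35, .negSucc 39, .ofNat 0⟩ ⟨.negSucc 1745,
  .ofNat 563, .negSucc 692, .ofNat 1876⟩],
[.q ⟨.negSucc 5, .negSucc 33, .ofNat 40, .ofNat 0⟩ ⟨.negSucc 73, .ofNat 34,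
  .ofNat 40, .ofNat 0⟩, .q ⟨.ofNat 3, .ofNat 37, .negSucc 39, .ofNat 0⟩
  ⟨.negSucc 76, .ofNat 37, .ofNat 40, .ofNat 0⟩, .q ⟨.ofNat 74, .negSucc 33,
  .negSucc 39, .ofNat 0⟩ ⟨.ofNat 4062, .ofNat 419, .negSucc 513, .negSucc
  3966⟩, .q ⟨.ofNat 77, .negSucc 36, .negSucc 39, .ofNat 0⟩ ⟨.ofNat 4062,
  .ofNat 419, .negSucc 513, .negSucc 3966⟩, .q ⟨.ofNat 74, .negSucc 33,
  .negSucc 39, .ofNat 0⟩ ⟨.negSucc 2986, .ofNat 1793, .negSucc 2167, .ofNat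
  3362⟩, .q ⟨.ofNat 77, .negSucc 36, .negSucc 39, .ofNat 0⟩ ⟨.negSucc 2986,
  .ofNat 1793, .negSucc 2167, .ofNat 3362⟩],
[.q ⟨.negSucc 0, .ofNat 0, .ofNat 0, .ofNat 1⟩ ⟨.ofNat 2479, .negSucc 2658,
  .negSucc 2987, .ofNat 3168⟩, .q ⟨.negSucc 0, .ofNat 0, .ofNat 0, .ofNat 1⟩
  ⟨.ofNat 319, .ofNat 0, .negSucc 3999, .ofNat 3681⟩, .q ⟨.negSucc 0, .ofNat
  0, .ofNat 0, .ofNat 1⟩ ⟨.negSucc 1179, .ofNat 1319, .negSucc 195, .ofNat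
  57⟩, .q ⟨.negSucc 0, .ofNat 0, .ofNat 0, .ofNat 1⟩ ⟨.negSucc 1677, .ofNat
  1247, .ofNat 3801, .negSucc 3369⟩],
[.q ⟨.negSucc 0, .ofNat 0, .ofNat 0, .ofNat 1⟩ ⟨.ofNat 2141, .negSucc 2827,
  .negSucc 2827, .ofNat 3515⟩, .q ⟨.negSucc 0, .ofNat 0, .ofNat 0, .ofNat 1⟩
  ⟨.negSucc 3120, .ofNat 3881, .negSucc 968, .ofNat 209⟩, .q ⟨.negSucc 0,
  .ofNat 0, .ofNat 0, .ofNat 1⟩ ⟨.ofNat 1341, .negSucc 2827, .ofNat 2828,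
  .negSucc 1340⟩],
[.q ⟨.negSucc 0, .ofNat 0, .ofNat 0, .ofNat 1⟩ ⟨.ofNat 965, .negSucc 720,
  .negSucc 3934, .ofNat 3691⟩, .q ⟨.negSucc 0, .ofNat 0, .ofNat 0, .ofNat 1⟩
  ⟨.negSucc 3618, .ofNat 4000, .ofNat 0, .negSucc 380⟩, .q ⟨.negSucc 0,
  .ofNat 0, .ofNat 0, .ofNat 1⟩ ⟨.ofNat 1373, .negSucc 2851, .ofNat 2805,
  .negSucc 1325⟩],
[.q ⟨.negSucc 9, .negSucc 9, .ofNat 20, .ofNat 0⟩ ⟨.negSucc 29, .ofNat 10,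
  .ofNat 20, .ofNat 0⟩, .q ⟨.ofNat 7, .ofNat 13, .negSucc 19, .ofNat 0⟩
  ⟨.negSucc 32, .ofNat 13, .ofNat 20, .ofNat 0⟩, .q ⟨.ofNat 30, .negSucc 9,
  .negSucc 19, .ofNat 0⟩ ⟨.ofNat 952, .negSucc 725, .ofNat 2713, .negSucc
  2938⟩, .q ⟨.ofNat 33, .negSucc 12, .negSucc 19, .ofNat 0⟩ ⟨.ofNat 952,
  .negSucc 725, .ofNat 2713, .negSucc 2938⟩, .q ⟨.ofNat 30, .negSucc 9,
  .negSucc 19, .ofNat 0⟩ ⟨.negSucc 313, .ofNat 88, .negSucc 2712, .ofNat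
  2939⟩, .q ⟨.ofNat 33, .negSucc 12, .negSucc 19, .ofNat 0⟩ ⟨.negSucc 313,
  .ofNat 88, .negSucc 2712, .ofNat 2939⟩],
[.q ⟨.ofNat 0, .negSucc 2, .negSucc 1, .ofNat 5⟩ ⟨.negSucc 5655, .ofNat 641,
  .ofNat 1435, .ofNat 3580⟩, .q ⟨.ofNat 0, .negSucc 2, .negSucc 1, .ofNat 5⟩
  ⟨.negSucc 1717, .negSucc 2744, .ofNat 2948, .ofNat 1515⟩, .q ⟨.ofNat 0,
  .negSucc 2, .negSucc 1, .ofNat 5⟩ ⟨.ofNat 4935, .negSucc 4257, .negSucc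
  1356, .ofNat 680⟩, .q ⟨.ofNat 0, .negSucc 2, .negSucc 1, .ofNat 5⟩
  ⟨.negSucc 987, .ofNat 2787, .negSucc 2618, .ofNat 820⟩],
[.l ⟨.ofNat 0, .negSucc 3896, .negSucc 901, .negSucc 533⟩ ⟨.ofNat 0, .ofNat
  0, .ofNat 0, .ofNat 1⟩, .l ⟨.ofNat 0, .ofNat 485, .negSucc 3969, .ofNat
  222⟩ ⟨.ofNat 0, .ofNat 0, .ofNat 0, .ofNat 1⟩, .l ⟨.ofNat 0, .ofNat 3617,
  .negSucc 1707, .ofNat 2928⟩ ⟨.ofNat 0, .ofNat 0, .ofNat 0, .ofNat 1⟩, .l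
  ⟨.ofNat 0, .ofNat 2693, .ofNat 2957, .ofNat 2690⟩ ⟨.ofNat 0, .ofNat 0,
  .ofNat 0, .ofNat 1⟩, .l ⟨.ofNat 0, .negSucc 3176, .ofNat 2431, .ofNat
  2289⟩ ⟨.ofNat 0, .ofNat 0, .ofNat 0, .ofNat 1⟩],
[.q ⟨.negSucc 0, .ofNat 0, .ofNat 0, .ofNat 1⟩ ⟨.ofNat 1060, .negSucc 2133,
  .ofNat 3383, .negSucc 2308⟩, .q ⟨.negSucc 0, .ofNat 0, .ofNat 0, .ofNat 1⟩
  ⟨.ofNat 51, .negSucc 108, .negSucc 314, .ofNat 373⟩, .q ⟨.negSucc 0,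
  .ofNat 0, .ofNat 0, .ofNat 1⟩ ⟨.negSucc 2249, .ofNat 3007, .negSucc 2636,
  .ofNat 1880⟩],
[.q ⟨.negSucc 0, .ofNat 0, .ofNat 0, .ofNat 1⟩ ⟨.ofNat 611, .negSucc 955,
  .ofNat 3884, .negSucc 3538⟩, .q ⟨.negSucc 0, .ofNat 0, .ofNat 0, .ofNat 1⟩
  ⟨.ofNat 883, .negSucc 982, .ofNat 183, .negSucc 82⟩, .q ⟨.negSucc 0,
  .ofNat 0, .ofNat 0, .ofNat 1⟩ ⟨.negSucc 12, .ofNat 14, .negSucc 13, .ofNat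
  13⟩],
[.q ⟨.negSucc 0, .ofNat 0, .ofNat 0, .ofNat 1⟩ ⟨.negSucc 1380, .ofNat 1414,
  .negSucc 1413, .ofNat 1381⟩, .q ⟨.negSucc 0, .ofNat 0, .ofNat 0, .ofNat 1⟩
  ⟨.negSucc 1797, .ofNat 1594, .ofNat 3669, .negSucc 3464⟩, .q ⟨.negSucc 0,
  .ofNat 0, .ofNat 0, .ofNat 1⟩ ⟨.ofNat 3301, .negSucc 3704, .ofNat 1508,
  .negSucc 1103⟩, .q ⟨.negSucc 0, .ofNat 0, .ofNat 0, .ofNat 1⟩ ⟨.ofNat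
  2644, .negSucc 2991, .negSucc 2654, .ofNat 3003⟩],
[.q ⟨.ofNat 0, .negSucc 0, .negSucc 0, .ofNat 2⟩ ⟨.negSucc 4163, .ofNat
  2469, .negSucc 1360, .ofNat 3056⟩, .q ⟨.ofNat 0, .negSucc 0, .negSucc 0,
  .ofNat 2⟩ ⟨.negSucc 1413, .ofNat 247, .ofNat 247, .ofNat 920⟩, .q ⟨.ofNat
  0, .negSucc 0, .negSucc 0, .ofNat 2⟩ ⟨.negSucc 919, .negSucc 3015, .ofNat
  2566, .ofNat 1370⟩, .q ⟨.ofNat 0, .negSucc 0, .negSucc 0, .ofNat 2⟩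
  ⟨.ofNat 4000, .negSucc 3410, .ofNat 589, .negSucc 1177⟩, .q ⟨.ofNat 0,
  .negSucc 0, .negSucc 0, .ofNat 2⟩ ⟨.ofNat 1343, .ofNat 732, .negSucc 1756,
  .negSucc 317⟩],
[.q ⟨.negSucc 2, .negSucc 16, .ofNat 20, .ofNat 0⟩ ⟨.negSucc 36, .ofNat 17,
  .ofNat 20, .ofNat 0⟩, .q ⟨.ofNat 0, .ofNat 20, .negSucc 19, .ofNat 0⟩
  ⟨.negSucc 39, .ofNat 20, .ofNat 20, .ofNat 0⟩, .q ⟨.ofNat 37, .negSucc 16,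
  .negSucc 19, .ofNat 0⟩ ⟨.ofNat 3335, .ofNat 1159, .negSucc 528, .negSucc
  3964⟩, .q ⟨.ofNat 40, .negSucc 19, .negSucc 19, .ofNat 0⟩ ⟨.ofNat 3335,
  .ofNat 1159, .negSucc 528, .negSucc 3964⟩, .q ⟨.ofNat 37, .negSucc 16,
  .negSucc 19, .ofNat 0⟩ ⟨.ofNat 671, .negSucc 1874, .negSucc 2161, .ofNat
  3366⟩, .q ⟨.ofNat 40, .negSucc 19, .negSucc 19, .ofNat 0⟩ ⟨.ofNat 671,
  .negSucc 1874, .negSucc 2161, .ofNat 3366⟩, .q ⟨.ofNat 37, .negSucc 16,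
  .negSucc 19, .ofNat 0⟩ ⟨.ofNat 1960, .ofNat 3526, .negSucc 3432, .negSucc
  2052⟩, .q ⟨.ofNat 40, .negSucc 19, .negSucc 19, .ofNat 0⟩ ⟨.ofNat 1960,
  .ofNat 3526, .negSucc 3432, .negSucc 2052⟩],
[.q ⟨.negSucc 0, .ofNat 0, .ofNat 0, .ofNat 1⟩ ⟨.negSucc 296, .ofNat 404,
  .negSucc 403, .ofNat 297⟩, .q ⟨.negSucc 0, .ofNat 0, .ofNat 0, .ofNat 1⟩
  ⟨.negSucc 2214, .ofNat 1669, .ofNat 1102, .negSucc 555⟩, .q ⟨.negSucc 0,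
  .ofNat 0, .ofNat 0, .ofNat 1⟩ ⟨.ofNat 1341, .negSucc 2827, .ofNat 2828,
  .negSucc 1340⟩, .q ⟨.negSucc 0, .ofNat 0, .ofNat 0, .ofNat 1⟩ ⟨.ofNat
  1879, .negSucc 3257, .negSucc 2320, .ofNat 3700⟩],
[.q ⟨.negSucc 1, .negSucc 7, .ofNat 10, .ofNat 0⟩ ⟨.negSucc 17, .ofNat 8,
  .ofNat 10, .ofNat 0⟩, .q ⟨.ofNat 1, .ofNat 9, .negSucc 9, .ofNat 0⟩
  ⟨.negSucc 18, .ofNat 9, .ofNat 10, .ofNat 0⟩, .q ⟨.ofNat 18, .negSucc 7,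
  .negSucc 9, .ofNat 0⟩ ⟨.ofNat 4067, .ofNat 437, .negSucc 540, .negSucc
  3962⟩, .q ⟨.ofNat 19, .negSucc 8, .negSucc 9, .ofNat 0⟩ ⟨.ofNat 4067,
  .ofNat 437, .negSucc 540, .negSucc 3962⟩, .q ⟨.ofNat 18, .negSucc 7,
  .negSucc 9, .ofNat 0⟩ ⟨.negSucc 2839, .ofNat 1957, .negSucc 2351, .ofNat
  3235⟩, .q ⟨.ofNat 19, .negSucc 8, .negSucc 9, .ofNat 0⟩ ⟨.negSucc 2839,
  .ofNat 1957, .negSucc 2351, .ofNat 3235⟩],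
[.q ⟨.negSucc 4, .negSucc 4, .ofNat 10, .ofNat 0⟩ ⟨.negSucc 14, .ofNat 5,
  .ofNat 10, .ofNat 0⟩, .q ⟨.ofNat 3, .ofNat 7, .negSucc 9, .ofNat 0⟩
  ⟨.negSucc 16, .ofNat 7, .ofNat 10, .ofNat 0⟩, .q ⟨.ofNat 15, .negSucc 4,
  .negSucc 9, .ofNat 0⟩ ⟨.ofNat 2590, .ofNat 2663, .negSucc 1576, .negSucc
  3675⟩, .q ⟨.ofNat 17, .negSucc 6, .negSucc 9, .ofNat 0⟩ ⟨.ofNat 2590,
  .ofNat 2663, .negSucc 1576, .negSucc 3675⟩, .q ⟨.ofNat 15, .negSucc 4,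
  .negSucc 9, .ofNat 0⟩ ⟨.negSucc 189, .negSucc 1360, .negSucc 1944, .ofNat
  3496⟩, .q ⟨.ofNat 17, .negSucc 6, .negSucc 9, .ofNat 0⟩ ⟨.negSucc 189,
  .negSucc 1360, .negSucc 1944, .ofNat 3496⟩],
[.q ⟨.negSucc 0, .ofNat 0, .ofNat 0, .ofNat 1⟩ ⟨.negSucc 531, .ofNat 181,
  .ofNat 1992, .negSucc 1640⟩, .q ⟨.negSucc 0, .ofNat 0, .ofNat 0, .ofNat 1⟩
  ⟨.ofNat 2764, .negSucc 3987, .negSucc 304, .ofNat 1529⟩, .q ⟨.negSucc 0,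
  .ofNat 0, .ofNat 0, .ofNat 1⟩ ⟨.negSucc 350, .ofNat 852, .negSucc 3907,
  .ofNat 3407⟩, .q ⟨.negSucc 0, .ofNat 0, .ofNat 0, .ofNat 1⟩ ⟨.negSucc
  3659, .ofNat 3803, .ofNat 1240, .negSucc 1382⟩],
[.l ⟨.ofNat 0, .ofNat 20, .ofNat 0, .negSucc 16⟩ ⟨.ofNat 0, .ofNat 20,
  .ofNat 0, .ofNat 17⟩, .l ⟨.ofNat 0, .negSucc 19, .ofNat 0, .ofNat 20⟩
  ⟨.ofNat 0, .ofNat 20, .ofNat 0, .ofNat 20⟩, .l ⟨.ofNat 0, .ofNat 20,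
  .ofNat 0, .negSucc 16⟩ ⟨.ofNat 0, .ofNat 1467, .ofNat 3721, .ofNat 4645⟩,
  .l ⟨.ofNat 0, .ofNat 20, .ofNat 0, .negSucc 19⟩ ⟨.ofNat 0, .ofNat 1467,
  .ofNat 3721, .ofNat 4645⟩, .l ⟨.ofNat 0, .ofNat 20, .ofNat 0, .negSucc 16⟩
  ⟨.ofNat 0, .ofNat 532, .negSucc 3963, .negSucc 3752⟩, .l ⟨.ofNat 0, .ofNat
  20, .ofNat 0, .negSucc 19⟩ ⟨.ofNat 0, .ofNat 532, .negSucc 3963, .negSucc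
  3752⟩],
[.l ⟨.ofNat 0, .ofNat 5, .ofNat 0, .negSucc 3⟩ ⟨.ofNat 0, .ofNat 5, .ofNat
  0, .ofNat 4⟩, .l ⟨.ofNat 0, .negSucc 4, .ofNat 0, .ofNat 5⟩ ⟨.ofNat 0,
  .ofNat 5, .ofNat 0, .ofNat 5⟩, .l ⟨.ofNat 0, .ofNat 5, .ofNat 0, .negSucc
  3⟩ ⟨.ofNat 0, .ofNat 0, .ofNat 4000, .ofNat 2667⟩, .l ⟨.ofNat 0, .ofNat 5,
  .ofNat 0, .negSucc 4⟩ ⟨.ofNat 0, .ofNat 0, .ofNat 4000, .ofNat 2667⟩, .l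
  ⟨.ofNat 0, .ofNat 5, .ofNat 0, .negSucc 3⟩ ⟨.ofNat 0, .ofNat 0, .negSucc
  3999, .negSucc 3310⟩, .l ⟨.ofNat 0, .ofNat 5, .ofNat 0, .negSucc 4⟩
  ⟨.ofNat 0, .ofNat 0, .negSucc 3999, .negSucc 3310⟩],
[.q ⟨.negSucc 3, .negSucc 35, .ofNat 40, .ofNat 0⟩ ⟨.negSucc 75, .ofNat 36,
  .ofNat 40, .ofNat 0⟩, .q ⟨.ofNat 1, .ofNat 39, .negSucc 39, .ofNat 0⟩
  ⟨.negSucc 78, .ofNat 39, .ofNat 40, .ofNat 0⟩, .q ⟨.ofNat 76, .negSucc 35,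
  .negSucc 39, .ofNat 0⟩ ⟨.ofNat 1013, .negSucc 12, .ofNat 0, .negSucc 999⟩,
  .q ⟨.ofNat 79, .negSucc 38, .negSucc 39, .ofNat 0⟩ ⟨.ofNat 1013, .negSucc
  12, .ofNat 0, .negSucc 999⟩, .q ⟨.ofNat 76, .negSucc 35, .negSucc 39,
  .ofNat 0⟩ ⟨.negSucc 3672, .ofNat 353, .negSucc 629, .ofNat 3950⟩, .q
  ⟨.ofNat 79, .negSucc 38, .negSucc 39, .ofNat 0⟩ ⟨.negSucc 3672, .ofNat
  353, .negSucc 629, .ofNat 3950⟩],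
[.l ⟨.ofNat 0, .ofNat 3943, .ofNat 673, .ofNat 2658⟩ ⟨.ofNat 0, .ofNat 0,
  .ofNat 0, .ofNat 1⟩, .l ⟨.ofNat 0, .negSucc 1327, .ofNat 3773, .ofNat
  1639⟩ ⟨.ofNat 0, .ofNat 0, .ofNat 0, .ofNat 1⟩, .l ⟨.ofNat 0, .negSucc
  693, .negSucc 719, .negSucc 168⟩ ⟨.ofNat 0, .ofNat 0, .ofNat 0, .ofNat 1⟩,
  .l ⟨.ofNat 0, .negSucc 448, .negSucc 3974, .ofNat 500⟩ ⟨.ofNat 0, .ofNat
  0, .ofNat 0, .ofNat 1⟩],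
[.q ⟨.ofNat 0, .negSucc 2, .negSucc 1, .ofNat 5⟩ ⟨.negSucc 1999, .ofNat
  1451, .negSucc 365, .ofNat 915⟩, .q ⟨.ofNat 0, .negSucc 2, .negSucc 1,
  .ofNat 5⟩ ⟨.negSucc 3865, .negSucc 2216, .ofNat 2608, .ofNat 3475⟩, .q
  ⟨.ofNat 0, .negSucc 2, .negSucc 1, .ofNat 5⟩ ⟨.ofNat 1405, .negSucc 3903,
  .ofNat 1729, .ofNat 770⟩, .q ⟨.ofNat 0, .negSucc 2, .negSucc 1, .ofNat 5⟩
  ⟨.ofNat 4519, .ofNat 174, .negSucc 3472, .negSucc 1219⟩],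
[.q ⟨.negSucc 0, .ofNat 0, .ofNat 0, .ofNat 1⟩ ⟨.ofNat 3375, .negSucc 3792,
  .ofNat 1270, .negSucc 851⟩, .q ⟨.negSucc 0, .ofNat 0, .ofNat 0, .ofNat 1⟩
  ⟨.ofNat 1333, .negSucc 1489, .negSucc 1333, .ofNat 1491⟩, .q ⟨.negSucc 0,
  .ofNat 0, .ofNat 0, .ofNat 1⟩ ⟨.negSucc 737, .ofNat 563, .negSucc 3959,
  .ofNat 4135⟩, .q ⟨.negSucc 0, .ofNat 0, .ofNat 0, .ofNat 1⟩ ⟨.negSucc
  3650, .ofNat 3596, .ofNat 1751, .negSucc 1695⟩, .q ⟨.negSucc 0, .ofNat 0,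
  .ofNat 0, .ofNat 1⟩ ⟨.ofNat 731, .negSucc 1136, .ofNat 3835, .negSucc
  3428⟩],
[.q ⟨.negSucc 0, .ofNat 0, .ofNat 0, .ofNat 1⟩ ⟨.ofNat 1341, .negSucc 2827,
  .ofNat 2828, .negSucc 1340⟩, .q ⟨.negSucc 0, .ofNat 0, .ofNat 0, .ofNat 1⟩
  ⟨.ofNat 2345, .negSucc 2472, .negSucc 3143, .ofNat 3272⟩, .q ⟨.negSucc 0,
  .ofNat 0, .ofNat 0, .ofNat 1⟩ ⟨.negSucc 108, .ofNat 478, .negSucc 3970,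
  .ofNat 3602⟩, .q ⟨.negSucc 0, .ofNat 0, .ofNat 0, .ofNat 1⟩ ⟨.negSucc
  3648, .ofNat 3958, .ofNat 581, .negSucc 889⟩],
[.q ⟨.negSucc 3, .negSucc 15, .ofNat 20, .ofNat 0⟩ ⟨.negSucc 35, .ofNat 16,
  .ofNat 20, .ofNat 0⟩, .q ⟨.ofNat 1, .ofNat 19, .negSucc 19, .ofNat 0⟩
  ⟨.negSucc 38, .ofNat 19, .ofNat 20, .ofNat 0⟩, .q ⟨.ofNat 36, .negSucc 15,
  .negSucc 19, .ofNat 0⟩ ⟨.ofNat 601, .ofNat 199, .ofNat 0, .negSucc 799⟩,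
  .q ⟨.ofNat 39, .negSucc 18, .negSucc 19, .ofNat 0⟩ ⟨.ofNat 601, .ofNat
  199, .ofNat 0, .negSucc 799⟩, .q ⟨.ofNat 36, .negSucc 15, .negSucc 19,
  .ofNat 0⟩ ⟨.ofNat 756, .negSucc 2119, .negSucc 2062, .ofNat 3427⟩, .q
  ⟨.ofNat 39, .negSucc 18, .negSucc 19, .ofNat 0⟩ ⟨.ofNat 756, .negSucc
  2119, .negSucc 2062, .ofNat 3427⟩],
[.q ⟨.negSucc 20, .negSucc 18, .ofNat 40, .ofNat 0⟩ ⟨.negSucc 58, .ofNat 19,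
  .ofNat 40, .ofNat 0⟩, .q ⟨.ofNat 18, .ofNat 22, .negSucc 39, .ofNat 0⟩
  ⟨.negSucc 61, .ofNat 22, .ofNat 40, .ofNat 0⟩, .q ⟨.ofNat 59, .negSucc 18,
  .negSucc 39, .ofNat 0⟩ ⟨.ofNat 2150, .ofNat 2123, .negSucc 282, .negSucc
  3989⟩, .q ⟨.ofNat 62, .negSucc 21, .negSucc 39, .ofNat 0⟩ ⟨.ofNat 2150,
  .ofNat 2123, .negSucc 282, .negSucc 3989⟩, .q ⟨.ofNat 59, .negSucc 18,
  .negSucc 39, .ofNat 0⟩ ⟨.negSucc 482, .negSucc 862, .negSucc 2073, .ofNat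
  3420⟩, .q ⟨.ofNat 62, .negSucc 21, .negSucc 39, .ofNat 0⟩ ⟨.negSucc 482,
  .negSucc 862, .negSucc 2073, .ofNat 3420⟩, .q ⟨.ofNat 59, .negSucc 18,
  .negSucc 39, .ofNat 0⟩ ⟨.ofNat 1301, .ofNat 1295, .negSucc 1858, .negSucc
  736⟩, .q ⟨.ofNat 62, .negSucc 21, .negSucc 39, .ofNat 0⟩ ⟨.ofNat 1301,
  .ofNat 1295, .negSucc 1858, .negSucc 736⟩],
[.q ⟨.negSucc 4, .negSucc 34, .ofNat 40, .ofNat 0⟩ ⟨.negSucc 74, .ofNat 35,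
  .ofNat 40, .ofNat 0⟩, .q ⟨.ofNat 2, .ofNat 38, .negSucc 39, .ofNat 0⟩
  ⟨.negSucc 77, .ofNat 38, .ofNat 40, .ofNat 0⟩, .q ⟨.ofNat 75, .negSucc 34,
  .negSucc 39, .ofNat 0⟩ ⟨.ofNat 1009, .negSucc 8, .ofNat 0, .negSucc 999⟩,
  .q ⟨.ofNat 78, .negSucc 37, .negSucc 39, .ofNat 0⟩ ⟨.ofNat 1009, .negSucc
  8, .ofNat 0, .negSucc 999⟩, .q ⟨.ofNat 75, .negSucc 34, .negSucc 39,
  .ofNat 0⟩ ⟨.negSucc 1886, .negSucc 112, .ofNat 0, .ofNat 2000⟩, .q ⟨.ofNat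
  78, .negSucc 37, .negSucc 39, .ofNat 0⟩ ⟨.negSucc 1886, .negSucc 112,
  .ofNat 0, .ofNat 2000⟩, .q ⟨.ofNat 75, .negSucc 34, .negSucc 39, .ofNat 0⟩
  ⟨.negSucc 2904, .ofNat 1851, .negSucc 2251, .ofNat 3306⟩, .q ⟨.ofNat 78,
  .negSucc 37, .negSucc 39, .ofNat 0⟩ ⟨.negSucc 2904, .ofNat 1851, .negSucc
  2251, .ofNat 3306⟩],
[.q ⟨.negSucc 1, .negSucc 2, .ofNat 5, .ofNat 0⟩ ⟨.negSucc 7, .ofNat 3,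
  .ofNat 5, .ofNat 0⟩, .q ⟨.ofNat 1, .ofNat 4, .negSucc 4, .ofNat 0⟩
  ⟨.negSucc 8, .ofNat 4, .ofNat 5, .ofNat 0⟩, .q ⟨.ofNat 8, .negSucc 2,
  .negSucc 4, .ofNat 0⟩ ⟨.ofNat 2681, .ofNat 921, .ofNat 380, .negSucc
  3981⟩, .q ⟨.ofNat 9, .negSucc 3, .negSucc 4, .ofNat 0⟩ ⟨.ofNat 2681,
  .ofNat 921, .ofNat 380, .negSucc 3981⟩, .q ⟨.ofNat 8, .negSucc 2, .negSucc
  4, .ofNat 0⟩ ⟨.negSucc 85, .negSucc 4590, .ofNat 748, .ofNat 3929⟩, .q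
  ⟨.ofNat 9, .negSucc 3, .negSucc 4, .ofNat 0⟩ ⟨.negSucc 85, .negSucc 4590,
  .ofNat 748, .ofNat 3929⟩],
[.l ⟨.ofNat 0, .ofNat 20, .ofNat 0, .negSucc 16⟩ ⟨.ofNat 0, .ofNat 20,
  .ofNat 0, .ofNat 17⟩, .l ⟨.ofNat 0, .negSucc 19, .ofNat 0, .ofNat 20⟩
  ⟨.ofNat 0, .ofNat 20, .ofNat 0, .ofNat 20⟩, .l ⟨.ofNat 0, .ofNat 20,
  .ofNat 0, .negSucc 16⟩ ⟨.ofNat 0, .ofNat 1781, .ofNat 3582, .ofNat 4808⟩,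
  .l ⟨.ofNat 0, .ofNat 20, .ofNat 0, .negSucc 19⟩ ⟨.ofNat 0, .ofNat 1781,
  .ofNat 3582, .ofNat 4808⟩, .l ⟨.ofNat 0, .ofNat 20, .ofNat 0, .negSucc 16⟩
  ⟨.ofNat 0, .ofNat 1329, .negSucc 3772, .negSucc 2750⟩, .l ⟨.ofNat 0,
  .ofNat 20, .ofNat 0, .negSucc 19⟩ ⟨.ofNat 0, .ofNat 1329, .negSucc 3772,
  .negSucc 2750⟩],
[.q ⟨.negSucc 0, .ofNat 0, .ofNat 0, .ofNat 1⟩ ⟨.negSucc 4127, .ofNat 3991,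
  .negSucc 273, .ofNat 411⟩, .q ⟨.negSucc 0, .ofNat 0, .ofNat 0, .ofNat 1⟩
  ⟨.ofNat 431, .negSucc 799, .ofNat 3919, .negSucc 3549⟩, .q ⟨.negSucc 0,
  .ofNat 0, .ofNat 0, .ofNat 1⟩ ⟨.ofNat 3667, .negSucc 3985, .negSucc 332,
  .ofNat 652⟩, .q ⟨.negSucc 0, .ofNat 0, .ofNat 0, .ofNat 1⟩ ⟨.negSucc 82,
  .ofNat 0, .negSucc 1999, .ofNat 2083⟩],
[.l ⟨.ofNat 0, .negSucc 3984, .negSucc 346, .ofNat 45⟩ ⟨.ofNat 0, .ofNat 0,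
  .ofNat 0, .ofNat 1⟩, .l ⟨.ofNat 0, .ofNat 1330, .negSucc 3771, .negSucc
  224⟩ ⟨.ofNat 0, .ofNat 0, .ofNat 0, .ofNat 1⟩, .l ⟨.ofNat 0, .ofNat 2828,
  .ofNat 2828, .ofNat 2591⟩ ⟨.ofNat 0, .ofNat 0, .ofNat 0, .ofNat 1⟩, .l
  ⟨.ofNat 0, .negSucc 3017, .ofNat 2625, .ofNat 2422⟩ ⟨.ofNat 0, .ofNat 0,
  .ofNat 0, .ofNat 1⟩],
[.q ⟨.negSucc 0, .ofNat 0, .ofNat 0, .ofNat 1⟩ ⟨.ofNat 361, .negSucc 588,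
  .negSucc 3955, .ofNat 4184⟩, .q ⟨.negSucc 0, .ofNat 0, .ofNat 0, .ofNat 1⟩
  ⟨.negSucc 3682, .ofNat 3821, .ofNat 1184, .negSucc 1321⟩, .q ⟨.negSucc 0,
  .ofNat 0, .ofNat 0, .ofNat 1⟩ ⟨.ofNat 3228, .negSucc 3612, .ofNat 1717,
  .negSucc 1331⟩, .q ⟨.negSucc 0, .ofNat 0, .ofNat 0, .ofNat 1⟩ ⟨.ofNat
  3162, .negSucc 3576, .negSucc 1789, .ofNat 2205⟩],
[.l ⟨.ofNat 0, .ofNat 20, .ofNat 0, .negSucc 16⟩ ⟨.ofNat 0, .ofNat 20,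
  .ofNat 0, .ofNat 17⟩, .l ⟨.ofNat 0, .negSucc 19, .ofNat 0, .ofNat 20⟩
  ⟨.ofNat 0, .ofNat 20, .ofNat 0, .ofNat 20⟩, .l ⟨.ofNat 0, .ofNat 20,
  .ofNat 0, .negSucc 16⟩ ⟨.ofNat 0, .ofNat 144, .ofNat 3997, .ofNat 2226⟩,
  .l ⟨.ofNat 0, .ofNat 20, .ofNat 0, .negSucc 19⟩ ⟨.ofNat 0, .ofNat 144,
  .ofNat 3997, .ofNat 2226⟩, .l ⟨.ofNat 0, .ofNat 20, .ofNat 0, .negSucc 16⟩
  ⟨.ofNat 0, .negSucc 143, .negSucc 3996, .negSucc 3455⟩, .l ⟨.ofNat 0,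
  .ofNat 20, .ofNat 0, .negSucc 19⟩ ⟨.ofNat 0, .negSucc 143, .negSucc 3996,
  .negSucc 3455⟩],
[.q ⟨.negSucc 20, .negSucc 18, .ofNat 40, .ofNat 0⟩ ⟨.negSucc 58, .ofNat 19,
  .ofNat 40, .ofNat 0⟩, .q ⟨.ofNat 17, .ofNat 23, .negSucc 39, .ofNat 0⟩
  ⟨.negSucc 62, .ofNat 23, .ofNat 40, .ofNat 0⟩, .q ⟨.ofNat 59, .negSucc 18,
  .negSucc 39, .ofNat 0⟩ ⟨.ofNat 511, .ofNat 3489, .ofNat 0, .negSucc 3999⟩,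
  .q ⟨.ofNat 63, .negSucc 22, .negSucc 39, .ofNat 0⟩ ⟨.ofNat 511, .ofNat
  3489, .ofNat 0, .negSucc 3999⟩, .q ⟨.ofNat 59, .negSucc 18, .negSucc 39,
  .ofNat 0⟩ ⟨.ofNat 3, .negSucc 502, .ofNat 0, .ofNat 500⟩, .q ⟨.ofNat 63,
  .negSucc 22, .negSucc 39, .ofNat 0⟩ ⟨.ofNat 3, .negSucc 502, .ofNat 0,
  .ofNat 500⟩],
[.q ⟨.negSucc 0, .ofNat 0, .ofNat 0, .ofNat 1⟩ ⟨.ofNat 565, .negSucc 964,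
  .ofNat 3882, .negSucc 3481⟩, .q ⟨.negSucc 0, .ofNat 0, .ofNat 0, .ofNat 1⟩
  ⟨.ofNat 183, .negSucc 199, .ofNat 0, .ofNat 17⟩, .q ⟨.negSucc 0, .ofNat 0,
  .ofNat 0, .ofNat 1⟩ ⟨.ofNat 756, .negSucc 750, .negSucc 3928, .ofNat
  3924⟩, .q ⟨.negSucc 0, .ofNat 0, .ofNat 0, .ofNat 1⟩ ⟨.negSucc 4068,
  .ofNat 3855, .ofNat 1066, .negSucc 851⟩],
[.q ⟨.negSucc 9, .negSucc 9, .ofNat 20, .ofNat 0⟩ ⟨.negSucc 29, .ofNat 10,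
  .ofNat 20, .ofNat 0⟩, .q ⟨.ofNat 7, .ofNat 13, .negSucc 19, .ofNat 0⟩
  ⟨.negSucc 32, .ofNat 13, .ofNat 20, .ofNat 0⟩, .q ⟨.ofNat 30, .negSucc 9,
  .negSucc 19, .ofNat 0⟩ ⟨.ofNat 2412, .ofNat 2391, .negSucc 906, .negSucc
  3895⟩, .q ⟨.ofNat 33, .negSucc 12, .negSucc 19, .ofNat 0⟩ ⟨.ofNat 2412,
  .ofNat 2391, .negSucc 906, .negSucc 3895⟩, .q ⟨.ofNat 30, .negSucc 9,
  .negSucc 19, .ofNat 0⟩ ⟨.negSucc 512, .negSucc 1815, .negSucc 1412, .ofNat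
  3742⟩, .q ⟨.ofNat 33, .negSucc 12, .negSucc 19, .ofNat 0⟩ ⟨.negSucc 512,
  .negSucc 1815, .negSucc 1412, .ofNat 3742⟩],
[.l ⟨.ofNat 0, .ofNat 20, .ofNat 0, .negSucc 16⟩ ⟨.ofNat 0, .ofNat 20,
  .ofNat 0, .ofNat 17⟩, .l ⟨.ofNat 0, .negSucc 19, .ofNat 0, .ofNat 19⟩
  ⟨.ofNat 0, .ofNat 20, .ofNat 0, .ofNat 19⟩, .l ⟨.ofNat 0, .ofNat 20,
  .ofNat 0, .negSucc 16⟩ ⟨.ofNat 0, .ofNat 683, .ofNat 3941, .ofNat 2668⟩,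
  .l ⟨.ofNat 0, .ofNat 20, .ofNat 0, .negSucc 18⟩ ⟨.ofNat 0, .ofNat 683,
  .ofNat 3941, .ofNat 2668⟩, .l ⟨.ofNat 0, .ofNat 20, .ofNat 0, .negSucc 16⟩
  ⟨.ofNat 0, .negSucc 682, .negSucc 3940, .negSucc 3854⟩, .l ⟨.ofNat 0,
  .ofNat 20, .ofNat 0, .negSucc 18⟩ ⟨.ofNat 0, .negSucc 682, .negSucc 3940,
  .negSucc 3854⟩],
[.l ⟨.ofNat 0, .ofNat 20, .ofNat 0, .negSucc 16⟩ ⟨.ofNat 0, .ofNat 20,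
  .ofNat 0, .ofNat 17⟩, .l ⟨.ofNat 0, .negSucc 19, .ofNat 0, .ofNat 20⟩
  ⟨.ofNat 0, .ofNat 20, .ofNat 0, .ofNat 20⟩, .l ⟨.ofNat 0, .ofNat 20,
  .ofNat 0, .negSucc 16⟩ ⟨.ofNat 0, .ofNat 1233, .ofNat 3805, .ofNat 3078⟩,
  .l ⟨.ofNat 0, .ofNat 20, .ofNat 0, .negSucc 19⟩ ⟨.ofNat 0, .ofNat 1233,
  .ofNat 3805, .ofNat 3078⟩, .l ⟨.ofNat 0, .ofNat 20, .ofNat 0, .negSucc 16⟩
  ⟨.ofNat 0, .ofNat 1289, .negSucc 3786, .negSucc 1847⟩, .l ⟨.ofNat 0,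
  .ofNat 20, .ofNat 0, .negSucc 19⟩ ⟨.ofNat 0, .ofNat 1289, .negSucc 3786,
  .negSucc 1847⟩],
[.q ⟨.negSucc 0, .ofNat 0, .ofNat 0, .ofNat 1⟩ ⟨.ofNat 1261, .negSucc 1097,
  .negSucc 3845, .ofNat 3683⟩, .q ⟨.negSucc 0, .ofNat 0, .ofNat 0, .ofNat 1⟩
  ⟨.negSucc 1152, .ofNat 1414, .negSucc 1413, .ofNat 1153⟩, .q ⟨.negSucc 0,
  .ofNat 0, .ofNat 0, .ofNat 1⟩ ⟨.negSucc 3653, .ofNat 3791, .ofNat 1275,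
  .negSucc 1411⟩, .q ⟨.negSucc 0, .ofNat 0, .ofNat 0, .ofNat 1⟩ ⟨.ofNat
  1341, .negSucc 2827, .ofNat 2828, .negSucc 1340⟩],
[.q ⟨.negSucc 2, .negSucc 16, .ofNat 20, .ofNat 0⟩ ⟨.negSucc 36, .ofNat 17,
  .ofNat 20, .ofNat 0⟩, .q ⟨.ofNat 0, .ofNat 20, .negSucc 19, .ofNat 0⟩
  ⟨.negSucc 39, .ofNat 20, .ofNat 20, .ofNat 0⟩, .q ⟨.ofNat 37, .negSucc 16,
  .negSucc 19, .ofNat 0⟩ ⟨.ofNat 4045, .negSucc 165, .ofNat 119, .negSucc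
  3997⟩, .q ⟨.ofNat 40, .negSucc 19, .negSucc 19, .ofNat 0⟩ ⟨.ofNat 4045,
  .negSucc 165, .ofNat 119, .negSucc 3997⟩, .q ⟨.ofNat 37, .negSucc 16,
  .negSucc 19, .ofNat 0⟩ ⟨.negSucc 3733, .negSucc 144, .negSucc 118, .ofNat
  3998⟩, .q ⟨.ofNat 40, .negSucc 19, .negSucc 19, .ofNat 0⟩ ⟨.negSucc 3733,
  .negSucc 144, .negSucc 118, .ofNat 3998⟩, .q ⟨.ofNat 37, .negSucc 16,
  .negSucc 19, .ofNat 0⟩ ⟨.ofNat 1942, .ofNat 665, .negSucc 754, .negSucc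
  1851⟩, .q ⟨.ofNat 40, .negSucc 19, .negSucc 19, .ofNat 0⟩ ⟨.ofNat 1942,
  .ofNat 665, .negSucc 754, .negSucc 1851⟩, .q ⟨.ofNat 37, .negSucc 16,
  .negSucc 19, .ofNat 0⟩ ⟨.negSucc 3109, .ofNat 1701, .negSucc 2034, .ofNat
  3444⟩, .q ⟨.ofNat 40, .negSucc 19, .negSucc 19, .ofNat 0⟩ ⟨.negSucc 3109,
  .ofNat 1701, .negSucc 2034, .ofNat 3444⟩],
[.q ⟨.negSucc 0, .ofNat 0, .ofNat 0, .ofNat 1⟩ ⟨.negSucc 2933, .ofNat 3708,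
  .negSucc 1500, .ofNat 727⟩, .q ⟨.negSucc 0, .ofNat 0, .ofNat 0, .ofNat 1⟩
  ⟨.negSucc 284, .negSucc 841, .ofNat 3910, .negSucc 2782⟩, .q ⟨.negSucc 0,
  .ofNat 0, .ofNat 0, .ofNat 1⟩ ⟨.ofNat 2879, .negSucc 3555, .negSucc 1830,
  .ofNat 2508⟩],
[.q ⟨.negSucc 2, .negSucc 16, .ofNat 20, .ofNat 0⟩ ⟨.negSucc 36, .ofNat 17,
  .ofNat 20, .ofNat 0⟩, .q ⟨.ofNat 0, .ofNat 20, .negSucc 19, .ofNat 0⟩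
  ⟨.negSucc 39, .ofNat 20, .ofNat 20, .ofNat 0⟩, .q ⟨.ofNat 37, .negSucc 16,
  .negSucc 19, .ofNat 0⟩ ⟨.ofNat 1667, .ofNat 333, .ofNat 0, .negSucc 1999⟩,
  .q ⟨.ofNat 40, .negSucc 19, .negSucc 19, .ofNat 0⟩ ⟨.ofNat 1667, .ofNat
  333, .ofNat 0, .negSucc 1999⟩, .q ⟨.ofNat 37, .negSucc 16, .negSucc 19,
  .ofNat 0⟩ ⟨.ofNat 739, .negSucc 2949, .negSucc 1497, .ofNat 3709⟩, .q
  ⟨.ofNat 40, .negSucc 19, .negSucc 19, .ofNat 0⟩ ⟨.ofNat 739, .negSucc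
  2949, .negSucc 1497, .ofNat 3709⟩, .q ⟨.ofNat 37, .negSucc 16, .negSucc
  19, .ofNat 0⟩ ⟨.ofNat 2535, .ofNat 3121, .negSucc 2855, .negSucc 2799⟩, .q
  ⟨.ofNat 40, .negSucc 19, .negSucc 19, .ofNat 0⟩ ⟨.ofNat 2535, .ofNat 3121,
  .negSucc 2855, .negSucc 2799⟩],
[.q ⟨.ofNat 47, .negSucc 26, .negSucc 59, .ofNat 40⟩ ⟨.negSucc 11657, .ofNat
  30002, .negSucc 14263, .negSucc 4079⟩, .q ⟨.ofNat 47, .negSucc 26,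
  .negSucc 59, .ofNat 40⟩ ⟨.negSucc 13267, .negSucc 851, .negSucc 11319,
  .ofNat 25440⟩, .q ⟨.ofNat 47, .negSucc 26, .negSucc 59, .ofNat 40⟩ ⟨.ofNat
  10395, .negSucc 32302, .ofNat 13068, .ofNat 8840⟩, .q ⟨.ofNat 47, .negSucc
  26, .negSucc 59, .ofNat 40⟩ ⟨.ofNat 3850, .ofNat 26774, .negSucc 783,
  .negSucc 29839⟩, .q ⟨.ofNat 47, .negSucc 26, .negSucc 59, .ofNat 40⟩
  ⟨.ofNat 18218, .negSucc 8953, .ofNat 16096, .negSucc 25359⟩],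
[.l ⟨.ofNat 0, .ofNat 20, .ofNat 0, .negSucc 15⟩ ⟨.ofNat 0, .ofNat 20,
  .ofNat 0, .ofNat 16⟩, .l ⟨.ofNat 0, .negSucc 19, .ofNat 0, .ofNat 19⟩
  ⟨.ofNat 0, .ofNat 20, .ofNat 0, .ofNat 19⟩, .l ⟨.ofNat 0, .ofNat 20,
  .ofNat 0, .negSucc 15⟩ ⟨.ofNat 0, .ofNat 0, .ofNat 250, .ofNat 127⟩, .l
  ⟨.ofNat 0, .ofNat 20, .ofNat 0, .negSucc 18⟩ ⟨.ofNat 0, .ofNat 0, .ofNat
  250, .ofNat 127⟩, .l ⟨.ofNat 0, .ofNat 20, .ofNat 0, .negSucc 15⟩ ⟨.ofNat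
  0, .ofNat 0, .negSucc 3999, .negSucc 3310⟩, .l ⟨.ofNat 0, .ofNat 20,
  .ofNat 0, .negSucc 18⟩ ⟨.ofNat 0, .ofNat 0, .negSucc 3999, .negSucc 3310⟩,
  .l ⟨.ofNat 0, .ofNat 20, .ofNat 0, .negSucc 15⟩ ⟨.ofNat 0, .ofNat 3596,
  .ofNat 1752, .ofNat 4099⟩, .l ⟨.ofNat 0, .ofNat 20, .ofNat 0, .negSucc 18⟩
  ⟨.ofNat 0, .ofNat 3596, .ofNat 1752, .ofNat 4099⟩],
[.q ⟨.negSucc 2, .negSucc 36, .ofNat 40, .ofNat 0⟩ ⟨.negSucc 76, .ofNat 37,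
  .ofNat 40, .ofNat 0⟩, .q ⟨.negSucc 0, .ofNat 41, .negSucc 39, .ofNat 0⟩
  ⟨.negSucc 80, .ofNat 41, .ofNat 40, .ofNat 0⟩, .q ⟨.ofNat 77, .negSucc 36,
  .negSucc 39, .ofNat 0⟩ ⟨.ofNat 2029, .negSucc 28, .ofNat 0, .negSucc
  1999⟩, .q ⟨.ofNat 81, .negSucc 40, .negSucc 39, .ofNat 0⟩ ⟨.ofNat 2029,
  .negSucc 28, .ofNat 0, .negSucc 1999⟩, .q ⟨.ofNat 77, .negSucc 36,
  .negSucc 39, .ofNat 0⟩ ⟨.negSucc 3758, .negSucc 240, .ofNat 0, .ofNat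
  4000⟩, .q ⟨.ofNat 81, .negSucc 40, .negSucc 39, .ofNat 0⟩ ⟨.negSucc 3758,
  .negSucc 240, .ofNat 0, .ofNat 4000⟩],
[.q ⟨.negSucc 1, .negSucc 37, .ofNat 40, .ofNat 0⟩ ⟨.negSucc 77, .ofNat 38,
  .ofNat 40, .ofNat 0⟩, .q ⟨.negSucc 0, .ofNat 41, .negSucc 39, .ofNat 0⟩
  ⟨.negSucc 80, .ofNat 41, .ofNat 40, .ofNat 0⟩, .q ⟨.ofNat 78, .negSucc 37,
  .negSucc 39, .ofNat 0⟩ ⟨.ofNat 3335, .ofNat 1174, .negSucc 545, .negSucc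
  3962⟩, .q ⟨.ofNat 81, .negSucc 40, .negSucc 39, .ofNat 0⟩ ⟨.ofNat 3335,
  .ofNat 1174, .negSucc 545, .negSucc 3962⟩, .q ⟨.ofNat 78, .negSucc 37,
  .negSucc 39, .ofNat 0⟩ ⟨.ofNat 730, .negSucc 5238, .ofNat 546, .ofNat
  3963⟩, .q ⟨.ofNat 81, .negSucc 40, .negSucc 39, .ofNat 0⟩ ⟨.ofNat 730,
  .negSucc 5238, .ofNat 546, .ofNat 3963⟩, .q ⟨.ofNat 78, .negSucc 37,
  .negSucc 39, .ofNat 0⟩ ⟨.ofNat 3189, .negSucc 708, .ofNat 1302, .negSucc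
  3781⟩, .q ⟨.ofNat 81, .negSucc 40, .negSucc 39, .ofNat 0⟩ ⟨.ofNat 3189,
  .negSucc 708, .ofNat 1302, .negSucc 3781⟩],
[.q ⟨.negSucc 1, .negSucc 37, .ofNat 40, .ofNat 0⟩ ⟨.negSucc 77, .ofNat 38,
  .ofNat 40, .ofNat 0⟩, .q ⟨.negSucc 0, .ofNat 41, .negSucc 39, .ofNat 0⟩
  ⟨.negSucc 80, .ofNat 41, .ofNat 40, .ofNat 0⟩, .q ⟨.ofNat 78, .negSucc 37,
  .negSucc 39, .ofNat 0⟩ ⟨.ofNat 2029, .negSucc 28, .ofNat 0, .negSucc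
  1999⟩, .q ⟨.ofNat 81, .negSucc 40, .negSucc 39, .ofNat 0⟩ ⟨.ofNat 2029,
  .negSucc 28, .ofNat 0, .negSucc 1999⟩, .q ⟨.ofNat 78, .negSucc 37,
  .negSucc 39, .ofNat 0⟩ ⟨.negSucc 748, .negSucc 50, .ofNat 0, .ofNat 800⟩,
  .q ⟨.ofNat 81, .negSucc 40, .negSucc 39, .ofNat 0⟩ ⟨.negSucc 748, .negSucc
  50, .ofNat 0, .ofNat 800⟩],
[.q ⟨.negSucc 20, .negSucc 18, .ofNat 40, .ofNat 0⟩ ⟨.negSucc 58, .ofNat 19,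
  .ofNat 40, .ofNat 0⟩, .q ⟨.ofNat 18, .ofNat 22, .negSucc 39, .ofNat 0⟩
  ⟨.negSucc 61, .ofNat 22, .ofNat 40, .ofNat 0⟩, .q ⟨.ofNat 59, .negSucc 18,
  .negSucc 39, .ofNat 0⟩ ⟨.ofNat 849, .ofNat 3755, .negSucc 657, .negSucc
  3945⟩, .q ⟨.ofNat 62, .negSucc 21, .negSucc 39, .ofNat 0⟩ ⟨.ofNat 849,
  .ofNat 3755, .negSucc 657, .negSucc 3945⟩, .q ⟨.ofNat 59, .negSucc 18,
  .negSucc 39, .ofNat 0⟩ ⟨.ofNat 772, .negSucc 3074, .negSucc 1431, .ofNat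
  3735⟩, .q ⟨.ofNat 62, .negSucc 21, .negSucc 39, .ofNat 0⟩ ⟨.ofNat 772,
  .negSucc 3074, .negSucc 1431, .ofNat 3735⟩],
[.q ⟨.negSucc 0, .ofNat 1, .ofNat 0, .ofNat 0⟩ ⟨.negSucc 1398, .negSucc 520,
  .ofNat 1920, .ofNat 0⟩, .q ⟨.negSucc 0, .ofNat 1, .ofNat 0, .ofNat 0⟩
  ⟨.ofNat 961, .ofNat 959, .negSucc 1919, .ofNat 0⟩, .l ⟨.ofNat 0, .ofNat 0,
  .negSucc 1919, .ofNat 119⟩ ⟨.ofNat 0, .ofNat 0, .ofNat 0, .ofNat 1⟩, .l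
  ⟨.ofNat 0, .ofNat 0, .ofNat 1920, .ofNat 1289⟩ ⟨.ofNat 0, .ofNat 0, .ofNat
  0, .ofNat 1⟩],
[.q ⟨.negSucc 8, .negSucc 10, .ofNat 20, .ofNat 0⟩ ⟨.negSucc 30, .ofNat 11,
  .ofNat 20, .ofNat 0⟩, .q ⟨.ofNat 5, .ofNat 15, .negSucc 19, .ofNat 0⟩
  ⟨.negSucc 34, .ofNat 15, .ofNat 20, .ofNat 0⟩, .q ⟨.ofNat 31, .negSucc 10,
  .negSucc 19, .ofNat 0⟩ ⟨.ofNat 2823, .ofNat 1132, .ofNat 45, .negSucc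
  3999⟩, .q ⟨.ofNat 35, .negSucc 14, .negSucc 19, .ofNat 0⟩ ⟨.ofNat 2823,
  .ofNat 1132, .ofNat 45, .negSucc 3999⟩, .q ⟨.ofNat 31, .negSucc 10,
  .negSucc 19, .ofNat 0⟩ ⟨.negSucc 980, .negSucc 4626, .ofNat 2432, .ofNat
  3176⟩, .q ⟨.ofNat 35, .negSucc 14, .negSucc 19, .ofNat 0⟩ ⟨.negSucc 980,
  .negSucc 4626, .ofNat 2432, .ofNat 3176⟩, .q ⟨.ofNat 31, .negSucc 10,
  .negSucc 19, .ofNat 0⟩ ⟨.ofNat 2643, .ofNat 2921, .negSucc 3293, .negSucc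
  2269⟩, .q ⟨.ofNat 35, .negSucc 14, .negSucc 19, .ofNat 0⟩ ⟨.ofNat 2643,
  .ofNat 2921, .negSucc 3293, .negSucc 2269⟩],
[.q ⟨.negSucc 0, .negSucc 8, .ofNat 10, .ofNat 0⟩ ⟨.negSucc 18, .ofNat 9,
  .ofNat 10, .ofNat 0⟩, .q ⟨.ofNat 0, .ofNat 10, .negSucc 9, .ofNat 0⟩
  ⟨.negSucc 19, .ofNat 10, .ofNat 10, .ofNat 0⟩, .q ⟨.ofNat 19, .negSucc 8,
  .negSucc 9, .ofNat 0⟩ ⟨.ofNat 4063, .ofNat 106, .negSucc 172, .negSucc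
  3995⟩, .q ⟨.ofNat 20, .negSucc 9, .negSucc 9, .ofNat 0⟩ ⟨.ofNat 4063,
  .ofNat 106, .negSucc 172, .negSucc 3995⟩, .q ⟨.ofNat 19, .negSucc 8,
  .negSucc 9, .ofNat 0⟩ ⟨.negSucc 3796, .negSucc 371, .ofNat 173, .ofNat
  3996⟩, .q ⟨.ofNat 20, .negSucc 9, .negSucc 9, .ofNat 0⟩ ⟨.negSucc 3796,
  .negSucc 371, .ofNat 173, .ofNat 3996⟩],
[.q ⟨.negSucc 6, .negSucc 12, .ofNat 20, .ofNat 0⟩ ⟨.negSucc 32, .ofNat 13,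
  .ofNat 20, .ofNat 0⟩, .q ⟨.ofNat 3, .ofNat 17, .negSucc 19, .ofNat 0⟩
  ⟨.negSucc 36, .ofNat 17, .ofNat 20, .ofNat 0⟩, .q ⟨.ofNat 33, .negSucc 12,
  .negSucc 19, .ofNat 0⟩ ⟨.ofNat 1479, .ofNat 521, .ofNat 0, .negSucc 1999⟩,
  .q ⟨.ofNat 37, .negSucc 16, .negSucc 19, .ofNat 0⟩ ⟨.ofNat 1479, .ofNat
  521, .ofNat 0, .negSucc 1999⟩, .q ⟨.ofNat 33, .negSucc 12, .negSucc 19,
  .ofNat 0⟩ ⟨.ofNat 283, .negSucc 4282, .ofNat 0, .ofNat 4000⟩, .q ⟨.ofNat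
  37, .negSucc 16, .negSucc 19, .ofNat 0⟩ ⟨.ofNat 283, .negSucc 4282, .ofNat
  0, .ofNat 4000⟩, .q ⟨.ofNat 33, .negSucc 12, .negSucc 19, .ofNat 0⟩
  ⟨.ofNat 2739, .ofNat 2914, .negSucc 2938, .negSucc 2713⟩, .q ⟨.ofNat 37,
  .negSucc 16, .negSucc 19, .ofNat 0⟩ ⟨.ofNat 2739, .ofNat 2914, .negSucc
  2938, .negSucc 2713⟩],
[.q ⟨.negSucc 4, .negSucc 34, .ofNat 40, .ofNat 0⟩ ⟨.negSucc 74, .ofNat 35,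
  .ofNat 40, .ofNat 0⟩, .q ⟨.ofNat 2, .ofNat 38, .negSucc 39, .ofNat 0⟩
  ⟨.negSucc 77, .ofNat 38, .ofNat 40, .ofNat 0⟩, .q ⟨.ofNat 75, .negSucc 34,
  .negSucc 39, .ofNat 0⟩ ⟨.ofNat 1009, .negSucc 8, .ofNat 0, .negSucc 999⟩,
  .q ⟨.ofNat 78, .negSucc 37, .negSucc 39, .ofNat 0⟩ ⟨.ofNat 1009, .negSucc
  8, .ofNat 0, .negSucc 999⟩, .q ⟨.ofNat 75, .negSucc 34, .negSucc 39,
  .ofNat 0⟩ ⟨.negSucc 3800, .negSucc 198, .ofNat 0, .ofNat 4000⟩, .q ⟨.ofNat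
  78, .negSucc 37, .negSucc 39, .ofNat 0⟩ ⟨.negSucc 3800, .negSucc 198,
  .ofNat 0, .ofNat 4000⟩, .q ⟨.ofNat 75, .negSucc 34, .negSucc 39, .ofNat 0⟩
  ⟨.negSucc 1425, .ofNat 955, .negSucc 1158, .ofNat 1630⟩, .q ⟨.ofNat 78,
  .negSucc 37, .negSucc 39, .ofNat 0⟩ ⟨.negSucc 1425, .ofNat 955, .negSucc
  1158, .ofNat 1630⟩],
[.q ⟨.negSucc 1, .negSucc 2, .ofNat 5, .ofNat 0⟩ ⟨.negSucc 7, .ofNat 3,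
  .ofNat 5, .ofNat 0⟩, .q ⟨.ofNat 1, .ofNat 4, .negSucc 4, .ofNat 0⟩
  ⟨.negSucc 8, .ofNat 4, .ofNat 5, .ofNat 0⟩, .q ⟨.ofNat 8, .negSucc 2,
  .negSucc 4, .ofNat 0⟩ ⟨.ofNat 3056, .ofNat 1815, .negSucc 996, .negSucc
  3873⟩, .q ⟨.ofNat 9, .negSucc 3, .negSucc 4, .ofNat 0⟩ ⟨.ofNat 3056,
  .ofNat 1815, .negSucc 996, .negSucc 3873⟩, .q ⟨.ofNat 8, .negSucc 2,
  .negSucc 4, .ofNat 0⟩ ⟨.negSucc 188, .negSucc 4681, .ofNat 997, .ofNat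
  3874⟩, .q ⟨.ofNat 9, .negSucc 3, .negSucc 4, .ofNat 0⟩ ⟨.negSucc 188,
  .negSucc 4681, .ofNat 997, .ofNat 3874⟩],
[.q ⟨.negSucc 4, .negSucc 34, .ofNat 40, .ofNat 0⟩ ⟨.negSucc 74, .ofNat 35,
  .ofNat 40, .ofNat 0⟩, .q ⟨.ofNat 2, .ofNat 38, .negSucc 39, .ofNat 0⟩
  ⟨.negSucc 77, .ofNat 38, .ofNat 40, .ofNat 0⟩, .q ⟨.ofNat 75, .negSucc 34,
  .negSucc 39, .ofNat 0⟩ ⟨.ofNat 2816, .ofNat 2789, .negSucc 2417, .negSucc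
  3186⟩, .q ⟨.ofNat 78, .negSucc 37, .negSucc 39, .ofNat 0⟩ ⟨.ofNat 2816,
  .ofNat 2789, .negSucc 2417, .negSucc 3186⟩, .q ⟨.ofNat 75, .negSucc 34,
  .negSucc 39, .ofNat 0⟩ ⟨.ofNat 191, .negSucc 1756, .ofNat 258, .ofNat
  1308⟩, .q ⟨.ofNat 78, .negSucc 37, .negSucc 39, .ofNat 0⟩ ⟨.ofNat 191,
  .negSucc 1756, .ofNat 258, .ofNat 1308⟩, .q ⟨.ofNat 75, .negSucc 34,
  .negSucc 39, .ofNat 0⟩ ⟨.ofNat 3340, .ofNat 1147, .negSucc 520, .negSucc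
  3965⟩, .q ⟨.ofNat 78, .negSucc 37, .negSucc 39, .ofNat 0⟩ ⟨.ofNat 3340,
  .ofNat 1147, .negSucc 520, .negSucc 3965⟩],
[.q ⟨.ofNat 0, .negSucc 2, .negSucc 1, .ofNat 5⟩ ⟨.ofNat 1000, .negSucc 56,
  .negSucc 1037, .ofNat 95⟩, .q ⟨.ofNat 0, .negSucc 2, .negSucc 1, .ofNat 5⟩
  ⟨.negSucc 1785, .ofNat 3364, .negSucc 1932, .ofNat 355⟩, .q ⟨.ofNat 0,
  .negSucc 2, .negSucc 1, .ofNat 5⟩ ⟨.negSucc 2526, .negSucc 2655, .ofNat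
  2868, .ofNat 2315⟩, .q ⟨.ofNat 0, .negSucc 2, .negSucc 1, .ofNat 5⟩
  ⟨.ofNat 721, .negSucc 3954, .ofNat 1919, .ofNat 1315⟩],
[.q ⟨.negSucc 0, .ofNat 0, .ofNat 0, .ofNat 1⟩ ⟨.ofNat 3372, .negSucc 3788,
  .ofNat 1283, .negSucc 865⟩, .q ⟨.negSucc 0, .ofNat 0, .ofNat 0, .ofNat 1⟩
  ⟨.ofNat 2813, .negSucc 3176, .negSucc 2430, .ofNat 2795⟩, .q ⟨.negSucc 0,
  .ofNat 0, .ofNat 0, .ofNat 1⟩ ⟨.negSucc 1372, .ofNat 1414, .negSucc 1413,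
  .ofNat 1373⟩, .q ⟨.negSucc 0, .ofNat 0, .ofNat 0, .ofNat 1⟩ ⟨.negSucc
  1458, .ofNat 1235, .ofNat 3805, .negSucc 3580⟩],
[.q ⟨.negSucc 8, .negSucc 10, .ofNat 20, .ofNat 0⟩ ⟨.negSucc 30, .ofNat 11,
  .ofNat 20, .ofNat 0⟩, .q ⟨.ofNat 6, .ofNat 14, .negSucc 19, .ofNat 0⟩
  ⟨.negSucc 33, .ofNat 14, .ofNat 20, .ofNat 0⟩, .q ⟨.ofNat 31, .negSucc 10,
  .negSucc 19, .ofNat 0⟩ ⟨.ofNat 13541, .negSucc 9540, .ofNat 0, .negSucc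
  3999⟩, .q ⟨.ofNat 34, .negSucc 13, .negSucc 19, .ofNat 0⟩ ⟨.ofNat 13541,
  .negSucc 9540, .ofNat 0, .negSucc 3999⟩, .q ⟨.ofNat 31, .negSucc 10,
  .negSucc 19, .ofNat 0⟩ ⟨.ofNat 0, .negSucc 4302, .ofNat 315, .ofNat 3988⟩,
  .q ⟨.ofNat 34, .negSucc 13, .negSucc 19, .ofNat 0⟩ ⟨.ofNat 0, .negSucc
  4302, .ofNat 315, .ofNat 3988⟩, .q ⟨.ofNat 31, .negSucc 10, .negSucc 19,
  .ofNat 0⟩ ⟨.ofNat 904, .ofNat 962, .negSucc 796, .negSucc 1068⟩, .q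
  ⟨.ofNat 34, .negSucc 13, .negSucc 19, .ofNat 0⟩ ⟨.ofNat 904, .ofNat 962,
  .negSucc 796, .negSucc 1068⟩],
[.q ⟨.negSucc 20, .negSucc 18, .ofNat 40, .ofNat 0⟩ ⟨.negSucc 58, .ofNat 19,
  .ofNat 40, .ofNat 0⟩, .q ⟨.ofNat 19, .ofNat 21, .negSucc 39, .ofNat 0⟩
  ⟨.negSucc 60, .ofNat 21, .ofNat 40, .ofNat 0⟩, .q ⟨.ofNat 59, .negSucc 18,
  .negSucc 39, .ofNat 0⟩ ⟨.ofNat 511, .ofNat 3489, .ofNat 0, .negSucc 3999⟩,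
  .q ⟨.ofNat 61, .negSucc 20, .negSucc 39, .ofNat 0⟩ ⟨.ofNat 511, .ofNat
  3489, .ofNat 0, .negSucc 3999⟩, .q ⟨.ofNat 59, .negSucc 18, .negSucc 39,
  .ofNat 0⟩ ⟨.ofNat 790, .negSucc 3043, .negSucc 1466, .ofNat 3721⟩, .q
  ⟨.ofNat 61, .negSucc 20, .negSucc 39, .ofNat 0⟩ ⟨.ofNat 790, .negSucc
  3043, .negSucc 1466, .ofNat 3721⟩],
[.q ⟨.negSucc 20, .negSucc 18, .ofNat 40, .ofNat 0⟩ ⟨.negSucc 58, .ofNat 19,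
  .ofNat 40, .ofNat 0⟩, .q ⟨.ofNat 17, .ofNat 23, .negSucc 39, .ofNat 0⟩
  ⟨.negSucc 62, .ofNat 23, .ofNat 40, .ofNat 0⟩, .q ⟨.ofNat 59, .negSucc 18,
  .negSucc 39, .ofNat 0⟩ ⟨.ofNat 734, .ofNat 3673, .negSucc 429, .negSucc
  3976⟩, .q ⟨.ofNat 63, .negSucc 22, .negSucc 39, .ofNat 0⟩ ⟨.ofNat 734,
  .ofNat 3673, .negSucc 429, .negSucc 3976⟩, .q ⟨.ofNat 59, .negSucc 18,
  .negSucc 39, .ofNat 0⟩ ⟨.ofNat 807, .negSucc 2983, .negSucc 1521, .ofNat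
  3699⟩, .q ⟨.ofNat 63, .negSucc 22, .negSucc 39, .ofNat 0⟩ ⟨.ofNat 807,
  .negSucc 2983, .negSucc 1521, .ofNat 3699⟩],
[.q ⟨.negSucc 0, .ofNat 0, .ofNat 0, .ofNat 1⟩ ⟨.negSucc 1830, .ofNat 2176,
  .negSucc 3356, .ofNat 3012⟩, .q ⟨.negSucc 0, .ofNat 0, .ofNat 0, .ofNat 1⟩
  ⟨.negSucc 802, .ofNat 1000, .ofNat 0, .negSucc 196⟩, .q ⟨.negSucc 0,
  .ofNat 0, .ofNat 0, .ofNat 1⟩ ⟨.ofNat 1130, .negSucc 2443, .ofNat 3167,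
  .negSucc 1852⟩, .q ⟨.negSucc 0, .ofNat 0, .ofNat 0, .ofNat 1⟩ ⟨.ofNat
  1523, .negSucc 2739, .negSucc 2914, .ofNat 4132⟩],
[.q ⟨.negSucc 0, .ofNat 0, .ofNat 0, .ofNat 1⟩ ⟨.ofNat 351, .ofNat 16,
  .negSucc 3999, .ofNat 3633⟩, .q ⟨.negSucc 0, .ofNat 0, .ofNat 0, .ofNat 1⟩
  ⟨.negSucc 981, .ofNat 1145, .negSucc 682, .ofNat 520⟩, .q ⟨.negSucc 0,
  .ofNat 0, .ofNat 0, .ofNat 1⟩ ⟨.negSucc 737, .ofNat 707, .ofNat 707,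
  .negSucc 675⟩, .q ⟨.negSucc 0, .ofNat 0, .ofNat 0, .ofNat 1⟩ ⟨.ofNat 379,
  .negSucc 499, .ofNat 0, .ofNat 121⟩],
[.q ⟨.negSucc 4, .negSucc 14, .ofNat 20, .ofNat 0⟩ ⟨.negSucc 34, .ofNat 15,
  .ofNat 20, .ofNat 0⟩, .q ⟨.ofNat 2, .ofNat 18, .negSucc 19, .ofNat 0⟩
  ⟨.negSucc 37, .ofNat 18, .ofNat 20, .ofNat 0⟩, .q ⟨.ofNat 35, .negSucc 14,
  .negSucc 19, .ofNat 0⟩ ⟨.ofNat 2835, .ofNat 2741, .negSucc 2310, .negSucc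
  3264⟩, .q ⟨.ofNat 38, .negSucc 17, .negSucc 19, .ofNat 0⟩ ⟨.ofNat 2835,
  .ofNat 2741, .negSucc 2310, .negSucc 3264⟩, .q ⟨.ofNat 35, .negSucc 14,
  .negSucc 19, .ofNat 0⟩ ⟨.ofNat 832, .negSucc 1720, .negSucc 2348, .ofNat
  3238⟩, .q ⟨.ofNat 38, .negSucc 17, .negSucc 19, .ofNat 0⟩ ⟨.ofNat 832,
  .negSucc 1720, .negSucc 2348, .ofNat 3238⟩],
[.q ⟨.negSucc 0, .ofNat 0, .ofNat 0, .ofNat 1⟩ ⟨.ofNat 1956, .negSucc 3460,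
  .ofNat 2005, .negSucc 499⟩, .q ⟨.negSucc 0, .ofNat 0, .ofNat 0, .ofNat 1⟩
  ⟨.ofNat 1860, .negSucc 1852, .negSucc 3544, .ofNat 3538⟩, .q ⟨.negSucc 0,
  .ofNat 0, .ofNat 0, .ofNat 1⟩ ⟨.negSucc 2234, .ofNat 2828, .negSucc 2827,
  .ofNat 2235⟩, .q ⟨.negSucc 0, .ofNat 0, .ofNat 0, .ofNat 1⟩ ⟨.negSucc
  1741, .ofNat 1333, .ofNat 3771, .negSucc 3361⟩],
[.q ⟨.negSucc 19, .negSucc 19, .ofNat 40, .ofNat 0⟩ ⟨.negSucc 59, .ofNat 20,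
  .ofNat 40, .ofNat 0⟩, .q ⟨.ofNat 17, .ofNat 23, .negSucc 39, .ofNat 0⟩
  ⟨.negSucc 62, .ofNat 23, .ofNat 40, .ofNat 0⟩, .q ⟨.ofNat 60, .negSucc 19,
  .negSucc 39, .ofNat 0⟩ ⟨.ofNat 1579, .negSucc 318, .ofNat 2127, .negSucc
  3386⟩, .q ⟨.ofNat 63, .negSucc 22, .negSucc 39, .ofNat 0⟩ ⟨.ofNat 1579,
  .negSucc 318, .ofNat 2127, .negSucc 3386⟩, .q ⟨.ofNat 60, .negSucc 19,
  .negSucc 39, .ofNat 0⟩ ⟨.negSucc 272, .negSucc 146, .negSucc 708, .ofNat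
  1129⟩, .q ⟨.ofNat 63, .negSucc 22, .negSucc 39, .ofNat 0⟩ ⟨.negSucc 272,
  .negSucc 146, .negSucc 708, .ofNat 1129⟩],
[.q ⟨.negSucc 5, .negSucc 13, .ofNat 20, .ofNat 0⟩ ⟨.negSucc 33, .ofNat 14,
  .ofNat 20, .ofNat 0⟩, .q ⟨.ofNat 3, .ofNat 17, .negSucc 19, .ofNat 0⟩
  ⟨.negSucc 36, .ofNat 17, .ofNat 20, .ofNat 0⟩, .q ⟨.ofNat 34, .negSucc 13,
  .negSucc 19, .ofNat 0⟩ ⟨.ofNat 2375, .negSucc 239, .ofNat 1552, .negSucc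
  3686⟩, .q ⟨.ofNat 37, .negSucc 16, .negSucc 19, .ofNat 0⟩ ⟨.ofNat 2375,
  .negSucc 239, .ofNat 1552, .negSucc 3686⟩, .q ⟨.ofNat 34, .negSucc 13,
  .negSucc 19, .ofNat 0⟩ ⟨.ofNat 735, .negSucc 2869, .negSucc 1551, .ofNat
  3687⟩, .q ⟨.ofNat 37, .negSucc 16, .negSucc 19, .ofNat 0⟩ ⟨.ofNat 735,
  .negSucc 2869, .negSucc 1551, .ofNat 3687⟩, .q ⟨.ofNat 34, .negSucc 13,
  .negSucc 19, .ofNat 0⟩ ⟨.ofNat 1546, .ofNat 1253, .negSucc 1196, .negSucc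
  1601⟩, .q ⟨.ofNat 37, .negSucc 16, .negSucc 19, .ofNat 0⟩ ⟨.ofNat 1546,
  .ofNat 1253, .negSucc 1196, .negSucc 1601⟩],
[.l ⟨.ofNat 0, .ofNat 20, .ofNat 0, .negSucc 14⟩ ⟨.ofNat 0, .ofNat 20,
  .ofNat 0, .ofNat 15⟩, .l ⟨.ofNat 0, .negSucc 19, .ofNat 0, .ofNat 18⟩
  ⟨.ofNat 0, .ofNat 20, .ofNat 0, .ofNat 18⟩, .l ⟨.ofNat 0, .ofNat 20,
  .ofNat 0, .negSucc 14⟩ ⟨.ofNat 0, .ofNat 1201, .ofNat 1599, .ofNat 2051⟩,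
  .l ⟨.ofNat 0, .ofNat 20, .ofNat 0, .negSucc 17⟩ ⟨.ofNat 0, .ofNat 1201,
  .ofNat 1599, .ofNat 2051⟩, .l ⟨.ofNat 0, .ofNat 20, .ofNat 0, .negSucc 14⟩
  ⟨.ofNat 0, .negSucc 231, .negSucc 3992, .negSucc 3466⟩, .l ⟨.ofNat 0,
  .ofNat 20, .ofNat 0, .negSucc 17⟩ ⟨.ofNat 0, .negSucc 231, .negSucc 3992,
  .negSucc 3466⟩],
[.q ⟨.negSucc 0, .ofNat 0, .ofNat 0, .ofNat 1⟩ ⟨.negSucc 4186, .ofNat 3964,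
  .ofNat 539, .negSucc 315⟩, .q ⟨.negSucc 0, .ofNat 0, .ofNat 0, .ofNat 1⟩
  ⟨.negSucc 525, .ofNat 196, .ofNat 3995, .negSucc 3664⟩, .q ⟨.negSucc 0,
  .ofNat 0, .ofNat 0, .ofNat 1⟩ ⟨.ofNat 1695, .negSucc 1893, .ofNat 643,
  .negSucc 443⟩, .q ⟨.negSucc 0, .ofNat 0, .ofNat 0, .ofNat 1⟩ ⟨.ofNat 1593,
  .negSucc 1833, .negSucc 3554, .ofNat 3796⟩, .q ⟨.negSucc 0, .ofNat 0,
  .ofNat 0, .ofNat 1⟩ ⟨.negSucc 1508, .ofNat 1414, .negSucc 1413, .ofNat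
  1509⟩],
[.q ⟨.negSucc 2, .negSucc 36, .ofNat 40, .ofNat 0⟩ ⟨.negSucc 76, .ofNat 37,
  .ofNat 40, .ofNat 0⟩, .q ⟨.negSucc 0, .ofNat 41, .negSucc 39, .ofNat 0⟩
  ⟨.negSucc 80, .ofNat 41, .ofNat 40, .ofNat 0⟩, .q ⟨.ofNat 77, .negSucc 36,
  .negSucc 39, .ofNat 0⟩ ⟨.ofNat 3323, .ofNat 677, .ofNat 0, .negSucc 3999⟩,
  .q ⟨.ofNat 81, .negSucc 40, .negSucc 39, .ofNat 0⟩ ⟨.ofNat 3323, .ofNat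
  677, .ofNat 0, .negSucc 3999⟩, .q ⟨.ofNat 77, .negSucc 36, .negSucc 39,
  .ofNat 0⟩ ⟨.ofNat 749, .negSucc 4748, .ofNat 0, .ofNat 4000⟩, .q ⟨.ofNat
  81, .negSucc 40, .negSucc 39, .ofNat 0⟩ ⟨.ofNat 749, .negSucc 4748, .ofNat
  0, .ofNat 4000⟩],
[.q ⟨.negSucc 0, .ofNat 0, .ofNat 0, .ofNat 1⟩ ⟨.negSucc 1646, .ofNat 1129,
  .ofNat 3837, .negSucc 3318⟩, .q ⟨.negSucc 0, .ofNat 0, .ofNat 0, .ofNat 1⟩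
  ⟨.ofNat 1181, .negSucc 2603, .ofNat 3036, .negSucc 1612⟩, .q ⟨.negSucc 0,
  .ofNat 0, .ofNat 0, .ofNat 1⟩ ⟨.ofNat 1118, .negSucc 1058, .negSucc 3856,
  .ofNat 3798⟩, .q ⟨.negSucc 0, .ofNat 0, .ofNat 0, .ofNat 1⟩ ⟨.negSucc
  1743, .ofNat 2453, .negSucc 3159, .ofNat 2451⟩],
[.q ⟨.negSucc 0, .ofNat 0, .ofNat 0, .ofNat 1⟩ ⟨.ofNat 2114, .negSucc 2338,
  .negSucc 3243, .ofNat 3469⟩, .q ⟨.negSucc 0, .ofNat 0, .ofNat 0, .ofNat 1⟩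
  ⟨.negSucc 1508, .ofNat 1414, .negSucc 1413, .ofNat 1509⟩, .q ⟨.negSucc 0,
  .ofNat 0, .ofNat 0, .ofNat 1⟩ ⟨.negSucc 3953, .ofNat 3713, .ofNat 1488,
  .negSucc 1246⟩, .q ⟨.negSucc 0, .ofNat 0, .ofNat 0, .ofNat 1⟩ ⟨.negSucc
  1315, .ofNat 1153, .ofNat 1634, .negSucc 1470⟩, .q ⟨.negSucc 0, .ofNat 0,
  .ofNat 0, .ofNat 1⟩ ⟨.ofNat 2505, .negSucc 2827, .ofNat 2828, .negSucc
  2504⟩],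
[.q ⟨.negSucc 1, .negSucc 37, .ofNat 40, .ofNat 0⟩ ⟨.negSucc 77, .ofNat 38,
  .ofNat 40, .ofNat 0⟩, .q ⟨.negSucc 0, .ofNat 41, .negSucc 39, .ofNat 0⟩
  ⟨.negSucc 80, .ofNat 41, .ofNat 40, .ofNat 0⟩, .q ⟨.ofNat 78, .negSucc 37,
  .negSucc 39, .ofNat 0⟩ ⟨.ofNat 3971, .negSucc 692, .ofNat 666, .negSucc
  3943⟩, .q ⟨.ofNat 81, .negSucc 40, .negSucc 39, .ofNat 0⟩ ⟨.ofNat 3971,
  .negSucc 692, .ofNat 666, .negSucc 3943⟩, .q ⟨.ofNat 78, .negSucc 37,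
  .negSucc 39, .ofNat 0⟩ ⟨.negSucc 1830, .ofNat 192, .negSucc 332, .ofNat
  1972⟩, .q ⟨.ofNat 81, .negSucc 40, .negSucc 39, .ofNat 0⟩ ⟨.negSucc 1830,
  .ofNat 192, .negSucc 332, .ofNat 1972⟩, .q ⟨.ofNat 78, .negSucc 37,
  .negSucc 39, .ofNat 0⟩ ⟨.negSucc 310, .negSucc 394, .ofNat 373, .ofNat
  333⟩, .q ⟨.ofNat 81, .negSucc 40, .negSucc 39, .ofNat 0⟩ ⟨.negSucc 310,
  .negSucc 394, .ofNat 373, .ofNat 333⟩],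
[.q ⟨.negSucc 0, .ofNat 0, .ofNat 0, .ofNat 1⟩ ⟨.negSucc 206, .ofNat 0,
  .negSucc 3999, .ofNat 4207⟩, .q ⟨.negSucc 0, .ofNat 0, .ofNat 0, .ofNat 1⟩
  ⟨.negSucc 4060, .ofNat 4000, .ofNat 0, .ofNat 61⟩, .q ⟨.negSucc 0, .ofNat
  0, .ofNat 0, .ofNat 1⟩ ⟨.negSucc 1784, .ofNat 1600, .ofNat 3666, .negSucc
  3480⟩, .q ⟨.negSucc 0, .ofNat 0, .ofNat 0, .ofNat 1⟩ ⟨.ofNat 1676,
  .negSucc 1883, .ofNat 671, .negSucc 462⟩, .q ⟨.negSucc 0, .ofNat 0, .ofNat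
  0, .ofNat 1⟩ ⟨.ofNat 2507, .negSucc 2827, .negSucc 2827, .ofNat 3149⟩],
[.q ⟨.ofNat 11, .negSucc 12, .negSucc 17, .ofNat 20⟩ ⟨.ofNat 2189, .negSucc
  340, .negSucc 887, .negSucc 959⟩, .q ⟨.ofNat 11, .negSucc 12, .negSucc 17,
  .ofNat 20⟩ ⟨.negSucc 966, .ofNat 961, .negSucc 53, .ofNat 60⟩, .q ⟨.ofNat
  11, .negSucc 12, .negSucc 17, .ofNat 20⟩ ⟨.negSucc 172, .negSucc 90,
  .ofNat 124, .ofNat 140⟩, .q ⟨.ofNat 11, .negSucc 12, .negSucc 17, .ofNat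
  20⟩ ⟨.ofNat 3599, .negSucc 4076, .ofNat 318, .ofNat 160⟩],
[.q ⟨.negSucc 0, .ofNat 0, .ofNat 0, .ofNat 1⟩ ⟨.negSucc 2339, .ofNat 3103,
  .negSucc 2523, .ofNat 1761⟩, .q ⟨.negSucc 0, .ofNat 0, .ofNat 0, .ofNat 1⟩
  ⟨.negSucc 4508, .ofNat 3520, .ofNat 1901, .negSucc 911⟩, .q ⟨.negSucc 0,
  .ofNat 0, .ofNat 0, .ofNat 1⟩ ⟨.ofNat 1963, .negSucc 3218, .ofNat 2374,
  .negSucc 1117⟩, .q ⟨.negSucc 0, .ofNat 0, .ofNat 0, .ofNat 1⟩ ⟨.ofNat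
  1261, .negSucc 2398, .negSucc 3200, .ofNat 4339⟩],
[.q ⟨.negSucc 0, .ofNat 0, .ofNat 0, .ofNat 1⟩ ⟨.negSucc 2318, .ofNat 2828,
  .negSucc 2827, .ofNat 2319⟩, .q ⟨.negSucc 0, .ofNat 0, .ofNat 0, .ofNat 1⟩
  ⟨.negSucc 3248, .ofNat 4000, .ofNat 0, .negSucc 750⟩, .q ⟨.negSucc 0,
  .ofNat 0, .ofNat 0, .ofNat 1⟩ ⟨.ofNat 1341, .negSucc 2827, .ofNat 2828,
  .negSucc 1340⟩, .q ⟨.negSucc 0, .ofNat 0, .ofNat 0, .ofNat 1⟩ ⟨.ofNat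
  2557, .negSucc 3862, .negSucc 1038, .ofNat 2345⟩],
[.q ⟨.negSucc 0, .ofNat 0, .ofNat 0, .ofNat 1⟩ ⟨.ofNat 667, .negSucc 902,
  .negSucc 3896, .ofNat 4133⟩, .q ⟨.negSucc 0, .ofNat 0, .ofNat 0, .ofNat 1⟩
  ⟨.negSucc 4004, .ofNat 3991, .ofNat 264, .negSucc 249⟩, .q ⟨.negSucc 0,
  .ofNat 0, .ofNat 0, .ofNat 1⟩ ⟨.ofNat 799, .negSucc 1030, .ofNat 3865,
  .negSucc 3632⟩, .q ⟨.negSucc 0, .ofNat 0, .ofNat 0, .ofNat 1⟩ ⟨.ofNat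
  1772, .negSucc 1978, .ofNat 290, .negSucc 82⟩],
[.l ⟨.ofNat 0, .ofNat 3718, .ofNat 1477, .ofNat 2716⟩ ⟨.ofNat 0, .ofNat 0,
  .ofNat 0, .ofNat 1⟩, .l ⟨.ofNat 0, .negSucc 1999, .ofNat 0, .negSucc 962⟩
  ⟨.ofNat 0, .ofNat 0, .ofNat 0, .ofNat 1⟩, .l ⟨.ofNat 0, .ofNat 0, .negSucc
  3999, .ofNat 791⟩ ⟨.ofNat 0, .ofNat 0, .ofNat 0, .ofNat 1⟩, .l ⟨.ofNat 0,
  .ofNat 2139, .negSucc 3379, .ofNat 2060⟩ ⟨.ofNat 0, .ofNat 0, .ofNat 0,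
  .ofNat 1⟩],
[.l ⟨.ofNat 0, .ofNat 20, .ofNat 0, .negSucc 16⟩ ⟨.ofNat 0, .ofNat 20,
  .ofNat 0, .ofNat 17⟩, .l ⟨.ofNat 0, .negSucc 19, .ofNat 0, .ofNat 20⟩
  ⟨.ofNat 0, .ofNat 20, .ofNat 0, .ofNat 20⟩, .l ⟨.ofNat 0, .ofNat 20,
  .ofNat 0, .negSucc 16⟩ ⟨.ofNat 0, .ofNat 0, .ofNat 4000, .ofNat 2101⟩, .l
  ⟨.ofNat 0, .ofNat 20, .ofNat 0, .negSucc 19⟩ ⟨.ofNat 0, .ofNat 0, .ofNat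
  4000, .ofNat 2101⟩, .l ⟨.ofNat 0, .ofNat 20, .ofNat 0, .negSucc 16⟩
  ⟨.ofNat 0, .ofNat 0, .negSucc 799, .negSucc 662⟩, .l ⟨.ofNat 0, .ofNat 20,
  .ofNat 0, .negSucc 19⟩ ⟨.ofNat 0, .ofNat 0, .negSucc 799, .negSucc 662⟩],
[.q ⟨.negSucc 0, .ofNat 0, .ofNat 0, .ofNat 1⟩ ⟨.negSucc 2142, .ofNat 2715,
  .negSucc 2937, .ofNat 2366⟩, .q ⟨.negSucc 0, .ofNat 0, .ofNat 0, .ofNat 1⟩
  ⟨.negSucc 1622, .ofNat 1994, .negSucc 153, .negSucc 216⟩, .q ⟨.negSucc 0,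
  .ofNat 0, .ofNat 0, .ofNat 1⟩ ⟨.ofNat 1751, .negSucc 3152, .ofNat 2462,
  .negSucc 1059⟩, .q ⟨.negSucc 0, .ofNat 0, .ofNat 0, .ofNat 1⟩ ⟨.ofNat
  2689, .negSucc 3999, .ofNat 0, .ofNat 1311⟩],
[.l ⟨.ofNat 0, .negSucc 3541, .ofNat 1859, .negSucc 1016⟩ ⟨.ofNat 0, .ofNat
  0, .ofNat 0, .ofNat 1⟩, .l ⟨.ofNat 0, .ofNat 0, .negSucc 3999, .ofNat 319⟩
  ⟨.ofNat 0, .ofNat 0, .ofNat 0, .ofNat 1⟩, .l ⟨.ofNat 0, .ofNat 2631,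
  .negSucc 3012, .ofNat 2435⟩ ⟨.ofNat 0, .ofNat 0, .ofNat 0, .ofNat 1⟩, .l
  ⟨.ofNat 0, .ofNat 2828, .ofNat 2828, .ofNat 2591⟩ ⟨.ofNat 0, .ofNat 0,
  .ofNat 0, .ofNat 1⟩],
[.q ⟨.negSucc 4, .negSucc 34, .ofNat 40, .ofNat 0⟩ ⟨.negSucc 74, .ofNat 35,
  .ofNat 40, .ofNat 0⟩, .q ⟨.ofNat 2, .ofNat 38, .negSucc 39, .ofNat 0⟩
  ⟨.negSucc 77, .ofNat 38, .ofNat 40, .ofNat 0⟩, .q ⟨.ofNat 75, .negSucc 34,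
  .negSucc 39, .ofNat 0⟩ ⟨.ofNat 4060, .ofNat 185, .negSucc 252, .negSucc
  3991⟩, .q ⟨.ofNat 78, .negSucc 37, .negSucc 39, .ofNat 0⟩ ⟨.ofNat 4060,
  .ofNat 185, .negSucc 252, .negSucc 3991⟩, .q ⟨.ofNat 75, .negSucc 34,
  .negSucc 39, .ofNat 0⟩ ⟨.negSucc 485, .negSucc 292, .ofNat 282, .ofNat
  497⟩, .q ⟨.ofNat 78, .negSucc 37, .negSucc 39, .ofNat 0⟩ ⟨.negSucc 485,
  .negSucc 292, .ofNat 282, .ofNat 497⟩, .q ⟨.ofNat 75, .negSucc 34,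
  .negSucc 39, .ofNat 0⟩ ⟨.negSucc 3281, .ofNat 1351, .negSucc 1692, .ofNat
  3624⟩, .q ⟨.ofNat 78, .negSucc 37, .negSucc 39, .ofNat 0⟩ ⟨.negSucc 3281,
  .ofNat 1351, .negSucc 1692, .ofNat 3624⟩],
[.q ⟨.negSucc 0, .ofNat 1, .ofNat 0, .ofNat 0⟩ ⟨.negSucc 130, .negSucc 28,
  .ofNat 160, .ofNat 0⟩, .q ⟨.negSucc 0, .ofNat 1, .ofNat 0, .ofNat 0⟩
  ⟨.ofNat 961, .ofNat 959, .negSucc 1919, .ofNat 0⟩, .l ⟨.ofNat 0, .ofNat 0,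
  .negSucc 639, .ofNat 23⟩ ⟨.ofNat 0, .ofNat 0, .ofNat 0, .ofNat 1⟩, .l
  ⟨.ofNat 0, .ofNat 0, .ofNat 1920, .ofNat 463⟩ ⟨.ofNat 0, .ofNat 0, .ofNat
  0, .ofNat 1⟩],
[.q ⟨.negSucc 2, .negSucc 36, .ofNat 40, .ofNat 0⟩ ⟨.negSucc 76, .ofNat 37,
  .ofNat 40, .ofNat 0⟩, .q ⟨.negSucc 0, .ofNat 41, .negSucc 39, .ofNat 0⟩
  ⟨.negSucc 80, .ofNat 41, .ofNat 40, .ofNat 0⟩, .q ⟨.ofNat 77, .negSucc 36,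
  .negSucc 39, .ofNat 0⟩ ⟨.ofNat 3284, .ofNat 1536, .negSucc 928, .negSucc
  3890⟩, .q ⟨.ofNat 81, .negSucc 40, .negSucc 39, .ofNat 0⟩ ⟨.ofNat 3284,
  .ofNat 1536, .negSucc 928, .negSucc 3890⟩, .q ⟨.ofNat 77, .negSucc 36,
  .negSucc 39, .ofNat 0⟩ ⟨.ofNat 771, .negSucc 3662, .negSucc 984, .ofNat
  3877⟩, .q ⟨.ofNat 81, .negSucc 40, .negSucc 39, .ofNat 0⟩ ⟨.ofNat 771,
  .negSucc 3662, .negSucc 984, .ofNat 3877⟩, .q ⟨.ofNat 77, .negSucc 36,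
  .negSucc 39, .ofNat 0⟩ ⟨.ofNat 1297, .negSucc 3468, .ofNat 3698, .negSucc
  1525⟩, .q ⟨.ofNat 81, .negSucc 40, .negSucc 39, .ofNat 0⟩ ⟨.ofNat 1297,
  .negSucc 3468, .ofNat 3698, .negSucc 1525⟩],
[.q ⟨.negSucc 2, .negSucc 16, .ofNat 20, .ofNat 0⟩ ⟨.negSucc 36, .ofNat 17,
  .ofNat 20, .ofNat 0⟩, .q ⟨.ofNat 0, .ofNat 20, .negSucc 19, .ofNat 0⟩
  ⟨.negSucc 39, .ofNat 20, .ofNat 20, .ofNat 0⟩, .q ⟨.ofNat 37, .negSucc 16,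
  .negSucc 19, .ofNat 0⟩ ⟨.ofNat 4041, .negSucc 40, .ofNat 0, .negSucc
  3999⟩, .q ⟨.ofNat 40, .negSucc 19, .negSucc 19, .ofNat 0⟩ ⟨.ofNat 4041,
  .negSucc 40, .ofNat 0, .negSucc 3999⟩, .q ⟨.ofNat 37, .negSucc 16,
  .negSucc 19, .ofNat 0⟩ ⟨.negSucc 3700, .negSucc 1190, .ofNat 1026, .ofNat
  3866⟩, .q ⟨.ofNat 40, .negSucc 19, .negSucc 19, .ofNat 0⟩ ⟨.negSucc 3700,
  .negSucc 1190, .ofNat 1026, .ofNat 3866⟩, .q ⟨.ofNat 37, .negSucc 16,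
  .negSucc 19, .ofNat 0⟩ ⟨.ofNat 2802, .ofNat 2797, .negSucc 3202, .negSucc
  2395⟩, .q ⟨.ofNat 40, .negSucc 19, .negSucc 19, .ofNat 0⟩ ⟨.ofNat 2802,
  .ofNat 2797, .negSucc 3202, .negSucc 2395⟩, .q ⟨.ofNat 37, .negSucc 16,
  .negSucc 19, .ofNat 0⟩ ⟨.negSucc 1068, .ofNat 501, .negSucc 614, .ofNat
  1183⟩, .q ⟨.ofNat 40, .negSucc 19, .negSucc 19, .ofNat 0⟩ ⟨.negSucc 1068,
  .ofNat 501, .negSucc 614, .ofNat 1183⟩],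
[.q ⟨.negSucc 46, .ofNat 44, .negSucc 20, .ofNat 24⟩ ⟨.negSucc 28795, .ofNat
  15600, .ofNat 18860, .negSucc 5663⟩, .q ⟨.negSucc 46, .ofNat 44, .negSucc
  20, .ofNat 24⟩ ⟨.negSucc 19314, .ofNat 348, .ofNat 5215, .ofNat 13752⟩, .q
  ⟨.negSucc 46, .ofNat 44, .negSucc 20, .ofNat 24⟩ ⟨.negSucc 6430, .negSucc
  15395, .negSucc 10452, .ofNat 32280⟩, .q ⟨.negSucc 46, .ofNat 44, .negSucc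
  20, .ofNat 24⟩ ⟨.ofNat 20351, .negSucc 2507, .negSucc 7450, .negSucc
  10391⟩],
[.q ⟨.ofNat 11, .negSucc 12, .negSucc 17, .ofNat 20⟩ ⟨.ofNat 4821, .negSucc
  2026, .negSucc 1293, .negSucc 1499⟩, .q ⟨.ofNat 11, .negSucc 12, .negSucc
  17, .ofNat 20⟩ ⟨.ofNat 1781, .ofNat 2272, .negSucc 2152, .negSucc 1899⟩,
  .q ⟨.ofNat 11, .negSucc 12, .negSucc 17, .ofNat 20⟩ ⟨.negSucc 4312, .ofNat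
  3501, .ofNat 152, .ofNat 660⟩, .q ⟨.ofNat 11, .negSucc 12, .negSucc 17,
  .ofNat 20⟩ ⟨.negSucc 757, .negSucc 3008, .ofNat 1887, .ofNat 1880⟩],
[.q ⟨.negSucc 10, .negSucc 8, .ofNat 20, .ofNat 0⟩ ⟨.negSucc 28, .ofNat 9,
  .ofNat 20, .ofNat 0⟩, .q ⟨.ofNat 8, .ofNat 12, .negSucc 19, .ofNat 0⟩
  ⟨.negSucc 31, .ofNat 12, .ofNat 20, .ofNat 0⟩, .q ⟨.ofNat 29, .negSucc 8,
  .negSucc 19, .ofNat 0⟩ ⟨.ofNat 2029, .ofNat 1971, .ofNat 0, .negSucc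
  3999⟩, .q ⟨.ofNat 32, .negSucc 11, .negSucc 19, .ofNat 0⟩ ⟨.ofNat 2029,
  .ofNat 1971, .ofNat 0, .negSucc 3999⟩, .q ⟨.ofNat 29, .negSucc 8, .negSucc
  19, .ofNat 0⟩ ⟨.negSucc 1037, .negSucc 1390, .negSucc 1339, .ofNat 3769⟩,
  .q ⟨.ofNat 32, .negSucc 11, .negSucc 19, .ofNat 0⟩ ⟨.negSucc 1037,
  .negSucc 1390, .negSucc 1339, .ofNat 3769⟩, .q ⟨.ofNat 29, .negSucc 8,
  .negSucc 19, .ofNat 0⟩ ⟨.ofNat 2685, .ofNat 2705, .negSucc 3553, .negSucc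
  1835⟩, .q ⟨.ofNat 32, .negSucc 11, .negSucc 19, .ofNat 0⟩ ⟨.ofNat 2685,
  .ofNat 2705, .negSucc 3553, .negSucc 1835⟩],
[.q ⟨.negSucc 8, .negSucc 70, .ofNat 80, .ofNat 0⟩ ⟨.negSucc 150, .ofNat 71,
  .ofNat 80, .ofNat 0⟩, .q ⟨.ofNat 6, .ofNat 74, .negSucc 79, .ofNat 0⟩
  ⟨.negSucc 153, .ofNat 74, .ofNat 80, .ofNat 0⟩, .q ⟨.ofNat 151, .negSucc
  70, .negSucc 79, .ofNat 0⟩ ⟨.ofNat 4067, .ofNat 205, .negSucc 281,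
  .negSucc 3989⟩, .q ⟨.ofNat 154, .negSucc 73, .negSucc 79, .ofNat 0⟩
  ⟨.ofNat 4067, .ofNat 205, .negSucc 281, .negSucc 3989⟩, .q ⟨.ofNat 151,
  .negSucc 70, .negSucc 79, .ofNat 0⟩ ⟨.negSucc 1917, .negSucc 217, .ofNat
  141, .ofNat 1995⟩, .q ⟨.ofNat 154, .negSucc 73, .negSucc 79, .ofNat 0⟩
  ⟨.negSucc 1917, .negSucc 217, .ofNat 141, .ofNat 1995⟩],
[.q ⟨.negSucc 0, .ofNat 1, .ofNat 0, .ofNat 0⟩ ⟨.negSucc 1458, .negSucc 460,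
  .ofNat 1920, .ofNat 0⟩, .q ⟨.negSucc 0, .ofNat 1, .ofNat 0, .ofNat 0⟩
  ⟨.ofNat 961, .ofNat 959, .negSucc 1919, .ofNat 0⟩, .l ⟨.ofNat 0, .ofNat 0,
  .negSucc 639, .ofNat 33⟩ ⟨.ofNat 0, .ofNat 0, .ofNat 0, .ofNat 1⟩, .l
  ⟨.ofNat 0, .ofNat 0, .ofNat 1920, .ofNat 1019⟩ ⟨.ofNat 0, .ofNat 0, .ofNat
  0, .ofNat 1⟩],
[.l ⟨.ofNat 0, .negSucc 3730, .negSucc 1440, .negSucc 42⟩ ⟨.ofNat 0, .ofNat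
  0, .ofNat 0, .ofNat 1⟩, .l ⟨.ofNat 0, .ofNat 2295, .negSucc 3275, .negSucc
  151⟩ ⟨.ofNat 0, .ofNat 0, .ofNat 0, .ofNat 1⟩, .l ⟨.ofNat 0, .ofNat 1337,
  .ofNat 3770, .ofNat 2888⟩ ⟨.ofNat 0, .ofNat 0, .ofNat 0, .ofNat 1⟩, .l
  ⟨.ofNat 0, .negSucc 2858, .ofNat 2797, .ofNat 350⟩ ⟨.ofNat 0, .ofNat 0,
  .ofNat 0, .ofNat 1⟩],
[.q ⟨.negSucc 0, .ofNat 0, .ofNat 0, .ofNat 1⟩ ⟨.ofNat 1341, .negSucc 2827,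
  .ofNat 2828, .negSucc 1340⟩, .q ⟨.negSucc 0, .ofNat 0, .ofNat 0, .ofNat 1⟩
  ⟨.ofNat 975, .negSucc 729, .negSucc 3932, .ofNat 3688⟩, .q ⟨.negSucc 0,
  .ofNat 0, .ofNat 0, .ofNat 1⟩ ⟨.negSucc 3284, .ofNat 3748, .negSucc 1396,
  .ofNat 934⟩, .q ⟨.negSucc 0, .ofNat 0, .ofNat 0, .ofNat 1⟩ ⟨.negSucc 3496,
  .ofNat 3501, .ofNat 1934, .negSucc 1937⟩],
[.l ⟨.ofNat 0, .ofNat 40, .ofNat 0, .negSucc 36⟩ ⟨.ofNat 0, .ofNat 40,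
  .ofNat 0, .ofNat 37⟩, .l ⟨.ofNat 0, .negSucc 39, .ofNat 0, .ofNat 41⟩
  ⟨.ofNat 0, .ofNat 40, .ofNat 0, .ofNat 41⟩, .l ⟨.ofNat 0, .ofNat 40,
  .ofNat 0, .negSucc 36⟩ ⟨.ofNat 0, .ofNat 0, .ofNat 2000, .ofNat 1763⟩, .l
  ⟨.ofNat 0, .ofNat 40, .ofNat 0, .negSucc 40⟩ ⟨.ofNat 0, .ofNat 0, .ofNat
  2000, .ofNat 1763⟩, .l ⟨.ofNat 0, .ofNat 40, .ofNat 0, .negSucc 36⟩
  ⟨.ofNat 0, .ofNat 0, .negSucc 3999, .negSucc 4310⟩, .l ⟨.ofNat 0, .ofNat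
  40, .ofNat 0, .negSucc 40⟩ ⟨.ofNat 0, .ofNat 0, .negSucc 3999, .negSucc
  4310⟩],
[.l ⟨.ofNat 0, .ofNat 20, .ofNat 0, .negSucc 16⟩ ⟨.ofNat 0, .ofNat 20,
  .ofNat 0, .ofNat 17⟩, .l ⟨.ofNat 0, .negSucc 19, .ofNat 0, .ofNat 19⟩
  ⟨.ofNat 0, .ofNat 20, .ofNat 0, .ofNat 19⟩, .l ⟨.ofNat 0, .ofNat 20,
  .ofNat 0, .negSucc 16⟩ ⟨.ofNat 0, .ofNat 0, .ofNat 200, .negSucc 416⟩, .l
  ⟨.ofNat 0, .ofNat 20, .ofNat 0, .negSucc 18⟩ ⟨.ofNat 0, .ofNat 0, .ofNat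
  200, .negSucc 416⟩, .l ⟨.ofNat 0, .ofNat 20, .ofNat 0, .negSucc 16⟩
  ⟨.ofNat 0, .ofNat 5, .negSucc 1999, .negSucc 2121⟩, .l ⟨.ofNat 0, .ofNat
  20, .ofNat 0, .negSucc 18⟩ ⟨.ofNat 0, .ofNat 5, .negSucc 1999, .negSucc
  2121⟩, .l ⟨.ofNat 0, .ofNat 20, .ofNat 0, .negSucc 16⟩ ⟨.ofNat 0, .ofNat
  1453, .ofNat 3727, .ofNat 4639⟩, .l ⟨.ofNat 0, .ofNat 20, .ofNat 0,
  .negSucc 18⟩ ⟨.ofNat 0, .ofNat 1453, .ofNat 3727, .ofNat 4639⟩],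
[.l ⟨.ofNat 0, .ofNat 10, .ofNat 0, .negSucc 8⟩ ⟨.ofNat 0, .ofNat 10, .ofNat
  0, .ofNat 9⟩, .l ⟨.ofNat 0, .negSucc 9, .ofNat 0, .ofNat 10⟩ ⟨.ofNat 0,
  .ofNat 10, .ofNat 0, .ofNat 10⟩, .l ⟨.ofNat 0, .ofNat 10, .ofNat 0,
  .negSucc 8⟩ ⟨.ofNat 0, .ofNat 0, .ofNat 1000, .ofNat 483⟩, .l ⟨.ofNat 0,
  .ofNat 10, .ofNat 0, .negSucc 9⟩ ⟨.ofNat 0, .ofNat 0, .ofNat 1000, .ofNat
  483⟩, .l ⟨.ofNat 0, .ofNat 10, .ofNat 0, .negSucc 8⟩ ⟨.ofNat 0, .ofNat 0,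
  .negSucc 799, .negSucc 662⟩, .l ⟨.ofNat 0, .ofNat 10, .ofNat 0, .negSucc
  9⟩ ⟨.ofNat 0, .ofNat 0, .negSucc 799, .negSucc 662⟩, .l ⟨.ofNat 0, .ofNat
  10, .ofNat 0, .negSucc 8⟩ ⟨.ofNat 0, .ofNat 2434, .ofNat 3175, .ofNat
  3847⟩, .l ⟨.ofNat 0, .ofNat 10, .ofNat 0, .negSucc 9⟩ ⟨.ofNat 0, .ofNat
  2434, .ofNat 3175, .ofNat 3847⟩],
[.q ⟨.negSucc 0, .ofNat 0, .ofNat 0, .ofNat 1⟩ ⟨.ofNat 3262, .negSucc 3664,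
  .ofNat 1603, .negSucc 1199⟩, .q ⟨.negSucc 0, .ofNat 0, .ofNat 0, .ofNat 1⟩
  ⟨.ofNat 1661, .negSucc 1867, .negSucc 713, .ofNat 921⟩, .q ⟨.negSucc 0,
  .ofNat 0, .ofNat 0, .ofNat 1⟩ ⟨.negSucc 62, .negSucc 28, .negSucc 1999,
  .ofNat 2092⟩, .q ⟨.negSucc 0, .ofNat 0, .ofNat 0, .ofNat 1⟩ ⟨.negSucc
  1960, .ofNat 1941, .negSucc 480, .ofNat 501⟩, .q ⟨.negSucc 0, .ofNat 0,
  .ofNat 0, .ofNat 1⟩ ⟨.ofNat 327, .negSucc 722, .ofNat 3934, .negSucc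
  3537⟩],
[.q ⟨.ofNat 11, .negSucc 12, .negSucc 17, .ofNat 20⟩ ⟨.negSucc 943, .ofNat
  359, .ofNat 245, .ofNat 340⟩, .q ⟨.ofNat 11, .negSucc 12, .negSucc 17,
  .ofNat 20⟩ ⟨.ofNat 3115, .negSucc 4082, .ofNat 668, .ofNat 300⟩, .q
  ⟨.ofNat 11, .negSucc 12, .negSucc 17, .ofNat 20⟩ ⟨.ofNat 2350, .negSucc
  762, .negSucc 726, .negSucc 859⟩, .q ⟨.ofNat 11, .negSucc 12, .negSucc 17,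
  .ofNat 20⟩ ⟨.negSucc 3727, .ofNat 3867, .negSucc 338, .ofNat 200⟩],
[.q ⟨.negSucc 5, .negSucc 33, .ofNat 40, .ofNat 0⟩ ⟨.negSucc 73, .ofNat 34,
  .ofNat 40, .ofNat 0⟩, .q ⟨.ofNat 3, .ofNat 37, .negSucc 39, .ofNat 0⟩
  ⟨.negSucc 76, .ofNat 37, .ofNat 40, .ofNat 0⟩, .q ⟨.ofNat 74, .negSucc 33,
  .negSucc 39, .ofNat 0⟩ ⟨.ofNat 3409, .negSucc 1702, .ofNat 1844, .negSucc
  3549⟩, .q ⟨.ofNat 77, .negSucc 36, .negSucc 39, .ofNat 0⟩ ⟨.ofNat 3409,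
  .negSucc 1702, .ofNat 1844, .negSucc 3549⟩, .q ⟨.ofNat 74, .negSucc 33,
  .negSucc 39, .ofNat 0⟩ ⟨.negSucc 3001, .ofNat 1774, .negSucc 2146, .ofNat
  3375⟩, .q ⟨.ofNat 77, .negSucc 36, .negSucc 39, .ofNat 0⟩ ⟨.negSucc 3001,
  .ofNat 1774, .negSucc 2146, .ofNat 3375⟩, .q ⟨.ofNat 74, .negSucc 33,
  .negSucc 39, .ofNat 0⟩ ⟨.ofNat 4059, .ofNat 587, .negSucc 708, .negSucc
  3936⟩, .q ⟨.ofNat 77, .negSucc 36, .negSucc 39, .ofNat 0⟩ ⟨.ofNat 4059,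
  .ofNat 587, .negSucc 708, .negSucc 3936⟩],
[.q ⟨.negSucc 0, .ofNat 0, .ofNat 0, .ofNat 1⟩ ⟨.ofNat 2791, .negSucc 3224,
  .ofNat 2366, .negSucc 1931⟩, .q ⟨.negSucc 0, .ofNat 0, .ofNat 0, .ofNat 1⟩
  ⟨.ofNat 1324, .negSucc 1213, .negSucc 3810, .ofNat 3701⟩, .q ⟨.negSucc 0,
  .ofNat 0, .ofNat 0, .ofNat 1⟩ ⟨.negSucc 2526, .ofNat 2351, .ofNat 3237,
  .negSucc 3060⟩, .q ⟨.negSucc 0, .ofNat 0, .ofNat 0, .ofNat 1⟩ ⟨.ofNat 804,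
  .negSucc 1222, .ofNat 3808, .negSucc 3388⟩],
[.q ⟨.negSucc 0, .ofNat 0, .ofNat 0, .ofNat 1⟩ ⟨.ofNat 654, .negSucc 706,
  .negSucc 706, .ofNat 760⟩, .q ⟨.negSucc 0, .ofNat 0, .ofNat 0, .ofNat 1⟩
  ⟨.negSucc 2754, .ofNat 2584, .negSucc 3052, .ofNat 3224⟩, .q ⟨.negSucc 0,
  .ofNat 0, .ofNat 0, .ofNat 1⟩ ⟨.negSucc 4198, .ofNat 3985, .ofNat 343,
  .negSucc 128⟩, .q ⟨.negSucc 0, .ofNat 0, .ofNat 0, .ofNat 1⟩ ⟨.negSucc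
  308, .ofNat 0, .ofNat 4000, .negSucc 3690⟩, .q ⟨.negSucc 0, .ofNat 0,
  .ofNat 0, .ofNat 1⟩ ⟨.ofNat 2465, .negSucc 2827, .ofNat 2828, .negSucc
  2464⟩],
[.q ⟨.negSucc 4, .negSucc 4, .ofNat 10, .ofNat 0⟩ ⟨.negSucc 14, .ofNat 5,
  .ofNat 10, .ofNat 0⟩, .q ⟨.ofNat 3, .ofNat 7, .negSucc 9, .ofNat 0⟩
  ⟨.negSucc 16, .ofNat 7, .ofNat 10, .ofNat 0⟩, .q ⟨.ofNat 15, .negSucc 4,
  .negSucc 9, .ofNat 0⟩ ⟨.ofNat 14357, .negSucc 10026, .negSucc 344,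
  .negSucc 3984⟩, .q ⟨.ofNat 17, .negSucc 6, .negSucc 9, .ofNat 0⟩ ⟨.ofNat
  14357, .negSucc 10026, .negSucc 344, .negSucc 3984⟩, .q ⟨.ofNat 15,
  .negSucc 4, .negSucc 9, .ofNat 0⟩ ⟨.ofNat 1279, .negSucc 2144, .ofNat 69,
  .ofNat 797⟩, .q ⟨.ofNat 17, .negSucc 6, .negSucc 9, .ofNat 0⟩ ⟨.ofNat
  1279, .negSucc 2144, .ofNat 69, .ofNat 797⟩, .q ⟨.ofNat 15, .negSucc 4,
  .negSucc 9, .ofNat 0⟩ ⟨.ofNat 2957, .ofNat 1550, .negSucc 543, .negSucc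
  3962⟩, .q ⟨.ofNat 17, .negSucc 6, .negSucc 9, .ofNat 0⟩ ⟨.ofNat 2957,
  .ofNat 1550, .negSucc 543, .negSucc 3962⟩, .q ⟨.ofNat 15, .negSucc 4,
  .negSucc 9, .ofNat 0⟩ ⟨.ofNat 266, .ofNat 691, .negSucc 3265, .ofNat
  2309⟩, .q ⟨.ofNat 17, .negSucc 6, .negSucc 9, .ofNat 0⟩ ⟨.ofNat 266,
  .ofNat 691, .negSucc 3265, .ofNat 2309⟩],
[.q ⟨.negSucc 0, .ofNat 0, .ofNat 0, .ofNat 1⟩ ⟨.ofNat 49, .negSucc 96,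
  .ofNat 794, .negSucc 745⟩, .q ⟨.negSucc 0, .ofNat 0, .ofNat 0, .ofNat 1⟩
  ⟨.ofNat 3456, .negSucc 3870, .ofNat 1009, .negSucc 593⟩, .q ⟨.negSucc 0,
  .ofNat 0, .ofNat 0, .ofNat 1⟩ ⟨.ofNat 1708, .negSucc 1988, .negSucc 3469,
  .ofNat 3751⟩, .q ⟨.negSucc 0, .ofNat 0, .ofNat 0, .ofNat 1⟩ ⟨.negSucc 396,
  .ofNat 404, .negSucc 403, .ofNat 397⟩],
[.l ⟨.ofNat 0, .negSucc 3400, .ofNat 2105, .ofNat 1982⟩ ⟨.ofNat 0, .ofNat 0,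
  .ofNat 0, .ofNat 1⟩, .l ⟨.ofNat 0, .negSucc 2608, .negSucc 3031, .negSucc
  1356⟩ ⟨.ofNat 0, .ofNat 0, .ofNat 0, .ofNat 1⟩, .l ⟨.ofNat 0, .ofNat 3456,
  .ofNat 2013, .ofNat 1904⟩ ⟨.ofNat 0, .ofNat 0, .ofNat 0, .ofNat 1⟩, .l
  ⟨.ofNat 0, .ofNat 622, .ofNat 1901, .ofNat 1762⟩ ⟨.ofNat 0, .ofNat 0,
  .ofNat 0, .ofNat 1⟩],
[.q ⟨.negSucc 9, .negSucc 9, .ofNat 20, .ofNat 0⟩ ⟨.negSucc 29, .ofNat 10,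
  .ofNat 20, .ofNat 0⟩, .q ⟨.ofNat 7, .ofNat 13, .negSucc 19, .ofNat 0⟩
  ⟨.negSucc 32, .ofNat 13, .ofNat 20, .ofNat 0⟩, .q ⟨.ofNat 30, .negSucc 9,
  .negSucc 19, .ofNat 0⟩ ⟨.ofNat 2705, .ofNat 2836, .negSucc 2201, .negSucc
  3338⟩, .q ⟨.ofNat 33, .negSucc 12, .negSucc 19, .ofNat 0⟩ ⟨.ofNat 2705,
  .ofNat 2836, .negSucc 2201, .negSucc 3338⟩, .q ⟨.ofNat 30, .negSucc 9,
  .negSucc 19, .ofNat 0⟩ ⟨.negSucc 1957, .negSucc 3296, .ofNat 1580, .ofNat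
  3675⟩, .q ⟨.ofNat 33, .negSucc 12, .negSucc 19, .ofNat 0⟩ ⟨.negSucc 1957,
  .negSucc 3296, .ofNat 1580, .ofNat 3675⟩],
[.l ⟨.ofNat 0, .ofNat 20, .ofNat 0, .negSucc 15⟩ ⟨.ofNat 0, .ofNat 20,
  .ofNat 0, .ofNat 16⟩, .l ⟨.ofNat 0, .negSucc 19, .ofNat 0, .ofNat 19⟩
  ⟨.ofNat 0, .ofNat 20, .ofNat 0, .ofNat 19⟩, .l ⟨.ofNat 0, .ofNat 20,
  .ofNat 0, .negSucc 15⟩ ⟨.ofNat 0, .ofNat 0, .ofNat 4000, .negSucc 8696⟩,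
  .l ⟨.ofNat 0, .ofNat 20, .ofNat 0, .negSucc 18⟩ ⟨.ofNat 0, .ofNat 0,
  .ofNat 4000, .negSucc 8696⟩, .l ⟨.ofNat 0, .ofNat 20, .ofNat 0, .negSucc
  15⟩ ⟨.ofNat 0, .ofNat 0, .negSucc 399, .negSucc 332⟩, .l ⟨.ofNat 0, .ofNat
  20, .ofNat 0, .negSucc 18⟩ ⟨.ofNat 0, .ofNat 0, .negSucc 399, .negSucc
  332⟩, .l ⟨.ofNat 0, .ofNat 20, .ofNat 0, .negSucc 15⟩ ⟨.ofNat 0, .ofNat
  95, .ofNat 1998, .ofNat 1408⟩, .l ⟨.ofNat 0, .ofNat 20, .ofNat 0, .negSucc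
  18⟩ ⟨.ofNat 0, .ofNat 95, .ofNat 1998, .ofNat 1408⟩, .l ⟨.ofNat 0, .ofNat
  20, .ofNat 0, .negSucc 15⟩ ⟨.ofNat 0, .ofNat 721, .negSucc 3933, .negSucc
  2655⟩, .l ⟨.ofNat 0, .ofNat 20, .ofNat 0, .negSucc 18⟩ ⟨.ofNat 0, .ofNat
  721, .negSucc 3933, .negSucc 2655⟩],
[.q ⟨.negSucc 0, .ofNat 0, .ofNat 0, .ofNat 1⟩ ⟨.ofNat 890, .negSucc 611,
  .negSucc 3952, .ofNat 3675⟩, .q ⟨.negSucc 0, .ofNat 0, .ofNat 0, .ofNat 1⟩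
  ⟨.negSucc 3219, .ofNat 3672, .negSucc 1586, .ofNat 1135⟩, .q ⟨.negSucc 0,
  .ofNat 0, .ofNat 0, .ofNat 1⟩ ⟨.negSucc 420, .ofNat 404, .ofNat 404,
  .negSucc 386⟩, .q ⟨.negSucc 0, .ofNat 0, .ofNat 0, .ofNat 1⟩ ⟨.ofNat 379,
  .negSucc 499, .ofNat 0, .ofNat 121⟩],
[.l ⟨.ofNat 0, .ofNat 3994, .ofNat 225, .ofNat 1284⟩ ⟨.ofNat 0, .ofNat 0,
  .ofNat 0, .ofNat 1⟩, .l ⟨.ofNat 0, .negSucc 360, .ofNat 3984, .ofNat 3136⟩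
  ⟨.ofNat 0, .ofNat 0, .ofNat 0, .ofNat 1⟩, .l ⟨.ofNat 0, .negSucc 3948,
  .ofNat 635, .ofNat 1158⟩ ⟨.ofNat 0, .ofNat 0, .ofNat 0, .ofNat 1⟩, .l
  ⟨.ofNat 0, .negSucc 706, .negSucc 706, .negSucc 269⟩ ⟨.ofNat 0, .ofNat 0,
  .ofNat 0, .ofNat 1⟩],
[.l ⟨.ofNat 0, .ofNat 2828, .ofNat 2828, .ofNat 2591⟩ ⟨.ofNat 0, .ofNat 0,
  .ofNat 0, .ofNat 1⟩, .l ⟨.ofNat 0, .negSucc 3802, .ofNat 1241, .negSucc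
  2510⟩ ⟨.ofNat 0, .ofNat 0, .ofNat 0, .ofNat 1⟩, .l ⟨.ofNat 0, .ofNat 1868,
  .negSucc 3536, .ofNat 1811⟩ ⟨.ofNat 0, .ofNat 0, .ofNat 0, .ofNat 1⟩, .l
  ⟨.ofNat 0, .ofNat 3899, .negSucc 893, .ofNat 3486⟩ ⟨.ofNat 0, .ofNat 0,
  .ofNat 0, .ofNat 1⟩],
[.q ⟨.negSucc 0, .negSucc 8, .ofNat 10, .ofNat 0⟩ ⟨.negSucc 18, .ofNat 9,
  .ofNat 10, .ofNat 0⟩, .q ⟨.ofNat 0, .ofNat 10, .negSucc 9, .ofNat 0⟩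
  ⟨.negSucc 19, .ofNat 10, .ofNat 10, .ofNat 0⟩, .q ⟨.ofNat 19, .negSucc 8,
  .negSucc 9, .ofNat 0⟩ ⟨.ofNat 3331, .ofNat 669, .ofNat 0, .negSucc 3999⟩,
  .q ⟨.ofNat 20, .negSucc 9, .negSucc 9, .ofNat 0⟩ ⟨.ofNat 3331, .ofNat 669,
  .ofNat 0, .negSucc 3999⟩, .q ⟨.ofNat 19, .negSucc 8, .negSucc 9, .ofNat 0⟩
  ⟨.ofNat 37, .negSucc 236, .ofNat 0, .ofNat 200⟩, .q ⟨.ofNat 20, .negSucc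
  9, .negSucc 9, .ofNat 0⟩ ⟨.ofNat 37, .negSucc 236, .ofNat 0, .ofNat 200⟩,
  .q ⟨.ofNat 19, .negSucc 8, .negSucc 9, .ofNat 0⟩ ⟨.ofNat 2712, .ofNat
  2929, .negSucc 2607, .negSucc 3032⟩, .q ⟨.ofNat 20, .negSucc 9, .negSucc
  9, .ofNat 0⟩ ⟨.ofNat 2712, .ofNat 2929, .negSucc 2607, .negSucc 3032⟩],
[.q ⟨.negSucc 10, .negSucc 68, .ofNat 80, .ofNat 0⟩ ⟨.negSucc 148, .ofNat
  69, .ofNat 80, .ofNat 0⟩, .q ⟨.ofNat 7, .ofNat 73, .negSucc 79, .ofNat 0⟩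
  ⟨.negSucc 152, .ofNat 73, .ofNat 80, .ofNat 0⟩, .q ⟨.ofNat 149, .negSucc
  68, .negSucc 79, .ofNat 0⟩ ⟨.ofNat 15623, .negSucc 10645, .negSucc 1143,
  .negSucc 3832⟩, .q ⟨.ofNat 153, .negSucc 72, .negSucc 79, .ofNat 0⟩
  ⟨.ofNat 15623, .negSucc 10645, .negSucc 1143, .negSucc 3832⟩, .q ⟨.ofNat
  149, .negSucc 68, .negSucc 79, .ofNat 0⟩ ⟨.negSucc 2956, .ofNat 1798,
  .negSucc 2188, .ofNat 3348⟩, .q ⟨.ofNat 153, .negSucc 72, .negSucc 79,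
  .ofNat 0⟩ ⟨.negSucc 2956, .ofNat 1798, .negSucc 2188, .ofNat 3348⟩, .q
  ⟨.ofNat 149, .negSucc 68, .negSucc 79, .ofNat 0⟩ ⟨.ofNat 2023, .ofNat 327,
  .negSucc 387, .negSucc 1961⟩, .q ⟨.ofNat 153, .negSucc 72, .negSucc 79,
  .ofNat 0⟩ ⟨.ofNat 2023, .ofNat 327, .negSucc 387, .negSucc 1961⟩],
[.q ⟨.negSucc 2, .negSucc 16, .ofNat 20, .ofNat 0⟩ ⟨.negSucc 36, .ofNat 17,
  .ofNat 20, .ofNat 0⟩, .q ⟨.ofNat 0, .ofNat 20, .negSucc 19, .ofNat 0⟩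
  ⟨.negSucc 39, .ofNat 20, .ofNat 20, .ofNat 0⟩, .q ⟨.ofNat 37, .negSucc 16,
  .negSucc 19, .ofNat 0⟩ ⟨.ofNat 2642, .ofNat 3011, .negSucc 2716, .negSucc
  2935⟩, .q ⟨.ofNat 40, .negSucc 19, .negSucc 19, .ofNat 0⟩ ⟨.ofNat 2642,
  .ofNat 3011, .negSucc 2716, .negSucc 2935⟩, .q ⟨.ofNat 37, .negSucc 16,
  .negSucc 19, .ofNat 0⟩ ⟨.ofNat 387, .negSucc 1875, .negSucc 457, .ofNat
  1947⟩, .q ⟨.ofNat 40, .negSucc 19, .negSucc 19, .ofNat 0⟩ ⟨.ofNat 387,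
  .negSucc 1875, .negSucc 457, .ofNat 1947⟩, .q ⟨.ofNat 37, .negSucc 16,
  .negSucc 19, .ofNat 0⟩ ⟨.ofNat 408, .ofNat 25, .ofNat 63, .negSucc 495⟩,
  .q ⟨.ofNat 40, .negSucc 19, .negSucc 19, .ofNat 0⟩ ⟨.ofNat 408, .ofNat 25,
  .ofNat 63, .negSucc 495⟩],
[.q ⟨.negSucc 2, .negSucc 16, .ofNat 20, .ofNat 0⟩ ⟨.negSucc 36, .ofNat 17,
  .ofNat 20, .ofNat 0⟩, .q ⟨.ofNat 0, .ofNat 20, .negSucc 19, .ofNat 0⟩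
  ⟨.negSucc 39, .ofNat 20, .ofNat 20, .ofNat 0⟩, .q ⟨.ofNat 37, .negSucc 16,
  .negSucc 19, .ofNat 0⟩ ⟨.ofNat 3271, .negSucc 1903, .ofNat 2061, .negSucc
  3427⟩, .q ⟨.ofNat 40, .negSucc 19, .negSucc 19, .ofNat 0⟩ ⟨.ofNat 3271,
  .negSucc 1903, .ofNat 2061, .negSucc 3427⟩, .q ⟨.ofNat 37, .negSucc 16,
  .negSucc 19, .ofNat 0⟩ ⟨.negSucc 3533, .ofNat 1049, .negSucc 1297, .ofNat
  3783⟩, .q ⟨.ofNat 40, .negSucc 19, .negSucc 19, .ofNat 0⟩ ⟨.negSucc 3533,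
  .ofNat 1049, .negSucc 1297, .ofNat 3783⟩, .q ⟨.ofNat 37, .negSucc 16,
  .negSucc 19, .ofNat 0⟩ ⟨.ofNat 4063, .ofNat 521, .negSucc 634, .negSucc
  3948⟩, .q ⟨.ofNat 40, .negSucc 19, .negSucc 19, .ofNat 0⟩ ⟨.ofNat 4063,
  .ofNat 521, .negSucc 634, .negSucc 3948⟩],
[.q ⟨.negSucc 4, .negSucc 34, .ofNat 40, .ofNat 0⟩ ⟨.negSucc 74, .ofNat 35,
  .ofNat 40, .ofNat 0⟩, .q ⟨.ofNat 2, .ofNat 38, .negSucc 39, .ofNat 0⟩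
  ⟨.negSucc 77, .ofNat 38, .ofNat 40, .ofNat 0⟩, .q ⟨.ofNat 75, .negSucc 34,
  .negSucc 39, .ofNat 0⟩ ⟨.ofNat 14199, .negSucc 10198, .ofNat 0, .negSucc
  3999⟩, .q ⟨.ofNat 78, .negSucc 37, .negSucc 39, .ofNat 0⟩ ⟨.ofNat 14199,
  .negSucc 10198, .ofNat 0, .negSucc 3999⟩, .q ⟨.ofNat 75, .negSucc 34,
  .negSucc 39, .ofNat 0⟩ ⟨.negSucc 3594, .ofNat 747, .negSucc 1019, .ofNat
  3868⟩, .q ⟨.ofNat 78, .negSucc 37, .negSucc 39, .ofNat 0⟩ ⟨.negSucc 3594,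
  .ofNat 747, .negSucc 1019, .ofNat 3868⟩, .q ⟨.ofNat 75, .negSucc 34,
  .negSucc 39, .ofNat 0⟩ ⟨.ofNat 4064, .ofNat 259, .negSucc 336, .negSucc
  3985⟩, .q ⟨.ofNat 78, .negSucc 37, .negSucc 39, .ofNat 0⟩ ⟨.ofNat 4064,
  .ofNat 259, .negSucc 336, .negSucc 3985⟩],
[.q ⟨.negSucc 18, .negSucc 15, .ofNat 11, .ofNat 24⟩ ⟨.negSucc 4427, .ofNat
  3008, .ofNat 5932, .negSucc 4511⟩, .q ⟨.negSucc 18, .negSucc 15, .ofNat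
  11, .ofNat 24⟩ ⟨.negSucc 259, .negSucc 9423, .ofNat 11316, .negSucc 1631⟩,
  .q ⟨.negSucc 18, .negSucc 15, .ofNat 11, .ofNat 24⟩ ⟨.ofNat 6272, .negSucc
  1059, .negSucc 12315, .ofNat 7104⟩, .q ⟨.negSucc 18, .negSucc 15, .ofNat
  11, .ofNat 24⟩ ⟨.negSucc 2247, .ofNat 12872, .negSucc 10143, .negSucc
  479⟩],
[.q ⟨.ofNat 11, .negSucc 12, .negSucc 17, .ofNat 20⟩ ⟨.negSucc 702, .negSucc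
  350, .ofNat 514, .ofNat 540⟩, .q ⟨.ofNat 11, .negSucc 12, .negSucc 17,
  .ofNat 20⟩ ⟨.ofNat 391, .negSucc 49, .negSucc 160, .negSucc 179⟩, .q
  ⟨.ofNat 11, .negSucc 12, .negSucc 17, .ofNat 20⟩ ⟨.negSucc 3908, .ofNat
  3778, .negSucc 208, .ofNat 340⟩],
[.q ⟨.negSucc 42, .negSucc 36, .ofNat 80, .ofNat 0⟩ ⟨.negSucc 116, .ofNat
  37, .ofNat 80, .ofNat 0⟩, .q ⟨.ofNat 39, .ofNat 41, .negSucc 79, .ofNat 0⟩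
  ⟨.negSucc 120, .ofNat 41, .ofNat 80, .ofNat 0⟩, .q ⟨.ofNat 117, .negSucc
  36, .negSucc 79, .ofNat 0⟩ ⟨.ofNat 493, .ofNat 3507, .ofNat 0, .negSucc
  3999⟩, .q ⟨.ofNat 121, .negSucc 40, .negSucc 79, .ofNat 0⟩ ⟨.ofNat 493,
  .ofNat 3507, .ofNat 0, .negSucc 3999⟩, .q ⟨.ofNat 117, .negSucc 36,
  .negSucc 79, .ofNat 0⟩ ⟨.negSucc 166, .negSucc 3832, .ofNat 0, .ofNat
  4000⟩, .q ⟨.ofNat 121, .negSucc 40, .negSucc 79, .ofNat 0⟩ ⟨.negSucc 166,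
  .negSucc 3832, .ofNat 0, .ofNat 4000⟩],
[.q ⟨.negSucc 0, .ofNat 1, .ofNat 0, .ofNat 0⟩ ⟨.negSucc 420, .negSucc 58,
  .ofNat 480, .ofNat 0⟩, .q ⟨.negSucc 0, .ofNat 1, .ofNat 0, .ofNat 0⟩
  ⟨.ofNat 961, .ofNat 959, .negSucc 1919, .ofNat 0⟩, .l ⟨.ofNat 0, .ofNat 0,
  .negSucc 319, .ofNat 9⟩ ⟨.ofNat 0, .ofNat 0, .ofNat 0, .ofNat 1⟩, .l
  ⟨.ofNat 0, .ofNat 0, .ofNat 1920, .ofNat 139⟩ ⟨.ofNat 0, .ofNat 0, .ofNat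
  0, .ofNat 1⟩],
[.q ⟨.negSucc 0, .negSucc 18, .ofNat 20, .ofNat 0⟩ ⟨.negSucc 38, .ofNat 19,
  .ofNat 20, .ofNat 0⟩, .q ⟨.negSucc 0, .ofNat 21, .negSucc 19, .ofNat 0⟩
  ⟨.negSucc 40, .ofNat 21, .ofNat 20, .ofNat 0⟩, .q ⟨.ofNat 39, .negSucc 18,
  .negSucc 19, .ofNat 0⟩ ⟨.ofNat 3343, .ofNat 657, .ofNat 0, .negSucc 3999⟩,
  .q ⟨.ofNat 41, .negSucc 20, .negSucc 19, .ofNat 0⟩ ⟨.ofNat 3343, .ofNat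
  657, .ofNat 0, .negSucc 3999⟩, .q ⟨.ofNat 39, .negSucc 18, .negSucc 19,
  .ofNat 0⟩ ⟨.ofNat 2966, .negSucc 3833, .negSucc 402, .ofNat 1271⟩, .q
  ⟨.ofNat 41, .negSucc 20, .negSucc 19, .ofNat 0⟩ ⟨.ofNat 2966, .negSucc
  3833, .negSucc 402, .ofNat 1271⟩, .q ⟨.ofNat 39, .negSucc 18, .negSucc 19,
  .ofNat 0⟩ ⟨.ofNat 2415, .negSucc 2429, .ofNat 2836, .negSucc 2820⟩, .q
  ⟨.ofNat 41, .negSucc 20, .negSucc 19, .ofNat 0⟩ ⟨.ofNat 2415, .negSucc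
  2429, .ofNat 2836, .negSucc 2820⟩, .q ⟨.ofNat 39, .negSucc 18, .negSucc
  19, .ofNat 0⟩ ⟨.negSucc 345, .negSucc 770, .ofNat 648, .ofNat 469⟩, .q
  ⟨.ofNat 41, .negSucc 20, .negSucc 19, .ofNat 0⟩ ⟨.negSucc 345, .negSucc
  770, .ofNat 648, .ofNat 469⟩],
[.l ⟨.ofNat 0, .ofNat 20, .ofNat 0, .negSucc 14⟩ ⟨.ofNat 0, .ofNat 20,
  .ofNat 0, .ofNat 15⟩, .l ⟨.ofNat 0, .negSucc 19, .ofNat 0, .ofNat 18⟩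
  ⟨.ofNat 0, .ofNat 20, .ofNat 0, .ofNat 18⟩, .l ⟨.ofNat 0, .ofNat 20,
  .ofNat 0, .negSucc 14⟩ ⟨.ofNat 0, .ofNat 98, .ofNat 3999, .ofNat 2952⟩, .l
  ⟨.ofNat 0, .ofNat 20, .ofNat 0, .negSucc 17⟩ ⟨.ofNat 0, .ofNat 98, .ofNat
  3999, .ofNat 2952⟩, .l ⟨.ofNat 0, .ofNat 20, .ofNat 0, .negSucc 14⟩
  ⟨.ofNat 0, .negSucc 97, .negSucc 3998, .negSucc 3371⟩, .l ⟨.ofNat 0,
  .ofNat 20, .ofNat 0, .negSucc 17⟩ ⟨.ofNat 0, .negSucc 97, .negSucc 3998,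
  .negSucc 3371⟩],
[.l ⟨.ofNat 0, .ofNat 40, .ofNat 0, .negSucc 35⟩ ⟨.ofNat 0, .ofNat 40,
  .ofNat 0, .ofNat 36⟩, .l ⟨.ofNat 0, .negSucc 39, .ofNat 0, .ofNat 39⟩
  ⟨.ofNat 0, .ofNat 40, .ofNat 0, .ofNat 39⟩, .l ⟨.ofNat 0, .ofNat 40,
  .ofNat 0, .negSucc 35⟩ ⟨.ofNat 0, .ofNat 0, .ofNat 4000, .ofNat 3573⟩, .l
  ⟨.ofNat 0, .ofNat 40, .ofNat 0, .negSucc 38⟩ ⟨.ofNat 0, .ofNat 0, .ofNat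
  4000, .ofNat 3573⟩, .l ⟨.ofNat 0, .ofNat 40, .ofNat 0, .negSucc 35⟩
  ⟨.ofNat 0, .ofNat 0, .negSucc 3999, .negSucc 4298⟩, .l ⟨.ofNat 0, .ofNat
  40, .ofNat 0, .negSucc 38⟩ ⟨.ofNat 0, .ofNat 0, .negSucc 3999, .negSucc
  4298⟩],
[.q ⟨.ofNat 11, .negSucc 12, .negSucc 17, .ofNat 20⟩ ⟨.ofNat 4404, .negSucc
  742, .negSucc 1740, .negSucc 1919⟩, .q ⟨.ofNat 11, .negSucc 12, .negSucc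
  17, .ofNat 20⟩ ⟨.negSucc 1915, .ofNat 1909, .negSucc 132, .ofNat 140⟩, .q
  ⟨.ofNat 11, .negSucc 12, .negSucc 17, .ofNat 20⟩ ⟨.negSucc 4440, .ofNat
  882, .ofNat 1579, .ofNat 1980⟩, .q ⟨.ofNat 11, .negSucc 12, .negSucc 17,
  .ofNat 20⟩ ⟨.ofNat 4057, .negSucc 3784, .ofNat 48, .negSucc 319⟩],
[.l ⟨.ofNat 0, .ofNat 40, .ofNat 0, .negSucc 36⟩ ⟨.ofNat 0, .ofNat 40,
  .ofNat 0, .ofNat 37⟩, .l ⟨.ofNat 0, .negSucc 39, .ofNat 0, .ofNat 41⟩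
  ⟨.ofNat 0, .ofNat 40, .ofNat 0, .ofNat 41⟩, .l ⟨.ofNat 0, .ofNat 40,
  .ofNat 0, .negSucc 36⟩ ⟨.ofNat 0, .ofNat 207, .ofNat 3995, .negSucc 7406⟩,
  .l ⟨.ofNat 0, .ofNat 40, .ofNat 0, .negSucc 40⟩ ⟨.ofNat 0, .ofNat 207,
  .ofNat 3995, .negSucc 7406⟩, .l ⟨.ofNat 0, .ofNat 40, .ofNat 0, .negSucc
  36⟩ ⟨.ofNat 0, .negSucc 206, .negSucc 3994, .negSucc 4496⟩, .l ⟨.ofNat 0,
  .ofNat 40, .ofNat 0, .negSucc 40⟩ ⟨.ofNat 0, .negSucc 206, .negSucc 3994,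
  .negSucc 4496⟩, .l ⟨.ofNat 0, .ofNat 40, .ofNat 0, .negSucc 36⟩ ⟨.ofNat 0,
  .ofNat 125, .ofNat 1996, .ofNat 1869⟩, .l ⟨.ofNat 0, .ofNat 40, .ofNat 0,
  .negSucc 40⟩ ⟨.ofNat 0, .ofNat 125, .ofNat 1996, .ofNat 1869⟩],
[.q ⟨.negSucc 25, .negSucc 20, .ofNat 15, .ofNat 32⟩ ⟨.ofNat 5060, .ofNat
  1240, .negSucc 12315, .ofNat 6016⟩, .q ⟨.negSucc 25, .negSucc 20, .ofNat
  15, .ofNat 32⟩ ⟨.negSucc 12007, .ofNat 16132, .ofNat 6756, .negSucc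
  10879⟩, .q ⟨.negSucc 25, .negSucc 20, .ofNat 15, .ofNat 32⟩ ⟨.negSucc 263,
  .negSucc 9523, .ofNat 11324, .negSucc 1535⟩],
[.q ⟨.negSucc 0, .ofNat 0, .ofNat 0, .ofNat 1⟩ ⟨.ofNat 2777, .negSucc 2975,
  .negSucc 2671, .ofNat 2871⟩, .q ⟨.negSucc 0, .ofNat 0, .ofNat 0, .ofNat 1⟩
  ⟨.negSucc 170, .ofNat 531, .negSucc 3964, .ofNat 3605⟩, .q ⟨.negSucc 0,
  .ofNat 0, .ofNat 0, .ofNat 1⟩ ⟨.negSucc 3571, .ofNat 3990, .negSucc 276,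
  .negSucc 140⟩, .q ⟨.negSucc 0, .ofNat 0, .ofNat 0, .ofNat 1⟩ ⟨.ofNat 1341,
  .negSucc 2827, .ofNat 2828, .negSucc 1340⟩],
[.q ⟨.negSucc 2, .negSucc 16, .ofNat 20, .ofNat 0⟩ ⟨.negSucc 36, .ofNat 17,
  .ofNat 20, .ofNat 0⟩, .q ⟨.ofNat 1, .ofNat 19, .negSucc 19, .ofNat 0⟩
  ⟨.negSucc 38, .ofNat 19, .ofNat 20, .ofNat 0⟩, .q ⟨.ofNat 37, .negSucc 16,
  .negSucc 19, .ofNat 0⟩ ⟨.ofNat 1013, .negSucc 12, .ofNat 0, .negSucc 999⟩,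
  .q ⟨.ofNat 39, .negSucc 18, .negSucc 19, .ofNat 0⟩ ⟨.ofNat 1013, .negSucc
  12, .ofNat 0, .negSucc 999⟩, .q ⟨.ofNat 37, .negSucc 16, .negSucc 19,
  .ofNat 0⟩ ⟨.negSucc 3440, .ofNat 1068, .negSucc 1380, .ofNat 3754⟩, .q
  ⟨.ofNat 39, .negSucc 18, .negSucc 19, .ofNat 0⟩ ⟨.negSucc 3440, .ofNat
  1068, .negSucc 1380, .ofNat 3754⟩, .q ⟨.ofNat 37, .negSucc 16, .negSucc
  19, .ofNat 0⟩ ⟨.ofNat 1922, .ofNat 3304, .negSucc 3694, .negSucc 1530⟩, .q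
  ⟨.ofNat 39, .negSucc 18, .negSucc 19, .ofNat 0⟩ ⟨.ofNat 1922, .ofNat 3304,
  .negSucc 3694, .negSucc 1530⟩],
[.q ⟨.ofNat 11, .negSucc 12, .negSucc 17, .ofNat 20⟩ ⟨.ofNat 2867, .ofNat
  1339, .negSucc 2145, .negSucc 2059⟩, .q ⟨.ofNat 11, .negSucc 12, .negSucc
  17, .ofNat 20⟩ ⟨.negSucc 3934, .ofNat 3764, .negSucc 188, .ofNat 360⟩, .q
  ⟨.ofNat 11, .negSucc 12, .negSucc 17, .ofNat 20⟩ ⟨.negSucc 3061, .negSucc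
  1146, .ofNat 2029, .ofNat 2180⟩, .q ⟨.ofNat 11, .negSucc 12, .negSucc 17,
  .ofNat 20⟩ ⟨.ofNat 4811, .negSucc 2673, .negSucc 936, .negSucc 1199⟩],
[.q ⟨.negSucc 28, .ofNat 0, .ofNat 19, .ofNat 10⟩ ⟨.negSucc 24270, .ofNat
  16912, .ofNat 13569, .negSucc 6209⟩, .q ⟨.negSucc 28, .ofNat 0, .ofNat 19,
  .ofNat 10⟩ ⟨.ofNat 17200, .negSucc 16175, .ofNat 7696, .negSucc 8719⟩, .q
  ⟨.negSucc 28, .ofNat 0, .ofNat 19, .ofNat 10⟩ ⟨.ofNat 25946, .negSucc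
  18047, .negSucc 17237, .ofNat 9340⟩, .q ⟨.negSucc 28, .ofNat 0, .ofNat 19,
  .ofNat 10⟩ ⟨.negSucc 27416, .ofNat 22520, .negSucc 672, .ofNat 5570⟩, .q
  ⟨.negSucc 28, .ofNat 0, .ofNat 19, .ofNat 10⟩ ⟨.ofNat 4688, .negSucc 1863,
  .negSucc 10423, .ofNat 7600⟩],
[.q ⟨.negSucc 0, .ofNat 0, .ofNat 0, .ofNat 1⟩ ⟨.ofNat 2406, .negSucc 2616,
  .negSucc 3024, .ofNat 3236⟩, .q ⟨.negSucc 0, .ofNat 0, .ofNat 0, .ofNat 1⟩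
  ⟨.negSucc 1508, .ofNat 1414, .negSucc 1413, .ofNat 1509⟩, .q ⟨.negSucc 0,
  .ofNat 0, .ofNat 0, .ofNat 1⟩ ⟨.negSucc 4184, .ofNat 3975, .ofNat 443,
  .negSucc 232⟩, .q ⟨.negSucc 0, .ofNat 0, .ofNat 0, .ofNat 1⟩ ⟨.ofNat 240,
  .negSucc 420, .ofNat 1955, .negSucc 1773⟩, .q ⟨.negSucc 0, .ofNat 0,
  .ofNat 0, .ofNat 1⟩ ⟨.ofNat 913, .negSucc 999, .ofNat 0, .ofNat 87⟩],
[.q ⟨.negSucc 38, .negSucc 40, .ofNat 80, .ofNat 0⟩ ⟨.negSucc 120, .ofNat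
  41, .ofNat 80, .ofNat 0⟩, .q ⟨.ofNat 36, .ofNat 44, .negSucc 79, .ofNat 0⟩
  ⟨.negSucc 123, .ofNat 44, .ofNat 80, .ofNat 0⟩, .q ⟨.ofNat 121, .negSucc
  40, .negSucc 79, .ofNat 0⟩ ⟨.ofNat 2399, .ofNat 1601, .ofNat 0, .negSucc
  3999⟩, .q ⟨.ofNat 124, .negSucc 43, .negSucc 79, .ofNat 0⟩ ⟨.ofNat 2399,
  .ofNat 1601, .ofNat 0, .negSucc 3999⟩, .q ⟨.ofNat 121, .negSucc 40,
  .negSucc 79, .ofNat 0⟩ ⟨.negSucc 485, .negSucc 96, .negSucc 2521, .ofNat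
  3105⟩, .q ⟨.ofNat 124, .negSucc 43, .negSucc 79, .ofNat 0⟩ ⟨.negSucc 485,
  .negSucc 96, .negSucc 2521, .ofNat 3105⟩],
[.q ⟨.negSucc 46, .negSucc 55, .ofNat 71, .ofNat 32⟩ ⟨.ofNat 16690, .ofNat
  238, .ofNat 3296, .negSucc 20223⟩, .q ⟨.negSucc 46, .negSucc 55, .ofNat
  71, .ofNat 32⟩ ⟨.ofNat 32640, .negSucc 16265, .negSucc 12533, .negSucc
  3839⟩, .q ⟨.negSucc 46, .negSucc 55, .ofNat 71, .ofNat 32⟩ ⟨.ofNat 3676,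
  .negSucc 10687, .negSucc 11355, .ofNat 18368⟩, .q ⟨.negSucc 46, .negSucc
  55, .ofNat 71, .ofNat 32⟩ ⟨.negSucc 23609, .ofNat 10824, .ofNat 8562,
  .ofNat 4224⟩, .q ⟨.negSucc 46, .negSucc 55, .ofNat 71, .ofNat 32⟩
  ⟨.negSucc 6028, .ofNat 14266, .ofNat 15539, .negSucc 23775⟩, .q ⟨.negSucc
  46, .negSucc 55, .ofNat 71, .ofNat 32⟩ ⟨.negSucc 31182, .ofNat 9884,
  .ofNat 6355, .ofNat 14944⟩],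
[.l ⟨.ofNat 0, .ofNat 209, .negSucc 1988, .ofNat 513⟩ ⟨.ofNat 0, .ofNat 0,
  .ofNat 0, .ofNat 1⟩, .l ⟨.ofNat 0, .ofNat 3928, .ofNat 757, .ofNat 2768⟩
  ⟨.ofNat 0, .ofNat 0, .ofNat 0, .ofNat 1⟩, .l ⟨.ofNat 0, .ofNat 362, .ofNat
  3984, .ofNat 2657⟩ ⟨.ofNat 0, .ofNat 0, .ofNat 0, .ofNat 1⟩, .l ⟨.ofNat 0,
  .negSucc 3558, .negSucc 1825, .negSucc 1381⟩ ⟨.ofNat 0, .ofNat 0, .ofNat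
  0, .ofNat 1⟩],
[.q ⟨.negSucc 38, .negSucc 40, .ofNat 80, .ofNat 0⟩ ⟨.negSucc 120, .ofNat
  41, .ofNat 80, .ofNat 0⟩, .q ⟨.ofNat 36, .ofNat 44, .negSucc 79, .ofNat 0⟩
  ⟨.negSucc 123, .ofNat 44, .ofNat 80, .ofNat 0⟩, .q ⟨.ofNat 121, .negSucc
  40, .negSucc 79, .ofNat 0⟩ ⟨.ofNat 2095, .ofNat 95, .ofNat 1513, .negSucc
  3702⟩, .q ⟨.ofNat 124, .negSucc 43, .negSucc 79, .ofNat 0⟩ ⟨.ofNat 2095,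
  .ofNat 95, .ofNat 1513, .negSucc 3702⟩, .q ⟨.ofNat 121, .negSucc 40,
  .negSucc 79, .ofNat 0⟩ ⟨.negSucc 1278, .negSucc 910, .negSucc 1512, .ofNat
  3703⟩, .q ⟨.ofNat 124, .negSucc 43, .negSucc 79, .ofNat 0⟩ ⟨.negSucc 1278,
  .negSucc 910, .negSucc 1512, .ofNat 3703⟩],
[.q ⟨.negSucc 0, .ofNat 0, .ofNat 0, .ofNat 1⟩ ⟨.negSucc 1160, .ofNat 1414,
  .negSucc 1413, .ofNat 1161⟩, .q ⟨.negSucc 0, .ofNat 0, .ofNat 0, .ofNat 1⟩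
  ⟨.negSucc 1578, .ofNat 1953, .ofNat 431, .negSucc 804⟩, .q ⟨.negSucc 0,
  .ofNat 0, .ofNat 0, .ofNat 1⟩ ⟨.ofNat 1070, .negSucc 2445, .ofNat 3165,
  .negSucc 1788⟩, .q ⟨.negSucc 0, .ofNat 0, .ofNat 0, .ofNat 1⟩ ⟨.ofNat
  2416, .negSucc 3728, .negSucc 1447, .ofNat 2761⟩],
[.q ⟨.negSucc 0, .ofNat 0, .ofNat 0, .ofNat 1⟩ ⟨.ofNat 3237, .negSucc 3648,
  .negSucc 1638, .ofNat 2051⟩, .q ⟨.negSucc 0, .ofNat 0, .ofNat 0, .ofNat 1⟩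
  ⟨.negSucc 2641, .ofNat 2769, .negSucc 2886, .ofNat 2760⟩, .q ⟨.negSucc 0,
  .ofNat 0, .ofNat 0, .ofNat 1⟩ ⟨.negSucc 2529, .ofNat 2457, .ofNat 3157,
  .negSucc 3083⟩, .q ⟨.negSucc 0, .ofNat 0, .ofNat 0, .ofNat 1⟩ ⟨.ofNat
  3348, .negSucc 3763, .ofNat 1355, .negSucc 938⟩],
[.q ⟨.negSucc 9, .negSucc 9, .ofNat 20, .ofNat 0⟩ ⟨.negSucc 29, .ofNat 10,
  .ofNat 20, .ofNat 0⟩, .q ⟨.ofNat 7, .ofNat 13, .negSucc 19, .ofNat 0⟩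
  ⟨.negSucc 32, .ofNat 13, .ofNat 20, .ofNat 0⟩, .q ⟨.ofNat 30, .negSucc 9,
  .negSucc 19, .ofNat 0⟩ ⟨.ofNat 137, .ofNat 2974, .ofNat 807, .negSucc
  3917⟩, .q ⟨.ofNat 33, .negSucc 12, .negSucc 19, .ofNat 0⟩ ⟨.ofNat 137,
  .ofNat 2974, .ofNat 807, .negSucc 3917⟩, .q ⟨.ofNat 30, .negSucc 9,
  .negSucc 19, .ofNat 0⟩ ⟨.ofNat 156, .negSucc 1192, .negSucc 268, .ofNat
  1306⟩, .q ⟨.ofNat 33, .negSucc 12, .negSucc 19, .ofNat 0⟩ ⟨.ofNat 156,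
  .negSucc 1192, .negSucc 268, .ofNat 1306⟩],
[.l ⟨.ofNat 0, .ofNat 40, .ofNat 0, .negSucc 37⟩ ⟨.ofNat 0, .ofNat 40,
  .ofNat 0, .ofNat 38⟩, .l ⟨.ofNat 0, .negSucc 39, .ofNat 0, .ofNat 41⟩
  ⟨.ofNat 0, .ofNat 40, .ofNat 0, .ofNat 41⟩, .l ⟨.ofNat 0, .ofNat 40,
  .ofNat 0, .negSucc 37⟩ ⟨.ofNat 0, .negSucc 2328, .ofNat 3252, .negSucc
  11119⟩, .l ⟨.ofNat 0, .ofNat 40, .ofNat 0, .negSucc 40⟩ ⟨.ofNat 0,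
  .negSucc 2328, .ofNat 3252, .negSucc 11119⟩, .l ⟨.ofNat 0, .ofNat 40,
  .ofNat 0, .negSucc 37⟩ ⟨.ofNat 0, .negSucc 310, .negSucc 3987, .negSucc
  4599⟩, .l ⟨.ofNat 0, .ofNat 40, .ofNat 0, .negSucc 40⟩ ⟨.ofNat 0, .negSucc
  310, .negSucc 3987, .negSucc 4599⟩, .l ⟨.ofNat 0, .ofNat 40, .ofNat 0,
  .negSucc 37⟩ ⟨.ofNat 0, .ofNat 584, .ofNat 3957, .ofNat 3987⟩, .l ⟨.ofNat
  0, .ofNat 40, .ofNat 0, .negSucc 40⟩ ⟨.ofNat 0, .ofNat 584, .ofNat 3957,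
  .ofNat 3987⟩],
[.q ⟨.negSucc 0, .ofNat 0, .ofNat 0, .ofNat 1⟩ ⟨.ofNat 524, .negSucc 416,
  .negSucc 1955, .ofNat 1849⟩, .q ⟨.negSucc 0, .ofNat 0, .ofNat 0, .ofNat 1⟩
  ⟨.negSucc 2320, .ofNat 2828, .negSucc 2827, .ofNat 2321⟩, .q ⟨.negSucc 0,
  .ofNat 0, .ofNat 0, .ofNat 1⟩ ⟨.negSucc 3720, .ofNat 3984, .ofNat 354,
  .negSucc 616⟩, .q ⟨.negSucc 0, .ofNat 0, .ofNat 0, .ofNat 1⟩ ⟨.ofNat 431,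
  .negSucc 1101, .ofNat 3845, .negSucc 3173⟩],
[.l ⟨.ofNat 0, .ofNat 40, .ofNat 0, .negSucc 36⟩ ⟨.ofNat 0, .ofNat 40,
  .ofNat 0, .ofNat 37⟩, .l ⟨.ofNat 0, .negSucc 39, .ofNat 0, .ofNat 41⟩
  ⟨.ofNat 0, .ofNat 40, .ofNat 0, .ofNat 41⟩, .l ⟨.ofNat 0, .ofNat 40,
  .ofNat 0, .negSucc 36⟩ ⟨.ofNat 0, .ofNat 344, .ofNat 3985, .ofNat 2284⟩,
  .l ⟨.ofNat 0, .ofNat 40, .ofNat 0, .negSucc 40⟩ ⟨.ofNat 0, .ofNat 344,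
  .ofNat 3985, .ofNat 2284⟩, .l ⟨.ofNat 0, .ofNat 40, .ofNat 0, .negSucc 36⟩
  ⟨.ofNat 0, .negSucc 343, .negSucc 3984, .negSucc 3633⟩, .l ⟨.ofNat 0,
  .ofNat 40, .ofNat 0, .negSucc 40⟩ ⟨.ofNat 0, .negSucc 343, .negSucc 3984,
  .negSucc 3633⟩],
[.q ⟨.negSucc 2, .negSucc 36, .ofNat 40, .ofNat 0⟩ ⟨.negSucc 76, .ofNat 37,
  .ofNat 40, .ofNat 0⟩, .q ⟨.ofNat 0, .ofNat 40, .negSucc 39, .ofNat 0⟩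
  ⟨.negSucc 79, .ofNat 40, .ofNat 40, .ofNat 0⟩, .q ⟨.ofNat 77, .negSucc 36,
  .negSucc 39, .ofNat 0⟩ ⟨.ofNat 3344, .ofNat 1017, .negSucc 378, .negSucc
  3981⟩, .q ⟨.ofNat 80, .negSucc 39, .negSucc 39, .ofNat 0⟩ ⟨.ofNat 3344,
  .ofNat 1017, .negSucc 378, .negSucc 3981⟩, .q ⟨.ofNat 77, .negSucc 36,
  .negSucc 39, .ofNat 0⟩ ⟨.ofNat 729, .negSucc 2763, .negSucc 1621, .ofNat
  3657⟩, .q ⟨.ofNat 80, .negSucc 39, .negSucc 39, .ofNat 0⟩ ⟨.ofNat 729,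
  .negSucc 2763, .negSucc 1621, .ofNat 3657⟩, .q ⟨.ofNat 77, .negSucc 36,
  .negSucc 39, .ofNat 0⟩ ⟨.ofNat 2091, .ofNat 3458, .negSucc 3321, .negSucc
  2226⟩, .q ⟨.ofNat 80, .negSucc 39, .negSucc 39, .ofNat 0⟩ ⟨.ofNat 2091,
  .ofNat 3458, .negSucc 3321, .negSucc 2226⟩],
[.q ⟨.ofNat 8, .ofNat 0, .negSucc 22, .ofNat 15⟩ ⟨.ofNat 6610, .negSucc
  12723, .ofNat 18294, .negSucc 12179⟩, .q ⟨.ofNat 8, .ofNat 0, .negSucc 22,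
  .ofNat 15⟩ ⟨.ofNat 4884, .ofNat 0, .ofNat 1491, .negSucc 6374⟩, .q ⟨.ofNat
  8, .ofNat 0, .negSucc 22, .ofNat 15⟩ ⟨.negSucc 6763, .ofNat 14132,
  .negSucc 20462, .ofNat 13095⟩, .q ⟨.ofNat 8, .ofNat 0, .negSucc 22, .ofNat
  15⟩ ⟨.negSucc 6297, .ofNat 0, .negSucc 2281, .ofNat 8580⟩],
[.q ⟨.negSucc 25, .negSucc 20, .ofNat 15, .ofNat 32⟩ ⟨.negSucc 4331,
  .negSucc 2879, .ofNat 12332, .negSucc 5119⟩, .q ⟨.negSucc 25, .negSucc 20,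
  .ofNat 15, .ofNat 32⟩ ⟨.ofNat 2172, .negSucc 6295, .ofNat 2332, .ofNat
  1792⟩, .q ⟨.negSucc 25, .negSucc 20, .ofNat 15, .ofNat 32⟩ ⟨.ofNat 3736,
  .ofNat 3604, .negSucc 12203, .ofNat 4864⟩, .q ⟨.negSucc 25, .negSucc 20,
  .ofNat 15, .ofNat 32⟩ ⟨.negSucc 9971, .ofNat 20788, .negSucc 3519,
  .negSucc 7295⟩],
[.l ⟨.ofNat 0, .ofNat 20, .ofNat 0, .negSucc 16⟩ ⟨.ofNat 0, .ofNat 20,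
  .ofNat 0, .ofNat 17⟩, .l ⟨.ofNat 0, .negSucc 19, .ofNat 0, .ofNat 20⟩
  ⟨.ofNat 0, .ofNat 20, .ofNat 0, .ofNat 20⟩, .l ⟨.ofNat 0, .ofNat 20,
  .ofNat 0, .negSucc 16⟩ ⟨.ofNat 0, .ofNat 2675, .ofNat 2974, .ofNat 3903⟩,
  .l ⟨.ofNat 0, .ofNat 20, .ofNat 0, .negSucc 19⟩ ⟨.ofNat 0, .ofNat 2675,
  .ofNat 2974, .ofNat 3903⟩, .l ⟨.ofNat 0, .ofNat 20, .ofNat 0, .negSucc 16⟩
  ⟨.ofNat 0, .ofNat 2003, .negSucc 3461, .negSucc 863⟩, .l ⟨.ofNat 0, .ofNat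
  20, .ofNat 0, .negSucc 19⟩ ⟨.ofNat 0, .ofNat 2003, .negSucc 3461, .negSucc
  863⟩, .l ⟨.ofNat 0, .ofNat 20, .ofNat 0, .negSucc 16⟩ ⟨.ofNat 0, .ofNat
  227, .ofNat 3994, .ofNat 2198⟩, .l ⟨.ofNat 0, .ofNat 20, .ofNat 0,
  .negSucc 19⟩ ⟨.ofNat 0, .ofNat 227, .ofNat 3994, .ofNat 2198⟩],
[.q ⟨.negSucc 38, .negSucc 40, .ofNat 80, .ofNat 0⟩ ⟨.negSucc 120, .ofNat
  41, .ofNat 80, .ofNat 0⟩, .q ⟨.ofNat 36, .ofNat 44, .negSucc 79, .ofNat 0⟩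
  ⟨.negSucc 123, .ofNat 44, .ofNat 80, .ofNat 0⟩, .q ⟨.ofNat 121, .negSucc
  40, .negSucc 79, .ofNat 0⟩ ⟨.ofNat 2247, .ofNat 228, .ofNat 1306, .negSucc
  3780⟩, .q ⟨.ofNat 124, .negSucc 43, .negSucc 79, .ofNat 0⟩ ⟨.ofNat 2247,
  .ofNat 228, .ofNat 1306, .negSucc 3780⟩, .q ⟨.ofNat 121, .negSucc 40,
  .negSucc 79, .ofNat 0⟩ ⟨.negSucc 1157, .negSucc 789, .negSucc 1680, .ofNat
  3629⟩, .q ⟨.ofNat 124, .negSucc 43, .negSucc 79, .ofNat 0⟩ ⟨.negSucc 1157,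
  .negSucc 789, .negSucc 1680, .ofNat 3629⟩],
[.q ⟨.negSucc 0, .ofNat 0, .ofNat 0, .ofNat 1⟩ ⟨.negSucc 3032, .ofNat 2828,
  .ofNat 2828, .negSucc 2622⟩, .q ⟨.negSucc 0, .ofNat 0, .ofNat 0, .ofNat 1⟩
  ⟨.ofNat 1959, .negSucc 1999, .ofNat 0, .ofNat 41⟩, .q ⟨.negSucc 0, .ofNat
  0, .ofNat 0, .ofNat 1⟩ ⟨.negSucc 102, .negSucc 137, .negSucc 3997, .ofNat
  4239⟩, .q ⟨.negSucc 0, .ofNat 0, .ofNat 0, .ofNat 1⟩ ⟨.negSucc 3165,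
  .ofNat 2983, .negSucc 2663, .ofNat 2847⟩],
[.q ⟨.negSucc 2, .negSucc 16, .ofNat 20, .ofNat 0⟩ ⟨.negSucc 36, .ofNat 17,
  .ofNat 20, .ofNat 0⟩, .q ⟨.ofNat 2, .ofNat 18, .negSucc 19, .ofNat 0⟩
  ⟨.negSucc 37, .ofNat 18, .ofNat 20, .ofNat 0⟩, .q ⟨.ofNat 37, .negSucc 16,
  .negSucc 19, .ofNat 0⟩ ⟨.ofNat 4062, .ofNat 289, .negSucc 367, .negSucc
  3982⟩, .q ⟨.ofNat 38, .negSucc 17, .negSucc 19, .ofNat 0⟩ ⟨.ofNat 4062,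
  .ofNat 289, .negSucc 367, .negSucc 3982⟩, .q ⟨.ofNat 37, .negSucc 16,
  .negSucc 19, .ofNat 0⟩ ⟨.negSucc 689, .ofNat 506, .negSucc 608, .ofNat
  793⟩, .q ⟨.ofNat 38, .negSucc 17, .negSucc 19, .ofNat 0⟩ ⟨.negSucc 689,
  .ofNat 506, .negSucc 608, .ofNat 793⟩],
[.q ⟨.negSucc 0, .ofNat 0, .ofNat 0, .ofNat 1⟩ ⟨.negSucc 2314, .ofNat 2257,
  .ofNat 3302, .negSucc 3243⟩, .q ⟨.negSucc 0, .ofNat 0, .ofNat 0, .ofNat 1⟩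
  ⟨.ofNat 3211, .negSucc 3610, .ofNat 1721, .negSucc 1320⟩, .q ⟨.negSucc 0,
  .ofNat 0, .ofNat 0, .ofNat 1⟩ ⟨.ofNat 889, .negSucc 999, .ofNat 0, .ofNat
  111⟩, .q ⟨.negSucc 0, .ofNat 0, .ofNat 0, .ofNat 1⟩ ⟨.negSucc 476, .ofNat
  391, .negSucc 3980, .ofNat 4067⟩],
[.l ⟨.ofNat 0, .negSucc 999, .ofNat 0, .ofNat 201⟩ ⟨.ofNat 0, .ofNat 0,
  .ofNat 0, .ofNat 1⟩, .l ⟨.ofNat 0, .ofNat 0, .negSucc 3999, .negSucc 1958⟩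
  ⟨.ofNat 0, .ofNat 0, .ofNat 0, .ofNat 1⟩, .l ⟨.ofNat 0, .ofNat 3680,
  .ofNat 1567, .ofNat 1518⟩ ⟨.ofNat 0, .ofNat 0, .ofNat 0, .ofNat 1⟩, .l
  ⟨.ofNat 0, .negSucc 3490, .ofNat 1953, .ofNat 1809⟩ ⟨.ofNat 0, .ofNat 0,
  .ofNat 0, .ofNat 1⟩],
[.l ⟨.ofNat 0, .ofNat 768, .negSucc 3925, .ofNat 1209⟩ ⟨.ofNat 0, .ofNat 0,
  .ofNat 0, .ofNat 1⟩, .l ⟨.ofNat 0, .ofNat 3986, .ofNat 332, .ofNat 2559⟩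
  ⟨.ofNat 0, .ofNat 0, .ofNat 0, .ofNat 1⟩, .l ⟨.ofNat 0, .ofNat 2083,
  .ofNat 3415, .ofNat 3310⟩ ⟨.ofNat 0, .ofNat 0, .ofNat 0, .ofNat 1⟩, .l
  ⟨.ofNat 0, .negSucc 201, .ofNat 202, .ofNat 155⟩ ⟨.ofNat 0, .ofNat 0,
  .ofNat 0, .ofNat 1⟩, .l ⟨.ofNat 0, .negSucc 802, .negSucc 595, .negSucc
  277⟩ ⟨.ofNat 0, .ofNat 0, .ofNat 0, .ofNat 1⟩],
[.q ⟨.negSucc 3, .negSucc 35, .ofNat 40, .ofNat 0⟩ ⟨.negSucc 75, .ofNat 36,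
  .ofNat 40, .ofNat 0⟩, .q ⟨.ofNat 1, .ofNat 39, .negSucc 39, .ofNat 0⟩
  ⟨.negSucc 78, .ofNat 39, .ofNat 40, .ofNat 0⟩, .q ⟨.ofNat 76, .negSucc 35,
  .negSucc 39, .ofNat 0⟩ ⟨.ofNat 2779, .ofNat 2842, .negSucc 2490, .negSucc
  3129⟩, .q ⟨.ofNat 79, .negSucc 38, .negSucc 39, .ofNat 0⟩ ⟨.ofNat 2779,
  .ofNat 2842, .negSucc 2490, .negSucc 3129⟩, .q ⟨.ofNat 76, .negSucc 35,
  .negSucc 39, .ofNat 0⟩ ⟨.ofNat 9256, .negSucc 14876, .ofNat 2491, .ofNat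
  3130⟩, .q ⟨.ofNat 79, .negSucc 38, .negSucc 39, .ofNat 0⟩ ⟨.ofNat 9256,
  .negSucc 14876, .ofNat 2491, .ofNat 3130⟩, .q ⟨.ofNat 76, .negSucc 35,
  .negSucc 39, .ofNat 0⟩ ⟨.ofNat 3339, .ofNat 693, .negSucc 31, .negSucc
  3999⟩, .q ⟨.ofNat 79, .negSucc 38, .negSucc 39, .ofNat 0⟩ ⟨.ofNat 3339,
  .ofNat 693, .negSucc 31, .negSucc 3999⟩, .q ⟨.ofNat 76, .negSucc 35,
  .negSucc 39, .ofNat 0⟩ ⟨.ofNat 128, .negSucc 5734, .ofNat 3180, .ofNat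
  2427⟩, .q ⟨.ofNat 79, .negSucc 38, .negSucc 39, .ofNat 0⟩ ⟨.ofNat 128,
  .negSucc 5734, .ofNat 3180, .ofNat 2427⟩],
[.q ⟨.negSucc 25, .negSucc 20, .ofNat 15, .ofNat 32⟩ ⟨.ofNat 1168, .negSucc
  1807, .negSucc 511, .ofNat 1152⟩, .q ⟨.negSucc 25, .negSucc 20, .ofNat 15,
  .ofNat 32⟩ ⟨.ofNat 5372, .ofNat 680, .negSucc 12323, .ofNat 6272⟩, .q
  ⟨.negSucc 25, .negSucc 20, .ofNat 15, .ofNat 32⟩ ⟨.negSucc 12623, .ofNat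
  21480, .ofNat 1768, .negSucc 10623⟩, .q ⟨.negSucc 25, .negSucc 20, .ofNat
  15, .ofNat 32⟩ ⟨.negSucc 3623, .negSucc 4143, .ofNat 12248, .negSucc
  4479⟩],
[.q ⟨.negSucc 4, .negSucc 14, .ofNat 20, .ofNat 0⟩ ⟨.negSucc 34, .ofNat 15,
  .ofNat 20, .ofNat 0⟩, .q ⟨.ofNat 2, .ofNat 18, .negSucc 19, .ofNat 0⟩
  ⟨.negSucc 37, .ofNat 18, .ofNat 20, .ofNat 0⟩, .q ⟨.ofNat 35, .negSucc 14,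
  .negSucc 19, .ofNat 0⟩ ⟨.ofNat 601, .ofNat 199, .ofNat 0, .negSucc 799⟩,
  .q ⟨.ofNat 38, .negSucc 17, .negSucc 19, .ofNat 0⟩ ⟨.ofNat 601, .ofNat
  199, .ofNat 0, .negSucc 799⟩, .q ⟨.ofNat 35, .negSucc 14, .negSucc 19,
  .ofNat 0⟩ ⟨.ofNat 603, .negSucc 3640, .negSucc 866, .ofNat 3905⟩, .q
  ⟨.ofNat 38, .negSucc 17, .negSucc 19, .ofNat 0⟩ ⟨.ofNat 603, .negSucc
  3640, .negSucc 866, .ofNat 3905⟩, .q ⟨.ofNat 35, .negSucc 14, .negSucc 19,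
  .ofNat 0⟩ ⟨.ofNat 2641, .ofNat 3010, .negSucc 2955, .negSucc 2694⟩, .q
  ⟨.ofNat 38, .negSucc 17, .negSucc 19, .ofNat 0⟩ ⟨.ofNat 2641, .ofNat 3010,
  .negSucc 2955, .negSucc 2694⟩],
[.l ⟨.ofNat 0, .ofNat 411, .negSucc 3978, .negSucc 818⟩ ⟨.ofNat 0, .ofNat 0,
  .ofNat 0, .ofNat 1⟩, .l ⟨.ofNat 0, .ofNat 2828, .ofNat 2828, .ofNat 2591⟩
  ⟨.ofNat 0, .ofNat 0, .ofNat 0, .ofNat 1⟩, .l ⟨.ofNat 0, .negSucc 3110,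
  .ofNat 2515, .ofNat 2359⟩ ⟨.ofNat 0, .ofNat 0, .ofNat 0, .ofNat 1⟩, .l
  ⟨.ofNat 0, .negSucc 3999, .ofNat 0, .ofNat 249⟩ ⟨.ofNat 0, .ofNat 0,
  .ofNat 0, .ofNat 1⟩],
[.q ⟨.negSucc 0, .ofNat 0, .ofNat 0, .ofNat 1⟩ ⟨.negSucc 3816, .ofNat 3995,
  .negSucc 199, .ofNat 22⟩, .q ⟨.negSucc 0, .ofNat 0, .ofNat 0, .ofNat 1⟩
  ⟨.ofNat 3001, .negSucc 3339, .ofNat 2201, .negSucc 1861⟩, .q ⟨.negSucc 0,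
  .ofNat 0, .ofNat 0, .ofNat 1⟩ ⟨.ofNat 709, .negSucc 796, .negSucc 68,
  .ofNat 157⟩, .q ⟨.negSucc 0, .ofNat 0, .ofNat 0, .ofNat 1⟩ ⟨.ofNat 557,
  .negSucc 796, .negSucc 3919, .ofNat 4160⟩],
[.q ⟨.negSucc 0, .ofNat 0, .ofNat 0, .ofNat 1⟩ ⟨.negSucc 3055, .ofNat 3246,
  .ofNat 2337, .negSucc 2526⟩, .q ⟨.negSucc 0, .ofNat 0, .ofNat 0, .ofNat 1⟩
  ⟨.ofNat 1622, .negSucc 3096, .ofNat 2532, .negSucc 1056⟩, .q ⟨.negSucc 0,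
  .ofNat 0, .ofNat 0, .ofNat 1⟩ ⟨.ofNat 2509, .negSucc 2700, .negSucc 2950,
  .ofNat 3143⟩, .q ⟨.negSucc 0, .ofNat 0, .ofNat 0, .ofNat 1⟩ ⟨.ofNat 333,
  .ofNat 0, .negSucc 3999, .ofNat 3667⟩],
[.l ⟨.ofNat 0, .ofNat 40, .ofNat 0, .negSucc 34⟩ ⟨.ofNat 0, .ofNat 40,
  .ofNat 0, .ofNat 35⟩, .l ⟨.ofNat 0, .negSucc 39, .ofNat 0, .ofNat 38⟩
  ⟨.ofNat 0, .ofNat 40, .ofNat 0, .ofNat 38⟩, .l ⟨.ofNat 0, .ofNat 40,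
  .ofNat 0, .negSucc 34⟩ ⟨.ofNat 0, .ofNat 0, .ofNat 4000, .ofNat 2101⟩, .l
  ⟨.ofNat 0, .ofNat 40, .ofNat 0, .negSucc 37⟩ ⟨.ofNat 0, .ofNat 0, .ofNat
  4000, .ofNat 2101⟩, .l ⟨.ofNat 0, .ofNat 40, .ofNat 0, .negSucc 34⟩
  ⟨.ofNat 0, .ofNat 0, .negSucc 399, .negSucc 332⟩, .l ⟨.ofNat 0, .ofNat 40,
  .ofNat 0, .negSucc 37⟩ ⟨.ofNat 0, .ofNat 0, .negSucc 399, .negSucc 332⟩],
[.q ⟨.negSucc 5, .negSucc 33, .ofNat 40, .ofNat 0⟩ ⟨.negSucc 73, .ofNat 34,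
  .ofNat 40, .ofNat 0⟩, .q ⟨.ofNat 3, .ofNat 37, .negSucc 39, .ofNat 0⟩
  ⟨.negSucc 76, .ofNat 37, .ofNat 40, .ofNat 0⟩, .q ⟨.ofNat 74, .negSucc 33,
  .negSucc 39, .ofNat 0⟩ ⟨.ofNat 4026, .negSucc 129, .ofNat 103, .negSucc
  3998⟩, .q ⟨.ofNat 77, .negSucc 36, .negSucc 39, .ofNat 0⟩ ⟨.ofNat 4026,
  .negSucc 129, .ofNat 103, .negSucc 3998⟩, .q ⟨.ofNat 74, .negSucc 33,
  .negSucc 39, .ofNat 0⟩ ⟨.negSucc 3741, .negSucc 153, .negSucc 102, .ofNat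
  3999⟩, .q ⟨.ofNat 77, .negSucc 36, .negSucc 39, .ofNat 0⟩ ⟨.negSucc 3741,
  .negSucc 153, .negSucc 102, .ofNat 3999⟩, .q ⟨.ofNat 74, .negSucc 33,
  .negSucc 39, .ofNat 0⟩ ⟨.ofNat 2464, .ofNat 3015, .negSucc 3441, .negSucc
  2036⟩, .q ⟨.ofNat 77, .negSucc 36, .negSucc 39, .ofNat 0⟩ ⟨.ofNat 2464,
  .ofNat 3015, .negSucc 3441, .negSucc 2036⟩, .q ⟨.ofNat 74, .negSucc 33,
  .negSucc 39, .ofNat 0⟩ ⟨.negSucc 2949, .ofNat 1813, .negSucc 2201, .ofNat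
  3339⟩, .q ⟨.ofNat 77, .negSucc 36, .negSucc 39, .ofNat 0⟩ ⟨.negSucc 2949,
  .ofNat 1813, .negSucc 2201, .ofNat 3339⟩],
[.q ⟨.negSucc 19, .negSucc 19, .ofNat 40, .ofNat 0⟩ ⟨.negSucc 59, .ofNat 20,
  .ofNat 40, .ofNat 0⟩, .q ⟨.ofNat 17, .ofNat 23, .negSucc 39, .ofNat 0⟩
  ⟨.negSucc 62, .ofNat 23, .ofNat 40, .ofNat 0⟩, .q ⟨.ofNat 60, .negSucc 19,
  .negSucc 39, .ofNat 0⟩ ⟨.ofNat 2429, .ofNat 1643, .negSucc 72, .negSucc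
  3998⟩, .q ⟨.ofNat 63, .negSucc 22, .negSucc 39, .ofNat 0⟩ ⟨.ofNat 2429,
  .ofNat 1643, .negSucc 72, .negSucc 3998⟩, .q ⟨.ofNat 60, .negSucc 19,
  .negSucc 39, .ofNat 0⟩ ⟨.ofNat 4633, .negSucc 7447, .ofNat 1272, .ofNat
  1543⟩, .q ⟨.ofNat 63, .negSucc 22, .negSucc 39, .ofNat 0⟩ ⟨.ofNat 4633,
  .negSucc 7447, .ofNat 1272, .ofNat 1543⟩, .q ⟨.ofNat 60, .negSucc 19,
  .negSucc 39, .ofNat 0⟩ ⟨.ofNat 166, .ofNat 569, .negSucc 3171, .ofNat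
  2437⟩, .q ⟨.ofNat 63, .negSucc 22, .negSucc 39, .ofNat 0⟩ ⟨.ofNat 166,
  .ofNat 569, .negSucc 3171, .ofNat 2437⟩],
[.q ⟨.negSucc 1, .negSucc 17, .ofNat 20, .ofNat 0⟩ ⟨.negSucc 37, .ofNat 18,
  .ofNat 20, .ofNat 0⟩, .q ⟨.negSucc 0, .ofNat 21, .negSucc 19, .ofNat 0⟩
  ⟨.negSucc 40, .ofNat 21, .ofNat 20, .ofNat 0⟩, .q ⟨.ofNat 38, .negSucc 17,
  .negSucc 19, .ofNat 0⟩ ⟨.ofNat 1552, .ofNat 1063, .negSucc 768, .negSucc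
  1845⟩, .q ⟨.ofNat 41, .negSucc 20, .negSucc 19, .ofNat 0⟩ ⟨.ofNat 1552,
  .ofNat 1063, .negSucc 768, .negSucc 1845⟩, .q ⟨.ofNat 38, .negSucc 17,
  .negSucc 19, .ofNat 0⟩ ⟨.negSucc 2686, .negSucc 2542, .ofNat 1538, .ofNat
  3692⟩, .q ⟨.ofNat 41, .negSucc 20, .negSucc 19, .ofNat 0⟩ ⟨.negSucc 2686,
  .negSucc 2542, .ofNat 1538, .ofNat 3692⟩, .q ⟨.ofNat 38, .negSucc 17,
  .negSucc 19, .ofNat 0⟩ ⟨.ofNat 1427, .negSucc 3398, .ofNat 3637, .negSucc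
  1664⟩, .q ⟨.ofNat 41, .negSucc 20, .negSucc 19, .ofNat 0⟩ ⟨.ofNat 1427,
  .negSucc 3398, .ofNat 3637, .negSucc 1664⟩],
[.q ⟨.negSucc 220, .negSucc 258, .ofNat 480, .ofNat 0⟩ ⟨.negSucc 738, .ofNat
  259, .ofNat 480, .ofNat 0⟩, .q ⟨.ofNat 211, .ofNat 269, .negSucc 479,
  .ofNat 0⟩ ⟨.negSucc 748, .ofNat 269, .ofNat 480, .ofNat 0⟩, .q ⟨.ofNat
  739, .negSucc 258, .negSucc 479, .ofNat 0⟩ ⟨.ofNat 3042, .ofNat 1122,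
  .negSucc 166, .negSucc 3996⟩, .q ⟨.ofNat 749, .negSucc 268, .negSucc 479,
  .ofNat 0⟩ ⟨.ofNat 3042, .ofNat 1122, .negSucc 166, .negSucc 3996⟩, .q
  ⟨.ofNat 739, .negSucc 258, .negSucc 479, .ofNat 0⟩ ⟨.negSucc 556, .negSucc
  198, .negSucc 2424, .ofNat 3181⟩, .q ⟨.ofNat 749, .negSucc 268, .negSucc
  479, .ofNat 0⟩ ⟨.negSucc 556, .negSucc 198, .negSucc 2424, .ofNat 3181⟩],
[.l ⟨.ofNat 0, .negSucc 2827, .ofNat 2828, .ofNat 2297⟩ ⟨.ofNat 0, .ofNat 0,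
  .ofNat 0, .ofNat 1⟩, .l ⟨.ofNat 0, .negSucc 1999, .ofNat 0, .ofNat 399⟩
  ⟨.ofNat 0, .ofNat 0, .ofNat 0, .ofNat 1⟩, .l ⟨.ofNat 0, .negSucc 1418,
  .negSucc 3739, .negSucc 1944⟩ ⟨.ofNat 0, .ofNat 0, .ofNat 0, .ofNat 1⟩, .l
  ⟨.ofNat 0, .ofNat 200, .ofNat 0, .ofNat 11⟩ ⟨.ofNat 0, .ofNat 0, .ofNat 0,
  .ofNat 1⟩],
[.q ⟨.negSucc 10, .negSucc 8, .ofNat 20, .ofNat 0⟩ ⟨.negSucc 28, .ofNat 9,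
  .ofNat 20, .ofNat 0⟩, .q ⟨.ofNat 8, .ofNat 12, .negSucc 19, .ofNat 0⟩
  ⟨.negSucc 31, .ofNat 12, .ofNat 20, .ofNat 0⟩, .q ⟨.ofNat 29, .negSucc 8,
  .negSucc 19, .ofNat 0⟩ ⟨.ofNat 137, .ofNat 63, .ofNat 0, .negSucc 199⟩, .q
  ⟨.ofNat 32, .negSucc 11, .negSucc 19, .ofNat 0⟩ ⟨.ofNat 137, .ofNat 63,
  .ofNat 0, .negSucc 199⟩, .q ⟨.ofNat 29, .negSucc 8, .negSucc 19, .ofNat 0⟩
  ⟨.negSucc 429, .negSucc 63, .negSucc 2570, .ofNat 3065⟩, .q ⟨.ofNat 32,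
  .negSucc 11, .negSucc 19, .ofNat 0⟩ ⟨.negSucc 429, .negSucc 63, .negSucc
  2570, .ofNat 3065⟩, .q ⟨.ofNat 29, .negSucc 8, .negSucc 19, .ofNat 0⟩
  ⟨.ofNat 821, .ofNat 1205, .negSucc 3653, .ofNat 1628⟩, .q ⟨.ofNat 32,
  .negSucc 11, .negSucc 19, .ofNat 0⟩ ⟨.ofNat 821, .ofNat 1205, .negSucc
  3653, .ofNat 1628⟩],
[.l ⟨.ofNat 0, .ofNat 40, .ofNat 0, .negSucc 37⟩ ⟨.ofNat 0, .ofNat 40,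
  .ofNat 0, .ofNat 38⟩, .l ⟨.ofNat 0, .negSucc 39, .ofNat 0, .ofNat 41⟩
  ⟨.ofNat 0, .ofNat 40, .ofNat 0, .ofNat 41⟩, .l ⟨.ofNat 0, .ofNat 40,
  .ofNat 0, .negSucc 37⟩ ⟨.ofNat 0, .ofNat 1207, .ofNat 3814, .ofNat 3004⟩,
  .l ⟨.ofNat 0, .ofNat 40, .ofNat 0, .negSucc 40⟩ ⟨.ofNat 0, .ofNat 1207,
  .ofNat 3814, .ofNat 3004⟩, .l ⟨.ofNat 0, .ofNat 40, .ofNat 0, .negSucc 37⟩
  ⟨.ofNat 0, .negSucc 50, .negSucc 3999, .negSucc 3349⟩, .l ⟨.ofNat 0,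
  .ofNat 40, .ofNat 0, .negSucc 40⟩ ⟨.ofNat 0, .negSucc 50, .negSucc 3999,
  .negSucc 3349⟩],
[.q ⟨.negSucc 2, .negSucc 16, .ofNat 20, .ofNat 0⟩ ⟨.negSucc 36, .ofNat 17,
  .ofNat 20, .ofNat 0⟩, .q ⟨.ofNat 0, .ofNat 20, .negSucc 19, .ofNat 0⟩
  ⟨.negSucc 39, .ofNat 20, .ofNat 20, .ofNat 0⟩, .q ⟨.ofNat 37, .negSucc 16,
  .negSucc 19, .ofNat 0⟩ ⟨.ofNat 503, .negSucc 2, .ofNat 0, .negSucc 499⟩,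
  .q ⟨.ofNat 40, .negSucc 19, .negSucc 19, .ofNat 0⟩ ⟨.ofNat 503, .negSucc
  2, .ofNat 0, .negSucc 499⟩, .q ⟨.ofNat 37, .negSucc 16, .negSucc 19,
  .ofNat 0⟩ ⟨.negSucc 873, .ofNat 717, .negSucc 860, .ofNat 1018⟩, .q
  ⟨.ofNat 40, .negSucc 19, .negSucc 19, .ofNat 0⟩ ⟨.negSucc 873, .ofNat 717,
  .negSucc 860, .ofNat 1018⟩, .q ⟨.ofNat 37, .negSucc 16, .negSucc 19,
  .ofNat 0⟩ ⟨.negSucc 3548, .negSucc 1888, .ofNat 1939, .ofNat 3499⟩, .q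
  ⟨.ofNat 40, .negSucc 19, .negSucc 19, .ofNat 0⟩ ⟨.negSucc 3548, .negSucc
  1888, .ofNat 1939, .ofNat 3499⟩],
[.q ⟨.negSucc 0, .ofNat 0, .ofNat 0, .ofNat 1⟩ ⟨.ofNat 2243, .negSucc 2340,
  .negSucc 3242, .ofNat 3341⟩, .q ⟨.negSucc 0, .ofNat 0, .ofNat 0, .ofNat 1⟩
  ⟨.negSucc 442, .ofNat 861, .negSucc 3905, .ofNat 3488⟩, .q ⟨.negSucc 0,
  .ofNat 0, .ofNat 0, .ofNat 1⟩ ⟨.negSucc 3481, .ofNat 3953, .negSucc 607,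
  .ofNat 137⟩, .q ⟨.negSucc 0, .ofNat 0, .ofNat 0, .ofNat 1⟩ ⟨.negSucc 152,
  .ofNat 0, .ofNat 400, .negSucc 246⟩, .q ⟨.negSucc 0, .ofNat 0, .ofNat 0,
  .ofNat 1⟩ ⟨.ofNat 1649, .negSucc 3069, .ofNat 2565, .negSucc 1143⟩],
[.l ⟨.ofNat 0, .ofNat 1233, .ofNat 3805, .ofNat 2772⟩ ⟨.ofNat 0, .ofNat 0,
  .ofNat 0, .ofNat 1⟩, .l ⟨.ofNat 0, .negSucc 3242, .ofNat 2342, .ofNat
  2314⟩ ⟨.ofNat 0, .ofNat 0, .ofNat 0, .ofNat 1⟩, .l ⟨.ofNat 0, .negSucc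
  1982, .negSucc 260, .ofNat 226⟩ ⟨.ofNat 0, .ofNat 0, .ofNat 0, .ofNat 1⟩,
  .l ⟨.ofNat 0, .ofNat 510, .negSucc 1933, .negSucc 828⟩ ⟨.ofNat 0, .ofNat
  0, .ofNat 0, .ofNat 1⟩],
[.q ⟨.negSucc 2, .negSucc 16, .ofNat 20, .ofNat 0⟩ ⟨.negSucc 36, .ofNat 17,
  .ofNat 20, .ofNat 0⟩, .q ⟨.ofNat 1, .ofNat 19, .negSucc 19, .ofNat 0⟩
  ⟨.negSucc 38, .ofNat 19, .ofNat 20, .ofNat 0⟩, .q ⟨.ofNat 37, .negSucc 16,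
  .negSucc 19, .ofNat 0⟩ ⟨.ofNat 1013, .negSucc 12, .ofNat 0, .negSucc 999⟩,
  .q ⟨.ofNat 39, .negSucc 18, .negSucc 19, .ofNat 0⟩ ⟨.ofNat 1013, .negSucc
  12, .ofNat 0, .negSucc 999⟩, .q ⟨.ofNat 37, .negSucc 16, .negSucc 19,
  .ofNat 0⟩ ⟨.negSucc 1605, .ofNat 767, .negSucc 930, .ofNat 1770⟩, .q
  ⟨.ofNat 39, .negSucc 18, .negSucc 19, .ofNat 0⟩ ⟨.negSucc 1605, .ofNat
  767, .negSucc 930, .ofNat 1770⟩, .q ⟨.ofNat 37, .negSucc 16, .negSucc 19,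
  .ofNat 0⟩ ⟨.ofNat 3820, .ofNat 1525, .negSucc 1745, .negSucc 3598⟩, .q
  ⟨.ofNat 39, .negSucc 18, .negSucc 19, .ofNat 0⟩ ⟨.ofNat 3820, .ofNat 1525,
  .negSucc 1745, .negSucc 3598⟩],
[.q ⟨.negSucc 0, .ofNat 0, .ofNat 0, .ofNat 1⟩ ⟨.ofNat 2474, .negSucc 2950,
  .negSucc 2699, .ofNat 3177⟩, .q ⟨.negSucc 0, .ofNat 0, .ofNat 0, .ofNat 1⟩
  ⟨.negSucc 3234, .ofNat 3979, .negSucc 407, .negSucc 335⟩, .q ⟨.negSucc 0,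
  .ofNat 0, .ofNat 0, .ofNat 1⟩ ⟨.negSucc 76, .ofNat 0, .ofNat 400, .negSucc
  322⟩, .q ⟨.negSucc 0, .ofNat 0, .ofNat 0, .ofNat 1⟩ ⟨.ofNat 667, .negSucc
  1413, .ofNat 1414, .negSucc 666⟩],
[.q ⟨.negSucc 0, .ofNat 1, .ofNat 0, .ofNat 0⟩ ⟨.negSucc 1822, .negSucc 96,
  .ofNat 1920, .ofNat 0⟩, .q ⟨.negSucc 0, .ofNat 1, .ofNat 0, .ofNat 0⟩
  ⟨.ofNat 961, .ofNat 959, .negSucc 1919, .ofNat 0⟩, .l ⟨.ofNat 0, .ofNat 0,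
  .negSucc 1919, .ofNat 19⟩ ⟨.ofNat 0, .ofNat 0, .ofNat 0, .ofNat 1⟩, .l
  ⟨.ofNat 0, .ofNat 0, .ofNat 160, .ofNat 9⟩ ⟨.ofNat 0, .ofNat 0, .ofNat 0,
  .ofNat 1⟩],
[.l ⟨.ofNat 0, .negSucc 3999, .ofNat 0, .ofNat 127⟩ ⟨.ofNat 0, .ofNat 0,
  .ofNat 0, .ofNat 1⟩, .l ⟨.ofNat 0, .ofNat 2039, .negSucc 3440, .ofNat
  8107⟩ ⟨.ofNat 0, .ofNat 0, .ofNat 0, .ofNat 1⟩, .l ⟨.ofNat 0, .ofNat 3965,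
  .negSucc 527, .negSucc 366⟩ ⟨.ofNat 0, .ofNat 0, .ofNat 0, .ofNat 1⟩, .l
  ⟨.ofNat 0, .negSucc 1413, .ofNat 1414, .ofNat 1325⟩ ⟨.ofNat 0, .ofNat 0,
  .ofNat 0, .ofNat 1⟩],
[.q ⟨.negSucc 0, .ofNat 0, .ofNat 0, .ofNat 1⟩ ⟨.ofNat 3339, .negSucc 3747,
  .ofNat 1398, .negSucc 988⟩, .q ⟨.negSucc 0, .ofNat 0, .ofNat 0, .ofNat 1⟩
  ⟨.ofNat 3388, .negSucc 3818, .negSucc 1190, .ofNat 1622⟩, .q ⟨.negSucc 0,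
  .ofNat 0, .ofNat 0, .ofNat 1⟩ ⟨.negSucc 413, .ofNat 268, .negSucc 3990,
  .ofNat 4137⟩, .q ⟨.negSucc 0, .ofNat 0, .ofNat 0, .ofNat 1⟩ ⟨.negSucc
  3415, .ofNat 3525, .ofNat 1890, .negSucc 1998⟩],
[.q ⟨.negSucc 25, .negSucc 20, .ofNat 15, .ofNat 32⟩ ⟨.ofNat 8204, .negSucc
  4819, .negSucc 11959, .ofNat 8576⟩, .q ⟨.negSucc 25, .negSucc 20, .ofNat
  15, .ofNat 32⟩ ⟨.negSucc 43, .ofNat 9548, .negSucc 11167, .ofNat 1664⟩, .q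
  ⟨.negSucc 25, .negSucc 20, .ofNat 15, .ofNat 32⟩ ⟨.negSucc 4315, .negSucc
  2891, .ofNat 12328, .negSucc 5119⟩],
[.q ⟨.negSucc 21, .negSucc 17, .ofNat 40, .ofNat 0⟩ ⟨.negSucc 57, .ofNat 18,
  .ofNat 40, .ofNat 0⟩, .q ⟨.ofNat 19, .ofNat 21, .negSucc 39, .ofNat 0⟩
  ⟨.negSucc 60, .ofNat 21, .ofNat 40, .ofNat 0⟩, .q ⟨.ofNat 58, .negSucc 17,
  .negSucc 39, .ofNat 0⟩ ⟨.ofNat 13402, .negSucc 7999, .negSucc 1862,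
  .negSucc 3538⟩, .q ⟨.ofNat 61, .negSucc 20, .negSucc 39, .ofNat 0⟩ ⟨.ofNat
  13402, .negSucc 7999, .negSucc 1862, .negSucc 3538⟩, .q ⟨.ofNat 58,
  .negSucc 17, .negSucc 39, .ofNat 0⟩ ⟨.ofNat 366, .negSucc 3024, .negSucc
  1166, .ofNat 3826⟩, .q ⟨.ofNat 61, .negSucc 20, .negSucc 39, .ofNat 0⟩
  ⟨.ofNat 366, .negSucc 3024, .negSucc 1166, .ofNat 3826⟩, .q ⟨.ofNat 58,
  .negSucc 17, .negSucc 39, .ofNat 0⟩ ⟨.ofNat 1129, .ofNat 3915, .negSucc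
  1240, .negSucc 3802⟩, .q ⟨.ofNat 61, .negSucc 20, .negSucc 39, .ofNat 0⟩
  ⟨.ofNat 1129, .ofNat 3915, .negSucc 1240, .negSucc 3802⟩],
[.q ⟨.negSucc 5, .negSucc 13, .ofNat 20, .ofNat 0⟩ ⟨.negSucc 33, .ofNat 14,
  .ofNat 20, .ofNat 0⟩, .q ⟨.ofNat 3, .ofNat 17, .negSucc 19, .ofNat 0⟩
  ⟨.negSucc 36, .ofNat 17, .ofNat 20, .ofNat 0⟩, .q ⟨.ofNat 34, .negSucc 13,
  .negSucc 19, .ofNat 0⟩ ⟨.ofNat 3030, .ofNat 1128, .negSucc 160, .negSucc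
  3996⟩, .q ⟨.ofNat 37, .negSucc 16, .negSucc 19, .ofNat 0⟩ ⟨.ofNat 3030,
  .ofNat 1128, .negSucc 160, .negSucc 3996⟩, .q ⟨.ofNat 34, .negSucc 13,
  .negSucc 19, .ofNat 0⟩ ⟨.ofNat 42, .negSucc 635, .ofNat 23, .ofNat 571⟩,
  .q ⟨.ofNat 37, .negSucc 16, .negSucc 19, .ofNat 0⟩ ⟨.ofNat 42, .negSucc
  635, .ofNat 23, .ofNat 571⟩, .q ⟨.ofNat 34, .negSucc 13, .negSucc 19,
  .ofNat 0⟩ ⟨.ofNat 2962, .ofNat 2584, .negSucc 2214, .negSucc 3330⟩, .q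
  ⟨.ofNat 37, .negSucc 16, .negSucc 19, .ofNat 0⟩ ⟨.ofNat 2962, .ofNat 2584,
  .negSucc 2214, .negSucc 3330⟩],
[.q ⟨.negSucc 0, .ofNat 0, .ofNat 0, .ofNat 1⟩ ⟨.ofNat 3572, .negSucc 3842,
  .negSucc 1108, .ofNat 1380⟩, .q ⟨.negSucc 0, .ofNat 0, .ofNat 0, .ofNat 1⟩
  ⟨.negSucc 3637, .ofNat 3778, .negSucc 1312, .ofNat 1173⟩, .q ⟨.negSucc 0,
  .ofNat 0, .ofNat 0, .ofNat 1⟩ ⟨.ofNat 1170, .negSucc 1554, .ofNat 3686,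
  .negSucc 3300⟩],
[.q ⟨.negSucc 2, .negSucc 16, .ofNat 20, .ofNat 0⟩ ⟨.negSucc 36, .ofNat 17,
  .ofNat 20, .ofNat 0⟩, .q ⟨.ofNat 0, .ofNat 20, .negSucc 19, .ofNat 0⟩
  ⟨.negSucc 39, .ofNat 20, .ofNat 20, .ofNat 0⟩, .q ⟨.ofNat 37, .negSucc 16,
  .negSucc 19, .ofNat 0⟩ ⟨.ofNat 811, .negSucc 10, .ofNat 0, .negSucc 799⟩,
  .q ⟨.ofNat 40, .negSucc 19, .negSucc 19, .ofNat 0⟩ ⟨.ofNat 811, .negSucc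
  10, .ofNat 0, .negSucc 799⟩, .q ⟨.ofNat 37, .negSucc 16, .negSucc 19,
  .ofNat 0⟩ ⟨.negSucc 3566, .ofNat 991, .negSucc 1229, .ofNat 3806⟩, .q
  ⟨.ofNat 40, .negSucc 19, .negSucc 19, .ofNat 0⟩ ⟨.negSucc 3566, .ofNat
  991, .negSucc 1229, .ofNat 3806⟩, .q ⟨.ofNat 37, .negSucc 16, .negSucc 19,
  .ofNat 0⟩ ⟨.ofNat 2001, .ofNat 462, .negSucc 535, .negSucc 1926⟩, .q
  ⟨.ofNat 40, .negSucc 19, .negSucc 19, .ofNat 0⟩ ⟨.ofNat 2001, .ofNat 462,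
  .negSucc 535, .negSucc 1926⟩],
[.q ⟨.negSucc 4, .negSucc 14, .ofNat 20, .ofNat 0⟩ ⟨.negSucc 34, .ofNat 15,
  .ofNat 20, .ofNat 0⟩, .q ⟨.ofNat 3, .ofNat 17, .negSucc 19, .ofNat 0⟩
  ⟨.negSucc 36, .ofNat 17, .ofNat 20, .ofNat 0⟩, .q ⟨.ofNat 35, .negSucc 14,
  .negSucc 19, .ofNat 0⟩ ⟨.ofNat 2979, .ofNat 1117, .negSucc 96, .negSucc
  3998⟩, .q ⟨.ofNat 37, .negSucc 16, .negSucc 19, .ofNat 0⟩ ⟨.ofNat 2979,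
  .ofNat 1117, .negSucc 96, .negSucc 3998⟩, .q ⟨.ofNat 35, .negSucc 14,
  .negSucc 19, .ofNat 0⟩ ⟨.negSucc 270, .negSucc 5318, .ofNat 2363, .ofNat
  3227⟩, .q ⟨.ofNat 37, .negSucc 16, .negSucc 19, .ofNat 0⟩ ⟨.negSucc 270,
  .negSucc 5318, .ofNat 2363, .ofNat 3227⟩],
[.l ⟨.ofNat 0, .ofNat 40, .ofNat 0, .negSucc 32⟩ ⟨.ofNat 0, .ofNat 40,
  .ofNat 0, .ofNat 33⟩, .l ⟨.ofNat 0, .negSucc 39, .ofNat 0, .ofNat 37⟩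
  ⟨.ofNat 0, .ofNat 40, .ofNat 0, .ofNat 37⟩, .l ⟨.ofNat 0, .ofNat 40,
  .ofNat 0, .negSucc 32⟩ ⟨.ofNat 0, .ofNat 0, .ofNat 4000, .ofNat 2573⟩, .l
  ⟨.ofNat 0, .ofNat 40, .ofNat 0, .negSucc 36⟩ ⟨.ofNat 0, .ofNat 0, .ofNat
  4000, .ofNat 2573⟩, .l ⟨.ofNat 0, .ofNat 40, .ofNat 0, .negSucc 32⟩
  ⟨.ofNat 0, .ofNat 0, .negSucc 999, .negSucc 830⟩, .l ⟨.ofNat 0, .ofNat 40,
  .ofNat 0, .negSucc 36⟩ ⟨.ofNat 0, .ofNat 0, .negSucc 999, .negSucc 830⟩],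
[.l ⟨.ofNat 0, .ofNat 40, .ofNat 0, .negSucc 33⟩ ⟨.ofNat 0, .ofNat 40,
  .ofNat 0, .ofNat 34⟩, .l ⟨.ofNat 0, .negSucc 39, .ofNat 0, .ofNat 37⟩
  ⟨.ofNat 0, .ofNat 40, .ofNat 0, .ofNat 37⟩, .l ⟨.ofNat 0, .ofNat 40,
  .ofNat 0, .negSucc 33⟩ ⟨.ofNat 0, .ofNat 0, .ofNat 4000, .ofNat 2101⟩, .l
  ⟨.ofNat 0, .ofNat 40, .ofNat 0, .negSucc 36⟩ ⟨.ofNat 0, .ofNat 0, .ofNat
  4000, .ofNat 2101⟩, .l ⟨.ofNat 0, .ofNat 40, .ofNat 0, .negSucc 33⟩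
  ⟨.ofNat 0, .ofNat 0, .negSucc 499, .negSucc 416⟩, .l ⟨.ofNat 0, .ofNat 40,
  .ofNat 0, .negSucc 36⟩ ⟨.ofNat 0, .ofNat 0, .negSucc 499, .negSucc 416⟩],
[.q ⟨.ofNat 8, .ofNat 0, .negSucc 22, .ofNat 15⟩ ⟨.negSucc 6297, .ofNat 0,
  .negSucc 2281, .ofNat 8580⟩, .q ⟨.ofNat 8, .ofNat 0, .negSucc 22, .ofNat
  15⟩ ⟨.ofNat 7822, .negSucc 14737, .ofNat 21241, .negSucc 14324⟩, .q
  ⟨.ofNat 8, .ofNat 0, .negSucc 22, .ofNat 15⟩ ⟨.ofNat 4884, .ofNat 0,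
  .ofNat 1491, .negSucc 6374⟩, .q ⟨.ofNat 8, .ofNat 0, .negSucc 22, .ofNat
  15⟩ ⟨.negSucc 1691, .ofNat 4184, .negSucc 5956, .ofNat 3465⟩, .q ⟨.ofNat
  8, .ofNat 0, .negSucc 22, .ofNat 15⟩ ⟨.ofNat 6860, .negSucc 14109, .ofNat
  20120, .negSucc 12869⟩],
[.l ⟨.ofNat 0, .negSucc 2827, .ofNat 2828, .ofNat 2615⟩ ⟨.ofNat 0, .ofNat 0,
  .ofNat 0, .ofNat 1⟩, .l ⟨.ofNat 0, .negSucc 3862, .ofNat 1037, .ofNat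
  1126⟩ ⟨.ofNat 0, .ofNat 0, .ofNat 0, .ofNat 1⟩, .l ⟨.ofNat 0, .ofNat 0,
  .negSucc 3999, .negSucc 1612⟩ ⟨.ofNat 0, .ofNat 0, .ofNat 0, .ofNat 1⟩, .l
  ⟨.ofNat 0, .ofNat 4000, .ofNat 0, .ofNat 119⟩ ⟨.ofNat 0, .ofNat 0, .ofNat
  0, .ofNat 1⟩],
[.q ⟨.negSucc 18, .negSucc 20, .ofNat 40, .ofNat 0⟩ ⟨.negSucc 60, .ofNat 21,
  .ofNat 40, .ofNat 0⟩, .q ⟨.ofNat 16, .ofNat 24, .negSucc 39, .ofNat 0⟩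
  ⟨.negSucc 63, .ofNat 24, .ofNat 40, .ofNat 0⟩, .q ⟨.ofNat 61, .negSucc 20,
  .negSucc 39, .ofNat 0⟩ ⟨.ofNat 2514, .ofNat 2531, .negSucc 1242, .negSucc
  3801⟩, .q ⟨.ofNat 64, .negSucc 23, .negSucc 39, .ofNat 0⟩ ⟨.ofNat 2514,
  .ofNat 2531, .negSucc 1242, .negSucc 3801⟩, .q ⟨.ofNat 61, .negSucc 20,
  .negSucc 39, .ofNat 0⟩ ⟨.negSucc 1771, .negSucc 3272, .ofNat 1243, .ofNat
  3802⟩, .q ⟨.ofNat 64, .negSucc 23, .negSucc 39, .ofNat 0⟩ ⟨.negSucc 1771,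
  .negSucc 3272, .ofNat 1243, .ofNat 3802⟩],
[.l ⟨.ofNat 0, .ofNat 40, .ofNat 0, .negSucc 36⟩ ⟨.ofNat 0, .ofNat 40,
  .ofNat 0, .ofNat 37⟩, .l ⟨.ofNat 0, .negSucc 39, .ofNat 0, .ofNat 41⟩
  ⟨.ofNat 0, .ofNat 40, .ofNat 0, .ofNat 41⟩, .l ⟨.ofNat 0, .ofNat 40,
  .ofNat 0, .negSucc 36⟩ ⟨.ofNat 0, .ofNat 1056, .ofNat 3858, .ofNat 2879⟩,
  .l ⟨.ofNat 0, .ofNat 40, .ofNat 0, .negSucc 40⟩ ⟨.ofNat 0, .ofNat 1056,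
  .ofNat 3858, .ofNat 2879⟩, .l ⟨.ofNat 0, .ofNat 40, .ofNat 0, .negSucc 36⟩
  ⟨.ofNat 0, .ofNat 1012, .negSucc 3869, .negSucc 2152⟩, .l ⟨.ofNat 0,
  .ofNat 40, .ofNat 0, .negSucc 40⟩ ⟨.ofNat 0, .ofNat 1012, .negSucc 3869,
  .negSucc 2152⟩],
[.l ⟨.ofNat 0, .ofNat 20, .ofNat 0, .negSucc 13⟩ ⟨.ofNat 0, .ofNat 20,
  .ofNat 0, .ofNat 14⟩, .l ⟨.ofNat 0, .negSucc 19, .ofNat 0, .ofNat 17⟩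
  ⟨.ofNat 0, .ofNat 20, .ofNat 0, .ofNat 17⟩, .l ⟨.ofNat 0, .ofNat 20,
  .ofNat 0, .negSucc 13⟩ ⟨.ofNat 0, .ofNat 0, .ofNat 2000, .negSucc 3002⟩,
  .l ⟨.ofNat 0, .ofNat 20, .ofNat 0, .negSucc 16⟩ ⟨.ofNat 0, .ofNat 0,
  .ofNat 2000, .negSucc 3002⟩, .l ⟨.ofNat 0, .ofNat 20, .ofNat 0, .negSucc
  13⟩ ⟨.ofNat 0, .ofNat 0, .negSucc 1999, .negSucc 1636⟩, .l ⟨.ofNat 0,
  .ofNat 20, .ofNat 0, .negSucc 16⟩ ⟨.ofNat 0, .ofNat 0, .negSucc 1999,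
  .negSucc 1636⟩, .l ⟨.ofNat 0, .ofNat 20, .ofNat 0, .negSucc 13⟩ ⟨.ofNat 0,
  .ofNat 2950, .ofNat 2701, .ofNat 4169⟩, .l ⟨.ofNat 0, .ofNat 20, .ofNat 0,
  .negSucc 16⟩ ⟨.ofNat 0, .ofNat 2950, .ofNat 2701, .ofNat 4169⟩],
[.l ⟨.ofNat 0, .ofNat 40, .ofNat 0, .negSucc 30⟩ ⟨.ofNat 0, .ofNat 40,
  .ofNat 0, .ofNat 31⟩, .l ⟨.ofNat 0, .negSucc 39, .ofNat 0, .ofNat 35⟩
  ⟨.ofNat 0, .ofNat 40, .ofNat 0, .ofNat 35⟩, .l ⟨.ofNat 0, .ofNat 40,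
  .ofNat 0, .negSucc 30⟩ ⟨.ofNat 0, .ofNat 831, .ofNat 3913, .ofNat 3344⟩,
  .l ⟨.ofNat 0, .ofNat 40, .ofNat 0, .negSucc 34⟩ ⟨.ofNat 0, .ofNat 831,
  .ofNat 3913, .ofNat 3344⟩, .l ⟨.ofNat 0, .ofNat 40, .ofNat 0, .negSucc 30⟩
  ⟨.ofNat 0, .ofNat 180, .negSucc 1320, .negSucc 945⟩, .l ⟨.ofNat 0, .ofNat
  40, .ofNat 0, .negSucc 34⟩ ⟨.ofNat 0, .ofNat 180, .negSucc 1320, .negSucc
  945⟩],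
[.q ⟨.negSucc 1, .negSucc 17, .ofNat 20, .ofNat 0⟩ ⟨.negSucc 37, .ofNat 18,
  .ofNat 20, .ofNat 0⟩, .q ⟨.ofNat 1, .ofNat 19, .negSucc 19, .ofNat 0⟩
  ⟨.negSucc 38, .ofNat 19, .ofNat 20, .ofNat 0⟩, .q ⟨.ofNat 38, .negSucc 17,
  .negSucc 19, .ofNat 0⟩ ⟨.ofNat 3275, .ofNat 1653, .negSucc 1074, .negSucc
  3852⟩, .q ⟨.ofNat 39, .negSucc 18, .negSucc 19, .ofNat 0⟩ ⟨.ofNat 3275,
  .ofNat 1653, .negSucc 1074, .negSucc 3852⟩, .q ⟨.ofNat 38, .negSucc 17,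
  .negSucc 19, .ofNat 0⟩ ⟨.ofNat 604, .negSucc 5531, .ofNat 1075, .ofNat
  3853⟩, .q ⟨.ofNat 39, .negSucc 18, .negSucc 19, .ofNat 0⟩ ⟨.ofNat 604,
  .negSucc 5531, .ofNat 1075, .ofNat 3853⟩, .q ⟨.ofNat 38, .negSucc 17,
  .negSucc 19, .ofNat 0⟩ ⟨.ofNat 2627, .ofNat 3028, .negSucc 2742, .negSucc
  2911⟩, .q ⟨.ofNat 39, .negSucc 18, .negSucc 19, .ofNat 0⟩ ⟨.ofNat 2627,
  .ofNat 3028, .negSucc 2742, .negSucc 2911⟩],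
[.q ⟨.negSucc 9, .negSucc 9, .ofNat 20, .ofNat 0⟩ ⟨.negSucc 29, .ofNat 10,
  .ofNat 20, .ofNat 0⟩, .q ⟨.ofNat 7, .ofNat 13, .negSucc 19, .ofNat 0⟩
  ⟨.negSucc 32, .ofNat 13, .ofNat 20, .ofNat 0⟩, .q ⟨.ofNat 30, .negSucc 9,
  .negSucc 19, .ofNat 0⟩ ⟨.ofNat 785, .ofNat 1994, .negSucc 1125, .negSucc
  1652⟩, .q ⟨.ofNat 33, .negSucc 12, .negSucc 19, .ofNat 0⟩ ⟨.ofNat 785,
  .ofNat 1994, .negSucc 1125, .negSucc 1652⟩, .q ⟨.ofNat 30, .negSucc 9,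
  .negSucc 19, .ofNat 0⟩ ⟨.ofNat 275, .negSucc 953, .negSucc 539, .ofNat
  1219⟩, .q ⟨.ofNat 33, .negSucc 12, .negSucc 19, .ofNat 0⟩ ⟨.ofNat 275,
  .negSucc 953, .negSucc 539, .ofNat 1219⟩],
[.q ⟨.negSucc 19, .negSucc 19, .ofNat 40, .ofNat 0⟩ ⟨.negSucc 59, .ofNat 20,
  .ofNat 40, .ofNat 0⟩, .q ⟨.ofNat 17, .ofNat 23, .negSucc 39, .ofNat 0⟩
  ⟨.negSucc 62, .ofNat 23, .ofNat 40, .ofNat 0⟩, .q ⟨.ofNat 60, .negSucc 19,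
  .negSucc 39, .ofNat 0⟩ ⟨.ofNat 1672, .negSucc 240, .ofNat 2021, .negSucc
  3451⟩, .q ⟨.ofNat 63, .negSucc 22, .negSucc 39, .ofNat 0⟩ ⟨.ofNat 1672,
  .negSucc 240, .ofNat 2021, .negSucc 3451⟩, .q ⟨.ofNat 60, .negSucc 19,
  .negSucc 39, .ofNat 0⟩ ⟨.negSucc 880, .negSucc 549, .negSucc 2020, .ofNat
  3452⟩, .q ⟨.ofNat 63, .negSucc 22, .negSucc 39, .ofNat 0⟩ ⟨.negSucc 880,
  .negSucc 549, .negSucc 2020, .ofNat 3452⟩, .q ⟨.ofNat 60, .negSucc 19,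
  .negSucc 39, .ofNat 0⟩ ⟨.ofNat 409, .ofNat 804, .negSucc 3368, .ofNat
  2156⟩, .q ⟨.ofNat 63, .negSucc 22, .negSucc 39, .ofNat 0⟩ ⟨.ofNat 409,
  .ofNat 804, .negSucc 3368, .ofNat 2156⟩],
[.l ⟨.ofNat 0, .ofNat 10, .ofNat 0, .negSucc 8⟩ ⟨.ofNat 0, .ofNat 10, .ofNat
  0, .ofNat 9⟩, .l ⟨.ofNat 0, .negSucc 9, .ofNat 0, .ofNat 10⟩ ⟨.ofNat 0,
  .ofNat 10, .ofNat 0, .ofNat 10⟩, .l ⟨.ofNat 0, .ofNat 10, .ofNat 0,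
  .negSucc 8⟩ ⟨.ofNat 0, .ofNat 0, .ofNat 1000, .negSucc 1930⟩, .l ⟨.ofNat
  0, .ofNat 10, .ofNat 0, .negSucc 9⟩ ⟨.ofNat 0, .ofNat 0, .ofNat 1000,
  .negSucc 1930⟩, .l ⟨.ofNat 0, .ofNat 10, .ofNat 0, .negSucc 8⟩ ⟨.ofNat 0,
  .ofNat 0, .negSucc 3999, .negSucc 4310⟩, .l ⟨.ofNat 0, .ofNat 10, .ofNat
  0, .negSucc 9⟩ ⟨.ofNat 0, .ofNat 0, .negSucc 3999, .negSucc 4310⟩, .l
  ⟨.ofNat 0, .ofNat 10, .ofNat 0, .negSucc 8⟩ ⟨.ofNat 0, .ofNat 601, .ofNat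
  3955, .ofNat 4071⟩, .l ⟨.ofNat 0, .ofNat 10, .ofNat 0, .negSucc 9⟩ ⟨.ofNat
  0, .ofNat 601, .ofNat 3955, .ofNat 4071⟩, .l ⟨.ofNat 0, .ofNat 10, .ofNat
  0, .negSucc 8⟩ ⟨.ofNat 0, .ofNat 589, .negSucc 3955, .negSucc 3716⟩, .l
  ⟨.ofNat 0, .ofNat 10, .ofNat 0, .negSucc 9⟩ ⟨.ofNat 0, .ofNat 589,
  .negSucc 3955, .negSucc 3716⟩],
[.l ⟨.ofNat 0, .ofNat 3977, .ofNat 426, .ofNat 505⟩ ⟨.ofNat 0, .ofNat 0,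
  .ofNat 0, .ofNat 1⟩, .l ⟨.ofNat 0, .negSucc 263, .ofNat 1307, .ofNat 1195⟩
  ⟨.ofNat 0, .ofNat 0, .ofNat 0, .ofNat 1⟩, .l ⟨.ofNat 0, .negSucc 3544,
  .ofNat 1853, .ofNat 1783⟩ ⟨.ofNat 0, .ofNat 0, .ofNat 0, .ofNat 1⟩, .l
  ⟨.ofNat 0, .negSucc 706, .negSucc 706, .negSucc 268⟩ ⟨.ofNat 0, .ofNat 0,
  .ofNat 0, .ofNat 1⟩],
[.l ⟨.ofNat 0, .ofNat 10, .ofNat 0, .negSucc 7⟩ ⟨.ofNat 0, .ofNat 10, .ofNat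
  0, .ofNat 8⟩, .l ⟨.ofNat 0, .negSucc 9, .ofNat 0, .ofNat 9⟩ ⟨.ofNat 0,
  .ofNat 10, .ofNat 0, .ofNat 9⟩, .l ⟨.ofNat 0, .ofNat 10, .ofNat 0,
  .negSucc 7⟩ ⟨.ofNat 0, .negSucc 146, .ofNat 3997, .ofNat 2547⟩, .l ⟨.ofNat
  0, .ofNat 10, .ofNat 0, .negSucc 8⟩ ⟨.ofNat 0, .negSucc 146, .ofNat 3997,
  .ofNat 2547⟩, .l ⟨.ofNat 0, .ofNat 10, .ofNat 0, .negSucc 7⟩ ⟨.ofNat 0,
  .ofNat 147, .negSucc 3996, .negSucc 3190⟩, .l ⟨.ofNat 0, .ofNat 10, .ofNat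
  0, .negSucc 8⟩ ⟨.ofNat 0, .ofNat 147, .negSucc 3996, .negSucc 3190⟩],
[.q ⟨.negSucc 0, .ofNat 0, .ofNat 0, .ofNat 1⟩ ⟨.ofNat 3697, .negSucc 3999,
  .ofNat 61, .ofNat 242⟩, .q ⟨.negSucc 0, .ofNat 0, .ofNat 0, .ofNat 1⟩
  ⟨.ofNat 108, .ofNat 41, .negSucc 798, .ofNat 650⟩, .q ⟨.negSucc 0, .ofNat
  0, .ofNat 0, .ofNat 1⟩ ⟨.negSucc 3886, .ofNat 3974, .negSucc 456, .ofNat
  370⟩, .q ⟨.negSucc 0, .ofNat 0, .ofNat 0, .ofNat 1⟩ ⟨.negSucc 228, .ofNat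
  0, .ofNat 500, .negSucc 270⟩],
[.q ⟨.negSucc 40, .negSucc 38, .ofNat 80, .ofNat 0⟩ ⟨.negSucc 118, .ofNat
  39, .ofNat 80, .ofNat 0⟩, .q ⟨.ofNat 39, .ofNat 41, .negSucc 79, .ofNat 0⟩
  ⟨.negSucc 120, .ofNat 41, .ofNat 80, .ofNat 0⟩, .q ⟨.ofNat 119, .negSucc
  38, .negSucc 79, .ofNat 0⟩ ⟨.ofNat 525, .ofNat 518, .negSucc 43, .negSucc
  998⟩, .q ⟨.ofNat 121, .negSucc 40, .negSucc 79, .ofNat 0⟩ ⟨.ofNat 525,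
  .ofNat 518, .negSucc 43, .negSucc 998⟩, .q ⟨.ofNat 119, .negSucc 38,
  .negSucc 79, .ofNat 0⟩ ⟨.negSucc 1770, .negSucc 2400, .ofNat 176, .ofNat
  3996⟩, .q ⟨.ofNat 121, .negSucc 40, .negSucc 79, .ofNat 0⟩ ⟨.negSucc 1770,
  .negSucc 2400, .ofNat 176, .ofNat 3996⟩, .q ⟨.ofNat 119, .negSucc 38,
  .negSucc 79, .ofNat 0⟩ ⟨.ofNat 2627, .ofNat 2618, .negSucc 3681, .negSucc
  1562⟩, .q ⟨.ofNat 121, .negSucc 40, .negSucc 79, .ofNat 0⟩ ⟨.ofNat 2627,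
  .ofNat 2618, .negSucc 3681, .negSucc 1562⟩],
[.q ⟨.negSucc 0, .ofNat 1, .ofNat 0, .ofNat 0⟩ ⟨.negSucc 538, .negSucc 100,
  .ofNat 640, .ofNat 0⟩, .q ⟨.negSucc 0, .ofNat 1, .ofNat 0, .ofNat 0⟩
  ⟨.ofNat 961, .ofNat 959, .negSucc 1919, .ofNat 0⟩, .l ⟨.ofNat 0, .ofNat 0,
  .negSucc 639, .ofNat 23⟩ ⟨.ofNat 0, .ofNat 0, .ofNat 0, .ofNat 1⟩, .l
  ⟨.ofNat 0, .ofNat 0, .ofNat 12, .ofNat 1⟩ ⟨.ofNat 0, .ofNat 0, .ofNat 0,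
  .ofNat 1⟩],
[.l ⟨.ofNat 0, .ofNat 20, .ofNat 0, .negSucc 14⟩ ⟨.ofNat 0, .ofNat 20,
  .ofNat 0, .ofNat 15⟩, .l ⟨.ofNat 0, .negSucc 19, .ofNat 0, .ofNat 18⟩
  ⟨.ofNat 0, .ofNat 20, .ofNat 0, .ofNat 18⟩, .l ⟨.ofNat 0, .ofNat 20,
  .ofNat 0, .negSucc 14⟩ ⟨.ofNat 0, .negSucc 1706, .ofNat 3618, .negSucc
  8931⟩, .l ⟨.ofNat 0, .ofNat 20, .ofNat 0, .negSucc 17⟩ ⟨.ofNat 0, .negSucc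
  1706, .ofNat 3618, .negSucc 8931⟩, .l ⟨.ofNat 0, .ofNat 20, .ofNat 0,
  .negSucc 14⟩ ⟨.ofNat 0, .ofNat 569, .negSucc 1205, .negSucc 520⟩, .l
  ⟨.ofNat 0, .ofNat 20, .ofNat 0, .negSucc 17⟩ ⟨.ofNat 0, .ofNat 569,
  .negSucc 1205, .negSucc 520⟩, .l ⟨.ofNat 0, .ofNat 20, .ofNat 0, .negSucc
  14⟩ ⟨.ofNat 0, .ofNat 2905, .ofNat 2749, .ofNat 4163⟩, .l ⟨.ofNat 0,
  .ofNat 20, .ofNat 0, .negSucc 17⟩ ⟨.ofNat 0, .ofNat 2905, .ofNat 2749,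
  .ofNat 4163⟩, .l ⟨.ofNat 0, .ofNat 20, .ofNat 0, .negSucc 14⟩ ⟨.ofNat 0,
  .negSucc 409, .negSucc 3978, .negSucc 3672⟩, .l ⟨.ofNat 0, .ofNat 20,
  .ofNat 0, .negSucc 17⟩ ⟨.ofNat 0, .negSucc 409, .negSucc 3978, .negSucc
  3672⟩],
[.q ⟨.negSucc 0, .ofNat 0, .ofNat 0, .ofNat 1⟩ ⟨.negSucc 644, .ofNat 642,
  .negSucc 1893, .ofNat 1897⟩, .q ⟨.negSucc 0, .ofNat 0, .ofNat 0, .ofNat 1⟩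
  ⟨.negSucc 3213, .ofNat 3041, .ofNat 2599, .negSucc 2425⟩, .q ⟨.negSucc 0,
  .ofNat 0, .ofNat 0, .ofNat 1⟩ ⟨.ofNat 1450, .negSucc 1851, .ofNat 3545,
  .negSucc 3142⟩, .q ⟨.negSucc 0, .ofNat 0, .ofNat 0, .ofNat 1⟩ ⟨.ofNat
  3538, .negSucc 3936, .ofNat 705, .negSucc 305⟩],
[.q ⟨.negSucc 0, .ofNat 0, .ofNat 0, .ofNat 1⟩ ⟨.ofNat 2490, .negSucc 2850,
  .negSucc 2805, .ofNat 3167⟩, .q ⟨.negSucc 0, .ofNat 0, .ofNat 0, .ofNat 1⟩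
  ⟨.negSucc 5, .ofNat 0, .negSucc 124, .ofNat 131⟩, .q ⟨.negSucc 0, .ofNat
  0, .ofNat 0, .ofNat 1⟩ ⟨.negSucc 2930, .ofNat 3001, .ofNat 2644, .negSucc
  2713⟩, .q ⟨.negSucc 0, .ofNat 0, .ofNat 0, .ofNat 1⟩ ⟨.ofNat 2701,
  .negSucc 2992, .ofNat 2654, .negSucc 2361⟩],
[.l ⟨.ofNat 0, .ofNat 0, .negSucc 199, .negSucc 98⟩ ⟨.ofNat 0, .ofNat 0,
  .ofNat 0, .ofNat 1⟩, .l ⟨.ofNat 0, .ofNat 1819, .ofNat 831, .ofNat 1212⟩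
  ⟨.ofNat 0, .ofNat 0, .ofNat 0, .ofNat 1⟩, .l ⟨.ofNat 0, .negSucc 1581,
  .ofNat 3674, .ofNat 2413⟩ ⟨.ofNat 0, .ofNat 0, .ofNat 0, .ofNat 1⟩, .l
  ⟨.ofNat 0, .negSucc 3980, .ofNat 387, .ofNat 1016⟩ ⟨.ofNat 0, .ofNat 0,
  .ofNat 0, .ofNat 1⟩],
[.q ⟨.negSucc 0, .ofNat 0, .ofNat 0, .ofNat 1⟩ ⟨.ofNat 979, .negSucc 752,
  .negSucc 3927, .ofNat 3702⟩, .q ⟨.negSucc 0, .ofNat 0, .ofNat 0, .ofNat 1⟩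
  ⟨.negSucc 8, .ofNat 10, .ofNat 0, .negSucc 0⟩, .q ⟨.negSucc 0, .ofNat 0,
  .ofNat 0, .ofNat 1⟩ ⟨.ofNat 3043, .negSucc 3798, .ofNat 1253, .negSucc
  496⟩],
[.q ⟨.negSucc 6, .negSucc 12, .ofNat 20, .ofNat 0⟩ ⟨.negSucc 32, .ofNat 13,
  .ofNat 20, .ofNat 0⟩, .q ⟨.ofNat 4, .ofNat 16, .negSucc 19, .ofNat 0⟩
  ⟨.negSucc 35, .ofNat 16, .ofNat 20, .ofNat 0⟩, .q ⟨.ofNat 33, .negSucc 12,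
  .negSucc 19, .ofNat 0⟩ ⟨.ofNat 1479, .ofNat 521, .ofNat 0, .negSucc 1999⟩,
  .q ⟨.ofNat 36, .negSucc 15, .negSucc 19, .ofNat 0⟩ ⟨.ofNat 1479, .ofNat
  521, .ofNat 0, .negSucc 1999⟩, .q ⟨.ofNat 33, .negSucc 12, .negSucc 19,
  .ofNat 0⟩ ⟨.ofNat 901, .negSucc 1314, .negSucc 2613, .ofNat 3028⟩, .q
  ⟨.ofNat 36, .negSucc 15, .negSucc 19, .ofNat 0⟩ ⟨.ofNat 901, .negSucc
  1314, .negSucc 2613, .ofNat 3028⟩, .q ⟨.ofNat 33, .negSucc 12, .negSucc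
  19, .ofNat 0⟩ ⟨.ofNat 2326, .ofNat 2996, .negSucc 3618, .negSucc 1702⟩, .q
  ⟨.ofNat 36, .negSucc 15, .negSucc 19, .ofNat 0⟩ ⟨.ofNat 2326, .ofNat 2996,
  .negSucc 3618, .negSucc 1702⟩],
[.l ⟨.ofNat 0, .ofNat 20, .ofNat 0, .negSucc 14⟩ ⟨.ofNat 0, .ofNat 20,
  .ofNat 0, .ofNat 15⟩, .l ⟨.ofNat 0, .negSucc 19, .ofNat 0, .ofNat 18⟩
  ⟨.ofNat 0, .ofNat 20, .ofNat 0, .ofNat 18⟩, .l ⟨.ofNat 0, .ofNat 20,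
  .ofNat 0, .negSucc 14⟩ ⟨.ofNat 0, .ofNat 0, .ofNat 2000, .negSucc 2688⟩,
  .l ⟨.ofNat 0, .ofNat 20, .ofNat 0, .negSucc 17⟩ ⟨.ofNat 0, .ofNat 0,
  .ofNat 2000, .negSucc 2688⟩, .l ⟨.ofNat 0, .ofNat 20, .ofNat 0, .negSucc
  14⟩ ⟨.ofNat 0, .ofNat 0, .negSucc 3999, .negSucc 3298⟩, .l ⟨.ofNat 0,
  .ofNat 20, .ofNat 0, .negSucc 17⟩ ⟨.ofNat 0, .ofNat 0, .negSucc 3999,
  .negSucc 3298⟩, .l ⟨.ofNat 0, .ofNat 20, .ofNat 0, .negSucc 14⟩ ⟨.ofNat 0,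
  .ofNat 3182, .ofNat 2424, .ofNat 4183⟩, .l ⟨.ofNat 0, .ofNat 20, .ofNat 0,
  .negSucc 17⟩ ⟨.ofNat 0, .ofNat 3182, .ofNat 2424, .ofNat 4183⟩],
[.l ⟨.ofNat 0, .ofNat 20, .ofNat 0, .negSucc 14⟩ ⟨.ofNat 0, .ofNat 20,
  .ofNat 0, .ofNat 15⟩, .l ⟨.ofNat 0, .negSucc 19, .ofNat 0, .ofNat 18⟩
  ⟨.ofNat 0, .ofNat 20, .ofNat 0, .ofNat 18⟩, .l ⟨.ofNat 0, .ofNat 20,
  .ofNat 0, .negSucc 14⟩ ⟨.ofNat 0, .negSucc 258, .ofNat 3992, .ofNat 2679⟩,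
  .l ⟨.ofNat 0, .ofNat 20, .ofNat 0, .negSucc 17⟩ ⟨.ofNat 0, .negSucc 258,
  .ofNat 3992, .ofNat 2679⟩, .l ⟨.ofNat 0, .ofNat 20, .ofNat 0, .negSucc 14⟩
  ⟨.ofNat 0, .ofNat 259, .negSucc 3991, .negSucc 3091⟩, .l ⟨.ofNat 0, .ofNat
  20, .ofNat 0, .negSucc 17⟩ ⟨.ofNat 0, .ofNat 259, .negSucc 3991, .negSucc
  3091⟩],
[.l ⟨.ofNat 0, .ofNat 40, .ofNat 0, .negSucc 35⟩ ⟨.ofNat 0, .ofNat 40,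
  .ofNat 0, .ofNat 36⟩, .l ⟨.ofNat 0, .negSucc 39, .ofNat 0, .ofNat 39⟩
  ⟨.ofNat 0, .ofNat 40, .ofNat 0, .ofNat 39⟩, .l ⟨.ofNat 0, .ofNat 40,
  .ofNat 0, .negSucc 35⟩ ⟨.ofNat 0, .ofNat 115, .ofNat 3998, .ofNat 2107⟩,
  .l ⟨.ofNat 0, .ofNat 40, .ofNat 0, .negSucc 38⟩ ⟨.ofNat 0, .ofNat 115,
  .ofNat 3998, .ofNat 2107⟩, .l ⟨.ofNat 0, .ofNat 40, .ofNat 0, .negSucc 35⟩
  ⟨.ofNat 0, .negSucc 114, .negSucc 3997, .negSucc 3431⟩, .l ⟨.ofNat 0,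
  .ofNat 40, .ofNat 0, .negSucc 38⟩ ⟨.ofNat 0, .negSucc 114, .negSucc 3997,
  .negSucc 3431⟩],
[.q ⟨.negSucc 0, .ofNat 0, .ofNat 0, .ofNat 1⟩ ⟨.ofNat 183, .negSucc 249,
  .ofNat 0, .ofNat 67⟩, .q ⟨.negSucc 0, .ofNat 0, .ofNat 0, .ofNat 1⟩
  ⟨.ofNat 1849, .negSucc 1833, .negSucc 3554, .ofNat 3540⟩, .q ⟨.negSucc 0,
  .ofNat 0, .ofNat 0, .ofNat 1⟩ ⟨.negSucc 204, .ofNat 570, .negSucc 3958,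
  .ofNat 3594⟩, .q ⟨.negSucc 0, .ofNat 0, .ofNat 0, .ofNat 1⟩ ⟨.negSucc
  3368, .ofNat 3890, .negSucc 930, .ofNat 410⟩, .q ⟨.negSucc 0, .ofNat 0,
  .ofNat 0, .ofNat 1⟩ ⟨.negSucc 1040, .ofNat 0, .ofNat 4000, .negSucc
  2958⟩],
[.q ⟨.ofNat 17, .negSucc 18, .negSucc 27, .ofNat 30⟩ ⟨.negSucc 4738, .ofNat
  2800, .ofNat 769, .ofNat 1170⟩, .q ⟨.ofNat 17, .negSucc 18, .negSucc 27,
  .ofNat 30⟩ ⟨.negSucc 725, .negSucc 1254, .ofNat 931, .ofNat 1050⟩, .q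
  ⟨.ofNat 17, .negSucc 18, .negSucc 27, .ofNat 30⟩ ⟨.ofNat 1808, .negSucc
  2077, .ofNat 120, .ofNat 150⟩, .q ⟨.ofNat 17, .negSucc 18, .negSucc 27,
  .ofNat 30⟩ ⟨.ofNat 2827, .ofNat 1311, .negSucc 2067, .negSucc 2069⟩],
[.l ⟨.ofNat 0, .ofNat 40, .ofNat 0, .negSucc 30⟩ ⟨.ofNat 0, .ofNat 40,
  .ofNat 0, .ofNat 31⟩, .l ⟨.ofNat 0, .negSucc 39, .ofNat 0, .ofNat 34⟩
  ⟨.ofNat 0, .ofNat 40, .ofNat 0, .ofNat 34⟩, .l ⟨.ofNat 0, .ofNat 40,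
  .ofNat 0, .negSucc 30⟩ ⟨.ofNat 0, .ofNat 206, .ofNat 3995, .ofNat 2917⟩,
  .l ⟨.ofNat 0, .ofNat 40, .ofNat 0, .negSucc 33⟩ ⟨.ofNat 0, .ofNat 206,
  .ofNat 3995, .ofNat 2917⟩, .l ⟨.ofNat 0, .ofNat 40, .ofNat 0, .negSucc 30⟩
  ⟨.ofNat 0, .negSucc 205, .negSucc 3994, .negSucc 3453⟩, .l ⟨.ofNat 0,
  .ofNat 40, .ofNat 0, .negSucc 33⟩ ⟨.ofNat 0, .negSucc 205, .negSucc 3994,
  .negSucc 3453⟩],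
[.q ⟨.negSucc 0, .ofNat 0, .ofNat 0, .ofNat 1⟩ ⟨.negSucc 1812, .ofNat 1884,
  .ofNat 672, .negSucc 742⟩, .q ⟨.negSucc 0, .ofNat 0, .ofNat 0, .ofNat 1⟩
  ⟨.ofNat 280, .negSucc 1592, .ofNat 3669, .negSucc 2355⟩, .q ⟨.negSucc 0,
  .ofNat 0, .ofNat 0, .ofNat 1⟩ ⟨.ofNat 2638, .negSucc 2835, .negSucc 2820,
  .ofNat 3019⟩, .q ⟨.negSucc 0, .ofNat 0, .ofNat 0, .ofNat 1⟩ ⟨.negSucc
  1147, .ofNat 1657, .negSucc 3640, .ofNat 3132⟩],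
[.q ⟨.negSucc 46, .ofNat 44, .negSucc 20, .ofNat 24⟩ ⟨.negSucc 24201, .ofNat
  760, .ofNat 6786, .ofNat 16656⟩, .q ⟨.negSucc 46, .ofNat 44, .negSucc 20,
  .ofNat 24⟩ ⟨.negSucc 25180, .negSucc 7835, .ofNat 305, .ofNat 32712⟩, .q
  ⟨.negSucc 46, .ofNat 44, .negSucc 20, .ofNat 24⟩ ⟨.ofNat 26908, .negSucc
  4111, .negSucc 10411, .negSucc 12383⟩, .q ⟨.negSucc 46, .ofNat 44,
  .negSucc 20, .ofNat 24⟩ ⟨.negSucc 23408, .ofNat 27012, .ofNat 25221,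
  .negSucc 28823⟩],
[.q ⟨.ofNat 8, .ofNat 0, .negSucc 22, .ofNat 15⟩ ⟨.ofNat 4884, .ofNat 0,
  .ofNat 1491, .negSucc 6374⟩, .q ⟨.ofNat 8, .ofNat 0, .negSucc 22, .ofNat
  15⟩ ⟨.negSucc 8187, .ofNat 13998, .negSucc 20734, .ofNat 14925⟩, .q
  ⟨.ofNat 8, .ofNat 0, .negSucc 22, .ofNat 15⟩ ⟨.negSucc 4671, .negSucc
  8411, .ofNat 8989, .ofNat 4095⟩, .q ⟨.ofNat 8, .ofNat 0, .negSucc 22,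
  .ofNat 15⟩ ⟨.ofNat 7132, .negSucc 12059, .ofNat 17618, .negSucc 12689⟩],
[.l ⟨.ofNat 0, .ofNat 0, .ofNat 8022, .ofNat 880⟩ ⟨.ofNat 0, .ofNat 0,
  .ofNat 1, .ofNat 40⟩, .l ⟨.ofNat 0, .ofNat 0, .negSucc 8019, .negSucc 799⟩
  ⟨.ofNat 0, .ofNat 0, .ofNat 1, .ofNat 40⟩, .l ⟨.ofNat 0, .negSucc 9999,
  .negSucc 223, .negSucc 8959⟩ ⟨.ofNat 0, .ofNat 0, .ofNat 1, .ofNat 40⟩, .l
  ⟨.ofNat 0, .ofNat 23360, .ofNat 15169, .ofNat 22760⟩ ⟨.ofNat 0, .ofNat 0,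
  .ofNat 1, .ofNat 40⟩],
[.q ⟨.negSucc 25, .negSucc 20, .ofNat 15, .ofNat 32⟩ ⟨.ofNat 9980, .negSucc
  21823, .ofNat 2884, .ofNat 8960⟩, .q ⟨.negSucc 25, .negSucc 20, .ofNat 15,
  .ofNat 32⟩ ⟨.ofNat 4504, .ofNat 2284, .negSucc 12291, .ofNat 5504⟩, .q
  ⟨.negSucc 25, .negSucc 20, .ofNat 15, .ofNat 32⟩ ⟨.negSucc 7171, .ofNat
  18500, .negSucc 6591, .negSucc 4735⟩, .q ⟨.negSucc 25, .negSucc 20, .ofNat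
  15, .ofNat 32⟩ ⟨.negSucc 4507, .negSucc 2599, .ofNat 12356, .negSucc
  5247⟩],
[.q ⟨.negSucc 2, .negSucc 6, .ofNat 10, .ofNat 0⟩ ⟨.negSucc 16, .ofNat 7,
  .ofNat 10, .ofNat 0⟩, .q ⟨.ofNat 2, .ofNat 8, .negSucc 9, .ofNat 0⟩
  ⟨.negSucc 17, .ofNat 8, .ofNat 10, .ofNat 0⟩, .q ⟨.ofNat 17, .negSucc 6,
  .negSucc 9, .ofNat 0⟩ ⟨.ofNat 3033, .ofNat 967, .ofNat 0, .negSucc 3999⟩,
  .q ⟨.ofNat 18, .negSucc 7, .negSucc 9, .ofNat 0⟩ ⟨.ofNat 3033, .ofNat 967,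
  .ofNat 0, .negSucc 3999⟩, .q ⟨.ofNat 17, .negSucc 6, .negSucc 9, .ofNat 0⟩
  ⟨.negSucc 762, .ofNat 400, .negSucc 1220, .ofNat 1584⟩, .q ⟨.ofNat 18,
  .negSucc 7, .negSucc 9, .ofNat 0⟩ ⟨.negSucc 762, .ofNat 400, .negSucc
  1220, .ofNat 1584⟩, .q ⟨.ofNat 17, .negSucc 6, .negSucc 9, .ofNat 0⟩
  ⟨.ofNat 2428, .negSucc 152, .ofNat 1452, .negSucc 3726⟩, .q ⟨.ofNat 18,
  .negSucc 7, .negSucc 9, .ofNat 0⟩ ⟨.ofNat 2428, .negSucc 152, .ofNat 1452,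
  .negSucc 3726⟩],
[.q ⟨.negSucc 5, .negSucc 33, .ofNat 40, .ofNat 0⟩ ⟨.negSucc 73, .ofNat 34,
  .ofNat 40, .ofNat 0⟩, .q ⟨.ofNat 3, .ofNat 37, .negSucc 39, .ofNat 0⟩
  ⟨.negSucc 76, .ofNat 37, .ofNat 40, .ofNat 0⟩, .q ⟨.ofNat 74, .negSucc 33,
  .negSucc 39, .ofNat 0⟩ ⟨.ofNat 4049, .negSucc 48, .ofNat 0, .negSucc
  3999⟩, .q ⟨.ofNat 77, .negSucc 36, .negSucc 39, .ofNat 0⟩ ⟨.ofNat 4049,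
  .negSucc 48, .ofNat 0, .negSucc 3999⟩, .q ⟨.ofNat 74, .negSucc 33,
  .negSucc 39, .ofNat 0⟩ ⟨.negSucc 380, .negSucc 18, .ofNat 0, .ofNat 400⟩,
  .q ⟨.ofNat 77, .negSucc 36, .negSucc 39, .ofNat 0⟩ ⟨.negSucc 380, .negSucc
  18, .ofNat 0, .ofNat 400⟩, .q ⟨.ofNat 74, .negSucc 33, .negSucc 39, .ofNat
  0⟩ ⟨.ofNat 3603, .ofNat 1942, .negSucc 2213, .negSucc 3330⟩, .q ⟨.ofNat
  77, .negSucc 36, .negSucc 39, .ofNat 0⟩ ⟨.ofNat 3603, .ofNat 1942,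
  .negSucc 2213, .negSucc 3330⟩, .q ⟨.ofNat 74, .negSucc 33, .negSucc 39,
  .ofNat 0⟩ ⟨.negSucc 2645, .ofNat 2127, .negSucc 2556, .ofNat 3076⟩, .q
  ⟨.ofNat 77, .negSucc 36, .negSucc 39, .ofNat 0⟩ ⟨.negSucc 2645, .ofNat
  2127, .negSucc 2556, .ofNat 3076⟩],
[.q ⟨.negSucc 0, .ofNat 1, .ofNat 0, .ofNat 0⟩ ⟨.negSucc 406, .negSucc 72,
  .ofNat 480, .ofNat 0⟩, .q ⟨.negSucc 0, .ofNat 1, .ofNat 0, .ofNat 0⟩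
  ⟨.ofNat 961, .ofNat 959, .negSucc 1919, .ofNat 0⟩, .l ⟨.ofNat 0, .ofNat 0,
  .negSucc 383, .ofNat 13⟩ ⟨.ofNat 0, .ofNat 0, .ofNat 0, .ofNat 1⟩, .l
  ⟨.ofNat 0, .ofNat 0, .ofNat 960, .ofNat 79⟩ ⟨.ofNat 0, .ofNat 0, .ofNat 0,
  .ofNat 1⟩],
[.l ⟨.ofNat 0, .ofNat 979, .negSucc 1743, .negSucc 886⟩ ⟨.ofNat 0, .ofNat 0,
  .ofNat 0, .ofNat 1⟩, .l ⟨.ofNat 0, .ofNat 4000, .ofNat 0, .ofNat 119⟩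
  ⟨.ofNat 0, .ofNat 0, .ofNat 0, .ofNat 1⟩, .l ⟨.ofNat 0, .negSucc 2827,
  .ofNat 2828, .ofNat 2591⟩ ⟨.ofNat 0, .ofNat 0, .ofNat 0, .ofNat 1⟩, .l
  ⟨.ofNat 0, .negSucc 3882, .ofNat 962, .ofNat 1104⟩ ⟨.ofNat 0, .ofNat 0,
  .ofNat 0, .ofNat 1⟩],
[.l ⟨.ofNat 0, .ofNat 40, .ofNat 0, .negSucc 28⟩ ⟨.ofNat 0, .ofNat 40,
  .ofNat 0, .ofNat 29⟩, .l ⟨.ofNat 0, .negSucc 39, .ofNat 0, .ofNat 32⟩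
  ⟨.ofNat 0, .ofNat 40, .ofNat 0, .ofNat 32⟩, .l ⟨.ofNat 0, .ofNat 40,
  .ofNat 0, .negSucc 28⟩ ⟨.ofNat 0, .ofNat 0, .ofNat 1000, .negSucc 1788⟩,
  .l ⟨.ofNat 0, .ofNat 40, .ofNat 0, .negSucc 31⟩ ⟨.ofNat 0, .ofNat 0,
  .ofNat 1000, .negSucc 1788⟩, .l ⟨.ofNat 0, .ofNat 40, .ofNat 0, .negSucc
  28⟩ ⟨.ofNat 0, .ofNat 0, .negSucc 3999, .negSucc 3292⟩, .l ⟨.ofNat 0,
  .ofNat 40, .ofNat 0, .negSucc 31⟩ ⟨.ofNat 0, .ofNat 0, .negSucc 3999,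
  .negSucc 3292⟩, .l ⟨.ofNat 0, .ofNat 40, .ofNat 0, .negSucc 28⟩ ⟨.ofNat 0,
  .negSucc 102, .ofNat 3999, .ofNat 2916⟩, .l ⟨.ofNat 0, .ofNat 40, .ofNat
  0, .negSucc 31⟩ ⟨.ofNat 0, .negSucc 102, .ofNat 3999, .ofNat 2916⟩],
[.q ⟨.negSucc 18, .negSucc 20, .ofNat 40, .ofNat 0⟩ ⟨.negSucc 60, .ofNat 21,
  .ofNat 40, .ofNat 0⟩, .q ⟨.ofNat 17, .ofNat 23, .negSucc 39, .ofNat 0⟩
  ⟨.negSucc 62, .ofNat 23, .ofNat 40, .ofNat 0⟩, .q ⟨.ofNat 61, .negSucc 20,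
  .negSucc 39, .ofNat 0⟩ ⟨.ofNat 3423, .negSucc 2635, .ofNat 194, .negSucc
  980⟩, .q ⟨.ofNat 63, .negSucc 22, .negSucc 39, .ofNat 0⟩ ⟨.ofNat 3423,
  .negSucc 2635, .ofNat 194, .negSucc 980⟩, .q ⟨.ofNat 61, .negSucc 20,
  .negSucc 39, .ofNat 0⟩ ⟨.negSucc 126, .negSucc 3, .negSucc 874, .ofNat
  1006⟩, .q ⟨.ofNat 63, .negSucc 22, .negSucc 39, .ofNat 0⟩ ⟨.negSucc 126,
  .negSucc 3, .negSucc 874, .ofNat 1006⟩, .q ⟨.ofNat 61, .negSucc 20,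
  .negSucc 39, .ofNat 0⟩ ⟨.ofNat 2802, .ofNat 2854, .negSucc 2762, .negSucc
  2892⟩, .q ⟨.ofNat 63, .negSucc 22, .negSucc 39, .ofNat 0⟩ ⟨.ofNat 2802,
  .ofNat 2854, .negSucc 2762, .negSucc 2892⟩],
[.q ⟨.negSucc 0, .ofNat 1, .ofNat 0, .ofNat 0⟩ ⟨.negSucc 1608, .negSucc 310,
  .ofNat 1920, .ofNat 0⟩, .q ⟨.negSucc 0, .ofNat 1, .ofNat 0, .ofNat 0⟩
  ⟨.ofNat 961, .ofNat 959, .negSucc 1919, .ofNat 0⟩, .l ⟨.ofNat 0, .ofNat 0,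
  .negSucc 639, .ofNat 23⟩ ⟨.ofNat 0, .ofNat 0, .ofNat 0, .ofNat 1⟩, .l
  ⟨.ofNat 0, .ofNat 0, .ofNat 480, .ofNat 41⟩ ⟨.ofNat 0, .ofNat 0, .ofNat 0,
  .ofNat 1⟩],
[.l ⟨.ofNat 0, .ofNat 20, .ofNat 0, .negSucc 16⟩ ⟨.ofNat 0, .ofNat 20,
  .ofNat 0, .ofNat 17⟩, .l ⟨.ofNat 0, .negSucc 19, .ofNat 0, .ofNat 19⟩
  ⟨.ofNat 0, .ofNat 20, .ofNat 0, .ofNat 19⟩, .l ⟨.ofNat 0, .ofNat 20,
  .ofNat 0, .negSucc 16⟩ ⟨.ofNat 0, .negSucc 1766, .ofNat 3588, .negSucc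
  9832⟩, .l ⟨.ofNat 0, .ofNat 20, .ofNat 0, .negSucc 18⟩ ⟨.ofNat 0, .negSucc
  1766, .ofNat 3588, .negSucc 9832⟩, .l ⟨.ofNat 0, .ofNat 20, .ofNat 0,
  .negSucc 16⟩ ⟨.ofNat 0, .ofNat 970, .negSucc 1748, .negSucc 1017⟩, .l
  ⟨.ofNat 0, .ofNat 20, .ofNat 0, .negSucc 18⟩ ⟨.ofNat 0, .ofNat 970,
  .negSucc 1748, .negSucc 1017⟩, .l ⟨.ofNat 0, .ofNat 20, .ofNat 0, .negSucc
  16⟩ ⟨.ofNat 0, .negSucc 2575, .ofNat 3060, .ofNat 603⟩, .l ⟨.ofNat 0,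
  .ofNat 20, .ofNat 0, .negSucc 18⟩ ⟨.ofNat 0, .negSucc 2575, .ofNat 3060,
  .ofNat 603⟩, .l ⟨.ofNat 0, .ofNat 20, .ofNat 0, .negSucc 16⟩ ⟨.ofNat 0,
  .ofNat 499, .negSucc 3968, .negSucc 3809⟩, .l ⟨.ofNat 0, .ofNat 20, .ofNat
  0, .negSucc 18⟩ ⟨.ofNat 0, .ofNat 499, .negSucc 3968, .negSucc 3809⟩],
[.l ⟨.ofNat 0, .negSucc 813, .ofNat 1827, .ofNat 1690⟩ ⟨.ofNat 0, .ofNat 0,
  .ofNat 0, .ofNat 1⟩, .l ⟨.ofNat 0, .negSucc 3328, .ofNat 2218, .ofNat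
  2103⟩ ⟨.ofNat 0, .ofNat 0, .ofNat 0, .ofNat 1⟩, .l ⟨.ofNat 0, .negSucc
  2869, .negSucc 2785, .negSucc 2208⟩ ⟨.ofNat 0, .ofNat 0, .ofNat 0, .ofNat
  1⟩, .l ⟨.ofNat 0, .ofNat 3773, .ofNat 1327, .ofNat 1306⟩ ⟨.ofNat 0, .ofNat
  0, .ofNat 0, .ofNat 1⟩],
[.q ⟨.negSucc 243, .negSucc 235, .ofNat 480, .ofNat 0⟩ ⟨.negSucc 715, .ofNat
  236, .ofNat 480, .ofNat 0⟩, .q ⟨.ofNat 237, .ofNat 243, .negSucc 479,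
  .ofNat 0⟩ ⟨.negSucc 722, .ofNat 243, .ofNat 480, .ofNat 0⟩, .q ⟨.ofNat
  716, .negSucc 235, .negSucc 479, .ofNat 0⟩ ⟨.ofNat 1225, .ofNat 1196,
  .ofNat 1346, .negSucc 3766⟩, .q ⟨.ofNat 723, .negSucc 242, .negSucc 479,
  .ofNat 0⟩ ⟨.ofNat 1225, .ofNat 1196, .ofNat 1346, .negSucc 3766⟩, .q
  ⟨.ofNat 716, .negSucc 235, .negSucc 479, .ofNat 0⟩ ⟨.negSucc 1826,
  .negSucc 2551, .ofNat 399, .ofNat 3980⟩, .q ⟨.ofNat 723, .negSucc 242,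
  .negSucc 479, .ofNat 0⟩ ⟨.negSucc 1826, .negSucc 2551, .ofNat 399, .ofNat
  3980⟩, .q ⟨.ofNat 716, .negSucc 235, .negSucc 479, .ofNat 0⟩ ⟨.ofNat 883,
  .ofNat 880, .negSucc 1215, .negSucc 546⟩, .q ⟨.ofNat 723, .negSucc 242,
  .negSucc 479, .ofNat 0⟩ ⟨.ofNat 883, .ofNat 880, .negSucc 1215, .negSucc
  546⟩],
[.q ⟨.negSucc 0, .ofNat 0, .ofNat 0, .ofNat 1⟩ ⟨.negSucc 444, .ofNat 860,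
  .negSucc 3906, .ofNat 3492⟩, .q ⟨.negSucc 0, .ofNat 0, .ofNat 0, .ofNat 1⟩
  ⟨.negSucc 1833, .ofNat 2000, .ofNat 15, .negSucc 180⟩, .q ⟨.negSucc 0,
  .ofNat 0, .ofNat 0, .ofNat 1⟩ ⟨.ofNat 770, .negSucc 1491, .ofNat 3711,
  .negSucc 2988⟩, .q ⟨.negSucc 0, .ofNat 0, .ofNat 0, .ofNat 1⟩ ⟨.ofNat 94,
  .negSucc 100, .negSucc 100, .ofNat 108⟩],
[.q ⟨.ofNat 11, .negSucc 12, .negSucc 17, .ofNat 20⟩ ⟨.negSucc 172, .negSucc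
  90, .ofNat 124, .ofNat 140⟩, .q ⟨.ofNat 11, .negSucc 12, .negSucc 17,
  .ofNat 20⟩ ⟨.ofNat 4459, .negSucc 3525, .negSucc 352, .negSucc 579⟩, .q
  ⟨.ofNat 11, .negSucc 12, .negSucc 17, .ofNat 20⟩ ⟨.ofNat 4563, .negSucc
  1088, .negSucc 1653, .negSucc 1819⟩, .q ⟨.ofNat 11, .negSucc 12, .negSucc
  17, .ofNat 20⟩ ⟨.negSucc 3465, .ofNat 3957, .negSucc 510, .ofNat 20⟩, .q
  ⟨.ofNat 11, .negSucc 12, .negSucc 17, .ofNat 20⟩ ⟨.negSucc 4680, .ofNat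
  2845, .ofNat 656, .ofNat 1180⟩],
[.q ⟨.negSucc 38, .negSucc 40, .ofNat 80, .ofNat 0⟩ ⟨.negSucc 120, .ofNat
  41, .ofNat 80, .ofNat 0⟩, .q ⟨.ofNat 35, .ofNat 45, .negSucc 79, .ofNat 0⟩
  ⟨.negSucc 124, .ofNat 45, .ofNat 80, .ofNat 0⟩, .q ⟨.ofNat 121, .negSucc
  40, .negSucc 79, .ofNat 0⟩ ⟨.ofNat 2709, .ofNat 2036, .negSucc 831,
  .negSucc 3912⟩, .q ⟨.ofNat 125, .negSucc 44, .negSucc 79, .ofNat 0⟩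
  ⟨.ofNat 2709, .ofNat 2036, .negSucc 831, .negSucc 3912⟩, .q ⟨.ofNat 121,
  .negSucc 40, .negSucc 79, .ofNat 0⟩ ⟨.negSucc 1064, .negSucc 700, .negSucc
  1803, .ofNat 3570⟩, .q ⟨.ofNat 125, .negSucc 44, .negSucc 79, .ofNat 0⟩
  ⟨.negSucc 1064, .negSucc 700, .negSucc 1803, .ofNat 3570⟩],
[.l ⟨.ofNat 0, .ofNat 40, .ofNat 0, .negSucc 33⟩ ⟨.ofNat 0, .ofNat 40,
  .ofNat 0, .ofNat 34⟩, .l ⟨.ofNat 0, .negSucc 39, .ofNat 0, .ofNat 37⟩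
  ⟨.ofNat 0, .ofNat 40, .ofNat 0, .ofNat 37⟩, .l ⟨.ofNat 0, .ofNat 40,
  .ofNat 0, .negSucc 33⟩ ⟨.ofNat 0, .ofNat 0, .ofNat 125, .ofNat 114⟩, .l
  ⟨.ofNat 0, .ofNat 40, .ofNat 0, .negSucc 36⟩ ⟨.ofNat 0, .ofNat 0, .ofNat
  125, .ofNat 114⟩, .l ⟨.ofNat 0, .ofNat 40, .ofNat 0, .negSucc 33⟩ ⟨.ofNat
  0, .ofNat 753, .negSucc 3927, .negSucc 3535⟩, .l ⟨.ofNat 0, .ofNat 40,
  .ofNat 0, .negSucc 36⟩ ⟨.ofNat 0, .ofNat 753, .negSucc 3927, .negSucc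
  3535⟩],
[.l ⟨.ofNat 0, .ofNat 20, .ofNat 0, .negSucc 15⟩ ⟨.ofNat 0, .ofNat 20,
  .ofNat 0, .ofNat 16⟩, .l ⟨.ofNat 0, .negSucc 19, .ofNat 0, .ofNat 19⟩
  ⟨.ofNat 0, .ofNat 20, .ofNat 0, .ofNat 19⟩, .l ⟨.ofNat 0, .ofNat 20,
  .ofNat 0, .negSucc 15⟩ ⟨.ofNat 0, .negSucc 2211, .ofNat 3333, .negSucc
  12090⟩, .l ⟨.ofNat 0, .ofNat 20, .ofNat 0, .negSucc 18⟩ ⟨.ofNat 0,
  .negSucc 2211, .ofNat 3333, .negSucc 12090⟩, .l ⟨.ofNat 0, .ofNat 20,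
  .ofNat 0, .negSucc 15⟩ ⟨.ofNat 0, .ofNat 315, .negSucc 3987, .negSucc
  13132⟩, .l ⟨.ofNat 0, .ofNat 20, .ofNat 0, .negSucc 18⟩ ⟨.ofNat 0, .ofNat
  315, .negSucc 3987, .negSucc 13132⟩, .l ⟨.ofNat 0, .ofNat 20, .ofNat 0,
  .negSucc 15⟩ ⟨.ofNat 0, .ofNat 1873, .ofNat 3534, .ofNat 3495⟩, .l ⟨.ofNat
  0, .ofNat 20, .ofNat 0, .negSucc 18⟩ ⟨.ofNat 0, .ofNat 1873, .ofNat 3534,
  .ofNat 3495⟩, .l ⟨.ofNat 0, .ofNat 20, .ofNat 0, .negSucc 15⟩ ⟨.ofNat 0,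
  .ofNat 2905, .negSucc 2749, .ofNat 714⟩, .l ⟨.ofNat 0, .ofNat 20, .ofNat
  0, .negSucc 18⟩ ⟨.ofNat 0, .ofNat 2905, .negSucc 2749, .ofNat 714⟩],
[.l ⟨.ofNat 0, .ofNat 3999, .ofNat 97, .ofNat 208⟩ ⟨.ofNat 0, .ofNat 0,
  .ofNat 0, .ofNat 1⟩, .l ⟨.ofNat 0, .negSucc 1413, .ofNat 1414, .ofNat
  1325⟩ ⟨.ofNat 0, .ofNat 0, .ofNat 0, .ofNat 1⟩, .l ⟨.ofNat 0, .negSucc
  3792, .ofNat 1271, .ofNat 1267⟩ ⟨.ofNat 0, .ofNat 0, .ofNat 0, .ofNat 1⟩,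
  .l ⟨.ofNat 0, .ofNat 2753, .negSucc 2901, .negSucc 1790⟩ ⟨.ofNat 0, .ofNat
  0, .ofNat 0, .ofNat 1⟩],
[.q ⟨.negSucc 46, .ofNat 44, .negSucc 20, .ofNat 24⟩ ⟨.negSucc 17234, .ofNat
  2076, .ofNat 6015, .ofNat 9144⟩, .q ⟨.negSucc 46, .ofNat 44, .negSucc 20,
  .ofNat 24⟩ ⟨.ofNat 22523, .negSucc 22651, .negSucc 24326, .ofNat 24456⟩,
  .q ⟨.negSucc 46, .ofNat 44, .negSucc 20, .ofNat 24⟩ ⟨.ofNat 20351,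
  .negSucc 2507, .negSucc 7450, .negSucc 10391⟩, .q ⟨.negSucc 46, .ofNat 44,
  .negSucc 20, .ofNat 24⟩ ⟨.negSucc 27437, .ofNat 29592, .ofNat 28134,
  .negSucc 30287⟩, .q ⟨.negSucc 46, .ofNat 44, .negSucc 20, .ofNat 24⟩
  ⟨.negSucc 27233, .negSucc 6295, .ofNat 2090, .ofNat 31440⟩],
[.q ⟨.negSucc 28, .ofNat 0, .ofNat 19, .ofNat 10⟩ ⟨.negSucc 12972, .ofNat
  5512, .ofNat 22171, .negSucc 14709⟩, .q ⟨.negSucc 28, .ofNat 0, .ofNat 19,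
  .ofNat 10⟩ ⟨.ofNat 31357, .negSucc 25567, .negSucc 3778, .negSucc 2009⟩,
  .q ⟨.negSucc 28, .ofNat 0, .ofNat 19, .ofNat 10⟩ ⟨.ofNat 29600, .negSucc
  18983, .negSucc 27015, .ofNat 16400⟩, .q ⟨.negSucc 28, .ofNat 0, .ofNat
  19, .ofNat 10⟩ ⟨.negSucc 22664, .ofNat 17816, .ofNat 3199, .ofNat 1650⟩],
[.q ⟨.negSucc 18, .negSucc 15, .ofNat 11, .ofNat 24⟩ ⟨.negSucc 5091,
  .negSucc 1327, .ofNat 12372, .negSucc 5951⟩, .q ⟨.negSucc 18, .negSucc 15,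
  .ofNat 11, .ofNat 24⟩ ⟨.ofNat 2404, .negSucc 5343, .ofNat 924, .ofNat
  2016⟩, .q ⟨.negSucc 18, .negSucc 15, .ofNat 11, .ofNat 24⟩ ⟨.ofNat 6724,
  .negSucc 1939, .negSucc 12271, .ofNat 7488⟩, .q ⟨.negSucc 18, .negSucc 15,
  .ofNat 11, .ofNat 24⟩ ⟨.negSucc 3495, .ofNat 14540, .negSucc 9411,
  .negSucc 1631⟩],
[.q ⟨.negSucc 0, .ofNat 0, .ofNat 0, .ofNat 1⟩ ⟨.negSucc 2865, .ofNat 3519,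
  .negSucc 1901, .ofNat 1249⟩, .q ⟨.negSucc 0, .ofNat 0, .ofNat 0, .ofNat 1⟩
  ⟨.ofNat 467, .negSucc 1894, .ofNat 3523, .negSucc 2094⟩, .q ⟨.negSucc 0,
  .ofNat 0, .ofNat 0, .ofNat 1⟩ ⟨.ofNat 3362, .negSucc 3894, .negSucc 909,
  .ofNat 1443⟩, .q ⟨.negSucc 0, .ofNat 0, .ofNat 0, .ofNat 1⟩ ⟨.ofNat 1475,
  .negSucc 1396, .negSucc 3747, .ofNat 3670⟩],
[.q ⟨.negSucc 0, .ofNat 1, .ofNat 0, .ofNat 0⟩ ⟨.negSucc 588, .negSucc 50,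
  .ofNat 640, .ofNat 0⟩, .q ⟨.negSucc 0, .ofNat 1, .ofNat 0, .ofNat 0⟩
  ⟨.ofNat 961, .ofNat 959, .negSucc 1919, .ofNat 0⟩, .l ⟨.ofNat 0, .ofNat 0,
  .negSucc 639, .ofNat 13⟩ ⟨.ofNat 0, .ofNat 0, .ofNat 0, .ofNat 1⟩, .l
  ⟨.ofNat 0, .ofNat 0, .ofNat 120, .ofNat 7⟩ ⟨.ofNat 0, .ofNat 0, .ofNat 0,
  .ofNat 1⟩],
[.q ⟨.negSucc 219, .negSucc 259, .ofNat 480, .ofNat 0⟩ ⟨.negSucc 739, .ofNat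
  260, .ofNat 480, .ofNat 0⟩, .q ⟨.ofNat 209, .ofNat 271, .negSucc 479,
  .ofNat 0⟩ ⟨.negSucc 750, .ofNat 271, .ofNat 480, .ofNat 0⟩, .q ⟨.ofNat
  740, .negSucc 259, .negSucc 479, .ofNat 0⟩ ⟨.ofNat 1280, .negSucc 540,
  .ofNat 2435, .negSucc 3173⟩, .q ⟨.ofNat 751, .negSucc 270, .negSucc 479,
  .ofNat 0⟩ ⟨.ofNat 1280, .negSucc 540, .ofNat 2435, .negSucc 3173⟩, .q
  ⟨.ofNat 740, .negSucc 259, .negSucc 479, .ofNat 0⟩ ⟨.negSucc 548, .negSucc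
  189, .negSucc 2434, .ofNat 3174⟩, .q ⟨.ofNat 751, .negSucc 270, .negSucc
  479, .ofNat 0⟩ ⟨.negSucc 548, .negSucc 189, .negSucc 2434, .ofNat 3174⟩],
[.q ⟨.negSucc 12, .negSucc 6, .ofNat 0, .ofNat 20⟩ ⟨.ofNat 17342, .negSucc
  9393, .ofNat 18732, .negSucc 26679⟩, .q ⟨.negSucc 12, .negSucc 6, .ofNat
  0, .ofNat 20⟩ ⟨.ofNat 30881, .negSucc 23460, .ofNat 0, .negSucc 7419⟩, .q
  ⟨.negSucc 12, .negSucc 6, .ofNat 0, .ofNat 20⟩ ⟨.negSucc 15901, .ofNat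
  7888, .negSucc 19505, .ofNat 27520⟩, .q ⟨.negSucc 12, .negSucc 6, .ofNat
  0, .ofNat 20⟩ ⟨.negSucc 21811, .ofNat 16252, .ofNat 0, .ofNat 5560⟩],
[.q ⟨.negSucc 20, .negSucc 18, .ofNat 40, .ofNat 0⟩ ⟨.negSucc 58, .ofNat 19,
  .ofNat 40, .ofNat 0⟩, .q ⟨.ofNat 18, .ofNat 22, .negSucc 39, .ofNat 0⟩
  ⟨.negSucc 61, .ofNat 22, .ofNat 40, .ofNat 0⟩, .q ⟨.ofNat 59, .negSucc 18,
  .negSucc 39, .ofNat 0⟩ ⟨.ofNat 183, .ofNat 565, .negSucc 220, .negSucc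
  526⟩, .q ⟨.ofNat 62, .negSucc 21, .negSucc 39, .ofNat 0⟩ ⟨.ofNat 183,
  .ofNat 565, .negSucc 220, .negSucc 526⟩, .q ⟨.ofNat 59, .negSucc 18,
  .negSucc 39, .ofNat 0⟩ ⟨.negSucc 1060, .negSucc 4427, .ofNat 2060, .ofNat
  3429⟩, .q ⟨.ofNat 62, .negSucc 21, .negSucc 39, .ofNat 0⟩ ⟨.negSucc 1060,
  .negSucc 4427, .ofNat 2060, .ofNat 3429⟩],
[.q ⟨.negSucc 0, .ofNat 0, .ofNat 0, .ofNat 1⟩ ⟨.ofNat 377, .negSucc 76,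
  .negSucc 3998, .ofNat 3699⟩, .q ⟨.negSucc 0, .ofNat 0, .ofNat 0, .ofNat 1⟩
  ⟨.negSucc 1387, .ofNat 1640, .negSucc 1144, .ofNat 893⟩, .q ⟨.negSucc 0,
  .ofNat 0, .ofNat 0, .ofNat 1⟩ ⟨.negSucc 1363, .ofNat 1281, .ofNat 1536,
  .negSucc 1452⟩, .q ⟨.negSucc 0, .ofNat 0, .ofNat 0, .ofNat 1⟩ ⟨.ofNat
  1519, .negSucc 1861, .ofNat 730, .negSucc 386⟩],
[.q ⟨.negSucc 9, .negSucc 69, .ofNat 80, .ofNat 0⟩ ⟨.negSucc 149, .ofNat 70,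
  .ofNat 80, .ofNat 0⟩, .q ⟨.ofNat 7, .ofNat 73, .negSucc 79, .ofNat 0⟩
  ⟨.negSucc 152, .ofNat 73, .ofNat 80, .ofNat 0⟩, .q ⟨.ofNat 150, .negSucc
  69, .negSucc 79, .ofNat 0⟩ ⟨.ofNat 4067, .ofNat 466, .negSucc 573,
  .negSucc 3958⟩, .q ⟨.ofNat 153, .negSucc 72, .negSucc 79, .ofNat 0⟩
  ⟨.ofNat 4067, .ofNat 466, .negSucc 573, .negSucc 3958⟩, .q ⟨.ofNat 150,
  .negSucc 69, .negSucc 79, .ofNat 0⟩ ⟨.negSucc 3881, .negSucc 650, .ofNat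
  574, .ofNat 3959⟩, .q ⟨.ofNat 153, .negSucc 72, .negSucc 79, .ofNat 0⟩
  ⟨.negSucc 3881, .negSucc 650, .ofNat 574, .ofNat 3959⟩, .q ⟨.ofNat 150,
  .negSucc 69, .negSucc 79, .ofNat 0⟩ ⟨.ofNat 2569, .negSucc 2607, .ofNat
  2848, .negSucc 2808⟩, .q ⟨.ofNat 153, .negSucc 72, .negSucc 79, .ofNat 0⟩
  ⟨.ofNat 2569, .negSucc 2607, .ofNat 2848, .negSucc 2808⟩],
[.q ⟨.negSucc 36, .negSucc 42, .ofNat 80, .ofNat 0⟩ ⟨.negSucc 122, .ofNat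
  43, .ofNat 80, .ofNat 0⟩, .q ⟨.ofNat 33, .ofNat 47, .negSucc 79, .ofNat 0⟩
  ⟨.negSucc 126, .ofNat 47, .ofNat 80, .ofNat 0⟩, .q ⟨.ofNat 123, .negSucc
  42, .negSucc 79, .ofNat 0⟩ ⟨.ofNat 2639, .ofNat 2719, .negSucc 1771,
  .negSucc 3585⟩, .q ⟨.ofNat 127, .negSucc 46, .negSucc 79, .ofNat 0⟩
  ⟨.ofNat 2639, .ofNat 2719, .negSucc 1771, .negSucc 3585⟩, .q ⟨.ofNat 123,
  .negSucc 42, .negSucc 79, .ofNat 0⟩ ⟨.negSucc 969, .negSucc 1708, .ofNat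
  886, .ofNat 1793⟩, .q ⟨.ofNat 127, .negSucc 46, .negSucc 79, .ofNat 0⟩
  ⟨.negSucc 969, .negSucc 1708, .ofNat 886, .ofNat 1793⟩],
[.q ⟨.ofNat 11, .negSucc 12, .negSucc 17, .ofNat 20⟩ ⟨.negSucc 1724,
  .negSucc 2341, .ofNat 2047, .ofNat 2020⟩, .q ⟨.ofNat 11, .negSucc 12,
  .negSucc 17, .ofNat 20⟩ ⟨.ofNat 4765, .negSucc 1725, .negSucc 1418,
  .negSucc 1619⟩, .q ⟨.ofNat 11, .negSucc 12, .negSucc 17, .ofNat 20⟩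
  ⟨.negSucc 244, .ofNat 1783, .negSucc 877, .negSucc 659⟩, .q ⟨.ofNat 11,
  .negSucc 12, .negSucc 17, .ofNat 20⟩ ⟨.negSucc 3958, .ofNat 3749, .negSucc
  169, .ofNat 380⟩],
[.q ⟨.negSucc 11, .negSucc 67, .ofNat 80, .ofNat 0⟩ ⟨.negSucc 147, .ofNat
  68, .ofNat 80, .ofNat 0⟩, .q ⟨.ofNat 9, .ofNat 71, .negSucc 79, .ofNat 0⟩
  ⟨.negSucc 150, .ofNat 71, .ofNat 80, .ofNat 0⟩, .q ⟨.ofNat 148, .negSucc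
  67, .negSucc 79, .ofNat 0⟩ ⟨.ofNat 4063, .ofNat 308, .negSucc 389,
  .negSucc 3980⟩, .q ⟨.ofNat 151, .negSucc 70, .negSucc 79, .ofNat 0⟩
  ⟨.ofNat 4063, .ofNat 308, .negSucc 389, .negSucc 3980⟩, .q ⟨.ofNat 148,
  .negSucc 67, .negSucc 79, .ofNat 0⟩ ⟨.negSucc 1393, .ofNat 999, .negSucc
  1202, .ofNat 1598⟩, .q ⟨.ofNat 151, .negSucc 70, .negSucc 79, .ofNat 0⟩
  ⟨.negSucc 1393, .ofNat 999, .negSucc 1202, .ofNat 1598⟩],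
[.q ⟨.negSucc 10, .negSucc 28, .ofNat 40, .ofNat 0⟩ ⟨.negSucc 68, .ofNat 29,
  .ofNat 40, .ofNat 0⟩, .q ⟨.ofNat 8, .ofNat 32, .negSucc 39, .ofNat 0⟩
  ⟨.negSucc 71, .ofNat 32, .ofNat 40, .ofNat 0⟩, .q ⟨.ofNat 69, .negSucc 28,
  .negSucc 39, .ofNat 0⟩ ⟨.ofNat 2929, .ofNat 947, .ofNat 122, .negSucc
  3997⟩, .q ⟨.ofNat 72, .negSucc 31, .negSucc 39, .ofNat 0⟩ ⟨.ofNat 2929,
  .ofNat 947, .ofNat 122, .negSucc 3997⟩, .q ⟨.ofNat 69, .negSucc 28,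
  .negSucc 39, .ofNat 0⟩ ⟨.ofNat 55, .negSucc 2458, .ofNat 457, .ofNat
  1947⟩, .q ⟨.ofNat 72, .negSucc 31, .negSucc 39, .ofNat 0⟩ ⟨.ofNat 55,
  .negSucc 2458, .ofNat 457, .ofNat 1947⟩],
[.q ⟨.ofNat 11, .negSucc 12, .negSucc 17, .ofNat 20⟩ ⟨.ofNat 946, .ofNat
  2854, .negSucc 2019, .negSucc 1779⟩, .q ⟨.ofNat 11, .negSucc 12, .negSucc
  17, .ofNat 20⟩ ⟨.negSucc 4198, .ofNat 3584, .ofNat 35, .ofNat 580⟩, .q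
  ⟨.ofNat 11, .negSucc 12, .negSucc 17, .ofNat 20⟩ ⟨.negSucc 1867, .negSucc
  2235, .ofNat 2044, .ofNat 2060⟩, .q ⟨.ofNat 11, .negSucc 12, .negSucc 17,
  .ofNat 20⟩ ⟨.ofNat 3956, .negSucc 3842, .ofNat 127, .negSucc 239⟩],
[.q ⟨.negSucc 19, .negSucc 19, .ofNat 40, .ofNat 0⟩ ⟨.negSucc 59, .ofNat 20,
  .ofNat 40, .ofNat 0⟩, .q ⟨.ofNat 17, .ofNat 23, .negSucc 39, .ofNat 0⟩
  ⟨.negSucc 62, .ofNat 23, .ofNat 40, .ofNat 0⟩, .q ⟨.ofNat 60, .negSucc 19,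
  .negSucc 39, .ofNat 0⟩ ⟨.ofNat 333, .ofNat 8, .ofNat 269, .negSucc 609⟩,
  .q ⟨.ofNat 63, .negSucc 22, .negSucc 39, .ofNat 0⟩ ⟨.ofNat 333, .ofNat 8,
  .ofNat 269, .negSucc 609⟩, .q ⟨.ofNat 60, .negSucc 19, .negSucc 39, .ofNat
  0⟩ ⟨.negSucc 1206, .negSucc 838, .negSucc 1613, .ofNat 3660⟩, .q ⟨.ofNat
  63, .negSucc 22, .negSucc 39, .ofNat 0⟩ ⟨.negSucc 1206, .negSucc 838,
  .negSucc 1613, .ofNat 3660⟩],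
[.q ⟨.negSucc 18, .negSucc 15, .ofNat 11, .ofNat 24⟩ ⟨.negSucc 8215, .ofNat
  19944, .negSucc 5487, .negSucc 6239⟩, .q ⟨.negSucc 18, .negSucc 15, .ofNat
  11, .ofNat 24⟩ ⟨.negSucc 3051, .negSucc 4951, .ofNat 12132, .negSucc
  4127⟩, .q ⟨.negSucc 18, .negSucc 15, .ofNat 11, .ofNat 24⟩ ⟨.ofNat 7528,
  .negSucc 3539, .negSucc 12147, .ofNat 8160⟩],
[.l ⟨.ofNat 0, .ofNat 3706, .ofNat 1505, .ofNat 1969⟩ ⟨.ofNat 0, .ofNat 0,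
  .ofNat 0, .ofNat 1⟩, .l ⟨.ofNat 0, .ofNat 77, .ofNat 3999, .ofNat 1679⟩
  ⟨.ofNat 0, .ofNat 0, .ofNat 0, .ofNat 1⟩, .l ⟨.ofNat 0, .negSucc 355,
  .negSucc 446, .negSucc 122⟩ ⟨.ofNat 0, .ofNat 0, .ofNat 0, .ofNat 1⟩, .l
  ⟨.ofNat 0, .ofNat 34, .negSucc 3999, .ofNat 819⟩ ⟨.ofNat 0, .ofNat 0,
  .ofNat 0, .ofNat 1⟩],
[.q ⟨.negSucc 6, .negSucc 72, .ofNat 80, .ofNat 0⟩ ⟨.negSucc 152, .ofNat 73,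
  .ofNat 80, .ofNat 0⟩, .q ⟨.ofNat 4, .ofNat 76, .negSucc 79, .ofNat 0⟩
  ⟨.negSucc 155, .ofNat 76, .ofNat 80, .ofNat 0⟩, .q ⟨.ofNat 153, .negSucc
  72, .negSucc 79, .ofNat 0⟩ ⟨.ofNat 133, .ofNat 27, .ofNat 0, .negSucc
  159⟩, .q ⟨.ofNat 156, .negSucc 75, .negSucc 79, .ofNat 0⟩ ⟨.ofNat 133,
  .ofNat 27, .ofNat 0, .negSucc 159⟩, .q ⟨.ofNat 153, .negSucc 72, .negSucc
  79, .ofNat 0⟩ ⟨.ofNat 743, .negSucc 4742, .ofNat 0, .ofNat 4000⟩, .q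
  ⟨.ofNat 156, .negSucc 75, .negSucc 79, .ofNat 0⟩ ⟨.ofNat 743, .negSucc
  4742, .ofNat 0, .ofNat 4000⟩, .q ⟨.ofNat 153, .negSucc 72, .negSucc 79,
  .ofNat 0⟩ ⟨.ofNat 2714, .ofNat 2927, .negSucc 2609, .negSucc 3030⟩, .q
  ⟨.ofNat 156, .negSucc 75, .negSucc 79, .ofNat 0⟩ ⟨.ofNat 2714, .ofNat
  2927, .negSucc 2609, .negSucc 3030⟩],
[.q ⟨.negSucc 253, .negSucc 225, .ofNat 480, .ofNat 0⟩ ⟨.negSucc 705, .ofNat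
  226, .ofNat 480, .ofNat 0⟩, .q ⟨.ofNat 243, .ofNat 237, .negSucc 479,
  .ofNat 0⟩ ⟨.negSucc 716, .ofNat 237, .ofNat 480, .ofNat 0⟩, .q ⟨.ofNat
  706, .negSucc 225, .negSucc 479, .ofNat 0⟩ ⟨.ofNat 249, .ofNat 1744,
  .ofNat 7, .negSucc 1999⟩, .q ⟨.ofNat 717, .negSucc 236, .negSucc 479,
  .ofNat 0⟩ ⟨.ofNat 249, .ofNat 1744, .ofNat 7, .negSucc 1999⟩, .q ⟨.ofNat
  706, .negSucc 225, .negSucc 479, .ofNat 0⟩ ⟨.ofNat 11, .negSucc 2003,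
  .negSucc 6, .ofNat 2000⟩, .q ⟨.ofNat 717, .negSucc 236, .negSucc 479,
  .ofNat 0⟩ ⟨.ofNat 11, .negSucc 2003, .negSucc 6, .ofNat 2000⟩],
[.l ⟨.ofNat 0, .ofNat 0, .ofNat 16043, .ofNat 1720⟩ ⟨.ofNat 0, .ofNat 0,
  .ofNat 1, .ofNat 40⟩, .l ⟨.ofNat 0, .ofNat 0, .negSucc 25298, .negSucc
  2359⟩ ⟨.ofNat 0, .ofNat 0, .ofNat 1, .ofNat 40⟩, .l ⟨.ofNat 0, .negSucc
  9999, .negSucc 223, .negSucc 8959⟩ ⟨.ofNat 0, .ofNat 0, .ofNat 1, .ofNat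
  40⟩, .l ⟨.ofNat 0, .ofNat 28120, .ofNat 13192, .ofNat 26880⟩ ⟨.ofNat 0,
  .ofNat 0, .ofNat 1, .ofNat 40⟩],
[.q ⟨.negSucc 2, .negSucc 16, .ofNat 20, .ofNat 0⟩ ⟨.negSucc 36, .ofNat 17,
  .ofNat 20, .ofNat 0⟩, .q ⟨.ofNat 2, .ofNat 18, .negSucc 19, .ofNat 0⟩
  ⟨.negSucc 37, .ofNat 18, .ofNat 20, .ofNat 0⟩, .q ⟨.ofNat 37, .negSucc 16,
  .negSucc 19, .ofNat 0⟩ ⟨.ofNat 4066, .ofNat 488, .negSucc 598, .negSucc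
  3954⟩, .q ⟨.ofNat 38, .negSucc 17, .negSucc 19, .ofNat 0⟩ ⟨.ofNat 4066,
  .ofNat 488, .negSucc 598, .negSucc 3954⟩, .q ⟨.ofNat 37, .negSucc 16,
  .negSucc 19, .ofNat 0⟩ ⟨.negSucc 3076, .ofNat 1688, .negSucc 2046, .ofNat
  3436⟩, .q ⟨.ofNat 38, .negSucc 17, .negSucc 19, .ofNat 0⟩ ⟨.negSucc 3076,
  .ofNat 1688, .negSucc 2046, .ofNat 3436⟩, .q ⟨.ofNat 37, .negSucc 16,
  .negSucc 19, .ofNat 0⟩ ⟨.ofNat 3562, .negSucc 1448, .ofNat 1567, .negSucc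
  3679⟩, .q ⟨.ofNat 38, .negSucc 17, .negSucc 19, .ofNat 0⟩ ⟨.ofNat 3562,
  .negSucc 1448, .ofNat 1567, .negSucc 3679⟩],
[.l ⟨.ofNat 0, .negSucc 3999, .negSucc 2, .ofNat 797⟩ ⟨.ofNat 0, .ofNat 0,
  .ofNat 0, .ofNat 1⟩, .l ⟨.ofNat 0, .ofNat 0, .negSucc 249, .negSucc 148⟩
  ⟨.ofNat 0, .ofNat 0, .ofNat 0, .ofNat 1⟩, .l ⟨.ofNat 0, .ofNat 2783,
  .ofNat 2873, .ofNat 2627⟩ ⟨.ofNat 0, .ofNat 0, .ofNat 0, .ofNat 1⟩, .l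
  ⟨.ofNat 0, .negSucc 2827, .ofNat 2829, .ofNat 2297⟩ ⟨.ofNat 0, .ofNat 0,
  .ofNat 0, .ofNat 1⟩],
[.q ⟨.negSucc 1, .negSucc 37, .ofNat 40, .ofNat 0⟩ ⟨.negSucc 77, .ofNat 38,
  .ofNat 40, .ofNat 0⟩, .q ⟨.negSucc 0, .ofNat 41, .negSucc 39, .ofNat 0⟩
  ⟨.negSucc 80, .ofNat 41, .ofNat 40, .ofNat 0⟩, .q ⟨.ofNat 78, .negSucc 37,
  .negSucc 39, .ofNat 0⟩ ⟨.ofNat 13961, .negSucc 9883, .negSucc 77, .negSucc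
  3998⟩, .q ⟨.ofNat 81, .negSucc 40, .negSucc 39, .ofNat 0⟩ ⟨.ofNat 13961,
  .negSucc 9883, .negSucc 77, .negSucc 3998⟩, .q ⟨.ofNat 78, .negSucc 37,
  .negSucc 39, .ofNat 0⟩ ⟨.negSucc 3566, .negSucc 1439, .ofNat 1187, .ofNat
  3820⟩, .q ⟨.ofNat 81, .negSucc 40, .negSucc 39, .ofNat 0⟩ ⟨.negSucc 3566,
  .negSucc 1439, .ofNat 1187, .ofNat 3820⟩, .q ⟨.ofNat 78, .negSucc 37,
  .negSucc 39, .ofNat 0⟩ ⟨.ofNat 2749, .ofNat 2907, .negSucc 2876, .negSucc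
  2778⟩, .q ⟨.ofNat 81, .negSucc 40, .negSucc 39, .ofNat 0⟩ ⟨.ofNat 2749,
  .ofNat 2907, .negSucc 2876, .negSucc 2778⟩, .q ⟨.ofNat 78, .negSucc 37,
  .negSucc 39, .ofNat 0⟩ ⟨.negSucc 3269, .ofNat 1590, .negSucc 1860, .ofNat
  3541⟩, .q ⟨.ofNat 81, .negSucc 40, .negSucc 39, .ofNat 0⟩ ⟨.negSucc 3269,
  .ofNat 1590, .negSucc 1860, .ofNat 3541⟩],
[.q ⟨.negSucc 0, .ofNat 0, .ofNat 0, .ofNat 1⟩ ⟨.negSucc 212, .ofNat 202,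
  .ofNat 202, .negSucc 190⟩, .q ⟨.negSucc 0, .ofNat 0, .ofNat 0, .ofNat 1⟩
  ⟨.ofNat 368, .negSucc 1070, .ofNat 1689, .negSucc 985⟩, .q ⟨.negSucc 0,
  .ofNat 0, .ofNat 0, .ofNat 1⟩ ⟨.ofNat 654, .negSucc 706, .negSucc 706,
  .ofNat 760⟩, .q ⟨.negSucc 0, .ofNat 0, .ofNat 0, .ofNat 1⟩ ⟨.ofNat 1003,
  .negSucc 825, .negSucc 3913, .ofNat 3737⟩, .q ⟨.negSucc 0, .ofNat 0,
  .ofNat 0, .ofNat 1⟩ ⟨.negSucc 2250, .ofNat 2828, .negSucc 2827, .ofNat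
  2251⟩],
[.q ⟨.negSucc 19, .negSucc 19, .ofNat 40, .ofNat 0⟩ ⟨.negSucc 59, .ofNat 20,
  .ofNat 40, .ofNat 0⟩, .q ⟨.ofNat 17, .ofNat 23, .negSucc 39, .ofNat 0⟩
  ⟨.negSucc 62, .ofNat 23, .ofNat 40, .ofNat 0⟩, .q ⟨.ofNat 60, .negSucc 19,
  .negSucc 39, .ofNat 0⟩ ⟨.ofNat 933, .ofNat 3774, .negSucc 784, .negSucc
  3921⟩, .q ⟨.ofNat 63, .negSucc 22, .negSucc 39, .ofNat 0⟩ ⟨.ofNat 933,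
  .ofNat 3774, .negSucc 784, .negSucc 3921⟩, .q ⟨.ofNat 60, .negSucc 19,
  .negSucc 39, .ofNat 0⟩ ⟨.negSucc 326, .negSucc 4379, .ofNat 785, .ofNat
  3922⟩, .q ⟨.ofNat 63, .negSucc 22, .negSucc 39, .ofNat 0⟩ ⟨.negSucc 326,
  .negSucc 4379, .ofNat 785, .ofNat 3922⟩],
[.q ⟨.negSucc 5, .negSucc 33, .ofNat 40, .ofNat 0⟩ ⟨.negSucc 73, .ofNat 34,
  .ofNat 40, .ofNat 0⟩, .q ⟨.ofNat 3, .ofNat 37, .negSucc 39, .ofNat 0⟩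
  ⟨.negSucc 76, .ofNat 37, .ofNat 40, .ofNat 0⟩, .q ⟨.ofNat 74, .negSucc 33,
  .negSucc 39, .ofNat 0⟩ ⟨.ofNat 4052, .ofNat 85, .negSucc 138, .negSucc
  3997⟩, .q ⟨.ofNat 77, .negSucc 36, .negSucc 39, .ofNat 0⟩ ⟨.ofNat 4052,
  .ofNat 85, .negSucc 138, .negSucc 3997⟩, .q ⟨.ofNat 74, .negSucc 33,
  .negSucc 39, .ofNat 0⟩ ⟨.negSucc 3090, .ofNat 1638, .negSucc 2006, .ofNat
  3460⟩, .q ⟨.ofNat 77, .negSucc 36, .negSucc 39, .ofNat 0⟩ ⟨.negSucc 3090,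
  .ofNat 1638, .negSucc 2006, .ofNat 3460⟩, .q ⟨.ofNat 74, .negSucc 33,
  .negSucc 39, .ofNat 0⟩ ⟨.ofNat 2490, .ofNat 2991, .negSucc 3441, .negSucc
  2038⟩, .q ⟨.ofNat 77, .negSucc 36, .negSucc 39, .ofNat 0⟩ ⟨.ofNat 2490,
  .ofNat 2991, .negSucc 3441, .negSucc 2038⟩, .q ⟨.ofNat 74, .negSucc 33,
  .negSucc 39, .ofNat 0⟩ ⟨.negSucc 2903, .ofNat 1865, .negSucc 2260, .ofNat
  3300⟩, .q ⟨.ofNat 77, .negSucc 36, .negSucc 39, .ofNat 0⟩ ⟨.negSucc 2903,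
  .ofNat 1865, .negSucc 2260, .ofNat 3300⟩],
[.l ⟨.ofNat 0, .ofNat 40, .ofNat 0, .negSucc 31⟩ ⟨.ofNat 0, .ofNat 40,
  .ofNat 0, .ofNat 32⟩, .l ⟨.ofNat 0, .negSucc 39, .ofNat 0, .ofNat 35⟩
  ⟨.ofNat 0, .ofNat 40, .ofNat 0, .ofNat 35⟩, .l ⟨.ofNat 0, .ofNat 40,
  .ofNat 0, .negSucc 31⟩ ⟨.ofNat 0, .ofNat 0, .ofNat 4000, .ofNat 2667⟩, .l
  ⟨.ofNat 0, .ofNat 40, .ofNat 0, .negSucc 34⟩ ⟨.ofNat 0, .ofNat 0, .ofNat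
  4000, .ofNat 2667⟩, .l ⟨.ofNat 0, .ofNat 40, .ofNat 0, .negSucc 31⟩
  ⟨.ofNat 0, .ofNat 0, .negSucc 3999, .negSucc 3310⟩, .l ⟨.ofNat 0, .ofNat
  40, .ofNat 0, .negSucc 34⟩ ⟨.ofNat 0, .ofNat 0, .negSucc 3999, .negSucc
  3310⟩],
[.q ⟨.negSucc 226, .negSucc 252, .ofNat 480, .ofNat 0⟩ ⟨.negSucc 732, .ofNat
  253, .ofNat 480, .ofNat 0⟩, .q ⟨.ofNat 218, .ofNat 262, .negSucc 479,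
  .ofNat 0⟩ ⟨.negSucc 741, .ofNat 262, .ofNat 480, .ofNat 0⟩, .q ⟨.ofNat
  733, .negSucc 252, .negSucc 479, .ofNat 0⟩ ⟨.ofNat 3510, .ofNat 2051,
  .negSucc 2260, .negSucc 3299⟩, .q ⟨.ofNat 742, .negSucc 261, .negSucc 479,
  .ofNat 0⟩ ⟨.ofNat 3510, .ofNat 2051, .negSucc 2260, .negSucc 3299⟩, .q
  ⟨.ofNat 733, .negSucc 252, .negSucc 479, .ofNat 0⟩ ⟨.negSucc 887, .negSucc
  513, .negSucc 2038, .ofNat 3441⟩, .q ⟨.ofNat 742, .negSucc 261, .negSucc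
  479, .ofNat 0⟩ ⟨.negSucc 887, .negSucc 513, .negSucc 2038, .ofNat 3441⟩],
[.q ⟨.ofNat 11, .negSucc 12, .negSucc 17, .ofNat 20⟩ ⟨.ofNat 4762, .negSucc
  1882, .negSucc 1258, .negSucc 1619⟩, .q ⟨.ofNat 11, .negSucc 12, .negSucc
  17, .ofNat 20⟩ ⟨.negSucc 3908, .ofNat 3778, .negSucc 208, .ofNat 340⟩, .q
  ⟨.ofNat 11, .negSucc 12, .negSucc 17, .ofNat 20⟩ ⟨.negSucc 3915, .negSucc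
  75, .ofNat 1852, .ofNat 2140⟩],
[.q ⟨.negSucc 46, .negSucc 55, .ofNat 71, .ofNat 32⟩ ⟨.negSucc 6028, .ofNat
  14266, .ofNat 15539, .negSucc 23775⟩, .q ⟨.negSucc 46, .negSucc 55, .ofNat
  71, .ofNat 32⟩ ⟨.ofNat 27422, .negSucc 4257, .ofNat 4, .negSucc 23167⟩, .q
  ⟨.negSucc 46, .negSucc 55, .ofNat 71, .ofNat 32⟩ ⟨.ofNat 3131, .negSucc
  17001, .negSucc 18544, .ofNat 32416⟩, .q ⟨.negSucc 46, .negSucc 55, .ofNat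
  71, .ofNat 32⟩ ⟨.negSucc 11340, .ofNat 5264, .ofNat 4189, .ofNat 1888⟩],
[.l ⟨.ofNat 0, .ofNat 20, .ofNat 0, .negSucc 14⟩ ⟨.ofNat 0, .ofNat 20,
  .ofNat 0, .ofNat 15⟩, .l ⟨.ofNat 0, .negSucc 19, .ofNat 0, .ofNat 17⟩
  ⟨.ofNat 0, .ofNat 20, .ofNat 0, .ofNat 17⟩, .l ⟨.ofNat 0, .ofNat 20,
  .ofNat 0, .negSucc 14⟩ ⟨.ofNat 0, .ofNat 716, .ofNat 3935, .ofNat 3369⟩,
  .l ⟨.ofNat 0, .ofNat 20, .ofNat 0, .negSucc 16⟩ ⟨.ofNat 0, .ofNat 716,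
  .ofNat 3935, .ofNat 3369⟩, .l ⟨.ofNat 0, .ofNat 20, .ofNat 0, .negSucc 14⟩
  ⟨.ofNat 0, .negSucc 715, .negSucc 3934, .negSucc 3787⟩, .l ⟨.ofNat 0,
  .ofNat 20, .ofNat 0, .negSucc 16⟩ ⟨.ofNat 0, .negSucc 715, .negSucc 3934,
  .negSucc 3787⟩],
[.l ⟨.ofNat 0, .ofNat 3253, .ofNat 2328, .ofNat 2441⟩ ⟨.ofNat 0, .ofNat 0,
  .ofNat 0, .ofNat 1⟩, .l ⟨.ofNat 0, .negSucc 3506, .ofNat 1924, .negSucc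
  179⟩ ⟨.ofNat 0, .ofNat 0, .ofNat 0, .ofNat 1⟩, .l ⟨.ofNat 0, .negSucc 89,
  .negSucc 995, .ofNat 11⟩ ⟨.ofNat 0, .ofNat 0, .ofNat 0, .ofNat 1⟩],
[.q ⟨.negSucc 0, .ofNat 0, .ofNat 0, .ofNat 1⟩ ⟨.ofNat 1194, .negSucc 1287,
  .negSucc 344, .ofNat 439⟩, .q ⟨.negSucc 0, .ofNat 0, .ofNat 0, .ofNat 1⟩
  ⟨.negSucc 3746, .ofNat 3986, .negSucc 338, .ofNat 100⟩, .q ⟨.negSucc 0,
  .ofNat 0, .ofNat 0, .ofNat 1⟩ ⟨.ofNat 1981, .negSucc 2403, .ofNat 3197,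
  .negSucc 2773⟩],
[.l ⟨.ofNat 0, .negSucc 1328, .ofNat 108, .ofNat 157⟩ ⟨.ofNat 0, .ofNat 0,
  .ofNat 0, .ofNat 1⟩, .l ⟨.ofNat 0, .ofNat 1309, .negSucc 1511, .negSucc
  579⟩ ⟨.ofNat 0, .ofNat 0, .ofNat 0, .ofNat 1⟩, .l ⟨.ofNat 0, .ofNat 1718,
  .ofNat 1024, .ofNat 967⟩ ⟨.ofNat 0, .ofNat 0, .ofNat 0, .ofNat 1⟩, .l
  ⟨.ofNat 0, .negSucc 3008, .ofNat 2635, .ofNat 2463⟩ ⟨.ofNat 0, .ofNat 0,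
  .ofNat 0, .ofNat 1⟩],
[.q ⟨.negSucc 0, .ofNat 0, .ofNat 0, .ofNat 1⟩ ⟨.negSucc 260, .ofNat 250,
  .ofNat 0, .ofNat 11⟩, .q ⟨.negSucc 0, .ofNat 0, .ofNat 0, .ofNat 1⟩
  ⟨.negSucc 298, .negSucc 68, .ofNat 3999, .negSucc 3630⟩, .q ⟨.negSucc 0,
  .ofNat 0, .ofNat 0, .ofNat 1⟩ ⟨.ofNat 3658, .negSucc 3956, .ofNat 584,
  .negSucc 284⟩, .q ⟨.negSucc 0, .ofNat 0, .ofNat 0, .ofNat 1⟩ ⟨.ofNat 143,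
  .negSucc 146, .negSucc 371, .ofNat 376⟩],
[.l ⟨.ofNat 0, .ofNat 40, .ofNat 0, .negSucc 34⟩ ⟨.ofNat 0, .ofNat 40,
  .ofNat 0, .ofNat 35⟩, .l ⟨.ofNat 0, .negSucc 39, .ofNat 0, .ofNat 38⟩
  ⟨.ofNat 0, .ofNat 40, .ofNat 0, .ofNat 38⟩, .l ⟨.ofNat 0, .ofNat 40,
  .ofNat 0, .negSucc 34⟩ ⟨.ofNat 0, .ofNat 795, .ofNat 3920, .ofNat 4202⟩,
  .l ⟨.ofNat 0, .ofNat 40, .ofNat 0, .negSucc 37⟩ ⟨.ofNat 0, .ofNat 795,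
  .ofNat 3920, .ofNat 4202⟩, .l ⟨.ofNat 0, .ofNat 40, .ofNat 0, .negSucc 34⟩
  ⟨.ofNat 0, .negSucc 52, .negSucc 3999, .negSucc 4322⟩, .l ⟨.ofNat 0,
  .ofNat 40, .ofNat 0, .negSucc 37⟩ ⟨.ofNat 0, .negSucc 52, .negSucc 3999,
  .negSucc 4322⟩, .l ⟨.ofNat 0, .ofNat 40, .ofNat 0, .negSucc 34⟩ ⟨.ofNat 0,
  .ofNat 2372, .ofNat 3221, .ofNat 5017⟩, .l ⟨.ofNat 0, .ofNat 40, .ofNat 0,
  .negSucc 37⟩ ⟨.ofNat 0, .ofNat 2372, .ofNat 3221, .ofNat 5017⟩],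
[.q ⟨.negSucc 37, .negSucc 41, .ofNat 80, .ofNat 0⟩ ⟨.negSucc 121, .ofNat
  42, .ofNat 80, .ofNat 0⟩, .q ⟨.ofNat 35, .ofNat 45, .negSucc 79, .ofNat 0⟩
  ⟨.negSucc 124, .ofNat 45, .ofNat 80, .ofNat 0⟩, .q ⟨.ofNat 122, .negSucc
  41, .negSucc 79, .ofNat 0⟩ ⟨.ofNat 2399, .ofNat 1601, .ofNat 0, .negSucc
  3999⟩, .q ⟨.ofNat 125, .negSucc 44, .negSucc 79, .ofNat 0⟩ ⟨.ofNat 2399,
  .ofNat 1601, .ofNat 0, .negSucc 3999⟩, .q ⟨.ofNat 122, .negSucc 41,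
  .negSucc 79, .ofNat 0⟩ ⟨.negSucc 487, .negSucc 98, .negSucc 2519, .ofNat
  3107⟩, .q ⟨.ofNat 125, .negSucc 44, .negSucc 79, .ofNat 0⟩ ⟨.negSucc 487,
  .negSucc 98, .negSucc 2519, .ofNat 3107⟩],
[.l ⟨.ofNat 0, .negSucc 499, .ofNat 0, .ofNat 9⟩ ⟨.ofNat 0, .ofNat 0, .ofNat
  0, .ofNat 1⟩, .l ⟨.ofNat 0, .negSucc 246, .negSucc 760, .negSucc 29⟩
  ⟨.ofNat 0, .ofNat 0, .ofNat 0, .ofNat 1⟩, .l ⟨.ofNat 0, .ofNat 3968,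
  .negSucc 504, .ofNat 94⟩ ⟨.ofNat 0, .ofNat 0, .ofNat 0, .ofNat 1⟩, .l
  ⟨.ofNat 0, .negSucc 356, .ofNat 563, .ofNat 448⟩ ⟨.ofNat 0, .ofNat 0,
  .ofNat 0, .ofNat 1⟩],
[.l ⟨.ofNat 0, .ofNat 20, .ofNat 0, .negSucc 15⟩ ⟨.ofNat 0, .ofNat 20,
  .ofNat 0, .ofNat 16⟩, .l ⟨.ofNat 0, .negSucc 19, .ofNat 0, .ofNat 19⟩
  ⟨.ofNat 0, .ofNat 20, .ofNat 0, .ofNat 19⟩, .l ⟨.ofNat 0, .ofNat 20,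
  .ofNat 0, .negSucc 15⟩ ⟨.ofNat 0, .ofNat 0, .ofNat 4000, .ofNat 2667⟩, .l
  ⟨.ofNat 0, .ofNat 20, .ofNat 0, .negSucc 18⟩ ⟨.ofNat 0, .ofNat 0, .ofNat
  4000, .ofNat 2667⟩, .l ⟨.ofNat 0, .ofNat 20, .ofNat 0, .negSucc 15⟩
  ⟨.ofNat 0, .ofNat 0, .negSucc 999, .negSucc 830⟩, .l ⟨.ofNat 0, .ofNat 20,
  .ofNat 0, .negSucc 18⟩ ⟨.ofNat 0, .ofNat 0, .negSucc 999, .negSucc 830⟩,
  .l ⟨.ofNat 0, .ofNat 20, .ofNat 0, .negSucc 15⟩ ⟨.ofNat 0, .ofNat 948,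
  .negSucc 1760, .negSucc 682⟩, .l ⟨.ofNat 0, .ofNat 20, .ofNat 0, .negSucc
  18⟩ ⟨.ofNat 0, .ofNat 948, .negSucc 1760, .negSucc 682⟩],
[.q ⟨.negSucc 0, .ofNat 0, .ofNat 0, .ofNat 1⟩ ⟨.negSucc 290, .ofNat 0,
  .ofNat 4000, .negSucc 3708⟩, .q ⟨.negSucc 0, .ofNat 0, .ofNat 0, .ofNat 1⟩
  ⟨.ofNat 1567, .negSucc 2440, .negSucc 3168, .ofNat 4043⟩, .q ⟨.negSucc 0,
  .ofNat 0, .ofNat 0, .ofNat 1⟩ ⟨.negSucc 98, .ofNat 0, .negSucc 3999,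
  .ofNat 4099⟩, .q ⟨.negSucc 0, .ofNat 0, .ofNat 0, .ofNat 1⟩ ⟨.negSucc
  3185, .ofNat 3947, .negSucc 651, .negSucc 108⟩],
[.l ⟨.ofNat 0, .ofNat 40, .ofNat 0, .negSucc 32⟩ ⟨.ofNat 0, .ofNat 40,
  .ofNat 0, .ofNat 33⟩, .l ⟨.ofNat 0, .negSucc 39, .ofNat 0, .ofNat 37⟩
  ⟨.ofNat 0, .ofNat 40, .ofNat 0, .ofNat 37⟩, .l ⟨.ofNat 0, .ofNat 40,
  .ofNat 0, .negSucc 32⟩ ⟨.ofNat 0, .ofNat 0, .ofNat 800, .ofNat 747⟩, .l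
  ⟨.ofNat 0, .ofNat 40, .ofNat 0, .negSucc 36⟩ ⟨.ofNat 0, .ofNat 0, .ofNat
  800, .ofNat 747⟩, .l ⟨.ofNat 0, .ofNat 40, .ofNat 0, .negSucc 32⟩ ⟨.ofNat
  0, .ofNat 779, .negSucc 3922, .negSucc 3498⟩, .l ⟨.ofNat 0, .ofNat 40,
  .ofNat 0, .negSucc 36⟩ ⟨.ofNat 0, .ofNat 779, .negSucc 3922, .negSucc
  3498⟩],
[.l ⟨.ofNat 0, .ofNat 40, .ofNat 0, .negSucc 35⟩ ⟨.ofNat 0, .ofNat 40,
  .ofNat 0, .ofNat 36⟩, .l ⟨.ofNat 0, .negSucc 39, .ofNat 0, .ofNat 39⟩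
  ⟨.ofNat 0, .ofNat 40, .ofNat 0, .ofNat 39⟩, .l ⟨.ofNat 0, .ofNat 40,
  .ofNat 0, .negSucc 35⟩ ⟨.ofNat 0, .ofNat 1228, .ofNat 3807, .negSucc
  5327⟩, .l ⟨.ofNat 0, .ofNat 40, .ofNat 0, .negSucc 38⟩ ⟨.ofNat 0, .ofNat
  1228, .ofNat 3807, .negSucc 5327⟩, .l ⟨.ofNat 0, .ofNat 40, .ofNat 0,
  .negSucc 35⟩ ⟨.ofNat 0, .negSucc 1227, .negSucc 3806, .negSucc 4290⟩, .l
  ⟨.ofNat 0, .ofNat 40, .ofNat 0, .negSucc 38⟩ ⟨.ofNat 0, .negSucc 1227,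
  .negSucc 3806, .negSucc 4290⟩, .l ⟨.ofNat 0, .ofNat 40, .ofNat 0, .negSucc
  35⟩ ⟨.ofNat 0, .ofNat 1269, .ofNat 3793, .ofNat 3044⟩, .l ⟨.ofNat 0,
  .ofNat 40, .ofNat 0, .negSucc 38⟩ ⟨.ofNat 0, .ofNat 1269, .ofNat 3793,
  .ofNat 3044⟩],
[.l ⟨.ofNat 0, .ofNat 80, .ofNat 0, .negSucc 71⟩ ⟨.ofNat 0, .ofNat 80,
  .ofNat 0, .ofNat 72⟩, .l ⟨.ofNat 0, .negSucc 79, .ofNat 0, .ofNat 75⟩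
  ⟨.ofNat 0, .ofNat 80, .ofNat 0, .ofNat 75⟩, .l ⟨.ofNat 0, .ofNat 80,
  .ofNat 0, .negSucc 71⟩ ⟨.ofNat 0, .negSucc 1778, .ofNat 3583, .ofNat
  1485⟩, .l ⟨.ofNat 0, .ofNat 80, .ofNat 0, .negSucc 74⟩ ⟨.ofNat 0, .negSucc
  1778, .ofNat 3583, .ofNat 1485⟩, .l ⟨.ofNat 0, .ofNat 80, .ofNat 0,
  .negSucc 71⟩ ⟨.ofNat 0, .ofNat 1779, .negSucc 3582, .negSucc 9893⟩, .l
  ⟨.ofNat 0, .ofNat 80, .ofNat 0, .negSucc 74⟩ ⟨.ofNat 0, .ofNat 1779,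
  .negSucc 3582, .negSucc 9893⟩, .l ⟨.ofNat 0, .ofNat 80, .ofNat 0, .negSucc
  71⟩ ⟨.ofNat 0, .ofNat 1773, .ofNat 3586, .ofNat 4768⟩, .l ⟨.ofNat 0,
  .ofNat 80, .ofNat 0, .negSucc 74⟩ ⟨.ofNat 0, .ofNat 1773, .ofNat 3586,
  .ofNat 4768⟩, .l ⟨.ofNat 0, .ofNat 80, .ofNat 0, .negSucc 71⟩ ⟨.ofNat 0,
  .ofNat 80, .negSucc 3998, .negSucc 3722⟩, .l ⟨.ofNat 0, .ofNat 80, .ofNat
  0, .negSucc 74⟩ ⟨.ofNat 0, .ofNat 80, .negSucc 3998, .negSucc 3722⟩],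
[.q ⟨.ofNat 17, .negSucc 18, .negSucc 27, .ofNat 30⟩ ⟨.negSucc 4784, .ofNat
  2210, .ofNat 1105, .ofNat 1470⟩, .q ⟨.ofNat 17, .negSucc 18, .negSucc 27,
  .ofNat 30⟩ ⟨.negSucc 1046, .negSucc 2788, .ofNat 1826, .ofNat 2010⟩, .q
  ⟨.ofNat 17, .negSucc 18, .negSucc 27, .ofNat 30⟩ ⟨.ofNat 4062, .negSucc
  4018, .negSucc 72, .ofNat 30⟩, .q ⟨.ofNat 17, .negSucc 18, .negSucc 27,
  .ofNat 30⟩ ⟨.ofNat 2420, .negSucc 938, .negSucc 760, .negSucc 719⟩, .q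
  ⟨.ofNat 17, .negSucc 18, .negSucc 27, .ofNat 30⟩ ⟨.ofNat 1193, .ofNat
  2664, .negSucc 1936, .negSucc 1919⟩],
[.q ⟨.ofNat 17, .negSucc 18, .negSucc 27, .ofNat 30⟩ ⟨.negSucc 2069, .ofNat
  1857, .ofNat 3, .ofNat 210⟩, .q ⟨.ofNat 17, .negSucc 18, .negSucc 27,
  .ofNat 30⟩ ⟨.negSucc 4521, .ofNat 1135, .ofNat 1527, .ofNat 1860⟩, .q
  ⟨.ofNat 17, .negSucc 18, .negSucc 27, .ofNat 30⟩ ⟨.ofNat 1637, .negSucc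
  4037, .ofNat 1171, .ofNat 1230⟩, .q ⟨.ofNat 17, .negSucc 18, .negSucc 27,
  .ofNat 30⟩ ⟨.ofNat 3986, .negSucc 84, .negSucc 1920, .negSucc 1979⟩],
[.q ⟨.negSucc 18, .negSucc 20, .ofNat 40, .ofNat 0⟩ ⟨.negSucc 60, .ofNat 21,
  .ofNat 40, .ofNat 0⟩, .q ⟨.ofNat 16, .ofNat 24, .negSucc 39, .ofNat 0⟩
  ⟨.negSucc 63, .ofNat 24, .ofNat 40, .ofNat 0⟩, .q ⟨.ofNat 61, .negSucc 20,
  .negSucc 39, .ofNat 0⟩ ⟨.ofNat 393, .ofNat 1607, .ofNat 0, .negSucc 1999⟩,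
  .q ⟨.ofNat 64, .negSucc 23, .negSucc 39, .ofNat 0⟩ ⟨.ofNat 393, .ofNat
  1607, .ofNat 0, .negSucc 1999⟩, .q ⟨.ofNat 61, .negSucc 20, .negSucc 39,
  .ofNat 0⟩ ⟨.ofNat 27, .negSucc 1026, .ofNat 0, .ofNat 1000⟩, .q ⟨.ofNat
  64, .negSucc 23, .negSucc 39, .ofNat 0⟩ ⟨.ofNat 27, .negSucc 1026, .ofNat
  0, .ofNat 1000⟩],
[.q ⟨.negSucc 0, .ofNat 0, .ofNat 0, .ofNat 1⟩ ⟨.negSucc 2682, .ofNat 2828,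
  .negSucc 2827, .ofNat 2683⟩, .q ⟨.negSucc 0, .ofNat 0, .ofNat 0, .ofNat 1⟩
  ⟨.negSucc 232, .negSucc 138, .ofNat 3998, .negSucc 3625⟩, .q ⟨.negSucc 0,
  .ofNat 0, .ofNat 0, .ofNat 1⟩ ⟨.ofNat 3769, .negSucc 3986, .negSucc 326,
  .ofNat 545⟩],
[.q ⟨.negSucc 0, .ofNat 1, .ofNat 0, .ofNat 0⟩ ⟨.negSucc 930, .negSucc 28,
  .ofNat 960, .ofNat 0⟩, .q ⟨.negSucc 0, .ofNat 1, .ofNat 0, .ofNat 0⟩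
  ⟨.ofNat 961, .ofNat 959, .negSucc 1919, .ofNat 0⟩, .l ⟨.ofNat 0, .ofNat 0,
  .negSucc 639, .ofNat 3⟩ ⟨.ofNat 0, .ofNat 0, .ofNat 0, .ofNat 1⟩, .l
  ⟨.ofNat 0, .ofNat 0, .ofNat 1920, .ofNat 89⟩ ⟨.ofNat 0, .ofNat 0, .ofNat
  0, .ofNat 1⟩],
[.l ⟨.ofNat 0, .ofNat 3134, .ofNat 2486, .ofNat 3233⟩ ⟨.ofNat 0, .ofNat 0,
  .ofNat 0, .ofNat 1⟩, .l ⟨.ofNat 0, .ofNat 962, .ofNat 3883, .ofNat 3338⟩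
  ⟨.ofNat 0, .ofNat 0, .ofNat 0, .ofNat 1⟩, .l ⟨.ofNat 0, .negSucc 3741,
  .ofNat 1413, .ofNat 195⟩ ⟨.ofNat 0, .ofNat 0, .ofNat 0, .ofNat 1⟩, .l
  ⟨.ofNat 0, .negSucc 193, .negSucc 3994, .negSucc 319⟩ ⟨.ofNat 0, .ofNat 0,
  .ofNat 0, .ofNat 1⟩, .l ⟨.ofNat 0, .ofNat 2214, .negSucc 3330, .negSucc
  123⟩ ⟨.ofNat 0, .ofNat 0, .ofNat 0, .ofNat 1⟩],
[.q ⟨.negSucc 8, .negSucc 10, .ofNat 20, .ofNat 0⟩ ⟨.negSucc 30, .ofNat 11,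
  .ofNat 20, .ofNat 0⟩, .q ⟨.ofNat 6, .ofNat 14, .negSucc 19, .ofNat 0⟩
  ⟨.negSucc 33, .ofNat 14, .ofNat 20, .ofNat 0⟩, .q ⟨.ofNat 31, .negSucc 10,
  .negSucc 19, .ofNat 0⟩ ⟨.ofNat 1499, .negSucc 630, .ofNat 2361, .negSucc
  3228⟩, .q ⟨.ofNat 34, .negSucc 13, .negSucc 19, .ofNat 0⟩ ⟨.ofNat 1499,
  .negSucc 630, .ofNat 2361, .negSucc 3228⟩, .q ⟨.ofNat 31, .negSucc 10,
  .negSucc 19, .ofNat 0⟩ ⟨.ofNat 447, .negSucc 3699, .negSucc 686, .ofNat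
  3940⟩, .q ⟨.ofNat 34, .negSucc 13, .negSucc 19, .ofNat 0⟩ ⟨.ofNat 447,
  .negSucc 3699, .negSucc 686, .ofNat 3940⟩, .q ⟨.ofNat 31, .negSucc 10,
  .negSucc 19, .ofNat 0⟩ ⟨.ofNat 2414, .ofNat 2816, .negSucc 3692, .negSucc
  1536⟩, .q ⟨.ofNat 34, .negSucc 13, .negSucc 19, .ofNat 0⟩ ⟨.ofNat 2414,
  .ofNat 2816, .negSucc 3692, .negSucc 1536⟩],
[.q ⟨.negSucc 10, .negSucc 8, .ofNat 20, .ofNat 0⟩ ⟨.negSucc 28, .ofNat 9,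
  .ofNat 20, .ofNat 0⟩, .q ⟨.ofNat 9, .ofNat 11, .negSucc 19, .ofNat 0⟩
  ⟨.negSucc 30, .ofNat 11, .ofNat 20, .ofNat 0⟩, .q ⟨.ofNat 29, .negSucc 8,
  .negSucc 19, .ofNat 0⟩ ⟨.ofNat 2372, .ofNat 2347, .negSucc 799, .negSucc
  3918⟩, .q ⟨.ofNat 31, .negSucc 10, .negSucc 19, .ofNat 0⟩ ⟨.ofNat 2372,
  .ofNat 2347, .negSucc 799, .negSucc 3918⟩, .q ⟨.ofNat 29, .negSucc 8,
  .negSucc 19, .ofNat 0⟩ ⟨.ofNat 8704, .negSucc 13422, .ofNat 800, .ofNat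
  3919⟩, .q ⟨.ofNat 31, .negSucc 10, .negSucc 19, .ofNat 0⟩ ⟨.ofNat 8704,
  .negSucc 13422, .ofNat 800, .ofNat 3919⟩, .q ⟨.ofNat 29, .negSucc 8,
  .negSucc 19, .ofNat 0⟩ ⟨.ofNat 2633, .ofNat 2633, .negSucc 3666, .negSucc
  1598⟩, .q ⟨.ofNat 31, .negSucc 10, .negSucc 19, .ofNat 0⟩ ⟨.ofNat 2633,
  .ofNat 2633, .negSucc 3666, .negSucc 1598⟩, .q ⟨.ofNat 29, .negSucc 8,
  .negSucc 19, .ofNat 0⟩ ⟨.ofNat 1123, .ofNat 839, .negSucc 3633, .ofNat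
  1672⟩, .q ⟨.ofNat 31, .negSucc 10, .negSucc 19, .ofNat 0⟩ ⟨.ofNat 1123,
  .ofNat 839, .negSucc 3633, .ofNat 1672⟩],
[.q ⟨.negSucc 12, .negSucc 6, .ofNat 0, .ofNat 20⟩ ⟨.ofNat 19601, .negSucc
  10704, .ofNat 20724, .negSucc 29619⟩, .q ⟨.negSucc 12, .negSucc 6, .ofNat
  0, .ofNat 20⟩ ⟨.ofNat 26396, .negSucc 19467, .ofNat 2712, .negSucc 9639⟩,
  .q ⟨.negSucc 12, .negSucc 6, .ofNat 0, .ofNat 20⟩ ⟨.negSucc 15901, .ofNat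
  7888, .negSucc 19505, .ofNat 27520⟩, .q ⟨.negSucc 12, .negSucc 6, .ofNat
  0, .ofNat 20⟩ ⟨.negSucc 21811, .ofNat 16252, .ofNat 0, .ofNat 5560⟩],
[.q ⟨.negSucc 25, .negSucc 20, .ofNat 15, .ofNat 32⟩ ⟨.negSucc 3019,
  .negSucc 5147, .ofNat 12136, .negSucc 3967⟩, .q ⟨.negSucc 25, .negSucc 20,
  .ofNat 15, .ofNat 32⟩ ⟨.ofNat 1168, .negSucc 1807, .negSucc 511, .ofNat
  1152⟩, .q ⟨.negSucc 25, .negSucc 20, .ofNat 15, .ofNat 32⟩ ⟨.ofNat 3156,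
  .ofNat 4604, .negSucc 12111, .ofNat 4352⟩, .q ⟨.negSucc 25, .negSucc 20,
  .ofNat 15, .ofNat 32⟩ ⟨.negSucc 2439, .ofNat 3532, .ofNat 1084, .negSucc
  2175⟩],
[.q ⟨.negSucc 0, .ofNat 0, .ofNat 0, .ofNat 1⟩ ⟨.negSucc 1756, .ofNat 2285,
  .negSucc 3282, .ofNat 2755⟩, .q ⟨.negSucc 0, .ofNat 0, .ofNat 0, .ofNat 1⟩
  ⟨.negSucc 1850, .ofNat 2000, .ofNat 0, .negSucc 148⟩, .q ⟨.negSucc 0,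
  .ofNat 0, .ofNat 0, .ofNat 1⟩ ⟨.negSucc 750, .ofNat 707, .ofNat 707,
  .negSucc 662⟩, .q ⟨.negSucc 0, .ofNat 0, .ofNat 0, .ofNat 1⟩ ⟨.ofNat 3207,
  .negSucc 3778, .ofNat 1311, .negSucc 738⟩],
[.q ⟨.negSucc 18, .negSucc 20, .ofNat 40, .ofNat 0⟩ ⟨.negSucc 60, .ofNat 21,
  .ofNat 40, .ofNat 0⟩, .q ⟨.ofNat 16, .ofNat 24, .negSucc 39, .ofNat 0⟩
  ⟨.negSucc 63, .ofNat 24, .ofNat 40, .ofNat 0⟩, .q ⟨.ofNat 61, .negSucc 20,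
  .negSucc 39, .ofNat 0⟩ ⟨.ofNat 2338, .ofNat 2294, .negSucc 692, .negSucc
  3938⟩, .q ⟨.ofNat 64, .negSucc 23, .negSucc 39, .ofNat 0⟩ ⟨.ofNat 2338,
  .ofNat 2294, .negSucc 692, .negSucc 3938⟩, .q ⟨.ofNat 61, .negSucc 20,
  .negSucc 39, .ofNat 0⟩ ⟨.negSucc 1555, .negSucc 3075, .ofNat 693, .ofNat
  3939⟩, .q ⟨.ofNat 64, .negSucc 23, .negSucc 39, .ofNat 0⟩ ⟨.negSucc 1555,
  .negSucc 3075, .ofNat 693, .ofNat 3939⟩],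
[.q ⟨.negSucc 8, .negSucc 10, .ofNat 20, .ofNat 0⟩ ⟨.negSucc 30, .ofNat 11,
  .ofNat 20, .ofNat 0⟩, .q ⟨.ofNat 6, .ofNat 14, .negSucc 19, .ofNat 0⟩
  ⟨.negSucc 33, .ofNat 14, .ofNat 20, .ofNat 0⟩, .q ⟨.ofNat 31, .negSucc 10,
  .negSucc 19, .ofNat 0⟩ ⟨.ofNat 1484, .ofNat 794, .negSucc 300, .negSucc
  1976⟩, .q ⟨.ofNat 34, .negSucc 13, .negSucc 19, .ofNat 0⟩ ⟨.ofNat 1484,
  .ofNat 794, .negSucc 300, .negSucc 1976⟩, .q ⟨.ofNat 31, .negSucc 10,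
  .negSucc 19, .ofNat 0⟩ ⟨.negSucc 64, .negSucc 2212, .ofNat 301, .ofNat
  1977⟩, .q ⟨.ofNat 34, .negSucc 13, .negSucc 19, .ofNat 0⟩ ⟨.negSucc 64,
  .negSucc 2212, .ofNat 301, .ofNat 1977⟩, .q ⟨.ofNat 31, .negSucc 10,
  .negSucc 19, .ofNat 0⟩ ⟨.ofNat 2434, .ofNat 2796, .negSucc 3692, .negSucc
  1536⟩, .q ⟨.ofNat 34, .negSucc 13, .negSucc 19, .ofNat 0⟩ ⟨.ofNat 2434,
  .ofNat 2796, .negSucc 3692, .negSucc 1536⟩],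
[.q ⟨.negSucc 0, .ofNat 0, .ofNat 0, .ofNat 1⟩ ⟨.negSucc 14, .ofNat 367,
  .negSucc 3982, .ofNat 3631⟩, .q ⟨.negSucc 0, .ofNat 0, .ofNat 0, .ofNat 1⟩
  ⟨.negSucc 3347, .ofNat 3803, .negSucc 1237, .ofNat 783⟩, .q ⟨.negSucc 0,
  .ofNat 0, .ofNat 0, .ofNat 1⟩ ⟨.negSucc 750, .ofNat 707, .ofNat 707,
  .negSucc 662⟩, .q ⟨.negSucc 0, .ofNat 0, .ofNat 0, .ofNat 1⟩ ⟨.ofNat 683,
  .negSucc 799, .ofNat 0, .ofNat 117⟩],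
[.q ⟨.negSucc 9, .negSucc 9, .ofNat 20, .ofNat 0⟩ ⟨.negSucc 29, .ofNat 10,
  .ofNat 20, .ofNat 0⟩, .q ⟨.ofNat 7, .ofNat 13, .negSucc 19, .ofNat 0⟩
  ⟨.negSucc 32, .ofNat 13, .ofNat 20, .ofNat 0⟩, .q ⟨.ofNat 30, .negSucc 9,
  .negSucc 19, .ofNat 0⟩ ⟨.ofNat 1221, .ofNat 3934, .negSucc 1411, .negSucc
  3742⟩, .q ⟨.ofNat 33, .negSucc 12, .negSucc 19, .ofNat 0⟩ ⟨.ofNat 1221,
  .ofNat 3934, .negSucc 1411, .negSucc 3742⟩, .q ⟨.ofNat 30, .negSucc 9,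
  .negSucc 19, .ofNat 0⟩ ⟨.negSucc 643, .negSucc 4510, .ofNat 1412, .ofNat
  3743⟩, .q ⟨.ofNat 33, .negSucc 12, .negSucc 19, .ofNat 0⟩ ⟨.negSucc 643,
  .negSucc 4510, .ofNat 1412, .ofNat 3743⟩],
[.q ⟨.negSucc 18, .negSucc 15, .ofNat 11, .ofNat 24⟩ ⟨.negSucc 4035,
  .negSucc 3263, .ofNat 12292, .negSucc 4991⟩, .q ⟨.negSucc 18, .negSucc 15,
  .ofNat 11, .ofNat 24⟩ ⟨.ofNat 9692, .negSucc 21311, .ofNat 3652, .ofNat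
  7968⟩, .q ⟨.negSucc 18, .negSucc 15, .ofNat 11, .ofNat 24⟩ ⟨.ofNat 11712,
  .negSucc 13487, .negSucc 9647, .ofNat 11424⟩, .q ⟨.negSucc 18, .negSucc
  15, .ofNat 11, .ofNat 24⟩ ⟨.ofNat 612, .ofNat 3860, .negSucc 5815, .ofNat
  1344⟩, .q ⟨.negSucc 18, .negSucc 15, .ofNat 11, .ofNat 24⟩ ⟨.negSucc
  12299, .ofNat 17904, .ofNat 5436, .negSucc 11039⟩],
[.q ⟨.ofNat 11, .negSucc 12, .negSucc 17, .ofNat 20⟩ ⟨.ofNat 4777, .negSucc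
  1782, .negSucc 1393, .negSucc 1599⟩, .q ⟨.ofNat 11, .negSucc 12, .negSucc
  17, .ofNat 20⟩ ⟨.ofNat 2737, .ofNat 1467, .negSucc 2143, .negSucc 2059⟩,
  .q ⟨.ofNat 11, .negSucc 12, .negSucc 17, .ofNat 20⟩ ⟨.negSucc 484, .ofNat
  474, .negSucc 28, .ofNat 40⟩, .q ⟨.ofNat 11, .negSucc 12, .negSucc 17,
  .ofNat 20⟩ ⟨.negSucc 3063, .negSucc 1141, .ofNat 2066, .ofNat 2140⟩],
[.q ⟨.negSucc 0, .ofNat 0, .ofNat 0, .ofNat 1⟩ ⟨.ofNat 693, .negSucc 999,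
  .ofNat 0, .ofNat 307⟩, .q ⟨.negSucc 0, .ofNat 0, .ofNat 0, .ofNat 1⟩
  ⟨.negSucc 2195, .ofNat 2642, .negSucc 3002, .ofNat 2557⟩, .q ⟨.negSucc 0,
  .ofNat 0, .ofNat 0, .ofNat 1⟩ ⟨.negSucc 3124, .ofNat 3859, .negSucc 1053,
  .ofNat 320⟩, .q ⟨.negSucc 0, .ofNat 0, .ofNat 0, .ofNat 1⟩ ⟨.negSucc 1516,
  .ofNat 1782, .ofNat 3581, .negSucc 3845⟩],
[.q ⟨.negSucc 18, .negSucc 20, .ofNat 40, .ofNat 0⟩ ⟨.negSucc 60, .ofNat 21,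
  .ofNat 40, .ofNat 0⟩, .q ⟨.ofNat 16, .ofNat 24, .negSucc 39, .ofNat 0⟩
  ⟨.negSucc 63, .ofNat 24, .ofNat 40, .ofNat 0⟩, .q ⟨.ofNat 61, .negSucc 20,
  .negSucc 39, .ofNat 0⟩ ⟨.ofNat 2722, .ofNat 2877, .negSucc 2394, .negSucc
  3203⟩, .q ⟨.ofNat 64, .negSucc 23, .negSucc 39, .ofNat 0⟩ ⟨.ofNat 2722,
  .ofNat 2877, .negSucc 2394, .negSucc 3203⟩, .q ⟨.ofNat 61, .negSucc 20,
  .negSucc 39, .ofNat 0⟩ ⟨.negSucc 1920, .negSucc 3379, .ofNat 1663, .ofNat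
  3638⟩, .q ⟨.ofNat 64, .negSucc 23, .negSucc 39, .ofNat 0⟩ ⟨.negSucc 1920,
  .negSucc 3379, .ofNat 1663, .ofNat 3638⟩],
[.q ⟨.negSucc 0, .ofNat 1, .ofNat 0, .ofNat 0⟩ ⟨.negSucc 562, .negSucc 76,
  .ofNat 640, .ofNat 0⟩, .q ⟨.negSucc 0, .ofNat 1, .ofNat 0, .ofNat 0⟩
  ⟨.ofNat 961, .ofNat 959, .negSucc 1919, .ofNat 0⟩, .l ⟨.ofNat 0, .ofNat 0,
  .negSucc 319, .ofNat 9⟩ ⟨.ofNat 0, .ofNat 0, .ofNat 0, .ofNat 1⟩, .l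
  ⟨.ofNat 0, .ofNat 0, .ofNat 320, .ofNat 23⟩ ⟨.ofNat 0, .ofNat 0, .ofNat 0,
  .ofNat 1⟩],
[.q ⟨.negSucc 0, .ofNat 0, .ofNat 0, .ofNat 1⟩ ⟨.negSucc 1035, .ofNat 1356,
  .negSucc 3762, .ofNat 3443⟩, .q ⟨.negSucc 0, .ofNat 0, .ofNat 0, .ofNat 1⟩
  ⟨.negSucc 29, .negSucc 351, .ofNat 3985, .negSucc 3602⟩, .q ⟨.negSucc 0,
  .ofNat 0, .ofNat 0, .ofNat 1⟩ ⟨.ofNat 2973, .negSucc 3380, .ofNat 2138,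
  .negSucc 1729⟩],
[.l ⟨.ofNat 0, .negSucc 589, .negSucc 1910, .negSucc 49⟩ ⟨.ofNat 0, .ofNat
  0, .ofNat 0, .ofNat 1⟩, .l ⟨.ofNat 0, .ofNat 3414, .negSucc 2084, .ofNat
  2866⟩ ⟨.ofNat 0, .ofNat 0, .ofNat 0, .ofNat 1⟩, .l ⟨.ofNat 0, .ofNat 0,
  .ofNat 1000, .ofNat 31⟩ ⟨.ofNat 0, .ofNat 0, .ofNat 0, .ofNat 1⟩],
[.q ⟨.negSucc 0, .ofNat 1, .ofNat 0, .ofNat 0⟩ ⟨.negSucc 1788, .negSucc 130,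
  .ofNat 1920, .ofNat 0⟩, .q ⟨.negSucc 0, .ofNat 1, .ofNat 0, .ofNat 0⟩
  ⟨.ofNat 961, .ofNat 959, .negSucc 1919, .ofNat 0⟩, .l ⟨.ofNat 0, .ofNat 0,
  .negSucc 1919, .ofNat 29⟩ ⟨.ofNat 0, .ofNat 0, .ofNat 0, .ofNat 1⟩, .l
  ⟨.ofNat 0, .ofNat 0, .ofNat 160, .ofNat 9⟩ ⟨.ofNat 0, .ofNat 0, .ofNat 0,
  .ofNat 1⟩],
[.q ⟨.ofNat 17, .negSucc 18, .negSucc 27, .ofNat 30⟩ ⟨.negSucc 4145, .ofNat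
  361, .ofNat 1775, .ofNat 2010⟩, .q ⟨.ofNat 17, .negSucc 18, .negSucc 27,
  .ofNat 30⟩ ⟨.ofNat 1, .negSucc 0, .ofNat 0, .ofNat 0⟩, .q ⟨.ofNat 17,
  .negSucc 18, .negSucc 27, .ofNat 30⟩ ⟨.ofNat 179, .ofNat 741, .negSucc
  469, .negSucc 449⟩],
[.q ⟨.negSucc 1, .negSucc 37, .ofNat 40, .ofNat 0⟩ ⟨.negSucc 77, .ofNat 38,
  .ofNat 40, .ofNat 0⟩, .q ⟨.negSucc 0, .ofNat 41, .negSucc 39, .ofNat 0⟩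
  ⟨.negSucc 80, .ofNat 41, .ofNat 40, .ofNat 0⟩, .q ⟨.ofNat 78, .negSucc 37,
  .negSucc 39, .ofNat 0⟩ ⟨.ofNat 3192, .ofNat 1899, .negSucc 1312, .negSucc
  3777⟩, .q ⟨.ofNat 81, .negSucc 40, .negSucc 39, .ofNat 0⟩ ⟨.ofNat 3192,
  .ofNat 1899, .negSucc 1312, .negSucc 3777⟩, .q ⟨.ofNat 78, .negSucc 37,
  .negSucc 39, .ofNat 0⟩ ⟨.ofNat 686, .negSucc 5587, .ofNat 1039, .ofNat
  3863⟩, .q ⟨.ofNat 81, .negSucc 40, .negSucc 39, .ofNat 0⟩ ⟨.ofNat 686,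
  .negSucc 5587, .ofNat 1039, .ofNat 3863⟩, .q ⟨.ofNat 78, .negSucc 37,
  .negSucc 39, .ofNat 0⟩ ⟨.ofNat 3244, .negSucc 450, .ofNat 1063, .negSucc
  3855⟩, .q ⟨.ofNat 81, .negSucc 40, .negSucc 39, .ofNat 0⟩ ⟨.ofNat 3244,
  .negSucc 450, .ofNat 1063, .negSucc 3855⟩],
[.l ⟨.ofNat 0, .ofNat 3603, .ofNat 1738, .ofNat 3265⟩ ⟨.ofNat 0, .ofNat 0,
  .ofNat 0, .ofNat 1⟩, .l ⟨.ofNat 0, .ofNat 0, .ofNat 4000, .ofNat 127⟩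
  ⟨.ofNat 0, .ofNat 0, .ofNat 0, .ofNat 1⟩, .l ⟨.ofNat 0, .negSucc 3999,
  .ofNat 0, .negSucc 180⟩ ⟨.ofNat 0, .ofNat 0, .ofNat 0, .ofNat 1⟩, .l
  ⟨.ofNat 0, .negSucc 1574, .negSucc 3676, .negSucc 22⟩ ⟨.ofNat 0, .ofNat 0,
  .ofNat 0, .ofNat 1⟩, .l ⟨.ofNat 0, .ofNat 0, .negSucc 1999, .ofNat 41⟩
  ⟨.ofNat 0, .ofNat 0, .ofNat 0, .ofNat 1⟩],
[.l ⟨.ofNat 0, .negSucc 3915, .ofNat 815, .ofNat 877⟩ ⟨.ofNat 0, .ofNat 0,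
  .ofNat 0, .ofNat 1⟩, .l ⟨.ofNat 0, .negSucc 1087, .negSucc 3848, .negSucc
  1285⟩ ⟨.ofNat 0, .ofNat 0, .ofNat 0, .ofNat 1⟩, .l ⟨.ofNat 0, .ofNat 3752,
  .ofNat 1387, .ofNat 1359⟩ ⟨.ofNat 0, .ofNat 0, .ofNat 0, .ofNat 1⟩, .l
  ⟨.ofNat 0, .negSucc 1413, .ofNat 1414, .ofNat 1317⟩ ⟨.ofNat 0, .ofNat 0,
  .ofNat 0, .ofNat 1⟩],
[.l ⟨.ofNat 0, .negSucc 3981, .ofNat 383, .negSucc 2369⟩ ⟨.ofNat 0, .ofNat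
  0, .ofNat 0, .ofNat 1⟩, .l ⟨.ofNat 0, .ofNat 75, .negSucc 3998, .ofNat
  842⟩ ⟨.ofNat 0, .ofNat 0, .ofNat 0, .ofNat 1⟩, .l ⟨.ofNat 0, .ofNat 1414,
  .negSucc 1413, .ofNat 1119⟩ ⟨.ofNat 0, .ofNat 0, .ofNat 0, .ofNat 1⟩, .l
  ⟨.ofNat 0, .ofNat 1054, .ofNat 3859, .ofNat 1140⟩ ⟨.ofNat 0, .ofNat 0,
  .ofNat 0, .ofNat 1⟩],
[.q ⟨.negSucc 41, .negSucc 37, .ofNat 80, .ofNat 0⟩ ⟨.negSucc 117, .ofNat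
  38, .ofNat 80, .ofNat 0⟩, .q ⟨.ofNat 39, .ofNat 41, .negSucc 79, .ofNat 0⟩
  ⟨.negSucc 120, .ofNat 41, .ofNat 80, .ofNat 0⟩, .q ⟨.ofNat 118, .negSucc
  37, .negSucc 79, .ofNat 0⟩ ⟨.ofNat 526, .ofNat 3501, .negSucc 26, .negSucc
  3999⟩, .q ⟨.ofNat 121, .negSucc 40, .negSucc 79, .ofNat 0⟩ ⟨.ofNat 526,
  .ofNat 3501, .negSucc 26, .negSucc 3999⟩, .q ⟨.ofNat 118, .negSucc 37,
  .negSucc 79, .ofNat 0⟩ ⟨.ofNat 881, .negSucc 2877, .negSucc 1647, .ofNat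
  3645⟩, .q ⟨.ofNat 121, .negSucc 40, .negSucc 79, .ofNat 0⟩ ⟨.ofNat 881,
  .negSucc 2877, .negSucc 1647, .ofNat 3645⟩],
[.l ⟨.ofNat 0, .negSucc 3944, .ofNat 659, .ofNat 1183⟩ ⟨.ofNat 0, .ofNat 0,
  .ofNat 0, .ofNat 1⟩, .l ⟨.ofNat 0, .negSucc 3554, .negSucc 1833, .negSucc
  389⟩ ⟨.ofNat 0, .ofNat 0, .ofNat 0, .ofNat 1⟩, .l ⟨.ofNat 0, .ofNat 2663,
  .negSucc 2984, .negSucc 48⟩ ⟨.ofNat 0, .ofNat 0, .ofNat 0, .ofNat 1⟩, .l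
  ⟨.ofNat 0, .ofNat 1997, .ofNat 3466, .ofNat 2364⟩ ⟨.ofNat 0, .ofNat 0,
  .ofNat 0, .ofNat 1⟩],
[.l ⟨.ofNat 0, .ofNat 20, .ofNat 0, .negSucc 15⟩ ⟨.ofNat 0, .ofNat 20,
  .ofNat 0, .ofNat 16⟩, .l ⟨.ofNat 0, .negSucc 19, .ofNat 0, .ofNat 19⟩
  ⟨.ofNat 0, .ofNat 20, .ofNat 0, .ofNat 19⟩, .l ⟨.ofNat 0, .ofNat 20,
  .ofNat 0, .negSucc 15⟩ ⟨.ofNat 0, .ofNat 2381, .ofNat 3214, .ofNat 4980⟩,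
  .l ⟨.ofNat 0, .ofNat 20, .ofNat 0, .negSucc 18⟩ ⟨.ofNat 0, .ofNat 2381,
  .ofNat 3214, .ofNat 4980⟩, .l ⟨.ofNat 0, .ofNat 20, .ofNat 0, .negSucc 15⟩
  ⟨.ofNat 0, .ofNat 488, .negSucc 3969, .negSucc 3776⟩, .l ⟨.ofNat 0, .ofNat
  20, .ofNat 0, .negSucc 18⟩ ⟨.ofNat 0, .ofNat 488, .negSucc 3969, .negSucc
  3776⟩, .l ⟨.ofNat 0, .ofNat 20, .ofNat 0, .negSucc 15⟩ ⟨.ofNat 0, .negSucc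
  1631, .ofNat 3652, .ofNat 1867⟩, .l ⟨.ofNat 0, .ofNat 20, .ofNat 0,
  .negSucc 18⟩ ⟨.ofNat 0, .negSucc 1631, .ofNat 3652, .ofNat 1867⟩],
[.l ⟨.ofNat 0, .ofNat 80, .ofNat 0, .negSucc 66⟩ ⟨.ofNat 0, .ofNat 80,
  .ofNat 0, .ofNat 67⟩, .l ⟨.ofNat 0, .negSucc 79, .ofNat 0, .ofNat 71⟩
  ⟨.ofNat 0, .ofNat 80, .ofNat 0, .ofNat 71⟩, .l ⟨.ofNat 0, .ofNat 80,
  .ofNat 0, .negSucc 66⟩ ⟨.ofNat 0, .negSucc 244, .ofNat 3992, .ofNat 1889⟩,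
  .l ⟨.ofNat 0, .ofNat 80, .ofNat 0, .negSucc 70⟩ ⟨.ofNat 0, .negSucc 244,
  .ofNat 3992, .ofNat 1889⟩, .l ⟨.ofNat 0, .ofNat 80, .ofNat 0, .negSucc 66⟩
  ⟨.ofNat 0, .ofNat 245, .negSucc 3991, .negSucc 3118⟩, .l ⟨.ofNat 0, .ofNat
  80, .ofNat 0, .negSucc 70⟩ ⟨.ofNat 0, .ofNat 245, .negSucc 3991, .negSucc
  3118⟩],
[.q ⟨.negSucc 0, .negSucc 18, .ofNat 20, .ofNat 0⟩ ⟨.negSucc 38, .ofNat 19,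
  .ofNat 20, .ofNat 0⟩, .q ⟨.negSucc 1, .ofNat 22, .negSucc 19, .ofNat 0⟩
  ⟨.negSucc 41, .ofNat 22, .ofNat 20, .ofNat 0⟩, .q ⟨.ofNat 39, .negSucc 18,
  .negSucc 19, .ofNat 0⟩ ⟨.ofNat 2782, .negSucc 1642, .ofNat 2201, .negSucc
  3339⟩, .q ⟨.ofNat 42, .negSucc 21, .negSucc 19, .ofNat 0⟩ ⟨.ofNat 2782,
  .negSucc 1642, .ofNat 2201, .negSucc 3339⟩, .q ⟨.ofNat 39, .negSucc 18,
  .negSucc 19, .ofNat 0⟩ ⟨.ofNat 7925, .negSucc 9063, .negSucc 2200, .ofNat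
  3340⟩, .q ⟨.ofNat 42, .negSucc 21, .negSucc 19, .ofNat 0⟩ ⟨.ofNat 7925,
  .negSucc 9063, .negSucc 2200, .ofNat 3340⟩, .q ⟨.ofNat 39, .negSucc 18,
  .negSucc 19, .ofNat 0⟩ ⟨.ofNat 2384, .ofNat 3272, .negSucc 2870, .negSucc
  2784⟩, .q ⟨.ofNat 42, .negSucc 21, .negSucc 19, .ofNat 0⟩ ⟨.ofNat 2384,
  .ofNat 3272, .negSucc 2870, .negSucc 2784⟩, .q ⟨.ofNat 39, .negSucc 18,
  .negSucc 19, .ofNat 0⟩ ⟨.negSucc 1617, .negSucc 3930, .ofNat 3324, .ofNat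
  2225⟩, .q ⟨.ofNat 42, .negSucc 21, .negSucc 19, .ofNat 0⟩ ⟨.negSucc 1617,
  .negSucc 3930, .ofNat 3324, .ofNat 2225⟩],
[.l ⟨.ofNat 0, .ofNat 40, .ofNat 0, .negSucc 33⟩ ⟨.ofNat 0, .ofNat 40,
  .ofNat 0, .ofNat 34⟩, .l ⟨.ofNat 0, .negSucc 39, .ofNat 0, .ofNat 37⟩
  ⟨.ofNat 0, .ofNat 40, .ofNat 0, .ofNat 37⟩, .l ⟨.ofNat 0, .ofNat 40,
  .ofNat 0, .negSucc 33⟩ ⟨.ofNat 0, .ofNat 0, .ofNat 4000, .negSucc 8276⟩,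
  .l ⟨.ofNat 0, .ofNat 40, .ofNat 0, .negSucc 36⟩ ⟨.ofNat 0, .ofNat 0,
  .ofNat 4000, .negSucc 8276⟩, .l ⟨.ofNat 0, .ofNat 40, .ofNat 0, .negSucc
  33⟩ ⟨.ofNat 0, .ofNat 0, .negSucc 3999, .negSucc 3348⟩, .l ⟨.ofNat 0,
  .ofNat 40, .ofNat 0, .negSucc 36⟩ ⟨.ofNat 0, .ofNat 0, .negSucc 3999,
  .negSucc 3348⟩, .l ⟨.ofNat 0, .ofNat 40, .ofNat 0, .negSucc 33⟩ ⟨.ofNat 0,
  .ofNat 158, .ofNat 3997, .ofNat 3345⟩, .l ⟨.ofNat 0, .ofNat 40, .ofNat 0,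
  .negSucc 36⟩ ⟨.ofNat 0, .ofNat 158, .ofNat 3997, .ofNat 3345⟩, .l ⟨.ofNat
  0, .ofNat 40, .ofNat 0, .negSucc 33⟩ ⟨.ofNat 0, .ofNat 3601, .negSucc
  1741, .ofNat 1672⟩, .l ⟨.ofNat 0, .ofNat 40, .ofNat 0, .negSucc 36⟩
  ⟨.ofNat 0, .ofNat 3601, .negSucc 1741, .ofNat 1672⟩],
[.q ⟨.negSucc 0, .ofNat 0, .ofNat 0, .ofNat 1⟩ ⟨.negSucc 1693, .ofNat 1719,
  .negSucc 3611, .ofNat 3587⟩, .q ⟨.negSucc 0, .ofNat 0, .ofNat 0, .ofNat 1⟩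
  ⟨.negSucc 3712, .ofNat 3963, .negSucc 542, .ofNat 293⟩, .q ⟨.negSucc 0,
  .ofNat 0, .ofNat 0, .ofNat 1⟩ ⟨.ofNat 781, .negSucc 1198, .ofNat 3816,
  .negSucc 3397⟩, .q ⟨.negSucc 0, .ofNat 0, .ofNat 0, .ofNat 1⟩ ⟨.ofNat
  1788, .negSucc 1978, .ofNat 289, .negSucc 97⟩],
[.q ⟨.negSucc 0, .ofNat 1, .ofNat 0, .ofNat 0⟩ ⟨.negSucc 118, .negSucc 8,
  .ofNat 128, .ofNat 0⟩, .q ⟨.negSucc 0, .ofNat 1, .ofNat 0, .ofNat 0⟩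
  ⟨.ofNat 961, .ofNat 959, .negSucc 1919, .ofNat 0⟩, .l ⟨.ofNat 0, .ofNat 0,
  .negSucc 1919, .ofNat 37⟩ ⟨.ofNat 0, .ofNat 0, .ofNat 0, .ofNat 1⟩, .l
  ⟨.ofNat 0, .ofNat 0, .ofNat 160, .ofNat 9⟩ ⟨.ofNat 0, .ofNat 0, .ofNat 0,
  .ofNat 1⟩],
[.q ⟨.negSucc 0, .negSucc 38, .ofNat 40, .ofNat 0⟩ ⟨.negSucc 78, .ofNat 39,
  .ofNat 40, .ofNat 0⟩, .q ⟨.negSucc 1, .ofNat 42, .negSucc 39, .ofNat 0⟩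
  ⟨.negSucc 81, .ofNat 42, .ofNat 40, .ofNat 0⟩, .q ⟨.ofNat 79, .negSucc 38,
  .negSucc 39, .ofNat 0⟩ ⟨.ofNat 3967, .negSucc 822, .ofNat 779, .negSucc
  3922⟩, .q ⟨.ofNat 82, .negSucc 41, .negSucc 39, .ofNat 0⟩ ⟨.ofNat 3967,
  .negSucc 822, .ofNat 779, .negSucc 3922⟩, .q ⟨.ofNat 79, .negSucc 38,
  .negSucc 39, .ofNat 0⟩ ⟨.negSucc 3639, .ofNat 496, .negSucc 778, .ofNat
  3923⟩, .q ⟨.ofNat 82, .negSucc 41, .negSucc 39, .ofNat 0⟩ ⟨.negSucc 3639,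
  .ofNat 496, .negSucc 778, .ofNat 3923⟩, .q ⟨.ofNat 79, .negSucc 38,
  .negSucc 39, .ofNat 0⟩ ⟨.negSucc 1751, .negSucc 3655, .ofNat 3533, .ofNat
  1875⟩, .q ⟨.ofNat 82, .negSucc 41, .negSucc 39, .ofNat 0⟩ ⟨.negSucc 1751,
  .negSucc 3655, .ofNat 3533, .ofNat 1875⟩],
[.l ⟨.ofNat 0, .ofNat 40, .ofNat 0, .negSucc 28⟩ ⟨.ofNat 0, .ofNat 40,
  .ofNat 0, .ofNat 29⟩, .l ⟨.ofNat 0, .negSucc 39, .ofNat 0, .ofNat 32⟩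
  ⟨.ofNat 0, .ofNat 40, .ofNat 0, .ofNat 32⟩, .l ⟨.ofNat 0, .ofNat 40,
  .ofNat 0, .negSucc 28⟩ ⟨.ofNat 0, .ofNat 757, .ofNat 3928, .ofNat 3486⟩,
  .l ⟨.ofNat 0, .ofNat 40, .ofNat 0, .negSucc 31⟩ ⟨.ofNat 0, .ofNat 757,
  .ofNat 3928, .ofNat 3486⟩, .l ⟨.ofNat 0, .ofNat 40, .ofNat 0, .negSucc 28⟩
  ⟨.ofNat 0, .negSucc 756, .negSucc 3927, .negSucc 3787⟩, .l ⟨.ofNat 0,
  .ofNat 40, .ofNat 0, .negSucc 31⟩ ⟨.ofNat 0, .negSucc 756, .negSucc 3927,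
  .negSucc 3787⟩],
[.l ⟨.ofNat 0, .ofNat 0, .ofNat 25068, .ofNat 2720⟩ ⟨.ofNat 0, .ofNat 0,
  .ofNat 1, .ofNat 40⟩, .l ⟨.ofNat 0, .ofNat 0, .negSucc 31194, .negSucc
  2999⟩ ⟨.ofNat 0, .ofNat 0, .ofNat 1, .ofNat 40⟩, .l ⟨.ofNat 0, .negSucc
  32079, .negSucc 720, .negSucc 28839⟩ ⟨.ofNat 0, .ofNat 0, .ofNat 1, .ofNat
  40⟩, .l ⟨.ofNat 0, .ofNat 23880, .ofNat 12213, .ofNat 22920⟩ ⟨.ofNat 0,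
  .ofNat 0, .ofNat 1, .ofNat 40⟩],
[.l ⟨.ofNat 0, .negSucc 941, .negSucc 3886, .negSucc 385⟩ ⟨.ofNat 0, .ofNat
  0, .ofNat 0, .ofNat 1⟩, .l ⟨.ofNat 0, .ofNat 3774, .ofNat 1325, .ofNat
  1381⟩ ⟨.ofNat 0, .ofNat 0, .ofNat 0, .ofNat 1⟩, .l ⟨.ofNat 0, .negSucc
  2068, .ofNat 3423, .ofNat 2785⟩ ⟨.ofNat 0, .ofNat 0, .ofNat 0, .ofNat 1⟩,
  .l ⟨.ofNat 0, .negSucc 3982, .negSucc 364, .ofNat 74⟩ ⟨.ofNat 0, .ofNat 0,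
  .ofNat 0, .ofNat 1⟩],
[.q ⟨.negSucc 40, .negSucc 38, .ofNat 80, .ofNat 0⟩ ⟨.negSucc 118, .ofNat
  39, .ofNat 80, .ofNat 0⟩, .q ⟨.ofNat 37, .ofNat 43, .negSucc 79, .ofNat 0⟩
  ⟨.negSucc 122, .ofNat 43, .ofNat 80, .ofNat 0⟩, .q ⟨.ofNat 119, .negSucc
  38, .negSucc 79, .ofNat 0⟩ ⟨.ofNat 1826, .ofNat 1797, .ofNat 361, .negSucc
  3983⟩, .q ⟨.ofNat 123, .negSucc 42, .negSucc 79, .ofNat 0⟩ ⟨.ofNat 1826,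
  .ofNat 1797, .ofNat 361, .negSucc 3983⟩, .q ⟨.ofNat 119, .negSucc 38,
  .negSucc 79, .ofNat 0⟩ ⟨.negSucc 1490, .negSucc 2131, .negSucc 360, .ofNat
  3984⟩, .q ⟨.ofNat 123, .negSucc 42, .negSucc 79, .ofNat 0⟩ ⟨.negSucc 1490,
  .negSucc 2131, .negSucc 360, .ofNat 3984⟩, .q ⟨.ofNat 119, .negSucc 38,
  .negSucc 79, .ofNat 0⟩ ⟨.ofNat 2630, .ofNat 2621, .negSucc 3677, .negSucc
  1572⟩, .q ⟨.ofNat 123, .negSucc 42, .negSucc 79, .ofNat 0⟩ ⟨.ofNat 2630,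
  .ofNat 2621, .negSucc 3677, .negSucc 1572⟩],
[.q ⟨.negSucc 0, .ofNat 0, .ofNat 0, .ofNat 1⟩ ⟨.negSucc 46, .ofNat 0,
  .ofNat 400, .negSucc 352⟩, .q ⟨.negSucc 0, .ofNat 0, .ofNat 0, .ofNat 1⟩
  ⟨.ofNat 2713, .negSucc 2827, .negSucc 2827, .ofNat 2943⟩, .q ⟨.negSucc 0,
  .ofNat 0, .ofNat 0, .ofNat 1⟩ ⟨.negSucc 980, .ofNat 1418, .negSucc 3739,
  .ofNat 3303⟩, .q ⟨.negSucc 0, .ofNat 0, .ofNat 0, .ofNat 1⟩ ⟨.negSucc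
  3267, .ofNat 3715, .negSucc 1482, .ofNat 1036⟩],
[.q ⟨.negSucc 0, .ofNat 1, .ofNat 0, .ofNat 0⟩ ⟨.negSucc 84, .negSucc 10,
  .ofNat 96, .ofNat 0⟩, .q ⟨.negSucc 0, .ofNat 1, .ofNat 0, .ofNat 0⟩
  ⟨.ofNat 961, .ofNat 959, .negSucc 1919, .ofNat 0⟩, .l ⟨.ofNat 0, .ofNat 0,
  .negSucc 479, .ofNat 13⟩ ⟨.ofNat 0, .ofNat 0, .ofNat 0, .ofNat 1⟩, .l
  ⟨.ofNat 0, .ofNat 0, .ofNat 1920, .ofNat 133⟩ ⟨.ofNat 0, .ofNat 0, .ofNat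
  0, .ofNat 1⟩],
[.q ⟨.negSucc 20, .negSucc 18, .ofNat 40, .ofNat 0⟩ ⟨.negSucc 58, .ofNat 19,
  .ofNat 40, .ofNat 0⟩, .q ⟨.ofNat 19, .ofNat 21, .negSucc 39, .ofNat 0⟩
  ⟨.negSucc 60, .ofNat 21, .ofNat 40, .ofNat 0⟩, .q ⟨.ofNat 59, .negSucc 18,
  .negSucc 39, .ofNat 0⟩ ⟨.ofNat 403, .ofNat 397, .ofNat 0, .negSucc 799⟩,
  .q ⟨.ofNat 61, .negSucc 20, .negSucc 39, .ofNat 0⟩ ⟨.ofNat 403, .ofNat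
  397, .ofNat 0, .negSucc 799⟩, .q ⟨.ofNat 59, .negSucc 18, .negSucc 39,
  .ofNat 0⟩ ⟨.negSucc 1045, .negSucc 1296, .negSucc 1402, .ofNat 3746⟩, .q
  ⟨.ofNat 61, .negSucc 20, .negSucc 39, .ofNat 0⟩ ⟨.negSucc 1045, .negSucc
  1296, .negSucc 1402, .ofNat 3746⟩, .q ⟨.ofNat 59, .negSucc 18, .negSucc
  39, .ofNat 0⟩ ⟨.ofNat 2601, .ofNat 2587, .negSucc 3720, .negSucc 1466⟩, .q
  ⟨.ofNat 61, .negSucc 20, .negSucc 39, .ofNat 0⟩ ⟨.ofNat 2601, .ofNat 2587,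
  .negSucc 3720, .negSucc 1466⟩],
[.q ⟨.negSucc 0, .ofNat 0, .ofNat 0, .ofNat 1⟩ ⟨.ofNat 3582, .negSucc 3966,
  .ofNat 514, .negSucc 128⟩, .q ⟨.negSucc 0, .ofNat 0, .ofNat 0, .ofNat 1⟩
  ⟨.ofNat 559, .negSucc 807, .negSucc 3916, .ofNat 4166⟩, .q ⟨.negSucc 0,
  .ofNat 0, .ofNat 0, .ofNat 1⟩ ⟨.negSucc 1880, .ofNat 2000, .ofNat 0,
  .negSucc 118⟩, .q ⟨.negSucc 0, .ofNat 0, .ofNat 0, .ofNat 1⟩ ⟨.ofNat 2053,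
  .negSucc 2485, .ofNat 3134, .negSucc 2700⟩],
[.l ⟨.ofNat 0, .ofNat 697, .negSucc 3938, .negSucc 265⟩ ⟨.ofNat 0, .ofNat 0,
  .ofNat 0, .ofNat 1⟩, .l ⟨.ofNat 0, .ofNat 1864, .ofNat 725, .ofNat 1263⟩
  ⟨.ofNat 0, .ofNat 0, .ofNat 0, .ofNat 1⟩, .l ⟨.ofNat 0, .negSucc 3380,
  .ofNat 2137, .ofNat 394⟩ ⟨.ofNat 0, .ofNat 0, .ofNat 0, .ofNat 1⟩, .l
  ⟨.ofNat 0, .negSucc 1254, .negSucc 449, .negSucc 20⟩ ⟨.ofNat 0, .ofNat 0,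
  .ofNat 0, .ofNat 1⟩],
[.l ⟨.ofNat 0, .negSucc 1778, .ofNat 3583, .negSucc 4⟩ ⟨.ofNat 0, .ofNat 0,
  .ofNat 0, .ofNat 1⟩, .l ⟨.ofNat 0, .negSucc 894, .negSucc 3898, .ofNat 6⟩
  ⟨.ofNat 0, .ofNat 0, .ofNat 0, .ofNat 1⟩, .l ⟨.ofNat 0, .ofNat 2132,
  .negSucc 3384, .ofNat 292⟩ ⟨.ofNat 0, .ofNat 0, .ofNat 0, .ofNat 1⟩, .l
  ⟨.ofNat 0, .ofNat 1903, .ofNat 615, .ofNat 5806⟩ ⟨.ofNat 0, .ofNat 0,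
  .ofNat 0, .ofNat 1⟩],
[.l ⟨.ofNat 0, .negSucc 1353, .negSucc 1471, .negSucc 484⟩ ⟨.ofNat 0, .ofNat
  0, .ofNat 0, .ofNat 1⟩, .l ⟨.ofNat 0, .ofNat 352, .negSucc 1968, .ofNat
  597⟩ ⟨.ofNat 0, .ofNat 0, .ofNat 0, .ofNat 1⟩, .l ⟨.ofNat 0, .ofNat 3931,
  .ofNat 741, .ofNat 2385⟩ ⟨.ofNat 0, .ofNat 0, .ofNat 0, .ofNat 1⟩, .l
  ⟨.ofNat 0, .ofNat 1116, .ofNat 3841, .ofNat 3304⟩ ⟨.ofNat 0, .ofNat 0,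
  .ofNat 0, .ofNat 1⟩, .l ⟨.ofNat 0, .negSucc 3972, .ofNat 465, .ofNat 613⟩
  ⟨.ofNat 0, .ofNat 0, .ofNat 0, .ofNat 1⟩],
[.q ⟨.negSucc 10, .negSucc 8, .ofNat 20, .ofNat 0⟩ ⟨.negSucc 28, .ofNat 9,
  .ofNat 20, .ofNat 0⟩, .q ⟨.ofNat 9, .ofNat 11, .negSucc 19, .ofNat 0⟩
  ⟨.negSucc 30, .ofNat 11, .ofNat 20, .ofNat 0⟩, .q ⟨.ofNat 29, .negSucc 8,
  .negSucc 19, .ofNat 0⟩ ⟨.ofNat 229, .ofNat 199, .ofNat 2606, .negSucc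
  3033⟩, .q ⟨.ofNat 31, .negSucc 10, .negSucc 19, .ofNat 0⟩ ⟨.ofNat 229,
  .ofNat 199, .ofNat 2606, .negSucc 3033⟩, .q ⟨.ofNat 29, .negSucc 8,
  .negSucc 19, .ofNat 0⟩ ⟨.negSucc 5, .negSucc 207, .negSucc 1302, .ofNat
  1517⟩, .q ⟨.ofNat 31, .negSucc 10, .negSucc 19, .ofNat 0⟩ ⟨.negSucc 5,
  .negSucc 207, .negSucc 1302, .ofNat 1517⟩, .q ⟨.ofNat 29, .negSucc 8,
  .negSucc 19, .ofNat 0⟩ ⟨.ofNat 2591, .ofNat 2595, .negSucc 3722, .negSucc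
  1462⟩, .q ⟨.ofNat 31, .negSucc 10, .negSucc 19, .ofNat 0⟩ ⟨.ofNat 2591,
  .ofNat 2595, .negSucc 3722, .negSucc 1462⟩],
[.q ⟨.negSucc 4, .negSucc 4, .ofNat 10, .ofNat 0⟩ ⟨.negSucc 14, .ofNat 5,
  .ofNat 10, .ofNat 0⟩, .q ⟨.ofNat 3, .ofNat 7, .negSucc 9, .ofNat 0⟩
  ⟨.negSucc 16, .ofNat 7, .ofNat 10, .ofNat 0⟩, .q ⟨.ofNat 15, .negSucc 4,
  .negSucc 9, .ofNat 0⟩ ⟨.ofNat 763, .negSucc 296, .ofNat 1162, .negSucc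
  1627⟩, .q ⟨.ofNat 17, .negSucc 6, .negSucc 9, .ofNat 0⟩ ⟨.ofNat 763,
  .negSucc 296, .ofNat 1162, .negSucc 1627⟩, .q ⟨.ofNat 15, .negSucc 4,
  .negSucc 9, .ofNat 0⟩ ⟨.negSucc 2216, .negSucc 3381, .ofNat 2394, .ofNat
  3205⟩, .q ⟨.ofNat 17, .negSucc 6, .negSucc 9, .ofNat 0⟩ ⟨.negSucc 2216,
  .negSucc 3381, .ofNat 2394, .ofNat 3205⟩, .q ⟨.ofNat 15, .negSucc 4,
  .negSucc 9, .ofNat 0⟩ ⟨.ofNat 2430, .ofNat 2793, .negSucc 3697, .negSucc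
  1524⟩, .q ⟨.ofNat 17, .negSucc 6, .negSucc 9, .ofNat 0⟩ ⟨.ofNat 2430,
  .ofNat 2793, .negSucc 3697, .negSucc 1524⟩],
[.q ⟨.ofNat 17, .negSucc 18, .negSucc 27, .ofNat 30⟩ ⟨.ofNat 3017, .ofNat
  1116, .negSucc 2062, .negSucc 2069⟩, .q ⟨.ofNat 17, .negSucc 18, .negSucc
  27, .ofNat 30⟩ ⟨.negSucc 4720, .ofNat 1725, .ofNat 1346, .ofNat 1650⟩, .q
  ⟨.ofNat 17, .negSucc 18, .negSucc 27, .ofNat 30⟩ ⟨.ofNat 700, .negSucc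
  3712, .ofNat 1483, .ofNat 1530⟩],
[.q ⟨.ofNat 17, .negSucc 18, .negSucc 27, .ofNat 30⟩ ⟨.negSucc 4720, .ofNat
  1783, .ofNat 1288, .ofNat 1650⟩, .q ⟨.ofNat 17, .negSucc 18, .negSucc 27,
  .ofNat 30⟩ ⟨.negSucc 157, .negSucc 3308, .ofNat 1697, .ofNat 1770⟩, .q
  ⟨.ofNat 17, .negSucc 18, .negSucc 27, .ofNat 30⟩ ⟨.ofNat 4719, .negSucc
  1482, .negSucc 1645, .negSucc 1589⟩, .q ⟨.ofNat 17, .negSucc 18, .negSucc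
  27, .ofNat 30⟩ ⟨.ofNat 1009, .ofNat 2780, .negSucc 1928, .negSucc 1859⟩],
[.q ⟨.ofNat 11, .negSucc 12, .negSucc 17, .ofNat 20⟩ ⟨.ofNat 4751, .negSucc
  1650, .negSucc 1459, .negSucc 1639⟩, .q ⟨.ofNat 11, .negSucc 12, .negSucc
  17, .ofNat 20⟩ ⟨.ofNat 1439, .ofNat 2520, .negSucc 2118, .negSucc 1839⟩,
  .q ⟨.ofNat 11, .negSucc 12, .negSucc 17, .ofNat 20⟩ ⟨.negSucc 1922, .ofNat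
  1909, .negSucc 125, .ofNat 140⟩, .q ⟨.ofNat 11, .negSucc 12, .negSucc 17,
  .ofNat 20⟩ ⟨.negSucc 687, .negSucc 365, .ofNat 514, .ofNat 540⟩, .q
  ⟨.ofNat 11, .negSucc 12, .negSucc 17, .ofNat 20⟩ ⟨.negSucc 873, .negSucc
  2935, .ofNat 1910, .ofNat 1900⟩],
[.l ⟨.ofNat 0, .ofNat 40, .ofNat 0, .negSucc 32⟩ ⟨.ofNat 0, .ofNat 40,
  .ofNat 0, .ofNat 33⟩, .l ⟨.ofNat 0, .negSucc 39, .ofNat 0, .ofNat 36⟩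
  ⟨.ofNat 0, .ofNat 40, .ofNat 0, .ofNat 36⟩, .l ⟨.ofNat 0, .ofNat 40,
  .ofNat 0, .negSucc 32⟩ ⟨.ofNat 0, .ofNat 0, .ofNat 4000, .ofNat 2573⟩, .l
  ⟨.ofNat 0, .ofNat 40, .ofNat 0, .negSucc 35⟩ ⟨.ofNat 0, .ofNat 0, .ofNat
  4000, .ofNat 2573⟩, .l ⟨.ofNat 0, .ofNat 40, .ofNat 0, .negSucc 32⟩
  ⟨.ofNat 0, .ofNat 0, .negSucc 999, .negSucc 830⟩, .l ⟨.ofNat 0, .ofNat 40,
  .ofNat 0, .negSucc 35⟩ ⟨.ofNat 0, .ofNat 0, .negSucc 999, .negSucc 830⟩],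
[.q ⟨.negSucc 25, .negSucc 20, .ofNat 15, .ofNat 32⟩ ⟨.ofNat 6420, .negSucc
  1311, .negSucc 12275, .ofNat 7168⟩, .q ⟨.negSucc 25, .negSucc 20, .ofNat
  15, .ofNat 32⟩ ⟨.negSucc 4907, .ofNat 16172, .negSucc 8447, .negSucc
  2815⟩, .q ⟨.negSucc 25, .negSucc 20, .ofNat 15, .ofNat 32⟩ ⟨.negSucc 8571,
  .ofNat 5176, .ofNat 11972, .negSucc 8575⟩, .q ⟨.negSucc 25, .negSucc 20,
  .ofNat 15, .ofNat 32⟩ ⟨.ofNat 312, .negSucc 5403, .ofNat 5476, .negSucc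
  383⟩],
[.q ⟨.negSucc 0, .ofNat 0, .ofNat 0, .ofNat 1⟩ ⟨.negSucc 74, .negSucc 305,
  .ofNat 3988, .negSucc 3606⟩, .q ⟨.negSucc 0, .ofNat 0, .ofNat 0, .ofNat 1⟩
  ⟨.ofNat 3160, .negSucc 3547, .ofNat 1847, .negSucc 1458⟩, .q ⟨.negSucc 0,
  .ofNat 0, .ofNat 0, .ofNat 1⟩ ⟨.negSucc 1414, .ofNat 1706, .negSucc 3617,
  .ofNat 3327⟩],
[.q ⟨.negSucc 133, .negSucc 105, .ofNat 240, .ofNat 0⟩ ⟨.negSucc 345, .ofNat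
  106, .ofNat 240, .ofNat 0⟩, .q ⟨.ofNat 129, .ofNat 111, .negSucc 239,
  .ofNat 0⟩ ⟨.negSucc 350, .ofNat 111, .ofNat 240, .ofNat 0⟩, .q ⟨.ofNat
  346, .negSucc 105, .negSucc 239, .ofNat 0⟩ ⟨.ofNat 229, .ofNat 1771,
  .ofNat 0, .negSucc 1999⟩, .q ⟨.ofNat 351, .negSucc 110, .negSucc 239,
  .ofNat 0⟩ ⟨.ofNat 229, .ofNat 1771, .ofNat 0, .negSucc 1999⟩, .q ⟨.ofNat
  346, .negSucc 105, .negSucc 239, .ofNat 0⟩ ⟨.negSucc 306, .negSucc 3692,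
  .ofNat 0, .ofNat 4000⟩, .q ⟨.ofNat 351, .negSucc 110, .negSucc 239, .ofNat
  0⟩ ⟨.negSucc 306, .negSucc 3692, .ofNat 0, .ofNat 4000⟩],
[.q ⟨.negSucc 37, .negSucc 41, .ofNat 80, .ofNat 0⟩ ⟨.negSucc 121, .ofNat
  42, .ofNat 80, .ofNat 0⟩, .q ⟨.ofNat 35, .ofNat 45, .negSucc 79, .ofNat 0⟩
  ⟨.negSucc 124, .ofNat 45, .ofNat 80, .ofNat 0⟩, .q ⟨.ofNat 122, .negSucc
  41, .negSucc 79, .ofNat 0⟩ ⟨.ofNat 11143, .negSucc 6458, .negSucc 755,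
  .negSucc 3927⟩, .q ⟨.ofNat 125, .negSucc 44, .negSucc 79, .ofNat 0⟩
  ⟨.ofNat 11143, .negSucc 6458, .negSucc 755, .negSucc 3927⟩, .q ⟨.ofNat
  122, .negSucc 41, .negSucc 79, .ofNat 0⟩ ⟨.negSucc 420, .negSucc 55,
  .negSucc 2579, .ofNat 3057⟩, .q ⟨.ofNat 125, .negSucc 44, .negSucc 79,
  .ofNat 0⟩ ⟨.negSucc 420, .negSucc 55, .negSucc 2579, .ofNat 3057⟩, .q
  ⟨.ofNat 122, .negSucc 41, .negSucc 79, .ofNat 0⟩ ⟨.ofNat 2596, .ofNat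
  1867, .negSucc 493, .negSucc 3968⟩, .q ⟨.ofNat 125, .negSucc 44, .negSucc
  79, .ofNat 0⟩ ⟨.ofNat 2596, .ofNat 1867, .negSucc 493, .negSucc 3968⟩, .q
  ⟨.ofNat 122, .negSucc 41, .negSucc 79, .ofNat 0⟩ ⟨.ofNat 212, .ofNat 409,
  .negSucc 1689, .ofNat 1069⟩, .q ⟨.ofNat 125, .negSucc 44, .negSucc 79,
  .ofNat 0⟩ ⟨.ofNat 212, .ofNat 409, .negSucc 1689, .ofNat 1069⟩],
[.l ⟨.ofNat 0, .ofNat 10, .ofNat 0, .negSucc 7⟩ ⟨.ofNat 0, .ofNat 10, .ofNat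
  0, .ofNat 8⟩, .l ⟨.ofNat 0, .negSucc 9, .ofNat 0, .ofNat 9⟩ ⟨.ofNat 0,
  .ofNat 10, .ofNat 0, .ofNat 9⟩, .l ⟨.ofNat 0, .ofNat 10, .ofNat 0,
  .negSucc 7⟩ ⟨.ofNat 0, .ofNat 2667, .ofNat 2981, .ofNat 5065⟩, .l ⟨.ofNat
  0, .ofNat 10, .ofNat 0, .negSucc 8⟩ ⟨.ofNat 0, .ofNat 2667, .ofNat 2981,
  .ofNat 5065⟩, .l ⟨.ofNat 0, .ofNat 10, .ofNat 0, .negSucc 7⟩ ⟨.ofNat 0,
  .ofNat 525, .negSucc 1929, .negSucc 1600⟩, .l ⟨.ofNat 0, .ofNat 10, .ofNat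
  0, .negSucc 8⟩ ⟨.ofNat 0, .ofNat 525, .negSucc 1929, .negSucc 1600⟩],
[.q ⟨.negSucc 10, .negSucc 68, .ofNat 80, .ofNat 0⟩ ⟨.negSucc 148, .ofNat
  69, .ofNat 80, .ofNat 0⟩, .q ⟨.ofNat 7, .ofNat 73, .negSucc 79, .ofNat 0⟩
  ⟨.negSucc 152, .ofNat 73, .ofNat 80, .ofNat 0⟩, .q ⟨.ofNat 149, .negSucc
  68, .negSucc 79, .ofNat 0⟩ ⟨.ofNat 2023, .negSucc 22, .ofNat 0, .negSucc
  1999⟩, .q ⟨.ofNat 153, .negSucc 72, .negSucc 79, .ofNat 0⟩ ⟨.ofNat 2023,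
  .negSucc 22, .ofNat 0, .negSucc 1999⟩, .q ⟨.ofNat 149, .negSucc 68,
  .negSucc 79, .ofNat 0⟩ ⟨.negSucc 3211, .ofNat 1479, .negSucc 1825, .ofNat
  3559⟩, .q ⟨.ofNat 153, .negSucc 72, .negSucc 79, .ofNat 0⟩ ⟨.negSucc 3211,
  .ofNat 1479, .negSucc 1825, .ofNat 3559⟩, .q ⟨.ofNat 149, .negSucc 68,
  .negSucc 79, .ofNat 0⟩ ⟨.ofNat 1976, .ofNat 591, .negSucc 689, .negSucc
  1876⟩, .q ⟨.ofNat 153, .negSucc 72, .negSucc 79, .ofNat 0⟩ ⟨.ofNat 1976,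
  .ofNat 591, .negSucc 689, .negSucc 1876⟩],
[.q ⟨.negSucc 25, .negSucc 20, .ofNat 15, .ofNat 32⟩ ⟨.ofNat 1100, .ofNat
  84, .negSucc 2463, .ofNat 1280⟩, .q ⟨.negSucc 25, .negSucc 20, .ofNat 15,
  .ofNat 32⟩ ⟨.negSucc 2439, .ofNat 3532, .ofNat 1084, .negSucc 2175⟩, .q
  ⟨.negSucc 25, .negSucc 20, .ofNat 15, .ofNat 32⟩ ⟨.ofNat 312, .negSucc
  5403, .ofNat 5476, .negSucc 383⟩],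
[.q ⟨.ofNat 17, .negSucc 18, .negSucc 27, .ofNat 30⟩ ⟨.ofNat 1526, .ofNat
  2423, .negSucc 1998, .negSucc 1949⟩, .q ⟨.ofNat 17, .negSucc 18, .negSucc
  27, .ofNat 30⟩ ⟨.negSucc 2395, .ofNat 1038, .ofNat 608, .ofNat 750⟩, .q
  ⟨.ofNat 17, .negSucc 18, .negSucc 27, .ofNat 30⟩ ⟨.ofNat 867, .negSucc
  3796, .ofNat 1400, .ofNat 1530⟩, .q ⟨.ofNat 17, .negSucc 18, .negSucc 27,
  .ofNat 30⟩ ⟨.ofNat 1637, .negSucc 769, .negSucc 446, .negSucc 419⟩],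
[.q ⟨.negSucc 0, .ofNat 1, .ofNat 0, .ofNat 0⟩ ⟨.negSucc 1708, .negSucc 210,
  .ofNat 1920, .ofNat 0⟩, .q ⟨.negSucc 0, .ofNat 1, .ofNat 0, .ofNat 0⟩
  ⟨.ofNat 961, .ofNat 959, .negSucc 1919, .ofNat 0⟩, .l ⟨.ofNat 0, .ofNat 0,
  .negSucc 1919, .ofNat 49⟩ ⟨.ofNat 0, .ofNat 0, .ofNat 0, .ofNat 1⟩, .l
  ⟨.ofNat 0, .ofNat 0, .ofNat 192, .ofNat 13⟩ ⟨.ofNat 0, .ofNat 0, .ofNat 0,
  .ofNat 1⟩],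
[.q ⟨.negSucc 0, .ofNat 1, .ofNat 0, .ofNat 0⟩ ⟨.negSucc 136, .negSucc 22,
  .ofNat 160, .ofNat 0⟩, .q ⟨.negSucc 0, .ofNat 1, .ofNat 0, .ofNat 0⟩
  ⟨.ofNat 961, .ofNat 959, .negSucc 1919, .ofNat 0⟩, .l ⟨.ofNat 0, .ofNat 0,
  .negSucc 959, .ofNat 31⟩ ⟨.ofNat 0, .ofNat 0, .ofNat 0, .ofNat 1⟩, .l
  ⟨.ofNat 0, .ofNat 0, .ofNat 640, .ofNat 51⟩ ⟨.ofNat 0, .ofNat 0, .ofNat 0,
  .ofNat 1⟩],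
[.q ⟨.negSucc 9, .negSucc 469, .ofNat 480, .ofNat 0⟩ ⟨.negSucc 949, .ofNat
  470, .ofNat 480, .ofNat 0⟩, .q ⟨.ofNat 1, .ofNat 479, .negSucc 479, .ofNat
  0⟩ ⟨.negSucc 958, .ofNat 479, .ofNat 480, .ofNat 0⟩, .q ⟨.ofNat 950,
  .negSucc 469, .negSucc 479, .ofNat 0⟩ ⟨.ofNat 12045, .negSucc 9189, .ofNat
  1014, .negSucc 3868⟩, .q ⟨.ofNat 959, .negSucc 478, .negSucc 479, .ofNat
  0⟩ ⟨.ofNat 12045, .negSucc 9189, .ofNat 1014, .negSucc 3868⟩, .q ⟨.ofNat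
  950, .negSucc 469, .negSucc 479, .ofNat 0⟩ ⟨.negSucc 3585, .ofNat 731,
  .negSucc 1013, .ofNat 3869⟩, .q ⟨.ofNat 959, .negSucc 478, .negSucc 479,
  .ofNat 0⟩ ⟨.negSucc 3585, .ofNat 731, .negSucc 1013, .ofNat 3869⟩, .q
  ⟨.ofNat 950, .negSucc 469, .negSucc 479, .ofNat 0⟩ ⟨.ofNat 3916, .ofNat
  1055, .negSucc 1135, .negSucc 3834⟩, .q ⟨.ofNat 959, .negSucc 478,
  .negSucc 479, .ofNat 0⟩ ⟨.ofNat 3916, .ofNat 1055, .negSucc 1135, .negSucc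
  3834⟩],
[.q ⟨.ofNat 11, .negSucc 12, .negSucc 17, .ofNat 20⟩ ⟨.ofNat 2483, .ofNat
  1697, .negSucc 2179, .negSucc 1999⟩, .q ⟨.ofNat 11, .negSucc 12, .negSucc
  17, .ofNat 20⟩ ⟨.negSucc 3862, .ofNat 3805, .negSucc 241, .ofNat 300⟩, .q
  ⟨.ofNat 11, .negSucc 12, .negSucc 17, .ofNat 20⟩ ⟨.negSucc 702, .negSucc
  350, .ofNat 514, .ofNat 540⟩, .q ⟨.ofNat 11, .negSucc 12, .negSucc 17,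
  .ofNat 20⟩ ⟨.ofNat 4612, .negSucc 3221, .negSucc 529, .negSucc 859⟩],
[.q ⟨.negSucc 25, .negSucc 20, .ofNat 15, .ofNat 32⟩ ⟨.negSucc 12003, .ofNat
  13420, .ofNat 9592, .negSucc 11007⟩, .q ⟨.negSucc 25, .negSucc 20, .ofNat
  15, .ofNat 32⟩ ⟨.negSucc 2035, .negSucc 1687, .ofNat 6156, .negSucc 2431⟩,
  .q ⟨.negSucc 25, .negSucc 20, .ofNat 15, .ofNat 32⟩ ⟨.ofNat 11888,
  .negSucc 16155, .negSucc 6739, .ofNat 11008⟩, .q ⟨.negSucc 25, .negSucc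
  20, .ofNat 15, .ofNat 32⟩ ⟨.ofNat 3716, .ofNat 3620, .negSucc 12199,
  .ofNat 4864⟩],
[.q ⟨.negSucc 19, .negSucc 19, .ofNat 40, .ofNat 0⟩ ⟨.negSucc 59, .ofNat 20,
  .ofNat 40, .ofNat 0⟩, .q ⟨.ofNat 17, .ofNat 23, .negSucc 39, .ofNat 0⟩
  ⟨.negSucc 62, .ofNat 23, .ofNat 40, .ofNat 0⟩, .q ⟨.ofNat 60, .negSucc 19,
  .negSucc 39, .ofNat 0⟩ ⟨.ofNat 2399, .ofNat 1601, .ofNat 0, .negSucc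
  3999⟩, .q ⟨.ofNat 63, .negSucc 22, .negSucc 39, .ofNat 0⟩ ⟨.ofNat 2399,
  .ofNat 1601, .ofNat 0, .negSucc 3999⟩, .q ⟨.ofNat 60, .negSucc 19,
  .negSucc 39, .ofNat 0⟩ ⟨.negSucc 1069, .negSucc 704, .negSucc 1797, .ofNat
  3573⟩, .q ⟨.ofNat 63, .negSucc 22, .negSucc 39, .ofNat 0⟩ ⟨.negSucc 1069,
  .negSucc 704, .negSucc 1797, .ofNat 3573⟩],
[.q ⟨.ofNat 11, .negSucc 12, .negSucc 17, .ofNat 20⟩ ⟨.negSucc 912, .negSucc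
  491, .ofNat 685, .ofNat 720⟩, .q ⟨.ofNat 11, .negSucc 12, .negSucc 17,
  .ofNat 20⟩ ⟨.ofNat 4478, .negSucc 914, .negSucc 1662, .negSucc 1899⟩, .q
  ⟨.ofNat 11, .negSucc 12, .negSucc 17, .ofNat 20⟩ ⟨.negSucc 3958, .ofNat
  3749, .negSucc 169, .ofNat 380⟩],
[.q ⟨.ofNat 17, .negSucc 18, .negSucc 27, .ofNat 30⟩ ⟨.ofNat 1983, .negSucc
  1980, .ofNat 28, .negSucc 29⟩, .q ⟨.ofNat 17, .negSucc 18, .negSucc 27,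
  .ofNat 30⟩ ⟨.ofNat 4113, .negSucc 280, .negSucc 1881, .negSucc 1949⟩, .q
  ⟨.ofNat 17, .negSucc 18, .negSucc 27, .ofNat 30⟩ ⟨.negSucc 4226, .ofNat
  3638, .ofNat 79, .ofNat 510⟩, .q ⟨.ofNat 17, .negSucc 18, .negSucc 27,
  .ofNat 30⟩ ⟨.negSucc 4592, .ofNat 1316, .ofNat 1477, .ofNat 1800⟩],
[.q ⟨.negSucc 25, .negSucc 20, .ofNat 15, .ofNat 32⟩ ⟨.negSucc 599, .ofNat
  10388, .negSucc 10939, .ofNat 1152⟩, .q ⟨.negSucc 25, .negSucc 20, .ofNat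
  15, .ofNat 32⟩ ⟨.negSucc 6283, .ofNat 696, .ofNat 12372, .negSucc 6783⟩,
  .q ⟨.negSucc 25, .negSucc 20, .ofNat 15, .ofNat 32⟩ ⟨.ofNat 12604,
  .negSucc 21419, .negSucc 2319, .ofNat 11136⟩, .q ⟨.negSucc 25, .negSucc
  20, .ofNat 15, .ofNat 32⟩ ⟨.ofNat 7684, .negSucc 3795, .negSucc 12079,
  .ofNat 8192⟩],
[.q ⟨.negSucc 0, .ofNat 1, .ofNat 0, .ofNat 0⟩ ⟨.negSucc 1566, .negSucc 352,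
  .ofNat 1920, .ofNat 0⟩, .q ⟨.negSucc 0, .ofNat 1, .ofNat 0, .ofNat 0⟩
  ⟨.ofNat 961, .ofNat 959, .negSucc 1919, .ofNat 0⟩, .l ⟨.ofNat 0, .ofNat 0,
  .negSucc 639, .ofNat 23⟩ ⟨.ofNat 0, .ofNat 0, .ofNat 0, .ofNat 1⟩, .l
  ⟨.ofNat 0, .ofNat 0, .ofNat 1920, .ofNat 479⟩ ⟨.ofNat 0, .ofNat 0, .ofNat
  0, .ofNat 1⟩],
[.q ⟨.negSucc 12, .negSucc 66, .ofNat 80, .ofNat 0⟩ ⟨.negSucc 146, .ofNat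
  67, .ofNat 80, .ofNat 0⟩, .q ⟨.ofNat 10, .ofNat 70, .negSucc 79, .ofNat 0⟩
  ⟨.negSucc 149, .ofNat 70, .ofNat 80, .ofNat 0⟩, .q ⟨.ofNat 147, .negSucc
  66, .negSucc 79, .ofNat 0⟩ ⟨.ofNat 4064, .ofNat 463, .negSucc 567,
  .negSucc 3958⟩, .q ⟨.ofNat 150, .negSucc 69, .negSucc 79, .ofNat 0⟩
  ⟨.ofNat 4064, .ofNat 463, .negSucc 567, .negSucc 3958⟩, .q ⟨.ofNat 147,
  .negSucc 66, .negSucc 79, .ofNat 0⟩ ⟨.negSucc 3277, .ofNat 1444, .negSucc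
  1758, .ofNat 3593⟩, .q ⟨.ofNat 150, .negSucc 69, .negSucc 79, .ofNat 0⟩
  ⟨.negSucc 3277, .ofNat 1444, .negSucc 1758, .ofNat 3593⟩],
[.q ⟨.ofNat 11, .negSucc 12, .negSucc 17, .ofNat 20⟩ ⟨.ofNat 1300, .ofNat
  39, .negSucc 658, .negSucc 679⟩, .q ⟨.ofNat 11, .negSucc 12, .negSucc 17,
  .ofNat 20⟩ ⟨.negSucc 3644, .ofNat 3900, .negSucc 394, .ofNat 140⟩, .q
  ⟨.ofNat 11, .negSucc 12, .negSucc 17, .ofNat 20⟩ ⟨.negSucc 2580, .negSucc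
  1625, .ofNat 2067, .ofNat 2140⟩, .q ⟨.ofNat 11, .negSucc 12, .negSucc 17,
  .ofNat 20⟩ ⟨.ofNat 1352, .negSucc 3908, .ofNat 1417, .ofNat 1140⟩],
[.q ⟨.negSucc 19, .negSucc 19, .ofNat 40, .ofNat 0⟩ ⟨.negSucc 59, .ofNat 20,
  .ofNat 40, .ofNat 0⟩, .q ⟨.ofNat 17, .ofNat 23, .negSucc 39, .ofNat 0⟩
  ⟨.negSucc 62, .ofNat 23, .ofNat 40, .ofNat 0⟩, .q ⟨.ofNat 60, .negSucc 19,
  .negSucc 39, .ofNat 0⟩ ⟨.ofNat 51, .ofNat 49, .ofNat 0, .negSucc 99⟩, .q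
  ⟨.ofNat 63, .negSucc 22, .negSucc 39, .ofNat 0⟩ ⟨.ofNat 51, .ofNat 49,
  .ofNat 0, .negSucc 99⟩, .q ⟨.ofNat 60, .negSucc 19, .negSucc 39, .ofNat 0⟩
  ⟨.negSucc 126, .negSucc 272, .ofNat 0, .ofNat 400⟩, .q ⟨.ofNat 63,
  .negSucc 22, .negSucc 39, .ofNat 0⟩ ⟨.negSucc 126, .negSucc 272, .ofNat 0,
  .ofNat 400⟩, .q ⟨.ofNat 60, .negSucc 19, .negSucc 39, .ofNat 0⟩ ⟨.ofNat
  2583, .ofNat 2564, .negSucc 1400, .negSucc 3745⟩, .q ⟨.ofNat 63, .negSucc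
  22, .negSucc 39, .ofNat 0⟩ ⟨.ofNat 2583, .ofNat 2564, .negSucc 1400,
  .negSucc 3745⟩],
[.l ⟨.ofNat 0, .ofNat 20, .ofNat 0, .negSucc 12⟩ ⟨.ofNat 0, .ofNat 20,
  .ofNat 0, .ofNat 13⟩, .l ⟨.ofNat 0, .negSucc 19, .ofNat 0, .ofNat 16⟩
  ⟨.ofNat 0, .ofNat 20, .ofNat 0, .ofNat 16⟩, .l ⟨.ofNat 0, .ofNat 20,
  .ofNat 0, .negSucc 12⟩ ⟨.ofNat 0, .ofNat 0, .ofNat 4000, .negSucc 5230⟩,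
  .l ⟨.ofNat 0, .ofNat 20, .ofNat 0, .negSucc 15⟩ ⟨.ofNat 0, .ofNat 0,
  .ofNat 4000, .negSucc 5230⟩, .l ⟨.ofNat 0, .ofNat 20, .ofNat 0, .negSucc
  12⟩ ⟨.ofNat 0, .ofNat 0, .negSucc 499, .negSucc 402⟩, .l ⟨.ofNat 0, .ofNat
  20, .ofNat 0, .negSucc 15⟩ ⟨.ofNat 0, .ofNat 0, .negSucc 499, .negSucc
  402⟩, .l ⟨.ofNat 0, .ofNat 20, .ofNat 0, .negSucc 12⟩ ⟨.ofNat 0, .ofNat
  2883, .ofNat 2773, .ofNat 4165⟩, .l ⟨.ofNat 0, .ofNat 20, .ofNat 0,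
  .negSucc 15⟩ ⟨.ofNat 0, .ofNat 2883, .ofNat 2773, .ofNat 4165⟩],
[.l ⟨.ofNat 0, .ofNat 40, .ofNat 0, .negSucc 32⟩ ⟨.ofNat 0, .ofNat 40,
  .ofNat 0, .ofNat 33⟩, .l ⟨.ofNat 0, .negSucc 39, .ofNat 0, .ofNat 37⟩
  ⟨.ofNat 0, .ofNat 40, .ofNat 0, .ofNat 37⟩, .l ⟨.ofNat 0, .ofNat 40,
  .ofNat 0, .negSucc 32⟩ ⟨.ofNat 0, .negSucc 120, .ofNat 3998, .ofNat 2035⟩,
  .l ⟨.ofNat 0, .ofNat 40, .ofNat 0, .negSucc 36⟩ ⟨.ofNat 0, .negSucc 120,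
  .ofNat 3998, .ofNat 2035⟩, .l ⟨.ofNat 0, .ofNat 40, .ofNat 0, .negSucc 32⟩
  ⟨.ofNat 0, .ofNat 121, .negSucc 3997, .negSucc 2466⟩, .l ⟨.ofNat 0, .ofNat
  40, .ofNat 0, .negSucc 36⟩ ⟨.ofNat 0, .ofNat 121, .negSucc 3997, .negSucc
  2466⟩],
[.q ⟨.negSucc 4, .negSucc 34, .ofNat 40, .ofNat 0⟩ ⟨.negSucc 74, .ofNat 35,
  .ofNat 40, .ofNat 0⟩, .q ⟨.ofNat 2, .ofNat 38, .negSucc 39, .ofNat 0⟩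
  ⟨.negSucc 77, .ofNat 38, .ofNat 40, .ofNat 0⟩, .q ⟨.ofNat 75, .negSucc 34,
  .negSucc 39, .ofNat 0⟩ ⟨.ofNat 3386, .negSucc 1816, .ofNat 1933, .negSucc
  3501⟩, .q ⟨.ofNat 78, .negSucc 37, .negSucc 39, .ofNat 0⟩ ⟨.ofNat 3386,
  .negSucc 1816, .ofNat 1933, .negSucc 3501⟩, .q ⟨.ofNat 75, .negSucc 34,
  .negSucc 39, .ofNat 0⟩ ⟨.negSucc 3169, .ofNat 1601, .negSucc 1932, .ofNat
  3502⟩, .q ⟨.ofNat 78, .negSucc 37, .negSucc 39, .ofNat 0⟩ ⟨.negSucc 3169,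
  .ofNat 1601, .negSucc 1932, .ofNat 3502⟩, .q ⟨.ofNat 75, .negSucc 34,
  .negSucc 39, .ofNat 0⟩ ⟨.ofNat 4067, .ofNat 406, .negSucc 504, .negSucc
  3967⟩, .q ⟨.ofNat 78, .negSucc 37, .negSucc 39, .ofNat 0⟩ ⟨.ofNat 4067,
  .ofNat 406, .negSucc 504, .negSucc 3967⟩, .q ⟨.ofNat 75, .negSucc 34,
  .negSucc 39, .ofNat 0⟩ ⟨.negSucc 1308, .negSucc 1513, .ofNat 1501, .ofNat
  1322⟩, .q ⟨.ofNat 78, .negSucc 37, .negSucc 39, .ofNat 0⟩ ⟨.negSucc 1308,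
  .negSucc 1513, .ofNat 1501, .ofNat 1322⟩],
[.q ⟨.negSucc 18, .negSucc 15, .ofNat 11, .ofNat 24⟩ ⟨.ofNat 2840, .ofNat
  5088, .negSucc 12055, .ofNat 4128⟩, .q ⟨.negSucc 18, .negSucc 15, .ofNat
  11, .ofNat 24⟩ ⟨.negSucc 4427, .ofNat 3008, .ofNat 5932, .negSucc 4511⟩,
  .q ⟨.negSucc 18, .negSucc 15, .ofNat 11, .ofNat 24⟩ ⟨.ofNat 5940, .negSucc
  17691, .ofNat 7624, .ofNat 4128⟩, .q ⟨.negSucc 18, .negSucc 15, .ofNat 11,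
  .ofNat 24⟩ ⟨.ofNat 8688, .negSucc 5987, .negSucc 11819, .ofNat 9120⟩],
[.q ⟨.negSucc 9, .negSucc 9, .ofNat 20, .ofNat 0⟩ ⟨.negSucc 29, .ofNat 10,
  .ofNat 20, .ofNat 0⟩, .q ⟨.ofNat 7, .ofNat 13, .negSucc 19, .ofNat 0⟩
  ⟨.negSucc 32, .ofNat 13, .ofNat 20, .ofNat 0⟩, .q ⟨.ofNat 30, .negSucc 9,
  .negSucc 19, .ofNat 0⟩ ⟨.ofNat 2883, .ofNat 1117, .ofNat 0, .negSucc
  3999⟩, .q ⟨.ofNat 33, .negSucc 12, .negSucc 19, .ofNat 0⟩ ⟨.ofNat 2883,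
  .ofNat 1117, .ofNat 0, .negSucc 3999⟩, .q ⟨.ofNat 30, .negSucc 9, .negSucc
  19, .ofNat 0⟩ ⟨.ofNat 9723, .negSucc 14222, .ofNat 536, .ofNat 3964⟩, .q
  ⟨.ofNat 33, .negSucc 12, .negSucc 19, .ofNat 0⟩ ⟨.ofNat 9723, .negSucc
  14222, .ofNat 536, .ofNat 3964⟩, .q ⟨.ofNat 30, .negSucc 9, .negSucc 19,
  .ofNat 0⟩ ⟨.ofNat 737, .ofNat 1184, .negSucc 3620, .ofNat 1700⟩, .q
  ⟨.ofNat 33, .negSucc 12, .negSucc 19, .ofNat 0⟩ ⟨.ofNat 737, .ofNat 1184,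
  .negSucc 3620, .ofNat 1700⟩],
[.q ⟨.negSucc 9, .negSucc 9, .ofNat 20, .ofNat 0⟩ ⟨.negSucc 29, .ofNat 10,
  .ofNat 20, .ofNat 0⟩, .q ⟨.ofNat 7, .ofNat 13, .negSucc 19, .ofNat 0⟩
  ⟨.negSucc 32, .ofNat 13, .ofNat 20, .ofNat 0⟩, .q ⟨.ofNat 30, .negSucc 9,
  .negSucc 19, .ofNat 0⟩ ⟨.ofNat 3197, .ofNat 2022, .negSucc 1518, .negSucc
  3699⟩, .q ⟨.ofNat 33, .negSucc 12, .negSucc 19, .ofNat 0⟩ ⟨.ofNat 3197,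
  .ofNat 2022, .negSucc 1518, .negSucc 3699⟩, .q ⟨.ofNat 30, .negSucc 9,
  .negSucc 19, .ofNat 0⟩ ⟨.negSucc 1934, .negSucc 3283, .ofNat 1519, .ofNat
  3700⟩, .q ⟨.ofNat 33, .negSucc 12, .negSucc 19, .ofNat 0⟩ ⟨.negSucc 1934,
  .negSucc 3283, .ofNat 1519, .ofNat 3700⟩, .q ⟨.ofNat 30, .negSucc 9,
  .negSucc 19, .ofNat 0⟩ ⟨.ofNat 1238, .ofNat 1405, .negSucc 1824, .negSucc
  817⟩, .q ⟨.ofNat 33, .negSucc 12, .negSucc 19, .ofNat 0⟩ ⟨.ofNat 1238,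
  .ofNat 1405, .negSucc 1824, .negSucc 817⟩],
[.q ⟨.negSucc 10, .negSucc 68, .ofNat 80, .ofNat 0⟩ ⟨.negSucc 148, .ofNat
  69, .ofNat 80, .ofNat 0⟩, .q ⟨.ofNat 8, .ofNat 72, .negSucc 79, .ofNat 0⟩
  ⟨.negSucc 151, .ofNat 72, .ofNat 80, .ofNat 0⟩, .q ⟨.ofNat 149, .negSucc
  68, .negSucc 79, .ofNat 0⟩ ⟨.ofNat 3229, .negSucc 2228, .ofNat 0, .negSucc
  999⟩, .q ⟨.ofNat 152, .negSucc 71, .negSucc 79, .ofNat 0⟩ ⟨.ofNat 3229,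
  .negSucc 2228, .ofNat 0, .negSucc 999⟩, .q ⟨.ofNat 149, .negSucc 68,
  .negSucc 79, .ofNat 0⟩ ⟨.ofNat 3323, .negSucc 5322, .ofNat 0, .ofNat
  2000⟩, .q ⟨.ofNat 152, .negSucc 71, .negSucc 79, .ofNat 0⟩ ⟨.ofNat 3323,
  .negSucc 5322, .ofNat 0, .ofNat 2000⟩, .q ⟨.ofNat 149, .negSucc 68,
  .negSucc 79, .ofNat 0⟩ ⟨.ofNat 4067, .ofNat 457, .negSucc 563, .negSucc
  3959⟩, .q ⟨.ofNat 152, .negSucc 71, .negSucc 79, .ofNat 0⟩ ⟨.ofNat 4067,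
  .ofNat 457, .negSucc 563, .negSucc 3959⟩, .q ⟨.ofNat 149, .negSucc 68,
  .negSucc 79, .ofNat 0⟩ ⟨.negSucc 2001, .ofNat 2716, .negSucc 3162, .ofNat
  2449⟩, .q ⟨.ofNat 152, .negSucc 71, .negSucc 79, .ofNat 0⟩ ⟨.negSucc 2001,
  .ofNat 2716, .negSucc 3162, .ofNat 2449⟩],
[.q ⟨.negSucc 42, .negSucc 36, .ofNat 80, .ofNat 0⟩ ⟨.negSucc 116, .ofNat
  37, .ofNat 80, .ofNat 0⟩, .q ⟨.ofNat 40, .ofNat 40, .negSucc 79, .ofNat 0⟩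
  ⟨.negSucc 119, .ofNat 40, .ofNat 80, .ofNat 0⟩, .q ⟨.ofNat 117, .negSucc
  36, .negSucc 79, .ofNat 0⟩ ⟨.ofNat 4108, .negSucc 3125, .ofNat 835,
  .negSucc 1816⟩, .q ⟨.ofNat 120, .negSucc 39, .negSucc 79, .ofNat 0⟩
  ⟨.ofNat 4108, .negSucc 3125, .ofNat 835, .negSucc 1816⟩, .q ⟨.ofNat 117,
  .negSucc 36, .negSucc 79, .ofNat 0⟩ ⟨.negSucc 28, .negSucc 762, .negSucc
  7, .ofNat 800⟩, .q ⟨.ofNat 120, .negSucc 39, .negSucc 79, .ofNat 0⟩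
  ⟨.negSucc 28, .negSucc 762, .negSucc 7, .ofNat 800⟩, .q ⟨.ofNat 117,
  .negSucc 36, .negSucc 79, .ofNat 0⟩ ⟨.ofNat 1275, .ofNat 3952, .negSucc
  1531, .negSucc 3694⟩, .q ⟨.ofNat 120, .negSucc 39, .negSucc 79, .ofNat 0⟩
  ⟨.ofNat 1275, .ofNat 3952, .negSucc 1531, .negSucc 3694⟩],
[.q ⟨.negSucc 0, .ofNat 0, .ofNat 0, .ofNat 1⟩ ⟨.negSucc 869, .ofNat 547,
  .ofNat 3962, .negSucc 3638⟩, .q ⟨.negSucc 0, .ofNat 0, .ofNat 0, .ofNat 1⟩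
  ⟨.ofNat 912, .negSucc 1052, .ofNat 818, .negSucc 676⟩, .q ⟨.negSucc 0,
  .ofNat 0, .ofNat 0, .ofNat 1⟩ ⟨.negSucc 1848, .ofNat 2230, .negSucc 3320,
  .ofNat 2940⟩],
[.q ⟨.negSucc 0, .ofNat 0, .ofNat 0, .ofNat 1⟩ ⟨.negSucc 568, .ofNat 189,
  .ofNat 3996, .negSucc 3615⟩, .q ⟨.negSucc 0, .ofNat 0, .ofNat 0, .ofNat 1⟩
  ⟨.ofNat 2147, .negSucc 2096, .negSucc 3405, .ofNat 3356⟩, .q ⟨.negSucc 0,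
  .ofNat 0, .ofNat 0, .ofNat 1⟩ ⟨.negSucc 2293, .ofNat 2793, .negSucc 2862,
  .ofNat 2364⟩],
[.l ⟨.ofNat 0, .ofNat 40, .ofNat 0, .negSucc 35⟩ ⟨.ofNat 0, .ofNat 40,
  .ofNat 0, .ofNat 36⟩, .l ⟨.ofNat 0, .negSucc 39, .ofNat 0, .ofNat 39⟩
  ⟨.ofNat 0, .ofNat 40, .ofNat 0, .ofNat 39⟩, .l ⟨.ofNat 0, .ofNat 40,
  .ofNat 0, .negSucc 35⟩ ⟨.ofNat 0, .ofNat 88, .ofNat 3999, .negSucc 8830⟩,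
  .l ⟨.ofNat 0, .ofNat 40, .ofNat 0, .negSucc 38⟩ ⟨.ofNat 0, .ofNat 88,
  .ofNat 3999, .negSucc 8830⟩, .l ⟨.ofNat 0, .ofNat 40, .ofNat 0, .negSucc
  35⟩ ⟨.ofNat 0, .negSucc 79, .negSucc 795, .negSucc 736⟩, .l ⟨.ofNat 0,
  .ofNat 40, .ofNat 0, .negSucc 38⟩ ⟨.ofNat 0, .negSucc 79, .negSucc 795,
  .negSucc 736⟩, .l ⟨.ofNat 0, .ofNat 40, .ofNat 0, .negSucc 35⟩ ⟨.ofNat 0,
  .ofNat 1096, .ofNat 3847, .ofNat 2915⟩, .l ⟨.ofNat 0, .ofNat 40, .ofNat 0,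
  .negSucc 38⟩ ⟨.ofNat 0, .ofNat 1096, .ofNat 3847, .ofNat 2915⟩],
[.q ⟨.ofNat 17, .negSucc 18, .negSucc 27, .ofNat 30⟩ ⟨.ofNat 4435, .negSucc
  817, .negSucc 1846, .negSucc 1769⟩, .q ⟨.ofNat 17, .negSucc 18, .negSucc
  27, .ofNat 30⟩ ⟨.ofNat 571, .ofNat 3051, .negSucc 1851, .negSucc 1769⟩, .q
  ⟨.ofNat 17, .negSucc 18, .negSucc 27, .ofNat 30⟩ ⟨.negSucc 4779, .ofNat
  2477, .ofNat 953, .ofNat 1350⟩, .q ⟨.ofNat 17, .negSucc 18, .negSucc 27,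
  .ofNat 30⟩ ⟨.negSucc 778, .negSucc 594, .ofNat 654, .ofNat 720⟩, .q
  ⟨.ofNat 17, .negSucc 18, .negSucc 27, .ofNat 30⟩ ⟨.ofNat 4017, .negSucc
  4018, .negSucc 27, .ofNat 30⟩],
[.q ⟨.negSucc 0, .ofNat 1, .ofNat 0, .ofNat 0⟩ ⟨.negSucc 1716, .negSucc 202,
  .ofNat 1920, .ofNat 0⟩, .q ⟨.negSucc 0, .ofNat 1, .ofNat 0, .ofNat 0⟩
  ⟨.ofNat 961, .ofNat 959, .negSucc 1919, .ofNat 0⟩, .l ⟨.ofNat 0, .ofNat 0,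
  .negSucc 319, .ofNat 7⟩ ⟨.ofNat 0, .ofNat 0, .ofNat 0, .ofNat 1⟩, .l
  ⟨.ofNat 0, .ofNat 0, .ofNat 1920, .ofNat 127⟩ ⟨.ofNat 0, .ofNat 0, .ofNat
  0, .ofNat 1⟩],
[.q ⟨.negSucc 0, .ofNat 1, .ofNat 0, .ofNat 0⟩ ⟨.negSucc 548, .negSucc 90,
  .ofNat 640, .ofNat 0⟩, .q ⟨.negSucc 0, .ofNat 1, .ofNat 0, .ofNat 0⟩
  ⟨.ofNat 961, .ofNat 959, .negSucc 1919, .ofNat 0⟩, .l ⟨.ofNat 0, .ofNat 0,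
  .negSucc 959, .ofNat 31⟩ ⟨.ofNat 0, .ofNat 0, .ofNat 0, .ofNat 1⟩, .l
  ⟨.ofNat 0, .ofNat 0, .ofNat 240, .ofNat 19⟩ ⟨.ofNat 0, .ofNat 0, .ofNat 0,
  .ofNat 1⟩],
[.q ⟨.negSucc 6, .negSucc 12, .ofNat 20, .ofNat 0⟩ ⟨.negSucc 32, .ofNat 13,
  .ofNat 20, .ofNat 0⟩, .q ⟨.ofNat 3, .ofNat 17, .negSucc 19, .ofNat 0⟩
  ⟨.negSucc 36, .ofNat 17, .ofNat 20, .ofNat 0⟩, .q ⟨.ofNat 33, .negSucc 12,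
  .negSucc 19, .ofNat 0⟩ ⟨.ofNat 1561, .negSucc 1247, .ofNat 2668, .negSucc
  2980⟩, .q ⟨.ofNat 37, .negSucc 16, .negSucc 19, .ofNat 0⟩ ⟨.ofNat 1561,
  .negSucc 1247, .ofNat 2668, .negSucc 2980⟩, .q ⟨.ofNat 33, .negSucc 12,
  .negSucc 19, .ofNat 0⟩ ⟨.ofNat 810, .negSucc 2282, .negSucc 1993, .ofNat
  3467⟩, .q ⟨.ofNat 37, .negSucc 16, .negSucc 19, .ofNat 0⟩ ⟨.ofNat 810,
  .negSucc 2282, .negSucc 1993, .ofNat 3467⟩, .q ⟨.ofNat 33, .negSucc 12,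
  .negSucc 19, .ofNat 0⟩ ⟨.ofNat 2234, .ofNat 3097, .negSucc 3611, .negSucc
  1718⟩, .q ⟨.ofNat 37, .negSucc 16, .negSucc 19, .ofNat 0⟩ ⟨.ofNat 2234,
  .ofNat 3097, .negSucc 3611, .negSucc 1718⟩],
[.q ⟨.ofNat 17, .negSucc 18, .negSucc 27, .ofNat 30⟩ ⟨.ofNat 1531, .negSucc
  1173, .negSucc 176, .negSucc 179⟩, .q ⟨.ofNat 17, .negSucc 18, .negSucc
  27, .ofNat 30⟩ ⟨.ofNat 2954, .ofNat 1182, .negSucc 2065, .negSucc 2069⟩,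
  .q ⟨.ofNat 17, .negSucc 18, .negSucc 27, .ofNat 30⟩ ⟨.negSucc 4770, .ofNat
  2636, .ofNat 875, .ofNat 1260⟩, .q ⟨.ofNat 17, .negSucc 18, .negSucc 27,
  .ofNat 30⟩ ⟨.negSucc 1260, .negSucc 2646, .ofNat 1838, .ofNat 2070⟩],
[.q ⟨.negSucc 0, .ofNat 0, .ofNat 0, .ofNat 1⟩ ⟨.ofNat 926, .negSucc 1668,
  .negSucc 3634, .ofNat 4378⟩, .q ⟨.negSucc 0, .ofNat 0, .ofNat 0, .ofNat 1⟩
  ⟨.negSucc 2914, .ofNat 3687, .negSucc 1550, .ofNat 779⟩, .q ⟨.negSucc 0,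
  .ofNat 0, .ofNat 0, .ofNat 1⟩ ⟨.negSucc 2334, .ofNat 2506, .ofNat 3118,
  .negSucc 3288⟩, .q ⟨.negSucc 0, .ofNat 0, .ofNat 0, .ofNat 1⟩ ⟨.ofNat
  2469, .negSucc 3904, .ofNat 866, .ofNat 570⟩],
[.q ⟨.negSucc 38, .negSucc 40, .ofNat 80, .ofNat 0⟩ ⟨.negSucc 120, .ofNat
  41, .ofNat 80, .ofNat 0⟩, .q ⟨.ofNat 36, .ofNat 44, .negSucc 79, .ofNat 0⟩
  ⟨.negSucc 123, .ofNat 44, .ofNat 80, .ofNat 0⟩, .q ⟨.ofNat 121, .negSucc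
  40, .negSucc 79, .ofNat 0⟩ ⟨.ofNat 2399, .ofNat 1601, .ofNat 0, .negSucc
  3999⟩, .q ⟨.ofNat 124, .negSucc 43, .negSucc 79, .ofNat 0⟩ ⟨.ofNat 2399,
  .ofNat 1601, .ofNat 0, .negSucc 3999⟩, .q ⟨.ofNat 121, .negSucc 40,
  .negSucc 79, .ofNat 0⟩ ⟨.negSucc 1201, .negSucc 839, .negSucc 1616, .ofNat
  3659⟩, .q ⟨.ofNat 124, .negSucc 43, .negSucc 79, .ofNat 0⟩ ⟨.negSucc 1201,
  .negSucc 839, .negSucc 1616, .ofNat 3659⟩],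
[.q ⟨.negSucc 10, .negSucc 8, .ofNat 20, .ofNat 0⟩ ⟨.negSucc 28, .ofNat 9,
  .ofNat 20, .ofNat 0⟩, .q ⟨.ofNat 8, .ofNat 12, .negSucc 19, .ofNat 0⟩
  ⟨.negSucc 31, .ofNat 12, .ofNat 20, .ofNat 0⟩, .q ⟨.ofNat 29, .negSucc 8,
  .negSucc 19, .ofNat 0⟩ ⟨.ofNat 1291, .ofNat 3958, .negSucc 1570, .negSucc
  3677⟩, .q ⟨.ofNat 32, .negSucc 11, .negSucc 19, .ofNat 0⟩ ⟨.ofNat 1291,
  .ofNat 3958, .negSucc 1570, .negSucc 3677⟩, .q ⟨.ofNat 29, .negSucc 8,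
  .negSucc 19, .ofNat 0⟩ ⟨.ofNat 912, .negSucc 2207, .negSucc 2104, .ofNat
  3401⟩, .q ⟨.ofNat 32, .negSucc 11, .negSucc 19, .ofNat 0⟩ ⟨.ofNat 912,
  .negSucc 2207, .negSucc 2104, .ofNat 3401⟩],
[.q ⟨.negSucc 0, .ofNat 1, .ofNat 0, .ofNat 0⟩ ⟨.negSucc 796, .negSucc 162,
  .ofNat 960, .ofNat 0⟩, .q ⟨.negSucc 0, .ofNat 1, .ofNat 0, .ofNat 0⟩
  ⟨.ofNat 961, .ofNat 959, .negSucc 1919, .ofNat 0⟩, .l ⟨.ofNat 0, .ofNat 0,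
  .negSucc 639, .ofNat 23⟩ ⟨.ofNat 0, .ofNat 0, .ofNat 0, .ofNat 1⟩, .l
  ⟨.ofNat 0, .ofNat 0, .ofNat 1920, .ofNat 169⟩ ⟨.ofNat 0, .ofNat 0, .ofNat
  0, .ofNat 1⟩],
[.q ⟨.negSucc 4, .negSucc 4, .ofNat 10, .ofNat 0⟩ ⟨.negSucc 14, .ofNat 5,
  .ofNat 10, .ofNat 0⟩, .q ⟨.ofNat 4, .ofNat 6, .negSucc 9, .ofNat 0⟩
  ⟨.negSucc 15, .ofNat 6, .ofNat 10, .ofNat 0⟩, .q ⟨.ofNat 15, .negSucc 4,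
  .negSucc 9, .ofNat 0⟩ ⟨.ofNat 10597, .negSucc 8012, .ofNat 1224, .negSucc
  3807⟩, .q ⟨.ofNat 16, .negSucc 5, .negSucc 9, .ofNat 0⟩ ⟨.ofNat 10597,
  .negSucc 8012, .ofNat 1224, .negSucc 3807⟩, .q ⟨.ofNat 15, .negSucc 4,
  .negSucc 9, .ofNat 0⟩ ⟨.negSucc 620, .negSucc 1962, .negSucc 1223, .ofNat
  3808⟩, .q ⟨.ofNat 16, .negSucc 5, .negSucc 9, .ofNat 0⟩ ⟨.negSucc 620,
  .negSucc 1962, .negSucc 1223, .ofNat 3808⟩, .q ⟨.ofNat 15, .negSucc 4,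
  .negSucc 9, .ofNat 0⟩ ⟨.ofNat 880, .ofNat 973, .negSucc 1100, .negSucc
  751⟩, .q ⟨.ofNat 16, .negSucc 5, .negSucc 9, .ofNat 0⟩ ⟨.ofNat 880, .ofNat
  973, .negSucc 1100, .negSucc 751⟩],
[.l ⟨.ofNat 0, .ofNat 20, .ofNat 0, .negSucc 15⟩ ⟨.ofNat 0, .ofNat 20,
  .ofNat 0, .ofNat 16⟩, .l ⟨.ofNat 0, .negSucc 19, .ofNat 0, .ofNat 19⟩
  ⟨.ofNat 0, .ofNat 20, .ofNat 0, .ofNat 19⟩, .l ⟨.ofNat 0, .ofNat 20,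
  .ofNat 0, .negSucc 15⟩ ⟨.ofNat 0, .ofNat 1319, .ofNat 3776, .ofNat 4557⟩,
  .l ⟨.ofNat 0, .ofNat 20, .ofNat 0, .negSucc 18⟩ ⟨.ofNat 0, .ofNat 1319,
  .ofNat 3776, .ofNat 4557⟩, .l ⟨.ofNat 0, .ofNat 20, .ofNat 0, .negSucc 15⟩
  ⟨.ofNat 0, .negSucc 398, .negSucc 1959, .negSucc 2380⟩, .l ⟨.ofNat 0,
  .ofNat 20, .ofNat 0, .negSucc 18⟩ ⟨.ofNat 0, .negSucc 398, .negSucc 1959,
  .negSucc 2380⟩, .l ⟨.ofNat 0, .ofNat 20, .ofNat 0, .negSucc 15⟩ ⟨.ofNat 0,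
  .ofNat 2137, .ofNat 3381, .ofNat 4929⟩, .l ⟨.ofNat 0, .ofNat 20, .ofNat 0,
  .negSucc 18⟩ ⟨.ofNat 0, .ofNat 2137, .ofNat 3381, .ofNat 4929⟩],
[.l ⟨.ofNat 0, .ofNat 3589, .ofNat 1766, .ofNat 1564⟩ ⟨.ofNat 0, .ofNat 0,
  .ofNat 0, .ofNat 1⟩, .l ⟨.ofNat 0, .negSucc 3999, .ofNat 0, .ofNat 67⟩
  ⟨.ofNat 0, .ofNat 0, .ofNat 0, .ofNat 1⟩, .l ⟨.ofNat 0, .negSucc 3482,
  .negSucc 1966, .negSucc 16⟩ ⟨.ofNat 0, .ofNat 0, .ofNat 0, .ofNat 1⟩, .l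
  ⟨.ofNat 0, .ofNat 1414, .negSucc 1413, .negSucc 50⟩ ⟨.ofNat 0, .ofNat 0,
  .ofNat 0, .ofNat 1⟩],
[.q ⟨.negSucc 21, .negSucc 17, .ofNat 40, .ofNat 0⟩ ⟨.negSucc 57, .ofNat 18,
  .ofNat 40, .ofNat 0⟩, .q ⟨.ofNat 19, .ofNat 21, .negSucc 39, .ofNat 0⟩
  ⟨.negSucc 60, .ofNat 21, .ofNat 40, .ofNat 0⟩, .q ⟨.ofNat 58, .negSucc 17,
  .negSucc 39, .ofNat 0⟩ ⟨.ofNat 2382, .ofNat 2356, .negSucc 822, .negSucc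
  3914⟩, .q ⟨.ofNat 61, .negSucc 20, .negSucc 39, .ofNat 0⟩ ⟨.ofNat 2382,
  .ofNat 2356, .negSucc 822, .negSucc 3914⟩, .q ⟨.ofNat 58, .negSucc 17,
  .negSucc 39, .ofNat 0⟩ ⟨.negSucc 562, .negSucc 672, .negSucc 2141, .ofNat
  3378⟩, .q ⟨.ofNat 61, .negSucc 20, .negSucc 39, .ofNat 0⟩ ⟨.negSucc 562,
  .negSucc 672, .negSucc 2141, .ofNat 3378⟩, .q ⟨.ofNat 58, .negSucc 17,
  .negSucc 39, .ofNat 0⟩ ⟨.ofNat 2695, .ofNat 2683, .negSucc 3565, .negSucc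
  1811⟩, .q ⟨.ofNat 61, .negSucc 20, .negSucc 39, .ofNat 0⟩ ⟨.ofNat 2695,
  .ofNat 2683, .negSucc 3565, .negSucc 1811⟩],
[.q ⟨.negSucc 10, .negSucc 8, .ofNat 20, .ofNat 0⟩ ⟨.negSucc 28, .ofNat 9,
  .ofNat 20, .ofNat 0⟩, .q ⟨.ofNat 10, .ofNat 10, .negSucc 19, .ofNat 0⟩
  ⟨.negSucc 29, .ofNat 10, .ofNat 20, .ofNat 0⟩, .q ⟨.ofNat 29, .negSucc 8,
  .negSucc 19, .ofNat 0⟩ ⟨.ofNat 471, .ofNat 3529, .ofNat 0, .negSucc 3999⟩,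
  .q ⟨.ofNat 30, .negSucc 9, .negSucc 19, .ofNat 0⟩ ⟨.ofNat 471, .ofNat
  3529, .ofNat 0, .negSucc 3999⟩, .q ⟨.ofNat 29, .negSucc 8, .negSucc 19,
  .ofNat 0⟩ ⟨.ofNat 55, .negSucc 365, .negSucc 161, .ofNat 473⟩, .q ⟨.ofNat
  30, .negSucc 9, .negSucc 19, .ofNat 0⟩ ⟨.ofNat 55, .negSucc 365, .negSucc
  161, .ofNat 473⟩],
[.q ⟨.negSucc 18, .negSucc 20, .ofNat 40, .ofNat 0⟩ ⟨.negSucc 60, .ofNat 21,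
  .ofNat 40, .ofNat 0⟩, .q ⟨.ofNat 15, .ofNat 25, .negSucc 39, .ofNat 0⟩
  ⟨.negSucc 64, .ofNat 25, .ofNat 40, .ofNat 0⟩, .q ⟨.ofNat 61, .negSucc 20,
  .negSucc 39, .ofNat 0⟩ ⟨.ofNat 2575, .ofNat 2619, .negSucc 1476, .negSucc
  3716⟩, .q ⟨.ofNat 65, .negSucc 24, .negSucc 39, .ofNat 0⟩ ⟨.ofNat 2575,
  .ofNat 2619, .negSucc 1476, .negSucc 3716⟩, .q ⟨.ofNat 61, .negSucc 20,
  .negSucc 39, .ofNat 0⟩ ⟨.negSucc 912, .negSucc 2343, .negSucc 683, .ofNat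
  3941⟩, .q ⟨.ofNat 65, .negSucc 24, .negSucc 39, .ofNat 0⟩ ⟨.negSucc 912,
  .negSucc 2343, .negSucc 683, .ofNat 3941⟩],
[.q ⟨.negSucc 4, .negSucc 4, .ofNat 10, .ofNat 0⟩ ⟨.negSucc 14, .ofNat 5,
  .ofNat 10, .ofNat 0⟩, .q ⟨.ofNat 4, .ofNat 6, .negSucc 9, .ofNat 0⟩
  ⟨.negSucc 15, .ofNat 6, .ofNat 10, .ofNat 0⟩, .q ⟨.ofNat 15, .negSucc 4,
  .negSucc 9, .ofNat 0⟩ ⟨.ofNat 2741, .ofNat 2752, .negSucc 2070, .negSucc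
  3421⟩, .q ⟨.ofNat 16, .negSucc 5, .negSucc 9, .ofNat 0⟩ ⟨.ofNat 2741,
  .ofNat 2752, .negSucc 2070, .negSucc 3421⟩, .q ⟨.ofNat 15, .negSucc 4,
  .negSucc 9, .ofNat 0⟩ ⟨.negSucc 2123, .negSucc 3368, .ofNat 2071, .ofNat
  3422⟩, .q ⟨.ofNat 16, .negSucc 5, .negSucc 9, .ofNat 0⟩ ⟨.negSucc 2123,
  .negSucc 3368, .ofNat 2071, .ofNat 3422⟩, .q ⟨.ofNat 15, .negSucc 4,
  .negSucc 9, .ofNat 0⟩ ⟨.ofNat 2296, .ofNat 2243, .negSucc 581, .negSucc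
  3956⟩, .q ⟨.ofNat 16, .negSucc 5, .negSucc 9, .ofNat 0⟩ ⟨.ofNat 2296,
  .ofNat 2243, .negSucc 581, .negSucc 3956⟩],
[.l ⟨.ofNat 0, .ofNat 40, .ofNat 0, .negSucc 33⟩ ⟨.ofNat 0, .ofNat 40,
  .ofNat 0, .ofNat 34⟩, .l ⟨.ofNat 0, .negSucc 39, .ofNat 0, .ofNat 37⟩
  ⟨.ofNat 0, .ofNat 40, .ofNat 0, .ofNat 37⟩, .l ⟨.ofNat 0, .ofNat 40,
  .ofNat 0, .negSucc 33⟩ ⟨.ofNat 0, .ofNat 177, .ofNat 1992, .ofNat 1201⟩,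
  .l ⟨.ofNat 0, .ofNat 40, .ofNat 0, .negSucc 36⟩ ⟨.ofNat 0, .ofNat 177,
  .ofNat 1992, .ofNat 1201⟩, .l ⟨.ofNat 0, .ofNat 40, .ofNat 0, .negSucc 33⟩
  ⟨.ofNat 0, .negSucc 176, .negSucc 1991, .negSucc 1812⟩, .l ⟨.ofNat 0,
  .ofNat 40, .ofNat 0, .negSucc 36⟩ ⟨.ofNat 0, .negSucc 176, .negSucc 1991,
  .negSucc 1812⟩],
[.q ⟨.negSucc 38, .negSucc 40, .ofNat 80, .ofNat 0⟩ ⟨.negSucc 120, .ofNat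
  41, .ofNat 80, .ofNat 0⟩, .q ⟨.ofNat 36, .ofNat 44, .negSucc 79, .ofNat 0⟩
  ⟨.negSucc 123, .ofNat 44, .ofNat 80, .ofNat 0⟩, .q ⟨.ofNat 121, .negSucc
  40, .negSucc 79, .ofNat 0⟩ ⟨.ofNat 2399, .ofNat 1601, .ofNat 0, .negSucc
  3999⟩, .q ⟨.ofNat 124, .negSucc 43, .negSucc 79, .ofNat 0⟩ ⟨.ofNat 2399,
  .ofNat 1601, .ofNat 0, .negSucc 3999⟩, .q ⟨.ofNat 121, .negSucc 40,
  .negSucc 79, .ofNat 0⟩ ⟨.negSucc 1115, .negSucc 754, .negSucc 1733, .ofNat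
  3605⟩, .q ⟨.ofNat 124, .negSucc 43, .negSucc 79, .ofNat 0⟩ ⟨.negSucc 1115,
  .negSucc 754, .negSucc 1733, .ofNat 3605⟩],
[.l ⟨.ofNat 0, .ofNat 40, .ofNat 0, .negSucc 29⟩ ⟨.ofNat 0, .ofNat 40,
  .ofNat 0, .ofNat 30⟩, .l ⟨.ofNat 0, .negSucc 39, .ofNat 0, .ofNat 33⟩
  ⟨.ofNat 0, .ofNat 40, .ofNat 0, .ofNat 33⟩, .l ⟨.ofNat 0, .ofNat 40,
  .ofNat 0, .negSucc 29⟩ ⟨.ofNat 0, .ofNat 0, .ofNat 32, .negSucc 72⟩, .l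
  ⟨.ofNat 0, .ofNat 40, .ofNat 0, .negSucc 32⟩ ⟨.ofNat 0, .ofNat 0, .ofNat
  32, .negSucc 72⟩, .l ⟨.ofNat 0, .ofNat 40, .ofNat 0, .negSucc 29⟩ ⟨.ofNat
  0, .ofNat 0, .negSucc 1999, .negSucc 5992⟩, .l ⟨.ofNat 0, .ofNat 40,
  .ofNat 0, .negSucc 32⟩ ⟨.ofNat 0, .ofNat 0, .negSucc 1999, .negSucc 5992⟩,
  .l ⟨.ofNat 0, .ofNat 40, .ofNat 0, .negSucc 29⟩ ⟨.ofNat 0, .ofNat 1341,
  .ofNat 1484, .ofNat 2073⟩, .l ⟨.ofNat 0, .ofNat 40, .ofNat 0, .negSucc 32⟩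
  ⟨.ofNat 0, .ofNat 1341, .ofNat 1484, .ofNat 2073⟩, .l ⟨.ofNat 0, .ofNat
  40, .ofNat 0, .negSucc 29⟩ ⟨.ofNat 0, .negSucc 6, .negSucc 1999, .negSucc
  1654⟩, .l ⟨.ofNat 0, .ofNat 40, .ofNat 0, .negSucc 32⟩ ⟨.ofNat 0, .negSucc
  6, .negSucc 1999, .negSucc 1654⟩],
[.q ⟨.negSucc 214, .negSucc 264, .ofNat 480, .ofNat 0⟩ ⟨.negSucc 744, .ofNat
  265, .ofNat 480, .ofNat 0⟩, .q ⟨.ofNat 208, .ofNat 272, .negSucc 479,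
  .ofNat 0⟩ ⟨.negSucc 751, .ofNat 272, .ofNat 480, .ofNat 0⟩, .q ⟨.ofNat
  745, .negSucc 264, .negSucc 479, .ofNat 0⟩ ⟨.ofNat 2958, .ofNat 2643,
  .negSucc 2401, .negSucc 3198⟩, .q ⟨.ofNat 752, .negSucc 271, .negSucc 479,
  .ofNat 0⟩ ⟨.ofNat 2958, .ofNat 2643, .negSucc 2401, .negSucc 3198⟩, .q
  ⟨.ofNat 745, .negSucc 264, .negSucc 479, .ofNat 0⟩ ⟨.negSucc 2517,
  .negSucc 3082, .ofNat 2402, .ofNat 3199⟩, .q ⟨.ofNat 752, .negSucc 271,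
  .negSucc 479, .ofNat 0⟩ ⟨.negSucc 2517, .negSucc 3082, .ofNat 2402, .ofNat
  3199⟩],
[.q ⟨.negSucc 19, .negSucc 19, .ofNat 40, .ofNat 0⟩ ⟨.negSucc 59, .ofNat 20,
  .ofNat 40, .ofNat 0⟩, .q ⟨.ofNat 17, .ofNat 23, .negSucc 39, .ofNat 0⟩
  ⟨.negSucc 62, .ofNat 23, .ofNat 40, .ofNat 0⟩, .q ⟨.ofNat 60, .negSucc 19,
  .negSucc 39, .ofNat 0⟩ ⟨.ofNat 12491, .negSucc 11933, .ofNat 2536,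
  .negSucc 3092⟩, .q ⟨.ofNat 63, .negSucc 22, .negSucc 39, .ofNat 0⟩ ⟨.ofNat
  12491, .negSucc 11933, .ofNat 2536, .negSucc 3092⟩, .q ⟨.ofNat 60,
  .negSucc 19, .negSucc 39, .ofNat 0⟩ ⟨.negSucc 459, .negSucc 96, .negSucc
  2535, .ofNat 3093⟩, .q ⟨.ofNat 63, .negSucc 22, .negSucc 39, .ofNat 0⟩
  ⟨.negSucc 459, .negSucc 96, .negSucc 2535, .ofNat 3093⟩, .q ⟨.ofNat 60,
  .negSucc 19, .negSucc 39, .ofNat 0⟩ ⟨.ofNat 1292, .ofNat 1383, .negSucc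
  1796, .negSucc 877⟩, .q ⟨.ofNat 63, .negSucc 22, .negSucc 39, .ofNat 0⟩
  ⟨.ofNat 1292, .ofNat 1383, .negSucc 1796, .negSucc 877⟩],
[.q ⟨.negSucc 41, .negSucc 37, .ofNat 80, .ofNat 0⟩ ⟨.negSucc 117, .ofNat
  38, .ofNat 80, .ofNat 0⟩, .q ⟨.ofNat 39, .ofNat 41, .negSucc 79, .ofNat 0⟩
  ⟨.negSucc 120, .ofNat 41, .ofNat 80, .ofNat 0⟩, .q ⟨.ofNat 118, .negSucc
  37, .negSucc 79, .ofNat 0⟩ ⟨.ofNat 403, .ofNat 397, .ofNat 0, .negSucc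
  799⟩, .q ⟨.ofNat 121, .negSucc 40, .negSucc 79, .ofNat 0⟩ ⟨.ofNat 403,
  .ofNat 397, .ofNat 0, .negSucc 799⟩, .q ⟨.ofNat 118, .negSucc 37, .negSucc
  79, .ofNat 0⟩ ⟨.negSucc 72, .negSucc 86, .ofNat 0, .ofNat 160⟩, .q ⟨.ofNat
  121, .negSucc 40, .negSucc 79, .ofNat 0⟩ ⟨.negSucc 72, .negSucc 86, .ofNat
  0, .ofNat 160⟩, .q ⟨.ofNat 118, .negSucc 37, .negSucc 79, .ofNat 0⟩
  ⟨.ofNat 2597, .ofNat 2584, .negSucc 3725, .negSucc 1454⟩, .q ⟨.ofNat 121,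
  .negSucc 40, .negSucc 79, .ofNat 0⟩ ⟨.ofNat 2597, .ofNat 2584, .negSucc
  3725, .negSucc 1454⟩],
[.q ⟨.negSucc 0, .ofNat 0, .ofNat 0, .ofNat 1⟩ ⟨.negSucc 2243, .ofNat 2751,
  .negSucc 2902, .ofNat 2396⟩, .q ⟨.negSucc 0, .ofNat 0, .ofNat 0, .ofNat 1⟩
  ⟨.negSucc 1820, .ofNat 1900, .ofNat 624, .negSucc 702⟩, .q ⟨.negSucc 0,
  .ofNat 0, .ofNat 0, .ofNat 1⟩ ⟨.ofNat 3589, .negSucc 3999, .negSucc 46,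
  .ofNat 458⟩],
[.q ⟨.negSucc 0, .ofNat 1, .ofNat 0, .ofNat 0⟩ ⟨.negSucc 826, .negSucc 132,
  .ofNat 960, .ofNat 0⟩, .q ⟨.negSucc 0, .ofNat 1, .ofNat 0, .ofNat 0⟩
  ⟨.ofNat 961, .ofNat 959, .negSucc 1919, .ofNat 0⟩, .l ⟨.ofNat 0, .ofNat 0,
  .negSucc 1919, .ofNat 59⟩ ⟨.ofNat 0, .ofNat 0, .ofNat 0, .ofNat 1⟩, .l
  ⟨.ofNat 0, .ofNat 0, .ofNat 1920, .ofNat 149⟩ ⟨.ofNat 0, .ofNat 0, .ofNat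
  0, .ofNat 1⟩],
[.q ⟨.negSucc 0, .ofNat 0, .ofNat 0, .ofNat 1⟩ ⟨.ofNat 850, .negSucc 648,
  .negSucc 3946, .ofNat 3746⟩, .q ⟨.negSucc 0, .ofNat 0, .ofNat 0, .ofNat 1⟩
  ⟨.negSucc 1007, .ofNat 1311, .negSucc 1509, .ofNat 1207⟩, .q ⟨.negSucc 0,
  .ofNat 0, .ofNat 0, .ofNat 1⟩ ⟨.negSucc 3526, .ofNat 3541, .ofNat 1860,
  .negSucc 1873⟩, .q ⟨.negSucc 0, .ofNat 0, .ofNat 0, .ofNat 1⟩ ⟨.ofNat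
  2040, .negSucc 3389, .ofNat 2123, .negSucc 772⟩, .q ⟨.negSucc 0, .ofNat 0,
  .ofNat 0, .ofNat 1⟩ ⟨.ofNat 375, .negSucc 403, .negSucc 403, .ofNat 433⟩],
[.l ⟨.ofNat 0, .ofNat 40, .ofNat 0, .negSucc 34⟩ ⟨.ofNat 0, .ofNat 40,
  .ofNat 0, .ofNat 35⟩, .l ⟨.ofNat 0, .negSucc 39, .ofNat 0, .ofNat 39⟩
  ⟨.ofNat 0, .ofNat 40, .ofNat 0, .ofNat 39⟩, .l ⟨.ofNat 0, .ofNat 40,
  .ofNat 0, .negSucc 34⟩ ⟨.ofNat 0, .ofNat 0, .ofNat 250, .ofNat 219⟩, .l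
  ⟨.ofNat 0, .ofNat 40, .ofNat 0, .negSucc 38⟩ ⟨.ofNat 0, .ofNat 0, .ofNat
  250, .ofNat 219⟩, .l ⟨.ofNat 0, .ofNat 40, .ofNat 0, .negSucc 34⟩ ⟨.ofNat
  0, .negSucc 1507, .negSucc 3704, .negSucc 5283⟩, .l ⟨.ofNat 0, .ofNat 40,
  .ofNat 0, .negSucc 38⟩ ⟨.ofNat 0, .negSucc 1507, .negSucc 3704, .negSucc
  5283⟩, .l ⟨.ofNat 0, .ofNat 40, .ofNat 0, .negSucc 34⟩ ⟨.ofNat 0, .ofNat
  1806, .ofNat 3569, .ofNat 4811⟩, .l ⟨.ofNat 0, .ofNat 40, .ofNat 0,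
  .negSucc 38⟩ ⟨.ofNat 0, .ofNat 1806, .ofNat 3569, .ofNat 4811⟩],
[.q ⟨.negSucc 1, .negSucc 37, .ofNat 40, .ofNat 0⟩ ⟨.negSucc 77, .ofNat 38,
  .ofNat 40, .ofNat 0⟩, .q ⟨.negSucc 0, .ofNat 41, .negSucc 39, .ofNat 0⟩
  ⟨.negSucc 80, .ofNat 41, .ofNat 40, .ofNat 0⟩, .q ⟨.ofNat 78, .negSucc 37,
  .negSucc 39, .ofNat 0⟩ ⟨.ofNat 3290, .negSucc 181, .ofNat 809, .negSucc
  3916⟩, .q ⟨.ofNat 81, .negSucc 40, .negSucc 39, .ofNat 0⟩ ⟨.ofNat 3290,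
  .negSucc 181, .ofNat 809, .negSucc 3916⟩, .q ⟨.ofNat 78, .negSucc 37,
  .negSucc 39, .ofNat 0⟩ ⟨.ofNat 779, .negSucc 3886, .negSucc 808, .ofNat
  3917⟩, .q ⟨.ofNat 81, .negSucc 40, .negSucc 39, .ofNat 0⟩ ⟨.ofNat 779,
  .negSucc 3886, .negSucc 808, .ofNat 3917⟩, .q ⟨.ofNat 78, .negSucc 37,
  .negSucc 39, .ofNat 0⟩ ⟨.ofNat 3300, .ofNat 1451, .negSucc 839, .negSucc
  3910⟩, .q ⟨.ofNat 81, .negSucc 40, .negSucc 39, .ofNat 0⟩ ⟨.ofNat 3300,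
  .ofNat 1451, .negSucc 839, .negSucc 3910⟩],
[.q ⟨.negSucc 74, .negSucc 84, .ofNat 160, .ofNat 0⟩ ⟨.negSucc 244, .ofNat
  85, .ofNat 160, .ofNat 0⟩, .q ⟨.ofNat 72, .ofNat 88, .negSucc 159, .ofNat
  0⟩ ⟨.negSucc 247, .ofNat 88, .ofNat 160, .ofNat 0⟩, .q ⟨.ofNat 245,
  .negSucc 84, .negSucc 159, .ofNat 0⟩ ⟨.ofNat 2999, .ofNat 1001, .ofNat 0,
  .negSucc 3999⟩, .q ⟨.ofNat 248, .negSucc 87, .negSucc 159, .ofNat 0⟩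
  ⟨.ofNat 2999, .ofNat 1001, .ofNat 0, .negSucc 3999⟩, .q ⟨.ofNat 245,
  .negSucc 84, .negSucc 159, .ofNat 0⟩ ⟨.negSucc 928, .negSucc 556, .negSucc
  1985, .ofNat 3472⟩, .q ⟨.ofNat 248, .negSucc 87, .negSucc 159, .ofNat 0⟩
  ⟨.negSucc 928, .negSucc 556, .negSucc 1985, .ofNat 3472⟩],
[.q ⟨.negSucc 0, .ofNat 1, .ofNat 0, .ofNat 0⟩ ⟨.negSucc 278, .negSucc 40,
  .ofNat 320, .ofNat 0⟩, .q ⟨.negSucc 0, .ofNat 1, .ofNat 0, .ofNat 0⟩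
  ⟨.ofNat 961, .ofNat 959, .negSucc 1919, .ofNat 0⟩, .l ⟨.ofNat 0, .ofNat 0,
  .negSucc 639, .ofNat 19⟩ ⟨.ofNat 0, .ofNat 0, .ofNat 0, .ofNat 1⟩, .l
  ⟨.ofNat 0, .ofNat 0, .ofNat 1920, .ofNat 143⟩ ⟨.ofNat 0, .ofNat 0, .ofNat
  0, .ofNat 1⟩],
[.q ⟨.ofNat 11, .negSucc 12, .negSucc 17, .ofNat 20⟩ ⟨.negSucc 824, .ofNat
  52, .ofNat 353, .ofNat 420⟩, .q ⟨.ofNat 11, .negSucc 12, .negSucc 17,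
  .ofNat 20⟩ ⟨.ofNat 3939, .negSucc 3908, .ofNat 110, .negSucc 139⟩, .q
  ⟨.ofNat 11, .negSucc 12, .negSucc 17, .ofNat 20⟩ ⟨.ofNat 3997, .negSucc
  29, .negSucc 1926, .negSucc 2039⟩, .q ⟨.ofNat 11, .negSucc 12, .negSucc
  17, .ofNat 20⟩ ⟨.negSucc 3856, .ofNat 3805, .negSucc 247, .ofNat 300⟩],
[.q ⟨.ofNat 17, .negSucc 18, .negSucc 27, .ofNat 30⟩ ⟨.negSucc 836, .ofNat
  1972, .negSucc 654, .negSucc 479⟩, .q ⟨.ofNat 17, .negSucc 18, .negSucc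
  27, .ofNat 30⟩ ⟨.negSucc 4758, .ofNat 2026, .ofNat 1173, .ofNat 1560⟩, .q
  ⟨.ofNat 17, .negSucc 18, .negSucc 27, .ofNat 30⟩ ⟨.negSucc 3251, .negSucc
  858, .ofNat 1921, .ofNat 2190⟩, .q ⟨.ofNat 17, .negSucc 18, .negSucc 27,
  .ofNat 30⟩ ⟨.ofNat 4555, .negSucc 3510, .negSucc 473, .negSucc 569⟩, .q
  ⟨.ofNat 17, .negSucc 18, .negSucc 27, .ofNat 30⟩ ⟨.ofNat 3995, .negSucc
  98, .negSucc 1915, .negSucc 1979⟩],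
[.q ⟨.ofNat 17, .negSucc 18, .negSucc 27, .ofNat 30⟩ ⟨.negSucc 2963,
  .negSucc 1176, .ofNat 1921, .ofNat 2220⟩, .q ⟨.ofNat 17, .negSucc 18,
  .negSucc 27, .ofNat 30⟩ ⟨.ofNat 3300, .negSucc 4206, .ofNat 427, .ofNat
  480⟩, .q ⟨.ofNat 17, .negSucc 18, .negSucc 27, .ofNat 30⟩ ⟨.ofNat 2307,
  .ofNat 1797, .negSucc 2063, .negSucc 2039⟩, .q ⟨.ofNat 17, .negSucc 18,
  .negSucc 27, .ofNat 30⟩ ⟨.negSucc 2235, .ofNat 1732, .ofNat 174, .ofNat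
  330⟩],
[.q ⟨.negSucc 6, .negSucc 32, .ofNat 40, .ofNat 0⟩ ⟨.negSucc 72, .ofNat 33,
  .ofNat 40, .ofNat 0⟩, .q ⟨.ofNat 4, .ofNat 36, .negSucc 39, .ofNat 0⟩
  ⟨.negSucc 75, .ofNat 36, .ofNat 40, .ofNat 0⟩, .q ⟨.ofNat 73, .negSucc 32,
  .negSucc 39, .ofNat 0⟩ ⟨.ofNat 1007, .negSucc 6, .ofNat 0, .negSucc 999⟩,
  .q ⟨.ofNat 76, .negSucc 35, .negSucc 39, .ofNat 0⟩ ⟨.ofNat 1007, .negSucc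
  6, .ofNat 0, .negSucc 999⟩, .q ⟨.ofNat 73, .negSucc 32, .negSucc 39,
  .ofNat 0⟩ ⟨.negSucc 2777, .ofNat 2008, .negSucc 2416, .ofNat 3187⟩, .q
  ⟨.ofNat 76, .negSucc 35, .negSucc 39, .ofNat 0⟩ ⟨.negSucc 2777, .ofNat
  2008, .negSucc 2416, .ofNat 3187⟩, .q ⟨.ofNat 73, .negSucc 32, .negSucc
  39, .ofNat 0⟩ ⟨.ofNat 1705, .ofNat 1117, .negSucc 1317, .negSucc 1503⟩, .q
  ⟨.ofNat 76, .negSucc 35, .negSucc 39, .ofNat 0⟩ ⟨.ofNat 1705, .ofNat 1117,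
  .negSucc 1317, .negSucc 1503⟩],
[.l ⟨.ofNat 0, .ofNat 40, .ofNat 0, .negSucc 35⟩ ⟨.ofNat 0, .ofNat 40,
  .ofNat 0, .ofNat 36⟩, .l ⟨.ofNat 0, .negSucc 39, .ofNat 0, .ofNat 39⟩
  ⟨.ofNat 0, .ofNat 40, .ofNat 0, .ofNat 39⟩, .l ⟨.ofNat 0, .ofNat 40,
  .ofNat 0, .negSucc 35⟩ ⟨.ofNat 0, .ofNat 0, .ofNat 1000, .ofNat 501⟩, .l
  ⟨.ofNat 0, .ofNat 40, .ofNat 0, .negSucc 38⟩ ⟨.ofNat 0, .ofNat 0, .ofNat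
  1000, .ofNat 501⟩, .l ⟨.ofNat 0, .ofNat 40, .ofNat 0, .negSucc 35⟩ ⟨.ofNat
  0, .ofNat 0, .negSucc 999, .negSucc 830⟩, .l ⟨.ofNat 0, .ofNat 40, .ofNat
  0, .negSucc 38⟩ ⟨.ofNat 0, .ofNat 0, .negSucc 999, .negSucc 830⟩],
[.l ⟨.ofNat 0, .ofNat 40, .ofNat 0, .negSucc 33⟩ ⟨.ofNat 0, .ofNat 40,
  .ofNat 0, .ofNat 34⟩, .l ⟨.ofNat 0, .negSucc 39, .ofNat 0, .ofNat 37⟩
  ⟨.ofNat 0, .ofNat 40, .ofNat 0, .ofNat 37⟩, .l ⟨.ofNat 0, .ofNat 40,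
  .ofNat 0, .negSucc 33⟩ ⟨.ofNat 0, .negSucc 219, .ofNat 3994, .ofNat 1905⟩,
  .l ⟨.ofNat 0, .ofNat 40, .ofNat 0, .negSucc 36⟩ ⟨.ofNat 0, .negSucc 219,
  .ofNat 3994, .ofNat 1905⟩, .l ⟨.ofNat 0, .ofNat 40, .ofNat 0, .negSucc 33⟩
  ⟨.ofNat 0, .ofNat 220, .negSucc 3993, .negSucc 3142⟩, .l ⟨.ofNat 0, .ofNat
  40, .ofNat 0, .negSucc 36⟩ ⟨.ofNat 0, .ofNat 220, .negSucc 3993, .negSucc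
  3142⟩, .l ⟨.ofNat 0, .ofNat 40, .ofNat 0, .negSucc 33⟩ ⟨.ofNat 0, .negSucc
  2934, .negSucc 2717, .negSucc 4880⟩, .l ⟨.ofNat 0, .ofNat 40, .ofNat 0,
  .negSucc 36⟩ ⟨.ofNat 0, .negSucc 2934, .negSucc 2717, .negSucc 4880⟩],
[.l ⟨.ofNat 0, .ofNat 80, .ofNat 0, .negSucc 68⟩ ⟨.ofNat 0, .ofNat 80,
  .ofNat 0, .ofNat 69⟩, .l ⟨.ofNat 0, .negSucc 79, .ofNat 0, .ofNat 73⟩
  ⟨.ofNat 0, .ofNat 80, .ofNat 0, .ofNat 73⟩, .l ⟨.ofNat 0, .ofNat 80,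
  .ofNat 0, .negSucc 68⟩ ⟨.ofNat 0, .ofNat 0, .ofNat 4000, .ofNat 3201⟩, .l
  ⟨.ofNat 0, .ofNat 80, .ofNat 0, .negSucc 72⟩ ⟨.ofNat 0, .ofNat 0, .ofNat
  4000, .ofNat 3201⟩, .l ⟨.ofNat 0, .ofNat 80, .ofNat 0, .negSucc 68⟩
  ⟨.ofNat 0, .ofNat 0, .negSucc 3999, .negSucc 3348⟩, .l ⟨.ofNat 0, .ofNat
  80, .ofNat 0, .negSucc 72⟩ ⟨.ofNat 0, .ofNat 0, .negSucc 3999, .negSucc
  3348⟩, .l ⟨.ofNat 0, .ofNat 80, .ofNat 0, .negSucc 68⟩ ⟨.ofNat 0, .ofNat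
  3589, .negSucc 1765, .ofNat 1641⟩, .l ⟨.ofNat 0, .ofNat 80, .ofNat 0,
  .negSucc 72⟩ ⟨.ofNat 0, .ofNat 3589, .negSucc 1765, .ofNat 1641⟩],
[.l ⟨.ofNat 0, .ofNat 80, .ofNat 0, .negSucc 70⟩ ⟨.ofNat 0, .ofNat 80,
  .ofNat 0, .ofNat 71⟩, .l ⟨.ofNat 0, .negSucc 79, .ofNat 0, .ofNat 74⟩
  ⟨.ofNat 0, .ofNat 80, .ofNat 0, .ofNat 74⟩, .l ⟨.ofNat 0, .ofNat 80,
  .ofNat 0, .negSucc 70⟩ ⟨.ofNat 0, .ofNat 228, .ofNat 445, .ofNat 599⟩, .l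
  ⟨.ofNat 0, .ofNat 80, .ofNat 0, .negSucc 73⟩ ⟨.ofNat 0, .ofNat 228, .ofNat
  445, .ofNat 599⟩, .l ⟨.ofNat 0, .ofNat 80, .ofNat 0, .negSucc 70⟩ ⟨.ofNat
  0, .negSucc 1823, .negSucc 3559, .negSucc 4996⟩, .l ⟨.ofNat 0, .ofNat 80,
  .ofNat 0, .negSucc 73⟩ ⟨.ofNat 0, .negSucc 1823, .negSucc 3559, .negSucc
  4996⟩],
[.q ⟨.ofNat 17, .negSucc 18, .negSucc 27, .ofNat 30⟩ ⟨.ofNat 867, .negSucc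
  3796, .ofNat 1400, .ofNat 1530⟩, .q ⟨.ofNat 17, .negSucc 18, .negSucc 27,
  .ofNat 30⟩ ⟨.ofNat 4858, .negSucc 1964, .negSucc 1482, .negSucc 1409⟩, .q
  ⟨.ofNat 17, .negSucc 18, .negSucc 27, .ofNat 30⟩ ⟨.ofNat 832, .ofNat 2894,
  .negSucc 1895, .negSucc 1829⟩, .q ⟨.ofNat 17, .negSucc 18, .negSucc 27,
  .ofNat 30⟩ ⟨.negSucc 4627, .ofNat 1426, .ofNat 1432, .ofNat 1770⟩],
[.q ⟨.negSucc 4, .negSucc 34, .ofNat 40, .ofNat 0⟩ ⟨.negSucc 74, .ofNat 35,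
  .ofNat 40, .ofNat 0⟩, .q ⟨.ofNat 3, .ofNat 37, .negSucc 39, .ofNat 0⟩
  ⟨.negSucc 76, .ofNat 37, .ofNat 40, .ofNat 0⟩, .q ⟨.ofNat 75, .negSucc 34,
  .negSucc 39, .ofNat 0⟩ ⟨.ofNat 1591, .ofNat 884, .negSucc 552, .negSucc
  1921⟩, .q ⟨.ofNat 77, .negSucc 36, .negSucc 39, .ofNat 0⟩ ⟨.ofNat 1591,
  .ofNat 884, .negSucc 552, .negSucc 1921⟩, .q ⟨.ofNat 75, .negSucc 34,
  .negSucc 39, .ofNat 0⟩ ⟨.ofNat 799, .negSucc 2292, .negSucc 1980, .ofNat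
  3475⟩, .q ⟨.ofNat 77, .negSucc 36, .negSucc 39, .ofNat 0⟩ ⟨.ofNat 799,
  .negSucc 2292, .negSucc 1980, .ofNat 3475⟩],
[.q ⟨.negSucc 225, .negSucc 253, .ofNat 480, .ofNat 0⟩ ⟨.negSucc 733, .ofNat
  254, .ofNat 480, .ofNat 0⟩, .q ⟨.ofNat 215, .ofNat 265, .negSucc 479,
  .ofNat 0⟩ ⟨.negSucc 744, .ofNat 265, .ofNat 480, .ofNat 0⟩, .q ⟨.ofNat
  734, .negSucc 253, .negSucc 479, .ofNat 0⟩ ⟨.ofNat 3311, .negSucc 2310,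
  .ofNat 0, .negSucc 999⟩, .q ⟨.ofNat 745, .negSucc 264, .negSucc 479,
  .ofNat 0⟩ ⟨.ofNat 3311, .negSucc 2310, .ofNat 0, .negSucc 999⟩, .q ⟨.ofNat
  734, .negSucc 253, .negSucc 479, .ofNat 0⟩ ⟨.ofNat 9296, .negSucc 14618,
  .ofNat 1704, .ofNat 3619⟩, .q ⟨.ofNat 745, .negSucc 264, .negSucc 479,
  .ofNat 0⟩ ⟨.ofNat 9296, .negSucc 14618, .ofNat 1704, .ofNat 3619⟩, .q
  ⟨.ofNat 734, .negSucc 253, .negSucc 479, .ofNat 0⟩ ⟨.ofNat 3485, .ofNat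
  2065, .negSucc 2226, .negSucc 3322⟩, .q ⟨.ofNat 745, .negSucc 264,
  .negSucc 479, .ofNat 0⟩ ⟨.ofNat 3485, .ofNat 2065, .negSucc 2226, .negSucc
  3322⟩, .q ⟨.ofNat 734, .negSucc 253, .negSucc 479, .ofNat 0⟩ ⟨.negSucc 86,
  .ofNat 310, .negSucc 2937, .ofNat 2715⟩, .q ⟨.ofNat 745, .negSucc 264,
  .negSucc 479, .ofNat 0⟩ ⟨.negSucc 86, .ofNat 310, .negSucc 2937, .ofNat
  2715⟩],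
[.q ⟨.negSucc 0, .ofNat 0, .ofNat 0, .ofNat 1⟩ ⟨.ofNat 1123, .negSucc 1552,
  .ofNat 3686, .negSucc 3255⟩, .q ⟨.negSucc 0, .ofNat 0, .ofNat 0, .ofNat 1⟩
  ⟨.ofNat 2456, .negSucc 2402, .negSucc 3197, .ofNat 3145⟩, .q ⟨.negSucc 0,
  .ofNat 0, .ofNat 0, .ofNat 1⟩ ⟨.negSucc 3578, .ofNat 3653, .ofNat 1630,
  .negSucc 1703⟩],
[.q ⟨.negSucc 0, .ofNat 1, .ofNat 0, .ofNat 0⟩ ⟨.negSucc 876, .negSucc 82,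
  .ofNat 960, .ofNat 0⟩, .q ⟨.negSucc 0, .ofNat 1, .ofNat 0, .ofNat 0⟩
  ⟨.ofNat 961, .ofNat 959, .negSucc 1919, .ofNat 0⟩, .l ⟨.ofNat 0, .ofNat 0,
  .negSucc 639, .ofNat 13⟩ ⟨.ofNat 0, .ofNat 0, .ofNat 0, .ofNat 1⟩, .l
  ⟨.ofNat 0, .ofNat 0, .ofNat 640, .ofNat 39⟩ ⟨.ofNat 0, .ofNat 0, .ofNat 0,
  .ofNat 1⟩],
[.q ⟨.negSucc 0, .ofNat 1, .ofNat 0, .ofNat 0⟩ ⟨.negSucc 1588, .negSucc 330,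
  .ofNat 1920, .ofNat 0⟩, .q ⟨.negSucc 0, .ofNat 1, .ofNat 0, .ofNat 0⟩
  ⟨.ofNat 961, .ofNat 959, .negSucc 1919, .ofNat 0⟩, .l ⟨.ofNat 0, .ofNat 0,
  .negSucc 479, .negSucc 58⟩ ⟨.ofNat 0, .ofNat 0, .ofNat 0, .ofNat 1⟩, .l
  ⟨.ofNat 0, .ofNat 0, .ofNat 5, .ofNat 1⟩ ⟨.ofNat 0, .ofNat 0, .ofNat 0,
  .ofNat 1⟩],
[.l ⟨.ofNat 0, .ofNat 40, .ofNat 0, .negSucc 34⟩ ⟨.ofNat 0, .ofNat 40,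
  .ofNat 0, .ofNat 35⟩, .l ⟨.ofNat 0, .negSucc 39, .ofNat 0, .ofNat 38⟩
  ⟨.ofNat 0, .ofNat 40, .ofNat 0, .ofNat 38⟩, .l ⟨.ofNat 0, .ofNat 40,
  .ofNat 0, .negSucc 34⟩ ⟨.ofNat 0, .negSucc 1994, .ofNat 3467, .negSucc
  10905⟩, .l ⟨.ofNat 0, .ofNat 40, .ofNat 0, .negSucc 37⟩ ⟨.ofNat 0,
  .negSucc 1994, .ofNat 3467, .negSucc 10905⟩, .l ⟨.ofNat 0, .ofNat 40,
  .ofNat 0, .negSucc 34⟩ ⟨.ofNat 0, .ofNat 1995, .negSucc 3466, .negSucc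
  1114⟩, .l ⟨.ofNat 0, .ofNat 40, .ofNat 0, .negSucc 37⟩ ⟨.ofNat 0, .ofNat
  1995, .negSucc 3466, .negSucc 1114⟩, .l ⟨.ofNat 0, .ofNat 40, .ofNat 0,
  .negSucc 34⟩ ⟨.ofNat 0, .ofNat 1261, .ofNat 3796, .ofNat 3097⟩, .l ⟨.ofNat
  0, .ofNat 40, .ofNat 0, .negSucc 37⟩ ⟨.ofNat 0, .ofNat 1261, .ofNat 3796,
  .ofNat 3097⟩, .l ⟨.ofNat 0, .ofNat 40, .ofNat 0, .negSucc 34⟩ ⟨.ofNat 0,
  .negSucc 672, .negSucc 3942, .negSucc 3899⟩, .l ⟨.ofNat 0, .ofNat 40,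
  .ofNat 0, .negSucc 37⟩ ⟨.ofNat 0, .negSucc 672, .negSucc 3942, .negSucc
  3899⟩],
[.q ⟨.ofNat 17, .negSucc 18, .negSucc 27, .ofNat 30⟩ ⟨.negSucc 4786, .ofNat
  2407, .ofNat 1000, .ofNat 1380⟩, .q ⟨.ofNat 17, .negSucc 18, .negSucc 27,
  .ofNat 30⟩ ⟨.negSucc 1156, .negSucc 2702, .ofNat 1880, .ofNat 1980⟩, .q
  ⟨.ofNat 17, .negSucc 18, .negSucc 27, .ofNat 30⟩ ⟨.ofNat 4691, .negSucc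
  1413, .negSucc 1656, .negSucc 1619⟩, .q ⟨.ofNat 17, .negSucc 18, .negSucc
  27, .ofNat 30⟩ ⟨.ofNat 438, .ofNat 3127, .negSucc 1824, .negSucc 1739⟩],
[.q ⟨.negSucc 19, .negSucc 19, .ofNat 40, .ofNat 0⟩ ⟨.negSucc 59, .ofNat 20,
  .ofNat 40, .ofNat 0⟩, .q ⟨.ofNat 17, .ofNat 23, .negSucc 39, .ofNat 0⟩
  ⟨.negSucc 62, .ofNat 23, .ofNat 40, .ofNat 0⟩, .q ⟨.ofNat 60, .negSucc 19,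
  .negSucc 39, .ofNat 0⟩ ⟨.ofNat 13768, .negSucc 10535, .ofNat 705, .negSucc
  3936⟩, .q ⟨.ofNat 63, .negSucc 22, .negSucc 39, .ofNat 0⟩ ⟨.ofNat 13768,
  .negSucc 10535, .ofNat 705, .negSucc 3936⟩, .q ⟨.ofNat 60, .negSucc 19,
  .negSucc 39, .ofNat 0⟩ ⟨.negSucc 1823, .negSucc 1613, .negSucc 526, .ofNat
  3965⟩, .q ⟨.ofNat 63, .negSucc 22, .negSucc 39, .ofNat 0⟩ ⟨.negSucc 1823,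
  .negSucc 1613, .negSucc 526, .ofNat 3965⟩, .q ⟨.ofNat 60, .negSucc 19,
  .negSucc 39, .ofNat 0⟩ ⟨.ofNat 2493, .ofNat 1732, .negSucc 231, .negSucc
  3992⟩, .q ⟨.ofNat 63, .negSucc 22, .negSucc 39, .ofNat 0⟩ ⟨.ofNat 2493,
  .ofNat 1732, .negSucc 231, .negSucc 3992⟩, .q ⟨.ofNat 60, .negSucc 19,
  .negSucc 39, .ofNat 0⟩ ⟨.ofNat 89, .ofNat 221, .negSucc 1084, .ofNat 775⟩,
  .q ⟨.ofNat 63, .negSucc 22, .negSucc 39, .ofNat 0⟩ ⟨.ofNat 89, .ofNat 221,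
  .negSucc 1084, .ofNat 775⟩],
[.q ⟨.negSucc 40, .negSucc 38, .ofNat 80, .ofNat 0⟩ ⟨.negSucc 118, .ofNat
  39, .ofNat 80, .ofNat 0⟩, .q ⟨.ofNat 37, .ofNat 43, .negSucc 79, .ofNat 0⟩
  ⟨.negSucc 122, .ofNat 43, .ofNat 80, .ofNat 0⟩, .q ⟨.ofNat 119, .negSucc
  38, .negSucc 79, .ofNat 0⟩ ⟨.ofNat 2031, .ofNat 1969, .ofNat 0, .negSucc
  3999⟩, .q ⟨.ofNat 123, .negSucc 42, .negSucc 79, .ofNat 0⟩ ⟨.ofNat 2031,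
  .ofNat 1969, .ofNat 0, .negSucc 3999⟩, .q ⟨.ofNat 119, .negSucc 38,
  .negSucc 79, .ofNat 0⟩ ⟨.ofNat 62, .negSucc 484, .negSucc 2608, .ofNat
  3032⟩, .q ⟨.ofNat 123, .negSucc 42, .negSucc 79, .ofNat 0⟩ ⟨.ofNat 62,
  .negSucc 484, .negSucc 2608, .ofNat 3032⟩, .q ⟨.ofNat 119, .negSucc 38,
  .negSucc 79, .ofNat 0⟩ ⟨.ofNat 2728, .ofNat 2752, .negSucc 3440, .negSucc
  2038⟩, .q ⟨.ofNat 123, .negSucc 42, .negSucc 79, .ofNat 0⟩ ⟨.ofNat 2728,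
  .ofNat 2752, .negSucc 3440, .negSucc 2038⟩],
[.q ⟨.negSucc 0, .ofNat 0, .ofNat 0, .ofNat 1⟩ ⟨.negSucc 102, .negSucc 626,
  .ofNat 3951, .negSucc 3220⟩, .q ⟨.negSucc 0, .ofNat 0, .ofNat 0, .ofNat 1⟩
  ⟨.ofNat 2607, .negSucc 2827, .negSucc 2827, .ofNat 3049⟩, .q ⟨.negSucc 0,
  .ofNat 0, .ofNat 0, .ofNat 1⟩ ⟨.ofNat 1565, .negSucc 1503, .negSucc 3705,
  .ofNat 3645⟩, .q ⟨.negSucc 0, .ofNat 0, .ofNat 0, .ofNat 1⟩ ⟨.negSucc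
  2866, .ofNat 3516, .negSucc 1907, .ofNat 1259⟩],
[.q ⟨.negSucc 0, .ofNat 0, .ofNat 0, .ofNat 1⟩ ⟨.negSucc 4035, .ofNat 3979,
  .ofNat 413, .negSucc 355⟩, .q ⟨.negSucc 0, .ofNat 0, .ofNat 0, .ofNat 1⟩
  ⟨.negSucc 1226, .ofNat 1159, .ofNat 1630, .negSucc 1561⟩, .q ⟨.negSucc 0,
  .ofNat 0, .ofNat 0, .ofNat 1⟩ ⟨.ofNat 341, .negSucc 403, .ofNat 404,
  .negSucc 340⟩, .q ⟨.negSucc 0, .ofNat 0, .ofNat 0, .ofNat 1⟩ ⟨.ofNat 3650,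
  .negSucc 3984, .negSucc 340, .ofNat 676⟩, .q ⟨.negSucc 0, .ofNat 0, .ofNat
  0, .ofNat 1⟩ ⟨.negSucc 188, .ofNat 0, .negSucc 3999, .ofNat 4189⟩],
[.q ⟨.negSucc 0, .ofNat 0, .ofNat 0, .ofNat 1⟩ ⟨.negSucc 34, .ofNat 258,
  .negSucc 3991, .ofNat 3769⟩, .q ⟨.negSucc 0, .ofNat 0, .ofNat 0, .ofNat 1⟩
  ⟨.negSucc 2678, .ofNat 2723, .ofNat 2930, .negSucc 2973⟩, .q ⟨.negSucc 0,
  .ofNat 0, .ofNat 0, .ofNat 1⟩ ⟨.ofNat 3374, .negSucc 3794, .ofNat 1264,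
  .negSucc 842⟩],
[.q ⟨.negSucc 20, .negSucc 18, .ofNat 40, .ofNat 0⟩ ⟨.negSucc 58, .ofNat 19,
  .ofNat 40, .ofNat 0⟩, .q ⟨.ofNat 17, .ofNat 23, .negSucc 39, .ofNat 0⟩
  ⟨.negSucc 62, .ofNat 23, .ofNat 40, .ofNat 0⟩, .q ⟨.ofNat 59, .negSucc 18,
  .negSucc 39, .ofNat 0⟩ ⟨.ofNat 2143, .ofNat 2087, .negSucc 236, .negSucc
  3992⟩, .q ⟨.ofNat 63, .negSucc 22, .negSucc 39, .ofNat 0⟩ ⟨.ofNat 2143,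
  .ofNat 2087, .negSucc 236, .negSucc 3992⟩, .q ⟨.ofNat 59, .negSucc 18,
  .negSucc 39, .ofNat 0⟩ ⟨.negSucc 223, .negSucc 615, .negSucc 2376, .ofNat
  3217⟩, .q ⟨.ofNat 63, .negSucc 22, .negSucc 39, .ofNat 0⟩ ⟨.negSucc 223,
  .negSucc 615, .negSucc 2376, .ofNat 3217⟩, .q ⟨.ofNat 59, .negSucc 18,
  .negSucc 39, .ofNat 0⟩ ⟨.ofNat 2670, .ofNat 2698, .negSucc 3574, .negSucc
  1792⟩, .q ⟨.ofNat 63, .negSucc 22, .negSucc 39, .ofNat 0⟩ ⟨.ofNat 2670,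
  .ofNat 2698, .negSucc 3574, .negSucc 1792⟩],
[.q ⟨.negSucc 20, .negSucc 18, .ofNat 40, .ofNat 0⟩ ⟨.negSucc 58, .ofNat 19,
  .ofNat 40, .ofNat 0⟩, .q ⟨.ofNat 18, .ofNat 22, .negSucc 39, .ofNat 0⟩
  ⟨.negSucc 61, .ofNat 22, .ofNat 40, .ofNat 0⟩, .q ⟨.ofNat 59, .negSucc 18,
  .negSucc 39, .ofNat 0⟩ ⟨.ofNat 11857, .negSucc 9845, .ofNat 1638, .negSucc
  3648⟩, .q ⟨.ofNat 62, .negSucc 21, .negSucc 39, .ofNat 0⟩ ⟨.ofNat 11857,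
  .negSucc 9845, .ofNat 1638, .negSucc 3648⟩, .q ⟨.ofNat 59, .negSucc 18,
  .negSucc 39, .ofNat 0⟩ ⟨.negSucc 1189, .negSucc 820, .negSucc 1637, .ofNat
  3649⟩, .q ⟨.ofNat 62, .negSucc 21, .negSucc 39, .ofNat 0⟩ ⟨.negSucc 1189,
  .negSucc 820, .negSucc 1637, .ofNat 3649⟩, .q ⟨.ofNat 59, .negSucc 18,
  .negSucc 39, .ofNat 0⟩ ⟨.ofNat 2808, .ofNat 2476, .negSucc 3652, .negSucc
  1630⟩, .q ⟨.ofNat 62, .negSucc 21, .negSucc 39, .ofNat 0⟩ ⟨.ofNat 2808,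
  .ofNat 2476, .negSucc 3652, .negSucc 1630⟩],
[.q ⟨.ofNat 11, .negSucc 12, .negSucc 17, .ofNat 20⟩ ⟨.negSucc 4479, .ofNat
  3319, .ofNat 341, .ofNat 820⟩, .q ⟨.ofNat 11, .negSucc 12, .negSucc 17,
  .ofNat 20⟩ ⟨.negSucc 172, .negSucc 90, .ofNat 124, .ofNat 140⟩, .q ⟨.ofNat
  11, .negSucc 12, .negSucc 17, .ofNat 20⟩ ⟨.ofNat 2243, .negSucc 4148,
  .ofNat 1006, .ofNat 900⟩, .q ⟨.ofNat 11, .negSucc 12, .negSucc 17, .ofNat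
  20⟩ ⟨.ofNat 4776, .negSucc 1762, .negSucc 1412, .negSucc 1599⟩, .q ⟨.ofNat
  11, .negSucc 12, .negSucc 17, .ofNat 20⟩ ⟨.ofNat 3032, .ofNat 1169,
  .negSucc 2160, .negSucc 2039⟩],
[.q ⟨.ofNat 8, .ofNat 0, .negSucc 22, .ofNat 15⟩ ⟨.negSucc 13047, .ofNat
  7690, .negSucc 14336, .ofNat 19695⟩, .q ⟨.ofNat 8, .ofNat 0, .negSucc 22,
  .ofNat 15⟩ ⟨.ofNat 5362, .negSucc 14361, .ofNat 19920, .negSucc 10919⟩, .q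
  ⟨.ofNat 8, .ofNat 0, .negSucc 22, .ofNat 15⟩ ⟨.ofNat 8722, .ofNat 222,
  .ofNat 2636, .negSucc 11579⟩, .q ⟨.ofNat 8, .ofNat 0, .negSucc 22, .ofNat
  15⟩ ⟨.negSucc 13269, .ofNat 10026, .negSucc 17425, .ofNat 20670⟩],
[.q ⟨.negSucc 21, .negSucc 25, .ofNat 48, .ofNat 0⟩ ⟨.negSucc 73, .ofNat 26,
  .ofNat 48, .ofNat 0⟩, .q ⟨.ofNat 21, .ofNat 27, .negSucc 47, .ofNat 0⟩
  ⟨.negSucc 74, .ofNat 27, .ofNat 48, .ofNat 0⟩, .q ⟨.ofNat 74, .negSucc 25,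
  .negSucc 47, .ofNat 0⟩ ⟨.ofNat 371, .ofNat 129, .ofNat 0, .negSucc 499⟩,
  .q ⟨.ofNat 75, .negSucc 26, .negSucc 47, .ofNat 0⟩ ⟨.ofNat 371, .ofNat
  129, .ofNat 0, .negSucc 499⟩, .q ⟨.ofNat 74, .negSucc 25, .negSucc 47,
  .ofNat 0⟩ ⟨.negSucc 462, .negSucc 100, .negSucc 2531, .ofNat 3096⟩, .q
  ⟨.ofNat 75, .negSucc 26, .negSucc 47, .ofNat 0⟩ ⟨.negSucc 462, .negSucc
  100, .negSucc 2531, .ofNat 3096⟩],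
[.q ⟨.negSucc 0, .ofNat 0, .ofNat 0, .ofNat 1⟩ ⟨.ofNat 1151, .negSucc 1518,
  .ofNat 1301, .negSucc 932⟩, .q ⟨.negSucc 0, .ofNat 0, .ofNat 0, .ofNat 1⟩
  ⟨.ofNat 1058, .negSucc 860, .negSucc 3905, .ofNat 3709⟩, .q ⟨.negSucc 0,
  .ofNat 0, .ofNat 0, .ofNat 1⟩ ⟨.negSucc 1817, .ofNat 2308, .negSucc 3266,
  .ofNat 2777⟩, .q ⟨.negSucc 0, .ofNat 0, .ofNat 0, .ofNat 1⟩ ⟨.negSucc
  1432, .ofNat 1414, .ofNat 1414, .negSucc 1394⟩],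
[.l ⟨.ofNat 0, .ofNat 3043, .ofNat 2597, .ofNat 2261⟩ ⟨.ofNat 0, .ofNat 0,
  .ofNat 0, .ofNat 1⟩, .l ⟨.ofNat 0, .negSucc 3999, .ofNat 0, .ofNat 121⟩
  ⟨.ofNat 0, .ofNat 0, .ofNat 0, .ofNat 1⟩, .l ⟨.ofNat 0, .negSucc 706,
  .negSucc 706, .negSucc 59⟩ ⟨.ofNat 0, .ofNat 0, .ofNat 0, .ofNat 1⟩, .l
  ⟨.ofNat 0, .ofNat 1155, .negSucc 665, .negSucc 7⟩ ⟨.ofNat 0, .ofNat 0,
  .ofNat 0, .ofNat 1⟩],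
[.q ⟨.negSucc 5, .negSucc 473, .ofNat 480, .ofNat 0⟩ ⟨.negSucc 953, .ofNat
  474, .ofNat 480, .ofNat 0⟩, .q ⟨.ofNat 1, .ofNat 479, .negSucc 479, .ofNat
  0⟩ ⟨.negSucc 958, .ofNat 479, .ofNat 480, .ofNat 0⟩, .q ⟨.ofNat 954,
  .negSucc 473, .negSucc 479, .ofNat 0⟩ ⟨.ofNat 3907, .negSucc 1224, .ofNat
  1149, .negSucc 3830⟩, .q ⟨.ofNat 959, .negSucc 478, .negSucc 479, .ofNat
  0⟩ ⟨.ofNat 3907, .negSucc 1224, .ofNat 1149, .negSucc 3830⟩, .q ⟨.ofNat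
  954, .negSucc 473, .negSucc 479, .ofNat 0⟩ ⟨.negSucc 3549, .ofNat 868,
  .negSucc 1148, .ofNat 3831⟩, .q ⟨.ofNat 959, .negSucc 478, .negSucc 479,
  .ofNat 0⟩ ⟨.negSucc 3549, .ofNat 868, .negSucc 1148, .ofNat 3831⟩],
[.q ⟨.negSucc 10, .negSucc 8, .ofNat 20, .ofNat 0⟩ ⟨.negSucc 28, .ofNat 9,
  .ofNat 20, .ofNat 0⟩, .q ⟨.ofNat 8, .ofNat 12, .negSucc 19, .ofNat 0⟩
  ⟨.negSucc 31, .ofNat 12, .ofNat 20, .ofNat 0⟩, .q ⟨.ofNat 29, .negSucc 8,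
  .negSucc 19, .ofNat 0⟩ ⟨.ofNat 1855, .negSucc 70, .ofNat 1792, .negSucc
  3575⟩, .q ⟨.ofNat 32, .negSucc 11, .negSucc 19, .ofNat 0⟩ ⟨.ofNat 1855,
  .negSucc 70, .ofNat 1792, .negSucc 3575⟩, .q ⟨.ofNat 29, .negSucc 8,
  .negSucc 19, .ofNat 0⟩ ⟨.negSucc 1076, .negSucc 706, .negSucc 1791, .ofNat
  3576⟩, .q ⟨.ofNat 32, .negSucc 11, .negSucc 19, .ofNat 0⟩ ⟨.negSucc 1076,
  .negSucc 706, .negSucc 1791, .ofNat 3576⟩, .q ⟨.ofNat 29, .negSucc 8,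
  .negSucc 19, .ofNat 0⟩ ⟨.ofNat 686, .ofNat 610, .negSucc 930, .negSucc
  364⟩, .q ⟨.ofNat 32, .negSucc 11, .negSucc 19, .ofNat 0⟩ ⟨.ofNat 686,
  .ofNat 610, .negSucc 930, .negSucc 364⟩],
[.l ⟨.ofNat 0, .ofNat 80, .ofNat 0, .negSucc 70⟩ ⟨.ofNat 0, .ofNat 80,
  .ofNat 0, .ofNat 71⟩, .l ⟨.ofNat 0, .negSucc 79, .ofNat 0, .ofNat 75⟩
  ⟨.ofNat 0, .ofNat 80, .ofNat 0, .ofNat 75⟩, .l ⟨.ofNat 0, .ofNat 80,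
  .ofNat 0, .negSucc 70⟩ ⟨.ofNat 0, .ofNat 1727, .ofNat 3608, .ofNat 4746⟩,
  .l ⟨.ofNat 0, .ofNat 80, .ofNat 0, .negSucc 74⟩ ⟨.ofNat 0, .ofNat 1727,
  .ofNat 3608, .ofNat 4746⟩, .l ⟨.ofNat 0, .ofNat 80, .ofNat 0, .negSucc 70⟩
  ⟨.ofNat 0, .negSucc 1726, .negSucc 3607, .negSucc 4956⟩, .l ⟨.ofNat 0,
  .ofNat 80, .ofNat 0, .negSucc 74⟩ ⟨.ofNat 0, .negSucc 1726, .negSucc 3607,
  .negSucc 4956⟩, .l ⟨.ofNat 0, .ofNat 80, .ofNat 0, .negSucc 70⟩ ⟨.ofNat 0,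
  .negSucc 752, .ofNat 1853, .ofNat 923⟩, .l ⟨.ofNat 0, .ofNat 80, .ofNat 0,
  .negSucc 74⟩ ⟨.ofNat 0, .negSucc 752, .ofNat 1853, .ofNat 923⟩],
[.q ⟨.negSucc 224, .negSucc 254, .ofNat 480, .ofNat 0⟩ ⟨.negSucc 734, .ofNat
  255, .ofNat 480, .ofNat 0⟩, .q ⟨.ofNat 217, .ofNat 263, .negSucc 479,
  .ofNat 0⟩ ⟨.negSucc 742, .ofNat 263, .ofNat 480, .ofNat 0⟩, .q ⟨.ofNat
  735, .negSucc 254, .negSucc 479, .ofNat 0⟩ ⟨.ofNat 747, .ofNat 333, .ofNat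
  767, .negSucc 1846⟩, .q ⟨.ofNat 743, .negSucc 262, .negSucc 479, .ofNat 0⟩
  ⟨.ofNat 747, .ofNat 333, .ofNat 767, .negSucc 1846⟩, .q ⟨.ofNat 735,
  .negSucc 254, .negSucc 479, .ofNat 0⟩ ⟨.negSucc 304, .ofNat 88, .negSucc
  2717, .ofNat 2935⟩, .q ⟨.ofNat 743, .negSucc 262, .negSucc 479, .ofNat 0⟩
  ⟨.negSucc 304, .ofNat 88, .negSucc 2717, .ofNat 2935⟩],
[.q ⟨.negSucc 38, .negSucc 40, .ofNat 80, .ofNat 0⟩ ⟨.negSucc 120, .ofNat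
  41, .ofNat 80, .ofNat 0⟩, .q ⟨.ofNat 35, .ofNat 45, .negSucc 79, .ofNat 0⟩
  ⟨.negSucc 124, .ofNat 45, .ofNat 80, .ofNat 0⟩, .q ⟨.ofNat 121, .negSucc
  40, .negSucc 79, .ofNat 0⟩ ⟨.ofNat 1318, .ofNat 561, .ofNat 1728, .negSucc
  3606⟩, .q ⟨.ofNat 125, .negSucc 44, .negSucc 79, .ofNat 0⟩ ⟨.ofNat 1318,
  .ofNat 561, .ofNat 1728, .negSucc 3606⟩, .q ⟨.ofNat 121, .negSucc 40,
  .negSucc 79, .ofNat 0⟩ ⟨.negSucc 1119, .negSucc 758, .negSucc 1727, .ofNat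
  3607⟩, .q ⟨.ofNat 125, .negSucc 44, .negSucc 79, .ofNat 0⟩ ⟨.negSucc 1119,
  .negSucc 758, .negSucc 1727, .ofNat 3607⟩],
[.l ⟨.ofNat 0, .negSucc 892, .ofNat 990, .negSucc 28⟩ ⟨.ofNat 0, .ofNat 0,
  .ofNat 0, .ofNat 1⟩, .l ⟨.ofNat 0, .negSucc 1566, .negSucc 3679, .negSucc
  235⟩ ⟨.ofNat 0, .ofNat 0, .ofNat 0, .ofNat 1⟩, .l ⟨.ofNat 0, .ofNat 827,
  .negSucc 3913, .ofNat 1297⟩ ⟨.ofNat 0, .ofNat 0, .ofNat 0, .ofNat 1⟩, .l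
  ⟨.ofNat 0, .ofNat 1829, .ofNat 3557, .ofNat 831⟩ ⟨.ofNat 0, .ofNat 0,
  .ofNat 0, .ofNat 1⟩],
[.l ⟨.ofNat 0, .ofNat 1557, .negSucc 1254, .ofNat 186⟩ ⟨.ofNat 0, .ofNat 0,
  .ofNat 0, .ofNat 1⟩, .l ⟨.ofNat 0, .ofNat 404, .ofNat 404, .ofNat 477⟩
  ⟨.ofNat 0, .ofNat 0, .ofNat 0, .ofNat 1⟩, .l ⟨.ofNat 0, .negSucc 1085,
  .ofNat 3850, .ofNat 2573⟩ ⟨.ofNat 0, .ofNat 0, .ofNat 0, .ofNat 1⟩, .l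
  ⟨.ofNat 0, .negSucc 3999, .ofNat 0, .negSucc 386⟩ ⟨.ofNat 0, .ofNat 0,
  .ofNat 0, .ofNat 1⟩, .l ⟨.ofNat 0, .ofNat 0, .negSucc 1999, .ofNat 53⟩
  ⟨.ofNat 0, .ofNat 0, .ofNat 0, .ofNat 1⟩],
[.q ⟨.negSucc 0, .ofNat 0, .ofNat 0, .ofNat 1⟩ ⟨.ofNat 1341, .negSucc 2827,
  .ofNat 2828, .negSucc 1340⟩, .q ⟨.negSucc 0, .ofNat 0, .ofNat 0, .ofNat 1⟩
  ⟨.ofNat 640, .negSucc 618, .negSucc 1180, .ofNat 1160⟩, .q ⟨.negSucc 0,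
  .ofNat 0, .ofNat 0, .ofNat 1⟩ ⟨.negSucc 2242, .ofNat 2752, .negSucc 2902,
  .ofNat 2394⟩, .q ⟨.negSucc 0, .ofNat 0, .ofNat 0, .ofNat 1⟩ ⟨.negSucc
  3698, .ofNat 4000, .ofNat 0, .negSucc 300⟩, .q ⟨.negSucc 0, .ofNat 0,
  .ofNat 0, .ofNat 1⟩ ⟨.negSucc 103, .ofNat 101, .ofNat 101, .negSucc 97⟩],
[.q ⟨.negSucc 0, .ofNat 1, .ofNat 0, .ofNat 0⟩ ⟨.negSucc 1726, .negSucc 192,
  .ofNat 1920, .ofNat 0⟩, .q ⟨.negSucc 0, .ofNat 1, .ofNat 0, .ofNat 0⟩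
  ⟨.ofNat 961, .ofNat 959, .negSucc 1919, .ofNat 0⟩, .l ⟨.ofNat 0, .ofNat 0,
  .negSucc 639, .ofNat 13⟩ ⟨.ofNat 0, .ofNat 0, .ofNat 0, .ofNat 1⟩, .l
  ⟨.ofNat 0, .ofNat 0, .ofNat 480, .ofNat 31⟩ ⟨.ofNat 0, .ofNat 0, .ofNat 0,
  .ofNat 1⟩],
[.q ⟨.negSucc 4, .negSucc 4, .ofNat 10, .ofNat 0⟩ ⟨.negSucc 14, .ofNat 5,
  .ofNat 10, .ofNat 0⟩, .q ⟨.ofNat 4, .ofNat 6, .negSucc 9, .ofNat 0⟩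
  ⟨.negSucc 15, .ofNat 6, .ofNat 10, .ofNat 0⟩, .q ⟨.ofNat 15, .negSucc 4,
  .negSucc 9, .ofNat 0⟩ ⟨.ofNat 5075, .negSucc 3981, .ofNat 758, .negSucc
  1850⟩, .q ⟨.ofNat 16, .negSucc 5, .negSucc 9, .ofNat 0⟩ ⟨.ofNat 5075,
  .negSucc 3981, .ofNat 758, .negSucc 1850⟩, .q ⟨.ofNat 15, .negSucc 4,
  .negSucc 9, .ofNat 0⟩ ⟨.ofNat 203, .negSucc 3922, .negSucc 270, .ofNat
  3991⟩, .q ⟨.ofNat 16, .negSucc 5, .negSucc 9, .ofNat 0⟩ ⟨.ofNat 203,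
  .negSucc 3922, .negSucc 270, .ofNat 3991⟩, .q ⟨.ofNat 15, .negSucc 4,
  .negSucc 9, .ofNat 0⟩ ⟨.ofNat 1847, .ofNat 3796, .negSucc 3021, .negSucc
  2620⟩, .q ⟨.ofNat 16, .negSucc 5, .negSucc 9, .ofNat 0⟩ ⟨.ofNat 1847,
  .ofNat 3796, .negSucc 3021, .negSucc 2620⟩],
[.l ⟨.ofNat 0, .ofNat 40, .ofNat 0, .negSucc 35⟩ ⟨.ofNat 0, .ofNat 40,
  .ofNat 0, .ofNat 36⟩, .l ⟨.ofNat 0, .negSucc 39, .ofNat 0, .ofNat 39⟩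
  ⟨.ofNat 0, .ofNat 40, .ofNat 0, .ofNat 39⟩, .l ⟨.ofNat 0, .ofNat 40,
  .ofNat 0, .negSucc 35⟩ ⟨.ofNat 0, .ofNat 375, .ofNat 3982, .ofNat 2282⟩,
  .l ⟨.ofNat 0, .ofNat 40, .ofNat 0, .negSucc 38⟩ ⟨.ofNat 0, .ofNat 375,
  .ofNat 3982, .ofNat 2282⟩, .l ⟨.ofNat 0, .ofNat 40, .ofNat 0, .negSucc 35⟩
  ⟨.ofNat 0, .negSucc 638, .negSucc 3948, .negSucc 3879⟩, .l ⟨.ofNat 0,
  .ofNat 40, .ofNat 0, .negSucc 38⟩ ⟨.ofNat 0, .negSucc 638, .negSucc 3948,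
  .negSucc 3879⟩, .l ⟨.ofNat 0, .ofNat 40, .ofNat 0, .negSucc 35⟩ ⟨.ofNat 0,
  .ofNat 2611, .ofNat 3030, .ofNat 3945⟩, .l ⟨.ofNat 0, .ofNat 40, .ofNat 0,
  .negSucc 38⟩ ⟨.ofNat 0, .ofNat 2611, .ofNat 3030, .ofNat 3945⟩],
[.q ⟨.negSucc 20, .negSucc 18, .ofNat 40, .ofNat 0⟩ ⟨.negSucc 58, .ofNat 19,
  .ofNat 40, .ofNat 0⟩, .q ⟨.ofNat 19, .ofNat 21, .negSucc 39, .ofNat 0⟩
  ⟨.negSucc 60, .ofNat 21, .ofNat 40, .ofNat 0⟩, .q ⟨.ofNat 59, .negSucc 18,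
  .negSucc 39, .ofNat 0⟩ ⟨.ofNat 192, .ofNat 171, .ofNat 2641, .negSucc
  3003⟩, .q ⟨.ofNat 61, .negSucc 20, .negSucc 39, .ofNat 0⟩ ⟨.ofNat 192,
  .ofNat 171, .ofNat 2641, .negSucc 3003⟩, .q ⟨.ofNat 59, .negSucc 18,
  .negSucc 39, .ofNat 0⟩ ⟨.ofNat 1, .negSucc 363, .negSucc 2640, .ofNat
  3004⟩, .q ⟨.ofNat 61, .negSucc 20, .negSucc 39, .ofNat 0⟩ ⟨.ofNat 1,
  .negSucc 363, .negSucc 2640, .ofNat 3004⟩, .q ⟨.ofNat 59, .negSucc 18,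
  .negSucc 39, .ofNat 0⟩ ⟨.ofNat 2612, .ofNat 2603, .negSucc 3702, .negSucc
  1511⟩, .q ⟨.ofNat 61, .negSucc 20, .negSucc 39, .ofNat 0⟩ ⟨.ofNat 2612,
  .ofNat 2603, .negSucc 3702, .negSucc 1511⟩],
[.q ⟨.negSucc 0, .ofNat 0, .ofNat 0, .ofNat 1⟩ ⟨.ofNat 628, .negSucc 706,
  .ofNat 707, .negSucc 627⟩, .q ⟨.negSucc 0, .ofNat 0, .ofNat 0, .ofNat 1⟩
  ⟨.ofNat 1702, .negSucc 1914, .negSucc 576, .ofNat 790⟩, .q ⟨.negSucc 0,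
  .ofNat 0, .ofNat 0, .ofNat 1⟩ ⟨.negSucc 190, .ofNat 202, .negSucc 201,
  .ofNat 191⟩, .q ⟨.negSucc 0, .ofNat 0, .ofNat 0, .ofNat 1⟩ ⟨.negSucc 2650,
  .ofNat 2308, .ofNat 3267, .negSucc 2923⟩],
[.q ⟨.negSucc 220, .negSucc 258, .ofNat 480, .ofNat 0⟩ ⟨.negSucc 738, .ofNat
  259, .ofNat 480, .ofNat 0⟩, .q ⟨.ofNat 212, .ofNat 268, .negSucc 479,
  .ofNat 0⟩ ⟨.negSucc 747, .ofNat 268, .ofNat 480, .ofNat 0⟩, .q ⟨.ofNat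
  739, .negSucc 258, .negSucc 479, .ofNat 0⟩ ⟨.ofNat 3254, .ofNat 1421,
  .negSucc 744, .negSucc 3929⟩, .q ⟨.ofNat 748, .negSucc 267, .negSucc 479,
  .ofNat 0⟩ ⟨.ofNat 3254, .ofNat 1421, .negSucc 744, .negSucc 3929⟩, .q
  ⟨.ofNat 739, .negSucc 258, .negSucc 479, .ofNat 0⟩ ⟨.negSucc 438, .negSucc
  74, .negSucc 2559, .ofNat 3074⟩, .q ⟨.ofNat 748, .negSucc 267, .negSucc
  479, .ofNat 0⟩ ⟨.negSucc 438, .negSucc 74, .negSucc 2559, .ofNat 3074⟩],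
[.q ⟨.ofNat 11, .negSucc 12, .negSucc 17, .ofNat 20⟩ ⟨.ofNat 3561, .negSucc
  4025, .ofNat 385, .ofNat 80⟩, .q ⟨.ofNat 11, .negSucc 12, .negSucc 17,
  .ofNat 20⟩ ⟨.ofNat 3589, .ofNat 535, .negSucc 2043, .negSucc 2079⟩, .q
  ⟨.ofNat 11, .negSucc 12, .negSucc 17, .ofNat 20⟩ ⟨.negSucc 4009, .ofNat
  3719, .negSucc 128, .ofNat 420⟩, .q ⟨.ofNat 11, .negSucc 12, .negSucc 17,
  .ofNat 20⟩ ⟨.negSucc 2261, .ofNat 539, .ofNat 763, .ofNat 960⟩],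
[.l ⟨.ofNat 0, .negSucc 0, .negSucc 999, .ofNat 199⟩ ⟨.ofNat 0, .ofNat 0,
  .ofNat 0, .ofNat 1⟩, .l ⟨.ofNat 0, .ofNat 2000, .ofNat 0, .ofNat 1183⟩
  ⟨.ofNat 0, .ofNat 0, .ofNat 0, .ofNat 1⟩, .l ⟨.ofNat 0, .negSucc 195,
  .ofNat 3995, .ofNat 1989⟩ ⟨.ofNat 0, .ofNat 0, .ofNat 0, .ofNat 1⟩, .l
  ⟨.ofNat 0, .negSucc 2658, .negSucc 2988, .negSucc 932⟩ ⟨.ofNat 0, .ofNat
  0, .ofNat 0, .ofNat 1⟩],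
[.q ⟨.negSucc 0, .ofNat 1, .ofNat 0, .ofNat 0⟩ ⟨.negSucc 558, .negSucc 80,
  .ofNat 640, .ofNat 0⟩, .q ⟨.negSucc 0, .ofNat 1, .ofNat 0, .ofNat 0⟩
  ⟨.ofNat 961, .ofNat 959, .negSucc 1919, .ofNat 0⟩, .l ⟨.ofNat 0, .ofNat 0,
  .negSucc 639, .ofNat 19⟩ ⟨.ofNat 0, .ofNat 0, .ofNat 0, .ofNat 1⟩, .l
  ⟨.ofNat 0, .ofNat 0, .ofNat 96, .ofNat 7⟩ ⟨.ofNat 0, .ofNat 0, .ofNat 0,
  .ofNat 1⟩],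
[.q ⟨.negSucc 0, .ofNat 0, .ofNat 0, .ofNat 1⟩ ⟨.negSucc 3564, .ofNat 3652,
  .ofNat 1632, .negSucc 1718⟩, .q ⟨.negSucc 0, .ofNat 0, .ofNat 0, .ofNat 1⟩
  ⟨.negSucc 422, .negSucc 1007, .ofNat 3871, .negSucc 2439⟩, .q ⟨.negSucc 0,
  .ofNat 0, .ofNat 0, .ofNat 1⟩ ⟨.ofNat 3367, .negSucc 3490, .negSucc 1951,
  .ofNat 2076⟩, .q ⟨.negSucc 0, .ofNat 0, .ofNat 0, .ofNat 1⟩ ⟨.negSucc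
  3209, .ofNat 3659, .negSucc 1615, .ofNat 1167⟩],
[.q ⟨.negSucc 0, .ofNat 0, .ofNat 0, .ofNat 1⟩ ⟨.negSucc 3672, .ofNat 3612,
  .ofNat 1718, .negSucc 1656⟩, .q ⟨.negSucc 0, .ofNat 0, .ofNat 0, .ofNat 1⟩
  ⟨.ofNat 1539, .negSucc 1939, .ofNat 3498, .negSucc 3096⟩, .q ⟨.negSucc 0,
  .ofNat 0, .ofNat 0, .ofNat 1⟩ ⟨.ofNat 91, .negSucc 99, .ofNat 0, .ofNat
  9⟩, .q ⟨.negSucc 0, .ofNat 0, .ofNat 0, .ofNat 1⟩ ⟨.negSucc 1175, .ofNat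
  1101, .negSucc 3844, .ofNat 3920⟩],
[.q ⟨.negSucc 0, .ofNat 0, .ofNat 0, .ofNat 1⟩ ⟨.negSucc 3471, .ofNat 3831,
  .negSucc 1150, .ofNat 792⟩, .q ⟨.negSucc 0, .ofNat 0, .ofNat 0, .ofNat 1⟩
  ⟨.ofNat 2375, .negSucc 2815, .ofNat 2841, .negSucc 2399⟩, .q ⟨.negSucc 0,
  .ofNat 0, .ofNat 0, .ofNat 1⟩ ⟨.ofNat 1821, .negSucc 1999, .ofNat 0,
  .ofNat 179⟩],
[.q ⟨.negSucc 134, .negSucc 104, .ofNat 240, .ofNat 0⟩ ⟨.negSucc 344, .ofNat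
  105, .ofNat 240, .ofNat 0⟩, .q ⟨.ofNat 133, .ofNat 107, .negSucc 239,
  .ofNat 0⟩ ⟨.negSucc 346, .ofNat 107, .ofNat 240, .ofNat 0⟩, .q ⟨.ofNat
  345, .negSucc 104, .negSucc 239, .ofNat 0⟩ ⟨.ofNat 187, .ofNat 1813,
  .ofNat 0, .negSucc 1999⟩, .q ⟨.ofNat 347, .negSucc 106, .negSucc 239,
  .ofNat 0⟩ ⟨.ofNat 187, .ofNat 1813, .ofNat 0, .negSucc 1999⟩, .q ⟨.ofNat
  345, .negSucc 104, .negSucc 239, .ofNat 0⟩ ⟨.negSucc 338, .negSucc 3660,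
  .ofNat 0, .ofNat 4000⟩, .q ⟨.ofNat 347, .negSucc 106, .negSucc 239, .ofNat
  0⟩ ⟨.negSucc 338, .negSucc 3660, .ofNat 0, .ofNat 4000⟩],
[.q ⟨.negSucc 9, .negSucc 9, .ofNat 20, .ofNat 0⟩ ⟨.negSucc 29, .ofNat 10,
  .ofNat 20, .ofNat 0⟩, .q ⟨.ofNat 7, .ofNat 13, .negSucc 19, .ofNat 0⟩
  ⟨.negSucc 32, .ofNat 13, .ofNat 20, .ofNat 0⟩, .q ⟨.ofNat 30, .negSucc 9,
  .negSucc 19, .ofNat 0⟩ ⟨.ofNat 4838, .negSucc 3234, .negSucc 304, .negSucc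
  1297⟩, .q ⟨.ofNat 33, .negSucc 12, .negSucc 19, .ofNat 0⟩ ⟨.ofNat 4838,
  .negSucc 3234, .negSucc 304, .negSucc 1297⟩, .q ⟨.ofNat 30, .negSucc 9,
  .negSucc 19, .ofNat 0⟩ ⟨.negSucc 926, .negSucc 553, .negSucc 1988, .ofNat
  3470⟩, .q ⟨.ofNat 33, .negSucc 12, .negSucc 19, .ofNat 0⟩ ⟨.negSucc 926,
  .negSucc 553, .negSucc 1988, .ofNat 3470⟩, .q ⟨.ofNat 30, .negSucc 9,
  .negSucc 19, .ofNat 0⟩ ⟨.ofNat 3111, .ofNat 1636, .negSucc 834, .negSucc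
  3911⟩, .q ⟨.ofNat 33, .negSucc 12, .negSucc 19, .ofNat 0⟩ ⟨.ofNat 3111,
  .ofNat 1636, .negSucc 834, .negSucc 3911⟩],
[.l ⟨.ofNat 0, .ofNat 10, .ofNat 0, .negSucc 7⟩ ⟨.ofNat 0, .ofNat 10, .ofNat
  0, .ofNat 8⟩, .l ⟨.ofNat 0, .negSucc 9, .ofNat 0, .ofNat 9⟩ ⟨.ofNat 0,
  .ofNat 10, .ofNat 0, .ofNat 9⟩, .l ⟨.ofNat 0, .ofNat 10, .ofNat 0,
  .negSucc 7⟩ ⟨.ofNat 0, .ofNat 0, .ofNat 4000, .ofNat 3617⟩, .l ⟨.ofNat 0,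
  .ofNat 10, .ofNat 0, .negSucc 8⟩ ⟨.ofNat 0, .ofNat 0, .ofNat 4000, .ofNat
  3617⟩, .l ⟨.ofNat 0, .ofNat 10, .ofNat 0, .negSucc 7⟩ ⟨.ofNat 0, .ofNat 0,
  .negSucc 3999, .negSucc 4198⟩, .l ⟨.ofNat 0, .ofNat 10, .ofNat 0, .negSucc
  8⟩ ⟨.ofNat 0, .ofNat 0, .negSucc 3999, .negSucc 4198⟩, .l ⟨.ofNat 0,
  .ofNat 10, .ofNat 0, .negSucc 7⟩ ⟨.ofNat 0, .ofNat 1388, .ofNat 1440,
  .ofNat 2507⟩, .l ⟨.ofNat 0, .ofNat 10, .ofNat 0, .negSucc 8⟩ ⟨.ofNat 0,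
  .ofNat 1388, .ofNat 1440, .ofNat 2507⟩],
[.q ⟨.negSucc 226, .negSucc 252, .ofNat 480, .ofNat 0⟩ ⟨.negSucc 732, .ofNat
  253, .ofNat 480, .ofNat 0⟩, .q ⟨.ofNat 217, .ofNat 263, .negSucc 479,
  .ofNat 0⟩ ⟨.negSucc 742, .ofNat 263, .ofNat 480, .ofNat 0⟩, .q ⟨.ofNat
  733, .negSucc 252, .negSucc 479, .ofNat 0⟩ ⟨.ofNat 462, .ofNat 191, .ofNat
  558, .negSucc 1210⟩, .q ⟨.ofNat 743, .negSucc 262, .negSucc 479, .ofNat 0⟩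
  ⟨.ofNat 462, .ofNat 191, .ofNat 558, .negSucc 1210⟩, .q ⟨.ofNat 733,
  .negSucc 252, .negSucc 479, .ofNat 0⟩ ⟨.negSucc 1158, .negSucc 799,
  .negSucc 1673, .ofNat 3633⟩, .q ⟨.ofNat 743, .negSucc 262, .negSucc 479,
  .ofNat 0⟩ ⟨.negSucc 1158, .negSucc 799, .negSucc 1673, .ofNat 3633⟩],
[.q ⟨.negSucc 0, .ofNat 0, .ofNat 0, .ofNat 1⟩ ⟨.ofNat 3350, .negSucc 3998,
  .ofNat 71, .ofNat 578⟩, .q ⟨.negSucc 0, .ofNat 0, .ofNat 0, .ofNat 1⟩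
  ⟨.ofNat 329, .ofNat 0, .negSucc 3999, .ofNat 3671⟩, .q ⟨.negSucc 0, .ofNat
  0, .ofNat 0, .ofNat 1⟩ ⟨.negSucc 3073, .ofNat 3542, .negSucc 1858, .ofNat
  1391⟩, .q ⟨.negSucc 0, .ofNat 0, .ofNat 0, .ofNat 1⟩ ⟨.negSucc 2024,
  .ofNat 1752, .ofNat 3596, .negSucc 3322⟩],
[.q ⟨.negSucc 0, .ofNat 1, .ofNat 0, .ofNat 0⟩ ⟨.negSucc 1638, .negSucc 280,
  .ofNat 1920, .ofNat 0⟩, .q ⟨.negSucc 0, .ofNat 1, .ofNat 0, .ofNat 0⟩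
  ⟨.ofNat 961, .ofNat 959, .negSucc 1919, .ofNat 0⟩, .l ⟨.ofNat 0, .ofNat 0,
  .negSucc 639, .ofNat 21⟩ ⟨.ofNat 0, .ofNat 0, .ofNat 0, .ofNat 1⟩, .l
  ⟨.ofNat 0, .ofNat 0, .ofNat 960, .ofNat 77⟩ ⟨.ofNat 0, .ofNat 0, .ofNat 0,
  .ofNat 1⟩],
[.q ⟨.negSucc 0, .ofNat 0, .ofNat 0, .ofNat 1⟩ ⟨.ofNat 2917, .negSucc 2999,
  .negSucc 2645, .ofNat 2729⟩, .q ⟨.negSucc 0, .ofNat 0, .ofNat 0, .ofNat 1⟩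
  ⟨.negSucc 1500, .ofNat 1966, .negSucc 3483, .ofNat 3019⟩, .q ⟨.negSucc 0,
  .ofNat 0, .ofNat 0, .ofNat 1⟩ ⟨.negSucc 3049, .ofNat 3513, .negSucc 1912,
  .ofNat 1450⟩, .q ⟨.negSucc 0, .ofNat 0, .ofNat 0, .ofNat 1⟩ ⟨.negSucc
  2937, .ofNat 2889, .ofNat 2766, .negSucc 2716⟩, .q ⟨.negSucc 0, .ofNat 0,
  .ofNat 0, .ofNat 1⟩ ⟨.ofNat 2074, .negSucc 3482, .ofNat 1968, .negSucc
  558⟩],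
[.q ⟨.negSucc 0, .ofNat 1, .ofNat 0, .ofNat 0⟩ ⟨.negSucc 1578, .negSucc 340,
  .ofNat 1920, .ofNat 0⟩, .q ⟨.negSucc 0, .ofNat 1, .ofNat 0, .ofNat 0⟩
  ⟨.ofNat 961, .ofNat 959, .negSucc 1919, .ofNat 0⟩, .l ⟨.ofNat 0, .ofNat 0,
  .negSucc 639, .ofNat 23⟩ ⟨.ofNat 0, .ofNat 0, .ofNat 0, .ofNat 1⟩, .l
  ⟨.ofNat 0, .ofNat 0, .ofNat 320, .ofNat 29⟩ ⟨.ofNat 0, .ofNat 0, .ofNat 0,
  .ofNat 1⟩],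
[.l ⟨.ofNat 0, .ofNat 480, .ofNat 0, .negSucc 420⟩ ⟨.ofNat 0, .ofNat 480,
  .ofNat 0, .ofNat 421⟩, .l ⟨.ofNat 0, .negSucc 479, .ofNat 0, .ofNat 430⟩
  ⟨.ofNat 0, .ofNat 480, .ofNat 0, .ofNat 430⟩, .l ⟨.ofNat 0, .ofNat 480,
  .ofNat 0, .negSucc 420⟩ ⟨.ofNat 0, .ofNat 1594, .ofNat 3669, .ofNat 4680⟩,
  .l ⟨.ofNat 0, .ofNat 480, .ofNat 0, .negSucc 429⟩ ⟨.ofNat 0, .ofNat 1594,
  .ofNat 3669, .ofNat 4680⟩, .l ⟨.ofNat 0, .ofNat 480, .ofNat 0, .negSucc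
  420⟩ ⟨.ofNat 0, .negSucc 1593, .negSucc 3668, .negSucc 4881⟩, .l ⟨.ofNat
  0, .ofNat 480, .ofNat 0, .negSucc 429⟩ ⟨.ofNat 0, .negSucc 1593, .negSucc
  3668, .negSucc 4881⟩],
[.q ⟨.ofNat 0, .negSucc 2, .negSucc 1, .ofNat 5⟩ ⟨.ofNat 4527, .negSucc 914,
  .negSucc 4191, .ofNat 580⟩, .q ⟨.ofNat 0, .negSucc 2, .negSucc 1, .ofNat
  5⟩ ⟨.negSucc 1626, .ofNat 3006, .negSucc 2238, .ofNat 860⟩, .q ⟨.ofNat 0,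
  .negSucc 2, .negSucc 1, .ofNat 5⟩ ⟨.negSucc 5520, .ofNat 3137, .ofNat
  1984, .ofNat 400⟩, .q ⟨.ofNat 0, .negSucc 2, .negSucc 1, .ofNat 5⟩ ⟨.ofNat
  0, .negSucc 922, .ofNat 563, .ofNat 360⟩],
[.q ⟨.ofNat 11, .negSucc 12, .negSucc 17, .ofNat 20⟩ ⟨.ofNat 3762, .negSucc
  3930, .ofNat 269, .negSucc 99⟩, .q ⟨.ofNat 11, .negSucc 12, .negSucc 17,
  .ofNat 20⟩ ⟨.ofNat 2867, .ofNat 1339, .negSucc 2145, .negSucc 2059⟩, .q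
  ⟨.ofNat 11, .negSucc 12, .negSucc 17, .ofNat 20⟩ ⟨.negSucc 3911, .ofNat
  3778, .negSucc 205, .ofNat 340⟩, .q ⟨.ofNat 11, .negSucc 12, .negSucc 17,
  .ofNat 20⟩ ⟨.negSucc 2360, .negSucc 1825, .ofNat 2067, .ofNat 2120⟩],
[.l ⟨.ofNat 0, .negSucc 3046, .negSucc 2591, .negSucc 936⟩ ⟨.ofNat 0, .ofNat
  0, .ofNat 0, .ofNat 1⟩, .l ⟨.ofNat 0, .ofNat 1942, .ofNat 477, .ofNat 543⟩
  ⟨.ofNat 0, .ofNat 0, .ofNat 0, .ofNat 1⟩, .l ⟨.ofNat 0, .negSucc 2658,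
  .ofNat 2989, .ofNat 2356⟩ ⟨.ofNat 0, .ofNat 0, .ofNat 0, .ofNat 1⟩, .l
  ⟨.ofNat 0, .negSucc 3997, .ofNat 112, .ofNat 865⟩ ⟨.ofNat 0, .ofNat 0,
  .ofNat 0, .ofNat 1⟩],
[.q ⟨.negSucc 40, .negSucc 38, .ofNat 80, .ofNat 0⟩ ⟨.negSucc 118, .ofNat
  39, .ofNat 80, .ofNat 0⟩, .q ⟨.ofNat 38, .ofNat 42, .negSucc 79, .ofNat 0⟩
  ⟨.negSucc 121, .ofNat 42, .ofNat 80, .ofNat 0⟩, .q ⟨.ofNat 119, .negSucc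
  38, .negSucc 79, .ofNat 0⟩ ⟨.ofNat 2996, .ofNat 2391, .negSucc 1829,
  .negSucc 3556⟩, .q ⟨.ofNat 122, .negSucc 41, .negSucc 79, .ofNat 0⟩
  ⟨.ofNat 2996, .ofNat 2391, .negSucc 1829, .negSucc 3556⟩, .q ⟨.ofNat 119,
  .negSucc 38, .negSucc 79, .ofNat 0⟩ ⟨.negSucc 1201, .negSucc 833, .negSucc
  1620, .ofNat 3657⟩, .q ⟨.ofNat 122, .negSucc 41, .negSucc 79, .ofNat 0⟩
  ⟨.negSucc 1201, .negSucc 833, .negSucc 1620, .ofNat 3657⟩],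
[.l ⟨.ofNat 0, .ofNat 40, .ofNat 0, .negSucc 34⟩ ⟨.ofNat 0, .ofNat 40,
  .ofNat 0, .ofNat 35⟩, .l ⟨.ofNat 0, .negSucc 39, .ofNat 0, .ofNat 37⟩
  ⟨.ofNat 0, .ofNat 40, .ofNat 0, .ofNat 37⟩, .l ⟨.ofNat 0, .ofNat 40,
  .ofNat 0, .negSucc 34⟩ ⟨.ofNat 0, .ofNat 1273, .ofNat 3792, .ofNat 3047⟩,
  .l ⟨.ofNat 0, .ofNat 40, .ofNat 0, .negSucc 36⟩ ⟨.ofNat 0, .ofNat 1273,
  .ofNat 3792, .ofNat 3047⟩, .l ⟨.ofNat 0, .ofNat 40, .ofNat 0, .negSucc 34⟩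
  ⟨.ofNat 0, .negSucc 1272, .negSucc 3791, .negSucc 4272⟩, .l ⟨.ofNat 0,
  .ofNat 40, .ofNat 0, .negSucc 36⟩ ⟨.ofNat 0, .negSucc 1272, .negSucc 3791,
  .negSucc 4272⟩, .l ⟨.ofNat 0, .ofNat 40, .ofNat 0, .negSucc 34⟩ ⟨.ofNat 0,
  .ofNat 2833, .ofNat 2824, .ofNat 3963⟩, .l ⟨.ofNat 0, .ofNat 40, .ofNat 0,
  .negSucc 36⟩ ⟨.ofNat 0, .ofNat 2833, .ofNat 2824, .ofNat 3963⟩],
[.q ⟨.ofNat 11, .negSucc 12, .negSucc 17, .ofNat 20⟩ ⟨.negSucc 4131, .ofNat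
  3637, .negSucc 24, .ofNat 520⟩, .q ⟨.ofNat 11, .negSucc 12, .negSucc 17,
  .ofNat 20⟩ ⟨.negSucc 4443, .ofNat 889, .ofNat 1575, .ofNat 1980⟩, .q
  ⟨.ofNat 11, .negSucc 12, .negSucc 17, .ofNat 20⟩ ⟨.ofNat 803, .negSucc
  3776, .ofNat 1514, .ofNat 1460⟩, .q ⟨.ofNat 11, .negSucc 12, .negSucc 17,
  .ofNat 20⟩ ⟨.ofNat 1194, .negSucc 446, .negSucc 346, .negSucc 399⟩, .q
  ⟨.ofNat 11, .negSucc 12, .negSucc 17, .ofNat 20⟩ ⟨.ofNat 49, .ofNat 395,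
  .negSucc 243, .negSucc 199⟩],
[.l ⟨.ofNat 0, .ofNat 40, .ofNat 0, .negSucc 32⟩ ⟨.ofNat 0, .ofNat 40,
  .ofNat 0, .ofNat 33⟩, .l ⟨.ofNat 0, .negSucc 39, .ofNat 0, .ofNat 36⟩
  ⟨.ofNat 0, .ofNat 40, .ofNat 0, .ofNat 36⟩, .l ⟨.ofNat 0, .ofNat 40,
  .ofNat 0, .negSucc 32⟩ ⟨.ofNat 0, .ofNat 0, .ofNat 4000, .ofNat 3601⟩, .l
  ⟨.ofNat 0, .ofNat 40, .ofNat 0, .negSucc 35⟩ ⟨.ofNat 0, .ofNat 0, .ofNat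
  4000, .ofNat 3601⟩, .l ⟨.ofNat 0, .ofNat 40, .ofNat 0, .negSucc 32⟩
  ⟨.ofNat 0, .ofNat 0, .negSucc 3999, .negSucc 4240⟩, .l ⟨.ofNat 0, .ofNat
  40, .ofNat 0, .negSucc 35⟩ ⟨.ofNat 0, .ofNat 0, .negSucc 3999, .negSucc
  4240⟩, .l ⟨.ofNat 0, .ofNat 40, .ofNat 0, .negSucc 32⟩ ⟨.ofNat 0, .ofNat
  3545, .ofNat 1853, .ofNat 4740⟩, .l ⟨.ofNat 0, .ofNat 40, .ofNat 0,
  .negSucc 35⟩ ⟨.ofNat 0, .ofNat 3545, .ofNat 1853, .ofNat 4740⟩],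
[.q ⟨.negSucc 10, .negSucc 8, .ofNat 20, .ofNat 0⟩ ⟨.negSucc 28, .ofNat 9,
  .ofNat 20, .ofNat 0⟩, .q ⟨.ofNat 8, .ofNat 12, .negSucc 19, .ofNat 0⟩
  ⟨.negSucc 31, .ofNat 12, .ofNat 20, .ofNat 0⟩, .q ⟨.ofNat 29, .negSucc 8,
  .negSucc 19, .ofNat 0⟩ ⟨.ofNat 11133, .negSucc 7132, .ofNat 0, .negSucc
  3999⟩, .q ⟨.ofNat 32, .negSucc 11, .negSucc 19, .ofNat 0⟩ ⟨.ofNat 11133,
  .negSucc 7132, .ofNat 0, .negSucc 3999⟩, .q ⟨.ofNat 29, .negSucc 8,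
  .negSucc 19, .ofNat 0⟩ ⟨.ofNat 9937, .negSucc 13936, .ofNat 0, .ofNat
  4000⟩, .q ⟨.ofNat 32, .negSucc 11, .negSucc 19, .ofNat 0⟩ ⟨.ofNat 9937,
  .negSucc 13936, .ofNat 0, .ofNat 4000⟩, .q ⟨.ofNat 29, .negSucc 8,
  .negSucc 19, .ofNat 0⟩ ⟨.ofNat 1294, .ofNat 422, .ofNat 1837, .negSucc
  3552⟩, .q ⟨.ofNat 32, .negSucc 11, .negSucc 19, .ofNat 0⟩ ⟨.ofNat 1294,
  .ofNat 422, .ofNat 1837, .negSucc 3552⟩, .q ⟨.ofNat 29, .negSucc 8,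
  .negSucc 19, .ofNat 0⟩ ⟨.ofNat 364, .ofNat 783, .negSucc 3342, .ofNat
  2196⟩, .q ⟨.ofNat 32, .negSucc 11, .negSucc 19, .ofNat 0⟩ ⟨.ofNat 364,
  .ofNat 783, .negSucc 3342, .ofNat 2196⟩],
[.q ⟨.negSucc 21, .negSucc 17, .ofNat 40, .ofNat 0⟩ ⟨.negSucc 57, .ofNat 18,
  .ofNat 40, .ofNat 0⟩, .q ⟨.ofNat 19, .ofNat 21, .negSucc 39, .ofNat 0⟩
  ⟨.negSucc 60, .ofNat 21, .ofNat 40, .ofNat 0⟩, .q ⟨.ofNat 58, .negSucc 17,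
  .negSucc 39, .ofNat 0⟩ ⟨.ofNat 2400, .ofNat 2375, .negSucc 870, .negSucc
  3903⟩, .q ⟨.ofNat 61, .negSucc 20, .negSucc 39, .ofNat 0⟩ ⟨.ofNat 2400,
  .ofNat 2375, .negSucc 870, .negSucc 3903⟩, .q ⟨.ofNat 58, .negSucc 17,
  .negSucc 39, .ofNat 0⟩ ⟨.ofNat 9640, .negSucc 14414, .ofNat 871, .ofNat
  3904⟩, .q ⟨.ofNat 61, .negSucc 20, .negSucc 39, .ofNat 0⟩ ⟨.ofNat 9640,
  .negSucc 14414, .ofNat 871, .ofNat 3904⟩, .q ⟨.ofNat 58, .negSucc 17,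
  .negSucc 39, .ofNat 0⟩ ⟨.ofNat 2657, .ofNat 2642, .negSucc 3639, .negSucc
  1658⟩, .q ⟨.ofNat 61, .negSucc 20, .negSucc 39, .ofNat 0⟩ ⟨.ofNat 2657,
  .ofNat 2642, .negSucc 3639, .negSucc 1658⟩, .q ⟨.ofNat 58, .negSucc 17,
  .negSucc 39, .ofNat 0⟩ ⟨.ofNat 523, .ofNat 417, .negSucc 3258, .ofNat
  2319⟩, .q ⟨.ofNat 61, .negSucc 20, .negSucc 39, .ofNat 0⟩ ⟨.ofNat 523,
  .ofNat 417, .negSucc 3258, .ofNat 2319⟩],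
[.q ⟨.ofNat 17, .negSucc 18, .negSucc 27, .ofNat 30⟩ ⟨.negSucc 4656, .ofNat
  3223, .ofNat 594, .ofNat 840⟩, .q ⟨.ofNat 17, .negSucc 18, .negSucc 27,
  .ofNat 30⟩ ⟨.ofNat 867, .negSucc 3796, .ofNat 1400, .ofNat 1530⟩, .q
  ⟨.ofNat 17, .negSucc 18, .negSucc 27, .ofNat 30⟩ ⟨.ofNat 3885, .negSucc
  4071, .ofNat 67, .ofNat 120⟩, .q ⟨.ofNat 17, .negSucc 18, .negSucc 27,
  .ofNat 30⟩ ⟨.ofNat 1996, .ofNat 2060, .negSucc 2045, .negSucc 2009⟩],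
[.l ⟨.ofNat 0, .negSucc 2827, .negSucc 2827, .negSucc 1178⟩ ⟨.ofNat 0,
  .ofNat 0, .ofNat 0, .ofNat 1⟩, .l ⟨.ofNat 0, .ofNat 3981, .negSucc 391,
  .ofNat 10573⟩ ⟨.ofNat 0, .ofNat 0, .ofNat 0, .ofNat 1⟩, .l ⟨.ofNat 0,
  .ofNat 3093, .ofNat 2536, .ofNat 1399⟩ ⟨.ofNat 0, .ofNat 0, .ofNat 0,
  .ofNat 1⟩, .l ⟨.ofNat 0, .negSucc 730, .ofNat 1115, .ofNat 852⟩ ⟨.ofNat 0,
  .ofNat 0, .ofNat 0, .ofNat 1⟩, .l ⟨.ofNat 0, .negSucc 1999, .ofNat 0,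
  .ofNat 399⟩ ⟨.ofNat 0, .ofNat 0, .ofNat 0, .ofNat 1⟩],
[.l ⟨.ofNat 0, .ofNat 2998, .ofNat 2648, .ofNat 2883⟩ ⟨.ofNat 0, .ofNat 0,
  .ofNat 0, .ofNat 1⟩, .l ⟨.ofNat 0, .negSucc 974, .ofNat 1746, .ofNat 1300⟩
  ⟨.ofNat 0, .ofNat 0, .ofNat 0, .ofNat 1⟩, .l ⟨.ofNat 0, .negSucc 3999,
  .ofNat 0, .ofNat 801⟩ ⟨.ofNat 0, .ofNat 0, .ofNat 0, .ofNat 1⟩, .l ⟨.ofNat
  0, .negSucc 2723, .negSucc 2928, .negSucc 1277⟩ ⟨.ofNat 0, .ofNat 0,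
  .ofNat 0, .ofNat 1⟩, .l ⟨.ofNat 0, .ofNat 2981, .negSucc 2666, .ofNat
  2317⟩ ⟨.ofNat 0, .ofNat 0, .ofNat 0, .ofNat 1⟩],
[.l ⟨.ofNat 0, .negSucc 1200, .negSucc 3814, .negSucc 46⟩ ⟨.ofNat 0, .ofNat
  0, .ofNat 0, .ofNat 1⟩, .l ⟨.ofNat 0, .ofNat 3410, .negSucc 2089, .ofNat
  2847⟩ ⟨.ofNat 0, .ofNat 0, .ofNat 0, .ofNat 1⟩, .l ⟨.ofNat 0, .negSucc
  1287, .ofNat 3787, .negSucc 915⟩ ⟨.ofNat 0, .ofNat 0, .ofNat 0, .ofNat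
  1⟩],
[.q ⟨.negSucc 21, .negSucc 17, .ofNat 40, .ofNat 0⟩ ⟨.negSucc 57, .ofNat 18,
  .ofNat 40, .ofNat 0⟩, .q ⟨.ofNat 19, .ofNat 21, .negSucc 39, .ofNat 0⟩
  ⟨.negSucc 60, .ofNat 21, .ofNat 40, .ofNat 0⟩, .q ⟨.ofNat 58, .negSucc 17,
  .negSucc 39, .ofNat 0⟩ ⟨.ofNat 12763, .negSucc 7880, .negSucc 1011,
  .negSucc 3869⟩, .q ⟨.ofNat 61, .negSucc 20, .negSucc 39, .ofNat 0⟩ ⟨.ofNat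
  12763, .negSucc 7880, .negSucc 1011, .negSucc 3869⟩, .q ⟨.ofNat 58,
  .negSucc 17, .negSucc 39, .ofNat 0⟩ ⟨.negSucc 48, .negSucc 4118, .ofNat
  172, .ofNat 3996⟩, .q ⟨.ofNat 61, .negSucc 20, .negSucc 39, .ofNat 0⟩
  ⟨.negSucc 48, .negSucc 4118, .ofNat 172, .ofNat 3996⟩, .q ⟨.ofNat 58,
  .negSucc 17, .negSucc 39, .ofNat 0⟩ ⟨.ofNat 603, .ofNat 3632, .negSucc
  241, .negSucc 3992⟩, .q ⟨.ofNat 61, .negSucc 20, .negSucc 39, .ofNat 0⟩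
  ⟨.ofNat 603, .ofNat 3632, .negSucc 241, .negSucc 3992⟩, .q ⟨.ofNat 58,
  .negSucc 17, .negSucc 39, .ofNat 0⟩ ⟨.ofNat 968, .ofNat 157, .negSucc
  1859, .ofNat 735⟩, .q ⟨.ofNat 61, .negSucc 20, .negSucc 39, .ofNat 0⟩
  ⟨.ofNat 968, .ofNat 157, .negSucc 1859, .ofNat 735⟩],
[.q ⟨.negSucc 0, .ofNat 1, .ofNat 0, .ofNat 0⟩ ⟨.negSucc 228, .negSucc 10,
  .ofNat 240, .ofNat 0⟩, .q ⟨.negSucc 0, .ofNat 1, .ofNat 0, .ofNat 0⟩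
  ⟨.ofNat 961, .ofNat 959, .negSucc 1919, .ofNat 0⟩, .l ⟨.ofNat 0, .ofNat 0,
  .negSucc 1919, .ofNat 19⟩ ⟨.ofNat 0, .ofNat 0, .ofNat 0, .ofNat 1⟩, .l
  ⟨.ofNat 0, .ofNat 0, .ofNat 240, .ofNat 13⟩ ⟨.ofNat 0, .ofNat 0, .ofNat 0,
  .ofNat 1⟩],
[.q ⟨.negSucc 0, .ofNat 1, .ofNat 0, .ofNat 0⟩ ⟨.negSucc 110, .negSucc 16,
  .ofNat 128, .ofNat 0⟩, .q ⟨.negSucc 0, .ofNat 1, .ofNat 0, .ofNat 0⟩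
  ⟨.ofNat 961, .ofNat 959, .negSucc 1919, .ofNat 0⟩, .l ⟨.ofNat 0, .ofNat 0,
  .negSucc 639, .ofNat 19⟩ ⟨.ofNat 0, .ofNat 0, .ofNat 0, .ofNat 1⟩, .l
  ⟨.ofNat 0, .ofNat 0, .ofNat 384, .ofNat 29⟩ ⟨.ofNat 0, .ofNat 0, .ofNat 0,
  .ofNat 1⟩],
[.q ⟨.negSucc 0, .ofNat 1, .ofNat 0, .ofNat 0⟩ ⟨.negSucc 1668, .negSucc 250,
  .ofNat 1920, .ofNat 0⟩, .q ⟨.negSucc 0, .ofNat 1, .ofNat 0, .ofNat 0⟩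
  ⟨.ofNat 961, .ofNat 959, .negSucc 1919, .ofNat 0⟩, .l ⟨.ofNat 0, .ofNat 0,
  .negSucc 639, .ofNat 19⟩ ⟨.ofNat 0, .ofNat 0, .ofNat 0, .ofNat 1⟩, .l
  ⟨.ofNat 0, .ofNat 0, .ofNat 40, .ofNat 3⟩ ⟨.ofNat 0, .ofNat 0, .ofNat 0,
  .ofNat 1⟩],
[.l ⟨.ofNat 0, .negSucc 3130, .ofNat 2490, .ofNat 246⟩ ⟨.ofNat 0, .ofNat 0,
  .ofNat 0, .ofNat 1⟩, .l ⟨.ofNat 0, .negSucc 1975, .negSucc 308, .ofNat 20⟩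
  ⟨.ofNat 0, .ofNat 0, .ofNat 0, .ofNat 1⟩, .l ⟨.ofNat 0, .ofNat 3597,
  .negSucc 1750, .negSucc 2⟩ ⟨.ofNat 0, .ofNat 0, .ofNat 0, .ofNat 1⟩],
[.q ⟨.negSucc 0, .ofNat 0, .ofNat 0, .ofNat 1⟩ ⟨.negSucc 2936, .ofNat 2737,
  .ofNat 2917, .negSucc 2716⟩, .q ⟨.negSucc 0, .ofNat 0, .ofNat 0, .ofNat 1⟩
  ⟨.negSucc 26, .ofNat 0, .ofNat 400, .negSucc 372⟩, .q ⟨.negSucc 0, .ofNat
  0, .ofNat 0, .ofNat 1⟩ ⟨.ofNat 3417, .negSucc 3833, .ofNat 1139, .negSucc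
  721⟩, .q ⟨.negSucc 0, .ofNat 0, .ofNat 0, .ofNat 1⟩ ⟨.ofNat 2719, .negSucc
  2827, .negSucc 2827, .ofNat 2937⟩, .q ⟨.negSucc 0, .ofNat 0, .ofNat 0,
  .ofNat 1⟩ ⟨.negSucc 814, .ofNat 770, .negSucc 637, .ofNat 683⟩],
[.l ⟨.ofNat 0, .ofNat 20, .ofNat 0, .negSucc 15⟩ ⟨.ofNat 0, .ofNat 20,
  .ofNat 0, .ofNat 16⟩, .l ⟨.ofNat 0, .negSucc 19, .ofNat 0, .ofNat 19⟩
  ⟨.ofNat 0, .ofNat 20, .ofNat 0, .ofNat 19⟩, .l ⟨.ofNat 0, .ofNat 20,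
  .ofNat 0, .negSucc 15⟩ ⟨.ofNat 0, .ofNat 436, .ofNat 3976, .ofNat 3985⟩,
  .l ⟨.ofNat 0, .ofNat 20, .ofNat 0, .negSucc 18⟩ ⟨.ofNat 0, .ofNat 436,
  .ofNat 3976, .ofNat 3985⟩, .l ⟨.ofNat 0, .ofNat 20, .ofNat 0, .negSucc 15⟩
  ⟨.ofNat 0, .negSucc 435, .negSucc 3975, .negSucc 4530⟩, .l ⟨.ofNat 0,
  .ofNat 20, .ofNat 0, .negSucc 18⟩ ⟨.ofNat 0, .negSucc 435, .negSucc 3975,
  .negSucc 4530⟩, .l ⟨.ofNat 0, .ofNat 20, .ofNat 0, .negSucc 15⟩ ⟨.ofNat 0,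
  .ofNat 3160, .ofNat 2453, .ofNat 4894⟩, .l ⟨.ofNat 0, .ofNat 20, .ofNat 0,
  .negSucc 18⟩ ⟨.ofNat 0, .ofNat 3160, .ofNat 2453, .ofNat 4894⟩],
[.q ⟨.negSucc 25, .negSucc 20, .ofNat 15, .ofNat 32⟩ ⟨.ofNat 10328, .negSucc
  21859, .ofNat 2444, .ofNat 9088⟩, .q ⟨.negSucc 25, .negSucc 20, .ofNat 15,
  .ofNat 32⟩ ⟨.ofNat 5804, .negSucc 147, .negSucc 12311, .ofNat 6656⟩, .q
  ⟨.negSucc 25, .negSucc 20, .ofNat 15, .ofNat 32⟩ ⟨.negSucc 487, .ofNat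
  1052, .negSucc 179, .negSucc 383⟩, .q ⟨.negSucc 25, .negSucc 20, .ofNat
  15, .ofNat 32⟩ ⟨.negSucc 5235, .negSucc 1267, .ofNat 12392, .negSucc
  5887⟩],
[.q ⟨.negSucc 18, .negSucc 15, .ofNat 11, .ofNat 24⟩ ⟨.ofNat 11732, .negSucc
  15431, .negSucc 7435, .ofNat 11136⟩, .q ⟨.negSucc 18, .negSucc 15, .ofNat
  11, .ofNat 24⟩ ⟨.ofNat 3388, .ofNat 4164, .negSucc 12159, .ofNat 4608⟩, .q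
  ⟨.negSucc 18, .negSucc 15, .ofNat 11, .ofNat 24⟩ ⟨.negSucc 11039, .ofNat
  21788, .negSucc 1819, .negSucc 8927⟩, .q ⟨.negSucc 18, .negSucc 15, .ofNat
  11, .ofNat 24⟩ ⟨.negSucc 4427, .ofNat 3008, .ofNat 5932, .negSucc 4511⟩,
  .q ⟨.negSucc 18, .negSucc 15, .ofNat 11, .ofNat 24⟩ ⟨.negSucc 1095,
  .negSucc 8115, .ofNat 11612, .negSucc 2399⟩],
[.q ⟨.negSucc 18, .negSucc 15, .ofNat 11, .ofNat 24⟩ ⟨.negSucc 1439,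
  .negSucc 7595, .ofNat 11724, .negSucc 2687⟩, .q ⟨.negSucc 18, .negSucc 15,
  .ofNat 11, .ofNat 24⟩ ⟨.ofNat 3144, .negSucc 535, .negSucc 6159, .ofNat
  3552⟩, .q ⟨.negSucc 18, .negSucc 15, .ofNat 11, .ofNat 24⟩ ⟨.negSucc 4915,
  .ofNat 16332, .negSucc 8439, .negSucc 2975⟩, .q ⟨.negSucc 18, .negSucc 15,
  .ofNat 11, .ofNat 24⟩ ⟨.negSucc 4427, .ofNat 3008, .ofNat 5932, .negSucc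
  4511⟩],
[.q ⟨.negSucc 122, .negSucc 116, .ofNat 240, .ofNat 0⟩ ⟨.negSucc 356, .ofNat
  117, .ofNat 240, .ofNat 0⟩, .q ⟨.ofNat 119, .ofNat 121, .negSucc 239,
  .ofNat 0⟩ ⟨.negSucc 360, .ofNat 121, .ofNat 240, .ofNat 0⟩, .q ⟨.ofNat
  357, .negSucc 116, .negSucc 239, .ofNat 0⟩ ⟨.ofNat 403, .ofNat 397, .ofNat
  0, .negSucc 799⟩, .q ⟨.ofNat 361, .negSucc 120, .negSucc 239, .ofNat 0⟩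
  ⟨.ofNat 403, .ofNat 397, .ofNat 0, .negSucc 799⟩, .q ⟨.ofNat 357, .negSucc
  116, .negSucc 239, .ofNat 0⟩ ⟨.negSucc 2090, .negSucc 2686, .ofNat 875,
  .ofNat 3903⟩, .q ⟨.ofNat 361, .negSucc 120, .negSucc 239, .ofNat 0⟩
  ⟨.negSucc 2090, .negSucc 2686, .ofNat 875, .ofNat 3903⟩, .q ⟨.ofNat 357,
  .negSucc 116, .negSucc 239, .ofNat 0⟩ ⟨.ofNat 2625, .ofNat 2615, .negSucc
  3685, .negSucc 1553⟩, .q ⟨.ofNat 361, .negSucc 120, .negSucc 239, .ofNat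
  0⟩ ⟨.ofNat 2625, .ofNat 2615, .negSucc 3685, .negSucc 1553⟩],
[.q ⟨.negSucc 38, .negSucc 40, .ofNat 80, .ofNat 0⟩ ⟨.negSucc 120, .ofNat
  41, .ofNat 80, .ofNat 0⟩, .q ⟨.ofNat 35, .ofNat 45, .negSucc 79, .ofNat 0⟩
  ⟨.negSucc 124, .ofNat 45, .ofNat 80, .ofNat 0⟩, .q ⟨.ofNat 121, .negSucc
  40, .negSucc 79, .ofNat 0⟩ ⟨.ofNat 6190, .negSucc 6031, .ofNat 1333,
  .negSucc 1490⟩, .q ⟨.ofNat 125, .negSucc 44, .negSucc 79, .ofNat 0⟩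
  ⟨.ofNat 6190, .negSucc 6031, .ofNat 1333, .negSucc 1490⟩, .q ⟨.ofNat 121,
  .negSucc 40, .negSucc 79, .ofNat 0⟩ ⟨.negSucc 615, .negSucc 261, .negSucc
  2354, .ofNat 3233⟩, .q ⟨.ofNat 125, .negSucc 44, .negSucc 79, .ofNat 0⟩
  ⟨.negSucc 615, .negSucc 261, .negSucc 2354, .ofNat 3233⟩, .q ⟨.ofNat 121,
  .negSucc 40, .negSucc 79, .ofNat 0⟩ ⟨.ofNat 3318, .ofNat 1579, .negSucc
  1031, .negSucc 3864⟩, .q ⟨.ofNat 125, .negSucc 44, .negSucc 79, .ofNat 0⟩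
  ⟨.ofNat 3318, .ofNat 1579, .negSucc 1031, .negSucc 3864⟩, .q ⟨.ofNat 121,
  .negSucc 40, .negSucc 79, .ofNat 0⟩ ⟨.ofNat 894, .ofNat 1275, .negSucc
  3696, .ofNat 1528⟩, .q ⟨.ofNat 125, .negSucc 44, .negSucc 79, .ofNat 0⟩
  ⟨.ofNat 894, .ofNat 1275, .negSucc 3696, .ofNat 1528⟩],
[.l ⟨.ofNat 0, .negSucc 3999, .ofNat 0, .ofNat 801⟩ ⟨.ofNat 0, .ofNat 0,
  .ofNat 0, .ofNat 1⟩, .l ⟨.ofNat 0, .negSucc 1413, .negSucc 1413, .negSucc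
  596⟩ ⟨.ofNat 0, .ofNat 0, .ofNat 0, .ofNat 1⟩, .l ⟨.ofNat 0, .ofNat 707,
  .negSucc 706, .negSucc 38⟩ ⟨.ofNat 0, .ofNat 0, .ofNat 0, .ofNat 1⟩, .l
  ⟨.ofNat 0, .ofNat 15, .ofNat 4000, .ofNat 2518⟩ ⟨.ofNat 0, .ofNat 0,
  .ofNat 0, .ofNat 1⟩],
[.q ⟨.negSucc 0, .ofNat 0, .ofNat 0, .ofNat 1⟩ ⟨.ofNat 59, .ofNat 0,
  .negSucc 799, .ofNat 741⟩, .q ⟨.negSucc 0, .ofNat 0, .ofNat 0, .ofNat 1⟩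
  ⟨.negSucc 3198, .ofNat 3776, .negSucc 1319, .ofNat 743⟩, .q ⟨.negSucc 0,
  .ofNat 0, .ofNat 0, .ofNat 1⟩ ⟨.ofNat 650, .negSucc 1037, .ofNat 837,
  .negSucc 448⟩, .q ⟨.negSucc 0, .ofNat 0, .ofNat 0, .ofNat 1⟩ ⟨.ofNat 2748,
  .negSucc 2965, .negSucc 2682, .ofNat 2901⟩],
[.q ⟨.negSucc 0, .ofNat 0, .ofNat 0, .ofNat 1⟩ ⟨.negSucc 3, .ofNat 0, .ofNat
  25, .negSucc 20⟩, .q ⟨.negSucc 0, .ofNat 0, .ofNat 0, .ofNat 1⟩ ⟨.ofNat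
  833, .negSucc 861, .negSucc 1016, .ofNat 1046⟩, .q ⟨.negSucc 0, .ofNat 0,
  .ofNat 0, .ofNat 1⟩ ⟨.ofNat 253, .ofNat 48, .negSucc 3999, .ofNat 3699⟩,
  .q ⟨.negSucc 0, .ofNat 0, .ofNat 0, .ofNat 1⟩ ⟨.negSucc 3328, .ofNat 3833,
  .negSucc 1142, .ofNat 639⟩],
[.q ⟨.negSucc 0, .ofNat 1, .ofNat 0, .ofNat 0⟩ ⟨.negSucc 1842, .negSucc 76,
  .ofNat 1920, .ofNat 0⟩, .q ⟨.negSucc 0, .ofNat 1, .ofNat 0, .ofNat 0⟩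
  ⟨.ofNat 961, .ofNat 959, .negSucc 1919, .ofNat 0⟩, .l ⟨.ofNat 0, .ofNat 0,
  .negSucc 959, .ofNat 7⟩ ⟨.ofNat 0, .ofNat 0, .ofNat 0, .ofNat 1⟩, .l
  ⟨.ofNat 0, .ofNat 0, .ofNat 960, .ofNat 49⟩ ⟨.ofNat 0, .ofNat 0, .ofNat 0,
  .ofNat 1⟩],
[.q ⟨.negSucc 0, .ofNat 1, .ofNat 0, .ofNat 0⟩ ⟨.negSucc 916, .negSucc 42,
  .ofNat 960, .ofNat 0⟩, .q ⟨.negSucc 0, .ofNat 1, .ofNat 0, .ofNat 0⟩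
  ⟨.ofNat 961, .ofNat 959, .negSucc 1919, .ofNat 0⟩, .l ⟨.ofNat 0, .ofNat 0,
  .negSucc 1919, .ofNat 19⟩ ⟨.ofNat 0, .ofNat 0, .ofNat 0, .ofNat 1⟩, .l
  ⟨.ofNat 0, .ofNat 0, .ofNat 1920, .ofNat 103⟩ ⟨.ofNat 0, .ofNat 0, .ofNat
  0, .ofNat 1⟩],
[.q ⟨.negSucc 0, .ofNat 1, .ofNat 0, .ofNat 0⟩ ⟨.negSucc 288, .negSucc 30,
  .ofNat 320, .ofNat 0⟩, .q ⟨.negSucc 0, .ofNat 1, .ofNat 0, .ofNat 0⟩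
  ⟨.ofNat 961, .ofNat 959, .negSucc 1919, .ofNat 0⟩, .l ⟨.ofNat 0, .ofNat 0,
  .negSucc 639, .ofNat 13⟩ ⟨.ofNat 0, .ofNat 0, .ofNat 0, .ofNat 1⟩, .l
  ⟨.ofNat 0, .ofNat 0, .ofNat 960, .ofNat 61⟩ ⟨.ofNat 0, .ofNat 0, .ofNat 0,
  .ofNat 1⟩],
[.l ⟨.ofNat 0, .ofNat 40, .ofNat 0, .negSucc 32⟩ ⟨.ofNat 0, .ofNat 40,
  .ofNat 0, .ofNat 33⟩, .l ⟨.ofNat 0, .negSucc 39, .ofNat 0, .ofNat 37⟩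
  ⟨.ofNat 0, .ofNat 40, .ofNat 0, .ofNat 37⟩, .l ⟨.ofNat 0, .ofNat 40,
  .ofNat 0, .negSucc 32⟩ ⟨.ofNat 0, .ofNat 1432, .ofNat 3735, .ofNat 4626⟩,
  .l ⟨.ofNat 0, .ofNat 40, .ofNat 0, .negSucc 36⟩ ⟨.ofNat 0, .ofNat 1432,
  .ofNat 3735, .ofNat 4626⟩, .l ⟨.ofNat 0, .ofNat 40, .ofNat 0, .negSucc 32⟩
  ⟨.ofNat 0, .negSucc 1431, .negSucc 3734, .negSucc 5122⟩, .l ⟨.ofNat 0,
  .ofNat 40, .ofNat 0, .negSucc 36⟩ ⟨.ofNat 0, .negSucc 1431, .negSucc 3734,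
  .negSucc 5122⟩, .l ⟨.ofNat 0, .ofNat 40, .ofNat 0, .negSucc 32⟩ ⟨.ofNat 0,
  .ofNat 2842, .ofNat 2815, .ofNat 4999⟩, .l ⟨.ofNat 0, .ofNat 40, .ofNat 0,
  .negSucc 36⟩ ⟨.ofNat 0, .ofNat 2842, .ofNat 2815, .ofNat 4999⟩],
[.q ⟨.negSucc 9, .negSucc 9, .ofNat 20, .ofNat 0⟩ ⟨.negSucc 29, .ofNat 10,
  .ofNat 20, .ofNat 0⟩, .q ⟨.ofNat 9, .ofNat 11, .negSucc 19, .ofNat 0⟩
  ⟨.negSucc 30, .ofNat 11, .ofNat 20, .ofNat 0⟩, .q ⟨.ofNat 30, .negSucc 9,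
  .negSucc 19, .ofNat 0⟩ ⟨.ofNat 1114, .ofNat 1086, .negSucc 210, .negSucc
  1988⟩, .q ⟨.ofNat 31, .negSucc 10, .negSucc 19, .ofNat 0⟩ ⟨.ofNat 1114,
  .ofNat 1086, .negSucc 210, .negSucc 1988⟩, .q ⟨.ofNat 30, .negSucc 9,
  .negSucc 19, .ofNat 0⟩ ⟨.negSucc 1328, .negSucc 2788, .ofNat 120, .ofNat
  3998⟩, .q ⟨.ofNat 31, .negSucc 10, .negSucc 19, .ofNat 0⟩ ⟨.negSucc 1328,
  .negSucc 2788, .ofNat 120, .ofNat 3998⟩, .q ⟨.ofNat 30, .negSucc 9,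
  .negSucc 19, .ofNat 0⟩ ⟨.ofNat 905, .ofNat 899, .negSucc 627, .negSucc
  1175⟩, .q ⟨.ofNat 31, .negSucc 10, .negSucc 19, .ofNat 0⟩ ⟨.ofNat 905,
  .ofNat 899, .negSucc 627, .negSucc 1175⟩],
[.q ⟨.negSucc 8, .negSucc 10, .ofNat 20, .ofNat 0⟩ ⟨.negSucc 30, .ofNat 11,
  .ofNat 20, .ofNat 0⟩, .q ⟨.ofNat 7, .ofNat 13, .negSucc 19, .ofNat 0⟩
  ⟨.negSucc 32, .ofNat 13, .ofNat 20, .ofNat 0⟩, .q ⟨.ofNat 31, .negSucc 10,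
  .negSucc 19, .ofNat 0⟩ ⟨.ofNat 12019, .negSucc 8018, .ofNat 0, .negSucc
  3999⟩, .q ⟨.ofNat 33, .negSucc 12, .negSucc 19, .ofNat 0⟩ ⟨.ofNat 12019,
  .negSucc 8018, .ofNat 0, .negSucc 3999⟩, .q ⟨.ofNat 31, .negSucc 10,
  .negSucc 19, .ofNat 0⟩ ⟨.ofNat 143, .negSucc 4142, .ofNat 0, .ofNat 4000⟩,
  .q ⟨.ofNat 33, .negSucc 12, .negSucc 19, .ofNat 0⟩ ⟨.ofNat 143, .negSucc
  4142, .ofNat 0, .ofNat 4000⟩, .q ⟨.ofNat 31, .negSucc 10, .negSucc 19,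
  .ofNat 0⟩ ⟨.ofNat 2527, .ofNat 2848, .negSucc 3568, .negSucc 1805⟩, .q
  ⟨.ofNat 33, .negSucc 12, .negSucc 19, .ofNat 0⟩ ⟨.ofNat 2527, .ofNat 2848,
  .negSucc 3568, .negSucc 1805⟩],
[.l ⟨.ofNat 0, .ofNat 80, .ofNat 0, .negSucc 74⟩ ⟨.ofNat 0, .ofNat 80,
  .ofNat 0, .ofNat 75⟩, .l ⟨.ofNat 0, .negSucc 79, .ofNat 0, .ofNat 79⟩
  ⟨.ofNat 0, .ofNat 80, .ofNat 0, .ofNat 79⟩, .l ⟨.ofNat 0, .ofNat 80,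
  .ofNat 0, .negSucc 74⟩ ⟨.ofNat 0, .ofNat 439, .ofNat 3976, .ofNat 3876⟩,
  .l ⟨.ofNat 0, .ofNat 80, .ofNat 0, .negSucc 78⟩ ⟨.ofNat 0, .ofNat 439,
  .ofNat 3976, .ofNat 3876⟩, .l ⟨.ofNat 0, .ofNat 80, .ofNat 0, .negSucc 74⟩
  ⟨.ofNat 0, .negSucc 1372, .negSucc 3756, .negSucc 5339⟩, .l ⟨.ofNat 0,
  .ofNat 80, .ofNat 0, .negSucc 78⟩ ⟨.ofNat 0, .negSucc 1372, .negSucc 3756,
  .negSucc 5339⟩],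
[.q ⟨.ofNat 11, .negSucc 12, .negSucc 17, .ofNat 20⟩ ⟨.ofNat 590, .negSucc
  830, .ofNat 141, .ofNat 100⟩, .q ⟨.ofNat 11, .negSucc 12, .negSucc 17,
  .ofNat 20⟩ ⟨.ofNat 4681, .negSucc 1406, .negSucc 1553, .negSucc 1719⟩, .q
  ⟨.ofNat 11, .negSucc 12, .negSucc 17, .ofNat 20⟩ ⟨.negSucc 102, .ofNat
  3406, .negSucc 1842, .negSucc 1459⟩, .q ⟨.ofNat 11, .negSucc 12, .negSucc
  17, .ofNat 20⟩ ⟨.negSucc 4371, .ofNat 3422, .ofNat 210, .ofNat 740⟩, .q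
  ⟨.ofNat 11, .negSucc 12, .negSucc 17, .ofNat 20⟩ ⟨.negSucc 4128, .ofNat
  267, .ofNat 1762, .ofNat 2100⟩],
[.q ⟨.negSucc 37, .negSucc 41, .ofNat 80, .ofNat 0⟩ ⟨.negSucc 121, .ofNat
  42, .ofNat 80, .ofNat 0⟩, .q ⟨.ofNat 35, .ofNat 45, .negSucc 79, .ofNat 0⟩
  ⟨.negSucc 124, .ofNat 45, .ofNat 80, .ofNat 0⟩, .q ⟨.ofNat 122, .negSucc
  41, .negSucc 79, .ofNat 0⟩ ⟨.ofNat 830, .negSucc 127, .ofNat 1019,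
  .negSucc 1720⟩, .q ⟨.ofNat 125, .negSucc 44, .negSucc 79, .ofNat 0⟩
  ⟨.ofNat 830, .negSucc 127, .ofNat 1019, .negSucc 1720⟩, .q ⟨.ofNat 122,
  .negSucc 41, .negSucc 79, .ofNat 0⟩ ⟨.negSucc 888, .negSucc 514, .negSucc
  2037, .ofNat 3442⟩, .q ⟨.ofNat 125, .negSucc 44, .negSucc 79, .ofNat 0⟩
  ⟨.negSucc 888, .negSucc 514, .negSucc 2037, .ofNat 3442⟩],
[.q ⟨.negSucc 25, .negSucc 20, .ofNat 15, .ofNat 32⟩ ⟨.ofNat 312, .negSucc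
  5403, .ofNat 5476, .negSucc 383⟩, .q ⟨.negSucc 25, .negSucc 20, .ofNat 15,
  .ofNat 32⟩ ⟨.ofNat 4340, .ofNat 2560, .negSucc 12275, .ofNat 5376⟩, .q
  ⟨.negSucc 25, .negSucc 20, .ofNat 15, .ofNat 32⟩ ⟨.negSucc 6323, .ofNat
  10732, .ofNat 840, .negSucc 5247⟩, .q ⟨.negSucc 25, .negSucc 20, .ofNat
  15, .ofNat 32⟩ ⟨.negSucc 4383, .negSucc 2843, .ofNat 12348, .negSucc
  5119⟩],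
[.q ⟨.negSucc 18, .negSucc 15, .ofNat 11, .ofNat 24⟩ ⟨.ofNat 9392, .negSucc
  21043, .ofNat 4068, .ofNat 7584⟩, .q ⟨.negSucc 18, .negSucc 15, .ofNat 11,
  .ofNat 24⟩ ⟨.ofNat 3836, .ofNat 3400, .negSucc 12227, .ofNat 4992⟩, .q
  ⟨.negSucc 18, .negSucc 15, .ofNat 11, .ofNat 24⟩ ⟨.negSucc 6443, .ofNat
  10736, .ofNat 1276, .negSucc 5567⟩, .q ⟨.negSucc 18, .negSucc 15, .ofNat
  11, .ofNat 24⟩ ⟨.negSucc 2463, .negSucc 843, .ofNat 6188, .negSucc 2879⟩],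
[.q ⟨.negSucc 121, .negSucc 117, .ofNat 240, .ofNat 0⟩ ⟨.negSucc 357, .ofNat
  118, .ofNat 240, .ofNat 0⟩, .q ⟨.ofNat 117, .ofNat 123, .negSucc 239,
  .ofNat 0⟩ ⟨.negSucc 362, .ofNat 123, .ofNat 240, .ofNat 0⟩, .q ⟨.ofNat
  358, .negSucc 117, .negSucc 239, .ofNat 0⟩ ⟨.ofNat 2492, .ofNat 2460,
  .negSucc 1108, .negSucc 3842⟩, .q ⟨.ofNat 363, .negSucc 122, .negSucc 239,
  .ofNat 0⟩ ⟨.ofNat 2492, .ofNat 2460, .negSucc 1108, .negSucc 3842⟩, .q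
  ⟨.ofNat 358, .negSucc 117, .negSucc 239, .ofNat 0⟩ ⟨.negSucc 2029,
  .negSucc 2733, .ofNat 857, .ofNat 3907⟩, .q ⟨.ofNat 363, .negSucc 122,
  .negSucc 239, .ofNat 0⟩ ⟨.negSucc 2029, .negSucc 2733, .ofNat 857, .ofNat
  3907⟩, .q ⟨.ofNat 358, .negSucc 117, .negSucc 239, .ofNat 0⟩ ⟨.ofNat 1368,
  .ofNat 1370, .negSucc 1722, .negSucc 1014⟩, .q ⟨.ofNat 363, .negSucc 122,
  .negSucc 239, .ofNat 0⟩ ⟨.ofNat 1368, .ofNat 1370, .negSucc 1722, .negSucc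
  1014⟩],
[.q ⟨.negSucc 248, .negSucc 230, .ofNat 480, .ofNat 0⟩ ⟨.negSucc 710, .ofNat
  231, .ofNat 480, .ofNat 0⟩, .q ⟨.ofNat 241, .ofNat 239, .negSucc 479,
  .ofNat 0⟩ ⟨.negSucc 718, .ofNat 239, .ofNat 480, .ofNat 0⟩, .q ⟨.ofNat
  711, .negSucc 230, .negSucc 479, .ofNat 0⟩ ⟨.ofNat 2723, .negSucc 1722,
  .ofNat 0, .negSucc 999⟩, .q ⟨.ofNat 719, .negSucc 238, .negSucc 479,
  .ofNat 0⟩ ⟨.ofNat 2723, .negSucc 1722, .ofNat 0, .negSucc 999⟩, .q ⟨.ofNat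
  711, .negSucc 230, .negSucc 479, .ofNat 0⟩ ⟨.negSucc 8, .negSucc 10,
  .ofNat 0, .ofNat 20⟩, .q ⟨.ofNat 719, .negSucc 238, .negSucc 479, .ofNat
  0⟩ ⟨.negSucc 8, .negSucc 10, .ofNat 0, .ofNat 20⟩, .q ⟨.ofNat 711,
  .negSucc 230, .negSucc 479, .ofNat 0⟩ ⟨.ofNat 2603, .ofNat 2591, .negSucc
  3717, .negSucc 1475⟩, .q ⟨.ofNat 719, .negSucc 238, .negSucc 479, .ofNat
  0⟩ ⟨.ofNat 2603, .ofNat 2591, .negSucc 3717, .negSucc 1475⟩],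
[.q ⟨.negSucc 0, .ofNat 1, .ofNat 0, .ofNat 0⟩ ⟨.negSucc 612, .negSucc 26,
  .ofNat 640, .ofNat 0⟩, .q ⟨.negSucc 0, .ofNat 1, .ofNat 0, .ofNat 0⟩
  ⟨.ofNat 961, .ofNat 959, .negSucc 1919, .ofNat 0⟩, .l ⟨.ofNat 0, .ofNat 0,
  .negSucc 1919, .ofNat 19⟩ ⟨.ofNat 0, .ofNat 0, .ofNat 0, .ofNat 1⟩, .l
  ⟨.ofNat 0, .ofNat 0, .ofNat 96, .ofNat 5⟩ ⟨.ofNat 0, .ofNat 0, .ofNat 0,
  .ofNat 1⟩],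
[.q ⟨.negSucc 0, .ofNat 1, .ofNat 0, .ofNat 0⟩ ⟨.negSucc 918, .negSucc 40,
  .ofNat 960, .ofNat 0⟩, .q ⟨.negSucc 0, .ofNat 1, .ofNat 0, .ofNat 0⟩
  ⟨.ofNat 961, .ofNat 959, .negSucc 1919, .ofNat 0⟩, .l ⟨.ofNat 0, .ofNat 0,
  .negSucc 1919, .ofNat 19⟩ ⟨.ofNat 0, .ofNat 0, .ofNat 0, .ofNat 1⟩, .l
  ⟨.ofNat 0, .ofNat 0, .ofNat 320, .ofNat 17⟩ ⟨.ofNat 0, .ofNat 0, .ofNat 0,
  .ofNat 1⟩],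
[.l ⟨.ofNat 0, .negSucc 364, .negSucc 3982, .negSucc 339⟩ ⟨.ofNat 0, .ofNat
  0, .ofNat 0, .ofNat 1⟩, .l ⟨.ofNat 0, .ofNat 3045, .ofNat 2594, .ofNat
  2396⟩ ⟨.ofNat 0, .ofNat 0, .ofNat 0, .ofNat 1⟩, .l ⟨.ofNat 0, .negSucc
  2823, .ofNat 2833, .ofNat 2655⟩ ⟨.ofNat 0, .ofNat 0, .ofNat 0, .ofNat 1⟩,
  .l ⟨.ofNat 0, .negSucc 3986, .negSucc 325, .negSucc 168⟩ ⟨.ofNat 0, .ofNat
  0, .ofNat 0, .ofNat 1⟩],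
[.q ⟨.negSucc 0, .ofNat 0, .ofNat 0, .ofNat 1⟩ ⟨.ofNat 1107, .negSucc 1324,
  .ofNat 1498, .negSucc 1279⟩, .q ⟨.negSucc 0, .ofNat 0, .ofNat 0, .ofNat 1⟩
  ⟨.ofNat 3033, .negSucc 3152, .negSucc 2460, .ofNat 2581⟩, .q ⟨.negSucc 0,
  .ofNat 0, .ofNat 0, .ofNat 1⟩ ⟨.negSucc 2560, .ofNat 2707, .negSucc 2944,
  .ofNat 2799⟩, .q ⟨.negSucc 0, .ofNat 0, .ofNat 0, .ofNat 1⟩ ⟨.negSucc 377,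
  .ofNat 15, .ofNat 4000, .negSucc 3636⟩],
[.q ⟨.negSucc 0, .ofNat 0, .ofNat 0, .ofNat 1⟩ ⟨.ofNat 1652, .negSucc 1474,
  .negSucc 3717, .ofNat 3541⟩, .q ⟨.negSucc 0, .ofNat 0, .ofNat 0, .ofNat 1⟩
  ⟨.negSucc 2912, .ofNat 2828, .ofNat 2828, .negSucc 2742⟩, .q ⟨.negSucc 0,
  .ofNat 0, .ofNat 0, .ofNat 1⟩ ⟨.ofNat 1082, .negSucc 1510, .ofNat 3704,
  .negSucc 3274⟩],
[.q ⟨.negSucc 0, .ofNat 0, .ofNat 0, .ofNat 1⟩ ⟨.negSucc 846, .ofNat 1216,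
  .negSucc 3810, .ofNat 3442⟩, .q ⟨.negSucc 0, .ofNat 0, .ofNat 0, .ofNat 1⟩
  ⟨.negSucc 535, .ofNat 187, .ofNat 3996, .negSucc 3646⟩, .q ⟨.negSucc 0,
  .ofNat 0, .ofNat 0, .ofNat 1⟩ ⟨.ofNat 2229, .negSucc 2667, .ofNat 2980,
  .negSucc 2540⟩],
[.l ⟨.ofNat 0, .ofNat 20, .ofNat 0, .negSucc 14⟩ ⟨.ofNat 0, .ofNat 20,
  .ofNat 0, .ofNat 15⟩, .l ⟨.ofNat 0, .negSucc 19, .ofNat 0, .ofNat 18⟩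
  ⟨.ofNat 0, .ofNat 20, .ofNat 0, .ofNat 18⟩, .l ⟨.ofNat 0, .ofNat 20,
  .ofNat 0, .negSucc 14⟩ ⟨.ofNat 0, .ofNat 0, .ofNat 250, .ofNat 227⟩, .l
  ⟨.ofNat 0, .ofNat 20, .ofNat 0, .negSucc 17⟩ ⟨.ofNat 0, .ofNat 0, .ofNat
  250, .ofNat 227⟩, .l ⟨.ofNat 0, .ofNat 20, .ofNat 0, .negSucc 14⟩ ⟨.ofNat
  0, .ofNat 0, .negSucc 3999, .negSucc 4120⟩, .l ⟨.ofNat 0, .ofNat 20,
  .ofNat 0, .negSucc 17⟩ ⟨.ofNat 0, .ofNat 0, .negSucc 3999, .negSucc 4120⟩,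
  .l ⟨.ofNat 0, .ofNat 20, .ofNat 0, .negSucc 14⟩ ⟨.ofNat 0, .ofNat 3012,
  .ofNat 2632, .ofNat 4939⟩, .l ⟨.ofNat 0, .ofNat 20, .ofNat 0, .negSucc 17⟩
  ⟨.ofNat 0, .ofNat 3012, .ofNat 2632, .ofNat 4939⟩],
[.q ⟨.negSucc 0, .ofNat 0, .ofNat 0, .ofNat 1⟩ ⟨.negSucc 2337, .ofNat 2843,
  .negSucc 2813, .ofNat 2309⟩, .q ⟨.negSucc 0, .ofNat 0, .ofNat 0, .ofNat 1⟩
  ⟨.negSucc 1848, .ofNat 2000, .ofNat 0, .negSucc 150⟩, .q ⟨.negSucc 0,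
  .ofNat 0, .ofNat 0, .ofNat 1⟩ ⟨.ofNat 3403, .negSucc 3840, .ofNat 1117,
  .negSucc 678⟩],
[.q ⟨.negSucc 266, .negSucc 212, .ofNat 480, .ofNat 0⟩ ⟨.negSucc 692, .ofNat
  213, .ofNat 480, .ofNat 0⟩, .q ⟨.ofNat 259, .ofNat 221, .negSucc 479,
  .ofNat 0⟩ ⟨.negSucc 700, .ofNat 221, .ofNat 480, .ofNat 0⟩, .q ⟨.ofNat
  693, .negSucc 212, .negSucc 479, .ofNat 0⟩ ⟨.ofNat 461, .ofNat 3539,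
  .ofNat 0, .negSucc 3999⟩, .q ⟨.ofNat 701, .negSucc 220, .negSucc 479,
  .ofNat 0⟩ ⟨.ofNat 461, .ofNat 3539, .ofNat 0, .negSucc 3999⟩, .q ⟨.ofNat
  693, .negSucc 212, .negSucc 479, .ofNat 0⟩ ⟨.negSucc 8, .negSucc 115,
  .ofNat 0, .ofNat 125⟩, .q ⟨.ofNat 701, .negSucc 220, .negSucc 479, .ofNat
  0⟩ ⟨.negSucc 8, .negSucc 115, .ofNat 0, .ofNat 125⟩],
[.l ⟨.ofNat 0, .negSucc 2613, .ofNat 3027, .ofNat 366⟩ ⟨.ofNat 0, .ofNat 0,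
  .ofNat 0, .ofNat 1⟩, .l ⟨.ofNat 0, .negSucc 3993, .negSucc 222, .ofNat 84⟩
  ⟨.ofNat 0, .ofNat 0, .ofNat 0, .ofNat 1⟩, .l ⟨.ofNat 0, .ofNat 142,
  .negSucc 3996, .negSucc 389⟩ ⟨.ofNat 0, .ofNat 0, .ofNat 0, .ofNat 1⟩, .l
  ⟨.ofNat 0, .ofNat 3632, .ofNat 1676, .ofNat 3363⟩ ⟨.ofNat 0, .ofNat 0,
  .ofNat 0, .ofNat 1⟩, .l ⟨.ofNat 0, .ofNat 275, .ofNat 1981, .ofNat 1221⟩
  ⟨.ofNat 0, .ofNat 0, .ofNat 0, .ofNat 1⟩],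
[.l ⟨.ofNat 0, .ofNat 0, .negSucc 1999, .negSucc 208⟩ ⟨.ofNat 0, .ofNat 0,
  .ofNat 0, .ofNat 1⟩, .l ⟨.ofNat 0, .ofNat 2000, .ofNat 0, .ofNat 911⟩
  ⟨.ofNat 0, .ofNat 0, .ofNat 0, .ofNat 1⟩, .l ⟨.ofNat 0, .ofNat 553, .ofNat
  1922, .ofNat 1666⟩ ⟨.ofNat 0, .ofNat 0, .ofNat 0, .ofNat 1⟩, .l ⟨.ofNat 0,
  .negSucc 999, .ofNat 0, .ofNat 29⟩ ⟨.ofNat 0, .ofNat 0, .ofNat 0, .ofNat
  1⟩, .l ⟨.ofNat 0, .negSucc 3384, .negSucc 2129, .negSucc 133⟩ ⟨.ofNat 0,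
  .ofNat 0, .ofNat 0, .ofNat 1⟩],
[.l ⟨.ofNat 0, .negSucc 1824, .ofNat 3559, .ofNat 3253⟩ ⟨.ofNat 0, .ofNat 0,
  .ofNat 0, .ofNat 1⟩, .l ⟨.ofNat 0, .negSucc 3380, .ofNat 2138, .ofNat
  2036⟩ ⟨.ofNat 0, .ofNat 0, .ofNat 0, .ofNat 1⟩, .l ⟨.ofNat 0, .ofNat 1327,
  .negSucc 3773, .negSucc 3194⟩ ⟨.ofNat 0, .ofNat 0, .ofNat 0, .ofNat 1⟩, .l
  ⟨.ofNat 0, .ofNat 3486, .ofNat 1962, .ofNat 1861⟩ ⟨.ofNat 0, .ofNat 0,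
  .ofNat 0, .ofNat 1⟩],
[.q ⟨.negSucc 0, .ofNat 0, .ofNat 0, .ofNat 1⟩ ⟨.ofNat 348, .negSucc 817,
  .ofNat 1053, .negSucc 582⟩, .q ⟨.negSucc 0, .ofNat 0, .ofNat 0, .ofNat 1⟩
  ⟨.ofNat 311, .ofNat 569, .negSucc 3958, .ofNat 3079⟩, .q ⟨.negSucc 0,
  .ofNat 0, .ofNat 0, .ofNat 1⟩ ⟨.negSucc 2684, .ofNat 3280, .negSucc 2288,
  .ofNat 1694⟩, .q ⟨.negSucc 0, .ofNat 0, .ofNat 0, .ofNat 1⟩ ⟨.negSucc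
  2642, .ofNat 1113, .ofNat 3842, .negSucc 2311⟩],
[.q ⟨.negSucc 25, .negSucc 20, .ofNat 15, .ofNat 32⟩ ⟨.negSucc 3359, .ofNat
  780, .ofNat 6164, .negSucc 3583⟩, .q ⟨.negSucc 25, .negSucc 20, .ofNat 15,
  .ofNat 32⟩ ⟨.ofNat 12304, .negSucc 21739, .negSucc 1571, .ofNat 11008⟩, .q
  ⟨.negSucc 25, .negSucc 20, .ofNat 15, .ofNat 32⟩ ⟨.ofNat 2604, .ofNat 484,
  .negSucc 6159, .ofNat 3072⟩, .q ⟨.negSucc 25, .negSucc 20, .ofNat 15,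
  .ofNat 32⟩ ⟨.negSucc 6367, .ofNat 17868, .negSucc 7275, .negSucc 4223⟩],
[.l ⟨.ofNat 0, .ofNat 40, .ofNat 0, .negSucc 32⟩ ⟨.ofNat 0, .ofNat 40,
  .ofNat 0, .ofNat 33⟩, .l ⟨.ofNat 0, .negSucc 39, .ofNat 0, .ofNat 36⟩
  ⟨.ofNat 0, .ofNat 40, .ofNat 0, .ofNat 36⟩, .l ⟨.ofNat 0, .ofNat 40,
  .ofNat 0, .negSucc 32⟩ ⟨.ofNat 0, .ofNat 0, .ofNat 2000, .negSucc 4338⟩,
  .l ⟨.ofNat 0, .ofNat 40, .ofNat 0, .negSucc 35⟩ ⟨.ofNat 0, .ofNat 0,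
  .ofNat 2000, .negSucc 4338⟩, .l ⟨.ofNat 0, .ofNat 40, .ofNat 0, .negSucc
  32⟩ ⟨.ofNat 0, .ofNat 0, .negSucc 3999, .negSucc 3332⟩, .l ⟨.ofNat 0,
  .ofNat 40, .ofNat 0, .negSucc 35⟩ ⟨.ofNat 0, .ofNat 0, .negSucc 3999,
  .negSucc 3332⟩, .l ⟨.ofNat 0, .ofNat 40, .ofNat 0, .negSucc 32⟩ ⟨.ofNat 0,
  .ofNat 284, .ofNat 3990, .ofNat 2801⟩, .l ⟨.ofNat 0, .ofNat 40, .ofNat 0,
  .negSucc 35⟩ ⟨.ofNat 0, .ofNat 284, .ofNat 3990, .ofNat 2801⟩, .l ⟨.ofNat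
  0, .ofNat 40, .ofNat 0, .negSucc 32⟩ ⟨.ofNat 0, .ofNat 571, .negSucc 820,
  .negSucc 206⟩, .l ⟨.ofNat 0, .ofNat 40, .ofNat 0, .negSucc 35⟩ ⟨.ofNat 0,
  .ofNat 571, .negSucc 820, .negSucc 206⟩],
[.q ⟨.negSucc 18, .negSucc 15, .ofNat 11, .ofNat 24⟩ ⟨.negSucc 3591,
  .negSucc 4027, .ofNat 12228, .negSucc 4607⟩, .q ⟨.negSucc 18, .negSucc 15,
  .ofNat 11, .ofNat 24⟩ ⟨.ofNat 5404, .negSucc 10991, .ofNat 980, .ofNat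
  4608⟩, .q ⟨.negSucc 18, .negSucc 15, .ofNat 11, .ofNat 24⟩ ⟨.ofNat 4180,
  .ofNat 2812, .negSucc 12271, .ofNat 5280⟩, .q ⟨.negSucc 18, .negSucc 15,
  .ofNat 11, .ofNat 24⟩ ⟨.negSucc 12567, .ofNat 21820, .ofNat 1500, .negSucc
  10751⟩],
[.q ⟨.negSucc 442, .negSucc 516, .ofNat 960, .ofNat 0⟩ ⟨.negSucc 1476,
  .ofNat 517, .ofNat 960, .ofNat 0⟩, .q ⟨.ofNat 432, .ofNat 528, .negSucc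
  959, .ofNat 0⟩ ⟨.negSucc 1487, .ofNat 528, .ofNat 960, .ofNat 0⟩, .q
  ⟨.ofNat 1477, .negSucc 516, .negSucc 959, .ofNat 0⟩ ⟨.ofNat 553, .negSucc
  240, .ofNat 2668, .negSucc 2979⟩, .q ⟨.ofNat 1488, .negSucc 527, .negSucc
  959, .ofNat 0⟩ ⟨.ofNat 553, .negSucc 240, .ofNat 2668, .negSucc 2979⟩, .q
  ⟨.ofNat 1477, .negSucc 516, .negSucc 959, .ofNat 0⟩ ⟨.negSucc 172, .ofNat
  17, .negSucc 1333, .ofNat 1490⟩, .q ⟨.ofNat 1488, .negSucc 527, .negSucc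
  959, .ofNat 0⟩ ⟨.negSucc 172, .ofNat 17, .negSucc 1333, .ofNat 1490⟩],
[.l ⟨.ofNat 0, .negSucc 3902, .ofNat 877, .ofNat 1329⟩ ⟨.ofNat 0, .ofNat 0,
  .ofNat 0, .ofNat 1⟩, .l ⟨.ofNat 0, .negSucc 3835, .negSucc 1133, .ofNat
  61⟩ ⟨.ofNat 0, .ofNat 0, .ofNat 0, .ofNat 1⟩, .l ⟨.ofNat 0, .ofNat 1370,
  .negSucc 3757, .negSucc 1944⟩ ⟨.ofNat 0, .ofNat 0, .ofNat 0, .ofNat 1⟩, .l
  ⟨.ofNat 0, .ofNat 0, .ofNat 2000, .ofNat 1403⟩ ⟨.ofNat 0, .ofNat 0, .ofNat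
  0, .ofNat 1⟩],
[.l ⟨.ofNat 0, .negSucc 849, .negSucc 3908, .negSucc 2075⟩ ⟨.ofNat 0, .ofNat
  0, .ofNat 0, .ofNat 1⟩, .l ⟨.ofNat 0, .ofNat 3833, .ofNat 1143, .ofNat
  1215⟩ ⟨.ofNat 0, .ofNat 0, .ofNat 0, .ofNat 1⟩, .l ⟨.ofNat 0, .negSucc
  1413, .ofNat 1414, .ofNat 1119⟩ ⟨.ofNat 0, .ofNat 0, .ofNat 0, .ofNat 1⟩,
  .l ⟨.ofNat 0, .negSucc 999, .ofNat 0, .ofNat 199⟩ ⟨.ofNat 0, .ofNat 0,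
  .ofNat 0, .ofNat 1⟩],
[.q ⟨.negSucc 12, .negSucc 26, .ofNat 40, .ofNat 0⟩ ⟨.negSucc 66, .ofNat 27,
  .ofNat 40, .ofNat 0⟩, .q ⟨.ofNat 10, .ofNat 30, .negSucc 39, .ofNat 0⟩
  ⟨.negSucc 69, .ofNat 30, .ofNat 40, .ofNat 0⟩, .q ⟨.ofNat 67, .negSucc 26,
  .negSucc 39, .ofNat 0⟩ ⟨.ofNat 1483, .negSucc 1207, .ofNat 2688, .negSucc
  2962⟩, .q ⟨.ofNat 70, .negSucc 29, .negSucc 39, .ofNat 0⟩ ⟨.ofNat 1483,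
  .negSucc 1207, .ofNat 2688, .negSucc 2962⟩, .q ⟨.ofNat 67, .negSucc 26,
  .negSucc 39, .ofNat 0⟩ ⟨.ofNat 967, .negSucc 1241, .negSucc 2687, .ofNat
  2963⟩, .q ⟨.ofNat 70, .negSucc 29, .negSucc 39, .ofNat 0⟩ ⟨.ofNat 967,
  .negSucc 1241, .negSucc 2687, .ofNat 2963⟩, .q ⟨.ofNat 67, .negSucc 26,
  .negSucc 39, .ofNat 0⟩ ⟨.ofNat 2307, .ofNat 2998, .negSucc 3633, .negSucc
  1670⟩, .q ⟨.ofNat 70, .negSucc 29, .negSucc 39, .ofNat 0⟩ ⟨.ofNat 2307,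
  .ofNat 2998, .negSucc 3633, .negSucc 1670⟩],
[.q ⟨.negSucc 0, .ofNat 0, .ofNat 0, .ofNat 1⟩ ⟨.negSucc 2572, .ofNat 2728,
  .negSucc 2924, .ofNat 2770⟩, .q ⟨.negSucc 0, .ofNat 0, .ofNat 0, .ofNat 1⟩
  ⟨.negSucc 297, .negSucc 69, .ofNat 3999, .negSucc 3630⟩, .q ⟨.negSucc 0,
  .ofNat 0, .ofNat 0, .ofNat 1⟩ ⟨.ofNat 3751, .negSucc 3999, .ofNat 0,
  .ofNat 249⟩],
[.q ⟨.negSucc 0, .ofNat 1, .ofNat 0, .ofNat 0⟩ ⟨.negSucc 608, .negSucc 30,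
  .ofNat 640, .ofNat 0⟩, .q ⟨.negSucc 0, .ofNat 1, .ofNat 0, .ofNat 0⟩
  ⟨.ofNat 961, .ofNat 959, .negSucc 1919, .ofNat 0⟩, .l ⟨.ofNat 0, .ofNat 0,
  .negSucc 1919, .ofNat 19⟩ ⟨.ofNat 0, .ofNat 0, .ofNat 0, .ofNat 1⟩, .l
  ⟨.ofNat 0, .ofNat 0, .ofNat 128, .ofNat 7⟩ ⟨.ofNat 0, .ofNat 0, .ofNat 0,
  .ofNat 1⟩],
[.q ⟨.negSucc 0, .ofNat 1, .ofNat 0, .ofNat 0⟩ ⟨.negSucc 16, .negSucc 2,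
  .ofNat 20, .ofNat 0⟩, .q ⟨.negSucc 0, .ofNat 1, .ofNat 0, .ofNat 0⟩
  ⟨.ofNat 961, .ofNat 959, .negSucc 1919, .ofNat 0⟩, .l ⟨.ofNat 0, .ofNat 0,
  .negSucc 29, .ofNat 1⟩ ⟨.ofNat 0, .ofNat 0, .ofNat 0, .ofNat 1⟩, .l
  ⟨.ofNat 0, .ofNat 0, .ofNat 1920, .ofNat 157⟩ ⟨.ofNat 0, .ofNat 0, .ofNat
  0, .ofNat 1⟩],
[.q ⟨.negSucc 36, .negSucc 42, .ofNat 80, .ofNat 0⟩ ⟨.negSucc 122, .ofNat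
  43, .ofNat 80, .ofNat 0⟩, .q ⟨.ofNat 33, .ofNat 47, .negSucc 79, .ofNat 0⟩
  ⟨.negSucc 126, .ofNat 47, .ofNat 80, .ofNat 0⟩, .q ⟨.ofNat 123, .negSucc
  42, .negSucc 79, .ofNat 0⟩ ⟨.ofNat 2719, .ofNat 2859, .negSucc 2317,
  .negSucc 3259⟩, .q ⟨.ofNat 127, .negSucc 46, .negSucc 79, .ofNat 0⟩
  ⟨.ofNat 2719, .ofNat 2859, .negSucc 2317, .negSucc 3259⟩, .q ⟨.ofNat 123,
  .negSucc 42, .negSucc 79, .ofNat 0⟩ ⟨.negSucc 1235, .negSucc 1404,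
  .negSucc 1180, .ofNat 3822⟩, .q ⟨.ofNat 127, .negSucc 46, .negSucc 79,
  .ofNat 0⟩ ⟨.negSucc 1235, .negSucc 1404, .negSucc 1180, .ofNat 3822⟩],
[.q ⟨.negSucc 36, .negSucc 42, .ofNat 80, .ofNat 0⟩ ⟨.negSucc 122, .ofNat
  43, .ofNat 80, .ofNat 0⟩, .q ⟨.ofNat 34, .ofNat 46, .negSucc 79, .ofNat 0⟩
  ⟨.negSucc 125, .ofNat 46, .ofNat 80, .ofNat 0⟩, .q ⟨.ofNat 123, .negSucc
  42, .negSucc 79, .ofNat 0⟩ ⟨.ofNat 2538, .ofNat 2561, .negSucc 1324,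
  .negSucc 3773⟩, .q ⟨.ofNat 126, .negSucc 45, .negSucc 79, .ofNat 0⟩
  ⟨.ofNat 2538, .ofNat 2561, .negSucc 1324, .negSucc 3773⟩, .q ⟨.ofNat 123,
  .negSucc 42, .negSucc 79, .ofNat 0⟩ ⟨.negSucc 1751, .negSucc 2130,
  .negSucc 114, .ofNat 3998⟩, .q ⟨.ofNat 126, .negSucc 45, .negSucc 79,
  .ofNat 0⟩ ⟨.negSucc 1751, .negSucc 2130, .negSucc 114, .ofNat 3998⟩],
[.q ⟨.ofNat 0, .negSucc 2, .negSucc 1, .ofNat 5⟩ ⟨.ofNat 107, .negSucc 3759,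
  .ofNat 2188, .ofNat 1465⟩, .q ⟨.ofNat 0, .negSucc 2, .negSucc 1, .ofNat 5⟩
  ⟨.ofNat 5448, .negSucc 2307, .negSucc 1174, .negSucc 1964⟩, .q ⟨.ofNat 0,
  .negSucc 2, .negSucc 1, .ofNat 5⟩ ⟨.negSucc 3999, .ofNat 3013, .negSucc
  657, .ofNat 1645⟩, .q ⟨.ofNat 0, .negSucc 2, .negSucc 1, .ofNat 5⟩
  ⟨.negSucc 4529, .negSucc 1693, .ofNat 2449, .ofNat 3775⟩],
[.l ⟨.ofNat 0, .ofNat 80, .ofNat 0, .negSucc 78⟩ ⟨.ofNat 0, .ofNat 80,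
  .ofNat 0, .ofNat 79⟩, .l ⟨.ofNat 0, .negSucc 79, .ofNat 0, .ofNat 82⟩
  ⟨.ofNat 0, .ofNat 80, .ofNat 0, .ofNat 82⟩, .l ⟨.ofNat 0, .ofNat 80,
  .ofNat 0, .negSucc 78⟩ ⟨.ofNat 0, .ofNat 0, .ofNat 2000, .ofNat 1699⟩, .l
  ⟨.ofNat 0, .ofNat 80, .ofNat 0, .negSucc 81⟩ ⟨.ofNat 0, .ofNat 0, .ofNat
  2000, .ofNat 1699⟩, .l ⟨.ofNat 0, .ofNat 80, .ofNat 0, .negSucc 78⟩
  ⟨.ofNat 0, .ofNat 0, .negSucc 3999, .negSucc 4320⟩, .l ⟨.ofNat 0, .ofNat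
  80, .ofNat 0, .negSucc 81⟩ ⟨.ofNat 0, .ofNat 0, .negSucc 3999, .negSucc
  4320⟩],
[.q ⟨.ofNat 11, .negSucc 12, .negSucc 17, .ofNat 20⟩ ⟨.ofNat 4765, .negSucc
  1774, .negSucc 1369, .negSucc 1619⟩, .q ⟨.ofNat 11, .negSucc 12, .negSucc
  17, .ofNat 20⟩ ⟨.ofNat 1855, .ofNat 2218, .negSucc 2152, .negSucc 1919⟩,
  .q ⟨.ofNat 11, .negSucc 12, .negSucc 17, .ofNat 20⟩ ⟨.negSucc 3857, .ofNat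
  3805, .negSucc 246, .ofNat 300⟩, .q ⟨.ofNat 11, .negSucc 12, .negSucc 17,
  .ofNat 20⟩ ⟨.negSucc 1581, .ofNat 667, .ofNat 375, .ofNat 540⟩, .q ⟨.ofNat
  11, .negSucc 12, .negSucc 17, .ofNat 20⟩ ⟨.negSucc 2196, .negSucc 1973,
  .ofNat 2031, .ofNat 2140⟩],
[.l ⟨.ofNat 0, .ofNat 480, .ofNat 0, .negSucc 420⟩ ⟨.ofNat 0, .ofNat 480,
  .ofNat 0, .ofNat 421⟩, .l ⟨.ofNat 0, .negSucc 479, .ofNat 0, .ofNat 430⟩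
  ⟨.ofNat 0, .ofNat 480, .ofNat 0, .ofNat 430⟩, .l ⟨.ofNat 0, .ofNat 480,
  .ofNat 0, .negSucc 420⟩ ⟨.ofNat 0, .ofNat 0, .ofNat 4000, .ofNat 3201⟩, .l
  ⟨.ofNat 0, .ofNat 480, .ofNat 0, .negSucc 429⟩ ⟨.ofNat 0, .ofNat 0, .ofNat
  4000, .ofNat 3201⟩, .l ⟨.ofNat 0, .ofNat 480, .ofNat 0, .negSucc 420⟩
  ⟨.ofNat 0, .ofNat 0, .negSucc 3999, .negSucc 3348⟩, .l ⟨.ofNat 0, .ofNat
  480, .ofNat 0, .negSucc 429⟩ ⟨.ofNat 0, .ofNat 0, .negSucc 3999, .negSucc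
  3348⟩],
[.l ⟨.ofNat 0, .ofNat 40, .ofNat 0, .negSucc 34⟩ ⟨.ofNat 0, .ofNat 40,
  .ofNat 0, .ofNat 35⟩, .l ⟨.ofNat 0, .negSucc 39, .ofNat 0, .ofNat 36⟩
  ⟨.ofNat 0, .ofNat 40, .ofNat 0, .ofNat 36⟩, .l ⟨.ofNat 0, .ofNat 40,
  .ofNat 0, .negSucc 34⟩ ⟨.ofNat 0, .ofNat 0, .ofNat 4000, .ofNat 3201⟩, .l
  ⟨.ofNat 0, .ofNat 40, .ofNat 0, .negSucc 35⟩ ⟨.ofNat 0, .ofNat 0, .ofNat
  4000, .ofNat 3201⟩, .l ⟨.ofNat 0, .ofNat 40, .ofNat 0, .negSucc 34⟩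
  ⟨.ofNat 0, .ofNat 0, .negSucc 3999, .negSucc 3348⟩, .l ⟨.ofNat 0, .ofNat
  40, .ofNat 0, .negSucc 35⟩ ⟨.ofNat 0, .ofNat 0, .negSucc 3999, .negSucc
  3348⟩],
[.q ⟨.negSucc 0, .ofNat 0, .ofNat 0, .ofNat 1⟩ ⟨.ofNat 2677, .negSucc 2896,
  .negSucc 2757, .ofNat 2978⟩, .q ⟨.negSucc 0, .ofNat 0, .ofNat 0, .ofNat 1⟩
  ⟨.ofNat 561, .negSucc 305, .negSucc 3987, .ofNat 3733⟩, .q ⟨.negSucc 0,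
  .ofNat 0, .ofNat 0, .ofNat 1⟩ ⟨.negSucc 3351, .ofNat 3689, .ofNat 1545,
  .negSucc 1881⟩, .q ⟨.negSucc 0, .ofNat 0, .ofNat 0, .ofNat 1⟩ ⟨.negSucc
  323, .negSucc 824, .ofNat 3914, .negSucc 2764⟩],
[.l ⟨.ofNat 0, .ofNat 0, .ofNat 4000, .ofNat 3577⟩ ⟨.ofNat 0, .ofNat 0,
  .ofNat 0, .ofNat 1⟩, .l ⟨.ofNat 0, .negSucc 1724, .ofNat 1012, .ofNat 969⟩
  ⟨.ofNat 0, .ofNat 0, .ofNat 0, .ofNat 1⟩, .l ⟨.ofNat 0, .ofNat 2123,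
  .negSucc 3389, .negSucc 2957⟩ ⟨.ofNat 0, .ofNat 0, .ofNat 0, .ofNat 1⟩],
[.l ⟨.ofNat 0, .negSucc 2827, .ofNat 2828, .ofNat 351⟩ ⟨.ofNat 0, .ofNat 0,
  .ofNat 0, .ofNat 1⟩, .l ⟨.ofNat 0, .negSucc 1534, .negSucc 1281, .negSucc
  83⟩ ⟨.ofNat 0, .ofNat 0, .ofNat 0, .ofNat 1⟩, .l ⟨.ofNat 0, .ofNat 3111,
  .negSucc 2513, .negSucc 70⟩ ⟨.ofNat 0, .ofNat 0, .ofNat 0, .ofNat 1⟩, .l
  ⟨.ofNat 0, .ofNat 287, .ofNat 3990, .ofNat 12382⟩ ⟨.ofNat 0, .ofNat 0,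
  .ofNat 0, .ofNat 1⟩],
[.q ⟨.negSucc 0, .ofNat 1, .ofNat 0, .ofNat 0⟩ ⟨.negSucc 1846, .negSucc 72,
  .ofNat 1920, .ofNat 0⟩, .q ⟨.negSucc 0, .ofNat 1, .ofNat 0, .ofNat 0⟩
  ⟨.ofNat 961, .ofNat 959, .negSucc 1919, .ofNat 0⟩, .l ⟨.ofNat 0, .ofNat 0,
  .negSucc 159, .ofNat 1⟩ ⟨.ofNat 0, .ofNat 0, .ofNat 0, .ofNat 1⟩, .l
  ⟨.ofNat 0, .ofNat 0, .ofNat 384, .ofNat 19⟩ ⟨.ofNat 0, .ofNat 0, .ofNat 0,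
  .ofNat 1⟩],
[.q ⟨.negSucc 0, .ofNat 0, .ofNat 0, .ofNat 1⟩ ⟨.ofNat 2552, .negSucc 2577,
  .negSucc 3058, .ofNat 3085⟩, .q ⟨.negSucc 0, .ofNat 0, .ofNat 0, .ofNat 1⟩
  ⟨.negSucc 2385, .ofNat 2887, .negSucc 2768, .ofNat 2268⟩, .q ⟨.negSucc 0,
  .ofNat 0, .ofNat 0, .ofNat 1⟩ ⟨.negSucc 1852, .ofNat 1996, .ofNat 124,
  .negSucc 266⟩, .q ⟨.negSucc 0, .ofNat 0, .ofNat 0, .ofNat 1⟩ ⟨.ofNat 2155,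
  .negSucc 2827, .ofNat 2828, .negSucc 2154⟩],
[.q ⟨.negSucc 0, .ofNat 0, .ofNat 0, .ofNat 1⟩ ⟨.ofNat 2395, .negSucc 2827,
  .ofNat 2828, .negSucc 2394⟩, .q ⟨.negSucc 0, .ofNat 0, .ofNat 0, .ofNat 1⟩
  ⟨.ofNat 3509, .negSucc 3913, .ofNat 823, .negSucc 417⟩, .q ⟨.negSucc 0,
  .ofNat 0, .ofNat 0, .ofNat 1⟩ ⟨.negSucc 8, .negSucc 150, .negSucc 3996,
  .ofNat 4157⟩, .q ⟨.negSucc 0, .ofNat 0, .ofNat 0, .ofNat 1⟩ ⟨.negSucc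
  1872, .ofNat 2000, .ofNat 0, .negSucc 126⟩],
[.l ⟨.ofNat 0, .ofNat 808, .negSucc 3916, .ofNat 1286⟩ ⟨.ofNat 0, .ofNat 0,
  .ofNat 0, .ofNat 1⟩, .l ⟨.ofNat 0, .ofNat 3391, .ofNat 2122, .ofNat 2287⟩
  ⟨.ofNat 0, .ofNat 0, .ofNat 0, .ofNat 1⟩, .l ⟨.ofNat 0, .negSucc 2200,
  .ofNat 3340, .ofNat 604⟩ ⟨.ofNat 0, .ofNat 0, .ofNat 0, .ofNat 1⟩, .l
  ⟨.ofNat 0, .negSucc 1889, .negSucc 3524, .negSucc 466⟩ ⟨.ofNat 0, .ofNat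
  0, .ofNat 0, .ofNat 1⟩],
[.l ⟨.ofNat 0, .ofNat 0, .ofNat 800, .ofNat 29⟩ ⟨.ofNat 0, .ofNat 0, .ofNat
  0, .ofNat 1⟩, .l ⟨.ofNat 0, .negSucc 3959, .ofNat 563, .negSucc 1389⟩
  ⟨.ofNat 0, .ofNat 0, .ofNat 0, .ofNat 1⟩, .l ⟨.ofNat 0, .negSucc 1156,
  .negSucc 3828, .ofNat 46⟩ ⟨.ofNat 0, .ofNat 0, .ofNat 0, .ofNat 1⟩, .l
  ⟨.ofNat 0, .ofNat 2651, .negSucc 2994, .ofNat 2251⟩ ⟨.ofNat 0, .ofNat 0,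
  .ofNat 0, .ofNat 1⟩],
[.l ⟨.ofNat 0, .ofNat 10, .ofNat 0, .negSucc 6⟩ ⟨.ofNat 0, .ofNat 10, .ofNat
  0, .ofNat 7⟩, .l ⟨.ofNat 0, .negSucc 9, .ofNat 0, .ofNat 8⟩ ⟨.ofNat 0,
  .ofNat 10, .ofNat 0, .ofNat 8⟩, .l ⟨.ofNat 0, .ofNat 10, .ofNat 0,
  .negSucc 6⟩ ⟨.ofNat 0, .ofNat 0, .ofNat 2000, .ofNat 1399⟩, .l ⟨.ofNat 0,
  .ofNat 10, .ofNat 0, .negSucc 7⟩ ⟨.ofNat 0, .ofNat 0, .ofNat 2000, .ofNat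
  1399⟩, .l ⟨.ofNat 0, .ofNat 10, .ofNat 0, .negSucc 6⟩ ⟨.ofNat 0, .negSucc
  376, .negSucc 1963, .negSucc 1870⟩, .l ⟨.ofNat 0, .ofNat 10, .ofNat 0,
  .negSucc 7⟩ ⟨.ofNat 0, .negSucc 376, .negSucc 1963, .negSucc 1870⟩, .l
  ⟨.ofNat 0, .ofNat 10, .ofNat 0, .negSucc 6⟩ ⟨.ofNat 0, .ofNat 3071, .ofNat
  2563, .ofNat 4150⟩, .l ⟨.ofNat 0, .ofNat 10, .ofNat 0, .negSucc 7⟩ ⟨.ofNat
  0, .ofNat 3071, .ofNat 2563, .ofNat 4150⟩],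
[.q ⟨.ofNat 11, .negSucc 12, .negSucc 17, .ofNat 20⟩ ⟨.negSucc 3906, .ofNat
  3778, .negSucc 210, .ofNat 340⟩, .q ⟨.ofNat 11, .negSucc 12, .negSucc 17,
  .ofNat 20⟩ ⟨.negSucc 1152, .ofNat 328, .ofNat 365, .ofNat 460⟩, .q ⟨.ofNat
  11, .negSucc 12, .negSucc 17, .ofNat 20⟩ ⟨.ofNat 803, .negSucc 3776,
  .ofNat 1514, .ofNat 1460⟩, .q ⟨.ofNat 11, .negSucc 12, .negSucc 17, .ofNat
  20⟩ ⟨.ofNat 1194, .negSucc 446, .negSucc 346, .negSucc 399⟩, .q ⟨.ofNat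
  11, .negSucc 12, .negSucc 17, .ofNat 20⟩ ⟨.ofNat 826, .ofNat 2912,
  .negSucc 2037, .negSucc 1699⟩],
[.l ⟨.ofNat 0, .ofNat 80, .ofNat 0, .negSucc 68⟩ ⟨.ofNat 0, .ofNat 80,
  .ofNat 0, .ofNat 69⟩, .l ⟨.ofNat 0, .negSucc 79, .ofNat 0, .ofNat 73⟩
  ⟨.ofNat 0, .ofNat 80, .ofNat 0, .ofNat 73⟩, .l ⟨.ofNat 0, .ofNat 80,
  .ofNat 0, .negSucc 68⟩ ⟨.ofNat 0, .ofNat 1539, .ofNat 3692, .ofNat 4652⟩,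
  .l ⟨.ofNat 0, .ofNat 80, .ofNat 0, .negSucc 72⟩ ⟨.ofNat 0, .ofNat 1539,
  .ofNat 3692, .ofNat 4652⟩, .l ⟨.ofNat 0, .ofNat 80, .ofNat 0, .negSucc 68⟩
  ⟨.ofNat 0, .negSucc 582, .negSucc 3956, .negSucc 4259⟩, .l ⟨.ofNat 0,
  .ofNat 80, .ofNat 0, .negSucc 72⟩ ⟨.ofNat 0, .negSucc 582, .negSucc 3956,
  .negSucc 4259⟩, .l ⟨.ofNat 0, .ofNat 80, .ofNat 0, .negSucc 68⟩ ⟨.ofNat 0,
  .ofNat 3393, .ofNat 2118, .ofNat 4855⟩, .l ⟨.ofNat 0, .ofNat 80, .ofNat 0,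
  .negSucc 72⟩ ⟨.ofNat 0, .ofNat 3393, .ofNat 2118, .ofNat 4855⟩],
[.q ⟨.negSucc 10, .negSucc 28, .ofNat 40, .ofNat 0⟩ ⟨.negSucc 68, .ofNat 29,
  .ofNat 40, .ofNat 0⟩, .q ⟨.ofNat 8, .ofNat 32, .negSucc 39, .ofNat 0⟩
  ⟨.negSucc 71, .ofNat 32, .ofNat 40, .ofNat 0⟩, .q ⟨.ofNat 69, .negSucc 28,
  .negSucc 39, .ofNat 0⟩ ⟨.ofNat 601, .ofNat 199, .ofNat 0, .negSucc 799⟩,
  .q ⟨.ofNat 72, .negSucc 31, .negSucc 39, .ofNat 0⟩ ⟨.ofNat 601, .ofNat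
  199, .ofNat 0, .negSucc 799⟩, .q ⟨.ofNat 69, .negSucc 28, .negSucc 39,
  .ofNat 0⟩ ⟨.ofNat 878, .negSucc 1598, .negSucc 2444, .ofNat 3166⟩, .q
  ⟨.ofNat 72, .negSucc 31, .negSucc 39, .ofNat 0⟩ ⟨.ofNat 878, .negSucc
  1598, .negSucc 2444, .ofNat 3166⟩, .q ⟨.ofNat 69, .negSucc 28, .negSucc
  39, .ofNat 0⟩ ⟨.ofNat 1987, .negSucc 794, .ofNat 2169, .negSucc 3360⟩, .q
  ⟨.ofNat 72, .negSucc 31, .negSucc 39, .ofNat 0⟩ ⟨.ofNat 1987, .negSucc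
  794, .ofNat 2169, .negSucc 3360⟩],
[.q ⟨.negSucc 25, .negSucc 20, .ofNat 15, .ofNat 32⟩ ⟨.ofNat 6344, .negSucc
  10679, .negSucc 1167, .ofNat 5504⟩, .q ⟨.negSucc 25, .negSucc 20, .ofNat
  15, .ofNat 32⟩ ⟨.ofNat 3256, .ofNat 4388, .negSucc 12123, .ofNat 4480⟩, .q
  ⟨.negSucc 25, .negSucc 20, .ofNat 15, .ofNat 32⟩ ⟨.negSucc 7775, .ofNat
  18940, .negSucc 6043, .negSucc 5119⟩, .q ⟨.negSucc 25, .negSucc 20, .ofNat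
  15, .ofNat 32⟩ ⟨.negSucc 6843, .ofNat 1664, .ofNat 12348, .negSucc 7167⟩,
  .q ⟨.negSucc 25, .negSucc 20, .ofNat 15, .ofNat 32⟩ ⟨.ofNat 312, .negSucc
  5403, .ofNat 5476, .negSucc 383⟩],
[.q ⟨.negSucc 25, .negSucc 20, .ofNat 15, .ofNat 32⟩ ⟨.negSucc 10771, .ofNat
  9976, .ofNat 10908, .negSucc 10111⟩, .q ⟨.negSucc 25, .negSucc 20, .ofNat
  15, .ofNat 32⟩ ⟨.negSucc 1771, .negSucc 7107, .ofNat 11824, .negSucc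
  2943⟩, .q ⟨.negSucc 25, .negSucc 20, .ofNat 15, .ofNat 32⟩ ⟨.ofNat 7856,
  .negSucc 4131, .negSucc 12043, .ofNat 8320⟩, .q ⟨.negSucc 25, .negSucc 20,
  .ofNat 15, .ofNat 32⟩ ⟨.ofNat 1464, .ofNat 7288, .negSucc 11695, .ofNat
  2944⟩],
[.q ⟨.ofNat 11, .negSucc 12, .negSucc 17, .ofNat 20⟩ ⟨.ofNat 1604, .negSucc
  860, .negSucc 322, .negSucc 419⟩, .q ⟨.ofNat 11, .negSucc 12, .negSucc 17,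
  .ofNat 20⟩ ⟨.ofNat 2549, .ofNat 1637, .negSucc 2185, .negSucc 1999⟩, .q
  ⟨.ofNat 11, .negSucc 12, .negSucc 17, .ofNat 20⟩ ⟨.negSucc 3780, .ofNat
  3843, .negSucc 301, .ofNat 240⟩, .q ⟨.ofNat 11, .negSucc 12, .negSucc 17,
  .ofNat 20⟩ ⟨.negSucc 4658, .ofNat 1514, .ofNat 1345, .ofNat 1800⟩, .q
  ⟨.ofNat 11, .negSucc 12, .negSucc 17, .ofNat 20⟩ ⟨.negSucc 172, .negSucc
  90, .ofNat 124, .ofNat 140⟩],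
[.q ⟨.negSucc 0, .ofNat 0, .ofNat 0, .ofNat 1⟩ ⟨.ofNat 596, .negSucc 801,
  .ofNat 1065, .negSucc 858⟩, .q ⟨.negSucc 0, .ofNat 0, .ofNat 0, .ofNat 1⟩
  ⟨.ofNat 2759, .negSucc 2827, .negSucc 2827, .ofNat 2897⟩, .q ⟨.negSucc 0,
  .ofNat 0, .ofNat 0, .ofNat 1⟩ ⟨.negSucc 2331, .ofNat 2837, .negSucc 2819,
  .ofNat 2315⟩, .q ⟨.negSucc 0, .ofNat 0, .ofNat 0, .ofNat 1⟩ ⟨.negSucc
  1848, .ofNat 2000, .ofNat 0, .negSucc 150⟩],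
[.q ⟨.negSucc 0, .ofNat 0, .ofNat 0, .ofNat 1⟩ ⟨.negSucc 2525, .ofNat 2512,
  .ofNat 3113, .negSucc 3098⟩, .q ⟨.negSucc 0, .ofNat 0, .ofNat 0, .ofNat 1⟩
  ⟨.ofNat 618, .negSucc 1149, .ofNat 3831, .negSucc 3298⟩, .q ⟨.negSucc 0,
  .ofNat 0, .ofNat 0, .ofNat 1⟩ ⟨.ofNat 1848, .negSucc 1843, .negSucc 3548,
  .ofNat 3545⟩, .q ⟨.negSucc 0, .ofNat 0, .ofNat 0, .ofNat 1⟩ ⟨.negSucc 113,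
  .ofNat 302, .negSucc 1976, .ofNat 1789⟩],
[.q ⟨.negSucc 0, .ofNat 0, .ofNat 0, .ofNat 1⟩ ⟨.negSucc 2236, .ofNat 2528,
  .negSucc 3099, .ofNat 2809⟩, .q ⟨.negSucc 0, .ofNat 0, .ofNat 0, .ofNat 1⟩
  ⟨.ofNat 1116, .negSucc 1490, .ofNat 3712, .negSucc 3336⟩, .q ⟨.negSucc 0,
  .ofNat 0, .ofNat 0, .ofNat 1⟩ ⟨.ofNat 91, .negSucc 99, .ofNat 0, .ofNat
  9⟩],
[.l ⟨.ofNat 0, .ofNat 2938, .negSucc 2714, .ofNat 361⟩ ⟨.ofNat 0, .ofNat 0,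
  .ofNat 0, .ofNat 1⟩, .l ⟨.ofNat 0, .negSucc 1164, .ofNat 3827, .ofNat 46⟩
  ⟨.ofNat 0, .ofNat 0, .ofNat 0, .ofNat 1⟩, .l ⟨.ofNat 0, .negSucc 1413,
  .negSucc 1413, .negSucc 88⟩ ⟨.ofNat 0, .ofNat 0, .ofNat 0, .ofNat 1⟩, .l
  ⟨.ofNat 0, .ofNat 0, .negSucc 1999, .ofNat 49⟩ ⟨.ofNat 0, .ofNat 0, .ofNat
  0, .ofNat 1⟩],
[.l ⟨.ofNat 0, .ofNat 3997, .ofNat 142, .ofNat 391⟩ ⟨.ofNat 0, .ofNat 0,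
  .ofNat 0, .ofNat 1⟩, .l ⟨.ofNat 0, .ofNat 1418, .ofNat 3740, .ofNat 175⟩
  ⟨.ofNat 0, .ofNat 0, .ofNat 0, .ofNat 1⟩, .l ⟨.ofNat 0, .negSucc 3958,
  .negSucc 567, .ofNat 42⟩ ⟨.ofNat 0, .ofNat 0, .ofNat 0, .ofNat 1⟩, .l
  ⟨.ofNat 0, .negSucc 1021, .negSucc 3866, .negSucc 5⟩ ⟨.ofNat 0, .ofNat 0,
  .ofNat 0, .ofNat 1⟩],
[.q ⟨.negSucc 11, .negSucc 947, .ofNat 960, .ofNat 0⟩ ⟨.negSucc 1907, .ofNat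
  948, .ofNat 960, .ofNat 0⟩, .q ⟨.ofNat 1, .ofNat 959, .negSucc 959, .ofNat
  0⟩ ⟨.negSucc 1918, .ofNat 959, .ofNat 960, .ofNat 0⟩, .q ⟨.ofNat 1908,
  .negSucc 947, .negSucc 959, .ofNat 0⟩ ⟨.ofNat 15381, .negSucc 10053,
  .negSucc 1710, .negSucc 3615⟩, .q ⟨.ofNat 1919, .negSucc 958, .negSucc
  959, .ofNat 0⟩ ⟨.ofNat 15381, .negSucc 10053, .negSucc 1710, .negSucc
  3615⟩, .q ⟨.ofNat 1908, .negSucc 947, .negSucc 959, .ofNat 0⟩ ⟨.negSucc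
  3538, .ofNat 909, .negSucc 1188, .ofNat 3819⟩, .q ⟨.ofNat 1919, .negSucc
  958, .negSucc 959, .ofNat 0⟩ ⟨.negSucc 3538, .ofNat 909, .negSucc 1188,
  .ofNat 3819⟩, .q ⟨.ofNat 1908, .negSucc 947, .negSucc 959, .ofNat 0⟩
  ⟨.ofNat 3833, .negSucc 1433, .ofNat 1362, .negSucc 3760⟩, .q ⟨.ofNat 1919,
  .negSucc 958, .negSucc 959, .ofNat 0⟩ ⟨.ofNat 3833, .negSucc 1433, .ofNat
  1362, .negSucc 3760⟩, .q ⟨.ofNat 1908, .negSucc 947, .negSucc 959, .ofNat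
  0⟩ ⟨.negSucc 3007, .negSucc 2576, .ofNat 2344, .ofNat 3241⟩, .q ⟨.ofNat
  1919, .negSucc 958, .negSucc 959, .ofNat 0⟩ ⟨.negSucc 3007, .negSucc 2576,
  .ofNat 2344, .ofNat 3241⟩],
[.l ⟨.ofNat 0, .ofNat 40, .ofNat 0, .negSucc 27⟩ ⟨.ofNat 0, .ofNat 40,
  .ofNat 0, .ofNat 28⟩, .l ⟨.ofNat 0, .negSucc 39, .ofNat 0, .ofNat 31⟩
  ⟨.ofNat 0, .ofNat 40, .ofNat 0, .ofNat 31⟩, .l ⟨.ofNat 0, .ofNat 40,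
  .ofNat 0, .negSucc 27⟩ ⟨.ofNat 0, .ofNat 0, .ofNat 500, .negSucc 1106⟩, .l
  ⟨.ofNat 0, .ofNat 40, .ofNat 0, .negSucc 30⟩ ⟨.ofNat 0, .ofNat 0, .ofNat
  500, .negSucc 1106⟩, .l ⟨.ofNat 0, .ofNat 40, .ofNat 0, .negSucc 27⟩
  ⟨.ofNat 0, .negSucc 272, .negSucc 3990, .negSucc 3456⟩, .l ⟨.ofNat 0,
  .ofNat 40, .ofNat 0, .negSucc 30⟩ ⟨.ofNat 0, .negSucc 272, .negSucc 3990,
  .negSucc 3456⟩, .l ⟨.ofNat 0, .ofNat 40, .ofNat 0, .negSucc 27⟩ ⟨.ofNat 0,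
  .ofNat 161, .ofNat 236, .ofNat 295⟩, .l ⟨.ofNat 0, .ofNat 40, .ofNat 0,
  .negSucc 30⟩ ⟨.ofNat 0, .ofNat 161, .ofNat 236, .ofNat 295⟩],
[.l ⟨.ofNat 0, .ofNat 899, .negSucc 3897, .ofNat 936⟩ ⟨.ofNat 0, .ofNat 0,
  .ofNat 0, .ofNat 1⟩, .l ⟨.ofNat 0, .ofNat 1011, .negSucc 868, .ofNat 943⟩
  ⟨.ofNat 0, .ofNat 0, .ofNat 0, .ofNat 1⟩, .l ⟨.ofNat 0, .ofNat 564, .ofNat
  1919, .ofNat 530⟩ ⟨.ofNat 0, .ofNat 0, .ofNat 0, .ofNat 1⟩, .l ⟨.ofNat 0,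
  .negSucc 3181, .ofNat 2423, .negSucc 1566⟩ ⟨.ofNat 0, .ofNat 0, .ofNat 0,
  .ofNat 1⟩],
[.l ⟨.ofNat 0, .ofNat 40, .ofNat 0, .negSucc 26⟩ ⟨.ofNat 0, .ofNat 40,
  .ofNat 0, .ofNat 27⟩, .l ⟨.ofNat 0, .negSucc 39, .ofNat 0, .ofNat 31⟩
  ⟨.ofNat 0, .ofNat 40, .ofNat 0, .ofNat 31⟩, .l ⟨.ofNat 0, .ofNat 40,
  .ofNat 0, .negSucc 26⟩ ⟨.ofNat 0, .ofNat 0, .ofNat 400, .negSucc 556⟩, .l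
  ⟨.ofNat 0, .ofNat 40, .ofNat 0, .negSucc 30⟩ ⟨.ofNat 0, .ofNat 0, .ofNat
  400, .negSucc 556⟩, .l ⟨.ofNat 0, .ofNat 40, .ofNat 0, .negSucc 26⟩
  ⟨.ofNat 0, .ofNat 0, .negSucc 999, .negSucc 808⟩, .l ⟨.ofNat 0, .ofNat 40,
  .ofNat 0, .negSucc 30⟩ ⟨.ofNat 0, .ofNat 0, .negSucc 999, .negSucc 808⟩,
  .l ⟨.ofNat 0, .ofNat 40, .ofNat 0, .negSucc 26⟩ ⟨.ofNat 0, .ofNat 2954,
  .ofNat 2697, .ofNat 4159⟩, .l ⟨.ofNat 0, .ofNat 40, .ofNat 0, .negSucc 30⟩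
  ⟨.ofNat 0, .ofNat 2954, .ofNat 2697, .ofNat 4159⟩],
[.l ⟨.ofNat 0, .ofNat 40, .ofNat 0, .negSucc 33⟩ ⟨.ofNat 0, .ofNat 40,
  .ofNat 0, .ofNat 34⟩, .l ⟨.ofNat 0, .negSucc 39, .ofNat 0, .ofNat 37⟩
  ⟨.ofNat 0, .ofNat 40, .ofNat 0, .ofNat 37⟩, .l ⟨.ofNat 0, .ofNat 40,
  .ofNat 0, .negSucc 33⟩ ⟨.ofNat 0, .ofNat 1298, .ofNat 3783, .ofNat 4544⟩,
  .l ⟨.ofNat 0, .ofNat 40, .ofNat 0, .negSucc 36⟩ ⟨.ofNat 0, .ofNat 1298,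
  .ofNat 3783, .ofNat 4544⟩, .l ⟨.ofNat 0, .ofNat 40, .ofNat 0, .negSucc 33⟩
  ⟨.ofNat 0, .negSucc 322, .negSucc 3986, .negSucc 4515⟩, .l ⟨.ofNat 0,
  .ofNat 40, .ofNat 0, .negSucc 36⟩ ⟨.ofNat 0, .negSucc 322, .negSucc 3986,
  .negSucc 4515⟩, .l ⟨.ofNat 0, .ofNat 40, .ofNat 0, .negSucc 33⟩ ⟨.ofNat 0,
  .ofNat 3569, .ofNat 1807, .ofNat 4709⟩, .l ⟨.ofNat 0, .ofNat 40, .ofNat 0,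
  .negSucc 36⟩ ⟨.ofNat 0, .ofNat 3569, .ofNat 1807, .ofNat 4709⟩],
[.q ⟨.negSucc 18, .negSucc 15, .ofNat 11, .ofNat 24⟩ ⟨.ofNat 4528, .negSucc
  3391, .negSucc 5839, .ofNat 4704⟩, .q ⟨.negSucc 18, .negSucc 15, .ofNat
  11, .ofNat 24⟩ ⟨.ofNat 1660, .ofNat 7032, .negSucc 11763, .ofNat 3072⟩, .q
  ⟨.negSucc 18, .negSucc 15, .ofNat 11, .ofNat 24⟩ ⟨.negSucc 12231, .ofNat
  19176, .ofNat 3904, .negSucc 10847⟩, .q ⟨.negSucc 18, .negSucc 15, .ofNat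
  11, .ofNat 24⟩ ⟨.negSucc 783, .negSucc 1195, .ofNat 3036, .negSucc 1055⟩],
[.q ⟨.negSucc 25, .negSucc 20, .ofNat 15, .ofNat 32⟩ ⟨.ofNat 5384, .ofNat
  672, .negSucc 12327, .ofNat 6272⟩, .q ⟨.negSucc 25, .negSucc 20, .ofNat
  15, .ofNat 32⟩ ⟨.negSucc 12727, .ofNat 21384, .ofNat 1968, .negSucc
  10623⟩, .q ⟨.negSucc 25, .negSucc 20, .ofNat 15, .ofNat 32⟩ ⟨.negSucc
  2171, .negSucc 1435, .ofNat 6168, .negSucc 2559⟩, .q ⟨.negSucc 25,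
  .negSucc 20, .ofNat 15, .ofNat 32⟩ ⟨.ofNat 3076, .negSucc 14651, .ofNat
  9656, .ofNat 1920⟩],
[.q ⟨.ofNat 17, .negSucc 18, .negSucc 27, .ofNat 30⟩ ⟨.negSucc 2758,
  .negSucc 1386, .ofNat 1956, .ofNat 2190⟩, .q ⟨.ofNat 17, .negSucc 18,
  .negSucc 27, .ofNat 30⟩ ⟨.ofNat 3011, .negSucc 4223, .ofNat 583, .ofNat
  630⟩, .q ⟨.ofNat 17, .negSucc 18, .negSucc 27, .ofNat 30⟩ ⟨.ofNat 2782,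
  .ofNat 1356, .negSucc 2067, .negSucc 2069⟩, .q ⟨.ofNat 17, .negSucc 18,
  .negSucc 27, .ofNat 30⟩ ⟨.negSucc 4204, .ofNat 3706, .ofNat 79, .ofNat
  420⟩],
[.q ⟨.ofNat 11, .negSucc 12, .negSucc 17, .ofNat 20⟩ ⟨.ofNat 1450, .negSucc
  1163, .negSucc 65, .negSucc 219⟩, .q ⟨.ofNat 11, .negSucc 12, .negSucc 17,
  .ofNat 20⟩ ⟨.ofNat 1027, .negSucc 49, .negSucc 476, .negSucc 499⟩, .q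
  ⟨.ofNat 11, .negSucc 12, .negSucc 17, .ofNat 20⟩ ⟨.negSucc 3778, .ofNat
  3843, .negSucc 303, .ofNat 240⟩, .q ⟨.ofNat 11, .negSucc 12, .negSucc 17,
  .ofNat 20⟩ ⟨.negSucc 4643, .ofNat 1459, .ofNat 1365, .ofNat 1820⟩],
[.q ⟨.negSucc 0, .ofNat 0, .ofNat 0, .ofNat 1⟩ ⟨.negSucc 240, .negSucc 127,
  .ofNat 3998, .negSucc 3628⟩, .q ⟨.negSucc 0, .ofNat 0, .ofNat 0, .ofNat 1⟩
  ⟨.ofNat 2449, .negSucc 2882, .ofNat 2773, .negSucc 2338⟩, .q ⟨.negSucc 0,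
  .ofNat 0, .ofNat 0, .ofNat 1⟩ ⟨.negSucc 101, .ofNat 157, .negSucc 647,
  .ofNat 593⟩],
[.l ⟨.ofNat 0, .negSucc 3267, .negSucc 2305, .negSucc 32⟩ ⟨.ofNat 0, .ofNat
  0, .ofNat 0, .ofNat 1⟩, .l ⟨.ofNat 0, .ofNat 3938, .negSucc 698, .ofNat
  80⟩ ⟨.ofNat 0, .ofNat 0, .ofNat 0, .ofNat 1⟩, .l ⟨.ofNat 0, .ofNat 1552,
  .ofNat 3687, .ofNat 3484⟩ ⟨.ofNat 0, .ofNat 0, .ofNat 0, .ofNat 1⟩, .l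
  ⟨.ofNat 0, .negSucc 793, .ofNat 98, .ofNat 17⟩ ⟨.ofNat 0, .ofNat 0, .ofNat
  0, .ofNat 1⟩],
[.q ⟨.negSucc 0, .ofNat 0, .ofNat 0, .ofNat 1⟩ ⟨.ofNat 725, .negSucc 617,
  .negSucc 1901, .ofNat 1795⟩, .q ⟨.negSucc 0, .ofNat 0, .ofNat 0, .ofNat 1⟩
  ⟨.negSucc 1508, .ofNat 1742, .negSucc 982, .ofNat 750⟩, .q ⟨.negSucc 0,
  .ofNat 0, .ofNat 0, .ofNat 1⟩ ⟨.negSucc 460, .ofNat 500, .ofNat 0,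
  .negSucc 38⟩, .q ⟨.negSucc 0, .ofNat 0, .ofNat 0, .ofNat 1⟩ ⟨.ofNat 547,
  .negSucc 706, .ofNat 707, .negSucc 546⟩],
[.q ⟨.negSucc 0, .ofNat 0, .ofNat 0, .ofNat 1⟩ ⟨.ofNat 910, .negSucc 674,
  .negSucc 3942, .ofNat 3708⟩, .q ⟨.negSucc 0, .ofNat 0, .ofNat 0, .ofNat 1⟩
  ⟨.negSucc 2330, .ofNat 2836, .negSucc 2820, .ofNat 2316⟩, .q ⟨.negSucc 0,
  .ofNat 0, .ofNat 0, .ofNat 1⟩ ⟨.negSucc 2690, .ofNat 2568, .ofNat 3067,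
  .negSucc 2943⟩, .q ⟨.negSucc 0, .ofNat 0, .ofNat 0, .ofNat 1⟩ ⟨.ofNat
  1659, .negSucc 2337, .ofNat 3245, .negSucc 2565⟩],
[.l ⟨.ofNat 0, .ofNat 20, .ofNat 0, .negSucc 16⟩ ⟨.ofNat 0, .ofNat 20,
  .ofNat 0, .ofNat 17⟩, .l ⟨.ofNat 0, .negSucc 19, .ofNat 0, .ofNat 19⟩
  ⟨.ofNat 0, .ofNat 20, .ofNat 0, .ofNat 19⟩, .l ⟨.ofNat 0, .ofNat 20,
  .ofNat 0, .negSucc 16⟩ ⟨.ofNat 0, .ofNat 956, .ofNat 3884, .ofNat 4311⟩,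
  .l ⟨.ofNat 0, .ofNat 20, .ofNat 0, .negSucc 18⟩ ⟨.ofNat 0, .ofNat 956,
  .ofNat 3884, .ofNat 4311⟩, .l ⟨.ofNat 0, .ofNat 20, .ofNat 0, .negSucc 16⟩
  ⟨.ofNat 0, .ofNat 1115, .negSucc 3841, .negSucc 3087⟩, .l ⟨.ofNat 0,
  .ofNat 20, .ofNat 0, .negSucc 18⟩ ⟨.ofNat 0, .ofNat 1115, .negSucc 3841,
  .negSucc 3087⟩, .l ⟨.ofNat 0, .ofNat 20, .ofNat 0, .negSucc 16⟩ ⟨.ofNat 0,
  .ofNat 1350, .ofNat 1476, .ofNat 2534⟩, .l ⟨.ofNat 0, .ofNat 20, .ofNat 0,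
  .negSucc 18⟩ ⟨.ofNat 0, .ofNat 1350, .ofNat 1476, .ofNat 2534⟩],
[.q ⟨.negSucc 12, .negSucc 66, .ofNat 80, .ofNat 0⟩ ⟨.negSucc 146, .ofNat
  67, .ofNat 80, .ofNat 0⟩, .q ⟨.ofNat 9, .ofNat 71, .negSucc 79, .ofNat 0⟩
  ⟨.negSucc 150, .ofNat 71, .ofNat 80, .ofNat 0⟩, .q ⟨.ofNat 147, .negSucc
  66, .negSucc 79, .ofNat 0⟩ ⟨.ofNat 2013, .negSucc 12, .ofNat 0, .negSucc
  1999⟩, .q ⟨.ofNat 151, .negSucc 70, .negSucc 79, .ofNat 0⟩ ⟨.ofNat 2013,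
  .negSucc 12, .ofNat 0, .negSucc 1999⟩, .q ⟨.ofNat 147, .negSucc 66,
  .negSucc 79, .ofNat 0⟩ ⟨.negSucc 2660, .ofNat 2115, .negSucc 2541, .ofNat
  3088⟩, .q ⟨.ofNat 151, .negSucc 70, .negSucc 79, .ofNat 0⟩ ⟨.negSucc 2660,
  .ofNat 2115, .negSucc 2541, .ofNat 3088⟩, .q ⟨.ofNat 147, .negSucc 66,
  .negSucc 79, .ofNat 0⟩ ⟨.ofNat 3256, .ofNat 2401, .negSucc 2838, .negSucc
  2817⟩, .q ⟨.ofNat 151, .negSucc 70, .negSucc 79, .ofNat 0⟩ ⟨.ofNat 3256,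
  .ofNat 2401, .negSucc 2838, .negSucc 2817⟩],
[.l ⟨.ofNat 0, .ofNat 40, .ofNat 0, .negSucc 32⟩ ⟨.ofNat 0, .ofNat 40,
  .ofNat 0, .ofNat 33⟩, .l ⟨.ofNat 0, .negSucc 39, .ofNat 0, .ofNat 36⟩
  ⟨.ofNat 0, .ofNat 40, .ofNat 0, .ofNat 36⟩, .l ⟨.ofNat 0, .ofNat 40,
  .ofNat 0, .negSucc 32⟩ ⟨.ofNat 0, .ofNat 0, .ofNat 4000, .negSucc 7772⟩,
  .l ⟨.ofNat 0, .ofNat 40, .ofNat 0, .negSucc 35⟩ ⟨.ofNat 0, .ofNat 0,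
  .ofNat 4000, .negSucc 7772⟩, .l ⟨.ofNat 0, .ofNat 40, .ofNat 0, .negSucc
  32⟩ ⟨.ofNat 0, .ofNat 1017, .negSucc 3868, .negSucc 2354⟩, .l ⟨.ofNat 0,
  .ofNat 40, .ofNat 0, .negSucc 35⟩ ⟨.ofNat 0, .ofNat 1017, .negSucc 3868,
  .negSucc 2354⟩, .l ⟨.ofNat 0, .ofNat 40, .ofNat 0, .negSucc 32⟩ ⟨.ofNat 0,
  .negSucc 670, .ofNat 1884, .ofNat 659⟩, .l ⟨.ofNat 0, .ofNat 40, .ofNat 0,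
  .negSucc 35⟩ ⟨.ofNat 0, .negSucc 670, .ofNat 1884, .ofNat 659⟩, .l ⟨.ofNat
  0, .ofNat 40, .ofNat 0, .negSucc 32⟩ ⟨.ofNat 0, .negSucc 516, .negSucc
  3965, .negSucc 3760⟩, .l ⟨.ofNat 0, .ofNat 40, .ofNat 0, .negSucc 35⟩
  ⟨.ofNat 0, .negSucc 516, .negSucc 3965, .negSucc 3760⟩],
[.l ⟨.ofNat 0, .ofNat 40, .ofNat 0, .negSucc 34⟩ ⟨.ofNat 0, .ofNat 40,
  .ofNat 0, .ofNat 35⟩, .l ⟨.ofNat 0, .negSucc 39, .ofNat 0, .ofNat 38⟩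
  ⟨.ofNat 0, .ofNat 40, .ofNat 0, .ofNat 38⟩, .l ⟨.ofNat 0, .ofNat 40,
  .ofNat 0, .negSucc 34⟩ ⟨.ofNat 0, .ofNat 1094, .ofNat 3847, .ofNat 4393⟩,
  .l ⟨.ofNat 0, .ofNat 40, .ofNat 0, .negSucc 37⟩ ⟨.ofNat 0, .ofNat 1094,
  .ofNat 3847, .ofNat 4393⟩, .l ⟨.ofNat 0, .ofNat 40, .ofNat 0, .negSucc 34⟩
  ⟨.ofNat 0, .ofNat 1172, .negSucc 3824, .negSucc 14353⟩, .l ⟨.ofNat 0,
  .ofNat 40, .ofNat 0, .negSucc 37⟩ ⟨.ofNat 0, .ofNat 1172, .negSucc 3824,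
  .negSucc 14353⟩, .l ⟨.ofNat 0, .ofNat 40, .ofNat 0, .negSucc 34⟩ ⟨.ofNat
  0, .ofNat 1033, .ofNat 843, .ofNat 1688⟩, .l ⟨.ofNat 0, .ofNat 40, .ofNat
  0, .negSucc 37⟩ ⟨.ofNat 0, .ofNat 1033, .ofNat 843, .ofNat 1688⟩, .l
  ⟨.ofNat 0, .ofNat 40, .ofNat 0, .negSucc 34⟩ ⟨.ofNat 0, .negSucc 2397,
  .negSucc 3200, .negSucc 5522⟩, .l ⟨.ofNat 0, .ofNat 40, .ofNat 0, .negSucc
  37⟩ ⟨.ofNat 0, .negSucc 2397, .negSucc 3200, .negSucc 5522⟩],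
[.q ⟨.negSucc 220, .negSucc 258, .ofNat 480, .ofNat 0⟩ ⟨.negSucc 738, .ofNat
  259, .ofNat 480, .ofNat 0⟩, .q ⟨.ofNat 214, .ofNat 266, .negSucc 479,
  .ofNat 0⟩ ⟨.negSucc 745, .ofNat 266, .ofNat 480, .ofNat 0⟩, .q ⟨.ofNat
  739, .negSucc 258, .negSucc 479, .ofNat 0⟩ ⟨.ofNat 14403, .negSucc 8781,
  .negSucc 2492, .negSucc 3127⟩, .q ⟨.ofNat 746, .negSucc 265, .negSucc 479,
  .ofNat 0⟩ ⟨.ofNat 14403, .negSucc 8781, .negSucc 2492, .negSucc 3127⟩, .q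
  ⟨.ofNat 739, .negSucc 258, .negSucc 479, .ofNat 0⟩ ⟨.negSucc 459, .negSucc
  96, .negSucc 2535, .ofNat 3093⟩, .q ⟨.ofNat 746, .negSucc 265, .negSucc
  479, .ofNat 0⟩ ⟨.negSucc 459, .negSucc 96, .negSucc 2535, .ofNat 3093⟩, .q
  ⟨.ofNat 739, .negSucc 258, .negSucc 479, .ofNat 0⟩ ⟨.ofNat 30, .negSucc
  428, .ofNat 1121, .negSucc 721⟩, .q ⟨.ofNat 746, .negSucc 265, .negSucc
  479, .ofNat 0⟩ ⟨.ofNat 30, .negSucc 428, .ofNat 1121, .negSucc 721⟩],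
[.q ⟨.negSucc 111, .negSucc 127, .ofNat 240, .ofNat 0⟩ ⟨.negSucc 367, .ofNat
  128, .ofNat 240, .ofNat 0⟩, .q ⟨.ofNat 107, .ofNat 133, .negSucc 239,
  .ofNat 0⟩ ⟨.negSucc 372, .ofNat 133, .ofNat 240, .ofNat 0⟩, .q ⟨.ofNat
  368, .negSucc 127, .negSucc 239, .ofNat 0⟩ ⟨.ofNat 1595, .negSucc 309,
  .ofNat 2112, .negSucc 3396⟩, .q ⟨.ofNat 373, .negSucc 132, .negSucc 239,
  .ofNat 0⟩ ⟨.ofNat 1595, .negSucc 309, .ofNat 2112, .negSucc 3396⟩, .q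
  ⟨.ofNat 368, .negSucc 127, .negSucc 239, .ofNat 0⟩ ⟨.negSucc 830, .negSucc
  453, .negSucc 2111, .ofNat 3397⟩, .q ⟨.ofNat 373, .negSucc 132, .negSucc
  239, .ofNat 0⟩ ⟨.negSucc 830, .negSucc 453, .negSucc 2111, .ofNat 3397⟩],
[.q ⟨.negSucc 0, .ofNat 1, .ofNat 0, .ofNat 0⟩ ⟨.negSucc 1852, .negSucc 66,
  .ofNat 1920, .ofNat 0⟩, .q ⟨.negSucc 0, .ofNat 1, .ofNat 0, .ofNat 0⟩
  ⟨.ofNat 961, .ofNat 959, .negSucc 1919, .ofNat 0⟩, .l ⟨.ofNat 0, .ofNat 0,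
  .negSucc 639, .ofNat 3⟩ ⟨.ofNat 0, .ofNat 0, .ofNat 0, .ofNat 1⟩, .l
  ⟨.ofNat 0, .ofNat 0, .ofNat 960, .ofNat 47⟩ ⟨.ofNat 0, .ofNat 0, .ofNat 0,
  .ofNat 1⟩],
[.q ⟨.negSucc 0, .ofNat 1, .ofNat 0, .ofNat 0⟩ ⟨.negSucc 22, .negSucc 0,
  .ofNat 24, .ofNat 0⟩, .q ⟨.negSucc 0, .ofNat 1, .ofNat 0, .ofNat 0⟩
  ⟨.ofNat 961, .ofNat 959, .negSucc 1919, .ofNat 0⟩, .l ⟨.ofNat 0, .ofNat 0,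
  .negSucc 1919, .ofNat 17⟩ ⟨.ofNat 0, .ofNat 0, .ofNat 0, .ofNat 1⟩, .l
  ⟨.ofNat 0, .ofNat 0, .ofNat 96, .ofNat 5⟩ ⟨.ofNat 0, .ofNat 0, .ofNat 0,
  .ofNat 1⟩],
[.q ⟨.negSucc 0, .ofNat 0, .ofNat 0, .ofNat 1⟩ ⟨.negSucc 341, .ofNat 153,
  .negSucc 3996, .ofNat 4186⟩, .q ⟨.negSucc 0, .ofNat 0, .ofNat 0, .ofNat 1⟩
  ⟨.negSucc 2760, .ofNat 2828, .ofNat 2828, .negSucc 2894⟩, .q ⟨.negSucc 0,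
  .ofNat 0, .ofNat 0, .ofNat 1⟩ ⟨.ofNat 1082, .negSucc 1294, .ofNat 1524,
  .negSucc 1310⟩, .q ⟨.negSucc 0, .ofNat 0, .ofNat 0, .ofNat 1⟩ ⟨.ofNat
  3612, .negSucc 3913, .negSucc 824, .ofNat 1127⟩],
[.q ⟨.negSucc 0, .ofNat 0, .ofNat 0, .ofNat 1⟩ ⟨.negSucc 13827, .ofNat 3993,
  .negSucc 236, .ofNat 10072⟩, .q ⟨.negSucc 0, .ofNat 0, .ofNat 0, .ofNat 1⟩
  ⟨.negSucc 274, .negSucc 91, .ofNat 3999, .negSucc 3631⟩, .q ⟨.negSucc 0,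
  .ofNat 0, .ofNat 0, .ofNat 1⟩ ⟨.ofNat 2393, .negSucc 2827, .ofNat 2828,
  .negSucc 2392⟩, .q ⟨.negSucc 0, .ofNat 0, .ofNat 0, .ofNat 1⟩ ⟨.negSucc
  123, .ofNat 297, .negSucc 1977, .ofNat 1805⟩],
[.q ⟨.negSucc 0, .ofNat 0, .ofNat 0, .ofNat 1⟩ ⟨.ofNat 2657, .negSucc 2838,
  .negSucc 2816, .ofNat 2999⟩, .q ⟨.negSucc 0, .ofNat 0, .ofNat 0, .ofNat 1⟩
  ⟨.ofNat 293, .ofNat 0, .negSucc 3999, .ofNat 3707⟩, .q ⟨.negSucc 0, .ofNat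
  0, .ofNat 0, .ofNat 1⟩ ⟨.negSucc 3510, .ofNat 4000, .ofNat 0, .negSucc
  488⟩, .q ⟨.negSucc 0, .ofNat 0, .ofNat 0, .ofNat 1⟩ ⟨.ofNat 1341, .negSucc
  2827, .ofNat 2828, .negSucc 1340⟩],
[.q ⟨.negSucc 19, .negSucc 19, .ofNat 40, .ofNat 0⟩ ⟨.negSucc 59, .ofNat 20,
  .ofNat 40, .ofNat 0⟩, .q ⟨.ofNat 17, .ofNat 23, .negSucc 39, .ofNat 0⟩
  ⟨.negSucc 62, .ofNat 23, .ofNat 40, .ofNat 0⟩, .q ⟨.ofNat 60, .negSucc 19,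
  .negSucc 39, .ofNat 0⟩ ⟨.ofNat 1399, .ofNat 673, .ofNat 1596, .negSucc
  3667⟩, .q ⟨.ofNat 63, .negSucc 22, .negSucc 39, .ofNat 0⟩ ⟨.ofNat 1399,
  .ofNat 673, .ofNat 1596, .negSucc 3667⟩, .q ⟨.ofNat 60, .negSucc 19,
  .negSucc 39, .ofNat 0⟩ ⟨.negSucc 1112, .negSucc 749, .negSucc 1738, .ofNat
  3602⟩, .q ⟨.ofNat 63, .negSucc 22, .negSucc 39, .ofNat 0⟩ ⟨.negSucc 1112,
  .negSucc 749, .negSucc 1738, .ofNat 3602⟩],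
[.l ⟨.ofNat 0, .ofNat 40, .ofNat 0, .negSucc 30⟩ ⟨.ofNat 0, .ofNat 40,
  .ofNat 0, .ofNat 31⟩, .l ⟨.ofNat 0, .negSucc 39, .ofNat 0, .ofNat 34⟩
  ⟨.ofNat 0, .ofNat 40, .ofNat 0, .ofNat 34⟩, .l ⟨.ofNat 0, .ofNat 40,
  .ofNat 0, .negSucc 30⟩ ⟨.ofNat 0, .ofNat 2641, .ofNat 3004, .ofNat 4118⟩,
  .l ⟨.ofNat 0, .ofNat 40, .ofNat 0, .negSucc 33⟩ ⟨.ofNat 0, .ofNat 2641,
  .ofNat 3004, .ofNat 4118⟩, .l ⟨.ofNat 0, .ofNat 40, .ofNat 0, .negSucc 30⟩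
  ⟨.ofNat 0, .ofNat 338, .negSucc 3985, .negSucc 3024⟩, .l ⟨.ofNat 0, .ofNat
  40, .ofNat 0, .negSucc 33⟩ ⟨.ofNat 0, .ofNat 338, .negSucc 3985, .negSucc
  3024⟩],
[.l ⟨.ofNat 0, .ofNat 20, .ofNat 0, .negSucc 12⟩ ⟨.ofNat 0, .ofNat 20,
  .ofNat 0, .ofNat 13⟩, .l ⟨.ofNat 0, .negSucc 19, .ofNat 0, .ofNat 17⟩
  ⟨.ofNat 0, .ofNat 20, .ofNat 0, .ofNat 17⟩, .l ⟨.ofNat 0, .ofNat 20,
  .ofNat 0, .negSucc 12⟩ ⟨.ofNat 0, .ofNat 649, .ofNat 3947, .negSucc 8608⟩,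
  .l ⟨.ofNat 0, .ofNat 20, .ofNat 0, .negSucc 16⟩ ⟨.ofNat 0, .ofNat 649,
  .ofNat 3947, .negSucc 8608⟩, .l ⟨.ofNat 0, .ofNat 20, .ofNat 0, .negSucc
  12⟩ ⟨.ofNat 0, .ofNat 977, .negSucc 3878, .negSucc 2253⟩, .l ⟨.ofNat 0,
  .ofNat 20, .ofNat 0, .negSucc 16⟩ ⟨.ofNat 0, .ofNat 977, .negSucc 3878,
  .negSucc 2253⟩, .l ⟨.ofNat 0, .ofNat 20, .ofNat 0, .negSucc 12⟩ ⟨.ofNat 0,
  .ofNat 2833, .ofNat 2824, .ofNat 4164⟩, .l ⟨.ofNat 0, .ofNat 20, .ofNat 0,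
  .negSucc 16⟩ ⟨.ofNat 0, .ofNat 2833, .ofNat 2824, .ofNat 4164⟩],
[.q ⟨.negSucc 4, .negSucc 4, .ofNat 10, .ofNat 0⟩ ⟨.negSucc 14, .ofNat 5,
  .ofNat 10, .ofNat 0⟩, .q ⟨.ofNat 4, .ofNat 6, .negSucc 9, .ofNat 0⟩
  ⟨.negSucc 15, .ofNat 6, .ofNat 10, .ofNat 0⟩, .q ⟨.ofNat 15, .negSucc 4,
  .negSucc 9, .ofNat 0⟩ ⟨.ofNat 2813, .negSucc 2012, .ofNat 0, .negSucc
  799⟩, .q ⟨.ofNat 16, .negSucc 5, .negSucc 9, .ofNat 0⟩ ⟨.ofNat 2813,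
  .negSucc 2012, .ofNat 0, .negSucc 799⟩, .q ⟨.ofNat 15, .negSucc 4,
  .negSucc 9, .ofNat 0⟩ ⟨.negSucc 797, .negSucc 1516, .ofNat 345, .ofNat
  1970⟩, .q ⟨.ofNat 16, .negSucc 5, .negSucc 9, .ofNat 0⟩ ⟨.negSucc 797,
  .negSucc 1516, .ofNat 345, .ofNat 1970⟩, .q ⟨.ofNat 15, .negSucc 4,
  .negSucc 9, .ofNat 0⟩ ⟨.ofNat 2415, .ofNat 2764, .negSucc 3727, .negSucc
  1450⟩, .q ⟨.ofNat 16, .negSucc 5, .negSucc 9, .ofNat 0⟩ ⟨.ofNat 2415,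
  .ofNat 2764, .negSucc 3727, .negSucc 1450⟩],
[.l ⟨.ofNat 0, .ofNat 40, .ofNat 0, .negSucc 34⟩ ⟨.ofNat 0, .ofNat 40,
  .ofNat 0, .ofNat 35⟩, .l ⟨.ofNat 0, .negSucc 39, .ofNat 0, .ofNat 37⟩
  ⟨.ofNat 0, .ofNat 40, .ofNat 0, .ofNat 37⟩, .l ⟨.ofNat 0, .ofNat 40,
  .ofNat 0, .negSucc 34⟩ ⟨.ofNat 0, .ofNat 1728, .ofNat 3608, .ofNat 4747⟩,
  .l ⟨.ofNat 0, .ofNat 40, .ofNat 0, .negSucc 36⟩ ⟨.ofNat 0, .ofNat 1728,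
  .ofNat 3608, .ofNat 4747⟩, .l ⟨.ofNat 0, .ofNat 40, .ofNat 0, .negSucc 34⟩
  ⟨.ofNat 0, .negSucc 1148, .negSucc 3830, .negSucc 4641⟩, .l ⟨.ofNat 0,
  .ofNat 40, .ofNat 0, .negSucc 36⟩ ⟨.ofNat 0, .negSucc 1148, .negSucc 3830,
  .negSucc 4641⟩],
[.q ⟨.negSucc 12, .negSucc 6, .ofNat 0, .ofNat 20⟩ ⟨.ofNat 16919, .negSucc
  9366, .ofNat 17268, .negSucc 24819⟩, .q ⟨.negSucc 12, .negSucc 6, .ofNat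
  0, .ofNat 20⟩ ⟨.ofNat 30881, .negSucc 23460, .ofNat 0, .negSucc 7419⟩, .q
  ⟨.negSucc 12, .negSucc 6, .ofNat 0, .ofNat 20⟩ ⟨.negSucc 9767, .ofNat
  4674, .negSucc 12785, .ofNat 17880⟩, .q ⟨.negSucc 12, .negSucc 6, .ofNat
  0, .ofNat 20⟩ ⟨.negSucc 32210, .ofNat 27657, .ofNat 17574, .negSucc
  13019⟩],
[.q ⟨.negSucc 486, .negSucc 472, .ofNat 960, .ofNat 0⟩ ⟨.negSucc 1432,
  .ofNat 473, .ofNat 960, .ofNat 0⟩, .q ⟨.ofNat 480, .ofNat 480, .negSucc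
  959, .ofNat 0⟩ ⟨.negSucc 1439, .ofNat 480, .ofNat 960, .ofNat 0⟩, .q
  ⟨.ofNat 1433, .negSucc 472, .negSucc 959, .ofNat 0⟩ ⟨.ofNat 1969, .ofNat
  1947, .ofNat 83, .negSucc 3998⟩, .q ⟨.ofNat 1440, .negSucc 479, .negSucc
  959, .ofNat 0⟩ ⟨.ofNat 1969, .ofNat 1947, .ofNat 83, .negSucc 3998⟩, .q
  ⟨.ofNat 1433, .negSucc 472, .negSucc 959, .ofNat 0⟩ ⟨.negSucc 519,
  .negSucc 636, .negSucc 2189, .ofNat 3347⟩, .q ⟨.ofNat 1440, .negSucc 479,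
  .negSucc 959, .ofNat 0⟩ ⟨.negSucc 519, .negSucc 636, .negSucc 2189, .ofNat
  3347⟩, .q ⟨.ofNat 1433, .negSucc 472, .negSucc 959, .ofNat 0⟩ ⟨.ofNat
  2601, .ofNat 2582, .negSucc 3723, .negSucc 1458⟩, .q ⟨.ofNat 1440,
  .negSucc 479, .negSucc 959, .ofNat 0⟩ ⟨.ofNat 2601, .ofNat 2582, .negSucc
  3723, .negSucc 1458⟩],
[.q ⟨.negSucc 20, .negSucc 18, .ofNat 40, .ofNat 0⟩ ⟨.negSucc 58, .ofNat 19,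
  .ofNat 40, .ofNat 0⟩, .q ⟨.ofNat 17, .ofNat 23, .negSucc 39, .ofNat 0⟩
  ⟨.negSucc 62, .ofNat 23, .ofNat 40, .ofNat 0⟩, .q ⟨.ofNat 59, .negSucc 18,
  .negSucc 39, .ofNat 0⟩ ⟨.ofNat 1113, .ofNat 612, .ofNat 1831, .negSucc
  3555⟩, .q ⟨.ofNat 63, .negSucc 22, .negSucc 39, .ofNat 0⟩ ⟨.ofNat 1113,
  .ofNat 612, .ofNat 1831, .negSucc 3555⟩, .q ⟨.ofNat 59, .negSucc 18,
  .negSucc 39, .ofNat 0⟩ ⟨.negSucc 1044, .negSucc 679, .negSucc 1830, .ofNat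
  3556⟩, .q ⟨.ofNat 63, .negSucc 22, .negSucc 39, .ofNat 0⟩ ⟨.negSucc 1044,
  .negSucc 679, .negSucc 1830, .ofNat 3556⟩],
[.q ⟨.negSucc 25, .negSucc 20, .ofNat 15, .ofNat 32⟩ ⟨.ofNat 3444, .ofNat
  4108, .negSucc 12159, .ofNat 4608⟩, .q ⟨.negSucc 25, .negSucc 20, .ofNat
  15, .ofNat 32⟩ ⟨.negSucc 12051, .ofNat 21828, .ofNat 464, .negSucc 10239⟩,
  .q ⟨.negSucc 25, .negSucc 20, .ofNat 15, .ofNat 32⟩ ⟨.ofNat 1172, .negSucc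
  11615, .ofNat 10700, .negSucc 255⟩],
[.q ⟨.ofNat 17, .negSucc 18, .negSucc 27, .ofNat 30⟩ ⟨.ofNat 2307, .ofNat
  1797, .negSucc 2063, .negSucc 2039⟩, .q ⟨.ofNat 17, .negSucc 18, .negSucc
  27, .ofNat 30⟩ ⟨.negSucc 4790, .ofNat 2397, .ofNat 1014, .ofNat 1380⟩, .q
  ⟨.ofNat 17, .negSucc 18, .negSucc 27, .ofNat 30⟩ ⟨.ofNat 300, .negSucc
  3518, .ofNat 1629, .ofNat 1590⟩],
[.q ⟨.negSucc 0, .ofNat 0, .ofNat 0, .ofNat 1⟩ ⟨.ofNat 599, .negSucc 706,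
  .ofNat 707, .negSucc 598⟩, .q ⟨.negSucc 0, .ofNat 0, .ofNat 0, .ofNat 1⟩
  ⟨.ofNat 2339, .negSucc 2351, .negSucc 3234, .ofNat 3248⟩, .q ⟨.negSucc 0,
  .ofNat 0, .ofNat 0, .ofNat 1⟩ ⟨.negSucc 3626, .ofNat 3602, .negSucc 1738,
  .ofNat 1764⟩, .q ⟨.negSucc 0, .ofNat 0, .ofNat 0, .ofNat 1⟩ ⟨.negSucc 714,
  .ofNat 376, .ofNat 3982, .negSucc 3642⟩],
[.q ⟨.negSucc 43, .negSucc 35, .ofNat 80, .ofNat 0⟩ ⟨.negSucc 115, .ofNat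
  36, .ofNat 80, .ofNat 0⟩, .q ⟨.ofNat 41, .ofNat 39, .negSucc 79, .ofNat 0⟩
  ⟨.negSucc 118, .ofNat 39, .ofNat 80, .ofNat 0⟩, .q ⟨.ofNat 116, .negSucc
  35, .negSucc 79, .ofNat 0⟩ ⟨.ofNat 471, .ofNat 3529, .ofNat 0, .negSucc
  3999⟩, .q ⟨.ofNat 119, .negSucc 38, .negSucc 79, .ofNat 0⟩ ⟨.ofNat 471,
  .ofNat 3529, .ofNat 0, .negSucc 3999⟩, .q ⟨.ofNat 116, .negSucc 35,
  .negSucc 79, .ofNat 0⟩ ⟨.negSucc 288, .negSucc 3710, .ofNat 0, .ofNat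
  4000⟩, .q ⟨.ofNat 119, .negSucc 38, .negSucc 79, .ofNat 0⟩ ⟨.negSucc 288,
  .negSucc 3710, .ofNat 0, .ofNat 4000⟩],
[.q ⟨.negSucc 0, .ofNat 1, .ofNat 0, .ofNat 0⟩ ⟨.negSucc 276, .negSucc 42,
  .ofNat 320, .ofNat 0⟩, .q ⟨.negSucc 0, .ofNat 1, .ofNat 0, .ofNat 0⟩
  ⟨.ofNat 961, .ofNat 959, .negSucc 1919, .ofNat 0⟩, .l ⟨.ofNat 0, .ofNat 0,
  .negSucc 1919, .ofNat 59⟩ ⟨.ofNat 0, .ofNat 0, .ofNat 0, .ofNat 1⟩, .l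
  ⟨.ofNat 0, .ofNat 0, .ofNat 640, .ofNat 49⟩ ⟨.ofNat 0, .ofNat 0, .ofNat 0,
  .ofNat 1⟩],
[.l ⟨.ofNat 0, .negSucc 359, .negSucc 3983, .ofNat 61⟩ ⟨.ofNat 0, .ofNat 0,
  .ofNat 0, .ofNat 1⟩, .l ⟨.ofNat 0, .ofNat 2141, .negSucc 3378, .ofNat 124⟩
  ⟨.ofNat 0, .ofNat 0, .ofNat 0, .ofNat 1⟩, .l ⟨.ofNat 0, .ofNat 2872,
  .ofNat 2785, .ofNat 194⟩ ⟨.ofNat 0, .ofNat 0, .ofNat 0, .ofNat 1⟩, .l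
  ⟨.ofNat 0, .negSucc 3996, .ofNat 165, .ofNat 67⟩ ⟨.ofNat 0, .ofNat 0,
  .ofNat 0, .ofNat 1⟩],
[.q ⟨.negSucc 0, .ofNat 0, .ofNat 0, .ofNat 1⟩ ⟨.negSucc 2607, .ofNat 2472,
  .ofNat 3145, .negSucc 3008⟩, .q ⟨.negSucc 0, .ofNat 0, .ofNat 0, .ofNat 1⟩
  ⟨.ofNat 2360, .negSucc 2790, .ofNat 2865, .negSucc 2433⟩, .q ⟨.negSucc 0,
  .ofNat 0, .ofNat 0, .ofNat 1⟩ ⟨.ofNat 1323, .negSucc 1354, .negSucc 1470,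
  .ofNat 1503⟩, .q ⟨.negSucc 0, .ofNat 0, .ofNat 0, .ofNat 1⟩ ⟨.negSucc
  3274, .ofNat 3084, .negSucc 2547, .ofNat 2739⟩],
[.q ⟨.negSucc 132, .negSucc 106, .ofNat 240, .ofNat 0⟩ ⟨.negSucc 346, .ofNat
  107, .ofNat 240, .ofNat 0⟩, .q ⟨.ofNat 128, .ofNat 112, .negSucc 239,
  .ofNat 0⟩ ⟨.negSucc 351, .ofNat 112, .ofNat 240, .ofNat 0⟩, .q ⟨.ofNat
  347, .negSucc 106, .negSucc 239, .ofNat 0⟩ ⟨.ofNat 629, .ofNat 3659,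
  .negSucc 298, .negSucc 3988⟩, .q ⟨.ofNat 352, .negSucc 111, .negSucc 239,
  .ofNat 0⟩ ⟨.ofNat 629, .ofNat 3659, .negSucc 298, .negSucc 3988⟩, .q
  ⟨.ofNat 347, .negSucc 106, .negSucc 239, .ofNat 0⟩ ⟨.negSucc 445, .negSucc
  3841, .ofNat 299, .ofNat 3989⟩, .q ⟨.ofNat 352, .negSucc 111, .negSucc
  239, .ofNat 0⟩ ⟨.negSucc 445, .negSucc 3841, .ofNat 299, .ofNat 3989⟩],
[.q ⟨.negSucc 6, .negSucc 952, .ofNat 960, .ofNat 0⟩ ⟨.negSucc 1912, .ofNat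
  953, .ofNat 960, .ofNat 0⟩, .q ⟨.ofNat 1, .ofNat 959, .negSucc 959, .ofNat
  0⟩ ⟨.negSucc 1918, .ofNat 959, .ofNat 960, .ofNat 0⟩, .q ⟨.ofNat 1913,
  .negSucc 952, .negSucc 959, .ofNat 0⟩ ⟨.ofNat 517, .negSucc 16, .ofNat 0,
  .negSucc 499⟩, .q ⟨.ofNat 1919, .negSucc 958, .negSucc 959, .ofNat 0⟩
  ⟨.ofNat 517, .negSucc 16, .ofNat 0, .negSucc 499⟩, .q ⟨.ofNat 1913,
  .negSucc 952, .negSucc 959, .ofNat 0⟩ ⟨.negSucc 3712, .negSucc 244,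
  .negSucc 41, .ofNat 4000⟩, .q ⟨.ofNat 1919, .negSucc 958, .negSucc 959,
  .ofNat 0⟩ ⟨.negSucc 3712, .negSucc 244, .negSucc 41, .ofNat 4000⟩],
[.q ⟨.negSucc 89, .negSucc 69, .ofNat 160, .ofNat 0⟩ ⟨.negSucc 229, .ofNat
  70, .ofNat 160, .ofNat 0⟩, .q ⟨.ofNat 89, .ofNat 71, .negSucc 159, .ofNat
  0⟩ ⟨.negSucc 230, .ofNat 71, .ofNat 160, .ofNat 0⟩, .q ⟨.ofNat 230,
  .negSucc 69, .negSucc 159, .ofNat 0⟩ ⟨.ofNat 187, .ofNat 1813, .ofNat 0,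
  .negSucc 1999⟩, .q ⟨.ofNat 231, .negSucc 70, .negSucc 159, .ofNat 0⟩
  ⟨.ofNat 187, .ofNat 1813, .ofNat 0, .negSucc 1999⟩, .q ⟨.ofNat 230,
  .negSucc 69, .negSucc 159, .ofNat 0⟩ ⟨.negSucc 338, .negSucc 3660, .ofNat
  0, .ofNat 4000⟩, .q ⟨.ofNat 231, .negSucc 70, .negSucc 159, .ofNat 0⟩
  ⟨.negSucc 338, .negSucc 3660, .ofNat 0, .ofNat 4000⟩],
[.q ⟨.negSucc 18, .negSucc 20, .ofNat 40, .ofNat 0⟩ ⟨.negSucc 60, .ofNat 21,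
  .ofNat 40, .ofNat 0⟩, .q ⟨.ofNat 16, .ofNat 24, .negSucc 39, .ofNat 0⟩
  ⟨.negSucc 63, .ofNat 24, .ofNat 40, .ofNat 0⟩, .q ⟨.ofNat 61, .negSucc 20,
  .negSucc 39, .ofNat 0⟩ ⟨.ofNat 3279, .ofNat 2330, .negSucc 2437, .negSucc
  3170⟩, .q ⟨.ofNat 64, .negSucc 23, .negSucc 39, .ofNat 0⟩ ⟨.ofNat 3279,
  .ofNat 2330, .negSucc 2437, .negSucc 3170⟩, .q ⟨.ofNat 61, .negSucc 20,
  .negSucc 39, .ofNat 0⟩ ⟨.ofNat 2365, .negSucc 2550, .negSucc 607, .ofNat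
  794⟩, .q ⟨.ofNat 64, .negSucc 23, .negSucc 39, .ofNat 0⟩ ⟨.ofNat 2365,
  .negSucc 2550, .negSucc 607, .ofNat 794⟩, .q ⟨.ofNat 61, .negSucc 20,
  .negSucc 39, .ofNat 0⟩ ⟨.ofNat 762, .ofNat 1195, .negSucc 3631, .ofNat
  1675⟩, .q ⟨.ofNat 64, .negSucc 23, .negSucc 39, .ofNat 0⟩ ⟨.ofNat 762,
  .ofNat 1195, .negSucc 3631, .ofNat 1675⟩],
[.q ⟨.ofNat 17, .negSucc 18, .negSucc 27, .ofNat 30⟩ ⟨.ofNat 4841, .negSucc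
  1890, .negSucc 1509, .negSucc 1439⟩, .q ⟨.ofNat 17, .negSucc 18, .negSucc
  27, .ofNat 30⟩ ⟨.ofNat 571, .ofNat 3051, .negSucc 1851, .negSucc 1769⟩, .q
  ⟨.ofNat 17, .negSucc 18, .negSucc 27, .ofNat 30⟩ ⟨.negSucc 4720, .ofNat
  1783, .ofNat 1288, .ofNat 1650⟩, .q ⟨.ofNat 17, .negSucc 18, .negSucc 27,
  .ofNat 30⟩ ⟨.negSucc 792, .negSucc 2942, .ofNat 1816, .ofNat 1920⟩],
[.q ⟨.negSucc 74, .ofNat 36, .negSucc 40, .ofNat 80⟩ ⟨.negSucc 1843, .ofNat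
  2952, .ofNat 13292, .negSucc 14399⟩, .q ⟨.negSucc 74, .ofNat 36, .negSucc
  40, .ofNat 80⟩ ⟨.negSucc 6075, .negSucc 8007, .ofNat 324, .ofNat 13760⟩,
  .q ⟨.negSucc 74, .ofNat 36, .negSucc 40, .ofNat 80⟩ ⟨.ofNat 1996, .negSucc
  287, .negSucc 8427, .ofNat 6720⟩, .q ⟨.negSucc 74, .ofNat 36, .negSucc 40,
  .ofNat 80⟩ ⟨.ofNat 1004, .ofNat 820, .negSucc 1823, .ofNat 0⟩],
[.q ⟨.negSucc 74, .ofNat 36, .negSucc 40, .ofNat 80⟩ ⟨.ofNat 5556, .ofNat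
  620, .negSucc 19615, .ofNat 13440⟩, .q ⟨.negSucc 74, .ofNat 36, .negSucc
  40, .ofNat 80⟩ ⟨.ofNat 440, .ofNat 1588, .ofNat 2132, .negSucc 4159⟩, .q
  ⟨.negSucc 74, .ofNat 36, .negSucc 40, .ofNat 80⟩ ⟨.negSucc 6123, .negSucc
  387, .ofNat 19312, .negSucc 12799⟩, .q ⟨.negSucc 74, .ofNat 36, .negSucc
  40, .ofNat 80⟩ ⟨.negSucc 2431, .negSucc 6199, .negSucc 8327, .ofNat
  16960⟩],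
[.l ⟨.ofNat 0, .ofNat 80, .ofNat 0, .negSucc 68⟩ ⟨.ofNat 0, .ofNat 80,
  .ofNat 0, .ofNat 69⟩, .l ⟨.ofNat 0, .negSucc 79, .ofNat 0, .ofNat 72⟩
  ⟨.ofNat 0, .ofNat 80, .ofNat 0, .ofNat 72⟩, .l ⟨.ofNat 0, .ofNat 80,
  .ofNat 0, .negSucc 68⟩ ⟨.ofNat 0, .ofNat 0, .ofNat 4000, .ofNat 3201⟩, .l
  ⟨.ofNat 0, .ofNat 80, .ofNat 0, .negSucc 71⟩ ⟨.ofNat 0, .ofNat 0, .ofNat
  4000, .ofNat 3201⟩, .l ⟨.ofNat 0, .ofNat 80, .ofNat 0, .negSucc 68⟩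
  ⟨.ofNat 0, .ofNat 0, .negSucc 3999, .negSucc 3342⟩, .l ⟨.ofNat 0, .ofNat
  80, .ofNat 0, .negSucc 71⟩ ⟨.ofNat 0, .ofNat 0, .negSucc 3999, .negSucc
  3342⟩],
[.l ⟨.ofNat 0, .ofNat 240, .ofNat 0, .negSucc 208⟩ ⟨.ofNat 0, .ofNat 240,
  .ofNat 0, .ofNat 209⟩, .l ⟨.ofNat 0, .negSucc 239, .ofNat 0, .ofNat 214⟩
  ⟨.ofNat 0, .ofNat 240, .ofNat 0, .ofNat 214⟩, .l ⟨.ofNat 0, .ofNat 240,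
  .ofNat 0, .negSucc 208⟩ ⟨.ofNat 0, .ofNat 0, .ofNat 4000, .ofNat 3201⟩, .l
  ⟨.ofNat 0, .ofNat 240, .ofNat 0, .negSucc 213⟩ ⟨.ofNat 0, .ofNat 0, .ofNat
  4000, .ofNat 3201⟩, .l ⟨.ofNat 0, .ofNat 240, .ofNat 0, .negSucc 208⟩
  ⟨.ofNat 0, .ofNat 0, .negSucc 3999, .negSucc 3348⟩, .l ⟨.ofNat 0, .ofNat
  240, .ofNat 0, .negSucc 213⟩ ⟨.ofNat 0, .ofNat 0, .negSucc 3999, .negSucc
  3348⟩],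
[.q ⟨.negSucc 442, .negSucc 516, .ofNat 960, .ofNat 0⟩ ⟨.negSucc 1476,
  .ofNat 517, .ofNat 960, .ofNat 0⟩, .q ⟨.ofNat 433, .ofNat 527, .negSucc
  959, .ofNat 0⟩ ⟨.negSucc 1486, .ofNat 527, .ofNat 960, .ofNat 0⟩, .q
  ⟨.ofNat 1477, .negSucc 516, .negSucc 959, .ofNat 0⟩ ⟨.ofNat 898, .ofNat
  73, .ofNat 2301, .negSucc 3271⟩, .q ⟨.ofNat 1487, .negSucc 526, .negSucc
  959, .ofNat 0⟩ ⟨.ofNat 898, .ofNat 73, .ofNat 2301, .negSucc 3271⟩, .q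
  ⟨.ofNat 1477, .negSucc 516, .negSucc 959, .ofNat 0⟩ ⟨.negSucc 660,
  .negSucc 309, .negSucc 2300, .ofNat 3272⟩, .q ⟨.ofNat 1487, .negSucc 526,
  .negSucc 959, .ofNat 0⟩ ⟨.negSucc 660, .negSucc 309, .negSucc 2300, .ofNat
  3272⟩, .q ⟨.ofNat 1477, .negSucc 516, .negSucc 959, .ofNat 0⟩ ⟨.ofNat 697,
  .ofNat 1080, .negSucc 3573, .ofNat 1797⟩, .q ⟨.ofNat 1487, .negSucc 526,
  .negSucc 959, .ofNat 0⟩ ⟨.ofNat 697, .ofNat 1080, .negSucc 3573, .ofNat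
  1797⟩],
[.q ⟨.ofNat 17, .negSucc 18, .negSucc 27, .ofNat 30⟩ ⟨.negSucc 2368, .ofNat
  901, .ofNat 658, .ofNat 810⟩, .q ⟨.ofNat 17, .negSucc 18, .negSucc 27,
  .ofNat 30⟩ ⟨.ofNat 1286, .negSucc 3931, .ofNat 1296, .ofNat 1350⟩, .q
  ⟨.ofNat 17, .negSucc 18, .negSucc 27, .ofNat 30⟩ ⟨.ofNat 3026, .ofNat
  1107, .negSucc 2062, .negSucc 2069⟩],
[.q ⟨.negSucc 236, .negSucc 242, .ofNat 480, .ofNat 0⟩ ⟨.negSucc 722, .ofNat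
  243, .ofNat 480, .ofNat 0⟩, .q ⟨.ofNat 227, .ofNat 253, .negSucc 479,
  .ofNat 0⟩ ⟨.negSucc 732, .ofNat 253, .ofNat 480, .ofNat 0⟩, .q ⟨.ofNat
  723, .negSucc 242, .negSucc 479, .ofNat 0⟩ ⟨.ofNat 2116, .ofNat 68, .ofNat
  1517, .negSucc 3700⟩, .q ⟨.ofNat 733, .negSucc 252, .negSucc 479, .ofNat
  0⟩ ⟨.ofNat 2116, .ofNat 68, .ofNat 1517, .negSucc 3700⟩, .q ⟨.ofNat 723,
  .negSucc 242, .negSucc 479, .ofNat 0⟩ ⟨.negSucc 1275, .negSucc 907,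
  .negSucc 1516, .ofNat 3701⟩, .q ⟨.ofNat 733, .negSucc 252, .negSucc 479,
  .ofNat 0⟩ ⟨.negSucc 1275, .negSucc 907, .negSucc 1516, .ofNat 3701⟩],
[.q ⟨.negSucc 0, .ofNat 1, .ofNat 0, .ofNat 0⟩ ⟨.negSucc 796, .negSucc 162,
  .ofNat 960, .ofNat 0⟩, .q ⟨.negSucc 0, .ofNat 1, .ofNat 0, .ofNat 0⟩
  ⟨.ofNat 961, .ofNat 959, .negSucc 1919, .ofNat 0⟩, .l ⟨.ofNat 0, .ofNat 0,
  .negSucc 319, .negSucc 42⟩ ⟨.ofNat 0, .ofNat 0, .ofNat 0, .ofNat 1⟩, .l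
  ⟨.ofNat 0, .ofNat 0, .ofNat 192, .ofNat 35⟩ ⟨.ofNat 0, .ofNat 0, .ofNat 0,
  .ofNat 1⟩],
[.q ⟨.negSucc 0, .ofNat 0, .ofNat 0, .ofNat 1⟩ ⟨.ofNat 2391, .negSucc 2827,
  .ofNat 2828, .negSucc 2390⟩, .q ⟨.negSucc 0, .ofNat 0, .ofNat 0, .ofNat 1⟩
  ⟨.ofNat 3584, .negSucc 3866, .negSucc 1022, .ofNat 1306⟩, .q ⟨.negSucc 0,
  .ofNat 0, .ofNat 0, .ofNat 1⟩ ⟨.negSucc 213, .ofNat 7, .negSucc 3999,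
  .ofNat 4207⟩, .q ⟨.negSucc 0, .ofNat 0, .ofNat 0, .ofNat 1⟩ ⟨.negSucc
  3516, .ofNat 3595, .ofNat 1754, .negSucc 1831⟩],
[.q ⟨.negSucc 0, .ofNat 0, .ofNat 0, .ofNat 1⟩ ⟨.negSucc 1458, .ofNat 1195,
  .ofNat 3817, .negSucc 3552⟩, .q ⟨.negSucc 0, .ofNat 0, .ofNat 0, .ofNat 1⟩
  ⟨.ofNat 2391, .negSucc 2827, .ofNat 2828, .negSucc 2390⟩, .q ⟨.negSucc 0,
  .ofNat 0, .ofNat 0, .ofNat 1⟩ ⟨.ofNat 3548, .negSucc 3814, .negSucc 1200,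
  .ofNat 1468⟩, .q ⟨.negSucc 0, .ofNat 0, .ofNat 0, .ofNat 1⟩ ⟨.ofNat 476,
  .negSucc 707, .negSucc 3936, .ofNat 4169⟩, .q ⟨.negSucc 0, .ofNat 0,
  .ofNat 0, .ofNat 1⟩ ⟨.negSucc 4032, .ofNat 3959, .negSucc 568, .ofNat
  643⟩],
[.l ⟨.ofNat 0, .ofNat 240, .ofNat 0, .negSucc 184⟩ ⟨.ofNat 0, .ofNat 240,
  .ofNat 0, .ofNat 185⟩, .l ⟨.ofNat 0, .negSucc 239, .ofNat 0, .ofNat 199⟩
  ⟨.ofNat 0, .ofNat 240, .ofNat 0, .ofNat 199⟩, .l ⟨.ofNat 0, .ofNat 240,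
  .ofNat 0, .negSucc 184⟩ ⟨.ofNat 0, .negSucc 710, .ofNat 3936, .negSucc
  8536⟩, .l ⟨.ofNat 0, .ofNat 240, .ofNat 0, .negSucc 198⟩ ⟨.ofNat 0,
  .negSucc 710, .ofNat 3936, .negSucc 8536⟩, .l ⟨.ofNat 0, .ofNat 240,
  .ofNat 0, .negSucc 184⟩ ⟨.ofNat 0, .ofNat 1127, .negSucc 3837, .negSucc
  3121⟩, .l ⟨.ofNat 0, .ofNat 240, .ofNat 0, .negSucc 198⟩ ⟨.ofNat 0, .ofNat
  1127, .negSucc 3837, .negSucc 3121⟩, .l ⟨.ofNat 0, .ofNat 240, .ofNat 0,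
  .negSucc 184⟩ ⟨.ofNat 0, .ofNat 2969, .ofNat 2680, .ofNat 4949⟩, .l
  ⟨.ofNat 0, .ofNat 240, .ofNat 0, .negSucc 198⟩ ⟨.ofNat 0, .ofNat 2969,
  .ofNat 2680, .ofNat 4949⟩],
[.q ⟨.negSucc 0, .ofNat 0, .ofNat 0, .ofNat 1⟩ ⟨.negSucc 2139, .ofNat 2649,
  .negSucc 2996, .ofNat 2488⟩, .q ⟨.negSucc 0, .ofNat 0, .ofNat 0, .ofNat 1⟩
  ⟨.negSucc 3700, .ofNat 4000, .ofNat 26, .negSucc 324⟩, .q ⟨.negSucc 0,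
  .ofNat 0, .ofNat 0, .ofNat 1⟩ ⟨.negSucc 82, .negSucc 107, .ofNat 1329,
  .negSucc 1137⟩, .q ⟨.negSucc 0, .ofNat 0, .ofNat 0, .ofNat 1⟩ ⟨.ofNat
  1752, .negSucc 1984, .ofNat 243, .negSucc 9⟩],
[.q ⟨.negSucc 25, .negSucc 20, .ofNat 15, .ofNat 32⟩ ⟨.negSucc 4983, .ofNat
  10436, .negSucc 1739, .negSucc 3711⟩, .q ⟨.negSucc 25, .negSucc 20, .ofNat
  15, .ofNat 32⟩ ⟨.negSucc 4807, .negSucc 2067, .ofNat 12380, .negSucc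
  5503⟩, .q ⟨.negSucc 25, .negSucc 20, .ofNat 15, .ofNat 32⟩ ⟨.ofNat 9212,
  .negSucc 6955, .negSucc 11599, .ofNat 9344⟩, .q ⟨.negSucc 25, .negSucc 20,
  .ofNat 15, .ofNat 32⟩ ⟨.ofNat 2620, .ofNat 5404, .negSucc 11991, .ofNat
  3968⟩],
[.q ⟨.ofNat 11, .negSucc 12, .negSucc 17, .ofNat 20⟩ ⟨.negSucc 4048, .ofNat
  3702, .negSucc 92, .ofNat 440⟩, .q ⟨.ofNat 11, .negSucc 12, .negSucc 17,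
  .ofNat 20⟩ ⟨.negSucc 2800, .negSucc 1416, .ofNat 2038, .ofNat 2180⟩, .q
  ⟨.ofNat 11, .negSucc 12, .negSucc 17, .ofNat 20⟩ ⟨.ofNat 4830, .negSucc
  2520, .negSucc 1028, .negSucc 1279⟩, .q ⟨.ofNat 11, .negSucc 12, .negSucc
  17, .ofNat 20⟩ ⟨.ofNat 977, .ofNat 1073, .negSucc 1069, .negSucc 979⟩],
[.l ⟨.ofNat 0, .ofNat 20, .ofNat 0, .negSucc 15⟩ ⟨.ofNat 0, .ofNat 20,
  .ofNat 0, .ofNat 16⟩, .l ⟨.ofNat 0, .negSucc 19, .ofNat 0, .ofNat 19⟩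
  ⟨.ofNat 0, .ofNat 20, .ofNat 0, .ofNat 19⟩, .l ⟨.ofNat 0, .ofNat 20,
  .ofNat 0, .negSucc 15⟩ ⟨.ofNat 0, .ofNat 0, .ofNat 1000, .ofNat 501⟩, .l
  ⟨.ofNat 0, .ofNat 20, .ofNat 0, .negSucc 18⟩ ⟨.ofNat 0, .ofNat 0, .ofNat
  1000, .ofNat 501⟩, .l ⟨.ofNat 0, .ofNat 20, .ofNat 0, .negSucc 15⟩ ⟨.ofNat
  0, .ofNat 0, .negSucc 1999, .negSucc 1192⟩, .l ⟨.ofNat 0, .ofNat 20,
  .ofNat 0, .negSucc 18⟩ ⟨.ofNat 0, .ofNat 0, .negSucc 1999, .negSucc 1192⟩,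
  .l ⟨.ofNat 0, .ofNat 20, .ofNat 0, .negSucc 15⟩ ⟨.ofNat 0, .ofNat 2851,
  .ofNat 2805, .ofNat 3969⟩, .l ⟨.ofNat 0, .ofNat 20, .ofNat 0, .negSucc 18⟩
  ⟨.ofNat 0, .ofNat 2851, .ofNat 2805, .ofNat 3969⟩],
[.l ⟨.ofNat 0, .ofNat 40, .ofNat 0, .negSucc 26⟩ ⟨.ofNat 0, .ofNat 40,
  .ofNat 0, .ofNat 27⟩, .l ⟨.ofNat 0, .negSucc 39, .ofNat 0, .ofNat 31⟩
  ⟨.ofNat 0, .ofNat 40, .ofNat 0, .ofNat 31⟩, .l ⟨.ofNat 0, .ofNat 40,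
  .ofNat 0, .negSucc 26⟩ ⟨.ofNat 0, .ofNat 0, .ofNat 1000, .ofNat 723⟩, .l
  ⟨.ofNat 0, .ofNat 40, .ofNat 0, .negSucc 30⟩ ⟨.ofNat 0, .ofNat 0, .ofNat
  1000, .ofNat 723⟩, .l ⟨.ofNat 0, .ofNat 40, .ofNat 0, .negSucc 26⟩ ⟨.ofNat
  0, .ofNat 548, .negSucc 3961, .negSucc 2840⟩, .l ⟨.ofNat 0, .ofNat 40,
  .ofNat 0, .negSucc 30⟩ ⟨.ofNat 0, .ofNat 548, .negSucc 3961, .negSucc
  2840⟩, .l ⟨.ofNat 0, .ofNat 40, .ofNat 0, .negSucc 26⟩ ⟨.ofNat 0, .ofNat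
  2993, .ofNat 2654, .ofNat 4156⟩, .l ⟨.ofNat 0, .ofNat 40, .ofNat 0,
  .negSucc 30⟩ ⟨.ofNat 0, .ofNat 2993, .ofNat 2654, .ofNat 4156⟩],
[.q ⟨.negSucc 6, .negSucc 32, .ofNat 40, .ofNat 0⟩ ⟨.negSucc 72, .ofNat 33,
  .ofNat 40, .ofNat 0⟩, .q ⟨.ofNat 4, .ofNat 36, .negSucc 39, .ofNat 0⟩
  ⟨.negSucc 75, .ofNat 36, .ofNat 40, .ofNat 0⟩, .q ⟨.ofNat 73, .negSucc 32,
  .negSucc 39, .ofNat 0⟩ ⟨.ofNat 4056, .ofNat 237, .negSucc 304, .negSucc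
  3987⟩, .q ⟨.ofNat 76, .negSucc 35, .negSucc 39, .ofNat 0⟩ ⟨.ofNat 4056,
  .ofNat 237, .negSucc 304, .negSucc 3987⟩, .q ⟨.ofNat 73, .negSucc 32,
  .negSucc 39, .ofNat 0⟩ ⟨.negSucc 3306, .ofNat 1404, .negSucc 1711, .ofNat
  3615⟩, .q ⟨.ofNat 76, .negSucc 35, .negSucc 39, .ofNat 0⟩ ⟨.negSucc 3306,
  .ofNat 1404, .negSucc 1711, .ofNat 3615⟩, .q ⟨.ofNat 73, .negSucc 32,
  .negSucc 39, .ofNat 0⟩ ⟨.ofNat 1579, .ofNat 1245, .negSucc 1490, .negSucc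
  1332⟩, .q ⟨.ofNat 76, .negSucc 35, .negSucc 39, .ofNat 0⟩ ⟨.ofNat 1579,
  .ofNat 1245, .negSucc 1490, .negSucc 1332⟩],
[.l ⟨.ofNat 0, .ofNat 480, .ofNat 0, .negSucc 410⟩ ⟨.ofNat 0, .ofNat 480,
  .ofNat 0, .ofNat 411⟩, .l ⟨.ofNat 0, .negSucc 479, .ofNat 0, .ofNat 422⟩
  ⟨.ofNat 0, .ofNat 480, .ofNat 0, .ofNat 422⟩, .l ⟨.ofNat 0, .ofNat 480,
  .ofNat 0, .negSucc 410⟩ ⟨.ofNat 0, .ofNat 2243, .ofNat 3312, .ofNat 4624⟩,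
  .l ⟨.ofNat 0, .ofNat 480, .ofNat 0, .negSucc 421⟩ ⟨.ofNat 0, .ofNat 2243,
  .ofNat 3312, .ofNat 4624⟩, .l ⟨.ofNat 0, .ofNat 480, .ofNat 0, .negSucc
  410⟩ ⟨.ofNat 0, .ofNat 490, .negSucc 3969, .negSucc 2892⟩, .l ⟨.ofNat 0,
  .ofNat 480, .ofNat 0, .negSucc 421⟩ ⟨.ofNat 0, .ofNat 490, .negSucc 3969,
  .negSucc 2892⟩],
[.l ⟨.ofNat 0, .ofNat 40, .ofNat 0, .negSucc 34⟩ ⟨.ofNat 0, .ofNat 40,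
  .ofNat 0, .ofNat 35⟩, .l ⟨.ofNat 0, .negSucc 39, .ofNat 0, .ofNat 37⟩
  ⟨.ofNat 0, .ofNat 40, .ofNat 0, .ofNat 37⟩, .l ⟨.ofNat 0, .ofNat 40,
  .ofNat 0, .negSucc 34⟩ ⟨.ofNat 0, .negSucc 303, .ofNat 3988, .ofNat 3219⟩,
  .l ⟨.ofNat 0, .ofNat 40, .ofNat 0, .negSucc 36⟩ ⟨.ofNat 0, .negSucc 303,
  .ofNat 3988, .ofNat 3219⟩, .l ⟨.ofNat 0, .ofNat 40, .ofNat 0, .negSucc 34⟩
  ⟨.ofNat 0, .ofNat 152, .negSucc 1993, .negSucc 1752⟩, .l ⟨.ofNat 0, .ofNat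
  40, .ofNat 0, .negSucc 36⟩ ⟨.ofNat 0, .ofNat 152, .negSucc 1993, .negSucc
  1752⟩, .l ⟨.ofNat 0, .ofNat 40, .ofNat 0, .negSucc 34⟩ ⟨.ofNat 0, .ofNat
  1985, .ofNat 3473, .ofNat 4862⟩, .l ⟨.ofNat 0, .ofNat 40, .ofNat 0,
  .negSucc 36⟩ ⟨.ofNat 0, .ofNat 1985, .ofNat 3473, .ofNat 4862⟩],
[.q ⟨.negSucc 25, .negSucc 20, .ofNat 15, .ofNat 32⟩ ⟨.ofNat 9656, .negSucc
  21123, .ofNat 3660, .ofNat 7808⟩, .q ⟨.negSucc 25, .negSucc 20, .ofNat 15,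
  .ofNat 32⟩ ⟨.ofNat 2752, .ofNat 208, .negSucc 6159, .ofNat 3200⟩, .q
  ⟨.negSucc 25, .negSucc 20, .ofNat 15, .ofNat 32⟩ ⟨.negSucc 9863, .ofNat
  20956, .negSucc 3539, .negSucc 7551⟩, .q ⟨.negSucc 25, .negSucc 20, .ofNat
  15, .ofNat 32⟩ ⟨.negSucc 2631, .negSucc 623, .ofNat 6200, .negSucc 2943⟩],
[.q ⟨.ofNat 11, .negSucc 12, .negSucc 17, .ofNat 20⟩ ⟨.negSucc 2435,
  .negSucc 1771, .ofNat 1988, .ofNat 2220⟩, .q ⟨.ofNat 11, .negSucc 12,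
  .negSucc 17, .ofNat 20⟩ ⟨.ofNat 3947, .negSucc 3934, .ofNat 88, .negSucc
  99⟩, .q ⟨.ofNat 11, .negSucc 12, .negSucc 17, .ofNat 20⟩ ⟨.ofNat 3841,
  .ofNat 196, .negSucc 1956, .negSucc 2079⟩, .q ⟨.ofNat 11, .negSucc 12,
  .negSucc 17, .ofNat 20⟩ ⟨.negSucc 420, .ofNat 3566, .negSucc 1724,
  .negSucc 1419⟩, .q ⟨.ofNat 11, .negSucc 12, .negSucc 17, .ofNat 20⟩
  ⟨.negSucc 2382, .ofNat 1104, .ofNat 519, .ofNat 760⟩],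
[.q ⟨.negSucc 18, .negSucc 15, .ofNat 11, .ofNat 24⟩ ⟨.ofNat 8156, .negSucc
  20007, .ofNat 5516, .ofNat 6336⟩, .q ⟨.negSucc 18, .negSucc 15, .ofNat 11,
  .ofNat 24⟩ ⟨.ofNat 8584, .negSucc 5747, .negSucc 11859, .ofNat 9024⟩, .q
  ⟨.negSucc 18, .negSucc 15, .ofNat 11, .ofNat 24⟩ ⟨.negSucc 1847, .ofNat
  12300, .negSucc 10355, .negSucc 95⟩, .q ⟨.negSucc 18, .negSucc 15, .ofNat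
  11, .ofNat 24⟩ ⟨.negSucc 7387, .ofNat 3024, .ofNat 12236, .negSucc 7871⟩],
[.q ⟨.negSucc 42, .negSucc 36, .ofNat 80, .ofNat 0⟩ ⟨.negSucc 116, .ofNat
  37, .ofNat 80, .ofNat 0⟩, .q ⟨.ofNat 39, .ofNat 41, .negSucc 79, .ofNat 0⟩
  ⟨.negSucc 120, .ofNat 41, .ofNat 80, .ofNat 0⟩, .q ⟨.ofNat 117, .negSucc
  36, .negSucc 79, .ofNat 0⟩ ⟨.ofNat 403, .ofNat 397, .ofNat 0, .negSucc
  799⟩, .q ⟨.ofNat 121, .negSucc 40, .negSucc 79, .ofNat 0⟩ ⟨.ofNat 403,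
  .ofNat 397, .ofNat 0, .negSucc 799⟩, .q ⟨.ofNat 117, .negSucc 36, .negSucc
  79, .ofNat 0⟩ ⟨.ofNat 10622, .negSucc 13493, .negSucc 1000, .ofNat 3873⟩,
  .q ⟨.ofNat 121, .negSucc 40, .negSucc 79, .ofNat 0⟩ ⟨.ofNat 10622,
  .negSucc 13493, .negSucc 1000, .ofNat 3873⟩, .q ⟨.ofNat 117, .negSucc 36,
  .negSucc 79, .ofNat 0⟩ ⟨.ofNat 2660, .ofNat 2645, .negSucc 3633, .negSucc
  1670⟩, .q ⟨.ofNat 121, .negSucc 40, .negSucc 79, .ofNat 0⟩ ⟨.ofNat 2660,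
  .ofNat 2645, .negSucc 3633, .negSucc 1670⟩, .q ⟨.ofNat 117, .negSucc 36,
  .negSucc 79, .ofNat 0⟩ ⟨.ofNat 193, .ofNat 81, .negSucc 2961, .ofNat
  2688⟩, .q ⟨.ofNat 121, .negSucc 40, .negSucc 79, .ofNat 0⟩ ⟨.ofNat 193,
  .ofNat 81, .negSucc 2961, .ofNat 2688⟩],
[.q ⟨.negSucc 18, .negSucc 15, .ofNat 11, .ofNat 24⟩ ⟨.negSucc 7519, .ofNat
  3272, .ofNat 12216, .negSucc 7967⟩, .q ⟨.negSucc 18, .negSucc 15, .ofNat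
  11, .ofNat 24⟩ ⟨.ofNat 600, .negSucc 5747, .ofNat 5340, .negSucc 191⟩, .q
  ⟨.negSucc 18, .negSucc 15, .ofNat 11, .ofNat 24⟩ ⟨.ofNat 7308, .negSucc
  3083, .negSucc 12191, .ofNat 7968⟩, .q ⟨.negSucc 18, .negSucc 15, .ofNat
  11, .ofNat 24⟩ ⟨.negSucc 1431, .ofNat 11708, .negSucc 10563, .ofNat 288⟩],
[.q ⟨.negSucc 19, .negSucc 19, .ofNat 40, .ofNat 0⟩ ⟨.negSucc 59, .ofNat 20,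
  .ofNat 40, .ofNat 0⟩, .q ⟨.ofNat 17, .ofNat 23, .negSucc 39, .ofNat 0⟩
  ⟨.negSucc 62, .ofNat 23, .ofNat 40, .ofNat 0⟩, .q ⟨.ofNat 60, .negSucc 19,
  .negSucc 39, .ofNat 0⟩ ⟨.ofNat 812, .ofNat 551, .negSucc 29, .negSucc
  1332⟩, .q ⟨.ofNat 63, .negSucc 22, .negSucc 39, .ofNat 0⟩ ⟨.ofNat 812,
  .ofNat 551, .negSucc 29, .negSucc 1332⟩, .q ⟨.ofNat 60, .negSucc 19,
  .negSucc 39, .ofNat 0⟩ ⟨.negSucc 1104, .negSucc 741, .negSucc 1749, .ofNat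
  3597⟩, .q ⟨.ofNat 63, .negSucc 22, .negSucc 39, .ofNat 0⟩ ⟨.negSucc 1104,
  .negSucc 741, .negSucc 1749, .ofNat 3597⟩],
[.q ⟨.negSucc 123, .negSucc 115, .ofNat 240, .ofNat 0⟩ ⟨.negSucc 355, .ofNat
  116, .ofNat 240, .ofNat 0⟩, .q ⟨.ofNat 119, .ofNat 121, .negSucc 239,
  .ofNat 0⟩ ⟨.negSucc 360, .ofNat 121, .ofNat 240, .ofNat 0⟩, .q ⟨.ofNat
  356, .negSucc 115, .negSucc 239, .ofNat 0⟩ ⟨.ofNat 1011, .ofNat 989,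
  .ofNat 0, .negSucc 1999⟩, .q ⟨.ofNat 361, .negSucc 120, .negSucc 239,
  .ofNat 0⟩ ⟨.ofNat 1011, .ofNat 989, .ofNat 0, .negSucc 1999⟩, .q ⟨.ofNat
  356, .negSucc 115, .negSucc 239, .ofNat 0⟩ ⟨.negSucc 1756, .negSucc 2242,
  .ofNat 0, .ofNat 4000⟩, .q ⟨.ofNat 361, .negSucc 120, .negSucc 239, .ofNat
  0⟩ ⟨.negSucc 1756, .negSucc 2242, .ofNat 0, .ofNat 4000⟩, .q ⟨.ofNat 356,
  .negSucc 115, .negSucc 239, .ofNat 0⟩ ⟨.ofNat 2651, .ofNat 2654, .negSucc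
  3634, .negSucc 1669⟩, .q ⟨.ofNat 361, .negSucc 120, .negSucc 239, .ofNat
  0⟩ ⟨.ofNat 2651, .ofNat 2654, .negSucc 3634, .negSucc 1669⟩],
[.q ⟨.negSucc 0, .ofNat 0, .ofNat 0, .ofNat 1⟩ ⟨.ofNat 672, .negSucc 406,
  .negSucc 3978, .ofNat 3714⟩, .q ⟨.negSucc 0, .ofNat 0, .ofNat 0, .ofNat 1⟩
  ⟨.negSucc 2262, .ofNat 2762, .negSucc 2893, .ofNat 2395⟩, .q ⟨.negSucc 0,
  .ofNat 0, .ofNat 0, .ofNat 1⟩ ⟨.negSucc 1152, .ofNat 831, .ofNat 3913,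
  .negSucc 3590⟩, .q ⟨.negSucc 0, .ofNat 0, .ofNat 0, .ofNat 1⟩ ⟨.ofNat
  3121, .negSucc 3836, .ofNat 1129, .negSucc 412⟩],
[.l ⟨.ofNat 0, .negSucc 2588, .ofNat 3049, .ofNat 366⟩ ⟨.ofNat 0, .ofNat 0,
  .ofNat 0, .ofNat 1⟩, .l ⟨.ofNat 0, .negSucc 3713, .negSucc 1484, .negSucc
  46⟩ ⟨.ofNat 0, .ofNat 0, .ofNat 0, .ofNat 1⟩, .l ⟨.ofNat 0, .ofNat 1237,
  .negSucc 3803, .negSucc 230⟩ ⟨.ofNat 0, .ofNat 0, .ofNat 0, .ofNat 1⟩, .l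
  ⟨.ofNat 0, .ofNat 712, .ofNat 3936, .ofNat 1801⟩ ⟨.ofNat 0, .ofNat 0,
  .ofNat 0, .ofNat 1⟩],
[.q ⟨.negSucc 43, .negSucc 35, .ofNat 80, .ofNat 0⟩ ⟨.negSucc 115, .ofNat
  36, .ofNat 80, .ofNat 0⟩, .q ⟨.ofNat 41, .ofNat 39, .negSucc 79, .ofNat 0⟩
  ⟨.negSucc 118, .ofNat 39, .ofNat 80, .ofNat 0⟩, .q ⟨.ofNat 116, .negSucc
  35, .negSucc 79, .ofNat 0⟩ ⟨.ofNat 8905, .negSucc 8332, .ofNat 2528,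
  .negSucc 3099⟩, .q ⟨.ofNat 119, .negSucc 38, .negSucc 79, .ofNat 0⟩
  ⟨.ofNat 8905, .negSucc 8332, .ofNat 2528, .negSucc 3099⟩, .q ⟨.ofNat 116,
  .negSucc 35, .negSucc 79, .ofNat 0⟩ ⟨.ofNat 583, .negSucc 868, .negSucc
  1263, .ofNat 1550⟩, .q ⟨.ofNat 119, .negSucc 38, .negSucc 79, .ofNat 0⟩
  ⟨.ofNat 583, .negSucc 868, .negSucc 1263, .ofNat 1550⟩, .q ⟨.ofNat 116,
  .negSucc 35, .negSucc 79, .ofNat 0⟩ ⟨.ofNat 1075, .ofNat 3896, .negSucc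
  1135, .negSucc 3834⟩, .q ⟨.ofNat 119, .negSucc 38, .negSucc 79, .ofNat 0⟩
  ⟨.ofNat 1075, .ofNat 3896, .negSucc 1135, .negSucc 3834⟩],
[.q ⟨.negSucc 0, .ofNat 0, .ofNat 0, .ofNat 1⟩ ⟨.ofNat 3375, .negSucc 3419,
  .negSucc 2073, .ofNat 2119⟩, .q ⟨.negSucc 0, .ofNat 0, .ofNat 0, .ofNat 1⟩
  ⟨.negSucc 4029, .ofNat 3922, .negSucc 786, .ofNat 895⟩, .q ⟨.negSucc 0,
  .ofNat 0, .ofNat 0, .ofNat 1⟩ ⟨.negSucc 452, .ofNat 98, .ofNat 3999,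
  .negSucc 3643⟩, .q ⟨.negSucc 0, .ofNat 0, .ofNat 0, .ofNat 1⟩ ⟨.ofNat
  2583, .negSucc 3011, .ofNat 2632, .negSucc 2202⟩],
[.l ⟨.ofNat 0, .ofNat 40, .ofNat 0, .negSucc 37⟩ ⟨.ofNat 0, .ofNat 40,
  .ofNat 0, .ofNat 38⟩, .l ⟨.ofNat 0, .negSucc 39, .ofNat 0, .ofNat 41⟩
  ⟨.ofNat 0, .ofNat 40, .ofNat 0, .ofNat 41⟩, .l ⟨.ofNat 0, .ofNat 40,
  .ofNat 0, .negSucc 37⟩ ⟨.ofNat 0, .ofNat 1090, .ofNat 3849, .ofNat 2901⟩,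
  .l ⟨.ofNat 0, .ofNat 40, .ofNat 0, .negSucc 40⟩ ⟨.ofNat 0, .ofNat 1090,
  .ofNat 3849, .ofNat 2901⟩, .l ⟨.ofNat 0, .ofNat 40, .ofNat 0, .negSucc 37⟩
  ⟨.ofNat 0, .ofNat 372, .negSucc 3982, .negSucc 2902⟩, .l ⟨.ofNat 0, .ofNat
  40, .ofNat 0, .negSucc 40⟩ ⟨.ofNat 0, .ofNat 372, .negSucc 3982, .negSucc
  2902⟩],
[.l ⟨.ofNat 0, .ofNat 480, .ofNat 0, .negSucc 424⟩ ⟨.ofNat 0, .ofNat 480,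
  .ofNat 0, .ofNat 425⟩, .l ⟨.ofNat 0, .negSucc 479, .ofNat 0, .ofNat 432⟩
  ⟨.ofNat 0, .ofNat 480, .ofNat 0, .ofNat 432⟩, .l ⟨.ofNat 0, .ofNat 480,
  .ofNat 0, .negSucc 424⟩ ⟨.ofNat 0, .ofNat 0, .ofNat 4000, .ofNat 3201⟩, .l
  ⟨.ofNat 0, .ofNat 480, .ofNat 0, .negSucc 431⟩ ⟨.ofNat 0, .ofNat 0, .ofNat
  4000, .ofNat 3201⟩, .l ⟨.ofNat 0, .ofNat 480, .ofNat 0, .negSucc 424⟩
  ⟨.ofNat 0, .ofNat 0, .negSucc 3999, .negSucc 3348⟩, .l ⟨.ofNat 0, .ofNat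
  480, .ofNat 0, .negSucc 431⟩ ⟨.ofNat 0, .ofNat 0, .negSucc 3999, .negSucc
  3348⟩],
[.q ⟨.negSucc 21, .negSucc 17, .ofNat 40, .ofNat 0⟩ ⟨.negSucc 57, .ofNat 18,
  .ofNat 40, .ofNat 0⟩, .q ⟨.ofNat 19, .ofNat 21, .negSucc 39, .ofNat 0⟩
  ⟨.negSucc 60, .ofNat 21, .ofNat 40, .ofNat 0⟩, .q ⟨.ofNat 58, .negSucc 17,
  .negSucc 39, .ofNat 0⟩ ⟨.ofNat 153, .ofNat 109, .ofNat 1277, .negSucc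
  1538⟩, .q ⟨.ofNat 61, .negSucc 20, .negSucc 39, .ofNat 0⟩ ⟨.ofNat 153,
  .ofNat 109, .ofNat 1277, .negSucc 1538⟩, .q ⟨.ofNat 58, .negSucc 17,
  .negSucc 39, .ofNat 0⟩ ⟨.ofNat 9034, .negSucc 13704, .ofNat 740, .ofNat
  3931⟩, .q ⟨.ofNat 61, .negSucc 20, .negSucc 39, .ofNat 0⟩ ⟨.ofNat 9034,
  .negSucc 13704, .ofNat 740, .ofNat 3931⟩, .q ⟨.ofNat 58, .negSucc 17,
  .negSucc 39, .ofNat 0⟩ ⟨.ofNat 1335, .ofNat 1350, .negSucc 1786, .negSucc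
  897⟩, .q ⟨.ofNat 61, .negSucc 20, .negSucc 39, .ofNat 0⟩ ⟨.ofNat 1335,
  .ofNat 1350, .negSucc 1786, .negSucc 897⟩, .q ⟨.ofNat 58, .negSucc 17,
  .negSucc 39, .ofNat 0⟩ ⟨.ofNat 171, .negSucc 211, .negSucc 2807, .ofNat
  2849⟩, .q ⟨.ofNat 61, .negSucc 20, .negSucc 39, .ofNat 0⟩ ⟨.ofNat 171,
  .negSucc 211, .negSucc 2807, .ofNat 2849⟩],
[.q ⟨.ofNat 17, .negSucc 18, .negSucc 27, .ofNat 30⟩ ⟨.negSucc 2196, .ofNat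
  4047, .negSucc 1099, .negSucc 749⟩, .q ⟨.ofNat 17, .negSucc 18, .negSucc
  27, .ofNat 30⟩ ⟨.negSucc 4720, .ofNat 1783, .ofNat 1288, .ofNat 1650⟩, .q
  ⟨.ofNat 17, .negSucc 18, .negSucc 27, .ofNat 30⟩ ⟨.ofNat 425, .negSucc
  1888, .ofNat 714, .ofNat 750⟩, .q ⟨.ofNat 17, .negSucc 18, .negSucc 27,
  .ofNat 30⟩ ⟨.ofNat 4886, .negSucc 2938, .negSucc 1016, .negSucc 929⟩, .q
  ⟨.ofNat 17, .negSucc 18, .negSucc 27, .ofNat 30⟩ ⟨.ofNat 2253, .ofNat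
  1845, .negSucc 2057, .negSucc 2039⟩],
[.q ⟨.negSucc 0, .ofNat 1, .ofNat 0, .ofNat 0⟩ ⟨.negSucc 606, .negSucc 352,
  .ofNat 960, .ofNat 0⟩, .q ⟨.negSucc 0, .ofNat 1, .ofNat 0, .ofNat 0⟩
  ⟨.ofNat 961, .ofNat 959, .negSucc 1919, .ofNat 0⟩, .l ⟨.ofNat 0, .ofNat 0,
  .negSucc 639, .ofNat 93⟩ ⟨.ofNat 0, .ofNat 0, .ofNat 0, .ofNat 1⟩, .l
  ⟨.ofNat 0, .ofNat 0, .ofNat 480, .ofNat 331⟩ ⟨.ofNat 0, .ofNat 0, .ofNat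
  0, .ofNat 1⟩],
[.l ⟨.ofNat 0, .ofNat 40, .ofNat 0, .negSucc 36⟩ ⟨.ofNat 0, .ofNat 40,
  .ofNat 0, .ofNat 37⟩, .l ⟨.ofNat 0, .negSucc 39, .ofNat 0, .ofNat 39⟩
  ⟨.ofNat 0, .ofNat 40, .ofNat 0, .ofNat 39⟩, .l ⟨.ofNat 0, .ofNat 40,
  .ofNat 0, .negSucc 36⟩ ⟨.ofNat 0, .negSucc 335, .ofNat 3986, .ofNat 3191⟩,
  .l ⟨.ofNat 0, .ofNat 40, .ofNat 0, .negSucc 38⟩ ⟨.ofNat 0, .negSucc 335,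
  .ofNat 3986, .ofNat 3191⟩, .l ⟨.ofNat 0, .ofNat 40, .ofNat 0, .negSucc 36⟩
  ⟨.ofNat 0, .ofNat 336, .negSucc 3985, .negSucc 3980⟩, .l ⟨.ofNat 0, .ofNat
  40, .ofNat 0, .negSucc 38⟩ ⟨.ofNat 0, .ofNat 336, .negSucc 3985, .negSucc
  3980⟩],
[.q ⟨.negSucc 2, .negSucc 16, .ofNat 20, .ofNat 0⟩ ⟨.negSucc 36, .ofNat 17,
  .ofNat 20, .ofNat 0⟩, .q ⟨.ofNat 0, .ofNat 20, .negSucc 19, .ofNat 0⟩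
  ⟨.negSucc 39, .ofNat 20, .ofNat 20, .ofNat 0⟩, .q ⟨.ofNat 37, .negSucc 16,
  .negSucc 19, .ofNat 0⟩ ⟨.ofNat 3897, .negSucc 678, .ofNat 717, .negSucc
  3934⟩, .q ⟨.ofNat 40, .negSucc 19, .negSucc 19, .ofNat 0⟩ ⟨.ofNat 3897,
  .negSucc 678, .ofNat 717, .negSucc 3934⟩, .q ⟨.ofNat 37, .negSucc 16,
  .negSucc 19, .ofNat 0⟩ ⟨.negSucc 3873, .negSucc 1046, .ofNat 1065, .ofNat
  3856⟩, .q ⟨.ofNat 40, .negSucc 19, .negSucc 19, .ofNat 0⟩ ⟨.negSucc 3873,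
  .negSucc 1046, .ofNat 1065, .ofNat 3856⟩, .q ⟨.ofNat 37, .negSucc 16,
  .negSucc 19, .ofNat 0⟩ ⟨.ofNat 4000, .ofNat 999, .negSucc 1175, .negSucc
  3822⟩, .q ⟨.ofNat 40, .negSucc 19, .negSucc 19, .ofNat 0⟩ ⟨.ofNat 4000,
  .ofNat 999, .negSucc 1175, .negSucc 3822⟩, .q ⟨.ofNat 37, .negSucc 16,
  .negSucc 19, .ofNat 0⟩ ⟨.negSucc 2290, .ofNat 2422, .negSucc 2892, .ofNat
  2762⟩, .q ⟨.ofNat 40, .negSucc 19, .negSucc 19, .ofNat 0⟩ ⟨.negSucc 2290,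
  .ofNat 2422, .negSucc 2892, .ofNat 2762⟩],
[.q ⟨.negSucc 0, .ofNat 1, .ofNat 0, .ofNat 0⟩ ⟨.negSucc 1998, .ofNat 79,
  .ofNat 1920, .ofNat 0⟩, .q ⟨.negSucc 0, .ofNat 1, .ofNat 0, .ofNat 0⟩
  ⟨.ofNat 1841, .ofNat 79, .negSucc 1919, .ofNat 0⟩, .l ⟨.ofNat 0, .ofNat 0,
  .negSucc 1919, .negSucc 1126⟩ ⟨.ofNat 0, .ofNat 0, .ofNat 0, .ofNat 1⟩, .l
  ⟨.ofNat 0, .ofNat 0, .ofNat 1920, .ofNat 1459⟩ ⟨.ofNat 0, .ofNat 0, .ofNat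
  0, .ofNat 1⟩],
[.q ⟨.ofNat 17, .negSucc 18, .negSucc 27, .ofNat 30⟩ ⟨.ofNat 1540, .ofNat
  2413, .negSucc 2002, .negSucc 1949⟩, .q ⟨.ofNat 17, .negSucc 18, .negSucc
  27, .ofNat 30⟩ ⟨.negSucc 4638, .ofNat 3175, .ofNat 564, .ofNat 900⟩, .q
  ⟨.ofNat 17, .negSucc 18, .negSucc 27, .ofNat 30⟩ ⟨.negSucc 1100, .negSucc
  2749, .ofNat 1841, .ofNat 2010⟩, .q ⟨.ofNat 17, .negSucc 18, .negSucc 27,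
  .ofNat 30⟩ ⟨.ofNat 4718, .negSucc 3360, .negSucc 696, .negSucc 659⟩],
[.q ⟨.ofNat 11, .negSucc 12, .negSucc 17, .ofNat 20⟩ ⟨.negSucc 4463, .ofNat
  3307, .ofNat 317, .ofNat 840⟩, .q ⟨.ofNat 11, .negSucc 12, .negSucc 17,
  .ofNat 20⟩ ⟨.negSucc 3874, .negSucc 130, .ofNat 1826, .ofNat 2180⟩, .q
  ⟨.ofNat 11, .negSucc 12, .negSucc 17, .ofNat 20⟩ ⟨.ofNat 1349, .negSucc
  3947, .ofNat 1359, .ofNat 1240⟩, .q ⟨.ofNat 11, .negSucc 12, .negSucc 17,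
  .ofNat 20⟩ ⟨.ofNat 4797, .negSucc 1881, .negSucc 1354, .negSucc 1559⟩, .q
  ⟨.ofNat 11, .negSucc 12, .negSucc 17, .ofNat 20⟩ ⟨.negSucc 175, .ofNat
  915, .negSucc 418, .negSucc 319⟩],
[.q ⟨.negSucc 0, .ofNat 0, .ofNat 0, .ofNat 1⟩ ⟨.ofNat 311, .negSucc 403,
  .ofNat 404, .negSucc 310⟩, .q ⟨.negSucc 0, .ofNat 0, .ofNat 0, .ofNat 1⟩
  ⟨.ofNat 3218, .negSucc 3361, .negSucc 2166, .ofNat 2311⟩, .q ⟨.negSucc 0,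
  .ofNat 0, .ofNat 0, .ofNat 1⟩ ⟨.negSucc 1321, .ofNat 1569, .negSucc 1239,
  .ofNat 993⟩, .q ⟨.negSucc 0, .ofNat 0, .ofNat 0, .ofNat 1⟩ ⟨.negSucc 3718,
  .ofNat 3990, .ofNat 283, .negSucc 553⟩],
[.q ⟨.negSucc 0, .ofNat 0, .ofNat 0, .ofNat 1⟩ ⟨.ofNat 860, .negSucc 483,
  .negSucc 3970, .ofNat 3595⟩, .q ⟨.negSucc 0, .ofNat 0, .ofNat 0, .ofNat 1⟩
  ⟨.negSucc 3711, .ofNat 3997, .ofNat 154, .negSucc 438⟩, .q ⟨.negSucc 0,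
  .ofNat 0, .ofNat 0, .ofNat 1⟩ ⟨.ofNat 1574, .negSucc 2220, .ofNat 3327,
  .negSucc 2679⟩],
[.q ⟨.negSucc 0, .ofNat 0, .ofNat 0, .ofNat 1⟩ ⟨.negSucc 2300, .ofNat 2264,
  .negSucc 3297, .ofNat 3335⟩, .q ⟨.negSucc 0, .ofNat 0, .ofNat 0, .ofNat 1⟩
  ⟨.negSucc 2868, .ofNat 2828, .ofNat 2828, .negSucc 2786⟩, .q ⟨.negSucc 0,
  .ofNat 0, .ofNat 0, .ofNat 1⟩ ⟨.ofNat 2761, .negSucc 3203, .ofNat 2395,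
  .negSucc 1951⟩, .q ⟨.negSucc 0, .ofNat 0, .ofNat 0, .ofNat 1⟩ ⟨.ofNat
  3589, .negSucc 3872, .negSucc 998, .ofNat 1283⟩],
[.q ⟨.negSucc 0, .ofNat 0, .ofNat 0, .ofNat 1⟩ ⟨.negSucc 2096, .ofNat 2600,
  .negSucc 3039, .ofNat 2537⟩, .q ⟨.negSucc 0, .ofNat 0, .ofNat 0, .ofNat 1⟩
  ⟨.negSucc 1847, .ofNat 1612, .ofNat 3661, .negSucc 3424⟩, .q ⟨.negSucc 0,
  .ofNat 0, .ofNat 0, .ofNat 1⟩ ⟨.ofNat 831, .negSucc 999, .ofNat 0, .ofNat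
  169⟩, .q ⟨.negSucc 0, .ofNat 0, .ofNat 0, .ofNat 1⟩ ⟨.ofNat 380, .negSucc
  317, .negSucc 1294, .ofNat 1233⟩],
[.q ⟨.negSucc 0, .ofNat 0, .ofNat 0, .ofNat 1⟩ ⟨.negSucc 3486, .ofNat 3505,
  .negSucc 1926, .ofNat 1909⟩, .q ⟨.negSucc 0, .ofNat 0, .ofNat 0, .ofNat 1⟩
  ⟨.negSucc 362, .ofNat 0, .ofNat 4000, .negSucc 3636⟩, .q ⟨.negSucc 0,
  .ofNat 0, .ofNat 0, .ofNat 1⟩ ⟨.ofNat 454, .negSucc 598, .ofNat 1191,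
  .negSucc 1045⟩, .q ⟨.negSucc 0, .ofNat 0, .ofNat 0, .ofNat 1⟩ ⟨.ofNat
  3140, .negSucc 3233, .negSucc 2352, .ofNat 2447⟩],
[.q ⟨.negSucc 0, .ofNat 0, .ofNat 0, .ofNat 1⟩ ⟨.negSucc 2562, .ofNat 3164,
  .negSucc 2447, .ofNat 1847⟩, .q ⟨.negSucc 0, .ofNat 0, .ofNat 0, .ofNat 1⟩
  ⟨.negSucc 3364, .ofNat 3282, .ofNat 2287, .negSucc 2203⟩, .q ⟨.negSucc 0,
  .ofNat 0, .ofNat 0, .ofNat 1⟩ ⟨.ofNat 3431, .negSucc 3999, .ofNat 0,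
  .ofNat 569⟩, .q ⟨.negSucc 0, .ofNat 0, .ofNat 0, .ofNat 1⟩ ⟨.ofNat 390,
  .negSucc 282, .negSucc 1979, .ofNat 1873⟩],
[.q ⟨.negSucc 0, .ofNat 0, .ofNat 0, .ofNat 1⟩ ⟨.negSucc 362, .ofNat 0,
  .ofNat 4000, .negSucc 3636⟩, .q ⟨.negSucc 0, .ofNat 0, .ofNat 0, .ofNat 1⟩
  ⟨.ofNat 1378, .negSucc 1812, .ofNat 3565, .negSucc 3129⟩, .q ⟨.negSucc 0,
  .ofNat 0, .ofNat 0, .ofNat 1⟩ ⟨.negSucc 278, .ofNat 646, .negSucc 3947,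
  .ofNat 3581⟩],
[.q ⟨.negSucc 0, .ofNat 0, .ofNat 0, .ofNat 1⟩ ⟨.ofNat 2742, .negSucc 3936,
  .ofNat 707, .ofNat 488⟩, .q ⟨.negSucc 0, .ofNat 0, .ofNat 0, .ofNat 1⟩
  ⟨.ofNat 1194, .negSucc 996, .negSucc 3873, .ofNat 3677⟩, .q ⟨.negSucc 0,
  .ofNat 0, .ofNat 0, .ofNat 1⟩ ⟨.negSucc 581, .ofNat 707, .negSucc 706,
  .ofNat 582⟩, .q ⟨.negSucc 0, .ofNat 0, .ofNat 0, .ofNat 1⟩ ⟨.negSucc 2954,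
  .ofNat 2996, .ofNat 2650, .negSucc 2690⟩],
[.q ⟨.ofNat 11, .negSucc 12, .negSucc 17, .ofNat 20⟩ ⟨.ofNat 2510, .negSucc
  4099, .ofNat 970, .ofNat 620⟩, .q ⟨.ofNat 11, .negSucc 12, .negSucc 17,
  .ofNat 20⟩ ⟨.ofNat 2793, .ofNat 1412, .negSucc 2144, .negSucc 2059⟩, .q
  ⟨.ofNat 11, .negSucc 12, .negSucc 17, .ofNat 20⟩ ⟨.negSucc 3830, .ofNat
  3818, .negSucc 266, .ofNat 280⟩, .q ⟨.ofNat 11, .negSucc 12, .negSucc 17,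
  .ofNat 20⟩ ⟨.negSucc 3906, .negSucc 88, .ofNat 1856, .ofNat 2140⟩],
[.q ⟨.negSucc 4, .negSucc 4, .ofNat 10, .ofNat 0⟩ ⟨.negSucc 14, .ofNat 5,
  .ofNat 10, .ofNat 0⟩, .q ⟨.ofNat 4, .ofNat 6, .negSucc 9, .ofNat 0⟩
  ⟨.negSucc 15, .ofNat 6, .ofNat 10, .ofNat 0⟩, .q ⟨.ofNat 15, .negSucc 4,
  .negSucc 9, .ofNat 0⟩ ⟨.ofNat 1888, .negSucc 40, .ofNat 1750, .negSucc
  3596⟩, .q ⟨.ofNat 16, .negSucc 5, .negSucc 9, .ofNat 0⟩ ⟨.ofNat 1888,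
  .negSucc 40, .ofNat 1750, .negSucc 3596⟩, .q ⟨.ofNat 15, .negSucc 4,
  .negSucc 9, .ofNat 0⟩ ⟨.negSucc 1104, .negSucc 741, .negSucc 1749, .ofNat
  3597⟩, .q ⟨.ofNat 16, .negSucc 5, .negSucc 9, .ofNat 0⟩ ⟨.negSucc 1104,
  .negSucc 741, .negSucc 1749, .ofNat 3597⟩, .q ⟨.ofNat 15, .negSucc 4,
  .negSucc 9, .ofNat 0⟩ ⟨.negSucc 280, .ofNat 97, .negSucc 2734, .ofNat
  2919⟩, .q ⟨.ofNat 16, .negSucc 5, .negSucc 9, .ofNat 0⟩ ⟨.negSucc 280,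
  .ofNat 97, .negSucc 2734, .ofNat 2919⟩],
[.l ⟨.ofNat 0, .ofNat 80, .ofNat 0, .negSucc 66⟩ ⟨.ofNat 0, .ofNat 80,
  .ofNat 0, .ofNat 67⟩, .l ⟨.ofNat 0, .negSucc 79, .ofNat 0, .ofNat 70⟩
  ⟨.ofNat 0, .ofNat 80, .ofNat 0, .ofNat 70⟩, .l ⟨.ofNat 0, .ofNat 80,
  .ofNat 0, .negSucc 66⟩ ⟨.ofNat 0, .ofNat 0, .ofNat 4000, .ofNat 2101⟩, .l
  ⟨.ofNat 0, .ofNat 80, .ofNat 0, .negSucc 69⟩ ⟨.ofNat 0, .ofNat 0, .ofNat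
  4000, .ofNat 2101⟩, .l ⟨.ofNat 0, .ofNat 80, .ofNat 0, .negSucc 66⟩
  ⟨.ofNat 0, .negSucc 596, .negSucc 3954, .negSucc 3795⟩, .l ⟨.ofNat 0,
  .ofNat 80, .ofNat 0, .negSucc 69⟩ ⟨.ofNat 0, .negSucc 596, .negSucc 3954,
  .negSucc 3795⟩],
[.q ⟨.ofNat 11, .negSucc 12, .negSucc 17, .ofNat 20⟩ ⟨.ofNat 2406, .negSucc
  998, .negSucc 646, .negSucc 759⟩, .q ⟨.ofNat 11, .negSucc 12, .negSucc 17,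
  .ofNat 20⟩ ⟨.negSucc 160, .ofNat 3431, .negSucc 1829, .negSucc 1439⟩, .q
  ⟨.ofNat 11, .negSucc 12, .negSucc 17, .ofNat 20⟩ ⟨.negSucc 4247, .ofNat
  3545, .ofNat 83, .ofNat 620⟩, .q ⟨.ofNat 11, .negSucc 12, .negSucc 17,
  .ofNat 20⟩ ⟨.negSucc 676, .negSucc 702, .ofNat 680, .ofNat 700⟩],
[.l ⟨.ofNat 0, .ofNat 80, .ofNat 0, .negSucc 65⟩ ⟨.ofNat 0, .ofNat 80,
  .ofNat 0, .ofNat 66⟩, .l ⟨.ofNat 0, .negSucc 79, .ofNat 0, .ofNat 69⟩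
  ⟨.ofNat 0, .ofNat 80, .ofNat 0, .ofNat 69⟩, .l ⟨.ofNat 0, .ofNat 80,
  .ofNat 0, .negSucc 65⟩ ⟨.ofNat 0, .ofNat 1245, .ofNat 3801, .ofNat 4576⟩,
  .l ⟨.ofNat 0, .ofNat 80, .ofNat 0, .negSucc 68⟩ ⟨.ofNat 0, .ofNat 1245,
  .ofNat 3801, .ofNat 4576⟩, .l ⟨.ofNat 0, .ofNat 80, .ofNat 0, .negSucc 65⟩
  ⟨.ofNat 0, .ofNat 128, .negSucc 378, .negSucc 293⟩, .l ⟨.ofNat 0, .ofNat
  80, .ofNat 0, .negSucc 68⟩ ⟨.ofNat 0, .ofNat 128, .negSucc 378, .negSucc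
  293⟩],
[.q ⟨.ofNat 11, .negSucc 12, .negSucc 17, .ofNat 20⟩ ⟨.negSucc 4758, .ofNat
  2348, .ofNat 951, .ofNat 1460⟩, .q ⟨.ofNat 11, .negSucc 12, .negSucc 17,
  .ofNat 20⟩ ⟨.negSucc 170, .negSucc 92, .ofNat 124, .ofNat 140⟩, .q ⟨.ofNat
  11, .negSucc 12, .negSucc 17, .ofNat 20⟩ ⟨.ofNat 4492, .negSucc 3482,
  .negSucc 388, .negSucc 619⟩, .q ⟨.ofNat 11, .negSucc 12, .negSucc 17,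
  .ofNat 20⟩ ⟨.ofNat 2072, .ofNat 2071, .negSucc 2062, .negSucc 2079⟩],
[.q ⟨.negSucc 74, .ofNat 36, .negSucc 40, .ofNat 80⟩ ⟨.negSucc 1771,
  .negSucc 5887, .negSucc 9939, .ofNat 17600⟩, .q ⟨.negSucc 74, .ofNat 36,
  .negSucc 40, .ofNat 80⟩ ⟨.ofNat 4928, .ofNat 228, .negSucc 18275, .ofNat
  13120⟩, .q ⟨.negSucc 74, .ofNat 36, .negSucc 40, .ofNat 80⟩ ⟨.ofNat 2316,
  .ofNat 7072, .ofNat 7892, .negSucc 17279⟩, .q ⟨.negSucc 74, .ofNat 36,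
  .negSucc 40, .ofNat 80⟩ ⟨.negSucc 4107, .ofNat 960, .ofNat 16588, .negSucc
  13439⟩],
[.l ⟨.ofNat 0, .ofNat 240, .ofNat 0, .negSucc 206⟩ ⟨.ofNat 0, .ofNat 240,
  .ofNat 0, .ofNat 207⟩, .l ⟨.ofNat 0, .negSucc 239, .ofNat 0, .ofNat 212⟩
  ⟨.ofNat 0, .ofNat 240, .ofNat 0, .ofNat 212⟩, .l ⟨.ofNat 0, .ofNat 240,
  .ofNat 0, .negSucc 206⟩ ⟨.ofNat 0, .ofNat 0, .ofNat 4000, .ofNat 3201⟩, .l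
  ⟨.ofNat 0, .ofNat 240, .ofNat 0, .negSucc 211⟩ ⟨.ofNat 0, .ofNat 0, .ofNat
  4000, .ofNat 3201⟩, .l ⟨.ofNat 0, .ofNat 240, .ofNat 0, .negSucc 206⟩
  ⟨.ofNat 0, .ofNat 25, .negSucc 1332, .negSucc 1093⟩, .l ⟨.ofNat 0, .ofNat
  240, .ofNat 0, .negSucc 211⟩ ⟨.ofNat 0, .ofNat 25, .negSucc 1332, .negSucc
  1093⟩, .l ⟨.ofNat 0, .ofNat 240, .ofNat 0, .negSucc 206⟩ ⟨.ofNat 0, .ofNat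
  1549, .negSucc 3687, .negSucc 1738⟩, .l ⟨.ofNat 0, .ofNat 240, .ofNat 0,
  .negSucc 211⟩ ⟨.ofNat 0, .ofNat 1549, .negSucc 3687, .negSucc 1738⟩],
[.q ⟨.negSucc 216, .negSucc 262, .ofNat 480, .ofNat 0⟩ ⟨.negSucc 742, .ofNat
  263, .ofNat 480, .ofNat 0⟩, .q ⟨.ofNat 207, .ofNat 273, .negSucc 479,
  .ofNat 0⟩ ⟨.negSucc 752, .ofNat 273, .ofNat 480, .ofNat 0⟩, .q ⟨.ofNat
  743, .negSucc 262, .negSucc 479, .ofNat 0⟩ ⟨.ofNat 2935, .ofNat 2522,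
  .negSucc 1982, .negSucc 3473⟩, .q ⟨.ofNat 753, .negSucc 272, .negSucc 479,
  .ofNat 0⟩ ⟨.ofNat 2935, .ofNat 2522, .negSucc 1982, .negSucc 3473⟩, .q
  ⟨.ofNat 743, .negSucc 262, .negSucc 479, .ofNat 0⟩ ⟨.ofNat 10681, .negSucc
  12917, .negSucc 1478, .ofNat 3716⟩, .q ⟨.ofNat 753, .negSucc 272, .negSucc
  479, .ofNat 0⟩ ⟨.ofNat 10681, .negSucc 12917, .negSucc 1478, .ofNat 3716⟩,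
  .q ⟨.ofNat 743, .negSucc 262, .negSucc 479, .ofNat 0⟩ ⟨.ofNat 909, .ofNat
  1338, .negSucc 3718, .ofNat 1472⟩, .q ⟨.ofNat 753, .negSucc 272, .negSucc
  479, .ofNat 0⟩ ⟨.ofNat 909, .ofNat 1338, .negSucc 3718, .ofNat 1472⟩],
[.q ⟨.negSucc 25, .negSucc 20, .ofNat 15, .ofNat 32⟩ ⟨.negSucc 3323,
  .negSucc 4647, .ofNat 12196, .negSucc 4223⟩, .q ⟨.negSucc 25, .negSucc 20,
  .ofNat 15, .ofNat 32⟩ ⟨.ofNat 4328, .negSucc 2907, .negSucc 5899, .ofNat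
  4480⟩, .q ⟨.negSucc 25, .negSucc 20, .ofNat 15, .ofNat 32⟩ ⟨.negSucc 4899,
  .ofNat 16168, .negSucc 8451, .negSucc 2815⟩, .q ⟨.negSucc 25, .negSucc 20,
  .ofNat 15, .ofNat 32⟩ ⟨.negSucc 12267, .ofNat 18664, .ofNat 4228, .negSucc
  10623⟩],
[.q ⟨.negSucc 38, .negSucc 40, .ofNat 80, .ofNat 0⟩ ⟨.negSucc 120, .ofNat
  41, .ofNat 80, .ofNat 0⟩, .q ⟨.ofNat 36, .ofNat 44, .negSucc 79, .ofNat 0⟩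
  ⟨.negSucc 123, .ofNat 44, .ofNat 80, .ofNat 0⟩, .q ⟨.ofNat 121, .negSucc
  40, .negSucc 79, .ofNat 0⟩ ⟨.ofNat 2854, .ofNat 2603, .negSucc 1982,
  .negSucc 3473⟩, .q ⟨.ofNat 124, .negSucc 43, .negSucc 79, .ofNat 0⟩
  ⟨.ofNat 2854, .ofNat 2603, .negSucc 1982, .negSucc 3473⟩, .q ⟨.ofNat 121,
  .negSucc 40, .negSucc 79, .ofNat 0⟩ ⟨.negSucc 567, .negSucc 387, .negSucc
  852, .ofNat 1809⟩, .q ⟨.ofNat 124, .negSucc 43, .negSucc 79, .ofNat 0⟩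
  ⟨.negSucc 567, .negSucc 387, .negSucc 852, .ofNat 1809⟩],
[.q ⟨.negSucc 9, .negSucc 9, .ofNat 20, .ofNat 0⟩ ⟨.negSucc 29, .ofNat 10,
  .ofNat 20, .ofNat 0⟩, .q ⟨.ofNat 9, .ofNat 11, .negSucc 19, .ofNat 0⟩
  ⟨.negSucc 30, .ofNat 11, .ofNat 20, .ofNat 0⟩, .q ⟨.ofNat 30, .negSucc 9,
  .negSucc 19, .ofNat 0⟩ ⟨.ofNat 64, .ofNat 61, .ofNat 0, .negSucc 124⟩, .q
  ⟨.ofNat 31, .negSucc 10, .negSucc 19, .ofNat 0⟩ ⟨.ofNat 64, .ofNat 61,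
  .ofNat 0, .negSucc 124⟩, .q ⟨.ofNat 30, .negSucc 9, .negSucc 19, .ofNat 0⟩
  ⟨.negSucc 2259, .negSucc 2640, .ofNat 1038, .ofNat 3863⟩, .q ⟨.ofNat 31,
  .negSucc 10, .negSucc 19, .ofNat 0⟩ ⟨.negSucc 2259, .negSucc 2640, .ofNat
  1038, .ofNat 3863⟩, .q ⟨.ofNat 30, .negSucc 9, .negSucc 19, .ofNat 0⟩
  ⟨.ofNat 2777, .ofNat 2781, .negSucc 2251, .negSucc 3305⟩, .q ⟨.ofNat 31,
  .negSucc 10, .negSucc 19, .ofNat 0⟩ ⟨.ofNat 2777, .ofNat 2781, .negSucc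
  2251, .negSucc 3305⟩],
[.q ⟨.ofNat 17, .negSucc 18, .negSucc 27, .ofNat 30⟩ ⟨.ofNat 3644, .negSucc
  4107, .ofNat 254, .ofNat 210⟩, .q ⟨.ofNat 17, .negSucc 18, .negSucc 27,
  .ofNat 30⟩ ⟨.ofNat 2827, .ofNat 1311, .negSucc 2067, .negSucc 2069⟩, .q
  ⟨.ofNat 17, .negSucc 18, .negSucc 27, .ofNat 30⟩ ⟨.negSucc 3518, .ofNat
  4008, .negSucc 428, .negSucc 59⟩, .q ⟨.ofNat 17, .negSucc 18, .negSucc 27,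
  .ofNat 30⟩ ⟨.negSucc 4219, .ofNat 501, .ofNat 1709, .ofNat 2010⟩],
[.q ⟨.negSucc 18, .negSucc 15, .ofNat 11, .ofNat 24⟩ ⟨.negSucc 43, .ofNat
  4856, .negSucc 5579, .ofNat 768⟩, .q ⟨.negSucc 18, .negSucc 15, .ofNat 11,
  .ofNat 24⟩ ⟨.negSucc 4811, .negSucc 1891, .ofNat 12368, .negSucc 5663⟩, .q
  ⟨.negSucc 18, .negSucc 15, .ofNat 11, .ofNat 24⟩ ⟨.ofNat 12152, .negSucc
  19251, .negSucc 3843, .ofNat 10944⟩, .q ⟨.negSucc 18, .negSucc 15, .ofNat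
  11, .ofNat 24⟩ ⟨.ofNat 1756, .negSucc 1215, .negSucc 2363, .ofNat 1824⟩],
[.q ⟨.negSucc 0, .ofNat 1, .ofNat 0, .ofNat 0⟩ ⟨.negSucc 648, .ofNat 9,
  .ofNat 640, .ofNat 0⟩, .q ⟨.negSucc 0, .ofNat 1, .ofNat 0, .ofNat 0⟩
  ⟨.ofNat 943, .ofNat 17, .negSucc 959, .ofNat 0⟩, .l ⟨.ofNat 0, .ofNat 0,
  .negSucc 1919, .negSucc 1812⟩ ⟨.ofNat 0, .ofNat 0, .ofNat 0, .ofNat 1⟩, .l
  ⟨.ofNat 0, .ofNat 0, .ofNat 80, .ofNat 83⟩ ⟨.ofNat 0, .ofNat 0, .ofNat 0,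
  .ofNat 1⟩],
[.q ⟨.ofNat 17, .negSucc 18, .negSucc 27, .ofNat 30⟩ ⟨.ofNat 3073, .ofNat
  1057, .negSucc 2059, .negSucc 2069⟩, .q ⟨.ofNat 17, .negSucc 18, .negSucc
  27, .ofNat 30⟩ ⟨.negSucc 4520, .ofNat 3371, .ofNat 400, .ofNat 750⟩, .q
  ⟨.ofNat 17, .negSucc 18, .negSucc 27, .ofNat 30⟩ ⟨.negSucc 1370, .negSucc
  702, .ofNat 964, .ofNat 1110⟩, .q ⟨.ofNat 17, .negSucc 18, .negSucc 27,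
  .ofNat 30⟩ ⟨.ofNat 1, .negSucc 0, .ofNat 0, .ofNat 0⟩],
[.q ⟨.negSucc 41, .negSucc 37, .ofNat 80, .ofNat 0⟩ ⟨.negSucc 117, .ofNat
  38, .ofNat 80, .ofNat 0⟩, .q ⟨.ofNat 39, .ofNat 41, .negSucc 79, .ofNat 0⟩
  ⟨.negSucc 120, .ofNat 41, .ofNat 80, .ofNat 0⟩, .q ⟨.ofNat 118, .negSucc
  37, .negSucc 79, .ofNat 0⟩ ⟨.ofNat 1011, .ofNat 989, .ofNat 0, .negSucc
  1999⟩, .q ⟨.ofNat 121, .negSucc 40, .negSucc 79, .ofNat 0⟩ ⟨.ofNat 1011,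
  .ofNat 989, .ofNat 0, .negSucc 1999⟩, .q ⟨.ofNat 118, .negSucc 37,
  .negSucc 79, .ofNat 0⟩ ⟨.negSucc 154, .negSucc 563, .negSucc 2445, .ofNat
  3165⟩, .q ⟨.ofNat 121, .negSucc 40, .negSucc 79, .ofNat 0⟩ ⟨.negSucc 154,
  .negSucc 563, .negSucc 2445, .ofNat 3165⟩, .q ⟨.ofNat 118, .negSucc 37,
  .negSucc 79, .ofNat 0⟩ ⟨.ofNat 2617, .ofNat 2622, .negSucc 3686, .negSucc
  1551⟩, .q ⟨.ofNat 121, .negSucc 40, .negSucc 79, .ofNat 0⟩ ⟨.ofNat 2617,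
  .ofNat 2622, .negSucc 3686, .negSucc 1551⟩],
[.q ⟨.negSucc 25, .negSucc 20, .ofNat 15, .ofNat 32⟩ ⟨.ofNat 312, .negSucc
  5403, .ofNat 5476, .negSucc 383⟩, .q ⟨.negSucc 25, .negSucc 20, .ofNat 15,
  .ofNat 32⟩ ⟨.ofNat 5526, .ofNat 441, .negSucc 12334, .ofNat 6368⟩, .q
  ⟨.negSucc 25, .negSucc 20, .ofNat 15, .ofNat 32⟩ ⟨.negSucc 2439, .ofNat
  3484, .ofNat 1132, .negSucc 2175⟩],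
[.q ⟨.negSucc 0, .ofNat 1, .ofNat 0, .ofNat 0⟩ ⟨.negSucc 652, .ofNat 13,
  .ofNat 640, .ofNat 0⟩, .q ⟨.negSucc 0, .ofNat 1, .ofNat 0, .ofNat 0⟩
  ⟨.ofNat 627, .ofNat 13, .negSucc 639, .ofNat 0⟩, .l ⟨.ofNat 0, .ofNat 0,
  .negSucc 319, .negSucc 310⟩ ⟨.ofNat 0, .ofNat 0, .ofNat 0, .ofNat 1⟩, .l
  ⟨.ofNat 0, .ofNat 0, .ofNat 640, .ofNat 653⟩ ⟨.ofNat 0, .ofNat 0, .ofNat
  0, .ofNat 1⟩],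
[.q ⟨.negSucc 2, .negSucc 1, .ofNat 5, .ofNat 0⟩ ⟨.negSucc 6, .ofNat 2,
  .ofNat 5, .ofNat 0⟩, .q ⟨.ofNat 2, .ofNat 3, .negSucc 4, .ofNat 0⟩
  ⟨.negSucc 7, .ofNat 3, .ofNat 5, .ofNat 0⟩, .q ⟨.ofNat 7, .negSucc 1,
  .negSucc 4, .ofNat 0⟩ ⟨.ofNat 1320, .ofNat 1021, .negSucc 376, .negSucc
  1963⟩, .q ⟨.ofNat 8, .negSucc 2, .negSucc 4, .ofNat 0⟩ ⟨.ofNat 1320,
  .ofNat 1021, .negSucc 376, .negSucc 1963⟩, .q ⟨.ofNat 7, .negSucc 1,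
  .negSucc 4, .ofNat 0⟩ ⟨.negSucc 2438, .negSucc 2242, .ofNat 754, .ofNat
  3928⟩, .q ⟨.ofNat 8, .negSucc 2, .negSucc 4, .ofNat 0⟩ ⟨.negSucc 2438,
  .negSucc 2242, .ofNat 754, .ofNat 3928⟩, .q ⟨.ofNat 7, .negSucc 1,
  .negSucc 4, .ofNat 0⟩ ⟨.ofNat 267, .ofNat 91, .ofNat 505, .negSucc 862⟩,
  .q ⟨.ofNat 8, .negSucc 2, .negSucc 4, .ofNat 0⟩ ⟨.ofNat 267, .ofNat 91,
  .ofNat 505, .negSucc 862⟩, .q ⟨.ofNat 7, .negSucc 1, .negSucc 4, .ofNat 0⟩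
  ⟨.negSucc 889, .negSucc 518, .negSucc 2034, .ofNat 3444⟩, .q ⟨.ofNat 8,
  .negSucc 2, .negSucc 4, .ofNat 0⟩ ⟨.negSucc 889, .negSucc 518, .negSucc
  2034, .ofNat 3444⟩],
[.q ⟨.negSucc 240, .negSucc 238, .ofNat 480, .ofNat 0⟩ ⟨.negSucc 718, .ofNat
  239, .ofNat 480, .ofNat 0⟩, .q ⟨.ofNat 231, .ofNat 249, .negSucc 479,
  .ofNat 0⟩ ⟨.negSucc 728, .ofNat 249, .ofNat 480, .ofNat 0⟩, .q ⟨.ofNat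
  719, .negSucc 238, .negSucc 479, .ofNat 0⟩ ⟨.ofNat 253, .ofNat 247, .ofNat
  0, .negSucc 499⟩, .q ⟨.ofNat 729, .negSucc 248, .negSucc 479, .ofNat 0⟩
  ⟨.ofNat 253, .ofNat 247, .ofNat 0, .negSucc 499⟩, .q ⟨.ofNat 719, .negSucc
  238, .negSucc 479, .ofNat 0⟩ ⟨.ofNat 8203, .negSucc 12202, .ofNat 0,
  .ofNat 4000⟩, .q ⟨.ofNat 729, .negSucc 248, .negSucc 479, .ofNat 0⟩
  ⟨.ofNat 8203, .negSucc 12202, .ofNat 0, .ofNat 4000⟩, .q ⟨.ofNat 719,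
  .negSucc 238, .negSucc 479, .ofNat 0⟩ ⟨.ofNat 2795, .ofNat 2780, .negSucc
  2307, .negSucc 3266⟩, .q ⟨.ofNat 729, .negSucc 248, .negSucc 479, .ofNat
  0⟩ ⟨.ofNat 2795, .ofNat 2780, .negSucc 2307, .negSucc 3266⟩, .q ⟨.ofNat
  719, .negSucc 238, .negSucc 479, .ofNat 0⟩ ⟨.negSucc 1940, .negSucc 2738,
  .ofNat 751, .ofNat 3929⟩, .q ⟨.ofNat 729, .negSucc 248, .negSucc 479,
  .ofNat 0⟩ ⟨.negSucc 1940, .negSucc 2738, .ofNat 751, .ofNat 3929⟩],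
[.q ⟨.negSucc 0, .ofNat 0, .ofNat 0, .ofNat 1⟩ ⟨.negSucc 2272, .ofNat 2828,
  .negSucc 2827, .ofNat 2273⟩, .q ⟨.negSucc 0, .ofNat 0, .ofNat 0, .ofNat 1⟩
  ⟨.ofNat 898, .negSucc 1457, .ofNat 3725, .negSucc 3164⟩, .q ⟨.negSucc 0,
  .ofNat 0, .ofNat 0, .ofNat 1⟩ ⟨.ofNat 3455, .negSucc 3945, .negSucc 655,
  .ofNat 1147⟩, .q ⟨.negSucc 0, .ofNat 0, .ofNat 0, .ofNat 1⟩ ⟨.ofNat 293,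
  .ofNat 0, .negSucc 3999, .ofNat 3707⟩],
[.q ⟨.negSucc 0, .ofNat 0, .ofNat 0, .ofNat 1⟩ ⟨.ofNat 1445, .negSucc 1963,
  .ofNat 3485, .negSucc 2965⟩, .q ⟨.negSucc 0, .ofNat 0, .ofNat 0, .ofNat 1⟩
  ⟨.ofNat 149, .ofNat 0, .negSucc 1999, .ofNat 1851⟩, .q ⟨.negSucc 0, .ofNat
  0, .ofNat 0, .ofNat 1⟩ ⟨.negSucc 2399, .ofNat 2913, .negSucc 2740, .ofNat
  2228⟩],
[.q ⟨.negSucc 0, .ofNat 0, .ofNat 0, .ofNat 1⟩ ⟨.negSucc 310, .negSucc 55,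
  .ofNat 4000, .negSucc 3632⟩, .q ⟨.negSucc 0, .ofNat 0, .ofNat 0, .ofNat 1⟩
  ⟨.ofNat 599, .negSucc 706, .ofNat 707, .negSucc 598⟩, .q ⟨.negSucc 0,
  .ofNat 0, .ofNat 0, .ofNat 1⟩ ⟨.negSucc 1557, .ofNat 1953, .negSucc 3490,
  .ofNat 3096⟩],
[.q ⟨.negSucc 4, .negSucc 474, .ofNat 480, .ofNat 0⟩ ⟨.negSucc 954, .ofNat
  475, .ofNat 480, .ofNat 0⟩, .q ⟨.ofNat 1, .ofNat 479, .negSucc 479, .ofNat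
  0⟩ ⟨.negSucc 958, .ofNat 479, .ofNat 480, .ofNat 0⟩, .q ⟨.ofNat 955,
  .negSucc 474, .negSucc 479, .ofNat 0⟩ ⟨.ofNat 12497, .negSucc 10967,
  .ofNat 1959, .negSucc 3487⟩, .q ⟨.ofNat 959, .negSucc 478, .negSucc 479,
  .ofNat 0⟩ ⟨.ofNat 12497, .negSucc 10967, .ofNat 1959, .negSucc 3487⟩, .q
  ⟨.ofNat 955, .negSucc 474, .negSucc 479, .ofNat 0⟩ ⟨.negSucc 3223, .ofNat
  1695, .negSucc 1958, .ofNat 3488⟩, .q ⟨.ofNat 959, .negSucc 478, .negSucc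
  479, .ofNat 0⟩ ⟨.negSucc 3223, .ofNat 1695, .negSucc 1958, .ofNat 3488⟩,
  .q ⟨.ofNat 955, .negSucc 474, .negSucc 479, .ofNat 0⟩ ⟨.ofNat 1563,
  .negSucc 3701, .ofNat 3688, .negSucc 1548⟩, .q ⟨.ofNat 959, .negSucc 478,
  .negSucc 479, .ofNat 0⟩ ⟨.ofNat 1563, .negSucc 3701, .ofNat 3688, .negSucc
  1548⟩, .q ⟨.ofNat 955, .negSucc 474, .negSucc 479, .ofNat 0⟩ ⟨.negSucc
  3625, .negSucc 1162, .ofNat 889, .ofNat 3900⟩, .q ⟨.ofNat 959, .negSucc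
  478, .negSucc 479, .ofNat 0⟩ ⟨.negSucc 3625, .negSucc 1162, .ofNat 889,
  .ofNat 3900⟩],
[.q ⟨.negSucc 0, .ofNat 0, .ofNat 0, .ofNat 1⟩ ⟨.ofNat 1516, .negSucc 1320,
  .negSucc 3775, .ofNat 3581⟩, .q ⟨.negSucc 0, .ofNat 0, .ofNat 0, .ofNat 1⟩
  ⟨.negSucc 3771, .ofNat 3991, .ofNat 265, .negSucc 483⟩, .q ⟨.negSucc 0,
  .ofNat 0, .ofNat 0, .ofNat 1⟩ ⟨.ofNat 1083, .negSucc 1511, .ofNat 3703,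
  .negSucc 3273⟩],
[.q ⟨.ofNat 11, .negSucc 12, .negSucc 17, .ofNat 20⟩ ⟨.negSucc 4139, .ofNat
  286, .ofNat 1754, .ofNat 2100⟩, .q ⟨.ofNat 11, .negSucc 12, .negSucc 17,
  .ofNat 20⟩ ⟨.ofNat 389, .negSucc 386, .ofNat 18, .negSucc 19⟩, .q ⟨.ofNat
  11, .negSucc 12, .negSucc 17, .ofNat 20⟩ ⟨.ofNat 4360, .negSucc 633,
  .negSucc 1825, .negSucc 1899⟩, .q ⟨.ofNat 11, .negSucc 12, .negSucc 17,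
  .ofNat 20⟩ ⟨.negSucc 578, .ofNat 3597, .negSucc 1737, .negSucc 1279⟩, .q
  ⟨.ofNat 11, .negSucc 12, .negSucc 17, .ofNat 20⟩ ⟨.negSucc 4039, .ofNat
  3703, .negSucc 102, .ofNat 440⟩],
[.q ⟨.ofNat 17, .negSucc 18, .negSucc 27, .ofNat 30⟩ ⟨.negSucc 4698, .ofNat
  1625, .ofNat 1394, .ofNat 1680⟩, .q ⟨.ofNat 17, .negSucc 18, .negSucc 27,
  .ofNat 30⟩ ⟨.ofNat 207, .negSucc 3513, .ofNat 1567, .ofNat 1740⟩, .q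
  ⟨.ofNat 17, .negSucc 18, .negSucc 27, .ofNat 30⟩ ⟨.ofNat 2447, .negSucc
  1403, .negSucc 532, .negSucc 509⟩, .q ⟨.ofNat 17, .negSucc 18, .negSucc
  27, .ofNat 30⟩ ⟨.ofNat 2827, .ofNat 1311, .negSucc 2067, .negSucc 2069⟩],
[.l ⟨.ofNat 0, .ofNat 80, .ofNat 0, .negSucc 72⟩ ⟨.ofNat 0, .ofNat 80,
  .ofNat 0, .ofNat 73⟩, .l ⟨.ofNat 0, .negSucc 79, .ofNat 0, .ofNat 77⟩
  ⟨.ofNat 0, .ofNat 80, .ofNat 0, .ofNat 77⟩, .l ⟨.ofNat 0, .ofNat 80,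
  .ofNat 0, .negSucc 72⟩ ⟨.ofNat 0, .negSucc 1661, .ofNat 3638, .negSucc
  9670⟩, .l ⟨.ofNat 0, .ofNat 80, .ofNat 0, .negSucc 76⟩ ⟨.ofNat 0, .negSucc
  1661, .ofNat 3638, .negSucc 9670⟩, .l ⟨.ofNat 0, .ofNat 80, .ofNat 0,
  .negSucc 72⟩ ⟨.ofNat 0, .ofNat 1662, .negSucc 3637, .negSucc 2368⟩, .l
  ⟨.ofNat 0, .ofNat 80, .ofNat 0, .negSucc 76⟩ ⟨.ofNat 0, .ofNat 1662,
  .negSucc 3637, .negSucc 2368⟩, .l ⟨.ofNat 0, .ofNat 80, .ofNat 0, .negSucc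
  72⟩ ⟨.ofNat 0, .ofNat 1762, .ofNat 3591, .ofNat 4798⟩, .l ⟨.ofNat 0,
  .ofNat 80, .ofNat 0, .negSucc 76⟩ ⟨.ofNat 0, .ofNat 1762, .ofNat 3591,
  .ofNat 4798⟩, .l ⟨.ofNat 0, .ofNat 80, .ofNat 0, .negSucc 72⟩ ⟨.ofNat 0,
  .negSucc 1763, .negSucc 3589, .negSucc 5528⟩, .l ⟨.ofNat 0, .ofNat 80,
  .ofNat 0, .negSucc 76⟩ ⟨.ofNat 0, .negSucc 1763, .negSucc 3589, .negSucc
  5528⟩],
[.q ⟨.negSucc 9, .negSucc 9, .ofNat 20, .ofNat 0⟩ ⟨.negSucc 29, .ofNat 10,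
  .ofNat 20, .ofNat 0⟩, .q ⟨.ofNat 7, .ofNat 13, .negSucc 19, .ofNat 0⟩
  ⟨.negSucc 32, .ofNat 13, .ofNat 20, .ofNat 0⟩, .q ⟨.ofNat 30, .negSucc 9,
  .negSucc 19, .ofNat 0⟩ ⟨.ofNat 6169, .negSucc 6050, .ofNat 1354, .negSucc
  1471⟩, .q ⟨.ofNat 33, .negSucc 12, .negSucc 19, .ofNat 0⟩ ⟨.ofNat 6169,
  .negSucc 6050, .ofNat 1354, .negSucc 1471⟩, .q ⟨.ofNat 30, .negSucc 9,
  .negSucc 19, .ofNat 0⟩ ⟨.negSucc 308, .ofNat 73, .negSucc 2707, .ofNat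
  2944⟩, .q ⟨.ofNat 33, .negSucc 12, .negSucc 19, .ofNat 0⟩ ⟨.negSucc 308,
  .ofNat 73, .negSucc 2707, .ofNat 2944⟩, .q ⟨.ofNat 30, .negSucc 9,
  .negSucc 19, .ofNat 0⟩ ⟨.ofNat 2511, .ofNat 608, .ofNat 800, .negSucc
  3918⟩, .q ⟨.ofNat 33, .negSucc 12, .negSucc 19, .ofNat 0⟩ ⟨.ofNat 2511,
  .ofNat 608, .ofNat 800, .negSucc 3918⟩, .q ⟨.ofNat 30, .negSucc 9,
  .negSucc 19, .ofNat 0⟩ ⟨.ofNat 434, .ofNat 629, .negSucc 1841, .ofNat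
  779⟩, .q ⟨.ofNat 33, .negSucc 12, .negSucc 19, .ofNat 0⟩ ⟨.ofNat 434,
  .ofNat 629, .negSucc 1841, .ofNat 779⟩],
[.l ⟨.ofNat 0, .ofNat 80, .ofNat 0, .negSucc 66⟩ ⟨.ofNat 0, .ofNat 80,
  .ofNat 0, .ofNat 67⟩, .l ⟨.ofNat 0, .negSucc 79, .ofNat 0, .ofNat 70⟩
  ⟨.ofNat 0, .ofNat 80, .ofNat 0, .ofNat 70⟩, .l ⟨.ofNat 0, .ofNat 80,
  .ofNat 0, .negSucc 66⟩ ⟨.ofNat 0, .ofNat 1335, .ofNat 1489, .negSucc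
  2141⟩, .l ⟨.ofNat 0, .ofNat 80, .ofNat 0, .negSucc 69⟩ ⟨.ofNat 0, .ofNat
  1335, .ofNat 1489, .negSucc 2141⟩, .l ⟨.ofNat 0, .ofNat 80, .ofNat 0,
  .negSucc 66⟩ ⟨.ofNat 0, .ofNat 107, .negSucc 1996, .negSucc 1573⟩, .l
  ⟨.ofNat 0, .ofNat 80, .ofNat 0, .negSucc 69⟩ ⟨.ofNat 0, .ofNat 107,
  .negSucc 1996, .negSucc 1573⟩, .l ⟨.ofNat 0, .ofNat 80, .ofNat 0, .negSucc
  66⟩ ⟨.ofNat 0, .ofNat 2038, .ofNat 3442, .ofNat 3591⟩, .l ⟨.ofNat 0,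
  .ofNat 80, .ofNat 0, .negSucc 69⟩ ⟨.ofNat 0, .ofNat 2038, .ofNat 3442,
  .ofNat 3591⟩],
[.l ⟨.ofNat 0, .ofNat 80, .ofNat 0, .negSucc 76⟩ ⟨.ofNat 0, .ofNat 80,
  .ofNat 0, .ofNat 77⟩, .l ⟨.ofNat 0, .negSucc 79, .ofNat 0, .ofNat 81⟩
  ⟨.ofNat 0, .ofNat 80, .ofNat 0, .ofNat 81⟩, .l ⟨.ofNat 0, .ofNat 80,
  .ofNat 0, .negSucc 76⟩ ⟨.ofNat 0, .ofNat 339, .ofNat 1971, .ofNat 2027⟩,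
  .l ⟨.ofNat 0, .ofNat 80, .ofNat 0, .negSucc 80⟩ ⟨.ofNat 0, .ofNat 339,
  .ofNat 1971, .ofNat 2027⟩, .l ⟨.ofNat 0, .ofNat 80, .ofNat 0, .negSucc 76⟩
  ⟨.ofNat 0, .negSucc 677, .negSucc 3941, .negSucc 4912⟩, .l ⟨.ofNat 0,
  .ofNat 80, .ofNat 0, .negSucc 80⟩ ⟨.ofNat 0, .negSucc 677, .negSucc 3941,
  .negSucc 4912⟩],
[.q ⟨.negSucc 10, .negSucc 68, .ofNat 80, .ofNat 0⟩ ⟨.negSucc 148, .ofNat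
  69, .ofNat 80, .ofNat 0⟩, .q ⟨.ofNat 8, .ofNat 72, .negSucc 79, .ofNat 0⟩
  ⟨.negSucc 151, .ofNat 72, .ofNat 80, .ofNat 0⟩, .q ⟨.ofNat 149, .negSucc
  68, .negSucc 79, .ofNat 0⟩ ⟨.ofNat 12273, .negSucc 8272, .ofNat 0,
  .negSucc 3999⟩, .q ⟨.ofNat 152, .negSucc 71, .negSucc 79, .ofNat 0⟩
  ⟨.ofNat 12273, .negSucc 8272, .ofNat 0, .negSucc 3999⟩, .q ⟨.ofNat 149,
  .negSucc 68, .negSucc 79, .ofNat 0⟩ ⟨.ofNat 4013, .negSucc 6012, .ofNat 0,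
  .ofNat 2000⟩, .q ⟨.ofNat 152, .negSucc 71, .negSucc 79, .ofNat 0⟩ ⟨.ofNat
  4013, .negSucc 6012, .ofNat 0, .ofNat 2000⟩, .q ⟨.ofNat 149, .negSucc 68,
  .negSucc 79, .ofNat 0⟩ ⟨.ofNat 4067, .ofNat 372, .negSucc 465, .negSucc
  3972⟩, .q ⟨.ofNat 152, .negSucc 71, .negSucc 79, .ofNat 0⟩ ⟨.ofNat 4067,
  .ofNat 372, .negSucc 465, .negSucc 3972⟩, .q ⟨.ofNat 149, .negSucc 68,
  .negSucc 79, .ofNat 0⟩ ⟨.negSucc 3442, .ofNat 1124, .negSucc 1419, .ofNat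
  3739⟩, .q ⟨.ofNat 152, .negSucc 71, .negSucc 79, .ofNat 0⟩ ⟨.negSucc 3442,
  .ofNat 1124, .negSucc 1419, .ofNat 3739⟩],
[.q ⟨.negSucc 6, .negSucc 32, .ofNat 40, .ofNat 0⟩ ⟨.negSucc 72, .ofNat 33,
  .ofNat 40, .ofNat 0⟩, .q ⟨.ofNat 4, .ofNat 36, .negSucc 39, .ofNat 0⟩
  ⟨.negSucc 75, .ofNat 36, .ofNat 40, .ofNat 0⟩, .q ⟨.ofNat 73, .negSucc 32,
  .negSucc 39, .ofNat 0⟩ ⟨.ofNat 803, .negSucc 2, .ofNat 0, .negSucc 799⟩,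
  .q ⟨.ofNat 76, .negSucc 35, .negSucc 39, .ofNat 0⟩ ⟨.ofNat 803, .negSucc
  2, .ofNat 0, .negSucc 799⟩, .q ⟨.ofNat 73, .negSucc 32, .negSucc 39,
  .ofNat 0⟩ ⟨.negSucc 966, .negSucc 32, .ofNat 0, .ofNat 1000⟩, .q ⟨.ofNat
  76, .negSucc 35, .negSucc 39, .ofNat 0⟩ ⟨.negSucc 966, .negSucc 32, .ofNat
  0, .ofNat 1000⟩, .q ⟨.ofNat 73, .negSucc 32, .negSucc 39, .ofNat 0⟩
  ⟨.negSucc 2403, .ofNat 2334, .negSucc 2792, .ofNat 2863⟩, .q ⟨.ofNat 76,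
  .negSucc 35, .negSucc 39, .ofNat 0⟩ ⟨.negSucc 2403, .ofNat 2334, .negSucc
  2792, .ofNat 2863⟩],
[.l ⟨.ofNat 0, .ofNat 40, .ofNat 0, .negSucc 32⟩ ⟨.ofNat 0, .ofNat 40,
  .ofNat 0, .ofNat 33⟩, .l ⟨.ofNat 0, .negSucc 39, .ofNat 0, .ofNat 36⟩
  ⟨.ofNat 0, .ofNat 40, .ofNat 0, .ofNat 36⟩, .l ⟨.ofNat 0, .ofNat 40,
  .ofNat 0, .negSucc 32⟩ ⟨.ofNat 0, .ofNat 0, .ofNat 4000, .ofNat 2573⟩, .l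
  ⟨.ofNat 0, .ofNat 40, .ofNat 0, .negSucc 35⟩ ⟨.ofNat 0, .ofNat 0, .ofNat
  4000, .ofNat 2573⟩, .l ⟨.ofNat 0, .ofNat 40, .ofNat 0, .negSucc 32⟩
  ⟨.ofNat 0, .ofNat 0, .negSucc 499, .negSucc 416⟩, .l ⟨.ofNat 0, .ofNat 40,
  .ofNat 0, .negSucc 35⟩ ⟨.ofNat 0, .ofNat 0, .negSucc 499, .negSucc 416⟩,
  .l ⟨.ofNat 0, .ofNat 40, .ofNat 0, .negSucc 32⟩ ⟨.ofNat 0, .ofNat 995,
  .negSucc 3873, .negSucc 2390⟩, .l ⟨.ofNat 0, .ofNat 40, .ofNat 0, .negSucc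
  35⟩ ⟨.ofNat 0, .ofNat 995, .negSucc 3873, .negSucc 2390⟩],
[.q ⟨.negSucc 46, .negSucc 55, .ofNat 71, .ofNat 32⟩ ⟨.ofNat 20781, .negSucc
  9305, .negSucc 7154, .negSucc 4319⟩, .q ⟨.negSucc 46, .negSucc 55, .ofNat
  71, .ofNat 32⟩ ⟨.ofNat 28284, .negSucc 21377, .negSucc 19769, .ofNat
  12864⟩, .q ⟨.negSucc 46, .negSucc 55, .ofNat 71, .ofNat 32⟩ ⟨.negSucc
  26800, .ofNat 14896, .ofNat 12641, .negSucc 735⟩, .q ⟨.negSucc 46,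
  .negSucc 55, .ofNat 71, .ofNat 32⟩ ⟨.negSucc 16523, .ofNat 23346, .ofNat
  24282, .negSucc 31103⟩],
[.l ⟨.ofNat 0, .ofNat 80, .ofNat 0, .negSucc 68⟩ ⟨.ofNat 0, .ofNat 80,
  .ofNat 0, .ofNat 69⟩, .l ⟨.ofNat 0, .negSucc 79, .ofNat 0, .ofNat 73⟩
  ⟨.ofNat 0, .ofNat 80, .ofNat 0, .ofNat 73⟩, .l ⟨.ofNat 0, .ofNat 80,
  .ofNat 0, .negSucc 68⟩ ⟨.ofNat 0, .ofNat 252, .ofNat 3992, .negSucc 6220⟩,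
  .l ⟨.ofNat 0, .ofNat 80, .ofNat 0, .negSucc 72⟩ ⟨.ofNat 0, .ofNat 252,
  .ofNat 3992, .negSucc 6220⟩, .l ⟨.ofNat 0, .ofNat 80, .ofNat 0, .negSucc
  68⟩ ⟨.ofNat 0, .negSucc 62, .negSucc 997, .negSucc 887⟩, .l ⟨.ofNat 0,
  .ofNat 80, .ofNat 0, .negSucc 72⟩ ⟨.ofNat 0, .negSucc 62, .negSucc 997,
  .negSucc 887⟩, .l ⟨.ofNat 0, .ofNat 80, .ofNat 0, .negSucc 68⟩ ⟨.ofNat 0,
  .ofNat 526, .ofNat 3965, .ofNat 2543⟩, .l ⟨.ofNat 0, .ofNat 80, .ofNat 0,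
  .negSucc 72⟩ ⟨.ofNat 0, .ofNat 526, .ofNat 3965, .ofNat 2543⟩],
[.q ⟨.negSucc 25, .negSucc 20, .ofNat 15, .ofNat 32⟩ ⟨.ofNat 104, .negSucc
  1531, .ofNat 1556, .negSucc 127⟩, .q ⟨.negSucc 25, .negSucc 20, .ofNat 15,
  .ofNat 32⟩ ⟨.ofNat 872, .negSucc 587, .negSucc 1179, .ofNat 896⟩, .q
  ⟨.negSucc 25, .negSucc 20, .ofNat 15, .ofNat 32⟩ ⟨.ofNat 2620, .ofNat
  5404, .negSucc 11991, .ofNat 3968⟩, .q ⟨.negSucc 25, .negSucc 20, .ofNat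
  15, .ofNat 32⟩ ⟨.negSucc 12407, .ofNat 17492, .ofNat 5540, .negSucc
  10623⟩],
[.q ⟨.negSucc 36, .negSucc 42, .ofNat 80, .ofNat 0⟩ ⟨.negSucc 122, .ofNat
  43, .ofNat 80, .ofNat 0⟩, .q ⟨.ofNat 33, .ofNat 47, .negSucc 79, .ofNat 0⟩
  ⟨.negSucc 126, .ofNat 47, .ofNat 80, .ofNat 0⟩, .q ⟨.ofNat 123, .negSucc
  42, .negSucc 79, .ofNat 0⟩ ⟨.ofNat 1761, .negSucc 1260, .ofNat 0, .negSucc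
  499⟩, .q ⟨.ofNat 127, .negSucc 46, .negSucc 79, .ofNat 0⟩ ⟨.ofNat 1761,
  .negSucc 1260, .ofNat 0, .negSucc 499⟩, .q ⟨.ofNat 123, .negSucc 42,
  .negSucc 79, .ofNat 0⟩ ⟨.negSucc 456, .negSucc 530, .negSucc 308, .ofNat
  1297⟩, .q ⟨.ofNat 127, .negSucc 46, .negSucc 79, .ofNat 0⟩ ⟨.negSucc 456,
  .negSucc 530, .negSucc 308, .ofNat 1297⟩, .q ⟨.ofNat 123, .negSucc 42,
  .negSucc 79, .ofNat 0⟩ ⟨.ofNat 2710, .ofNat 2937, .negSucc 2989, .negSucc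
  2656⟩, .q ⟨.ofNat 127, .negSucc 46, .negSucc 79, .ofNat 0⟩ ⟨.ofNat 2710,
  .ofNat 2937, .negSucc 2989, .negSucc 2656⟩],
[.q ⟨.negSucc 18, .negSucc 15, .ofNat 11, .ofNat 24⟩ ⟨.negSucc 4883, .ofNat
  10624, .negSucc 1803, .negSucc 3935⟩, .q ⟨.negSucc 18, .negSucc 15, .ofNat
  11, .ofNat 24⟩ ⟨.negSucc 1159, .negSucc 7971, .ofNat 11628, .negSucc
  2495⟩, .q ⟨.negSucc 18, .negSucc 15, .ofNat 11, .ofNat 24⟩ ⟨.ofNat 7748,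
  .negSucc 4003, .negSucc 12095, .ofNat 8352⟩],
[.q ⟨.negSucc 226, .negSucc 252, .ofNat 480, .ofNat 0⟩ ⟨.negSucc 732, .ofNat
  253, .ofNat 480, .ofNat 0⟩, .q ⟨.ofNat 219, .ofNat 261, .negSucc 479,
  .ofNat 0⟩ ⟨.negSucc 740, .ofNat 261, .ofNat 480, .ofNat 0⟩, .q ⟨.ofNat
  733, .negSucc 252, .negSucc 479, .ofNat 0⟩ ⟨.ofNat 892, .ofNat 116, .ofNat
  2279, .negSucc 3286⟩, .q ⟨.ofNat 741, .negSucc 260, .negSucc 479, .ofNat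
  0⟩ ⟨.ofNat 892, .ofNat 116, .ofNat 2279, .negSucc 3286⟩, .q ⟨.ofNat 733,
  .negSucc 252, .negSucc 479, .ofNat 0⟩ ⟨.negSucc 694, .negSucc 312,
  .negSucc 2278, .ofNat 3287⟩, .q ⟨.ofNat 741, .negSucc 260, .negSucc 479,
  .ofNat 0⟩ ⟨.negSucc 694, .negSucc 312, .negSucc 2278, .ofNat 3287⟩],
[.q ⟨.negSucc 22, .negSucc 24, .ofNat 48, .ofNat 0⟩ ⟨.negSucc 72, .ofNat 25,
  .ofNat 48, .ofNat 0⟩, .q ⟨.ofNat 22, .ofNat 26, .negSucc 47, .ofNat 0⟩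
  ⟨.negSucc 73, .ofNat 26, .ofNat 48, .ofNat 0⟩, .q ⟨.ofNat 73, .negSucc 24,
  .negSucc 47, .ofNat 0⟩ ⟨.ofNat 13911, .negSucc 10437, .ofNat 496, .negSucc
  3968⟩, .q ⟨.ofNat 74, .negSucc 25, .negSucc 47, .ofNat 0⟩ ⟨.ofNat 13911,
  .negSucc 10437, .ofNat 496, .negSucc 3968⟩, .q ⟨.ofNat 73, .negSucc 24,
  .negSucc 47, .ofNat 0⟩ ⟨.negSucc 1881, .negSucc 1590, .negSucc 495, .ofNat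
  3969⟩, .q ⟨.ofNat 74, .negSucc 25, .negSucc 47, .ofNat 0⟩ ⟨.negSucc 1881,
  .negSucc 1590, .negSucc 495, .ofNat 3969⟩, .q ⟨.ofNat 73, .negSucc 24,
  .negSucc 47, .ofNat 0⟩ ⟨.ofNat 822, .ofNat 418, .ofNat 651, .negSucc
  1890⟩, .q ⟨.ofNat 74, .negSucc 25, .negSucc 47, .ofNat 0⟩ ⟨.ofNat 822,
  .ofNat 418, .ofNat 651, .negSucc 1890⟩, .q ⟨.ofNat 73, .negSucc 24,
  .negSucc 47, .ofNat 0⟩ ⟨.negSucc 456, .negSucc 271, .negSucc 1001, .ofNat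
  1731⟩, .q ⟨.ofNat 74, .negSucc 25, .negSucc 47, .ofNat 0⟩ ⟨.negSucc 456,
  .negSucc 271, .negSucc 1001, .ofNat 1731⟩],
[.q ⟨.ofNat 17, .negSucc 18, .negSucc 27, .ofNat 30⟩ ⟨.negSucc 961, .ofNat
  482, .ofNat 210, .ofNat 270⟩, .q ⟨.ofNat 17, .negSucc 18, .negSucc 27,
  .ofNat 30⟩ ⟨.ofNat 867, .negSucc 3796, .ofNat 1400, .ofNat 1530⟩, .q
  ⟨.ofNat 17, .negSucc 18, .negSucc 27, .ofNat 30⟩ ⟨.ofNat 4764, .negSucc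
  3274, .negSucc 768, .negSucc 719⟩, .q ⟨.ofNat 17, .negSucc 18, .negSucc
  27, .ofNat 30⟩ ⟨.ofNat 1733, .ofNat 2268, .negSucc 2020, .negSucc 1979⟩],
[.q ⟨.ofNat 17, .negSucc 18, .negSucc 27, .ofNat 30⟩ ⟨.ofNat 823, .negSucc
  56, .negSucc 375, .negSucc 389⟩, .q ⟨.ofNat 17, .negSucc 18, .negSucc 27,
  .ofNat 30⟩ ⟨.negSucc 4316, .ofNat 3577, .ofNat 170, .ofNat 570⟩, .q
  ⟨.ofNat 17, .negSucc 18, .negSucc 27, .ofNat 30⟩ ⟨.negSucc 4567, .ofNat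
  1260, .ofNat 1478, .ofNat 1830⟩, .q ⟨.ofNat 17, .negSucc 18, .negSucc 27,
  .ofNat 30⟩ ⟨.ofNat 3949, .negSucc 3942, .ofNat 84, .negSucc 89⟩],
[.q ⟨.ofNat 11, .negSucc 12, .negSucc 17, .ofNat 20⟩ ⟨.ofNat 967, .negSucc
  960, .ofNat 54, .negSucc 59⟩, .q ⟨.ofNat 11, .negSucc 12, .negSucc 17,
  .ofNat 20⟩ ⟨.ofNat 2965, .ofNat 1238, .negSucc 2162, .negSucc 2039⟩, .q
  ⟨.ofNat 11, .negSucc 12, .negSucc 17, .ofNat 20⟩ ⟨.negSucc 3669, .ofNat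
  3889, .negSucc 378, .ofNat 160⟩, .q ⟨.ofNat 11, .negSucc 12, .negSucc 17,
  .ofNat 20⟩ ⟨.negSucc 1581, .ofNat 667, .ofNat 375, .ofNat 540⟩],
[.l ⟨.ofNat 0, .ofNat 0, .ofNat 4000, .ofNat 129⟩ ⟨.ofNat 0, .ofNat 0,
  .ofNat 0, .ofNat 1⟩, .l ⟨.ofNat 0, .negSucc 1437, .ofNat 3733, .ofNat 31⟩
  ⟨.ofNat 0, .ofNat 0, .ofNat 0, .ofNat 1⟩, .l ⟨.ofNat 0, .negSucc 753,
  .negSucc 3927, .ofNat 15⟩ ⟨.ofNat 0, .ofNat 0, .ofNat 0, .ofNat 1⟩, .l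
  ⟨.ofNat 0, .ofNat 3200, .negSucc 2398, .ofNat 379⟩ ⟨.ofNat 0, .ofNat 0,
  .ofNat 0, .ofNat 1⟩],
[.l ⟨.ofNat 0, .ofNat 83, .negSucc 492, .ofNat 10⟩ ⟨.ofNat 0, .ofNat 0,
  .ofNat 0, .ofNat 1⟩, .l ⟨.ofNat 0, .ofNat 2775, .ofNat 2881, .ofNat 194⟩
  ⟨.ofNat 0, .ofNat 0, .ofNat 0, .ofNat 1⟩, .l ⟨.ofNat 0, .negSucc 3668,
  .ofNat 1593, .ofNat 109⟩ ⟨.ofNat 0, .ofNat 0, .ofNat 0, .ofNat 1⟩, .l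
  ⟨.ofNat 0, .negSucc 3785, .negSucc 1290, .ofNat 63⟩ ⟨.ofNat 0, .ofNat 0,
  .ofNat 0, .ofNat 1⟩],
[.l ⟨.ofNat 0, .ofNat 2828, .negSucc 2827, .ofNat 89⟩ ⟨.ofNat 0, .ofNat 0,
  .ofNat 0, .ofNat 1⟩, .l ⟨.ofNat 0, .ofNat 1414, .ofNat 1414, .ofNat 97⟩
  ⟨.ofNat 0, .ofNat 0, .ofNat 0, .ofNat 1⟩, .l ⟨.ofNat 0, .negSucc 124,
  .ofNat 0, .ofNat 2⟩ ⟨.ofNat 0, .ofNat 0, .ofNat 0, .ofNat 1⟩, .l ⟨.ofNat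
  0, .negSucc 3706, .negSucc 1502, .ofNat 6⟩ ⟨.ofNat 0, .ofNat 0, .ofNat 0,
  .ofNat 1⟩],
[.q ⟨.negSucc 0, .ofNat 0, .ofNat 0, .ofNat 1⟩ ⟨.negSucc 2296, .ofNat 2133,
  .ofNat 3384, .negSucc 3219⟩, .q ⟨.negSucc 0, .ofNat 0, .ofNat 0, .ofNat 1⟩
  ⟨.ofNat 2391, .negSucc 2827, .ofNat 2828, .negSucc 2390⟩, .q ⟨.negSucc 0,
  .ofNat 0, .ofNat 0, .ofNat 1⟩ ⟨.ofNat 91, .negSucc 99, .ofNat 0, .ofNat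
  9⟩, .q ⟨.negSucc 0, .ofNat 0, .ofNat 0, .ofNat 1⟩ ⟨.negSucc 2144, .ofNat
  2190, .negSucc 3346, .ofNat 3302⟩],
[.l ⟨.ofNat 0, .ofNat 1809, .negSucc 852, .ofNat 511⟩ ⟨.ofNat 0, .ofNat 0,
  .ofNat 0, .ofNat 1⟩, .l ⟨.ofNat 0, .negSucc 2976, .ofNat 2672, .negSucc
  52⟩ ⟨.ofNat 0, .ofNat 0, .ofNat 0, .ofNat 1⟩, .l ⟨.ofNat 0, .negSucc 3812,
  .negSucc 1209, .negSucc 373⟩ ⟨.ofNat 0, .ofNat 0, .ofNat 0, .ofNat 1⟩, .l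
  ⟨.ofNat 0, .negSucc 24, .negSucc 3999, .ofNat 111⟩ ⟨.ofNat 0, .ofNat 0,
  .ofNat 0, .ofNat 1⟩],
[.q ⟨.negSucc 0, .ofNat 1, .ofNat 0, .ofNat 0⟩ ⟨.negSucc 528, .negSucc 110,
  .ofNat 640, .ofNat 0⟩, .q ⟨.negSucc 0, .ofNat 1, .ofNat 0, .ofNat 0⟩
  ⟨.ofNat 961, .ofNat 959, .negSucc 1919, .ofNat 0⟩, .l ⟨.ofNat 0, .ofNat 0,
  .negSucc 959, .negSucc 112⟩ ⟨.ofNat 0, .ofNat 0, .ofNat 0, .ofNat 1⟩, .l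
  ⟨.ofNat 0, .ofNat 0, .ofNat 960, .ofNat 199⟩ ⟨.ofNat 0, .ofNat 0, .ofNat
  0, .ofNat 1⟩],
[.q ⟨.negSucc 0, .ofNat 0, .ofNat 0, .ofNat 1⟩ ⟨.negSucc 360, .ofNat 0,
  .ofNat 4000, .negSucc 3638⟩, .q ⟨.negSucc 0, .ofNat 0, .ofNat 0, .ofNat 1⟩
  ⟨.ofNat 2339, .negSucc 2775, .ofNat 2880, .negSucc 2442⟩, .q ⟨.negSucc 0,
  .ofNat 0, .ofNat 0, .ofNat 1⟩ ⟨.ofNat 3194, .negSucc 3350, .negSucc 2184,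
  .ofNat 2342⟩, .q ⟨.negSucc 0, .ofNat 0, .ofNat 0, .ofNat 1⟩ ⟨.negSucc
  3973, .ofNat 3945, .negSucc 660, .ofNat 690⟩],
[.q ⟨.negSucc 268, .negSucc 210, .ofNat 480, .ofNat 0⟩ ⟨.negSucc 690, .ofNat
  211, .ofNat 480, .ofNat 0⟩, .q ⟨.ofNat 263, .ofNat 217, .negSucc 479,
  .ofNat 0⟩ ⟨.negSucc 696, .ofNat 217, .ofNat 480, .ofNat 0⟩, .q ⟨.ofNat
  691, .negSucc 210, .negSucc 479, .ofNat 0⟩ ⟨.negSucc 920, .ofNat 1892,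
  .ofNat 2301, .negSucc 3271⟩, .q ⟨.ofNat 697, .negSucc 216, .negSucc 479,
  .ofNat 0⟩ ⟨.negSucc 920, .ofNat 1892, .ofNat 2301, .negSucc 3271⟩, .q
  ⟨.ofNat 691, .negSucc 210, .negSucc 479, .ofNat 0⟩ ⟨.ofNat 1025, .negSucc
  1995, .negSucc 2300, .ofNat 3272⟩, .q ⟨.ofNat 697, .negSucc 216, .negSucc
  479, .ofNat 0⟩ ⟨.ofNat 1025, .negSucc 1995, .negSucc 2300, .ofNat 3272⟩],
[.q ⟨.negSucc 537, .negSucc 421, .ofNat 960, .ofNat 0⟩ ⟨.negSucc 1381,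
  .ofNat 422, .ofNat 960, .ofNat 0⟩, .q ⟨.ofNat 527, .ofNat 433, .negSucc
  959, .ofNat 0⟩ ⟨.negSucc 1392, .ofNat 433, .ofNat 960, .ofNat 0⟩, .q
  ⟨.ofNat 1382, .negSucc 421, .negSucc 959, .ofNat 0⟩ ⟨.ofNat 1213, .ofNat
  3940, .negSucc 1409, .negSucc 3742⟩, .q ⟨.ofNat 1393, .negSucc 432,
  .negSucc 959, .ofNat 0⟩ ⟨.ofNat 1213, .ofNat 3940, .negSucc 1409, .negSucc
  3742⟩, .q ⟨.ofNat 1382, .negSucc 421, .negSucc 959, .ofNat 0⟩ ⟨.ofNat 877,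
  .negSucc 2245, .negSucc 2059, .ofNat 3429⟩, .q ⟨.ofNat 1393, .negSucc 432,
  .negSucc 959, .ofNat 0⟩ ⟨.ofNat 877, .negSucc 2245, .negSucc 2059, .ofNat
  3429⟩],
[.q ⟨.negSucc 21, .negSucc 17, .ofNat 40, .ofNat 0⟩ ⟨.negSucc 57, .ofNat 18,
  .ofNat 40, .ofNat 0⟩, .q ⟨.ofNat 21, .ofNat 19, .negSucc 39, .ofNat 0⟩
  ⟨.negSucc 58, .ofNat 19, .ofNat 40, .ofNat 0⟩, .q ⟨.ofNat 58, .negSucc 17,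
  .negSucc 39, .ofNat 0⟩ ⟨.ofNat 221, .ofNat 1225, .negSucc 117, .negSucc
  1327⟩, .q ⟨.ofNat 59, .negSucc 18, .negSucc 39, .ofNat 0⟩ ⟨.ofNat 221,
  .ofNat 1225, .negSucc 117, .negSucc 1327⟩, .q ⟨.ofNat 58, .negSucc 17,
  .negSucc 39, .ofNat 0⟩ ⟨.ofNat 677, .negSucc 2588, .negSucc 1705, .ofNat
  3618⟩, .q ⟨.ofNat 59, .negSucc 18, .negSucc 39, .ofNat 0⟩ ⟨.ofNat 677,
  .negSucc 2588, .negSucc 1705, .ofNat 3618⟩],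
[.l ⟨.ofNat 0, .ofNat 240, .ofNat 0, .negSucc 212⟩ ⟨.ofNat 0, .ofNat 240,
  .ofNat 0, .ofNat 213⟩, .l ⟨.ofNat 0, .negSucc 239, .ofNat 0, .ofNat 218⟩
  ⟨.ofNat 0, .ofNat 240, .ofNat 0, .ofNat 218⟩, .l ⟨.ofNat 0, .ofNat 240,
  .ofNat 0, .negSucc 212⟩ ⟨.ofNat 0, .ofNat 1876, .ofNat 3533, .ofNat 4811⟩,
  .l ⟨.ofNat 0, .ofNat 240, .ofNat 0, .negSucc 217⟩ ⟨.ofNat 0, .ofNat 1876,
  .ofNat 3533, .ofNat 4811⟩, .l ⟨.ofNat 0, .ofNat 240, .ofNat 0, .negSucc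
  212⟩ ⟨.ofNat 0, .negSucc 1875, .negSucc 3532, .negSucc 5016⟩, .l ⟨.ofNat
  0, .ofNat 240, .ofNat 0, .negSucc 217⟩ ⟨.ofNat 0, .negSucc 1875, .negSucc
  3532, .negSucc 5016⟩, .l ⟨.ofNat 0, .ofNat 240, .ofNat 0, .negSucc 212⟩
  ⟨.ofNat 0, .negSucc 910, .ofNat 3895, .ofNat 2626⟩, .l ⟨.ofNat 0, .ofNat
  240, .ofNat 0, .negSucc 217⟩ ⟨.ofNat 0, .negSucc 910, .ofNat 3895, .ofNat
  2626⟩],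
[.q ⟨.ofNat 17, .negSucc 18, .negSucc 27, .ofNat 30⟩ ⟨.ofNat 2305, .ofNat
  1799, .negSucc 2063, .negSucc 2039⟩, .q ⟨.ofNat 17, .negSucc 18, .negSucc
  27, .ofNat 30⟩ ⟨.negSucc 3880, .ofNat 3867, .negSucc 195, .ofNat 210⟩, .q
  ⟨.ofNat 17, .negSucc 18, .negSucc 27, .ofNat 30⟩ ⟨.negSucc 2792, .negSucc
  1348, .ofNat 2012, .ofNat 2130⟩, .q ⟨.ofNat 17, .negSucc 18, .negSucc 27,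
  .ofNat 30⟩ ⟨.ofNat 3451, .negSucc 4183, .ofNat 343, .ofNat 390⟩],
[.l ⟨.ofNat 0, .ofNat 40, .ofNat 0, .negSucc 31⟩ ⟨.ofNat 0, .ofNat 40,
  .ofNat 0, .ofNat 32⟩, .l ⟨.ofNat 0, .negSucc 39, .ofNat 0, .ofNat 35⟩
  ⟨.ofNat 0, .ofNat 40, .ofNat 0, .ofNat 35⟩, .l ⟨.ofNat 0, .ofNat 40,
  .ofNat 0, .negSucc 31⟩ ⟨.ofNat 0, .ofNat 1136, .ofNat 3835, .ofNat 4563⟩,
  .l ⟨.ofNat 0, .ofNat 40, .ofNat 0, .negSucc 34⟩ ⟨.ofNat 0, .ofNat 1136,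
  .ofNat 3835, .ofNat 4563⟩, .l ⟨.ofNat 0, .ofNat 40, .ofNat 0, .negSucc 31⟩
  ⟨.ofNat 0, .ofNat 1213, .negSucc 3811, .negSucc 3014⟩, .l ⟨.ofNat 0,
  .ofNat 40, .ofNat 0, .negSucc 34⟩ ⟨.ofNat 0, .ofNat 1213, .negSucc 3811,
  .negSucc 3014⟩],
[.q ⟨.negSucc 37, .negSucc 41, .ofNat 80, .ofNat 0⟩ ⟨.negSucc 121, .ofNat
  42, .ofNat 80, .ofNat 0⟩, .q ⟨.ofNat 35, .ofNat 45, .negSucc 79, .ofNat 0⟩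
  ⟨.negSucc 124, .ofNat 45, .ofNat 80, .ofNat 0⟩, .q ⟨.ofNat 122, .negSucc
  41, .negSucc 79, .ofNat 0⟩ ⟨.ofNat 5486, .negSucc 5297, .ofNat 1317,
  .negSucc 1504⟩, .q ⟨.ofNat 125, .negSucc 44, .negSucc 79, .ofNat 0⟩
  ⟨.ofNat 5486, .negSucc 5297, .ofNat 1317, .negSucc 1504⟩, .q ⟨.ofNat 122,
  .negSucc 41, .negSucc 79, .ofNat 0⟩ ⟨.negSucc 185, .negSucc 1, .negSucc
  1316, .ofNat 1505⟩, .q ⟨.ofNat 125, .negSucc 44, .negSucc 79, .ofNat 0⟩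
  ⟨.negSucc 185, .negSucc 1, .negSucc 1316, .ofNat 1505⟩, .q ⟨.ofNat 122,
  .negSucc 41, .negSucc 79, .ofNat 0⟩ ⟨.ofNat 2492, .ofNat 2698, .negSucc
  3720, .negSucc 1468⟩, .q ⟨.ofNat 125, .negSucc 44, .negSucc 79, .ofNat 0⟩
  ⟨.ofNat 2492, .ofNat 2698, .negSucc 3720, .negSucc 1468⟩, .q ⟨.ofNat 122,
  .negSucc 41, .negSucc 79, .ofNat 0⟩ ⟨.negSucc 2694, .negSucc 2759, .ofNat
  1979, .ofNat 3476⟩, .q ⟨.ofNat 125, .negSucc 44, .negSucc 79, .ofNat 0⟩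
  ⟨.negSucc 2694, .negSucc 2759, .ofNat 1979, .ofNat 3476⟩],
[.l ⟨.ofNat 0, .ofNat 80, .ofNat 0, .negSucc 68⟩ ⟨.ofNat 0, .ofNat 80,
  .ofNat 0, .ofNat 69⟩, .l ⟨.ofNat 0, .negSucc 79, .ofNat 0, .ofNat 72⟩
  ⟨.ofNat 0, .ofNat 80, .ofNat 0, .ofNat 72⟩, .l ⟨.ofNat 0, .ofNat 80,
  .ofNat 0, .negSucc 68⟩ ⟨.ofNat 0, .ofNat 93, .ofNat 1330, .ofNat 780⟩, .l
  ⟨.ofNat 0, .ofNat 80, .ofNat 0, .negSucc 71⟩ ⟨.ofNat 0, .ofNat 93, .ofNat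
  1330, .ofNat 780⟩, .l ⟨.ofNat 0, .ofNat 80, .ofNat 0, .negSucc 68⟩ ⟨.ofNat
  0, .ofNat 616, .negSucc 3951, .negSucc 2762⟩, .l ⟨.ofNat 0, .ofNat 80,
  .ofNat 0, .negSucc 71⟩ ⟨.ofNat 0, .ofNat 616, .negSucc 3951, .negSucc
  2762⟩, .l ⟨.ofNat 0, .ofNat 80, .ofNat 0, .negSucc 68⟩ ⟨.ofNat 0, .negSucc
  615, .negSucc 3951, .negSucc 3844⟩, .l ⟨.ofNat 0, .ofNat 80, .ofNat 0,
  .negSucc 71⟩ ⟨.ofNat 0, .negSucc 615, .negSucc 3951, .negSucc 3844⟩],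
[.l ⟨.ofNat 0, .ofNat 960, .ofNat 0, .negSucc 842⟩ ⟨.ofNat 0, .ofNat 960,
  .ofNat 0, .ofNat 843⟩, .l ⟨.ofNat 0, .negSucc 959, .ofNat 0, .ofNat 854⟩
  ⟨.ofNat 0, .ofNat 960, .ofNat 0, .ofNat 854⟩, .l ⟨.ofNat 0, .ofNat 960,
  .ofNat 0, .negSucc 842⟩ ⟨.ofNat 0, .ofNat 0, .ofNat 4000, .ofNat 3201⟩, .l
  ⟨.ofNat 0, .ofNat 960, .ofNat 0, .negSucc 853⟩ ⟨.ofNat 0, .ofNat 0, .ofNat
  4000, .ofNat 3201⟩, .l ⟨.ofNat 0, .ofNat 960, .ofNat 0, .negSucc 842⟩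
  ⟨.ofNat 0, .negSucc 29, .negSucc 1999, .negSucc 1700⟩, .l ⟨.ofNat 0,
  .ofNat 960, .ofNat 0, .negSucc 853⟩ ⟨.ofNat 0, .negSucc 29, .negSucc 1999,
  .negSucc 1700⟩],
[.q ⟨.negSucc 37, .negSucc 41, .ofNat 80, .ofNat 0⟩ ⟨.negSucc 121, .ofNat
  42, .ofNat 80, .ofNat 0⟩, .q ⟨.ofNat 35, .ofNat 45, .negSucc 79, .ofNat 0⟩
  ⟨.negSucc 124, .ofNat 45, .ofNat 80, .ofNat 0⟩, .q ⟨.ofNat 122, .negSucc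
  41, .negSucc 79, .ofNat 0⟩ ⟨.ofNat 6264, .negSucc 5952, .ofNat 1250,
  .negSucc 1560⟩, .q ⟨.ofNat 125, .negSucc 44, .negSucc 79, .ofNat 0⟩
  ⟨.ofNat 6264, .negSucc 5952, .ofNat 1250, .negSucc 1560⟩, .q ⟨.ofNat 122,
  .negSucc 41, .negSucc 79, .ofNat 0⟩ ⟨.negSucc 245, .negSucc 64, .negSucc
  1249, .ofNat 1561⟩, .q ⟨.ofNat 125, .negSucc 44, .negSucc 79, .ofNat 0⟩
  ⟨.negSucc 245, .negSucc 64, .negSucc 1249, .ofNat 1561⟩, .q ⟨.ofNat 122,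
  .negSucc 41, .negSucc 79, .ofNat 0⟩ ⟨.ofNat 2571, .ofNat 2756, .negSucc
  3614, .negSucc 1711⟩, .q ⟨.ofNat 125, .negSucc 44, .negSucc 79, .ofNat 0⟩
  ⟨.ofNat 2571, .ofNat 2756, .negSucc 3614, .negSucc 1711⟩],
[.q ⟨.negSucc 18, .negSucc 15, .ofNat 11, .ofNat 24⟩ ⟨.ofNat 5264, .ofNat
  836, .negSucc 12339, .ofNat 6240⟩, .q ⟨.negSucc 18, .negSucc 15, .ofNat
  11, .ofNat 24⟩ ⟨.ofNat 352, .ofNat 9060, .negSucc 11331, .ofNat 1920⟩, .q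
  ⟨.negSucc 18, .negSucc 15, .ofNat 11, .ofNat 24⟩ ⟨.negSucc 10895, .ofNat
  10892, .ofNat 10660, .negSucc 10655⟩, .q ⟨.negSucc 18, .negSucc 15, .ofNat
  11, .ofNat 24⟩ ⟨.negSucc 3039, .negSucc 4959, .ofNat 12128, .negSucc
  4127⟩, .q ⟨.negSucc 18, .negSucc 15, .ofNat 11, .ofNat 24⟩ ⟨.ofNat 12796,
  .negSucc 21499, .negSucc 2719, .ofNat 11424⟩],
[.q ⟨.negSucc 18, .negSucc 15, .ofNat 11, .ofNat 24⟩ ⟨.ofNat 8448, .negSucc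
  5475, .negSucc 11899, .ofNat 8928⟩, .q ⟨.negSucc 18, .negSucc 15, .ofNat
  11, .ofNat 24⟩ ⟨.negSucc 6347, .ofNat 18052, .negSucc 7287, .negSucc
  4415⟩, .q ⟨.negSucc 18, .negSucc 15, .ofNat 11, .ofNat 24⟩ ⟨.negSucc 9227,
  .ofNat 6964, .ofNat 11672, .negSucc 9407⟩, .q ⟨.negSucc 18, .negSucc 15,
  .ofNat 11, .ofNat 24⟩ ⟨.ofNat 4580, .negSucc 16131, .ofNat 8672, .ofNat
  2880⟩],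
[.q ⟨.negSucc 6, .negSucc 32, .ofNat 40, .ofNat 0⟩ ⟨.negSucc 72, .ofNat 33,
  .ofNat 40, .ofNat 0⟩, .q ⟨.ofNat 4, .ofNat 36, .negSucc 39, .ofNat 0⟩
  ⟨.negSucc 75, .ofNat 36, .ofNat 40, .ofNat 0⟩, .q ⟨.ofNat 73, .negSucc 32,
  .negSucc 39, .ofNat 0⟩ ⟨.ofNat 601, .negSucc 440, .ofNat 0, .negSucc 159⟩,
  .q ⟨.ofNat 76, .negSucc 35, .negSucc 39, .ofNat 0⟩ ⟨.ofNat 601, .negSucc
  440, .ofNat 0, .negSucc 159⟩, .q ⟨.ofNat 73, .negSucc 32, .negSucc 39,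
  .ofNat 0⟩ ⟨.ofNat 419, .negSucc 1104, .negSucc 1028, .ofNat 1715⟩, .q
  ⟨.ofNat 76, .negSucc 35, .negSucc 39, .ofNat 0⟩ ⟨.ofNat 419, .negSucc
  1104, .negSucc 1028, .ofNat 1715⟩, .q ⟨.ofNat 73, .negSucc 32, .negSucc
  39, .ofNat 0⟩ ⟨.ofNat 2900, .ofNat 2612, .negSucc 2118, .negSucc 3392⟩, .q
  ⟨.ofNat 76, .negSucc 35, .negSucc 39, .ofNat 0⟩ ⟨.ofNat 2900, .ofNat 2612,
  .negSucc 2118, .negSucc 3392⟩],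
[.q ⟨.ofNat 11, .negSucc 12, .negSucc 17, .ofNat 20⟩ ⟨.negSucc 4582, .ofNat
  1250, .ofNat 1453, .ofNat 1880⟩, .q ⟨.ofNat 11, .negSucc 12, .negSucc 17,
  .ofNat 20⟩ ⟨.ofNat 530, .negSucc 3651, .ofNat 1622, .ofNat 1500⟩, .q
  ⟨.ofNat 11, .negSucc 12, .negSucc 17, .ofNat 20⟩ ⟨.ofNat 4681, .negSucc
  1407, .negSucc 1552, .negSucc 1719⟩, .q ⟨.ofNat 11, .negSucc 12, .negSucc
  17, .ofNat 20⟩ ⟨.ofNat 1007, .ofNat 2818, .negSucc 2024, .negSucc 1799⟩,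
  .q ⟨.ofNat 11, .negSucc 12, .negSucc 17, .ofNat 20⟩ ⟨.negSucc 4032, .ofNat
  3704, .negSucc 110, .ofNat 440⟩],
[.q ⟨.negSucc 10, .negSucc 8, .ofNat 20, .ofNat 0⟩ ⟨.negSucc 28, .ofNat 9,
  .ofNat 20, .ofNat 0⟩, .q ⟨.ofNat 9, .ofNat 11, .negSucc 19, .ofNat 0⟩
  ⟨.negSucc 30, .ofNat 11, .ofNat 20, .ofNat 0⟩, .q ⟨.ofNat 29, .negSucc 8,
  .negSucc 19, .ofNat 0⟩ ⟨.ofNat 2031, .ofNat 1969, .ofNat 0, .negSucc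
  3999⟩, .q ⟨.ofNat 31, .negSucc 10, .negSucc 19, .ofNat 0⟩ ⟨.ofNat 2031,
  .ofNat 1969, .ofNat 0, .negSucc 3999⟩, .q ⟨.ofNat 29, .negSucc 8, .negSucc
  19, .ofNat 0⟩ ⟨.negSucc 24, .negSucc 477, .negSucc 2565, .ofNat 3069⟩, .q
  ⟨.ofNat 31, .negSucc 10, .negSucc 19, .ofNat 0⟩ ⟨.negSucc 24, .negSucc
  477, .negSucc 2565, .ofNat 3069⟩, .q ⟨.ofNat 29, .negSucc 8, .negSucc 19,
  .ofNat 0⟩ ⟨.ofNat 2590, .ofNat 2627, .negSucc 3700, .negSucc 1515⟩, .q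
  ⟨.ofNat 31, .negSucc 10, .negSucc 19, .ofNat 0⟩ ⟨.ofNat 2590, .ofNat 2627,
  .negSucc 3700, .negSucc 1515⟩],
[.l ⟨.ofNat 0, .ofNat 40, .ofNat 0, .negSucc 32⟩ ⟨.ofNat 0, .ofNat 40,
  .ofNat 0, .ofNat 33⟩, .l ⟨.ofNat 0, .negSucc 39, .ofNat 0, .ofNat 35⟩
  ⟨.ofNat 0, .ofNat 40, .ofNat 0, .ofNat 35⟩, .l ⟨.ofNat 0, .ofNat 40,
  .ofNat 0, .negSucc 32⟩ ⟨.ofNat 0, .ofNat 0, .ofNat 250, .ofNat 227⟩, .l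
  ⟨.ofNat 0, .ofNat 40, .ofNat 0, .negSucc 34⟩ ⟨.ofNat 0, .ofNat 0, .ofNat
  250, .ofNat 227⟩, .l ⟨.ofNat 0, .ofNat 40, .ofNat 0, .negSucc 32⟩ ⟨.ofNat
  0, .ofNat 731, .negSucc 3932, .negSucc 3558⟩, .l ⟨.ofNat 0, .ofNat 40,
  .ofNat 0, .negSucc 34⟩ ⟨.ofNat 0, .ofNat 731, .negSucc 3932, .negSucc
  3558⟩, .l ⟨.ofNat 0, .ofNat 40, .ofNat 0, .negSucc 32⟩ ⟨.ofNat 0, .ofNat
  3685, .ofNat 1556, .ofNat 4520⟩, .l ⟨.ofNat 0, .ofNat 40, .ofNat 0,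
  .negSucc 34⟩ ⟨.ofNat 0, .ofNat 3685, .ofNat 1556, .ofNat 4520⟩],
[.l ⟨.ofNat 0, .negSucc 3292, .negSucc 2269, .negSucc 753⟩ ⟨.ofNat 0, .ofNat
  0, .ofNat 0, .ofNat 1⟩, .l ⟨.ofNat 0, .ofNat 3331, .negSucc 2213, .ofNat
  1174⟩ ⟨.ofNat 0, .ofNat 0, .ofNat 0, .ofNat 1⟩, .l ⟨.ofNat 0, .ofNat 698,
  .ofNat 3939, .ofNat 2355⟩ ⟨.ofNat 0, .ofNat 0, .ofNat 0, .ofNat 1⟩, .l
  ⟨.ofNat 0, .negSucc 3986, .ofNat 328, .ofNat 1003⟩ ⟨.ofNat 0, .ofNat 0,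
  .ofNat 0, .ofNat 1⟩],
[.q ⟨.negSucc 20, .negSucc 18, .ofNat 40, .ofNat 0⟩ ⟨.negSucc 58, .ofNat 19,
  .ofNat 40, .ofNat 0⟩, .q ⟨.ofNat 18, .ofNat 22, .negSucc 39, .ofNat 0⟩
  ⟨.negSucc 61, .ofNat 22, .ofNat 40, .ofNat 0⟩, .q ⟨.ofNat 59, .negSucc 18,
  .negSucc 39, .ofNat 0⟩ ⟨.ofNat 407, .ofNat 393, .ofNat 0, .negSucc 799⟩,
  .q ⟨.ofNat 62, .negSucc 21, .negSucc 39, .ofNat 0⟩ ⟨.ofNat 407, .ofNat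
  393, .ofNat 0, .negSucc 799⟩, .q ⟨.ofNat 59, .negSucc 18, .negSucc 39,
  .ofNat 0⟩ ⟨.negSucc 31, .negSucc 434, .negSucc 2584, .ofNat 3052⟩, .q
  ⟨.ofNat 62, .negSucc 21, .negSucc 39, .ofNat 0⟩ ⟨.negSucc 31, .negSucc
  434, .negSucc 2584, .ofNat 3052⟩, .q ⟨.ofNat 59, .negSucc 18, .negSucc 39,
  .ofNat 0⟩ ⟨.ofNat 1331, .ofNat 1348, .negSucc 1792, .negSucc 885⟩, .q
  ⟨.ofNat 62, .negSucc 21, .negSucc 39, .ofNat 0⟩ ⟨.ofNat 1331, .ofNat 1348,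
  .negSucc 1792, .negSucc 885⟩],
[.q ⟨.ofNat 17, .negSucc 18, .negSucc 27, .ofNat 30⟩ ⟨.ofNat 3827, .ofNat
  144, .negSucc 1960, .negSucc 2009⟩, .q ⟨.ofNat 17, .negSucc 18, .negSucc
  27, .ofNat 30⟩ ⟨.negSucc 102, .ofNat 3380, .negSucc 1776, .negSucc 1499⟩,
  .q ⟨.ofNat 17, .negSucc 18, .negSucc 27, .ofNat 30⟩ ⟨.negSucc 4778, .ofNat
  2667, .ofNat 882, .ofNat 1230⟩, .q ⟨.ofNat 17, .negSucc 18, .negSucc 27,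
  .ofNat 30⟩ ⟨.ofNat 119, .negSucc 536, .ofNat 208, .ofNat 210⟩],
[.l ⟨.ofNat 0, .ofNat 607, .ofNat 3954, .ofNat 2078⟩ ⟨.ofNat 0, .ofNat 0,
  .ofNat 0, .ofNat 1⟩, .l ⟨.ofNat 0, .negSucc 1887, .ofNat 660, .ofNat 729⟩
  ⟨.ofNat 0, .ofNat 0, .ofNat 0, .ofNat 1⟩, .l ⟨.ofNat 0, .negSucc 1470,
  .negSucc 1354, .negSucc 372⟩ ⟨.ofNat 0, .ofNat 0, .ofNat 0, .ofNat 1⟩, .l
  ⟨.ofNat 0, .ofNat 2563, .negSucc 3070, .ofNat 747⟩ ⟨.ofNat 0, .ofNat 0,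
  .ofNat 0, .ofNat 1⟩],
[.q ⟨.negSucc 0, .ofNat 0, .ofNat 0, .ofNat 1⟩ ⟨.ofNat 3391, .negSucc 3790,
  .negSucc 1275, .ofNat 1676⟩, .q ⟨.negSucc 0, .ofNat 0, .ofNat 0, .ofNat 1⟩
  ⟨.ofNat 73, .ofNat 0, .negSucc 999, .ofNat 927⟩, .q ⟨.negSucc 0, .ofNat 0,
  .ofNat 0, .ofNat 1⟩ ⟨.negSucc 2266, .ofNat 2828, .negSucc 2827, .ofNat
  2267⟩, .q ⟨.negSucc 0, .ofNat 0, .ofNat 0, .ofNat 1⟩ ⟨.negSucc 1368,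
  .ofNat 1271, .ofNat 1544, .negSucc 1445⟩],
[.q ⟨.negSucc 0, .ofNat 0, .ofNat 0, .ofNat 1⟩ ⟨.negSucc 2524, .ofNat 3033,
  .negSucc 2607, .ofNat 2100⟩, .q ⟨.negSucc 0, .ofNat 0, .ofNat 0, .ofNat 1⟩
  ⟨.negSucc 3653, .ofNat 3986, .negSucc 338, .ofNat 7⟩, .q ⟨.negSucc 0,
  .ofNat 0, .ofNat 0, .ofNat 1⟩ ⟨.ofNat 435, .negSucc 961, .ofNat 3883,
  .negSucc 3355⟩, .q ⟨.negSucc 0, .ofNat 0, .ofNat 0, .ofNat 1⟩ ⟨.ofNat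
  1124, .negSucc 1200, .negSucc 578, .ofNat 656⟩],
[.l ⟨.ofNat 0, .ofNat 1213, .negSucc 3811, .ofNat 97⟩ ⟨.ofNat 0, .ofNat 0,
  .ofNat 0, .ofNat 1⟩, .l ⟨.ofNat 0, .ofNat 316, .ofNat 3987, .ofNat 94⟩
  ⟨.ofNat 0, .ofNat 0, .ofNat 0, .ofNat 1⟩, .l ⟨.ofNat 0, .negSucc 1999,
  .ofNat 0, .ofNat 41⟩ ⟨.ofNat 0, .ofNat 0, .ofNat 0, .ofNat 1⟩, .l ⟨.ofNat
  0, .negSucc 1556, .negSucc 3683, .ofNat 76⟩ ⟨.ofNat 0, .ofNat 0, .ofNat 0,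
  .ofNat 1⟩],
[.q ⟨.negSucc 0, .ofNat 0, .ofNat 0, .ofNat 1⟩ ⟨.ofNat 1696, .negSucc 1974,
  .negSucc 313, .ofNat 593⟩, .q ⟨.negSucc 0, .ofNat 0, .ofNat 0, .ofNat 1⟩
  ⟨.negSucc 362, .ofNat 605, .negSucc 1905, .ofNat 1664⟩, .q ⟨.negSucc 0,
  .ofNat 0, .ofNat 0, .ofNat 1⟩ ⟨.negSucc 3492, .ofNat 3885, .negSucc 953,
  .ofNat 562⟩, .q ⟨.negSucc 0, .ofNat 0, .ofNat 0, .ofNat 1⟩ ⟨.negSucc 2943,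
  .ofNat 2867, .ofNat 2789, .negSucc 2711⟩],
[.l ⟨.ofNat 0, .ofNat 1403, .ofNat 3746, .ofNat 97⟩ ⟨.ofNat 0, .ofNat 0,
  .ofNat 0, .ofNat 1⟩, .l ⟨.ofNat 0, .negSucc 2554, .ofNat 3077, .ofNat
  11672⟩ ⟨.ofNat 0, .ofNat 0, .ofNat 0, .ofNat 1⟩, .l ⟨.ofNat 0, .negSucc
  1840, .negSucc 3550, .negSucc 86⟩ ⟨.ofNat 0, .ofNat 0, .ofNat 0, .ofNat
  1⟩, .l ⟨.ofNat 0, .ofNat 2858, .negSucc 2798, .ofNat 355⟩ ⟨.ofNat 0,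
  .ofNat 0, .ofNat 0, .ofNat 1⟩],
[.q ⟨.negSucc 538, .negSucc 420, .ofNat 960, .ofNat 0⟩ ⟨.negSucc 1380,
  .ofNat 421, .ofNat 960, .ofNat 0⟩, .q ⟨.ofNat 531, .ofNat 429, .negSucc
  959, .ofNat 0⟩ ⟨.negSucc 1388, .ofNat 429, .ofNat 960, .ofNat 0⟩, .q
  ⟨.ofNat 1381, .negSucc 420, .negSucc 959, .ofNat 0⟩ ⟨.negSucc 64, .ofNat
  447, .ofNat 240, .negSucc 621⟩, .q ⟨.ofNat 1389, .negSucc 428, .negSucc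
  959, .ofNat 0⟩ ⟨.negSucc 64, .ofNat 447, .ofNat 240, .negSucc 621⟩, .q
  ⟨.ofNat 1381, .negSucc 420, .negSucc 959, .ofNat 0⟩ ⟨.ofNat 344, .negSucc
  2988, .negSucc 1177, .ofNat 3823⟩, .q ⟨.ofNat 1389, .negSucc 428, .negSucc
  959, .ofNat 0⟩ ⟨.ofNat 344, .negSucc 2988, .negSucc 1177, .ofNat 3823⟩],
[.q ⟨.negSucc 10, .negSucc 948, .ofNat 960, .ofNat 0⟩ ⟨.negSucc 1908, .ofNat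
  949, .ofNat 960, .ofNat 0⟩, .q ⟨.ofNat 2, .ofNat 958, .negSucc 959, .ofNat
  0⟩ ⟨.negSucc 1917, .ofNat 958, .ofNat 960, .ofNat 0⟩, .q ⟨.ofNat 1909,
  .negSucc 948, .negSucc 959, .ofNat 0⟩ ⟨.ofNat 3916, .negSucc 1361, .ofNat
  1247, .negSucc 3800⟩, .q ⟨.ofNat 1918, .negSucc 957, .negSucc 959, .ofNat
  0⟩ ⟨.ofNat 3916, .negSucc 1361, .ofNat 1247, .negSucc 3800⟩, .q ⟨.ofNat
  1909, .negSucc 948, .negSucc 959, .ofNat 0⟩ ⟨.negSucc 928, .negSucc 63,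
  .negSucc 6, .ofNat 1000⟩, .q ⟨.ofNat 1918, .negSucc 957, .negSucc 959,
  .ofNat 0⟩ ⟨.negSucc 928, .negSucc 63, .negSucc 6, .ofNat 1000⟩],
[.q ⟨.negSucc 0, .ofNat 0, .ofNat 0, .ofNat 1⟩ ⟨.negSucc 15760, .ofNat 3999,
  .ofNat 66, .ofNat 11696⟩, .q ⟨.negSucc 0, .ofNat 0, .ofNat 0, .ofNat 1⟩
  ⟨.negSucc 723, .ofNat 386, .ofNat 3981, .negSucc 3642⟩, .q ⟨.negSucc 0,
  .ofNat 0, .ofNat 0, .ofNat 1⟩ ⟨.ofNat 1711, .negSucc 2149, .ofNat 3373,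
  .negSucc 2933⟩, .q ⟨.negSucc 0, .ofNat 0, .ofNat 0, .ofNat 1⟩ ⟨.ofNat 157,
  .ofNat 5, .negSucc 1999, .ofNat 1838⟩],
[.l ⟨.ofNat 0, .ofNat 40, .ofNat 0, .negSucc 38⟩ ⟨.ofNat 0, .ofNat 40,
  .ofNat 0, .ofNat 39⟩, .l ⟨.ofNat 0, .negSucc 39, .ofNat 0, .ofNat 41⟩
  ⟨.ofNat 0, .ofNat 40, .ofNat 0, .ofNat 41⟩, .l ⟨.ofNat 0, .ofNat 40,
  .ofNat 0, .negSucc 38⟩ ⟨.ofNat 0, .ofNat 188, .ofNat 1991, .ofNat 1884⟩,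
  .l ⟨.ofNat 0, .ofNat 40, .ofNat 0, .negSucc 40⟩ ⟨.ofNat 0, .ofNat 188,
  .ofNat 1991, .ofNat 1884⟩, .l ⟨.ofNat 0, .ofNat 40, .ofNat 0, .negSucc 38⟩
  ⟨.ofNat 0, .negSucc 2449, .negSucc 3161, .negSucc 5802⟩, .l ⟨.ofNat 0,
  .ofNat 40, .ofNat 0, .negSucc 40⟩ ⟨.ofNat 0, .negSucc 2449, .negSucc 3161,
  .negSucc 5802⟩],
[.q ⟨.negSucc 0, .ofNat 1, .ofNat 0, .ofNat 0⟩ ⟨.negSucc 198, .negSucc 40,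
  .ofNat 240, .ofNat 0⟩, .q ⟨.negSucc 0, .ofNat 1, .ofNat 0, .ofNat 0⟩
  ⟨.ofNat 961, .ofNat 959, .negSucc 1919, .ofNat 0⟩, .l ⟨.ofNat 0, .ofNat 0,
  .negSucc 319, .negSucc 40⟩ ⟨.ofNat 0, .ofNat 0, .ofNat 0, .ofNat 1⟩, .l
  ⟨.ofNat 0, .ofNat 0, .ofNat 1920, .ofNat 367⟩ ⟨.ofNat 0, .ofNat 0, .ofNat
  0, .ofNat 1⟩],
[.l ⟨.ofNat 0, .negSucc 3147, .ofNat 2468, .negSucc 136⟩ ⟨.ofNat 0, .ofNat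
  0, .ofNat 0, .ofNat 1⟩, .l ⟨.ofNat 0, .negSucc 1902, .negSucc 3517,
  .negSucc 85⟩ ⟨.ofNat 0, .ofNat 0, .ofNat 0, .ofNat 1⟩, .l ⟨.ofNat 0,
  .ofNat 0, .negSucc 3999, .ofNat 103⟩ ⟨.ofNat 0, .ofNat 0, .ofNat 0, .ofNat
  1⟩, .l ⟨.ofNat 0, .ofNat 1946, .ofNat 461, .ofNat 180⟩ ⟨.ofNat 0, .ofNat
  0, .ofNat 0, .ofNat 1⟩],
[.q ⟨.negSucc 38, .negSucc 40, .ofNat 80, .ofNat 0⟩ ⟨.negSucc 120, .ofNat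
  41, .ofNat 80, .ofNat 0⟩, .q ⟨.ofNat 36, .ofNat 44, .negSucc 79, .ofNat 0⟩
  ⟨.negSucc 123, .ofNat 44, .ofNat 80, .ofNat 0⟩, .q ⟨.ofNat 121, .negSucc
  40, .negSucc 79, .ofNat 0⟩ ⟨.ofNat 2399, .ofNat 1601, .ofNat 0, .negSucc
  3999⟩, .q ⟨.ofNat 124, .negSucc 43, .negSucc 79, .ofNat 0⟩ ⟨.ofNat 2399,
  .ofNat 1601, .ofNat 0, .negSucc 3999⟩, .q ⟨.ofNat 121, .negSucc 40,
  .negSucc 79, .ofNat 0⟩ ⟨.negSucc 1080, .negSucc 719, .negSucc 1780, .ofNat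
  3582⟩, .q ⟨.ofNat 124, .negSucc 43, .negSucc 79, .ofNat 0⟩ ⟨.negSucc 1080,
  .negSucc 719, .negSucc 1780, .ofNat 3582⟩, .q ⟨.ofNat 121, .negSucc 40,
  .negSucc 79, .ofNat 0⟩ ⟨.negSucc 1671, .negSucc 1345, .negSucc 882, .ofNat
  3901⟩, .q ⟨.ofNat 124, .negSucc 43, .negSucc 79, .ofNat 0⟩ ⟨.negSucc 1671,
  .negSucc 1345, .negSucc 882, .ofNat 3901⟩],
[.q ⟨.negSucc 19, .negSucc 19, .ofNat 40, .ofNat 0⟩ ⟨.negSucc 59, .ofNat 20,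
  .ofNat 40, .ofNat 0⟩, .q ⟨.ofNat 17, .ofNat 23, .negSucc 39, .ofNat 0⟩
  ⟨.negSucc 62, .ofNat 23, .ofNat 40, .ofNat 0⟩, .q ⟨.ofNat 60, .negSucc 19,
  .negSucc 39, .ofNat 0⟩ ⟨.ofNat 2047, .ofNat 1953, .ofNat 0, .negSucc
  3999⟩, .q ⟨.ofNat 63, .negSucc 22, .negSucc 39, .ofNat 0⟩ ⟨.ofNat 2047,
  .ofNat 1953, .ofNat 0, .negSucc 3999⟩, .q ⟨.ofNat 60, .negSucc 19,
  .negSucc 39, .ofNat 0⟩ ⟨.negSucc 1800, .negSucc 2198, .ofNat 0, .ofNat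
  4000⟩, .q ⟨.ofNat 63, .negSucc 22, .negSucc 39, .ofNat 0⟩ ⟨.negSucc 1800,
  .negSucc 2198, .ofNat 0, .ofNat 4000⟩, .q ⟨.ofNat 60, .negSucc 19,
  .negSucc 39, .ofNat 0⟩ ⟨.ofNat 2798, .ofNat 2799, .negSucc 2388, .negSucc
  3207⟩, .q ⟨.ofNat 63, .negSucc 22, .negSucc 39, .ofNat 0⟩ ⟨.ofNat 2798,
  .ofNat 2799, .negSucc 2388, .negSucc 3207⟩],
[.l ⟨.ofNat 0, .ofNat 2828, .negSucc 2827, .ofNat 2179⟩ ⟨.ofNat 0, .ofNat 0,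
  .ofNat 0, .ofNat 1⟩, .l ⟨.ofNat 0, .ofNat 2501, .ofNat 3122, .ofNat 2351⟩
  ⟨.ofNat 0, .ofNat 0, .ofNat 0, .ofNat 1⟩, .l ⟨.ofNat 0, .negSucc 1658,
  .ofNat 1117, .negSucc 1045⟩ ⟨.ofNat 0, .ofNat 0, .ofNat 0, .ofNat 1⟩, .l
  ⟨.ofNat 0, .ofNat 109, .negSucc 1996, .ofNat 462⟩ ⟨.ofNat 0, .ofNat 0,
  .ofNat 0, .ofNat 1⟩],
[.l ⟨.ofNat 0, .ofNat 40, .ofNat 0, .negSucc 34⟩ ⟨.ofNat 0, .ofNat 40,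
  .ofNat 0, .ofNat 35⟩, .l ⟨.ofNat 0, .negSucc 39, .ofNat 0, .ofNat 37⟩
  ⟨.ofNat 0, .ofNat 40, .ofNat 0, .ofNat 37⟩, .l ⟨.ofNat 0, .ofNat 40,
  .ofNat 0, .negSucc 34⟩ ⟨.ofNat 0, .ofNat 685, .ofNat 1144, .ofNat 1639⟩,
  .l ⟨.ofNat 0, .ofNat 40, .ofNat 0, .negSucc 36⟩ ⟨.ofNat 0, .ofNat 685,
  .ofNat 1144, .ofNat 1639⟩, .l ⟨.ofNat 0, .ofNat 40, .ofNat 0, .negSucc 34⟩
  ⟨.ofNat 0, .ofNat 415, .negSucc 3977, .negSucc 3890⟩, .l ⟨.ofNat 0, .ofNat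
  40, .ofNat 0, .negSucc 36⟩ ⟨.ofNat 0, .ofNat 415, .negSucc 3977, .negSucc
  3890⟩, .l ⟨.ofNat 0, .ofNat 40, .ofNat 0, .negSucc 34⟩ ⟨.ofNat 0, .ofNat
  1498, .ofNat 3709, .ofNat 4657⟩, .l ⟨.ofNat 0, .ofNat 40, .ofNat 0,
  .negSucc 36⟩ ⟨.ofNat 0, .ofNat 1498, .ofNat 3709, .ofNat 4657⟩],
[.q ⟨.negSucc 0, .ofNat 1, .ofNat 0, .ofNat 0⟩ ⟨.negSucc 996, .ofNat 37,
  .ofNat 960, .ofNat 0⟩, .q ⟨.negSucc 0, .ofNat 1, .ofNat 0, .ofNat 0⟩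
  ⟨.ofNat 1781, .ofNat 139, .negSucc 1919, .ofNat 0⟩, .l ⟨.ofNat 0, .ofNat
  0, .negSucc 319, .negSucc 220⟩ ⟨.ofNat 0, .ofNat 0, .ofNat 0, .ofNat 1⟩,
  .l ⟨.ofNat 0, .ofNat 0, .ofNat 80, .ofNat 61⟩ ⟨.ofNat 0, .ofNat 0, .ofNat
  0, .ofNat 1⟩],
[.l ⟨.ofNat 0, .ofNat 80, .ofNat 0, .negSucc 56⟩ ⟨.ofNat 0, .ofNat 80,
  .ofNat 0, .ofNat 57⟩, .l ⟨.ofNat 0, .negSucc 79, .ofNat 0, .ofNat 60⟩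
  ⟨.ofNat 0, .ofNat 80, .ofNat 0, .ofNat 60⟩, .l ⟨.ofNat 0, .ofNat 80,
  .ofNat 0, .negSucc 56⟩ ⟨.ofNat 0, .negSucc 514, .ofNat 3967, .negSucc
  9419⟩, .l ⟨.ofNat 0, .ofNat 80, .ofNat 0, .negSucc 59⟩ ⟨.ofNat 0, .negSucc
  514, .ofNat 3967, .negSucc 9419⟩, .l ⟨.ofNat 0, .ofNat 80, .ofNat 0,
  .negSucc 56⟩ ⟨.ofNat 0, .ofNat 515, .negSucc 3966, .negSucc 2886⟩, .l
  ⟨.ofNat 0, .ofNat 80, .ofNat 0, .negSucc 59⟩ ⟨.ofNat 0, .ofNat 515,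
  .negSucc 3966, .negSucc 2886⟩, .l ⟨.ofNat 0, .ofNat 80, .ofNat 0, .negSucc
  56⟩ ⟨.ofNat 0, .ofNat 2935, .ofNat 2717, .ofNat 4160⟩, .l ⟨.ofNat 0,
  .ofNat 80, .ofNat 0, .negSucc 59⟩ ⟨.ofNat 0, .ofNat 2935, .ofNat 2717,
  .ofNat 4160⟩],
[.l ⟨.ofNat 0, .ofNat 80, .ofNat 0, .negSucc 66⟩ ⟨.ofNat 0, .ofNat 80,
  .ofNat 0, .ofNat 67⟩, .l ⟨.ofNat 0, .negSucc 79, .ofNat 0, .ofNat 71⟩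
  ⟨.ofNat 0, .ofNat 80, .ofNat 0, .ofNat 71⟩, .l ⟨.ofNat 0, .ofNat 80,
  .ofNat 0, .negSucc 66⟩ ⟨.ofNat 0, .ofNat 1489, .ofNat 3713, .ofNat 4651⟩,
  .l ⟨.ofNat 0, .ofNat 80, .ofNat 0, .negSucc 70⟩ ⟨.ofNat 0, .ofNat 1489,
  .ofNat 3713, .ofNat 4651⟩, .l ⟨.ofNat 0, .ofNat 80, .ofNat 0, .negSucc 66⟩
  ⟨.ofNat 0, .negSucc 1488, .negSucc 3712, .negSucc 5184⟩, .l ⟨.ofNat 0,
  .ofNat 80, .ofNat 0, .negSucc 70⟩ ⟨.ofNat 0, .negSucc 1488, .negSucc 3712,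
  .negSucc 5184⟩],
[.l ⟨.ofNat 0, .ofNat 40, .ofNat 0, .negSucc 30⟩ ⟨.ofNat 0, .ofNat 40,
  .ofNat 0, .ofNat 31⟩, .l ⟨.ofNat 0, .negSucc 39, .ofNat 0, .ofNat 34⟩
  ⟨.ofNat 0, .ofNat 40, .ofNat 0, .ofNat 34⟩, .l ⟨.ofNat 0, .ofNat 40,
  .ofNat 0, .negSucc 30⟩ ⟨.ofNat 0, .negSucc 927, .ofNat 3891, .negSucc
  9929⟩, .l ⟨.ofNat 0, .ofNat 40, .ofNat 0, .negSucc 33⟩ ⟨.ofNat 0, .negSucc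
  927, .ofNat 3891, .negSucc 9929⟩, .l ⟨.ofNat 0, .ofNat 40, .ofNat 0,
  .negSucc 30⟩ ⟨.ofNat 0, .ofNat 928, .negSucc 3890, .negSucc 2459⟩, .l
  ⟨.ofNat 0, .ofNat 40, .ofNat 0, .negSucc 33⟩ ⟨.ofNat 0, .ofNat 928,
  .negSucc 3890, .negSucc 2459⟩, .l ⟨.ofNat 0, .ofNat 40, .ofNat 0, .negSucc
  30⟩ ⟨.ofNat 0, .ofNat 2665, .ofNat 2983, .ofNat 4122⟩, .l ⟨.ofNat 0,
  .ofNat 40, .ofNat 0, .negSucc 33⟩ ⟨.ofNat 0, .ofNat 2665, .ofNat 2983,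
  .ofNat 4122⟩],
[.q ⟨.negSucc 9, .negSucc 9, .ofNat 20, .ofNat 0⟩ ⟨.negSucc 29, .ofNat 10,
  .ofNat 20, .ofNat 0⟩, .q ⟨.ofNat 7, .ofNat 13, .negSucc 19, .ofNat 0⟩
  ⟨.negSucc 32, .ofNat 13, .ofNat 20, .ofNat 0⟩, .q ⟨.ofNat 30, .negSucc 9,
  .negSucc 19, .ofNat 0⟩ ⟨.ofNat 511, .ofNat 489, .ofNat 0, .negSucc 999⟩,
  .q ⟨.ofNat 33, .negSucc 12, .negSucc 19, .ofNat 0⟩ ⟨.ofNat 511, .ofNat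
  489, .ofNat 0, .negSucc 999⟩, .q ⟨.ofNat 30, .negSucc 9, .negSucc 19,
  .ofNat 0⟩ ⟨.negSucc 86, .negSucc 277, .negSucc 177, .ofNat 543⟩, .q
  ⟨.ofNat 33, .negSucc 12, .negSucc 19, .ofNat 0⟩ ⟨.negSucc 86, .negSucc
  277, .negSucc 177, .ofNat 543⟩, .q ⟨.ofNat 30, .negSucc 9, .negSucc 19,
  .ofNat 0⟩ ⟨.ofNat 2787, .ofNat 2867, .negSucc 2925, .negSucc 2727⟩, .q
  ⟨.ofNat 33, .negSucc 12, .negSucc 19, .ofNat 0⟩ ⟨.ofNat 2787, .ofNat 2867,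
  .negSucc 2925, .negSucc 2727⟩],
[.q ⟨.negSucc 21, .negSucc 25, .ofNat 48, .ofNat 0⟩ ⟨.negSucc 73, .ofNat 26,
  .ofNat 48, .ofNat 0⟩, .q ⟨.ofNat 21, .ofNat 27, .negSucc 47, .ofNat 0⟩
  ⟨.negSucc 74, .ofNat 27, .ofNat 48, .ofNat 0⟩, .q ⟨.ofNat 74, .negSucc 25,
  .negSucc 47, .ofNat 0⟩ ⟨.ofNat 6453, .negSucc 4452, .ofNat 0, .negSucc
  1999⟩, .q ⟨.ofNat 75, .negSucc 26, .negSucc 47, .ofNat 0⟩ ⟨.ofNat 6453,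
  .negSucc 4452, .ofNat 0, .negSucc 1999⟩, .q ⟨.ofNat 74, .negSucc 25,
  .negSucc 47, .ofNat 0⟩ ⟨.negSucc 351, .ofNat 19, .negSucc 2656, .ofNat
  2990⟩, .q ⟨.ofNat 75, .negSucc 26, .negSucc 47, .ofNat 0⟩ ⟨.negSucc 351,
  .ofNat 19, .negSucc 2656, .ofNat 2990⟩, .q ⟨.ofNat 74, .negSucc 25,
  .negSucc 47, .ofNat 0⟩ ⟨.ofNat 1866, .negSucc 84, .ofNat 1794, .negSucc
  3574⟩, .q ⟨.ofNat 75, .negSucc 26, .negSucc 47, .ofNat 0⟩ ⟨.ofNat 1866,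
  .negSucc 84, .ofNat 1794, .negSucc 3574⟩],
[.l ⟨.ofNat 0, .ofNat 480, .ofNat 0, .negSucc 418⟩ ⟨.ofNat 0, .ofNat 480,
  .ofNat 0, .ofNat 419⟩, .l ⟨.ofNat 0, .negSucc 479, .ofNat 0, .ofNat 429⟩
  ⟨.ofNat 0, .ofNat 480, .ofNat 0, .ofNat 429⟩, .l ⟨.ofNat 0, .ofNat 480,
  .ofNat 0, .negSucc 418⟩ ⟨.ofNat 0, .ofNat 0, .ofNat 4000, .ofNat 3201⟩, .l
  ⟨.ofNat 0, .ofNat 480, .ofNat 0, .negSucc 428⟩ ⟨.ofNat 0, .ofNat 0, .ofNat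
  4000, .ofNat 3201⟩, .l ⟨.ofNat 0, .ofNat 480, .ofNat 0, .negSucc 418⟩
  ⟨.ofNat 0, .ofNat 0, .negSucc 3999, .negSucc 3348⟩, .l ⟨.ofNat 0, .ofNat
  480, .ofNat 0, .negSucc 428⟩ ⟨.ofNat 0, .ofNat 0, .negSucc 3999, .negSucc
  3348⟩],
[.l ⟨.ofNat 0, .ofNat 80, .ofNat 0, .negSucc 68⟩ ⟨.ofNat 0, .ofNat 80,
  .ofNat 0, .ofNat 69⟩, .l ⟨.ofNat 0, .negSucc 79, .ofNat 0, .ofNat 71⟩
  ⟨.ofNat 0, .ofNat 80, .ofNat 0, .ofNat 71⟩, .l ⟨.ofNat 0, .ofNat 80,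
  .ofNat 0, .negSucc 68⟩ ⟨.ofNat 0, .ofNat 0, .ofNat 4000, .ofNat 3201⟩, .l
  ⟨.ofNat 0, .ofNat 80, .ofNat 0, .negSucc 70⟩ ⟨.ofNat 0, .ofNat 0, .ofNat
  4000, .ofNat 3201⟩, .l ⟨.ofNat 0, .ofNat 80, .ofNat 0, .negSucc 68⟩
  ⟨.ofNat 0, .ofNat 95, .negSucc 1329, .negSucc 1028⟩, .l ⟨.ofNat 0, .ofNat
  80, .ofNat 0, .negSucc 70⟩ ⟨.ofNat 0, .ofNat 95, .negSucc 1329, .negSucc
  1028⟩],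
[.q ⟨.negSucc 25, .negSucc 20, .ofNat 15, .ofNat 32⟩ ⟨.ofNat 1864, .ofNat
  6760, .negSucc 11823, .ofNat 3200⟩, .q ⟨.negSucc 25, .negSucc 20, .ofNat
  15, .ofNat 32⟩ ⟨.negSucc 1755, .ofNat 1188, .ofNat 2360, .negSucc 1791⟩,
  .q ⟨.negSucc 25, .negSucc 20, .ofNat 15, .ofNat 32⟩ ⟨.ofNat 1424, .negSucc
  7091, .ofNat 4900, .ofNat 768⟩, .q ⟨.negSucc 25, .negSucc 20, .ofNat 15,
  .ofNat 32⟩ ⟨.ofNat 7276, .negSucc 3075, .negSucc 12135, .ofNat 7936⟩],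
[.q ⟨.negSucc 220, .negSucc 258, .ofNat 480, .ofNat 0⟩ ⟨.negSucc 738, .ofNat
  259, .ofNat 480, .ofNat 0⟩, .q ⟨.ofNat 212, .ofNat 268, .negSucc 479,
  .ofNat 0⟩ ⟨.negSucc 747, .ofNat 268, .ofNat 480, .ofNat 0⟩, .q ⟨.ofNat
  739, .negSucc 258, .negSucc 479, .ofNat 0⟩ ⟨.ofNat 1042, .negSucc 704,
  .ofNat 2655, .negSucc 2991⟩, .q ⟨.ofNat 748, .negSucc 267, .negSucc 479,
  .ofNat 0⟩ ⟨.ofNat 1042, .negSucc 704, .ofNat 2655, .negSucc 2991⟩, .q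
  ⟨.ofNat 739, .negSucc 258, .negSucc 479, .ofNat 0⟩ ⟨.negSucc 352, .ofNat
  16, .negSucc 2654, .ofNat 2992⟩, .q ⟨.ofNat 748, .negSucc 267, .negSucc
  479, .ofNat 0⟩ ⟨.negSucc 352, .ofNat 16, .negSucc 2654, .ofNat 2992⟩, .q
  ⟨.ofNat 739, .negSucc 258, .negSucc 479, .ofNat 0⟩ ⟨.negSucc 2302,
  .negSucc 2207, .ofNat 549, .ofNat 3962⟩, .q ⟨.ofNat 748, .negSucc 267,
  .negSucc 479, .ofNat 0⟩ ⟨.negSucc 2302, .negSucc 2207, .ofNat 549, .ofNat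
  3962⟩],
[.q ⟨.negSucc 220, .negSucc 258, .ofNat 480, .ofNat 0⟩ ⟨.negSucc 738, .ofNat
  259, .ofNat 480, .ofNat 0⟩, .q ⟨.ofNat 216, .ofNat 264, .negSucc 479,
  .ofNat 0⟩ ⟨.negSucc 743, .ofNat 264, .ofNat 480, .ofNat 0⟩, .q ⟨.ofNat
  739, .negSucc 258, .negSucc 479, .ofNat 0⟩ ⟨.ofNat 387, .negSucc 207,
  .ofNat 849, .negSucc 1027⟩, .q ⟨.ofNat 744, .negSucc 263, .negSucc 479,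
  .ofNat 0⟩ ⟨.ofNat 387, .negSucc 207, .ofNat 849, .negSucc 1027⟩, .q
  ⟨.ofNat 739, .negSucc 258, .negSucc 479, .ofNat 0⟩ ⟨.negSucc 149, .negSucc
  28, .negSucc 848, .ofNat 1028⟩, .q ⟨.ofNat 744, .negSucc 263, .negSucc
  479, .ofNat 0⟩ ⟨.negSucc 149, .negSucc 28, .negSucc 848, .ofNat 1028⟩],
[.q ⟨.negSucc 229, .negSucc 249, .ofNat 480, .ofNat 0⟩ ⟨.negSucc 729, .ofNat
  250, .ofNat 480, .ofNat 0⟩, .q ⟨.ofNat 221, .ofNat 259, .negSucc 479,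
  .ofNat 0⟩ ⟨.negSucc 738, .ofNat 259, .ofNat 480, .ofNat 0⟩, .q ⟨.ofNat
  730, .negSucc 249, .negSucc 479, .ofNat 0⟩ ⟨.ofNat 1338, .ofNat 549,
  .ofNat 1723, .negSucc 3609⟩, .q ⟨.ofNat 739, .negSucc 258, .negSucc 479,
  .ofNat 0⟩ ⟨.ofNat 1338, .ofNat 549, .ofNat 1723, .negSucc 3609⟩, .q
  ⟨.ofNat 730, .negSucc 249, .negSucc 479, .ofNat 0⟩ ⟨.negSucc 1123,
  .negSucc 762, .negSucc 1722, .ofNat 3610⟩, .q ⟨.ofNat 739, .negSucc 258,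
  .negSucc 479, .ofNat 0⟩ ⟨.negSucc 1123, .negSucc 762, .negSucc 1722,
  .ofNat 3610⟩],
[.q ⟨.negSucc 18, .negSucc 20, .ofNat 40, .ofNat 0⟩ ⟨.negSucc 60, .ofNat 21,
  .ofNat 40, .ofNat 0⟩, .q ⟨.ofNat 16, .ofNat 24, .negSucc 39, .ofNat 0⟩
  ⟨.negSucc 63, .ofNat 24, .ofNat 40, .ofNat 0⟩, .q ⟨.ofNat 61, .negSucc 20,
  .negSucc 39, .ofNat 0⟩ ⟨.ofNat 257, .ofNat 243, .ofNat 0, .negSucc 499⟩,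
  .q ⟨.ofNat 64, .negSucc 23, .negSucc 39, .ofNat 0⟩ ⟨.ofNat 257, .ofNat
  243, .ofNat 0, .negSucc 499⟩, .q ⟨.ofNat 61, .negSucc 20, .negSucc 39,
  .ofNat 0⟩ ⟨.ofNat 238, .negSucc 723, .negSucc 2574, .ofNat 3061⟩, .q
  ⟨.ofNat 64, .negSucc 23, .negSucc 39, .ofNat 0⟩ ⟨.ofNat 238, .negSucc 723,
  .negSucc 2574, .ofNat 3061⟩, .q ⟨.ofNat 61, .negSucc 20, .negSucc 39,
  .ofNat 0⟩ ⟨.ofNat 2664, .ofNat 2723, .negSucc 1829, .negSucc 3556⟩, .q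
  ⟨.ofNat 64, .negSucc 23, .negSucc 39, .ofNat 0⟩ ⟨.ofNat 2664, .ofNat 2723,
  .negSucc 1829, .negSucc 3556⟩],
[.q ⟨.ofNat 17, .negSucc 18, .negSucc 27, .ofNat 30⟩ ⟨.ofNat 867, .negSucc
  3796, .ofNat 1400, .ofNat 1530⟩, .q ⟨.ofNat 17, .negSucc 18, .negSucc 27,
  .ofNat 30⟩ ⟨.ofNat 4859, .negSucc 3039, .negSucc 948, .negSucc 869⟩, .q
  ⟨.ofNat 17, .negSucc 18, .negSucc 27, .ofNat 30⟩ ⟨.ofNat 2246, .ofNat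
  1851, .negSucc 2056, .negSucc 2039⟩, .q ⟨.ofNat 17, .negSucc 18, .negSucc
  27, .ofNat 30⟩ ⟨.negSucc 4773, .ofNat 2873, .ofNat 821, .ofNat 1080⟩],
[.q ⟨.ofNat 11, .negSucc 12, .negSucc 17, .ofNat 20⟩ ⟨.ofNat 3467, .negSucc
  4026, .ofNat 460, .ofNat 100⟩, .q ⟨.ofNat 11, .negSucc 12, .negSucc 17,
  .ofNat 20⟩ ⟨.ofNat 846, .ofNat 551, .negSucc 716, .negSucc 679⟩, .q
  ⟨.ofNat 11, .negSucc 12, .negSucc 17, .ofNat 20⟩ ⟨.negSucc 3804, .ofNat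
  3831, .negSucc 285, .ofNat 260⟩, .q ⟨.ofNat 11, .negSucc 12, .negSucc 17,
  .ofNat 20⟩ ⟨.negSucc 3549, .negSucc 578, .ofNat 1949, .ofNat 2180⟩],
[.q ⟨.ofNat 11, .negSucc 12, .negSucc 17, .ofNat 20⟩ ⟨.ofNat 3513, .ofNat
  629, .negSucc 2061, .negSucc 2079⟩, .q ⟨.ofNat 11, .negSucc 12, .negSucc
  17, .ofNat 20⟩ ⟨.negSucc 4037, .ofNat 3703, .negSucc 104, .ofNat 440⟩, .q
  ⟨.ofNat 11, .negSucc 12, .negSucc 17, .ofNat 20⟩ ⟨.negSucc 4238, .ofNat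
  462, .ofNat 1717, .ofNat 2060⟩, .q ⟨.ofNat 11, .negSucc 12, .negSucc 17,
  .ofNat 20⟩ ⟨.ofNat 2409, .negSucc 4107, .ofNat 999, .ofNat 700⟩],
[.q ⟨.negSucc 18, .negSucc 15, .ofNat 11, .ofNat 24⟩ ⟨.negSucc 5307,
  .negSucc 923, .ofNat 12376, .negSucc 6143⟩, .q ⟨.negSucc 18, .negSucc 15,
  .ofNat 11, .ofNat 24⟩ ⟨.ofNat 2404, .negSucc 5343, .ofNat 924, .ofNat
  2016⟩, .q ⟨.negSucc 18, .negSucc 15, .ofNat 11, .ofNat 24⟩ ⟨.ofNat 4520,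
  .negSucc 3383, .negSucc 5839, .ofNat 4704⟩, .q ⟨.negSucc 18, .negSucc 15,
  .ofNat 11, .ofNat 24⟩ ⟨.negSucc 4063, .ofNat 15312, .negSucc 9039,
  .negSucc 2207⟩],
[.q ⟨.ofNat 17, .negSucc 18, .negSucc 27, .ofNat 30⟩ ⟨.negSucc 211, .negSucc
  3292, .ofNat 1675, .ofNat 1830⟩, .q ⟨.ofNat 17, .negSucc 18, .negSucc 27,
  .ofNat 30⟩ ⟨.ofNat 4909, .negSucc 2323, .negSucc 1324, .negSucc 1259⟩, .q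
  ⟨.ofNat 17, .negSucc 18, .negSucc 27, .ofNat 30⟩ ⟨.ofNat 572, .ofNat 3050,
  .negSucc 1851, .negSucc 1769⟩, .q ⟨.ofNat 17, .negSucc 18, .negSucc 27,
  .ofNat 30⟩ ⟨.negSucc 4793, .ofNat 2329, .ofNat 1055, .ofNat 1410⟩],
[.q ⟨.negSucc 0, .ofNat 1, .ofNat 0, .ofNat 0⟩ ⟨.negSucc 490, .ofNat 11,
  .ofNat 480, .ofNat 0⟩, .q ⟨.negSucc 0, .ofNat 1, .ofNat 0, .ofNat 0⟩
  ⟨.ofNat 627, .ofNat 13, .negSucc 639, .ofNat 0⟩, .l ⟨.ofNat 0, .ofNat 0,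
  .negSucc 959, .negSucc 942⟩ ⟨.ofNat 0, .ofNat 0, .ofNat 0, .ofNat 1⟩, .l
  ⟨.ofNat 0, .ofNat 0, .ofNat 640, .ofNat 649⟩ ⟨.ofNat 0, .ofNat 0, .ofNat
  0, .ofNat 1⟩],
[.q ⟨.negSucc 0, .ofNat 1, .ofNat 0, .ofNat 0⟩ ⟨.negSucc 1956, .ofNat 37,
  .ofNat 1920, .ofNat 0⟩, .q ⟨.negSucc 0, .ofNat 1, .ofNat 0, .ofNat 0⟩
  ⟨.ofNat 627, .ofNat 13, .negSucc 639, .ofNat 0⟩, .l ⟨.ofNat 0, .ofNat 0,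
  .negSucc 1919, .negSucc 1860⟩ ⟨.ofNat 0, .ofNat 0, .ofNat 0, .ofNat 1⟩, .l
  ⟨.ofNat 0, .ofNat 0, .ofNat 1920, .ofNat 1967⟩ ⟨.ofNat 0, .ofNat 0, .ofNat
  0, .ofNat 1⟩],
[.q ⟨.negSucc 25, .negSucc 20, .ofNat 15, .ofNat 32⟩ ⟨.ofNat 3252, .negSucc
  14471, .ofNat 9556, .ofNat 1664⟩, .q ⟨.negSucc 25, .negSucc 20, .ofNat 15,
  .ofNat 32⟩ ⟨.ofNat 10890, .negSucc 11182, .negSucc 10426, .ofNat 10720⟩,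
  .q ⟨.negSucc 25, .negSucc 20, .ofNat 15, .ofNat 32⟩ ⟨.ofNat 2408, .ofNat
  5836, .negSucc 11955, .ofNat 3712⟩, .q ⟨.negSucc 25, .negSucc 20, .ofNat
  15, .ofNat 32⟩ ⟨.negSucc 6619, .ofNat 1308, .ofNat 12352, .negSucc 7039⟩],
[.q ⟨.negSucc 19, .negSucc 19, .ofNat 40, .ofNat 0⟩ ⟨.negSucc 59, .ofNat 20,
  .ofNat 40, .ofNat 0⟩, .q ⟨.ofNat 17, .ofNat 23, .negSucc 39, .ofNat 0⟩
  ⟨.negSucc 62, .ofNat 23, .ofNat 40, .ofNat 0⟩, .q ⟨.ofNat 60, .negSucc 19,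
  .negSucc 39, .ofNat 0⟩ ⟨.ofNat 14275, .negSucc 9983, .negSucc 301,
  .negSucc 3988⟩, .q ⟨.ofNat 63, .negSucc 22, .negSucc 39, .ofNat 0⟩ ⟨.ofNat
  14275, .negSucc 9983, .negSucc 301, .negSucc 3988⟩, .q ⟨.ofNat 60,
  .negSucc 19, .negSucc 39, .ofNat 0⟩ ⟨.negSucc 909, .negSucc 539, .negSucc
  2008, .ofNat 3459⟩, .q ⟨.ofNat 63, .negSucc 22, .negSucc 39, .ofNat 0⟩
  ⟨.negSucc 909, .negSucc 539, .negSucc 2008, .ofNat 3459⟩, .q ⟨.ofNat 60,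
  .negSucc 19, .negSucc 39, .ofNat 0⟩ ⟨.ofNat 1370, .ofNat 647, .ofNat 1634,
  .negSucc 3650⟩, .q ⟨.ofNat 63, .negSucc 22, .negSucc 39, .ofNat 0⟩ ⟨.ofNat
  1370, .ofNat 647, .ofNat 1634, .negSucc 3650⟩, .q ⟨.ofNat 60, .negSucc 19,
  .negSucc 39, .ofNat 0⟩ ⟨.negSucc 1908, .negSucc 1620, .negSucc 444, .ofNat
  3975⟩, .q ⟨.ofNat 63, .negSucc 22, .negSucc 39, .ofNat 0⟩ ⟨.negSucc 1908,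
  .negSucc 1620, .negSucc 444, .ofNat 3975⟩],
[.l ⟨.ofNat 0, .ofNat 857, .ofNat 3907, .ofNat 586⟩ ⟨.ofNat 0, .ofNat 0,
  .ofNat 0, .ofNat 1⟩, .l ⟨.ofNat 0, .negSucc 2005, .negSucc 3460, .negSucc
  464⟩ ⟨.ofNat 0, .ofNat 0, .ofNat 0, .ofNat 1⟩, .l ⟨.ofNat 0, .ofNat 0,
  .negSucc 1999, .ofNat 399⟩ ⟨.ofNat 0, .ofNat 0, .ofNat 0, .ofNat 1⟩, .l
  ⟨.ofNat 0, .ofNat 3683, .ofNat 1560, .ofNat 1867⟩ ⟨.ofNat 0, .ofNat 0,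
  .ofNat 0, .ofNat 1⟩],
[.q ⟨.ofNat 11, .negSucc 12, .negSucc 17, .ofNat 20⟩ ⟨.ofNat 197, .negSucc
  373, .ofNat 97, .ofNat 80⟩, .q ⟨.ofNat 11, .negSucc 12, .negSucc 17,
  .ofNat 20⟩ ⟨.ofNat 4830, .negSucc 2127, .negSucc 1241, .negSucc 1459⟩, .q
  ⟨.ofNat 11, .negSucc 12, .negSucc 17, .ofNat 20⟩ ⟨.ofNat 2867, .ofNat
  1339, .negSucc 2145, .negSucc 2059⟩, .q ⟨.ofNat 11, .negSucc 12, .negSucc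
  17, .ofNat 20⟩ ⟨.negSucc 3852, .ofNat 3805, .negSucc 251, .ofNat 300⟩, .q
  ⟨.ofNat 11, .negSucc 12, .negSucc 17, .ofNat 20⟩ ⟨.negSucc 4740, .ofNat
  1837, .ofNat 1244, .ofNat 1660⟩],
[.q ⟨.negSucc 226, .negSucc 252, .ofNat 480, .ofNat 0⟩ ⟨.negSucc 732, .ofNat
  253, .ofNat 480, .ofNat 0⟩, .q ⟨.ofNat 217, .ofNat 263, .negSucc 479,
  .ofNat 0⟩ ⟨.negSucc 742, .ofNat 263, .ofNat 480, .ofNat 0⟩, .q ⟨.ofNat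
  733, .negSucc 252, .negSucc 479, .ofNat 0⟩ ⟨.ofNat 1689, .ofNat 865,
  .ofNat 1247, .negSucc 3800⟩, .q ⟨.ofNat 743, .negSucc 262, .negSucc 479,
  .ofNat 0⟩ ⟨.ofNat 1689, .ofNat 865, .ofNat 1247, .negSucc 3800⟩, .q
  ⟨.ofNat 733, .negSucc 252, .negSucc 479, .ofNat 0⟩ ⟨.negSucc 1445,
  .negSucc 1107, .negSucc 1246, .ofNat 3801⟩, .q ⟨.ofNat 743, .negSucc 262,
  .negSucc 479, .ofNat 0⟩ ⟨.negSucc 1445, .negSucc 1107, .negSucc 1246,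
  .ofNat 3801⟩, .q ⟨.ofNat 733, .negSucc 252, .negSucc 479, .ofNat 0⟩
  ⟨.negSucc 892, .negSucc 521, .negSucc 2030, .ofNat 3446⟩, .q ⟨.ofNat 743,
  .negSucc 262, .negSucc 479, .ofNat 0⟩ ⟨.negSucc 892, .negSucc 521,
  .negSucc 2030, .ofNat 3446⟩],
[.q ⟨.negSucc 41, .negSucc 37, .ofNat 80, .ofNat 0⟩ ⟨.negSucc 117, .ofNat
  38, .ofNat 80, .ofNat 0⟩, .q ⟨.ofNat 39, .ofNat 41, .negSucc 79, .ofNat 0⟩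
  ⟨.negSucc 120, .ofNat 41, .ofNat 80, .ofNat 0⟩, .q ⟨.ofNat 118, .negSucc
  37, .negSucc 79, .ofNat 0⟩ ⟨.ofNat 1476, .ofNat 1457, .ofNat 952, .negSucc
  3884⟩, .q ⟨.ofNat 121, .negSucc 40, .negSucc 79, .ofNat 0⟩ ⟨.ofNat 1476,
  .ofNat 1457, .ofNat 952, .negSucc 3884⟩, .q ⟨.ofNat 118, .negSucc 37,
  .negSucc 79, .ofNat 0⟩ ⟨.negSucc 1409, .negSucc 1522, .negSucc 951, .ofNat
  3885⟩, .q ⟨.ofNat 121, .negSucc 40, .negSucc 79, .ofNat 0⟩ ⟨.negSucc 1409,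
  .negSucc 1522, .negSucc 951, .ofNat 3885⟩, .q ⟨.ofNat 118, .negSucc 37,
  .negSucc 79, .ofNat 0⟩ ⟨.ofNat 2601, .ofNat 2582, .negSucc 3724, .negSucc
  1457⟩, .q ⟨.ofNat 121, .negSucc 40, .negSucc 79, .ofNat 0⟩ ⟨.ofNat 2601,
  .ofNat 2582, .negSucc 3724, .negSucc 1457⟩],
[.q ⟨.negSucc 0, .ofNat 0, .ofNat 0, .ofNat 1⟩ ⟨.negSucc 3697, .ofNat 3933,
  .ofNat 728, .negSucc 962⟩, .q ⟨.negSucc 0, .ofNat 0, .ofNat 0, .ofNat 1⟩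
  ⟨.ofNat 3017, .negSucc 3451, .ofNat 2021, .negSucc 1585⟩, .q ⟨.negSucc 0,
  .ofNat 0, .ofNat 0, .ofNat 1⟩ ⟨.ofNat 3382, .negSucc 3612, .negSucc 1716,
  .ofNat 1948⟩],
[.q ⟨.negSucc 0, .ofNat 0, .ofNat 0, .ofNat 1⟩ ⟨.ofNat 853, .negSucc 651,
  .negSucc 3945, .ofNat 3745⟩, .q ⟨.negSucc 0, .ofNat 0, .ofNat 0, .ofNat 1⟩
  ⟨.negSucc 4118, .ofNat 3877, .ofNat 983, .negSucc 740⟩, .q ⟨.negSucc 0,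
  .ofNat 0, .ofNat 0, .ofNat 1⟩ ⟨.negSucc 190, .negSucc 180, .ofNat 3996,
  .negSucc 3623⟩, .q ⟨.negSucc 0, .ofNat 0, .ofNat 0, .ofNat 1⟩ ⟨.ofNat
  2334, .negSucc 2770, .ofNat 2884, .negSucc 2446⟩],
[.q ⟨.negSucc 0, .ofNat 0, .ofNat 0, .ofNat 1⟩ ⟨.negSucc 499, .negSucc 48,
  .ofNat 4000, .negSucc 3450⟩, .q ⟨.negSucc 0, .ofNat 0, .ofNat 0, .ofNat 1⟩
  ⟨.ofNat 1567, .negSucc 3126, .ofNat 2494, .negSucc 933⟩, .q ⟨.negSucc 0,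
  .ofNat 0, .ofNat 0, .ofNat 1⟩ ⟨.ofNat 413, .ofNat 0, .negSucc 3999, .ofNat
  3587⟩, .q ⟨.negSucc 0, .ofNat 0, .ofNat 0, .ofNat 1⟩ ⟨.negSucc 1845,
  .ofNat 2000, .negSucc 30, .negSucc 122⟩],
[.q ⟨.negSucc 10, .negSucc 468, .ofNat 480, .ofNat 0⟩ ⟨.negSucc 948, .ofNat
  469, .ofNat 480, .ofNat 0⟩, .q ⟨.ofNat 1, .ofNat 479, .negSucc 479, .ofNat
  0⟩ ⟨.negSucc 958, .ofNat 479, .ofNat 480, .ofNat 0⟩, .q ⟨.ofNat 949,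
  .negSucc 468, .negSucc 479, .ofNat 0⟩ ⟨.ofNat 6911, .negSucc 4940, .ofNat
  30, .negSucc 1999⟩, .q ⟨.ofNat 959, .negSucc 478, .negSucc 479, .ofNat 0⟩
  ⟨.ofNat 6911, .negSucc 4940, .ofNat 30, .negSucc 1999⟩, .q ⟨.ofNat 949,
  .negSucc 468, .negSucc 479, .ofNat 0⟩ ⟨.negSucc 3676, .ofNat 295, .negSucc
  575, .ofNat 3958⟩, .q ⟨.ofNat 959, .negSucc 478, .negSucc 479, .ofNat 0⟩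
  ⟨.negSucc 3676, .ofNat 295, .negSucc 575, .ofNat 3958⟩, .q ⟨.ofNat 949,
  .negSucc 468, .negSucc 479, .ofNat 0⟩ ⟨.ofNat 3194, .ofNat 2433, .negSucc
  2522, .negSucc 3103⟩, .q ⟨.ofNat 959, .negSucc 478, .negSucc 479, .ofNat
  0⟩ ⟨.ofNat 3194, .ofNat 2433, .negSucc 2522, .negSucc 3103⟩],
[.q ⟨.negSucc 0, .ofNat 0, .ofNat 0, .ofNat 1⟩ ⟨.negSucc 3689, .ofNat 3996,
  .ofNat 181, .negSucc 486⟩, .q ⟨.negSucc 0, .ofNat 0, .ofNat 0, .ofNat 1⟩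
  ⟨.ofNat 3145, .negSucc 3581, .ofNat 1779, .negSucc 1341⟩, .q ⟨.negSucc 0,
  .ofNat 0, .ofNat 0, .ofNat 1⟩ ⟨.ofNat 2659, .negSucc 2716, .negSucc 2934,
  .ofNat 2993⟩],
[.l ⟨.ofNat 0, .ofNat 2121, .negSucc 3391, .negSucc 145⟩ ⟨.ofNat 0, .ofNat
  0, .ofNat 0, .ofNat 1⟩, .l ⟨.ofNat 0, .ofNat 2337, .ofNat 3247, .ofNat
  281⟩ ⟨.ofNat 0, .ofNat 0, .ofNat 0, .ofNat 1⟩, .l ⟨.ofNat 0, .negSucc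
  3016, .ofNat 2626, .ofNat 336⟩ ⟨.ofNat 0, .ofNat 0, .ofNat 0, .ofNat 1⟩,
  .l ⟨.ofNat 0, .negSucc 3002, .negSucc 2641, .negSucc 176⟩ ⟨.ofNat 0,
  .ofNat 0, .ofNat 0, .ofNat 1⟩],
[.q ⟨.negSucc 12, .negSucc 946, .ofNat 960, .ofNat 0⟩ ⟨.negSucc 1906, .ofNat
  947, .ofNat 960, .ofNat 0⟩, .q ⟨.ofNat 3, .ofNat 957, .negSucc 959, .ofNat
  0⟩ ⟨.negSucc 1916, .ofNat 957, .ofNat 960, .ofNat 0⟩, .q ⟨.ofNat 1907,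
  .negSucc 946, .negSucc 959, .ofNat 0⟩ ⟨.ofNat 4321, .negSucc 4225, .ofNat
  894, .negSucc 988⟩, .q ⟨.ofNat 1917, .negSucc 956, .negSucc 959, .ofNat 0⟩
  ⟨.ofNat 4321, .negSucc 4225, .ofNat 894, .negSucc 988⟩, .q ⟨.ofNat 1907,
  .negSucc 946, .negSucc 959, .ofNat 0⟩ ⟨.negSucc 2733, .ofNat 2449,
  .negSucc 2681, .ofNat 2967⟩, .q ⟨.ofNat 1917, .negSucc 956, .negSucc 959,
  .ofNat 0⟩ ⟨.negSucc 2733, .ofNat 2449, .negSucc 2681, .ofNat 2967⟩, .q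
  ⟨.ofNat 1907, .negSucc 946, .negSucc 959, .ofNat 0⟩ ⟨.ofNat 2433, .ofNat
  3152, .negSucc 3240, .negSucc 2343⟩, .q ⟨.ofNat 1917, .negSucc 956,
  .negSucc 959, .ofNat 0⟩ ⟨.ofNat 2433, .ofNat 3152, .negSucc 3240, .negSucc
  2343⟩, .q ⟨.ofNat 1907, .negSucc 946, .negSucc 959, .ofNat 0⟩ ⟨.negSucc
  2858, .negSucc 2775, .ofNat 2573, .ofNat 3062⟩, .q ⟨.ofNat 1917, .negSucc
  956, .negSucc 959, .ofNat 0⟩ ⟨.negSucc 2858, .negSucc 2775, .ofNat 2573,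
  .ofNat 3062⟩],
[.l ⟨.ofNat 0, .ofNat 80, .ofNat 0, .negSucc 68⟩ ⟨.ofNat 0, .ofNat 80,
  .ofNat 0, .ofNat 69⟩, .l ⟨.ofNat 0, .negSucc 79, .ofNat 0, .ofNat 72⟩
  ⟨.ofNat 0, .ofNat 80, .ofNat 0, .ofNat 72⟩, .l ⟨.ofNat 0, .ofNat 80,
  .ofNat 0, .negSucc 68⟩ ⟨.ofNat 0, .ofNat 2271, .ofNat 3293, .ofNat 4940⟩,
  .l ⟨.ofNat 0, .ofNat 80, .ofNat 0, .negSucc 71⟩ ⟨.ofNat 0, .ofNat 2271,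
  .ofNat 3293, .ofNat 4940⟩, .l ⟨.ofNat 0, .ofNat 80, .ofNat 0, .negSucc 68⟩
  ⟨.ofNat 0, .negSucc 2270, .negSucc 3292, .negSucc 5081⟩, .l ⟨.ofNat 0,
  .ofNat 80, .ofNat 0, .negSucc 71⟩ ⟨.ofNat 0, .negSucc 2270, .negSucc 3292,
  .negSucc 5081⟩, .l ⟨.ofNat 0, .ofNat 80, .ofNat 0, .negSucc 68⟩ ⟨.ofNat 0,
  .negSucc 106, .ofNat 3999, .ofNat 3470⟩, .l ⟨.ofNat 0, .ofNat 80, .ofNat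
  0, .negSucc 71⟩ ⟨.ofNat 0, .negSucc 106, .ofNat 3999, .ofNat 3470⟩],
[.q ⟨.negSucc 19, .negSucc 19, .ofNat 40, .ofNat 0⟩ ⟨.negSucc 59, .ofNat 20,
  .ofNat 40, .ofNat 0⟩, .q ⟨.ofNat 17, .ofNat 23, .negSucc 39, .ofNat 0⟩
  ⟨.negSucc 62, .ofNat 23, .ofNat 40, .ofNat 0⟩, .q ⟨.ofNat 60, .negSucc 19,
  .negSucc 39, .ofNat 0⟩ ⟨.ofNat 3873, .negSucc 2652, .ofNat 109, .negSucc
  1328⟩, .q ⟨.ofNat 63, .negSucc 22, .negSucc 39, .ofNat 0⟩ ⟨.ofNat 3873,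
  .negSucc 2652, .ofNat 109, .negSucc 1328⟩, .q ⟨.ofNat 60, .negSucc 19,
  .negSucc 39, .ofNat 0⟩ ⟨.negSucc 78, .negSucc 1199, .negSucc 2115, .ofNat
  3395⟩, .q ⟨.ofNat 63, .negSucc 22, .negSucc 39, .ofNat 0⟩ ⟨.negSucc 78,
  .negSucc 1199, .negSucc 2115, .ofNat 3395⟩, .q ⟨.ofNat 60, .negSucc 19,
  .negSucc 39, .ofNat 0⟩ ⟨.ofNat 2640, .ofNat 2919, .negSucc 3303, .negSucc
  2254⟩, .q ⟨.ofNat 63, .negSucc 22, .negSucc 39, .ofNat 0⟩ ⟨.ofNat 2640,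
  .ofNat 2919, .negSucc 3303, .negSucc 2254⟩],
[.l ⟨.ofNat 0, .ofNat 0, .ofNat 1000, .ofNat 31⟩ ⟨.ofNat 0, .ofNat 0, .ofNat
  0, .ofNat 1⟩, .l ⟨.ofNat 0, .negSucc 1149, .ofNat 675, .ofNat 23⟩ ⟨.ofNat
  0, .ofNat 0, .ofNat 0, .ofNat 1⟩, .l ⟨.ofNat 0, .negSucc 709, .negSucc
  3936, .ofNat 35⟩ ⟨.ofNat 0, .ofNat 0, .ofNat 0, .ofNat 1⟩, .l ⟨.ofNat 0,
  .ofNat 2828, .negSucc 2827, .ofNat 257⟩ ⟨.ofNat 0, .ofNat 0, .ofNat 0,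
  .ofNat 1⟩],
[.q ⟨.negSucc 19, .negSucc 19, .ofNat 40, .ofNat 0⟩ ⟨.negSucc 59, .ofNat 20,
  .ofNat 40, .ofNat 0⟩, .q ⟨.ofNat 17, .ofNat 23, .negSucc 39, .ofNat 0⟩
  ⟨.negSucc 62, .ofNat 23, .ofNat 40, .ofNat 0⟩, .q ⟨.ofNat 60, .negSucc 19,
  .negSucc 39, .ofNat 0⟩ ⟨.ofNat 1376, .ofNat 653, .ofNat 1626, .negSucc
  3654⟩, .q ⟨.ofNat 63, .negSucc 22, .negSucc 39, .ofNat 0⟩ ⟨.ofNat 1376,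
  .ofNat 653, .ofNat 1626, .negSucc 3654⟩, .q ⟨.ofNat 60, .negSucc 19,
  .negSucc 39, .ofNat 0⟩ ⟨.negSucc 1193, .negSucc 834, .negSucc 1625, .ofNat
  3655⟩, .q ⟨.ofNat 63, .negSucc 22, .negSucc 39, .ofNat 0⟩ ⟨.negSucc 1193,
  .negSucc 834, .negSucc 1625, .ofNat 3655⟩, .q ⟨.ofNat 60, .negSucc 19,
  .negSucc 39, .ofNat 0⟩ ⟨.negSucc 798, .negSucc 441, .negSucc 2138, .ofNat
  3380⟩, .q ⟨.ofNat 63, .negSucc 22, .negSucc 39, .ofNat 0⟩ ⟨.negSucc 798,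
  .negSucc 441, .negSucc 2138, .ofNat 3380⟩],
[.l ⟨.ofNat 0, .negSucc 1413, .ofNat 1414, .ofNat 201⟩ ⟨.ofNat 0, .ofNat 0,
  .ofNat 0, .ofNat 1⟩, .l ⟨.ofNat 0, .negSucc 3914, .negSucc 818, .ofNat 23⟩
  ⟨.ofNat 0, .ofNat 0, .ofNat 0, .ofNat 1⟩, .l ⟨.ofNat 0, .ofNat 0, .negSucc
  1999, .negSucc 208⟩ ⟨.ofNat 0, .ofNat 0, .ofNat 0, .ofNat 1⟩, .l ⟨.ofNat
  0, .ofNat 2134, .negSucc 3382, .ofNat 422⟩ ⟨.ofNat 0, .ofNat 0, .ofNat 0,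
  .ofNat 1⟩, .l ⟨.ofNat 0, .ofNat 3127, .ofNat 2495, .ofNat 3340⟩ ⟨.ofNat 0,
  .ofNat 0, .ofNat 0, .ofNat 1⟩],
[.q ⟨.ofNat 17, .negSucc 18, .negSucc 27, .ofNat 30⟩ ⟨.negSucc 2819,
  .negSucc 1321, .ofNat 2012, .ofNat 2130⟩, .q ⟨.ofNat 17, .negSucc 18,
  .negSucc 27, .ofNat 30⟩ ⟨.ofNat 4017, .negSucc 4018, .negSucc 27, .ofNat
  30⟩, .q ⟨.ofNat 17, .negSucc 18, .negSucc 27, .ofNat 30⟩ ⟨.ofNat 1997,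
  .ofNat 2059, .negSucc 2045, .negSucc 2009⟩, .q ⟨.ofNat 17, .negSucc 18,
  .negSucc 27, .ofNat 30⟩ ⟨.negSucc 1312, .ofNat 1276, .negSucc 52, .ofNat
  90⟩],
[.q ⟨.negSucc 8, .negSucc 10, .ofNat 20, .ofNat 0⟩ ⟨.negSucc 30, .ofNat 11,
  .ofNat 20, .ofNat 0⟩, .q ⟨.ofNat 7, .ofNat 13, .negSucc 19, .ofNat 0⟩
  ⟨.negSucc 32, .ofNat 13, .ofNat 20, .ofNat 0⟩, .q ⟨.ofNat 31, .negSucc 10,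
  .negSucc 19, .ofNat 0⟩ ⟨.ofNat 1767, .negSucc 1266, .ofNat 0, .negSucc
  499⟩, .q ⟨.ofNat 33, .negSucc 12, .negSucc 19, .ofNat 0⟩ ⟨.ofNat 1767,
  .negSucc 1266, .ofNat 0, .negSucc 499⟩, .q ⟨.ofNat 31, .negSucc 10,
  .negSucc 19, .ofNat 0⟩ ⟨.ofNat 7285, .negSucc 11209, .negSucc 73, .ofNat
  3999⟩, .q ⟨.ofNat 33, .negSucc 12, .negSucc 19, .ofNat 0⟩ ⟨.ofNat 7285,
  .negSucc 11209, .negSucc 73, .ofNat 3999⟩, .q ⟨.ofNat 31, .negSucc 10,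
  .negSucc 19, .ofNat 0⟩ ⟨.ofNat 2899, .ofNat 2727, .negSucc 3109, .negSucc
  2515⟩, .q ⟨.ofNat 33, .negSucc 12, .negSucc 19, .ofNat 0⟩ ⟨.ofNat 2899,
  .ofNat 2727, .negSucc 3109, .negSucc 2515⟩, .q ⟨.ofNat 31, .negSucc 10,
  .negSucc 19, .ofNat 0⟩ ⟨.ofNat 884, .ofNat 1334, .negSucc 3710, .ofNat
  1493⟩, .q ⟨.ofNat 33, .negSucc 12, .negSucc 19, .ofNat 0⟩ ⟨.ofNat 884,
  .ofNat 1334, .negSucc 3710, .ofNat 1493⟩],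
[.q ⟨.ofNat 17, .negSucc 18, .negSucc 27, .ofNat 30⟩ ⟨.ofNat 220, .ofNat
  1563, .negSucc 912, .negSucc 869⟩, .q ⟨.ofNat 17, .negSucc 18, .negSucc
  27, .ofNat 30⟩ ⟨.negSucc 4720, .ofNat 1783, .ofNat 1288, .ofNat 1650⟩, .q
  ⟨.ofNat 17, .negSucc 18, .negSucc 27, .ofNat 30⟩ ⟨.ofNat 161, .negSucc
  3487, .ofNat 1587, .ofNat 1740⟩, .q ⟨.ofNat 17, .negSucc 18, .negSucc 27,
  .ofNat 30⟩ ⟨.ofNat 1210, .negSucc 478, .negSucc 370, .negSucc 359⟩],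
[.l ⟨.ofNat 0, .negSucc 3988, .negSucc 292, .ofNat 82⟩ ⟨.ofNat 0, .ofNat 0,
  .ofNat 0, .ofNat 1⟩, .l ⟨.ofNat 0, .negSucc 488, .negSucc 3969, .negSucc
  403⟩ ⟨.ofNat 0, .ofNat 0, .ofNat 0, .ofNat 1⟩, .l ⟨.ofNat 0, .ofNat 476,
  .negSucc 152, .ofNat 63⟩ ⟨.ofNat 0, .ofNat 0, .ofNat 0, .ofNat 1⟩, .l
  ⟨.ofNat 0, .negSucc 2196, .ofNat 3343, .ofNat 1763⟩ ⟨.ofNat 0, .ofNat 0,
  .ofNat 0, .ofNat 1⟩],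
[.l ⟨.ofNat 0, .ofNat 40, .ofNat 0, .negSucc 32⟩ ⟨.ofNat 0, .ofNat 40,
  .ofNat 0, .ofNat 33⟩, .l ⟨.ofNat 0, .negSucc 39, .ofNat 0, .ofNat 36⟩
  ⟨.ofNat 0, .ofNat 40, .ofNat 0, .ofNat 36⟩, .l ⟨.ofNat 0, .ofNat 40,
  .ofNat 0, .negSucc 32⟩ ⟨.ofNat 0, .ofNat 1281, .ofNat 3789, .ofNat 4534⟩,
  .l ⟨.ofNat 0, .ofNat 40, .ofNat 0, .negSucc 35⟩ ⟨.ofNat 0, .ofNat 1281,
  .ofNat 3789, .ofNat 4534⟩, .l ⟨.ofNat 0, .ofNat 40, .ofNat 0, .negSucc 32⟩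
  ⟨.ofNat 0, .negSucc 1045, .negSucc 3860, .negSucc 4955⟩, .l ⟨.ofNat 0,
  .ofNat 40, .ofNat 0, .negSucc 35⟩ ⟨.ofNat 0, .negSucc 1045, .negSucc 3860,
  .negSucc 4955⟩, .l ⟨.ofNat 0, .ofNat 40, .ofNat 0, .negSucc 32⟩ ⟨.ofNat 0,
  .ofNat 2224, .ofNat 3325, .ofNat 4933⟩, .l ⟨.ofNat 0, .ofNat 40, .ofNat 0,
  .negSucc 35⟩ ⟨.ofNat 0, .ofNat 2224, .ofNat 3325, .ofNat 4933⟩],
[.q ⟨.negSucc 18, .negSucc 20, .ofNat 40, .ofNat 0⟩ ⟨.negSucc 60, .ofNat 21,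
  .ofNat 40, .ofNat 0⟩, .q ⟨.ofNat 16, .ofNat 24, .negSucc 39, .ofNat 0⟩
  ⟨.negSucc 63, .ofNat 24, .ofNat 40, .ofNat 0⟩, .q ⟨.ofNat 61, .negSucc 20,
  .negSucc 39, .ofNat 0⟩ ⟨.ofNat 13294, .negSucc 11036, .ofNat 1465,
  .negSucc 3721⟩, .q ⟨.ofNat 64, .negSucc 23, .negSucc 39, .ofNat 0⟩ ⟨.ofNat
  13294, .negSucc 11036, .ofNat 1465, .negSucc 3721⟩, .q ⟨.ofNat 61,
  .negSucc 20, .negSucc 39, .ofNat 0⟩ ⟨.ofNat 10739, .negSucc 12995,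
  .negSucc 1464, .ofNat 3722⟩, .q ⟨.ofNat 64, .negSucc 23, .negSucc 39,
  .ofNat 0⟩ ⟨.ofNat 10739, .negSucc 12995, .negSucc 1464, .ofNat 3722⟩, .q
  ⟨.ofNat 61, .negSucc 20, .negSucc 39, .ofNat 0⟩ ⟨.ofNat 3292, .ofNat 1898,
  .negSucc 1468, .negSucc 3720⟩, .q ⟨.ofNat 64, .negSucc 23, .negSucc 39,
  .ofNat 0⟩ ⟨.ofNat 3292, .ofNat 1898, .negSucc 1468, .negSucc 3720⟩, .q
  ⟨.ofNat 61, .negSucc 20, .negSucc 39, .ofNat 0⟩ ⟨.ofNat 871, .ofNat 1306,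
  .negSucc 3698, .ofNat 1522⟩, .q ⟨.ofNat 64, .negSucc 23, .negSucc 39,
  .ofNat 0⟩ ⟨.ofNat 871, .ofNat 1306, .negSucc 3698, .ofNat 1522⟩],
[.l ⟨.ofNat 0, .ofNat 80, .ofNat 0, .negSucc 66⟩ ⟨.ofNat 0, .ofNat 80,
  .ofNat 0, .ofNat 67⟩, .l ⟨.ofNat 0, .negSucc 79, .ofNat 0, .ofNat 70⟩
  ⟨.ofNat 0, .ofNat 80, .ofNat 0, .ofNat 70⟩, .l ⟨.ofNat 0, .ofNat 80,
  .ofNat 0, .negSucc 66⟩ ⟨.ofNat 0, .ofNat 0, .ofNat 4000, .ofNat 2101⟩, .l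
  ⟨.ofNat 0, .ofNat 80, .ofNat 0, .negSucc 69⟩ ⟨.ofNat 0, .ofNat 0, .ofNat
  4000, .ofNat 2101⟩, .l ⟨.ofNat 0, .ofNat 80, .ofNat 0, .negSucc 66⟩
  ⟨.ofNat 0, .ofNat 0, .negSucc 199, .negSucc 166⟩, .l ⟨.ofNat 0, .ofNat 80,
  .ofNat 0, .negSucc 69⟩ ⟨.ofNat 0, .ofNat 0, .negSucc 199, .negSucc 166⟩,
  .l ⟨.ofNat 0, .ofNat 80, .ofNat 0, .negSucc 66⟩ ⟨.ofNat 0, .ofNat 2003,
  .negSucc 3461, .negSucc 1181⟩, .l ⟨.ofNat 0, .ofNat 80, .ofNat 0, .negSucc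
  69⟩ ⟨.ofNat 0, .ofNat 2003, .negSucc 3461, .negSucc 1181⟩],
[.q ⟨.negSucc 442, .negSucc 516, .ofNat 960, .ofNat 0⟩ ⟨.negSucc 1476,
  .ofNat 517, .ofNat 960, .ofNat 0⟩, .q ⟨.ofNat 436, .ofNat 524, .negSucc
  959, .ofNat 0⟩ ⟨.negSucc 1483, .ofNat 524, .ofNat 960, .ofNat 0⟩, .q
  ⟨.ofNat 1477, .negSucc 516, .negSucc 959, .ofNat 0⟩ ⟨.ofNat 11349,
  .negSucc 6904, .negSucc 471, .negSucc 3971⟩, .q ⟨.ofNat 1484, .negSucc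
  523, .negSucc 959, .ofNat 0⟩ ⟨.ofNat 11349, .negSucc 6904, .negSucc 471,
  .negSucc 3971⟩, .q ⟨.ofNat 1477, .negSucc 516, .negSucc 959, .ofNat 0⟩
  ⟨.ofNat 8497, .negSucc 13862, .ofNat 1788, .ofNat 3578⟩, .q ⟨.ofNat 1484,
  .negSucc 523, .negSucc 959, .ofNat 0⟩ ⟨.ofNat 8497, .negSucc 13862, .ofNat
  1788, .ofNat 3578⟩, .q ⟨.ofNat 1477, .negSucc 516, .negSucc 959, .ofNat 0⟩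
  ⟨.ofNat 567, .negSucc 227, .ofNat 2654, .negSucc 2992⟩, .q ⟨.ofNat 1484,
  .negSucc 523, .negSucc 959, .ofNat 0⟩ ⟨.ofNat 567, .negSucc 227, .ofNat
  2654, .negSucc 2992⟩, .q ⟨.ofNat 1477, .negSucc 516, .negSucc 959, .ofNat
  0⟩ ⟨.negSucc 22, .ofNat 170, .negSucc 1485, .ofNat 1339⟩, .q ⟨.ofNat 1484,
  .negSucc 523, .negSucc 959, .ofNat 0⟩ ⟨.negSucc 22, .ofNat 170, .negSucc
  1485, .ofNat 1339⟩],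
[.q ⟨.negSucc 18, .negSucc 20, .ofNat 40, .ofNat 0⟩ ⟨.negSucc 60, .ofNat 21,
  .ofNat 40, .ofNat 0⟩, .q ⟨.ofNat 17, .ofNat 23, .negSucc 39, .ofNat 0⟩
  ⟨.negSucc 62, .ofNat 23, .ofNat 40, .ofNat 0⟩, .q ⟨.ofNat 61, .negSucc 20,
  .negSucc 39, .ofNat 0⟩ ⟨.ofNat 14205, .negSucc 9867, .negSucc 352,
  .negSucc 3983⟩, .q ⟨.ofNat 63, .negSucc 22, .negSucc 39, .ofNat 0⟩ ⟨.ofNat
  14205, .negSucc 9867, .negSucc 352, .negSucc 3983⟩, .q ⟨.ofNat 61,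
  .negSucc 20, .negSucc 39, .ofNat 0⟩ ⟨.negSucc 2082, .negSucc 2504, .ofNat
  640, .ofNat 3948⟩, .q ⟨.ofNat 63, .negSucc 22, .negSucc 39, .ofNat 0⟩
  ⟨.negSucc 2082, .negSucc 2504, .ofNat 640, .ofNat 3948⟩, .q ⟨.ofNat 61,
  .negSucc 20, .negSucc 39, .ofNat 0⟩ ⟨.ofNat 2551, .ofNat 2858, .negSucc
  3532, .negSucc 1875⟩, .q ⟨.ofNat 63, .negSucc 22, .negSucc 39, .ofNat 0⟩
  ⟨.ofNat 2551, .ofNat 2858, .negSucc 3532, .negSucc 1875⟩],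
[.q ⟨.ofNat 11, .negSucc 12, .negSucc 17, .ofNat 20⟩ ⟨.negSucc 3853, .ofNat
  3805, .negSucc 250, .ofNat 300⟩, .q ⟨.ofNat 11, .negSucc 12, .negSucc 17,
  .ofNat 20⟩ ⟨.negSucc 4242, .ofNat 459, .ofNat 1744, .ofNat 2040⟩, .q
  ⟨.ofNat 11, .negSucc 12, .negSucc 17, .ofNat 20⟩ ⟨.ofNat 4724, .negSucc
  3031, .negSucc 711, .negSucc 979⟩, .q ⟨.ofNat 11, .negSucc 12, .negSucc
  17, .ofNat 20⟩ ⟨.ofNat 4108, .negSucc 205, .negSucc 1881, .negSucc 2019⟩],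
[.q ⟨.ofNat 17, .negSucc 18, .negSucc 27, .ofNat 30⟩ ⟨.negSucc 4075, .ofNat
  259, .ofNat 1747, .ofNat 2070⟩, .q ⟨.ofNat 17, .negSucc 18, .negSucc 27,
  .ofNat 30⟩ ⟨.ofNat 2444, .negSucc 4194, .ofNat 851, .ofNat 900⟩, .q
  ⟨.ofNat 17, .negSucc 18, .negSucc 27, .ofNat 30⟩ ⟨.ofNat 2827, .ofNat
  1311, .negSucc 2067, .negSucc 2069⟩, .q ⟨.ofNat 17, .negSucc 18, .negSucc
  27, .ofNat 30⟩ ⟨.negSucc 4156, .ofNat 3733, .ofNat 34, .ofNat 390⟩],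
[.q ⟨.negSucc 18, .negSucc 15, .ofNat 11, .ofNat 24⟩ ⟨.ofNat 7760, .negSucc
  4015, .negSucc 12095, .ofNat 8352⟩, .q ⟨.negSucc 18, .negSucc 15, .ofNat
  11, .ofNat 24⟩ ⟨.negSucc 2667, .ofNat 13440, .negSucc 9907, .negSucc 863⟩,
  .q ⟨.negSucc 18, .negSucc 15, .ofNat 11, .ofNat 24⟩ ⟨.negSucc 10891,
  .ofNat 10884, .ofNat 10664, .negSucc 10655⟩, .q ⟨.negSucc 18, .negSucc 15,
  .ofNat 11, .ofNat 24⟩ ⟨.ofNat 324, .negSucc 1867, .ofNat 1448, .ofNat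
  96⟩],
[.q ⟨.negSucc 244, .negSucc 234, .ofNat 480, .ofNat 0⟩ ⟨.negSucc 714, .ofNat
  235, .ofNat 480, .ofNat 0⟩, .q ⟨.ofNat 236, .ofNat 244, .negSucc 479,
  .ofNat 0⟩ ⟨.negSucc 723, .ofNat 244, .ofNat 480, .ofNat 0⟩, .q ⟨.ofNat
  715, .negSucc 234, .negSucc 479, .ofNat 0⟩ ⟨.ofNat 2029, .ofNat 1971,
  .ofNat 0, .negSucc 3999⟩, .q ⟨.ofNat 724, .negSucc 243, .negSucc 479,
  .ofNat 0⟩ ⟨.ofNat 2029, .ofNat 1971, .ofNat 0, .negSucc 3999⟩, .q ⟨.ofNat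
  715, .negSucc 234, .negSucc 479, .ofNat 0⟩ ⟨.negSucc 2214, .negSucc 2832,
  .ofNat 1247, .ofNat 3801⟩, .q ⟨.ofNat 724, .negSucc 243, .negSucc 479,
  .ofNat 0⟩ ⟨.negSucc 2214, .negSucc 2832, .ofNat 1247, .ofNat 3801⟩, .q
  ⟨.ofNat 715, .negSucc 234, .negSucc 479, .ofNat 0⟩ ⟨.ofNat 2744, .ofNat
  2761, .negSucc 3401, .negSucc 2102⟩, .q ⟨.ofNat 724, .negSucc 243,
  .negSucc 479, .ofNat 0⟩ ⟨.ofNat 2744, .ofNat 2761, .negSucc 3401, .negSucc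
  2102⟩],
[.q ⟨.ofNat 17, .negSucc 18, .negSucc 27, .ofNat 30⟩ ⟨.ofNat 4325, .negSucc
  3838, .negSucc 275, .negSucc 209⟩, .q ⟨.ofNat 17, .negSucc 18, .negSucc
  27, .ofNat 30⟩ ⟨.ofNat 1335, .ofNat 731, .negSucc 1045, .negSucc 1019⟩, .q
  ⟨.ofNat 17, .negSucc 18, .negSucc 27, .ofNat 30⟩ ⟨.negSucc 3265, .ofNat
  4153, .negSucc 496, .negSucc 389⟩, .q ⟨.ofNat 17, .negSucc 18, .negSucc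
  27, .ofNat 30⟩ ⟨.negSucc 4530, .ofNat 1061, .ofNat 1700, .ofNat 1770⟩],
[.q ⟨.negSucc 225, .negSucc 253, .ofNat 480, .ofNat 0⟩ ⟨.negSucc 733, .ofNat
  254, .ofNat 480, .ofNat 0⟩, .q ⟨.ofNat 219, .ofNat 261, .negSucc 479,
  .ofNat 0⟩ ⟨.negSucc 740, .ofNat 261, .ofNat 480, .ofNat 0⟩, .q ⟨.ofNat
  734, .negSucc 253, .negSucc 479, .ofNat 0⟩ ⟨.ofNat 1365, .ofNat 547,
  .ofNat 1706, .negSucc 3617⟩, .q ⟨.ofNat 741, .negSucc 260, .negSucc 479,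
  .ofNat 0⟩ ⟨.ofNat 1365, .ofNat 547, .ofNat 1706, .negSucc 3617⟩, .q
  ⟨.ofNat 734, .negSucc 253, .negSucc 479, .ofNat 0⟩ ⟨.negSucc 567, .negSucc
  387, .negSucc 852, .ofNat 1809⟩, .q ⟨.ofNat 741, .negSucc 260, .negSucc
  479, .ofNat 0⟩ ⟨.negSucc 567, .negSucc 387, .negSucc 852, .ofNat 1809⟩],
[.q ⟨.ofNat 11, .negSucc 12, .negSucc 17, .ofNat 20⟩ ⟨.negSucc 4263, .ofNat
  511, .ofNat 1693, .ofNat 2060⟩, .q ⟨.ofNat 11, .negSucc 12, .negSucc 17,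
  .ofNat 20⟩ ⟨.ofNat 803, .negSucc 3776, .ofNat 1514, .ofNat 1460⟩, .q
  ⟨.ofNat 11, .negSucc 12, .negSucc 17, .ofNat 20⟩ ⟨.ofNat 4477, .negSucc
  894, .negSucc 1701, .negSucc 1879⟩, .q ⟨.ofNat 11, .negSucc 12, .negSucc
  17, .ofNat 20⟩ ⟨.negSucc 1372, .ofNat 2037, .negSucc 443, .negSucc 219⟩],
[.q ⟨.ofNat 11, .negSucc 12, .negSucc 17, .ofNat 20⟩ ⟨.ofNat 1967, .negSucc
  1960, .ofNat 54, .negSucc 59⟩, .q ⟨.ofNat 11, .negSucc 12, .negSucc 17,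
  .ofNat 20⟩ ⟨.ofNat 4615, .negSucc 1220, .negSucc 1613, .negSucc 1779⟩, .q
  ⟨.ofNat 11, .negSucc 12, .negSucc 17, .ofNat 20⟩ ⟨.negSucc 3520, .ofNat
  3950, .negSucc 468, .ofNat 40⟩, .q ⟨.ofNat 11, .negSucc 12, .negSucc 17,
  .ofNat 20⟩ ⟨.negSucc 4224, .ofNat 432, .ofNat 1733, .ofNat 2060⟩],
[.q ⟨.negSucc 19, .negSucc 19, .ofNat 40, .ofNat 0⟩ ⟨.negSucc 59, .ofNat 20,
  .ofNat 40, .ofNat 0⟩, .q ⟨.ofNat 17, .ofNat 23, .negSucc 39, .ofNat 0⟩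
  ⟨.negSucc 62, .ofNat 23, .ofNat 40, .ofNat 0⟩, .q ⟨.ofNat 60, .negSucc 19,
  .negSucc 39, .ofNat 0⟩ ⟨.ofNat 1244, .ofNat 536, .ofNat 1795, .negSucc
  3574⟩, .q ⟨.ofNat 63, .negSucc 22, .negSucc 39, .ofNat 0⟩ ⟨.ofNat 1244,
  .ofNat 536, .ofNat 1795, .negSucc 3574⟩, .q ⟨.ofNat 60, .negSucc 19,
  .negSucc 39, .ofNat 0⟩ ⟨.negSucc 1071, .negSucc 707, .negSucc 1794, .ofNat
  3575⟩, .q ⟨.ofNat 63, .negSucc 22, .negSucc 39, .ofNat 0⟩ ⟨.negSucc 1071,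
  .negSucc 707, .negSucc 1794, .ofNat 3575⟩],
[.q ⟨.negSucc 39, .negSucc 39, .ofNat 80, .ofNat 0⟩ ⟨.negSucc 119, .ofNat
  40, .ofNat 80, .ofNat 0⟩, .q ⟨.ofNat 37, .ofNat 43, .negSucc 79, .ofNat 0⟩
  ⟨.negSucc 122, .ofNat 43, .ofNat 80, .ofNat 0⟩, .q ⟨.ofNat 120, .negSucc
  39, .negSucc 79, .ofNat 0⟩ ⟨.ofNat 920, .ofNat 915, .negSucc 700, .negSucc
  1133⟩, .q ⟨.ofNat 123, .negSucc 42, .negSucc 79, .ofNat 0⟩ ⟨.ofNat 920,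
  .ofNat 915, .negSucc 700, .negSucc 1133⟩, .q ⟨.ofNat 120, .negSucc 39,
  .negSucc 79, .ofNat 0⟩ ⟨.negSucc 328, .negSucc 424, .negSucc 985, .ofNat
  1740⟩, .q ⟨.ofNat 123, .negSucc 42, .negSucc 79, .ofNat 0⟩ ⟨.negSucc 328,
  .negSucc 424, .negSucc 985, .ofNat 1740⟩, .q ⟨.ofNat 120, .negSucc 39,
  .negSucc 79, .ofNat 0⟩ ⟨.ofNat 2186, .ofNat 2111, .negSucc 308, .negSucc
  3987⟩, .q ⟨.ofNat 123, .negSucc 42, .negSucc 79, .ofNat 0⟩ ⟨.ofNat 2186,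
  .ofNat 2111, .negSucc 308, .negSucc 3987⟩],
[.q ⟨.ofNat 17, .negSucc 18, .negSucc 27, .ofNat 30⟩ ⟨.ofNat 4900, .negSucc
  2269, .negSucc 1339, .negSucc 1289⟩, .q ⟨.ofNat 17, .negSucc 18, .negSucc
  27, .ofNat 30⟩ ⟨.ofNat 220, .ofNat 1563, .negSucc 912, .negSucc 869⟩, .q
  ⟨.ofNat 17, .negSucc 18, .negSucc 27, .ofNat 30⟩ ⟨.negSucc 4564, .ofNat
  1250, .ofNat 1485, .ofNat 1830⟩, .q ⟨.ofNat 17, .negSucc 18, .negSucc 27,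
  .ofNat 30⟩ ⟨.ofNat 1873, .negSucc 4083, .ofNat 1101, .ofNat 1110⟩],
[.l ⟨.ofNat 0, .negSucc 337, .negSucc 1970, .negSucc 198⟩ ⟨.ofNat 0, .ofNat
  0, .ofNat 0, .ofNat 1⟩, .l ⟨.ofNat 0, .ofNat 2000, .ofNat 0, .ofNat 1691⟩
  ⟨.ofNat 0, .ofNat 0, .ofNat 0, .ofNat 1⟩, .l ⟨.ofNat 0, .ofNat 135, .ofNat
  3998, .ofNat 1019⟩ ⟨.ofNat 0, .ofNat 0, .ofNat 0, .ofNat 1⟩, .l ⟨.ofNat 0,
  .negSucc 2648, .ofNat 2997, .ofNat 418⟩ ⟨.ofNat 0, .ofNat 0, .ofNat 0,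
  .ofNat 1⟩, .l ⟨.ofNat 0, .negSucc 3842, .negSucc 1110, .negSucc 10⟩
  ⟨.ofNat 0, .ofNat 0, .ofNat 0, .ofNat 1⟩],
[.q ⟨.negSucc 0, .ofNat 0, .ofNat 0, .ofNat 1⟩ ⟨.ofNat 639, .negSucc 1122,
  .ofNat 719, .negSucc 234⟩, .q ⟨.negSucc 0, .ofNat 0, .ofNat 0, .ofNat 1⟩
  ⟨.ofNat 1549, .negSucc 1425, .negSucc 3736, .ofNat 3614⟩, .q ⟨.negSucc 0,
  .ofNat 0, .ofNat 0, .ofNat 1⟩ ⟨.negSucc 578, .ofNat 707, .negSucc 706,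
  .ofNat 579⟩, .q ⟨.negSucc 0, .ofNat 0, .ofNat 0, .ofNat 1⟩ ⟨.negSucc 2876,
  .ofNat 2919, .ofNat 2735, .negSucc 2776⟩],
[.q ⟨.negSucc 254, .negSucc 224, .ofNat 480, .ofNat 0⟩ ⟨.negSucc 704, .ofNat
  225, .ofNat 480, .ofNat 0⟩, .q ⟨.ofNat 244, .ofNat 236, .negSucc 479,
  .ofNat 0⟩ ⟨.negSucc 715, .ofNat 236, .ofNat 480, .ofNat 0⟩, .q ⟨.ofNat
  705, .negSucc 224, .negSucc 479, .ofNat 0⟩ ⟨.ofNat 526, .ofNat 1936,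
  .negSucc 534, .negSucc 1926⟩, .q ⟨.ofNat 716, .negSucc 235, .negSucc 479,
  .ofNat 0⟩ ⟨.ofNat 526, .ofNat 1936, .negSucc 534, .negSucc 1926⟩, .q
  ⟨.ofNat 705, .negSucc 224, .negSucc 479, .ofNat 0⟩ ⟨.ofNat 637, .negSucc
  3000, .negSucc 1387, .ofNat 3752⟩, .q ⟨.ofNat 716, .negSucc 235, .negSucc
  479, .ofNat 0⟩ ⟨.ofNat 637, .negSucc 3000, .negSucc 1387, .ofNat 3752⟩],
[.l ⟨.ofNat 0, .negSucc 1999, .ofNat 5, .negSucc 208⟩ ⟨.ofNat 0, .ofNat 0,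
  .ofNat 0, .ofNat 1⟩, .l ⟨.ofNat 0, .negSucc 388, .negSucc 3980, .ofNat 68⟩
  ⟨.ofNat 0, .ofNat 0, .ofNat 0, .ofNat 1⟩, .l ⟨.ofNat 0, .ofNat 1164,
  .ofNat 3827, .ofNat 560⟩ ⟨.ofNat 0, .ofNat 0, .ofNat 0, .ofNat 1⟩],
[.l ⟨.ofNat 0, .ofNat 3223, .ofNat 2369, .ofNat 3182⟩ ⟨.ofNat 0, .ofNat 0,
  .ofNat 0, .ofNat 1⟩, .l ⟨.ofNat 0, .negSucc 1302, .ofNat 3782, .ofNat 466⟩
  ⟨.ofNat 0, .ofNat 0, .ofNat 0, .ofNat 1⟩, .l ⟨.ofNat 0, .negSucc 3861,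
  .negSucc 1039, .negSucc 2⟩ ⟨.ofNat 0, .ofNat 0, .ofNat 0, .ofNat 1⟩, .l
  ⟨.ofNat 0, .negSucc 16, .negSucc 3999, .negSucc 416⟩ ⟨.ofNat 0, .ofNat 0,
  .ofNat 0, .ofNat 1⟩],
[.q ⟨.negSucc 0, .ofNat 0, .ofNat 0, .ofNat 1⟩ ⟨.negSucc 960, .ofNat 849,
  .ofNat 1811, .negSucc 1698⟩, .q ⟨.negSucc 0, .ofNat 0, .ofNat 0, .ofNat 1⟩
  ⟨.ofNat 2397, .negSucc 2828, .ofNat 2827, .negSucc 2394⟩, .q ⟨.negSucc 0,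
  .ofNat 0, .ofNat 0, .ofNat 1⟩ ⟨.ofNat 1819, .negSucc 1999, .ofNat 0,
  .ofNat 181⟩, .q ⟨.negSucc 0, .ofNat 0, .ofNat 0, .ofNat 1⟩ ⟨.negSucc 514,
  .ofNat 537, .negSucc 592, .ofNat 571⟩],
[.q ⟨.negSucc 10, .negSucc 468, .ofNat 480, .ofNat 0⟩ ⟨.negSucc 948, .ofNat
  469, .ofNat 480, .ofNat 0⟩, .q ⟨.ofNat 3, .ofNat 477, .negSucc 479, .ofNat
  0⟩ ⟨.negSucc 956, .ofNat 477, .ofNat 480, .ofNat 0⟩, .q ⟨.ofNat 949,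
  .negSucc 468, .negSucc 479, .ofNat 0⟩ ⟨.ofNat 5223, .negSucc 4250, .ofNat
  322, .negSucc 1293⟩, .q ⟨.ofNat 957, .negSucc 476, .negSucc 479, .ofNat 0⟩
  ⟨.ofNat 5223, .negSucc 4250, .ofNat 322, .negSucc 1293⟩, .q ⟨.ofNat 949,
  .negSucc 468, .negSucc 479, .ofNat 0⟩ ⟨.negSucc 3598, .ofNat 683, .negSucc
  965, .ofNat 3882⟩, .q ⟨.ofNat 957, .negSucc 476, .negSucc 479, .ofNat 0⟩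
  ⟨.negSucc 3598, .ofNat 683, .negSucc 965, .ofNat 3882⟩, .q ⟨.ofNat 949,
  .negSucc 468, .negSucc 479, .ofNat 0⟩ ⟨.ofNat 4008, .negSucc 630, .ofNat
  581, .negSucc 3957⟩, .q ⟨.ofNat 957, .negSucc 476, .negSucc 479, .ofNat 0⟩
  ⟨.ofNat 4008, .negSucc 630, .ofNat 581, .negSucc 3957⟩],
[.q ⟨.negSucc 268, .negSucc 210, .ofNat 480, .ofNat 0⟩ ⟨.negSucc 690, .ofNat
  211, .ofNat 480, .ofNat 0⟩, .q ⟨.ofNat 264, .ofNat 216, .negSucc 479,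
  .ofNat 0⟩ ⟨.negSucc 695, .ofNat 216, .ofNat 480, .ofNat 0⟩, .q ⟨.ofNat
  691, .negSucc 210, .negSucc 479, .ofNat 0⟩ ⟨.ofNat 384, .ofNat 3493,
  .ofNat 121, .negSucc 3997⟩, .q ⟨.ofNat 696, .negSucc 215, .negSucc 479,
  .ofNat 0⟩ ⟨.ofNat 384, .ofNat 3493, .ofNat 121, .negSucc 3997⟩, .q ⟨.ofNat
  691, .negSucc 210, .negSucc 479, .ofNat 0⟩ ⟨.negSucc 254, .negSucc 3621,
  .negSucc 120, .ofNat 3998⟩, .q ⟨.ofNat 696, .negSucc 215, .negSucc 479,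
  .ofNat 0⟩ ⟨.negSucc 254, .negSucc 3621, .negSucc 120, .ofNat 3998⟩],
[.q ⟨.negSucc 12, .negSucc 946, .ofNat 960, .ofNat 0⟩ ⟨.negSucc 1906, .ofNat
  947, .ofNat 960, .ofNat 0⟩, .q ⟨.ofNat 2, .ofNat 958, .negSucc 959, .ofNat
  0⟩ ⟨.negSucc 1917, .ofNat 958, .ofNat 960, .ofNat 0⟩, .q ⟨.ofNat 1907,
  .negSucc 946, .negSucc 959, .ofNat 0⟩ ⟨.ofNat 3751, .ofNat 1542, .negSucc
  1648, .negSucc 3643⟩, .q ⟨.ofNat 1918, .negSucc 957, .negSucc 959, .ofNat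
  0⟩ ⟨.ofNat 3751, .ofNat 1542, .negSucc 1648, .negSucc 3643⟩, .q ⟨.ofNat
  1907, .negSucc 946, .negSucc 959, .ofNat 0⟩ ⟨.negSucc 901, .ofNat 160,
  .negSucc 230, .ofNat 973⟩, .q ⟨.ofNat 1918, .negSucc 957, .negSucc 959,
  .ofNat 0⟩ ⟨.negSucc 901, .ofNat 160, .negSucc 230, .ofNat 973⟩],
[.l ⟨.ofNat 0, .ofNat 40, .ofNat 0, .negSucc 36⟩ ⟨.ofNat 0, .ofNat 40,
  .ofNat 0, .ofNat 37⟩, .l ⟨.ofNat 0, .negSucc 39, .ofNat 0, .ofNat 40⟩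
  ⟨.ofNat 0, .ofNat 40, .ofNat 0, .ofNat 40⟩, .l ⟨.ofNat 0, .ofNat 40,
  .ofNat 0, .negSucc 36⟩ ⟨.ofNat 0, .ofNat 750, .ofNat 3929, .ofNat 4146⟩,
  .l ⟨.ofNat 0, .ofNat 40, .ofNat 0, .negSucc 39⟩ ⟨.ofNat 0, .ofNat 750,
  .ofNat 3929, .ofNat 4146⟩, .l ⟨.ofNat 0, .ofNat 40, .ofNat 0, .negSucc 36⟩
  ⟨.ofNat 0, .ofNat 1465, .negSucc 3721, .negSucc 2559⟩, .l ⟨.ofNat 0,
  .ofNat 40, .ofNat 0, .negSucc 39⟩ ⟨.ofNat 0, .ofNat 1465, .negSucc 3721,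
  .negSucc 2559⟩],
[.q ⟨.negSucc 18, .negSucc 20, .ofNat 40, .ofNat 0⟩ ⟨.negSucc 60, .ofNat 21,
  .ofNat 40, .ofNat 0⟩, .q ⟨.ofNat 15, .ofNat 25, .negSucc 39, .ofNat 0⟩
  ⟨.negSucc 64, .ofNat 25, .ofNat 40, .ofNat 0⟩, .q ⟨.ofNat 61, .negSucc 20,
  .negSucc 39, .ofNat 0⟩ ⟨.ofNat 2781, .negSucc 1780, .ofNat 0, .negSucc
  999⟩, .q ⟨.ofNat 65, .negSucc 24, .negSucc 39, .ofNat 0⟩ ⟨.ofNat 2781,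
  .negSucc 1780, .ofNat 0, .negSucc 999⟩, .q ⟨.ofNat 61, .negSucc 20,
  .negSucc 39, .ofNat 0⟩ ⟨.ofNat 9440, .negSucc 14922, .ofNat 2046, .ofNat
  3437⟩, .q ⟨.ofNat 65, .negSucc 24, .negSucc 39, .ofNat 0⟩ ⟨.ofNat 9440,
  .negSucc 14922, .ofNat 2046, .ofNat 3437⟩, .q ⟨.ofNat 61, .negSucc 20,
  .negSucc 39, .ofNat 0⟩ ⟨.negSucc 52, .negSucc 457, .ofNat 1163, .negSucc
  651⟩, .q ⟨.ofNat 65, .negSucc 24, .negSucc 39, .ofNat 0⟩ ⟨.negSucc 52,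
  .negSucc 457, .ofNat 1163, .negSucc 651⟩, .q ⟨.ofNat 61, .negSucc 20,
  .negSucc 39, .ofNat 0⟩ ⟨.ofNat 459, .ofNat 893, .negSucc 3421, .ofNat
  2070⟩, .q ⟨.ofNat 65, .negSucc 24, .negSucc 39, .ofNat 0⟩ ⟨.ofNat 459,
  .ofNat 893, .negSucc 3421, .ofNat 2070⟩],
[.q ⟨.negSucc 20, .negSucc 18, .ofNat 40, .ofNat 0⟩ ⟨.negSucc 58, .ofNat 19,
  .ofNat 40, .ofNat 0⟩, .q ⟨.ofNat 17, .ofNat 23, .negSucc 39, .ofNat 0⟩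
  ⟨.negSucc 62, .ofNat 23, .ofNat 40, .ofNat 0⟩, .q ⟨.ofNat 59, .negSucc 18,
  .negSucc 39, .ofNat 0⟩ ⟨.ofNat 1520, .ofNat 1452, .ofNat 921, .negSucc
  3892⟩, .q ⟨.ofNat 63, .negSucc 22, .negSucc 39, .ofNat 0⟩ ⟨.ofNat 1520,
  .ofNat 1452, .ofNat 921, .negSucc 3892⟩, .q ⟨.ofNat 59, .negSucc 18,
  .negSucc 39, .ofNat 0⟩ ⟨.negSucc 17, .negSucc 441, .negSucc 2588, .ofNat
  3049⟩, .q ⟨.ofNat 63, .negSucc 22, .negSucc 39, .ofNat 0⟩ ⟨.negSucc 17,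
  .negSucc 441, .negSucc 2588, .ofNat 3049⟩, .q ⟨.ofNat 59, .negSucc 18,
  .negSucc 39, .ofNat 0⟩ ⟨.ofNat 2609, .ofNat 2636, .negSucc 3681, .negSucc
  1562⟩, .q ⟨.ofNat 63, .negSucc 22, .negSucc 39, .ofNat 0⟩ ⟨.ofNat 2609,
  .ofNat 2636, .negSucc 3681, .negSucc 1562⟩],
[.l ⟨.ofNat 0, .ofNat 80, .ofNat 0, .negSucc 69⟩ ⟨.ofNat 0, .ofNat 80,
  .ofNat 0, .ofNat 70⟩, .l ⟨.ofNat 0, .negSucc 79, .ofNat 0, .ofNat 73⟩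
  ⟨.ofNat 0, .ofNat 80, .ofNat 0, .ofNat 73⟩, .l ⟨.ofNat 0, .ofNat 80,
  .ofNat 0, .negSucc 69⟩ ⟨.ofNat 0, .ofNat 2253, .ofNat 3305, .ofNat 4978⟩,
  .l ⟨.ofNat 0, .ofNat 80, .ofNat 0, .negSucc 72⟩ ⟨.ofNat 0, .ofNat 2253,
  .ofNat 3305, .ofNat 4978⟩, .l ⟨.ofNat 0, .ofNat 80, .ofNat 0, .negSucc 69⟩
  ⟨.ofNat 0, .ofNat 802, .negSucc 3918, .negSucc 3483⟩, .l ⟨.ofNat 0, .ofNat
  80, .ofNat 0, .negSucc 72⟩ ⟨.ofNat 0, .ofNat 802, .negSucc 3918, .negSucc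
  3483⟩],
[.l ⟨.ofNat 0, .ofNat 80, .ofNat 0, .negSucc 73⟩ ⟨.ofNat 0, .ofNat 80,
  .ofNat 0, .ofNat 74⟩, .l ⟨.ofNat 0, .negSucc 79, .ofNat 0, .ofNat 77⟩
  ⟨.ofNat 0, .ofNat 80, .ofNat 0, .ofNat 77⟩, .l ⟨.ofNat 0, .ofNat 80,
  .ofNat 0, .negSucc 73⟩ ⟨.ofNat 0, .negSucc 260, .ofNat 3991, .negSucc
  5580⟩, .l ⟨.ofNat 0, .ofNat 80, .ofNat 0, .negSucc 76⟩ ⟨.ofNat 0, .negSucc
  260, .ofNat 3991, .negSucc 5580⟩, .l ⟨.ofNat 0, .ofNat 80, .ofNat 0,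
  .negSucc 73⟩ ⟨.ofNat 0, .ofNat 261, .negSucc 3990, .negSucc 4058⟩, .l
  ⟨.ofNat 0, .ofNat 80, .ofNat 0, .negSucc 76⟩ ⟨.ofNat 0, .ofNat 261,
  .negSucc 3990, .negSucc 4058⟩, .l ⟨.ofNat 0, .ofNat 80, .ofNat 0, .negSucc
  73⟩ ⟨.ofNat 0, .ofNat 93, .ofNat 3999, .ofNat 3611⟩, .l ⟨.ofNat 0, .ofNat
  80, .ofNat 0, .negSucc 76⟩ ⟨.ofNat 0, .ofNat 93, .ofNat 3999, .ofNat
  3611⟩],
[.q ⟨.negSucc 0, .ofNat 1, .ofNat 0, .ofNat 0⟩ ⟨.negSucc 82, .ofNat 3,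
  .ofNat 80, .ofNat 0⟩, .q ⟨.negSucc 0, .ofNat 1, .ofNat 0, .ofNat 0⟩
  ⟨.ofNat 597, .ofNat 43, .negSucc 639, .ofNat 0⟩, .l ⟨.ofNat 0, .ofNat 0,
  .negSucc 1919, .negSucc 1290⟩ ⟨.ofNat 0, .ofNat 0, .ofNat 0, .ofNat 1⟩, .l
  ⟨.ofNat 0, .ofNat 0, .ofNat 1920, .ofNat 1469⟩ ⟨.ofNat 0, .ofNat 0, .ofNat
  0, .ofNat 1⟩],
[.l ⟨.ofNat 0, .ofNat 80, .ofNat 0, .negSucc 71⟩ ⟨.ofNat 0, .ofNat 80,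
  .ofNat 0, .ofNat 72⟩, .l ⟨.ofNat 0, .negSucc 79, .ofNat 0, .ofNat 75⟩
  ⟨.ofNat 0, .ofNat 80, .ofNat 0, .ofNat 75⟩, .l ⟨.ofNat 0, .ofNat 80,
  .ofNat 0, .negSucc 71⟩ ⟨.ofNat 0, .ofNat 0, .ofNat 4000, .ofNat 3573⟩, .l
  ⟨.ofNat 0, .ofNat 80, .ofNat 0, .negSucc 74⟩ ⟨.ofNat 0, .ofNat 0, .ofNat
  4000, .ofNat 3573⟩, .l ⟨.ofNat 0, .ofNat 80, .ofNat 0, .negSucc 71⟩
  ⟨.ofNat 0, .ofNat 572, .negSucc 3958, .negSucc 3734⟩, .l ⟨.ofNat 0, .ofNat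
  80, .ofNat 0, .negSucc 74⟩ ⟨.ofNat 0, .ofNat 572, .negSucc 3958, .negSucc
  3734⟩],
[.l ⟨.ofNat 0, .ofNat 80, .ofNat 0, .negSucc 60⟩ ⟨.ofNat 0, .ofNat 80,
  .ofNat 0, .ofNat 61⟩, .l ⟨.ofNat 0, .negSucc 79, .ofNat 0, .ofNat 65⟩
  ⟨.ofNat 0, .ofNat 80, .ofNat 0, .ofNat 65⟩, .l ⟨.ofNat 0, .ofNat 80,
  .ofNat 0, .negSucc 60⟩ ⟨.ofNat 0, .ofNat 1309, .ofNat 1512, .ofNat 2064⟩,
  .l ⟨.ofNat 0, .ofNat 80, .ofNat 0, .negSucc 64⟩ ⟨.ofNat 0, .ofNat 1309,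
  .ofNat 1512, .ofNat 2064⟩, .l ⟨.ofNat 0, .ofNat 80, .ofNat 0, .negSucc 60⟩
  ⟨.ofNat 0, .ofNat 257, .negSucc 3991, .negSucc 3092⟩, .l ⟨.ofNat 0, .ofNat
  80, .ofNat 0, .negSucc 64⟩ ⟨.ofNat 0, .ofNat 257, .negSucc 3991, .negSucc
  3092⟩],
[.l ⟨.ofNat 0, .ofNat 20, .ofNat 0, .negSucc 13⟩ ⟨.ofNat 0, .ofNat 20,
  .ofNat 0, .ofNat 14⟩, .l ⟨.ofNat 0, .negSucc 19, .ofNat 0, .ofNat 15⟩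
  ⟨.ofNat 0, .ofNat 20, .ofNat 0, .ofNat 15⟩, .l ⟨.ofNat 0, .ofNat 20,
  .ofNat 0, .negSucc 13⟩ ⟨.ofNat 0, .ofNat 208, .ofNat 1317, .negSucc 1520⟩,
  .l ⟨.ofNat 0, .ofNat 20, .ofNat 0, .negSucc 14⟩ ⟨.ofNat 0, .ofNat 208,
  .ofNat 1317, .negSucc 1520⟩, .l ⟨.ofNat 0, .ofNat 20, .ofNat 0, .negSucc
  13⟩ ⟨.ofNat 0, .negSucc 2336, .negSucc 3245, .negSucc 4288⟩, .l ⟨.ofNat 0,
  .ofNat 20, .ofNat 0, .negSucc 14⟩ ⟨.ofNat 0, .negSucc 2336, .negSucc 3245,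
  .negSucc 4288⟩, .l ⟨.ofNat 0, .ofNat 20, .ofNat 0, .negSucc 13⟩ ⟨.ofNat 0,
  .ofNat 2728, .ofNat 2926, .ofNat 4173⟩, .l ⟨.ofNat 0, .ofNat 20, .ofNat 0,
  .negSucc 14⟩ ⟨.ofNat 0, .ofNat 2728, .ofNat 2926, .ofNat 4173⟩],
[.q ⟨.negSucc 5, .negSucc 33, .ofNat 40, .ofNat 0⟩ ⟨.negSucc 73, .ofNat 34,
  .ofNat 40, .ofNat 0⟩, .q ⟨.ofNat 3, .ofNat 37, .negSucc 39, .ofNat 0⟩
  ⟨.negSucc 76, .ofNat 37, .ofNat 40, .ofNat 0⟩, .q ⟨.ofNat 74, .negSucc 33,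
  .negSucc 39, .ofNat 0⟩ ⟨.ofNat 3247, .negSucc 1711, .ofNat 1955, .negSucc
  3489⟩, .q ⟨.ofNat 77, .negSucc 36, .negSucc 39, .ofNat 0⟩ ⟨.ofNat 3247,
  .negSucc 1711, .ofNat 1955, .negSucc 3489⟩, .q ⟨.ofNat 74, .negSucc 33,
  .negSucc 39, .ofNat 0⟩ ⟨.negSucc 625, .ofNat 319, .negSucc 390, .ofNat
  698⟩, .q ⟨.ofNat 77, .negSucc 36, .negSucc 39, .ofNat 0⟩ ⟨.negSucc 625,
  .ofNat 319, .negSucc 390, .ofNat 698⟩, .q ⟨.ofNat 74, .negSucc 33,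
  .negSucc 39, .ofNat 0⟩ ⟨.ofNat 2568, .ofNat 2929, .negSucc 3416, .negSucc
  2079⟩, .q ⟨.ofNat 77, .negSucc 36, .negSucc 39, .ofNat 0⟩ ⟨.ofNat 2568,
  .ofNat 2929, .negSucc 3416, .negSucc 2079⟩, .q ⟨.ofNat 74, .negSucc 33,
  .negSucc 39, .ofNat 0⟩ ⟨.negSucc 2331, .ofNat 2387, .negSucc 2855, .ofNat
  2801⟩, .q ⟨.ofNat 77, .negSucc 36, .negSucc 39, .ofNat 0⟩ ⟨.negSucc 2331,
  .ofNat 2387, .negSucc 2855, .ofNat 2801⟩],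
[.l ⟨.ofNat 0, .ofNat 536, .ofNat 3964, .ofNat 145⟩ ⟨.ofNat 0, .ofNat 0,
  .ofNat 0, .ofNat 1⟩, .l ⟨.ofNat 0, .negSucc 2677, .ofNat 2971, .ofNat 110⟩
  ⟨.ofNat 0, .ofNat 0, .ofNat 0, .ofNat 1⟩, .l ⟨.ofNat 0, .negSucc 2607,
  .negSucc 3032, .ofNat 9⟩ ⟨.ofNat 0, .ofNat 0, .ofNat 0, .ofNat 1⟩, .l
  ⟨.ofNat 0, .ofNat 656, .negSucc 3945, .ofNat 83⟩ ⟨.ofNat 0, .ofNat 0,
  .ofNat 0, .ofNat 1⟩],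
[.q ⟨.negSucc 0, .ofNat 1, .ofNat 0, .ofNat 0⟩ ⟨.negSucc 1986, .ofNat 67,
  .ofNat 1920, .ofNat 0⟩, .q ⟨.negSucc 0, .ofNat 1, .ofNat 0, .ofNat 0⟩
  ⟨.ofNat 617, .ofNat 23, .negSucc 639, .ofNat 0⟩, .l ⟨.ofNat 0, .ofNat 0,
  .negSucc 639, .negSucc 366⟩ ⟨.ofNat 0, .ofNat 0, .ofNat 0, .ofNat 1⟩, .l
  ⟨.ofNat 0, .ofNat 0, .ofNat 960, .ofNat 737⟩ ⟨.ofNat 0, .ofNat 0, .ofNat
  0, .ofNat 1⟩],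
[.q ⟨.negSucc 36, .negSucc 42, .ofNat 80, .ofNat 0⟩ ⟨.negSucc 122, .ofNat
  43, .ofNat 80, .ofNat 0⟩, .q ⟨.ofNat 34, .ofNat 46, .negSucc 79, .ofNat 0⟩
  ⟨.negSucc 125, .ofNat 46, .ofNat 80, .ofNat 0⟩, .q ⟨.ofNat 123, .negSucc
  42, .negSucc 79, .ofNat 0⟩ ⟨.ofNat 1409, .negSucc 1008, .ofNat 0, .negSucc
  399⟩, .q ⟨.ofNat 126, .negSucc 45, .negSucc 79, .ofNat 0⟩ ⟨.ofNat 1409,
  .negSucc 1008, .ofNat 0, .negSucc 399⟩, .q ⟨.ofNat 123, .negSucc 42,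
  .negSucc 79, .ofNat 0⟩ ⟨.ofNat 5387, .negSucc 6462, .negSucc 769, .ofNat
  1846⟩, .q ⟨.ofNat 126, .negSucc 45, .negSucc 79, .ofNat 0⟩ ⟨.ofNat 5387,
  .negSucc 6462, .negSucc 769, .ofNat 1846⟩, .q ⟨.ofNat 123, .negSucc 42,
  .negSucc 79, .ofNat 0⟩ ⟨.ofNat 1881, .ofNat 1037, .ofNat 964, .negSucc
  3881⟩, .q ⟨.ofNat 126, .negSucc 45, .negSucc 79, .ofNat 0⟩ ⟨.ofNat 1881,
  .ofNat 1037, .ofNat 964, .negSucc 3881⟩, .q ⟨.ofNat 123, .negSucc 42,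
  .negSucc 79, .ofNat 0⟩ ⟨.ofNat 91, .ofNat 134, .negSucc 371, .ofNat 147⟩,
  .q ⟨.ofNat 126, .negSucc 45, .negSucc 79, .ofNat 0⟩ ⟨.ofNat 91, .ofNat
  134, .negSucc 371, .ofNat 147⟩],
[.q ⟨.negSucc 36, .negSucc 42, .ofNat 80, .ofNat 0⟩ ⟨.negSucc 122, .ofNat
  43, .ofNat 80, .ofNat 0⟩, .q ⟨.ofNat 34, .ofNat 46, .negSucc 79, .ofNat 0⟩
  ⟨.negSucc 125, .ofNat 46, .ofNat 80, .ofNat 0⟩, .q ⟨.ofNat 123, .negSucc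
  42, .negSucc 79, .ofNat 0⟩ ⟨.ofNat 13333, .negSucc 8890, .negSucc 469,
  .negSucc 3971⟩, .q ⟨.ofNat 126, .negSucc 45, .negSucc 79, .ofNat 0⟩
  ⟨.ofNat 13333, .negSucc 8890, .negSucc 469, .negSucc 3971⟩, .q ⟨.ofNat
  123, .negSucc 42, .negSucc 79, .ofNat 0⟩ ⟨.negSucc 623, .negSucc 633,
  .negSucc 2128, .ofNat 3387⟩, .q ⟨.ofNat 126, .negSucc 45, .negSucc 79,
  .ofNat 0⟩ ⟨.negSucc 623, .negSucc 633, .negSucc 2128, .ofNat 3387⟩, .q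
  ⟨.ofNat 123, .negSucc 42, .negSucc 79, .ofNat 0⟩ ⟨.ofNat 2651, .ofNat
  2920, .negSucc 3275, .negSucc 2294⟩, .q ⟨.ofNat 126, .negSucc 45, .negSucc
  79, .ofNat 0⟩ ⟨.ofNat 2651, .ofNat 2920, .negSucc 3275, .negSucc 2294⟩],
[.l ⟨.ofNat 0, .ofNat 80, .ofNat 0, .negSucc 68⟩ ⟨.ofNat 0, .ofNat 80,
  .ofNat 0, .ofNat 69⟩, .l ⟨.ofNat 0, .negSucc 79, .ofNat 0, .ofNat 72⟩
  ⟨.ofNat 0, .ofNat 80, .ofNat 0, .ofNat 72⟩, .l ⟨.ofNat 0, .ofNat 80,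
  .ofNat 0, .negSucc 68⟩ ⟨.ofNat 0, .ofNat 0, .ofNat 4000, .ofNat 3201⟩, .l
  ⟨.ofNat 0, .ofNat 80, .ofNat 0, .negSucc 71⟩ ⟨.ofNat 0, .ofNat 0, .ofNat
  4000, .ofNat 3201⟩, .l ⟨.ofNat 0, .ofNat 80, .ofNat 0, .negSucc 68⟩
  ⟨.ofNat 0, .negSucc 201, .negSucc 3994, .negSucc 3519⟩, .l ⟨.ofNat 0,
  .ofNat 80, .ofNat 0, .negSucc 71⟩ ⟨.ofNat 0, .negSucc 201, .negSucc 3994,
  .negSucc 3519⟩, .l ⟨.ofNat 0, .ofNat 80, .ofNat 0, .negSucc 68⟩ ⟨.ofNat 0,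
  .ofNat 1975, .negSucc 3478, .negSucc 1193⟩, .l ⟨.ofNat 0, .ofNat 80,
  .ofNat 0, .negSucc 71⟩ ⟨.ofNat 0, .ofNat 1975, .negSucc 3478, .negSucc
  1193⟩],
[.l ⟨.ofNat 0, .ofNat 20, .ofNat 0, .negSucc 16⟩ ⟨.ofNat 0, .ofNat 20,
  .ofNat 0, .ofNat 17⟩, .l ⟨.ofNat 0, .negSucc 19, .ofNat 0, .ofNat 18⟩
  ⟨.ofNat 0, .ofNat 20, .ofNat 0, .ofNat 18⟩, .l ⟨.ofNat 0, .ofNat 20,
  .ofNat 0, .negSucc 16⟩ ⟨.ofNat 0, .ofNat 324, .ofNat 3987, .negSucc 7333⟩,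
  .l ⟨.ofNat 0, .ofNat 20, .ofNat 0, .negSucc 17⟩ ⟨.ofNat 0, .ofNat 324,
  .ofNat 3987, .negSucc 7333⟩, .l ⟨.ofNat 0, .ofNat 20, .ofNat 0, .negSucc
  16⟩ ⟨.ofNat 0, .negSucc 107, .negSucc 1328, .negSucc 1201⟩, .l ⟨.ofNat 0,
  .ofNat 20, .ofNat 0, .negSucc 17⟩ ⟨.ofNat 0, .negSucc 107, .negSucc 1328,
  .negSucc 1201⟩, .l ⟨.ofNat 0, .ofNat 20, .ofNat 0, .negSucc 16⟩ ⟨.ofNat 0,
  .negSucc 174, .ofNat 3996, .ofNat 1946⟩, .l ⟨.ofNat 0, .ofNat 20, .ofNat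
  0, .negSucc 17⟩ ⟨.ofNat 0, .negSucc 174, .ofNat 3996, .ofNat 1946⟩, .l
  ⟨.ofNat 0, .ofNat 20, .ofNat 0, .negSucc 16⟩ ⟨.ofNat 0, .ofNat 899,
  .negSucc 3897, .negSucc 2486⟩, .l ⟨.ofNat 0, .ofNat 20, .ofNat 0, .negSucc
  17⟩ ⟨.ofNat 0, .ofNat 899, .negSucc 3897, .negSucc 2486⟩],
[.q ⟨.negSucc 220, .negSucc 258, .ofNat 480, .ofNat 0⟩ ⟨.negSucc 738, .ofNat
  259, .ofNat 480, .ofNat 0⟩, .q ⟨.ofNat 213, .ofNat 267, .negSucc 479,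
  .ofNat 0⟩ ⟨.negSucc 746, .ofNat 267, .ofNat 480, .ofNat 0⟩, .q ⟨.ofNat
  739, .negSucc 258, .negSucc 479, .ofNat 0⟩ ⟨.ofNat 149, .ofNat 51, .ofNat
  0, .negSucc 199⟩, .q ⟨.ofNat 747, .negSucc 266, .negSucc 479, .ofNat 0⟩
  ⟨.ofNat 149, .ofNat 51, .ofNat 0, .negSucc 199⟩, .q ⟨.ofNat 739, .negSucc
  258, .negSucc 479, .ofNat 0⟩ ⟨.negSucc 454, .negSucc 91, .negSucc 2541,
  .ofNat 3089⟩, .q ⟨.ofNat 747, .negSucc 266, .negSucc 479, .ofNat 0⟩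
  ⟨.negSucc 454, .negSucc 91, .negSucc 2541, .ofNat 3089⟩],
[.q ⟨.negSucc 25, .negSucc 20, .ofNat 15, .ofNat 32⟩ ⟨.ofNat 40, .ofNat
  4672, .negSucc 5607, .ofNat 896⟩, .q ⟨.negSucc 25, .negSucc 20, .ofNat 15,
  .ofNat 32⟩ ⟨.negSucc 907, .negSucc 995, .ofNat 3056, .negSucc 1151⟩, .q
  ⟨.negSucc 25, .negSucc 20, .ofNat 15, .ofNat 32⟩ ⟨.ofNat 10536, .negSucc
  9891, .negSucc 10883, .ofNat 10240⟩],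
[.q ⟨.negSucc 18, .negSucc 20, .ofNat 40, .ofNat 0⟩ ⟨.negSucc 60, .ofNat 21,
  .ofNat 40, .ofNat 0⟩, .q ⟨.ofNat 16, .ofNat 24, .negSucc 39, .ofNat 0⟩
  ⟨.negSucc 63, .ofNat 24, .ofNat 40, .ofNat 0⟩, .q ⟨.ofNat 61, .negSucc 20,
  .negSucc 39, .ofNat 0⟩ ⟨.ofNat 1693, .negSucc 219, .ofNat 1994, .negSucc
  3466⟩, .q ⟨.ofNat 64, .negSucc 23, .negSucc 39, .ofNat 0⟩ ⟨.ofNat 1693,
  .negSucc 219, .ofNat 1994, .negSucc 3466⟩, .q ⟨.ofNat 61, .negSucc 20,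
  .negSucc 39, .ofNat 0⟩ ⟨.negSucc 923, .negSucc 548, .negSucc 1993, .ofNat
  3467⟩, .q ⟨.ofNat 64, .negSucc 23, .negSucc 39, .ofNat 0⟩ ⟨.negSucc 923,
  .negSucc 548, .negSucc 1993, .ofNat 3467⟩],
[.q ⟨.negSucc 243, .negSucc 235, .ofNat 480, .ofNat 0⟩ ⟨.negSucc 715, .ofNat
  236, .ofNat 480, .ofNat 0⟩, .q ⟨.ofNat 235, .ofNat 245, .negSucc 479,
  .ofNat 0⟩ ⟨.negSucc 724, .ofNat 245, .ofNat 480, .ofNat 0⟩, .q ⟨.ofNat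
  716, .negSucc 235, .negSucc 479, .ofNat 0⟩ ⟨.ofNat 1037, .ofNat 1011,
  .ofNat 1613, .negSucc 3660⟩, .q ⟨.ofNat 725, .negSucc 244, .negSucc 479,
  .ofNat 0⟩ ⟨.ofNat 1037, .ofNat 1011, .ofNat 1613, .negSucc 3660⟩, .q
  ⟨.ofNat 716, .negSucc 235, .negSucc 479, .ofNat 0⟩ ⟨.negSucc 2566,
  .negSucc 3075, .ofNat 2623, .ofNat 3020⟩, .q ⟨.ofNat 725, .negSucc 244,
  .negSucc 479, .ofNat 0⟩ ⟨.negSucc 2566, .negSucc 3075, .ofNat 2623, .ofNat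
  3020⟩, .q ⟨.ofNat 716, .negSucc 235, .negSucc 479, .ofNat 0⟩ ⟨.ofNat 656,
  .ofNat 653, .negSucc 921, .negSucc 386⟩, .q ⟨.ofNat 725, .negSucc 244,
  .negSucc 479, .ofNat 0⟩ ⟨.ofNat 656, .ofNat 653, .negSucc 921, .negSucc
  386⟩],
[.q ⟨.negSucc 0, .ofNat 1, .ofNat 0, .ofNat 0⟩ ⟨.negSucc 642, .ofNat 3,
  .ofNat 640, .ofNat 0⟩, .q ⟨.negSucc 0, .ofNat 1, .ofNat 0, .ofNat 0⟩
  ⟨.ofNat 79, .ofNat 1, .negSucc 79, .ofNat 0⟩, .l ⟨.ofNat 0, .ofNat 0,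
  .negSucc 1919, .negSucc 1780⟩ ⟨.ofNat 0, .ofNat 0, .ofNat 0, .ofNat 1⟩, .l
  ⟨.ofNat 0, .ofNat 0, .ofNat 640, .ofNat 673⟩ ⟨.ofNat 0, .ofNat 0, .ofNat
  0, .ofNat 1⟩],
[.q ⟨.negSucc 41, .negSucc 37, .ofNat 80, .ofNat 0⟩ ⟨.negSucc 117, .ofNat
  38, .ofNat 80, .ofNat 0⟩, .q ⟨.ofNat 39, .ofNat 41, .negSucc 79, .ofNat 0⟩
  ⟨.negSucc 120, .ofNat 41, .ofNat 80, .ofNat 0⟩, .q ⟨.ofNat 118, .negSucc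
  37, .negSucc 79, .ofNat 0⟩ ⟨.ofNat 403, .ofNat 397, .ofNat 0, .negSucc
  799⟩, .q ⟨.ofNat 121, .negSucc 40, .negSucc 79, .ofNat 0⟩ ⟨.ofNat 403,
  .ofNat 397, .ofNat 0, .negSucc 799⟩, .q ⟨.ofNat 118, .negSucc 37, .negSucc
  79, .ofNat 0⟩ ⟨.ofNat 1003, .negSucc 1402, .ofNat 0, .ofNat 400⟩, .q
  ⟨.ofNat 121, .negSucc 40, .negSucc 79, .ofNat 0⟩ ⟨.ofNat 1003, .negSucc
  1402, .ofNat 0, .ofNat 400⟩, .q ⟨.ofNat 118, .negSucc 37, .negSucc 79,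
  .ofNat 0⟩ ⟨.ofNat 1335, .ofNat 1328, .negSucc 1807, .negSucc 854⟩, .q
  ⟨.ofNat 121, .negSucc 40, .negSucc 79, .ofNat 0⟩ ⟨.ofNat 1335, .ofNat
  1328, .negSucc 1807, .negSucc 854⟩, .q ⟨.ofNat 118, .negSucc 37, .negSucc
  79, .ofNat 0⟩ ⟨.ofNat 936, .ofNat 841, .negSucc 3573, .ofNat 1797⟩, .q
  ⟨.ofNat 121, .negSucc 40, .negSucc 79, .ofNat 0⟩ ⟨.ofNat 936, .ofNat 841,
  .negSucc 3573, .ofNat 1797⟩],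
[.q ⟨.ofNat 17, .negSucc 18, .negSucc 27, .ofNat 30⟩ ⟨.ofNat 4916, .negSucc
  2516, .negSucc 1228, .negSucc 1169⟩, .q ⟨.ofNat 17, .negSucc 18, .negSucc
  27, .ofNat 30⟩ ⟨.ofNat 1164, .ofNat 2678, .negSucc 1951, .negSucc 1889⟩,
  .q ⟨.ofNat 17, .negSucc 18, .negSucc 27, .ofNat 30⟩ ⟨.negSucc 4754, .ofNat
  1821, .ofNat 1344, .ofNat 1590⟩, .q ⟨.ofNat 17, .negSucc 18, .negSucc 27,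
  .ofNat 30⟩ ⟨.ofNat 221, .negSucc 953, .ofNat 343, .ofNat 390⟩],
[.q ⟨.negSucc 18, .negSucc 15, .ofNat 11, .ofNat 24⟩ ⟨.negSucc 1527,
  .negSucc 763, .ofNat 4116, .negSucc 1823⟩, .q ⟨.negSucc 18, .negSucc 15,
  .ofNat 11, .ofNat 24⟩ ⟨.ofNat 5628, .negSucc 17431, .ofNat 7868, .ofNat
  3936⟩, .q ⟨.negSucc 18, .negSucc 15, .ofNat 11, .ofNat 24⟩ ⟨.ofNat 7980,
  .negSucc 4483, .negSucc 12039, .ofNat 8544⟩, .q ⟨.negSucc 18, .negSucc 15,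
  .ofNat 11, .ofNat 24⟩ ⟨.negSucc 3839, .ofNat 15044, .negSucc 9187,
  .negSucc 2015⟩],
[.q ⟨.negSucc 18, .negSucc 15, .ofNat 11, .ofNat 24⟩ ⟨.negSucc 371, .ofNat
  3752, .negSucc 3571, .ofNat 192⟩, .q ⟨.negSucc 18, .negSucc 15, .ofNat 11,
  .ofNat 24⟩ ⟨.negSucc 12227, .ofNat 17836, .ofNat 5528, .negSucc 11135⟩, .q
  ⟨.negSucc 18, .negSucc 15, .ofNat 11, .ofNat 24⟩ ⟨.ofNat 4840, .negSucc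
  16395, .ofNat 8484, .ofNat 3072⟩, .q ⟨.negSucc 18, .negSucc 15, .ofNat 11,
  .ofNat 24⟩ ⟨.ofNat 9184, .negSucc 7059, .negSucc 11627, .ofNat 9504⟩],
[.q ⟨.negSucc 25, .negSucc 20, .ofNat 15, .ofNat 32⟩ ⟨.ofNat 1848, .negSucc
  4291, .ofNat 780, .ofNat 1664⟩, .q ⟨.negSucc 25, .negSucc 20, .ofNat 15,
  .ofNat 32⟩ ⟨.ofNat 3016, .ofNat 4848, .negSucc 12087, .ofNat 4224⟩, .q
  ⟨.negSucc 25, .negSucc 20, .ofNat 15, .ofNat 32⟩ ⟨.negSucc 12555, .ofNat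
  18116, .ofNat 4808, .negSucc 10367⟩, .q ⟨.negSucc 25, .negSucc 20, .ofNat
  15, .ofNat 32⟩ ⟨.negSucc 4531, .negSucc 2423, .ofNat 12332, .negSucc
  5375⟩],
[.l ⟨.ofNat 0, .ofNat 80, .ofNat 0, .negSucc 64⟩ ⟨.ofNat 0, .ofNat 80,
  .ofNat 0, .ofNat 65⟩, .l ⟨.ofNat 0, .negSucc 79, .ofNat 0, .ofNat 69⟩
  ⟨.ofNat 0, .ofNat 80, .ofNat 0, .ofNat 69⟩, .l ⟨.ofNat 0, .ofNat 80,
  .ofNat 0, .negSucc 64⟩ ⟨.ofNat 0, .negSucc 408, .ofNat 3979, .ofNat 2268⟩,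
  .l ⟨.ofNat 0, .ofNat 80, .ofNat 0, .negSucc 68⟩ ⟨.ofNat 0, .negSucc 408,
  .ofNat 3979, .ofNat 2268⟩, .l ⟨.ofNat 0, .ofNat 80, .ofNat 0, .negSucc 64⟩
  ⟨.ofNat 0, .ofNat 409, .negSucc 3978, .negSucc 2965⟩, .l ⟨.ofNat 0, .ofNat
  80, .ofNat 0, .negSucc 68⟩ ⟨.ofNat 0, .ofNat 409, .negSucc 3978, .negSucc
  2965⟩],
[.q ⟨.negSucc 452, .negSucc 506, .ofNat 960, .ofNat 0⟩ ⟨.negSucc 1466,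
  .ofNat 507, .ofNat 960, .ofNat 0⟩, .q ⟨.ofNat 442, .ofNat 518, .negSucc
  959, .ofNat 0⟩ ⟨.negSucc 1477, .ofNat 518, .ofNat 960, .ofNat 0⟩, .q
  ⟨.ofNat 1467, .negSucc 506, .negSucc 959, .ofNat 0⟩ ⟨.ofNat 14795,
  .negSucc 9377, .negSucc 1892, .negSucc 3523⟩, .q ⟨.ofNat 1478, .negSucc
  517, .negSucc 959, .ofNat 0⟩ ⟨.ofNat 14795, .negSucc 9377, .negSucc 1892,
  .negSucc 3523⟩, .q ⟨.ofNat 1467, .negSucc 506, .negSucc 959, .ofNat 0⟩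
  ⟨.ofNat 9226, .negSucc 14642, .ofNat 1893, .ofNat 3524⟩, .q ⟨.ofNat 1478,
  .negSucc 517, .negSucc 959, .ofNat 0⟩ ⟨.ofNat 9226, .negSucc 14642, .ofNat
  1893, .ofNat 3524⟩, .q ⟨.ofNat 1467, .negSucc 506, .negSucc 959, .ofNat 0⟩
  ⟨.ofNat 2890, .ofNat 2691, .negSucc 3253, .negSucc 2326⟩, .q ⟨.ofNat 1478,
  .negSucc 517, .negSucc 959, .ofNat 0⟩ ⟨.ofNat 2890, .ofNat 2691, .negSucc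
  3253, .negSucc 2326⟩, .q ⟨.ofNat 1467, .negSucc 506, .negSucc 959, .ofNat
  0⟩ ⟨.negSucc 1177, .negSucc 819, .negSucc 1646, .ofNat 3645⟩, .q ⟨.ofNat
  1478, .negSucc 517, .negSucc 959, .ofNat 0⟩ ⟨.negSucc 1177, .negSucc 819,
  .negSucc 1646, .ofNat 3645⟩],
[.q ⟨.negSucc 21, .negSucc 17, .ofNat 40, .ofNat 0⟩ ⟨.negSucc 57, .ofNat 18,
  .ofNat 40, .ofNat 0⟩, .q ⟨.ofNat 19, .ofNat 21, .negSucc 39, .ofNat 0⟩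
  ⟨.negSucc 60, .ofNat 21, .ofNat 40, .ofNat 0⟩, .q ⟨.ofNat 58, .negSucc 17,
  .negSucc 39, .ofNat 0⟩ ⟨.ofNat 2473, .ofNat 2442, .negSucc 1056, .negSucc
  3857⟩, .q ⟨.ofNat 61, .negSucc 20, .negSucc 39, .ofNat 0⟩ ⟨.ofNat 2473,
  .ofNat 2442, .negSucc 1056, .negSucc 3857⟩, .q ⟨.ofNat 58, .negSucc 17,
  .negSucc 39, .ofNat 0⟩ ⟨.ofNat 9800, .negSucc 12800, .negSucc 896, .ofNat
  3898⟩, .q ⟨.ofNat 61, .negSucc 20, .negSucc 39, .ofNat 0⟩ ⟨.ofNat 9800,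
  .negSucc 12800, .negSucc 896, .ofNat 3898⟩, .q ⟨.ofNat 58, .negSucc 17,
  .negSucc 39, .ofNat 0⟩ ⟨.ofNat 2721, .ofNat 2755, .negSucc 3447, .negSucc
  2027⟩, .q ⟨.ofNat 61, .negSucc 20, .negSucc 39, .ofNat 0⟩ ⟨.ofNat 2721,
  .ofNat 2755, .negSucc 3447, .negSucc 2027⟩, .q ⟨.ofNat 58, .negSucc 17,
  .negSucc 39, .ofNat 0⟩ ⟨.ofNat 966, .ofNat 692, .negSucc 3532, .ofNat
  1875⟩, .q ⟨.ofNat 61, .negSucc 20, .negSucc 39, .ofNat 0⟩ ⟨.ofNat 966,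
  .ofNat 692, .negSucc 3532, .ofNat 1875⟩],
[.l ⟨.ofNat 0, .negSucc 3999, .ofNat 0, .negSucc 1958⟩ ⟨.ofNat 0, .ofNat 0,
  .ofNat 0, .ofNat 1⟩, .l ⟨.ofNat 0, .ofNat 129, .negSucc 3997, .ofNat 874⟩
  ⟨.ofNat 0, .ofNat 0, .ofNat 0, .ofNat 1⟩, .l ⟨.ofNat 0, .ofNat 2828,
  .negSucc 2827, .ofNat 2179⟩ ⟨.ofNat 0, .ofNat 0, .ofNat 0, .ofNat 1⟩, .l
  ⟨.ofNat 0, .ofNat 2354, .ofNat 3234, .ofNat 2235⟩ ⟨.ofNat 0, .ofNat 0,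
  .ofNat 0, .ofNat 1⟩],
[.q ⟨.negSucc 0, .ofNat 1, .ofNat 0, .ofNat 0⟩ ⟨.negSucc 2016, .ofNat 97,
  .ofNat 1920, .ofNat 0⟩, .q ⟨.negSucc 0, .ofNat 1, .ofNat 0, .ofNat 0⟩
  ⟨.ofNat 607, .ofNat 33, .negSucc 639, .ofNat 0⟩, .l ⟨.ofNat 0, .ofNat 0,
  .negSucc 959, .negSucc 592⟩ ⟨.ofNat 0, .ofNat 0, .ofNat 0, .ofNat 1⟩, .l
  ⟨.ofNat 0, .ofNat 0, .ofNat 640, .ofNat 479⟩ ⟨.ofNat 0, .ofNat 0, .ofNat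
  0, .ofNat 1⟩],
[.q ⟨.ofNat 11, .negSucc 12, .negSucc 17, .ofNat 20⟩ ⟨.negSucc 3908, .ofNat
  3778, .negSucc 208, .ofNat 340⟩, .q ⟨.ofNat 11, .negSucc 12, .negSucc 17,
  .ofNat 20⟩ ⟨.negSucc 2153, .ofNat 298, .ofNat 836, .ofNat 1020⟩, .q
  ⟨.ofNat 11, .negSucc 12, .negSucc 17, .ofNat 20⟩ ⟨.ofNat 4675, .negSucc
  2918, .negSucc 635, .negSucc 1119⟩],
[.q ⟨.negSucc 0, .ofNat 1, .ofNat 0, .ofNat 0⟩ ⟨.negSucc 336, .ofNat 17,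
  .ofNat 320, .ofNat 0⟩, .q ⟨.negSucc 0, .ofNat 1, .ofNat 0, .ofNat 0⟩
  ⟨.ofNat 607, .ofNat 33, .negSucc 639, .ofNat 0⟩, .l ⟨.ofNat 0, .ofNat 0,
  .negSucc 1919, .negSucc 1192⟩ ⟨.ofNat 0, .ofNat 0, .ofNat 0, .ofNat 1⟩, .l
  ⟨.ofNat 0, .ofNat 0, .ofNat 1920, .ofNat 1429⟩ ⟨.ofNat 0, .ofNat 0, .ofNat
  0, .ofNat 1⟩],
[.q ⟨.negSucc 9, .negSucc 9, .ofNat 20, .ofNat 0⟩ ⟨.negSucc 29, .ofNat 10,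
  .ofNat 20, .ofNat 0⟩, .q ⟨.ofNat 7, .ofNat 13, .negSucc 19, .ofNat 0⟩
  ⟨.negSucc 32, .ofNat 13, .ofNat 20, .ofNat 0⟩, .q ⟨.ofNat 30, .negSucc 9,
  .negSucc 19, .ofNat 0⟩ ⟨.ofNat 1138, .negSucc 882, .ofNat 2698, .negSucc
  2952⟩, .q ⟨.ofNat 33, .negSucc 12, .negSucc 19, .ofNat 0⟩ ⟨.ofNat 1138,
  .negSucc 882, .ofNat 2698, .negSucc 2952⟩, .q ⟨.ofNat 30, .negSucc 9,
  .negSucc 19, .ofNat 0⟩ ⟨.negSucc 221, .negSucc 39, .negSucc 1276, .ofNat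
  1539⟩, .q ⟨.ofNat 33, .negSucc 12, .negSucc 19, .ofNat 0⟩ ⟨.negSucc 221,
  .negSucc 39, .negSucc 1276, .ofNat 1539⟩, .q ⟨.ofNat 30, .negSucc 9,
  .negSucc 19, .ofNat 0⟩ ⟨.ofNat 2517, .ofNat 2717, .negSucc 3689, .negSucc
  1543⟩, .q ⟨.ofNat 33, .negSucc 12, .negSucc 19, .ofNat 0⟩ ⟨.ofNat 2517,
  .ofNat 2717, .negSucc 3689, .negSucc 1543⟩],
[.q ⟨.negSucc 0, .ofNat 0, .ofNat 0, .ofNat 1⟩ ⟨.ofNat 3647, .negSucc 3997,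
  .negSucc 112, .ofNat 464⟩, .q ⟨.negSucc 0, .ofNat 0, .ofNat 0, .ofNat 1⟩
  ⟨.negSucc 1789, .ofNat 1907, .negSucc 3515, .ofNat 3399⟩, .q ⟨.negSucc 0,
  .ofNat 0, .ofNat 0, .ofNat 1⟩ ⟨.negSucc 2441, .ofNat 2135, .ofNat 3383,
  .negSucc 3075⟩, .q ⟨.negSucc 0, .ofNat 0, .ofNat 0, .ofNat 1⟩ ⟨.ofNat 992,
  .negSucc 1364, .ofNat 3760, .negSucc 3386⟩],
[.q ⟨.negSucc 0, .ofNat 0, .ofNat 0, .ofNat 1⟩ ⟨.negSucc 539, .ofNat 707,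
  .negSucc 706, .ofNat 540⟩, .q ⟨.negSucc 0, .ofNat 0, .ofNat 0, .ofNat 1⟩
  ⟨.negSucc 1126, .ofNat 556, .ofNat 3961, .negSucc 3389⟩, .q ⟨.negSucc 0,
  .ofNat 0, .ofNat 0, .ofNat 1⟩ ⟨.ofNat 2552, .negSucc 3313, .ofNat 2241,
  .negSucc 1478⟩, .q ⟨.negSucc 0, .ofNat 0, .ofNat 0, .ofNat 1⟩ ⟨.ofNat
  2329, .negSucc 2463, .negSucc 3150, .ofNat 3286⟩],
[.l ⟨.ofNat 0, .ofNat 2883, .negSucc 2772, .ofNat 126⟩ ⟨.ofNat 0, .ofNat 0,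
  .ofNat 0, .ofNat 1⟩, .l ⟨.ofNat 0, .ofNat 1120, .ofNat 1657, .ofNat 95⟩
  ⟨.ofNat 0, .ofNat 0, .ofNat 0, .ofNat 1⟩, .l ⟨.ofNat 0, .negSucc 249,
  .ofNat 0, .ofNat 3⟩ ⟨.ofNat 0, .ofNat 0, .ofNat 0, .ofNat 1⟩, .l ⟨.ofNat
  0, .ofNat 0, .negSucc 1999, .ofNat 41⟩ ⟨.ofNat 0, .ofNat 0, .ofNat 0,
  .ofNat 1⟩],
[.q ⟨.negSucc 0, .ofNat 0, .ofNat 0, .ofNat 1⟩ ⟨.ofNat 1567, .negSucc 1968,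
  .ofNat 3482, .negSucc 3079⟩, .q ⟨.negSucc 0, .ofNat 0, .ofNat 0, .ofNat 1⟩
  ⟨.ofNat 3472, .negSucc 3710, .negSucc 1491, .ofNat 1731⟩, .q ⟨.negSucc 0,
  .ofNat 0, .ofNat 0, .ofNat 1⟩ ⟨.negSucc 3698, .ofNat 3910, .negSucc 843,
  .ofNat 633⟩],
[.q ⟨.negSucc 0, .ofNat 0, .ofNat 0, .ofNat 1⟩ ⟨.negSucc 2520, .ofNat 3112,
  .negSucc 2512, .ofNat 1922⟩, .q ⟨.negSucc 0, .ofNat 0, .ofNat 0, .ofNat 1⟩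
  ⟨.negSucc 1844, .ofNat 1974, .ofNat 320, .negSucc 448⟩, .q ⟨.negSucc 0,
  .ofNat 0, .ofNat 0, .ofNat 1⟩ ⟨.ofNat 1113, .negSucc 2580, .ofNat 3055,
  .negSucc 1586⟩, .q ⟨.negSucc 0, .ofNat 0, .ofNat 0, .ofNat 1⟩ ⟨.ofNat 95,
  .negSucc 100, .negSucc 100, .ofNat 107⟩, .q ⟨.negSucc 0, .ofNat 0, .ofNat
  0, .ofNat 1⟩ ⟨.ofNat 983, .negSucc 802, .negSucc 3918, .ofNat 3739⟩],
[.l ⟨.ofNat 0, .ofNat 20, .ofNat 0, .negSucc 15⟩ ⟨.ofNat 0, .ofNat 20,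
  .ofNat 0, .ofNat 16⟩, .l ⟨.ofNat 0, .negSucc 19, .ofNat 0, .ofNat 19⟩
  ⟨.ofNat 0, .ofNat 20, .ofNat 0, .ofNat 19⟩, .l ⟨.ofNat 0, .ofNat 20,
  .ofNat 0, .negSucc 15⟩ ⟨.ofNat 0, .negSucc 2017, .ofNat 3454, .ofNat 49⟩,
  .l ⟨.ofNat 0, .ofNat 20, .ofNat 0, .negSucc 18⟩ ⟨.ofNat 0, .negSucc 2017,
  .ofNat 3454, .ofNat 49⟩, .l ⟨.ofNat 0, .ofNat 20, .ofNat 0, .negSucc 15⟩
  ⟨.ofNat 0, .ofNat 1009, .negSucc 1726, .negSucc 203⟩, .l ⟨.ofNat 0, .ofNat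
  20, .ofNat 0, .negSucc 18⟩ ⟨.ofNat 0, .ofNat 1009, .negSucc 1726, .negSucc
  203⟩, .l ⟨.ofNat 0, .ofNat 20, .ofNat 0, .negSucc 15⟩ ⟨.ofNat 0, .ofNat
  2472, .ofNat 3145, .ofNat 3740⟩, .l ⟨.ofNat 0, .ofNat 20, .ofNat 0,
  .negSucc 18⟩ ⟨.ofNat 0, .ofNat 2472, .ofNat 3145, .ofNat 3740⟩],
[.q ⟨.negSucc 0, .ofNat 0, .ofNat 0, .ofNat 1⟩ ⟨.ofNat 896, .negSucc 1633,
  .ofNat 3651, .negSucc 2912⟩, .q ⟨.negSucc 0, .ofNat 0, .ofNat 0, .ofNat 1⟩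
  ⟨.ofNat 1660, .negSucc 1530, .negSucc 3694, .ofNat 3566⟩, .q ⟨.negSucc 0,
  .ofNat 0, .ofNat 0, .ofNat 1⟩ ⟨.negSucc 2700, .ofNat 3206, .negSucc 2392,
  .ofNat 1888⟩, .q ⟨.negSucc 0, .ofNat 0, .ofNat 0, .ofNat 1⟩ ⟨.negSucc
  1853, .ofNat 1984, .ofNat 251, .negSucc 380⟩],
[.l ⟨.ofNat 0, .ofNat 40, .ofNat 0, .negSucc 32⟩ ⟨.ofNat 0, .ofNat 40,
  .ofNat 0, .ofNat 33⟩, .l ⟨.ofNat 0, .negSucc 39, .ofNat 0, .ofNat 36⟩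
  ⟨.ofNat 0, .ofNat 40, .ofNat 0, .ofNat 36⟩, .l ⟨.ofNat 0, .ofNat 40,
  .ofNat 0, .negSucc 32⟩ ⟨.ofNat 0, .ofNat 553, .ofNat 1922, .ofNat 2215⟩,
  .l ⟨.ofNat 0, .ofNat 40, .ofNat 0, .negSucc 35⟩ ⟨.ofNat 0, .ofNat 553,
  .ofNat 1922, .ofNat 2215⟩, .l ⟨.ofNat 0, .ofNat 40, .ofNat 0, .negSucc 32⟩
  ⟨.ofNat 0, .negSucc 2364, .negSucc 3225, .negSucc 5369⟩, .l ⟨.ofNat 0,
  .ofNat 40, .ofNat 0, .negSucc 35⟩ ⟨.ofNat 0, .negSucc 2364, .negSucc 3225,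
  .negSucc 5369⟩, .l ⟨.ofNat 0, .ofNat 40, .ofNat 0, .negSucc 32⟩ ⟨.ofNat 0,
  .ofNat 2227, .ofNat 3323, .ofNat 4934⟩, .l ⟨.ofNat 0, .ofNat 40, .ofNat 0,
  .negSucc 35⟩ ⟨.ofNat 0, .ofNat 2227, .ofNat 3323, .ofNat 4934⟩],
[.l ⟨.ofNat 0, .ofNat 40, .ofNat 0, .negSucc 34⟩ ⟨.ofNat 0, .ofNat 40,
  .ofNat 0, .ofNat 35⟩, .l ⟨.ofNat 0, .negSucc 39, .ofNat 0, .ofNat 36⟩
  ⟨.ofNat 0, .ofNat 40, .ofNat 0, .ofNat 36⟩, .l ⟨.ofNat 0, .ofNat 40,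
  .ofNat 0, .negSucc 34⟩ ⟨.ofNat 0, .ofNat 0, .ofNat 2000, .negSucc 3628⟩,
  .l ⟨.ofNat 0, .ofNat 40, .ofNat 0, .negSucc 35⟩ ⟨.ofNat 0, .ofNat 0,
  .ofNat 2000, .negSucc 3628⟩, .l ⟨.ofNat 0, .ofNat 40, .ofNat 0, .negSucc
  34⟩ ⟨.ofNat 0, .ofNat 639, .negSucc 3948, .negSucc 2733⟩, .l ⟨.ofNat 0,
  .ofNat 40, .ofNat 0, .negSucc 35⟩ ⟨.ofNat 0, .ofNat 639, .negSucc 3948,
  .negSucc 2733⟩, .l ⟨.ofNat 0, .ofNat 40, .ofNat 0, .negSucc 34⟩ ⟨.ofNat 0,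
  .ofNat 3195, .ofNat 2406, .ofNat 4082⟩, .l ⟨.ofNat 0, .ofNat 40, .ofNat 0,
  .negSucc 35⟩ ⟨.ofNat 0, .ofNat 3195, .ofNat 2406, .ofNat 4082⟩, .l ⟨.ofNat
  0, .ofNat 40, .ofNat 0, .negSucc 34⟩ ⟨.ofNat 0, .negSucc 3667, .negSucc
  1595, .negSucc 4596⟩, .l ⟨.ofNat 0, .ofNat 40, .ofNat 0, .negSucc 35⟩
  ⟨.ofNat 0, .negSucc 3667, .negSucc 1595, .negSucc 4596⟩],
[.q ⟨.negSucc 4, .negSucc 474, .ofNat 480, .ofNat 0⟩ ⟨.negSucc 954, .ofNat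
  475, .ofNat 480, .ofNat 0⟩, .q ⟨.negSucc 1, .ofNat 482, .negSucc 479,
  .ofNat 0⟩ ⟨.negSucc 961, .ofNat 482, .ofNat 480, .ofNat 0⟩, .q ⟨.ofNat
  955, .negSucc 474, .negSucc 479, .ofNat 0⟩ ⟨.ofNat 3178, .negSucc 2614,
  .ofNat 2533, .negSucc 3095⟩, .q ⟨.ofNat 962, .negSucc 481, .negSucc 479,
  .ofNat 0⟩ ⟨.ofNat 3178, .negSucc 2614, .ofNat 2533, .negSucc 3095⟩, .q
  ⟨.ofNat 955, .negSucc 474, .negSucc 479, .ofNat 0⟩ ⟨.negSucc 2860, .ofNat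
  2298, .negSucc 2532, .ofNat 3096⟩, .q ⟨.ofNat 962, .negSucc 481, .negSucc
  479, .ofNat 0⟩ ⟨.negSucc 2860, .ofNat 2298, .negSucc 2532, .ofNat 3096⟩,
  .q ⟨.ofNat 955, .negSucc 474, .negSucc 479, .ofNat 0⟩ ⟨.negSucc 2534,
  .negSucc 3116, .ofNat 2938, .ofNat 2714⟩, .q ⟨.ofNat 962, .negSucc 481,
  .negSucc 479, .ofNat 0⟩ ⟨.negSucc 2534, .negSucc 3116, .ofNat 2938, .ofNat
  2714⟩],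
[.q ⟨.negSucc 538, .negSucc 420, .ofNat 960, .ofNat 0⟩ ⟨.negSucc 1380,
  .ofNat 421, .ofNat 960, .ofNat 0⟩, .q ⟨.ofNat 533, .ofNat 427, .negSucc
  959, .ofNat 0⟩ ⟨.negSucc 1386, .ofNat 427, .ofNat 960, .ofNat 0⟩, .q
  ⟨.ofNat 1381, .negSucc 420, .negSucc 959, .ofNat 0⟩ ⟨.ofNat 12349,
  .negSucc 8348, .ofNat 0, .negSucc 3999⟩, .q ⟨.ofNat 1387, .negSucc 426,
  .negSucc 959, .ofNat 0⟩ ⟨.ofNat 12349, .negSucc 8348, .ofNat 0, .negSucc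
  3999⟩, .q ⟨.ofNat 1381, .negSucc 420, .negSucc 959, .ofNat 0⟩ ⟨.negSucc
  82, .negSucc 916, .ofNat 0, .ofNat 1000⟩, .q ⟨.ofNat 1387, .negSucc 426,
  .negSucc 959, .ofNat 0⟩ ⟨.negSucc 82, .negSucc 916, .ofNat 0, .ofNat
  1000⟩, .q ⟨.ofNat 1381, .negSucc 420, .negSucc 959, .ofNat 0⟩ ⟨.ofNat
  1690, .ofNat 3904, .negSucc 2374, .negSucc 3218⟩, .q ⟨.ofNat 1387,
  .negSucc 426, .negSucc 959, .ofNat 0⟩ ⟨.ofNat 1690, .ofNat 3904, .negSucc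
  2374, .negSucc 3218⟩],
[.q ⟨.negSucc 134, .negSucc 104, .ofNat 240, .ofNat 0⟩ ⟨.negSucc 344, .ofNat
  105, .ofNat 240, .ofNat 0⟩, .q ⟨.ofNat 133, .ofNat 107, .negSucc 239,
  .ofNat 0⟩ ⟨.negSucc 346, .ofNat 107, .ofNat 240, .ofNat 0⟩, .q ⟨.ofNat
  345, .negSucc 104, .negSucc 239, .ofNat 0⟩ ⟨.ofNat 393, .ofNat 1945,
  .negSucc 372, .negSucc 1964⟩, .q ⟨.ofNat 347, .negSucc 106, .negSucc 239,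
  .ofNat 0⟩ ⟨.ofNat 393, .ofNat 1945, .negSucc 372, .negSucc 1964⟩, .q
  ⟨.ofNat 345, .negSucc 104, .negSucc 239, .ofNat 0⟩ ⟨.negSucc 752, .negSucc
  3922, .ofNat 746, .ofNat 3930⟩, .q ⟨.ofNat 347, .negSucc 106, .negSucc
  239, .ofNat 0⟩ ⟨.negSucc 752, .negSucc 3922, .ofNat 746, .ofNat 3930⟩],
[.l ⟨.ofNat 0, .ofNat 20, .ofNat 0, .negSucc 16⟩ ⟨.ofNat 0, .ofNat 20,
  .ofNat 0, .ofNat 17⟩, .l ⟨.ofNat 0, .negSucc 19, .ofNat 0, .ofNat 18⟩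
  ⟨.ofNat 0, .ofNat 20, .ofNat 0, .ofNat 18⟩, .l ⟨.ofNat 0, .ofNat 20,
  .ofNat 0, .negSucc 16⟩ ⟨.ofNat 0, .ofNat 0, .ofNat 4000, .ofNat 3539⟩, .l
  ⟨.ofNat 0, .ofNat 20, .ofNat 0, .negSucc 17⟩ ⟨.ofNat 0, .ofNat 0, .ofNat
  4000, .ofNat 3539⟩, .l ⟨.ofNat 0, .ofNat 20, .ofNat 0, .negSucc 16⟩
  ⟨.ofNat 0, .ofNat 1329, .negSucc 3772, .negSucc 2233⟩, .l ⟨.ofNat 0,
  .ofNat 20, .ofNat 0, .negSucc 17⟩ ⟨.ofNat 0, .ofNat 1329, .negSucc 3772,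
  .negSucc 2233⟩, .l ⟨.ofNat 0, .ofNat 20, .ofNat 0, .negSucc 16⟩ ⟨.ofNat 0,
  .ofNat 1688, .ofNat 3627, .ofNat 4726⟩, .l ⟨.ofNat 0, .ofNat 20, .ofNat 0,
  .negSucc 17⟩ ⟨.ofNat 0, .ofNat 1688, .ofNat 3627, .ofNat 4726⟩],
[.l ⟨.ofNat 0, .ofNat 40, .ofNat 0, .negSucc 31⟩ ⟨.ofNat 0, .ofNat 40,
  .ofNat 0, .ofNat 32⟩, .l ⟨.ofNat 0, .negSucc 39, .ofNat 0, .ofNat 35⟩
  ⟨.ofNat 0, .ofNat 40, .ofNat 0, .ofNat 35⟩, .l ⟨.ofNat 0, .ofNat 40,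
  .ofNat 0, .negSucc 31⟩ ⟨.ofNat 0, .ofNat 709, .ofNat 3937, .ofNat 4184⟩,
  .l ⟨.ofNat 0, .ofNat 40, .ofNat 0, .negSucc 34⟩ ⟨.ofNat 0, .ofNat 709,
  .ofNat 3937, .ofNat 4184⟩, .l ⟨.ofNat 0, .ofNat 40, .ofNat 0, .negSucc 31⟩
  ⟨.ofNat 0, .negSucc 1323, .negSucc 1498, .negSucc 2634⟩, .l ⟨.ofNat 0,
  .ofNat 40, .ofNat 0, .negSucc 34⟩ ⟨.ofNat 0, .negSucc 1323, .negSucc 1498,
  .negSucc 2634⟩, .l ⟨.ofNat 0, .ofNat 40, .ofNat 0, .negSucc 31⟩ ⟨.ofNat 0,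
  .ofNat 1855, .ofNat 748, .ofNat 2235⟩, .l ⟨.ofNat 0, .ofNat 40, .ofNat 0,
  .negSucc 34⟩ ⟨.ofNat 0, .ofNat 1855, .ofNat 748, .ofNat 2235⟩],
[.q ⟨.negSucc 0, .ofNat 0, .ofNat 0, .ofNat 1⟩ ⟨.negSucc 3610, .ofNat 4000,
  .ofNat 46, .negSucc 434⟩, .q ⟨.negSucc 0, .ofNat 0, .ofNat 0, .ofNat 1⟩
  ⟨.ofNat 2654, .negSucc 2986, .ofNat 2661, .negSucc 2327⟩, .q ⟨.negSucc 0,
  .ofNat 0, .ofNat 0, .ofNat 1⟩ ⟨.ofNat 3361, .negSucc 3781, .negSucc 1302,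
  .ofNat 1724⟩],
[.l ⟨.ofNat 0, .ofNat 80, .ofNat 0, .negSucc 70⟩ ⟨.ofNat 0, .ofNat 80,
  .ofNat 0, .ofNat 71⟩, .l ⟨.ofNat 0, .negSucc 79, .ofNat 0, .ofNat 73⟩
  ⟨.ofNat 0, .ofNat 80, .ofNat 0, .ofNat 73⟩, .l ⟨.ofNat 0, .ofNat 80,
  .ofNat 0, .negSucc 70⟩ ⟨.ofNat 0, .ofNat 1528, .ofNat 3697, .ofNat 4646⟩,
  .l ⟨.ofNat 0, .ofNat 80, .ofNat 0, .negSucc 72⟩ ⟨.ofNat 0, .ofNat 1528,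
  .ofNat 3697, .ofNat 4646⟩, .l ⟨.ofNat 0, .ofNat 80, .ofNat 0, .negSucc 70⟩
  ⟨.ofNat 0, .negSucc 1527, .negSucc 3696, .negSucc 4864⟩, .l ⟨.ofNat 0,
  .ofNat 80, .ofNat 0, .negSucc 72⟩ ⟨.ofNat 0, .negSucc 1527, .negSucc 3696,
  .negSucc 4864⟩],
[.l ⟨.ofNat 0, .ofNat 2802, .negSucc 2854, .ofNat 263⟩ ⟨.ofNat 0, .ofNat 0,
  .ofNat 0, .ofNat 1⟩, .l ⟨.ofNat 0, .ofNat 0, .ofNat 1000, .ofNat 31⟩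
  ⟨.ofNat 0, .ofNat 0, .ofNat 0, .ofNat 1⟩, .l ⟨.ofNat 0, .negSucc 2827,
  .ofNat 2828, .ofNat 43⟩ ⟨.ofNat 0, .ofNat 0, .ofNat 0, .ofNat 1⟩, .l
  ⟨.ofNat 0, .negSucc 642, .negSucc 3947, .ofNat 39⟩ ⟨.ofNat 0, .ofNat 0,
  .ofNat 0, .ofNat 1⟩],
[.l ⟨.ofNat 0, .ofNat 480, .ofNat 0, .negSucc 396⟩ ⟨.ofNat 0, .ofNat 480,
  .ofNat 0, .ofNat 397⟩, .l ⟨.ofNat 0, .negSucc 479, .ofNat 0, .ofNat 408⟩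
  ⟨.ofNat 0, .ofNat 480, .ofNat 0, .ofNat 408⟩, .l ⟨.ofNat 0, .ofNat 480,
  .ofNat 0, .negSucc 396⟩ ⟨.ofNat 0, .ofNat 0, .ofNat 800, .negSucc 1250⟩,
  .l ⟨.ofNat 0, .ofNat 480, .ofNat 0, .negSucc 407⟩ ⟨.ofNat 0, .ofNat 0,
  .ofNat 800, .negSucc 1250⟩, .l ⟨.ofNat 0, .ofNat 480, .ofNat 0, .negSucc
  396⟩ ⟨.ofNat 0, .ofNat 0, .negSucc 999, .negSucc 830⟩, .l ⟨.ofNat 0,
  .ofNat 480, .ofNat 0, .negSucc 407⟩ ⟨.ofNat 0, .ofNat 0, .negSucc 999,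
  .negSucc 830⟩, .l ⟨.ofNat 0, .ofNat 480, .ofNat 0, .negSucc 396⟩ ⟨.ofNat
  0, .ofNat 2829, .ofNat 2828, .ofNat 3886⟩, .l ⟨.ofNat 0, .ofNat 480,
  .ofNat 0, .negSucc 407⟩ ⟨.ofNat 0, .ofNat 2829, .ofNat 2828, .ofNat
  3886⟩],
[.q ⟨.negSucc 0, .ofNat 1, .ofNat 0, .ofNat 0⟩ ⟨.negSucc 658, .ofNat 19,
  .ofNat 640, .ofNat 0⟩, .q ⟨.negSucc 0, .ofNat 1, .ofNat 0, .ofNat 0⟩
  ⟨.ofNat 119, .ofNat 9, .negSucc 127, .ofNat 0⟩, .l ⟨.ofNat 0, .ofNat 0,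
  .negSucc 191, .negSucc 130⟩ ⟨.ofNat 0, .ofNat 0, .ofNat 0, .ofNat 1⟩, .l
  ⟨.ofNat 0, .ofNat 0, .ofNat 1920, .ofNat 1487⟩ ⟨.ofNat 0, .ofNat 0, .ofNat
  0, .ofNat 1⟩],
[.l ⟨.ofNat 0, .ofNat 80, .ofNat 0, .negSucc 69⟩ ⟨.ofNat 0, .ofNat 80,
  .ofNat 0, .ofNat 70⟩, .l ⟨.ofNat 0, .negSucc 79, .ofNat 0, .ofNat 73⟩
  ⟨.ofNat 0, .ofNat 80, .ofNat 0, .ofNat 73⟩, .l ⟨.ofNat 0, .ofNat 80,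
  .ofNat 0, .negSucc 69⟩ ⟨.ofNat 0, .ofNat 0, .ofNat 400, .ofNat 361⟩, .l
  ⟨.ofNat 0, .ofNat 80, .ofNat 0, .negSucc 72⟩ ⟨.ofNat 0, .ofNat 0, .ofNat
  400, .ofNat 361⟩, .l ⟨.ofNat 0, .ofNat 80, .ofNat 0, .negSucc 69⟩ ⟨.ofNat
  0, .ofNat 691, .negSucc 3939, .negSucc 3606⟩, .l ⟨.ofNat 0, .ofNat 80,
  .ofNat 0, .negSucc 72⟩ ⟨.ofNat 0, .ofNat 691, .negSucc 3939, .negSucc
  3606⟩],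
[.q ⟨.negSucc 9, .negSucc 9, .ofNat 20, .ofNat 0⟩ ⟨.negSucc 29, .ofNat 10,
  .ofNat 20, .ofNat 0⟩, .q ⟨.ofNat 9, .ofNat 11, .negSucc 19, .ofNat 0⟩
  ⟨.negSucc 30, .ofNat 11, .ofNat 20, .ofNat 0⟩, .q ⟨.ofNat 30, .negSucc 9,
  .negSucc 19, .ofNat 0⟩ ⟨.ofNat 51, .ofNat 49, .ofNat 0, .negSucc 99⟩, .q
  ⟨.ofNat 31, .negSucc 10, .negSucc 19, .ofNat 0⟩ ⟨.ofNat 51, .ofNat 49,
  .ofNat 0, .negSucc 99⟩, .q ⟨.ofNat 30, .negSucc 9, .negSucc 19, .ofNat 0⟩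
  ⟨.negSucc 2606, .negSucc 2931, .ofNat 2196, .ofNat 3343⟩, .q ⟨.ofNat 31,
  .negSucc 10, .negSucc 19, .ofNat 0⟩ ⟨.negSucc 2606, .negSucc 2931, .ofNat
  2196, .ofNat 3343⟩, .q ⟨.ofNat 30, .negSucc 9, .negSucc 19, .ofNat 0⟩
  ⟨.ofNat 2813, .ofNat 2806, .negSucc 2480, .negSucc 3137⟩, .q ⟨.ofNat 31,
  .negSucc 10, .negSucc 19, .ofNat 0⟩ ⟨.ofNat 2813, .ofNat 2806, .negSucc
  2480, .negSucc 3137⟩],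
[.l ⟨.ofNat 0, .ofNat 80, .ofNat 0, .negSucc 57⟩ ⟨.ofNat 0, .ofNat 80,
  .ofNat 0, .ofNat 58⟩, .l ⟨.ofNat 0, .negSucc 79, .ofNat 0, .ofNat 61⟩
  ⟨.ofNat 0, .ofNat 80, .ofNat 0, .ofNat 61⟩, .l ⟨.ofNat 0, .ofNat 80,
  .ofNat 0, .negSucc 57⟩ ⟨.ofNat 0, .ofNat 0, .ofNat 400, .negSucc 902⟩, .l
  ⟨.ofNat 0, .ofNat 80, .ofNat 0, .negSucc 60⟩ ⟨.ofNat 0, .ofNat 0, .ofNat
  400, .negSucc 902⟩, .l ⟨.ofNat 0, .ofNat 80, .ofNat 0, .negSucc 57⟩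
  ⟨.ofNat 0, .ofNat 2420, .negSucc 3184, .negSucc 780⟩, .l ⟨.ofNat 0, .ofNat
  80, .ofNat 0, .negSucc 60⟩ ⟨.ofNat 0, .ofNat 2420, .negSucc 3184, .negSucc
  780⟩, .l ⟨.ofNat 0, .ofNat 80, .ofNat 0, .negSucc 57⟩ ⟨.ofNat 0, .ofNat
  2980, .ofNat 2668, .ofNat 4157⟩, .l ⟨.ofNat 0, .ofNat 80, .ofNat 0,
  .negSucc 60⟩ ⟨.ofNat 0, .ofNat 2980, .ofNat 2668, .ofNat 4157⟩],
[.q ⟨.ofNat 11, .negSucc 12, .negSucc 17, .ofNat 20⟩ ⟨.negSucc 4641, .ofNat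
  1441, .ofNat 1381, .ofNat 1820⟩, .q ⟨.ofNat 11, .negSucc 12, .negSucc 17,
  .ofNat 20⟩ ⟨.ofNat 198, .negSucc 940, .ofNat 383, .ofNat 360⟩, .q ⟨.ofNat
  11, .negSucc 12, .negSucc 17, .ofNat 20⟩ ⟨.ofNat 4701, .negSucc 1472,
  .negSucc 1527, .negSucc 1699⟩, .q ⟨.ofNat 11, .negSucc 12, .negSucc 17,
  .ofNat 20⟩ ⟨.negSucc 2689, .ofNat 4070, .negSucc 919, .negSucc 459⟩],
[.q ⟨.negSucc 10, .negSucc 8, .ofNat 20, .ofNat 0⟩ ⟨.negSucc 28, .ofNat 9,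
  .ofNat 20, .ofNat 0⟩, .q ⟨.ofNat 8, .ofNat 12, .negSucc 19, .ofNat 0⟩
  ⟨.negSucc 31, .ofNat 12, .ofNat 20, .ofNat 0⟩, .q ⟨.ofNat 29, .negSucc 8,
  .negSucc 19, .ofNat 0⟩ ⟨.ofNat 407, .ofNat 393, .ofNat 0, .negSucc 799⟩,
  .q ⟨.ofNat 32, .negSucc 11, .negSucc 19, .ofNat 0⟩ ⟨.ofNat 407, .ofNat
  393, .ofNat 0, .negSucc 799⟩, .q ⟨.ofNat 29, .negSucc 8, .negSucc 19,
  .ofNat 0⟩ ⟨.ofNat 6885, .negSucc 12095, .ofNat 1505, .ofNat 3706⟩, .q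
  ⟨.ofNat 32, .negSucc 11, .negSucc 19, .ofNat 0⟩ ⟨.ofNat 6885, .negSucc
  12095, .ofNat 1505, .ofNat 3706⟩, .q ⟨.ofNat 29, .negSucc 8, .negSucc 19,
  .ofNat 0⟩ ⟨.ofNat 2633, .ofNat 2679, .negSucc 3628, .negSucc 1682⟩, .q
  ⟨.ofNat 32, .negSucc 11, .negSucc 19, .ofNat 0⟩ ⟨.ofNat 2633, .ofNat 2679,
  .negSucc 3628, .negSucc 1682⟩, .q ⟨.ofNat 29, .negSucc 8, .negSucc 19,
  .ofNat 0⟩ ⟨.ofNat 325, .ofNat 214, .negSucc 1172, .ofNat 634⟩, .q ⟨.ofNat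
  32, .negSucc 11, .negSucc 19, .ofNat 0⟩ ⟨.ofNat 325, .ofNat 214, .negSucc
  1172, .ofNat 634⟩],
[.l ⟨.ofNat 0, .ofNat 40, .ofNat 0, .negSucc 30⟩ ⟨.ofNat 0, .ofNat 40,
  .ofNat 0, .ofNat 31⟩, .l ⟨.ofNat 0, .negSucc 39, .ofNat 0, .ofNat 33⟩
  ⟨.ofNat 0, .ofNat 40, .ofNat 0, .ofNat 33⟩, .l ⟨.ofNat 0, .ofNat 40,
  .ofNat 0, .negSucc 30⟩ ⟨.ofNat 0, .ofNat 0, .ofNat 2000, .negSucc 4078⟩,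
  .l ⟨.ofNat 0, .ofNat 40, .ofNat 0, .negSucc 32⟩ ⟨.ofNat 0, .ofNat 0,
  .ofNat 2000, .negSucc 4078⟩, .l ⟨.ofNat 0, .ofNat 40, .ofNat 0, .negSucc
  30⟩ ⟨.ofNat 0, .ofNat 406, .negSucc 3978, .negSucc 2966⟩, .l ⟨.ofNat 0,
  .ofNat 40, .ofNat 0, .negSucc 32⟩ ⟨.ofNat 0, .ofNat 406, .negSucc 3978,
  .negSucc 2966⟩, .l ⟨.ofNat 0, .ofNat 40, .ofNat 0, .negSucc 30⟩ ⟨.ofNat 0,
  .ofNat 2676, .ofNat 2973, .ofNat 4124⟩, .l ⟨.ofNat 0, .ofNat 40, .ofNat 0,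
  .negSucc 32⟩ ⟨.ofNat 0, .ofNat 2676, .ofNat 2973, .ofNat 4124⟩],
[.l ⟨.ofNat 0, .ofNat 80, .ofNat 0, .negSucc 67⟩ ⟨.ofNat 0, .ofNat 80,
  .ofNat 0, .ofNat 68⟩, .l ⟨.ofNat 0, .negSucc 79, .ofNat 0, .ofNat 71⟩
  ⟨.ofNat 0, .ofNat 80, .ofNat 0, .ofNat 71⟩, .l ⟨.ofNat 0, .ofNat 80,
  .ofNat 0, .negSucc 67⟩ ⟨.ofNat 0, .negSucc 1046, .ofNat 3860, .ofNat
  2552⟩, .l ⟨.ofNat 0, .ofNat 80, .ofNat 0, .negSucc 70⟩ ⟨.ofNat 0, .negSucc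
  1046, .ofNat 3860, .ofNat 2552⟩, .l ⟨.ofNat 0, .ofNat 80, .ofNat 0,
  .negSucc 67⟩ ⟨.ofNat 0, .ofNat 915, .negSucc 3893, .negSucc 3360⟩, .l
  ⟨.ofNat 0, .ofNat 80, .ofNat 0, .negSucc 70⟩ ⟨.ofNat 0, .ofNat 915,
  .negSucc 3893, .negSucc 3360⟩, .l ⟨.ofNat 0, .ofNat 80, .ofNat 0, .negSucc
  67⟩ ⟨.ofNat 0, .ofNat 1923, .ofNat 3507, .ofNat 4837⟩, .l ⟨.ofNat 0,
  .ofNat 80, .ofNat 0, .negSucc 70⟩ ⟨.ofNat 0, .ofNat 1923, .ofNat 3507,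
  .ofNat 4837⟩],
[.l ⟨.ofNat 0, .ofNat 480, .ofNat 0, .negSucc 412⟩ ⟨.ofNat 0, .ofNat 480,
  .ofNat 0, .ofNat 413⟩, .l ⟨.ofNat 0, .negSucc 479, .ofNat 0, .ofNat 422⟩
  ⟨.ofNat 0, .ofNat 480, .ofNat 0, .ofNat 422⟩, .l ⟨.ofNat 0, .ofNat 480,
  .ofNat 0, .negSucc 412⟩ ⟨.ofNat 0, .ofNat 442, .ofNat 897, .ofNat 1193⟩,
  .l ⟨.ofNat 0, .ofNat 480, .ofNat 0, .negSucc 421⟩ ⟨.ofNat 0, .ofNat 442,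
  .ofNat 897, .ofNat 1193⟩, .l ⟨.ofNat 0, .ofNat 480, .ofNat 0, .negSucc
  412⟩ ⟨.ofNat 0, .ofNat 695, .negSucc 3938, .negSucc 3604⟩, .l ⟨.ofNat 0,
  .ofNat 480, .ofNat 0, .negSucc 421⟩ ⟨.ofNat 0, .ofNat 695, .negSucc 3938,
  .negSucc 3604⟩, .l ⟨.ofNat 0, .ofNat 480, .ofNat 0, .negSucc 412⟩ ⟨.ofNat
  0, .negSucc 2060, .ofNat 3428, .ofNat 1272⟩, .l ⟨.ofNat 0, .ofNat 480,
  .ofNat 0, .negSucc 421⟩ ⟨.ofNat 0, .negSucc 2060, .ofNat 3428, .ofNat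
  1272⟩],
[.q ⟨.negSucc 74, .ofNat 36, .negSucc 40, .ofNat 80⟩ ⟨.negSucc 2163,
  .negSucc 6059, .negSucc 9055, .ofNat 17280⟩, .q ⟨.negSucc 74, .ofNat 36,
  .negSucc 40, .ofNat 80⟩ ⟨.ofNat 2648, .ofNat 1116, .negSucc 6963, .ofNat
  3200⟩, .q ⟨.negSucc 74, .ofNat 36, .negSucc 40, .ofNat 80⟩ ⟨.ofNat 440,
  .ofNat 1588, .ofNat 2132, .negSucc 4159⟩, .q ⟨.negSucc 74, .ofNat 36,
  .negSucc 40, .ofNat 80⟩ ⟨.negSucc 979, .negSucc 475, .ofNat 2096, .negSucc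
  639⟩],
[.q ⟨.negSucc 35, .negSucc 43, .ofNat 80, .ofNat 0⟩ ⟨.negSucc 123, .ofNat
  44, .ofNat 80, .ofNat 0⟩, .q ⟨.ofNat 33, .ofNat 47, .negSucc 79, .ofNat 0⟩
  ⟨.negSucc 126, .ofNat 47, .ofNat 80, .ofNat 0⟩, .q ⟨.ofNat 124, .negSucc
  43, .negSucc 79, .ofNat 0⟩ ⟨.ofNat 2756, .ofNat 2181, .negSucc 1086,
  .negSucc 3849⟩, .q ⟨.ofNat 127, .negSucc 46, .negSucc 79, .ofNat 0⟩
  ⟨.ofNat 2756, .ofNat 2181, .negSucc 1086, .negSucc 3849⟩, .q ⟨.ofNat 124,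
  .negSucc 43, .negSucc 79, .ofNat 0⟩ ⟨.negSucc 2418, .negSucc 2948, .ofNat
  1792, .ofNat 3576⟩, .q ⟨.ofNat 127, .negSucc 46, .negSucc 79, .ofNat 0⟩
  ⟨.negSucc 2418, .negSucc 2948, .ofNat 1792, .ofNat 3576⟩, .q ⟨.ofNat 124,
  .negSucc 43, .negSucc 79, .ofNat 0⟩ ⟨.ofNat 2439, .ofNat 2774, .negSucc
  3704, .negSucc 1507⟩, .q ⟨.ofNat 127, .negSucc 46, .negSucc 79, .ofNat 0⟩
  ⟨.ofNat 2439, .ofNat 2774, .negSucc 3704, .negSucc 1507⟩],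
[.q ⟨.negSucc 74, .ofNat 36, .negSucc 40, .ofNat 80⟩ ⟨.ofNat 7548, .ofNat
  2632, .negSucc 21699, .ofNat 11520⟩, .q ⟨.negSucc 74, .ofNat 36, .negSucc
  40, .ofNat 80⟩ ⟨.negSucc 619, .ofNat 4204, .ofNat 12096, .negSucc 15679⟩,
  .q ⟨.negSucc 74, .ofNat 36, .negSucc 40, .ofNat 80⟩ ⟨.negSucc 8367,
  .negSucc 7019, .ofNat 10908, .ofNat 4480⟩, .q ⟨.negSucc 74, .ofNat 36,
  .negSucc 40, .ofNat 80⟩ ⟨.negSucc 103, .negSucc 4267, .negSucc 11627,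
  .ofNat 16000⟩],
[.l ⟨.ofNat 0, .ofNat 240, .ofNat 0, .negSucc 206⟩ ⟨.ofNat 0, .ofNat 240,
  .ofNat 0, .ofNat 207⟩, .l ⟨.ofNat 0, .negSucc 239, .ofNat 0, .ofNat 211⟩
  ⟨.ofNat 0, .ofNat 240, .ofNat 0, .ofNat 211⟩, .l ⟨.ofNat 0, .ofNat 240,
  .ofNat 0, .negSucc 206⟩ ⟨.ofNat 0, .negSucc 78, .ofNat 796, .ofNat 569⟩,
  .l ⟨.ofNat 0, .ofNat 240, .ofNat 0, .negSucc 210⟩ ⟨.ofNat 0, .negSucc 78,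
  .ofNat 796, .ofNat 569⟩, .l ⟨.ofNat 0, .ofNat 240, .ofNat 0, .negSucc 206⟩
  ⟨.ofNat 0, .ofNat 395, .negSucc 3979, .negSucc 2983⟩, .l ⟨.ofNat 0, .ofNat
  240, .ofNat 0, .negSucc 210⟩ ⟨.ofNat 0, .ofNat 395, .negSucc 3979,
  .negSucc 2983⟩],
[.q ⟨.negSucc 25, .negSucc 20, .ofNat 15, .ofNat 32⟩ ⟨.negSucc 879, .negSucc
  3483, .ofNat 5900, .negSucc 1535⟩, .q ⟨.negSucc 25, .negSucc 20, .ofNat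
  15, .ofNat 32⟩ ⟨.ofNat 9300, .negSucc 7051, .negSucc 11591, .ofNat 9344⟩,
  .q ⟨.negSucc 25, .negSucc 20, .ofNat 15, .ofNat 32⟩ ⟨.ofNat 1720, .ofNat
  6844, .negSucc 11763, .ofNat 3200⟩, .q ⟨.negSucc 25, .negSucc 20, .ofNat
  15, .ofNat 32⟩ ⟨.negSucc 12163, .ofNat 13432, .ofNat 9612, .negSucc
  10879⟩],
[.q ⟨.negSucc 54, .negSucc 64, .ofNat 120, .ofNat 0⟩ ⟨.negSucc 184, .ofNat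
  65, .ofNat 120, .ofNat 0⟩, .q ⟨.ofNat 53, .ofNat 67, .negSucc 119, .ofNat
  0⟩ ⟨.negSucc 186, .ofNat 67, .ofNat 120, .ofNat 0⟩, .q ⟨.ofNat 185,
  .negSucc 64, .negSucc 119, .ofNat 0⟩ ⟨.ofNat 2399, .ofNat 1601, .ofNat 0,
  .negSucc 3999⟩, .q ⟨.ofNat 187, .negSucc 66, .negSucc 119, .ofNat 0⟩
  ⟨.ofNat 2399, .ofNat 1601, .ofNat 0, .negSucc 3999⟩, .q ⟨.ofNat 185,
  .negSucc 64, .negSucc 119, .ofNat 0⟩ ⟨.negSucc 272, .negSucc 94, .negSucc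
  1217, .ofNat 1586⟩, .q ⟨.ofNat 187, .negSucc 66, .negSucc 119, .ofNat 0⟩
  ⟨.negSucc 272, .negSucc 94, .negSucc 1217, .ofNat 1586⟩],
[.q ⟨.negSucc 37, .negSucc 41, .ofNat 80, .ofNat 0⟩ ⟨.negSucc 121, .ofNat
  42, .ofNat 80, .ofNat 0⟩, .q ⟨.ofNat 35, .ofNat 45, .negSucc 79, .ofNat 0⟩
  ⟨.negSucc 124, .ofNat 45, .ofNat 80, .ofNat 0⟩, .q ⟨.ofNat 122, .negSucc
  41, .negSucc 79, .ofNat 0⟩ ⟨.ofNat 2399, .ofNat 1601, .ofNat 0, .negSucc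
  3999⟩, .q ⟨.ofNat 125, .negSucc 44, .negSucc 79, .ofNat 0⟩ ⟨.ofNat 2399,
  .ofNat 1601, .ofNat 0, .negSucc 3999⟩, .q ⟨.ofNat 122, .negSucc 41,
  .negSucc 79, .ofNat 0⟩ ⟨.negSucc 754, .negSucc 379, .negSucc 2202, .ofNat
  3338⟩, .q ⟨.ofNat 125, .negSucc 44, .negSucc 79, .ofNat 0⟩ ⟨.negSucc 754,
  .negSucc 379, .negSucc 2202, .ofNat 3338⟩, .q ⟨.ofNat 122, .negSucc 41,
  .negSucc 79, .ofNat 0⟩ ⟨.negSucc 892, .negSucc 738, .negSucc 338, .ofNat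
  1971⟩, .q ⟨.ofNat 125, .negSucc 44, .negSucc 79, .ofNat 0⟩ ⟨.negSucc 892,
  .negSucc 738, .negSucc 338, .ofNat 1971⟩],
[.q ⟨.negSucc 25, .negSucc 20, .ofNat 15, .ofNat 32⟩ ⟨.negSucc 4847,
  .negSucc 2035, .ofNat 12388, .negSucc 5503⟩, .q ⟨.negSucc 25, .negSucc 20,
  .ofNat 15, .ofNat 32⟩ ⟨.ofNat 6304, .negSucc 17963, .ofNat 7308, .ofNat
  4352⟩, .q ⟨.negSucc 25, .negSucc 20, .ofNat 15, .ofNat 32⟩ ⟨.ofNat 4308,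
  .ofNat 2584, .negSucc 12267, .ofNat 5376⟩, .q ⟨.negSucc 25, .negSucc 20,
  .ofNat 15, .ofNat 32⟩ ⟨.negSucc 11283, .ofNat 21632, .negSucc 1387,
  .negSucc 8959⟩],
[.q ⟨.negSucc 74, .negSucc 84, .ofNat 160, .ofNat 0⟩ ⟨.negSucc 244, .ofNat
  85, .ofNat 160, .ofNat 0⟩, .q ⟨.ofNat 72, .ofNat 88, .negSucc 159, .ofNat
  0⟩ ⟨.negSucc 247, .ofNat 88, .ofNat 160, .ofNat 0⟩, .q ⟨.ofNat 245,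
  .negSucc 84, .negSucc 159, .ofNat 0⟩ ⟨.ofNat 2399, .ofNat 1601, .ofNat 0,
  .negSucc 3999⟩, .q ⟨.ofNat 248, .negSucc 87, .negSucc 159, .ofNat 0⟩
  ⟨.ofNat 2399, .ofNat 1601, .ofNat 0, .negSucc 3999⟩, .q ⟨.ofNat 245,
  .negSucc 84, .negSucc 159, .ofNat 0⟩ ⟨.negSucc 1062, .negSucc 698,
  .negSucc 1806, .ofNat 3569⟩, .q ⟨.ofNat 248, .negSucc 87, .negSucc 159,
  .ofNat 0⟩ ⟨.negSucc 1062, .negSucc 698, .negSucc 1806, .ofNat 3569⟩],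
[.q ⟨.negSucc 18, .negSucc 15, .ofNat 11, .ofNat 24⟩ ⟨.ofNat 508, .negSucc
  10547, .ofNat 11000, .negSucc 959⟩, .q ⟨.negSucc 18, .negSucc 15, .ofNat
  11, .ofNat 24⟩ ⟨.ofNat 7864, .negSucc 4243, .negSucc 12067, .ofNat 8448⟩,
  .q ⟨.negSucc 18, .negSucc 15, .ofNat 11, .ofNat 24⟩ ⟨.negSucc 10555,
  .ofNat 21748, .negSucc 2455, .negSucc 8735⟩],
[.q ⟨.ofNat 11, .negSucc 12, .negSucc 17, .ofNat 20⟩ ⟨.negSucc 966, .ofNat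
  961, .negSucc 53, .ofNat 60⟩, .q ⟨.ofNat 11, .negSucc 12, .negSucc 17,
  .ofNat 20⟩ ⟨.negSucc 1487, .negSucc 620, .ofNat 989, .ofNat 1120⟩, .q
  ⟨.ofNat 11, .negSucc 12, .negSucc 17, .ofNat 20⟩ ⟨.ofNat 1967, .negSucc
  1960, .ofNat 54, .negSucc 59⟩, .q ⟨.ofNat 11, .negSucc 12, .negSucc 17,
  .ofNat 20⟩ ⟨.ofNat 4370, .negSucc 664, .negSucc 1784, .negSucc 1919⟩],
[.q ⟨.negSucc 0, .ofNat 1, .ofNat 0, .ofNat 0⟩ ⟨.negSucc 326, .ofNat 7,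
  .ofNat 320, .ofNat 0⟩, .q ⟨.negSucc 0, .ofNat 1, .ofNat 0, .ofNat 0⟩
  ⟨.ofNat 627, .ofNat 13, .negSucc 639, .ofNat 0⟩, .l ⟨.ofNat 0, .ofNat 0,
  .negSucc 1919, .negSucc 1882⟩ ⟨.ofNat 0, .ofNat 0, .ofNat 0, .ofNat 1⟩, .l
  ⟨.ofNat 0, .ofNat 0, .ofNat 60, .ofNat 61⟩ ⟨.ofNat 0, .ofNat 0, .ofNat 0,
  .ofNat 1⟩],
[.q ⟨.negSucc 18, .negSucc 15, .ofNat 11, .ofNat 24⟩ ⟨.negSucc 2327, .ofNat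
  13004, .negSucc 10099, .negSucc 575⟩, .q ⟨.negSucc 18, .negSucc 15, .ofNat
  11, .ofNat 24⟩ ⟨.negSucc 12267, .ofNat 14896, .ofNat 8988, .negSucc
  11615⟩, .q ⟨.negSucc 18, .negSucc 15, .ofNat 11, .ofNat 24⟩ ⟨.negSucc
  1315, .negSucc 7775, .ofNat 11684, .negSucc 2591⟩, .q ⟨.negSucc 18,
  .negSucc 15, .ofNat 11, .ofNat 24⟩ ⟨.ofNat 11036, .negSucc 11579, .negSucc
  10399, .ofNat 10944⟩],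
[.q ⟨.ofNat 11, .negSucc 12, .negSucc 17, .ofNat 20⟩ ⟨.ofNat 1194, .negSucc
  446, .negSucc 346, .negSucc 399⟩, .q ⟨.ofNat 11, .negSucc 12, .negSucc 17,
  .ofNat 20⟩ ⟨.negSucc 1767, .ofNat 3960, .negSucc 1331, .negSucc 859⟩, .q
  ⟨.ofNat 11, .negSucc 12, .negSucc 17, .ofNat 20⟩ ⟨.negSucc 4056, .ofNat
  3688, .negSucc 90, .ofNat 460⟩, .q ⟨.ofNat 11, .negSucc 12, .negSucc 17,
  .ofNat 20⟩ ⟨.negSucc 704, .negSucc 348, .ofNat 514, .ofNat 540⟩],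
[.q ⟨.ofNat 17, .negSucc 18, .negSucc 27, .ofNat 30⟩ ⟨.negSucc 782, .ofNat
  781, .negSucc 27, .ofNat 30⟩, .q ⟨.ofNat 17, .negSucc 18, .negSucc 27,
  .ofNat 30⟩ ⟨.ofNat 547, .negSucc 3642, .ofNat 1536, .ofNat 1560⟩, .q
  ⟨.ofNat 17, .negSucc 18, .negSucc 27, .ofNat 30⟩ ⟨.ofNat 3032, .ofNat
  1101, .negSucc 2062, .negSucc 2069⟩],
[.q ⟨.ofNat 11, .negSucc 12, .negSucc 17, .ofNat 20⟩ ⟨.negSucc 702, .negSucc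
  350, .ofNat 514, .ofNat 540⟩, .q ⟨.ofNat 11, .negSucc 12, .negSucc 17,
  .ofNat 20⟩ ⟨.ofNat 4766, .negSucc 1738, .negSucc 1406, .negSucc 1619⟩, .q
  ⟨.ofNat 11, .negSucc 12, .negSucc 17, .ofNat 20⟩ ⟨.ofNat 2005, .ofNat
  2104, .negSucc 2148, .negSucc 1959⟩, .q ⟨.ofNat 11, .negSucc 12, .negSucc
  17, .ofNat 20⟩ ⟨.negSucc 4061, .ofNat 3688, .negSucc 85, .ofNat 460⟩],
[.q ⟨.negSucc 0, .ofNat 1, .ofNat 0, .ofNat 0⟩ ⟨.negSucc 1966, .ofNat 47,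
  .ofNat 1920, .ofNat 0⟩, .q ⟨.negSucc 0, .ofNat 1, .ofNat 0, .ofNat 0⟩
  ⟨.ofNat 627, .ofNat 13, .negSucc 639, .ofNat 0⟩, .l ⟨.ofNat 0, .ofNat 0,
  .negSucc 959, .negSucc 948⟩ ⟨.ofNat 0, .ofNat 0, .ofNat 0, .ofNat 1⟩, .l
  ⟨.ofNat 0, .ofNat 0, .ofNat 1920, .ofNat 1939⟩ ⟨.ofNat 0, .ofNat 0, .ofNat
  0, .ofNat 1⟩],
[.q ⟨.negSucc 75, .negSucc 83, .ofNat 160, .ofNat 0⟩ ⟨.negSucc 243, .ofNat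
  84, .ofNat 160, .ofNat 0⟩, .q ⟨.ofNat 73, .ofNat 87, .negSucc 159, .ofNat
  0⟩ ⟨.negSucc 246, .ofNat 87, .ofNat 160, .ofNat 0⟩, .q ⟨.ofNat 244,
  .negSucc 83, .negSucc 159, .ofNat 0⟩ ⟨.ofNat 2399, .ofNat 1601, .ofNat 0,
  .negSucc 3999⟩, .q ⟨.ofNat 247, .negSucc 86, .negSucc 159, .ofNat 0⟩
  ⟨.ofNat 2399, .ofNat 1601, .ofNat 0, .negSucc 3999⟩, .q ⟨.ofNat 244,
  .negSucc 83, .negSucc 159, .ofNat 0⟩ ⟨.negSucc 1163, .negSucc 804,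
  .negSucc 1666, .ofNat 3636⟩, .q ⟨.ofNat 247, .negSucc 86, .negSucc 159,
  .ofNat 0⟩ ⟨.negSucc 1163, .negSucc 804, .negSucc 1666, .ofNat 3636⟩],
[.q ⟨.ofNat 11, .negSucc 12, .negSucc 17, .ofNat 20⟩ ⟨.ofNat 4583, .negSucc
  3273, .negSucc 488, .negSucc 819⟩, .q ⟨.ofNat 11, .negSucc 12, .negSucc
  17, .ofNat 20⟩ ⟨.ofNat 2833, .ofNat 1373, .negSucc 2145, .negSucc 2059⟩,
  .q ⟨.ofNat 11, .negSucc 12, .negSucc 17, .ofNat 20⟩ ⟨.negSucc 3853, .ofNat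
  3805, .negSucc 250, .ofNat 300⟩, .q ⟨.ofNat 11, .negSucc 12, .negSucc 17,
  .ofNat 20⟩ ⟨.negSucc 2218, .ofNat 429, .ofNat 810, .ofNat 980⟩],
[.q ⟨.negSucc 496, .negSucc 462, .ofNat 960, .ofNat 0⟩ ⟨.negSucc 1422,
  .ofNat 463, .ofNat 960, .ofNat 0⟩, .q ⟨.ofNat 485, .ofNat 475, .negSucc
  959, .ofNat 0⟩ ⟨.negSucc 1434, .ofNat 475, .ofNat 960, .ofNat 0⟩, .q
  ⟨.ofNat 1423, .negSucc 462, .negSucc 959, .ofNat 0⟩ ⟨.ofNat 9101, .negSucc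
  6953, .ofNat 1543, .negSucc 3689⟩, .q ⟨.ofNat 1435, .negSucc 474, .negSucc
  959, .ofNat 0⟩ ⟨.ofNat 9101, .negSucc 6953, .ofNat 1543, .negSucc 3689⟩,
  .q ⟨.ofNat 1423, .negSucc 462, .negSucc 959, .ofNat 0⟩ ⟨.negSucc 823,
  .negSucc 1322, .negSucc 1542, .ofNat 3690⟩, .q ⟨.ofNat 1435, .negSucc 474,
  .negSucc 959, .ofNat 0⟩ ⟨.negSucc 823, .negSucc 1322, .negSucc 1542,
  .ofNat 3690⟩, .q ⟨.ofNat 1423, .negSucc 462, .negSucc 959, .ofNat 0⟩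
  ⟨.ofNat 2766, .ofNat 2835, .negSucc 3196, .negSucc 2403⟩, .q ⟨.ofNat 1435,
  .negSucc 474, .negSucc 959, .ofNat 0⟩ ⟨.ofNat 2766, .ofNat 2835, .negSucc
  3196, .negSucc 2403⟩],
[.q ⟨.negSucc 9, .negSucc 9, .ofNat 20, .ofNat 0⟩ ⟨.negSucc 29, .ofNat 10,
  .ofNat 20, .ofNat 0⟩, .q ⟨.ofNat 9, .ofNat 11, .negSucc 19, .ofNat 0⟩
  ⟨.negSucc 30, .ofNat 11, .ofNat 20, .ofNat 0⟩, .q ⟨.ofNat 30, .negSucc 9,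
  .negSucc 19, .ofNat 0⟩ ⟨.ofNat 10814, .negSucc 7874, .ofNat 947, .negSucc
  3885⟩, .q ⟨.ofNat 31, .negSucc 10, .negSucc 19, .ofNat 0⟩ ⟨.ofNat 10814,
  .negSucc 7874, .ofNat 947, .negSucc 3885⟩, .q ⟨.ofNat 30, .negSucc 9,
  .negSucc 19, .ofNat 0⟩ ⟨.negSucc 1630, .negSucc 1307, .negSucc 946, .ofNat
  3886⟩, .q ⟨.ofNat 31, .negSucc 10, .negSucc 19, .ofNat 0⟩ ⟨.negSucc 1630,
  .negSucc 1307, .negSucc 946, .ofNat 3886⟩, .q ⟨.ofNat 30, .negSucc 9,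
  .negSucc 19, .ofNat 0⟩ ⟨.ofNat 2538, .ofNat 1777, .negSucc 328, .negSucc
  3985⟩, .q ⟨.ofNat 31, .negSucc 10, .negSucc 19, .ofNat 0⟩ ⟨.ofNat 2538,
  .ofNat 1777, .negSucc 328, .negSucc 3985⟩, .q ⟨.ofNat 30, .negSucc 9,
  .negSucc 19, .ofNat 0⟩ ⟨.negSucc 722, .negSucc 346, .negSucc 2241, .ofNat
  3312⟩, .q ⟨.ofNat 31, .negSucc 10, .negSucc 19, .ofNat 0⟩ ⟨.negSucc 722,
  .negSucc 346, .negSucc 2241, .ofNat 3312⟩],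
[.q ⟨.negSucc 25, .negSucc 20, .ofNat 15, .ofNat 32⟩ ⟨.negSucc 1275,
  .negSucc 2947, .ofNat 6016, .negSucc 1791⟩, .q ⟨.negSucc 25, .negSucc 20,
  .ofNat 15, .ofNat 32⟩ ⟨.ofNat 7360, .negSucc 3147, .negSucc 12147, .ofNat
  7936⟩, .q ⟨.negSucc 25, .negSucc 20, .ofNat 15, .ofNat 32⟩ ⟨.negSucc 6659,
  .ofNat 18164, .negSucc 7023, .negSucc 4479⟩, .q ⟨.negSucc 25, .negSucc 20,
  .ofNat 15, .ofNat 32⟩ ⟨.negSucc 5351, .ofNat 5052, .ofNat 5420, .negSucc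
  5119⟩],
[.q ⟨.ofNat 17, .negSucc 18, .negSucc 27, .ofNat 30⟩ ⟨.ofNat 2998, .ofNat
  1136, .negSucc 2063, .negSucc 2069⟩, .q ⟨.ofNat 17, .negSucc 18, .negSucc
  27, .ofNat 30⟩ ⟨.negSucc 1948, .ofNat 1943, .negSucc 83, .ofNat 90⟩, .q
  ⟨.ofNat 17, .negSucc 18, .negSucc 27, .ofNat 30⟩ ⟨.negSucc 2133, .negSucc
  1956, .ofNat 1991, .ofNat 2100⟩, .q ⟨.ofNat 17, .negSucc 18, .negSucc 27,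
  .ofNat 30⟩ ⟨.ofNat 471, .negSucc 341, .negSucc 68, .negSucc 59⟩],
[.q ⟨.negSucc 247, .negSucc 231, .ofNat 480, .ofNat 0⟩ ⟨.negSucc 711, .ofNat
  232, .ofNat 480, .ofNat 0⟩, .q ⟨.ofNat 239, .ofNat 241, .negSucc 479,
  .ofNat 0⟩ ⟨.negSucc 720, .ofNat 241, .ofNat 480, .ofNat 0⟩, .q ⟨.ofNat
  712, .negSucc 231, .negSucc 479, .ofNat 0⟩ ⟨.ofNat 2417, .ofNat 2646,
  .negSucc 1269, .negSucc 3792⟩, .q ⟨.ofNat 721, .negSucc 240, .negSucc 479,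
  .ofNat 0⟩ ⟨.ofNat 2417, .ofNat 2646, .negSucc 1269, .negSucc 3792⟩, .q
  ⟨.ofNat 712, .negSucc 231, .negSucc 479, .ofNat 0⟩ ⟨.ofNat 29, .negSucc
  81, .negSucc 679, .ofNat 733⟩, .q ⟨.ofNat 721, .negSucc 240, .negSucc 479,
  .ofNat 0⟩ ⟨.ofNat 29, .negSucc 81, .negSucc 679, .ofNat 733⟩],
[.l ⟨.ofNat 0, .ofNat 3979, .negSucc 408, .ofNat 1628⟩ ⟨.ofNat 0, .ofNat 0,
  .ofNat 0, .ofNat 1⟩, .l ⟨.ofNat 0, .negSucc 480, .ofNat 3971, .ofNat 2608⟩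
  ⟨.ofNat 0, .ofNat 0, .ofNat 0, .ofNat 1⟩, .l ⟨.ofNat 0, .negSucc 399,
  .ofNat 3, .ofNat 82⟩ ⟨.ofNat 0, .ofNat 0, .ofNat 0, .ofNat 1⟩, .l ⟨.ofNat
  0, .negSucc 417, .negSucc 3977, .negSucc 2390⟩ ⟨.ofNat 0, .ofNat 0, .ofNat
  0, .ofNat 1⟩],
[.l ⟨.ofNat 0, .ofNat 3641, .negSucc 1656, .ofNat 401⟩ ⟨.ofNat 0, .ofNat 0,
  .ofNat 0, .ofNat 1⟩, .l ⟨.ofNat 0, .ofNat 1334, .ofNat 3771, .ofNat 3373⟩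
  ⟨.ofNat 0, .ofNat 0, .ofNat 0, .ofNat 1⟩, .l ⟨.ofNat 0, .negSucc 1327,
  .ofNat 119, .negSucc 118⟩ ⟨.ofNat 0, .ofNat 0, .ofNat 0, .ofNat 1⟩, .l
  ⟨.ofNat 0, .negSucc 669, .negSucc 3942, .ofNat 37⟩ ⟨.ofNat 0, .ofNat 0,
  .ofNat 0, .ofNat 1⟩],
[.q ⟨.negSucc 0, .ofNat 0, .ofNat 0, .ofNat 1⟩ ⟨.ofNat 2831, .negSucc 3096,
  .negSucc 2531, .ofNat 2798⟩, .q ⟨.negSucc 0, .ofNat 0, .ofNat 0, .ofNat 1⟩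
  ⟨.ofNat 389, .negSucc 280, .negSucc 1979, .ofNat 1872⟩, .q ⟨.negSucc 0,
  .ofNat 0, .ofNat 0, .ofNat 1⟩ ⟨.negSucc 3341, .ofNat 3713, .ofNat 1488,
  .negSucc 1858⟩, .q ⟨.negSucc 0, .ofNat 0, .ofNat 0, .ofNat 1⟩ ⟨.ofNat
  1341, .negSucc 2827, .ofNat 2828, .negSucc 1340⟩],
[.q ⟨.negSucc 230, .negSucc 248, .ofNat 480, .ofNat 0⟩ ⟨.negSucc 728, .ofNat
  249, .ofNat 480, .ofNat 0⟩, .q ⟨.ofNat 221, .ofNat 259, .negSucc 479,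
  .ofNat 0⟩ ⟨.negSucc 738, .ofNat 259, .ofNat 480, .ofNat 0⟩, .q ⟨.ofNat
  729, .negSucc 248, .negSucc 479, .ofNat 0⟩ ⟨.ofNat 28, .ofNat 879, .ofNat
  373, .negSucc 1279⟩, .q ⟨.ofNat 739, .negSucc 258, .negSucc 479, .ofNat 0⟩
  ⟨.ofNat 28, .ofNat 879, .ofNat 373, .negSucc 1279⟩, .q ⟨.ofNat 729,
  .negSucc 248, .negSucc 479, .ofNat 0⟩ ⟨.ofNat 632, .negSucc 3352, .negSucc
  1118, .ofNat 3840⟩, .q ⟨.ofNat 739, .negSucc 258, .negSucc 479, .ofNat 0⟩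
  ⟨.ofNat 632, .negSucc 3352, .negSucc 1118, .ofNat 3840⟩],
[.q ⟨.negSucc 0, .ofNat 0, .ofNat 0, .ofNat 1⟩ ⟨.ofNat 610, .negSucc 697,
  .ofNat 391, .negSucc 302⟩, .q ⟨.negSucc 0, .ofNat 0, .ofNat 0, .ofNat 1⟩
  ⟨.ofNat 1741, .negSucc 1861, .negSucc 729, .ofNat 851⟩, .q ⟨.negSucc 0,
  .ofNat 0, .ofNat 0, .ofNat 1⟩ ⟨.negSucc 2940, .ofNat 2938, .negSucc 2713,
  .ofNat 2717⟩, .q ⟨.negSucc 0, .ofNat 0, .ofNat 0, .ofNat 1⟩ ⟨.negSucc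
  2654, .ofNat 2598, .ofNat 3041, .negSucc 2983⟩],
[.l ⟨.ofNat 0, .ofNat 1008, .ofNat 3871, .ofNat 2755⟩ ⟨.ofNat 0, .ofNat 0,
  .ofNat 0, .ofNat 1⟩, .l ⟨.ofNat 0, .negSucc 322, .ofNat 167, .negSucc 16⟩
  ⟨.ofNat 0, .ofNat 0, .ofNat 0, .ofNat 1⟩, .l ⟨.ofNat 0, .negSucc 2805,
  .negSucc 2850, .negSucc 185⟩ ⟨.ofNat 0, .ofNat 0, .ofNat 0, .ofNat 1⟩, .l
  ⟨.ofNat 0, .ofNat 468, .negSucc 3972, .ofNat 146⟩ ⟨.ofNat 0, .ofNat 0,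
  .ofNat 0, .ofNat 1⟩, .l ⟨.ofNat 0, .ofNat 707, .negSucc 706, .ofNat 88⟩
  ⟨.ofNat 0, .ofNat 0, .ofNat 0, .ofNat 1⟩],
[.q ⟨.negSucc 2, .negSucc 16, .ofNat 20, .ofNat 0⟩ ⟨.negSucc 36, .ofNat 17,
  .ofNat 20, .ofNat 0⟩, .q ⟨.ofNat 0, .ofNat 20, .negSucc 19, .ofNat 0⟩
  ⟨.negSucc 39, .ofNat 20, .ofNat 20, .ofNat 0⟩, .q ⟨.ofNat 37, .negSucc 16,
  .negSucc 19, .ofNat 0⟩ ⟨.ofNat 4033, .negSucc 32, .ofNat 0, .negSucc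
  3999⟩, .q ⟨.ofNat 40, .negSucc 19, .negSucc 19, .ofNat 0⟩ ⟨.ofNat 4033,
  .negSucc 32, .ofNat 0, .negSucc 3999⟩, .q ⟨.ofNat 37, .negSucc 16,
  .negSucc 19, .ofNat 0⟩ ⟨.ofNat 2013, .negSucc 3012, .ofNat 0, .ofNat
  1000⟩, .q ⟨.ofNat 40, .negSucc 19, .negSucc 19, .ofNat 0⟩ ⟨.ofNat 2013,
  .negSucc 3012, .ofNat 0, .ofNat 1000⟩, .q ⟨.ofNat 37, .negSucc 16,
  .negSucc 19, .ofNat 0⟩ ⟨.ofNat 4067, .ofNat 468, .negSucc 576, .negSucc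
  3957⟩, .q ⟨.ofNat 40, .negSucc 19, .negSucc 19, .ofNat 0⟩ ⟨.ofNat 4067,
  .ofNat 468, .negSucc 576, .negSucc 3957⟩, .q ⟨.ofNat 37, .negSucc 16,
  .negSucc 19, .ofNat 0⟩ ⟨.negSucc 3717, .ofNat 675, .negSucc 862, .ofNat
  3906⟩, .q ⟨.ofNat 40, .negSucc 19, .negSucc 19, .ofNat 0⟩ ⟨.negSucc 3717,
  .ofNat 675, .negSucc 862, .ofNat 3906⟩],
[.q ⟨.negSucc 0, .ofNat 0, .ofNat 0, .ofNat 1⟩ ⟨.ofNat 2431, .negSucc 2827,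
  .negSucc 2827, .ofNat 3225⟩, .q ⟨.negSucc 0, .ofNat 0, .ofNat 0, .ofNat 1⟩
  ⟨.ofNat 732, .negSucc 994, .negSucc 3873, .ofNat 4137⟩, .q ⟨.negSucc 0,
  .ofNat 0, .ofNat 0, .ofNat 1⟩ ⟨.negSucc 3003, .ofNat 3356, .ofNat 2177,
  .negSucc 2528⟩, .q ⟨.negSucc 0, .ofNat 0, .ofNat 0, .ofNat 1⟩ ⟨.ofNat
  1713, .negSucc 1814, .ofNat 3565, .negSucc 3462⟩],
[.q ⟨.negSucc 0, .ofNat 0, .ofNat 0, .ofNat 1⟩ ⟨.ofNat 2793, .negSucc 3360,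
  .ofNat 2169, .negSucc 1600⟩, .q ⟨.negSucc 0, .ofNat 0, .ofNat 0, .ofNat 1⟩
  ⟨.negSucc 446, .ofNat 838, .negSucc 3910, .ofNat 3520⟩, .q ⟨.negSucc 0,
  .ofNat 0, .ofNat 0, .ofNat 1⟩ ⟨.negSucc 2836, .ofNat 3327, .negSucc 2220,
  .ofNat 1731⟩, .q ⟨.negSucc 0, .ofNat 0, .ofNat 0, .ofNat 1⟩ ⟨.negSucc 967,
  .ofNat 574, .ofNat 3959, .negSucc 3564⟩],
[.l ⟨.ofNat 0, .ofNat 20, .ofNat 0, .negSucc 13⟩ ⟨.ofNat 0, .ofNat 20,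
  .ofNat 0, .ofNat 14⟩, .l ⟨.ofNat 0, .negSucc 19, .ofNat 0, .ofNat 15⟩
  ⟨.ofNat 0, .ofNat 20, .ofNat 0, .ofNat 15⟩, .l ⟨.ofNat 0, .ofNat 20,
  .ofNat 0, .negSucc 13⟩ ⟨.ofNat 0, .ofNat 0, .ofNat 1000, .ofNat 773⟩, .l
  ⟨.ofNat 0, .ofNat 20, .ofNat 0, .negSucc 14⟩ ⟨.ofNat 0, .ofNat 0, .ofNat
  1000, .ofNat 773⟩, .l ⟨.ofNat 0, .ofNat 20, .ofNat 0, .negSucc 13⟩ ⟨.ofNat
  0, .ofNat 0, .negSucc 49, .negSucc 40⟩, .l ⟨.ofNat 0, .ofNat 20, .ofNat 0,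
  .negSucc 14⟩ ⟨.ofNat 0, .ofNat 0, .negSucc 49, .negSucc 40⟩],
[.l ⟨.ofNat 0, .ofNat 80, .ofNat 0, .negSucc 68⟩ ⟨.ofNat 0, .ofNat 80,
  .ofNat 0, .ofNat 69⟩, .l ⟨.ofNat 0, .negSucc 79, .ofNat 0, .ofNat 73⟩
  ⟨.ofNat 0, .ofNat 80, .ofNat 0, .ofNat 73⟩, .l ⟨.ofNat 0, .ofNat 80,
  .ofNat 0, .negSucc 68⟩ ⟨.ofNat 0, .ofNat 426, .ofNat 3977, .ofNat 2462⟩,
  .l ⟨.ofNat 0, .ofNat 80, .ofNat 0, .negSucc 72⟩ ⟨.ofNat 0, .ofNat 426,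
  .ofNat 3977, .ofNat 2462⟩, .l ⟨.ofNat 0, .ofNat 80, .ofNat 0, .negSucc 68⟩
  ⟨.ofNat 0, .negSucc 425, .negSucc 3976, .negSucc 3690⟩, .l ⟨.ofNat 0,
  .ofNat 80, .ofNat 0, .negSucc 72⟩ ⟨.ofNat 0, .negSucc 425, .negSucc 3976,
  .negSucc 3690⟩],
[.q ⟨.negSucc 7, .negSucc 951, .ofNat 960, .ofNat 0⟩ ⟨.negSucc 1911, .ofNat
  952, .ofNat 960, .ofNat 0⟩, .q ⟨.ofNat 1, .ofNat 959, .negSucc 959, .ofNat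
  0⟩ ⟨.negSucc 1918, .ofNat 959, .ofNat 960, .ofNat 0⟩, .q ⟨.ofNat 1912,
  .negSucc 951, .negSucc 959, .ofNat 0⟩ ⟨.ofNat 15217, .negSucc 11756,
  .ofNat 508, .negSucc 3967⟩, .q ⟨.ofNat 1919, .negSucc 958, .negSucc 959,
  .ofNat 0⟩ ⟨.ofNat 15217, .negSucc 11756, .ofNat 508, .negSucc 3967⟩, .q
  ⟨.ofNat 1912, .negSucc 951, .negSucc 959, .ofNat 0⟩ ⟨.negSucc 3680, .ofNat
  221, .negSucc 507, .ofNat 3968⟩, .q ⟨.ofNat 1919, .negSucc 958, .negSucc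
  959, .ofNat 0⟩ ⟨.negSucc 3680, .ofNat 221, .negSucc 507, .ofNat 3968⟩, .q
  ⟨.ofNat 1912, .negSucc 951, .negSucc 959, .ofNat 0⟩ ⟨.ofNat 559, .ofNat
  1200, .negSucc 1218, .negSucc 539⟩, .q ⟨.ofNat 1919, .negSucc 958,
  .negSucc 959, .ofNat 0⟩ ⟨.ofNat 559, .ofNat 1200, .negSucc 1218, .negSucc
  539⟩],
[.l ⟨.ofNat 0, .negSucc 741, .negSucc 298, .negSucc 56⟩ ⟨.ofNat 0, .ofNat 0,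
  .ofNat 0, .ofNat 1⟩, .l ⟨.ofNat 0, .negSucc 969, .negSucc 3880, .ofNat 7⟩
  ⟨.ofNat 0, .ofNat 0, .ofNat 0, .ofNat 1⟩, .l ⟨.ofNat 0, .ofNat 3280,
  .negSucc 2288, .ofNat 382⟩ ⟨.ofNat 0, .ofNat 0, .ofNat 0, .ofNat 1⟩, .l
  ⟨.ofNat 0, .ofNat 2828, .ofNat 2828, .ofNat 271⟩ ⟨.ofNat 0, .ofNat 0,
  .ofNat 0, .ofNat 1⟩],
[.q ⟨.negSucc 7, .negSucc 471, .ofNat 480, .ofNat 0⟩ ⟨.negSucc 951, .ofNat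
  472, .ofNat 480, .ofNat 0⟩, .q ⟨.ofNat 1, .ofNat 479, .negSucc 479, .ofNat
  0⟩ ⟨.negSucc 958, .ofNat 479, .ofNat 480, .ofNat 0⟩, .q ⟨.ofNat 952,
  .negSucc 471, .negSucc 479, .ofNat 0⟩ ⟨.ofNat 1354, .negSucc 56, .ofNat
  36, .negSucc 1332⟩, .q ⟨.ofNat 959, .negSucc 478, .negSucc 479, .ofNat 0⟩
  ⟨.ofNat 1354, .negSucc 56, .ofNat 36, .negSucc 1332⟩, .q ⟨.ofNat 952,
  .negSucc 471, .negSucc 479, .ofNat 0⟩ ⟨.negSucc 3714, .negSucc 175,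
  .negSucc 107, .ofNat 3999⟩, .q ⟨.ofNat 959, .negSucc 478, .negSucc 479,
  .ofNat 0⟩ ⟨.negSucc 3714, .negSucc 175, .negSucc 107, .ofNat 3999⟩, .q
  ⟨.ofNat 952, .negSucc 471, .negSucc 479, .ofNat 0⟩ ⟨.negSucc 1549, .ofNat
  953, .negSucc 1083, .ofNat 1681⟩, .q ⟨.ofNat 959, .negSucc 478, .negSucc
  479, .ofNat 0⟩ ⟨.negSucc 1549, .ofNat 953, .negSucc 1083, .ofNat 1681⟩],
[.q ⟨.negSucc 10, .negSucc 948, .ofNat 960, .ofNat 0⟩ ⟨.negSucc 1908, .ofNat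
  949, .ofNat 960, .ofNat 0⟩, .q ⟨.ofNat 3, .ofNat 957, .negSucc 959, .ofNat
  0⟩ ⟨.negSucc 1916, .ofNat 957, .ofNat 960, .ofNat 0⟩, .q ⟨.ofNat 1909,
  .negSucc 948, .negSucc 959, .ofNat 0⟩ ⟨.ofNat 15352, .negSucc 13527,
  .ofNat 1765, .negSucc 3588⟩, .q ⟨.ofNat 1917, .negSucc 956, .negSucc 959,
  .ofNat 0⟩ ⟨.ofNat 15352, .negSucc 13527, .ofNat 1765, .negSucc 3588⟩, .q
  ⟨.ofNat 1909, .negSucc 948, .negSucc 959, .ofNat 0⟩ ⟨.negSucc 3321, .ofNat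
  1498, .negSucc 1764, .ofNat 3589⟩, .q ⟨.ofNat 1917, .negSucc 956, .negSucc
  959, .ofNat 0⟩ ⟨.negSucc 3321, .ofNat 1498, .negSucc 1764, .ofNat 3589⟩,
  .q ⟨.ofNat 1909, .negSucc 948, .negSucc 959, .ofNat 0⟩ ⟨.ofNat 3179,
  .negSucc 2600, .ofNat 2525, .negSucc 3102⟩, .q ⟨.ofNat 1917, .negSucc 956,
  .negSucc 959, .ofNat 0⟩ ⟨.ofNat 3179, .negSucc 2600, .ofNat 2525, .negSucc
  3102⟩],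
[.q ⟨.negSucc 10, .negSucc 948, .ofNat 960, .ofNat 0⟩ ⟨.negSucc 1908, .ofNat
  949, .ofNat 960, .ofNat 0⟩, .q ⟨.ofNat 4, .ofNat 956, .negSucc 959, .ofNat
  0⟩ ⟨.negSucc 1915, .ofNat 956, .ofNat 960, .ofNat 0⟩, .q ⟨.ofNat 1909,
  .negSucc 948, .negSucc 959, .ofNat 0⟩ ⟨.ofNat 3989, .negSucc 1133, .ofNat
  1014, .negSucc 3868⟩, .q ⟨.ofNat 1916, .negSucc 955, .negSucc 959, .ofNat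
  0⟩ ⟨.ofNat 3989, .negSucc 1133, .ofNat 1014, .negSucc 3868⟩, .q ⟨.ofNat
  1909, .negSucc 948, .negSucc 959, .ofNat 0⟩ ⟨.negSucc 3585, .ofNat 731,
  .negSucc 1013, .ofNat 3869⟩, .q ⟨.ofNat 1916, .negSucc 955, .negSucc 959,
  .ofNat 0⟩ ⟨.negSucc 3585, .ofNat 731, .negSucc 1013, .ofNat 3869⟩],
[.q ⟨.negSucc 538, .negSucc 420, .ofNat 960, .ofNat 0⟩ ⟨.negSucc 1380,
  .ofNat 421, .ofNat 960, .ofNat 0⟩, .q ⟨.ofNat 533, .ofNat 427, .negSucc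
  959, .ofNat 0⟩ ⟨.negSucc 1386, .ofNat 427, .ofNat 960, .ofNat 0⟩, .q
  ⟨.ofNat 1381, .negSucc 420, .negSucc 959, .ofNat 0⟩ ⟨.ofNat 12138,
  .negSucc 8520, .ofNat 366, .negSucc 3982⟩, .q ⟨.ofNat 1387, .negSucc 426,
  .negSucc 959, .ofNat 0⟩ ⟨.ofNat 12138, .negSucc 8520, .ofNat 366, .negSucc
  3982⟩, .q ⟨.ofNat 1381, .negSucc 420, .negSucc 959, .ofNat 0⟩ ⟨.negSucc
  124, .negSucc 3491, .negSucc 365, .ofNat 3983⟩, .q ⟨.ofNat 1387, .negSucc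
  426, .negSucc 959, .ofNat 0⟩ ⟨.negSucc 124, .negSucc 3491, .negSucc 365,
  .ofNat 3983⟩, .q ⟨.ofNat 1381, .negSucc 420, .negSucc 959, .ofNat 0⟩
  ⟨.ofNat 2118, .ofNat 3408, .negSucc 3366, .negSucc 2158⟩, .q ⟨.ofNat 1387,
  .negSucc 426, .negSucc 959, .ofNat 0⟩ ⟨.ofNat 2118, .ofNat 3408, .negSucc
  3366, .negSucc 2158⟩],
[.q ⟨.negSucc 89, .negSucc 69, .ofNat 160, .ofNat 0⟩ ⟨.negSucc 229, .ofNat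
  70, .ofNat 160, .ofNat 0⟩, .q ⟨.ofNat 89, .ofNat 71, .negSucc 159, .ofNat
  0⟩ ⟨.negSucc 230, .ofNat 71, .ofNat 160, .ofNat 0⟩, .q ⟨.ofNat 230,
  .negSucc 69, .negSucc 159, .ofNat 0⟩ ⟨.ofNat 12661, .negSucc 8163,
  .negSucc 532, .negSucc 3963⟩, .q ⟨.ofNat 231, .negSucc 70, .negSucc 159,
  .ofNat 0⟩ ⟨.ofNat 12661, .negSucc 8163, .negSucc 532, .negSucc 3963⟩, .q
  ⟨.ofNat 230, .negSucc 69, .negSucc 159, .ofNat 0⟩ ⟨.negSucc 6, .negSucc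
  3365, .negSucc 583, .ofNat 3957⟩, .q ⟨.ofNat 231, .negSucc 70, .negSucc
  159, .ofNat 0⟩ ⟨.negSucc 6, .negSucc 3365, .negSucc 583, .ofNat 3957⟩, .q
  ⟨.ofNat 230, .negSucc 69, .negSucc 159, .ofNat 0⟩ ⟨.ofNat 2157, .ofNat
  3257, .negSucc 3526, .negSucc 1886⟩, .q ⟨.ofNat 231, .negSucc 70, .negSucc
  159, .ofNat 0⟩ ⟨.ofNat 2157, .ofNat 3257, .negSucc 3526, .negSucc 1886⟩],
[.q ⟨.negSucc 0, .ofNat 0, .ofNat 0, .ofNat 1⟩ ⟨.negSucc 1150, .ofNat 1050,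
  .ofNat 1702, .negSucc 1600⟩, .q ⟨.negSucc 0, .ofNat 0, .ofNat 0, .ofNat 1⟩
  ⟨.ofNat 330, .negSucc 730, .ofNat 3933, .negSucc 3531⟩, .q ⟨.negSucc 0,
  .ofNat 0, .ofNat 0, .ofNat 1⟩ ⟨.ofNat 1873, .negSucc 1999, .ofNat 0,
  .ofNat 127⟩, .q ⟨.negSucc 0, .ofNat 0, .ofNat 0, .ofNat 1⟩ ⟨.ofNat 3196,
  .negSucc 3180, .negSucc 2424, .ofNat 2410⟩, .q ⟨.negSucc 0, .ofNat 0,
  .ofNat 0, .ofNat 1⟩ ⟨.negSucc 4017, .ofNat 3839, .negSucc 1124, .ofNat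
  1304⟩],
[.l ⟨.ofNat 0, .ofNat 80, .ofNat 0, .negSucc 68⟩ ⟨.ofNat 0, .ofNat 80,
  .ofNat 0, .ofNat 69⟩, .l ⟨.ofNat 0, .negSucc 79, .ofNat 0, .ofNat 72⟩
  ⟨.ofNat 0, .ofNat 80, .ofNat 0, .ofNat 72⟩, .l ⟨.ofNat 0, .ofNat 80,
  .ofNat 0, .negSucc 68⟩ ⟨.ofNat 0, .ofNat 433, .ofNat 3976, .ofNat 3935⟩,
  .l ⟨.ofNat 0, .ofNat 80, .ofNat 0, .negSucc 71⟩ ⟨.ofNat 0, .ofNat 433,
  .ofNat 3976, .ofNat 3935⟩, .l ⟨.ofNat 0, .ofNat 80, .ofNat 0, .negSucc 68⟩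
  ⟨.ofNat 0, .negSucc 432, .negSucc 3975, .negSucc 4148⟩, .l ⟨.ofNat 0,
  .ofNat 80, .ofNat 0, .negSucc 71⟩ ⟨.ofNat 0, .negSucc 432, .negSucc 3975,
  .negSucc 4148⟩, .l ⟨.ofNat 0, .ofNat 80, .ofNat 0, .negSucc 68⟩ ⟨.ofNat 0,
  .ofNat 2500, .ofNat 3122, .ofNat 4983⟩, .l ⟨.ofNat 0, .ofNat 80, .ofNat 0,
  .negSucc 71⟩ ⟨.ofNat 0, .ofNat 2500, .ofNat 3122, .ofNat 4983⟩],
[.l ⟨.ofNat 0, .ofNat 80, .ofNat 0, .negSucc 56⟩ ⟨.ofNat 0, .ofNat 80,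
  .ofNat 0, .ofNat 57⟩, .l ⟨.ofNat 0, .negSucc 79, .ofNat 0, .ofNat 61⟩
  ⟨.ofNat 0, .ofNat 80, .ofNat 0, .ofNat 61⟩, .l ⟨.ofNat 0, .ofNat 80,
  .ofNat 0, .negSucc 56⟩ ⟨.ofNat 0, .ofNat 0, .ofNat 4000, .negSucc 9040⟩,
  .l ⟨.ofNat 0, .ofNat 80, .ofNat 0, .negSucc 60⟩ ⟨.ofNat 0, .ofNat 0,
  .ofNat 4000, .negSucc 9040⟩, .l ⟨.ofNat 0, .ofNat 80, .ofNat 0, .negSucc
  56⟩ ⟨.ofNat 0, .ofNat 0, .negSucc 1999, .negSucc 1642⟩, .l ⟨.ofNat 0,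
  .ofNat 80, .ofNat 0, .negSucc 60⟩ ⟨.ofNat 0, .ofNat 0, .negSucc 1999,
  .negSucc 1642⟩, .l ⟨.ofNat 0, .ofNat 80, .ofNat 0, .negSucc 56⟩ ⟨.ofNat 0,
  .ofNat 3088, .ofNat 2543, .ofNat 4148⟩, .l ⟨.ofNat 0, .ofNat 80, .ofNat 0,
  .negSucc 60⟩ ⟨.ofNat 0, .ofNat 3088, .ofNat 2543, .ofNat 4148⟩],
[.l ⟨.ofNat 0, .ofNat 80, .ofNat 0, .negSucc 68⟩ ⟨.ofNat 0, .ofNat 80,
  .ofNat 0, .ofNat 69⟩, .l ⟨.ofNat 0, .negSucc 79, .ofNat 0, .ofNat 73⟩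
  ⟨.ofNat 0, .ofNat 80, .ofNat 0, .ofNat 73⟩, .l ⟨.ofNat 0, .ofNat 80,
  .ofNat 0, .negSucc 68⟩ ⟨.ofNat 0, .ofNat 2463, .ofNat 3151, .ofNat 4999⟩,
  .l ⟨.ofNat 0, .ofNat 80, .ofNat 0, .negSucc 72⟩ ⟨.ofNat 0, .ofNat 2463,
  .ofNat 3151, .ofNat 4999⟩, .l ⟨.ofNat 0, .ofNat 80, .ofNat 0, .negSucc 68⟩
  ⟨.ofNat 0, .negSucc 2462, .negSucc 3150, .negSucc 5485⟩, .l ⟨.ofNat 0,
  .ofNat 80, .ofNat 0, .negSucc 72⟩ ⟨.ofNat 0, .negSucc 2462, .negSucc 3150,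
  .negSucc 5485⟩, .l ⟨.ofNat 0, .ofNat 80, .ofNat 0, .negSucc 68⟩ ⟨.ofNat 0,
  .ofNat 739, .ofNat 3931, .ofNat 4176⟩, .l ⟨.ofNat 0, .ofNat 80, .ofNat 0,
  .negSucc 72⟩ ⟨.ofNat 0, .ofNat 739, .ofNat 3931, .ofNat 4176⟩],
[.l ⟨.ofNat 0, .ofNat 480, .ofNat 0, .negSucc 424⟩ ⟨.ofNat 0, .ofNat 480,
  .ofNat 0, .ofNat 425⟩, .l ⟨.ofNat 0, .negSucc 479, .ofNat 0, .ofNat 434⟩
  ⟨.ofNat 0, .ofNat 480, .ofNat 0, .ofNat 434⟩, .l ⟨.ofNat 0, .ofNat 480,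
  .ofNat 0, .negSucc 424⟩ ⟨.ofNat 0, .ofNat 579, .ofNat 1201, .ofNat 1583⟩,
  .l ⟨.ofNat 0, .ofNat 480, .ofNat 0, .negSucc 433⟩ ⟨.ofNat 0, .ofNat 579,
  .ofNat 1201, .ofNat 1583⟩, .l ⟨.ofNat 0, .ofNat 480, .ofNat 0, .negSucc
  424⟩ ⟨.ofNat 0, .negSucc 1502, .negSucc 3706, .negSucc 15870⟩, .l ⟨.ofNat
  0, .ofNat 480, .ofNat 0, .negSucc 433⟩ ⟨.ofNat 0, .negSucc 1502, .negSucc
  3706, .negSucc 15870⟩, .l ⟨.ofNat 0, .ofNat 480, .ofNat 0, .negSucc 424⟩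
  ⟨.ofNat 0, .negSucc 3421, .ofNat 2071, .negSucc 1246⟩, .l ⟨.ofNat 0,
  .ofNat 480, .ofNat 0, .negSucc 433⟩ ⟨.ofNat 0, .negSucc 3421, .ofNat 2071,
  .negSucc 1246⟩, .l ⟨.ofNat 0, .ofNat 480, .ofNat 0, .negSucc 424⟩ ⟨.ofNat
  0, .negSucc 3044, .negSucc 2592, .negSucc 5154⟩, .l ⟨.ofNat 0, .ofNat 480,
  .ofNat 0, .negSucc 433⟩ ⟨.ofNat 0, .negSucc 3044, .negSucc 2592, .negSucc
  5154⟩],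
[.l ⟨.ofNat 0, .ofNat 80, .ofNat 0, .negSucc 55⟩ ⟨.ofNat 0, .ofNat 80,
  .ofNat 0, .ofNat 56⟩, .l ⟨.ofNat 0, .negSucc 79, .ofNat 0, .ofNat 59⟩
  ⟨.ofNat 0, .ofNat 80, .ofNat 0, .ofNat 59⟩, .l ⟨.ofNat 0, .ofNat 80,
  .ofNat 0, .negSucc 55⟩ ⟨.ofNat 0, .negSucc 1704, .ofNat 3619, .ofNat
  1472⟩, .l ⟨.ofNat 0, .ofNat 80, .ofNat 0, .negSucc 58⟩ ⟨.ofNat 0, .negSucc
  1704, .ofNat 3619, .ofNat 1472⟩, .l ⟨.ofNat 0, .ofNat 80, .ofNat 0,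
  .negSucc 55⟩ ⟨.ofNat 0, .ofNat 155, .negSucc 328, .negSucc 156⟩, .l
  ⟨.ofNat 0, .ofNat 80, .ofNat 0, .negSucc 58⟩ ⟨.ofNat 0, .ofNat 155,
  .negSucc 328, .negSucc 156⟩, .l ⟨.ofNat 0, .ofNat 80, .ofNat 0, .negSucc
  55⟩ ⟨.ofNat 0, .ofNat 3014, .ofNat 2629, .ofNat 4149⟩, .l ⟨.ofNat 0,
  .ofNat 80, .ofNat 0, .negSucc 58⟩ ⟨.ofNat 0, .ofNat 3014, .ofNat 2629,
  .ofNat 4149⟩],
[.q ⟨.ofNat 17, .negSucc 18, .negSucc 27, .ofNat 30⟩ ⟨.negSucc 133, .negSucc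
  3340, .ofNat 1645, .ofNat 1830⟩, .q ⟨.ofNat 17, .negSucc 18, .negSucc 27,
  .ofNat 30⟩ ⟨.ofNat 4878, .negSucc 2947, .negSucc 999, .negSucc 929⟩, .q
  ⟨.ofNat 17, .negSucc 18, .negSucc 27, .ofNat 30⟩ ⟨.ofNat 711, .ofNat 323,
  .negSucc 523, .negSucc 509⟩, .q ⟨.ofNat 17, .negSucc 18, .negSucc 27,
  .ofNat 30⟩ ⟨.ofNat 443, .ofNat 3124, .negSucc 1826, .negSucc 1739⟩, .q
  ⟨.ofNat 17, .negSucc 18, .negSucc 27, .ofNat 30⟩ ⟨.negSucc 4356, .ofNat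
  760, .ofNat 1647, .ofNat 1950⟩],
[.l ⟨.ofNat 0, .ofNat 240, .ofNat 0, .negSucc 220⟩ ⟨.ofNat 0, .ofNat 240,
  .ofNat 0, .ofNat 221⟩, .l ⟨.ofNat 0, .negSucc 239, .ofNat 0, .ofNat 226⟩
  ⟨.ofNat 0, .ofNat 240, .ofNat 0, .ofNat 226⟩, .l ⟨.ofNat 0, .ofNat 240,
  .ofNat 0, .negSucc 220⟩ ⟨.ofNat 0, .ofNat 0, .ofNat 2000, .ofNat 1757⟩, .l
  ⟨.ofNat 0, .ofNat 240, .ofNat 0, .negSucc 225⟩ ⟨.ofNat 0, .ofNat 0, .ofNat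
  2000, .ofNat 1757⟩, .l ⟨.ofNat 0, .ofNat 240, .ofNat 0, .negSucc 220⟩
  ⟨.ofNat 0, .ofNat 0, .negSucc 3999, .negSucc 4310⟩, .l ⟨.ofNat 0, .ofNat
  240, .ofNat 0, .negSucc 225⟩ ⟨.ofNat 0, .ofNat 0, .negSucc 3999, .negSucc
  4310⟩],
[.q ⟨.negSucc 9, .negSucc 9, .ofNat 20, .ofNat 0⟩ ⟨.negSucc 29, .ofNat 10,
  .ofNat 20, .ofNat 0⟩, .q ⟨.ofNat 9, .ofNat 11, .negSucc 19, .ofNat 0⟩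
  ⟨.negSucc 30, .ofNat 11, .ofNat 20, .ofNat 0⟩, .q ⟨.ofNat 30, .negSucc 9,
  .negSucc 19, .ofNat 0⟩ ⟨.ofNat 409, .ofNat 391, .ofNat 0, .negSucc 799⟩,
  .q ⟨.ofNat 31, .negSucc 10, .negSucc 19, .ofNat 0⟩ ⟨.ofNat 409, .ofNat
  391, .ofNat 0, .negSucc 799⟩, .q ⟨.ofNat 30, .negSucc 9, .negSucc 19,
  .ofNat 0⟩ ⟨.negSucc 1800, .negSucc 2198, .ofNat 0, .ofNat 4000⟩, .q
  ⟨.ofNat 31, .negSucc 10, .negSucc 19, .ofNat 0⟩ ⟨.negSucc 1800, .negSucc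
  2198, .ofNat 0, .ofNat 4000⟩, .q ⟨.ofNat 30, .negSucc 9, .negSucc 19,
  .ofNat 0⟩ ⟨.ofNat 2797, .ofNat 2795, .negSucc 2366, .negSucc 3224⟩, .q
  ⟨.ofNat 31, .negSucc 10, .negSucc 19, .ofNat 0⟩ ⟨.ofNat 2797, .ofNat 2795,
  .negSucc 2366, .negSucc 3224⟩],
[.l ⟨.ofNat 0, .ofNat 480, .ofNat 0, .negSucc 346⟩ ⟨.ofNat 0, .ofNat 480,
  .ofNat 0, .ofNat 347⟩, .l ⟨.ofNat 0, .negSucc 479, .ofNat 0, .ofNat 356⟩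
  ⟨.ofNat 0, .ofNat 480, .ofNat 0, .ofNat 356⟩, .l ⟨.ofNat 0, .ofNat 480,
  .ofNat 0, .negSucc 346⟩ ⟨.ofNat 0, .negSucc 1287, .ofNat 1530, .negSucc
  3946⟩, .l ⟨.ofNat 0, .ofNat 480, .ofNat 0, .negSucc 355⟩ ⟨.ofNat 0,
  .negSucc 1287, .ofNat 1530, .negSucc 3946⟩, .l ⟨.ofNat 0, .ofNat 480,
  .ofNat 0, .negSucc 346⟩ ⟨.ofNat 0, .ofNat 1288, .negSucc 1529, .negSucc
  308⟩, .l ⟨.ofNat 0, .ofNat 480, .ofNat 0, .negSucc 355⟩ ⟨.ofNat 0, .ofNat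
  1288, .negSucc 1529, .negSucc 308⟩, .l ⟨.ofNat 0, .ofNat 480, .ofNat 0,
  .negSucc 346⟩ ⟨.ofNat 0, .ofNat 2873, .ofNat 2783, .ofNat 4163⟩, .l
  ⟨.ofNat 0, .ofNat 480, .ofNat 0, .negSucc 355⟩ ⟨.ofNat 0, .ofNat 2873,
  .ofNat 2783, .ofNat 4163⟩],
[.q ⟨.negSucc 0, .ofNat 1, .ofNat 0, .ofNat 0⟩ ⟨.negSucc 1986, .ofNat 67,
  .ofNat 1920, .ofNat 0⟩, .q ⟨.negSucc 0, .ofNat 1, .ofNat 0, .ofNat 0⟩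
  ⟨.ofNat 77, .ofNat 3, .negSucc 79, .ofNat 0⟩, .l ⟨.ofNat 0, .ofNat 0,
  .negSucc 1919, .negSucc 1102⟩ ⟨.ofNat 0, .ofNat 0, .ofNat 0, .ofNat 1⟩, .l
  ⟨.ofNat 0, .ofNat 0, .ofNat 960, .ofNat 737⟩ ⟨.ofNat 0, .ofNat 0, .ofNat
  0, .ofNat 1⟩],
[.q ⟨.negSucc 0, .ofNat 1, .ofNat 0, .ofNat 0⟩ ⟨.negSucc 332, .ofNat 13,
  .ofNat 320, .ofNat 0⟩, .q ⟨.negSucc 0, .ofNat 1, .ofNat 0, .ofNat 0⟩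
  ⟨.ofNat 1841, .ofNat 79, .negSucc 1919, .ofNat 0⟩, .l ⟨.ofNat 0, .ofNat 0,
  .negSucc 959, .negSucc 562⟩ ⟨.ofNat 0, .ofNat 0, .ofNat 0, .ofNat 1⟩, .l
  ⟨.ofNat 0, .ofNat 0, .ofNat 1920, .ofNat 1459⟩ ⟨.ofNat 0, .ofNat 0, .ofNat
  0, .ofNat 1⟩],
[.q ⟨.negSucc 39, .negSucc 39, .ofNat 80, .ofNat 0⟩ ⟨.negSucc 119, .ofNat
  40, .ofNat 80, .ofNat 0⟩, .q ⟨.ofNat 37, .ofNat 43, .negSucc 79, .ofNat 0⟩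
  ⟨.negSucc 122, .ofNat 43, .ofNat 80, .ofNat 0⟩, .q ⟨.ofNat 120, .negSucc
  39, .negSucc 79, .ofNat 0⟩ ⟨.ofNat 1975, .ofNat 1901, .ofNat 122, .negSucc
  3997⟩, .q ⟨.ofNat 123, .negSucc 42, .negSucc 79, .ofNat 0⟩ ⟨.ofNat 1975,
  .ofNat 1901, .ofNat 122, .negSucc 3997⟩, .q ⟨.ofNat 120, .negSucc 39,
  .negSucc 79, .ofNat 0⟩ ⟨.negSucc 285, .negSucc 757, .negSucc 262, .ofNat
  1307⟩, .q ⟨.ofNat 123, .negSucc 42, .negSucc 79, .ofNat 0⟩ ⟨.negSucc 285,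
  .negSucc 757, .negSucc 262, .ofNat 1307⟩, .q ⟨.ofNat 120, .negSucc 39,
  .negSucc 79, .ofNat 0⟩ ⟨.ofNat 2823, .ofNat 2829, .negSucc 2709, .negSucc
  2941⟩, .q ⟨.ofNat 123, .negSucc 42, .negSucc 79, .ofNat 0⟩ ⟨.ofNat 2823,
  .ofNat 2829, .negSucc 2709, .negSucc 2941⟩],
[.l ⟨.ofNat 0, .ofNat 160, .ofNat 0, .negSucc 138⟩ ⟨.ofNat 0, .ofNat 160,
  .ofNat 0, .ofNat 139⟩, .l ⟨.ofNat 0, .negSucc 159, .ofNat 0, .ofNat 142⟩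
  ⟨.ofNat 0, .ofNat 160, .ofNat 0, .ofNat 142⟩, .l ⟨.ofNat 0, .ofNat 160,
  .ofNat 0, .negSucc 138⟩ ⟨.ofNat 0, .ofNat 0, .ofNat 4000, .ofNat 3201⟩, .l
  ⟨.ofNat 0, .ofNat 160, .ofNat 0, .negSucc 141⟩ ⟨.ofNat 0, .ofNat 0, .ofNat
  4000, .ofNat 3201⟩, .l ⟨.ofNat 0, .ofNat 160, .ofNat 0, .negSucc 138⟩
  ⟨.ofNat 0, .ofNat 0, .negSucc 3999, .negSucc 3348⟩, .l ⟨.ofNat 0, .ofNat
  160, .ofNat 0, .negSucc 141⟩ ⟨.ofNat 0, .ofNat 0, .negSucc 3999, .negSucc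
  3348⟩, .l ⟨.ofNat 0, .ofNat 160, .ofNat 0, .negSucc 138⟩ ⟨.ofNat 0, .ofNat
  2122, .negSucc 3389, .negSucc 992⟩, .l ⟨.ofNat 0, .ofNat 160, .ofNat 0,
  .negSucc 141⟩ ⟨.ofNat 0, .ofNat 2122, .negSucc 3389, .negSucc 992⟩],
[.l ⟨.ofNat 0, .ofNat 960, .ofNat 0, .negSucc 838⟩ ⟨.ofNat 0, .ofNat 960,
  .ofNat 0, .ofNat 839⟩, .l ⟨.ofNat 0, .negSucc 959, .ofNat 0, .ofNat 849⟩
  ⟨.ofNat 0, .ofNat 960, .ofNat 0, .ofNat 849⟩, .l ⟨.ofNat 0, .ofNat 960,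
  .ofNat 0, .negSucc 838⟩ ⟨.ofNat 0, .ofNat 0, .ofNat 4000, .negSucc 4798⟩,
  .l ⟨.ofNat 0, .ofNat 960, .ofNat 0, .negSucc 848⟩ ⟨.ofNat 0, .ofNat 0,
  .ofNat 4000, .negSucc 4798⟩, .l ⟨.ofNat 0, .ofNat 960, .ofNat 0, .negSucc
  838⟩ ⟨.ofNat 0, .ofNat 0, .negSucc 3999, .negSucc 3348⟩, .l ⟨.ofNat 0,
  .ofNat 960, .ofNat 0, .negSucc 848⟩ ⟨.ofNat 0, .ofNat 0, .negSucc 3999,
  .negSucc 3348⟩, .l ⟨.ofNat 0, .ofNat 960, .ofNat 0, .negSucc 838⟩ ⟨.ofNat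
  0, .ofNat 2798, .ofNat 2859, .ofNat 4767⟩, .l ⟨.ofNat 0, .ofNat 960,
  .ofNat 0, .negSucc 848⟩ ⟨.ofNat 0, .ofNat 2798, .ofNat 2859, .ofNat
  4767⟩],
[.q ⟨.negSucc 18, .negSucc 15, .ofNat 11, .ofNat 24⟩ ⟨.negSucc 2447, .ofNat
  13152, .negSucc 10031, .negSucc 671⟩, .q ⟨.negSucc 18, .negSucc 15, .ofNat
  11, .ofNat 24⟩ ⟨.negSucc 5907, .ofNat 148, .ofNat 12384, .negSucc 6623⟩,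
  .q ⟨.negSucc 18, .negSucc 15, .ofNat 11, .ofNat 24⟩ ⟨.ofNat 6316, .negSucc
  18211, .ofNat 7288, .ofNat 4608⟩, .q ⟨.negSucc 18, .negSucc 15, .ofNat 11,
  .ofNat 24⟩ ⟨.ofNat 7184, .negSucc 2843, .negSucc 12211, .ofNat 7872⟩],
[.l ⟨.ofNat 0, .ofNat 160, .ofNat 0, .negSucc 141⟩ ⟨.ofNat 0, .ofNat 160,
  .ofNat 0, .ofNat 142⟩, .l ⟨.ofNat 0, .negSucc 159, .ofNat 0, .ofNat 145⟩
  ⟨.ofNat 0, .ofNat 160, .ofNat 0, .ofNat 145⟩, .l ⟨.ofNat 0, .ofNat 160,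
  .ofNat 0, .negSucc 141⟩ ⟨.ofNat 0, .ofNat 0, .ofNat 4000, .ofNat 3201⟩, .l
  ⟨.ofNat 0, .ofNat 160, .ofNat 0, .negSucc 144⟩ ⟨.ofNat 0, .ofNat 0, .ofNat
  4000, .ofNat 3201⟩, .l ⟨.ofNat 0, .ofNat 160, .ofNat 0, .negSucc 141⟩
  ⟨.ofNat 0, .ofNat 0, .negSucc 3999, .negSucc 3348⟩, .l ⟨.ofNat 0, .ofNat
  160, .ofNat 0, .negSucc 144⟩ ⟨.ofNat 0, .ofNat 0, .negSucc 3999, .negSucc
  3348⟩],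
[.q ⟨.negSucc 25, .negSucc 20, .ofNat 15, .ofNat 32⟩ ⟨.ofNat 8540, .negSucc
  5515, .negSucc 11855, .ofNat 8832⟩, .q ⟨.negSucc 25, .negSucc 20, .ofNat
  15, .ofNat 32⟩ ⟨.negSucc 615, .ofNat 10396, .negSucc 10931, .ofNat 1152⟩,
  .q ⟨.negSucc 25, .negSucc 20, .ofNat 15, .ofNat 32⟩ ⟨.negSucc 6151, .ofNat
  8788, .ofNat 2740, .negSucc 5375⟩, .q ⟨.negSucc 25, .negSucc 20, .ofNat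
  15, .ofNat 32⟩ ⟨.negSucc 2711, .negSucc 5643, .ofNat 12068, .negSucc
  3711⟩],
[.q ⟨.negSucc 25, .negSucc 20, .ofNat 15, .ofNat 32⟩ ⟨.negSucc 8007, .ofNat
  4272, .ofNat 12056, .negSucc 8319⟩, .q ⟨.negSucc 25, .negSucc 20, .ofNat
  15, .ofNat 32⟩ ⟨.ofNat 11092, .negSucc 22083, .ofNat 1136, .ofNat 9856⟩,
  .q ⟨.negSucc 25, .negSucc 20, .ofNat 15, .ofNat 32⟩ ⟨.ofNat 10560,
  .negSucc 10355, .negSucc 10699, .ofNat 10496⟩, .q ⟨.negSucc 25, .negSucc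
  20, .ofNat 15, .ofNat 32⟩ ⟨.ofNat 3268, .ofNat 4380, .negSucc 12127,
  .ofNat 4480⟩],
[.q ⟨.negSucc 20, .negSucc 18, .ofNat 40, .ofNat 0⟩ ⟨.negSucc 58, .ofNat 19,
  .ofNat 40, .ofNat 0⟩, .q ⟨.ofNat 18, .ofNat 22, .negSucc 39, .ofNat 0⟩
  ⟨.negSucc 61, .ofNat 22, .ofNat 40, .ofNat 0⟩, .q ⟨.ofNat 59, .negSucc 18,
  .negSucc 39, .ofNat 0⟩ ⟨.ofNat 2029, .ofNat 1971, .ofNat 0, .negSucc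
  3999⟩, .q ⟨.ofNat 62, .negSucc 21, .negSucc 39, .ofNat 0⟩ ⟨.ofNat 2029,
  .ofNat 1971, .ofNat 0, .negSucc 3999⟩, .q ⟨.ofNat 59, .negSucc 18,
  .negSucc 39, .ofNat 0⟩ ⟨.negSucc 102, .negSucc 147, .negSucc 425, .ofNat
  677⟩, .q ⟨.ofNat 62, .negSucc 21, .negSucc 39, .ofNat 0⟩ ⟨.negSucc 102,
  .negSucc 147, .negSucc 425, .ofNat 677⟩, .q ⟨.ofNat 59, .negSucc 18,
  .negSucc 39, .ofNat 0⟩ ⟨.ofNat 2731, .ofNat 2748, .negSucc 3442, .negSucc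
  2035⟩, .q ⟨.ofNat 62, .negSucc 21, .negSucc 39, .ofNat 0⟩ ⟨.ofNat 2731,
  .ofNat 2748, .negSucc 3442, .negSucc 2035⟩],
[.q ⟨.negSucc 487, .negSucc 471, .ofNat 960, .ofNat 0⟩ ⟨.negSucc 1431,
  .ofNat 472, .ofNat 960, .ofNat 0⟩, .q ⟨.ofNat 479, .ofNat 481, .negSucc
  959, .ofNat 0⟩ ⟨.negSucc 1440, .ofNat 481, .ofNat 960, .ofNat 0⟩, .q
  ⟨.ofNat 1432, .negSucc 471, .negSucc 959, .ofNat 0⟩ ⟨.ofNat 1809, .ofNat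
  1870, .ofNat 309, .negSucc 3987⟩, .q ⟨.ofNat 1441, .negSucc 480, .negSucc
  959, .ofNat 0⟩ ⟨.ofNat 1809, .ofNat 1870, .ofNat 309, .negSucc 3987⟩, .q
  ⟨.ofNat 1432, .negSucc 471, .negSucc 959, .ofNat 0⟩ ⟨.ofNat 6369, .negSucc
  11604, .ofNat 1547, .ofNat 3689⟩, .q ⟨.ofNat 1441, .negSucc 480, .negSucc
  959, .ofNat 0⟩ ⟨.ofNat 6369, .negSucc 11604, .ofNat 1547, .ofNat 3689⟩, .q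
  ⟨.ofNat 1432, .negSucc 471, .negSucc 959, .ofNat 0⟩ ⟨.ofNat 521, .ofNat
  517, .negSucc 743, .negSucc 293⟩, .q ⟨.ofNat 1441, .negSucc 480, .negSucc
  959, .ofNat 0⟩ ⟨.ofNat 521, .ofNat 517, .negSucc 743, .negSucc 293⟩, .q
  ⟨.ofNat 1432, .negSucc 471, .negSucc 959, .ofNat 0⟩ ⟨.ofNat 386, .ofNat
  278, .negSucc 3140, .ofNat 2477⟩, .q ⟨.ofNat 1441, .negSucc 480, .negSucc
  959, .ofNat 0⟩ ⟨.ofNat 386, .ofNat 278, .negSucc 3140, .ofNat 2477⟩],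
[.q ⟨.negSucc 243, .negSucc 235, .ofNat 480, .ofNat 0⟩ ⟨.negSucc 715, .ofNat
  236, .ofNat 480, .ofNat 0⟩, .q ⟨.ofNat 241, .ofNat 239, .negSucc 479,
  .ofNat 0⟩ ⟨.negSucc 718, .ofNat 239, .ofNat 480, .ofNat 0⟩, .q ⟨.ofNat
  716, .negSucc 235, .negSucc 479, .ofNat 0⟩ ⟨.ofNat 10517, .negSucc 6516,
  .ofNat 0, .negSucc 3999⟩, .q ⟨.ofNat 719, .negSucc 238, .negSucc 479,
  .ofNat 0⟩ ⟨.ofNat 10517, .negSucc 6516, .ofNat 0, .negSucc 3999⟩, .q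
  ⟨.ofNat 716, .negSucc 235, .negSucc 479, .ofNat 0⟩ ⟨.negSucc 50, .negSucc
  73, .ofNat 0, .ofNat 125⟩, .q ⟨.ofNat 719, .negSucc 238, .negSucc 479,
  .ofNat 0⟩ ⟨.negSucc 50, .negSucc 73, .ofNat 0, .ofNat 125⟩, .q ⟨.ofNat
  716, .negSucc 235, .negSucc 479, .ofNat 0⟩ ⟨.ofNat 2761, .ofNat 2770,
  .negSucc 3359, .negSucc 2170⟩, .q ⟨.ofNat 719, .negSucc 238, .negSucc 479,
  .ofNat 0⟩ ⟨.ofNat 2761, .ofNat 2770, .negSucc 3359, .negSucc 2170⟩],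
[.q ⟨.negSucc 41, .negSucc 37, .ofNat 80, .ofNat 0⟩ ⟨.negSucc 117, .ofNat
  38, .ofNat 80, .ofNat 0⟩, .q ⟨.ofNat 39, .ofNat 41, .negSucc 79, .ofNat 0⟩
  ⟨.negSucc 120, .ofNat 41, .ofNat 80, .ofNat 0⟩, .q ⟨.ofNat 118, .negSucc
  37, .negSucc 79, .ofNat 0⟩ ⟨.ofNat 245, .ofNat 215, .ofNat 2589, .negSucc
  3048⟩, .q ⟨.ofNat 121, .negSucc 40, .negSucc 79, .ofNat 0⟩ ⟨.ofNat 245,
  .ofNat 215, .ofNat 2589, .negSucc 3048⟩, .q ⟨.ofNat 118, .negSucc 37,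
  .negSucc 79, .ofNat 0⟩ ⟨.ofNat 3084, .negSucc 5108, .ofNat 25, .ofNat
  2000⟩, .q ⟨.ofNat 121, .negSucc 40, .negSucc 79, .ofNat 0⟩ ⟨.ofNat 3084,
  .negSucc 5108, .ofNat 25, .ofNat 2000⟩, .q ⟨.ofNat 118, .negSucc 37,
  .negSucc 79, .ofNat 0⟩ ⟨.ofNat 670, .ofNat 669, .negSucc 896, .negSucc
  441⟩, .q ⟨.ofNat 121, .negSucc 40, .negSucc 79, .ofNat 0⟩ ⟨.ofNat 670,
  .ofNat 669, .negSucc 896, .negSucc 441⟩, .q ⟨.ofNat 118, .negSucc 37,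
  .negSucc 79, .ofNat 0⟩ ⟨.ofNat 834, .ofNat 693, .negSucc 3486, .ofNat
  1960⟩, .q ⟨.ofNat 121, .negSucc 40, .negSucc 79, .ofNat 0⟩ ⟨.ofNat 834,
  .ofNat 693, .negSucc 3486, .ofNat 1960⟩],
[.q ⟨.negSucc 37, .negSucc 41, .ofNat 80, .ofNat 0⟩ ⟨.negSucc 121, .ofNat
  42, .ofNat 80, .ofNat 0⟩, .q ⟨.ofNat 35, .ofNat 45, .negSucc 79, .ofNat 0⟩
  ⟨.negSucc 124, .ofNat 45, .ofNat 80, .ofNat 0⟩, .q ⟨.ofNat 122, .negSucc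
  41, .negSucc 79, .ofNat 0⟩ ⟨.ofNat 6155, .negSucc 5289, .ofNat 914,
  .negSucc 1778⟩, .q ⟨.ofNat 125, .negSucc 44, .negSucc 79, .ofNat 0⟩
  ⟨.ofNat 6155, .negSucc 5289, .ofNat 914, .negSucc 1778⟩, .q ⟨.ofNat 122,
  .negSucc 41, .negSucc 79, .ofNat 0⟩ ⟨.negSucc 513, .negSucc 350, .negSucc
  913, .ofNat 1779⟩, .q ⟨.ofNat 125, .negSucc 44, .negSucc 79, .ofNat 0⟩
  ⟨.negSucc 513, .negSucc 350, .negSucc 913, .ofNat 1779⟩, .q ⟨.ofNat 122,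
  .negSucc 41, .negSucc 79, .ofNat 0⟩ ⟨.ofNat 1257, .ofNat 462, .ofNat 1835,
  .negSucc 3553⟩, .q ⟨.ofNat 125, .negSucc 44, .negSucc 79, .ofNat 0⟩
  ⟨.ofNat 1257, .ofNat 462, .ofNat 1835, .negSucc 3553⟩, .q ⟨.ofNat 122,
  .negSucc 41, .negSucc 79, .ofNat 0⟩ ⟨.ofNat 932, .ofNat 1311, .negSucc
  3717, .ofNat 1475⟩, .q ⟨.ofNat 125, .negSucc 44, .negSucc 79, .ofNat 0⟩
  ⟨.ofNat 932, .ofNat 1311, .negSucc 3717, .ofNat 1475⟩],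
[.q ⟨.negSucc 18, .negSucc 15, .ofNat 11, .ofNat 24⟩ ⟨.ofNat 1756, .negSucc
  1215, .negSucc 2363, .ofNat 1824⟩, .q ⟨.negSucc 18, .negSucc 15, .ofNat
  11, .ofNat 24⟩ ⟨.negSucc 2191, .ofNat 12748, .negSucc 10171, .negSucc
  383⟩, .q ⟨.negSucc 18, .negSucc 15, .ofNat 11, .ofNat 24⟩ ⟨.negSucc 10767,
  .ofNat 10396, .ofNat 10836, .negSucc 10463⟩, .q ⟨.negSucc 18, .negSucc 15,
  .ofNat 11, .ofNat 24⟩ ⟨.ofNat 1440, .negSucc 6907, .ofNat 4892, .ofNat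
  576⟩],
[.q ⟨.negSucc 112, .negSucc 126, .ofNat 240, .ofNat 0⟩ ⟨.negSucc 366, .ofNat
  127, .ofNat 240, .ofNat 0⟩, .q ⟨.ofNat 109, .ofNat 131, .negSucc 239,
  .ofNat 0⟩ ⟨.negSucc 370, .ofNat 131, .ofNat 240, .ofNat 0⟩, .q ⟨.ofNat
  367, .negSucc 126, .negSucc 239, .ofNat 0⟩ ⟨.ofNat 2985, .ofNat 2486,
  .negSucc 2015, .negSucc 3454⟩, .q ⟨.ofNat 371, .negSucc 130, .negSucc 239,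
  .ofNat 0⟩ ⟨.ofNat 2985, .ofNat 2486, .negSucc 2015, .negSucc 3454⟩, .q
  ⟨.ofNat 367, .negSucc 126, .negSucc 239, .ofNat 0⟩ ⟨.negSucc 1119,
  .negSucc 758, .negSucc 1727, .ofNat 3607⟩, .q ⟨.ofNat 371, .negSucc 130,
  .negSucc 239, .ofNat 0⟩ ⟨.negSucc 1119, .negSucc 758, .negSucc 1727,
  .ofNat 3607⟩],
[.q ⟨.ofNat 11, .negSucc 12, .negSucc 17, .ofNat 20⟩ ⟨.negSucc 4532, .ofNat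
  1108, .ofNat 1505, .ofNat 1920⟩, .q ⟨.ofNat 11, .negSucc 12, .negSucc 17,
  .ofNat 20⟩ ⟨.ofNat 1359, .negSucc 3919, .ofNat 1401, .ofNat 1160⟩, .q
  ⟨.ofNat 11, .negSucc 12, .negSucc 17, .ofNat 20⟩ ⟨.ofNat 2717, .ofNat
  1491, .negSucc 2107, .negSucc 2099⟩, .q ⟨.ofNat 11, .negSucc 12, .negSucc
  17, .ofNat 20⟩ ⟨.negSucc 4008, .ofNat 3719, .negSucc 129, .ofNat 420⟩],
[.q ⟨.negSucc 448, .negSucc 510, .ofNat 960, .ofNat 0⟩ ⟨.negSucc 1470,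
  .ofNat 511, .ofNat 960, .ofNat 0⟩, .q ⟨.ofNat 439, .ofNat 521, .negSucc
  959, .ofNat 0⟩ ⟨.negSucc 1480, .ofNat 521, .ofNat 960, .ofNat 0⟩, .q
  ⟨.ofNat 1471, .negSucc 510, .negSucc 959, .ofNat 0⟩ ⟨.ofNat 1348, .ofNat
  521, .ofNat 1735, .negSucc 3603⟩, .q ⟨.ofNat 1481, .negSucc 520, .negSucc
  959, .ofNat 0⟩ ⟨.ofNat 1348, .ofNat 521, .ofNat 1735, .negSucc 3603⟩, .q
  ⟨.ofNat 1471, .negSucc 510, .negSucc 959, .ofNat 0⟩ ⟨.negSucc 1114,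
  .negSucc 753, .negSucc 1734, .ofNat 3604⟩, .q ⟨.ofNat 1481, .negSucc 520,
  .negSucc 959, .ofNat 0⟩ ⟨.negSucc 1114, .negSucc 753, .negSucc 1734,
  .ofNat 3604⟩],
[.q ⟨.negSucc 38, .negSucc 40, .ofNat 80, .ofNat 0⟩ ⟨.negSucc 120, .ofNat
  41, .ofNat 80, .ofNat 0⟩, .q ⟨.ofNat 37, .ofNat 43, .negSucc 79, .ofNat 0⟩
  ⟨.negSucc 122, .ofNat 43, .ofNat 80, .ofNat 0⟩, .q ⟨.ofNat 121, .negSucc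
  40, .negSucc 79, .ofNat 0⟩ ⟨.ofNat 12996, .negSucc 11389, .ofNat 1909,
  .negSucc 3514⟩, .q ⟨.ofNat 123, .negSucc 42, .negSucc 79, .ofNat 0⟩
  ⟨.ofNat 12996, .negSucc 11389, .ofNat 1909, .negSucc 3514⟩, .q ⟨.ofNat
  121, .negSucc 40, .negSucc 79, .ofNat 0⟩ ⟨.negSucc 984, .negSucc 620,
  .negSucc 1908, .ofNat 3515⟩, .q ⟨.ofNat 123, .negSucc 42, .negSucc 79,
  .ofNat 0⟩ ⟨.negSucc 984, .negSucc 620, .negSucc 1908, .ofNat 3515⟩, .q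
  ⟨.ofNat 121, .negSucc 40, .negSucc 79, .ofNat 0⟩ ⟨.ofNat 2354, .ofNat
  1554, .ofNat 91, .negSucc 3998⟩, .q ⟨.ofNat 123, .negSucc 42, .negSucc 79,
  .ofNat 0⟩ ⟨.ofNat 2354, .ofNat 1554, .ofNat 91, .negSucc 3998⟩, .q ⟨.ofNat
  121, .negSucc 40, .negSucc 79, .ofNat 0⟩ ⟨.negSucc 1653, .negSucc 1326,
  .negSucc 912, .ofNat 3894⟩, .q ⟨.ofNat 123, .negSucc 42, .negSucc 79,
  .ofNat 0⟩ ⟨.negSucc 1653, .negSucc 1326, .negSucc 912, .ofNat 3894⟩],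
[.q ⟨.ofNat 11, .negSucc 12, .negSucc 17, .ofNat 20⟩ ⟨.negSucc 98, .ofNat
  521, .negSucc 241, .negSucc 179⟩, .q ⟨.ofNat 11, .negSucc 12, .negSucc 17,
  .ofNat 20⟩ ⟨.negSucc 3840, .ofNat 3818, .negSucc 256, .ofNat 280⟩, .q
  ⟨.ofNat 11, .negSucc 12, .negSucc 17, .ofNat 20⟩ ⟨.negSucc 4655, .ofNat
  1481, .ofNat 1375, .ofNat 1800⟩, .q ⟨.ofNat 11, .negSucc 12, .negSucc 17,
  .ofNat 20⟩ ⟨.ofNat 2180, .negSucc 4108, .ofNat 1069, .ofNat 860⟩, .q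
  ⟨.ofNat 11, .negSucc 12, .negSucc 17, .ofNat 20⟩ ⟨.ofNat 1194, .negSucc
  446, .negSucc 346, .negSucc 399⟩],
[.l ⟨.ofNat 0, .ofNat 480, .ofNat 0, .negSucc 422⟩ ⟨.ofNat 0, .ofNat 480,
  .ofNat 0, .ofNat 423⟩, .l ⟨.ofNat 0, .negSucc 479, .ofNat 0, .ofNat 433⟩
  ⟨.ofNat 0, .ofNat 480, .ofNat 0, .ofNat 433⟩, .l ⟨.ofNat 0, .ofNat 480,
  .ofNat 0, .negSucc 422⟩ ⟨.ofNat 0, .negSucc 386, .ofNat 1962, .ofNat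
  1421⟩, .l ⟨.ofNat 0, .ofNat 480, .ofNat 0, .negSucc 432⟩ ⟨.ofNat 0,
  .negSucc 386, .ofNat 1962, .ofNat 1421⟩, .l ⟨.ofNat 0, .ofNat 480, .ofNat
  0, .negSucc 422⟩ ⟨.ofNat 0, .ofNat 387, .negSucc 1961, .negSucc 1758⟩, .l
  ⟨.ofNat 0, .ofNat 480, .ofNat 0, .negSucc 432⟩ ⟨.ofNat 0, .ofNat 387,
  .negSucc 1961, .negSucc 1758⟩],
[.q ⟨.negSucc 19, .negSucc 19, .ofNat 40, .ofNat 0⟩ ⟨.negSucc 59, .ofNat 20,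
  .ofNat 40, .ofNat 0⟩, .q ⟨.ofNat 17, .ofNat 23, .negSucc 39, .ofNat 0⟩
  ⟨.negSucc 62, .ofNat 23, .ofNat 40, .ofNat 0⟩, .q ⟨.ofNat 60, .negSucc 19,
  .negSucc 39, .ofNat 0⟩ ⟨.ofNat 1357, .ofNat 635, .ofNat 1651, .negSucc
  3642⟩, .q ⟨.ofNat 63, .negSucc 22, .negSucc 39, .ofNat 0⟩ ⟨.ofNat 1357,
  .ofNat 635, .ofNat 1651, .negSucc 3642⟩, .q ⟨.ofNat 60, .negSucc 19,
  .negSucc 39, .ofNat 0⟩ ⟨.negSucc 1175, .negSucc 815, .negSucc 1650, .ofNat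
  3643⟩, .q ⟨.ofNat 63, .negSucc 22, .negSucc 39, .ofNat 0⟩ ⟨.negSucc 1175,
  .negSucc 815, .negSucc 1650, .ofNat 3643⟩, .q ⟨.ofNat 60, .negSucc 19,
  .negSucc 39, .ofNat 0⟩ ⟨.ofNat 727, .ofNat 979, .negSucc 3549, .ofNat
  1844⟩, .q ⟨.ofNat 63, .negSucc 22, .negSucc 39, .ofNat 0⟩ ⟨.ofNat 727,
  .ofNat 979, .negSucc 3549, .ofNat 1844⟩],
[.l ⟨.ofNat 0, .negSucc 97, .negSucc 3998, .negSucc 2363⟩ ⟨.ofNat 0, .ofNat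
  0, .ofNat 0, .ofNat 1⟩, .l ⟨.ofNat 0, .ofNat 1000, .ofNat 0, .negSucc 132⟩
  ⟨.ofNat 0, .ofNat 0, .ofNat 0, .ofNat 1⟩, .l ⟨.ofNat 0, .negSucc 3707,
  .ofNat 1499, .ofNat 1654⟩ ⟨.ofNat 0, .ofNat 0, .ofNat 0, .ofNat 1⟩, .l
  ⟨.ofNat 0, .negSucc 499, .ofNat 2, .ofNat 101⟩ ⟨.ofNat 0, .ofNat 0, .ofNat
  0, .ofNat 1⟩],
[.q ⟨.ofNat 11, .negSucc 12, .negSucc 17, .ofNat 20⟩ ⟨.ofNat 2463, .ofNat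
  1721, .negSucc 2143, .negSucc 2039⟩, .q ⟨.ofNat 11, .negSucc 12, .negSucc
  17, .ofNat 20⟩ ⟨.negSucc 4504, .ofNat 3256, .ofNat 369, .ofNat 880⟩, .q
  ⟨.ofNat 11, .negSucc 12, .negSucc 17, .ofNat 20⟩ ⟨.ofNat 55, .negSucc 266,
  .ofNat 112, .ofNat 100⟩, .q ⟨.ofNat 11, .negSucc 12, .negSucc 17, .ofNat
  20⟩ ⟨.ofNat 3901, .negSucc 3882, .ofNat 162, .negSucc 179⟩],
[.q ⟨.negSucc 11, .negSucc 27, .ofNat 40, .ofNat 0⟩ ⟨.negSucc 67, .ofNat 28,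
  .ofNat 40, .ofNat 0⟩, .q ⟨.ofNat 9, .ofNat 31, .negSucc 39, .ofNat 0⟩
  ⟨.negSucc 70, .ofNat 31, .ofNat 40, .ofNat 0⟩, .q ⟨.ofNat 68, .negSucc 27,
  .negSucc 39, .ofNat 0⟩ ⟨.ofNat 3033, .ofNat 967, .ofNat 0, .negSucc 3999⟩,
  .q ⟨.ofNat 71, .negSucc 30, .negSucc 39, .ofNat 0⟩ ⟨.ofNat 3033, .ofNat
  967, .ofNat 0, .negSucc 3999⟩, .q ⟨.ofNat 68, .negSucc 27, .negSucc 39,
  .ofNat 0⟩ ⟨.negSucc 568, .negSucc 230, .ofNat 0, .ofNat 800⟩, .q ⟨.ofNat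
  71, .negSucc 30, .negSucc 39, .ofNat 0⟩ ⟨.negSucc 568, .negSucc 230,
  .ofNat 0, .ofNat 800⟩, .q ⟨.ofNat 68, .negSucc 27, .negSucc 39, .ofNat 0⟩
  ⟨.ofNat 2316, .negSucc 337, .ofNat 1661, .negSucc 3638⟩, .q ⟨.ofNat 71,
  .negSucc 30, .negSucc 39, .ofNat 0⟩ ⟨.ofNat 2316, .negSucc 337, .ofNat
  1661, .negSucc 3638⟩],
[.q ⟨.negSucc 0, .ofNat 0, .ofNat 0, .ofNat 1⟩ ⟨.ofNat 2603, .negSucc 2827,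
  .negSucc 2827, .ofNat 3053⟩, .q ⟨.negSucc 0, .ofNat 0, .ofNat 0, .ofNat 1⟩
  ⟨.ofNat 1085, .negSucc 902, .negSucc 3896, .ofNat 3715⟩, .q ⟨.negSucc 0,
  .ofNat 0, .ofNat 0, .ofNat 1⟩ ⟨.negSucc 3536, .ofNat 3957, .ofNat 586,
  .negSucc 1005⟩, .q ⟨.negSucc 0, .ofNat 0, .ofNat 0, .ofNat 1⟩ ⟨.ofNat
  2739, .negSucc 3505, .ofNat 1926, .negSucc 1158⟩],
[.l ⟨.ofNat 0, .negSucc 274, .ofNat 3991, .ofNat 110⟩ ⟨.ofNat 0, .ofNat 0,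
  .ofNat 0, .ofNat 1⟩, .l ⟨.ofNat 0, .negSucc 2827, .negSucc 2827, .negSucc
  72⟩ ⟨.ofNat 0, .ofNat 0, .ofNat 0, .ofNat 1⟩, .l ⟨.ofNat 0, .ofNat 1621,
  .negSucc 3656, .ofNat 133⟩ ⟨.ofNat 0, .ofNat 0, .ofNat 0, .ofNat 1⟩],
[.l ⟨.ofNat 0, .negSucc 1934, .ofNat 506, .ofNat 114⟩ ⟨.ofNat 0, .ofNat 0,
  .ofNat 0, .ofNat 1⟩, .l ⟨.ofNat 0, .negSucc 3830, .negSucc 1150, .negSucc
  15⟩ ⟨.ofNat 0, .ofNat 0, .ofNat 0, .ofNat 1⟩, .l ⟨.ofNat 0, .ofNat 0,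
  .negSucc 1999, .negSucc 208⟩ ⟨.ofNat 0, .ofNat 0, .ofNat 0, .ofNat 1⟩, .l
  ⟨.ofNat 0, .ofNat 1000, .ofNat 0, .ofNat 169⟩ ⟨.ofNat 0, .ofNat 0, .ofNat
  0, .ofNat 1⟩],
[.q ⟨.negSucc 0, .ofNat 0, .ofNat 0, .ofNat 1⟩ ⟨.ofNat 211, .ofNat 109,
  .negSucc 3998, .ofNat 3679⟩, .q ⟨.negSucc 0, .ofNat 0, .ofNat 0, .ofNat 1⟩
  ⟨.negSucc 581, .ofNat 707, .negSucc 706, .ofNat 582⟩, .q ⟨.negSucc 0,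
  .ofNat 0, .ofNat 0, .ofNat 1⟩ ⟨.negSucc 298, .negSucc 103, .ofNat 3999,
  .negSucc 3595⟩, .q ⟨.negSucc 0, .ofNat 0, .ofNat 0, .ofNat 1⟩ ⟨.ofNat 681,
  .negSucc 799, .ofNat 0, .ofNat 119⟩],
[.q ⟨.negSucc 0, .ofNat 0, .ofNat 0, .ofNat 1⟩ ⟨.negSucc 2826, .ofNat 2828,
  .negSucc 2827, .ofNat 2827⟩, .q ⟨.negSucc 0, .ofNat 0, .ofNat 0, .ofNat 1⟩
  ⟨.negSucc 3091, .ofNat 3066, .ofNat 2569, .negSucc 2542⟩, .q ⟨.negSucc 0,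
  .ofNat 0, .ofNat 0, .ofNat 1⟩ ⟨.ofNat 2425, .negSucc 2862, .ofNat 2793,
  .negSucc 2354⟩, .q ⟨.negSucc 0, .ofNat 0, .ofNat 0, .ofNat 1⟩ ⟨.ofNat
  3548, .negSucc 3814, .negSucc 1201, .ofNat 1469⟩],
[.q ⟨.negSucc 0, .ofNat 0, .ofNat 0, .ofNat 1⟩ ⟨.ofNat 3241, .negSucc 3427,
  .negSucc 2060, .ofNat 2248⟩, .q ⟨.negSucc 0, .ofNat 0, .ofNat 0, .ofNat 1⟩
  ⟨.negSucc 2340, .ofNat 2841, .negSucc 2815, .ofNat 2316⟩, .q ⟨.negSucc 0,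
  .ofNat 0, .ofNat 0, .ofNat 1⟩ ⟨.negSucc 2468, .ofNat 2329, .ofNat 3252,
  .negSucc 3111⟩],
[.q ⟨.negSucc 0, .ofNat 0, .ofNat 0, .ofNat 1⟩ ⟨.ofNat 3083, .negSucc 3153,
  .negSucc 2459, .ofNat 2531⟩, .q ⟨.negSucc 0, .ofNat 0, .ofNat 0, .ofNat 1⟩
  ⟨.negSucc 3726, .ofNat 3992, .negSucc 246, .negSucc 17⟩, .q ⟨.negSucc 0,
  .ofNat 0, .ofNat 0, .ofNat 1⟩ ⟨.ofNat 560, .negSucc 774, .ofNat 1844,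
  .negSucc 1628⟩],
[.l ⟨.ofNat 0, .ofNat 3548, .ofNat 1847, .ofNat 243⟩ ⟨.ofNat 0, .ofNat 0,
  .ofNat 0, .ofNat 1⟩, .l ⟨.ofNat 0, .negSucc 3996, .ofNat 158, .ofNat 140⟩
  ⟨.ofNat 0, .ofNat 0, .ofNat 0, .ofNat 1⟩, .l ⟨.ofNat 0, .negSucc 2365,
  .negSucc 3224, .negSucc 299⟩ ⟨.ofNat 0, .ofNat 0, .ofNat 0, .ofNat 1⟩],
[.l ⟨.ofNat 0, .ofNat 3777, .ofNat 1316, .ofNat 2909⟩ ⟨.ofNat 0, .ofNat 0,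
  .ofNat 0, .ofNat 1⟩, .l ⟨.ofNat 0, .negSucc 2824, .ofNat 2831, .ofNat 353⟩
  ⟨.ofNat 0, .ofNat 0, .ofNat 0, .ofNat 1⟩, .l ⟨.ofNat 0, .negSucc 3827,
  .negSucc 1159, .negSucc 12⟩ ⟨.ofNat 0, .ofNat 0, .ofNat 0, .ofNat 1⟩, .l
  ⟨.ofNat 0, .ofNat 778, .negSucc 3923, .negSucc 356⟩ ⟨.ofNat 0, .ofNat 0,
  .ofNat 0, .ofNat 1⟩],
[.q ⟨.negSucc 0, .ofNat 0, .ofNat 0, .ofNat 1⟩ ⟨.negSucc 1400, .ofNat 1529,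
  .negSucc 3695, .ofNat 3568⟩, .q ⟨.negSucc 0, .ofNat 0, .ofNat 0, .ofNat 1⟩
  ⟨.negSucc 1548, .ofNat 1282, .ofNat 3789, .negSucc 3521⟩, .q ⟨.negSucc 0,
  .ofNat 0, .ofNat 0, .ofNat 1⟩ ⟨.ofNat 1949, .negSucc 2386, .ofNat 3210,
  .negSucc 2771⟩, .q ⟨.negSucc 0, .ofNat 0, .ofNat 0, .ofNat 1⟩ ⟨.ofNat
  2553, .negSucc 2557, .negSucc 3074, .ofNat 3080⟩],
[.q ⟨.negSucc 0, .ofNat 0, .ofNat 0, .ofNat 1⟩ ⟨.negSucc 3743, .ofNat 3987,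
  .ofNat 316, .negSucc 558⟩, .q ⟨.negSucc 0, .ofNat 0, .ofNat 0, .ofNat 1⟩
  ⟨.ofNat 2709, .negSucc 3142, .ofNat 2474, .negSucc 2039⟩, .q ⟨.negSucc 0,
  .ofNat 0, .ofNat 0, .ofNat 1⟩ ⟨.ofNat 1817, .negSucc 1999, .ofNat 0,
  .ofNat 183⟩, .q ⟨.negSucc 0, .ofNat 0, .ofNat 0, .ofNat 1⟩ ⟨.negSucc 2056,
  .ofNat 2094, .negSucc 3407, .ofNat 3371⟩],
[.l ⟨.ofNat 0, .ofNat 404, .negSucc 403, .negSucc 12⟩ ⟨.ofNat 0, .ofNat 0,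
  .ofNat 0, .ofNat 1⟩, .l ⟨.ofNat 0, .ofNat 0, .ofNat 4000, .ofNat 2457⟩
  ⟨.ofNat 0, .ofNat 0, .ofNat 0, .ofNat 1⟩, .l ⟨.ofNat 0, .negSucc 3985,
  .ofNat 333, .ofNat 99⟩ ⟨.ofNat 0, .ofNat 0, .ofNat 0, .ofNat 1⟩, .l
  ⟨.ofNat 0, .ofNat 928, .negSucc 3890, .negSucc 244⟩ ⟨.ofNat 0, .ofNat 0,
  .ofNat 0, .ofNat 1⟩],
[.q ⟨.negSucc 1, .negSucc 7, .ofNat 10, .ofNat 0⟩ ⟨.negSucc 17, .ofNat 8,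
  .ofNat 10, .ofNat 0⟩, .q ⟨.ofNat 1, .ofNat 9, .negSucc 9, .ofNat 0⟩
  ⟨.negSucc 18, .ofNat 9, .ofNat 10, .ofNat 0⟩, .q ⟨.ofNat 18, .negSucc 7,
  .negSucc 9, .ofNat 0⟩ ⟨.ofNat 15937, .negSucc 12325, .ofNat 372, .negSucc
  3982⟩, .q ⟨.ofNat 19, .negSucc 8, .negSucc 9, .ofNat 0⟩ ⟨.ofNat 15937,
  .negSucc 12325, .ofNat 372, .negSucc 3982⟩, .q ⟨.ofNat 18, .negSucc 7,
  .negSucc 9, .ofNat 0⟩ ⟨.negSucc 3874, .ofNat 264, .negSucc 371, .ofNat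
  3983⟩, .q ⟨.ofNat 19, .negSucc 8, .negSucc 9, .ofNat 0⟩ ⟨.negSucc 3874,
  .ofNat 264, .negSucc 371, .ofNat 3983⟩, .q ⟨.ofNat 18, .negSucc 7,
  .negSucc 9, .ofNat 0⟩ ⟨.ofNat 4052, .ofNat 294, .negSucc 362, .negSucc
  3982⟩, .q ⟨.ofNat 19, .negSucc 8, .negSucc 9, .ofNat 0⟩ ⟨.ofNat 4052,
  .ofNat 294, .negSucc 362, .negSucc 3982⟩, .q ⟨.ofNat 18, .negSucc 7,
  .negSucc 9, .ofNat 0⟩ ⟨.negSucc 2942, .ofNat 1826, .negSucc 2213, .ofNat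
  3331⟩, .q ⟨.ofNat 19, .negSucc 8, .negSucc 9, .ofNat 0⟩ ⟨.negSucc 2942,
  .ofNat 1826, .negSucc 2213, .ofNat 3331⟩],
[.q ⟨.negSucc 0, .ofNat 0, .ofNat 0, .ofNat 1⟩ ⟨.negSucc 2846, .ofNat 2828,
  .ofNat 2828, .negSucc 2808⟩, .q ⟨.negSucc 0, .ofNat 0, .ofNat 0, .ofNat 1⟩
  ⟨.ofNat 3089, .negSucc 3527, .ofNat 1885, .negSucc 1445⟩, .q ⟨.negSucc 0,
  .ofNat 0, .ofNat 0, .ofNat 1⟩ ⟨.ofNat 3554, .negSucc 3822, .negSucc 1176,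
  .ofNat 1446⟩, .q ⟨.negSucc 0, .ofNat 0, .ofNat 0, .ofNat 1⟩ ⟨.negSucc
  2200, .ofNat 2137, .negSucc 3380, .ofNat 3445⟩],
[.q ⟨.negSucc 0, .ofNat 0, .ofNat 0, .ofNat 1⟩ ⟨.ofNat 624, .negSucc 733,
  .ofNat 679, .negSucc 568⟩, .q ⟨.negSucc 0, .ofNat 0, .ofNat 0, .ofNat 1⟩
  ⟨.ofNat 91, .negSucc 99, .ofNat 0, .ofNat 9⟩, .q ⟨.negSucc 0, .ofNat 0,
  .ofNat 0, .ofNat 1⟩ ⟨.negSucc 192, .ofNat 202, .negSucc 201, .ofNat 193⟩,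
  .q ⟨.negSucc 0, .ofNat 0, .ofNat 0, .ofNat 1⟩ ⟨.negSucc 3245, .ofNat 3263,
  .ofNat 2314, .negSucc 2330⟩],
[.l ⟨.ofNat 0, .ofNat 2915, .negSucc 2738, .ofNat 357⟩ ⟨.ofNat 0, .ofNat 0,
  .ofNat 0, .ofNat 1⟩, .l ⟨.ofNat 0, .ofNat 2504, .ofNat 3119, .ofNat 193⟩
  ⟨.ofNat 0, .ofNat 0, .ofNat 0, .ofNat 1⟩, .l ⟨.ofNat 0, .negSucc 2344,
  .ofNat 3241, .ofNat 274⟩ ⟨.ofNat 0, .ofNat 0, .ofNat 0, .ofNat 1⟩, .l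
  ⟨.ofNat 0, .negSucc 2505, .negSucc 3116, .negSucc 160⟩ ⟨.ofNat 0, .ofNat
  0, .ofNat 0, .ofNat 1⟩],
[.q ⟨.negSucc 538, .negSucc 420, .ofNat 960, .ofNat 0⟩ ⟨.negSucc 1380,
  .ofNat 421, .ofNat 960, .ofNat 0⟩, .q ⟨.ofNat 530, .ofNat 430, .negSucc
  959, .ofNat 0⟩ ⟨.negSucc 1389, .ofNat 430, .ofNat 960, .ofNat 0⟩, .q
  ⟨.ofNat 1381, .negSucc 420, .negSucc 959, .ofNat 0⟩ ⟨.ofNat 8547, .negSucc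
  4546, .ofNat 0, .negSucc 3999⟩, .q ⟨.ofNat 1390, .negSucc 429, .negSucc
  959, .ofNat 0⟩ ⟨.ofNat 8547, .negSucc 4546, .ofNat 0, .negSucc 3999⟩, .q
  ⟨.ofNat 1381, .negSucc 420, .negSucc 959, .ofNat 0⟩ ⟨.negSucc 82, .negSucc
  916, .ofNat 0, .ofNat 1000⟩, .q ⟨.ofNat 1390, .negSucc 429, .negSucc 959,
  .ofNat 0⟩ ⟨.negSucc 82, .negSucc 916, .ofNat 0, .ofNat 1000⟩, .q ⟨.ofNat
  1381, .negSucc 420, .negSucc 959, .ofNat 0⟩ ⟨.negSucc 1334, .ofNat 1145,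
  .ofNat 2922, .negSucc 2731⟩, .q ⟨.ofNat 1390, .negSucc 429, .negSucc 959,
  .ofNat 0⟩ ⟨.negSucc 1334, .ofNat 1145, .ofNat 2922, .negSucc 2731⟩],
[.q ⟨.negSucc 538, .negSucc 420, .ofNat 960, .ofNat 0⟩ ⟨.negSucc 1380,
  .ofNat 421, .ofNat 960, .ofNat 0⟩, .q ⟨.ofNat 532, .ofNat 428, .negSucc
  959, .ofNat 0⟩ ⟨.negSucc 1387, .ofNat 428, .ofNat 960, .ofNat 0⟩, .q
  ⟨.ofNat 1381, .negSucc 420, .negSucc 959, .ofNat 0⟩ ⟨.ofNat 9845, .negSucc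
  8551, .ofNat 2107, .negSucc 3399⟩, .q ⟨.ofNat 1388, .negSucc 427, .negSucc
  959, .ofNat 0⟩ ⟨.ofNat 9845, .negSucc 8551, .ofNat 2107, .negSucc 3399⟩,
  .q ⟨.ofNat 1381, .negSucc 420, .negSucc 959, .ofNat 0⟩ ⟨.ofNat 71,
  .negSucc 3298, .negSucc 708, .ofNat 3937⟩, .q ⟨.ofNat 1388, .negSucc 427,
  .negSucc 959, .ofNat 0⟩ ⟨.ofNat 71, .negSucc 3298, .negSucc 708, .ofNat
  3937⟩, .q ⟨.ofNat 1381, .negSucc 420, .negSucc 959, .ofNat 0⟩ ⟨.negSucc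
  523, .ofNat 844, .ofNat 1245, .negSucc 1564⟩, .q ⟨.ofNat 1388, .negSucc
  427, .negSucc 959, .ofNat 0⟩ ⟨.negSucc 523, .ofNat 844, .ofNat 1245,
  .negSucc 1564⟩],
[.q ⟨.negSucc 10, .negSucc 948, .ofNat 960, .ofNat 0⟩ ⟨.negSucc 1908, .ofNat
  949, .ofNat 960, .ofNat 0⟩, .q ⟨.ofNat 4, .ofNat 956, .negSucc 959, .ofNat
  0⟩ ⟨.negSucc 1915, .ofNat 956, .ofNat 960, .ofNat 0⟩, .q ⟨.ofNat 1909,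
  .negSucc 948, .negSucc 959, .ofNat 0⟩ ⟨.ofNat 3307, .negSucc 2448, .ofNat
  2367, .negSucc 3224⟩, .q ⟨.ofNat 1916, .negSucc 955, .negSucc 959, .ofNat
  0⟩ ⟨.ofNat 3307, .negSucc 2448, .ofNat 2367, .negSucc 3224⟩, .q ⟨.ofNat
  1909, .negSucc 948, .negSucc 959, .ofNat 0⟩ ⟨.negSucc 991, .ofNat 706,
  .negSucc 788, .ofNat 1075⟩, .q ⟨.ofNat 1916, .negSucc 955, .negSucc 959,
  .ofNat 0⟩ ⟨.negSucc 991, .ofNat 706, .negSucc 788, .ofNat 1075⟩, .q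
  ⟨.ofNat 1909, .negSucc 948, .negSucc 959, .ofNat 0⟩ ⟨.negSucc 3465,
  .negSucc 1720, .ofNat 1464, .ofNat 3723⟩, .q ⟨.ofNat 1916, .negSucc 955,
  .negSucc 959, .ofNat 0⟩ ⟨.negSucc 3465, .negSucc 1720, .ofNat 1464, .ofNat
  3723⟩],
[.q ⟨.negSucc 134, .negSucc 104, .ofNat 240, .ofNat 0⟩ ⟨.negSucc 344, .ofNat
  105, .ofNat 240, .ofNat 0⟩, .q ⟨.ofNat 133, .ofNat 107, .negSucc 239,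
  .ofNat 0⟩ ⟨.negSucc 346, .ofNat 107, .ofNat 240, .ofNat 0⟩, .q ⟨.ofNat
  345, .negSucc 104, .negSucc 239, .ofNat 0⟩ ⟨.ofNat 550, .ofNat 3753,
  .negSucc 314, .negSucc 3987⟩, .q ⟨.ofNat 347, .negSucc 106, .negSucc 239,
  .ofNat 0⟩ ⟨.ofNat 550, .ofNat 3753, .negSucc 314, .negSucc 3987⟩, .q
  ⟨.ofNat 345, .negSucc 104, .negSucc 239, .ofNat 0⟩ ⟨.negSucc 515, .negSucc
  3786, .ofNat 315, .ofNat 3988⟩, .q ⟨.ofNat 347, .negSucc 106, .negSucc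
  239, .ofNat 0⟩ ⟨.negSucc 515, .negSucc 3786, .ofNat 315, .ofNat 3988⟩],
[.q ⟨.negSucc 0, .ofNat 0, .ofNat 0, .ofNat 1⟩ ⟨.negSucc 2443, .ofNat 2531,
  .negSucc 3097, .ofNat 3011⟩, .q ⟨.negSucc 0, .ofNat 0, .ofNat 0, .ofNat 1⟩
  ⟨.negSucc 3703, .ofNat 3939, .ofNat 696, .negSucc 930⟩, .q ⟨.negSucc 0,
  .ofNat 0, .ofNat 0, .ofNat 1⟩ ⟨.ofNat 2844, .negSucc 3286, .ofNat 2279,
  .negSucc 1835⟩, .q ⟨.negSucc 0, .ofNat 0, .ofNat 0, .ofNat 1⟩ ⟨.ofNat 91,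
  .negSucc 99, .ofNat 0, .ofNat 9⟩],
[.l ⟨.ofNat 0, .ofNat 80, .ofNat 0, .negSucc 67⟩ ⟨.ofNat 0, .ofNat 80,
  .ofNat 0, .ofNat 68⟩, .l ⟨.ofNat 0, .negSucc 79, .ofNat 0, .ofNat 71⟩
  ⟨.ofNat 0, .ofNat 80, .ofNat 0, .ofNat 71⟩, .l ⟨.ofNat 0, .ofNat 80,
  .ofNat 0, .negSucc 67⟩ ⟨.ofNat 0, .ofNat 0, .ofNat 125, .negSucc 232⟩, .l
  ⟨.ofNat 0, .ofNat 80, .ofNat 0, .negSucc 70⟩ ⟨.ofNat 0, .ofNat 0, .ofNat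
  125, .negSucc 232⟩, .l ⟨.ofNat 0, .ofNat 80, .ofNat 0, .negSucc 67⟩
  ⟨.ofNat 0, .ofNat 0, .negSucc 1999, .negSucc 1668⟩, .l ⟨.ofNat 0, .ofNat
  80, .ofNat 0, .negSucc 70⟩ ⟨.ofNat 0, .ofNat 0, .negSucc 1999, .negSucc
  1668⟩, .l ⟨.ofNat 0, .ofNat 80, .ofNat 0, .negSucc 67⟩ ⟨.ofNat 0, .negSucc
  3090, .ofNat 2538, .negSucc 1306⟩, .l ⟨.ofNat 0, .ofNat 80, .ofNat 0,
  .negSucc 70⟩ ⟨.ofNat 0, .negSucc 3090, .ofNat 2538, .negSucc 1306⟩],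
[.l ⟨.ofNat 0, .ofNat 40, .ofNat 0, .negSucc 31⟩ ⟨.ofNat 0, .ofNat 40,
  .ofNat 0, .ofNat 32⟩, .l ⟨.ofNat 0, .negSucc 39, .ofNat 0, .ofNat 35⟩
  ⟨.ofNat 0, .ofNat 40, .ofNat 0, .ofNat 35⟩, .l ⟨.ofNat 0, .ofNat 40,
  .ofNat 0, .negSucc 31⟩ ⟨.ofNat 0, .ofNat 0, .ofNat 4000, .negSucc 8708⟩,
  .l ⟨.ofNat 0, .ofNat 40, .ofNat 0, .negSucc 34⟩ ⟨.ofNat 0, .ofNat 0,
  .ofNat 4000, .negSucc 8708⟩, .l ⟨.ofNat 0, .ofNat 40, .ofNat 0, .negSucc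
  31⟩ ⟨.ofNat 0, .ofNat 1726, .negSucc 3608, .negSucc 1552⟩, .l ⟨.ofNat 0,
  .ofNat 40, .ofNat 0, .negSucc 34⟩ ⟨.ofNat 0, .ofNat 1726, .negSucc 3608,
  .negSucc 1552⟩, .l ⟨.ofNat 0, .ofNat 40, .ofNat 0, .negSucc 31⟩ ⟨.ofNat 0,
  .negSucc 1509, .ofNat 3704, .ofNat 1263⟩, .l ⟨.ofNat 0, .ofNat 40, .ofNat
  0, .negSucc 34⟩ ⟨.ofNat 0, .negSucc 1509, .ofNat 3704, .ofNat 1263⟩, .l
  ⟨.ofNat 0, .ofNat 40, .ofNat 0, .negSucc 31⟩ ⟨.ofNat 0, .negSucc 1069,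
  .negSucc 3853, .negSucc 4120⟩, .l ⟨.ofNat 0, .ofNat 40, .ofNat 0, .negSucc
  34⟩ ⟨.ofNat 0, .negSucc 1069, .negSucc 3853, .negSucc 4120⟩],
[.q ⟨.negSucc 11, .negSucc 67, .ofNat 80, .ofNat 0⟩ ⟨.negSucc 147, .ofNat
  68, .ofNat 80, .ofNat 0⟩, .q ⟨.ofNat 9, .ofNat 71, .negSucc 79, .ofNat 0⟩
  ⟨.negSucc 150, .ofNat 71, .ofNat 80, .ofNat 0⟩, .q ⟨.ofNat 148, .negSucc
  67, .negSucc 79, .ofNat 0⟩ ⟨.ofNat 3388, .negSucc 1509, .ofNat 1729,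
  .negSucc 3606⟩, .q ⟨.ofNat 151, .negSucc 70, .negSucc 79, .ofNat 0⟩
  ⟨.ofNat 3388, .negSucc 1509, .ofNat 1729, .negSucc 3606⟩, .q ⟨.ofNat 148,
  .negSucc 67, .negSucc 79, .ofNat 0⟩ ⟨.negSucc 3385, .ofNat 1191, .negSucc
  1508, .ofNat 3704⟩, .q ⟨.ofNat 151, .negSucc 70, .negSucc 79, .ofNat 0⟩
  ⟨.negSucc 3385, .ofNat 1191, .negSucc 1508, .ofNat 3704⟩, .q ⟨.ofNat 148,
  .negSucc 67, .negSucc 79, .ofNat 0⟩ ⟨.ofNat 3419, .ofNat 2223, .negSucc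
  2613, .negSucc 3027⟩, .q ⟨.ofNat 151, .negSucc 70, .negSucc 79, .ofNat 0⟩
  ⟨.ofNat 3419, .ofNat 2223, .negSucc 2613, .negSucc 3027⟩, .q ⟨.ofNat 148,
  .negSucc 67, .negSucc 79, .ofNat 0⟩ ⟨.negSucc 2481, .ofNat 2269, .negSucc
  2719, .ofNat 2933⟩, .q ⟨.ofNat 151, .negSucc 70, .negSucc 79, .ofNat 0⟩
  ⟨.negSucc 2481, .ofNat 2269, .negSucc 2719, .ofNat 2933⟩],
[.q ⟨.negSucc 1, .negSucc 77, .ofNat 80, .ofNat 0⟩ ⟨.negSucc 157, .ofNat 78,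
  .ofNat 80, .ofNat 0⟩, .q ⟨.negSucc 0, .ofNat 81, .negSucc 79, .ofNat 0⟩
  ⟨.negSucc 160, .ofNat 81, .ofNat 80, .ofNat 0⟩, .q ⟨.ofNat 158, .negSucc
  77, .negSucc 79, .ofNat 0⟩ ⟨.ofNat 3307, .ofNat 1411, .negSucc 798,
  .negSucc 3918⟩, .q ⟨.ofNat 161, .negSucc 80, .negSucc 79, .ofNat 0⟩
  ⟨.ofNat 3307, .ofNat 1411, .negSucc 798, .negSucc 3918⟩, .q ⟨.ofNat 158,
  .negSucc 77, .negSucc 79, .ofNat 0⟩ ⟨.ofNat 778, .negSucc 3859, .negSucc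
  830, .ofNat 3913⟩, .q ⟨.ofNat 161, .negSucc 80, .negSucc 79, .ofNat 0⟩
  ⟨.ofNat 778, .negSucc 3859, .negSucc 830, .ofNat 3913⟩, .q ⟨.ofNat 158,
  .negSucc 77, .negSucc 79, .ofNat 0⟩ ⟨.ofNat 2186, .negSucc 2657, .ofNat
  3055, .negSucc 2582⟩, .q ⟨.ofNat 161, .negSucc 80, .negSucc 79, .ofNat 0⟩
  ⟨.ofNat 2186, .negSucc 2657, .ofNat 3055, .negSucc 2582⟩],
[.q ⟨.negSucc 7, .negSucc 951, .ofNat 960, .ofNat 0⟩ ⟨.negSucc 1911, .ofNat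
  952, .ofNat 960, .ofNat 0⟩, .q ⟨.ofNat 1, .ofNat 959, .negSucc 959, .ofNat
  0⟩ ⟨.negSucc 1918, .ofNat 959, .ofNat 960, .ofNat 0⟩, .q ⟨.ofNat 1912,
  .negSucc 951, .negSucc 959, .ofNat 0⟩ ⟨.ofNat 4125, .negSucc 437, .ofNat
  302, .negSucc 3988⟩, .q ⟨.ofNat 1919, .negSucc 958, .negSucc 959, .ofNat
  0⟩ ⟨.ofNat 4125, .negSucc 437, .ofNat 302, .negSucc 3988⟩, .q ⟨.ofNat
  1912, .negSucc 951, .negSucc 959, .ofNat 0⟩ ⟨.negSucc 3701, .ofNat 15,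
  .negSucc 301, .ofNat 3989⟩, .q ⟨.ofNat 1919, .negSucc 958, .negSucc 959,
  .ofNat 0⟩ ⟨.negSucc 3701, .ofNat 15, .negSucc 301, .ofNat 3989⟩],
[.q ⟨.ofNat 17, .negSucc 18, .negSucc 27, .ofNat 30⟩ ⟨.negSucc 4720, .ofNat
  1783, .ofNat 1288, .ofNat 1650⟩, .q ⟨.ofNat 17, .negSucc 18, .negSucc 27,
  .ofNat 30⟩ ⟨.ofNat 425, .negSucc 1888, .ofNat 714, .ofNat 750⟩, .q ⟨.ofNat
  17, .negSucc 18, .negSucc 27, .ofNat 30⟩ ⟨.ofNat 1210, .negSucc 478,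
  .negSucc 370, .negSucc 359⟩, .q ⟨.ofNat 17, .negSucc 18, .negSucc 27,
  .ofNat 30⟩ ⟨.ofNat 1133, .ofNat 2700, .negSucc 1942, .negSucc 1889⟩],
[.l ⟨.ofNat 0, .ofNat 480, .ofNat 0, .negSucc 342⟩ ⟨.ofNat 0, .ofNat 480,
  .ofNat 0, .ofNat 343⟩, .l ⟨.ofNat 0, .negSucc 479, .ofNat 0, .ofNat 353⟩
  ⟨.ofNat 0, .ofNat 480, .ofNat 0, .ofNat 353⟩, .l ⟨.ofNat 0, .ofNat 480,
  .ofNat 0, .negSucc 342⟩ ⟨.ofNat 0, .ofNat 2672, .ofNat 2977, .ofNat 4165⟩,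
  .l ⟨.ofNat 0, .ofNat 480, .ofNat 0, .negSucc 352⟩ ⟨.ofNat 0, .ofNat 2672,
  .ofNat 2977, .ofNat 4165⟩, .l ⟨.ofNat 0, .ofNat 480, .ofNat 0, .negSucc
  342⟩ ⟨.ofNat 0, .negSucc 2671, .negSucc 2976, .negSucc 4362⟩, .l ⟨.ofNat
  0, .ofNat 480, .ofNat 0, .negSucc 352⟩ ⟨.ofNat 0, .negSucc 2671, .negSucc
  2976, .negSucc 4362⟩],
[.q ⟨.negSucc 0, .ofNat 1, .ofNat 0, .ofNat 0⟩ ⟨.negSucc 382, .negSucc 256,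
  .ofNat 640, .ofNat 0⟩, .q ⟨.negSucc 0, .ofNat 1, .ofNat 0, .ofNat 0⟩
  ⟨.ofNat 961, .ofNat 959, .negSucc 1919, .ofNat 0⟩, .l ⟨.ofNat 0, .ofNat 0,
  .negSucc 1919, .ofNat 299⟩ ⟨.ofNat 0, .ofNat 0, .ofNat 0, .ofNat 1⟩, .l
  ⟨.ofNat 0, .ofNat 0, .ofNat 640, .ofNat 453⟩ ⟨.ofNat 0, .ofNat 0, .ofNat
  0, .ofNat 1⟩],
[.q ⟨.negSucc 0, .ofNat 1, .ofNat 0, .ofNat 0⟩ ⟨.negSucc 1968, .ofNat 49,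
  .ofNat 1920, .ofNat 0⟩, .q ⟨.negSucc 0, .ofNat 1, .ofNat 0, .ofNat 0⟩
  ⟨.ofNat 361, .ofNat 23, .negSucc 383, .ofNat 0⟩, .l ⟨.ofNat 0, .ofNat 0,
  .negSucc 159, .negSucc 102⟩ ⟨.ofNat 0, .ofNat 0, .ofNat 0, .ofNat 1⟩, .l
  ⟨.ofNat 0, .ofNat 0, .ofNat 640, .ofNat 499⟩ ⟨.ofNat 0, .ofNat 0, .ofNat
  0, .ofNat 1⟩],
[.l ⟨.ofNat 0, .ofNat 10, .ofNat 0, .negSucc 6⟩ ⟨.ofNat 0, .ofNat 10, .ofNat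
  0, .ofNat 7⟩, .l ⟨.ofNat 0, .negSucc 9, .ofNat 0, .ofNat 8⟩ ⟨.ofNat 0,
  .ofNat 10, .ofNat 0, .ofNat 8⟩, .l ⟨.ofNat 0, .ofNat 10, .ofNat 0,
  .negSucc 6⟩ ⟨.ofNat 0, .ofNat 2349, .ofNat 3238, .ofNat 4069⟩, .l ⟨.ofNat
  0, .ofNat 10, .ofNat 0, .negSucc 7⟩ ⟨.ofNat 0, .ofNat 2349, .ofNat 3238,
  .ofNat 4069⟩, .l ⟨.ofNat 0, .ofNat 10, .ofNat 0, .negSucc 6⟩ ⟨.ofNat 0,
  .negSucc 2348, .negSucc 3237, .negSucc 4340⟩, .l ⟨.ofNat 0, .ofNat 10,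
  .ofNat 0, .negSucc 7⟩ ⟨.ofNat 0, .negSucc 2348, .negSucc 3237, .negSucc
  4340⟩, .l ⟨.ofNat 0, .ofNat 10, .ofNat 0, .negSucc 6⟩ ⟨.ofNat 0, .ofNat
  3704, .ofNat 1509, .ofNat 3892⟩, .l ⟨.ofNat 0, .ofNat 10, .ofNat 0,
  .negSucc 7⟩ ⟨.ofNat 0, .ofNat 3704, .ofNat 1509, .ofNat 3892⟩],
[.q ⟨.negSucc 0, .ofNat 1, .ofNat 0, .ofNat 0⟩ ⟨.negSucc 1006, .ofNat 47,
  .ofNat 960, .ofNat 0⟩, .q ⟨.negSucc 0, .ofNat 1, .ofNat 0, .ofNat 0⟩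
  ⟨.ofNat 457, .ofNat 23, .negSucc 479, .ofNat 0⟩, .l ⟨.ofNat 0, .ofNat 0,
  .negSucc 1919, .negSucc 1170⟩ ⟨.ofNat 0, .ofNat 0, .ofNat 0, .ofNat 1⟩, .l
  ⟨.ofNat 0, .ofNat 0, .ofNat 1920, .ofNat 1439⟩ ⟨.ofNat 0, .ofNat 0, .ofNat
  0, .ofNat 1⟩],
[.l ⟨.ofNat 0, .ofNat 80, .ofNat 0, .negSucc 68⟩ ⟨.ofNat 0, .ofNat 80,
  .ofNat 0, .ofNat 69⟩, .l ⟨.ofNat 0, .negSucc 79, .ofNat 0, .ofNat 72⟩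
  ⟨.ofNat 0, .ofNat 80, .ofNat 0, .ofNat 72⟩, .l ⟨.ofNat 0, .ofNat 80,
  .ofNat 0, .negSucc 68⟩ ⟨.ofNat 0, .ofNat 442, .ofNat 3976, .ofNat 2475⟩,
  .l ⟨.ofNat 0, .ofNat 80, .ofNat 0, .negSucc 71⟩ ⟨.ofNat 0, .ofNat 442,
  .ofNat 3976, .ofNat 2475⟩, .l ⟨.ofNat 0, .ofNat 80, .ofNat 0, .negSucc 68⟩
  ⟨.ofNat 0, .negSucc 220, .negSucc 1987, .negSucc 1851⟩, .l ⟨.ofNat 0,
  .ofNat 80, .ofNat 0, .negSucc 71⟩ ⟨.ofNat 0, .negSucc 220, .negSucc 1987,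
  .negSucc 1851⟩],
[.q ⟨.negSucc 1, .negSucc 7, .ofNat 10, .ofNat 0⟩ ⟨.negSucc 17, .ofNat 8,
  .ofNat 10, .ofNat 0⟩, .q ⟨.ofNat 1, .ofNat 9, .negSucc 9, .ofNat 0⟩
  ⟨.negSucc 18, .ofNat 9, .ofNat 10, .ofNat 0⟩, .q ⟨.ofNat 18, .negSucc 7,
  .negSucc 9, .ofNat 0⟩ ⟨.ofNat 4061, .ofNat 709, .negSucc 863, .negSucc
  3905⟩, .q ⟨.ofNat 19, .negSucc 8, .negSucc 9, .ofNat 0⟩ ⟨.ofNat 4061,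
  .ofNat 709, .negSucc 863, .negSucc 3905⟩, .q ⟨.ofNat 18, .negSucc 7,
  .negSucc 9, .ofNat 0⟩ ⟨.negSucc 3437, .ofNat 1213, .negSucc 1487, .ofNat
  3713⟩, .q ⟨.ofNat 19, .negSucc 8, .negSucc 9, .ofNat 0⟩ ⟨.negSucc 3437,
  .ofNat 1213, .negSucc 1487, .ofNat 3713⟩, .q ⟨.ofNat 18, .negSucc 7,
  .negSucc 9, .ofNat 0⟩ ⟨.ofNat 4040, .ofNat 87, .negSucc 128, .negSucc
  3997⟩, .q ⟨.ofNat 19, .negSucc 8, .negSucc 9, .ofNat 0⟩ ⟨.ofNat 4040,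
  .ofNat 87, .negSucc 128, .negSucc 3997⟩],
[.q ⟨.negSucc 18, .negSucc 20, .ofNat 40, .ofNat 0⟩ ⟨.negSucc 60, .ofNat 21,
  .ofNat 40, .ofNat 0⟩, .q ⟨.ofNat 16, .ofNat 24, .negSucc 39, .ofNat 0⟩
  ⟨.negSucc 63, .ofNat 24, .ofNat 40, .ofNat 0⟩, .q ⟨.ofNat 61, .negSucc 20,
  .negSucc 39, .ofNat 0⟩ ⟨.ofNat 2858, .ofNat 1044, .ofNat 97, .negSucc
  3998⟩, .q ⟨.ofNat 64, .negSucc 23, .negSucc 39, .ofNat 0⟩ ⟨.ofNat 2858,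
  .ofNat 1044, .ofNat 97, .negSucc 3998⟩, .q ⟨.ofNat 61, .negSucc 20,
  .negSucc 39, .ofNat 0⟩ ⟨.negSucc 141, .negSucc 112, .negSucc 124, .ofNat
  380⟩, .q ⟨.ofNat 64, .negSucc 23, .negSucc 39, .ofNat 0⟩ ⟨.negSucc 141,
  .negSucc 112, .negSucc 124, .ofNat 380⟩, .q ⟨.ofNat 61, .negSucc 20,
  .negSucc 39, .ofNat 0⟩ ⟨.ofNat 909, .ofNat 1291, .negSucc 3705, .ofNat
  1506⟩, .q ⟨.ofNat 64, .negSucc 23, .negSucc 39, .ofNat 0⟩ ⟨.ofNat 909,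
  .ofNat 1291, .negSucc 3705, .ofNat 1506⟩],
[.l ⟨.ofNat 0, .ofNat 480, .ofNat 0, .negSucc 412⟩ ⟨.ofNat 0, .ofNat 480,
  .ofNat 0, .ofNat 413⟩, .l ⟨.ofNat 0, .negSucc 479, .ofNat 0, .ofNat 422⟩
  ⟨.ofNat 0, .ofNat 480, .ofNat 0, .ofNat 422⟩, .l ⟨.ofNat 0, .ofNat 480,
  .ofNat 0, .negSucc 412⟩ ⟨.ofNat 0, .ofNat 0, .ofNat 125, .negSucc 171⟩, .l
  ⟨.ofNat 0, .ofNat 480, .ofNat 0, .negSucc 421⟩ ⟨.ofNat 0, .ofNat 0, .ofNat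
  125, .negSucc 171⟩, .l ⟨.ofNat 0, .ofNat 480, .ofNat 0, .negSucc 412⟩
  ⟨.ofNat 0, .ofNat 455, .negSucc 3973, .negSucc 2925⟩, .l ⟨.ofNat 0, .ofNat
  480, .ofNat 0, .negSucc 421⟩ ⟨.ofNat 0, .ofNat 455, .negSucc 3973,
  .negSucc 2925⟩, .l ⟨.ofNat 0, .ofNat 480, .ofNat 0, .negSucc 412⟩ ⟨.ofNat
  0, .ofNat 63, .ofNat 568, .ofNat 510⟩, .l ⟨.ofNat 0, .ofNat 480, .ofNat 0,
  .negSucc 421⟩ ⟨.ofNat 0, .ofNat 63, .ofNat 568, .ofNat 510⟩],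
[.q ⟨.negSucc 18, .negSucc 15, .ofNat 11, .ofNat 24⟩ ⟨.negSucc 4031, .ofNat
  6560, .ofNat 1024, .negSucc 3551⟩, .q ⟨.negSucc 18, .negSucc 15, .ofNat
  11, .ofNat 24⟩ ⟨.negSucc 3591, .negSucc 4027, .ofNat 12228, .negSucc
  4607⟩, .q ⟨.negSucc 18, .negSucc 15, .ofNat 11, .ofNat 24⟩ ⟨.ofNat 9936,
  .negSucc 9687, .negSucc 10903, .ofNat 10656⟩, .q ⟨.negSucc 18, .negSucc
  15, .ofNat 11, .ofNat 24⟩ ⟨.ofNat 5068, .ofNat 1224, .negSucc 12339,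
  .ofNat 6048⟩],
[.q ⟨.negSucc 18, .negSucc 15, .ofNat 11, .ofNat 24⟩ ⟨.ofNat 2360, .negSucc
  13211, .ofNat 10084, .ofNat 768⟩, .q ⟨.negSucc 18, .negSucc 15, .ofNat 11,
  .ofNat 24⟩ ⟨.ofNat 1108, .negSucc 787, .negSucc 1471, .ofNat 1152⟩, .q
  ⟨.negSucc 18, .negSucc 15, .ofNat 11, .ofNat 24⟩ ⟨.negSucc 1747, .ofNat
  12152, .negSucc 10403, .ofNat 0⟩, .q ⟨.negSucc 18, .negSucc 15, .ofNat 11,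
  .ofNat 24⟩ ⟨.negSucc 4427, .ofNat 3008, .ofNat 5932, .negSucc 4511⟩],
[.q ⟨.negSucc 18, .negSucc 15, .ofNat 11, .ofNat 24⟩ ⟨.ofNat 5604, .ofNat
  212, .negSucc 12343, .ofNat 6528⟩, .q ⟨.negSucc 18, .negSucc 15, .ofNat
  11, .ofNat 24⟩ ⟨.negSucc 4319, .ofNat 15588, .negSucc 8867, .negSucc
  2399⟩, .q ⟨.negSucc 18, .negSucc 15, .ofNat 11, .ofNat 24⟩ ⟨.negSucc 5659,
  .negSucc 291, .ofNat 12384, .negSucc 6431⟩, .q ⟨.negSucc 18, .negSucc 15,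
  .ofNat 11, .ofNat 24⟩ ⟨.ofNat 7556, .negSucc 19531, .ofNat 6120, .ofNat
  5856⟩],
[.q ⟨.negSucc 74, .ofNat 36, .negSucc 40, .ofNat 80⟩ ⟨.negSucc 3899,
  .negSucc 3783, .ofNat 3524, .ofNat 4160⟩, .q ⟨.negSucc 74, .ofNat 36,
  .negSucc 40, .ofNat 80⟩ ⟨.negSucc 143, .negSucc 4283, .negSucc 11571,
  .ofNat 16000⟩, .q ⟨.negSucc 74, .ofNat 36, .negSucc 40, .ofNat 80⟩ ⟨.ofNat
  6676, .ofNat 1820, .negSucc 20655, .ofNat 12160⟩, .q ⟨.negSucc 74, .ofNat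
  36, .negSucc 40, .ofNat 80⟩ ⟨.ofNat 2060, .ofNat 6208, .ofNat 8692,
  .negSucc 16959⟩],
[.l ⟨.ofNat 0, .ofNat 48, .ofNat 0, .negSucc 40⟩ ⟨.ofNat 0, .ofNat 48,
  .ofNat 0, .ofNat 41⟩, .l ⟨.ofNat 0, .negSucc 47, .ofNat 0, .ofNat 42⟩
  ⟨.ofNat 0, .ofNat 48, .ofNat 0, .ofNat 42⟩, .l ⟨.ofNat 0, .ofNat 48,
  .ofNat 0, .negSucc 40⟩ ⟨.ofNat 0, .ofNat 0, .ofNat 4000, .ofNat 2101⟩, .l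
  ⟨.ofNat 0, .ofNat 48, .ofNat 0, .negSucc 41⟩ ⟨.ofNat 0, .ofNat 0, .ofNat
  4000, .ofNat 2101⟩, .l ⟨.ofNat 0, .ofNat 48, .ofNat 0, .negSucc 40⟩
  ⟨.ofNat 0, .ofNat 0, .negSucc 199, .negSucc 166⟩, .l ⟨.ofNat 0, .ofNat 48,
  .ofNat 0, .negSucc 41⟩ ⟨.ofNat 0, .ofNat 0, .negSucc 199, .negSucc 166⟩],
[.l ⟨.ofNat 0, .ofNat 480, .ofNat 0, .negSucc 416⟩ ⟨.ofNat 0, .ofNat 480,
  .ofNat 0, .ofNat 417⟩, .l ⟨.ofNat 0, .negSucc 479, .ofNat 0, .ofNat 424⟩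
  ⟨.ofNat 0, .ofNat 480, .ofNat 0, .ofNat 424⟩, .l ⟨.ofNat 0, .ofNat 480,
  .ofNat 0, .negSucc 416⟩ ⟨.ofNat 0, .ofNat 0, .ofNat 4000, .ofNat 3201⟩, .l
  ⟨.ofNat 0, .ofNat 480, .ofNat 0, .negSucc 423⟩ ⟨.ofNat 0, .ofNat 0, .ofNat
  4000, .ofNat 3201⟩, .l ⟨.ofNat 0, .ofNat 480, .ofNat 0, .negSucc 416⟩
  ⟨.ofNat 0, .ofNat 0, .negSucc 999, .negSucc 836⟩, .l ⟨.ofNat 0, .ofNat
  480, .ofNat 0, .negSucc 423⟩ ⟨.ofNat 0, .ofNat 0, .negSucc 999, .negSucc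
  836⟩],
[.l ⟨.ofNat 0, .ofNat 60, .ofNat 0, .negSucc 53⟩ ⟨.ofNat 0, .ofNat 60,
  .ofNat 0, .ofNat 54⟩, .l ⟨.ofNat 0, .negSucc 59, .ofNat 0, .ofNat 55⟩
  ⟨.ofNat 0, .ofNat 60, .ofNat 0, .ofNat 55⟩, .l ⟨.ofNat 0, .ofNat 60,
  .ofNat 0, .negSucc 53⟩ ⟨.ofNat 0, .ofNat 1836, .ofNat 3554, .ofNat 4797⟩,
  .l ⟨.ofNat 0, .ofNat 60, .ofNat 0, .negSucc 54⟩ ⟨.ofNat 0, .ofNat 1836,
  .ofNat 3554, .ofNat 4797⟩, .l ⟨.ofNat 0, .ofNat 60, .ofNat 0, .negSucc 53⟩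
  ⟨.ofNat 0, .negSucc 1835, .negSucc 3553, .negSucc 5024⟩, .l ⟨.ofNat 0,
  .ofNat 60, .ofNat 0, .negSucc 54⟩ ⟨.ofNat 0, .negSucc 1835, .negSucc 3553,
  .negSucc 5024⟩],
[.q ⟨.negSucc 110, .negSucc 128, .ofNat 240, .ofNat 0⟩ ⟨.negSucc 368, .ofNat
  129, .ofNat 240, .ofNat 0⟩, .q ⟨.ofNat 107, .ofNat 133, .negSucc 239,
  .ofNat 0⟩ ⟨.negSucc 372, .ofNat 133, .ofNat 240, .ofNat 0⟩, .q ⟨.ofNat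
  369, .negSucc 128, .negSucc 239, .ofNat 0⟩ ⟨.ofNat 527, .ofNat 473, .ofNat
  0, .negSucc 999⟩, .q ⟨.ofNat 373, .negSucc 132, .negSucc 239, .ofNat 0⟩
  ⟨.ofNat 527, .ofNat 473, .ofNat 0, .negSucc 999⟩, .q ⟨.ofNat 369, .negSucc
  128, .negSucc 239, .ofNat 0⟩ ⟨.negSucc 1074, .negSucc 771, .negSucc 1749,
  .ofNat 3597⟩, .q ⟨.ofNat 373, .negSucc 132, .negSucc 239, .ofNat 0⟩
  ⟨.negSucc 1074, .negSucc 771, .negSucc 1749, .ofNat 3597⟩, .q ⟨.ofNat 369,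
  .negSucc 128, .negSucc 239, .ofNat 0⟩ ⟨.negSucc 382, .negSucc 16, .negSucc
  2620, .ofNat 3021⟩, .q ⟨.ofNat 373, .negSucc 132, .negSucc 239, .ofNat 0⟩
  ⟨.negSucc 382, .negSucc 16, .negSucc 2620, .ofNat 3021⟩],
[.q ⟨.negSucc 439, .negSucc 519, .ofNat 960, .ofNat 0⟩ ⟨.negSucc 1479,
  .ofNat 520, .ofNat 960, .ofNat 0⟩, .q ⟨.ofNat 433, .ofNat 527, .negSucc
  959, .ofNat 0⟩ ⟨.negSucc 1486, .ofNat 527, .ofNat 960, .ofNat 0⟩, .q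
  ⟨.ofNat 1480, .negSucc 519, .negSucc 959, .ofNat 0⟩ ⟨.ofNat 733, .negSucc
  93, .ofNat 2491, .negSucc 3129⟩, .q ⟨.ofNat 1487, .negSucc 526, .negSucc
  959, .ofNat 0⟩ ⟨.ofNat 733, .negSucc 93, .ofNat 2491, .negSucc 3129⟩, .q
  ⟨.ofNat 1480, .negSucc 519, .negSucc 959, .ofNat 0⟩ ⟨.negSucc 498,
  .negSucc 139, .negSucc 2490, .ofNat 3130⟩, .q ⟨.ofNat 1487, .negSucc 526,
  .negSucc 959, .ofNat 0⟩ ⟨.negSucc 498, .negSucc 139, .negSucc 2490, .ofNat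
  3130⟩],
[.l ⟨.ofNat 0, .ofNat 480, .ofNat 0, .negSucc 433⟩ ⟨.ofNat 0, .ofNat 480,
  .ofNat 0, .ofNat 434⟩, .l ⟨.ofNat 0, .negSucc 479, .ofNat 0, .ofNat 441⟩
  ⟨.ofNat 0, .ofNat 480, .ofNat 0, .ofNat 441⟩, .l ⟨.ofNat 0, .ofNat 480,
  .ofNat 0, .negSucc 433⟩ ⟨.ofNat 0, .ofNat 221, .ofNat 3994, .negSucc
  8276⟩, .l ⟨.ofNat 0, .ofNat 480, .ofNat 0, .negSucc 440⟩ ⟨.ofNat 0, .ofNat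
  221, .ofNat 3994, .negSucc 8276⟩, .l ⟨.ofNat 0, .ofNat 480, .ofNat 0,
  .negSucc 433⟩ ⟨.ofNat 0, .negSucc 1148, .negSucc 3830, .negSucc 4675⟩, .l
  ⟨.ofNat 0, .ofNat 480, .ofNat 0, .negSucc 440⟩ ⟨.ofNat 0, .negSucc 1148,
  .negSucc 3830, .negSucc 4675⟩, .l ⟨.ofNat 0, .ofNat 480, .ofNat 0,
  .negSucc 433⟩ ⟨.ofNat 0, .ofNat 1617, .ofNat 3659, .ofNat 4691⟩, .l
  ⟨.ofNat 0, .ofNat 480, .ofNat 0, .negSucc 440⟩ ⟨.ofNat 0, .ofNat 1617,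
  .ofNat 3659, .ofNat 4691⟩],
[.q ⟨.negSucc 18, .negSucc 15, .ofNat 11, .ofNat 24⟩ ⟨.ofNat 6020, .negSucc
  9851, .negSucc 1543, .ofNat 5376⟩, .q ⟨.negSucc 18, .negSucc 15, .ofNat
  11, .ofNat 24⟩ ⟨.ofNat 628, .ofNat 1408, .negSucc 2995, .ofNat 960⟩, .q
  ⟨.negSucc 18, .negSucc 15, .ofNat 11, .ofNat 24⟩ ⟨.negSucc 9491, .ofNat
  7240, .ofNat 11660, .negSucc 9407⟩, .q ⟨.negSucc 18, .negSucc 15, .ofNat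
  11, .ofNat 24⟩ ⟨.negSucc 4683, .negSucc 2103, .ofNat 12356, .negSucc
  5567⟩],
[.q ⟨.ofNat 11, .negSucc 12, .negSucc 17, .ofNat 20⟩ ⟨.negSucc 98, .ofNat
  521, .negSucc 241, .negSucc 179⟩, .q ⟨.ofNat 11, .negSucc 12, .negSucc 17,
  .ofNat 20⟩ ⟨.negSucc 3826, .ofNat 3818, .negSucc 270, .ofNat 280⟩, .q
  ⟨.ofNat 11, .negSucc 12, .negSucc 17, .ofNat 20⟩ ⟨.negSucc 2955, .negSucc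
  1255, .ofNat 2072, .ofNat 2140⟩, .q ⟨.ofNat 11, .negSucc 12, .negSucc 17,
  .ofNat 20⟩ ⟨.ofNat 1516, .negSucc 1090, .negSucc 144, .negSucc 279⟩],
[.q ⟨.negSucc 72, .negSucc 86, .ofNat 160, .ofNat 0⟩ ⟨.negSucc 246, .ofNat
  87, .ofNat 160, .ofNat 0⟩, .q ⟨.ofNat 70, .ofNat 90, .negSucc 159, .ofNat
  0⟩ ⟨.negSucc 249, .ofNat 90, .ofNat 160, .ofNat 0⟩, .q ⟨.ofNat 247,
  .negSucc 86, .negSucc 159, .ofNat 0⟩ ⟨.ofNat 2729, .ofNat 2891, .negSucc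
  2489, .negSucc 3129⟩, .q ⟨.ofNat 250, .negSucc 89, .negSucc 159, .ofNat 0⟩
  ⟨.ofNat 2729, .ofNat 2891, .negSucc 2489, .negSucc 3129⟩, .q ⟨.ofNat 247,
  .negSucc 86, .negSucc 159, .ofNat 0⟩ ⟨.negSucc 254, .negSucc 306, .ofNat
  249, .ofNat 313⟩, .q ⟨.ofNat 250, .negSucc 89, .negSucc 159, .ofNat 0⟩
  ⟨.negSucc 254, .negSucc 306, .ofNat 249, .ofNat 313⟩],
[.q ⟨.negSucc 25, .negSucc 20, .ofNat 15, .ofNat 32⟩ ⟨.negSucc 8251, .ofNat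
  19728, .negSucc 5459, .negSucc 6015⟩, .q ⟨.negSucc 25, .negSucc 20, .ofNat
  15, .ofNat 32⟩ ⟨.negSucc 659, .negSucc 8747, .ofNat 11456, .negSucc 2047⟩,
  .q ⟨.negSucc 25, .negSucc 20, .ofNat 15, .ofNat 32⟩ ⟨.ofNat 9148, .negSucc
  6887, .negSucc 11603, .ofNat 9344⟩],
[.q ⟨.negSucc 18, .negSucc 15, .ofNat 11, .ofNat 24⟩ ⟨.ofNat 9776, .negSucc
  8435, .negSucc 11323, .ofNat 9984⟩, .q ⟨.negSucc 18, .negSucc 15, .ofNat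
  11, .ofNat 24⟩ ⟨.negSucc 4883, .ofNat 10624, .negSucc 1803, .negSucc
  3935⟩, .q ⟨.negSucc 18, .negSucc 15, .ofNat 11, .ofNat 24⟩ ⟨.negSucc 1687,
  .negSucc 2199, .ofNat 6096, .negSucc 2207⟩],
[.q ⟨.negSucc 222, .negSucc 256, .ofNat 480, .ofNat 0⟩ ⟨.negSucc 736, .ofNat
  257, .ofNat 480, .ofNat 0⟩, .q ⟨.ofNat 219, .ofNat 261, .negSucc 479,
  .ofNat 0⟩ ⟨.negSucc 740, .ofNat 261, .ofNat 480, .ofNat 0⟩, .q ⟨.ofNat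
  737, .negSucc 256, .negSucc 479, .ofNat 0⟩ ⟨.ofNat 1511, .ofNat 669,
  .ofNat 1520, .negSucc 3699⟩, .q ⟨.ofNat 741, .negSucc 260, .negSucc 479,
  .ofNat 0⟩ ⟨.ofNat 1511, .ofNat 669, .ofNat 1520, .negSucc 3699⟩, .q
  ⟨.ofNat 737, .negSucc 256, .negSucc 479, .ofNat 0⟩ ⟨.negSucc 348, .ofNat
  43, .negSucc 2670, .ofNat 2977⟩, .q ⟨.ofNat 741, .negSucc 260, .negSucc
  479, .ofNat 0⟩ ⟨.negSucc 348, .ofNat 43, .negSucc 2670, .ofNat 2977⟩],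
[.q ⟨.negSucc 224, .negSucc 254, .ofNat 480, .ofNat 0⟩ ⟨.negSucc 734, .ofNat
  255, .ofNat 480, .ofNat 0⟩, .q ⟨.ofNat 217, .ofNat 263, .negSucc 479,
  .ofNat 0⟩ ⟨.negSucc 742, .ofNat 263, .ofNat 480, .ofNat 0⟩, .q ⟨.ofNat
  735, .negSucc 254, .negSucc 479, .ofNat 0⟩ ⟨.ofNat 2534, .ofNat 1769,
  .negSucc 314, .negSucc 3987⟩, .q ⟨.ofNat 743, .negSucc 262, .negSucc 479,
  .ofNat 0⟩ ⟨.ofNat 2534, .ofNat 1769, .negSucc 314, .negSucc 3987⟩, .q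
  ⟨.ofNat 735, .negSucc 254, .negSucc 479, .ofNat 0⟩ ⟨.negSucc 597, .negSucc
  418, .negSucc 810, .ofNat 1828⟩, .q ⟨.ofNat 743, .negSucc 262, .negSucc
  479, .ofNat 0⟩ ⟨.negSucc 597, .negSucc 418, .negSucc 810, .ofNat 1828⟩],
[.q ⟨.negSucc 224, .negSucc 254, .ofNat 480, .ofNat 0⟩ ⟨.negSucc 734, .ofNat
  255, .ofNat 480, .ofNat 0⟩, .q ⟨.ofNat 218, .ofNat 262, .negSucc 479,
  .ofNat 0⟩ ⟨.negSucc 741, .ofNat 262, .ofNat 480, .ofNat 0⟩, .q ⟨.ofNat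
  735, .negSucc 254, .negSucc 479, .ofNat 0⟩ ⟨.ofNat 1174, .negSucc 607,
  .ofNat 2531, .negSucc 3096⟩, .q ⟨.ofNat 742, .negSucc 261, .negSucc 479,
  .ofNat 0⟩ ⟨.ofNat 1174, .negSucc 607, .ofNat 2531, .negSucc 3096⟩, .q
  ⟨.ofNat 735, .negSucc 254, .negSucc 479, .ofNat 0⟩ ⟨.negSucc 970, .negSucc
  600, .negSucc 1930, .ofNat 3503⟩, .q ⟨.ofNat 742, .negSucc 261, .negSucc
  479, .ofNat 0⟩ ⟨.negSucc 970, .negSucc 600, .negSucc 1930, .ofNat 3503⟩],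
[.q ⟨.negSucc 18, .negSucc 15, .ofNat 11, .ofNat 24⟩ ⟨.negSucc 455, .ofNat
  5476, .negSucc 5403, .ofNat 384⟩, .q ⟨.negSucc 18, .negSucc 15, .ofNat 11,
  .ofNat 24⟩ ⟨.negSucc 12263, .ofNat 18504, .ofNat 4800, .negSucc 11039⟩, .q
  ⟨.negSucc 18, .negSucc 15, .ofNat 11, .ofNat 24⟩ ⟨.ofNat 740, .negSucc
  10867, .ofNat 10896, .negSucc 767⟩, .q ⟨.negSucc 18, .negSucc 15, .ofNat
  11, .ofNat 24⟩ ⟨.ofNat 6388, .negSucc 1279, .negSucc 12307, .ofNat 7200⟩],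
[.q ⟨.negSucc 150, .negSucc 168, .ofNat 320, .ofNat 0⟩ ⟨.negSucc 488, .ofNat
  169, .ofNat 320, .ofNat 0⟩, .q ⟨.ofNat 148, .ofNat 172, .negSucc 319,
  .ofNat 0⟩ ⟨.negSucc 491, .ofNat 172, .ofNat 320, .ofNat 0⟩, .q ⟨.ofNat
  489, .negSucc 168, .negSucc 319, .ofNat 0⟩ ⟨.ofNat 586, .negSucc 63,
  .ofNat 645, .negSucc 1166⟩, .q ⟨.ofNat 492, .negSucc 171, .negSucc 319,
  .ofNat 0⟩ ⟨.ofNat 586, .negSucc 63, .ofNat 645, .negSucc 1166⟩, .q ⟨.ofNat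
  489, .negSucc 168, .negSucc 319, .ofNat 0⟩ ⟨.negSucc 322, .negSucc 198,
  .negSucc 644, .ofNat 1167⟩, .q ⟨.ofNat 492, .negSucc 171, .negSucc 319,
  .ofNat 0⟩ ⟨.negSucc 322, .negSucc 198, .negSucc 644, .ofNat 1167⟩],
[.q ⟨.negSucc 149, .negSucc 169, .ofNat 320, .ofNat 0⟩ ⟨.negSucc 489, .ofNat
  170, .ofNat 320, .ofNat 0⟩, .q ⟨.ofNat 147, .ofNat 173, .negSucc 319,
  .ofNat 0⟩ ⟨.negSucc 492, .ofNat 173, .ofNat 320, .ofNat 0⟩, .q ⟨.ofNat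
  490, .negSucc 169, .negSucc 319, .ofNat 0⟩ ⟨.ofNat 13043, .negSucc 11352,
  .ofNat 1854, .negSucc 3543⟩, .q ⟨.ofNat 493, .negSucc 172, .negSucc 319,
  .ofNat 0⟩ ⟨.ofNat 13043, .negSucc 11352, .ofNat 1854, .negSucc 3543⟩, .q
  ⟨.ofNat 490, .negSucc 169, .negSucc 319, .ofNat 0⟩ ⟨.negSucc 513, .negSucc
  330, .negSucc 926, .ofNat 1772⟩, .q ⟨.ofNat 493, .negSucc 172, .negSucc
  319, .ofNat 0⟩ ⟨.negSucc 513, .negSucc 330, .negSucc 926, .ofNat 1772⟩, .q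
  ⟨.ofNat 490, .negSucc 169, .negSucc 319, .ofNat 0⟩ ⟨.ofNat 2945, .ofNat
  2691, .negSucc 3060, .negSucc 2574⟩, .q ⟨.ofNat 493, .negSucc 172,
  .negSucc 319, .ofNat 0⟩ ⟨.ofNat 2945, .ofNat 2691, .negSucc 3060, .negSucc
  2574⟩],
[.q ⟨.negSucc 0, .ofNat 1, .ofNat 0, .ofNat 0⟩ ⟨.negSucc 1948, .ofNat 29,
  .ofNat 1920, .ofNat 0⟩, .q ⟨.negSucc 0, .ofNat 1, .ofNat 0, .ofNat 0⟩
  ⟨.ofNat 943, .ofNat 17, .negSucc 959, .ofNat 0⟩, .l ⟨.ofNat 0, .ofNat 0,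
  .negSucc 959, .negSucc 912⟩ ⟨.ofNat 0, .ofNat 0, .ofNat 0, .ofNat 1⟩, .l
  ⟨.ofNat 0, .ofNat 0, .ofNat 30, .ofNat 31⟩ ⟨.ofNat 0, .ofNat 0, .ofNat 0,
  .ofNat 1⟩],
[.q ⟨.negSucc 112, .negSucc 126, .ofNat 240, .ofNat 0⟩ ⟨.negSucc 366, .ofNat
  127, .ofNat 240, .ofNat 0⟩, .q ⟨.ofNat 110, .ofNat 130, .negSucc 239,
  .ofNat 0⟩ ⟨.negSucc 369, .ofNat 130, .ofNat 240, .ofNat 0⟩, .q ⟨.ofNat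
  367, .negSucc 126, .negSucc 239, .ofNat 0⟩ ⟨.ofNat 1409, .ofNat 589,
  .ofNat 1647, .negSucc 3644⟩, .q ⟨.ofNat 370, .negSucc 129, .negSucc 239,
  .ofNat 0⟩ ⟨.ofNat 1409, .ofNat 589, .ofNat 1647, .negSucc 3644⟩, .q
  ⟨.ofNat 367, .negSucc 126, .negSucc 239, .ofNat 0⟩ ⟨.negSucc 1177,
  .negSucc 819, .negSucc 1646, .ofNat 3645⟩, .q ⟨.ofNat 370, .negSucc 129,
  .negSucc 239, .ofNat 0⟩ ⟨.negSucc 1177, .negSucc 819, .negSucc 1646,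
  .ofNat 3645⟩],
[.q ⟨.negSucc 450, .negSucc 508, .ofNat 960, .ofNat 0⟩ ⟨.negSucc 1468,
  .ofNat 509, .ofNat 960, .ofNat 0⟩, .q ⟨.ofNat 443, .ofNat 517, .negSucc
  959, .ofNat 0⟩ ⟨.negSucc 1476, .ofNat 517, .ofNat 960, .ofNat 0⟩, .q
  ⟨.ofNat 1469, .negSucc 508, .negSucc 959, .ofNat 0⟩ ⟨.ofNat 1388, .ofNat
  565, .ofNat 1678, .negSucc 3630⟩, .q ⟨.ofNat 1477, .negSucc 516, .negSucc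
  959, .ofNat 0⟩ ⟨.ofNat 1388, .ofNat 565, .ofNat 1678, .negSucc 3630⟩, .q
  ⟨.ofNat 1469, .negSucc 508, .negSucc 959, .ofNat 0⟩ ⟨.negSucc 1155,
  .negSucc 796, .negSucc 1677, .ofNat 3631⟩, .q ⟨.ofNat 1477, .negSucc 516,
  .negSucc 959, .ofNat 0⟩ ⟨.negSucc 1155, .negSucc 796, .negSucc 1677,
  .ofNat 3631⟩],
[.q ⟨.negSucc 37, .negSucc 41, .ofNat 80, .ofNat 0⟩ ⟨.negSucc 121, .ofNat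
  42, .ofNat 80, .ofNat 0⟩, .q ⟨.ofNat 35, .ofNat 45, .negSucc 79, .ofNat 0⟩
  ⟨.negSucc 124, .ofNat 45, .ofNat 80, .ofNat 0⟩, .q ⟨.ofNat 122, .negSucc
  41, .negSucc 79, .ofNat 0⟩ ⟨.ofNat 12491, .negSucc 9212, .ofNat 666,
  .negSucc 3943⟩, .q ⟨.ofNat 125, .negSucc 44, .negSucc 79, .ofNat 0⟩
  ⟨.ofNat 12491, .negSucc 9212, .ofNat 666, .negSucc 3943⟩, .q ⟨.ofNat 122,
  .negSucc 41, .negSucc 79, .ofNat 0⟩ ⟨.negSucc 1756, .negSucc 1520,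
  .negSucc 665, .ofNat 3944⟩, .q ⟨.ofNat 125, .negSucc 44, .negSucc 79,
  .ofNat 0⟩ ⟨.negSucc 1756, .negSucc 1520, .negSucc 665, .ofNat 3944⟩, .q
  ⟨.ofNat 122, .negSucc 41, .negSucc 79, .ofNat 0⟩ ⟨.ofNat 3379, .ofNat
  2267, .negSucc 2652, .negSucc 2992⟩, .q ⟨.ofNat 125, .negSucc 44, .negSucc
  79, .ofNat 0⟩ ⟨.ofNat 3379, .ofNat 2267, .negSucc 2652, .negSucc 2992⟩, .q
  ⟨.ofNat 122, .negSucc 41, .negSucc 79, .ofNat 0⟩ ⟨.ofNat 515, .ofNat 908,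
  .negSucc 3448, .ofNat 2026⟩, .q ⟨.ofNat 125, .negSucc 44, .negSucc 79,
  .ofNat 0⟩ ⟨.ofNat 515, .ofNat 908, .negSucc 3448, .ofNat 2026⟩],
[.q ⟨.negSucc 450, .negSucc 508, .ofNat 960, .ofNat 0⟩ ⟨.negSucc 1468,
  .ofNat 509, .ofNat 960, .ofNat 0⟩, .q ⟨.ofNat 440, .ofNat 520, .negSucc
  959, .ofNat 0⟩ ⟨.negSucc 1479, .ofNat 520, .ofNat 960, .ofNat 0⟩, .q
  ⟨.ofNat 1469, .negSucc 508, .negSucc 959, .ofNat 0⟩ ⟨.ofNat 2420, .ofNat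
  1627, .negSucc 46, .negSucc 3999⟩, .q ⟨.ofNat 1480, .negSucc 519, .negSucc
  959, .ofNat 0⟩ ⟨.ofNat 2420, .ofNat 1627, .negSucc 46, .negSucc 3999⟩, .q
  ⟨.ofNat 1469, .negSucc 508, .negSucc 959, .ofNat 0⟩ ⟨.negSucc 1193,
  .negSucc 836, .negSucc 1623, .ofNat 3655⟩, .q ⟨.ofNat 1480, .negSucc 519,
  .negSucc 959, .ofNat 0⟩ ⟨.negSucc 1193, .negSucc 836, .negSucc 1623,
  .ofNat 3655⟩],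
[.q ⟨.ofNat 11, .negSucc 12, .negSucc 17, .ofNat 20⟩ ⟨.negSucc 4637, .ofNat
  3011, .ofNat 567, .ofNat 1060⟩, .q ⟨.ofNat 11, .negSucc 12, .negSucc 17,
  .ofNat 20⟩ ⟨.negSucc 2693, .negSucc 1528, .ofNat 1983, .ofNat 2240⟩, .q
  ⟨.ofNat 11, .negSucc 12, .negSucc 17, .ofNat 20⟩ ⟨.ofNat 1209, .negSucc
  1351, .ofNat 103, .ofNat 40⟩, .q ⟨.ofNat 11, .negSucc 12, .negSucc 17,
  .ofNat 20⟩ ⟨.ofNat 3537, .ofNat 598, .negSucc 2014, .negSucc 2119⟩],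
[.q ⟨.negSucc 0, .ofNat 1, .ofNat 0, .ofNat 0⟩ ⟨.negSucc 66, .ofNat 3,
  .ofNat 64, .ofNat 0⟩, .q ⟨.negSucc 0, .ofNat 1, .ofNat 0, .ofNat 0⟩
  ⟨.ofNat 1831, .ofNat 89, .negSucc 1919, .ofNat 0⟩, .l ⟨.ofNat 0, .ofNat 0,
  .negSucc 639, .negSucc 386⟩ ⟨.ofNat 0, .ofNat 0, .ofNat 0, .ofNat 1⟩, .l
  ⟨.ofNat 0, .ofNat 0, .ofNat 1920, .ofNat 1439⟩ ⟨.ofNat 0, .ofNat 0, .ofNat
  0, .ofNat 1⟩],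
[.q ⟨.negSucc 38, .negSucc 40, .ofNat 80, .ofNat 0⟩ ⟨.negSucc 120, .ofNat
  41, .ofNat 80, .ofNat 0⟩, .q ⟨.ofNat 37, .ofNat 43, .negSucc 79, .ofNat 0⟩
  ⟨.negSucc 122, .ofNat 43, .ofNat 80, .ofNat 0⟩, .q ⟨.ofNat 121, .negSucc
  40, .negSucc 79, .ofNat 0⟩ ⟨.ofNat 13177, .negSucc 11262, .ofNat 1705,
  .negSucc 3618⟩, .q ⟨.ofNat 123, .negSucc 42, .negSucc 79, .ofNat 0⟩
  ⟨.ofNat 13177, .negSucc 11262, .ofNat 1705, .negSucc 3618⟩, .q ⟨.ofNat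
  121, .negSucc 40, .negSucc 79, .ofNat 0⟩ ⟨.negSucc 1136, .negSucc 776,
  .negSucc 1704, .ofNat 3619⟩, .q ⟨.ofNat 123, .negSucc 42, .negSucc 79,
  .ofNat 0⟩ ⟨.negSucc 1136, .negSucc 776, .negSucc 1704, .ofNat 3619⟩, .q
  ⟨.ofNat 121, .negSucc 40, .negSucc 79, .ofNat 0⟩ ⟨.ofNat 947, .ofNat 909,
  .negSucc 1093, .negSucc 761⟩, .q ⟨.ofNat 123, .negSucc 42, .negSucc 79,
  .ofNat 0⟩ ⟨.ofNat 947, .ofNat 909, .negSucc 1093, .negSucc 761⟩],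
[.q ⟨.negSucc 225, .negSucc 253, .ofNat 480, .ofNat 0⟩ ⟨.negSucc 733, .ofNat
  254, .ofNat 480, .ofNat 0⟩, .q ⟨.ofNat 217, .ofNat 263, .negSucc 479,
  .ofNat 0⟩ ⟨.negSucc 742, .ofNat 263, .ofNat 480, .ofNat 0⟩, .q ⟨.ofNat
  734, .negSucc 253, .negSucc 479, .ofNat 0⟩ ⟨.ofNat 1408, .ofNat 588,
  .ofNat 1649, .negSucc 3644⟩, .q ⟨.ofNat 743, .negSucc 262, .negSucc 479,
  .ofNat 0⟩ ⟨.ofNat 1408, .ofNat 588, .ofNat 1649, .negSucc 3644⟩, .q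
  ⟨.ofNat 734, .negSucc 253, .negSucc 479, .ofNat 0⟩ ⟨.negSucc 1176,
  .negSucc 818, .negSucc 1648, .ofNat 3645⟩, .q ⟨.ofNat 743, .negSucc 262,
  .negSucc 479, .ofNat 0⟩ ⟨.negSucc 1176, .negSucc 818, .negSucc 1648,
  .ofNat 3645⟩],
[.q ⟨.negSucc 0, .ofNat 1, .ofNat 0, .ofNat 0⟩ ⟨.negSucc 502, .ofNat 23,
  .ofNat 480, .ofNat 0⟩, .q ⟨.negSucc 0, .ofNat 1, .ofNat 0, .ofNat 0⟩
  ⟨.ofNat 457, .ofNat 23, .negSucc 479, .ofNat 0⟩, .l ⟨.ofNat 0, .ofNat 0,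
  .negSucc 383, .negSucc 232⟩ ⟨.ofNat 0, .ofNat 0, .ofNat 0, .ofNat 1⟩, .l
  ⟨.ofNat 0, .ofNat 0, .ofNat 1920, .ofNat 1439⟩ ⟨.ofNat 0, .ofNat 0, .ofNat
  0, .ofNat 1⟩],
[.q ⟨.negSucc 0, .ofNat 1, .ofNat 0, .ofNat 0⟩ ⟨.negSucc 670, .ofNat 31,
  .ofNat 640, .ofNat 0⟩, .q ⟨.negSucc 0, .ofNat 1, .ofNat 0, .ofNat 0⟩
  ⟨.ofNat 457, .ofNat 23, .negSucc 479, .ofNat 0⟩, .l ⟨.ofNat 0, .ofNat 0,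
  .negSucc 119, .negSucc 72⟩ ⟨.ofNat 0, .ofNat 0, .ofNat 0, .ofNat 1⟩, .l
  ⟨.ofNat 0, .ofNat 0, .ofNat 1920, .ofNat 1439⟩ ⟨.ofNat 0, .ofNat 0, .ofNat
  0, .ofNat 1⟩],
[.q ⟨.negSucc 21, .negSucc 17, .ofNat 40, .ofNat 0⟩ ⟨.negSucc 57, .ofNat 18,
  .ofNat 40, .ofNat 0⟩, .q ⟨.ofNat 19, .ofNat 21, .negSucc 39, .ofNat 0⟩
  ⟨.negSucc 60, .ofNat 21, .ofNat 40, .ofNat 0⟩, .q ⟨.ofNat 58, .negSucc 17,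
  .negSucc 39, .ofNat 0⟩ ⟨.ofNat 2297, .ofNat 2249, .negSucc 589, .negSucc
  3955⟩, .q ⟨.ofNat 61, .negSucc 20, .negSucc 39, .ofNat 0⟩ ⟨.ofNat 2297,
  .ofNat 2249, .negSucc 589, .negSucc 3955⟩, .q ⟨.ofNat 58, .negSucc 17,
  .negSucc 39, .ofNat 0⟩ ⟨.ofNat 10263, .negSucc 14137, .negSucc 122, .ofNat
  3998⟩, .q ⟨.ofNat 61, .negSucc 20, .negSucc 39, .ofNat 0⟩ ⟨.ofNat 10263,
  .negSucc 14137, .negSucc 122, .ofNat 3998⟩, .q ⟨.ofNat 58, .negSucc 17,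
  .negSucc 39, .ofNat 0⟩ ⟨.ofNat 2679, .ofNat 2701, .negSucc 3563, .negSucc
  1815⟩, .q ⟨.ofNat 61, .negSucc 20, .negSucc 39, .ofNat 0⟩ ⟨.ofNat 2679,
  .ofNat 2701, .negSucc 3563, .negSucc 1815⟩, .q ⟨.ofNat 58, .negSucc 17,
  .negSucc 39, .ofNat 0⟩ ⟨.ofNat 1177, .ofNat 898, .negSucc 3668, .ofNat
  1594⟩, .q ⟨.ofNat 61, .negSucc 20, .negSucc 39, .ofNat 0⟩ ⟨.ofNat 1177,
  .ofNat 898, .negSucc 3668, .ofNat 1594⟩],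
[.q ⟨.negSucc 39, .negSucc 39, .ofNat 80, .ofNat 0⟩ ⟨.negSucc 119, .ofNat
  40, .ofNat 80, .ofNat 0⟩, .q ⟨.ofNat 37, .ofNat 43, .negSucc 79, .ofNat 0⟩
  ⟨.negSucc 122, .ofNat 43, .ofNat 80, .ofNat 0⟩, .q ⟨.ofNat 120, .negSucc
  39, .negSucc 79, .ofNat 0⟩ ⟨.ofNat 2721, .ofNat 2704, .negSucc 1909,
  .negSucc 3514⟩, .q ⟨.ofNat 123, .negSucc 42, .negSucc 79, .ofNat 0⟩
  ⟨.ofNat 2721, .ofNat 2704, .negSucc 1909, .negSucc 3514⟩, .q ⟨.ofNat 120,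
  .negSucc 39, .negSucc 79, .ofNat 0⟩ ⟨.negSucc 2540, .negSucc 2883, .ofNat
  1910, .ofNat 3515⟩, .q ⟨.ofNat 123, .negSucc 42, .negSucc 79, .ofNat 0⟩
  ⟨.negSucc 2540, .negSucc 2883, .ofNat 1910, .ofNat 3515⟩, .q ⟨.ofNat 120,
  .negSucc 39, .negSucc 79, .ofNat 0⟩ ⟨.ofNat 2255, .ofNat 2193, .negSucc
  475, .negSucc 3971⟩, .q ⟨.ofNat 123, .negSucc 42, .negSucc 79, .ofNat 0⟩
  ⟨.ofNat 2255, .ofNat 2193, .negSucc 475, .negSucc 3971⟩],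
[.q ⟨.negSucc 38, .negSucc 40, .ofNat 80, .ofNat 0⟩ ⟨.negSucc 120, .ofNat
  41, .ofNat 80, .ofNat 0⟩, .q ⟨.ofNat 35, .ofNat 45, .negSucc 79, .ofNat 0⟩
  ⟨.negSucc 124, .ofNat 45, .ofNat 80, .ofNat 0⟩, .q ⟨.ofNat 121, .negSucc
  40, .negSucc 79, .ofNat 0⟩ ⟨.ofNat 371, .ofNat 129, .ofNat 0, .negSucc
  499⟩, .q ⟨.ofNat 125, .negSucc 44, .negSucc 79, .ofNat 0⟩ ⟨.ofNat 371,
  .ofNat 129, .ofNat 0, .negSucc 499⟩, .q ⟨.ofNat 121, .negSucc 40, .negSucc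
  79, .ofNat 0⟩ ⟨.negSucc 1071, .negSucc 702, .negSucc 1797, .ofNat 3573⟩,
  .q ⟨.ofNat 125, .negSucc 44, .negSucc 79, .ofNat 0⟩ ⟨.negSucc 1071,
  .negSucc 702, .negSucc 1797, .ofNat 3573⟩],
[.q ⟨.ofNat 11, .negSucc 12, .negSucc 17, .ofNat 20⟩ ⟨.ofNat 4721, .negSucc
  1684, .negSucc 1335, .negSucc 1699⟩, .q ⟨.ofNat 11, .negSucc 12, .negSucc
  17, .ofNat 20⟩ ⟨.negSucc 3856, .ofNat 3805, .negSucc 247, .ofNat 300⟩, .q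
  ⟨.ofNat 11, .negSucc 12, .negSucc 17, .ofNat 20⟩ ⟨.negSucc 1039, .ofNat
  79, .ofNat 441, .ofNat 520⟩],
[.q ⟨.negSucc 0, .ofNat 1, .ofNat 0, .ofNat 0⟩ ⟨.negSucc 658, .ofNat 19,
  .ofNat 640, .ofNat 0⟩, .q ⟨.negSucc 0, .ofNat 1, .ofNat 0, .ofNat 0⟩
  ⟨.ofNat 29, .ofNat 1, .negSucc 29, .ofNat 0⟩, .l ⟨.ofNat 0, .ofNat 0,
  .negSucc 959, .negSucc 538⟩ ⟨.ofNat 0, .ofNat 0, .ofNat 0, .ofNat 1⟩, .l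
  ⟨.ofNat 0, .ofNat 0, .ofNat 1920, .ofNat 1487⟩ ⟨.ofNat 0, .ofNat 0, .ofNat
  0, .ofNat 1⟩],
[.q ⟨.negSucc 247, .negSucc 231, .ofNat 480, .ofNat 0⟩ ⟨.negSucc 711, .ofNat
  232, .ofNat 480, .ofNat 0⟩, .q ⟨.ofNat 237, .ofNat 243, .negSucc 479,
  .ofNat 0⟩ ⟨.negSucc 722, .ofNat 243, .ofNat 480, .ofNat 0⟩, .q ⟨.ofNat
  712, .negSucc 231, .negSucc 479, .ofNat 0⟩ ⟨.ofNat 2001, .ofNat 2278,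
  .negSucc 289, .negSucc 3988⟩, .q ⟨.ofNat 723, .negSucc 242, .negSucc 479,
  .ofNat 0⟩ ⟨.ofNat 2001, .ofNat 2278, .negSucc 289, .negSucc 3988⟩, .q
  ⟨.ofNat 712, .negSucc 231, .negSucc 479, .ofNat 0⟩ ⟨.negSucc 208, .negSucc
  678, .negSucc 2348, .ofNat 3237⟩, .q ⟨.ofNat 723, .negSucc 242, .negSucc
  479, .ofNat 0⟩ ⟨.negSucc 208, .negSucc 678, .negSucc 2348, .ofNat 3237⟩],
[.q ⟨.ofNat 17, .negSucc 18, .negSucc 27, .ofNat 30⟩ ⟨.ofNat 445, .ofNat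
  3123, .negSucc 1827, .negSucc 1739⟩, .q ⟨.ofNat 17, .negSucc 18, .negSucc
  27, .ofNat 30⟩ ⟨.negSucc 4546, .ofNat 3334, .ofNat 433, .ofNat 780⟩, .q
  ⟨.ofNat 17, .negSucc 18, .negSucc 27, .ofNat 30⟩ ⟨.negSucc 852, .negSucc
  2916, .ofNat 1790, .ofNat 1980⟩, .q ⟨.ofNat 17, .negSucc 18, .negSucc 27,
  .ofNat 30⟩ ⟨.ofNat 3983, .negSucc 3980, .ofNat 28, .negSucc 29⟩],
[.q ⟨.ofNat 11, .negSucc 12, .negSucc 17, .ofNat 20⟩ ⟨.negSucc 4504, .ofNat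
  1038, .ofNat 1527, .ofNat 1940⟩, .q ⟨.ofNat 11, .negSucc 12, .negSucc 17,
  .ofNat 20⟩ ⟨.negSucc 1463, .negSucc 2548, .ofNat 1973, .ofNat 2040⟩, .q
  ⟨.ofNat 11, .negSucc 12, .negSucc 17, .ofNat 20⟩ ⟨.ofNat 4673, .negSucc
  1409, .negSucc 1522, .negSucc 1739⟩, .q ⟨.ofNat 11, .negSucc 12, .negSucc
  17, .ofNat 20⟩ ⟨.ofNat 317, .ofNat 3212, .negSucc 1908, .negSucc 1619⟩, .q
  ⟨.ofNat 11, .negSucc 12, .negSucc 17, .ofNat 20⟩ ⟨.negSucc 820, .ofNat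
  731, .negSucc 9, .ofNat 100⟩],
[.q ⟨.negSucc 246, .negSucc 232, .ofNat 480, .ofNat 0⟩ ⟨.negSucc 712, .ofNat
  233, .ofNat 480, .ofNat 0⟩, .q ⟨.ofNat 240, .ofNat 240, .negSucc 479,
  .ofNat 0⟩ ⟨.negSucc 719, .ofNat 240, .ofNat 480, .ofNat 0⟩, .q ⟨.ofNat
  713, .negSucc 232, .negSucc 479, .ofNat 0⟩ ⟨.ofNat 12013, .negSucc 9341,
  .ofNat 1158, .negSucc 3828⟩, .q ⟨.ofNat 720, .negSucc 239, .negSucc 479,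
  .ofNat 0⟩ ⟨.ofNat 12013, .negSucc 9341, .ofNat 1158, .negSucc 3828⟩, .q
  ⟨.ofNat 713, .negSucc 232, .negSucc 479, .ofNat 0⟩ ⟨.ofNat 8312, .negSucc
  10982, .negSucc 1157, .ofNat 3829⟩, .q ⟨.ofNat 720, .negSucc 239, .negSucc
  479, .ofNat 0⟩ ⟨.ofNat 8312, .negSucc 10982, .negSucc 1157, .ofNat 3829⟩,
  .q ⟨.ofNat 713, .negSucc 232, .negSucc 479, .ofNat 0⟩ ⟨.ofNat 2689, .ofNat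
  2703, .negSucc 3551, .negSucc 1839⟩, .q ⟨.ofNat 720, .negSucc 239,
  .negSucc 479, .ofNat 0⟩ ⟨.ofNat 2689, .ofNat 2703, .negSucc 3551, .negSucc
  1839⟩, .q ⟨.ofNat 713, .negSucc 232, .negSucc 479, .ofNat 0⟩ ⟨.negSucc
  1389, .negSucc 2032, .negSucc 539, .ofNat 3963⟩, .q ⟨.ofNat 720, .negSucc
  239, .negSucc 479, .ofNat 0⟩ ⟨.negSucc 1389, .negSucc 2032, .negSucc 539,
  .ofNat 3963⟩],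
[.q ⟨.ofNat 17, .negSucc 18, .negSucc 27, .ofNat 30⟩ ⟨.negSucc 2792,
  .negSucc 1348, .ofNat 2012, .ofNat 2130⟩, .q ⟨.ofNat 17, .negSucc 18,
  .negSucc 27, .ofNat 30⟩ ⟨.ofNat 4839, .negSucc 1986, .negSucc 1411,
  .negSucc 1439⟩, .q ⟨.ofNat 17, .negSucc 18, .negSucc 27, .ofNat 30⟩
  ⟨.ofNat 185, .ofNat 3266, .negSucc 1770, .negSucc 1679⟩],
[.q ⟨.ofNat 11, .negSucc 12, .negSucc 17, .ofNat 20⟩ ⟨.ofNat 2981, .ofNat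
  1225, .negSucc 2125, .negSucc 2079⟩, .q ⟨.ofNat 11, .negSucc 12, .negSucc
  17, .ofNat 20⟩ ⟨.negSucc 4010, .ofNat 3719, .negSucc 127, .ofNat 420⟩, .q
  ⟨.ofNat 11, .negSucc 12, .negSucc 17, .ofNat 20⟩ ⟨.negSucc 17, .negSucc
  3376, .ofNat 1815, .ofNat 1580⟩, .q ⟨.ofNat 11, .negSucc 12, .negSucc 17,
  .ofNat 20⟩ ⟨.ofNat 4788, .negSucc 1823, .negSucc 1383, .negSucc 1579⟩],
[.q ⟨.ofNat 11, .negSucc 12, .negSucc 17, .ofNat 20⟩ ⟨.ofNat 974, .ofNat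
  2835, .negSucc 2028, .negSucc 1779⟩, .q ⟨.ofNat 11, .negSucc 12, .negSucc
  17, .ofNat 20⟩ ⟨.negSucc 379, .ofNat 263, .ofNat 37, .ofNat 80⟩, .q
  ⟨.ofNat 11, .negSucc 12, .negSucc 17, .ofNat 20⟩ ⟨.negSucc 1779, .negSucc
  2306, .ofNat 2027, .ofNat 2060⟩, .q ⟨.ofNat 11, .negSucc 12, .negSucc 17,
  .ofNat 20⟩ ⟨.ofNat 4174, .negSucc 319, .negSucc 1833, .negSucc 2019⟩],
[.q ⟨.negSucc 0, .ofNat 1, .ofNat 0, .ofNat 0⟩ ⟨.negSucc 790, .negSucc 168,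
  .ofNat 960, .ofNat 0⟩, .q ⟨.negSucc 0, .ofNat 1, .ofNat 0, .ofNat 0⟩
  ⟨.ofNat 961, .ofNat 959, .negSucc 1919, .ofNat 0⟩, .l ⟨.ofNat 0, .ofNat 0,
  .negSucc 479, .negSucc 52⟩ ⟨.ofNat 0, .ofNat 0, .ofNat 0, .ofNat 1⟩, .l
  ⟨.ofNat 0, .ofNat 0, .ofNat 640, .ofNat 141⟩ ⟨.ofNat 0, .ofNat 0, .ofNat
  0, .ofNat 1⟩],
[.q ⟨.negSucc 0, .ofNat 0, .ofNat 0, .ofNat 1⟩ ⟨.ofNat 688, .negSucc 513,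
  .negSucc 3966, .ofNat 3793⟩, .q ⟨.negSucc 0, .ofNat 0, .ofNat 0, .ofNat 1⟩
  ⟨.negSucc 2137, .ofNat 1910, .ofNat 3515, .negSucc 3286⟩, .q ⟨.negSucc 0,
  .ofNat 0, .ofNat 0, .ofNat 1⟩ ⟨.ofNat 2005, .negSucc 2428, .ofNat 3178,
  .negSucc 2753⟩, .q ⟨.negSucc 0, .ofNat 0, .ofNat 0, .ofNat 1⟩ ⟨.ofNat
  3580, .negSucc 3860, .negSucc 1044, .ofNat 1326⟩],
[.q ⟨.negSucc 0, .ofNat 0, .ofNat 0, .ofNat 1⟩ ⟨.ofNat 2373, .negSucc 2808,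
  .ofNat 2847, .negSucc 2410⟩, .q ⟨.negSucc 0, .ofNat 0, .ofNat 0, .ofNat 1⟩
  ⟨.ofNat 1823, .negSucc 1987, .negSucc 218, .ofNat 384⟩, .q ⟨.negSucc 0,
  .ofNat 0, .ofNat 0, .ofNat 1⟩ ⟨.ofNat 2017, .negSucc 1987, .negSucc 3470,
  .ofNat 3442⟩, .q ⟨.negSucc 0, .ofNat 0, .ofNat 0, .ofNat 1⟩ ⟨.negSucc
  1450, .ofNat 1414, .ofNat 1414, .negSucc 1376⟩],
[.q ⟨.negSucc 0, .ofNat 0, .ofNat 0, .ofNat 1⟩ ⟨.ofNat 411, .ofNat 0,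
  .negSucc 3999, .ofNat 3589⟩, .q ⟨.negSucc 0, .ofNat 0, .ofNat 0, .ofNat 1⟩
  ⟨.negSucc 3408, .ofNat 3820, .negSucc 1185, .ofNat 775⟩, .q ⟨.negSucc 0,
  .ofNat 0, .ofNat 0, .ofNat 1⟩ ⟨.negSucc 103, .ofNat 101, .ofNat 101,
  .negSucc 97⟩, .q ⟨.negSucc 0, .ofNat 0, .ofNat 0, .ofNat 1⟩ ⟨.ofNat 2471,
  .negSucc 3772, .ofNat 1328, .negSucc 25⟩],
[.l ⟨.ofNat 0, .negSucc 3997, .negSucc 114, .ofNat 99⟩ ⟨.ofNat 0, .ofNat 0,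
  .ofNat 0, .ofNat 1⟩, .l ⟨.ofNat 0, .negSucc 17, .negSucc 3999, .negSucc
  416⟩ ⟨.ofNat 0, .ofNat 0, .ofNat 0, .ofNat 1⟩, .l ⟨.ofNat 0, .ofNat 1312,
  .ofNat 237, .ofNat 141⟩ ⟨.ofNat 0, .ofNat 0, .ofNat 0, .ofNat 1⟩],
[.l ⟨.ofNat 0, .ofNat 0, .ofNat 1000, .ofNat 31⟩ ⟨.ofNat 0, .ofNat 0, .ofNat
  0, .ofNat 1⟩, .l ⟨.ofNat 0, .negSucc 3394, .ofNat 2115, .ofNat 107⟩
  ⟨.ofNat 0, .ofNat 0, .ofNat 0, .ofNat 1⟩, .l ⟨.ofNat 0, .negSucc 2571,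
  .negSucc 3063, .ofNat 9⟩ ⟨.ofNat 0, .ofNat 0, .ofNat 0, .ofNat 1⟩, .l
  ⟨.ofNat 0, .ofNat 1814, .negSucc 3564, .ofNat 116⟩ ⟨.ofNat 0, .ofNat 0,
  .ofNat 0, .ofNat 1⟩],
[.l ⟨.ofNat 0, .ofNat 3229, .ofNat 2361, .ofNat 2426⟩ ⟨.ofNat 0, .ofNat 0,
  .ofNat 0, .ofNat 1⟩, .l ⟨.ofNat 0, .negSucc 920, .ofNat 3893, .ofNat 3912⟩
  ⟨.ofNat 0, .ofNat 0, .ofNat 0, .ofNat 1⟩, .l ⟨.ofNat 0, .negSucc 3784,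
  .negSucc 1294, .negSucc 1216⟩ ⟨.ofNat 0, .ofNat 0, .ofNat 0, .ofNat 1⟩, .l
  ⟨.ofNat 0, .ofNat 2031, .negSucc 3445, .negSucc 3130⟩ ⟨.ofNat 0, .ofNat 0,
  .ofNat 0, .ofNat 1⟩],
[.l ⟨.ofNat 0, .ofNat 0, .negSucc 1999, .negSucc 208⟩ ⟨.ofNat 0, .ofNat 0,
  .ofNat 0, .ofNat 1⟩, .l ⟨.ofNat 0, .ofNat 707, .ofNat 707, .ofNat 589⟩
  ⟨.ofNat 0, .ofNat 0, .ofNat 0, .ofNat 1⟩, .l ⟨.ofNat 0, .negSucc 3998,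
  .negSucc 100, .ofNat 103⟩ ⟨.ofNat 0, .ofNat 0, .ofNat 0, .ofNat 1⟩, .l
  ⟨.ofNat 0, .negSucc 2974, .negSucc 2673, .negSucc 197⟩ ⟨.ofNat 0, .ofNat
  0, .ofNat 0, .ofNat 1⟩],
[.q ⟨.negSucc 0, .ofNat 0, .ofNat 0, .ofNat 1⟩ ⟨.negSucc 1442, .ofNat 1414,
  .negSucc 1413, .ofNat 1443⟩, .q ⟨.negSucc 0, .ofNat 0, .ofNat 0, .ofNat 1⟩
  ⟨.negSucc 2626, .ofNat 2566, .ofNat 3069, .negSucc 3007⟩, .q ⟨.negSucc 0,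
  .ofNat 0, .ofNat 0, .ofNat 1⟩ ⟨.ofNat 3078, .negSucc 3516, .ofNat 1906,
  .negSucc 1466⟩, .q ⟨.negSucc 0, .ofNat 0, .ofNat 0, .ofNat 1⟩ ⟨.ofNat
  1691, .negSucc 1796, .negSucc 877, .ofNat 984⟩],
[.q ⟨.negSucc 0, .ofNat 0, .ofNat 0, .ofNat 1⟩ ⟨.ofNat 3194, .negSucc 3596,
  .negSucc 1748, .ofNat 2152⟩, .q ⟨.negSucc 0, .ofNat 0, .ofNat 0, .ofNat 1⟩
  ⟨.ofNat 998, .negSucc 822, .negSucc 3913, .ofNat 3739⟩, .q ⟨.negSucc 0,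
  .ofNat 0, .ofNat 0, .ofNat 1⟩ ⟨.negSucc 1157, .ofNat 1331, .ofNat 80,
  .negSucc 252⟩, .q ⟨.negSucc 0, .ofNat 0, .ofNat 0, .ofNat 1⟩ ⟨.negSucc
  2960, .ofNat 2942, .ofNat 2710, .negSucc 2690⟩],
[.l ⟨.ofNat 0, .ofNat 3674, .negSucc 1580, .ofNat 2258⟩ ⟨.ofNat 0, .ofNat 0,
  .ofNat 0, .ofNat 1⟩, .l ⟨.ofNat 0, .ofNat 166, .ofNat 3997, .ofNat 1656⟩
  ⟨.ofNat 0, .ofNat 0, .ofNat 0, .ofNat 1⟩, .l ⟨.ofNat 0, .negSucc 3999,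
  .ofNat 23, .ofNat 119⟩ ⟨.ofNat 0, .ofNat 0, .ofNat 0, .ofNat 1⟩, .l
  ⟨.ofNat 0, .negSucc 1413, .negSucc 1413, .negSucc 112⟩ ⟨.ofNat 0, .ofNat
  0, .ofNat 0, .ofNat 1⟩, .l ⟨.ofNat 0, .ofNat 587, .negSucc 3956, .negSucc
  428⟩ ⟨.ofNat 0, .ofNat 0, .ofNat 0, .ofNat 1⟩],
[.q ⟨.negSucc 0, .ofNat 0, .ofNat 0, .ofNat 1⟩ ⟨.negSucc 2428, .ofNat 2330,
  .ofNat 3251, .negSucc 3151⟩, .q ⟨.negSucc 0, .ofNat 0, .ofNat 0, .ofNat 1⟩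
  ⟨.ofNat 3025, .negSucc 3464, .ofNat 1998, .negSucc 1557⟩, .q ⟨.negSucc 0,
  .ofNat 0, .ofNat 0, .ofNat 1⟩ ⟨.ofNat 3640, .negSucc 3960, .negSucc 559,
  .ofNat 881⟩, .q ⟨.negSucc 0, .ofNat 0, .ofNat 0, .ofNat 1⟩ ⟨.ofNat 1431,
  .negSucc 1385, .negSucc 3751, .ofNat 3707⟩],
[.q ⟨.negSucc 0, .ofNat 0, .ofNat 0, .ofNat 1⟩ ⟨.ofNat 3562, .negSucc 3834,
  .negSucc 1136, .ofNat 1410⟩, .q ⟨.negSucc 0, .ofNat 0, .ofNat 0, .ofNat 1⟩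
  ⟨.negSucc 3474, .ofNat 3582, .negSucc 1780, .ofNat 1674⟩, .q ⟨.negSucc 0,
  .ofNat 0, .ofNat 0, .ofNat 1⟩ ⟨.negSucc 2715, .ofNat 2615, .ofNat 3027,
  .negSucc 2925⟩, .q ⟨.negSucc 0, .ofNat 0, .ofNat 0, .ofNat 1⟩ ⟨.ofNat
  2391, .negSucc 2827, .ofNat 2828, .negSucc 2390⟩],
[.q ⟨.negSucc 230, .negSucc 248, .ofNat 480, .ofNat 0⟩ ⟨.negSucc 728, .ofNat
  249, .ofNat 480, .ofNat 0⟩, .q ⟨.ofNat 221, .ofNat 259, .negSucc 479,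
  .ofNat 0⟩ ⟨.negSucc 738, .ofNat 259, .ofNat 480, .ofNat 0⟩, .q ⟨.ofNat
  729, .negSucc 248, .negSucc 479, .ofNat 0⟩ ⟨.ofNat 351, .negSucc 190,
  .ofNat 0, .negSucc 159⟩, .q ⟨.ofNat 739, .negSucc 258, .negSucc 479,
  .ofNat 0⟩ ⟨.ofNat 351, .negSucc 190, .ofNat 0, .negSucc 159⟩, .q ⟨.ofNat
  729, .negSucc 248, .negSucc 479, .ofNat 0⟩ ⟨.ofNat 2871, .negSucc 4126,
  .ofNat 303, .ofNat 953⟩, .q ⟨.ofNat 739, .negSucc 258, .negSucc 479,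
  .ofNat 0⟩ ⟨.ofNat 2871, .negSucc 4126, .ofNat 303, .ofNat 953⟩, .q ⟨.ofNat
  729, .negSucc 248, .negSucc 479, .ofNat 0⟩ ⟨.ofNat 1127, .ofNat 3775,
  .negSucc 1038, .negSucc 3862⟩, .q ⟨.ofNat 739, .negSucc 258, .negSucc 479,
  .ofNat 0⟩ ⟨.ofNat 1127, .ofNat 3775, .negSucc 1038, .negSucc 3862⟩, .q
  ⟨.ofNat 729, .negSucc 248, .negSucc 479, .ofNat 0⟩ ⟨.ofNat 131, .negSucc
  1953, .negSucc 169, .ofNat 1993⟩, .q ⟨.ofNat 739, .negSucc 258, .negSucc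
  479, .ofNat 0⟩ ⟨.ofNat 131, .negSucc 1953, .negSucc 169, .ofNat 1993⟩],
[.q ⟨.negSucc 0, .ofNat 0, .ofNat 0, .ofNat 1⟩ ⟨.negSucc 3149, .ofNat 3289,
  .ofNat 2276, .negSucc 2414⟩, .q ⟨.negSucc 0, .ofNat 0, .ofNat 0, .ofNat 1⟩
  ⟨.ofNat 3249, .negSucc 3680, .ofNat 1565, .negSucc 1132⟩, .q ⟨.negSucc 0,
  .ofNat 0, .ofNat 0, .ofNat 1⟩ ⟨.ofNat 91, .negSucc 99, .ofNat 0, .ofNat
  9⟩, .q ⟨.negSucc 0, .ofNat 0, .ofNat 0, .ofNat 1⟩ ⟨.negSucc 1332, .ofNat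
  1276, .negSucc 3790, .ofNat 3848⟩],
[.q ⟨.negSucc 178, .negSucc 140, .ofNat 320, .ofNat 0⟩ ⟨.negSucc 460, .ofNat
  141, .ofNat 320, .ofNat 0⟩, .q ⟨.ofNat 176, .ofNat 144, .negSucc 319,
  .ofNat 0⟩ ⟨.negSucc 463, .ofNat 144, .ofNat 320, .ofNat 0⟩, .q ⟨.ofNat
  461, .negSucc 140, .negSucc 319, .ofNat 0⟩ ⟨.ofNat 716, .ofNat 3729,
  .negSucc 472, .negSucc 3971⟩, .q ⟨.ofNat 464, .negSucc 143, .negSucc 319,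
  .ofNat 0⟩ ⟨.ofNat 716, .ofNat 3729, .negSucc 472, .negSucc 3971⟩, .q
  ⟨.ofNat 461, .negSucc 140, .negSucc 319, .ofNat 0⟩ ⟨.ofNat 832, .negSucc
  2330, .negSucc 1977, .ofNat 3477⟩, .q ⟨.ofNat 464, .negSucc 143, .negSucc
  319, .ofNat 0⟩ ⟨.ofNat 832, .negSucc 2330, .negSucc 1977, .ofNat 3477⟩],
[.q ⟨.negSucc 534, .negSucc 424, .ofNat 960, .ofNat 0⟩ ⟨.negSucc 1384,
  .ofNat 425, .ofNat 960, .ofNat 0⟩, .q ⟨.ofNat 526, .ofNat 434, .negSucc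
  959, .ofNat 0⟩ ⟨.negSucc 1393, .ofNat 434, .ofNat 960, .ofNat 0⟩, .q
  ⟨.ofNat 1385, .negSucc 424, .negSucc 959, .ofNat 0⟩ ⟨.ofNat 229, .ofNat
  1771, .ofNat 0, .negSucc 1999⟩, .q ⟨.ofNat 1394, .negSucc 433, .negSucc
  959, .ofNat 0⟩ ⟨.ofNat 229, .ofNat 1771, .ofNat 0, .negSucc 1999⟩, .q
  ⟨.ofNat 1385, .negSucc 424, .negSucc 959, .ofNat 0⟩ ⟨.negSucc 296,
  .negSucc 3702, .ofNat 0, .ofNat 4000⟩, .q ⟨.ofNat 1394, .negSucc 433,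
  .negSucc 959, .ofNat 0⟩ ⟨.negSucc 296, .negSucc 3702, .ofNat 0, .ofNat
  4000⟩],
[.l ⟨.ofNat 0, .negSucc 3378, .negSucc 2140, .negSucc 118⟩ ⟨.ofNat 0, .ofNat
  0, .ofNat 0, .ofNat 1⟩, .l ⟨.ofNat 0, .ofNat 707, .negSucc 706, .negSucc
  8⟩ ⟨.ofNat 0, .ofNat 0, .ofNat 0, .ofNat 1⟩, .l ⟨.ofNat 0, .ofNat 707,
  .ofNat 707, .ofNat 53⟩ ⟨.ofNat 0, .ofNat 0, .ofNat 0, .ofNat 1⟩, .l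
  ⟨.ofNat 0, .negSucc 2827, .ofNat 2828, .ofNat 351⟩ ⟨.ofNat 0, .ofNat 0,
  .ofNat 0, .ofNat 1⟩],
[.q ⟨.negSucc 2, .negSucc 236, .ofNat 240, .ofNat 0⟩ ⟨.negSucc 476, .ofNat
  237, .ofNat 240, .ofNat 0⟩, .q ⟨.ofNat 1, .ofNat 239, .negSucc 239, .ofNat
  0⟩ ⟨.negSucc 478, .ofNat 239, .ofNat 240, .ofNat 0⟩, .q ⟨.ofNat 477,
  .negSucc 236, .negSucc 239, .ofNat 0⟩ ⟨.ofNat 128, .negSucc 2, .ofNat 0,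
  .negSucc 124⟩, .q ⟨.ofNat 479, .negSucc 238, .negSucc 239, .ofNat 0⟩
  ⟨.ofNat 128, .negSucc 2, .ofNat 0, .negSucc 124⟩, .q ⟨.ofNat 477, .negSucc
  236, .negSucc 239, .ofNat 0⟩ ⟨.negSucc 1856, .negSucc 142, .ofNat 0,
  .ofNat 2000⟩, .q ⟨.ofNat 479, .negSucc 238, .negSucc 239, .ofNat 0⟩
  ⟨.negSucc 1856, .negSucc 142, .ofNat 0, .ofNat 2000⟩, .q ⟨.ofNat 477,
  .negSucc 236, .negSucc 239, .ofNat 0⟩ ⟨.negSucc 1814, .ofNat 3304,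
  .negSucc 3472, .ofNat 1984⟩, .q ⟨.ofNat 479, .negSucc 238, .negSucc 239,
  .ofNat 0⟩ ⟨.negSucc 1814, .ofNat 3304, .negSucc 3472, .ofNat 1984⟩],
[.q ⟨.negSucc 539, .negSucc 419, .ofNat 960, .ofNat 0⟩ ⟨.negSucc 1379,
  .ofNat 420, .ofNat 960, .ofNat 0⟩, .q ⟨.ofNat 533, .ofNat 427, .negSucc
  959, .ofNat 0⟩ ⟨.negSucc 1386, .ofNat 427, .ofNat 960, .ofNat 0⟩, .q
  ⟨.ofNat 1380, .negSucc 419, .negSucc 959, .ofNat 0⟩ ⟨.ofNat 187, .ofNat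
  1813, .ofNat 0, .negSucc 1999⟩, .q ⟨.ofNat 1387, .negSucc 426, .negSucc
  959, .ofNat 0⟩ ⟨.ofNat 187, .ofNat 1813, .ofNat 0, .negSucc 1999⟩, .q
  ⟨.ofNat 1380, .negSucc 419, .negSucc 959, .ofNat 0⟩ ⟨.ofNat 818, .negSucc
  2314, .negSucc 1978, .ofNat 3476⟩, .q ⟨.ofNat 1387, .negSucc 426, .negSucc
  959, .ofNat 0⟩ ⟨.ofNat 818, .negSucc 2314, .negSucc 1978, .ofNat 3476⟩],
[.q ⟨.negSucc 9, .negSucc 949, .ofNat 960, .ofNat 0⟩ ⟨.negSucc 1909, .ofNat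
  950, .ofNat 960, .ofNat 0⟩, .q ⟨.ofNat 3, .ofNat 957, .negSucc 959, .ofNat
  0⟩ ⟨.negSucc 1916, .ofNat 957, .ofNat 960, .ofNat 0⟩, .q ⟨.ofNat 1910,
  .negSucc 949, .negSucc 959, .ofNat 0⟩ ⟨.ofNat 3991, .negSucc 3831, .ofNat
  860, .negSucc 1018⟩, .q ⟨.ofNat 1917, .negSucc 956, .negSucc 959, .ofNat
  0⟩ ⟨.ofNat 3991, .negSucc 3831, .ofNat 860, .negSucc 1018⟩, .q ⟨.ofNat
  1910, .negSucc 949, .negSucc 959, .ofNat 0⟩ ⟨.negSucc 3712, .negSucc 362,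
  .ofNat 77, .ofNat 3999⟩, .q ⟨.ofNat 1917, .negSucc 956, .negSucc 959,
  .ofNat 0⟩ ⟨.negSucc 3712, .negSucc 362, .ofNat 77, .ofNat 3999⟩, .q
  ⟨.ofNat 1910, .negSucc 949, .negSucc 959, .ofNat 0⟩ ⟨.ofNat 1878, .ofNat
  780, .negSucc 844, .negSucc 1812⟩, .q ⟨.ofNat 1917, .negSucc 956, .negSucc
  959, .ofNat 0⟩ ⟨.ofNat 1878, .ofNat 780, .negSucc 844, .negSucc 1812⟩, .q
  ⟨.ofNat 1910, .negSucc 949, .negSucc 959, .ofNat 0⟩ ⟨.negSucc 395, .ofNat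
  863, .negSucc 900, .ofNat 434⟩, .q ⟨.ofNat 1917, .negSucc 956, .negSucc
  959, .ofNat 0⟩ ⟨.negSucc 395, .ofNat 863, .negSucc 900, .ofNat 434⟩],
[.q ⟨.negSucc 7, .negSucc 471, .ofNat 480, .ofNat 0⟩ ⟨.negSucc 951, .ofNat
  472, .ofNat 480, .ofNat 0⟩, .q ⟨.ofNat 1, .ofNat 479, .negSucc 479, .ofNat
  0⟩ ⟨.negSucc 958, .ofNat 479, .ofNat 480, .ofNat 0⟩, .q ⟨.ofNat 952,
  .negSucc 471, .negSucc 479, .ofNat 0⟩ ⟨.ofNat 15721, .negSucc 11720,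
  .ofNat 0, .negSucc 3999⟩, .q ⟨.ofNat 959, .negSucc 478, .negSucc 479,
  .ofNat 0⟩ ⟨.ofNat 15721, .negSucc 11720, .ofNat 0, .negSucc 3999⟩, .q
  ⟨.ofNat 952, .negSucc 471, .negSucc 479, .ofNat 0⟩ ⟨.negSucc 3586,
  .negSucc 1332, .ofNat 1064, .ofNat 3856⟩, .q ⟨.ofNat 959, .negSucc 478,
  .negSucc 479, .ofNat 0⟩ ⟨.negSucc 3586, .negSucc 1332, .ofNat 1064, .ofNat
  3856⟩, .q ⟨.ofNat 952, .negSucc 471, .negSucc 479, .ofNat 0⟩ ⟨.ofNat 1613,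
  .ofNat 3627, .negSucc 3685, .negSucc 1553⟩, .q ⟨.ofNat 959, .negSucc 478,
  .negSucc 479, .ofNat 0⟩ ⟨.ofNat 1613, .ofNat 3627, .negSucc 3685, .negSucc
  1553⟩, .q ⟨.ofNat 952, .negSucc 471, .negSucc 479, .ofNat 0⟩ ⟨.negSucc
  3140, .ofNat 1848, .negSucc 2106, .ofNat 3400⟩, .q ⟨.ofNat 959, .negSucc
  478, .negSucc 479, .ofNat 0⟩ ⟨.negSucc 3140, .ofNat 1848, .negSucc 2106,
  .ofNat 3400⟩],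
[.q ⟨.negSucc 7, .negSucc 471, .ofNat 480, .ofNat 0⟩ ⟨.negSucc 951, .ofNat
  472, .ofNat 480, .ofNat 0⟩, .q ⟨.ofNat 1, .ofNat 479, .negSucc 479, .ofNat
  0⟩ ⟨.negSucc 958, .ofNat 479, .ofNat 480, .ofNat 0⟩, .q ⟨.ofNat 952,
  .negSucc 471, .negSucc 479, .ofNat 0⟩ ⟨.ofNat 15723, .negSucc 11722,
  .ofNat 0, .negSucc 3999⟩, .q ⟨.ofNat 959, .negSucc 478, .negSucc 479,
  .ofNat 0⟩ ⟨.ofNat 15723, .negSucc 11722, .ofNat 0, .negSucc 3999⟩, .q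
  ⟨.ofNat 952, .negSucc 471, .negSucc 479, .ofNat 0⟩ ⟨.negSucc 3716,
  .negSucc 282, .ofNat 0, .ofNat 4000⟩, .q ⟨.ofNat 959, .negSucc 478,
  .negSucc 479, .ofNat 0⟩ ⟨.negSucc 3716, .negSucc 282, .ofNat 0, .ofNat
  4000⟩, .q ⟨.ofNat 952, .negSucc 471, .negSucc 479, .ofNat 0⟩ ⟨.ofNat 4007,
  .negSucc 655, .ofNat 603, .negSucc 3953⟩, .q ⟨.ofNat 959, .negSucc 478,
  .negSucc 479, .ofNat 0⟩ ⟨.ofNat 4007, .negSucc 655, .ofNat 603, .negSucc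
  3953⟩, .q ⟨.ofNat 952, .negSucc 471, .negSucc 479, .ofNat 0⟩ ⟨.negSucc
  2139, .ofNat 3037, .negSucc 3240, .ofNat 2344⟩, .q ⟨.ofNat 959, .negSucc
  478, .negSucc 479, .ofNat 0⟩ ⟨.negSucc 2139, .ofNat 3037, .negSucc 3240,
  .ofNat 2344⟩],
[.q ⟨.negSucc 0, .ofNat 1, .ofNat 0, .ofNat 0⟩ ⟨.negSucc 492, .ofNat 13,
  .ofNat 480, .ofNat 0⟩, .q ⟨.negSucc 0, .ofNat 1, .ofNat 0, .ofNat 0⟩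
  ⟨.ofNat 1861, .ofNat 59, .negSucc 1919, .ofNat 0⟩, .l ⟨.ofNat 0, .ofNat 0,
  .negSucc 1919, .negSucc 1062⟩ ⟨.ofNat 0, .ofNat 0, .ofNat 0, .ofNat 1⟩, .l
  ⟨.ofNat 0, .ofNat 0, .ofNat 320, .ofNat 249⟩ ⟨.ofNat 0, .ofNat 0, .ofNat
  0, .ofNat 1⟩],
[.l ⟨.ofNat 0, .ofNat 480, .ofNat 0, .negSucc 409⟩ ⟨.ofNat 0, .ofNat 480,
  .ofNat 0, .ofNat 410⟩, .l ⟨.ofNat 0, .negSucc 479, .ofNat 0, .ofNat 417⟩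
  ⟨.ofNat 0, .ofNat 480, .ofNat 0, .ofNat 417⟩, .l ⟨.ofNat 0, .ofNat 480,
  .ofNat 0, .negSucc 409⟩ ⟨.ofNat 0, .negSucc 234, .ofNat 3993, .ofNat
  1862⟩, .l ⟨.ofNat 0, .ofNat 480, .ofNat 0, .negSucc 416⟩ ⟨.ofNat 0,
  .negSucc 234, .ofNat 3993, .ofNat 1862⟩, .l ⟨.ofNat 0, .ofNat 480, .ofNat
  0, .negSucc 409⟩ ⟨.ofNat 0, .ofNat 235, .negSucc 3992, .negSucc 3131⟩, .l
  ⟨.ofNat 0, .ofNat 480, .ofNat 0, .negSucc 416⟩ ⟨.ofNat 0, .ofNat 235,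
  .negSucc 3992, .negSucc 3131⟩],
[.q ⟨.negSucc 0, .ofNat 1, .ofNat 0, .ofNat 0⟩ ⟨.negSucc 678, .ofNat 39,
  .ofNat 640, .ofNat 0⟩, .q ⟨.negSucc 0, .ofNat 1, .ofNat 0, .ofNat 0⟩
  ⟨.ofNat 601, .ofNat 39, .negSucc 639, .ofNat 0⟩, .l ⟨.ofNat 0, .ofNat 0,
  .negSucc 1919, .negSucc 1240⟩ ⟨.ofNat 0, .ofNat 0, .ofNat 0, .ofNat 1⟩, .l
  ⟨.ofNat 0, .ofNat 0, .ofNat 480, .ofNat 353⟩ ⟨.ofNat 0, .ofNat 0, .ofNat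
  0, .ofNat 1⟩],
[.l ⟨.ofNat 0, .ofNat 960, .ofNat 0, .negSucc 847⟩ ⟨.ofNat 0, .ofNat 960,
  .ofNat 0, .ofNat 848⟩, .l ⟨.ofNat 0, .negSucc 959, .ofNat 0, .ofNat 859⟩
  ⟨.ofNat 0, .ofNat 960, .ofNat 0, .ofNat 859⟩, .l ⟨.ofNat 0, .ofNat 960,
  .ofNat 0, .negSucc 847⟩ ⟨.ofNat 0, .ofNat 820, .ofNat 1824, .ofNat 2351⟩,
  .l ⟨.ofNat 0, .ofNat 960, .ofNat 0, .negSucc 858⟩ ⟨.ofNat 0, .ofNat 820,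
  .ofNat 1824, .ofNat 2351⟩, .l ⟨.ofNat 0, .ofNat 960, .ofNat 0, .negSucc
  847⟩ ⟨.ofNat 0, .ofNat 1691, .negSucc 3624, .negSucc 1928⟩, .l ⟨.ofNat 0,
  .ofNat 960, .ofNat 0, .negSucc 858⟩ ⟨.ofNat 0, .ofNat 1691, .negSucc 3624,
  .negSucc 1928⟩],
[.l ⟨.ofNat 0, .ofNat 960, .ofNat 0, .negSucc 834⟩ ⟨.ofNat 0, .ofNat 960,
  .ofNat 0, .ofNat 835⟩, .l ⟨.ofNat 0, .negSucc 959, .ofNat 0, .ofNat 846⟩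
  ⟨.ofNat 0, .ofNat 960, .ofNat 0, .ofNat 846⟩, .l ⟨.ofNat 0, .ofNat 960,
  .ofNat 0, .negSucc 834⟩ ⟨.ofNat 0, .ofNat 0, .ofNat 1000, .negSucc 2102⟩,
  .l ⟨.ofNat 0, .ofNat 960, .ofNat 0, .negSucc 845⟩ ⟨.ofNat 0, .ofNat 0,
  .ofNat 1000, .negSucc 2102⟩, .l ⟨.ofNat 0, .ofNat 960, .ofNat 0, .negSucc
  834⟩ ⟨.ofNat 0, .ofNat 309, .negSucc 737, .negSucc 427⟩, .l ⟨.ofNat 0,
  .ofNat 960, .ofNat 0, .negSucc 845⟩ ⟨.ofNat 0, .ofNat 309, .negSucc 737,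
  .negSucc 427⟩, .l ⟨.ofNat 0, .ofNat 960, .ofNat 0, .negSucc 834⟩ ⟨.ofNat
  0, .ofNat 1357, .ofNat 3763, .ofNat 4557⟩, .l ⟨.ofNat 0, .ofNat 960,
  .ofNat 0, .negSucc 845⟩ ⟨.ofNat 0, .ofNat 1357, .ofNat 3763, .ofNat
  4557⟩],
[.l ⟨.ofNat 0, .ofNat 960, .ofNat 0, .negSucc 845⟩ ⟨.ofNat 0, .ofNat 960,
  .ofNat 0, .ofNat 846⟩, .l ⟨.ofNat 0, .negSucc 959, .ofNat 0, .ofNat 857⟩
  ⟨.ofNat 0, .ofNat 960, .ofNat 0, .ofNat 857⟩, .l ⟨.ofNat 0, .ofNat 960,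
  .ofNat 0, .negSucc 845⟩ ⟨.ofNat 0, .ofNat 0, .ofNat 4000, .ofNat 3557⟩, .l
  ⟨.ofNat 0, .ofNat 960, .ofNat 0, .negSucc 856⟩ ⟨.ofNat 0, .ofNat 0, .ofNat
  4000, .ofNat 3557⟩, .l ⟨.ofNat 0, .ofNat 960, .ofNat 0, .negSucc 845⟩
  ⟨.ofNat 0, .ofNat 2633, .negSucc 3010, .negSucc 505⟩, .l ⟨.ofNat 0, .ofNat
  960, .ofNat 0, .negSucc 856⟩ ⟨.ofNat 0, .ofNat 2633, .negSucc 3010,
  .negSucc 505⟩, .l ⟨.ofNat 0, .ofNat 960, .ofNat 0, .negSucc 845⟩ ⟨.ofNat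
  0, .ofNat 2624, .ofNat 3019, .ofNat 5014⟩, .l ⟨.ofNat 0, .ofNat 960,
  .ofNat 0, .negSucc 856⟩ ⟨.ofNat 0, .ofNat 2624, .ofNat 3019, .ofNat
  5014⟩],
[.l ⟨.ofNat 0, .ofNat 80, .ofNat 0, .negSucc 67⟩ ⟨.ofNat 0, .ofNat 80,
  .ofNat 0, .ofNat 68⟩, .l ⟨.ofNat 0, .negSucc 79, .ofNat 0, .ofNat 71⟩
  ⟨.ofNat 0, .ofNat 80, .ofNat 0, .ofNat 71⟩, .l ⟨.ofNat 0, .ofNat 80,
  .ofNat 0, .negSucc 67⟩ ⟨.ofNat 0, .ofNat 0, .ofNat 4000, .ofNat 3601⟩, .l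
  ⟨.ofNat 0, .ofNat 80, .ofNat 0, .negSucc 70⟩ ⟨.ofNat 0, .ofNat 0, .ofNat
  4000, .ofNat 3601⟩, .l ⟨.ofNat 0, .ofNat 80, .ofNat 0, .negSucc 67⟩
  ⟨.ofNat 0, .ofNat 137, .negSucc 3997, .negSucc 4135⟩, .l ⟨.ofNat 0, .ofNat
  80, .ofNat 0, .negSucc 70⟩ ⟨.ofNat 0, .ofNat 137, .negSucc 3997, .negSucc
  4135⟩, .l ⟨.ofNat 0, .ofNat 80, .ofNat 0, .negSucc 67⟩ ⟨.ofNat 0, .ofNat
  3125, .ofNat 2497, .ofNat 4957⟩, .l ⟨.ofNat 0, .ofNat 80, .ofNat 0,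
  .negSucc 70⟩ ⟨.ofNat 0, .ofNat 3125, .ofNat 2497, .ofNat 4957⟩],
[.l ⟨.ofNat 0, .negSucc 3920, .ofNat 793, .ofNat 81⟩ ⟨.ofNat 0, .ofNat 0,
  .ofNat 0, .ofNat 1⟩, .l ⟨.ofNat 0, .negSucc 1160, .negSucc 3827, .ofNat
  40⟩ ⟨.ofNat 0, .ofNat 0, .ofNat 0, .ofNat 1⟩, .l ⟨.ofNat 0, .ofNat 2468,
  .negSucc 3147, .ofNat 129⟩ ⟨.ofNat 0, .ofNat 0, .ofNat 0, .ofNat 1⟩, .l
  ⟨.ofNat 0, .ofNat 858, .ofNat 3907, .ofNat 157⟩ ⟨.ofNat 0, .ofNat 0,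
  .ofNat 0, .ofNat 1⟩],
[.q ⟨.negSucc 0, .ofNat 0, .ofNat 0, .ofNat 1⟩ ⟨.negSucc 1144, .ofNat 898,
  .ofNat 3898, .negSucc 3650⟩, .q ⟨.negSucc 0, .ofNat 0, .ofNat 0, .ofNat 1⟩
  ⟨.ofNat 3397, .negSucc 3999, .ofNat 0, .ofNat 603⟩, .q ⟨.negSucc 0, .ofNat
  0, .ofNat 0, .ofNat 1⟩ ⟨.ofNat 1049, .negSucc 882, .negSucc 3900, .ofNat
  3735⟩, .q ⟨.negSucc 0, .ofNat 0, .ofNat 0, .ofNat 1⟩ ⟨.negSucc 249, .ofNat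
  453, .negSucc 1947, .ofNat 1745⟩],
[.q ⟨.negSucc 537, .negSucc 421, .ofNat 960, .ofNat 0⟩ ⟨.negSucc 1381,
  .ofNat 422, .ofNat 960, .ofNat 0⟩, .q ⟨.ofNat 529, .ofNat 431, .negSucc
  959, .ofNat 0⟩ ⟨.negSucc 1390, .ofNat 431, .ofNat 960, .ofNat 0⟩, .q
  ⟨.ofNat 1382, .negSucc 421, .negSucc 959, .ofNat 0⟩ ⟨.ofNat 113, .ofNat
  887, .ofNat 0, .negSucc 999⟩, .q ⟨.ofNat 1391, .negSucc 430, .negSucc 959,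
  .ofNat 0⟩ ⟨.ofNat 113, .ofNat 887, .ofNat 0, .negSucc 999⟩, .q ⟨.ofNat
  1382, .negSucc 421, .negSucc 959, .ofNat 0⟩ ⟨.negSucc 322, .negSucc 3676,
  .ofNat 0, .ofNat 4000⟩, .q ⟨.ofNat 1391, .negSucc 430, .negSucc 959,
  .ofNat 0⟩ ⟨.negSucc 322, .negSucc 3676, .ofNat 0, .ofNat 4000⟩],
[.q ⟨.negSucc 10, .negSucc 8, .ofNat 20, .ofNat 0⟩ ⟨.negSucc 28, .ofNat 9,
  .ofNat 20, .ofNat 0⟩, .q ⟨.ofNat 8, .ofNat 12, .negSucc 19, .ofNat 0⟩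
  ⟨.negSucc 31, .ofNat 12, .ofNat 20, .ofNat 0⟩, .q ⟨.ofNat 29, .negSucc 8,
  .negSucc 19, .ofNat 0⟩ ⟨.ofNat 246, .ofNat 121, .ofNat 2639, .negSucc
  3005⟩, .q ⟨.ofNat 32, .negSucc 11, .negSucc 19, .ofNat 0⟩ ⟨.ofNat 246,
  .ofNat 121, .ofNat 2639, .negSucc 3005⟩, .q ⟨.ofNat 29, .negSucc 8,
  .negSucc 19, .ofNat 0⟩ ⟨.ofNat 67, .negSucc 433, .negSucc 2638, .ofNat
  3006⟩, .q ⟨.ofNat 32, .negSucc 11, .negSucc 19, .ofNat 0⟩ ⟨.ofNat 67,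
  .negSucc 433, .negSucc 2638, .ofNat 3006⟩, .q ⟨.ofNat 29, .negSucc 8,
  .negSucc 19, .ofNat 0⟩ ⟨.ofNat 2582, .ofNat 2650, .negSucc 3690, .negSucc
  1540⟩, .q ⟨.ofNat 32, .negSucc 11, .negSucc 19, .ofNat 0⟩ ⟨.ofNat 2582,
  .ofNat 2650, .negSucc 3690, .negSucc 1540⟩],
[.l ⟨.ofNat 0, .ofNat 480, .ofNat 0, .negSucc 344⟩ ⟨.ofNat 0, .ofNat 480,
  .ofNat 0, .ofNat 345⟩, .l ⟨.ofNat 0, .negSucc 479, .ofNat 0, .ofNat 353⟩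
  ⟨.ofNat 0, .ofNat 480, .ofNat 0, .ofNat 353⟩, .l ⟨.ofNat 0, .ofNat 480,
  .ofNat 0, .negSucc 344⟩ ⟨.ofNat 0, .negSucc 75, .ofNat 3999, .negSucc
  5469⟩, .l ⟨.ofNat 0, .ofNat 480, .ofNat 0, .negSucc 352⟩ ⟨.ofNat 0,
  .negSucc 75, .ofNat 3999, .negSucc 5469⟩, .l ⟨.ofNat 0, .ofNat 480, .ofNat
  0, .negSucc 344⟩ ⟨.ofNat 0, .ofNat 76, .negSucc 3998, .negSucc 3235⟩, .l
  ⟨.ofNat 0, .ofNat 480, .ofNat 0, .negSucc 352⟩ ⟨.ofNat 0, .ofNat 76,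
  .negSucc 3998, .negSucc 3235⟩, .l ⟨.ofNat 0, .ofNat 480, .ofNat 0,
  .negSucc 344⟩ ⟨.ofNat 0, .ofNat 397, .ofNat 411, .ofNat 595⟩, .l ⟨.ofNat
  0, .ofNat 480, .ofNat 0, .negSucc 352⟩ ⟨.ofNat 0, .ofNat 397, .ofNat 411,
  .ofNat 595⟩],
[.l ⟨.ofNat 0, .ofNat 80, .ofNat 0, .negSucc 56⟩ ⟨.ofNat 0, .ofNat 80,
  .ofNat 0, .ofNat 57⟩, .l ⟨.ofNat 0, .negSucc 79, .ofNat 0, .ofNat 60⟩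
  ⟨.ofNat 0, .ofNat 80, .ofNat 0, .ofNat 60⟩, .l ⟨.ofNat 0, .ofNat 80,
  .ofNat 0, .negSucc 56⟩ ⟨.ofNat 0, .ofNat 961, .ofNat 3883, .ofNat 3582⟩,
  .l ⟨.ofNat 0, .ofNat 80, .ofNat 0, .negSucc 59⟩ ⟨.ofNat 0, .ofNat 961,
  .ofNat 3883, .ofNat 3582⟩, .l ⟨.ofNat 0, .ofNat 80, .ofNat 0, .negSucc 56⟩
  ⟨.ofNat 0, .negSucc 960, .negSucc 3882, .negSucc 3883⟩, .l ⟨.ofNat 0,
  .ofNat 80, .ofNat 0, .negSucc 59⟩ ⟨.ofNat 0, .negSucc 960, .negSucc 3882,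
  .negSucc 3883⟩, .l ⟨.ofNat 0, .ofNat 80, .ofNat 0, .negSucc 56⟩ ⟨.ofNat 0,
  .ofNat 3046, .ofNat 2592, .ofNat 4147⟩, .l ⟨.ofNat 0, .ofNat 80, .ofNat 0,
  .negSucc 59⟩ ⟨.ofNat 0, .ofNat 3046, .ofNat 2592, .ofNat 4147⟩],
[.q ⟨.negSucc 428, .negSucc 530, .ofNat 960, .ofNat 0⟩ ⟨.negSucc 1490,
  .ofNat 531, .ofNat 960, .ofNat 0⟩, .q ⟨.ofNat 418, .ofNat 542, .negSucc
  959, .ofNat 0⟩ ⟨.negSucc 1501, .ofNat 542, .ofNat 960, .ofNat 0⟩, .q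
  ⟨.ofNat 1491, .negSucc 530, .negSucc 959, .ofNat 0⟩ ⟨.ofNat 2961, .ofNat
  1039, .ofNat 0, .negSucc 3999⟩, .q ⟨.ofNat 1502, .negSucc 541, .negSucc
  959, .ofNat 0⟩ ⟨.ofNat 2961, .ofNat 1039, .ofNat 0, .negSucc 3999⟩, .q
  ⟨.ofNat 1491, .negSucc 530, .negSucc 959, .ofNat 0⟩ ⟨.negSucc 748,
  .negSucc 4699, .ofNat 1966, .ofNat 3483⟩, .q ⟨.ofNat 1502, .negSucc 541,
  .negSucc 959, .ofNat 0⟩ ⟨.negSucc 748, .negSucc 4699, .ofNat 1966, .ofNat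
  3483⟩],
[.q ⟨.negSucc 74, .ofNat 36, .negSucc 40, .ofNat 80⟩ ⟨.ofNat 6604, .ofNat
  1656, .negSucc 20739, .ofNat 12480⟩, .q ⟨.negSucc 74, .ofNat 36, .negSucc
  40, .ofNat 80⟩ ⟨.ofNat 1148, .ofNat 6176, .ofNat 9636, .negSucc 16959⟩, .q
  ⟨.negSucc 74, .ofNat 36, .negSucc 40, .ofNat 80⟩ ⟨.negSucc 5411, .negSucc
  159, .ofNat 18052, .negSucc 12479⟩, .q ⟨.negSucc 74, .ofNat 36, .negSucc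
  40, .ofNat 80⟩ ⟨.negSucc 4051, .negSucc 7655, .negSucc 6211, .ofNat
  17920⟩],
[.q ⟨.negSucc 36, .negSucc 42, .ofNat 80, .ofNat 0⟩ ⟨.negSucc 122, .ofNat
  43, .ofNat 80, .ofNat 0⟩, .q ⟨.ofNat 34, .ofNat 46, .negSucc 79, .ofNat 0⟩
  ⟨.negSucc 125, .ofNat 46, .ofNat 80, .ofNat 0⟩, .q ⟨.ofNat 123, .negSucc
  42, .negSucc 79, .ofNat 0⟩ ⟨.ofNat 2013, .ofNat 62, .ofNat 1594, .negSucc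
  3668⟩, .q ⟨.ofNat 126, .negSucc 45, .negSucc 79, .ofNat 0⟩ ⟨.ofNat 2013,
  .ofNat 62, .ofNat 1594, .negSucc 3668⟩, .q ⟨.ofNat 123, .negSucc 42,
  .negSucc 79, .ofNat 0⟩ ⟨.ofNat 7683, .negSucc 9757, .negSucc 1593, .ofNat
  3669⟩, .q ⟨.ofNat 126, .negSucc 45, .negSucc 79, .ofNat 0⟩ ⟨.ofNat 7683,
  .negSucc 9757, .negSucc 1593, .ofNat 3669⟩, .q ⟨.ofNat 123, .negSucc 42,
  .negSucc 79, .ofNat 0⟩ ⟨.ofNat 738, .ofNat 1171, .negSucc 3616, .ofNat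
  1708⟩, .q ⟨.ofNat 126, .negSucc 45, .negSucc 79, .ofNat 0⟩ ⟨.ofNat 738,
  .ofNat 1171, .negSucc 3616, .ofNat 1708⟩],
[.l ⟨.ofNat 0, .ofNat 960, .ofNat 0, .negSucc 834⟩ ⟨.ofNat 0, .ofNat 960,
  .ofNat 0, .ofNat 835⟩, .l ⟨.ofNat 0, .negSucc 959, .ofNat 0, .ofNat 843⟩
  ⟨.ofNat 0, .ofNat 960, .ofNat 0, .ofNat 843⟩, .l ⟨.ofNat 0, .ofNat 960,
  .ofNat 0, .negSucc 834⟩ ⟨.ofNat 0, .ofNat 0, .ofNat 1000, .negSucc 2170⟩,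
  .l ⟨.ofNat 0, .ofNat 960, .ofNat 0, .negSucc 842⟩ ⟨.ofNat 0, .ofNat 0,
  .ofNat 1000, .negSucc 2170⟩, .l ⟨.ofNat 0, .ofNat 960, .ofNat 0, .negSucc
  834⟩ ⟨.ofNat 0, .ofNat 0, .negSucc 3999, .negSucc 3348⟩, .l ⟨.ofNat 0,
  .ofNat 960, .ofNat 0, .negSucc 842⟩ ⟨.ofNat 0, .ofNat 0, .negSucc 3999,
  .negSucc 3348⟩, .l ⟨.ofNat 0, .ofNat 960, .ofNat 0, .negSucc 834⟩ ⟨.ofNat
  0, .negSucc 2069, .ofNat 3423, .ofNat 941⟩, .l ⟨.ofNat 0, .ofNat 960,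
  .ofNat 0, .negSucc 842⟩ ⟨.ofNat 0, .negSucc 2069, .ofNat 3423, .ofNat
  941⟩],
[.l ⟨.ofNat 0, .ofNat 480, .ofNat 0, .negSucc 430⟩ ⟨.ofNat 0, .ofNat 480,
  .ofNat 0, .ofNat 431⟩, .l ⟨.ofNat 0, .negSucc 479, .ofNat 0, .ofNat 440⟩
  ⟨.ofNat 0, .ofNat 480, .ofNat 0, .ofNat 440⟩, .l ⟨.ofNat 0, .ofNat 480,
  .ofNat 0, .negSucc 430⟩ ⟨.ofNat 0, .ofNat 1793, .ofNat 3576, .ofNat 4777⟩,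
  .l ⟨.ofNat 0, .ofNat 480, .ofNat 0, .negSucc 439⟩ ⟨.ofNat 0, .ofNat 1793,
  .ofNat 3576, .ofNat 4777⟩, .l ⟨.ofNat 0, .ofNat 480, .ofNat 0, .negSucc
  430⟩ ⟨.ofNat 0, .negSucc 358, .negSucc 714, .negSucc 1000⟩, .l ⟨.ofNat 0,
  .ofNat 480, .ofNat 0, .negSucc 439⟩ ⟨.ofNat 0, .negSucc 358, .negSucc 714,
  .negSucc 1000⟩],
[.l ⟨.ofNat 0, .ofNat 480, .ofNat 0, .negSucc 410⟩ ⟨.ofNat 0, .ofNat 480,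
  .ofNat 0, .ofNat 411⟩, .l ⟨.ofNat 0, .negSucc 479, .ofNat 0, .ofNat 422⟩
  ⟨.ofNat 0, .ofNat 480, .ofNat 0, .ofNat 422⟩, .l ⟨.ofNat 0, .ofNat 480,
  .ofNat 0, .negSucc 410⟩ ⟨.ofNat 0, .ofNat 0, .ofNat 4000, .ofNat 2101⟩, .l
  ⟨.ofNat 0, .ofNat 480, .ofNat 0, .negSucc 421⟩ ⟨.ofNat 0, .ofNat 0, .ofNat
  4000, .ofNat 2101⟩, .l ⟨.ofNat 0, .ofNat 480, .ofNat 0, .negSucc 410⟩
  ⟨.ofNat 0, .ofNat 0, .negSucc 199, .negSucc 166⟩, .l ⟨.ofNat 0, .ofNat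
  480, .ofNat 0, .negSucc 421⟩ ⟨.ofNat 0, .ofNat 0, .negSucc 199, .negSucc
  166⟩],
[.q ⟨.negSucc 443, .negSucc 515, .ofNat 960, .ofNat 0⟩ ⟨.negSucc 1475,
  .ofNat 516, .ofNat 960, .ofNat 0⟩, .q ⟨.ofNat 433, .ofNat 527, .negSucc
  959, .ofNat 0⟩ ⟨.negSucc 1486, .ofNat 527, .ofNat 960, .ofNat 0⟩, .q
  ⟨.ofNat 1476, .negSucc 515, .negSucc 959, .ofNat 0⟩ ⟨.ofNat 12384,
  .negSucc 12030, .ofNat 2646, .negSucc 2998⟩, .q ⟨.ofNat 1487, .negSucc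
  526, .negSucc 959, .ofNat 0⟩ ⟨.ofNat 12384, .negSucc 12030, .ofNat 2646,
  .negSucc 2998⟩, .q ⟨.ofNat 1476, .negSucc 515, .negSucc 959, .ofNat 0⟩
  ⟨.negSucc 359, .ofNat 7, .negSucc 2645, .ofNat 2999⟩, .q ⟨.ofNat 1487,
  .negSucc 526, .negSucc 959, .ofNat 0⟩ ⟨.negSucc 359, .ofNat 7, .negSucc
  2645, .ofNat 2999⟩, .q ⟨.ofNat 1476, .negSucc 515, .negSucc 959, .ofNat 0⟩
  ⟨.ofNat 1256, .ofNat 1357, .negSucc 1847, .negSucc 764⟩, .q ⟨.ofNat 1487,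
  .negSucc 526, .negSucc 959, .ofNat 0⟩ ⟨.ofNat 1256, .ofNat 1357, .negSucc
  1847, .negSucc 764⟩, .q ⟨.ofNat 1476, .negSucc 515, .negSucc 959, .ofNat
  0⟩ ⟨.negSucc 1837, .negSucc 1620, .negSucc 508, .ofNat 3968⟩, .q ⟨.ofNat
  1487, .negSucc 526, .negSucc 959, .ofNat 0⟩ ⟨.negSucc 1837, .negSucc 1620,
  .negSucc 508, .ofNat 3968⟩],
[.q ⟨.negSucc 445, .negSucc 513, .ofNat 960, .ofNat 0⟩ ⟨.negSucc 1473,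
  .ofNat 514, .ofNat 960, .ofNat 0⟩, .q ⟨.ofNat 437, .ofNat 523, .negSucc
  959, .ofNat 0⟩ ⟨.negSucc 1482, .ofNat 523, .ofNat 960, .ofNat 0⟩, .q
  ⟨.ofNat 1474, .negSucc 513, .negSucc 959, .ofNat 0⟩ ⟨.ofNat 2810, .ofNat
  2843, .negSucc 2715, .negSucc 2936⟩, .q ⟨.ofNat 1483, .negSucc 522,
  .negSucc 959, .ofNat 0⟩ ⟨.ofNat 2810, .ofNat 2843, .negSucc 2715, .negSucc
  2936⟩, .q ⟨.ofNat 1474, .negSucc 513, .negSucc 959, .ofNat 0⟩ ⟨.negSucc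
  186, .negSucc 2, .negSucc 1315, .ofNat 1506⟩, .q ⟨.ofNat 1483, .negSucc
  522, .negSucc 959, .ofNat 0⟩ ⟨.negSucc 186, .negSucc 2, .negSucc 1315,
  .ofNat 1506⟩, .q ⟨.ofNat 1474, .negSucc 513, .negSucc 959, .ofNat 0⟩
  ⟨.ofNat 601, .ofNat 985, .negSucc 3507, .ofNat 1922⟩, .q ⟨.ofNat 1483,
  .negSucc 522, .negSucc 959, .ofNat 0⟩ ⟨.ofNat 601, .ofNat 985, .negSucc
  3507, .ofNat 1922⟩],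
[.q ⟨.negSucc 223, .negSucc 255, .ofNat 480, .ofNat 0⟩ ⟨.negSucc 735, .ofNat
  256, .ofNat 480, .ofNat 0⟩, .q ⟨.ofNat 217, .ofNat 263, .negSucc 479,
  .ofNat 0⟩ ⟨.negSucc 742, .ofNat 263, .ofNat 480, .ofNat 0⟩, .q ⟨.ofNat
  736, .negSucc 255, .negSucc 479, .ofNat 0⟩ ⟨.ofNat 269, .negSucc 114,
  .ofNat 1335, .negSucc 1488⟩, .q ⟨.ofNat 743, .negSucc 262, .negSucc 479,
  .ofNat 0⟩ ⟨.ofNat 269, .negSucc 114, .ofNat 1335, .negSucc 1488⟩, .q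
  ⟨.ofNat 736, .negSucc 255, .negSucc 479, .ofNat 0⟩ ⟨.negSucc 174, .ofNat
  21, .negSucc 1334, .ofNat 1489⟩, .q ⟨.ofNat 743, .negSucc 262, .negSucc
  479, .ofNat 0⟩ ⟨.negSucc 174, .ofNat 21, .negSucc 1334, .ofNat 1489⟩],
[.q ⟨.negSucc 38, .negSucc 40, .ofNat 80, .ofNat 0⟩ ⟨.negSucc 120, .ofNat
  41, .ofNat 80, .ofNat 0⟩, .q ⟨.ofNat 36, .ofNat 44, .negSucc 79, .ofNat 0⟩
  ⟨.negSucc 123, .ofNat 44, .ofNat 80, .ofNat 0⟩, .q ⟨.ofNat 121, .negSucc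
  40, .negSucc 79, .ofNat 0⟩ ⟨.ofNat 14795, .negSucc 9267, .negSucc 2161,
  .negSucc 3364⟩, .q ⟨.ofNat 124, .negSucc 43, .negSucc 79, .ofNat 0⟩
  ⟨.ofNat 14795, .negSucc 9267, .negSucc 2161, .negSucc 3364⟩, .q ⟨.ofNat
  121, .negSucc 40, .negSucc 79, .ofNat 0⟩ ⟨.negSucc 2741, .negSucc 2784,
  .ofNat 2162, .ofNat 3365⟩, .q ⟨.ofNat 124, .negSucc 43, .negSucc 79,
  .ofNat 0⟩ ⟨.negSucc 2741, .negSucc 2784, .ofNat 2162, .ofNat 3365⟩, .q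
  ⟨.ofNat 121, .negSucc 40, .negSucc 79, .ofNat 0⟩ ⟨.ofNat 2564, .ofNat
  1811, .negSucc 393, .negSucc 3980⟩, .q ⟨.ofNat 124, .negSucc 43, .negSucc
  79, .ofNat 0⟩ ⟨.ofNat 2564, .ofNat 1811, .negSucc 393, .negSucc 3980⟩, .q
  ⟨.ofNat 121, .negSucc 40, .negSucc 79, .ofNat 0⟩ ⟨.ofNat 447, .ofNat 841,
  .negSucc 3397, .ofNat 2110⟩, .q ⟨.ofNat 124, .negSucc 43, .negSucc 79,
  .ofNat 0⟩ ⟨.ofNat 447, .ofNat 841, .negSucc 3397, .ofNat 2110⟩],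
[.q ⟨.negSucc 20, .negSucc 18, .ofNat 40, .ofNat 0⟩ ⟨.negSucc 58, .ofNat 19,
  .ofNat 40, .ofNat 0⟩, .q ⟨.ofNat 18, .ofNat 22, .negSucc 39, .ofNat 0⟩
  ⟨.negSucc 61, .ofNat 22, .ofNat 40, .ofNat 0⟩, .q ⟨.ofNat 59, .negSucc 18,
  .negSucc 39, .ofNat 0⟩ ⟨.ofNat 13224, .negSucc 11174, .ofNat 1612,
  .negSucc 3660⟩, .q ⟨.ofNat 62, .negSucc 21, .negSucc 39, .ofNat 0⟩ ⟨.ofNat
  13224, .negSucc 11174, .ofNat 1612, .negSucc 3660⟩, .q ⟨.ofNat 59,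
  .negSucc 18, .negSucc 39, .ofNat 0⟩ ⟨.negSucc 1208, .negSucc 839, .negSucc
  1611, .ofNat 3661⟩, .q ⟨.ofNat 62, .negSucc 21, .negSucc 39, .ofNat 0⟩
  ⟨.negSucc 1208, .negSucc 839, .negSucc 1611, .ofNat 3661⟩, .q ⟨.ofNat 59,
  .negSucc 18, .negSucc 39, .ofNat 0⟩ ⟨.ofNat 2837, .ofNat 2492, .negSucc
  3612, .negSucc 1715⟩, .q ⟨.ofNat 62, .negSucc 21, .negSucc 39, .ofNat 0⟩
  ⟨.ofNat 2837, .ofNat 2492, .negSucc 3612, .negSucc 1715⟩],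
[.l ⟨.ofNat 0, .ofNat 80, .ofNat 0, .negSucc 68⟩ ⟨.ofNat 0, .ofNat 80,
  .ofNat 0, .ofNat 69⟩, .l ⟨.ofNat 0, .negSucc 79, .ofNat 0, .ofNat 72⟩
  ⟨.ofNat 0, .ofNat 80, .ofNat 0, .ofNat 72⟩, .l ⟨.ofNat 0, .ofNat 80,
  .ofNat 0, .negSucc 68⟩ ⟨.ofNat 0, .ofNat 0, .ofNat 4000, .ofNat 2101⟩, .l
  ⟨.ofNat 0, .ofNat 80, .ofNat 0, .negSucc 71⟩ ⟨.ofNat 0, .ofNat 0, .ofNat
  4000, .ofNat 2101⟩, .l ⟨.ofNat 0, .ofNat 80, .ofNat 0, .negSucc 68⟩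
  ⟨.ofNat 0, .ofNat 879, .negSucc 3901, .negSucc 2484⟩, .l ⟨.ofNat 0, .ofNat
  80, .ofNat 0, .negSucc 71⟩ ⟨.ofNat 0, .ofNat 879, .negSucc 3901, .negSucc
  2484⟩, .l ⟨.ofNat 0, .ofNat 80, .ofNat 0, .negSucc 68⟩ ⟨.ofNat 0, .negSucc
  1506, .negSucc 3704, .negSucc 4428⟩, .l ⟨.ofNat 0, .ofNat 80, .ofNat 0,
  .negSucc 71⟩ ⟨.ofNat 0, .negSucc 1506, .negSucc 3704, .negSucc 4428⟩],
[.q ⟨.negSucc 25, .negSucc 20, .ofNat 15, .ofNat 32⟩ ⟨.negSucc 12131, .ofNat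
  16144, .ofNat 6740, .negSucc 10751⟩, .q ⟨.negSucc 25, .negSucc 20, .ofNat
  15, .ofNat 32⟩ ⟨.negSucc 8823, .ofNat 5796, .ofNat 11860, .negSucc 8831⟩,
  .q ⟨.negSucc 25, .negSucc 20, .ofNat 15, .ofNat 32⟩ ⟨.ofNat 9584, .negSucc
  20867, .ofNat 3860, .ofNat 7424⟩, .q ⟨.negSucc 25, .negSucc 20, .ofNat 15,
  .ofNat 32⟩ ⟨.ofNat 3536, .ofNat 3896, .negSucc 12167, .ofNat 4736⟩],
[.q ⟨.negSucc 25, .negSucc 20, .ofNat 15, .ofNat 32⟩ ⟨.negSucc 12259, .ofNat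
  21692, .ofNat 680, .negSucc 10111⟩, .q ⟨.negSucc 25, .negSucc 20, .ofNat
  15, .ofNat 32⟩ ⟨.negSucc 787, .negSucc 1227, .ofNat 3040, .negSucc 1023⟩,
  .q ⟨.negSucc 25, .negSucc 20, .ofNat 15, .ofNat 32⟩ ⟨.ofNat 11332,
  .negSucc 15983, .negSucc 6867, .ofNat 11520⟩, .q ⟨.negSucc 25, .negSucc
  20, .ofNat 15, .ofNat 32⟩ ⟨.ofNat 4934, .ofNat 1533, .negSucc 12322,
  .ofNat 5856⟩],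
[.q ⟨.negSucc 22, .negSucc 24, .ofNat 48, .ofNat 0⟩ ⟨.negSucc 72, .ofNat 25,
  .ofNat 48, .ofNat 0⟩, .q ⟨.ofNat 22, .ofNat 26, .negSucc 47, .ofNat 0⟩
  ⟨.negSucc 73, .ofNat 26, .ofNat 48, .ofNat 0⟩, .q ⟨.ofNat 73, .negSucc 24,
  .negSucc 47, .ofNat 0⟩ ⟨.ofNat 3331, .negSucc 2330, .ofNat 0, .negSucc
  999⟩, .q ⟨.ofNat 74, .negSucc 25, .negSucc 47, .ofNat 0⟩ ⟨.ofNat 3331,
  .negSucc 2330, .ofNat 0, .negSucc 999⟩, .q ⟨.ofNat 73, .negSucc 24,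
  .negSucc 47, .ofNat 0⟩ ⟨.negSucc 1171, .negSucc 812, .negSucc 1655, .ofNat
  3641⟩, .q ⟨.ofNat 74, .negSucc 25, .negSucc 47, .ofNat 0⟩ ⟨.negSucc 1171,
  .negSucc 812, .negSucc 1655, .ofNat 3641⟩, .q ⟨.ofNat 73, .negSucc 24,
  .negSucc 47, .ofNat 0⟩ ⟨.ofNat 3002, .ofNat 2499, .negSucc 2091, .negSucc
  3408⟩, .q ⟨.ofNat 74, .negSucc 25, .negSucc 47, .ofNat 0⟩ ⟨.ofNat 3002,
  .ofNat 2499, .negSucc 2091, .negSucc 3408⟩],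
[.q ⟨.negSucc 0, .ofNat 1, .ofNat 0, .ofNat 0⟩ ⟨.negSucc 642, .ofNat 3,
  .ofNat 640, .ofNat 0⟩, .q ⟨.negSucc 0, .ofNat 1, .ofNat 0, .ofNat 0⟩
  ⟨.ofNat 943, .ofNat 17, .negSucc 959, .ofNat 0⟩, .l ⟨.ofNat 0, .ofNat 0,
  .negSucc 1919, .negSucc 1810⟩ ⟨.ofNat 0, .ofNat 0, .ofNat 0, .ofNat 1⟩, .l
  ⟨.ofNat 0, .ofNat 0, .ofNat 1920, .ofNat 2009⟩ ⟨.ofNat 0, .ofNat 0, .ofNat
  0, .ofNat 1⟩],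
[.q ⟨.negSucc 220, .negSucc 258, .ofNat 480, .ofNat 0⟩ ⟨.negSucc 738, .ofNat
  259, .ofNat 480, .ofNat 0⟩, .q ⟨.ofNat 217, .ofNat 263, .negSucc 479,
  .ofNat 0⟩ ⟨.negSucc 742, .ofNat 263, .ofNat 480, .ofNat 0⟩, .q ⟨.ofNat
  739, .negSucc 258, .negSucc 479, .ofNat 0⟩ ⟨.ofNat 2215, .ofNat 1391,
  .ofNat 376, .negSucc 3981⟩, .q ⟨.ofNat 743, .negSucc 262, .negSucc 479,
  .ofNat 0⟩ ⟨.ofNat 2215, .ofNat 1391, .ofNat 376, .negSucc 3981⟩, .q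
  ⟨.ofNat 739, .negSucc 258, .negSucc 479, .ofNat 0⟩ ⟨.negSucc 1056,
  .negSucc 729, .negSucc 1789, .ofNat 3577⟩, .q ⟨.ofNat 743, .negSucc 262,
  .negSucc 479, .ofNat 0⟩ ⟨.negSucc 1056, .negSucc 729, .negSucc 1789,
  .ofNat 3577⟩],
[.q ⟨.negSucc 18, .negSucc 15, .ofNat 11, .ofNat 24⟩ ⟨.negSucc 10039, .ofNat
  8888, .ofNat 11232, .negSucc 10079⟩, .q ⟨.negSucc 18, .negSucc 15, .ofNat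
  11, .ofNat 24⟩ ⟨.ofNat 4952, .negSucc 16523, .ofNat 8404, .ofNat 3168⟩, .q
  ⟨.negSucc 18, .negSucc 15, .ofNat 11, .ofNat 24⟩ ⟨.ofNat 4404, .negSucc
  3123, .negSucc 5887, .ofNat 4608⟩, .q ⟨.negSucc 18, .negSucc 15, .ofNat
  11, .ofNat 24⟩ ⟨.ofNat 2192, .ofNat 6164, .negSucc 11907, .ofNat 3552⟩],
[.q ⟨.negSucc 18, .negSucc 15, .ofNat 11, .ofNat 24⟩ ⟨.ofNat 4164, .ofNat
  2824, .negSucc 12267, .ofNat 5280⟩, .q ⟨.negSucc 18, .negSucc 15, .ofNat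
  11, .ofNat 24⟩ ⟨.negSucc 12151, .ofNat 19384, .ofNat 3616, .negSucc
  10847⟩, .q ⟨.negSucc 18, .negSucc 15, .ofNat 11, .ofNat 24⟩ ⟨.negSucc
  1827, .negSucc 6931, .ofNat 11832, .negSucc 3071⟩, .q ⟨.negSucc 18,
  .negSucc 15, .ofNat 11, .ofNat 24⟩ ⟨.ofNat 11272, .negSucc 12259, .negSucc
  10147, .ofNat 11136⟩],
[.q ⟨.negSucc 0, .ofNat 1, .ofNat 0, .ofNat 0⟩ ⟨.negSucc 80, .ofNat 1,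
  .ofNat 80, .ofNat 0⟩, .q ⟨.negSucc 0, .ofNat 1, .ofNat 0, .ofNat 0⟩
  ⟨.ofNat 627, .ofNat 13, .negSucc 639, .ofNat 0⟩, .l ⟨.ofNat 0, .ofNat 0,
  .negSucc 1919, .negSucc 1860⟩ ⟨.ofNat 0, .ofNat 0, .ofNat 0, .ofNat 1⟩, .l
  ⟨.ofNat 0, .ofNat 0, .ofNat 1920, .ofNat 1997⟩ ⟨.ofNat 0, .ofNat 0, .ofNat
  0, .ofNat 1⟩],
[.l ⟨.ofNat 0, .ofNat 40, .ofNat 0, .negSucc 31⟩ ⟨.ofNat 0, .ofNat 40,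
  .ofNat 0, .ofNat 32⟩, .l ⟨.ofNat 0, .negSucc 39, .ofNat 0, .ofNat 35⟩
  ⟨.ofNat 0, .ofNat 40, .ofNat 0, .ofNat 35⟩, .l ⟨.ofNat 0, .ofNat 40,
  .ofNat 0, .negSucc 31⟩ ⟨.ofNat 0, .ofNat 0, .ofNat 4000, .ofNat 2667⟩, .l
  ⟨.ofNat 0, .ofNat 40, .ofNat 0, .negSucc 34⟩ ⟨.ofNat 0, .ofNat 0, .ofNat
  4000, .ofNat 2667⟩, .l ⟨.ofNat 0, .ofNat 40, .ofNat 0, .negSucc 31⟩
  ⟨.ofNat 0, .ofNat 0, .negSucc 999, .negSucc 830⟩, .l ⟨.ofNat 0, .ofNat 40,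
  .ofNat 0, .negSucc 34⟩ ⟨.ofNat 0, .ofNat 0, .negSucc 999, .negSucc 830⟩,
  .l ⟨.ofNat 0, .ofNat 40, .ofNat 0, .negSucc 31⟩ ⟨.ofNat 0, .ofNat 1517,
  .negSucc 3700, .negSucc 1831⟩, .l ⟨.ofNat 0, .ofNat 40, .ofNat 0, .negSucc
  34⟩ ⟨.ofNat 0, .ofNat 1517, .negSucc 3700, .negSucc 1831⟩],
[.q ⟨.negSucc 490, .negSucc 468, .ofNat 960, .ofNat 0⟩ ⟨.negSucc 1428,
  .ofNat 469, .ofNat 960, .ofNat 0⟩, .q ⟨.ofNat 483, .ofNat 477, .negSucc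
  959, .ofNat 0⟩ ⟨.negSucc 1436, .ofNat 477, .ofNat 960, .ofNat 0⟩, .q
  ⟨.ofNat 1429, .negSucc 468, .negSucc 959, .ofNat 0⟩ ⟨.ofNat 13597,
  .negSucc 9596, .ofNat 0, .negSucc 3999⟩, .q ⟨.ofNat 1437, .negSucc 476,
  .negSucc 959, .ofNat 0⟩ ⟨.ofNat 13597, .negSucc 9596, .ofNat 0, .negSucc
  3999⟩, .q ⟨.ofNat 1429, .negSucc 468, .negSucc 959, .ofNat 0⟩ ⟨.negSucc
  1032, .negSucc 1708, .negSucc 1102, .ofNat 3845⟩, .q ⟨.ofNat 1437,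
  .negSucc 476, .negSucc 959, .ofNat 0⟩ ⟨.negSucc 1032, .negSucc 1708,
  .negSucc 1102, .ofNat 3845⟩, .q ⟨.ofNat 1429, .negSucc 468, .negSucc 959,
  .ofNat 0⟩ ⟨.ofNat 2701, .ofNat 2707, .negSucc 3532, .negSucc 1874⟩, .q
  ⟨.ofNat 1437, .negSucc 476, .negSucc 959, .ofNat 0⟩ ⟨.ofNat 2701, .ofNat
  2707, .negSucc 3532, .negSucc 1874⟩],
[.q ⟨.negSucc 122, .negSucc 116, .ofNat 240, .ofNat 0⟩ ⟨.negSucc 356, .ofNat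
  117, .ofNat 240, .ofNat 0⟩, .q ⟨.ofNat 121, .ofNat 119, .negSucc 239,
  .ofNat 0⟩ ⟨.negSucc 358, .ofNat 119, .ofNat 240, .ofNat 0⟩, .q ⟨.ofNat
  357, .negSucc 116, .negSucc 239, .ofNat 0⟩ ⟨.ofNat 10719, .negSucc 6718,
  .ofNat 0, .negSucc 3999⟩, .q ⟨.ofNat 359, .negSucc 118, .negSucc 239,
  .ofNat 0⟩ ⟨.ofNat 10719, .negSucc 6718, .ofNat 0, .negSucc 3999⟩, .q
  ⟨.ofNat 357, .negSucc 116, .negSucc 239, .ofNat 0⟩ ⟨.negSucc 840, .negSucc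
  1158, .ofNat 0, .ofNat 2000⟩, .q ⟨.ofNat 359, .negSucc 118, .negSucc 239,
  .ofNat 0⟩ ⟨.negSucc 840, .negSucc 1158, .ofNat 0, .ofNat 2000⟩, .q ⟨.ofNat
  357, .negSucc 116, .negSucc 239, .ofNat 0⟩ ⟨.ofNat 2681, .ofNat 2685,
  .negSucc 3577, .negSucc 1787⟩, .q ⟨.ofNat 359, .negSucc 118, .negSucc 239,
  .ofNat 0⟩ ⟨.ofNat 2681, .ofNat 2685, .negSucc 3577, .negSucc 1787⟩],
[.q ⟨.negSucc 18, .negSucc 15, .ofNat 11, .ofNat 24⟩ ⟨.ofNat 11292, .negSucc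
  12291, .negSucc 10135, .ofNat 11136⟩, .q ⟨.negSucc 18, .negSucc 15, .ofNat
  11, .ofNat 24⟩ ⟨.ofNat 520, .ofNat 8864, .negSucc 11399, .ofNat 2016⟩, .q
  ⟨.negSucc 18, .negSucc 15, .ofNat 11, .ofNat 24⟩ ⟨.negSucc 5795, .negSucc
  63, .ofNat 12388, .negSucc 6527⟩, .q ⟨.negSucc 18, .negSucc 15, .ofNat 11,
  .ofNat 24⟩ ⟨.ofNat 9692, .negSucc 21311, .ofNat 3652, .ofNat 7968⟩],
[.q ⟨.negSucc 74, .negSucc 84, .ofNat 160, .ofNat 0⟩ ⟨.negSucc 244, .ofNat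
  85, .ofNat 160, .ofNat 0⟩, .q ⟨.ofNat 72, .ofNat 88, .negSucc 159, .ofNat
  0⟩ ⟨.negSucc 247, .ofNat 88, .ofNat 160, .ofNat 0⟩, .q ⟨.ofNat 245,
  .negSucc 84, .negSucc 159, .ofNat 0⟩ ⟨.ofNat 2399, .ofNat 1601, .ofNat 0,
  .negSucc 3999⟩, .q ⟨.ofNat 248, .negSucc 87, .negSucc 159, .ofNat 0⟩
  ⟨.ofNat 2399, .ofNat 1601, .ofNat 0, .negSucc 3999⟩, .q ⟨.ofNat 245,
  .negSucc 84, .negSucc 159, .ofNat 0⟩ ⟨.negSucc 1134, .negSucc 774,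
  .negSucc 1706, .ofNat 3617⟩, .q ⟨.ofNat 248, .negSucc 87, .negSucc 159,
  .ofNat 0⟩ ⟨.negSucc 1134, .negSucc 774, .negSucc 1706, .ofNat 3617⟩],
[.q ⟨.negSucc 450, .negSucc 508, .ofNat 960, .ofNat 0⟩ ⟨.negSucc 1468,
  .ofNat 509, .ofNat 960, .ofNat 0⟩, .q ⟨.ofNat 441, .ofNat 519, .negSucc
  959, .ofNat 0⟩ ⟨.negSucc 1478, .ofNat 519, .ofNat 960, .ofNat 0⟩, .q
  ⟨.ofNat 1469, .negSucc 508, .negSucc 959, .ofNat 0⟩ ⟨.ofNat 551, .negSucc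
  203, .ofNat 2650, .negSucc 2996⟩, .q ⟨.ofNat 1479, .negSucc 518, .negSucc
  959, .ofNat 0⟩ ⟨.ofNat 551, .negSucc 203, .ofNat 2650, .negSucc 2996⟩, .q
  ⟨.ofNat 1469, .negSucc 508, .negSucc 959, .ofNat 0⟩ ⟨.negSucc 365, .ofNat
  19, .negSucc 2649, .ofNat 2997⟩, .q ⟨.ofNat 1479, .negSucc 518, .negSucc
  959, .ofNat 0⟩ ⟨.negSucc 365, .ofNat 19, .negSucc 2649, .ofNat 2997⟩, .q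
  ⟨.ofNat 1469, .negSucc 508, .negSucc 959, .ofNat 0⟩ ⟨.negSucc 1327,
  .negSucc 980, .negSucc 1427, .ofNat 3737⟩, .q ⟨.ofNat 1479, .negSucc 518,
  .negSucc 959, .ofNat 0⟩ ⟨.negSucc 1327, .negSucc 980, .negSucc 1427,
  .ofNat 3737⟩],
[.q ⟨.negSucc 223, .negSucc 255, .ofNat 480, .ofNat 0⟩ ⟨.negSucc 735, .ofNat
  256, .ofNat 480, .ofNat 0⟩, .q ⟨.ofNat 215, .ofNat 265, .negSucc 479,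
  .ofNat 0⟩ ⟨.negSucc 744, .ofNat 265, .ofNat 480, .ofNat 0⟩, .q ⟨.ofNat
  736, .negSucc 255, .negSucc 479, .ofNat 0⟩ ⟨.ofNat 826, .ofNat 361,
  .negSucc 208, .negSucc 977⟩, .q ⟨.ofNat 745, .negSucc 264, .negSucc 479,
  .ofNat 0⟩ ⟨.ofNat 826, .ofNat 361, .negSucc 208, .negSucc 977⟩, .q ⟨.ofNat
  736, .negSucc 255, .negSucc 479, .ofNat 0⟩ ⟨.negSucc 2434, .negSucc 2312,
  .ofNat 836, .ofNat 3912⟩, .q ⟨.ofNat 745, .negSucc 264, .negSucc 479,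
  .ofNat 0⟩ ⟨.negSucc 2434, .negSucc 2312, .ofNat 836, .ofNat 3912⟩, .q
  ⟨.ofNat 736, .negSucc 255, .negSucc 479, .ofNat 0⟩ ⟨.ofNat 820, .ofNat
  1204, .negSucc 3652, .ofNat 1629⟩, .q ⟨.ofNat 745, .negSucc 264, .negSucc
  479, .ofNat 0⟩ ⟨.ofNat 820, .ofNat 1204, .negSucc 3652, .ofNat 1629⟩],
[.q ⟨.negSucc 0, .ofNat 1, .ofNat 0, .ofNat 0⟩ ⟨.negSucc 990, .ofNat 31,
  .ofNat 960, .ofNat 0⟩, .q ⟨.negSucc 0, .ofNat 1, .ofNat 0, .ofNat 0⟩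
  ⟨.ofNat 1853, .ofNat 67, .negSucc 1919, .ofNat 0⟩, .l ⟨.ofNat 0, .ofNat 0,
  .negSucc 29, .negSucc 16⟩ ⟨.ofNat 0, .ofNat 0, .ofNat 0, .ofNat 1⟩, .l
  ⟨.ofNat 0, .ofNat 0, .ofNat 320, .ofNat 247⟩ ⟨.ofNat 0, .ofNat 0, .ofNat
  0, .ofNat 1⟩],
[.q ⟨.ofNat 11, .negSucc 12, .negSucc 17, .ofNat 20⟩ ⟨.negSucc 3187,
  .negSucc 1008, .ofNat 2017, .ofNat 2180⟩, .q ⟨.ofNat 11, .negSucc 12,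
  .negSucc 17, .ofNat 20⟩ ⟨.ofNat 4742, .negSucc 1666, .negSucc 1414,
  .negSucc 1659⟩, .q ⟨.ofNat 11, .negSucc 12, .negSucc 17, .ofNat 20⟩
  ⟨.negSucc 764, .ofNat 3691, .negSucc 1645, .negSucc 1279⟩, .q ⟨.ofNat 11,
  .negSucc 12, .negSucc 17, .ofNat 20⟩ ⟨.negSucc 4236, .ofNat 3548, .ofNat
  69, .ofNat 620⟩],
[.q ⟨.negSucc 246, .negSucc 232, .ofNat 480, .ofNat 0⟩ ⟨.negSucc 712, .ofNat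
  233, .ofNat 480, .ofNat 0⟩, .q ⟨.ofNat 242, .ofNat 238, .negSucc 479,
  .ofNat 0⟩ ⟨.negSucc 717, .ofNat 238, .ofNat 480, .ofNat 0⟩, .q ⟨.ofNat
  713, .negSucc 232, .negSucc 479, .ofNat 0⟩ ⟨.ofNat 13911, .negSucc 9910,
  .ofNat 0, .negSucc 3999⟩, .q ⟨.ofNat 718, .negSucc 237, .negSucc 479,
  .ofNat 0⟩ ⟨.ofNat 13911, .negSucc 9910, .ofNat 0, .negSucc 3999⟩, .q
  ⟨.ofNat 713, .negSucc 232, .negSucc 479, .ofNat 0⟩ ⟨.ofNat 7525, .negSucc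
  13163, .ofNat 2590, .ofNat 3049⟩, .q ⟨.ofNat 718, .negSucc 237, .negSucc
  479, .ofNat 0⟩ ⟨.ofNat 7525, .negSucc 13163, .ofNat 2590, .ofNat 3049⟩, .q
  ⟨.ofNat 713, .negSucc 232, .negSucc 479, .ofNat 0⟩ ⟨.ofNat 2745, .ofNat
  2767, .negSucc 3390, .negSucc 2120⟩, .q ⟨.ofNat 718, .negSucc 237,
  .negSucc 479, .ofNat 0⟩ ⟨.ofNat 2745, .ofNat 2767, .negSucc 3390, .negSucc
  2120⟩, .q ⟨.ofNat 713, .negSucc 232, .negSucc 479, .ofNat 0⟩ ⟨.ofNat 610,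
  .ofNat 412, .negSucc 3292, .ofNat 2271⟩, .q ⟨.ofNat 718, .negSucc 237,
  .negSucc 479, .ofNat 0⟩ ⟨.ofNat 610, .ofNat 412, .negSucc 3292, .ofNat
  2271⟩],
[.q ⟨.negSucc 18, .negSucc 15, .ofNat 11, .ofNat 24⟩ ⟨.negSucc 1655,
  .negSucc 7251, .ofNat 11788, .negSucc 2879⟩, .q ⟨.negSucc 18, .negSucc 15,
  .ofNat 11, .ofNat 24⟩ ⟨.ofNat 3300, .negSucc 2907, .negSucc 3751, .ofNat
  3360⟩, .q ⟨.negSucc 18, .negSucc 15, .ofNat 11, .ofNat 24⟩ ⟨.ofNat 68,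
  .ofNat 9524, .negSucc 11223, .ofNat 1632⟩, .q ⟨.negSucc 18, .negSucc 15,
  .ofNat 11, .ofNat 24⟩ ⟨.negSucc 6111, .ofNat 8972, .ofNat 2708, .negSucc
  5567⟩],
[.q ⟨.negSucc 229, .negSucc 249, .ofNat 480, .ofNat 0⟩ ⟨.negSucc 729, .ofNat
  250, .ofNat 480, .ofNat 0⟩, .q ⟨.ofNat 223, .ofNat 257, .negSucc 479,
  .ofNat 0⟩ ⟨.negSucc 736, .ofNat 257, .ofNat 480, .ofNat 0⟩, .q ⟨.ofNat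
  730, .negSucc 249, .negSucc 479, .ofNat 0⟩ ⟨.ofNat 1880, .negSucc 102,
  .ofNat 1797, .negSucc 3573⟩, .q ⟨.ofNat 737, .negSucc 256, .negSucc 479,
  .ofNat 0⟩ ⟨.ofNat 1880, .negSucc 102, .ofNat 1797, .negSucc 3573⟩, .q
  ⟨.ofNat 730, .negSucc 249, .negSucc 479, .ofNat 0⟩ ⟨.negSucc 1072,
  .negSucc 703, .negSucc 1796, .ofNat 3574⟩, .q ⟨.ofNat 737, .negSucc 256,
  .negSucc 479, .ofNat 0⟩ ⟨.negSucc 1072, .negSucc 703, .negSucc 1796,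
  .ofNat 3574⟩],
[.q ⟨.negSucc 149, .negSucc 169, .ofNat 320, .ofNat 0⟩ ⟨.negSucc 489, .ofNat
  170, .ofNat 320, .ofNat 0⟩, .q ⟨.ofNat 147, .ofNat 173, .negSucc 319,
  .ofNat 0⟩ ⟨.negSucc 492, .ofNat 173, .ofNat 320, .ofNat 0⟩, .q ⟨.ofNat
  490, .negSucc 169, .negSucc 319, .ofNat 0⟩ ⟨.ofNat 14413, .negSucc 8781,
  .negSucc 2542, .negSucc 3087⟩, .q ⟨.ofNat 493, .negSucc 172, .negSucc 319,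
  .ofNat 0⟩ ⟨.ofNat 14413, .negSucc 8781, .negSucc 2542, .negSucc 3087⟩, .q
  ⟨.ofNat 490, .negSucc 169, .negSucc 319, .ofNat 0⟩ ⟨.negSucc 609, .negSucc
  228, .negSucc 2377, .ofNat 3217⟩, .q ⟨.ofNat 493, .negSucc 172, .negSucc
  319, .ofNat 0⟩ ⟨.negSucc 609, .negSucc 228, .negSucc 2377, .ofNat 3217⟩,
  .q ⟨.ofNat 490, .negSucc 169, .negSucc 319, .ofNat 0⟩ ⟨.ofNat 866, .ofNat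
  615, .negSucc 156, .negSucc 1323⟩, .q ⟨.ofNat 493, .negSucc 172, .negSucc
  319, .ofNat 0⟩ ⟨.ofNat 866, .ofNat 615, .negSucc 156, .negSucc 1323⟩, .q
  ⟨.ofNat 490, .negSucc 169, .negSucc 319, .ofNat 0⟩ ⟨.negSucc 2447,
  .negSucc 2253, .ofNat 779, .ofNat 3923⟩, .q ⟨.ofNat 493, .negSucc 172,
  .negSucc 319, .ofNat 0⟩ ⟨.negSucc 2447, .negSucc 2253, .ofNat 779, .ofNat
  3923⟩],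
[.l ⟨.ofNat 0, .ofNat 40, .ofNat 0, .negSucc 34⟩ ⟨.ofNat 0, .ofNat 40,
  .ofNat 0, .ofNat 35⟩, .l ⟨.ofNat 0, .negSucc 39, .ofNat 0, .ofNat 38⟩
  ⟨.ofNat 0, .ofNat 40, .ofNat 0, .ofNat 38⟩, .l ⟨.ofNat 0, .ofNat 40,
  .ofNat 0, .negSucc 34⟩ ⟨.ofNat 0, .ofNat 0, .ofNat 2000, .ofNat 1799⟩, .l
  ⟨.ofNat 0, .ofNat 40, .ofNat 0, .negSucc 37⟩ ⟨.ofNat 0, .ofNat 0, .ofNat
  2000, .ofNat 1799⟩, .l ⟨.ofNat 0, .ofNat 40, .ofNat 0, .negSucc 34⟩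
  ⟨.ofNat 0, .ofNat 344, .negSucc 3984, .negSucc 3973⟩, .l ⟨.ofNat 0, .ofNat
  40, .ofNat 0, .negSucc 37⟩ ⟨.ofNat 0, .ofNat 344, .negSucc 3984, .negSucc
  3973⟩, .l ⟨.ofNat 0, .ofNat 40, .ofNat 0, .negSucc 34⟩ ⟨.ofNat 0, .ofNat
  3294, .negSucc 2268, .ofNat 585⟩, .l ⟨.ofNat 0, .ofNat 40, .ofNat 0,
  .negSucc 37⟩ ⟨.ofNat 0, .ofNat 3294, .negSucc 2268, .ofNat 585⟩],
[.q ⟨.negSucc 454, .negSucc 504, .ofNat 960, .ofNat 0⟩ ⟨.negSucc 1464,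
  .ofNat 505, .ofNat 960, .ofNat 0⟩, .q ⟨.ofNat 444, .ofNat 516, .negSucc
  959, .ofNat 0⟩ ⟨.negSucc 1475, .ofNat 516, .ofNat 960, .ofNat 0⟩, .q
  ⟨.ofNat 1465, .negSucc 504, .negSucc 959, .ofNat 0⟩ ⟨.ofNat 14157,
  .negSucc 10156, .ofNat 0, .negSucc 3999⟩, .q ⟨.ofNat 1476, .negSucc 515,
  .negSucc 959, .ofNat 0⟩ ⟨.ofNat 14157, .negSucc 10156, .ofNat 0, .negSucc
  3999⟩, .q ⟨.ofNat 1465, .negSucc 504, .negSucc 959, .ofNat 0⟩ ⟨.negSucc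
  932, .negSucc 563, .negSucc 1978, .ofNat 3476⟩, .q ⟨.ofNat 1476, .negSucc
  515, .negSucc 959, .ofNat 0⟩ ⟨.negSucc 932, .negSucc 563, .negSucc 1978,
  .ofNat 3476⟩, .q ⟨.ofNat 1465, .negSucc 504, .negSucc 959, .ofNat 0⟩
  ⟨.ofNat 911, .ofNat 139, .ofNat 2254, .negSucc 3303⟩, .q ⟨.ofNat 1476,
  .negSucc 515, .negSucc 959, .ofNat 0⟩ ⟨.ofNat 911, .ofNat 139, .ofNat
  2254, .negSucc 3303⟩, .q ⟨.ofNat 1465, .negSucc 504, .negSucc 959, .ofNat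
  0⟩ ⟨.negSucc 1407, .negSucc 1419, .ofNat 1395, .ofNat 1433⟩, .q ⟨.ofNat
  1476, .negSucc 515, .negSucc 959, .ofNat 0⟩ ⟨.negSucc 1407, .negSucc 1419,
  .ofNat 1395, .ofNat 1433⟩],
[.q ⟨.negSucc 7, .negSucc 71, .ofNat 80, .ofNat 0⟩ ⟨.negSucc 151, .ofNat 72,
  .ofNat 80, .ofNat 0⟩, .q ⟨.ofNat 5, .ofNat 75, .negSucc 79, .ofNat 0⟩
  ⟨.negSucc 154, .ofNat 75, .ofNat 80, .ofNat 0⟩, .q ⟨.ofNat 152, .negSucc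
  71, .negSucc 79, .ofNat 0⟩ ⟨.ofNat 2554, .negSucc 1210, .ofNat 2076,
  .negSucc 3418⟩, .q ⟨.ofNat 155, .negSucc 74, .negSucc 79, .ofNat 0⟩
  ⟨.ofNat 2554, .negSucc 1210, .ofNat 2076, .negSucc 3418⟩, .q ⟨.ofNat 152,
  .negSucc 71, .negSucc 79, .ofNat 0⟩ ⟨.ofNat 776, .negSucc 2118, .negSucc
  2075, .ofNat 3419⟩, .q ⟨.ofNat 155, .negSucc 74, .negSucc 79, .ofNat 0⟩
  ⟨.ofNat 776, .negSucc 2118, .negSucc 2075, .ofNat 3419⟩],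
[.q ⟨.negSucc 228, .negSucc 250, .ofNat 480, .ofNat 0⟩ ⟨.negSucc 730, .ofNat
  251, .ofNat 480, .ofNat 0⟩, .q ⟨.ofNat 219, .ofNat 261, .negSucc 479,
  .ofNat 0⟩ ⟨.negSucc 740, .ofNat 261, .ofNat 480, .ofNat 0⟩, .q ⟨.ofNat
  731, .negSucc 250, .negSucc 479, .ofNat 0⟩ ⟨.ofNat 1429, .ofNat 629,
  .ofNat 1606, .negSucc 3663⟩, .q ⟨.ofNat 741, .negSucc 260, .negSucc 479,
  .ofNat 0⟩ ⟨.ofNat 1429, .ofNat 629, .ofNat 1606, .negSucc 3663⟩, .q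
  ⟨.ofNat 731, .negSucc 250, .negSucc 479, .ofNat 0⟩ ⟨.negSucc 603, .negSucc
  424, .negSucc 802, .ofNat 1832⟩, .q ⟨.ofNat 741, .negSucc 260, .negSucc
  479, .ofNat 0⟩ ⟨.negSucc 603, .negSucc 424, .negSucc 802, .ofNat 1832⟩],
[.q ⟨.ofNat 11, .negSucc 12, .negSucc 17, .ofNat 20⟩ ⟨.ofNat 29, .negSucc
  1726, .ofNat 858, .ofNat 840⟩, .q ⟨.ofNat 11, .negSucc 12, .negSucc 17,
  .ofNat 20⟩ ⟨.ofNat 4820, .negSucc 2571, .negSucc 987, .negSucc 1259⟩, .q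
  ⟨.ofNat 11, .negSucc 12, .negSucc 17, .ofNat 20⟩ ⟨.ofNat 898, .ofNat 2887,
  .negSucc 2004, .negSucc 1779⟩, .q ⟨.ofNat 11, .negSucc 12, .negSucc 17,
  .ofNat 20⟩ ⟨.negSucc 4056, .ofNat 3688, .negSucc 90, .ofNat 460⟩, .q
  ⟨.ofNat 11, .negSucc 12, .negSucc 17, .ofNat 20⟩ ⟨.negSucc 4710, .ofNat
  1738, .ofNat 1253, .ofNat 1720⟩],
[.l ⟨.ofNat 0, .ofNat 80, .ofNat 0, .negSucc 70⟩ ⟨.ofNat 0, .ofNat 80,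
  .ofNat 0, .ofNat 71⟩, .l ⟨.ofNat 0, .negSucc 79, .ofNat 0, .ofNat 74⟩
  ⟨.ofNat 0, .ofNat 80, .ofNat 0, .ofNat 74⟩, .l ⟨.ofNat 0, .ofNat 80,
  .ofNat 0, .negSucc 70⟩ ⟨.ofNat 0, .ofNat 0, .ofNat 4000, .ofNat 3523⟩, .l
  ⟨.ofNat 0, .ofNat 80, .ofNat 0, .negSucc 73⟩ ⟨.ofNat 0, .ofNat 0, .ofNat
  4000, .ofNat 3523⟩, .l ⟨.ofNat 0, .ofNat 80, .ofNat 0, .negSucc 70⟩
  ⟨.ofNat 0, .ofNat 0, .negSucc 1999, .negSucc 2142⟩, .l ⟨.ofNat 0, .ofNat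
  80, .ofNat 0, .negSucc 73⟩ ⟨.ofNat 0, .ofNat 0, .negSucc 1999, .negSucc
  2142⟩, .l ⟨.ofNat 0, .ofNat 80, .ofNat 0, .negSucc 70⟩ ⟨.ofNat 0, .ofNat
  2359, .ofNat 3230, .ofNat 5008⟩, .l ⟨.ofNat 0, .ofNat 80, .ofNat 0,
  .negSucc 73⟩ ⟨.ofNat 0, .ofNat 2359, .ofNat 3230, .ofNat 5008⟩],
[.l ⟨.ofNat 0, .ofNat 40, .ofNat 0, .negSucc 34⟩ ⟨.ofNat 0, .ofNat 40,
  .ofNat 0, .ofNat 35⟩, .l ⟨.ofNat 0, .negSucc 39, .ofNat 0, .ofNat 36⟩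
  ⟨.ofNat 0, .ofNat 40, .ofNat 0, .ofNat 36⟩, .l ⟨.ofNat 0, .ofNat 40,
  .ofNat 0, .negSucc 34⟩ ⟨.ofNat 0, .negSucc 717, .ofNat 3935, .ofNat 2910⟩,
  .l ⟨.ofNat 0, .ofNat 40, .ofNat 0, .negSucc 35⟩ ⟨.ofNat 0, .negSucc 717,
  .ofNat 3935, .ofNat 2910⟩, .l ⟨.ofNat 0, .ofNat 40, .ofNat 0, .negSucc 34⟩
  ⟨.ofNat 0, .ofNat 718, .negSucc 3934, .negSucc 3579⟩, .l ⟨.ofNat 0, .ofNat
  40, .ofNat 0, .negSucc 35⟩ ⟨.ofNat 0, .ofNat 718, .negSucc 3934, .negSucc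
  3579⟩],
[.q ⟨.negSucc 19, .negSucc 19, .ofNat 40, .ofNat 0⟩ ⟨.negSucc 59, .ofNat 20,
  .ofNat 40, .ofNat 0⟩, .q ⟨.ofNat 17, .ofNat 23, .negSucc 39, .ofNat 0⟩
  ⟨.negSucc 62, .ofNat 23, .ofNat 40, .ofNat 0⟩, .q ⟨.ofNat 60, .negSucc 19,
  .negSucc 39, .ofNat 0⟩ ⟨.ofNat 1189, .negSucc 584, .ofNat 2510, .negSucc
  3113⟩, .q ⟨.ofNat 63, .negSucc 22, .negSucc 39, .ofNat 0⟩ ⟨.ofNat 1189,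
  .negSucc 584, .ofNat 2510, .negSucc 3113⟩, .q ⟨.ofNat 60, .negSucc 19,
  .negSucc 39, .ofNat 0⟩ ⟨.negSucc 245, .negSucc 55, .negSucc 1254, .ofNat
  1557⟩, .q ⟨.ofNat 63, .negSucc 22, .negSucc 39, .ofNat 0⟩ ⟨.negSucc 245,
  .negSucc 55, .negSucc 1254, .ofNat 1557⟩, .q ⟨.ofNat 60, .negSucc 19,
  .negSucc 39, .ofNat 0⟩ ⟨.negSucc 1006, .negSucc 638, .negSucc 1882, .ofNat
  3529⟩, .q ⟨.ofNat 63, .negSucc 22, .negSucc 39, .ofNat 0⟩ ⟨.negSucc 1006,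
  .negSucc 638, .negSucc 1882, .ofNat 3529⟩],
[.q ⟨.negSucc 0, .ofNat 1, .ofNat 0, .ofNat 0⟩ ⟨.negSucc 1996, .ofNat 77,
  .ofNat 1920, .ofNat 0⟩, .q ⟨.negSucc 0, .ofNat 1, .ofNat 0, .ofNat 0⟩
  ⟨.ofNat 1843, .ofNat 77, .negSucc 1919, .ofNat 0⟩, .l ⟨.ofNat 0, .ofNat 0,
  .negSucc 319, .negSucc 186⟩ ⟨.ofNat 0, .ofNat 0, .ofNat 0, .ofNat 1⟩, .l
  ⟨.ofNat 0, .ofNat 0, .ofNat 960, .ofNat 731⟩ ⟨.ofNat 0, .ofNat 0, .ofNat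
  0, .ofNat 1⟩],
[.q ⟨.negSucc 25, .negSucc 20, .ofNat 15, .ofNat 32⟩ ⟨.negSucc 8823, .ofNat
  5796, .ofNat 11860, .negSucc 8831⟩, .q ⟨.negSucc 25, .negSucc 20, .ofNat
  15, .ofNat 32⟩ ⟨.ofNat 4164, .negSucc 15555, .ofNat 8960, .ofNat 2432⟩, .q
  ⟨.negSucc 25, .negSucc 20, .ofNat 15, .ofNat 32⟩ ⟨.ofNat 1920, .negSucc
  947, .negSucc 3019, .ofNat 2048⟩, .q ⟨.negSucc 25, .negSucc 20, .ofNat 15,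
  .ofNat 32⟩ ⟨.negSucc 4503, .ofNat 15676, .negSucc 8739, .negSucc 2431⟩],
[.q ⟨.negSucc 0, .ofNat 1, .ofNat 0, .ofNat 0⟩ ⟨.negSucc 1968, .ofNat 49,
  .ofNat 1920, .ofNat 0⟩, .q ⟨.negSucc 0, .ofNat 1, .ofNat 0, .ofNat 0⟩
  ⟨.ofNat 311, .ofNat 9, .negSucc 319, .ofNat 0⟩, .l ⟨.ofNat 0, .ofNat 0,
  .negSucc 1919, .negSucc 1050⟩ ⟨.ofNat 0, .ofNat 0, .ofNat 0, .ofNat 1⟩, .l
  ⟨.ofNat 0, .ofNat 0, .ofNat 640, .ofNat 499⟩ ⟨.ofNat 0, .ofNat 0, .ofNat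
  0, .ofNat 1⟩],
[.q ⟨.negSucc 39, .negSucc 39, .ofNat 80, .ofNat 0⟩ ⟨.negSucc 119, .ofNat
  40, .ofNat 80, .ofNat 0⟩, .q ⟨.ofNat 37, .ofNat 43, .negSucc 79, .ofNat 0⟩
  ⟨.negSucc 122, .ofNat 43, .ofNat 80, .ofNat 0⟩, .q ⟨.ofNat 120, .negSucc
  39, .negSucc 79, .ofNat 0⟩ ⟨.ofNat 11143, .negSucc 5507, .negSucc 2572,
  .negSucc 3061⟩, .q ⟨.ofNat 123, .negSucc 42, .negSucc 79, .ofNat 0⟩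
  ⟨.ofNat 11143, .negSucc 5507, .negSucc 2572, .negSucc 3061⟩, .q ⟨.ofNat
  120, .negSucc 39, .negSucc 79, .ofNat 0⟩ ⟨.negSucc 2100, .negSucc 1766,
  .negSucc 129, .ofNat 3998⟩, .q ⟨.ofNat 123, .negSucc 42, .negSucc 79,
  .ofNat 0⟩ ⟨.negSucc 2100, .negSucc 1766, .negSucc 129, .ofNat 3998⟩, .q
  ⟨.ofNat 120, .negSucc 39, .negSucc 79, .ofNat 0⟩ ⟨.ofNat 2676, .ofNat
  1943, .negSucc 676, .negSucc 3941⟩, .q ⟨.ofNat 123, .negSucc 42, .negSucc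
  79, .ofNat 0⟩ ⟨.ofNat 2676, .ofNat 1943, .negSucc 676, .negSucc 3941⟩, .q
  ⟨.ofNat 120, .negSucc 39, .negSucc 79, .ofNat 0⟩ ⟨.negSucc 755, .negSucc
  402, .negSucc 2188, .ofNat 3348⟩, .q ⟨.ofNat 123, .negSucc 42, .negSucc
  79, .ofNat 0⟩ ⟨.negSucc 755, .negSucc 402, .negSucc 2188, .ofNat 3348⟩],
[.q ⟨.ofNat 0, .negSucc 0, .negSucc 0, .ofNat 2⟩ ⟨.negSucc 399, .negSucc 2,
  .ofNat 397, .ofNat 6⟩, .q ⟨.ofNat 0, .negSucc 0, .negSucc 0, .ofNat 2⟩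
  ⟨.ofNat 1414, .negSucc 866, .negSucc 866, .ofNat 320⟩, .q ⟨.ofNat 0,
  .negSucc 0, .negSucc 0, .ofNat 2⟩ ⟨.ofNat 4981, .negSucc 1638, .negSucc
  4321, .ofNat 980⟩, .q ⟨.ofNat 0, .negSucc 0, .negSucc 0, .ofNat 2⟩
  ⟨.negSucc 2187, .ofNat 1903, .ofNat 111, .ofNat 174⟩],
[.q ⟨.ofNat 17, .negSucc 18, .negSucc 27, .ofNat 30⟩ ⟨.negSucc 2702,
  .negSucc 1437, .ofNat 2011, .ofNat 2130⟩, .q ⟨.ofNat 17, .negSucc 18,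
  .negSucc 27, .ofNat 30⟩ ⟨.ofNat 4792, .negSucc 3132, .negSucc 818,
  .negSucc 839⟩, .q ⟨.ofNat 17, .negSucc 18, .negSucc 27, .ofNat 30⟩ ⟨.ofNat
  222, .ofNat 1562, .negSucc 913, .negSucc 869⟩],
[.q ⟨.ofNat 17, .negSucc 18, .negSucc 27, .ofNat 30⟩ ⟨.ofNat 866, .ofNat
  2871, .negSucc 1906, .negSucc 1829⟩, .q ⟨.ofNat 17, .negSucc 18, .negSucc
  27, .ofNat 30⟩ ⟨.negSucc 3361, .ofNat 4121, .negSucc 458, .negSucc 299⟩,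
  .q ⟨.ofNat 17, .negSucc 18, .negSucc 27, .ofNat 30⟩ ⟨.negSucc 3340,
  .negSucc 754, .ofNat 1906, .ofNat 2190⟩, .q ⟨.ofNat 17, .negSucc 18,
  .negSucc 27, .ofNat 30⟩ ⟨.ofNat 776, .negSucc 2018, .ofNat 583, .ofNat
  660⟩, .q ⟨.ofNat 17, .negSucc 18, .negSucc 27, .ofNat 30⟩ ⟨.ofNat 4857,
  .negSucc 1981, .negSucc 1464, .negSucc 1409⟩],
[.q ⟨.negSucc 39, .negSucc 39, .ofNat 80, .ofNat 0⟩ ⟨.negSucc 119, .ofNat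
  40, .ofNat 80, .ofNat 0⟩, .q ⟨.ofNat 37, .ofNat 43, .negSucc 79, .ofNat 0⟩
  ⟨.negSucc 122, .ofNat 43, .ofNat 80, .ofNat 0⟩, .q ⟨.ofNat 120, .negSucc
  39, .negSucc 79, .ofNat 0⟩ ⟨.ofNat 2757, .ofNat 2740, .negSucc 2078,
  .negSucc 3417⟩, .q ⟨.ofNat 123, .negSucc 42, .negSucc 79, .ofNat 0⟩
  ⟨.ofNat 2757, .ofNat 2740, .negSucc 2078, .negSucc 3417⟩, .q ⟨.ofNat 120,
  .negSucc 39, .negSucc 79, .ofNat 0⟩ ⟨.negSucc 2125, .negSucc 3370, .ofNat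
  2079, .ofNat 3418⟩, .q ⟨.ofNat 123, .negSucc 42, .negSucc 79, .ofNat 0⟩
  ⟨.negSucc 2125, .negSucc 3370, .ofNat 2079, .ofNat 3418⟩, .q ⟨.ofNat 120,
  .negSucc 39, .negSucc 79, .ofNat 0⟩ ⟨.ofNat 2061, .ofNat 1995, .negSucc
  55, .negSucc 3999⟩, .q ⟨.ofNat 123, .negSucc 42, .negSucc 79, .ofNat 0⟩
  ⟨.ofNat 2061, .ofNat 1995, .negSucc 55, .negSucc 3999⟩],
[.q ⟨.ofNat 11, .negSucc 12, .negSucc 17, .ofNat 20⟩ ⟨.negSucc 2206, .ofNat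
  4044, .negSucc 1136, .negSucc 699⟩, .q ⟨.ofNat 11, .negSucc 12, .negSucc
  17, .ofNat 20⟩ ⟨.negSucc 4427, .ofNat 848, .ofNat 1600, .ofNat 1980⟩, .q
  ⟨.ofNat 11, .negSucc 12, .negSucc 17, .ofNat 20⟩ ⟨.ofNat 803, .negSucc
  3776, .ofNat 1514, .ofNat 1460⟩, .q ⟨.ofNat 11, .negSucc 12, .negSucc 17,
  .ofNat 20⟩ ⟨.ofNat 4765, .negSucc 1712, .negSucc 1431, .negSucc 1619⟩],
[.q ⟨.ofNat 11, .negSucc 12, .negSucc 17, .ofNat 20⟩ ⟨.negSucc 3744, .ofNat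
  3855, .negSucc 329, .ofNat 220⟩, .q ⟨.ofNat 11, .negSucc 12, .negSucc 17,
  .ofNat 20⟩ ⟨.negSucc 4758, .ofNat 2451, .ofNat 908, .ofNat 1400⟩, .q
  ⟨.ofNat 11, .negSucc 12, .negSucc 17, .ofNat 20⟩ ⟨.ofNat 781, .negSucc
  3750, .ofNat 1550, .ofNat 1420⟩, .q ⟨.ofNat 11, .negSucc 12, .negSucc 17,
  .ofNat 20⟩ ⟨.ofNat 4464, .negSucc 877, .negSucc 1685, .negSucc 1899⟩],
[.q ⟨.ofNat 11, .negSucc 12, .negSucc 17, .ofNat 20⟩ ⟨.ofNat 4615, .negSucc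
  1221, .negSucc 1612, .negSucc 1779⟩, .q ⟨.ofNat 11, .negSucc 12, .negSucc
  17, .ofNat 20⟩ ⟨.negSucc 4388, .ofNat 3465, .ofNat 244, .ofNat 680⟩, .q
  ⟨.ofNat 11, .negSucc 12, .negSucc 17, .ofNat 20⟩ ⟨.negSucc 249, .negSucc
  3302, .ofNat 1773, .ofNat 1780⟩, .q ⟨.ofNat 11, .negSucc 12, .negSucc 17,
  .ofNat 20⟩ ⟨.ofNat 3014, .negSucc 4168, .ofNat 655, .ofNat 500⟩],
[.q ⟨.ofNat 17, .negSucc 18, .negSucc 27, .ofNat 30⟩ ⟨.negSucc 4827, .ofNat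
  2364, .ofNat 1114, .ofNat 1350⟩, .q ⟨.ofNat 17, .negSucc 18, .negSucc 27,
  .ofNat 30⟩ ⟨.ofNat 3245, .negSucc 4180, .ofNat 486, .ofNat 450⟩, .q
  ⟨.ofNat 17, .negSucc 18, .negSucc 27, .ofNat 30⟩ ⟨.ofNat 1543, .ofNat
  2410, .negSucc 2002, .negSucc 1949⟩],
[.q ⟨.negSucc 451, .negSucc 507, .ofNat 960, .ofNat 0⟩ ⟨.negSucc 1467,
  .ofNat 508, .ofNat 960, .ofNat 0⟩, .q ⟨.ofNat 443, .ofNat 517, .negSucc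
  959, .ofNat 0⟩ ⟨.negSucc 1476, .ofNat 517, .ofNat 960, .ofNat 0⟩, .q
  ⟨.ofNat 1468, .negSucc 507, .negSucc 959, .ofNat 0⟩ ⟨.ofNat 1273, .ofNat
  460, .ofNat 1826, .negSucc 3558⟩, .q ⟨.ofNat 1477, .negSucc 516, .negSucc
  959, .ofNat 0⟩ ⟨.ofNat 1273, .ofNat 460, .ofNat 1826, .negSucc 3558⟩, .q
  ⟨.ofNat 1468, .negSucc 507, .negSucc 959, .ofNat 0⟩ ⟨.negSucc 1368,
  .negSucc 1019, .negSucc 1368, .ofNat 3758⟩, .q ⟨.ofNat 1477, .negSucc 516,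
  .negSucc 959, .ofNat 0⟩ ⟨.negSucc 1368, .negSucc 1019, .negSucc 1368,
  .ofNat 3758⟩],
[.q ⟨.negSucc 74, .negSucc 84, .ofNat 160, .ofNat 0⟩ ⟨.negSucc 244, .ofNat
  85, .ofNat 160, .ofNat 0⟩, .q ⟨.ofNat 72, .ofNat 88, .negSucc 159, .ofNat
  0⟩ ⟨.negSucc 247, .ofNat 88, .ofNat 160, .ofNat 0⟩, .q ⟨.ofNat 245,
  .negSucc 84, .negSucc 159, .ofNat 0⟩ ⟨.ofNat 13874, .negSucc 10200, .ofNat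
  315, .negSucc 3987⟩, .q ⟨.ofNat 248, .negSucc 87, .negSucc 159, .ofNat 0⟩
  ⟨.ofNat 13874, .negSucc 10200, .ofNat 315, .negSucc 3987⟩, .q ⟨.ofNat 245,
  .negSucc 84, .negSucc 159, .ofNat 0⟩ ⟨.negSucc 1981, .negSucc 1690,
  .negSucc 314, .ofNat 3988⟩, .q ⟨.ofNat 248, .negSucc 87, .negSucc 159,
  .ofNat 0⟩ ⟨.negSucc 1981, .negSucc 1690, .negSucc 314, .ofNat 3988⟩, .q
  ⟨.ofNat 245, .negSucc 84, .negSucc 159, .ofNat 0⟩ ⟨.ofNat 2447, .ofNat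
  1661, .negSucc 108, .negSucc 3998⟩, .q ⟨.ofNat 248, .negSucc 87, .negSucc
  159, .ofNat 0⟩ ⟨.ofNat 2447, .ofNat 1661, .negSucc 108, .negSucc 3998⟩, .q
  ⟨.ofNat 245, .negSucc 84, .negSucc 159, .ofNat 0⟩ ⟨.negSucc 331, .ofNat
  47, .negSucc 2681, .ofNat 2967⟩, .q ⟨.ofNat 248, .negSucc 87, .negSucc
  159, .ofNat 0⟩ ⟨.negSucc 331, .ofNat 47, .negSucc 2681, .ofNat 2967⟩],
[.q ⟨.negSucc 234, .negSucc 244, .ofNat 480, .ofNat 0⟩ ⟨.negSucc 724, .ofNat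
  245, .ofNat 480, .ofNat 0⟩, .q ⟨.ofNat 227, .ofNat 253, .negSucc 479,
  .ofNat 0⟩ ⟨.negSucc 732, .ofNat 253, .ofNat 480, .ofNat 0⟩, .q ⟨.ofNat
  725, .negSucc 244, .negSucc 479, .ofNat 0⟩ ⟨.ofNat 657, .ofNat 281, .ofNat
  865, .negSucc 1802⟩, .q ⟨.ofNat 733, .negSucc 252, .negSucc 479, .ofNat 0⟩
  ⟨.ofNat 657, .ofNat 281, .ofNat 865, .negSucc 1802⟩, .q ⟨.ofNat 725,
  .negSucc 244, .negSucc 479, .ofNat 0⟩ ⟨.negSucc 558, .negSucc 378,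
  .negSucc 864, .ofNat 1803⟩, .q ⟨.ofNat 733, .negSucc 252, .negSucc 479,
  .ofNat 0⟩ ⟨.negSucc 558, .negSucc 378, .negSucc 864, .ofNat 1803⟩],
[.q ⟨.negSucc 37, .negSucc 41, .ofNat 80, .ofNat 0⟩ ⟨.negSucc 121, .ofNat
  42, .ofNat 80, .ofNat 0⟩, .q ⟨.ofNat 35, .ofNat 45, .negSucc 79, .ofNat 0⟩
  ⟨.negSucc 124, .ofNat 45, .ofNat 80, .ofNat 0⟩, .q ⟨.ofNat 122, .negSucc
  41, .negSucc 79, .ofNat 0⟩ ⟨.ofNat 446, .ofNat 179, .ofNat 577, .negSucc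
  1201⟩, .q ⟨.ofNat 125, .negSucc 44, .negSucc 79, .ofNat 0⟩ ⟨.ofNat 446,
  .ofNat 179, .ofNat 577, .negSucc 1201⟩, .q ⟨.ofNat 122, .negSucc 41,
  .negSucc 79, .ofNat 0⟩ ⟨.negSucc 1117, .negSucc 756, .negSucc 1730, .ofNat
  3606⟩, .q ⟨.ofNat 125, .negSucc 44, .negSucc 79, .ofNat 0⟩ ⟨.negSucc 1117,
  .negSucc 756, .negSucc 1730, .ofNat 3606⟩],
[.q ⟨.negSucc 20, .negSucc 18, .ofNat 40, .ofNat 0⟩ ⟨.negSucc 58, .ofNat 19,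
  .ofNat 40, .ofNat 0⟩, .q ⟨.ofNat 18, .ofNat 22, .negSucc 39, .ofNat 0⟩
  ⟨.negSucc 61, .ofNat 22, .ofNat 40, .ofNat 0⟩, .q ⟨.ofNat 59, .negSucc 18,
  .negSucc 39, .ofNat 0⟩ ⟨.ofNat 771, .ofNat 320, .ofNat 2230, .negSucc
  3320⟩, .q ⟨.ofNat 62, .negSucc 21, .negSucc 39, .ofNat 0⟩ ⟨.ofNat 771,
  .ofNat 320, .ofNat 2230, .negSucc 3320⟩, .q ⟨.ofNat 59, .negSucc 18,
  .negSucc 39, .ofNat 0⟩ ⟨.negSucc 719, .negSucc 370, .negSucc 2229, .ofNat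
  3321⟩, .q ⟨.ofNat 62, .negSucc 21, .negSucc 39, .ofNat 0⟩ ⟨.negSucc 719,
  .negSucc 370, .negSucc 2229, .ofNat 3321⟩, .q ⟨.ofNat 59, .negSucc 18,
  .negSucc 39, .ofNat 0⟩ ⟨.negSucc 1425, .negSucc 1065, .negSucc 1292,
  .ofNat 3785⟩, .q ⟨.ofNat 62, .negSucc 21, .negSucc 39, .ofNat 0⟩ ⟨.negSucc
  1425, .negSucc 1065, .negSucc 1292, .ofNat 3785⟩],
[.q ⟨.negSucc 113, .negSucc 125, .ofNat 240, .ofNat 0⟩ ⟨.negSucc 365, .ofNat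
  126, .ofNat 240, .ofNat 0⟩, .q ⟨.ofNat 109, .ofNat 131, .negSucc 239,
  .ofNat 0⟩ ⟨.negSucc 370, .ofNat 131, .ofNat 240, .ofNat 0⟩, .q ⟨.ofNat
  366, .negSucc 125, .negSucc 239, .ofNat 0⟩ ⟨.ofNat 1872, .negSucc 96,
  .ofNat 1798, .negSucc 3572⟩, .q ⟨.ofNat 371, .negSucc 130, .negSucc 239,
  .ofNat 0⟩ ⟨.ofNat 1872, .negSucc 96, .ofNat 1798, .negSucc 3572⟩, .q
  ⟨.ofNat 366, .negSucc 125, .negSucc 239, .ofNat 0⟩ ⟨.negSucc 1071,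
  .negSucc 702, .negSucc 1797, .ofNat 3573⟩, .q ⟨.ofNat 371, .negSucc 130,
  .negSucc 239, .ofNat 0⟩ ⟨.negSucc 1071, .negSucc 702, .negSucc 1797,
  .ofNat 3573⟩],
[.q ⟨.negSucc 20, .negSucc 18, .ofNat 40, .ofNat 0⟩ ⟨.negSucc 58, .ofNat 19,
  .ofNat 40, .ofNat 0⟩, .q ⟨.ofNat 18, .ofNat 22, .negSucc 39, .ofNat 0⟩
  ⟨.negSucc 61, .ofNat 22, .ofNat 40, .ofNat 0⟩, .q ⟨.ofNat 59, .negSucc 18,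
  .negSucc 39, .ofNat 0⟩ ⟨.ofNat 1424, .ofNat 548, .ofNat 1665, .negSucc
  3636⟩, .q ⟨.ofNat 62, .negSucc 21, .negSucc 39, .ofNat 0⟩ ⟨.ofNat 1424,
  .ofNat 548, .ofNat 1665, .negSucc 3636⟩, .q ⟨.ofNat 59, .negSucc 18,
  .negSucc 39, .ofNat 0⟩ ⟨.negSucc 1165, .negSucc 805, .negSucc 1664, .ofNat
  3637⟩, .q ⟨.ofNat 62, .negSucc 21, .negSucc 39, .ofNat 0⟩ ⟨.negSucc 1165,
  .negSucc 805, .negSucc 1664, .ofNat 3637⟩, .q ⟨.ofNat 59, .negSucc 18,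
  .negSucc 39, .ofNat 0⟩ ⟨.ofNat 1317, .ofNat 1322, .negSucc 1827, .negSucc
  810⟩, .q ⟨.ofNat 62, .negSucc 21, .negSucc 39, .ofNat 0⟩ ⟨.ofNat 1317,
  .ofNat 1322, .negSucc 1827, .negSucc 810⟩],
[.q ⟨.ofNat 0, .negSucc 0, .negSucc 0, .ofNat 2⟩ ⟨.ofNat 4000, .negSucc 383,
  .negSucc 4383, .ofNat 768⟩, .q ⟨.ofNat 0, .negSucc 0, .negSucc 0, .ofNat
  2⟩ ⟨.negSucc 999, .ofNat 909, .negSucc 90, .ofNat 182⟩, .q ⟨.ofNat 0,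
  .negSucc 0, .negSucc 0, .ofNat 2⟩ ⟨.negSucc 3999, .negSucc 118, .ofNat
  3881, .ofNat 238⟩, .q ⟨.ofNat 0, .negSucc 0, .negSucc 0, .ofNat 2⟩ ⟨.ofNat
  5405, .negSucc 4111, .negSucc 2442, .ofNat 1150⟩],
[.l ⟨.ofNat 0, .ofNat 248, .negSucc 3991, .negSucc 422⟩ ⟨.ofNat 0, .ofNat 0,
  .ofNat 0, .ofNat 1⟩, .l ⟨.ofNat 0, .ofNat 3914, .negSucc 822, .ofNat 63⟩
  ⟨.ofNat 0, .ofNat 0, .ofNat 0, .ofNat 1⟩, .l ⟨.ofNat 0, .negSucc 582,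
  .ofNat 3957, .ofNat 3298⟩ ⟨.ofNat 0, .ofNat 0, .ofNat 0, .ofNat 1⟩, .l
  ⟨.ofNat 0, .negSucc 3993, .ofNat 224, .ofNat 141⟩ ⟨.ofNat 0, .ofNat 0,
  .ofNat 0, .ofNat 1⟩, .l ⟨.ofNat 0, .negSucc 3381, .negSucc 2134, .negSucc
  134⟩ ⟨.ofNat 0, .ofNat 0, .ofNat 0, .ofNat 1⟩],
[.q ⟨.negSucc 0, .ofNat 0, .ofNat 0, .ofNat 1⟩ ⟨.negSucc 1234, .ofNat 1388,
  .ofNat 3751, .negSucc 3903⟩, .q ⟨.negSucc 0, .ofNat 0, .ofNat 0, .ofNat 1⟩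
  ⟨.ofNat 889, .negSucc 999, .ofNat 0, .ofNat 111⟩, .q ⟨.negSucc 0, .ofNat
  0, .ofNat 0, .ofNat 1⟩ ⟨.negSucc 2942, .ofNat 3215, .negSucc 2378, .ofNat
  2107⟩],
[.l ⟨.ofNat 0, .ofNat 1725, .negSucc 3608, .negSucc 423⟩ ⟨.ofNat 0, .ofNat
  0, .ofNat 0, .ofNat 1⟩, .l ⟨.ofNat 0, .ofNat 3538, .ofNat 1865, .ofNat
  2453⟩ ⟨.ofNat 0, .ofNat 0, .ofNat 0, .ofNat 1⟩, .l ⟨.ofNat 0, .negSucc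
  3708, .ofNat 1498, .ofNat 272⟩ ⟨.ofNat 0, .ofNat 0, .ofNat 0, .ofNat 1⟩,
  .l ⟨.ofNat 0, .negSucc 3603, .negSucc 1735, .negSucc 84⟩ ⟨.ofNat 0, .ofNat
  0, .ofNat 0, .ofNat 1⟩],
[.l ⟨.ofNat 0, .ofNat 2828, .ofNat 2828, .ofNat 2617⟩ ⟨.ofNat 0, .ofNat 0,
  .ofNat 0, .ofNat 1⟩, .l ⟨.ofNat 0, .negSucc 3234, .ofNat 2353, .ofNat 375⟩
  ⟨.ofNat 0, .ofNat 0, .ofNat 0, .ofNat 1⟩, .l ⟨.ofNat 0, .negSucc 1891,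
  .negSucc 648, .negSucc 18⟩ ⟨.ofNat 0, .ofNat 0, .ofNat 0, .ofNat 1⟩, .l
  ⟨.ofNat 0, .negSucc 120, .negSucc 3997, .negSucc 414⟩ ⟨.ofNat 0, .ofNat 0,
  .ofNat 0, .ofNat 1⟩],
[.q ⟨.negSucc 0, .ofNat 0, .ofNat 0, .ofNat 1⟩ ⟨.ofNat 2734, .negSucc 3176,
  .ofNat 2430, .negSucc 1986⟩, .q ⟨.negSucc 0, .ofNat 0, .ofNat 0, .ofNat 1⟩
  ⟨.ofNat 3551, .negSucc 3818, .negSucc 1189, .ofNat 1458⟩, .q ⟨.negSucc 0,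
  .ofNat 0, .ofNat 0, .ofNat 1⟩ ⟨.negSucc 1001, .ofNat 961, .negSucc 1753,
  .ofNat 1795⟩, .q ⟨.negSucc 0, .ofNat 0, .ofNat 0, .ofNat 1⟩ ⟨.negSucc
  2868, .ofNat 2828, .ofNat 2828, .negSucc 2786⟩],
[.l ⟨.ofNat 0, .ofNat 4000, .ofNat 0, .ofNat 121⟩ ⟨.ofNat 0, .ofNat 0,
  .ofNat 0, .ofNat 1⟩, .l ⟨.ofNat 0, .ofNat 1546, .ofNat 3689, .ofNat 324⟩
  ⟨.ofNat 0, .ofNat 0, .ofNat 0, .ofNat 1⟩, .l ⟨.ofNat 0, .negSucc 3998,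
  .ofNat 91, .ofNat 112⟩ ⟨.ofNat 0, .ofNat 0, .ofNat 0, .ofNat 1⟩, .l
  ⟨.ofNat 0, .negSucc 2952, .negSucc 2697, .negSucc 173⟩ ⟨.ofNat 0, .ofNat
  0, .ofNat 0, .ofNat 1⟩],
[.q ⟨.negSucc 0, .ofNat 1, .ofNat 0, .ofNat 0⟩ ⟨.negSucc 1576, .negSucc 342,
  .ofNat 1920, .ofNat 0⟩, .q ⟨.negSucc 0, .ofNat 1, .ofNat 0, .ofNat 0⟩
  ⟨.ofNat 961, .ofNat 959, .negSucc 1919, .ofNat 0⟩, .l ⟨.ofNat 0, .ofNat 0,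
  .negSucc 1919, .negSucc 192⟩ ⟨.ofNat 0, .ofNat 0, .ofNat 0, .ofNat 1⟩, .l
  ⟨.ofNat 0, .ofNat 0, .ofNat 640, .ofNat 149⟩ ⟨.ofNat 0, .ofNat 0, .ofNat
  0, .ofNat 1⟩],
[.l ⟨.ofNat 0, .ofNat 20, .ofNat 0, .negSucc 15⟩ ⟨.ofNat 0, .ofNat 20,
  .ofNat 0, .ofNat 16⟩, .l ⟨.ofNat 0, .negSucc 19, .ofNat 0, .ofNat 17⟩
  ⟨.ofNat 0, .ofNat 20, .ofNat 0, .ofNat 17⟩, .l ⟨.ofNat 0, .ofNat 20,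
  .ofNat 0, .negSucc 15⟩ ⟨.ofNat 0, .ofNat 0, .ofNat 400, .ofNat 381⟩, .l
  ⟨.ofNat 0, .ofNat 20, .ofNat 0, .negSucc 16⟩ ⟨.ofNat 0, .ofNat 0, .ofNat
  400, .ofNat 381⟩, .l ⟨.ofNat 0, .ofNat 20, .ofNat 0, .negSucc 15⟩ ⟨.ofNat
  0, .ofNat 1126, .negSucc 3837, .negSucc 3120⟩, .l ⟨.ofNat 0, .ofNat 20,
  .ofNat 0, .negSucc 16⟩ ⟨.ofNat 0, .ofNat 1126, .negSucc 3837, .negSucc
  3120⟩],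
[.q ⟨.negSucc 6, .negSucc 12, .ofNat 20, .ofNat 0⟩ ⟨.negSucc 32, .ofNat 13,
  .ofNat 20, .ofNat 0⟩, .q ⟨.ofNat 5, .ofNat 15, .negSucc 19, .ofNat 0⟩
  ⟨.negSucc 34, .ofNat 15, .ofNat 20, .ofNat 0⟩, .q ⟨.ofNat 33, .negSucc 12,
  .negSucc 19, .ofNat 0⟩ ⟨.ofNat 2523, .ofNat 611, .ofNat 788, .negSucc
  3921⟩, .q ⟨.ofNat 35, .negSucc 14, .negSucc 19, .ofNat 0⟩ ⟨.ofNat 2523,
  .ofNat 611, .ofNat 788, .negSucc 3921⟩, .q ⟨.ofNat 33, .negSucc 12,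
  .negSucc 19, .ofNat 0⟩ ⟨.ofNat 553, .negSucc 3686, .negSucc 787, .ofNat
  3922⟩, .q ⟨.ofNat 35, .negSucc 14, .negSucc 19, .ofNat 0⟩ ⟨.ofNat 553,
  .negSucc 3686, .negSucc 787, .ofNat 3922⟩, .q ⟨.ofNat 33, .negSucc 12,
  .negSucc 19, .ofNat 0⟩ ⟨.ofNat 1782, .negSucc 481, .ofNat 2103, .negSucc
  3402⟩, .q ⟨.ofNat 35, .negSucc 14, .negSucc 19, .ofNat 0⟩ ⟨.ofNat 1782,
  .negSucc 481, .ofNat 2103, .negSucc 3402⟩],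
[.l ⟨.ofNat 0, .ofNat 480, .ofNat 0, .negSucc 406⟩ ⟨.ofNat 0, .ofNat 480,
  .ofNat 0, .ofNat 407⟩, .l ⟨.ofNat 0, .negSucc 479, .ofNat 0, .ofNat 416⟩
  ⟨.ofNat 0, .ofNat 480, .ofNat 0, .ofNat 416⟩, .l ⟨.ofNat 0, .ofNat 480,
  .ofNat 0, .negSucc 406⟩ ⟨.ofNat 0, .negSucc 1471, .ofNat 3719, .ofNat
  686⟩, .l ⟨.ofNat 0, .ofNat 480, .ofNat 0, .negSucc 415⟩ ⟨.ofNat 0,
  .negSucc 1471, .ofNat 3719, .ofNat 686⟩, .l ⟨.ofNat 0, .ofNat 480, .ofNat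
  0, .negSucc 406⟩ ⟨.ofNat 0, .negSucc 411, .negSucc 3978, .negSucc 3670⟩,
  .l ⟨.ofNat 0, .ofNat 480, .ofNat 0, .negSucc 415⟩ ⟨.ofNat 0, .negSucc 411,
  .negSucc 3978, .negSucc 3670⟩],
[.q ⟨.negSucc 10, .negSucc 948, .ofNat 960, .ofNat 0⟩ ⟨.negSucc 1908, .ofNat
  949, .ofNat 960, .ofNat 0⟩, .q ⟨.ofNat 1, .ofNat 959, .negSucc 959, .ofNat
  0⟩ ⟨.negSucc 1918, .ofNat 959, .ofNat 960, .ofNat 0⟩, .q ⟨.ofNat 1909,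
  .negSucc 948, .negSucc 959, .ofNat 0⟩ ⟨.ofNat 14837, .negSucc 9290,
  .negSucc 2216, .negSucc 3328⟩, .q ⟨.ofNat 1919, .negSucc 958, .negSucc
  959, .ofNat 0⟩ ⟨.ofNat 14837, .negSucc 9290, .negSucc 2216, .negSucc
  3328⟩, .q ⟨.ofNat 1909, .negSucc 948, .negSucc 959, .ofNat 0⟩ ⟨.negSucc
  1852, .negSucc 236, .ofNat 92, .ofNat 1998⟩, .q ⟨.ofNat 1919, .negSucc
  958, .negSucc 959, .ofNat 0⟩ ⟨.negSucc 1852, .negSucc 236, .ofNat 92,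
  .ofNat 1998⟩, .q ⟨.ofNat 1909, .negSucc 948, .negSucc 959, .ofNat 0⟩
  ⟨.ofNat 4085, .negSucc 709, .ofNat 582, .negSucc 3956⟩, .q ⟨.ofNat 1919,
  .negSucc 958, .negSucc 959, .ofNat 0⟩ ⟨.ofNat 4085, .negSucc 709, .ofNat
  582, .negSucc 3956⟩, .q ⟨.ofNat 1909, .negSucc 948, .negSucc 959, .ofNat
  0⟩ ⟨.negSucc 1921, .ofNat 3243, .negSucc 3410, .ofNat 2090⟩, .q ⟨.ofNat
  1919, .negSucc 958, .negSucc 959, .ofNat 0⟩ ⟨.negSucc 1921, .ofNat 3243,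
  .negSucc 3410, .ofNat 2090⟩],
[.l ⟨.ofNat 0, .negSucc 2828, .ofNat 2828, .negSucc 101⟩ ⟨.ofNat 0, .ofNat
  0, .ofNat 0, .ofNat 1⟩, .l ⟨.ofNat 0, .negSucc 3466, .negSucc 1994,
  .negSucc 268⟩ ⟨.ofNat 0, .ofNat 0, .ofNat 0, .ofNat 1⟩, .l ⟨.ofNat 0,
  .ofNat 49, .negSucc 3999, .ofNat 108⟩ ⟨.ofNat 0, .ofNat 0, .ofNat 0,
  .ofNat 1⟩, .l ⟨.ofNat 0, .ofNat 800, .ofNat 0, .ofNat 79⟩ ⟨.ofNat 0,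
  .ofNat 0, .ofNat 0, .ofNat 1⟩],
[.q ⟨.negSucc 537, .negSucc 421, .ofNat 960, .ofNat 0⟩ ⟨.negSucc 1381,
  .ofNat 422, .ofNat 960, .ofNat 0⟩, .q ⟨.ofNat 531, .ofNat 429, .negSucc
  959, .ofNat 0⟩ ⟨.negSucc 1388, .ofNat 429, .ofNat 960, .ofNat 0⟩, .q
  ⟨.ofNat 1382, .negSucc 421, .negSucc 959, .ofNat 0⟩ ⟨.ofNat 113, .ofNat
  887, .ofNat 0, .negSucc 999⟩, .q ⟨.ofNat 1389, .negSucc 428, .negSucc 959,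
  .ofNat 0⟩ ⟨.ofNat 113, .ofNat 887, .ofNat 0, .negSucc 999⟩, .q ⟨.ofNat
  1382, .negSucc 421, .negSucc 959, .ofNat 0⟩ ⟨.ofNat 435, .negSucc 2890,
  .negSucc 1319, .ofNat 3776⟩, .q ⟨.ofNat 1389, .negSucc 428, .negSucc 959,
  .ofNat 0⟩ ⟨.ofNat 435, .negSucc 2890, .negSucc 1319, .ofNat 3776⟩],
[.q ⟨.negSucc 538, .negSucc 420, .ofNat 960, .ofNat 0⟩ ⟨.negSucc 1380,
  .ofNat 421, .ofNat 960, .ofNat 0⟩, .q ⟨.ofNat 533, .ofNat 427, .negSucc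
  959, .ofNat 0⟩ ⟨.negSucc 1386, .ofNat 427, .ofNat 960, .ofNat 0⟩, .q
  ⟨.ofNat 1381, .negSucc 420, .negSucc 959, .ofNat 0⟩ ⟨.ofNat 11919,
  .negSucc 8731, .ofNat 743, .negSucc 3929⟩, .q ⟨.ofNat 1387, .negSucc 426,
  .negSucc 959, .ofNat 0⟩ ⟨.ofNat 11919, .negSucc 8731, .ofNat 743, .negSucc
  3929⟩, .q ⟨.ofNat 1381, .negSucc 420, .negSucc 959, .ofNat 0⟩ ⟨.ofNat 91,
  .negSucc 3277, .negSucc 742, .ofNat 3930⟩, .q ⟨.ofNat 1387, .negSucc 426,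
  .negSucc 959, .ofNat 0⟩ ⟨.ofNat 91, .negSucc 3277, .negSucc 742, .ofNat
  3930⟩, .q ⟨.ofNat 1381, .negSucc 420, .negSucc 959, .ofNat 0⟩ ⟨.negSucc
  1635, .ofNat 474, .ofNat 3349, .negSucc 2186⟩, .q ⟨.ofNat 1387, .negSucc
  426, .negSucc 959, .ofNat 0⟩ ⟨.negSucc 1635, .ofNat 474, .ofNat 3349,
  .negSucc 2186⟩],
[.q ⟨.negSucc 10, .negSucc 948, .ofNat 960, .ofNat 0⟩ ⟨.negSucc 1908, .ofNat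
  949, .ofNat 960, .ofNat 0⟩, .q ⟨.ofNat 3, .ofNat 957, .negSucc 959, .ofNat
  0⟩ ⟨.negSucc 1916, .ofNat 957, .ofNat 960, .ofNat 0⟩, .q ⟨.ofNat 1909,
  .negSucc 948, .negSucc 959, .ofNat 0⟩ ⟨.ofNat 3143, .negSucc 2342, .ofNat
  0, .negSucc 799⟩, .q ⟨.ofNat 1917, .negSucc 956, .negSucc 959, .ofNat 0⟩
  ⟨.ofNat 3143, .negSucc 2342, .ofNat 0, .negSucc 799⟩, .q ⟨.ofNat 1909,
  .negSucc 948, .negSucc 959, .ofNat 0⟩ ⟨.negSucc 2906, .ofNat 2220,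
  .negSucc 2463, .ofNat 3151⟩, .q ⟨.ofNat 1917, .negSucc 956, .negSucc 959,
  .ofNat 0⟩ ⟨.negSucc 2906, .ofNat 2220, .negSucc 2463, .ofNat 3151⟩, .q
  ⟨.ofNat 1909, .negSucc 948, .negSucc 959, .ofNat 0⟩ ⟨.ofNat 4117, .ofNat
  271, .negSucc 408, .negSucc 3978⟩, .q ⟨.ofNat 1917, .negSucc 956, .negSucc
  959, .ofNat 0⟩ ⟨.ofNat 4117, .ofNat 271, .negSucc 408, .negSucc 3978⟩, .q
  ⟨.ofNat 1909, .negSucc 948, .negSucc 959, .ofNat 0⟩ ⟨.negSucc 3711,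
  .negSucc 215, .negSucc 70, .ofNat 3999⟩, .q ⟨.ofNat 1917, .negSucc 956,
  .negSucc 959, .ofNat 0⟩ ⟨.negSucc 3711, .negSucc 215, .negSucc 70, .ofNat
  3999⟩],
[.q ⟨.negSucc 11, .negSucc 947, .ofNat 960, .ofNat 0⟩ ⟨.negSucc 1907, .ofNat
  948, .ofNat 960, .ofNat 0⟩, .q ⟨.ofNat 5, .ofNat 955, .negSucc 959, .ofNat
  0⟩ ⟨.negSucc 1914, .ofNat 955, .ofNat 960, .ofNat 0⟩, .q ⟨.ofNat 1908,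
  .negSucc 947, .negSucc 959, .ofNat 0⟩ ⟨.ofNat 7859, .negSucc 5721,
  .negSucc 141, .negSucc 1994⟩, .q ⟨.ofNat 1915, .negSucc 954, .negSucc 959,
  .ofNat 0⟩ ⟨.ofNat 7859, .negSucc 5721, .negSucc 141, .negSucc 1994⟩, .q
  ⟨.ofNat 1908, .negSucc 947, .negSucc 959, .ofNat 0⟩ ⟨.negSucc 1852,
  .negSucc 283, .ofNat 142, .ofNat 1995⟩, .q ⟨.ofNat 1915, .negSucc 954,
  .negSucc 959, .ofNat 0⟩ ⟨.negSucc 1852, .negSucc 283, .ofNat 142, .ofNat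
  1995⟩, .q ⟨.ofNat 1908, .negSucc 947, .negSucc 959, .ofNat 0⟩ ⟨.ofNat
  3721, .ofNat 1610, .negSucc 1718, .negSucc 3611⟩, .q ⟨.ofNat 1915,
  .negSucc 954, .negSucc 959, .ofNat 0⟩ ⟨.ofNat 3721, .ofNat 1610, .negSucc
  1718, .negSucc 3611⟩, .q ⟨.ofNat 1908, .negSucc 947, .negSucc 959, .ofNat
  0⟩ ⟨.negSucc 2984, .ofNat 2105, .negSucc 2353, .ofNat 3234⟩, .q ⟨.ofNat
  1915, .negSucc 954, .negSucc 959, .ofNat 0⟩ ⟨.negSucc 2984, .ofNat 2105,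
  .negSucc 2353, .ofNat 3234⟩],
[.q ⟨.negSucc 0, .ofNat 0, .ofNat 0, .ofNat 1⟩ ⟨.negSucc 1222, .ofNat 927,
  .ofNat 3891, .negSucc 3594⟩, .q ⟨.negSucc 0, .ofNat 0, .ofNat 0, .ofNat 1⟩
  ⟨.ofNat 599, .negSucc 706, .ofNat 707, .negSucc 598⟩, .q ⟨.negSucc 0,
  .ofNat 0, .ofNat 0, .ofNat 1⟩ ⟨.negSucc 837, .ofNat 1039, .negSucc 1708,
  .ofNat 1508⟩],
[.q ⟨.negSucc 0, .ofNat 0, .ofNat 0, .ofNat 1⟩ ⟨.negSucc 180, .negSucc 193,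
  .ofNat 3995, .negSucc 3619⟩, .q ⟨.negSucc 0, .ofNat 0, .ofNat 0, .ofNat 1⟩
  ⟨.ofNat 3544, .negSucc 3874, .ofNat 991, .negSucc 659⟩, .q ⟨.negSucc 0,
  .ofNat 0, .ofNat 0, .ofNat 1⟩ ⟨.ofNat 1011, .negSucc 1016, .negSucc 3868,
  .ofNat 3875⟩, .q ⟨.negSucc 0, .ofNat 0, .ofNat 0, .ofNat 1⟩ ⟨.negSucc
  2890, .ofNat 2792, .ofNat 2864, .negSucc 2764⟩],
[.l ⟨.ofNat 0, .ofNat 40, .ofNat 0, .negSucc 31⟩ ⟨.ofNat 0, .ofNat 40,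
  .ofNat 0, .ofNat 32⟩, .l ⟨.ofNat 0, .negSucc 39, .ofNat 0, .ofNat 35⟩
  ⟨.ofNat 0, .ofNat 40, .ofNat 0, .ofNat 35⟩, .l ⟨.ofNat 0, .ofNat 40,
  .ofNat 0, .negSucc 31⟩ ⟨.ofNat 0, .negSucc 2500, .ofNat 3122, .negSucc
  437⟩, .l ⟨.ofNat 0, .ofNat 40, .ofNat 0, .negSucc 34⟩ ⟨.ofNat 0, .negSucc
  2500, .ofNat 3122, .negSucc 437⟩, .l ⟨.ofNat 0, .ofNat 40, .ofNat 0,
  .negSucc 31⟩ ⟨.ofNat 0, .ofNat 2501, .negSucc 3121, .ofNat 173⟩, .l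
  ⟨.ofNat 0, .ofNat 40, .ofNat 0, .negSucc 34⟩ ⟨.ofNat 0, .ofNat 2501,
  .negSucc 3121, .ofNat 173⟩, .l ⟨.ofNat 0, .ofNat 40, .ofNat 0, .negSucc
  31⟩ ⟨.ofNat 0, .ofNat 462, .ofNat 653, .ofNat 729⟩, .l ⟨.ofNat 0, .ofNat
  40, .ofNat 0, .negSucc 34⟩ ⟨.ofNat 0, .ofNat 462, .ofNat 653, .ofNat
  729⟩],
[.l ⟨.ofNat 0, .ofNat 480, .ofNat 0, .negSucc 410⟩ ⟨.ofNat 0, .ofNat 480,
  .ofNat 0, .ofNat 411⟩, .l ⟨.ofNat 0, .negSucc 479, .ofNat 0, .ofNat 419⟩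
  ⟨.ofNat 0, .ofNat 480, .ofNat 0, .ofNat 419⟩, .l ⟨.ofNat 0, .ofNat 480,
  .ofNat 0, .negSucc 410⟩ ⟨.ofNat 0, .ofNat 295, .ofNat 3989, .ofNat 2311⟩,
  .l ⟨.ofNat 0, .ofNat 480, .ofNat 0, .negSucc 418⟩ ⟨.ofNat 0, .ofNat 295,
  .ofNat 3989, .ofNat 2311⟩, .l ⟨.ofNat 0, .ofNat 480, .ofNat 0, .negSucc
  410⟩ ⟨.ofNat 0, .negSucc 420, .negSucc 1264, .negSucc 1422⟩, .l ⟨.ofNat 0,
  .ofNat 480, .ofNat 0, .negSucc 418⟩ ⟨.ofNat 0, .negSucc 420, .negSucc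
  1264, .negSucc 1422⟩, .l ⟨.ofNat 0, .ofNat 480, .ofNat 0, .negSucc 410⟩
  ⟨.ofNat 0, .ofNat 862, .negSucc 3905, .negSucc 2516⟩, .l ⟨.ofNat 0, .ofNat
  480, .ofNat 0, .negSucc 418⟩ ⟨.ofNat 0, .ofNat 862, .negSucc 3905,
  .negSucc 2516⟩],
[.l ⟨.ofNat 0, .ofNat 240, .ofNat 0, .negSucc 210⟩ ⟨.ofNat 0, .ofNat 240,
  .ofNat 0, .ofNat 211⟩, .l ⟨.ofNat 0, .negSucc 239, .ofNat 0, .ofNat 215⟩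
  ⟨.ofNat 0, .ofNat 240, .ofNat 0, .ofNat 215⟩, .l ⟨.ofNat 0, .ofNat 240,
  .ofNat 0, .negSucc 210⟩ ⟨.ofNat 0, .ofNat 2673, .ofNat 2976, .ofNat 5029⟩,
  .l ⟨.ofNat 0, .ofNat 240, .ofNat 0, .negSucc 214⟩ ⟨.ofNat 0, .ofNat 2673,
  .ofNat 2976, .ofNat 5029⟩, .l ⟨.ofNat 0, .ofNat 240, .ofNat 0, .negSucc
  210⟩ ⟨.ofNat 0, .ofNat 133, .negSucc 3997, .negSucc 4165⟩, .l ⟨.ofNat 0,
  .ofNat 240, .ofNat 0, .negSucc 214⟩ ⟨.ofNat 0, .ofNat 133, .negSucc 3997,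
  .negSucc 4165⟩, .l ⟨.ofNat 0, .ofNat 240, .ofNat 0, .negSucc 210⟩ ⟨.ofNat
  0, .negSucc 88, .ofNat 3999, .ofNat 3496⟩, .l ⟨.ofNat 0, .ofNat 240,
  .ofNat 0, .negSucc 214⟩ ⟨.ofNat 0, .negSucc 88, .ofNat 3999, .ofNat
  3496⟩],
[.l ⟨.ofNat 0, .ofNat 480, .ofNat 0, .negSucc 423⟩ ⟨.ofNat 0, .ofNat 480,
  .ofNat 0, .ofNat 424⟩, .l ⟨.ofNat 0, .negSucc 479, .ofNat 0, .ofNat 433⟩
  ⟨.ofNat 0, .ofNat 480, .ofNat 0, .ofNat 433⟩, .l ⟨.ofNat 0, .ofNat 480,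
  .ofNat 0, .negSucc 423⟩ ⟨.ofNat 0, .negSucc 1275, .ofNat 3791, .negSucc
  9777⟩, .l ⟨.ofNat 0, .ofNat 480, .ofNat 0, .negSucc 432⟩ ⟨.ofNat 0,
  .negSucc 1275, .ofNat 3791, .negSucc 9777⟩, .l ⟨.ofNat 0, .ofNat 480,
  .ofNat 0, .negSucc 423⟩ ⟨.ofNat 0, .negSucc 1476, .negSucc 3716, .negSucc
  4833⟩, .l ⟨.ofNat 0, .ofNat 480, .ofNat 0, .negSucc 432⟩ ⟨.ofNat 0,
  .negSucc 1476, .negSucc 3716, .negSucc 4833⟩, .l ⟨.ofNat 0, .ofNat 480,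
  .ofNat 0, .negSucc 423⟩ ⟨.ofNat 0, .ofNat 1412, .ofNat 3743, .ofNat 4584⟩,
  .l ⟨.ofNat 0, .ofNat 480, .ofNat 0, .negSucc 432⟩ ⟨.ofNat 0, .ofNat 1412,
  .ofNat 3743, .ofNat 4584⟩],
[.q ⟨.negSucc 0, .ofNat 0, .ofNat 0, .ofNat 1⟩ ⟨.ofNat 1181, .negSucc 1611,
  .ofNat 3661, .negSucc 3229⟩, .q ⟨.negSucc 0, .ofNat 0, .ofNat 0, .ofNat 1⟩
  ⟨.ofNat 2510, .negSucc 2468, .negSucc 3146, .ofNat 3106⟩, .q ⟨.negSucc 0,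
  .ofNat 0, .ofNat 0, .ofNat 1⟩ ⟨.negSucc 2870, .ofNat 2828, .negSucc 2827,
  .ofNat 2871⟩, .q ⟨.negSucc 0, .ofNat 0, .ofNat 0, .ofNat 1⟩ ⟨.negSucc 963,
  .ofNat 851, .ofNat 1810, .negSucc 1696⟩],
[.l ⟨.ofNat 0, .ofNat 480, .ofNat 0, .negSucc 428⟩ ⟨.ofNat 0, .ofNat 480,
  .ofNat 0, .ofNat 429⟩, .l ⟨.ofNat 0, .negSucc 479, .ofNat 0, .ofNat 437⟩
  ⟨.ofNat 0, .ofNat 480, .ofNat 0, .ofNat 437⟩, .l ⟨.ofNat 0, .ofNat 480,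
  .ofNat 0, .negSucc 428⟩ ⟨.ofNat 0, .ofNat 0, .ofNat 4000, .ofNat 3201⟩, .l
  ⟨.ofNat 0, .ofNat 480, .ofNat 0, .negSucc 436⟩ ⟨.ofNat 0, .ofNat 0, .ofNat
  4000, .ofNat 3201⟩, .l ⟨.ofNat 0, .ofNat 480, .ofNat 0, .negSucc 428⟩
  ⟨.ofNat 0, .ofNat 0, .negSucc 3999, .negSucc 3348⟩, .l ⟨.ofNat 0, .ofNat
  480, .ofNat 0, .negSucc 436⟩ ⟨.ofNat 0, .ofNat 0, .negSucc 3999, .negSucc
  3348⟩],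
[.q ⟨.negSucc 12, .negSucc 66, .ofNat 80, .ofNat 0⟩ ⟨.negSucc 146, .ofNat
  67, .ofNat 80, .ofNat 0⟩, .q ⟨.ofNat 10, .ofNat 70, .negSucc 79, .ofNat 0⟩
  ⟨.negSucc 149, .ofNat 70, .ofNat 80, .ofNat 0⟩, .q ⟨.ofNat 147, .negSucc
  66, .negSucc 79, .ofNat 0⟩ ⟨.ofNat 2032, .ofNat 165, .negSucc 207,
  .negSucc 1988⟩, .q ⟨.ofNat 150, .negSucc 69, .negSucc 79, .ofNat 0⟩
  ⟨.ofNat 2032, .ofNat 165, .negSucc 207, .negSucc 1988⟩, .q ⟨.ofNat 147,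
  .negSucc 66, .negSucc 79, .ofNat 0⟩ ⟨.negSucc 2618, .ofNat 2152, .negSucc
  2584, .ofNat 3052⟩, .q ⟨.ofNat 150, .negSucc 69, .negSucc 79, .ofNat 0⟩
  ⟨.negSucc 2618, .ofNat 2152, .negSucc 2584, .ofNat 3052⟩, .q ⟨.ofNat 147,
  .negSucc 66, .negSucc 79, .ofNat 0⟩ ⟨.ofNat 3015, .ofNat 2614, .negSucc
  3095, .negSucc 2532⟩, .q ⟨.ofNat 150, .negSucc 69, .negSucc 79, .ofNat 0⟩
  ⟨.ofNat 3015, .ofNat 2614, .negSucc 3095, .negSucc 2532⟩],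
[.l ⟨.ofNat 0, .ofNat 80, .ofNat 0, .negSucc 66⟩ ⟨.ofNat 0, .ofNat 80,
  .ofNat 0, .ofNat 67⟩, .l ⟨.ofNat 0, .negSucc 79, .ofNat 0, .ofNat 69⟩
  ⟨.ofNat 0, .ofNat 80, .ofNat 0, .ofNat 69⟩, .l ⟨.ofNat 0, .ofNat 80,
  .ofNat 0, .negSucc 66⟩ ⟨.ofNat 0, .ofNat 0, .ofNat 2000, .ofNat 1049⟩, .l
  ⟨.ofNat 0, .ofNat 80, .ofNat 0, .negSucc 68⟩ ⟨.ofNat 0, .ofNat 0, .ofNat
  2000, .ofNat 1049⟩, .l ⟨.ofNat 0, .ofNat 80, .ofNat 0, .negSucc 66⟩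
  ⟨.ofNat 0, .ofNat 538, .negSucc 3963, .negSucc 2850⟩, .l ⟨.ofNat 0, .ofNat
  80, .ofNat 0, .negSucc 68⟩ ⟨.ofNat 0, .ofNat 538, .negSucc 3963, .negSucc
  2850⟩, .l ⟨.ofNat 0, .ofNat 80, .ofNat 0, .negSucc 66⟩ ⟨.ofNat 0, .negSucc
  1834, .negSucc 795, .negSucc 2226⟩, .l ⟨.ofNat 0, .ofNat 80, .ofNat 0,
  .negSucc 68⟩ ⟨.ofNat 0, .negSucc 1834, .negSucc 795, .negSucc 2226⟩],
[.l ⟨.ofNat 0, .ofNat 80, .ofNat 0, .negSucc 66⟩ ⟨.ofNat 0, .ofNat 80,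
  .ofNat 0, .ofNat 67⟩, .l ⟨.ofNat 0, .negSucc 79, .ofNat 0, .ofNat 70⟩
  ⟨.ofNat 0, .ofNat 80, .ofNat 0, .ofNat 70⟩, .l ⟨.ofNat 0, .ofNat 80,
  .ofNat 0, .negSucc 66⟩ ⟨.ofNat 0, .ofNat 421, .ofNat 1955, .ofNat 2137⟩,
  .l ⟨.ofNat 0, .ofNat 80, .ofNat 0, .negSucc 69⟩ ⟨.ofNat 0, .ofNat 421,
  .ofNat 1955, .ofNat 2137⟩, .l ⟨.ofNat 0, .ofNat 80, .ofNat 0, .negSucc 66⟩
  ⟨.ofNat 0, .negSucc 420, .negSucc 1954, .negSucc 2425⟩, .l ⟨.ofNat 0,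
  .ofNat 80, .ofNat 0, .negSucc 69⟩ ⟨.ofNat 0, .negSucc 420, .negSucc 1954,
  .negSucc 2425⟩],
[.l ⟨.ofNat 0, .ofNat 20, .ofNat 0, .negSucc 13⟩ ⟨.ofNat 0, .ofNat 20,
  .ofNat 0, .ofNat 14⟩, .l ⟨.ofNat 0, .negSucc 19, .ofNat 0, .ofNat 15⟩
  ⟨.ofNat 0, .ofNat 20, .ofNat 0, .ofNat 15⟩, .l ⟨.ofNat 0, .ofNat 20,
  .ofNat 0, .negSucc 13⟩ ⟨.ofNat 0, .ofNat 0, .ofNat 800, .ofNat 597⟩, .l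
  ⟨.ofNat 0, .ofNat 20, .ofNat 0, .negSucc 14⟩ ⟨.ofNat 0, .ofNat 0, .ofNat
  800, .ofNat 597⟩, .l ⟨.ofNat 0, .ofNat 20, .ofNat 0, .negSucc 13⟩ ⟨.ofNat
  0, .ofNat 0, .negSucc 1999, .negSucc 1636⟩, .l ⟨.ofNat 0, .ofNat 20,
  .ofNat 0, .negSucc 14⟩ ⟨.ofNat 0, .ofNat 0, .negSucc 1999, .negSucc 1636⟩,
  .l ⟨.ofNat 0, .ofNat 20, .ofNat 0, .negSucc 13⟩ ⟨.ofNat 0, .ofNat 3109,
  .ofNat 2517, .ofNat 4135⟩, .l ⟨.ofNat 0, .ofNat 20, .ofNat 0, .negSucc 14⟩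
  ⟨.ofNat 0, .ofNat 3109, .ofNat 2517, .ofNat 4135⟩],
[.q ⟨.negSucc 0, .negSucc 38, .ofNat 40, .ofNat 0⟩ ⟨.negSucc 78, .ofNat 39,
  .ofNat 40, .ofNat 0⟩, .q ⟨.negSucc 0, .ofNat 41, .negSucc 39, .ofNat 0⟩
  ⟨.negSucc 80, .ofNat 41, .ofNat 40, .ofNat 0⟩, .q ⟨.ofNat 79, .negSucc 38,
  .negSucc 39, .ofNat 0⟩ ⟨.ofNat 532, .negSucc 115, .ofNat 215, .negSucc
  630⟩, .q ⟨.ofNat 81, .negSucc 40, .negSucc 39, .ofNat 0⟩ ⟨.ofNat 532,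
  .negSucc 115, .ofNat 215, .negSucc 630⟩, .q ⟨.ofNat 79, .negSucc 38,
  .negSucc 39, .ofNat 0⟩ ⟨.ofNat 377, .negSucc 1624, .negSucc 644, .ofNat
  1893⟩, .q ⟨.ofNat 81, .negSucc 40, .negSucc 39, .ofNat 0⟩ ⟨.ofNat 377,
  .negSucc 1624, .negSucc 644, .ofNat 1893⟩, .q ⟨.ofNat 79, .negSucc 38,
  .negSucc 39, .ofNat 0⟩ ⟨.ofNat 3298, .ofNat 1457, .negSucc 845, .negSucc
  3908⟩, .q ⟨.ofNat 81, .negSucc 40, .negSucc 39, .ofNat 0⟩ ⟨.ofNat 3298,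
  .ofNat 1457, .negSucc 845, .negSucc 3908⟩],
[.q ⟨.negSucc 0, .ofNat 1, .ofNat 0, .ofNat 0⟩ ⟨.negSucc 326, .ofNat 7,
  .ofNat 320, .ofNat 0⟩, .q ⟨.negSucc 0, .ofNat 1, .ofNat 0, .ofNat 0⟩
  ⟨.ofNat 467, .ofNat 13, .negSucc 479, .ofNat 0⟩, .l ⟨.ofNat 0, .ofNat 0,
  .negSucc 1919, .negSucc 1042⟩ ⟨.ofNat 0, .ofNat 0, .ofNat 0, .ofNat 1⟩, .l
  ⟨.ofNat 0, .ofNat 0, .ofNat 1920, .ofNat 1507⟩ ⟨.ofNat 0, .ofNat 0, .ofNat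
  0, .ofNat 1⟩],
[.q ⟨.negSucc 0, .ofNat 1, .ofNat 0, .ofNat 0⟩ ⟨.negSucc 1956, .ofNat 37,
  .ofNat 1920, .ofNat 0⟩, .q ⟨.negSucc 0, .ofNat 1, .ofNat 0, .ofNat 0⟩
  ⟨.ofNat 1883, .ofNat 37, .negSucc 1919, .ofNat 0⟩, .l ⟨.ofNat 0, .ofNat 0,
  .negSucc 319, .negSucc 166⟩ ⟨.ofNat 0, .ofNat 0, .ofNat 0, .ofNat 1⟩, .l
  ⟨.ofNat 0, .ofNat 0, .ofNat 960, .ofNat 757⟩ ⟨.ofNat 0, .ofNat 0, .ofNat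
  0, .ofNat 1⟩],
[.q ⟨.negSucc 0, .ofNat 0, .ofNat 0, .ofNat 1⟩ ⟨.negSucc 1418, .ofNat 1882,
  .negSucc 3528, .ofNat 3066⟩, .q ⟨.negSucc 0, .ofNat 0, .ofNat 0, .ofNat 1⟩
  ⟨.negSucc 2984, .ofNat 3500, .negSucc 1935, .ofNat 1421⟩, .q ⟨.negSucc 0,
  .ofNat 0, .ofNat 0, .ofNat 1⟩ ⟨.negSucc 1894, .ofNat 1519, .ofNat 3700,
  .negSucc 3323⟩, .q ⟨.negSucc 0, .ofNat 0, .ofNat 0, .ofNat 1⟩ ⟨.ofNat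
  2467, .negSucc 2506, .negSucc 3116, .ofNat 3157⟩],
[.q ⟨.negSucc 0, .ofNat 1, .ofNat 0, .ofNat 0⟩ ⟨.negSucc 1978, .ofNat 59,
  .ofNat 1920, .ofNat 0⟩, .q ⟨.negSucc 0, .ofNat 1, .ofNat 0, .ofNat 0⟩
  ⟨.ofNat 29, .ofNat 1, .negSucc 29, .ofNat 0⟩, .l ⟨.ofNat 0, .ofNat 0,
  .negSucc 1919, .negSucc 1080⟩ ⟨.ofNat 0, .ofNat 0, .ofNat 0, .ofNat 1⟩, .l
  ⟨.ofNat 0, .ofNat 0, .ofNat 480, .ofNat 371⟩ ⟨.ofNat 0, .ofNat 0, .ofNat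
  0, .ofNat 1⟩],
[.q ⟨.ofNat 11, .negSucc 12, .negSucc 17, .ofNat 20⟩ ⟨.negSucc 3986, .ofNat
  3734, .negSucc 146, .ofNat 400⟩, .q ⟨.ofNat 11, .negSucc 12, .negSucc 17,
  .ofNat 20⟩ ⟨.negSucc 2718, .negSucc 1495, .ofNat 2055, .ofNat 2160⟩, .q
  ⟨.ofNat 11, .negSucc 12, .negSucc 17, .ofNat 20⟩ ⟨.ofNat 55, .negSucc 266,
  .ofNat 112, .ofNat 100⟩, .q ⟨.ofNat 11, .negSucc 12, .negSucc 17, .ofNat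
  20⟩ ⟨.ofNat 4053, .negSucc 114, .negSucc 1917, .negSucc 2019⟩, .q ⟨.ofNat
  11, .negSucc 12, .negSucc 17, .ofNat 20⟩ ⟨.negSucc 1767, .ofNat 3951,
  .negSucc 1342, .negSucc 839⟩],
[.q ⟨.negSucc 231, .negSucc 247, .ofNat 480, .ofNat 0⟩ ⟨.negSucc 727, .ofNat
  248, .ofNat 480, .ofNat 0⟩, .q ⟨.ofNat 223, .ofNat 257, .negSucc 479,
  .ofNat 0⟩ ⟨.negSucc 736, .ofNat 257, .ofNat 480, .ofNat 0⟩, .q ⟨.ofNat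
  728, .negSucc 247, .negSucc 479, .ofNat 0⟩ ⟨.ofNat 2399, .ofNat 1601,
  .ofNat 0, .negSucc 3999⟩, .q ⟨.ofNat 737, .negSucc 256, .negSucc 479,
  .ofNat 0⟩ ⟨.ofNat 2399, .ofNat 1601, .ofNat 0, .negSucc 3999⟩, .q ⟨.ofNat
  728, .negSucc 247, .negSucc 479, .ofNat 0⟩ ⟨.negSucc 1068, .negSucc 930,
  .ofNat 0, .ofNat 2000⟩, .q ⟨.ofNat 737, .negSucc 256, .negSucc 479, .ofNat
  0⟩ ⟨.negSucc 1068, .negSucc 930, .ofNat 0, .ofNat 2000⟩, .q ⟨.ofNat 728,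
  .negSucc 247, .negSucc 479, .ofNat 0⟩ ⟨.negSucc 1075, .negSucc 714,
  .negSucc 1786, .ofNat 3578⟩, .q ⟨.ofNat 737, .negSucc 256, .negSucc 479,
  .ofNat 0⟩ ⟨.negSucc 1075, .negSucc 714, .negSucc 1786, .ofNat 3578⟩],
[.q ⟨.negSucc 442, .negSucc 516, .ofNat 960, .ofNat 0⟩ ⟨.negSucc 1476,
  .ofNat 517, .ofNat 960, .ofNat 0⟩, .q ⟨.ofNat 432, .ofNat 528, .negSucc
  959, .ofNat 0⟩ ⟨.negSucc 1487, .ofNat 528, .ofNat 960, .ofNat 0⟩, .q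
  ⟨.ofNat 1477, .negSucc 516, .negSucc 959, .ofNat 0⟩ ⟨.ofNat 13480,
  .negSucc 10875, .ofNat 1209, .negSucc 3812⟩, .q ⟨.ofNat 1488, .negSucc
  527, .negSucc 959, .ofNat 0⟩ ⟨.ofNat 13480, .negSucc 10875, .ofNat 1209,
  .negSucc 3812⟩, .q ⟨.ofNat 1477, .negSucc 516, .negSucc 959, .ofNat 0⟩
  ⟨.negSucc 481, .negSucc 385, .negSucc 402, .ofNat 1271⟩, .q ⟨.ofNat 1488,
  .negSucc 527, .negSucc 959, .ofNat 0⟩ ⟨.negSucc 481, .negSucc 385,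
  .negSucc 402, .ofNat 1271⟩, .q ⟨.ofNat 1477, .negSucc 516, .negSucc 959,
  .ofNat 0⟩ ⟨.ofNat 1066, .ofNat 422, .negSucc 164, .negSucc 1322⟩, .q
  ⟨.ofNat 1488, .negSucc 527, .negSucc 959, .ofNat 0⟩ ⟨.ofNat 1066, .ofNat
  422, .negSucc 164, .negSucc 1322⟩, .q ⟨.ofNat 1477, .negSucc 516, .negSucc
  959, .ofNat 0⟩ ⟨.ofNat 861, .ofNat 1242, .negSucc 3676, .ofNat 1574⟩, .q
  ⟨.ofNat 1488, .negSucc 527, .negSucc 959, .ofNat 0⟩ ⟨.ofNat 861, .ofNat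
  1242, .negSucc 3676, .ofNat 1574⟩],
[.l ⟨.ofNat 0, .ofNat 2830, .negSucc 2826, .ofNat 353⟩ ⟨.ofNat 0, .ofNat 0,
  .ofNat 0, .ofNat 1⟩, .l ⟨.ofNat 0, .ofNat 3826, .ofNat 1168, .ofNat 2825⟩
  ⟨.ofNat 0, .ofNat 0, .ofNat 0, .ofNat 1⟩, .l ⟨.ofNat 0, .negSucc 3374,
  .ofNat 2148, .negSucc 360⟩ ⟨.ofNat 0, .ofNat 0, .ofNat 0, .ofNat 1⟩, .l
  ⟨.ofNat 0, .negSucc 1888, .ofNat 657, .negSucc 190⟩ ⟨.ofNat 0, .ofNat 0,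
  .ofNat 0, .ofNat 1⟩, .l ⟨.ofNat 0, .ofNat 0, .negSucc 3999, .ofNat 103⟩
  ⟨.ofNat 0, .ofNat 0, .ofNat 0, .ofNat 1⟩],
[.l ⟨.ofNat 0, .negSucc 3115, .ofNat 2509, .negSucc 105⟩ ⟨.ofNat 0, .ofNat
  0, .ofNat 0, .ofNat 1⟩, .l ⟨.ofNat 0, .negSucc 2827, .negSucc 2827,
  .negSucc 52⟩ ⟨.ofNat 0, .ofNat 0, .ofNat 0, .ofNat 1⟩, .l ⟨.ofNat 0,
  .negSucc 89, .negSucc 3998, .ofNat 61⟩ ⟨.ofNat 0, .ofNat 0, .ofNat 0,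
  .ofNat 1⟩, .l ⟨.ofNat 0, .ofNat 707, .ofNat 707, .ofNat 65⟩ ⟨.ofNat 0,
  .ofNat 0, .ofNat 0, .ofNat 1⟩],
[.q ⟨.negSucc 15, .negSucc 463, .ofNat 480, .ofNat 0⟩ ⟨.negSucc 943, .ofNat
  464, .ofNat 480, .ofNat 0⟩, .q ⟨.ofNat 9, .ofNat 471, .negSucc 479, .ofNat
  0⟩ ⟨.negSucc 950, .ofNat 471, .ofNat 480, .ofNat 0⟩, .q ⟨.ofNat 944,
  .negSucc 463, .negSucc 479, .ofNat 0⟩ ⟨.ofNat 813, .negSucc 12, .ofNat 0,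
  .negSucc 799⟩, .q ⟨.ofNat 951, .negSucc 470, .negSucc 479, .ofNat 0⟩
  ⟨.ofNat 813, .negSucc 12, .ofNat 0, .negSucc 799⟩, .q ⟨.ofNat 944,
  .negSucc 463, .negSucc 479, .ofNat 0⟩ ⟨.negSucc 932, .negSucc 66, .ofNat
  0, .ofNat 1000⟩, .q ⟨.ofNat 951, .negSucc 470, .negSucc 479, .ofNat 0⟩
  ⟨.negSucc 932, .negSucc 66, .ofNat 0, .ofNat 1000⟩],
[.q ⟨.negSucc 268, .negSucc 210, .ofNat 480, .ofNat 0⟩ ⟨.negSucc 690, .ofNat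
  211, .ofNat 480, .ofNat 0⟩, .q ⟨.ofNat 265, .ofNat 215, .negSucc 479,
  .ofNat 0⟩ ⟨.negSucc 694, .ofNat 215, .ofNat 480, .ofNat 0⟩, .q ⟨.ofNat
  691, .negSucc 210, .negSucc 479, .ofNat 0⟩ ⟨.negSucc 587, .ofNat 721,
  .ofNat 1346, .negSucc 1478⟩, .q ⟨.ofNat 695, .negSucc 214, .negSucc 479,
  .ofNat 0⟩ ⟨.negSucc 587, .ofNat 721, .ofNat 1346, .negSucc 1478⟩, .q
  ⟨.ofNat 691, .negSucc 210, .negSucc 479, .ofNat 0⟩ ⟨.ofNat 104, .negSucc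
  1582, .negSucc 465, .ofNat 1945⟩, .q ⟨.ofNat 695, .negSucc 214, .negSucc
  479, .ofNat 0⟩ ⟨.ofNat 104, .negSucc 1582, .negSucc 465, .ofNat 1945⟩],
[.q ⟨.negSucc 538, .negSucc 420, .ofNat 960, .ofNat 0⟩ ⟨.negSucc 1380,
  .ofNat 421, .ofNat 960, .ofNat 0⟩, .q ⟨.ofNat 532, .ofNat 428, .negSucc
  959, .ofNat 0⟩ ⟨.negSucc 1387, .ofNat 428, .ofNat 960, .ofNat 0⟩, .q
  ⟨.ofNat 1381, .negSucc 420, .negSucc 959, .ofNat 0⟩ ⟨.ofNat 12343,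
  .negSucc 8342, .ofNat 0, .negSucc 3999⟩, .q ⟨.ofNat 1388, .negSucc 427,
  .negSucc 959, .ofNat 0⟩ ⟨.ofNat 12343, .negSucc 8342, .ofNat 0, .negSucc
  3999⟩, .q ⟨.ofNat 1381, .negSucc 420, .negSucc 959, .ofNat 0⟩ ⟨.ofNat 940,
  .negSucc 2127, .negSucc 2170, .ofNat 3359⟩, .q ⟨.ofNat 1388, .negSucc 427,
  .negSucc 959, .ofNat 0⟩ ⟨.ofNat 940, .negSucc 2127, .negSucc 2170, .ofNat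
  3359⟩, .q ⟨.ofNat 1381, .negSucc 420, .negSucc 959, .ofNat 0⟩ ⟨.ofNat
  1542, .ofNat 3949, .negSucc 2064, .negSucc 3425⟩, .q ⟨.ofNat 1388,
  .negSucc 427, .negSucc 959, .ofNat 0⟩ ⟨.ofNat 1542, .ofNat 3949, .negSucc
  2064, .negSucc 3425⟩],
[.q ⟨.negSucc 44, .negSucc 34, .ofNat 80, .ofNat 0⟩ ⟨.negSucc 114, .ofNat
  35, .ofNat 80, .ofNat 0⟩, .q ⟨.ofNat 44, .ofNat 36, .negSucc 79, .ofNat 0⟩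
  ⟨.negSucc 115, .ofNat 36, .ofNat 80, .ofNat 0⟩, .q ⟨.ofNat 115, .negSucc
  34, .negSucc 79, .ofNat 0⟩ ⟨.ofNat 429, .ofNat 1961, .negSucc 438,
  .negSucc 1950⟩, .q ⟨.ofNat 116, .negSucc 35, .negSucc 79, .ofNat 0⟩
  ⟨.ofNat 429, .ofNat 1961, .negSucc 438, .negSucc 1950⟩, .q ⟨.ofNat 115,
  .negSucc 34, .negSucc 79, .ofNat 0⟩ ⟨.ofNat 242, .negSucc 1398, .negSucc
  711, .ofNat 1869⟩, .q ⟨.ofNat 116, .negSucc 35, .negSucc 79, .ofNat 0⟩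
  ⟨.ofNat 242, .negSucc 1398, .negSucc 711, .ofNat 1869⟩],
[.q ⟨.negSucc 262, .negSucc 216, .ofNat 480, .ofNat 0⟩ ⟨.negSucc 696, .ofNat
  217, .ofNat 480, .ofNat 0⟩, .q ⟨.ofNat 255, .ofNat 225, .negSucc 479,
  .ofNat 0⟩ ⟨.negSucc 704, .ofNat 225, .ofNat 480, .ofNat 0⟩, .q ⟨.ofNat
  697, .negSucc 216, .negSucc 479, .ofNat 0⟩ ⟨.ofNat 72, .ofNat 1609, .ofNat
  297, .negSucc 1977⟩, .q ⟨.ofNat 705, .negSucc 224, .negSucc 479, .ofNat 0⟩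
  ⟨.ofNat 72, .ofNat 1609, .ofNat 297, .negSucc 1977⟩, .q ⟨.ofNat 697,
  .negSucc 216, .negSucc 479, .ofNat 0⟩ ⟨.ofNat 29, .negSucc 1709, .negSucc
  296, .ofNat 1978⟩, .q ⟨.ofNat 705, .negSucc 224, .negSucc 479, .ofNat 0⟩
  ⟨.ofNat 29, .negSucc 1709, .negSucc 296, .ofNat 1978⟩],
[.q ⟨.negSucc 264, .negSucc 214, .ofNat 480, .ofNat 0⟩ ⟨.negSucc 694, .ofNat
  215, .ofNat 480, .ofNat 0⟩, .q ⟨.ofNat 256, .ofNat 224, .negSucc 479,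
  .ofNat 0⟩ ⟨.negSucc 703, .ofNat 224, .ofNat 480, .ofNat 0⟩, .q ⟨.ofNat
  695, .negSucc 214, .negSucc 479, .ofNat 0⟩ ⟨.ofNat 4479, .negSucc 2478,
  .ofNat 0, .negSucc 1999⟩, .q ⟨.ofNat 704, .negSucc 223, .negSucc 479,
  .ofNat 0⟩ ⟨.ofNat 4479, .negSucc 2478, .ofNat 0, .negSucc 1999⟩, .q
  ⟨.ofNat 695, .negSucc 214, .negSucc 479, .ofNat 0⟩ ⟨.negSucc 492, .negSucc
  3846, .ofNat 356, .ofNat 3984⟩, .q ⟨.ofNat 704, .negSucc 223, .negSucc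
  479, .ofNat 0⟩ ⟨.negSucc 492, .negSucc 3846, .ofNat 356, .ofNat 3984⟩, .q
  ⟨.ofNat 695, .negSucc 214, .negSucc 479, .ofNat 0⟩ ⟨.negSucc 66, .ofNat
  3010, .ofNat 944, .negSucc 3886⟩, .q ⟨.ofNat 704, .negSucc 223, .negSucc
  479, .ofNat 0⟩ ⟨.negSucc 66, .ofNat 3010, .ofNat 944, .negSucc 3886⟩],
[.q ⟨.negSucc 52, .negSucc 42, .ofNat 96, .ofNat 0⟩ ⟨.negSucc 138, .ofNat
  43, .ofNat 96, .ofNat 0⟩, .q ⟨.ofNat 51, .ofNat 45, .negSucc 95, .ofNat 0⟩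
  ⟨.negSucc 140, .ofNat 45, .ofNat 96, .ofNat 0⟩, .q ⟨.ofNat 139, .negSucc
  42, .negSucc 95, .ofNat 0⟩ ⟨.ofNat 761, .ofNat 3743, .negSucc 540,
  .negSucc 3962⟩, .q ⟨.ofNat 141, .negSucc 44, .negSucc 95, .ofNat 0⟩
  ⟨.ofNat 761, .ofNat 3743, .negSucc 540, .negSucc 3962⟩, .q ⟨.ofNat 139,
  .negSucc 42, .negSucc 95, .ofNat 0⟩ ⟨.negSucc 785, .negSucc 4008, .ofNat
  897, .ofNat 3898⟩, .q ⟨.ofNat 141, .negSucc 44, .negSucc 95, .ofNat 0⟩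
  ⟨.negSucc 785, .negSucc 4008, .ofNat 897, .ofNat 3898⟩],
[.l ⟨.ofNat 0, .ofNat 80, .ofNat 0, .negSucc 64⟩ ⟨.ofNat 0, .ofNat 80,
  .ofNat 0, .ofNat 65⟩, .l ⟨.ofNat 0, .negSucc 79, .ofNat 0, .ofNat 68⟩
  ⟨.ofNat 0, .ofNat 80, .ofNat 0, .ofNat 68⟩, .l ⟨.ofNat 0, .ofNat 80,
  .ofNat 0, .negSucc 64⟩ ⟨.ofNat 0, .ofNat 0, .ofNat 2000, .ofNat 1307⟩, .l
  ⟨.ofNat 0, .ofNat 80, .ofNat 0, .negSucc 67⟩ ⟨.ofNat 0, .ofNat 0, .ofNat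
  2000, .ofNat 1307⟩, .l ⟨.ofNat 0, .ofNat 80, .ofNat 0, .negSucc 64⟩
  ⟨.ofNat 0, .ofNat 267, .negSucc 1981, .negSucc 1424⟩, .l ⟨.ofNat 0, .ofNat
  80, .ofNat 0, .negSucc 67⟩ ⟨.ofNat 0, .ofNat 267, .negSucc 1981, .negSucc
  1424⟩],
[.q ⟨.negSucc 12, .negSucc 66, .ofNat 80, .ofNat 0⟩ ⟨.negSucc 146, .ofNat
  67, .ofNat 80, .ofNat 0⟩, .q ⟨.ofNat 10, .ofNat 70, .negSucc 79, .ofNat 0⟩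
  ⟨.negSucc 149, .ofNat 70, .ofNat 80, .ofNat 0⟩, .q ⟨.ofNat 147, .negSucc
  66, .negSucc 79, .ofNat 0⟩ ⟨.ofNat 14965, .negSucc 13968, .ofNat 2286,
  .negSucc 3281⟩, .q ⟨.ofNat 150, .negSucc 69, .negSucc 79, .ofNat 0⟩
  ⟨.ofNat 14965, .negSucc 13968, .ofNat 2286, .negSucc 3281⟩, .q ⟨.ofNat
  147, .negSucc 66, .negSucc 79, .ofNat 0⟩ ⟨.negSucc 2890, .ofNat 1895,
  .negSucc 2285, .ofNat 3282⟩, .q ⟨.ofNat 150, .negSucc 69, .negSucc 79,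
  .ofNat 0⟩ ⟨.negSucc 2890, .ofNat 1895, .negSucc 2285, .ofNat 3282⟩, .q
  ⟨.ofNat 147, .negSucc 66, .negSucc 79, .ofNat 0⟩ ⟨.ofNat 2024, .ofNat 95,
  .negSucc 122, .negSucc 1995⟩, .q ⟨.ofNat 150, .negSucc 69, .negSucc 79,
  .ofNat 0⟩ ⟨.ofNat 2024, .ofNat 95, .negSucc 122, .negSucc 1995⟩],
[.q ⟨.ofNat 17, .negSucc 18, .negSucc 27, .ofNat 30⟩ ⟨.ofNat 1155, .ofNat
  897, .negSucc 1031, .negSucc 1019⟩, .q ⟨.ofNat 17, .negSucc 18, .negSucc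
  27, .ofNat 30⟩ ⟨.negSucc 4482, .ofNat 3436, .ofNat 357, .ofNat 690⟩, .q
  ⟨.ofNat 17, .negSucc 18, .negSucc 27, .ofNat 30⟩ ⟨.ofNat 1035, .negSucc
  3825, .ofNat 1411, .ofNat 1380⟩],
[.q ⟨.negSucc 0, .ofNat 1, .ofNat 0, .ofNat 0⟩ ⟨.negSucc 1098, .negSucc 820,
  .ofNat 1920, .ofNat 0⟩, .q ⟨.negSucc 0, .ofNat 1, .ofNat 0, .ofNat 0⟩
  ⟨.ofNat 961, .ofNat 959, .negSucc 1919, .ofNat 0⟩, .l ⟨.ofNat 0, .ofNat 0,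
  .negSucc 959, .ofNat 157⟩ ⟨.ofNat 0, .ofNat 0, .ofNat 0, .ofNat 1⟩, .l
  ⟨.ofNat 0, .ofNat 0, .ofNat 640, .ofNat 463⟩ ⟨.ofNat 0, .ofNat 0, .ofNat
  0, .ofNat 1⟩],
[.l ⟨.ofNat 0, .ofNat 480, .ofNat 0, .negSucc 341⟩ ⟨.ofNat 0, .ofNat 480,
  .ofNat 0, .ofNat 342⟩, .l ⟨.ofNat 0, .negSucc 479, .ofNat 0, .ofNat 349⟩
  ⟨.ofNat 0, .ofNat 480, .ofNat 0, .ofNat 349⟩, .l ⟨.ofNat 0, .ofNat 480,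
  .ofNat 0, .negSucc 341⟩ ⟨.ofNat 0, .ofNat 0, .ofNat 250, .ofNat 187⟩, .l
  ⟨.ofNat 0, .ofNat 480, .ofNat 0, .negSucc 348⟩ ⟨.ofNat 0, .ofNat 0, .ofNat
  250, .ofNat 187⟩, .l ⟨.ofNat 0, .ofNat 480, .ofNat 0, .negSucc 341⟩
  ⟨.ofNat 0, .negSucc 2231, .negSucc 3318, .negSucc 4324⟩, .l ⟨.ofNat 0,
  .ofNat 480, .ofNat 0, .negSucc 348⟩ ⟨.ofNat 0, .negSucc 2231, .negSucc
  3318, .negSucc 4324⟩, .l ⟨.ofNat 0, .ofNat 480, .ofNat 0, .negSucc 341⟩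
  ⟨.ofNat 0, .ofNat 3141, .ofNat 2477, .ofNat 4127⟩, .l ⟨.ofNat 0, .ofNat
  480, .ofNat 0, .negSucc 348⟩ ⟨.ofNat 0, .ofNat 3141, .ofNat 2477, .ofNat
  4127⟩],
[.l ⟨.ofNat 0, .ofNat 960, .ofNat 0, .negSucc 688⟩ ⟨.ofNat 0, .ofNat 960,
  .ofNat 0, .ofNat 689⟩, .l ⟨.ofNat 0, .negSucc 959, .ofNat 0, .ofNat 699⟩
  ⟨.ofNat 0, .ofNat 960, .ofNat 0, .ofNat 699⟩, .l ⟨.ofNat 0, .ofNat 960,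
  .ofNat 0, .negSucc 688⟩ ⟨.ofNat 0, .ofNat 1062, .ofNat 3856, .negSucc
  8320⟩, .l ⟨.ofNat 0, .ofNat 960, .ofNat 0, .negSucc 698⟩ ⟨.ofNat 0, .ofNat
  1062, .ofNat 3856, .negSucc 8320⟩, .l ⟨.ofNat 0, .ofNat 960, .ofNat 0,
  .negSucc 688⟩ ⟨.ofNat 0, .negSucc 530, .negSucc 1927, .negSucc 1970⟩, .l
  ⟨.ofNat 0, .ofNat 960, .ofNat 0, .negSucc 698⟩ ⟨.ofNat 0, .negSucc 530,
  .negSucc 1927, .negSucc 1970⟩, .l ⟨.ofNat 0, .ofNat 960, .ofNat 0,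
  .negSucc 688⟩ ⟨.ofNat 0, .ofNat 2757, .ofNat 2898, .ofNat 4165⟩, .l
  ⟨.ofNat 0, .ofNat 960, .ofNat 0, .negSucc 698⟩ ⟨.ofNat 0, .ofNat 2757,
  .ofNat 2898, .ofNat 4165⟩],
[.q ⟨.negSucc 0, .ofNat 1, .ofNat 0, .ofNat 0⟩ ⟨.negSucc 1108, .negSucc 810,
  .ofNat 1920, .ofNat 0⟩, .q ⟨.negSucc 0, .ofNat 1, .ofNat 0, .ofNat 0⟩
  ⟨.ofNat 961, .ofNat 959, .negSucc 1919, .ofNat 0⟩, .l ⟨.ofNat 0, .ofNat 0,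
  .negSucc 639, .ofNat 103⟩ ⟨.ofNat 0, .ofNat 0, .ofNat 0, .ofNat 1⟩, .l
  ⟨.ofNat 0, .ofNat 0, .ofNat 1920, .ofNat 1379⟩ ⟨.ofNat 0, .ofNat 0, .ofNat
  0, .ofNat 1⟩],
[.l ⟨.ofNat 0, .ofNat 480, .ofNat 0, .negSucc 426⟩ ⟨.ofNat 0, .ofNat 480,
  .ofNat 0, .ofNat 427⟩, .l ⟨.ofNat 0, .negSucc 479, .ofNat 0, .ofNat 437⟩
  ⟨.ofNat 0, .ofNat 480, .ofNat 0, .ofNat 437⟩, .l ⟨.ofNat 0, .ofNat 480,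
  .ofNat 0, .negSucc 426⟩ ⟨.ofNat 0, .ofNat 0, .ofNat 100, .ofNat 89⟩, .l
  ⟨.ofNat 0, .ofNat 480, .ofNat 0, .negSucc 436⟩ ⟨.ofNat 0, .ofNat 0, .ofNat
  100, .ofNat 89⟩, .l ⟨.ofNat 0, .ofNat 480, .ofNat 0, .negSucc 426⟩ ⟨.ofNat
  0, .ofNat 0, .negSucc 3999, .negSucc 4292⟩, .l ⟨.ofNat 0, .ofNat 480,
  .ofNat 0, .negSucc 436⟩ ⟨.ofNat 0, .ofNat 0, .negSucc 3999, .negSucc
  4292⟩, .l ⟨.ofNat 0, .ofNat 480, .ofNat 0, .negSucc 426⟩ ⟨.ofNat 0, .ofNat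
  1394, .ofNat 1434, .ofNat 2537⟩, .l ⟨.ofNat 0, .ofNat 480, .ofNat 0,
  .negSucc 436⟩ ⟨.ofNat 0, .ofNat 1394, .ofNat 1434, .ofNat 2537⟩],
[.l ⟨.ofNat 0, .ofNat 160, .ofNat 0, .negSucc 115⟩ ⟨.ofNat 0, .ofNat 160,
  .ofNat 0, .ofNat 116⟩, .l ⟨.ofNat 0, .negSucc 159, .ofNat 0, .ofNat 119⟩
  ⟨.ofNat 0, .ofNat 160, .ofNat 0, .ofNat 119⟩, .l ⟨.ofNat 0, .ofNat 160,
  .ofNat 0, .negSucc 115⟩ ⟨.ofNat 0, .ofNat 2185, .ofNat 3350, .negSucc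
  5787⟩, .l ⟨.ofNat 0, .ofNat 160, .ofNat 0, .negSucc 118⟩ ⟨.ofNat 0, .ofNat
  2185, .ofNat 3350, .negSucc 5787⟩, .l ⟨.ofNat 0, .ofNat 160, .ofNat 0,
  .negSucc 115⟩ ⟨.ofNat 0, .ofNat 1899, .negSucc 3519, .negSucc 1487⟩, .l
  ⟨.ofNat 0, .ofNat 160, .ofNat 0, .negSucc 118⟩ ⟨.ofNat 0, .ofNat 1899,
  .negSucc 3519, .negSucc 1487⟩, .l ⟨.ofNat 0, .ofNat 160, .ofNat 0,
  .negSucc 115⟩ ⟨.ofNat 0, .ofNat 2923, .ofNat 2731, .ofNat 4162⟩, .l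
  ⟨.ofNat 0, .ofNat 160, .ofNat 0, .negSucc 118⟩ ⟨.ofNat 0, .ofNat 2923,
  .ofNat 2731, .ofNat 4162⟩],
[.l ⟨.ofNat 0, .ofNat 80, .ofNat 0, .negSucc 54⟩ ⟨.ofNat 0, .ofNat 80,
  .ofNat 0, .ofNat 55⟩, .l ⟨.ofNat 0, .negSucc 79, .ofNat 0, .ofNat 59⟩
  ⟨.ofNat 0, .ofNat 80, .ofNat 0, .ofNat 59⟩, .l ⟨.ofNat 0, .ofNat 80,
  .ofNat 0, .negSucc 54⟩ ⟨.ofNat 0, .ofNat 2559, .ofNat 3074, .ofNat 4174⟩,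
  .l ⟨.ofNat 0, .ofNat 80, .ofNat 0, .negSucc 58⟩ ⟨.ofNat 0, .ofNat 2559,
  .ofNat 3074, .ofNat 4174⟩, .l ⟨.ofNat 0, .ofNat 80, .ofNat 0, .negSucc 54⟩
  ⟨.ofNat 0, .ofNat 793, .negSucc 3920, .negSucc 2644⟩, .l ⟨.ofNat 0, .ofNat
  80, .ofNat 0, .negSucc 58⟩ ⟨.ofNat 0, .ofNat 793, .negSucc 3920, .negSucc
  2644⟩],
[.q ⟨.negSucc 19, .negSucc 19, .ofNat 40, .ofNat 0⟩ ⟨.negSucc 59, .ofNat 20,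
  .ofNat 40, .ofNat 0⟩, .q ⟨.ofNat 17, .ofNat 23, .negSucc 39, .ofNat 0⟩
  ⟨.negSucc 62, .ofNat 23, .ofNat 40, .ofNat 0⟩, .q ⟨.ofNat 60, .negSucc 19,
  .negSucc 39, .ofNat 0⟩ ⟨.ofNat 2399, .ofNat 1601, .ofNat 0, .negSucc
  3999⟩, .q ⟨.ofNat 63, .negSucc 22, .negSucc 39, .ofNat 0⟩ ⟨.ofNat 2399,
  .ofNat 1601, .ofNat 0, .negSucc 3999⟩, .q ⟨.ofNat 60, .negSucc 19,
  .negSucc 39, .ofNat 0⟩ ⟨.negSucc 1571, .negSucc 1230, .negSucc 1054,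
  .ofNat 3858⟩, .q ⟨.ofNat 63, .negSucc 22, .negSucc 39, .ofNat 0⟩ ⟨.negSucc
  1571, .negSucc 1230, .negSucc 1054, .ofNat 3858⟩, .q ⟨.ofNat 60, .negSucc
  19, .negSucc 39, .ofNat 0⟩ ⟨.negSucc 425, .negSucc 243, .negSucc 1038,
  .ofNat 1709⟩, .q ⟨.ofNat 63, .negSucc 22, .negSucc 39, .ofNat 0⟩ ⟨.negSucc
  425, .negSucc 243, .negSucc 1038, .ofNat 1709⟩],
[.q ⟨.negSucc 0, .ofNat 1, .ofNat 0, .ofNat 0⟩ ⟨.negSucc 252, .ofNat 13,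
  .ofNat 240, .ofNat 0⟩, .q ⟨.negSucc 0, .ofNat 1, .ofNat 0, .ofNat 0⟩
  ⟨.ofNat 1813, .ofNat 107, .negSucc 1919, .ofNat 0⟩, .l ⟨.ofNat 0, .ofNat
  0, .negSucc 239, .negSucc 150⟩ ⟨.ofNat 0, .ofNat 0, .ofNat 0, .ofNat 1⟩,
  .l ⟨.ofNat 0, .ofNat 0, .ofNat 1920, .ofNat 1427⟩ ⟨.ofNat 0, .ofNat 0,
  .ofNat 0, .ofNat 1⟩],
[.l ⟨.ofNat 0, .ofNat 480, .ofNat 0, .negSucc 416⟩ ⟨.ofNat 0, .ofNat 480,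
  .ofNat 0, .ofNat 417⟩, .l ⟨.ofNat 0, .negSucc 479, .ofNat 0, .ofNat 427⟩
  ⟨.ofNat 0, .ofNat 480, .ofNat 0, .ofNat 427⟩, .l ⟨.ofNat 0, .ofNat 480,
  .ofNat 0, .negSucc 416⟩ ⟨.ofNat 0, .ofNat 1149, .ofNat 3832, .ofNat 4448⟩,
  .l ⟨.ofNat 0, .ofNat 480, .ofNat 0, .negSucc 426⟩ ⟨.ofNat 0, .ofNat 1149,
  .ofNat 3832, .ofNat 4448⟩, .l ⟨.ofNat 0, .ofNat 480, .ofNat 0, .negSucc
  416⟩ ⟨.ofNat 0, .negSucc 449, .negSucc 1254, .negSucc 1581⟩, .l ⟨.ofNat 0,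
  .ofNat 480, .ofNat 0, .negSucc 426⟩ ⟨.ofNat 0, .negSucc 449, .negSucc
  1254, .negSucc 1581⟩],
[.q ⟨.negSucc 218, .negSucc 260, .ofNat 480, .ofNat 0⟩ ⟨.negSucc 740, .ofNat
  261, .ofNat 480, .ofNat 0⟩, .q ⟨.ofNat 214, .ofNat 266, .negSucc 479,
  .ofNat 0⟩ ⟨.negSucc 745, .ofNat 266, .ofNat 480, .ofNat 0⟩, .q ⟨.ofNat
  741, .negSucc 260, .negSucc 479, .ofNat 0⟩ ⟨.ofNat 12254, .negSucc 8140,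
  .negSucc 114, .negSucc 3997⟩, .q ⟨.ofNat 746, .negSucc 265, .negSucc 479,
  .ofNat 0⟩ ⟨.ofNat 12254, .negSucc 8140, .negSucc 114, .negSucc 3997⟩, .q
  ⟨.ofNat 741, .negSucc 260, .negSucc 479, .ofNat 0⟩ ⟨.negSucc 1845,
  .negSucc 1652, .negSucc 472, .ofNat 3972⟩, .q ⟨.ofNat 746, .negSucc 265,
  .negSucc 479, .ofNat 0⟩ ⟨.negSucc 1845, .negSucc 1652, .negSucc 472,
  .ofNat 3972⟩, .q ⟨.ofNat 741, .negSucc 260, .negSucc 479, .ofNat 0⟩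
  ⟨.negSucc 818, .negSucc 1424, .ofNat 3718, .negSucc 1473⟩, .q ⟨.ofNat 746,
  .negSucc 265, .negSucc 479, .ofNat 0⟩ ⟨.negSucc 818, .negSucc 1424, .ofNat
  3718, .negSucc 1473⟩, .q ⟨.ofNat 741, .negSucc 260, .negSucc 479, .ofNat
  0⟩ ⟨.negSucc 242, .ofNat 131, .negSucc 2771, .ofNat 2884⟩, .q ⟨.ofNat 746,
  .negSucc 265, .negSucc 479, .ofNat 0⟩ ⟨.negSucc 242, .ofNat 131, .negSucc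
  2771, .ofNat 2884⟩],
[.q ⟨.negSucc 439, .negSucc 519, .ofNat 960, .ofNat 0⟩ ⟨.negSucc 1479,
  .ofNat 520, .ofNat 960, .ofNat 0⟩, .q ⟨.ofNat 433, .ofNat 527, .negSucc
  959, .ofNat 0⟩ ⟨.negSucc 1486, .ofNat 527, .ofNat 960, .ofNat 0⟩, .q
  ⟨.ofNat 1480, .negSucc 519, .negSucc 959, .ofNat 0⟩ ⟨.ofNat 7049, .negSucc
  5048, .ofNat 0, .negSucc 1999⟩, .q ⟨.ofNat 1487, .negSucc 526, .negSucc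
  959, .ofNat 0⟩ ⟨.ofNat 7049, .negSucc 5048, .ofNat 0, .negSucc 1999⟩, .q
  ⟨.ofNat 1480, .negSucc 519, .negSucc 959, .ofNat 0⟩ ⟨.negSucc 308, .ofNat
  61, .negSucc 2701, .ofNat 2950⟩, .q ⟨.ofNat 1487, .negSucc 526, .negSucc
  959, .ofNat 0⟩ ⟨.negSucc 308, .ofNat 61, .negSucc 2701, .ofNat 2950⟩, .q
  ⟨.ofNat 1480, .negSucc 519, .negSucc 959, .ofNat 0⟩ ⟨.ofNat 1295, .ofNat
  438, .ofNat 1826, .negSucc 3558⟩, .q ⟨.ofNat 1487, .negSucc 526, .negSucc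
  959, .ofNat 0⟩ ⟨.ofNat 1295, .ofNat 438, .ofNat 1826, .negSucc 3558⟩, .q
  ⟨.ofNat 1480, .negSucc 519, .negSucc 959, .ofNat 0⟩ ⟨.negSucc 2732,
  .negSucc 2829, .ofNat 2268, .ofNat 3295⟩, .q ⟨.ofNat 1487, .negSucc 526,
  .negSucc 959, .ofNat 0⟩ ⟨.negSucc 2732, .negSucc 2829, .ofNat 2268, .ofNat
  3295⟩],
[.l ⟨.ofNat 0, .ofNat 960, .ofNat 0, .negSucc 842⟩ ⟨.ofNat 0, .ofNat 960,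
  .ofNat 0, .ofNat 843⟩, .l ⟨.ofNat 0, .negSucc 959, .ofNat 0, .ofNat 850⟩
  ⟨.ofNat 0, .ofNat 960, .ofNat 0, .ofNat 850⟩, .l ⟨.ofNat 0, .ofNat 960,
  .ofNat 0, .negSucc 842⟩ ⟨.ofNat 0, .ofNat 0, .ofNat 4000, .ofNat 3201⟩, .l
  ⟨.ofNat 0, .ofNat 960, .ofNat 0, .negSucc 849⟩ ⟨.ofNat 0, .ofNat 0, .ofNat
  4000, .ofNat 3201⟩, .l ⟨.ofNat 0, .ofNat 960, .ofNat 0, .negSucc 842⟩
  ⟨.ofNat 0, .ofNat 0, .negSucc 3999, .negSucc 3348⟩, .l ⟨.ofNat 0, .ofNat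
  960, .ofNat 0, .negSucc 849⟩ ⟨.ofNat 0, .ofNat 0, .negSucc 3999, .negSucc
  3348⟩],
[.l ⟨.ofNat 0, .ofNat 240, .ofNat 0, .negSucc 204⟩ ⟨.ofNat 0, .ofNat 240,
  .ofNat 0, .ofNat 205⟩, .l ⟨.ofNat 0, .negSucc 239, .ofNat 0, .ofNat 209⟩
  ⟨.ofNat 0, .ofNat 240, .ofNat 0, .ofNat 209⟩, .l ⟨.ofNat 0, .ofNat 240,
  .ofNat 0, .negSucc 204⟩ ⟨.ofNat 0, .ofNat 0, .ofNat 50, .negSucc 108⟩, .l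
  ⟨.ofNat 0, .ofNat 240, .ofNat 0, .negSucc 208⟩ ⟨.ofNat 0, .ofNat 0, .ofNat
  50, .negSucc 108⟩, .l ⟨.ofNat 0, .ofNat 240, .ofNat 0, .negSucc 204⟩
  ⟨.ofNat 0, .ofNat 0, .negSucc 199, .negSucc 166⟩, .l ⟨.ofNat 0, .ofNat
  240, .ofNat 0, .negSucc 208⟩ ⟨.ofNat 0, .ofNat 0, .negSucc 199, .negSucc
  166⟩, .l ⟨.ofNat 0, .ofNat 240, .ofNat 0, .negSucc 204⟩ ⟨.ofNat 0,
  .negSucc 3345, .ofNat 2191, .negSucc 1724⟩, .l ⟨.ofNat 0, .ofNat 240,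
  .ofNat 0, .negSucc 208⟩ ⟨.ofNat 0, .negSucc 3345, .ofNat 2191, .negSucc
  1724⟩],
[.l ⟨.ofNat 0, .ofNat 160, .ofNat 0, .negSucc 136⟩ ⟨.ofNat 0, .ofNat 160,
  .ofNat 0, .ofNat 137⟩, .l ⟨.ofNat 0, .negSucc 159, .ofNat 0, .ofNat 140⟩
  ⟨.ofNat 0, .ofNat 160, .ofNat 0, .ofNat 140⟩, .l ⟨.ofNat 0, .ofNat 160,
  .ofNat 0, .negSucc 136⟩ ⟨.ofNat 0, .negSucc 1440, .ofNat 3732, .negSucc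
  10142⟩, .l ⟨.ofNat 0, .ofNat 160, .ofNat 0, .negSucc 139⟩ ⟨.ofNat 0,
  .negSucc 1440, .ofNat 3732, .negSucc 10142⟩, .l ⟨.ofNat 0, .ofNat 160,
  .ofNat 0, .negSucc 136⟩ ⟨.ofNat 0, .ofNat 1441, .negSucc 3731, .negSucc
  1874⟩, .l ⟨.ofNat 0, .ofNat 160, .ofNat 0, .negSucc 139⟩ ⟨.ofNat 0, .ofNat
  1441, .negSucc 3731, .negSucc 1874⟩, .l ⟨.ofNat 0, .ofNat 160, .ofNat 0,
  .negSucc 136⟩ ⟨.ofNat 0, .negSucc 3381, .ofNat 2135, .negSucc 1792⟩, .l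
  ⟨.ofNat 0, .ofNat 160, .ofNat 0, .negSucc 139⟩ ⟨.ofNat 0, .negSucc 3381,
  .ofNat 2135, .negSucc 1792⟩, .l ⟨.ofNat 0, .ofNat 160, .ofNat 0, .negSucc
  136⟩ ⟨.ofNat 0, .negSucc 421, .negSucc 3977, .negSucc 3688⟩, .l ⟨.ofNat 0,
  .ofNat 160, .ofNat 0, .negSucc 139⟩ ⟨.ofNat 0, .negSucc 421, .negSucc
  3977, .negSucc 3688⟩],
[.l ⟨.ofNat 0, .ofNat 40, .ofNat 0, .negSucc 33⟩ ⟨.ofNat 0, .ofNat 40,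
  .ofNat 0, .ofNat 34⟩, .l ⟨.ofNat 0, .negSucc 39, .ofNat 0, .ofNat 35⟩
  ⟨.ofNat 0, .ofNat 40, .ofNat 0, .ofNat 35⟩, .l ⟨.ofNat 0, .ofNat 40,
  .ofNat 0, .negSucc 33⟩ ⟨.ofNat 0, .ofNat 0, .ofNat 4000, .ofNat 2101⟩, .l
  ⟨.ofNat 0, .ofNat 40, .ofNat 0, .negSucc 34⟩ ⟨.ofNat 0, .ofNat 0, .ofNat
  4000, .ofNat 2101⟩, .l ⟨.ofNat 0, .ofNat 40, .ofNat 0, .negSucc 33⟩
  ⟨.ofNat 0, .ofNat 0, .negSucc 199, .negSucc 166⟩, .l ⟨.ofNat 0, .ofNat 40,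
  .ofNat 0, .negSucc 34⟩ ⟨.ofNat 0, .ofNat 0, .negSucc 199, .negSucc 166⟩,
  .l ⟨.ofNat 0, .ofNat 40, .ofNat 0, .negSucc 33⟩ ⟨.ofNat 0, .ofNat 1249,
  .negSucc 3799, .negSucc 2106⟩, .l ⟨.ofNat 0, .ofNat 40, .ofNat 0, .negSucc
  34⟩ ⟨.ofNat 0, .ofNat 1249, .negSucc 3799, .negSucc 2106⟩],
[.l ⟨.ofNat 0, .ofNat 240, .ofNat 0, .negSucc 206⟩ ⟨.ofNat 0, .ofNat 240,
  .ofNat 0, .ofNat 207⟩, .l ⟨.ofNat 0, .negSucc 239, .ofNat 0, .ofNat 211⟩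
  ⟨.ofNat 0, .ofNat 240, .ofNat 0, .ofNat 211⟩, .l ⟨.ofNat 0, .ofNat 240,
  .ofNat 0, .negSucc 206⟩ ⟨.ofNat 0, .ofNat 1738, .ofNat 3603, .ofNat 4383⟩,
  .l ⟨.ofNat 0, .ofNat 240, .ofNat 0, .negSucc 210⟩ ⟨.ofNat 0, .ofNat 1738,
  .ofNat 3603, .ofNat 4383⟩, .l ⟨.ofNat 0, .ofNat 240, .ofNat 0, .negSucc
  206⟩ ⟨.ofNat 0, .negSucc 1737, .negSucc 3602, .negSucc 4530⟩, .l ⟨.ofNat
  0, .ofNat 240, .ofNat 0, .negSucc 210⟩ ⟨.ofNat 0, .negSucc 1737, .negSucc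
  3602, .negSucc 4530⟩, .l ⟨.ofNat 0, .ofNat 240, .ofNat 0, .negSucc 206⟩
  ⟨.ofNat 0, .negSucc 3724, .ofNat 1459, .negSucc 2044⟩, .l ⟨.ofNat 0,
  .ofNat 240, .ofNat 0, .negSucc 210⟩ ⟨.ofNat 0, .negSucc 3724, .ofNat 1459,
  .negSucc 2044⟩, .l ⟨.ofNat 0, .ofNat 240, .ofNat 0, .negSucc 206⟩ ⟨.ofNat
  0, .ofNat 1416, .negSucc 3740, .negSucc 1897⟩, .l ⟨.ofNat 0, .ofNat 240,
  .ofNat 0, .negSucc 210⟩ ⟨.ofNat 0, .ofNat 1416, .negSucc 3740, .negSucc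
  1897⟩],
[.l ⟨.ofNat 0, .ofNat 480, .ofNat 0, .negSucc 416⟩ ⟨.ofNat 0, .ofNat 480,
  .ofNat 0, .ofNat 417⟩, .l ⟨.ofNat 0, .negSucc 479, .ofNat 0, .ofNat 424⟩
  ⟨.ofNat 0, .ofNat 480, .ofNat 0, .ofNat 424⟩, .l ⟨.ofNat 0, .ofNat 480,
  .ofNat 0, .negSucc 416⟩ ⟨.ofNat 0, .negSucc 2378, .ofNat 3216, .ofNat
  511⟩, .l ⟨.ofNat 0, .ofNat 480, .ofNat 0, .negSucc 423⟩ ⟨.ofNat 0,
  .negSucc 2378, .ofNat 3216, .ofNat 511⟩, .l ⟨.ofNat 0, .ofNat 480, .ofNat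
  0, .negSucc 416⟩ ⟨.ofNat 0, .negSucc 593, .negSucc 3955, .negSucc 3826⟩,
  .l ⟨.ofNat 0, .ofNat 480, .ofNat 0, .negSucc 423⟩ ⟨.ofNat 0, .negSucc 593,
  .negSucc 3955, .negSucc 3826⟩],
[.q ⟨.negSucc 219, .negSucc 259, .ofNat 480, .ofNat 0⟩ ⟨.negSucc 739, .ofNat
  260, .ofNat 480, .ofNat 0⟩, .q ⟨.ofNat 217, .ofNat 263, .negSucc 479,
  .ofNat 0⟩ ⟨.negSucc 742, .ofNat 263, .ofNat 480, .ofNat 0⟩, .q ⟨.ofNat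
  740, .negSucc 259, .negSucc 479, .ofNat 0⟩ ⟨.ofNat 805, .negSucc 25,
  .ofNat 2412, .negSucc 3190⟩, .q ⟨.ofNat 743, .negSucc 262, .negSucc 479,
  .ofNat 0⟩ ⟨.ofNat 805, .negSucc 25, .ofNat 2412, .negSucc 3190⟩, .q
  ⟨.ofNat 740, .negSucc 259, .negSucc 479, .ofNat 0⟩ ⟨.negSucc 566, .negSucc
  211, .negSucc 2411, .ofNat 3191⟩, .q ⟨.ofNat 743, .negSucc 262, .negSucc
  479, .ofNat 0⟩ ⟨.negSucc 566, .negSucc 211, .negSucc 2411, .ofNat 3191⟩],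
[.q ⟨.negSucc 25, .negSucc 20, .ofNat 15, .ofNat 32⟩ ⟨.ofNat 12552, .negSucc
  21535, .negSucc 1383, .ofNat 10368⟩, .q ⟨.negSucc 25, .negSucc 20, .ofNat
  15, .ofNat 32⟩ ⟨.ofNat 1080, .ofNat 3068, .negSucc 5939, .ofNat 1792⟩, .q
  ⟨.negSucc 25, .negSucc 20, .ofNat 15, .ofNat 32⟩ ⟨.negSucc 12407, .ofNat
  17492, .ofNat 5540, .negSucc 10623⟩, .q ⟨.negSucc 25, .negSucc 20, .ofNat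
  15, .ofNat 32⟩ ⟨.negSucc 4155, .negSucc 3159, .ofNat 12308, .negSucc
  4991⟩],
[.q ⟨.negSucc 221, .negSucc 257, .ofNat 480, .ofNat 0⟩ ⟨.negSucc 737, .ofNat
  258, .ofNat 480, .ofNat 0⟩, .q ⟨.ofNat 217, .ofNat 263, .negSucc 479,
  .ofNat 0⟩ ⟨.negSucc 742, .ofNat 263, .ofNat 480, .ofNat 0⟩, .q ⟨.ofNat
  738, .negSucc 257, .negSucc 479, .ofNat 0⟩ ⟨.ofNat 12799, .negSucc 11601,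
  .ofNat 2166, .negSucc 3362⟩, .q ⟨.ofNat 743, .negSucc 262, .negSucc 479,
  .ofNat 0⟩ ⟨.ofNat 12799, .negSucc 11601, .ofNat 2166, .negSucc 3362⟩, .q
  ⟨.ofNat 738, .negSucc 257, .negSucc 479, .ofNat 0⟩ ⟨.ofNat 9395, .negSucc
  14501, .ofNat 1338, .ofNat 3769⟩, .q ⟨.ofNat 743, .negSucc 262, .negSucc
  479, .ofNat 0⟩ ⟨.ofNat 9395, .negSucc 14501, .ofNat 1338, .ofNat 3769⟩, .q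
  ⟨.ofNat 738, .negSucc 257, .negSucc 479, .ofNat 0⟩ ⟨.ofNat 2507, .ofNat
  2710, .negSucc 3701, .negSucc 1514⟩, .q ⟨.ofNat 743, .negSucc 262,
  .negSucc 479, .ofNat 0⟩ ⟨.ofNat 2507, .ofNat 2710, .negSucc 3701, .negSucc
  1514⟩, .q ⟨.ofNat 738, .negSucc 257, .negSucc 479, .ofNat 0⟩ ⟨.negSucc
  267, .negSucc 87, .negSucc 1224, .ofNat 1581⟩, .q ⟨.ofNat 743, .negSucc
  262, .negSucc 479, .ofNat 0⟩ ⟨.negSucc 267, .negSucc 87, .negSucc 1224,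
  .ofNat 1581⟩],
[.q ⟨.negSucc 221, .negSucc 257, .ofNat 480, .ofNat 0⟩ ⟨.negSucc 737, .ofNat
  258, .ofNat 480, .ofNat 0⟩, .q ⟨.ofNat 215, .ofNat 265, .negSucc 479,
  .ofNat 0⟩ ⟨.negSucc 744, .ofNat 265, .ofNat 480, .ofNat 0⟩, .q ⟨.ofNat
  738, .negSucc 257, .negSucc 479, .ofNat 0⟩ ⟨.ofNat 13072, .negSucc 9459,
  .ofNat 371, .negSucc 3982⟩, .q ⟨.ofNat 745, .negSucc 264, .negSucc 479,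
  .ofNat 0⟩ ⟨.ofNat 13072, .negSucc 9459, .ofNat 371, .negSucc 3982⟩, .q
  ⟨.ofNat 738, .negSucc 257, .negSucc 479, .ofNat 0⟩ ⟨.negSucc 1897,
  .negSucc 1713, .negSucc 370, .ofNat 3983⟩, .q ⟨.ofNat 745, .negSucc 264,
  .negSucc 479, .ofNat 0⟩ ⟨.negSucc 1897, .negSucc 1713, .negSucc 370,
  .ofNat 3983⟩, .q ⟨.ofNat 738, .negSucc 257, .negSucc 479, .ofNat 0⟩
  ⟨.ofNat 2777, .ofNat 2755, .negSucc 2174, .negSucc 3356⟩, .q ⟨.ofNat 745,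
  .negSucc 264, .negSucc 479, .ofNat 0⟩ ⟨.ofNat 2777, .ofNat 2755, .negSucc
  2174, .negSucc 3356⟩, .q ⟨.ofNat 738, .negSucc 257, .negSucc 479, .ofNat
  0⟩ ⟨.negSucc 180, .ofNat 197, .negSucc 2835, .ofNat 2820⟩, .q ⟨.ofNat 745,
  .negSucc 264, .negSucc 479, .ofNat 0⟩ ⟨.negSucc 180, .ofNat 197, .negSucc
  2835, .ofNat 2820⟩],
[.q ⟨.negSucc 25, .negSucc 20, .ofNat 15, .ofNat 32⟩ ⟨.negSucc 8823, .ofNat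
  5796, .ofNat 11860, .negSucc 8831⟩, .q ⟨.negSucc 25, .negSucc 20, .ofNat
  15, .ofNat 32⟩ ⟨.ofNat 12192, .negSucc 17347, .negSucc 5723, .ofNat
  10880⟩, .q ⟨.negSucc 25, .negSucc 20, .ofNat 15, .ofNat 32⟩ ⟨.ofNat 524,
  .ofNat 2360, .negSucc 3907, .ofNat 1024⟩],
[.q ⟨.negSucc 442, .negSucc 516, .ofNat 960, .ofNat 0⟩ ⟨.negSucc 1476,
  .ofNat 517, .ofNat 960, .ofNat 0⟩, .q ⟨.ofNat 434, .ofNat 526, .negSucc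
  959, .ofNat 0⟩ ⟨.negSucc 1485, .ofNat 526, .ofNat 960, .ofNat 0⟩, .q
  ⟨.ofNat 1477, .negSucc 516, .negSucc 959, .ofNat 0⟩ ⟨.ofNat 2994, .ofNat
  2529, .negSucc 2148, .negSucc 3373⟩, .q ⟨.ofNat 1486, .negSucc 525,
  .negSucc 959, .ofNat 0⟩ ⟨.ofNat 2994, .ofNat 2529, .negSucc 2148, .negSucc
  3373⟩, .q ⟨.ofNat 1477, .negSucc 516, .negSucc 959, .ofNat 0⟩ ⟨.negSucc
  1250, .negSucc 938, .negSucc 1512, .ofNat 3703⟩, .q ⟨.ofNat 1486, .negSucc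
  525, .negSucc 959, .ofNat 0⟩ ⟨.negSucc 1250, .negSucc 938, .negSucc 1512,
  .ofNat 3703⟩, .q ⟨.ofNat 1477, .negSucc 516, .negSucc 959, .ofNat 0⟩
  ⟨.ofNat 451, .ofNat 639, .negSucc 1849, .ofNat 760⟩, .q ⟨.ofNat 1486,
  .negSucc 525, .negSucc 959, .ofNat 0⟩ ⟨.ofNat 451, .ofNat 639, .negSucc
  1849, .ofNat 760⟩],
[.l ⟨.ofNat 0, .ofNat 960, .ofNat 0, .negSucc 837⟩ ⟨.ofNat 0, .ofNat 960,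
  .ofNat 0, .ofNat 838⟩, .l ⟨.ofNat 0, .negSucc 959, .ofNat 0, .ofNat 845⟩
  ⟨.ofNat 0, .ofNat 960, .ofNat 0, .ofNat 845⟩, .l ⟨.ofNat 0, .ofNat 960,
  .ofNat 0, .negSucc 837⟩ ⟨.ofNat 0, .ofNat 902, .ofNat 3897, .ofNat 3914⟩,
  .l ⟨.ofNat 0, .ofNat 960, .ofNat 0, .negSucc 844⟩ ⟨.ofNat 0, .ofNat 902,
  .ofNat 3897, .ofNat 3914⟩, .l ⟨.ofNat 0, .ofNat 960, .ofNat 0, .negSucc
  837⟩ ⟨.ofNat 0, .ofNat 199, .negSucc 3994, .negSucc 3168⟩, .l ⟨.ofNat 0,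
  .ofNat 960, .ofNat 0, .negSucc 844⟩ ⟨.ofNat 0, .ofNat 199, .negSucc 3994,
  .negSucc 3168⟩],
[.q ⟨.negSucc 74, .ofNat 36, .negSucc 40, .ofNat 80⟩ ⟨.ofNat 5700, .ofNat
  8328, .negSucc 1867, .negSucc 12159⟩, .q ⟨.negSucc 74, .ofNat 36, .negSucc
  40, .ofNat 80⟩ ⟨.negSucc 4711, .ofNat 324, .ofNat 18148, .negSucc 13759⟩,
  .q ⟨.negSucc 74, .ofNat 36, .negSucc 40, .ofNat 80⟩ ⟨.negSucc 3187,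
  .negSucc 6883, .negSucc 7527, .ofNat 17600⟩, .q ⟨.negSucc 74, .ofNat 36,
  .negSucc 40, .ofNat 80⟩ ⟨.ofNat 4488, .negSucc 363, .negSucc 18203, .ofNat
  14080⟩],
[.q ⟨.negSucc 25, .negSucc 20, .ofNat 15, .ofNat 32⟩ ⟨.ofNat 820, .negSucc
  6051, .ofNat 5232, .ofNat 0⟩, .q ⟨.negSucc 25, .negSucc 20, .ofNat 15,
  .ofNat 32⟩ ⟨.ofNat 6284, .negSucc 1031, .negSucc 12291, .ofNat 7040⟩, .q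
  ⟨.negSucc 25, .negSucc 20, .ofNat 15, .ofNat 32⟩ ⟨.ofNat 684, .ofNat 8452,
  .negSucc 11439, .ofNat 2304⟩, .q ⟨.negSucc 25, .negSucc 20, .ofNat 15,
  .ofNat 32⟩ ⟨.negSucc 12875, .ofNat 21176, .ofNat 2580, .negSucc 10879⟩],
[.l ⟨.ofNat 0, .ofNat 480, .ofNat 0, .negSucc 410⟩ ⟨.ofNat 0, .ofNat 480,
  .ofNat 0, .ofNat 411⟩, .l ⟨.ofNat 0, .negSucc 479, .ofNat 0, .ofNat 418⟩
  ⟨.ofNat 0, .ofNat 480, .ofNat 0, .ofNat 418⟩, .l ⟨.ofNat 0, .ofNat 480,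
  .ofNat 0, .negSucc 410⟩ ⟨.ofNat 0, .ofNat 0, .ofNat 4000, .negSucc 7740⟩,
  .l ⟨.ofNat 0, .ofNat 480, .ofNat 0, .negSucc 417⟩ ⟨.ofNat 0, .ofNat 0,
  .ofNat 4000, .negSucc 7740⟩, .l ⟨.ofNat 0, .ofNat 480, .ofNat 0, .negSucc
  410⟩ ⟨.ofNat 0, .ofNat 0, .negSucc 3999, .negSucc 3342⟩, .l ⟨.ofNat 0,
  .ofNat 480, .ofNat 0, .negSucc 417⟩ ⟨.ofNat 0, .ofNat 0, .negSucc 3999,
  .negSucc 3342⟩, .l ⟨.ofNat 0, .ofNat 480, .ofNat 0, .negSucc 410⟩ ⟨.ofNat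
  0, .negSucc 2144, .ofNat 3376, .negSucc 93⟩, .l ⟨.ofNat 0, .ofNat 480,
  .ofNat 0, .negSucc 417⟩ ⟨.ofNat 0, .negSucc 2144, .ofNat 3376, .negSucc
  93⟩, .l ⟨.ofNat 0, .ofNat 480, .ofNat 0, .negSucc 410⟩ ⟨.ofNat 0, .ofNat
  1602, .negSucc 3664, .negSucc 1681⟩, .l ⟨.ofNat 0, .ofNat 480, .ofNat 0,
  .negSucc 417⟩ ⟨.ofNat 0, .ofNat 1602, .negSucc 3664, .negSucc 1681⟩],
[.q ⟨.negSucc 225, .negSucc 253, .ofNat 480, .ofNat 0⟩ ⟨.negSucc 733, .ofNat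
  254, .ofNat 480, .ofNat 0⟩, .q ⟨.ofNat 217, .ofNat 263, .negSucc 479,
  .ofNat 0⟩ ⟨.negSucc 742, .ofNat 263, .ofNat 480, .ofNat 0⟩, .q ⟨.ofNat
  734, .negSucc 253, .negSucc 479, .ofNat 0⟩ ⟨.ofNat 13694, .negSucc 10604,
  .ofNat 825, .negSucc 3913⟩, .q ⟨.ofNat 743, .negSucc 262, .negSucc 479,
  .ofNat 0⟩ ⟨.ofNat 13694, .negSucc 10604, .ofNat 825, .negSucc 3913⟩, .q
  ⟨.ofNat 734, .negSucc 253, .negSucc 479, .ofNat 0⟩ ⟨.negSucc 1670,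
  .negSucc 1417, .negSucc 824, .ofNat 3914⟩, .q ⟨.ofNat 743, .negSucc 262,
  .negSucc 479, .ofNat 0⟩ ⟨.negSucc 1670, .negSucc 1417, .negSucc 824,
  .ofNat 3914⟩, .q ⟨.ofNat 734, .negSucc 253, .negSucc 479, .ofNat 0⟩
  ⟨.ofNat 2779, .ofNat 2864, .negSucc 3015, .negSucc 2626⟩, .q ⟨.ofNat 743,
  .negSucc 262, .negSucc 479, .ofNat 0⟩ ⟨.ofNat 2779, .ofNat 2864, .negSucc
  3015, .negSucc 2626⟩, .q ⟨.ofNat 734, .negSucc 253, .negSucc 479, .ofNat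
  0⟩ ⟨.negSucc 9, .ofNat 369, .negSucc 3001, .ofNat 2643⟩, .q ⟨.ofNat 743,
  .negSucc 262, .negSucc 479, .ofNat 0⟩ ⟨.negSucc 9, .ofNat 369, .negSucc
  3001, .ofNat 2643⟩],
[.q ⟨.negSucc 442, .negSucc 516, .ofNat 960, .ofNat 0⟩ ⟨.negSucc 1476,
  .ofNat 517, .ofNat 960, .ofNat 0⟩, .q ⟨.ofNat 432, .ofNat 528, .negSucc
  959, .ofNat 0⟩ ⟨.negSucc 1487, .ofNat 528, .ofNat 960, .ofNat 0⟩, .q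
  ⟨.ofNat 1477, .negSucc 516, .negSucc 959, .ofNat 0⟩ ⟨.ofNat 12620,
  .negSucc 11803, .ofNat 2391, .negSucc 3206⟩, .q ⟨.ofNat 1488, .negSucc
  527, .negSucc 959, .ofNat 0⟩ ⟨.ofNat 12620, .negSucc 11803, .ofNat 2391,
  .negSucc 3206⟩, .q ⟨.ofNat 1477, .negSucc 516, .negSucc 959, .ofNat 0⟩
  ⟨.negSucc 586, .negSucc 228, .negSucc 2390, .ofNat 3207⟩, .q ⟨.ofNat 1488,
  .negSucc 527, .negSucc 959, .ofNat 0⟩ ⟨.negSucc 586, .negSucc 228,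
  .negSucc 2390, .ofNat 3207⟩, .q ⟨.ofNat 1477, .negSucc 516, .negSucc 959,
  .ofNat 0⟩ ⟨.ofNat 2508, .ofNat 2710, .negSucc 3700, .negSucc 1516⟩, .q
  ⟨.ofNat 1488, .negSucc 527, .negSucc 959, .ofNat 0⟩ ⟨.ofNat 2508, .ofNat
  2710, .negSucc 3700, .negSucc 1516⟩],
[.q ⟨.ofNat 17, .negSucc 18, .negSucc 27, .ofNat 30⟩ ⟨.negSucc 2792,
  .negSucc 1348, .ofNat 2012, .ofNat 2130⟩, .q ⟨.ofNat 17, .negSucc 18,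
  .negSucc 27, .ofNat 30⟩ ⟨.ofNat 4293, .negSucc 3884, .negSucc 257,
  .negSucc 149⟩, .q ⟨.ofNat 17, .negSucc 18, .negSucc 27, .ofNat 30⟩ ⟨.ofNat
  3013, .ofNat 1121, .negSucc 2063, .negSucc 2069⟩, .q ⟨.ofNat 17, .negSucc
  18, .negSucc 27, .ofNat 30⟩ ⟨.negSucc 1143, .ofNat 3822, .negSucc 1447,
  .negSucc 1229⟩],
[.l ⟨.ofNat 0, .ofNat 80, .ofNat 0, .negSucc 69⟩ ⟨.ofNat 0, .ofNat 80,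
  .ofNat 0, .ofNat 70⟩, .l ⟨.ofNat 0, .negSucc 79, .ofNat 0, .ofNat 73⟩
  ⟨.ofNat 0, .ofNat 80, .ofNat 0, .ofNat 73⟩, .l ⟨.ofNat 0, .ofNat 80,
  .ofNat 0, .negSucc 69⟩ ⟨.ofNat 0, .ofNat 224, .ofNat 447, .ofNat 597⟩, .l
  ⟨.ofNat 0, .ofNat 80, .ofNat 0, .negSucc 72⟩ ⟨.ofNat 0, .ofNat 224, .ofNat
  447, .ofNat 597⟩, .l ⟨.ofNat 0, .ofNat 80, .ofNat 0, .negSucc 69⟩ ⟨.ofNat
  0, .ofNat 165, .negSucc 1992, .negSucc 1741⟩, .l ⟨.ofNat 0, .ofNat 80,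
  .ofNat 0, .negSucc 72⟩ ⟨.ofNat 0, .ofNat 165, .negSucc 1992, .negSucc
  1741⟩],
[.q ⟨.negSucc 0, .ofNat 1, .ofNat 0, .ofNat 0⟩ ⟨.negSucc 642, .ofNat 3,
  .ofNat 640, .ofNat 0⟩, .q ⟨.negSucc 0, .ofNat 1, .ofNat 0, .ofNat 0⟩
  ⟨.ofNat 1891, .ofNat 29, .negSucc 1919, .ofNat 0⟩, .l ⟨.ofNat 0, .ofNat 0,
  .negSucc 1919, .negSucc 1800⟩ ⟨.ofNat 0, .ofNat 0, .ofNat 0, .ofNat 1⟩, .l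
  ⟨.ofNat 0, .ofNat 0, .ofNat 640, .ofNat 673⟩ ⟨.ofNat 0, .ofNat 0, .ofNat
  0, .ofNat 1⟩],
[.q ⟨.negSucc 18, .negSucc 15, .ofNat 11, .ofNat 24⟩ ⟨.ofNat 12248, .negSucc
  15291, .negSucc 8763, .ofNat 11808⟩, .q ⟨.negSucc 18, .negSucc 15, .ofNat
  11, .ofNat 24⟩ ⟨.ofNat 528, .ofNat 4016, .negSucc 5791, .ofNat 1248⟩, .q
  ⟨.negSucc 18, .negSucc 15, .ofNat 11, .ofNat 24⟩ ⟨.negSucc 9787, .ofNat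
  8300, .ofNat 11376, .negSucc 9887⟩, .q ⟨.negSucc 18, .negSucc 15, .ofNat
  11, .ofNat 24⟩ ⟨.ofNat 9692, .negSucc 21311, .ofNat 3652, .ofNat 7968⟩],
[.q ⟨.negSucc 19, .negSucc 19, .ofNat 40, .ofNat 0⟩ ⟨.negSucc 59, .ofNat 20,
  .ofNat 40, .ofNat 0⟩, .q ⟨.ofNat 17, .ofNat 23, .negSucc 39, .ofNat 0⟩
  ⟨.negSucc 62, .ofNat 23, .ofNat 40, .ofNat 0⟩, .q ⟨.ofNat 60, .negSucc 19,
  .negSucc 39, .ofNat 0⟩ ⟨.ofNat 14660, .negSucc 9466, .negSucc 1473,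
  .negSucc 3718⟩, .q ⟨.ofNat 63, .negSucc 22, .negSucc 39, .ofNat 0⟩ ⟨.ofNat
  14660, .negSucc 9466, .negSucc 1473, .negSucc 3718⟩, .q ⟨.ofNat 60,
  .negSucc 19, .negSucc 39, .ofNat 0⟩ ⟨.negSucc 2622, .negSucc 2569, .ofNat
  1474, .ofNat 3719⟩, .q ⟨.ofNat 63, .negSucc 22, .negSucc 39, .ofNat 0⟩
  ⟨.negSucc 2622, .negSucc 2569, .ofNat 1474, .ofNat 3719⟩, .q ⟨.ofNat 60,
  .negSucc 19, .negSucc 39, .ofNat 0⟩ ⟨.ofNat 1239, .ofNat 512, .ofNat 1814,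
  .negSucc 3564⟩, .q ⟨.ofNat 63, .negSucc 22, .negSucc 39, .ofNat 0⟩ ⟨.ofNat
  1239, .ofNat 512, .ofNat 1814, .negSucc 3564⟩, .q ⟨.ofNat 60, .negSucc 19,
  .negSucc 39, .ofNat 0⟩ ⟨.ofNat 771, .ofNat 1156, .negSucc 3622, .ofNat
  1696⟩, .q ⟨.ofNat 63, .negSucc 22, .negSucc 39, .ofNat 0⟩ ⟨.ofNat 771,
  .ofNat 1156, .negSucc 3622, .ofNat 1696⟩],
[.q ⟨.negSucc 441, .negSucc 517, .ofNat 960, .ofNat 0⟩ ⟨.negSucc 1477,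
  .ofNat 518, .ofNat 960, .ofNat 0⟩, .q ⟨.ofNat 435, .ofNat 525, .negSucc
  959, .ofNat 0⟩ ⟨.negSucc 1484, .ofNat 525, .ofNat 960, .ofNat 0⟩, .q
  ⟨.ofNat 1478, .negSucc 517, .negSucc 959, .ofNat 0⟩ ⟨.ofNat 14123,
  .negSucc 10122, .ofNat 0, .negSucc 3999⟩, .q ⟨.ofNat 1485, .negSucc 524,
  .negSucc 959, .ofNat 0⟩ ⟨.ofNat 14123, .negSucc 10122, .ofNat 0, .negSucc
  3999⟩, .q ⟨.ofNat 1478, .negSucc 517, .negSucc 959, .ofNat 0⟩ ⟨.negSucc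
  1304, .negSucc 997, .negSucc 1431, .ofNat 3735⟩, .q ⟨.ofNat 1485, .negSucc
  524, .negSucc 959, .ofNat 0⟩ ⟨.negSucc 1304, .negSucc 997, .negSucc 1431,
  .ofNat 3735⟩, .q ⟨.ofNat 1478, .negSucc 517, .negSucc 959, .ofNat 0⟩
  ⟨.ofNat 673, .ofNat 246, .ofNat 878, .negSucc 1796⟩, .q ⟨.ofNat 1485,
  .negSucc 524, .negSucc 959, .ofNat 0⟩ ⟨.ofNat 673, .ofNat 246, .ofNat 878,
  .negSucc 1796⟩],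
[.q ⟨.negSucc 8, .negSucc 70, .ofNat 80, .ofNat 0⟩ ⟨.negSucc 150, .ofNat 71,
  .ofNat 80, .ofNat 0⟩, .q ⟨.ofNat 6, .ofNat 74, .negSucc 79, .ofNat 0⟩
  ⟨.negSucc 153, .ofNat 74, .ofNat 80, .ofNat 0⟩, .q ⟨.ofNat 151, .negSucc
  70, .negSucc 79, .ofNat 0⟩ ⟨.ofNat 2216, .negSucc 1910, .ofNat 2672,
  .negSucc 2976⟩, .q ⟨.ofNat 154, .negSucc 73, .negSucc 79, .ofNat 0⟩
  ⟨.ofNat 2216, .negSucc 1910, .ofNat 2672, .negSucc 2976⟩, .q ⟨.ofNat 151,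
  .negSucc 70, .negSucc 79, .ofNat 0⟩ ⟨.ofNat 9830, .negSucc 10134, .negSucc
  2671, .ofNat 2977⟩, .q ⟨.ofNat 154, .negSucc 73, .negSucc 79, .ofNat 0⟩
  ⟨.ofNat 9830, .negSucc 10134, .negSucc 2671, .ofNat 2977⟩, .q ⟨.ofNat 151,
  .negSucc 70, .negSucc 79, .ofNat 0⟩ ⟨.ofNat 2276, .ofNat 3333, .negSucc
  3171, .negSucc 2436⟩, .q ⟨.ofNat 154, .negSucc 73, .negSucc 79, .ofNat 0⟩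
  ⟨.ofNat 2276, .ofNat 3333, .negSucc 3171, .negSucc 2436⟩, .q ⟨.ofNat 151,
  .negSucc 70, .negSucc 79, .ofNat 0⟩ ⟨.ofNat 795, .negSucc 2095, .negSucc
  2101, .ofNat 3403⟩, .q ⟨.ofNat 154, .negSucc 73, .negSucc 79, .ofNat 0⟩
  ⟨.ofNat 795, .negSucc 2095, .negSucc 2101, .ofNat 3403⟩],
[.q ⟨.negSucc 448, .negSucc 510, .ofNat 960, .ofNat 0⟩ ⟨.negSucc 1470,
  .ofNat 511, .ofNat 960, .ofNat 0⟩, .q ⟨.ofNat 442, .ofNat 518, .negSucc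
  959, .ofNat 0⟩ ⟨.negSucc 1477, .ofNat 518, .ofNat 960, .ofNat 0⟩, .q
  ⟨.ofNat 1471, .negSucc 510, .negSucc 959, .ofNat 0⟩ ⟨.ofNat 1217, .ofNat
  397, .ofNat 1904, .negSucc 3517⟩, .q ⟨.ofNat 1478, .negSucc 517, .negSucc
  959, .ofNat 0⟩ ⟨.ofNat 1217, .ofNat 397, .ofNat 1904, .negSucc 3517⟩, .q
  ⟨.ofNat 1471, .negSucc 510, .negSucc 959, .ofNat 0⟩ ⟨.negSucc 760,
  .negSucc 385, .negSucc 2195, .ofNat 3343⟩, .q ⟨.ofNat 1478, .negSucc 517,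
  .negSucc 959, .ofNat 0⟩ ⟨.negSucc 760, .negSucc 385, .negSucc 2195, .ofNat
  3343⟩, .q ⟨.ofNat 1471, .negSucc 510, .negSucc 959, .ofNat 0⟩ ⟨.negSucc
  1991, .negSucc 1708, .negSucc 288, .ofNat 3990⟩, .q ⟨.ofNat 1478, .negSucc
  517, .negSucc 959, .ofNat 0⟩ ⟨.negSucc 1991, .negSucc 1708, .negSucc 288,
  .ofNat 3990⟩],
[.q ⟨.negSucc 112, .negSucc 126, .ofNat 240, .ofNat 0⟩ ⟨.negSucc 366, .ofNat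
  127, .ofNat 240, .ofNat 0⟩, .q ⟨.ofNat 109, .ofNat 131, .negSucc 239,
  .ofNat 0⟩ ⟨.negSucc 370, .ofNat 131, .ofNat 240, .ofNat 0⟩, .q ⟨.ofNat
  367, .negSucc 126, .negSucc 239, .ofNat 0⟩ ⟨.ofNat 2733, .ofNat 2035,
  .negSucc 861, .negSucc 3905⟩, .q ⟨.ofNat 371, .negSucc 130, .negSucc 239,
  .ofNat 0⟩ ⟨.ofNat 2733, .ofNat 2035, .negSucc 861, .negSucc 3905⟩, .q
  ⟨.ofNat 367, .negSucc 126, .negSucc 239, .ofNat 0⟩ ⟨.negSucc 1233,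
  .negSucc 878, .negSucc 1566, .ofNat 3680⟩, .q ⟨.ofNat 371, .negSucc 130,
  .negSucc 239, .ofNat 0⟩ ⟨.negSucc 1233, .negSucc 878, .negSucc 1566,
  .ofNat 3680⟩],
[.q ⟨.negSucc 18, .negSucc 15, .ofNat 11, .ofNat 24⟩ ⟨.ofNat 11856, .negSucc
  22143, .ofNat 16, .ofNat 10272⟩, .q ⟨.negSucc 18, .negSucc 15, .ofNat 11,
  .ofNat 24⟩ ⟨.ofNat 4820, .ofNat 1648, .negSucc 12323, .ofNat 5856⟩, .q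
  ⟨.negSucc 18, .negSucc 15, .ofNat 11, .ofNat 24⟩ ⟨.negSucc 11695, .ofNat
  15064, .ofNat 7672, .negSucc 11039⟩, .q ⟨.negSucc 18, .negSucc 15, .ofNat
  11, .ofNat 24⟩ ⟨.negSucc 1315, .negSucc 7775, .ofNat 11684, .negSucc
  2591⟩],
[.q ⟨.negSucc 222, .negSucc 256, .ofNat 480, .ofNat 0⟩ ⟨.negSucc 736, .ofNat
  257, .ofNat 480, .ofNat 0⟩, .q ⟨.ofNat 218, .ofNat 262, .negSucc 479,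
  .ofNat 0⟩ ⟨.negSucc 741, .ofNat 262, .ofNat 480, .ofNat 0⟩, .q ⟨.ofNat
  737, .negSucc 256, .negSucc 479, .ofNat 0⟩ ⟨.ofNat 2911, .ofNat 2317,
  .negSucc 1532, .negSucc 3694⟩, .q ⟨.ofNat 742, .negSucc 261, .negSucc 479,
  .ofNat 0⟩ ⟨.ofNat 2911, .ofNat 2317, .negSucc 1532, .negSucc 3694⟩, .q
  ⟨.ofNat 737, .negSucc 256, .negSucc 479, .ofNat 0⟩ ⟨.negSucc 298, .ofNat
  94, .negSucc 2723, .ofNat 2929⟩, .q ⟨.ofNat 742, .negSucc 261, .negSucc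
  479, .ofNat 0⟩ ⟨.negSucc 298, .ofNat 94, .negSucc 2723, .ofNat 2929⟩],
[.q ⟨.negSucc 25, .negSucc 20, .ofNat 15, .ofNat 32⟩ ⟨.ofNat 5352, .ofNat
  696, .negSucc 12319, .ofNat 6272⟩, .q ⟨.negSucc 25, .negSucc 20, .ofNat
  15, .ofNat 32⟩ ⟨.negSucc 11979, .ofNat 16576, .ofNat 6412, .negSucc
  11007⟩, .q ⟨.negSucc 25, .negSucc 20, .ofNat 15, .ofNat 32⟩ ⟨.ofNat 1724,
  .negSucc 12407, .ofNat 10428, .ofNat 256⟩],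
[.q ⟨.negSucc 0, .ofNat 1, .ofNat 0, .ofNat 0⟩ ⟨.negSucc 60, .ofNat 1,
  .ofNat 60, .ofNat 0⟩, .q ⟨.negSucc 0, .ofNat 1, .ofNat 0, .ofNat 0⟩
  ⟨.ofNat 943, .ofNat 17, .negSucc 959, .ofNat 0⟩, .l ⟨.ofNat 0, .ofNat 0,
  .negSucc 159, .negSucc 152⟩ ⟨.ofNat 0, .ofNat 0, .ofNat 0, .ofNat 1⟩, .l
  ⟨.ofNat 0, .ofNat 0, .ofNat 1920, .ofNat 1979⟩ ⟨.ofNat 0, .ofNat 0, .ofNat
  0, .ofNat 1⟩],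
[.q ⟨.negSucc 445, .negSucc 513, .ofNat 960, .ofNat 0⟩ ⟨.negSucc 1473,
  .ofNat 514, .ofNat 960, .ofNat 0⟩, .q ⟨.ofNat 435, .ofNat 525, .negSucc
  959, .ofNat 0⟩ ⟨.negSucc 1484, .ofNat 525, .ofNat 960, .ofNat 0⟩, .q
  ⟨.ofNat 1474, .negSucc 513, .negSucc 959, .ofNat 0⟩ ⟨.ofNat 10867,
  .negSucc 6866, .ofNat 0, .negSucc 3999⟩, .q ⟨.ofNat 1485, .negSucc 524,
  .negSucc 959, .ofNat 0⟩ ⟨.ofNat 10867, .negSucc 6866, .ofNat 0, .negSucc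
  3999⟩, .q ⟨.ofNat 1474, .negSucc 513, .negSucc 959, .ofNat 0⟩ ⟨.negSucc
  1473, .negSucc 1188, .negSucc 1163, .ofNat 3827⟩, .q ⟨.ofNat 1485,
  .negSucc 524, .negSucc 959, .ofNat 0⟩ ⟨.negSucc 1473, .negSucc 1188,
  .negSucc 1163, .ofNat 3827⟩, .q ⟨.ofNat 1474, .negSucc 513, .negSucc 959,
  .ofNat 0⟩ ⟨.negSucc 55, .negSucc 752, .ofNat 3204, .negSucc 2394⟩, .q
  ⟨.ofNat 1485, .negSucc 524, .negSucc 959, .ofNat 0⟩ ⟨.negSucc 55, .negSucc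
  752, .ofNat 3204, .negSucc 2394⟩, .q ⟨.ofNat 1474, .negSucc 513, .negSucc
  959, .ofNat 0⟩ ⟨.ofNat 926, .ofNat 1305, .negSucc 3714, .ofNat 1484⟩, .q
  ⟨.ofNat 1485, .negSucc 524, .negSucc 959, .ofNat 0⟩ ⟨.ofNat 926, .ofNat
  1305, .negSucc 3714, .ofNat 1484⟩],
[.q ⟨.negSucc 0, .ofNat 1, .ofNat 0, .ofNat 0⟩ ⟨.negSucc 80, .ofNat 1,
  .ofNat 80, .ofNat 0⟩, .q ⟨.negSucc 0, .ofNat 1, .ofNat 0, .ofNat 0⟩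
  ⟨.ofNat 1891, .ofNat 29, .negSucc 1919, .ofNat 0⟩, .l ⟨.ofNat 0, .ofNat 0,
  .negSucc 319, .negSucc 300⟩ ⟨.ofNat 0, .ofNat 0, .ofNat 0, .ofNat 1⟩, .l
  ⟨.ofNat 0, .ofNat 0, .ofNat 1920, .ofNat 1997⟩ ⟨.ofNat 0, .ofNat 0, .ofNat
  0, .ofNat 1⟩],
[.q ⟨.negSucc 18, .negSucc 15, .ofNat 11, .ofNat 24⟩ ⟨.negSucc 2847,
  .negSucc 5307, .ofNat 12092, .negSucc 3935⟩, .q ⟨.negSucc 18, .negSucc 15,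
  .ofNat 11, .ofNat 24⟩ ⟨.ofNat 7420, .negSucc 3311, .negSucc 12171, .ofNat
  8064⟩, .q ⟨.negSucc 18, .negSucc 15, .ofNat 11, .ofNat 24⟩ ⟨.negSucc 4883,
  .ofNat 10624, .negSucc 1803, .negSucc 3935⟩, .q ⟨.negSucc 18, .negSucc 15,
  .ofNat 11, .ofNat 24⟩ ⟨.negSucc 11947, .ofNat 13888, .ofNat 9484, .negSucc
  11423⟩],
[.q ⟨.negSucc 224, .negSucc 254, .ofNat 480, .ofNat 0⟩ ⟨.negSucc 734, .ofNat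
  255, .ofNat 480, .ofNat 0⟩, .q ⟨.ofNat 217, .ofNat 263, .negSucc 479,
  .ofNat 0⟩ ⟨.negSucc 742, .ofNat 263, .ofNat 480, .ofNat 0⟩, .q ⟨.ofNat
  735, .negSucc 254, .negSucc 479, .ofNat 0⟩ ⟨.ofNat 2989, .ofNat 2514,
  .negSucc 2096, .negSucc 3405⟩, .q ⟨.ofNat 743, .negSucc 262, .negSucc 479,
  .ofNat 0⟩ ⟨.ofNat 2989, .ofNat 2514, .negSucc 2096, .negSucc 3405⟩, .q
  ⟨.ofNat 735, .negSucc 254, .negSucc 479, .ofNat 0⟩ ⟨.negSucc 2665,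
  .negSucc 2636, .ofNat 1668, .ofNat 3635⟩, .q ⟨.ofNat 743, .negSucc 262,
  .negSucc 479, .ofNat 0⟩ ⟨.negSucc 2665, .negSucc 2636, .ofNat 1668, .ofNat
  3635⟩, .q ⟨.ofNat 735, .negSucc 254, .negSucc 479, .ofNat 0⟩ ⟨.ofNat 713,
  .ofNat 1100, .negSucc 3585, .ofNat 1773⟩, .q ⟨.ofNat 743, .negSucc 262,
  .negSucc 479, .ofNat 0⟩ ⟨.ofNat 713, .ofNat 1100, .negSucc 3585, .ofNat
  1773⟩],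
[.q ⟨.negSucc 25, .negSucc 20, .ofNat 15, .ofNat 32⟩ ⟨.negSucc 1739,
  .negSucc 2195, .ofNat 6112, .negSucc 2175⟩, .q ⟨.negSucc 25, .negSucc 20,
  .ofNat 15, .ofNat 32⟩ ⟨.ofNat 10152, .negSucc 9211, .negSucc 11051, .ofNat
  10112⟩, .q ⟨.negSucc 25, .negSucc 20, .ofNat 15, .ofNat 32⟩ ⟨.negSucc
  9415, .ofNat 20776, .negSucc 4063, .negSucc 7295⟩],
[.q ⟨.negSucc 114, .negSucc 124, .ofNat 240, .ofNat 0⟩ ⟨.negSucc 364, .ofNat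
  125, .ofNat 240, .ofNat 0⟩, .q ⟨.ofNat 111, .ofNat 129, .negSucc 239,
  .ofNat 0⟩ ⟨.negSucc 368, .ofNat 129, .ofNat 240, .ofNat 0⟩, .q ⟨.ofNat
  365, .negSucc 124, .negSucc 239, .ofNat 0⟩ ⟨.ofNat 3011, .ofNat 2501,
  .negSucc 2120, .negSucc 3390⟩, .q ⟨.ofNat 369, .negSucc 128, .negSucc 239,
  .ofNat 0⟩ ⟨.ofNat 3011, .ofNat 2501, .negSucc 2120, .negSucc 3390⟩, .q
  ⟨.ofNat 365, .negSucc 124, .negSucc 239, .ofNat 0⟩ ⟨.negSucc 1163,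
  .negSucc 804, .negSucc 1666, .ofNat 3636⟩, .q ⟨.ofNat 369, .negSucc 128,
  .negSucc 239, .ofNat 0⟩ ⟨.negSucc 1163, .negSucc 804, .negSucc 1666,
  .ofNat 3636⟩],
[.q ⟨.negSucc 123, .negSucc 115, .ofNat 240, .ofNat 0⟩ ⟨.negSucc 355, .ofNat
  116, .ofNat 240, .ofNat 0⟩, .q ⟨.ofNat 121, .ofNat 119, .negSucc 239,
  .ofNat 0⟩ ⟨.negSucc 358, .ofNat 119, .ofNat 240, .ofNat 0⟩, .q ⟨.ofNat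
  356, .negSucc 115, .negSucc 239, .ofNat 0⟩ ⟨.ofNat 13857, .negSucc 9856,
  .ofNat 0, .negSucc 3999⟩, .q ⟨.ofNat 359, .negSucc 118, .negSucc 239,
  .ofNat 0⟩ ⟨.ofNat 13857, .negSucc 9856, .ofNat 0, .negSucc 3999⟩, .q
  ⟨.ofNat 356, .negSucc 115, .negSucc 239, .ofNat 0⟩ ⟨.negSucc 1800,
  .negSucc 2198, .ofNat 0, .ofNat 4000⟩, .q ⟨.ofNat 359, .negSucc 118,
  .negSucc 239, .ofNat 0⟩ ⟨.negSucc 1800, .negSucc 2198, .ofNat 0, .ofNat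
  4000⟩, .q ⟨.ofNat 356, .negSucc 115, .negSucc 239, .ofNat 0⟩ ⟨.ofNat 2750,
  .ofNat 2800, .negSucc 3320, .negSucc 2228⟩, .q ⟨.ofNat 359, .negSucc 118,
  .negSucc 239, .ofNat 0⟩ ⟨.ofNat 2750, .ofNat 2800, .negSucc 3320, .negSucc
  2228⟩],
[.q ⟨.ofNat 11, .negSucc 12, .negSucc 17, .ofNat 20⟩ ⟨.negSucc 2310,
  .negSucc 1866, .ofNat 2078, .ofNat 2100⟩, .q ⟨.ofNat 11, .negSucc 12,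
  .negSucc 17, .ofNat 20⟩ ⟨.ofNat 548, .negSucc 86, .negSucc 220, .negSucc
  239⟩, .q ⟨.ofNat 11, .negSucc 12, .negSucc 17, .ofNat 20⟩ ⟨.negSucc 1267,
  .ofNat 3847, .negSucc 1498, .negSucc 1079⟩, .q ⟨.ofNat 11, .negSucc 12,
  .negSucc 17, .ofNat 20⟩ ⟨.negSucc 4687, .ofNat 2839, .ofNat 669, .ofNat
  1180⟩],
[.q ⟨.negSucc 37, .negSucc 41, .ofNat 80, .ofNat 0⟩ ⟨.negSucc 121, .ofNat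
  42, .ofNat 80, .ofNat 0⟩, .q ⟨.ofNat 35, .ofNat 45, .negSucc 79, .ofNat 0⟩
  ⟨.negSucc 124, .ofNat 45, .ofNat 80, .ofNat 0⟩, .q ⟨.ofNat 122, .negSucc
  41, .negSucc 79, .ofNat 0⟩ ⟨.ofNat 5496, .negSucc 2674, .negSucc 1307,
  .negSucc 1512⟩, .q ⟨.ofNat 125, .negSucc 44, .negSucc 79, .ofNat 0⟩
  ⟨.ofNat 5496, .negSucc 2674, .negSucc 1307, .negSucc 1512⟩, .q ⟨.ofNat
  122, .negSucc 41, .negSucc 79, .ofNat 0⟩ ⟨.negSucc 2110, .negSucc 1909,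
  .ofNat 21, .ofNat 4000⟩, .q ⟨.ofNat 125, .negSucc 44, .negSucc 79, .ofNat
  0⟩ ⟨.negSucc 2110, .negSucc 1909, .ofNat 21, .ofNat 4000⟩, .q ⟨.ofNat 122,
  .negSucc 41, .negSucc 79, .ofNat 0⟩ ⟨.ofNat 2626, .ofNat 2783, .negSucc
  3531, .negSucc 1876⟩, .q ⟨.ofNat 125, .negSucc 44, .negSucc 79, .ofNat 0⟩
  ⟨.ofNat 2626, .ofNat 2783, .negSucc 3531, .negSucc 1876⟩, .q ⟨.ofNat 122,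
  .negSucc 41, .negSucc 79, .ofNat 0⟩ ⟨.ofNat 914, .ofNat 1291, .negSucc
  3706, .ofNat 1502⟩, .q ⟨.ofNat 125, .negSucc 44, .negSucc 79, .ofNat 0⟩
  ⟨.ofNat 914, .ofNat 1291, .negSucc 3706, .ofNat 1502⟩],
[.q ⟨.negSucc 227, .negSucc 251, .ofNat 480, .ofNat 0⟩ ⟨.negSucc 731, .ofNat
  252, .ofNat 480, .ofNat 0⟩, .q ⟨.ofNat 217, .ofNat 263, .negSucc 479,
  .ofNat 0⟩ ⟨.negSucc 742, .ofNat 263, .ofNat 480, .ofNat 0⟩, .q ⟨.ofNat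
  732, .negSucc 251, .negSucc 479, .ofNat 0⟩ ⟨.ofNat 1251, .ofNat 456,
  .ofNat 1843, .negSucc 3549⟩, .q ⟨.ofNat 743, .negSucc 262, .negSucc 479,
  .ofNat 0⟩ ⟨.ofNat 1251, .ofNat 456, .ofNat 1843, .negSucc 3549⟩, .q
  ⟨.ofNat 732, .negSucc 251, .negSucc 479, .ofNat 0⟩ ⟨.negSucc 1035,
  .negSucc 670, .negSucc 1842, .ofNat 3550⟩, .q ⟨.ofNat 743, .negSucc 262,
  .negSucc 479, .ofNat 0⟩ ⟨.negSucc 1035, .negSucc 670, .negSucc 1842,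
  .ofNat 3550⟩, .q ⟨.ofNat 732, .negSucc 251, .negSucc 479, .ofNat 0⟩
  ⟨.negSucc 1987, .negSucc 1710, .negSucc 289, .ofNat 3989⟩, .q ⟨.ofNat 743,
  .negSucc 262, .negSucc 479, .ofNat 0⟩ ⟨.negSucc 1987, .negSucc 1710,
  .negSucc 289, .ofNat 3989⟩],
[.q ⟨.negSucc 229, .negSucc 249, .ofNat 480, .ofNat 0⟩ ⟨.negSucc 729, .ofNat
  250, .ofNat 480, .ofNat 0⟩, .q ⟨.ofNat 221, .ofNat 259, .negSucc 479,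
  .ofNat 0⟩ ⟨.negSucc 738, .ofNat 259, .ofNat 480, .ofNat 0⟩, .q ⟨.ofNat
  730, .negSucc 249, .negSucc 479, .ofNat 0⟩ ⟨.ofNat 6639, .negSucc 4638,
  .ofNat 0, .negSucc 1999⟩, .q ⟨.ofNat 739, .negSucc 258, .negSucc 479,
  .ofNat 0⟩ ⟨.ofNat 6639, .negSucc 4638, .ofNat 0, .negSucc 1999⟩, .q
  ⟨.ofNat 730, .negSucc 249, .negSucc 479, .ofNat 0⟩ ⟨.negSucc 2779,
  .negSucc 2715, .ofNat 2077, .ofNat 3419⟩, .q ⟨.ofNat 739, .negSucc 258,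
  .negSucc 479, .ofNat 0⟩ ⟨.negSucc 2779, .negSucc 2715, .ofNat 2077, .ofNat
  3419⟩, .q ⟨.ofNat 730, .negSucc 249, .negSucc 479, .ofNat 0⟩ ⟨.ofNat 2927,
  .ofNat 2321, .negSucc 1568, .negSucc 3678⟩, .q ⟨.ofNat 739, .negSucc 258,
  .negSucc 479, .ofNat 0⟩ ⟨.ofNat 2927, .ofNat 2321, .negSucc 1568, .negSucc
  3678⟩, .q ⟨.ofNat 730, .negSucc 249, .negSucc 479, .ofNat 0⟩ ⟨.negSucc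
  943, .negSucc 574, .negSucc 1964, .ofNat 3484⟩, .q ⟨.ofNat 739, .negSucc
  258, .negSucc 479, .ofNat 0⟩ ⟨.negSucc 943, .negSucc 574, .negSucc 1964,
  .ofNat 3484⟩],
[.q ⟨.negSucc 443, .negSucc 515, .ofNat 960, .ofNat 0⟩ ⟨.negSucc 1475,
  .ofNat 516, .ofNat 960, .ofNat 0⟩, .q ⟨.ofNat 433, .ofNat 527, .negSucc
  959, .ofNat 0⟩ ⟨.negSucc 1486, .ofNat 527, .ofNat 960, .ofNat 0⟩, .q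
  ⟨.ofNat 1476, .negSucc 515, .negSucc 959, .ofNat 0⟩ ⟨.ofNat 2399, .ofNat
  1601, .ofNat 0, .negSucc 3999⟩, .q ⟨.ofNat 1487, .negSucc 526, .negSucc
  959, .ofNat 0⟩ ⟨.ofNat 2399, .ofNat 1601, .ofNat 0, .negSucc 3999⟩, .q
  ⟨.ofNat 1476, .negSucc 515, .negSucc 959, .ofNat 0⟩ ⟨.negSucc 2730,
  .negSucc 2761, .ofNat 2071, .ofNat 3422⟩, .q ⟨.ofNat 1487, .negSucc 526,
  .negSucc 959, .ofNat 0⟩ ⟨.negSucc 2730, .negSucc 2761, .ofNat 2071, .ofNat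
  3422⟩, .q ⟨.ofNat 1476, .negSucc 515, .negSucc 959, .ofNat 0⟩ ⟨.ofNat 439,
  .ofNat 833, .negSucc 3391, .ofNat 2120⟩, .q ⟨.ofNat 1487, .negSucc 526,
  .negSucc 959, .ofNat 0⟩ ⟨.ofNat 439, .ofNat 833, .negSucc 3391, .ofNat
  2120⟩],
[.q ⟨.negSucc 114, .negSucc 124, .ofNat 240, .ofNat 0⟩ ⟨.negSucc 364, .ofNat
  125, .ofNat 240, .ofNat 0⟩, .q ⟨.ofNat 109, .ofNat 131, .negSucc 239,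
  .ofNat 0⟩ ⟨.negSucc 370, .ofNat 131, .ofNat 240, .ofNat 0⟩, .q ⟨.ofNat
  365, .negSucc 124, .negSucc 239, .ofNat 0⟩ ⟨.ofNat 2399, .ofNat 1601,
  .ofNat 0, .negSucc 3999⟩, .q ⟨.ofNat 371, .negSucc 130, .negSucc 239,
  .ofNat 0⟩ ⟨.ofNat 2399, .ofNat 1601, .ofNat 0, .negSucc 3999⟩, .q ⟨.ofNat
  365, .negSucc 124, .negSucc 239, .ofNat 0⟩ ⟨.negSucc 2090, .negSucc 1908,
  .ofNat 0, .ofNat 4000⟩, .q ⟨.ofNat 371, .negSucc 130, .negSucc 239, .ofNat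
  0⟩ ⟨.negSucc 2090, .negSucc 1908, .ofNat 0, .ofNat 4000⟩, .q ⟨.ofNat 365,
  .negSucc 124, .negSucc 239, .ofNat 0⟩ ⟨.ofNat 575, .ofNat 966, .negSucc
  3491, .ofNat 1951⟩, .q ⟨.ofNat 371, .negSucc 130, .negSucc 239, .ofNat 0⟩
  ⟨.ofNat 575, .ofNat 966, .negSucc 3491, .ofNat 1951⟩],
[.q ⟨.negSucc 18, .negSucc 15, .ofNat 11, .ofNat 24⟩ ⟨.ofNat 3248, .negSucc
  747, .negSucc 6147, .ofNat 3648⟩, .q ⟨.negSucc 18, .negSucc 15, .ofNat 11,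
  .ofNat 24⟩ ⟨.negSucc 12203, .ofNat 18416, .ofNat 4924, .negSucc 11135⟩, .q
  ⟨.negSucc 18, .negSucc 15, .ofNat 11, .ofNat 24⟩ ⟨.negSucc 491, .negSucc
  9087, .ofNat 11404, .negSucc 1823⟩],
[.q ⟨.negSucc 248, .negSucc 230, .ofNat 480, .ofNat 0⟩ ⟨.negSucc 710, .ofNat
  231, .ofNat 480, .ofNat 0⟩, .q ⟨.ofNat 239, .ofNat 241, .negSucc 479,
  .ofNat 0⟩ ⟨.negSucc 720, .ofNat 241, .ofNat 480, .ofNat 0⟩, .q ⟨.ofNat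
  711, .negSucc 230, .negSucc 479, .ofNat 0⟩ ⟨.ofNat 9960, .negSucc 7404,
  .ofNat 1246, .negSucc 3800⟩, .q ⟨.ofNat 721, .negSucc 240, .negSucc 479,
  .ofNat 0⟩ ⟨.ofNat 9960, .negSucc 7404, .ofNat 1246, .negSucc 3800⟩, .q
  ⟨.ofNat 711, .negSucc 230, .negSucc 479, .ofNat 0⟩ ⟨.negSucc 1062,
  .negSucc 1491, .negSucc 1245, .ofNat 3801⟩, .q ⟨.ofNat 721, .negSucc 240,
  .negSucc 479, .ofNat 0⟩ ⟨.negSucc 1062, .negSucc 1491, .negSucc 1245,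
  .ofNat 3801⟩, .q ⟨.ofNat 711, .negSucc 230, .negSucc 479, .ofNat 0⟩
  ⟨.ofNat 2727, .ofNat 2777, .negSucc 3405, .negSucc 2097⟩, .q ⟨.ofNat 721,
  .negSucc 240, .negSucc 479, .ofNat 0⟩ ⟨.ofNat 2727, .ofNat 2777, .negSucc
  3405, .negSucc 2097⟩],
[.q ⟨.negSucc 25, .negSucc 20, .ofNat 15, .ofNat 32⟩ ⟨.ofNat 2076, .negSucc
  7835, .ofNat 4480, .ofNat 1280⟩, .q ⟨.negSucc 25, .negSucc 20, .ofNat 15,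
  .ofNat 32⟩ ⟨.ofNat 5526, .ofNat 441, .negSucc 12334, .ofNat 6368⟩, .q
  ⟨.negSucc 25, .negSucc 20, .ofNat 15, .ofNat 32⟩ ⟨.negSucc 10887, .ofNat
  21572, .negSucc 1979, .negSucc 8703⟩, .q ⟨.negSucc 25, .negSucc 20, .ofNat
  15, .ofNat 32⟩ ⟨.negSucc 6915, .ofNat 1896, .ofNat 12316, .negSucc 7295⟩],
[.q ⟨.negSucc 38, .negSucc 40, .ofNat 80, .ofNat 0⟩ ⟨.negSucc 120, .ofNat
  41, .ofNat 80, .ofNat 0⟩, .q ⟨.ofNat 36, .ofNat 44, .negSucc 79, .ofNat 0⟩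
  ⟨.negSucc 123, .ofNat 44, .ofNat 80, .ofNat 0⟩, .q ⟨.ofNat 121, .negSucc
  40, .negSucc 79, .ofNat 0⟩ ⟨.ofNat 2399, .ofNat 1601, .ofNat 0, .negSucc
  3999⟩, .q ⟨.ofNat 124, .negSucc 43, .negSucc 79, .ofNat 0⟩ ⟨.ofNat 2399,
  .ofNat 1601, .ofNat 0, .negSucc 3999⟩, .q ⟨.ofNat 121, .negSucc 40,
  .negSucc 79, .ofNat 0⟩ ⟨.negSucc 814, .negSucc 445, .negSucc 2126, .ofNat
  3388⟩, .q ⟨.ofNat 124, .negSucc 43, .negSucc 79, .ofNat 0⟩ ⟨.negSucc 814,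
  .negSucc 445, .negSucc 2126, .ofNat 3388⟩, .q ⟨.ofNat 121, .negSucc 40,
  .negSucc 79, .ofNat 0⟩ ⟨.negSucc 1759, .negSucc 1441, .negSucc 730, .ofNat
  3933⟩, .q ⟨.ofNat 124, .negSucc 43, .negSucc 79, .ofNat 0⟩ ⟨.negSucc 1759,
  .negSucc 1441, .negSucc 730, .ofNat 3933⟩],
[.q ⟨.negSucc 25, .negSucc 20, .ofNat 15, .ofNat 32⟩ ⟨.ofNat 11284, .negSucc
  12507, .negSucc 9911, .ofNat 11136⟩, .q ⟨.negSucc 25, .negSucc 20, .ofNat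
  15, .ofNat 32⟩ ⟨.ofNat 1152, .ofNat 7900, .negSucc 11611, .ofNat 2560⟩, .q
  ⟨.negSucc 25, .negSucc 20, .ofNat 15, .ofNat 32⟩ ⟨.negSucc 10651, .ofNat
  21608, .negSucc 2251, .negSucc 8703⟩, .q ⟨.negSucc 25, .negSucc 20, .ofNat
  15, .ofNat 32⟩ ⟨.ofNat 312, .negSucc 5403, .ofNat 5476, .negSucc 383⟩],
[.q ⟨.negSucc 0, .ofNat 1, .ofNat 0, .ofNat 0⟩ ⟨.negSucc 682, .ofNat 43,
  .ofNat 640, .ofNat 0⟩, .q ⟨.negSucc 0, .ofNat 1, .ofNat 0, .ofNat 0⟩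
  ⟨.ofNat 1801, .ofNat 119, .negSucc 1919, .ofNat 0⟩, .l ⟨.ofNat 0, .ofNat
  0, .negSucc 639, .negSucc 426⟩ ⟨.ofNat 0, .ofNat 0, .ofNat 0, .ofNat 1⟩,
  .l ⟨.ofNat 0, .ofNat 0, .ofNat 1920, .ofNat 1397⟩ ⟨.ofNat 0, .ofNat 0,
  .ofNat 0, .ofNat 1⟩],
[.l ⟨.ofNat 0, .ofNat 120, .ofNat 0, .negSucc 110⟩ ⟨.ofNat 0, .ofNat 120,
  .ofNat 0, .ofNat 111⟩, .l ⟨.ofNat 0, .negSucc 119, .ofNat 0, .ofNat 113⟩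
  ⟨.ofNat 0, .ofNat 120, .ofNat 0, .ofNat 113⟩, .l ⟨.ofNat 0, .ofNat 120,
  .ofNat 0, .negSucc 110⟩ ⟨.ofNat 0, .ofNat 0, .ofNat 2000, .ofNat 1763⟩, .l
  ⟨.ofNat 0, .ofNat 120, .ofNat 0, .negSucc 112⟩ ⟨.ofNat 0, .ofNat 0, .ofNat
  2000, .ofNat 1763⟩, .l ⟨.ofNat 0, .ofNat 120, .ofNat 0, .negSucc 110⟩
  ⟨.ofNat 0, .ofNat 79, .negSucc 661, .negSucc 639⟩, .l ⟨.ofNat 0, .ofNat
  120, .ofNat 0, .negSucc 112⟩ ⟨.ofNat 0, .ofNat 79, .negSucc 661, .negSucc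
  639⟩],
[.q ⟨.negSucc 37, .negSucc 41, .ofNat 80, .ofNat 0⟩ ⟨.negSucc 121, .ofNat
  42, .ofNat 80, .ofNat 0⟩, .q ⟨.ofNat 35, .ofNat 45, .negSucc 79, .ofNat 0⟩
  ⟨.negSucc 124, .ofNat 45, .ofNat 80, .ofNat 0⟩, .q ⟨.ofNat 122, .negSucc
  41, .negSucc 79, .ofNat 0⟩ ⟨.ofNat 12997, .negSucc 11391, .ofNat 1910,
  .negSucc 3514⟩, .q ⟨.ofNat 125, .negSucc 44, .negSucc 79, .ofNat 0⟩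
  ⟨.ofNat 12997, .negSucc 11391, .ofNat 1910, .negSucc 3514⟩, .q ⟨.ofNat
  122, .negSucc 41, .negSucc 79, .ofNat 0⟩ ⟨.negSucc 985, .negSucc 618,
  .negSucc 1909, .ofNat 3515⟩, .q ⟨.ofNat 125, .negSucc 44, .negSucc 79,
  .ofNat 0⟩ ⟨.negSucc 985, .negSucc 618, .negSucc 1909, .ofNat 3515⟩, .q
  ⟨.ofNat 122, .negSucc 41, .negSucc 79, .ofNat 0⟩ ⟨.ofNat 2796, .ofNat
  2767, .negSucc 3294, .negSucc 2267⟩, .q ⟨.ofNat 125, .negSucc 44, .negSucc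
  79, .ofNat 0⟩ ⟨.ofNat 2796, .ofNat 2767, .negSucc 3294, .negSucc 2267⟩, .q
  ⟨.ofNat 122, .negSucc 41, .negSucc 79, .ofNat 0⟩ ⟨.negSucc 2675, .negSucc
  2553, .ofNat 1537, .ofNat 3693⟩, .q ⟨.ofNat 125, .negSucc 44, .negSucc 79,
  .ofNat 0⟩ ⟨.negSucc 2675, .negSucc 2553, .ofNat 1537, .ofNat 3693⟩],
[.q ⟨.negSucc 114, .negSucc 124, .ofNat 240, .ofNat 0⟩ ⟨.negSucc 364, .ofNat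
  125, .ofNat 240, .ofNat 0⟩, .q ⟨.ofNat 111, .ofNat 129, .negSucc 239,
  .ofNat 0⟩ ⟨.negSucc 368, .ofNat 129, .ofNat 240, .ofNat 0⟩, .q ⟨.ofNat
  365, .negSucc 124, .negSucc 239, .ofNat 0⟩ ⟨.ofNat 14462, .negSucc 9801,
  .negSucc 726, .negSucc 3932⟩, .q ⟨.ofNat 369, .negSucc 128, .negSucc 239,
  .ofNat 0⟩ ⟨.ofNat 14462, .negSucc 9801, .negSucc 726, .negSucc 3932⟩, .q
  ⟨.ofNat 365, .negSucc 124, .negSucc 239, .ofNat 0⟩ ⟨.negSucc 459, .negSucc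
  95, .negSucc 2536, .ofNat 3093⟩, .q ⟨.ofNat 369, .negSucc 128, .negSucc
  239, .ofNat 0⟩ ⟨.negSucc 459, .negSucc 95, .negSucc 2536, .ofNat 3093⟩, .q
  ⟨.ofNat 365, .negSucc 124, .negSucc 239, .ofNat 0⟩ ⟨.ofNat 1336, .ofNat
  547, .ofNat 1726, .negSucc 3608⟩, .q ⟨.ofNat 369, .negSucc 128, .negSucc
  239, .ofNat 0⟩ ⟨.ofNat 1336, .ofNat 547, .ofNat 1726, .negSucc 3608⟩, .q
  ⟨.ofNat 365, .negSucc 124, .negSucc 239, .ofNat 0⟩ ⟨.negSucc 590, .negSucc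
  411, .negSucc 820, .ofNat 1824⟩, .q ⟨.ofNat 369, .negSucc 128, .negSucc
  239, .ofNat 0⟩ ⟨.negSucc 590, .negSucc 411, .negSucc 820, .ofNat 1824⟩],
[.l ⟨.ofNat 0, .ofNat 240, .ofNat 0, .negSucc 212⟩ ⟨.ofNat 0, .ofNat 240,
  .ofNat 0, .ofNat 213⟩, .l ⟨.ofNat 0, .negSucc 239, .ofNat 0, .ofNat 217⟩
  ⟨.ofNat 0, .ofNat 240, .ofNat 0, .ofNat 217⟩, .l ⟨.ofNat 0, .ofNat 240,
  .ofNat 0, .negSucc 212⟩ ⟨.ofNat 0, .ofNat 0, .ofNat 500, .ofNat 447⟩, .l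
  ⟨.ofNat 0, .ofNat 240, .ofNat 0, .negSucc 216⟩ ⟨.ofNat 0, .ofNat 0, .ofNat
  500, .ofNat 447⟩, .l ⟨.ofNat 0, .ofNat 240, .ofNat 0, .negSucc 212⟩
  ⟨.ofNat 0, .ofNat 868, .negSucc 3904, .negSucc 3412⟩, .l ⟨.ofNat 0, .ofNat
  240, .ofNat 0, .negSucc 216⟩ ⟨.ofNat 0, .ofNat 868, .negSucc 3904,
  .negSucc 3412⟩],
[.l ⟨.ofNat 0, .ofNat 160, .ofNat 0, .negSucc 139⟩ ⟨.ofNat 0, .ofNat 160,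
  .ofNat 0, .ofNat 140⟩, .l ⟨.ofNat 0, .negSucc 159, .ofNat 0, .ofNat 143⟩
  ⟨.ofNat 0, .ofNat 160, .ofNat 0, .ofNat 143⟩, .l ⟨.ofNat 0, .ofNat 160,
  .ofNat 0, .negSucc 139⟩ ⟨.ofNat 0, .negSucc 935, .ofNat 3889, .ofNat
  2691⟩, .l ⟨.ofNat 0, .ofNat 160, .ofNat 0, .negSucc 142⟩ ⟨.ofNat 0,
  .negSucc 935, .ofNat 3889, .ofNat 2691⟩, .l ⟨.ofNat 0, .ofNat 160, .ofNat
  0, .negSucc 139⟩ ⟨.ofNat 0, .ofNat 790, .negSucc 3920, .negSucc 3500⟩, .l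
  ⟨.ofNat 0, .ofNat 160, .ofNat 0, .negSucc 142⟩ ⟨.ofNat 0, .ofNat 790,
  .negSucc 3920, .negSucc 3500⟩],
[.q ⟨.ofNat 11, .negSucc 12, .negSucc 17, .ofNat 20⟩ ⟨.negSucc 1965, .ofNat
  1882, .negSucc 95, .ofNat 180⟩, .q ⟨.ofNat 11, .negSucc 12, .negSucc 17,
  .ofNat 20⟩ ⟨.negSucc 4762, .ofNat 2410, .ofNat 933, .ofNat 1420⟩, .q
  ⟨.ofNat 11, .negSucc 12, .negSucc 17, .ofNat 20⟩ ⟨.ofNat 1026, .negSucc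
  3839, .ofNat 1474, .ofNat 1340⟩, .q ⟨.ofNat 11, .negSucc 12, .negSucc 17,
  .ofNat 20⟩ ⟨.ofNat 4778, .negSucc 2795, .negSucc 841, .negSucc 1139⟩, .q
  ⟨.ofNat 11, .negSucc 12, .negSucc 17, .ofNat 20⟩ ⟨.negSucc 175, .ofNat
  915, .negSucc 418, .negSucc 319⟩],
[.l ⟨.ofNat 0, .ofNat 480, .ofNat 0, .negSucc 447⟩ ⟨.ofNat 0, .ofNat 480,
  .ofNat 0, .ofNat 448⟩, .l ⟨.ofNat 0, .negSucc 479, .ofNat 0, .ofNat 457⟩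
  ⟨.ofNat 0, .ofNat 480, .ofNat 0, .ofNat 457⟩, .l ⟨.ofNat 0, .ofNat 480,
  .ofNat 0, .negSucc 447⟩ ⟨.ofNat 0, .ofNat 0, .ofNat 250, .ofNat 219⟩, .l
  ⟨.ofNat 0, .ofNat 480, .ofNat 0, .negSucc 456⟩ ⟨.ofNat 0, .ofNat 0, .ofNat
  250, .ofNat 219⟩, .l ⟨.ofNat 0, .ofNat 480, .ofNat 0, .negSucc 447⟩
  ⟨.ofNat 0, .ofNat 0, .negSucc 799, .negSucc 862⟩, .l ⟨.ofNat 0, .ofNat
  480, .ofNat 0, .negSucc 456⟩ ⟨.ofNat 0, .ofNat 0, .negSucc 799, .negSucc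
  862⟩],
[.l ⟨.ofNat 0, .ofNat 480, .ofNat 0, .negSucc 428⟩ ⟨.ofNat 0, .ofNat 480,
  .ofNat 0, .ofNat 429⟩, .l ⟨.ofNat 0, .negSucc 479, .ofNat 0, .ofNat 439⟩
  ⟨.ofNat 0, .ofNat 480, .ofNat 0, .ofNat 439⟩, .l ⟨.ofNat 0, .ofNat 480,
  .ofNat 0, .negSucc 428⟩ ⟨.ofNat 0, .ofNat 947, .ofNat 3886, .ofNat 4312⟩,
  .l ⟨.ofNat 0, .ofNat 480, .ofNat 0, .negSucc 438⟩ ⟨.ofNat 0, .ofNat 947,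
  .ofNat 3886, .ofNat 4312⟩, .l ⟨.ofNat 0, .ofNat 480, .ofNat 0, .negSucc
  428⟩ ⟨.ofNat 0, .negSucc 946, .negSucc 3885, .negSucc 5016⟩, .l ⟨.ofNat 0,
  .ofNat 480, .ofNat 0, .negSucc 438⟩ ⟨.ofNat 0, .negSucc 946, .negSucc
  3885, .negSucc 5016⟩, .l ⟨.ofNat 0, .ofNat 480, .ofNat 0, .negSucc 428⟩
  ⟨.ofNat 0, .ofNat 3005, .ofNat 2640, .ofNat 5061⟩, .l ⟨.ofNat 0, .ofNat
  480, .ofNat 0, .negSucc 438⟩ ⟨.ofNat 0, .ofNat 3005, .ofNat 2640, .ofNat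
  5061⟩],
[.q ⟨.negSucc 19, .negSucc 19, .ofNat 40, .ofNat 0⟩ ⟨.negSucc 59, .ofNat 20,
  .ofNat 40, .ofNat 0⟩, .q ⟨.ofNat 17, .ofNat 23, .negSucc 39, .ofNat 0⟩
  ⟨.negSucc 62, .ofNat 23, .ofNat 40, .ofNat 0⟩, .q ⟨.ofNat 60, .negSucc 19,
  .negSucc 39, .ofNat 0⟩ ⟨.ofNat 399, .ofNat 77, .ofNat 1156, .negSucc
  1631⟩, .q ⟨.ofNat 63, .negSucc 22, .negSucc 39, .ofNat 0⟩ ⟨.ofNat 399,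
  .ofNat 77, .ofNat 1156, .negSucc 1631⟩, .q ⟨.ofNat 60, .negSucc 19,
  .negSucc 39, .ofNat 0⟩ ⟨.negSucc 162, .negSucc 74, .negSucc 577, .ofNat
  816⟩, .q ⟨.ofNat 63, .negSucc 22, .negSucc 39, .ofNat 0⟩ ⟨.negSucc 162,
  .negSucc 74, .negSucc 577, .ofNat 816⟩, .q ⟨.ofNat 60, .negSucc 19,
  .negSucc 39, .ofNat 0⟩ ⟨.negSucc 1265, .negSucc 906, .negSucc 1524, .ofNat
  3698⟩, .q ⟨.ofNat 63, .negSucc 22, .negSucc 39, .ofNat 0⟩ ⟨.negSucc 1265,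
  .negSucc 906, .negSucc 1524, .ofNat 3698⟩],
[.q ⟨.negSucc 19, .negSucc 19, .ofNat 40, .ofNat 0⟩ ⟨.negSucc 59, .ofNat 20,
  .ofNat 40, .ofNat 0⟩, .q ⟨.ofNat 17, .ofNat 23, .negSucc 39, .ofNat 0⟩
  ⟨.negSucc 62, .ofNat 23, .ofNat 40, .ofNat 0⟩, .q ⟨.ofNat 60, .negSucc 19,
  .negSucc 39, .ofNat 0⟩ ⟨.ofNat 7061, .negSucc 5060, .ofNat 0, .negSucc
  1999⟩, .q ⟨.ofNat 63, .negSucc 22, .negSucc 39, .ofNat 0⟩ ⟨.ofNat 7061,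
  .negSucc 5060, .ofNat 0, .negSucc 1999⟩, .q ⟨.ofNat 60, .negSucc 19,
  .negSucc 39, .ofNat 0⟩ ⟨.negSucc 1485, .negSucc 1201, .negSucc 1144,
  .ofNat 3833⟩, .q ⟨.ofNat 63, .negSucc 22, .negSucc 39, .ofNat 0⟩ ⟨.negSucc
  1485, .negSucc 1201, .negSucc 1144, .ofNat 3833⟩, .q ⟨.ofNat 60, .negSucc
  19, .negSucc 39, .ofNat 0⟩ ⟨.ofNat 914, .ofNat 950, .negSucc 1074,
  .negSucc 788⟩, .q ⟨.ofNat 63, .negSucc 22, .negSucc 39, .ofNat 0⟩ ⟨.ofNat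
  914, .ofNat 950, .negSucc 1074, .negSucc 788⟩, .q ⟨.ofNat 60, .negSucc 19,
  .negSucc 39, .ofNat 0⟩ ⟨.ofNat 652, .ofNat 1035, .negSucc 3542, .ofNat
  1856⟩, .q ⟨.ofNat 63, .negSucc 22, .negSucc 39, .ofNat 0⟩ ⟨.ofNat 652,
  .ofNat 1035, .negSucc 3542, .ofNat 1856⟩],
[.q ⟨.ofNat 11, .negSucc 12, .negSucc 17, .ofNat 20⟩ ⟨.ofNat 4813, .negSucc
  1981, .negSucc 1310, .negSucc 1519⟩, .q ⟨.ofNat 11, .negSucc 12, .negSucc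
  17, .ofNat 20⟩ ⟨.ofNat 3762, .ofNat 311, .negSucc 2032, .negSucc 2039⟩, .q
  ⟨.ofNat 11, .negSucc 12, .negSucc 17, .ofNat 20⟩ ⟨.negSucc 3714, .ofNat
  3879, .negSucc 343, .ofNat 180⟩, .q ⟨.ofNat 11, .negSucc 12, .negSucc 17,
  .ofNat 20⟩ ⟨.negSucc 4672, .ofNat 1542, .ofNat 1351, .ofNat 1780⟩, .q
  ⟨.ofNat 11, .negSucc 12, .negSucc 17, .ofNat 20⟩ ⟨.ofNat 513, .negSucc
  1923, .ofNat 731, .ofNat 680⟩],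
[.q ⟨.ofNat 11, .negSucc 12, .negSucc 17, .ofNat 20⟩ ⟨.negSucc 568, .negSucc
  3126, .ofNat 1836, .ofNat 1860⟩, .q ⟨.ofNat 11, .negSucc 12, .negSucc 17,
  .ofNat 20⟩ ⟨.ofNat 4804, .negSucc 1947, .negSucc 1315, .negSucc 1539⟩, .q
  ⟨.ofNat 11, .negSucc 12, .negSucc 17, .ofNat 20⟩ ⟨.ofNat 1141, .ofNat
  2719, .negSucc 2079, .negSucc 1779⟩, .q ⟨.ofNat 11, .negSucc 12, .negSucc
  17, .ofNat 20⟩ ⟨.negSucc 3806, .ofNat 3831, .negSucc 283, .ofNat 260⟩, .q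
  ⟨.ofNat 11, .negSucc 12, .negSucc 17, .ofNat 20⟩ ⟨.negSucc 2229, .ofNat
  459, .ofNat 791, .ofNat 980⟩],
[.q ⟨.negSucc 226, .negSucc 252, .ofNat 480, .ofNat 0⟩ ⟨.negSucc 732, .ofNat
  253, .ofNat 480, .ofNat 0⟩, .q ⟨.ofNat 220, .ofNat 260, .negSucc 479,
  .ofNat 0⟩ ⟨.negSucc 739, .ofNat 260, .ofNat 480, .ofNat 0⟩, .q ⟨.ofNat
  733, .negSucc 252, .negSucc 479, .ofNat 0⟩ ⟨.ofNat 1115, .ofNat 320,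
  .ofNat 2018, .negSucc 3452⟩, .q ⟨.ofNat 740, .negSucc 259, .negSucc 479,
  .ofNat 0⟩ ⟨.ofNat 1115, .ofNat 320, .ofNat 2018, .negSucc 3452⟩, .q
  ⟨.ofNat 733, .negSucc 252, .negSucc 479, .ofNat 0⟩ ⟨.negSucc 401, .negSucc
  282, .negSucc 535, .ofNat 1221⟩, .q ⟨.ofNat 740, .negSucc 259, .negSucc
  479, .ofNat 0⟩ ⟨.negSucc 401, .negSucc 282, .negSucc 535, .ofNat 1221⟩],
[.q ⟨.negSucc 36, .negSucc 42, .ofNat 80, .ofNat 0⟩ ⟨.negSucc 122, .ofNat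
  43, .ofNat 80, .ofNat 0⟩, .q ⟨.ofNat 34, .ofNat 46, .negSucc 79, .ofNat 0⟩
  ⟨.negSucc 125, .ofNat 46, .ofNat 80, .ofNat 0⟩, .q ⟨.ofNat 123, .negSucc
  42, .negSucc 79, .ofNat 0⟩ ⟨.ofNat 12515, .negSucc 11942, .ofNat 2528,
  .negSucc 3099⟩, .q ⟨.ofNat 126, .negSucc 45, .negSucc 79, .ofNat 0⟩
  ⟨.ofNat 12515, .negSucc 11942, .ofNat 2528, .negSucc 3099⟩, .q ⟨.ofNat
  123, .negSucc 42, .negSucc 79, .ofNat 0⟩ ⟨.negSucc 468, .negSucc 102,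
  .negSucc 2527, .ofNat 3100⟩, .q ⟨.ofNat 126, .negSucc 45, .negSucc 79,
  .ofNat 0⟩ ⟨.negSucc 468, .negSucc 102, .negSucc 2527, .ofNat 3100⟩, .q
  ⟨.ofNat 123, .negSucc 42, .negSucc 79, .ofNat 0⟩ ⟨.ofNat 3085, .ofNat
  2494, .negSucc 3257, .negSucc 2320⟩, .q ⟨.ofNat 126, .negSucc 45, .negSucc
  79, .ofNat 0⟩ ⟨.ofNat 3085, .ofNat 2494, .negSucc 3257, .negSucc 2320⟩, .q
  ⟨.ofNat 123, .negSucc 42, .negSucc 79, .ofNat 0⟩ ⟨.ofNat 571, .ofNat 973,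
  .negSucc 3492, .ofNat 1949⟩, .q ⟨.ofNat 126, .negSucc 45, .negSucc 79,
  .ofNat 0⟩ ⟨.ofNat 571, .ofNat 973, .negSucc 3492, .ofNat 1949⟩],
[.q ⟨.negSucc 496, .negSucc 462, .ofNat 960, .ofNat 0⟩ ⟨.negSucc 1422,
  .ofNat 463, .ofNat 960, .ofNat 0⟩, .q ⟨.ofNat 486, .ofNat 474, .negSucc
  959, .ofNat 0⟩ ⟨.negSucc 1433, .ofNat 474, .ofNat 960, .ofNat 0⟩, .q
  ⟨.ofNat 1423, .negSucc 462, .negSucc 959, .ofNat 0⟩ ⟨.ofNat 2342, .ofNat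
  2591, .negSucc 1081, .negSucc 3850⟩, .q ⟨.ofNat 1434, .negSucc 473,
  .negSucc 959, .ofNat 0⟩ ⟨.ofNat 2342, .ofNat 2591, .negSucc 1081, .negSucc
  3850⟩, .q ⟨.ofNat 1423, .negSucc 462, .negSucc 959, .ofNat 0⟩ ⟨.negSucc
  255, .negSucc 728, .negSucc 2292, .ofNat 3278⟩, .q ⟨.ofNat 1434, .negSucc
  473, .negSucc 959, .ofNat 0⟩ ⟨.negSucc 255, .negSucc 728, .negSucc 2292,
  .ofNat 3278⟩],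
[.l ⟨.ofNat 0, .ofNat 11, .negSucc 799, .ofNat 172⟩ ⟨.ofNat 0, .ofNat 0,
  .ofNat 0, .ofNat 1⟩, .l ⟨.ofNat 0, .ofNat 3335, .negSucc 2207, .ofNat
  2177⟩ ⟨.ofNat 0, .ofNat 0, .ofNat 0, .ofNat 1⟩, .l ⟨.ofNat 0, .negSucc
  107, .ofNat 1997, .ofNat 425⟩ ⟨.ofNat 0, .ofNat 0, .ofNat 0, .ofNat 1⟩, .l
  ⟨.ofNat 0, .negSucc 3653, .negSucc 1626, .negSucc 1474⟩ ⟨.ofNat 0, .ofNat
  0, .ofNat 0, .ofNat 1⟩],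
[.q ⟨.negSucc 4, .negSucc 4, .ofNat 10, .ofNat 0⟩ ⟨.negSucc 14, .ofNat 5,
  .ofNat 10, .ofNat 0⟩, .q ⟨.ofNat 4, .ofNat 6, .negSucc 9, .ofNat 0⟩
  ⟨.negSucc 15, .ofNat 6, .ofNat 10, .ofNat 0⟩, .q ⟨.ofNat 15, .negSucc 4,
  .negSucc 9, .ofNat 0⟩ ⟨.ofNat 13481, .negSucc 10885, .ofNat 1216, .negSucc
  3810⟩, .q ⟨.ofNat 16, .negSucc 5, .negSucc 9, .ofNat 0⟩ ⟨.ofNat 13481,
  .negSucc 10885, .ofNat 1216, .negSucc 3810⟩, .q ⟨.ofNat 15, .negSucc 4,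
  .negSucc 9, .ofNat 0⟩ ⟨.negSucc 1468, .negSucc 1125, .negSucc 1215, .ofNat
  3811⟩, .q ⟨.ofNat 16, .negSucc 5, .negSucc 9, .ofNat 0⟩ ⟨.negSucc 1468,
  .negSucc 1125, .negSucc 1215, .ofNat 3811⟩, .q ⟨.ofNat 15, .negSucc 4,
  .negSucc 9, .ofNat 0⟩ ⟨.ofNat 600, .ofNat 25, .ofNat 2499, .negSucc 3123⟩,
  .q ⟨.ofNat 16, .negSucc 5, .negSucc 9, .ofNat 0⟩ ⟨.ofNat 600, .ofNat 25,
  .ofNat 2499, .negSucc 3123⟩, .q ⟨.ofNat 15, .negSucc 4, .negSucc 9, .ofNat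
  0⟩ ⟨.negSucc 768, .negSucc 401, .negSucc 2181, .ofNat 3353⟩, .q ⟨.ofNat
  16, .negSucc 5, .negSucc 9, .ofNat 0⟩ ⟨.negSucc 768, .negSucc 401,
  .negSucc 2181, .ofNat 3353⟩],
[.q ⟨.negSucc 20, .negSucc 18, .ofNat 40, .ofNat 0⟩ ⟨.negSucc 58, .ofNat 19,
  .ofNat 40, .ofNat 0⟩, .q ⟨.ofNat 18, .ofNat 22, .negSucc 39, .ofNat 0⟩
  ⟨.negSucc 61, .ofNat 22, .ofNat 40, .ofNat 0⟩, .q ⟨.ofNat 59, .negSucc 18,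
  .negSucc 39, .ofNat 0⟩ ⟨.ofNat 790, .ofNat 336, .ofNat 2209, .negSucc
  3334⟩, .q ⟨.ofNat 62, .negSucc 21, .negSucc 39, .ofNat 0⟩ ⟨.ofNat 790,
  .ofNat 336, .ofNat 2209, .negSucc 3334⟩, .q ⟨.ofNat 59, .negSucc 18,
  .negSucc 39, .ofNat 0⟩ ⟨.negSucc 1417, .negSucc 1056, .negSucc 1305,
  .ofNat 3781⟩, .q ⟨.ofNat 62, .negSucc 21, .negSucc 39, .ofNat 0⟩ ⟨.negSucc
  1417, .negSucc 1056, .negSucc 1305, .ofNat 3781⟩, .q ⟨.ofNat 59, .negSucc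
  18, .negSucc 39, .ofNat 0⟩ ⟨.ofNat 82, .ofNat 231, .negSucc 1561, .ofNat
  1249⟩, .q ⟨.ofNat 62, .negSucc 21, .negSucc 39, .ofNat 0⟩ ⟨.ofNat 82,
  .ofNat 231, .negSucc 1561, .ofNat 1249⟩],
[.q ⟨.ofNat 0, .negSucc 0, .negSucc 0, .ofNat 2⟩ ⟨.ofNat 4418, .negSucc
  4369, .negSucc 837, .ofNat 790⟩, .q ⟨.ofNat 0, .negSucc 0, .negSucc 0,
  .ofNat 2⟩ ⟨.ofNat 4632, .negSucc 1431, .negSucc 4679, .ofNat 1480⟩, .q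
  ⟨.ofNat 0, .negSucc 0, .negSucc 0, .ofNat 2⟩ ⟨.negSucc 5552, .ofNat 3676,
  .ofNat 2597, .negSucc 719⟩],
[.q ⟨.negSucc 234, .negSucc 244, .ofNat 480, .ofNat 0⟩ ⟨.negSucc 724, .ofNat
  245, .ofNat 480, .ofNat 0⟩, .q ⟨.ofNat 227, .ofNat 253, .negSucc 479,
  .ofNat 0⟩ ⟨.negSucc 732, .ofNat 253, .ofNat 480, .ofNat 0⟩, .q ⟨.ofNat
  725, .negSucc 244, .negSucc 479, .ofNat 0⟩ ⟨.ofNat 7097, .negSucc 5096,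
  .ofNat 0, .negSucc 1999⟩, .q ⟨.ofNat 733, .negSucc 252, .negSucc 479,
  .ofNat 0⟩ ⟨.ofNat 7097, .negSucc 5096, .ofNat 0, .negSucc 1999⟩, .q
  ⟨.ofNat 725, .negSucc 244, .negSucc 479, .ofNat 0⟩ ⟨.negSucc 1157,
  .negSucc 796, .negSucc 1676, .ofNat 3632⟩, .q ⟨.ofNat 733, .negSucc 252,
  .negSucc 479, .ofNat 0⟩ ⟨.negSucc 1157, .negSucc 796, .negSucc 1676,
  .ofNat 3632⟩, .q ⟨.ofNat 725, .negSucc 244, .negSucc 479, .ofNat 0⟩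
  ⟨.ofNat 2875, .ofNat 2641, .negSucc 3385, .negSucc 2129⟩, .q ⟨.ofNat 733,
  .negSucc 252, .negSucc 479, .ofNat 0⟩ ⟨.ofNat 2875, .ofNat 2641, .negSucc
  3385, .negSucc 2129⟩],
[.q ⟨.negSucc 247, .negSucc 231, .ofNat 480, .ofNat 0⟩ ⟨.negSucc 711, .ofNat
  232, .ofNat 480, .ofNat 0⟩, .q ⟨.ofNat 241, .ofNat 239, .negSucc 479,
  .ofNat 0⟩ ⟨.negSucc 718, .ofNat 239, .ofNat 480, .ofNat 0⟩, .q ⟨.ofNat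
  712, .negSucc 231, .negSucc 479, .ofNat 0⟩ ⟨.ofNat 11557, .negSucc 5982,
  .negSucc 2302, .negSucc 3270⟩, .q ⟨.ofNat 719, .negSucc 238, .negSucc 479,
  .ofNat 0⟩ ⟨.ofNat 11557, .negSucc 5982, .negSucc 2302, .negSucc 3270⟩, .q
  ⟨.ofNat 712, .negSucc 231, .negSucc 479, .ofNat 0⟩ ⟨.ofNat 6557, .negSucc
  12130, .ofNat 2303, .ofNat 3271⟩, .q ⟨.ofNat 719, .negSucc 238, .negSucc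
  479, .ofNat 0⟩ ⟨.ofNat 6557, .negSucc 12130, .ofNat 2303, .ofNat 3271⟩, .q
  ⟨.ofNat 712, .negSucc 231, .negSucc 479, .ofNat 0⟩ ⟨.ofNat 2685, .ofNat
  2701, .negSucc 3556, .negSucc 1828⟩, .q ⟨.ofNat 719, .negSucc 238,
  .negSucc 479, .ofNat 0⟩ ⟨.ofNat 2685, .ofNat 2701, .negSucc 3556, .negSucc
  1828⟩, .q ⟨.ofNat 712, .negSucc 231, .negSucc 479, .ofNat 0⟩ ⟨.negSucc
  2356, .negSucc 2766, .ofNat 1363, .ofNat 3761⟩, .q ⟨.ofNat 719, .negSucc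
  238, .negSucc 479, .ofNat 0⟩ ⟨.negSucc 2356, .negSucc 2766, .ofNat 1363,
  .ofNat 3761⟩],
[.q ⟨.ofNat 17, .negSucc 18, .negSucc 27, .ofNat 30⟩ ⟨.negSucc 3925, .ofNat
  7, .ofNat 1879, .ofNat 2040⟩, .q ⟨.ofNat 17, .negSucc 18, .negSucc 27,
  .ofNat 30⟩ ⟨.ofNat 2484, .negSucc 4220, .ofNat 807, .ofNat 930⟩, .q
  ⟨.ofNat 17, .negSucc 18, .negSucc 27, .ofNat 30⟩ ⟨.ofNat 4721, .negSucc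
  1490, .negSucc 1639, .negSucc 1589⟩, .q ⟨.ofNat 17, .negSucc 18, .negSucc
  27, .ofNat 30⟩ ⟨.ofNat 2311, .ofNat 1793, .negSucc 2063, .negSucc 2039⟩],
[.q ⟨.negSucc 10, .negSucc 8, .ofNat 20, .ofNat 0⟩ ⟨.negSucc 28, .ofNat 9,
  .ofNat 20, .ofNat 0⟩, .q ⟨.ofNat 7, .ofNat 13, .negSucc 19, .ofNat 0⟩
  ⟨.negSucc 32, .ofNat 13, .ofNat 20, .ofNat 0⟩, .q ⟨.ofNat 29, .negSucc 8,
  .negSucc 19, .ofNat 0⟩ ⟨.ofNat 1907, .negSucc 202, .ofNat 1845, .negSucc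
  3548⟩, .q ⟨.ofNat 33, .negSucc 12, .negSucc 19, .ofNat 0⟩ ⟨.ofNat 1907,
  .negSucc 202, .ofNat 1845, .negSucc 3548⟩, .q ⟨.ofNat 29, .negSucc 8,
  .negSucc 19, .ofNat 0⟩ ⟨.negSucc 484, .negSucc 122, .negSucc 2507, .ofNat
  3116⟩, .q ⟨.ofNat 33, .negSucc 12, .negSucc 19, .ofNat 0⟩ ⟨.negSucc 484,
  .negSucc 122, .negSucc 2507, .ofNat 3116⟩, .q ⟨.ofNat 29, .negSucc 8,
  .negSucc 19, .ofNat 0⟩ ⟨.ofNat 1290, .ofNat 1378, .negSucc 1802, .negSucc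
  864⟩, .q ⟨.ofNat 33, .negSucc 12, .negSucc 19, .ofNat 0⟩ ⟨.ofNat 1290,
  .ofNat 1378, .negSucc 1802, .negSucc 864⟩, .q ⟨.ofNat 29, .negSucc 8,
  .negSucc 19, .ofNat 0⟩ ⟨.ofNat 694, .ofNat 1076, .negSucc 3570, .ofNat
  1801⟩, .q ⟨.ofNat 33, .negSucc 12, .negSucc 19, .ofNat 0⟩ ⟨.ofNat 694,
  .ofNat 1076, .negSucc 3570, .ofNat 1801⟩],
[.q ⟨.negSucc 39, .negSucc 39, .ofNat 80, .ofNat 0⟩ ⟨.negSucc 119, .ofNat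
  40, .ofNat 80, .ofNat 0⟩, .q ⟨.ofNat 37, .ofNat 43, .negSucc 79, .ofNat 0⟩
  ⟨.negSucc 122, .ofNat 43, .ofNat 80, .ofNat 0⟩, .q ⟨.ofNat 120, .negSucc
  39, .negSucc 79, .ofNat 0⟩ ⟨.ofNat 1077, .ofNat 392, .ofNat 1997, .negSucc
  3465⟩, .q ⟨.ofNat 123, .negSucc 42, .negSucc 79, .ofNat 0⟩ ⟨.ofNat 1077,
  .ofNat 392, .ofNat 1997, .negSucc 3465⟩, .q ⟨.ofNat 120, .negSucc 39,
  .negSucc 79, .ofNat 0⟩ ⟨.negSucc 1356, .negSucc 995, .negSucc 1395, .ofNat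
  3749⟩, .q ⟨.ofNat 123, .negSucc 42, .negSucc 79, .ofNat 0⟩ ⟨.negSucc 1356,
  .negSucc 995, .negSucc 1395, .ofNat 3749⟩, .q ⟨.ofNat 120, .negSucc 39,
  .negSucc 79, .ofNat 0⟩ ⟨.negSucc 151, .ofNat 167, .negSucc 2835, .ofNat
  2821⟩, .q ⟨.ofNat 123, .negSucc 42, .negSucc 79, .ofNat 0⟩ ⟨.negSucc 151,
  .ofNat 167, .negSucc 2835, .ofNat 2821⟩],
[.q ⟨.negSucc 38, .negSucc 40, .ofNat 80, .ofNat 0⟩ ⟨.negSucc 120, .ofNat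
  41, .ofNat 80, .ofNat 0⟩, .q ⟨.ofNat 36, .ofNat 44, .negSucc 79, .ofNat 0⟩
  ⟨.negSucc 123, .ofNat 44, .ofNat 80, .ofNat 0⟩, .q ⟨.ofNat 121, .negSucc
  40, .negSucc 79, .ofNat 0⟩ ⟨.ofNat 2156, .ofNat 1354, .ofNat 463, .negSucc
  3972⟩, .q ⟨.ofNat 124, .negSucc 43, .negSucc 79, .ofNat 0⟩ ⟨.ofNat 2156,
  .ofNat 1354, .ofNat 463, .negSucc 3972⟩, .q ⟨.ofNat 121, .negSucc 40,
  .negSucc 79, .ofNat 0⟩ ⟨.negSucc 1032, .negSucc 670, .negSucc 1844, .ofNat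
  3549⟩, .q ⟨.ofNat 124, .negSucc 43, .negSucc 79, .ofNat 0⟩ ⟨.negSucc 1032,
  .negSucc 670, .negSucc 1844, .ofNat 3549⟩, .q ⟨.ofNat 121, .negSucc 40,
  .negSucc 79, .ofNat 0⟩ ⟨.negSucc 1257, .negSucc 903, .negSucc 1532, .ofNat
  3695⟩, .q ⟨.ofNat 124, .negSucc 43, .negSucc 79, .ofNat 0⟩ ⟨.negSucc 1257,
  .negSucc 903, .negSucc 1532, .ofNat 3695⟩],
[.q ⟨.ofNat 17, .negSucc 18, .negSucc 27, .ofNat 30⟩ ⟨.ofNat 1251, .negSucc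
  3915, .ofNat 1315, .ofNat 1350⟩, .q ⟨.ofNat 17, .negSucc 18, .negSucc 27,
  .ofNat 30⟩ ⟨.ofNat 3215, .ofNat 902, .negSucc 2076, .negSucc 2039⟩, .q
  ⟨.ofNat 17, .negSucc 18, .negSucc 27, .ofNat 30⟩ ⟨.ofNat 1015, .ofNat
  2776, .negSucc 1930, .negSucc 1859⟩, .q ⟨.ofNat 17, .negSucc 18, .negSucc
  27, .ofNat 30⟩ ⟨.negSucc 4155, .ofNat 379, .ofNat 1767, .ofNat 2010⟩],
[.q ⟨.ofNat 17, .negSucc 18, .negSucc 27, .ofNat 30⟩ ⟨.ofNat 577, .ofNat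
  3047, .negSucc 1853, .negSucc 1769⟩, .q ⟨.ofNat 17, .negSucc 18, .negSucc
  27, .ofNat 30⟩ ⟨.negSucc 3026, .negSucc 1107, .ofNat 2005, .ofNat 2130⟩,
  .q ⟨.ofNat 17, .negSucc 18, .negSucc 27, .ofNat 30⟩ ⟨.ofNat 2054, .negSucc
  4164, .ofNat 971, .ofNat 1140⟩, .q ⟨.ofNat 17, .negSucc 18, .negSucc 27,
  .ofNat 30⟩ ⟨.ofNat 4869, .negSucc 2077, .negSucc 1410, .negSucc 1379⟩],
[.q ⟨.ofNat 11, .negSucc 12, .negSucc 17, .ofNat 20⟩ ⟨.ofNat 4701, .negSucc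
  1473, .negSucc 1526, .negSucc 1699⟩, .q ⟨.ofNat 11, .negSucc 12, .negSucc
  17, .ofNat 20⟩ ⟨.negSucc 3980, .ofNat 3802, .negSucc 120, .ofNat 300⟩, .q
  ⟨.ofNat 11, .negSucc 12, .negSucc 17, .ofNat 20⟩ ⟨.negSucc 171, .negSucc
  91, .ofNat 124, .ofNat 140⟩, .q ⟨.ofNat 11, .negSucc 12, .negSucc 17,
  .ofNat 20⟩ ⟨.ofNat 4197, .negSucc 3772, .negSucc 103, .negSucc 319⟩],
[.q ⟨.negSucc 226, .negSucc 252, .ofNat 480, .ofNat 0⟩ ⟨.negSucc 732, .ofNat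
  253, .ofNat 480, .ofNat 0⟩, .q ⟨.ofNat 220, .ofNat 260, .negSucc 479,
  .ofNat 0⟩ ⟨.negSucc 739, .ofNat 260, .ofNat 480, .ofNat 0⟩, .q ⟨.ofNat
  733, .negSucc 252, .negSucc 479, .ofNat 0⟩ ⟨.ofNat 873, .ofNat 460, .ofNat
  581, .negSucc 1913⟩, .q ⟨.ofNat 740, .negSucc 259, .negSucc 479, .ofNat 0⟩
  ⟨.ofNat 873, .ofNat 460, .ofNat 581, .negSucc 1913⟩, .q ⟨.ofNat 733,
  .negSucc 252, .negSucc 479, .ofNat 0⟩ ⟨.negSucc 1504, .negSucc 1160,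
  .negSucc 1161, .ofNat 3828⟩, .q ⟨.ofNat 740, .negSucc 259, .negSucc 479,
  .ofNat 0⟩ ⟨.negSucc 1504, .negSucc 1160, .negSucc 1161, .ofNat 3828⟩],
[.q ⟨.negSucc 39, .negSucc 39, .ofNat 80, .ofNat 0⟩ ⟨.negSucc 119, .ofNat
  40, .ofNat 80, .ofNat 0⟩, .q ⟨.ofNat 37, .ofNat 43, .negSucc 79, .ofNat 0⟩
  ⟨.negSucc 122, .ofNat 43, .ofNat 80, .ofNat 0⟩, .q ⟨.ofNat 120, .negSucc
  39, .negSucc 79, .ofNat 0⟩ ⟨.ofNat 543, .negSucc 58, .ofNat 2576, .negSucc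
  3059⟩, .q ⟨.ofNat 123, .negSucc 42, .negSucc 79, .ofNat 0⟩ ⟨.ofNat 543,
  .negSucc 58, .ofNat 2576, .negSucc 3059⟩, .q ⟨.ofNat 120, .negSucc 39,
  .negSucc 79, .ofNat 0⟩ ⟨.negSucc 103, .negSucc 16, .negSucc 643, .ofNat
  765⟩, .q ⟨.ofNat 123, .negSucc 42, .negSucc 79, .ofNat 0⟩ ⟨.negSucc 103,
  .negSucc 16, .negSucc 643, .ofNat 765⟩, .q ⟨.ofNat 120, .negSucc 39,
  .negSucc 79, .ofNat 0⟩ ⟨.negSucc 1229, .negSucc 871, .negSucc 1574, .ofNat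
  3677⟩, .q ⟨.ofNat 123, .negSucc 42, .negSucc 79, .ofNat 0⟩ ⟨.negSucc 1229,
  .negSucc 871, .negSucc 1574, .ofNat 3677⟩],
[.q ⟨.negSucc 38, .negSucc 40, .ofNat 80, .ofNat 0⟩ ⟨.negSucc 120, .ofNat
  41, .ofNat 80, .ofNat 0⟩, .q ⟨.ofNat 36, .ofNat 44, .negSucc 79, .ofNat 0⟩
  ⟨.negSucc 123, .ofNat 44, .ofNat 80, .ofNat 0⟩, .q ⟨.ofNat 121, .negSucc
  40, .negSucc 79, .ofNat 0⟩ ⟨.ofNat 10889, .negSucc 8891, .ofNat 1648,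
  .negSucc 3644⟩, .q ⟨.ofNat 124, .negSucc 43, .negSucc 79, .ofNat 0⟩
  ⟨.ofNat 10889, .negSucc 8891, .ofNat 1648, .negSucc 3644⟩, .q ⟨.ofNat 121,
  .negSucc 40, .negSucc 79, .ofNat 0⟩ ⟨.negSucc 1177, .negSucc 818, .negSucc
  1647, .ofNat 3645⟩, .q ⟨.ofNat 124, .negSucc 43, .negSucc 79, .ofNat 0⟩
  ⟨.negSucc 1177, .negSucc 818, .negSucc 1647, .ofNat 3645⟩, .q ⟨.ofNat 121,
  .negSucc 40, .negSucc 79, .ofNat 0⟩ ⟨.ofNat 515, .negSucc 141, .ofNat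
  2636, .negSucc 3008⟩, .q ⟨.ofNat 124, .negSucc 43, .negSucc 79, .ofNat 0⟩
  ⟨.ofNat 515, .negSucc 141, .ofNat 2636, .negSucc 3008⟩, .q ⟨.ofNat 121,
  .negSucc 40, .negSucc 79, .ofNat 0⟩ ⟨.negSucc 568, .negSucc 217, .negSucc
  2406, .ofNat 3194⟩, .q ⟨.ofNat 124, .negSucc 43, .negSucc 79, .ofNat 0⟩
  ⟨.negSucc 568, .negSucc 217, .negSucc 2406, .ofNat 3194⟩],
[.q ⟨.negSucc 224, .negSucc 254, .ofNat 480, .ofNat 0⟩ ⟨.negSucc 734, .ofNat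
  255, .ofNat 480, .ofNat 0⟩, .q ⟨.ofNat 217, .ofNat 263, .negSucc 479,
  .ofNat 0⟩ ⟨.negSucc 742, .ofNat 263, .ofNat 480, .ofNat 0⟩, .q ⟨.ofNat
  735, .negSucc 254, .negSucc 479, .ofNat 0⟩ ⟨.ofNat 10236, .negSucc 8316,
  .ofNat 1701, .negSucc 3619⟩, .q ⟨.ofNat 743, .negSucc 262, .negSucc 479,
  .ofNat 0⟩ ⟨.ofNat 10236, .negSucc 8316, .ofNat 1701, .negSucc 3619⟩, .q
  ⟨.ofNat 735, .negSucc 254, .negSucc 479, .ofNat 0⟩ ⟨.negSucc 496, .negSucc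
  312, .negSucc 949, .ofNat 1760⟩, .q ⟨.ofNat 743, .negSucc 262, .negSucc
  479, .ofNat 0⟩ ⟨.negSucc 496, .negSucc 312, .negSucc 949, .ofNat 1760⟩, .q
  ⟨.ofNat 735, .negSucc 254, .negSucc 479, .ofNat 0⟩ ⟨.ofNat 1733, .ofNat
  901, .ofNat 1186, .negSucc 3819⟩, .q ⟨.ofNat 743, .negSucc 262, .negSucc
  479, .ofNat 0⟩ ⟨.ofNat 1733, .ofNat 901, .ofNat 1186, .negSucc 3819⟩],
[.q ⟨.negSucc 454, .negSucc 504, .ofNat 960, .ofNat 0⟩ ⟨.negSucc 1464,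
  .ofNat 505, .ofNat 960, .ofNat 0⟩, .q ⟨.ofNat 443, .ofNat 517, .negSucc
  959, .ofNat 0⟩ ⟨.negSucc 1476, .ofNat 517, .ofNat 960, .ofNat 0⟩, .q
  ⟨.ofNat 1465, .negSucc 504, .negSucc 959, .ofNat 0⟩ ⟨.ofNat 769, .ofNat
  12, .ofNat 2411, .negSucc 3191⟩, .q ⟨.ofNat 1477, .negSucc 516, .negSucc
  959, .ofNat 0⟩ ⟨.ofNat 769, .ofNat 12, .ofNat 2411, .negSucc 3191⟩, .q
  ⟨.ofNat 1465, .negSucc 504, .negSucc 959, .ofNat 0⟩ ⟨.negSucc 574,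
  .negSucc 205, .negSucc 2410, .ofNat 3192⟩, .q ⟨.ofNat 1477, .negSucc 516,
  .negSucc 959, .ofNat 0⟩ ⟨.negSucc 574, .negSucc 205, .negSucc 2410, .ofNat
  3192⟩, .q ⟨.ofNat 1465, .negSucc 504, .negSucc 959, .ofNat 0⟩ ⟨.negSucc
  1452, .negSucc 1108, .negSucc 1240, .ofNat 3803⟩, .q ⟨.ofNat 1477,
  .negSucc 516, .negSucc 959, .ofNat 0⟩ ⟨.negSucc 1452, .negSucc 1108,
  .negSucc 1240, .ofNat 3803⟩],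
[.q ⟨.ofNat 11, .negSucc 12, .negSucc 17, .ofNat 20⟩ ⟨.ofNat 4756, .negSucc
  2636, .negSucc 838, .negSucc 1279⟩, .q ⟨.ofNat 11, .negSucc 12, .negSucc
  17, .ofNat 20⟩ ⟨.negSucc 970, .ofNat 948, .negSucc 56, .ofNat 80⟩, .q
  ⟨.ofNat 11, .negSucc 12, .negSucc 17, .ofNat 20⟩ ⟨.negSucc 4184, .ofNat
  363, .ofNat 1742, .ofNat 2080⟩],
[.q ⟨.negSucc 25, .negSucc 20, .ofNat 15, .ofNat 32⟩ ⟨.negSucc 4483, .ofNat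
  15668, .negSucc 8751, .negSucc 2431⟩, .q ⟨.negSucc 25, .negSucc 20, .ofNat
  15, .ofNat 32⟩ ⟨.negSucc 5799, .negSucc 187, .ofNat 12388, .negSucc 6399⟩,
  .q ⟨.negSucc 25, .negSucc 20, .ofNat 15, .ofNat 32⟩ ⟨.ofNat 11856,
  .negSucc 18975, .negSucc 4015, .ofNat 11136⟩, .q ⟨.negSucc 25, .negSucc
  20, .ofNat 15, .ofNat 32⟩ ⟨.ofNat 5526, .ofNat 441, .negSucc 12334, .ofNat
  6368⟩],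
[.q ⟨.negSucc 460, .negSucc 498, .ofNat 960, .ofNat 0⟩ ⟨.negSucc 1458,
  .ofNat 499, .ofNat 960, .ofNat 0⟩, .q ⟨.ofNat 450, .ofNat 510, .negSucc
  959, .ofNat 0⟩ ⟨.negSucc 1469, .ofNat 510, .ofNat 960, .ofNat 0⟩, .q
  ⟨.ofNat 1459, .negSucc 498, .negSucc 959, .ofNat 0⟩ ⟨.ofNat 483, .ofNat
  219, .ofNat 524, .negSucc 1225⟩, .q ⟨.ofNat 1470, .negSucc 509, .negSucc
  959, .ofNat 0⟩ ⟨.ofNat 483, .ofNat 219, .ofNat 524, .negSucc 1225⟩, .q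
  ⟨.ofNat 1459, .negSucc 498, .negSucc 959, .ofNat 0⟩ ⟨.negSucc 615,
  .negSucc 436, .negSucc 785, .ofNat 1839⟩, .q ⟨.ofNat 1470, .negSucc 509,
  .negSucc 959, .ofNat 0⟩ ⟨.negSucc 615, .negSucc 436, .negSucc 785, .ofNat
  1839⟩],
[.q ⟨.negSucc 19, .negSucc 19, .ofNat 40, .ofNat 0⟩ ⟨.negSucc 59, .ofNat 20,
  .ofNat 40, .ofNat 0⟩, .q ⟨.ofNat 17, .ofNat 23, .negSucc 39, .ofNat 0⟩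
  ⟨.negSucc 62, .ofNat 23, .ofNat 40, .ofNat 0⟩, .q ⟨.ofNat 60, .negSucc 19,
  .negSucc 39, .ofNat 0⟩ ⟨.ofNat 1256, .negSucc 541, .ofNat 2449, .negSucc
  3162⟩, .q ⟨.ofNat 63, .negSucc 22, .negSucc 39, .ofNat 0⟩ ⟨.ofNat 1256,
  .negSucc 541, .ofNat 2449, .negSucc 3162⟩, .q ⟨.ofNat 60, .negSucc 19,
  .negSucc 39, .ofNat 0⟩ ⟨.negSucc 515, .negSucc 197, .negSucc 2448, .ofNat
  3163⟩, .q ⟨.ofNat 63, .negSucc 22, .negSucc 39, .ofNat 0⟩ ⟨.negSucc 515,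
  .negSucc 197, .negSucc 2448, .ofNat 3163⟩, .q ⟨.ofNat 60, .negSucc 19,
  .negSucc 39, .ofNat 0⟩ ⟨.negSucc 1280, .negSucc 912, .negSucc 1509, .ofNat
  3704⟩, .q ⟨.ofNat 63, .negSucc 22, .negSucc 39, .ofNat 0⟩ ⟨.negSucc 1280,
  .negSucc 912, .negSucc 1509, .ofNat 3704⟩],
[.q ⟨.ofNat 17, .negSucc 18, .negSucc 27, .ofNat 30⟩ ⟨.ofNat 2193, .negSucc
  4124, .ofNat 1002, .ofNat 930⟩, .q ⟨.ofNat 17, .negSucc 18, .negSucc 27,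
  .ofNat 30⟩ ⟨.ofNat 3064, .ofNat 1066, .negSucc 2059, .negSucc 2069⟩, .q
  ⟨.ofNat 17, .negSucc 18, .negSucc 27, .ofNat 30⟩ ⟨.negSucc 2174, .ofNat
  1819, .ofNat 116, .ofNat 240⟩],
[.q ⟨.negSucc 56, .negSucc 62, .ofNat 120, .ofNat 0⟩ ⟨.negSucc 182, .ofNat
  63, .ofNat 120, .ofNat 0⟩, .q ⟨.ofNat 55, .ofNat 65, .negSucc 119, .ofNat
  0⟩ ⟨.negSucc 184, .ofNat 65, .ofNat 120, .ofNat 0⟩, .q ⟨.ofNat 183,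
  .negSucc 62, .negSucc 119, .ofNat 0⟩ ⟨.ofNat 14844, .negSucc 9192,
  .negSucc 2695, .negSucc 2954⟩, .q ⟨.ofNat 185, .negSucc 64, .negSucc 119,
  .ofNat 0⟩ ⟨.ofNat 14844, .negSucc 9192, .negSucc 2695, .negSucc 2954⟩, .q
  ⟨.ofNat 183, .negSucc 62, .negSucc 119, .ofNat 0⟩ ⟨.negSucc 633, .negSucc
  257, .negSucc 2346, .ofNat 3239⟩, .q ⟨.ofNat 185, .negSucc 64, .negSucc
  119, .ofNat 0⟩ ⟨.negSucc 633, .negSucc 257, .negSucc 2346, .ofNat 3239⟩,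
  .q ⟨.ofNat 183, .negSucc 62, .negSucc 119, .ofNat 0⟩ ⟨.ofNat 2824, .ofNat
  2157, .negSucc 1149, .negSucc 3830⟩, .q ⟨.ofNat 185, .negSucc 64, .negSucc
  119, .ofNat 0⟩ ⟨.ofNat 2824, .ofNat 2157, .negSucc 1149, .negSucc 3830⟩,
  .q ⟨.ofNat 183, .negSucc 62, .negSucc 119, .ofNat 0⟩ ⟨.negSucc 2023,
  .negSucc 1738, .negSucc 229, .ofNat 3993⟩, .q ⟨.ofNat 185, .negSucc 64,
  .negSucc 119, .ofNat 0⟩ ⟨.negSucc 2023, .negSucc 1738, .negSucc 229,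
  .ofNat 3993⟩],
[.q ⟨.ofNat 11, .negSucc 12, .negSucc 17, .ofNat 20⟩ ⟨.ofNat 4504, .negSucc
  951, .negSucc 1691, .negSucc 1859⟩, .q ⟨.ofNat 11, .negSucc 12, .negSucc
  17, .ofNat 20⟩ ⟨.negSucc 911, .ofNat 3739, .negSucc 1606, .negSucc 1219⟩,
  .q ⟨.ofNat 11, .negSucc 12, .negSucc 17, .ofNat 20⟩ ⟨.negSucc 4193, .ofNat
  3585, .ofNat 29, .ofNat 580⟩, .q ⟨.ofNat 11, .negSucc 12, .negSucc 17,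
  .ofNat 20⟩ ⟨.negSucc 1615, .negSucc 2422, .ofNat 2039, .ofNat 2000⟩],
[.q ⟨.negSucc 450, .negSucc 508, .ofNat 960, .ofNat 0⟩ ⟨.negSucc 1468,
  .ofNat 509, .ofNat 960, .ofNat 0⟩, .q ⟨.ofNat 442, .ofNat 518, .negSucc
  959, .ofNat 0⟩ ⟨.negSucc 1477, .ofNat 518, .ofNat 960, .ofNat 0⟩, .q
  ⟨.ofNat 1469, .negSucc 508, .negSucc 959, .ofNat 0⟩ ⟨.ofNat 2399, .ofNat
  1601, .ofNat 0, .negSucc 3999⟩, .q ⟨.ofNat 1478, .negSucc 517, .negSucc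
  959, .ofNat 0⟩ ⟨.ofNat 2399, .ofNat 1601, .ofNat 0, .negSucc 3999⟩, .q
  ⟨.ofNat 1469, .negSucc 508, .negSucc 959, .ofNat 0⟩ ⟨.negSucc 426,
  .negSucc 372, .ofNat 0, .ofNat 800⟩, .q ⟨.ofNat 1478, .negSucc 517,
  .negSucc 959, .ofNat 0⟩ ⟨.negSucc 426, .negSucc 372, .ofNat 0, .ofNat
  800⟩, .q ⟨.ofNat 1469, .negSucc 508, .negSucc 959, .ofNat 0⟩ ⟨.negSucc
  579, .negSucc 202, .negSucc 2409, .ofNat 3193⟩, .q ⟨.ofNat 1478, .negSucc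
  517, .negSucc 959, .ofNat 0⟩ ⟨.negSucc 579, .negSucc 202, .negSucc 2409,
  .ofNat 3193⟩],
[.q ⟨.negSucc 0, .negSucc 78, .ofNat 80, .ofNat 0⟩ ⟨.negSucc 158, .ofNat 79,
  .ofNat 80, .ofNat 0⟩, .q ⟨.negSucc 1, .ofNat 82, .negSucc 79, .ofNat 0⟩
  ⟨.negSucc 161, .ofNat 82, .ofNat 80, .ofNat 0⟩, .q ⟨.ofNat 159, .negSucc
  78, .negSucc 79, .ofNat 0⟩ ⟨.ofNat 3269, .ofNat 1603, .negSucc 998,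
  .negSucc 3872⟩, .q ⟨.ofNat 162, .negSucc 81, .negSucc 79, .ofNat 0⟩
  ⟨.ofNat 3269, .ofNat 1603, .negSucc 998, .negSucc 3872⟩, .q ⟨.ofNat 159,
  .negSucc 78, .negSucc 79, .ofNat 0⟩ ⟨.ofNat 749, .negSucc 3148, .negSucc
  1360, .ofNat 3761⟩, .q ⟨.ofNat 162, .negSucc 81, .negSucc 79, .ofNat 0⟩
  ⟨.ofNat 749, .negSucc 3148, .negSucc 1360, .ofNat 3761⟩, .q ⟨.ofNat 159,
  .negSucc 78, .negSucc 79, .ofNat 0⟩ ⟨.ofNat 3151, .negSucc 849, .ofNat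
  1433, .negSucc 3733⟩, .q ⟨.ofNat 162, .negSucc 81, .negSucc 79, .ofNat 0⟩
  ⟨.ofNat 3151, .negSucc 849, .ofNat 1433, .negSucc 3733⟩],
[.q ⟨.negSucc 122, .negSucc 116, .ofNat 240, .ofNat 0⟩ ⟨.negSucc 356, .ofNat
  117, .ofNat 240, .ofNat 0⟩, .q ⟨.ofNat 119, .ofNat 121, .negSucc 239,
  .ofNat 0⟩ ⟨.negSucc 360, .ofNat 121, .ofNat 240, .ofNat 0⟩, .q ⟨.ofNat
  357, .negSucc 116, .negSucc 239, .ofNat 0⟩ ⟨.ofNat 741, .ofNat 3649,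
  .negSucc 410, .negSucc 3978⟩, .q ⟨.ofNat 361, .negSucc 120, .negSucc 239,
  .ofNat 0⟩ ⟨.ofNat 741, .ofNat 3649, .negSucc 410, .negSucc 3978⟩, .q
  ⟨.ofNat 357, .negSucc 116, .negSucc 239, .ofNat 0⟩ ⟨.ofNat 1087, .negSucc
  2443, .negSucc 2066, .ofNat 3424⟩, .q ⟨.ofNat 361, .negSucc 120, .negSucc
  239, .ofNat 0⟩ ⟨.ofNat 1087, .negSucc 2443, .negSucc 2066, .ofNat 3424⟩],
[.q ⟨.negSucc 442, .negSucc 516, .ofNat 960, .ofNat 0⟩ ⟨.negSucc 1476,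
  .ofNat 517, .ofNat 960, .ofNat 0⟩, .q ⟨.ofNat 433, .ofNat 527, .negSucc
  959, .ofNat 0⟩ ⟨.negSucc 1486, .ofNat 527, .ofNat 960, .ofNat 0⟩, .q
  ⟨.ofNat 1477, .negSucc 516, .negSucc 959, .ofNat 0⟩ ⟨.ofNat 1757, .negSucc
  1558, .ofNat 458, .negSucc 655⟩, .q ⟨.ofNat 1487, .negSucc 526, .negSucc
  959, .ofNat 0⟩ ⟨.ofNat 1757, .negSucc 1558, .ofNat 458, .negSucc 655⟩, .q
  ⟨.ofNat 1477, .negSucc 516, .negSucc 959, .ofNat 0⟩ ⟨.negSucc 335,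
  .negSucc 158, .negSucc 1144, .ofNat 1640⟩, .q ⟨.ofNat 1487, .negSucc 526,
  .negSucc 959, .ofNat 0⟩ ⟨.negSucc 335, .negSucc 158, .negSucc 1144, .ofNat
  1640⟩, .q ⟨.ofNat 1477, .negSucc 516, .negSucc 959, .ofNat 0⟩ ⟨.ofNat
  2501, .ofNat 2704, .negSucc 3709, .negSucc 1494⟩, .q ⟨.ofNat 1487,
  .negSucc 526, .negSucc 959, .ofNat 0⟩ ⟨.ofNat 2501, .ofNat 2704, .negSucc
  3709, .negSucc 1494⟩],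
[.l ⟨.ofNat 0, .ofNat 2828, .negSucc 2827, .ofNat 2179⟩ ⟨.ofNat 0, .ofNat 0,
  .ofNat 0, .ofNat 1⟩, .l ⟨.ofNat 0, .ofNat 0, .ofNat 100, .ofNat 13⟩
  ⟨.ofNat 0, .ofNat 0, .ofNat 0, .ofNat 1⟩, .l ⟨.ofNat 0, .negSucc 3991,
  .negSucc 260, .negSucc 1846⟩ ⟨.ofNat 0, .ofNat 0, .ofNat 0, .ofNat 1⟩, .l
  ⟨.ofNat 0, .ofNat 2370, .negSucc 3222, .ofNat 1758⟩ ⟨.ofNat 0, .ofNat 0,
  .ofNat 0, .ofNat 1⟩],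
[.q ⟨.negSucc 28, .negSucc 30, .ofNat 60, .ofNat 0⟩ ⟨.negSucc 90, .ofNat 31,
  .ofNat 60, .ofNat 0⟩, .q ⟨.ofNat 28, .ofNat 32, .negSucc 59, .ofNat 0⟩
  ⟨.negSucc 91, .ofNat 32, .ofNat 60, .ofNat 0⟩, .q ⟨.ofNat 91, .negSucc 30,
  .negSucc 59, .ofNat 0⟩ ⟨.ofNat 477, .ofNat 3205, .ofNat 306, .negSucc
  3987⟩, .q ⟨.ofNat 92, .negSucc 31, .negSucc 59, .ofNat 0⟩ ⟨.ofNat 477,
  .ofNat 3205, .ofNat 306, .negSucc 3987⟩, .q ⟨.ofNat 91, .negSucc 30,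
  .negSucc 59, .ofNat 0⟩ ⟨.negSucc 582, .negSucc 4555, .ofNat 1387, .ofNat
  3752⟩, .q ⟨.ofNat 92, .negSucc 31, .negSucc 59, .ofNat 0⟩ ⟨.negSucc 582,
  .negSucc 4555, .ofNat 1387, .ofNat 3752⟩],
[.l ⟨.ofNat 0, .ofNat 240, .ofNat 0, .negSucc 210⟩ ⟨.ofNat 0, .ofNat 240,
  .ofNat 0, .ofNat 211⟩, .l ⟨.ofNat 0, .negSucc 239, .ofNat 0, .ofNat 216⟩
  ⟨.ofNat 0, .ofNat 240, .ofNat 0, .ofNat 216⟩, .l ⟨.ofNat 0, .ofNat 240,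
  .ofNat 0, .negSucc 210⟩ ⟨.ofNat 0, .ofNat 2303, .ofNat 3270, .ofNat 3730⟩,
  .l ⟨.ofNat 0, .ofNat 240, .ofNat 0, .negSucc 215⟩ ⟨.ofNat 0, .ofNat 2303,
  .ofNat 3270, .ofNat 3730⟩, .l ⟨.ofNat 0, .ofNat 240, .ofNat 0, .negSucc
  210⟩ ⟨.ofNat 0, .negSucc 666, .negSucc 3943, .negSucc 3883⟩, .l ⟨.ofNat 0,
  .ofNat 240, .ofNat 0, .negSucc 215⟩ ⟨.ofNat 0, .negSucc 666, .negSucc
  3943, .negSucc 3883⟩],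
[.l ⟨.ofNat 0, .ofNat 960, .ofNat 0, .negSucc 684⟩ ⟨.ofNat 0, .ofNat 960,
  .ofNat 0, .ofNat 685⟩, .l ⟨.ofNat 0, .negSucc 959, .ofNat 0, .ofNat 696⟩
  ⟨.ofNat 0, .ofNat 960, .ofNat 0, .ofNat 696⟩, .l ⟨.ofNat 0, .ofNat 960,
  .ofNat 0, .negSucc 684⟩ ⟨.ofNat 0, .ofNat 2487, .ofNat 3133, .ofNat 4152⟩,
  .l ⟨.ofNat 0, .ofNat 960, .ofNat 0, .negSucc 695⟩ ⟨.ofNat 0, .ofNat 2487,
  .ofNat 3133, .ofNat 4152⟩, .l ⟨.ofNat 0, .ofNat 960, .ofNat 0, .negSucc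
  684⟩ ⟨.ofNat 0, .negSucc 1452, .negSucc 3726, .negSucc 4099⟩, .l ⟨.ofNat
  0, .ofNat 960, .ofNat 0, .negSucc 695⟩ ⟨.ofNat 0, .negSucc 1452, .negSucc
  3726, .negSucc 4099⟩],
[.q ⟨.negSucc 0, .ofNat 0, .ofNat 0, .ofNat 1⟩ ⟨.negSucc 2949, .ofNat 3429,
  .negSucc 2059, .ofNat 1581⟩, .q ⟨.negSucc 0, .ofNat 0, .ofNat 0, .ofNat 1⟩
  ⟨.negSucc 740, .ofNat 800, .ofNat 0, .negSucc 58⟩, .q ⟨.negSucc 0, .ofNat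
  0, .ofNat 0, .ofNat 1⟩ ⟨.ofNat 783, .negSucc 1331, .ofNat 3772, .negSucc
  3222⟩, .q ⟨.negSucc 0, .ofNat 0, .ofNat 0, .ofNat 1⟩ ⟨.ofNat 3531,
  .negSucc 3764, .negSucc 1351, .ofNat 1586⟩],
[.l ⟨.ofNat 0, .negSucc 1244, .ofNat 3801, .ofNat 407⟩ ⟨.ofNat 0, .ofNat 0,
  .ofNat 0, .ofNat 1⟩, .l ⟨.ofNat 0, .negSucc 3998, .negSucc 69, .ofNat 94⟩
  ⟨.ofNat 0, .ofNat 0, .ofNat 0, .ofNat 1⟩, .l ⟨.ofNat 0, .negSucc 1411,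
  .negSucc 3741, .negSucc 294⟩ ⟨.ofNat 0, .ofNat 0, .ofNat 0, .ofNat 1⟩, .l
  ⟨.ofNat 0, .ofNat 3926, .ofNat 766, .ofNat 179⟩ ⟨.ofNat 0, .ofNat 0,
  .ofNat 0, .ofNat 1⟩],
[.q ⟨.negSucc 3, .negSucc 315, .ofNat 320, .ofNat 0⟩ ⟨.negSucc 635, .ofNat
  316, .ofNat 320, .ofNat 0⟩, .q ⟨.ofNat 1, .ofNat 319, .negSucc 319, .ofNat
  0⟩ ⟨.negSucc 638, .ofNat 319, .ofNat 320, .ofNat 0⟩, .q ⟨.ofNat 636,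
  .negSucc 315, .negSucc 319, .ofNat 0⟩ ⟨.ofNat 6241, .negSucc 5050, .ofNat
  688, .negSucc 1877⟩, .q ⟨.ofNat 639, .negSucc 318, .negSucc 319, .ofNat 0⟩
  ⟨.ofNat 6241, .negSucc 5050, .ofNat 688, .negSucc 1877⟩, .q ⟨.ofNat 636,
  .negSucc 315, .negSucc 319, .ofNat 0⟩ ⟨.negSucc 1738, .ofNat 549, .negSucc
  687, .ofNat 1878⟩, .q ⟨.ofNat 639, .negSucc 318, .negSucc 319, .ofNat 0⟩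
  ⟨.negSucc 1738, .ofNat 549, .negSucc 687, .ofNat 1878⟩, .q ⟨.ofNat 636,
  .negSucc 315, .negSucc 319, .ofNat 0⟩ ⟨.ofNat 1267, .ofNat 1538, .negSucc
  1583, .negSucc 1220⟩, .q ⟨.ofNat 639, .negSucc 318, .negSucc 319, .ofNat
  0⟩ ⟨.ofNat 1267, .ofNat 1538, .negSucc 1583, .negSucc 1220⟩, .q ⟨.ofNat
  636, .negSucc 315, .negSucc 319, .ofNat 0⟩ ⟨.negSucc 3704, .negSucc 33,
  .negSucc 252, .ofNat 3992⟩, .q ⟨.ofNat 639, .negSucc 318, .negSucc 319,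
  .ofNat 0⟩ ⟨.negSucc 3704, .negSucc 33, .negSucc 252, .ofNat 3992⟩],
[.q ⟨.negSucc 2, .negSucc 316, .ofNat 320, .ofNat 0⟩ ⟨.negSucc 636, .ofNat
  317, .ofNat 320, .ofNat 0⟩, .q ⟨.ofNat 1, .ofNat 319, .negSucc 319, .ofNat
  0⟩ ⟨.negSucc 638, .ofNat 319, .ofNat 320, .ofNat 0⟩, .q ⟨.ofNat 637,
  .negSucc 316, .negSucc 319, .ofNat 0⟩ ⟨.ofNat 2069, .negSucc 68, .ofNat 0,
  .negSucc 1999⟩, .q ⟨.ofNat 639, .negSucc 318, .negSucc 319, .ofNat 0⟩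
  ⟨.ofNat 2069, .negSucc 68, .ofNat 0, .negSucc 1999⟩, .q ⟨.ofNat 637,
  .negSucc 316, .negSucc 319, .ofNat 0⟩ ⟨.negSucc 1188, .ofNat 269, .negSucc
  362, .ofNat 1283⟩, .q ⟨.ofNat 639, .negSucc 318, .negSucc 319, .ofNat 0⟩
  ⟨.negSucc 1188, .ofNat 269, .negSucc 362, .ofNat 1283⟩],
[.q ⟨.negSucc 8, .negSucc 950, .ofNat 960, .ofNat 0⟩ ⟨.negSucc 1910, .ofNat
  951, .ofNat 960, .ofNat 0⟩, .q ⟨.ofNat 2, .ofNat 958, .negSucc 959, .ofNat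
  0⟩ ⟨.negSucc 1917, .ofNat 958, .ofNat 960, .ofNat 0⟩, .q ⟨.ofNat 1911,
  .negSucc 950, .negSucc 959, .ofNat 0⟩ ⟨.ofNat 12378, .negSucc 12006,
  .ofNat 2637, .negSucc 3007⟩, .q ⟨.ofNat 1918, .negSucc 957, .negSucc 959,
  .ofNat 0⟩ ⟨.ofNat 12378, .negSucc 12006, .ofNat 2637, .negSucc 3007⟩, .q
  ⟨.ofNat 1911, .negSucc 950, .negSucc 959, .ofNat 0⟩ ⟨.negSucc 2777, .ofNat
  2407, .negSucc 2636, .ofNat 3008⟩, .q ⟨.ofNat 1918, .negSucc 957, .negSucc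
  959, .ofNat 0⟩ ⟨.negSucc 2777, .ofNat 2407, .negSucc 2636, .ofNat 3008⟩,
  .q ⟨.ofNat 1911, .negSucc 950, .negSucc 959, .ofNat 0⟩ ⟨.ofNat 2902,
  .ofNat 2755, .negSucc 2856, .negSucc 2799⟩, .q ⟨.ofNat 1918, .negSucc 957,
  .negSucc 959, .ofNat 0⟩ ⟨.ofNat 2902, .ofNat 2755, .negSucc 2856, .negSucc
  2799⟩, .q ⟨.ofNat 1911, .negSucc 950, .negSucc 959, .ofNat 0⟩ ⟨.negSucc
  3132, .negSucc 2391, .ofNat 2154, .ofNat 3371⟩, .q ⟨.ofNat 1918, .negSucc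
  957, .negSucc 959, .ofNat 0⟩ ⟨.negSucc 3132, .negSucc 2391, .ofNat 2154,
  .ofNat 3371⟩],
[.q ⟨.negSucc 0, .ofNat 0, .ofNat 0, .ofNat 1⟩ ⟨.negSucc 373, .ofNat 11,
  .ofNat 4000, .negSucc 3636⟩, .q ⟨.negSucc 0, .ofNat 0, .ofNat 0, .ofNat 1⟩
  ⟨.ofNat 3768, .negSucc 3983, .negSucc 354, .ofNat 571⟩, .q ⟨.negSucc 0,
  .ofNat 0, .ofNat 0, .ofNat 1⟩ ⟨.negSucc 19, .ofNat 367, .negSucc 3982,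
  .ofNat 3636⟩, .q ⟨.negSucc 0, .ofNat 0, .ofNat 0, .ofNat 1⟩ ⟨.negSucc
  14639, .ofNat 3056, .negSucc 2580, .ofNat 14165⟩],
[.q ⟨.negSucc 0, .ofNat 0, .ofNat 0, .ofNat 1⟩ ⟨.ofNat 2239, .negSucc 2667,
  .ofNat 2980, .negSucc 2550⟩, .q ⟨.negSucc 0, .ofNat 0, .ofNat 0, .ofNat 1⟩
  ⟨.ofNat 3579, .negSucc 3862, .negSucc 1036, .ofNat 1321⟩, .q ⟨.negSucc 0,
  .ofNat 0, .ofNat 0, .ofNat 1⟩ ⟨.negSucc 3243, .ofNat 3614, .negSucc 1714,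
  .ofNat 1345⟩],
[.q ⟨.negSucc 8, .negSucc 950, .ofNat 960, .ofNat 0⟩ ⟨.negSucc 1910, .ofNat
  951, .ofNat 960, .ofNat 0⟩, .q ⟨.ofNat 2, .ofNat 958, .negSucc 959, .ofNat
  0⟩ ⟨.negSucc 1917, .ofNat 958, .ofNat 960, .ofNat 0⟩, .q ⟨.ofNat 1911,
  .negSucc 950, .negSucc 959, .ofNat 0⟩ ⟨.ofNat 14517, .negSucc 13552,
  .ofNat 2305, .negSucc 3268⟩, .q ⟨.ofNat 1918, .negSucc 957, .negSucc 959,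
  .ofNat 0⟩ ⟨.ofNat 14517, .negSucc 13552, .ofNat 2305, .negSucc 3268⟩, .q
  ⟨.ofNat 1911, .negSucc 950, .negSucc 959, .ofNat 0⟩ ⟨.negSucc 3017, .ofNat
  2054, .negSucc 2304, .ofNat 3269⟩, .q ⟨.ofNat 1918, .negSucc 957, .negSucc
  959, .ofNat 0⟩ ⟨.negSucc 3017, .ofNat 2054, .negSucc 2304, .ofNat 3269⟩,
  .q ⟨.ofNat 1911, .negSucc 950, .negSucc 959, .ofNat 0⟩ ⟨.ofNat 4039,
  .negSucc 990, .ofNat 859, .negSucc 3906⟩, .q ⟨.ofNat 1918, .negSucc 957,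
  .negSucc 959, .ofNat 0⟩ ⟨.ofNat 4039, .negSucc 990, .ofNat 859, .negSucc
  3906⟩, .q ⟨.ofNat 1911, .negSucc 950, .negSucc 959, .ofNat 0⟩ ⟨.negSucc
  3695, .negSucc 696, .ofNat 415, .ofNat 3978⟩, .q ⟨.ofNat 1918, .negSucc
  957, .negSucc 959, .ofNat 0⟩ ⟨.negSucc 3695, .negSucc 696, .ofNat 415,
  .ofNat 3978⟩],
[.q ⟨.negSucc 13, .negSucc 945, .ofNat 960, .ofNat 0⟩ ⟨.negSucc 1905, .ofNat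
  946, .ofNat 960, .ofNat 0⟩, .q ⟨.ofNat 3, .ofNat 957, .negSucc 959, .ofNat
  0⟩ ⟨.negSucc 1916, .ofNat 957, .ofNat 960, .ofNat 0⟩, .q ⟨.ofNat 1906,
  .negSucc 945, .negSucc 959, .ofNat 0⟩ ⟨.ofNat 3771, .ofNat 1468, .negSucc
  1552, .negSucc 3685⟩, .q ⟨.ofNat 1917, .negSucc 956, .negSucc 959, .ofNat
  0⟩ ⟨.ofNat 3771, .ofNat 1468, .negSucc 1552, .negSucc 3685⟩, .q ⟨.ofNat
  1906, .negSucc 945, .negSucc 959, .ofNat 0⟩ ⟨.negSucc 3431, .negSucc 1806,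
  .ofNat 1553, .ofNat 3686⟩, .q ⟨.ofNat 1917, .negSucc 956, .negSucc 959,
  .ofNat 0⟩ ⟨.negSucc 3431, .negSucc 1806, .ofNat 1553, .ofNat 3686⟩, .q
  ⟨.ofNat 1906, .negSucc 945, .negSucc 959, .ofNat 0⟩ ⟨.negSucc 2835, .ofNat
  2319, .negSucc 2557, .ofNat 3075⟩, .q ⟨.ofNat 1917, .negSucc 956, .negSucc
  959, .ofNat 0⟩ ⟨.negSucc 2835, .ofNat 2319, .negSucc 2557, .ofNat 3075⟩],
[.q ⟨.negSucc 12, .negSucc 946, .ofNat 960, .ofNat 0⟩ ⟨.negSucc 1906, .ofNat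
  947, .ofNat 960, .ofNat 0⟩, .q ⟨.ofNat 3, .ofNat 957, .negSucc 959, .ofNat
  0⟩ ⟨.negSucc 1916, .ofNat 957, .ofNat 960, .ofNat 0⟩, .q ⟨.ofNat 1907,
  .negSucc 946, .negSucc 959, .ofNat 0⟩ ⟨.ofNat 4093, .negSucc 92, .ofNat 0,
  .negSucc 3999⟩, .q ⟨.ofNat 1917, .negSucc 956, .negSucc 959, .ofNat 0⟩
  ⟨.ofNat 4093, .negSucc 92, .ofNat 0, .negSucc 3999⟩, .q ⟨.ofNat 1907,
  .negSucc 946, .negSucc 959, .ofNat 0⟩ ⟨.negSucc 1856, .negSucc 142, .ofNat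
  0, .ofNat 2000⟩, .q ⟨.ofNat 1917, .negSucc 956, .negSucc 959, .ofNat 0⟩
  ⟨.negSucc 1856, .negSucc 142, .ofNat 0, .ofNat 2000⟩, .q ⟨.ofNat 1907,
  .negSucc 946, .negSucc 959, .ofNat 0⟩ ⟨.negSucc 3294, .ofNat 1550,
  .negSucc 1817, .ofNat 3563⟩, .q ⟨.ofNat 1917, .negSucc 956, .negSucc 959,
  .ofNat 0⟩ ⟨.negSucc 3294, .ofNat 1550, .negSucc 1817, .ofNat 3563⟩],
[.q ⟨.negSucc 22, .negSucc 16, .ofNat 40, .ofNat 0⟩ ⟨.negSucc 56, .ofNat 17,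
  .ofNat 40, .ofNat 0⟩, .q ⟨.ofNat 21, .ofNat 19, .negSucc 39, .ofNat 0⟩
  ⟨.negSucc 58, .ofNat 19, .ofNat 40, .ofNat 0⟩, .q ⟨.ofNat 57, .negSucc 16,
  .negSucc 39, .ofNat 0⟩ ⟨.ofNat 286, .ofNat 1259, .negSucc 231, .negSucc
  1312⟩, .q ⟨.ofNat 59, .negSucc 18, .negSucc 39, .ofNat 0⟩ ⟨.ofNat 286,
  .ofNat 1259, .negSucc 231, .negSucc 1312⟩, .q ⟨.ofNat 57, .negSucc 16,
  .negSucc 39, .ofNat 0⟩ ⟨.ofNat 1075, .negSucc 1898, .negSucc 2385, .ofNat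
  3210⟩, .q ⟨.ofNat 59, .negSucc 18, .negSucc 39, .ofNat 0⟩ ⟨.ofNat 1075,
  .negSucc 1898, .negSucc 2385, .ofNat 3210⟩, .q ⟨.ofNat 57, .negSucc 16,
  .negSucc 39, .ofNat 0⟩ ⟨.ofNat 2099, .ofNat 3383, .negSucc 3439, .negSucc
  2041⟩, .q ⟨.ofNat 59, .negSucc 18, .negSucc 39, .ofNat 0⟩ ⟨.ofNat 2099,
  .ofNat 3383, .negSucc 3439, .negSucc 2041⟩],
[.q ⟨.negSucc 268, .negSucc 210, .ofNat 480, .ofNat 0⟩ ⟨.negSucc 690, .ofNat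
  211, .ofNat 480, .ofNat 0⟩, .q ⟨.ofNat 264, .ofNat 216, .negSucc 479,
  .ofNat 0⟩ ⟨.negSucc 695, .ofNat 216, .ofNat 480, .ofNat 0⟩, .q ⟨.ofNat
  691, .negSucc 210, .negSucc 479, .ofNat 0⟩ ⟨.negSucc 237, .ofNat 2863,
  .ofNat 1193, .negSucc 3817⟩, .q ⟨.ofNat 696, .negSucc 215, .negSucc 479,
  .ofNat 0⟩ ⟨.negSucc 237, .ofNat 2863, .ofNat 1193, .negSucc 3817⟩, .q
  ⟨.ofNat 691, .negSucc 210, .negSucc 479, .ofNat 0⟩ ⟨.ofNat 1106, .negSucc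
  1851, .negSucc 2430, .ofNat 3177⟩, .q ⟨.ofNat 696, .negSucc 215, .negSucc
  479, .ofNat 0⟩ ⟨.ofNat 1106, .negSucc 1851, .negSucc 2430, .ofNat 3177⟩],
[.q ⟨.negSucc 538, .negSucc 420, .ofNat 960, .ofNat 0⟩ ⟨.negSucc 1380,
  .ofNat 421, .ofNat 960, .ofNat 0⟩, .q ⟨.ofNat 533, .ofNat 427, .negSucc
  959, .ofNat 0⟩ ⟨.negSucc 1386, .ofNat 427, .ofNat 960, .ofNat 0⟩, .q
  ⟨.ofNat 1381, .negSucc 420, .negSucc 959, .ofNat 0⟩ ⟨.negSucc 942, .ofNat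
  1868, .ofNat 2328, .negSucc 3252⟩, .q ⟨.ofNat 1387, .negSucc 426, .negSucc
  959, .ofNat 0⟩ ⟨.negSucc 942, .ofNat 1868, .ofNat 2328, .negSucc 3252⟩, .q
  ⟨.ofNat 1381, .negSucc 420, .negSucc 959, .ofNat 0⟩ ⟨.ofNat 1037, .negSucc
  1961, .negSucc 2327, .ofNat 3253⟩, .q ⟨.ofNat 1387, .negSucc 426, .negSucc
  959, .ofNat 0⟩ ⟨.ofNat 1037, .negSucc 1961, .negSucc 2327, .ofNat 3253⟩],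
[.q ⟨.negSucc 0, .ofNat 1, .ofNat 0, .ofNat 0⟩ ⟨.negSucc 1966, .ofNat 47,
  .ofNat 1920, .ofNat 0⟩, .q ⟨.negSucc 0, .ofNat 1, .ofNat 0, .ofNat 0⟩
  ⟨.ofNat 467, .ofNat 13, .negSucc 479, .ofNat 0⟩, .l ⟨.ofNat 0, .ofNat 0,
  .negSucc 239, .negSucc 130⟩ ⟨.ofNat 0, .ofNat 0, .ofNat 0, .ofNat 1⟩, .l
  ⟨.ofNat 0, .ofNat 0, .ofNat 960, .ofNat 751⟩ ⟨.ofNat 0, .ofNat 0, .ofNat
  0, .ofNat 1⟩],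
[.l ⟨.ofNat 0, .ofNat 480, .ofNat 0, .negSucc 409⟩ ⟨.ofNat 0, .ofNat 480,
  .ofNat 0, .ofNat 410⟩, .l ⟨.ofNat 0, .negSucc 479, .ofNat 0, .ofNat 417⟩
  ⟨.ofNat 0, .ofNat 480, .ofNat 0, .ofNat 417⟩, .l ⟨.ofNat 0, .ofNat 480,
  .ofNat 0, .negSucc 409⟩ ⟨.ofNat 0, .ofNat 0, .ofNat 2000, .negSucc 4330⟩,
  .l ⟨.ofNat 0, .ofNat 480, .ofNat 0, .negSucc 416⟩ ⟨.ofNat 0, .ofNat 0,
  .ofNat 2000, .negSucc 4330⟩, .l ⟨.ofNat 0, .ofNat 480, .ofNat 0, .negSucc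
  409⟩ ⟨.ofNat 0, .ofNat 0, .negSucc 3999, .negSucc 3342⟩, .l ⟨.ofNat 0,
  .ofNat 480, .ofNat 0, .negSucc 416⟩ ⟨.ofNat 0, .ofNat 0, .negSucc 3999,
  .negSucc 3342⟩, .l ⟨.ofNat 0, .ofNat 480, .ofNat 0, .negSucc 409⟩ ⟨.ofNat
  0, .negSucc 1459, .ofNat 1367, .negSucc 539⟩, .l ⟨.ofNat 0, .ofNat 480,
  .ofNat 0, .negSucc 416⟩ ⟨.ofNat 0, .negSucc 1459, .ofNat 1367, .negSucc
  539⟩, .l ⟨.ofNat 0, .ofNat 480, .ofNat 0, .negSucc 409⟩ ⟨.ofNat 0, .ofNat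
  712, .negSucc 1868, .negSucc 947⟩, .l ⟨.ofNat 0, .ofNat 480, .ofNat 0,
  .negSucc 416⟩ ⟨.ofNat 0, .ofNat 712, .negSucc 1868, .negSucc 947⟩],
[.q ⟨.negSucc 0, .ofNat 1, .ofNat 0, .ofNat 0⟩ ⟨.negSucc 126, .ofNat 7,
  .ofNat 120, .ofNat 0⟩, .q ⟨.negSucc 0, .ofNat 1, .ofNat 0, .ofNat 0⟩
  ⟨.ofNat 301, .ofNat 19, .negSucc 319, .ofNat 0⟩, .l ⟨.ofNat 0, .ofNat 0,
  .negSucc 1919, .negSucc 1230⟩ ⟨.ofNat 0, .ofNat 0, .ofNat 0, .ofNat 1⟩, .l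
  ⟨.ofNat 0, .ofNat 0, .ofNat 1920, .ofNat 1417⟩ ⟨.ofNat 0, .ofNat 0, .ofNat
  0, .ofNat 1⟩],
[.q ⟨.negSucc 0, .ofNat 1, .ofNat 0, .ofNat 0⟩ ⟨.negSucc 2038, .ofNat 119,
  .ofNat 1920, .ofNat 0⟩, .q ⟨.negSucc 0, .ofNat 1, .ofNat 0, .ofNat 0⟩
  ⟨.ofNat 601, .ofNat 39, .negSucc 639, .ofNat 0⟩, .l ⟨.ofNat 0, .ofNat 0,
  .negSucc 19, .negSucc 12⟩ ⟨.ofNat 0, .ofNat 0, .ofNat 0, .ofNat 1⟩, .l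
  ⟨.ofNat 0, .ofNat 0, .ofNat 640, .ofNat 469⟩ ⟨.ofNat 0, .ofNat 0, .ofNat
  0, .ofNat 1⟩],
[.l ⟨.ofNat 0, .ofNat 960, .ofNat 0, .negSucc 846⟩ ⟨.ofNat 0, .ofNat 960,
  .ofNat 0, .ofNat 847⟩, .l ⟨.ofNat 0, .negSucc 959, .ofNat 0, .ofNat 858⟩
  ⟨.ofNat 0, .ofNat 960, .ofNat 0, .ofNat 858⟩, .l ⟨.ofNat 0, .ofNat 960,
  .ofNat 0, .negSucc 846⟩ ⟨.ofNat 0, .ofNat 2349, .ofNat 3237, .ofNat 4967⟩,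
  .l ⟨.ofNat 0, .ofNat 960, .ofNat 0, .negSucc 857⟩ ⟨.ofNat 0, .ofNat 2349,
  .ofNat 3237, .ofNat 4967⟩, .l ⟨.ofNat 0, .ofNat 960, .ofNat 0, .negSucc
  846⟩ ⟨.ofNat 0, .negSucc 2348, .negSucc 3236, .negSucc 5143⟩, .l ⟨.ofNat
  0, .ofNat 960, .ofNat 0, .negSucc 857⟩ ⟨.ofNat 0, .negSucc 2348, .negSucc
  3236, .negSucc 5143⟩, .l ⟨.ofNat 0, .ofNat 960, .ofNat 0, .negSucc 846⟩
  ⟨.ofNat 0, .negSucc 154, .ofNat 3997, .ofNat 3410⟩, .l ⟨.ofNat 0, .ofNat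
  960, .ofNat 0, .negSucc 857⟩ ⟨.ofNat 0, .negSucc 154, .ofNat 3997, .ofNat
  3410⟩],
[.l ⟨.ofNat 0, .ofNat 480, .ofNat 0, .negSucc 406⟩ ⟨.ofNat 0, .ofNat 480,
  .ofNat 0, .ofNat 407⟩, .l ⟨.ofNat 0, .negSucc 479, .ofNat 0, .ofNat 417⟩
  ⟨.ofNat 0, .ofNat 480, .ofNat 0, .ofNat 417⟩, .l ⟨.ofNat 0, .ofNat 480,
  .ofNat 0, .negSucc 406⟩ ⟨.ofNat 0, .negSucc 2540, .ofNat 3089, .negSucc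
  10026⟩, .l ⟨.ofNat 0, .ofNat 480, .ofNat 0, .negSucc 416⟩ ⟨.ofNat 0,
  .negSucc 2540, .ofNat 3089, .negSucc 10026⟩, .l ⟨.ofNat 0, .ofNat 480,
  .ofNat 0, .negSucc 406⟩ ⟨.ofNat 0, .ofNat 176, .negSucc 3995, .negSucc
  3184⟩, .l ⟨.ofNat 0, .ofNat 480, .ofNat 0, .negSucc 416⟩ ⟨.ofNat 0, .ofNat
  176, .negSucc 3995, .negSucc 3184⟩, .l ⟨.ofNat 0, .ofNat 480, .ofNat 0,
  .negSucc 406⟩ ⟨.ofNat 0, .negSucc 631, .ofNat 3950, .ofNat 1519⟩, .l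
  ⟨.ofNat 0, .ofNat 480, .ofNat 0, .negSucc 416⟩ ⟨.ofNat 0, .negSucc 631,
  .ofNat 3950, .ofNat 1519⟩],
[.l ⟨.ofNat 0, .ofNat 60, .ofNat 0, .negSucc 51⟩ ⟨.ofNat 0, .ofNat 60,
  .ofNat 0, .ofNat 52⟩, .l ⟨.ofNat 0, .negSucc 59, .ofNat 0, .ofNat 53⟩
  ⟨.ofNat 0, .ofNat 60, .ofNat 0, .ofNat 53⟩, .l ⟨.ofNat 0, .ofNat 60,
  .ofNat 0, .negSucc 51⟩ ⟨.ofNat 0, .ofNat 2531, .ofNat 3098, .ofNat 4988⟩,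
  .l ⟨.ofNat 0, .ofNat 60, .ofNat 0, .negSucc 52⟩ ⟨.ofNat 0, .ofNat 2531,
  .ofNat 3098, .ofNat 4988⟩, .l ⟨.ofNat 0, .ofNat 60, .ofNat 0, .negSucc 51⟩
  ⟨.ofNat 0, .negSucc 2530, .negSucc 3097, .negSucc 5132⟩, .l ⟨.ofNat 0,
  .ofNat 60, .ofNat 0, .negSucc 52⟩ ⟨.ofNat 0, .negSucc 2530, .negSucc 3097,
  .negSucc 5132⟩, .l ⟨.ofNat 0, .ofNat 60, .ofNat 0, .negSucc 51⟩ ⟨.ofNat 0,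
  .ofNat 1542, .ofNat 3691, .ofNat 4654⟩, .l ⟨.ofNat 0, .ofNat 60, .ofNat 0,
  .negSucc 52⟩ ⟨.ofNat 0, .ofNat 1542, .ofNat 3691, .ofNat 4654⟩],
[.l ⟨.ofNat 0, .ofNat 240, .ofNat 0, .negSucc 208⟩ ⟨.ofNat 0, .ofNat 240,
  .ofNat 0, .ofNat 209⟩, .l ⟨.ofNat 0, .negSucc 239, .ofNat 0, .ofNat 214⟩
  ⟨.ofNat 0, .ofNat 240, .ofNat 0, .ofNat 214⟩, .l ⟨.ofNat 0, .ofNat 240,
  .ofNat 0, .negSucc 208⟩ ⟨.ofNat 0, .ofNat 2254, .ofNat 3305, .ofNat 4936⟩,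
  .l ⟨.ofNat 0, .ofNat 240, .ofNat 0, .negSucc 213⟩ ⟨.ofNat 0, .ofNat 2254,
  .ofNat 3305, .ofNat 4936⟩, .l ⟨.ofNat 0, .ofNat 240, .ofNat 0, .negSucc
  208⟩ ⟨.ofNat 0, .negSucc 1297, .negSucc 1521, .negSucc 2574⟩, .l ⟨.ofNat
  0, .ofNat 240, .ofNat 0, .negSucc 213⟩ ⟨.ofNat 0, .negSucc 1297, .negSucc
  1521, .negSucc 2574⟩, .l ⟨.ofNat 0, .ofNat 240, .ofNat 0, .negSucc 208⟩
  ⟨.ofNat 0, .ofNat 1306, .ofNat 3781, .ofNat 4524⟩, .l ⟨.ofNat 0, .ofNat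
  240, .ofNat 0, .negSucc 213⟩ ⟨.ofNat 0, .ofNat 1306, .ofNat 3781, .ofNat
  4524⟩],
[.l ⟨.ofNat 0, .ofNat 96, .ofNat 0, .negSucc 83⟩ ⟨.ofNat 0, .ofNat 96,
  .ofNat 0, .ofNat 84⟩, .l ⟨.ofNat 0, .negSucc 95, .ofNat 0, .ofNat 85⟩
  ⟨.ofNat 0, .ofNat 96, .ofNat 0, .ofNat 85⟩, .l ⟨.ofNat 0, .ofNat 96,
  .ofNat 0, .negSucc 83⟩ ⟨.ofNat 0, .ofNat 1569, .ofNat 3679, .ofNat 4667⟩,
  .l ⟨.ofNat 0, .ofNat 96, .ofNat 0, .negSucc 84⟩ ⟨.ofNat 0, .ofNat 1569,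
  .ofNat 3679, .ofNat 4667⟩, .l ⟨.ofNat 0, .ofNat 96, .ofNat 0, .negSucc 83⟩
  ⟨.ofNat 0, .negSucc 1568, .negSucc 3678, .negSucc 4863⟩, .l ⟨.ofNat 0,
  .ofNat 96, .ofNat 0, .negSucc 84⟩ ⟨.ofNat 0, .negSucc 1568, .negSucc 3678,
  .negSucc 4863⟩],
[.l ⟨.ofNat 0, .ofNat 240, .ofNat 0, .negSucc 210⟩ ⟨.ofNat 0, .ofNat 240,
  .ofNat 0, .ofNat 211⟩, .l ⟨.ofNat 0, .negSucc 239, .ofNat 0, .ofNat 214⟩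
  ⟨.ofNat 0, .ofNat 240, .ofNat 0, .ofNat 214⟩, .l ⟨.ofNat 0, .ofNat 240,
  .ofNat 0, .negSucc 210⟩ ⟨.ofNat 0, .negSucc 1052, .ofNat 1700, .ofNat
  576⟩, .l ⟨.ofNat 0, .ofNat 240, .ofNat 0, .negSucc 213⟩ ⟨.ofNat 0,
  .negSucc 1052, .ofNat 1700, .ofNat 576⟩, .l ⟨.ofNat 0, .ofNat 240, .ofNat
  0, .negSucc 210⟩ ⟨.ofNat 0, .ofNat 1053, .negSucc 1699, .negSucc 674⟩, .l
  ⟨.ofNat 0, .ofNat 240, .ofNat 0, .negSucc 213⟩ ⟨.ofNat 0, .ofNat 1053,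
  .negSucc 1699, .negSucc 674⟩, .l ⟨.ofNat 0, .ofNat 240, .ofNat 0, .negSucc
  210⟩ ⟨.ofNat 0, .ofNat 1933, .ofNat 3502, .ofNat 4831⟩, .l ⟨.ofNat 0,
  .ofNat 240, .ofNat 0, .negSucc 213⟩ ⟨.ofNat 0, .ofNat 1933, .ofNat 3502,
  .ofNat 4831⟩],
[.l ⟨.ofNat 0, .ofNat 674, .negSucc 3942, .negSucc 433⟩ ⟨.ofNat 0, .ofNat 0,
  .ofNat 0, .ofNat 1⟩, .l ⟨.ofNat 0, .ofNat 1116, .ofNat 3841, .ofNat 478⟩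
  ⟨.ofNat 0, .ofNat 0, .ofNat 0, .ofNat 1⟩, .l ⟨.ofNat 0, .negSucc 3965,
  .negSucc 522, .ofNat 56⟩ ⟨.ofNat 0, .ofNat 0, .ofNat 0, .ofNat 1⟩],
[.l ⟨.ofNat 0, .ofNat 80, .ofNat 0, .negSucc 77⟩ ⟨.ofNat 0, .ofNat 80,
  .ofNat 0, .ofNat 78⟩, .l ⟨.ofNat 0, .negSucc 79, .ofNat 0, .ofNat 81⟩
  ⟨.ofNat 0, .ofNat 80, .ofNat 0, .ofNat 81⟩, .l ⟨.ofNat 0, .ofNat 80,
  .ofNat 0, .negSucc 77⟩ ⟨.ofNat 0, .negSucc 2538, .ofNat 3091, .ofNat 48⟩,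
  .l ⟨.ofNat 0, .ofNat 80, .ofNat 0, .negSucc 80⟩ ⟨.ofNat 0, .negSucc 2538,
  .ofNat 3091, .ofNat 48⟩, .l ⟨.ofNat 0, .ofNat 80, .ofNat 0, .negSucc 77⟩
  ⟨.ofNat 0, .negSucc 2177, .negSucc 3354, .negSucc 5746⟩, .l ⟨.ofNat 0,
  .ofNat 80, .ofNat 0, .negSucc 80⟩ ⟨.ofNat 0, .negSucc 2177, .negSucc 3354,
  .negSucc 5746⟩, .l ⟨.ofNat 0, .ofNat 80, .ofNat 0, .negSucc 77⟩ ⟨.ofNat 0,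
  .ofNat 1708, .ofNat 1040, .ofNat 2565⟩, .l ⟨.ofNat 0, .ofNat 80, .ofNat 0,
  .negSucc 80⟩ ⟨.ofNat 0, .ofNat 1708, .ofNat 1040, .ofNat 2565⟩],
[.l ⟨.ofNat 0, .ofNat 480, .ofNat 0, .negSucc 415⟩ ⟨.ofNat 0, .ofNat 480,
  .ofNat 0, .ofNat 416⟩, .l ⟨.ofNat 0, .negSucc 479, .ofNat 0, .ofNat 425⟩
  ⟨.ofNat 0, .ofNat 480, .ofNat 0, .ofNat 425⟩, .l ⟨.ofNat 0, .ofNat 480,
  .ofNat 0, .negSucc 415⟩ ⟨.ofNat 0, .ofNat 190, .ofNat 3995, .ofNat 3746⟩,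
  .l ⟨.ofNat 0, .ofNat 480, .ofNat 0, .negSucc 424⟩ ⟨.ofNat 0, .ofNat 190,
  .ofNat 3995, .ofNat 3746⟩, .l ⟨.ofNat 0, .ofNat 480, .ofNat 0, .negSucc
  415⟩ ⟨.ofNat 0, .negSucc 37, .negSucc 798, .negSucc 3149⟩, .l ⟨.ofNat 0,
  .ofNat 480, .ofNat 0, .negSucc 424⟩ ⟨.ofNat 0, .negSucc 37, .negSucc 798,
  .negSucc 3149⟩, .l ⟨.ofNat 0, .ofNat 480, .ofNat 0, .negSucc 415⟩ ⟨.ofNat
  0, .ofNat 3477, .ofNat 1977, .ofNat 4802⟩, .l ⟨.ofNat 0, .ofNat 480,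
  .ofNat 0, .negSucc 424⟩ ⟨.ofNat 0, .ofNat 3477, .ofNat 1977, .ofNat 4802⟩,
  .l ⟨.ofNat 0, .ofNat 480, .ofNat 0, .negSucc 415⟩ ⟨.ofNat 0, .negSucc 820,
  .negSucc 3914, .negSucc 4428⟩, .l ⟨.ofNat 0, .ofNat 480, .ofNat 0,
  .negSucc 424⟩ ⟨.ofNat 0, .negSucc 820, .negSucc 3914, .negSucc 4428⟩],
[.l ⟨.ofNat 0, .ofNat 40, .ofNat 0, .negSucc 30⟩ ⟨.ofNat 0, .ofNat 40,
  .ofNat 0, .ofNat 31⟩, .l ⟨.ofNat 0, .negSucc 39, .ofNat 0, .ofNat 33⟩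
  ⟨.ofNat 0, .ofNat 40, .ofNat 0, .ofNat 33⟩, .l ⟨.ofNat 0, .ofNat 40,
  .ofNat 0, .negSucc 30⟩ ⟨.ofNat 0, .ofNat 1872, .ofNat 3535, .ofNat 4875⟩,
  .l ⟨.ofNat 0, .ofNat 40, .ofNat 0, .negSucc 32⟩ ⟨.ofNat 0, .ofNat 1872,
  .ofNat 3535, .ofNat 4875⟩, .l ⟨.ofNat 0, .ofNat 40, .ofNat 0, .negSucc 30⟩
  ⟨.ofNat 0, .negSucc 1599, .negSucc 3665, .negSucc 5056⟩, .l ⟨.ofNat 0,
  .ofNat 40, .ofNat 0, .negSucc 32⟩ ⟨.ofNat 0, .negSucc 1599, .negSucc 3665,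
  .negSucc 5056⟩],
[.q ⟨.negSucc 0, .ofNat 1, .ofNat 0, .ofNat 0⟩ ⟨.negSucc 646, .ofNat 7,
  .ofNat 640, .ofNat 0⟩, .q ⟨.negSucc 0, .ofNat 1, .ofNat 0, .ofNat 0⟩
  ⟨.ofNat 1891, .ofNat 29, .negSucc 1919, .ofNat 0⟩, .l ⟨.ofNat 0, .ofNat 0,
  .negSucc 1919, .negSucc 942⟩ ⟨.ofNat 0, .ofNat 0, .ofNat 0, .ofNat 1⟩, .l
  ⟨.ofNat 0, .ofNat 0, .ofNat 1920, .ofNat 1519⟩ ⟨.ofNat 0, .ofNat 0, .ofNat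
  0, .ofNat 1⟩],
[.l ⟨.ofNat 0, .ofNat 480, .ofNat 0, .negSucc 422⟩ ⟨.ofNat 0, .ofNat 480,
  .ofNat 0, .ofNat 423⟩, .l ⟨.ofNat 0, .negSucc 479, .ofNat 0, .ofNat 431⟩
  ⟨.ofNat 0, .ofNat 480, .ofNat 0, .ofNat 431⟩, .l ⟨.ofNat 0, .ofNat 480,
  .ofNat 0, .negSucc 422⟩ ⟨.ofNat 0, .ofNat 1779, .ofNat 3583, .ofNat 4768⟩,
  .l ⟨.ofNat 0, .ofNat 480, .ofNat 0, .negSucc 430⟩ ⟨.ofNat 0, .ofNat 1779,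
  .ofNat 3583, .ofNat 4768⟩, .l ⟨.ofNat 0, .ofNat 480, .ofNat 0, .negSucc
  422⟩ ⟨.ofNat 0, .negSucc 1778, .negSucc 3582, .negSucc 4967⟩, .l ⟨.ofNat
  0, .ofNat 480, .ofNat 0, .negSucc 430⟩ ⟨.ofNat 0, .negSucc 1778, .negSucc
  3582, .negSucc 4967⟩],
[.l ⟨.ofNat 0, .ofNat 480, .ofNat 0, .negSucc 423⟩ ⟨.ofNat 0, .ofNat 480,
  .ofNat 0, .ofNat 424⟩, .l ⟨.ofNat 0, .negSucc 479, .ofNat 0, .ofNat 431⟩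
  ⟨.ofNat 0, .ofNat 480, .ofNat 0, .ofNat 431⟩, .l ⟨.ofNat 0, .ofNat 480,
  .ofNat 0, .negSucc 423⟩ ⟨.ofNat 0, .ofNat 2080, .ofNat 3417, .ofNat 4889⟩,
  .l ⟨.ofNat 0, .ofNat 480, .ofNat 0, .negSucc 430⟩ ⟨.ofNat 0, .ofNat 2080,
  .ofNat 3417, .ofNat 4889⟩, .l ⟨.ofNat 0, .ofNat 480, .ofNat 0, .negSucc
  423⟩ ⟨.ofNat 0, .negSucc 2079, .negSucc 3416, .negSucc 5080⟩, .l ⟨.ofNat
  0, .ofNat 480, .ofNat 0, .negSucc 430⟩ ⟨.ofNat 0, .negSucc 2079, .negSucc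
  3416, .negSucc 5080⟩, .l ⟨.ofNat 0, .ofNat 480, .ofNat 0, .negSucc 423⟩
  ⟨.ofNat 0, .ofNat 837, .ofNat 3911, .ofNat 4215⟩, .l ⟨.ofNat 0, .ofNat
  480, .ofNat 0, .negSucc 430⟩ ⟨.ofNat 0, .ofNat 837, .ofNat 3911, .ofNat
  4215⟩],
[.l ⟨.ofNat 0, .ofNat 80, .ofNat 0, .negSucc 68⟩ ⟨.ofNat 0, .ofNat 80,
  .ofNat 0, .ofNat 69⟩, .l ⟨.ofNat 0, .negSucc 79, .ofNat 0, .ofNat 72⟩
  ⟨.ofNat 0, .ofNat 80, .ofNat 0, .ofNat 72⟩, .l ⟨.ofNat 0, .ofNat 80,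
  .ofNat 0, .negSucc 68⟩ ⟨.ofNat 0, .ofNat 0, .ofNat 4000, .ofNat 3561⟩, .l
  ⟨.ofNat 0, .ofNat 80, .ofNat 0, .negSucc 71⟩ ⟨.ofNat 0, .ofNat 0, .ofNat
  4000, .ofNat 3561⟩, .l ⟨.ofNat 0, .ofNat 80, .ofNat 0, .negSucc 68⟩
  ⟨.ofNat 0, .ofNat 0, .negSucc 3999, .negSucc 3798⟩, .l ⟨.ofNat 0, .ofNat
  80, .ofNat 0, .negSucc 71⟩ ⟨.ofNat 0, .ofNat 0, .negSucc 3999, .negSucc
  3798⟩, .l ⟨.ofNat 0, .ofNat 80, .ofNat 0, .negSucc 68⟩ ⟨.ofNat 0, .ofNat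
  2630, .ofNat 3014, .ofNat 5011⟩, .l ⟨.ofNat 0, .ofNat 80, .ofNat 0,
  .negSucc 71⟩ ⟨.ofNat 0, .ofNat 2630, .ofNat 3014, .ofNat 5011⟩],
[.q ⟨.negSucc 433, .negSucc 525, .ofNat 960, .ofNat 0⟩ ⟨.negSucc 1485,
  .ofNat 526, .ofNat 960, .ofNat 0⟩, .q ⟨.ofNat 425, .ofNat 535, .negSucc
  959, .ofNat 0⟩ ⟨.negSucc 1494, .ofNat 535, .ofNat 960, .ofNat 0⟩, .q
  ⟨.ofNat 1486, .negSucc 525, .negSucc 959, .ofNat 0⟩ ⟨.ofNat 12575,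
  .negSucc 11767, .ofNat 2396, .negSucc 3202⟩, .q ⟨.ofNat 1495, .negSucc
  534, .negSucc 959, .ofNat 0⟩ ⟨.ofNat 12575, .negSucc 11767, .ofNat 2396,
  .negSucc 3202⟩, .q ⟨.ofNat 1486, .negSucc 525, .negSucc 959, .ofNat 0⟩
  ⟨.negSucc 382, .negSucc 423, .negSucc 2395, .ofNat 3203⟩, .q ⟨.ofNat 1495,
  .negSucc 534, .negSucc 959, .ofNat 0⟩ ⟨.negSucc 382, .negSucc 423,
  .negSucc 2395, .ofNat 3203⟩, .q ⟨.ofNat 1486, .negSucc 525, .negSucc 959,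
  .ofNat 0⟩ ⟨.ofNat 2188, .ofNat 2099, .negSucc 297, .negSucc 3988⟩, .q
  ⟨.ofNat 1495, .negSucc 534, .negSucc 959, .ofNat 0⟩ ⟨.ofNat 2188, .ofNat
  2099, .negSucc 297, .negSucc 3988⟩],
[.q ⟨.negSucc 435, .negSucc 523, .ofNat 960, .ofNat 0⟩ ⟨.negSucc 1483,
  .ofNat 524, .ofNat 960, .ofNat 0⟩, .q ⟨.ofNat 425, .ofNat 535, .negSucc
  959, .ofNat 0⟩ ⟨.negSucc 1494, .ofNat 535, .ofNat 960, .ofNat 0⟩, .q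
  ⟨.ofNat 1484, .negSucc 523, .negSucc 959, .ofNat 0⟩ ⟨.ofNat 2114, .ofNat
  2007, .negSucc 122, .negSucc 3997⟩, .q ⟨.ofNat 1495, .negSucc 534,
  .negSucc 959, .ofNat 0⟩ ⟨.ofNat 2114, .ofNat 2007, .negSucc 122, .negSucc
  3997⟩, .q ⟨.ofNat 1484, .negSucc 523, .negSucc 959, .ofNat 0⟩ ⟨.negSucc
  1722, .negSucc 2100, .negSucc 171, .ofNat 3996⟩, .q ⟨.ofNat 1495, .negSucc
  534, .negSucc 959, .ofNat 0⟩ ⟨.negSucc 1722, .negSucc 2100, .negSucc 171,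
  .ofNat 3996⟩],
[.l ⟨.ofNat 0, .ofNat 240, .ofNat 0, .negSucc 210⟩ ⟨.ofNat 0, .ofNat 240,
  .ofNat 0, .ofNat 211⟩, .l ⟨.ofNat 0, .negSucc 239, .ofNat 0, .ofNat 216⟩
  ⟨.ofNat 0, .ofNat 240, .ofNat 0, .ofNat 216⟩, .l ⟨.ofNat 0, .ofNat 240,
  .ofNat 0, .negSucc 210⟩ ⟨.ofNat 0, .ofNat 0, .ofNat 125, .negSucc 225⟩, .l
  ⟨.ofNat 0, .ofNat 240, .ofNat 0, .negSucc 215⟩ ⟨.ofNat 0, .ofNat 0, .ofNat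
  125, .negSucc 225⟩, .l ⟨.ofNat 0, .ofNat 240, .ofNat 0, .negSucc 210⟩
  ⟨.ofNat 0, .ofNat 0, .negSucc 3999, .negSucc 3348⟩, .l ⟨.ofNat 0, .ofNat
  240, .ofNat 0, .negSucc 215⟩ ⟨.ofNat 0, .ofNat 0, .negSucc 3999, .negSucc
  3348⟩, .l ⟨.ofNat 0, .ofNat 240, .ofNat 0, .negSucc 210⟩ ⟨.ofNat 0, .ofNat
  2513, .ofNat 3112, .ofNat 4756⟩, .l ⟨.ofNat 0, .ofNat 240, .ofNat 0,
  .negSucc 215⟩ ⟨.ofNat 0, .ofNat 2513, .ofNat 3112, .ofNat 4756⟩],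
[.q ⟨.negSucc 74, .ofNat 36, .negSucc 40, .ofNat 80⟩ ⟨.ofNat 7892, .ofNat
  7428, .negSucc 9239, .negSucc 6079⟩, .q ⟨.negSucc 74, .ofNat 36, .negSucc
  40, .ofNat 80⟩ ⟨.negSucc 7075, .negSucc 1267, .ofNat 20504, .negSucc
  12159⟩, .q ⟨.negSucc 74, .ofNat 36, .negSucc 40, .ofNat 80⟩ ⟨.negSucc
  2167, .negSucc 6059, .negSucc 9051, .ofNat 17280⟩, .q ⟨.negSucc 74, .ofNat
  36, .negSucc 40, .ofNat 80⟩ ⟨.ofNat 2824, .negSucc 1823, .negSucc 16039,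
  .ofNat 15040⟩],
[.q ⟨.negSucc 25, .negSucc 20, .ofNat 15, .ofNat 32⟩ ⟨.ofNat 7084, .negSucc
  18799, .ofNat 6596, .ofNat 5120⟩, .q ⟨.negSucc 25, .negSucc 20, .ofNat 15,
  .ofNat 32⟩ ⟨.ofNat 872, .negSucc 587, .negSucc 1179, .ofNat 896⟩, .q
  ⟨.negSucc 25, .negSucc 20, .ofNat 15, .ofNat 32⟩ ⟨.negSucc 763, .ofNat
  3440, .negSucc 2419, .negSucc 255⟩, .q ⟨.negSucc 25, .negSucc 20, .ofNat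
  15, .ofNat 32⟩ ⟨.negSucc 8823, .ofNat 5796, .ofNat 11860, .negSucc 8831⟩],
[.q ⟨.negSucc 0, .ofNat 1, .ofNat 0, .ofNat 0⟩ ⟨.negSucc 1968, .ofNat 49,
  .ofNat 1920, .ofNat 0⟩, .q ⟨.negSucc 0, .ofNat 1, .ofNat 0, .ofNat 0⟩
  ⟨.ofNat 627, .ofNat 13, .negSucc 639, .ofNat 0⟩, .l ⟨.ofNat 0, .ofNat 0,
  .negSucc 959, .negSucc 952⟩ ⟨.ofNat 0, .ofNat 0, .ofNat 0, .ofNat 1⟩, .l
  ⟨.ofNat 0, .ofNat 0, .ofNat 160, .ofNat 161⟩ ⟨.ofNat 0, .ofNat 0, .ofNat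
  0, .ofNat 1⟩],
[.q ⟨.negSucc 38, .negSucc 40, .ofNat 80, .ofNat 0⟩ ⟨.negSucc 120, .ofNat
  41, .ofNat 80, .ofNat 0⟩, .q ⟨.ofNat 36, .ofNat 44, .negSucc 79, .ofNat 0⟩
  ⟨.negSucc 123, .ofNat 44, .ofNat 80, .ofNat 0⟩, .q ⟨.ofNat 121, .negSucc
  40, .negSucc 79, .ofNat 0⟩ ⟨.ofNat 3100, .ofNat 1130, .negSucc 236,
  .negSucc 3992⟩, .q ⟨.ofNat 124, .negSucc 43, .negSucc 79, .ofNat 0⟩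
  ⟨.ofNat 3100, .ofNat 1130, .negSucc 236, .negSucc 3992⟩, .q ⟨.ofNat 121,
  .negSucc 40, .negSucc 79, .ofNat 0⟩ ⟨.negSucc 144, .ofNat 44, .negSucc
  1362, .ofNat 1464⟩, .q ⟨.ofNat 124, .negSucc 43, .negSucc 79, .ofNat 0⟩
  ⟨.negSucc 144, .ofNat 44, .negSucc 1362, .ofNat 1464⟩, .q ⟨.ofNat 121,
  .negSucc 40, .negSucc 79, .ofNat 0⟩ ⟨.negSucc 1130, .negSucc 768, .negSucc
  1713, .ofNat 3614⟩, .q ⟨.ofNat 124, .negSucc 43, .negSucc 79, .ofNat 0⟩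
  ⟨.negSucc 1130, .negSucc 768, .negSucc 1713, .ofNat 3614⟩],
[.q ⟨.negSucc 22, .negSucc 16, .ofNat 40, .ofNat 0⟩ ⟨.negSucc 56, .ofNat 17,
  .ofNat 40, .ofNat 0⟩, .q ⟨.ofNat 19, .ofNat 21, .negSucc 39, .ofNat 0⟩
  ⟨.negSucc 60, .ofNat 21, .ofNat 40, .ofNat 0⟩, .q ⟨.ofNat 57, .negSucc 16,
  .negSucc 39, .ofNat 0⟩ ⟨.ofNat 270, .ofNat 116, .ofNat 2629, .negSucc
  3014⟩, .q ⟨.ofNat 61, .negSucc 20, .negSucc 39, .ofNat 0⟩ ⟨.ofNat 270,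
  .ofNat 116, .ofNat 2629, .negSucc 3014⟩, .q ⟨.ofNat 57, .negSucc 16,
  .negSucc 39, .ofNat 0⟩ ⟨.ofNat 11093, .negSucc 13335, .negSucc 1474,
  .ofNat 3718⟩, .q ⟨.ofNat 61, .negSucc 20, .negSucc 39, .ofNat 0⟩ ⟨.ofNat
  11093, .negSucc 13335, .negSucc 1474, .ofNat 3718⟩, .q ⟨.ofNat 57,
  .negSucc 16, .negSucc 39, .ofNat 0⟩ ⟨.ofNat 2728, .ofNat 2806, .negSucc
  3354, .negSucc 2178⟩, .q ⟨.ofNat 61, .negSucc 20, .negSucc 39, .ofNat 0⟩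
  ⟨.ofNat 2728, .ofNat 2806, .negSucc 3354, .negSucc 2178⟩, .q ⟨.ofNat 57,
  .negSucc 16, .negSucc 39, .ofNat 0⟩ ⟨.ofNat 553, .ofNat 189, .negSucc
  3174, .ofNat 2433⟩, .q ⟨.ofNat 61, .negSucc 20, .negSucc 39, .ofNat 0⟩
  ⟨.ofNat 553, .ofNat 189, .negSucc 3174, .ofNat 2433⟩],
[.l ⟨.ofNat 0, .negSucc 1885, .negSucc 665, .negSucc 18⟩ ⟨.ofNat 0, .ofNat
  0, .ofNat 0, .ofNat 1⟩, .l ⟨.ofNat 0, .ofNat 0, .negSucc 1999, .negSucc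
  208⟩ ⟨.ofNat 0, .ofNat 0, .ofNat 0, .ofNat 1⟩, .l ⟨.ofNat 0, .ofNat 1968,
  .ofNat 356, .ofNat 439⟩ ⟨.ofNat 0, .ofNat 0, .ofNat 0, .ofNat 1⟩, .l
  ⟨.ofNat 0, .negSucc 990, .ofNat 133, .ofNat 44⟩ ⟨.ofNat 0, .ofNat 0,
  .ofNat 0, .ofNat 1⟩],
[.l ⟨.ofNat 0, .ofNat 3394, .negSucc 2116, .ofNat 137⟩ ⟨.ofNat 0, .ofNat 0,
  .ofNat 0, .ofNat 1⟩, .l ⟨.ofNat 0, .ofNat 353, .ofNat 3984, .ofNat 138⟩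
  ⟨.ofNat 0, .ofNat 0, .ofNat 0, .ofNat 1⟩, .l ⟨.ofNat 0, .negSucc 201,
  .ofNat 202, .ofNat 7⟩ ⟨.ofNat 0, .ofNat 0, .ofNat 0, .ofNat 1⟩, .l ⟨.ofNat
  0, .negSucc 3282, .negSucc 2284, .ofNat 45⟩ ⟨.ofNat 0, .ofNat 0, .ofNat 0,
  .ofNat 1⟩, .l ⟨.ofNat 0, .ofNat 725, .negSucc 3933, .ofNat 94⟩ ⟨.ofNat 0,
  .ofNat 0, .ofNat 0, .ofNat 1⟩],
[.q ⟨.ofNat 11, .negSucc 12, .negSucc 17, .ofNat 20⟩ ⟨.negSucc 2415, .ofNat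
  4052, .negSucc 1055, .negSucc 579⟩, .q ⟨.ofNat 11, .negSucc 12, .negSucc
  17, .ofNat 20⟩ ⟨.negSucc 4356, .ofNat 3426, .ofNat 191, .ofNat 740⟩, .q
  ⟨.ofNat 11, .negSucc 12, .negSucc 17, .ofNat 20⟩ ⟨.negSucc 2646, .negSucc
  1565, .ofNat 2053, .ofNat 2160⟩, .q ⟨.ofNat 11, .negSucc 12, .negSucc 17,
  .ofNat 20⟩ ⟨.ofNat 4559, .negSucc 3248, .negSucc 449, .negSucc 859⟩],
[.q ⟨.negSucc 21, .negSucc 17, .ofNat 40, .ofNat 0⟩ ⟨.negSucc 57, .ofNat 18,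
  .ofNat 40, .ofNat 0⟩, .q ⟨.ofNat 19, .ofNat 21, .negSucc 39, .ofNat 0⟩
  ⟨.negSucc 60, .ofNat 21, .ofNat 40, .ofNat 0⟩, .q ⟨.ofNat 58, .negSucc 17,
  .negSucc 39, .ofNat 0⟩ ⟨.ofNat 6889, .negSucc 4888, .ofNat 0, .negSucc
  1999⟩, .q ⟨.ofNat 61, .negSucc 20, .negSucc 39, .ofNat 0⟩ ⟨.ofNat 6889,
  .negSucc 4888, .ofNat 0, .negSucc 1999⟩, .q ⟨.ofNat 58, .negSucc 17,
  .negSucc 39, .ofNat 0⟩ ⟨.ofNat 4223, .negSucc 6222, .ofNat 0, .ofNat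
  2000⟩, .q ⟨.ofNat 61, .negSucc 20, .negSucc 39, .ofNat 0⟩ ⟨.ofNat 4223,
  .negSucc 6222, .ofNat 0, .ofNat 2000⟩, .q ⟨.ofNat 58, .negSucc 17,
  .negSucc 39, .ofNat 0⟩ ⟨.ofNat 2707, .ofNat 2833, .negSucc 3340, .negSucc
  2198⟩, .q ⟨.ofNat 61, .negSucc 20, .negSucc 39, .ofNat 0⟩ ⟨.ofNat 2707,
  .ofNat 2833, .negSucc 3340, .negSucc 2198⟩, .q ⟨.ofNat 58, .negSucc 17,
  .negSucc 39, .ofNat 0⟩ ⟨.ofNat 973, .ofNat 626, .negSucc 3512, .ofNat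
  1914⟩, .q ⟨.ofNat 61, .negSucc 20, .negSucc 39, .ofNat 0⟩ ⟨.ofNat 973,
  .ofNat 626, .negSucc 3512, .ofNat 1914⟩],
[.q ⟨.negSucc 42, .negSucc 36, .ofNat 80, .ofNat 0⟩ ⟨.negSucc 116, .ofNat
  37, .ofNat 80, .ofNat 0⟩, .q ⟨.ofNat 40, .ofNat 40, .negSucc 79, .ofNat 0⟩
  ⟨.negSucc 119, .ofNat 40, .ofNat 80, .ofNat 0⟩, .q ⟨.ofNat 117, .negSucc
  36, .negSucc 79, .ofNat 0⟩ ⟨.ofNat 3555, .negSucc 2148, .negSucc 625,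
  .negSucc 779⟩, .q ⟨.ofNat 120, .negSucc 39, .negSucc 79, .ofNat 0⟩ ⟨.ofNat
  3555, .negSucc 2148, .negSucc 625, .negSucc 779⟩, .q ⟨.ofNat 117, .negSucc
  36, .negSucc 79, .ofNat 0⟩ ⟨.ofNat 3, .negSucc 222, .negSucc 1299, .ofNat
  1520⟩, .q ⟨.ofNat 120, .negSucc 39, .negSucc 79, .ofNat 0⟩ ⟨.ofNat 3,
  .negSucc 222, .negSucc 1299, .ofNat 1520⟩, .q ⟨.ofNat 117, .negSucc 36,
  .negSucc 79, .ofNat 0⟩ ⟨.ofNat 2614, .ofNat 2664, .negSucc 3656, .negSucc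
  1620⟩, .q ⟨.ofNat 120, .negSucc 39, .negSucc 79, .ofNat 0⟩ ⟨.ofNat 2614,
  .ofNat 2664, .negSucc 3656, .negSucc 1620⟩],
[.q ⟨.negSucc 19, .negSucc 19, .ofNat 40, .ofNat 0⟩ ⟨.negSucc 59, .ofNat 20,
  .ofNat 40, .ofNat 0⟩, .q ⟨.ofNat 17, .ofNat 23, .negSucc 39, .ofNat 0⟩
  ⟨.negSucc 62, .ofNat 23, .ofNat 40, .ofNat 0⟩, .q ⟨.ofNat 60, .negSucc 19,
  .negSucc 39, .ofNat 0⟩ ⟨.ofNat 1466, .negSucc 1243, .ofNat 183, .negSucc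
  404⟩, .q ⟨.ofNat 63, .negSucc 22, .negSucc 39, .ofNat 0⟩ ⟨.ofNat 1466,
  .negSucc 1243, .ofNat 183, .negSucc 404⟩, .q ⟨.ofNat 60, .negSucc 19,
  .negSucc 39, .ofNat 0⟩ ⟨.negSucc 1182, .negSucc 814, .negSucc 1646, .ofNat
  3645⟩, .q ⟨.ofNat 63, .negSucc 22, .negSucc 39, .ofNat 0⟩ ⟨.negSucc 1182,
  .negSucc 814, .negSucc 1646, .ofNat 3645⟩, .q ⟨.ofNat 60, .negSucc 19,
  .negSucc 39, .ofNat 0⟩ ⟨.ofNat 1183, .negSucc 588, .ofNat 2516, .negSucc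
  3109⟩, .q ⟨.ofNat 63, .negSucc 22, .negSucc 39, .ofNat 0⟩ ⟨.ofNat 1183,
  .negSucc 588, .ofNat 2516, .negSucc 3109⟩],
[.q ⟨.negSucc 6, .negSucc 32, .ofNat 40, .ofNat 0⟩ ⟨.negSucc 72, .ofNat 33,
  .ofNat 40, .ofNat 0⟩, .q ⟨.ofNat 4, .ofNat 36, .negSucc 39, .ofNat 0⟩
  ⟨.negSucc 75, .ofNat 36, .ofNat 40, .ofNat 0⟩, .q ⟨.ofNat 73, .negSucc 32,
  .negSucc 39, .ofNat 0⟩ ⟨.ofNat 2011, .negSucc 10, .ofNat 0, .negSucc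
  1999⟩, .q ⟨.ofNat 76, .negSucc 35, .negSucc 39, .ofNat 0⟩ ⟨.ofNat 2011,
  .negSucc 10, .ofNat 0, .negSucc 1999⟩, .q ⟨.ofNat 73, .negSucc 32,
  .negSucc 39, .ofNat 0⟩ ⟨.ofNat 321, .negSucc 480, .ofNat 0, .ofNat 160⟩,
  .q ⟨.ofNat 76, .negSucc 35, .negSucc 39, .ofNat 0⟩ ⟨.ofNat 321, .negSucc
  480, .ofNat 0, .ofNat 160⟩, .q ⟨.ofNat 73, .negSucc 32, .negSucc 39,
  .ofNat 0⟩ ⟨.ofNat 4048, .ofNat 838, .negSucc 1016, .negSucc 3868⟩, .q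
  ⟨.ofNat 76, .negSucc 35, .negSucc 39, .ofNat 0⟩ ⟨.ofNat 4048, .ofNat 838,
  .negSucc 1016, .negSucc 3868⟩, .q ⟨.ofNat 73, .negSucc 32, .negSucc 39,
  .ofNat 0⟩ ⟨.negSucc 1144, .ofNat 406, .negSucc 497, .ofNat 1237⟩, .q
  ⟨.ofNat 76, .negSucc 35, .negSucc 39, .ofNat 0⟩ ⟨.negSucc 1144, .ofNat
  406, .negSucc 497, .ofNat 1237⟩],
[.q ⟨.negSucc 1, .negSucc 77, .ofNat 80, .ofNat 0⟩ ⟨.negSucc 157, .ofNat 78,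
  .ofNat 80, .ofNat 0⟩, .q ⟨.negSucc 0, .ofNat 81, .negSucc 79, .ofNat 0⟩
  ⟨.negSucc 160, .ofNat 81, .ofNat 80, .ofNat 0⟩, .q ⟨.ofNat 158, .negSucc
  77, .negSucc 79, .ofNat 0⟩ ⟨.ofNat 3222, .ofNat 1791, .negSucc 1195,
  .negSucc 3816⟩, .q ⟨.ofNat 161, .negSucc 80, .negSucc 79, .ofNat 0⟩
  ⟨.ofNat 3222, .ofNat 1791, .negSucc 1195, .negSucc 3816⟩, .q ⟨.ofNat 158,
  .negSucc 77, .negSucc 79, .ofNat 0⟩ ⟨.ofNat 622, .negSucc 6089, .ofNat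
  2011, .ofNat 3457⟩, .q ⟨.ofNat 161, .negSucc 80, .negSucc 79, .ofNat 0⟩
  ⟨.ofNat 622, .negSucc 6089, .ofNat 2011, .ofNat 3457⟩, .q ⟨.ofNat 158,
  .negSucc 77, .negSucc 79, .ofNat 0⟩ ⟨.ofNat 3123, .negSucc 942, .ofNat
  1520, .negSucc 3699⟩, .q ⟨.ofNat 161, .negSucc 80, .negSucc 79, .ofNat 0⟩
  ⟨.ofNat 3123, .negSucc 942, .ofNat 1520, .negSucc 3699⟩],
[.q ⟨.negSucc 0, .ofNat 0, .ofNat 0, .ofNat 1⟩ ⟨.negSucc 4204, .ofNat 3979,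
  .ofNat 405, .negSucc 178⟩, .q ⟨.negSucc 0, .ofNat 0, .ofNat 0, .ofNat 1⟩
  ⟨.negSucc 2560, .ofNat 2223, .ofNat 3325, .negSucc 2986⟩, .q ⟨.negSucc 0,
  .ofNat 0, .ofNat 0, .ofNat 1⟩ ⟨.ofNat 3019, .negSucc 2722, .negSucc 2929,
  .ofNat 2634⟩, .q ⟨.negSucc 0, .ofNat 0, .ofNat 0, .ofNat 1⟩ ⟨.negSucc
  2782, .ofNat 2828, .negSucc 2827, .ofNat 2783⟩],
[.q ⟨.negSucc 12, .negSucc 946, .ofNat 960, .ofNat 0⟩ ⟨.negSucc 1906, .ofNat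
  947, .ofNat 960, .ofNat 0⟩, .q ⟨.ofNat 5, .ofNat 955, .negSucc 959, .ofNat
  0⟩ ⟨.negSucc 1914, .ofNat 955, .ofNat 960, .ofNat 0⟩, .q ⟨.ofNat 1907,
  .negSucc 946, .negSucc 959, .ofNat 0⟩ ⟨.ofNat 4036, .ofNat 615, .negSucc
  715, .negSucc 3934⟩, .q ⟨.ofNat 1915, .negSucc 954, .negSucc 959, .ofNat
  0⟩ ⟨.ofNat 4036, .ofNat 615, .negSucc 715, .negSucc 3934⟩, .q ⟨.ofNat
  1907, .negSucc 946, .negSucc 959, .ofNat 0⟩ ⟨.negSucc 501, .ofNat 141,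
  .negSucc 180, .ofNat 542⟩, .q ⟨.ofNat 1915, .negSucc 954, .negSucc 959,
  .ofNat 0⟩ ⟨.negSucc 501, .ofNat 141, .negSucc 180, .ofNat 542⟩, .q ⟨.ofNat
  1907, .negSucc 946, .negSucc 959, .ofNat 0⟩ ⟨.negSucc 3567, .negSucc 1403,
  .ofNat 1137, .ofNat 3835⟩, .q ⟨.ofNat 1915, .negSucc 954, .negSucc 959,
  .ofNat 0⟩ ⟨.negSucc 3567, .negSucc 1403, .ofNat 1137, .ofNat 3835⟩],
[.q ⟨.negSucc 538, .negSucc 420, .ofNat 960, .ofNat 0⟩ ⟨.negSucc 1380,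
  .ofNat 421, .ofNat 960, .ofNat 0⟩, .q ⟨.ofNat 532, .ofNat 428, .negSucc
  959, .ofNat 0⟩ ⟨.negSucc 1387, .ofNat 428, .ofNat 960, .ofNat 0⟩, .q
  ⟨.ofNat 1381, .negSucc 420, .negSucc 959, .ofNat 0⟩ ⟨.negSucc 1155, .ofNat
  1493, .ofNat 2655, .negSucc 2991⟩, .q ⟨.ofNat 1388, .negSucc 427, .negSucc
  959, .ofNat 0⟩ ⟨.negSucc 1155, .ofNat 1493, .ofNat 2655, .negSucc 2991⟩,
  .q ⟨.ofNat 1381, .negSucc 420, .negSucc 959, .ofNat 0⟩ ⟨.ofNat 1242,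
  .negSucc 1578, .negSucc 2654, .ofNat 2992⟩, .q ⟨.ofNat 1388, .negSucc 427,
  .negSucc 959, .ofNat 0⟩ ⟨.ofNat 1242, .negSucc 1578, .negSucc 2654, .ofNat
  2992⟩],
[.q ⟨.negSucc 12, .negSucc 946, .ofNat 960, .ofNat 0⟩ ⟨.negSucc 1906, .ofNat
  947, .ofNat 960, .ofNat 0⟩, .q ⟨.ofNat 5, .ofNat 955, .negSucc 959, .ofNat
  0⟩ ⟨.negSucc 1914, .ofNat 955, .ofNat 960, .ofNat 0⟩, .q ⟨.ofNat 1907,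
  .negSucc 946, .negSucc 959, .ofNat 0⟩ ⟨.ofNat 3217, .ofNat 2409, .negSucc
  2515, .negSucc 3109⟩, .q ⟨.ofNat 1915, .negSucc 954, .negSucc 959, .ofNat
  0⟩ ⟨.ofNat 3217, .ofNat 2409, .negSucc 2515, .negSucc 3109⟩, .q ⟨.ofNat
  1907, .negSucc 946, .negSucc 959, .ofNat 0⟩ ⟨.negSucc 3679, .negSucc 846,
  .ofNat 567, .ofNat 3960⟩, .q ⟨.ofNat 1915, .negSucc 954, .negSucc 959,
  .ofNat 0⟩ ⟨.negSucc 3679, .negSucc 846, .ofNat 567, .ofNat 3960⟩, .q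
  ⟨.ofNat 1907, .negSucc 946, .negSucc 959, .ofNat 0⟩ ⟨.negSucc 3583, .ofNat
  741, .negSucc 1023, .ofNat 3867⟩, .q ⟨.ofNat 1915, .negSucc 954, .negSucc
  959, .ofNat 0⟩ ⟨.negSucc 3583, .ofNat 741, .negSucc 1023, .ofNat 3867⟩],
[.q ⟨.negSucc 268, .negSucc 210, .ofNat 480, .ofNat 0⟩ ⟨.negSucc 690, .ofNat
  211, .ofNat 480, .ofNat 0⟩, .q ⟨.ofNat 265, .ofNat 215, .negSucc 479,
  .ofNat 0⟩ ⟨.negSucc 694, .ofNat 215, .ofNat 480, .ofNat 0⟩, .q ⟨.ofNat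
  691, .negSucc 210, .negSucc 479, .ofNat 0⟩ ⟨.ofNat 12309, .negSucc 6989,
  .negSucc 1696, .negSucc 3621⟩, .q ⟨.ofNat 695, .negSucc 214, .negSucc 479,
  .ofNat 0⟩ ⟨.ofNat 12309, .negSucc 6989, .negSucc 1696, .negSucc 3621⟩, .q
  ⟨.ofNat 691, .negSucc 210, .negSucc 479, .ofNat 0⟩ ⟨.ofNat 29, .negSucc
  275, .negSucc 101, .ofNat 349⟩, .q ⟨.ofNat 695, .negSucc 214, .negSucc
  479, .ofNat 0⟩ ⟨.ofNat 29, .negSucc 275, .negSucc 101, .ofNat 349⟩, .q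
  ⟨.ofNat 691, .negSucc 210, .negSucc 479, .ofNat 0⟩ ⟨.negSucc 1210, .ofNat
  1378, .ofNat 2744, .negSucc 2910⟩, .q ⟨.ofNat 695, .negSucc 214, .negSucc
  479, .ofNat 0⟩ ⟨.negSucc 1210, .ofNat 1378, .ofNat 2744, .negSucc 2910⟩],
[.q ⟨.negSucc 268, .negSucc 210, .ofNat 480, .ofNat 0⟩ ⟨.negSucc 690, .ofNat
  211, .ofNat 480, .ofNat 0⟩, .q ⟨.ofNat 266, .ofNat 214, .negSucc 479,
  .ofNat 0⟩ ⟨.negSucc 693, .ofNat 214, .ofNat 480, .ofNat 0⟩, .q ⟨.ofNat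
  691, .negSucc 210, .negSucc 479, .ofNat 0⟩ ⟨.negSucc 438, .ofNat 981,
  .ofNat 1117, .negSucc 1658⟩, .q ⟨.ofNat 694, .negSucc 213, .negSucc 479,
  .ofNat 0⟩ ⟨.negSucc 438, .ofNat 981, .ofNat 1117, .negSucc 1658⟩, .q
  ⟨.ofNat 691, .negSucc 210, .negSucc 479, .ofNat 0⟩ ⟨.ofNat 456, .negSucc
  1094, .negSucc 1057, .ofNat 1697⟩, .q ⟨.ofNat 694, .negSucc 213, .negSucc
  479, .ofNat 0⟩ ⟨.ofNat 456, .negSucc 1094, .negSucc 1057, .ofNat 1697⟩],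
[.q ⟨.negSucc 0, .ofNat 0, .ofNat 0, .ofNat 1⟩ ⟨.ofNat 91, .negSucc 99,
  .ofNat 0, .ofNat 9⟩, .q ⟨.negSucc 0, .ofNat 0, .ofNat 0, .ofNat 1⟩ ⟨.ofNat
  1083, .negSucc 990, .negSucc 3874, .ofNat 3783⟩, .q ⟨.negSucc 0, .ofNat 0,
  .ofNat 0, .ofNat 1⟩ ⟨.negSucc 575, .ofNat 533, .ofNat 1222, .negSucc
  1178⟩, .q ⟨.negSucc 0, .ofNat 0, .ofNat 0, .ofNat 1⟩ ⟨.ofNat 340, .negSucc
  410, .ofNat 525, .negSucc 453⟩],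
[.q ⟨.negSucc 0, .ofNat 0, .ofNat 0, .ofNat 1⟩ ⟨.negSucc 360, .ofNat 0,
  .ofNat 4000, .negSucc 3638⟩, .q ⟨.negSucc 0, .ofNat 0, .ofNat 0, .ofNat 1⟩
  ⟨.ofNat 2380, .negSucc 2815, .ofNat 2841, .negSucc 2404⟩, .q ⟨.negSucc 0,
  .ofNat 0, .ofNat 0, .ofNat 1⟩ ⟨.ofNat 2895, .negSucc 2827, .negSucc 2827,
  .ofNat 2761⟩, .q ⟨.negSucc 0, .ofNat 0, .ofNat 0, .ofNat 1⟩ ⟨.negSucc
  5820, .ofNat 0, .negSucc 1999, .ofNat 7821⟩, .q ⟨.negSucc 0, .ofNat 0,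
  .ofNat 0, .ofNat 1⟩ ⟨.negSucc 3063, .ofNat 2987, .ofNat 2660, .negSucc
  2582⟩],
[.q ⟨.negSucc 537, .negSucc 421, .ofNat 960, .ofNat 0⟩ ⟨.negSucc 1381,
  .ofNat 422, .ofNat 960, .ofNat 0⟩, .q ⟨.ofNat 529, .ofNat 431, .negSucc
  959, .ofNat 0⟩ ⟨.negSucc 1390, .ofNat 431, .ofNat 960, .ofNat 0⟩, .q
  ⟨.ofNat 1382, .negSucc 421, .negSucc 959, .ofNat 0⟩ ⟨.ofNat 113, .ofNat
  887, .ofNat 0, .negSucc 999⟩, .q ⟨.ofNat 1391, .negSucc 430, .negSucc 959,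
  .ofNat 0⟩ ⟨.ofNat 113, .ofNat 887, .ofNat 0, .negSucc 999⟩, .q ⟨.ofNat
  1382, .negSucc 421, .negSucc 959, .ofNat 0⟩ ⟨.ofNat 561, .negSucc 2721,
  .negSucc 1532, .ofNat 3694⟩, .q ⟨.ofNat 1391, .negSucc 430, .negSucc 959,
  .ofNat 0⟩ ⟨.ofNat 561, .negSucc 2721, .negSucc 1532, .ofNat 3694⟩],
[.q ⟨.negSucc 537, .negSucc 421, .ofNat 960, .ofNat 0⟩ ⟨.negSucc 1381,
  .ofNat 422, .ofNat 960, .ofNat 0⟩, .q ⟨.ofNat 529, .ofNat 431, .negSucc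
  959, .ofNat 0⟩ ⟨.negSucc 1390, .ofNat 431, .ofNat 960, .ofNat 0⟩, .q
  ⟨.ofNat 1382, .negSucc 421, .negSucc 959, .ofNat 0⟩ ⟨.negSucc 381, .ofNat
  1071, .ofNat 1027, .negSucc 1715⟩, .q ⟨.ofNat 1391, .negSucc 430, .negSucc
  959, .ofNat 0⟩ ⟨.negSucc 381, .ofNat 1071, .ofNat 1027, .negSucc 1715⟩, .q
  ⟨.ofNat 1382, .negSucc 421, .negSucc 959, .ofNat 0⟩ ⟨.ofNat 437, .negSucc
  1125, .negSucc 1026, .ofNat 1716⟩, .q ⟨.ofNat 1391, .negSucc 430, .negSucc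
  959, .ofNat 0⟩ ⟨.ofNat 437, .negSucc 1125, .negSucc 1026, .ofNat 1716⟩],
[.q ⟨.negSucc 264, .negSucc 214, .ofNat 480, .ofNat 0⟩ ⟨.negSucc 694, .ofNat
  215, .ofNat 480, .ofNat 0⟩, .q ⟨.ofNat 257, .ofNat 223, .negSucc 479,
  .ofNat 0⟩ ⟨.negSucc 702, .ofNat 223, .ofNat 480, .ofNat 0⟩, .q ⟨.ofNat
  695, .negSucc 214, .negSucc 479, .ofNat 0⟩ ⟨.ofNat 117, .ofNat 883, .ofNat
  0, .negSucc 999⟩, .q ⟨.ofNat 703, .negSucc 222, .negSucc 479, .ofNat 0⟩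
  ⟨.ofNat 117, .ofNat 883, .ofNat 0, .negSucc 999⟩, .q ⟨.ofNat 695, .negSucc
  214, .negSucc 479, .ofNat 0⟩ ⟨.negSucc 148, .negSucc 1850, .ofNat 0,
  .ofNat 2000⟩, .q ⟨.ofNat 703, .negSucc 222, .negSucc 479, .ofNat 0⟩
  ⟨.negSucc 148, .negSucc 1850, .ofNat 0, .ofNat 2000⟩],
[.q ⟨.negSucc 132, .negSucc 106, .ofNat 240, .ofNat 0⟩ ⟨.negSucc 346, .ofNat
  107, .ofNat 240, .ofNat 0⟩, .q ⟨.ofNat 128, .ofNat 112, .negSucc 239,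
  .ofNat 0⟩ ⟨.negSucc 351, .ofNat 112, .ofNat 240, .ofNat 0⟩, .q ⟨.ofNat
  347, .negSucc 106, .negSucc 239, .ofNat 0⟩ ⟨.ofNat 93, .ofNat 707, .ofNat
  0, .negSucc 799⟩, .q ⟨.ofNat 352, .negSucc 111, .negSucc 239, .ofNat 0⟩
  ⟨.ofNat 93, .ofNat 707, .ofNat 0, .negSucc 799⟩, .q ⟨.ofNat 347, .negSucc
  106, .negSucc 239, .ofNat 0⟩ ⟨.ofNat 383, .negSucc 1198, .negSucc 945,
  .ofNat 1762⟩, .q ⟨.ofNat 352, .negSucc 111, .negSucc 239, .ofNat 0⟩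
  ⟨.ofNat 383, .negSucc 1198, .negSucc 945, .ofNat 1762⟩],
[.q ⟨.negSucc 2, .negSucc 476, .ofNat 480, .ofNat 0⟩ ⟨.negSucc 956, .ofNat
  477, .ofNat 480, .ofNat 0⟩, .q ⟨.negSucc 1, .ofNat 482, .negSucc 479,
  .ofNat 0⟩ ⟨.negSucc 961, .ofNat 482, .ofNat 480, .ofNat 0⟩, .q ⟨.ofNat
  957, .negSucc 476, .negSucc 479, .ofNat 0⟩ ⟨.ofNat 4016, .ofNat 797,
  .negSucc 919, .negSucc 3892⟩, .q ⟨.ofNat 962, .negSucc 481, .negSucc 479,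
  .ofNat 0⟩ ⟨.ofNat 4016, .ofNat 797, .negSucc 919, .negSucc 3892⟩, .q
  ⟨.ofNat 957, .negSucc 476, .negSucc 479, .ofNat 0⟩ ⟨.negSucc 3364,
  .negSucc 1975, .ofNat 1738, .ofNat 3603⟩, .q ⟨.ofNat 962, .negSucc 481,
  .negSucc 479, .ofNat 0⟩ ⟨.negSucc 3364, .negSucc 1975, .ofNat 1738, .ofNat
  3603⟩],
[.l ⟨.ofNat 0, .ofNat 960, .ofNat 0, .negSucc 850⟩ ⟨.ofNat 0, .ofNat 960,
  .ofNat 0, .ofNat 851⟩, .l ⟨.ofNat 0, .negSucc 959, .ofNat 0, .ofNat 859⟩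
  ⟨.ofNat 0, .ofNat 960, .ofNat 0, .ofNat 859⟩, .l ⟨.ofNat 0, .ofNat 960,
  .ofNat 0, .negSucc 850⟩ ⟨.ofNat 0, .ofNat 0, .ofNat 4000, .ofNat 2057⟩, .l
  ⟨.ofNat 0, .ofNat 960, .ofNat 0, .negSucc 858⟩ ⟨.ofNat 0, .ofNat 0, .ofNat
  4000, .ofNat 2057⟩, .l ⟨.ofNat 0, .ofNat 960, .ofNat 0, .negSucc 850⟩
  ⟨.ofNat 0, .ofNat 215, .negSucc 388, .negSucc 132⟩, .l ⟨.ofNat 0, .ofNat
  960, .ofNat 0, .negSucc 858⟩ ⟨.ofNat 0, .ofNat 215, .negSucc 388, .negSucc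
  132⟩],
[.l ⟨.ofNat 0, .ofNat 60, .ofNat 0, .negSucc 51⟩ ⟨.ofNat 0, .ofNat 60,
  .ofNat 0, .ofNat 52⟩, .l ⟨.ofNat 0, .negSucc 59, .ofNat 0, .ofNat 53⟩
  ⟨.ofNat 0, .ofNat 60, .ofNat 0, .ofNat 53⟩, .l ⟨.ofNat 0, .ofNat 60,
  .ofNat 0, .negSucc 51⟩ ⟨.ofNat 0, .ofNat 2412, .ofNat 3191, .negSucc
  7021⟩, .l ⟨.ofNat 0, .ofNat 60, .ofNat 0, .negSucc 52⟩ ⟨.ofNat 0, .ofNat
  2412, .ofNat 3191, .negSucc 7021⟩, .l ⟨.ofNat 0, .ofNat 60, .ofNat 0,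
  .negSucc 51⟩ ⟨.ofNat 0, .negSucc 892, .negSucc 3898, .negSucc 4475⟩, .l
  ⟨.ofNat 0, .ofNat 60, .ofNat 0, .negSucc 52⟩ ⟨.ofNat 0, .negSucc 892,
  .negSucc 3898, .negSucc 4475⟩, .l ⟨.ofNat 0, .ofNat 60, .ofNat 0, .negSucc
  51⟩ ⟨.ofNat 0, .ofNat 1248, .ofNat 3800, .ofNat 4505⟩, .l ⟨.ofNat 0,
  .ofNat 60, .ofNat 0, .negSucc 52⟩ ⟨.ofNat 0, .ofNat 1248, .ofNat 3800,
  .ofNat 4505⟩],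
[.l ⟨.ofNat 0, .ofNat 480, .ofNat 0, .negSucc 416⟩ ⟨.ofNat 0, .ofNat 480,
  .ofNat 0, .ofNat 417⟩, .l ⟨.ofNat 0, .negSucc 479, .ofNat 0, .ofNat 424⟩
  ⟨.ofNat 0, .ofNat 480, .ofNat 0, .ofNat 424⟩, .l ⟨.ofNat 0, .ofNat 480,
  .ofNat 0, .negSucc 416⟩ ⟨.ofNat 0, .ofNat 2285, .ofNat 3283, .ofNat 4950⟩,
  .l ⟨.ofNat 0, .ofNat 480, .ofNat 0, .negSucc 423⟩ ⟨.ofNat 0, .ofNat 2285,
  .ofNat 3283, .ofNat 4950⟩, .l ⟨.ofNat 0, .ofNat 480, .ofNat 0, .negSucc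
  416⟩ ⟨.ofNat 0, .negSucc 2284, .negSucc 3282, .negSucc 5492⟩, .l ⟨.ofNat
  0, .ofNat 480, .ofNat 0, .negSucc 423⟩ ⟨.ofNat 0, .negSucc 2284, .negSucc
  3282, .negSucc 5492⟩, .l ⟨.ofNat 0, .ofNat 480, .ofNat 0, .negSucc 416⟩
  ⟨.ofNat 0, .negSucc 733, .ofNat 1113, .ofNat 356⟩, .l ⟨.ofNat 0, .ofNat
  480, .ofNat 0, .negSucc 423⟩ ⟨.ofNat 0, .negSucc 733, .ofNat 1113, .ofNat
  356⟩],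
[.l ⟨.ofNat 0, .ofNat 80, .ofNat 0, .negSucc 69⟩ ⟨.ofNat 0, .ofNat 80,
  .ofNat 0, .ofNat 70⟩, .l ⟨.ofNat 0, .negSucc 79, .ofNat 0, .ofNat 73⟩
  ⟨.ofNat 0, .ofNat 80, .ofNat 0, .ofNat 73⟩, .l ⟨.ofNat 0, .ofNat 80,
  .ofNat 0, .negSucc 69⟩ ⟨.ofNat 0, .negSucc 568, .ofNat 3959, .ofNat 3030⟩,
  .l ⟨.ofNat 0, .ofNat 80, .ofNat 0, .negSucc 72⟩ ⟨.ofNat 0, .negSucc 568,
  .ofNat 3959, .ofNat 3030⟩, .l ⟨.ofNat 0, .ofNat 80, .ofNat 0, .negSucc 69⟩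
  ⟨.ofNat 0, .negSucc 491, .negSucc 3969, .negSucc 4678⟩, .l ⟨.ofNat 0,
  .ofNat 80, .ofNat 0, .negSucc 72⟩ ⟨.ofNat 0, .negSucc 491, .negSucc 3969,
  .negSucc 4678⟩, .l ⟨.ofNat 0, .ofNat 80, .ofNat 0, .negSucc 69⟩ ⟨.ofNat 0,
  .ofNat 1427, .ofNat 1401, .ofNat 2519⟩, .l ⟨.ofNat 0, .ofNat 80, .ofNat 0,
  .negSucc 72⟩ ⟨.ofNat 0, .ofNat 1427, .ofNat 1401, .ofNat 2519⟩],
[.l ⟨.ofNat 0, .ofNat 480, .ofNat 0, .negSucc 426⟩ ⟨.ofNat 0, .ofNat 480,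
  .ofNat 0, .ofNat 427⟩, .l ⟨.ofNat 0, .negSucc 479, .ofNat 0, .ofNat 434⟩
  ⟨.ofNat 0, .ofNat 480, .ofNat 0, .ofNat 434⟩, .l ⟨.ofNat 0, .ofNat 480,
  .ofNat 0, .negSucc 426⟩ ⟨.ofNat 0, .negSucc 84, .ofNat 3999, .ofNat 3461⟩,
  .l ⟨.ofNat 0, .ofNat 480, .ofNat 0, .negSucc 433⟩ ⟨.ofNat 0, .negSucc 84,
  .ofNat 3999, .ofNat 3461⟩, .l ⟨.ofNat 0, .ofNat 480, .ofNat 0, .negSucc
  426⟩ ⟨.ofNat 0, .ofNat 85, .negSucc 3998, .negSucc 15471⟩, .l ⟨.ofNat 0,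
  .ofNat 480, .ofNat 0, .negSucc 433⟩ ⟨.ofNat 0, .ofNat 85, .negSucc 3998,
  .negSucc 15471⟩, .l ⟨.ofNat 0, .ofNat 480, .ofNat 0, .negSucc 426⟩ ⟨.ofNat
  0, .ofNat 349, .ofNat 568, .ofNat 816⟩, .l ⟨.ofNat 0, .ofNat 480, .ofNat
  0, .negSucc 433⟩ ⟨.ofNat 0, .ofNat 349, .ofNat 568, .ofNat 816⟩, .l
  ⟨.ofNat 0, .ofNat 480, .ofNat 0, .negSucc 426⟩ ⟨.ofNat 0, .negSucc 2630,
  .negSucc 3012, .negSucc 5199⟩, .l ⟨.ofNat 0, .ofNat 480, .ofNat 0,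
  .negSucc 433⟩ ⟨.ofNat 0, .negSucc 2630, .negSucc 3012, .negSucc 5199⟩],
[.l ⟨.ofNat 0, .negSucc 2811, .negSucc 2844, .ofNat 5785⟩ ⟨.ofNat 0, .ofNat
  0, .ofNat 0, .ofNat 1⟩, .l ⟨.ofNat 0, .ofNat 3401, .negSucc 2105, .negSucc
  1837⟩ ⟨.ofNat 0, .ofNat 0, .ofNat 0, .ofNat 1⟩, .l ⟨.ofNat 0, .ofNat 1742,
  .ofNat 3601, .ofNat 3541⟩ ⟨.ofNat 0, .ofNat 0, .ofNat 0, .ofNat 1⟩, .l
  ⟨.ofNat 0, .negSucc 3575, .ofNat 1792, .ofNat 1679⟩ ⟨.ofNat 0, .ofNat 0,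
  .ofNat 0, .ofNat 1⟩]]

theorem ENTab_B : tabB ENTab = true := by decide +kernel

end Pool.Agent.TET.Cvr
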