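import Pool.Agent.Helper37_TET.ESBt

/-!
# MP_c7c9bf_co: cover of the charts, root 0 part 0
-/

set_option autoImplicit false
set_option maxRecDepth 100000

namespace Pool.Agent.TET.Cvr

theorem ES0_c0 : CoF ESTab ⟨⟨2054, 1936, 40000⟩, ⟨1694, 360, 20000⟩, ⟨3388,
  1936, 40000⟩, ⟨0, 1⟩, ⟨2, 1⟩, ⟨1, 0, 0⟩, ⟨0, 1, 0⟩, ⟨0, 1, 1⟩⟩ :=
CoF.ofG ESTab_B ESBt_E ESBt_U (.B 0 1 2 (.B 2 1 1 (.B 1 1 2 (.C 0 2 8 1 (.T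
  1 1 (.T 2 1 (.T 4 1 (.C 1 2 4 1 (.T 8 1 (.T 16 1 (.T 32 1 (.C 0 2 32 1 (.L
  230) (.L 71)) (.C 1 2 8 1 (.L 6) (.C 1 2 1 2 (.C 1 2 2 1 (.L 6) (.L 235))
  (.O 4)))) (.C 1 2 8 1 (.L 6) (.T 1 2 (.C 1 2 1 2 (.C 0 1 64 1 (.C 0 2 128
  1 (.L 1) (.G 424 184 0 8388607 4194304 4194304 [.n, .n, .n, .n, .g 1 93 0
  0, .g 1 98 0 0, .n, .n, .g 3 61 0 0, .g 3 67 0 0])) (.G 75 1 1 1166593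
  583296 1166593 [.g 64 17 0 0, .n, .n, .n, .g 64 5 0 0])) (.L 146)) (.L
  118)))) (.B 1 2 1 (.L 9) (.L 370))) (.C 1 2 1 2 (.C 1 2 2 1 (.T 8 1 (.L
  88) (.T 1 2 (.L 88) (.L 277))) (.L 93)) (.L 159))) (.L 18)) (.L 5)) (.C 0
  1 4 1 (.T 1 2 (.T 2 1 (.L 2) (.C 1 2 2 1 (.L 2) (.L 14))) (.T 1 4 (.C 1 2
  2 1 (.L 3) (.C 1 2 1 2 (.L 3) (.L 8))) (.C 0 1 8 1 (.C 1 2 1 1 (.T 1 8 (.C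
  1 2 2 1 (.L 3) (.L 31)) (.C 1 2 2 1 (.T 1 16 (.L 194) (.C 1 2 4 1 (.C 1 2
  8 1 (.L 232) (.T 1 32 (.L 45) (.O 4))) (.O 4))) (.O 4))) (.O 4)) (.G 64
  485 3 73 37 73 [.g 1024 1 0 0, .n, .g 32 17 0 0, .g 64 45 0 0, .n, .n]))))
  (.T 1 2 (.C 1 2 4 1 (.L 2) (.G 254 2 3 3 13 7 [.n, .g 64 35 0 0, .n, .n,
  .n])) (.L 68)))) (.T 1 1 (.C 1 2 2 1 (.T 2 1 (.C 0 1 1 4 (.T 4 1 (.C 0 1 2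
  1 (.L 239) (.C 0 1 1 2 (.L 93) (.T 8 1 (.L 88) (.T 1 2 (.L 88) (.L 50)))))
  (.G 44 98 4 1 1 1 [.n, .g 1 1 4315 0, .n, .n])) (.T 4 1 (.C 0 1 1 8 (.C 0
  2 1 2 (.T 8 1 (.C 0 1 2 1 (.G 161 184 0 22119 88476 44238 [.g 8 21 0 0, .g
  64 51 0 0, .n, .n]) (.L 67)) (.T 1 2 (.G 9 145 0 29 57 57 [.n, .n, .n, .g
  11 32 0 0]) (.L 357))) (.L 67)) (.L 67)) (.L 44))) (.T 1 2 (.L 58) (.L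
  12))) (.T 2 1 (.L 15) (.C 0 1 1 1 (.L 12) (.G 115 42 0 1 1 1 [.n, .g 23 63
  0 0, .n, .g 1 0 1115 0, .n])))) (.C 0 1 1 4 (.G 109 296 1 1 1 1 [.n, .n,
  .n, .g 4 1 0 0, .n]) (.T 1 2 (.T 2 1 (.L 4) (.L 23)) (.L 30))))) (.B 2 2 1
  (.L 421) (.C 0 2 8 1 (.T 1 1 (.T 2 1 (.T 4 1 (.T 8 1 (.C 1 2 4 1 (.C 1 2 8
  1 (.T 16 1 (.T 32 1 (.C 0 2 64 1 (.L 157) (.L 71)) (.L 6)) (.L 6)) (.T 16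
  1 (.C 1 2 1 2 (.C 1 2 2 1 (.L 36) (.L 235)) (.O 4)) (.T 1 2 (.C 1 2 1 2
  (.T 2 1 (.C 1 2 2 1 (.L 6) (.C 1 2 1 2 (.C 1 2 2 1 (.T 4 1 (.L 184) (.C 1
  2 4 1 (.C 0 1 256 1 (.C 0 2 2048 1 (.L 16) (.G 85 293 1 8388607 1048576
  4194304 [.g 32 9 0 0, .n, .n, .n, .n, .n])) (.G 453 203 0 109744 54872
  438976 [.n, .g 49 64 0 0, .n, .n, .n, .n, .n, .n])) (.L 184))) (.L 184))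
  (.L 146))) (.L 132)) (.L 146)) (.L 7)))) (.C 1 2 1 2 (.L 88) (.O 4))) (.L
  7)) (.L 18)) (.L 5)) (.C 0 1 4 1 (.T 1 2 (.T 2 1 (.L 2) (.C 1 2 2 1 (.L 2)
  (.L 14))) (.T 1 4 (.C 1 2 2 1 (.L 3) (.C 1 2 1 2 (.L 3) (.L 8))) (.C 0 2
  16 1 (.C 1 2 4 1 (.T 1 8 (.L 3) (.C 1 2 8 1 (.L 444) (.T 1 16 (.L 316) (.T
  1 32 (.C 1 2 1 2 (.L 45) (.O 4)) (.O 4))))) (.C 1 2 1 2 (.T 1 8 (.L 22)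
  (.T 1 16 (.C 1 2 2 1 (.L 31) (.O 4)) (.O 4))) (.L 8))) (.G 389 325 2 1 1 1
  [.n, .g 2 0 4753 0, .n, .n])))) (.T 1 2 (.C 1 2 4 1 (.L 2) (.G 2 65 1 4 15
  7 [.n, .n, .n, .g 1 0 2043 0])) (.L 68)))) (.T 1 1 (.C 1 2 2 1 (.T 2 1 (.C
  0 1 1 4 (.T 4 1 (.G 256 7 0 35682 71364 35682 [.n, .n, .n, .n, .g 23 63 28
  0, .g 16 15 0 0]) (.G 86 224 2 1 1 1 [.g 2 1 3947 0, .n, .n, .n, .n])) (.C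
  0 2 1 2 (.T 4 1 (.C 0 1 1 8 (.T 8 1 (.G 178 235 0 12 24 24 [.n, .n, .n, .g
  8 7 0 0]) (.L 7)) (.L 67)) (.L 44)) (.L 20))) (.T 1 2 (.L 58) (.L 12)))
  (.T 2 1 (.L 15) (.G 11 149 2 1 1 1 [.n, .g 2 21 0 0, .n, .g 5 2 4366 0, .g
  64 55 0 0]))) (.C 0 1 1 4 (.G 41 296 1 1 1 1 [.n, .n, .n, .n, .g 32 9 0
  0]) (.T 1 2 (.T 2 1 (.L 4) (.L 23)) (.L 30))))))) (.B 0 2 1 (.C 0 2 8 1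
  (.T 1 1 (.T 2 1 (.T 4 1 (.T 8 1 (.C 1 2 4 1 (.T 16 1 (.T 32 1 (.C 0 2 32 1
  (.L 230) (.L 71)) (.C 0 2 32 1 (.L 1) (.C 0 2 1 2 (.L 1) (.C 0 2 1 4 (.L
  1) (.L 248))))) (.C 1 2 8 1 (.L 6) (.T 1 2 (.C 1 2 1 2 (.C 0 1 64 1 (.C 0
  2 128 1 (.L 1) (.G 424 184 0 8388607 4194304 4194304 [.n, .n, .n, .n, .g 1
  94 0 0, .g 1 99 0 0, .n, .n, .g 3 62 0 0, .g 3 67 0 0])) (.G 75 1 1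
  1212865 606433 1212865 [.g 64 17 0 0, .n, .n, .n, .g 64 5 0 0])) (.L 146))
  (.L 118)))) (.C 1 2 1 2 (.L 88) (.O 4))) (.L 9)) (.L 18)) (.L 5)) (.C 0 1
  4 1 (.T 1 2 (.T 2 1 (.L 2) (.C 1 2 2 1 (.L 2) (.L 14))) (.T 1 4 (.C 1 2 2
  1 (.L 3) (.C 1 2 1 2 (.L 3) (.L 8))) (.C 0 1 8 1 (.C 1 2 1 1 (.T 1 8 (.C 1
  2 2 1 (.L 3) (.C 1 2 1 2 (.L 22) (.L 8))) (.C 1 2 2 1 (.T 1 16 (.L 31) (.C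
  1 2 4 1 (.C 1 2 8 1 (.L 46) (.T 1 32 (.L 45) (.O 4))) (.O 4))) (.O 4)))
  (.O 4)) (.L 40)))) (.T 1 2 (.C 1 2 4 1 (.L 2) (.G 216 254 1 2 9 5 [.n, .g
  4 21 0 0, .n, .n])) (.L 68)))) (.T 1 1 (.C 1 2 2 1 (.T 2 1 (.T 4 1 (.C 0 1
  1 4 (.G 237 9 0 2974 5948 2974 [.n, .g 32 0 17 0, .n, .g 8 7 0 0, .n, .n])
  (.C 0 1 1 8 (.C 0 2 1 2 (.T 8 1 (.C 0 1 2 1 (.G 261 233 0 6189 24755 12378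
  [.n, .g 64 51 0 0, .g 64 37 0 0, .n]) (.L 67)) (.L 9)) (.L 67)) (.L 10)))
  (.G 434 126 2 1 1 1 [.g 2 1 3484 0, .n, .n, .n])) (.T 1 2 (.L 56) (.L
  12))) (.T 2 1 (.L 15) (.T 1 2 (.L 15) (.L 12)))) (.C 0 1 1 4 (.G 2 103 3
  32 65 16 [.n, .g 32 5 0 0, .g 8 3 0 0, .g 64 17 0 0]) (.T 1 2 (.T 2 1 (.L
  4) (.L 23)) (.L 30))))) (.C 0 2 8 1 (.T 1 1 (.T 2 1 (.T 4 1 (.T 8 1 (.C 1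
  2 4 1 (.T 16 1 (.T 32 1 (.C 0 2 32 1 (.L 230) (.L 71)) (.C 0 2 32 1 (.L 1)
  (.C 0 2 1 2 (.L 1) (.C 0 2 1 4 (.L 1) (.L 248))))) (.C 1 2 8 1 (.L 6) (.T
  1 2 (.C 1 2 1 2 (.C 0 1 64 1 (.C 0 2 128 1 (.L 1) (.G 424 184 0 8388607
  4194304 4194304 [.n, .n, .n, .n, .g 1 93 0 0, .g 1 99 0 0, .n, .n, .g 3 62
  0 0, .g 3 67 0 0])) (.G 75 1 1 1212865 606433 1212865 [.g 64 17 0 0, .n,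
  .n, .n, .g 64 5 0 0])) (.L 146)) (.L 118)))) (.C 1 2 1 2 (.L 88) (.O 4)))
  (.L 9)) (.L 18)) (.L 5)) (.C 0 1 4 1 (.T 1 2 (.T 2 1 (.L 2) (.C 1 2 2 1
  (.L 2) (.L 14))) (.T 1 4 (.C 1 2 2 1 (.L 3) (.C 1 2 1 2 (.L 3) (.L 8)))
  (.C 0 1 8 1 (.C 1 2 1 1 (.C 1 2 2 1 (.T 1 8 (.L 3) (.T 1 16 (.L 194) (.C 1
  2 4 1 (.C 1 2 8 1 (.L 232) (.T 1 32 (.L 45) (.O 4))) (.O 4)))) (.T 1 8 (.L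
  31) (.O 4))) (.O 4)) (.L 173)))) (.T 1 2 (.C 1 2 4 1 (.L 2) (.G 2 254 1 3
  12 6 [.n, .n, .n, .g 64 25 0 0])) (.L 68)))) (.T 1 1 (.C 1 2 2 1 (.T 2 1
  (.C 0 1 1 4 (.T 4 1 (.G 352 9 0 2974 5948 2974 [.n, .n, .n, .g 64 0 33 0,
  .n, .g 64 55 0 0]) (.G 86 224 2 1 1 1 [.g 5 1 8268 0, .n, .n, .n, .n]))
  (.C 0 2 1 2 (.C 0 1 1 8 (.T 4 1 (.T 8 1 (.C 0 1 2 1 (.C 1 2 1 2 (.G 145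
  233 0 38036 152146 304292 [.n, .g 5 9 0 0, .g 23 64 0 0, .n]) (.L 88)) (.L
  67)) (.L 9)) (.L 51)) (.L 20)) (.L 20))) (.T 1 2 (.L 56) (.L 12))) (.T 2 1
  (.L 15) (.T 1 2 (.L 15) (.L 12)))) (.C 0 1 1 4 (.G 296 82 2 1 1 1 [.n, .g
  25 63 0 0, .n, .n]) (.T 1 2 (.T 2 1 (.L 4) (.L 23)) (.L 30))))))) (.B 1 2
  1 (.B 0 1 4 (.B 2 1 1 (.L 97) (.B 0 2 1 (.B 2 1 2 (.L 97) (.B 0 4 1 (.B 2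
  1 4 (.L 97) (.B 0 8 1 (.B 0 16 1 (.C 0 2 8 1 (.T 1 1 (.T 2 1 (.T 4 1 (.T 8
  1 (.C 1 2 4 1 (.T 16 1 (.T 32 1 (.L 71) (.C 0 2 32 1 (.L 1) (.G 1 107 3
  476 30 238 [.n, .g 10 5 1022 0, .n, .n, .n, .n]))) (.C 1 2 8 1 (.L 6) (.T
  1 2 (.C 1 2 1 2 (.C 0 1 64 1 (.C 0 2 128 1 (.L 1) (.G 1 54 0 4203666
  2101833 2101833 [.n, .g 1 23 0 0, .n, .n, .n, .n])) (.G 1 217 3 1211755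
  605877 1211755 [.n, .g 4 31 0 0, .n, .n, .n, .n])) (.L 54)) (.L 249))))
  (.C 1 2 1 2 (.L 54) (.O 4))) (.L 9)) (.C 0 2 16 1 (.L 18) (.L 39))) (.L
  5)) (.T 1 2 (.T 2 1 (.L 2) (.C 1 2 4 1 (.L 2) (.C 1 2 1 2 (.L 2) (.L
  14)))) (.C 0 1 4 1 (.T 1 4 (.C 1 2 2 1 (.L 3) (.C 1 2 1 2 (.L 3) (.L 8)))
  (.C 0 2 16 1 (.C 1 2 4 1 (.C 1 2 8 1 (.L 94) (.T 1 8 (.L 3) (.T 1 16 (.L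
  232) (.T 1 32 (.L 94) (.O 4))))) (.C 1 2 1 2 (.T 1 8 (.L 3) (.T 1 16 (.C 1
  2 2 1 (.L 94) (.O 4)) (.O 4))) (.L 8))) (.L 186))) (.L 68)))) (.T 1 1 (.C
  1 2 2 1 (.T 2 1 (.G 224 272 3 1 1 1 [.n, .n, .g 1 20 1544 0, .g 5 34 262
  0, .n]) (.T 1 2 (.L 56) (.L 12))) (.T 2 1 (.L 15) (.G 306 149 2 1 1 1 [.g
  1 1 831 0, .n, .g 2 11 0 0, .g 64 47 0 0, .g 3 1 936 0]))) (.C 0 1 1 4 (.L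
  41) (.T 1 2 (.T 2 1 (.L 4) (.L 23)) (.L 30))))) (.L 112)) (.L 97))) (.L
  97))) (.L 97))) (.L 97)) (.B 2 2 1 (.L 97) (.B 0 1 1 (.B 0 2 1 (.B 2 1 2
  (.L 466) (.B 0 4 1 (.C 0 2 8 1 (.T 1 1 (.T 2 1 (.T 4 1 (.T 8 1 (.C 1 2 4 1
  (.T 16 1 (.T 32 1 (.L 71) (.C 0 2 32 1 (.L 1) (.G 1 107 3 464 29 232 [.n,
  .g 39 18 4081 0, .n, .n, .n, .n]))) (.C 1 2 8 1 (.L 6) (.T 1 2 (.C 1 2 1 2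
  (.C 0 1 64 1 (.C 0 2 128 1 (.L 1) (.G 1 54 0 4183022 2091511 2091511 [.n,
  .g 1 23 0 0, .n, .n, .n, .n])) (.G 1 348 3 1012 506 1012 [.n, .g 64 25 0
  0, .n, .n, .n, .n])) (.L 54)) (.L 223)))) (.C 1 2 1 2 (.L 54) (.O 4))) (.L
  9)) (.L 18)) (.L 5)) (.T 1 2 (.T 2 1 (.L 2) (.C 1 2 4 1 (.L 2) (.C 1 2 1 2
  (.L 2) (.L 14)))) (.C 0 1 4 1 (.T 1 4 (.C 1 2 2 1 (.L 3) (.C 1 2 1 2 (.L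
  3) (.L 8))) (.C 0 2 16 1 (.C 1 2 4 1 (.C 1 2 8 1 (.L 94) (.T 1 8 (.L 3)
  (.T 1 16 (.L 232) (.T 1 32 (.L 505) (.O 4))))) (.C 1 2 1 2 (.T 1 8 (.L 3)
  (.T 1 16 (.C 1 2 2 1 (.L 94) (.O 4)) (.O 4))) (.L 8))) (.L 186))) (.L
  68)))) (.T 1 1 (.C 1 2 2 1 (.T 2 1 (.C 0 1 1 4 (.T 4 1 (.C 0 1 2 1 (.L
  239) (.C 0 1 1 2 (.L 54) (.T 8 1 (.L 54) (.L 9)))) (.G 50 98 4 1 1 1 [.n,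
  .g 3 1 4323 0, .n, .n, .n])) (.C 0 2 1 2 (.T 4 1 (.C 0 1 1 8 (.C 0 2 2 1
  (.G 377 107 3 1 1 1 [.g 1 41 0 0, .n, .n, .g 2 65 0 0]) (.L 67)) (.L 101))
  (.L 44)) (.L 67))) (.T 1 2 (.L 56) (.L 12))) (.T 2 1 (.L 15) (.G 306 149 2
  1 1 1 [.g 1 1 831 0, .n, .g 12 65 0 0, .g 64 47 0 0, .g 3 1 936 0]))) (.C
  0 1 1 4 (.L 41) (.T 1 2 (.T 2 1 (.L 4) (.L 23)) (.L 30))))) (.L 466))) (.L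
  97)) (.L 97))))) (by decide +kernel)

theorem ES0_c1 : CoF ESTab ⟨⟨5442, 5088, 80000⟩, ⟨3388, 1936, 40000⟩, ⟨1694,
  1576, 20000⟩, ⟨0, 1⟩, ⟨2, 1⟩, ⟨1, 0, 0⟩, ⟨0, 1, 0⟩, ⟨0, 1, 1⟩⟩ :=
CoF.ofG ESTab_B ESBt_E ESBt_U (.B 1 1 2 (.B 0 1 2 (.C 0 2 8 1 (.T 1 1 (.T 2
  1 (.T 4 1 (.T 8 1 (.C 1 2 4 1 (.C 1 2 8 1 (.L 6) (.C 0 1 64 1 (.C 0 2 32 1
  (.L 1) (.G 164 1 1 363441 726882 181721 [.g 64 17 6 0, .g 256 77 25 0, .n,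
  .n, .n])) (.C 0 2 1 4 (.C 0 1 1 2 (.L 1) (.C 0 1 1 4 (.L 1) (.C 1 2 4 1
  (.C 1 2 8 1 (.L 6) (.L 1)) (.L 1)))) (.C 0 1 1 4 (.C 0 2 1 8 (.L 1) (.C 1
  2 1 16 (.G 338 1 1 2 2 3 [.g 123 5 65772 0, .n, .n, .n, .g 3 1 290777 0,
  .g 3 1 282916 0, .n, .n]) (.G 91 113 0 608383 1216766 38024 [.g 64 0 31 0,
  .n, .n, .g 64 0 1 0]))) (.T 16 1 (.C 0 1 1 8 (.C 0 2 1 16 (.G 228 1 1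
  667012 1334023 1334023 [.n, .n, .g 32 17 1 0, .n, .n]) (.L 205)) (.L 205))
  (.C 1 2 1 2 (.C 0 1 1 8 (.C 0 2 1 4 (.G 1 75 0 463006 926012 926012 [.n,
  .g 41 65 0 0, .n, .n, .n, .n]) (.L 62)) (.L 166)) (.C 0 1 1 4 (.G 122 187
  1 1 1 1 [.n, .n, .n, .n, .n, .g 2 5 1191 0]) (.G 141 134 3 139 17 4 [.n,
  .g 55 64 0 0, .g 25 3 16167 0])))))))) (.C 1 2 1 2 (.L 13) (.O 4))) (.L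
  7)) (.L 52)) (.L 5)) (.C 0 1 4 1 (.T 1 2 (.T 2 1 (.L 4) (.C 1 2 2 1 (.L 2)
  (.L 14))) (.C 0 1 8 1 (.C 1 2 1 1 (.T 1 4 (.L 3) (.T 1 8 (.C 1 2 2 1 (.L
  3) (.T 2 1 (.L 3) (.L 322))) (.C 1 2 2 1 (.T 1 16 (.L 31) (.C 1 2 4 1 (.C
  1 2 8 1 (.L 45) (.T 1 32 (.L 45) (.O 4))) (.O 4))) (.O 4)))) (.L 24)) (.G
  64 40 0 195 97 195 [.g 1 0 1 0, .n, .g 1 1 766 0, .g 1 1 1060 0, .n,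
  .n]))) (.T 1 2 (.C 1 2 4 1 (.L 2) (.G 49 216 1 3 12 6 [.n, .n, .g 25 5
  16629 0, .n, .n])) (.L 11)))) (.T 1 1 (.C 1 2 2 1 (.T 2 1 (.T 4 1 (.T 8 1
  (.C 0 1 1 4 (.C 0 1 2 1 (.O 4) (.L 13)) (.C 0 2 1 2 (.C 0 1 1 8 (.C 0 1 2
  1 (.G 402 113 0 17 66 33 [.g 64 3 0 0, .n, .g 31 32 0 0, .g 33 3 4108 0])
  (.G 274 441 3 3 1 1 [.g 64 33 0 0, .n, .n, .n])) (.L 101)) (.L 101))) (.L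
  7)) (.G 74 126 2 1 1 1 [.n, .g 1 2 6418 0, .n, .n])) (.T 1 2 (.L 432) (.L
  12))) (.T 2 1 (.L 15) (.C 0 1 1 1 (.L 12) (.G 115 42 0 1 1 1 [.n, .g 23 63
  0 0, .n, .g 1 0 1115 0, .n])))) (.C 0 1 1 4 (.G 2 82 2 171 342 85 [.n, .g
  32 5 0 0, .g 4 1 1011 0, .g 7 1 1363 0]) (.T 1 2 (.T 2 1 (.L 4) (.L 23))
  (.L 30))))) (.B 0 1 4 (.B 2 2 1 (.L 456) (.B 0 2 1 (.B 2 1 2 (.L 456) (.B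
  0 4 1 (.B 2 1 4 (.L 418) (.C 0 2 8 1 (.T 1 1 (.T 2 1 (.T 4 1 (.T 8 1 (.C 1
  2 4 1 (.C 1 2 8 1 (.L 6) (.C 0 1 64 1 (.C 0 2 32 1 (.L 1) (.G 1 117 3
  363428 726855 181714 [.n, .g 10 63 3 0, .n, .n, .n, .n])) (.C 0 2 1 4 (.C
  0 1 1 2 (.L 1) (.C 1 2 4 1 (.G 6 1 1 285928 71482 571856 [.n, .g 64 31 0
  0, .n, .n, .n, .n]) (.L 1))) (.C 0 1 1 4 (.G 482 1 1 285928 571856 35741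
  [.g 64 17 25 0, .g 64 23 33 0, .n, .n]) (.T 16 1 (.C 0 2 1 16 (.C 0 1 1 8
  (.G 16 1 1 666202 1332403 1332403 [.n, .g 43 65 20 0, .n, .n, .n, .n]) (.L
  96)) (.L 96)) (.C 1 2 1 2 (.C 0 1 1 8 (.C 0 2 1 4 (.L 1) (.L 62)) (.L
  120)) (.T 1 2 (.C 0 1 1 4 (.G 187 122 5 1 1 1 [.n, .g 32 11 0 0, .n, .n,
  .n, .n]) (.G 313 134 3 511 64 16 [.n, .n, .g 1 3 3092 0, .n])) (.L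
  380)))))))) (.C 1 2 1 2 (.L 138) (.O 4))) (.L 7)) (.L 18)) (.L 5)) (.C 0 1
  4 1 (.T 1 2 (.T 2 1 (.L 2) (.C 1 2 2 1 (.L 2) (.L 14))) (.T 1 4 (.C 1 2 2
  1 (.L 3) (.C 1 2 1 2 (.L 3) (.L 8))) (.C 0 1 8 1 (.C 1 2 1 1 (.C 1 2 2 1
  (.T 1 8 (.L 3) (.T 1 16 (.L 94) (.C 1 2 4 1 (.C 1 2 8 1 (.L 45) (.T 1 32
  (.L 45) (.O 4))) (.O 4)))) (.T 1 8 (.L 31) (.O 4))) (.O 4)) (.G 473 27 3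
  1118 559 1118 [.g 256 1 0 0, .n, .g 16 9 0 0, .g 64 45 0 0, .n, .n]))))
  (.T 1 2 (.C 1 2 4 1 (.L 2) (.G 109 2 3 2 7 3 [.n, .n, .n, .g 64 39 0 0,
  .n])) (.L 68)))) (.T 1 1 (.C 1 2 2 1 (.T 2 1 (.T 4 1 (.T 8 1 (.C 0 1 1 4
  (.G 264 354 0 1 1 1 [.n, .g 1 0 2545 0, .g 1 0 2816 0, .g 2 0 5243 0]) (.C
  0 2 1 2 (.C 0 1 1 8 (.G 345 368 3 123 247 247 [.g 2 1 86 0, .g 79 23 2043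
  0, .g 14 12 1003 0, .n]) (.L 101)) (.L 101))) (.L 7)) (.G 74 50 1 1 1 1
  [.n, .g 1 14 17740 0, .n, .n])) (.T 1 2 (.L 58) (.L 12))) (.T 2 1 (.L 15)
  (.G 11 149 2 1 1 1 [.n, .g 11 62 0 0, .n, .g 5 2 4366 0, .g 64 55 0 0])))
  (.C 0 1 1 4 (.G 2 242 1 49 99 25 [.n, .g 32 5 0 0, .g 64 27 0 0, .g 32 9 0
  0]) (.T 1 2 (.T 2 1 (.L 4) (.L 23)) (.L 30)))))) (.L 418))) (.L 456))) (.L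
  409))) (.B 2 4 1 (.B 2 8 1 (.L 89) (.B 0 1 2 (.B 2 1 2 (.B 1 1 1 (.B 1 2 1
  (.B 0 1 2 (.B 1 1 1 (.B 0 2 1 (.B 1 1 1 (.B 2 1 8 (.L 196) (.B 0 4 1 (.C 0
  2 8 1 (.T 1 1 (.T 2 1 (.T 4 1 (.T 8 1 (.C 1 2 4 1 (.C 1 2 8 1 (.L 6) (.C 0
  2 32 1 (.C 0 1 64 1 (.L 1) (.C 0 1 1 2 (.L 1) (.C 1 2 1 1 (.G 1 6 1 608595
  152149 304298 [.n, .g 2 5 0 0, .n, .n, .n, .n]) (.L 1)))) (.C 0 1 1 1 (.G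
  21 1 1 181685 363371 90843 [.n, .g 64 11 15 0, .g 64 13 17 0, .n]) (.T 16
  1 (.T 32 1 (.O 4) (.C 0 2 1 4 (.C 0 1 1 2 (.L 16) (.C 0 1 1 4 (.L 1) (.C 1
  2 4 1 (.G 121 6 1 1015586 126948 1015586 [.n, .n, .g 64 5 0 0, .n, .n])
  (.G 72 1 1 1018 1018 509 [.g 32 29 0 0, .g 16 9 0 0, .n, .n, .n, .n]))))
  (.C 0 1 1 4 (.G 90 246 0 1 1 1 [.g 1 0 20485 0, .n, .n, .n, .n, .n]) (.L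
  19)))) (.T 1 2 (.T 2 1 (.C 0 1 1 2 (.G 1 182 0 201 403 50 [.n, .g 17 6
  16435 0, .n, .n, .n, .n]) (.C 0 2 1 8 (.C 1 2 8 1 (.L 116) (.L 62)) (.L
  19))) (.L 21)) (.L 7)))))) (.C 1 2 1 2 (.L 13) (.O 4))) (.L 7)) (.L 52))
  (.L 5)) (.C 0 1 4 1 (.T 1 2 (.T 2 1 (.L 4) (.C 1 2 2 1 (.L 2) (.L 14)))
  (.C 0 1 8 1 (.C 1 2 1 1 (.T 1 4 (.L 3) (.C 1 2 2 1 (.T 1 8 (.L 3) (.T 1 16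
  (.L 31) (.C 1 2 4 1 (.C 1 2 8 1 (.L 45) (.L 78)) (.O 4)))) (.T 1 8 (.T 2 1
  (.L 3) (.L 24)) (.O 4)))) (.L 8)) (.G 60 219 0 1 1 1 [.n, .g 64 5 0 0, .n,
  .n]))) (.T 1 2 (.C 1 2 4 1 (.L 2) (.G 2 49 2 7 27 14 [.n, .n, .g 64 15 0
  0, .g 32 13 0 0])) (.L 11)))) (.T 1 1 (.C 1 2 2 1 (.T 2 1 (.T 4 1 (.T 8 1
  (.C 0 1 1 4 (.G 87 328 0 1 1 1 [.n, .g 2 0 5329 0, .n, .n]) (.C 0 2 1 2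
  (.C 0 1 1 8 (.C 0 1 2 1 (.G 150 113 0 7 26 13 [.g 64 7 0 0, .n, .g 3 5
  15233 0, .n]) (.C 0 2 1 2 (.G 245 290 3 301 150 601 [.g 16 11 0 0, .n, .n,
  .n, .g 2 1 78 0]) (.L 120))) (.L 120)) (.L 120))) (.L 7)) (.G 44 126 2 1 1
  1 [.n, .g 1 4 9950 0, .n, .n])) (.T 1 2 (.L 58) (.L 12))) (.T 2 1 (.L 15)
  (.C 0 1 1 1 (.L 12) (.G 92 42 0 1 1 1 [.g 4 3 0 0, .n, .n, .n])))) (.C 0 1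
  1 4 (.G 2 83 3 325 651 163 [.n, .g 64 11 0 0, .g 64 25 0 0, .g 64 17 0 0])
  (.T 1 2 (.C 1 2 2 1 (.L 4) (.L 48)) (.L 30))))) (.B 0 1 2 (.B 0 2 1 (.B 2
  1 2 (.L 196) (.B 0 4 1 (.B 2 1 4 (.L 196) (.B 2 1 8 (.L 196) (.C 0 2 8 1
  (.T 1 1 (.T 2 1 (.T 4 1 (.T 8 1 (.C 1 2 4 1 (.C 1 2 8 1 (.L 6) (.C 0 2 32
  1 (.C 0 1 64 1 (.L 1) (.C 0 1 1 2 (.L 1) (.C 1 2 1 1 (.G 1 6 1 607944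
  151986 303972 [.n, .g 25 63 0 0, .n, .n, .n, .n]) (.L 1)))) (.C 0 1 1 1
  (.G 164 1 1 181463 362927 90732 [.g 64 11 15 0, .g 64 13 17 0, .n, .n,
  .n]) (.T 16 1 (.T 32 1 (.O 4) (.G 19 1 1 860735 430368 215184 [.g 1024 427
  1 0, .n, .n, .g 64 9 0 0])) (.T 1 2 (.T 2 1 (.C 0 1 1 2 (.G 1 182 0 201
  402 50 [.n, .g 17 6 16441 0, .n, .n, .n, .n]) (.C 0 2 1 8 (.G 62 134 0 173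
  43 346 [.n, .g 64 23 0 0, .n, .n, .n, .n]) (.L 19))) (.L 21)) (.L 7))))))
  (.C 1 2 1 2 (.L 13) (.O 4))) (.L 7)) (.L 52)) (.L 5)) (.C 0 1 4 1 (.T 1 2
  (.T 2 1 (.L 4) (.C 1 2 2 1 (.L 2) (.L 14))) (.C 0 1 8 1 (.C 1 2 1 1 (.T 1
  4 (.L 3) (.C 1 2 2 1 (.T 1 8 (.L 3) (.T 1 16 (.L 31) (.C 1 2 4 1 (.C 1 2 8
  1 (.L 45) (.L 78)) (.O 4)))) (.T 1 8 (.T 2 1 (.L 3) (.L 24)) (.O 4)))) (.L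
  8)) (.G 60 219 0 1 1 1 [.n, .g 64 5 0 0, .n, .n]))) (.T 1 2 (.C 1 2 4 1
  (.L 2) (.G 2 11 1 5 20 10 [.n, .n, .g 1 0 1676 0, .g 2 1 3935 0])) (.L
  11)))) (.T 1 1 (.C 1 2 2 1 (.T 2 1 (.T 4 1 (.T 8 1 (.C 0 1 1 4 (.G 87 281
  0 1 1 1 [.n, .g 1 0 2678 0, .n, .n]) (.C 0 2 1 2 (.C 0 1 1 8 (.C 0 1 2 1
  (.G 181 214 1 5 21 11 [.n, .g 5 9 16799 0, .g 64 23 0 0]) (.G 450 392 3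
  1039 520 520 [.n, .n, .g 16 13 0 0, .g 32 29 0 0])) (.L 120)) (.L 120)))
  (.L 7)) (.G 44 74 1 1 1 1 [.n, .g 1 1 4463 0, .n, .n])) (.T 1 2 (.L 58)
  (.L 12))) (.T 2 1 (.L 15) (.C 0 1 1 1 (.L 12) (.G 92 42 0 1 1 1 [.g 4 3 0
  0, .n, .n, .n])))) (.C 0 1 1 4 (.G 2 83 3 325 651 163 [.n, .g 64 11 0 0,
  .g 64 25 0 0, .g 64 17 0 0]) (.T 1 2 (.C 1 2 2 1 (.L 4) (.L 48)) (.L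
  30))))))) (.L 196))) (.L 196)) (.L 196)))) (.L 89)) (.L 196)) (.L 89)) (.L
  258)) (.L 89)) (.L 89)) (.C 0 2 8 1 (.T 1 1 (.T 2 1 (.T 4 1 (.T 8 1 (.C 1
  2 4 1 (.C 1 2 8 1 (.L 6) (.C 0 2 32 1 (.C 0 1 64 1 (.L 1) (.C 0 1 1 2 (.L
  1) (.C 1 2 1 1 (.G 1 6 1 606354 151588 303177 [.n, .g 2 5 0 0, .n, .n, .n,
  .n]) (.L 1)))) (.C 0 1 1 1 (.G 489 1 1 180915 361831 90458 [.n, .g 16 3 4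
  0, .g 64 9 12 0, .n]) (.T 16 1 (.T 32 1 (.O 4) (.C 0 2 1 4 (.C 0 1 1 2 (.L
  16) (.C 0 1 1 4 (.L 1) (.C 1 2 4 1 (.G 36 19 0 1113679 139210 1113679 [.n,
  .g 7 66 0 0, .n, .n, .n, .n]) (.G 127 1 1 57 57 28 [.g 4 3 971 0, .g 32 13
  0 0, .n, .n, .n, .n])))) (.C 0 1 1 4 (.G 90 361 0 1 1 1 [.g 1 0 20263 0,
  .n, .n, .n, .n, .n]) (.L 19)))) (.T 1 2 (.T 2 1 (.C 0 2 1 4 (.C 0 1 1 2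
  (.L 16) (.C 0 1 1 4 (.L 1) (.C 1 2 4 1 (.L 134) (.G 62 1 1 1027 1027 514
  [.g 64 57 0 0, .g 2 1 0 0, .n, .n, .n, .n])))) (.C 0 1 1 4 (.C 0 1 2 1 (.G
  225 1 1 296 1186 37 [.g 2 4 5415 0, .n, .n, .n, .n, .n]) (.L 225)) (.L
  19))) (.L 21)) (.L 7)))))) (.C 1 2 1 2 (.L 13) (.O 4))) (.L 7)) (.L 52))
  (.L 5)) (.C 0 1 4 1 (.T 1 2 (.T 2 1 (.L 4) (.C 1 2 2 1 (.L 2) (.L 14)))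
  (.C 0 1 8 1 (.C 1 2 1 1 (.T 1 4 (.L 3) (.C 1 2 2 1 (.T 1 8 (.L 3) (.T 1 16
  (.L 31) (.C 1 2 4 1 (.C 1 2 8 1 (.L 45) (.T 1 32 (.L 45) (.O 4))) (.O
  4)))) (.T 1 8 (.T 2 1 (.L 3) (.L 24)) (.O 4)))) (.L 24)) (.G 194 40 0 351
  176 351 [.g 13 0 32 0, .n, .g 1 0 978 0, .g 1 0 1227 0, .n, .n]))) (.T 1 2
  (.C 1 2 4 1 (.L 2) (.G 2 49 2 7 27 14 [.n, .n, .g 64 15 0 0, .g 32 13 0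
  0])) (.L 11)))) (.T 1 1 (.C 1 2 2 1 (.T 2 1 (.T 4 1 (.T 8 1 (.C 0 1 1 4
  (.G 264 425 1 1 1 1 [.n, .g 1 0 2791 0, .g 1 0 2820 0, .g 2 0 5335 0]) (.C
  0 2 1 2 (.C 0 1 1 8 (.C 0 1 2 1 (.G 150 77 1 7 28 14 [.g 8 1 0 0, .n, .g 6
  11 30538 0, .n]) (.C 0 2 1 2 (.G 75 297 3 952 476 1904 [.n, .g 81 58 1021
  0, .g 32 19 0 0, .n, .n]) (.L 120))) (.L 120)) (.L 120))) (.L 7)) (.G 50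
  86 0 1 1 1 [.n, .g 1 22 32529 0, .n, .n, .n])) (.T 1 2 (.L 58) (.L 12)))
  (.T 2 1 (.L 15) (.C 0 1 1 1 (.L 12) (.G 11 42 0 1 1 1 [.n, .n, .n, .g 1 0
  1205 0, .g 1 5 0 0])))) (.C 0 1 1 4 (.G 2 242 1 48 96 24 [.n, .g 64 11 0
  0, .g 16 7 0 0, .g 10 3 1053 0]) (.T 1 2 (.C 1 2 2 1 (.L 4) (.L 48)) (.L
  30)))))) (.L 196))) (.C 0 2 8 1 (.T 1 1 (.T 2 1 (.T 4 1 (.T 8 1 (.C 1 2 4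
  1 (.C 1 2 8 1 (.L 6) (.C 0 2 32 1 (.C 0 1 64 1 (.L 1) (.C 0 1 1 2 (.L 1)
  (.C 1 2 1 1 (.G 1 6 1 618276 154569 309138 [.n, .g 25 63 0 0, .n, .n, .n,
  .n]) (.L 1)))) (.C 0 1 1 1 (.G 457 1 1 185112 370224 92556 [.n, .n, .g 16
  3 4 0, .g 256 49 62 0]) (.T 16 1 (.T 32 1 (.O 4) (.G 47 1 1 881044 440522
  220261 [.g 1024 419 2 0, .n, .n, .n])) (.T 1 2 (.T 2 1 (.G 59 1 1 844768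
  422384 211192 [.g 128 0 1 0, .g 64 25 0 0, .n, .n]) (.L 21)) (.L 7))))))
  (.C 1 2 1 2 (.L 13) (.O 4))) (.L 7)) (.L 52)) (.L 5)) (.C 0 1 4 1 (.T 1 2
  (.T 2 1 (.L 4) (.C 1 2 2 1 (.L 2) (.L 14))) (.C 0 1 8 1 (.C 1 2 1 1 (.T 1
  4 (.L 3) (.T 1 8 (.C 1 2 2 1 (.L 3) (.T 2 1 (.L 3) (.L 322))) (.C 1 2 2 1
  (.T 1 16 (.L 31) (.C 1 2 4 1 (.C 1 2 8 1 (.L 45) (.T 1 32 (.L 45) (.O 4)))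
  (.O 4))) (.O 4)))) (.L 24)) (.G 64 40 0 185 92 185 [.g 7 0 8 0, .n, .g 1 1
  812 0, .g 1 1 1122 0, .n, .n]))) (.T 1 2 (.C 1 2 4 1 (.L 2) (.G 41 216 1 1
  4 2 [.n, .n, .n, .n, .g 128 23 0 0])) (.L 11)))) (.T 1 1 (.C 1 2 2 1 (.T 2
  1 (.T 4 1 (.T 8 1 (.C 0 1 1 4 (.C 0 1 2 1 (.O 4) (.L 13)) (.C 0 2 1 2 (.C
  0 1 1 8 (.C 0 1 2 1 (.C 1 2 1 2 (.G 108 113 0 10 40 80 [.g 1 0 36 0, .n,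
  .g 1 0 1048 0, .g 64 3 0 0]) (.L 13)) (.C 0 2 1 2 (.G 496 368 3 2616 1308
  5231 [.g 16 9 0 0, .g 64 5 0 0, .n, .g 64 15 0 0]) (.L 178))) (.L 17)) (.L
  17))) (.L 7)) (.G 50 86 0 1 1 1 [.n, .g 1 4 7063 0, .n, .n, .n])) (.T 1 2
  (.L 432) (.L 12))) (.T 2 1 (.L 15) (.C 0 1 1 1 (.L 12) (.G 11 42 0 1 1 1
  [.n, .n, .n, .g 1 0 1205 0, .g 1 5 0 0])))) (.C 0 1 1 4 (.G 2 242 1 48 96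
  24 [.n, .g 64 11 0 0, .g 16 7 0 0, .g 4 1 254 0]) (.T 1 2 (.C 1 2 2 1 (.L
  4) (.L 48)) (.L 30))))))) (by decide +kernel)

theorem ES0_c2 : CoF ESTab ⟨⟨2054, 1936, 40000⟩, ⟨3388, 1936, 40000⟩, ⟨5442,
  5088, 80000⟩, ⟨0, 1⟩, ⟨2, 1⟩, ⟨1, 0, 0⟩, ⟨0, 1, 0⟩, ⟨0, 1, 1⟩⟩ :=
CoF.ofG ESTab_B ESBt_E ESBt_U (.B 0 1 1 (.B 2 1 2 (.C 0 2 8 1 (.T 1 1 (.T 2
  1 (.T 4 1 (.T 8 1 (.C 1 2 4 1 (.C 1 2 8 1 (.T 16 1 (.T 32 1 (.C 0 2 64 1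
  (.C 0 2 128 1 (.C 0 1 4 1 (.C 1 2 32 1 (.L 37) (.C 0 1 512 1 (.C 1 2 1 4
  (.B 2 2 1 (.B 1 1 1 (.L 105) (.C 1 2 2 1 (.L 95) (.L 36))) (.L 105)) (.L
  36)) (.L 43))) (.L 43)) (.L 43)) (.G 198 213 1 515 16 257 [.n, .n, .n, .g
  1 2 54 0])) (.L 6)) (.L 6)) (.T 16 1 (.C 0 1 64 1 (.C 1 2 1 4 (.L 16) (.O
  4)) (.G 16 47 0 2523059 1261529 630765 [.n, .g 23 63 0 0, .n, .n, .g 512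
  15 1 0, .n])) (.T 1 2 (.T 2 1 (.C 0 1 64 1 (.C 1 2 1 4 (.L 1) (.O 4)) (.G
  1 59 1 1620675 810337 405169 [.n, .g 22 63 0 0, .n, .n, .n, .n])) (.L
  132)) (.L 7)))) (.C 1 2 1 2 (.L 13) (.O 4))) (.L 9)) (.L 18)) (.L 5)) (.C
  0 1 4 1 (.T 1 2 (.T 2 1 (.L 4) (.C 1 2 2 1 (.L 2) (.L 14))) (.C 0 1 8 1
  (.C 1 2 1 1 (.T 1 4 (.L 3) (.C 1 2 2 1 (.T 1 8 (.L 3) (.T 1 16 (.L 31) (.C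
  1 2 4 1 (.C 1 2 8 1 (.L 46) (.T 1 32 (.L 45) (.O 4))) (.O 4)))) (.T 1 8
  (.T 2 1 (.L 3) (.L 153)) (.O 4)))) (.L 24)) (.G 64 27 3 1558 779 1558 [.g
  2048 1 0 0, .n, .g 64 19 0 0, .g 64 25 0 0, .n, .n]))) (.T 1 2 (.C 1 2 4 1
  (.L 2) (.G 4 11 1 4 16 8 [.n, .n, .g 1 0 2893 0, .g 1 1 4576 0])) (.L
  11)))) (.T 1 1 (.C 1 2 2 1 (.T 2 1 (.T 4 1 (.T 8 1 (.C 0 1 1 4 (.C 0 1 2 1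
  (.O 4) (.L 13)) (.C 0 2 1 2 (.C 0 1 1 8 (.C 0 1 2 1 (.G 329 117 3 17051
  68204 34102 [.n, .g 29 32 0 0, .g 64 0 35 0, .n, .n, .n]) (.C 0 2 1 2 (.G
  152 178 3 259 130 519 [.n, .g 64 55 0 0, .g 64 31 0 0, .n, .n]) (.L 272)))
  (.L 101)) (.L 101))) (.L 9)) (.G 98 130 2 1 1 1 [.n, .n, .n, .n, .g 1 0
  1986 0])) (.T 1 2 (.L 56) (.L 12))) (.T 2 1 (.L 15) (.T 1 2 (.L 144) (.L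
  12)))) (.C 0 1 1 4 (.G 2 103 3 32 63 16 [.n, .g 32 5 0 0, .g 64 25 0 0, .g
  64 17 0 0]) (.T 1 2 (.T 2 1 (.L 4) (.L 23)) (.L 30))))) (.C 0 2 8 1 (.T 1
  1 (.T 2 1 (.T 4 1 (.T 8 1 (.C 1 2 4 1 (.T 16 1 (.T 32 1 (.C 0 2 32 1 (.L
  230) (.L 71)) (.C 0 2 32 1 (.L 1) (.C 0 2 1 2 (.L 1) (.C 0 2 1 4 (.L 1)
  (.L 248))))) (.C 1 2 8 1 (.L 6) (.T 1 2 (.C 0 1 64 1 (.C 1 2 1 4 (.L 1)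
  (.L 88)) (.C 0 2 1 4 (.G 85 1 1 4194304 2097152 8388607 [.g 16 1 0 0, .n,
  .n, .n, .g 2 53 0 0, .g 2 55 0 0]) (.C 0 1 1 4 (.G 1 88 0 564442 1128884
  70555 [.n, .g 16 63 0 0, .n, .n, .n, .n]) (.G 393 386 3 661 83 41 [.n, .n,
  .g 3 14 4910 0, .g 64 23 0 0])))) (.L 118)))) (.C 1 2 1 2 (.L 88) (.O 4)))
  (.L 9)) (.L 18)) (.L 5)) (.C 0 1 4 1 (.T 1 2 (.T 2 1 (.L 4) (.C 1 2 2 1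
  (.L 2) (.L 14))) (.C 0 1 8 1 (.C 1 2 1 1 (.T 1 4 (.L 3) (.C 1 2 2 1 (.T 1
  8 (.L 3) (.T 1 16 (.L 31) (.C 1 2 4 1 (.C 1 2 8 1 (.L 46) (.T 1 32 (.L 45)
  (.O 4))) (.O 4)))) (.T 1 8 (.T 2 1 (.L 3) (.L 153)) (.O 4)))) (.L 24)) (.G
  3 65 1 241 121 241 [.g 1024 1 0 0, .n, .g 32 15 0 0, .g 8 5 0 0, .n,
  .n]))) (.T 1 2 (.C 1 2 4 1 (.L 2) (.G 2 11 1 5 20 10 [.n, .n, .g 1 0 1168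
  0, .g 5 1 9018 0])) (.L 11)))) (.T 1 1 (.C 1 2 2 1 (.C 0 1 1 4 (.T 2 1 (.T
  4 1 (.C 0 1 2 1 (.L 106) (.G 352 300 0 5277 2639 1319 [.n, .n, .n, .g 32 0
  17 0, .n, .g 21 64 0 0])) (.G 50 265 0 1 1 1 [.n, .g 1 0 958 0, .n, .n,
  .n])) (.G 26 58 3 1 1 1 [.g 31 32 0 0, .n, .n, .g 32 27 0 0, .n])) (.C 0 2
  1 2 (.C 0 1 1 8 (.T 2 1 (.T 4 1 (.T 8 1 (.C 1 2 1 1 (.C 0 1 2 1 (.T 16 1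
  (.O 4) (.G 185 118 1 10572 42287 42287 [.n, .n, .n, .g 32 13 0 0, .n, .g
  64 1 33 0])) (.G 75 460 3 3268 1634 3268 [.n, .g 7 1 61 0, .g 32 11 0 0,
  .n, .n])) (.L 88)) (.L 9)) (.L 33)) (.L 5)) (.L 111)) (.L 111))) (.T 2 1
  (.L 15) (.T 1 2 (.L 15) (.L 12)))) (.C 0 1 1 4 (.G 2 82 2 171 341 85 [.n,
  .g 32 5 0 0, .g 6 2 1109 0, .g 6 1 1073 0]) (.T 1 2 (.T 2 1 (.L 4) (.L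
  23)) (.L 30)))))) (.B 1 2 1 (.C 0 2 8 1 (.T 1 1 (.T 2 1 (.T 4 1 (.T 8 1
  (.C 1 2 4 1 (.C 0 1 4 1 (.C 0 1 8 1 (.C 0 1 16 1 (.C 1 2 1 1 (.T 16 1 (.T
  32 1 (.T 64 1 (.L 73) (.L 1)) (.L 1)) (.L 1)) (.L 88)) (.C 1 2 2 1 (.T 16
  1 (.G 37 1 5 4194304 2097152 8388607 [.n, .n, .n, .n, .g 1 47781 0 0, .g 1
  49334 0 0, .n, .n]) (.L 1)) (.C 0 2 1 1 (.T 16 1 (.G 464 1 5 4194304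
  8388607 8388607 [.n, .n, .n, .n, .g 1 43834 0 0, .g 1 45108 0 0, .n, .n])
  (.L 1)) (.G 88 7 0 111418 111418 55709 [.g 64 13 0 0, .n, .n, .n])))) (.B
  2 1 2 (.C 1 2 4 1 (.T 16 1 (.G 37 1 5 2097152 1048576 8388607 [.n, .n, .n,
  .n, .g 1 54211 0 0, .g 1 56512 0 0, .n, .n]) (.L 1)) (.C 0 2 2 1 (.T 16 1
  (.G 464 1 5 2097152 8388607 8388607 [.n, .n, .n, .n, .g 1 52427 0 0, .g 1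
  54194 0 0, .n, .n]) (.L 1)) (.G 1 117 3 256818 256818 128409 [.n, .g 6 61
  6 0, .n, .n, .n, .g 4096 0 1 0]))) (.T 16 1 (.T 32 1 (.C 0 2 2 1 (.G 43 1
  5 118992 59496 475968 [.n, .n, .n, .n, .g 1 717 0 0, .g 1 741 0 0, .n,
  .n]) (.G 37 258 2 121 15 61 [.n, .g 2 0 1255 0, .n, .n, .n, .n, .n, .n]))
  (.G 6 1 1 53194 26597 106388 [.n, .g 42 53 65 0, .n, .n, .n, .n])) (.G 1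
  161 0 67997 33998 135994 [.n, .g 14 65 7 0, .n, .n, .n, .n])))) (.C 0 2 4
  1 (.T 16 1 (.T 32 1 (.L 37) (.L 1)) (.L 1)) (.C 0 1 1 16 (.T 16 1 (.C 1 2
  1 4 (.G 1 16 5 324 647 1295 [.n, .n, .n, .n, .n, .g 64 51 0 0]) (.L 88))
  (.T 1 2 (.C 1 2 1 4 (.L 1) (.C 0 2 1 2 (.L 1) (.G 134 88 0 91895 183790
  22974 [.g 61 64 0 0, .n, .n, .g 58 65 0 0]))) (.L 7))) (.C 1 2 8 1 (.L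
  198) (.C 1 2 1 2 (.L 198) (.C 0 2 1 4 (.T 16 1 (.G 368 178 3 38 38 77 [.g
  64 27 0 0, .n, .n, .n]) (.C 0 2 2 1 (.G 497 400 3 1 1 1 [.n, .n, .n, .n,
  .g 1 947 0 0, .g 1 967 0 0]) (.G 62 166 1 18 5 9 [.n, .n, .n, .n, .n, .g
  64 49 0 0]))) (.G 380 508 1 80 40 10 [.g 64 25 0 0, .n, .g 2 1 5428 0, .g
  31 11 32538 0]))))))) (.C 1 2 1 2 (.L 88) (.O 4))) (.L 7)) (.L 18)) (.L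
  5)) (.C 0 1 4 1 (.T 1 2 (.T 2 1 (.L 2) (.C 1 2 2 1 (.L 2) (.L 14))) (.T 1
  4 (.C 1 2 2 1 (.L 3) (.C 1 2 1 2 (.L 3) (.L 8))) (.C 0 2 16 1 (.C 1 2 4 1
  (.T 1 8 (.L 3) (.C 1 2 8 1 (.L 444) (.T 1 16 (.L 316) (.T 1 32 (.C 1 2 1 2
  (.L 45) (.O 4)) (.O 4))))) (.C 1 2 1 2 (.T 1 8 (.L 22) (.C 1 2 2 1 (.T 1
  16 (.L 31) (.O 4)) (.O 4))) (.L 8))) (.G 433 369 3 1 1 1 [.g 1 0 3322 0,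
  .n, .n, .n])))) (.T 1 2 (.C 1 2 4 1 (.L 2) (.G 2 61 2 3 13 6 [.n, .n, .n,
  .g 3 1 7697 0])) (.L 68)))) (.T 1 1 (.C 1 2 2 1 (.T 2 1 (.T 4 1 (.T 8 1
  (.C 0 1 1 4 (.C 0 1 2 1 (.O 4) (.L 88)) (.C 0 1 1 8 (.C 0 2 1 2 (.C 0 1 2
  1 (.G 123 7 0 14 57 28 [.g 1 0 400 0, .n, .g 1 0 1068 0, .g 25 3 515 0])
  (.L 178)) (.L 101)) (.L 101))) (.L 7)) (.G 98 50 1 1 1 1 [.n, .n, .n, .n,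
  .g 1 3 5646 0])) (.T 1 2 (.L 432) (.L 12))) (.T 2 1 (.L 15) (.G 11 149 2 1
  1 1 [.n, .g 8 63 0 0, .n, .g 5 2 4366 0, .g 64 55 0 0]))) (.C 0 1 1 4 (.G
  2 82 2 171 342 85 [.n, .g 32 5 0 0, .g 5 2 1045 0, .g 6 1 1014 0]) (.T 1 2
  (.T 2 1 (.L 4) (.L 23)) (.L 30))))) (.C 0 2 8 1 (.T 1 1 (.T 2 1 (.T 4 1
  (.T 8 1 (.C 1 2 4 1 (.C 0 1 4 1 (.C 0 1 8 1 (.C 0 1 16 1 (.C 1 2 1 1 (.T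
  16 1 (.T 32 1 (.T 64 1 (.L 73) (.L 1)) (.L 1)) (.L 1)) (.T 16 1 (.O 4) (.C
  1 2 1 2 (.L 16) (.L 304)))) (.T 16 1 (.C 1 2 2 1 (.G 37 1 5 4194304
  2097152 8388607 [.n, .n, .n, .n, .g 1 47781 0 0, .g 1 49334 0 0, .n, .n])
  (.C 0 2 1 1 (.G 464 1 5 4194304 8388607 8388607 [.n, .n, .n, .n, .g 1
  43834 0 0, .g 1 45108 0 0, .n, .n]) (.O 4))) (.G 1 91 0 317962 158981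
  317962 [.n, .g 11 65 3 0, .n, .n, .n, .n]))) (.T 16 1 (.T 32 1 (.C 0 2 2 1
  (.L 43) (.G 37 229 1 180682 22585 90341 [.n, .g 64 0 41 0, .n, .n, .n, .n,
  .n, .n])) (.G 1 6 1 53194 26597 106388 [.n, .g 64 0 31 0, .n, .n, .n,
  .n])) (.G 1 161 0 66259 33129 132518 [.n, .g 14 65 7 0, .n, .n, .n, .n])))
  (.C 0 2 4 1 (.T 16 1 (.T 32 1 (.L 37) (.L 1)) (.L 1)) (.C 1 2 8 1 (.C 0 1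
  1 16 (.T 16 1 (.G 1 198 3 2155 4309 2155 [.n, .g 64 17 0 0, .n, .n, .n, .g
  64 0 1 0]) (.G 1 6 1 192351 384703 192351 [.n, .g 3 8 0 0, .n, .n, .n,
  .n])) (.G 6 178 3 32 1 16 [.n, .n, .n, .n, .n, .g 64 1 0 0])) (.C 0 1 1 1
  (.T 16 1 (.C 0 2 1 2 (.L 16) (.G 16 248 0 529669 529669 132417 [.n, .g 35
  64 2 0, .n, .n, .g 256 0 1 0, .n])) (.T 1 2 (.C 0 2 1 2 (.L 1) (.C 1 2 1 4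
  (.G 305 1 1 126671 126671 253342 [.g 64 45 0 0, .g 64 1 0 0, .n, .n]) (.G
  134 91 0 154971 309942 38743 [.g 5 8 5 0, .n, .n, .g 64 20 21 0]))) (.L
  7))) (.T 16 1 (.C 0 2 1 4 (.C 0 1 1 2 (.L 16) (.L 96)) (.L 96)) (.C 1 2 1
  2 (.G 85 75 0 8388607 4194304 8388607 [.n, .n, .g 1 106 0 0, .g 1 110 0 0,
  .g 2 57 0 0, .g 1 30 0 0]) (.C 1 2 1 4 (.T 1 2 (.G 193 108 2 1 1 1 [.n, .g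
  29 63 0 0, .n, .g 1 52 39813 0, .n, .n]) (.L 62)) (.T 1 2 (.G 465 108 2 1
  1 1 [.g 1 1 415 0, .g 1 0 285 0, .n, .n, .n, .n, .g 1 75 95391 0, .g 1 141
  142561 0]) (.L 165))))))))) (.C 1 2 1 2 (.L 13) (.O 4))) (.L 7)) (.L 18))
  (.L 5)) (.C 0 1 4 1 (.T 1 2 (.T 2 1 (.L 4) (.C 1 2 2 1 (.L 2) (.L 14)))
  (.C 0 1 8 1 (.C 1 2 1 1 (.T 1 4 (.L 3) (.T 1 8 (.C 1 2 2 1 (.L 3) (.T 2 1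
  (.L 3) (.L 153))) (.C 1 2 2 1 (.T 1 16 (.L 31) (.C 1 2 4 1 (.C 1 2 8 1 (.L
  45) (.T 1 32 (.L 45) (.O 4))) (.O 4))) (.O 4)))) (.L 24)) (.G 64 40 0 195
  97 195 [.g 1 0 1 0, .n, .g 5 2 4226 0, .g 4 2 4635 0, .n, .n]))) (.T 1 2
  (.C 1 2 4 1 (.L 2) (.G 4 65 1 5 21 10 [.n, .n, .g 1 0 2277 0, .g 1 1 4683
  0])) (.L 11)))) (.T 1 1 (.C 1 2 2 1 (.T 2 1 (.T 4 1 (.T 8 1 (.C 0 1 1 4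
  (.G 401 337 2 1 1 1 [.g 1 1 3219 0, .g 1 0 1707 0, .g 1 0 4047 0, .g 2 0
  4925 0]) (.C 0 2 1 2 (.C 0 1 1 8 (.C 0 1 2 1 (.G 336 113 0 15 59 30 [.n,
  .n, .g 64 19 0 0, .g 7 13 17568 0]) (.C 0 2 1 2 (.G 273 400 3 885 442 1769
  [.n, .g 64 63 0 0, .g 29 32 0 0, .n]) (.L 272))) (.L 101)) (.L 101))) (.L
  7)) (.G 224 74 1 1 1 1 [.n, .n, .g 1 0 1080 0, .n, .n])) (.T 1 2 (.L 58)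
  (.L 12))) (.T 2 1 (.L 15) (.C 0 1 1 1 (.L 12) (.G 115 42 0 1 1 1 [.n, .g
  23 63 0 0, .n, .g 1 0 1115 0, .n])))) (.C 0 1 1 4 (.G 2 82 2 171 342 85
  [.n, .g 32 5 0 0, .g 4 1 915 0, .g 7 1 1363 0]) (.T 1 2 (.T 2 1 (.L 4) (.L
  23)) (.L 30))))))) (by decide +kernel)

theorem ES0_c3 : CoF ESTab ⟨⟨360, 360, 20000⟩, ⟨2054, 720, 40000⟩, ⟨2054,
  1936, 40000⟩, ⟨0, 1⟩, ⟨2, 1⟩, ⟨1, 0, 0⟩, ⟨0, 1, 0⟩, ⟨0, 1, 1⟩⟩ :=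
CoF.ofG ESTab_B ESBt_E ESBt_U (.B 2 1 2 (.B 1 1 1 (.B 0 1 2 (.B 1 1 2 (.L
  481) (.C 0 2 8 1 (.T 1 1 (.T 2 1 (.T 4 1 (.T 8 1 (.T 16 1 (.L 160) (.L
  32)) (.L 9)) (.L 39)) (.L 5)) (.C 0 1 4 1 (.T 1 2 (.T 2 1 (.L 2) (.C 1 2 2
  1 (.L 2) (.L 14))) (.C 0 1 8 1 (.C 1 2 1 1 (.T 1 4 (.L 3) (.T 1 8 (.C 1 2
  2 1 (.L 3) (.C 1 2 1 2 (.L 22) (.L 8))) (.C 1 2 2 1 (.T 1 16 (.L 31) (.C 1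
  2 4 1 (.C 1 2 8 1 (.L 46) (.T 1 32 (.L 45) (.O 4))) (.O 4))) (.O 4)))) (.L
  24)) (.L 40))) (.C 1 2 4 1 (.C 0 1 1 2 (.L 61) (.T 1 2 (.L 2) (.L 30)))
  (.L 476)))) (.T 1 1 (.C 1 2 2 1 (.C 0 1 1 4 (.T 2 1 (.G 353 50 2 1 1 1 [.g
  32768 17 0 0, .n, .g 64 0 31 0, .n, .n, .n]) (.G 26 56 3 1 1 1 [.g 64 47 0
  0, .n, .n, .g 64 53 0 0, .n])) (.C 0 1 1 8 (.C 0 2 1 2 (.T 2 1 (.C 0 1 2 1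
  (.T 4 1 (.G 250 84 0 13639 54555 27278 [.g 30 63 26 0, .n, .n, .n]) (.L
  33)) (.L 20)) (.L 5)) (.G 417 10 0 23821 23821 5955 [.g 1 48 0 0, .n, .n,
  .g 1 141 0 0])) (.T 2 1 (.L 10) (.T 1 2 (.L 34) (.L 289))))) (.T 2 1 (.L
  15) (.T 1 2 (.L 34) (.L 12)))) (.C 0 1 1 4 (.L 41) (.T 1 2 (.T 2 1 (.L 4)
  (.L 23)) (.L 30)))))) (.B 1 2 1 (.L 162) (.B 1 1 2 (.L 162) (.B 2 2 1 (.B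
  2 4 1 (.B 1 1 4 (.L 171) (.C 0 2 8 1 (.T 1 1 (.T 2 1 (.T 4 1 (.T 8 1 (.T
  16 1 (.L 99) (.L 32)) (.L 9)) (.L 39)) (.L 5)) (.C 0 1 4 1 (.T 1 2 (.T 2 1
  (.L 2) (.C 1 2 2 1 (.L 2) (.L 14))) (.C 0 1 8 1 (.C 1 2 1 1 (.T 1 4 (.L 3)
  (.T 1 8 (.C 1 2 2 1 (.L 3) (.L 31)) (.C 1 2 2 1 (.T 1 16 (.L 194) (.C 1 2
  4 1 (.C 1 2 8 1 (.L 45) (.T 1 32 (.L 449) (.O 4))) (.O 4))) (.O 4)))) (.L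
  24)) (.L 40))) (.C 1 2 4 1 (.C 0 1 1 2 (.L 61) (.T 1 2 (.L 2) (.L 30)))
  (.L 476)))) (.T 1 1 (.C 1 2 2 1 (.C 0 1 1 4 (.T 2 1 (.G 480 50 2 1 1 1
  [.n, .n, .n, .g 64 0 31 0, .g 32768 17 0 0, .n]) (.G 26 35 2 1 1 1 [.g 43
  63 0 0, .n, .n, .g 39 64 0 0, .n])) (.C 0 1 1 8 (.C 0 2 1 2 (.T 2 1 (.C 0
  1 2 1 (.T 4 1 (.G 226 210 0 7777 31107 15554 [.g 18 32 19 0, .n, .n, .n])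
  (.L 51)) (.L 20)) (.L 5)) (.L 10)) (.L 10))) (.T 2 1 (.L 15) (.T 1 2 (.L
  34) (.L 12)))) (.C 0 1 1 4 (.L 41) (.T 1 2 (.T 2 1 (.L 4) (.L 23)) (.L
  30)))))) (.L 171)) (.L 162))))) (.B 2 2 1 (.C 0 2 8 1 (.T 1 1 (.T 2 1 (.T
  4 1 (.T 8 1 (.T 16 1 (.T 32 1 (.L 55) (.B 1 1 2 (.L 99) (.B 2 4 1 (.T 1 2
  (.B 1 1 4 (.L 55) (.B 2 8 1 (.C 1 2 4 1 (.L 100) (.O 4)) (.L 55))) (.L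
  84)) (.L 99)))) (.L 32)) (.L 9)) (.C 0 2 16 1 (.L 18) (.L 39))) (.L 5))
  (.C 0 1 4 1 (.T 1 2 (.T 2 1 (.L 2) (.C 1 2 2 1 (.L 2) (.L 14))) (.T 1 4
  (.C 1 2 2 1 (.L 3) (.C 1 2 1 2 (.L 3) (.L 8))) (.C 0 1 8 1 (.C 1 2 1 1 (.C
  1 2 2 1 (.T 1 8 (.L 3) (.T 1 16 (.L 31) (.C 1 2 4 1 (.C 1 2 8 1 (.L 46)
  (.T 1 32 (.L 45) (.O 4))) (.O 4)))) (.T 1 8 (.T 2 1 (.L 3) (.L 153)) (.O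
  4))) (.O 4)) (.L 26)))) (.T 1 2 (.C 1 2 4 1 (.L 2) (.G 4 11 1 4 16 8 [.n,
  .n, .g 1 0 2856 0, .g 1 1 4495 0])) (.L 68)))) (.T 1 1 (.C 1 2 2 1 (.C 0 1
  1 4 (.T 2 1 (.T 4 1 (.G 114 197 0 1 2 1 [.n, .g 1 17 6391 0, .n, .n]) (.L
  50)) (.G 26 35 2 1 1 1 [.g 43 63 0 0, .n, .n, .g 39 64 0 0, .n])) (.C 0 1
  1 8 (.C 0 2 1 2 (.T 2 1 (.C 0 1 2 1 (.T 4 1 (.G 81 129 0 4260 17039 8519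
  [.g 1 37 1 0, .n, .n, .n]) (.L 33)) (.L 20)) (.L 5)) (.L 10)) (.L 10)))
  (.T 2 1 (.L 15) (.T 1 2 (.L 34) (.L 12)))) (.C 0 1 1 4 (.G 2 82 2 174 349
  87 [.n, .g 32 5 0 0, .g 8 3 1066 0, .g 7 1 1056 0]) (.T 1 2 (.T 2 1 (.L 4)
  (.L 23)) (.L 30))))) (.C 0 2 8 1 (.T 1 1 (.T 2 1 (.T 4 1 (.T 8 1 (.T 16 1
  (.L 160) (.L 32)) (.L 9)) (.L 39)) (.L 5)) (.C 0 1 4 1 (.T 1 2 (.T 2 1 (.L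
  2) (.C 1 2 2 1 (.L 2) (.L 14))) (.C 0 1 8 1 (.C 1 2 1 1 (.T 1 4 (.L 3) (.C
  1 2 2 1 (.T 1 8 (.L 3) (.T 1 16 (.L 31) (.C 1 2 4 1 (.C 1 2 8 1 (.L 46)
  (.T 1 32 (.L 45) (.O 4))) (.O 4)))) (.T 1 8 (.C 1 2 1 2 (.L 22) (.L 8))
  (.O 4)))) (.L 24)) (.L 40))) (.T 1 2 (.C 1 2 4 1 (.L 2) (.L 254)) (.L
  68)))) (.T 1 1 (.C 1 2 2 1 (.C 0 1 1 4 (.T 2 1 (.T 4 1 (.G 352 321 0 642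
  1284 642 [.n, .n, .n, .g 64 0 37 0, .n, .g 64 41 0 0]) (.L 50)) (.G 26 35
  2 1 1 1 [.g 43 63 0 0, .n, .n, .g 39 64 0 0, .n])) (.C 0 2 1 2 (.C 0 1 1 8
  (.T 2 1 (.C 0 1 2 1 (.T 4 1 (.G 84 210 0 7777 31107 15554 [.g 64 2 25 0,
  .n, .n, .n]) (.L 33)) (.L 20)) (.L 5)) (.L 10)) (.L 10))) (.T 2 1 (.L 15)
  (.T 1 2 (.L 34) (.L 12)))) (.C 0 1 1 4 (.L 41) (.T 1 2 (.T 2 1 (.L 4) (.L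
  23)) (.L 30))))))) (.B 0 2 1 (.B 2 1 4 (.L 155) (.L 162)) (.B 1 2 1 (.L
  162) (.L 155)))) (by decide +kernel)

theorem ES0_c4 : CoF ESTab ⟨⟨2054, 720, 40000⟩, ⟨1694, 360, 20000⟩, ⟨5442,
  2656, 80000⟩, ⟨0, 1⟩, ⟨2, 1⟩, ⟨1, 0, 0⟩, ⟨0, 1, 0⟩, ⟨0, 1, 1⟩⟩ :=
CoF.ofG ESTab_B ESBt_E ESBt_U (.B 0 1 2 (.B 2 1 2 (.B 1 1 1 (.L 162) (.B 2 2
  1 (.B 1 1 2 (.L 133) (.B 2 4 1 (.B 1 1 4 (.L 243) (.B 2 8 1 (.B 1 1 8 (.L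
  112) (.B 2 16 1 (.B 1 1 16 (.L 112) (.C 0 2 8 1 (.T 1 1 (.T 2 1 (.T 4 1
  (.T 8 1 (.C 1 2 4 1 (.T 16 1 (.T 32 1 (.L 252) (.C 0 2 32 1 (.L 1) (.G 1
  107 3 478 30 239 [.n, .g 2 1 202 0, .n, .n, .n, .n]))) (.C 1 2 8 1 (.L 6)
  (.T 1 2 (.C 1 2 1 2 (.C 0 1 64 1 (.C 0 2 128 1 (.L 1) (.G 1 54 0 4214063
  2107031 2107031 [.n, .g 1 23 0 0, .n, .n, .n, .n])) (.G 1 217 3 1214431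
  607216 1214431 [.n, .g 4 31 0 0, .n, .n, .n, .n])) (.L 54)) (.L 249))))
  (.C 1 2 1 2 (.L 54) (.O 4))) (.L 9)) (.C 0 2 16 1 (.L 18) (.L 39))) (.L
  5)) (.T 1 2 (.T 2 1 (.L 2) (.C 1 2 4 1 (.L 2) (.C 1 2 1 2 (.L 2) (.L
  14)))) (.C 0 1 4 1 (.T 1 4 (.C 1 2 2 1 (.L 3) (.C 1 2 1 2 (.L 3) (.L 8)))
  (.C 0 2 16 1 (.C 1 2 4 1 (.C 1 2 8 1 (.L 94) (.T 1 8 (.L 3) (.T 1 16 (.L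
  232) (.T 1 32 (.L 94) (.O 4))))) (.C 1 2 1 2 (.T 1 8 (.L 3) (.C 1 2 2 1
  (.T 1 16 (.L 94) (.O 4)) (.O 4))) (.L 8))) (.L 186))) (.L 68)))) (.T 1 1
  (.C 1 2 2 1 (.T 2 1 (.C 0 1 1 4 (.T 4 1 (.G 185 448 0 4345 8690 4345 [.n,
  .n, .n, .g 32 21 0 0, .n, .g 64 0 33 0]) (.G 44 50 1 1 1 1 [.n, .g 1 2
  3849 0, .n, .n])) (.G 50 107 3 1 1 1 [.n, .n, .g 1 25 0 0, .n, .n])) (.T 1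
  2 (.L 56) (.L 12))) (.T 2 1 (.L 15) (.T 1 2 (.L 15) (.L 12)))) (.C 0 1 1 4
  (.L 41) (.T 1 2 (.T 2 1 (.L 4) (.L 23)) (.L 30)))))) (.L 112))) (.L 112)))
  (.L 243))) (.L 133))) (.L 162)) (.B 1 4 1 (.L 97) (.B 2 1 1 (.B 1 1 2 (.L
  97) (.B 2 2 1 (.B 1 1 4 (.L 97) (.B 2 4 1 (.B 1 1 8 (.L 133) (.B 2 8 1 (.B
  2 16 1 (.B 1 1 16 (.L 112) (.C 0 2 8 1 (.T 1 1 (.T 2 1 (.T 4 1 (.T 8 1 (.C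
  1 2 4 1 (.T 16 1 (.T 32 1 (.L 252) (.C 0 2 32 1 (.L 1) (.G 1 107 3 477 30
  239 [.n, .g 2 1 202 0, .n, .n, .n, .n]))) (.C 1 2 8 1 (.L 6) (.T 1 2 (.C 1
  2 1 2 (.C 0 1 64 1 (.C 0 2 128 1 (.L 1) (.G 1 54 0 4208878 2104439 2104439
  [.n, .g 1 23 0 0, .n, .n, .n, .n])) (.G 1 348 3 1039 520 1039 [.n, .g 32
  13 0 0, .n, .n, .n, .n])) (.L 54)) (.L 249)))) (.C 1 2 1 2 (.L 54) (.O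
  4))) (.L 9)) (.C 0 2 16 1 (.L 18) (.L 39))) (.L 5)) (.T 1 2 (.T 2 1 (.L 2)
  (.C 1 2 4 1 (.L 2) (.C 1 2 1 2 (.L 2) (.L 14)))) (.C 0 1 4 1 (.T 1 4 (.C 1
  2 2 1 (.L 3) (.C 1 2 1 2 (.L 3) (.L 8))) (.C 0 2 16 1 (.C 1 2 4 1 (.C 1 2
  8 1 (.L 94) (.T 1 8 (.L 3) (.T 1 16 (.L 232) (.T 1 32 (.L 94) (.O 4)))))
  (.C 1 2 1 2 (.T 1 8 (.L 3) (.C 1 2 2 1 (.T 1 16 (.L 94) (.O 4)) (.O 4)))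
  (.L 8))) (.L 186))) (.L 68)))) (.T 1 1 (.C 1 2 2 1 (.T 2 1 (.C 0 1 1 4 (.T
  4 1 (.G 416 9 0 3208 6416 3208 [.n, .g 32 21 0 0, .n, .n, .n, .g 64 0 33
  0]) (.G 44 50 1 1 1 1 [.n, .g 1 2 4097 0, .n, .n])) (.G 50 107 3 1 1 1
  [.n, .n, .g 1 25 0 0, .n, .n])) (.T 1 2 (.L 56) (.L 12))) (.T 2 1 (.L 15)
  (.T 1 2 (.L 15) (.L 12)))) (.C 0 1 1 4 (.L 41) (.T 1 2 (.T 2 1 (.L 4) (.L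
  23)) (.L 30)))))) (.L 112)) (.L 133))) (.L 133))) (.L 97))) (.L 97))))
  (by decide +kernel)

theorem ES0_c5 : CoF ESTab ⟨⟨2054, 720, 40000⟩, ⟨5442, 2656, 80000⟩, ⟨2054,
  1936, 40000⟩, ⟨0, 1⟩, ⟨2, 1⟩, ⟨1, 0, 0⟩, ⟨0, 1, 0⟩, ⟨0, 1, 1⟩⟩ :=
CoF.ofG ESTab_B ESBt_E ESBt_U (.B 2 1 1 (.B 1 1 2 (.C 0 2 8 1 (.T 1 1 (.T 2
  1 (.T 4 1 (.T 8 1 (.C 1 2 4 1 (.T 16 1 (.T 32 1 (.L 252) (.T 1 2 (.C 0 2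
  32 1 (.L 100) (.G 288 100 1 336 21 168 [.n, .n, .n, .g 1 2 50 0])) (.C 1 2
  8 1 (.L 6) (.C 1 2 1 2 (.C 1 2 2 1 (.L 6) (.L 54)) (.O 4))))) (.C 1 2 8 1
  (.L 6) (.T 1 2 (.C 1 2 1 2 (.C 0 1 64 1 (.C 0 2 128 1 (.L 1) (.G 1 54 0
  4211025 2105512 2105512 [.n, .g 1 23 0 0, .n, .n, .n, .n])) (.G 152 1 1
  1212865 606433 1212865 [.n, .n, .n, .g 32 7 0 0, .g 16 1 0 0])) (.L 54))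
  (.T 1 4 (.B 2 1 2 (.L 249) (.B 0 1 1 (.L 226) (.L 249))) (.L 364))))) (.C
  1 2 1 2 (.L 54) (.O 4))) (.L 9)) (.C 0 2 16 1 (.L 18) (.L 39))) (.L 5))
  (.C 0 1 4 1 (.T 1 2 (.T 2 1 (.L 2) (.C 1 2 2 1 (.L 2) (.L 14))) (.T 1 4
  (.C 1 2 2 1 (.L 3) (.C 1 2 1 2 (.L 3) (.L 8))) (.C 0 1 8 1 (.C 1 2 1 1 (.C
  1 2 2 1 (.T 1 8 (.L 3) (.T 1 16 (.L 194) (.C 1 2 4 1 (.C 1 2 8 1 (.L 232)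
  (.T 1 32 (.L 45) (.O 4))) (.O 4)))) (.T 1 8 (.L 31) (.O 4))) (.O 4)) (.L
  42)))) (.T 1 2 (.C 1 2 4 1 (.L 2) (.G 2 65 1 3 13 7 [.n, .n, .n, .g 2 0
  4247 0])) (.L 68)))) (.T 1 1 (.C 1 2 2 1 (.T 2 1 (.C 0 1 1 4 (.T 4 1 (.G
  185 412 0 1804 3608 1804 [.n, .n, .n, .g 32 23 0 0, .n, .g 64 0 33 0]) (.G
  44 130 2 1 1 1 [.n, .g 1 1 3242 0, .n, .n])) (.C 0 1 1 8 (.T 4 1 (.C 0 2 1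
  2 (.T 8 1 (.G 385 288 3 133 266 266 [.g 32 31 0 0, .n, .n, .n]) (.L 9))
  (.L 101)) (.L 44)) (.L 10))) (.T 1 2 (.L 56) (.L 12))) (.T 2 1 (.L 15) (.T
  1 2 (.L 15) (.L 12)))) (.C 0 1 1 4 (.L 41) (.T 1 2 (.T 2 1 (.L 4) (.L 23))
  (.L 30))))) (.C 0 2 8 1 (.T 1 1 (.T 2 1 (.T 4 1 (.T 8 1 (.C 1 2 4 1 (.T 16
  1 (.T 32 1 (.L 55) (.T 1 2 (.C 0 2 32 1 (.L 100) (.G 288 100 1 336 21 168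
  [.n, .n, .n, .g 5 12 263 0])) (.C 1 2 8 1 (.L 6) (.C 1 2 1 2 (.C 1 2 2 1
  (.L 6) (.L 235)) (.O 4))))) (.C 1 2 8 1 (.L 6) (.T 1 2 (.C 1 2 1 2 (.B 0 2
  1 (.L 32) (.C 0 1 64 1 (.C 0 2 128 1 (.L 1) (.G 1 184 0 4287293 2143647
  2143647 [.n, .g 6 67 0 0, .n, .n, .n, .n])) (.G 1 217 3 1232921 616461
  1232921 [.n, .g 4 31 0 0, .n, .n, .n, .n]))) (.L 146)) (.L 226)))) (.C 1 2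
  1 2 (.L 88) (.O 4))) (.L 9)) (.C 0 2 16 1 (.L 18) (.L 39))) (.L 5)) (.C 0
  1 4 1 (.T 1 2 (.T 2 1 (.L 2) (.C 1 2 2 1 (.L 2) (.L 14))) (.C 0 1 8 1 (.C
  1 2 1 1 (.T 1 4 (.L 3) (.T 1 8 (.C 1 2 2 1 (.L 3) (.T 2 1 (.L 3) (.L
  153))) (.C 1 2 2 1 (.T 1 16 (.L 31) (.C 1 2 4 1 (.C 1 2 8 1 (.L 46) (.T 1
  32 (.L 45) (.O 4))) (.O 4))) (.O 4)))) (.L 24)) (.G 60 257 3 1 1 1 [.n, .g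
  16 3 0 0, .n, .n]))) (.T 1 2 (.C 1 2 4 1 (.L 2) (.G 216 49 2 3 12 6 [.n,
  .g 13 64 0 0, .n, .n])) (.L 68)))) (.T 1 1 (.C 1 2 2 1 (.T 2 1 (.T 4 1 (.C
  0 1 1 4 (.G 510 448 0 4046 8093 4046 [.g 8 7 0 0, .n, .n, .g 16 0 9 0, .n,
  .n]) (.C 0 1 1 8 (.C 0 2 1 2 (.T 8 1 (.C 0 1 2 1 (.G 382 233 0 5902 23608
  11804 [.n, .g 64 33 0 0, .n, .n]) (.L 67)) (.L 9)) (.L 10)) (.L 10))) (.L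
  126)) (.T 1 2 (.L 34) (.L 12))) (.T 2 1 (.L 15) (.T 1 2 (.L 34) (.L 12))))
  (.C 0 1 1 4 (.G 2 83 3 341 681 170 [.n, .g 32 5 0 0, .g 64 23 0 0, .g 4 1
  0 0]) (.T 1 2 (.T 2 1 (.L 4) (.L 23)) (.L 30)))))) (.B 0 2 1 (.B 2 1 2 (.B
  1 1 2 (.L 255) (.B 2 2 1 (.B 1 1 4 (.L 171) (.B 2 4 1 (.C 0 2 8 1 (.T 1 1
  (.T 2 1 (.T 4 1 (.T 8 1 (.T 16 1 (.L 99) (.L 32)) (.L 9)) (.L 39)) (.L 5))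
  (.C 0 1 4 1 (.T 1 2 (.T 2 1 (.L 2) (.C 1 2 2 1 (.L 2) (.L 14))) (.C 0 1 8
  1 (.C 1 2 1 1 (.T 1 4 (.L 3) (.C 1 2 2 1 (.T 1 8 (.L 3) (.T 1 16 (.L 194)
  (.C 1 2 4 1 (.C 1 2 8 1 (.L 45) (.T 1 32 (.L 45) (.O 4))) (.O 4)))) (.T 1
  8 (.L 31) (.O 4)))) (.L 24)) (.L 40))) (.T 1 2 (.C 1 2 4 1 (.L 2) (.L
  254)) (.L 68)))) (.T 1 1 (.C 1 2 2 1 (.C 0 1 1 4 (.T 2 1 (.G 320 50 2 1 1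
  1 [.n, .n, .n, .g 32768 17 0 0, .g 64 0 31 0, .n]) (.G 26 35 2 1 1 1 [.g
  43 63 0 0, .n, .n, .g 39 64 0 0, .n])) (.C 0 1 1 8 (.C 0 2 1 2 (.T 2 1 (.T
  4 1 (.G 446 250 0 611 1221 1221 [.n, .n, .n, .g 57 64 0 0]) (.L 33)) (.L
  5)) (.L 10)) (.L 10))) (.T 2 1 (.L 15) (.T 1 2 (.L 34) (.L 12)))) (.C 0 1
  1 4 (.L 41) (.T 1 2 (.T 2 1 (.L 4) (.L 23)) (.L 30))))) (.L 171))) (.L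
  255))) (.L 162)) (.B 2 2 1 (.C 0 2 8 1 (.T 1 1 (.T 2 1 (.T 4 1 (.T 8 1 (.C
  1 2 4 1 (.T 16 1 (.T 32 1 (.L 252) (.B 1 1 1 (.B 0 1 4 (.L 99) (.T 1 2 (.C
  0 2 32 1 (.L 100) (.G 107 100 1 106 7 53 [.n, .n, .n, .g 2 5 317 0])) (.C
  1 2 8 1 (.L 6) (.C 1 2 1 2 (.C 1 2 2 1 (.L 6) (.L 54)) (.O 4))))) (.L
  99))) (.C 1 2 8 1 (.L 6) (.C 1 2 1 2 (.C 1 2 2 1 (.B 1 1 1 (.C 1 2 4 1 (.L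
  6) (.T 1 2 (.T 2 1 (.L 6) (.L 492)) (.L 284))) (.L 284)) (.T 1 2 (.C 1 2 1
  2 (.B 1 1 1 (.B 0 1 4 (.L 318) (.T 2 1 (.L 54) (.C 0 1 256 1 (.C 0 2 512 1
  (.L 1) (.L 203)) (.L 203)))) (.L 384)) (.L 54)) (.C 0 1 256 1 (.B 0 1 4
  (.L 384) (.B 1 1 1 (.L 223) (.L 384))) (.L 492)))) (.C 1 2 1 4 (.T 1 2 (.L
  54) (.T 1 4 (.L 54) (.L 364))) (.L 54))))) (.C 1 2 1 2 (.L 54) (.O 4)))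
  (.L 9)) (.C 0 2 16 1 (.L 18) (.L 39))) (.L 5)) (.C 0 1 4 1 (.T 1 2 (.T 2 1
  (.L 2) (.C 1 2 2 1 (.L 2) (.L 14))) (.T 1 4 (.C 1 2 2 1 (.L 3) (.C 1 2 1 2
  (.L 3) (.L 8))) (.C 0 1 8 1 (.C 1 2 1 1 (.C 1 2 2 1 (.T 1 8 (.L 3) (.T 1
  16 (.L 194) (.C 1 2 4 1 (.C 1 2 8 1 (.L 232) (.C 1 2 1 2 (.L 45) (.T 1 32
  (.L 45) (.O 4)))) (.O 4)))) (.T 1 8 (.L 31) (.O 4))) (.O 4)) (.L 42))))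
  (.T 1 2 (.C 1 2 4 1 (.L 2) (.G 2 61 2 4 15 7 [.n, .n, .n, .g 1 0 1788 0]))
  (.L 68)))) (.T 1 1 (.C 1 2 2 1 (.T 2 1 (.C 0 1 1 4 (.T 4 1 (.G 256 428 0
  3746 7492 3746 [.n, .n, .n, .n, .g 64 0 33 0, .g 64 39 0 0]) (.G 130 126 2
  1 1 1 [.n, .n, .g 2 1 4350 0, .n])) (.C 0 1 1 8 (.C 0 2 1 2 (.T 4 1 (.G
  460 300 0 30 60 60 [.n, .n, .n, .g 8 5 0 0]) (.L 33)) (.L 20)) (.L 10)))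
  (.T 1 2 (.L 56) (.L 12))) (.T 2 1 (.L 15) (.T 1 2 (.L 15) (.L 12)))) (.C 0
  1 1 4 (.L 41) (.T 1 2 (.T 2 1 (.L 4) (.L 23)) (.L 30))))) (.B 0 1 2 (.L
  255) (.B 1 4 1 (.B 0 1 4 (.L 243) (.B 1 8 1 (.B 0 1 8 (.B 2 1 2 (.B 1 1 1
  (.L 112) (.B 1 1 2 (.L 112) (.B 2 2 1 (.B 1 1 4 (.L 112) (.B 2 4 1 (.B 2 8
  1 (.B 2 16 1 (.C 0 2 8 1 (.C 0 1 4 1 (.T 1 1 (.T 2 1 (.C 1 2 2 1 (.T 4 1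
  (.T 8 1 (.C 1 2 4 1 (.T 16 1 (.T 32 1 (.L 99) (.L 1)) (.L 1)) (.L 54)) (.L
  9)) (.L 18)) (.C 1 2 1 2 (.L 54) (.L 159))) (.L 5)) (.T 1 2 (.T 2 1 (.L 2)
  (.C 1 2 2 1 (.L 2) (.L 14))) (.T 1 4 (.C 1 2 2 1 (.L 3) (.C 1 2 1 2 (.L 3)
  (.L 8))) (.C 0 2 16 1 (.C 1 2 4 1 (.L 192) (.C 1 2 1 2 (.T 1 8 (.L 3) (.T
  1 16 (.C 1 2 2 1 (.L 192) (.O 4)) (.O 4))) (.L 8))) (.L 186))))) (.T 1 1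
  (.T 2 1 (.C 1 2 4 1 (.T 4 1 (.T 8 1 (.C 0 1 1 2 (.T 16 1 (.G 1 252 0 15243
  30487 60974 [.n, .g 16 0 9 0, .n, .n, .n, .g 64 1 0 0]) (.G 108 1 1 29 57
  115 [.g 256 1 214 0, .n, .g 6 15 4384 0, .n])) (.L 67)) (.L 9)) (.L 44))
  (.L 192)) (.L 5)) (.T 1 2 (.C 1 2 4 1 (.L 2) (.L 192)) (.L 68)))) (.C 0 2
  1 2 (.T 1 1 (.T 2 1 (.C 1 2 8 1 (.T 4 1 (.C 0 1 1 4 (.L 192) (.G 332 107 3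
  122 15 244 [.g 2 2 57 0, .n, .n, .n])) (.G 98 126 2 1 1 1 [.n, .n, .n, .n,
  .g 2 1 5364 0])) (.L 192)) (.L 5)) (.C 0 1 1 4 (.L 396) (.C 1 2 8 1 (.C 0
  1 1 8 (.L 396) (.T 1 2 (.L 216) (.L 30))) (.L 26)))) (.T 1 1 (.C 0 2 1 4
  (.T 2 1 (.G 478 67 3 1 1 1 [.n, .n, .g 1 30 250 0, .n]) (.C 0 2 2 1 (.L 5)
  (.L 350))) (.L 414)) (.C 0 1 1 8 (.L 190) (.T 1 2 (.T 2 1 (.L 191) (.L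
  286)) (.L 30)))))) (.L 112)) (.L 112)) (.L 112))) (.L 112)))) (.L 112))
  (.C 0 2 8 1 (.T 1 1 (.T 2 1 (.T 4 1 (.T 8 1 (.C 1 2 4 1 (.T 16 1 (.T 32 1
  (.L 252) (.C 0 2 32 1 (.L 1) (.G 1 107 3 492 31 246 [.n, .g 2 1 196 0, .n,
  .n, .n, .n]))) (.C 1 2 8 1 (.L 6) (.T 1 2 (.C 1 2 1 2 (.C 0 1 64 1 (.C 0 2
  128 1 (.L 1) (.G 1 54 0 4244160 2122080 2122080 [.n, .g 1 23 0 0, .n, .n,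
  .n, .n])) (.G 152 1 1 1222228 611114 1222228 [.n, .n, .n, .g 32 7 0 0, .g
  16 1 0 0])) (.L 54)) (.L 223)))) (.C 1 2 1 2 (.L 54) (.O 4))) (.L 9)) (.C
  0 2 16 1 (.L 18) (.L 39))) (.L 5)) (.T 1 2 (.T 2 1 (.L 2) (.C 1 2 4 1 (.L
  2) (.C 1 2 1 2 (.L 2) (.L 14)))) (.C 0 1 4 1 (.T 1 4 (.C 1 2 2 1 (.L 3)
  (.C 1 2 1 2 (.L 3) (.L 8))) (.C 0 2 16 1 (.C 1 2 4 1 (.C 1 2 8 1 (.L 94)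
  (.T 1 8 (.L 3) (.T 1 16 (.L 232) (.T 1 32 (.L 94) (.O 4))))) (.C 1 2 1 2
  (.T 1 8 (.L 3) (.C 1 2 2 1 (.T 1 16 (.L 94) (.O 4)) (.O 4))) (.L 8))) (.L
  186))) (.L 68)))) (.T 1 1 (.C 1 2 2 1 (.T 2 1 (.C 0 1 1 4 (.T 4 1 (.G 268
  9 0 3123 6246 3123 [.n, .n, .g 64 41 0 0, .n, .n, .g 64 0 33 0]) (.G 86 50
  1 1 1 1 [.g 5 1 7996 0, .n, .n, .n, .n])) (.G 50 107 3 1 1 1 [.n, .n, .g 1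
  25 0 0, .n, .n])) (.T 1 2 (.L 56) (.L 12))) (.T 2 1 (.L 15) (.T 1 2 (.L
  15) (.L 12)))) (.C 0 1 1 4 (.L 41) (.T 1 2 (.T 2 1 (.L 4) (.L 23)) (.L
  30)))))) (.B 1 1 2 (.B 0 2 1 (.L 112) (.B 1 2 1 (.B 0 1 2 (.L 112) (.B 1 4
  1 (.B 0 1 4 (.L 112) (.B 0 1 8 (.L 112) (.B 0 1 16 (.L 112) (.C 0 2 8 1
  (.C 0 1 4 1 (.T 1 1 (.T 2 1 (.C 1 2 2 1 (.T 4 1 (.T 8 1 (.C 1 2 4 1 (.T 16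
  1 (.T 32 1 (.L 99) (.L 1)) (.L 1)) (.L 54)) (.L 9)) (.L 18)) (.C 1 2 1 2
  (.L 54) (.L 159))) (.L 5)) (.T 1 2 (.T 2 1 (.L 2) (.C 1 2 2 1 (.L 2) (.L
  14))) (.T 1 4 (.C 1 2 2 1 (.L 3) (.C 1 2 1 2 (.L 3) (.L 8))) (.C 0 2 16 1
  (.C 1 2 4 1 (.L 192) (.C 1 2 1 2 (.T 1 8 (.L 3) (.C 1 2 2 1 (.L 192) (.O
  4))) (.L 8))) (.L 186))))) (.T 1 1 (.T 2 1 (.C 1 2 4 1 (.T 4 1 (.T 8 1 (.C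
  0 1 1 2 (.T 16 1 (.G 1 252 0 15243 30487 60974 [.n, .g 64 0 35 0, .n, .n,
  .n, .g 64 1 0 0]) (.G 108 1 1 29 57 115 [.g 256 1 218 0, .n, .g 6 15 4292
  0, .n])) (.L 67)) (.L 9)) (.L 44)) (.L 192)) (.L 5)) (.T 1 2 (.C 1 2 4 1
  (.L 2) (.L 192)) (.L 68)))) (.T 1 1 (.T 2 1 (.C 1 2 2 1 (.C 0 1 1 4 (.C 0
  1 2 1 (.L 239) (.C 0 1 1 2 (.L 54) (.T 4 1 (.T 8 1 (.L 54) (.L 9)) (.L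
  44)))) (.G 139 107 3 1 1 1 [.g 1 51 0 0, .n, .n, .n])) (.L 15)) (.T 1 2
  (.L 34) (.L 12))) (.C 0 1 1 4 (.L 41) (.T 1 2 (.T 2 1 (.L 4) (.L 23)) (.L
  30)))))))) (.L 112))) (.L 112))) (.L 112)))) (.L 243))))))
  (by decide +kernel)

end Pool.Agent.TET.Cvr
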