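import Pool.Agent.Helper37_TET.ES0_000

/-!
# MP_c7c9bf_co: cover of the charts, root 0, assembly 0
-/

set_option autoImplicit false
set_option maxRecDepth 100000

namespace Pool.Agent.TET.Cvr

theorem ES0_t0 : CoF ESTab ⟨⟨2054, 1936, 40000⟩, ⟨3388, 1936, 40000⟩, ⟨1694,
  1576, 20000⟩, ⟨0, 1⟩, ⟨2, 1⟩, ⟨1, 0, 0⟩, ⟨0, 1, 0⟩, ⟨0, 1, 1⟩⟩ :=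
  CoF.b 2 2 1 rfl rfl rfl ES0_c1 ES0_c2

theorem ES0_t1 : CoF ESTab ⟨⟨2054, 1936, 40000⟩, ⟨1694, 360, 20000⟩, ⟨1694,
  1576, 20000⟩, ⟨0, 1⟩, ⟨2, 1⟩, ⟨1, 0, 0⟩, ⟨0, 1, 0⟩, ⟨0, 1, 1⟩⟩ :=
  CoF.b 1 1 1 rfl rfl rfl ES0_c0 ES0_t0

theorem ES0_t2 : CoF ESTab ⟨⟨2054, 720, 40000⟩, ⟨1694, 360, 20000⟩, ⟨2054,
  1936, 40000⟩, ⟨0, 1⟩, ⟨2, 1⟩, ⟨1, 0, 0⟩, ⟨0, 1, 0⟩, ⟨0, 1, 1⟩⟩ :=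
  CoF.b 1 2 1 rfl rfl rfl ES0_c4 ES0_c5

theorem ES0_t3 : CoF ESTab ⟨⟨360, 360, 20000⟩, ⟨1694, 360, 20000⟩, ⟨2054,
  1936, 40000⟩, ⟨0, 1⟩, ⟨2, 1⟩, ⟨1, 0, 0⟩, ⟨0, 1, 0⟩, ⟨0, 1, 1⟩⟩ :=
  CoF.b 0 1 1 rfl rfl rfl ES0_c3 ES0_t2

theorem ES0_t4 : CoF ESTab ⟨⟨360, 360, 20000⟩, ⟨1694, 360, 20000⟩, ⟨1694,
  1576, 20000⟩, ⟨0, 1⟩, ⟨2, 1⟩, ⟨1, 0, 0⟩, ⟨0, 1, 0⟩, ⟨0, 1, 1⟩⟩ :=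
  CoF.b 2 1 1 rfl rfl rfl ES0_t1 ES0_t3

end Pool.Agent.TET.Cvr
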