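import Pool.Agent.Helper37_TET.ESBt

/-!
# MP_c7c9bf_co: cover of the charts, root 1 part 0
-/

set_option autoImplicit false
set_option maxRecDepth 100000

namespace Pool.Agent.TET.Cvr

theorem ES1_c0 : CoF ESTab ⟨⟨1936, 2054, 40000⟩, ⟨360, 1694, 20000⟩, ⟨1936,
  3388, 40000⟩, ⟨0, 1⟩, ⟨2, 1⟩, ⟨1, 0, 0⟩, ⟨0, 1, 0⟩, ⟨0, 1, 1⟩⟩ :=
CoF.ofG ESTab_B ESBt_E ESBt_U (.B 0 1 2 (.B 2 1 1 (.B 1 1 2 (.C 0 2 8 1 (.T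
  1 1 (.T 2 1 (.T 4 1 (.T 8 1 (.T 16 1 (.T 32 1 (.C 0 2 16 1 (.C 1 2 8 1 (.L
  73) (.O 4)) (.C 0 2 1 2 (.C 0 1 1 8 (.O 4) (.L 100)) (.L 248))) (.T 1 2
  (.T 2 1 (.B 0 1 1 (.B 0 2 1 (.B 2 1 2 (.L 28) (.C 0 2 16 1 (.C 1 2 8 1 (.L
  1) (.O 4)) (.C 1 2 4 1 (.C 0 2 1 1 (.C 0 2 2 1 (.C 0 1 1 8 (.O 4) (.L
  110)) (.L 110)) (.L 47)) (.O 4)))) (.L 28)) (.L 28)) (.L 240)) (.L 84)))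
  (.L 32)) (.L 9)) (.L 18)) (.L 5)) (.C 0 1 4 1 (.T 1 2 (.T 2 1 (.L 4) (.C 1
  2 2 1 (.L 4) (.L 14))) (.C 0 1 8 1 (.C 1 2 1 1 (.T 1 4 (.L 3) (.C 1 2 2 1
  (.T 1 8 (.L 79) (.T 1 16 (.C 1 2 4 1 (.C 1 2 8 1 (.L 209) (.T 2 1 (.L 148)
  (.T 1 2 (.L 76) (.L 125)))) (.T 2 1 (.C 1 2 1 2 (.L 76) (.L 25)) (.L
  119))) (.C 1 2 4 1 (.T 1 32 (.C 1 2 8 1 (.C 1 2 16 1 (.L 57) (.L 125)) (.L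
  25)) (.L 119)) (.O 4)))) (.T 1 8 (.C 1 2 1 2 (.T 2 1 (.L 64) (.L 8)) (.L
  8)) (.O 4)))) (.L 8)) (.L 61))) (.T 1 2 (.T 2 1 (.L 2) (.L 26)) (.L 11))))
  (.T 1 1 (.C 0 1 1 4 (.T 2 1 (.C 1 2 1 4 (.C 0 1 2 1 (.L 227) (.C 1 2 2 1
  (.T 4 1 (.G 240 506 0 143488 71744 286976 [.g 16 65 10 0, .n, .n, .n]) (.L
  51)) (.L 183))) (.L 70)) (.G 27 58 3 1 1 1 [.n, .n, .g 64 17 0 0, .g 64 9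
  0 0, .n])) (.C 0 2 1 4 (.C 0 1 1 8 (.C 0 1 2 1 (.T 2 1 (.T 4 1 (.G 167 231
  0 15905 63622 31811 [.g 8 0 1 0, .n, .n, .n]) (.L 33)) (.L 5)) (.L 20))
  (.L 10)) (.L 10))) (.C 0 1 1 4 (.G 82 173 1 1 1 1 [.n, .n, .g 64 5 0 0,
  .n]) (.T 1 2 (.G 215 115 1 1 1 1 [.n, .n, .n, .g 256 1 0 0]) (.L 29)))))
  (.B 2 2 1 (.L 395) (.C 0 2 8 1 (.T 1 1 (.T 2 1 (.T 4 1 (.T 8 1 (.T 16 1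
  (.T 32 1 (.C 0 2 16 1 (.C 1 2 8 1 (.L 230) (.O 4)) (.C 0 1 1 8 (.O 4) (.L
  140))) (.T 1 2 (.T 2 1 (.C 1 2 4 1 (.C 0 2 32 1 (.L 1) (.G 234 180 1 226
  14 113 [.n, .n, .n, .g 1 2 99 0])) (.O 4)) (.L 240)) (.L 84))) (.L 32))
  (.L 9)) (.L 18)) (.L 5)) (.C 0 1 4 1 (.T 1 2 (.T 2 1 (.L 4) (.C 1 2 2 1
  (.L 4) (.L 14))) (.C 0 1 8 1 (.C 1 2 1 1 (.T 1 4 (.L 3) (.C 1 2 2 1 (.T 1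
  8 (.L 79) (.T 1 16 (.C 1 2 4 1 (.C 1 2 8 1 (.L 209) (.T 2 1 (.L 148) (.T 1
  2 (.L 76) (.L 125)))) (.T 2 1 (.C 1 2 1 2 (.L 76) (.L 25)) (.L 119))) (.C
  1 2 4 1 (.T 1 32 (.C 1 2 8 1 (.C 1 2 16 1 (.L 57) (.L 125)) (.L 25)) (.L
  119)) (.O 4)))) (.T 1 8 (.C 1 2 1 2 (.T 2 1 (.L 64) (.L 8)) (.L 8)) (.O
  4)))) (.L 8)) (.L 60))) (.T 1 2 (.C 1 2 4 1 (.L 2) (.G 4 49 2 5 22 11 [.n,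
  .n, .g 64 41 0 0, .g 64 59 0 0])) (.L 11)))) (.T 1 1 (.C 0 1 1 4 (.T 2 1
  (.C 1 2 1 4 (.C 0 1 2 1 (.L 227) (.C 1 2 2 1 (.T 4 1 (.G 117 113 0 234673
  117337 469346 [.n, .n, .n, .g 64 61 14 0]) (.L 51)) (.L 183))) (.L 70))
  (.G 27 35 2 1 1 1 [.n, .n, .g 64 23 0 0, .g 64 17 0 0, .n])) (.C 0 2 1 4
  (.C 0 1 1 8 (.C 0 1 2 1 (.T 2 1 (.T 4 1 (.G 7 129 0 25895 103581 51791 [.g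
  4 1058 5 0, .n, .n]) (.L 51)) (.L 5)) (.L 20)) (.L 10)) (.L 10))) (.C 0 1
  1 4 (.G 173 82 2 1 1 1 [.n, .g 5 13 0 0, .n, .n]) (.T 1 2 (.G 115 215 3 1
  1 1 [.n, .g 1 145 0 0, .n, .n, .n]) (.L 29))))))) (.B 0 2 1 (.C 0 2 8 1
  (.T 1 1 (.T 2 1 (.T 4 1 (.T 8 1 (.T 16 1 (.T 32 1 (.C 0 2 16 1 (.C 1 2 8 1
  (.L 73) (.O 4)) (.C 0 2 1 2 (.C 0 1 1 8 (.O 4) (.L 100)) (.L 248))) (.T 1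
  2 (.T 2 1 (.C 0 2 16 1 (.C 1 2 8 1 (.L 1) (.O 4)) (.C 0 2 1 2 (.C 0 2 2 1
  (.C 1 2 32 1 (.C 0 2 8 1 (.C 0 1 1 8 (.O 4) (.L 110)) (.L 110)) (.O 4))
  (.G 499 267 3 1 1 1 [.g 27 65 0 0, .g 19 64 0 0, .g 2 0 4873 0, .g 1 0
  4669 0])) (.L 324))) (.L 240)) (.L 84))) (.L 32)) (.L 9)) (.L 18)) (.L 5))
  (.C 0 1 4 1 (.T 1 2 (.T 2 1 (.L 4) (.C 1 2 2 1 (.L 4) (.L 14))) (.C 0 1 8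
  1 (.C 1 2 1 1 (.T 1 4 (.L 3) (.C 1 2 2 1 (.T 1 8 (.L 64) (.T 1 16 (.C 1 2
  4 1 (.L 244) (.T 2 1 (.L 79) (.L 25))) (.C 1 2 4 1 (.T 1 32 (.C 1 2 8 1
  (.L 63) (.L 25)) (.L 25)) (.O 4)))) (.T 1 8 (.C 1 2 1 2 (.L 189) (.L 8))
  (.O 4)))) (.L 8)) (.L 60))) (.T 1 2 (.C 1 2 4 1 (.L 2) (.G 4 11 1 4 16 8
  [.n, .n, .g 5 1 17787 0, .g 1 1 4441 0])) (.L 11)))) (.T 1 1 (.C 0 1 1 4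
  (.T 2 1 (.C 1 2 1 4 (.C 0 1 2 1 (.L 106) (.C 1 2 2 1 (.T 4 1 (.G 448 240 0
  143488 71744 286976 [.g 64 22 5 0, .n, .n, .n]) (.L 51)) (.L 93))) (.L
  70)) (.G 27 35 2 1 1 1 [.n, .n, .g 64 21 0 0, .g 64 17 0 0, .n])) (.C 0 2
  1 4 (.C 0 1 1 8 (.C 0 1 2 1 (.T 2 1 (.T 4 1 (.G 84 174 0 7699 30795 15397
  [.g 64 3 25 0, .n, .n, .n]) (.L 51)) (.L 5)) (.L 20)) (.L 10)) (.L 10)))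
  (.C 0 1 1 4 (.G 2 83 3 331 662 166 [.n, .g 64 11 0 0, .g 64 25 0 0, .g 32
  9 0 0]) (.T 1 2 (.T 2 1 (.L 4) (.L 23)) (.L 29))))) (.C 0 2 8 1 (.T 1 1
  (.T 2 1 (.T 4 1 (.T 8 1 (.T 16 1 (.T 32 1 (.C 0 2 16 1 (.C 1 2 8 1 (.L 73)
  (.O 4)) (.C 0 2 1 2 (.C 0 1 1 8 (.O 4) (.L 100)) (.L 248))) (.T 1 2 (.B 1
  1 1 (.L 28) (.T 2 1 (.B 1 1 2 (.L 28) (.B 2 2 1 (.C 0 2 16 1 (.C 1 2 8 1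
  (.L 1) (.O 4)) (.C 0 2 1 2 (.C 0 2 2 1 (.C 1 2 32 1 (.C 0 2 8 1 (.C 0 1 1
  8 (.O 4) (.L 110)) (.L 110)) (.O 4)) (.G 124 163 3 1 1 1 [.n, .n, .n, .g 1
  0 1643 0])) (.L 324))) (.L 28))) (.L 240))) (.L 84))) (.L 32)) (.L 9)) (.L
  18)) (.L 5)) (.C 0 1 4 1 (.T 1 2 (.T 2 1 (.L 4) (.C 1 2 2 1 (.L 4) (.L
  14))) (.C 0 1 8 1 (.C 1 2 1 1 (.T 1 4 (.L 3) (.C 1 2 2 1 (.T 1 8 (.L 22)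
  (.T 1 16 (.C 1 2 4 1 (.C 1 2 8 1 (.L 209) (.T 2 1 (.L 148) (.T 1 2 (.L 76)
  (.L 125)))) (.T 2 1 (.C 1 2 1 2 (.L 76) (.L 25)) (.L 119))) (.C 1 2 4 1
  (.T 1 32 (.C 1 2 8 1 (.C 1 2 16 1 (.L 63) (.L 125)) (.L 25)) (.L 119)) (.O
  4)))) (.T 1 8 (.C 1 2 1 2 (.T 2 1 (.L 64) (.L 8)) (.L 8)) (.O 4)))) (.L
  8)) (.L 61))) (.T 1 2 (.T 2 1 (.L 2) (.L 26)) (.L 11)))) (.T 1 1 (.C 0 1 1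
  4 (.T 2 1 (.C 1 2 1 4 (.C 0 1 2 1 (.L 106) (.C 1 2 2 1 (.T 4 1 (.G 174 280
  0 44818 22409 89637 [.g 11 67 6 0, .n, .n, .n]) (.L 51)) (.L 206))) (.L
  70)) (.G 27 35 2 1 1 1 [.n, .n, .g 64 21 0 0, .g 64 17 0 0, .n])) (.C 0 2
  1 4 (.C 0 1 1 8 (.C 0 1 2 1 (.C 0 2 2 1 (.T 2 1 (.T 4 1 (.G 210 167 0 7777
  31107 31107 [.g 8 0 3 0, .n, .n, .n]) (.L 33)) (.L 5)) (.B 1 1 1 (.L 20)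
  (.C 0 2 1 2 (.B 2 2 1 (.C 0 1 1 1 (.T 2 1 (.G 204 50 2 1 1 1 [.n, .n, .n,
  .g 175 1 1022 0]) (.L 330)) (.L 20)) (.L 20)) (.L 20)))) (.L 20)) (.L 10))
  (.L 10))) (.C 0 1 1 4 (.G 173 109 3 1 1 1 [.n, .g 64 31 0 0, .n, .n]) (.T
  1 2 (.G 115 371 3 1 1 1 [.n, .g 2 299 0 0, .n, .n, .n]) (.L 29))))))) (.B
  1 2 1 (.B 0 1 4 (.B 0 2 1 (.B 2 1 1 (.L 69) (.B 2 1 2 (.L 69) (.B 0 4 1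
  (.B 2 1 4 (.L 69) (.B 0 8 1 (.B 0 16 1 (.C 0 2 8 1 (.T 1 1 (.T 2 1 (.T 4 1
  (.T 8 1 (.T 16 1 (.T 32 1 (.C 0 2 16 1 (.L 180) (.L 110)) (.L 28)) (.L
  28)) (.L 28)) (.L 18)) (.L 5)) (.C 0 1 4 1 (.T 1 2 (.T 2 1 (.L 4) (.C 1 2
  2 1 (.L 4) (.L 14))) (.C 0 1 8 1 (.C 1 2 1 1 (.T 1 4 (.L 3) (.C 1 2 2 1
  (.T 1 8 (.L 79) (.C 1 2 4 1 (.T 1 16 (.C 1 2 8 1 (.L 176) (.T 2 1 (.L 176)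
  (.T 1 2 (.L 76) (.L 136)))) (.T 1 32 (.C 1 2 8 1 (.T 2 1 (.C 1 2 16 1 (.L
  378) (.L 136)) (.L 136)) (.L 221)) (.L 142))) (.L 212))) (.T 1 8 (.C 1 2 1
  2 (.L 212) (.L 8)) (.O 4)))) (.L 8)) (.L 26))) (.C 1 2 4 1 (.C 0 1 1 2 (.L
  61) (.G 10 208 3 1 1 1 [.n, .n, .n, .g 256 1 0 0])) (.L 26)))) (.T 1 1 (.C
  0 1 1 4 (.T 2 1 (.C 1 2 1 4 (.C 0 1 2 1 (.L 106) (.C 1 2 2 1 (.T 4 1 (.G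
  412 240 0 143488 71744 286976 [.g 64 12 3 0, .n, .n, .n]) (.L 51)) (.L
  183))) (.L 70)) (.G 27 35 2 1 1 1 [.n, .n, .g 64 21 0 0, .g 64 17 0 0,
  .n])) (.L 20)) (.C 0 1 1 4 (.L 27) (.G 190 10 3 1 1 1 [.n, .g 1 42 0 0,
  .n, .n])))) (.L 104)) (.L 69))) (.L 69)))) (.L 69)) (.L 69)) (.B 2 2 1 (.L
  69) (.B 0 1 1 (.B 0 2 1 (.B 2 1 2 (.L 442) (.B 0 4 1 (.C 0 2 8 1 (.T 1 1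
  (.T 2 1 (.T 4 1 (.T 8 1 (.T 16 1 (.T 32 1 (.C 0 2 16 1 (.C 0 2 32 1 (.C 0
  1 4 1 (.C 1 2 8 1 (.L 435) (.O 4)) (.L 180)) (.L 110)) (.L 100)) (.L 28))
  (.L 28)) (.L 28)) (.L 18)) (.L 5)) (.C 0 1 4 1 (.T 1 2 (.T 2 1 (.L 4) (.C
  1 2 2 1 (.L 4) (.L 14))) (.C 0 1 8 1 (.C 1 2 1 1 (.T 1 4 (.L 3) (.C 1 2 2
  1 (.T 1 8 (.L 79) (.C 1 2 4 1 (.T 1 16 (.C 1 2 8 1 (.L 176) (.T 2 1 (.L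
  176) (.T 1 2 (.L 76) (.L 136)))) (.T 1 32 (.C 1 2 8 1 (.T 2 1 (.C 1 2 16 1
  (.L 378) (.L 136)) (.L 136)) (.L 221)) (.L 142))) (.L 212))) (.T 1 8 (.C 1
  2 1 2 (.L 212) (.L 8)) (.O 4)))) (.L 8)) (.L 26))) (.C 1 2 4 1 (.C 0 1 1 2
  (.L 307) (.G 208 10 3 1 1 1 [.n, .n, .n, .g 1 68 0 0, .n])) (.L 65)))) (.T
  1 1 (.C 0 1 1 4 (.T 2 1 (.C 1 2 1 4 (.C 0 1 2 1 (.L 106) (.C 1 2 2 1 (.T 4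
  1 (.G 197 231 0 141403 70702 282807 [.g 64 3 1 0, .n, .n, .n]) (.L 51))
  (.L 183))) (.L 70)) (.G 27 35 2 1 1 1 [.n, .n, .g 32 11 0 0, .g 64 17 0 0,
  .n])) (.C 0 1 1 8 (.C 0 2 1 4 (.C 0 1 2 1 (.C 0 2 2 1 (.C 0 1 4 1 (.T 2 1
  (.G 156 467 3 14 110 55 [.g 26 63 0 0, .n, .n, .n]) (.L 5)) (.L 20)) (.L
  20)) (.L 10)) (.L 10)) (.L 10))) (.C 0 1 1 4 (.L 27) (.G 10 190 1 1 1 1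
  [.n, .n, .n, .g 64 1 0 0])))) (.L 442))) (.L 69)) (.L 69)))))
  (by decide +kernel)

theorem ES1_c1 : CoF ESTab ⟨⟨5088, 5442, 80000⟩, ⟨1936, 3388, 40000⟩, ⟨1576,
  1694, 20000⟩, ⟨0, 1⟩, ⟨2, 1⟩, ⟨1, 0, 0⟩, ⟨0, 1, 0⟩, ⟨0, 1, 1⟩⟩ :=
CoF.ofG ESTab_B ESBt_E ESBt_U (.B 1 1 2 (.B 0 1 2 (.C 0 2 8 1 (.T 1 1 (.T 2
  1 (.T 4 1 (.T 8 1 (.C 1 2 4 1 (.C 1 2 8 1 (.L 6) (.C 0 1 64 1 (.C 0 2 32 1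
  (.L 1) (.G 21 1 1 361501 723001 180750 [.n, .g 64 17 6 0, .g 256 79 26 0,
  .n])) (.C 0 2 1 4 (.C 0 1 1 2 (.L 1) (.C 1 2 4 1 (.C 1 2 8 1 (.L 6) (.L
  1)) (.L 1))) (.T 16 1 (.T 32 1 (.O 4) (.C 1 2 1 2 (.C 0 2 1 2 (.C 0 1 1 4
  (.L 1) (.C 0 1 1 8 (.L 1) (.C 1 2 8 1 (.L 121) (.G 339 1 1 464 464 232
  [.n, .n, .g 1 1 2449 0, .n])))) (.G 275 403 3 12 2 3 [.g 16 3 0 0, .g 1 0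
  3331 0, .g 1 0 6760 0, .n])) (.O 4))) (.T 1 2 (.T 2 1 (.C 0 2 1 8 (.G 1 59
  1 1016174 254044 2032348 [.n, .g 27 65 0 0, .n, .n, .n, .n]) (.C 0 2 1 16
  (.G 483 248 0 147 18 293 [.g 1 0 3030 0, .n, .g 29 63 0 0, .g 27 3 32306
  0]) (.L 19))) (.L 21)) (.L 7)))))) (.C 1 2 1 2 (.L 13) (.O 4))) (.L 9))
  (.L 52)) (.L 5)) (.C 0 1 4 1 (.T 1 2 (.T 2 1 (.L 4) (.C 1 2 2 1 (.L 4) (.L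
  14))) (.C 0 1 8 1 (.C 1 2 1 1 (.T 1 4 (.L 3) (.C 1 2 2 1 (.T 1 8 (.L 22)
  (.T 1 16 (.C 1 2 4 1 (.L 344) (.T 2 1 (.L 79) (.L 25))) (.C 1 2 4 1 (.T 1
  32 (.C 1 2 8 1 (.L 63) (.L 25)) (.L 25)) (.O 4)))) (.T 1 8 (.T 2 1 (.L 22)
  (.L 24)) (.O 4)))) (.L 8)) (.L 60))) (.T 1 2 (.C 1 2 4 1 (.L 2) (.G 2 49 2
  6 26 13 [.n, .n, .g 64 25 0 0, .g 32 23 0 0])) (.L 11)))) (.T 1 1 (.C 1 2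
  2 1 (.T 2 1 (.T 4 1 (.T 8 1 (.C 0 1 1 4 (.C 0 1 2 1 (.O 4) (.L 13)) (.C 0
  2 1 2 (.C 0 1 1 8 (.C 0 1 2 1 (.C 1 2 1 2 (.T 16 1 (.O 4) (.G 388 91 0 1 6
  11 [.g 4 1 0 0, .g 15 3 33850 0, .n, .n])) (.L 13)) (.L 17)) (.L 10)) (.L
  10))) (.L 9)) (.G 114 86 0 1 1 1 [.n, .g 1 6 9319 0, .n, .n])) (.T 1 2 (.L
  34) (.L 12))) (.T 2 1 (.L 15) (.T 1 2 (.L 34) (.L 12)))) (.C 0 1 1 4 (.C 0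
  2 1 2 (.C 0 1 2 1 (.G 426 26 3 117 469 234 [.g 512 1 0 0, .g 256 1 0 0,
  .n, .n, .n, .n, .g 64 31 0 0, .g 64 39 0 0]) (.L 26)) (.L 82)) (.T 1 2 (.C
  1 2 2 1 (.L 4) (.L 48)) (.L 29))))) (.B 0 1 4 (.B 2 2 1 (.L 260) (.B 0 2 1
  (.B 2 1 2 (.L 260) (.B 0 4 1 (.B 2 1 4 (.L 474) (.C 0 2 8 1 (.T 1 1 (.T 2
  1 (.T 4 1 (.T 8 1 (.C 1 2 4 1 (.C 1 2 8 1 (.L 6) (.C 0 1 64 1 (.C 0 2 32 1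
  (.L 1) (.G 1 117 3 361296 722591 180648 [.n, .g 10 63 3 0, .n, .n, .n,
  .n])) (.C 0 2 1 4 (.C 0 1 1 2 (.L 1) (.C 1 2 4 1 (.G 6 1 1 281901 70475
  563802 [.n, .g 64 31 0 0, .n, .n, .n, .n]) (.L 1))) (.C 0 1 1 4 (.G 108 1
  1 254 509 32 [.g 251 2 4088 0, .n, .g 1 1 1128 0, .n]) (.T 16 1 (.G 355
  236 3 207 26 13 [.g 20 9 32912 0, .n, .n, .n]) (.C 1 2 1 2 (.C 0 1 1 8 (.G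
  314 123 3 1817 3635 454 [.n, .n, .n, .n, .g 64 37 0 0]) (.L 17)) (.G 123
  419 1 1068 267 67 [.n, .n, .n, .g 32 25 0 0]))))))) (.C 1 2 1 2 (.L 13)
  (.O 4))) (.L 9)) (.L 18)) (.L 5)) (.C 0 1 4 1 (.T 1 2 (.T 2 1 (.L 4) (.C 1
  2 2 1 (.L 4) (.L 14))) (.C 0 1 8 1 (.C 1 2 1 1 (.T 1 4 (.L 3) (.C 1 2 2 1
  (.T 1 8 (.L 64) (.T 1 16 (.C 1 2 4 1 (.L 135) (.C 1 2 1 2 (.T 2 1 (.L 22)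
  (.L 25)) (.L 25))) (.C 1 2 4 1 (.T 1 32 (.C 1 2 8 1 (.L 488) (.L 25)) (.L
  25)) (.O 4)))) (.T 1 8 (.T 2 1 (.L 22) (.L 8)) (.O 4)))) (.L 8)) (.L 60)))
  (.T 1 2 (.C 1 2 4 1 (.L 2) (.G 2 49 2 6 26 13 [.n, .n, .g 32 11 0 0, .g 32
  21 0 0])) (.L 11)))) (.T 1 1 (.C 1 2 2 1 (.T 2 1 (.T 4 1 (.T 8 1 (.C 0 1 1
  4 (.G 87 291 1 1 1 1 [.n, .g 1 0 2811 0, .n, .n]) (.C 0 2 1 2 (.C 0 1 1 8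
  (.G 370 17 3 22 44 44 [.g 7 6 3912 0, .g 45 50 33101 0, .n, .n]) (.L 10))
  (.L 10))) (.L 9)) (.L 50)) (.T 1 2 (.L 34) (.L 12))) (.T 2 1 (.L 15) (.T 1
  2 (.L 34) (.L 12)))) (.C 0 1 1 4 (.G 2 41 4 23 45 11 [.n, .g 64 11 0 0, .g
  32 13 0 0, .g 32 9 0 0]) (.T 1 2 (.G 115 451 3 1 1 1 [.n, .g 2 83 0 0, .n,
  .n, .n]) (.L 29)))))) (.L 474))) (.L 260))) (.L 323))) (.B 2 4 1 (.B 2 8 1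
  (.L 102) (.B 0 1 2 (.B 2 1 2 (.B 1 1 1 (.B 1 2 1 (.B 0 1 2 (.B 1 1 1 (.B 0
  2 1 (.B 1 1 1 (.B 2 1 8 (.L 172) (.B 0 4 1 (.C 0 2 8 1 (.T 1 1 (.T 2 1 (.T
  4 1 (.T 8 1 (.C 1 2 4 1 (.C 1 2 8 1 (.L 6) (.C 0 2 32 1 (.C 0 1 64 1 (.L
  1) (.C 0 1 1 2 (.L 1) (.C 1 2 1 1 (.G 1 6 1 606722 151680 303361 [.n, .g 2
  5 0 0, .n, .n, .n, .n]) (.L 1)))) (.C 0 1 1 1 (.G 504 1 1 181174 362349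
  90587 [.g 64 13 17 0, .n, .n, .g 512 3 4 0]) (.T 16 1 (.T 32 1 (.O 4) (.C
  0 2 1 4 (.C 0 1 1 2 (.L 1) (.C 0 1 1 4 (.L 1) (.C 1 2 4 1 (.G 6 236 3 575
  72 575 [.n, .g 2 3 6617 0, .n, .n, .n, .n]) (.G 440 16 1 101 101 51 [.g 8
  7 0 0, .g 64 25 0 0, .n, .n, .n, .n])))) (.C 0 1 1 4 (.G 90 246 0 1 1 1
  [.g 1 0 20449 0, .n, .n, .n, .n, .n]) (.L 19)))) (.T 1 2 (.T 2 1 (.C 0 1 1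
  2 (.G 1 182 0 200 399 50 [.n, .g 17 6 16308 0, .n, .n, .n, .n]) (.C 0 2 1
  8 (.C 1 2 8 1 (.L 116) (.L 62)) (.L 19))) (.L 21)) (.L 7)))))) (.C 1 2 1 2
  (.L 13) (.O 4))) (.L 7)) (.L 52)) (.L 5)) (.T 1 2 (.T 2 1 (.L 4) (.C 1 2 4
  1 (.L 2) (.C 1 2 1 2 (.L 4) (.L 14)))) (.C 0 1 4 1 (.C 0 1 8 1 (.C 1 2 1 1
  (.T 1 4 (.L 3) (.C 1 2 2 1 (.T 1 8 (.L 3) (.T 1 16 (.C 1 2 4 1 (.L 53) (.C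
  1 2 1 2 (.L 22) (.L 25))) (.C 1 2 4 1 (.C 1 2 8 1 (.L 63) (.L 25)) (.O
  4)))) (.T 1 8 (.T 2 1 (.L 22) (.L 24)) (.O 4)))) (.L 8)) (.L 40)) (.L
  11)))) (.T 1 1 (.C 1 2 2 1 (.T 2 1 (.T 4 1 (.T 8 1 (.C 0 1 1 4 (.G 87 312
  3 1 1 1 [.n, .g 1 0 2874 0, .n, .n]) (.C 0 1 1 8 (.C 1 2 1 4 (.C 0 1 2 1
  (.T 16 1 (.O 4) (.C 1 2 1 1 (.C 1 2 2 1 (.G 195 346 1 197414 789657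
  3158628 [.g 9 16 0 0, .g 32 0 1 0, .n, .n, .g 9 61 0 0, .g 1 7 0 0]) (.G
  91 214 1 17774 284385 142192 [.g 16 0 9 0, .n, .n, .g 128 0 1 0])) (.G 410
  282 3 8039 64309 32154 [.g 8 61 27 0, .n, .n, .n]))) (.L 241)) (.L 13))
  (.L 10))) (.L 7)) (.G 44 126 2 1 1 1 [.n, .g 1 2 5776 0, .n, .n])) (.T 1 2
  (.L 56) (.L 12))) (.T 2 1 (.L 15) (.T 1 2 (.L 56) (.L 12)))) (.C 0 1 1 4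
  (.G 2 109 3 30 61 15 [.n, .g 64 11 0 0, .g 64 31 0 0, .g 64 21 0 0]) (.T 1
  2 (.C 1 2 2 1 (.L 4) (.L 48)) (.L 29))))) (.B 0 1 2 (.B 0 2 1 (.B 2 1 2
  (.L 172) (.B 0 4 1 (.B 2 1 4 (.L 172) (.B 2 1 8 (.L 172) (.C 0 2 8 1 (.T 1
  1 (.T 2 1 (.T 4 1 (.T 8 1 (.C 1 2 4 1 (.C 1 2 8 1 (.L 6) (.C 0 2 32 1 (.C
  0 1 64 1 (.L 1) (.C 0 1 1 2 (.L 1) (.C 1 2 1 1 (.G 1 6 1 606239 151560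
  303120 [.n, .g 2 5 0 0, .n, .n, .n, .n]) (.L 1)))) (.C 0 1 1 1 (.G 376 1 1
  180999 361997 90499 [.g 64 7 9 0, .g 64 13 18 0, .n, .n]) (.T 16 1 (.T 32
  1 (.O 4) (.C 0 2 1 4 (.C 0 1 1 2 (.L 1) (.C 0 1 1 4 (.L 1) (.C 1 2 4 1 (.G
  6 236 3 568 71 568 [.n, .g 3 4 8503 0, .n, .n, .n, .n]) (.G 440 1 1 64 64
  32 [.g 32 25 0 0, .g 16 9 0 0, .n, .n, .n, .n])))) (.C 0 1 1 4 (.G 90 246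
  0 1 1 1 [.g 1 0 20459 0, .n, .n, .n, .n, .n]) (.L 19)))) (.T 1 2 (.T 2 1
  (.C 0 1 1 2 (.G 1 182 0 199 399 50 [.n, .g 17 6 16357 0, .n, .n, .n, .n])
  (.C 0 2 1 8 (.C 1 2 8 1 (.L 116) (.L 62)) (.L 19))) (.L 21)) (.L 7))))))
  (.C 1 2 1 2 (.L 13) (.O 4))) (.L 9)) (.L 52)) (.L 5)) (.T 1 2 (.T 2 1 (.L
  4) (.C 1 2 4 1 (.L 2) (.C 1 2 1 2 (.L 4) (.L 14)))) (.C 0 1 4 1 (.C 0 1 8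
  1 (.C 1 2 1 1 (.T 1 4 (.L 3) (.C 1 2 2 1 (.T 1 8 (.L 3) (.T 1 16 (.C 1 2 4
  1 (.L 53) (.C 1 2 1 2 (.L 22) (.L 25))) (.C 1 2 4 1 (.C 1 2 8 1 (.L 63)
  (.L 25)) (.O 4)))) (.T 1 8 (.T 2 1 (.L 22) (.L 24)) (.O 4)))) (.L 8)) (.L
  40)) (.L 11)))) (.T 1 1 (.C 1 2 2 1 (.T 2 1 (.T 4 1 (.T 8 1 (.C 0 1 1 4
  (.G 87 312 3 1 1 1 [.n, .g 1 0 2883 0, .n, .n]) (.C 0 1 1 8 (.C 1 2 1 4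
  (.C 0 1 2 1 (.T 16 1 (.O 4) (.C 1 2 1 1 (.C 1 2 2 1 (.G 195 282 3 198119
  792476 3169903 [.g 3 8 0 0, .g 32 0 1 0, .n, .n, .g 7 64 0 0, .g 7 66 0
  0]) (.G 91 387 0 30003 480040 240020 [.g 64 0 21 0, .n, .n, .g 256 0 1
  0])) (.G 509 259 2 17016 136128 68064 [.n, .n, .n, .g 24 65 43 0]))) (.L
  381)) (.L 13)) (.L 10))) (.L 9)) (.G 126 98 4 1 1 1 [.n, .n, .g 1 1 4579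
  0, .n, .n])) (.T 1 2 (.L 56) (.L 12))) (.T 2 1 (.L 15) (.T 1 2 (.L 56) (.L
  12)))) (.C 0 1 1 4 (.G 2 83 3 322 644 161 [.n, .g 64 11 0 0, .g 32 13 0 0,
  .g 32 9 0 0]) (.T 1 2 (.C 1 2 2 1 (.L 4) (.L 48)) (.L 29))))))) (.L 172)))
  (.L 172)) (.L 172)))) (.L 102)) (.L 172)) (.L 102)) (.L 445)) (.L 102))
  (.L 102)) (.C 0 2 8 1 (.T 1 1 (.T 2 1 (.T 4 1 (.T 8 1 (.C 1 2 4 1 (.C 1 2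
  8 1 (.L 6) (.C 0 2 32 1 (.C 0 1 64 1 (.L 1) (.C 0 1 1 2 (.L 1) (.C 1 2 1 1
  (.G 1 6 1 604928 151232 302464 [.n, .g 2 5 0 0, .n, .n, .n, .n]) (.L 1))))
  (.C 0 1 1 1 (.G 21 1 1 180527 361053 90263 [.n, .g 64 11 15 0, .g 64 13 17
  0, .n]) (.T 16 1 (.T 32 1 (.O 4) (.C 0 2 1 4 (.C 0 1 1 2 (.L 1) (.C 0 1 1
  4 (.L 1) (.C 1 2 4 1 (.G 6 121 2 1015586 126948 1015586 [.n, .g 7 62 0 0,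
  .n, .n, .n, .n]) (.G 127 1 1 57 57 28 [.g 4 3 912 0, .g 32 13 0 0, .n, .n,
  .n, .n])))) (.C 0 1 1 4 (.G 90 246 0 1 1 1 [.g 1 0 20231 0, .n, .n, .n,
  .n, .n]) (.L 19)))) (.T 1 2 (.T 2 1 (.C 0 1 1 2 (.G 1 122 0 198 397 50
  [.n, .g 17 6 16309 0, .n, .n, .n, .n]) (.C 0 2 1 8 (.C 1 2 8 1 (.L 116)
  (.L 62)) (.L 19))) (.L 21)) (.L 7)))))) (.C 1 2 1 2 (.L 13) (.O 4))) (.L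
  7)) (.L 52)) (.L 5)) (.T 1 2 (.T 2 1 (.L 4) (.C 1 2 4 1 (.L 2) (.C 1 2 1 2
  (.L 4) (.L 14)))) (.C 0 1 4 1 (.C 0 1 8 1 (.C 1 2 1 1 (.T 1 4 (.L 3) (.C 1
  2 2 1 (.T 1 8 (.L 64) (.T 1 16 (.C 1 2 4 1 (.L 158) (.T 2 1 (.L 22) (.L
  25))) (.C 1 2 4 1 (.C 1 2 8 1 (.T 1 32 (.L 63) (.L 25)) (.L 25)) (.O 4))))
  (.T 1 8 (.T 2 1 (.L 22) (.L 24)) (.O 4)))) (.L 8)) (.L 40)) (.L 11)))) (.T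
  1 1 (.C 1 2 2 1 (.T 2 1 (.T 4 1 (.T 8 1 (.C 0 1 1 4 (.G 87 328 0 1 1 1
  [.n, .g 1 0 2807 0, .n, .n]) (.C 0 2 1 2 (.C 0 1 1 8 (.C 0 1 2 1 (.G 490
  214 1 3 13 6 [.n, .g 2 3 9835 0, .g 1 0 428 0, .g 64 43 0 0, .g 256 109 0
  0]) (.L 241)) (.L 17)) (.L 17))) (.L 7)) (.G 44 130 2 1 1 1 [.n, .g 1 0
  2948 0, .n, .n])) (.T 1 2 (.L 56) (.L 12))) (.T 2 1 (.L 15) (.T 1 2 (.L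
  56) (.L 12)))) (.C 0 1 1 4 (.G 2 109 3 30 61 15 [.n, .g 64 11 0 0, .g 64
  31 0 0, .g 64 21 0 0]) (.T 1 2 (.C 1 2 2 1 (.L 4) (.L 48)) (.L 29))))))
  (.L 172))) (.C 0 2 8 1 (.T 1 1 (.T 2 1 (.T 4 1 (.T 8 1 (.C 1 2 4 1 (.C 1 2
  8 1 (.L 6) (.C 0 2 32 1 (.C 0 1 64 1 (.L 1) (.C 0 1 1 2 (.L 1) (.C 1 2 1 1
  (.G 1 6 1 616935 154234 308468 [.n, .g 25 63 0 0, .n, .n, .n, .n]) (.L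
  1)))) (.C 0 1 1 1 (.G 21 1 1 184746 369492 92373 [.n, .g 64 11 14 0, .g 64
  13 17 0, .n]) (.T 16 1 (.T 32 1 (.O 4) (.G 205 1 1 881775 440888 220444
  [.g 32 13 0 0, .g 32 1 0 0, .n, .n, .n])) (.T 1 2 (.T 2 1 (.G 472 1 1
  844229 422114 211057 [.n, .g 256 0 1 0, .n, .g 1024 423 1 0]) (.L 21)) (.L
  7)))))) (.C 1 2 1 2 (.L 13) (.O 4))) (.L 9)) (.L 52)) (.L 5)) (.C 0 1 4 1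
  (.T 1 2 (.T 2 1 (.L 4) (.C 1 2 2 1 (.L 4) (.L 14))) (.C 0 1 8 1 (.C 1 2 1
  1 (.T 1 4 (.L 3) (.C 1 2 2 1 (.T 1 8 (.L 22) (.T 1 16 (.C 1 2 4 1 (.L 344)
  (.T 2 1 (.L 79) (.L 25))) (.C 1 2 4 1 (.C 1 2 8 1 (.T 1 32 (.L 63) (.L
  25)) (.L 25)) (.O 4)))) (.T 1 8 (.T 2 1 (.L 22) (.L 24)) (.O 4)))) (.L 8))
  (.L 40))) (.T 1 2 (.C 1 2 4 1 (.L 2) (.G 4 49 2 6 22 11 [.n, .n, .g 64 39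
  0 0, .g 31 32 0 0])) (.L 11)))) (.T 1 1 (.C 1 2 2 1 (.T 2 1 (.T 4 1 (.T 8
  1 (.C 0 1 1 4 (.C 0 1 2 1 (.O 4) (.L 13)) (.C 0 2 1 2 (.C 0 1 1 8 (.C 0 1
  2 1 (.C 1 2 1 2 (.G 195 128 3 612799 2451198 4902396 [.g 16 7 0 0, .g 64 0
  1 0, .n, .n, .g 25 1012 19 0, .g 24 1009 19 0]) (.L 13)) (.G 317 17 3 5 3
  3 [.g 64 57 0 0, .n, .n, .n])) (.L 17)) (.L 17))) (.L 9)) (.G 50 74 1 1 1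
  1 [.n, .g 1 1 2339 0, .n, .n, .n])) (.T 1 2 (.L 56) (.L 12))) (.T 2 1 (.L
  15) (.T 1 2 (.L 56) (.L 12)))) (.C 0 1 1 4 (.G 2 41 4 23 45 11 [.n, .g 64
  11 0 0, .g 32 13 0 0, .g 32 9 0 0]) (.T 1 2 (.C 1 2 2 1 (.L 4) (.L 48))
  (.L 29))))))) (by decide +kernel)

theorem ES1_c2 : CoF ESTab ⟨⟨1936, 2054, 40000⟩, ⟨1936, 3388, 40000⟩, ⟨5088,
  5442, 80000⟩, ⟨0, 1⟩, ⟨2, 1⟩, ⟨1, 0, 0⟩, ⟨0, 1, 0⟩, ⟨0, 1, 1⟩⟩ :=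
CoF.ofG ESTab_B ESBt_E ESBt_U (.B 0 1 1 (.B 2 1 2 (.C 0 2 8 1 (.T 1 1 (.T 2
  1 (.T 4 1 (.T 8 1 (.C 1 2 4 1 (.C 1 2 8 1 (.T 16 1 (.T 32 1 (.C 0 2 64 1
  (.C 0 2 128 1 (.C 0 1 4 1 (.C 1 2 32 1 (.L 95) (.C 1 2 1 2 (.L 95) (.L
  36))) (.L 43)) (.L 43)) (.G 234 213 1 514 16 257 [.n, .n, .n, .g 1 2 67
  0])) (.L 6)) (.L 6)) (.T 16 1 (.C 0 1 64 1 (.C 1 2 1 4 (.L 16) (.O 4)) (.G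
  16 47 0 2522444 1261222 630611 [.n, .g 23 63 0 0, .n, .n, .g 512 15 1 0,
  .n])) (.T 1 2 (.T 2 1 (.B 1 1 1 (.L 32) (.C 0 1 64 1 (.C 1 2 1 4 (.L 1)
  (.O 4)) (.C 0 2 1 4 (.G 85 1 1 4194304 2097152 8388607 [.g 32 3 0 0, .n,
  .n, .n, .g 1 28 0 0, .g 1 29 0 0]) (.C 0 2 1 8 (.G 1 59 1 1144691 286173
  2289381 [.n, .g 22 65 0 0, .n, .n, .n, .n]) (.L 19))))) (.L 132)) (.L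
  7)))) (.C 1 2 1 2 (.L 13) (.O 4))) (.L 9)) (.L 18)) (.L 5)) (.C 0 1 4 1
  (.T 1 2 (.T 2 1 (.L 4) (.C 1 2 2 1 (.L 4) (.L 14))) (.C 0 1 8 1 (.C 1 2 1
  1 (.T 1 4 (.L 3) (.C 1 2 2 1 (.T 1 8 (.L 64) (.T 1 16 (.C 1 2 4 1 (.L 244)
  (.T 2 1 (.L 79) (.L 25))) (.C 1 2 4 1 (.C 1 2 8 1 (.T 1 32 (.L 63) (.L
  25)) (.L 25)) (.O 4)))) (.T 1 8 (.T 2 1 (.L 22) (.L 24)) (.O 4)))) (.L 8))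
  (.L 60))) (.T 1 2 (.C 1 2 4 1 (.L 2) (.G 2 11 1 5 19 10 [.n, .n, .g 1 0
  2125 0, .g 2 1 4415 0])) (.L 11)))) (.T 1 1 (.C 1 2 2 1 (.C 0 1 1 4 (.T 2
  1 (.C 0 1 2 1 (.G 131 106 2 1 1 1 [.n, .g 5 64 0 0, .n]) (.T 4 1 (.G 416
  113 0 267370 133685 66843 [.n, .g 21 65 0 0, .n, .n, .n, .g 5 16 5 0]) (.L
  44))) (.G 26 56 3 1 1 1 [.g 64 47 0 0, .n, .n, .g 16 13 0 0, .g 64 11 0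
  0])) (.C 0 2 1 2 (.C 0 1 1 8 (.T 2 1 (.T 4 1 (.T 8 1 (.C 0 1 2 1 (.G 477
  117 3 15 60 30 [.g 4 1 0 0, .n, .g 32 31 0 0, .g 1 2 1276 0]) (.L 124))
  (.L 9)) (.L 33)) (.L 5)) (.L 10)) (.L 10))) (.T 2 1 (.L 15) (.T 1 2 (.L
  34) (.L 12)))) (.C 0 1 1 4 (.G 2 27 3 292 583 146 [.n, .g 16 3 0 0, .g 64
  33 0 0, .g 64 23 0 0]) (.T 1 2 (.G 115 10 3 1 1 1 [.n, .g 3 55 0 0, .n,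
  .n, .n]) (.L 29))))) (.C 0 2 8 1 (.T 1 1 (.T 2 1 (.T 4 1 (.T 8 1 (.T 16 1
  (.C 1 2 4 1 (.T 32 1 (.C 0 2 32 1 (.L 73) (.L 140)) (.C 0 2 32 1 (.L 1)
  (.C 0 2 1 2 (.L 1) (.C 0 2 1 4 (.L 1) (.L 96))))) (.O 4)) (.L 32)) (.L 9))
  (.L 18)) (.L 5)) (.C 0 1 4 1 (.T 1 2 (.T 2 1 (.L 4) (.C 1 2 2 1 (.L 4) (.L
  14))) (.C 0 1 8 1 (.C 1 2 1 1 (.T 1 4 (.L 3) (.C 1 2 2 1 (.T 1 8 (.L 64)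
  (.T 1 16 (.C 1 2 4 1 (.L 244) (.T 2 1 (.L 79) (.L 25))) (.C 1 2 4 1 (.C 1
  2 8 1 (.T 1 32 (.L 63) (.L 25)) (.L 25)) (.O 4)))) (.T 1 8 (.T 2 1 (.L 22)
  (.L 24)) (.O 4)))) (.L 8)) (.L 60))) (.T 1 2 (.C 1 2 4 1 (.L 2) (.G 2 65 1
  6 23 12 [.n, .n, .g 1 0 1765 0, .g 2 1 4098 0])) (.L 11)))) (.T 1 1 (.C 1
  2 2 1 (.C 0 1 1 4 (.T 2 1 (.C 0 1 2 1 (.G 50 106 2 1 1 1 [.n, .n, .g 32 65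
  0 0, .n, .n]) (.T 4 1 (.G 237 250 0 137339 68670 34335 [.n, .g 43 65 32 0,
  .n, .g 21 64 0 0, .n, .n]) (.L 44))) (.G 26 56 3 1 1 1 [.g 64 47 0 0, .n,
  .n, .g 16 13 0 0, .g 32 5 0 0])) (.C 0 2 1 2 (.C 0 1 1 8 (.C 0 1 2 1 (.T 2
  1 (.T 4 1 (.G 250 32 0 14968 59870 29935 [.g 22 32 21 0, .n, .n, .n]) (.L
  33)) (.L 5)) (.C 0 1 1 2 (.C 0 2 1 2 (.B 2 1 4 (.C 0 1 2 1 (.B 1 2 1 (.L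
  20) (.T 2 1 (.L 204) (.L 349))) (.L 20)) (.L 20)) (.L 20)) (.L 10))) (.L
  10)) (.L 10))) (.T 2 1 (.L 15) (.T 1 2 (.L 34) (.L 12)))) (.C 0 1 1 4 (.C
  0 2 1 2 (.G 2 26 3 39 78 78 [.n, .n, .g 3 1 4612 0, .g 4 1 4536 0]) (.L
  82)) (.T 1 2 (.T 2 1 (.L 4) (.L 23)) (.L 29)))))) (.B 1 2 1 (.C 0 2 8 1
  (.T 1 1 (.T 2 1 (.T 4 1 (.T 8 1 (.T 16 1 (.C 1 2 4 1 (.T 32 1 (.C 0 2 32 1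
  (.T 64 1 (.L 105) (.L 1)) (.G 124 180 1 21 1 11 [.n, .n, .n, .g 1 2 1163
  0])) (.C 1 2 8 1 (.L 6) (.C 0 1 64 1 (.C 1 2 1 4 (.L 1) (.O 4)) (.C 0 2 1
  4 (.C 1 2 4 1 (.G 6 16 1 462377 231188 1849507 [.n, .g 16 1 0 0, .n, .n,
  .n, .n]) (.L 1)) (.C 0 2 1 8 (.C 0 1 1 4 (.L 1) (.C 0 1 1 8 (.L 1) (.L
  47))) (.L 47)))))) (.O 4)) (.L 32)) (.L 9)) (.L 18)) (.L 5)) (.C 0 1 4 1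
  (.T 1 2 (.T 2 1 (.L 4) (.C 1 2 2 1 (.L 4) (.L 14))) (.C 0 1 8 1 (.C 1 2 1
  1 (.T 1 4 (.L 3) (.C 1 2 2 1 (.T 1 8 (.L 79) (.T 1 16 (.C 1 2 4 1 (.C 1 2
  8 1 (.L 209) (.T 2 1 (.L 148) (.T 1 2 (.L 76) (.L 125)))) (.T 2 1 (.C 1 2
  1 2 (.L 76) (.L 25)) (.L 119))) (.C 1 2 4 1 (.T 1 32 (.C 1 2 8 1 (.C 1 2
  16 1 (.T 2 1 (.L 176) (.L 413)) (.L 125)) (.L 25)) (.L 119)) (.O 4)))) (.T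
  1 8 (.C 1 2 1 2 (.T 2 1 (.L 22) (.L 8)) (.L 8)) (.O 4)))) (.L 8)) (.L
  60))) (.T 1 2 (.C 1 2 4 1 (.L 2) (.G 4 49 2 5 22 11 [.n, .n, .g 64 45 0 0,
  .g 64 61 0 0])) (.L 11)))) (.T 1 1 (.C 1 2 2 1 (.C 0 1 1 4 (.T 2 1 (.C 0 1
  2 1 (.G 50 362 3 1 1 1 [.n, .n, .g 1 3 1005 0, .n, .n]) (.T 4 1 (.C 0 1 1
  2 (.L 13) (.T 8 1 (.L 13) (.L 9))) (.L 44))) (.G 26 35 2 1 1 1 [.g 43 63 0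
  0, .n, .n, .g 41 64 0 0, .g 64 29 0 0])) (.C 0 2 1 2 (.C 0 1 1 8 (.T 2 1
  (.C 0 1 2 1 (.T 4 1 (.G 32 197 0 14968 59870 29935 [.g 64 0 25 0, .n, .n,
  .n]) (.L 33)) (.L 204)) (.L 5)) (.L 10)) (.L 10))) (.T 2 1 (.L 15) (.T 1 2
  (.L 34) (.L 12)))) (.C 0 1 1 4 (.C 0 2 1 2 (.C 0 1 2 1 (.G 426 26 3 117
  469 234 [.g 512 1 0 0, .g 256 1 0 0, .n, .n, .n, .n, .g 64 29 0 0, .g 64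
  37 0 0]) (.L 26)) (.L 82)) (.T 1 2 (.G 115 285 3 1 1 1 [.n, .g 1 418 0 0,
  .n, .n, .n]) (.L 29))))) (.C 0 2 8 1 (.T 1 1 (.T 2 1 (.T 4 1 (.T 8 1 (.C 1
  2 4 1 (.C 0 1 4 1 (.C 0 1 8 1 (.C 1 2 2 1 (.T 16 1 (.T 32 1 (.T 64 1 (.L
  73) (.L 1)) (.L 1)) (.L 1)) (.T 16 1 (.O 4) (.C 0 2 32 1 (.L 1) (.G 16 493
  1 771098 771098 385549 [.n, .g 3 22 1 0, .n, .n, .n, .n])))) (.B 2 1 1 (.C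
  1 2 4 1 (.T 16 1 (.G 37 1 5 2097152 1048576 8388607 [.n, .n, .n, .n, .g 1
  66859 0 0, .g 1 70711 0 0, .n, .n]) (.L 1)) (.C 0 2 2 1 (.T 16 1 (.G 37 1
  5 2097152 8388607 8388607 [.n, .n, .n, .n, .g 1 45631 0 0, .g 1 47140 0 0,
  .n, .n]) (.L 1)) (.G 1 117 3 256462 256462 128231 [.n, .g 6 61 6 0, .n,
  .n, .n, .g 4096 0 1 0]))) (.T 16 1 (.T 32 1 (.G 6 37 1 53194 26597 106388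
  [.n, .g 19 32 21 0, .n, .n, .n, .g 4096 2 1 0]) (.G 1 6 1 53194 26597
  106388 [.n, .g 64 0 31 0, .n, .n, .n, .n])) (.L 32)))) (.C 0 2 4 1 (.T 16
  1 (.T 32 1 (.L 37) (.L 1)) (.L 1)) (.C 1 2 8 1 (.C 0 1 1 16 (.T 16 1 (.G 1
  234 3 2163 4327 2163 [.n, .g 16 4 5 0, .n, .n, .n, .g 128 0 3 0]) (.G 1 6
  1 192351 384703 192351 [.n, .g 3 8 0 0, .n, .n, .n, .n])) (.L 124)) (.C 0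
  1 1 1 (.T 16 1 (.C 0 2 1 2 (.L 16) (.G 1 47 0 594223 594223 148556 [.n, .g
  4 13 0 0, .n, .n, .n, .g 4096 0 1 0])) (.G 108 1 1 213 427 107 [.n, .n, .g
  1 2 889 0, .n])) (.T 16 1 (.C 0 2 1 4 (.C 0 1 1 2 (.L 16) (.L 96)) (.L
  96)) (.C 1 2 1 2 (.G 85 152 3 8388607 4194304 8388607 [.n, .n, .g 1 71 0
  0, .g 1 73 0 0, .g 1 54 0 0, .g 1 58 0 0]) (.T 1 2 (.G 108 365 2 4 4 1 [.g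
  20 1 262 0, .n, .n, .n]) (.L 7)))))))) (.C 1 2 1 2 (.L 13) (.O 4))) (.L
  9)) (.L 18)) (.L 5)) (.C 0 1 4 1 (.T 1 2 (.T 2 1 (.L 4) (.C 1 2 2 1 (.L 4)
  (.L 14))) (.C 0 1 8 1 (.C 1 2 1 1 (.T 1 4 (.L 3) (.C 1 2 2 1 (.T 1 8 (.L
  64) (.T 1 16 (.C 1 2 4 1 (.L 344) (.T 2 1 (.L 79) (.L 25))) (.C 1 2 4 1
  (.T 1 32 (.C 1 2 8 1 (.L 63) (.L 25)) (.L 25)) (.O 4)))) (.T 1 8 (.C 1 2 1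
  2 (.L 189) (.L 8)) (.O 4)))) (.L 8)) (.L 60))) (.T 1 2 (.C 1 2 4 1 (.L 2)
  (.G 2 49 2 6 26 13 [.n, .n, .g 64 21 0 0, .g 64 41 0 0])) (.L 11)))) (.T 1
  1 (.C 1 2 2 1 (.C 0 1 1 4 (.T 2 1 (.C 0 1 2 1 (.G 224 114 1 1 1 1 [.n, .n,
  .g 1 0 2496 0, .g 14 1 4034 0, .n]) (.T 4 1 (.C 0 1 1 2 (.L 13) (.T 8 1
  (.L 13) (.L 9))) (.L 44))) (.G 26 56 3 1 1 1 [.g 64 47 0 0, .n, .n, .g 16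
  13 0 0, .g 64 13 0 0])) (.C 0 2 1 2 (.C 0 1 1 8 (.T 2 1 (.T 4 1 (.T 8 1
  (.C 0 1 2 1 (.G 150 214 1 3 12 6 [.g 256 25 0 0, .n, .g 2 3 10106 0, .n])
  (.L 124)) (.L 9)) (.L 33)) (.L 5)) (.L 10)) (.L 10))) (.T 2 1 (.L 15) (.T
  1 2 (.L 34) (.L 12)))) (.C 0 1 1 4 (.G 2 242 1 48 95 24 [.n, .g 64 11 0 0,
  .g 64 29 0 0, .g 4 1 997 0]) (.T 1 2 (.C 1 2 2 1 (.L 4) (.L 48)) (.L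
  29))))))) (by decide +kernel)

theorem ES1_c3 : CoF ESTab ⟨⟨360, 360, 20000⟩, ⟨720, 2054, 40000⟩, ⟨1936,
  2054, 40000⟩, ⟨0, 1⟩, ⟨2, 1⟩, ⟨1, 0, 0⟩, ⟨0, 1, 0⟩, ⟨0, 1, 1⟩⟩ :=
CoF.ofG ESTab_B ESBt_E ESBt_U (.B 2 1 2 (.B 1 1 1 (.B 0 1 2 (.B 1 1 2 (.L
  429) (.C 0 2 8 1 (.T 1 1 (.T 2 1 (.T 4 1 (.T 8 1 (.T 16 1 (.L 160) (.L
  28)) (.L 28)) (.C 0 2 16 1 (.L 18) (.L 39))) (.L 5)) (.C 0 1 4 1 (.T 1 2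
  (.T 2 1 (.L 4) (.C 1 2 2 1 (.L 2) (.L 14))) (.C 0 1 8 1 (.C 1 2 1 1 (.T 1
  4 (.L 3) (.C 1 2 2 1 (.T 1 8 (.L 64) (.T 1 16 (.C 1 2 4 1 (.L 244) (.T 2 1
  (.L 76) (.L 38))) (.C 1 2 4 1 (.T 1 32 (.C 1 2 8 1 (.L 63) (.L 25)) (.L
  38)) (.O 4)))) (.T 1 8 (.C 1 2 1 2 (.L 31) (.L 8)) (.O 4)))) (.L 8)) (.L
  26))) (.C 1 2 4 1 (.C 0 1 1 2 (.L 61) (.T 1 2 (.L 2) (.L 29))) (.L 26))))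
  (.T 1 1 (.C 0 1 1 4 (.T 2 1 (.G 298 114 1 3 6 1 [.g 28 3 1028 0, .g 2 1
  4770 0, .n, .n]) (.C 1 2 1 4 (.L 5) (.L 12))) (.C 0 1 1 8 (.C 0 2 1 4 (.G
  5 215 0 152195 304390 304390 [.g 1 941 0 0, .g 1 351 0 0, .n, .g 1 172 0
  0]) (.L 10)) (.L 10))) (.C 0 1 1 4 (.L 41) (.T 1 2 (.T 2 1 (.L 4) (.L 23))
  (.L 29)))))) (.B 1 2 1 (.L 170) (.B 2 2 1 (.B 1 1 2 (.L 170) (.B 2 4 1 (.B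
  1 1 4 (.L 199) (.C 0 2 8 1 (.T 1 1 (.T 2 1 (.T 4 1 (.T 8 1 (.T 16 1 (.L
  99) (.L 28)) (.L 28)) (.C 0 2 16 1 (.L 18) (.L 39))) (.L 5)) (.C 0 1 4 1
  (.T 1 2 (.T 2 1 (.L 4) (.C 1 2 2 1 (.L 2) (.L 14))) (.C 0 1 8 1 (.C 1 2 1
  1 (.T 1 4 (.L 3) (.C 1 2 2 1 (.T 1 8 (.L 64) (.T 1 16 (.C 1 2 4 1 (.L 244)
  (.C 1 2 1 2 (.T 2 1 (.L 22) (.L 25)) (.L 25))) (.C 1 2 4 1 (.T 1 32 (.C 1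
  2 8 1 (.L 488) (.L 25)) (.L 25)) (.O 4)))) (.T 1 8 (.C 1 2 1 2 (.L 189)
  (.L 8)) (.O 4)))) (.L 8)) (.L 26))) (.C 1 2 4 1 (.C 0 1 1 2 (.L 61) (.T 1
  2 (.L 2) (.L 29))) (.L 26)))) (.T 1 1 (.C 0 1 1 4 (.T 2 1 (.G 177 139 0 3
  6 1 [.g 210 2 1023 0, .g 4 3 4074 0, .n, .n]) (.C 1 2 1 4 (.L 5) (.L 12)))
  (.L 111)) (.C 0 1 1 4 (.L 41) (.T 1 2 (.G 10 115 1 1 1 1 [.n, .n, .n, .g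
  128 1 0 0]) (.L 29)))))) (.L 199))) (.L 170)))) (.B 2 2 1 (.C 0 2 8 1 (.T
  1 1 (.T 2 1 (.T 4 1 (.T 8 1 (.T 16 1 (.T 32 1 (.L 55) (.B 1 1 2 (.L 28)
  (.T 1 2 (.B 2 4 1 (.B 1 1 4 (.L 28) (.B 2 8 1 (.C 1 2 4 1 (.L 100) (.O 4))
  (.L 55))) (.L 28)) (.L 84)))) (.L 32)) (.L 9)) (.C 0 2 16 1 (.L 18) (.L
  39))) (.L 5)) (.C 0 1 4 1 (.T 1 2 (.T 2 1 (.L 4) (.C 1 2 2 1 (.L 2) (.L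
  14))) (.C 0 1 8 1 (.C 1 2 1 1 (.T 1 4 (.L 3) (.C 1 2 2 1 (.T 1 8 (.L 64)
  (.C 1 2 4 1 (.T 1 16 (.L 244) (.C 1 2 8 1 (.T 1 32 (.L 63) (.L 25)) (.L
  38))) (.T 1 16 (.T 2 1 (.L 76) (.L 38)) (.O 4)))) (.T 1 8 (.T 2 1 (.L 22)
  (.L 24)) (.O 4)))) (.L 8)) (.L 60))) (.T 1 2 (.C 1 2 4 1 (.L 2) (.G 2 26 3
  5 22 11 [.n, .n, .g 1 0 1330 0, .g 2 1 3985 0])) (.L 11)))) (.T 1 1 (.C 0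
  1 1 4 (.T 2 1 (.C 1 2 1 4 (.G 146 114 1 1 2 4 [.g 16 15 0 0, .g 1 4 12509
  0, .n, .n]) (.L 70)) (.G 27 58 3 1 1 1 [.n, .n, .g 64 11 0 0, .g 64 9 0 0,
  .n])) (.C 0 2 1 4 (.C 0 1 1 8 (.C 0 1 2 1 (.T 2 1 (.C 0 2 2 1 (.T 4 1 (.G
  81 210 0 7777 31107 31107 [.g 64 62 39 0, .n, .n, .n]) (.L 33)) (.B 1 1 2
  (.L 20) (.C 0 2 1 2 (.B 2 4 1 (.C 0 1 1 1 (.G 177 301 2 1 2 2 [.g 32 3 0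
  0, .n, .n, .n]) (.L 20)) (.L 20)) (.L 20)))) (.L 5)) (.L 215)) (.L 10))
  (.L 10))) (.C 0 1 1 4 (.G 2 27 3 293 586 146 [.n, .g 16 3 0 0, .g 64 31 0
  0, .g 32 11 0 0]) (.T 1 2 (.T 2 1 (.L 4) (.L 23)) (.L 29))))) (.C 0 2 8 1
  (.T 1 1 (.T 2 1 (.T 4 1 (.T 8 1 (.T 16 1 (.L 160) (.L 28)) (.L 28)) (.C 0
  2 16 1 (.L 18) (.L 39))) (.L 5)) (.C 0 1 4 1 (.T 1 2 (.T 2 1 (.L 4) (.C 1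
  2 2 1 (.L 2) (.L 14))) (.C 0 1 8 1 (.C 1 2 1 1 (.T 1 4 (.L 3) (.C 1 2 2 1
  (.T 1 8 (.L 64) (.C 1 2 4 1 (.T 1 16 (.L 244) (.C 1 2 8 1 (.T 1 32 (.L 63)
  (.L 25)) (.L 38))) (.T 1 16 (.T 2 1 (.L 76) (.L 38)) (.O 4)))) (.T 1 8 (.T
  2 1 (.L 22) (.L 24)) (.O 4)))) (.L 8)) (.L 61))) (.C 1 2 4 1 (.C 0 1 1 2
  (.L 61) (.T 1 2 (.L 2) (.L 29))) (.L 27)))) (.T 1 1 (.C 0 1 1 4 (.T 2 1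
  (.G 177 114 1 3 6 2 [.g 354 3 1024 0, .g 1 1 2911 0, .n, .n]) (.G 27 35 2
  1 1 1 [.n, .n, .g 32 7 0 0, .g 64 15 0 0, .n])) (.C 0 2 1 4 (.T 2 1 (.C 0
  1 1 8 (.C 0 1 2 1 (.C 0 2 2 1 (.C 0 1 4 1 (.T 4 1 (.G 28 408 0 10753 86025
  43013 [.g 64 0 15 0, .n, .n, .n]) (.L 51)) (.L 20)) (.L 20)) (.L 10)) (.L
  10)) (.L 5)) (.L 10))) (.C 0 1 1 4 (.L 41) (.T 1 2 (.T 2 1 (.L 4) (.L 23))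
  (.L 29))))))) (.B 0 2 1 (.B 2 1 4 (.L 151) (.L 170)) (.B 1 2 1 (.L 170)
  (.L 151)))) (by decide +kernel)

theorem ES1_c4 : CoF ESTab ⟨⟨720, 2054, 40000⟩, ⟨360, 1694, 20000⟩, ⟨1936,
  2054, 40000⟩, ⟨0, 1⟩, ⟨2, 1⟩, ⟨1, 0, 0⟩, ⟨0, 1, 0⟩, ⟨0, 1, 1⟩⟩ :=
CoF.ofG ESTab_B ESBt_E ESBt_U (.B 1 2 1 (.B 0 1 2 (.B 2 1 2 (.B 1 1 1 (.L
  170) (.B 2 2 1 (.B 1 1 2 (.L 253) (.B 2 4 1 (.B 1 1 4 (.L 251) (.B 2 8 1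
  (.B 1 1 8 (.L 104) (.B 2 16 1 (.B 1 1 16 (.L 104) (.C 0 2 8 1 (.T 1 1 (.T
  2 1 (.T 4 1 (.T 8 1 (.T 16 1 (.T 32 1 (.C 0 2 16 1 (.L 180) (.L 110)) (.L
  28)) (.L 28)) (.L 28)) (.L 18)) (.L 5)) (.C 0 1 4 1 (.T 1 2 (.T 2 1 (.L 4)
  (.C 1 2 2 1 (.L 4) (.L 14))) (.C 0 1 8 1 (.C 1 2 1 1 (.T 1 4 (.L 3) (.C 1
  2 2 1 (.T 1 8 (.L 22) (.C 1 2 4 1 (.T 1 16 (.C 1 2 8 1 (.L 176) (.T 2 1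
  (.L 176) (.T 1 2 (.L 76) (.L 136)))) (.T 1 32 (.C 1 2 8 1 (.C 1 2 16 1 (.L
  461) (.L 136)) (.L 221)) (.L 142))) (.L 212))) (.T 1 8 (.C 1 2 1 2 (.L
  212) (.L 8)) (.O 4)))) (.L 8)) (.L 26))) (.C 1 2 4 1 (.C 0 1 1 2 (.L 61)
  (.G 208 10 3 1 1 1 [.n, .n, .n, .g 1 69 0 0, .n])) (.L 26)))) (.T 1 1 (.C
  0 1 1 4 (.T 2 1 (.C 1 2 1 4 (.C 0 1 2 1 (.L 206) (.C 1 2 2 1 (.T 4 1 (.G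
  280 458 2 3 2 6 [.g 1 0 670 0, .n, .n, .n]) (.L 51)) (.L 206))) (.L 70))
  (.G 27 35 2 1 1 1 [.n, .n, .g 16 5 0 0, .g 64 17 0 0, .n])) (.L 20)) (.C 0
  1 1 4 (.L 27) (.G 10 190 1 1 1 1 [.n, .n, .n, .g 64 1 0 0]))))) (.L 104)))
  (.L 104))) (.L 251))) (.L 253))) (.L 170)) (.B 1 4 1 (.L 69) (.B 2 1 1 (.B
  1 1 2 (.L 69) (.B 2 2 1 (.B 1 1 4 (.L 69) (.B 2 4 1 (.B 1 1 8 (.L 253) (.B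
  2 8 1 (.B 2 16 1 (.B 1 1 16 (.L 104) (.C 0 2 8 1 (.T 1 1 (.T 2 1 (.T 4 1
  (.T 8 1 (.T 16 1 (.T 32 1 (.C 0 2 16 1 (.L 180) (.L 110)) (.L 28)) (.L
  28)) (.L 28)) (.L 18)) (.L 5)) (.C 0 1 4 1 (.T 1 2 (.T 2 1 (.L 4) (.C 1 2
  2 1 (.L 4) (.L 14))) (.C 0 1 8 1 (.C 1 2 1 1 (.T 1 4 (.L 3) (.C 1 2 2 1
  (.T 1 8 (.L 79) (.C 1 2 4 1 (.T 1 16 (.C 1 2 8 1 (.L 176) (.T 2 1 (.L 176)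
  (.T 1 2 (.L 76) (.L 136)))) (.T 1 32 (.C 1 2 8 1 (.C 1 2 16 1 (.L 57) (.L
  136)) (.L 221)) (.L 142))) (.L 212))) (.T 1 8 (.C 1 2 1 2 (.L 212) (.L 8))
  (.O 4)))) (.L 8)) (.L 26))) (.C 1 2 4 1 (.C 0 1 1 2 (.L 61) (.G 10 208 3 1
  1 1 [.n, .n, .n, .g 256 1 0 0])) (.L 26)))) (.T 1 1 (.C 0 1 1 4 (.T 2 1
  (.C 1 2 1 4 (.C 0 1 2 1 (.L 206) (.C 1 2 2 1 (.T 4 1 (.G 139 84 0 10 5 20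
  [.g 1 4 5814 0, .n, .n, .n]) (.L 51)) (.L 206))) (.L 70)) (.G 27 35 2 1 1
  1 [.n, .n, .g 16 5 0 0, .g 64 17 0 0, .n])) (.L 20)) (.C 0 1 1 4 (.L 27)
  (.G 190 10 3 1 1 1 [.n, .g 1 42 0 0, .n, .n]))))) (.L 104)) (.L 253))) (.L
  253))) (.L 69))) (.L 69)))) (.B 2 1 1 (.B 1 1 2 (.C 0 2 8 1 (.T 1 1 (.T 2
  1 (.T 4 1 (.T 8 1 (.T 16 1 (.T 32 1 (.C 0 1 4 1 (.C 1 2 2 1 (.L 71) (.O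
  4)) (.L 140)) (.L 28)) (.L 28)) (.L 28)) (.L 18)) (.L 5)) (.C 0 1 4 1 (.T
  1 2 (.T 2 1 (.L 4) (.C 1 2 2 1 (.L 4) (.L 14))) (.C 0 1 8 1 (.C 1 2 1 1
  (.T 1 4 (.L 3) (.C 1 2 2 1 (.T 1 8 (.L 22) (.T 1 16 (.C 1 2 4 1 (.C 1 2 8
  1 (.L 209) (.T 2 1 (.L 148) (.T 1 2 (.L 76) (.L 125)))) (.C 1 2 1 2 (.T 2
  1 (.L 76) (.L 25)) (.L 119))) (.C 1 2 4 1 (.T 1 32 (.C 1 2 8 1 (.C 1 2 16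
  1 (.L 63) (.L 125)) (.L 25)) (.L 119)) (.O 4)))) (.T 1 8 (.C 1 2 1 2 (.T 2
  1 (.L 64) (.L 8)) (.L 8)) (.O 4)))) (.L 8)) (.L 61))) (.T 1 2 (.T 2 1 (.L
  2) (.L 26)) (.L 11)))) (.T 1 1 (.C 0 1 1 4 (.T 2 1 (.C 1 2 1 4 (.C 0 1 2 1
  (.L 106) (.C 1 2 2 1 (.T 4 1 (.G 240 197 0 143488 71744 286976 [.g 4 65 1
  0, .n, .n, .n]) (.L 51)) (.L 93))) (.L 70)) (.G 27 56 3 1 1 1 [.n, .n, .g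
  32 5 0 0, .g 64 9 0 0, .n])) (.C 0 1 1 8 (.C 0 2 1 4 (.C 0 1 2 1 (.C 0 2 2
  1 (.C 0 1 4 1 (.T 2 1 (.T 4 1 (.G 28 231 0 20742 165935 82968 [.g 8 0 1 0,
  .n, .n, .n]) (.L 51)) (.L 5)) (.L 20)) (.L 20)) (.L 10)) (.L 10)) (.L
  10))) (.C 0 1 1 4 (.L 27) (.T 1 2 (.G 115 10 3 1 1 1 [.n, .g 1 31 0 0, .n,
  .n, .n]) (.L 29))))) (.C 0 2 8 1 (.T 1 1 (.T 2 1 (.T 4 1 (.T 8 1 (.T 16 1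
  (.T 32 1 (.L 252) (.B 2 2 1 (.T 1 2 (.B 2 4 1 (.C 1 2 4 1 (.L 100) (.O 4))
  (.L 28)) (.L 84)) (.L 28))) (.L 32)) (.L 9)) (.L 18)) (.L 5)) (.C 0 1 4 1
  (.T 1 2 (.T 2 1 (.L 4) (.C 1 2 2 1 (.L 4) (.L 14))) (.C 0 1 8 1 (.C 1 2 1
  1 (.T 1 4 (.L 3) (.C 1 2 2 1 (.T 1 8 (.L 64) (.T 1 16 (.C 1 2 4 1 (.L 244)
  (.C 1 2 1 2 (.T 2 1 (.L 333) (.L 25)) (.L 25))) (.C 1 2 4 1 (.T 1 32 (.C 1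
  2 8 1 (.L 63) (.L 25)) (.L 25)) (.O 4)))) (.T 1 8 (.C 1 2 1 2 (.L 189) (.L
  8)) (.O 4)))) (.L 8)) (.L 60))) (.T 1 2 (.C 1 2 4 1 (.L 2) (.G 4 109 3 2
  10 5 [.n, .n, .g 64 37 0 0, .g 57 64 0 0])) (.L 11)))) (.T 1 1 (.C 0 1 1 4
  (.T 2 1 (.C 1 2 1 4 (.C 0 1 2 1 (.L 106) (.C 1 2 2 1 (.T 4 1 (.G 81 238 0
  140014 70007 280027 [.g 64 19 5 0, .n, .n, .n]) (.L 51)) (.L 93))) (.L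
  70)) (.G 27 35 2 1 1 1 [.n, .n, .g 64 17 0 0, .g 4 1 0 0, .n])) (.C 0 2 1
  4 (.C 0 1 1 8 (.C 0 1 2 1 (.C 0 2 2 1 (.T 2 1 (.T 4 1 (.G 167 231 0 15905
  63622 63622 [.g 8 0 1 0, .n, .n, .n]) (.L 33)) (.L 5)) (.B 2 2 1 (.C 0 2 1
  2 (.B 1 1 4 (.L 20) (.C 0 1 1 1 (.T 2 1 (.C 1 2 1 1 (.T 4 1 (.L 88) (.L
  51)) (.L 103)) (.L 330)) (.L 20))) (.L 20)) (.L 20))) (.L 20)) (.L 10))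
  (.L 10))) (.C 0 1 1 4 (.G 2 103 3 31 63 16 [.n, .g 32 5 0 0, .g 32 13 0 0,
  .g 32 9 0 0]) (.T 1 2 (.T 2 1 (.L 4) (.L 23)) (.L 29)))))) (.B 0 2 1 (.B 2
  1 2 (.B 1 1 2 (.L 360) (.B 2 2 1 (.B 1 1 4 (.L 199) (.B 2 4 1 (.C 0 2 8 1
  (.T 1 1 (.T 2 1 (.T 4 1 (.T 8 1 (.T 16 1 (.L 99) (.L 28)) (.L 28)) (.L
  18)) (.L 5)) (.C 0 1 4 1 (.T 1 2 (.T 2 1 (.L 4) (.C 1 2 2 1 (.L 4) (.L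
  14))) (.C 0 1 8 1 (.C 1 2 1 1 (.T 1 4 (.L 3) (.C 1 2 2 1 (.T 1 8 (.L 64)
  (.T 1 16 (.C 1 2 4 1 (.L 135) (.C 1 2 1 2 (.T 2 1 (.L 22) (.L 25)) (.L
  25))) (.C 1 2 4 1 (.T 1 32 (.C 1 2 8 1 (.L 488) (.L 25)) (.L 25)) (.O
  4)))) (.T 1 8 (.C 1 2 1 2 (.L 189) (.L 8)) (.O 4)))) (.L 8)) (.L 26))) (.C
  1 2 4 1 (.C 0 1 1 2 (.L 61) (.T 1 2 (.L 2) (.L 29))) (.L 26)))) (.T 1 1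
  (.C 0 1 1 4 (.T 2 1 (.G 146 114 1 3 6 1 [.g 7 3 1065 0, .g 2 1 4726 0, .n,
  .n]) (.G 27 35 2 1 1 1 [.n, .n, .g 64 15 0 0, .g 64 15 0 0, .n])) (.L 20))
  (.C 0 1 1 4 (.L 27) (.T 1 2 (.G 10 115 1 1 1 1 [.n, .n, .n, .g 128 1 0 0])
  (.L 29))))) (.L 199))) (.L 360))) (.L 170)) (.B 2 2 1 (.C 0 2 8 1 (.T 1 1
  (.T 2 1 (.T 4 1 (.T 8 1 (.T 16 1 (.T 32 1 (.C 0 2 16 1 (.L 180) (.L 110))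
  (.L 28)) (.L 28)) (.L 28)) (.L 18)) (.L 5)) (.C 0 1 4 1 (.T 1 2 (.T 2 1
  (.L 4) (.C 1 2 2 1 (.L 4) (.L 14))) (.C 0 1 8 1 (.C 1 2 1 1 (.T 1 4 (.L 3)
  (.C 1 2 2 1 (.T 1 8 (.L 22) (.T 1 16 (.C 1 2 4 1 (.C 1 2 8 1 (.L 209) (.T
  2 1 (.L 148) (.T 1 2 (.L 76) (.L 125)))) (.C 1 2 1 2 (.T 2 1 (.L 76) (.L
  25)) (.L 119))) (.C 1 2 4 1 (.T 1 32 (.C 1 2 8 1 (.C 1 2 16 1 (.L 63) (.L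
  125)) (.L 25)) (.L 119)) (.O 4)))) (.T 1 8 (.C 1 2 1 2 (.T 2 1 (.L 64) (.L
  8)) (.L 8)) (.O 4)))) (.L 8)) (.L 26))) (.C 1 2 4 1 (.C 0 1 1 2 (.L 61)
  (.T 1 2 (.L 2) (.L 29))) (.L 26)))) (.T 1 1 (.C 0 1 1 4 (.T 2 1 (.C 1 2 1
  4 (.C 0 1 2 1 (.L 106) (.C 1 2 2 1 (.T 4 1 (.G 174 84 0 68443 34222 136887
  [.g 64 33 9 0, .n, .n, .n]) (.L 51)) (.L 93))) (.L 70)) (.C 1 2 1 4 (.L 5)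
  (.L 12))) (.L 20)) (.C 0 1 1 4 (.L 27) (.T 1 2 (.G 10 115 1 1 1 1 [.n, .n,
  .n, .g 128 1 0 0]) (.L 29))))) (.B 0 1 2 (.L 360) (.B 1 4 1 (.B 0 1 4 (.L
  251) (.B 1 8 1 (.B 0 1 8 (.B 2 1 2 (.B 1 1 1 (.L 104) (.B 1 1 2 (.L 104)
  (.B 2 2 1 (.B 1 1 4 (.L 104) (.B 2 4 1 (.B 2 8 1 (.B 2 16 1 (.C 0 2 8 1
  (.C 0 1 4 1 (.T 1 1 (.T 2 1 (.T 4 1 (.T 8 1 (.T 16 1 (.T 32 1 (.L 55) (.L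
  28)) (.L 28)) (.L 28)) (.L 18)) (.L 5)) (.C 0 1 8 1 (.T 1 2 (.T 2 1 (.L 4)
  (.C 1 2 1 1 (.L 4) (.L 202))) (.C 1 2 1 1 (.T 1 4 (.L 3) (.C 0 1 16 1 (.L
  202) (.C 0 2 1 1 (.C 1 2 4 1 (.T 1 8 (.L 3) (.C 0 1 1 2 (.T 1 16 (.C 1 2 2
  1 (.L 148) (.C 0 2 4 1 (.L 57) (.G 394 397 3 3838 3838 1919 [.n, .n, .g 16
  1 0 0, .g 64 5 0 0, .n, .n, .g 64 15 0 0, .g 64 15 0 0]))) (.T 1 32 (.T 2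
  1 (.G 38 269 0 2097152 4194304 8388607 [.n, .g 15 16 0 0, .n, .n]) (.L
  25)) (.L 142))) (.L 60))) (.C 0 2 2 1 (.T 1 8 (.L 64) (.G 266 135 0
  2097152 8388607 8388607 [.g 32 0 13 0, .g 64 55 0 0, .g 64 53 0 0, .n]))
  (.T 1 8 (.G 373 501 0 8388607 8388607 4194304 [.n, .n, .n, .n, .n, .n, .n,
  .g 64 0 15 0]) (.L 498)))) (.L 60)))) (.L 202))) (.L 202))) (.T 1 1 (.T 2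
  1 (.T 4 1 (.T 8 1 (.T 16 1 (.T 32 1 (.L 55) (.L 28)) (.L 28)) (.L 28)) (.L
  44)) (.L 5)) (.C 1 2 4 1 (.C 0 1 1 2 (.L 61) (.G 10 208 3 1 1 1 [.n, .n,
  .n, .g 256 1 0 0])) (.L 26)))) (.C 0 2 1 2 (.T 1 1 (.T 2 1 (.T 4 1 (.T 8 1
  (.G 174 111 3 4 1 8 [.g 13 19 8320 0, .n, .n, .n]) (.L 28)) (.L 44)) (.L
  5)) (.C 0 1 1 4 (.L 42) (.C 1 2 8 1 (.G 208 10 3 1 1 1 [.n, .n, .n, .g 4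
  73 0 0, .n]) (.L 42)))) (.C 0 2 1 4 (.C 0 1 1 8 (.T 1 1 (.G 437 109 4 22
  44 44 [.n, .g 256 1 0 0, .n, .n, .n, .n, .n, .g 16 5 0 0]) (.L 309)) (.L
  10)) (.L 10)))) (.L 104)) (.L 104)) (.L 104))) (.L 104)))) (.L 104)) (.C 0
  2 8 1 (.T 1 1 (.T 2 1 (.T 4 1 (.T 8 1 (.T 16 1 (.T 32 1 (.C 0 2 16 1 (.L
  180) (.L 110)) (.L 28)) (.L 28)) (.L 28)) (.L 18)) (.L 5)) (.C 0 1 4 1 (.T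
  1 2 (.T 2 1 (.L 4) (.C 1 2 2 1 (.L 4) (.L 14))) (.C 0 1 8 1 (.C 1 2 1 1
  (.T 1 4 (.L 3) (.C 1 2 2 1 (.T 1 8 (.L 22) (.C 1 2 4 1 (.T 1 16 (.C 1 2 8
  1 (.L 148) (.T 2 1 (.L 176) (.T 1 2 (.L 76) (.L 125)))) (.T 1 32 (.C 1 2 8
  1 (.T 2 1 (.L 57) (.L 125)) (.L 221)) (.L 142))) (.L 212))) (.T 1 8 (.C 1
  2 1 2 (.T 2 1 (.L 64) (.L 8)) (.L 8)) (.O 4)))) (.L 8)) (.L 26))) (.C 1 2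
  4 1 (.C 0 1 1 2 (.L 61) (.G 10 208 3 1 1 1 [.n, .n, .n, .g 256 1 0 0]))
  (.L 26)))) (.T 1 1 (.C 0 1 1 4 (.T 2 1 (.C 1 2 1 4 (.C 0 1 2 1 (.L 206)
  (.C 1 2 2 1 (.T 4 1 (.G 32 428 0 133065 66533 266130 [.g 8 0 1 0, .n, .n,
  .n]) (.L 51)) (.L 206))) (.L 70)) (.G 27 35 2 1 1 1 [.n, .n, .g 16 5 0 0,
  .g 64 17 0 0, .n])) (.L 20)) (.C 0 1 1 4 (.L 27) (.G 10 190 1 1 1 1 [.n,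
  .n, .n, .g 64 1 0 0]))))) (.B 1 1 2 (.B 0 2 1 (.L 104) (.B 1 2 1 (.B 0 1 2
  (.L 104) (.B 1 4 1 (.B 0 1 4 (.L 104) (.B 0 1 8 (.L 104) (.B 0 1 16 (.L
  104) (.C 0 2 8 1 (.C 0 1 4 1 (.T 1 1 (.T 2 1 (.T 4 1 (.T 8 1 (.T 16 1 (.T
  32 1 (.L 160) (.L 28)) (.L 28)) (.L 28)) (.L 18)) (.L 5)) (.C 0 1 8 1 (.T
  1 2 (.T 2 1 (.L 4) (.C 1 2 1 1 (.L 4) (.L 202))) (.C 1 2 1 1 (.T 1 4 (.L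
  3) (.C 0 1 16 1 (.L 202) (.C 0 2 1 1 (.C 1 2 4 1 (.T 1 8 (.L 3) (.C 0 1 1
  2 (.T 1 16 (.C 1 2 2 1 (.L 148) (.C 0 2 4 1 (.L 57) (.G 394 469 1 2245
  2245 1122 [.n, .n, .g 16 1 0 0, .g 64 5 0 0, .n, .n, .g 32 7 0 0, .g 64 15
  0 0]))) (.T 1 32 (.T 2 1 (.G 38 341 3 2097152 4194304 8388607 [.n, .g 5 21
  0 0, .n, .n]) (.L 25)) (.L 142))) (.L 60))) (.C 0 2 2 1 (.T 1 8 (.L 64)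
  (.G 266 135 0 2097152 8388607 8388607 [.g 32 0 13 0, .g 8 7 0 0, .g 64 53
  0 0, .n])) (.T 1 8 (.G 194 405 0 30022 30022 15011 [.g 26 63 11 0, .n, .n,
  .n, .n, .n]) (.L 498)))) (.L 60)))) (.L 202))) (.L 202))) (.T 1 1 (.T 2 1
  (.T 4 1 (.T 8 1 (.T 16 1 (.T 32 1 (.L 160) (.L 28)) (.L 28)) (.L 28)) (.L
  44)) (.L 5)) (.C 1 2 4 1 (.C 0 1 1 2 (.L 61) (.G 10 208 3 1 1 1 [.n, .n,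
  .n, .g 256 1 0 0])) (.L 26)))) (.C 0 2 1 2 (.T 1 1 (.T 2 1 (.T 4 1 (.T 8 1
  (.G 20 32 0 107 27 213 [.n, .n, .n, .g 2 1 74 0]) (.L 28)) (.L 44)) (.L
  5)) (.C 0 1 1 4 (.L 42) (.C 1 2 8 1 (.G 10 208 3 1 1 1 [.n, .n, .n, .g 128
  1 0 0]) (.L 42)))) (.C 0 2 1 4 (.T 1 1 (.G 109 20 3 1 1 1 [.g 1 226 0 0,
  .n, .n, .n, .g 1 361 0 0]) (.G 208 10 3 1 1 1 [.n, .n, .n, .g 1 61 0 0,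
  .n])) (.L 10))))))) (.L 104))) (.L 104))) (.L 104)))) (.L 251)))))))
  (by decide +kernel)

end Pool.Agent.TET.Cvr
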