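import Pool.Agent.Helper37_TET.ES1_000

/-!
# MP_c7c9bf_co: cover of the charts, root 1, assembly 0
-/

set_option autoImplicit false
set_option maxRecDepth 100000

namespace Pool.Agent.TET.Cvr

theorem ES1_t0 : CoF ESTab ⟨⟨1936, 2054, 40000⟩, ⟨1936, 3388, 40000⟩, ⟨1576,
  1694, 20000⟩, ⟨0, 1⟩, ⟨2, 1⟩, ⟨1, 0, 0⟩, ⟨0, 1, 0⟩, ⟨0, 1, 1⟩⟩ :=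
  CoF.b 2 2 1 rfl rfl rfl ES1_c1 ES1_c2

theorem ES1_t1 : CoF ESTab ⟨⟨1936, 2054, 40000⟩, ⟨360, 1694, 20000⟩, ⟨1576,
  1694, 20000⟩, ⟨0, 1⟩, ⟨2, 1⟩, ⟨1, 0, 0⟩, ⟨0, 1, 0⟩, ⟨0, 1, 1⟩⟩ :=
  CoF.b 1 1 1 rfl rfl rfl ES1_c0 ES1_t0

theorem ES1_t2 : CoF ESTab ⟨⟨360, 360, 20000⟩, ⟨360, 1694, 20000⟩, ⟨1936,
  2054, 40000⟩, ⟨0, 1⟩, ⟨2, 1⟩, ⟨1, 0, 0⟩, ⟨0, 1, 0⟩, ⟨0, 1, 1⟩⟩ :=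
  CoF.b 0 1 1 rfl rfl rfl ES1_c3 ES1_c4

theorem ES1_t3 : CoF ESTab ⟨⟨360, 360, 20000⟩, ⟨360, 1694, 20000⟩, ⟨1576,
  1694, 20000⟩, ⟨0, 1⟩, ⟨2, 1⟩, ⟨1, 0, 0⟩, ⟨0, 1, 0⟩, ⟨0, 1, 1⟩⟩ :=
  CoF.b 2 1 1 rfl rfl rfl ES1_t1 ES1_t2

end Pool.Agent.TET.Cvr
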