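import Pool.Agent.Helper37_TET.ESBt

/-!
# MP_c7c9bf_co: cover of the charts, root 2 part 0
-/

set_option autoImplicit false
set_option maxRecDepth 100000

namespace Pool.Agent.TET.Cvr

theorem ES2_c0 : CoF ESTab ⟨⟨1995, 1995, 40000⟩, ⟨2054, 1936, 40000⟩, ⟨5324,
  5206, 80000⟩, ⟨0, 1⟩, ⟨2, 1⟩, ⟨1, 0, 0⟩, ⟨0, 1, 0⟩, ⟨0, 1, 1⟩⟩ :=
CoF.ofG ESTab_B ESBt_E ESBt_U (.B 1 2 1 (.B 2 1 4 (.C 0 2 8 1 (.T 1 1 (.T 2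
  1 (.T 4 1 (.T 8 1 (.C 1 2 4 1 (.T 16 1 (.T 32 1 (.C 0 2 32 1 (.L 73) (.L
  140)) (.C 0 2 32 1 (.L 1) (.C 0 2 1 2 (.L 1) (.C 0 2 1 4 (.L 1) (.L
  96))))) (.C 1 2 8 1 (.L 6) (.T 1 2 (.B 1 4 1 (.L 32) (.T 2 1 (.T 4 1 (.L
  495) (.C 0 1 64 1 (.C 1 2 1 4 (.L 1) (.O 4)) (.G 1 59 1 2058468 1029234
  514617 [.n, .g 9 32 0 0, .n, .n, .n, .n]))) (.L 175))) (.L 226)))) (.C 1 2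
  1 2 (.L 138) (.O 4))) (.L 9)) (.L 18)) (.L 5)) (.C 0 1 4 1 (.T 1 2 (.T 2 1
  (.L 4) (.C 1 2 2 1 (.L 2) (.L 14))) (.C 0 1 8 1 (.C 1 2 1 1 (.T 1 4 (.L 3)
  (.C 1 2 2 1 (.T 1 8 (.L 3) (.T 1 16 (.L 31) (.C 1 2 4 1 (.C 1 2 8 1 (.L
  46) (.L 80)) (.O 4)))) (.T 1 8 (.T 2 1 (.L 3) (.L 24)) (.O 4)))) (.L 8))
  (.L 40))) (.T 1 2 (.C 1 2 4 1 (.L 2) (.G 2 109 3 3 13 6 [.n, .n, .g 16 3 0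
  0, .g 16 7 0 0])) (.L 11)))) (.T 1 1 (.C 1 2 2 1 (.C 0 1 1 4 (.T 2 1 (.T 4
  1 (.C 0 1 2 1 (.L 106) (.C 0 1 1 2 (.L 93) (.G 367 280 0 28874 7219 3609
  [.n, .g 19 63 23 0, .n, .n, .n, .g 41 64 0 0]))) (.L 126)) (.G 26 56 3 1 1
  1 [.g 64 47 0 0, .n, .n, .g 16 13 0 0, .n])) (.C 0 2 1 2 (.C 0 1 1 8 (.T 2
  1 (.T 4 1 (.T 8 1 (.C 0 1 2 1 (.C 1 2 1 2 (.T 16 1 (.O 4) (.G 431 118 1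
  6961 27843 55686 [.g 64 0 25 0, .g 64 17 0 0, .n, .n, .n, .n])) (.L 138))
  (.G 276 204 3 37 18 18 [.g 5 8 0 0, .n, .n, .n])) (.L 9)) (.L 33)) (.L 5))
  (.L 10)) (.L 10))) (.T 2 1 (.L 15) (.T 1 2 (.L 34) (.L 12)))) (.C 0 1 1 4
  (.G 2 82 2 171 342 86 [.n, .g 32 5 0 0, .g 5 2 935 0, .g 6 1 1100 0]) (.T
  1 2 (.T 2 1 (.L 4) (.L 23)) (.L 30))))) (.C 0 2 8 1 (.T 1 1 (.T 2 1 (.T 4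
  1 (.T 8 1 (.T 16 1 (.C 1 2 4 1 (.T 32 1 (.L 71) (.C 0 2 32 1 (.L 1) (.C 0
  2 1 2 (.L 1) (.C 0 2 1 4 (.L 1) (.L 96))))) (.O 4)) (.L 32)) (.L 9)) (.L
  18)) (.L 5)) (.C 0 1 4 1 (.T 1 2 (.T 2 1 (.L 4) (.C 1 2 2 1 (.L 2) (.L
  14))) (.C 0 1 8 1 (.C 1 2 1 1 (.T 1 4 (.L 3) (.C 1 2 2 1 (.T 1 8 (.L 3)
  (.T 1 16 (.L 31) (.C 1 2 4 1 (.C 1 2 8 1 (.L 46) (.L 80)) (.O 4)))) (.T 1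
  8 (.T 2 1 (.L 3) (.L 24)) (.O 4)))) (.L 8)) (.L 60))) (.T 1 2 (.C 1 2 4 1
  (.L 2) (.G 2 26 3 5 21 11 [.n, .n, .g 1 0 1060 0, .g 5 1 8933 0])) (.L
  11)))) (.T 1 1 (.C 1 2 2 1 (.C 0 1 1 4 (.T 2 1 (.T 4 1 (.G 398 332 0 12489
  24977 12489 [.g 64 59 0 0, .g 64 60 57 0, .n, .n, .n, .n]) (.L 50)) (.G 26
  35 2 1 1 1 [.g 43 63 0 0, .n, .n, .g 5 8 0 0, .n])) (.C 0 1 1 8 (.C 0 2 1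
  2 (.T 2 1 (.T 4 1 (.G 156 174 0 59 117 117 [.n, .n, .n, .g 7 72 2095 0])
  (.L 33)) (.L 5)) (.L 10)) (.L 10))) (.T 2 1 (.L 15) (.T 1 2 (.L 34) (.L
  12)))) (.C 0 1 1 4 (.G 2 82 2 171 342 86 [.n, .g 32 5 0 0, .g 3 1 488 0,
  .g 6 1 1019 0]) (.T 1 2 (.T 2 1 (.L 4) (.L 23)) (.L 30)))))) (.B 2 1 2 (.C
  0 2 8 1 (.T 1 1 (.T 2 1 (.T 4 1 (.T 8 1 (.C 1 2 4 1 (.C 1 2 8 1 (.T 16 1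
  (.T 32 1 (.C 0 2 64 1 (.C 0 2 128 1 (.C 0 1 4 1 (.C 1 2 32 1 (.L 37) (.C 0
  1 512 1 (.C 1 2 1 4 (.B 2 2 1 (.B 1 1 2 (.L 105) (.C 1 2 2 1 (.L 95) (.L
  36))) (.L 105)) (.L 36)) (.L 43))) (.L 43)) (.L 43)) (.G 198 213 1 498 16
  249 [.n, .n, .n, .g 1 2 56 0])) (.L 6)) (.L 6)) (.T 16 1 (.C 0 1 64 1 (.C
  1 2 1 4 (.L 16) (.O 4)) (.G 16 303 3 2522942 1261471 630735 [.n, .g 8 21 0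
  0, .n, .n, .g 1024 4 1 0, .n])) (.T 1 2 (.T 2 1 (.C 0 1 64 1 (.C 1 2 1 4
  (.L 1) (.O 4)) (.G 1 59 1 1620555 810278 405139 [.n, .g 22 63 0 0, .n, .n,
  .n, .n])) (.L 132)) (.L 7)))) (.C 1 2 1 2 (.L 13) (.O 4))) (.L 9)) (.L
  18)) (.L 5)) (.C 0 1 4 1 (.T 1 2 (.T 2 1 (.L 4) (.C 1 2 2 1 (.L 2) (.L
  14))) (.C 0 1 8 1 (.C 1 2 1 1 (.T 1 4 (.L 3) (.C 1 2 2 1 (.T 1 8 (.L 3)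
  (.T 1 16 (.L 31) (.C 1 2 4 1 (.C 1 2 8 1 (.L 46) (.L 80)) (.O 4)))) (.T 1
  8 (.T 2 1 (.L 3) (.L 24)) (.O 4)))) (.L 8)) (.L 40))) (.T 1 2 (.T 2 1 (.L
  2) (.L 26)) (.L 11)))) (.T 1 1 (.C 1 2 2 1 (.C 0 1 1 4 (.T 2 1 (.C 0 1 2 1
  (.G 480 227 3 1 1 1 [.n, .n, .n, .g 1024 1 0 0, .g 2048 1 0 0, .n]) (.T 4
  1 (.C 0 1 1 2 (.L 93) (.T 8 1 (.L 13) (.L 9))) (.L 44))) (.G 26 58 3 1 1 1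
  [.g 31 32 0 0, .n, .n, .g 64 53 0 0, .g 64 15 0 0])) (.C 0 2 1 2 (.C 0 1 1
  8 (.T 2 1 (.T 4 1 (.T 8 1 (.C 0 1 2 1 (.C 1 2 1 2 (.G 150 117 3 8 32 64
  [.g 32 9 0 0, .n, .g 1 4 4830 0, .n]) (.L 13)) (.C 0 1 1 2 (.C 0 2 1 2 (.B
  2 2 1 (.B 1 1 2 (.L 124) (.L 207)) (.L 124)) (.L 124)) (.L 20))) (.L 9))
  (.L 51)) (.L 5)) (.L 20)) (.L 20))) (.T 2 1 (.L 15) (.T 1 2 (.L 144) (.L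
  12)))) (.C 0 1 1 4 (.G 2 83 3 333 666 166 [.n, .g 64 11 0 0, .g 8 3 0 0,
  .g 64 17 0 0]) (.T 1 2 (.C 1 2 2 1 (.L 4) (.L 48)) (.L 30))))) (.C 0 2 8 1
  (.T 1 1 (.T 2 1 (.T 4 1 (.T 8 1 (.C 1 2 4 1 (.T 16 1 (.T 32 1 (.C 0 2 32 1
  (.L 73) (.L 140)) (.C 0 2 32 1 (.L 1) (.C 0 2 1 2 (.L 1) (.C 0 2 1 4 (.L
  1) (.L 96))))) (.C 1 2 8 1 (.L 6) (.T 1 2 (.C 0 1 64 1 (.C 1 2 1 4 (.L 1)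
  (.C 1 2 1 8 (.L 16) (.L 138))) (.C 0 2 1 4 (.G 85 1 1 4194304 2097152
  8388607 [.g 16 1 0 0, .n, .n, .n, .g 2 53 0 0, .g 2 55 0 0]) (.C 0 1 1 4
  (.G 1 123 2 669 1337 84 [.n, .g 2 1 898 0, .n, .n, .n, .n]) (.G 463 152 2
  729 91 46 [.n, .n, .g 1 2 630 0, .g 16 9 0 0])))) (.L 226)))) (.C 1 2 1 2
  (.L 138) (.O 4))) (.L 9)) (.L 18)) (.L 5)) (.C 0 1 4 1 (.T 1 2 (.T 2 1 (.L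
  4) (.C 1 2 2 1 (.L 2) (.L 14))) (.C 0 1 8 1 (.C 1 2 1 1 (.T 1 4 (.L 3) (.C
  1 2 2 1 (.T 1 8 (.L 3) (.T 1 16 (.L 31) (.C 1 2 4 1 (.C 1 2 8 1 (.L 46)
  (.L 80)) (.O 4)))) (.T 1 8 (.T 2 1 (.L 3) (.L 24)) (.O 4)))) (.L 8)) (.L
  40))) (.T 1 2 (.C 1 2 4 1 (.L 2) (.G 4 65 1 5 19 10 [.n, .n, .g 1 0 2438
  0, .g 1 1 4181 0])) (.L 11)))) (.T 1 1 (.C 1 2 2 1 (.C 0 1 1 4 (.T 2 1 (.C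
  0 1 2 1 (.G 237 335 0 1 1 1 [.n, .g 64 0 43 0, .n, .n, .n, .n]) (.T 4 1
  (.G 185 226 0 62937 31468 15734 [.n, .n, .n, .g 11 32 0 0, .n, .g 24 63 22
  0]) (.L 44))) (.G 26 56 3 1 1 1 [.g 64 47 0 0, .n, .n, .g 16 13 0 0, .n]))
  (.C 0 2 1 2 (.C 0 1 1 8 (.T 2 1 (.T 4 1 (.T 8 1 (.C 1 2 1 1 (.C 0 1 2 1
  (.T 16 1 (.O 4) (.G 270 278 3 7507 30027 30027 [.n, .n, .n, .n, .g 64 21 0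
  0, .g 32 2 15 0])) (.G 276 156 3 12 6 12 [.g 16 11 0 0, .n, .n, .n])) (.G
  271 399 3 14511 58045 29023 [.g 64 4 15 0, .g 64 35 0 0, .g 64 3 0 0,
  .n])) (.L 9)) (.L 33)) (.L 5)) (.L 10)) (.L 10))) (.T 2 1 (.L 15) (.T 1 2
  (.L 34) (.L 12)))) (.C 0 1 1 4 (.G 2 27 3 294 588 147 [.n, .g 16 3 0 0, .g
  2 1 0 0, .g 32 11 0 0]) (.T 1 2 (.T 2 1 (.L 4) (.L 23)) (.L 30)))))))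
  (by decide +kernel)

theorem ES2_c1 : CoF ESTab ⟨⟨1995, 1995, 40000⟩, ⟨5324, 5206, 80000⟩, ⟨1635,
  1635, 20000⟩, ⟨0, 1⟩, ⟨2, 1⟩, ⟨1, 0, 0⟩, ⟨0, 1, 0⟩, ⟨0, 1, 1⟩⟩ :=
CoF.ofG ESTab_B ESBt_E ESBt_U (.B 2 2 1 (.B 1 1 4 (.C 0 2 8 1 (.T 1 1 (.T 2
  1 (.T 4 1 (.T 8 1 (.C 1 2 4 1 (.C 1 2 8 1 (.L 6) (.C 0 1 64 1 (.C 0 2 32 1
  (.L 1) (.G 21 1 1 345079 690158 172540 [.n, .g 64 17 6 0, .g 256 79 27 0,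
  .n])) (.C 0 2 1 4 (.C 0 1 1 2 (.L 1) (.C 0 1 1 4 (.L 1) (.C 1 2 4 1 (.C 1
  2 8 1 (.L 6) (.L 1)) (.L 1)))) (.C 0 1 1 4 (.C 0 2 1 8 (.L 1) (.C 1 2 1 16
  (.C 1 2 2 1 (.L 1) (.C 0 2 2 1 (.L 1) (.T 16 1 (.O 4) (.C 1 2 1 2 (.L 1)
  (.G 503 145 2 2908456 5816913 1454228 [.n, .g 23 32 18 0, .g 64 6 5 0,
  .n]))))) (.G 21 375 0 373 746 23 [.n, .g 1 0 691 0, .g 249 35 262196 0,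
  .n]))) (.T 16 1 (.G 502 1 1 3882558 485320 242660 [.n, .n, .g 256 50 1 0,
  .n, .n]) (.C 0 1 1 8 (.C 0 1 2 1 (.G 187 122 5 1 1 1 [.n, .g 64 23 0 0,
  .n, .n, .n, .n]) (.C 1 2 1 32 (.L 62) (.G 165 262 5 1 1 1 [.g 32 1 32760
  0, .n, .n, .n]))) (.C 1 2 1 2 (.L 166) (.G 123 127 0 1 1 1 [.n, .n, .g 5 1
  3934 0, .g 32 3 0 0])))))))) (.C 1 2 1 2 (.L 13) (.O 4))) (.L 7)) (.L 52))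
  (.L 5)) (.C 0 1 4 1 (.T 1 2 (.T 2 1 (.L 4) (.C 1 2 2 1 (.L 2) (.L 14)))
  (.C 0 1 8 1 (.C 1 2 1 1 (.T 1 4 (.L 3) (.C 1 2 2 1 (.T 1 8 (.L 3) (.T 1 16
  (.L 31) (.C 1 2 4 1 (.C 1 2 8 1 (.L 46) (.L 80)) (.O 4)))) (.T 1 8 (.T 2 1
  (.L 3) (.L 24)) (.O 4)))) (.L 8)) (.L 40))) (.T 1 2 (.C 1 2 4 1 (.L 2) (.G
  4 49 2 6 22 11 [.n, .n, .g 16 7 0 0, .g 61 64 0 0])) (.L 11)))) (.T 1 1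
  (.C 1 2 2 1 (.T 2 1 (.T 4 1 (.T 8 1 (.C 0 1 1 4 (.C 0 1 2 1 (.O 4) (.L
  13)) (.C 0 1 1 8 (.C 1 2 1 4 (.C 0 2 4 1 (.C 0 1 2 1 (.T 16 1 (.O 4) (.G
  439 145 2 4 14 29 [.g 32 5 0 0, .n, .g 4 1 0 0, .g 36 1 4097 0])) (.C 0 1
  1 2 (.C 0 1 2 1 (.G 137 17 3 1 1 1 [.n, .n, .n, .n, .g 1 329 84254 0, .g 1
  323 93363 0]) (.L 17)) (.L 17))) (.L 17)) (.L 13)) (.L 10))) (.L 7)) (.G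
  74 126 2 1 1 1 [.n, .g 1 1 2802 0, .n, .n])) (.T 1 2 (.L 58) (.L 12))) (.T
  2 1 (.L 15) (.C 0 1 1 1 (.L 12) (.G 92 42 0 1 1 1 [.g 4 3 0 0, .n, .n,
  .n])))) (.C 0 1 1 4 (.G 2 109 3 31 61 15 [.n, .g 64 11 0 0, .g 32 15 0 0,
  .g 16 5 0 0]) (.T 1 2 (.C 1 2 2 1 (.L 4) (.L 48)) (.L 30))))) (.C 0 2 8 1
  (.T 1 1 (.T 2 1 (.T 4 1 (.T 8 1 (.C 1 2 4 1 (.C 1 2 8 1 (.T 16 1 (.L 6)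
  (.T 1 2 (.L 6) (.L 7))) (.C 0 2 32 1 (.C 0 1 64 1 (.T 16 1 (.L 1) (.T 1 2
  (.L 1) (.L 7))) (.T 16 1 (.C 1 2 1 1 (.G 6 1 1 2417667 1208834 2417667
  [.n, .g 64 19 0 0, .n, .n, .n, .n]) (.L 1)) (.T 1 2 (.C 1 2 1 1 (.G 1 6 1
  1058438 529219 1058438 [.n, .g 5 16 0 0, .n, .n, .n, .n]) (.L 1)) (.L
  7)))) (.C 0 1 1 1 (.C 1 2 1 4 (.G 1 16 4 3563 7125 14250 [.n, .n, .n, .n,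
  .g 32 17 0 0, .n]) (.T 16 1 (.O 4) (.G 118 128 3 89719 358875 44859 [.g 32
  0 13 0, .g 64 0 33 0, .n, .n]))) (.T 16 1 (.C 0 2 1 4 (.C 0 1 1 2 (.L 1)
  (.C 1 2 4 1 (.G 127 36 1 4 1 8 [.g 73 2 4087 0, .g 256 23 0 0, .n, .n, .g
  1 1 48185 0, .g 3 2 141740 0]) (.G 62 1 1 11 22 11 [.g 147 1 32692 0, .n,
  .n, .n, .g 1 1 25071 0, .g 1 1 23298 0]))) (.C 0 2 1 8 (.C 0 1 1 4 (.T 32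
  1 (.O 4) (.G 72 90 0 1 1 1 [.g 1 0 290 0, .n, .n, .n, .n, .g 16 3 0 0]))
  (.C 0 1 1 8 (.B 2 4 1 (.G 222 502 2 49 98 49 [.g 1 0 2682 0, .g 3 7 2126
  0, .n, .n, .n, .n]) (.L 47)) (.L 228))) (.L 228))) (.T 1 2 (.T 2 1 (.C 0 2
  1 4 (.C 0 1 1 2 (.L 16) (.C 1 2 4 1 (.C 1 2 8 1 (.L 36) (.G 127 6 1 63 252
  126 [.g 64 23 0 0, .g 64 45 0 0, .n, .n, .n, .n])) (.G 62 1 1 8 16 8 [.g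
  96 1 1024 0, .n, .n, .n, .g 64 41 0 0, .g 32 25 0 0]))) (.C 0 2 1 8 (.C 0
  1 1 4 (.C 0 1 2 1 (.G 1 374 0 59 234 117 [.n, .g 2 1 14470 0, .n, .n, .n,
  .n]) (.G 225 59 1 3 2 2 [.g 1 0 712 0, .n, .n, .n, .g 64 27 0 0, .g 64 31
  0 0])) (.C 0 1 1 8 (.B 2 4 1 (.C 0 1 2 1 (.G 311 72 0 1 1 1 [.n, .g 1 8
  1534 0, .g 1 6 2775 0, .n]) (.G 59 108 2 667 333 167 [.n, .g 16 1 0 0, .n,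
  .n])) (.L 19)) (.L 59))) (.G 438 59 0 143940 17992 8996 [.n, .n, .n, .g 5
  33 0 0]))) (.B 2 4 1 (.T 1 2 (.B 1 1 8 (.L 21) (.G 21 471 4 144 72 36 [.n,
  .g 64 5 0 0, .n, .n])) (.L 118)) (.L 21))) (.L 7)))))) (.C 1 2 1 2 (.L 13)
  (.O 4))) (.L 7)) (.L 52)) (.L 5)) (.C 0 1 4 1 (.T 1 2 (.T 2 1 (.L 4) (.C 1
  2 2 1 (.L 4) (.L 14))) (.C 0 1 8 1 (.C 1 2 1 1 (.T 1 4 (.L 3) (.C 1 2 2 1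
  (.T 1 8 (.L 3) (.T 1 16 (.L 31) (.C 1 2 4 1 (.C 1 2 8 1 (.L 57) (.L 80))
  (.O 4)))) (.T 1 8 (.T 2 1 (.L 3) (.L 24)) (.O 4)))) (.L 8)) (.G 60 219 0 1
  1 1 [.n, .g 32 3 0 0, .n, .n]))) (.T 1 2 (.C 1 2 4 1 (.L 2) (.G 4 49 2 6
  22 11 [.n, .n, .g 64 31 0 0, .g 29 32 0 0])) (.L 11)))) (.T 1 1 (.C 1 2 2
  1 (.T 2 1 (.T 4 1 (.T 8 1 (.C 0 1 1 4 (.C 0 1 2 1 (.O 4) (.L 13)) (.C 0 2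
  1 2 (.C 0 1 1 8 (.C 0 1 2 1 (.C 1 2 1 2 (.G 123 113 0 10 41 82 [.g 2 0
  1061 0, .n, .g 1 0 1047 0, .g 16 1 0 0]) (.L 13)) (.C 0 2 1 2 (.C 0 1 1 2
  (.T 16 1 (.C 0 2 2 1 (.L 96) (.G 407 343 5 1 1 1 [.n, .g 1 0 1225 0, .n,
  .n, .g 1 0 86225 0, .g 1 0 93595 0, .n, .n])) (.G 372 279 1 100 199 199
  [.g 1 1 195 0, .n, .n, .g 64 29 0 0])) (.L 17)) (.L 17))) (.L 17)) (.L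
  17))) (.L 7)) (.G 74 98 4 1 1 1 [.n, .g 2 3 9919 0, .n, .n])) (.T 1 2 (.L
  58) (.L 12))) (.T 2 1 (.L 15) (.C 0 1 1 1 (.L 12) (.G 92 42 0 1 1 1 [.g 4
  3 0 0, .n, .n, .n])))) (.C 0 1 1 4 (.G 2 242 1 48 96 24 [.n, .g 64 11 0 0,
  .g 64 29 0 0, .g 14 3 4191 0]) (.T 1 2 (.C 1 2 2 1 (.L 4) (.L 48)) (.L
  30)))))) (.B 0 2 1 (.C 0 2 8 1 (.T 1 1 (.T 2 1 (.T 4 1 (.T 8 1 (.C 1 2 4 1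
  (.C 1 2 8 1 (.T 16 1 (.T 32 1 (.B 2 1 2 (.C 0 2 64 1 (.C 0 2 128 1 (.C 0 1
  4 1 (.C 1 2 32 1 (.L 37) (.C 0 1 512 1 (.C 1 2 1 4 (.B 2 2 1 (.B 1 1 2 (.L
  105) (.C 1 2 2 1 (.L 95) (.L 36))) (.L 105)) (.L 36)) (.L 43))) (.L 43))
  (.L 43)) (.G 198 213 1 494 15 247 [.n, .n, .n, .g 1 2 56 0])) (.L 71)) (.L
  6)) (.L 6)) (.T 16 1 (.C 0 1 64 1 (.C 1 2 1 4 (.T 32 1 (.O 4) (.L 1)) (.O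
  4)) (.C 0 1 1 2 (.G 1 47 0 1235077 2470154 308769 [.n, .g 64 0 15 0, .n,
  .n, .n, .g 16384 0 3 0]) (.G 1 47 0 2470154 617539 308769 [.n, .g 23 64 0
  0, .n, .n, .n, .g 8192 8 1 0]))) (.T 1 2 (.C 0 1 64 1 (.C 0 2 32 1 (.L 1)
  (.G 1 21 2 584272 1168545 292136 [.n, .g 17 65 7 0, .n, .n, .n, .n])) (.C
  0 2 1 4 (.G 85 1 1 4194304 2097152 8388607 [.g 32 3 0 0, .n, .n, .n, .g 2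
  57 0 0, .g 2 59 0 0]) (.C 0 1 1 4 (.G 108 1 1 568 1135 71 [.g 327 1 1024
  0, .n, .g 1 2 1275 0, .n]) (.C 0 2 1 16 (.C 0 1 1 8 (.G 1 152 3 330397
  660793 660793 [.n, .g 18 64 23 0, .n, .n, .n, .n]) (.L 310)) (.G 468 487 1
  8388607 524288 262144 [.n, .g 64 0 1 0, .g 5 69 4 0, .g 4 58 3 0, .n,
  .n]))))) (.L 118)))) (.C 1 2 1 2 (.C 1 2 2 1 (.C 1 2 4 1 (.T 16 1 (.O 4)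
  (.L 436)) (.O 4)) (.O 4)) (.O 4))) (.L 9)) (.L 18)) (.L 5)) (.C 0 1 4 1
  (.T 1 2 (.T 2 1 (.L 4) (.C 1 2 2 1 (.L 2) (.L 14))) (.C 0 1 8 1 (.C 1 2 1
  1 (.T 1 4 (.L 3) (.C 1 2 2 1 (.T 1 8 (.L 3) (.T 1 16 (.L 31) (.C 1 2 4 1
  (.C 1 2 8 1 (.L 57) (.L 80)) (.O 4)))) (.T 1 8 (.T 2 1 (.L 3) (.L 24)) (.O
  4)))) (.L 8)) (.L 40))) (.T 1 2 (.T 2 1 (.L 2) (.L 26)) (.L 11)))) (.T 1 1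
  (.C 1 2 2 1 (.C 0 1 1 4 (.T 2 1 (.C 0 1 2 1 (.G 480 227 3 1 1 1 [.n, .n,
  .n, .g 1024 1 0 0, .g 2048 1 0 0, .n]) (.T 4 1 (.C 0 1 1 2 (.L 93) (.T 8 1
  (.C 1 2 1 2 (.G 342 470 2 116500 29125 58250 [.n, .n, .g 6 31 20 0, .n])
  (.O 4)) (.L 9))) (.L 44))) (.G 26 58 3 1 1 1 [.g 31 32 0 0, .n, .n, .g 32
  27 0 0, .g 64 15 0 0])) (.C 0 2 1 2 (.C 0 1 1 8 (.T 2 1 (.T 4 1 (.C 0 1 2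
  1 (.T 8 1 (.C 1 2 1 2 (.T 16 1 (.O 4) (.G 154 118 1 8 31 62 [.g 64 27 0 0,
  .n, .g 64 37 0 0, .g 24 2 4075 0])) (.G 304 436 0 73038 584306 146076 [.n,
  .n, .n, .g 64 0 13 0])) (.L 9)) (.B 2 1 2 (.C 0 1 1 2 (.C 0 2 1 2 (.G 137
  163 3 1 1 1 [.g 3 58 0 0, .n, .n, .n, .g 1 849 72415 0, .g 1 839 80866 0])
  (.L 204)) (.L 20)) (.L 156))) (.L 33)) (.L 5)) (.L 111)) (.L 111))) (.T 2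
  1 (.L 15) (.T 1 2 (.L 144) (.L 12)))) (.C 0 1 1 4 (.G 2 27 3 294 587 147
  [.n, .g 16 3 0 0, .g 64 33 0 0, .g 64 23 0 0]) (.T 1 2 (.T 2 1 (.L 4) (.L
  23)) (.L 30))))) (.C 0 2 8 1 (.T 1 1 (.T 2 1 (.T 4 1 (.T 8 1 (.C 1 2 4 1
  (.C 0 1 4 1 (.C 0 1 8 1 (.C 1 2 2 1 (.T 16 1 (.T 32 1 (.T 64 1 (.L 73) (.L
  1)) (.L 1)) (.L 1)) (.T 16 1 (.O 4) (.C 0 2 32 1 (.L 16) (.G 1 450 3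
  764142 764142 382071 [.n, .g 8 61 3 0, .n, .n, .n, .n])))) (.B 2 2 1 (.C 1
  2 4 1 (.T 16 1 (.G 37 1 5 2097152 1048576 8388607 [.n, .n, .n, .n, .g 1
  52718 0 0, .g 1 55018 0 0, .n, .n]) (.L 1)) (.C 0 2 2 1 (.T 16 1 (.G 37 1
  5 2097152 8388607 8388607 [.n, .n, .n, .n, .g 1 40707 0 0, .g 1 42060 0 0,
  .n, .n]) (.L 1)) (.G 16 91 0 216859 216859 108430 [.n, .g 13 63 13 0, .n,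
  .n, .g 256 0 1 0, .n]))) (.T 16 1 (.T 32 1 (.G 43 229 1 178813 89406
  357625 [.n, .n, .n, .n, .n, .n, .g 32 0 23 0, .g 16 0 11 0]) (.G 6 1 1
  53194 26597 106388 [.n, .g 21 26 32 0, .n, .n, .n, .n])) (.G 1 161 0 68226
  34113 136451 [.n, .g 14 65 7 0, .n, .n, .n, .n])))) (.C 0 2 4 1 (.T 16 1
  (.T 32 1 (.L 37) (.L 1)) (.L 1)) (.C 1 2 8 1 (.C 0 1 1 16 (.T 16 1 (.T 32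
  1 (.L 36) (.G 6 1 1 629444 1258889 629444 [.n, .g 64 17 0 0, .n, .n, .n,
  .n])) (.G 1 6 1 192351 384703 192351 [.n, .g 3 8 0 0, .n, .n, .n, .n]))
  (.L 124)) (.C 0 1 1 1 (.T 16 1 (.C 0 2 1 2 (.L 16) (.G 16 205 0 609133
  609133 152283 [.n, .g 32 64 1 0, .n, .n, .g 256 1 1 0, .n])) (.G 1 108 2
  262 524 131 [.n, .g 3 1 1062 0, .n, .n, .n, .n])) (.T 16 1 (.C 0 2 1 4 (.G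
  356 36 1 1043760 521880 2087519 [.g 64 19 0 0, .n, .n, .g 64 0 1 0, .g
  1024 54 35 0]) (.L 96)) (.C 1 2 1 2 (.G 85 166 2 8388607 4194304 8388607
  [.n, .n, .g 1 83 0 0, .g 1 87 0 0, .g 2 71 0 0, .g 2 75 0 0]) (.T 1 2 (.G
  108 123 2 4 4 1 [.g 20 2 261 0, .n, .g 1 0 79 0, .n]) (.L 7)))))))) (.C 1
  2 1 2 (.L 13) (.O 4))) (.L 9)) (.L 18)) (.L 5)) (.C 0 1 4 1 (.T 1 2 (.T 2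
  1 (.L 4) (.C 1 2 2 1 (.L 2) (.L 14))) (.C 0 1 8 1 (.C 1 2 1 1 (.T 1 4 (.L
  3) (.C 1 2 2 1 (.T 1 8 (.L 3) (.T 1 16 (.L 31) (.C 1 2 4 1 (.C 1 2 8 1 (.L
  46) (.L 80)) (.O 4)))) (.T 1 8 (.T 2 1 (.L 3) (.L 24)) (.O 4)))) (.L 8))
  (.L 40))) (.T 1 2 (.C 1 2 4 1 (.L 2) (.G 4 26 3 4 18 9 [.n, .n, .g 2 0
  5361 0, .g 1 1 4462 0])) (.L 11)))) (.T 1 1 (.C 1 2 2 1 (.T 2 1 (.T 4 1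
  (.T 8 1 (.C 0 1 1 4 (.C 0 1 2 1 (.O 4) (.L 13)) (.C 0 1 1 8 (.C 1 2 1 4
  (.C 0 2 4 1 (.C 0 1 2 1 (.G 150 117 3 8 32 64 [.g 32 9 0 0, .n, .g 1 4
  4776 0, .n]) (.G 163 207 0 4 2 8 [.n, .n, .n, .g 64 31 0 0])) (.L 178))
  (.L 13)) (.L 10))) (.L 9)) (.G 74 224 2 1 1 1 [.n, .g 2 2 4761 0, .n,
  .n])) (.T 1 2 (.L 56) (.L 12))) (.T 2 1 (.L 15) (.T 1 2 (.L 144) (.L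
  12)))) (.C 0 1 1 4 (.C 0 2 1 2 (.G 2 173 0 29 57 57 [.n, .n, .g 2 1 4094
  0, .g 3 1 4319 0]) (.L 82)) (.T 1 2 (.C 1 2 2 1 (.L 4) (.L 48)) (.L
  30))))))) (by decide +kernel)

theorem ES2_c2 : CoF ESTab ⟨⟨360, 360, 20000⟩, ⟨2054, 1936, 40000⟩, ⟨1995,
  1995, 40000⟩, ⟨0, 1⟩, ⟨2, 1⟩, ⟨1, 0, 0⟩, ⟨0, 1, 0⟩, ⟨0, 1, 1⟩⟩ :=
CoF.ofG ESTab_B ESBt_E ESBt_U (.B 0 2 1 (.B 2 1 2 (.B 1 1 2 (.C 0 2 8 1 (.T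
  1 1 (.T 2 1 (.T 4 1 (.T 8 1 (.T 16 1 (.L 160) (.L 28)) (.L 28)) (.L 39))
  (.L 5)) (.C 0 1 4 1 (.T 1 2 (.T 2 1 (.L 2) (.C 1 2 2 1 (.L 2) (.L 14)))
  (.C 0 1 8 1 (.C 1 2 1 1 (.T 1 4 (.L 3) (.C 1 2 2 1 (.T 1 8 (.L 3) (.T 1 16
  (.L 31) (.C 1 2 4 1 (.C 1 2 8 1 (.L 57) (.L 80)) (.O 4)))) (.T 1 8 (.T 2 1
  (.L 3) (.L 24)) (.O 4)))) (.L 8)) (.L 61))) (.C 1 2 4 1 (.C 0 1 1 2 (.L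
  61) (.T 1 2 (.L 2) (.L 30))) (.L 27)))) (.T 1 1 (.C 0 1 1 4 (.T 2 1 (.G
  177 114 1 3 6 2 [.g 1525 14 4096 0, .g 1 1 3080 0, .n, .n]) (.G 27 35 2 1
  1 1 [.n, .n, .n, .g 64 15 0 0, .n])) (.C 0 1 1 8 (.C 0 2 1 4 (.C 0 1 2 1
  (.T 2 1 (.C 0 2 2 1 (.C 0 1 4 1 (.T 4 1 (.G 238 210 0 20538 164305 82152
  [.g 32 0 9 0, .n, .n, .n]) (.L 51)) (.L 20)) (.L 20)) (.L 5)) (.L 10)) (.L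
  10)) (.L 10))) (.C 0 1 1 4 (.L 41) (.T 1 2 (.T 2 1 (.L 4) (.L 23)) (.L
  30))))) (.C 0 2 8 1 (.T 1 1 (.T 2 1 (.T 4 1 (.T 8 1 (.T 16 1 (.T 32 1 (.L
  55) (.B 2 2 1 (.B 2 4 1 (.B 1 1 4 (.L 28) (.T 1 2 (.B 1 1 8 (.L 55) (.B 2
  8 1 (.C 1 2 4 1 (.L 100) (.O 4)) (.L 55))) (.L 84))) (.L 28)) (.L 28)))
  (.L 32)) (.L 9)) (.C 0 2 16 1 (.L 18) (.L 39))) (.L 5)) (.C 0 1 4 1 (.T 1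
  2 (.T 2 1 (.L 2) (.C 1 2 2 1 (.L 2) (.L 14))) (.T 1 4 (.C 1 2 2 1 (.L 3)
  (.C 1 2 1 2 (.L 3) (.L 8))) (.C 1 2 2 1 (.T 1 8 (.L 22) (.C 0 1 8 1 (.C 1
  2 2 1 (.T 1 16 (.L 22) (.C 1 2 4 1 (.C 1 2 8 1 (.L 57) (.L 80)) (.L 308)))
  (.L 24)) (.L 26))) (.L 8)))) (.T 1 2 (.C 1 2 4 1 (.L 2) (.G 4 49 2 6 23 11
  [.n, .n, .g 64 23 0 0, .g 8 7 0 0])) (.L 11)))) (.T 1 1 (.C 0 1 1 4 (.T 2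
  1 (.C 1 2 1 4 (.G 298 50 2 2 3 7 [.g 16 5 0 0, .g 1 1 2657 0, .n, .n]) (.L
  70)) (.G 27 35 2 1 1 1 [.n, .n, .g 64 15 0 0, .g 64 15 0 0, .n])) (.C 0 2
  1 4 (.T 2 1 (.C 0 1 1 8 (.C 0 1 2 1 (.T 4 1 (.G 129 81 0 4260 17039 8519
  [.g 64 0 1 0, .n, .n, .n]) (.L 33)) (.L 20)) (.L 10)) (.L 5)) (.L 10)))
  (.C 0 1 1 4 (.G 2 82 2 174 348 87 [.n, .g 32 5 0 0, .g 7 3 964 0, .g 6 1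
  948 0]) (.T 1 2 (.T 2 1 (.L 4) (.L 23)) (.L 30)))))) (.B 0 4 1 (.L 155)
  (.L 155))) (.B 2 2 1 (.B 0 1 4 (.C 0 2 8 1 (.T 1 1 (.T 2 1 (.T 4 1 (.T 8 1
  (.T 16 1 (.T 32 1 (.L 55) (.B 2 4 1 (.T 1 2 (.B 1 1 8 (.L 55) (.B 2 8 1
  (.C 1 2 4 1 (.L 100) (.O 4)) (.L 55))) (.L 84)) (.L 99))) (.L 32)) (.L 9))
  (.C 0 2 16 1 (.L 18) (.L 39))) (.L 5)) (.C 0 1 4 1 (.T 1 2 (.T 2 1 (.L 2)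
  (.C 1 2 2 1 (.L 2) (.L 14))) (.C 0 1 8 1 (.C 1 2 1 1 (.T 1 4 (.L 3) (.C 1
  2 2 1 (.T 1 8 (.L 3) (.T 1 16 (.L 31) (.C 1 2 4 1 (.C 1 2 8 1 (.L 46) (.L
  80)) (.O 4)))) (.T 1 8 (.T 2 1 (.L 3) (.L 24)) (.O 4)))) (.L 8)) (.L 60)))
  (.T 1 2 (.C 1 2 4 1 (.L 2) (.G 4 49 2 6 23 11 [.n, .n, .g 64 23 0 0, .g 8
  7 0 0])) (.L 11)))) (.T 1 1 (.C 1 2 2 1 (.C 0 1 1 4 (.T 2 1 (.T 4 1 (.G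
  139 238 0 8 17 8 [.g 1 5 4435 0, .n, .n, .n]) (.L 44)) (.G 26 35 2 1 1 1
  [.g 43 63 0 0, .n, .n, .g 5 8 0 0, .n])) (.C 0 2 1 2 (.C 0 1 1 8 (.T 2 1
  (.C 0 1 2 1 (.T 4 1 (.G 238 210 0 15749 62996 31498 [.g 32 0 11 0, .n, .n,
  .n]) (.L 33)) (.L 20)) (.L 5)) (.L 10)) (.L 10))) (.T 2 1 (.L 15) (.T 1 2
  (.L 34) (.L 12)))) (.C 0 1 1 4 (.G 2 82 2 173 347 87 [.n, .g 32 5 0 0, .g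
  7 3 956 0, .g 7 1 1098 0]) (.T 1 2 (.T 2 1 (.L 4) (.L 23)) (.L 30))))) (.C
  0 2 8 1 (.T 1 1 (.T 2 1 (.T 4 1 (.T 8 1 (.T 16 1 (.T 32 1 (.L 55) (.T 1 2
  (.C 1 2 4 1 (.C 0 2 32 1 (.L 110) (.G 20 100 1 243 15 121 [.n, .n, .n, .g
  1 2 66 0])) (.O 4)) (.L 84))) (.L 32)) (.L 9)) (.L 18)) (.L 5)) (.C 0 1 4
  1 (.T 1 2 (.T 2 1 (.L 2) (.C 1 2 2 1 (.L 2) (.L 14))) (.C 0 1 8 1 (.C 1 2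
  1 1 (.T 1 4 (.L 3) (.C 1 2 2 1 (.T 1 8 (.L 3) (.T 1 16 (.L 31) (.C 1 2 4 1
  (.C 1 2 8 1 (.L 46) (.L 80)) (.O 4)))) (.T 1 8 (.T 2 1 (.L 3) (.L 24)) (.O
  4)))) (.L 8)) (.L 60))) (.T 1 2 (.C 1 2 4 1 (.L 2) (.G 4 11 1 4 16 8 [.n,
  .n, .g 1 0 2937 0, .g 1 1 4489 0])) (.L 11)))) (.T 1 1 (.C 1 2 2 1 (.C 0 1
  1 4 (.T 2 1 (.T 4 1 (.G 114 129 0 1 2 1 [.n, .g 1 53 4898 0, .n, .n]) (.L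
  50)) (.G 26 35 2 1 1 1 [.g 43 63 0 0, .n, .n, .g 5 8 0 0, .n])) (.C 0 1 1
  8 (.C 0 2 1 2 (.C 0 1 2 1 (.T 2 1 (.T 4 1 (.G 32 210 0 14968 59870 29935
  [.g 64 33 31 0, .n, .n, .n]) (.L 33)) (.L 5)) (.L 111)) (.L 10)) (.L 10)))
  (.T 2 1 (.L 15) (.T 1 2 (.L 34) (.L 12)))) (.C 0 1 1 4 (.G 2 103 3 32 64
  16 [.n, .g 32 5 0 0, .g 64 25 0 0, .g 64 17 0 0]) (.T 1 2 (.T 2 1 (.L 4)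
  (.L 23)) (.L 30)))))) (.B 0 1 2 (.C 0 2 8 1 (.T 1 1 (.T 2 1 (.T 4 1 (.T 8
  1 (.T 16 1 (.L 160) (.L 28)) (.L 28)) (.L 39)) (.L 5)) (.C 0 1 4 1 (.T 1 2
  (.T 2 1 (.L 2) (.C 1 2 2 1 (.L 2) (.L 14))) (.T 1 4 (.C 1 2 2 1 (.L 3) (.C
  1 2 1 2 (.L 3) (.L 8))) (.C 0 1 8 1 (.C 1 2 1 1 (.C 1 2 2 1 (.T 1 8 (.L 3)
  (.T 1 16 (.L 31) (.C 1 2 4 1 (.C 1 2 8 1 (.L 46) (.L 80)) (.O 4)))) (.T 1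
  8 (.T 2 1 (.L 3) (.L 24)) (.O 4))) (.O 4)) (.L 26)))) (.C 1 2 4 1 (.C 0 1
  1 2 (.L 61) (.T 1 2 (.L 2) (.L 30))) (.L 27)))) (.T 1 1 (.C 0 1 1 4 (.T 2
  1 (.G 184 114 1 3 6 2 [.g 4 3 956 0, .g 1 1 3177 0, .n, .n]) (.G 27 35 2 1
  1 1 [.n, .n, .n, .g 64 15 0 0, .n])) (.C 0 2 1 4 (.C 0 1 1 8 (.C 0 1 2 1
  (.T 2 1 (.C 0 2 2 1 (.T 4 1 (.G 32 240 0 16140 64560 64560 [.g 64 13 28 0,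
  .n, .n, .n]) (.L 51)) (.L 20)) (.L 5)) (.L 10)) (.L 10)) (.L 10))) (.C 0 1
  1 4 (.L 41) (.T 1 2 (.T 2 1 (.L 4) (.L 23)) (.L 30))))) (.C 0 2 8 1 (.T 1
  1 (.T 2 1 (.T 4 1 (.T 8 1 (.T 16 1 (.T 32 1 (.L 55) (.B 1 4 1 (.B 0 1 4
  (.L 99) (.C 1 2 4 1 (.T 1 2 (.C 0 2 32 1 (.L 110) (.C 0 2 1 2 (.L 110) (.L
  96))) (.L 84)) (.O 4))) (.L 99))) (.L 32)) (.L 9)) (.C 0 2 16 1 (.L 18)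
  (.L 39))) (.L 5)) (.C 0 1 4 1 (.T 1 2 (.T 2 1 (.L 2) (.C 1 2 2 1 (.L 2)
  (.L 14))) (.C 0 1 8 1 (.C 1 2 1 1 (.T 1 4 (.L 3) (.C 1 2 2 1 (.T 1 8 (.L
  3) (.T 1 16 (.L 31) (.C 1 2 4 1 (.C 1 2 8 1 (.L 46) (.L 80)) (.O 4)))) (.T
  1 8 (.T 2 1 (.L 3) (.L 24)) (.O 4)))) (.L 8)) (.L 60))) (.T 1 2 (.C 1 2 4
  1 (.L 2) (.G 4 11 1 4 16 8 [.n, .n, .g 1 0 2868 0, .g 1 1 4489 0])) (.L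
  68)))) (.T 1 1 (.C 1 2 2 1 (.C 0 1 1 4 (.T 2 1 (.T 4 1 (.G 114 167 0 2 5 2
  [.n, .g 1 5 4930 0, .n, .n]) (.L 50)) (.G 26 35 2 1 1 1 [.g 43 63 0 0, .n,
  .n, .g 5 8 0 0, .n])) (.C 0 2 1 2 (.C 0 1 1 8 (.T 2 1 (.C 0 1 2 1 (.T 4 1
  (.G 81 408 0 4260 17039 8519 [.g 14 63 17 0, .n, .n, .n]) (.L 33)) (.L
  20)) (.L 5)) (.L 10)) (.L 10))) (.T 2 1 (.L 15) (.T 1 2 (.L 34) (.L 12))))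
  (.C 0 1 1 4 (.G 2 82 2 174 349 87 [.n, .g 32 5 0 0, .g 8 3 1066 0, .g 7 1
  1056 0]) (.T 1 2 (.T 2 1 (.L 4) (.L 23)) (.L 30))))))))
  (by decide +kernel)

theorem ES2_c3 : CoF ESTab ⟨⟨5324, 5206, 80000⟩, ⟨12100, 11510, 160000⟩,
  ⟨1635, 1635, 20000⟩, ⟨0, 1⟩, ⟨2, 1⟩, ⟨1, 0, 0⟩, ⟨0, 1, 0⟩, ⟨0, 1, 1⟩⟩ :=
CoF.ofG ESTab_B ESBt_E ESBt_U (.B 2 4 1 (.B 1 1 8 (.C 0 2 8 1 (.T 1 1 (.T 2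
  1 (.T 4 1 (.T 8 1 (.C 1 2 4 1 (.C 1 2 8 1 (.T 16 1 (.L 6) (.T 1 2 (.L 6)
  (.L 7))) (.C 0 2 32 1 (.C 0 1 64 1 (.T 16 1 (.L 1) (.T 1 2 (.L 1) (.L 7)))
  (.T 16 1 (.C 1 2 1 1 (.G 6 1 1 2342384 1171192 2342384 [.n, .g 32 9 0 0,
  .n, .n, .n, .n]) (.L 1)) (.T 1 2 (.T 2 1 (.C 0 1 1 2 (.L 1) (.C 1 2 1 1
  (.G 6 1 1 1250289 312572 625145 [.n, .g 64 19 0 0, .n, .n, .n, .n]) (.L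
  1))) (.L 21)) (.L 7)))) (.C 0 1 1 1 (.C 1 2 1 4 (.G 16 1 4 3186 6373 12745
  [.n, .n, .n, .n, .g 7 33 0 0, .n]) (.G 1 77 1 89435 357739 44717 [.n, .g
  41 256 141 0, .n, .n, .g 1024 1 0 0, .n])) (.T 16 1 (.T 32 1 (.O 4) (.C 0
  2 1 4 (.C 0 1 1 2 (.L 16) (.C 0 1 1 4 (.L 1) (.C 1 2 4 1 (.C 0 1 1 8 (.C 0
  1 2 1 (.C 1 2 1 4 (.L 36) (.G 127 422 1 1 1 1 [.n, .g 64 9 0 0, .n, .n,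
  .n, .n])) (.L 121)) (.L 121)) (.G 72 1 1 9 9 4 [.g 128 1 0 0, .g 176 1
  4099 0, .n, .n, .n, .g 32 19 0 0])))) (.C 0 2 1 8 (.C 0 1 1 4 (.G 72 220 0
  1 1 1 [.g 1 0 321 0, .n, .n, .n, .n, .n]) (.G 121 359 2 239232 29904
  239232 [.n, .n, .n, .g 43 64 0 0, .n])) (.L 19)))) (.T 1 2 (.T 2 1 (.C 0 1
  1 2 (.C 0 2 1 4 (.L 16) (.G 122 1 1 394 394 49 [.g 2 5 5053 0, .n, .n, .n,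
  .n, .n])) (.C 0 2 1 8 (.C 1 2 8 1 (.L 116) (.L 62)) (.L 19))) (.L 21)) (.L
  7)))))) (.C 1 2 1 2 (.L 13) (.O 4))) (.L 7)) (.L 52)) (.L 5)) (.C 0 1 4 1
  (.T 1 2 (.T 2 1 (.L 4) (.C 1 2 2 1 (.L 2) (.L 14))) (.T 1 4 (.C 1 2 2 1
  (.L 3) (.C 1 2 1 2 (.L 3) (.L 8))) (.C 1 2 2 1 (.T 1 8 (.L 22) (.C 1 2 4 1
  (.T 1 16 (.L 158) (.C 1 2 8 1 (.L 46) (.L 80))) (.T 1 16 (.C 1 2 1 2 (.L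
  22) (.L 78)) (.O 4)))) (.L 24)))) (.T 1 2 (.C 1 2 4 1 (.L 2) (.G 4 49 2 6
  22 11 [.n, .n, .g 64 29 0 0, .g 59 63 0 0])) (.L 11)))) (.T 1 1 (.C 1 2 2
  1 (.T 2 1 (.T 4 1 (.T 8 1 (.C 0 1 1 4 (.G 87 404 1 1 1 1 [.n, .g 1 0 2664
  0, .n, .n]) (.C 0 1 1 8 (.C 1 2 1 4 (.C 0 2 4 1 (.C 0 1 2 1 (.G 141 77 1
  21 82 165 [.n, .g 1 3 969 0, .g 1 0 564 0]) (.G 468 241 3 120892 60446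
  241784 [.g 1024 1 0 0, .g 1024 1 286 0, .n, .n, .g 8 5 0 0, .g 32 21 0
  0])) (.L 120)) (.L 13)) (.L 120))) (.L 7)) (.G 86 130 2 1 1 1 [.g 1 0 1387
  0, .n, .n, .n, .n])) (.T 1 2 (.L 58) (.L 12))) (.T 2 1 (.L 15) (.C 0 1 1 1
  (.L 12) (.G 92 42 0 1 1 1 [.g 4 3 0 0, .n, .n, .n])))) (.C 0 1 1 4 (.G 2
  83 3 323 646 161 [.n, .g 64 11 0 0, .g 32 13 0 0, .g 64 17 0 0]) (.T 1 2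
  (.C 1 2 2 1 (.L 4) (.L 48)) (.L 30))))) (.B 2 8 1 (.L 188) (.C 0 2 8 1 (.T
  1 1 (.T 2 1 (.T 4 1 (.T 8 1 (.C 1 2 4 1 (.C 1 2 8 1 (.T 16 1 (.L 6) (.T 1
  2 (.L 6) (.L 7))) (.C 0 2 32 1 (.C 0 1 64 1 (.T 16 1 (.L 1) (.T 1 2 (.L 1)
  (.L 7))) (.T 16 1 (.C 1 2 1 1 (.G 6 1 1 2342384 1171192 2342384 [.n, .g 32
  9 0 0, .n, .n, .n, .n]) (.L 1)) (.T 1 2 (.C 0 1 1 2 (.L 1) (.C 1 2 1 1 (.G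
  6 1 1 905749 226437 452875 [.n, .g 64 21 0 0, .n, .n, .n, .n]) (.L 1)))
  (.L 7)))) (.C 0 1 1 1 (.C 1 2 1 4 (.G 16 1 4 3188 6376 12753 [.n, .n, .n,
  .n, .g 7 33 0 0, .n]) (.G 1 77 1 89435 357739 44717 [.n, .g 41 256 141 0,
  .n, .n, .g 1024 1 0 0, .n])) (.T 16 1 (.T 32 1 (.O 4) (.C 0 2 1 4 (.C 0 1
  1 2 (.L 16) (.C 0 1 1 4 (.L 1) (.C 1 2 4 1 (.G 406 6 1 169 21 169 [.g 29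
  32 0 0, .g 4 1 7368 0, .g 1 0 2163 0, .n]) (.G 72 1 1 9 9 4 [.g 128 1 0 0,
  .g 176 1 4091 0, .n, .n, .n, .g 32 19 0 0])))) (.C 0 2 1 8 (.C 1 2 8 1 (.C
  0 1 1 4 (.G 295 423 1 6 12 24 [.g 1 0 21820 0, .g 3 1 8617 0, .n, .n, .n,
  .n]) (.L 121)) (.L 455)) (.L 19)))) (.T 1 2 (.T 2 1 (.C 0 1 1 2 (.C 0 2 1
  4 (.L 16) (.G 122 1 1 394 394 49 [.g 2 5 5051 0, .n, .n, .n, .n, .n])) (.C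
  0 2 1 8 (.C 1 2 8 1 (.L 116) (.L 62)) (.L 19))) (.L 21)) (.L 7)))))) (.C 1
  2 1 2 (.L 13) (.O 4))) (.L 7)) (.L 52)) (.L 5)) (.C 0 1 4 1 (.T 1 2 (.T 2
  1 (.L 4) (.C 1 2 2 1 (.L 4) (.L 14))) (.T 1 4 (.C 1 2 2 1 (.L 3) (.C 1 2 1
  2 (.L 3) (.L 8))) (.C 1 2 2 1 (.T 1 8 (.L 22) (.C 1 2 4 1 (.T 1 16 (.L
  158) (.C 1 2 8 1 (.L 46) (.L 80))) (.T 1 16 (.C 1 2 1 2 (.L 22) (.L 78))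
  (.O 4)))) (.L 8)))) (.T 1 2 (.C 1 2 4 1 (.L 2) (.G 4 49 2 6 22 11 [.n, .n,
  .g 32 15 0 0, .g 59 63 0 0])) (.L 11)))) (.T 1 1 (.C 1 2 2 1 (.T 2 1 (.T 4
  1 (.T 8 1 (.C 0 1 1 4 (.G 87 327 1 1 1 1 [.n, .g 2 0 5313 0, .n, .n]) (.C
  0 1 1 8 (.C 1 2 1 4 (.C 0 2 4 1 (.T 16 1 (.G 263 391 0 11242 22484 89937
  [.n, .n, .n, .g 32 0 9 0]) (.T 1 2 (.G 169 340 3 1 1 1 [.n, .n, .g 1 0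
  1025 0, .g 32 3 0 0]) (.L 7))) (.L 120)) (.L 13)) (.L 120))) (.L 7)) (.G
  44 130 2 1 1 1 [.n, .g 1 1 4374 0, .n, .n])) (.T 1 2 (.L 58) (.L 12))) (.T
  2 1 (.L 15) (.C 0 1 1 1 (.L 12) (.G 92 42 0 1 1 1 [.g 4 3 0 0, .n, .n,
  .n])))) (.C 0 1 1 4 (.G 2 27 3 292 584 146 [.n, .g 16 3 0 0, .g 32 17 0 0,
  .g 64 23 0 0]) (.T 1 2 (.C 1 2 2 1 (.L 4) (.L 48)) (.L 30))))))) (.B 0 2 1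
  (.C 0 2 8 1 (.T 1 1 (.T 2 1 (.T 4 1 (.T 8 1 (.C 1 2 4 1 (.C 1 2 8 1 (.L 6)
  (.C 0 2 32 1 (.C 0 1 64 1 (.L 1) (.C 0 1 1 2 (.L 1) (.C 1 2 1 1 (.G 1 6 1
  640901 160225 320450 [.n, .g 25 63 0 0, .n, .n, .n, .n]) (.L 1)))) (.C 0 1
  1 1 (.G 145 1 1 193097 386194 96549 [.n, .g 32 5 4 0, .g 256 54 65 0, .n])
  (.T 16 1 (.T 32 1 (.O 4) (.G 1 228 2 925405 462702 231351 [.n, .g 13 32 0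
  0, .n, .n, .n, .n])) (.T 1 2 (.T 2 1 (.G 1 59 1 884148 442074 221037 [.n,
  .g 25 63 0 0, .n, .n, .n, .n]) (.L 21)) (.L 7)))))) (.C 1 2 1 2 (.L 13)
  (.O 4))) (.L 7)) (.L 52)) (.L 5)) (.C 0 1 4 1 (.T 1 2 (.T 2 1 (.L 4) (.C 1
  2 2 1 (.L 2) (.L 14))) (.T 1 4 (.C 1 2 2 1 (.L 3) (.C 1 2 1 2 (.L 3) (.L
  8))) (.C 1 2 2 1 (.T 1 8 (.L 22) (.C 1 2 4 1 (.T 1 16 (.L 158) (.C 1 2 8 1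
  (.L 46) (.L 80))) (.T 1 16 (.C 1 2 1 2 (.L 22) (.L 78)) (.O 4)))) (.L
  8)))) (.T 1 2 (.C 1 2 4 1 (.L 2) (.G 4 49 2 6 23 11 [.n, .n, .g 16 7 0 0,
  .g 61 64 0 0])) (.L 11)))) (.T 1 1 (.C 1 2 2 1 (.T 2 1 (.T 4 1 (.T 8 1 (.C
  0 1 1 4 (.C 0 1 2 1 (.O 4) (.L 13)) (.C 0 1 1 8 (.C 1 2 1 4 (.C 0 2 4 1
  (.C 0 1 2 1 (.T 16 1 (.O 4) (.T 1 2 (.G 484 161 0 5 22 43 [.n, .g 64 55 0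
  0, .n, .n, .g 1 0 1809 0]) (.L 7))) (.C 0 1 1 2 (.C 0 2 2 1 (.T 16 1 (.L
  96) (.C 1 2 2 1 (.L 507) (.L 137))) (.L 17)) (.L 17))) (.L 17)) (.L 13))
  (.L 10))) (.L 7)) (.G 98 74 1 1 1 1 [.n, .n, .n, .n, .g 1 0 2063 0])) (.T
  1 2 (.L 58) (.L 12))) (.T 2 1 (.L 15) (.C 0 1 1 1 (.L 12) (.G 92 42 0 1 1
  1 [.g 4 3 0 0, .n, .n, .n])))) (.C 0 1 1 4 (.G 2 41 4 23 46 11 [.n, .g 64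
  11 0 0, .g 64 25 0 0, .g 64 17 0 0]) (.T 1 2 (.C 1 2 2 1 (.L 4) (.L 48))
  (.L 30))))) (.C 0 2 8 1 (.T 1 1 (.T 2 1 (.T 4 1 (.T 8 1 (.C 1 2 4 1 (.C 1
  2 8 1 (.L 6) (.C 0 2 32 1 (.C 0 1 64 1 (.L 1) (.C 0 1 1 2 (.L 1) (.C 1 2 1
  1 (.G 1 6 1 640901 160225 320450 [.n, .g 25 63 0 0, .n, .n, .n, .n]) (.L
  1)))) (.C 0 1 1 1 (.G 379 1 1 193097 386194 96549 [.n, .g 64 12 15 0, .g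
  64 13 16 0, .n, .n]) (.T 16 1 (.T 32 1 (.O 4) (.G 47 1 1 925405 462702
  231351 [.g 32 13 0 0, .n, .n, .n])) (.T 1 2 (.T 2 1 (.G 1 59 1 884148
  442074 221037 [.n, .g 25 63 0 0, .n, .n, .n, .n]) (.L 21)) (.L 7)))))) (.C
  1 2 1 2 (.L 13) (.O 4))) (.L 7)) (.L 52)) (.L 5)) (.C 0 1 4 1 (.T 1 2 (.T
  2 1 (.L 4) (.C 1 2 2 1 (.L 2) (.L 14))) (.T 1 4 (.C 1 2 2 1 (.L 3) (.C 1 2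
  1 2 (.L 3) (.L 8))) (.C 1 2 2 1 (.T 1 8 (.L 22) (.C 1 2 4 1 (.T 1 16 (.L
  158) (.C 1 2 8 1 (.L 46) (.L 80))) (.T 1 16 (.C 1 2 1 2 (.L 22) (.L 78))
  (.O 4)))) (.L 24)))) (.T 1 2 (.C 1 2 4 1 (.L 2) (.G 2 49 2 7 27 14 [.n,
  .n, .g 4 1 0 0, .g 16 7 0 0])) (.L 11)))) (.T 1 1 (.C 1 2 2 1 (.T 2 1 (.T
  4 1 (.T 8 1 (.C 0 1 1 4 (.G 264 354 0 1 1 1 [.n, .g 2 0 4795 0, .g 1 0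
  2709 0, .g 1 0 2536 0]) (.C 0 1 1 8 (.C 1 2 1 4 (.C 0 2 4 1 (.C 0 1 2 1
  (.G 123 77 1 11 42 85 [.g 2 0 1029 0, .n, .g 1 0 1056 0, .g 64 3 0 0]) (.G
  245 274 3 340 170 680 [.g 4 3 0 0, .n, .n, .n, .g 64 37 35 0])) (.L 120))
  (.L 13)) (.L 17))) (.L 7)) (.G 86 98 4 1 1 1 [.g 1 1 3372 0, .n, .n, .n,
  .n])) (.T 1 2 (.L 58) (.L 12))) (.T 2 1 (.L 15) (.C 0 1 1 1 (.L 12) (.G 92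
  42 0 1 1 1 [.g 4 3 0 0, .n, .n, .n])))) (.C 0 1 1 4 (.G 2 242 1 48 97 24
  [.n, .g 64 11 0 0, .g 16 7 0 0, .g 4 1 511 0]) (.T 1 2 (.C 1 2 2 1 (.L 4)
  (.L 48)) (.L 30))))))) (by decide +kernel)

theorem ES2_c4 : CoF ESTab ⟨⟨12100, 11510, 160000⟩, ⟨1694, 1576, 20000⟩,
  ⟨1635, 1635, 20000⟩, ⟨0, 1⟩, ⟨2, 1⟩, ⟨1, 0, 0⟩, ⟨0, 1, 0⟩, ⟨0, 1, 1⟩⟩ :=
CoF.ofG ESTab_B ESBt_E ESBt_U (.B 2 8 1 (.B 0 1 16 (.L 188) (.L 188)) (.B 0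
  1 8 (.B 0 2 1 (.C 0 2 8 1 (.T 1 1 (.T 2 1 (.T 4 1 (.T 8 1 (.C 1 2 4 1 (.C
  1 2 8 1 (.T 16 1 (.L 6) (.T 1 2 (.L 6) (.L 7))) (.C 0 2 32 1 (.C 0 1 64 1
  (.T 16 1 (.L 1) (.T 1 2 (.L 1) (.L 7))) (.T 16 1 (.C 1 2 1 1 (.G 6 1 1
  2380831 1190416 2380831 [.n, .g 32 9 0 0, .n, .n, .n, .n]) (.L 1)) (.T 1 2
  (.T 2 1 (.C 0 1 1 2 (.L 1) (.C 1 2 1 1 (.G 6 1 1 1278316 319579 639158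
  [.n, .g 32 9 0 0, .n, .n, .n, .n]) (.L 1))) (.L 21)) (.L 7)))) (.C 0 1 1 1
  (.C 1 2 1 4 (.G 1 16 4 3371 6741 13483 [.n, .n, .n, .n, .g 64 3 0 0, .n])
  (.G 16 77 1 89435 357739 44717 [.n, .g 20 128 65 0, .n, .n, .g 256 2 5 0,
  .n])) (.T 16 1 (.T 32 1 (.O 4) (.C 0 2 1 4 (.C 0 1 1 2 (.L 16) (.C 0 1 1 4
  (.L 1) (.C 1 2 4 1 (.G 406 36 1 189 24 189 [.g 11 16 0 0, .g 5 1 8513 0,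
  .g 2 0 4319 0, .n]) (.G 72 1 1 10 10 5 [.g 128 1 0 0, .g 176 1 4088 0, .n,
  .n, .n, .g 64 37 0 0])))) (.C 0 2 1 8 (.C 0 1 1 4 (.G 72 220 0 1 1 1 [.g 1
  0 321 0, .n, .n, .n, .n, .n]) (.G 452 201 1 167098 20887 167098 [.n, .n,
  .n, .n, .g 1 219 0 0])) (.L 19)))) (.T 1 2 (.T 2 1 (.C 0 1 1 2 (.C 0 2 1 4
  (.L 16) (.G 122 1 1 414 414 52 [.g 2 5 4968 0, .n, .n, .n, .n, .n])) (.C 0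
  2 1 8 (.C 1 2 8 1 (.L 116) (.L 62)) (.L 19))) (.L 21)) (.L 7)))))) (.C 1 2
  1 2 (.L 13) (.O 4))) (.L 7)) (.L 52)) (.L 5)) (.C 0 1 4 1 (.T 1 2 (.T 2 1
  (.L 4) (.C 1 2 2 1 (.L 2) (.L 14))) (.C 0 1 8 1 (.C 1 2 1 1 (.T 1 4 (.L 3)
  (.C 1 2 2 1 (.T 1 8 (.L 3) (.T 1 16 (.L 31) (.C 1 2 4 1 (.C 1 2 8 1 (.L
  46) (.L 80)) (.O 4)))) (.T 1 8 (.T 2 1 (.L 3) (.L 24)) (.O 4)))) (.L 8))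
  (.G 26 60 1 1 1 1 [.n, .n, .n, .g 5 33 0 0, .n]))) (.T 1 2 (.C 1 2 4 1 (.L
  2) (.G 2 49 2 7 27 14 [.n, .n, .g 64 17 0 0, .g 64 29 0 0])) (.L 11))))
  (.T 1 1 (.C 1 2 2 1 (.T 2 1 (.T 4 1 (.T 8 1 (.C 0 1 1 4 (.G 443 87 1 1 1 1
  [.g 1 21 58103 0, .n, .n, .n]) (.C 0 1 1 8 (.C 1 2 1 4 (.C 0 2 4 1 (.C 0 1
  2 1 (.G 165 113 0 5 19 38 [.g 2 0 4517 0, .g 17 10 16066 0, .n, .n]) (.G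
  496 392 3 905 453 1810 [.g 64 49 0 0, .g 64 7 0 0, .n, .g 32 9 0 0])) (.L
  120)) (.L 13)) (.L 120))) (.L 7)) (.G 86 98 4 1 1 1 [.g 1 1 3709 0, .n,
  .n, .n, .n])) (.T 1 2 (.L 58) (.L 12))) (.T 2 1 (.L 15) (.C 0 1 1 1 (.L
  12) (.G 92 42 0 1 1 1 [.g 4 3 0 0, .n, .n, .n])))) (.C 0 1 1 4 (.G 2 41 4
  23 46 11 [.n, .g 64 11 0 0, .g 64 25 0 0, .g 64 17 0 0]) (.T 1 2 (.C 1 2 2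
  1 (.L 4) (.L 48)) (.L 30))))) (.B 0 1 2 (.B 2 2 1 (.L 200) (.B 0 2 1 (.B 2
  1 2 (.L 89) (.B 2 1 4 (.L 143) (.B 0 4 1 (.C 0 2 8 1 (.T 1 1 (.T 2 1 (.T 4
  1 (.T 8 1 (.C 1 2 4 1 (.C 1 2 8 1 (.L 6) (.C 0 2 32 1 (.C 0 1 64 1 (.L 1)
  (.C 0 1 1 2 (.L 1) (.C 1 2 1 1 (.G 1 6 1 604702 151175 302351 [.n, .g 2 5
  0 0, .n, .n, .n, .n]) (.L 1)))) (.C 0 1 1 1 (.G 164 1 1 180346 360691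
  90173 [.g 64 11 15 0, .g 64 13 17 0, .n, .n, .n]) (.T 16 1 (.T 32 1 (.O 4)
  (.C 0 2 1 4 (.C 0 1 1 2 (.L 16) (.C 0 1 1 4 (.L 1) (.C 1 2 4 1 (.G 19 36 1
  1113679 139210 1113679 [.g 64 7 0 0, .n, .n, .n]) (.G 222 1 1 61 61 31 [.g
  32 23 0 0, .g 16 9 0 0, .n, .n, .n, .n])))) (.C 0 1 1 4 (.G 90 246 0 1 1 1
  [.g 1 0 20507 0, .n, .n, .n, .n, .n]) (.L 19)))) (.T 1 2 (.T 2 1 (.C 0 1 1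
  2 (.G 1 122 0 198 397 50 [.n, .g 17 6 16322 0, .n, .n, .n, .n]) (.C 0 2 1
  8 (.C 1 2 8 1 (.L 116) (.L 62)) (.L 19))) (.L 21)) (.L 7)))))) (.C 1 2 1 2
  (.L 13) (.O 4))) (.L 7)) (.L 52)) (.L 5)) (.C 0 1 4 1 (.T 1 2 (.T 2 1 (.L
  4) (.C 1 2 2 1 (.L 2) (.L 14))) (.C 0 1 8 1 (.C 1 2 1 1 (.T 1 4 (.L 3) (.C
  1 2 2 1 (.T 1 8 (.L 3) (.T 1 16 (.L 31) (.C 1 2 4 1 (.C 1 2 8 1 (.L 46)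
  (.L 78)) (.O 4)))) (.T 1 8 (.T 2 1 (.L 3) (.L 24)) (.O 4)))) (.L 8)) (.G
  60 65 1 1 1 1 [.n, .g 64 13 0 0, .n, .n]))) (.T 1 2 (.C 1 2 4 1 (.L 2) (.G
  2 49 2 7 27 14 [.n, .n, .g 4 1 0 0, .g 64 27 0 0])) (.L 11)))) (.T 1 1 (.C
  1 2 2 1 (.T 2 1 (.T 4 1 (.T 8 1 (.C 0 1 1 4 (.G 147 404 1 1 1 1 [.n, .g 1
  0 3285 0, .n, .n]) (.C 0 2 1 2 (.C 0 1 1 8 (.C 0 1 2 1 (.G 150 128 3 6 25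
  12 [.g 64 7 0 0, .n, .g 3 5 15128 0, .n]) (.C 0 2 1 2 (.G 217 290 3 318
  159 635 [.n, .g 64 41 0 0, .g 16 11 0 0, .n]) (.L 120))) (.L 120)) (.L
  120))) (.L 7)) (.G 126 98 4 1 1 1 [.n, .n, .g 1 2 5832 0, .n, .n])) (.T 1
  2 (.L 58) (.L 12))) (.T 2 1 (.L 15) (.C 0 1 1 1 (.L 12) (.G 92 42 0 1 1 1
  [.g 4 3 0 0, .n, .n, .n])))) (.C 0 1 1 4 (.G 2 109 3 31 61 15 [.n, .g 64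
  11 0 0, .g 32 15 0 0, .g 16 5 0 0]) (.T 1 2 (.C 1 2 2 1 (.L 4) (.L 48))
  (.L 30))))) (.L 143)))) (.L 89))) (.L 200))) (.L 188)))
  (by decide +kernel)

theorem ES2_c5 : CoF ESTab ⟨⟨2054, 1936, 40000⟩, ⟨5442, 5088, 80000⟩, ⟨5324,
  5206, 80000⟩, ⟨0, 1⟩, ⟨2, 1⟩, ⟨1, 0, 0⟩, ⟨0, 1, 0⟩, ⟨0, 1, 1⟩⟩ :=
CoF.ofG ESTab_B ESBt_E ESBt_U (.B 0 2 1 (.B 2 1 2 (.C 0 2 8 1 (.T 1 1 (.T 2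
  1 (.T 4 1 (.T 8 1 (.C 1 2 4 1 (.C 1 2 8 1 (.T 16 1 (.T 32 1 (.C 0 2 64 1
  (.C 0 2 128 1 (.C 0 1 4 1 (.C 1 2 32 1 (.L 37) (.C 0 1 512 1 (.C 1 2 1 4
  (.B 2 2 1 (.B 1 1 2 (.L 105) (.C 1 2 2 1 (.L 95) (.L 36))) (.L 105)) (.L
  36)) (.L 43))) (.L 43)) (.L 43)) (.G 198 180 1 506 16 253 [.n, .n, .n, .g
  1 2 55 0])) (.L 6)) (.L 6)) (.T 16 1 (.C 0 1 64 1 (.C 1 2 1 4 (.L 16) (.O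
  4)) (.G 16 47 0 2523059 1261529 630765 [.n, .g 23 63 0 0, .n, .n, .g 512
  15 1 0, .n])) (.T 1 2 (.T 2 1 (.C 0 1 64 1 (.C 1 2 1 4 (.L 1) (.O 4)) (.G
  1 59 1 1620675 810337 405169 [.n, .g 22 63 0 0, .n, .n, .n, .n])) (.L
  132)) (.L 7)))) (.C 1 2 1 2 (.L 13) (.O 4))) (.L 9)) (.L 18)) (.L 5)) (.C
  0 1 4 1 (.T 1 2 (.T 2 1 (.L 4) (.C 1 2 2 1 (.L 2) (.L 14))) (.C 0 1 8 1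
  (.C 1 2 1 1 (.T 1 4 (.L 3) (.C 1 2 2 1 (.T 1 8 (.L 3) (.T 1 16 (.L 31) (.C
  1 2 4 1 (.C 1 2 8 1 (.L 46) (.L 80)) (.O 4)))) (.T 1 8 (.T 2 1 (.L 3) (.L
  24)) (.O 4)))) (.L 8)) (.L 40))) (.T 1 2 (.T 2 1 (.L 2) (.L 26)) (.L
  11)))) (.T 1 1 (.C 1 2 2 1 (.C 0 1 1 4 (.T 2 1 (.C 0 1 2 1 (.G 106 114 1 1
  1 1 [.n, .n, .g 32 3 0 0, .n, .n]) (.T 4 1 (.C 0 1 1 2 (.L 93) (.G 416 7 0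
  419095 104774 52387 [.n, .g 33 64 0 0, .n, .n, .n, .g 22 65 24 0])) (.L
  44))) (.G 26 58 3 1 1 1 [.g 31 32 0 0, .n, .n, .g 64 53 0 0, .g 64 15 0
  0])) (.C 0 2 1 2 (.C 0 1 1 8 (.T 2 1 (.T 4 1 (.T 8 1 (.C 0 1 2 1 (.C 1 2 1
  2 (.G 402 214 1 8 31 62 [.g 32 7 0 0, .n, .g 64 63 0 0, .g 38 3 4045 0])
  (.L 13)) (.C 0 1 1 2 (.C 0 2 1 2 (.G 245 124 3 333 667 667 [.g 10 11 63 0,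
  .n, .n, .n, .g 3 2 259 0]) (.L 124)) (.L 20))) (.L 9)) (.L 51)) (.L 5))
  (.L 20)) (.L 20))) (.T 2 1 (.L 15) (.T 1 2 (.L 144) (.L 12)))) (.C 0 1 1 4
  (.G 2 103 3 32 63 16 [.n, .g 32 5 0 0, .g 64 25 0 0, .g 64 17 0 0]) (.T 1
  2 (.C 1 2 2 1 (.L 4) (.L 48)) (.L 30))))) (.C 0 2 8 1 (.T 1 1 (.T 2 1 (.T
  4 1 (.T 8 1 (.C 1 2 4 1 (.T 16 1 (.T 32 1 (.C 0 2 32 1 (.L 73) (.L 140))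
  (.C 0 2 32 1 (.L 1) (.C 0 2 1 2 (.L 1) (.C 0 2 1 4 (.L 1) (.L 96))))) (.C
  1 2 8 1 (.L 6) (.T 1 2 (.C 0 1 64 1 (.C 1 2 1 4 (.L 1) (.C 1 2 1 8 (.L 16)
  (.L 138))) (.C 0 2 1 4 (.G 203 1 1 3756147 1878074 7512295 [.g 256 1 0 0,
  .n, .n, .n, .g 2 13 0 0, .g 9 62 0 0]) (.C 0 1 1 4 (.G 1 278 3 564442
  1128884 70555 [.n, .g 172 512 121 0, .n, .n, .n, .n]) (.G 169 386 3 632 79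
  40 [.n, .n, .g 1 2 958 0, .g 32 19 0 0])))) (.L 226)))) (.C 1 2 1 2 (.L
  138) (.O 4))) (.L 9)) (.L 18)) (.L 5)) (.C 0 1 4 1 (.T 1 2 (.T 2 1 (.L 4)
  (.C 1 2 2 1 (.L 2) (.L 14))) (.C 0 1 8 1 (.C 1 2 1 1 (.T 1 4 (.L 3) (.C 1
  2 2 1 (.T 1 8 (.L 3) (.T 1 16 (.L 31) (.C 1 2 4 1 (.C 1 2 8 1 (.L 46) (.L
  78)) (.O 4)))) (.T 1 8 (.T 2 1 (.L 3) (.L 24)) (.O 4)))) (.L 8)) (.L 40)))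
  (.T 1 2 (.C 1 2 4 1 (.L 2) (.G 4 65 1 5 19 10 [.n, .n, .g 1 0 2404 0, .g 1
  1 4214 0])) (.L 11)))) (.T 1 1 (.C 1 2 2 1 (.C 0 1 1 4 (.T 2 1 (.C 0 1 2 1
  (.G 268 256 4 1 1 1 [.n, .n, .n, .n, .n, .g 64 0 43 0]) (.T 4 1 (.G 185
  506 0 111737 55868 27934 [.n, .n, .n, .g 22 65 0 0, .n, .g 34 63 29 0])
  (.L 44))) (.G 26 56 3 1 1 1 [.g 64 47 0 0, .n, .n, .g 16 13 0 0, .n])) (.C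
  0 2 1 2 (.C 0 1 1 8 (.T 2 1 (.T 4 1 (.T 8 1 (.C 0 1 2 1 (.C 1 2 1 2 (.G
  154 226 0 8 30 61 [.g 47 64 0 0, .n, .g 15 32 0 0, .g 21 6 4006 0]) (.L
  138)) (.G 276 204 3 117 58 58 [.g 32 23 0 0, .n, .n, .n])) (.L 9)) (.L
  33)) (.L 5)) (.L 10)) (.L 10))) (.T 2 1 (.L 15) (.T 1 2 (.L 34) (.L 12))))
  (.C 0 1 1 4 (.G 2 41 4 23 47 12 [.n, .g 32 5 0 0, .g 8 3 0 0, .g 64 17 0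
  0]) (.T 1 2 (.T 2 1 (.L 4) (.L 23)) (.L 30)))))) (.B 2 2 1 (.C 0 2 8 1 (.T
  1 1 (.T 2 1 (.T 4 1 (.T 8 1 (.C 1 2 4 1 (.C 1 2 8 1 (.T 16 1 (.T 32 1 (.C
  1 2 16 1 (.C 0 2 128 1 (.L 95) (.C 0 2 1 2 (.L 157) (.L 230))) (.L 36))
  (.L 6)) (.L 6)) (.C 0 1 64 1 (.T 16 1 (.C 1 2 1 4 (.L 16) (.O 4)) (.T 1 2
  (.T 2 1 (.C 1 2 1 4 (.L 16) (.O 4)) (.L 132)) (.L 7))) (.C 0 2 1 4 (.T 16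
  1 (.G 16 47 0 1682026 841013 3364052 [.n, .g 5 13 0 0, .n, .n, .n, .n])
  (.C 0 1 1 2 (.L 1) (.C 0 1 1 4 (.L 1) (.G 166 1 1 1678218 209777 839109
  [.n, .g 8 1 0 0, .g 2 1 0 0, .g 4 1 0 0, .n])))) (.C 0 1 1 4 (.T 16 1 (.C
  1 2 1 16 (.L 16) (.O 4)) (.G 1 117 3 1030834 2061667 128854 [.n, .g 10 61
  4 0, .n, .n, .n, .n])) (.T 16 1 (.C 0 1 1 8 (.C 0 2 1 16 (.L 16) (.L 96))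
  (.L 96)) (.C 1 2 1 2 (.G 85 75 0 8388607 1048576 2097152 [.n, .n, .g 1 112
  0 0, .g 1 117 0 0, .g 1 46 0 0, .g 1 48 0 0]) (.T 1 2 (.T 2 1 (.G 193 484
  4 1 1 1 [.g 16 7 0 0, .g 25 64 0 0, .g 1 14 110933 0, .g 1 125 128739 0,
  .n, .n]) (.L 420)) (.L 7)))))))) (.C 1 2 1 2 (.L 13) (.O 4))) (.L 9)) (.L
  18)) (.L 5)) (.C 0 1 4 1 (.T 1 2 (.T 2 1 (.L 4) (.C 1 2 2 1 (.L 2) (.L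
  14))) (.C 0 1 8 1 (.C 1 2 1 1 (.T 1 4 (.L 3) (.C 1 2 2 1 (.T 1 8 (.L 3)
  (.T 1 16 (.L 31) (.C 1 2 4 1 (.C 1 2 8 1 (.L 46) (.L 80)) (.O 4)))) (.T 1
  8 (.T 2 1 (.L 3) (.L 24)) (.O 4)))) (.L 8)) (.L 40))) (.T 1 2 (.C 1 2 4 1
  (.L 2) (.G 2 26 3 5 21 11 [.n, .n, .g 1 0 1433 0, .g 2 1 3864 0])) (.L
  11)))) (.T 1 1 (.C 1 2 2 1 (.T 2 1 (.T 4 1 (.T 8 1 (.C 0 1 1 4 (.C 0 1 2 1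
  (.O 4) (.L 13)) (.C 0 1 1 8 (.C 1 2 1 4 (.C 0 2 4 1 (.C 0 1 2 1 (.G 315
  113 0 6 25 51 [.g 1 0 3260 0, .g 7 8 15316 0, .g 32 1 0 0, .g 16 7 0 0])
  (.G 245 234 3 3759 1879 7517 [.g 53 64 43 0, .n, .n, .n, .g 8 5 61 0]))
  (.L 178)) (.L 13)) (.L 10))) (.L 9)) (.G 98 74 1 1 1 1 [.n, .n, .n, .n, .g
  1 0 1954 0])) (.T 1 2 (.L 56) (.L 12))) (.T 2 1 (.L 15) (.T 1 2 (.L 144)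
  (.L 12)))) (.C 0 1 1 4 (.G 2 242 1 49 98 24 [.n, .g 64 11 0 0, .g 64 27 0
  0, .g 64 19 0 0]) (.T 1 2 (.C 1 2 2 1 (.L 4) (.L 48)) (.L 30))))) (.C 0 2
  8 1 (.T 1 1 (.T 2 1 (.T 4 1 (.T 8 1 (.C 1 2 4 1 (.C 0 1 4 1 (.C 0 1 8 1
  (.C 1 2 2 1 (.T 16 1 (.T 32 1 (.C 1 2 4 1 (.B 0 1 2 (.L 157) (.B 0 1 4 (.L
  37) (.B 1 4 1 (.L 6) (.L 37)))) (.O 4)) (.L 1)) (.L 1)) (.T 16 1 (.O 4)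
  (.C 0 2 32 1 (.L 16) (.G 1 475 0 743252 743252 371626 [.n, .g 2 32 1 0,
  .n, .n, .n, .n])))) (.T 16 1 (.T 32 1 (.G 43 229 1 179900 89950 359800
  [.n, .n, .n, .n, .n, .n, .g 32 0 23 0, .g 16 0 11 0]) (.G 6 1 1 53194
  26597 106388 [.n, .g 21 26 32 0, .n, .n, .n, .n])) (.G 1 161 0 68219 34109
  136438 [.n, .g 14 65 7 0, .n, .n, .n, .n]))) (.C 0 2 4 1 (.T 16 1 (.T 32 1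
  (.L 37) (.L 1)) (.L 1)) (.C 1 2 8 1 (.C 0 1 1 16 (.T 16 1 (.T 32 1 (.L 36)
  (.G 6 1 1 629444 1258889 629444 [.n, .g 64 17 0 0, .n, .n, .n, .n])) (.G 1
  6 1 192351 384703 192351 [.n, .g 3 8 0 0, .n, .n, .n, .n])) (.L 124)) (.C
  0 1 1 1 (.T 16 1 (.C 0 2 1 2 (.L 16) (.G 1 47 0 638477 638477 159619 [.n,
  .g 8 31 0 0, .n, .n, .n, .g 256 1 0 0])) (.G 1 108 2 288 576 144 [.n, .g 3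
  1 950 0, .n, .n, .n, .n])) (.T 16 1 (.C 0 2 1 4 (.G 356 36 1 1043760
  521880 2087519 [.g 32 9 0 0, .n, .n, .g 64 0 1 0, .g 1024 55 35 0]) (.L
  96)) (.C 1 2 1 2 (.G 85 75 0 8388607 4194304 8388607 [.n, .n, .g 1 117 0
  0, .g 1 121 0 0, .g 2 55 0 0, .g 1 29 0 0]) (.T 1 2 (.T 2 1 (.G 193 347 1
  1 1 1 [.n, .g 16 11 0 0, .g 1 10 125579 0, .g 1 71 156736 0, .n, .n]) (.L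
  420)) (.L 7)))))))) (.C 1 2 1 2 (.L 13) (.O 4))) (.L 9)) (.L 18)) (.L 5))
  (.C 0 1 4 1 (.T 1 2 (.T 2 1 (.L 4) (.C 1 2 2 1 (.L 2) (.L 14))) (.C 0 1 8
  1 (.C 1 2 1 1 (.T 1 4 (.L 3) (.C 1 2 2 1 (.T 1 8 (.L 3) (.T 1 16 (.L 31)
  (.C 1 2 4 1 (.C 1 2 8 1 (.L 46) (.L 78)) (.O 4)))) (.T 1 8 (.T 2 1 (.L 3)
  (.L 24)) (.O 4)))) (.L 8)) (.L 40))) (.T 1 2 (.C 1 2 4 1 (.L 2) (.G 4 26 3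
  4 18 9 [.n, .n, .g 2 0 5183 0, .g 1 1 4525 0])) (.L 11)))) (.T 1 1 (.C 1 2
  2 1 (.T 2 1 (.T 4 1 (.T 8 1 (.C 0 1 1 4 (.C 0 1 2 1 (.O 4) (.L 13)) (.C 0
  2 1 2 (.C 0 1 1 8 (.C 0 1 2 1 (.G 336 117 3 8 32 16 [.n, .n, .g 32 11 0 0,
  .g 2 4 5143 0]) (.C 0 1 1 2 (.C 0 2 1 2 (.G 496 400 3 2177 4354 4354 [.g
  64 35 0 0, .n, .n, .g 32 7 0 0]) (.L 124)) (.L 20))) (.L 101)) (.L 101)))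
  (.L 9)) (.G 86 126 2 1 1 1 [.g 2 1 4102 0, .n, .n, .n, .n])) (.T 1 2 (.L
  56) (.L 12))) (.T 2 1 (.L 15) (.T 1 2 (.L 144) (.L 12)))) (.C 0 1 1 4 (.G
  2 83 3 331 662 165 [.n, .g 64 11 0 0, .g 8 3 0 0, .g 4 1 0 0]) (.T 1 2 (.C
  1 2 2 1 (.L 4) (.L 48)) (.L 30))))))) (by decide +kernel)

theorem ES2_c6 : CoF ESTab ⟨⟨5442, 5088, 80000⟩, ⟨1694, 1576, 20000⟩,
  ⟨12100, 11510, 160000⟩, ⟨0, 1⟩, ⟨2, 1⟩, ⟨1, 0, 0⟩, ⟨0, 1, 0⟩, ⟨0, 1, 1⟩⟩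
  :=
CoF.ofG ESTab_B ESBt_E ESBt_U (.B 0 1 4 (.C 0 2 8 1 (.T 1 1 (.T 2 1 (.T 4 1
  (.T 8 1 (.C 1 2 4 1 (.C 1 2 8 1 (.L 6) (.C 0 2 32 1 (.C 0 1 64 1 (.L 1)
  (.C 0 1 1 2 (.L 1) (.C 1 2 1 1 (.G 1 6 1 618276 154569 309138 [.n, .g 25
  63 0 0, .n, .n, .n, .n]) (.L 1)))) (.C 0 1 1 1 (.G 482 1 1 185112 370224
  92556 [.g 64 10 13 0, .g 64 13 17 0, .n, .n]) (.T 16 1 (.T 32 1 (.O 4) (.G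
  292 1 1 881156 440578 220289 [.g 8192 214 1 0, .n, .n, .n])) (.T 1 2 (.T 2
  1 (.G 1 59 1 844768 422384 211192 [.n, .g 25 64 0 0, .n, .n, .n, .n]) (.L
  21)) (.L 7)))))) (.C 1 2 1 2 (.L 13) (.O 4))) (.L 7)) (.L 52)) (.L 5)) (.C
  0 1 4 1 (.T 1 2 (.T 2 1 (.L 4) (.C 1 2 2 1 (.L 2) (.L 14))) (.C 0 1 8 1
  (.C 1 2 1 1 (.T 1 4 (.L 3) (.C 1 2 2 1 (.T 1 8 (.L 3) (.T 1 16 (.L 31) (.C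
  1 2 4 1 (.C 1 2 8 1 (.L 46) (.L 78)) (.O 4)))) (.T 1 8 (.T 2 1 (.L 3) (.L
  24)) (.O 4)))) (.L 8)) (.G 60 40 0 1 1 1 [.n, .g 64 23 0 0, .n, .n]))) (.T
  1 2 (.C 1 2 4 1 (.L 2) (.G 41 216 1 1 4 2 [.n, .n, .n, .n, .g 128 23 0
  0])) (.L 11)))) (.T 1 1 (.C 1 2 2 1 (.T 2 1 (.T 4 1 (.T 8 1 (.C 0 1 1 4
  (.C 0 1 2 1 (.O 4) (.L 13)) (.C 0 1 1 8 (.C 1 2 1 4 (.C 0 2 4 1 (.C 0 1 2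
  1 (.G 169 113 0 11 44 88 [.g 1 0 512 0, .n, .g 1 0 1045 0, .g 16 1 0 0])
  (.C 0 1 1 2 (.C 0 1 2 1 (.T 16 1 (.G 454 294 0 1 1 1 [.n, .g 64 15 0 0,
  .n, .n, .n, .n, .n, .n]) (.L 137)) (.L 17)) (.L 17))) (.L 17)) (.L 13))
  (.L 17))) (.L 7)) (.G 74 126 2 1 1 1 [.n, .g 1 1 3111 0, .n, .n])) (.T 1 2
  (.L 58) (.L 12))) (.T 2 1 (.L 15) (.C 0 1 1 1 (.L 12) (.G 92 42 0 1 1 1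
  [.g 4 3 0 0, .n, .n, .n])))) (.C 0 1 1 4 (.G 2 27 3 294 588 147 [.n, .g 16
  3 0 0, .g 64 33 0 0, .g 64 23 0 0]) (.T 1 2 (.C 1 2 2 1 (.L 4) (.L 48))
  (.L 30))))) (.C 0 2 8 1 (.B 0 1 8 (.T 1 1 (.T 2 1 (.T 4 1 (.T 8 1 (.C 1 2
  4 1 (.C 1 2 8 1 (.T 16 1 (.L 6) (.T 1 2 (.L 6) (.L 7))) (.C 0 2 32 1 (.C 0
  1 64 1 (.T 16 1 (.L 1) (.T 1 2 (.L 1) (.L 7))) (.T 16 1 (.C 1 2 1 1 (.G 6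
  1 1 2342779 1171389 2342779 [.n, .g 32 9 0 0, .n, .n, .n, .n]) (.L 1)) (.T
  1 2 (.C 0 1 1 2 (.L 1) (.C 1 2 1 1 (.G 6 1 1 906244 226561 453122 [.n, .g
  64 21 0 0, .n, .n, .n, .n]) (.L 1))) (.L 7)))) (.C 0 1 1 1 (.C 1 2 1 4 (.G
  16 1 4 3182 6363 12727 [.n, .n, .n, .n, .g 7 33 0 0, .n]) (.T 16 1 (.O 4)
  (.G 118 346 1 74998 299992 37499 [.g 8 0 3 0, .g 64 0 39 0, .n, .n]))) (.T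
  16 1 (.T 32 1 (.O 4) (.C 0 2 1 4 (.C 0 1 1 2 (.L 16) (.C 0 1 1 4 (.L 1)
  (.C 1 2 4 1 (.C 0 1 1 8 (.C 1 2 1 2 (.L 358) (.G 127 411 1 1 1 1 [.n, .g
  64 9 0 0, .n, .n, .n, .n])) (.L 121)) (.G 72 1 1 9 9 4 [.g 128 1 0 0, .g
  175 1 4094 0, .n, .n, .n, .g 32 19 0 0])))) (.C 0 2 1 8 (.C 0 1 1 4 (.G 72
  220 0 1 1 1 [.g 1 0 321 0, .n, .n, .n, .n, .n]) (.G 201 283 2 67161 8395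
  67161 [.n, .g 64 0 1 0, .n, .n])) (.L 19)))) (.T 1 2 (.T 2 1 (.C 0 2 1 4
  (.C 0 1 1 2 (.L 16) (.C 0 1 1 4 (.L 1) (.C 1 2 4 1 (.G 486 152 3 17 2 17
  [.n, .g 64 35 0 0, .n, .n]) (.G 62 1 1 901 901 450 [.g 64 51 0 0, .g 64 41
  0 0, .n, .n, .n, .n])))) (.C 0 2 1 8 (.C 0 1 1 4 (.G 1 225 0 137 274 274
  [.n, .g 7 8 16807 0, .n, .n, .n, .n]) (.G 314 19 0 923485 115436 923485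
  [.n, .n, .n, .g 9 67 0 0, .n])) (.L 19))) (.L 21)) (.L 7)))))) (.C 1 2 1 2
  (.L 13) (.O 4))) (.L 7)) (.L 52)) (.L 5)) (.C 0 1 4 1 (.T 1 2 (.T 2 1 (.L
  4) (.C 1 2 2 1 (.L 2) (.L 14))) (.C 0 1 8 1 (.C 1 2 1 1 (.T 1 4 (.L 3) (.C
  1 2 2 1 (.T 1 8 (.L 3) (.T 1 16 (.L 31) (.C 1 2 4 1 (.C 1 2 8 1 (.L 46)
  (.L 78)) (.O 4)))) (.T 1 8 (.C 1 2 1 2 (.L 22) (.L 8)) (.O 4)))) (.L 8))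
  (.G 60 219 0 1 1 1 [.n, .g 64 5 0 0, .n, .n]))) (.T 1 2 (.C 1 2 4 1 (.L 2)
  (.G 2 49 2 7 27 14 [.n, .n, .g 4 1 0 0, .g 64 27 0 0])) (.L 11)))) (.B 1 8
  1 (.L 188) (.B 2 2 1 (.T 1 1 (.T 2 1 (.T 4 1 (.T 8 1 (.C 1 2 4 1 (.C 1 2 8
  1 (.T 16 1 (.L 6) (.T 1 2 (.L 6) (.L 7))) (.C 0 2 32 1 (.C 0 1 64 1 (.T 16
  1 (.L 1) (.T 1 2 (.L 1) (.L 7))) (.T 16 1 (.C 1 2 1 1 (.G 6 1 1 2380869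
  1190435 2380869 [.n, .g 32 9 0 0, .n, .n, .n, .n]) (.L 1)) (.T 1 2 (.C 0 1
  1 2 (.L 1) (.C 1 2 1 1 (.G 6 1 1 925731 231433 462865 [.n, .g 16 5 0 0,
  .n, .n, .n, .n]) (.L 1))) (.L 7)))) (.C 0 1 1 1 (.C 1 2 1 4 (.G 1 16 4
  3370 6740 13481 [.n, .n, .n, .n, .g 32 1 0 0, .n]) (.G 1 77 1 89435 357739
  44717 [.n, .g 41 256 141 0, .n, .n, .g 1024 1 0 0, .n])) (.T 16 1 (.T 32 1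
  (.O 4) (.C 0 2 1 4 (.C 0 1 1 2 (.L 16) (.C 0 1 1 4 (.L 1) (.C 1 2 4 1 (.C
  0 1 1 8 (.C 1 2 1 2 (.L 358) (.G 422 127 1 1 1 1 [.n, .g 61 64 0 0, .n,
  .n, .n, .n])) (.L 121)) (.G 72 16 1 16 16 8 [.g 256 3 0 0, .g 256 1 0 0,
  .n, .n, .n, .g 13 16 0 0])))) (.C 0 2 1 8 (.C 0 1 1 4 (.G 90 220 0 1 1 1
  [.g 1 0 20455 0, .n, .n, .n, .n, .n]) (.G 201 121 3 243756 30469 243756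
  [.n, .g 256 1 0 0, .n, .n])) (.L 19)))) (.T 1 2 (.T 2 1 (.C 0 1 1 2 (.C 0
  2 1 4 (.L 16) (.G 122 1 1 414 414 52 [.g 2 5 4972 0, .n, .n, .n, .n, .n]))
  (.C 0 2 1 8 (.C 1 2 8 1 (.L 116) (.L 62)) (.L 19))) (.L 21)) (.L 7))))))
  (.C 1 2 1 2 (.L 13) (.O 4))) (.L 7)) (.L 52)) (.L 5)) (.C 0 1 4 1 (.T 1 2
  (.T 2 1 (.L 4) (.C 1 2 2 1 (.L 2) (.L 14))) (.C 0 1 8 1 (.C 1 2 1 1 (.T 1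
  4 (.L 3) (.C 1 2 2 1 (.T 1 8 (.L 3) (.T 1 16 (.L 31) (.C 1 2 4 1 (.C 1 2 8
  1 (.L 46) (.L 78)) (.O 4)))) (.T 1 8 (.T 2 1 (.L 3) (.L 24)) (.O 4)))) (.L
  8)) (.G 60 40 0 1 1 1 [.n, .g 32 11 0 0, .n, .n]))) (.T 1 2 (.C 1 2 4 1
  (.L 2) (.G 2 49 2 7 27 14 [.n, .n, .g 4 1 0 0, .g 64 27 0 0])) (.L 11))))
  (.B 2 1 2 (.B 1 2 1 (.L 200) (.B 2 2 1 (.B 1 1 2 (.L 89) (.B 2 4 1 (.B 1 1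
  4 (.L 89) (.B 1 1 8 (.B 2 1 2 (.B 1 2 1 (.L 89) (.B 2 2 1 (.B 1 1 2 (.L
  89) (.B 2 4 1 (.B 1 1 4 (.L 143) (.T 1 1 (.T 2 1 (.T 4 1 (.T 8 1 (.C 1 2 4
  1 (.C 1 2 8 1 (.L 6) (.C 0 2 32 1 (.C 0 1 64 1 (.L 1) (.C 0 1 1 2 (.L 1)
  (.C 1 2 1 1 (.G 1 6 1 605408 151352 302704 [.n, .g 2 5 0 0, .n, .n, .n,
  .n]) (.L 1)))) (.C 0 1 1 1 (.G 21 1 1 180591 361181 90295 [.n, .g 64 11 15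
  0, .g 64 13 17 0, .n]) (.T 16 1 (.T 32 1 (.O 4) (.C 0 2 1 4 (.C 0 1 1 2
  (.L 16) (.C 0 1 1 4 (.L 1) (.C 1 2 4 1 (.G 121 36 1 1113679 139210 1113679
  [.n, .n, .g 32 3 0 0, .n, .n]) (.G 222 1 1 62 62 31 [.g 64 47 0 0, .g 16 9
  0 0, .n, .n, .n, .n])))) (.C 0 1 1 4 (.G 90 247 0 1 1 1 [.g 1 0 20377 0,
  .n, .n, .n, .n, .n]) (.L 19)))) (.T 1 2 (.T 2 1 (.C 0 1 1 2 (.G 1 182 0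
  199 398 50 [.n, .g 17 6 16339 0, .n, .n, .n, .n]) (.C 0 2 1 8 (.C 1 2 8 1
  (.L 116) (.L 62)) (.L 19))) (.L 21)) (.L 7)))))) (.C 1 2 1 2 (.L 13) (.O
  4))) (.L 7)) (.L 52)) (.L 5)) (.C 0 1 4 1 (.T 1 2 (.T 2 1 (.L 4) (.C 1 2 2
  1 (.L 2) (.L 14))) (.C 0 1 8 1 (.C 1 2 1 1 (.T 1 4 (.L 3) (.C 1 2 2 1 (.T
  1 8 (.L 3) (.T 1 16 (.L 31) (.C 1 2 4 1 (.C 1 2 8 1 (.L 46) (.L 78)) (.O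
  4)))) (.T 1 8 (.T 2 1 (.L 3) (.L 24)) (.O 4)))) (.L 8)) (.G 60 26 3 1 1 1
  [.n, .g 64 9 0 0, .n, .n]))) (.T 1 2 (.C 1 2 4 1 (.L 2) (.G 4 49 2 6 23 11
  [.n, .n, .g 64 27 0 0, .g 15 16 0 0])) (.L 11))))) (.L 143))) (.L 89)))
  (.L 89)) (.T 1 1 (.T 2 1 (.T 4 1 (.T 8 1 (.C 1 2 4 1 (.C 1 2 8 1 (.L 6)
  (.C 0 2 32 1 (.C 0 1 64 1 (.L 1) (.C 0 1 1 2 (.L 1) (.C 1 2 1 1 (.G 1 6 1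
  605501 151375 302751 [.n, .g 2 5 0 0, .n, .n, .n, .n]) (.L 1)))) (.C 0 1 1
  1 (.G 164 1 1 180624 361247 90312 [.g 64 11 15 0, .g 64 13 17 0, .n, .n,
  .n]) (.T 16 1 (.T 32 1 (.O 4) (.C 0 2 1 4 (.C 0 1 1 2 (.L 16) (.C 0 1 1 4
  (.L 1) (.C 1 2 4 1 (.G 121 36 1 1113679 139210 1113679 [.n, .n, .g 32 3 0
  0, .n, .n]) (.G 440 1 1 62 62 31 [.g 32 23 0 0, .g 64 37 0 0, .n, .n, .n,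
  .n])))) (.C 0 1 1 4 (.G 90 247 0 1 1 1 [.g 1 0 20368 0, .n, .n, .n, .n,
  .n]) (.L 19)))) (.T 1 2 (.T 2 1 (.C 0 1 1 2 (.G 1 182 0 199 398 50 [.n, .g
  17 6 16326 0, .n, .n, .n, .n]) (.C 0 2 1 8 (.C 1 2 8 1 (.L 116) (.L 62))
  (.L 19))) (.L 21)) (.L 7)))))) (.C 1 2 1 2 (.L 13) (.O 4))) (.L 7)) (.L
  52)) (.L 5)) (.C 0 1 4 1 (.T 1 2 (.T 2 1 (.L 4) (.C 1 2 2 1 (.L 2) (.L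
  14))) (.C 0 1 8 1 (.C 1 2 1 1 (.T 1 4 (.L 3) (.C 1 2 2 1 (.T 1 8 (.L 3)
  (.T 1 16 (.L 31) (.C 1 2 4 1 (.C 1 2 8 1 (.L 46) (.L 78)) (.O 4)))) (.T 1
  8 (.C 1 2 1 2 (.L 22) (.L 8)) (.O 4)))) (.L 8)) (.G 60 65 1 1 1 1 [.n, .g
  64 13 0 0, .n, .n]))) (.T 1 2 (.C 1 2 4 1 (.L 2) (.G 2 49 2 7 27 14 [.n,
  .n, .g 4 1 0 0, .g 32 13 0 0])) (.L 11)))))) (.L 89))) (.L 89))) (.L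
  200))))) (.T 1 1 (.C 1 2 2 1 (.T 2 1 (.T 4 1 (.T 8 1 (.C 0 1 1 4 (.G 491
  147 1 1 1 1 [.g 1 0 3231 0, .n, .n, .g 35 64 0 0]) (.C 0 1 1 8 (.C 1 2 1 4
  (.C 0 2 4 1 (.T 16 1 (.G 363 452 2 22527 45055 180220 [.n, .n, .n, .n, .g
  64 61 56 0]) (.T 1 2 (.C 0 1 2 1 (.C 1 2 2 1 (.G 427 141 2 1 1 1 [.n, .n,
  .n, .g 1 3 2014 0]) (.L 304)) (.G 392 123 3 1 1 1 [.n, .n, .n, .g 31 63 0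
  0])) (.L 7))) (.L 120)) (.L 13)) (.L 120))) (.L 7)) (.G 74 98 4 1 1 1 [.n,
  .g 1 2 5701 0, .n, .n])) (.C 0 2 1 1 (.L 5) (.T 1 2 (.L 34) (.L 12)))) (.T
  2 1 (.L 15) (.C 0 1 1 1 (.L 12) (.G 11 42 0 1 1 1 [.n, .n, .n, .g 1 0 1205
  0, .g 1 5 0 0])))) (.C 0 1 1 4 (.G 2 41 4 23 46 11 [.n, .g 64 11 0 0, .g
  64 25 0 0, .g 64 17 0 0]) (.T 1 2 (.C 1 2 2 1 (.L 4) (.L 48)) (.L 30))))))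
  (by decide +kernel)

theorem ES2_c7 : CoF ESTab ⟨⟨5442, 5088, 80000⟩, ⟨12100, 11510, 160000⟩,
  ⟨5324, 5206, 80000⟩, ⟨0, 1⟩, ⟨2, 1⟩, ⟨1, 0, 0⟩, ⟨0, 1, 0⟩, ⟨0, 1, 1⟩⟩ :=
CoF.ofG ESTab_B ESBt_E ESBt_U (.B 1 1 2 (.C 0 2 8 1 (.T 1 1 (.T 2 1 (.T 4 1
  (.T 8 1 (.C 1 2 4 1 (.C 1 2 8 1 (.L 6) (.C 0 2 32 1 (.C 0 1 64 1 (.L 1)
  (.C 0 1 1 2 (.L 1) (.C 1 2 1 1 (.G 1 6 1 640901 160225 320450 [.n, .g 25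
  63 0 0, .n, .n, .n, .n]) (.L 1)))) (.C 0 1 1 1 (.G 164 1 1 193097 386194
  96549 [.g 64 11 14 0, .g 64 13 16 0, .n, .n, .n]) (.T 16 1 (.T 32 1 (.O 4)
  (.G 472 1 1 925405 462702 231351 [.g 256 1 8 0, .n, .n, .g 32 13 0 0]))
  (.T 1 2 (.T 2 1 (.G 1 59 1 884148 442074 221037 [.n, .g 25 64 0 0, .n, .n,
  .n, .n]) (.L 21)) (.L 7)))))) (.C 1 2 1 2 (.L 13) (.O 4))) (.L 7)) (.L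
  52)) (.L 5)) (.C 0 1 4 1 (.T 1 2 (.T 2 1 (.L 4) (.C 1 2 2 1 (.L 2) (.L
  14))) (.C 0 1 8 1 (.C 1 2 1 1 (.T 1 4 (.L 3) (.C 1 2 2 1 (.T 1 8 (.L 3)
  (.T 1 16 (.L 31) (.C 1 2 4 1 (.C 1 2 8 1 (.L 46) (.L 78)) (.O 4)))) (.T 1
  8 (.T 2 1 (.L 3) (.L 24)) (.O 4)))) (.L 8)) (.G 60 299 1 1 1 1 [.n, .g 32
  17 0 0, .n, .n]))) (.T 1 2 (.C 1 2 4 1 (.L 2) (.G 41 216 1 1 4 2 [.n, .n,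
  .n, .n, .g 128 23 0 0])) (.L 11)))) (.T 1 1 (.C 1 2 2 1 (.T 2 1 (.T 4 1
  (.T 8 1 (.C 0 1 1 4 (.C 0 1 2 1 (.O 4) (.L 13)) (.C 0 1 1 8 (.C 1 2 1 4
  (.C 0 2 4 1 (.C 0 1 2 1 (.G 195 128 3 667469 2669877 5339753 [.g 64 29 0
  0, .g 64 0 1 0, .n, .n, .g 3 122 2 0, .g 24 1015 18 0]) (.C 0 1 1 2 (.C 0
  1 2 1 (.T 16 1 (.G 454 294 0 1 1 1 [.n, .g 64 15 0 0, .n, .n, .n, .n, .n,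
  .n]) (.L 137)) (.L 17)) (.L 17))) (.L 17)) (.L 13)) (.L 17))) (.L 7)) (.G
  98 86 0 1 1 1 [.n, .n, .n, .n, .g 1 9 14473 0])) (.T 1 2 (.L 58) (.L 12)))
  (.T 2 1 (.L 15) (.C 0 1 1 1 (.L 12) (.G 92 42 0 1 1 1 [.g 4 3 0 0, .n, .n,
  .n])))) (.C 0 1 1 4 (.G 2 83 3 327 654 164 [.n, .g 64 11 0 0, .g 64 25 0
  0, .g 64 17 0 0]) (.T 1 2 (.C 1 2 2 1 (.L 4) (.L 48)) (.L 30))))) (.C 0 2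
  8 1 (.T 1 1 (.T 2 1 (.T 4 1 (.T 8 1 (.C 1 2 4 1 (.C 1 2 8 1 (.L 6) (.C 0 1
  64 1 (.C 0 2 32 1 (.L 1) (.G 1 91 0 354567 709134 177283 [.n, .g 20 64 7
  0, .n, .n, .n, .n])) (.C 0 2 1 4 (.C 0 1 1 2 (.L 1) (.C 0 1 1 4 (.L 1) (.C
  1 2 4 1 (.G 75 1 1 504434 63054 504434 [.g 64 28 3 0, .g 64 17 10 0, .n,
  .n, .g 64 7 0 0]) (.L 1)))) (.C 0 1 1 4 (.C 0 2 1 8 (.L 1) (.G 459 1 1 309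
  309 19 [.n, .g 7 6 16360 0, .n])) (.T 16 1 (.C 0 1 1 8 (.C 0 2 1 16 (.G 1
  326 4 597673 1195345 1195345 [.n, .g 64 41 10 0, .n, .n, .n, .n]) (.L 47))
  (.L 47)) (.C 1 2 1 2 (.C 0 1 1 8 (.C 0 2 1 4 (.G 1 390 2 414874 829749
  829749 [.n, .g 32 15 0 0, .n, .n, .n, .n]) (.L 62)) (.L 217)) (.C 0 1 1 4
  (.G 262 187 1 1 1 1 [.n, .n, .n, .n, .n, .g 2 16 4665 0]) (.G 141 134 3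
  160 20 5 [.n, .g 23 32 0 0, .g 1 0 364 0])))))))) (.C 1 2 1 2 (.L 13) (.O
  4))) (.L 9)) (.L 18)) (.L 5)) (.C 0 1 4 1 (.T 1 2 (.T 2 1 (.L 4) (.C 1 2 2
  1 (.L 2) (.L 14))) (.T 1 4 (.C 1 2 2 1 (.L 3) (.C 1 2 1 2 (.L 3) (.L 8)))
  (.C 1 2 2 1 (.T 1 8 (.L 22) (.C 1 2 4 1 (.T 1 16 (.L 158) (.C 1 2 8 1 (.L
  46) (.L 331))) (.T 1 16 (.C 1 2 1 2 (.L 22) (.L 78)) (.O 4)))) (.L 24))))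
  (.T 1 2 (.T 2 1 (.L 2) (.L 26)) (.L 11)))) (.T 1 1 (.C 1 2 2 1 (.T 2 1 (.T
  4 1 (.T 8 1 (.C 0 1 1 4 (.C 0 1 2 1 (.O 4) (.L 13)) (.C 0 1 1 8 (.C 1 2 1
  4 (.C 0 2 4 1 (.C 0 1 2 1 (.G 490 113 0 8 31 62 [.n, .g 27 51 129649 0,
  .n, .g 64 63 0 0, .g 64 37 0 0]) (.G 152 17 3 274 137 548 [.n, .g 8 5 0 0,
  .g 5 2 242 0, .n, .n])) (.L 17)) (.L 13)) (.L 10))) (.L 9)) (.G 86 224 2 1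
  1 1 [.g 2 2 4547 0, .n, .n, .n, .n])) (.T 1 2 (.L 56) (.L 12))) (.T 2 1
  (.L 15) (.T 1 2 (.L 144) (.L 12)))) (.C 0 1 1 4 (.G 2 27 3 293 587 147
  [.n, .g 16 3 0 0, .g 64 33 0 0, .g 64 23 0 0]) (.T 1 2 (.C 1 2 2 1 (.L 4)
  (.L 48)) (.L 30)))))) (by decide +kernel)

end Pool.Agent.TET.Cvr
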