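import Pool.Agent.Helper37_TET.ES2_000

/-!
# MP_c7c9bf_co: cover of the charts, root 2, assembly 0
-/

set_option autoImplicit false
set_option maxRecDepth 100000

namespace Pool.Agent.TET.Cvr

theorem ES2_t0 : CoF ESTab ⟨⟨1995, 1995, 40000⟩, ⟨2054, 1936, 40000⟩, ⟨1635,
  1635, 20000⟩, ⟨0, 1⟩, ⟨2, 1⟩, ⟨1, 0, 0⟩, ⟨0, 1, 0⟩, ⟨0, 1, 1⟩⟩ :=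
  CoF.b 1 1 2 rfl rfl rfl ES2_c0 ES2_c1

theorem ES2_t1 : CoF ESTab ⟨⟨360, 360, 20000⟩, ⟨2054, 1936, 40000⟩, ⟨1635,
  1635, 20000⟩, ⟨0, 1⟩, ⟨2, 1⟩, ⟨1, 0, 0⟩, ⟨0, 1, 0⟩, ⟨0, 1, 1⟩⟩ :=
  CoF.b 2 1 1 rfl rfl rfl ES2_t0 ES2_c2

theorem ES2_t2 : CoF ESTab ⟨⟨5324, 5206, 80000⟩, ⟨1694, 1576, 20000⟩, ⟨1635,
  1635, 20000⟩, ⟨0, 1⟩, ⟨2, 1⟩, ⟨1, 0, 0⟩, ⟨0, 1, 0⟩, ⟨0, 1, 1⟩⟩ :=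
  CoF.b 0 1 4 rfl rfl rfl ES2_c3 ES2_c4

theorem ES2_t3 : CoF ESTab ⟨⟨5442, 5088, 80000⟩, ⟨1694, 1576, 20000⟩, ⟨5324,
  5206, 80000⟩, ⟨0, 1⟩, ⟨2, 1⟩, ⟨1, 0, 0⟩, ⟨0, 1, 0⟩, ⟨0, 1, 1⟩⟩ :=
  CoF.b 1 4 1 rfl rfl rfl ES2_c6 ES2_c7

theorem ES2_t4 : CoF ESTab ⟨⟨2054, 1936, 40000⟩, ⟨1694, 1576, 20000⟩, ⟨5324,
  5206, 80000⟩, ⟨0, 1⟩, ⟨2, 1⟩, ⟨1, 0, 0⟩, ⟨0, 1, 0⟩, ⟨0, 1, 1⟩⟩ :=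
  CoF.b 0 1 2 rfl rfl rfl ES2_c5 ES2_t3

theorem ES2_t5 : CoF ESTab ⟨⟨2054, 1936, 40000⟩, ⟨1694, 1576, 20000⟩, ⟨1635,
  1635, 20000⟩, ⟨0, 1⟩, ⟨2, 1⟩, ⟨1, 0, 0⟩, ⟨0, 1, 0⟩, ⟨0, 1, 1⟩⟩ :=
  CoF.b 2 2 1 rfl rfl rfl ES2_t2 ES2_t4

theorem ES2_t6 : CoF ESTab ⟨⟨360, 360, 20000⟩, ⟨1694, 1576, 20000⟩, ⟨1635,
  1635, 20000⟩, ⟨0, 1⟩, ⟨2, 1⟩, ⟨1, 0, 0⟩, ⟨0, 1, 0⟩, ⟨0, 1, 1⟩⟩ :=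
  CoF.b 0 1 1 rfl rfl rfl ES2_t1 ES2_t5

end Pool.Agent.TET.Cvr
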