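import Pool.Agent.Helper37_TET.ESBt

/-!
# MP_c7c9bf_co: cover of the charts, root 3 part 0
-/

set_option autoImplicit false
set_option maxRecDepth 100000

namespace Pool.Agent.TET.Cvr

theorem ES3_c0 : CoF ESTab ⟨⟨1995, 1995, 40000⟩, ⟨1936, 2054, 40000⟩, ⟨5206,
  5324, 80000⟩, ⟨0, 1⟩, ⟨2, 1⟩, ⟨1, 0, 0⟩, ⟨0, 1, 0⟩, ⟨0, 1, 1⟩⟩ :=
CoF.ofG ESTab_B ESBt_E ESBt_U (.B 1 2 1 (.B 2 1 4 (.C 0 2 8 1 (.T 1 1 (.T 2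
  1 (.T 4 1 (.T 8 1 (.C 1 2 4 1 (.T 16 1 (.T 32 1 (.C 0 2 32 1 (.L 73) (.L
  140)) (.C 0 2 32 1 (.L 1) (.C 0 2 1 2 (.L 1) (.C 0 2 1 4 (.L 1) (.L
  96))))) (.T 1 2 (.C 1 2 8 1 (.L 6) (.B 1 4 1 (.L 32) (.T 2 1 (.T 4 1 (.L
  179) (.B 1 1 2 (.L 32) (.B 2 2 1 (.B 1 1 4 (.L 32) (.B 2 4 1 (.T 1 2 (.B 1
  1 8 (.L 32) (.T 2 1 (.L 179) (.C 0 1 64 1 (.C 1 2 1 4 (.L 1) (.O 4)) (.G 1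
  59 1 1904953 952477 476238 [.n, .g 9 32 0 0, .n, .n, .n, .n])))) (.L 302))
  (.L 32))) (.L 32)))) (.L 175)))) (.L 81))) (.C 1 2 1 2 (.L 500) (.O 4)))
  (.L 9)) (.L 18)) (.L 5)) (.C 0 1 4 1 (.T 1 2 (.T 2 1 (.L 4) (.C 1 2 2 1
  (.L 2) (.L 14))) (.C 0 1 8 1 (.C 1 2 1 1 (.T 1 4 (.L 3) (.C 1 2 2 1 (.T 1
  8 (.L 3) (.C 1 2 4 1 (.T 1 16 (.L 53) (.C 1 2 8 1 (.L 57) (.L 38))) (.T 1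
  16 (.L 66) (.O 4)))) (.T 1 8 (.T 2 1 (.L 22) (.L 24)) (.O 4)))) (.L 8))
  (.L 60))) (.T 1 2 (.C 1 2 4 1 (.L 2) (.G 4 65 1 5 19 10 [.n, .n, .g 1 0
  2506 0, .g 1 1 4087 0])) (.L 11)))) (.T 1 1 (.C 1 2 2 1 (.C 0 1 1 4 (.T 2
  1 (.C 0 1 2 1 (.G 50 106 2 1 1 1 [.n, .n, .g 1 2 0 0, .n, .n]) (.T 4 1 (.C
  0 1 1 2 (.L 93) (.G 656 81 0 63150 15787 7894 [.n, .g 5 8 0 0, .n, .g 39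
  64 33 0, .n, .n])) (.L 44))) (.G 26 56 3 1 1 1 [.g 64 47 0 0, .n, .n, .g
  16 13 0 0, .n])) (.C 0 2 1 2 (.C 0 1 1 8 (.T 2 1 (.T 4 1 (.C 0 1 2 1 (.T 8
  1 (.G 398 81 0 4617 18469 9235 [.g 64 59 0 0, .g 64 0 37 0, .n, .n, .n,
  .n]) (.L 9)) (.L 156)) (.L 33)) (.L 5)) (.L 10)) (.L 10))) (.T 2 1 (.L 15)
  (.T 1 2 (.L 34) (.L 12)))) (.C 0 1 1 4 (.G 2 27 3 293 586 146 [.n, .g 16 3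
  0 0, .g 2 1 0 0, .g 32 11 0 0]) (.T 1 2 (.T 2 1 (.L 4) (.L 23)) (.L
  29))))) (.C 0 2 8 1 (.T 1 1 (.T 2 1 (.T 4 1 (.T 8 1 (.T 16 1 (.C 1 2 4 1
  (.T 32 1 (.L 71) (.C 0 2 32 1 (.L 1) (.C 0 2 1 2 (.L 1) (.C 0 2 1 4 (.L 1)
  (.L 96))))) (.O 4)) (.L 32)) (.L 9)) (.L 18)) (.L 5)) (.C 0 1 4 1 (.T 1 2
  (.T 2 1 (.L 4) (.C 1 2 2 1 (.L 2) (.L 14))) (.C 0 1 8 1 (.C 1 2 1 1 (.T 1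
  4 (.L 3) (.C 1 2 2 1 (.T 1 8 (.L 3) (.C 1 2 4 1 (.T 1 16 (.L 53) (.C 1 2 8
  1 (.L 57) (.L 38))) (.T 1 16 (.L 66) (.O 4)))) (.T 1 8 (.T 2 1 (.L 22) (.L
  24)) (.O 4)))) (.L 8)) (.L 60))) (.T 1 2 (.C 1 2 4 1 (.L 2) (.G 4 61 2 5
  19 10 [.n, .n, .g 2 0 4969 0, .g 1 1 4055 0])) (.L 11)))) (.T 1 1 (.C 1 2
  2 1 (.C 0 1 1 4 (.T 2 1 (.T 4 1 (.G 131 250 0 7 13 7 [.n, .g 3 22 18746 0,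
  .n]) (.L 50)) (.G 26 35 2 1 1 1 [.g 43 63 0 0, .n, .n, .g 5 8 0 0, .n]))
  (.C 0 2 1 2 (.C 0 1 1 8 (.C 0 1 2 1 (.T 2 1 (.T 4 1 (.G 81 174 0 5041
  20165 10083 [.g 33 64 37 0, .n, .n, .n]) (.L 33)) (.L 5)) (.G 111 20 0 62
  31 31 [.n, .n, .n, .g 32 65 0 0])) (.L 10)) (.L 10))) (.T 2 1 (.L 15) (.T
  1 2 (.L 34) (.L 12)))) (.C 0 1 1 4 (.G 2 109 3 31 62 16 [.n, .g 32 5 0 0,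
  .g 16 7 0 0, .g 64 19 0 0]) (.T 1 2 (.T 2 1 (.L 4) (.L 23)) (.L 29))))))
  (.B 2 1 2 (.C 0 2 8 1 (.T 1 1 (.T 2 1 (.T 4 1 (.T 8 1 (.C 1 2 4 1 (.C 1 2
  8 1 (.T 16 1 (.T 32 1 (.C 0 2 64 1 (.C 0 2 128 1 (.C 0 1 4 1 (.C 1 2 32 1
  (.L 37) (.C 0 1 512 1 (.C 1 2 1 4 (.B 1 1 2 (.L 105) (.B 2 2 1 (.C 1 2 2 1
  (.L 95) (.L 36)) (.L 105))) (.L 36)) (.L 43))) (.L 43)) (.L 43)) (.G 234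
  430 1 497 16 248 [.n, .n, .n, .g 1 2 69 0])) (.L 6)) (.L 6)) (.T 16 1 (.C
  0 1 64 1 (.C 1 2 1 4 (.L 16) (.O 4)) (.G 1 47 0 2679515 1339757 669879
  [.n, .g 22 63 0 0, .n, .n, .n, .g 32768 0 1 0])) (.T 1 2 (.T 2 1 (.C 0 1
  64 1 (.C 1 2 1 4 (.L 1) (.O 4)) (.G 1 59 1 1620312 810156 405078 [.n, .g
  22 63 0 0, .n, .n, .n, .n])) (.L 132)) (.L 7)))) (.C 1 2 1 2 (.L 13) (.O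
  4))) (.L 9)) (.L 18)) (.L 5)) (.C 0 1 4 1 (.T 1 2 (.T 2 1 (.L 4) (.C 1 2 2
  1 (.L 2) (.L 14))) (.C 0 1 8 1 (.C 1 2 1 1 (.T 1 4 (.L 3) (.C 1 2 2 1 (.T
  1 8 (.L 3) (.C 1 2 4 1 (.T 1 16 (.L 53) (.C 1 2 8 1 (.L 57) (.L 38))) (.T
  1 16 (.L 218) (.O 4)))) (.T 1 8 (.T 2 1 (.L 3) (.L 24)) (.O 4)))) (.L 8))
  (.L 40))) (.T 1 2 (.C 1 2 4 1 (.L 2) (.G 2 65 1 6 23 12 [.n, .n, .g 1 0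
  1407 0, .g 2 1 3699 0])) (.L 11)))) (.T 1 1 (.C 1 2 2 1 (.C 0 1 1 4 (.T 2
  1 (.C 0 1 2 1 (.G 237 106 2 1 1 1 [.n, .g 1024 1 0 0, .n, .g 1024 1 0 0,
  .n, .n]) (.T 4 1 (.G 237 7 0 263974 131987 65993 [.n, .g 17 63 18 0, .n,
  .g 21 65 0 0, .n, .n]) (.L 44))) (.G 26 56 3 1 1 1 [.g 64 47 0 0, .n, .n,
  .g 16 13 0 0, .g 64 11 0 0])) (.C 0 2 1 2 (.C 0 1 1 8 (.T 2 1 (.T 4 1 (.T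
  8 1 (.C 0 1 2 1 (.G 154 113 0 18 71 36 [.g 32 7 0 0, .n, .g 29 32 0 0, .g
  5 1 1042 0]) (.G 234 163 3 39 19 19 [.g 7 8 0 0, .n, .n, .n])) (.L 9)) (.L
  33)) (.L 5)) (.L 20)) (.L 20))) (.T 2 1 (.L 15) (.T 1 2 (.L 34) (.L 12))))
  (.C 0 1 1 4 (.G 2 27 3 293 585 146 [.n, .g 16 3 0 0, .g 64 33 0 0, .g 64
  23 0 0]) (.T 1 2 (.C 1 2 2 1 (.L 4) (.L 48)) (.L 29))))) (.C 0 2 8 1 (.T 1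
  1 (.T 2 1 (.T 4 1 (.T 8 1 (.C 1 2 4 1 (.T 16 1 (.T 32 1 (.C 0 2 32 1 (.L
  73) (.L 140)) (.C 0 2 32 1 (.L 1) (.C 0 2 1 2 (.L 1) (.C 0 2 1 4 (.L 1)
  (.L 96))))) (.C 1 2 8 1 (.L 6) (.T 1 2 (.T 2 1 (.T 4 1 (.L 179) (.C 0 1 64
  1 (.C 1 2 1 4 (.L 1) (.O 4)) (.G 1 59 1 2016755 1008377 504189 [.n, .g 2 7
  0 0, .n, .n, .n, .n]))) (.T 1 2 (.B 0 4 1 (.B 2 1 4 (.L 175) (.L 32)) (.L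
  175)) (.L 81))) (.L 81)))) (.C 1 2 1 2 (.L 500) (.O 4))) (.L 9)) (.L 18))
  (.L 5)) (.C 0 1 4 1 (.T 1 2 (.T 2 1 (.L 4) (.C 1 2 2 1 (.L 2) (.L 14)))
  (.C 0 1 8 1 (.C 1 2 1 1 (.T 1 4 (.L 3) (.C 1 2 2 1 (.T 1 8 (.L 3) (.C 1 2
  4 1 (.T 1 16 (.L 53) (.C 1 2 8 1 (.L 57) (.L 38))) (.T 1 16 (.L 218) (.O
  4)))) (.T 1 8 (.T 2 1 (.L 3) (.L 24)) (.O 4)))) (.L 8)) (.L 60))) (.T 1 2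
  (.T 2 1 (.L 2) (.L 26)) (.L 11)))) (.T 1 1 (.C 1 2 2 1 (.C 0 1 1 4 (.T 2 1
  (.C 0 1 2 1 (.G 362 50 2 1 1 1 [.n, .n, .n, .g 32 1 0 0, .n]) (.T 4 1 (.G
  320 81 0 43158 21579 10789 [.n, .n, .n, .g 22 63 0 0, .g 31 64 26 0, .n])
  (.L 44))) (.G 26 56 3 1 1 1 [.g 64 47 0 0, .n, .n, .g 16 13 0 0, .n])) (.C
  0 2 1 2 (.C 0 1 1 8 (.T 2 1 (.T 4 1 (.C 0 1 2 1 (.T 8 1 (.G 784 81 0 4790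
  19162 9581 [.n, .g 64 0 37 0, .g 64 61 0 0, .n, .n, .n]) (.L 9)) (.L 156))
  (.L 33)) (.L 5)) (.L 10)) (.L 10))) (.T 2 1 (.L 15) (.T 1 2 (.L 34) (.L
  12)))) (.C 0 1 1 4 (.G 2 83 3 332 664 166 [.n, .g 64 11 0 0, .g 8 3 0 0,
  .g 64 17 0 0]) (.T 1 2 (.T 2 1 (.L 4) (.L 23)) (.L 29)))))))
  (by decide +kernel)

theorem ES3_c1 : CoF ESTab ⟨⟨1995, 1995, 40000⟩, ⟨5206, 5324, 80000⟩, ⟨1635,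
  1635, 20000⟩, ⟨0, 1⟩, ⟨2, 1⟩, ⟨1, 0, 0⟩, ⟨0, 1, 0⟩, ⟨0, 1, 1⟩⟩ :=
CoF.ofG ESTab_B ESBt_E ESBt_U (.B 2 2 1 (.B 1 1 4 (.C 0 2 8 1 (.T 1 1 (.T 2
  1 (.T 4 1 (.T 8 1 (.C 1 2 4 1 (.C 1 2 8 1 (.L 6) (.C 0 1 64 1 (.C 0 2 32 1
  (.L 1) (.G 21 1 1 345001 690001 172500 [.n, .g 64 17 6 0, .g 256 79 27 0,
  .n])) (.C 0 2 1 4 (.C 0 1 1 2 (.L 1) (.C 0 1 1 4 (.L 1) (.C 1 2 4 1 (.C 1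
  2 8 1 (.L 6) (.L 1)) (.L 1)))) (.C 0 1 1 4 (.C 0 2 1 8 (.L 1) (.C 1 2 1 16
  (.C 1 2 2 1 (.L 1) (.C 0 2 2 1 (.L 1) (.T 16 1 (.O 4) (.G 338 528 4 1 1 1
  [.g 4 21 62972 0, .n, .n, .n, .g 1 0 52033 0, .g 1 4 80817 0, .n, .n]))))
  (.G 21 141 2 1100 2200 69 [.n, .g 1 0 233 0, .g 50 5 16419 0, .n]))) (.T
  16 1 (.C 0 1 1 8 (.G 1 228 2 517576 1035152 32349 [.n, .g 9 21 1 0, .n,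
  .n, .n, .n]) (.L 205)) (.C 0 1 1 8 (.T 1 2 (.G 193 108 2 1 1 1 [.g 4 2 59
  0, .g 4 9 0 0, .g 1 67 78009 0, .g 1 140 129365 0, .n, .n]) (.L 7)) (.C 1
  2 1 2 (.L 166) (.G 108 127 0 1 1 1 [.n, .n, .g 2 0 1059 0, .g 32 3 0
  0])))))))) (.C 1 2 1 2 (.L 13) (.O 4))) (.L 7)) (.L 52)) (.L 5)) (.C 0 1 4
  1 (.T 1 2 (.T 2 1 (.L 4) (.C 1 2 2 1 (.L 2) (.L 14))) (.C 0 1 8 1 (.C 1 2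
  1 1 (.T 1 4 (.L 3) (.C 1 2 2 1 (.T 1 8 (.L 3) (.C 1 2 4 1 (.T 1 16 (.L 53)
  (.C 1 2 8 1 (.L 57) (.L 38))) (.T 1 16 (.L 218) (.O 4)))) (.T 1 8 (.T 2 1
  (.L 3) (.L 24)) (.O 4)))) (.L 8)) (.L 40))) (.T 1 2 (.C 1 2 4 1 (.L 2) (.G
  4 49 2 6 22 11 [.n, .n, .g 64 29 0 0, .g 61 64 0 0])) (.L 11)))) (.T 1 1
  (.C 1 2 2 1 (.T 2 1 (.T 4 1 (.T 8 1 (.C 0 1 1 4 (.C 0 1 2 1 (.O 4) (.L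
  13)) (.C 0 1 1 8 (.C 1 2 1 4 (.C 0 2 4 1 (.C 0 1 2 1 (.G 195 128 3 612908
  2451632 4903265 [.g 16 7 0 0, .g 64 0 1 0, .n, .n, .g 25 1014 19 0, .g 6
  253 5 0]) (.G 372 17 3 1338 669 2676 [.g 7 1 126 0, .g 23 0 65 0, .g 32 3
  0 0, .g 37 3 65 0])) (.L 17)) (.L 13)) (.L 10))) (.L 7)) (.G 74 224 2 1 1
  1 [.n, .g 1 1 2768 0, .n, .n])) (.T 1 2 (.L 58) (.L 12))) (.T 2 1 (.L 15)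
  (.C 0 1 1 1 (.L 12) (.G 92 42 0 1 1 1 [.g 4 3 0 0, .n, .n, .n])))) (.C 0 1
  1 4 (.G 2 103 3 31 61 15 [.n, .g 64 11 0 0, .g 64 27 0 0, .g 32 9 0 0])
  (.T 1 2 (.C 1 2 2 1 (.L 4) (.L 48)) (.L 29))))) (.C 0 2 8 1 (.T 1 1 (.T 2
  1 (.T 4 1 (.T 8 1 (.C 1 2 4 1 (.C 1 2 8 1 (.T 16 1 (.L 6) (.T 1 2 (.L 6)
  (.L 7))) (.C 0 2 32 1 (.C 0 1 64 1 (.T 16 1 (.L 1) (.T 1 2 (.L 1) (.L 7)))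
  (.T 16 1 (.C 1 2 1 1 (.G 36 16 1 2260695 1130347 2260695 [.n, .g 32 7 0 0,
  .n, .n, .n, .n]) (.L 1)) (.T 1 2 (.C 1 2 1 1 (.G 1 6 1 1058281 529140
  1058281 [.n, .g 5 16 0 0, .n, .n, .n, .n]) (.L 1)) (.L 7)))) (.C 0 1 1 1
  (.C 1 2 1 4 (.G 16 1 4 3564 7129 14258 [.n, .n, .n, .n, .g 11 16 0 0, .n])
  (.T 16 1 (.O 4) (.G 118 410 0 74998 299992 37499 [.g 64 0 31 0, .g 64 0 39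
  0, .n, .n]))) (.T 16 1 (.C 0 2 1 4 (.C 0 1 1 2 (.L 1) (.C 1 2 4 1 (.G 127
  6 1 4 1 8 [.g 29 1 16486 0, .g 11 1 3987 0, .n, .n, .g 1 1 58805 0, .g 1 1
  57117 0]) (.G 62 1 1 11 22 11 [.g 147 1 32690 0, .n, .n, .n, .g 1 1 25082
  0, .g 1 1 23308 0]))) (.C 0 2 1 8 (.C 0 1 1 4 (.T 32 1 (.O 4) (.G 72 90 0
  1 1 1 [.g 1 0 290 0, .n, .n, .n, .n, .g 16 3 0 0])) (.C 0 1 1 8 (.B 2 4 1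
  (.T 32 1 (.O 4) (.G 72 19 0 1324 2647 1324 [.g 2 0 277 0, .g 5 8 67 0, .n,
  .n, .n, .n])) (.L 47)) (.L 228))) (.L 228))) (.T 1 2 (.T 2 1 (.C 0 2 1 4
  (.C 0 1 1 2 (.L 1) (.C 1 2 4 1 (.C 1 2 8 1 (.L 6) (.G 127 6 1 63 252 126
  [.g 64 23 0 0, .g 64 45 0 0, .n, .n, .n, .n])) (.G 62 1 1 8 16 8 [.g 96 1
  1024 0, .n, .n, .n, .g 64 41 0 0, .g 32 25 0 0]))) (.C 0 2 1 8 (.C 0 1 1 4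
  (.C 0 1 2 1 (.G 16 374 0 43 172 86 [.n, .g 1 1 7596 0, .n, .n, .n, .n])
  (.G 225 59 1 3 2 2 [.g 1 0 712 0, .n, .n, .n, .g 64 27 0 0, .g 64 31 0
  0])) (.C 0 1 1 8 (.B 2 4 1 (.T 4 1 (.G 72 59 1 1454 2908 1454 [.g 1 0 134
  0, .g 25 32 0 0, .n, .n, .n, .n]) (.C 1 2 1 2 (.L 484) (.L 225))) (.L 19))
  (.L 59))) (.G 59 438 3 149129 18641 9321 [.g 64 3 8 0, .n, .n, .n]))) (.B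
  2 4 1 (.T 1 2 (.B 2 8 1 (.G 21 200 2 145 73 36 [.n, .g 64 5 0 0, .n, .n])
  (.L 21)) (.L 118)) (.L 21))) (.L 7)))))) (.C 1 2 1 2 (.L 13) (.O 4))) (.L
  7)) (.L 52)) (.L 5)) (.C 0 1 4 1 (.T 1 2 (.T 2 1 (.L 4) (.C 1 2 2 1 (.L 4)
  (.L 14))) (.T 1 4 (.C 1 2 2 1 (.L 3) (.C 1 2 1 2 (.L 3) (.L 8))) (.C 1 2 2
  1 (.T 1 8 (.L 22) (.C 0 1 8 1 (.C 1 2 2 1 (.T 1 16 (.L 22) (.C 1 2 4 1 (.C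
  1 2 8 1 (.L 57) (.L 38)) (.L 308))) (.L 24)) (.L 42))) (.L 8)))) (.T 1 2
  (.C 1 2 4 1 (.L 2) (.G 4 49 2 6 22 11 [.n, .n, .g 64 31 0 0, .g 29 32 0
  0])) (.L 11)))) (.T 1 1 (.C 1 2 2 1 (.T 2 1 (.T 4 1 (.T 8 1 (.C 0 1 1 4
  (.C 0 1 2 1 (.O 4) (.L 13)) (.C 0 1 1 8 (.C 1 2 1 4 (.C 0 2 4 1 (.T 16 1
  (.G 248 992 4 22250 44499 177997 [.n, .n, .g 64 0 27 0, .n]) (.T 1 2 (.C 0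
  1 2 1 (.C 0 2 8 1 (.L 72) (.G 164 486 1 178 44 89 [.g 3 1 965 0, .g 4 2
  1067 0, .n, .n, .n])) (.C 0 1 1 2 (.G 334 123 3 5541 11082 11082 [.g 32 21
  0 0, .n, .n, .n, .g 32 21 0 0]) (.L 17))) (.L 7))) (.L 17)) (.L 13)) (.L
  17))) (.L 7)) (.G 98 50 1 1 1 1 [.n, .n, .n, .n, .g 1 4 5758 0])) (.T 1 2
  (.L 58) (.L 12))) (.T 2 1 (.L 15) (.C 0 1 1 1 (.L 12) (.G 92 42 0 1 1 1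
  [.g 4 3 0 0, .n, .n, .n])))) (.C 0 1 1 4 (.G 2 103 3 31 61 15 [.n, .g 64
  11 0 0, .g 64 27 0 0, .g 32 9 0 0]) (.T 1 2 (.C 1 2 2 1 (.L 4) (.L 48))
  (.L 29)))))) (.B 0 2 1 (.C 0 2 8 1 (.T 1 1 (.T 2 1 (.T 4 1 (.T 8 1 (.C 1 2
  4 1 (.C 1 2 8 1 (.T 16 1 (.T 32 1 (.B 2 1 2 (.C 0 2 64 1 (.C 0 2 128 1 (.C
  0 1 4 1 (.C 1 2 32 1 (.L 37) (.C 0 1 512 1 (.C 1 2 1 4 (.B 1 1 2 (.L 105)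
  (.B 2 2 1 (.C 1 2 2 1 (.L 95) (.L 36)) (.L 105))) (.L 36)) (.L 43))) (.L
  43)) (.L 43)) (.G 234 213 1 492 15 246 [.n, .n, .n, .g 1 2 69 0])) (.L
  71)) (.L 6)) (.L 6)) (.T 16 1 (.C 0 1 64 1 (.C 1 2 1 4 (.T 32 1 (.O 4) (.L
  1)) (.O 4)) (.C 0 1 1 2 (.G 1 47 0 1235002 2470004 308751 [.n, .g 64 0 15
  0, .n, .n, .n, .g 16384 0 3 0]) (.G 1 326 4 2470004 617501 308751 [.n, .g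
  23 64 1 0, .n, .n, .n, .g 32768 34 5 0]))) (.T 1 2 (.C 0 1 64 1 (.C 0 2 32
  1 (.L 1) (.G 1 21 2 584211 1168422 292105 [.n, .g 17 66 7 0, .n, .n, .n,
  .n])) (.C 0 2 1 4 (.G 85 1 1 4194304 2097152 8388607 [.g 32 3 0 0, .n, .n,
  .n, .g 2 57 0 0, .g 2 59 0 0]) (.C 0 1 1 4 (.G 108 1 1 552 1104 69 [.g 319
  1 1025 0, .n, .g 1 2 1274 0, .n]) (.C 0 2 1 16 (.C 0 1 1 8 (.G 1 736 3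
  319092 638183 638183 [.n, .g 64 55 14 0, .n, .n, .n, .n]) (.L 310)) (.G
  169 366 3 799 50 25 [.n, .n, .g 1 1 1303 0, .g 64 13 0 0]))))) (.L 118))))
  (.C 1 2 1 2 (.C 1 2 2 1 (.C 1 2 4 1 (.T 16 1 (.O 4) (.L 436)) (.O 4)) (.O
  4)) (.O 4))) (.L 9)) (.L 18)) (.L 5)) (.C 0 1 4 1 (.T 1 2 (.T 2 1 (.L 4)
  (.C 1 2 2 1 (.L 2) (.L 14))) (.C 0 1 8 1 (.C 1 2 1 1 (.T 1 4 (.L 3) (.C 1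
  2 2 1 (.T 1 8 (.L 3) (.T 1 16 (.L 31) (.C 1 2 4 1 (.C 1 2 8 1 (.L 57) (.L
  80)) (.O 4)))) (.T 1 8 (.T 2 1 (.L 3) (.L 24)) (.O 4)))) (.L 8)) (.L 40)))
  (.T 1 2 (.C 1 2 4 1 (.L 2) (.G 4 65 1 5 19 10 [.n, .n, .g 2 0 4985 0, .g 1
  1 4248 0])) (.L 11)))) (.T 1 1 (.C 1 2 2 1 (.C 0 1 1 4 (.T 2 1 (.C 0 1 2 1
  (.G 114 106 2 1 1 1 [.n, .g 6 67 0 0, .n, .n]) (.T 4 1 (.C 0 1 1 2 (.L 93)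
  (.T 8 1 (.C 1 2 1 2 (.G 470 342 2 116500 29125 58250 [.n, .n, .g 64 5 41
  0, .n]) (.O 4)) (.L 9))) (.L 44))) (.G 26 58 3 1 1 1 [.g 31 32 0 0, .n,
  .n, .g 32 27 0 0, .g 64 15 0 0])) (.C 0 2 1 2 (.C 0 1 1 8 (.T 2 1 (.T 4 1
  (.C 0 1 2 1 (.T 8 1 (.C 1 2 1 2 (.T 16 1 (.O 4) (.G 154 118 1 8 31 63 [.g
  64 27 0 0, .n, .g 64 37 0 0, .g 12 1 2026 0])) (.G 608 864 1 34618 276945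
  69236 [.n, .n, .n, .g 64 1 6 0])) (.L 9)) (.B 2 1 2 (.C 0 1 1 2 (.C 0 2 1
  2 (.G 137 163 3 1 1 1 [.g 3 58 0 0, .n, .n, .n, .g 1 840 72405 0, .g 1 830
  80859 0]) (.L 204)) (.L 20)) (.L 156))) (.L 33)) (.L 5)) (.L 111)) (.L
  111))) (.T 2 1 (.L 15) (.T 1 2 (.L 144) (.L 12)))) (.C 0 1 1 4 (.G 2 27 3
  293 586 146 [.n, .g 16 3 0 0, .g 64 33 0 0, .g 64 23 0 0]) (.T 1 2 (.T 2 1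
  (.L 4) (.L 23)) (.L 29))))) (.C 0 2 8 1 (.T 1 1 (.T 2 1 (.T 4 1 (.T 8 1
  (.C 1 2 4 1 (.C 0 1 4 1 (.C 0 1 8 1 (.C 1 2 2 1 (.T 16 1 (.T 32 1 (.T 64 1
  (.L 73) (.L 1)) (.L 1)) (.L 1)) (.T 16 1 (.O 4) (.C 0 2 32 1 (.L 1) (.G 16
  214 1 815851 815851 407925 [.n, .g 4 61 1 0, .n, .n, .n, .n])))) (.B 2 2 1
  (.C 1 2 4 1 (.T 16 1 (.G 37 1 5 2097152 1048576 8388607 [.n, .n, .n, .n,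
  .g 1 52696 0 0, .g 1 54996 0 0, .n, .n]) (.L 1)) (.C 0 2 2 1 (.T 16 1 (.G
  37 1 5 2097152 8388607 8388607 [.n, .n, .n, .n, .g 1 40693 0 0, .g 1 42047
  0 0, .n, .n]) (.L 1)) (.G 1 117 3 257089 257089 128545 [.n, .g 6 61 6 0,
  .n, .n, .n, .g 4096 0 1 0]))) (.T 16 1 (.T 32 1 (.G 37 229 1 40472 20236
  80945 [.n, .g 64 0 29 0, .n, .n, .n, .n, .n, .n]) (.G 6 1 1 53194 26597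
  106388 [.n, .g 21 26 32 0, .n, .n, .n, .n])) (.G 1 91 0 68228 34114 136456
  [.n, .g 13 62 7 0, .n, .n, .n, .n])))) (.C 0 2 4 1 (.T 16 1 (.T 32 1 (.L
  37) (.L 1)) (.L 1)) (.C 1 2 8 1 (.C 0 1 1 16 (.T 16 1 (.T 32 1 (.L 36) (.G
  6 1 1 629444 1258889 629444 [.n, .g 64 17 0 0, .n, .n, .n, .n])) (.G 1 6 1
  192351 384703 192351 [.n, .g 3 8 0 0, .n, .n, .n, .n])) (.L 124)) (.C 0 1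
  1 1 (.G 1 165 0 40 79 20 [.n, .g 2 2 4649 0, .n, .n, .n, .g 3 0 5 0]) (.T
  16 1 (.C 0 2 1 4 (.G 356 36 1 1043760 521880 2087519 [.g 64 19 0 0, .n,
  .n, .g 64 0 1 0, .g 4096 215 139 0]) (.L 96)) (.C 1 2 1 2 (.G 85 152 3
  8388607 4194304 8388607 [.n, .n, .g 1 72 0 0, .g 1 75 0 0, .g 1 43 0 0, .g
  1 47 0 0]) (.T 1 2 (.G 211 123 2 1 1 1 [.n, .g 64 41 0 0, .n, .g 2 0 1159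
  0]) (.L 7)))))))) (.C 1 2 1 2 (.L 13) (.O 4))) (.L 9)) (.L 18)) (.L 5))
  (.C 0 1 4 1 (.T 1 2 (.T 2 1 (.L 4) (.C 1 2 2 1 (.L 2) (.L 14))) (.C 0 1 8
  1 (.C 1 2 1 1 (.T 1 4 (.L 3) (.C 1 2 2 1 (.T 1 8 (.L 3) (.C 1 2 4 1 (.T 1
  16 (.L 53) (.C 1 2 8 1 (.L 57) (.L 38))) (.T 1 16 (.L 218) (.O 4)))) (.T 1
  8 (.T 2 1 (.L 3) (.L 24)) (.O 4)))) (.L 8)) (.L 40))) (.T 1 2 (.C 1 2 4 1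
  (.L 2) (.G 2 65 1 6 23 12 [.n, .n, .g 1 0 1407 0, .g 2 1 3699 0])) (.L
  11)))) (.T 1 1 (.C 1 2 2 1 (.T 2 1 (.T 4 1 (.T 8 1 (.C 0 1 1 4 (.C 0 1 2 1
  (.O 4) (.L 13)) (.C 0 1 1 8 (.C 1 2 1 4 (.C 0 2 4 1 (.C 0 1 2 1 (.G 154
  113 0 18 71 142 [.g 16 5 0 0, .n, .g 55 64 0 0, .g 7 1 1086 0]) (.G 207
  124 3 2 1 4 [.g 64 59 0 0, .n, .n, .n])) (.L 204)) (.L 13)) (.L 10))) (.L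
  9)) (.G 224 50 1 1 1 1 [.n, .n, .g 1 0 1254 0, .n, .n])) (.T 1 2 (.L 56)
  (.L 12))) (.T 2 1 (.L 15) (.T 1 2 (.L 144) (.L 12)))) (.C 0 1 1 4 (.G 2 27
  3 293 586 146 [.n, .g 16 3 0 0, .g 64 33 0 0, .g 64 23 0 0]) (.T 1 2 (.C 1
  2 2 1 (.L 4) (.L 48)) (.L 29))))))) (by decide +kernel)

theorem ES3_c2 : CoF ESTab ⟨⟨360, 360, 20000⟩, ⟨1936, 2054, 40000⟩, ⟨1995,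
  1995, 40000⟩, ⟨0, 1⟩, ⟨2, 1⟩, ⟨1, 0, 0⟩, ⟨0, 1, 0⟩, ⟨0, 1, 1⟩⟩ :=
CoF.ofG ESTab_B ESBt_E ESBt_U (.B 0 2 1 (.B 2 1 2 (.B 1 1 2 (.C 0 2 8 1 (.T
  1 1 (.T 2 1 (.T 4 1 (.T 8 1 (.T 16 1 (.L 160) (.L 28)) (.L 28)) (.L 39))
  (.L 5)) (.C 0 1 4 1 (.T 1 2 (.T 2 1 (.L 2) (.C 1 2 2 1 (.L 2) (.L 14)))
  (.C 0 1 8 1 (.C 1 2 1 1 (.T 1 4 (.L 3) (.C 1 2 2 1 (.T 1 8 (.L 3) (.T 1 16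
  (.C 1 2 4 1 (.L 53) (.L 218)) (.C 1 2 4 1 (.C 1 2 8 1 (.L 57) (.L 80)) (.O
  4)))) (.T 1 8 (.T 2 1 (.L 3) (.L 24)) (.O 4)))) (.L 8)) (.L 61))) (.C 1 2
  4 1 (.C 0 1 1 2 (.L 61) (.T 1 2 (.L 2) (.L 29))) (.L 27)))) (.T 1 1 (.C 0
  1 1 4 (.T 2 1 (.G 928 131 1 3 7 2 [.g 6 4 1003 0, .g 1 2 4089 0, .n, .n])
  (.G 5 27 3 535 1069 267 [.g 32 5 0 0, .g 32 5 0 0, .n, .n])) (.C 0 2 1 4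
  (.T 2 1 (.C 0 1 1 8 (.C 0 1 2 1 (.C 0 2 2 1 (.C 0 1 4 1 (.T 4 1 (.G 238
  250 0 20538 164305 82152 [.g 32 0 9 0, .n, .n, .n]) (.L 51)) (.L 20)) (.L
  20)) (.L 10)) (.L 10)) (.L 5)) (.L 10))) (.C 0 1 1 4 (.L 41) (.T 1 2 (.T 2
  1 (.L 4) (.L 23)) (.L 29))))) (.C 0 2 8 1 (.T 1 1 (.T 2 1 (.T 4 1 (.T 8 1
  (.T 16 1 (.T 32 1 (.L 55) (.B 2 2 1 (.B 2 4 1 (.B 1 1 4 (.L 28) (.T 1 2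
  (.B 2 8 1 (.B 1 1 8 (.L 55) (.C 1 2 4 1 (.L 100) (.O 4))) (.L 55)) (.L
  84))) (.L 28)) (.L 28))) (.L 32)) (.L 9)) (.C 0 2 16 1 (.L 18) (.L 39)))
  (.L 5)) (.C 0 1 4 1 (.T 1 2 (.T 2 1 (.L 2) (.C 1 2 2 1 (.L 2) (.L 14)))
  (.T 1 4 (.C 1 2 2 1 (.L 3) (.C 1 2 1 2 (.L 3) (.L 8))) (.C 1 2 2 1 (.C 0 1
  8 1 (.T 1 8 (.L 22) (.C 1 2 2 1 (.T 1 16 (.L 22) (.C 1 2 4 1 (.C 1 2 8 1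
  (.L 57) (.L 80)) (.L 308))) (.L 8))) (.L 42)) (.L 8)))) (.T 1 2 (.C 1 2 4
  1 (.L 2) (.G 4 26 3 4 18 9 [.n, .n, .g 2 0 5211 0, .g 1 1 4202 0])) (.L
  11)))) (.T 1 1 (.C 0 1 1 4 (.T 2 1 (.C 1 2 1 4 (.G 177 114 1 1 2 4 [.g 128
  3 0 0, .g 1 6 14968 0, .n, .n]) (.L 70)) (.G 27 35 2 1 1 1 [.n, .n, .g 64
  15 0 0, .g 64 15 0 0, .n])) (.C 0 2 1 4 (.T 2 1 (.C 0 1 1 8 (.C 0 1 2 1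
  (.C 0 2 2 1 (.T 4 1 (.G 238 129 0 15749 62996 62996 [.g 32 0 11 0, .n, .n,
  .n]) (.L 33)) (.B 2 2 1 (.C 0 2 1 2 (.C 0 1 1 1 (.G 177 672 1 1 2 2 [.g 64
  5 0 0, .n, .n, .n]) (.B 1 1 4 (.L 20) (.B 2 4 1 (.B 1 1 8 (.L 20) (.T 4 1
  (.L 204) (.L 51))) (.L 20)))) (.L 20)) (.L 20))) (.L 20)) (.L 10)) (.L 5))
  (.L 10))) (.C 0 1 1 4 (.G 2 103 3 32 64 16 [.n, .g 32 5 0 0, .g 64 25 0 0,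
  .g 64 17 0 0]) (.T 1 2 (.T 2 1 (.L 4) (.L 23)) (.L 29)))))) (.B 0 4 1 (.L
  151) (.L 151))) (.B 2 2 1 (.B 0 1 4 (.C 0 2 8 1 (.T 1 1 (.T 2 1 (.T 4 1
  (.T 8 1 (.T 16 1 (.T 32 1 (.L 55) (.B 2 4 1 (.T 1 2 (.B 2 8 1 (.B 1 1 8
  (.L 55) (.C 1 2 4 1 (.L 100) (.O 4))) (.L 55)) (.L 84)) (.L 28))) (.L 32))
  (.L 9)) (.C 0 2 16 1 (.L 18) (.L 39))) (.L 5)) (.C 0 1 4 1 (.T 1 2 (.T 2 1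
  (.L 2) (.C 1 2 2 1 (.L 2) (.L 14))) (.C 0 1 8 1 (.C 1 2 1 1 (.T 1 4 (.L 3)
  (.C 1 2 2 1 (.T 1 8 (.L 3) (.C 1 2 4 1 (.T 1 16 (.L 53) (.C 1 2 8 1 (.L
  57) (.L 38))) (.T 1 16 (.L 218) (.O 4)))) (.T 1 8 (.T 2 1 (.L 3) (.L 24))
  (.O 4)))) (.L 8)) (.L 60))) (.T 1 2 (.C 1 2 4 1 (.L 2) (.G 2 27 3 32 128
  64 [.n, .n, .g 32 5 0 0, .g 8 3 0 0])) (.L 11)))) (.T 1 1 (.C 0 1 1 4 (.T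
  2 1 (.C 1 2 1 4 (.G 233 114 1 1 3 6 [.g 51 64 0 0, .g 5 27 64422 0, .n,
  .n]) (.L 70)) (.G 27 58 3 1 1 1 [.n, .n, .g 64 11 0 0, .g 8 1 0 0, .n]))
  (.C 0 2 1 4 (.C 0 1 1 8 (.C 0 1 2 1 (.T 2 1 (.T 4 1 (.G 129 250 0 13639
  54555 27278 [.g 256 0 1 0, .n, .n, .n]) (.L 51)) (.L 5)) (.L 494)) (.L
  10)) (.L 10))) (.C 0 1 1 4 (.G 2 27 3 293 586 146 [.n, .g 16 3 0 0, .g 64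
  31 0 0, .g 32 11 0 0]) (.T 1 2 (.T 2 1 (.L 4) (.L 23)) (.L 29))))) (.C 0 2
  8 1 (.T 1 1 (.T 2 1 (.T 4 1 (.T 8 1 (.T 16 1 (.T 32 1 (.L 55) (.T 1 2 (.C
  1 2 4 1 (.C 0 2 32 1 (.L 110) (.G 156 100 1 65 4 32 [.n, .n, .n, .g 1 2
  257 0])) (.O 4)) (.L 84))) (.L 32)) (.L 9)) (.L 18)) (.L 5)) (.C 0 1 4 1
  (.T 1 2 (.T 2 1 (.L 4) (.C 1 2 2 1 (.L 2) (.L 14))) (.C 0 1 8 1 (.C 1 2 1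
  1 (.T 1 4 (.L 3) (.C 1 2 2 1 (.T 1 8 (.L 3) (.C 1 2 4 1 (.T 1 16 (.L 53)
  (.C 1 2 8 1 (.L 57) (.L 38))) (.T 1 16 (.L 66) (.O 4)))) (.T 1 8 (.T 2 1
  (.L 22) (.L 24)) (.O 4)))) (.L 8)) (.L 60))) (.T 1 2 (.C 1 2 4 1 (.L 2)
  (.G 4 11 1 4 16 8 [.n, .n, .g 1 0 3017 0, .g 1 1 4465 0])) (.L 11)))) (.T
  1 1 (.C 1 2 2 1 (.C 0 1 1 4 (.T 2 1 (.T 4 1 (.G 131 197 0 1 2 1 [.n, .g 1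
  17 6166 0, .n]) (.L 44)) (.G 26 35 2 1 1 1 [.g 43 63 0 0, .n, .n, .g 5 8 0
  0, .n])) (.C 0 2 1 2 (.C 0 1 1 8 (.C 0 1 2 1 (.T 2 1 (.T 4 1 (.G 238 174 0
  15749 62996 31498 [.g 32 0 11 0, .n, .n, .n]) (.L 33)) (.L 5)) (.L 111))
  (.L 10)) (.L 10))) (.T 2 1 (.L 15) (.T 1 2 (.L 34) (.L 12)))) (.C 0 1 1 4
  (.G 2 41 4 24 47 12 [.n, .g 32 5 0 0, .g 8 3 0 0, .g 4 1 0 0]) (.T 1 2 (.T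
  2 1 (.L 4) (.L 23)) (.L 29)))))) (.B 0 1 2 (.C 0 2 8 1 (.T 1 1 (.T 2 1 (.T
  4 1 (.T 8 1 (.T 16 1 (.L 160) (.L 28)) (.L 28)) (.L 39)) (.L 5)) (.C 0 1 4
  1 (.T 1 2 (.T 2 1 (.L 2) (.C 1 2 2 1 (.L 2) (.L 14))) (.C 0 1 8 1 (.C 1 2
  1 1 (.T 1 4 (.L 3) (.C 1 2 2 1 (.T 1 8 (.L 3) (.C 1 2 4 1 (.T 1 16 (.L 53)
  (.C 1 2 8 1 (.L 57) (.L 38))) (.T 1 16 (.L 218) (.O 4)))) (.T 1 8 (.T 2 1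
  (.L 3) (.L 24)) (.O 4)))) (.L 8)) (.L 61))) (.C 1 2 4 1 (.C 0 1 1 2 (.L
  61) (.T 1 2 (.L 2) (.L 29))) (.L 27)))) (.T 1 1 (.C 0 1 1 4 (.T 2 1 (.G
  233 131 1 3 7 2 [.g 6 4 951 0, .g 1 2 4089 0, .n, .n]) (.G 27 35 2 1 1 1
  [.n, .n, .n, .g 64 15 0 0, .n])) (.C 0 2 1 4 (.T 2 1 (.C 0 1 1 8 (.C 0 1 2
  1 (.C 0 2 2 1 (.C 0 1 4 1 (.T 4 1 (.G 28 210 0 10753 86025 43013 [.g 64 0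
  15 0, .n, .n, .n]) (.L 51)) (.L 20)) (.L 20)) (.L 10)) (.L 10)) (.L 5))
  (.L 10))) (.C 0 1 1 4 (.L 41) (.T 1 2 (.T 2 1 (.L 4) (.L 23)) (.L 29)))))
  (.C 0 2 8 1 (.T 1 1 (.T 2 1 (.T 4 1 (.T 8 1 (.T 16 1 (.T 32 1 (.L 55) (.B
  1 4 1 (.T 1 2 (.B 0 1 4 (.L 28) (.B 1 8 1 (.B 0 1 8 (.L 55) (.C 1 2 4 1
  (.L 100) (.O 4))) (.L 55))) (.L 84)) (.L 28))) (.L 32)) (.L 9)) (.C 0 2 16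
  1 (.L 18) (.L 39))) (.L 5)) (.C 0 1 4 1 (.T 1 2 (.T 2 1 (.L 4) (.C 1 2 2 1
  (.L 2) (.L 14))) (.C 0 1 8 1 (.C 1 2 1 1 (.T 1 4 (.L 3) (.C 1 2 2 1 (.T 1
  8 (.L 3) (.C 1 2 4 1 (.T 1 16 (.L 53) (.C 1 2 8 1 (.L 57) (.L 38))) (.T 1
  16 (.L 66) (.O 4)))) (.T 1 8 (.T 2 1 (.L 22) (.L 24)) (.O 4)))) (.L 8))
  (.L 60))) (.T 1 2 (.C 1 2 4 1 (.L 2) (.G 2 254 1 5 22 11 [.n, .n, .g 32 5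
  0 0, .g 64 21 0 0])) (.L 11)))) (.T 1 1 (.C 0 1 1 4 (.T 2 1 (.C 1 2 1 4
  (.G 88 458 2 2 4 8 [.g 209 256 0 0, .g 2 3 7648 0, .n, .n]) (.L 70)) (.G
  27 35 2 1 1 1 [.n, .n, .g 64 15 0 0, .g 64 15 0 0, .n])) (.C 0 2 1 4 (.C 0
  1 1 8 (.C 0 1 2 1 (.T 2 1 (.T 4 1 (.G 240 408 0 16140 64560 32280 [.g 16 0
  5 0, .n, .n, .n]) (.L 51)) (.L 5)) (.L 494)) (.L 10)) (.L 10))) (.C 0 1 1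
  4 (.G 2 27 3 293 587 147 [.n, .g 16 3 0 0, .g 64 31 0 0, .g 32 11 0 0])
  (.T 1 2 (.T 2 1 (.L 4) (.L 23)) (.L 29)))))))) (by decide +kernel)

theorem ES3_c3 : CoF ESTab ⟨⟨5206, 5324, 80000⟩, ⟨11510, 12100, 160000⟩,
  ⟨1635, 1635, 20000⟩, ⟨0, 1⟩, ⟨2, 1⟩, ⟨1, 0, 0⟩, ⟨0, 1, 0⟩, ⟨0, 1, 1⟩⟩ :=
CoF.ofG ESTab_B ESBt_E ESBt_U (.B 2 4 1 (.B 1 1 8 (.C 0 2 8 1 (.T 1 1 (.T 2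
  1 (.T 4 1 (.T 8 1 (.C 1 2 4 1 (.C 1 2 8 1 (.T 16 1 (.L 6) (.T 1 2 (.L 6)
  (.L 7))) (.C 0 2 32 1 (.C 0 1 64 1 (.T 16 1 (.L 1) (.T 1 2 (.L 1) (.L 7)))
  (.T 16 1 (.C 1 2 1 1 (.G 36 16 1 2185155 1092577 2185155 [.n, .g 32 7 0 0,
  .n, .n, .n, .n]) (.L 1)) (.T 1 2 (.T 2 1 (.C 0 1 1 2 (.L 1) (.C 1 2 1 1
  (.G 6 16 1 1058120 264530 529060 [.n, .g 64 19 0 0, .n, .n, .n, .n]) (.L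
  1))) (.L 21)) (.L 7)))) (.C 0 1 1 1 (.C 1 2 1 4 (.G 1 16 4 3191 6382 12764
  [.n, .n, .n, .n, .g 64 3 0 0, .n]) (.G 1 77 1 89435 357739 44717 [.n, .g
  41 256 141 0, .n, .n, .g 1024 1 0 0, .n])) (.T 16 1 (.T 32 1 (.O 4) (.C 0
  2 1 4 (.C 0 1 1 2 (.L 1) (.C 0 1 1 4 (.L 1) (.C 1 2 4 1 (.G 211 6 1 184 23
  184 [.g 17 3 33157 0, .g 25 32 0 0, .n, .g 1 0 1423 0]) (.G 72 16 1 13 13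
  7 [.g 128 1 0 0, .g 256 1 0 0, .n, .n, .n, .g 1 1 0 0])))) (.C 0 2 1 8 (.C
  0 1 1 4 (.G 72 220 0 1 1 1 [.g 1 0 321 0, .n, .n, .n, .n, .n]) (.G 121 292
  0 241560 30195 241560 [.n, .n, .n, .g 64 51 9 0, .n])) (.L 19)))) (.T 1 2
  (.T 2 1 (.C 0 1 1 2 (.C 0 2 1 4 (.L 1) (.G 122 1 1 395 395 49 [.g 2 5 5066
  0, .n, .n, .n, .n, .n])) (.C 0 2 1 8 (.C 1 2 8 1 (.L 116) (.L 62)) (.L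
  19))) (.L 21)) (.L 7)))))) (.C 1 2 1 2 (.L 13) (.O 4))) (.L 7)) (.L 52))
  (.L 5)) (.C 0 1 4 1 (.T 1 2 (.T 2 1 (.L 4) (.C 1 2 2 1 (.L 4) (.L 14)))
  (.T 1 4 (.C 1 2 2 1 (.L 3) (.C 1 2 1 2 (.L 3) (.L 8))) (.C 0 1 8 1 (.C 1 2
  1 1 (.C 1 2 2 1 (.T 1 8 (.L 3) (.C 1 2 4 1 (.T 1 16 (.L 53) (.C 1 2 8 1
  (.L 57) (.L 38))) (.T 1 16 (.L 66) (.O 4)))) (.T 1 8 (.T 2 1 (.L 22) (.L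
  24)) (.O 4))) (.O 4)) (.L 40)))) (.T 1 2 (.C 1 2 4 1 (.L 2) (.G 2 49 2 7
  27 13 [.n, .n, .g 64 19 0 0, .g 32 17 0 0])) (.L 11)))) (.T 1 1 (.C 1 2 2
  1 (.T 2 1 (.T 4 1 (.T 8 1 (.C 0 1 1 4 (.G 147 328 0 1 1 1 [.n, .g 1 0 3305
  0, .n, .n]) (.C 0 2 1 2 (.C 0 1 1 8 (.C 0 1 2 1 (.G 388 77 1 8 33 16 [.g
  59 64 0 0, .g 6 7 16104 0, .n, .n]) (.C 0 1 1 2 (.C 0 2 1 2 (.G 366 241 3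
  1217 2434 2434 [.n, .n, .g 15 10 63 0, .g 11 6 251 0]) (.L 17)) (.L 17)))
  (.L 17)) (.L 17))) (.L 7)) (.G 50 44 1 1 1 1 [.n, .g 1 4 12773 0, .n, .n,
  .n])) (.T 1 2 (.L 58) (.L 12))) (.T 2 1 (.L 15) (.C 0 1 1 1 (.L 12) (.G 92
  42 0 1 1 1 [.g 4 3 0 0, .n, .n, .n])))) (.C 0 1 1 4 (.G 2 103 3 30 61 15
  [.n, .g 64 11 0 0, .g 64 27 0 0, .g 64 19 0 0]) (.T 1 2 (.C 1 2 2 1 (.L 4)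
  (.L 48)) (.L 29))))) (.B 2 8 1 (.L 200) (.C 0 2 8 1 (.T 1 1 (.T 2 1 (.T 4
  1 (.T 8 1 (.C 1 2 4 1 (.C 1 2 8 1 (.T 16 1 (.L 6) (.T 1 2 (.L 6) (.L 7)))
  (.C 0 2 32 1 (.C 0 1 64 1 (.T 16 1 (.L 1) (.T 1 2 (.L 1) (.L 7))) (.T 16 1
  (.C 1 2 1 1 (.G 36 16 1 2185322 1092661 2185322 [.n, .g 32 7 0 0, .n, .n,
  .n, .n]) (.L 1)) (.T 1 2 (.C 0 1 1 2 (.L 1) (.C 1 2 1 1 (.G 6 1 1 905448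
  226362 452724 [.n, .g 64 21 0 0, .n, .n, .n, .n]) (.L 1))) (.L 7)))) (.C 0
  1 1 1 (.C 1 2 1 4 (.G 1 16 4 3191 6382 12764 [.n, .n, .n, .n, .g 64 3 0 0,
  .n]) (.G 16 77 1 89435 357739 44717 [.n, .g 20 128 65 0, .n, .n, .g 256 2
  5 0, .n])) (.T 16 1 (.T 32 1 (.O 4) (.C 0 2 1 4 (.C 0 1 1 2 (.L 1) (.C 0 1
  1 4 (.L 1) (.C 1 2 4 1 (.G 211 6 1 181 23 181 [.g 136 19 262906 0, .g 51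
  64 0 0, .n, .g 1 0 1542 0]) (.G 72 1 1 9 9 4 [.g 128 1 0 0, .g 177 1 4103
  0, .n, .n, .n, .g 32 19 0 0])))) (.C 0 2 1 8 (.C 0 1 1 4 (.G 90 220 0 1 1
  1 [.g 1 0 20412 0, .n, .n, .n, .n, .n]) (.G 201 19 0 92971 11621 92971
  [.n, .g 128 0 1 0, .n, .n])) (.L 19)))) (.T 1 2 (.T 2 1 (.C 0 1 1 2 (.C 0
  2 1 4 (.L 1) (.G 122 1 1 395 395 49 [.g 2 5 5066 0, .n, .n, .n, .n, .n]))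
  (.C 0 2 1 8 (.C 1 2 8 1 (.L 116) (.L 62)) (.L 19))) (.L 21)) (.L 7))))))
  (.C 1 2 1 2 (.L 13) (.O 4))) (.L 7)) (.L 52)) (.L 5)) (.T 1 2 (.T 2 1 (.L
  4) (.C 1 2 4 1 (.L 2) (.C 1 2 1 2 (.L 4) (.L 14)))) (.C 0 1 4 1 (.T 1 4
  (.C 1 2 2 1 (.L 3) (.C 1 2 1 2 (.L 3) (.L 8))) (.C 1 2 2 1 (.T 1 8 (.L 22)
  (.C 1 2 4 1 (.C 1 2 8 1 (.L 244) (.T 1 16 (.L 158) (.L 38))) (.T 1 16 (.C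
  1 2 1 2 (.L 22) (.L 800)) (.O 4)))) (.L 8))) (.L 11)))) (.T 1 1 (.C 1 2 2
  1 (.T 2 1 (.T 4 1 (.T 8 1 (.C 0 1 1 4 (.G 544 87 1 1 1 1 [.n, .g 1 16
  39850 0, .n, .n]) (.C 0 2 1 2 (.C 0 1 1 8 (.C 0 1 2 1 (.G 181 77 1 9 38 19
  [.n, .g 2 3 6736 0, .g 16 5 0 0]) (.G 960 241 3 1105 553 553 [.g 40 31 819
  0, .g 5 0 69 0, .n, .g 8 1 0 0, .g 32 31 0 0])) (.L 17)) (.L 17))) (.L 7))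
  (.G 50 130 2 1 1 1 [.n, .g 4 3 8882 0, .n, .n, .n])) (.T 1 2 (.L 58) (.L
  12))) (.T 2 1 (.L 15) (.C 0 1 1 1 (.L 12) (.G 92 42 0 1 1 1 [.g 4 3 0 0,
  .n, .n, .n])))) (.C 0 1 1 4 (.G 2 83 3 322 645 161 [.n, .g 64 11 0 0, .g
  32 13 0 0, .g 64 17 0 0]) (.T 1 2 (.C 1 2 2 1 (.L 4) (.L 48)) (.L
  29))))))) (.B 0 2 1 (.C 0 2 8 1 (.T 1 1 (.T 2 1 (.T 4 1 (.T 8 1 (.C 1 2 4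
  1 (.C 1 2 8 1 (.L 6) (.C 0 2 32 1 (.C 0 1 64 1 (.L 1) (.C 0 1 1 2 (.L 1)
  (.C 1 2 1 1 (.G 1 6 1 640267 160067 320133 [.n, .g 25 63 0 0, .n, .n, .n,
  .n]) (.L 1)))) (.C 0 1 1 1 (.G 164 1 1 192924 385848 96462 [.g 64 11 14 0,
  .g 64 13 16 0, .n, .n, .n]) (.T 16 1 (.T 32 1 (.O 4) (.G 1 47 0 925751
  462875 231438 [.n, .g 13 32 0 0, .n, .n, .n, .n])) (.T 1 2 (.T 2 1 (.G 1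
  59 1 883893 441946 220973 [.n, .g 25 63 0 0, .n, .n, .n, .n]) (.L 21)) (.L
  7)))))) (.C 1 2 1 2 (.L 13) (.O 4))) (.L 7)) (.L 52)) (.L 5)) (.C 0 1 4 1
  (.T 1 2 (.T 2 1 (.L 4) (.C 1 2 2 1 (.L 2) (.L 14))) (.T 1 4 (.C 1 2 2 1
  (.L 3) (.C 1 2 1 2 (.L 3) (.L 8))) (.C 0 1 8 1 (.C 1 2 1 1 (.C 1 2 2 1 (.T
  1 8 (.L 3) (.C 1 2 4 1 (.T 1 16 (.L 53) (.C 1 2 8 1 (.L 57) (.L 38))) (.T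
  1 16 (.L 218) (.O 4)))) (.T 1 8 (.T 2 1 (.L 22) (.L 24)) (.O 4))) (.O 4))
  (.L 61)))) (.T 1 2 (.C 1 2 4 1 (.L 2) (.G 2 49 2 7 27 13 [.n, .n, .g 64 17
  0 0, .g 64 31 0 0])) (.L 11)))) (.T 1 1 (.C 1 2 2 1 (.T 2 1 (.T 4 1 (.T 8
  1 (.C 0 1 1 4 (.C 0 1 2 1 (.O 4) (.L 13)) (.C 0 1 1 8 (.C 1 2 1 4 (.C 0 2
  4 1 (.C 0 1 2 1 (.G 150 128 3 11 46 91 [.g 32 7 0 0, .n, .g 2 5 9101 0,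
  .n]) (.G 372 17 3 908 454 1815 [.g 39 10 1034 0, .g 15 0 62 0, .g 64 9 0
  0, .g 18 2 63 0])) (.L 17)) (.L 13)) (.L 10))) (.L 7)) (.G 74 126 2 1 1 1
  [.n, .g 1 1 2735 0, .n, .n])) (.T 1 2 (.L 58) (.L 12))) (.T 2 1 (.L 15)
  (.C 0 1 1 1 (.L 12) (.G 92 42 0 1 1 1 [.g 4 3 0 0, .n, .n, .n])))) (.C 0 1
  1 4 (.G 2 103 3 31 62 15 [.n, .g 64 11 0 0, .g 32 13 0 0, .g 32 9 0 0])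
  (.T 1 2 (.C 1 2 2 1 (.L 4) (.L 48)) (.L 29))))) (.C 0 2 8 1 (.T 1 1 (.T 2
  1 (.T 4 1 (.T 8 1 (.C 1 2 4 1 (.C 1 2 8 1 (.L 6) (.C 0 2 32 1 (.C 0 1 64 1
  (.L 1) (.C 0 1 1 2 (.L 1) (.C 1 2 1 1 (.G 1 6 1 640267 160067 320133 [.n,
  .g 25 63 0 0, .n, .n, .n, .n]) (.L 1)))) (.C 0 1 1 1 (.G 164 1 1 192924
  385848 96462 [.g 64 11 14 0, .g 64 13 16 0, .n, .n, .n]) (.T 16 1 (.T 32 1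
  (.O 4) (.G 1 47 0 925751 462875 231438 [.n, .g 13 32 0 0, .n, .n, .n,
  .n])) (.T 1 2 (.T 2 1 (.G 1 472 3 883893 441946 220973 [.n, .g 13 32 0 0,
  .n, .n, .n, .n]) (.L 21)) (.L 7)))))) (.C 1 2 1 2 (.L 13) (.O 4))) (.L 7))
  (.L 52)) (.L 5)) (.C 0 1 4 1 (.T 1 2 (.T 2 1 (.L 4) (.C 1 2 2 1 (.L 4) (.L
  14))) (.C 0 1 8 1 (.C 1 2 1 1 (.T 1 4 (.L 3) (.C 1 2 2 1 (.T 1 8 (.L 3)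
  (.C 1 2 4 1 (.T 1 16 (.L 53) (.C 1 2 8 1 (.L 57) (.L 38))) (.T 1 16 (.L
  66) (.O 4)))) (.T 1 8 (.T 2 1 (.L 22) (.L 24)) (.O 4)))) (.L 8)) (.L 40)))
  (.T 1 2 (.C 1 2 4 1 (.L 2) (.G 2 49 2 7 27 13 [.n, .n, .g 32 9 0 0, .g 64
  33 0 0])) (.L 11)))) (.T 1 1 (.C 1 2 2 1 (.T 2 1 (.T 4 1 (.T 8 1 (.C 0 1 1
  4 (.G 87 704 0 1 1 1 [.n, .g 2 0 5271 0, .n, .n]) (.C 0 2 1 2 (.C 0 1 1 8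
  (.C 0 1 2 1 (.G 181 77 1 11 46 23 [.n, .g 1 2 3361 0, .g 64 25 0 0]) (.B 2
  2 1 (.L 241) (.L 832))) (.L 17)) (.L 17))) (.L 7)) (.G 126 98 4 1 1 1 [.n,
  .n, .g 1 1 4812 0, .n, .n])) (.T 1 2 (.L 58) (.L 12))) (.T 2 1 (.L 15) (.C
  0 1 1 1 (.L 12) (.G 92 42 0 1 1 1 [.g 4 3 0 0, .n, .n, .n])))) (.C 0 1 1 4
  (.G 2 103 3 31 62 15 [.n, .g 64 11 0 0, .g 64 27 0 0, .g 32 9 0 0]) (.T 1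
  2 (.C 1 2 2 1 (.L 4) (.L 48)) (.L 29))))))) (by decide +kernel)

theorem ES3_c4 : CoF ESTab ⟨⟨11510, 12100, 160000⟩, ⟨1576, 1694, 20000⟩,
  ⟨1635, 1635, 20000⟩, ⟨0, 1⟩, ⟨2, 1⟩, ⟨1, 0, 0⟩, ⟨0, 1, 0⟩, ⟨0, 1, 1⟩⟩ :=
CoF.ofG ESTab_B ESBt_E ESBt_U (.B 2 8 1 (.B 0 1 16 (.L 200) (.L 200)) (.B 0
  1 8 (.B 0 2 1 (.C 0 2 8 1 (.T 1 1 (.T 2 1 (.T 4 1 (.T 8 1 (.C 1 2 4 1 (.C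
  1 2 8 1 (.T 16 1 (.L 6) (.T 1 2 (.L 6) (.L 7))) (.C 0 2 32 1 (.C 0 1 64 1
  (.T 16 1 (.L 1) (.T 1 2 (.L 1) (.L 7))) (.T 16 1 (.C 1 2 1 1 (.G 36 16 1
  2223090 1111545 2223090 [.n, .g 32 7 0 0, .n, .n, .n, .n]) (.L 1)) (.T 1 2
  (.T 2 1 (.C 0 1 1 2 (.L 1) (.C 1 2 1 1 (.G 6 1 1 1277185 319296 638593
  [.n, .g 32 9 0 0, .n, .n, .n, .n]) (.L 1))) (.L 21)) (.L 7)))) (.C 0 1 1 1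
  (.C 1 2 1 4 (.G 16 1 4 3381 6763 13526 [.n, .n, .n, .n, .g 7 33 0 0, .n])
  (.T 16 1 (.O 4) (.G 376 77 1 85867 343469 42934 [.g 4 0 1 0, .g 64 0 31 0,
  .n, .n]))) (.T 16 1 (.T 32 1 (.O 4) (.C 0 2 1 4 (.C 0 1 1 2 (.L 1) (.C 0 1
  1 4 (.L 1) (.C 1 2 4 1 (.G 211 36 1 217 27 217 [.g 6 1 11121 0, .g 4 7 0
  0, .n, .g 1 0 1442 0]) (.G 72 1 1 10 10 5 [.g 128 1 0 0, .g 177 1 4093 0,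
  .n, .n, .n, .g 64 37 0 0])))) (.C 0 2 1 8 (.C 0 1 1 4 (.G 72 220 0 1 1 1
  [.g 1 0 321 0, .n, .n, .n, .n, .n]) (.G 228 201 1 99123 12390 99123 [.n,
  .n, .g 7 1023 4 0, .n, .n])) (.L 19)))) (.T 1 2 (.T 2 1 (.C 0 1 1 2 (.C 0
  2 1 4 (.L 1) (.G 122 1 1 416 416 52 [.g 2 5 4999 0, .n, .n, .n, .n, .n]))
  (.C 0 2 1 8 (.C 1 2 8 1 (.L 116) (.L 62)) (.L 19))) (.L 21)) (.L 7))))))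
  (.C 1 2 1 2 (.L 13) (.O 4))) (.L 7)) (.L 52)) (.L 5)) (.T 1 2 (.T 2 1 (.L
  4) (.C 1 2 4 1 (.L 2) (.C 1 2 1 2 (.L 4) (.L 14)))) (.C 0 1 4 1 (.T 1 4
  (.C 1 2 2 1 (.L 3) (.C 1 2 1 2 (.L 3) (.L 8))) (.C 0 1 8 1 (.C 1 2 1 1 (.C
  1 2 2 1 (.T 1 8 (.L 3) (.C 1 2 4 1 (.T 1 16 (.L 53) (.C 1 2 8 1 (.L 57)
  (.L 38))) (.T 1 16 (.L 66) (.O 4)))) (.T 1 8 (.T 2 1 (.L 22) (.L 24)) (.O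
  4))) (.O 4)) (.L 40))) (.L 11)))) (.T 1 1 (.C 1 2 2 1 (.T 2 1 (.T 4 1 (.T
  8 1 (.C 0 1 1 4 (.G 147 404 1 1 1 1 [.n, .g 1 0 3376 0, .n, .n]) (.C 0 2 1
  2 (.C 0 1 1 8 (.C 0 1 2 1 (.G 388 77 1 8 33 16 [.g 59 64 0 0, .g 6 7 16212
  0, .n, .n]) (.C 0 1 1 2 (.C 0 2 1 2 (.G 576 340 3 288 577 577 [.n, .g 3 3
  59 0, .g 77 1 205 0, .n]) (.L 17)) (.L 17))) (.L 17)) (.L 17))) (.L 7))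
  (.G 86 74 1 1 1 1 [.g 1 0 1358 0, .n, .n, .n, .n])) (.T 1 2 (.L 58) (.L
  12))) (.T 2 1 (.L 15) (.C 0 1 1 1 (.L 12) (.G 191 42 0 4 2 1 [.n, .g 64 35
  0 0, .n, .n])))) (.C 0 1 1 4 (.G 2 109 3 30 61 15 [.n, .g 64 11 0 0, .g 64
  31 0 0, .g 64 21 0 0]) (.T 1 2 (.C 1 2 2 1 (.L 4) (.L 48)) (.L 29))))) (.B
  0 1 2 (.B 2 2 1 (.L 188) (.B 0 2 1 (.B 2 1 2 (.L 102) (.B 2 1 4 (.L 168)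
  (.B 0 4 1 (.C 0 2 8 1 (.T 1 1 (.T 2 1 (.T 4 1 (.T 8 1 (.C 1 2 4 1 (.C 1 2
  8 1 (.L 6) (.C 0 2 32 1 (.C 0 1 64 1 (.L 1) (.C 0 1 1 2 (.L 1) (.C 1 2 1 1
  (.G 1 6 1 603599 150900 301799 [.n, .g 2 5 0 0, .n, .n, .n, .n]) (.L 1))))
  (.C 0 1 1 1 (.G 462 1 1 180045 360090 90022 [.g 64 10 13 0, .g 64 12 15 0,
  .n, .n]) (.T 16 1 (.T 32 1 (.O 4) (.C 0 2 1 4 (.C 0 1 1 2 (.L 1) (.C 0 1 1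
  4 (.L 1) (.C 1 2 4 1 (.G 6 236 3 540 68 540 [.n, .g 4 9 18235 0, .n, .n,
  .n, .n]) (.G 222 16 1 99 99 49 [.g 64 53 0 0, .g 8 3 0 0, .n, .n, .n,
  .n])))) (.C 0 1 1 4 (.G 90 246 0 1 1 1 [.g 1 0 20487 0, .n, .n, .n, .n,
  .n]) (.L 19)))) (.T 1 2 (.T 2 1 (.C 0 1 1 2 (.G 1 182 0 197 395 49 [.n, .g
  17 6 16698 0, .n, .n, .n, .n]) (.C 0 2 1 8 (.C 1 2 8 1 (.L 116) (.L 62))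
  (.L 19))) (.L 21)) (.L 7)))))) (.C 1 2 1 2 (.L 13) (.O 4))) (.L 7)) (.L
  52)) (.L 5)) (.T 1 2 (.T 2 1 (.L 4) (.C 1 2 4 1 (.L 2) (.C 1 2 1 2 (.L 4)
  (.L 14)))) (.C 0 1 4 1 (.C 0 1 8 1 (.C 1 2 1 1 (.T 1 4 (.L 3) (.C 1 2 2 1
  (.T 1 8 (.L 3) (.C 1 2 4 1 (.T 1 16 (.L 53) (.C 1 2 8 1 (.L 63) (.L 38)))
  (.T 1 16 (.L 66) (.O 4)))) (.T 1 8 (.T 2 1 (.L 22) (.L 24)) (.O 4)))) (.L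
  8)) (.L 40)) (.L 11)))) (.T 1 1 (.C 1 2 2 1 (.T 2 1 (.T 4 1 (.T 8 1 (.C 0
  1 1 4 (.G 87 312 3 1 1 1 [.n, .g 1 0 2858 0, .n, .n]) (.C 0 2 1 2 (.C 0 1
  1 8 (.C 0 1 2 1 (.G 181 214 1 5 18 9 [.n, .g 2 3 6749 0, .g 64 19 0 0])
  (.L 896)) (.L 17)) (.L 17))) (.L 7)) (.G 86 74 1 1 1 1 [.g 1 0 1320 0, .n,
  .n, .n, .n])) (.T 1 2 (.L 58) (.L 12))) (.T 2 1 (.L 15) (.C 0 1 1 1 (.L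
  12) (.G 191 42 0 4 2 1 [.n, .g 64 35 0 0, .n, .n])))) (.C 0 1 1 4 (.G 2
  109 3 30 61 15 [.n, .g 64 11 0 0, .g 64 31 0 0, .g 64 21 0 0]) (.T 1 2 (.C
  1 2 2 1 (.L 4) (.L 48)) (.L 29))))) (.L 168)))) (.L 102))) (.L 188))) (.L
  200))) (by decide +kernel)

theorem ES3_c5 : CoF ESTab ⟨⟨1936, 2054, 40000⟩, ⟨5088, 5442, 80000⟩, ⟨5206,
  5324, 80000⟩, ⟨0, 1⟩, ⟨2, 1⟩, ⟨1, 0, 0⟩, ⟨0, 1, 0⟩, ⟨0, 1, 1⟩⟩ :=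
CoF.ofG ESTab_B ESBt_E ESBt_U (.B 0 2 1 (.B 2 1 2 (.C 0 2 8 1 (.T 1 1 (.T 2
  1 (.T 4 1 (.T 8 1 (.C 1 2 4 1 (.C 1 2 8 1 (.T 16 1 (.T 32 1 (.C 0 2 64 1
  (.C 0 2 128 1 (.C 0 1 4 1 (.C 1 2 32 1 (.L 37) (.C 0 1 512 1 (.C 1 2 1 4
  (.B 1 1 2 (.L 105) (.B 2 2 1 (.C 1 2 2 1 (.L 95) (.L 36)) (.L 105))) (.L
  36)) (.L 43))) (.L 43)) (.L 43)) (.G 124 430 1 50 2 25 [.n, .n, .n, .g 1 2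
  675 0])) (.L 6)) (.L 6)) (.T 16 1 (.C 0 1 64 1 (.C 1 2 1 4 (.L 16) (.O 4))
  (.G 1 47 0 2679389 1339695 669847 [.n, .g 22 63 0 0, .n, .n, .n, .g 32768
  0 1 0])) (.T 1 2 (.T 2 1 (.C 0 1 64 1 (.C 1 2 1 4 (.L 1) (.O 4)) (.G 1 59
  1 1620187 810093 405047 [.n, .g 22 63 0 0, .n, .n, .n, .n])) (.L 132)) (.L
  7)))) (.C 1 2 1 2 (.L 13) (.O 4))) (.L 9)) (.L 18)) (.L 5)) (.C 0 1 4 1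
  (.T 1 2 (.T 2 1 (.L 4) (.C 1 2 2 1 (.L 2) (.L 14))) (.C 0 1 8 1 (.C 1 2 1
  1 (.T 1 4 (.L 3) (.C 1 2 2 1 (.T 1 8 (.L 3) (.C 1 2 4 1 (.T 1 16 (.L 53)
  (.C 1 2 8 1 (.L 57) (.L 38))) (.T 1 16 (.L 66) (.O 4)))) (.T 1 8 (.T 2 1
  (.L 22) (.L 24)) (.O 4)))) (.L 8)) (.L 40))) (.T 1 2 (.C 1 2 4 1 (.L 2)
  (.G 4 11 1 4 16 8 [.n, .n, .g 1 0 3073 0, .g 1 1 4556 0])) (.L 11)))) (.T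
  1 1 (.C 1 2 2 1 (.C 0 1 1 4 (.T 2 1 (.C 0 1 2 1 (.G 114 106 2 1 1 1 [.n,
  .g 6 67 0 0, .n, .n]) (.T 4 1 (.G 640 7 0 262308 131154 65577 [.n, .n, .g
  21 64 0 0, .n, .g 17 64 18 0, .n]) (.L 44))) (.G 26 58 3 1 1 1 [.g 31 32 0
  0, .n, .n, .g 64 53 0 0, .g 64 15 0 0])) (.C 0 2 1 2 (.C 0 1 1 8 (.T 2 1
  (.T 4 1 (.T 8 1 (.C 0 1 2 1 (.G 154 113 0 18 72 36 [.g 32 7 0 0, .n, .g 57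
  64 0 0, .g 5 1 1034 0]) (.G 234 124 3 9 5 5 [.g 64 51 0 0, .n, .n, .n]))
  (.L 9)) (.L 33)) (.L 5)) (.L 20)) (.L 20))) (.T 2 1 (.L 15) (.T 1 2 (.L
  34) (.L 12)))) (.C 0 1 1 4 (.G 2 41 4 23 47 12 [.n, .g 32 5 0 0, .g 64 25
  0 0, .g 64 17 0 0]) (.T 1 2 (.C 1 2 2 1 (.L 4) (.L 48)) (.L 29))))) (.C 0
  2 8 1 (.T 1 1 (.T 2 1 (.T 4 1 (.T 8 1 (.C 1 2 4 1 (.T 16 1 (.T 32 1 (.C 0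
  2 32 1 (.L 73) (.L 140)) (.C 0 2 32 1 (.L 1) (.C 0 2 1 2 (.L 1) (.C 0 2 1
  4 (.L 1) (.L 96))))) (.C 1 2 8 1 (.L 6) (.T 1 2 (.B 2 1 4 (.T 2 1 (.T 4 1
  (.L 179) (.B 2 2 1 (.B 2 4 1 (.T 1 2 (.T 2 1 (.L 179) (.B 2 8 1 (.C 0 1 64
  1 (.C 1 2 1 4 (.L 1) (.O 4)) (.G 1 59 1 1904953 952477 476238 [.n, .g 9 32
  0 0, .n, .n, .n, .n])) (.L 32))) (.L 302)) (.L 32)) (.L 32))) (.L 768))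
  (.L 32)) (.L 81)))) (.C 1 2 1 2 (.L 500) (.O 4))) (.L 9)) (.L 18)) (.L 5))
  (.C 0 1 4 1 (.T 1 2 (.T 2 1 (.L 4) (.C 1 2 2 1 (.L 2) (.L 14))) (.C 0 1 8
  1 (.C 1 2 1 1 (.T 1 4 (.L 3) (.C 1 2 2 1 (.T 1 8 (.L 3) (.C 1 2 4 1 (.T 1
  16 (.L 53) (.C 1 2 8 1 (.L 63) (.L 38))) (.T 1 16 (.L 66) (.O 4)))) (.T 1
  8 (.T 2 1 (.L 22) (.L 24)) (.O 4)))) (.L 8)) (.L 60))) (.T 1 2 (.C 1 2 4 1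
  (.L 2) (.G 2 11 1 5 20 10 [.n, .n, .g 1 0 1447 0, .g 2 1 3888 0])) (.L
  11)))) (.T 1 1 (.C 1 2 2 1 (.C 0 1 1 4 (.T 2 1 (.C 0 1 2 1 (.G 270 227 3 1
  1 1 [.n, .n, .n, .n, .g 8192 1 0 0, .g 1024 1 0 0]) (.T 4 1 (.C 0 1 1 2
  (.L 93) (.G 320 512 0 172012 43003 21502 [.n, .n, .n, .g 19 32 0 0, .g 19
  64 24 0, .n])) (.L 44))) (.G 26 56 3 1 1 1 [.g 64 47 0 0, .n, .n, .g 16 13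
  0 0, .n])) (.C 0 2 1 2 (.C 0 1 1 8 (.T 2 1 (.T 4 1 (.C 0 1 2 1 (.T 8 1 (.G
  336 81 0 2 9 5 [.n, .n, .g 64 19 0 0, .g 6 11 15712 0]) (.L 9)) (.L 156))
  (.L 33)) (.L 5)) (.L 10)) (.L 10))) (.T 2 1 (.L 15) (.T 1 2 (.L 34) (.L
  12)))) (.C 0 1 1 4 (.G 2 27 3 292 584 146 [.n, .g 16 3 0 0, .g 2 1 0 0, .g
  64 23 0 0]) (.T 1 2 (.T 2 1 (.L 4) (.L 23)) (.L 29)))))) (.B 2 2 1 (.C 0 2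
  8 1 (.T 1 1 (.T 2 1 (.T 4 1 (.T 8 1 (.C 1 2 4 1 (.C 1 2 8 1 (.T 16 1 (.T
  32 1 (.C 1 2 16 1 (.C 0 2 128 1 (.L 95) (.C 0 2 1 2 (.L 157) (.L 230)))
  (.L 36)) (.L 6)) (.L 6)) (.C 0 1 64 1 (.T 16 1 (.C 1 2 1 4 (.L 16) (.O 4))
  (.T 1 2 (.T 2 1 (.C 1 2 1 4 (.L 1) (.O 4)) (.L 132)) (.L 7))) (.C 0 2 1 4
  (.T 16 1 (.G 16 47 0 1682358 841179 3364716 [.n, .g 25 64 0 0, .n, .n, .n,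
  .n]) (.C 0 1 1 2 (.L 1) (.C 0 1 1 4 (.L 1) (.G 166 1 1 1677560 209695
  838780 [.n, .g 8 1 0 0, .g 2 1 0 0, .g 4 1 0 0, .n])))) (.C 0 1 1 4 (.T 16
  1 (.C 1 2 1 16 (.L 16) (.O 4)) (.G 117 1 1 1030655 2061310 128832 [.n, .n,
  .n, .g 256 42 17 0])) (.T 16 1 (.C 0 1 1 8 (.G 1 121 2 743846 1487693
  46490 [.n, .g 15 32 0 0, .n, .n, .n, .g 1024 0 1 0]) (.L 96)) (.C 1 2 1 2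
  (.G 85 75 0 8388607 1048576 2097152 [.n, .n, .g 1 112 0 0, .g 1 117 0 0,
  .g 1 46 0 0, .g 1 48 0 0]) (.T 1 2 (.T 2 1 (.G 193 211 3 1 1 1 [.g 64 11 0
  0, .g 64 51 0 0, .g 1 5 111434 0, .g 1 83 132551 0, .n, .n]) (.L 169)) (.L
  7)))))))) (.C 1 2 1 2 (.L 13) (.O 4))) (.L 9)) (.L 18)) (.L 5)) (.C 0 1 4
  1 (.T 1 2 (.T 2 1 (.L 4) (.C 1 2 2 1 (.L 2) (.L 14))) (.C 0 1 8 1 (.C 1 2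
  1 1 (.T 1 4 (.L 3) (.C 1 2 2 1 (.T 1 8 (.L 3) (.C 1 2 4 1 (.T 1 16 (.L 53)
  (.C 1 2 8 1 (.L 57) (.L 38))) (.T 1 16 (.L 66) (.O 4)))) (.T 1 8 (.T 2 1
  (.L 22) (.L 24)) (.O 4)))) (.L 8)) (.L 40))) (.T 1 2 (.C 1 2 4 1 (.L 2)
  (.G 49 216 1 3 11 6 [.n, .n, .g 9 2 8321 0, .n, .n])) (.L 11)))) (.T 1 1
  (.C 1 2 2 1 (.T 2 1 (.T 4 1 (.T 8 1 (.C 0 1 1 4 (.C 0 1 2 1 (.O 4) (.L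
  13)) (.C 0 2 1 2 (.C 0 1 1 8 (.C 0 1 2 1 (.G 154 117 3 10 40 20 [.g 8 3 0
  0, .n, .g 51 64 0 0, .g 5 1 986 0]) (.L 207)) (.L 20)) (.L 20))) (.L 9))
  (.G 383 511 1 1 1 1 [.n, .n, .g 1 9 5955 0, .n])) (.T 1 2 (.L 34) (.L
  12))) (.T 2 1 (.L 15) (.T 1 2 (.L 34) (.L 12)))) (.C 0 1 1 4 (.G 2 27 3
  292 584 146 [.n, .g 16 3 0 0, .g 64 33 0 0, .g 64 23 0 0]) (.T 1 2 (.C 1 2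
  2 1 (.L 4) (.L 48)) (.L 29))))) (.C 0 2 8 1 (.T 1 1 (.T 2 1 (.T 4 1 (.T 8
  1 (.C 1 2 4 1 (.C 0 1 4 1 (.C 0 1 8 1 (.C 1 2 2 1 (.T 16 1 (.T 32 1 (.C 1
  2 4 1 (.B 0 1 2 (.L 157) (.T 64 1 (.L 447) (.L 6))) (.O 4)) (.L 1)) (.L
  1)) (.T 16 1 (.O 4) (.C 0 2 32 1 (.L 1) (.G 16 164 1 795071 795071 397536
  [.n, .g 8 63 3 0, .n, .n, .n, .n])))) (.T 16 1 (.T 32 1 (.G 229 37 1 40440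
  20220 80880 [.n, .g 37 64 49 0, .n, .n, .n, .n, .n, .n]) (.G 6 1 1 53194
  26597 106388 [.n, .g 21 26 32 0, .n, .n, .n, .n])) (.G 1 91 0 68234 34117
  136468 [.n, .g 13 62 7 0, .n, .n, .n, .n]))) (.C 0 2 4 1 (.T 16 1 (.T 32 1
  (.L 37) (.L 1)) (.L 1)) (.C 1 2 8 1 (.C 0 1 1 16 (.T 16 1 (.T 32 1 (.L 36)
  (.G 6 1 1 629444 1258889 629444 [.n, .g 64 17 0 0, .n, .n, .n, .n])) (.G 1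
  6 1 192351 384703 192351 [.n, .g 3 8 0 0, .n, .n, .n, .n])) (.L 124)) (.C
  0 1 1 1 (.G 1 165 0 39 78 20 [.n, .g 2 2 4647 0, .n, .n, .n, .g 9 0 16 0])
  (.T 16 1 (.C 0 2 1 4 (.G 319 36 1 1043760 521880 2087519 [.g 8192 1866 25
  0, .g 32 17 0 0, .g 64 1 3 0, .g 64 0 3 0]) (.L 96)) (.C 1 2 1 2 (.G 85 75
  0 8388607 4194304 8388607 [.n, .n, .g 1 119 0 0, .g 1 124 0 0, .g 2 55 0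
  0, .g 1 29 0 0]) (.C 1 2 1 4 (.G 508 123 3 308 308 616 [.g 4 1 0 0, .g 32
  21 0 0, .n, .n]) (.L 108)))))))) (.C 1 2 1 2 (.L 13) (.O 4))) (.L 9)) (.L
  18)) (.L 5)) (.C 0 1 4 1 (.T 1 2 (.T 2 1 (.L 4) (.C 1 2 2 1 (.L 2) (.L
  14))) (.C 0 1 8 1 (.C 1 2 1 1 (.T 1 4 (.L 3) (.C 1 2 2 1 (.T 1 8 (.L 3)
  (.C 1 2 4 1 (.T 1 16 (.L 53) (.C 1 2 8 1 (.L 63) (.L 38))) (.T 1 16 (.L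
  66) (.O 4)))) (.T 1 8 (.T 2 1 (.L 22) (.L 24)) (.O 4)))) (.L 8)) (.L 60)))
  (.T 1 2 (.C 1 2 4 1 (.L 2) (.G 2 65 1 6 23 11 [.n, .n, .g 1 0 1566 0, .g 2
  1 4100 0])) (.L 11)))) (.T 1 1 (.C 1 2 2 1 (.C 0 1 1 4 (.T 2 1 (.C 0 1 2 1
  (.G 114 106 2 1 1 1 [.n, .g 1 11 0 0, .n, .n]) (.T 4 1 (.C 0 1 1 2 (.L 93)
  (.T 8 1 (.L 13) (.L 9))) (.L 44))) (.G 26 56 3 1 1 1 [.g 64 47 0 0, .n,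
  .n, .g 16 13 0 0, .g 64 11 0 0])) (.C 0 2 1 2 (.C 0 1 1 8 (.T 2 1 (.T 4 1
  (.T 8 1 (.C 1 2 1 1 (.C 0 1 2 1 (.T 16 1 (.O 4) (.G 154 21 2 5 22 22 [.g
  16 7 0 0, .n, .g 16 7 0 0, .g 137 15 32667 0])) (.L 124)) (.G 13 7 0 19398
  77592 38796 [.g 49 63 16 0, .n, .n])) (.L 9)) (.L 33)) (.L 5)) (.L 10))
  (.L 10))) (.T 2 1 (.L 15) (.T 1 2 (.L 34) (.L 12)))) (.C 0 1 1 4 (.G 2 41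
  4 23 46 12 [.n, .g 32 5 0 0, .g 64 25 0 0, .g 64 17 0 0]) (.T 1 2 (.C 1 2
  2 1 (.L 4) (.L 48)) (.L 29))))))) (by decide +kernel)

theorem ES3_c6 : CoF ESTab ⟨⟨5088, 5442, 80000⟩, ⟨1576, 1694, 20000⟩,
  ⟨11510, 12100, 160000⟩, ⟨0, 1⟩, ⟨2, 1⟩, ⟨1, 0, 0⟩, ⟨0, 1, 0⟩, ⟨0, 1, 1⟩⟩
  :=
CoF.ofG ESTab_B ESBt_E ESBt_U (.B 0 1 4 (.C 0 2 8 1 (.T 1 1 (.T 2 1 (.T 4 1
  (.T 8 1 (.C 1 2 4 1 (.C 1 2 8 1 (.L 6) (.C 0 2 32 1 (.C 0 1 64 1 (.L 1)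
  (.C 0 1 1 2 (.L 1) (.C 1 2 1 1 (.G 1 6 1 617130 154283 308565 [.n, .g 25
  63 0 0, .n, .n, .n, .n]) (.L 1)))) (.C 0 1 1 1 (.G 145 1 1 184800 369600
  92400 [.n, .g 64 10 9 0, .g 64 13 17 0, .n]) (.T 16 1 (.T 32 1 (.O 4) (.G
  1 47 0 881775 440888 220444 [.n, .g 13 32 0 0, .n, .n, .n, .n])) (.T 1 2
  (.T 2 1 (.G 1 59 1 844313 422156 211078 [.n, .g 25 64 0 0, .n, .n, .n,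
  .n]) (.L 21)) (.L 7)))))) (.C 1 2 1 2 (.L 13) (.O 4))) (.L 9)) (.L 52))
  (.L 5)) (.C 0 1 4 1 (.T 1 2 (.T 2 1 (.L 4) (.C 1 2 2 1 (.L 4) (.L 14)))
  (.C 0 1 8 1 (.C 1 2 1 1 (.T 1 4 (.L 3) (.C 1 2 2 1 (.T 1 8 (.L 3) (.C 1 2
  4 1 (.T 1 16 (.L 53) (.C 1 2 8 1 (.L 63) (.L 38))) (.T 1 16 (.L 66) (.O
  4)))) (.T 1 8 (.T 2 1 (.L 22) (.L 24)) (.O 4)))) (.L 8)) (.L 40))) (.T 1 2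
  (.C 1 2 4 1 (.L 2) (.G 2 49 2 7 27 13 [.n, .n, .g 64 19 0 0, .g 32 17 0
  0])) (.L 11)))) (.T 1 1 (.C 1 2 2 1 (.T 2 1 (.T 4 1 (.T 8 1 (.C 0 1 1 4
  (.C 0 1 2 1 (.O 4) (.L 13)) (.C 0 1 1 8 (.C 1 2 1 4 (.C 0 2 4 1 (.T 16 1
  (.G 452 479 3 11771 23541 94165 [.n, .n, .g 8 0 7 0, .n, .n]) (.T 1 2 (.G
  169 17 3 1 1 1 [.n, .n, .g 1 0 993 0, .g 64 7 0 0]) (.L 7))) (.L 17)) (.L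
  13)) (.L 10))) (.L 9)) (.G 86 130 2 1 1 1 [.g 1 0 1294 0, .n, .n, .n,
  .n])) (.T 1 2 (.L 56) (.L 12))) (.T 2 1 (.L 15) (.T 1 2 (.L 56) (.L 12))))
  (.C 0 1 1 4 (.G 2 27 3 290 580 145 [.n, .g 16 3 0 0, .g 32 17 0 0, .g 8 3
  0 0]) (.T 1 2 (.C 1 2 2 1 (.L 4) (.L 48)) (.L 29))))) (.C 0 2 8 1 (.B 0 1
  8 (.T 1 1 (.T 2 1 (.T 4 1 (.T 8 1 (.C 1 2 4 1 (.C 1 2 8 1 (.T 16 1 (.L 6)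
  (.T 1 2 (.L 6) (.L 7))) (.C 0 2 32 1 (.C 0 1 64 1 (.T 16 1 (.L 1) (.T 1 2
  (.L 1) (.L 7))) (.T 16 1 (.C 1 2 1 1 (.G 36 16 1 2184724 1092362 2184724
  [.n, .g 32 7 0 0, .n, .n, .n, .n]) (.L 1)) (.T 1 2 (.C 0 1 1 2 (.L 1) (.C
  1 2 1 1 (.G 6 1 1 904730 226182 452365 [.n, .g 64 21 0 0, .n, .n, .n, .n])
  (.L 1))) (.L 7)))) (.C 0 1 1 1 (.C 1 2 1 4 (.G 1 16 4 3196 6391 12783 [.n,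
  .n, .n, .n, .g 16 1 0 0, .n]) (.T 16 1 (.O 4) (.G 21 128 3 100387 401549
  50194 [.n, .g 64 0 23 0, .g 32 0 13 0, .n]))) (.T 16 1 (.T 32 1 (.O 4) (.C
  0 2 1 4 (.C 0 1 1 2 (.L 1) (.C 0 1 1 4 (.L 1) (.C 1 2 4 1 (.G 236 6 1 532
  67 532 [.n, .n, .n, .g 8 3 16384 0]) (.G 72 16 1 13 13 7 [.g 128 1 0 0, .g
  256 1 0 0, .n, .n, .n, .g 1 1 0 0])))) (.C 0 2 1 8 (.C 0 1 1 4 (.G 72 220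
  0 1 1 1 [.g 1 0 321 0, .n, .n, .n, .n, .n]) (.G 228 201 1 69243 8655 69243
  [.n, .n, .g 1 187 1 0, .n, .n])) (.L 19)))) (.T 1 2 (.T 2 1 (.C 0 1 1 2
  (.C 0 2 1 4 (.L 1) (.G 122 1 1 396 396 49 [.g 2 5 5080 0, .n, .n, .n, .n,
  .n])) (.C 0 2 1 8 (.C 1 2 8 1 (.L 116) (.L 62)) (.L 19))) (.L 21)) (.L
  7)))))) (.C 1 2 1 2 (.L 13) (.O 4))) (.L 7)) (.L 52)) (.L 5)) (.T 1 2 (.T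
  2 1 (.L 4) (.C 1 2 4 1 (.L 2) (.C 1 2 1 2 (.L 4) (.L 14)))) (.C 0 1 4 1
  (.C 0 1 8 1 (.C 1 2 1 1 (.T 1 4 (.L 3) (.C 1 2 2 1 (.T 1 8 (.L 3) (.C 1 2
  4 1 (.T 1 16 (.L 53) (.C 1 2 8 1 (.L 63) (.L 38))) (.T 1 16 (.C 1 2 1 2
  (.L 351) (.L 38)) (.O 4)))) (.T 1 8 (.T 2 1 (.L 22) (.L 24)) (.O 4)))) (.L
  8)) (.L 40)) (.L 11)))) (.B 1 8 1 (.L 200) (.B 2 2 1 (.T 1 1 (.T 2 1 (.T 4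
  1 (.T 8 1 (.C 1 2 4 1 (.C 1 2 8 1 (.T 16 1 (.L 6) (.T 1 2 (.L 6) (.L 7)))
  (.C 0 2 32 1 (.C 0 1 64 1 (.T 16 1 (.L 1) (.T 1 2 (.L 1) (.L 7))) (.T 16 1
  (.C 1 2 1 1 (.G 36 16 1 2223047 1111524 2223047 [.n, .g 32 7 0 0, .n, .n,
  .n, .n]) (.L 1)) (.T 1 2 (.C 0 1 1 2 (.L 1) (.C 1 2 1 1 (.G 6 1 1 924501
  231125 462251 [.n, .g 64 21 0 0, .n, .n, .n, .n]) (.L 1))) (.L 7)))) (.C 0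
  1 1 1 (.C 1 2 1 4 (.G 16 1 4 3382 6764 13528 [.n, .n, .n, .n, .g 7 33 0 0,
  .n]) (.T 16 1 (.O 4) (.G 376 128 3 95146 380585 47573 [.g 64 0 15 0, .g 16
  0 7 0, .n, .n]))) (.T 16 1 (.T 32 1 (.O 4) (.C 0 2 1 4 (.C 0 1 1 2 (.L 1)
  (.C 0 1 1 4 (.L 1) (.C 1 2 4 1 (.G 6 236 3 549 69 549 [.n, .g 1 3 6130 0,
  .n, .n, .n, .n]) (.G 72 16 1 16 16 8 [.g 256 3 0 0, .g 256 1 0 0, .n, .n,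
  .n, .g 52 63 0 0])))) (.C 0 2 1 8 (.C 0 1 1 4 (.G 90 220 0 1 1 1 [.g 1 0
  20421 0, .n, .n, .n, .n, .n]) (.G 121 292 0 249576 31197 249576 [.n, .n,
  .n, .g 49 64 7 0, .n])) (.L 19)))) (.T 1 2 (.T 2 1 (.C 0 1 1 2 (.C 0 2 1 4
  (.L 1) (.G 122 1 1 416 416 52 [.g 2 5 4995 0, .n, .n, .n, .n, .n])) (.C 0
  2 1 8 (.C 1 2 8 1 (.L 116) (.L 62)) (.L 19))) (.L 21)) (.L 7)))))) (.C 1 2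
  1 2 (.L 13) (.O 4))) (.L 7)) (.L 52)) (.L 5)) (.T 1 2 (.T 2 1 (.L 4) (.C 1
  2 4 1 (.L 2) (.C 1 2 1 2 (.L 4) (.L 14)))) (.C 0 1 4 1 (.C 0 1 8 1 (.C 1 2
  1 1 (.T 1 4 (.L 3) (.C 1 2 2 1 (.T 1 8 (.L 3) (.C 1 2 4 1 (.T 1 16 (.L 53)
  (.C 1 2 8 1 (.L 63) (.L 38))) (.T 1 16 (.L 66) (.O 4)))) (.T 1 8 (.T 2 1
  (.L 22) (.L 24)) (.O 4)))) (.L 8)) (.L 40)) (.L 11)))) (.B 2 1 2 (.B 1 2 1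
  (.L 188) (.B 2 2 1 (.B 1 1 2 (.L 102) (.B 2 4 1 (.B 1 1 4 (.L 102) (.B 2 8
  1 (.T 1 1 (.T 2 1 (.T 4 1 (.T 8 1 (.C 1 2 4 1 (.C 1 2 8 1 (.L 6) (.C 0 2
  32 1 (.C 0 1 64 1 (.L 1) (.C 0 1 1 2 (.L 1) (.C 1 2 1 1 (.G 1 6 1 604261
  151065 302130 [.n, .g 2 5 0 0, .n, .n, .n, .n]) (.L 1)))) (.C 0 1 1 1 (.G
  462 1 1 180285 360570 90143 [.g 64 10 13 0, .g 64 12 15 0, .n, .n]) (.T 16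
  1 (.T 32 1 (.O 4) (.C 0 2 1 4 (.C 0 1 1 2 (.L 1) (.C 0 1 1 4 (.L 1) (.C 1
  2 4 1 (.G 6 236 3 548 68 548 [.n, .g 1 2 4008 0, .n, .n, .n, .n]) (.G 222
  16 1 99 99 50 [.g 32 27 0 0, .g 8 3 0 0, .n, .n, .n, .n])))) (.C 0 1 1 4
  (.G 90 246 0 1 1 1 [.g 1 0 20488 0, .n, .n, .n, .n, .n]) (.L 19)))) (.T 1
  2 (.T 2 1 (.C 0 1 1 2 (.G 1 122 0 198 396 49 [.n, .g 17 6 16696 0, .n, .n,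
  .n, .n]) (.C 0 2 1 8 (.C 1 2 8 1 (.L 116) (.L 62)) (.L 19))) (.L 21)) (.L
  7)))))) (.C 1 2 1 2 (.L 13) (.O 4))) (.L 7)) (.L 52)) (.L 5)) (.T 1 2 (.T
  2 1 (.L 4) (.C 1 2 4 1 (.L 2) (.C 1 2 1 2 (.L 4) (.L 14)))) (.C 0 1 4 1
  (.C 0 1 8 1 (.C 1 2 1 1 (.T 1 4 (.L 3) (.C 1 2 2 1 (.T 1 8 (.L 3) (.C 1 2
  4 1 (.T 1 16 (.L 53) (.C 1 2 8 1 (.L 63) (.L 25))) (.T 1 16 (.L 66) (.O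
  4)))) (.T 1 8 (.T 2 1 (.L 22) (.L 24)) (.O 4)))) (.L 8)) (.L 40)) (.L
  11)))) (.B 2 1 2 (.B 1 2 1 (.L 102) (.B 2 2 1 (.B 1 1 2 (.L 102) (.B 2 4 1
  (.B 1 1 4 (.L 102) (.B 2 8 1 (.B 1 1 8 (.B 2 1 1 (.B 1 2 1 (.L 168) (.B 2
  2 1 (.B 1 1 2 (.L 168) (.B 1 1 4 (.L 168) (.B 1 1 8 (.L 168) (.B 1 1 16
  (.L 168) (.T 1 1 (.T 2 1 (.T 4 1 (.T 8 1 (.C 1 2 4 1 (.C 1 2 8 1 (.L 6)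
  (.C 0 2 32 1 (.C 0 1 64 1 (.L 1) (.C 0 1 1 2 (.L 1) (.C 1 2 1 1 (.G 1 6 1
  604212 151053 302106 [.n, .g 2 5 0 0, .n, .n, .n, .n]) (.L 1)))) (.C 0 1 1
  1 (.G 504 1 1 180268 360536 90134 [.g 64 13 17 0, .n, .n, .g 4096 23 30
  0]) (.T 16 1 (.T 32 1 (.O 4) (.C 0 2 1 4 (.C 0 1 1 2 (.L 1) (.C 0 1 1 4
  (.L 1) (.C 1 2 4 1 (.G 36 236 3 601 75 601 [.n, .g 5 9 17239 0, .n, .n,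
  .n, .n]) (.G 222 16 1 99 99 50 [.g 32 27 0 0, .g 8 3 0 0, .n, .n, .n,
  .n])))) (.C 0 1 1 4 (.G 90 247 0 1 1 1 [.g 1 0 20361 0, .n, .n, .n, .n,
  .n]) (.L 19)))) (.T 1 2 (.T 2 1 (.C 0 1 1 2 (.G 1 122 0 198 396 49 [.n, .g
  17 6 16711 0, .n, .n, .n, .n]) (.C 0 2 1 8 (.C 1 2 8 1 (.L 116) (.L 62))
  (.L 19))) (.L 21)) (.L 7)))))) (.C 1 2 1 2 (.L 13) (.O 4))) (.L 7)) (.L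
  52)) (.L 5)) (.T 1 2 (.T 2 1 (.L 4) (.C 1 2 4 1 (.L 2) (.C 1 2 1 2 (.L 4)
  (.L 14)))) (.C 0 1 4 1 (.C 0 1 8 1 (.C 1 2 1 1 (.T 1 4 (.L 3) (.C 1 2 2 1
  (.T 1 8 (.L 3) (.C 1 2 4 1 (.T 1 16 (.L 53) (.C 1 2 8 1 (.L 63) (.L 25)))
  (.T 1 16 (.L 66) (.O 4)))) (.T 1 8 (.T 2 1 (.L 22) (.L 24)) (.O 4)))) (.L
  8)) (.L 40)) (.L 11)))))))) (.L 168))) (.L 168)) (.T 1 1 (.T 2 1 (.T 4 1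
  (.T 8 1 (.C 1 2 4 1 (.C 1 2 8 1 (.L 6) (.C 0 2 32 1 (.C 0 1 64 1 (.L 1)
  (.C 0 1 1 2 (.L 1) (.C 1 2 1 1 (.G 1 6 1 604213 151053 302107 [.n, .g 2 5
  0 0, .n, .n, .n, .n]) (.L 1)))) (.C 0 1 1 1 (.G 91 1 1 180268 360537 90134
  [.g 64 13 18 0, .n, .n, .g 1024 3 4 0]) (.T 16 1 (.T 32 1 (.O 4) (.C 0 2 1
  4 (.C 0 1 1 2 (.L 1) (.C 0 1 1 4 (.L 1) (.C 1 2 4 1 (.G 6 236 3 548 68 548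
  [.n, .g 1 2 3879 0, .n, .n, .n, .n]) (.G 222 16 1 99 99 50 [.g 32 27 0 0,
  .g 8 3 0 0, .n, .n, .n, .n])))) (.C 0 1 1 4 (.G 90 247 0 1 1 1 [.g 1 0
  20361 0, .n, .n, .n, .n, .n]) (.L 19)))) (.T 1 2 (.T 2 1 (.C 0 1 1 2 (.G 1
  122 0 198 396 49 [.n, .g 17 6 16711 0, .n, .n, .n, .n]) (.C 0 2 1 8 (.C 1
  2 8 1 (.L 116) (.L 62)) (.L 19))) (.L 21)) (.L 7)))))) (.C 1 2 1 2 (.L 13)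
  (.O 4))) (.L 7)) (.L 52)) (.L 5)) (.T 1 2 (.T 2 1 (.L 4) (.C 1 2 4 1 (.L
  2) (.C 1 2 1 2 (.L 4) (.L 14)))) (.C 0 1 4 1 (.C 0 1 8 1 (.C 1 2 1 1 (.T 1
  4 (.L 3) (.C 1 2 2 1 (.T 1 8 (.L 3) (.C 1 2 4 1 (.T 1 16 (.L 53) (.C 1 2 8
  1 (.L 63) (.L 25))) (.T 1 16 (.L 66) (.O 4)))) (.T 1 8 (.T 2 1 (.L 22) (.L
  24)) (.O 4)))) (.L 8)) (.L 40)) (.L 11))))) (.L 168))) (.L 102))) (.L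
  102))) (.L 102)))) (.L 102))) (.L 102))) (.L 188))))) (.T 1 1 (.C 1 2 2 1
  (.T 2 1 (.T 4 1 (.T 8 1 (.C 0 1 1 4 (.G 415 147 1 1 1 1 [.n, .g 10 19
  63126 0, .n, .n, .n]) (.C 0 2 1 2 (.C 0 1 1 8 (.C 0 1 2 1 (.C 1 2 1 2 (.G
  108 128 3 10 38 76 [.g 2 0 75 0, .n, .g 1 0 1059 0, .g 64 3 0 0]) (.L 13))
  (.G 334 340 3 298 149 149 [.g 13 11 1055 0, .g 1 0 49 0, .n, .g 64 11 0 0,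
  .g 57 64 0 0])) (.L 17)) (.L 17))) (.L 7)) (.G 86 50 1 1 1 1 [.g 1 2 3407
  0, .n, .n, .n, .n])) (.T 1 2 (.L 58) (.L 12))) (.T 2 1 (.L 15) (.C 0 1 1 1
  (.L 12) (.G 92 42 0 1 1 1 [.g 4 3 0 0, .n, .n, .n])))) (.C 0 1 1 4 (.G 2
  83 3 324 647 162 [.n, .g 64 11 0 0, .g 32 13 0 0, .g 32 9 0 0]) (.T 1 2
  (.C 1 2 2 1 (.L 4) (.L 48)) (.L 29)))))) (by decide +kernel)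

theorem ES3_c7 : CoF ESTab ⟨⟨5088, 5442, 80000⟩, ⟨11510, 12100, 160000⟩,
  ⟨5206, 5324, 80000⟩, ⟨0, 1⟩, ⟨2, 1⟩, ⟨1, 0, 0⟩, ⟨0, 1, 0⟩, ⟨0, 1, 1⟩⟩ :=
CoF.ofG ESTab_B ESBt_E ESBt_U (.B 1 1 2 (.C 0 2 8 1 (.T 1 1 (.T 2 1 (.T 4 1
  (.T 8 1 (.C 1 2 4 1 (.C 1 2 8 1 (.L 6) (.C 0 2 32 1 (.C 0 1 64 1 (.L 1)
  (.C 0 1 1 2 (.L 1) (.C 1 2 1 1 (.G 1 6 1 640267 160067 320133 [.n, .g 25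
  63 0 0, .n, .n, .n, .n]) (.L 1)))) (.C 0 1 1 1 (.G 504 1 1 192924 385848
  96462 [.g 64 13 16 0, .n, .n, .g 1024 6 7 0]) (.T 16 1 (.T 32 1 (.O 4) (.G
  47 1 1 925751 462875 231438 [.g 32 13 0 0, .n, .n, .n])) (.T 1 2 (.T 2 1
  (.G 1 59 1 883893 441946 220973 [.n, .g 25 63 0 0, .n, .n, .n, .n]) (.L
  21)) (.L 7)))))) (.C 1 2 1 2 (.L 13) (.O 4))) (.L 9)) (.L 52)) (.L 5)) (.C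
  0 1 4 1 (.T 1 2 (.T 2 1 (.L 4) (.C 1 2 2 1 (.L 4) (.L 14))) (.C 0 1 8 1
  (.C 1 2 1 1 (.T 1 4 (.L 3) (.C 1 2 2 1 (.T 1 8 (.L 3) (.C 1 2 4 1 (.T 1 16
  (.L 53) (.C 1 2 8 1 (.L 63) (.L 38))) (.T 1 16 (.L 66) (.O 4)))) (.T 1 8
  (.T 2 1 (.L 22) (.L 24)) (.O 4)))) (.L 8)) (.L 40))) (.T 1 2 (.C 1 2 4 1
  (.L 2) (.G 4 49 2 6 22 11 [.n, .n, .g 32 15 0 0, .g 31 32 0 0])) (.L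
  11)))) (.T 1 1 (.C 1 2 2 1 (.T 2 1 (.T 4 1 (.T 8 1 (.C 0 1 1 4 (.C 0 1 2 1
  (.O 4) (.L 13)) (.C 0 1 1 8 (.C 1 2 1 4 (.C 0 2 4 1 (.C 0 1 2 1 (.G 181
  128 3 18 74 148 [.n, .g 1 3 3146 0, .g 32 21 0 0]) (.G 245 17 3 329 165
  658 [.g 5 7 62 0, .n, .n, .n, .g 1 1 86 0])) (.L 17)) (.L 13)) (.L 10)))
  (.L 9)) (.G 434 98 4 1 1 1 [.g 2 2 5061 0, .n, .n, .n])) (.T 1 2 (.L 56)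
  (.L 12))) (.T 2 1 (.L 15) (.T 1 2 (.L 56) (.L 12)))) (.C 0 1 1 4 (.G 2 242
  1 48 96 24 [.n, .g 64 11 0 0, .g 64 29 0 0, .g 5 1 957 0]) (.T 1 2 (.C 1 2
  2 1 (.L 4) (.L 48)) (.L 29))))) (.C 0 2 8 1 (.T 1 1 (.T 2 1 (.T 4 1 (.T 8
  1 (.C 1 2 4 1 (.C 1 2 8 1 (.L 6) (.C 0 1 64 1 (.C 0 2 32 1 (.L 1) (.G 1 91
  0 354308 708615 177154 [.n, .g 20 64 7 0, .n, .n, .n, .n])) (.C 0 2 1 4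
  (.C 0 1 1 2 (.L 1) (.C 0 1 1 4 (.L 1) (.C 1 2 4 1 (.G 75 1 1 503570 62946
  503570 [.g 64 28 3 0, .g 64 17 11 0, .n, .n, .g 64 7 0 0]) (.L 1)))) (.C 0
  1 1 4 (.C 0 2 1 8 (.L 1) (.G 420 1 1 1861 1861 116 [.g 23 1 514 0, .n, .g
  1 1 369 0, .n])) (.T 16 1 (.C 0 1 1 8 (.G 324 1 1 597348 1194697 37334
  [.n, .n, .n, .g 64 27 3 0]) (.L 47)) (.C 1 2 1 2 (.C 0 1 1 8 (.C 0 2 1 4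
  (.G 1 390 2 414649 829299 829299 [.n, .g 32 15 0 0, .n, .n, .n, .n]) (.L
  62)) (.L 17)) (.T 1 2 (.G 193 108 2 1 1 1 [.g 16 5 0 0, .g 1 2 0 0, .g 1
  75 67619 0, .g 1 115 109800 0, .n, .n]) (.L 7)))))))) (.C 1 2 1 2 (.L 13)
  (.O 4))) (.L 9)) (.L 52)) (.L 5)) (.C 0 1 4 1 (.T 1 2 (.T 2 1 (.L 4) (.C 1
  2 2 1 (.L 2) (.L 14))) (.C 0 1 8 1 (.C 1 2 1 1 (.T 1 4 (.L 3) (.C 1 2 2 1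
  (.T 1 8 (.L 3) (.C 1 2 4 1 (.T 1 16 (.L 53) (.C 1 2 8 1 (.L 57) (.L 38)))
  (.T 1 16 (.L 66) (.O 4)))) (.T 1 8 (.T 2 1 (.L 22) (.L 24)) (.O 4)))) (.L
  8)) (.L 40))) (.T 1 2 (.C 1 2 4 1 (.L 2) (.G 49 216 1 3 11 5 [.n, .n, .g 6
  1 1117 0, .n, .n])) (.L 11)))) (.T 1 1 (.C 1 2 2 1 (.T 2 1 (.T 4 1 (.T 8 1
  (.C 0 1 1 4 (.C 0 1 2 1 (.O 4) (.L 13)) (.C 0 1 1 8 (.C 1 2 1 4 (.C 0 1 2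
  1 (.T 16 1 (.O 4) (.C 0 2 4 1 (.C 1 2 2 1 (.G 468 118 1 477651 1910605
  7642421 [.n, .g 64 0 1 0, .n, .n, .g 9 1069 24 0, .g 1 123 3 0]) (.G 128
  287 3 264 4218 2109 [.n, .n, .n, .g 1 0 43 0])) (.L 17))) (.L 17)) (.L
  13)) (.L 10))) (.L 9)) (.G 74 224 2 1 1 1 [.n, .g 1 1 2461 0, .n, .n]))
  (.T 1 2 (.L 56) (.L 12))) (.T 2 1 (.L 15) (.T 1 2 (.L 56) (.L 12)))) (.C 0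
  1 1 4 (.G 2 83 3 326 652 163 [.n, .g 64 11 0 0, .g 64 25 0 0, .g 64 17 0
  0]) (.T 1 2 (.C 1 2 2 1 (.L 4) (.L 48)) (.L 29)))))) (by decide +kernel)

end Pool.Agent.TET.Cvr
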