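import Pool.Agent.Helper37_TET.ES3_000

/-!
# MP_c7c9bf_co: cover of the charts, root 3, assembly 0
-/

set_option autoImplicit false
set_option maxRecDepth 100000

namespace Pool.Agent.TET.Cvr

theorem ES3_t0 : CoF ESTab ⟨⟨1995, 1995, 40000⟩, ⟨1936, 2054, 40000⟩, ⟨1635,
  1635, 20000⟩, ⟨0, 1⟩, ⟨2, 1⟩, ⟨1, 0, 0⟩, ⟨0, 1, 0⟩, ⟨0, 1, 1⟩⟩ :=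
  CoF.b 1 1 2 rfl rfl rfl ES3_c0 ES3_c1

theorem ES3_t1 : CoF ESTab ⟨⟨360, 360, 20000⟩, ⟨1936, 2054, 40000⟩, ⟨1635,
  1635, 20000⟩, ⟨0, 1⟩, ⟨2, 1⟩, ⟨1, 0, 0⟩, ⟨0, 1, 0⟩, ⟨0, 1, 1⟩⟩ :=
  CoF.b 2 1 1 rfl rfl rfl ES3_t0 ES3_c2

theorem ES3_t2 : CoF ESTab ⟨⟨5206, 5324, 80000⟩, ⟨1576, 1694, 20000⟩, ⟨1635,
  1635, 20000⟩, ⟨0, 1⟩, ⟨2, 1⟩, ⟨1, 0, 0⟩, ⟨0, 1, 0⟩, ⟨0, 1, 1⟩⟩ :=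
  CoF.b 0 1 4 rfl rfl rfl ES3_c3 ES3_c4

theorem ES3_t3 : CoF ESTab ⟨⟨5088, 5442, 80000⟩, ⟨1576, 1694, 20000⟩, ⟨5206,
  5324, 80000⟩, ⟨0, 1⟩, ⟨2, 1⟩, ⟨1, 0, 0⟩, ⟨0, 1, 0⟩, ⟨0, 1, 1⟩⟩ :=
  CoF.b 1 4 1 rfl rfl rfl ES3_c6 ES3_c7

theorem ES3_t4 : CoF ESTab ⟨⟨1936, 2054, 40000⟩, ⟨1576, 1694, 20000⟩, ⟨5206,
  5324, 80000⟩, ⟨0, 1⟩, ⟨2, 1⟩, ⟨1, 0, 0⟩, ⟨0, 1, 0⟩, ⟨0, 1, 1⟩⟩ :=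
  CoF.b 0 1 2 rfl rfl rfl ES3_c5 ES3_t3

theorem ES3_t5 : CoF ESTab ⟨⟨1936, 2054, 40000⟩, ⟨1576, 1694, 20000⟩, ⟨1635,
  1635, 20000⟩, ⟨0, 1⟩, ⟨2, 1⟩, ⟨1, 0, 0⟩, ⟨0, 1, 0⟩, ⟨0, 1, 1⟩⟩ :=
  CoF.b 2 2 1 rfl rfl rfl ES3_t2 ES3_t4

theorem ES3_t6 : CoF ESTab ⟨⟨360, 360, 20000⟩, ⟨1576, 1694, 20000⟩, ⟨1635,
  1635, 20000⟩, ⟨0, 1⟩, ⟨2, 1⟩, ⟨1, 0, 0⟩, ⟨0, 1, 0⟩, ⟨0, 1, 1⟩⟩ :=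
  CoF.b 0 1 1 rfl rfl rfl ES3_t1 ES3_t5

end Pool.Agent.TET.Cvr
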