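import Pool.Agent.Helper37_TET.LastQ
import Pool.Agent.Helper37_TET.ES0_T0
import Pool.Agent.Helper37_TET.ES1_T0
import Pool.Agent.Helper37_TET.ES2_T0
import Pool.Agent.Helper37_TET.ES3_T0

/-!
# MP_c7c9bf_co: the cover of chart S
-/

set_option autoImplicit false
set_option maxRecDepth 100000

namespace Pool.Agent.TET

open Cvr (V4 Cd)

theorem ES_cover : CoverS Cvr.ESTab :=
  coverSq Cvr.ES0_t4 Cvr.ES2_t6 Cvr.ES1_t3 Cvr.ES3_t6

end Pool.Agent.TET
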