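import Pool.Agent.Helper37_TET.ESTab
import Pool.Agent.Helper37_TET.OkX
import Pool.Agent.Helper38_TET.Glue
import Pool.Agent.Helper38_TET.TB
import Pool.Agent.Helper38_TET.TD
import Pool.Agent.Helper38_TET.TE
import Pool.Agent.Helper38_TET.TF
import Pool.Agent.Helper38_TET.TP
import Pool.Agent.Helper38_TET.TQ
import Pool.Agent.Helper38_TET.TV
import Pool.Agent.Helper38_TET.TW
import Pool.Agent.Helper86_TET.XRegD

/-!
# MP_c7c9bf_co: the regions of the table ESTab are good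
-/

set_option autoImplicit false
set_option maxRecDepth 100000

namespace Pool.Agent.TET.Cvr

theorem ES_ok : ∀ R ∈ ESTab, R = xRD ∨ ROK R :=
  (okx_x
  (okx_cons TW_rg2
  (okx_cons TB_rg40
  (okx_cons TW_rg1
  (okx_cons TE_rg5
  (okx_cons TF_rg4
  (okx_cons TP_rg0
  (okx_cons TF_rg3
  (okx_cons TP_rg8
  (okx_cons TF_rg1
  (okx_cons TF_rg75
  (okx_cons TP_rg13
  (okx_cons TB_rg261
  (okx_cons TF_rg63
  (okx_cons TQ_rg40
  (okx_cons TQ_rg34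
  (okx_cons TB_rg370
  (okx_cons TF_rg20
  (okx_cons TF_rg91
  (okx_cons TB_rg23
  (okx_cons TB_rg37
  (okx_cons TD_rg13
  (okx_cons TF_rg21
  (okx_cons TE_rg7
  (okx_cons TE_rg6
  (okx_cons TF_rg110
  (okx_cons TF_rg65
  (okx_cons TF_rg35
  (okx_cons noR_ok
  (okx_cons TE_rg26
  (okx_cons TB_rg191
  (okx_cons TP_rg14
  (okx_cons TP_rg69
  (okx_cons TF_rg0
  (okx_cons TB_rg176
  (okx_cons TF_rg99
  (okx_cons TE_rg93
  (okx_cons TF_rg8
  (okx_cons TP_rg103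
  (okx_cons TB_rg9
  (okx_cons TB_rg196
  (okx_cons TQ_rg32
  (okx_cons TP_rg79
  (okx_cons TB_rg131
  (okx_cons TP_rg77
  (okx_cons TE_rg111
  (okx_cons TE_rg50
  (okx_cons TB_rg214
  (okx_cons TE_rg72
  (okx_cons TB_rg162
  (okx_cons TF_rg116
  (okx_cons TP_rg116
  (okx_cons TD_rg32
  (okx_cons TE_rg4
  (okx_cons TF_rg71
  (okx_cons TB_rg121
  (okx_cons TB_rg4
  (okx_cons TP_rg32
  (okx_cons TB_rg92
  (okx_cons TF_rg60
  (okx_cons TQ_rg24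
  (okx_cons TE_rg99
  (okx_cons TP_rg113
  (okx_cons TD_rg43
  (okx_cons TE_rg36
  (okx_cons TE_rg70
  (okx_cons TE_rg88
  (okx_cons TF_rg2
  (okx_cons TP_rg20
  (okx_cons TF_rg55
  (okx_cons TQ_rg14
  (okx_cons TF_rg10
  (okx_cons TF_rg16
  (okx_cons TE_rg139
  (okx_cons TB_rg299
  (okx_cons TB_rg364
  (okx_cons TB_rg197
  (okx_cons TD_rg168
  (okx_cons TQ_rg10
  (okx_cons TP_rg43
  (okx_cons TP_rg41
  (okx_cons TE_rg78
  (okx_cons TF_rg17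
  (okx_cons TE_rg1
  (okx_cons TE_rg75
  (okx_cons TQ_rg8
  (okx_cons TE_rg96
  (okx_cons TQ_rg6
  (okx_cons TQ_rg5
  (okx_cons TE_rg172
  (okx_cons TB_rg290
  (okx_cons TP_rg118
  (okx_cons TB_rg275
  (okx_cons TD_rg112
  (okx_cons TE_rg19
  (okx_cons TP_rg39
  (okx_cons TF_rg7
  (okx_cons TE_rg28
  (okx_cons TP_rg91
  (okx_cons TE_rg64
  (okx_cons TD_rg91
  (okx_cons TE_rg23
  (okx_cons TE_rg97
  (okx_cons TP_rg25
  (okx_cons TQ_rg49
  (okx_cons TF_rg49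
  (okx_cons TD_rg0
  (okx_cons TF_rg107
  (okx_cons TP_rg104
  (okx_cons TF_rg12
  (okx_cons TB_rg25
  (okx_cons TE_rg126
  (okx_cons TQ_rg37
  (okx_cons TB_rg59
  (okx_cons TE_rg161
  (okx_cons TP_rg110
  (okx_cons TD_rg28
  (okx_cons TE_rg49
  (okx_cons TD_rg153
  (okx_cons TD_rg44
  (okx_cons TF_rg30
  (okx_cons TF_rg9
  (okx_cons TP_rg26
  (okx_cons TP_rg132
  (okx_cons TE_rg48
  (okx_cons TQ_rg50
  (okx_cons TF_rg6
  (okx_cons TQ_rg1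
  (okx_cons TP_rg40
  (okx_cons TE_rg67
  (okx_cons TE_rg39
  (okx_cons TB_rg218
  (okx_cons TE_rg180
  (okx_cons TB_rg377
  (okx_cons TP_rg131
  (okx_cons TF_rg25
  (okx_cons TB_rg356
  (okx_cons TB_rg46
  (okx_cons TB_rg1
  (okx_cons TP_rg10
  (okx_cons TE_rg82
  (okx_cons TF_rg121
  (okx_cons TF_rg24
  (okx_cons TD_rg37
  (okx_cons TF_rg134
  (okx_cons TE_rg83
  (okx_cons TE_rg33
  (okx_cons TP_rg114
  (okx_cons TB_rg397
  (okx_cons TF_rg14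
  (okx_cons TE_rg54
  (okx_cons TF_rg131
  (okx_cons TP_rg122
  (okx_cons TQ_rg63
  (okx_cons TE_rg69
  (okx_cons TE_rg11
  (okx_cons TF_rg122
  (okx_cons TE_rg35
  (okx_cons TP_rg121
  (okx_cons TB_rg289
  (okx_cons TP_rg112
  (okx_cons TE_rg10
  (okx_cons TF_rg34
  (okx_cons TF_rg132
  (okx_cons TB_rg6
  (okx_cons TF_rg33
  (okx_cons TB_rg99
  (okx_cons TE_rg65
  (okx_cons TE_rg79
  (okx_cons TD_rg3
  (okx_cons TF_rg147
  (okx_cons TF_rg101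
  (okx_cons TE_rg25
  (okx_cons TQ_rg46
  (okx_cons TB_rg305
  (okx_cons TE_rg52
  (okx_cons TE_rg137
  (okx_cons TD_rg51
  (okx_cons TD_rg92
  (okx_cons TD_rg4
  (okx_cons TF_rg73
  (okx_cons TE_rg76
  (okx_cons TF_rg138
  (okx_cons TF_rg69
  (okx_cons TE_rg107
  (okx_cons TD_rg52
  (okx_cons TE_rg129
  (okx_cons TE_rg53
  (okx_cons TE_rg31
  (okx_cons TB_rg270
  (okx_cons TE_rg89
  (okx_cons TB_rg21
  (okx_cons TP_rg83
  (okx_cons TF_rg29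
  (okx_cons TV_rg5
  (okx_cons TD_rg20
  (okx_cons TF_rg151
  (okx_cons TD_rg108
  (okx_cons TE_rg16
  (okx_cons TE_rg24
  (okx_cons TB_rg229
  (okx_cons TF_rg70
  (okx_cons TB_rg31
  (okx_cons TE_rg15
  (okx_cons TB_rg174
  (okx_cons TP_rg17
  (okx_cons TB_rg361
  (okx_cons TQ_rg29
  (okx_cons TB_rg15
  (okx_cons TB_rg80
  (okx_cons TB_rg94
  (okx_cons TQ_rg58
  (okx_cons TQ_rg2
  (okx_cons TQ_rg68
  (okx_cons TF_rg98
  (okx_cons TQ_rg20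
  (okx_cons TE_rg62
  (okx_cons TE_rg118
  (okx_cons TE_rg77
  (okx_cons TP_rg28
  (okx_cons TF_rg50
  (okx_cons TF_rg77
  (okx_cons TF_rg66
  (okx_cons TB_rg219
  (okx_cons TF_rg59
  (okx_cons TQ_rg42
  (okx_cons TF_rg15
  (okx_cons TF_rg28
  (okx_cons TF_rg27
  (okx_cons TF_rg64
  (okx_cons TE_rg46
  (okx_cons TD_rg160
  (okx_cons TE_rg124
  (okx_cons TE_rg108
  (okx_cons TD_rg116
  (okx_cons TF_rg97
  (okx_cons TE_rg8
  (okx_cons TP_rg12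
  (okx_cons TQ_rg70
  (okx_cons TB_rg187
  (okx_cons TP_rg115 okx_nil)))))))))))))))))))))))))))))))))))))))))))))))))))))))))))))))))))))))))))))))))))))))))))))))))))))))))))))))))))))))))))))))))))))))))))))))))))))))))))))))))))))))))))))))))))))))))))))))))))))))))))))))))))))))))))))))))))))))))))))))))

end Pool.Agent.TET.Cvr
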