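import Pool.Agent.Helper37_TET.QgS

/-!
# MP_c7c9bf_co: cover of the charts, the table of regions
-/

set_option autoImplicit false
set_option maxRecDepth 100000

namespace Pool.Agent.TET.Cvr

noncomputable def ESTab : List (List Cd) := [
[.q ⟨.ofNat 13, .ofNat 12, .negSucc 24, .ofNat 0⟩ ⟨.negSucc 36, .ofNat 12,
  .ofNat 25, .ofNat 0⟩, .q ⟨.negSucc 32, .ofNat 133, .ofNat 0, .negSucc 99⟩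
  ⟨.negSucc 32, .negSucc 66, .ofNat 0, .ofNat 100⟩, .q ⟨.ofNat 81, .ofNat
  19, .negSucc 99, .ofNat 0⟩ ⟨.negSucc 0, .ofNat 1, .ofNat 0, .ofNat 0⟩, .q
  ⟨.negSucc 18, .negSucc 80, .ofNat 0, .ofNat 100⟩ ⟨.negSucc 0, .ofNat 1,
  .ofNat 0, .ofNat 0⟩, .q ⟨.ofNat 73, .negSucc 72, .negSucc 99, .ofNat 100⟩
  ⟨.negSucc 0, .ofNat 1, .ofNat 0, .ofNat 0⟩, .q ⟨.negSucc 6, .ofNat 7,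
  .ofNat 8, .negSucc 7⟩ ⟨.negSucc 0, .ofNat 1, .ofNat 0, .ofNat 0⟩],
[.q ⟨.ofNat 0, .negSucc 2, .negSucc 1, .ofNat 5⟩ ⟨.ofNat 1000, .negSucc 56,
  .negSucc 1037, .ofNat 95⟩, .q ⟨.ofNat 0, .negSucc 2, .negSucc 1, .ofNat 5⟩
  ⟨.negSucc 1785, .ofNat 3364, .negSucc 1932, .ofNat 355⟩, .q ⟨.ofNat 0,
  .negSucc 2, .negSucc 1, .ofNat 5⟩ ⟨.negSucc 2526, .negSucc 2655, .ofNat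
  2868, .ofNat 2315⟩, .q ⟨.ofNat 0, .negSucc 2, .negSucc 1, .ofNat 5⟩
  ⟨.ofNat 721, .negSucc 3954, .ofNat 1919, .ofNat 1315⟩],
[.q ⟨.negSucc 4, .negSucc 4, .ofNat 10, .ofNat 0⟩ ⟨.negSucc 14, .ofNat 5,
  .ofNat 10, .ofNat 0⟩, .q ⟨.ofNat 3, .ofNat 7, .negSucc 9, .ofNat 0⟩
  ⟨.negSucc 16, .ofNat 7, .ofNat 10, .ofNat 0⟩, .q ⟨.ofNat 15, .negSucc 4,
  .negSucc 9, .ofNat 0⟩ ⟨.ofNat 2590, .ofNat 2663, .negSucc 1576, .negSucc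
  3675⟩, .q ⟨.ofNat 17, .negSucc 6, .negSucc 9, .ofNat 0⟩ ⟨.ofNat 2590,
  .ofNat 2663, .negSucc 1576, .negSucc 3675⟩, .q ⟨.ofNat 15, .negSucc 4,
  .negSucc 9, .ofNat 0⟩ ⟨.negSucc 189, .negSucc 1360, .negSucc 1944, .ofNat
  3496⟩, .q ⟨.ofNat 17, .negSucc 6, .negSucc 9, .ofNat 0⟩ ⟨.negSucc 189,
  .negSucc 1360, .negSucc 1944, .ofNat 3496⟩],
[.q ⟨.ofNat 0, .negSucc 2, .negSucc 1, .ofNat 5⟩ ⟨.negSucc 5655, .ofNat 641,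
  .ofNat 1435, .ofNat 3580⟩, .q ⟨.ofNat 0, .negSucc 2, .negSucc 1, .ofNat 5⟩
  ⟨.negSucc 1717, .negSucc 2744, .ofNat 2948, .ofNat 1515⟩, .q ⟨.ofNat 0,
  .negSucc 2, .negSucc 1, .ofNat 5⟩ ⟨.ofNat 4935, .negSucc 4257, .negSucc
  1356, .ofNat 680⟩, .q ⟨.ofNat 0, .negSucc 2, .negSucc 1, .ofNat 5⟩
  ⟨.negSucc 987, .ofNat 2787, .negSucc 2618, .ofNat 820⟩],
[.q ⟨.negSucc 0, .ofNat 0, .ofNat 0, .ofNat 1⟩ ⟨.ofNat 965, .negSucc 720,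
  .negSucc 3934, .ofNat 3691⟩, .q ⟨.negSucc 0, .ofNat 0, .ofNat 0, .ofNat 1⟩
  ⟨.negSucc 3618, .ofNat 4000, .ofNat 0, .negSucc 380⟩, .q ⟨.negSucc 0,
  .ofNat 0, .ofNat 0, .ofNat 1⟩ ⟨.ofNat 1373, .negSucc 2851, .ofNat 2805,
  .negSucc 1325⟩],
[.l ⟨.ofNat 0, .negSucc 3984, .negSucc 346, .ofNat 45⟩ ⟨.ofNat 0, .ofNat 0,
  .ofNat 0, .ofNat 1⟩, .l ⟨.ofNat 0, .ofNat 1330, .negSucc 3771, .negSucc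
  224⟩ ⟨.ofNat 0, .ofNat 0, .ofNat 0, .ofNat 1⟩, .l ⟨.ofNat 0, .ofNat 2828,
  .ofNat 2828, .ofNat 2591⟩ ⟨.ofNat 0, .ofNat 0, .ofNat 0, .ofNat 1⟩, .l
  ⟨.ofNat 0, .negSucc 3017, .ofNat 2625, .ofNat 2422⟩ ⟨.ofNat 0, .ofNat 0,
  .ofNat 0, .ofNat 1⟩],
[.q ⟨.negSucc 0, .ofNat 1, .ofNat 0, .ofNat 0⟩ ⟨.negSucc 930, .negSucc 28,
  .ofNat 960, .ofNat 0⟩, .q ⟨.negSucc 0, .ofNat 1, .ofNat 0, .ofNat 0⟩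
  ⟨.ofNat 961, .ofNat 959, .negSucc 1919, .ofNat 0⟩, .l ⟨.ofNat 0, .ofNat 0,
  .negSucc 639, .ofNat 3⟩ ⟨.ofNat 0, .ofNat 0, .ofNat 0, .ofNat 1⟩, .l
  ⟨.ofNat 0, .ofNat 0, .ofNat 1920, .ofNat 89⟩ ⟨.ofNat 0, .ofNat 0, .ofNat
  0, .ofNat 1⟩],
[.l ⟨.ofNat 0, .ofNat 3943, .ofNat 673, .ofNat 2658⟩ ⟨.ofNat 0, .ofNat 0,
  .ofNat 0, .ofNat 1⟩, .l ⟨.ofNat 0, .negSucc 1327, .ofNat 3773, .ofNat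
  1639⟩ ⟨.ofNat 0, .ofNat 0, .ofNat 0, .ofNat 1⟩, .l ⟨.ofNat 0, .negSucc
  693, .negSucc 719, .negSucc 168⟩ ⟨.ofNat 0, .ofNat 0, .ofNat 0, .ofNat 1⟩,
  .l ⟨.ofNat 0, .negSucc 448, .negSucc 3974, .ofNat 500⟩ ⟨.ofNat 0, .ofNat
  0, .ofNat 0, .ofNat 1⟩],
[.q ⟨.negSucc 0, .ofNat 1, .ofNat 0, .ofNat 0⟩ ⟨.negSucc 420, .negSucc 58,
  .ofNat 480, .ofNat 0⟩, .q ⟨.negSucc 0, .ofNat 1, .ofNat 0, .ofNat 0⟩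
  ⟨.ofNat 961, .ofNat 959, .negSucc 1919, .ofNat 0⟩, .l ⟨.ofNat 0, .ofNat 0,
  .negSucc 319, .ofNat 9⟩ ⟨.ofNat 0, .ofNat 0, .ofNat 0, .ofNat 1⟩, .l
  ⟨.ofNat 0, .ofNat 0, .ofNat 1920, .ofNat 139⟩ ⟨.ofNat 0, .ofNat 0, .ofNat
  0, .ofNat 1⟩],
[.l ⟨.ofNat 0, .negSucc 3896, .negSucc 901, .negSucc 533⟩ ⟨.ofNat 0, .ofNat
  0, .ofNat 0, .ofNat 1⟩, .l ⟨.ofNat 0, .ofNat 485, .negSucc 3969, .ofNat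
  222⟩ ⟨.ofNat 0, .ofNat 0, .ofNat 0, .ofNat 1⟩, .l ⟨.ofNat 0, .ofNat 3617,
  .negSucc 1707, .ofNat 2928⟩ ⟨.ofNat 0, .ofNat 0, .ofNat 0, .ofNat 1⟩, .l
  ⟨.ofNat 0, .ofNat 2693, .ofNat 2957, .ofNat 2690⟩ ⟨.ofNat 0, .ofNat 0,
  .ofNat 0, .ofNat 1⟩, .l ⟨.ofNat 0, .negSucc 3176, .ofNat 2431, .ofNat
  2289⟩ ⟨.ofNat 0, .ofNat 0, .ofNat 0, .ofNat 1⟩],
[.l ⟨.ofNat 0, .ofNat 2998, .ofNat 2648, .ofNat 2883⟩ ⟨.ofNat 0, .ofNat 0,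
  .ofNat 0, .ofNat 1⟩, .l ⟨.ofNat 0, .negSucc 974, .ofNat 1746, .ofNat 1300⟩
  ⟨.ofNat 0, .ofNat 0, .ofNat 0, .ofNat 1⟩, .l ⟨.ofNat 0, .negSucc 3999,
  .ofNat 0, .ofNat 801⟩ ⟨.ofNat 0, .ofNat 0, .ofNat 0, .ofNat 1⟩, .l ⟨.ofNat
  0, .negSucc 2723, .negSucc 2928, .negSucc 1277⟩ ⟨.ofNat 0, .ofNat 0,
  .ofNat 0, .ofNat 1⟩, .l ⟨.ofNat 0, .ofNat 2981, .negSucc 2666, .ofNat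
  2317⟩ ⟨.ofNat 0, .ofNat 0, .ofNat 0, .ofNat 1⟩],
[.q ⟨.negSucc 0, .ofNat 1, .ofNat 0, .ofNat 0⟩ ⟨.negSucc 1822, .negSucc 96,
  .ofNat 1920, .ofNat 0⟩, .q ⟨.negSucc 0, .ofNat 1, .ofNat 0, .ofNat 0⟩
  ⟨.ofNat 961, .ofNat 959, .negSucc 1919, .ofNat 0⟩, .l ⟨.ofNat 0, .ofNat 0,
  .negSucc 1919, .ofNat 19⟩ ⟨.ofNat 0, .ofNat 0, .ofNat 0, .ofNat 1⟩, .l
  ⟨.ofNat 0, .ofNat 0, .ofNat 160, .ofNat 9⟩ ⟨.ofNat 0, .ofNat 0, .ofNat 0,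
  .ofNat 1⟩],
[.q ⟨.negSucc 9, .negSucc 9, .ofNat 20, .ofNat 0⟩ ⟨.negSucc 29, .ofNat 10,
  .ofNat 20, .ofNat 0⟩, .q ⟨.ofNat 7, .ofNat 13, .negSucc 19, .ofNat 0⟩
  ⟨.negSucc 32, .ofNat 13, .ofNat 20, .ofNat 0⟩, .q ⟨.ofNat 30, .negSucc 9,
  .negSucc 19, .ofNat 0⟩ ⟨.ofNat 2412, .ofNat 2391, .negSucc 906, .negSucc
  3895⟩, .q ⟨.ofNat 33, .negSucc 12, .negSucc 19, .ofNat 0⟩ ⟨.ofNat 2412,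
  .ofNat 2391, .negSucc 906, .negSucc 3895⟩, .q ⟨.ofNat 30, .negSucc 9,
  .negSucc 19, .ofNat 0⟩ ⟨.negSucc 512, .negSucc 1815, .negSucc 1412, .ofNat
  3742⟩, .q ⟨.ofNat 33, .negSucc 12, .negSucc 19, .ofNat 0⟩ ⟨.negSucc 512,
  .negSucc 1815, .negSucc 1412, .ofNat 3742⟩],
[.l ⟨.ofNat 0, .negSucc 1353, .negSucc 1471, .negSucc 484⟩ ⟨.ofNat 0, .ofNat
  0, .ofNat 0, .ofNat 1⟩, .l ⟨.ofNat 0, .ofNat 352, .negSucc 1968, .ofNat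
  597⟩ ⟨.ofNat 0, .ofNat 0, .ofNat 0, .ofNat 1⟩, .l ⟨.ofNat 0, .ofNat 3931,
  .ofNat 741, .ofNat 2385⟩ ⟨.ofNat 0, .ofNat 0, .ofNat 0, .ofNat 1⟩, .l
  ⟨.ofNat 0, .ofNat 1116, .ofNat 3841, .ofNat 3304⟩ ⟨.ofNat 0, .ofNat 0,
  .ofNat 0, .ofNat 1⟩, .l ⟨.ofNat 0, .negSucc 3972, .ofNat 465, .ofNat 613⟩
  ⟨.ofNat 0, .ofNat 0, .ofNat 0, .ofNat 1⟩],
[.q ⟨.ofNat 17, .negSucc 18, .negSucc 27, .ofNat 30⟩ ⟨.negSucc 4145, .ofNat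
  361, .ofNat 1775, .ofNat 2010⟩, .q ⟨.ofNat 17, .negSucc 18, .negSucc 27,
  .ofNat 30⟩ ⟨.ofNat 1, .negSucc 0, .ofNat 0, .ofNat 0⟩, .q ⟨.ofNat 17,
  .negSucc 18, .negSucc 27, .ofNat 30⟩ ⟨.ofNat 179, .ofNat 741, .negSucc
  469, .negSucc 449⟩],
[.q ⟨.ofNat 17, .negSucc 18, .negSucc 27, .ofNat 30⟩ ⟨.ofNat 4539, .negSucc
  3613, .negSucc 474, .negSucc 449⟩, .q ⟨.ofNat 17, .negSucc 18, .negSucc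
  27, .ofNat 30⟩ ⟨.ofNat 1029, .ofNat 2766, .negSucc 1934, .negSucc 1859⟩,
  .q ⟨.ofNat 17, .negSucc 18, .negSucc 27, .ofNat 30⟩ ⟨.negSucc 2806, .ofNat
  4159, .negSucc 751, .negSucc 599⟩, .q ⟨.ofNat 17, .negSucc 18, .negSucc
  27, .ofNat 30⟩ ⟨.negSucc 412, .negSucc 3175, .ofNat 1729, .ofNat 1860⟩],
[.q ⟨.negSucc 8, .negSucc 10, .ofNat 20, .ofNat 0⟩ ⟨.negSucc 30, .ofNat 11,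
  .ofNat 20, .ofNat 0⟩, .q ⟨.ofNat 5, .ofNat 15, .negSucc 19, .ofNat 0⟩
  ⟨.negSucc 34, .ofNat 15, .ofNat 20, .ofNat 0⟩, .q ⟨.ofNat 31, .negSucc 10,
  .negSucc 19, .ofNat 0⟩ ⟨.ofNat 2823, .ofNat 1132, .ofNat 45, .negSucc
  3999⟩, .q ⟨.ofNat 35, .negSucc 14, .negSucc 19, .ofNat 0⟩ ⟨.ofNat 2823,
  .ofNat 1132, .ofNat 45, .negSucc 3999⟩, .q ⟨.ofNat 31, .negSucc 10,
  .negSucc 19, .ofNat 0⟩ ⟨.negSucc 980, .negSucc 4626, .ofNat 2432, .ofNat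
  3176⟩, .q ⟨.ofNat 35, .negSucc 14, .negSucc 19, .ofNat 0⟩ ⟨.negSucc 980,
  .negSucc 4626, .ofNat 2432, .ofNat 3176⟩, .q ⟨.ofNat 31, .negSucc 10,
  .negSucc 19, .ofNat 0⟩ ⟨.ofNat 2643, .ofNat 2921, .negSucc 3293, .negSucc
  2269⟩, .q ⟨.ofNat 35, .negSucc 14, .negSucc 19, .ofNat 0⟩ ⟨.ofNat 2643,
  .ofNat 2921, .negSucc 3293, .negSucc 2269⟩],
[.l ⟨.ofNat 0, .ofNat 0, .negSucc 1999, .negSucc 208⟩ ⟨.ofNat 0, .ofNat 0,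
  .ofNat 0, .ofNat 1⟩, .l ⟨.ofNat 0, .ofNat 2000, .ofNat 0, .ofNat 911⟩
  ⟨.ofNat 0, .ofNat 0, .ofNat 0, .ofNat 1⟩, .l ⟨.ofNat 0, .ofNat 553, .ofNat
  1922, .ofNat 1666⟩ ⟨.ofNat 0, .ofNat 0, .ofNat 0, .ofNat 1⟩, .l ⟨.ofNat 0,
  .negSucc 999, .ofNat 0, .ofNat 29⟩ ⟨.ofNat 0, .ofNat 0, .ofNat 0, .ofNat
  1⟩, .l ⟨.ofNat 0, .negSucc 3384, .negSucc 2129, .negSucc 133⟩ ⟨.ofNat 0,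
  .ofNat 0, .ofNat 0, .ofNat 1⟩],
[.l ⟨.ofNat 0, .ofNat 768, .negSucc 3925, .ofNat 1209⟩ ⟨.ofNat 0, .ofNat 0,
  .ofNat 0, .ofNat 1⟩, .l ⟨.ofNat 0, .ofNat 3986, .ofNat 332, .ofNat 2559⟩
  ⟨.ofNat 0, .ofNat 0, .ofNat 0, .ofNat 1⟩, .l ⟨.ofNat 0, .ofNat 2083,
  .ofNat 3415, .ofNat 3310⟩ ⟨.ofNat 0, .ofNat 0, .ofNat 0, .ofNat 1⟩, .l
  ⟨.ofNat 0, .negSucc 201, .ofNat 202, .ofNat 155⟩ ⟨.ofNat 0, .ofNat 0,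
  .ofNat 0, .ofNat 1⟩, .l ⟨.ofNat 0, .negSucc 802, .negSucc 595, .negSucc
  277⟩ ⟨.ofNat 0, .ofNat 0, .ofNat 0, .ofNat 1⟩],
[.q ⟨.negSucc 2, .negSucc 16, .ofNat 20, .ofNat 0⟩ ⟨.negSucc 36, .ofNat 17,
  .ofNat 20, .ofNat 0⟩, .q ⟨.ofNat 0, .ofNat 20, .negSucc 19, .ofNat 0⟩
  ⟨.negSucc 39, .ofNat 20, .ofNat 20, .ofNat 0⟩, .q ⟨.ofNat 37, .negSucc 16,
  .negSucc 19, .ofNat 0⟩ ⟨.ofNat 3335, .ofNat 1159, .negSucc 528, .negSucc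
  3964⟩, .q ⟨.ofNat 40, .negSucc 19, .negSucc 19, .ofNat 0⟩ ⟨.ofNat 3335,
  .ofNat 1159, .negSucc 528, .negSucc 3964⟩, .q ⟨.ofNat 37, .negSucc 16,
  .negSucc 19, .ofNat 0⟩ ⟨.ofNat 671, .negSucc 1874, .negSucc 2161, .ofNat
  3366⟩, .q ⟨.ofNat 40, .negSucc 19, .negSucc 19, .ofNat 0⟩ ⟨.ofNat 671,
  .negSucc 1874, .negSucc 2161, .ofNat 3366⟩, .q ⟨.ofNat 37, .negSucc 16,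
  .negSucc 19, .ofNat 0⟩ ⟨.ofNat 1960, .ofNat 3526, .negSucc 3432, .negSucc
  2052⟩, .q ⟨.ofNat 40, .negSucc 19, .negSucc 19, .ofNat 0⟩ ⟨.ofNat 1960,
  .ofNat 3526, .negSucc 3432, .negSucc 2052⟩],
[.q ⟨.negSucc 20, .negSucc 18, .ofNat 40, .ofNat 0⟩ ⟨.negSucc 58, .ofNat 19,
  .ofNat 40, .ofNat 0⟩, .q ⟨.ofNat 18, .ofNat 22, .negSucc 39, .ofNat 0⟩
  ⟨.negSucc 61, .ofNat 22, .ofNat 40, .ofNat 0⟩, .q ⟨.ofNat 59, .negSucc 18,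
  .negSucc 39, .ofNat 0⟩ ⟨.ofNat 2150, .ofNat 2123, .negSucc 282, .negSucc
  3989⟩, .q ⟨.ofNat 62, .negSucc 21, .negSucc 39, .ofNat 0⟩ ⟨.ofNat 2150,
  .ofNat 2123, .negSucc 282, .negSucc 3989⟩, .q ⟨.ofNat 59, .negSucc 18,
  .negSucc 39, .ofNat 0⟩ ⟨.negSucc 482, .negSucc 862, .negSucc 2073, .ofNat
  3420⟩, .q ⟨.ofNat 62, .negSucc 21, .negSucc 39, .ofNat 0⟩ ⟨.negSucc 482,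
  .negSucc 862, .negSucc 2073, .ofNat 3420⟩, .q ⟨.ofNat 59, .negSucc 18,
  .negSucc 39, .ofNat 0⟩ ⟨.ofNat 1301, .ofNat 1295, .negSucc 1858, .negSucc
  736⟩, .q ⟨.ofNat 62, .negSucc 21, .negSucc 39, .ofNat 0⟩ ⟨.ofNat 1301,
  .ofNat 1295, .negSucc 1858, .negSucc 736⟩],
[.l ⟨.ofNat 0, .ofNat 5, .ofNat 0, .negSucc 3⟩ ⟨.ofNat 0, .ofNat 5, .ofNat
  0, .ofNat 4⟩, .l ⟨.ofNat 0, .negSucc 4, .ofNat 0, .ofNat 5⟩ ⟨.ofNat 0,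
  .ofNat 5, .ofNat 0, .ofNat 5⟩, .l ⟨.ofNat 0, .ofNat 5, .ofNat 0, .negSucc
  3⟩ ⟨.ofNat 0, .ofNat 0, .ofNat 4000, .ofNat 2667⟩, .l ⟨.ofNat 0, .ofNat 5,
  .ofNat 0, .negSucc 4⟩ ⟨.ofNat 0, .ofNat 0, .ofNat 4000, .ofNat 2667⟩, .l
  ⟨.ofNat 0, .ofNat 5, .ofNat 0, .negSucc 3⟩ ⟨.ofNat 0, .ofNat 0, .negSucc
  3999, .negSucc 3310⟩, .l ⟨.ofNat 0, .ofNat 5, .ofNat 0, .negSucc 4⟩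
  ⟨.ofNat 0, .ofNat 0, .negSucc 3999, .negSucc 3310⟩],
[.l ⟨.ofNat 0, .negSucc 3994, .negSucc 202, .negSucc 1499⟩ ⟨.ofNat 0, .ofNat
  0, .ofNat 0, .ofNat 1⟩, .l ⟨.ofNat 0, .ofNat 1840, .negSucc 3550, .ofNat
  1285⟩ ⟨.ofNat 0, .ofNat 0, .ofNat 0, .ofNat 1⟩, .l ⟨.ofNat 0, .ofNat 3188,
  .negSucc 2415, .ofNat 2515⟩ ⟨.ofNat 0, .ofNat 0, .ofNat 0, .ofNat 1⟩, .l
  ⟨.ofNat 0, .ofNat 1414, .ofNat 1414, .ofNat 1465⟩ ⟨.ofNat 0, .ofNat 0,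
  .ofNat 0, .ofNat 1⟩],
[.q ⟨.negSucc 0, .ofNat 0, .ofNat 0, .ofNat 1⟩ ⟨.ofNat 1341, .negSucc 2827,
  .ofNat 2828, .negSucc 1340⟩, .q ⟨.negSucc 0, .ofNat 0, .ofNat 0, .ofNat 1⟩
  ⟨.ofNat 2345, .negSucc 2472, .negSucc 3143, .ofNat 3272⟩, .q ⟨.negSucc 0,
  .ofNat 0, .ofNat 0, .ofNat 1⟩ ⟨.negSucc 108, .ofNat 478, .negSucc 3970,
  .ofNat 3602⟩, .q ⟨.negSucc 0, .ofNat 0, .ofNat 0, .ofNat 1⟩ ⟨.negSucc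
  3648, .ofNat 3958, .ofNat 581, .negSucc 889⟩],
[.q ⟨.negSucc 0, .ofNat 0, .ofNat 0, .ofNat 1⟩ ⟨.ofNat 361, .negSucc 588,
  .negSucc 3955, .ofNat 4184⟩, .q ⟨.negSucc 0, .ofNat 0, .ofNat 0, .ofNat 1⟩
  ⟨.negSucc 3682, .ofNat 3821, .ofNat 1184, .negSucc 1321⟩, .q ⟨.negSucc 0,
  .ofNat 0, .ofNat 0, .ofNat 1⟩ ⟨.ofNat 3228, .negSucc 3612, .ofNat 1717,
  .negSucc 1331⟩, .q ⟨.negSucc 0, .ofNat 0, .ofNat 0, .ofNat 1⟩ ⟨.ofNat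
  3162, .negSucc 3576, .negSucc 1789, .ofNat 2205⟩],
[.l ⟨.ofNat 0, .ofNat 411, .negSucc 3978, .negSucc 818⟩ ⟨.ofNat 0, .ofNat 0,
  .ofNat 0, .ofNat 1⟩, .l ⟨.ofNat 0, .ofNat 2828, .ofNat 2828, .ofNat 2591⟩
  ⟨.ofNat 0, .ofNat 0, .ofNat 0, .ofNat 1⟩, .l ⟨.ofNat 0, .negSucc 3110,
  .ofNat 2515, .ofNat 2359⟩ ⟨.ofNat 0, .ofNat 0, .ofNat 0, .ofNat 1⟩, .l
  ⟨.ofNat 0, .negSucc 3999, .ofNat 0, .ofNat 249⟩ ⟨.ofNat 0, .ofNat 0,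
  .ofNat 0, .ofNat 1⟩],
[.l ⟨.ofNat 0, .ofNat 697, .negSucc 3938, .negSucc 265⟩ ⟨.ofNat 0, .ofNat 0,
  .ofNat 0, .ofNat 1⟩, .l ⟨.ofNat 0, .ofNat 1864, .ofNat 725, .ofNat 1263⟩
  ⟨.ofNat 0, .ofNat 0, .ofNat 0, .ofNat 1⟩, .l ⟨.ofNat 0, .negSucc 3380,
  .ofNat 2137, .ofNat 394⟩ ⟨.ofNat 0, .ofNat 0, .ofNat 0, .ofNat 1⟩, .l
  ⟨.ofNat 0, .negSucc 1254, .negSucc 449, .negSucc 20⟩ ⟨.ofNat 0, .ofNat 0,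
  .ofNat 0, .ofNat 1⟩],
[.l ⟨.ofNat 0, .ofNat 0, .negSucc 124, .negSucc 1⟩ ⟨.ofNat 0, .ofNat 0,
  .ofNat 0, .ofNat 1⟩, .l ⟨.ofNat 0, .ofNat 3802, .ofNat 1242, .ofNat 3309⟩
  ⟨.ofNat 0, .ofNat 0, .ofNat 0, .ofNat 1⟩, .l ⟨.ofNat 0, .negSucc 776,
  .ofNat 3924, .ofNat 76⟩ ⟨.ofNat 0, .ofNat 0, .ofNat 0, .ofNat 1⟩],
[.l ⟨.ofNat 1, .ofNat 0, .ofNat 0, .ofNat 0⟩ ⟨.ofNat 0, .negSucc 0, .ofNat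
  0, .ofNat 0⟩, .l ⟨.ofNat 1, .ofNat 0, .ofNat 0, .ofNat 0⟩ ⟨.ofNat 0,
  .ofNat 0, .negSucc 0, .ofNat 0⟩, .l ⟨.ofNat 1, .ofNat 0, .ofNat 0, .ofNat
  0⟩ ⟨.ofNat 0, .ofNat 0, .ofNat 0, .negSucc 0⟩, .l ⟨.ofNat 0, .ofNat 1,
  .ofNat 0, .ofNat 0⟩ ⟨.ofNat 0, .ofNat 0, .negSucc 0, .ofNat 0⟩, .l ⟨.ofNat
  0, .ofNat 1, .ofNat 0, .ofNat 0⟩ ⟨.ofNat 0, .ofNat 0, .ofNat 0, .negSucc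
  0⟩, .l ⟨.ofNat 0, .ofNat 0, .ofNat 1, .ofNat 0⟩ ⟨.ofNat 0, .ofNat 0,
  .ofNat 0, .negSucc 0⟩],
[.q ⟨.negSucc 0, .ofNat 0, .ofNat 0, .ofNat 1⟩ ⟨.negSucc 4127, .ofNat 3991,
  .negSucc 273, .ofNat 411⟩, .q ⟨.negSucc 0, .ofNat 0, .ofNat 0, .ofNat 1⟩
  ⟨.ofNat 431, .negSucc 799, .ofNat 3919, .negSucc 3549⟩, .q ⟨.negSucc 0,
  .ofNat 0, .ofNat 0, .ofNat 1⟩ ⟨.ofNat 3667, .negSucc 3985, .negSucc 332,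
  .ofNat 652⟩, .q ⟨.negSucc 0, .ofNat 0, .ofNat 0, .ofNat 1⟩ ⟨.negSucc 82,
  .ofNat 0, .negSucc 1999, .ofNat 2083⟩],
[.q ⟨.negSucc 2, .negSucc 16, .ofNat 20, .ofNat 0⟩ ⟨.negSucc 36, .ofNat 17,
  .ofNat 20, .ofNat 0⟩, .q ⟨.ofNat 0, .ofNat 20, .negSucc 19, .ofNat 0⟩
  ⟨.negSucc 39, .ofNat 20, .ofNat 20, .ofNat 0⟩, .q ⟨.ofNat 37, .negSucc 16,
  .negSucc 19, .ofNat 0⟩ ⟨.ofNat 1667, .ofNat 333, .ofNat 0, .negSucc 1999⟩,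
  .q ⟨.ofNat 40, .negSucc 19, .negSucc 19, .ofNat 0⟩ ⟨.ofNat 1667, .ofNat
  333, .ofNat 0, .negSucc 1999⟩, .q ⟨.ofNat 37, .negSucc 16, .negSucc 19,
  .ofNat 0⟩ ⟨.ofNat 739, .negSucc 2949, .negSucc 1497, .ofNat 3709⟩, .q
  ⟨.ofNat 40, .negSucc 19, .negSucc 19, .ofNat 0⟩ ⟨.ofNat 739, .negSucc
  2949, .negSucc 1497, .ofNat 3709⟩, .q ⟨.ofNat 37, .negSucc 16, .negSucc
  19, .ofNat 0⟩ ⟨.ofNat 2535, .ofNat 3121, .negSucc 2855, .negSucc 2799⟩, .q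
  ⟨.ofNat 40, .negSucc 19, .negSucc 19, .ofNat 0⟩ ⟨.ofNat 2535, .ofNat 3121,
  .negSucc 2855, .negSucc 2799⟩],
[.q ⟨.negSucc 0, .ofNat 1, .ofNat 0, .ofNat 0⟩ ⟨.negSucc 916, .negSucc 42,
  .ofNat 960, .ofNat 0⟩, .q ⟨.negSucc 0, .ofNat 1, .ofNat 0, .ofNat 0⟩
  ⟨.ofNat 961, .ofNat 959, .negSucc 1919, .ofNat 0⟩, .l ⟨.ofNat 0, .ofNat 0,
  .negSucc 1919, .ofNat 19⟩ ⟨.ofNat 0, .ofNat 0, .ofNat 0, .ofNat 1⟩, .l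
  ⟨.ofNat 0, .ofNat 0, .ofNat 1920, .ofNat 103⟩ ⟨.ofNat 0, .ofNat 0, .ofNat
  0, .ofNat 1⟩],
[.q ⟨.negSucc 0, .ofNat 1, .ofNat 0, .ofNat 0⟩ ⟨.negSucc 588, .negSucc 50,
  .ofNat 640, .ofNat 0⟩, .q ⟨.negSucc 0, .ofNat 1, .ofNat 0, .ofNat 0⟩
  ⟨.ofNat 961, .ofNat 959, .negSucc 1919, .ofNat 0⟩, .l ⟨.ofNat 0, .ofNat 0,
  .negSucc 639, .ofNat 13⟩ ⟨.ofNat 0, .ofNat 0, .ofNat 0, .ofNat 1⟩, .l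
  ⟨.ofNat 0, .ofNat 0, .ofNat 120, .ofNat 7⟩ ⟨.ofNat 0, .ofNat 0, .ofNat 0,
  .ofNat 1⟩],
[.l ⟨.ofNat 0, .negSucc 3730, .negSucc 1440, .negSucc 42⟩ ⟨.ofNat 0, .ofNat
  0, .ofNat 0, .ofNat 1⟩, .l ⟨.ofNat 0, .ofNat 2295, .negSucc 3275, .negSucc
  151⟩ ⟨.ofNat 0, .ofNat 0, .ofNat 0, .ofNat 1⟩, .l ⟨.ofNat 0, .ofNat 1337,
  .ofNat 3770, .ofNat 2888⟩ ⟨.ofNat 0, .ofNat 0, .ofNat 0, .ofNat 1⟩, .l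
  ⟨.ofNat 0, .negSucc 2858, .ofNat 2797, .ofNat 350⟩ ⟨.ofNat 0, .ofNat 0,
  .ofNat 0, .ofNat 1⟩],
[.q ⟨.negSucc 3, .negSucc 35, .ofNat 40, .ofNat 0⟩ ⟨.negSucc 75, .ofNat 36,
  .ofNat 40, .ofNat 0⟩, .q ⟨.ofNat 1, .ofNat 39, .negSucc 39, .ofNat 0⟩
  ⟨.negSucc 78, .ofNat 39, .ofNat 40, .ofNat 0⟩, .q ⟨.ofNat 76, .negSucc 35,
  .negSucc 39, .ofNat 0⟩ ⟨.ofNat 1013, .negSucc 12, .ofNat 0, .negSucc 999⟩,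
  .q ⟨.ofNat 79, .negSucc 38, .negSucc 39, .ofNat 0⟩ ⟨.ofNat 1013, .negSucc
  12, .ofNat 0, .negSucc 999⟩, .q ⟨.ofNat 76, .negSucc 35, .negSucc 39,
  .ofNat 0⟩ ⟨.negSucc 3672, .ofNat 353, .negSucc 629, .ofNat 3950⟩, .q
  ⟨.ofNat 79, .negSucc 38, .negSucc 39, .ofNat 0⟩ ⟨.negSucc 3672, .ofNat
  353, .negSucc 629, .ofNat 3950⟩],
[.l ⟨.ofNat 0, .negSucc 364, .negSucc 3982, .negSucc 339⟩ ⟨.ofNat 0, .ofNat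
  0, .ofNat 0, .ofNat 1⟩, .l ⟨.ofNat 0, .ofNat 3045, .ofNat 2594, .ofNat
  2396⟩ ⟨.ofNat 0, .ofNat 0, .ofNat 0, .ofNat 1⟩, .l ⟨.ofNat 0, .negSucc
  2823, .ofNat 2833, .ofNat 2655⟩ ⟨.ofNat 0, .ofNat 0, .ofNat 0, .ofNat 1⟩,
  .l ⟨.ofNat 0, .negSucc 3986, .negSucc 325, .negSucc 168⟩ ⟨.ofNat 0, .ofNat
  0, .ofNat 0, .ofNat 1⟩],
[.q ⟨.negSucc 0, .ofNat 0, .ofNat 0, .ofNat 1⟩ ⟨.ofNat 667, .negSucc 902,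
  .negSucc 3896, .ofNat 4133⟩, .q ⟨.negSucc 0, .ofNat 0, .ofNat 0, .ofNat 1⟩
  ⟨.negSucc 4004, .ofNat 3991, .ofNat 264, .negSucc 249⟩, .q ⟨.negSucc 0,
  .ofNat 0, .ofNat 0, .ofNat 1⟩ ⟨.ofNat 799, .negSucc 1030, .ofNat 3865,
  .negSucc 3632⟩, .q ⟨.negSucc 0, .ofNat 0, .ofNat 0, .ofNat 1⟩ ⟨.ofNat
  1772, .negSucc 1978, .ofNat 290, .negSucc 82⟩],
[.l ⟨.ofNat 0, .ofNat 2828, .negSucc 2827, .ofNat 2179⟩ ⟨.ofNat 0, .ofNat 0,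
  .ofNat 0, .ofNat 1⟩, .l ⟨.ofNat 0, .ofNat 0, .ofNat 100, .ofNat 13⟩
  ⟨.ofNat 0, .ofNat 0, .ofNat 0, .ofNat 1⟩, .l ⟨.ofNat 0, .negSucc 3991,
  .negSucc 260, .negSucc 1846⟩ ⟨.ofNat 0, .ofNat 0, .ofNat 0, .ofNat 1⟩, .l
  ⟨.ofNat 0, .ofNat 2370, .negSucc 3222, .ofNat 1758⟩ ⟨.ofNat 0, .ofNat 0,
  .ofNat 0, .ofNat 1⟩],
[.q ⟨.negSucc 0, .ofNat 1, .ofNat 0, .ofNat 0⟩ ⟨.negSucc 876, .negSucc 82,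
  .ofNat 960, .ofNat 0⟩, .q ⟨.negSucc 0, .ofNat 1, .ofNat 0, .ofNat 0⟩
  ⟨.ofNat 961, .ofNat 959, .negSucc 1919, .ofNat 0⟩, .l ⟨.ofNat 0, .ofNat 0,
  .negSucc 639, .ofNat 13⟩ ⟨.ofNat 0, .ofNat 0, .ofNat 0, .ofNat 1⟩, .l
  ⟨.ofNat 0, .ofNat 0, .ofNat 640, .ofNat 39⟩ ⟨.ofNat 0, .ofNat 0, .ofNat 0,
  .ofNat 1⟩],
[.q ⟨.negSucc 10, .negSucc 8, .ofNat 20, .ofNat 0⟩ ⟨.negSucc 28, .ofNat 9,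
  .ofNat 20, .ofNat 0⟩, .q ⟨.ofNat 8, .ofNat 12, .negSucc 19, .ofNat 0⟩
  ⟨.negSucc 31, .ofNat 12, .ofNat 20, .ofNat 0⟩, .q ⟨.ofNat 29, .negSucc 8,
  .negSucc 19, .ofNat 0⟩ ⟨.ofNat 2029, .ofNat 1971, .ofNat 0, .negSucc
  3999⟩, .q ⟨.ofNat 32, .negSucc 11, .negSucc 19, .ofNat 0⟩ ⟨.ofNat 2029,
  .ofNat 1971, .ofNat 0, .negSucc 3999⟩, .q ⟨.ofNat 29, .negSucc 8, .negSucc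
  19, .ofNat 0⟩ ⟨.negSucc 1037, .negSucc 1390, .negSucc 1339, .ofNat 3769⟩,
  .q ⟨.ofNat 32, .negSucc 11, .negSucc 19, .ofNat 0⟩ ⟨.negSucc 1037,
  .negSucc 1390, .negSucc 1339, .ofNat 3769⟩, .q ⟨.ofNat 29, .negSucc 8,
  .negSucc 19, .ofNat 0⟩ ⟨.ofNat 2685, .ofNat 2705, .negSucc 3553, .negSucc
  1835⟩, .q ⟨.ofNat 32, .negSucc 11, .negSucc 19, .ofNat 0⟩ ⟨.ofNat 2685,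
  .ofNat 2705, .negSucc 3553, .negSucc 1835⟩],
[.q ⟨.negSucc 10, .negSucc 68, .ofNat 80, .ofNat 0⟩ ⟨.negSucc 148, .ofNat
  69, .ofNat 80, .ofNat 0⟩, .q ⟨.ofNat 7, .ofNat 73, .negSucc 79, .ofNat 0⟩
  ⟨.negSucc 152, .ofNat 73, .ofNat 80, .ofNat 0⟩, .q ⟨.ofNat 149, .negSucc
  68, .negSucc 79, .ofNat 0⟩ ⟨.ofNat 15623, .negSucc 10645, .negSucc 1143,
  .negSucc 3832⟩, .q ⟨.ofNat 153, .negSucc 72, .negSucc 79, .ofNat 0⟩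
  ⟨.ofNat 15623, .negSucc 10645, .negSucc 1143, .negSucc 3832⟩, .q ⟨.ofNat
  149, .negSucc 68, .negSucc 79, .ofNat 0⟩ ⟨.negSucc 2956, .ofNat 1798,
  .negSucc 2188, .ofNat 3348⟩, .q ⟨.ofNat 153, .negSucc 72, .negSucc 79,
  .ofNat 0⟩ ⟨.negSucc 2956, .ofNat 1798, .negSucc 2188, .ofNat 3348⟩, .q
  ⟨.ofNat 149, .negSucc 68, .negSucc 79, .ofNat 0⟩ ⟨.ofNat 2023, .ofNat 327,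
  .negSucc 387, .negSucc 1961⟩, .q ⟨.ofNat 153, .negSucc 72, .negSucc 79,
  .ofNat 0⟩ ⟨.ofNat 2023, .ofNat 327, .negSucc 387, .negSucc 1961⟩],
[.q ⟨.ofNat 17, .negSucc 18, .negSucc 27, .ofNat 30⟩ ⟨.negSucc 2963,
  .negSucc 1176, .ofNat 1921, .ofNat 2220⟩, .q ⟨.ofNat 17, .negSucc 18,
  .negSucc 27, .ofNat 30⟩ ⟨.ofNat 3300, .negSucc 4206, .ofNat 427, .ofNat
  480⟩, .q ⟨.ofNat 17, .negSucc 18, .negSucc 27, .ofNat 30⟩ ⟨.ofNat 2307,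
  .ofNat 1797, .negSucc 2063, .negSucc 2039⟩, .q ⟨.ofNat 17, .negSucc 18,
  .negSucc 27, .ofNat 30⟩ ⟨.negSucc 2235, .ofNat 1732, .ofNat 174, .ofNat
  330⟩],
[.q ⟨.negSucc 0, .ofNat 1, .ofNat 0, .ofNat 0⟩ ⟨.negSucc 1716, .negSucc 202,
  .ofNat 1920, .ofNat 0⟩, .q ⟨.negSucc 0, .ofNat 1, .ofNat 0, .ofNat 0⟩
  ⟨.ofNat 961, .ofNat 959, .negSucc 1919, .ofNat 0⟩, .l ⟨.ofNat 0, .ofNat 0,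
  .negSucc 319, .ofNat 7⟩ ⟨.ofNat 0, .ofNat 0, .ofNat 0, .ofNat 1⟩, .l
  ⟨.ofNat 0, .ofNat 0, .ofNat 1920, .ofNat 127⟩ ⟨.ofNat 0, .ofNat 0, .ofNat
  0, .ofNat 1⟩],
[.q ⟨.negSucc 4, .negSucc 34, .ofNat 40, .ofNat 0⟩ ⟨.negSucc 74, .ofNat 35,
  .ofNat 40, .ofNat 0⟩, .q ⟨.ofNat 2, .ofNat 38, .negSucc 39, .ofNat 0⟩
  ⟨.negSucc 77, .ofNat 38, .ofNat 40, .ofNat 0⟩, .q ⟨.ofNat 75, .negSucc 34,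
  .negSucc 39, .ofNat 0⟩ ⟨.ofNat 1009, .negSucc 8, .ofNat 0, .negSucc 999⟩,
  .q ⟨.ofNat 78, .negSucc 37, .negSucc 39, .ofNat 0⟩ ⟨.ofNat 1009, .negSucc
  8, .ofNat 0, .negSucc 999⟩, .q ⟨.ofNat 75, .negSucc 34, .negSucc 39,
  .ofNat 0⟩ ⟨.negSucc 1886, .negSucc 112, .ofNat 0, .ofNat 2000⟩, .q ⟨.ofNat
  78, .negSucc 37, .negSucc 39, .ofNat 0⟩ ⟨.negSucc 1886, .negSucc 112,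
  .ofNat 0, .ofNat 2000⟩, .q ⟨.ofNat 75, .negSucc 34, .negSucc 39, .ofNat 0⟩
  ⟨.negSucc 2904, .ofNat 1851, .negSucc 2251, .ofNat 3306⟩, .q ⟨.ofNat 78,
  .negSucc 37, .negSucc 39, .ofNat 0⟩ ⟨.negSucc 2904, .ofNat 1851, .negSucc
  2251, .ofNat 3306⟩],
[.q ⟨.negSucc 0, .ofNat 1, .ofNat 0, .ofNat 0⟩ ⟨.negSucc 118, .negSucc 8,
  .ofNat 128, .ofNat 0⟩, .q ⟨.negSucc 0, .ofNat 1, .ofNat 0, .ofNat 0⟩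
  ⟨.ofNat 961, .ofNat 959, .negSucc 1919, .ofNat 0⟩, .l ⟨.ofNat 0, .ofNat 0,
  .negSucc 1919, .ofNat 37⟩ ⟨.ofNat 0, .ofNat 0, .ofNat 0, .ofNat 1⟩, .l
  ⟨.ofNat 0, .ofNat 0, .ofNat 160, .ofNat 9⟩ ⟨.ofNat 0, .ofNat 0, .ofNat 0,
  .ofNat 1⟩],
[.q ⟨.negSucc 0, .ofNat 0, .ofNat 0, .ofNat 1⟩ ⟨.negSucc 4186, .ofNat 3964,
  .ofNat 539, .negSucc 315⟩, .q ⟨.negSucc 0, .ofNat 0, .ofNat 0, .ofNat 1⟩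
  ⟨.negSucc 525, .ofNat 196, .ofNat 3995, .negSucc 3664⟩, .q ⟨.negSucc 0,
  .ofNat 0, .ofNat 0, .ofNat 1⟩ ⟨.ofNat 1695, .negSucc 1893, .ofNat 643,
  .negSucc 443⟩, .q ⟨.negSucc 0, .ofNat 0, .ofNat 0, .ofNat 1⟩ ⟨.ofNat 1593,
  .negSucc 1833, .negSucc 3554, .ofNat 3796⟩, .q ⟨.negSucc 0, .ofNat 0,
  .ofNat 0, .ofNat 1⟩ ⟨.negSucc 1508, .ofNat 1414, .negSucc 1413, .ofNat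
  1509⟩],
[.q ⟨.negSucc 0, .ofNat 0, .ofNat 0, .ofNat 1⟩ ⟨.ofNat 49, .negSucc 96,
  .ofNat 794, .negSucc 745⟩, .q ⟨.negSucc 0, .ofNat 0, .ofNat 0, .ofNat 1⟩
  ⟨.ofNat 3456, .negSucc 3870, .ofNat 1009, .negSucc 593⟩, .q ⟨.negSucc 0,
  .ofNat 0, .ofNat 0, .ofNat 1⟩ ⟨.ofNat 1708, .negSucc 1988, .negSucc 3469,
  .ofNat 3751⟩, .q ⟨.negSucc 0, .ofNat 0, .ofNat 0, .ofNat 1⟩ ⟨.negSucc 396,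
  .ofNat 404, .negSucc 403, .ofNat 397⟩],
[.q ⟨.negSucc 2, .negSucc 16, .ofNat 20, .ofNat 0⟩ ⟨.negSucc 36, .ofNat 17,
  .ofNat 20, .ofNat 0⟩, .q ⟨.ofNat 0, .ofNat 20, .negSucc 19, .ofNat 0⟩
  ⟨.negSucc 39, .ofNat 20, .ofNat 20, .ofNat 0⟩, .q ⟨.ofNat 37, .negSucc 16,
  .negSucc 19, .ofNat 0⟩ ⟨.ofNat 503, .negSucc 2, .ofNat 0, .negSucc 499⟩,
  .q ⟨.ofNat 40, .negSucc 19, .negSucc 19, .ofNat 0⟩ ⟨.ofNat 503, .negSucc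
  2, .ofNat 0, .negSucc 499⟩, .q ⟨.ofNat 37, .negSucc 16, .negSucc 19,
  .ofNat 0⟩ ⟨.negSucc 873, .ofNat 717, .negSucc 860, .ofNat 1018⟩, .q
  ⟨.ofNat 40, .negSucc 19, .negSucc 19, .ofNat 0⟩ ⟨.negSucc 873, .ofNat 717,
  .negSucc 860, .ofNat 1018⟩, .q ⟨.ofNat 37, .negSucc 16, .negSucc 19,
  .ofNat 0⟩ ⟨.negSucc 3548, .negSucc 1888, .ofNat 1939, .ofNat 3499⟩, .q
  ⟨.ofNat 40, .negSucc 19, .negSucc 19, .ofNat 0⟩ ⟨.negSucc 3548, .negSucc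
  1888, .ofNat 1939, .ofNat 3499⟩],
[.q ⟨.negSucc 0, .ofNat 0, .ofNat 0, .ofNat 1⟩ ⟨.ofNat 3582, .negSucc 3966,
  .ofNat 514, .negSucc 128⟩, .q ⟨.negSucc 0, .ofNat 0, .ofNat 0, .ofNat 1⟩
  ⟨.ofNat 559, .negSucc 807, .negSucc 3916, .ofNat 4166⟩, .q ⟨.negSucc 0,
  .ofNat 0, .ofNat 0, .ofNat 1⟩ ⟨.negSucc 1880, .ofNat 2000, .ofNat 0,
  .negSucc 118⟩, .q ⟨.negSucc 0, .ofNat 0, .ofNat 0, .ofNat 1⟩ ⟨.ofNat 2053,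
  .negSucc 2485, .ofNat 3134, .negSucc 2700⟩],
[.q ⟨.negSucc 2, .negSucc 36, .ofNat 40, .ofNat 0⟩ ⟨.negSucc 76, .ofNat 37,
  .ofNat 40, .ofNat 0⟩, .q ⟨.negSucc 0, .ofNat 41, .negSucc 39, .ofNat 0⟩
  ⟨.negSucc 80, .ofNat 41, .ofNat 40, .ofNat 0⟩, .q ⟨.ofNat 77, .negSucc 36,
  .negSucc 39, .ofNat 0⟩ ⟨.ofNat 3323, .ofNat 677, .ofNat 0, .negSucc 3999⟩,
  .q ⟨.ofNat 81, .negSucc 40, .negSucc 39, .ofNat 0⟩ ⟨.ofNat 3323, .ofNat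
  677, .ofNat 0, .negSucc 3999⟩, .q ⟨.ofNat 77, .negSucc 36, .negSucc 39,
  .ofNat 0⟩ ⟨.ofNat 749, .negSucc 4748, .ofNat 0, .ofNat 4000⟩, .q ⟨.ofNat
  81, .negSucc 40, .negSucc 39, .ofNat 0⟩ ⟨.ofNat 749, .negSucc 4748, .ofNat
  0, .ofNat 4000⟩],
[.l ⟨.ofNat 0, .ofNat 0, .negSucc 1999, .negSucc 208⟩ ⟨.ofNat 0, .ofNat 0,
  .ofNat 0, .ofNat 1⟩, .l ⟨.ofNat 0, .ofNat 707, .ofNat 707, .ofNat 589⟩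
  ⟨.ofNat 0, .ofNat 0, .ofNat 0, .ofNat 1⟩, .l ⟨.ofNat 0, .negSucc 3998,
  .negSucc 100, .ofNat 103⟩ ⟨.ofNat 0, .ofNat 0, .ofNat 0, .ofNat 1⟩, .l
  ⟨.ofNat 0, .negSucc 2974, .negSucc 2673, .negSucc 197⟩ ⟨.ofNat 0, .ofNat
  0, .ofNat 0, .ofNat 1⟩],
[.q ⟨.negSucc 0, .ofNat 1, .ofNat 0, .ofNat 0⟩ ⟨.negSucc 1788, .negSucc 130,
  .ofNat 1920, .ofNat 0⟩, .q ⟨.negSucc 0, .ofNat 1, .ofNat 0, .ofNat 0⟩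
  ⟨.ofNat 961, .ofNat 959, .negSucc 1919, .ofNat 0⟩, .l ⟨.ofNat 0, .ofNat 0,
  .negSucc 1919, .ofNat 29⟩ ⟨.ofNat 0, .ofNat 0, .ofNat 0, .ofNat 1⟩, .l
  ⟨.ofNat 0, .ofNat 0, .ofNat 160, .ofNat 9⟩ ⟨.ofNat 0, .ofNat 0, .ofNat 0,
  .ofNat 1⟩],
[.l ⟨.ofNat 0, .ofNat 20, .ofNat 0, .negSucc 14⟩ ⟨.ofNat 0, .ofNat 20,
  .ofNat 0, .ofNat 15⟩, .l ⟨.ofNat 0, .negSucc 19, .ofNat 0, .ofNat 18⟩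
  ⟨.ofNat 0, .ofNat 20, .ofNat 0, .ofNat 18⟩, .l ⟨.ofNat 0, .ofNat 20,
  .ofNat 0, .negSucc 14⟩ ⟨.ofNat 0, .ofNat 98, .ofNat 3999, .ofNat 2952⟩, .l
  ⟨.ofNat 0, .ofNat 20, .ofNat 0, .negSucc 17⟩ ⟨.ofNat 0, .ofNat 98, .ofNat
  3999, .ofNat 2952⟩, .l ⟨.ofNat 0, .ofNat 20, .ofNat 0, .negSucc 14⟩
  ⟨.ofNat 0, .negSucc 97, .negSucc 3998, .negSucc 3371⟩, .l ⟨.ofNat 0,
  .ofNat 20, .ofNat 0, .negSucc 17⟩ ⟨.ofNat 0, .negSucc 97, .negSucc 3998,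
  .negSucc 3371⟩],
[.q ⟨.negSucc 0, .ofNat 0, .ofNat 0, .ofNat 1⟩ ⟨.ofNat 2479, .negSucc 2658,
  .negSucc 2987, .ofNat 3168⟩, .q ⟨.negSucc 0, .ofNat 0, .ofNat 0, .ofNat 1⟩
  ⟨.ofNat 319, .ofNat 0, .negSucc 3999, .ofNat 3681⟩, .q ⟨.negSucc 0, .ofNat
  0, .ofNat 0, .ofNat 1⟩ ⟨.negSucc 1179, .ofNat 1319, .negSucc 195, .ofNat
  57⟩, .q ⟨.negSucc 0, .ofNat 0, .ofNat 0, .ofNat 1⟩ ⟨.negSucc 1677, .ofNat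
  1247, .ofNat 3801, .negSucc 3369⟩],
[.l ⟨.ofNat 0, .negSucc 1413, .ofNat 1414, .ofNat 201⟩ ⟨.ofNat 0, .ofNat 0,
  .ofNat 0, .ofNat 1⟩, .l ⟨.ofNat 0, .negSucc 3914, .negSucc 818, .ofNat 23⟩
  ⟨.ofNat 0, .ofNat 0, .ofNat 0, .ofNat 1⟩, .l ⟨.ofNat 0, .ofNat 0, .negSucc
  1999, .negSucc 208⟩ ⟨.ofNat 0, .ofNat 0, .ofNat 0, .ofNat 1⟩, .l ⟨.ofNat
  0, .ofNat 2134, .negSucc 3382, .ofNat 422⟩ ⟨.ofNat 0, .ofNat 0, .ofNat 0,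
  .ofNat 1⟩, .l ⟨.ofNat 0, .ofNat 3127, .ofNat 2495, .ofNat 3340⟩ ⟨.ofNat 0,
  .ofNat 0, .ofNat 0, .ofNat 1⟩],
[.q ⟨.negSucc 0, .negSucc 8, .ofNat 10, .ofNat 0⟩ ⟨.negSucc 18, .ofNat 9,
  .ofNat 10, .ofNat 0⟩, .q ⟨.ofNat 0, .ofNat 10, .negSucc 9, .ofNat 0⟩
  ⟨.negSucc 19, .ofNat 10, .ofNat 10, .ofNat 0⟩, .q ⟨.ofNat 19, .negSucc 8,
  .negSucc 9, .ofNat 0⟩ ⟨.ofNat 4063, .ofNat 106, .negSucc 172, .negSucc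
  3995⟩, .q ⟨.ofNat 20, .negSucc 9, .negSucc 9, .ofNat 0⟩ ⟨.ofNat 4063,
  .ofNat 106, .negSucc 172, .negSucc 3995⟩, .q ⟨.ofNat 19, .negSucc 8,
  .negSucc 9, .ofNat 0⟩ ⟨.negSucc 3796, .negSucc 371, .ofNat 173, .ofNat
  3996⟩, .q ⟨.ofNat 20, .negSucc 9, .negSucc 9, .ofNat 0⟩ ⟨.negSucc 3796,
  .negSucc 371, .ofNat 173, .ofNat 3996⟩],
[.q ⟨.negSucc 78, .negSucc 80, .ofNat 160, .ofNat 0⟩ ⟨.negSucc 240, .ofNat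
  81, .ofNat 160, .ofNat 0⟩, .q ⟨.ofNat 76, .ofNat 84, .negSucc 159, .ofNat
  0⟩ ⟨.negSucc 243, .ofNat 84, .ofNat 160, .ofNat 0⟩, .q ⟨.ofNat 241,
  .negSucc 80, .negSucc 159, .ofNat 0⟩ ⟨.ofNat 407, .ofNat 393, .ofNat 0,
  .negSucc 799⟩, .q ⟨.ofNat 244, .negSucc 83, .negSucc 159, .ofNat 0⟩
  ⟨.ofNat 407, .ofNat 393, .ofNat 0, .negSucc 799⟩, .q ⟨.ofNat 241, .negSucc
  80, .negSucc 159, .ofNat 0⟩ ⟨.negSucc 248, .negSucc 550, .ofNat 0, .ofNat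
  800⟩, .q ⟨.ofNat 244, .negSucc 83, .negSucc 159, .ofNat 0⟩ ⟨.negSucc 248,
  .negSucc 550, .ofNat 0, .ofNat 800⟩, .q ⟨.ofNat 241, .negSucc 80, .negSucc
  159, .ofNat 0⟩ ⟨.ofNat 2706, .ofNat 2745, .negSucc 3480, .negSucc 1969⟩,
  .q ⟨.ofNat 244, .negSucc 83, .negSucc 159, .ofNat 0⟩ ⟨.ofNat 2706, .ofNat
  2745, .negSucc 3480, .negSucc 1969⟩],
[.q ⟨.negSucc 0, .ofNat 1, .ofNat 0, .ofNat 0⟩ ⟨.negSucc 1852, .negSucc 66,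
  .ofNat 1920, .ofNat 0⟩, .q ⟨.negSucc 0, .ofNat 1, .ofNat 0, .ofNat 0⟩
  ⟨.ofNat 961, .ofNat 959, .negSucc 1919, .ofNat 0⟩, .l ⟨.ofNat 0, .ofNat 0,
  .negSucc 639, .ofNat 3⟩ ⟨.ofNat 0, .ofNat 0, .ofNat 0, .ofNat 1⟩, .l
  ⟨.ofNat 0, .ofNat 0, .ofNat 960, .ofNat 47⟩ ⟨.ofNat 0, .ofNat 0, .ofNat 0,
  .ofNat 1⟩],
[.q ⟨.negSucc 20, .negSucc 18, .ofNat 40, .ofNat 0⟩ ⟨.negSucc 58, .ofNat 19,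
  .ofNat 40, .ofNat 0⟩, .q ⟨.ofNat 19, .ofNat 21, .negSucc 39, .ofNat 0⟩
  ⟨.negSucc 60, .ofNat 21, .ofNat 40, .ofNat 0⟩, .q ⟨.ofNat 59, .negSucc 18,
  .negSucc 39, .ofNat 0⟩ ⟨.ofNat 403, .ofNat 397, .ofNat 0, .negSucc 799⟩,
  .q ⟨.ofNat 61, .negSucc 20, .negSucc 39, .ofNat 0⟩ ⟨.ofNat 403, .ofNat
  397, .ofNat 0, .negSucc 799⟩, .q ⟨.ofNat 59, .negSucc 18, .negSucc 39,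
  .ofNat 0⟩ ⟨.negSucc 1045, .negSucc 1296, .negSucc 1402, .ofNat 3746⟩, .q
  ⟨.ofNat 61, .negSucc 20, .negSucc 39, .ofNat 0⟩ ⟨.negSucc 1045, .negSucc
  1296, .negSucc 1402, .ofNat 3746⟩, .q ⟨.ofNat 59, .negSucc 18, .negSucc
  39, .ofNat 0⟩ ⟨.ofNat 2601, .ofNat 2587, .negSucc 3720, .negSucc 1466⟩, .q
  ⟨.ofNat 61, .negSucc 20, .negSucc 39, .ofNat 0⟩ ⟨.ofNat 2601, .ofNat 2587,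
  .negSucc 3720, .negSucc 1466⟩],
[.l ⟨.ofNat 0, .ofNat 0, .ofNat 4000, .ofNat 129⟩ ⟨.ofNat 0, .ofNat 0,
  .ofNat 0, .ofNat 1⟩, .l ⟨.ofNat 0, .negSucc 1437, .ofNat 3733, .ofNat 31⟩
  ⟨.ofNat 0, .ofNat 0, .ofNat 0, .ofNat 1⟩, .l ⟨.ofNat 0, .negSucc 753,
  .negSucc 3927, .ofNat 15⟩ ⟨.ofNat 0, .ofNat 0, .ofNat 0, .ofNat 1⟩, .l
  ⟨.ofNat 0, .ofNat 3200, .negSucc 2398, .ofNat 379⟩ ⟨.ofNat 0, .ofNat 0,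
  .ofNat 0, .ofNat 1⟩],
[.q ⟨.ofNat 17, .negSucc 18, .negSucc 27, .ofNat 30⟩ ⟨.negSucc 2792,
  .negSucc 1348, .ofNat 2012, .ofNat 2130⟩, .q ⟨.ofNat 17, .negSucc 18,
  .negSucc 27, .ofNat 30⟩ ⟨.ofNat 4839, .negSucc 1986, .negSucc 1411,
  .negSucc 1439⟩, .q ⟨.ofNat 17, .negSucc 18, .negSucc 27, .ofNat 30⟩
  ⟨.ofNat 185, .ofNat 3266, .negSucc 1770, .negSucc 1679⟩],
[.q ⟨.negSucc 0, .ofNat 0, .ofNat 0, .ofNat 1⟩ ⟨.negSucc 499, .negSucc 48,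
  .ofNat 4000, .negSucc 3450⟩, .q ⟨.negSucc 0, .ofNat 0, .ofNat 0, .ofNat 1⟩
  ⟨.ofNat 1567, .negSucc 3126, .ofNat 2494, .negSucc 933⟩, .q ⟨.negSucc 0,
  .ofNat 0, .ofNat 0, .ofNat 1⟩ ⟨.ofNat 413, .ofNat 0, .negSucc 3999, .ofNat
  3587⟩, .q ⟨.negSucc 0, .ofNat 0, .ofNat 0, .ofNat 1⟩ ⟨.negSucc 1845,
  .ofNat 2000, .negSucc 30, .negSucc 122⟩],
[.q ⟨.negSucc 0, .ofNat 1, .ofNat 0, .ofNat 0⟩ ⟨.negSucc 1708, .negSucc 210,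
  .ofNat 1920, .ofNat 0⟩, .q ⟨.negSucc 0, .ofNat 1, .ofNat 0, .ofNat 0⟩
  ⟨.ofNat 961, .ofNat 959, .negSucc 1919, .ofNat 0⟩, .l ⟨.ofNat 0, .ofNat 0,
  .negSucc 1919, .ofNat 49⟩ ⟨.ofNat 0, .ofNat 0, .ofNat 0, .ofNat 1⟩, .l
  ⟨.ofNat 0, .ofNat 0, .ofNat 192, .ofNat 13⟩ ⟨.ofNat 0, .ofNat 0, .ofNat 0,
  .ofNat 1⟩],
[.l ⟨.ofNat 0, .ofNat 40, .ofNat 0, .negSucc 36⟩ ⟨.ofNat 0, .ofNat 40,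
  .ofNat 0, .ofNat 37⟩, .l ⟨.ofNat 0, .negSucc 39, .ofNat 0, .ofNat 41⟩
  ⟨.ofNat 0, .ofNat 40, .ofNat 0, .ofNat 41⟩, .l ⟨.ofNat 0, .ofNat 40,
  .ofNat 0, .negSucc 36⟩ ⟨.ofNat 0, .ofNat 0, .ofNat 2000, .ofNat 1763⟩, .l
  ⟨.ofNat 0, .ofNat 40, .ofNat 0, .negSucc 40⟩ ⟨.ofNat 0, .ofNat 0, .ofNat
  2000, .ofNat 1763⟩, .l ⟨.ofNat 0, .ofNat 40, .ofNat 0, .negSucc 36⟩
  ⟨.ofNat 0, .ofNat 0, .negSucc 3999, .negSucc 4310⟩, .l ⟨.ofNat 0, .ofNat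
  40, .ofNat 0, .negSucc 40⟩ ⟨.ofNat 0, .ofNat 0, .negSucc 3999, .negSucc
  4310⟩],
[.q ⟨.negSucc 0, .ofNat 0, .ofNat 0, .ofNat 1⟩ ⟨.ofNat 654, .negSucc 706,
  .negSucc 706, .ofNat 760⟩, .q ⟨.negSucc 0, .ofNat 0, .ofNat 0, .ofNat 1⟩
  ⟨.negSucc 2754, .ofNat 2584, .negSucc 3052, .ofNat 3224⟩, .q ⟨.negSucc 0,
  .ofNat 0, .ofNat 0, .ofNat 1⟩ ⟨.negSucc 4198, .ofNat 3985, .ofNat 343,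
  .negSucc 128⟩, .q ⟨.negSucc 0, .ofNat 0, .ofNat 0, .ofNat 1⟩ ⟨.negSucc
  308, .ofNat 0, .ofNat 4000, .negSucc 3690⟩, .q ⟨.negSucc 0, .ofNat 0,
  .ofNat 0, .ofNat 1⟩ ⟨.ofNat 2465, .negSucc 2827, .ofNat 2828, .negSucc
  2464⟩],
[.q ⟨.negSucc 0, .ofNat 0, .ofNat 0, .ofNat 1⟩ ⟨.ofNat 3407, .negSucc 3823,
  .ofNat 1174, .negSucc 756⟩, .q ⟨.negSucc 0, .ofNat 0, .ofNat 0, .ofNat 1⟩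
  ⟨.ofNat 141, .negSucc 166, .negSucc 985, .ofNat 1012⟩, .q ⟨.negSucc 0,
  .ofNat 0, .ofNat 0, .ofNat 1⟩ ⟨.negSucc 4008, .ofNat 3939, .negSucc 697,
  .ofNat 768⟩, .q ⟨.negSucc 0, .ofNat 0, .ofNat 0, .ofNat 1⟩ ⟨.ofNat 171,
  .negSucc 366, .ofNat 1966, .negSucc 1769⟩],
[.q ⟨.negSucc 0, .ofNat 0, .ofNat 0, .ofNat 1⟩ ⟨.ofNat 611, .negSucc 955,
  .ofNat 3884, .negSucc 3538⟩, .q ⟨.negSucc 0, .ofNat 0, .ofNat 0, .ofNat 1⟩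
  ⟨.ofNat 883, .negSucc 982, .ofNat 183, .negSucc 82⟩, .q ⟨.negSucc 0,
  .ofNat 0, .ofNat 0, .ofNat 1⟩ ⟨.negSucc 12, .ofNat 14, .negSucc 13, .ofNat
  13⟩],
[.l ⟨.ofNat 0, .ofNat 536, .ofNat 3964, .ofNat 145⟩ ⟨.ofNat 0, .ofNat 0,
  .ofNat 0, .ofNat 1⟩, .l ⟨.ofNat 0, .negSucc 2677, .ofNat 2971, .ofNat 110⟩
  ⟨.ofNat 0, .ofNat 0, .ofNat 0, .ofNat 1⟩, .l ⟨.ofNat 0, .negSucc 2607,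
  .negSucc 3032, .ofNat 9⟩ ⟨.ofNat 0, .ofNat 0, .ofNat 0, .ofNat 1⟩, .l
  ⟨.ofNat 0, .ofNat 656, .negSucc 3945, .ofNat 83⟩ ⟨.ofNat 0, .ofNat 0,
  .ofNat 0, .ofNat 1⟩],
[.q ⟨.negSucc 0, .ofNat 1, .ofNat 0, .ofNat 0⟩ ⟨.negSucc 918, .negSucc 40,
  .ofNat 960, .ofNat 0⟩, .q ⟨.negSucc 0, .ofNat 1, .ofNat 0, .ofNat 0⟩
  ⟨.ofNat 961, .ofNat 959, .negSucc 1919, .ofNat 0⟩, .l ⟨.ofNat 0, .ofNat 0,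
  .negSucc 1919, .ofNat 19⟩ ⟨.ofNat 0, .ofNat 0, .ofNat 0, .ofNat 1⟩, .l
  ⟨.ofNat 0, .ofNat 0, .ofNat 320, .ofNat 17⟩ ⟨.ofNat 0, .ofNat 0, .ofNat 0,
  .ofNat 1⟩],
[.l ⟨.ofNat 0, .ofNat 3253, .ofNat 2328, .ofNat 2441⟩ ⟨.ofNat 0, .ofNat 0,
  .ofNat 0, .ofNat 1⟩, .l ⟨.ofNat 0, .negSucc 3506, .ofNat 1924, .negSucc
  179⟩ ⟨.ofNat 0, .ofNat 0, .ofNat 0, .ofNat 1⟩, .l ⟨.ofNat 0, .negSucc 89,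
  .negSucc 995, .ofNat 11⟩ ⟨.ofNat 0, .ofNat 0, .ofNat 0, .ofNat 1⟩],
[.q ⟨.ofNat 17, .negSucc 18, .negSucc 27, .ofNat 30⟩ ⟨.negSucc 2368, .ofNat
  901, .ofNat 658, .ofNat 810⟩, .q ⟨.ofNat 17, .negSucc 18, .negSucc 27,
  .ofNat 30⟩ ⟨.ofNat 1286, .negSucc 3931, .ofNat 1296, .ofNat 1350⟩, .q
  ⟨.ofNat 17, .negSucc 18, .negSucc 27, .ofNat 30⟩ ⟨.ofNat 3026, .ofNat
  1107, .negSucc 2062, .negSucc 2069⟩],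
[.l ⟨.ofNat 0, .negSucc 499, .ofNat 0, .ofNat 9⟩ ⟨.ofNat 0, .ofNat 0, .ofNat
  0, .ofNat 1⟩, .l ⟨.ofNat 0, .negSucc 246, .negSucc 760, .negSucc 29⟩
  ⟨.ofNat 0, .ofNat 0, .ofNat 0, .ofNat 1⟩, .l ⟨.ofNat 0, .ofNat 3968,
  .negSucc 504, .ofNat 94⟩ ⟨.ofNat 0, .ofNat 0, .ofNat 0, .ofNat 1⟩, .l
  ⟨.ofNat 0, .negSucc 356, .ofNat 563, .ofNat 448⟩ ⟨.ofNat 0, .ofNat 0,
  .ofNat 0, .ofNat 1⟩],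
[.l ⟨.ofNat 0, .negSucc 941, .negSucc 3886, .negSucc 385⟩ ⟨.ofNat 0, .ofNat
  0, .ofNat 0, .ofNat 1⟩, .l ⟨.ofNat 0, .ofNat 3774, .ofNat 1325, .ofNat
  1381⟩ ⟨.ofNat 0, .ofNat 0, .ofNat 0, .ofNat 1⟩, .l ⟨.ofNat 0, .negSucc
  2068, .ofNat 3423, .ofNat 2785⟩ ⟨.ofNat 0, .ofNat 0, .ofNat 0, .ofNat 1⟩,
  .l ⟨.ofNat 0, .negSucc 3982, .negSucc 364, .ofNat 74⟩ ⟨.ofNat 0, .ofNat 0,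
  .ofNat 0, .ofNat 1⟩],
[.q ⟨.negSucc 0, .ofNat 0, .ofNat 0, .ofNat 1⟩ ⟨.ofNat 979, .negSucc 752,
  .negSucc 3927, .ofNat 3702⟩, .q ⟨.negSucc 0, .ofNat 0, .ofNat 0, .ofNat 1⟩
  ⟨.negSucc 8, .ofNat 10, .ofNat 0, .negSucc 0⟩, .q ⟨.negSucc 0, .ofNat 0,
  .ofNat 0, .ofNat 1⟩ ⟨.ofNat 3043, .negSucc 3798, .ofNat 1253, .negSucc
  496⟩],
[.q ⟨.negSucc 5, .negSucc 33, .ofNat 40, .ofNat 0⟩ ⟨.negSucc 73, .ofNat 34,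
  .ofNat 40, .ofNat 0⟩, .q ⟨.ofNat 3, .ofNat 37, .negSucc 39, .ofNat 0⟩
  ⟨.negSucc 76, .ofNat 37, .ofNat 40, .ofNat 0⟩, .q ⟨.ofNat 74, .negSucc 33,
  .negSucc 39, .ofNat 0⟩ ⟨.ofNat 4062, .ofNat 419, .negSucc 513, .negSucc
  3966⟩, .q ⟨.ofNat 77, .negSucc 36, .negSucc 39, .ofNat 0⟩ ⟨.ofNat 4062,
  .ofNat 419, .negSucc 513, .negSucc 3966⟩, .q ⟨.ofNat 74, .negSucc 33,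
  .negSucc 39, .ofNat 0⟩ ⟨.negSucc 2986, .ofNat 1793, .negSucc 2167, .ofNat
  3362⟩, .q ⟨.ofNat 77, .negSucc 36, .negSucc 39, .ofNat 0⟩ ⟨.negSucc 2986,
  .ofNat 1793, .negSucc 2167, .ofNat 3362⟩],
[.q ⟨.negSucc 2, .negSucc 16, .ofNat 20, .ofNat 0⟩ ⟨.negSucc 36, .ofNat 17,
  .ofNat 20, .ofNat 0⟩, .q ⟨.ofNat 0, .ofNat 20, .negSucc 19, .ofNat 0⟩
  ⟨.negSucc 39, .ofNat 20, .ofNat 20, .ofNat 0⟩, .q ⟨.ofNat 37, .negSucc 16,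
  .negSucc 19, .ofNat 0⟩ ⟨.ofNat 4041, .negSucc 40, .ofNat 0, .negSucc
  3999⟩, .q ⟨.ofNat 40, .negSucc 19, .negSucc 19, .ofNat 0⟩ ⟨.ofNat 4041,
  .negSucc 40, .ofNat 0, .negSucc 3999⟩, .q ⟨.ofNat 37, .negSucc 16,
  .negSucc 19, .ofNat 0⟩ ⟨.negSucc 3700, .negSucc 1190, .ofNat 1026, .ofNat
  3866⟩, .q ⟨.ofNat 40, .negSucc 19, .negSucc 19, .ofNat 0⟩ ⟨.negSucc 3700,
  .negSucc 1190, .ofNat 1026, .ofNat 3866⟩, .q ⟨.ofNat 37, .negSucc 16,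
  .negSucc 19, .ofNat 0⟩ ⟨.ofNat 2802, .ofNat 2797, .negSucc 3202, .negSucc
  2395⟩, .q ⟨.ofNat 40, .negSucc 19, .negSucc 19, .ofNat 0⟩ ⟨.ofNat 2802,
  .ofNat 2797, .negSucc 3202, .negSucc 2395⟩, .q ⟨.ofNat 37, .negSucc 16,
  .negSucc 19, .ofNat 0⟩ ⟨.negSucc 1068, .ofNat 501, .negSucc 614, .ofNat
  1183⟩, .q ⟨.ofNat 40, .negSucc 19, .negSucc 19, .ofNat 0⟩ ⟨.negSucc 1068,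
  .ofNat 501, .negSucc 614, .ofNat 1183⟩],
[.q ⟨.negSucc 1, .negSucc 7, .ofNat 10, .ofNat 0⟩ ⟨.negSucc 17, .ofNat 8,
  .ofNat 10, .ofNat 0⟩, .q ⟨.ofNat 1, .ofNat 9, .negSucc 9, .ofNat 0⟩
  ⟨.negSucc 18, .ofNat 9, .ofNat 10, .ofNat 0⟩, .q ⟨.ofNat 18, .negSucc 7,
  .negSucc 9, .ofNat 0⟩ ⟨.ofNat 4067, .ofNat 437, .negSucc 540, .negSucc
  3962⟩, .q ⟨.ofNat 19, .negSucc 8, .negSucc 9, .ofNat 0⟩ ⟨.ofNat 4067,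
  .ofNat 437, .negSucc 540, .negSucc 3962⟩, .q ⟨.ofNat 18, .negSucc 7,
  .negSucc 9, .ofNat 0⟩ ⟨.negSucc 2839, .ofNat 1957, .negSucc 2351, .ofNat
  3235⟩, .q ⟨.ofNat 19, .negSucc 8, .negSucc 9, .ofNat 0⟩ ⟨.negSucc 2839,
  .ofNat 1957, .negSucc 2351, .ofNat 3235⟩],
[.l ⟨.ofNat 0, .ofNat 20, .ofNat 0, .negSucc 16⟩ ⟨.ofNat 0, .ofNat 20,
  .ofNat 0, .ofNat 17⟩, .l ⟨.ofNat 0, .negSucc 19, .ofNat 0, .ofNat 20⟩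
  ⟨.ofNat 0, .ofNat 20, .ofNat 0, .ofNat 20⟩, .l ⟨.ofNat 0, .ofNat 20,
  .ofNat 0, .negSucc 16⟩ ⟨.ofNat 0, .ofNat 144, .ofNat 3997, .ofNat 2226⟩,
  .l ⟨.ofNat 0, .ofNat 20, .ofNat 0, .negSucc 19⟩ ⟨.ofNat 0, .ofNat 144,
  .ofNat 3997, .ofNat 2226⟩, .l ⟨.ofNat 0, .ofNat 20, .ofNat 0, .negSucc 16⟩
  ⟨.ofNat 0, .negSucc 143, .negSucc 3996, .negSucc 3455⟩, .l ⟨.ofNat 0,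
  .ofNat 20, .ofNat 0, .negSucc 19⟩ ⟨.ofNat 0, .negSucc 143, .negSucc 3996,
  .negSucc 3455⟩],
[.q ⟨.ofNat 17, .negSucc 18, .negSucc 27, .ofNat 30⟩ ⟨.ofNat 3017, .ofNat
  1116, .negSucc 2062, .negSucc 2069⟩, .q ⟨.ofNat 17, .negSucc 18, .negSucc
  27, .ofNat 30⟩ ⟨.negSucc 4720, .ofNat 1725, .ofNat 1346, .ofNat 1650⟩, .q
  ⟨.ofNat 17, .negSucc 18, .negSucc 27, .ofNat 30⟩ ⟨.ofNat 700, .negSucc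
  3712, .ofNat 1483, .ofNat 1530⟩],
[.q ⟨.negSucc 0, .ofNat 1, .ofNat 0, .ofNat 0⟩ ⟨.negSucc 1842, .negSucc 76,
  .ofNat 1920, .ofNat 0⟩, .q ⟨.negSucc 0, .ofNat 1, .ofNat 0, .ofNat 0⟩
  ⟨.ofNat 961, .ofNat 959, .negSucc 1919, .ofNat 0⟩, .l ⟨.ofNat 0, .ofNat 0,
  .negSucc 959, .ofNat 7⟩ ⟨.ofNat 0, .ofNat 0, .ofNat 0, .ofNat 1⟩, .l
  ⟨.ofNat 0, .ofNat 0, .ofNat 960, .ofNat 49⟩ ⟨.ofNat 0, .ofNat 0, .ofNat 0,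
  .ofNat 1⟩],
[.q ⟨.negSucc 0, .ofNat 1, .ofNat 0, .ofNat 0⟩ ⟨.negSucc 22, .negSucc 0,
  .ofNat 24, .ofNat 0⟩, .q ⟨.negSucc 0, .ofNat 1, .ofNat 0, .ofNat 0⟩
  ⟨.ofNat 961, .ofNat 959, .negSucc 1919, .ofNat 0⟩, .l ⟨.ofNat 0, .ofNat 0,
  .negSucc 1919, .ofNat 17⟩ ⟨.ofNat 0, .ofNat 0, .ofNat 0, .ofNat 1⟩, .l
  ⟨.ofNat 0, .ofNat 0, .ofNat 96, .ofNat 5⟩ ⟨.ofNat 0, .ofNat 0, .ofNat 0,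
  .ofNat 1⟩],
[.q ⟨.negSucc 0, .ofNat 0, .ofNat 0, .ofNat 1⟩ ⟨.ofNat 3350, .negSucc 3998,
  .ofNat 71, .ofNat 578⟩, .q ⟨.negSucc 0, .ofNat 0, .ofNat 0, .ofNat 1⟩
  ⟨.ofNat 329, .ofNat 0, .negSucc 3999, .ofNat 3671⟩, .q ⟨.negSucc 0, .ofNat
  0, .ofNat 0, .ofNat 1⟩ ⟨.negSucc 3073, .ofNat 3542, .negSucc 1858, .ofNat
  1391⟩, .q ⟨.negSucc 0, .ofNat 0, .ofNat 0, .ofNat 1⟩ ⟨.negSucc 2024,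
  .ofNat 1752, .ofNat 3596, .negSucc 3322⟩],
[.l ⟨.ofNat 0, .ofNat 3603, .ofNat 1738, .ofNat 3265⟩ ⟨.ofNat 0, .ofNat 0,
  .ofNat 0, .ofNat 1⟩, .l ⟨.ofNat 0, .ofNat 0, .ofNat 4000, .ofNat 127⟩
  ⟨.ofNat 0, .ofNat 0, .ofNat 0, .ofNat 1⟩, .l ⟨.ofNat 0, .negSucc 3999,
  .ofNat 0, .negSucc 180⟩ ⟨.ofNat 0, .ofNat 0, .ofNat 0, .ofNat 1⟩, .l
  ⟨.ofNat 0, .negSucc 1574, .negSucc 3676, .negSucc 22⟩ ⟨.ofNat 0, .ofNat 0,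
  .ofNat 0, .ofNat 1⟩, .l ⟨.ofNat 0, .ofNat 0, .negSucc 1999, .ofNat 41⟩
  ⟨.ofNat 0, .ofNat 0, .ofNat 0, .ofNat 1⟩],
[.q ⟨.negSucc 0, .ofNat 0, .ofNat 0, .ofNat 1⟩ ⟨.negSucc 1380, .ofNat 1414,
  .negSucc 1413, .ofNat 1381⟩, .q ⟨.negSucc 0, .ofNat 0, .ofNat 0, .ofNat 1⟩
  ⟨.negSucc 1797, .ofNat 1594, .ofNat 3669, .negSucc 3464⟩, .q ⟨.negSucc 0,
  .ofNat 0, .ofNat 0, .ofNat 1⟩ ⟨.ofNat 3301, .negSucc 3704, .ofNat 1508,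
  .negSucc 1103⟩, .q ⟨.negSucc 0, .ofNat 0, .ofNat 0, .ofNat 1⟩ ⟨.ofNat
  2644, .negSucc 2991, .negSucc 2654, .ofNat 3003⟩],
[.q ⟨.negSucc 0, .ofNat 0, .ofNat 0, .ofNat 1⟩ ⟨.negSucc 14, .ofNat 367,
  .negSucc 3982, .ofNat 3631⟩, .q ⟨.negSucc 0, .ofNat 0, .ofNat 0, .ofNat 1⟩
  ⟨.negSucc 3347, .ofNat 3803, .negSucc 1237, .ofNat 783⟩, .q ⟨.negSucc 0,
  .ofNat 0, .ofNat 0, .ofNat 1⟩ ⟨.negSucc 750, .ofNat 707, .ofNat 707,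
  .negSucc 662⟩, .q ⟨.negSucc 0, .ofNat 0, .ofNat 0, .ofNat 1⟩ ⟨.ofNat 683,
  .negSucc 799, .ofNat 0, .ofNat 117⟩],
[.q ⟨.ofNat 17, .negSucc 18, .negSucc 27, .ofNat 30⟩ ⟨.negSucc 4656, .ofNat
  3223, .ofNat 594, .ofNat 840⟩, .q ⟨.ofNat 17, .negSucc 18, .negSucc 27,
  .ofNat 30⟩ ⟨.ofNat 867, .negSucc 3796, .ofNat 1400, .ofNat 1530⟩, .q
  ⟨.ofNat 17, .negSucc 18, .negSucc 27, .ofNat 30⟩ ⟨.ofNat 3885, .negSucc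
  4071, .ofNat 67, .ofNat 120⟩, .q ⟨.ofNat 17, .negSucc 18, .negSucc 27,
  .ofNat 30⟩ ⟨.ofNat 1996, .ofNat 2060, .negSucc 2045, .negSucc 2009⟩],
[.q ⟨.negSucc 0, .ofNat 0, .ofNat 0, .ofNat 1⟩ ⟨.ofNat 2406, .negSucc 2616,
  .negSucc 3024, .ofNat 3236⟩, .q ⟨.negSucc 0, .ofNat 0, .ofNat 0, .ofNat 1⟩
  ⟨.negSucc 1508, .ofNat 1414, .negSucc 1413, .ofNat 1509⟩, .q ⟨.negSucc 0,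
  .ofNat 0, .ofNat 0, .ofNat 1⟩ ⟨.negSucc 4184, .ofNat 3975, .ofNat 443,
  .negSucc 232⟩, .q ⟨.negSucc 0, .ofNat 0, .ofNat 0, .ofNat 1⟩ ⟨.ofNat 240,
  .negSucc 420, .ofNat 1955, .negSucc 1773⟩, .q ⟨.negSucc 0, .ofNat 0,
  .ofNat 0, .ofNat 1⟩ ⟨.ofNat 913, .negSucc 999, .ofNat 0, .ofNat 87⟩],
[.q ⟨.ofNat 17, .negSucc 18, .negSucc 27, .ofNat 30⟩ ⟨.negSucc 4720, .ofNat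
  1783, .ofNat 1288, .ofNat 1650⟩, .q ⟨.ofNat 17, .negSucc 18, .negSucc 27,
  .ofNat 30⟩ ⟨.ofNat 425, .negSucc 1888, .ofNat 714, .ofNat 750⟩, .q ⟨.ofNat
  17, .negSucc 18, .negSucc 27, .ofNat 30⟩ ⟨.ofNat 1210, .negSucc 478,
  .negSucc 370, .negSucc 359⟩, .q ⟨.ofNat 17, .negSucc 18, .negSucc 27,
  .ofNat 30⟩ ⟨.ofNat 1133, .ofNat 2700, .negSucc 1942, .negSucc 1889⟩],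
[.q ⟨.ofNat 17, .negSucc 18, .negSucc 27, .ofNat 30⟩ ⟨.ofNat 2193, .negSucc
  4124, .ofNat 1002, .ofNat 930⟩, .q ⟨.ofNat 17, .negSucc 18, .negSucc 27,
  .ofNat 30⟩ ⟨.ofNat 3064, .ofNat 1066, .negSucc 2059, .negSucc 2069⟩, .q
  ⟨.ofNat 17, .negSucc 18, .negSucc 27, .ofNat 30⟩ ⟨.negSucc 2174, .ofNat
  1819, .ofNat 116, .ofNat 240⟩],
[.q ⟨.negSucc 0, .ofNat 0, .ofNat 0, .ofNat 1⟩ ⟨.ofNat 860, .negSucc 483,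
  .negSucc 3970, .ofNat 3595⟩, .q ⟨.negSucc 0, .ofNat 0, .ofNat 0, .ofNat 1⟩
  ⟨.negSucc 3711, .ofNat 3997, .ofNat 154, .negSucc 438⟩, .q ⟨.negSucc 0,
  .ofNat 0, .ofNat 0, .ofNat 1⟩ ⟨.ofNat 1574, .negSucc 2220, .ofNat 3327,
  .negSucc 2679⟩],
[.q ⟨.negSucc 2, .negSucc 16, .ofNat 20, .ofNat 0⟩ ⟨.negSucc 36, .ofNat 17,
  .ofNat 20, .ofNat 0⟩, .q ⟨.ofNat 0, .ofNat 20, .negSucc 19, .ofNat 0⟩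
  ⟨.negSucc 39, .ofNat 20, .ofNat 20, .ofNat 0⟩, .q ⟨.ofNat 37, .negSucc 16,
  .negSucc 19, .ofNat 0⟩ ⟨.ofNat 4045, .negSucc 165, .ofNat 119, .negSucc
  3997⟩, .q ⟨.ofNat 40, .negSucc 19, .negSucc 19, .ofNat 0⟩ ⟨.ofNat 4045,
  .negSucc 165, .ofNat 119, .negSucc 3997⟩, .q ⟨.ofNat 37, .negSucc 16,
  .negSucc 19, .ofNat 0⟩ ⟨.negSucc 3733, .negSucc 144, .negSucc 118, .ofNat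
  3998⟩, .q ⟨.ofNat 40, .negSucc 19, .negSucc 19, .ofNat 0⟩ ⟨.negSucc 3733,
  .negSucc 144, .negSucc 118, .ofNat 3998⟩, .q ⟨.ofNat 37, .negSucc 16,
  .negSucc 19, .ofNat 0⟩ ⟨.ofNat 1942, .ofNat 665, .negSucc 754, .negSucc
  1851⟩, .q ⟨.ofNat 40, .negSucc 19, .negSucc 19, .ofNat 0⟩ ⟨.ofNat 1942,
  .ofNat 665, .negSucc 754, .negSucc 1851⟩, .q ⟨.ofNat 37, .negSucc 16,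
  .negSucc 19, .ofNat 0⟩ ⟨.negSucc 3109, .ofNat 1701, .negSucc 2034, .ofNat
  3444⟩, .q ⟨.ofNat 40, .negSucc 19, .negSucc 19, .ofNat 0⟩ ⟨.negSucc 3109,
  .ofNat 1701, .negSucc 2034, .ofNat 3444⟩],
[.q ⟨.negSucc 0, .ofNat 1, .ofNat 0, .ofNat 0⟩ ⟨.negSucc 276, .negSucc 42,
  .ofNat 320, .ofNat 0⟩, .q ⟨.negSucc 0, .ofNat 1, .ofNat 0, .ofNat 0⟩
  ⟨.ofNat 961, .ofNat 959, .negSucc 1919, .ofNat 0⟩, .l ⟨.ofNat 0, .ofNat 0,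
  .negSucc 1919, .ofNat 59⟩ ⟨.ofNat 0, .ofNat 0, .ofNat 0, .ofNat 1⟩, .l
  ⟨.ofNat 0, .ofNat 0, .ofNat 640, .ofNat 49⟩ ⟨.ofNat 0, .ofNat 0, .ofNat 0,
  .ofNat 1⟩],
[.q ⟨.negSucc 6, .negSucc 32, .ofNat 40, .ofNat 0⟩ ⟨.negSucc 72, .ofNat 33,
  .ofNat 40, .ofNat 0⟩, .q ⟨.ofNat 4, .ofNat 36, .negSucc 39, .ofNat 0⟩
  ⟨.negSucc 75, .ofNat 36, .ofNat 40, .ofNat 0⟩, .q ⟨.ofNat 73, .negSucc 32,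
  .negSucc 39, .ofNat 0⟩ ⟨.ofNat 803, .negSucc 2, .ofNat 0, .negSucc 799⟩,
  .q ⟨.ofNat 76, .negSucc 35, .negSucc 39, .ofNat 0⟩ ⟨.ofNat 803, .negSucc
  2, .ofNat 0, .negSucc 799⟩, .q ⟨.ofNat 73, .negSucc 32, .negSucc 39,
  .ofNat 0⟩ ⟨.negSucc 966, .negSucc 32, .ofNat 0, .ofNat 1000⟩, .q ⟨.ofNat
  76, .negSucc 35, .negSucc 39, .ofNat 0⟩ ⟨.negSucc 966, .negSucc 32, .ofNat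
  0, .ofNat 1000⟩, .q ⟨.ofNat 73, .negSucc 32, .negSucc 39, .ofNat 0⟩
  ⟨.negSucc 2403, .ofNat 2334, .negSucc 2792, .ofNat 2863⟩, .q ⟨.ofNat 76,
  .negSucc 35, .negSucc 39, .ofNat 0⟩ ⟨.negSucc 2403, .ofNat 2334, .negSucc
  2792, .ofNat 2863⟩],
[.l ⟨.ofNat 0, .ofNat 40, .ofNat 0, .negSucc 33⟩ ⟨.ofNat 0, .ofNat 40,
  .ofNat 0, .ofNat 34⟩, .l ⟨.ofNat 0, .negSucc 39, .ofNat 0, .ofNat 37⟩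
  ⟨.ofNat 0, .ofNat 40, .ofNat 0, .ofNat 37⟩, .l ⟨.ofNat 0, .ofNat 40,
  .ofNat 0, .negSucc 33⟩ ⟨.ofNat 0, .ofNat 0, .ofNat 4000, .ofNat 2101⟩, .l
  ⟨.ofNat 0, .ofNat 40, .ofNat 0, .negSucc 36⟩ ⟨.ofNat 0, .ofNat 0, .ofNat
  4000, .ofNat 2101⟩, .l ⟨.ofNat 0, .ofNat 40, .ofNat 0, .negSucc 33⟩
  ⟨.ofNat 0, .ofNat 0, .negSucc 499, .negSucc 416⟩, .l ⟨.ofNat 0, .ofNat 40,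
  .ofNat 0, .negSucc 36⟩ ⟨.ofNat 0, .ofNat 0, .negSucc 499, .negSucc 416⟩],
[.q ⟨.negSucc 0, .ofNat 0, .ofNat 0, .ofNat 1⟩ ⟨.negSucc 531, .ofNat 181,
  .ofNat 1992, .negSucc 1640⟩, .q ⟨.negSucc 0, .ofNat 0, .ofNat 0, .ofNat 1⟩
  ⟨.ofNat 2764, .negSucc 3987, .negSucc 304, .ofNat 1529⟩, .q ⟨.negSucc 0,
  .ofNat 0, .ofNat 0, .ofNat 1⟩ ⟨.negSucc 350, .ofNat 852, .negSucc 3907,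
  .ofNat 3407⟩, .q ⟨.negSucc 0, .ofNat 0, .ofNat 0, .ofNat 1⟩ ⟨.negSucc
  3659, .ofNat 3803, .ofNat 1240, .negSucc 1382⟩],
[.q ⟨.negSucc 0, .ofNat 1, .ofNat 0, .ofNat 0⟩ ⟨.negSucc 612, .negSucc 26,
  .ofNat 640, .ofNat 0⟩, .q ⟨.negSucc 0, .ofNat 1, .ofNat 0, .ofNat 0⟩
  ⟨.ofNat 961, .ofNat 959, .negSucc 1919, .ofNat 0⟩, .l ⟨.ofNat 0, .ofNat 0,
  .negSucc 1919, .ofNat 19⟩ ⟨.ofNat 0, .ofNat 0, .ofNat 0, .ofNat 1⟩, .l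
  ⟨.ofNat 0, .ofNat 0, .ofNat 96, .ofNat 5⟩ ⟨.ofNat 0, .ofNat 0, .ofNat 0,
  .ofNat 1⟩],
[.l ⟨.ofNat 0, .negSucc 3130, .ofNat 2490, .ofNat 246⟩ ⟨.ofNat 0, .ofNat 0,
  .ofNat 0, .ofNat 1⟩, .l ⟨.ofNat 0, .negSucc 1975, .negSucc 308, .ofNat 20⟩
  ⟨.ofNat 0, .ofNat 0, .ofNat 0, .ofNat 1⟩, .l ⟨.ofNat 0, .ofNat 3597,
  .negSucc 1750, .negSucc 2⟩ ⟨.ofNat 0, .ofNat 0, .ofNat 0, .ofNat 1⟩],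
[.q ⟨.negSucc 0, .ofNat 0, .ofNat 0, .ofNat 1⟩ ⟨.negSucc 444, .ofNat 860,
  .negSucc 3906, .ofNat 3492⟩, .q ⟨.negSucc 0, .ofNat 0, .ofNat 0, .ofNat 1⟩
  ⟨.negSucc 1833, .ofNat 2000, .ofNat 15, .negSucc 180⟩, .q ⟨.negSucc 0,
  .ofNat 0, .ofNat 0, .ofNat 1⟩ ⟨.ofNat 770, .negSucc 1491, .ofNat 3711,
  .negSucc 2988⟩, .q ⟨.negSucc 0, .ofNat 0, .ofNat 0, .ofNat 1⟩ ⟨.ofNat 94,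
  .negSucc 100, .negSucc 100, .ofNat 108⟩],
[.q ⟨.negSucc 0, .ofNat 1, .ofNat 0, .ofNat 0⟩ ⟨.negSucc 1726, .negSucc 192,
  .ofNat 1920, .ofNat 0⟩, .q ⟨.negSucc 0, .ofNat 1, .ofNat 0, .ofNat 0⟩
  ⟨.ofNat 961, .ofNat 959, .negSucc 1919, .ofNat 0⟩, .l ⟨.ofNat 0, .ofNat 0,
  .negSucc 639, .ofNat 13⟩ ⟨.ofNat 0, .ofNat 0, .ofNat 0, .ofNat 1⟩, .l
  ⟨.ofNat 0, .ofNat 0, .ofNat 480, .ofNat 31⟩ ⟨.ofNat 0, .ofNat 0, .ofNat 0,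
  .ofNat 1⟩],
[.q ⟨.negSucc 0, .ofNat 0, .ofNat 0, .ofNat 1⟩ ⟨.ofNat 2114, .negSucc 2338,
  .negSucc 3243, .ofNat 3469⟩, .q ⟨.negSucc 0, .ofNat 0, .ofNat 0, .ofNat 1⟩
  ⟨.negSucc 1508, .ofNat 1414, .negSucc 1413, .ofNat 1509⟩, .q ⟨.negSucc 0,
  .ofNat 0, .ofNat 0, .ofNat 1⟩ ⟨.negSucc 3953, .ofNat 3713, .ofNat 1488,
  .negSucc 1246⟩, .q ⟨.negSucc 0, .ofNat 0, .ofNat 0, .ofNat 1⟩ ⟨.negSucc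
  1315, .ofNat 1153, .ofNat 1634, .negSucc 1470⟩, .q ⟨.negSucc 0, .ofNat 0,
  .ofNat 0, .ofNat 1⟩ ⟨.ofNat 2505, .negSucc 2827, .ofNat 2828, .negSucc
  2504⟩],
[.l ⟨.ofNat 0, .ofNat 40, .ofNat 0, .negSucc 36⟩ ⟨.ofNat 0, .ofNat 40,
  .ofNat 0, .ofNat 37⟩, .l ⟨.ofNat 0, .negSucc 39, .ofNat 0, .ofNat 41⟩
  ⟨.ofNat 0, .ofNat 40, .ofNat 0, .ofNat 41⟩, .l ⟨.ofNat 0, .ofNat 40,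
  .ofNat 0, .negSucc 36⟩ ⟨.ofNat 0, .ofNat 344, .ofNat 3985, .ofNat 2284⟩,
  .l ⟨.ofNat 0, .ofNat 40, .ofNat 0, .negSucc 40⟩ ⟨.ofNat 0, .ofNat 344,
  .ofNat 3985, .ofNat 2284⟩, .l ⟨.ofNat 0, .ofNat 40, .ofNat 0, .negSucc 36⟩
  ⟨.ofNat 0, .negSucc 343, .negSucc 3984, .negSucc 3633⟩, .l ⟨.ofNat 0,
  .ofNat 40, .ofNat 0, .negSucc 40⟩ ⟨.ofNat 0, .negSucc 343, .negSucc 3984,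
  .negSucc 3633⟩],
[.q ⟨.negSucc 0, .ofNat 0, .ofNat 0, .ofNat 1⟩ ⟨.ofNat 2243, .negSucc 2340,
  .negSucc 3242, .ofNat 3341⟩, .q ⟨.negSucc 0, .ofNat 0, .ofNat 0, .ofNat 1⟩
  ⟨.negSucc 442, .ofNat 861, .negSucc 3905, .ofNat 3488⟩, .q ⟨.negSucc 0,
  .ofNat 0, .ofNat 0, .ofNat 1⟩ ⟨.negSucc 3481, .ofNat 3953, .negSucc 607,
  .ofNat 137⟩, .q ⟨.negSucc 0, .ofNat 0, .ofNat 0, .ofNat 1⟩ ⟨.negSucc 152,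
  .ofNat 0, .ofNat 400, .negSucc 246⟩, .q ⟨.negSucc 0, .ofNat 0, .ofNat 0,
  .ofNat 1⟩ ⟨.ofNat 1649, .negSucc 3069, .ofNat 2565, .negSucc 1143⟩],
[.q ⟨.negSucc 0, .ofNat 0, .ofNat 0, .ofNat 1⟩ ⟨.ofNat 3262, .negSucc 3664,
  .ofNat 1603, .negSucc 1199⟩, .q ⟨.negSucc 0, .ofNat 0, .ofNat 0, .ofNat 1⟩
  ⟨.ofNat 1661, .negSucc 1867, .negSucc 713, .ofNat 921⟩, .q ⟨.negSucc 0,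
  .ofNat 0, .ofNat 0, .ofNat 1⟩ ⟨.negSucc 62, .negSucc 28, .negSucc 1999,
  .ofNat 2092⟩, .q ⟨.negSucc 0, .ofNat 0, .ofNat 0, .ofNat 1⟩ ⟨.negSucc
  1960, .ofNat 1941, .negSucc 480, .ofNat 501⟩, .q ⟨.negSucc 0, .ofNat 0,
  .ofNat 0, .ofNat 1⟩ ⟨.ofNat 327, .negSucc 722, .ofNat 3934, .negSucc
  3537⟩],
[.q ⟨.negSucc 0, .ofNat 1, .ofNat 0, .ofNat 0⟩ ⟨.negSucc 608, .negSucc 30,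
  .ofNat 640, .ofNat 0⟩, .q ⟨.negSucc 0, .ofNat 1, .ofNat 0, .ofNat 0⟩
  ⟨.ofNat 961, .ofNat 959, .negSucc 1919, .ofNat 0⟩, .l ⟨.ofNat 0, .ofNat 0,
  .negSucc 1919, .ofNat 19⟩ ⟨.ofNat 0, .ofNat 0, .ofNat 0, .ofNat 1⟩, .l
  ⟨.ofNat 0, .ofNat 0, .ofNat 128, .ofNat 7⟩ ⟨.ofNat 0, .ofNat 0, .ofNat 0,
  .ofNat 1⟩],
[.q ⟨.ofNat 17, .negSucc 18, .negSucc 27, .ofNat 30⟩ ⟨.ofNat 4866, .negSucc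
  2961, .negSucc 973, .negSucc 929⟩, .q ⟨.ofNat 17, .negSucc 18, .negSucc
  27, .ofNat 30⟩ ⟨.ofNat 708, .ofNat 2969, .negSucc 1876, .negSucc 1799⟩, .q
  ⟨.ofNat 17, .negSucc 18, .negSucc 27, .ofNat 30⟩ ⟨.negSucc 4754, .ofNat
  1821, .ofNat 1344, .ofNat 1590⟩, .q ⟨.ofNat 17, .negSucc 18, .negSucc 27,
  .ofNat 30⟩ ⟨.ofNat 221, .negSucc 953, .ofNat 343, .ofNat 390⟩],
[.l ⟨.ofNat 0, .ofNat 3997, .ofNat 142, .ofNat 391⟩ ⟨.ofNat 0, .ofNat 0,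
  .ofNat 0, .ofNat 1⟩, .l ⟨.ofNat 0, .ofNat 1418, .ofNat 3740, .ofNat 175⟩
  ⟨.ofNat 0, .ofNat 0, .ofNat 0, .ofNat 1⟩, .l ⟨.ofNat 0, .negSucc 3958,
  .negSucc 567, .ofNat 42⟩ ⟨.ofNat 0, .ofNat 0, .ofNat 0, .ofNat 1⟩, .l
  ⟨.ofNat 0, .negSucc 1021, .negSucc 3866, .negSucc 5⟩ ⟨.ofNat 0, .ofNat 0,
  .ofNat 0, .ofNat 1⟩],
[.l ⟨.ofNat 0, .ofNat 20, .ofNat 0, .negSucc 16⟩ ⟨.ofNat 0, .ofNat 20,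
  .ofNat 0, .ofNat 17⟩, .l ⟨.ofNat 0, .negSucc 19, .ofNat 0, .ofNat 19⟩
  ⟨.ofNat 0, .ofNat 20, .ofNat 0, .ofNat 19⟩, .l ⟨.ofNat 0, .ofNat 20,
  .ofNat 0, .negSucc 16⟩ ⟨.ofNat 0, .ofNat 683, .ofNat 3941, .ofNat 2668⟩,
  .l ⟨.ofNat 0, .ofNat 20, .ofNat 0, .negSucc 18⟩ ⟨.ofNat 0, .ofNat 683,
  .ofNat 3941, .ofNat 2668⟩, .l ⟨.ofNat 0, .ofNat 20, .ofNat 0, .negSucc 16⟩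
  ⟨.ofNat 0, .negSucc 682, .negSucc 3940, .negSucc 3854⟩, .l ⟨.ofNat 0,
  .ofNat 20, .ofNat 0, .negSucc 18⟩ ⟨.ofNat 0, .negSucc 682, .negSucc 3940,
  .negSucc 3854⟩],
[.l ⟨.ofNat 0, .negSucc 337, .negSucc 1970, .negSucc 198⟩ ⟨.ofNat 0, .ofNat
  0, .ofNat 0, .ofNat 1⟩, .l ⟨.ofNat 0, .ofNat 2000, .ofNat 0, .ofNat 1691⟩
  ⟨.ofNat 0, .ofNat 0, .ofNat 0, .ofNat 1⟩, .l ⟨.ofNat 0, .ofNat 135, .ofNat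
  3998, .ofNat 1019⟩ ⟨.ofNat 0, .ofNat 0, .ofNat 0, .ofNat 1⟩, .l ⟨.ofNat 0,
  .negSucc 2648, .ofNat 2997, .ofNat 418⟩ ⟨.ofNat 0, .ofNat 0, .ofNat 0,
  .ofNat 1⟩, .l ⟨.ofNat 0, .negSucc 3842, .negSucc 1110, .negSucc 10⟩
  ⟨.ofNat 0, .ofNat 0, .ofNat 0, .ofNat 1⟩],
[.q ⟨.negSucc 0, .ofNat 1, .ofNat 0, .ofNat 0⟩ ⟨.negSucc 288, .negSucc 30,
  .ofNat 320, .ofNat 0⟩, .q ⟨.negSucc 0, .ofNat 1, .ofNat 0, .ofNat 0⟩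
  ⟨.ofNat 961, .ofNat 959, .negSucc 1919, .ofNat 0⟩, .l ⟨.ofNat 0, .ofNat 0,
  .negSucc 639, .ofNat 13⟩ ⟨.ofNat 0, .ofNat 0, .ofNat 0, .ofNat 1⟩, .l
  ⟨.ofNat 0, .ofNat 0, .ofNat 960, .ofNat 61⟩ ⟨.ofNat 0, .ofNat 0, .ofNat 0,
  .ofNat 1⟩],
[.l ⟨.ofNat 0, .ofNat 2883, .negSucc 2772, .ofNat 126⟩ ⟨.ofNat 0, .ofNat 0,
  .ofNat 0, .ofNat 1⟩, .l ⟨.ofNat 0, .ofNat 1120, .ofNat 1657, .ofNat 95⟩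
  ⟨.ofNat 0, .ofNat 0, .ofNat 0, .ofNat 1⟩, .l ⟨.ofNat 0, .negSucc 249,
  .ofNat 0, .ofNat 3⟩ ⟨.ofNat 0, .ofNat 0, .ofNat 0, .ofNat 1⟩, .l ⟨.ofNat
  0, .ofNat 0, .negSucc 1999, .ofNat 41⟩ ⟨.ofNat 0, .ofNat 0, .ofNat 0,
  .ofNat 1⟩],
[.q ⟨.negSucc 4, .negSucc 34, .ofNat 40, .ofNat 0⟩ ⟨.negSucc 74, .ofNat 35,
  .ofNat 40, .ofNat 0⟩, .q ⟨.ofNat 2, .ofNat 38, .negSucc 39, .ofNat 0⟩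
  ⟨.negSucc 77, .ofNat 38, .ofNat 40, .ofNat 0⟩, .q ⟨.ofNat 75, .negSucc 34,
  .negSucc 39, .ofNat 0⟩ ⟨.ofNat 1009, .negSucc 8, .ofNat 0, .negSucc 999⟩,
  .q ⟨.ofNat 78, .negSucc 37, .negSucc 39, .ofNat 0⟩ ⟨.ofNat 1009, .negSucc
  8, .ofNat 0, .negSucc 999⟩, .q ⟨.ofNat 75, .negSucc 34, .negSucc 39,
  .ofNat 0⟩ ⟨.negSucc 3800, .negSucc 198, .ofNat 0, .ofNat 4000⟩, .q ⟨.ofNat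
  78, .negSucc 37, .negSucc 39, .ofNat 0⟩ ⟨.negSucc 3800, .negSucc 198,
  .ofNat 0, .ofNat 4000⟩, .q ⟨.ofNat 75, .negSucc 34, .negSucc 39, .ofNat 0⟩
  ⟨.negSucc 1425, .ofNat 955, .negSucc 1158, .ofNat 1630⟩, .q ⟨.ofNat 78,
  .negSucc 37, .negSucc 39, .ofNat 0⟩ ⟨.negSucc 1425, .ofNat 955, .negSucc
  1158, .ofNat 1630⟩],
[.q ⟨.negSucc 0, .ofNat 0, .ofNat 0, .ofNat 1⟩ ⟨.ofNat 524, .negSucc 416,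
  .negSucc 1955, .ofNat 1849⟩, .q ⟨.negSucc 0, .ofNat 0, .ofNat 0, .ofNat 1⟩
  ⟨.negSucc 2320, .ofNat 2828, .negSucc 2827, .ofNat 2321⟩, .q ⟨.negSucc 0,
  .ofNat 0, .ofNat 0, .ofNat 1⟩ ⟨.negSucc 3720, .ofNat 3984, .ofNat 354,
  .negSucc 616⟩, .q ⟨.negSucc 0, .ofNat 0, .ofNat 0, .ofNat 1⟩ ⟨.ofNat 431,
  .negSucc 1101, .ofNat 3845, .negSucc 3173⟩],
[.q ⟨.ofNat 17, .negSucc 18, .negSucc 27, .ofNat 30⟩ ⟨.ofNat 4916, .negSucc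
  2516, .negSucc 1228, .negSucc 1169⟩, .q ⟨.ofNat 17, .negSucc 18, .negSucc
  27, .ofNat 30⟩ ⟨.ofNat 1164, .ofNat 2678, .negSucc 1951, .negSucc 1889⟩,
  .q ⟨.ofNat 17, .negSucc 18, .negSucc 27, .ofNat 30⟩ ⟨.negSucc 4754, .ofNat
  1821, .ofNat 1344, .ofNat 1590⟩, .q ⟨.ofNat 17, .negSucc 18, .negSucc 27,
  .ofNat 30⟩ ⟨.ofNat 221, .negSucc 953, .ofNat 343, .ofNat 390⟩],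
[.q ⟨.negSucc 21, .negSucc 17, .ofNat 40, .ofNat 0⟩ ⟨.negSucc 57, .ofNat 18,
  .ofNat 40, .ofNat 0⟩, .q ⟨.ofNat 19, .ofNat 21, .negSucc 39, .ofNat 0⟩
  ⟨.negSucc 60, .ofNat 21, .ofNat 40, .ofNat 0⟩, .q ⟨.ofNat 58, .negSucc 17,
  .negSucc 39, .ofNat 0⟩ ⟨.ofNat 2382, .ofNat 2356, .negSucc 822, .negSucc
  3914⟩, .q ⟨.ofNat 61, .negSucc 20, .negSucc 39, .ofNat 0⟩ ⟨.ofNat 2382,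
  .ofNat 2356, .negSucc 822, .negSucc 3914⟩, .q ⟨.ofNat 58, .negSucc 17,
  .negSucc 39, .ofNat 0⟩ ⟨.negSucc 562, .negSucc 672, .negSucc 2141, .ofNat
  3378⟩, .q ⟨.ofNat 61, .negSucc 20, .negSucc 39, .ofNat 0⟩ ⟨.negSucc 562,
  .negSucc 672, .negSucc 2141, .ofNat 3378⟩, .q ⟨.ofNat 58, .negSucc 17,
  .negSucc 39, .ofNat 0⟩ ⟨.ofNat 2695, .ofNat 2683, .negSucc 3565, .negSucc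
  1811⟩, .q ⟨.ofNat 61, .negSucc 20, .negSucc 39, .ofNat 0⟩ ⟨.ofNat 2695,
  .ofNat 2683, .negSucc 3565, .negSucc 1811⟩],
[.q ⟨.negSucc 0, .ofNat 0, .ofNat 0, .ofNat 1⟩ ⟨.negSucc 2243, .ofNat 2751,
  .negSucc 2902, .ofNat 2396⟩, .q ⟨.negSucc 0, .ofNat 0, .ofNat 0, .ofNat 1⟩
  ⟨.negSucc 1820, .ofNat 1900, .ofNat 624, .negSucc 702⟩, .q ⟨.negSucc 0,
  .ofNat 0, .ofNat 0, .ofNat 1⟩ ⟨.ofNat 3589, .negSucc 3999, .negSucc 46,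
  .ofNat 458⟩],
[.q ⟨.negSucc 0, .ofNat 1, .ofNat 0, .ofNat 0⟩ ⟨.negSucc 84, .negSucc 10,
  .ofNat 96, .ofNat 0⟩, .q ⟨.negSucc 0, .ofNat 1, .ofNat 0, .ofNat 0⟩
  ⟨.ofNat 961, .ofNat 959, .negSucc 1919, .ofNat 0⟩, .l ⟨.ofNat 0, .ofNat 0,
  .negSucc 479, .ofNat 13⟩ ⟨.ofNat 0, .ofNat 0, .ofNat 0, .ofNat 1⟩, .l
  ⟨.ofNat 0, .ofNat 0, .ofNat 1920, .ofNat 133⟩ ⟨.ofNat 0, .ofNat 0, .ofNat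
  0, .ofNat 1⟩],
[.l ⟨.ofNat 0, .ofNat 20, .ofNat 0, .negSucc 16⟩ ⟨.ofNat 0, .ofNat 20,
  .ofNat 0, .ofNat 17⟩, .l ⟨.ofNat 0, .negSucc 19, .ofNat 0, .ofNat 20⟩
  ⟨.ofNat 0, .ofNat 20, .ofNat 0, .ofNat 20⟩, .l ⟨.ofNat 0, .ofNat 20,
  .ofNat 0, .negSucc 16⟩ ⟨.ofNat 0, .ofNat 1467, .ofNat 3721, .ofNat 4645⟩,
  .l ⟨.ofNat 0, .ofNat 20, .ofNat 0, .negSucc 19⟩ ⟨.ofNat 0, .ofNat 1467,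
  .ofNat 3721, .ofNat 4645⟩, .l ⟨.ofNat 0, .ofNat 20, .ofNat 0, .negSucc 16⟩
  ⟨.ofNat 0, .ofNat 532, .negSucc 3963, .negSucc 3752⟩, .l ⟨.ofNat 0, .ofNat
  20, .ofNat 0, .negSucc 19⟩ ⟨.ofNat 0, .ofNat 532, .negSucc 3963, .negSucc
  3752⟩],
[.q ⟨.negSucc 0, .ofNat 0, .ofNat 0, .ofNat 1⟩ ⟨.ofNat 2490, .negSucc 2850,
  .negSucc 2805, .ofNat 3167⟩, .q ⟨.negSucc 0, .ofNat 0, .ofNat 0, .ofNat 1⟩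
  ⟨.negSucc 5, .ofNat 0, .negSucc 124, .ofNat 131⟩, .q ⟨.negSucc 0, .ofNat
  0, .ofNat 0, .ofNat 1⟩ ⟨.negSucc 2930, .ofNat 3001, .ofNat 2644, .negSucc
  2713⟩, .q ⟨.negSucc 0, .ofNat 0, .ofNat 0, .ofNat 1⟩ ⟨.ofNat 2701,
  .negSucc 2992, .ofNat 2654, .negSucc 2361⟩],
[.l ⟨.ofNat 0, .ofNat 20, .ofNat 0, .negSucc 14⟩ ⟨.ofNat 0, .ofNat 20,
  .ofNat 0, .ofNat 15⟩, .l ⟨.ofNat 0, .negSucc 19, .ofNat 0, .ofNat 17⟩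
  ⟨.ofNat 0, .ofNat 20, .ofNat 0, .ofNat 17⟩, .l ⟨.ofNat 0, .ofNat 20,
  .ofNat 0, .negSucc 14⟩ ⟨.ofNat 0, .ofNat 716, .ofNat 3935, .ofNat 3369⟩,
  .l ⟨.ofNat 0, .ofNat 20, .ofNat 0, .negSucc 16⟩ ⟨.ofNat 0, .ofNat 716,
  .ofNat 3935, .ofNat 3369⟩, .l ⟨.ofNat 0, .ofNat 20, .ofNat 0, .negSucc 14⟩
  ⟨.ofNat 0, .negSucc 715, .negSucc 3934, .negSucc 3787⟩, .l ⟨.ofNat 0,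
  .ofNat 20, .ofNat 0, .negSucc 16⟩ ⟨.ofNat 0, .negSucc 715, .negSucc 3934,
  .negSucc 3787⟩],
[.l ⟨.ofNat 0, .ofNat 20, .ofNat 0, .negSucc 16⟩ ⟨.ofNat 0, .ofNat 20,
  .ofNat 0, .ofNat 17⟩, .l ⟨.ofNat 0, .negSucc 19, .ofNat 0, .ofNat 20⟩
  ⟨.ofNat 0, .ofNat 20, .ofNat 0, .ofNat 20⟩, .l ⟨.ofNat 0, .ofNat 20,
  .ofNat 0, .negSucc 16⟩ ⟨.ofNat 0, .ofNat 0, .ofNat 4000, .ofNat 2101⟩, .l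
  ⟨.ofNat 0, .ofNat 20, .ofNat 0, .negSucc 19⟩ ⟨.ofNat 0, .ofNat 0, .ofNat
  4000, .ofNat 2101⟩, .l ⟨.ofNat 0, .ofNat 20, .ofNat 0, .negSucc 16⟩
  ⟨.ofNat 0, .ofNat 0, .negSucc 799, .negSucc 662⟩, .l ⟨.ofNat 0, .ofNat 20,
  .ofNat 0, .negSucc 19⟩ ⟨.ofNat 0, .ofNat 0, .negSucc 799, .negSucc 662⟩],
[.l ⟨.ofNat 0, .ofNat 209, .negSucc 1988, .ofNat 513⟩ ⟨.ofNat 0, .ofNat 0,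
  .ofNat 0, .ofNat 1⟩, .l ⟨.ofNat 0, .ofNat 3928, .ofNat 757, .ofNat 2768⟩
  ⟨.ofNat 0, .ofNat 0, .ofNat 0, .ofNat 1⟩, .l ⟨.ofNat 0, .ofNat 362, .ofNat
  3984, .ofNat 2657⟩ ⟨.ofNat 0, .ofNat 0, .ofNat 0, .ofNat 1⟩, .l ⟨.ofNat 0,
  .negSucc 3558, .negSucc 1825, .negSucc 1381⟩ ⟨.ofNat 0, .ofNat 0, .ofNat
  0, .ofNat 1⟩],
[.l ⟨.ofNat 0, .negSucc 589, .negSucc 1910, .negSucc 49⟩ ⟨.ofNat 0, .ofNat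
  0, .ofNat 0, .ofNat 1⟩, .l ⟨.ofNat 0, .ofNat 3414, .negSucc 2084, .ofNat
  2866⟩ ⟨.ofNat 0, .ofNat 0, .ofNat 0, .ofNat 1⟩, .l ⟨.ofNat 0, .ofNat 0,
  .ofNat 1000, .ofNat 31⟩ ⟨.ofNat 0, .ofNat 0, .ofNat 0, .ofNat 1⟩],
[.q ⟨.negSucc 0, .ofNat 1, .ofNat 0, .ofNat 0⟩ ⟨.negSucc 228, .negSucc 10,
  .ofNat 240, .ofNat 0⟩, .q ⟨.negSucc 0, .ofNat 1, .ofNat 0, .ofNat 0⟩
  ⟨.ofNat 961, .ofNat 959, .negSucc 1919, .ofNat 0⟩, .l ⟨.ofNat 0, .ofNat 0,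
  .negSucc 1919, .ofNat 19⟩ ⟨.ofNat 0, .ofNat 0, .ofNat 0, .ofNat 1⟩, .l
  ⟨.ofNat 0, .ofNat 0, .ofNat 240, .ofNat 13⟩ ⟨.ofNat 0, .ofNat 0, .ofNat 0,
  .ofNat 1⟩],
[.q ⟨.negSucc 0, .ofNat 1, .ofNat 0, .ofNat 0⟩ ⟨.negSucc 562, .negSucc 76,
  .ofNat 640, .ofNat 0⟩, .q ⟨.negSucc 0, .ofNat 1, .ofNat 0, .ofNat 0⟩
  ⟨.ofNat 961, .ofNat 959, .negSucc 1919, .ofNat 0⟩, .l ⟨.ofNat 0, .ofNat 0,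
  .negSucc 319, .ofNat 9⟩ ⟨.ofNat 0, .ofNat 0, .ofNat 0, .ofNat 1⟩, .l
  ⟨.ofNat 0, .ofNat 0, .ofNat 320, .ofNat 23⟩ ⟨.ofNat 0, .ofNat 0, .ofNat 0,
  .ofNat 1⟩],
[.q ⟨.negSucc 0, .ofNat 0, .ofNat 0, .ofNat 1⟩ ⟨.ofNat 377, .negSucc 76,
  .negSucc 3998, .ofNat 3699⟩, .q ⟨.negSucc 0, .ofNat 0, .ofNat 0, .ofNat 1⟩
  ⟨.negSucc 1387, .ofNat 1640, .negSucc 1144, .ofNat 893⟩, .q ⟨.negSucc 0,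
  .ofNat 0, .ofNat 0, .ofNat 1⟩ ⟨.negSucc 1363, .ofNat 1281, .ofNat 1536,
  .negSucc 1452⟩, .q ⟨.negSucc 0, .ofNat 0, .ofNat 0, .ofNat 1⟩ ⟨.ofNat
  1519, .negSucc 1861, .ofNat 730, .negSucc 386⟩],
[.q ⟨.ofNat 17, .negSucc 18, .negSucc 27, .ofNat 30⟩ ⟨.ofNat 445, .ofNat
  3123, .negSucc 1827, .negSucc 1739⟩, .q ⟨.ofNat 17, .negSucc 18, .negSucc
  27, .ofNat 30⟩ ⟨.negSucc 4546, .ofNat 3334, .ofNat 433, .ofNat 780⟩, .q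
  ⟨.ofNat 17, .negSucc 18, .negSucc 27, .ofNat 30⟩ ⟨.negSucc 852, .negSucc
  2916, .ofNat 1790, .ofNat 1980⟩, .q ⟨.ofNat 17, .negSucc 18, .negSucc 27,
  .ofNat 30⟩ ⟨.ofNat 3983, .negSucc 3980, .ofNat 28, .negSucc 29⟩],
[.l ⟨.ofNat 0, .ofNat 3134, .ofNat 2486, .ofNat 3233⟩ ⟨.ofNat 0, .ofNat 0,
  .ofNat 0, .ofNat 1⟩, .l ⟨.ofNat 0, .ofNat 962, .ofNat 3883, .ofNat 3338⟩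
  ⟨.ofNat 0, .ofNat 0, .ofNat 0, .ofNat 1⟩, .l ⟨.ofNat 0, .negSucc 3741,
  .ofNat 1413, .ofNat 195⟩ ⟨.ofNat 0, .ofNat 0, .ofNat 0, .ofNat 1⟩, .l
  ⟨.ofNat 0, .negSucc 193, .negSucc 3994, .negSucc 319⟩ ⟨.ofNat 0, .ofNat 0,
  .ofNat 0, .ofNat 1⟩, .l ⟨.ofNat 0, .ofNat 2214, .negSucc 3330, .negSucc
  123⟩ ⟨.ofNat 0, .ofNat 0, .ofNat 0, .ofNat 1⟩],
[.q ⟨.ofNat 17, .negSucc 18, .negSucc 27, .ofNat 30⟩ ⟨.negSucc 4698, .ofNat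
  1625, .ofNat 1394, .ofNat 1680⟩, .q ⟨.ofNat 17, .negSucc 18, .negSucc 27,
  .ofNat 30⟩ ⟨.ofNat 207, .negSucc 3513, .ofNat 1567, .ofNat 1740⟩, .q
  ⟨.ofNat 17, .negSucc 18, .negSucc 27, .ofNat 30⟩ ⟨.ofNat 2447, .negSucc
  1403, .negSucc 532, .negSucc 509⟩, .q ⟨.ofNat 17, .negSucc 18, .negSucc
  27, .ofNat 30⟩ ⟨.ofNat 2827, .ofNat 1311, .negSucc 2067, .negSucc 2069⟩],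
[.q ⟨.negSucc 0, .ofNat 1, .ofNat 0, .ofNat 0⟩ ⟨.negSucc 1846, .negSucc 72,
  .ofNat 1920, .ofNat 0⟩, .q ⟨.negSucc 0, .ofNat 1, .ofNat 0, .ofNat 0⟩
  ⟨.ofNat 961, .ofNat 959, .negSucc 1919, .ofNat 0⟩, .l ⟨.ofNat 0, .ofNat 0,
  .negSucc 159, .ofNat 1⟩ ⟨.ofNat 0, .ofNat 0, .ofNat 0, .ofNat 1⟩, .l
  ⟨.ofNat 0, .ofNat 0, .ofNat 384, .ofNat 19⟩ ⟨.ofNat 0, .ofNat 0, .ofNat 0,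
  .ofNat 1⟩],
[.q ⟨.negSucc 0, .ofNat 0, .ofNat 0, .ofNat 1⟩ ⟨.negSucc 206, .ofNat 0,
  .negSucc 3999, .ofNat 4207⟩, .q ⟨.negSucc 0, .ofNat 0, .ofNat 0, .ofNat 1⟩
  ⟨.negSucc 4060, .ofNat 4000, .ofNat 0, .ofNat 61⟩, .q ⟨.negSucc 0, .ofNat
  0, .ofNat 0, .ofNat 1⟩ ⟨.negSucc 1784, .ofNat 1600, .ofNat 3666, .negSucc
  3480⟩, .q ⟨.negSucc 0, .ofNat 0, .ofNat 0, .ofNat 1⟩ ⟨.ofNat 1676,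
  .negSucc 1883, .ofNat 671, .negSucc 462⟩, .q ⟨.negSucc 0, .ofNat 0, .ofNat
  0, .ofNat 1⟩ ⟨.ofNat 2507, .negSucc 2827, .negSucc 2827, .ofNat 3149⟩],
[.q ⟨.negSucc 0, .ofNat 0, .ofNat 0, .ofNat 1⟩ ⟨.negSucc 568, .ofNat 189,
  .ofNat 3996, .negSucc 3615⟩, .q ⟨.negSucc 0, .ofNat 0, .ofNat 0, .ofNat 1⟩
  ⟨.ofNat 2147, .negSucc 2096, .negSucc 3405, .ofNat 3356⟩, .q ⟨.negSucc 0,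
  .ofNat 0, .ofNat 0, .ofNat 1⟩ ⟨.negSucc 2293, .ofNat 2793, .negSucc 2862,
  .ofNat 2364⟩],
[.q ⟨.negSucc 12, .negSucc 66, .ofNat 80, .ofNat 0⟩ ⟨.negSucc 146, .ofNat
  67, .ofNat 80, .ofNat 0⟩, .q ⟨.ofNat 9, .ofNat 71, .negSucc 79, .ofNat 0⟩
  ⟨.negSucc 150, .ofNat 71, .ofNat 80, .ofNat 0⟩, .q ⟨.ofNat 147, .negSucc
  66, .negSucc 79, .ofNat 0⟩ ⟨.ofNat 2013, .negSucc 12, .ofNat 0, .negSucc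
  1999⟩, .q ⟨.ofNat 151, .negSucc 70, .negSucc 79, .ofNat 0⟩ ⟨.ofNat 2013,
  .negSucc 12, .ofNat 0, .negSucc 1999⟩, .q ⟨.ofNat 147, .negSucc 66,
  .negSucc 79, .ofNat 0⟩ ⟨.negSucc 2660, .ofNat 2115, .negSucc 2541, .ofNat
  3088⟩, .q ⟨.ofNat 151, .negSucc 70, .negSucc 79, .ofNat 0⟩ ⟨.negSucc 2660,
  .ofNat 2115, .negSucc 2541, .ofNat 3088⟩, .q ⟨.ofNat 147, .negSucc 66,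
  .negSucc 79, .ofNat 0⟩ ⟨.ofNat 3256, .ofNat 2401, .negSucc 2838, .negSucc
  2817⟩, .q ⟨.ofNat 151, .negSucc 70, .negSucc 79, .ofNat 0⟩ ⟨.ofNat 3256,
  .ofNat 2401, .negSucc 2838, .negSucc 2817⟩],
[.q ⟨.negSucc 0, .ofNat 0, .ofNat 0, .ofNat 1⟩ ⟨.negSucc 260, .ofNat 250,
  .ofNat 0, .ofNat 11⟩, .q ⟨.negSucc 0, .ofNat 0, .ofNat 0, .ofNat 1⟩
  ⟨.negSucc 298, .negSucc 68, .ofNat 3999, .negSucc 3630⟩, .q ⟨.negSucc 0,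
  .ofNat 0, .ofNat 0, .ofNat 1⟩ ⟨.ofNat 3658, .negSucc 3956, .ofNat 584,
  .negSucc 284⟩, .q ⟨.negSucc 0, .ofNat 0, .ofNat 0, .ofNat 1⟩ ⟨.ofNat 143,
  .negSucc 146, .negSucc 371, .ofNat 376⟩],
[.q ⟨.negSucc 4, .negSucc 34, .ofNat 40, .ofNat 0⟩ ⟨.negSucc 74, .ofNat 35,
  .ofNat 40, .ofNat 0⟩, .q ⟨.ofNat 2, .ofNat 38, .negSucc 39, .ofNat 0⟩
  ⟨.negSucc 77, .ofNat 38, .ofNat 40, .ofNat 0⟩, .q ⟨.ofNat 75, .negSucc 34,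
  .negSucc 39, .ofNat 0⟩ ⟨.ofNat 4060, .ofNat 185, .negSucc 252, .negSucc
  3991⟩, .q ⟨.ofNat 78, .negSucc 37, .negSucc 39, .ofNat 0⟩ ⟨.ofNat 4060,
  .ofNat 185, .negSucc 252, .negSucc 3991⟩, .q ⟨.ofNat 75, .negSucc 34,
  .negSucc 39, .ofNat 0⟩ ⟨.negSucc 485, .negSucc 292, .ofNat 282, .ofNat
  497⟩, .q ⟨.ofNat 78, .negSucc 37, .negSucc 39, .ofNat 0⟩ ⟨.negSucc 485,
  .negSucc 292, .ofNat 282, .ofNat 497⟩, .q ⟨.ofNat 75, .negSucc 34,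
  .negSucc 39, .ofNat 0⟩ ⟨.negSucc 3281, .ofNat 1351, .negSucc 1692, .ofNat
  3624⟩, .q ⟨.ofNat 78, .negSucc 37, .negSucc 39, .ofNat 0⟩ ⟨.negSucc 3281,
  .ofNat 1351, .negSucc 1692, .ofNat 3624⟩],
[.q ⟨.negSucc 0, .ofNat 1, .ofNat 0, .ofNat 0⟩ ⟨.negSucc 826, .negSucc 132,
  .ofNat 960, .ofNat 0⟩, .q ⟨.negSucc 0, .ofNat 1, .ofNat 0, .ofNat 0⟩
  ⟨.ofNat 961, .ofNat 959, .negSucc 1919, .ofNat 0⟩, .l ⟨.ofNat 0, .ofNat 0,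
  .negSucc 1919, .ofNat 59⟩ ⟨.ofNat 0, .ofNat 0, .ofNat 0, .ofNat 1⟩, .l
  ⟨.ofNat 0, .ofNat 0, .ofNat 1920, .ofNat 149⟩ ⟨.ofNat 0, .ofNat 0, .ofNat
  0, .ofNat 1⟩],
[.l ⟨.ofNat 0, .ofNat 315, .negSucc 3987, .negSucc 37⟩ ⟨.ofNat 0, .ofNat 0,
  .ofNat 0, .ofNat 1⟩, .l ⟨.ofNat 0, .ofNat 404, .negSucc 403, .ofNat 311⟩
  ⟨.ofNat 0, .ofNat 0, .ofNat 0, .ofNat 1⟩, .l ⟨.ofNat 0, .ofNat 2701,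
  .ofNat 2951, .ofNat 2817⟩ ⟨.ofNat 0, .ofNat 0, .ofNat 0, .ofNat 1⟩, .l
  ⟨.ofNat 0, .negSucc 1786, .ofNat 898, .negSucc 94⟩ ⟨.ofNat 0, .ofNat 0,
  .ofNat 0, .ofNat 1⟩],
[.q ⟨.negSucc 2, .negSucc 16, .ofNat 20, .ofNat 0⟩ ⟨.negSucc 36, .ofNat 17,
  .ofNat 20, .ofNat 0⟩, .q ⟨.ofNat 2, .ofNat 18, .negSucc 19, .ofNat 0⟩
  ⟨.negSucc 37, .ofNat 18, .ofNat 20, .ofNat 0⟩, .q ⟨.ofNat 37, .negSucc 16,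
  .negSucc 19, .ofNat 0⟩ ⟨.ofNat 4062, .ofNat 289, .negSucc 367, .negSucc
  3982⟩, .q ⟨.ofNat 38, .negSucc 17, .negSucc 19, .ofNat 0⟩ ⟨.ofNat 4062,
  .ofNat 289, .negSucc 367, .negSucc 3982⟩, .q ⟨.ofNat 37, .negSucc 16,
  .negSucc 19, .ofNat 0⟩ ⟨.negSucc 689, .ofNat 506, .negSucc 608, .ofNat
  793⟩, .q ⟨.ofNat 38, .negSucc 17, .negSucc 19, .ofNat 0⟩ ⟨.negSucc 689,
  .ofNat 506, .negSucc 608, .ofNat 793⟩],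
[.q ⟨.negSucc 9, .negSucc 9, .ofNat 20, .ofNat 0⟩ ⟨.negSucc 29, .ofNat 10,
  .ofNat 20, .ofNat 0⟩, .q ⟨.ofNat 9, .ofNat 11, .negSucc 19, .ofNat 0⟩
  ⟨.negSucc 30, .ofNat 11, .ofNat 20, .ofNat 0⟩, .q ⟨.ofNat 30, .negSucc 9,
  .negSucc 19, .ofNat 0⟩ ⟨.ofNat 1114, .ofNat 1086, .negSucc 210, .negSucc
  1988⟩, .q ⟨.ofNat 31, .negSucc 10, .negSucc 19, .ofNat 0⟩ ⟨.ofNat 1114,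
  .ofNat 1086, .negSucc 210, .negSucc 1988⟩, .q ⟨.ofNat 30, .negSucc 9,
  .negSucc 19, .ofNat 0⟩ ⟨.negSucc 1328, .negSucc 2788, .ofNat 120, .ofNat
  3998⟩, .q ⟨.ofNat 31, .negSucc 10, .negSucc 19, .ofNat 0⟩ ⟨.negSucc 1328,
  .negSucc 2788, .ofNat 120, .ofNat 3998⟩, .q ⟨.ofNat 30, .negSucc 9,
  .negSucc 19, .ofNat 0⟩ ⟨.ofNat 905, .ofNat 899, .negSucc 627, .negSucc
  1175⟩, .q ⟨.ofNat 31, .negSucc 10, .negSucc 19, .ofNat 0⟩ ⟨.ofNat 905,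
  .ofNat 899, .negSucc 627, .negSucc 1175⟩],
[.q ⟨.negSucc 1, .negSucc 37, .ofNat 40, .ofNat 0⟩ ⟨.negSucc 77, .ofNat 38,
  .ofNat 40, .ofNat 0⟩, .q ⟨.negSucc 0, .ofNat 41, .negSucc 39, .ofNat 0⟩
  ⟨.negSucc 80, .ofNat 41, .ofNat 40, .ofNat 0⟩, .q ⟨.ofNat 78, .negSucc 37,
  .negSucc 39, .ofNat 0⟩ ⟨.ofNat 2029, .negSucc 28, .ofNat 0, .negSucc
  1999⟩, .q ⟨.ofNat 81, .negSucc 40, .negSucc 39, .ofNat 0⟩ ⟨.ofNat 2029,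
  .negSucc 28, .ofNat 0, .negSucc 1999⟩, .q ⟨.ofNat 78, .negSucc 37,
  .negSucc 39, .ofNat 0⟩ ⟨.negSucc 748, .negSucc 50, .ofNat 0, .ofNat 800⟩,
  .q ⟨.ofNat 81, .negSucc 40, .negSucc 39, .ofNat 0⟩ ⟨.negSucc 748, .negSucc
  50, .ofNat 0, .ofNat 800⟩],
[.q ⟨.negSucc 0, .ofNat 1, .ofNat 0, .ofNat 0⟩ ⟨.negSucc 1818, .negSucc 100,
  .ofNat 1920, .ofNat 0⟩, .q ⟨.negSucc 0, .ofNat 1, .ofNat 0, .ofNat 0⟩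
  ⟨.ofNat 1781, .ofNat 139, .negSucc 1919, .ofNat 0⟩, .l ⟨.ofNat 0, .ofNat
  0, .negSucc 1919, .ofNat 19⟩ ⟨.ofNat 0, .ofNat 0, .ofNat 0, .ofNat 1⟩, .l
  ⟨.ofNat 0, .ofNat 0, .ofNat 120, .ofNat 7⟩ ⟨.ofNat 0, .ofNat 0, .ofNat 0,
  .ofNat 1⟩],
[.q ⟨.negSucc 0, .ofNat 0, .ofNat 0, .ofNat 1⟩ ⟨.ofNat 3339, .negSucc 3747,
  .ofNat 1398, .negSucc 988⟩, .q ⟨.negSucc 0, .ofNat 0, .ofNat 0, .ofNat 1⟩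
  ⟨.ofNat 3388, .negSucc 3818, .negSucc 1190, .ofNat 1622⟩, .q ⟨.negSucc 0,
  .ofNat 0, .ofNat 0, .ofNat 1⟩ ⟨.negSucc 413, .ofNat 268, .negSucc 3990,
  .ofNat 4137⟩, .q ⟨.negSucc 0, .ofNat 0, .ofNat 0, .ofNat 1⟩ ⟨.negSucc
  3415, .ofNat 3525, .ofNat 1890, .negSucc 1998⟩],
[.l ⟨.ofNat 0, .ofNat 3809, .negSucc 1221, .ofNat 2196⟩ ⟨.ofNat 0, .ofNat 0,
  .ofNat 0, .ofNat 1⟩, .l ⟨.ofNat 0, .ofNat 1924, .ofNat 3507, .ofNat 3035⟩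
  ⟨.ofNat 0, .ofNat 0, .ofNat 0, .ofNat 1⟩, .l ⟨.ofNat 0, .negSucc 3960,
  .negSucc 558, .negSucc 1846⟩ ⟨.ofNat 0, .ofNat 0, .ofNat 0, .ofNat 1⟩, .l
  ⟨.ofNat 0, .negSucc 96, .negSucc 3998, .ofNat 784⟩ ⟨.ofNat 0, .ofNat 0,
  .ofNat 0, .ofNat 1⟩],
[.l ⟨.ofNat 0, .negSucc 1274, .ofNat 3791, .ofNat 320⟩ ⟨.ofNat 0, .ofNat 0,
  .ofNat 0, .ofNat 1⟩, .l ⟨.ofNat 0, .ofNat 0, .negSucc 999, .negSucc 76⟩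
  ⟨.ofNat 0, .ofNat 0, .ofNat 0, .ofNat 1⟩, .l ⟨.ofNat 0, .ofNat 3258,
  .negSucc 2319, .ofNat 19⟩ ⟨.ofNat 0, .ofNat 0, .ofNat 0, .ofNat 1⟩],
[.l ⟨.ofNat 0, .ofNat 40, .ofNat 0, .negSucc 30⟩ ⟨.ofNat 0, .ofNat 40,
  .ofNat 0, .ofNat 31⟩, .l ⟨.ofNat 0, .negSucc 39, .ofNat 0, .ofNat 34⟩
  ⟨.ofNat 0, .ofNat 40, .ofNat 0, .ofNat 34⟩, .l ⟨.ofNat 0, .ofNat 40,
  .ofNat 0, .negSucc 30⟩ ⟨.ofNat 0, .ofNat 206, .ofNat 3995, .ofNat 2917⟩,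
  .l ⟨.ofNat 0, .ofNat 40, .ofNat 0, .negSucc 33⟩ ⟨.ofNat 0, .ofNat 206,
  .ofNat 3995, .ofNat 2917⟩, .l ⟨.ofNat 0, .ofNat 40, .ofNat 0, .negSucc 30⟩
  ⟨.ofNat 0, .negSucc 205, .negSucc 3994, .negSucc 3453⟩, .l ⟨.ofNat 0,
  .ofNat 40, .ofNat 0, .negSucc 33⟩ ⟨.ofNat 0, .negSucc 205, .negSucc 3994,
  .negSucc 3453⟩],
[.l ⟨.ofNat 0, .negSucc 3285, .negSucc 2280, .negSucc 152⟩ ⟨.ofNat 0, .ofNat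
  0, .ofNat 0, .ofNat 1⟩, .l ⟨.ofNat 0, .ofNat 1192, .negSucc 1605, .negSucc
  198⟩ ⟨.ofNat 0, .ofNat 0, .ofNat 0, .ofNat 1⟩, .l ⟨.ofNat 0, .ofNat 2828,
  .ofNat 2828, .ofNat 2591⟩ ⟨.ofNat 0, .ofNat 0, .ofNat 0, .ofNat 1⟩, .l
  ⟨.ofNat 0, .negSucc 3994, .ofNat 193, .ofNat 137⟩ ⟨.ofNat 0, .ofNat 0,
  .ofNat 0, .ofNat 1⟩],
[.q ⟨.negSucc 0, .ofNat 0, .ofNat 0, .ofNat 1⟩ ⟨.negSucc 4035, .ofNat 3979,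
  .ofNat 413, .negSucc 355⟩, .q ⟨.negSucc 0, .ofNat 0, .ofNat 0, .ofNat 1⟩
  ⟨.negSucc 1226, .ofNat 1159, .ofNat 1630, .negSucc 1561⟩, .q ⟨.negSucc 0,
  .ofNat 0, .ofNat 0, .ofNat 1⟩ ⟨.ofNat 341, .negSucc 403, .ofNat 404,
  .negSucc 340⟩, .q ⟨.negSucc 0, .ofNat 0, .ofNat 0, .ofNat 1⟩ ⟨.ofNat 3650,
  .negSucc 3984, .negSucc 340, .ofNat 676⟩, .q ⟨.negSucc 0, .ofNat 0, .ofNat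
  0, .ofNat 1⟩ ⟨.negSucc 188, .ofNat 0, .negSucc 3999, .ofNat 4189⟩],
[.q ⟨.negSucc 0, .ofNat 0, .ofNat 0, .ofNat 1⟩ ⟨.ofNat 565, .negSucc 964,
  .ofNat 3882, .negSucc 3481⟩, .q ⟨.negSucc 0, .ofNat 0, .ofNat 0, .ofNat 1⟩
  ⟨.ofNat 183, .negSucc 199, .ofNat 0, .ofNat 17⟩, .q ⟨.negSucc 0, .ofNat 0,
  .ofNat 0, .ofNat 1⟩ ⟨.ofNat 756, .negSucc 750, .negSucc 3928, .ofNat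
  3924⟩, .q ⟨.negSucc 0, .ofNat 0, .ofNat 0, .ofNat 1⟩ ⟨.negSucc 4068,
  .ofNat 3855, .ofNat 1066, .negSucc 851⟩],
[.q ⟨.negSucc 0, .ofNat 1, .ofNat 0, .ofNat 0⟩ ⟨.negSucc 110, .negSucc 16,
  .ofNat 128, .ofNat 0⟩, .q ⟨.negSucc 0, .ofNat 1, .ofNat 0, .ofNat 0⟩
  ⟨.ofNat 961, .ofNat 959, .negSucc 1919, .ofNat 0⟩, .l ⟨.ofNat 0, .ofNat 0,
  .negSucc 639, .ofNat 19⟩ ⟨.ofNat 0, .ofNat 0, .ofNat 0, .ofNat 1⟩, .l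
  ⟨.ofNat 0, .ofNat 0, .ofNat 384, .ofNat 29⟩ ⟨.ofNat 0, .ofNat 0, .ofNat 0,
  .ofNat 1⟩],
[.q ⟨.negSucc 10, .negSucc 68, .ofNat 80, .ofNat 0⟩ ⟨.negSucc 148, .ofNat
  69, .ofNat 80, .ofNat 0⟩, .q ⟨.ofNat 7, .ofNat 73, .negSucc 79, .ofNat 0⟩
  ⟨.negSucc 152, .ofNat 73, .ofNat 80, .ofNat 0⟩, .q ⟨.ofNat 149, .negSucc
  68, .negSucc 79, .ofNat 0⟩ ⟨.ofNat 2023, .negSucc 22, .ofNat 0, .negSucc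
  1999⟩, .q ⟨.ofNat 153, .negSucc 72, .negSucc 79, .ofNat 0⟩ ⟨.ofNat 2023,
  .negSucc 22, .ofNat 0, .negSucc 1999⟩, .q ⟨.ofNat 149, .negSucc 68,
  .negSucc 79, .ofNat 0⟩ ⟨.negSucc 3211, .ofNat 1479, .negSucc 1825, .ofNat
  3559⟩, .q ⟨.ofNat 153, .negSucc 72, .negSucc 79, .ofNat 0⟩ ⟨.negSucc 3211,
  .ofNat 1479, .negSucc 1825, .ofNat 3559⟩, .q ⟨.ofNat 149, .negSucc 68,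
  .negSucc 79, .ofNat 0⟩ ⟨.ofNat 1976, .ofNat 591, .negSucc 689, .negSucc
  1876⟩, .q ⟨.ofNat 153, .negSucc 72, .negSucc 79, .ofNat 0⟩ ⟨.ofNat 1976,
  .ofNat 591, .negSucc 689, .negSucc 1876⟩],
[.l ⟨.ofNat 0, .ofNat 707, .ofNat 707, .ofNat 821⟩ ⟨.ofNat 0, .ofNat 0,
  .ofNat 0, .ofNat 1⟩, .l ⟨.ofNat 0, .negSucc 2827, .ofNat 2828, .negSucc
  22⟩ ⟨.ofNat 0, .ofNat 0, .ofNat 0, .ofNat 1⟩, .l ⟨.ofNat 0, .negSucc 3999,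
  .ofNat 0, .negSucc 310⟩ ⟨.ofNat 0, .ofNat 0, .ofNat 0, .ofNat 1⟩, .l
  ⟨.ofNat 0, .ofNat 1950, .negSucc 3492, .ofNat 186⟩ ⟨.ofNat 0, .ofNat 0,
  .ofNat 0, .ofNat 1⟩],
[.q ⟨.negSucc 0, .ofNat 0, .ofNat 0, .ofNat 1⟩ ⟨.negSucc 1812, .ofNat 1884,
  .ofNat 672, .negSucc 742⟩, .q ⟨.negSucc 0, .ofNat 0, .ofNat 0, .ofNat 1⟩
  ⟨.ofNat 280, .negSucc 1592, .ofNat 3669, .negSucc 2355⟩, .q ⟨.negSucc 0,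
  .ofNat 0, .ofNat 0, .ofNat 1⟩ ⟨.ofNat 2638, .negSucc 2835, .negSucc 2820,
  .ofNat 3019⟩, .q ⟨.negSucc 0, .ofNat 0, .ofNat 0, .ofNat 1⟩ ⟨.negSucc
  1147, .ofNat 1657, .negSucc 3640, .ofNat 3132⟩],
[.l ⟨.ofNat 0, .negSucc 3292, .negSucc 2269, .negSucc 753⟩ ⟨.ofNat 0, .ofNat
  0, .ofNat 0, .ofNat 1⟩, .l ⟨.ofNat 0, .ofNat 3331, .negSucc 2213, .ofNat
  1174⟩ ⟨.ofNat 0, .ofNat 0, .ofNat 0, .ofNat 1⟩, .l ⟨.ofNat 0, .ofNat 698,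
  .ofNat 3939, .ofNat 2355⟩ ⟨.ofNat 0, .ofNat 0, .ofNat 0, .ofNat 1⟩, .l
  ⟨.ofNat 0, .negSucc 3986, .ofNat 328, .ofNat 1003⟩ ⟨.ofNat 0, .ofNat 0,
  .ofNat 0, .ofNat 1⟩],
[.q ⟨.negSucc 0, .ofNat 1, .ofNat 0, .ofNat 0⟩ ⟨.negSucc 278, .negSucc 40,
  .ofNat 320, .ofNat 0⟩, .q ⟨.negSucc 0, .ofNat 1, .ofNat 0, .ofNat 0⟩
  ⟨.ofNat 961, .ofNat 959, .negSucc 1919, .ofNat 0⟩, .l ⟨.ofNat 0, .ofNat 0,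
  .negSucc 639, .ofNat 19⟩ ⟨.ofNat 0, .ofNat 0, .ofNat 0, .ofNat 1⟩, .l
  ⟨.ofNat 0, .ofNat 0, .ofNat 1920, .ofNat 143⟩ ⟨.ofNat 0, .ofNat 0, .ofNat
  0, .ofNat 1⟩],
[.q ⟨.ofNat 17, .negSucc 18, .negSucc 27, .ofNat 30⟩ ⟨.negSucc 4539, .ofNat
  1156, .ofNat 1554, .ofNat 1830⟩, .q ⟨.ofNat 17, .negSucc 18, .negSucc 27,
  .ofNat 30⟩ ⟨.ofNat 221, .negSucc 953, .ofNat 343, .ofNat 390⟩, .q ⟨.ofNat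
  17, .negSucc 18, .negSucc 27, .ofNat 30⟩ ⟨.ofNat 4878, .negSucc 2160,
  .negSucc 1366, .negSucc 1349⟩, .q ⟨.ofNat 17, .negSucc 18, .negSucc 27,
  .ofNat 30⟩ ⟨.ofNat 577, .ofNat 3047, .negSucc 1853, .negSucc 1769⟩],
[.q ⟨.negSucc 0, .ofNat 0, .ofNat 0, .ofNat 1⟩ ⟨.negSucc 3816, .ofNat 3995,
  .negSucc 199, .ofNat 22⟩, .q ⟨.negSucc 0, .ofNat 0, .ofNat 0, .ofNat 1⟩
  ⟨.ofNat 3001, .negSucc 3339, .ofNat 2201, .negSucc 1861⟩, .q ⟨.negSucc 0,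
  .ofNat 0, .ofNat 0, .ofNat 1⟩ ⟨.ofNat 709, .negSucc 796, .negSucc 68,
  .ofNat 157⟩, .q ⟨.negSucc 0, .ofNat 0, .ofNat 0, .ofNat 1⟩ ⟨.ofNat 557,
  .negSucc 796, .negSucc 3919, .ofNat 4160⟩],
[.q ⟨.negSucc 0, .ofNat 0, .ofNat 0, .ofNat 1⟩ ⟨.negSucc 3, .ofNat 0, .ofNat
  25, .negSucc 20⟩, .q ⟨.negSucc 0, .ofNat 0, .ofNat 0, .ofNat 1⟩ ⟨.ofNat
  833, .negSucc 861, .negSucc 1016, .ofNat 1046⟩, .q ⟨.negSucc 0, .ofNat 0,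
  .ofNat 0, .ofNat 1⟩ ⟨.ofNat 253, .ofNat 48, .negSucc 3999, .ofNat 3699⟩,
  .q ⟨.negSucc 0, .ofNat 0, .ofNat 0, .ofNat 1⟩ ⟨.negSucc 3328, .ofNat 3833,
  .negSucc 1142, .ofNat 639⟩],
[.l ⟨.ofNat 0, .ofNat 923, .ofNat 3892, .ofNat 1966⟩ ⟨.ofNat 0, .ofNat 0,
  .ofNat 0, .ofNat 1⟩, .l ⟨.ofNat 0, .negSucc 3712, .negSucc 1486, .negSucc
  1529⟩ ⟨.ofNat 0, .ofNat 0, .ofNat 0, .ofNat 1⟩, .l ⟨.ofNat 0, .negSucc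
  1110, .negSucc 3842, .ofNat 247⟩ ⟨.ofNat 0, .ofNat 0, .ofNat 0, .ofNat 1⟩,
  .l ⟨.ofNat 0, .ofNat 1173, .negSucc 633, .ofNat 715⟩ ⟨.ofNat 0, .ofNat 0,
  .ofNat 0, .ofNat 1⟩],
[.q ⟨.negSucc 0, .ofNat 0, .ofNat 0, .ofNat 1⟩ ⟨.ofNat 3194, .negSucc 3596,
  .negSucc 1748, .ofNat 2152⟩, .q ⟨.negSucc 0, .ofNat 0, .ofNat 0, .ofNat 1⟩
  ⟨.ofNat 998, .negSucc 822, .negSucc 3913, .ofNat 3739⟩, .q ⟨.negSucc 0,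
  .ofNat 0, .ofNat 0, .ofNat 1⟩ ⟨.negSucc 1157, .ofNat 1331, .ofNat 80,
  .negSucc 252⟩, .q ⟨.negSucc 0, .ofNat 0, .ofNat 0, .ofNat 1⟩ ⟨.negSucc
  2960, .ofNat 2942, .ofNat 2710, .negSucc 2690⟩],
[.q ⟨.negSucc 0, .ofNat 1, .ofNat 0, .ofNat 0⟩ ⟨.negSucc 548, .negSucc 90,
  .ofNat 640, .ofNat 0⟩, .q ⟨.negSucc 0, .ofNat 1, .ofNat 0, .ofNat 0⟩
  ⟨.ofNat 961, .ofNat 959, .negSucc 1919, .ofNat 0⟩, .l ⟨.ofNat 0, .ofNat 0,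
  .negSucc 959, .ofNat 31⟩ ⟨.ofNat 0, .ofNat 0, .ofNat 0, .ofNat 1⟩, .l
  ⟨.ofNat 0, .ofNat 0, .ofNat 240, .ofNat 19⟩ ⟨.ofNat 0, .ofNat 0, .ofNat 0,
  .ofNat 1⟩],
[.q ⟨.negSucc 2, .negSucc 36, .ofNat 40, .ofNat 0⟩ ⟨.negSucc 76, .ofNat 37,
  .ofNat 40, .ofNat 0⟩, .q ⟨.negSucc 0, .ofNat 41, .negSucc 39, .ofNat 0⟩
  ⟨.negSucc 80, .ofNat 41, .ofNat 40, .ofNat 0⟩, .q ⟨.ofNat 77, .negSucc 36,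
  .negSucc 39, .ofNat 0⟩ ⟨.ofNat 2029, .negSucc 28, .ofNat 0, .negSucc
  1999⟩, .q ⟨.ofNat 81, .negSucc 40, .negSucc 39, .ofNat 0⟩ ⟨.ofNat 2029,
  .negSucc 28, .ofNat 0, .negSucc 1999⟩, .q ⟨.ofNat 77, .negSucc 36,
  .negSucc 39, .ofNat 0⟩ ⟨.negSucc 3758, .negSucc 240, .ofNat 0, .ofNat
  4000⟩, .q ⟨.ofNat 81, .negSucc 40, .negSucc 39, .ofNat 0⟩ ⟨.negSucc 3758,
  .negSucc 240, .ofNat 0, .ofNat 4000⟩],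
[.q ⟨.negSucc 0, .ofNat 1, .ofNat 0, .ofNat 0⟩ ⟨.negSucc 558, .negSucc 80,
  .ofNat 640, .ofNat 0⟩, .q ⟨.negSucc 0, .ofNat 1, .ofNat 0, .ofNat 0⟩
  ⟨.ofNat 961, .ofNat 959, .negSucc 1919, .ofNat 0⟩, .l ⟨.ofNat 0, .ofNat 0,
  .negSucc 639, .ofNat 19⟩ ⟨.ofNat 0, .ofNat 0, .ofNat 0, .ofNat 1⟩, .l
  ⟨.ofNat 0, .ofNat 0, .ofNat 96, .ofNat 7⟩ ⟨.ofNat 0, .ofNat 0, .ofNat 0,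
  .ofNat 1⟩],
[.q ⟨.negSucc 0, .ofNat 0, .ofNat 0, .ofNat 1⟩ ⟨.ofNat 211, .ofNat 109,
  .negSucc 3998, .ofNat 3679⟩, .q ⟨.negSucc 0, .ofNat 0, .ofNat 0, .ofNat 1⟩
  ⟨.negSucc 581, .ofNat 707, .negSucc 706, .ofNat 582⟩, .q ⟨.negSucc 0,
  .ofNat 0, .ofNat 0, .ofNat 1⟩ ⟨.negSucc 298, .negSucc 103, .ofNat 3999,
  .negSucc 3595⟩, .q ⟨.negSucc 0, .ofNat 0, .ofNat 0, .ofNat 1⟩ ⟨.ofNat 681,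
  .negSucc 799, .ofNat 0, .ofNat 119⟩],
[.l ⟨.ofNat 0, .negSucc 2811, .negSucc 2844, .ofNat 5785⟩ ⟨.ofNat 0, .ofNat
  0, .ofNat 0, .ofNat 1⟩, .l ⟨.ofNat 0, .ofNat 3401, .negSucc 2105, .negSucc
  1837⟩ ⟨.ofNat 0, .ofNat 0, .ofNat 0, .ofNat 1⟩, .l ⟨.ofNat 0, .ofNat 1742,
  .ofNat 3601, .ofNat 3541⟩ ⟨.ofNat 0, .ofNat 0, .ofNat 0, .ofNat 1⟩, .l
  ⟨.ofNat 0, .negSucc 3575, .ofNat 1792, .ofNat 1679⟩ ⟨.ofNat 0, .ofNat 0,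
  .ofNat 0, .ofNat 1⟩],
[.l ⟨.ofNat 0, .negSucc 2588, .ofNat 3049, .ofNat 366⟩ ⟨.ofNat 0, .ofNat 0,
  .ofNat 0, .ofNat 1⟩, .l ⟨.ofNat 0, .negSucc 3713, .negSucc 1484, .negSucc
  46⟩ ⟨.ofNat 0, .ofNat 0, .ofNat 0, .ofNat 1⟩, .l ⟨.ofNat 0, .ofNat 1237,
  .negSucc 3803, .negSucc 230⟩ ⟨.ofNat 0, .ofNat 0, .ofNat 0, .ofNat 1⟩, .l
  ⟨.ofNat 0, .ofNat 712, .ofNat 3936, .ofNat 1801⟩ ⟨.ofNat 0, .ofNat 0,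
  .ofNat 0, .ofNat 1⟩],
[.q ⟨.negSucc 20, .negSucc 18, .ofNat 40, .ofNat 0⟩ ⟨.negSucc 58, .ofNat 19,
  .ofNat 40, .ofNat 0⟩, .q ⟨.ofNat 18, .ofNat 22, .negSucc 39, .ofNat 0⟩
  ⟨.negSucc 61, .ofNat 22, .ofNat 40, .ofNat 0⟩, .q ⟨.ofNat 59, .negSucc 18,
  .negSucc 39, .ofNat 0⟩ ⟨.ofNat 253, .ofNat 247, .ofNat 0, .negSucc 499⟩,
  .q ⟨.ofNat 62, .negSucc 21, .negSucc 39, .ofNat 0⟩ ⟨.ofNat 253, .ofNat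
  247, .ofNat 0, .negSucc 499⟩, .q ⟨.ofNat 59, .negSucc 18, .negSucc 39,
  .ofNat 0⟩ ⟨.ofNat 5021, .negSucc 7020, .ofNat 0, .ofNat 2000⟩, .q ⟨.ofNat
  62, .negSucc 21, .negSucc 39, .ofNat 0⟩ ⟨.ofNat 5021, .negSucc 7020,
  .ofNat 0, .ofNat 2000⟩, .q ⟨.ofNat 59, .negSucc 18, .negSucc 39, .ofNat 0⟩
  ⟨.ofNat 2792, .ofNat 2795, .negSucc 3238, .negSucc 2347⟩, .q ⟨.ofNat 62,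
  .negSucc 21, .negSucc 39, .ofNat 0⟩ ⟨.ofNat 2792, .ofNat 2795, .negSucc
  3238, .negSucc 2347⟩, .q ⟨.ofNat 59, .negSucc 18, .negSucc 39, .ofNat 0⟩
  ⟨.ofNat 210, .ofNat 112, .negSucc 2984, .ofNat 2663⟩, .q ⟨.ofNat 62,
  .negSucc 21, .negSucc 39, .ofNat 0⟩ ⟨.ofNat 210, .ofNat 112, .negSucc
  2984, .ofNat 2663⟩],
[.l ⟨.ofNat 0, .ofNat 3994, .ofNat 225, .ofNat 1284⟩ ⟨.ofNat 0, .ofNat 0,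
  .ofNat 0, .ofNat 1⟩, .l ⟨.ofNat 0, .negSucc 360, .ofNat 3984, .ofNat 3136⟩
  ⟨.ofNat 0, .ofNat 0, .ofNat 0, .ofNat 1⟩, .l ⟨.ofNat 0, .negSucc 3948,
  .ofNat 635, .ofNat 1158⟩ ⟨.ofNat 0, .ofNat 0, .ofNat 0, .ofNat 1⟩, .l
  ⟨.ofNat 0, .negSucc 706, .negSucc 706, .negSucc 269⟩ ⟨.ofNat 0, .ofNat 0,
  .ofNat 0, .ofNat 1⟩],
[.q ⟨.negSucc 20, .negSucc 18, .ofNat 40, .ofNat 0⟩ ⟨.negSucc 58, .ofNat 19,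
  .ofNat 40, .ofNat 0⟩, .q ⟨.ofNat 17, .ofNat 23, .negSucc 39, .ofNat 0⟩
  ⟨.negSucc 62, .ofNat 23, .ofNat 40, .ofNat 0⟩, .q ⟨.ofNat 59, .negSucc 18,
  .negSucc 39, .ofNat 0⟩ ⟨.ofNat 1520, .ofNat 1452, .ofNat 921, .negSucc
  3892⟩, .q ⟨.ofNat 63, .negSucc 22, .negSucc 39, .ofNat 0⟩ ⟨.ofNat 1520,
  .ofNat 1452, .ofNat 921, .negSucc 3892⟩, .q ⟨.ofNat 59, .negSucc 18,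
  .negSucc 39, .ofNat 0⟩ ⟨.negSucc 17, .negSucc 441, .negSucc 2588, .ofNat
  3049⟩, .q ⟨.ofNat 63, .negSucc 22, .negSucc 39, .ofNat 0⟩ ⟨.negSucc 17,
  .negSucc 441, .negSucc 2588, .ofNat 3049⟩, .q ⟨.ofNat 59, .negSucc 18,
  .negSucc 39, .ofNat 0⟩ ⟨.ofNat 2609, .ofNat 2636, .negSucc 3681, .negSucc
  1562⟩, .q ⟨.ofNat 63, .negSucc 22, .negSucc 39, .ofNat 0⟩ ⟨.ofNat 2609,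
  .ofNat 2636, .negSucc 3681, .negSucc 1562⟩],
[.q ⟨.negSucc 0, .ofNat 0, .ofNat 0, .ofNat 1⟩ ⟨.ofNat 1341, .negSucc 2827,
  .ofNat 2828, .negSucc 1340⟩, .q ⟨.negSucc 0, .ofNat 0, .ofNat 0, .ofNat 1⟩
  ⟨.ofNat 975, .negSucc 729, .negSucc 3932, .ofNat 3688⟩, .q ⟨.negSucc 0,
  .ofNat 0, .ofNat 0, .ofNat 1⟩ ⟨.negSucc 3284, .ofNat 3748, .negSucc 1396,
  .ofNat 934⟩, .q ⟨.negSucc 0, .ofNat 0, .ofNat 0, .ofNat 1⟩ ⟨.negSucc 3496,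
  .ofNat 3501, .ofNat 1934, .negSucc 1937⟩],
[.q ⟨.negSucc 0, .ofNat 0, .ofNat 0, .ofNat 1⟩ ⟨.ofNat 2657, .negSucc 2838,
  .negSucc 2816, .ofNat 2999⟩, .q ⟨.negSucc 0, .ofNat 0, .ofNat 0, .ofNat 1⟩
  ⟨.ofNat 293, .ofNat 0, .negSucc 3999, .ofNat 3707⟩, .q ⟨.negSucc 0, .ofNat
  0, .ofNat 0, .ofNat 1⟩ ⟨.negSucc 3510, .ofNat 4000, .ofNat 0, .negSucc
  488⟩, .q ⟨.negSucc 0, .ofNat 0, .ofNat 0, .ofNat 1⟩ ⟨.ofNat 1341, .negSucc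
  2827, .ofNat 2828, .negSucc 1340⟩],
[.l ⟨.ofNat 0, .ofNat 40, .ofNat 0, .negSucc 28⟩ ⟨.ofNat 0, .ofNat 40,
  .ofNat 0, .ofNat 29⟩, .l ⟨.ofNat 0, .negSucc 39, .ofNat 0, .ofNat 32⟩
  ⟨.ofNat 0, .ofNat 40, .ofNat 0, .ofNat 32⟩, .l ⟨.ofNat 0, .ofNat 40,
  .ofNat 0, .negSucc 28⟩ ⟨.ofNat 0, .ofNat 0, .ofNat 1000, .negSucc 1788⟩,
  .l ⟨.ofNat 0, .ofNat 40, .ofNat 0, .negSucc 31⟩ ⟨.ofNat 0, .ofNat 0,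
  .ofNat 1000, .negSucc 1788⟩, .l ⟨.ofNat 0, .ofNat 40, .ofNat 0, .negSucc
  28⟩ ⟨.ofNat 0, .ofNat 0, .negSucc 3999, .negSucc 3292⟩, .l ⟨.ofNat 0,
  .ofNat 40, .ofNat 0, .negSucc 31⟩ ⟨.ofNat 0, .ofNat 0, .negSucc 3999,
  .negSucc 3292⟩, .l ⟨.ofNat 0, .ofNat 40, .ofNat 0, .negSucc 28⟩ ⟨.ofNat 0,
  .negSucc 102, .ofNat 3999, .ofNat 2916⟩, .l ⟨.ofNat 0, .ofNat 40, .ofNat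
  0, .negSucc 31⟩ ⟨.ofNat 0, .negSucc 102, .ofNat 3999, .ofNat 2916⟩],
[.l ⟨.ofNat 0, .negSucc 2613, .ofNat 3027, .ofNat 366⟩ ⟨.ofNat 0, .ofNat 0,
  .ofNat 0, .ofNat 1⟩, .l ⟨.ofNat 0, .negSucc 3993, .negSucc 222, .ofNat 84⟩
  ⟨.ofNat 0, .ofNat 0, .ofNat 0, .ofNat 1⟩, .l ⟨.ofNat 0, .ofNat 142,
  .negSucc 3996, .negSucc 389⟩ ⟨.ofNat 0, .ofNat 0, .ofNat 0, .ofNat 1⟩, .l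
  ⟨.ofNat 0, .ofNat 3632, .ofNat 1676, .ofNat 3363⟩ ⟨.ofNat 0, .ofNat 0,
  .ofNat 0, .ofNat 1⟩, .l ⟨.ofNat 0, .ofNat 275, .ofNat 1981, .ofNat 1221⟩
  ⟨.ofNat 0, .ofNat 0, .ofNat 0, .ofNat 1⟩],
[.l ⟨.ofNat 0, .ofNat 808, .negSucc 3916, .ofNat 1286⟩ ⟨.ofNat 0, .ofNat 0,
  .ofNat 0, .ofNat 1⟩, .l ⟨.ofNat 0, .ofNat 3391, .ofNat 2122, .ofNat 2287⟩
  ⟨.ofNat 0, .ofNat 0, .ofNat 0, .ofNat 1⟩, .l ⟨.ofNat 0, .negSucc 2200,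
  .ofNat 3340, .ofNat 604⟩ ⟨.ofNat 0, .ofNat 0, .ofNat 0, .ofNat 1⟩, .l
  ⟨.ofNat 0, .negSucc 1889, .negSucc 3524, .negSucc 466⟩ ⟨.ofNat 0, .ofNat
  0, .ofNat 0, .ofNat 1⟩],
[.q ⟨.negSucc 0, .ofNat 0, .ofNat 0, .ofNat 1⟩ ⟨.ofNat 2777, .negSucc 2975,
  .negSucc 2671, .ofNat 2871⟩, .q ⟨.negSucc 0, .ofNat 0, .ofNat 0, .ofNat 1⟩
  ⟨.negSucc 170, .ofNat 531, .negSucc 3964, .ofNat 3605⟩, .q ⟨.negSucc 0,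
  .ofNat 0, .ofNat 0, .ofNat 1⟩ ⟨.negSucc 3571, .ofNat 3990, .negSucc 276,
  .negSucc 140⟩, .q ⟨.negSucc 0, .ofNat 0, .ofNat 0, .ofNat 1⟩ ⟨.ofNat 1341,
  .negSucc 2827, .ofNat 2828, .negSucc 1340⟩],
[.q ⟨.ofNat 17, .negSucc 18, .negSucc 27, .ofNat 30⟩ ⟨.ofNat 1971, .negSucc
  4108, .ofNat 1058, .ofNat 1080⟩, .q ⟨.ofNat 17, .negSucc 18, .negSucc 27,
  .ofNat 30⟩ ⟨.ofNat 4165, .negSucc 359, .negSucc 1884, .negSucc 1919⟩, .q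
  ⟨.ofNat 17, .negSucc 18, .negSucc 27, .ofNat 30⟩ ⟨.ofNat 195, .ofNat 3260,
  .negSucc 1774, .negSucc 1679⟩, .q ⟨.ofNat 17, .negSucc 18, .negSucc 27,
  .ofNat 30⟩ ⟨.negSucc 2368, .ofNat 901, .ofNat 658, .ofNat 810⟩],
[.q ⟨.negSucc 20, .negSucc 18, .ofNat 40, .ofNat 0⟩ ⟨.negSucc 58, .ofNat 19,
  .ofNat 40, .ofNat 0⟩, .q ⟨.ofNat 18, .ofNat 22, .negSucc 39, .ofNat 0⟩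
  ⟨.negSucc 61, .ofNat 22, .ofNat 40, .ofNat 0⟩, .q ⟨.ofNat 59, .negSucc 18,
  .negSucc 39, .ofNat 0⟩ ⟨.ofNat 407, .ofNat 393, .ofNat 0, .negSucc 799⟩,
  .q ⟨.ofNat 62, .negSucc 21, .negSucc 39, .ofNat 0⟩ ⟨.ofNat 407, .ofNat
  393, .ofNat 0, .negSucc 799⟩, .q ⟨.ofNat 59, .negSucc 18, .negSucc 39,
  .ofNat 0⟩ ⟨.negSucc 31, .negSucc 434, .negSucc 2584, .ofNat 3052⟩, .q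
  ⟨.ofNat 62, .negSucc 21, .negSucc 39, .ofNat 0⟩ ⟨.negSucc 31, .negSucc
  434, .negSucc 2584, .ofNat 3052⟩, .q ⟨.ofNat 59, .negSucc 18, .negSucc 39,
  .ofNat 0⟩ ⟨.ofNat 1331, .ofNat 1348, .negSucc 1792, .negSucc 885⟩, .q
  ⟨.ofNat 62, .negSucc 21, .negSucc 39, .ofNat 0⟩ ⟨.ofNat 1331, .ofNat 1348,
  .negSucc 1792, .negSucc 885⟩],
[.q ⟨.negSucc 0, .ofNat 0, .ofNat 0, .ofNat 1⟩ ⟨.negSucc 2096, .ofNat 2600,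
  .negSucc 3039, .ofNat 2537⟩, .q ⟨.negSucc 0, .ofNat 0, .ofNat 0, .ofNat 1⟩
  ⟨.negSucc 1847, .ofNat 1612, .ofNat 3661, .negSucc 3424⟩, .q ⟨.negSucc 0,
  .ofNat 0, .ofNat 0, .ofNat 1⟩ ⟨.ofNat 831, .negSucc 999, .ofNat 0, .ofNat
  169⟩, .q ⟨.negSucc 0, .ofNat 0, .ofNat 0, .ofNat 1⟩ ⟨.ofNat 380, .negSucc
  317, .negSucc 1294, .ofNat 1233⟩],
[.q ⟨.negSucc 0, .ofNat 0, .ofNat 0, .ofNat 1⟩ ⟨.ofNat 1696, .negSucc 1974,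
  .negSucc 313, .ofNat 593⟩, .q ⟨.negSucc 0, .ofNat 0, .ofNat 0, .ofNat 1⟩
  ⟨.negSucc 362, .ofNat 605, .negSucc 1905, .ofNat 1664⟩, .q ⟨.negSucc 0,
  .ofNat 0, .ofNat 0, .ofNat 1⟩ ⟨.negSucc 3492, .ofNat 3885, .negSucc 953,
  .ofNat 562⟩, .q ⟨.negSucc 0, .ofNat 0, .ofNat 0, .ofNat 1⟩ ⟨.negSucc 2943,
  .ofNat 2867, .ofNat 2789, .negSucc 2711⟩],
[.l ⟨.ofNat 0, .ofNat 20, .ofNat 0, .negSucc 14⟩ ⟨.ofNat 0, .ofNat 20,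
  .ofNat 0, .ofNat 15⟩, .l ⟨.ofNat 0, .negSucc 19, .ofNat 0, .ofNat 18⟩
  ⟨.ofNat 0, .ofNat 20, .ofNat 0, .ofNat 18⟩, .l ⟨.ofNat 0, .ofNat 20,
  .ofNat 0, .negSucc 14⟩ ⟨.ofNat 0, .negSucc 258, .ofNat 3992, .ofNat 2679⟩,
  .l ⟨.ofNat 0, .ofNat 20, .ofNat 0, .negSucc 17⟩ ⟨.ofNat 0, .negSucc 258,
  .ofNat 3992, .ofNat 2679⟩, .l ⟨.ofNat 0, .ofNat 20, .ofNat 0, .negSucc 14⟩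
  ⟨.ofNat 0, .ofNat 259, .negSucc 3991, .negSucc 3091⟩, .l ⟨.ofNat 0, .ofNat
  20, .ofNat 0, .negSucc 17⟩ ⟨.ofNat 0, .ofNat 259, .negSucc 3991, .negSucc
  3091⟩],
[.l ⟨.ofNat 0, .ofNat 20, .ofNat 0, .negSucc 15⟩ ⟨.ofNat 0, .ofNat 20,
  .ofNat 0, .ofNat 16⟩, .l ⟨.ofNat 0, .negSucc 19, .ofNat 0, .ofNat 19⟩
  ⟨.ofNat 0, .ofNat 20, .ofNat 0, .ofNat 19⟩, .l ⟨.ofNat 0, .ofNat 20,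
  .ofNat 0, .negSucc 15⟩ ⟨.ofNat 0, .ofNat 0, .ofNat 4000, .ofNat 2667⟩, .l
  ⟨.ofNat 0, .ofNat 20, .ofNat 0, .negSucc 18⟩ ⟨.ofNat 0, .ofNat 0, .ofNat
  4000, .ofNat 2667⟩, .l ⟨.ofNat 0, .ofNat 20, .ofNat 0, .negSucc 15⟩
  ⟨.ofNat 0, .ofNat 0, .negSucc 999, .negSucc 830⟩, .l ⟨.ofNat 0, .ofNat 20,
  .ofNat 0, .negSucc 18⟩ ⟨.ofNat 0, .ofNat 0, .negSucc 999, .negSucc 830⟩,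
  .l ⟨.ofNat 0, .ofNat 20, .ofNat 0, .negSucc 15⟩ ⟨.ofNat 0, .ofNat 948,
  .negSucc 1760, .negSucc 682⟩, .l ⟨.ofNat 0, .ofNat 20, .ofNat 0, .negSucc
  18⟩ ⟨.ofNat 0, .ofNat 948, .negSucc 1760, .negSucc 682⟩],
[.l ⟨.ofNat 0, .ofNat 20, .ofNat 0, .negSucc 16⟩ ⟨.ofNat 0, .ofNat 20,
  .ofNat 0, .ofNat 17⟩, .l ⟨.ofNat 0, .negSucc 19, .ofNat 0, .ofNat 20⟩
  ⟨.ofNat 0, .ofNat 20, .ofNat 0, .ofNat 20⟩, .l ⟨.ofNat 0, .ofNat 20,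
  .ofNat 0, .negSucc 16⟩ ⟨.ofNat 0, .ofNat 1781, .ofNat 3582, .ofNat 4808⟩,
  .l ⟨.ofNat 0, .ofNat 20, .ofNat 0, .negSucc 19⟩ ⟨.ofNat 0, .ofNat 1781,
  .ofNat 3582, .ofNat 4808⟩, .l ⟨.ofNat 0, .ofNat 20, .ofNat 0, .negSucc 16⟩
  ⟨.ofNat 0, .ofNat 1329, .negSucc 3772, .negSucc 2750⟩, .l ⟨.ofNat 0,
  .ofNat 20, .ofNat 0, .negSucc 19⟩ ⟨.ofNat 0, .ofNat 1329, .negSucc 3772,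
  .negSucc 2750⟩],
[.l ⟨.ofNat 0, .ofNat 2938, .negSucc 2714, .ofNat 361⟩ ⟨.ofNat 0, .ofNat 0,
  .ofNat 0, .ofNat 1⟩, .l ⟨.ofNat 0, .negSucc 1164, .ofNat 3827, .ofNat 46⟩
  ⟨.ofNat 0, .ofNat 0, .ofNat 0, .ofNat 1⟩, .l ⟨.ofNat 0, .negSucc 1413,
  .negSucc 1413, .negSucc 88⟩ ⟨.ofNat 0, .ofNat 0, .ofNat 0, .ofNat 1⟩, .l
  ⟨.ofNat 0, .ofNat 0, .negSucc 1999, .ofNat 49⟩ ⟨.ofNat 0, .ofNat 0, .ofNat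
  0, .ofNat 1⟩],
[.q ⟨.negSucc 0, .ofNat 0, .ofNat 0, .ofNat 1⟩ ⟨.negSucc 46, .ofNat 0,
  .ofNat 400, .negSucc 352⟩, .q ⟨.negSucc 0, .ofNat 0, .ofNat 0, .ofNat 1⟩
  ⟨.ofNat 2713, .negSucc 2827, .negSucc 2827, .ofNat 2943⟩, .q ⟨.negSucc 0,
  .ofNat 0, .ofNat 0, .ofNat 1⟩ ⟨.negSucc 980, .ofNat 1418, .negSucc 3739,
  .ofNat 3303⟩, .q ⟨.negSucc 0, .ofNat 0, .ofNat 0, .ofNat 1⟩ ⟨.negSucc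
  3267, .ofNat 3715, .negSucc 1482, .ofNat 1036⟩],
[.l ⟨.ofNat 0, .negSucc 3147, .ofNat 2468, .negSucc 136⟩ ⟨.ofNat 0, .ofNat
  0, .ofNat 0, .ofNat 1⟩, .l ⟨.ofNat 0, .negSucc 1902, .negSucc 3517,
  .negSucc 85⟩ ⟨.ofNat 0, .ofNat 0, .ofNat 0, .ofNat 1⟩, .l ⟨.ofNat 0,
  .ofNat 0, .negSucc 3999, .ofNat 103⟩ ⟨.ofNat 0, .ofNat 0, .ofNat 0, .ofNat
  1⟩, .l ⟨.ofNat 0, .ofNat 1946, .ofNat 461, .ofNat 180⟩ ⟨.ofNat 0, .ofNat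
  0, .ofNat 0, .ofNat 1⟩],
[.l ⟨.ofNat 0, .ofNat 3999, .ofNat 97, .ofNat 208⟩ ⟨.ofNat 0, .ofNat 0,
  .ofNat 0, .ofNat 1⟩, .l ⟨.ofNat 0, .negSucc 1413, .ofNat 1414, .ofNat
  1325⟩ ⟨.ofNat 0, .ofNat 0, .ofNat 0, .ofNat 1⟩, .l ⟨.ofNat 0, .negSucc
  3792, .ofNat 1271, .ofNat 1267⟩ ⟨.ofNat 0, .ofNat 0, .ofNat 0, .ofNat 1⟩,
  .l ⟨.ofNat 0, .ofNat 2753, .negSucc 2901, .negSucc 1790⟩ ⟨.ofNat 0, .ofNat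
  0, .ofNat 0, .ofNat 1⟩],
[.q ⟨.negSucc 0, .ofNat 0, .ofNat 0, .ofNat 1⟩ ⟨.ofNat 2395, .negSucc 2827,
  .ofNat 2828, .negSucc 2394⟩, .q ⟨.negSucc 0, .ofNat 0, .ofNat 0, .ofNat 1⟩
  ⟨.ofNat 3509, .negSucc 3913, .ofNat 823, .negSucc 417⟩, .q ⟨.negSucc 0,
  .ofNat 0, .ofNat 0, .ofNat 1⟩ ⟨.negSucc 8, .negSucc 150, .negSucc 3996,
  .ofNat 4157⟩, .q ⟨.negSucc 0, .ofNat 0, .ofNat 0, .ofNat 1⟩ ⟨.negSucc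
  1872, .ofNat 2000, .ofNat 0, .negSucc 126⟩],
[.l ⟨.ofNat 0, .ofNat 40, .ofNat 0, .negSucc 32⟩ ⟨.ofNat 0, .ofNat 40,
  .ofNat 0, .ofNat 33⟩, .l ⟨.ofNat 0, .negSucc 39, .ofNat 0, .ofNat 37⟩
  ⟨.ofNat 0, .ofNat 40, .ofNat 0, .ofNat 37⟩, .l ⟨.ofNat 0, .ofNat 40,
  .ofNat 0, .negSucc 32⟩ ⟨.ofNat 0, .ofNat 0, .ofNat 800, .ofNat 747⟩, .l
  ⟨.ofNat 0, .ofNat 40, .ofNat 0, .negSucc 36⟩ ⟨.ofNat 0, .ofNat 0, .ofNat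
  800, .ofNat 747⟩, .l ⟨.ofNat 0, .ofNat 40, .ofNat 0, .negSucc 32⟩ ⟨.ofNat
  0, .ofNat 779, .negSucc 3922, .negSucc 3498⟩, .l ⟨.ofNat 0, .ofNat 40,
  .ofNat 0, .negSucc 36⟩ ⟨.ofNat 0, .ofNat 779, .negSucc 3922, .negSucc
  3498⟩],
[.q ⟨.negSucc 0, .ofNat 0, .ofNat 0, .ofNat 1⟩ ⟨.negSucc 3672, .ofNat 3612,
  .ofNat 1718, .negSucc 1656⟩, .q ⟨.negSucc 0, .ofNat 0, .ofNat 0, .ofNat 1⟩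
  ⟨.ofNat 1539, .negSucc 1939, .ofNat 3498, .negSucc 3096⟩, .q ⟨.negSucc 0,
  .ofNat 0, .ofNat 0, .ofNat 1⟩ ⟨.ofNat 91, .negSucc 99, .ofNat 0, .ofNat
  9⟩, .q ⟨.negSucc 0, .ofNat 0, .ofNat 0, .ofNat 1⟩ ⟨.negSucc 1175, .ofNat
  1101, .negSucc 3844, .ofNat 3920⟩],
[.q ⟨.negSucc 0, .ofNat 0, .ofNat 0, .ofNat 1⟩ ⟨.ofNat 3375, .negSucc 3792,
  .ofNat 1270, .negSucc 851⟩, .q ⟨.negSucc 0, .ofNat 0, .ofNat 0, .ofNat 1⟩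
  ⟨.ofNat 1333, .negSucc 1489, .negSucc 1333, .ofNat 1491⟩, .q ⟨.negSucc 0,
  .ofNat 0, .ofNat 0, .ofNat 1⟩ ⟨.negSucc 737, .ofNat 563, .negSucc 3959,
  .ofNat 4135⟩, .q ⟨.negSucc 0, .ofNat 0, .ofNat 0, .ofNat 1⟩ ⟨.negSucc
  3650, .ofNat 3596, .ofNat 1751, .negSucc 1695⟩, .q ⟨.negSucc 0, .ofNat 0,
  .ofNat 0, .ofNat 1⟩ ⟨.ofNat 731, .negSucc 1136, .ofNat 3835, .negSucc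
  3428⟩],
[.q ⟨.negSucc 0, .ofNat 0, .ofNat 0, .ofNat 1⟩ ⟨.negSucc 2562, .ofNat 3164,
  .negSucc 2447, .ofNat 1847⟩, .q ⟨.negSucc 0, .ofNat 0, .ofNat 0, .ofNat 1⟩
  ⟨.negSucc 3364, .ofNat 3282, .ofNat 2287, .negSucc 2203⟩, .q ⟨.negSucc 0,
  .ofNat 0, .ofNat 0, .ofNat 1⟩ ⟨.ofNat 3431, .negSucc 3999, .ofNat 0,
  .ofNat 569⟩, .q ⟨.negSucc 0, .ofNat 0, .ofNat 0, .ofNat 1⟩ ⟨.ofNat 390,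
  .negSucc 282, .negSucc 1979, .ofNat 1873⟩],
[.q ⟨.negSucc 4, .negSucc 34, .ofNat 40, .ofNat 0⟩ ⟨.negSucc 74, .ofNat 35,
  .ofNat 40, .ofNat 0⟩, .q ⟨.ofNat 2, .ofNat 38, .negSucc 39, .ofNat 0⟩
  ⟨.negSucc 77, .ofNat 38, .ofNat 40, .ofNat 0⟩, .q ⟨.ofNat 75, .negSucc 34,
  .negSucc 39, .ofNat 0⟩ ⟨.ofNat 14199, .negSucc 10198, .ofNat 0, .negSucc
  3999⟩, .q ⟨.ofNat 78, .negSucc 37, .negSucc 39, .ofNat 0⟩ ⟨.ofNat 14199,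
  .negSucc 10198, .ofNat 0, .negSucc 3999⟩, .q ⟨.ofNat 75, .negSucc 34,
  .negSucc 39, .ofNat 0⟩ ⟨.negSucc 3594, .ofNat 747, .negSucc 1019, .ofNat
  3868⟩, .q ⟨.ofNat 78, .negSucc 37, .negSucc 39, .ofNat 0⟩ ⟨.negSucc 3594,
  .ofNat 747, .negSucc 1019, .ofNat 3868⟩, .q ⟨.ofNat 75, .negSucc 34,
  .negSucc 39, .ofNat 0⟩ ⟨.ofNat 4064, .ofNat 259, .negSucc 336, .negSucc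
  3985⟩, .q ⟨.ofNat 78, .negSucc 37, .negSucc 39, .ofNat 0⟩ ⟨.ofNat 4064,
  .ofNat 259, .negSucc 336, .negSucc 3985⟩],
[.q ⟨.negSucc 0, .ofNat 0, .ofNat 0, .ofNat 1⟩ ⟨.negSucc 644, .ofNat 642,
  .negSucc 1893, .ofNat 1897⟩, .q ⟨.negSucc 0, .ofNat 0, .ofNat 0, .ofNat 1⟩
  ⟨.negSucc 3213, .ofNat 3041, .ofNat 2599, .negSucc 2425⟩, .q ⟨.negSucc 0,
  .ofNat 0, .ofNat 0, .ofNat 1⟩ ⟨.ofNat 1450, .negSucc 1851, .ofNat 3545,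
  .negSucc 3142⟩, .q ⟨.negSucc 0, .ofNat 0, .ofNat 0, .ofNat 1⟩ ⟨.ofNat
  3538, .negSucc 3936, .ofNat 705, .negSucc 305⟩],
[.q ⟨.negSucc 1, .negSucc 2, .ofNat 5, .ofNat 0⟩ ⟨.negSucc 7, .ofNat 3,
  .ofNat 5, .ofNat 0⟩, .q ⟨.ofNat 1, .ofNat 4, .negSucc 4, .ofNat 0⟩
  ⟨.negSucc 8, .ofNat 4, .ofNat 5, .ofNat 0⟩, .q ⟨.ofNat 8, .negSucc 2,
  .negSucc 4, .ofNat 0⟩ ⟨.ofNat 2681, .ofNat 921, .ofNat 380, .negSucc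
  3981⟩, .q ⟨.ofNat 9, .negSucc 3, .negSucc 4, .ofNat 0⟩ ⟨.ofNat 2681,
  .ofNat 921, .ofNat 380, .negSucc 3981⟩, .q ⟨.ofNat 8, .negSucc 2, .negSucc
  4, .ofNat 0⟩ ⟨.negSucc 85, .negSucc 4590, .ofNat 748, .ofNat 3929⟩, .q
  ⟨.ofNat 9, .negSucc 3, .negSucc 4, .ofNat 0⟩ ⟨.negSucc 85, .negSucc 4590,
  .ofNat 748, .ofNat 3929⟩],
[.q ⟨.negSucc 0, .ofNat 1, .ofNat 0, .ofNat 0⟩ ⟨.negSucc 1458, .negSucc 460,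
  .ofNat 1920, .ofNat 0⟩, .q ⟨.negSucc 0, .ofNat 1, .ofNat 0, .ofNat 0⟩
  ⟨.ofNat 961, .ofNat 959, .negSucc 1919, .ofNat 0⟩, .l ⟨.ofNat 0, .ofNat 0,
  .negSucc 639, .ofNat 33⟩ ⟨.ofNat 0, .ofNat 0, .ofNat 0, .ofNat 1⟩, .l
  ⟨.ofNat 0, .ofNat 0, .ofNat 1920, .ofNat 1019⟩ ⟨.ofNat 0, .ofNat 0, .ofNat
  0, .ofNat 1⟩],
[.l ⟨.ofNat 0, .negSucc 3541, .ofNat 1859, .negSucc 1016⟩ ⟨.ofNat 0, .ofNat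
  0, .ofNat 0, .ofNat 1⟩, .l ⟨.ofNat 0, .ofNat 0, .negSucc 3999, .ofNat 319⟩
  ⟨.ofNat 0, .ofNat 0, .ofNat 0, .ofNat 1⟩, .l ⟨.ofNat 0, .ofNat 2631,
  .negSucc 3012, .ofNat 2435⟩ ⟨.ofNat 0, .ofNat 0, .ofNat 0, .ofNat 1⟩, .l
  ⟨.ofNat 0, .ofNat 2828, .ofNat 2828, .ofNat 2591⟩ ⟨.ofNat 0, .ofNat 0,
  .ofNat 0, .ofNat 1⟩],
[.q ⟨.ofNat 0, .negSucc 0, .negSucc 0, .ofNat 2⟩ ⟨.ofNat 4000, .negSucc 383,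
  .negSucc 4383, .ofNat 768⟩, .q ⟨.ofNat 0, .negSucc 0, .negSucc 0, .ofNat
  2⟩ ⟨.negSucc 999, .ofNat 909, .negSucc 90, .ofNat 182⟩, .q ⟨.ofNat 0,
  .negSucc 0, .negSucc 0, .ofNat 2⟩ ⟨.negSucc 3999, .negSucc 118, .ofNat
  3881, .ofNat 238⟩, .q ⟨.ofNat 0, .negSucc 0, .negSucc 0, .ofNat 2⟩ ⟨.ofNat
  5405, .negSucc 4111, .negSucc 2442, .ofNat 1150⟩],
[.l ⟨.ofNat 0, .ofNat 20, .ofNat 0, .negSucc 16⟩ ⟨.ofNat 0, .ofNat 20,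
  .ofNat 0, .ofNat 17⟩, .l ⟨.ofNat 0, .negSucc 19, .ofNat 0, .ofNat 19⟩
  ⟨.ofNat 0, .ofNat 20, .ofNat 0, .ofNat 19⟩, .l ⟨.ofNat 0, .ofNat 20,
  .ofNat 0, .negSucc 16⟩ ⟨.ofNat 0, .ofNat 0, .ofNat 200, .negSucc 416⟩, .l
  ⟨.ofNat 0, .ofNat 20, .ofNat 0, .negSucc 18⟩ ⟨.ofNat 0, .ofNat 0, .ofNat
  200, .negSucc 416⟩, .l ⟨.ofNat 0, .ofNat 20, .ofNat 0, .negSucc 16⟩
  ⟨.ofNat 0, .ofNat 5, .negSucc 1999, .negSucc 2121⟩, .l ⟨.ofNat 0, .ofNat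
  20, .ofNat 0, .negSucc 18⟩ ⟨.ofNat 0, .ofNat 5, .negSucc 1999, .negSucc
  2121⟩, .l ⟨.ofNat 0, .ofNat 20, .ofNat 0, .negSucc 16⟩ ⟨.ofNat 0, .ofNat
  1453, .ofNat 3727, .ofNat 4639⟩, .l ⟨.ofNat 0, .ofNat 20, .ofNat 0,
  .negSucc 18⟩ ⟨.ofNat 0, .ofNat 1453, .ofNat 3727, .ofNat 4639⟩],
[.l ⟨.ofNat 0, .ofNat 1557, .negSucc 1254, .ofNat 186⟩ ⟨.ofNat 0, .ofNat 0,
  .ofNat 0, .ofNat 1⟩, .l ⟨.ofNat 0, .ofNat 404, .ofNat 404, .ofNat 477⟩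
  ⟨.ofNat 0, .ofNat 0, .ofNat 0, .ofNat 1⟩, .l ⟨.ofNat 0, .negSucc 1085,
  .ofNat 3850, .ofNat 2573⟩ ⟨.ofNat 0, .ofNat 0, .ofNat 0, .ofNat 1⟩, .l
  ⟨.ofNat 0, .negSucc 3999, .ofNat 0, .negSucc 386⟩ ⟨.ofNat 0, .ofNat 0,
  .ofNat 0, .ofNat 1⟩, .l ⟨.ofNat 0, .ofNat 0, .negSucc 1999, .ofNat 53⟩
  ⟨.ofNat 0, .ofNat 0, .ofNat 0, .ofNat 1⟩],
[.l ⟨.ofNat 0, .ofNat 40, .ofNat 0, .negSucc 33⟩ ⟨.ofNat 0, .ofNat 40,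
  .ofNat 0, .ofNat 34⟩, .l ⟨.ofNat 0, .negSucc 39, .ofNat 0, .ofNat 37⟩
  ⟨.ofNat 0, .ofNat 40, .ofNat 0, .ofNat 37⟩, .l ⟨.ofNat 0, .ofNat 40,
  .ofNat 0, .negSucc 33⟩ ⟨.ofNat 0, .ofNat 177, .ofNat 1992, .ofNat 1201⟩,
  .l ⟨.ofNat 0, .ofNat 40, .ofNat 0, .negSucc 36⟩ ⟨.ofNat 0, .ofNat 177,
  .ofNat 1992, .ofNat 1201⟩, .l ⟨.ofNat 0, .ofNat 40, .ofNat 0, .negSucc 33⟩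
  ⟨.ofNat 0, .negSucc 176, .negSucc 1991, .negSucc 1812⟩, .l ⟨.ofNat 0,
  .ofNat 40, .ofNat 0, .negSucc 36⟩ ⟨.ofNat 0, .negSucc 176, .negSucc 1991,
  .negSucc 1812⟩],
[.q ⟨.negSucc 0, .ofNat 0, .ofNat 0, .ofNat 1⟩ ⟨.ofNat 1956, .negSucc 3460,
  .ofNat 2005, .negSucc 499⟩, .q ⟨.negSucc 0, .ofNat 0, .ofNat 0, .ofNat 1⟩
  ⟨.ofNat 1860, .negSucc 1852, .negSucc 3544, .ofNat 3538⟩, .q ⟨.negSucc 0,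
  .ofNat 0, .ofNat 0, .ofNat 1⟩ ⟨.negSucc 2234, .ofNat 2828, .negSucc 2827,
  .ofNat 2235⟩, .q ⟨.negSucc 0, .ofNat 0, .ofNat 0, .ofNat 1⟩ ⟨.negSucc
  1741, .ofNat 1333, .ofNat 3771, .negSucc 3361⟩],
[.q ⟨.negSucc 0, .ofNat 0, .ofNat 0, .ofNat 1⟩ ⟨.ofNat 3391, .negSucc 3790,
  .negSucc 1275, .ofNat 1676⟩, .q ⟨.negSucc 0, .ofNat 0, .ofNat 0, .ofNat 1⟩
  ⟨.ofNat 73, .ofNat 0, .negSucc 999, .ofNat 927⟩, .q ⟨.negSucc 0, .ofNat 0,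
  .ofNat 0, .ofNat 1⟩ ⟨.negSucc 2266, .ofNat 2828, .negSucc 2827, .ofNat
  2267⟩, .q ⟨.negSucc 0, .ofNat 0, .ofNat 0, .ofNat 1⟩ ⟨.negSucc 1368,
  .ofNat 1271, .ofNat 1544, .negSucc 1445⟩],
[.q ⟨.negSucc 9, .negSucc 9, .ofNat 20, .ofNat 0⟩ ⟨.negSucc 29, .ofNat 10,
  .ofNat 20, .ofNat 0⟩, .q ⟨.ofNat 7, .ofNat 13, .negSucc 19, .ofNat 0⟩
  ⟨.negSucc 32, .ofNat 13, .ofNat 20, .ofNat 0⟩, .q ⟨.ofNat 30, .negSucc 9,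
  .negSucc 19, .ofNat 0⟩ ⟨.ofNat 2705, .ofNat 2836, .negSucc 2201, .negSucc
  3338⟩, .q ⟨.ofNat 33, .negSucc 12, .negSucc 19, .ofNat 0⟩ ⟨.ofNat 2705,
  .ofNat 2836, .negSucc 2201, .negSucc 3338⟩, .q ⟨.ofNat 30, .negSucc 9,
  .negSucc 19, .ofNat 0⟩ ⟨.negSucc 1957, .negSucc 3296, .ofNat 1580, .ofNat
  3675⟩, .q ⟨.ofNat 33, .negSucc 12, .negSucc 19, .ofNat 0⟩ ⟨.negSucc 1957,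
  .negSucc 3296, .ofNat 1580, .ofNat 3675⟩],
[.l ⟨.ofNat 0, .ofNat 404, .negSucc 403, .negSucc 12⟩ ⟨.ofNat 0, .ofNat 0,
  .ofNat 0, .ofNat 1⟩, .l ⟨.ofNat 0, .ofNat 0, .ofNat 4000, .ofNat 2457⟩
  ⟨.ofNat 0, .ofNat 0, .ofNat 0, .ofNat 1⟩, .l ⟨.ofNat 0, .negSucc 3985,
  .ofNat 333, .ofNat 99⟩ ⟨.ofNat 0, .ofNat 0, .ofNat 0, .ofNat 1⟩, .l
  ⟨.ofNat 0, .ofNat 928, .negSucc 3890, .negSucc 244⟩ ⟨.ofNat 0, .ofNat 0,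
  .ofNat 0, .ofNat 1⟩],
[.q ⟨.negSucc 39, .negSucc 39, .ofNat 80, .ofNat 0⟩ ⟨.negSucc 119, .ofNat
  40, .ofNat 80, .ofNat 0⟩, .q ⟨.ofNat 37, .ofNat 43, .negSucc 79, .ofNat 0⟩
  ⟨.negSucc 122, .ofNat 43, .ofNat 80, .ofNat 0⟩, .q ⟨.ofNat 120, .negSucc
  39, .negSucc 79, .ofNat 0⟩ ⟨.ofNat 1975, .ofNat 1901, .ofNat 122, .negSucc
  3997⟩, .q ⟨.ofNat 123, .negSucc 42, .negSucc 79, .ofNat 0⟩ ⟨.ofNat 1975,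
  .ofNat 1901, .ofNat 122, .negSucc 3997⟩, .q ⟨.ofNat 120, .negSucc 39,
  .negSucc 79, .ofNat 0⟩ ⟨.negSucc 285, .negSucc 757, .negSucc 262, .ofNat
  1307⟩, .q ⟨.ofNat 123, .negSucc 42, .negSucc 79, .ofNat 0⟩ ⟨.negSucc 285,
  .negSucc 757, .negSucc 262, .ofNat 1307⟩, .q ⟨.ofNat 120, .negSucc 39,
  .negSucc 79, .ofNat 0⟩ ⟨.ofNat 2823, .ofNat 2829, .negSucc 2709, .negSucc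
  2941⟩, .q ⟨.ofNat 123, .negSucc 42, .negSucc 79, .ofNat 0⟩ ⟨.ofNat 2823,
  .ofNat 2829, .negSucc 2709, .negSucc 2941⟩],
[.q ⟨.negSucc 0, .ofNat 0, .ofNat 0, .ofNat 1⟩ ⟨.ofNat 351, .ofNat 16,
  .negSucc 3999, .ofNat 3633⟩, .q ⟨.negSucc 0, .ofNat 0, .ofNat 0, .ofNat 1⟩
  ⟨.negSucc 981, .ofNat 1145, .negSucc 682, .ofNat 520⟩, .q ⟨.negSucc 0,
  .ofNat 0, .ofNat 0, .ofNat 1⟩ ⟨.negSucc 737, .ofNat 707, .ofNat 707,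
  .negSucc 675⟩, .q ⟨.negSucc 0, .ofNat 0, .ofNat 0, .ofNat 1⟩ ⟨.ofNat 379,
  .negSucc 499, .ofNat 0, .ofNat 121⟩],
[.q ⟨.negSucc 2, .negSucc 16, .ofNat 20, .ofNat 0⟩ ⟨.negSucc 36, .ofNat 17,
  .ofNat 20, .ofNat 0⟩, .q ⟨.ofNat 1, .ofNat 19, .negSucc 19, .ofNat 0⟩
  ⟨.negSucc 38, .ofNat 19, .ofNat 20, .ofNat 0⟩, .q ⟨.ofNat 37, .negSucc 16,
  .negSucc 19, .ofNat 0⟩ ⟨.ofNat 1013, .negSucc 12, .ofNat 0, .negSucc 999⟩,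
  .q ⟨.ofNat 39, .negSucc 18, .negSucc 19, .ofNat 0⟩ ⟨.ofNat 1013, .negSucc
  12, .ofNat 0, .negSucc 999⟩, .q ⟨.ofNat 37, .negSucc 16, .negSucc 19,
  .ofNat 0⟩ ⟨.negSucc 3440, .ofNat 1068, .negSucc 1380, .ofNat 3754⟩, .q
  ⟨.ofNat 39, .negSucc 18, .negSucc 19, .ofNat 0⟩ ⟨.negSucc 3440, .ofNat
  1068, .negSucc 1380, .ofNat 3754⟩, .q ⟨.ofNat 37, .negSucc 16, .negSucc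
  19, .ofNat 0⟩ ⟨.ofNat 1922, .ofNat 3304, .negSucc 3694, .negSucc 1530⟩, .q
  ⟨.ofNat 39, .negSucc 18, .negSucc 19, .ofNat 0⟩ ⟨.ofNat 1922, .ofNat 3304,
  .negSucc 3694, .negSucc 1530⟩],
[.q ⟨.negSucc 0, .ofNat 1, .ofNat 0, .ofNat 0⟩ ⟨.negSucc 130, .negSucc 28,
  .ofNat 160, .ofNat 0⟩, .q ⟨.negSucc 0, .ofNat 1, .ofNat 0, .ofNat 0⟩
  ⟨.ofNat 961, .ofNat 959, .negSucc 1919, .ofNat 0⟩, .l ⟨.ofNat 0, .ofNat 0,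
  .negSucc 639, .ofNat 23⟩ ⟨.ofNat 0, .ofNat 0, .ofNat 0, .ofNat 1⟩, .l
  ⟨.ofNat 0, .ofNat 0, .ofNat 1920, .ofNat 463⟩ ⟨.ofNat 0, .ofNat 0, .ofNat
  0, .ofNat 1⟩],
[.q ⟨.negSucc 4, .negSucc 4, .ofNat 10, .ofNat 0⟩ ⟨.negSucc 14, .ofNat 5,
  .ofNat 10, .ofNat 0⟩, .q ⟨.ofNat 4, .ofNat 6, .negSucc 9, .ofNat 0⟩
  ⟨.negSucc 15, .ofNat 6, .ofNat 10, .ofNat 0⟩, .q ⟨.ofNat 15, .negSucc 4,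
  .negSucc 9, .ofNat 0⟩ ⟨.ofNat 2741, .ofNat 2752, .negSucc 2070, .negSucc
  3421⟩, .q ⟨.ofNat 16, .negSucc 5, .negSucc 9, .ofNat 0⟩ ⟨.ofNat 2741,
  .ofNat 2752, .negSucc 2070, .negSucc 3421⟩, .q ⟨.ofNat 15, .negSucc 4,
  .negSucc 9, .ofNat 0⟩ ⟨.negSucc 2123, .negSucc 3368, .ofNat 2071, .ofNat
  3422⟩, .q ⟨.ofNat 16, .negSucc 5, .negSucc 9, .ofNat 0⟩ ⟨.negSucc 2123,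
  .negSucc 3368, .ofNat 2071, .ofNat 3422⟩, .q ⟨.ofNat 15, .negSucc 4,
  .negSucc 9, .ofNat 0⟩ ⟨.ofNat 2296, .ofNat 2243, .negSucc 581, .negSucc
  3956⟩, .q ⟨.ofNat 16, .negSucc 5, .negSucc 9, .ofNat 0⟩ ⟨.ofNat 2296,
  .ofNat 2243, .negSucc 581, .negSucc 3956⟩],
[.q ⟨.ofNat 17, .negSucc 18, .negSucc 27, .ofNat 30⟩ ⟨.negSucc 2109, .ofNat
  1852, .ofNat 48, .ofNat 210⟩, .q ⟨.ofNat 17, .negSucc 18, .negSucc 27,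
  .ofNat 30⟩ ⟨.ofNat 119, .negSucc 536, .ofNat 208, .ofNat 210⟩, .q ⟨.ofNat
  17, .negSucc 18, .negSucc 27, .ofNat 30⟩ ⟨.ofNat 4778, .negSucc 1669,
  .negSucc 1577, .negSucc 1529⟩, .q ⟨.ofNat 17, .negSucc 18, .negSucc 27,
  .ofNat 30⟩ ⟨.ofNat 179, .ofNat 741, .negSucc 469, .negSucc 449⟩],
[.q ⟨.negSucc 8, .negSucc 10, .ofNat 20, .ofNat 0⟩ ⟨.negSucc 30, .ofNat 11,
  .ofNat 20, .ofNat 0⟩, .q ⟨.ofNat 6, .ofNat 14, .negSucc 19, .ofNat 0⟩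
  ⟨.negSucc 33, .ofNat 14, .ofNat 20, .ofNat 0⟩, .q ⟨.ofNat 31, .negSucc 10,
  .negSucc 19, .ofNat 0⟩ ⟨.ofNat 13541, .negSucc 9540, .ofNat 0, .negSucc
  3999⟩, .q ⟨.ofNat 34, .negSucc 13, .negSucc 19, .ofNat 0⟩ ⟨.ofNat 13541,
  .negSucc 9540, .ofNat 0, .negSucc 3999⟩, .q ⟨.ofNat 31, .negSucc 10,
  .negSucc 19, .ofNat 0⟩ ⟨.ofNat 0, .negSucc 4302, .ofNat 315, .ofNat 3988⟩,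
  .q ⟨.ofNat 34, .negSucc 13, .negSucc 19, .ofNat 0⟩ ⟨.ofNat 0, .negSucc
  4302, .ofNat 315, .ofNat 3988⟩, .q ⟨.ofNat 31, .negSucc 10, .negSucc 19,
  .ofNat 0⟩ ⟨.ofNat 904, .ofNat 962, .negSucc 796, .negSucc 1068⟩, .q
  ⟨.ofNat 34, .negSucc 13, .negSucc 19, .ofNat 0⟩ ⟨.ofNat 904, .ofNat 962,
  .negSucc 796, .negSucc 1068⟩],
[.q ⟨.negSucc 10, .negSucc 8, .ofNat 20, .ofNat 0⟩ ⟨.negSucc 28, .ofNat 9,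
  .ofNat 20, .ofNat 0⟩, .q ⟨.ofNat 9, .ofNat 11, .negSucc 19, .ofNat 0⟩
  ⟨.negSucc 30, .ofNat 11, .ofNat 20, .ofNat 0⟩, .q ⟨.ofNat 29, .negSucc 8,
  .negSucc 19, .ofNat 0⟩ ⟨.ofNat 229, .ofNat 199, .ofNat 2606, .negSucc
  3033⟩, .q ⟨.ofNat 31, .negSucc 10, .negSucc 19, .ofNat 0⟩ ⟨.ofNat 229,
  .ofNat 199, .ofNat 2606, .negSucc 3033⟩, .q ⟨.ofNat 29, .negSucc 8,
  .negSucc 19, .ofNat 0⟩ ⟨.negSucc 5, .negSucc 207, .negSucc 1302, .ofNat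
  1517⟩, .q ⟨.ofNat 31, .negSucc 10, .negSucc 19, .ofNat 0⟩ ⟨.negSucc 5,
  .negSucc 207, .negSucc 1302, .ofNat 1517⟩, .q ⟨.ofNat 29, .negSucc 8,
  .negSucc 19, .ofNat 0⟩ ⟨.ofNat 2591, .ofNat 2595, .negSucc 3722, .negSucc
  1462⟩, .q ⟨.ofNat 31, .negSucc 10, .negSucc 19, .ofNat 0⟩ ⟨.ofNat 2591,
  .ofNat 2595, .negSucc 3722, .negSucc 1462⟩],
[.q ⟨.negSucc 19, .negSucc 19, .ofNat 40, .ofNat 0⟩ ⟨.negSucc 59, .ofNat 20,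
  .ofNat 40, .ofNat 0⟩, .q ⟨.ofNat 17, .ofNat 23, .negSucc 39, .ofNat 0⟩
  ⟨.negSucc 62, .ofNat 23, .ofNat 40, .ofNat 0⟩, .q ⟨.ofNat 60, .negSucc 19,
  .negSucc 39, .ofNat 0⟩ ⟨.ofNat 51, .ofNat 49, .ofNat 0, .negSucc 99⟩, .q
  ⟨.ofNat 63, .negSucc 22, .negSucc 39, .ofNat 0⟩ ⟨.ofNat 51, .ofNat 49,
  .ofNat 0, .negSucc 99⟩, .q ⟨.ofNat 60, .negSucc 19, .negSucc 39, .ofNat 0⟩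
  ⟨.negSucc 126, .negSucc 272, .ofNat 0, .ofNat 400⟩, .q ⟨.ofNat 63,
  .negSucc 22, .negSucc 39, .ofNat 0⟩ ⟨.negSucc 126, .negSucc 272, .ofNat 0,
  .ofNat 400⟩, .q ⟨.ofNat 60, .negSucc 19, .negSucc 39, .ofNat 0⟩ ⟨.ofNat
  2583, .ofNat 2564, .negSucc 1400, .negSucc 3745⟩, .q ⟨.ofNat 63, .negSucc
  22, .negSucc 39, .ofNat 0⟩ ⟨.ofNat 2583, .ofNat 2564, .negSucc 1400,
  .negSucc 3745⟩],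
[.q ⟨.ofNat 17, .negSucc 18, .negSucc 27, .ofNat 30⟩ ⟨.ofNat 577, .ofNat
  3047, .negSucc 1853, .negSucc 1769⟩, .q ⟨.ofNat 17, .negSucc 18, .negSucc
  27, .ofNat 30⟩ ⟨.negSucc 3026, .negSucc 1107, .ofNat 2005, .ofNat 2130⟩,
  .q ⟨.ofNat 17, .negSucc 18, .negSucc 27, .ofNat 30⟩ ⟨.ofNat 2054, .negSucc
  4164, .ofNat 971, .ofNat 1140⟩, .q ⟨.ofNat 17, .negSucc 18, .negSucc 27,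
  .ofNat 30⟩ ⟨.ofNat 4869, .negSucc 2077, .negSucc 1410, .negSucc 1379⟩],
[.q ⟨.ofNat 17, .negSucc 18, .negSucc 27, .ofNat 30⟩ ⟨.negSucc 4786, .ofNat
  2407, .ofNat 1000, .ofNat 1380⟩, .q ⟨.ofNat 17, .negSucc 18, .negSucc 27,
  .ofNat 30⟩ ⟨.negSucc 1156, .negSucc 2702, .ofNat 1880, .ofNat 1980⟩, .q
  ⟨.ofNat 17, .negSucc 18, .negSucc 27, .ofNat 30⟩ ⟨.ofNat 4691, .negSucc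
  1413, .negSucc 1656, .negSucc 1619⟩, .q ⟨.ofNat 17, .negSucc 18, .negSucc
  27, .ofNat 30⟩ ⟨.ofNat 438, .ofNat 3127, .negSucc 1824, .negSucc 1739⟩],
[.q ⟨.ofNat 17, .negSucc 18, .negSucc 27, .ofNat 30⟩ ⟨.negSucc 2702,
  .negSucc 1437, .ofNat 2011, .ofNat 2130⟩, .q ⟨.ofNat 17, .negSucc 18,
  .negSucc 27, .ofNat 30⟩ ⟨.ofNat 4792, .negSucc 3132, .negSucc 818,
  .negSucc 839⟩, .q ⟨.ofNat 17, .negSucc 18, .negSucc 27, .ofNat 30⟩ ⟨.ofNat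
  222, .ofNat 1562, .negSucc 913, .negSucc 869⟩],
[.l ⟨.ofNat 0, .ofNat 248, .negSucc 3991, .negSucc 422⟩ ⟨.ofNat 0, .ofNat 0,
  .ofNat 0, .ofNat 1⟩, .l ⟨.ofNat 0, .ofNat 3914, .negSucc 822, .ofNat 63⟩
  ⟨.ofNat 0, .ofNat 0, .ofNat 0, .ofNat 1⟩, .l ⟨.ofNat 0, .negSucc 582,
  .ofNat 3957, .ofNat 3298⟩ ⟨.ofNat 0, .ofNat 0, .ofNat 0, .ofNat 1⟩, .l
  ⟨.ofNat 0, .negSucc 3993, .ofNat 224, .ofNat 141⟩ ⟨.ofNat 0, .ofNat 0,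
  .ofNat 0, .ofNat 1⟩, .l ⟨.ofNat 0, .negSucc 3381, .negSucc 2134, .negSucc
  134⟩ ⟨.ofNat 0, .ofNat 0, .ofNat 0, .ofNat 1⟩],
[.q ⟨.ofNat 17, .negSucc 18, .negSucc 27, .ofNat 30⟩ ⟨.negSucc 3272,
  .negSucc 835, .ofNat 2009, .ofNat 2100⟩, .q ⟨.ofNat 17, .negSucc 18,
  .negSucc 27, .ofNat 30⟩ ⟨.ofNat 689, .negSucc 270, .negSucc 207, .negSucc
  209⟩, .q ⟨.ofNat 17, .negSucc 18, .negSucc 27, .ofNat 30⟩ ⟨.ofNat 571,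
  .ofNat 3051, .negSucc 1851, .negSucc 1769⟩],
[.q ⟨.negSucc 0, .ofNat 0, .ofNat 0, .ofNat 1⟩ ⟨.ofNat 850, .negSucc 648,
  .negSucc 3946, .ofNat 3746⟩, .q ⟨.negSucc 0, .ofNat 0, .ofNat 0, .ofNat 1⟩
  ⟨.negSucc 1007, .ofNat 1311, .negSucc 1509, .ofNat 1207⟩, .q ⟨.negSucc 0,
  .ofNat 0, .ofNat 0, .ofNat 1⟩ ⟨.negSucc 3526, .ofNat 3541, .ofNat 1860,
  .negSucc 1873⟩, .q ⟨.negSucc 0, .ofNat 0, .ofNat 0, .ofNat 1⟩ ⟨.ofNat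
  2040, .negSucc 3389, .ofNat 2123, .negSucc 772⟩, .q ⟨.negSucc 0, .ofNat 0,
  .ofNat 0, .ofNat 1⟩ ⟨.ofNat 375, .negSucc 403, .negSucc 403, .ofNat 433⟩],
[.q ⟨.negSucc 0, .ofNat 0, .ofNat 0, .ofNat 1⟩ ⟨.ofNat 1261, .negSucc 1097,
  .negSucc 3845, .ofNat 3683⟩, .q ⟨.negSucc 0, .ofNat 0, .ofNat 0, .ofNat 1⟩
  ⟨.negSucc 1152, .ofNat 1414, .negSucc 1413, .ofNat 1153⟩, .q ⟨.negSucc 0,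
  .ofNat 0, .ofNat 0, .ofNat 1⟩ ⟨.negSucc 3653, .ofNat 3791, .ofNat 1275,
  .negSucc 1411⟩, .q ⟨.negSucc 0, .ofNat 0, .ofNat 0, .ofNat 1⟩ ⟨.ofNat
  1341, .negSucc 2827, .ofNat 2828, .negSucc 1340⟩],
[.q ⟨.negSucc 0, .ofNat 0, .ofNat 0, .ofNat 1⟩ ⟨.ofNat 2603, .negSucc 2827,
  .negSucc 2827, .ofNat 3053⟩, .q ⟨.negSucc 0, .ofNat 0, .ofNat 0, .ofNat 1⟩
  ⟨.ofNat 1085, .negSucc 902, .negSucc 3896, .ofNat 3715⟩, .q ⟨.negSucc 0,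
  .ofNat 0, .ofNat 0, .ofNat 1⟩ ⟨.negSucc 3536, .ofNat 3957, .ofNat 586,
  .negSucc 1005⟩, .q ⟨.negSucc 0, .ofNat 0, .ofNat 0, .ofNat 1⟩ ⟨.ofNat
  2739, .negSucc 3505, .ofNat 1926, .negSucc 1158⟩],
[.q ⟨.negSucc 0, .ofNat 1, .ofNat 0, .ofNat 0⟩ ⟨.negSucc 1822, .negSucc 96,
  .ofNat 1920, .ofNat 0⟩, .q ⟨.negSucc 0, .ofNat 1, .ofNat 0, .ofNat 0⟩
  ⟨.ofNat 1781, .ofNat 139, .negSucc 1919, .ofNat 0⟩, .l ⟨.ofNat 0, .ofNat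
  0, .negSucc 1919, .ofNat 19⟩ ⟨.ofNat 0, .ofNat 0, .ofNat 0, .ofNat 1⟩, .l
  ⟨.ofNat 0, .ofNat 0, .ofNat 192, .ofNat 11⟩ ⟨.ofNat 0, .ofNat 0, .ofNat 0,
  .ofNat 1⟩],
[.l ⟨.ofNat 0, .negSucc 3999, .ofNat 0, .ofNat 127⟩ ⟨.ofNat 0, .ofNat 0,
  .ofNat 0, .ofNat 1⟩, .l ⟨.ofNat 0, .ofNat 2039, .negSucc 3440, .ofNat
  8107⟩ ⟨.ofNat 0, .ofNat 0, .ofNat 0, .ofNat 1⟩, .l ⟨.ofNat 0, .ofNat 3965,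
  .negSucc 527, .negSucc 366⟩ ⟨.ofNat 0, .ofNat 0, .ofNat 0, .ofNat 1⟩, .l
  ⟨.ofNat 0, .negSucc 1413, .ofNat 1414, .ofNat 1325⟩ ⟨.ofNat 0, .ofNat 0,
  .ofNat 0, .ofNat 1⟩],
[.l ⟨.ofNat 0, .negSucc 1778, .ofNat 3583, .negSucc 4⟩ ⟨.ofNat 0, .ofNat 0,
  .ofNat 0, .ofNat 1⟩, .l ⟨.ofNat 0, .negSucc 894, .negSucc 3898, .ofNat 6⟩
  ⟨.ofNat 0, .ofNat 0, .ofNat 0, .ofNat 1⟩, .l ⟨.ofNat 0, .ofNat 2132,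
  .negSucc 3384, .ofNat 292⟩ ⟨.ofNat 0, .ofNat 0, .ofNat 0, .ofNat 1⟩, .l
  ⟨.ofNat 0, .ofNat 1903, .ofNat 615, .ofNat 5806⟩ ⟨.ofNat 0, .ofNat 0,
  .ofNat 0, .ofNat 1⟩],
[.l ⟨.ofNat 0, .negSucc 3115, .ofNat 2509, .negSucc 105⟩ ⟨.ofNat 0, .ofNat
  0, .ofNat 0, .ofNat 1⟩, .l ⟨.ofNat 0, .negSucc 2827, .negSucc 2827,
  .negSucc 52⟩ ⟨.ofNat 0, .ofNat 0, .ofNat 0, .ofNat 1⟩, .l ⟨.ofNat 0,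
  .negSucc 89, .negSucc 3998, .ofNat 61⟩ ⟨.ofNat 0, .ofNat 0, .ofNat 0,
  .ofNat 1⟩, .l ⟨.ofNat 0, .ofNat 707, .ofNat 707, .ofNat 65⟩ ⟨.ofNat 0,
  .ofNat 0, .ofNat 0, .ofNat 1⟩],
[.q ⟨.negSucc 8, .negSucc 70, .ofNat 80, .ofNat 0⟩ ⟨.negSucc 150, .ofNat 71,
  .ofNat 80, .ofNat 0⟩, .q ⟨.ofNat 6, .ofNat 74, .negSucc 79, .ofNat 0⟩
  ⟨.negSucc 153, .ofNat 74, .ofNat 80, .ofNat 0⟩, .q ⟨.ofNat 151, .negSucc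
  70, .negSucc 79, .ofNat 0⟩ ⟨.ofNat 4067, .ofNat 205, .negSucc 281,
  .negSucc 3989⟩, .q ⟨.ofNat 154, .negSucc 73, .negSucc 79, .ofNat 0⟩
  ⟨.ofNat 4067, .ofNat 205, .negSucc 281, .negSucc 3989⟩, .q ⟨.ofNat 151,
  .negSucc 70, .negSucc 79, .ofNat 0⟩ ⟨.negSucc 1917, .negSucc 217, .ofNat
  141, .ofNat 1995⟩, .q ⟨.ofNat 154, .negSucc 73, .negSucc 79, .ofNat 0⟩
  ⟨.negSucc 1917, .negSucc 217, .ofNat 141, .ofNat 1995⟩],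
[.l ⟨.ofNat 0, .ofNat 0, .ofNat 1000, .ofNat 31⟩ ⟨.ofNat 0, .ofNat 0, .ofNat
  0, .ofNat 1⟩, .l ⟨.ofNat 0, .negSucc 1149, .ofNat 675, .ofNat 23⟩ ⟨.ofNat
  0, .ofNat 0, .ofNat 0, .ofNat 1⟩, .l ⟨.ofNat 0, .negSucc 709, .negSucc
  3936, .ofNat 35⟩ ⟨.ofNat 0, .ofNat 0, .ofNat 0, .ofNat 1⟩, .l ⟨.ofNat 0,
  .ofNat 2828, .negSucc 2827, .ofNat 257⟩ ⟨.ofNat 0, .ofNat 0, .ofNat 0,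
  .ofNat 1⟩],
[.q ⟨.ofNat 17, .negSucc 18, .negSucc 27, .ofNat 30⟩ ⟨.ofNat 2085, .negSucc
  4163, .ofNat 969, .ofNat 1110⟩, .q ⟨.ofNat 17, .negSucc 18, .negSucc 27,
  .ofNat 30⟩ ⟨.ofNat 1210, .negSucc 478, .negSucc 370, .negSucc 359⟩, .q
  ⟨.ofNat 17, .negSucc 18, .negSucc 27, .ofNat 30⟩ ⟨.ofNat 423, .ofNat 3137,
  .negSucc 1819, .negSucc 1739⟩, .q ⟨.ofNat 17, .negSucc 18, .negSucc 27,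
  .ofNat 30⟩ ⟨.negSucc 4830, .ofNat 2193, .ofNat 1228, .ofNat 1410⟩],
[.l ⟨.ofNat 0, .negSucc 1999, .ofNat 5, .negSucc 208⟩ ⟨.ofNat 0, .ofNat 0,
  .ofNat 0, .ofNat 1⟩, .l ⟨.ofNat 0, .negSucc 388, .negSucc 3980, .ofNat 68⟩
  ⟨.ofNat 0, .ofNat 0, .ofNat 0, .ofNat 1⟩, .l ⟨.ofNat 0, .ofNat 1164,
  .ofNat 3827, .ofNat 560⟩ ⟨.ofNat 0, .ofNat 0, .ofNat 0, .ofNat 1⟩],
[.l ⟨.ofNat 0, .negSucc 3267, .negSucc 2305, .negSucc 32⟩ ⟨.ofNat 0, .ofNat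
  0, .ofNat 0, .ofNat 1⟩, .l ⟨.ofNat 0, .ofNat 3938, .negSucc 698, .ofNat
  80⟩ ⟨.ofNat 0, .ofNat 0, .ofNat 0, .ofNat 1⟩, .l ⟨.ofNat 0, .ofNat 1552,
  .ofNat 3687, .ofNat 3484⟩ ⟨.ofNat 0, .ofNat 0, .ofNat 0, .ofNat 1⟩, .l
  ⟨.ofNat 0, .negSucc 793, .ofNat 98, .ofNat 17⟩ ⟨.ofNat 0, .ofNat 0, .ofNat
  0, .ofNat 1⟩],
[.l ⟨.ofNat 0, .ofNat 3589, .ofNat 1766, .ofNat 1564⟩ ⟨.ofNat 0, .ofNat 0,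
  .ofNat 0, .ofNat 1⟩, .l ⟨.ofNat 0, .negSucc 3999, .ofNat 0, .ofNat 67⟩
  ⟨.ofNat 0, .ofNat 0, .ofNat 0, .ofNat 1⟩, .l ⟨.ofNat 0, .negSucc 3482,
  .negSucc 1966, .negSucc 16⟩ ⟨.ofNat 0, .ofNat 0, .ofNat 0, .ofNat 1⟩, .l
  ⟨.ofNat 0, .ofNat 1414, .negSucc 1413, .negSucc 50⟩ ⟨.ofNat 0, .ofNat 0,
  .ofNat 0, .ofNat 1⟩],
[.l ⟨.ofNat 0, .ofNat 2828, .negSucc 2827, .ofNat 89⟩ ⟨.ofNat 0, .ofNat 0,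
  .ofNat 0, .ofNat 1⟩, .l ⟨.ofNat 0, .ofNat 1414, .ofNat 1414, .ofNat 97⟩
  ⟨.ofNat 0, .ofNat 0, .ofNat 0, .ofNat 1⟩, .l ⟨.ofNat 0, .negSucc 124,
  .ofNat 0, .ofNat 2⟩ ⟨.ofNat 0, .ofNat 0, .ofNat 0, .ofNat 1⟩, .l ⟨.ofNat
  0, .negSucc 3706, .negSucc 1502, .ofNat 6⟩ ⟨.ofNat 0, .ofNat 0, .ofNat 0,
  .ofNat 1⟩],
[.q ⟨.negSucc 0, .ofNat 0, .ofNat 0, .ofNat 1⟩ ⟨.ofNat 183, .negSucc 249,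
  .ofNat 0, .ofNat 67⟩, .q ⟨.negSucc 0, .ofNat 0, .ofNat 0, .ofNat 1⟩
  ⟨.ofNat 1849, .negSucc 1833, .negSucc 3554, .ofNat 3540⟩, .q ⟨.negSucc 0,
  .ofNat 0, .ofNat 0, .ofNat 1⟩ ⟨.negSucc 204, .ofNat 570, .negSucc 3958,
  .ofNat 3594⟩, .q ⟨.negSucc 0, .ofNat 0, .ofNat 0, .ofNat 1⟩ ⟨.negSucc
  3368, .ofNat 3890, .negSucc 930, .ofNat 410⟩, .q ⟨.negSucc 0, .ofNat 0,
  .ofNat 0, .ofNat 1⟩ ⟨.negSucc 1040, .ofNat 0, .ofNat 4000, .negSucc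
  2958⟩],
[.l ⟨.ofNat 0, .ofNat 40, .ofNat 0, .negSucc 32⟩ ⟨.ofNat 0, .ofNat 40,
  .ofNat 0, .ofNat 33⟩, .l ⟨.ofNat 0, .negSucc 39, .ofNat 0, .ofNat 37⟩
  ⟨.ofNat 0, .ofNat 40, .ofNat 0, .ofNat 37⟩, .l ⟨.ofNat 0, .ofNat 40,
  .ofNat 0, .negSucc 32⟩ ⟨.ofNat 0, .ofNat 0, .ofNat 4000, .ofNat 2573⟩, .l
  ⟨.ofNat 0, .ofNat 40, .ofNat 0, .negSucc 36⟩ ⟨.ofNat 0, .ofNat 0, .ofNat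
  4000, .ofNat 2573⟩, .l ⟨.ofNat 0, .ofNat 40, .ofNat 0, .negSucc 32⟩
  ⟨.ofNat 0, .ofNat 0, .negSucc 999, .negSucc 830⟩, .l ⟨.ofNat 0, .ofNat 40,
  .ofNat 0, .negSucc 36⟩ ⟨.ofNat 0, .ofNat 0, .negSucc 999, .negSucc 830⟩],
[.q ⟨.negSucc 0, .ofNat 0, .ofNat 0, .ofNat 1⟩ ⟨.ofNat 3375, .negSucc 3419,
  .negSucc 2073, .ofNat 2119⟩, .q ⟨.negSucc 0, .ofNat 0, .ofNat 0, .ofNat 1⟩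
  ⟨.negSucc 4029, .ofNat 3922, .negSucc 786, .ofNat 895⟩, .q ⟨.negSucc 0,
  .ofNat 0, .ofNat 0, .ofNat 1⟩ ⟨.negSucc 452, .ofNat 98, .ofNat 3999,
  .negSucc 3643⟩, .q ⟨.negSucc 0, .ofNat 0, .ofNat 0, .ofNat 1⟩ ⟨.ofNat
  2583, .negSucc 3011, .ofNat 2632, .negSucc 2202⟩],
[.q ⟨.negSucc 0, .ofNat 0, .ofNat 0, .ofNat 1⟩ ⟨.ofNat 3372, .negSucc 3788,
  .ofNat 1283, .negSucc 865⟩, .q ⟨.negSucc 0, .ofNat 0, .ofNat 0, .ofNat 1⟩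
  ⟨.ofNat 2813, .negSucc 3176, .negSucc 2430, .ofNat 2795⟩, .q ⟨.negSucc 0,
  .ofNat 0, .ofNat 0, .ofNat 1⟩ ⟨.negSucc 1372, .ofNat 1414, .negSucc 1413,
  .ofNat 1373⟩, .q ⟨.negSucc 0, .ofNat 0, .ofNat 0, .ofNat 1⟩ ⟨.negSucc
  1458, .ofNat 1235, .ofNat 3805, .negSucc 3580⟩],
[.l ⟨.ofNat 0, .ofNat 40, .ofNat 0, .negSucc 35⟩ ⟨.ofNat 0, .ofNat 40,
  .ofNat 0, .ofNat 36⟩, .l ⟨.ofNat 0, .negSucc 39, .ofNat 0, .ofNat 39⟩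
  ⟨.ofNat 0, .ofNat 40, .ofNat 0, .ofNat 39⟩, .l ⟨.ofNat 0, .ofNat 40,
  .ofNat 0, .negSucc 35⟩ ⟨.ofNat 0, .ofNat 375, .ofNat 3982, .ofNat 2282⟩,
  .l ⟨.ofNat 0, .ofNat 40, .ofNat 0, .negSucc 38⟩ ⟨.ofNat 0, .ofNat 375,
  .ofNat 3982, .ofNat 2282⟩, .l ⟨.ofNat 0, .ofNat 40, .ofNat 0, .negSucc 35⟩
  ⟨.ofNat 0, .negSucc 638, .negSucc 3948, .negSucc 3879⟩, .l ⟨.ofNat 0,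
  .ofNat 40, .ofNat 0, .negSucc 38⟩ ⟨.ofNat 0, .negSucc 638, .negSucc 3948,
  .negSucc 3879⟩, .l ⟨.ofNat 0, .ofNat 40, .ofNat 0, .negSucc 35⟩ ⟨.ofNat 0,
  .ofNat 2611, .ofNat 3030, .ofNat 3945⟩, .l ⟨.ofNat 0, .ofNat 40, .ofNat 0,
  .negSucc 38⟩ ⟨.ofNat 0, .ofNat 2611, .ofNat 3030, .ofNat 3945⟩],
[.l ⟨.ofNat 0, .ofNat 3223, .ofNat 2369, .ofNat 3182⟩ ⟨.ofNat 0, .ofNat 0,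
  .ofNat 0, .ofNat 1⟩, .l ⟨.ofNat 0, .negSucc 1302, .ofNat 3782, .ofNat 466⟩
  ⟨.ofNat 0, .ofNat 0, .ofNat 0, .ofNat 1⟩, .l ⟨.ofNat 0, .negSucc 3861,
  .negSucc 1039, .negSucc 2⟩ ⟨.ofNat 0, .ofNat 0, .ofNat 0, .ofNat 1⟩, .l
  ⟨.ofNat 0, .negSucc 16, .negSucc 3999, .negSucc 416⟩ ⟨.ofNat 0, .ofNat 0,
  .ofNat 0, .ofNat 1⟩],
[.q ⟨.negSucc 0, .ofNat 0, .ofNat 0, .ofNat 1⟩ ⟨.ofNat 890, .negSucc 611,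
  .negSucc 3952, .ofNat 3675⟩, .q ⟨.negSucc 0, .ofNat 0, .ofNat 0, .ofNat 1⟩
  ⟨.negSucc 3219, .ofNat 3672, .negSucc 1586, .ofNat 1135⟩, .q ⟨.negSucc 0,
  .ofNat 0, .ofNat 0, .ofNat 1⟩ ⟨.negSucc 420, .ofNat 404, .ofNat 404,
  .negSucc 386⟩, .q ⟨.negSucc 0, .ofNat 0, .ofNat 0, .ofNat 1⟩ ⟨.ofNat 379,
  .negSucc 499, .ofNat 0, .ofNat 121⟩],
[.q ⟨.negSucc 0, .ofNat 1, .ofNat 0, .ofNat 0⟩ ⟨.negSucc 120, .negSucc 6,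
  .ofNat 128, .ofNat 0⟩, .q ⟨.negSucc 0, .ofNat 1, .ofNat 0, .ofNat 0⟩
  ⟨.ofNat 1781, .ofNat 139, .negSucc 1919, .ofNat 0⟩, .l ⟨.ofNat 0, .ofNat
  0, .negSucc 1919, .ofNat 19⟩ ⟨.ofNat 0, .ofNat 0, .ofNat 0, .ofNat 1⟩, .l
  ⟨.ofNat 0, .ofNat 0, .ofNat 320, .ofNat 19⟩ ⟨.ofNat 0, .ofNat 0, .ofNat 0,
  .ofNat 1⟩],
[.q ⟨.ofNat 17, .negSucc 18, .negSucc 27, .ofNat 30⟩ ⟨.negSucc 211, .negSucc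
  3292, .ofNat 1675, .ofNat 1830⟩, .q ⟨.ofNat 17, .negSucc 18, .negSucc 27,
  .ofNat 30⟩ ⟨.ofNat 4909, .negSucc 2323, .negSucc 1324, .negSucc 1259⟩, .q
  ⟨.ofNat 17, .negSucc 18, .negSucc 27, .ofNat 30⟩ ⟨.ofNat 572, .ofNat 3050,
  .negSucc 1851, .negSucc 1769⟩, .q ⟨.ofNat 17, .negSucc 18, .negSucc 27,
  .ofNat 30⟩ ⟨.negSucc 4793, .ofNat 2329, .ofNat 1055, .ofNat 1410⟩],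
[.q ⟨.negSucc 6, .negSucc 32, .ofNat 40, .ofNat 0⟩ ⟨.negSucc 72, .ofNat 33,
  .ofNat 40, .ofNat 0⟩, .q ⟨.ofNat 4, .ofNat 36, .negSucc 39, .ofNat 0⟩
  ⟨.negSucc 75, .ofNat 36, .ofNat 40, .ofNat 0⟩, .q ⟨.ofNat 73, .negSucc 32,
  .negSucc 39, .ofNat 0⟩ ⟨.ofNat 4066, .ofNat 475, .negSucc 583, .negSucc
  3956⟩, .q ⟨.ofNat 76, .negSucc 35, .negSucc 39, .ofNat 0⟩ ⟨.ofNat 4066,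
  .ofNat 475, .negSucc 583, .negSucc 3956⟩, .q ⟨.ofNat 73, .negSucc 32,
  .negSucc 39, .ofNat 0⟩ ⟨.negSucc 1745, .ofNat 563, .negSucc 692, .ofNat
  1876⟩, .q ⟨.ofNat 76, .negSucc 35, .negSucc 39, .ofNat 0⟩ ⟨.negSucc 1745,
  .ofNat 563, .negSucc 692, .ofNat 1876⟩],
[.q ⟨.negSucc 0, .ofNat 1, .ofNat 0, .ofNat 0⟩ ⟨.negSucc 1668, .negSucc 250,
  .ofNat 1920, .ofNat 0⟩, .q ⟨.negSucc 0, .ofNat 1, .ofNat 0, .ofNat 0⟩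
  ⟨.ofNat 961, .ofNat 959, .negSucc 1919, .ofNat 0⟩, .l ⟨.ofNat 0, .ofNat 0,
  .negSucc 639, .ofNat 19⟩ ⟨.ofNat 0, .ofNat 0, .ofNat 0, .ofNat 1⟩, .l
  ⟨.ofNat 0, .ofNat 0, .ofNat 40, .ofNat 3⟩ ⟨.ofNat 0, .ofNat 0, .ofNat 0,
  .ofNat 1⟩]]

theorem ESTab_B : tabB ESTab = true := by decide +kernel

end Pool.Agent.TET.Cvr
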