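import Pool.Agent.Helper37_TET.CovP6

/-!
# MP_c7c9bf_co: the cover checker in the flag chart (chart S)

`L = k n nᵀ + al m mᵀ + rho e eᵀ`, `m = d + tau e` (`c = 0`; `d, e` exchanged for `c = 1`).
-/

set_option autoImplicit false

namespace Pool.Agent.TET.Cvr

noncomputable section

/-- an end of the interval of `tau = T / V` -/
structure Te where
  T : ℤ
  V : ℕ

/-- a generator -/
structure G3 where
  k : ℕ
  al : ℕ
  rho : ℕ

/-- a cell -/
structure SF where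
  p0 : Pt
  p1 : Pt
  p2 : Pt
  t0 : Te
  t1 : Te
  u0 : G3
  u1 : G3
  u2 : G3

inductive TrF where
  | B (r p q : ℕ) (s t : TrF)
  | T (p q : ℕ) (s t : TrF)
  | C (i j p q : ℕ) (s t : TrF)
  | L (R s0 s1 s2 s3 : ℕ)
  | O (t : ℕ)

/-- `2 ^ (256 k)` -/
def tf (k : ℕ) : ℕ := Nat.pow 2 (Nat.mul 256 k)

/-- base, exponents `0, 1, 3` -/
def p3 (a b c : ℤ) : ℤ :=
  Int.add a (Int.add (Int.mul b (Int.ofNat (tf 1))) (Int.mul c (Int.ofNat (tf 3))))

def pvF (x y z : V4) : V4 := ⟨p3 x.a y.a z.a, p3 x.b y.b z.b, p3 x.c y.c z.c, p3 x.d y.d z.d⟩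

/-- interval, exponents `0, 7` -/
def pT (a b : ℤ) : ℤ := Int.add a (Int.mul b (Int.ofNat (tf 7)))

/-- generators, exponents `0, 21, 63` -/
def pG (a b c : ℤ) : ℤ :=
  Int.add a (Int.add (Int.mul b (Int.ofNat (tf 21))) (Int.mul c (Int.ofNat (tf 63))))

/-- the sum of `2 ^ (256 j + 255)`, `j < 147` -/
def OFFF : ℕ := Nat.div (Nat.mul (Nat.pow 2 255) (Nat.sub (Nat.pow 2 37632) 1)) (Nat.sub (Nat.pow 2 256) 1)

def tstF (F : ℤ) : Bool := Nat.beq (Nat.land (Int.toNat (Int.add F (Int.ofNat OFFF))) OFFF) OFFF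

/-- `V c - T a` -/
def yz (V T c a : ℤ) : ℤ := Int.sub (Int.mul V c) (Int.mul T a)

/-- `V a + T b` -/
def yp (V T a b : ℤ) : ℤ := Int.add (Int.mul V a) (Int.mul T b)

def linF (m f N d e : V4) (K A R W V T VV : ℤ) : Bool :=
  tstF (Int.add (Int.mul (Int.mul K (Int.mul (dot m N) (dot f N))) VV)
    (Int.add (Int.mul (Int.mul A (Int.mul (yp V T (dot m d) (dot m e)) (yp V T (dot f d) (dot f e)))) W)
      (Int.mul (Int.mul R (Int.mul (dot m e) (dot f e))) (Int.mul W VV))))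

def quaF (v w s P Q : V4) (AR KR KA W V T VV : ℤ) : Bool :=
  tstF (Int.add (Int.mul (Int.mul AR (Int.mul (dot v s) (dot w s))) (Int.mul W VV))
    (Int.add (Int.mul (Int.mul KR (Int.mul (dot v P) (dot w P))) VV)
      (Int.mul KA (Int.mul (yz V T (dot v Q) (dot v P)) (yz V T (dot w Q) (dot w P))))))

def cdF (N d e s P Q : V4) (K A R AR KR KA W V T VV : ℤ) (c : Cd) : Bool :=
  Cd.rec (motive := fun _ => Bool) (fun m f => linF m f N d e K A R W V T VV)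
    (fun v w => quaF v w s P Q AR KR KA W V T VV) c

/-! ### size checks -/

def M4 : ℕ := 16777216

def teB (t : Te) : Bool := Bool.and (Nat.ble (nab t.T) M4) (Nat.ble t.V M4)
def g3B (u : G3) : Bool := Bool.and (Nat.ble u.k M1) (Bool.and (Nat.ble u.al M1) (Nat.ble u.rho M1))
def sfB (x : SF) : Bool :=
  Bool.and (Bool.and (ptB x.p0) (Bool.and (ptB x.p1) (ptB x.p2)))
    (Bool.and (Bool.and (teB x.t0) (teB x.t1)) (Bool.and (g3B x.u0) (Bool.and (g3B x.u1) (g3B x.u2))))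

/-! ### leaves and trees -/

def sel (c : ℕ) (a b : V4) : V4 := Nat.rec (motive := fun _ => V4) a (fun _ _ => b) c

def leafQF (N d e s P Q : V4) (K A R W V T : ℤ) (l : List Cd) : Bool :=
  allL (cdF N d e s P Q K A R (Int.mul A R) (Int.mul K R) (Int.mul K A) W V T (Int.mul V V)) l

def leafF (c : ℕ) (T : List (List Cd)) (R s0 s1 s2 s3 : ℕ) (x : SF) : Bool :=
  Bool.and (Bool.and (sfB x) (Bool.and (isP s0 s1 s2 s3) (Nat.blt R T.length)))
    (leafQF (prm s0 s1 s2 s3 (pvF (nC 1 x.p0.W x.p0.X x.p0.Y) (nC 1 x.p1.W x.p1.X x.p1.Y)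
        (nC 1 x.p2.W x.p2.X x.p2.Y)))
      (prm s0 s1 s2 s3 (sel c dC (eC 1))) (prm s0 s1 s2 s3 (sel c (eC 1) dC))
      (prm s0 s1 s2 s3 (sC 1))
      (prm s0 s1 s2 s3 (sel c
        (pvF (pC 1 x.p0.W x.p0.X) (pC 1 x.p1.W x.p1.X) (pC 1 x.p2.W x.p2.X))
        (pvF (qC 1 x.p0.W x.p0.Y) (qC 1 x.p1.W x.p1.Y) (qC 1 x.p2.W x.p2.Y))))
      (prm s0 s1 s2 s3 (sel c
        (pvF (qC 1 x.p0.W x.p0.Y) (qC 1 x.p1.W x.p1.Y) (qC 1 x.p2.W x.p2.Y))
        (pvF (pC 1 x.p0.W x.p0.X) (pC 1 x.p1.W x.p1.X) (pC 1 x.p2.W x.p2.X))))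
      (pG (Int.ofNat x.u0.k) (Int.ofNat x.u1.k) (Int.ofNat x.u2.k))
      (pG (Int.ofNat x.u0.al) (Int.ofNat x.u1.al) (Int.ofNat x.u2.al))
      (pG (Int.ofNat x.u0.rho) (Int.ofNat x.u1.rho) (Int.ofNat x.u2.rho))
      (Int.mul (p3 (Int.ofNat x.p0.W) (Int.ofNat x.p1.W) (Int.ofNat x.p2.W))
        (p3 (Int.ofNat x.p0.W) (Int.ofNat x.p1.W) (Int.ofNat x.p2.W)))
      (pT (Int.ofNat x.t0.V) (Int.ofNat x.t1.V)) (pT x.t0.T x.t1.T)
      (nth [] T R))

/-- one generator, one pair of ends: `al (2 V V' - 2 T T') < 2 rho V V'` -/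
def o4p (al rho : ℕ) (s t : Te) : Bool :=
  nn (Int.sub (Int.sub (Int.mul (Int.ofNat rho) (Int.ofNat (Nat.mul s.V t.V)))
    (Int.mul (Int.ofNat al) (Int.sub (Int.ofNat (Nat.mul s.V t.V)) (Int.mul s.T t.T)))) 1)

def o4g (s t : Te) (u : G3) : Bool :=
  Bool.or (Bool.and (Nat.beq u.al 0) (Nat.beq u.rho 0))
    (Bool.and (o4p u.al u.rho s s) (Bool.and (o4p u.al u.rho s t) (o4p u.al u.rho t t)))

/-- the cell is outside of `rho <= al (1 - tau ^ 2)` -/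
def outF (x : SF) : Bool :=
  Bool.and (o4g x.t0 x.t1 x.u0) (Bool.and (o4g x.t0 x.t1 x.u1) (o4g x.t0 x.t1 x.u2))

def tm (p q : ℕ) (s t : Te) : Te :=
  ⟨Int.add (Int.mul (Int.ofNat p) s.T) (Int.mul (Int.ofNat q) t.T), Nat.add (Nat.mul p s.V) (Nat.mul q t.V)⟩

def cm (p q : ℕ) (u v : G3) : G3 :=
  ⟨Nat.add (Nat.mul p u.k) (Nat.mul q v.k), Nat.add (Nat.mul p u.al) (Nat.mul q v.al),
    Nat.add (Nat.mul p u.rho) (Nat.mul q v.rho)⟩

def gPF (x : SF) (r : ℕ) : Pt :=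
  Nat.rec (motive := fun _ => Pt) x.p0 (fun j _ => Nat.rec (motive := fun _ => Pt) x.p1 (fun _ _ => x.p2) j) r

def sPF (x : SF) (r : ℕ) (p : Pt) : SF :=
  Nat.rec (motive := fun _ => SF) ⟨p, x.p1, x.p2, x.t0, x.t1, x.u0, x.u1, x.u2⟩
    (fun j _ => Nat.rec (motive := fun _ => SF) ⟨x.p0, p, x.p2, x.t0, x.t1, x.u0, x.u1, x.u2⟩
      (fun _ _ => ⟨x.p0, x.p1, p, x.t0, x.t1, x.u0, x.u1, x.u2⟩) j) r

def gUF (x : SF) (i : ℕ) : G3 :=
  Nat.rec (motive := fun _ => G3) x.u0 (fun j _ => Nat.rec (motive := fun _ => G3) x.u1 (fun _ _ => x.u2) j) i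

def sUF (x : SF) (i : ℕ) (u : G3) : SF :=
  Nat.rec (motive := fun _ => SF) ⟨x.p0, x.p1, x.p2, x.t0, x.t1, u, x.u1, x.u2⟩
    (fun j _ => Nat.rec (motive := fun _ => SF) ⟨x.p0, x.p1, x.p2, x.t0, x.t1, x.u0, u, x.u2⟩
      (fun _ _ => ⟨x.p0, x.p1, x.p2, x.t0, x.t1, x.u0, x.u1, u⟩) j) i

def sT0 (x : SF) (t : Te) : SF := ⟨x.p0, x.p1, x.p2, t, x.t1, x.u0, x.u1, x.u2⟩
def sT1 (x : SF) (t : Te) : SF := ⟨x.p0, x.p1, x.p2, x.t0, t, x.u0, x.u1, x.u2⟩

/-- **the checker in the flag chart** -/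
def chkF (c : ℕ) (T : List (List Cd)) (t : TrF) : SF → Bool :=
  TrF.rec (motive := fun _ => SF → Bool)
    (fun r p q _ _ f g x => Bool.and (Bool.and (Nat.ble r 2) (Bool.and (Nat.ble 1 p) (Nat.ble 1 q)))
      (Bool.and (f (sPF x (nx r) (mid p q (gPF x r) (gPF x (nx r)))))
        (g (sPF x r (mid p q (gPF x r) (gPF x (nx r)))))))
    (fun p q _ _ f g x => Bool.and (Bool.and (Nat.ble 1 p) (Nat.ble 1 q))
      (Bool.and (f (sT1 x (tm p q x.t0 x.t1))) (g (sT0 x (tm p q x.t0 x.t1)))))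
    (fun i j p q _ _ f g x => Bool.and (Bool.and (Bool.and (Nat.ble i 2) (Nat.ble j 2))
        (Bool.and (not (Nat.beq i j)) (Bool.and (Nat.ble 1 p) (Nat.ble 1 q))))
      (Bool.and (f (sUF x j (cm p q (gUF x i) (gUF x j)))) (g (sUF x i (cm p q (gUF x i) (gUF x j))))))
    (fun R s0 s1 s2 s3 x => leafF c T R s0 s1 s2 s3 x)
    (fun _ x => outF x) t

end

/-! ### digits -/

/-- digits of natural numbers -/
def pN' : List ℕ → ℕ
  | [] => 0
  | z :: l => z + 2 ^ 256 * pN' l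

theorem pN'_testBit (l : List ℕ) (hl : ∀ z ∈ l, z < 2 ^ 256) (p : ℕ) (hp : p < l.length) :
    (pN' l).testBit (256 * p + 255) = (l[p]).testBit 255 := by
  induction l generalizing p with
  | nil => exact absurd hp (Nat.not_lt_zero _)
  | cons z l ih =>
    have hz : z < 2 ^ 256 := hl z (List.mem_cons_self ..)
    show (z + 2 ^ 256 * pN' l).testBit (256 * p + 255) = _
    rw [add_comm, Nat.testBit_two_pow_mul_add _ hz]
    cases p with
    | zero => simp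
    | succ p =>
      have h1 : ¬ 256 * (p + 1) + 255 < 256 := by omega
      have h2 : 256 * (p + 1) + 255 - 256 = 256 * p + 255 := by omega
      rw [if_neg h1, h2, List.getElem_cons_succ]
      exact ih (fun z hz => hl z (List.mem_cons_of_mem _ hz)) p _

theorem testBit_255 (z : ℕ) (hz : z < 2 ^ 256) : z.testBit 255 = decide (2 ^ 255 ≤ z) := by
  rw [Nat.testBit_eq_decide_div_mod_eq, decide_eq_decide]
  norm_num at hz ⊢
  omega

theorem OFFF_eq : OFFF = pN' (List.replicate 147 (2 ^ 255)) := by decide +kernel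

theorem pZ_off' (l : List ℤ) (hl : ∀ z ∈ l, |z| < 2 ^ 255) :
    pZ (2 ^ 256) l + (pN' (List.replicate l.length (2 ^ 255)) : ℕ) =
      (pN' (l.map fun z => (z + 2 ^ 255).toNat) : ℕ) := by
  induction l with
  | nil => rfl
  | cons z l ih =>
    have ih' := ih fun z hz => hl z (List.mem_cons_of_mem _ hz)
    have hz := abs_lt.1 (hl z (List.mem_cons_self ..))
    show z + 2 ^ 256 * pZ (2 ^ 256) l +
      ((2 ^ 255 + 2 ^ 256 * pN' (List.replicate l.length (2 ^ 255)) : ℕ) : ℤ) =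
      (((z + 2 ^ 255).toNat + 2 ^ 256 * pN' (l.map fun z => (z + 2 ^ 255).toNat) : ℕ) : ℤ)
    have e1 : ∀ x : ℕ, ((2 ^ 255 + 2 ^ 256 * x : ℕ) : ℤ) = 2 ^ 255 + 2 ^ 256 * (x : ℤ) := by
      intro x
      push_cast
      ring
    have e2 : ∀ x y : ℕ, ((y + 2 ^ 256 * x : ℕ) : ℤ) = (y : ℤ) + 2 ^ 256 * (x : ℤ) := by
      intro x y
      push_cast
      ring
    rw [e1, e2, ← ih', Int.toNat_of_nonneg (by linarith [hz.1])]
    ring

theorem tstF_digits {F : ℤ} (h : tstF F = true) {l : List ℤ} (hlen : l.length = 147)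
    (hl : ∀ z ∈ l, |z| < 2 ^ 255) (hF : F = pZ (2 ^ 256) l) : ∀ z ∈ l, 0 ≤ z := by
  have h1 : Nat.land (Int.toNat (F + (OFFF : ℤ))) OFFF = OFFF := Nat.eq_of_beq_eq_true h
  have h2 : F + (OFFF : ℤ) = (pN' (l.map fun z => (z + 2 ^ 255).toNat) : ℕ) := by
    rw [← pZ_off' l hl, hlen, hF, ← OFFF_eq]
  rw [h2, Int.toNat_natCast] at h1
  have hlt : ∀ z ∈ (l.map fun z => (z + 2 ^ 255).toNat), z < 2 ^ 256 := by
    intro z hz
    obtain ⟨y, hy, rfl⟩ := List.mem_map.1 hz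
    have hy' := abs_lt.1 (hl y hy)
    have h3 : y + 2 ^ 255 < 2 ^ 256 := by
      have := hy'.2
      norm_num at this ⊢
      linarith
    have h4 : 0 ≤ y + 2 ^ 255 := by linarith [hy'.1]
    have h5 : (((y + 2 ^ 255).toNat : ℕ) : ℤ) < ((2 ^ 256 : ℕ) : ℤ) := by
      rw [Int.toNat_of_nonneg h4]
      push_cast
      exact h3
    exact_mod_cast h5
  intro z hz
  obtain ⟨p, hp, rfl⟩ := List.getElem_of_mem hz
  have hp' : p < (l.map fun z => (z + 2 ^ 255).toNat).length := by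
    rw [List.length_map]
    exact hp
  have b1 := pN'_testBit _ hlt p hp'
  have hp2 : p < (List.replicate 147 (2 ^ 255 : ℕ)).length := by
    rw [List.length_replicate, ← hlen]
    exact hp
  have b2 := pN'_testBit (List.replicate 147 (2 ^ 255 : ℕ)) (by
    intro z hz
    rw [List.eq_of_mem_replicate hz]
    norm_num) p hp2
  rw [← OFFF_eq, List.getElem_replicate] at b2
  have b3 : (2 ^ 255 : ℕ).testBit 255 = true := Nat.testBit_two_pow_self
  rw [b3] at b2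
  have b4 : (Nat.land (pN' (l.map fun z => (z + 2 ^ 255).toNat)) OFFF).testBit (256 * p + 255) =
      true := by
    rw [h1]
    exact b2
  have b5 : ((pN' (l.map fun z => (z + 2 ^ 255).toNat)) &&& OFFF).testBit (256 * p + 255) =
      true := b4
  rw [Nat.testBit_and, b2, Bool.and_true, b1, List.getElem_map, testBit_255 _ (by
    have := hlt _ (List.getElem_mem hp')
    rw [List.getElem_map] at this
    exact this)] at b5
  have b6 : 2 ^ 255 ≤ (l[p] + 2 ^ 255).toNat := of_decide_eq_true b5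
  have b7 : ((2 ^ 255 : ℕ) : ℤ) ≤ ((l[p] + 2 ^ 255).toNat : ℤ) := Int.ofNat_le.2 b6
  have hy' := abs_lt.1 (hl l[p] (List.getElem_mem hp))
  rw [Int.toNat_of_nonneg (by linarith [hy'.1])] at b7
  push_cast at b7
  linarith

end Pool.Agent.TET.Cvr
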