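import Pool.Agent.Helper37_TET.FlA

/-!
# MP_c7c9bf_co: the flag chart, algebra of the digits
-/

set_option autoImplicit false

namespace Pool.Agent.TET.Cvr

/-- eighteen digits -/
structure D18 where
  x : D6
  y : D6
  z : D6

def D18.blk (X : D18) : List ℤ := X.x.blk ++ (X.y.blk ++ X.z.blk)

def D18.val (t : ℤ) (X : D18) : ℤ := X.x.val t + t ^ 7 * X.y.val t + t ^ 14 * X.z.val t

def D18.all (P : ℤ → Prop) (X : D18) : Prop := X.x.all P ∧ X.y.all P ∧ X.z.all P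

theorem pZ_D18 (t : ℤ) (X : D18) (l : List ℤ) : pZ t (X.blk ++ l) = X.val t + t ^ 21 * pZ t l := by
  have hv : ∀ (x : D6) (l : List ℤ), pZ t (x.blk ++ l) = x.val t + t ^ 7 * pZ t l :=
    fun x l => pZ_blk t _ _ _ _ _ _ l
  unfold D18.blk D18.val
  rw [List.append_assoc, List.append_assoc, hv, hv, hv]
  ring

def z21 : List ℤ := z7 ++ (z7 ++ z7)

theorem pZ_z21 (t : ℤ) (l : List ℤ) : pZ t (z21 ++ l) = t ^ 21 * pZ t l := by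
  unfold z21
  rw [List.append_assoc, List.append_assoc, pZ_z7, pZ_z7, pZ_z7]
  ring

/-- the 147 digits -/
def digF (X0 X1 X2 X3 X4 X6 : D18) : List ℤ :=
  X0.blk ++ (X1.blk ++ (X2.blk ++ (X3.blk ++ (X4.blk ++ (z21 ++ (X6.blk ++ []))))))

set_option maxRecDepth 8000 in
theorem digF_len (X0 X1 X2 X3 X4 X6 : D18) : (digF X0 X1 X2 X3 X4 X6).length = 147 := rfl

theorem digF_val (t : ℤ) (X0 X1 X2 X3 X4 X6 : D18) : pZ t (digF X0 X1 X2 X3 X4 X6) =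
    X0.val t + t ^ 21 * X1.val t + t ^ 42 * X2.val t + t ^ 63 * X3.val t + t ^ 84 * X4.val t +
      t ^ 126 * X6.val t := by
  unfold digF
  rw [pZ_D18, pZ_D18, pZ_D18, pZ_D18, pZ_D18, pZ_z21, pZ_D18]
  have h0 : pZ t [] = 0 := rfl
  rw [h0]
  ring

theorem D18_all {P : ℤ → Prop} (h0 : P 0) {X : D18} (hX : X.all P) : ∀ z ∈ X.blk, P z := by
  intro z hz
  unfold D18.blk at hz
  simp only [List.mem_append] at hz
  rcases hz with h | h | h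
  · exact blk_all h0 hX.1 z h
  · exact blk_all h0 hX.2.1 z h
  · exact blk_all h0 hX.2.2 z h

theorem all_D18 {P : ℤ → Prop} {X : D18} (h : ∀ z ∈ X.blk, P z) : X.all P := by
  unfold D18.blk at h
  simp only [List.mem_append] at h
  exact ⟨all_blk fun z hz => h z (Or.inl hz), all_blk fun z hz => h z (Or.inr (Or.inl hz)),
    all_blk fun z hz => h z (Or.inr (Or.inr hz))⟩

theorem z21_all {P : ℤ → Prop} (h0 : P 0) : ∀ z ∈ z21, P z := by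
  intro z hz
  unfold z21 at hz
  simp only [List.mem_append] at hz
  rcases hz with h | h | h <;> exact z7_all h0 z h

theorem digF_all {P : ℤ → Prop} (h0 : P 0) {X0 X1 X2 X3 X4 X6 : D18} (y0 : X0.all P)
    (y1 : X1.all P) (y2 : X2.all P) (y3 : X3.all P) (y4 : X4.all P) (y6 : X6.all P) :
    ∀ z ∈ digF X0 X1 X2 X3 X4 X6, P z := by
  intro z hz
  unfold digF at hz
  simp only [List.mem_append] at hz
  rcases hz with h | h | h | h | h | h | h | h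
  · exact D18_all h0 y0 z h
  · exact D18_all h0 y1 z h
  · exact D18_all h0 y2 z h
  · exact D18_all h0 y3 z h
  · exact D18_all h0 y4 z h
  · exact z21_all h0 z h
  · exact D18_all h0 y6 z h
  · exact absurd h List.not_mem_nil

theorem all_digF {P : ℤ → Prop} {X0 X1 X2 X3 X4 X6 : D18}
    (h : ∀ z ∈ digF X0 X1 X2 X3 X4 X6, P z) :
    X0.all P ∧ X1.all P ∧ X2.all P ∧ X3.all P ∧ X4.all P ∧ X6.all P := by
  unfold digF at h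
  simp only [List.mem_append] at h
  refine ⟨all_D18 fun z hz => h z ?_, all_D18 fun z hz => h z ?_, all_D18 fun z hz => h z ?_,
    all_D18 fun z hz => h z ?_, all_D18 fun z hz => h z ?_, all_D18 fun z hz => h z ?_⟩ <;>
    simp [hz]

/-- the digits are non-negative -/
theorem tstF_dig {F : ℤ} (h : tstF F = true) {X0 X1 X2 X3 X4 X6 : D18}
    (y0 : X0.all fun z => |z| < 2 ^ 255) (y1 : X1.all fun z => |z| < 2 ^ 255)
    (y2 : X2.all fun z => |z| < 2 ^ 255) (y3 : X3.all fun z => |z| < 2 ^ 255)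
    (y4 : X4.all fun z => |z| < 2 ^ 255) (y6 : X6.all fun z => |z| < 2 ^ 255)
    (hF : F = pZ (2 ^ 256) (digF X0 X1 X2 X3 X4 X6)) :
    X0.all (0 ≤ ·) ∧ X1.all (0 ≤ ·) ∧ X2.all (0 ≤ ·) ∧ X3.all (0 ≤ ·) ∧ X4.all (0 ≤ ·) ∧
      X6.all (0 ≤ ·) :=
  all_digF (tstF_digits h (digF_len ..)
    (digF_all (by rw [abs_zero]; positivity) y0 y1 y2 y3 y4 y6) hF)

/-! ### building blocks -/

def D6.smul (c : ℤ) (x : D6) : D6 := ⟨c * x.a, c * x.b, c * x.c, c * x.d, c * x.e, c * x.f⟩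

theorem smul_val (t c : ℤ) (x : D6) : (x.smul c).val t = c * x.val t := by
  unfold D6.smul D6.val
  ring

/-- `(v0 + v1 t^7 + v2 t^14) * x` -/
def tau (v0 v1 v2 : ℤ) (x : D6) : D18 := ⟨x.smul v0, x.smul v1, x.smul v2⟩

theorem tau_val (t v0 v1 v2 : ℤ) (x : D6) :
    (tau v0 v1 v2 x).val t = (v0 + v1 * t ^ 7 + v2 * t ^ 14) * x.val t := by
  unfold D18.val tau
  simp only [smul_val]
  ring

/-- the product of two vectors with base and interval digits -/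
def bt (y00 y01 y02 y10 y11 y12 z00 z01 z02 z10 z11 z12 : ℤ) : D18 :=
  ⟨tri y00 y01 y02 z00 z01 z02, (tri y00 y01 y02 z10 z11 z12).plus (tri y10 y11 y12 z00 z01 z02),
    tri y10 y11 y12 z10 z11 z12⟩

theorem bt_val (t y00 y01 y02 y10 y11 y12 z00 z01 z02 z10 z11 z12 : ℤ) :
    (bt y00 y01 y02 y10 y11 y12 z00 z01 z02 z10 z11 z12).val t =
      ((y00 + y01 * t + y02 * t ^ 3) + (y10 + y11 * t + y12 * t ^ 3) * t ^ 7) *
      ((z00 + z01 * t + z02 * t ^ 3) + (z10 + z11 * t + z12 * t ^ 3) * t ^ 7) := by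
  unfold D18.val bt
  simp only [plus_val, tri_val]
  ring

/-- linear combination -/
def lc3 (h p q : ℤ) (X Y Z : D18) : D18 :=
  ⟨D6.lc h p q 0 X.x Y.x Z.x Z.x, D6.lc h p q 0 X.y Y.y Z.y Z.y, D6.lc h p q 0 X.z Y.z Z.z Z.z⟩

theorem lc3_val (t h p q : ℤ) (X Y Z : D18) :
    (lc3 h p q X Y Z).val t = h * X.val t + p * Y.val t + q * Z.val t := by
  unfold D18.val lc3
  simp only [lc_val]
  ring

theorem lc_bd' {h p q H P Q VV BB CC : ℤ} {V B C : D6} (hh : |h| ≤ H) (hp : |p| ≤ P)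
    (hq : |q| ≤ Q) (hV : V.all (|·| ≤ VV)) (hB : B.all (|·| ≤ BB))
    (hC : C.all (|·| ≤ CC)) (hlt : H * VV + P * BB + Q * CC < 2 ^ 255) :
    (D6.lc h p q 0 V B C C).all (|·| < 2 ^ 255) := by
  have key : ∀ v b c : ℤ, |v| ≤ VV → |b| ≤ BB → |c| ≤ CC →
      |h * v + p * b + q * c - 0 * c| < 2 ^ 255 := fun v b c h1 h2 h3 => by
    rw [zero_mul, sub_zero]
    exact lt_of_le_of_lt (add_bd (add_bd (mul_bd hh h1) (mul_bd hp h2)) (mul_bd hq h3)) hlt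
  obtain ⟨v1, v2, v3, v4, v5, v6⟩ := hV
  obtain ⟨b1, b2, b3, b4, b5, b6⟩ := hB
  obtain ⟨c1, c2, c3, c4, c5, c6⟩ := hC
  exact ⟨key _ _ _ v1 b1 c1, key _ _ _ v2 b2 c2, key _ _ _ v3 b3 c3, key _ _ _ v4 b4 c4,
    key _ _ _ v5 b5 c5, key _ _ _ v6 b6 c6⟩

theorem lc3_bd {h p q H P Q VV BB CC : ℤ} {X Y Z : D18} (hh : |h| ≤ H) (hp : |p| ≤ P)
    (hq : |q| ≤ Q) (hX : X.all (|·| ≤ VV)) (hY : Y.all (|·| ≤ BB))
    (hZ : Z.all (|·| ≤ CC)) (hlt : H * VV + P * BB + Q * CC < 2 ^ 255) :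
    (lc3 h p q X Y Z).all (|·| < 2 ^ 255) :=
  ⟨lc_bd' hh hp hq hX.1 hY.1 hZ.1 hlt, lc_bd' hh hp hq hX.2.1 hY.2.1 hZ.2.1 hlt,
    lc_bd' hh hp hq hX.2.2 hY.2.2 hZ.2.2 hlt⟩

theorem smul_bd {c C X : ℤ} {x : D6} (hc : |c| ≤ C) (hx : x.all (|·| ≤ X)) :
    (x.smul c).all (|·| ≤ C * X) := by
  obtain ⟨a, b, c, d, e, f⟩ := hx
  exact ⟨mul_bd hc a, mul_bd hc b, mul_bd hc c, mul_bd hc d, mul_bd hc e, mul_bd hc f⟩

theorem tau_bd {v0 v1 v2 C X : ℤ} {x : D6} (h0 : |v0| ≤ C) (h1 : |v1| ≤ C) (h2 : |v2| ≤ C)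
    (hx : x.all (|·| ≤ X)) : (tau v0 v1 v2 x).all (|·| ≤ C * X) :=
  ⟨smul_bd h0 hx, smul_bd h1 hx, smul_bd h2 hx⟩

theorem bt_bd {y00 y01 y02 y10 y11 y12 z00 z01 z02 z10 z11 z12 X : ℤ} (hX : 0 ≤ X)
    (h0 : |y00| ≤ X ∧ |y01| ≤ X ∧ |y02| ≤ X) (h1 : |y10| ≤ X ∧ |y11| ≤ X ∧ |y12| ≤ X)
    (k0 : |z00| ≤ X ∧ |z01| ≤ X ∧ |z02| ≤ X) (k1 : |z10| ≤ X ∧ |z11| ≤ X ∧ |z12| ≤ X) :
    (bt y00 y01 y02 y10 y11 y12 z00 z01 z02 z10 z11 z12).all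
      (|·| ≤ (X * X + X * X) + (X * X + X * X)) := by
  have hXX : 0 ≤ X * X := mul_nonneg hX hX
  refine ⟨all_mono (tri_bd h0.1 h0.2.1 h0.2.2 k0.1 k0.2.1 k0.2.2) (by linarith),
    plus_bd (tri_bd h0.1 h0.2.1 h0.2.2 k1.1 k1.2.1 k1.2.2)
      (tri_bd h1.1 h1.2.1 h1.2.2 k0.1 k0.2.1 k0.2.2),
    all_mono (tri_bd h1.1 h1.2.1 h1.2.2 k1.1 k1.2.1 k1.2.2) (by linarith)⟩

/-! ### real evaluation -/

noncomputable def D6.ev (m0 m1 m2 : ℝ) (x : D6) : ℝ :=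
  x.a * (m0 * m0) + x.b * (m0 * m1) + x.c * (m1 * m1) + x.d * (m0 * m2) + x.e * (m1 * m2) +
    x.f * (m2 * m2)

theorem ev_nonneg {m0 m1 m2 : ℝ} (h0 : 0 ≤ m0) (h1 : 0 ≤ m1) (h2 : 0 ≤ m2) {x : D6}
    (hx : x.all (0 ≤ ·)) : 0 ≤ x.ev m0 m1 m2 := by
  obtain ⟨a, b, c, d, e, f⟩ := hx
  have a' : (0 : ℝ) ≤ x.a := by exact_mod_cast a
  have b' : (0 : ℝ) ≤ x.b := by exact_mod_cast b
  have c' : (0 : ℝ) ≤ x.c := by exact_mod_cast c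
  have d' : (0 : ℝ) ≤ x.d := by exact_mod_cast d
  have e' : (0 : ℝ) ≤ x.e := by exact_mod_cast e
  have f' : (0 : ℝ) ≤ x.f := by exact_mod_cast f
  unfold D6.ev
  positivity

theorem tri_ev (m0 m1 m2 : ℝ) (a0 a1 a2 b0 b1 b2 : ℤ) : (tri a0 a1 a2 b0 b1 b2).ev m0 m1 m2 =
    (m0 * a0 + m1 * a1 + m2 * a2) * (m0 * b0 + m1 * b1 + m2 * b2) := by
  unfold D6.ev tri
  push_cast
  ring

theorem plus_ev (m0 m1 m2 : ℝ) (x y : D6) : (x.plus y).ev m0 m1 m2 = x.ev m0 m1 m2 +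
    y.ev m0 m1 m2 := by
  unfold D6.ev D6.plus
  push_cast
  ring

theorem smul_ev (m0 m1 m2 : ℝ) (c : ℤ) (x : D6) : (x.smul c).ev m0 m1 m2 = c * x.ev m0 m1 m2 := by
  unfold D6.ev D6.smul
  push_cast
  ring

theorem lc_ev (m0 m1 m2 : ℝ) (h p q s : ℤ) (V B C D : D6) : (D6.lc h p q s V B C D).ev m0 m1 m2 =
    h * V.ev m0 m1 m2 + p * B.ev m0 m1 m2 + q * C.ev m0 m1 m2 - s * D.ev m0 m1 m2 := by
  unfold D6.ev D6.lc
  push_cast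
  ring

noncomputable def D18.ev (m0 m1 m2 n0 n1 : ℝ) (X : D18) : ℝ :=
  X.x.ev m0 m1 m2 * (n0 * n0) + X.y.ev m0 m1 m2 * (n0 * n1) + X.z.ev m0 m1 m2 * (n1 * n1)

theorem ev18_nonneg {m0 m1 m2 n0 n1 : ℝ} (h0 : 0 ≤ m0) (h1 : 0 ≤ m1) (h2 : 0 ≤ m2)
    (k0 : 0 ≤ n0) (k1 : 0 ≤ n1) {X : D18} (hX : X.all (0 ≤ ·)) : 0 ≤ X.ev m0 m1 m2 n0 n1 := by
  have a := ev_nonneg h0 h1 h2 hX.1
  have b := ev_nonneg h0 h1 h2 hX.2.1
  have c := ev_nonneg h0 h1 h2 hX.2.2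
  unfold D18.ev
  positivity

theorem tau_ev (m0 m1 m2 n0 n1 : ℝ) (v0 v1 v2 : ℤ) (x : D6) :
    (tau v0 v1 v2 x).ev m0 m1 m2 n0 n1 =
      (v0 * (n0 * n0) + v1 * (n0 * n1) + v2 * (n1 * n1)) * x.ev m0 m1 m2 := by
  unfold D18.ev tau
  simp only [smul_ev]
  ring

theorem bt_ev (m0 m1 m2 n0 n1 : ℝ) (y00 y01 y02 y10 y11 y12 z00 z01 z02 z10 z11 z12 : ℤ) :
    (bt y00 y01 y02 y10 y11 y12 z00 z01 z02 z10 z11 z12).ev m0 m1 m2 n0 n1 =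
      (n0 * (m0 * y00 + m1 * y01 + m2 * y02) + n1 * (m0 * y10 + m1 * y11 + m2 * y12)) *
      (n0 * (m0 * z00 + m1 * z01 + m2 * z02) + n1 * (m0 * z10 + m1 * z11 + m2 * z12)) := by
  unfold D18.ev bt
  simp only [plus_ev, tri_ev]
  ring

theorem lc3_ev (m0 m1 m2 n0 n1 : ℝ) (h p q : ℤ) (X Y Z : D18) :
    (lc3 h p q X Y Z).ev m0 m1 m2 n0 n1 = h * X.ev m0 m1 m2 n0 n1 + p * Y.ev m0 m1 m2 n0 n1 +
      q * Z.ev m0 m1 m2 n0 n1 := by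
  unfold D18.ev lc3
  simp only [lc_ev]
  push_cast
  ring

end Pool.Agent.TET.Cvr
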