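import Pool.Agent.Helper37_TET.FlB

/-!
# MP_c7c9bf_co: the flag chart, soundness of the conditions
-/

set_option autoImplicit false

namespace Pool.Agent.TET.Cvr

theorem tf_eq (k : ℕ) : ((tf k : ℕ) : ℤ) = (2 ^ 256) ^ k := by
  have h : tf k = 2 ^ (256 * k) := rfl
  rw [h]
  push_cast
  rw [pow_mul]
  norm_num

theorem p3_eq (a b c : ℤ) : p3 a b c = a + b * 2 ^ 256 + c * (2 ^ 256) ^ 3 := by
  have h : p3 a b c = a + (b * ((tf 1 : ℕ) : ℤ) + c * ((tf 3 : ℕ) : ℤ)) := rfl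
  rw [h, tf_eq, tf_eq, pow_one]
  ring

theorem pT_eq (a b : ℤ) : pT a b = a + b * (2 ^ 256) ^ 7 := by
  have h : pT a b = a + b * ((tf 7 : ℕ) : ℤ) := rfl
  rw [h, tf_eq]

theorem pG_eq (a b c : ℤ) : pG a b c = a + b * (2 ^ 256) ^ 21 + c * ((2 ^ 256) ^ 21) ^ 3 := by
  have h : pG a b c = a + (b * ((tf 21 : ℕ) : ℤ) + c * ((tf 63 : ℕ) : ℤ)) := rfl
  have h1 : ∀ t : ℤ, a + (b * t ^ 21 + c * t ^ 63) = a + b * t ^ 21 + c * (t ^ 21) ^ 3 :=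
    fun t => by ring
  rw [h, tf_eq, tf_eq]
  exact h1 _

theorem dot_pvF (v x y z : V4) :
    dot v (pvF x y z) = dot v x + dot v y * 2 ^ 256 + dot v z * (2 ^ 256) ^ 3 := by
  rw [dot_def, dot_def, dot_def, dot_def]
  show (v.a * p3 x.a y.a z.a + v.b * p3 x.b y.b z.b) + (v.c * p3 x.c y.c z.c +
    v.d * p3 x.d y.d z.d) = _
  rw [p3_eq, p3_eq, p3_eq, p3_eq]
  generalize (2 ^ 256 : ℤ) = t
  ring

theorem prm_pvF (x y z : V4) (s0 s1 s2 s3 : ℕ) : prm s0 s1 s2 s3 (pvF x y z) =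
    pvF (prm s0 s1 s2 s3 x) (prm s0 s1 s2 s3 y) (prm s0 s1 s2 s3 z) := by
  have h : ∀ i, get (pvF x y z) i = p3 (get x i) (get y i) (get z i) := by
    intro i
    match i with
    | 0 => rfl
    | 1 => rfl
    | 2 => rfl
    | _ + 3 => rfl
  unfold prm
  rw [h, h, h, h]
  rfl

/-- a generator is small -/
structure G3S (u : G3) : Prop where
  k : |(u.k : ℤ)| ≤ 2 ^ 40
  al : |(u.al : ℤ)| ≤ 2 ^ 40
  rho : |(u.rho : ℤ)| ≤ 2 ^ 40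

/-- an end of the interval is small -/
structure TeS (t : Te) : Prop where
  T : |t.T| ≤ 2 ^ 24
  V : |(t.V : ℤ)| ≤ 2 ^ 24

theorem g3B_S {u : G3} (h : g3B u = true) : G3S u := by
  unfold g3B at h
  simp only [bAnd] at h
  obtain ⟨h1, h2, h3⟩ := h
  have e : ((M1 : ℕ) : ℤ) = 2 ^ 40 := by
    unfold M1
    norm_num
  have k1 := nat_le h1
  have k2 := nat_le h2
  have k3 := nat_le h3
  rw [e] at k1 k2 k3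
  exact ⟨k1, k2, k3⟩

theorem teB_S {t : Te} (h : teB t = true) : TeS t := by
  unfold teB at h
  simp only [bAnd] at h
  obtain ⟨h1, h2⟩ := h
  have e : ((M4 : ℕ) : ℤ) = 2 ^ 24 := by
    unfold M4
    norm_num
  have k1 := nab_le h1
  have k2 := nat_le h2
  rw [e] at k1 k2
  exact ⟨k1, k2⟩

/-- the weights of a point of a cell -/
structure Wt (W0 W1 W2 : ℕ) (t0 t1 : Te) (u0 u1 u2 : G3) (tt k A rho m0 m1 m2 n0 n1 w0 w1 w2 : ℝ) :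
    Prop where
  pm0 : 0 ≤ m0
  pm1 : 0 ≤ m1
  pm2 : 0 ≤ m2
  pn0 : 0 ≤ n0
  pn1 : 0 ≤ n1
  pw0 : 0 ≤ w0
  pw1 : 0 ≤ w1
  pw2 : 0 ≤ w2
  hW : m0 * W0 + m1 * W1 + m2 * W2 = 1
  hV : n0 * t0.V + n1 * t1.V = 1
  hT : tt = n0 * t0.T + n1 * t1.T
  hk : k = w0 * u0.k + w1 * u1.k + w2 * u2.k
  hA : A = w0 * u0.al + w1 * u1.al + w2 * u2.al
  hr : rho = w0 * u0.rho + w1 * u1.rho + w2 * u2.rho

/-! ### quadratic conditions -/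

theorem comb_q (t A WW YZ AB VV k0 k1 k2 a0 a1 a2 r0 r1 r2 : ℤ) :
    ((a0 + a1 * t ^ 21 + a2 * (t ^ 21) ^ 3) * (r0 + r1 * t ^ 21 + r2 * (t ^ 21) ^ 3) * A) * (WW * VV) +
      (((k0 + k1 * t ^ 21 + k2 * (t ^ 21) ^ 3) * (r0 + r1 * t ^ 21 + r2 * (t ^ 21) ^ 3) * AB) * VV +
      ((k0 + k1 * t ^ 21 + k2 * (t ^ 21) ^ 3) * (a0 + a1 * t ^ 21 + a2 * (t ^ 21) ^ 3)) * YZ) =
    ((a0 * r0 * A) * (VV * WW) + (k0 * r0) * (VV * AB) + (k0 * a0) * YZ) +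
    t ^ 21 * (((a0 * r1 + a1 * r0) * A) * (VV * WW) + (k0 * r1 + k1 * r0) * (VV * AB) +
      (k0 * a1 + k1 * a0) * YZ) +
    t ^ 42 * ((a1 * r1 * A) * (VV * WW) + (k1 * r1) * (VV * AB) + (k1 * a1) * YZ) +
    t ^ 63 * (((a0 * r2 + a2 * r0) * A) * (VV * WW) + (k0 * r2 + k2 * r0) * (VV * AB) +
      (k0 * a2 + k2 * a0) * YZ) +
    t ^ 84 * (((a1 * r2 + a2 * r1) * A) * (VV * WW) + (k1 * r2 + k2 * r1) * (VV * AB) +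
      (k1 * a2 + k2 * a1) * YZ) +
    t ^ 126 * ((a2 * r2 * A) * (VV * WW) + (k2 * r2) * (VV * AB) + (k2 * a2) * YZ) := by
  ring

theorem quaF_real {v w s P0 P1 P2 Q0 Q1 Q2 : V4} {W0 W1 W2 : ℕ} {t0 t1 : Te} {u0 u1 u2 : G3}
    (hv : vle v (2 ^ 15)) (hw : vle w (2 ^ 15)) (hs : vle s 1) (hp0 : vle P0 (2 ^ 35))
    (hp1 : vle P1 (2 ^ 35)) (hp2 : vle P2 (2 ^ 35)) (hq0 : vle Q0 (2 ^ 35))
    (hq1 : vle Q1 (2 ^ 35)) (hq2 : vle Q2 (2 ^ 35)) (hW0 : (W0 : ℤ) ≤ 2 ^ 34)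
    (hW1 : (W1 : ℤ) ≤ 2 ^ 34) (hW2 : (W2 : ℤ) ≤ 2 ^ 34) (ht0 : TeS t0) (ht1 : TeS t1)
    (hu0 : G3S u0) (hu1 : G3S u1) (hu2 : G3S u2)
    (h : quaF v w s (pvF P0 P1 P2) (pvF Q0 Q1 Q2)
      (Int.mul (pG (Int.ofNat u0.al) (Int.ofNat u1.al) (Int.ofNat u2.al))
        (pG (Int.ofNat u0.rho) (Int.ofNat u1.rho) (Int.ofNat u2.rho)))
      (Int.mul (pG (Int.ofNat u0.k) (Int.ofNat u1.k) (Int.ofNat u2.k))
        (pG (Int.ofNat u0.rho) (Int.ofNat u1.rho) (Int.ofNat u2.rho)))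
      (Int.mul (pG (Int.ofNat u0.k) (Int.ofNat u1.k) (Int.ofNat u2.k))
        (pG (Int.ofNat u0.al) (Int.ofNat u1.al) (Int.ofNat u2.al)))
      (Int.mul (p3 (Int.ofNat W0) (Int.ofNat W1) (Int.ofNat W2))
        (p3 (Int.ofNat W0) (Int.ofNat W1) (Int.ofNat W2)))
      (pT (Int.ofNat t0.V) (Int.ofNat t1.V)) (pT t0.T t1.T)
      (Int.mul (pT (Int.ofNat t0.V) (Int.ofNat t1.V)) (pT (Int.ofNat t0.V) (Int.ofNat t1.V))) = true)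
    {tt k A rho m0 m1 m2 n0 n1 w0 w1 w2 : ℝ}
    (hm : Wt W0 W1 W2 t0 t1 u0 u1 u2 tt k A rho m0 m1 m2 n0 n1 w0 w1 w2) {P Q : Fin 4 → ℝ}
    (hP : P = m0 • vR P0 + m1 • vR P1 + m2 • vR P2)
    (hQ : Q = m0 • vR Q0 + m1 • vR Q1 + m2 • vR Q2) :
    0 ≤ A * rho * ((vR v ⬝ᵥ vR s) * (vR w ⬝ᵥ vR s)) + k * rho * ((vR v ⬝ᵥ P) * (vR w ⬝ᵥ P)) +
      k * A * ((vR v ⬝ᵥ Q - tt * (vR v ⬝ᵥ P)) * (vR w ⬝ᵥ Q - tt * (vR w ⬝ᵥ P))) := by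
  -- integers
  obtain ⟨S, hS⟩ : ∃ S, S = dot v s * dot w s := ⟨_, rfl⟩
  have bS : |S| ≤ 2 ^ 34 := by
    rw [hS]
    exact (mul_bd (dot_bd hv hs) (dot_bd hw hs)).trans (by norm_num)
  have hd : ∀ x y : V4, vle x (2 ^ 15) → vle y (2 ^ 35) → |dot x y| ≤ 2 ^ 52 := fun x y h1 h2 =>
    (dot_bd h1 h2).trans (by norm_num)
  have hWa : ∀ W : ℕ, (W : ℤ) ≤ 2 ^ 34 → |(W : ℤ)| ≤ 2 ^ 34 := fun W h => by
    rw [Nat.abs_cast]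
    exact h
  obtain ⟨WD, hWD⟩ : ∃ V, V = tri (W0 : ℤ) W1 W2 W0 W1 W2 := ⟨_, rfl⟩
  obtain ⟨AB, hAB⟩ : ∃ V, V = tri (dot v P0) (dot v P1) (dot v P2) (dot w P0) (dot w P1)
    (dot w P2) := ⟨_, rfl⟩
  obtain ⟨YZ, hYZ⟩ : ∃ V, V = bt (t0.V * dot v Q0 - t0.T * dot v P0) (t0.V * dot v Q1 - t0.T * dot v P1)
    (t0.V * dot v Q2 - t0.T * dot v P2) (t1.V * dot v Q0 - t1.T * dot v P0)
    (t1.V * dot v Q1 - t1.T * dot v P1) (t1.V * dot v Q2 - t1.T * dot v P2)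
    (t0.V * dot w Q0 - t0.T * dot w P0) (t0.V * dot w Q1 - t0.T * dot w P1)
    (t0.V * dot w Q2 - t0.T * dot w P2) (t1.V * dot w Q0 - t1.T * dot w P0)
    (t1.V * dot w Q1 - t1.T * dot w P1) (t1.V * dot w Q2 - t1.T * dot w P2) := ⟨_, rfl⟩
  obtain ⟨v0, hv0⟩ : ∃ z : ℤ, z = (t0.V : ℤ) * t0.V := ⟨_, rfl⟩
  obtain ⟨v1, hv1⟩ : ∃ z : ℤ, z = (t0.V : ℤ) * t1.V + t1.V * t0.V := ⟨_, rfl⟩
  obtain ⟨v2, hv2⟩ : ∃ z : ℤ, z = (t1.V : ℤ) * t1.V := ⟨_, rfl⟩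
  have bW : WD.all (|·| ≤ 2 ^ 69) := by
    rw [hWD]
    exact all_mono (tri_bd (hWa _ hW0) (hWa _ hW1) (hWa _ hW2) (hWa _ hW0) (hWa _ hW1)
      (hWa _ hW2)) (by norm_num)
  have bA : AB.all (|·| ≤ 2 ^ 105) := by
    rw [hAB]
    exact all_mono (tri_bd (hd _ _ hv hp0) (hd _ _ hv hp1) (hd _ _ hv hp2) (hd _ _ hw hp0)
      (hd _ _ hw hp1) (hd _ _ hw hp2)) (by norm_num)
  have b1 : ∀ (t : Te) (x y z : V4), TeS t → vle x (2 ^ 15) → vle y (2 ^ 35) → vle z (2 ^ 35) →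
      |(t.V : ℤ) * dot x y - t.T * dot x z| ≤ 2 ^ 77 := fun t x y z ht hx hy hz =>
    (sub_bd (mul_bd ht.V (hd _ _ hx hy)) (mul_bd ht.T (hd _ _ hx hz))).trans (by norm_num)
  have bY : YZ.all (|·| ≤ 2 ^ 156) := by
    rw [hYZ]
    have h1 := bt_bd (X := 2 ^ 77) (by norm_num)
      ⟨b1 _ _ _ _ ht0 hv hq0 hp0, b1 _ _ _ _ ht0 hv hq1 hp1, b1 _ _ _ _ ht0 hv hq2 hp2⟩
      ⟨b1 _ _ _ _ ht1 hv hq0 hp0, b1 _ _ _ _ ht1 hv hq1 hp1, b1 _ _ _ _ ht1 hv hq2 hp2⟩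
      ⟨b1 _ _ _ _ ht0 hw hq0 hp0, b1 _ _ _ _ ht0 hw hq1 hp1, b1 _ _ _ _ ht0 hw hq2 hp2⟩
      ⟨b1 _ _ _ _ ht1 hw hq0 hp0, b1 _ _ _ _ ht1 hw hq1 hp1, b1 _ _ _ _ ht1 hw hq2 hp2⟩
    exact ⟨all_mono h1.1 (by norm_num), all_mono h1.2.1 (by norm_num),
      all_mono h1.2.2 (by norm_num)⟩
  have c0 : |v0| ≤ 2 ^ 49 := by
    rw [hv0]
    exact (mul_bd ht0.V ht0.V).trans (by norm_num)
  have c1 : |v1| ≤ 2 ^ 49 := by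
    rw [hv1]
    exact (add_bd (mul_bd ht0.V ht1.V) (mul_bd ht1.V ht0.V)).trans (by norm_num)
  have c2 : |v2| ≤ 2 ^ 49 := by
    rw [hv2]
    exact (mul_bd ht1.V ht1.V).trans (by norm_num)
  have bX := tau_bd c0 c1 c2 bW
  have bB := tau_bd c0 c1 c2 bA
  have bd : ∀ h p q : ℤ, |h| ≤ 2 ^ 115 → |p| ≤ 2 ^ 81 → |q| ≤ 2 ^ 81 →
      (lc3 h p q (tau v0 v1 v2 WD) (tau v0 v1 v2 AB) YZ).all (|·| < 2 ^ 255) :=
    fun h p q h1 h2 h3 => lc3_bd h1 h2 h3 bX bB bY (by norm_num)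
  have m2' : ∀ u v : ℤ, |u| ≤ 2 ^ 40 → |v| ≤ 2 ^ 40 → |u * v| ≤ 2 ^ 81 := fun u v h1 h2 =>
    (mul_bd h1 h2).trans (by norm_num)
  have m4 : ∀ u v u' v' : ℤ, |u| ≤ 2 ^ 40 → |v| ≤ 2 ^ 40 → |u'| ≤ 2 ^ 40 → |v'| ≤ 2 ^ 40 →
      |u * v + u' * v'| ≤ 2 ^ 81 := fun u v u' v' h1 h2 h3 h4 =>
    (add_bd (mul_bd h1 h2) (mul_bd h3 h4)).trans (by norm_num)
  have n2 : ∀ u v : ℤ, |u| ≤ 2 ^ 40 → |v| ≤ 2 ^ 40 → |u * v * S| ≤ 2 ^ 115 := fun u v h1 h2 =>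
    (mul_bd (mul_bd h1 h2) bS).trans (by norm_num)
  have n4 : ∀ u v u' v' : ℤ, |u| ≤ 2 ^ 40 → |v| ≤ 2 ^ 40 → |u'| ≤ 2 ^ 40 → |v'| ≤ 2 ^ 40 →
      |(u * v + u' * v') * S| ≤ 2 ^ 115 := fun u v u' v' h1 h2 h3 h4 =>
    (mul_bd (add_bd (mul_bd h1 h2) (mul_bd h3 h4)) bS).trans (by norm_num)
  obtain ⟨hk0, ha0, hr0⟩ := hu0
  obtain ⟨hk1, ha1, hr1⟩ := hu1
  obtain ⟨hk2, ha2, hr2⟩ := hu2
  have key := tstF_dig h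
    (bd _ _ _ (n2 _ _ ha0 hr0) (m2' _ _ hk0 hr0) (m2' _ _ hk0 ha0))
    (bd _ _ _ (n4 _ _ _ _ ha0 hr1 ha1 hr0) (m4 _ _ _ _ hk0 hr1 hk1 hr0)
      (m4 _ _ _ _ hk0 ha1 hk1 ha0))
    (bd _ _ _ (n2 _ _ ha1 hr1) (m2' _ _ hk1 hr1) (m2' _ _ hk1 ha1))
    (bd _ _ _ (n4 _ _ _ _ ha0 hr2 ha2 hr0) (m4 _ _ _ _ hk0 hr2 hk2 hr0)
      (m4 _ _ _ _ hk0 ha2 hk2 ha0))
    (bd _ _ _ (n4 _ _ _ _ ha1 hr2 ha2 hr1) (m4 _ _ _ _ hk1 hr2 hk2 hr1)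
      (m4 _ _ _ _ hk1 ha2 hk2 ha1))
    (bd _ _ _ (n2 _ _ ha2 hr2) (m2' _ _ hk2 hr2) (m2' _ _ hk2 ha2))
    (by
      rw [digF_val]
      simp only [lc3_val, tau_val]
      have eF : Int.add (Int.mul (Int.mul
          (Int.mul (pG (Int.ofNat u0.al) (Int.ofNat u1.al) (Int.ofNat u2.al))
            (pG (Int.ofNat u0.rho) (Int.ofNat u1.rho) (Int.ofNat u2.rho)))
          (Int.mul (dot v s) (dot w s)))
          (Int.mul (Int.mul (p3 (Int.ofNat W0) (Int.ofNat W1) (Int.ofNat W2))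
            (p3 (Int.ofNat W0) (Int.ofNat W1) (Int.ofNat W2)))
            (Int.mul (pT (Int.ofNat t0.V) (Int.ofNat t1.V)) (pT (Int.ofNat t0.V) (Int.ofNat t1.V)))))
        (Int.add (Int.mul (Int.mul (Int.mul (pG (Int.ofNat u0.k) (Int.ofNat u1.k) (Int.ofNat u2.k))
            (pG (Int.ofNat u0.rho) (Int.ofNat u1.rho) (Int.ofNat u2.rho)))
            (Int.mul (dot v (pvF P0 P1 P2)) (dot w (pvF P0 P1 P2))))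
            (Int.mul (pT (Int.ofNat t0.V) (Int.ofNat t1.V)) (pT (Int.ofNat t0.V) (Int.ofNat t1.V))))
          (Int.mul (Int.mul (pG (Int.ofNat u0.k) (Int.ofNat u1.k) (Int.ofNat u2.k))
            (pG (Int.ofNat u0.al) (Int.ofNat u1.al) (Int.ofNat u2.al)))
            (Int.mul (yz (pT (Int.ofNat t0.V) (Int.ofNat t1.V)) (pT t0.T t1.T)
              (dot v (pvF Q0 Q1 Q2)) (dot v (pvF P0 P1 P2)))
            (yz (pT (Int.ofNat t0.V) (Int.ofNat t1.V)) (pT t0.T t1.T)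
              (dot w (pvF Q0 Q1 Q2)) (dot w (pvF P0 P1 P2)))))) =
        ((pG (u0.al : ℤ) u1.al u2.al * pG (u0.rho : ℤ) u1.rho u2.rho) * (dot v s * dot w s)) *
          ((p3 (W0 : ℤ) W1 W2 * p3 (W0 : ℤ) W1 W2) *
            (pT (t0.V : ℤ) t1.V * pT (t0.V : ℤ) t1.V)) +
        (((pG (u0.k : ℤ) u1.k u2.k * pG (u0.rho : ℤ) u1.rho u2.rho) *
          (dot v (pvF P0 P1 P2) * dot w (pvF P0 P1 P2))) *
            (pT (t0.V : ℤ) t1.V * pT (t0.V : ℤ) t1.V) +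
        (pG (u0.k : ℤ) u1.k u2.k * pG (u0.al : ℤ) u1.al u2.al) *
          ((pT (t0.V : ℤ) t1.V * dot v (pvF Q0 Q1 Q2) - pT t0.T t1.T * dot v (pvF P0 P1 P2)) *
          (pT (t0.V : ℤ) t1.V * dot w (pvF Q0 Q1 Q2) - pT t0.T t1.T * dot w (pvF P0 P1 P2)))) :=
        rfl
      rw [eF, ← hS]
      simp only [pG_eq, p3_eq, pT_eq, dot_pvF]
      have e1 : ∀ t : ℤ, YZ.val t = ((((t0.V : ℤ) + t1.V * t ^ 7) * (dot v Q0 + dot v Q1 * t +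
          dot v Q2 * t ^ 3) - (t0.T + t1.T * t ^ 7) * (dot v P0 + dot v P1 * t +
          dot v P2 * t ^ 3)) * (((t0.V : ℤ) + t1.V * t ^ 7) * (dot w Q0 + dot w Q1 * t +
          dot w Q2 * t ^ 3) - (t0.T + t1.T * t ^ 7) * (dot w P0 + dot w P1 * t +
          dot w P2 * t ^ 3))) := by
        intro t
        rw [hYZ, bt_val]
        congr 1 <;> ring
      have e2 : ∀ t : ℤ, ((t0.V : ℤ) + t1.V * t ^ 7) * ((t0.V : ℤ) + t1.V * t ^ 7) =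
          v0 + v1 * t ^ 7 + v2 * t ^ 14 := by
        intro t
        rw [hv0, hv1, hv2]
        ring
      have e3 : ∀ t : ℤ, (dot v P0 + dot v P1 * t + dot v P2 * t ^ 3) * (dot w P0 + dot w P1 * t +
          dot w P2 * t ^ 3) = AB.val t := by
        intro t
        rw [hAB, tri_val]
      have e4 : ∀ t : ℤ, ((W0 : ℤ) + W1 * t + W2 * t ^ 3) * ((W0 : ℤ) + W1 * t + W2 * t ^ 3) =
          WD.val t := by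
        intro t
        rw [hWD, tri_val]
      rw [← e1, e2, e3, e4]
      generalize (2 ^ 256 : ℤ) = t
      rw [comb_q])
  obtain ⟨r0, r1, r2, r3, r4, r6⟩ := key
  have E := fun (X : D18) (hX : X.all (0 ≤ ·)) => ev18_nonneg hm.pm0 hm.pm1 hm.pm2 hm.pn0 hm.pn1 hX
  have q0 := mul_nonneg (mul_nonneg hm.pw0 hm.pw0) (E _ r0)
  have q1 := mul_nonneg (mul_nonneg hm.pw0 hm.pw1) (E _ r1)
  have q2 := mul_nonneg (mul_nonneg hm.pw1 hm.pw1) (E _ r2)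
  have q3 := mul_nonneg (mul_nonneg hm.pw0 hm.pw2) (E _ r3)
  have q4 := mul_nonneg (mul_nonneg hm.pw1 hm.pw2) (E _ r4)
  have q6 := mul_nonneg (mul_nonneg hm.pw2 hm.pw2) (E _ r6)
  simp only [lc3_ev, tau_ev] at q0 q1 q2 q3 q4 q6
  -- real values
  have eV : ((v0 : ℤ) : ℝ) * (n0 * n0) + v1 * (n0 * n1) + v2 * (n1 * n1) = 1 := by
    rw [hv0, hv1, hv2]
    push_cast
    have := hm.hV
    calc _ = (n0 * (t0.V : ℝ) + n1 * (t1.V : ℝ)) ^ 2 := by ring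
      _ = 1 := by rw [this]; norm_num
  have eW : WD.ev m0 m1 m2 = 1 := by
    rw [hWD, tri_ev]
    push_cast
    rw [hm.hW]
    norm_num
  have ePv : ∀ v : V4, vR v ⬝ᵥ P = m0 * (dot v P0 : ℤ) + m1 * (dot v P1 : ℤ) + m2 * (dot v P2 : ℤ) := by
    intro v
    rw [dot_eq, dot_eq, dot_eq]
    exact dot_comb _ hP
  have eQv : ∀ v : V4, vR v ⬝ᵥ Q = m0 * (dot v Q0 : ℤ) + m1 * (dot v Q1 : ℤ) + m2 * (dot v Q2 : ℤ) := by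
    intro v
    rw [dot_eq, dot_eq, dot_eq]
    exact dot_comb _ hQ
  have eA : AB.ev m0 m1 m2 = (vR v ⬝ᵥ P) * (vR w ⬝ᵥ P) := by
    rw [hAB, tri_ev, ePv, ePv]
  have eY : YZ.ev m0 m1 m2 n0 n1 = (vR v ⬝ᵥ Q - tt * (vR v ⬝ᵥ P)) *
      (vR w ⬝ᵥ Q - tt * (vR w ⬝ᵥ P)) := by
    have h2 : ∀ z : ℝ, z = (n0 * (t0.V : ℝ) + n1 * (t1.V : ℝ)) * z := fun z => by
      rw [hm.hV, one_mul]
    rw [hYZ, bt_ev, h2 (vR v ⬝ᵥ Q), h2 (vR w ⬝ᵥ Q), hm.hT, ePv, ePv, eQv, eQv]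
    push_cast
    congr 1 <;> ring
  have eS : ((S : ℤ) : ℝ) = (vR v ⬝ᵥ vR s) * (vR w ⬝ᵥ vR s) := by
    rw [hS, ← dot_eq, ← dot_eq]
    push_cast
    ring
  rw [eV, eW, eA, eY] at q0 q1 q2 q3 q4 q6
  push_cast at q0 q1 q2 q3 q4 q6
  rw [eS] at q0 q1 q2 q3 q4 q6
  rw [hm.hk, hm.hA, hm.hr]
  refine le_of_le_of_eq (add_nonneg (add_nonneg (add_nonneg (add_nonneg (add_nonneg q0 q1) q2) q3)
    q4) q6) ?_
  ring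

end Pool.Agent.TET.Cvr
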