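import Pool.Agent.Helper37_TET.FlC

/-!
# MP_c7c9bf_co: the flag chart, linear conditions
-/

set_option autoImplicit false

namespace Pool.Agent.TET.Cvr

def zE : D18 := ⟨zD, zD, zD⟩

theorem zE_val (t : ℤ) : zE.val t = 0 := by
  unfold zE D18.val
  simp only [zD_val]
  ring

theorem zE_bd : zE.all (|·| < 2 ^ 255) := by
  unfold zE D18.all zD D6.all
  norm_num

theorem comb_l (t M VV N MM WW S k0 k1 k2 a0 a1 a2 r0 r1 r2 : ℤ) (hM : M = 0) :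
    ((k0 + k1 * t ^ 21 + k2 * (t ^ 21) ^ 3) * N) * VV +
      (((a0 + a1 * t ^ 21 + a2 * (t ^ 21) ^ 3) * MM) * WW +
      ((r0 + r1 * t ^ 21 + r2 * (t ^ 21) ^ 3) * S) * (WW * VV)) =
    (k0 * (VV * N) + a0 * (MM * WW) + (r0 * S) * (VV * WW)) +
    t ^ 21 * (k1 * (VV * N) + a1 * (MM * WW) + (r1 * S) * (VV * WW)) + t ^ 42 * M +
    t ^ 63 * (k2 * (VV * N) + a2 * (MM * WW) + (r2 * S) * (VV * WW)) + t ^ 84 * M +
    t ^ 126 * M := by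
  rw [hM]
  ring

theorem linF_real {m f d e N0 N1 N2 : V4} {W0 W1 W2 : ℕ} {t0 t1 : Te} {u0 u1 u2 : G3}
    (hm' : vle m (2 ^ 15)) (hf : vle f (2 ^ 15)) (hd : vle d 1) (he : vle e 1)
    (hn0 : vle N0 (2 ^ 35)) (hn1 : vle N1 (2 ^ 35)) (hn2 : vle N2 (2 ^ 35))
    (hW0 : (W0 : ℤ) ≤ 2 ^ 34)
    (hW1 : (W1 : ℤ) ≤ 2 ^ 34) (hW2 : (W2 : ℤ) ≤ 2 ^ 34) (ht0 : TeS t0) (ht1 : TeS t1)
    (hu0 : G3S u0) (hu1 : G3S u1) (hu2 : G3S u2)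
    (h : linF m f (pvF N0 N1 N2) d e
      (pG (Int.ofNat u0.k) (Int.ofNat u1.k) (Int.ofNat u2.k))
      (pG (Int.ofNat u0.al) (Int.ofNat u1.al) (Int.ofNat u2.al))
      (pG (Int.ofNat u0.rho) (Int.ofNat u1.rho) (Int.ofNat u2.rho))
      (Int.mul (p3 (Int.ofNat W0) (Int.ofNat W1) (Int.ofNat W2))
        (p3 (Int.ofNat W0) (Int.ofNat W1) (Int.ofNat W2)))
      (pT (Int.ofNat t0.V) (Int.ofNat t1.V)) (pT t0.T t1.T)
      (Int.mul (pT (Int.ofNat t0.V) (Int.ofNat t1.V)) (pT (Int.ofNat t0.V) (Int.ofNat t1.V))) = true)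
    {tt k A rho m0 m1 m2 n0 n1 w0 w1 w2 : ℝ}
    (hm : Wt W0 W1 W2 t0 t1 u0 u1 u2 tt k A rho m0 m1 m2 n0 n1 w0 w1 w2) {n : Fin 4 → ℝ}
    (hn : n = m0 • vR N0 + m1 • vR N1 + m2 • vR N2) :
    0 ≤ k * ((vR m ⬝ᵥ n) * (vR f ⬝ᵥ n)) +
      A * ((vR m ⬝ᵥ vR d + tt * (vR m ⬝ᵥ vR e)) * (vR f ⬝ᵥ vR d + tt * (vR f ⬝ᵥ vR e))) +
      rho * ((vR m ⬝ᵥ vR e) * (vR f ⬝ᵥ vR e)) := by
  -- integers
  obtain ⟨md, hmd⟩ : ∃ S, S = dot m d := ⟨_, rfl⟩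
  obtain ⟨me, hme⟩ : ∃ S, S = dot m e := ⟨_, rfl⟩
  obtain ⟨fd, hfd⟩ : ∃ S, S = dot f d := ⟨_, rfl⟩
  obtain ⟨fe, hfe⟩ : ∃ S, S = dot f e := ⟨_, rfl⟩
  have bmd : |md| ≤ 2 ^ 17 := by
    rw [hmd]
    exact (dot_bd hm' hd).trans (by norm_num)
  have bme : |me| ≤ 2 ^ 17 := by
    rw [hme]
    exact (dot_bd hm' he).trans (by norm_num)
  have bfd : |fd| ≤ 2 ^ 17 := by
    rw [hfd]
    exact (dot_bd hf hd).trans (by norm_num)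
  have bfe : |fe| ≤ 2 ^ 17 := by
    rw [hfe]
    exact (dot_bd hf he).trans (by norm_num)
  obtain ⟨S, hS⟩ : ∃ S, S = me * fe := ⟨_, rfl⟩
  have bS : |S| ≤ 2 ^ 34 := by
    rw [hS]
    exact (mul_bd bme bfe).trans (by norm_num)
  have hdd : ∀ x y : V4, vle x (2 ^ 15) → vle y (2 ^ 35) → |dot x y| ≤ 2 ^ 52 := fun x y h1 h2 =>
    (dot_bd h1 h2).trans (by norm_num)
  have hWa : ∀ W : ℕ, (W : ℤ) ≤ 2 ^ 34 → |(W : ℤ)| ≤ 2 ^ 34 := fun W h => by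
    rw [Nat.abs_cast]
    exact h
  obtain ⟨WD, hWD⟩ : ∃ V, V = tri (W0 : ℤ) W1 W2 W0 W1 W2 := ⟨_, rfl⟩
  obtain ⟨NN, hNN⟩ : ∃ V, V = tri (dot m N0) (dot m N1) (dot m N2) (dot f N0) (dot f N1)
    (dot f N2) := ⟨_, rfl⟩
  obtain ⟨v0, hv0⟩ : ∃ z : ℤ, z = (t0.V : ℤ) * t0.V := ⟨_, rfl⟩
  obtain ⟨v1, hv1⟩ : ∃ z : ℤ, z = (t0.V : ℤ) * t1.V + t1.V * t0.V := ⟨_, rfl⟩
  obtain ⟨v2, hv2⟩ : ∃ z : ℤ, z = (t1.V : ℤ) * t1.V := ⟨_, rfl⟩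
  obtain ⟨c0, hc0⟩ : ∃ z : ℤ, z = (t0.V * md + t0.T * me) * (t0.V * fd + t0.T * fe) := ⟨_, rfl⟩
  obtain ⟨c1, hc1⟩ : ∃ z : ℤ, z = (t0.V * md + t0.T * me) * (t1.V * fd + t1.T * fe) +
    (t1.V * md + t1.T * me) * (t0.V * fd + t0.T * fe) := ⟨_, rfl⟩
  obtain ⟨c2, hc2⟩ : ∃ z : ℤ, z = (t1.V * md + t1.T * me) * (t1.V * fd + t1.T * fe) := ⟨_, rfl⟩
  have bW : WD.all (|·| ≤ 2 ^ 69) := by
    rw [hWD]
    exact all_mono (tri_bd (hWa _ hW0) (hWa _ hW1) (hWa _ hW2) (hWa _ hW0) (hWa _ hW1)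
      (hWa _ hW2)) (by norm_num)
  have bN : NN.all (|·| ≤ 2 ^ 105) := by
    rw [hNN]
    exact all_mono (tri_bd (hdd _ _ hm' hn0) (hdd _ _ hm' hn1) (hdd _ _ hm' hn2) (hdd _ _ hf hn0)
      (hdd _ _ hf hn1) (hdd _ _ hf hn2)) (by norm_num)
  have bv0 : |v0| ≤ 2 ^ 49 := by
    rw [hv0]
    exact (mul_bd ht0.V ht0.V).trans (by norm_num)
  have bv1 : |v1| ≤ 2 ^ 49 := by
    rw [hv1]
    exact (add_bd (mul_bd ht0.V ht1.V) (mul_bd ht1.V ht0.V)).trans (by norm_num)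
  have bv2 : |v2| ≤ 2 ^ 49 := by
    rw [hv2]
    exact (mul_bd ht1.V ht1.V).trans (by norm_num)
  have by' : ∀ (t : Te) (x y : ℤ), TeS t → |x| ≤ 2 ^ 17 → |y| ≤ 2 ^ 17 →
      |(t.V : ℤ) * x + t.T * y| ≤ 2 ^ 42 := fun t x y ht hx hy =>
    (add_bd (mul_bd ht.V hx) (mul_bd ht.T hy)).trans (by norm_num)
  have bc0 : |c0| ≤ 2 ^ 85 := by
    rw [hc0]
    exact (mul_bd (by' _ _ _ ht0 bmd bme) (by' _ _ _ ht0 bfd bfe)).trans (by norm_num)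
  have bc1 : |c1| ≤ 2 ^ 85 := by
    rw [hc1]
    exact (add_bd (mul_bd (by' _ _ _ ht0 bmd bme) (by' _ _ _ ht1 bfd bfe))
      (mul_bd (by' _ _ _ ht1 bmd bme) (by' _ _ _ ht0 bfd bfe))).trans (by norm_num)
  have bc2 : |c2| ≤ 2 ^ 85 := by
    rw [hc2]
    exact (mul_bd (by' _ _ _ ht1 bmd bme) (by' _ _ _ ht1 bfd bfe)).trans (by norm_num)
  have bX := tau_bd bv0 bv1 bv2 bN
  have bB := tau_bd bc0 bc1 bc2 bW
  have bY := tau_bd bv0 bv1 bv2 bW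
  have bd : ∀ u : G3, G3S u → (lc3 u.k u.al (u.rho * S) (tau v0 v1 v2 NN) (tau c0 c1 c2 WD)
      (tau v0 v1 v2 WD)).all (|·| < 2 ^ 255) :=
    fun u hu => lc3_bd hu.k hu.al (mul_bd hu.rho bS) bX bB bY (by norm_num)
  have key := tstF_dig h (bd u0 hu0) (bd u1 hu1) zE_bd (bd u2 hu2) zE_bd zE_bd
    (by
      rw [digF_val]
      simp only [lc3_val, tau_val, zE_val]
      have eF : Int.add (Int.mul (Int.mul (pG (Int.ofNat u0.k) (Int.ofNat u1.k) (Int.ofNat u2.k))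
          (Int.mul (dot m (pvF N0 N1 N2)) (dot f (pvF N0 N1 N2))))
          (Int.mul (pT (Int.ofNat t0.V) (Int.ofNat t1.V)) (pT (Int.ofNat t0.V) (Int.ofNat t1.V))))
        (Int.add (Int.mul (Int.mul (pG (Int.ofNat u0.al) (Int.ofNat u1.al) (Int.ofNat u2.al))
          (Int.mul (yp (pT (Int.ofNat t0.V) (Int.ofNat t1.V)) (pT t0.T t1.T) (dot m d) (dot m e))
            (yp (pT (Int.ofNat t0.V) (Int.ofNat t1.V)) (pT t0.T t1.T) (dot f d) (dot f e))))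
          (Int.mul (p3 (Int.ofNat W0) (Int.ofNat W1) (Int.ofNat W2))
            (p3 (Int.ofNat W0) (Int.ofNat W1) (Int.ofNat W2))))
        (Int.mul (Int.mul (pG (Int.ofNat u0.rho) (Int.ofNat u1.rho) (Int.ofNat u2.rho))
          (Int.mul (dot m e) (dot f e)))
          (Int.mul (Int.mul (p3 (Int.ofNat W0) (Int.ofNat W1) (Int.ofNat W2))
            (p3 (Int.ofNat W0) (Int.ofNat W1) (Int.ofNat W2)))
            (Int.mul (pT (Int.ofNat t0.V) (Int.ofNat t1.V))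
              (pT (Int.ofNat t0.V) (Int.ofNat t1.V)))))) =
        (pG (u0.k : ℤ) u1.k u2.k * (dot m (pvF N0 N1 N2) * dot f (pvF N0 N1 N2))) *
          (pT (t0.V : ℤ) t1.V * pT (t0.V : ℤ) t1.V) +
        ((pG (u0.al : ℤ) u1.al u2.al *
          ((pT (t0.V : ℤ) t1.V * dot m d + pT t0.T t1.T * dot m e) *
          (pT (t0.V : ℤ) t1.V * dot f d + pT t0.T t1.T * dot f e))) *
          (p3 (W0 : ℤ) W1 W2 * p3 (W0 : ℤ) W1 W2) +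
        (pG (u0.rho : ℤ) u1.rho u2.rho * (dot m e * dot f e)) *
          ((p3 (W0 : ℤ) W1 W2 * p3 (W0 : ℤ) W1 W2) *
            (pT (t0.V : ℤ) t1.V * pT (t0.V : ℤ) t1.V))) :=
        rfl
      rw [eF, ← hmd, ← hme, ← hfd, ← hfe, ← hS]
      simp only [pG_eq, p3_eq, pT_eq, dot_pvF]
      have e1 : ∀ t : ℤ, ((((t0.V : ℤ) + t1.V * t ^ 7) * md + (t0.T + t1.T * t ^ 7) * me) *
          (((t0.V : ℤ) + t1.V * t ^ 7) * fd + (t0.T + t1.T * t ^ 7) * fe)) =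
          c0 + c1 * t ^ 7 + c2 * t ^ 14 := by
        intro t
        rw [hc0, hc1, hc2]
        ring
      have e2 : ∀ t : ℤ, ((t0.V : ℤ) + t1.V * t ^ 7) * ((t0.V : ℤ) + t1.V * t ^ 7) =
          v0 + v1 * t ^ 7 + v2 * t ^ 14 := by
        intro t
        rw [hv0, hv1, hv2]
        ring
      have e3 : ∀ t : ℤ, (dot m N0 + dot m N1 * t + dot m N2 * t ^ 3) * (dot f N0 + dot f N1 * t +
          dot f N2 * t ^ 3) = NN.val t := by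
        intro t
        rw [hNN, tri_val]
      have e4 : ∀ t : ℤ, ((W0 : ℤ) + W1 * t + W2 * t ^ 3) * ((W0 : ℤ) + W1 * t + W2 * t ^ 3) =
          WD.val t := by
        intro t
        rw [hWD, tri_val]
      rw [e1, e2, e3, e4]
      generalize (2 ^ 256 : ℤ) = t
      rw [comb_l t 0 _ _ _ _ _ _ _ _ _ _ _ _ _ _ rfl])
  obtain ⟨r0, r1, -, r3, -, -⟩ := key
  have E := fun (X : D18) (hX : X.all (0 ≤ ·)) => ev18_nonneg hm.pm0 hm.pm1 hm.pm2 hm.pn0 hm.pn1 hX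
  have q0 := mul_nonneg hm.pw0 (E _ r0)
  have q1 := mul_nonneg hm.pw1 (E _ r1)
  have q2 := mul_nonneg hm.pw2 (E _ r3)
  simp only [lc3_ev, tau_ev] at q0 q1 q2
  -- real values
  have eV : ((v0 : ℤ) : ℝ) * (n0 * n0) + v1 * (n0 * n1) + v2 * (n1 * n1) = 1 := by
    rw [hv0, hv1, hv2]
    push_cast
    have := hm.hV
    calc _ = (n0 * (t0.V : ℝ) + n1 * (t1.V : ℝ)) ^ 2 := by ring
      _ = 1 := by rw [this]; norm_num
  have eW : WD.ev m0 m1 m2 = 1 := by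
    rw [hWD, tri_ev]
    push_cast
    rw [hm.hW]
    norm_num
  have eNv : ∀ v : V4, vR v ⬝ᵥ n = m0 * (dot v N0 : ℤ) + m1 * (dot v N1 : ℤ) + m2 * (dot v N2 : ℤ) := by
    intro v
    rw [dot_eq, dot_eq, dot_eq]
    exact dot_comb _ hn
  have eN : NN.ev m0 m1 m2 = (vR m ⬝ᵥ n) * (vR f ⬝ᵥ n) := by
    rw [hNN, tri_ev, eNv, eNv]
  have eC : ((c0 : ℤ) : ℝ) * (n0 * n0) + c1 * (n0 * n1) + c2 * (n1 * n1) =
      (md + tt * me) * (fd + tt * fe) := by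
    have h2 : ∀ z : ℝ, z = (n0 * (t0.V : ℝ) + n1 * (t1.V : ℝ)) * z := fun z => by
      rw [hm.hV, one_mul]
    rw [hc0, hc1, hc2, h2 (md : ℝ), h2 (fd : ℝ), hm.hT]
    push_cast
    ring
  have eS : ((S : ℤ) : ℝ) = me * fe := by
    rw [hS]
    push_cast
    ring
  rw [eV, eW, eN, eC] at q0 q1 q2
  push_cast at q0 q1 q2
  rw [eS] at q0 q1 q2
  have f1 : (md : ℝ) = vR m ⬝ᵥ vR d := by rw [hmd, dot_eq]
  have f2 : (me : ℝ) = vR m ⬝ᵥ vR e := by rw [hme, dot_eq]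
  have f3 : (fd : ℝ) = vR f ⬝ᵥ vR d := by rw [hfd, dot_eq]
  have f4 : (fe : ℝ) = vR f ⬝ᵥ vR e := by rw [hfe, dot_eq]
  rw [hm.hk, hm.hA, hm.hr, ← f1, ← f2, ← f3, ← f4]
  refine le_of_le_of_eq (add_nonneg (add_nonneg q0 q1) q2) ?_
  ring

end Pool.Agent.TET.Cvr
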