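import Pool.Agent.Helper37_TET.FlD

/-!
# MP_c7c9bf_co: the flag chart, leaves
-/

set_option autoImplicit false

namespace Pool.Agent.TET.Cvr

/-- the base triangle -/
def Bm (p0 p1 p2 : Pt) (x y : ℝ) : Prop :=
  ∃ m0 m1 m2 : ℝ, 0 ≤ m0 ∧ 0 ≤ m1 ∧ 0 ≤ m2 ∧ m0 * p0.W + m1 * p1.W + m2 * p2.W = 1 ∧
    x = m0 * p0.X + m1 * p1.X + m2 * p2.X ∧ y = m0 * p0.Y + m1 * p1.Y + m2 * p2.Y

/-- the interval -/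
def Tm (t0 t1 : Te) (tt : ℝ) : Prop :=
  ∃ n0 n1 : ℝ, 0 ≤ n0 ∧ 0 ≤ n1 ∧ n0 * t0.V + n1 * t1.V = 1 ∧ tt = n0 * t0.T + n1 * t1.T

/-- the cone -/
def Cm (u0 u1 u2 : G3) (k A rho : ℝ) : Prop :=
  ∃ w0 w1 w2 : ℝ, 0 ≤ w0 ∧ 0 ≤ w1 ∧ 0 ≤ w2 ∧ k = w0 * u0.k + w1 * u1.k + w2 * u2.k ∧
    A = w0 * u0.al + w1 * u1.al + w2 * u2.al ∧ rho = w0 * u0.rho + w1 * u1.rho + w2 * u2.rho

/-- a point of a cell of the flag chart -/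
structure MemF (s : SF) (x y k A rho tt : ℝ) : Prop where
  b : Bm s.p0 s.p1 s.p2 x y
  t : Tm s.t0 s.t1 tt
  c : Cm s.u0 s.u1 s.u2 k A rho

/-- the domain of the flag chart -/
structure DomF (k A rho tt : ℝ) : Prop where
  kp : 0 < k
  ap : 0 < A
  rp : 0 < rho
  le : rho ≤ A * (1 - tt ^ 2)

/-- the coefficient of `d dᵀ` -/
noncomputable def alF (c : ℕ) (A rho tt : ℝ) : ℝ :=
  Nat.rec (motive := fun _ => ℝ) A (fun _ _ => rho + A * tt ^ 2) c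

/-- the coefficient of `e eᵀ` -/
noncomputable def beF (c : ℕ) (A rho tt : ℝ) : ℝ :=
  Nat.rec (motive := fun _ => ℝ) (rho + A * tt ^ 2) (fun _ _ => A) c

theorem blt_lt {a b : ℕ} (h : Nat.blt a b = true) : a < b := by
  unfold Nat.blt at h
  exact Nat.lt_of_succ_le (Nat.le_of_ble_eq_true h)

theorem leafF_sound {c : ℕ} {T : List (List Cd)} {R s0 s1 s2 s3 : ℕ} {s : SF}
    (hT : tabB T = true) (h : leafF c T R s0 s1 s2 s3 s = true) {x y k A rho tt : ℝ}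
    (hm : MemF s x y k A rho tt) :
    Cvd 1 T x y k (alF c A rho tt) (beF c A rho tt) (A * tt) := by
  unfold leafF at h
  simp only [bAnd] at h
  obtain ⟨⟨hst, hp, hR⟩, hl⟩ := h
  unfold sfB at hst
  simp only [bAnd] at hst
  obtain ⟨⟨c0, c1, c2⟩, ⟨b0, b1⟩, g0, g1, g2⟩ := hst
  obtain ⟨X0, Y0, V0⟩ := ptB_S c0
  obtain ⟨X1, Y1, V1⟩ := ptB_S c1
  obtain ⟨X2, Y2, V2⟩ := ptB_S c2
  have k0 := g3B_S g0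
  have k1 := g3B_S g1
  have k2 := g3B_S g2
  have e0 := teB_S b0
  have e1 := teB_S b1
  have hR' := blt_lt hR
  have hmem := nth_mem [] T R hR'
  have hB := tabB_le hT _ hmem
  obtain ⟨h0, h1, h2, h3, qa, qb, qc, qd, qe, qf⟩ := isP_iff hp
  obtain ⟨⟨m0, m1, m2, pm0, pm1, pm2, hW, hx, hy⟩, ⟨n0, n1, pn0, pn1, hV, hTT⟩,
    w0, w1, w2, pw0, pw1, pw2, hk, hA, hr⟩ := hm
  have wt : Wt s.p0.W s.p1.W s.p2.W s.t0 s.t1 s.u0 s.u1 s.u2 tt k A rho m0 m1 m2 n0 n1 w0 w1 w2 :=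
    ⟨pm0, pm1, pm2, pn0, pn1, pw0, pw1, pw2, hW, hV, hTT, hk, hA, hr⟩
  refine ⟨nth [] T R, hmem, sg s0 s1 s2 s3 h0 h1 h2 h3, sg_inj h0 h1 h2 h3 qa qb qc qd qe qf, ?_⟩
  unfold leafQF at hl
  rw [allL_iff] at hl
  obtain ⟨σ, hσ⟩ : ∃ σ, σ = sg s0 s1 s2 s3 h0 h1 h2 h3 := ⟨_, rfl⟩
  have hn : nR 1 x y ∘ σ = m0 • vR (prm s0 s1 s2 s3 (nC 1 s.p0.W s.p0.X s.p0.Y)) +
      m1 • vR (prm s0 s1 s2 s3 (nC 1 s.p1.W s.p1.X s.p1.Y)) +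
      m2 • vR (prm s0 s1 s2 s3 (nC 1 s.p2.W s.p2.X s.p2.Y)) := by
    rw [vR_prm _ h0 h1 h2 h3, vR_prm _ h0 h1 h2 h3, vR_prm _ h0 h1 h2 h3, ← hσ]
    exact comp_comb _ (n_comb hW hx hy)
  have hP : pR 1 x ∘ σ = m0 • vR (prm s0 s1 s2 s3 (pC 1 s.p0.W s.p0.X)) +
      m1 • vR (prm s0 s1 s2 s3 (pC 1 s.p1.W s.p1.X)) +
      m2 • vR (prm s0 s1 s2 s3 (pC 1 s.p2.W s.p2.X)) := by
    rw [vR_prm _ h0 h1 h2 h3, vR_prm _ h0 h1 h2 h3, vR_prm _ h0 h1 h2 h3, ← hσ]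
    exact comp_comb _ (p_comb hW hx)
  have hQ : qR 1 y ∘ σ = m0 • vR (prm s0 s1 s2 s3 (qC 1 s.p0.W s.p0.Y)) +
      m1 • vR (prm s0 s1 s2 s3 (qC 1 s.p1.W s.p1.Y)) +
      m2 • vR (prm s0 s1 s2 s3 (qC 1 s.p2.W s.p2.Y)) := by
    rw [vR_prm _ h0 h1 h2 h3, vR_prm _ h0 h1 h2 h3, vR_prm _ h0 h1 h2 h3, ← hσ]
    exact comp_comb _ (q_comb hW hy)
  have hdd : vR (prm s0 s1 s2 s3 dC) = dR ∘ σ := by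
    rw [vR_prm _ h0 h1 h2 h3, ← hσ]
    exact comp_sc _ d_sc
  have hee : vR (prm s0 s1 s2 s3 (eC 1)) = eR 1 ∘ σ := by
    rw [vR_prm _ h0 h1 h2 h3, ← hσ]
    exact comp_sc _ (e_sc 1)
  have hss : vR (prm s0 s1 s2 s3 (sC 1)) = sR 1 ∘ σ := by
    rw [vR_prm _ h0 h1 h2 h3, ← hσ]
    exact comp_sc _ (s_sc 1)
  rw [← hσ]
  intro cd hcd
  have hc := hl cd hcd
  have hb := hB cd hcd
  cases cd with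
  | l m f =>
    have h3 : Bool.and (vB m) (vB f) = true := hb
    rw [bAnd] at h3
    cases c with
    | zero =>
      have h4 : linF m f (prm s0 s1 s2 s3 (pvF (nC 1 s.p0.W s.p0.X s.p0.Y)
          (nC 1 s.p1.W s.p1.X s.p1.Y) (nC 1 s.p2.W s.p2.X s.p2.Y)))
        (prm s0 s1 s2 s3 dC) (prm s0 s1 s2 s3 (eC 1)) _ _ _ _ _ _ _ = true := hc
      rw [prm_pvF] at h4
      have h5 := linF_real (vB_le h3.1) (vB_le h3.2) (prm_vle dC_vle ..) (prm_vle (eC_vle 1) ..)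
        (prm_vle (nC_vle V0 X0 Y0) ..) (prm_vle (nC_vle V1 X1 Y1) ..)
        (prm_vle (nC_vle V2 X2 Y2) ..) V0 V1 V2 e0 e1 k0 k1 k2 h4 wt hn
      rw [hdd, hee] at h5
      show 0 ≤ k * ((vR m ⬝ᵥ (nR 1 x y ∘ σ)) * (vR f ⬝ᵥ (nR 1 x y ∘ σ))) +
        A * ((vR m ⬝ᵥ (dR ∘ σ)) * (vR f ⬝ᵥ (dR ∘ σ))) +
        (rho + A * tt ^ 2) * ((vR m ⬝ᵥ (eR 1 ∘ σ)) * (vR f ⬝ᵥ (eR 1 ∘ σ))) +
        A * tt * ((vR m ⬝ᵥ (dR ∘ σ)) * (vR f ⬝ᵥ (eR 1 ∘ σ)) +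
          (vR m ⬝ᵥ (eR 1 ∘ σ)) * (vR f ⬝ᵥ (dR ∘ σ)))
      refine le_of_le_of_eq h5 ?_
      ring
    | succ c =>
      have h4 : linF m f (prm s0 s1 s2 s3 (pvF (nC 1 s.p0.W s.p0.X s.p0.Y)
          (nC 1 s.p1.W s.p1.X s.p1.Y) (nC 1 s.p2.W s.p2.X s.p2.Y)))
        (prm s0 s1 s2 s3 (eC 1)) (prm s0 s1 s2 s3 dC) _ _ _ _ _ _ _ = true := hc
      rw [prm_pvF] at h4
      have h5 := linF_real (vB_le h3.1) (vB_le h3.2) (prm_vle (eC_vle 1) ..) (prm_vle dC_vle ..)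
        (prm_vle (nC_vle V0 X0 Y0) ..) (prm_vle (nC_vle V1 X1 Y1) ..)
        (prm_vle (nC_vle V2 X2 Y2) ..) V0 V1 V2 e0 e1 k0 k1 k2 h4 wt hn
      rw [hdd, hee] at h5
      show 0 ≤ k * ((vR m ⬝ᵥ (nR 1 x y ∘ σ)) * (vR f ⬝ᵥ (nR 1 x y ∘ σ))) +
        (rho + A * tt ^ 2) * ((vR m ⬝ᵥ (dR ∘ σ)) * (vR f ⬝ᵥ (dR ∘ σ))) +
        A * ((vR m ⬝ᵥ (eR 1 ∘ σ)) * (vR f ⬝ᵥ (eR 1 ∘ σ))) +
        A * tt * ((vR m ⬝ᵥ (dR ∘ σ)) * (vR f ⬝ᵥ (eR 1 ∘ σ)) +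
          (vR m ⬝ᵥ (eR 1 ∘ σ)) * (vR f ⬝ᵥ (dR ∘ σ)))
      refine le_of_le_of_eq h5 ?_
      ring
  | q v w =>
    have h3 : Bool.and (vB v) (vB w) = true := hb
    rw [bAnd] at h3
    cases c with
    | zero =>
      have h4 : quaF v w (prm s0 s1 s2 s3 (sC 1))
        (prm s0 s1 s2 s3 (pvF (pC 1 s.p0.W s.p0.X) (pC 1 s.p1.W s.p1.X) (pC 1 s.p2.W s.p2.X)))
        (prm s0 s1 s2 s3 (pvF (qC 1 s.p0.W s.p0.Y) (qC 1 s.p1.W s.p1.Y) (qC 1 s.p2.W s.p2.Y)))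
        _ _ _ _ _ _ _ = true := hc
      rw [prm_pvF, prm_pvF] at h4
      have h5 := quaF_real (vB_le h3.1) (vB_le h3.2) (prm_vle (sC_vle 1) ..)
        (prm_vle (pC_vle V0 X0) ..) (prm_vle (pC_vle V1 X1) ..) (prm_vle (pC_vle V2 X2) ..)
        (prm_vle (qC_vle V0 Y0) ..) (prm_vle (qC_vle V1 Y1) ..) (prm_vle (qC_vle V2 Y2) ..)
        V0 V1 V2 e0 e1 k0 k1 k2 h4 wt hP hQ
      rw [hss] at h5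
      show 0 ≤ (A * (rho + A * tt ^ 2) - (A * tt) ^ 2) *
          ((vR v ⬝ᵥ (sR 1 ∘ σ)) * (vR w ⬝ᵥ (sR 1 ∘ σ))) +
        k * ((rho + A * tt ^ 2) * ((vR v ⬝ᵥ (pR 1 x ∘ σ)) * (vR w ⬝ᵥ (pR 1 x ∘ σ))) +
          A * ((vR v ⬝ᵥ (qR 1 y ∘ σ)) * (vR w ⬝ᵥ (qR 1 y ∘ σ))) -
          A * tt * ((vR v ⬝ᵥ (pR 1 x ∘ σ)) * (vR w ⬝ᵥ (qR 1 y ∘ σ)) +
            (vR v ⬝ᵥ (qR 1 y ∘ σ)) * (vR w ⬝ᵥ (pR 1 x ∘ σ))))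
      refine le_of_le_of_eq h5 ?_
      ring
    | succ c =>
      have h4 : quaF v w (prm s0 s1 s2 s3 (sC 1))
        (prm s0 s1 s2 s3 (pvF (qC 1 s.p0.W s.p0.Y) (qC 1 s.p1.W s.p1.Y) (qC 1 s.p2.W s.p2.Y)))
        (prm s0 s1 s2 s3 (pvF (pC 1 s.p0.W s.p0.X) (pC 1 s.p1.W s.p1.X) (pC 1 s.p2.W s.p2.X)))
        _ _ _ _ _ _ _ = true := hc
      rw [prm_pvF, prm_pvF] at h4
      have h5 := quaF_real (vB_le h3.1) (vB_le h3.2) (prm_vle (sC_vle 1) ..)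
        (prm_vle (qC_vle V0 Y0) ..) (prm_vle (qC_vle V1 Y1) ..) (prm_vle (qC_vle V2 Y2) ..)
        (prm_vle (pC_vle V0 X0) ..) (prm_vle (pC_vle V1 X1) ..) (prm_vle (pC_vle V2 X2) ..)
        V0 V1 V2 e0 e1 k0 k1 k2 h4 wt hQ hP
      rw [hss] at h5
      show 0 ≤ ((rho + A * tt ^ 2) * A - (A * tt) ^ 2) *
          ((vR v ⬝ᵥ (sR 1 ∘ σ)) * (vR w ⬝ᵥ (sR 1 ∘ σ))) +
        k * (A * ((vR v ⬝ᵥ (pR 1 x ∘ σ)) * (vR w ⬝ᵥ (pR 1 x ∘ σ))) +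
          (rho + A * tt ^ 2) * ((vR v ⬝ᵥ (qR 1 y ∘ σ)) * (vR w ⬝ᵥ (qR 1 y ∘ σ))) -
          A * tt * ((vR v ⬝ᵥ (pR 1 x ∘ σ)) * (vR w ⬝ᵥ (qR 1 y ∘ σ)) +
            (vR v ⬝ᵥ (qR 1 y ∘ σ)) * (vR w ⬝ᵥ (pR 1 x ∘ σ))))
      refine le_of_le_of_eq h5 ?_
      ring

end Pool.Agent.TET.Cvr
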