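import Pool.Agent.Helper37_TET.FlE

/-!
# MP_c7c9bf_co: the flag chart, splits and trees
-/

set_option autoImplicit false

namespace Pool.Agent.TET.Cvr

/-! ### base splits -/

theorem Bm.rot {p0 p1 p2 : Pt} {x y : ℝ} (h : Bm p0 p1 p2 x y) : Bm p1 p2 p0 x y := by
  obtain ⟨m0, m1, m2, h0, h1, h2, hW, hx, hy⟩ := h
  exact ⟨m1, m2, m0, h1, h2, h0, by linarith, by linarith, by linarith⟩

theorem Bm.split {p0 p1 p2 : Pt} {a b : ℕ} (ha : 1 ≤ a) (hb : 1 ≤ b) {x y : ℝ}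
    (h : Bm p0 p1 p2 x y) : Bm p0 (mid a b p0 p1) p2 x y ∨ Bm (mid a b p0 p1) p1 p2 x y := by
  have hX := mid_X a b p0 p1
  have hY := mid_Y a b p0 p1
  have hW := mid_W a b p0 p1
  have ha' : (0 : ℝ) < (a : ℝ) := Nat.cast_pos.2 ha
  have hb' : (0 : ℝ) < (b : ℝ) := Nat.cast_pos.2 hb
  obtain ⟨m0, m1, m2, h0, h1, h2, hs, hx, hy⟩ := h
  rcases le_total ((a : ℝ) * m1) (b * m0) with hc | hc
  · left
    obtain ⟨t, ht⟩ : ∃ t, t = m1 / b := ⟨_, rfl⟩
    have ht1 : t * b = m1 := by rw [ht]; exact div_mul_cancel₀ _ hb'.ne'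
    have ht0 : 0 ≤ t := by rw [ht]; exact div_nonneg h1 hb'.le
    have hA : 0 ≤ m0 - a * t := by
      have h3 : (a : ℝ) * t * b ≤ m0 * b := by
        rw [mul_assoc, ht1]
        linarith
      have h4 := le_of_mul_le_mul_right h3 hb'
      linarith
    refine ⟨m0 - a * t, t, m2, hA, ht0, h2, ?_, ?_, ?_⟩
    · rw [hW]
      linear_combination hs + (p1.W : ℝ) * ht1
    · rw [hX]
      linear_combination hx - (p1.X : ℝ) * ht1
    · rw [hY]
      linear_combination hy - (p1.Y : ℝ) * ht1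
  · right
    obtain ⟨t, ht⟩ : ∃ t, t = m0 / a := ⟨_, rfl⟩
    have ht1 : t * a = m0 := by rw [ht]; exact div_mul_cancel₀ _ ha'.ne'
    have ht0 : 0 ≤ t := by rw [ht]; exact div_nonneg h0 ha'.le
    have hA : 0 ≤ m1 - b * t := by
      have h3 : (b : ℝ) * t * a ≤ m1 * a := by
        rw [mul_assoc, ht1]
        linarith
      have h4 := le_of_mul_le_mul_right h3 ha'
      linarith
    refine ⟨t, m1 - b * t, m2, ht0, hA, h2, ?_, ?_, ?_⟩
    · rw [hW]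
      linear_combination hs + (p0.W : ℝ) * ht1
    · rw [hX]
      linear_combination hx - (p0.X : ℝ) * ht1
    · rw [hY]
      linear_combination hy - (p0.Y : ℝ) * ht1

theorem base_splitF {s : SF} {r a b : ℕ} (hr : r ≤ 2) (ha : 1 ≤ a) (hb : 1 ≤ b)
    {x y k A rho tt : ℝ} (hm : MemF s x y k A rho tt) :
    MemF (sPF s (nx r) (mid a b (gPF s r) (gPF s (nx r)))) x y k A rho tt ∨
    MemF (sPF s r (mid a b (gPF s r) (gPF s (nx r)))) x y k A rho tt := by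
  obtain ⟨hb', ht, hc⟩ := hm
  have hr' : r = 0 ∨ r = 1 ∨ r = 2 := by omega
  rcases hr' with rfl | rfl | rfl
  · rcases hb'.split ha hb with h | h
    · exact Or.inl ⟨h, ht, hc⟩
    · exact Or.inr ⟨h, ht, hc⟩
  · rcases hb'.rot.split ha hb with h | h
    · exact Or.inl ⟨h.rot.rot, ht, hc⟩
    · exact Or.inr ⟨h.rot.rot, ht, hc⟩
  · rcases hb'.rot.rot.split ha hb with h | h
    · exact Or.inl ⟨h.rot, ht, hc⟩
    · exact Or.inr ⟨h.rot, ht, hc⟩

/-! ### interval splits -/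

theorem tm_T (a b : ℕ) (s t : Te) : ((tm a b s t).T : ℝ) = a * s.T + b * t.T := by
  have h : (tm a b s t).T = (a : ℤ) * s.T + (b : ℤ) * t.T := rfl
  rw [h]
  push_cast
  ring

theorem tm_V (a b : ℕ) (s t : Te) : ((tm a b s t).V : ℝ) = a * s.V + b * t.V := by
  show ((a * s.V + b * t.V : ℕ) : ℝ) = _
  push_cast
  ring

theorem Tm.split {t0 t1 : Te} {a b : ℕ} (ha : 1 ≤ a) (hb : 1 ≤ b) {tt : ℝ} (h : Tm t0 t1 tt) :
    Tm t0 (tm a b t0 t1) tt ∨ Tm (tm a b t0 t1) t1 tt := by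
  have hT := tm_T a b t0 t1
  have hV := tm_V a b t0 t1
  have ha' : (0 : ℝ) < (a : ℝ) := Nat.cast_pos.2 ha
  have hb' : (0 : ℝ) < (b : ℝ) := Nat.cast_pos.2 hb
  obtain ⟨m0, m1, h0, h1, hs, ht⟩ := h
  rcases le_total ((a : ℝ) * m1) (b * m0) with hc | hc
  · left
    obtain ⟨t, ht'⟩ : ∃ t, t = m1 / b := ⟨_, rfl⟩
    have ht1 : t * b = m1 := by rw [ht']; exact div_mul_cancel₀ _ hb'.ne'
    have ht0 : 0 ≤ t := by rw [ht']; exact div_nonneg h1 hb'.le
    have hA : 0 ≤ m0 - a * t := by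
      have h3 : (a : ℝ) * t * b ≤ m0 * b := by
        rw [mul_assoc, ht1]
        linarith
      have h4 := le_of_mul_le_mul_right h3 hb'
      linarith
    refine ⟨m0 - a * t, t, hA, ht0, ?_, ?_⟩
    · rw [hV]
      linear_combination hs + (t1.V : ℝ) * ht1
    · rw [hT]
      linear_combination ht - (t1.T : ℝ) * ht1
  · right
    obtain ⟨t, ht'⟩ : ∃ t, t = m0 / a := ⟨_, rfl⟩
    have ht1 : t * a = m0 := by rw [ht']; exact div_mul_cancel₀ _ ha'.ne'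
    have ht0 : 0 ≤ t := by rw [ht']; exact div_nonneg h0 ha'.le
    have hA : 0 ≤ m1 - b * t := by
      have h3 : (b : ℝ) * t * a ≤ m1 * a := by
        rw [mul_assoc, ht1]
        linarith
      have h4 := le_of_mul_le_mul_right h3 ha'
      linarith
    refine ⟨t, m1 - b * t, ht0, hA, ?_, ?_⟩
    · rw [hV]
      linear_combination hs + (t0.V : ℝ) * ht1
    · rw [hT]
      linear_combination ht - (t0.T : ℝ) * ht1

theorem tau_split {s : SF} {a b : ℕ} (ha : 1 ≤ a) (hb : 1 ≤ b)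
    {x y k A rho tt : ℝ} (hm : MemF s x y k A rho tt) :
    MemF (sT1 s (tm a b s.t0 s.t1)) x y k A rho tt ∨
    MemF (sT0 s (tm a b s.t0 s.t1)) x y k A rho tt := by
  obtain ⟨hb', ht, hc⟩ := hm
  rcases ht.split ha hb with h | h
  · exact Or.inl ⟨hb', h, hc⟩
  · exact Or.inr ⟨hb', h, hc⟩

/-! ### cone splits -/

theorem cm_k (p q : ℕ) (u v : G3) : ((cm p q u v).k : ℝ) = p * u.k + q * v.k := by
  show ((p * u.k + q * v.k : ℕ) : ℝ) = _
  push_cast
  ring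

theorem cm_al (p q : ℕ) (u v : G3) : ((cm p q u v).al : ℝ) = p * u.al + q * v.al := by
  show ((p * u.al + q * v.al : ℕ) : ℝ) = _
  push_cast
  ring

theorem cm_rho (p q : ℕ) (u v : G3) : ((cm p q u v).rho : ℝ) = p * u.rho + q * v.rho := by
  show ((p * u.rho + q * v.rho : ℕ) : ℝ) = _
  push_cast
  ring

theorem Cm.rot {u0 u1 u2 : G3} {k A rho : ℝ} (h : Cm u0 u1 u2 k A rho) : Cm u1 u2 u0 k A rho := by
  obtain ⟨m0, m1, m2, h0, h1, h2, hW, hx, hy⟩ := h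
  exact ⟨m1, m2, m0, h1, h2, h0, by linarith, by linarith, by linarith⟩

theorem Cm.sw {u0 u1 u2 : G3} {k A rho : ℝ} (h : Cm u0 u1 u2 k A rho) : Cm u1 u0 u2 k A rho := by
  obtain ⟨m0, m1, m2, h0, h1, h2, hW, hx, hy⟩ := h
  exact ⟨m1, m0, m2, h1, h0, h2, by linarith, by linarith, by linarith⟩

theorem Cm.split {u0 u1 u2 : G3} {a b : ℕ} (ha : 1 ≤ a) (hb : 1 ≤ b) {k A rho : ℝ}
    (h : Cm u0 u1 u2 k A rho) : Cm u0 (cm a b u0 u1) u2 k A rho ∨ Cm (cm a b u0 u1) u1 u2 k A rho := by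
  have hX := cm_k a b u0 u1
  have hY := cm_al a b u0 u1
  have hW := cm_rho a b u0 u1
  have ha' : (0 : ℝ) < (a : ℝ) := Nat.cast_pos.2 ha
  have hb' : (0 : ℝ) < (b : ℝ) := Nat.cast_pos.2 hb
  obtain ⟨m0, m1, m2, h0, h1, h2, hk, hA', hr⟩ := h
  rcases le_total ((a : ℝ) * m1) (b * m0) with hc | hc
  · left
    obtain ⟨t, ht⟩ : ∃ t, t = m1 / b := ⟨_, rfl⟩
    have ht1 : t * b = m1 := by rw [ht]; exact div_mul_cancel₀ _ hb'.ne'
    have ht0 : 0 ≤ t := by rw [ht]; exact div_nonneg h1 hb'.le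
    have hA : 0 ≤ m0 - a * t := by
      have h3 : (a : ℝ) * t * b ≤ m0 * b := by
        rw [mul_assoc, ht1]
        linarith
      have h4 := le_of_mul_le_mul_right h3 hb'
      linarith
    refine ⟨m0 - a * t, t, m2, hA, ht0, h2, ?_, ?_, ?_⟩
    · rw [hX]
      linear_combination hk - (u1.k : ℝ) * ht1
    · rw [hY]
      linear_combination hA' - (u1.al : ℝ) * ht1
    · rw [hW]
      linear_combination hr - (u1.rho : ℝ) * ht1
  · right
    obtain ⟨t, ht⟩ : ∃ t, t = m0 / a := ⟨_, rfl⟩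
    have ht1 : t * a = m0 := by rw [ht]; exact div_mul_cancel₀ _ ha'.ne'
    have ht0 : 0 ≤ t := by rw [ht]; exact div_nonneg h0 ha'.le
    have hA : 0 ≤ m1 - b * t := by
      have h3 : (b : ℝ) * t * a ≤ m1 * a := by
        rw [mul_assoc, ht1]
        linarith
      have h4 := le_of_mul_le_mul_right h3 ha'
      linarith
    refine ⟨t, m1 - b * t, m2, ht0, hA, h2, ?_, ?_, ?_⟩
    · rw [hX]
      linear_combination hk - (u0.k : ℝ) * ht1
    · rw [hY]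
      linear_combination hA' - (u0.al : ℝ) * ht1
    · rw [hW]
      linear_combination hr - (u0.rho : ℝ) * ht1

theorem cone_splitF {s : SF} {i j a b : ℕ} (hi : i ≤ 2) (hj : j ≤ 2) (hij : i ≠ j) (ha : 1 ≤ a)
    (hb : 1 ≤ b) {x y k A rho tt : ℝ} (hm : MemF s x y k A rho tt) :
    MemF (sUF s j (cm a b (gUF s i) (gUF s j))) x y k A rho tt ∨
    MemF (sUF s i (cm a b (gUF s i) (gUF s j))) x y k A rho tt := by
  obtain ⟨hb', ht, hc⟩ := hm
  have hi' : i = 0 ∨ i = 1 ∨ i = 2 := by omega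
  have hj' : j = 0 ∨ j = 1 ∨ j = 2 := by omega
  rcases hi' with rfl | rfl | rfl <;> rcases hj' with rfl | rfl | rfl
  · exact absurd rfl hij
  · -- 0 1
    rcases hc.split ha hb with h | h
    · exact Or.inl ⟨hb', ht, h⟩
    · exact Or.inr ⟨hb', ht, h⟩
  · -- 0 2 : (u0, u2, u1)
    rcases hc.rot.rot.sw.split ha hb with h | h
    · exact Or.inl ⟨hb', ht, h.sw.rot⟩
    · exact Or.inr ⟨hb', ht, h.sw.rot⟩
  · -- 1 0
    rcases hc.sw.split ha hb with h | h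
    · exact Or.inl ⟨hb', ht, h.sw⟩
    · exact Or.inr ⟨hb', ht, h.sw⟩
  · exact absurd rfl hij
  · -- 1 2
    rcases hc.rot.split ha hb with h | h
    · exact Or.inl ⟨hb', ht, h.rot.rot⟩
    · exact Or.inr ⟨hb', ht, h.rot.rot⟩
  · -- 2 0
    rcases hc.rot.rot.split ha hb with h | h
    · exact Or.inl ⟨hb', ht, h.rot⟩
    · exact Or.inr ⟨hb', ht, h.rot⟩
  · -- 2 1 : (u2, u1, u0)
    rcases hc.rot.sw.split ha hb with h | h
    · exact Or.inl ⟨hb', ht, h.sw.rot.rot⟩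
    · exact Or.inr ⟨hb', ht, h.sw.rot.rot⟩
  · exact absurd rfl hij

/-! ### cells outside of the domain -/

theorem o4p_le {al rho : ℕ} {s t : Te} (h : o4p al rho s t = true) :
    (al : ℝ) * (s.V * t.V - s.T * t.T) + 1 ≤ rho * (s.V * t.V) := by
  have h1 := nn_iff.1 h
  have h2 : (0 : ℤ) ≤ ((rho : ℤ) * ((s.V * t.V : ℕ) : ℤ) - (al : ℤ) * (((s.V * t.V : ℕ) : ℤ) -
    s.T * t.T)) - 1 := h1
  have h3 : ((0 : ℤ) : ℝ) ≤ ((((rho : ℤ) * ((s.V * t.V : ℕ) : ℤ) - (al : ℤ) *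
    (((s.V * t.V : ℕ) : ℤ) - s.T * t.T)) - 1 : ℤ) : ℝ) := Int.cast_le.2 h2
  push_cast at h3
  linarith

/-- one generator: either zero or strictly outside -/
theorem o4g_le {s t : Te} {u : G3} (h : o4g s t u = true) {n0 n1 tt : ℝ} (h0 : 0 ≤ n0)
    (h1 : 0 ≤ n1) (hV : n0 * s.V + n1 * t.V = 1) (ht : tt = n0 * s.T + n1 * t.T) :
    (u.al : ℝ) = 0 ∧ (u.rho : ℝ) = 0 ∨ (u.al : ℝ) * (1 - tt ^ 2) < u.rho := by
  unfold o4g at h
  have h' := (Bool.or_eq_true _ _).mp h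
  rcases h' with h' | h'
  · left
    rw [bAnd] at h'
    have a := Nat.eq_of_beq_eq_true h'.1
    have b := Nat.eq_of_beq_eq_true h'.2
    rw [a, b]
    exact ⟨Nat.cast_zero, Nat.cast_zero⟩
  · right
    simp only [bAnd] at h'
    obtain ⟨a, b, c⟩ := h'
    have a1 := o4p_le a
    have b1 := o4p_le b
    have c1 := o4p_le c
    have key : (u.rho : ℝ) * (n0 * s.V + n1 * t.V) ^ 2 -
        u.al * ((n0 * s.V + n1 * t.V) ^ 2 - (n0 * s.T + n1 * t.T) ^ 2) - (n0 + n1) ^ 2 =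
        n0 * n0 * ((u.rho : ℝ) * (s.V * s.V) - (u.al * (s.V * s.V - s.T * s.T) + 1)) +
        2 * (n0 * n1 * ((u.rho : ℝ) * (s.V * t.V) - (u.al * (s.V * t.V - s.T * t.T) + 1))) +
        n1 * n1 * ((u.rho : ℝ) * (t.V * t.V) - (u.al * (t.V * t.V - t.T * t.T) + 1)) := by
      ring
    have k0 := mul_nonneg (mul_nonneg h0 h0) (sub_nonneg.2 a1)
    have k1 := mul_nonneg (mul_nonneg h0 h1) (sub_nonneg.2 b1)
    have k2 := mul_nonneg (mul_nonneg h1 h1) (sub_nonneg.2 c1)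
    have hpos : 0 < n0 + n1 := by
      rcases h0.eq_or_lt with e | e
      · rcases h1.eq_or_lt with e' | e'
        · rw [← e, ← e'] at hV
          norm_num at hV
        · linarith
      · linarith
    have hpos2 := pow_pos hpos 2
    rw [← ht, hV] at key
    nlinarith

theorem outF_sound {s : SF} (h : outF s = true) {x y k A rho tt : ℝ}
    (hm : MemF s x y k A rho tt) (hd : DomF k A rho tt) : False := by
  unfold outF at h
  simp only [bAnd] at h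
  obtain ⟨a, b, c⟩ := h
  obtain ⟨-, ⟨n0, n1, h0, h1, hV, ht⟩, w0, w1, w2, g0, g1, g2, -, hA, hr⟩ := hm
  have a1 := o4g_le a h0 h1 hV ht
  have b1 := o4g_le b h0 h1 hV ht
  have c1 := o4g_le c h0 h1 hV ht
  obtain ⟨Z, hZ⟩ : ∃ Z, Z = 1 - tt ^ 2 := ⟨_, rfl⟩
  rw [← hZ] at a1 b1 c1
  have hle := hd.le
  rw [← hZ] at hle
  have step : ∀ (w : ℝ) (u : G3), 0 ≤ w →
      ((u.al : ℝ) = 0 ∧ (u.rho : ℝ) = 0 ∨ (u.al : ℝ) * Z < u.rho) →
      0 ≤ w * u.rho - w * u.al * Z ∧ (w * u.rho - w * u.al * Z = 0 → w * u.al = 0) := by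
    intro w u hw hu
    rcases hu with ⟨e1, e2⟩ | hu
    · rw [e1, e2]
      exact ⟨by linarith, fun _ => by ring⟩
    · rcases hw.eq_or_lt with e | e
      · rw [← e]
        exact ⟨by linarith, fun _ => by ring⟩
      · have : 0 < w * (u.rho - u.al * Z) := mul_pos e (by linarith)
        exact ⟨by linarith, fun h => by linarith⟩
  have s0 := step w0 s.u0 g0 a1
  have s1 := step w1 s.u1 g1 b1
  have s2 := step w2 s.u2 g2 c1
  have tot : rho - A * Z = (w0 * s.u0.rho - w0 * s.u0.al * Z) + (w1 * s.u1.rho - w1 * s.u1.al * Z) +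
      (w2 * s.u2.rho - w2 * s.u2.al * Z) := by
    rw [hA, hr]
    ring
  have z0 := s0.2 (by linarith [s0.1, s1.1, s2.1])
  have z1 := s1.2 (by linarith [s0.1, s1.1, s2.1])
  have z2 := s2.2 (by linarith [s0.1, s1.1, s2.1])
  have : A = 0 := by rw [hA, z0, z1, z2]; ring
  exact absurd hd.ap (by rw [this]; exact lt_irrefl _)

/-! ### trees -/

theorem soundF {c : ℕ} {T : List (List Cd)} (hT : tabB T = true) (t : TrF) : ∀ {s : SF},
    chkF c T t s = true → ∀ {x y k A rho tt : ℝ}, MemF s x y k A rho tt →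
      DomF k A rho tt → Cvd 1 T x y k (alF c A rho tt) (beF c A rho tt) (A * tt) := by
  induction t with
  | B r p q a b iha ihb =>
    intro s h x y k A rho tt hm hd
    have h' : Bool.and (Bool.and (Nat.ble r 2) (Bool.and (Nat.ble 1 p) (Nat.ble 1 q)))
      (Bool.and (chkF c T a (sPF s (nx r) (mid p q (gPF s r) (gPF s (nx r)))))
        (chkF c T b (sPF s r (mid p q (gPF s r) (gPF s (nx r)))))) = true := h
    simp only [bAnd] at h'
    obtain ⟨⟨hr, hp, hq⟩, ha, hb⟩ := h'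
    rcases base_splitF (Nat.le_of_ble_eq_true hr) (Nat.le_of_ble_eq_true hp)
      (Nat.le_of_ble_eq_true hq) hm with h1 | h1
    · exact iha ha h1 hd
    · exact ihb hb h1 hd
  | T p q a b iha ihb =>
    intro s h x y k A rho tt hm hd
    have h' : Bool.and (Bool.and (Nat.ble 1 p) (Nat.ble 1 q))
      (Bool.and (chkF c T a (sT1 s (tm p q s.t0 s.t1))) (chkF c T b (sT0 s (tm p q s.t0 s.t1)))) =
        true := h
    simp only [bAnd] at h'
    obtain ⟨⟨hp, hq⟩, ha, hb⟩ := h'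
    rcases tau_split (Nat.le_of_ble_eq_true hp) (Nat.le_of_ble_eq_true hq) hm with h1 | h1
    · exact iha ha h1 hd
    · exact ihb hb h1 hd
  | C i j p q a b iha ihb =>
    intro s h x y k A rho tt hm hd
    have h' : Bool.and (Bool.and (Bool.and (Nat.ble i 2) (Nat.ble j 2))
        (Bool.and (not (Nat.beq i j)) (Bool.and (Nat.ble 1 p) (Nat.ble 1 q))))
      (Bool.and (chkF c T a (sUF s j (cm p q (gUF s i) (gUF s j))))
        (chkF c T b (sUF s i (cm p q (gUF s i) (gUF s j))))) = true := h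
    simp only [bAnd] at h'
    obtain ⟨⟨⟨hi, hj⟩, hij, hp, hq⟩, ha, hb⟩ := h'
    rcases cone_splitF (Nat.le_of_ble_eq_true hi) (Nat.le_of_ble_eq_true hj) (not_beq hij)
      (Nat.le_of_ble_eq_true hp) (Nat.le_of_ble_eq_true hq) hm with h1 | h1
    · exact iha ha h1 hd
    · exact ihb hb h1 hd
  | L R s0 s1 s2 s3 =>
    intro s h x y k A rho tt hm _
    exact leafF_sound hT h hm
  | O t =>
    intro s h x y k A rho tt hm hd
    exact (outF_sound h hm hd).elim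

/-- the cell `s` of the flag chart is covered -/
def CvF (c : ℕ) (T : List (List Cd)) (s : SF) : Prop :=
  ∀ (x y k A rho tt : ℝ), MemF s x y k A rho tt → DomF k A rho tt →
    Cvd 1 T x y k (alF c A rho tt) (beF c A rho tt) (A * tt)

/-- **chunks of a cover tree of the flag chart** -/
theorem CvF.of {c : ℕ} {T : List (List Cd)} (hT : tabB T = true) {s : SF} (t : TrF)
    (h : chkF c T t s = true) : CvF c T s := fun _ _ _ _ _ _ hm hd => soundF hT t h hm hd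

theorem CvF.b {c : ℕ} {T : List (List Cd)} {s : SF} (r p q : ℕ) (hr : Nat.ble r 2 = true)
    (hp : Nat.ble 1 p = true) (hq : Nat.ble 1 q = true)
    (h1 : CvF c T (sPF s (nx r) (mid p q (gPF s r) (gPF s (nx r)))))
    (h2 : CvF c T (sPF s r (mid p q (gPF s r) (gPF s (nx r))))) : CvF c T s := by
  intro x y k A rho tt hm hd
  rcases base_splitF (Nat.le_of_ble_eq_true hr) (Nat.le_of_ble_eq_true hp)
    (Nat.le_of_ble_eq_true hq) hm with h | h
  · exact h1 _ _ _ _ _ _ h hd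
  · exact h2 _ _ _ _ _ _ h hd

theorem CvF.t {c : ℕ} {T : List (List Cd)} {s : SF} (p q : ℕ)
    (hp : Nat.ble 1 p = true) (hq : Nat.ble 1 q = true)
    (h1 : CvF c T (sT1 s (tm p q s.t0 s.t1)))
    (h2 : CvF c T (sT0 s (tm p q s.t0 s.t1))) : CvF c T s := by
  intro x y k A rho tt hm hd
  rcases tau_split (Nat.le_of_ble_eq_true hp) (Nat.le_of_ble_eq_true hq) hm with h | h
  · exact h1 _ _ _ _ _ _ h hd
  · exact h2 _ _ _ _ _ _ h hd

theorem CvF.c {c : ℕ} {T : List (List Cd)} {s : SF} (i j p q : ℕ) (hi : Nat.ble i 2 = true)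
    (hj : Nat.ble j 2 = true) (hij : (not (Nat.beq i j)) = true) (hp : Nat.ble 1 p = true)
    (hq : Nat.ble 1 q = true) (h1 : CvF c T (sUF s j (cm p q (gUF s i) (gUF s j))))
    (h2 : CvF c T (sUF s i (cm p q (gUF s i) (gUF s j)))) : CvF c T s := by
  intro x y k A rho tt hm hd
  rcases cone_splitF (Nat.le_of_ble_eq_true hi) (Nat.le_of_ble_eq_true hj) (not_beq hij)
    (Nat.le_of_ble_eq_true hp) (Nat.le_of_ble_eq_true hq) hm with h | h
  · exact h1 _ _ _ _ _ _ h hd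
  · exact h2 _ _ _ _ _ _ h hd

/-! ### the roots: `9 / 500 <= y <= x <= 847 / 10000`, `x + y <= 1635 / 10000` -/

def rF0 : SF := ⟨⟨360, 360, 20000⟩, ⟨1694, 360, 20000⟩, ⟨1694, 1576, 20000⟩, ⟨-1, 1⟩, ⟨1, 1⟩,
  ⟨1, 0, 0⟩, ⟨0, 1, 0⟩, ⟨0, 1, 1⟩⟩
def rF1 : SF := ⟨⟨360, 360, 20000⟩, ⟨1694, 1576, 20000⟩, ⟨1635, 1635, 20000⟩, ⟨-1, 1⟩, ⟨1, 1⟩,
  ⟨1, 0, 0⟩, ⟨0, 1, 0⟩, ⟨0, 1, 1⟩⟩

theorem rF_base {x y : ℝ} (y0 : 9 / 500 ≤ y) (yx : y ≤ x) (x1 : x ≤ 847 / 10000)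
    (xy : x + y ≤ 1635 / 10000) :
    Bm ⟨360, 360, 20000⟩ ⟨1694, 360, 20000⟩ ⟨1694, 1576, 20000⟩ x y ∨
    Bm ⟨360, 360, 20000⟩ ⟨1694, 1576, 20000⟩ ⟨1635, 1635, 20000⟩ x y := by
  rcases le_total (1334 * (20000 * y - 360)) (1216 * (20000 * x - 360)) with hl | hl
  · left
    obtain ⟨m2, hm2⟩ : ∃ m2, m2 = (20000 * y - 360) / 1216 / 20000 := ⟨_, rfl⟩
    obtain ⟨m1, hm1⟩ : ∃ m1, m1 = (20000 * x - 360) / 1334 / 20000 - m2 := ⟨_, rfl⟩
    have e2 : 1216 * 20000 * m2 = 20000 * y - 360 := by rw [hm2]; ring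
    have e1 : 1334 * 20000 * (m1 + m2) = 20000 * x - 360 := by rw [hm1]; ring
    refine ⟨1 / 20000 - m1 - m2, m1, m2, ?_, ?_, ?_, ?_, ?_, ?_⟩ <;> push_cast <;> linarith
  · right
    obtain ⟨m1, hm1⟩ : ∃ m1, m1 = (x - y) / 118 := ⟨_, rfl⟩
    obtain ⟨m2, hm2⟩ : ∃ m2, m2 = (20000 * y - 360 - 1216 * (20000 * m1)) / 1275 / 20000 := ⟨_, rfl⟩
    have e1 : 118 * m1 = x - y := by rw [hm1]; ring
    have e2 : 1275 * 20000 * m2 = 20000 * y - 360 - 1216 * (20000 * m1) := by rw [hm2]; ring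
    refine ⟨1 / 20000 - m1 - m2, m1, m2, ?_, ?_, ?_, ?_, ?_, ?_⟩ <;> push_cast <;> linarith

theorem rF_cone {k A rho : ℝ} (hk : 0 < k) (h0 : 0 ≤ rho) (h1 : rho ≤ A) :
    Cm ⟨1, 0, 0⟩ ⟨0, 1, 0⟩ ⟨0, 1, 1⟩ k A rho := by
  refine ⟨k, A - rho, rho, hk.le, by linarith, h0, ?_, ?_, ?_⟩ <;> push_cast <;> linarith

theorem rF_tau {tt : ℝ} (h : tt ^ 2 ≤ 1) : Tm ⟨-1, 1⟩ ⟨1, 1⟩ tt := by
  have h1 : -1 ≤ tt := by nlinarith
  have h2 : tt ≤ 1 := by nlinarith
  refine ⟨(1 - tt) / 2, (1 + tt) / 2, by linarith, by linarith, ?_, ?_⟩ <;> push_cast <;> linarith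

/-- the chart S is covered, if the four root cells are -/
theorem rootF {T : List (List Cd)} (h0 : CvF 0 T rF0) (h1 : CvF 0 T rF1) (h2 : CvF 1 T rF0)
    (h3 : CvF 1 T rF1) {x y k al be ga : ℝ} (k0 : 0 < k) (y0 : 9 / 500 ≤ y) (yx : y ≤ x)
    (x1 : x ≤ 847 / 10000) (xy : x + y ≤ 1635 / 10000) (al0 : 0 < al) (be0 : 0 < be)
    (g : ga ^ 2 < al * be) : Cvd 1 T x y k al be ga := by
  have key : ∀ A B : ℝ, 0 < A → B ≤ A → ga ^ 2 < A * B → ∃ rho tt : ℝ, A * tt = ga ∧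
      rho + A * tt ^ 2 = B ∧ DomF k A rho tt ∧ rho ≤ A ∧ tt ^ 2 ≤ 1 := by
    intro A B hA hB hg
    obtain ⟨tt, ht⟩ : ∃ tt, tt = ga / A := ⟨_, rfl⟩
    have e1 : A * tt = ga := by rw [ht]; exact mul_div_cancel₀ _ hA.ne'
    have e2 : A * (A * tt ^ 2) = ga ^ 2 := by rw [← e1]; ring
    have e3 : A * (A * tt ^ 2) < A * B := by rw [e2]; exact hg
    have e4 : A * tt ^ 2 < B := lt_of_mul_lt_mul_left e3 hA.le
    have e5 : A * tt ^ 2 ≤ A * 1 := by linarith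
    have e6 : tt ^ 2 ≤ 1 := le_of_mul_le_mul_left e5 hA
    have e7 : 0 ≤ A * tt ^ 2 := by positivity
    exact ⟨B - A * tt ^ 2, tt, e1, by ring, ⟨k0, hA, by linarith, by linarith⟩, by linarith, e6⟩
  rcases le_total be al with hab | hab
  · obtain ⟨rho, tt, e1, e2, hd, hr, ht⟩ := key al be al0 hab g
    have hc := rF_cone k0 hd.rp.le hr
    have htm := rF_tau ht
    have eal : alF 0 al rho tt = al := rfl
    have ebe : beF 0 al rho tt = be := e2
    rcases rF_base y0 yx x1 xy with hb | hb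
    · have h := h0 x y k al rho tt ⟨hb, htm, hc⟩ hd
      rw [eal, ebe, e1] at h
      exact h
    · have h := h1 x y k al rho tt ⟨hb, htm, hc⟩ hd
      rw [eal, ebe, e1] at h
      exact h
  · obtain ⟨rho, tt, e1, e2, hd, hr, ht⟩ := key be al be0 hab (by linarith)
    have hc := rF_cone k0 hd.rp.le hr
    have htm := rF_tau ht
    have eal : alF 1 be rho tt = al := e2
    have ebe : beF 1 be rho tt = be := rfl
    rcases rF_base y0 yx x1 xy with hb | hb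
    · have h := h2 x y k be rho tt ⟨hb, htm, hc⟩ hd
      rw [eal, ebe, e1] at h
      exact h
    · have h := h3 x y k be rho tt ⟨hb, htm, hc⟩ hd
      rw [eal, ebe, e1] at h
      exact h

end Pool.Agent.TET.Cvr
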