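import Pool.Agent.Helper38_TET.FrameF

/-!
# MP_c7c9bf_co: frames of the two-parameter families

* `VF f1 f2 f3 x y`: the plane with the values `0, f1, f2, f3` at the vertices; `(x, y)` = the first two
  coordinates of its normal;
* `VV v1 v2 v3 x y`: the axis `v1 (B - A) + v2 (C - A) + v3 (D - A)`; `x`, `y` the values of the functional at
  `B - A`, `C - A`;
* `VP g w`: the flag `A B`, `A B C`.
-/

set_option autoImplicit false

namespace Pool.Agent.TET

open MeasureTheory Set Filter Pool.Agent.UL3 Pool.Agent.UL3.H88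
open scoped ENNReal Topology RealInnerProductSpace

/-- frames with `e 2` orthogonal to `e 0` and `e 1` -/
theorem transferZ {A B C D : E3} (h : AffineIndependent ℝ ![A, B, C, D])
    {V : Fin 3 → Fin 3 → ℝ} (hg : GoodV [0, 7, 4, 3] V) (e : Fin 3 → E3) (hB : Qm e (V 0) = B - A)
    (hC : Qm e (V 1) = C - A) (hD : Qm e (V 2) = D - A) (h02 : ⟪e 0, e 2⟫ = 0)
    (h12 : ⟪e 1, e 2⟫ = 0) : Dense (convexHull ℝ {A, B, C, D}) := by
  refine frame_transfer h hg e hB hC hD ?_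
  have h20 : ⟪e 2, e 0⟫ = 0 := by rw [real_inner_comm]; exact h02
  have h21 : ⟪e 2, e 1⟫ = 0 := by rw [real_inner_comm]; exact h12
  intro τ hτ a b hab
  simp only [List.mem_cons, List.not_mem_nil, or_false] at hτ
  have e1 : ∀ τ : ℕ, τ = 0 ∨ τ = 7 ∨ τ = 4 ∨ τ = 3 → sgn τ 0 = sgn τ 1 := by
    rintro τ (rfl | rfl | rfl | rfl) <;> simp [sgn, sb]
  have e2 := e1 τ hτ
  fin_cases a <;> fin_cases b
  · exact absurd rfl hab
  · exact absurd e2 hab
  · exact h02
  · exact absurd e2.symm hab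
  · exact absurd rfl hab
  · exact h12
  · exact h20
  · exact h21
  · exact absurd rfl hab

/-- frames with `e 1` orthogonal to `e 0` and `e 2` -/
theorem transferY {A B C D : E3} (h : AffineIndependent ℝ ![A, B, C, D])
    {V : Fin 3 → Fin 3 → ℝ} (hg : GoodV [0, 7, 2, 5] V) (e : Fin 3 → E3) (hB : Qm e (V 0) = B - A)
    (hC : Qm e (V 1) = C - A) (hD : Qm e (V 2) = D - A) (h01 : ⟪e 0, e 1⟫ = 0)
    (h21 : ⟪e 2, e 1⟫ = 0) : Dense (convexHull ℝ {A, B, C, D}) := by
  refine frame_transfer h hg e hB hC hD ?_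
  have h10 : ⟪e 1, e 0⟫ = 0 := by rw [real_inner_comm]; exact h01
  have h12 : ⟪e 1, e 2⟫ = 0 := by rw [real_inner_comm]; exact h21
  intro τ hτ a b hab
  simp only [List.mem_cons, List.not_mem_nil, or_false] at hτ
  have e1 : ∀ τ : ℕ, τ = 0 ∨ τ = 7 ∨ τ = 2 ∨ τ = 5 → sgn τ 0 = sgn τ 2 := by
    rintro τ (rfl | rfl | rfl | rfl) <;> simp [sgn, sb]
  have e2 := e1 τ hτ
  fin_cases a <;> fin_cases b
  · exact absurd rfl hab
  · exact h01
  · exact absurd e2 hab
  · exact h10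
  · exact absurd rfl hab
  · exact h12
  · exact absurd e2.symm hab
  · exact h21
  · exact absurd rfl hab

/-! ### planes -/

/-- the plane with the values `0, f1, f2, f3` and the normal `x (B - A) + y (C - A) + ..` -/
def VF (f1 f2 f3 x y : ℝ) : Fin 3 → Fin 3 → ℝ :=
  ![![1 - f1 * x, -(f1 * y), f1], ![-(f2 * x), 1 - f2 * y, f2], ![-(f3 * x), -(f3 * y), f3]]

theorem transfer_f {A B C D : E3} (h : AffineIndependent ℝ ![A, B, C, D]) {f1 f2 f3 x y z μ : ℝ}
    (h3 : f3 ≠ 0) (hs : f1 * x + f2 * y + f3 * z = 1)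
    (hB : ⟪x • (B - A) + y • (C - A) + z • (D - A), B - A⟫ = μ * f1)
    (hC : ⟪x • (B - A) + y • (C - A) + z • (D - A), C - A⟫ = μ * f2)
    (hD : ⟪x • (B - A) + y • (C - A) + z • (D - A), D - A⟫ = μ * f3)
    (hg : GoodV [0, 7, 4, 3] (VF f1 f2 f3 x y)) : Dense (convexHull ℝ {A, B, C, D}) := by
  have hz : z = (1 - f1 * x - f2 * y) / f3 := by
    rw [eq_div_iff h3]
    linarith
  obtain ⟨n, hn⟩ : ∃ n, n = x • (B - A) + y • (C - A) + z • (D - A) := ⟨_, rfl⟩
  rw [← hn] at hB hC hD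
  refine transferZ h hg ![(B - A) - (f1 / f3) • (D - A), (C - A) - (f2 / f3) • (D - A), n]
    ?_ ?_ ?_ ?_ ?_
  · unfold Qm VF
    rw [Fin.sum_univ_three]
    show (1 - f1 * x) • ((B - A) - (f1 / f3) • (D - A)) +
      (-(f1 * y)) • ((C - A) - (f2 / f3) • (D - A)) + f1 • n = B - A
    have e : (1 - f1 * x) • ((B - A) - (f1 / f3) • (D - A)) +
      (-(f1 * y)) • ((C - A) - (f2 / f3) • (D - A)) + f1 • n = (B - A) +
        (f1 * z - f1 * ((1 - f1 * x - f2 * y) / f3)) • (D - A) := by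
      rw [hn]
      module
    rw [e, hz, sub_self, zero_smul, add_zero]
  · unfold Qm VF
    rw [Fin.sum_univ_three]
    show (-(f2 * x)) • ((B - A) - (f1 / f3) • (D - A)) +
      (1 - f2 * y) • ((C - A) - (f2 / f3) • (D - A)) + f2 • n = C - A
    have e : (-(f2 * x)) • ((B - A) - (f1 / f3) • (D - A)) +
      (1 - f2 * y) • ((C - A) - (f2 / f3) • (D - A)) + f2 • n = (C - A) +
        (f2 * z - f2 * ((1 - f1 * x - f2 * y) / f3)) • (D - A) := by
      rw [hn]
      module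
    rw [e, hz, sub_self, zero_smul, add_zero]
  · unfold Qm VF
    rw [Fin.sum_univ_three]
    show (-(f3 * x)) • ((B - A) - (f1 / f3) • (D - A)) +
      (-(f3 * y)) • ((C - A) - (f2 / f3) • (D - A)) + f3 • n = D - A
    have e : (-(f3 * x)) • ((B - A) - (f1 / f3) • (D - A)) +
      (-(f3 * y)) • ((C - A) - (f2 / f3) • (D - A)) + f3 • n =
        (f3 / f3 * (f1 * x) + f3 / f3 * (f2 * y) + f3 * z) • (D - A) := by
      rw [hn]
      module
    rw [e, div_self h3, one_mul, one_mul, hs, one_smul]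
  · show ⟪(B - A) - (f1 / f3) • (D - A), n⟫ = 0
    rw [inner_sub_left, real_inner_smul_left, real_inner_comm, hB, real_inner_comm, hD]
    field_simp
    ring
  · show ⟪(C - A) - (f2 / f3) • (D - A), n⟫ = 0
    rw [inner_sub_left, real_inner_smul_left, real_inner_comm, hC, real_inner_comm, hD]
    field_simp
    ring

/-! ### axes -/

/-- the axis `v = v1 (B - A) + v2 (C - A) + v3 (D - A)`, `x`, `y` the values of `⟨v, .⟩ / ⟨v, v⟩` at
`B - A`, `C - A` -/
noncomputable def VV (v1 v2 v3 x y : ℝ) : Fin 3 → Fin 3 → ℝ :=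
  ![![1, 0, x], ![0, 1, y], ![-(v1 / v3), -(v2 / v3), (1 - v1 * x - v2 * y) / v3]]

theorem transfer_v {A B C D : E3} (h : AffineIndependent ℝ ![A, B, C, D]) {v1 v2 v3 x y : ℝ}
    (h3 : v3 ≠ 0)
    (hB : ⟪v1 • (B - A) + v2 • (C - A) + v3 • (D - A), B - A⟫ =
      x * ⟪v1 • (B - A) + v2 • (C - A) + v3 • (D - A), v1 • (B - A) + v2 • (C - A) + v3 • (D - A)⟫)
    (hC : ⟪v1 • (B - A) + v2 • (C - A) + v3 • (D - A), C - A⟫ =
      y * ⟪v1 • (B - A) + v2 • (C - A) + v3 • (D - A), v1 • (B - A) + v2 • (C - A) + v3 • (D - A)⟫)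
    (hg : GoodV [0, 7, 4, 3] (VV v1 v2 v3 x y)) : Dense (convexHull ℝ {A, B, C, D}) := by
  obtain ⟨n, hn⟩ : ∃ n, n = v1 • (B - A) + v2 • (C - A) + v3 • (D - A) := ⟨_, rfl⟩
  rw [← hn] at hB hC
  refine transferZ h hg ![(B - A) - x • n, (C - A) - y • n, n] ?_ ?_ ?_ ?_ ?_
  · unfold Qm VV
    rw [Fin.sum_univ_three]
    show (1 : ℝ) • ((B - A) - x • n) + (0 : ℝ) • ((C - A) - y • n) + x • n = B - A
    module
  · unfold Qm VV
    rw [Fin.sum_univ_three]
    show (0 : ℝ) • ((B - A) - x • n) + (1 : ℝ) • ((C - A) - y • n) + y • n = C - A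
    module
  · unfold Qm VV
    rw [Fin.sum_univ_three]
    show (-(v1 / v3)) • ((B - A) - x • n) + (-(v2 / v3)) • ((C - A) - y • n) +
      ((1 - v1 * x - v2 * y) / v3) • n = D - A
    have e : (-(v1 / v3)) • ((B - A) - x • n) + (-(v2 / v3)) • ((C - A) - y • n) +
      ((1 - v1 * x - v2 * y) / v3) • n = (v3 / v3) • (D - A) := by
      have e1 : (-(v1 / v3)) • ((B - A) - x • n) + (-(v2 / v3)) • ((C - A) - y • n) +
        ((1 - v1 * x - v2 * y) / v3) • n = (-(v1 / v3)) • (B - A) + (-(v2 / v3)) • (C - A) +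
          (1 / v3) • n := by
        module
      rw [e1, hn]
      module
    rw [e, div_self h3, one_smul]
  · show ⟪(B - A) - x • n, n⟫ = 0
    rw [inner_sub_left, real_inner_smul_left, real_inner_comm, hB, sub_self]
  · show ⟪(C - A) - y • n, n⟫ = 0
    rw [inner_sub_left, real_inner_smul_left, real_inner_comm, hC, sub_self]

/-! ### flags -/

/-- the flag `A B`, `A B C`: `g` = foot of `C` on `A B`, `w` = coordinate at `C` of the foot of `D` -/
def VP (g w : ℝ) : Fin 3 → Fin 3 → ℝ := ![![1, 0, 0], ![g, 1, 0], ![0, w, 1]]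

theorem transfer_p {A B C D : E3} (h : AffineIndependent ℝ ![A, B, C, D]) {g w : ℝ}
    (h1 : ⟪(C - A) - g • (B - A), B - A⟫ = 0)
    (h2 : ⟪(D - A) - w • ((C - A) - g • (B - A)), (C - A) - g • (B - A)⟫ = 0)
    (hg : GoodV [0, 7, 2, 5] (VP g w)) : Dense (convexHull ℝ {A, B, C, D}) := by
  refine transferY h hg ![B - A, (C - A) - g • (B - A), (D - A) - w • ((C - A) - g • (B - A))]
    ?_ ?_ ?_ ?_ ?_
  · unfold Qm VP
    rw [Fin.sum_univ_three]
    show (1 : ℝ) • (B - A) + (0 : ℝ) • ((C - A) - g • (B - A)) +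
      (0 : ℝ) • ((D - A) - w • ((C - A) - g • (B - A))) = B - A
    module
  · unfold Qm VP
    rw [Fin.sum_univ_three]
    show g • (B - A) + (1 : ℝ) • ((C - A) - g • (B - A)) +
      (0 : ℝ) • ((D - A) - w • ((C - A) - g • (B - A))) = C - A
    module
  · unfold Qm VP
    rw [Fin.sum_univ_three]
    show (0 : ℝ) • (B - A) + w • ((C - A) - g • (B - A)) +
      (1 : ℝ) • ((D - A) - w • ((C - A) - g • (B - A))) = D - A
    module
  · show ⟪B - A, (C - A) - g • (B - A)⟫ = 0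
    rw [real_inner_comm]
    exact h1
  · exact h2

end Pool.Agent.TET
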