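import Pool.Agent.Helper37_TET.QkC

/-!
# MP_c7c9bf_co: the fast form of the cover checker, trees of the cone chart
-/

set_option autoImplicit false

namespace Pool.Agent.TET.Cvr

attribute [local irreducible] OFF ZZ CQ CL

theorem all2_allL {α β : Type} {p : α → β → Bool} {q : β → Bool} {r : α → Bool}
    (h : ∀ a b, p a b = true → q b = true → r a = true) :
    ∀ (l : List α) (m : List β), all2 p l m = true → allL q m = true → allL r l = true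
  | [], _, _, _ => rfl
  | a :: l, [], h1, _ => absurd h1 Bool.false_ne_true
  | a :: l, b :: m, h1, h2 => by
    have h3 : Bool.and (p a b) (all2 p l m) = true := h1
    have h4 : Bool.and (q b) (allL q m) = true := h2
    rw [bAnd] at h3 h4
    show Bool.and (r a) (allL r l) = true
    rw [bAnd]
    exact ⟨h a b h3.1 h4.1, all2_allL h l m h3.2 h4.2⟩

/-- an entry of the encoded table -/
def EnOK (T : List (List Cd)) (enc : ℕ → ℕ → ℕ → ℕ → Cd → FC → Bool) (l : List FC) : Prop :=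
  ∃ R s0 s1 s2 s3 : ℕ, isP s0 s1 s2 s3 = true ∧ Nat.blt R T.length = true ∧
    all2 (enc s0 s1 s2 s3) (nth [] T R) l = true

theorem get_ok {T : List (List Cd)} : ∀ (t : Bt), encT T t = true → ∀ (n : ℕ) (l : List FC),
    t.get n = some l → EnOK T encN l
  | .nil, _, n, l, hl => by
    have h1 : Bt.get .nil n = none := rfl
    rw [h1] at hl
    exact absurd hl (by simp)
  | .node a x b, h, n, l, hl => by
    have h1 : Bool.and (Bool.and (encT T a) (encT T b))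
      (Bool.and (Bool.and (isP x.s0 x.s1 x.s2 x.s3) (Nat.blt x.R T.length))
        (all2 (encN x.s0 x.s1 x.s2 x.s3) (nth [] T x.R) x.l)) = true := h
    simp only [bAnd] at h1
    obtain ⟨⟨ha, hb⟩, ⟨hp, hR⟩, hx⟩ := h1
    have h2 : (Bt.node a x b).get n = Bool.rec (motive := fun _ => Option (List FC))
      (Bool.rec (motive := fun _ => Option (List FC)) (b.get (Nat.div n 2)) (a.get (Nat.div n 2))
        (Nat.beq (Nat.mod n 2) 0)) (some x.l) (Nat.beq n 1) := rfl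
    rw [h2] at hl
    cases hn : Nat.beq n 1 with
    | true =>
      rw [hn] at hl
      have h3 : some x.l = some l := hl
      have h4 : x.l = l := Option.some.inj h3
      rw [← h4]
      exact ⟨x.R, x.s0, x.s1, x.s2, x.s3, hp, hR, hx⟩
    | false =>
      rw [hn] at hl
      cases hm : Nat.beq (Nat.mod n 2) 0 with
      | true =>
        rw [hm] at hl
        exact get_ok a ha _ l hl
      | false =>
        rw [hm] at hl
        exact get_ok b hb _ l hl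

theorem szN_st {x : Sm} (h : szN x = true) : stB x.s = true := by
  unfold szN at h
  rw [bAnd] at h
  obtain ⟨h1, h2⟩ := h
  have k1 : (x.p0.X + (x.p0.Y + x.p0.W) + (x.p1.X + (x.p1.Y + x.p1.W)) +
    (x.p2.X + (x.p2.Y + x.p2.W))) ≤ M2 := Nat.le_of_ble_eq_true h1
  have k2 : (x.u0.k + (x.u0.al + (x.u0.be + (x.u0.gp + x.u0.gn))) +
    (x.u1.k + (x.u1.al + (x.u1.be + (x.u1.gp + x.u1.gn)))) +
    (x.u2.k + (x.u2.al + (x.u2.be + (x.u2.gp + x.u2.gn))) +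
    (x.u3.k + (x.u3.al + (x.u3.be + (x.u3.gp + x.u3.gn)))))) ≤ M1 := Nat.le_of_ble_eq_true h2
  have hp : ∀ p : Pt, p.X ≤ M2 → p.Y ≤ M2 → p.W ≤ M2 → ptB p = true := by
    intro p a b c
    unfold ptB
    simp only [bAnd]
    exact ⟨Nat.ble_eq_true_of_le a, Nat.ble_eq_true_of_le b, Nat.ble_eq_true_of_le c⟩
  have hn : ∀ a b : ℕ, nab (Int.subNatNat a b) ≤ a + b := by
    intro a b
    have h3 : ∀ z : ℤ, nab z = z.natAbs := by
      intro z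
      cases z <;> rfl
    rw [h3, sn]
    omega
  have hg : ∀ u : Gm, u.k + (u.al + (u.be + (u.gp + u.gn))) ≤ M1 → gnB u.g = true := by
    intro u hu
    unfold gnB
    simp only [bAnd]
    have h3 := hn u.gp u.gn
    refine ⟨⟨Nat.ble_eq_true_of_le ?_, Nat.ble_eq_true_of_le ?_⟩, Nat.ble_eq_true_of_le ?_,
      Nat.ble_eq_true_of_le ?_⟩
    · show u.k ≤ M1
      omega
    · show u.al ≤ M1
      omega
    · show u.be ≤ M1
      omega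
    · show nab (Int.subNatNat u.gp u.gn) ≤ M1
      omega
  have q0 := hp x.p0 (by omega) (by omega) (by omega)
  have q1 := hp x.p1 (by omega) (by omega) (by omega)
  have q2 := hp x.p2 (by omega) (by omega) (by omega)
  have g0 := hg x.u0 (by omega)
  have g1 := hg x.u1 (by omega)
  have g2 := hg x.u2 (by omega)
  have g3 := hg x.u3 (by omega)
  unfold stB
  simp only [bAnd]
  exact ⟨⟨q0, q1, q2⟩, ⟨g0, g1⟩, g2, g3⟩

theorem leafN_ok {T : List (List Cd)} {l : List FC} (hE : EnOK T encN l) {x : Sm}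
    (h : leafN (some l) x = true) : ∃ R s0 s1 s2 s3 : ℕ, leafP 0 T R s0 s1 s2 s3 x.s = true := by
  obtain ⟨R, s0, s1, s2, s3, hp, hR, hx⟩ := hE
  refine ⟨R, s0, s1, s2, s3, ?_⟩
  obtain ⟨W, hW⟩ : ∃ W, W = pkN3 x.p0.W x.p1.W x.p2.W := ⟨_, rfl⟩
  obtain ⟨X, hX⟩ : ∃ X, X = pkN3 x.p0.X x.p1.X x.p2.X := ⟨_, rfl⟩
  obtain ⟨Y, hY⟩ : ∃ Y, Y = pkN3 x.p0.Y x.p1.Y x.p2.Y := ⟨_, rfl⟩
  obtain ⟨K, hK⟩ : ∃ K, K = pkN4 x.u0.k x.u1.k x.u2.k x.u3.k := ⟨_, rfl⟩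
  obtain ⟨A, hA⟩ : ∃ A, A = pkN4 x.u0.al x.u1.al x.u2.al x.u3.al := ⟨_, rfl⟩
  obtain ⟨B, hB⟩ : ∃ B, B = pkN4 x.u0.be x.u1.be x.u2.be x.u3.be := ⟨_, rfl⟩
  obtain ⟨P, hP⟩ : ∃ P, P = pkN4 x.u0.gp x.u1.gp x.u2.gp x.u3.gp := ⟨_, rfl⟩
  obtain ⟨N, hN⟩ : ∃ N, N = pkN4 x.u0.gn x.u1.gn x.u2.gn x.u3.gn := ⟨_, rfl⟩
  have hpk : PkN W X Y K A B P N x := ⟨hW, hX, hY, hK, hA, hB, hP, hN⟩
  have h0 : Bool.and (szN x) (ev0 (pkN3 x.p0.W x.p1.W x.p2.W) (pkN3 x.p0.X x.p1.X x.p2.X)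
      (pkN3 x.p0.Y x.p1.Y x.p2.Y) (pkN4 x.u0.k x.u1.k x.u2.k x.u3.k)
      (pkN4 x.u0.al x.u1.al x.u2.al x.u3.al) (pkN4 x.u0.be x.u1.be x.u2.be x.u3.be)
      (pkN4 x.u0.gp x.u1.gp x.u2.gp x.u3.gp) (pkN4 x.u0.gn x.u1.gn x.u2.gn x.u3.gn) l) = true := h
  rw [← hW, ← hX, ← hY, ← hK, ← hA, ← hB, ← hP, ← hN, bAnd] at h0
  obtain ⟨hs, hev⟩ := h0
  obtain ⟨n1, h1⟩ : ∃ n, n = (P * P + N * N) * (W * W) + 2 * (K * N * (X * Y)) := ⟨_, rfl⟩
  obtain ⟨n2, h2⟩ : ∃ n, n = K * N * (W * Y) := ⟨_, rfl⟩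
  obtain ⟨n4, h4⟩ : ∃ n, n = K * N * (W * X) := ⟨_, rfl⟩
  obtain ⟨n6, h6⟩ : ∃ n, n = K * N * (W * W) := ⟨_, rfl⟩
  obtain ⟨n9, h9⟩ : ∃ n, n = N * (W * W) := ⟨_, rfl⟩
  have e1 : ev0 W X Y K A B P N l = ev1 (W * W) (W * X) (W * Y) (X * X) (X * Y) (Y * Y) K A B P
    (K * A) (K * B) (K * P) (A * B + 2 * (P * N))
    ((P * P + N * N) * (W * W) + 2 * (K * N * (X * Y)))
    (K * N * (W * Y)) (K * N * (W * X)) (K * N * (W * W)) (N * (W * W)) l := rfl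
  rw [e1, ← h1, ← h2, ← h4, ← h6, ← h9] at hev
  unfold ev1 at hev
  simp only [bAnd] at hev
  obtain ⟨⟨⟨b1, b2⟩, b4, b6, b9⟩, hev⟩ := hev
  unfold leafP
  simp only [bAnd]
  refine ⟨⟨szN_st hs, hp, hR⟩, ?_⟩
  unfold leafQ
  refine all2_allL ?_ _ _ hx hev
  intro c f hcf hf
  cases c with
  | l m g =>
    cases f with
    | l c1 c2 c3 c4 c5 c6 c7 c8 c9 => exact l_ok hcf hpk h9 b9 hf
    | q c1 c2 c3 c4 c5 c6 s => exact absurd hcf Bool.false_ne_true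
  | q v w =>
    cases f with
    | l c1 c2 c3 c4 c5 c6 c7 c8 c9 => exact absurd hcf Bool.false_ne_true
    | q c1 c2 c3 c4 c5 c6 s => exact q_ok hcf hpk h1 h2 h4 h6 b1 b2 b4 b6 rfl rfl rfl rfl hf

/-! ### splits -/

theorem cmN_g (p q : ℕ) (u v : Gm) : (cmN p q u v).g = cmb p q u.g v.g := by
  have h : Int.subNatNat (p * u.gp + q * v.gp) (p * u.gn + q * v.gn) =
      (p : ℤ) * Int.subNatNat u.gp u.gn + (q : ℤ) * Int.subNatNat v.gp v.gn := by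
    rw [sn, sn, sn]
    push_cast
    ring
  show (⟨p * u.k + q * v.k, p * u.al + q * v.al, p * u.be + q * v.be,
    Int.subNatNat (p * u.gp + q * v.gp) (p * u.gn + q * v.gn)⟩ : Gn) =
    ⟨p * u.k + q * v.k, p * u.al + q * v.al, p * u.be + q * v.be,
      (p : ℤ) * Int.subNatNat u.gp u.gn + (q : ℤ) * Int.subNatNat v.gp v.gn⟩
  rw [h]

theorem sUN_s (x : Sm) (u : Gm) {j : ℕ} (hj : j ≤ 3) : (sUN x j u).s = sU x.s j u.g := by
  have : j = 0 ∨ j = 1 ∨ j = 2 ∨ j = 3 := by omega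
  rcases this with rfl | rfl | rfl | rfl <;> rfl

theorem gUN_g (x : Sm) {i : ℕ} (hi : i ≤ 3) : (gUN x i).g = gU x.s i := by
  have : i = 0 ∨ i = 1 ∨ i = 2 ∨ i = 3 := by omega
  rcases this with rfl | rfl | rfl | rfl <;> rfl

/-- the cell is covered -/
def CoN (T : List (List Cd)) (x : Sm) : Prop := CvS 0 T x.s

theorem CoN.b {T : List (List Cd)} {x : Sm} (r p q : ℕ) (hr : Nat.ble r 2 = true)
    (hp : Nat.ble 1 p = true) (hq : Nat.ble 1 q = true)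
    (h1 : CoN T (sPN x (nx r) (mid p q (gPN x r) (gPN x (nx r)))))
    (h2 : CoN T (sPN x r (mid p q (gPN x r) (gPN x (nx r))))) : CoN T x := by
  have hr' := Nat.le_of_ble_eq_true hr
  have : r = 0 ∨ r = 1 ∨ r = 2 := by omega
  rcases this with rfl | rfl | rfl
  · exact CvS.b 0 p q hr hp hq h1 h2
  · exact CvS.b 1 p q hr hp hq h1 h2
  · exact CvS.b 2 p q hr hp hq h1 h2

theorem CoN.c {T : List (List Cd)} {x : Sm} (i j p q : ℕ) (hi : Nat.ble i 3 = true)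
    (hj : Nat.ble j 3 = true) (hij : (not (Nat.beq i j)) = true) (hp : Nat.ble 1 p = true)
    (hq : Nat.ble 1 q = true) (h1 : CoN T (sUN x j (cmN p q (gUN x i) (gUN x j))))
    (h2 : CoN T (sUN x i (cmN p q (gUN x i) (gUN x j)))) : CoN T x := by
  have hi' := Nat.le_of_ble_eq_true hi
  have hj' := Nat.le_of_ble_eq_true hj
  unfold CoN at h1 h2 ⊢
  rw [sUN_s _ _ hj', cmN_g, gUN_g _ hi', gUN_g _ hj'] at h1
  rw [sUN_s _ _ hi', cmN_g, gUN_g _ hi', gUN_g _ hj'] at h2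
  exact CvS.c i j p q hi hj hij hp hq h1 h2

/-! ### cells outside -/

theorem o0N_ok {u v : Gm} (h : o0N u v = true) : o0 u.g v.g = true := by
  have h1 : u.al * v.be + v.al * u.be + 2 * (u.gp * v.gn + u.gn * v.gp) ≤
    2 * (u.gp * v.gp + u.gn * v.gn) := Nat.le_of_ble_eq_true h
  have h2 : (0 : ℤ) ≤ -(((u.al : ℤ) * v.be + v.al * u.be) - (Int.subNatNat u.gp u.gn *
    Int.subNatNat v.gp v.gn + Int.subNatNat u.gp u.gn * Int.subNatNat v.gp v.gn)) := by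
    rw [sn, sn]
    have h3 : ((u.al * v.be + v.al * u.be + 2 * (u.gp * v.gn + u.gn * v.gp) : ℕ) : ℤ) ≤
      ((2 * (u.gp * v.gp + u.gn * v.gn) : ℕ) : ℤ) := by exact_mod_cast h1
    push_cast at h3
    linarith
  exact nn_iff.2 h2

theorem all4N_ok {u0 u1 u2 u3 : Gm} (h : all4N o0N u0 u1 u2 u3 = true) :
    all4 o0 u0.g u1.g u2.g u3.g = true := by
  unfold all4N at h
  unfold all4
  simp only [bAnd] at h ⊢
  obtain ⟨⟨⟨a, b⟩, c, d⟩, ⟨e, f, g⟩, i, j, k⟩ := h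
  exact ⟨⟨⟨o0N_ok a, o0N_ok b⟩, o0N_ok c, o0N_ok d⟩, ⟨o0N_ok e, o0N_ok f, o0N_ok g⟩, o0N_ok i,
    o0N_ok j, o0N_ok k⟩

theorem outN_ok {t : ℕ} {x : Sm} (h : outN t x = true) : out 0 t x.s = true := by
  match t, h with
  | 0, h => exact all4N_ok h
  | 1, h =>
    show Bool.and (Nat.beq 0 0) _ = true
    rw [bAnd]
    exact ⟨rfl, h⟩
  | t + 2, h =>
    show Bool.and (Nat.beq 0 0) _ = true
    rw [bAnd]
    exact ⟨rfl, h⟩

/-- **chunks of a cover tree, fast check** -/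
theorem CoN.of {T : List (List Cd)} (hT : tabB T = true) {bt : Bt} (hE : encT T bt = true) :
    ∀ (t : Tn) {x : Sm}, chkN bt t x = true → CoN T x := by
  intro t
  induction t with
  | B r p q a b iha ihb =>
    intro x h
    have h' : Bool.and (Bool.and (Nat.ble r 2) (Bool.and (Nat.ble 1 p) (Nat.ble 1 q)))
      (Bool.and (chkN bt a (sPN x (nx r) (mid p q (gPN x r) (gPN x (nx r)))))
        (chkN bt b (sPN x r (mid p q (gPN x r) (gPN x (nx r)))))) = true := h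
    simp only [bAnd] at h'
    obtain ⟨⟨hr, hp, hq⟩, ha, hb⟩ := h'
    exact CoN.b r p q hr hp hq (iha ha) (ihb hb)
  | C i j p q a b iha ihb =>
    intro x h
    have h' : Bool.and (Bool.and (Bool.and (Nat.ble i 3) (Nat.ble j 3))
        (Bool.and (not (Nat.beq i j)) (Bool.and (Nat.ble 1 p) (Nat.ble 1 q))))
      (Bool.and (chkN bt a (sUN x j (cmN p q (gUN x i) (gUN x j))))
        (chkN bt b (sUN x i (cmN p q (gUN x i) (gUN x j))))) = true := h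
    simp only [bAnd] at h'
    obtain ⟨⟨⟨hi, hj⟩, hij, hp, hq⟩, ha, hb⟩ := h'
    exact CoN.c i j p q hi hj hij hp hq (iha ha) (ihb hb)
  | L n =>
    intro x h
    have h' : leafN (bt.get n) x = true := h
    cases hn : bt.get n with
    | none =>
      rw [hn] at h'
      exact absurd h' Bool.false_ne_true
    | some l =>
      rw [hn] at h'
      obtain ⟨R, s0, s1, s2, s3, h1⟩ := leafN_ok (get_ok bt hE n l hn) h'
      exact CvS.ofP hT (.L R s0 s1 s2 s3) h1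
  | O t =>
    intro x h
    exact CvS.ofP hT (.O t) (outN_ok h)
  | P a b =>
    intro x h
    exact CvS.ofP hT (.P a b) h

/-! ### the roots -/

def rM0 : Sm := ⟨⟨0, 0, 1⟩, ⟨0, 1, 2⟩, ⟨1, 1, 2⟩, ⟨1, 0, 0, 0, 0⟩, ⟨8, 2, 0, 1, 0⟩, ⟨8, 2, 0, 0, 1⟩,
  ⟨4, 1, 1, 1, 0⟩⟩
def rM1 : Sm := ⟨⟨0, 0, 1⟩, ⟨0, 1, 2⟩, ⟨1, 1, 2⟩, ⟨1, 0, 0, 0, 0⟩, ⟨8, 2, 0, 0, 1⟩, ⟨4, 1, 1, 1, 0⟩,
  ⟨4, 1, 1, 0, 1⟩⟩
def rM2 : Sm := ⟨⟨0, 0, 1⟩, ⟨0, 1, 2⟩, ⟨1, 1, 2⟩, ⟨1, 0, 0, 0, 0⟩, ⟨8, 0, 2, 1, 0⟩, ⟨8, 0, 2, 0, 1⟩,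
  ⟨4, 1, 1, 1, 0⟩⟩
def rM3 : Sm := ⟨⟨0, 0, 1⟩, ⟨0, 1, 2⟩, ⟨1, 1, 2⟩, ⟨1, 0, 0, 0, 0⟩, ⟨8, 0, 2, 0, 1⟩, ⟨4, 1, 1, 1, 0⟩,
  ⟨4, 1, 1, 0, 1⟩⟩

theorem CoN.r0 {T : List (List Cd)} (h : CoN T rM0) : CvS 0 T rN0 := h
theorem CoN.r1 {T : List (List Cd)} (h : CoN T rM1) : CvS 0 T rN1 := h
theorem CoN.r2 {T : List (List Cd)} (h : CoN T rM2) : CvS 0 T rN2 := h
theorem CoN.r3 {T : List (List Cd)} (h : CoN T rM3) : CvS 0 T rN3 := h

end Pool.Agent.TET.Cvr
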