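import Pool.Agent.Helper37_TET.QkSB

/-!
# MP_c7c9bf_co: the fast form of the cover checker, trees of the flag chart
-/

set_option autoImplicit false

namespace Pool.Agent.TET.Cvr

attribute [local irreducible] OFFF ZF CF

theorem getS_ok {T : List (List Cd)} : ∀ (t : Bt), encTS T t = true → ∀ (n : ℕ) (l : List FC),
    t.get n = some l → EnOK T encS l
  | .nil, _, n, l, hl => by
    have h1 : Bt.get .nil n = none := rfl
    rw [h1] at hl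
    exact absurd hl (by simp)
  | .node a x b, h, n, l, hl => by
    have h1 : Bool.and (Bool.and (encTS T a) (encTS T b))
      (Bool.and (Bool.and (isP x.s0 x.s1 x.s2 x.s3) (Nat.blt x.R T.length))
        (all2 (encS x.s0 x.s1 x.s2 x.s3) (nth [] T x.R) x.l)) = true := h
    simp only [bAnd] at h1
    obtain ⟨⟨ha, hb⟩, ⟨hp, hR⟩, hx⟩ := h1
    have h2 : (Bt.node a x b).get n = Bool.rec (motive := fun _ => Option (List FC))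
      (Bool.rec (motive := fun _ => Option (List FC)) (b.get (Nat.div n 2)) (a.get (Nat.div n 2))
        (Nat.beq (Nat.mod n 2) 0)) (some x.l) (Nat.beq n 1) := rfl
    rw [h2] at hl
    cases hn : Nat.beq n 1 with
    | true =>
      rw [hn] at hl
      have h3 : some x.l = some l := hl
      have h4 : x.l = l := Option.some.inj h3
      rw [← h4]
      exact ⟨x.R, x.s0, x.s1, x.s2, x.s3, hp, hR, hx⟩
    | false =>
      rw [hn] at hl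
      cases hm : Nat.beq (Nat.mod n 2) 0 with
      | true =>
        rw [hm] at hl
        exact getS_ok a ha _ l hl
      | false =>
        rw [hm] at hl
        exact getS_ok b hb _ l hl

theorem szS_sf {x : Ss} (h : szS x = true) : sfB x.s = true := by
  unfold szS at h
  simp only [bAnd] at h
  obtain ⟨h1, h2, h3⟩ := h
  have k1 : (x.p0.X + (x.p0.Y + x.p0.W) + (x.p1.X + (x.p1.Y + x.p1.W)) +
    (x.p2.X + (x.p2.Y + x.p2.W))) ≤ M2 := Nat.le_of_ble_eq_true h1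
  have k2 : (x.t0.T + x.t0.V + (x.t1.T + x.t1.V)) ≤ M4 := Nat.le_of_ble_eq_true h2
  have k3 : (x.u0.k + (x.u0.al + x.u0.rho) + (x.u1.k + (x.u1.al + x.u1.rho) +
    (x.u2.k + (x.u2.al + x.u2.rho)))) ≤ M1 := Nat.le_of_ble_eq_true h3
  have hp : ∀ p : Pt, p.X ≤ M2 → p.Y ≤ M2 → p.W ≤ M2 → ptB p = true := by
    intro p a b c
    unfold ptB
    simp only [bAnd]
    exact ⟨Nat.ble_eq_true_of_le a, Nat.ble_eq_true_of_le b, Nat.ble_eq_true_of_le c⟩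
  have hn : ∀ a b : ℕ, nab (Int.subNatNat a b) ≤ a + b := by
    intro a b
    have h3 : ∀ z : ℤ, nab z = z.natAbs := by
      intro z
      cases z <;> rfl
    rw [h3, sn]
    omega
  have ht : ∀ t : Tu, t.T + t.V ≤ M4 → teB t.e = true := by
    intro t ht
    unfold teB
    simp only [bAnd]
    have h3 := hn t.T t.V
    refine ⟨Nat.ble_eq_true_of_le ?_, Nat.ble_eq_true_of_le ?_⟩
    · show nab (Int.subNatNat t.T t.V) ≤ M4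
      omega
    · show t.V ≤ M4
      omega
  have hg : ∀ u : G3, u.k + (u.al + u.rho) ≤ M1 → g3B u = true := by
    intro u hu
    unfold g3B
    simp only [bAnd]
    exact ⟨Nat.ble_eq_true_of_le (by omega), Nat.ble_eq_true_of_le (by omega),
      Nat.ble_eq_true_of_le (by omega)⟩
  have q0 := hp x.p0 (by omega) (by omega) (by omega)
  have q1 := hp x.p1 (by omega) (by omega) (by omega)
  have q2 := hp x.p2 (by omega) (by omega) (by omega)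
  have t0 := ht x.t0 (by omega)
  have t1 := ht x.t1 (by omega)
  have g0 := hg x.u0 (by omega)
  have g1 := hg x.u1 (by omega)
  have g2 := hg x.u2 (by omega)
  unfold sfB
  simp only [bAnd]
  exact ⟨⟨q0, q1, q2⟩, ⟨t0, t1⟩, g0, g1, g2⟩

theorem leafS_ok {T : List (List Cd)} {l : List FC} (hE : EnOK T encS l) {x : Ss}
    (h : leafS (some l) x = true) : ∃ R s0 s1 s2 s3 : ℕ, leafF 0 T R s0 s1 s2 s3 x.s = true := by
  obtain ⟨R', s0, s1, s2, s3, hp, hR, hx⟩ := hE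
  refine ⟨R', s0, s1, s2, s3, ?_⟩
  obtain ⟨W, hW⟩ : ∃ W, W = q3 x.p0.W x.p1.W x.p2.W := ⟨_, rfl⟩
  obtain ⟨X, hX⟩ : ∃ X, X = q3 x.p0.X x.p1.X x.p2.X := ⟨_, rfl⟩
  obtain ⟨Y, hY⟩ : ∃ Y, Y = q3 x.p0.Y x.p1.Y x.p2.Y := ⟨_, rfl⟩
  obtain ⟨V, hV⟩ : ∃ V, V = qT x.t0.V x.t1.V := ⟨_, rfl⟩
  obtain ⟨Z, hZ⟩ : ∃ Z, Z = qT x.t0.T x.t1.T := ⟨_, rfl⟩
  obtain ⟨K, hK⟩ : ∃ K, K = qG x.u0.k x.u1.k x.u2.k := ⟨_, rfl⟩
  obtain ⟨A, hA⟩ : ∃ A, A = qG x.u0.al x.u1.al x.u2.al := ⟨_, rfl⟩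
  obtain ⟨R, hRR⟩ : ∃ R, R = qG x.u0.rho x.u1.rho x.u2.rho := ⟨_, rfl⟩
  have hpk : PkS W X Y V Z K A R x := ⟨hW, hX, hY, hV, hZ, hK, hA, hRR⟩
  have h0 : Bool.and (szS x) (sv0 (q3 x.p0.W x.p1.W x.p2.W) (q3 x.p0.X x.p1.X x.p2.X)
      (q3 x.p0.Y x.p1.Y x.p2.Y) (qT x.t0.V x.t1.V) (qT x.t0.T x.t1.T)
      (qG x.u0.k x.u1.k x.u2.k) (qG x.u0.al x.u1.al x.u2.al)
      (qG x.u0.rho x.u1.rho x.u2.rho) l) = true := h
  rw [← hW, ← hX, ← hY, ← hV, ← hZ, ← hK, ← hA, ← hRR, bAnd] at h0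
  obtain ⟨hs, hev⟩ := h0
  obtain ⟨n1, h1⟩ : ∃ n, n = 2 * (K * A * (V * Z) * (X * X + X * Y)) := ⟨_, rfl⟩
  obtain ⟨n2, h2⟩ : ∃ n, n = K * A * (V * Z) * (W * X + W * Y) := ⟨_, rfl⟩
  obtain ⟨n4, h4⟩ : ∃ n, n = K * A * (V * V) * (W * X + W * Y) := ⟨_, rfl⟩
  have e1 : sv0 W X Y V Z K A R l = sv1 (W * W) (W * X) (X * X)
    (X * X + (2 * (X * Y) + Y * Y)) (K * R * (V * V) + K * A * (Z * Z)) (K * A * (V * V))
    (A * R * (V * V)) (K * (V * V) * (X * X)) (K * (V * V) * (X * Y)) (K * (V * V) * (Y * Y))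
    (K * (V * V) * (W * X)) (K * (V * V) * (W * Y)) (K * (V * V) * (W * W))
    (A * (W * W) * (V * V)) (A * (W * W) * (Z * Z) + R * (W * W) * (V * V))
    (A * (W * W) * (V * Z)) (K * A * (V * Z) * (W * W))
    (2 * (K * A * (V * Z) * (X * X + X * Y))) (K * A * (V * Z) * (W * X + W * Y))
    (K * A * (V * V) * (W * X + W * Y)) (K * A * (V * Z) * (W * X)) l := rfl
  rw [e1, ← h1, ← h2, ← h4] at hev
  unfold sv1 at hev
  simp only [bAnd] at hev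
  obtain ⟨⟨b1, b2, b4⟩, hev⟩ := hev
  unfold leafF
  simp only [bAnd]
  refine ⟨⟨szS_sf hs, hp, hR⟩, ?_⟩
  unfold leafQF
  refine all2_allL ?_ _ _ hx hev
  intro c f hcf hf
  cases c with
  | l m g =>
    cases f with
    | l c1 c2 c3 c4 c5 c6 c7 c8 c9 => exact lS_ok hcf hpk rfl rfl rfl rfl rfl rfl rfl rfl rfl hf
    | q c1 c2 c3 c4 c5 c6 s => exact absurd hcf Bool.false_ne_true
  | q v w =>
    cases f with
    | l c1 c2 c3 c4 c5 c6 c7 c8 c9 => exact absurd hcf Bool.false_ne_true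
    | q c1 c2 c3 c4 c5 c6 s =>
      exact qS_ok hcf hpk h1 h2 h4 b1 b2 b4 rfl rfl rfl rfl rfl rfl hf

/-! ### splits -/

theorem tmS_e (p q : ℕ) (s t : Tu) : (tmS p q s t).e = tm p q s.e t.e := by
  have h : Int.subNatNat (p * s.T + q * t.T) (p * s.V + q * t.V) =
      (p : ℤ) * Int.subNatNat s.T s.V + (q : ℤ) * Int.subNatNat t.T t.V := by
    rw [sn, sn, sn]
    push_cast
    ring
  show (⟨Int.subNatNat (p * s.T + q * t.T) (p * s.V + q * t.V), p * s.V + q * t.V⟩ : Te) =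
    ⟨(p : ℤ) * Int.subNatNat s.T s.V + (q : ℤ) * Int.subNatNat t.T t.V, p * s.V + q * t.V⟩
  rw [h]

/-- the cell is covered (case `c = 0`) -/
def CoF (T : List (List Cd)) (x : Ss) : Prop := CvF 0 T x.s

theorem CoF.b {T : List (List Cd)} {x : Ss} (r p q : ℕ) (hr : Nat.ble r 2 = true)
    (hp : Nat.ble 1 p = true) (hq : Nat.ble 1 q = true)
    (h1 : CoF T (sPS x (nx r) (mid p q (gPS x r) (gPS x (nx r)))))
    (h2 : CoF T (sPS x r (mid p q (gPS x r) (gPS x (nx r))))) : CoF T x := by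
  have hr' := Nat.le_of_ble_eq_true hr
  have : r = 0 ∨ r = 1 ∨ r = 2 := by omega
  rcases this with rfl | rfl | rfl
  · exact CvF.b 0 p q hr hp hq h1 h2
  · exact CvF.b 1 p q hr hp hq h1 h2
  · exact CvF.b 2 p q hr hp hq h1 h2

theorem CoF.t {T : List (List Cd)} {x : Ss} (p q : ℕ)
    (hp : Nat.ble 1 p = true) (hq : Nat.ble 1 q = true)
    (h1 : CoF T (sTS1 x (tmS p q x.t0 x.t1))) (h2 : CoF T (sTS0 x (tmS p q x.t0 x.t1))) :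
    CoF T x := by
  unfold CoF at h1 h2 ⊢
  have e1 : (sTS1 x (tmS p q x.t0 x.t1)).s = sT1 x.s (tm p q x.s.t0 x.s.t1) := by
    show sT1 x.s (tmS p q x.t0 x.t1).e = _
    rw [tmS_e]
    rfl
  have e2 : (sTS0 x (tmS p q x.t0 x.t1)).s = sT0 x.s (tm p q x.s.t0 x.s.t1) := by
    show sT0 x.s (tmS p q x.t0 x.t1).e = _
    rw [tmS_e]
    rfl
  rw [e1] at h1
  rw [e2] at h2
  exact CvF.t p q hp hq h1 h2

theorem sUS_s (x : Ss) (u : G3) {j : ℕ} (hj : j ≤ 2) : (sUS x j u).s = sUF x.s j u := by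
  have : j = 0 ∨ j = 1 ∨ j = 2 := by omega
  rcases this with rfl | rfl | rfl <;> rfl

theorem gUS_g (x : Ss) {i : ℕ} (hi : i ≤ 2) : gUS x i = gUF x.s i := by
  have : i = 0 ∨ i = 1 ∨ i = 2 := by omega
  rcases this with rfl | rfl | rfl <;> rfl

theorem CoF.c {T : List (List Cd)} {x : Ss} (i j p q : ℕ) (hi : Nat.ble i 2 = true)
    (hj : Nat.ble j 2 = true) (hij : (not (Nat.beq i j)) = true) (hp : Nat.ble 1 p = true)
    (hq : Nat.ble 1 q = true) (h1 : CoF T (sUS x j (cm p q (gUS x i) (gUS x j))))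
    (h2 : CoF T (sUS x i (cm p q (gUS x i) (gUS x j)))) : CoF T x := by
  have hi' := Nat.le_of_ble_eq_true hi
  have hj' := Nat.le_of_ble_eq_true hj
  unfold CoF at h1 h2 ⊢
  rw [sUS_s _ _ hj', gUS_g _ hi', gUS_g _ hj'] at h1
  rw [sUS_s _ _ hi', gUS_g _ hi', gUS_g _ hj'] at h2
  exact CvF.c i j p q hi hj hij hp hq h1 h2

/-! ### cells outside -/

theorem o4pS_ok {al rho : ℕ} {s t : Tu} (h : o4pS al rho s t = true) :
    o4p al rho s.e t.e = true := by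
  have h1 : al * (s.T * t.V + s.V * t.T) < rho * (s.V * t.V) + al * (s.T * t.T) := blt_lt h
  have h2 : (0 : ℤ) ≤ ((rho : ℤ) * ((s.V * t.V : ℕ) : ℤ) - (al : ℤ) * (((s.V * t.V : ℕ) : ℤ) -
    Int.subNatNat s.T s.V * Int.subNatNat t.T t.V)) - 1 := by
    rw [sn, sn]
    have h3 : ((al * (s.T * t.V + s.V * t.T) : ℕ) : ℤ) + 1 ≤
      ((rho * (s.V * t.V) + al * (s.T * t.T) : ℕ) : ℤ) := by exact_mod_cast h1
    push_cast at h3 ⊢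
    linarith
  exact nn_iff.2 h2

theorem o4gS_ok {s t : Tu} {u : G3} (h : o4gS s t u = true) : o4g s.e t.e u = true := by
  unfold o4gS at h
  unfold o4g
  rcases (Bool.or_eq_true _ _).mp h with h' | h'
  · exact (Bool.or_eq_true _ _).mpr (Or.inl h')
  · simp only [bAnd] at h'
    obtain ⟨a, b, c⟩ := h'
    refine (Bool.or_eq_true _ _).mpr (Or.inr ?_)
    simp only [bAnd]
    exact ⟨o4pS_ok a, o4pS_ok b, o4pS_ok c⟩

theorem outS_ok {x : Ss} (h : outS x = true) : outF x.s = true := by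
  unfold outS at h
  unfold outF
  simp only [bAnd] at h ⊢
  obtain ⟨a, b, c⟩ := h
  exact ⟨o4gS_ok a, o4gS_ok b, o4gS_ok c⟩

/-- **chunks of a cover tree of the flag chart, fast check** -/
theorem CoF.of {T : List (List Cd)} (hT : tabB T = true) {bt : Bt} (hE : encTS T bt = true) :
    ∀ (t : Tf) {x : Ss}, chkS bt t x = true → CoF T x := by
  intro t
  induction t with
  | B r p q a b iha ihb =>
    intro x h
    have h' : Bool.and (Bool.and (Nat.ble r 2) (Bool.and (Nat.ble 1 p) (Nat.ble 1 q)))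
      (Bool.and (chkS bt a (sPS x (nx r) (mid p q (gPS x r) (gPS x (nx r)))))
        (chkS bt b (sPS x r (mid p q (gPS x r) (gPS x (nx r)))))) = true := h
    simp only [bAnd] at h'
    obtain ⟨⟨hr, hp, hq⟩, ha, hb⟩ := h'
    exact CoF.b r p q hr hp hq (iha ha) (ihb hb)
  | T p q a b iha ihb =>
    intro x h
    have h' : Bool.and (Bool.and (Nat.ble 1 p) (Nat.ble 1 q))
      (Bool.and (chkS bt a (sTS1 x (tmS p q x.t0 x.t1)))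
        (chkS bt b (sTS0 x (tmS p q x.t0 x.t1)))) = true := h
    simp only [bAnd] at h'
    obtain ⟨⟨hp, hq⟩, ha, hb⟩ := h'
    exact CoF.t p q hp hq (iha ha) (ihb hb)
  | C i j p q a b iha ihb =>
    intro x h
    have h' : Bool.and (Bool.and (Bool.and (Nat.ble i 2) (Nat.ble j 2))
        (Bool.and (not (Nat.beq i j)) (Bool.and (Nat.ble 1 p) (Nat.ble 1 q))))
      (Bool.and (chkS bt a (sUS x j (cm p q (gUS x i) (gUS x j))))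
        (chkS bt b (sUS x i (cm p q (gUS x i) (gUS x j))))) = true := h
    simp only [bAnd] at h'
    obtain ⟨⟨⟨hi, hj⟩, hij, hp, hq⟩, ha, hb⟩ := h'
    exact CoF.c i j p q hi hj hij hp hq (iha ha) (ihb hb)
  | L n =>
    intro x h
    have h' : leafS (bt.get n) x = true := h
    cases hn : bt.get n with
    | none =>
      rw [hn] at h'
      exact absurd h' Bool.false_ne_true
    | some l =>
      rw [hn] at h'
      obtain ⟨R, s0, s1, s2, s3, h1⟩ := leafS_ok (getS_ok bt hE n l hn) h'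
      exact CvF.of hT (.L R s0 s1 s2 s3) h1
  | O t =>
    intro x h
    exact CvF.of hT (.O t) (outS_ok h)

/-! ### the mirror image -/

def tw12 : Fin 4 → Fin 4 := ![0, 2, 1, 3]

theorem tw12_inj : Function.Injective tw12 := by decide

theorem mir_n (x y : ℝ) : nR 1 y x = nR 1 x y ∘ tw12 := by
  funext i
  fin_cases i
  · show y + x - 1 = x + y - 1
    ring
  · rfl
  · rfl
  · rfl

theorem mir_d : dR = eR 1 ∘ tw12 := by
  funext i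
  fin_cases i <;> rfl

theorem mir_e : eR 1 = dR ∘ tw12 := by
  funext i
  fin_cases i <;> rfl

theorem mir_s : sR 1 = sR 1 ∘ tw12 := by
  funext i
  fin_cases i <;> rfl

theorem mir_p (y : ℝ) : pR 1 y = qR 1 y ∘ tw12 := by
  funext i
  fin_cases i <;> rfl

theorem mir_q (x : ℝ) : qR 1 x = pR 1 x ∘ tw12 := by
  funext i
  fin_cases i <;> rfl

theorem Cvd.mir {T : List (List Cd)} {x y k al be ga : ℝ} (h : Cvd 1 T y x k al be ga) :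
    Cvd 1 T x y k be al ga := by
  obtain ⟨R, hR, σ, hσ, hc⟩ := h
  refine ⟨R, hR, tw12 ∘ σ, tw12_inj.comp hσ, ?_⟩
  intro c hcR
  have h1 := hc c hcR
  cases c with
  | l m f =>
    have h2 : 0 ≤ k * ((vR m ⬝ᵥ (nR 1 y x ∘ σ)) * (vR f ⬝ᵥ (nR 1 y x ∘ σ))) +
      al * ((vR m ⬝ᵥ (dR ∘ σ)) * (vR f ⬝ᵥ (dR ∘ σ))) +
      be * ((vR m ⬝ᵥ (eR 1 ∘ σ)) * (vR f ⬝ᵥ (eR 1 ∘ σ))) +
      ga * ((vR m ⬝ᵥ (dR ∘ σ)) * (vR f ⬝ᵥ (eR 1 ∘ σ)) +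
        (vR m ⬝ᵥ (eR 1 ∘ σ)) * (vR f ⬝ᵥ (dR ∘ σ))) := h1
    show 0 ≤ k * ((vR m ⬝ᵥ (nR 1 x y ∘ tw12 ∘ σ)) * (vR f ⬝ᵥ (nR 1 x y ∘ tw12 ∘ σ))) +
      be * ((vR m ⬝ᵥ (dR ∘ tw12 ∘ σ)) * (vR f ⬝ᵥ (dR ∘ tw12 ∘ σ))) +
      al * ((vR m ⬝ᵥ (eR 1 ∘ tw12 ∘ σ)) * (vR f ⬝ᵥ (eR 1 ∘ tw12 ∘ σ))) +
      ga * ((vR m ⬝ᵥ (dR ∘ tw12 ∘ σ)) * (vR f ⬝ᵥ (eR 1 ∘ tw12 ∘ σ)) +
        (vR m ⬝ᵥ (eR 1 ∘ tw12 ∘ σ)) * (vR f ⬝ᵥ (dR ∘ tw12 ∘ σ)))
    have e1 : nR 1 x y ∘ tw12 ∘ σ = nR 1 y x ∘ σ := congrArg (· ∘ σ) (mir_n x y).symm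
    have e2 : dR ∘ tw12 ∘ σ = eR 1 ∘ σ := congrArg (· ∘ σ) mir_e.symm
    have e3 : eR 1 ∘ tw12 ∘ σ = dR ∘ σ := congrArg (· ∘ σ) mir_d.symm
    rw [e1, e2, e3]
    refine le_of_le_of_eq h2 ?_
    ring
  | q v w =>
    have h2 : 0 ≤ (al * be - ga ^ 2) * ((vR v ⬝ᵥ (sR 1 ∘ σ)) * (vR w ⬝ᵥ (sR 1 ∘ σ))) +
      k * (be * ((vR v ⬝ᵥ (pR 1 y ∘ σ)) * (vR w ⬝ᵥ (pR 1 y ∘ σ))) +
        al * ((vR v ⬝ᵥ (qR 1 x ∘ σ)) * (vR w ⬝ᵥ (qR 1 x ∘ σ))) -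
        ga * ((vR v ⬝ᵥ (pR 1 y ∘ σ)) * (vR w ⬝ᵥ (qR 1 x ∘ σ)) +
          (vR v ⬝ᵥ (qR 1 x ∘ σ)) * (vR w ⬝ᵥ (pR 1 y ∘ σ)))) := h1
    show 0 ≤ (be * al - ga ^ 2) * ((vR v ⬝ᵥ (sR 1 ∘ tw12 ∘ σ)) * (vR w ⬝ᵥ (sR 1 ∘ tw12 ∘ σ))) +
      k * (al * ((vR v ⬝ᵥ (pR 1 x ∘ tw12 ∘ σ)) * (vR w ⬝ᵥ (pR 1 x ∘ tw12 ∘ σ))) +
        be * ((vR v ⬝ᵥ (qR 1 y ∘ tw12 ∘ σ)) * (vR w ⬝ᵥ (qR 1 y ∘ tw12 ∘ σ))) -
        ga * ((vR v ⬝ᵥ (pR 1 x ∘ tw12 ∘ σ)) * (vR w ⬝ᵥ (qR 1 y ∘ tw12 ∘ σ)) +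
          (vR v ⬝ᵥ (qR 1 y ∘ tw12 ∘ σ)) * (vR w ⬝ᵥ (pR 1 x ∘ tw12 ∘ σ))))
    have e1 : sR 1 ∘ tw12 ∘ σ = sR 1 ∘ σ := congrArg (· ∘ σ) mir_s.symm
    have e2 : pR 1 x ∘ tw12 ∘ σ = qR 1 x ∘ σ := congrArg (· ∘ σ) (mir_q x).symm
    have e3 : qR 1 y ∘ tw12 ∘ σ = pR 1 y ∘ σ := congrArg (· ∘ σ) (mir_p y).symm
    rw [e1, e2, e3]
    refine le_of_le_of_eq h2 ?_
    ring

/-! ### the roots -/

def rE0 : Ss := ⟨⟨360, 360, 20000⟩, ⟨1694, 360, 20000⟩, ⟨1694, 1576, 20000⟩, ⟨0, 1⟩, ⟨2, 1⟩,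
  ⟨1, 0, 0⟩, ⟨0, 1, 0⟩, ⟨0, 1, 1⟩⟩
def rE1 : Ss := ⟨⟨360, 360, 20000⟩, ⟨1694, 1576, 20000⟩, ⟨1635, 1635, 20000⟩, ⟨0, 1⟩, ⟨2, 1⟩,
  ⟨1, 0, 0⟩, ⟨0, 1, 0⟩, ⟨0, 1, 1⟩⟩
def rE2 : Ss := ⟨⟨360, 360, 20000⟩, ⟨360, 1694, 20000⟩, ⟨1576, 1694, 20000⟩, ⟨0, 1⟩, ⟨2, 1⟩,
  ⟨1, 0, 0⟩, ⟨0, 1, 0⟩, ⟨0, 1, 1⟩⟩
def rE3 : Ss := ⟨⟨360, 360, 20000⟩, ⟨1576, 1694, 20000⟩, ⟨1635, 1635, 20000⟩, ⟨0, 1⟩, ⟨2, 1⟩,
  ⟨1, 0, 0⟩, ⟨0, 1, 0⟩, ⟨0, 1, 1⟩⟩

theorem Bm.sw {a b c d e f g h i : ℕ} {x y : ℝ} (hm : Bm ⟨a, b, c⟩ ⟨d, e, f⟩ ⟨g, h, i⟩ x y) :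
    Bm ⟨b, a, c⟩ ⟨e, d, f⟩ ⟨h, g, i⟩ y x := by
  obtain ⟨m0, m1, m2, h0, h1, h2, hW, hx, hy⟩ := hm
  exact ⟨m0, m1, m2, h0, h1, h2, hW, hy, hx⟩

/-- the chart S is covered, if the four root cells are -/
theorem rootE {T : List (List Cd)} (h0 : CoF T rE0) (h1 : CoF T rE1) (h2 : CoF T rE2)
    (h3 : CoF T rE3) {x y k al be ga : ℝ} (k0 : 0 < k) (y0 : 9 / 500 ≤ y) (yx : y ≤ x)
    (x1 : x ≤ 847 / 10000) (xy : x + y ≤ 1635 / 10000) (al0 : 0 < al) (be0 : 0 < be)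
    (g : ga ^ 2 < al * be) : Cvd 1 T x y k al be ga := by
  have key : ∀ A B : ℝ, 0 < A → B ≤ A → ga ^ 2 < A * B → ∃ rho tt : ℝ, A * tt = ga ∧
      rho + A * tt ^ 2 = B ∧ DomF k A rho tt ∧ rho ≤ A ∧ tt ^ 2 ≤ 1 := by
    intro A B hA hB hg
    obtain ⟨tt, ht⟩ : ∃ tt, tt = ga / A := ⟨_, rfl⟩
    have e1 : A * tt = ga := by rw [ht]; exact mul_div_cancel₀ _ hA.ne'
    have e2 : A * (A * tt ^ 2) = ga ^ 2 := by rw [← e1]; ring
    have e3 : A * (A * tt ^ 2) < A * B := by rw [e2]; exact hg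
    have e4 : A * tt ^ 2 < B := lt_of_mul_lt_mul_left e3 hA.le
    have e5 : A * tt ^ 2 ≤ A * 1 := by linarith
    have e6 : tt ^ 2 ≤ 1 := le_of_mul_le_mul_left e5 hA
    have e7 : 0 ≤ A * tt ^ 2 := by positivity
    exact ⟨B - A * tt ^ 2, tt, e1, by ring, ⟨k0, hA, by linarith, by linarith⟩, by linarith, e6⟩
  rcases le_total be al with hab | hab
  · obtain ⟨rho, tt, e1, e2, hd, hr, ht⟩ := key al be al0 hab g
    have hc := rF_cone k0 hd.rp.le hr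
    have htm := rF_tau ht
    have eal : alF 0 al rho tt = al := rfl
    have ebe : beF 0 al rho tt = be := e2
    rcases rF_base y0 yx x1 xy with hb | hb
    · have h := h0 x y k al rho tt ⟨hb, htm, hc⟩ hd
      rw [eal, ebe, e1] at h
      exact h
    · have h := h1 x y k al rho tt ⟨hb, htm, hc⟩ hd
      rw [eal, ebe, e1] at h
      exact h
  · obtain ⟨rho, tt, e1, e2, hd, hr, ht⟩ := key be al be0 hab (by linarith)
    have hc := rF_cone k0 hd.rp.le hr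
    have htm := rF_tau ht
    have eal : alF 0 be rho tt = be := rfl
    have ebe : beF 0 be rho tt = al := e2
    rcases rF_base y0 yx x1 xy with hb | hb
    · have h := h2 y x k be rho tt ⟨hb.sw, htm, hc⟩ hd
      rw [eal, ebe, e1] at h
      exact h.mir
    · have h := h3 y x k be rho tt ⟨hb.sw, htm, hc⟩ hd
      rw [eal, ebe, e1] at h
      exact h.mir

end Pool.Agent.TET.Cvr
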