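import Pool.Agent.Helper86_TET.Last
import Pool.Agent.Helper37_TET.QkN
import Pool.Agent.Helper37_TET.QkS

/-!
# MP_c7c9bf_co: the two covers from the fast checkers
-/

set_option autoImplicit false

namespace Pool.Agent.TET

open Cvr (V4 Cd)

theorem coverNq {T : List (List Cd)} (h0 : Cvr.CoN T Cvr.rM0) (h1 : Cvr.CoN T Cvr.rM1)
    (h2 : Cvr.CoN T Cvr.rM2) (h3 : Cvr.CoN T Cvr.rM3) : CoverN T :=
  coverN (Cvr.CoN.r0 h0) (Cvr.CoN.r1 h1) (Cvr.CoN.r2 h2) (Cvr.CoN.r3 h3)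

theorem coverSq {T : List (List Cd)} (h0 : Cvr.CoF T Cvr.rE0) (h1 : Cvr.CoF T Cvr.rE1)
    (h2 : Cvr.CoF T Cvr.rE2) (h3 : Cvr.CoF T Cvr.rE3) : CoverS T :=
  fun _ _ _ _ _ _ a b c d e f g h => Cvr.rootE h0 h1 h2 h3 a b c d e f g h

end Pool.Agent.TET
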