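import Pool.Agent.Helper38_TET.Glue

/-!
# MP_c7c9bf_co: lists of good regions
-/

set_option autoImplicit false

namespace Pool.Agent.TET.Cvr

theorem ok_nil : ∀ R ∈ ([] : List (List Cd)), ROK R := fun _ h => absurd h List.not_mem_nil

theorem ok_cons {R : List Cd} {T : List (List Cd)} (h : ROK R) (hT : ∀ R ∈ T, ROK R) :
    ∀ S ∈ (R :: T), ROK S := fun S hS => (List.mem_cons.1 hS).elim (fun e => e ▸ h) (hT S)

end Pool.Agent.TET.Cvr
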