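import Pool.Agent.Helper37_TET.QkN

/-!
# MP_c7c9bf_co: guarded leaves, definitions and algebra

A guarded leaf uses two regions `A`, `B`: all conditions of `B` but one hold on the cell; where that one
fails, the conditions of `A` hold.
-/

set_option autoImplicit false

namespace Pool.Agent.TET.Cvr

/-! ### coefficients of biquadratic forms -/

/-- coefficients: six pairs of corners, ten pairs of generators -/
abbrev Cf := Fin 6 → Fin 10 → ℤ

def BP (a b : Fin 3 → ℤ) : Fin 6 → ℤ :=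
  ![a 0 * b 0, a 0 * b 1 + a 1 * b 0, a 1 * b 1, a 0 * b 2 + a 2 * b 0, a 1 * b 2 + a 2 * b 1, a 2 * b 2]

def GP (x y : Fin 4 → ℤ) : Fin 10 → ℤ :=
  ![x 0 * y 0, x 0 * y 1 + x 1 * y 0, x 1 * y 1, x 0 * y 2 + x 2 * y 0, x 1 * y 2 + x 2 * y 1,
    x 2 * y 2, x 0 * y 3 + x 3 * y 0, x 1 * y 3 + x 3 * y 1, x 2 * y 3 + x 3 * y 2, x 3 * y 3]

/-- a product of four linear forms -/
def PP (x y : Fin 4 → ℤ) (a b : Fin 3 → ℤ) : Cf := fun i g => BP a b i * GP x y g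

def TB (t : ℤ) : Fin 6 → ℤ := ![1, t, t ^ 2, t ^ 3, t ^ 4, t ^ 6]

def TG (t : ℤ) : Fin 10 → ℤ :=
  ![1, t ^ 7, t ^ 14, t ^ 21, t ^ 28, t ^ 42, t ^ 49, t ^ 56, t ^ 70, t ^ 98]

/-- the packed integer -/
def ival (t : ℤ) (c : Cf) : ℤ := ∑ i, ∑ g, c i g * (TB t i * TG t g)

noncomputable def BE (m : ℕ → ℝ) : Fin 6 → ℝ := ![m 0 * m 0, m 0 * m 1, m 1 * m 1, m 0 * m 2, m 1 * m 2, m 2 * m 2]

noncomputable def MU (w : ℕ → ℝ) : Fin 10 → ℝ :=
  ![w 0 * w 0, w 0 * w 1, w 1 * w 1, w 0 * w 2, w 1 * w 2, w 2 * w 2, w 0 * w 3, w 1 * w 3,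
    w 2 * w 3, w 3 * w 3]

noncomputable def NU (w : ℕ → ℝ) : Fin 10 → ℝ := ![w 0, w 1, 0, w 2, 0, 0, w 3, 0, 0, 0]

/-- the value at a point -/
noncomputable def rv (m : ℕ → ℝ) (n : Fin 10 → ℝ) (c : Cf) : ℝ := ∑ i, ∑ g, (c i g : ℝ) * (BE m i * n g)

theorem ival_add (t : ℤ) (c d : Cf) : ival t (c + d) = ival t c + ival t d := by
  unfold ival
  simp only [Pi.add_apply, add_mul, Finset.sum_add_distrib]

theorem ival_sub (t : ℤ) (c d : Cf) : ival t (c - d) = ival t c - ival t d := by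
  unfold ival
  simp only [Pi.sub_apply, sub_mul, Finset.sum_sub_distrib]

theorem ival_smul (t z : ℤ) (c : Cf) : ival t (z • c) = z * ival t c := by
  unfold ival
  simp only [Pi.smul_apply, smul_eq_mul, mul_assoc, Finset.mul_sum]

theorem rv_add (m : ℕ → ℝ) (n : Fin 10 → ℝ) (c d : Cf) : rv m n (c + d) = rv m n c + rv m n d := by
  unfold rv
  simp only [Pi.add_apply, Int.cast_add, add_mul, Finset.sum_add_distrib]

theorem rv_sub (m : ℕ → ℝ) (n : Fin 10 → ℝ) (c d : Cf) : rv m n (c - d) = rv m n c - rv m n d := by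
  unfold rv
  simp only [Pi.sub_apply, Int.cast_sub, sub_mul, Finset.sum_sub_distrib]

theorem rv_smul (m : ℕ → ℝ) (n : Fin 10 → ℝ) (z : ℤ) (c : Cf) : rv m n (z • c) = z * rv m n c := by
  unfold rv
  simp only [Pi.smul_apply, smul_eq_mul, Int.cast_mul, mul_assoc, Finset.mul_sum]

theorem ival_PP (t : ℤ) (x y : Fin 4 → ℤ) (a b : Fin 3 → ℤ) : ival t (PP x y a b) =
    ((x 0 + x 1 * t ^ 7 + x 2 * t ^ 21 + x 3 * t ^ 49) *
      (y 0 + y 1 * t ^ 7 + y 2 * t ^ 21 + y 3 * t ^ 49)) *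
      ((a 0 + a 1 * t + a 2 * t ^ 3) * (b 0 + b 1 * t + b 2 * t ^ 3)) := by
  have h1 : ival t (PP x y a b) = (∑ i, BP a b i * TB t i) * ∑ g, GP x y g * TG t g := by
    rw [Finset.sum_mul_sum]
    unfold ival PP
    refine Finset.sum_congr rfl fun i _ => Finset.sum_congr rfl fun g _ => ?_
    ring
  have h2 : ∑ i, BP a b i * TB t i = (a 0 + a 1 * t + a 2 * t ^ 3) * (b 0 + b 1 * t + b 2 * t ^ 3) := by
    unfold BP TB
    simp only [Fin.sum_univ_succ, Fin.sum_univ_zero]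
    simp
    ring
  have h3 : ∑ g, GP x y g * TG t g = (x 0 + x 1 * t ^ 7 + x 2 * t ^ 21 + x 3 * t ^ 49) *
      (y 0 + y 1 * t ^ 7 + y 2 * t ^ 21 + y 3 * t ^ 49) := by
    unfold GP TG
    simp only [Fin.sum_univ_succ, Fin.sum_univ_zero]
    simp
    ring
  rw [h1, h2, h3]
  ring

theorem rv_prod (m : ℕ → ℝ) (n : Fin 10 → ℝ) (x y : Fin 4 → ℤ) (a b : Fin 3 → ℤ) :
    rv m n (PP x y a b) = (∑ g, (GP x y g : ℝ) * n g) *
      ((m 0 * a 0 + m 1 * a 1 + m 2 * a 2) * (m 0 * b 0 + m 1 * b 1 + m 2 * b 2)) := by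
  have h1 : rv m n (PP x y a b) = (∑ i, (BP a b i : ℝ) * BE m i) * ∑ g, (GP x y g : ℝ) * n g := by
    rw [Finset.sum_mul_sum]
    unfold rv PP
    refine Finset.sum_congr rfl fun i _ => Finset.sum_congr rfl fun g _ => ?_
    push_cast
    ring
  have h2 : ∑ i, (BP a b i : ℝ) * BE m i =
      (m 0 * a 0 + m 1 * a 1 + m 2 * a 2) * (m 0 * b 0 + m 1 * b 1 + m 2 * b 2) := by
    unfold BP BE
    simp only [Fin.sum_univ_succ, Fin.sum_univ_zero]
    simp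
    ring
  rw [h1, h2]
  ring

theorem rv_MU (m w : ℕ → ℝ) (x y : Fin 4 → ℤ) (a b : Fin 3 → ℤ) : rv m (MU w) (PP x y a b) =
    ((w 0 * x 0 + w 1 * x 1 + w 2 * x 2 + w 3 * x 3) *
      (w 0 * y 0 + w 1 * y 1 + w 2 * y 2 + w 3 * y 3)) *
      ((m 0 * a 0 + m 1 * a 1 + m 2 * a 2) * (m 0 * b 0 + m 1 * b 1 + m 2 * b 2)) := by
  have h3 : ∑ g, (GP x y g : ℝ) * MU w g = (w 0 * x 0 + w 1 * x 1 + w 2 * x 2 + w 3 * x 3) *
      (w 0 * y 0 + w 1 * y 1 + w 2 * y 2 + w 3 * y 3) := by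
    unfold GP MU
    simp only [Fin.sum_univ_succ, Fin.sum_univ_zero]
    simp
    ring
  rw [rv_prod, h3]

/-- the first unit vector -/
def e0 : Fin 4 → ℤ := ![1, 0, 0, 0]

theorem rv_NU (m w : ℕ → ℝ) (x : Fin 4 → ℤ) (a b : Fin 3 → ℤ) : rv m (NU w) (PP x e0 a b) =
    (w 0 * x 0 + w 1 * x 1 + w 2 * x 2 + w 3 * x 3) *
      ((m 0 * a 0 + m 1 * a 1 + m 2 * a 2) * (m 0 * b 0 + m 1 * b 1 + m 2 * b 2)) := by
  have h3 : ∑ g, (GP x e0 g : ℝ) * NU w g = w 0 * x 0 + w 1 * x 1 + w 2 * x 2 + w 3 * x 3 := by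
    unfold GP NU e0
    simp only [Fin.sum_univ_succ, Fin.sum_univ_zero]
    simp
    ring
  rw [rv_prod, h3]

/-! ### the test -/

def row (c : Cf) (g : Fin 10) : D6 := ⟨c 0 g, c 1 g, c 2 g, c 3 g, c 4 g, c 5 g⟩

theorem row_val (t : ℤ) (c : Cf) (g : Fin 10) : (row c g).val t = ∑ i, c i g * TB t i := by
  unfold row D6.val TB
  simp only [Fin.sum_univ_succ, Fin.sum_univ_zero]
  simp
  ring

theorem ival_dig (t : ℤ) (c : Cf) : ival t c = pZ t (dig (row c 0) (row c 1) (row c 2) (row c 3)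
    (row c 4) (row c 5) (row c 6) (row c 7) (row c 8) (row c 9)) := by
  rw [dig_val]
  have h1 : ival t c = ∑ g, TG t g * (row c g).val t := by
    unfold ival
    rw [Finset.sum_comm]
    refine Finset.sum_congr rfl fun g _ => ?_
    rw [row_val, Finset.mul_sum]
    refine Finset.sum_congr rfl fun i _ => ?_
    ring
  rw [h1]
  unfold TG
  simp only [Fin.sum_univ_succ, Fin.sum_univ_zero]
  simp
  ring

theorem row_all {P : ℤ → Prop} {c : Cf} (h : ∀ i g, P (c i g)) (g : Fin 10) : (row c g).all P :=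
  ⟨h 0 g, h 1 g, h 2 g, h 3 g, h 4 g, h 5 g⟩

/-- the test shows that the coefficients are not negative -/
theorem tst_cf {F : ℤ} (h : tst F = true) {c : Cf} (hb : ∀ i g, |c i g| < 2 ^ 191)
    (hF : F = ival (2 ^ 192) c) : ∀ i g, 0 ≤ c i g := by
  have hr := fun g => row_all (P := fun z => |z| < 2 ^ 191) hb g
  obtain ⟨r0, r1, r2, r3, r4, r5, r6, r7, r8, r9⟩ := tst_dig h (hr 0) (hr 1) (hr 2) (hr 3) (hr 4)
    (hr 5) (hr 6) (hr 7) (hr 8) (hr 9) (by rw [hF, ival_dig])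
  have key : ∀ g : Fin 10, (row c g).all (0 ≤ ·) := by
    intro g
    fin_cases g
    · exact r0
    · exact r1
    · exact r2
    · exact r3
    · exact r4
    · exact r5
    · exact r6
    · exact r7
    · exact r8
    · exact r9
  intro i g
  obtain ⟨a, b, d, e, f, k⟩ := key g
  fin_cases i
  · exact a
  · exact b
  · exact d
  · exact e
  · exact f
  · exact k

theorem rv_nonneg {c : Cf} (hc : ∀ i g, 0 ≤ c i g) {m : ℕ → ℝ} {n : Fin 10 → ℝ} (h0 : 0 ≤ m 0)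
    (h1 : 0 ≤ m 1) (h2 : 0 ≤ m 2) (hn : ∀ g, 0 ≤ n g) : 0 ≤ rv m n c := by
  unfold rv
  refine Finset.sum_nonneg fun i _ => Finset.sum_nonneg fun g _ => ?_
  have e1 : (0 : ℝ) ≤ c i g := Int.cast_nonneg (hc i g)
  have e2 : 0 ≤ BE m i := by
    unfold BE
    fin_cases i
    · exact mul_nonneg h0 h0
    · exact mul_nonneg h0 h1
    · exact mul_nonneg h1 h1
    · exact mul_nonneg h0 h2
    · exact mul_nonneg h1 h2
    · exact mul_nonneg h2 h2
  exact mul_nonneg e1 (mul_nonneg e2 (hn g))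

theorem MU_nonneg {w : ℕ → ℝ} (g0 : 0 ≤ w 0) (g1 : 0 ≤ w 1) (g2 : 0 ≤ w 2) (g3 : 0 ≤ w 3) :
    ∀ g, 0 ≤ MU w g := by
  intro g
  unfold MU
  fin_cases g
  · exact mul_nonneg g0 g0
  · exact mul_nonneg g0 g1
  · exact mul_nonneg g1 g1
  · exact mul_nonneg g0 g2
  · exact mul_nonneg g1 g2
  · exact mul_nonneg g2 g2
  · exact mul_nonneg g0 g3
  · exact mul_nonneg g1 g3
  · exact mul_nonneg g2 g3
  · exact mul_nonneg g3 g3

theorem NU_nonneg {w : ℕ → ℝ} (g0 : 0 ≤ w 0) (g1 : 0 ≤ w 1) (g2 : 0 ≤ w 2) (g3 : 0 ≤ w 3) :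
    ∀ g, 0 ≤ NU w g := by
  intro g
  unfold NU
  fin_cases g
  · exact g0
  · exact g1
  · exact le_rfl
  · exact g2
  · exact le_rfl
  · exact le_rfl
  · exact g3
  · exact le_rfl
  · exact le_rfl
  · exact le_rfl

/-! ### bounds -/

def Bd (c : Cf) (U : ℤ) : Prop := ∀ i g, |c i g| ≤ U

theorem Bd.add {c d : Cf} {U V : ℤ} (hc : Bd c U) (hd : Bd d V) : Bd (c + d) (U + V) :=
  fun i g => add_bd (hc i g) (hd i g)

theorem Bd.sub {c d : Cf} {U V : ℤ} (hc : Bd c U) (hd : Bd d V) : Bd (c - d) (U + V) :=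
  fun i g => sub_bd (hc i g) (hd i g)

theorem Bd.smul {c : Cf} {z U Z : ℤ} (hz : |z| ≤ Z) (hc : Bd c U) : Bd (z • c) (Z * U) :=
  fun i g => mul_bd hz (hc i g)

theorem Bd.mono {c : Cf} {U V : ℤ} (hc : Bd c U) (h : U ≤ V) : Bd c V := fun i g => (hc i g).trans h

theorem BP_bd {a b : Fin 3 → ℤ} {A B : ℤ} (ha : ∀ i, |a i| ≤ A) (hb : ∀ i, |b i| ≤ B) :
    ∀ i, |BP a b i| ≤ 2 * (A * B) := by
  have hA : 0 ≤ A := (abs_nonneg _).trans (ha 0)
  have hB : 0 ≤ B := (abs_nonneg _).trans (hb 0)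
  have hAB : 0 ≤ A * B := mul_nonneg hA hB
  have one : ∀ i j, |a i * b j| ≤ 2 * (A * B) := fun i j => (mul_bd (ha i) (hb j)).trans (by linarith)
  have two : ∀ i j k l, |a i * b j + a k * b l| ≤ 2 * (A * B) := fun i j k l =>
    (add_bd (mul_bd (ha i) (hb j)) (mul_bd (ha k) (hb l))).trans (by linarith)
  intro i
  unfold BP
  fin_cases i
  · exact one 0 0
  · exact two 0 1 1 0
  · exact one 1 1
  · exact two 0 2 2 0
  · exact two 1 2 2 1
  · exact one 2 2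

theorem GP_bd {a b : Fin 4 → ℤ} {A B : ℤ} (ha : ∀ i, |a i| ≤ A) (hb : ∀ i, |b i| ≤ B) :
    ∀ i, |GP a b i| ≤ 2 * (A * B) := by
  have hA : 0 ≤ A := (abs_nonneg _).trans (ha 0)
  have hB : 0 ≤ B := (abs_nonneg _).trans (hb 0)
  have hAB : 0 ≤ A * B := mul_nonneg hA hB
  have one : ∀ i j, |a i * b j| ≤ 2 * (A * B) := fun i j => (mul_bd (ha i) (hb j)).trans (by linarith)
  have two : ∀ i j k l, |a i * b j + a k * b l| ≤ 2 * (A * B) := fun i j k l =>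
    (add_bd (mul_bd (ha i) (hb j)) (mul_bd (ha k) (hb l))).trans (by linarith)
  intro i
  unfold GP
  fin_cases i
  · exact one 0 0
  · exact two 0 1 1 0
  · exact one 1 1
  · exact two 0 2 2 0
  · exact two 1 2 2 1
  · exact one 2 2
  · exact two 0 3 3 0
  · exact two 1 3 3 1
  · exact two 2 3 3 2
  · exact one 3 3

theorem PP_bd {x y : Fin 4 → ℤ} {a b : Fin 3 → ℤ} {X Y A B : ℤ} (hx : ∀ i, |x i| ≤ X)
    (hy : ∀ i, |y i| ≤ Y) (ha : ∀ i, |a i| ≤ A) (hb : ∀ i, |b i| ≤ B) :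
    Bd (PP x y a b) (4 * ((X * Y) * (A * B))) := fun i g =>
  (mul_bd (BP_bd ha hb i) (GP_bd hx hy g)).trans (by linarith [mul_comm (A * B) (X * Y)])

end Pool.Agent.TET.Cvr
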