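import Pool.Agent.Helper37_TET.QgA

/-!
# MP_c7c9bf_co: guarded leaves, the forms of the conditions
-/

set_option autoImplicit false

namespace Pool.Agent.TET.Cvr

/-! ### packed values -/

theorem ival_pk (x y : Fin 4 → ℤ) (a b : Fin 3 → ℤ) : ival (2 ^ 192) (PP x y a b) =
    (pk4 (x 0) (x 1) (x 2) (x 3) * pk4 (y 0) (y 1) (y 2) (y 3)) *
      (pk3 (a 0) (a 1) (a 2) * pk3 (b 0) (b 1) (b 2)) := by
  rw [ival_PP, pk4_eq, pk4_eq, pk3_eq, pk3_eq]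
  generalize (2 ^ 192 : ℤ) = t
  ring

/-! ### the forms -/

def cq (e1 e2 e3 e4 e5 e6 : ℤ) (K A B G : Fin 4 → ℤ) (W X Y : Fin 3 → ℤ) : Cf :=
  e1 • (PP A B W W - PP G G W W + PP K B X X + PP K A Y Y + (2 : ℤ) • PP K G X Y) +
    e2 • (PP K B W X + PP K G W Y) + e3 • PP K B W W + e4 • (PP K A W Y + PP K G W X) +
    e5 • PP K A W W + e6 • PP K G W W

def cl (e1 e2 e3 e4 e5 e6 e7 e8 e9 : ℤ) (w K A B G : Fin 4 → ℤ) (W X Y : Fin 3 → ℤ) : Cf :=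
  e1 • PP K w X X + e2 • PP K w X Y + e3 • PP K w Y Y + e4 • PP K w W X + e5 • PP K w W Y +
    e6 • PP K w W W + e7 • PP A w W W + e8 • PP B w W W + e9 • PP G w W W

/-- the form of the domain -/
def chh (w K A : Fin 4 → ℤ) (W X : Fin 3 → ℤ) : Cf := PP K w W X - PP K w X X - PP A w W W

def vq (e1 e2 e3 e4 e5 e6 : ℤ) (x y k al be ga : ℝ) : ℝ :=
  e1 * ((al * be - ga ^ 2) + k * be * x ^ 2 + k * al * y ^ 2 + 2 * (k * ga * (x * y))) +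
    e2 * (k * be * x + k * ga * y) + e3 * (k * be) + e4 * (k * al * y + k * ga * x) +
    e5 * (k * al) + e6 * (k * ga)

def vl (e1 e2 e3 e4 e5 e6 e7 e8 e9 : ℤ) (x y k al be ga : ℝ) : ℝ :=
  k * (e1 * x ^ 2 + e2 * (x * y) + e3 * y ^ 2 + e4 * x + e5 * y + e6) + e7 * al + e8 * be + e9 * ga

/-- the real values at a point of a cell -/
structure At (K A B G : Fin 4 → ℤ) (W X Y : Fin 3 → ℤ) (x y k al be ga : ℝ) (m w : ℕ → ℝ) : Prop where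
  hW : m 0 * W 0 + m 1 * W 1 + m 2 * W 2 = 1
  hX : m 0 * X 0 + m 1 * X 1 + m 2 * X 2 = x
  hY : m 0 * Y 0 + m 1 * Y 1 + m 2 * Y 2 = y
  hK : w 0 * K 0 + w 1 * K 1 + w 2 * K 2 + w 3 * K 3 = k
  hA : w 0 * A 0 + w 1 * A 1 + w 2 * A 2 + w 3 * A 3 = al
  hB : w 0 * B 0 + w 1 * B 1 + w 2 * B 2 + w 3 * B 3 = be
  hG : w 0 * G 0 + w 1 * G 1 + w 2 * G 2 + w 3 * G 3 = ga

section

variable {e1 e2 e3 e4 e5 e6 e7 e8 e9 : ℤ} {om K A B G : Fin 4 → ℤ} {W X Y : Fin 3 → ℤ}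
  {x y k al be ga : ℝ} {m w : ℕ → ℝ}

theorem rv_cq (h : At K A B G W X Y x y k al be ga m w) :
    rv m (MU w) (cq e1 e2 e3 e4 e5 e6 K A B G W X Y) = vq e1 e2 e3 e4 e5 e6 x y k al be ga := by
  unfold cq vq
  simp only [rv_add, rv_sub, rv_smul, rv_MU, h.hW, h.hX, h.hY, h.hK, h.hA, h.hB, h.hG]
  push_cast
  ring

theorem rv_cl (h : At K A B G W X Y x y k al be ga m w) :
    rv m (MU w) (cl e1 e2 e3 e4 e5 e6 e7 e8 e9 om K A B G W X Y) =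
      (w 0 * om 0 + w 1 * om 1 + w 2 * om 2 + w 3 * om 3) *
        vl e1 e2 e3 e4 e5 e6 e7 e8 e9 x y k al be ga := by
  unfold cl vl
  simp only [rv_add, rv_smul, rv_MU, h.hW, h.hX, h.hY, h.hK, h.hA, h.hB, h.hG]
  ring

theorem rv_cl0 (h : At K A B G W X Y x y k al be ga m w) :
    rv m (NU w) (cl e1 e2 e3 e4 e5 e6 e7 e8 e9 e0 K A B G W X Y) =
      vl e1 e2 e3 e4 e5 e6 e7 e8 e9 x y k al be ga := by
  unfold cl vl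
  simp only [rv_add, rv_smul, rv_NU, h.hW, h.hX, h.hY, h.hK, h.hA, h.hB, h.hG]
  ring

theorem rv_chx (h : At K A B G W X Y x y k al be ga m w) :
    rv m (MU w) (chh om K A W X) =
      (w 0 * om 0 + w 1 * om 1 + w 2 * om 2 + w 3 * om 3) * (k * (x * (1 - x)) - al) := by
  unfold chh
  simp only [rv_sub, rv_MU, h.hW, h.hX, h.hK, h.hA]
  ring

theorem rv_chy (h : At K A B G W X Y x y k al be ga m w) :
    rv m (MU w) (chh om K B W Y) =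
      (w 0 * om 0 + w 1 * om 1 + w 2 * om 2 + w 3 * om 3) * (k * (y * (1 - y)) - be) := by
  unfold chh
  simp only [rv_sub, rv_MU, h.hW, h.hY, h.hK, h.hB]
  ring

/-! ### bounds -/

/-- bounds of the entries -/
structure Bx (K A B G : Fin 4 → ℤ) (W X Y : Fin 3 → ℤ) (U V : ℤ) : Prop where
  K : ∀ i, |K i| ≤ U
  A : ∀ i, |A i| ≤ U
  B : ∀ i, |B i| ≤ U
  G : ∀ i, |G i| ≤ U
  W : ∀ i, |W i| ≤ V
  X : ∀ i, |X i| ≤ V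
  Y : ∀ i, |Y i| ≤ V

theorem cq_bd {U V E : ℤ} (h : Bx K A B G W X Y U V) (h1 : |e1| ≤ E) (h2 : |e2| ≤ E) (h3 : |e3| ≤ E)
    (h4 : |e4| ≤ E) (h5 : |e5| ≤ E) (h6 : |e6| ≤ E) :
    Bd (cq e1 e2 e3 e4 e5 e6 K A B G W X Y) (52 * (E * ((U * U) * (V * V)))) := by
  have two : |(2 : ℤ)| ≤ 2 := by norm_num
  have p := fun {x y : Fin 4 → ℤ} {a b : Fin 3 → ℤ} (hx : ∀ i, |x i| ≤ U) (hy : ∀ i, |y i| ≤ U)
    (ha : ∀ i, |a i| ≤ V) (hb : ∀ i, |b i| ≤ V) => PP_bd hx hy ha hb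
  have b1 := Bd.smul h1 ((((p h.A h.B h.W h.W).sub (p h.G h.G h.W h.W)).add
    (p h.K h.B h.X h.X)).add (p h.K h.A h.Y h.Y) |>.add (Bd.smul two (p h.K h.G h.X h.Y)))
  have b2 := Bd.smul h2 ((p h.K h.B h.W h.X).add (p h.K h.G h.W h.Y))
  have b3 := Bd.smul h3 (p h.K h.B h.W h.W)
  have b4 := Bd.smul h4 ((p h.K h.A h.W h.Y).add (p h.K h.G h.W h.X))
  have b5 := Bd.smul h5 (p h.K h.A h.W h.W)
  have b6 := Bd.smul h6 (p h.K h.G h.W h.W)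
  refine (((((b1.add b2).add b3).add b4).add b5).add b6).mono (le_of_eq ?_)
  ring

theorem cl_bd {U V E O : ℤ} (h : Bx K A B G W X Y U V) (ho : ∀ i, |om i| ≤ O) (h1 : |e1| ≤ E)
    (h2 : |e2| ≤ E) (h3 : |e3| ≤ E) (h4 : |e4| ≤ E) (h5 : |e5| ≤ E) (h6 : |e6| ≤ E) (h7 : |e7| ≤ E)
    (h8 : |e8| ≤ E) (h9 : |e9| ≤ E) :
    Bd (cl e1 e2 e3 e4 e5 e6 e7 e8 e9 om K A B G W X Y) (36 * (E * ((U * O) * (V * V)))) := by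
  have p := fun {x : Fin 4 → ℤ} {a b : Fin 3 → ℤ} (hx : ∀ i, |x i| ≤ U)
    (ha : ∀ i, |a i| ≤ V) (hb : ∀ i, |b i| ≤ V) => PP_bd hx ho ha hb
  have b1 := Bd.smul h1 (p h.K h.X h.X)
  have b2 := Bd.smul h2 (p h.K h.X h.Y)
  have b3 := Bd.smul h3 (p h.K h.Y h.Y)
  have b4 := Bd.smul h4 (p h.K h.W h.X)
  have b5 := Bd.smul h5 (p h.K h.W h.Y)
  have b6 := Bd.smul h6 (p h.K h.W h.W)
  have b7 := Bd.smul h7 (p h.A h.W h.W)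
  have b8 := Bd.smul h8 (p h.B h.W h.W)
  have b9 := Bd.smul h9 (p h.G h.W h.W)
  refine ((((((((b1.add b2).add b3).add b4).add b5).add b6).add b7).add b8).add b9).mono
    (le_of_eq ?_)
  ring

theorem chh_bd {U V O : ℤ} (hK : ∀ i, |K i| ≤ U) (hA : ∀ i, |A i| ≤ U) (hW : ∀ i, |W i| ≤ V)
    (hX : ∀ i, |X i| ≤ V) (ho : ∀ i, |om i| ≤ O) :
    Bd (chh om K A W X) (12 * ((U * O) * (V * V))) := by
  refine (((PP_bd hK ho hW hX).sub (PP_bd hK ho hX hX)).sub (PP_bd hA ho hW hW)).mono (le_of_eq ?_)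
  ring

end

/-! ### the conditions -/

theorem dz_real {s0 s1 s2 s3 : ℕ} (h0 : s0 < 4) (h1 : s1 < 4) (h2 : s2 < 4) (h3 : s3 < 4) (v e : V4) :
    (vR v ⬝ᵥ (vR e ∘ sg s0 s1 s2 s3 h0 h1 h2 h3)) = (dz s0 s1 s2 s3 v e : ℤ) := by
  rw [← vR_prm _ h0 h1 h2 h3, ← dot_eq]
  rfl

theorem dot_lin_real {v f : Fin 4 → ℝ} {a b c : Fin 4 → ℝ} {p q r : ℝ} (h : f = p • a + q • b + r • c) :
    (v ⬝ᵥ f) = p * (v ⬝ᵥ a) + q * (v ⬝ᵥ b) + r * (v ⬝ᵥ c) := dot_comb v h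

theorem nR_dz {s0 s1 s2 s3 : ℕ} (h0 : s0 < 4) (h1 : s1 < 4) (h2 : s2 < 4) (h3 : s3 < 4) (v : V4)
    (x y : ℝ) : (vR v ⬝ᵥ (nR 0 x y ∘ sg s0 s1 s2 s3 h0 h1 h2 h3)) =
      x * (dz s0 s1 s2 s3 v ⟨1, -1, 0, 0⟩ : ℤ) + y * (dz s0 s1 s2 s3 v ⟨0, 0, -1, 1⟩ : ℤ) +
        1 * (dz s0 s1 s2 s3 v ⟨-1, 0, 1, 0⟩ : ℤ) := by
  rw [← dz_real h0 h1 h2 h3, ← dz_real h0 h1 h2 h3, ← dz_real h0 h1 h2 h3]
  refine dot_lin_real ?_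
  refine comp_comb _ ?_
  funext i
  fin_cases i <;> simp [nR, vR] <;> ring

theorem pR_dz {s0 s1 s2 s3 : ℕ} (h0 : s0 < 4) (h1 : s1 < 4) (h2 : s2 < 4) (h3 : s3 < 4) (v : V4)
    (x : ℝ) : (vR v ⬝ᵥ (pR 0 x ∘ sg s0 s1 s2 s3 h0 h1 h2 h3)) =
      1 * (dz s0 s1 s2 s3 v ⟨1, 0, 1, 1⟩ : ℤ) + (-x) * (dz s0 s1 s2 s3 v ⟨0, 0, 1, 1⟩ : ℤ) +
        0 * (dz s0 s1 s2 s3 v ⟨0, 0, 0, 1⟩ : ℤ) := by
  rw [← dz_real h0 h1 h2 h3, ← dz_real h0 h1 h2 h3, ← dz_real h0 h1 h2 h3]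
  refine dot_lin_real ?_
  refine comp_comb _ ?_
  funext i
  fin_cases i <;> simp [pR, vR] <;> ring

theorem qR_dz {s0 s1 s2 s3 : ℕ} (h0 : s0 < 4) (h1 : s1 < 4) (h2 : s2 < 4) (h3 : s3 < 4) (v : V4)
    (y : ℝ) : (vR v ⬝ᵥ (qR 0 y ∘ sg s0 s1 s2 s3 h0 h1 h2 h3)) =
      y * (dz s0 s1 s2 s3 v ⟨0, 0, 1, 1⟩ : ℤ) + (-1) * (dz s0 s1 s2 s3 v ⟨0, 0, 0, 1⟩ : ℤ) +
        0 * (dz s0 s1 s2 s3 v ⟨0, 0, 0, 1⟩ : ℤ) := by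
  rw [← dz_real h0 h1 h2 h3, ← dz_real h0 h1 h2 h3]
  refine dot_lin_real ?_
  refine comp_comb _ ?_
  funext i
  fin_cases i <;> simp [qR, vR] <;> ring

/-- the value of an encoded condition -/
noncomputable def fv (x y k al be ga : ℝ) : FC → ℝ
  | .l c1 c2 c3 c4 c5 c6 c7 c8 c9 => vl (c1 - (C0 : ℕ)) (c2 - (C0 : ℕ)) (c3 - (C0 : ℕ))
      (c4 - (C0 : ℕ)) (c5 - (C0 : ℕ)) (c6 - (C0 : ℕ)) (c7 - (C0 : ℕ)) (c8 - (C0 : ℕ))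
      (c9 - (C0 : ℕ)) x y k al be ga
  | .q c1 c2 c3 c4 c5 c6 _ => vq (c1 - (C0 : ℕ)) (c2 - (C0 : ℕ)) (c3 - (C0 : ℕ))
      (c4 - (C0 : ℕ)) (c5 - (C0 : ℕ)) (c6 - (C0 : ℕ)) x y k al be ga

theorem hold_fv {s0 s1 s2 s3 : ℕ} (h0 : s0 < 4) (h1 : s1 < 4) (h2 : s2 < 4) (h3 : s3 < 4) {c : Cd}
    {f : FC} (h : encN s0 s1 s2 s3 c f = true) {x y k al be ga : ℝ} (hf : 0 ≤ fv x y k al be ga f) :
    Hold 0 x y k al be ga (sg s0 s1 s2 s3 h0 h1 h2 h3) c := by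
  cases c with
  | l m g =>
    cases f with
    | l c1 c2 c3 c4 c5 c6 c7 c8 c9 =>
      obtain ⟨a1, a2, a3, a4, a5, a6, a7, a8, a9⟩ := encL_iff h
      have k1 := sub_eq_of_eq_add a1
      have k2 := sub_eq_of_eq_add a2
      have k3 := sub_eq_of_eq_add a3
      have k4 := sub_eq_of_eq_add a4
      have k5 := sub_eq_of_eq_add a5
      have k6 := sub_eq_of_eq_add a6
      have k7 := sub_eq_of_eq_add a7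
      have k8 := sub_eq_of_eq_add a8
      have k9 := sub_eq_of_eq_add a9
      have hf' : 0 ≤ vl (c1 - (C0 : ℕ)) (c2 - (C0 : ℕ)) (c3 - (C0 : ℕ)) (c4 - (C0 : ℕ))
        (c5 - (C0 : ℕ)) (c6 - (C0 : ℕ)) (c7 - (C0 : ℕ)) (c8 - (C0 : ℕ)) (c9 - (C0 : ℕ))
        x y k al be ga := hf
      unfold vl at hf'
      rw [k1, k2, k3, k4, k5, k6, k7, k8, k9] at hf'
      show 0 ≤ k * ((vR m ⬝ᵥ (nR 0 x y ∘ sg s0 s1 s2 s3 h0 h1 h2 h3)) *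
          (vR g ⬝ᵥ (nR 0 x y ∘ sg s0 s1 s2 s3 h0 h1 h2 h3))) +
        al * ((vR m ⬝ᵥ (dR ∘ sg s0 s1 s2 s3 h0 h1 h2 h3)) *
          (vR g ⬝ᵥ (dR ∘ sg s0 s1 s2 s3 h0 h1 h2 h3))) +
        be * ((vR m ⬝ᵥ (eR 0 ∘ sg s0 s1 s2 s3 h0 h1 h2 h3)) *
          (vR g ⬝ᵥ (eR 0 ∘ sg s0 s1 s2 s3 h0 h1 h2 h3))) +
        ga * ((vR m ⬝ᵥ (dR ∘ sg s0 s1 s2 s3 h0 h1 h2 h3)) *
          (vR g ⬝ᵥ (eR 0 ∘ sg s0 s1 s2 s3 h0 h1 h2 h3)) +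
          (vR m ⬝ᵥ (eR 0 ∘ sg s0 s1 s2 s3 h0 h1 h2 h3)) *
          (vR g ⬝ᵥ (dR ∘ sg s0 s1 s2 s3 h0 h1 h2 h3)))
      have ed := fun v : V4 => dz_real h0 h1 h2 h3 v dC
      have ee := fun v : V4 => dz_real h0 h1 h2 h3 v (eC 0)
      rw [d_sc] at ed
      rw [e_sc] at ee
      simp only [nR_dz h0 h1 h2 h3, ed, ee]
      push_cast at hf'
      refine hf'.trans (le_of_eq ?_)
      ring
    | q c1 c2 c3 c4 c5 c6 s => exact absurd h Bool.false_ne_true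
  | q v g =>
    cases f with
    | l c1 c2 c3 c4 c5 c6 c7 c8 c9 => exact absurd h Bool.false_ne_true
    | q c1 c2 c3 c4 c5 c6 s =>
      obtain ⟨a1, a2, a3, a4, a5, a6, _⟩ := encQ_iff h
      have k1 := sub_eq_of_eq_add a1
      have k2 := sub_eq_of_eq_add a2
      have k3 := sub_eq_of_eq_add a3
      have k4 := sub_eq_of_eq_add a4
      have k5 := sub_eq_of_eq_add a5
      have k6 := sub_eq_of_eq_add a6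
      have hf' : 0 ≤ vq (c1 - (C0 : ℕ)) (c2 - (C0 : ℕ)) (c3 - (C0 : ℕ)) (c4 - (C0 : ℕ))
        (c5 - (C0 : ℕ)) (c6 - (C0 : ℕ)) x y k al be ga := hf
      unfold vq at hf'
      rw [k1, k2, k3, k4, k5, k6] at hf'
      show 0 ≤ (al * be - ga ^ 2) * ((vR v ⬝ᵥ (sR 0 ∘ sg s0 s1 s2 s3 h0 h1 h2 h3)) *
          (vR g ⬝ᵥ (sR 0 ∘ sg s0 s1 s2 s3 h0 h1 h2 h3))) +
        k * (be * ((vR v ⬝ᵥ (pR 0 x ∘ sg s0 s1 s2 s3 h0 h1 h2 h3)) *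
          (vR g ⬝ᵥ (pR 0 x ∘ sg s0 s1 s2 s3 h0 h1 h2 h3))) +
          al * ((vR v ⬝ᵥ (qR 0 y ∘ sg s0 s1 s2 s3 h0 h1 h2 h3)) *
          (vR g ⬝ᵥ (qR 0 y ∘ sg s0 s1 s2 s3 h0 h1 h2 h3))) -
          ga * ((vR v ⬝ᵥ (pR 0 x ∘ sg s0 s1 s2 s3 h0 h1 h2 h3)) *
          (vR g ⬝ᵥ (qR 0 y ∘ sg s0 s1 s2 s3 h0 h1 h2 h3)) +
          (vR v ⬝ᵥ (qR 0 y ∘ sg s0 s1 s2 s3 h0 h1 h2 h3)) *
          (vR g ⬝ᵥ (pR 0 x ∘ sg s0 s1 s2 s3 h0 h1 h2 h3))))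
      have es := fun v : V4 => dz_real h0 h1 h2 h3 v (sC 0)
      rw [s_sc] at es
      have es' : ∀ v : V4, (vR v ⬝ᵥ (sR 0 ∘ sg s0 s1 s2 s3 h0 h1 h2 h3)) =
        (dz s0 s1 s2 s3 v ⟨0, 0, 1, 1⟩ : ℤ) := es
      simp only [pR_dz h0 h1 h2 h3, qR_dz h0 h1 h2 h3, es']
      push_cast at hf'
      refine hf'.trans (le_of_eq ?_)
      ring

end Pool.Agent.TET.Cvr
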