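import Pool.Agent.Helper37_TET.QgB

/-!
# MP_c7c9bf_co: guarded leaves, the checker
-/

set_option autoImplicit false

namespace Pool.Agent.TET.Cvr

noncomputable section

/-- a certificate of a condition `a` of `A`: plain, or `mu a + lam b - om (d1 h1 + d2 h2) >= 0` -/
inductive GC where
  | n
  | g (mu lam d1 d2 : ℕ)

/-- a cover tree with guarded leaves -/
inductive TrG where
  | B (r p q : ℕ) (s t : TrG)
  | C (i j p q : ℕ) (s t : TrG)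
  | L (n : ℕ)
  | G (nA nB j w0 w1 w2 w3 : ℕ) (l : List GC)
  | O (t : ℕ)
  | P (a b : ℤ)

def CQ0 : ℕ := Nat.mul (Nat.mul 4 C0) ZZ
def CL0 : ℕ := Nat.mul C0 ZZ

/-- positive part of a form -/
def fpos (L1 L2 L3 L4 L5 L6 L7 L8 L9 M1 M2 M3 M4 M5 M6 om : ℕ) (c : FC) : ℕ :=
  FC.rec (motive := fun _ => ℕ)
    (fun c1 c2 c3 c4 c5 c6 c7 c8 c9 => Nat.mul om (Nat.add (Nat.add (Nat.mul c1 L1) (Nat.add (Nat.mul c2 L2)
      (Nat.mul c3 L3))) (Nat.add (Nat.mul c4 L4) (Nat.add (Nat.mul c5 L5) (Nat.add (Nat.mul c6 L6)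
      (Nat.add (Nat.mul c7 L7) (Nat.add (Nat.mul c8 L8) (Nat.add (Nat.mul c9 L9) CL0))))))))
    (fun c1 c2 c3 c4 c5 c6 _ => Nat.add (Nat.add (Nat.mul c1 M1) (Nat.add (Nat.mul c2 M2) (Nat.mul c3 M3)))
      (Nat.add (Nat.mul c4 M4) (Nat.add (Nat.mul c5 M5) (Nat.add (Nat.mul c6 M6) CQ0)))) c

/-- negative part of a form -/
def fneg (NL NQ om : ℕ) (c : FC) : ℕ :=
  FC.rec (motive := fun _ => ℕ)
    (fun _ _ _ _ _ _ _ _ c9 => Nat.mul om (Nat.add NL (Nat.mul c9 ZZ)))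
    (fun _ _ _ _ _ _ s => Nat.add NQ (Nat.mul s ZZ)) c

/-- the guard test -/
def tgd (L1 L2 L3 L4 L5 L6 L7 L8 L9 M1 M2 M3 M4 M5 M6 NL NQ om mu lam d1 d2 : ℕ) (a b : FC) : Bool :=
  Bool.and (Nat.ble 1 mu) (Nat.beq (Nat.land (Nat.sub
    (Nat.add (Nat.add (Nat.mul mu (fpos L1 L2 L3 L4 L5 L6 L7 L8 L9 M1 M2 M3 M4 M5 M6 om a))
        (Nat.mul lam (fpos L1 L2 L3 L4 L5 L6 L7 L8 L9 M1 M2 M3 M4 M5 M6 om b)))
      (Nat.add (Nat.mul om (Nat.add (Nat.mul d1 (Nat.add L1 L7)) (Nat.mul d2 (Nat.add L3 L8)))) OFF))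
    (Nat.add (Nat.add (Nat.mul mu (fneg NL NQ om a)) (Nat.mul lam (fneg NL NQ om b)))
      (Nat.mul om (Nat.add (Nat.mul d1 L4) (Nat.mul d2 L5))))) OFF) OFF)

/-- the plain test -/
def tpl (L1 L2 L3 L4 L5 L6 L7 L8 L9 M1 M2 M3 M4 M5 M6 NL NQ : ℕ) (c : FC) : Bool :=
  FC.rec (motive := fun _ => Bool)
    (fun c1 c2 c3 c4 c5 c6 c7 c8 c9 => tl L1 L2 L3 L4 L5 L6 L7 L8 L9 NL c1 c2 c3 c4 c5 c6 c7 c8 c9)
    (fun c1 c2 c3 c4 c5 c6 s => tq M1 M2 M3 M4 M5 M6 NQ c1 c2 c3 c4 c5 c6 s) c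

/-- all but number `j` -/
def allBut (p : FC → Bool) (l : List FC) : ℕ → Bool :=
  List.rec (motive := fun _ => ℕ → Bool) (fun _ => true)
    (fun a l' ih j => Nat.rec (motive := fun _ => Bool) (allL p l') (fun j _ => Bool.and (p a) (ih j)) j) l

def dF : FC := .q 0 0 0 0 0 0 0

def gv3 (L1 L2 L3 L4 L5 L6 L7 L8 L9 M1 M2 M3 M4 M5 M6 NL NQ om j : ℕ) (lA lB : List FC)
    (cs : List GC) : Bool :=
  Bool.and (allBut (tpl L1 L2 L3 L4 L5 L6 L7 L8 L9 M1 M2 M3 M4 M5 M6 NL NQ) lB j)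
    (all2 (fun a c => GC.rec (motive := fun _ => Bool)
      (tpl L1 L2 L3 L4 L5 L6 L7 L8 L9 M1 M2 M3 M4 M5 M6 NL NQ a)
      (fun mu lam d1 d2 => tgd L1 L2 L3 L4 L5 L6 L7 L8 L9 M1 M2 M3 M4 M5 M6 NL NQ om mu lam d1 d2 a
        (nth dF lB j)) c) lA cs)

def gv2 (L1 L2 L3 L4 L5 L6 L7 L8 L9 M1 M2 M3 M4 M5 M6 om j : ℕ) (lA lB : List FC)
    (cs : List GC) : Bool :=
  gv3 L1 L2 L3 L4 L5 L6 L7 L8 L9 M1 M2 M3 M4 M5 M6
    (Nat.mul C0 (Nat.add (sm6 L1 L2 L3 L4 L5 L6) (Nat.add L7 (Nat.add L8 L9))))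
    (Nat.mul C0 (sm6 M1 M2 M3 M4 M5 M6)) om j lA lB cs

def gv1 (WW WX WY XX XY YY K A B P KA KB KP HP n1 n2 n4 n6 n9 om j : ℕ) (lA lB : List FC)
    (cs : List GC) : Bool :=
  Bool.and (Bool.and (Bool.and (Nat.ble n1 ZZ) (Nat.ble n2 ZZ))
      (Bool.and (Nat.ble n4 ZZ) (Bool.and (Nat.ble n6 ZZ) (Nat.ble n9 ZZ))))
    (gv2 (Nat.mul K XX) (Nat.mul K XY) (Nat.mul K YY) (Nat.mul K WX) (Nat.mul K WY) (Nat.mul K WW)
      (Nat.mul A WW) (Nat.mul B WW) (zs (Nat.mul P WW) n9)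
      (zs (Nat.add (Nat.add (Nat.mul HP WW) (Nat.mul KB XX)) (Nat.add (Nat.mul KA YY)
        (Nat.mul 2 (Nat.mul KP XY)))) n1)
      (zs (Nat.add (Nat.mul KB WX) (Nat.mul KP WY)) n2)
      (Nat.mul KB WW)
      (zs (Nat.add (Nat.mul KA WY) (Nat.mul KP WX)) n4)
      (Nat.mul KA WW)
      (zs (Nat.mul KP WW) n6) om j lA lB cs)

def gv0b (WW WX WY XX XY YY K A B P N KN om j : ℕ) (lA lB : List FC) (cs : List GC) : Bool :=
  gv1 WW WX WY XX XY YY K A B P (Nat.mul K A) (Nat.mul K B) (Nat.mul K P)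
    (Nat.add (Nat.mul A B) (Nat.mul 2 (Nat.mul P N)))
    (Nat.add (Nat.mul (Nat.add (Nat.mul P P) (Nat.mul N N)) WW) (Nat.mul 2 (Nat.mul KN XY)))
    (Nat.mul KN WY) (Nat.mul KN WX) (Nat.mul KN WW) (Nat.mul N WW) om j lA lB cs

def gv0 (W X Y K A B P N om j : ℕ) (lA lB : List FC) (cs : List GC) : Bool :=
  gv0b (Nat.mul W W) (Nat.mul W X) (Nat.mul W Y) (Nat.mul X X) (Nat.mul X Y) (Nat.mul Y Y)
    K A B P N (Nat.mul K N) om j lA lB cs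

/-- sum of the multipliers -/
def csum (cs : List GC) : ℕ :=
  List.rec (motive := fun _ => ℕ) 1 (fun c _ ih => Nat.add (GC.rec (motive := fun _ => ℕ) 0
    (fun mu lam d1 d2 => Nat.add (Nat.add mu lam) (Nat.add d1 d2)) c) ih) cs

def M5 : ℕ := Nat.pow 2 148

def sbN (x : Sm) : ℕ := Nat.add (Nat.add (Nat.add x.p0.X (Nat.add x.p0.Y x.p0.W))
  (Nat.add x.p1.X (Nat.add x.p1.Y x.p1.W))) (Nat.add x.p2.X (Nat.add x.p2.Y x.p2.W))

def sgN (x : Sm) : ℕ := Nat.add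
  (Nat.add (Nat.add x.u0.k (Nat.add x.u0.al (Nat.add x.u0.be (Nat.add x.u0.gp x.u0.gn))))
    (Nat.add x.u1.k (Nat.add x.u1.al (Nat.add x.u1.be (Nat.add x.u1.gp x.u1.gn)))))
  (Nat.add (Nat.add x.u2.k (Nat.add x.u2.al (Nat.add x.u2.be (Nat.add x.u2.gp x.u2.gn))))
    (Nat.add x.u3.k (Nat.add x.u3.al (Nat.add x.u3.be (Nat.add x.u3.gp x.u3.gn)))))

/-- size check -/
def szG (sb sg sw m : ℕ) : Bool :=
  Nat.ble (Nat.mul (Nat.mul sb sb) (Nat.mul (Nat.mul sg sg) (Nat.mul sw m))) M5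

def leafG (oA oB : Option (List FC)) (j w0 w1 w2 w3 : ℕ) (cs : List GC) (x : Sm) : Bool :=
  Option.rec (motive := fun _ => Bool) false (fun lA => Option.rec (motive := fun _ => Bool) false
    (fun lB => Bool.and (Bool.and (Bool.and (Bool.and (Nat.ble 1 w0) (Nat.ble 1 w1))
        (Bool.and (Nat.ble 1 w2) (Nat.ble 1 w3)))
        (szG (sbN x) (sgN x) (Nat.add (Nat.add w0 w1) (Nat.add w2 w3)) (csum cs)))
    (gv0 (pkN3 x.p0.W x.p1.W x.p2.W) (pkN3 x.p0.X x.p1.X x.p2.X) (pkN3 x.p0.Y x.p1.Y x.p2.Y)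
      (pkN4 x.u0.k x.u1.k x.u2.k x.u3.k) (pkN4 x.u0.al x.u1.al x.u2.al x.u3.al)
      (pkN4 x.u0.be x.u1.be x.u2.be x.u3.be) (pkN4 x.u0.gp x.u1.gp x.u2.gp x.u3.gp)
      (pkN4 x.u0.gn x.u1.gn x.u2.gn x.u3.gn) (pkN4 w0 w1 w2 w3) j lA lB cs)) oB) oA

/-- **the checker of the cone chart with guarded leaves** -/
def chkM (T : Bt) (t : TrG) : Sm → Bool :=
  TrG.rec (motive := fun _ => Sm → Bool)
    (fun r p q _ _ f g x => Bool.and (Bool.and (Nat.ble r 2) (Bool.and (Nat.ble 1 p) (Nat.ble 1 q)))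
      (Bool.and (f (sPN x (nx r) (mid p q (gPN x r) (gPN x (nx r)))))
        (g (sPN x r (mid p q (gPN x r) (gPN x (nx r)))))))
    (fun i j p q _ _ f g x => Bool.and (Bool.and (Bool.and (Nat.ble i 3) (Nat.ble j 3))
        (Bool.and (not (Nat.beq i j)) (Bool.and (Nat.ble 1 p) (Nat.ble 1 q))))
      (Bool.and (f (sUN x j (cmN p q (gUN x i) (gUN x j)))) (g (sUN x i (cmN p q (gUN x i) (gUN x j))))))
    (fun n x => leafN (T.get n) x)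
    (fun nA nB j w0 w1 w2 w3 l x => leafG (T.get nA) (T.get nB) j w0 w1 w2 w3 l x)
    (fun t x => outN t x)
    (fun a b x => ps a b x.s) t

/-! ### bounds of the table -/

def M6 : ℕ := Nat.pow 2 36

def fcB (c : FC) : Bool :=
  FC.rec (motive := fun _ => Bool)
    (fun c1 c2 c3 c4 c5 c6 c7 c8 c9 => Bool.and (Bool.and (Bool.and (Nat.ble c1 M6) (Nat.ble c2 M6))
      (Bool.and (Nat.ble c3 M6) (Nat.ble c4 M6))) (Bool.and (Bool.and (Nat.ble c5 M6) (Nat.ble c6 M6))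
      (Bool.and (Nat.ble c7 M6) (Bool.and (Nat.ble c8 M6) (Nat.ble c9 M6)))))
    (fun c1 c2 c3 c4 c5 c6 _ => Bool.and (Bool.and (Nat.ble c1 M6) (Bool.and (Nat.ble c2 M6) (Nat.ble c3 M6)))
      (Bool.and (Nat.ble c4 M6) (Bool.and (Nat.ble c5 M6) (Nat.ble c6 M6)))) c

/-- all coefficients of the encoded table are at most `2 ^ 36` -/
def btB (t : Bt) : Bool :=
  Bt.rec (motive := fun _ => Bool) true (fun _ x _ f g => Bool.and (Bool.and f g) (allL fcB x.l)) t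

end

end Pool.Agent.TET.Cvr
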