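import Pool.Agent.Helper37_TET.QgC

/-!
# MP_c7c9bf_co: guarded leaves, the tests
-/

set_option autoImplicit false

namespace Pool.Agent.TET.Cvr

theorem CQ0_eq : CQ0 = 4 * C0 * ZZ := by
  have key : ∀ z c : ℕ, Nat.mul (Nat.mul 4 c) z = 4 * c * z := fun _ _ => rfl
  unfold CQ0
  exact key _ _

theorem CL0_eq : CL0 = C0 * ZZ := by
  have key : ∀ z c : ℕ, Nat.mul c z = c * z := fun _ _ => rfl
  unfold CL0
  exact key _ _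

theorem M5_eq : M5 = 2 ^ 148 := rfl
theorem M6_eq : M6 = 2 ^ 36 := rfl

attribute [local irreducible] OFF ZZ CQ CL CQ0 CL0 M5 M6

/-- the packed quantities -/
structure Pck (k a b g w x y o : ℤ) (K A B G O : Fin 4 → ℤ) (W X Y : Fin 3 → ℤ) : Prop where
  k : pk4 (K 0) (K 1) (K 2) (K 3) = k
  a : pk4 (A 0) (A 1) (A 2) (A 3) = a
  b : pk4 (B 0) (B 1) (B 2) (B 3) = b
  g : pk4 (G 0) (G 1) (G 2) (G 3) = g
  o : pk4 (O 0) (O 1) (O 2) (O 3) = o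
  w : pk3 (W 0) (W 1) (W 2) = w
  x : pk3 (X 0) (X 1) (X 2) = x
  y : pk3 (Y 0) (Y 1) (Y 2) = y

/-- the monomials -/
structure Mon (L1 L2 L3 L4 L5 L6 L7 L8 L9 N1 N2 N3 N4 N5 N6 NL NQ om : ℕ) (k a b g w x y o : ℤ) :
    Prop where
  l1 : (L1 : ℤ) = k * (x * x)
  l2 : (L2 : ℤ) = k * (x * y)
  l3 : (L3 : ℤ) = k * (y * y)
  l4 : (L4 : ℤ) = k * (w * x)
  l5 : (L5 : ℤ) = k * (w * y)
  l6 : (L6 : ℤ) = k * (w * w)
  l7 : (L7 : ℤ) = a * (w * w)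
  l8 : (L8 : ℤ) = b * (w * w)
  l9 : (L9 : ℤ) = g * (w * w) + (ZZ : ℕ)
  m1 : (N1 : ℤ) = ((a * b - g * g) * (w * w) + k * b * (x * x) + k * a * (y * y) +
    2 * (k * g * (x * y))) + (ZZ : ℕ)
  m2 : (N2 : ℤ) = (k * b * (w * x) + k * g * (w * y)) + (ZZ : ℕ)
  m3 : (N3 : ℤ) = k * b * (w * w)
  m4 : (N4 : ℤ) = (k * a * (w * y) + k * g * (w * x)) + (ZZ : ℕ)
  m5 : (N5 : ℤ) = k * a * (w * w)
  m6 : (N6 : ℤ) = k * g * (w * w) + (ZZ : ℕ)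
  nl : NL = C0 * (L1 + (L2 + L3) + (L4 + (L5 + L6)) + (L7 + (L8 + L9)))
  nq : NQ = C0 * (N1 + (N2 + N3) + (N4 + (N5 + N6)))
  om : (om : ℤ) = o

/-- an encoded condition is consistent -/
def Vf : FC → Prop
  | .l _ _ _ _ _ _ _ _ _ => True
  | .q c1 c2 _ c4 _ c6 s => s = c1 + c2 + (c4 + c6)

/-- the form of an encoded condition -/
def cF (O K A B G : Fin 4 → ℤ) (W X Y : Fin 3 → ℤ) : FC → Cf
  | .l c1 c2 c3 c4 c5 c6 c7 c8 c9 => cl (c1 - (C0 : ℕ)) (c2 - (C0 : ℕ)) (c3 - (C0 : ℕ))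
      (c4 - (C0 : ℕ)) (c5 - (C0 : ℕ)) (c6 - (C0 : ℕ)) (c7 - (C0 : ℕ)) (c8 - (C0 : ℕ))
      (c9 - (C0 : ℕ)) O K A B G W X Y
  | .q c1 c2 c3 c4 c5 c6 _ => cq (c1 - (C0 : ℕ)) (c2 - (C0 : ℕ)) (c3 - (C0 : ℕ))
      (c4 - (C0 : ℕ)) (c5 - (C0 : ℕ)) (c6 - (C0 : ℕ)) K A B G W X Y

section

variable {L1 L2 L3 L4 L5 L6 L7 L8 L9 N1 N2 N3 N4 N5 N6 NL NQ om : ℕ} {k a b g w x y o : ℤ}
  {K A B G O : Fin 4 → ℤ} {W X Y : Fin 3 → ℤ}

theorem ival_cq (hp : Pck k a b g w x y o K A B G O W X Y) (e1 e2 e3 e4 e5 e6 : ℤ) :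
    ival (2 ^ 192) (cq e1 e2 e3 e4 e5 e6 K A B G W X Y) =
      e1 * ((a * b - g * g) * (w * w) + k * b * (x * x) + k * a * (y * y) + 2 * (k * g * (x * y))) +
      e2 * (k * b * (w * x) + k * g * (w * y)) + e3 * (k * b * (w * w)) +
      e4 * (k * a * (w * y) + k * g * (w * x)) + e5 * (k * a * (w * w)) + e6 * (k * g * (w * w)) := by
  unfold cq
  simp only [ival_add, ival_sub, ival_smul, ival_pk, hp.k, hp.a, hp.b, hp.g, hp.w, hp.x, hp.y]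
  ring

theorem ival_cl (hp : Pck k a b g w x y o K A B G O W X Y) (e1 e2 e3 e4 e5 e6 e7 e8 e9 : ℤ) :
    ival (2 ^ 192) (cl e1 e2 e3 e4 e5 e6 e7 e8 e9 O K A B G W X Y) =
      o * (e1 * (k * (x * x)) + e2 * (k * (x * y)) + e3 * (k * (y * y)) + e4 * (k * (w * x)) +
      e5 * (k * (w * y)) + e6 * (k * (w * w)) + e7 * (a * (w * w)) + e8 * (b * (w * w)) +
      e9 * (g * (w * w))) := by
  unfold cl
  simp only [ival_add, ival_smul, ival_pk, hp.k, hp.a, hp.b, hp.g, hp.o, hp.w, hp.x, hp.y]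
  ring

theorem ival_chx (hp : Pck k a b g w x y o K A B G O W X Y) :
    ival (2 ^ 192) (chh O K A W X) = o * (k * (w * x) - k * (x * x) - a * (w * w)) := by
  unfold chh
  simp only [ival_sub, ival_pk, hp.k, hp.a, hp.o, hp.w, hp.x]
  ring

theorem ival_chy (hp : Pck k a b g w x y o K A B G O W X Y) :
    ival (2 ^ 192) (chh O K B W Y) = o * (k * (w * y) - k * (y * y) - b * (w * w)) := by
  unfold chh
  simp only [ival_sub, ival_pk, hp.k, hp.b, hp.o, hp.w, hp.y]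
  ring

theorem fdiff (hp : Pck k a b g w x y o K A B G O W X Y)
    (hm : Mon L1 L2 L3 L4 L5 L6 L7 L8 L9 N1 N2 N3 N4 N5 N6 NL NQ om k a b g w x y o) {c : FC}
    (hc : Vf c) : ((fpos L1 L2 L3 L4 L5 L6 L7 L8 L9 N1 N2 N3 N4 N5 N6 om c : ℕ) : ℤ) -
      (fneg NL NQ om c : ℕ) = ival (2 ^ 192) (cF O K A B G W X Y c) := by
  cases c with
  | l c1 c2 c3 c4 c5 c6 c7 c8 c9 =>
    have e1 : fpos L1 L2 L3 L4 L5 L6 L7 L8 L9 N1 N2 N3 N4 N5 N6 om (.l c1 c2 c3 c4 c5 c6 c7 c8 c9) =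
      om * (c1 * L1 + (c2 * L2 + c3 * L3) + (c4 * L4 + (c5 * L5 + (c6 * L6 + (c7 * L7 + (c8 * L8 +
        (c9 * L9 + CL0))))))) := rfl
    have e2 : fneg NL NQ om (.l c1 c2 c3 c4 c5 c6 c7 c8 c9) = om * (NL + c9 * ZZ) := rfl
    have e3 : cF O K A B G W X Y (.l c1 c2 c3 c4 c5 c6 c7 c8 c9) = cl (c1 - (C0 : ℕ))
      (c2 - (C0 : ℕ)) (c3 - (C0 : ℕ)) (c4 - (C0 : ℕ)) (c5 - (C0 : ℕ)) (c6 - (C0 : ℕ))
      (c7 - (C0 : ℕ)) (c8 - (C0 : ℕ)) (c9 - (C0 : ℕ)) O K A B G W X Y := rfl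
    rw [e1, e2, e3, ival_cl hp, CL0_eq, hm.nl]
    push_cast
    rw [hm.l1, hm.l2, hm.l3, hm.l4, hm.l5, hm.l6, hm.l7, hm.l8, hm.l9, hm.om]
    ring
  | q c1 c2 c3 c4 c5 c6 s =>
    have e1 : fpos L1 L2 L3 L4 L5 L6 L7 L8 L9 N1 N2 N3 N4 N5 N6 om (.q c1 c2 c3 c4 c5 c6 s) =
      c1 * N1 + (c2 * N2 + c3 * N3) + (c4 * N4 + (c5 * N5 + (c6 * N6 + CQ0))) := rfl
    have e2 : fneg NL NQ om (.q c1 c2 c3 c4 c5 c6 s) = NQ + s * ZZ := rfl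
    have e3 : cF O K A B G W X Y (.q c1 c2 c3 c4 c5 c6 s) = cq (c1 - (C0 : ℕ)) (c2 - (C0 : ℕ))
      (c3 - (C0 : ℕ)) (c4 - (C0 : ℕ)) (c5 - (C0 : ℕ)) (c6 - (C0 : ℕ)) K A B G W X Y := rfl
    have hs : s = c1 + c2 + (c4 + c6) := hc
    rw [e1, e2, e3, ival_cq hp, CQ0_eq, hm.nq, hs]
    push_cast
    rw [hm.m1, hm.m2, hm.m3, hm.m4, hm.m5, hm.m6]
    ring

/-! ### bounds -/

theorem c_bd {c : ℕ} (h : Nat.ble c M6 = true) : |(c : ℤ) - (C0 : ℕ)| ≤ 2 ^ 36 := by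
  have h1 : c ≤ M6 := Nat.le_of_ble_eq_true h
  rw [M6_eq] at h1
  have h2 : (c : ℤ) ≤ 2 ^ 36 := by exact_mod_cast h1
  have h3 : (0 : ℤ) ≤ c := Int.natCast_nonneg c
  have h4 : ((C0 : ℕ) : ℤ) = 34359738368 := by
    unfold C0
    norm_num
  rw [h4, abs_le]
  constructor <;> linarith

theorem sq_le {U : ℤ} (hU : 0 ≤ U) : U ≤ U * U := by
  rcases hU.eq_or_lt with h | h
  · rw [← h]
    norm_num
  · nlinarith

/-- the bound of a form, `O` at least `1` -/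
theorem cF_bd {U V S : ℤ} (hb : Bx K A B G W X Y U V) (hO : ∀ i, |O i| ≤ S) (hS : 1 ≤ S) {c : FC}
    (hc : fcB c = true) :
    Bd (cF O K A B G W X Y c) (52 * (2 ^ 36 * ((V * V) * ((U * U) * S)))) := by
  have hU : 0 ≤ U := (abs_nonneg _).trans (hb.K 0)
  have hV : 0 ≤ V := (abs_nonneg _).trans (hb.W 0)
  have hVV : 0 ≤ V * V := mul_nonneg hV hV
  cases c with
  | l c1 c2 c3 c4 c5 c6 c7 c8 c9 =>
    have h : Bool.and (Bool.and (Bool.and (Nat.ble c1 M6) (Nat.ble c2 M6))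
      (Bool.and (Nat.ble c3 M6) (Nat.ble c4 M6))) (Bool.and (Bool.and (Nat.ble c5 M6) (Nat.ble c6 M6))
      (Bool.and (Nat.ble c7 M6) (Bool.and (Nat.ble c8 M6) (Nat.ble c9 M6)))) = true := hc
    simp only [bAnd] at h
    obtain ⟨⟨⟨h1, h2⟩, h3, h4⟩, ⟨h5, h6⟩, h7, h8, h9⟩ := h
    refine (cl_bd hb hO (c_bd h1) (c_bd h2) (c_bd h3) (c_bd h4) (c_bd h5) (c_bd h6) (c_bd h7)
      (c_bd h8) (c_bd h9)).mono ?_
    have k1 : U * S ≤ (U * U) * S := mul_le_mul_of_nonneg_right (sq_le hU) (by linarith)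
    have k2 : (U * S) * (V * V) ≤ ((U * U) * S) * (V * V) := mul_le_mul_of_nonneg_right k1 hVV
    have k3 : 0 ≤ ((U * U) * S) * (V * V) :=
      mul_nonneg (mul_nonneg (mul_nonneg hU hU) (by linarith)) hVV
    linarith
  | q c1 c2 c3 c4 c5 c6 s =>
    have h : Bool.and (Bool.and (Nat.ble c1 M6) (Bool.and (Nat.ble c2 M6) (Nat.ble c3 M6)))
      (Bool.and (Nat.ble c4 M6) (Bool.and (Nat.ble c5 M6) (Nat.ble c6 M6))) = true := hc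
    simp only [bAnd] at h
    obtain ⟨⟨h1, h2, h3⟩, h4, h5, h6⟩ := h
    refine (cq_bd hb (c_bd h1) (c_bd h2) (c_bd h3) (c_bd h4) (c_bd h5) (c_bd h6)).mono ?_
    have k0 : 0 ≤ U * U := mul_nonneg hU hU
    have k1 : U * U ≤ (U * U) * S := le_mul_of_one_le_right k0 hS
    have k2 : (U * U) * (V * V) ≤ ((U * U) * S) * (V * V) := mul_le_mul_of_nonneg_right k1 hVV
    linarith

/-! ### the plain test -/

/-- the value of the lifted form -/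
noncomputable def gF (om : ℝ) (x y k al be ga : ℝ) : FC → ℝ
  | .l c1 c2 c3 c4 c5 c6 c7 c8 c9 => om * fv x y k al be ga (.l c1 c2 c3 c4 c5 c6 c7 c8 c9)
  | .q c1 c2 c3 c4 c5 c6 s => fv x y k al be ga (.q c1 c2 c3 c4 c5 c6 s)

theorem rv_cF {x' y' k' al be ga : ℝ} {m n : ℕ → ℝ} (h : At K A B G W X Y x' y' k' al be ga m n)
    (c : FC) : rv m (MU n) (cF O K A B G W X Y c) =
      gF (n 0 * O 0 + n 1 * O 1 + n 2 * O 2 + n 3 * O 3) x' y' k' al be ga c := by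
  cases c with
  | l c1 c2 c3 c4 c5 c6 c7 c8 c9 => exact rv_cl h
  | q c1 c2 c3 c4 c5 c6 s => exact rv_cq h

theorem gF_nonneg {om x' y' k' al be ga : ℝ} (ho : 0 < om) {c : FC}
    (h : 0 ≤ gF om x' y' k' al be ga c) : 0 ≤ fv x' y' k' al be ga c := by
  cases c with
  | l c1 c2 c3 c4 c5 c6 c7 c8 c9 => exact nonneg_of_mul_nonneg_right h ho
  | q c1 c2 c3 c4 c5 c6 s => exact h

theorem gF_nonpos {om x' y' k' al be ga : ℝ} (ho : 0 < om) {c : FC}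
    (h : fv x' y' k' al be ga c ≤ 0) : gF om x' y' k' al be ga c ≤ 0 := by
  cases c with
  | l c1 c2 c3 c4 c5 c6 c7 c8 c9 => exact mul_nonpos_of_nonneg_of_nonpos ho.le h
  | q c1 c2 c3 c4 c5 c6 s => exact h

theorem tpl_ok {x' y' k' al be ga : ℝ} {m n : ℕ → ℝ} {U V : ℤ}
    (hp : Pck k a b g w x y o K A B G O W X Y)
    (hm : Mon L1 L2 L3 L4 L5 L6 L7 L8 L9 N1 N2 N3 N4 N5 N6 NL NQ om k a b g w x y o)
    (hb : Bx K A B G W X Y U V) (hUV : (V * V) * (U * U) ≤ 2 ^ 148)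
    (h : At K A B G W X Y x' y' k' al be ga m n) (h0 : 0 ≤ m 0) (h1 : 0 ≤ m 1) (h2 : 0 ≤ m 2)
    (g0 : 0 ≤ n 0) (g1 : 0 ≤ n 1) (g2 : 0 ≤ n 2) (g3 : 0 ≤ n 3) {c : FC} (hv : Vf c)
    (hc : fcB c = true)
    (ht : tpl L1 L2 L3 L4 L5 L6 L7 L8 L9 N1 N2 N3 N4 N5 N6 NL NQ c = true) :
    0 ≤ fv x' y' k' al be ga c := by
  have hE0 : ∀ i, |e0 i| ≤ (1 : ℤ) := by
    intro i
    unfold e0
    fin_cases i <;> simp
  have bd := cF_bd (O := e0) hb hE0 le_rfl hc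
  have bd' : ∀ i j, |cF e0 K A B G W X Y c i j| < 2 ^ 191 := fun i j =>
    lt_of_le_of_lt (bd i j) (by norm_num at hUV ⊢; linarith)
  cases c with
  | l c1 c2 c3 c4 c5 c6 c7 c8 c9 =>
    have ht' : tl L1 L2 L3 L4 L5 L6 L7 L8 L9 NL c1 c2 c3 c4 c5 c6 c7 c8 c9 = true := ht
    have k1 := tl_tst hm.l1 hm.l2 hm.l3 hm.l4 hm.l5 hm.l6 hm.l7 hm.l8 hm.l9 hm.nl
      (e1 := c1 - (C0 : ℕ)) (e2 := c2 - (C0 : ℕ)) (e3 := c3 - (C0 : ℕ)) (e4 := c4 - (C0 : ℕ))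
      (e5 := c5 - (C0 : ℕ)) (e6 := c6 - (C0 : ℕ)) (e7 := c7 - (C0 : ℕ)) (e8 := c8 - (C0 : ℕ))
      (e9 := c9 - (C0 : ℕ)) (by ring) (by ring) (by ring) (by ring) (by ring) (by ring) (by ring)
      (by ring) (by ring) ht'
    have hp1 : Pck k a b g w x y 1 K A B G e0 W X Y :=
      ⟨hp.k, hp.a, hp.b, hp.g, by
        show pk4 1 0 0 0 = 1
        rw [pk4_eq]
        ring, hp.w, hp.x, hp.y⟩
    have k2 := tst_cf k1 bd' (by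
      show _ = ival (2 ^ 192) (cl (c1 - (C0 : ℕ)) (c2 - (C0 : ℕ)) (c3 - (C0 : ℕ))
        (c4 - (C0 : ℕ)) (c5 - (C0 : ℕ)) (c6 - (C0 : ℕ)) (c7 - (C0 : ℕ)) (c8 - (C0 : ℕ))
        (c9 - (C0 : ℕ)) e0 K A B G W X Y)
      rw [ival_cl hp1]
      ring)
    have k3 := rv_nonneg k2 h0 h1 h2 (NU_nonneg g0 g1 g2 g3)
    have k4 := rv_cl0 (e1 := c1 - (C0 : ℕ)) (e2 := c2 - (C0 : ℕ)) (e3 := c3 - (C0 : ℕ))
      (e4 := c4 - (C0 : ℕ)) (e5 := c5 - (C0 : ℕ)) (e6 := c6 - (C0 : ℕ)) (e7 := c7 - (C0 : ℕ))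
      (e8 := c8 - (C0 : ℕ)) (e9 := c9 - (C0 : ℕ)) h
    exact k3.trans (le_of_eq k4)
  | q c1 c2 c3 c4 c5 c6 s =>
    have ht' : tq N1 N2 N3 N4 N5 N6 NQ c1 c2 c3 c4 c5 c6 s = true := ht
    have k1 := tq_tst hm.m1 hm.m2 hm.m3 hm.m4 hm.m5 hm.m6 hm.nq
      (e1 := c1 - (C0 : ℕ)) (e2 := c2 - (C0 : ℕ)) (e3 := c3 - (C0 : ℕ)) (e4 := c4 - (C0 : ℕ))
      (e5 := c5 - (C0 : ℕ)) (e6 := c6 - (C0 : ℕ)) (by ring) (by ring) (by ring) (by ring) (by ring)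
      (by ring) hv ht'
    have k2 := tst_cf k1 bd' (ival_cq hp _ _ _ _ _ _).symm
    have k3 := rv_nonneg k2 h0 h1 h2 (MU_nonneg g0 g1 g2 g3)
    have k4 := rv_cq (e1 := c1 - (C0 : ℕ)) (e2 := c2 - (C0 : ℕ)) (e3 := c3 - (C0 : ℕ))
      (e4 := c4 - (C0 : ℕ)) (e5 := c5 - (C0 : ℕ)) (e6 := c6 - (C0 : ℕ)) h
    exact k3.trans (le_of_eq k4)

/-! ### the guard test -/

theorem tgd_ok {x' y' k' al be ga : ℝ} {m n : ℕ → ℝ} {U V S : ℤ} {mu lam d1 d2 : ℕ}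
    (hp : Pck k a b g w x y o K A B G O W X Y)
    (hm : Mon L1 L2 L3 L4 L5 L6 L7 L8 L9 N1 N2 N3 N4 N5 N6 NL NQ om k a b g w x y o)
    (hb : Bx K A B G W X Y U V) (hO : ∀ i, |O i| ≤ S) (hS : 1 ≤ S)
    (hUV : (V * V) * ((U * U) * S) * ((mu : ℤ) + lam + (d1 + d2)) ≤ 2 ^ 148)
    (h : At K A B G W X Y x' y' k' al be ga m n) (h0 : 0 ≤ m 0) (h1 : 0 ≤ m 1) (h2 : 0 ≤ m 2)
    (g0 : 0 ≤ n 0) (g1 : 0 ≤ n 1) (g2 : 0 ≤ n 2) (g3 : 0 ≤ n 3) {c c' : FC} (hv : Vf c)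
    (hv' : Vf c') (hc : fcB c = true) (hc' : fcB c' = true)
    (ht : tgd L1 L2 L3 L4 L5 L6 L7 L8 L9 N1 N2 N3 N4 N5 N6 NL NQ om mu lam d1 d2 c c' = true)
    (ho : 0 < n 0 * O 0 + n 1 * O 1 + n 2 * O 2 + n 3 * O 3)
    (hx : al ≤ k' * (x' * (1 - x'))) (hy : be ≤ k' * (y' * (1 - y')))
    (hneg : fv x' y' k' al be ga c' ≤ 0) : 0 ≤ fv x' y' k' al be ga c := by
  have hU : 0 ≤ U := (abs_nonneg _).trans (hb.K 0)
  have hV : 0 ≤ V := (abs_nonneg _).trans (hb.W 0)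
  have ht1 : Bool.and (Nat.ble 1 mu) (Nat.beq (Nat.land (Nat.sub
    (mu * fpos L1 L2 L3 L4 L5 L6 L7 L8 L9 N1 N2 N3 N4 N5 N6 om c +
        lam * fpos L1 L2 L3 L4 L5 L6 L7 L8 L9 N1 N2 N3 N4 N5 N6 om c' +
      (om * (d1 * (L1 + L7) + d2 * (L3 + L8)) + OFF))
    (mu * fneg NL NQ om c + lam * fneg NL NQ om c' + om * (d1 * L4 + d2 * L5))) OFF) OFF) = true := ht
  rw [bAnd] at ht1
  obtain ⟨hmu, ht2⟩ := ht1
  have hmu' : 1 ≤ mu := Nat.le_of_ble_eq_true hmu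
  obtain ⟨cc, hcc⟩ : ∃ cc : Cf, cc = (mu : ℤ) • cF O K A B G W X Y c +
    (lam : ℤ) • cF O K A B G W X Y c' - ((d1 : ℤ) • chh O K A W X + (d2 : ℤ) • chh O K B W Y) :=
    ⟨_, rfl⟩
  have e1 : ival (2 ^ 192) cc = mu * ival (2 ^ 192) (cF O K A B G W X Y c) +
    lam * ival (2 ^ 192) (cF O K A B G W X Y c') - (d1 * (o * (k * (w * x) - k * (x * x) -
      a * (w * w))) + d2 * (o * (k * (w * y) - k * (y * y) - b * (w * w)))) := by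
    rw [hcc, ival_sub, ival_add, ival_add, ival_smul, ival_smul, ival_smul, ival_smul, ival_chx hp,
      ival_chy hp]
  have k1 : tst (ival (2 ^ 192) cc) = true := by
    refine tst_of ht2 ?_
    rw [e1, ← fdiff hp hm hv, ← fdiff hp hm hv']
    push_cast
    rw [hm.l1, hm.l3, hm.l4, hm.l5, hm.l7, hm.l8, hm.om]
    ring
  have n0 : |(mu : ℤ)| ≤ mu := (Nat.abs_cast mu).le
  have n1 : |(lam : ℤ)| ≤ lam := (Nat.abs_cast lam).le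
  have n2 : |(d1 : ℤ)| ≤ d1 := (Nat.abs_cast d1).le
  have n3 : |(d2 : ℤ)| ≤ d2 := (Nat.abs_cast d2).le
  have bd : Bd cc (((mu : ℤ) * (52 * (2 ^ 36 * ((V * V) * ((U * U) * S)))) +
      lam * (52 * (2 ^ 36 * ((V * V) * ((U * U) * S))))) +
      (d1 * (12 * ((U * S) * (V * V))) + d2 * (12 * ((U * S) * (V * V))))) := by
    rw [hcc]
    exact (((cF_bd hb hO hS hc).smul n0).add ((cF_bd hb hO hS hc').smul n1)).sub
      (((chh_bd hb.K hb.A hb.W hb.X hO).smul n2).add ((chh_bd hb.K hb.B hb.W hb.Y hO).smul n3))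
  have k2 := tst_cf k1 (c := cc) (fun i j => lt_of_le_of_lt (bd i j) (by
    have q1 : 0 ≤ V * V := mul_nonneg hV hV
    have q2 : U * S ≤ (U * U) * S := mul_le_mul_of_nonneg_right (sq_le hU) (by linarith)
    have q3 : (U * S) * (V * V) ≤ ((U * U) * S) * (V * V) := mul_le_mul_of_nonneg_right q2 q1
    have q4 : 0 ≤ ((U * U) * S) * (V * V) :=
      mul_nonneg (mul_nonneg (mul_nonneg hU hU) (by linarith)) q1
    have q5 : (d1 : ℤ) * (12 * ((U * S) * (V * V))) ≤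
        d1 * (52 * (2 ^ 36 * ((V * V) * ((U * U) * S)))) :=
      mul_le_mul_of_nonneg_left (by linarith) (Int.natCast_nonneg d1)
    have q6 : (d2 : ℤ) * (12 * ((U * S) * (V * V))) ≤
        d2 * (52 * (2 ^ 36 * ((V * V) * ((U * U) * S)))) :=
      mul_le_mul_of_nonneg_left (by linarith) (Int.natCast_nonneg d2)
    have q7 : ∀ z : ℤ, (mu : ℤ) * (52 * (2 ^ 36 * z)) + lam * (52 * (2 ^ 36 * z)) +
        (d1 * (52 * (2 ^ 36 * z)) + d2 * (52 * (2 ^ 36 * z))) =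
        52 * 2 ^ 36 * (z * ((mu : ℤ) + lam + (d1 + d2))) := fun z => by ring
    have q8 := q7 ((V * V) * ((U * U) * S))
    have q9 : (52 : ℤ) * 2 ^ 36 * 2 ^ 148 < 2 ^ 191 := by norm_num
    have q10 := mul_le_mul_of_nonneg_left hUV (by norm_num : (0 : ℤ) ≤ 52 * 2 ^ 36)
    linarith)) rfl
  have k3 := rv_nonneg k2 h0 h1 h2 (MU_nonneg g0 g1 g2 g3)
  rw [hcc, rv_sub, rv_add, rv_add, rv_smul, rv_smul, rv_smul, rv_smul, rv_cF h, rv_cF h, rv_chx h,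
    rv_chy h] at k3
  have r1 := gF_nonpos ho hneg
  refine gF_nonneg ho ?_
  have r2 : (0 : ℝ) ≤ ((lam : ℤ) : ℝ) := by exact_mod_cast Nat.zero_le lam
  have r3 : (0 : ℝ) ≤ ((d1 : ℤ) : ℝ) := by exact_mod_cast Nat.zero_le d1
  have r4 : (0 : ℝ) ≤ ((d2 : ℤ) : ℝ) := by exact_mod_cast Nat.zero_le d2
  have r5 : (0 : ℝ) < ((mu : ℤ) : ℝ) := by exact_mod_cast hmu'
  have s1 := mul_nonpos_of_nonneg_of_nonpos r2 r1
  have s2 := mul_nonneg r3 (mul_nonneg ho.le (sub_nonneg.2 hx))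
  have s3 := mul_nonneg r4 (mul_nonneg ho.le (sub_nonneg.2 hy))
  have s4 : 0 ≤ ((mu : ℤ) : ℝ) * gF (n 0 * O 0 + n 1 * O 1 + n 2 * O 2 + n 3 * O 3)
    x' y' k' al be ga c := by linarith
  exact nonneg_of_mul_nonneg_right s4 r5

end

end Pool.Agent.TET.Cvr
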