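import Pool.Agent.Helper37_TET.QgD

/-!
# MP_c7c9bf_co: guarded leaves, soundness of the checker of the cone chart
-/

set_option autoImplicit false

namespace Pool.Agent.TET.Cvr

attribute [local irreducible] OFF ZZ CQ CL CQ0 CL0 M5 M6

theorem allL_mem {α : Type} {p : α → Bool} {l : List α} (h : allL p l = true) :
    ∀ a ∈ l, p a = true := (allL_iff p l).1 h

theorem all2_mem {α β : Type} {p : α → β → Bool} : ∀ {l : List α} {m : List β},
    all2 p l m = true → ∀ a ∈ l, ∃ b ∈ m, p a b = true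
  | [], _, _ => fun a ha => absurd ha List.not_mem_nil
  | a :: l, [], h => absurd h Bool.false_ne_true
  | a :: l, b :: m, h => by
    have h' : Bool.and (p a b) (all2 p l m) = true := h
    rw [bAnd] at h'
    intro c hc
    rcases List.mem_cons.1 hc with rfl | hc
    · exact ⟨b, List.mem_cons_self, h'.1⟩
    · obtain ⟨d, hd, hd'⟩ := all2_mem h'.2 c hc
      exact ⟨d, List.mem_cons_of_mem _ hd, hd'⟩

theorem all2_mem' {α β : Type} {p : α → β → Bool} : ∀ {l : List α} {m : List β},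
    all2 p l m = true → ∀ b ∈ m, ∃ a ∈ l, p a b = true
  | [], [], _ => fun b hb => absurd hb List.not_mem_nil
  | [], _ :: _, h => absurd h Bool.false_ne_true
  | a :: l, [], _ => fun b hb => absurd hb List.not_mem_nil
  | a :: l, b :: m, h => by
    have h' : Bool.and (p a b) (all2 p l m) = true := h
    rw [bAnd] at h'
    intro c hc
    rcases List.mem_cons.1 hc with rfl | hc
    · exact ⟨a, List.mem_cons_self, h'.1⟩
    · obtain ⟨d, hd, hd'⟩ := all2_mem' h'.2 c hc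
      exact ⟨d, List.mem_cons_of_mem _ hd, hd'⟩

theorem allBut_mem {p : FC → Bool} : ∀ {l : List FC} {j : ℕ}, allBut p l j = true →
    ∀ f ∈ l, p f = true ∨ f = nth dF l j
  | [], _, _ => fun f hf => absurd hf List.not_mem_nil
  | a :: l, 0, h => by
    have h' : allL p l = true := h
    intro f hf
    rcases List.mem_cons.1 hf with rfl | hf
    · exact Or.inr rfl
    · exact Or.inl (allL_mem h' f hf)
  | a :: l, j + 1, h => by
    have h' : Bool.and (p a) (allBut p l j) = true := h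
    rw [bAnd] at h'
    intro f hf
    rcases List.mem_cons.1 hf with rfl | hf
    · exact Or.inl h'.1
    · exact allBut_mem h'.2 f hf

theorem nth_prop {P : FC → Prop} (h0 : P dF) : ∀ (l : List FC) (j : ℕ), (∀ f ∈ l, P f) → P (nth dF l j)
  | [], _, _ => h0
  | a :: l, 0, h => h a List.mem_cons_self
  | a :: l, j + 1, h => nth_prop h0 l j fun f hf => h f (List.mem_cons_of_mem _ hf)

theorem csum_mem {mu lam d1 d2 : ℕ} : ∀ {cs : List GC}, GC.g mu lam d1 d2 ∈ cs →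
    mu + lam + (d1 + d2) ≤ csum cs
  | [], h => absurd h List.not_mem_nil
  | c :: cs, h => by
    have e : csum (c :: cs) = GC.rec (motive := fun _ => ℕ) 0
      (fun mu lam d1 d2 => mu + lam + (d1 + d2)) c + csum cs := rfl
    rw [e]
    rcases List.mem_cons.1 h with h | h
    · rw [← h]
      exact Nat.le_add_right _ _
    · exact (csum_mem h).trans (Nat.le_add_left _ _)

theorem csum_pos : ∀ cs : List GC, 1 ≤ csum cs
  | [] => le_rfl
  | c :: cs => by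
    have e : csum (c :: cs) = GC.rec (motive := fun _ => ℕ) 0
      (fun mu lam d1 d2 => mu + lam + (d1 + d2)) c + csum cs := rfl
    rw [e]
    exact (csum_pos cs).trans (Nat.le_add_left _ _)

theorem encN_Vf {s0 s1 s2 s3 : ℕ} {c : Cd} {f : FC} (h : encN s0 s1 s2 s3 c f = true) : Vf f := by
  cases f with
  | l c1 c2 c3 c4 c5 c6 c7 c8 c9 => exact trivial
  | q c1 c2 c3 c4 c5 c6 s =>
    cases c with
    | l m g => exact absurd h Bool.false_ne_true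
    | q v w =>
      obtain ⟨_, _, _, _, _, _, h7⟩ := encQ_iff h
      exact h7

/-- the conditions of an entry hold -/
theorem en_cvd {T : List (List Cd)} {l : List FC} (hE : EnOK T encN l) {x y k al be ga : ℝ}
    (h : ∀ f ∈ l, 0 ≤ fv x y k al be ga f) : Cvd 0 T x y k al be ga := by
  obtain ⟨R, s0, s1, s2, s3, hp, hR, hx⟩ := hE
  obtain ⟨h0, h1, h2, h3, a, b, c, d, e, f⟩ := isP_iff hp
  have hR' : R < T.length := by
    unfold Nat.blt at hR
    exact Nat.lt_of_succ_le (Nat.le_of_ble_eq_true hR)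
  refine ⟨nth [] T R, nth_mem [] T R hR', sg s0 s1 s2 s3 h0 h1 h2 h3,
    sg_inj h0 h1 h2 h3 a b c d e f, ?_⟩
  intro cd hcd
  obtain ⟨f, hf, hcf⟩ := all2_mem hx cd hcd
  exact hold_fv h0 h1 h2 h3 hcf (h f hf)

theorem en_Vf {T : List (List Cd)} {l : List FC} (hE : EnOK T encN l) : ∀ f ∈ l, Vf f := by
  obtain ⟨R, s0, s1, s2, s3, hp, hR, hx⟩ := hE
  intro f hf
  obtain ⟨c, _, hc⟩ := all2_mem' hx f hf
  exact encN_Vf hc

theorem get_bd : ∀ (t : Bt), btB t = true → ∀ (n : ℕ) (l : List FC), t.get n = some l →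
    ∀ f ∈ l, fcB f = true
  | .nil, _, n, l, hl => by
    have h1 : Bt.get .nil n = none := rfl
    rw [h1] at hl
    exact absurd hl (by simp)
  | .node a x b, h, n, l, hl => by
    have h1 : Bool.and (Bool.and (btB a) (btB b)) (allL fcB x.l) = true := h
    simp only [bAnd] at h1
    obtain ⟨⟨ha, hb⟩, hx⟩ := h1
    have h2 : (Bt.node a x b).get n = Bool.rec (motive := fun _ => Option (List FC))
      (Bool.rec (motive := fun _ => Option (List FC)) (b.get (Nat.div n 2)) (a.get (Nat.div n 2))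
        (Nat.beq (Nat.mod n 2) 0)) (some x.l) (Nat.beq n 1) := rfl
    rw [h2] at hl
    cases hn : Nat.beq n 1 with
    | true =>
      rw [hn] at hl
      have h3 : some x.l = some l := hl
      have h4 : x.l = l := Option.some.inj h3
      rw [← h4]
      exact allL_mem hx
    | false =>
      rw [hn] at hl
      cases hm : Nat.beq (Nat.mod n 2) 0 with
      | true =>
        rw [hm] at hl
        exact get_bd a ha _ l hl
      | false =>
        rw [hm] at hl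
        exact get_bd b hb _ l hl

theorem dF_B : fcB dF = true := by
  have h : Nat.ble 0 M6 = true := Nat.ble_eq_true_of_le (Nat.zero_le _)
  show Bool.and (Bool.and (Nat.ble 0 M6) (Bool.and (Nat.ble 0 M6) (Nat.ble 0 M6)))
      (Bool.and (Nat.ble 0 M6) (Bool.and (Nat.ble 0 M6) (Nat.ble 0 M6))) = true
  rw [h]
  rfl

theorem dF_V : Vf dF := rfl

theorem cast_M5 {a : ℕ} (h : a ≤ M5) : (a : ℤ) ≤ 2 ^ 148 := by
  have h1 : (a : ℤ) ≤ ((M5 : ℕ) : ℤ) := Int.ofNat_le.2 h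
  rw [M5_eq, Nat.cast_pow, Nat.cast_ofNat] at h1
  exact h1

theorem sz_bd {sb sg sw c : ℕ} (h : sb * sb * (sg * sg * (sw * c)) ≤ M5) (hw : 1 ≤ sw) (hc : 1 ≤ c) :
    ((sb : ℤ) * sb) * ((sg : ℤ) * sg) ≤ 2 ^ 148 ∧
    ∀ m : ℕ, m ≤ c → ((sb : ℤ) * sb) * (((sg : ℤ) * sg) * sw) * (m : ℤ) ≤ 2 ^ 148 := by
  constructor
  · have h1 : sb * sb * (sg * sg) ≤ sb * sb * (sg * sg * (sw * c)) :=
      Nat.mul_le_mul_left _ (Nat.le_mul_of_pos_right _ (Nat.mul_pos hw hc))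
    have h2 := cast_M5 (h1.trans h)
    rw [Nat.cast_mul, Nat.cast_mul, Nat.cast_mul] at h2
    exact h2
  · intro m hm
    have h1 : sb * sb * (sg * sg * sw) * m ≤ sb * sb * (sg * sg * (sw * c)) := by
      calc sb * sb * (sg * sg * sw) * m ≤ sb * sb * (sg * sg * sw) * c := Nat.mul_le_mul_left _ hm
        _ = sb * sb * (sg * sg * (sw * c)) := by
          rw [Nat.mul_assoc, Nat.mul_assoc (sg * sg)]
    have h2 := cast_M5 (h1.trans h)
    rw [Nat.cast_mul, Nat.cast_mul, Nat.cast_mul, Nat.cast_mul, Nat.cast_mul] at h2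
    exact h2

/-- **guarded leaves** -/
theorem leafG_ok {T : List (List Cd)} {lA lB : List FC} (hA : EnOK T encN lA) (hB : EnOK T encN lB)
    (bA : ∀ f ∈ lA, fcB f = true) (bB : ∀ f ∈ lB, fcB f = true) {j w0 w1 w2 w3 : ℕ}
    {cs : List GC} {s : Sm} (h : leafG (some lA) (some lB) j w0 w1 w2 w3 cs s = true) :
    CvS 0 T s.s := by
  intro x y k al be ga m w hm hd
  obtain ⟨W, hW⟩ : ∃ W, W = pkN3 s.p0.W s.p1.W s.p2.W := ⟨_, rfl⟩
  obtain ⟨X, hX⟩ : ∃ X, X = pkN3 s.p0.X s.p1.X s.p2.X := ⟨_, rfl⟩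
  obtain ⟨Y, hY⟩ : ∃ Y, Y = pkN3 s.p0.Y s.p1.Y s.p2.Y := ⟨_, rfl⟩
  obtain ⟨K, hK⟩ : ∃ K, K = pkN4 s.u0.k s.u1.k s.u2.k s.u3.k := ⟨_, rfl⟩
  obtain ⟨A, hA1⟩ : ∃ A, A = pkN4 s.u0.al s.u1.al s.u2.al s.u3.al := ⟨_, rfl⟩
  obtain ⟨B, hB1⟩ : ∃ B, B = pkN4 s.u0.be s.u1.be s.u2.be s.u3.be := ⟨_, rfl⟩
  obtain ⟨P, hP⟩ : ∃ P, P = pkN4 s.u0.gp s.u1.gp s.u2.gp s.u3.gp := ⟨_, rfl⟩
  obtain ⟨N, hN⟩ : ∃ N, N = pkN4 s.u0.gn s.u1.gn s.u2.gn s.u3.gn := ⟨_, rfl⟩
  obtain ⟨om, hom⟩ : ∃ om, om = pkN4 w0 w1 w2 w3 := ⟨_, rfl⟩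
  have h0 : Bool.and (Bool.and (Bool.and (Bool.and (Nat.ble 1 w0) (Nat.ble 1 w1))
        (Bool.and (Nat.ble 1 w2) (Nat.ble 1 w3)))
        (szG (sbN s) (sgN s) (w0 + w1 + (w2 + w3)) (csum cs)))
      (gv0 (pkN3 s.p0.W s.p1.W s.p2.W) (pkN3 s.p0.X s.p1.X s.p2.X)
      (pkN3 s.p0.Y s.p1.Y s.p2.Y) (pkN4 s.u0.k s.u1.k s.u2.k s.u3.k)
      (pkN4 s.u0.al s.u1.al s.u2.al s.u3.al) (pkN4 s.u0.be s.u1.be s.u2.be s.u3.be)
      (pkN4 s.u0.gp s.u1.gp s.u2.gp s.u3.gp) (pkN4 s.u0.gn s.u1.gn s.u2.gn s.u3.gn)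
      (pkN4 w0 w1 w2 w3) j lA lB cs) = true := h
  rw [← hW, ← hX, ← hY, ← hK, ← hA1, ← hB1, ← hP, ← hN, ← hom] at h0
  simp only [bAnd] at h0
  obtain ⟨⟨⟨⟨q0, q1⟩, q2, q3⟩, hs⟩, hev⟩ := h0
  have q0' : 1 ≤ w0 := Nat.le_of_ble_eq_true q0
  have q1' : 1 ≤ w1 := Nat.le_of_ble_eq_true q1
  have q2' : 1 ≤ w2 := Nat.le_of_ble_eq_true q2
  have q3' : 1 ≤ w3 := Nat.le_of_ble_eq_true q3
  -- sizes
  obtain ⟨sb, hsb⟩ : ∃ sb, sb = sbN s := ⟨_, rfl⟩
  obtain ⟨sg', hsg⟩ : ∃ sg', sg' = sgN s := ⟨_, rfl⟩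
  obtain ⟨sw, hsw⟩ : ∃ sw, sw = w0 + w1 + (w2 + w3) := ⟨_, rfl⟩
  rw [← hsb, ← hsg, ← hsw] at hs
  have hs' : sb * sb * (sg' * sg' * (sw * csum cs)) ≤ M5 := Nat.le_of_ble_eq_true hs
  have hsb' : sb = s.p0.X + (s.p0.Y + s.p0.W) + (s.p1.X + (s.p1.Y + s.p1.W)) +
    (s.p2.X + (s.p2.Y + s.p2.W)) := hsb
  have hsg2 : sg' = s.u0.k + (s.u0.al + (s.u0.be + (s.u0.gp + s.u0.gn))) +
    (s.u1.k + (s.u1.al + (s.u1.be + (s.u1.gp + s.u1.gn)))) +
    (s.u2.k + (s.u2.al + (s.u2.be + (s.u2.gp + s.u2.gn))) +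
    (s.u3.k + (s.u3.al + (s.u3.be + (s.u3.gp + s.u3.gn))))) := hsg
  obtain ⟨hpl, hgd0⟩ := sz_bd hs' (by omega) (csum_pos cs)
  have hsw1 : (1 : ℤ) ≤ sw := by
    rw [hsw]
    push_cast
    omega
  have hgd : ∀ mu lam d1 d2 : ℕ, GC.g mu lam d1 d2 ∈ cs → ((sb : ℤ) * sb) * (((sg' : ℤ) * sg') * sw) *
      ((mu : ℤ) + lam + (d1 + d2)) ≤ 2 ^ 148 := fun mu lam d1 d2 hc => by
    have h1 := hgd0 _ (csum_mem hc)
    rw [Nat.cast_add, Nat.cast_add, Nat.cast_add] at h1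
    exact h1
  -- the packed quantities
  obtain ⟨Kv, hKv⟩ : ∃ Kv : Fin 4 → ℤ, Kv = ![(s.u0.k : ℤ), s.u1.k, s.u2.k, s.u3.k] := ⟨_, rfl⟩
  obtain ⟨Av, hAv⟩ : ∃ Kv : Fin 4 → ℤ, Kv = ![(s.u0.al : ℤ), s.u1.al, s.u2.al, s.u3.al] := ⟨_, rfl⟩
  obtain ⟨Bv, hBv⟩ : ∃ Kv : Fin 4 → ℤ, Kv = ![(s.u0.be : ℤ), s.u1.be, s.u2.be, s.u3.be] := ⟨_, rfl⟩
  obtain ⟨Gv, hGv⟩ : ∃ Kv : Fin 4 → ℤ, Kv = ![s.u0.g.ga, s.u1.g.ga, s.u2.g.ga, s.u3.g.ga] := ⟨_, rfl⟩
  obtain ⟨Ov, hOv⟩ : ∃ Kv : Fin 4 → ℤ, Kv = ![(w0 : ℤ), w1, w2, w3] := ⟨_, rfl⟩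
  obtain ⟨Wv, hWv⟩ : ∃ Kv : Fin 3 → ℤ, Kv = ![(s.p0.W : ℤ), s.p1.W, s.p2.W] := ⟨_, rfl⟩
  obtain ⟨Xv, hXv⟩ : ∃ Kv : Fin 3 → ℤ, Kv = ![(s.p0.X : ℤ), s.p1.X, s.p2.X] := ⟨_, rfl⟩
  obtain ⟨Yv, hYv⟩ : ∃ Kv : Fin 3 → ℤ, Kv = ![(s.p0.Y : ℤ), s.p1.Y, s.p2.Y] := ⟨_, rfl⟩
  have cG : pk4 s.u0.g.ga s.u1.g.ga s.u2.g.ga s.u3.g.ga = (P : ℤ) - N := by
    rw [hP, hN, pkN4_cast, pkN4_cast]
    show pk4 (Int.subNatNat s.u0.gp s.u0.gn) (Int.subNatNat s.u1.gp s.u1.gn)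
      (Int.subNatNat s.u2.gp s.u2.gn) (Int.subNatNat s.u3.gp s.u3.gn) = _
    rw [sn, sn, sn, sn, pk4_eq, pk4_eq, pk4_eq]
    ring
  have hp : Pck K A B ((P : ℤ) - N) W X Y om Kv Av Bv Gv Ov Wv Xv Yv := by
    refine ⟨?_, ?_, ?_, ?_, ?_, ?_, ?_, ?_⟩
    · rw [hK, pkN4_cast, hKv]
      rfl
    · rw [hA1, pkN4_cast, hAv]
      rfl
    · rw [hB1, pkN4_cast, hBv]
      rfl
    · rw [hGv, ← cG]
      rfl
    · rw [hom, pkN4_cast, hOv]
      rfl
    · rw [hW, pkN3_cast, hWv]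
      rfl
    · rw [hX, pkN3_cast, hXv]
      rfl
    · rw [hY, pkN3_cast, hYv]
      rfl
  have hb : Bx Kv Av Bv Gv Wv Xv Yv sg' sb := by
    have n : ∀ a b : ℕ, a ≤ b → |(a : ℤ)| ≤ b := fun a b hab => by
      rw [Nat.abs_cast]
      exact_mod_cast hab
    have n2 : ∀ a b c : ℕ, a + b ≤ c → |Int.subNatNat a b| ≤ (c : ℤ) := fun a b c hab => by
      rw [sn, abs_le]
      constructor <;> omega
    refine ⟨?_, ?_, ?_, ?_, ?_, ?_, ?_⟩
    · intro i
      rw [hKv]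
      fin_cases i
      · exact n _ _ (by omega)
      · exact n _ _ (by omega)
      · exact n _ _ (by omega)
      · exact n _ _ (by omega)
    · intro i
      rw [hAv]
      fin_cases i
      · exact n _ _ (by omega)
      · exact n _ _ (by omega)
      · exact n _ _ (by omega)
      · exact n _ _ (by omega)
    · intro i
      rw [hBv]
      fin_cases i
      · exact n _ _ (by omega)
      · exact n _ _ (by omega)
      · exact n _ _ (by omega)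
      · exact n _ _ (by omega)
    · intro i
      rw [hGv]
      fin_cases i
      · exact n2 _ _ _ (by omega)
      · exact n2 _ _ _ (by omega)
      · exact n2 _ _ _ (by omega)
      · exact n2 _ _ _ (by omega)
    · intro i
      rw [hWv]
      fin_cases i
      · exact n _ _ (by omega)
      · exact n _ _ (by omega)
      · exact n _ _ (by omega)
    · intro i
      rw [hXv]
      fin_cases i
      · exact n _ _ (by omega)
      · exact n _ _ (by omega)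
      · exact n _ _ (by omega)
    · intro i
      rw [hYv]
      fin_cases i
      · exact n _ _ (by omega)
      · exact n _ _ (by omega)
      · exact n _ _ (by omega)
  have hO : ∀ i, |Ov i| ≤ (sw : ℤ) := by
    have n : ∀ a b : ℕ, a ≤ b → |(a : ℤ)| ≤ b := fun a b hab => by
      rw [Nat.abs_cast]
      exact_mod_cast hab
    intro i
    rw [hOv]
    fin_cases i
    · exact n _ _ (by omega)
    · exact n _ _ (by omega)
    · exact n _ _ (by omega)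
    · exact n _ _ (by omega)
  have hat : At Kv Av Bv Gv Wv Xv Yv x y k al be ga m w := by
    refine ⟨?_, ?_, ?_, ?_, ?_, ?_, ?_⟩
    · rw [hWv]
      exact_mod_cast hm.hs
    · rw [hXv]
      exact_mod_cast hm.hx.symm
    · rw [hYv]
      exact_mod_cast hm.hy.symm
    · rw [hKv]
      exact_mod_cast hm.hk.symm
    · rw [hAv]
      exact_mod_cast hm.hal.symm
    · rw [hBv]
      exact_mod_cast hm.hbe.symm
    · rw [hGv]
      exact hm.hga.symm
  -- om is positive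
  have ho : 0 < w 0 * Ov 0 + w 1 * Ov 1 + w 2 * Ov 2 + w 3 * Ov 3 := by
    by_contra hcon
    have hcon := not_lt.1 hcon
    have b0 : ∀ i, ((Kv i : ℤ) : ℝ) ≤ sg' := fun i => by
      have := (abs_le.1 (hb.K i)).2
      exact_mod_cast this
    have o0' : (1 : ℝ) ≤ (Ov 0 : ℤ) := by
      rw [hOv]
      show (1 : ℝ) ≤ ((w0 : ℤ) : ℝ)
      exact_mod_cast q0'
    have o1' : (1 : ℝ) ≤ (Ov 1 : ℤ) := by
      rw [hOv]
      show (1 : ℝ) ≤ ((w1 : ℤ) : ℝ)
      exact_mod_cast q1'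
    have o2' : (1 : ℝ) ≤ (Ov 2 : ℤ) := by
      rw [hOv]
      show (1 : ℝ) ≤ ((w2 : ℤ) : ℝ)
      exact_mod_cast q2'
    have o3' : (1 : ℝ) ≤ (Ov 3 : ℤ) := by
      rw [hOv]
      show (1 : ℝ) ≤ ((w3 : ℤ) : ℝ)
      exact_mod_cast q3'
    have st : ∀ (a u v g : ℝ), 0 ≤ a → u ≤ g → 0 ≤ g → 1 ≤ v → a * u ≤ g * (a * v) := by
      intro a u v g ha hu hg hv
      calc a * u ≤ a * g := mul_le_mul_of_nonneg_left hu ha
        _ = g * (a * 1) := by ring
        _ ≤ g * (a * v) := mul_le_mul_of_nonneg_left (mul_le_mul_of_nonneg_left hv ha) hg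
    have gg : (0 : ℝ) ≤ sg' := Nat.cast_nonneg _
    have t0 := st _ _ _ _ hm.g0 (b0 0) gg o0'
    have t1 := st _ _ _ _ hm.g1 (b0 1) gg o1'
    have t2 := st _ _ _ _ hm.g2 (b0 2) gg o2'
    have t3 := st _ _ _ _ hm.g3 (b0 3) gg o3'
    have t4 : (sg' : ℝ) * (w 0 * Ov 0 + w 1 * Ov 1 + w 2 * Ov 2 + w 3 * Ov 3) ≤ 0 :=
      mul_nonpos_of_nonneg_of_nonpos gg hcon
    have t5 := hat.hK
    have t6 := hd.kp
    linarith
  -- the monomials
  obtain ⟨n1, h1⟩ : ∃ n, n = (P * P + N * N) * (W * W) + 2 * (K * N * (X * Y)) := ⟨_, rfl⟩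
  obtain ⟨n2, h2⟩ : ∃ n, n = K * N * (W * Y) := ⟨_, rfl⟩
  obtain ⟨n4, h4⟩ : ∃ n, n = K * N * (W * X) := ⟨_, rfl⟩
  obtain ⟨n6, h6⟩ : ∃ n, n = K * N * (W * W) := ⟨_, rfl⟩
  obtain ⟨n9, h9⟩ : ∃ n, n = N * (W * W) := ⟨_, rfl⟩
  have e1 : gv0 W X Y K A B P N om j lA lB cs = gv1 (W * W) (W * X) (W * Y) (X * X) (X * Y) (Y * Y)
    K A B P (K * A) (K * B) (K * P) (A * B + 2 * (P * N))
    ((P * P + N * N) * (W * W) + 2 * (K * N * (X * Y)))
    (K * N * (W * Y)) (K * N * (W * X)) (K * N * (W * W)) (N * (W * W)) om j lA lB cs := rfl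
  rw [e1, ← h1, ← h2, ← h4, ← h6, ← h9] at hev
  unfold gv1 at hev
  simp only [bAnd] at hev
  obtain ⟨⟨⟨b1, b2⟩, b4, b6, b9⟩, hev⟩ := hev
  obtain ⟨L9, hL9⟩ : ∃ n, n = zs (P * (W * W)) n9 := ⟨_, rfl⟩
  obtain ⟨N1, hN1⟩ : ∃ n, n = zs ((A * B + 2 * (P * N)) * (W * W) + K * B * (X * X) +
    (K * A * (Y * Y) + 2 * (K * P * (X * Y)))) n1 := ⟨_, rfl⟩
  obtain ⟨N2, hN2⟩ : ∃ n, n = zs (K * B * (W * X) + K * P * (W * Y)) n2 := ⟨_, rfl⟩
  obtain ⟨N4, hN4⟩ : ∃ n, n = zs (K * A * (W * Y) + K * P * (W * X)) n4 := ⟨_, rfl⟩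
  obtain ⟨N6, hN6⟩ : ∃ n, n = zs (K * P * (W * W)) n6 := ⟨_, rfl⟩
  have e2 : gv2 (Nat.mul K (X * X)) (Nat.mul K (X * Y)) (Nat.mul K (Y * Y)) (Nat.mul K (W * X))
      (Nat.mul K (W * Y)) (Nat.mul K (W * W)) (Nat.mul A (W * W)) (Nat.mul B (W * W))
      (zs (Nat.mul P (W * W)) n9)
      (zs (Nat.add (Nat.add (Nat.mul (A * B + 2 * (P * N)) (W * W)) (Nat.mul (K * B) (X * X)))
        (Nat.add (Nat.mul (K * A) (Y * Y)) (Nat.mul 2 (Nat.mul (K * P) (X * Y))))) n1)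
      (zs (Nat.add (Nat.mul (K * B) (W * X)) (Nat.mul (K * P) (W * Y))) n2)
      (Nat.mul (K * B) (W * W))
      (zs (Nat.add (Nat.mul (K * A) (W * Y)) (Nat.mul (K * P) (W * X))) n4)
      (Nat.mul (K * A) (W * W))
      (zs (Nat.mul (K * P) (W * W)) n6) om j lA lB cs =
    gv3 (K * (X * X)) (K * (X * Y)) (K * (Y * Y)) (K * (W * X)) (K * (W * Y)) (K * (W * W))
      (A * (W * W)) (B * (W * W)) L9 N1 N2 (K * B * (W * W)) N4 (K * A * (W * W)) N6
      (C0 * (K * (X * X) + (K * (X * Y) + K * (Y * Y)) + (K * (W * X) + (K * (W * Y) + K * (W * W))) +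
        (A * (W * W) + (B * (W * W) + L9))))
      (C0 * (N1 + (N2 + K * B * (W * W)) + (N4 + (K * A * (W * W) + N6)))) om j lA lB cs := by
    rw [hL9, hN1, hN2, hN4, hN6]
    rfl
  rw [e2] at hev
  have hmon : Mon (K * (X * X)) (K * (X * Y)) (K * (Y * Y)) (K * (W * X)) (K * (W * Y))
      (K * (W * W)) (A * (W * W)) (B * (W * W)) L9 N1 N2 (K * B * (W * W)) N4 (K * A * (W * W)) N6
      (C0 * (K * (X * X) + (K * (X * Y) + K * (Y * Y)) + (K * (W * X) + (K * (W * Y) + K * (W * W))) +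
        (A * (W * W) + (B * (W * W) + L9))))
      (C0 * (N1 + (N2 + K * B * (W * W)) + (N4 + (K * A * (W * W) + N6)))) om
      K A B ((P : ℤ) - N) W X Y om := by
    refine ⟨by push_cast; ring, by push_cast; ring, by push_cast; ring, by push_cast; ring,
      by push_cast; ring, by push_cast; ring, by push_cast; ring, by push_cast; ring, ?_, ?_, ?_,
      by push_cast; ring, ?_, by push_cast; ring, ?_, rfl, rfl, rfl⟩
    · rw [hL9, zs_cast b9, h9]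
      push_cast
      ring
    · rw [hN1, zs_cast b1, h1]
      push_cast
      ring
    · rw [hN2, zs_cast b2, h2]
      push_cast
      ring
    · rw [hN4, zs_cast b4, h4]
      push_cast
      ring
    · rw [hN6, zs_cast b6, h6]
      push_cast
      ring
  unfold gv3 at hev
  rw [bAnd] at hev
  obtain ⟨hv1, hv2⟩ := hev
  have vB := en_Vf hB
  have vA := en_Vf hA
  have plain := fun {c : FC} (hv : Vf c) (hc : fcB c = true) (ht : _ = true) =>
    tpl_ok hp hmon hb hpl hat hm.h0 hm.h1 hm.h2 hm.g0 hm.g1 hm.g2 hm.g3 (c := c) hv hc ht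
  rcases le_total 0 (fv x y k al be ga (nth dF lB j)) with hj | hj
  · refine en_cvd hB fun f hf => ?_
    rcases allBut_mem hv1 f hf with h3 | h3
    · exact plain (vB f hf) (bB f hf) h3
    · rw [h3]
      exact hj
  · refine en_cvd hA fun f hf => ?_
    obtain ⟨c, hc, hcf⟩ := all2_mem hv2 f hf
    cases c with
    | n => exact plain (vA f hf) (bA f hf) hcf
    | g mu lam d1 d2 =>
      exact tgd_ok hp hmon hb hO hsw1 (hgd _ _ _ _ hc) hat hm.h0 hm.h1 hm.h2 hm.g0 hm.g1 hm.g2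
        hm.g3 (vA f hf) (nth_prop dF_V lB j vB) (bA f hf) (nth_prop dF_B lB j bB) hcf ho
        (hd.ap rfl) (hd.bp rfl) hj

/-- **chunks of a cover tree with guarded leaves, fast check** -/
theorem CoN.ofG {T : List (List Cd)} (hT : tabB T = true) {bt : Bt} (hE : encT T bt = true)
    (hB : btB bt = true) : ∀ (t : TrG) {x : Sm}, chkM bt t x = true → CoN T x := by
  intro t
  induction t with
  | B r p q a b iha ihb =>
    intro x h
    have h' : Bool.and (Bool.and (Nat.ble r 2) (Bool.and (Nat.ble 1 p) (Nat.ble 1 q)))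
      (Bool.and (chkM bt a (sPN x (nx r) (mid p q (gPN x r) (gPN x (nx r)))))
        (chkM bt b (sPN x r (mid p q (gPN x r) (gPN x (nx r)))))) = true := h
    simp only [bAnd] at h'
    obtain ⟨⟨hr, hp, hq⟩, ha, hb⟩ := h'
    exact CoN.b r p q hr hp hq (iha ha) (ihb hb)
  | C i j p q a b iha ihb =>
    intro x h
    have h' : Bool.and (Bool.and (Bool.and (Nat.ble i 3) (Nat.ble j 3))
        (Bool.and (not (Nat.beq i j)) (Bool.and (Nat.ble 1 p) (Nat.ble 1 q))))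
      (Bool.and (chkM bt a (sUN x j (cmN p q (gUN x i) (gUN x j))))
        (chkM bt b (sUN x i (cmN p q (gUN x i) (gUN x j))))) = true := h
    simp only [bAnd] at h'
    obtain ⟨⟨⟨hi, hj⟩, hij, hp, hq⟩, ha, hb⟩ := h'
    exact CoN.c i j p q hi hj hij hp hq (iha ha) (ihb hb)
  | L n =>
    intro x h
    have h' : leafN (bt.get n) x = true := h
    cases hn : bt.get n with
    | none =>
      rw [hn] at h'
      exact absurd h' Bool.false_ne_true
    | some l =>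
      rw [hn] at h'
      obtain ⟨R, s0, s1, s2, s3, h1⟩ := leafN_ok (get_ok bt hE n l hn) h'
      exact CvS.ofP hT (.L R s0 s1 s2 s3) h1
  | G nA nB j w0 w1 w2 w3 cs =>
    intro x h
    have h' : leafG (bt.get nA) (bt.get nB) j w0 w1 w2 w3 cs x = true := h
    cases hn : bt.get nA with
    | none =>
      rw [hn] at h'
      exact absurd h' Bool.false_ne_true
    | some lA =>
      cases hn' : bt.get nB with
      | none =>
        rw [hn, hn'] at h'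
        exact absurd h' Bool.false_ne_true
      | some lB =>
        rw [hn, hn'] at h'
        exact leafG_ok (get_ok bt hE nA lA hn) (get_ok bt hE nB lB hn') (get_bd bt hB nA lA hn)
          (get_bd bt hB nB lB hn') h'
  | O t =>
    intro x h
    exact CvS.ofP hT (.O t) (outN_ok h)
  | P a b =>
    intro x h
    exact CvS.ofP hT (.P a b) h

end Pool.Agent.TET.Cvr
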