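import Pool.Agent.Helper37_TET.QgSD

/-!
# MP_c7c9bf_co: guarded leaves, soundness of the checker of the flag chart
-/

set_option autoImplicit false

namespace Pool.Agent.TET.Cvr

attribute [local irreducible] OFFF ZF CF CQF M8 M6

theorem encS_Vf {s0 s1 s2 s3 : ℕ} {c : Cd} {f : FC} (h : encS s0 s1 s2 s3 c f = true) : Vf f := by
  cases f with
  | l c1 c2 c3 c4 c5 c6 c7 c8 c9 => exact trivial
  | q c1 c2 c3 c4 c5 c6 s =>
    cases c with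
    | l m g => exact absurd h Bool.false_ne_true
    | q v w =>
      obtain ⟨_, _, _, _, _, _, h7⟩ := encQ_iff h
      exact h7

/-- the conditions of an entry hold -/
theorem en_cvdS {T : List (List Cd)} {l : List FC} (hE : EnOK T encS l) {x y k al rho tt : ℝ}
    (h : ∀ f ∈ l, 0 ≤ fvS x y k al (al * (tt + 1) ^ 2 + rho) (al * (tt + 1)) f) :
    Cvd 1 T x y k al (rho + al * tt ^ 2) (al * tt) := by
  obtain ⟨R, s0, s1, s2, s3, hp, hR, hx⟩ := hE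
  obtain ⟨h0, h1, h2, h3, a, b, c, d, e, f⟩ := isP_iff hp
  have hR' : R < T.length := by
    unfold Nat.blt at hR
    exact Nat.lt_of_succ_le (Nat.le_of_ble_eq_true hR)
  refine ⟨nth [] T R, nth_mem [] T R hR', sg s0 s1 s2 s3 h0 h1 h2 h3,
    sg_inj h0 h1 h2 h3 a b c d e f, ?_⟩
  intro cd hcd
  obtain ⟨f, hf, hcf⟩ := all2_mem hx cd hcd
  exact hold_fvS h0 h1 h2 h3 hcf (h f hf)

theorem en_VfS {T : List (List Cd)} {l : List FC} (hE : EnOK T encS l) : ∀ f ∈ l, Vf f := by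
  obtain ⟨R, s0, s1, s2, s3, hp, hR, hx⟩ := hE
  intro f hf
  obtain ⟨c, _, hc⟩ := all2_mem' hx f hf
  exact encS_Vf hc

theorem cast_M8 {a : ℕ} (h : a ≤ M8) : (a : ℤ) ≤ 2 ^ 210 := by
  have h1 : (a : ℤ) ≤ ((M8 : ℕ) : ℤ) := Int.ofNat_le.2 h
  rw [M8_eq, Nat.cast_pow, Nat.cast_ofNat] at h1
  exact h1

theorem szS_bd {sb st sg sw c : ℕ} (h : sb * sb * (st * st * (sg * sg * (sw * c))) ≤ M8)
    (hw : 1 ≤ sw) (hc : 1 ≤ c) :
    ((sb : ℤ) * sb) * (((st : ℤ) * st) * ((sg : ℤ) * sg)) ≤ 2 ^ 210 ∧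
    ∀ m : ℕ, m ≤ c →
      ((sb : ℤ) * sb) * (((st : ℤ) * st) * (((sg : ℤ) * sg) * sw)) * (m : ℤ) ≤ 2 ^ 210 := by
  constructor
  · have h1 : sb * sb * (st * st * (sg * sg)) ≤ sb * sb * (st * st * (sg * sg * (sw * c))) :=
      Nat.mul_le_mul_left _ (Nat.mul_le_mul_left _ (Nat.le_mul_of_pos_right _ (Nat.mul_pos hw hc)))
    have h2 := cast_M8 (h1.trans h)
    rw [Nat.cast_mul, Nat.cast_mul, Nat.cast_mul, Nat.cast_mul, Nat.cast_mul] at h2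
    exact h2
  · intro m hm
    have h1 : sb * sb * (st * st * (sg * sg * sw)) * m ≤ sb * sb * (st * st * (sg * sg * (sw * c))) := by
      calc sb * sb * (st * st * (sg * sg * sw)) * m ≤ sb * sb * (st * st * (sg * sg * sw)) * c :=
          Nat.mul_le_mul_left _ hm
        _ = sb * sb * (st * st * (sg * sg * (sw * c))) := by
          rw [Nat.mul_assoc, Nat.mul_assoc (st * st), Nat.mul_assoc (sg * sg)]
    have h2 := cast_M8 (h1.trans h)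
    rw [Nat.cast_mul, Nat.cast_mul, Nat.cast_mul, Nat.cast_mul, Nat.cast_mul, Nat.cast_mul,
      Nat.cast_mul] at h2
    exact h2

/-- **guarded leaves** -/
theorem leafGS_ok {T : List (List Cd)} {lA lB : List FC} (hA : EnOK T encS lA)
    (hB : EnOK T encS lB) (bA : ∀ f ∈ lA, fcB f = true) (bB : ∀ f ∈ lB, fcB f = true)
    {j w0 w1 w2 : ℕ} {cs : List GC} {s : Ss}
    (h : leafGS (some lA) (some lB) j w0 w1 w2 cs s = true) : CvF 0 T s.s := by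
  intro x y k al rho tt hm hd
  obtain ⟨⟨m0, m1, m2, pm0, pm1, pm2, eW, eX, eY⟩, ⟨n0, n1, pn0, pn1, eV, eT⟩,
    ⟨g0, g1, g2, pg0, pg1, pg2, eK, eA, eR⟩⟩ := hm
  obtain ⟨W, hW⟩ : ∃ W, W = q3 s.p0.W s.p1.W s.p2.W := ⟨_, rfl⟩
  obtain ⟨X, hX⟩ : ∃ X, X = q3 s.p0.X s.p1.X s.p2.X := ⟨_, rfl⟩
  obtain ⟨Y, hY⟩ : ∃ Y, Y = q3 s.p0.Y s.p1.Y s.p2.Y := ⟨_, rfl⟩
  obtain ⟨V, hV⟩ : ∃ V, V = qT s.t0.V s.t1.V := ⟨_, rfl⟩
  obtain ⟨Z, hZ⟩ : ∃ Z, Z = qT s.t0.T s.t1.T := ⟨_, rfl⟩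
  obtain ⟨K, hK⟩ : ∃ K, K = qG s.u0.k s.u1.k s.u2.k := ⟨_, rfl⟩
  obtain ⟨A, hA1⟩ : ∃ A, A = qG s.u0.al s.u1.al s.u2.al := ⟨_, rfl⟩
  obtain ⟨R, hR1⟩ : ∃ R, R = qG s.u0.rho s.u1.rho s.u2.rho := ⟨_, rfl⟩
  obtain ⟨om, hom⟩ : ∃ om, om = qG w0 w1 w2 := ⟨_, rfl⟩
  have h0 : Bool.and (Bool.and (Bool.and (Nat.ble 1 w0) (Bool.and (Nat.ble 1 w1) (Nat.ble 1 w2)))
        (szGS (sbS s) (stS s) (sgS s) (w0 + (w1 + w2)) (csum cs)))
      (gs0 (q3 s.p0.W s.p1.W s.p2.W) (q3 s.p0.X s.p1.X s.p2.X) (q3 s.p0.Y s.p1.Y s.p2.Y)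
      (qT s.t0.V s.t1.V) (qT s.t0.T s.t1.T)
      (qG s.u0.k s.u1.k s.u2.k) (qG s.u0.al s.u1.al s.u2.al) (qG s.u0.rho s.u1.rho s.u2.rho)
      (qG w0 w1 w2) j lA lB cs) = true := h
  rw [← hW, ← hX, ← hY, ← hV, ← hZ, ← hK, ← hA1, ← hR1, ← hom] at h0
  simp only [bAnd] at h0
  obtain ⟨⟨⟨q0, q1, q2⟩, hs⟩, hev⟩ := h0
  have q0' : 1 ≤ w0 := Nat.le_of_ble_eq_true q0
  have q1' : 1 ≤ w1 := Nat.le_of_ble_eq_true q1
  have q2' : 1 ≤ w2 := Nat.le_of_ble_eq_true q2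
  -- sizes
  obtain ⟨sb, hsb⟩ : ∃ sb, sb = sbS s := ⟨_, rfl⟩
  obtain ⟨st, hst⟩ : ∃ st, st = stS s := ⟨_, rfl⟩
  obtain ⟨sg', hsg⟩ : ∃ sg', sg' = sgS s := ⟨_, rfl⟩
  obtain ⟨sw, hsw⟩ : ∃ sw, sw = w0 + (w1 + w2) := ⟨_, rfl⟩
  rw [← hsb, ← hst, ← hsg, ← hsw] at hs
  have hs' : sb * sb * (st * st * (sg' * sg' * (sw * csum cs))) ≤ M8 := Nat.le_of_ble_eq_true hs
  have hsb' : sb = s.p0.X + (s.p0.Y + s.p0.W) + (s.p1.X + (s.p1.Y + s.p1.W)) +
    (s.p2.X + (s.p2.Y + s.p2.W)) := hsb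
  have hst' : st = s.t0.T + s.t0.V + (s.t1.T + s.t1.V) := hst
  have hsg2 : sg' = s.u0.k + (s.u0.al + s.u0.rho) + (s.u1.k + (s.u1.al + s.u1.rho) +
    (s.u2.k + (s.u2.al + s.u2.rho))) := hsg
  obtain ⟨hpl, hgd0⟩ := szS_bd hs' (by omega) (csum_pos cs)
  have hsw1 : (1 : ℤ) ≤ sw := by
    rw [hsw]
    push_cast
    omega
  have hgd : ∀ mu lam d1 d2 : ℕ, GC.g mu lam d1 d2 ∈ cs →
      ((sb : ℤ) * sb) * (((st : ℤ) * st) * (((sg' : ℤ) * sg') * sw)) *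
      ((mu : ℤ) + lam + d1) ≤ 2 ^ 210 := fun mu lam d1 d2 hc => by
    have h1 := hgd0 (mu + lam + d1) (by
      have := csum_mem hc
      omega)
    rw [Nat.cast_add, Nat.cast_add] at h1
    exact h1
  -- the packed quantities
  obtain ⟨Kv, hKv⟩ : ∃ Kv : Fin 3 → ℤ, Kv = ![(s.u0.k : ℤ), s.u1.k, s.u2.k] := ⟨_, rfl⟩
  obtain ⟨Av, hAv⟩ : ∃ Kv : Fin 3 → ℤ, Kv = ![(s.u0.al : ℤ), s.u1.al, s.u2.al] := ⟨_, rfl⟩
  obtain ⟨Rv, hRv⟩ : ∃ Kv : Fin 3 → ℤ, Kv = ![(s.u0.rho : ℤ), s.u1.rho, s.u2.rho] := ⟨_, rfl⟩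
  obtain ⟨Ov, hOv⟩ : ∃ Kv : Fin 3 → ℤ, Kv = ![(w0 : ℤ), w1, w2] := ⟨_, rfl⟩
  obtain ⟨Vv, hVv⟩ : ∃ Kv : Fin 2 → ℤ, Kv = ![(s.t0.V : ℤ), s.t1.V] := ⟨_, rfl⟩
  obtain ⟨Tv, hTv⟩ : ∃ Kv : Fin 2 → ℤ, Kv = ![(s.t0.T : ℤ), s.t1.T] := ⟨_, rfl⟩
  obtain ⟨Wv, hWv⟩ : ∃ Kv : Fin 3 → ℤ, Kv = ![(s.p0.W : ℤ), s.p1.W, s.p2.W] := ⟨_, rfl⟩
  obtain ⟨Xv, hXv⟩ : ∃ Kv : Fin 3 → ℤ, Kv = ![(s.p0.X : ℤ), s.p1.X, s.p2.X] := ⟨_, rfl⟩
  obtain ⟨Yv, hYv⟩ : ∃ Kv : Fin 3 → ℤ, Kv = ![(s.p0.Y : ℤ), s.p1.Y, s.p2.Y] := ⟨_, rfl⟩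
  have hp : PcS K A R V Z W X Y om Kv Av Rv Ov Vv Tv Wv Xv Yv := by
    refine ⟨?_, ?_, ?_, ?_, ?_, ?_, ?_, ?_, ?_⟩
    · rw [hK, qG_cast, hKv]
      rfl
    · rw [hA1, qG_cast, hAv]
      rfl
    · rw [hR1, qG_cast, hRv]
      rfl
    · rw [hom, qG_cast, hOv]
      rfl
    · rw [hV, qT_cast, hVv]
      rfl
    · rw [hZ, qT_cast, hTv]
      rfl
    · rw [hW, q3_cast, hWv]
      rfl
    · rw [hX, q3_cast, hXv]
      rfl
    · rw [hY, q3_cast, hYv]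
      rfl
  have nb : ∀ a b : ℕ, a ≤ b → |(a : ℤ)| ≤ b := fun a b hab => by
    rw [Nat.abs_cast]
    exact_mod_cast hab
  have hb : BxS Kv Av Rv Vv Tv Wv Xv Yv sg' st sb := by
    refine ⟨?_, ?_, ?_, ?_, ?_, ?_, ?_, ?_⟩
    · intro i
      rw [hKv]
      fin_cases i
      · exact nb _ _ (by omega)
      · exact nb _ _ (by omega)
      · exact nb _ _ (by omega)
    · intro i
      rw [hAv]
      fin_cases i
      · exact nb _ _ (by omega)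
      · exact nb _ _ (by omega)
      · exact nb _ _ (by omega)
    · intro i
      rw [hRv]
      fin_cases i
      · exact nb _ _ (by omega)
      · exact nb _ _ (by omega)
      · exact nb _ _ (by omega)
    · intro i
      rw [hVv]
      fin_cases i
      · exact nb _ _ (by omega)
      · exact nb _ _ (by omega)
    · intro i
      rw [hTv]
      fin_cases i
      · exact nb _ _ (by omega)
      · exact nb _ _ (by omega)
    · intro i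
      rw [hWv]
      fin_cases i
      · exact nb _ _ (by omega)
      · exact nb _ _ (by omega)
      · exact nb _ _ (by omega)
    · intro i
      rw [hXv]
      fin_cases i
      · exact nb _ _ (by omega)
      · exact nb _ _ (by omega)
      · exact nb _ _ (by omega)
    · intro i
      rw [hYv]
      fin_cases i
      · exact nb _ _ (by omega)
      · exact nb _ _ (by omega)
      · exact nb _ _ (by omega)
  have hO : ∀ i, |Ov i| ≤ (sw : ℤ) := by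
    intro i
    rw [hOv]
    fin_cases i
    · exact nb _ _ (by omega)
    · exact nb _ _ (by omega)
    · exact nb _ _ (by omega)
  -- the point
  obtain ⟨m, hm0, hm1, hm2⟩ : ∃ m : ℕ → ℝ, m 0 = m0 ∧ m 1 = m1 ∧ m 2 = m2 :=
    ⟨fun i => Nat.rec (motive := fun _ => ℝ) m0 (fun j _ => Nat.rec (motive := fun _ => ℝ) m1
      (fun _ _ => m2) j) i, rfl, rfl, rfl⟩
  obtain ⟨n, hn0, hn1⟩ : ∃ n : ℕ → ℝ, n 0 = n0 ∧ n 1 = n1 :=
    ⟨fun i => Nat.rec (motive := fun _ => ℝ) n0 (fun _ _ => n1) i, rfl, rfl⟩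
  obtain ⟨g, hg0, hg1, hg2⟩ : ∃ m : ℕ → ℝ, m 0 = g0 ∧ m 1 = g1 ∧ m 2 = g2 :=
    ⟨fun i => Nat.rec (motive := fun _ => ℝ) g0 (fun j _ => Nat.rec (motive := fun _ => ℝ) g1
      (fun _ _ => g2) j) i, rfl, rfl, rfl⟩
  have hat : AtS Kv Av Rv Vv Tv Wv Xv Yv x y k al rho (tt + 1) m n g := by
    refine ⟨?_, ?_, ?_, ?_, ?_, ?_, ?_, ?_⟩
    · rw [hWv, hm0, hm1, hm2]
      exact_mod_cast eW
    · rw [hXv, hm0, hm1, hm2]
      exact_mod_cast eX.symm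
    · rw [hYv, hm0, hm1, hm2]
      exact_mod_cast eY.symm
    · rw [hVv, hn0, hn1]
      exact_mod_cast eV
    · rw [hTv, hn0, hn1]
      have e1 : tt = n0 * ((Int.subNatNat s.t0.T s.t0.V : ℤ) : ℝ) +
        n1 * ((Int.subNatNat s.t1.T s.t1.V : ℤ) : ℝ) := eT
      have e2 : n0 * (s.t0.V : ℝ) + n1 * (s.t1.V : ℝ) = 1 := eV
      rw [sn, sn] at e1
      push_cast at e1
      show n0 * ((s.t0.T : ℤ) : ℝ) + n1 * ((s.t1.T : ℤ) : ℝ) = tt + 1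
      push_cast
      linarith
    · rw [hKv, hg0, hg1, hg2]
      exact_mod_cast eK.symm
    · rw [hAv, hg0, hg1, hg2]
      exact_mod_cast eA.symm
    · rw [hRv, hg0, hg1, hg2]
      exact_mod_cast eR.symm
  have p0 : 0 ≤ m 0 := by rw [hm0]; exact pm0
  have p1 : 0 ≤ m 1 := by rw [hm1]; exact pm1
  have p2 : 0 ≤ m 2 := by rw [hm2]; exact pm2
  have r0 : 0 ≤ n 0 := by rw [hn0]; exact pn0
  have r1 : 0 ≤ n 1 := by rw [hn1]; exact pn1
  have c0 : 0 ≤ g 0 := by rw [hg0]; exact pg0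
  have c1 : 0 ≤ g 1 := by rw [hg1]; exact pg1
  have c2 : 0 ≤ g 2 := by rw [hg2]; exact pg2
  -- om is positive
  have ho : 0 < g 0 * Ov 0 + g 1 * Ov 1 + g 2 * Ov 2 := by
    by_contra hcon
    have hcon := not_lt.1 hcon
    have b0 : ∀ i, ((Av i : ℤ) : ℝ) ≤ sg' := fun i => by
      have := (abs_le.1 (hb.A i)).2
      exact_mod_cast this
    have o0' : (1 : ℝ) ≤ (Ov 0 : ℤ) := by
      rw [hOv]
      show (1 : ℝ) ≤ ((w0 : ℤ) : ℝ)
      exact_mod_cast q0'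
    have o1' : (1 : ℝ) ≤ (Ov 1 : ℤ) := by
      rw [hOv]
      show (1 : ℝ) ≤ ((w1 : ℤ) : ℝ)
      exact_mod_cast q1'
    have o2' : (1 : ℝ) ≤ (Ov 2 : ℤ) := by
      rw [hOv]
      show (1 : ℝ) ≤ ((w2 : ℤ) : ℝ)
      exact_mod_cast q2'
    have st : ∀ (a u v g : ℝ), 0 ≤ a → u ≤ g → 0 ≤ g → 1 ≤ v → a * u ≤ g * (a * v) := by
      intro a u v g ha hu hg hv
      calc a * u ≤ a * g := mul_le_mul_of_nonneg_left hu ha
        _ = g * (a * 1) := by ring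
        _ ≤ g * (a * v) := mul_le_mul_of_nonneg_left (mul_le_mul_of_nonneg_left hv ha) hg
    have gg : (0 : ℝ) ≤ sg' := Nat.cast_nonneg _
    have t0 := st _ _ _ _ c0 (b0 0) gg o0'
    have t1 := st _ _ _ _ c1 (b0 1) gg o1'
    have t2 := st _ _ _ _ c2 (b0 2) gg o2'
    have t4 : (sg' : ℝ) * (g 0 * Ov 0 + g 1 * Ov 1 + g 2 * Ov 2) ≤ 0 :=
      mul_nonpos_of_nonneg_of_nonpos gg hcon
    have t5 := hat.hA
    have t6 := hd.ap
    linarith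
  have hx : rho ≤ al * (2 * (tt + 1) - (tt + 1) ^ 2) := hd.le.trans (le_of_eq (by ring))
  -- the monomials
  obtain ⟨n1', h1⟩ : ∃ n, n = 2 * (K * A * (V * Z) * (X * X + X * Y)) := ⟨_, rfl⟩
  obtain ⟨n2', h2⟩ : ∃ n, n = K * A * (V * Z) * (W * X + W * Y) := ⟨_, rfl⟩
  obtain ⟨n4', h4⟩ : ∃ n, n = K * A * (V * V) * (W * X + W * Y) := ⟨_, rfl⟩
  have e1 : gs0 W X Y V Z K A R om j lA lB cs = gs1 (W * W) (W * X) (X * X)
    (X * X + (2 * (X * Y) + Y * Y)) (K * R * (V * V) + K * A * (Z * Z)) (K * A * (V * V))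
    (A * R * (V * V)) (K * (V * V) * (X * X)) (K * (V * V) * (X * Y)) (K * (V * V) * (Y * Y))
    (K * (V * V) * (W * X)) (K * (V * V) * (W * Y)) (K * (V * V) * (W * W))
    (A * (W * W) * (V * V)) (A * (W * W) * (Z * Z) + R * (W * W) * (V * V))
    (A * (W * W) * (V * Z)) (K * A * (V * Z) * (W * W))
    (2 * (K * A * (V * Z) * (X * X + X * Y))) (K * A * (V * Z) * (W * X + W * Y))
    (K * A * (V * V) * (W * X + W * Y)) (K * A * (V * Z) * (W * X)) om j lA lB cs := rfl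
  rw [e1, ← h1, ← h2, ← h4] at hev
  unfold gs1 at hev
  simp only [bAnd] at hev
  obtain ⟨⟨b1, b2, b4⟩, hev⟩ := hev
  obtain ⟨N1, hN1⟩ : ∃ n, n = zf (A * R * (V * V) * (W * W) + ((K * R * (V * V) +
    K * A * (Z * Z)) * (X * X) + K * A * (V * V) * (X * X + (2 * (X * Y) + Y * Y)))) n1' := ⟨_, rfl⟩
  obtain ⟨N2, hN2⟩ : ∃ n, n = zf ((K * R * (V * V) + K * A * (Z * Z)) * (W * X)) n2' := ⟨_, rfl⟩
  obtain ⟨N4, hN4⟩ : ∃ n, n = zf (K * A * (V * Z) * (W * X)) n4' := ⟨_, rfl⟩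
  obtain ⟨N6, hN6⟩ : ∃ n, n = zf (K * A * (V * Z) * (W * W)) 0 := ⟨_, rfl⟩
  obtain ⟨L1, hL1⟩ : ∃ n, n = K * (V * V) * (X * X) := ⟨_, rfl⟩
  obtain ⟨L2, hL2⟩ : ∃ n, n = K * (V * V) * (X * Y) := ⟨_, rfl⟩
  obtain ⟨L3, hL3⟩ : ∃ n, n = K * (V * V) * (Y * Y) := ⟨_, rfl⟩
  obtain ⟨L4, hL4⟩ : ∃ n, n = K * (V * V) * (W * X) := ⟨_, rfl⟩
  obtain ⟨L5, hL5⟩ : ∃ n, n = K * (V * V) * (W * Y) := ⟨_, rfl⟩
  obtain ⟨L6, hL6⟩ : ∃ n, n = K * (V * V) * (W * W) := ⟨_, rfl⟩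
  obtain ⟨L7, hL7⟩ : ∃ n, n = A * (W * W) * (V * V) := ⟨_, rfl⟩
  obtain ⟨L8, hL8⟩ : ∃ n, n = A * (W * W) * (Z * Z) + R * (W * W) * (V * V) := ⟨_, rfl⟩
  obtain ⟨L9, hL9⟩ : ∃ n, n = A * (W * W) * (V * Z) := ⟨_, rfl⟩
  have e2 : gs2 (K * (V * V) * (X * X)) (K * (V * V) * (X * Y)) (K * (V * V) * (Y * Y))
      (K * (V * V) * (W * X)) (K * (V * V) * (W * Y)) (K * (V * V) * (W * W))
      (A * (W * W) * (V * V)) (A * (W * W) * (Z * Z) + R * (W * W) * (V * V))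
      (A * (W * W) * (V * Z))
      (zf (Nat.add (Nat.mul (A * R * (V * V)) (W * W)) (Nat.add (Nat.mul (K * R * (V * V) +
        K * A * (Z * Z)) (X * X)) (Nat.mul (K * A * (V * V)) (X * X + (2 * (X * Y) + Y * Y))))) n1')
      (zf (Nat.mul (K * R * (V * V) + K * A * (Z * Z)) (W * X)) n2')
      (Nat.mul (K * R * (V * V) + K * A * (Z * Z)) (W * W))
      (zf (K * A * (V * Z) * (W * X)) n4')
      (Nat.mul (K * A * (V * V)) (W * W))
      (zf (K * A * (V * Z) * (W * W)) 0) om j lA lB cs =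
    gs3 L1 L2 L3 L4 L5 L6 L7 L8 L9 N1 N2 ((K * R * (V * V) + K * A * (Z * Z)) * (W * W)) N4
      (K * A * (V * V) * (W * W)) N6
      (C0 * (L1 + (L2 + L3) + (L4 + (L5 + L6)) + (L7 + (L8 + L9))))
      (C0 * (N1 + (N2 + (K * R * (V * V) + K * A * (Z * Z)) * (W * W)) +
        (N4 + (K * A * (V * V) * (W * W) + N6)))) om j lA lB cs := by
    rw [hL1, hL2, hL3, hL4, hL5, hL6, hL7, hL8, hL9, hN1, hN2, hN4, hN6]
    rfl
  rw [e2] at hev
  have hmon : MoS L1 L2 L3 L4 L5 L6 L7 L8 L9 N1 N2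
      ((K * R * (V * V) + K * A * (Z * Z)) * (W * W)) N4 (K * A * (V * V) * (W * W)) N6
      (C0 * (L1 + (L2 + L3) + (L4 + (L5 + L6)) + (L7 + (L8 + L9))))
      (C0 * (N1 + (N2 + (K * R * (V * V) + K * A * (Z * Z)) * (W * W)) +
        (N4 + (K * A * (V * V) * (W * W) + N6)))) om K A R V Z W X Y om := by
    refine ⟨?_, ?_, ?_, ?_, ?_, ?_, ?_, ?_, ?_, ?_, ?_, by push_cast; ring, ?_,
      by push_cast; ring, ?_, rfl, rfl, rfl⟩
    · rw [hL1]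
      push_cast
      ring
    · rw [hL2]
      push_cast
      ring
    · rw [hL3]
      push_cast
      ring
    · rw [hL4]
      push_cast
      ring
    · rw [hL5]
      push_cast
      ring
    · rw [hL6]
      push_cast
      ring
    · rw [hL7]
      push_cast
      ring
    · rw [hL8]
      push_cast
      ring
    · rw [hL9]
      push_cast
      ring
    · rw [hN1, zf_cast b1, h1]
      push_cast
      ring
    · rw [hN2, zf_cast b2, h2]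
      push_cast
      ring
    · rw [hN4, zf_cast b4, h4]
      push_cast
      ring
    · rw [hN6, zf_cast0]
      push_cast
      ring
  unfold gs3 at hev
  rw [bAnd] at hev
  obtain ⟨hv1, hv2⟩ := hev
  have vB := en_VfS hB
  have vA := en_VfS hA
  have plain := fun {c : FC} (hv : Vf c) (hc : fcB c = true) (ht : _ = true) =>
    tpS_ok hp hmon hb hpl hat p0 p1 p2 r0 r1 c0 c1 c2 (c := c) hv hc ht
  show Cvd 1 T x y k al (rho + al * tt ^ 2) (al * tt)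
  rcases le_total 0 (fvS x y k al (al * (tt + 1) ^ 2 + rho) (al * (tt + 1)) (nth dF lB j))
    with hj | hj
  · refine en_cvdS hB fun f hf => ?_
    rcases allBut_mem hv1 f hf with h3 | h3
    · exact plain (vB f hf) (bB f hf) h3
    · rw [h3]
      exact hj
  · refine en_cvdS hA fun f hf => ?_
    obtain ⟨c, hc, hcf⟩ := all2_mem hv2 f hf
    cases c with
    | n => exact plain (vA f hf) (bA f hf) hcf
    | g mu lam d1 d2 =>
      exact tgS_ok hp hmon hb hO hsw1 (hgd _ _ _ _ hc) hat p0 p1 p2 r0 r1 c0 c1 c2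
        (vA f hf) (nth_prop dF_V lB j vB) (bA f hf) (nth_prop dF_B lB j bB) hcf ho hx hj

/-- **chunks of a cover tree of the flag chart with guarded leaves, fast check** -/
theorem CoF.ofG {T : List (List Cd)} (hT : tabB T = true) {bt : Bt} (hE : encTS T bt = true)
    (hB : btB bt = true) : ∀ (t : TfG) {x : Ss}, chkSG bt t x = true → CoF T x := by
  intro t
  induction t with
  | B r p q a b iha ihb =>
    intro x h
    have h' : Bool.and (Bool.and (Nat.ble r 2) (Bool.and (Nat.ble 1 p) (Nat.ble 1 q)))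
      (Bool.and (chkSG bt a (sPS x (nx r) (mid p q (gPS x r) (gPS x (nx r)))))
        (chkSG bt b (sPS x r (mid p q (gPS x r) (gPS x (nx r)))))) = true := h
    simp only [bAnd] at h'
    obtain ⟨⟨hr, hp, hq⟩, ha, hb⟩ := h'
    exact CoF.b r p q hr hp hq (iha ha) (ihb hb)
  | T p q a b iha ihb =>
    intro x h
    have h' : Bool.and (Bool.and (Nat.ble 1 p) (Nat.ble 1 q))
      (Bool.and (chkSG bt a (sTS1 x (tmS p q x.t0 x.t1)))
        (chkSG bt b (sTS0 x (tmS p q x.t0 x.t1)))) = true := h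
    simp only [bAnd] at h'
    obtain ⟨⟨hp, hq⟩, ha, hb⟩ := h'
    exact CoF.t p q hp hq (iha ha) (ihb hb)
  | C i j p q a b iha ihb =>
    intro x h
    have h' : Bool.and (Bool.and (Bool.and (Nat.ble i 2) (Nat.ble j 2))
        (Bool.and (not (Nat.beq i j)) (Bool.and (Nat.ble 1 p) (Nat.ble 1 q))))
      (Bool.and (chkSG bt a (sUS x j (cm p q (gUS x i) (gUS x j))))
        (chkSG bt b (sUS x i (cm p q (gUS x i) (gUS x j))))) = true := h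
    simp only [bAnd] at h'
    obtain ⟨⟨⟨hi, hj⟩, hij, hp, hq⟩, ha, hb⟩ := h'
    exact CoF.c i j p q hi hj hij hp hq (iha ha) (ihb hb)
  | L n =>
    intro x h
    have h' : leafS (bt.get n) x = true := h
    cases hn : bt.get n with
    | none =>
      rw [hn] at h'
      exact absurd h' Bool.false_ne_true
    | some l =>
      rw [hn] at h'
      obtain ⟨R, s0, s1, s2, s3, h1⟩ := leafS_ok (getS_ok bt hE n l hn) h'
      exact CvF.of hT (.L R s0 s1 s2 s3) h1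
  | G nA nB j w0 w1 w2 cs =>
    intro x h
    have h' : leafGS (bt.get nA) (bt.get nB) j w0 w1 w2 cs x = true := h
    cases hn : bt.get nA with
    | none =>
      rw [hn] at h'
      exact absurd h' Bool.false_ne_true
    | some lA =>
      cases hn' : bt.get nB with
      | none =>
        rw [hn, hn'] at h'
        exact absurd h' Bool.false_ne_true
      | some lB =>
        rw [hn, hn'] at h'
        exact leafGS_ok (getS_ok bt hE nA lA hn) (getS_ok bt hE nB lB hn') (get_bd bt hB nA lA hn)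
          (get_bd bt hB nB lB hn') h'
  | O t =>
    intro x h
    exact CvF.of hT (.O t) (outS_ok h)

end Pool.Agent.TET.Cvr
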