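import Pool.Agent.Helper37_TET.QgN
import Pool.Agent.Helper37_TET.QkS

/-!
# MP_c7c9bf_co: guarded leaves, flag chart, algebra
-/

set_option autoImplicit false

namespace Pool.Agent.TET.Cvr

/-! ### coefficients -/

/-- coefficients: six pairs of corners, three pairs of ends, six pairs of generators -/
abbrev Ce := Fin 6 → Fin 3 → Fin 6 → ℤ

def TP (u v : Fin 2 → ℤ) : Fin 3 → ℤ := ![u 0 * v 0, u 0 * v 1 + u 1 * v 0, u 1 * v 1]

/-- a product of six linear forms -/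
def PS (x y : Fin 3 → ℤ) (u v : Fin 2 → ℤ) (a b : Fin 3 → ℤ) : Ce :=
  fun i j g => BP a b i * (TP u v j * BP x y g)

def TT (t : ℤ) : Fin 3 → ℤ := ![1, t ^ 7, t ^ 14]

def TH (t : ℤ) : Fin 6 → ℤ := ![1, t ^ 21, t ^ 42, t ^ 63, t ^ 84, t ^ 126]

/-- the packed integer -/
def ivS (t : ℤ) (c : Ce) : ℤ := ∑ g, ∑ j, ∑ i, c i j g * (TH t g * (TT t j * TB t i))

noncomputable def TE (n : ℕ → ℝ) : Fin 3 → ℝ := ![n 0 * n 0, n 0 * n 1, n 1 * n 1]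

noncomputable def NS (w : ℕ → ℝ) : Fin 6 → ℝ := ![w 0, w 1, 0, w 2, 0, 0]

/-- the value at a point -/
noncomputable def rvS (m n : ℕ → ℝ) (w : Fin 6 → ℝ) (c : Ce) : ℝ :=
  ∑ g, ∑ j, ∑ i, (c i j g : ℝ) * (w g * (TE n j * BE m i))

theorem ivS_add (t : ℤ) (c d : Ce) : ivS t (c + d) = ivS t c + ivS t d := by
  unfold ivS
  simp only [Pi.add_apply, add_mul, Finset.sum_add_distrib]

theorem ivS_sub (t : ℤ) (c d : Ce) : ivS t (c - d) = ivS t c - ivS t d := by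
  unfold ivS
  simp only [Pi.sub_apply, sub_mul, Finset.sum_sub_distrib]

theorem ivS_smul (t z : ℤ) (c : Ce) : ivS t (z • c) = z * ivS t c := by
  unfold ivS
  simp only [Pi.smul_apply, smul_eq_mul, mul_assoc, Finset.mul_sum]

theorem rvS_add (m n : ℕ → ℝ) (w : Fin 6 → ℝ) (c d : Ce) :
    rvS m n w (c + d) = rvS m n w c + rvS m n w d := by
  unfold rvS
  simp only [Pi.add_apply, Int.cast_add, add_mul, Finset.sum_add_distrib]

theorem rvS_sub (m n : ℕ → ℝ) (w : Fin 6 → ℝ) (c d : Ce) :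
    rvS m n w (c - d) = rvS m n w c - rvS m n w d := by
  unfold rvS
  simp only [Pi.sub_apply, Int.cast_sub, sub_mul, Finset.sum_sub_distrib]

theorem rvS_smul (m n : ℕ → ℝ) (w : Fin 6 → ℝ) (z : ℤ) (c : Ce) :
    rvS m n w (z • c) = z * rvS m n w c := by
  unfold rvS
  simp only [Pi.smul_apply, smul_eq_mul, Int.cast_mul, mul_assoc, Finset.mul_sum]

theorem sum_BP (t : ℤ) (a b : Fin 3 → ℤ) : ∑ i, BP a b i * TB t i =
    (a 0 + a 1 * t + a 2 * t ^ 3) * (b 0 + b 1 * t + b 2 * t ^ 3) := by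
  unfold BP TB
  simp only [Fin.sum_univ_succ, Fin.sum_univ_zero]
  simp
  ring

theorem sum_BH (t : ℤ) (a b : Fin 3 → ℤ) : ∑ i, BP a b i * TH t i =
    (a 0 + a 1 * t ^ 21 + a 2 * t ^ 63) * (b 0 + b 1 * t ^ 21 + b 2 * t ^ 63) := by
  unfold BP TH
  simp only [Fin.sum_univ_succ, Fin.sum_univ_zero]
  simp
  ring

theorem sum_TP (t : ℤ) (a b : Fin 2 → ℤ) : ∑ i, TP a b i * TT t i =
    (a 0 + a 1 * t ^ 7) * (b 0 + b 1 * t ^ 7) := by
  unfold TP TT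
  simp only [Fin.sum_univ_succ, Fin.sum_univ_zero]
  simp
  ring

theorem ivS_PS (t : ℤ) (x y : Fin 3 → ℤ) (u v : Fin 2 → ℤ) (a b : Fin 3 → ℤ) :
    ivS t (PS x y u v a b) =
      ((x 0 + x 1 * t ^ 21 + x 2 * t ^ 63) * (y 0 + y 1 * t ^ 21 + y 2 * t ^ 63)) *
      (((u 0 + u 1 * t ^ 7) * (v 0 + v 1 * t ^ 7)) *
      ((a 0 + a 1 * t + a 2 * t ^ 3) * (b 0 + b 1 * t + b 2 * t ^ 3))) := by
  rw [← sum_BH, ← sum_TP, ← sum_BP]
  unfold ivS PS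
  rw [Finset.sum_mul]
  refine Finset.sum_congr rfl fun g _ => ?_
  rw [Finset.sum_mul, Finset.mul_sum]
  refine Finset.sum_congr rfl fun j _ => ?_
  rw [Finset.mul_sum, Finset.mul_sum]
  refine Finset.sum_congr rfl fun i _ => ?_
  ring

theorem sum_BE (m : ℕ → ℝ) (a b : Fin 3 → ℤ) : ∑ i, (BP a b i : ℝ) * BE m i =
    (m 0 * a 0 + m 1 * a 1 + m 2 * a 2) * (m 0 * b 0 + m 1 * b 1 + m 2 * b 2) := by
  unfold BP BE
  simp only [Fin.sum_univ_succ, Fin.sum_univ_zero]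
  simp
  ring

theorem sum_TE (n : ℕ → ℝ) (a b : Fin 2 → ℤ) : ∑ i, (TP a b i : ℝ) * TE n i =
    (n 0 * a 0 + n 1 * a 1) * (n 0 * b 0 + n 1 * b 1) := by
  unfold TP TE
  simp only [Fin.sum_univ_succ, Fin.sum_univ_zero]
  simp
  ring

/-- the first unit vector -/
def e3 : Fin 3 → ℤ := ![1, 0, 0]

theorem sum_NS (w : ℕ → ℝ) (x : Fin 3 → ℤ) : ∑ g, (BP x e3 g : ℝ) * NS w g =
    w 0 * x 0 + w 1 * x 1 + w 2 * x 2 := by
  unfold BP NS e3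
  simp only [Fin.sum_univ_succ, Fin.sum_univ_zero]
  simp
  ring

theorem rvS_prod (m n : ℕ → ℝ) (w : Fin 6 → ℝ) (x y : Fin 3 → ℤ) (u v : Fin 2 → ℤ)
    (a b : Fin 3 → ℤ) : rvS m n w (PS x y u v a b) = (∑ g, (BP x y g : ℝ) * w g) *
      (((n 0 * u 0 + n 1 * u 1) * (n 0 * v 0 + n 1 * v 1)) *
      ((m 0 * a 0 + m 1 * a 1 + m 2 * a 2) * (m 0 * b 0 + m 1 * b 1 + m 2 * b 2))) := by
  rw [← sum_BE, ← sum_TE]
  unfold rvS PS
  rw [Finset.sum_mul]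
  refine Finset.sum_congr rfl fun g _ => ?_
  rw [Finset.sum_mul, Finset.mul_sum]
  refine Finset.sum_congr rfl fun j _ => ?_
  rw [Finset.mul_sum, Finset.mul_sum]
  refine Finset.sum_congr rfl fun i _ => ?_
  push_cast
  ring

theorem rvS_MU (m n w : ℕ → ℝ) (x y : Fin 3 → ℤ) (u v : Fin 2 → ℤ) (a b : Fin 3 → ℤ) :
    rvS m n (BE w) (PS x y u v a b) =
      ((w 0 * x 0 + w 1 * x 1 + w 2 * x 2) * (w 0 * y 0 + w 1 * y 1 + w 2 * y 2)) *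
      (((n 0 * u 0 + n 1 * u 1) * (n 0 * v 0 + n 1 * v 1)) *
      ((m 0 * a 0 + m 1 * a 1 + m 2 * a 2) * (m 0 * b 0 + m 1 * b 1 + m 2 * b 2))) := by
  rw [rvS_prod, sum_BE]

theorem rvS_NS (m n w : ℕ → ℝ) (x : Fin 3 → ℤ) (u v : Fin 2 → ℤ) (a b : Fin 3 → ℤ) :
    rvS m n (NS w) (PS x e3 u v a b) = (w 0 * x 0 + w 1 * x 1 + w 2 * x 2) *
      (((n 0 * u 0 + n 1 * u 1) * (n 0 * v 0 + n 1 * v 1)) *
      ((m 0 * a 0 + m 1 * a 1 + m 2 * a 2) * (m 0 * b 0 + m 1 * b 1 + m 2 * b 2))) := by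
  rw [rvS_prod, sum_NS]

/-! ### the test -/

def roS (c : Ce) (j : Fin 3) (g : Fin 6) : D6 :=
  ⟨c 0 j g, c 1 j g, c 2 j g, c 3 j g, c 4 j g, c 5 j g⟩

def roD (c : Ce) (g : Fin 6) : D18 := ⟨roS c 0 g, roS c 1 g, roS c 2 g⟩

theorem roS_val (t : ℤ) (c : Ce) (j : Fin 3) (g : Fin 6) :
    (roS c j g).val t = ∑ i, c i j g * TB t i := by
  unfold roS D6.val TB
  simp only [Fin.sum_univ_succ, Fin.sum_univ_zero]
  simp
  ring

theorem roD_val (t : ℤ) (c : Ce) (g : Fin 6) :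
    (roD c g).val t = ∑ j, TT t j * (roS c j g).val t := by
  unfold roD D18.val TT
  simp only [Fin.sum_univ_succ, Fin.sum_univ_zero]
  simp
  ring

theorem ivS_dig (t : ℤ) (c : Ce) : ivS t c =
    pZ t (digF (roD c 0) (roD c 1) (roD c 2) (roD c 3) (roD c 4) (roD c 5)) := by
  rw [digF_val]
  have h1 : ivS t c = ∑ g, TH t g * (roD c g).val t := by
    unfold ivS
    refine Finset.sum_congr rfl fun g _ => ?_
    rw [roD_val, Finset.mul_sum]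
    refine Finset.sum_congr rfl fun j _ => ?_
    rw [roS_val, Finset.mul_sum, Finset.mul_sum]
    refine Finset.sum_congr rfl fun i _ => ?_
    ring
  rw [h1]
  unfold TH
  simp only [Fin.sum_univ_succ, Fin.sum_univ_zero]
  simp
  ring

theorem roD_all {P : ℤ → Prop} {c : Ce} (h : ∀ i j g, P (c i j g)) (g : Fin 6) : (roD c g).all P :=
  ⟨⟨h 0 0 g, h 1 0 g, h 2 0 g, h 3 0 g, h 4 0 g, h 5 0 g⟩,
    ⟨h 0 1 g, h 1 1 g, h 2 1 g, h 3 1 g, h 4 1 g, h 5 1 g⟩,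
    ⟨h 0 2 g, h 1 2 g, h 2 2 g, h 3 2 g, h 4 2 g, h 5 2 g⟩⟩

/-- the test shows that the coefficients are not negative -/
theorem tstF_ce {F : ℤ} (h : tstF F = true) {c : Ce} (hb : ∀ i j g, |c i j g| < 2 ^ 255)
    (hF : F = ivS (2 ^ 256) c) : ∀ i j g, 0 ≤ c i j g := by
  have hr := fun g => roD_all (P := fun z => |z| < 2 ^ 255) hb g
  obtain ⟨r0, r1, r2, r3, r4, r5⟩ := tstF_dig h (hr 0) (hr 1) (hr 2) (hr 3) (hr 4) (hr 5)
    (by rw [hF, ivS_dig])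
  have key : ∀ g : Fin 6, (roD c g).all (0 ≤ ·) := by
    intro g
    fin_cases g
    · exact r0
    · exact r1
    · exact r2
    · exact r3
    · exact r4
    · exact r5
  have key2 : ∀ (g : Fin 6) (j : Fin 3), (roS c j g).all (0 ≤ ·) := by
    intro g j
    obtain ⟨a, b, d⟩ := key g
    fin_cases j
    · exact a
    · exact b
    · exact d
  intro i j g
  obtain ⟨a, b, d, e, f, k⟩ := key2 g j
  fin_cases i
  · exact a
  · exact b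
  · exact d
  · exact e
  · exact f
  · exact k

theorem BE_nonneg {m : ℕ → ℝ} (h0 : 0 ≤ m 0) (h1 : 0 ≤ m 1) (h2 : 0 ≤ m 2) : ∀ i, 0 ≤ BE m i := by
  intro i
  unfold BE
  fin_cases i
  · exact mul_nonneg h0 h0
  · exact mul_nonneg h0 h1
  · exact mul_nonneg h1 h1
  · exact mul_nonneg h0 h2
  · exact mul_nonneg h1 h2
  · exact mul_nonneg h2 h2

theorem TE_nonneg {n : ℕ → ℝ} (h0 : 0 ≤ n 0) (h1 : 0 ≤ n 1) : ∀ i, 0 ≤ TE n i := by
  intro i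
  unfold TE
  fin_cases i
  · exact mul_nonneg h0 h0
  · exact mul_nonneg h0 h1
  · exact mul_nonneg h1 h1

theorem NS_nonneg {w : ℕ → ℝ} (g0 : 0 ≤ w 0) (g1 : 0 ≤ w 1) (g2 : 0 ≤ w 2) : ∀ g, 0 ≤ NS w g := by
  intro g
  unfold NS
  fin_cases g
  · exact g0
  · exact g1
  · exact le_rfl
  · exact g2
  · exact le_rfl
  · exact le_rfl

theorem rvS_nonneg {c : Ce} (hc : ∀ i j g, 0 ≤ c i j g) {m n : ℕ → ℝ} {w : Fin 6 → ℝ}
    (h0 : 0 ≤ m 0) (h1 : 0 ≤ m 1) (h2 : 0 ≤ m 2) (k0 : 0 ≤ n 0) (k1 : 0 ≤ n 1)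
    (hw : ∀ g, 0 ≤ w g) : 0 ≤ rvS m n w c := by
  unfold rvS
  refine Finset.sum_nonneg fun g _ => Finset.sum_nonneg fun j _ => Finset.sum_nonneg fun i _ => ?_
  have e1 : (0 : ℝ) ≤ c i j g := Int.cast_nonneg (hc i j g)
  exact mul_nonneg e1 (mul_nonneg (hw g) (mul_nonneg (TE_nonneg k0 k1 j) (BE_nonneg h0 h1 h2 i)))

/-! ### bounds -/

def BdS (c : Ce) (U : ℤ) : Prop := ∀ i j g, |c i j g| ≤ U

theorem BdS.add {c d : Ce} {U V : ℤ} (hc : BdS c U) (hd : BdS d V) : BdS (c + d) (U + V) :=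
  fun i j g => add_bd (hc i j g) (hd i j g)

theorem BdS.sub {c d : Ce} {U V : ℤ} (hc : BdS c U) (hd : BdS d V) : BdS (c - d) (U + V) :=
  fun i j g => sub_bd (hc i j g) (hd i j g)

theorem BdS.smul {c : Ce} {z U Z : ℤ} (hz : |z| ≤ Z) (hc : BdS c U) : BdS (z • c) (Z * U) :=
  fun i j g => mul_bd hz (hc i j g)

theorem BdS.mono {c : Ce} {U V : ℤ} (hc : BdS c U) (h : U ≤ V) : BdS c V :=
  fun i j g => (hc i j g).trans h

theorem TP_bd {a b : Fin 2 → ℤ} {A B : ℤ} (ha : ∀ i, |a i| ≤ A) (hb : ∀ i, |b i| ≤ B) :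
    ∀ i, |TP a b i| ≤ 2 * (A * B) := by
  have hA : 0 ≤ A := (abs_nonneg _).trans (ha 0)
  have hB : 0 ≤ B := (abs_nonneg _).trans (hb 0)
  have hAB : 0 ≤ A * B := mul_nonneg hA hB
  have one : ∀ i j, |a i * b j| ≤ 2 * (A * B) := fun i j => (mul_bd (ha i) (hb j)).trans (by linarith)
  have two : ∀ i j k l, |a i * b j + a k * b l| ≤ 2 * (A * B) := fun i j k l =>
    (add_bd (mul_bd (ha i) (hb j)) (mul_bd (ha k) (hb l))).trans (by linarith)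
  intro i
  unfold TP
  fin_cases i
  · exact one 0 0
  · exact two 0 1 1 0
  · exact one 1 1

theorem PS_bd {x y : Fin 3 → ℤ} {u v : Fin 2 → ℤ} {a b : Fin 3 → ℤ} {X Y U V A B : ℤ}
    (hx : ∀ i, |x i| ≤ X) (hy : ∀ i, |y i| ≤ Y) (hu : ∀ i, |u i| ≤ U) (hv : ∀ i, |v i| ≤ V)
    (ha : ∀ i, |a i| ≤ A) (hb : ∀ i, |b i| ≤ B) :
    BdS (PS x y u v a b) (8 * ((X * Y) * ((U * V) * (A * B)))) := fun i j g =>
  (mul_bd (BP_bd ha hb i) (mul_bd (TP_bd hu hv j) (BP_bd hx hy g))).trans (le_of_eq (by ring))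

end Pool.Agent.TET.Cvr
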