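import Pool.Agent.Helper37_TET.QgSA

/-!
# MP_c7c9bf_co: guarded leaves, flag chart, the forms of the conditions
-/

set_option autoImplicit false

namespace Pool.Agent.TET.Cvr

theorem ivS_pk (x y : Fin 3 → ℤ) (u v : Fin 2 → ℤ) (a b : Fin 3 → ℤ) :
    ivS (2 ^ 256) (PS x y u v a b) =
      (pG (x 0) (x 1) (x 2) * pG (y 0) (y 1) (y 2)) *
      ((pT (u 0) (u 1) * pT (v 0) (v 1)) * (p3 (a 0) (a 1) (a 2) * p3 (b 0) (b 1) (b 2))) := by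
  rw [ivS_PS, pG_eq, pG_eq, pT_eq, pT_eq, p3_eq, p3_eq]
  generalize (2 ^ 256 : ℤ) = t
  ring

def cqS (e1 e2 e3 e4 e5 e6 : ℤ) (K A R : Fin 3 → ℤ) (V T : Fin 2 → ℤ) (W X Y : Fin 3 → ℤ) : Ce :=
  e1 • (PS A R V V W W + PS K R V V X X + PS K A T T X X + PS K A V V X X +
      (2 : ℤ) • PS K A V V X Y + PS K A V V Y Y - (2 : ℤ) • PS K A V T X X -
      (2 : ℤ) • PS K A V T X Y) +
    e2 • (PS K R V V W X + PS K A T T W X - PS K A V T W X - PS K A V T W Y) +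
    e3 • (PS K R V V W W + PS K A T T W W) +
    e4 • (PS K A V T W X - PS K A V V W X - PS K A V V W Y) +
    e5 • PS K A V V W W + e6 • PS K A V T W W

def clS (e1 e2 e3 e4 e5 e6 e7 e8 e9 : ℤ) (w K A R : Fin 3 → ℤ) (V T : Fin 2 → ℤ)
    (W X Y : Fin 3 → ℤ) : Ce :=
  e1 • PS K w V V X X + e2 • PS K w V V X Y + e3 • PS K w V V Y Y + e4 • PS K w V V W X +
    e5 • PS K w V V W Y + e6 • PS K w V V W W + e7 • PS A w V V W W +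
    e8 • (PS A w T T W W + PS R w V V W W) + e9 • PS A w V T W W

/-- the form of the domain -/
def chS (w A R : Fin 3 → ℤ) (V T : Fin 2 → ℤ) (W : Fin 3 → ℤ) : Ce :=
  (2 : ℤ) • PS A w V T W W - (PS A w T T W W + PS R w V V W W)

/-- the real values at a point of a cell -/
structure AtS (K A R : Fin 3 → ℤ) (V T : Fin 2 → ℤ) (W X Y : Fin 3 → ℤ) (x y k al rho tp : ℝ)
    (m n w : ℕ → ℝ) : Prop where
  hW : m 0 * W 0 + m 1 * W 1 + m 2 * W 2 = 1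
  hX : m 0 * X 0 + m 1 * X 1 + m 2 * X 2 = x
  hY : m 0 * Y 0 + m 1 * Y 1 + m 2 * Y 2 = y
  hV : n 0 * V 0 + n 1 * V 1 = 1
  hT : n 0 * T 0 + n 1 * T 1 = tp
  hK : w 0 * K 0 + w 1 * K 1 + w 2 * K 2 = k
  hA : w 0 * A 0 + w 1 * A 1 + w 2 * A 2 = al
  hR : w 0 * R 0 + w 1 * R 1 + w 2 * R 2 = rho

section

variable {e1 e2 e3' e4 e5 e6 e7 e8 e9 : ℤ} {om K A R : Fin 3 → ℤ} {V T : Fin 2 → ℤ}
  {W X Y : Fin 3 → ℤ} {x y k al rho tp : ℝ} {m n w : ℕ → ℝ}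

theorem rvS_cq (h : AtS K A R V T W X Y x y k al rho tp m n w) :
    rvS m n (BE w) (cqS e1 e2 e3' e4 e5 e6 K A R V T W X Y) =
      vq e1 e2 e3' e4 e5 e6 x (-(x + y)) k al (al * tp ^ 2 + rho) (al * tp) := by
  unfold cqS vq
  simp only [rvS_add, rvS_sub, rvS_smul, rvS_MU, h.hW, h.hX, h.hY, h.hK, h.hA, h.hR, h.hV, h.hT]
  push_cast
  ring

theorem rvS_cl (h : AtS K A R V T W X Y x y k al rho tp m n w) :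
    rvS m n (BE w) (clS e1 e2 e3' e4 e5 e6 e7 e8 e9 om K A R V T W X Y) =
      (w 0 * om 0 + w 1 * om 1 + w 2 * om 2) *
        vl e1 e2 e3' e4 e5 e6 e7 e8 e9 x y k al (al * tp ^ 2 + rho) (al * tp) := by
  unfold clS vl
  simp only [rvS_add, rvS_smul, rvS_MU, h.hW, h.hX, h.hY, h.hK, h.hA, h.hR, h.hV, h.hT]
  ring

theorem rvS_cl0 (h : AtS K A R V T W X Y x y k al rho tp m n w) :
    rvS m n (NS w) (clS e1 e2 e3' e4 e5 e6 e7 e8 e9 e3 K A R V T W X Y) =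
      vl e1 e2 e3' e4 e5 e6 e7 e8 e9 x y k al (al * tp ^ 2 + rho) (al * tp) := by
  unfold clS vl
  simp only [rvS_add, rvS_smul, rvS_NS, h.hW, h.hX, h.hY, h.hK, h.hA, h.hR, h.hV, h.hT]
  ring

theorem rvS_ch (h : AtS K A R V T W X Y x y k al rho tp m n w) :
    rvS m n (BE w) (chS om A R V T W) =
      (w 0 * om 0 + w 1 * om 1 + w 2 * om 2) * (al * (2 * tp - tp ^ 2) - rho) := by
  unfold chS
  simp only [rvS_add, rvS_sub, rvS_smul, rvS_MU, h.hW, h.hA, h.hR, h.hV, h.hT]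
  push_cast
  ring

/-! ### bounds -/

/-- bounds of the entries -/
structure BxS (K A R : Fin 3 → ℤ) (V T : Fin 2 → ℤ) (W X Y : Fin 3 → ℤ) (U Z V' : ℤ) : Prop where
  K : ∀ i, |K i| ≤ U
  A : ∀ i, |A i| ≤ U
  R : ∀ i, |R i| ≤ U
  V : ∀ i, |V i| ≤ Z
  T : ∀ i, |T i| ≤ Z
  W : ∀ i, |W i| ≤ V'
  X : ∀ i, |X i| ≤ V'
  Y : ∀ i, |Y i| ≤ V'

theorem cqS_bd {U Z V' E : ℤ} (h : BxS K A R V T W X Y U Z V') (h1 : |e1| ≤ E) (h2 : |e2| ≤ E)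
    (h3 : |e3'| ≤ E) (h4 : |e4| ≤ E) (h5 : |e5| ≤ E) (h6 : |e6| ≤ E) :
    BdS (cqS e1 e2 e3' e4 e5 e6 K A R V T W X Y)
      (184 * (E * ((U * U) * ((Z * Z) * (V' * V'))))) := by
  have two : |(2 : ℤ)| ≤ 2 := by norm_num
  have p := fun {x y : Fin 3 → ℤ} {u v : Fin 2 → ℤ} {a b : Fin 3 → ℤ} (hx : ∀ i, |x i| ≤ U)
    (hy : ∀ i, |y i| ≤ U) (hu : ∀ i, |u i| ≤ Z) (hv : ∀ i, |v i| ≤ Z)
    (ha : ∀ i, |a i| ≤ V') (hb : ∀ i, |b i| ≤ V') => PS_bd hx hy hu hv ha hb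
  have b1 := BdS.smul h1 ((((((((p h.A h.R h.V h.V h.W h.W).add (p h.K h.R h.V h.V h.X h.X)).add
    (p h.K h.A h.T h.T h.X h.X)).add (p h.K h.A h.V h.V h.X h.X)).add
    (BdS.smul two (p h.K h.A h.V h.V h.X h.Y))).add (p h.K h.A h.V h.V h.Y h.Y)).sub
    (BdS.smul two (p h.K h.A h.V h.T h.X h.X))).sub (BdS.smul two (p h.K h.A h.V h.T h.X h.Y)))
  have b2 := BdS.smul h2 ((((p h.K h.R h.V h.V h.W h.X).add (p h.K h.A h.T h.T h.W h.X)).sub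
    (p h.K h.A h.V h.T h.W h.X)).sub (p h.K h.A h.V h.T h.W h.Y))
  have b3 := BdS.smul h3 ((p h.K h.R h.V h.V h.W h.W).add (p h.K h.A h.T h.T h.W h.W))
  have b4 := BdS.smul h4 (((p h.K h.A h.V h.T h.W h.X).sub (p h.K h.A h.V h.V h.W h.X)).sub
    (p h.K h.A h.V h.V h.W h.Y))
  have b5 := BdS.smul h5 (p h.K h.A h.V h.V h.W h.W)
  have b6 := BdS.smul h6 (p h.K h.A h.V h.T h.W h.W)
  refine (((((b1.add b2).add b3).add b4).add b5).add b6).mono ?_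
  have hE : 0 ≤ E := (abs_nonneg _).trans h1
  have hz : 0 ≤ (U * U) * ((Z * Z) * (V' * V')) :=
    mul_nonneg (mul_self_nonneg _) (mul_nonneg (mul_self_nonneg _) (mul_self_nonneg _))
  have hEz : 0 ≤ E * ((U * U) * ((Z * Z) * (V' * V'))) := mul_nonneg hE hz
  linarith

theorem clS_bd {U Z V' E O : ℤ} (h : BxS K A R V T W X Y U Z V') (ho : ∀ i, |om i| ≤ O)
    (h1 : |e1| ≤ E) (h2 : |e2| ≤ E) (h3 : |e3'| ≤ E) (h4 : |e4| ≤ E) (h5 : |e5| ≤ E)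
    (h6 : |e6| ≤ E) (h7 : |e7| ≤ E) (h8 : |e8| ≤ E) (h9 : |e9| ≤ E) :
    BdS (clS e1 e2 e3' e4 e5 e6 e7 e8 e9 om K A R V T W X Y)
      (80 * (E * ((U * O) * ((Z * Z) * (V' * V'))))) := by
  have p := fun {x : Fin 3 → ℤ} {u v : Fin 2 → ℤ} {a b : Fin 3 → ℤ} (hx : ∀ i, |x i| ≤ U)
    (hu : ∀ i, |u i| ≤ Z) (hv : ∀ i, |v i| ≤ Z)
    (ha : ∀ i, |a i| ≤ V') (hb : ∀ i, |b i| ≤ V') => PS_bd hx ho hu hv ha hb
  have b1 := BdS.smul h1 (p h.K h.V h.V h.X h.X)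
  have b2 := BdS.smul h2 (p h.K h.V h.V h.X h.Y)
  have b3 := BdS.smul h3 (p h.K h.V h.V h.Y h.Y)
  have b4 := BdS.smul h4 (p h.K h.V h.V h.W h.X)
  have b5 := BdS.smul h5 (p h.K h.V h.V h.W h.Y)
  have b6 := BdS.smul h6 (p h.K h.V h.V h.W h.W)
  have b7 := BdS.smul h7 (p h.A h.V h.V h.W h.W)
  have b8 := BdS.smul h8 ((p h.A h.T h.T h.W h.W).add (p h.R h.V h.V h.W h.W))
  have b9 := BdS.smul h9 (p h.A h.V h.T h.W h.W)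
  refine ((((((((b1.add b2).add b3).add b4).add b5).add b6).add b7).add b8).add b9).mono
    (le_of_eq ?_)
  ring

theorem chS_bd {U Z V' O : ℤ} (hA : ∀ i, |A i| ≤ U) (hR : ∀ i, |R i| ≤ U) (hV : ∀ i, |V i| ≤ Z)
    (hT : ∀ i, |T i| ≤ Z) (hW : ∀ i, |W i| ≤ V') (ho : ∀ i, |om i| ≤ O) :
    BdS (chS om A R V T W) (32 * ((U * O) * ((Z * Z) * (V' * V')))) := by
  have two : |(2 : ℤ)| ≤ 2 := by norm_num
  refine ((BdS.smul two (PS_bd hA ho hV hT hW hW)).sub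
    ((PS_bd hA ho hT hT hW hW).add (PS_bd hR ho hV hV hW hW))).mono (le_of_eq ?_)
  ring

end

/-! ### the conditions -/

theorem nR_dzS {s0 s1 s2 s3 : ℕ} (h0 : s0 < 4) (h1 : s1 < 4) (h2 : s2 < 4) (h3 : s3 < 4) (v : V4)
    (x y : ℝ) : (vR v ⬝ᵥ (nR 1 x y ∘ sg s0 s1 s2 s3 h0 h1 h2 h3)) =
      x * (dz s0 s1 s2 s3 v ⟨1, -1, 0, 0⟩ : ℤ) + y * (dz s0 s1 s2 s3 v ⟨1, 0, -1, 0⟩ : ℤ) +
        1 * (dz s0 s1 s2 s3 v ⟨-1, 0, 0, 1⟩ : ℤ) := by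
  rw [← dz_real h0 h1 h2 h3, ← dz_real h0 h1 h2 h3, ← dz_real h0 h1 h2 h3]
  refine dot_lin_real ?_
  refine comp_comb _ ?_
  funext i
  fin_cases i
  · show x + y - 1 = x * ((1 : ℤ) : ℝ) + y * ((1 : ℤ) : ℝ) + 1 * ((-1 : ℤ) : ℝ)
    push_cast
    ring
  · show -x = x * ((-1 : ℤ) : ℝ) + y * ((0 : ℤ) : ℝ) + 1 * ((0 : ℤ) : ℝ)
    push_cast
    ring
  · show -y = x * ((0 : ℤ) : ℝ) + y * ((-1 : ℤ) : ℝ) + 1 * ((0 : ℤ) : ℝ)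
    push_cast
    ring
  · show (1 : ℝ) = x * ((0 : ℤ) : ℝ) + y * ((0 : ℤ) : ℝ) + 1 * ((1 : ℤ) : ℝ)
    push_cast
    ring

theorem pR_dzS {s0 s1 s2 s3 : ℕ} (h0 : s0 < 4) (h1 : s1 < 4) (h2 : s2 < 4) (h3 : s3 < 4) (v : V4)
    (x : ℝ) : (vR v ⬝ᵥ (pR 1 x ∘ sg s0 s1 s2 s3 h0 h1 h2 h3)) =
      (-1) * (dz s0 s1 s2 s3 v ⟨0, 1, 0, 0⟩ : ℤ) + (-x) * (dz s0 s1 s2 s3 v (sC 1) : ℤ) +
        0 * (dz s0 s1 s2 s3 v ⟨0, 0, 0, 1⟩ : ℤ) := by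
  rw [← dz_real h0 h1 h2 h3, ← dz_real h0 h1 h2 h3, ← dz_real h0 h1 h2 h3]
  refine dot_lin_real ?_
  refine comp_comb _ ?_
  funext i
  fin_cases i
  · show (0 : ℝ) = (-1) * ((0 : ℤ) : ℝ) + (-x) * ((0 : ℤ) : ℝ) + 0 * ((0 : ℤ) : ℝ)
    push_cast
    ring
  · show (-1 : ℝ) = (-1) * ((1 : ℤ) : ℝ) + (-x) * ((0 : ℤ) : ℝ) + 0 * ((0 : ℤ) : ℝ)
    push_cast
    ring
  · show (0 : ℝ) = (-1) * ((0 : ℤ) : ℝ) + (-x) * ((0 : ℤ) : ℝ) + 0 * ((0 : ℤ) : ℝ)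
    push_cast
    ring
  · show (-x : ℝ) = (-1) * ((0 : ℤ) : ℝ) + (-x) * ((1 : ℤ) : ℝ) + 0 * ((1 : ℤ) : ℝ)
    push_cast
    ring

theorem qR_dzS {s0 s1 s2 s3 : ℕ} (h0 : s0 < 4) (h1 : s1 < 4) (h2 : s2 < 4) (h3 : s3 < 4) (v : V4)
    (y : ℝ) : (vR v ⬝ᵥ (qR 1 y ∘ sg s0 s1 s2 s3 h0 h1 h2 h3)) =
      (-1) * (dz s0 s1 s2 s3 v ⟨0, 0, 1, 0⟩ : ℤ) + (-y) * (dz s0 s1 s2 s3 v (sC 1) : ℤ) +
        0 * (dz s0 s1 s2 s3 v ⟨0, 0, 0, 1⟩ : ℤ) := by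
  rw [← dz_real h0 h1 h2 h3, ← dz_real h0 h1 h2 h3, ← dz_real h0 h1 h2 h3]
  refine dot_lin_real ?_
  refine comp_comb _ ?_
  funext i
  fin_cases i
  · show (0 : ℝ) = (-1) * ((0 : ℤ) : ℝ) + (-y) * ((0 : ℤ) : ℝ) + 0 * ((0 : ℤ) : ℝ)
    push_cast
    ring
  · show (0 : ℝ) = (-1) * ((0 : ℤ) : ℝ) + (-y) * ((0 : ℤ) : ℝ) + 0 * ((0 : ℤ) : ℝ)
    push_cast
    ring
  · show (-1 : ℝ) = (-1) * ((1 : ℤ) : ℝ) + (-y) * ((0 : ℤ) : ℝ) + 0 * ((0 : ℤ) : ℝ)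
    push_cast
    ring
  · show (-y : ℝ) = (-1) * ((0 : ℤ) : ℝ) + (-y) * ((1 : ℤ) : ℝ) + 0 * ((1 : ℤ) : ℝ)
    push_cast
    ring

/-- the value of an encoded condition -/
noncomputable def fvS (x y k al be ga : ℝ) : FC → ℝ
  | .l c1 c2 c3 c4 c5 c6 c7 c8 c9 => vl (c1 - (C0 : ℕ)) (c2 - (C0 : ℕ)) (c3 - (C0 : ℕ))
      (c4 - (C0 : ℕ)) (c5 - (C0 : ℕ)) (c6 - (C0 : ℕ)) (c7 - (C0 : ℕ)) (c8 - (C0 : ℕ))
      (c9 - (C0 : ℕ)) x y k al be ga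
  | .q c1 c2 c3 c4 c5 c6 _ => vq (c1 - (C0 : ℕ)) (c2 - (C0 : ℕ)) (c3 - (C0 : ℕ))
      (c4 - (C0 : ℕ)) (c5 - (C0 : ℕ)) (c6 - (C0 : ℕ)) x (-(x + y)) k al be ga

theorem hold_fvS {s0 s1 s2 s3 : ℕ} (h0 : s0 < 4) (h1 : s1 < 4) (h2 : s2 < 4) (h3 : s3 < 4) {c : Cd}
    {f : FC} (h : encS s0 s1 s2 s3 c f = true) {x y k al rho tt : ℝ}
    (hf : 0 ≤ fvS x y k al (al * (tt + 1) ^ 2 + rho) (al * (tt + 1)) f) :
    Hold 1 x y k al (rho + al * tt ^ 2) (al * tt) (sg s0 s1 s2 s3 h0 h1 h2 h3) c := by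
  cases c with
  | l m g =>
    cases f with
    | l c1 c2 c3 c4 c5 c6 c7 c8 c9 =>
      obtain ⟨a1, a2, a3, a4, a5, a6, a7, a8, a9⟩ := encL_iff h
      have k1 := sub_eq_of_eq_add a1
      have k2 := sub_eq_of_eq_add a2
      have k3 := sub_eq_of_eq_add a3
      have k4 := sub_eq_of_eq_add a4
      have k5 := sub_eq_of_eq_add a5
      have k6 := sub_eq_of_eq_add a6
      have k7 := sub_eq_of_eq_add a7
      have k8 := sub_eq_of_eq_add a8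
      have k9 := sub_eq_of_eq_add a9
      have hf' : 0 ≤ vl (c1 - (C0 : ℕ)) (c2 - (C0 : ℕ)) (c3 - (C0 : ℕ)) (c4 - (C0 : ℕ))
        (c5 - (C0 : ℕ)) (c6 - (C0 : ℕ)) (c7 - (C0 : ℕ)) (c8 - (C0 : ℕ)) (c9 - (C0 : ℕ))
        x y k al (al * (tt + 1) ^ 2 + rho) (al * (tt + 1)) := hf
      unfold vl at hf'
      rw [k1, k2, k3, k4, k5, k6, k7, k8, k9] at hf'
      show 0 ≤ k * ((vR m ⬝ᵥ (nR 1 x y ∘ sg s0 s1 s2 s3 h0 h1 h2 h3)) *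
          (vR g ⬝ᵥ (nR 1 x y ∘ sg s0 s1 s2 s3 h0 h1 h2 h3))) +
        al * ((vR m ⬝ᵥ (dR ∘ sg s0 s1 s2 s3 h0 h1 h2 h3)) *
          (vR g ⬝ᵥ (dR ∘ sg s0 s1 s2 s3 h0 h1 h2 h3))) +
        (rho + al * tt ^ 2) * ((vR m ⬝ᵥ (eR 1 ∘ sg s0 s1 s2 s3 h0 h1 h2 h3)) *
          (vR g ⬝ᵥ (eR 1 ∘ sg s0 s1 s2 s3 h0 h1 h2 h3))) +
        al * tt * ((vR m ⬝ᵥ (dR ∘ sg s0 s1 s2 s3 h0 h1 h2 h3)) *
          (vR g ⬝ᵥ (eR 1 ∘ sg s0 s1 s2 s3 h0 h1 h2 h3)) +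
          (vR m ⬝ᵥ (eR 1 ∘ sg s0 s1 s2 s3 h0 h1 h2 h3)) *
          (vR g ⬝ᵥ (dR ∘ sg s0 s1 s2 s3 h0 h1 h2 h3)))
      have ed := fun v : V4 => dz_real h0 h1 h2 h3 v dC
      have ee := fun v : V4 => dz_real h0 h1 h2 h3 v (eC 1)
      rw [d_sc] at ed
      rw [e_sc] at ee
      simp only [nR_dzS h0 h1 h2 h3, ed, ee]
      have is' : ∀ a b : ℤ, Int.sub a b = a - b := fun _ _ => rfl
      simp only [is'] at hf'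
      push_cast at hf'
      refine hf'.trans (le_of_eq ?_)
      ring
    | q c1 c2 c3 c4 c5 c6 s => exact absurd h Bool.false_ne_true
  | q v g =>
    cases f with
    | l c1 c2 c3 c4 c5 c6 c7 c8 c9 => exact absurd h Bool.false_ne_true
    | q c1 c2 c3 c4 c5 c6 s =>
      obtain ⟨a1, a2, a3, a4, a5, a6, _⟩ := encQ_iff h
      have k1 := sub_eq_of_eq_add a1
      have k2 := sub_eq_of_eq_add a2
      have k3 := sub_eq_of_eq_add a3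
      have k4 := sub_eq_of_eq_add a4
      have k5 := sub_eq_of_eq_add a5
      have k6 := sub_eq_of_eq_add a6
      have hf' : 0 ≤ vq (c1 - (C0 : ℕ)) (c2 - (C0 : ℕ)) (c3 - (C0 : ℕ)) (c4 - (C0 : ℕ))
        (c5 - (C0 : ℕ)) (c6 - (C0 : ℕ)) x (-(x + y)) k al (al * (tt + 1) ^ 2 + rho)
        (al * (tt + 1)) := hf
      unfold vq at hf'
      rw [k1, k2, k3, k4, k5, k6] at hf'
      show 0 ≤ (al * (rho + al * tt ^ 2) - (al * tt) ^ 2) *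
          ((vR v ⬝ᵥ (sR 1 ∘ sg s0 s1 s2 s3 h0 h1 h2 h3)) *
          (vR g ⬝ᵥ (sR 1 ∘ sg s0 s1 s2 s3 h0 h1 h2 h3))) +
        k * ((rho + al * tt ^ 2) * ((vR v ⬝ᵥ (pR 1 x ∘ sg s0 s1 s2 s3 h0 h1 h2 h3)) *
          (vR g ⬝ᵥ (pR 1 x ∘ sg s0 s1 s2 s3 h0 h1 h2 h3))) +
          al * ((vR v ⬝ᵥ (qR 1 y ∘ sg s0 s1 s2 s3 h0 h1 h2 h3)) *
          (vR g ⬝ᵥ (qR 1 y ∘ sg s0 s1 s2 s3 h0 h1 h2 h3))) -
          al * tt * ((vR v ⬝ᵥ (pR 1 x ∘ sg s0 s1 s2 s3 h0 h1 h2 h3)) *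
          (vR g ⬝ᵥ (qR 1 y ∘ sg s0 s1 s2 s3 h0 h1 h2 h3)) +
          (vR v ⬝ᵥ (qR 1 y ∘ sg s0 s1 s2 s3 h0 h1 h2 h3)) *
          (vR g ⬝ᵥ (pR 1 x ∘ sg s0 s1 s2 s3 h0 h1 h2 h3))))
      have es := fun v : V4 => dz_real h0 h1 h2 h3 v (sC 1)
      rw [s_sc] at es
      simp only [pR_dzS h0 h1 h2 h3, qR_dzS h0 h1 h2 h3, es]
      have ia : ∀ a b : ℤ, Int.add a b = a + b := fun _ _ => rfl
      have ing : ∀ a : ℤ, Int.neg a = -a := fun _ => rfl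
      simp only [ia, ing] at hf'
      push_cast at hf'
      refine hf'.trans (le_of_eq ?_)
      ring

end Pool.Agent.TET.Cvr
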