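import Pool.Agent.Helper37_TET.QgSB

/-!
# MP_c7c9bf_co: guarded leaves, flag chart, the checker
-/

set_option autoImplicit false

namespace Pool.Agent.TET.Cvr

noncomputable section

/-- a cover tree of the flag chart with guarded leaves -/
inductive TfG where
  | B (r p q : ℕ) (s t : TfG)
  | T (p q : ℕ) (s t : TfG)
  | C (i j p q : ℕ) (s t : TfG)
  | L (n : ℕ)
  | G (nA nB j w0 w1 w2 : ℕ) (l : List GC)
  | O (t : ℕ)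

def CQF : ℕ := Nat.mul (Nat.mul 4 C0) ZF

/-- positive part of a form -/
def fpS (L1 L2 L3 L4 L5 L6 L7 L8 L9 M1 M2 M3 M4 M5 M6 om : ℕ) (c : FC) : ℕ :=
  FC.rec (motive := fun _ => ℕ)
    (fun c1 c2 c3 c4 c5 c6 c7 c8 c9 => Nat.mul om (Nat.add (Nat.add (Nat.mul c1 L1) (Nat.add (Nat.mul c2 L2)
      (Nat.mul c3 L3))) (Nat.add (Nat.mul c4 L4) (Nat.add (Nat.mul c5 L5) (Nat.add (Nat.mul c6 L6)
      (Nat.add (Nat.mul c7 L7) (Nat.add (Nat.mul c8 L8) (Nat.mul c9 L9))))))))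
    (fun c1 c2 c3 c4 c5 c6 _ => Nat.add (Nat.add (Nat.mul c1 M1) (Nat.add (Nat.mul c2 M2) (Nat.mul c3 M3)))
      (Nat.add (Nat.mul c4 M4) (Nat.add (Nat.mul c5 M5) (Nat.add (Nat.mul c6 M6) CQF)))) c

/-- negative part of a form -/
def fnS (NL NQ om : ℕ) (c : FC) : ℕ :=
  FC.rec (motive := fun _ => ℕ)
    (fun _ _ _ _ _ _ _ _ _ => Nat.mul om NL)
    (fun _ _ _ _ _ _ s => Nat.add NQ (Nat.mul s ZF)) c

/-- the guard test -/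
def tgS (L1 L2 L3 L4 L5 L6 L7 L8 L9 M1 M2 M3 M4 M5 M6 NL NQ om mu lam d : ℕ) (a b : FC) : Bool :=
  Bool.and (Nat.ble 1 mu) (Nat.beq (Nat.land (Nat.sub
    (Nat.add (Nat.add (Nat.mul mu (fpS L1 L2 L3 L4 L5 L6 L7 L8 L9 M1 M2 M3 M4 M5 M6 om a))
        (Nat.mul lam (fpS L1 L2 L3 L4 L5 L6 L7 L8 L9 M1 M2 M3 M4 M5 M6 om b)))
      (Nat.add (Nat.mul om (Nat.mul d L8)) OFFF))
    (Nat.add (Nat.add (Nat.mul mu (fnS NL NQ om a)) (Nat.mul lam (fnS NL NQ om b)))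
      (Nat.mul om (Nat.mul d (Nat.mul 2 L9))))) OFFF) OFFF)

/-- the plain test -/
def tpS (L1 L2 L3 L4 L5 L6 L7 L8 L9 M1 M2 M3 M4 M5 M6 NL NQ : ℕ) (c : FC) : Bool :=
  FC.rec (motive := fun _ => Bool)
    (fun c1 c2 c3 c4 c5 c6 c7 c8 c9 => tlF L1 L2 L3 L4 L5 L6 L7 L8 L9 NL c1 c2 c3 c4 c5 c6 c7 c8 c9)
    (fun c1 c2 c3 c4 c5 c6 s => tqF M1 M2 M3 M4 M5 M6 NQ c1 c2 c3 c4 c5 c6 s) c

def gs3 (L1 L2 L3 L4 L5 L6 L7 L8 L9 M1 M2 M3 M4 M5 M6 NL NQ om j : ℕ) (lA lB : List FC)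
    (cs : List GC) : Bool :=
  Bool.and (allBut (tpS L1 L2 L3 L4 L5 L6 L7 L8 L9 M1 M2 M3 M4 M5 M6 NL NQ) lB j)
    (all2 (fun a c => GC.rec (motive := fun _ => Bool)
      (tpS L1 L2 L3 L4 L5 L6 L7 L8 L9 M1 M2 M3 M4 M5 M6 NL NQ a)
      (fun mu lam d1 _ => tgS L1 L2 L3 L4 L5 L6 L7 L8 L9 M1 M2 M3 M4 M5 M6 NL NQ om mu lam d1 a
        (nth dF lB j)) c) lA cs)

def gs2 (L1 L2 L3 L4 L5 L6 L7 L8 L9 M1 M2 M3 M4 M5 M6 om j : ℕ) (lA lB : List FC)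
    (cs : List GC) : Bool :=
  gs3 L1 L2 L3 L4 L5 L6 L7 L8 L9 M1 M2 M3 M4 M5 M6
    (Nat.mul C0 (Nat.add (sm6 L1 L2 L3 L4 L5 L6) (Nat.add L7 (Nat.add L8 L9))))
    (Nat.mul C0 (sm6 M1 M2 M3 M4 M5 M6)) om j lA lB cs

def gs1 (WW WX XX SS Q AV H L1 L2 L3 L4 L5 L6 L7 L8 L9 M6 n1 n2 n4 AXWX om j : ℕ)
    (lA lB : List FC) (cs : List GC) : Bool :=
  Bool.and (Bool.and (Nat.ble n1 ZF) (Bool.and (Nat.ble n2 ZF) (Nat.ble n4 ZF)))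
    (gs2 L1 L2 L3 L4 L5 L6 L7 L8 L9
      (zf (Nat.add (Nat.mul H WW) (Nat.add (Nat.mul Q XX) (Nat.mul AV SS))) n1)
      (zf (Nat.mul Q WX) n2)
      (Nat.mul Q WW)
      (zf AXWX n4)
      (Nat.mul AV WW)
      (zf M6 0) om j lA lB cs)

def gs0c (WW WX WY XX XY YY WS XS SS VV VT TT R KVV AWW KR KA AR AX AV om j : ℕ)
    (lA lB : List FC) (cs : List GC) : Bool :=
  gs1 WW WX XX SS (Nat.add (Nat.mul KR VV) (Nat.mul KA TT)) AV (Nat.mul AR VV)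
    (Nat.mul KVV XX) (Nat.mul KVV XY) (Nat.mul KVV YY) (Nat.mul KVV WX) (Nat.mul KVV WY)
    (Nat.mul KVV WW) (Nat.mul AWW VV) (Nat.add (Nat.mul AWW TT) (Nat.mul (Nat.mul R WW) VV))
    (Nat.mul AWW VT) (Nat.mul AX WW)
    (Nat.mul 2 (Nat.mul AX XS)) (Nat.mul AX WS) (Nat.mul AV WS) (Nat.mul AX WX) om j lA lB cs

def gs0b (WW WX WY XX XY YY VV VT TT K A R om j : ℕ) (lA lB : List FC) (cs : List GC) : Bool :=
  gs0c WW WX WY XX XY YY (Nat.add WX WY) (Nat.add XX XY) (Nat.add XX (Nat.add (Nat.mul 2 XY) YY))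
    VV VT TT R (Nat.mul K VV) (Nat.mul A WW) (Nat.mul K R) (Nat.mul K A) (Nat.mul A R)
    (Nat.mul (Nat.mul K A) VT) (Nat.mul (Nat.mul K A) VV) om j lA lB cs

def gs0 (W X Y V T K A R om j : ℕ) (lA lB : List FC) (cs : List GC) : Bool :=
  gs0b (Nat.mul W W) (Nat.mul W X) (Nat.mul W Y) (Nat.mul X X) (Nat.mul X Y) (Nat.mul Y Y)
    (Nat.mul V V) (Nat.mul V T) (Nat.mul T T) K A R om j lA lB cs

def M8 : ℕ := Nat.pow 2 210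

def sbS (x : Ss) : ℕ := Nat.add (Nat.add (Nat.add x.p0.X (Nat.add x.p0.Y x.p0.W))
  (Nat.add x.p1.X (Nat.add x.p1.Y x.p1.W))) (Nat.add x.p2.X (Nat.add x.p2.Y x.p2.W))

def stS (x : Ss) : ℕ := Nat.add (Nat.add x.t0.T x.t0.V) (Nat.add x.t1.T x.t1.V)

def sgS (x : Ss) : ℕ := Nat.add (Nat.add x.u0.k (Nat.add x.u0.al x.u0.rho))
  (Nat.add (Nat.add x.u1.k (Nat.add x.u1.al x.u1.rho)) (Nat.add x.u2.k (Nat.add x.u2.al x.u2.rho)))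

/-- size check -/
def szGS (sb st sg sw m : ℕ) : Bool :=
  Nat.ble (Nat.mul (Nat.mul sb sb) (Nat.mul (Nat.mul st st) (Nat.mul (Nat.mul sg sg)
    (Nat.mul sw m)))) M8

def leafGS (oA oB : Option (List FC)) (j w0 w1 w2 : ℕ) (cs : List GC) (x : Ss) : Bool :=
  Option.rec (motive := fun _ => Bool) false (fun lA => Option.rec (motive := fun _ => Bool) false
    (fun lB => Bool.and (Bool.and (Bool.and (Nat.ble 1 w0) (Bool.and (Nat.ble 1 w1) (Nat.ble 1 w2)))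
        (szGS (sbS x) (stS x) (sgS x) (Nat.add w0 (Nat.add w1 w2)) (csum cs)))
    (gs0 (q3 x.p0.W x.p1.W x.p2.W) (q3 x.p0.X x.p1.X x.p2.X) (q3 x.p0.Y x.p1.Y x.p2.Y)
      (qT x.t0.V x.t1.V) (qT x.t0.T x.t1.T)
      (qG x.u0.k x.u1.k x.u2.k) (qG x.u0.al x.u1.al x.u2.al) (qG x.u0.rho x.u1.rho x.u2.rho)
      (qG w0 w1 w2) j lA lB cs)) oB) oA

/-- **the checker of the flag chart with guarded leaves** -/
def chkSG (T : Bt) (t : TfG) : Ss → Bool :=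
  TfG.rec (motive := fun _ => Ss → Bool)
    (fun r p q _ _ f g x => Bool.and (Bool.and (Nat.ble r 2) (Bool.and (Nat.ble 1 p) (Nat.ble 1 q)))
      (Bool.and (f (sPS x (nx r) (mid p q (gPS x r) (gPS x (nx r)))))
        (g (sPS x r (mid p q (gPS x r) (gPS x (nx r)))))))
    (fun p q _ _ f g x => Bool.and (Bool.and (Nat.ble 1 p) (Nat.ble 1 q))
      (Bool.and (f (sTS1 x (tmS p q x.t0 x.t1))) (g (sTS0 x (tmS p q x.t0 x.t1)))))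
    (fun i j p q _ _ f g x => Bool.and (Bool.and (Bool.and (Nat.ble i 2) (Nat.ble j 2))
        (Bool.and (not (Nat.beq i j)) (Bool.and (Nat.ble 1 p) (Nat.ble 1 q))))
      (Bool.and (f (sUS x j (cm p q (gUS x i) (gUS x j)))) (g (sUS x i (cm p q (gUS x i) (gUS x j))))))
    (fun n x => leafS (T.get n) x)
    (fun nA nB j w0 w1 w2 l x => leafGS (T.get nA) (T.get nB) j w0 w1 w2 l x)
    (fun _ x => outS x) t

end

end Pool.Agent.TET.Cvr
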