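import Pool.Agent.Helper37_TET.QgSC

/-!
# MP_c7c9bf_co: guarded leaves, flag chart, the tests
-/

set_option autoImplicit false

namespace Pool.Agent.TET.Cvr

theorem CQF_eq : CQF = 4 * C0 * ZF := by
  have key : ∀ z c : ℕ, Nat.mul (Nat.mul 4 c) z = 4 * c * z := fun _ _ => rfl
  unfold CQF
  exact key _ _

theorem M8_eq : M8 = 2 ^ 210 := rfl

attribute [local irreducible] OFFF ZF CF CQF M8 M6

/-- the packed quantities -/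
structure PcS (k a r v t w x y o : ℤ) (K A R O : Fin 3 → ℤ) (V T : Fin 2 → ℤ) (W X Y : Fin 3 → ℤ) :
    Prop where
  k : pG (K 0) (K 1) (K 2) = k
  a : pG (A 0) (A 1) (A 2) = a
  r : pG (R 0) (R 1) (R 2) = r
  o : pG (O 0) (O 1) (O 2) = o
  v : pT (V 0) (V 1) = v
  t : pT (T 0) (T 1) = t
  w : p3 (W 0) (W 1) (W 2) = w
  x : p3 (X 0) (X 1) (X 2) = x
  y : p3 (Y 0) (Y 1) (Y 2) = y

/-- the monomials -/
structure MoS (L1 L2 L3 L4 L5 L6 L7 L8 L9 N1 N2 N3 N4 N5 N6 NL NQ om : ℕ)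
    (k a r v t w x y o : ℤ) : Prop where
  l1 : (L1 : ℤ) = k * (v * v) * (x * x)
  l2 : (L2 : ℤ) = k * (v * v) * (x * y)
  l3 : (L3 : ℤ) = k * (v * v) * (y * y)
  l4 : (L4 : ℤ) = k * (v * v) * (w * x)
  l5 : (L5 : ℤ) = k * (v * v) * (w * y)
  l6 : (L6 : ℤ) = k * (v * v) * (w * w)
  l7 : (L7 : ℤ) = a * (w * w) * (v * v)
  l8 : (L8 : ℤ) = a * (w * w) * (t * t) + r * (w * w) * (v * v)
  l9 : (L9 : ℤ) = a * (w * w) * (v * t)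
  m1 : (N1 : ℤ) = (a * r * (v * v) * (w * w) + ((k * r * (v * v) + k * a * (t * t)) * (x * x) +
      k * a * (v * v) * (x * x + (2 * (x * y) + y * y))) -
      2 * (k * a * (v * t) * (x * x + x * y))) + (ZF : ℕ)
  m2 : (N2 : ℤ) = ((k * r * (v * v) + k * a * (t * t)) * (w * x) -
      k * a * (v * t) * (w * x + w * y)) + (ZF : ℕ)
  m3 : (N3 : ℤ) = (k * r * (v * v) + k * a * (t * t)) * (w * w)
  m4 : (N4 : ℤ) = (k * a * (v * t) * (w * x) - k * a * (v * v) * (w * x + w * y)) + (ZF : ℕ)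
  m5 : (N5 : ℤ) = k * a * (v * v) * (w * w)
  m6 : (N6 : ℤ) = k * a * (v * t) * (w * w) + (ZF : ℕ)
  nl : NL = C0 * (L1 + (L2 + L3) + (L4 + (L5 + L6)) + (L7 + (L8 + L9)))
  nq : NQ = C0 * (N1 + (N2 + N3) + (N4 + (N5 + N6)))
  om : (om : ℤ) = o

/-- the form of an encoded condition -/
def cS (O K A R : Fin 3 → ℤ) (V T : Fin 2 → ℤ) (W X Y : Fin 3 → ℤ) : FC → Ce
  | .l c1 c2 c3 c4 c5 c6 c7 c8 c9 => clS (c1 - (C0 : ℕ)) (c2 - (C0 : ℕ)) (c3 - (C0 : ℕ))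
      (c4 - (C0 : ℕ)) (c5 - (C0 : ℕ)) (c6 - (C0 : ℕ)) (c7 - (C0 : ℕ)) (c8 - (C0 : ℕ))
      (c9 - (C0 : ℕ)) O K A R V T W X Y
  | .q c1 c2 c3 c4 c5 c6 _ => cqS (c1 - (C0 : ℕ)) (c2 - (C0 : ℕ)) (c3 - (C0 : ℕ))
      (c4 - (C0 : ℕ)) (c5 - (C0 : ℕ)) (c6 - (C0 : ℕ)) K A R V T W X Y

section

variable {L1 L2 L3 L4 L5 L6 L7 L8 L9 N1 N2 N3 N4 N5 N6 NL NQ om : ℕ} {k a r v t w x y o : ℤ}
  {K A R O : Fin 3 → ℤ} {V T : Fin 2 → ℤ} {W X Y : Fin 3 → ℤ}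

theorem ivS_cq (hp : PcS k a r v t w x y o K A R O V T W X Y) (e1 e2 e3 e4 e5 e6 : ℤ) :
    ivS (2 ^ 256) (cqS e1 e2 e3 e4 e5 e6 K A R V T W X Y) =
      e1 * (a * r * (v * v) * (w * w) + ((k * r * (v * v) + k * a * (t * t)) * (x * x) +
        k * a * (v * v) * (x * x + (2 * (x * y) + y * y))) -
        2 * (k * a * (v * t) * (x * x + x * y))) +
      e2 * ((k * r * (v * v) + k * a * (t * t)) * (w * x) - k * a * (v * t) * (w * x + w * y)) +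
      e3 * ((k * r * (v * v) + k * a * (t * t)) * (w * w)) +
      e4 * (k * a * (v * t) * (w * x) - k * a * (v * v) * (w * x + w * y)) +
      e5 * (k * a * (v * v) * (w * w)) + e6 * (k * a * (v * t) * (w * w)) := by
  unfold cqS
  simp only [ivS_add, ivS_sub, ivS_smul, ivS_pk, hp.k, hp.a, hp.r, hp.v, hp.t, hp.w, hp.x, hp.y]
  ring

theorem ivS_cl (hp : PcS k a r v t w x y o K A R O V T W X Y) (e1 e2 e3 e4 e5 e6 e7 e8 e9 : ℤ) :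
    ivS (2 ^ 256) (clS e1 e2 e3 e4 e5 e6 e7 e8 e9 O K A R V T W X Y) =
      o * (e1 * (k * (v * v) * (x * x)) + e2 * (k * (v * v) * (x * y)) +
      e3 * (k * (v * v) * (y * y)) + e4 * (k * (v * v) * (w * x)) +
      e5 * (k * (v * v) * (w * y)) + e6 * (k * (v * v) * (w * w)) +
      e7 * (a * (w * w) * (v * v)) + e8 * (a * (w * w) * (t * t) + r * (w * w) * (v * v)) +
      e9 * (a * (w * w) * (v * t))) := by
  unfold clS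
  simp only [ivS_add, ivS_smul, ivS_pk, hp.k, hp.a, hp.r, hp.o, hp.v, hp.t, hp.w, hp.x, hp.y]
  ring

theorem ivS_ch (hp : PcS k a r v t w x y o K A R O V T W X Y) :
    ivS (2 ^ 256) (chS O A R V T W) =
      o * (2 * (a * (w * w) * (v * t)) - (a * (w * w) * (t * t) + r * (w * w) * (v * v))) := by
  unfold chS
  simp only [ivS_add, ivS_sub, ivS_smul, ivS_pk, hp.a, hp.r, hp.o, hp.v, hp.t, hp.w]
  ring

theorem fdS (hp : PcS k a r v t w x y o K A R O V T W X Y)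
    (hm : MoS L1 L2 L3 L4 L5 L6 L7 L8 L9 N1 N2 N3 N4 N5 N6 NL NQ om k a r v t w x y o) {c : FC}
    (hc : Vf c) : ((fpS L1 L2 L3 L4 L5 L6 L7 L8 L9 N1 N2 N3 N4 N5 N6 om c : ℕ) : ℤ) -
      (fnS NL NQ om c : ℕ) = ivS (2 ^ 256) (cS O K A R V T W X Y c) := by
  cases c with
  | l c1 c2 c3 c4 c5 c6 c7 c8 c9 =>
    have e1 : fpS L1 L2 L3 L4 L5 L6 L7 L8 L9 N1 N2 N3 N4 N5 N6 om (.l c1 c2 c3 c4 c5 c6 c7 c8 c9) =
      om * (c1 * L1 + (c2 * L2 + c3 * L3) + (c4 * L4 + (c5 * L5 + (c6 * L6 + (c7 * L7 + (c8 * L8 +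
        c9 * L9)))))) := rfl
    have e2 : fnS NL NQ om (.l c1 c2 c3 c4 c5 c6 c7 c8 c9) = om * NL := rfl
    have e3 : cS O K A R V T W X Y (.l c1 c2 c3 c4 c5 c6 c7 c8 c9) = clS (c1 - (C0 : ℕ))
      (c2 - (C0 : ℕ)) (c3 - (C0 : ℕ)) (c4 - (C0 : ℕ)) (c5 - (C0 : ℕ)) (c6 - (C0 : ℕ))
      (c7 - (C0 : ℕ)) (c8 - (C0 : ℕ)) (c9 - (C0 : ℕ)) O K A R V T W X Y := rfl
    rw [e1, e2, e3, ivS_cl hp, hm.nl]
    push_cast
    rw [hm.l1, hm.l2, hm.l3, hm.l4, hm.l5, hm.l6, hm.l7, hm.l8, hm.l9, hm.om]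
    ring
  | q c1 c2 c3 c4 c5 c6 s =>
    have e1 : fpS L1 L2 L3 L4 L5 L6 L7 L8 L9 N1 N2 N3 N4 N5 N6 om (.q c1 c2 c3 c4 c5 c6 s) =
      c1 * N1 + (c2 * N2 + c3 * N3) + (c4 * N4 + (c5 * N5 + (c6 * N6 + CQF))) := rfl
    have e2 : fnS NL NQ om (.q c1 c2 c3 c4 c5 c6 s) = NQ + s * ZF := rfl
    have e3 : cS O K A R V T W X Y (.q c1 c2 c3 c4 c5 c6 s) = cqS (c1 - (C0 : ℕ)) (c2 - (C0 : ℕ))
      (c3 - (C0 : ℕ)) (c4 - (C0 : ℕ)) (c5 - (C0 : ℕ)) (c6 - (C0 : ℕ)) K A R V T W X Y := rfl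
    have hs : s = c1 + c2 + (c4 + c6) := hc
    rw [e1, e2, e3, ivS_cq hp, CQF_eq, hm.nq, hs]
    push_cast
    rw [hm.m1, hm.m2, hm.m3, hm.m4, hm.m5, hm.m6]
    ring

/-! ### bounds -/

/-- the bound of a form, `S` at least `1` -/
theorem cS_bd {U Z V' S : ℤ} (hb : BxS K A R V T W X Y U Z V') (hO : ∀ i, |O i| ≤ S)
    (hS : 1 ≤ S) {c : FC} (hc : fcB c = true) :
    BdS (cS O K A R V T W X Y c)
      (184 * (2 ^ 36 * ((V' * V') * ((Z * Z) * ((U * U) * S))))) := by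
  have hU : 0 ≤ U := (abs_nonneg _).trans (hb.K 0)
  have hVV : 0 ≤ (Z * Z) * (V' * V') := mul_nonneg (mul_self_nonneg _) (mul_self_nonneg _)
  cases c with
  | l c1 c2 c3 c4 c5 c6 c7 c8 c9 =>
    have h : Bool.and (Bool.and (Bool.and (Nat.ble c1 M6) (Nat.ble c2 M6))
      (Bool.and (Nat.ble c3 M6) (Nat.ble c4 M6))) (Bool.and (Bool.and (Nat.ble c5 M6) (Nat.ble c6 M6))
      (Bool.and (Nat.ble c7 M6) (Bool.and (Nat.ble c8 M6) (Nat.ble c9 M6)))) = true := hc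
    simp only [bAnd] at h
    obtain ⟨⟨⟨h1, h2⟩, h3, h4⟩, ⟨h5, h6⟩, h7, h8, h9⟩ := h
    refine (clS_bd hb hO (c_bd h1) (c_bd h2) (c_bd h3) (c_bd h4) (c_bd h5) (c_bd h6) (c_bd h7)
      (c_bd h8) (c_bd h9)).mono ?_
    have k1 : U * S ≤ (U * U) * S := mul_le_mul_of_nonneg_right (sq_le hU) (by linarith)
    have k2 : (U * S) * ((Z * Z) * (V' * V')) ≤ ((U * U) * S) * ((Z * Z) * (V' * V')) :=
      mul_le_mul_of_nonneg_right k1 hVV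
    have k3 : 0 ≤ ((U * U) * S) * ((Z * Z) * (V' * V')) :=
      mul_nonneg (mul_nonneg (mul_nonneg hU hU) (by linarith)) hVV
    linarith
  | q c1 c2 c3 c4 c5 c6 s =>
    have h : Bool.and (Bool.and (Nat.ble c1 M6) (Bool.and (Nat.ble c2 M6) (Nat.ble c3 M6)))
      (Bool.and (Nat.ble c4 M6) (Bool.and (Nat.ble c5 M6) (Nat.ble c6 M6))) = true := hc
    simp only [bAnd] at h
    obtain ⟨⟨h1, h2, h3⟩, h4, h5, h6⟩ := h
    refine (cqS_bd hb (c_bd h1) (c_bd h2) (c_bd h3) (c_bd h4) (c_bd h5) (c_bd h6)).mono ?_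
    have k0 : 0 ≤ U * U := mul_nonneg hU hU
    have k1 : U * U ≤ (U * U) * S := le_mul_of_one_le_right k0 hS
    have k2 : (U * U) * ((Z * Z) * (V' * V')) ≤ ((U * U) * S) * ((Z * Z) * (V' * V')) :=
      mul_le_mul_of_nonneg_right k1 hVV
    linarith

/-! ### the plain test -/

/-- the value of the lifted form -/
noncomputable def gS (om : ℝ) (x y k al be ga : ℝ) : FC → ℝ
  | .l c1 c2 c3 c4 c5 c6 c7 c8 c9 => om * fvS x y k al be ga (.l c1 c2 c3 c4 c5 c6 c7 c8 c9)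
  | .q c1 c2 c3 c4 c5 c6 s => fvS x y k al be ga (.q c1 c2 c3 c4 c5 c6 s)

theorem rvS_cS {x' y' k' al rho tp : ℝ} {m n g : ℕ → ℝ}
    (h : AtS K A R V T W X Y x' y' k' al rho tp m n g)
    (c : FC) : rvS m n (BE g) (cS O K A R V T W X Y c) =
      gS (g 0 * O 0 + g 1 * O 1 + g 2 * O 2) x' y' k' al (al * tp ^ 2 + rho) (al * tp) c := by
  cases c with
  | l c1 c2 c3 c4 c5 c6 c7 c8 c9 => exact rvS_cl h
  | q c1 c2 c3 c4 c5 c6 s => exact rvS_cq h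

theorem gS_nonneg {om x' y' k' al be ga : ℝ} (ho : 0 < om) {c : FC}
    (h : 0 ≤ gS om x' y' k' al be ga c) : 0 ≤ fvS x' y' k' al be ga c := by
  cases c with
  | l c1 c2 c3 c4 c5 c6 c7 c8 c9 => exact nonneg_of_mul_nonneg_right h ho
  | q c1 c2 c3 c4 c5 c6 s => exact h

theorem gS_nonpos {om x' y' k' al be ga : ℝ} (ho : 0 < om) {c : FC}
    (h : fvS x' y' k' al be ga c ≤ 0) : gS om x' y' k' al be ga c ≤ 0 := by
  cases c with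
  | l c1 c2 c3 c4 c5 c6 c7 c8 c9 => exact mul_nonpos_of_nonneg_of_nonpos ho.le h
  | q c1 c2 c3 c4 c5 c6 s => exact h

theorem tpS_ok {x' y' k' al rho tp : ℝ} {m n g : ℕ → ℝ} {U Z V' : ℤ}
    (hp : PcS k a r v t w x y o K A R O V T W X Y)
    (hm : MoS L1 L2 L3 L4 L5 L6 L7 L8 L9 N1 N2 N3 N4 N5 N6 NL NQ om k a r v t w x y o)
    (hb : BxS K A R V T W X Y U Z V') (hUV : (V' * V') * ((Z * Z) * (U * U)) ≤ 2 ^ 210)
    (h : AtS K A R V T W X Y x' y' k' al rho tp m n g) (h0 : 0 ≤ m 0) (h1 : 0 ≤ m 1)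
    (h2 : 0 ≤ m 2) (n0 : 0 ≤ n 0) (n1 : 0 ≤ n 1)
    (g0 : 0 ≤ g 0) (g1 : 0 ≤ g 1) (g2 : 0 ≤ g 2) {c : FC} (hv : Vf c)
    (hc : fcB c = true)
    (ht : tpS L1 L2 L3 L4 L5 L6 L7 L8 L9 N1 N2 N3 N4 N5 N6 NL NQ c = true) :
    0 ≤ fvS x' y' k' al (al * tp ^ 2 + rho) (al * tp) c := by
  have hE0 : ∀ i, |e3 i| ≤ (1 : ℤ) := by
    intro i
    unfold e3
    fin_cases i <;> simp
  have bd := cS_bd (O := e3) hb hE0 le_rfl hc
  have bd' : ∀ i j l, |cS e3 K A R V T W X Y c i j l| < 2 ^ 255 := fun i j l =>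
    lt_of_le_of_lt (bd i j l) (by norm_num at hUV ⊢; linarith)
  cases c with
  | l c1 c2 c3 c4 c5 c6 c7 c8 c9 =>
    have ht' : tlF L1 L2 L3 L4 L5 L6 L7 L8 L9 NL c1 c2 c3 c4 c5 c6 c7 c8 c9 = true := ht
    rw [hm.nl] at ht'
    have k1 := tlF_tst rfl (e1 := c1 - (C0 : ℕ)) (e2 := c2 - (C0 : ℕ)) (e3 := c3 - (C0 : ℕ))
      (e4 := c4 - (C0 : ℕ)) (e5 := c5 - (C0 : ℕ)) (e6 := c6 - (C0 : ℕ)) (e7 := c7 - (C0 : ℕ))
      (e8 := c8 - (C0 : ℕ)) (e9 := c9 - (C0 : ℕ)) (by ring) (by ring) (by ring) (by ring)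
      (by ring) (by ring) (by ring) (by ring) (by ring) ht'
    have hp1 : PcS k a r v t w x y 1 K A R e3 V T W X Y :=
      ⟨hp.k, hp.a, hp.r, by
        show pG 1 0 0 = 1
        rw [pG_eq]
        ring, hp.v, hp.t, hp.w, hp.x, hp.y⟩
    have k2 := tstF_ce k1 bd' (by
      show _ = ivS (2 ^ 256) (clS (c1 - (C0 : ℕ)) (c2 - (C0 : ℕ)) (c3 - (C0 : ℕ))
        (c4 - (C0 : ℕ)) (c5 - (C0 : ℕ)) (c6 - (C0 : ℕ)) (c7 - (C0 : ℕ)) (c8 - (C0 : ℕ))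
        (c9 - (C0 : ℕ)) e3 K A R V T W X Y)
      rw [ivS_cl hp1, hm.l1, hm.l2, hm.l3, hm.l4, hm.l5, hm.l6, hm.l7, hm.l8, hm.l9]
      ring)
    have k3 := rvS_nonneg k2 h0 h1 h2 n0 n1 (NS_nonneg g0 g1 g2)
    have k4 := rvS_cl0 (e1 := c1 - (C0 : ℕ)) (e2 := c2 - (C0 : ℕ)) (e3' := c3 - (C0 : ℕ))
      (e4 := c4 - (C0 : ℕ)) (e5 := c5 - (C0 : ℕ)) (e6 := c6 - (C0 : ℕ)) (e7 := c7 - (C0 : ℕ))
      (e8 := c8 - (C0 : ℕ)) (e9 := c9 - (C0 : ℕ)) h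
    exact k3.trans (le_of_eq k4)
  | q c1 c2 c3 c4 c5 c6 s =>
    have ht' : tqF N1 N2 N3 N4 N5 N6 NQ c1 c2 c3 c4 c5 c6 s = true := ht
    have k1 := tqF_tst hm.m1 hm.m2 hm.m3 hm.m4 hm.m5 hm.m6 hm.nq
      (e1 := c1 - (C0 : ℕ)) (e2 := c2 - (C0 : ℕ)) (e3 := c3 - (C0 : ℕ))
      (e4 := c4 - (C0 : ℕ)) (e5 := c5 - (C0 : ℕ)) (e6 := c6 - (C0 : ℕ)) (by ring) (by ring) (by ring)
      (by ring) (by ring) (by ring) hv ht'
    have k2 := tstF_ce k1 bd' (ivS_cq hp _ _ _ _ _ _).symm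
    have k3 := rvS_nonneg k2 h0 h1 h2 n0 n1 (BE_nonneg g0 g1 g2)
    have k4 := rvS_cq (e1 := c1 - (C0 : ℕ)) (e2 := c2 - (C0 : ℕ)) (e3' := c3 - (C0 : ℕ))
      (e4 := c4 - (C0 : ℕ)) (e5 := c5 - (C0 : ℕ)) (e6 := c6 - (C0 : ℕ)) h
    exact k3.trans (le_of_eq k4)

/-! ### the guard test -/

theorem tgS_ok {x' y' k' al rho tp : ℝ} {m n g : ℕ → ℝ} {U Z V' S : ℤ} {mu lam d : ℕ}
    (hp : PcS k a r v t w x y o K A R O V T W X Y)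
    (hm : MoS L1 L2 L3 L4 L5 L6 L7 L8 L9 N1 N2 N3 N4 N5 N6 NL NQ om k a r v t w x y o)
    (hb : BxS K A R V T W X Y U Z V') (hO : ∀ i, |O i| ≤ S) (hS : 1 ≤ S)
    (hUV : (V' * V') * ((Z * Z) * ((U * U) * S)) * ((mu : ℤ) + lam + d) ≤ 2 ^ 210)
    (h : AtS K A R V T W X Y x' y' k' al rho tp m n g) (h0 : 0 ≤ m 0) (h1 : 0 ≤ m 1)
    (h2 : 0 ≤ m 2) (n0 : 0 ≤ n 0) (n1 : 0 ≤ n 1)
    (g0 : 0 ≤ g 0) (g1 : 0 ≤ g 1) (g2 : 0 ≤ g 2) {c c' : FC} (hv : Vf c)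
    (hv' : Vf c') (hc : fcB c = true) (hc' : fcB c' = true)
    (ht : tgS L1 L2 L3 L4 L5 L6 L7 L8 L9 N1 N2 N3 N4 N5 N6 NL NQ om mu lam d c c' = true)
    (ho : 0 < g 0 * O 0 + g 1 * O 1 + g 2 * O 2)
    (hx : rho ≤ al * (2 * tp - tp ^ 2))
    (hneg : fvS x' y' k' al (al * tp ^ 2 + rho) (al * tp) c' ≤ 0) :
    0 ≤ fvS x' y' k' al (al * tp ^ 2 + rho) (al * tp) c := by
  have hU : 0 ≤ U := (abs_nonneg _).trans (hb.K 0)
  have ht1 : Bool.and (Nat.ble 1 mu) (Nat.beq (Nat.land (Nat.sub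
    (mu * fpS L1 L2 L3 L4 L5 L6 L7 L8 L9 N1 N2 N3 N4 N5 N6 om c +
        lam * fpS L1 L2 L3 L4 L5 L6 L7 L8 L9 N1 N2 N3 N4 N5 N6 om c' +
      (om * (d * L8) + OFFF))
    (mu * fnS NL NQ om c + lam * fnS NL NQ om c' + om * (d * (2 * L9)))) OFFF) OFFF) = true := ht
  rw [bAnd] at ht1
  obtain ⟨hmu, ht2⟩ := ht1
  have hmu' : 1 ≤ mu := Nat.le_of_ble_eq_true hmu
  obtain ⟨cc, hcc⟩ : ∃ cc : Ce, cc = (mu : ℤ) • cS O K A R V T W X Y c +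
    (lam : ℤ) • cS O K A R V T W X Y c' - (d : ℤ) • chS O A R V T W := ⟨_, rfl⟩
  have e1 : ivS (2 ^ 256) cc = mu * ivS (2 ^ 256) (cS O K A R V T W X Y c) +
    lam * ivS (2 ^ 256) (cS O K A R V T W X Y c') - d * (o * (2 * (a * (w * w) * (v * t)) -
      (a * (w * w) * (t * t) + r * (w * w) * (v * v)))) := by
    rw [hcc, ivS_sub, ivS_add, ivS_smul, ivS_smul, ivS_smul, ivS_ch hp]
  have k1 : tstF (ivS (2 ^ 256) cc) = true := by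
    refine tstF_of ht2 ?_
    rw [e1, ← fdS hp hm hv, ← fdS hp hm hv']
    push_cast
    rw [hm.l8, hm.l9, hm.om]
    ring
  have q0 : |(mu : ℤ)| ≤ mu := (Nat.abs_cast mu).le
  have q1 : |(lam : ℤ)| ≤ lam := (Nat.abs_cast lam).le
  have q2 : |(d : ℤ)| ≤ d := (Nat.abs_cast d).le
  have bd : BdS cc (((mu : ℤ) * (184 * (2 ^ 36 * ((V' * V') * ((Z * Z) * ((U * U) * S))))) +
      lam * (184 * (2 ^ 36 * ((V' * V') * ((Z * Z) * ((U * U) * S)))))) +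
      d * (32 * ((U * S) * ((Z * Z) * (V' * V'))))) := by
    rw [hcc]
    exact (((cS_bd hb hO hS hc).smul q0).add ((cS_bd hb hO hS hc').smul q1)).sub
      ((chS_bd hb.A hb.R hb.V hb.T hb.W hO).smul q2)
  have k2 := tstF_ce k1 (c := cc) (fun i j l => lt_of_le_of_lt (bd i j l) (by
    have q1 : 0 ≤ (Z * Z) * (V' * V') := mul_nonneg (mul_self_nonneg _) (mul_self_nonneg _)
    have q2 : U * S ≤ (U * U) * S := mul_le_mul_of_nonneg_right (sq_le hU) (by linarith)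
    have q3 : (U * S) * ((Z * Z) * (V' * V')) ≤ ((U * U) * S) * ((Z * Z) * (V' * V')) :=
      mul_le_mul_of_nonneg_right q2 q1
    have q4 : 0 ≤ ((U * U) * S) * ((Z * Z) * (V' * V')) :=
      mul_nonneg (mul_nonneg (mul_nonneg hU hU) (by linarith)) q1
    have q5 : (d : ℤ) * (32 * ((U * S) * ((Z * Z) * (V' * V')))) ≤
        d * (184 * (2 ^ 36 * ((V' * V') * ((Z * Z) * ((U * U) * S))))) :=
      mul_le_mul_of_nonneg_left (by linarith) (Int.natCast_nonneg d)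
    have q7 : ∀ z : ℤ, (mu : ℤ) * (184 * (2 ^ 36 * z)) + lam * (184 * (2 ^ 36 * z)) +
        d * (184 * (2 ^ 36 * z)) =
        184 * 2 ^ 36 * (z * ((mu : ℤ) + lam + d)) := fun z => by ring
    have q8 := q7 ((V' * V') * ((Z * Z) * ((U * U) * S)))
    have q9 : (184 : ℤ) * 2 ^ 36 * 2 ^ 210 < 2 ^ 255 := by norm_num
    have q10 := mul_le_mul_of_nonneg_left hUV (by norm_num : (0 : ℤ) ≤ 184 * 2 ^ 36)
    linarith)) rfl
  have k3 := rvS_nonneg k2 h0 h1 h2 n0 n1 (BE_nonneg g0 g1 g2)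
  rw [hcc, rvS_sub, rvS_add, rvS_smul, rvS_smul, rvS_smul, rvS_cS h, rvS_cS h, rvS_ch h] at k3
  have r1 := gS_nonpos ho hneg
  refine gS_nonneg ho ?_
  have r2 : (0 : ℝ) ≤ ((lam : ℤ) : ℝ) := by exact_mod_cast Nat.zero_le lam
  have r3 : (0 : ℝ) ≤ ((d : ℤ) : ℝ) := by exact_mod_cast Nat.zero_le d
  have r5 : (0 : ℝ) < ((mu : ℤ) : ℝ) := by exact_mod_cast hmu'
  have s1 := mul_nonpos_of_nonneg_of_nonpos r2 r1
  have s2 := mul_nonneg r3 (mul_nonneg ho.le (sub_nonneg.2 hx))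
  have s4 : 0 ≤ ((mu : ℤ) : ℝ) * gS (g 0 * O 0 + g 1 * O 1 + g 2 * O 2)
    x' y' k' al (al * tp ^ 2 + rho) (al * tp) c := by linarith
  exact nonneg_of_mul_nonneg_right s4 r5

end

end Pool.Agent.TET.Cvr
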