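import Pool.Agent.Helper37_TET.FlG

/-!
# MP_c7c9bf_co: the fast form of the cover checker (natural numbers only)

The conditions of a region, relabelled, are encoded by their coefficients (plus `2 ^ 35`) with respect to
monomials of the packed cell.
-/

set_option autoImplicit false

namespace Pool.Agent.TET.Cvr

noncomputable section

/-- a generator, `ga = gp - gn` -/
structure Gm where
  k : ℕ
  al : ℕ
  be : ℕ
  gp : ℕ
  gn : ℕ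

/-- a cell of the cone chart -/
structure Sm where
  p0 : Pt
  p1 : Pt
  p2 : Pt
  u0 : Gm
  u1 : Gm
  u2 : Gm
  u3 : Gm

/-- an encoded condition -/
inductive FC where
  | l (c1 c2 c3 c4 c5 c6 c7 c8 c9 : ℕ)
  | q (c1 c2 c3 c4 c5 c6 s : ℕ)

/-- a relabelled region, encoded -/
structure En where
  R : ℕ
  s0 : ℕ
  s1 : ℕ
  s2 : ℕ
  s3 : ℕ
  l : List FC

/-- a table of relabelled regions -/
inductive Bt where
  | nil
  | node (l : Bt) (x : En) (r : Bt)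

/-- entry `n` (root `1`, lowest bit first) -/
def Bt.get (t : Bt) : ℕ → Option (List FC) :=
  Bt.rec (motive := fun _ => ℕ → Option (List FC)) (fun _ => none)
    (fun _ x _ f g n => Bool.rec (motive := fun _ => Option (List FC))
      (Bool.rec (motive := fun _ => Option (List FC)) (g (Nat.div n 2)) (f (Nat.div n 2))
        (Nat.beq (Nat.mod n 2) 0)) (some x.l) (Nat.beq n 1)) t

/-- a cover tree -/
inductive Tn where
  | B (r p q : ℕ) (s t : Tn)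
  | C (i j p q : ℕ) (s t : Tn)
  | L (n : ℕ)
  | O (t : ℕ)
  | P (a b : ℤ)

def ZZ : ℕ := Nat.pow 2 20160
def C0 : ℕ := 34359738368

def pkN3 (a b c : ℕ) : ℕ := Nat.add a (Nat.add (Nat.mul b (tw 1)) (Nat.mul c (tw 3)))

def pkN4 (a b c d : ℕ) : ℕ :=
  Nat.add a (Nat.add (Nat.mul b (tw 7)) (Nat.add (Nat.mul c (tw 21)) (Nat.mul d (tw 49))))

/-- `OFF + 4 C0 ZZ` -/
def CQ : ℕ := Nat.add OFF (Nat.mul (Nat.mul 4 C0) ZZ)
/-- `OFF + C0 ZZ` -/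
def CL : ℕ := Nat.add OFF (Nat.mul C0 ZZ)

def tq (M1 M2 M3 M4 M5 M6 N c1 c2 c3 c4 c5 c6 s : ℕ) : Bool :=
  Nat.beq (Nat.land (Nat.sub (Nat.add (Nat.add (Nat.mul c1 M1) (Nat.add (Nat.mul c2 M2) (Nat.mul c3 M3)))
    (Nat.add (Nat.mul c4 M4) (Nat.add (Nat.mul c5 M5) (Nat.add (Nat.mul c6 M6) CQ))))
    (Nat.add N (Nat.mul s ZZ))) OFF) OFF

def tl (L1 L2 L3 L4 L5 L6 L7 L8 L9 N c1 c2 c3 c4 c5 c6 c7 c8 c9 : ℕ) : Bool :=
  Nat.beq (Nat.land (Nat.sub (Nat.add (Nat.add (Nat.mul c1 L1) (Nat.add (Nat.mul c2 L2) (Nat.mul c3 L3)))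
    (Nat.add (Nat.mul c4 L4) (Nat.add (Nat.mul c5 L5) (Nat.add (Nat.mul c6 L6)
      (Nat.add (Nat.mul c7 L7) (Nat.add (Nat.mul c8 L8) (Nat.add (Nat.mul c9 L9) CL)))))))
    (Nat.add N (Nat.mul c9 ZZ))) OFF) OFF

/-- all conditions, from the monomials -/
def ev3 (L1 L2 L3 L4 L5 L6 L7 L8 L9 NL M1 M2 M3 M4 M5 M6 NQ : ℕ) (l : List FC) : Bool :=
  allL (fun c => FC.rec (motive := fun _ => Bool)
    (fun c1 c2 c3 c4 c5 c6 c7 c8 c9 => tl L1 L2 L3 L4 L5 L6 L7 L8 L9 NL c1 c2 c3 c4 c5 c6 c7 c8 c9)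
    (fun c1 c2 c3 c4 c5 c6 s => tq M1 M2 M3 M4 M5 M6 NQ c1 c2 c3 c4 c5 c6 s) c) l

def sm6 (a b c d e f : ℕ) : ℕ := Nat.add (Nat.add a (Nat.add b c)) (Nat.add d (Nat.add e f))

def ev2 (L1 L2 L3 L4 L5 L6 L7 L8 L9 M1 M2 M3 M4 M5 M6 : ℕ) (l : List FC) : Bool :=
  ev3 L1 L2 L3 L4 L5 L6 L7 L8 L9
    (Nat.mul C0 (Nat.add (sm6 L1 L2 L3 L4 L5 L6) (Nat.add L7 (Nat.add L8 L9))))
    M1 M2 M3 M4 M5 M6 (Nat.mul C0 (sm6 M1 M2 M3 M4 M5 M6)) l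

/-- `ZZ + a - b`, checked -/
def zs (a b : ℕ) : ℕ := Nat.sub (Nat.add ZZ a) b

/-- monomials from products; `n1 .. n5` are the negative parts -/
def ev1 (WW WX WY XX XY YY K A B P KA KB KP HP n1 n2 n4 n6 n9 : ℕ) (l : List FC) : Bool :=
  Bool.and (Bool.and (Bool.and (Nat.ble n1 ZZ) (Nat.ble n2 ZZ))
      (Bool.and (Nat.ble n4 ZZ) (Bool.and (Nat.ble n6 ZZ) (Nat.ble n9 ZZ))))
    (ev2 (Nat.mul K XX) (Nat.mul K XY) (Nat.mul K YY) (Nat.mul K WX) (Nat.mul K WY) (Nat.mul K WW)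
      (Nat.mul A WW) (Nat.mul B WW) (zs (Nat.mul P WW) n9)
      (zs (Nat.add (Nat.add (Nat.mul HP WW) (Nat.mul KB XX)) (Nat.add (Nat.mul KA YY)
        (Nat.mul 2 (Nat.mul KP XY)))) n1)
      (zs (Nat.add (Nat.mul KB WX) (Nat.mul KP WY)) n2)
      (Nat.mul KB WW)
      (zs (Nat.add (Nat.mul KA WY) (Nat.mul KP WX)) n4)
      (Nat.mul KA WW)
      (zs (Nat.mul KP WW) n6) l)

def ev0b (WW WX WY XX XY YY K A B P N KN : ℕ) (l : List FC) : Bool :=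
  ev1 WW WX WY XX XY YY K A B P (Nat.mul K A) (Nat.mul K B) (Nat.mul K P)
    (Nat.add (Nat.mul A B) (Nat.mul 2 (Nat.mul P N)))
    (Nat.add (Nat.mul (Nat.add (Nat.mul P P) (Nat.mul N N)) WW) (Nat.mul 2 (Nat.mul KN XY)))
    (Nat.mul KN WY) (Nat.mul KN WX) (Nat.mul KN WW) (Nat.mul N WW) l

def ev0 (W X Y K A B P N : ℕ) (l : List FC) : Bool :=
  ev0b (Nat.mul W W) (Nat.mul W X) (Nat.mul W Y) (Nat.mul X X) (Nat.mul X Y) (Nat.mul Y Y)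
    K A B P N (Nat.mul K N) l

/-- size check -/
def szN (x : Sm) : Bool :=
  Bool.and (Nat.ble (Nat.add (Nat.add (Nat.add x.p0.X (Nat.add x.p0.Y x.p0.W))
      (Nat.add x.p1.X (Nat.add x.p1.Y x.p1.W))) (Nat.add x.p2.X (Nat.add x.p2.Y x.p2.W))) M2)
    (Nat.ble (Nat.add
      (Nat.add (Nat.add x.u0.k (Nat.add x.u0.al (Nat.add x.u0.be (Nat.add x.u0.gp x.u0.gn))))
        (Nat.add x.u1.k (Nat.add x.u1.al (Nat.add x.u1.be (Nat.add x.u1.gp x.u1.gn)))))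
      (Nat.add (Nat.add x.u2.k (Nat.add x.u2.al (Nat.add x.u2.be (Nat.add x.u2.gp x.u2.gn))))
        (Nat.add x.u3.k (Nat.add x.u3.al (Nat.add x.u3.be (Nat.add x.u3.gp x.u3.gn)))))) M1)

def leafN (o : Option (List FC)) (x : Sm) : Bool :=
  Option.rec (motive := fun _ => Bool) false (fun l => Bool.and (szN x)
    (ev0 (pkN3 x.p0.W x.p1.W x.p2.W) (pkN3 x.p0.X x.p1.X x.p2.X) (pkN3 x.p0.Y x.p1.Y x.p2.Y)
      (pkN4 x.u0.k x.u1.k x.u2.k x.u3.k) (pkN4 x.u0.al x.u1.al x.u2.al x.u3.al)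
      (pkN4 x.u0.be x.u1.be x.u2.be x.u3.be) (pkN4 x.u0.gp x.u1.gp x.u2.gp x.u3.gp)
      (pkN4 x.u0.gn x.u1.gn x.u2.gn x.u3.gn) l)) o

def cmN (p q : ℕ) (u v : Gm) : Gm :=
  ⟨Nat.add (Nat.mul p u.k) (Nat.mul q v.k), Nat.add (Nat.mul p u.al) (Nat.mul q v.al),
    Nat.add (Nat.mul p u.be) (Nat.mul q v.be), Nat.add (Nat.mul p u.gp) (Nat.mul q v.gp),
    Nat.add (Nat.mul p u.gn) (Nat.mul q v.gn)⟩

def gPN (x : Sm) (r : ℕ) : Pt :=
  Nat.rec (motive := fun _ => Pt) x.p0 (fun j _ => Nat.rec (motive := fun _ => Pt) x.p1 (fun _ _ => x.p2) j) r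

def sPN (x : Sm) (r : ℕ) (p : Pt) : Sm :=
  Nat.rec (motive := fun _ => Sm) ⟨p, x.p1, x.p2, x.u0, x.u1, x.u2, x.u3⟩
    (fun j _ => Nat.rec (motive := fun _ => Sm) ⟨x.p0, p, x.p2, x.u0, x.u1, x.u2, x.u3⟩
      (fun _ _ => ⟨x.p0, x.p1, p, x.u0, x.u1, x.u2, x.u3⟩) j) r

def gUN (x : Sm) (i : ℕ) : Gm :=
  Nat.rec (motive := fun _ => Gm) x.u0 (fun j _ => Nat.rec (motive := fun _ => Gm) x.u1
    (fun j _ => Nat.rec (motive := fun _ => Gm) x.u2 (fun _ _ => x.u3) j) j) i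

def sUN (x : Sm) (i : ℕ) (u : Gm) : Sm :=
  Nat.rec (motive := fun _ => Sm) ⟨x.p0, x.p1, x.p2, u, x.u1, x.u2, x.u3⟩
    (fun j _ => Nat.rec (motive := fun _ => Sm) ⟨x.p0, x.p1, x.p2, x.u0, u, x.u2, x.u3⟩
      (fun j _ => Nat.rec (motive := fun _ => Sm) ⟨x.p0, x.p1, x.p2, x.u0, x.u1, u, x.u3⟩
        (fun _ _ => ⟨x.p0, x.p1, x.p2, x.u0, x.u1, x.u2, u⟩) j) j) i

def Gm.g (u : Gm) : Gn := ⟨u.k, u.al, u.be, Int.subNatNat u.gp u.gn⟩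
def Sm.s (x : Sm) : St := ⟨x.p0, x.p1, x.p2, x.u0.g, x.u1.g, x.u2.g, x.u3.g⟩

/-- `al be - ga ^ 2 <= 0` for a pair -/
def o0N (u v : Gm) : Bool :=
  Nat.ble (Nat.add (Nat.add (Nat.mul u.al v.be) (Nat.mul v.al u.be))
      (Nat.mul 2 (Nat.add (Nat.mul u.gp v.gn) (Nat.mul u.gn v.gp))))
    (Nat.mul 2 (Nat.add (Nat.mul u.gp v.gp) (Nat.mul u.gn v.gn)))

def all4N (F : Gm → Gm → Bool) (u0 u1 u2 u3 : Gm) : Bool :=
  Bool.and (Bool.and (Bool.and (F u0 u0) (F u1 u1)) (Bool.and (F u2 u2) (F u3 u3)))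
    (Bool.and (Bool.and (F u0 u1) (Bool.and (F u0 u2) (F u0 u3)))
      (Bool.and (F u1 u2) (Bool.and (F u1 u3) (F u2 u3))))

def outN (t : ℕ) (x : Sm) : Bool :=
  Nat.rec (motive := fun _ => Bool) (all4N o0N x.u0 x.u1 x.u2 x.u3)
    (fun t _ => Nat.rec (motive := fun _ => Bool)
      (o1g x.p0.X x.p0.W x.p1.X x.p1.W x.p2.X x.p2.W x.u0.k x.u0.al x.u1.k x.u1.al x.u2.k x.u2.al
        x.u3.k x.u3.al)
      (fun _ _ => o1g x.p0.Y x.p0.W x.p1.Y x.p1.W x.p2.Y x.p2.W x.u0.k x.u0.be x.u1.k x.u1.be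
        x.u2.k x.u2.be x.u3.k x.u3.be) t) t

/-- **the fast checker of the cone chart** -/
def chkN (T : Bt) (t : Tn) : Sm → Bool :=
  Tn.rec (motive := fun _ => Sm → Bool)
    (fun r p q _ _ f g x => Bool.and (Bool.and (Nat.ble r 2) (Bool.and (Nat.ble 1 p) (Nat.ble 1 q)))
      (Bool.and (f (sPN x (nx r) (mid p q (gPN x r) (gPN x (nx r)))))
        (g (sPN x r (mid p q (gPN x r) (gPN x (nx r)))))))
    (fun i j p q _ _ f g x => Bool.and (Bool.and (Bool.and (Nat.ble i 3) (Nat.ble j 3))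
        (Bool.and (not (Nat.beq i j)) (Bool.and (Nat.ble 1 p) (Nat.ble 1 q))))
      (Bool.and (f (sUN x j (cmN p q (gUN x i) (gUN x j)))) (g (sUN x i (cmN p q (gUN x i) (gUN x j))))))
    (fun n x => leafN (T.get n) x)
    (fun t x => outN t x)
    (fun a b x => ps a b x.s) t

/-! ### the encoding -/

/-- `z = n - C0` -/
def eqC (z : ℤ) (n : ℕ) : Bool := Int.rec (fun m => Nat.beq m n) (fun _ => false) (Int.add z (Int.ofNat C0))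

def encL (a b c a' b' c' md fd me fe : ℤ) (c1 c2 c3 c4 c5 c6 c7 c8 c9 : ℕ) : Bool :=
  Bool.and (Bool.and (Bool.and (eqC (Int.mul a a') c1) (eqC (Int.add (Int.mul a b') (Int.mul a' b)) c2))
      (Bool.and (eqC (Int.mul b b') c3) (eqC (Int.add (Int.mul a c') (Int.mul a' c)) c4)))
    (Bool.and (Bool.and (eqC (Int.add (Int.mul b c') (Int.mul b' c)) c5) (eqC (Int.mul c c') c6))
      (Bool.and (eqC (Int.mul md fd) c7) (Bool.and (eqC (Int.mul me fe) c8)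
        (eqC (Int.add (Int.mul md fe) (Int.mul me fd)) c9))))

def encQ (a p q a' p' q' : ℤ) (c1 c2 c3 c4 c5 c6 s : ℕ) : Bool :=
  Bool.and (Bool.and (Bool.and (eqC (Int.mul a a') c1)
        (eqC (Int.neg (Int.add (Int.mul p a') (Int.mul a p'))) c2)) (eqC (Int.mul p p') c3))
    (Bool.and (Bool.and (eqC (Int.neg (Int.add (Int.mul a q') (Int.mul q a'))) c4)
        (eqC (Int.mul q q') c5))
      (Bool.and (eqC (Int.add (Int.mul p q') (Int.mul q p')) c6)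
        (Nat.beq s (Nat.add (Nat.add c1 c2) (Nat.add c4 c6)))))

/-- the value of `v` at a constant vector, relabelled -/
def dz (s0 s1 s2 s3 : ℕ) (v e : V4) : ℤ := dot v (prm s0 s1 s2 s3 e)

def encN (s0 s1 s2 s3 : ℕ) (c : Cd) (f : FC) : Bool :=
  Cd.rec (motive := fun _ => Bool)
    (fun m g => FC.rec (motive := fun _ => Bool)
      (fun c1 c2 c3 c4 c5 c6 c7 c8 c9 => encL (dz s0 s1 s2 s3 m ⟨1, -1, 0, 0⟩)
        (dz s0 s1 s2 s3 m ⟨0, 0, -1, 1⟩) (dz s0 s1 s2 s3 m ⟨-1, 0, 1, 0⟩)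
        (dz s0 s1 s2 s3 g ⟨1, -1, 0, 0⟩) (dz s0 s1 s2 s3 g ⟨0, 0, -1, 1⟩)
        (dz s0 s1 s2 s3 g ⟨-1, 0, 1, 0⟩) (dz s0 s1 s2 s3 m dC) (dz s0 s1 s2 s3 g dC)
        (dz s0 s1 s2 s3 m (eC 0)) (dz s0 s1 s2 s3 g (eC 0)) c1 c2 c3 c4 c5 c6 c7 c8 c9)
      (fun _ _ _ _ _ _ _ => false) f)
    (fun v w => FC.rec (motive := fun _ => Bool) (fun _ _ _ _ _ _ _ _ _ => false)
      (fun c1 c2 c3 c4 c5 c6 s => encQ (dz s0 s1 s2 s3 v ⟨0, 0, 1, 1⟩) (dz s0 s1 s2 s3 v ⟨1, 0, 1, 1⟩)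
        (dz s0 s1 s2 s3 v ⟨0, 0, 0, 1⟩) (dz s0 s1 s2 s3 w ⟨0, 0, 1, 1⟩)
        (dz s0 s1 s2 s3 w ⟨1, 0, 1, 1⟩) (dz s0 s1 s2 s3 w ⟨0, 0, 0, 1⟩) c1 c2 c3 c4 c5 c6 s) f) c

/-- two lists, entry by entry -/
def all2 {α β : Type} (p : α → β → Bool) (l : List α) : List β → Bool :=
  List.rec (motive := fun _ => List β → Bool)
    (fun m => List.rec (motive := fun _ => Bool) true (fun _ _ _ => false) m)
    (fun a _ ih m => List.rec (motive := fun _ => Bool) false (fun b m _ => Bool.and (p a b) (ih m)) m) l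

/-- the table `t` is the encoding of the relabelled regions of the table `T` -/
def encT (T : List (List Cd)) (t : Bt) : Bool :=
  Bt.rec (motive := fun _ => Bool) true (fun _ x _ f g => Bool.and (Bool.and f g)
    (Bool.and (Bool.and (isP x.s0 x.s1 x.s2 x.s3) (Nat.blt x.R T.length))
      (all2 (encN x.s0 x.s1 x.s2 x.s3) (nth [] T x.R) x.l))) t

end

end Pool.Agent.TET.Cvr
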