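import Pool.Agent.Helper37_TET.QkA

/-!
# MP_c7c9bf_co: the fast form of the cover checker, tests
-/

set_option autoImplicit false

namespace Pool.Agent.TET.Cvr

theorem OFF_pos : 0 < OFF := by decide +kernel

theorem CQ_eq : CQ = OFF + 4 * C0 * ZZ := by
  have key : ∀ o z c : ℕ, Nat.add o (Nat.mul (Nat.mul 4 c) z) = o + 4 * c * z := fun _ _ _ => rfl
  unfold CQ
  exact key _ _ _

theorem CL_eq : CL = OFF + C0 * ZZ := by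
  have key : ∀ o z c : ℕ, Nat.add o (Nat.mul c z) = o + c * z := fun _ _ _ => rfl
  unfold CL
  exact key _ _ _

attribute [local irreducible] OFF ZZ CQ CL

theorem tst_of {F : ℤ} {a b : ℕ} (h : Nat.beq (Nat.land (Nat.sub a b) OFF) OFF = true)
    (e : (a : ℤ) - b = F + (OFF : ℕ)) : tst F = true := by
  have h1 : Nat.land (a - b) OFF = OFF := Nat.eq_of_beq_eq_true h
  rcases le_total a b with hab | hab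
  · rw [Nat.sub_eq_zero_of_le hab] at h1
    have h2 : Nat.land 0 OFF = 0 := Nat.zero_and OFF
    rw [h2] at h1
    exact absurd h1 OFF_pos.ne
  · have h3 : ((a - b : ℕ) : ℤ) = F + (OFF : ℕ) := by
      rw [Nat.cast_sub hab]
      exact e
    have h4 : tst F = Nat.beq (Nat.land (Int.toNat (F + (OFF : ℕ))) OFF) OFF := rfl
    rw [h4, ← h3, Int.toNat_natCast, h1]
    exact Nat.beq_refl OFF

theorem tq_tst {M1 M2 M3 M4 M5 M6 N c1 c2 c3 c4 c5 c6 s : ℕ} {m1 m2 m3 m4 m5 m6 e1 e2 e3 e4 e5 e6 : ℤ}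
    (h1 : (M1 : ℤ) = m1 + (ZZ : ℕ)) (h2 : (M2 : ℤ) = m2 + (ZZ : ℕ)) (h3 : (M3 : ℤ) = m3)
    (h4 : (M4 : ℤ) = m4 + (ZZ : ℕ)) (h5 : (M5 : ℤ) = m5) (h6 : (M6 : ℤ) = m6 + (ZZ : ℕ))
    (hN : N = C0 * (M1 + (M2 + M3) + (M4 + (M5 + M6))))
    (k1 : (c1 : ℤ) = e1 + (C0 : ℕ)) (k2 : (c2 : ℤ) = e2 + (C0 : ℕ)) (k3 : (c3 : ℤ) = e3 + (C0 : ℕ))
    (k4 : (c4 : ℤ) = e4 + (C0 : ℕ)) (k5 : (c5 : ℤ) = e5 + (C0 : ℕ)) (k6 : (c6 : ℤ) = e6 + (C0 : ℕ))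
    (hs : s = c1 + c2 + (c4 + c6))
    (h : tq M1 M2 M3 M4 M5 M6 N c1 c2 c3 c4 c5 c6 s = true) :
    tst (e1 * m1 + e2 * m2 + e3 * m3 + e4 * m4 + e5 * m5 + e6 * m6) = true := by
  refine tst_of (a := c1 * M1 + (c2 * M2 + c3 * M3) + (c4 * M4 + (c5 * M5 + (c6 * M6 + CQ))))
    (b := N + s * ZZ) h ?_
  rw [CQ_eq, hN, hs]
  push_cast
  rw [k1, k2, k3, k4, k5, k6, h1, h2, h3, h4, h5, h6]
  ring

theorem tl_tst {L1 L2 L3 L4 L5 L6 L7 L8 L9 N c1 c2 c3 c4 c5 c6 c7 c8 c9 : ℕ}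
    {m1 m2 m3 m4 m5 m6 m7 m8 m9 e1 e2 e3 e4 e5 e6 e7 e8 e9 : ℤ}
    (h1 : (L1 : ℤ) = m1) (h2 : (L2 : ℤ) = m2) (h3 : (L3 : ℤ) = m3)
    (h4 : (L4 : ℤ) = m4) (h5 : (L5 : ℤ) = m5) (h6 : (L6 : ℤ) = m6)
    (h7 : (L7 : ℤ) = m7) (h8 : (L8 : ℤ) = m8) (h9 : (L9 : ℤ) = m9 + (ZZ : ℕ))
    (hN : N = C0 * (L1 + (L2 + L3) + (L4 + (L5 + L6)) + (L7 + (L8 + L9))))
    (k1 : (c1 : ℤ) = e1 + (C0 : ℕ)) (k2 : (c2 : ℤ) = e2 + (C0 : ℕ)) (k3 : (c3 : ℤ) = e3 + (C0 : ℕ))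
    (k4 : (c4 : ℤ) = e4 + (C0 : ℕ)) (k5 : (c5 : ℤ) = e5 + (C0 : ℕ)) (k6 : (c6 : ℤ) = e6 + (C0 : ℕ))
    (k7 : (c7 : ℤ) = e7 + (C0 : ℕ)) (k8 : (c8 : ℤ) = e8 + (C0 : ℕ)) (k9 : (c9 : ℤ) = e9 + (C0 : ℕ))
    (h : tl L1 L2 L3 L4 L5 L6 L7 L8 L9 N c1 c2 c3 c4 c5 c6 c7 c8 c9 = true) :
    tst (e1 * m1 + e2 * m2 + e3 * m3 + e4 * m4 + e5 * m5 + e6 * m6 + e7 * m7 + e8 * m8 +
      e9 * m9) = true := by
  refine tst_of (a := c1 * L1 + (c2 * L2 + c3 * L3) + (c4 * L4 + (c5 * L5 + (c6 * L6 +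
    (c7 * L7 + (c8 * L8 + (c9 * L9 + CL))))))) (b := N + c9 * ZZ) h ?_
  rw [CL_eq, hN]
  push_cast
  rw [k1, k2, k3, k4, k5, k6, k7, k8, k9, h1, h2, h3, h4, h5, h6, h7, h8, h9]
  ring

theorem eqC_eq {z : ℤ} {n : ℕ} (h : eqC z n = true) : (n : ℤ) = z + (C0 : ℕ) := by
  unfold eqC at h
  obtain ⟨w, hw⟩ : ∃ w, w = Int.add z (Int.ofNat C0) := ⟨_, rfl⟩
  rw [← hw] at h
  have hw' : w = z + (C0 : ℕ) := hw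
  rw [← hw']
  cases w with
  | ofNat m =>
    have h1 : Nat.beq m n = true := h
    rw [Nat.eq_of_beq_eq_true h1]
    rfl
  | negSucc m => exact absurd h Bool.false_ne_true

theorem pkN3_cast (a b c : ℕ) : ((pkN3 a b c : ℕ) : ℤ) = pk3 a b c := by
  have h : pkN3 a b c = a + (b * tw 1 + c * tw 3) := rfl
  have h' : pk3 a b c = (a : ℤ) + ((b : ℤ) * ((tw 1 : ℕ) : ℤ) + (c : ℤ) * ((tw 3 : ℕ) : ℤ)) := rfl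
  rw [h, h']
  push_cast
  ring

theorem pkN4_cast (a b c d : ℕ) : ((pkN4 a b c d : ℕ) : ℤ) = pk4 a b c d := by
  have h : pkN4 a b c d = a + (b * tw 7 + (c * tw 21 + d * tw 49)) := rfl
  have h' : pk4 a b c d = (a : ℤ) + ((b : ℤ) * ((tw 7 : ℕ) : ℤ) + ((c : ℤ) * ((tw 21 : ℕ) : ℤ) +
    (d : ℤ) * ((tw 49 : ℕ) : ℤ))) := rfl
  rw [h, h']
  push_cast
  ring

theorem dz_def (s0 s1 s2 s3 : ℕ) (v e : V4) : dz s0 s1 s2 s3 v e =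
    (v.a * get e s0 + v.b * get e s1) + (v.c * get e s2 + v.d * get e s3) := rfl

theorem dot_lin3 {s0 s1 s2 s3 : ℕ} (v : V4) {u e f g : V4} {x y w : ℤ}
    (h : ∀ i, get u i = x * get e i + y * get f i + w * get g i) :
    dot v (prm s0 s1 s2 s3 u) = x * dz s0 s1 s2 s3 v e + y * dz s0 s1 s2 s3 v f +
      w * dz s0 s1 s2 s3 v g := by
  have e1 : dot v (prm s0 s1 s2 s3 u) = (v.a * get u s0 + v.b * get u s1) +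
    (v.c * get u s2 + v.d * get u s3) := rfl
  rw [e1, h, h, h, h, dz_def, dz_def, dz_def]
  ring

theorem dot_lin2 {s0 s1 s2 s3 : ℕ} (v : V4) {u e f : V4} {x y : ℤ}
    (h : ∀ i, get u i = x * get e i + y * get f i) :
    dot v (prm s0 s1 s2 s3 u) = x * dz s0 s1 s2 s3 v e + y * dz s0 s1 s2 s3 v f := by
  have e1 : dot v (prm s0 s1 s2 s3 u) = (v.a * get u s0 + v.b * get u s1) +
    (v.c * get u s2 + v.d * get u s3) := rfl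
  rw [e1, h, h, h, h, dz_def, dz_def]
  ring

theorem sn (a b : ℕ) : Int.subNatNat a b = (a : ℤ) - b := Int.subNatNat_eq_coe

theorem pk3_sub (a b c a' b' c' : ℤ) : pk3 (a - a') (b - b') (c - c') = pk3 a b c - pk3 a' b' c' := by
  rw [pk3_eq, pk3_eq, pk3_eq]
  ring

theorem get_nC (W0 X0 Y0 W1 X1 Y1 W2 X2 Y2 : ℕ) (i : ℕ) :
    get (pv (nC 0 W0 X0 Y0) (nC 0 W1 X1 Y1) (nC 0 W2 X2 Y2)) i =
      pk3 X0 X1 X2 * get ⟨1, -1, 0, 0⟩ i + pk3 Y0 Y1 Y2 * get ⟨0, 0, -1, 1⟩ i +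
      pk3 W0 W1 W2 * get ⟨-1, 0, 1, 0⟩ i := by
  match i with
  | 0 =>
    show pk3 (Int.subNatNat X0 W0) (Int.subNatNat X1 W1) (Int.subNatNat X2 W2) =
      pk3 X0 X1 X2 * 1 + pk3 Y0 Y1 Y2 * 0 + pk3 W0 W1 W2 * (-1)
    rw [sn, sn, sn, pk3_sub]
    ring
  | 1 =>
    show pk3 (Int.subNatNat 0 X0) (Int.subNatNat 0 X1) (Int.subNatNat 0 X2) =
      pk3 X0 X1 X2 * (-1) + pk3 Y0 Y1 Y2 * 0 + pk3 W0 W1 W2 * 0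
    rw [sn, sn, sn, pk3_sub, pk3_eq ((0 : ℕ) : ℤ)]
    push_cast
    ring
  | 2 =>
    show pk3 (Int.subNatNat W0 Y0) (Int.subNatNat W1 Y1) (Int.subNatNat W2 Y2) =
      pk3 X0 X1 X2 * 0 + pk3 Y0 Y1 Y2 * (-1) + pk3 W0 W1 W2 * 1
    rw [sn, sn, sn, pk3_sub]
    ring
  | n + 3 =>
    show pk3 (Int.ofNat Y0) (Int.ofNat Y1) (Int.ofNat Y2) =
      pk3 X0 X1 X2 * 0 + pk3 Y0 Y1 Y2 * 1 + pk3 W0 W1 W2 * 0
    have e : pk3 (Int.ofNat Y0) (Int.ofNat Y1) (Int.ofNat Y2) = pk3 Y0 Y1 Y2 := rfl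
    rw [e]
    ring

theorem get_pC (W0 X0 W1 X1 W2 X2 : ℕ) (i : ℕ) :
    get (pv (pC 0 W0 X0) (pC 0 W1 X1) (pC 0 W2 X2)) i =
      pk3 W0 W1 W2 * get ⟨1, 0, 1, 1⟩ i + (-pk3 X0 X1 X2) * get ⟨0, 0, 1, 1⟩ i := by
  match i with
  | 0 =>
    show pk3 (Int.ofNat W0) (Int.ofNat W1) (Int.ofNat W2) = pk3 W0 W1 W2 * 1 + (-pk3 X0 X1 X2) * 0
    have e : pk3 (Int.ofNat W0) (Int.ofNat W1) (Int.ofNat W2) = pk3 W0 W1 W2 := rfl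
    rw [e]
    ring
  | 1 =>
    show pk3 0 0 0 = pk3 W0 W1 W2 * 0 + (-pk3 X0 X1 X2) * 0
    rw [pk3_eq 0 0 0]
    ring
  | 2 =>
    show pk3 (Int.subNatNat W0 X0) (Int.subNatNat W1 X1) (Int.subNatNat W2 X2) =
      pk3 W0 W1 W2 * 1 + (-pk3 X0 X1 X2) * 1
    rw [sn, sn, sn, pk3_sub]
    ring
  | n + 3 =>
    show pk3 (Int.subNatNat W0 X0) (Int.subNatNat W1 X1) (Int.subNatNat W2 X2) =
      pk3 W0 W1 W2 * 1 + (-pk3 X0 X1 X2) * 1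
    rw [sn, sn, sn, pk3_sub]
    ring

theorem get_qC (W0 Y0 W1 Y1 W2 Y2 : ℕ) (i : ℕ) :
    get (pv (qC 0 W0 Y0) (qC 0 W1 Y1) (qC 0 W2 Y2)) i =
      pk3 Y0 Y1 Y2 * get ⟨0, 0, 1, 1⟩ i + (-pk3 W0 W1 W2) * get ⟨0, 0, 0, 1⟩ i := by
  match i with
  | 0 =>
    show pk3 0 0 0 = pk3 Y0 Y1 Y2 * 0 + (-pk3 W0 W1 W2) * 0
    rw [pk3_eq 0 0 0]
    ring
  | 1 =>
    show pk3 0 0 0 = pk3 Y0 Y1 Y2 * 0 + (-pk3 W0 W1 W2) * 0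
    rw [pk3_eq 0 0 0]
    ring
  | 2 =>
    show pk3 (Int.ofNat Y0) (Int.ofNat Y1) (Int.ofNat Y2) = pk3 Y0 Y1 Y2 * 1 + (-pk3 W0 W1 W2) * 0
    have e : pk3 (Int.ofNat Y0) (Int.ofNat Y1) (Int.ofNat Y2) = pk3 Y0 Y1 Y2 := rfl
    rw [e]
    ring
  | n + 3 =>
    show pk3 (Int.subNatNat Y0 W0) (Int.subNatNat Y1 W1) (Int.subNatNat Y2 W2) =
      pk3 Y0 Y1 Y2 * 1 + (-pk3 W0 W1 W2) * 1
    rw [sn, sn, sn, pk3_sub]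
    ring

end Pool.Agent.TET.Cvr
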