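import Pool.Agent.Helper37_TET.QkB

/-!
# MP_c7c9bf_co: the fast form of the cover checker, conditions of the cone chart
-/

set_option autoImplicit false

namespace Pool.Agent.TET.Cvr

attribute [local irreducible] OFF ZZ CQ CL

theorem zs_cast {a b : ℕ} (h : Nat.ble b ZZ = true) : ((zs a b : ℕ) : ℤ) = ((a : ℤ) - b) + (ZZ : ℕ) := by
  have h1 := Nat.le_of_ble_eq_true h
  have h2 : zs a b = ZZ + a - b := rfl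
  rw [h2, Nat.cast_sub (h1.trans (Nat.le_add_right _ _))]
  push_cast
  ring

/-- the packed quantities of a cell of the cone chart -/
structure PkN (W X Y K A B P N : ℕ) (x : Sm) : Prop where
  W : W = pkN3 x.p0.W x.p1.W x.p2.W
  X : X = pkN3 x.p0.X x.p1.X x.p2.X
  Y : Y = pkN3 x.p0.Y x.p1.Y x.p2.Y
  K : K = pkN4 x.u0.k x.u1.k x.u2.k x.u3.k
  A : A = pkN4 x.u0.al x.u1.al x.u2.al x.u3.al
  B : B = pkN4 x.u0.be x.u1.be x.u2.be x.u3.be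
  P : P = pkN4 x.u0.gp x.u1.gp x.u2.gp x.u3.gp
  N : N = pkN4 x.u0.gn x.u1.gn x.u2.gn x.u3.gn

theorem encL_iff {a b c a' b' c' md fd me fe : ℤ} {c1 c2 c3 c4 c5 c6 c7 c8 c9 : ℕ}
    (h : encL a b c a' b' c' md fd me fe c1 c2 c3 c4 c5 c6 c7 c8 c9 = true) :
    (c1 : ℤ) = a * a' + (C0 : ℕ) ∧ (c2 : ℤ) = (a * b' + a' * b) + (C0 : ℕ) ∧
    (c3 : ℤ) = b * b' + (C0 : ℕ) ∧ (c4 : ℤ) = (a * c' + a' * c) + (C0 : ℕ) ∧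
    (c5 : ℤ) = (b * c' + b' * c) + (C0 : ℕ) ∧ (c6 : ℤ) = c * c' + (C0 : ℕ) ∧
    (c7 : ℤ) = md * fd + (C0 : ℕ) ∧ (c8 : ℤ) = me * fe + (C0 : ℕ) ∧
    (c9 : ℤ) = (md * fe + me * fd) + (C0 : ℕ) := by
  unfold encL at h
  simp only [bAnd] at h
  obtain ⟨⟨⟨h1, h2⟩, h3, h4⟩, ⟨h5, h6⟩, h7, h8, h9⟩ := h
  exact ⟨eqC_eq h1, eqC_eq h2, eqC_eq h3, eqC_eq h4, eqC_eq h5, eqC_eq h6, eqC_eq h7, eqC_eq h8,
    eqC_eq h9⟩

theorem encQ_iff {a p q a' p' q' : ℤ} {c1 c2 c3 c4 c5 c6 s : ℕ}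
    (h : encQ a p q a' p' q' c1 c2 c3 c4 c5 c6 s = true) :
    (c1 : ℤ) = a * a' + (C0 : ℕ) ∧ (c2 : ℤ) = -(p * a' + a * p') + (C0 : ℕ) ∧
    (c3 : ℤ) = p * p' + (C0 : ℕ) ∧ (c4 : ℤ) = -(a * q' + q * a') + (C0 : ℕ) ∧
    (c5 : ℤ) = q * q' + (C0 : ℕ) ∧ (c6 : ℤ) = (p * q' + q * p') + (C0 : ℕ) ∧
    s = c1 + c2 + (c4 + c6) := by
  unfold encQ at h
  simp only [bAnd] at h
  obtain ⟨⟨⟨h1, h2⟩, h3⟩, ⟨h4, h5⟩, h6, h7⟩ := h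
  exact ⟨eqC_eq h1, eqC_eq h2, eqC_eq h3, eqC_eq h4, eqC_eq h5, eqC_eq h6,
    Nat.eq_of_beq_eq_true h7⟩

/-- the test of a linear condition is the packed one -/
theorem l_ok {s0 s1 s2 s3 : ℕ} {m g : V4} {c1 c2 c3 c4 c5 c6 c7 c8 c9 : ℕ}
    (he : encN s0 s1 s2 s3 (.l m g) (.l c1 c2 c3 c4 c5 c6 c7 c8 c9) = true) {x : Sm}
    {W X Y K A B P N n9 : ℕ} (hp : PkN W X Y K A B P N x) (h9 : n9 = N * (W * W))
    (b9 : Nat.ble n9 ZZ = true)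
    (h : tl (K * (X * X)) (K * (X * Y)) (K * (Y * Y)) (K * (W * X)) (K * (W * Y)) (K * (W * W))
      (A * (W * W)) (B * (W * W)) (zs (P * (W * W)) n9)
      (C0 * ((K * (X * X)) + ((K * (X * Y)) + (K * (Y * Y))) + ((K * (W * X)) + ((K * (W * Y)) +
        (K * (W * W)))) + ((A * (W * W)) + ((B * (W * W)) + (zs (P * (W * W)) n9)))))
      c1 c2 c3 c4 c5 c6 c7 c8 c9 = true) :
    linP m g (prm s0 s1 s2 s3 (pv (nC 0 x.p0.W x.p0.X x.p0.Y) (nC 0 x.p1.W x.p1.X x.p1.Y)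
        (nC 0 x.p2.W x.p2.X x.p2.Y))) (prm s0 s1 s2 s3 dC) (prm s0 s1 s2 s3 (eC 0))
      (pk4 (Int.ofNat x.s.u0.k) (Int.ofNat x.s.u1.k) (Int.ofNat x.s.u2.k) (Int.ofNat x.s.u3.k))
      (pk4 (Int.ofNat x.s.u0.al) (Int.ofNat x.s.u1.al) (Int.ofNat x.s.u2.al) (Int.ofNat x.s.u3.al))
      (pk4 (Int.ofNat x.s.u0.be) (Int.ofNat x.s.u1.be) (Int.ofNat x.s.u2.be) (Int.ofNat x.s.u3.be))
      (pk4 x.s.u0.ga x.s.u1.ga x.s.u2.ga x.s.u3.ga)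
      (Int.mul (pk3 (Int.ofNat x.p0.W) (Int.ofNat x.p1.W) (Int.ofNat x.p2.W))
        (pk3 (Int.ofNat x.p0.W) (Int.ofNat x.p1.W) (Int.ofNat x.p2.W))) = true := by
  obtain ⟨e1, e2, e3, e4, e5, e6, e7, e8, e9⟩ := encL_iff he
  have cW : ((W : ℕ) : ℤ) = pk3 x.p0.W x.p1.W x.p2.W := by rw [hp.W, pkN3_cast]
  have cX : ((X : ℕ) : ℤ) = pk3 x.p0.X x.p1.X x.p2.X := by rw [hp.X, pkN3_cast]
  have cY : ((Y : ℕ) : ℤ) = pk3 x.p0.Y x.p1.Y x.p2.Y := by rw [hp.Y, pkN3_cast]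
  have cK : ((K : ℕ) : ℤ) = pk4 x.u0.k x.u1.k x.u2.k x.u3.k := by rw [hp.K, pkN4_cast]
  have cA : ((A : ℕ) : ℤ) = pk4 x.u0.al x.u1.al x.u2.al x.u3.al := by rw [hp.A, pkN4_cast]
  have cB : ((B : ℕ) : ℤ) = pk4 x.u0.be x.u1.be x.u2.be x.u3.be := by rw [hp.B, pkN4_cast]
  have cG : pk4 x.s.u0.ga x.s.u1.ga x.s.u2.ga x.s.u3.ga = (P : ℤ) - N := by
    rw [hp.P, hp.N, pkN4_cast, pkN4_cast]
    show pk4 (Int.subNatNat x.u0.gp x.u0.gn) (Int.subNatNat x.u1.gp x.u1.gn)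
      (Int.subNatNat x.u2.gp x.u2.gn) (Int.subNatNat x.u3.gp x.u3.gn) = _
    rw [sn, sn, sn, sn, pk4_eq, pk4_eq, pk4_eq]
    ring
  have h1 := tl_tst (Nat.cast_mul K (X * X)) (Nat.cast_mul K (X * Y)) (Nat.cast_mul K (Y * Y))
    (Nat.cast_mul K (W * X)) (Nat.cast_mul K (W * Y)) (Nat.cast_mul K (W * W))
    (Nat.cast_mul A (W * W)) (Nat.cast_mul B (W * W)) (zs_cast b9) rfl e1 e2 e3 e4 e5 e6 e7 e8 e9 h
  unfold linP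
  refine Eq.trans (congrArg tst ?_) h1
  have eF : ∀ a b c d e f g h i j k l : ℤ, Int.add (Int.mul a (Int.mul b c)) (Int.mul (Int.add
    (Int.mul d (Int.mul e f)) (Int.add (Int.mul g (Int.mul h i)) (Int.mul j (Int.add
      (Int.mul e i) (Int.mul h f))))) (Int.mul k l)) = a * (b * c) + (d * (e * f) + (g * (h * i) +
      j * (e * i + h * f))) * (k * l) := fun _ _ _ _ _ _ _ _ _ _ _ _ => rfl
  rw [eF, cG, dot_lin3 m (get_nC _ _ _ _ _ _ _ _ _), dot_lin3 g (get_nC _ _ _ _ _ _ _ _ _)]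
  have d1 : pk4 (Int.ofNat x.s.u0.k) (Int.ofNat x.s.u1.k) (Int.ofNat x.s.u2.k)
    (Int.ofNat x.s.u3.k) = (K : ℤ) := cK.symm
  have d2 : pk4 (Int.ofNat x.s.u0.al) (Int.ofNat x.s.u1.al) (Int.ofNat x.s.u2.al)
    (Int.ofNat x.s.u3.al) = (A : ℤ) := cA.symm
  have d3 : pk4 (Int.ofNat x.s.u0.be) (Int.ofNat x.s.u1.be) (Int.ofNat x.s.u2.be)
    (Int.ofNat x.s.u3.be) = (B : ℤ) := cB.symm
  have d4 : pk3 (Int.ofNat x.p0.W) (Int.ofNat x.p1.W) (Int.ofNat x.p2.W) = (W : ℤ) := cW.symm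
  have d5 : dot m (prm s0 s1 s2 s3 dC) = dz s0 s1 s2 s3 m dC := rfl
  have d6 : dot g (prm s0 s1 s2 s3 dC) = dz s0 s1 s2 s3 g dC := rfl
  have d7 : dot m (prm s0 s1 s2 s3 (eC 0)) = dz s0 s1 s2 s3 m (eC 0) := rfl
  have d8 : dot g (prm s0 s1 s2 s3 (eC 0)) = dz s0 s1 s2 s3 g (eC 0) := rfl
  rw [d1, d2, d3, d4, d5, d6, d7, d8, ← cX, ← cY, ← cW, h9]
  push_cast
  ring

/-- the test of a quadratic condition is the packed one -/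
theorem q_ok {s0 s1 s2 s3 : ℕ} {v w : V4} {c1 c2 c3 c4 c5 c6 s : ℕ}
    (he : encN s0 s1 s2 s3 (.q v w) (.q c1 c2 c3 c4 c5 c6 s) = true) {x : Sm}
    {W X Y K A B P N n1 n2 n4 n6 : ℕ} (hp : PkN W X Y K A B P N x)
    (h1 : n1 = (P * P + N * N) * (W * W) + 2 * (K * N * (X * Y)))
    (h2 : n2 = K * N * (W * Y)) (h4 : n4 = K * N * (W * X)) (h6 : n6 = K * N * (W * W))
    (b1 : Nat.ble n1 ZZ = true) (b2 : Nat.ble n2 ZZ = true) (b4 : Nat.ble n4 ZZ = true)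
    (b6 : Nat.ble n6 ZZ = true) {M1 M2 M4 M6 : ℕ}
    (g1 : M1 = zs ((A * B + 2 * (P * N)) * (W * W) + K * B * (X * X) + (K * A * (Y * Y) +
      2 * (K * P * (X * Y)))) n1)
    (g2 : M2 = zs (K * B * (W * X) + K * P * (W * Y)) n2)
    (g4 : M4 = zs (K * A * (W * Y) + K * P * (W * X)) n4)
    (g6 : M6 = zs (K * P * (W * W)) n6)
    (h : tq M1 M2 (K * B * (W * W)) M4 (K * A * (W * W)) M6
      (C0 * (M1 + (M2 + K * B * (W * W)) + (M4 + (K * A * (W * W) + M6))))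
      c1 c2 c3 c4 c5 c6 s = true) :
    quaP v w (prm s0 s1 s2 s3 (sC 0))
      (prm s0 s1 s2 s3 (pv (pC 0 x.p0.W x.p0.X) (pC 0 x.p1.W x.p1.X) (pC 0 x.p2.W x.p2.X)))
      (prm s0 s1 s2 s3 (pv (qC 0 x.p0.W x.p0.Y) (qC 0 x.p1.W x.p1.Y) (qC 0 x.p2.W x.p2.Y)))
      (Int.sub (Int.mul (pk4 (Int.ofNat x.s.u0.al) (Int.ofNat x.s.u1.al) (Int.ofNat x.s.u2.al)
        (Int.ofNat x.s.u3.al)) (pk4 (Int.ofNat x.s.u0.be) (Int.ofNat x.s.u1.be)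
        (Int.ofNat x.s.u2.be) (Int.ofNat x.s.u3.be)))
        (Int.mul (pk4 x.s.u0.ga x.s.u1.ga x.s.u2.ga x.s.u3.ga)
          (pk4 x.s.u0.ga x.s.u1.ga x.s.u2.ga x.s.u3.ga)))
      (Int.mul (pk4 (Int.ofNat x.s.u0.k) (Int.ofNat x.s.u1.k) (Int.ofNat x.s.u2.k)
        (Int.ofNat x.s.u3.k)) (pk4 (Int.ofNat x.s.u0.be) (Int.ofNat x.s.u1.be)
        (Int.ofNat x.s.u2.be) (Int.ofNat x.s.u3.be)))
      (Int.mul (pk4 (Int.ofNat x.s.u0.k) (Int.ofNat x.s.u1.k) (Int.ofNat x.s.u2.k)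
        (Int.ofNat x.s.u3.k)) (pk4 (Int.ofNat x.s.u0.al) (Int.ofNat x.s.u1.al)
        (Int.ofNat x.s.u2.al) (Int.ofNat x.s.u3.al)))
      (Int.mul (pk4 (Int.ofNat x.s.u0.k) (Int.ofNat x.s.u1.k) (Int.ofNat x.s.u2.k)
        (Int.ofNat x.s.u3.k)) (pk4 x.s.u0.ga x.s.u1.ga x.s.u2.ga x.s.u3.ga))
      (Int.mul (pk3 (Int.ofNat x.p0.W) (Int.ofNat x.p1.W) (Int.ofNat x.p2.W))
        (pk3 (Int.ofNat x.p0.W) (Int.ofNat x.p1.W) (Int.ofNat x.p2.W))) = true := by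
  obtain ⟨e1, e2, e3, e4, e5, e6, es⟩ := encQ_iff he
  have cW : ((W : ℕ) : ℤ) = pk3 x.p0.W x.p1.W x.p2.W := by rw [hp.W, pkN3_cast]
  have cX : ((X : ℕ) : ℤ) = pk3 x.p0.X x.p1.X x.p2.X := by rw [hp.X, pkN3_cast]
  have cY : ((Y : ℕ) : ℤ) = pk3 x.p0.Y x.p1.Y x.p2.Y := by rw [hp.Y, pkN3_cast]
  have cK : ((K : ℕ) : ℤ) = pk4 x.u0.k x.u1.k x.u2.k x.u3.k := by rw [hp.K, pkN4_cast]
  have cA : ((A : ℕ) : ℤ) = pk4 x.u0.al x.u1.al x.u2.al x.u3.al := by rw [hp.A, pkN4_cast]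
  have cB : ((B : ℕ) : ℤ) = pk4 x.u0.be x.u1.be x.u2.be x.u3.be := by rw [hp.B, pkN4_cast]
  have cG : pk4 x.s.u0.ga x.s.u1.ga x.s.u2.ga x.s.u3.ga = (P : ℤ) - N := by
    rw [hp.P, hp.N, pkN4_cast, pkN4_cast]
    show pk4 (Int.subNatNat x.u0.gp x.u0.gn) (Int.subNatNat x.u1.gp x.u1.gn)
      (Int.subNatNat x.u2.gp x.u2.gn) (Int.subNatNat x.u3.gp x.u3.gn) = _
    rw [sn, sn, sn, sn, pk4_eq, pk4_eq, pk4_eq]
    ring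
  rw [g1, g2, g4, g6] at h
  have k1 := tq_tst (zs_cast b1) (zs_cast b2) (Nat.cast_mul (K * B) (W * W)) (zs_cast b4)
    (Nat.cast_mul (K * A) (W * W)) (zs_cast b6) rfl e1 e2 e3 e4 e5 e6 es h
  unfold quaP
  refine Eq.trans (congrArg tst ?_) k1
  have eF : ∀ h a b v kb c d ka e f kg : ℤ, Int.add (Int.add (Int.mul (Int.mul h (Int.mul a b)) v)
    (Int.mul kb (Int.mul c d))) (Int.sub (Int.mul ka (Int.mul e f)) (Int.mul kg (Int.add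
      (Int.mul c f) (Int.mul e d)))) = (h * (a * b) * v + kb * (c * d)) + (ka * (e * f) -
      kg * (c * f + e * d)) := fun _ _ _ _ _ _ _ _ _ _ _ => rfl
  rw [eF, cG, dot_lin2 v (get_pC _ _ _ _ _ _), dot_lin2 w (get_pC _ _ _ _ _ _),
    dot_lin2 v (get_qC _ _ _ _ _ _), dot_lin2 w (get_qC _ _ _ _ _ _)]
  have d1 : pk4 (Int.ofNat x.s.u0.k) (Int.ofNat x.s.u1.k) (Int.ofNat x.s.u2.k)
    (Int.ofNat x.s.u3.k) = (K : ℤ) := cK.symm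
  have d2 : pk4 (Int.ofNat x.s.u0.al) (Int.ofNat x.s.u1.al) (Int.ofNat x.s.u2.al)
    (Int.ofNat x.s.u3.al) = (A : ℤ) := cA.symm
  have d3 : pk4 (Int.ofNat x.s.u0.be) (Int.ofNat x.s.u1.be) (Int.ofNat x.s.u2.be)
    (Int.ofNat x.s.u3.be) = (B : ℤ) := cB.symm
  have d4 : pk3 (Int.ofNat x.p0.W) (Int.ofNat x.p1.W) (Int.ofNat x.p2.W) = (W : ℤ) := cW.symm
  have d5 : dot v (prm s0 s1 s2 s3 (sC 0)) = dz s0 s1 s2 s3 v ⟨0, 0, 1, 1⟩ := rfl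
  have d6 : dot w (prm s0 s1 s2 s3 (sC 0)) = dz s0 s1 s2 s3 w ⟨0, 0, 1, 1⟩ := rfl
  have im : ∀ a b : ℤ, Int.mul a b = a * b := fun _ _ => rfl
  have is' : ∀ a b : ℤ, Int.sub a b = a - b := fun _ _ => rfl
  rw [d1, d2, d3, d4, d5, d6, ← cX, ← cY, ← cW, h1, h2, h4, h6]
  simp only [im, is']
  push_cast
  ring

end Pool.Agent.TET.Cvr
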