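import Pool.Agent.Helper37_TET.QkN

/-!
# MP_c7c9bf_co: the fast form of the cover checker, flag chart

`tau = T / V - 1`; only the case `c = 0` is checked, the case `c = 1` is its mirror image.
-/

set_option autoImplicit false

namespace Pool.Agent.TET.Cvr

noncomputable section

/-- an end of the interval, `tau = T / V - 1` -/
structure Tu where
  T : ℕ
  V : ℕ

/-- a cell of the flag chart -/
structure Ss where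
  p0 : Pt
  p1 : Pt
  p2 : Pt
  t0 : Tu
  t1 : Tu
  u0 : G3
  u1 : G3
  u2 : G3

/-- a cover tree -/
inductive Tf where
  | B (r p q : ℕ) (s t : Tf)
  | T (p q : ℕ) (s t : Tf)
  | C (i j p q : ℕ) (s t : Tf)
  | L (n : ℕ)
  | O (t : ℕ)

def ZF : ℕ := Nat.pow 2 37632

def q3 (a b c : ℕ) : ℕ := Nat.add a (Nat.add (Nat.mul b (tf 1)) (Nat.mul c (tf 3)))
def qT (a b : ℕ) : ℕ := Nat.add a (Nat.mul b (tf 7))
def qG (a b c : ℕ) : ℕ := Nat.add a (Nat.add (Nat.mul b (tf 21)) (Nat.mul c (tf 63)))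

/-- `OFFF + 4 C0 ZF` -/
def CF : ℕ := Nat.add OFFF (Nat.mul (Nat.mul 4 C0) ZF)

def tqF (M1 M2 M3 M4 M5 M6 N c1 c2 c3 c4 c5 c6 s : ℕ) : Bool :=
  Nat.beq (Nat.land (Nat.sub (Nat.add (Nat.add (Nat.mul c1 M1) (Nat.add (Nat.mul c2 M2) (Nat.mul c3 M3)))
    (Nat.add (Nat.mul c4 M4) (Nat.add (Nat.mul c5 M5) (Nat.add (Nat.mul c6 M6) CF))))
    (Nat.add N (Nat.mul s ZF))) OFFF) OFFF

def tlF (L1 L2 L3 L4 L5 L6 L7 L8 L9 N c1 c2 c3 c4 c5 c6 c7 c8 c9 : ℕ) : Bool :=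
  Nat.beq (Nat.land (Nat.sub (Nat.add (Nat.add (Nat.mul c1 L1) (Nat.add (Nat.mul c2 L2) (Nat.mul c3 L3)))
    (Nat.add (Nat.mul c4 L4) (Nat.add (Nat.mul c5 L5) (Nat.add (Nat.mul c6 L6)
      (Nat.add (Nat.mul c7 L7) (Nat.add (Nat.mul c8 L8) (Nat.add (Nat.mul c9 L9) OFFF)))))))
    N) OFFF) OFFF

def sv3 (L1 L2 L3 L4 L5 L6 L7 L8 L9 NL M1 M2 M3 M4 M5 M6 NQ : ℕ) (l : List FC) : Bool :=
  allL (fun c => FC.rec (motive := fun _ => Bool)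
    (fun c1 c2 c3 c4 c5 c6 c7 c8 c9 => tlF L1 L2 L3 L4 L5 L6 L7 L8 L9 NL c1 c2 c3 c4 c5 c6 c7 c8 c9)
    (fun c1 c2 c3 c4 c5 c6 s => tqF M1 M2 M3 M4 M5 M6 NQ c1 c2 c3 c4 c5 c6 s) c) l

def sv2 (L1 L2 L3 L4 L5 L6 L7 L8 L9 M1 M2 M3 M4 M5 M6 : ℕ) (l : List FC) : Bool :=
  sv3 L1 L2 L3 L4 L5 L6 L7 L8 L9
    (Nat.mul C0 (Nat.add (sm6 L1 L2 L3 L4 L5 L6) (Nat.add L7 (Nat.add L8 L9))))
    M1 M2 M3 M4 M5 M6 (Nat.mul C0 (sm6 M1 M2 M3 M4 M5 M6)) l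

/-- `ZF + a - b` -/
def zf (a b : ℕ) : ℕ := Nat.sub (Nat.add ZF a) b

/-- `Q = KR VV + KA TT`, `AV = KA VV`, `AX = KA VT`, `H = AR VV` -/
def sv1 (WW WX XX SS Q AV H L1 L2 L3 L4 L5 L6 L7 L8 L9 M6 n1 n2 n4 : ℕ) (AXWX : ℕ)
    (l : List FC) : Bool :=
  Bool.and (Bool.and (Nat.ble n1 ZF) (Bool.and (Nat.ble n2 ZF) (Nat.ble n4 ZF)))
    (sv2 L1 L2 L3 L4 L5 L6 L7 L8 L9
      (zf (Nat.add (Nat.mul H WW) (Nat.add (Nat.mul Q XX) (Nat.mul AV SS))) n1)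
      (zf (Nat.mul Q WX) n2)
      (Nat.mul Q WW)
      (zf AXWX n4)
      (Nat.mul AV WW)
      (zf M6 0) l)

def sv0c (WW WX WY XX XY YY WS XS SS VV VT TT R KVV AWW KR KA AR : ℕ) (AX AV : ℕ)
    (l : List FC) : Bool :=
  sv1 WW WX XX SS (Nat.add (Nat.mul KR VV) (Nat.mul KA TT)) AV (Nat.mul AR VV)
    (Nat.mul KVV XX) (Nat.mul KVV XY) (Nat.mul KVV YY) (Nat.mul KVV WX) (Nat.mul KVV WY)
    (Nat.mul KVV WW) (Nat.mul AWW VV) (Nat.add (Nat.mul AWW TT) (Nat.mul (Nat.mul R WW) VV))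
    (Nat.mul AWW VT) (Nat.mul AX WW)
    (Nat.mul 2 (Nat.mul AX XS)) (Nat.mul AX WS) (Nat.mul AV WS) (Nat.mul AX WX) l

def sv0b (WW WX WY XX XY YY VV VT TT K A R : ℕ) (l : List FC) : Bool :=
  sv0c WW WX WY XX XY YY (Nat.add WX WY) (Nat.add XX XY) (Nat.add XX (Nat.add (Nat.mul 2 XY) YY))
    VV VT TT R (Nat.mul K VV) (Nat.mul A WW) (Nat.mul K R) (Nat.mul K A) (Nat.mul A R)
    (Nat.mul (Nat.mul K A) VT) (Nat.mul (Nat.mul K A) VV) l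

def sv0 (W X Y V T K A R : ℕ) (l : List FC) : Bool :=
  sv0b (Nat.mul W W) (Nat.mul W X) (Nat.mul W Y) (Nat.mul X X) (Nat.mul X Y) (Nat.mul Y Y)
    (Nat.mul V V) (Nat.mul V T) (Nat.mul T T) K A R l

/-- size check -/
def szS (x : Ss) : Bool :=
  Bool.and (Nat.ble (Nat.add (Nat.add (Nat.add x.p0.X (Nat.add x.p0.Y x.p0.W))
      (Nat.add x.p1.X (Nat.add x.p1.Y x.p1.W))) (Nat.add x.p2.X (Nat.add x.p2.Y x.p2.W))) M2)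
    (Bool.and (Nat.ble (Nat.add (Nat.add x.t0.T x.t0.V) (Nat.add x.t1.T x.t1.V)) M4)
      (Nat.ble (Nat.add (Nat.add x.u0.k (Nat.add x.u0.al x.u0.rho))
        (Nat.add (Nat.add x.u1.k (Nat.add x.u1.al x.u1.rho))
          (Nat.add x.u2.k (Nat.add x.u2.al x.u2.rho)))) M1))

def leafS (o : Option (List FC)) (x : Ss) : Bool :=
  Option.rec (motive := fun _ => Bool) false (fun l => Bool.and (szS x)
    (sv0 (q3 x.p0.W x.p1.W x.p2.W) (q3 x.p0.X x.p1.X x.p2.X) (q3 x.p0.Y x.p1.Y x.p2.Y)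
      (qT x.t0.V x.t1.V) (qT x.t0.T x.t1.T)
      (qG x.u0.k x.u1.k x.u2.k) (qG x.u0.al x.u1.al x.u2.al) (qG x.u0.rho x.u1.rho x.u2.rho) l)) o

def tmS (p q : ℕ) (s t : Tu) : Tu :=
  ⟨Nat.add (Nat.mul p s.T) (Nat.mul q t.T), Nat.add (Nat.mul p s.V) (Nat.mul q t.V)⟩

def gPS (x : Ss) (r : ℕ) : Pt :=
  Nat.rec (motive := fun _ => Pt) x.p0 (fun j _ => Nat.rec (motive := fun _ => Pt) x.p1 (fun _ _ => x.p2) j) r

def sPS (x : Ss) (r : ℕ) (p : Pt) : Ss :=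
  Nat.rec (motive := fun _ => Ss) ⟨p, x.p1, x.p2, x.t0, x.t1, x.u0, x.u1, x.u2⟩
    (fun j _ => Nat.rec (motive := fun _ => Ss) ⟨x.p0, p, x.p2, x.t0, x.t1, x.u0, x.u1, x.u2⟩
      (fun _ _ => ⟨x.p0, x.p1, p, x.t0, x.t1, x.u0, x.u1, x.u2⟩) j) r

def gUS (x : Ss) (i : ℕ) : G3 :=
  Nat.rec (motive := fun _ => G3) x.u0 (fun j _ => Nat.rec (motive := fun _ => G3) x.u1 (fun _ _ => x.u2) j) i

def sUS (x : Ss) (i : ℕ) (u : G3) : Ss :=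
  Nat.rec (motive := fun _ => Ss) ⟨x.p0, x.p1, x.p2, x.t0, x.t1, u, x.u1, x.u2⟩
    (fun j _ => Nat.rec (motive := fun _ => Ss) ⟨x.p0, x.p1, x.p2, x.t0, x.t1, x.u0, u, x.u2⟩
      (fun _ _ => ⟨x.p0, x.p1, x.p2, x.t0, x.t1, x.u0, x.u1, u⟩) j) i

def sTS0 (x : Ss) (t : Tu) : Ss := ⟨x.p0, x.p1, x.p2, t, x.t1, x.u0, x.u1, x.u2⟩
def sTS1 (x : Ss) (t : Tu) : Ss := ⟨x.p0, x.p1, x.p2, x.t0, t, x.u0, x.u1, x.u2⟩

def Tu.e (t : Tu) : Te := ⟨Int.subNatNat t.T t.V, t.V⟩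
def Ss.s (x : Ss) : SF := ⟨x.p0, x.p1, x.p2, x.t0.e, x.t1.e, x.u0, x.u1, x.u2⟩

def o4pS (al rho : ℕ) (s t : Tu) : Bool :=
  Nat.blt (Nat.mul al (Nat.add (Nat.mul s.T t.V) (Nat.mul s.V t.T)))
    (Nat.add (Nat.mul rho (Nat.mul s.V t.V)) (Nat.mul al (Nat.mul s.T t.T)))

def o4gS (s t : Tu) (u : G3) : Bool :=
  Bool.or (Bool.and (Nat.beq u.al 0) (Nat.beq u.rho 0))
    (Bool.and (o4pS u.al u.rho s s) (Bool.and (o4pS u.al u.rho s t) (o4pS u.al u.rho t t)))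

def outS (x : Ss) : Bool :=
  Bool.and (o4gS x.t0 x.t1 x.u0) (Bool.and (o4gS x.t0 x.t1 x.u1) (o4gS x.t0 x.t1 x.u2))

/-- **the fast checker of the flag chart** -/
def chkS (T : Bt) (t : Tf) : Ss → Bool :=
  Tf.rec (motive := fun _ => Ss → Bool)
    (fun r p q _ _ f g x => Bool.and (Bool.and (Nat.ble r 2) (Bool.and (Nat.ble 1 p) (Nat.ble 1 q)))
      (Bool.and (f (sPS x (nx r) (mid p q (gPS x r) (gPS x (nx r)))))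
        (g (sPS x r (mid p q (gPS x r) (gPS x (nx r)))))))
    (fun p q _ _ f g x => Bool.and (Bool.and (Nat.ble 1 p) (Nat.ble 1 q))
      (Bool.and (f (sTS1 x (tmS p q x.t0 x.t1))) (g (sTS0 x (tmS p q x.t0 x.t1)))))
    (fun i j p q _ _ f g x => Bool.and (Bool.and (Bool.and (Nat.ble i 2) (Nat.ble j 2))
        (Bool.and (not (Nat.beq i j)) (Bool.and (Nat.ble 1 p) (Nat.ble 1 q))))
      (Bool.and (f (sUS x j (cm p q (gUS x i) (gUS x j)))) (g (sUS x i (cm p q (gUS x i) (gUS x j))))))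
    (fun n x => leafS (T.get n) x)
    (fun _ x => outS x) t

/-! ### the encoding -/

def encS (s0 s1 s2 s3 : ℕ) (c : Cd) (f : FC) : Bool :=
  Cd.rec (motive := fun _ => Bool)
    (fun m g => FC.rec (motive := fun _ => Bool)
      (fun c1 c2 c3 c4 c5 c6 c7 c8 c9 => encL (dz s0 s1 s2 s3 m ⟨1, -1, 0, 0⟩)
        (dz s0 s1 s2 s3 m ⟨1, 0, -1, 0⟩) (dz s0 s1 s2 s3 m ⟨-1, 0, 0, 1⟩)
        (dz s0 s1 s2 s3 g ⟨1, -1, 0, 0⟩) (dz s0 s1 s2 s3 g ⟨1, 0, -1, 0⟩)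
        (dz s0 s1 s2 s3 g ⟨-1, 0, 0, 1⟩)
        (Int.sub (dz s0 s1 s2 s3 m dC) (dz s0 s1 s2 s3 m (eC 1)))
        (Int.sub (dz s0 s1 s2 s3 g dC) (dz s0 s1 s2 s3 g (eC 1)))
        (dz s0 s1 s2 s3 m (eC 1)) (dz s0 s1 s2 s3 g (eC 1)) c1 c2 c3 c4 c5 c6 c7 c8 c9)
      (fun _ _ _ _ _ _ _ => false) f)
    (fun v w => FC.rec (motive := fun _ => Bool) (fun _ _ _ _ _ _ _ _ _ => false)
      (fun c1 c2 c3 c4 c5 c6 s => encQ (Int.neg (dz s0 s1 s2 s3 v (sC 1)))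
        (dz s0 s1 s2 s3 v ⟨0, 1, 0, 0⟩)
        (Int.neg (Int.add (dz s0 s1 s2 s3 v ⟨0, 1, 0, 0⟩) (dz s0 s1 s2 s3 v ⟨0, 0, 1, 0⟩)))
        (Int.neg (dz s0 s1 s2 s3 w (sC 1)))
        (dz s0 s1 s2 s3 w ⟨0, 1, 0, 0⟩)
        (Int.neg (Int.add (dz s0 s1 s2 s3 w ⟨0, 1, 0, 0⟩) (dz s0 s1 s2 s3 w ⟨0, 0, 1, 0⟩)))
        c1 c2 c3 c4 c5 c6 s) f) c

def encTS (T : List (List Cd)) (t : Bt) : Bool :=
  Bt.rec (motive := fun _ => Bool) true (fun _ x _ f g => Bool.and (Bool.and f g)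
    (Bool.and (Bool.and (isP x.s0 x.s1 x.s2 x.s3) (Nat.blt x.R T.length))
      (all2 (encS x.s0 x.s1 x.s2 x.s3) (nth [] T x.R) x.l))) t

end

end Pool.Agent.TET.Cvr
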