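import Pool.Agent.Helper37_TET.QkSA

/-!
# MP_c7c9bf_co: the fast form of the cover checker, conditions of the flag chart
-/

set_option autoImplicit false

namespace Pool.Agent.TET.Cvr

theorem OFFF_pos : 0 < OFFF := by decide +kernel

theorem CF_eq : CF = OFFF + 4 * C0 * ZF := by
  have key : ∀ o z c : ℕ, Nat.add o (Nat.mul (Nat.mul 4 c) z) = o + 4 * c * z := fun _ _ _ => rfl
  unfold CF
  exact key _ _ _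

attribute [local irreducible] OFFF ZF CF

theorem tstF_of {F : ℤ} {a b : ℕ} (h : Nat.beq (Nat.land (Nat.sub a b) OFFF) OFFF = true)
    (e : (a : ℤ) - b = F + (OFFF : ℕ)) : tstF F = true := by
  have h1 : Nat.land (a - b) OFFF = OFFF := Nat.eq_of_beq_eq_true h
  rcases le_total a b with hab | hab
  · rw [Nat.sub_eq_zero_of_le hab] at h1
    have h2 : Nat.land 0 OFFF = 0 := Nat.zero_and OFFF
    rw [h2] at h1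
    exact absurd h1 OFFF_pos.ne
  · have h3 : ((a - b : ℕ) : ℤ) = F + (OFFF : ℕ) := by
      rw [Nat.cast_sub hab]
      exact e
    have h4 : tstF F = Nat.beq (Nat.land (Int.toNat (F + (OFFF : ℕ))) OFFF) OFFF := rfl
    rw [h4, ← h3, Int.toNat_natCast, h1]
    exact Nat.beq_refl OFFF

theorem tqF_tst {M1 M2 M3 M4 M5 M6 N c1 c2 c3 c4 c5 c6 s : ℕ} {m1 m2 m3 m4 m5 m6 e1 e2 e3 e4 e5 e6 : ℤ}
    (h1 : (M1 : ℤ) = m1 + (ZF : ℕ)) (h2 : (M2 : ℤ) = m2 + (ZF : ℕ)) (h3 : (M3 : ℤ) = m3)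
    (h4 : (M4 : ℤ) = m4 + (ZF : ℕ)) (h5 : (M5 : ℤ) = m5) (h6 : (M6 : ℤ) = m6 + (ZF : ℕ))
    (hN : N = C0 * (M1 + (M2 + M3) + (M4 + (M5 + M6))))
    (k1 : (c1 : ℤ) = e1 + (C0 : ℕ)) (k2 : (c2 : ℤ) = e2 + (C0 : ℕ)) (k3 : (c3 : ℤ) = e3 + (C0 : ℕ))
    (k4 : (c4 : ℤ) = e4 + (C0 : ℕ)) (k5 : (c5 : ℤ) = e5 + (C0 : ℕ)) (k6 : (c6 : ℤ) = e6 + (C0 : ℕ))
    (hs : s = c1 + c2 + (c4 + c6))
    (h : tqF M1 M2 M3 M4 M5 M6 N c1 c2 c3 c4 c5 c6 s = true) :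
    tstF (e1 * m1 + e2 * m2 + e3 * m3 + e4 * m4 + e5 * m5 + e6 * m6) = true := by
  refine tstF_of (a := c1 * M1 + (c2 * M2 + c3 * M3) + (c4 * M4 + (c5 * M5 + (c6 * M6 + CF))))
    (b := N + s * ZF) h ?_
  rw [CF_eq, hN, hs]
  push_cast
  rw [k1, k2, k3, k4, k5, k6, h1, h2, h3, h4, h5, h6]
  ring

theorem tlF_tst {L1 L2 L3 L4 L5 L6 L7 L8 L9 N c1 c2 c3 c4 c5 c6 c7 c8 c9 : ℕ}
    {e1 e2 e3 e4 e5 e6 e7 e8 e9 : ℤ}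
    (hN : N = C0 * (L1 + (L2 + L3) + (L4 + (L5 + L6)) + (L7 + (L8 + L9))))
    (k1 : (c1 : ℤ) = e1 + (C0 : ℕ)) (k2 : (c2 : ℤ) = e2 + (C0 : ℕ)) (k3 : (c3 : ℤ) = e3 + (C0 : ℕ))
    (k4 : (c4 : ℤ) = e4 + (C0 : ℕ)) (k5 : (c5 : ℤ) = e5 + (C0 : ℕ)) (k6 : (c6 : ℤ) = e6 + (C0 : ℕ))
    (k7 : (c7 : ℤ) = e7 + (C0 : ℕ)) (k8 : (c8 : ℤ) = e8 + (C0 : ℕ)) (k9 : (c9 : ℤ) = e9 + (C0 : ℕ))
    (h : tlF L1 L2 L3 L4 L5 L6 L7 L8 L9 N c1 c2 c3 c4 c5 c6 c7 c8 c9 = true) :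
    tstF (e1 * L1 + e2 * L2 + e3 * L3 + e4 * L4 + e5 * L5 + e6 * L6 + e7 * L7 + e8 * L8 +
      e9 * L9) = true := by
  refine tstF_of (a := c1 * L1 + (c2 * L2 + c3 * L3) + (c4 * L4 + (c5 * L5 + (c6 * L6 +
    (c7 * L7 + (c8 * L8 + (c9 * L9 + OFFF))))))) (b := N) h ?_
  rw [hN]
  push_cast
  rw [k1, k2, k3, k4, k5, k6, k7, k8, k9]
  ring

theorem zf_cast {a b : ℕ} (h : Nat.ble b ZF = true) : ((zf a b : ℕ) : ℤ) = ((a : ℤ) - b) + (ZF : ℕ) := by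
  have h1 := Nat.le_of_ble_eq_true h
  have h2 : zf a b = ZF + a - b := rfl
  rw [h2, Nat.cast_sub (h1.trans (Nat.le_add_right _ _))]
  push_cast
  ring

theorem zf_cast0 (a : ℕ) : ((zf a 0 : ℕ) : ℤ) = (a : ℤ) + (ZF : ℕ) := by
  have h2 : zf a 0 = ZF + a := rfl
  rw [h2]
  push_cast
  ring

theorem q3_cast (a b c : ℕ) : ((q3 a b c : ℕ) : ℤ) = p3 a b c := by
  have h : q3 a b c = a + (b * tf 1 + c * tf 3) := rfl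
  have h' : p3 a b c = (a : ℤ) + ((b : ℤ) * ((tf 1 : ℕ) : ℤ) + (c : ℤ) * ((tf 3 : ℕ) : ℤ)) := rfl
  rw [h, h']
  push_cast
  ring

theorem qT_cast (a b : ℕ) : ((qT a b : ℕ) : ℤ) = pT a b := by
  have h : qT a b = a + b * tf 7 := rfl
  have h' : pT a b = (a : ℤ) + (b : ℤ) * ((tf 7 : ℕ) : ℤ) := rfl
  rw [h, h']
  push_cast
  ring

theorem qG_cast (a b c : ℕ) : ((qG a b c : ℕ) : ℤ) = pG a b c := by
  have h : qG a b c = a + (b * tf 21 + c * tf 63) := rfl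
  have h' : pG a b c = (a : ℤ) + ((b : ℤ) * ((tf 21 : ℕ) : ℤ) + (c : ℤ) * ((tf 63 : ℕ) : ℤ)) := rfl
  rw [h, h']
  push_cast
  ring

theorem p3_sub (a b c a' b' c' : ℤ) : p3 (a - a') (b - b') (c - c') = p3 a b c - p3 a' b' c' := by
  rw [p3_eq, p3_eq, p3_eq]
  ring

theorem p3_add (a b c a' b' c' : ℤ) : p3 (a + a') (b + b') (c + c') = p3 a b c + p3 a' b' c' := by
  rw [p3_eq, p3_eq, p3_eq]
  ring

theorem get_nF (W0 X0 Y0 W1 X1 Y1 W2 X2 Y2 : ℕ) (i : ℕ) :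
    get (pvF (nC 1 W0 X0 Y0) (nC 1 W1 X1 Y1) (nC 1 W2 X2 Y2)) i =
      p3 X0 X1 X2 * get ⟨1, -1, 0, 0⟩ i + p3 Y0 Y1 Y2 * get ⟨1, 0, -1, 0⟩ i +
      p3 W0 W1 W2 * get ⟨-1, 0, 0, 1⟩ i := by
  match i with
  | 0 =>
    show p3 (Int.subNatNat (X0 + Y0) W0) (Int.subNatNat (X1 + Y1) W1) (Int.subNatNat (X2 + Y2) W2) =
      p3 X0 X1 X2 * 1 + p3 Y0 Y1 Y2 * 1 + p3 W0 W1 W2 * (-1)
    rw [sn, sn, sn, p3_sub]
    push_cast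
    rw [p3_add]
    ring
  | 1 =>
    show p3 (Int.subNatNat 0 X0) (Int.subNatNat 0 X1) (Int.subNatNat 0 X2) =
      p3 X0 X1 X2 * (-1) + p3 Y0 Y1 Y2 * 0 + p3 W0 W1 W2 * 0
    rw [sn, sn, sn, p3_sub, p3_eq ((0 : ℕ) : ℤ)]
    push_cast
    ring
  | 2 =>
    show p3 (Int.subNatNat 0 Y0) (Int.subNatNat 0 Y1) (Int.subNatNat 0 Y2) =
      p3 X0 X1 X2 * 0 + p3 Y0 Y1 Y2 * (-1) + p3 W0 W1 W2 * 0
    rw [sn, sn, sn, p3_sub, p3_eq ((0 : ℕ) : ℤ)]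
    push_cast
    ring
  | n + 3 =>
    show p3 (Int.ofNat W0) (Int.ofNat W1) (Int.ofNat W2) =
      p3 X0 X1 X2 * 0 + p3 Y0 Y1 Y2 * 0 + p3 W0 W1 W2 * 1
    have e : p3 (Int.ofNat W0) (Int.ofNat W1) (Int.ofNat W2) = p3 W0 W1 W2 := rfl
    rw [e]
    ring

theorem get_pF (W0 X0 W1 X1 W2 X2 : ℕ) (i : ℕ) :
    get (pvF (pC 1 W0 X0) (pC 1 W1 X1) (pC 1 W2 X2)) i =
      (-p3 W0 W1 W2) * get ⟨0, 1, 0, 0⟩ i + (-p3 X0 X1 X2) * get (sC 1) i := by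
  match i with
  | 0 =>
    show p3 0 0 0 = (-p3 W0 W1 W2) * 0 + (-p3 X0 X1 X2) * 0
    rw [p3_eq 0 0 0]
    ring
  | 1 =>
    show p3 (Int.subNatNat 0 W0) (Int.subNatNat 0 W1) (Int.subNatNat 0 W2) =
      (-p3 W0 W1 W2) * 1 + (-p3 X0 X1 X2) * 0
    rw [sn, sn, sn, p3_sub, p3_eq ((0 : ℕ) : ℤ)]
    push_cast
    ring
  | 2 =>
    show p3 0 0 0 = (-p3 W0 W1 W2) * 0 + (-p3 X0 X1 X2) * 0
    rw [p3_eq 0 0 0]
    ring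
  | n + 3 =>
    show p3 (Int.subNatNat 0 X0) (Int.subNatNat 0 X1) (Int.subNatNat 0 X2) =
      (-p3 W0 W1 W2) * 0 + (-p3 X0 X1 X2) * 1
    rw [sn, sn, sn, p3_sub, p3_eq ((0 : ℕ) : ℤ)]
    push_cast
    ring

theorem get_qF (W0 Y0 W1 Y1 W2 Y2 : ℕ) (i : ℕ) :
    get (pvF (qC 1 W0 Y0) (qC 1 W1 Y1) (qC 1 W2 Y2)) i =
      (-p3 W0 W1 W2) * get ⟨0, 0, 1, 0⟩ i + (-p3 Y0 Y1 Y2) * get (sC 1) i := by
  match i with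
  | 0 =>
    show p3 0 0 0 = (-p3 W0 W1 W2) * 0 + (-p3 Y0 Y1 Y2) * 0
    rw [p3_eq 0 0 0]
    ring
  | 1 =>
    show p3 0 0 0 = (-p3 W0 W1 W2) * 0 + (-p3 Y0 Y1 Y2) * 0
    rw [p3_eq 0 0 0]
    ring
  | 2 =>
    show p3 (Int.subNatNat 0 W0) (Int.subNatNat 0 W1) (Int.subNatNat 0 W2) =
      (-p3 W0 W1 W2) * 1 + (-p3 Y0 Y1 Y2) * 0
    rw [sn, sn, sn, p3_sub, p3_eq ((0 : ℕ) : ℤ)]
    push_cast
    ring
  | n + 3 =>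
    show p3 (Int.subNatNat 0 Y0) (Int.subNatNat 0 Y1) (Int.subNatNat 0 Y2) =
      (-p3 W0 W1 W2) * 0 + (-p3 Y0 Y1 Y2) * 1
    rw [sn, sn, sn, p3_sub, p3_eq ((0 : ℕ) : ℤ)]
    push_cast
    ring

/-- the packed quantities of a cell of the flag chart -/
structure PkS (W X Y V T K A R : ℕ) (x : Ss) : Prop where
  W : W = q3 x.p0.W x.p1.W x.p2.W
  X : X = q3 x.p0.X x.p1.X x.p2.X
  Y : Y = q3 x.p0.Y x.p1.Y x.p2.Y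
  V : V = qT x.t0.V x.t1.V
  T : T = qT x.t0.T x.t1.T
  K : K = qG x.u0.k x.u1.k x.u2.k
  A : A = qG x.u0.al x.u1.al x.u2.al
  R : R = qG x.u0.rho x.u1.rho x.u2.rho

/-- casts of the packed quantities -/
structure CaS (W X Y V T K A R : ℕ) (x : Ss) : Prop where
  cW : p3 (Int.ofNat x.s.p0.W) (Int.ofNat x.s.p1.W) (Int.ofNat x.s.p2.W) = (W : ℤ)
  cW' : p3 x.p0.W x.p1.W x.p2.W = (W : ℤ)
  cX : p3 x.p0.X x.p1.X x.p2.X = (X : ℤ)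
  cY : p3 x.p0.Y x.p1.Y x.p2.Y = (Y : ℤ)
  cV : pT (Int.ofNat x.s.t0.V) (Int.ofNat x.s.t1.V) = (V : ℤ)
  cT : pT x.s.t0.T x.s.t1.T = (T : ℤ) - V
  cK : pG (Int.ofNat x.s.u0.k) (Int.ofNat x.s.u1.k) (Int.ofNat x.s.u2.k) = (K : ℤ)
  cA : pG (Int.ofNat x.s.u0.al) (Int.ofNat x.s.u1.al) (Int.ofNat x.s.u2.al) = (A : ℤ)
  cR : pG (Int.ofNat x.s.u0.rho) (Int.ofNat x.s.u1.rho) (Int.ofNat x.s.u2.rho) = (R : ℤ)

theorem PkS.ca {W X Y V T K A R : ℕ} {x : Ss} (h : PkS W X Y V T K A R x) :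
    CaS W X Y V T K A R x := by
  have cW : ((W : ℕ) : ℤ) = p3 x.p0.W x.p1.W x.p2.W := by rw [h.W, q3_cast]
  have cX : ((X : ℕ) : ℤ) = p3 x.p0.X x.p1.X x.p2.X := by rw [h.X, q3_cast]
  have cY : ((Y : ℕ) : ℤ) = p3 x.p0.Y x.p1.Y x.p2.Y := by rw [h.Y, q3_cast]
  have cV : ((V : ℕ) : ℤ) = pT x.t0.V x.t1.V := by rw [h.V, qT_cast]
  have cT : ((T : ℕ) : ℤ) = pT x.t0.T x.t1.T := by rw [h.T, qT_cast]
  have cK : ((K : ℕ) : ℤ) = pG x.u0.k x.u1.k x.u2.k := by rw [h.K, qG_cast]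
  have cA : ((A : ℕ) : ℤ) = pG x.u0.al x.u1.al x.u2.al := by rw [h.A, qG_cast]
  have cR : ((R : ℕ) : ℤ) = pG x.u0.rho x.u1.rho x.u2.rho := by rw [h.R, qG_cast]
  refine ⟨cW.symm, cW.symm, cX.symm, cY.symm, cV.symm, ?_, cK.symm, cA.symm, cR.symm⟩
  show pT (Int.subNatNat x.t0.T x.t0.V) (Int.subNatNat x.t1.T x.t1.V) = _
  rw [sn, sn, cV, cT, pT_eq, pT_eq, pT_eq]
  ring

/-- the test of a linear condition is the packed one -/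
theorem lS_ok {s0 s1 s2 s3 : ℕ} {m g : V4} {c1 c2 c3 c4 c5 c6 c7 c8 c9 : ℕ}
    (he : encS s0 s1 s2 s3 (.l m g) (.l c1 c2 c3 c4 c5 c6 c7 c8 c9) = true) {x : Ss}
    {W X Y V T K A R : ℕ} (hp : PkS W X Y V T K A R x) {L1 L2 L3 L4 L5 L6 L7 L8 L9 : ℕ}
    (g1 : L1 = K * (V * V) * (X * X)) (g2 : L2 = K * (V * V) * (X * Y))
    (g3 : L3 = K * (V * V) * (Y * Y)) (g4 : L4 = K * (V * V) * (W * X))
    (g5 : L5 = K * (V * V) * (W * Y)) (g6 : L6 = K * (V * V) * (W * W))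
    (g7 : L7 = A * (W * W) * (V * V)) (g8 : L8 = A * (W * W) * (T * T) + R * (W * W) * (V * V))
    (g9 : L9 = A * (W * W) * (V * T))
    (h : tlF L1 L2 L3 L4 L5 L6 L7 L8 L9
      (C0 * (L1 + (L2 + L3) + (L4 + (L5 + L6)) + (L7 + (L8 + L9)))) c1 c2 c3 c4 c5 c6 c7 c8 c9 = true) :
    linF m g (prm s0 s1 s2 s3 (pvF (nC 1 x.s.p0.W x.s.p0.X x.s.p0.Y)
        (nC 1 x.s.p1.W x.s.p1.X x.s.p1.Y) (nC 1 x.s.p2.W x.s.p2.X x.s.p2.Y)))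
      (prm s0 s1 s2 s3 dC) (prm s0 s1 s2 s3 (eC 1))
      (pG (Int.ofNat x.s.u0.k) (Int.ofNat x.s.u1.k) (Int.ofNat x.s.u2.k))
      (pG (Int.ofNat x.s.u0.al) (Int.ofNat x.s.u1.al) (Int.ofNat x.s.u2.al))
      (pG (Int.ofNat x.s.u0.rho) (Int.ofNat x.s.u1.rho) (Int.ofNat x.s.u2.rho))
      (Int.mul (p3 (Int.ofNat x.s.p0.W) (Int.ofNat x.s.p1.W) (Int.ofNat x.s.p2.W))
        (p3 (Int.ofNat x.s.p0.W) (Int.ofNat x.s.p1.W) (Int.ofNat x.s.p2.W)))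
      (pT (Int.ofNat x.s.t0.V) (Int.ofNat x.s.t1.V)) (pT x.s.t0.T x.s.t1.T)
      (Int.mul (pT (Int.ofNat x.s.t0.V) (Int.ofNat x.s.t1.V))
        (pT (Int.ofNat x.s.t0.V) (Int.ofNat x.s.t1.V))) = true := by
  obtain ⟨e1, e2, e3, e4, e5, e6, e7, e8, e9⟩ := encL_iff he
  have ca := hp.ca
  have h1 := tlF_tst rfl e1 e2 e3 e4 e5 e6 e7 e8 e9 h
  unfold linF yp
  refine Eq.trans (congrArg tstF ?_) h1
  have eF : ∀ a b c v d p q e f r s w : ℤ, Int.add (Int.mul (Int.mul a (Int.mul b c)) v)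
    (Int.add (Int.mul (Int.mul d (Int.mul (Int.add (Int.mul p e) (Int.mul q r))
      (Int.add (Int.mul p f) (Int.mul q s)))) w) (Int.mul (Int.mul a (Int.mul r s)) (Int.mul w v))) =
      (a * (b * c)) * v + ((d * ((p * e + q * r) * (p * f + q * s))) * w + (a * (r * s)) * (w * v)) :=
    fun _ _ _ _ _ _ _ _ _ _ _ _ => rfl
  have ia : ∀ a b : ℤ, Int.add a b = a + b := fun _ _ => rfl
  have im : ∀ a b : ℤ, Int.mul a b = a * b := fun _ _ => rfl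
  have is' : ∀ a b : ℤ, Int.sub a b = a - b := fun _ _ => rfl
  have d5 : dot m (prm s0 s1 s2 s3 dC) = dz s0 s1 s2 s3 m dC := rfl
  have d6 : dot g (prm s0 s1 s2 s3 dC) = dz s0 s1 s2 s3 g dC := rfl
  have d7 : dot m (prm s0 s1 s2 s3 (eC 1)) = dz s0 s1 s2 s3 m (eC 1) := rfl
  have d8 : dot g (prm s0 s1 s2 s3 (eC 1)) = dz s0 s1 s2 s3 g (eC 1) := rfl
  rw [ca.cW, ca.cV, ca.cT, ca.cK, ca.cA, ca.cR, d5, d6, d7, d8, dot_lin3 m (get_nF _ _ _ _ _ _ _ _ _),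
    dot_lin3 g (get_nF _ _ _ _ _ _ _ _ _)]
  have x1 : p3 x.s.p0.X x.s.p1.X x.s.p2.X = (X : ℤ) := ca.cX
  have x2 : p3 x.s.p0.Y x.s.p1.Y x.s.p2.Y = (Y : ℤ) := ca.cY
  have x3 : p3 x.s.p0.W x.s.p1.W x.s.p2.W = (W : ℤ) := ca.cW'
  rw [x1, x2, x3, g1, g2, g3, g4, g5, g6, g7, g8, g9]
  simp only [ia, im, is']
  push_cast
  ring

/-- the test of a quadratic condition is the packed one -/
theorem qS_ok {s0 s1 s2 s3 : ℕ} {v w : V4} {c1 c2 c3 c4 c5 c6 s : ℕ}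
    (he : encS s0 s1 s2 s3 (.q v w) (.q c1 c2 c3 c4 c5 c6 s) = true) {x : Ss}
    {W X Y V T K A R n1 n2 n4 : ℕ} (hp : PkS W X Y V T K A R x)
    (h1 : n1 = 2 * (K * A * (V * T) * (X * X + X * Y)))
    (h2 : n2 = K * A * (V * T) * (W * X + W * Y))
    (h4 : n4 = K * A * (V * V) * (W * X + W * Y))
    (b1 : Nat.ble n1 ZF = true) (b2 : Nat.ble n2 ZF = true) (b4 : Nat.ble n4 ZF = true)
    {M1 M2 M3 M4 M5 M6 : ℕ}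
    (g1 : M1 = zf (A * R * (V * V) * (W * W) + ((K * R * (V * V) + K * A * (T * T)) * (X * X) +
      K * A * (V * V) * (X * X + (2 * (X * Y) + Y * Y)))) n1)
    (g2 : M2 = zf ((K * R * (V * V) + K * A * (T * T)) * (W * X)) n2)
    (g3 : M3 = (K * R * (V * V) + K * A * (T * T)) * (W * W))
    (g4 : M4 = zf (K * A * (V * T) * (W * X)) n4)
    (g5 : M5 = K * A * (V * V) * (W * W))
    (g6 : M6 = zf (K * A * (V * T) * (W * W)) 0)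
    (h : tqF M1 M2 M3 M4 M5 M6 (C0 * (M1 + (M2 + M3) + (M4 + (M5 + M6))))
      c1 c2 c3 c4 c5 c6 s = true) :
    quaF v w (prm s0 s1 s2 s3 (sC 1))
      (prm s0 s1 s2 s3 (pvF (pC 1 x.s.p0.W x.s.p0.X) (pC 1 x.s.p1.W x.s.p1.X)
        (pC 1 x.s.p2.W x.s.p2.X)))
      (prm s0 s1 s2 s3 (pvF (qC 1 x.s.p0.W x.s.p0.Y) (qC 1 x.s.p1.W x.s.p1.Y)
        (qC 1 x.s.p2.W x.s.p2.Y)))
      (Int.mul (pG (Int.ofNat x.s.u0.al) (Int.ofNat x.s.u1.al) (Int.ofNat x.s.u2.al))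
        (pG (Int.ofNat x.s.u0.rho) (Int.ofNat x.s.u1.rho) (Int.ofNat x.s.u2.rho)))
      (Int.mul (pG (Int.ofNat x.s.u0.k) (Int.ofNat x.s.u1.k) (Int.ofNat x.s.u2.k))
        (pG (Int.ofNat x.s.u0.rho) (Int.ofNat x.s.u1.rho) (Int.ofNat x.s.u2.rho)))
      (Int.mul (pG (Int.ofNat x.s.u0.k) (Int.ofNat x.s.u1.k) (Int.ofNat x.s.u2.k))
        (pG (Int.ofNat x.s.u0.al) (Int.ofNat x.s.u1.al) (Int.ofNat x.s.u2.al)))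
      (Int.mul (p3 (Int.ofNat x.s.p0.W) (Int.ofNat x.s.p1.W) (Int.ofNat x.s.p2.W))
        (p3 (Int.ofNat x.s.p0.W) (Int.ofNat x.s.p1.W) (Int.ofNat x.s.p2.W)))
      (pT (Int.ofNat x.s.t0.V) (Int.ofNat x.s.t1.V)) (pT x.s.t0.T x.s.t1.T)
      (Int.mul (pT (Int.ofNat x.s.t0.V) (Int.ofNat x.s.t1.V))
        (pT (Int.ofNat x.s.t0.V) (Int.ofNat x.s.t1.V))) = true := by
  obtain ⟨e1, e2, e3, e4, e5, e6, es⟩ := encQ_iff he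
  have ca := hp.ca
  rw [g1, g2, g4, g6] at h
  have k1 := tqF_tst (zf_cast b1) (zf_cast b2) rfl (zf_cast b4) rfl (zf_cast0 _) rfl
    e1 e2 e3 e4 e5 e6 es h
  unfold quaF yz
  refine Eq.trans (congrArg tstF ?_) k1
  have ia : ∀ a b : ℤ, Int.add a b = a + b := fun _ _ => rfl
  have im : ∀ a b : ℤ, Int.mul a b = a * b := fun _ _ => rfl
  have is' : ∀ a b : ℤ, Int.sub a b = a - b := fun _ _ => rfl
  have ing : ∀ a : ℤ, Int.neg a = -a := fun _ => rfl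
  have d5 : dot v (prm s0 s1 s2 s3 (sC 1)) = dz s0 s1 s2 s3 v (sC 1) := rfl
  have d6 : dot w (prm s0 s1 s2 s3 (sC 1)) = dz s0 s1 s2 s3 w (sC 1) := rfl
  have x1 : p3 x.s.p0.X x.s.p1.X x.s.p2.X = (X : ℤ) := ca.cX
  have x2 : p3 x.s.p0.Y x.s.p1.Y x.s.p2.Y = (Y : ℤ) := ca.cY
  have x3 : p3 x.s.p0.W x.s.p1.W x.s.p2.W = (W : ℤ) := ca.cW'
  rw [ca.cW, ca.cV, ca.cT, ca.cK, ca.cA, ca.cR, d5, d6, dot_lin2 v (get_pF _ _ _ _ _ _),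
    dot_lin2 w (get_pF _ _ _ _ _ _), dot_lin2 v (get_qF _ _ _ _ _ _),
    dot_lin2 w (get_qF _ _ _ _ _ _), x1, x2, x3, g3, g5, h1, h2, h4]
  simp only [ia, im, is', ing]
  push_cast
  ring

end Pool.Agent.TET.Cvr
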