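import Pool.Agent.Helper38_TET.Cov
import Pool.Agent.Helper37_TET.ChkA

/-!
# MP_c7c9bf_co: soundness of the packed comparisons with two corners
-/

set_option autoImplicit false

namespace Pool.Agent.TET.A

/-- one field of `dot4 f (yq K c)` -/
def gfl (m : ℕ) (f : Q) (c : Cn) (n : ℕ × ℕ × ℕ) : ℕ :=
  (f.a * fld m c.x.a c.y.a c.z.a n + f.b * fld m c.x.b c.y.b c.z.b n) +
    (f.c * fld m c.x.c c.y.c c.z.c n + f.d * fld m c.x.d c.y.d c.z.d n)

theorem dyq_eq {K : Kc} (hK : K.Ok) (f : Q) {c : Cn} (hx : sumQ c.x = 983040)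
    (hy : sumQ c.y = 983040) (hz : sumQ c.z = 983040) :
    dot4 f (yq K c) = pack ((cube K.m).map (gfl K.m f c)) := by
  obtain ⟨x1, x2, x3, x4⟩ := le_sum c.x
  obtain ⟨y1, y2, y3, y4⟩ := le_sum c.y
  obtain ⟨w1, w2, w3, w4⟩ := le_sum c.z
  rw [hx] at x1 x2 x3 x4
  rw [hy] at y1 y2 y3 y4
  rw [hz] at w1 w2 w3 w4
  have h1 : dot4 f (yq K c) =
      ((f.a * yy K c.x.a c.y.a c.z.a + f.b * yy K c.x.b c.y.b c.z.b) +
      (f.c * yy K c.x.c c.y.c c.z.c + f.d * yy K c.x.d c.y.d c.z.d)) := rfl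
  rw [h1, yy_eq hK x1 y1 w1, yy_eq hK x2 y2 w2, yy_eq hK x3 y3 w3, yy_eq hK x4 y4 w4,
    ← pack_mul, ← pack_mul, ← pack_mul, ← pack_mul, ← pack_add, ← pack_add, ← pack_add]
  rfl

theorem gfl_val {f : Q} (hf : sumQ f = 16384) {c : Cn} (hx : sumQ c.x = 983040)
    (hy : sumQ c.y = 983040) (hz : sumQ c.z = 983040) {m : ℕ} {n : ℕ × ℕ × ℕ}
    (hn : n ∈ cube m) :
    ((gfl m f c n : ℕ) : ℤ) = val f c m n + 36238786560 * m ∧
      |val f c m n| ≤ 36238786560 * m := by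
  obtain ⟨ha, hb, hc⟩ := mem_cube.1 hn
  obtain ⟨x1, x2, x3, x4⟩ := le_sum c.x
  obtain ⟨y1, y2, y3, y4⟩ := le_sum c.y
  obtain ⟨w1, w2, w3, w4⟩ := le_sum c.z
  rw [hx] at x1 x2 x3 x4
  rw [hy] at y1 y2 y3 y4
  rw [hz] at w1 w2 w3 w4
  obtain ⟨-, a2, a3⟩ := fld_aux ha hb hc x1 y1 w1
  obtain ⟨-, b2, b3⟩ := fld_aux ha hb hc x2 y2 w2
  obtain ⟨-, c2, c3⟩ := fld_aux ha hb hc x3 y3 w3
  obtain ⟨-, d2, d3⟩ := fld_aux ha hb hc x4 y4 w4
  have hs : (f.a : ℤ) + f.b + (f.c + f.d) = 16384 := by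
    have h : (f.a + f.b) + (f.c + f.d) = 16384 := hf
    exact_mod_cast h
  constructor
  · unfold gfl fld val
    rw [Nat.cast_add, Nat.cast_add, Nat.cast_add, Nat.cast_mul, Nat.cast_mul, Nat.cast_mul,
      Nat.cast_mul, a2, b2, c2, d2]
    linear_combination (2211840 * (m : ℤ)) * hs
  · have q5 : (f.a : ℤ) * (2211840 * m) + f.b * (2211840 * m) + f.c * (2211840 * m) +
        f.d * (2211840 * m) = 36238786560 * m := by
      linear_combination (2211840 * (m : ℤ)) * hs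
    rw [abs_le]
    constructor
    · unfold val
      have q1 := mul_le_mul_of_nonneg_left (abs_le.1 a3).1 (Int.natCast_nonneg f.a)
      have q2 := mul_le_mul_of_nonneg_left (abs_le.1 b3).1 (Int.natCast_nonneg f.b)
      have q3 := mul_le_mul_of_nonneg_left (abs_le.1 c3).1 (Int.natCast_nonneg f.c)
      have q4 := mul_le_mul_of_nonneg_left (abs_le.1 d3).1 (Int.natCast_nonneg f.d)
      linarith
    · unfold val
      have q1 := mul_le_mul_of_nonneg_left (abs_le.1 a3).2 (Int.natCast_nonneg f.a)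
      have q2 := mul_le_mul_of_nonneg_left (abs_le.1 b3).2 (Int.natCast_nonneg f.b)
      have q3 := mul_le_mul_of_nonneg_left (abs_le.1 c3).2 (Int.natCast_nonneg f.c)
      have q4 := mul_le_mul_of_nonneg_left (abs_le.1 d3).2 (Int.natCast_nonneg f.d)
      linarith

/-- one field of `z2` -/
def zfl2 (K : Kc) (f g : Q) (Bi Ci Bj Cj : Bd) (c d : Cn) (n : ℕ × ℕ × ℕ) : ℕ :=
  (gfl K.m f d n + gfl K.m g c n) + (kk K + lo2 f g Bj Cj - hi2 f g Bi Ci)

theorem z2_eq {K : Kc} (hK : K.Ok) (f g : Q) (Bi Ci Bj Cj : Bd) {c d : Cn}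
    (hx : sumQ c.x = 983040) (hy : sumQ c.y = 983040) (hz : sumQ c.z = 983040)
    (hx' : sumQ d.x = 983040) (hy' : sumQ d.y = 983040) (hz' : sumQ d.z = 983040) :
    z2 K f g Bi Ci Bj Cj c d = pack ((cube K.m).map (zfl2 K f g Bi Ci Bj Cj c d)) := by
  have h1 : z2 K f g Bi Ci Bj Cj c d = (dot4 f (yq K d) + dot4 g (yq K c)) +
      (kk K + lo2 f g Bj Cj - hi2 f g Bi Ci) * K.one := rfl
  rw [h1, dyq_eq hK f hx' hy' hz', dyq_eq hK g hx hy hz, hK.one, ← pack_mul, ← pack_add,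
    ← pack_add]
  congr 1
  refine List.map_congr_left fun n _ => ?_
  unfold zfl2
  rw [mul_one]

theorem hi2_le {f g : Q} {B C : Bd} (hf : sumQ f = 16384) (hg : sumQ g = 16384)
    (hB : okB B = true) (hC : okB C = true) :
    hi2 f g B C ≤ 33218887680 ∧ lo2 f g B C ≤ 33218887680 := by
  obtain ⟨b1, b2, b3, b4⟩ := okB_iff hB
  obtain ⟨c1, c2, c3, c4⟩ := okB_iff hC
  have e1 := dot4_le hf c1.le
  have e2 := dot4_le hf c2.le
  have e3 := dot4_le hf c3.le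
  have e4 := dot4_le hf c4.le
  have g1 := dot4_le hg b1.le
  have g2 := dot4_le hg b2.le
  have g3 := dot4_le hg b3.le
  have g4 := dot4_le hg b4.le
  have a1 : Nat.add (dot4 f C.p) (dot4 g B.p) = dot4 f C.p + dot4 g B.p := rfl
  have a2 : Nat.add (dot4 f C.q) (dot4 g B.q) = dot4 f C.q + dot4 g B.q := rfl
  have a3 : Nat.add (dot4 f C.r) (dot4 g B.r) = dot4 f C.r + dot4 g B.r := rfl
  have a4 : Nat.add (dot4 f C.s) (dot4 g B.s) = dot4 f C.s + dot4 g B.s := rfl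
  unfold hi2 lo2
  simp only [nmax_eq, nmin_eq, a1, a2, a3, a4]
  constructor
  · omega
  · omega

theorem le_hi2 (f g : Q) (B C : Bd) (m : Fin 4) :
    dot4 f (vx C m) + dot4 g (vx B m) ≤ hi2 f g B C := by
  unfold hi2
  simp only [nmax_eq]
  fin_cases m
  · exact le_max_of_le_left (le_max_left _ _)
  · exact le_max_of_le_left (le_max_right _ _)
  · exact le_max_of_le_right (le_max_left _ _)
  · exact le_max_of_le_right (le_max_right _ _)

theorem lo2_le (f g : Q) (B C : Bd) (m : Fin 4) :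
    lo2 f g B C ≤ dot4 f (vx C m) + dot4 g (vx B m) := by
  unfold lo2
  simp only [nmin_eq]
  fin_cases m
  · exact min_le_of_left_le (min_le_left _ _)
  · exact min_le_of_left_le (min_le_right _ _)
  · exact min_le_of_right_le (min_le_left _ _)
  · exact min_le_of_right_le (min_le_right _ _)

theorem bit_z2 {K : Kc} (hK : K.Ok) (hm3 : K.m ≤ 3) {f g : Q} (hf : sumQ f = 16384)
    (hg : sumQ g = 16384) {Bi Ci Bj Cj : Bd} {c d : Cn}
    (hx : sumQ c.x = 983040) (hy : sumQ c.y = 983040) (hz : sumQ c.z = 983040)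
    (hx' : sumQ d.x = 983040) (hy' : sumQ d.y = 983040) (hz' : sumQ d.z = 983040)
    (hi1 : hi2 f g Bi Ci ≤ 33218887680) (hj1 : lo2 f g Bj Cj ≤ 33218887680) (p : ℕ)
    (hp : p < (cube K.m).length)
    (hb : (z2 K f g Bi Ci Bj Cj c d).testBit (40 * p + 39) = true) :
    (hi2 f g Bi Ci : ℤ) ≤ lo2 f g Bj Cj + (val f d K.m ((cube K.m)[p]) +
      val g c K.m ((cube K.m)[p])) := by
  have key : ∀ n ∈ cube K.m, zfl2 K f g Bi Ci Bj Cj c d n < 2 ^ 40 ∧
      ((zfl2 K f g Bi Ci Bj Cj c d n : ℕ) : ℤ) = (val f d K.m n + val g c K.m n) +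
        549755813888 + lo2 f g Bj Cj - hi2 f g Bi Ci := by
    intro n hn
    obtain ⟨v1, v2⟩ := gfl_val hf hx' hy' hz' hn
    obtain ⟨v3, v4⟩ := gfl_val hg hx hy hz hn
    have hk1 : kk K = 549755813888 - 72477573120 * K.m := rfl
    have hk2 : ((kk K : ℕ) : ℤ) = 549755813888 - 72477573120 * K.m := by
      rw [hk1]
      push_cast [Nat.cast_sub (show 72477573120 * K.m ≤ 549755813888 by omega)]
      ring
    have hk3 : hi2 f g Bi Ci ≤ kk K + lo2 f g Bj Cj := by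
      rw [hk1]
      omega
    have e1 : ((zfl2 K f g Bi Ci Bj Cj c d n : ℕ) : ℤ) = (val f d K.m n + val g c K.m n) +
        549755813888 + lo2 f g Bj Cj - hi2 f g Bi Ci := by
      unfold zfl2
      rw [Nat.cast_add, Nat.cast_sub hk3, Nat.cast_add (kk K), hk2, Nat.cast_add, v1, v3]
      ring
    refine ⟨?_, e1⟩
    have e2 : ((zfl2 K f g Bi Ci Bj Cj c d n : ℕ) : ℤ) < 2 ^ 40 := by
      rw [e1]
      have g1 := (abs_le.1 v2).2
      have g2 := (abs_le.1 v4).2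
      have g3 : (K.m : ℤ) ≤ 3 := by exact_mod_cast hm3
      have g4 : (lo2 f g Bj Cj : ℤ) ≤ 33218887680 := by exact_mod_cast hj1
      have g5 : (0 : ℤ) ≤ hi2 f g Bi Ci := Int.natCast_nonneg _
      norm_num
      linarith
    exact_mod_cast e2
  rw [z2_eq hK f g Bi Ci Bj Cj hx hy hz hx' hy' hz',
    pack_testBit _ _ p (by rw [List.length_map]; exact hp), List.getElem_map] at hb
  · obtain ⟨h1, h2⟩ := key _ (List.getElem_mem hp)
    rw [testBit_39 _ h1, decide_eq_true_eq] at hb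
    have h3 : (549755813888 : ℤ) ≤
        ((zfl2 K f g Bi Ci Bj Cj c d ((cube K.m)[p]) : ℕ) : ℤ) := by
      exact_mod_cast hb
    rw [h2] at h3
    linarith
  · intro z hz
    obtain ⟨n, hn, rfl⟩ := List.mem_map.1 hz
    exact (key n hn).1

/-! ### real form -/

/-- the value at one corner -/
theorem real1 {K : Kc} (hK : K.Ok) {f : Q} (hf : sumQ f = 16384) {Bi Bj : Bd}
    (hBi : okB Bi = true) (hBj : okB Bj = true) {c : Cn}
    (hx : sumQ c.x = 983040) (hy : sumQ c.y = 983040) (hz : sumQ c.z = 983040) (p : ℕ)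
    (hp : p < (cube K.m).length) (hb : (z1 K f Bi Bj c).testBit (40 * p + 39) = true)
    (k : Fin 3 → ℤ) (h0 : k 0 = (((cube K.m)[p]).1 : ℤ) - K.m)
    (h1 : k 1 = (((cube K.m)[p]).2.1 : ℤ) - K.m)
    (h2 : k 2 = (((cube K.m)[p]).2.2 : ℤ) - K.m) (m m' : Fin 4) :
    fn f ⬝ᵥ vec (vx Bi m) ≤
      fn f ⬝ᵥ (vec (vx Bj m') + ∑ a, (k a : ℝ) • vec (ux c a)) := by
  obtain ⟨a1, a2, a3, a4⟩ := okB_iff hBi
  obtain ⟨b1, b2, b3, b4⟩ := okB_iff hBj
  have h7 := bit_z1 hK hf hx hy hz (hi_le hf a1 a2 a3 a4).1 (hi_le hf b1 b2 b3 b4).2 p hp hb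
  have h8 : (dot4 f (vx Bi m) : ℝ) ≤ dot4 f (vx Bj m') +
      ((val f c K.m ((cube K.m)[p]) : ℤ) : ℝ) := by
    have e1 : (dot4 f (vx Bi m) : ℤ) ≤ hi f Bi := by exact_mod_cast le_hi _ _ _
    have e2 : (lo f Bj : ℤ) ≤ dot4 f (vx Bj m') := by exact_mod_cast lo_le _ _ _
    have e3 : (dot4 f (vx Bi m) : ℤ) ≤ dot4 f (vx Bj m') +
      val f c K.m ((cube K.m)[p]) := by linarith
    exact_mod_cast e3
  rw [dot4_real hf (okB_vx hBi m), dot4_real hf (okB_vx hBj m'),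
    val_real hf hx hy hz K.m _ k h0 h1 h2] at h8
  rw [dotProduct_add]
  linarith

/-- the value at a pair of corners -/
theorem real2 {K : Kc} (hK : K.Ok) (hm3 : K.m ≤ 3) {f g : Q} (hf : sumQ f = 16384)
    (hg : sumQ g = 16384) {Bi Ci Bj Cj : Bd} (hBi : okB Bi = true) (hCi : okB Ci = true)
    (hBj : okB Bj = true) (hCj : okB Cj = true) {c d : Cn}
    (hx : sumQ c.x = 983040) (hy : sumQ c.y = 983040) (hz : sumQ c.z = 983040)
    (hx' : sumQ d.x = 983040) (hy' : sumQ d.y = 983040) (hz' : sumQ d.z = 983040) (p : ℕ)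
    (hp : p < (cube K.m).length)
    (hb : (z2 K f g Bi Ci Bj Cj c d).testBit (40 * p + 39) = true)
    (k : Fin 3 → ℤ) (h0 : k 0 = (((cube K.m)[p]).1 : ℤ) - K.m)
    (h1 : k 1 = (((cube K.m)[p]).2.1 : ℤ) - K.m)
    (h2 : k 2 = (((cube K.m)[p]).2.2 : ℤ) - K.m) (m m' : Fin 4) :
    fn f ⬝ᵥ vec (vx Ci m) + fn g ⬝ᵥ vec (vx Bi m) ≤
      fn f ⬝ᵥ (vec (vx Cj m') + ∑ a, (k a : ℝ) • vec (ux d a)) +
        fn g ⬝ᵥ (vec (vx Bj m') + ∑ a, (k a : ℝ) • vec (ux c a)) := by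
  have h7 := bit_z2 hK hm3 hf hg hx hy hz hx' hy' hz' (hi2_le hf hg hBi hCi).1
    (hi2_le hf hg hBj hCj).2 p hp hb
  have h8 : (dot4 f (vx Ci m) : ℝ) + dot4 g (vx Bi m) ≤ dot4 f (vx Cj m') +
      dot4 g (vx Bj m') + (((val f d K.m ((cube K.m)[p]) : ℤ) : ℝ) +
        ((val g c K.m ((cube K.m)[p]) : ℤ) : ℝ)) := by
    have e1 : (dot4 f (vx Ci m) : ℤ) + dot4 g (vx Bi m) ≤ hi2 f g Bi Ci := by
      exact_mod_cast le_hi2 _ _ _ _ _
    have e2 : (lo2 f g Bj Cj : ℤ) ≤ dot4 f (vx Cj m') + dot4 g (vx Bj m') := by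
      exact_mod_cast lo2_le _ _ _ _ _
    have e3 : (dot4 f (vx Ci m) : ℤ) + dot4 g (vx Bi m) ≤ dot4 f (vx Cj m') +
      dot4 g (vx Bj m') + (val f d K.m ((cube K.m)[p]) + val g c K.m ((cube K.m)[p])) := by
      linarith
    exact_mod_cast e3
  rw [dot4_real hf (okB_vx hCi m), dot4_real hg (okB_vx hBi m), dot4_real hf (okB_vx hCj m'),
    dot4_real hg (okB_vx hBj m'), val_real hf hx' hy' hz' K.m _ k h0 h1 h2,
    val_real hg hx hy hz K.m _ k h0 h1 h2] at h8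
  rw [dotProduct_add, dotProduct_add]
  linarith

end Pool.Agent.TET.A
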