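import Pool.Agent.Helper37_TET.SoundA1

/-!
# MP_c7c9bf_co: soundness of the separation part of the checker with affine functionals
-/

set_option autoImplicit false

namespace Pool.Agent.TET.A

/-- the functional never vanishes on the triangle -/
theorem okT_ne {F : F3} (h : okT F = true) (l : Fin 3 → ℝ) (hl : ∀ k, 0 ≤ l k)
    (hl1 : ∑ k, l k = 1) : ∑ k, l k • fn ((![F.f, F.g, F.h] : Fin 3 → Q) k) ≠ 0 := by
  obtain ⟨h1, h2⟩ := bAnd.1 h
  obtain ⟨s1, h3⟩ := bAnd.1 h1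
  obtain ⟨s2, s3⟩ := bAnd.1 h3
  obtain ⟨d1, h4⟩ := bAnd.1 h2
  obtain ⟨d2, d3⟩ := bAnd.1 h4
  have s1' : (F.f.a + F.f.b) + (F.f.c + F.f.d) = 16384 := nbeq.1 s1
  have s2' : (F.g.a + F.g.b) + (F.g.c + F.g.d) = 16384 := nbeq.1 s2
  have s3' : (F.h.a + F.h.b) + (F.h.c + F.h.d) = 16384 := nbeq.1 s3
  have d1' := nble.1 d1
  have d2' := nble.1 d2
  have d3' := nble.1 d3
  rw [dot4_eq] at d1' d2' d3'
  have r1 : (F.f.a : ℝ) + F.f.b + (F.f.c + F.f.d) = 16384 := by exact_mod_cast s1'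
  have r2 : (F.g.a : ℝ) + F.g.b + (F.g.c + F.g.d) = 16384 := by exact_mod_cast s2'
  have r3 : (F.h.a : ℝ) + F.h.b + (F.h.c + F.h.d) = 16384 := by exact_mod_cast s3'
  have e1 : (67108865 : ℝ) ≤ (F.f.a : ℝ) * F.f.a + F.f.b * F.f.b +
      (F.f.c * F.f.c + F.f.d * F.f.d) := by exact_mod_cast d1'
  have e2 : (67108865 : ℝ) ≤ (F.f.a : ℝ) * F.g.a + F.f.b * F.g.b +
      (F.f.c * F.g.c + F.f.d * F.g.d) := by exact_mod_cast d2'
  have e3 : (67108865 : ℝ) ≤ (F.f.a : ℝ) * F.h.a + F.f.b * F.h.b +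
      (F.f.c * F.h.c + F.f.d * F.h.d) := by exact_mod_cast d3'
  intro h0
  have p0 := congrFun h0 0
  have p1 := congrFun h0 1
  have p2 := congrFun h0 2
  rw [Fin.sum_univ_three] at p0 p1 p2 hl1
  have q0 : l 0 * ((F.f.b : ℝ) - F.f.a) + l 1 * ((F.g.b : ℝ) - F.g.a) +
      l 2 * ((F.h.b : ℝ) - F.h.a) = 0 := p0
  have q1 : l 0 * ((F.f.c : ℝ) - F.f.a) + l 1 * ((F.g.c : ℝ) - F.g.a) +
      l 2 * ((F.h.c : ℝ) - F.h.a) = 0 := p1
  have q2 : l 0 * ((F.f.d : ℝ) - F.f.a) + l 1 * ((F.g.d : ℝ) - F.g.a) +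
      l 2 * ((F.h.d : ℝ) - F.h.a) = 0 := p2
  have sa : l 0 * (F.f.a : ℝ) + l 1 * F.g.a + l 2 * F.h.a = 4096 := by
    linear_combination (l 0 * r1 + l 1 * r2 + l 2 * r3 - q0 - q1 - q2) / 4 + 4096 * hl1
  have sb : l 0 * (F.f.b : ℝ) + l 1 * F.g.b + l 2 * F.h.b = 4096 := by
    linear_combination sa + q0
  have sc : l 0 * (F.f.c : ℝ) + l 1 * F.g.c + l 2 * F.h.c = 4096 := by
    linear_combination sa + q1
  have sd : l 0 * (F.f.d : ℝ) + l 1 * F.g.d + l 2 * F.h.d = 4096 := by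
    linear_combination sa + q2
  have big : (67108865 : ℝ) ≤ l 0 * ((F.f.a : ℝ) * F.f.a + F.f.b * F.f.b +
      (F.f.c * F.f.c + F.f.d * F.f.d)) + l 1 * ((F.f.a : ℝ) * F.g.a + F.f.b * F.g.b +
      (F.f.c * F.g.c + F.f.d * F.g.d)) + l 2 * ((F.f.a : ℝ) * F.h.a + F.f.b * F.h.b +
      (F.f.c * F.h.c + F.f.d * F.h.d)) := by
    have a1 := mul_le_mul_of_nonneg_left e1 (hl 0)
    have a2 := mul_le_mul_of_nonneg_left e2 (hl 1)
    have a3 := mul_le_mul_of_nonneg_left e3 (hl 2)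
    linarith
  have eq : l 0 * ((F.f.a : ℝ) * F.f.a + F.f.b * F.f.b +
      (F.f.c * F.f.c + F.f.d * F.f.d)) + l 1 * ((F.f.a : ℝ) * F.g.a + F.f.b * F.g.b +
      (F.f.c * F.g.c + F.f.d * F.g.d)) + l 2 * ((F.f.a : ℝ) * F.h.a + F.f.b * F.h.b +
      (F.f.c * F.h.c + F.f.d * F.h.d)) = 67108864 := by
    linear_combination (F.f.a : ℝ) * sa + (F.f.b : ℝ) * sb + (F.f.c : ℝ) * sc +
      (F.f.d : ℝ) * sd + 4096 * r1
  linarith

/-- separation by a functional which is affine in the triangle -/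
def SepA (C : Fin 3 → Cn) (i j : ℕ) (n : Fin 3 → ℤ) : Prop :=
  ∃ φ : Fin 3 → Fin 3 → ℝ,
    (∀ l : Fin 3 → ℝ, (∀ k, 0 ≤ l k) → ∑ k, l k = 1 → ∑ k, l k • φ k ≠ 0) ∧
    ∀ (k r : Fin 3) (m m' : Fin 4),
      φ k ⬝ᵥ vec (vx (nth b0d (C r).l i) m) + φ r ⬝ᵥ vec (vx (nth b0d (C k).l i) m) ≤
        φ k ⬝ᵥ (vec (vx (nth b0d (C r).l j) m') + ∑ a, (n a : ℝ) • vec (ux (C r) a)) +
        φ r ⬝ᵥ (vec (vx (nth b0d (C k).l j) m') + ∑ a, (n a : ℝ) • vec (ux (C k) a))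

theorem SepA.symm {C : Fin 3 → Cn} {i j : ℕ} {n : Fin 3 → ℤ} (h : SepA C j i (-n)) :
    SepA C i j n := by
  obtain ⟨φ, hφ, h1⟩ := h
  refine ⟨fun k => -φ k, fun l hl hl1 h0 => hφ l hl hl1 ?_, fun k r m m' => ?_⟩
  · have e : ∑ k, l k • -φ k = -∑ k, l k • φ k := by
      rw [← Finset.sum_neg_distrib]
      exact Finset.sum_congr rfl fun k _ => smul_neg _ _
    rw [e, neg_eq_zero] at h0
    exact h0
  · have h2 := h1 k r m' m
    have h4 : ∀ r, ∑ a, (((-n) a : ℤ) : ℝ) • vec (ux (C r) a) =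
        -∑ a, (n a : ℝ) • vec (ux (C r) a) := by
      intro r
      rw [← Finset.sum_neg_distrib]
      refine Finset.sum_congr rfl fun a _ => ?_
      rw [Pi.neg_apply, Int.cast_neg, neg_smul]
    rw [h4, h4, dotProduct_add, dotProduct_add, dotProduct_neg, dotProduct_neg] at h2
    rw [neg_dotProduct, neg_dotProduct, neg_dotProduct, neg_dotProduct, dotProduct_add,
      dotProduct_add]
    linarith

theorem SepA.of_sep {C : Fin 3 → Cn} {i j : ℕ} {n : Fin 3 → ℤ}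
    (h : Sep [C 0, C 1, C 2] i j n) : SepA C i j n := by
  obtain ⟨f, hf, h1⟩ := h
  have hm : ∀ r : Fin 3, C r ∈ [C 0, C 1, C 2] := by
    intro r
    fin_cases r <;> simp
  refine ⟨fun _ => f, fun l _ hl1 h0 => hf ?_, fun k r m m' => ?_⟩
  · rw [← Finset.sum_smul, hl1, one_smul] at h0
    exact h0
  · exact add_le_add (h1 _ (hm r) m m') (h1 _ (hm k) m m')

theorem zs_bit {K : Kc} {c d e : Cn} {Bi Ci Di Bj Cj Dj : Bd} {fs : List F3} {q : ℕ}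
    (h : (zs K c d e Bi Ci Di Bj Cj Dj fs).testBit q = true) :
    ∃ F ∈ fs, (zt K c d e Bi Ci Di Bj Cj Dj F).testBit q = true := by
  induction fs with
  | nil =>
    have h1 : zs K c d e Bi Ci Di Bj Cj Dj [] = 0 := rfl
    rw [h1, Nat.zero_testBit] at h
    exact absurd h (by decide)
  | cons f fs ih =>
    have h1 : zs K c d e Bi Ci Di Bj Cj Dj (f :: fs) =
      (zt K c d e Bi Ci Di Bj Cj Dj f) ||| (zs K c d e Bi Ci Di Bj Cj Dj fs) := rfl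
    rw [h1, Nat.testBit_or, Bool.or_eq_true] at h
    rcases h with h | h
    · exact ⟨f, List.mem_cons_self .., h⟩
    · obtain ⟨g, hg, h2⟩ := ih h
      exact ⟨g, List.mem_cons_of_mem _ hg, h2⟩

theorem nearA {K : Kc} (hK : K.Ok) (hm3 : K.m ≤ 3) {C : Fin 3 → Cn} {N : ℕ}
    (hc : ∀ r, okC N (C r) = true) {i j : ℕ} (hi1 : i < N) (hj1 : j < N) {fs : List F3}
    (hp : prA K (C 0) (C 1) (C 2) i j fs = true)
    (n : ℕ × ℕ × ℕ) (hn : n ∈ cube K.m) (hl : i = j → lex K.m n = true) (k : Fin 3 → ℤ)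
    (h0 : k 0 = (n.1 : ℤ) - K.m) (h1 : k 1 = (n.2.1 : ℤ) - K.m)
    (h2 : k 2 = (n.2.2 : ℤ) - K.m) : SepA C i j k := by
  unfold prA at hp
  obtain ⟨hf, hp⟩ := bAnd.1 hp
  have hf' := (allL_iff _ _).1 hf
  have hp' := nbeq.1 hp
  obtain ⟨p, hp1, hp2⟩ := List.mem_iff_getElem.1 hn
  have hfull : (cond (Nat.beq i j) K.ht K.hh).testBit (40 * p + 39) = true := by
    by_cases hij : i = j
    · rw [nbeq.2 hij, cond_true, hK.ht, pack_testBit _ _ p (by rw [List.length_map]; exact hp1),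
        List.getElem_map, hp2, hl hij, if_pos rfl]
      · decide
      · intro z hz
        obtain ⟨t, -, rfl⟩ := List.mem_map.1 hz
        split_ifs <;> norm_num
    · have h3 : Nat.beq i j = false := by
        by_contra h
        exact hij (nbeq.1 (by simpa using h))
      rw [h3, cond_false, hK.hh, pack_testBit _ _ p (by rw [List.length_map]; exact hp1),
        List.getElem_map]
      · decide
      · intro z hz
        obtain ⟨t, -, rfl⟩ := List.mem_map.1 hz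
        norm_num
  have h4 : (zs K (C 0) (C 1) (C 2) (nth b0d (C 0).l i) (nth b0d (C 1).l i)
      (nth b0d (C 2).l i) (nth b0d (C 0).l j) (nth b0d (C 1).l j)
      (nth b0d (C 2).l j) fs).testBit (40 * p + 39) = true := by
    have h5 : ((zs K (C 0) (C 1) (C 2) (nth b0d (C 0).l i) (nth b0d (C 1).l i)
      (nth b0d (C 2).l i) (nth b0d (C 0).l j) (nth b0d (C 1).l j)
      (nth b0d (C 2).l j) fs) &&& (cond (Nat.beq i j) K.ht K.hh)).testBit (40 * p + 39) =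
        true := by
      have h6 : (zs K (C 0) (C 1) (C 2) (nth b0d (C 0).l i) (nth b0d (C 1).l i)
      (nth b0d (C 2).l i) (nth b0d (C 0).l j) (nth b0d (C 1).l j)
      (nth b0d (C 2).l j) fs) &&& (cond (Nat.beq i j) K.ht K.hh) =
        cond (Nat.beq i j) K.ht K.hh := hp'
      rw [h6]
      exact hfull
    rw [Nat.testBit_and, Bool.and_eq_true] at h5
    exact h5.1
  obtain ⟨F, hfm, h5⟩ := zs_bit h4
  have hfo := hf' F hfm
  obtain ⟨g1, -⟩ := bAnd.1 hfo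
  obtain ⟨s1, g3⟩ := bAnd.1 g1
  obtain ⟨s2, s3⟩ := bAnd.1 g3
  have s1' : sumQ F.f = 16384 := nbeq.1 s1
  have s2' : sumQ F.g = 16384 := nbeq.1 s2
  have s3' : sumQ F.h = 16384 := nbeq.1 s3
  have hdec : zt K (C 0) (C 1) (C 2) (nth b0d (C 0).l i) (nth b0d (C 1).l i)
      (nth b0d (C 2).l i) (nth b0d (C 0).l j) (nth b0d (C 1).l j) (nth b0d (C 2).l j) F =
      ((z1 K F.f (nth b0d (C 0).l i) (nth b0d (C 0).l j) (C 0)) &&&
        ((z1 K F.g (nth b0d (C 1).l i) (nth b0d (C 1).l j) (C 1)) &&&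
          (z1 K F.h (nth b0d (C 2).l i) (nth b0d (C 2).l j) (C 2)))) &&&
      ((z2 K F.f F.g (nth b0d (C 0).l i) (nth b0d (C 1).l i) (nth b0d (C 0).l j)
          (nth b0d (C 1).l j) (C 0) (C 1)) &&&
        ((z2 K F.f F.h (nth b0d (C 0).l i) (nth b0d (C 2).l i) (nth b0d (C 0).l j)
          (nth b0d (C 2).l j) (C 0) (C 2)) &&&
        (z2 K F.g F.h (nth b0d (C 1).l i) (nth b0d (C 2).l i) (nth b0d (C 1).l j)
          (nth b0d (C 2).l j) (C 1) (C 2)))) := rfl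
  rw [hdec] at h5
  simp only [Nat.testBit_and, Bool.and_eq_true] at h5
  obtain ⟨⟨t0, t1, t2⟩, t01, t02, t12⟩ := h5
  have hB : ∀ r, okB (nth b0d (C r).l i) = true ∧ okB (nth b0d (C r).l j) = true := by
    intro r
    obtain ⟨-, -, -, hB, hlen⟩ := okC_iff (hc r)
    exact ⟨hB _ (nth_mem b0d (C r).l i (by rw [hlen]; exact hi1)),
      hB _ (nth_mem b0d (C r).l j (by rw [hlen]; exact hj1))⟩
  have hS : ∀ r, sumQ (C r).x = 983040 ∧ sumQ (C r).y = 983040 ∧ sumQ (C r).z = 983040 := by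
    intro r
    obtain ⟨hx, hy, hz, -, -⟩ := okC_iff (hc r)
    exact ⟨hx, hy, hz⟩
  have k0 : k 0 = (((cube K.m)[p]).1 : ℤ) - K.m := by rw [hp2]; exact h0
  have k1 : k 1 = (((cube K.m)[p]).2.1 : ℤ) - K.m := by rw [hp2]; exact h1
  have k2 : k 2 = (((cube K.m)[p]).2.2 : ℤ) - K.m := by rw [hp2]; exact h2
  have w0 := fun m m' => real1 hK s1' (hB 0).1 (hB 0).2 (hS 0).1 (hS 0).2.1 (hS 0).2.2 p hp1 t0
    k k0 k1 k2 m m'
  have w1 := fun m m' => real1 hK s2' (hB 1).1 (hB 1).2 (hS 1).1 (hS 1).2.1 (hS 1).2.2 p hp1 t1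
    k k0 k1 k2 m m'
  have w2 := fun m m' => real1 hK s3' (hB 2).1 (hB 2).2 (hS 2).1 (hS 2).2.1 (hS 2).2.2 p hp1 t2
    k k0 k1 k2 m m'
  have w01 := fun m m' => real2 hK hm3 s1' s2' (hB 0).1 (hB 1).1 (hB 0).2 (hB 1).2 (hS 0).1
    (hS 0).2.1 (hS 0).2.2 (hS 1).1 (hS 1).2.1 (hS 1).2.2 p hp1 t01 k k0 k1 k2 m m'
  have w02 := fun m m' => real2 hK hm3 s1' s3' (hB 0).1 (hB 2).1 (hB 0).2 (hB 2).2 (hS 0).1
    (hS 0).2.1 (hS 0).2.2 (hS 2).1 (hS 2).2.1 (hS 2).2.2 p hp1 t02 k k0 k1 k2 m m'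
  have w12 := fun m m' => real2 hK hm3 s2' s3' (hB 1).1 (hB 2).1 (hB 1).2 (hB 2).2 (hS 1).1
    (hS 1).2.1 (hS 1).2.2 (hS 2).1 (hS 2).2.1 (hS 2).2.2 p hp1 t12 k k0 k1 k2 m m'
  refine ⟨fun r => fn ((![F.f, F.g, F.h] : Fin 3 → Q) r), fun l hl hl1 => okT_ne hfo l hl hl1,
    fun r s m m' => ?_⟩
  fin_cases r <;> fin_cases s
  · exact add_le_add (w0 m m') (w0 m m')
  · exact w01 m m'
  · exact w02 m m'
  · have h := w01 m m'
    show fn F.g ⬝ᵥ _ + fn F.f ⬝ᵥ _ ≤ fn F.g ⬝ᵥ _ + fn F.f ⬝ᵥ _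
    rw [add_comm (fn F.g ⬝ᵥ _), add_comm (fn F.g ⬝ᵥ _)]
    exact h
  · exact add_le_add (w1 m m') (w1 m m')
  · exact w12 m m'
  · have h := w02 m m'
    show fn F.h ⬝ᵥ _ + fn F.f ⬝ᵥ _ ≤ fn F.h ⬝ᵥ _ + fn F.f ⬝ᵥ _
    rw [add_comm (fn F.h ⬝ᵥ _), add_comm (fn F.h ⬝ᵥ _)]
    exact h
  · have h := w12 m m'
    show fn F.h ⬝ᵥ _ + fn F.g ⬝ᵥ _ ≤ fn F.h ⬝ᵥ _ + fn F.g ⬝ᵥ _
    rw [add_comm (fn F.h ⬝ᵥ _), add_comm (fn F.h ⬝ᵥ _)]
    exact h
  · exact add_le_add (w2 m m') (w2 m m')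

theorem prsA_iff {K : Kc} {c d e : Cn} {n : ℕ} {F : List (List (List F3))}
    (h : prsA K c d e n F = true) {i j : ℕ} (hi1 : i < n) (hj1 : j < n) (hij : i ≤ j) :
    prA K c d e i j (nth [] (nth [] F i) j) = true := by
  have h1 := (allLt_iff _ _).1 h i hi1
  have h2 := (allLt_iff _ _).1 h1 j hj1
  have h3 : Nat.ble (Nat.succ j) i = false := by
    by_contra hb
    have : Nat.succ j ≤ i := nble.1 (by simpa using hb)
    omega
  rw [h3] at h2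
  exact h2

theorem nearA' {K : Kc} (hK : K.Ok) (hm3 : K.m ≤ 3) {C : Fin 3 → Cn} {N : ℕ}
    (hc : ∀ r, okC N (C r) = true) {F : List (List (List F3))}
    (hp : prsA K (C 0) (C 1) (C 2) N F = true) {i j : ℕ} (hi1 : i < N) (hj1 : j < N)
    (hij : i ≤ j) (n : Fin 3 → ℤ) (hn : ∀ a, |n a| ≤ K.m)
    (hl : i = j → lex K.m ((n 0 + K.m).toNat, (n 1 + K.m).toNat, (n 2 + K.m).toNat) = true) :
    SepA C i j n := by
  have hp' := prsA_iff hp hi1 hj1 hij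
  have e : ∀ a, ((n a + K.m).toNat : ℤ) = n a + K.m := fun a =>
    Int.toNat_of_nonneg (by have := (abs_le.1 (hn a)).1; linarith)
  have e2 : ∀ a, (n a + K.m).toNat ≤ 2 * K.m := by
    intro a
    have h1 := (abs_le.1 (hn a)).2
    have h2 := e a
    omega
  refine nearA hK hm3 hc hi1 hj1 hp' ((n 0 + K.m).toNat, (n 1 + K.m).toNat, (n 2 + K.m).toNat)
    (mem_cube.2 ⟨e2 0, e2 1, e2 2⟩) hl n ?_ ?_ ?_
  · show n 0 = (((n 0 + K.m).toNat : ℕ) : ℤ) - K.m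
    rw [e 0]
    ring
  · show n 1 = (((n 1 + K.m).toNat : ℕ) : ℤ) - K.m
    rw [e 1]
    ring
  · show n 2 = (((n 2 + K.m).toNat : ℕ) : ℤ) - K.m
    rw [e 2]
    ring

theorem sepA_all {K : Kc} (hK : K.Ok) (hm3 : K.m ≤ 3) {C : Fin 3 → Cn} {N : ℕ}
    (hc : ∀ r, okC N (C r) = true) {F : List (List (List F3))}
    (hp : prsA K (C 0) (C 1) (C 2) N F = true) {w1 w2 w3 : Q} (hw1 : okF w1 = true)
    (hw2 : okF w2 = true) (hw3 : okF w3 = true) (hfar : ∀ r, farC K w1 w2 w3 (C r) = true)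
    {i j : ℕ} (hi1 : i < N) (hj1 : j < N) (n : Fin 3 → ℤ) (hn : i = j → n ≠ 0) :
    SepA C i j n := by
  by_cases hfr : ∃ a, (K.m : ℤ) + 1 ≤ |n a|
  · apply SepA.of_sep
    have hc' : ∀ c ∈ [C 0, C 1, C 2], okC N c = true := by
      intro c h
      simp only [List.mem_cons, List.not_mem_nil, or_false] at h
      rcases h with rfl | rfl | rfl
      · exact hc 0
      · exact hc 1
      · exact hc 2
    have hfar' : ∀ c ∈ [C 0, C 1, C 2], farC K w1 w2 w3 c = true := by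
      intro c h
      simp only [List.mem_cons, List.not_mem_nil, or_false] at h
      rcases h with rfl | rfl | rfl
      · exact hfar 0
      · exact hfar 1
      · exact hfar 2
    obtain ⟨a, ha⟩ := Finite.exists_max (fun a => |n a|)
    have ha1 : (K.m : ℤ) + 1 ≤ |n a| := by
      obtain ⟨b, hb⟩ := hfr
      exact hb.trans (ha b)
    have hsum : ∀ c ∈ [C 0, C 1, C 2], sumQ c.x = 983040 ∧ sumQ c.y = 983040 ∧
        sumQ c.z = 983040 := by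
      intro c hcm
      obtain ⟨h1, h2, h3, -, -⟩ := okC_iff (hc' c hcm)
      exact ⟨h1, h2, h3⟩
    have hR : ∀ b, |((n b : ℤ) : ℝ)| ≤ |((n a : ℤ) : ℝ)| := by
      intro b
      have := ha b
      exact_mod_cast this
    have hR1 : (K.m : ℝ) + 1 ≤ |((n a : ℤ) : ℝ)| := by exact_mod_cast ha1
    have hf3 : ∀ c ∈ [C 0, C 1, C 2], far K w1 c.x c.y c.z c.l = true ∧
        far K w2 c.y c.z c.x c.l = true ∧ far K w3 c.z c.x c.y c.l = true := by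
      intro c hcm
      have h := hfar' c hcm
      unfold farC at h
      obtain ⟨h1, h2⟩ := bAnd.1 h
      obtain ⟨h3, h4⟩ := bAnd.1 h2
      exact ⟨h1, h3, h4⟩
    fin_cases a
    · refine far_sep hw1 hc' hi1 hj1 n (fun c => c.x) (fun c => c.y) (fun c => c.z) (n 0) (n 1)
        (n 2) ?_ hsum (fun c h => (hf3 c h).1) hR1 (hR 1) (hR 2)
      intro c _
      rw [Fin.sum_univ_three]
      rfl
    · refine far_sep hw2 hc' hi1 hj1 n (fun c => c.y) (fun c => c.z) (fun c => c.x) (n 1) (n 2)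
        (n 0) ?_ (fun c h => ⟨(hsum c h).2.1, (hsum c h).2.2, (hsum c h).1⟩)
        (fun c h => (hf3 c h).2.1) hR1 (hR 2) (hR 0)
      intro c _
      rw [Fin.sum_univ_three]
      show (n 0 : ℝ) • vec c.x + (n 1 : ℝ) • vec c.y + (n 2 : ℝ) • vec c.z = _
      abel
    · refine far_sep hw3 hc' hi1 hj1 n (fun c => c.z) (fun c => c.x) (fun c => c.y) (n 2) (n 0)
        (n 1) ?_ (fun c h => ⟨(hsum c h).2.2, (hsum c h).1, (hsum c h).2.1⟩)
        (fun c h => (hf3 c h).2.2) hR1 (hR 0) (hR 1)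
      intro c _
      rw [Fin.sum_univ_three]
      show (n 0 : ℝ) • vec c.x + (n 1 : ℝ) • vec c.y + (n 2 : ℝ) • vec c.z = _
      abel
  · push Not at hfr
    have hn1 : ∀ a, |n a| ≤ K.m := fun a => by
      have := hfr a
      omega
    have hn2 : ∀ a, |(-n) a| ≤ K.m := fun a => by
      rw [Pi.neg_apply, abs_neg]
      exact hn1 a
    rcases lt_trichotomy i j with h | h | h
    · exact nearA' hK hm3 hc hp hi1 hj1 h.le n hn1 (fun h' => absurd h' h.ne)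
    · rcases lex_or hn1 (hn h) with h1 | h1
      · exact nearA' hK hm3 hc hp hi1 hj1 h.le n hn1 (fun _ => h1)
      · refine SepA.symm (nearA' hK hm3 hc hp hj1 hi1 h.ge (-n) hn2 (fun _ => h1))
    · exact SepA.symm (nearA' hK hm3 hc hp hj1 hi1 h.le (-n) hn2 (fun h' => absurd h' h.ne))

/-- evaluation at a point of the triangle -/
theorem bil_le {φ X Y : Fin 3 → Fin 3 → ℝ} (l : Fin 3 → ℝ) (hl : ∀ k, 0 ≤ l k)
    (h : ∀ k r, φ k ⬝ᵥ X r + φ r ⬝ᵥ X k ≤ φ k ⬝ᵥ Y r + φ r ⬝ᵥ Y k) :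
    (∑ k, l k • φ k) ⬝ᵥ (∑ r, l r • X r) ≤ (∑ k, l k • φ k) ⬝ᵥ (∑ r, l r • Y r) := by
  have key : ∀ Z : Fin 3 → Fin 3 → ℝ, (∑ k, l k • φ k) ⬝ᵥ (∑ r, l r • Z r) =
      (1 / 2) * ∑ k, ∑ r, l k * l r * (φ k ⬝ᵥ Z r + φ r ⬝ᵥ Z k) := by
    intro Z
    have e1 : (∑ k, l k • φ k) ⬝ᵥ (∑ r, l r • Z r) = ∑ k, ∑ r, l k * l r * (φ k ⬝ᵥ Z r) := by
      rw [dotProduct_comm, dot_sum]
      refine Finset.sum_congr rfl fun k _ => ?_
      rw [dotProduct_comm, dot_sum, Finset.mul_sum]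
      exact Finset.sum_congr rfl fun r _ => by ring
    have e2 : ∑ k, ∑ r, l k * l r * (φ r ⬝ᵥ Z k) = ∑ k, ∑ r, l k * l r * (φ k ⬝ᵥ Z r) := by
      rw [Finset.sum_comm]
      exact Finset.sum_congr rfl fun k _ => Finset.sum_congr rfl fun r _ => by ring
    simp only [mul_add, Finset.sum_add_distrib]
    rw [e2, ← e1]
    ring
  rw [key X, key Y]
  refine mul_le_mul_of_nonneg_left ?_ (by norm_num)
  exact Finset.sum_le_sum fun k _ => Finset.sum_le_sum fun r _ =>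
    mul_le_mul_of_nonneg_left (h k r) (mul_nonneg (hl k) (hl r))

end Pool.Agent.TET.A
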