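import Pool.Agent.Helper37_TET.SoundA2

/-!
# MP_c7c9bf_co: soundness of the checker with affine functionals, conclusion
-/

set_option autoImplicit false

namespace Pool.Agent.TET.A

/-- the part of the soundness proof which does not depend on the separation -/
theorem core {A : List ℕ} {n : ℕ} {ts : List ℕ} {cs : List Cn} (hN : 1 ≤ n)
    (hS : ∀ c ∈ cs, semL c.e c.f c.g ts c.l = true) (hT : ts.length = n)
    (hM : ∀ τ ∈ ts, τ ∈ A)
    (hD : ∀ a ∈ cs, ∀ b ∈ cs, ∀ c ∈ cs, okD n (sdet a b c) (vdet a b c) = true)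
    (l : Fin cs.length → ℝ) (hl : ∀ k, 0 ≤ l k) (hl1 : ∑ k, l k = 1)
    (hsep : ∀ i j : ℕ, i < n → j < n → ∀ k : Fin 3 → ℤ, (i = j → k ≠ 0) →
      ∃ g : Fin 3 → ℝ, g ≠ 0 ∧ ∀ m m' : Fin 4,
        g ⬝ᵥ ∑ r, l r • vec (vx (nth b0d (cs.get r).l i) m) ≤
          g ⬝ᵥ ∑ r, l r • (vec (vx (nth b0d (cs.get r).l j) m') +
            ∑ a, (k a : ℝ) • vec (ux (cs.get r) a))) :
    GoodV A (∑ k, l k • vm (cs.get k)) := by
  have hmem : ∀ k : Fin cs.length, cs.get k ∈ cs := fun k => List.get_mem _ _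
  have hvx : ∀ (i : Fin n) (c : Cn), c ∈ cs → ∀ m, vec (vx (nth b0d c.l i) m) =
      vec (nth b0d c.l i).p + dg (nth 0 ts i) (Vx (vm c) m) := by
    intro i c hc m
    exact semB_real (semL_nth ts c.l (hS _ hc) i (by rw [hT]; exact i.2)) m
  obtain ⟨U, hU⟩ : ∃ U : Fin 3 → Fin 3 → ℝ, U = fun a => ∑ k, l k • vec (ux (cs.get k) a) :=
    ⟨_, rfl⟩
  obtain ⟨V, hV⟩ : ∃ V : Fin 3 → Fin 3 → ℝ, V = ∑ k, l k • vm (cs.get k) := ⟨_, rfl⟩
  obtain ⟨t, ht⟩ : ∃ t : Fin n → Fin 3 → ℝ,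
      t = fun (i : Fin n) => ∑ k, l k • vec (nth b0d (cs.get k).l (i : ℕ)).p := ⟨_, rfl⟩
  -- determinants
  have hdet : (Matrix.of U).det = ∑ a, ∑ b, ∑ c, l a * l b * l c *
      d3 (vec (cs.get a).x) (vec (cs.get b).y) (vec (cs.get c).z) := by
    rw [d3_det, hU]
    exact d3_sum l (fun k => vec (cs.get k).x) (fun k => vec (cs.get k).y)
      (fun k => vec (cs.get k).z)
  have hdetV : (Matrix.of V).det = ∑ a, ∑ b, ∑ c, l a * l b * l c *
      d3 (vec (cs.get a).e) (vec (cs.get b).f) (vec (cs.get c).g) := by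
    rw [d3_det, hV, Finset.sum_apply, Finset.sum_apply, Finset.sum_apply]
    exact d3_sum l (fun k => vec (cs.get k).e) (fun k => vec (cs.get k).f)
      (fun k => vec (cs.get k).g)
  have hsym := sym_sum l (fun a b c => d3 (vec (cs.get a).x) (vec (cs.get b).y)
    (vec (cs.get c).z))
  have hsymV := sym_sum l (fun a b c => d3 (vec (cs.get a).e) (vec (cs.get b).f)
    (vec (cs.get c).g))
  rw [← hdet] at hsym
  rw [← hdetV] at hsymV
  have hone : ∑ a, ∑ b, ∑ c, l a * l b * l c = 1 := by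
    have e1 : ∀ a b, ∑ c, l a * l b * l c = l a * l b := by
      intro a b
      rw [← Finset.mul_sum, hl1, mul_one]
    have e2 : ∀ a, ∑ b, ∑ c, l a * l b * l c = l a := by
      intro a
      rw [Finset.sum_congr rfl fun b _ => e1 a b, ← Finset.mul_sum, hl1, mul_one]
    rw [Finset.sum_congr rfl fun a _ => e2 a, hl1]
  obtain ⟨S1, hS1⟩ : ∃ S1 : Fin cs.length → Fin cs.length → Fin cs.length → ℝ,
      S1 = fun a b c => d3 (vec (cs.get a).x) (vec (cs.get b).y) (vec (cs.get c).z) +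
      d3 (vec (cs.get a).x) (vec (cs.get c).y) (vec (cs.get b).z) +
      d3 (vec (cs.get b).x) (vec (cs.get a).y) (vec (cs.get c).z) +
      d3 (vec (cs.get b).x) (vec (cs.get c).y) (vec (cs.get a).z) +
      d3 (vec (cs.get c).x) (vec (cs.get a).y) (vec (cs.get b).z) +
      d3 (vec (cs.get c).x) (vec (cs.get b).y) (vec (cs.get a).z) := ⟨_, rfl⟩
  obtain ⟨S2, hS2⟩ : ∃ S2 : Fin cs.length → Fin cs.length → Fin cs.length → ℝ,
      S2 = fun a b c => d3 (vec (cs.get a).e) (vec (cs.get b).f) (vec (cs.get c).g) +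
      d3 (vec (cs.get a).e) (vec (cs.get c).f) (vec (cs.get b).g) +
      d3 (vec (cs.get b).e) (vec (cs.get a).f) (vec (cs.get c).g) +
      d3 (vec (cs.get b).e) (vec (cs.get c).f) (vec (cs.get a).g) +
      d3 (vec (cs.get c).e) (vec (cs.get a).f) (vec (cs.get b).g) +
      d3 (vec (cs.get c).e) (vec (cs.get b).f) (vec (cs.get a).g) := ⟨_, rfl⟩
  have hsd : ∀ a b c, (1 : ℝ) / 30720 ^ 3 ≤ S1 a b c ∧
      444294 * S1 a b c ≤ 100000 * n * S2 a b c := by
    intro a b c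
    obtain ⟨g1, g2⟩ := okD_iff (hD _ (hmem a) _ (hmem b) _ (hmem c))
    have e1 : S1 a b c = ((sdet (cs.get a) (cs.get b) (cs.get c) : ℤ) : ℝ) / 30720 ^ 3 := by
      rw [hS1]
      exact get_sum (X := Cn.x) (Y := Cn.y) (Z := Cn.z)
    have e2 : S2 a b c = ((vdet (cs.get a) (cs.get b) (cs.get c) : ℤ) : ℝ) / 30720 ^ 3 := by
      rw [hS2]
      exact get_sum (X := Cn.e) (Y := Cn.f) (Z := Cn.g)
    have g1' : (1 : ℝ) ≤ ((sdet (cs.get a) (cs.get b) (cs.get c) : ℤ) : ℝ) := by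
      exact_mod_cast g1
    have g2' : (444294 : ℝ) * ((sdet (cs.get a) (cs.get b) (cs.get c) : ℤ) : ℝ) ≤
        100000 * n * ((vdet (cs.get a) (cs.get b) (cs.get c) : ℤ) : ℝ) := by
      exact_mod_cast g2
    rw [e1, e2]
    constructor
    · exact div_le_div_of_nonneg_right g1' (by norm_num)
    · rw [← mul_div_assoc, ← mul_div_assoc]
      exact div_le_div_of_nonneg_right g2' (by norm_num)
  have hl3 : ∀ a b c, 0 ≤ l a * l b * l c := fun a b c =>
    mul_nonneg (mul_nonneg (hl a) (hl b)) (hl c)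
  have hlow : (1 : ℝ) / 30720 ^ 3 ≤ 6 * (Matrix.of U).det := by
    rw [← hsym]
    calc (1 : ℝ) / 30720 ^ 3 = ∑ a, ∑ b, ∑ c, l a * l b * l c * (1 / 30720 ^ 3) := by
          simp only [← Finset.sum_mul]
          rw [hone, one_mul]
      _ ≤ ∑ a, ∑ b, ∑ c, l a * l b * l c * S1 a b c :=
          Finset.sum_le_sum fun a _ => Finset.sum_le_sum fun b _ =>
          Finset.sum_le_sum fun c _ => mul_le_mul_of_nonneg_left (hsd a b c).1 (hl3 a b c)
      _ = _ := by rw [hS1]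
  have hupp : 444294 * (6 * (Matrix.of U).det) ≤ 100000 * n * (6 * (Matrix.of V).det) := by
    rw [← hsym, ← hsymV]
    simp only [Finset.mul_sum]
    refine Finset.sum_le_sum fun a _ => Finset.sum_le_sum fun b _ =>
      Finset.sum_le_sum fun c _ => ?_
    have h0 := mul_le_mul_of_nonneg_left (hsd a b c).2 (hl3 a b c)
    rw [hS1, hS2] at h0
    linarith
  have hdpos : 0 < (Matrix.of U).det := by
    have : (0 : ℝ) < 1 / 30720 ^ 3 := by norm_num
    linarith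
  have hNpos : (0 : ℝ) < n := by exact_mod_cast hN
  have hVpos : 0 < (Matrix.of V).det := by
    by_contra hneg
    push Not at hneg
    have h0 : 100000 * (n : ℝ) * (6 * (Matrix.of V).det) ≤ 0 :=
      mul_nonpos_of_nonneg_of_nonpos (by positivity) (by linarith)
    linarith
  rw [← hV]
  refine ⟨n, fun i => nth 0 ts i, U, t, hN, ?_, abs_pos.2 hdpos.ne', ?_, ?_⟩
  · intro i
    exact hM _ (nth_mem 0 ts i (by rw [hT]; exact i.2))
  · rw [abs_of_pos hdpos, abs_of_pos hVpos]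
    refine pi_bound.trans ?_
    rw [div_le_div_iff₀ (by norm_num) (by positivity)]
    linarith
  · intro i j k hk
    obtain ⟨g, hg0, hg⟩ := hsep i j i.2 j.2 k (fun h => hk (Fin.ext h))
    refine ⟨g, hg0, fun m m' => ?_⟩
    have e1 : ∀ (i : Fin n) (m : Fin 4), dg (nth 0 ts i) (Vx V m) +
        t i = ∑ k, l k • vec (vx (nth b0d (cs.get k).l i) m) := by
      intro i m
      rw [hV, Vx_sum, dg_sum, ht]
      show (∑ k, l k • dg (nth 0 ts i) (Vx (vm (cs.get k)) m)) +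
        ∑ k, l k • vec (nth b0d (cs.get k).l i).p = _
      rw [← Finset.sum_add_distrib]
      refine Finset.sum_congr rfl fun k _ => ?_
      rw [hvx i _ (hmem k) m, smul_add, add_comm]
    have e2 : ∑ a, (k a : ℝ) • U a = ∑ r, l r • ∑ a, (k a : ℝ) • vec (ux (cs.get r) a) := by
      rw [hU]
      simp only [Finset.smul_sum]
      rw [Finset.sum_comm]
      exact Finset.sum_congr rfl fun r _ => Finset.sum_congr rfl fun a _ => smul_comm _ _ _
    rw [e1 i m, ← add_assoc, e1 j m', e2, ← Finset.sum_add_distrib]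
    simp only [← smul_add]
    exact hg m m'

/-- **Soundness of the checker with affine functionals.** -/
theorem chkA_sound {K : Kc} (hK : K.Ok) {A : List ℕ} {X : Cel} (h : chkA K A X = true)
    (x y z : ℝ) (hx : 0 ≤ x) (hy : 0 ≤ y) (hz : 0 ≤ z) (hs : x + y + z = 1) :
    GoodV A (x • vm X.c + y • vm X.d + z • vm X.e) := by
  unfold chkA at h
  obtain ⟨h12, h3⟩ := bAnd.1 h
  obtain ⟨h1, h2⟩ := bAnd.1 h12
  obtain ⟨h1, hm⟩ := bAnd.1 h1
  obtain ⟨h45, h6⟩ := bAnd.1 h3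
  obtain ⟨h4, h5'⟩ := bAnd.1 h45
  obtain ⟨h5, hmb⟩ := bAnd.1 h5'
  obtain ⟨h7, h8⟩ := bAnd.1 h6
  obtain ⟨h9, h10⟩ := bAnd.1 h8
  obtain ⟨h11, hprs⟩ := bAnd.1 h10
  obtain ⟨hw1, h7'⟩ := bAnd.1 h7
  obtain ⟨hw2, hw3⟩ := bAnd.1 h7'
  have hm3 : K.m ≤ 3 := nble.1 hm
  have hC : ∀ c ∈ [X.c, X.d, X.e], okC X.n c = true := (allL_iff _ _).1 h2
  have hF : ∀ c ∈ [X.c, X.d, X.e], farC K X.w1 X.w2 X.w3 c = true := (allL_iff _ _).1 h9
  obtain ⟨C, hCdef⟩ : ∃ C : Fin 3 → Cn, C = ![X.c, X.d, X.e] := ⟨_, rfl⟩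
  have c0 : C 0 = X.c := by rw [hCdef]; rfl
  have c1 : C 1 = X.d := by rw [hCdef]; rfl
  have c2 : C 2 = X.e := by rw [hCdef]; rfl
  have hCm : ∀ r : Fin 3, C r ∈ [X.c, X.d, X.e] := by
    intro r
    fin_cases r
    · show C 0 ∈ _
      rw [c0]
      simp
    · show C 1 ∈ _
      rw [c1]
      simp
    · show C 2 ∈ _
      rw [c2]
      simp
  have hget : ∀ r : Fin 3, ([X.c, X.d, X.e] : List Cn).get r = C r := by
    intro r
    rw [hCdef]
    fin_cases r <;> rfl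
  have hl : ∀ k, 0 ≤ (![x, y, z] : Fin 3 → ℝ) k := by
    intro k
    fin_cases k <;> assumption
  have hl1 : ∑ k, (![x, y, z] : Fin 3 → ℝ) k = 1 := (Fin.sum_univ_three _).trans hs
  have h13 := core (A := A) (n := X.n) (ts := X.t) (cs := [X.c, X.d, X.e]) (nble.1 h1)
    ((allL_iff _ _).1 h4) (nbeq.1 h5)
    (fun τ hτ => memb_iff ((allL_iff _ _).1 hmb τ hτ))
    (fun a ha b hb c hc => (allL_iff _ _).1 ((allL_iff _ _).1 ((allL_iff _ _).1 h11 a ha) b hb) c hc)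
    (![x, y, z] : Fin 3 → ℝ) hl hl1 (by
      intro i j hi1 hj1 k hk
      have hprs' : prsA K (C 0) (C 1) (C 2) X.n X.f = true := by
        rw [c0, c1, c2]
        exact hprs
      obtain ⟨φ, hφ, hle⟩ := sepA_all hK hm3 (C := C) (fun r => hC _ (hCm r)) hprs' hw1 hw2 hw3
        (fun r => hF _ (hCm r)) hi1 hj1 k hk
      refine ⟨∑ k, (![x, y, z] : Fin 3 → ℝ) k • φ k, hφ _ hl hl1, fun m m' => ?_⟩
      have h14 := bil_le (φ := φ) (X := fun r => vec (vx (nth b0d (C r).l i) m))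
        (Y := fun r => vec (vx (nth b0d (C r).l j) m') + ∑ a, (k a : ℝ) • vec (ux (C r) a))
        (![x, y, z] : Fin 3 → ℝ) hl (fun s r => hle s r m m')
      have e3 : ∀ r : Fin 3, ([X.c, X.d, X.e] : List Cn).get r = C r := hget
      simp only [← e3] at h14
      exact h14)
  have e : ∑ k : Fin 3, (![x, y, z] : Fin 3 → ℝ) k • vm (([X.c, X.d, X.e] : List Cn).get k) =
      x • vm X.c + y • vm X.d + z • vm X.e := Fin.sum_univ_three _
  rw [← e]
  exact h13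

/-- the check of a triangle -/
def chk3A (K : Kc) (A : List ℕ) (X : Cel) (a b c : QV) : Bool :=
  Bool.and (chkA K A X) (Bool.and (eqC X.c a) (Bool.and (eqC X.d b) (eqC X.e c)))

/-- **A leaf.** -/
theorem cov_leafA {K : Kc} (hK : K.Ok) {A : List ℕ} {X : Cel} {a b c : QV}
    (h : chk3A K A X a b c = true) : Cov A (vq a) (vq b) (vq c) := by
  obtain ⟨h1, h2⟩ := bAnd.1 h
  obtain ⟨g1, g2⟩ := bAnd.1 h2
  obtain ⟨g3, g4⟩ := bAnd.1 g2
  rw [← eqC_vm g1, ← eqC_vm g3, ← eqC_vm g4]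
  intro x y z hx hy hz hs
  exact chkA_sound hK h1 x y z hx hy hz hs

end Pool.Agent.TET.A
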